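import Pool.Agent.Lib.H1M.RV.D_H18P_P3

/-!
# Project H18Q: definitions for the final statement (power savings)
-/

open Finset Pool.Agent.Lib.H18GB Pool.Agent.Lib.GoldbachGraph Pool.Agent.Lib.H18E Pool.Agent.Goldbach
  Pool.Agent.Lib.H18P

namespace Pool.Agent.Lib.H18Q

/-- The conclusion of `main_pow` (`MP.lean`), the input of module G. -/
def MainPow (δ0 c0 : ℝ) : Prop :=
  ∀ a b : ℝ, 0 < a → a < b → b < δ0 → ∃ n0 : ℕ, ∀ n : ℕ, n0 ≤ n → ∃ B : Finset ℕ, B ⊆ Icc 1 n ∧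
    (B.card : ℝ) ≤ (n : ℝ) ^ (1 - a) / 2 ∧ ∃ r1 : ℕ, (r1 = 0 ∨ 7 ≤ r1) ∧
    ∀ x ∈ Icc 1 n, x ∉ B → B.card < ohdeg n x ∧ (n : ℝ) ^ (1 - b) ≤ ohdeg n x ∧
      (¬ r1 ∣ x → c0 * SE x * n / (Real.log n) ^ 2 ≤ ohdeg n x)

/-- `u` is rich: for some scale `m` with `n0 ≤ m ≤ n` it is a vertex of `G m` with at least
`m ^ (1 - b)` neighbours in `G m`, or `u ≥ n0` has at least `u ^ (1 - b)` representations as
an (ordered) sum of two primes. -/
def RichPow (V : ℕ → Set ℕ) (G : ∀ n, SimpleGraph (V n)) (b : ℝ) (n0 n u : ℕ) : Prop :=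
  (∃ m : ℕ, n0 ≤ m ∧ m ≤ n ∧ ∃ h : u ∈ V m,
    (m : ℝ) ^ (1 - b) ≤ ((G m).neighborSet ⟨u, h⟩).ncard) ∨
  (n0 ≤ u ∧ (u : ℝ) ^ (1 - b) ≤ reps u)

/-- `K` is a core of `G n`: its elements are pairwise at distance at most `7`, all but `n ^ (1 - b)`
vertices are at distance at most `1` from `K`, all vertices of degree at least `n ^ (1 - b)` are at
distance at most `2` from `K`, and all rich vertices at distance at most `12`. -/
structure CorePow (V : ℕ → Set ℕ) (G : ∀ n, SimpleGraph (V n)) (b : ℝ) (n0 n : ℕ) (K : Set (V n)) :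
    Prop where
  core : ∀ u ∈ K, ∀ v ∈ K, (G n).edist u v ≤ 7
  most : ({u : V n | ¬ ∃ z ∈ K, (G n).edist u z ≤ 1}.ncard : ℝ) ≤ (n : ℝ) ^ (1 - b)
  large : ∀ u : V n, (n : ℝ) ^ (1 - b) ≤ ((G n).neighborSet u).ncard →
    ∃ z ∈ K, (G n).edist u z ≤ 2
  rich : ∀ u : V n, RichPow V G b n0 n u → ∃ z ∈ K, (G n).edist u z ≤ 12

/-- Two vertices at distance at most `12` from a core. -/
theorem CorePow.pair {V : ℕ → Set ℕ} {G : ∀ n, SimpleGraph (V n)} {b : ℝ} {n0 n : ℕ} {K : Set (V n)}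
    (h : CorePow V G b n0 n K) {u v : V n} (hu : ∃ z ∈ K, (G n).edist u z ≤ 12)
    (hv : ∃ z ∈ K, (G n).edist v z ≤ 12) : (G n).edist u v ≤ 31 := by
  obtain ⟨z, hz, huz⟩ := hu
  obtain ⟨w, hw, hvw⟩ := hv
  rw [SimpleGraph.edist_comm] at hvw
  calc (G n).edist u v ≤ (G n).edist u w + (G n).edist w v := SimpleGraph.edist_triangle
    _ ≤ ((G n).edist u z + (G n).edist z w) + (G n).edist w v :=
        add_le_add_left SimpleGraph.edist_triangle _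
    _ ≤ (12 + 7) + 12 := add_le_add (add_le_add huz (h.core z hz w hw)) hvw
    _ = 31 := by norm_num

/-- Every even `u ≥ 8` is the sum of two different primes, and every large even `u` in at least
`u ^ (1 - b)` ways. -/
def QuantGoldbachPow (b : ℝ) : Prop :=
  (∀ u : ℕ, Even u → 8 ≤ u → ∃ p q : ℕ, p.Prime ∧ q.Prime ∧ p ≠ q ∧ p + q = u) ∧
  ∃ U : ℕ, ∀ u : ℕ, U ≤ u → Even u → (u : ℝ) ^ (1 - b) ≤ reps u

end Pool.Agent.Lib.H18Q
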