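import Mathlib

/-! Merged copies (to shorten the build) of Lib.Sieve.Combi, Lib.Sieve.BrunHooley, Lib.Sieve.CRT, Lib.Sieve.PrimeSum, Lib.Sieve.Fundamental, Lib.H18GB.Defs, Lib.H18GB.FL, Lib.H18GB.Sing. -/

-- from Lib.Sieve.Combi
section

/-!
# Combinatorial part of the Brun-Hooley sieve

Weighted truncated inclusion-exclusion over finite sets of indices.
-/

set_option linter.unusedSectionVars false

namespace Pool.Agent.Lib.Sieve

open Finset

section

variable {ι : Type*} [DecidableEq ι]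

/-- `poly c f Q = ∑_{D ⊆ Q} c D ∏_{p ∈ D} f p`. -/
def poly (c : Finset ι → ℝ) (f : ι → ℝ) (Q : Finset ι) : ℝ :=
  ∑ D ∈ Q.powerset, c D * ∏ p ∈ D, f p

/-- Coefficients of the inclusion-exclusion sum truncated at `b`. -/
def cT (b : ℕ) (D : Finset ι) : ℝ := if D.card ≤ b then (-1) ^ D.card else 0

/-- Coefficients of the elementary symmetric sum of degree `m`. -/
def cE (m : ℕ) (D : Finset ι) : ℝ := if D.card = m then 1 else 0

/-- Coefficients of the truncated sum of all products. -/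
def cA (m : ℕ) (D : Finset ι) : ℝ := if D.card ≤ m then 1 else 0

theorem poly_empty (c : Finset ι → ℝ) (f : ι → ℝ) : poly c f ∅ = c ∅ := by
  simp [poly]

theorem poly_insert (c : Finset ι → ℝ) (f : ι → ℝ) {Q : Finset ι} {p : ι} (hp : p ∉ Q) :
    poly c f (insert p Q) = poly c f Q + f p * poly (fun D => c (insert p D)) f Q := by
  unfold poly
  rw [Finset.sum_powerset_insert hp, Finset.mul_sum]
  congr 1
  refine Finset.sum_congr rfl fun D hD => ?_
  have hpD : p ∉ D := fun h => hp (Finset.mem_powerset.mp hD h)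
  rw [Finset.prod_insert hpD]
  ring

theorem poly_congr {c c' : Finset ι → ℝ} (f : ι → ℝ) {Q : Finset ι}
    (h : ∀ D ⊆ Q, c D = c' D) : poly c f Q = poly c' f Q := by
  unfold poly
  refine Finset.sum_congr rfl fun D hD => ?_
  rw [h D (Finset.mem_powerset.mp hD)]

theorem poly_neg (c : Finset ι → ℝ) (f : ι → ℝ) (Q : Finset ι) :
    poly (fun D => - c D) f Q = - poly c f Q := by
  unfold poly
  rw [← Finset.sum_neg_distrib]
  refine Finset.sum_congr rfl fun D _ => by ring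

theorem poly_add (c c' : Finset ι → ℝ) (f : ι → ℝ) (Q : Finset ι) :
    poly (fun D => c D + c' D) f Q = poly c f Q + poly c' f Q := by
  unfold poly
  rw [← Finset.sum_add_distrib]
  refine Finset.sum_congr rfl fun D _ => by ring

theorem poly_const_mul (a : ℝ) (c : Finset ι → ℝ) (f : ι → ℝ) (Q : Finset ι) :
    poly (fun D => a * c D) f Q = a * poly c f Q := by
  unfold poly
  rw [Finset.mul_sum]
  refine Finset.sum_congr rfl fun D _ => by ring

theorem poly_nonneg {c : Finset ι → ℝ} {f : ι → ℝ} {Q : Finset ι} (hc : ∀ D, 0 ≤ c D)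
    (hf : ∀ p ∈ Q, 0 ≤ f p) : 0 ≤ poly c f Q := by
  unfold poly
  refine Finset.sum_nonneg fun D hD => mul_nonneg (hc D) ?_
  exact Finset.prod_nonneg fun p hp => hf p (Finset.mem_powerset.mp hD hp)


theorem cT_insert_succ {b : ℕ} {D : Finset ι} {p : ι} (hp : p ∉ D) :
    cT (b + 1) (insert p D) = - cT b D := by
  unfold cT
  rw [Finset.card_insert_of_notMem hp]
  by_cases h : D.card ≤ b
  · rw [if_pos h, if_pos (by omega)]
    ring
  · rw [if_neg h, if_neg (by omega)]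
    simp


theorem polyT_zero (f : ι → ℝ) (Q : Finset ι) : poly (cT 0) f Q = 1 := by
  unfold poly
  rw [Finset.sum_eq_single ∅]
  · simp [cT]
  · intro D _ hD
    have : ¬ D.card ≤ 0 := by
      intro h
      exact hD (Finset.card_eq_zero.mp (by omega))
    simp [cT, this]
  · intro h
    exact absurd (Finset.empty_mem_powerset Q) h

theorem polyT_insert (b : ℕ) (f : ι → ℝ) {Q : Finset ι} {p : ι} (hp : p ∉ Q) :
    poly (cT (b + 1)) f (insert p Q) = poly (cT (b + 1)) f Q - f p * poly (cT b) f Q := by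
  rw [poly_insert _ _ hp]
  rw [poly_congr (c' := fun D => - cT b D) f fun D hD => cT_insert_succ fun h => hp (hD h)]
  rw [poly_neg]
  ring

theorem polyT_succ (b : ℕ) (f : ι → ℝ) (Q : Finset ι) :
    poly (cT (b + 1)) f Q = poly (cT b) f Q + (-1) ^ (b + 1) * poly (cE (b + 1)) f Q := by
  rw [← poly_const_mul, ← poly_add]
  congr 1
  funext D
  unfold cT cE
  by_cases h1 : D.card ≤ b
  · rw [if_pos h1, if_pos (by omega), if_neg (by omega)]
    simp
  · by_cases h2 : D.card = b + 1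
    · rw [if_neg h1, if_pos (by omega), if_pos h2, h2]
      ring
    · rw [if_neg h1, if_neg (by omega), if_neg h2]
      simp

/-- **Bonferroni inequalities**, weighted form. -/
theorem bonferroni (f : ι → ℝ) (Q : Finset ι) (h0 : ∀ p ∈ Q, 0 ≤ f p) (h1 : ∀ p ∈ Q, f p ≤ 1) :
    ∀ b : ℕ, 0 ≤ (-1) ^ b * (poly (cT b) f Q - ∏ p ∈ Q, (1 - f p)) := by
  induction Q using Finset.induction_on with
  | empty =>
    intro b
    rw [poly_empty]
    simp [cT]
  | insert p Q hp ih =>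
    have ih' := ih (fun q hq => h0 q (Finset.mem_insert_of_mem hq))
      (fun q hq => h1 q (Finset.mem_insert_of_mem hq))
    have hfp0 := h0 p (Finset.mem_insert_self p Q)
    have hfp1 := h1 p (Finset.mem_insert_self p Q)
    intro b
    cases b with
    | zero =>
      rw [polyT_zero]
      have : ∏ q ∈ insert p Q, (1 - f q) ≤ 1 := by
        apply Finset.prod_le_one
        · intro q hq
          have := h1 q hq
          linarith
        · intro q hq
          have := h0 q hq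
          linarith
      simp only [pow_zero, one_mul]
      linarith
    | succ b =>
      rw [polyT_insert b f hp, Finset.prod_insert hp]
      have i1 := ih' (b + 1)
      have i2 := mul_nonneg hfp0 (ih' b)
      have : (-1 : ℝ) ^ (b + 1) * (poly (cT (b + 1)) f Q - f p * poly (cT b) f Q
          - (1 - f p) * ∏ q ∈ Q, (1 - f q))
          = (-1) ^ (b + 1) * (poly (cT (b + 1)) f Q - ∏ q ∈ Q, (1 - f q))
            + f p * ((-1) ^ b * (poly (cT b) f Q - ∏ q ∈ Q, (1 - f q))) := by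
        rw [pow_succ]
        ring
      rw [this]
      linarith

theorem le_polyT_of_even {f : ι → ℝ} {Q : Finset ι} (h0 : ∀ p ∈ Q, 0 ≤ f p)
    (h1 : ∀ p ∈ Q, f p ≤ 1) {b : ℕ} (hb : Even b) :
    ∏ p ∈ Q, (1 - f p) ≤ poly (cT b) f Q := by
  have h := bonferroni f Q h0 h1 b
  rw [hb.neg_one_pow] at h
  linarith

theorem polyT_le_of_even {f : ι → ℝ} {Q : Finset ι} (h0 : ∀ p ∈ Q, 0 ≤ f p)
    (h1 : ∀ p ∈ Q, f p ≤ 1) {b : ℕ} (hb : Even b) :
    poly (cT b) f Q ≤ ∏ p ∈ Q, (1 - f p) + poly (cE (b + 1)) f Q := by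
  have h := bonferroni f Q h0 h1 (b + 1)
  have hodd : (-1 : ℝ) ^ (b + 1) = -1 := by
    rw [pow_succ, hb.neg_one_pow]
    ring
  rw [polyT_succ, hodd] at h
  linarith

/-- Rankin's trick for elementary symmetric sums. -/
theorem rankinE {f : ι → ℝ} {Q : Finset ι} (h0 : ∀ p ∈ Q, 0 ≤ f p) (m : ℕ) {l : ℝ} (hl : 0 ≤ l) :
    l ^ m * poly (cE m) f Q ≤ ∏ p ∈ Q, (1 + l * f p) := by
  rw [Finset.prod_one_add]
  unfold poly
  rw [Finset.mul_sum]
  refine Finset.sum_le_sum fun D hD => ?_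
  have hD' := Finset.mem_powerset.mp hD
  rw [Finset.prod_mul_distrib, Finset.prod_const]
  have hprod : 0 ≤ ∏ p ∈ D, f p := Finset.prod_nonneg fun p hp => h0 p (hD' hp)
  unfold cE
  by_cases h : D.card = m
  · rw [if_pos h, h]
    linarith
  · rw [if_neg h]
    have := mul_nonneg (pow_nonneg hl D.card) hprod
    linarith

/-- Rankin's trick for truncated sums. -/
theorem rankinA {f : ι → ℝ} {Q : Finset ι} (h0 : ∀ p ∈ Q, 0 ≤ f p) (m : ℕ) {X : ℝ} (hX : 1 ≤ X) :
    poly (cA m) f Q ≤ X ^ m * ∏ p ∈ Q, (1 + f p / X) := by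
  rw [Finset.prod_one_add]
  unfold poly
  rw [Finset.mul_sum]
  refine Finset.sum_le_sum fun D hD => ?_
  have hD' := Finset.mem_powerset.mp hD
  have hprod : 0 ≤ ∏ p ∈ D, f p := Finset.prod_nonneg fun p hp => h0 p (hD' hp)
  have hXpos : 0 < X := by linarith
  rw [Finset.prod_div_distrib, Finset.prod_const]
  unfold cA
  by_cases h : D.card ≤ m
  · rw [if_pos h, one_mul]
    obtain ⟨t, rfl⟩ := Nat.exists_eq_add_of_le h
    rw [pow_add]
    have h1 : X ^ D.card * X ^ t * ((∏ p ∈ D, f p) / X ^ D.card) = X ^ t * ∏ p ∈ D, f p := by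
      field_simp
    rw [h1]
    have h2 : (1 : ℝ) ≤ X ^ t := one_le_pow₀ hX
    nlinarith
  · rw [if_neg h, zero_mul]
    positivity

end

section

variable {κ : Type*} [DecidableEq κ]

/-- Hooley's telescoping inequality. -/
theorem prod_ge_telescope (J : Finset κ) (x y e : κ → ℝ) (hx : ∀ j ∈ J, 0 ≤ x j)
    (hxy : ∀ j ∈ J, x j ≤ y j) (he : ∀ j ∈ J, y j - x j ≤ e j) :
    ∏ j ∈ J, y j - ∑ l ∈ J, e l * ∏ j ∈ J.erase l, y j ≤ ∏ j ∈ J, x j := by
  induction J using Finset.induction_on with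
  | empty => simp
  | insert a J ha ih =>
    have ih' := ih (fun j hj => hx j (Finset.mem_insert_of_mem hj))
      (fun j hj => hxy j (Finset.mem_insert_of_mem hj))
      (fun j hj => he j (Finset.mem_insert_of_mem hj))
    have hxa := hx a (Finset.mem_insert_self a J)
    have hxya := hxy a (Finset.mem_insert_self a J)
    have hea := he a (Finset.mem_insert_self a J)
    have hy : ∀ j ∈ J, 0 ≤ y j := fun j hj =>
      (hx j (Finset.mem_insert_of_mem hj)).trans (hxy j (Finset.mem_insert_of_mem hj))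
    have hY : 0 ≤ ∏ j ∈ J, y j := Finset.prod_nonneg hy
    rw [Finset.prod_insert ha, Finset.prod_insert ha, Finset.sum_insert ha,
      Finset.erase_insert ha]
    have hsum : ∑ l ∈ J, e l * ∏ j ∈ (insert a J).erase l, y j
        = y a * ∑ l ∈ J, e l * ∏ j ∈ J.erase l, y j := by
      rw [Finset.mul_sum]
      refine Finset.sum_congr rfl fun l hl => ?_
      have hla : l ≠ a := fun h => ha (h ▸ hl)
      rw [Finset.erase_insert_of_ne hla.symm, Finset.prod_insert]
      · ring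
      · intro h
        exact ha (Finset.mem_of_mem_erase h)
    rw [hsum]
    set S := ∑ l ∈ J, e l * ∏ j ∈ J.erase l, y j with hS
    have hSnn : 0 ≤ S := by
      refine Finset.sum_nonneg fun l hl => mul_nonneg ?_ ?_
      · have h1 := hxy l (Finset.mem_insert_of_mem hl)
        have h2 := he l (Finset.mem_insert_of_mem hl)
        linarith
      · exact Finset.prod_nonneg fun j hj => hy j (Finset.mem_of_mem_erase hj)
    have h1 : (y a - x a) * ∏ j ∈ J, y j ≤ e a * ∏ j ∈ J, y j :=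
      mul_le_mul_of_nonneg_right hea hY
    have h2 : x a * S ≤ y a * S := mul_le_mul_of_nonneg_right hxya hSnn
    have h3 : x a * (∏ j ∈ J, y j - S) ≤ x a * ∏ j ∈ J, x j := mul_le_mul_of_nonneg_left ih' hxa
    nlinarith

theorem prod_add_ge (J : Finset κ) (r s : κ → ℝ) (hr : ∀ j ∈ J, 0 ≤ r j)
    (hs : ∀ j ∈ J, 0 ≤ s j) :
    ∏ j ∈ J, r j + ∑ l ∈ J, s l * ∏ j ∈ J.erase l, r j ≤ ∏ j ∈ J, (r j + s j) := by
  induction J using Finset.induction_on with
  | empty => simp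
  | insert a J ha ih =>
    have ih' := ih (fun j hj => hr j (Finset.mem_insert_of_mem hj))
      (fun j hj => hs j (Finset.mem_insert_of_mem hj))
    have hra := hr a (Finset.mem_insert_self a J)
    have hsa := hs a (Finset.mem_insert_self a J)
    rw [Finset.prod_insert ha, Finset.prod_insert ha, Finset.sum_insert ha,
      Finset.erase_insert ha]
    have hsum : ∑ l ∈ J, s l * ∏ j ∈ (insert a J).erase l, r j
        = r a * ∑ l ∈ J, s l * ∏ j ∈ J.erase l, r j := by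
      rw [Finset.mul_sum]
      refine Finset.sum_congr rfl fun l hl => ?_
      have hla : l ≠ a := fun h => ha (h ▸ hl)
      rw [Finset.erase_insert_of_ne hla.symm, Finset.prod_insert]
      · ring
      · intro h
        exact ha (Finset.mem_of_mem_erase h)
    rw [hsum]
    set S := ∑ l ∈ J, s l * ∏ j ∈ J.erase l, r j with hS
    have hSnn : 0 ≤ S := by
      refine Finset.sum_nonneg fun l hl => mul_nonneg (hs l (Finset.mem_insert_of_mem hl)) ?_
      exact Finset.prod_nonneg fun j hj =>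
        hr j (Finset.mem_insert_of_mem (Finset.mem_of_mem_erase hj))
    have h1 : (r a + s a) * (∏ j ∈ J, r j + S) ≤ (r a + s a) * ∏ j ∈ J, (r j + s j) :=
      mul_le_mul_of_nonneg_left ih' (by linarith)
    have h2 : 0 ≤ s a * S := mul_nonneg hsa hSnn
    nlinarith

end

end Pool.Agent.Lib.Sieve
end

-- from Lib.Sieve.BrunHooley
section

/-!
# The Brun-Hooley sieve, abstract form
-/

set_option linter.unusedSectionVars false

namespace Pool.Agent.Lib.Sieve

open Finset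

section

variable {ι κ α : Type*} [DecidableEq ι] [DecidableEq κ]

/-- Sums over `U` of products of sieve polynomials, attached to disjoint blocks of primes. -/
theorem rep (U : Finset α) (χ : ι → α → ℝ) (g ω : ι → ℝ) (M : ℝ) (P : Finset ι)
    (hC : ∀ E ⊆ P, |∑ u ∈ U, ∏ p ∈ E, χ p u - M * ∏ p ∈ E, g p| ≤ ∏ p ∈ E, ω p)
    (c : κ → Finset ι → ℝ) (Q : κ → Finset ι) (J : Finset κ)
    (hQ : ∀ j ∈ J, Q j ⊆ P) (hdisj : ∀ i ∈ J, ∀ j ∈ J, i ≠ j → Disjoint (Q i) (Q j)) :
    ∀ E ⊆ P, (∀ j ∈ J, Disjoint E (Q j)) →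
      |∑ u ∈ U, (∏ j ∈ J, poly (c j) (fun p => χ p u) (Q j)) * ∏ p ∈ E, χ p u
        - M * (∏ j ∈ J, poly (c j) g (Q j)) * ∏ p ∈ E, g p|
      ≤ (∏ j ∈ J, poly (fun D => |c j D|) ω (Q j)) * ∏ p ∈ E, ω p := by
  induction J using Finset.induction_on with
  | empty =>
    intro E hE _
    simpa using hC E hE
  | insert a J ha ih =>
    intro E hE hdE
    have ih' := ih (fun j hj => hQ j (Finset.mem_insert_of_mem hj))
      (fun i hi j hj hij => hdisj i (Finset.mem_insert_of_mem hi) j (Finset.mem_insert_of_mem hj) hij)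
    -- expand the polynomial of the block `a`
    have key : ∀ D ∈ (Q a).powerset,
        |∑ u ∈ U, (∏ j ∈ J, poly (c j) (fun p => χ p u) (Q j)) * ∏ p ∈ D ∪ E, χ p u
          - M * (∏ j ∈ J, poly (c j) g (Q j)) * ∏ p ∈ D ∪ E, g p|
        ≤ (∏ j ∈ J, poly (fun D => |c j D|) ω (Q j)) * ∏ p ∈ D ∪ E, ω p := by
      intro D hD
      have hD' := Finset.mem_powerset.mp hD
      apply ih'
      · exact Finset.union_subset (hD'.trans (hQ a (Finset.mem_insert_self a J))) hE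
      · intro j hj
        rw [Finset.disjoint_union_left]
        refine ⟨?_, hdE j (Finset.mem_insert_of_mem hj)⟩
        have hne : a ≠ j := fun h => ha (h ▸ hj)
        exact Finset.disjoint_of_subset_left hD'
          (hdisj a (Finset.mem_insert_self a J) j (Finset.mem_insert_of_mem hj) hne)
    have hDE : ∀ D ∈ (Q a).powerset, ∀ f : ι → ℝ,
        ∏ p ∈ D ∪ E, f p = (∏ p ∈ D, f p) * ∏ p ∈ E, f p := by
      intro D hD f
      apply Finset.prod_union
      exact Finset.disjoint_of_subset_left (Finset.mem_powerset.mp hD)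
        (hdE a (Finset.mem_insert_self a J)).symm
    have e1 : ∑ u ∈ U, (∏ j ∈ insert a J, poly (c j) (fun p => χ p u) (Q j)) * ∏ p ∈ E, χ p u
        = ∑ D ∈ (Q a).powerset, c a D *
            ∑ u ∈ U, (∏ j ∈ J, poly (c j) (fun p => χ p u) (Q j)) * ∏ p ∈ D ∪ E, χ p u := by
      simp_rw [Finset.mul_sum]
      rw [Finset.sum_comm]
      refine Finset.sum_congr rfl fun u _ => ?_
      rw [Finset.prod_insert ha]
      unfold poly
      rw [Finset.sum_mul, Finset.sum_mul]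
      refine Finset.sum_congr rfl fun D hD => ?_
      rw [hDE D hD]
      ring
    have e2 : M * (∏ j ∈ insert a J, poly (c j) g (Q j)) * ∏ p ∈ E, g p
        = ∑ D ∈ (Q a).powerset, c a D *
            (M * (∏ j ∈ J, poly (c j) g (Q j)) * ∏ p ∈ D ∪ E, g p) := by
      rw [Finset.prod_insert ha]
      unfold poly
      rw [Finset.sum_mul, Finset.mul_sum, Finset.sum_mul]
      refine Finset.sum_congr rfl fun D hD => ?_
      rw [hDE D hD]
      ring
    have e3 : (∏ j ∈ insert a J, poly (fun D => |c j D|) ω (Q j)) * ∏ p ∈ E, ω p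
        = ∑ D ∈ (Q a).powerset, |c a D| *
            ((∏ j ∈ J, poly (fun D => |c j D|) ω (Q j)) * ∏ p ∈ D ∪ E, ω p) := by
      rw [Finset.prod_insert ha]
      unfold poly
      rw [Finset.sum_mul, Finset.sum_mul]
      refine Finset.sum_congr rfl fun D hD => ?_
      rw [hDE D hD]
      ring
    rw [e1, e2, e3, ← Finset.sum_sub_distrib]
    refine (Finset.abs_sum_le_sum_abs _ _).trans (Finset.sum_le_sum fun D hD => ?_)
    rw [← mul_sub, abs_mul]
    exact mul_le_mul_of_nonneg_left (key D hD) (abs_nonneg _)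

/-- The abstract Brun-Hooley sieve: upper and lower bound for the number (weighted) of `u ∈ U`
avoiding all the classes. -/
theorem brun_hooley (U : Finset α) (χ : ι → α → ℝ) (g ω : ι → ℝ) (M : ℝ) (P : Finset ι)
    (hC : ∀ E ⊆ P, |∑ u ∈ U, ∏ p ∈ E, χ p u - M * ∏ p ∈ E, g p| ≤ ∏ p ∈ E, ω p)
    (hM : 0 ≤ M) (hχ0 : ∀ p u, 0 ≤ χ p u) (hχ1 : ∀ p u, χ p u ≤ 1)
    (hg0 : ∀ p ∈ P, 0 ≤ g p) (hg1 : ∀ p ∈ P, g p ≤ 1) (hω : ∀ p ∈ P, 0 ≤ ω p)
    (Q : κ → Finset ι) (J : Finset κ) (b : κ → ℕ) (hb : ∀ j ∈ J, Even (b j))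
    (hQ : ∀ j ∈ J, Q j ⊆ P) (hdisj : ∀ i ∈ J, ∀ j ∈ J, i ≠ j → Disjoint (Q i) (Q j))
    (ε : κ → ℝ) (hε0 : ∀ j ∈ J, 0 ≤ ε j)
    (hε : ∀ j ∈ J, poly (cE (b j + 1)) g (Q j) ≤ ε j * ∏ p ∈ Q j, (1 - g p))
    (hεsum : ∑ j ∈ J, ε j ≤ 1 / 2) :
    M / 2 * ∏ j ∈ J, ∏ p ∈ Q j, (1 - g p) - ∏ j ∈ J, poly (cA (b j + 1)) ω (Q j)
      ≤ ∑ u ∈ U, ∏ j ∈ J, ∏ p ∈ Q j, (1 - χ p u) ∧
    ∑ u ∈ U, ∏ j ∈ J, ∏ p ∈ Q j, (1 - χ p u)
      ≤ 2 * M * ∏ j ∈ J, ∏ p ∈ Q j, (1 - g p) + ∏ j ∈ J, poly (cA (b j + 1)) ω (Q j) := by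
  -- abbreviations
  set V : κ → ℝ := fun j => ∏ p ∈ Q j, (1 - g p) with hV
  set Tj : κ → ℝ := fun j => poly (cT (b j)) g (Q j) with hT
  set Ej : κ → ℝ := fun j => poly (cE (b j + 1)) g (Q j) with hE
  set r : κ → ℝ := fun j => poly (fun D => |cT (b j) D|) ω (Q j) with hr
  set s : κ → ℝ := fun j => poly (fun D => |cE (b j + 1) D|) ω (Q j) with hs
  have hVnn : ∀ j ∈ J, 0 ≤ V j := fun j hj =>
    Finset.prod_nonneg fun p hp => by
      have := hg1 p (hQ j hj hp)
      linarith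
  have hVT : ∀ j ∈ J, V j ≤ Tj j := fun j hj =>
    le_polyT_of_even (fun p hp => hg0 p (hQ j hj hp)) (fun p hp => hg1 p (hQ j hj hp)) (hb j hj)
  have hTV : ∀ j ∈ J, Tj j ≤ (1 + ε j) * V j := by
    intro j hj
    have h1 := polyT_le_of_even (fun p hp => hg0 p (hQ j hj hp))
      (fun p hp => hg1 p (hQ j hj hp)) (hb j hj)
    have h2 := hε j hj
    simp only [hT, hV] at *
    linarith
  have hTnn : ∀ j ∈ J, 0 ≤ Tj j := fun j hj => (hVnn j hj).trans (hVT j hj)
  have hrnn : ∀ j ∈ J, 0 ≤ r j := fun j hj =>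
    poly_nonneg (fun D => abs_nonneg _) fun p hp => hω p (hQ j hj hp)
  have hsnn : ∀ j ∈ J, 0 ≤ s j := fun j hj =>
    poly_nonneg (fun D => abs_nonneg _) fun p hp => hω p (hQ j hj hp)
  have hrs : ∀ j ∈ J, r j + s j = poly (cA (b j + 1)) ω (Q j) := by
    intro j hj
    simp only [hr, hs]
    rw [← poly_add]
    congr 1
    funext D
    unfold cT cE cA
    by_cases h1 : D.card ≤ b j
    · rw [if_pos h1, if_neg (by omega), if_pos (by omega)]
      simp
    · by_cases h2 : D.card = b j + 1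
      · rw [if_neg h1, if_pos h2, if_pos (by omega)]
        simp
      · rw [if_neg h1, if_neg h2, if_neg (by omega)]
        simp
  have hR : ∏ j ∈ J, r j + ∑ l ∈ J, s l * ∏ j ∈ J.erase l, r j
      ≤ ∏ j ∈ J, poly (cA (b j + 1)) ω (Q j) := by
    refine (prod_add_ge J r s hrnn hsnn).trans (le_of_eq ?_)
    exact Finset.prod_congr rfl hrs
  have hemp : ∀ j ∈ J, Disjoint (∅ : Finset ι) (Q j) := fun j _ => Finset.disjoint_empty_left _
  -- the main sum
  have main := rep U χ g ω M P hC (fun j => cT (b j)) Q J hQ hdisj ∅ (Finset.empty_subset _) hemp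
  simp only [Finset.prod_empty, mul_one] at main
  have main' : |∑ u ∈ U, ∏ j ∈ J, poly (cT (b j)) (fun p => χ p u) (Q j) - M * ∏ j ∈ J, Tj j|
      ≤ ∏ j ∈ J, r j := main
  -- the correction sums
  have corr : ∀ l ∈ J,
      |∑ u ∈ U, poly (cE (b l + 1)) (fun p => χ p u) (Q l) *
          ∏ j ∈ J.erase l, poly (cT (b j)) (fun p => χ p u) (Q j)
        - M * (Ej l * ∏ j ∈ J.erase l, Tj j)| ≤ s l * ∏ j ∈ J.erase l, r j := by
    intro l hl
    have h := rep U χ g ω M P hC (Function.update (fun j => cT (b j)) l (cE (b l + 1))) Q J hQ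
      hdisj ∅ (Finset.empty_subset _) hemp
    simp only [Finset.prod_empty, mul_one] at h
    have hupd : ∀ F : κ → (Finset ι → ℝ) → ℝ,
        ∏ j ∈ J, F j (Function.update (fun j => cT (b j)) l (cE (b l + 1)) j)
          = F l (cE (b l + 1)) * ∏ j ∈ J.erase l, F j (cT (b j)) := by
      intro F
      rw [← Finset.mul_prod_erase J _ hl]
      rw [Function.update_self]
      congr 1
      refine Finset.prod_congr rfl fun j hj => ?_
      rw [Function.update_of_ne (Finset.ne_of_mem_erase hj)]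
    have h1 : ∀ u, ∏ j ∈ J, poly (Function.update (fun j => cT (b j)) l (cE (b l + 1)) j)
        (fun p => χ p u) (Q j) = poly (cE (b l + 1)) (fun p => χ p u) (Q l) *
          ∏ j ∈ J.erase l, poly (cT (b j)) (fun p => χ p u) (Q j) := fun u =>
      hupd (fun j c => poly c (fun p => χ p u) (Q j))
    have h2 : ∏ j ∈ J, poly (Function.update (fun j => cT (b j)) l (cE (b l + 1)) j) g (Q j)
        = Ej l * ∏ j ∈ J.erase l, Tj j := hupd (fun j c => poly c g (Q j))
    have h3 : ∏ j ∈ J, poly (fun D =>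
        |Function.update (fun j => cT (b j)) l (cE (b l + 1)) j D|) ω (Q j)
        = s l * ∏ j ∈ J.erase l, r j := hupd (fun j c => poly (fun D => |c D|) ω (Q j))
    simp_rw [h1] at h
    rw [h2, h3] at h
    exact h
  have hcard : ∀ l ∈ J, Ej l * ∏ j ∈ J.erase l, Tj j ≤ ε l * ∏ j ∈ J, Tj j := by
    intro l hl
    rw [← Finset.mul_prod_erase J Tj hl, ← mul_assoc]
    apply mul_le_mul_of_nonneg_right
    · have h1 := hε l hl
      have h2 := mul_le_mul_of_nonneg_left (hVT l hl) (hε0 l hl)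
      simp only [hE, hV] at *
      linarith
    · exact Finset.prod_nonneg fun j hj => hTnn j (Finset.mem_of_mem_erase hj)
  have hprodT : 0 ≤ ∏ j ∈ J, Tj j := Finset.prod_nonneg hTnn
  have hVT' : ∏ j ∈ J, V j ≤ ∏ j ∈ J, Tj j := Finset.prod_le_prod hVnn hVT
  constructor
  · -- lower bound
    have hpt : ∀ u ∈ U, ∏ j ∈ J, poly (cT (b j)) (fun p => χ p u) (Q j)
        - ∑ l ∈ J, poly (cE (b l + 1)) (fun p => χ p u) (Q l) *
            ∏ j ∈ J.erase l, poly (cT (b j)) (fun p => χ p u) (Q j)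
        ≤ ∏ j ∈ J, ∏ p ∈ Q j, (1 - χ p u) := by
      intro u _
      apply prod_ge_telescope
      · intro j _
        exact Finset.prod_nonneg fun p _ => by linarith [hχ1 p u]
      · intro j hj
        exact le_polyT_of_even (fun p _ => hχ0 p u) (fun p _ => hχ1 p u) (hb j hj)
      · intro j hj
        have := polyT_le_of_even (f := fun p => χ p u) (Q := Q j) (fun p _ => hχ0 p u)
          (fun p _ => hχ1 p u) (hb j hj)
        linarith
    have hsum := Finset.sum_le_sum hpt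
    rw [Finset.sum_sub_distrib, Finset.sum_comm] at hsum
    have h1 := (abs_le.mp main').1
    have h2 : ∑ l ∈ J, ∑ u ∈ U, poly (cE (b l + 1)) (fun p => χ p u) (Q l) *
          ∏ j ∈ J.erase l, poly (cT (b j)) (fun p => χ p u) (Q j)
        ≤ ∑ l ∈ J, (M * (ε l * ∏ j ∈ J, Tj j) + s l * ∏ j ∈ J.erase l, r j) := by
      refine Finset.sum_le_sum fun l hl => ?_
      have h3 := (abs_le.mp (corr l hl)).2
      have h4 := mul_le_mul_of_nonneg_left (hcard l hl) hM
      linarith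
    rw [Finset.sum_add_distrib, ← Finset.mul_sum, ← Finset.sum_mul] at h2
    have h5 : M * ((∑ l ∈ J, ε l) * ∏ j ∈ J, Tj j) ≤ M * (1 / 2 * ∏ j ∈ J, Tj j) :=
      mul_le_mul_of_nonneg_left (mul_le_mul_of_nonneg_right hεsum hprodT) hM
    have h6 : M / 2 * ∏ j ∈ J, V j ≤ M / 2 * ∏ j ∈ J, Tj j :=
      mul_le_mul_of_nonneg_left hVT' (by linarith)
    simp only [hV] at h6
    linarith
  · -- upper bound
    have hpt : ∀ u ∈ U, ∏ j ∈ J, ∏ p ∈ Q j, (1 - χ p u)
        ≤ ∏ j ∈ J, poly (cT (b j)) (fun p => χ p u) (Q j) := by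
      intro u _
      apply Finset.prod_le_prod
      · intro j _
        exact Finset.prod_nonneg fun p _ => by linarith [hχ1 p u]
      · intro j hj
        exact le_polyT_of_even (fun p _ => hχ0 p u) (fun p _ => hχ1 p u) (hb j hj)
    have hsum := Finset.sum_le_sum hpt
    have h1 := (abs_le.mp main').2
    have h2 : ∏ j ∈ J, Tj j ≤ 2 * ∏ j ∈ J, V j := by
      have h3 : ∏ j ∈ J, Tj j ≤ ∏ j ∈ J, ((1 + ε j) * V j) := Finset.prod_le_prod hTnn hTV
      rw [Finset.prod_mul_distrib] at h3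
      have h4 : ∏ j ∈ J, (1 + ε j) ≤ Real.exp (∑ j ∈ J, ε j) := by
        rw [Real.exp_sum]
        refine Finset.prod_le_prod (fun j hj => by linarith [hε0 j hj]) fun j _ => ?_
        have := Real.add_one_le_exp (ε j)
        linarith
      have h5 : Real.exp (∑ j ∈ J, ε j) ≤ Real.exp (1 / 2) := Real.exp_le_exp.mpr hεsum
      have h6 : Real.exp (1 / 2) ≤ 2 := by
        have h7 : Real.exp (1 / 2) ^ 2 = Real.exp 1 := by
          rw [← Real.exp_nat_mul]
          norm_num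
        have h8 := Real.exp_one_lt_d9
        have h9 : 0 < Real.exp (1 / 2) := Real.exp_pos _
        nlinarith
      have h10 : 0 ≤ ∏ j ∈ J, V j := Finset.prod_nonneg hVnn
      calc ∏ j ∈ J, Tj j ≤ (∏ j ∈ J, (1 + ε j)) * ∏ j ∈ J, V j := h3
        _ ≤ 2 * ∏ j ∈ J, V j := mul_le_mul_of_nonneg_right (by linarith) h10
    have h3 : M * ∏ j ∈ J, Tj j ≤ M * (2 * ∏ j ∈ J, V j) := mul_le_mul_of_nonneg_left h2 hM
    have h4 : ∏ j ∈ J, r j ≤ ∏ j ∈ J, poly (cA (b j + 1)) ω (Q j) := by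
      refine le_trans ?_ hR
      have : 0 ≤ ∑ l ∈ J, s l * ∏ j ∈ J.erase l, r j :=
        Finset.sum_nonneg fun l hl => mul_nonneg (hsnn l hl)
          (Finset.prod_nonneg fun j hj => hrnn j (Finset.mem_of_mem_erase hj))
      linarith
    simp only [hV] at h3
    linarith

end

end Pool.Agent.Lib.Sieve
end

-- from Lib.Sieve.CRT
section

/-!
# Counting integers in an interval lying in prescribed residue classes
-/

namespace Pool.Agent.Lib.Sieve

open Finset

/-- `chi Ω p u = 1` if `u mod p` lies in `Ω p`, and `0` otherwise. -/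
noncomputable def chi (Ω : (p : ℕ) → Finset (ZMod p)) (p : ℕ) (u : ℤ) : ℝ :=
  if (u : ZMod p) ∈ Ω p then 1 else 0

theorem chi_nonneg (Ω : (p : ℕ) → Finset (ZMod p)) (p : ℕ) (u : ℤ) : 0 ≤ chi Ω p u := by
  unfold chi
  split_ifs <;> norm_num

theorem chi_le_one (Ω : (p : ℕ) → Finset (ZMod p)) (p : ℕ) (u : ℤ) : chi Ω p u ≤ 1 := by
  unfold chi
  split_ifs <;> norm_num

theorem count_prog (a : ℤ) (M : ℕ) (q : ℕ) (hq : 0 < q) (c : ℤ) :
    |∑ u ∈ Finset.Ico a (a + M), (if u ≡ c [ZMOD q] then (1 : ℝ) else 0) - M / q| ≤ 1 := by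
  have hq' : (0 : ℤ) < (q : ℤ) := by exact_mod_cast hq
  have hqr : (0 : ℝ) < (q : ℝ) := by exact_mod_cast hq
  have h1 : ∑ u ∈ Finset.Ico a (a + M), (if u ≡ c [ZMOD q] then (1 : ℝ) else 0)
      = (((Finset.Ico a (a + M)).filter fun u => u ≡ c [ZMOD q]).card : ℝ) := by
    rw [Finset.card_filter]
    push_cast
    rfl
  have h2 := Int.Ico_filter_modEq_card a (a + M) hq' c
  have h3 : ((((Finset.Ico a (a + M)).filter fun u => u ≡ c [ZMOD q]).card : ℤ) : ℝ)
      = ((max (⌈((a + M : ℤ) - c : ℚ) / ((q : ℤ) : ℚ)⌉ - ⌈((a : ℤ) - c : ℚ) / ((q : ℤ) : ℚ)⌉) 0 : ℤ) : ℝ) := by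
    rw [h2]
  rw [h1]
  have h4 : (((Finset.Ico a (a + M)).filter fun u => u ≡ c [ZMOD q]).card : ℝ)
      = ((max (⌈((a + M : ℤ) - c : ℚ) / ((q : ℤ) : ℚ)⌉ - ⌈((a : ℤ) - c : ℚ) / ((q : ℤ) : ℚ)⌉) 0 : ℤ) : ℝ) := by
    rw [← h3]
    push_cast
    rfl
  rw [h4]
  set A : ℚ := ((a + M : ℤ) - c : ℚ) / ((q : ℤ) : ℚ) with hA
  set B : ℚ := ((a : ℤ) - c : ℚ) / ((q : ℤ) : ℚ) with hB
  have hAB : A - B = (M : ℚ) / q := by
    rw [hA, hB]
    push_cast
    ring
  have hMnn : (0 : ℚ) ≤ (M : ℚ) / q := by positivity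
  have hBA : B ≤ A := by linarith
  have hceil : ⌈B⌉ ≤ ⌈A⌉ := Int.ceil_le_ceil hBA
  rw [max_eq_left (by linarith)]
  have a1 := Int.le_ceil A
  have a2 := Int.ceil_lt_add_one A
  have b1 := Int.le_ceil B
  have b2 := Int.ceil_lt_add_one B
  have hq1 : ((⌈A⌉ - ⌈B⌉ : ℤ) : ℚ) - (M : ℚ) / q ≤ 1 := by
    push_cast
    linarith
  have hq2 : -1 ≤ ((⌈A⌉ - ⌈B⌉ : ℤ) : ℚ) - (M : ℚ) / q := by
    push_cast
    linarith
  rw [abs_le]
  constructor
  · have h := (Rat.cast_le (K := ℝ)).mpr hq2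
    push_cast at h ⊢
    linarith
  · have h := (Rat.cast_le (K := ℝ)).mpr hq1
    push_cast at h ⊢
    linarith

theorem exists_lift (q p : ℕ) (hpp : p.Prime) (hpq : ¬ p ∣ q) (c : ℤ) :
    ∃ c' : ZMod p → ℤ, ∀ (r : ZMod p) (u : ℤ),
      (u ≡ c' r [ZMOD ((q * p : ℕ) : ℤ)]) ↔ (u ≡ c [ZMOD q] ∧ (u : ZMod p) = r) := by
  have : Fact p.Prime := ⟨hpp⟩
  have hq0 : ((q : ZMod p)) ≠ 0 := by
    intro h
    exact hpq ((ZMod.natCast_eq_zero_iff q p).mp h)
  let c' : ZMod p → ℤ := fun r => c + q * ((((r - (c : ZMod p)) * (q : ZMod p)⁻¹).val : ℕ) : ℤ)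
  have hc'q : ∀ r, c' r ≡ c [ZMOD q] := by
    intro r
    simp only [c']
    have : c + q * ((((r - (c : ZMod p)) * (q : ZMod p)⁻¹).val : ℕ) : ℤ) ≡ c + 0 [ZMOD q] := by
      apply Int.ModEq.add_left
      exact (Int.modEq_zero_iff_dvd.mpr (Dvd.intro _ rfl))
    rwa [add_zero] at this
  have hc'p : ∀ r : ZMod p, ((c' r : ℤ) : ZMod p) = r := by
    intro r
    simp only [c']
    push_cast
    rw [ZMod.natCast_zmod_val]
    field_simp
    ring
  refine ⟨c', fun r u => ?_⟩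
  have hcop : ((q : ℤ).natAbs).Coprime ((p : ℤ).natAbs) := by
    simp only [Int.natAbs_natCast]
    exact ((Nat.Prime.coprime_iff_not_dvd hpp).mpr hpq).symm
  rw [Nat.cast_mul, ← Int.modEq_and_modEq_iff_modEq_mul hcop]
  constructor
  · rintro ⟨h1, h2⟩
    refine ⟨h1.trans (hc'q r), ?_⟩
    have := (ZMod.intCast_eq_intCast_iff u (c' r) p).mpr h2
    rw [this, hc'p r]
  · rintro ⟨h1, h2⟩
    refine ⟨h1.trans (hc'q r).symm, ?_⟩
    apply (ZMod.intCast_eq_intCast_iff u (c' r) p).mp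
    rw [h2, hc'p r]

/-- Counting lemma: integers of an interval in prescribed residue classes. -/
theorem count_classes (Ω : (p : ℕ) → Finset (ZMod p)) (a : ℤ) (M : ℕ) (E : Finset ℕ)
    (hE : ∀ p ∈ E, p.Prime) :
    ∀ q : ℕ, 0 < q → (∀ p ∈ E, ¬ p ∣ q) → ∀ c : ℤ,
      |∑ u ∈ Finset.Ico a (a + M), (if u ≡ c [ZMOD q] then (1 : ℝ) else 0) * ∏ p ∈ E, chi Ω p u
        - (M : ℝ) / q * ∏ p ∈ E, (((Ω p).card : ℝ) / p)| ≤ ∏ p ∈ E, ((Ω p).card : ℝ) := by
  induction E using Finset.induction_on with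
  | empty =>
    intro q hq _ c
    simpa using count_prog a M q hq c
  | insert p E hp ih =>
    intro q hq hdvd c
    have hpp : p.Prime := hE p (Finset.mem_insert_self p E)
    have hpq : ¬ p ∣ q := hdvd p (Finset.mem_insert_self p E)
    have ih' := ih (fun r hr => hE r (Finset.mem_insert_of_mem hr))
    obtain ⟨c', hiff⟩ := exists_lift q p hpp hpq c
    have hchi : ∀ u : ℤ, (if u ≡ c [ZMOD q] then (1 : ℝ) else 0) * chi Ω p u
        = ∑ r ∈ Ω p, (if u ≡ c' r [ZMOD ((q * p : ℕ) : ℤ)] then (1 : ℝ) else 0) := by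
      intro u
      have h1 : ∀ r : ZMod p, (if u ≡ c' r [ZMOD ((q * p : ℕ) : ℤ)] then (1 : ℝ) else 0)
          = (if u ≡ c [ZMOD q] then (1 : ℝ) else 0) * (if (u : ZMod p) = r then (1 : ℝ) else 0) := by
        intro r
        simp only [hiff r u]
        by_cases h1 : u ≡ c [ZMOD q] <;> by_cases h2 : (u : ZMod p) = r <;> simp [h1, h2]
      simp_rw [h1]
      rw [← Finset.mul_sum]
      congr 1
      unfold chi
      rw [Finset.sum_ite_eq]
    have e1 : ∑ u ∈ Finset.Ico a (a + M), (if u ≡ c [ZMOD q] then (1 : ℝ) else 0) *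
          ∏ r ∈ insert p E, chi Ω r u
        = ∑ r ∈ Ω p, ∑ u ∈ Finset.Ico a (a + M),
            (if u ≡ c' r [ZMOD ((q * p : ℕ) : ℤ)] then (1 : ℝ) else 0) * ∏ r ∈ E, chi Ω r u := by
      rw [Finset.sum_comm]
      refine Finset.sum_congr rfl fun u _ => ?_
      rw [Finset.prod_insert hp, ← mul_assoc, hchi u, Finset.sum_mul]
    have e2 : (M : ℝ) / q * ∏ r ∈ insert p E, (((Ω r).card : ℝ) / r)
        = ∑ _r ∈ Ω p, (M : ℝ) / ((q * p : ℕ) : ℝ) * ∏ r ∈ E, (((Ω r).card : ℝ) / r) := by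
      rw [Finset.sum_const, nsmul_eq_mul, Finset.prod_insert hp, Nat.cast_mul]
      generalize ∏ r ∈ E, (((Ω r).card : ℝ) / r) = X
      have h : ∀ A B C D : ℝ, A / B * (C / D * X) = C * (A / (B * D) * X) := by
        intro A B C D
        rw [div_mul_eq_div_div]
        ring
      exact h _ _ _ _
    have e3 : ∏ r ∈ insert p E, ((Ω r).card : ℝ) = ∑ _r ∈ Ω p, ∏ r ∈ E, ((Ω r).card : ℝ) := by
      rw [Finset.sum_const, nsmul_eq_mul, Finset.prod_insert hp]
    rw [e1, e2, e3, ← Finset.sum_sub_distrib]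
    refine (Finset.abs_sum_le_sum_abs _ _).trans (Finset.sum_le_sum fun r _ => ?_)
    apply ih' (q * p) (Nat.mul_pos hq hpp.pos)
    intro s hs hdiv
    rcases (Nat.Prime.dvd_mul (hE s (Finset.mem_insert_of_mem hs))).mp hdiv with h | h
    · exact hdvd s (Finset.mem_insert_of_mem hs) h
    · have := (Nat.prime_dvd_prime_iff_eq (hE s (Finset.mem_insert_of_mem hs)) hpp).mp h
      exact hp (this ▸ hs)

/-- Counting lemma without a progression. -/
theorem count_classes' (Ω : (p : ℕ) → Finset (ZMod p)) (a : ℤ) (M : ℕ) (E : Finset ℕ)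
    (hE : ∀ p ∈ E, p.Prime) :
    |∑ u ∈ Finset.Ico a (a + M), ∏ p ∈ E, chi Ω p u
        - (M : ℝ) * ∏ p ∈ E, (((Ω p).card : ℝ) / p)| ≤ ∏ p ∈ E, ((Ω p).card : ℝ) := by
  have h := count_classes Ω a M E hE 1 one_pos
    (fun p hp hd => (hE p hp).one_lt.ne' (Nat.dvd_one.mp hd)) 0
  have h1 : ∀ u : ℤ, u ≡ 0 [ZMOD ((1 : ℕ) : ℤ)] := fun u => by
    rw [Nat.cast_one]
    exact Int.modEq_one
  have h2 : ∀ u : ℤ, (if u ≡ 0 [ZMOD ((1 : ℕ) : ℤ)] then (1 : ℝ) else 0) = 1 := fun u =>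
    if_pos (h1 u)
  simp_rw [h2] at h
  simpa using h

end Pool.Agent.Lib.Sieve
end

-- from Lib.Sieve.PrimeSum
section

/-!
# Elementary bounds for sums over primes
-/

namespace Pool.Agent.Lib.Sieve

open Finset

/-- The primes `p ≤ n`. -/
def primesUpTo (n : ℕ) : Finset ℕ := (Finset.range (n + 1)).filter Nat.Prime

theorem mem_primesUpTo {n p : ℕ} : p ∈ primesUpTo n ↔ p.Prime ∧ p ≤ n := by
  simp [primesUpTo, and_comm]

theorem prod_pow_dvd_factorial (n : ℕ) : ∏ p ∈ primesUpTo n, p ^ (n / p) ∣ n.factorial := by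
  apply Finset.prod_dvd_of_isRelPrime
  · intro p hp q hq hpq
    have hp' := (mem_primesUpTo.mp hp).1
    have hq' := (mem_primesUpTo.mp hq).1
    exact Nat.coprime_iff_isRelPrime.mp (((Nat.coprime_primes hp' hq').mpr hpq).pow _ _)
  · intro p hp
    have hp' := (mem_primesUpTo.mp hp)
    have h1 : p ^ (n / p) ∣ (p * (n / p)).factorial := by
      have : ∀ m : ℕ, p ^ m ∣ (p * m).factorial := by
        intro m
        induction m with
        | zero => simp
        | succ m ih =>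
          rw [pow_succ, Nat.mul_succ]
          have h2 : (p * m + p).factorial = (p * m + p) * (p * m + p - 1).factorial := by
            rw [Nat.mul_factorial_pred]
            have := hp'.1.pos
            omega
          rw [h2, mul_comm (p ^ m) p]
          apply Nat.mul_dvd_mul
          · exact Dvd.intro (m + 1) (by ring)
          · refine ih.trans (Nat.factorial_dvd_factorial ?_)
            have := hp'.1.pos
            omega
      exact this _
    exact h1.trans (Nat.factorial_dvd_factorial (Nat.mul_div_le n p))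

/-- `∑_{p ≤ n} (log p) / p ≤ log n + log 4`. -/
theorem sum_log_div_le (n : ℕ) (hn : 1 ≤ n) :
    ∑ p ∈ primesUpTo n, Real.log p / p ≤ Real.log n + Real.log 4 := by
  have hn' : (0 : ℝ) < n := by exact_mod_cast hn
  -- logarithm of the divisibility
  have h1 : ∏ p ∈ primesUpTo n, p ^ (n / p) ≤ n ^ n :=
    (Nat.le_of_dvd (Nat.factorial_pos n) (prod_pow_dvd_factorial n)).trans
      (Nat.factorial_le_pow n)
  have h2 : ∑ p ∈ primesUpTo n, ((n / p : ℕ) : ℝ) * Real.log p ≤ n * Real.log n := by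
    have h3 : Real.log ((∏ p ∈ primesUpTo n, p ^ (n / p) : ℕ) : ℝ) ≤ Real.log ((n ^ n : ℕ) : ℝ) := by
      apply Real.log_le_log
      · have : 0 < ∏ p ∈ primesUpTo n, p ^ (n / p) := by
          apply Finset.prod_pos
          intro p hp
          exact pow_pos (mem_primesUpTo.mp hp).1.pos _
        exact_mod_cast this
      · exact_mod_cast h1
    rw [Nat.cast_prod, Real.log_prod] at h3
    · push_cast at h3
      rw [Real.log_pow] at h3
      refine le_trans (le_of_eq ?_) h3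
      refine Finset.sum_congr rfl fun p _ => ?_
      rw [Real.log_pow]
    · intro p hp
      have := (mem_primesUpTo.mp hp).1.pos
      positivity
  have h4 : ∑ p ∈ primesUpTo n, Real.log p ≤ n * Real.log 4 := by
    have h5 : ∏ p ∈ primesUpTo n, p ≤ 4 ^ n := primorial_le_four_pow n
    have h6 : Real.log ((∏ p ∈ primesUpTo n, p : ℕ) : ℝ) ≤ Real.log ((4 ^ n : ℕ) : ℝ) := by
      apply Real.log_le_log
      · have : 0 < ∏ p ∈ primesUpTo n, p := by
          apply Finset.prod_pos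
          intro p hp
          exact (mem_primesUpTo.mp hp).1.pos
        exact_mod_cast this
      · exact_mod_cast h5
    rw [Nat.cast_prod, Real.log_prod] at h6
    · push_cast at h6
      rwa [Real.log_pow] at h6
    · intro p hp
      have := (mem_primesUpTo.mp hp).1.pos
      positivity
  have h7 : (n : ℝ) * ∑ p ∈ primesUpTo n, Real.log p / p
      ≤ ∑ p ∈ primesUpTo n, ((n / p : ℕ) : ℝ) * Real.log p + ∑ p ∈ primesUpTo n, Real.log p := by
    rw [Finset.mul_sum, ← Finset.sum_add_distrib]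
    refine Finset.sum_le_sum fun p hp => ?_
    have hp0 : (0 : ℝ) < p := by exact_mod_cast (mem_primesUpTo.mp hp).1.pos
    have hp1 : (1 : ℝ) ≤ p := by exact_mod_cast (mem_primesUpTo.mp hp).1.one_le
    have hlog : 0 ≤ Real.log p := Real.log_nonneg hp1
    have h8 : (n : ℝ) / p ≤ ((n / p : ℕ) : ℝ) + 1 := by
      rw [div_le_iff₀ hp0]
      have h9 : n < p * (n / p + 1) := Nat.lt_mul_div_succ n (mem_primesUpTo.mp hp).1.pos
      have h10 : (n : ℝ) < p * ((n / p : ℕ) + 1) := by exact_mod_cast h9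
      linarith
    have h11 := mul_le_mul_of_nonneg_right h8 hlog
    calc (n : ℝ) * (Real.log p / p) = n / p * Real.log p := by ring
      _ ≤ (((n / p : ℕ) : ℝ) + 1) * Real.log p := h11
      _ = ((n / p : ℕ) : ℝ) * Real.log p + Real.log p := by ring
  have h12 : (n : ℝ) * ∑ p ∈ primesUpTo n, Real.log p / p ≤ n * (Real.log n + Real.log 4) := by
    linarith
  exact le_of_mul_le_mul_left h12 hn'

/-- `∑_{p ≤ n < p²} 1/p ≤ 6`. -/
theorem sum_inv_le (n : ℕ) :
    ∑ p ∈ (primesUpTo n).filter (fun p => n < p ^ 2), (1 : ℝ) / p ≤ 6 := by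
  by_cases hn : n < 2
  · have : (primesUpTo n).filter (fun p => n < p ^ 2) = ∅ := by
      apply Finset.filter_eq_empty_iff.mpr
      intro p hp
      have h := mem_primesUpTo.mp hp
      have := h.1.two_le
      omega
    rw [this]
    simp
  · push Not at hn
    have hn' : (2 : ℝ) ≤ n := by exact_mod_cast hn
    have hlog2 : Real.log 2 ≤ Real.log n := Real.log_le_log (by norm_num) hn'
    have hlog2' : 0 < Real.log 2 := Real.log_pos (by norm_num)
    have hlogn : 0 < Real.log n := by linarith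
    have h1 := sum_log_div_le n (by omega)
    have h4 : Real.log 4 = 2 * Real.log 2 := by
      have : (4 : ℝ) = 2 ^ 2 := by norm_num
      rw [this, Real.log_pow]
      norm_num
    have h2 : Real.log n / 2 * ∑ p ∈ (primesUpTo n).filter (fun p => n < p ^ 2), (1 : ℝ) / p
        ≤ ∑ p ∈ primesUpTo n, Real.log p / p := by
      rw [Finset.mul_sum]
      refine le_trans (Finset.sum_le_sum (g := fun p : ℕ => Real.log p / p) fun p hp => ?_) ?_
      · have hp' := Finset.mem_filter.mp hp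
        have hp0 : (0 : ℝ) < p := by exact_mod_cast (mem_primesUpTo.mp hp'.1).1.pos
        have h3 : Real.log n ≤ 2 * Real.log p := by
          have : Real.log n ≤ Real.log ((p : ℝ) ^ 2) := by
            apply Real.log_le_log (by linarith)
            have := hp'.2.le
            exact_mod_cast this
          rwa [Real.log_pow, Nat.cast_ofNat] at this
        rw [← mul_div_assoc, mul_one]
        apply div_le_div_of_nonneg_right _ hp0.le
        linarith
      · apply Finset.sum_le_sum_of_subset_of_nonneg (Finset.filter_subset _ _)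
        intro p hp _
        have hp1 : (1 : ℝ) ≤ p := by exact_mod_cast (mem_primesUpTo.mp hp).1.one_le
        have hlog : 0 ≤ Real.log p := Real.log_nonneg hp1
        positivity
    have h5 : Real.log n / 2 * ∑ p ∈ (primesUpTo n).filter (fun p => n < p ^ 2), (1 : ℝ) / p
        ≤ Real.log n / 2 * 6 := by
      refine h2.trans (h1.trans ?_)
      rw [h4]
      linarith
    exact le_of_mul_le_mul_left h5 (by linarith)

end Pool.Agent.Lib.Sieve
end

-- from Lib.Sieve.Fundamental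
section

/-!
# A fundamental lemma of sieve theory (Brun-Hooley)

For a fixed dimension `k`, the number of integers `u` in an interval of length `M ≥ z ^ K(k)`
avoiding at most `k` residue classes modulo each prime `2k + 2 < p ≤ z` lies between
`M V / 4` and `3 M V`, where `V` is the expected density.
-/

namespace Pool.Agent.Lib.Sieve

open Finset

/-- The sifting primes `w < p ≤ z`. -/
def sprimes (w z : ℕ) : Finset ℕ := (primesUpTo z).filter (fun p => w < p)

theorem mem_sprimes {w z p : ℕ} : p ∈ sprimes w z ↔ p.Prime ∧ w < p ∧ p ≤ z := by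
  unfold sprimes
  rw [Finset.mem_filter, mem_primesUpTo]
  tauto

/-- The index of the block of the prime `p`. -/
def blk (z p : ℕ) : ℕ := Nat.log 2 (Nat.log p z)

/-- The `j`-th block of sifting primes. -/
def blockSet (w z j : ℕ) : Finset ℕ := (sprimes w z).filter (fun p => blk z p = j)

theorem mem_blockSet {w z j p : ℕ} :
    p ∈ blockSet w z j ↔ (p.Prime ∧ w < p ∧ p ≤ z) ∧ blk z p = j := by
  unfold blockSet
  rw [Finset.mem_filter, mem_sprimes]

theorem blk_le (z p : ℕ) : blk z p ≤ z :=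
  (Nat.log_le_self _ _).trans (Nat.log_le_self _ _)

theorem prod_blocks (w z : ℕ) (f : ℕ → ℝ) :
    ∏ j ∈ Finset.range (z + 1), ∏ p ∈ blockSet w z j, f p = ∏ p ∈ sprimes w z, f p := by
  unfold blockSet
  apply Finset.prod_fiberwise_of_maps_to
  intro p _
  exact Finset.mem_range.mpr (Nat.lt_succ_of_le (blk_le z p))

theorem blk_spec {z p : ℕ} (hp : p.Prime) (hpz : p ≤ z) :
    p ^ (2 ^ blk z p) ≤ z ∧ z < p ^ (2 ^ (blk z p + 1)) := by
  have hz : z ≠ 0 := by
    have := hp.pos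
    omega
  have he : Nat.log p z ≠ 0 := (Nat.log_pos hp.one_lt hpz).ne'
  constructor
  · calc p ^ (2 ^ blk z p) ≤ p ^ Nat.log p z :=
          Nat.pow_le_pow_right hp.pos (Nat.pow_log_le_self 2 he)
      _ ≤ z := Nat.pow_log_le_self p hz
  · calc z < p ^ (Nat.log p z + 1) := Nat.lt_pow_succ_log_self hp.one_lt z
      _ ≤ p ^ (2 ^ (blk z p + 1)) :=
          Nat.pow_le_pow_right hp.pos (Nat.lt_pow_succ_log_self one_lt_two (Nat.log p z))

theorem block_sq {w z j p y : ℕ} (hp : p ∈ blockSet w z j) (hy : y ∈ blockSet w z j) :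
    y < p ^ 2 := by
  rw [mem_blockSet] at hp hy
  have h1 := (blk_spec hy.1.1 hy.1.2.2).1
  have h2 := (blk_spec hp.1.1 hp.1.2.2).2
  rw [hy.2] at h1
  rw [hp.2] at h2
  have h3 : y ^ (2 ^ j) < (p ^ 2) ^ (2 ^ j) := by
    calc y ^ (2 ^ j) ≤ z := h1
      _ < p ^ (2 ^ (j + 1)) := h2
      _ = (p ^ 2) ^ (2 ^ j) := by rw [← pow_mul, pow_succ, mul_comm]
  exact lt_of_pow_lt_pow_left₀ _ (Nat.zero_le _) h3

/-- The largest prime in a block. -/
def top (w z j : ℕ) : ℕ := (blockSet w z j).sup id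

theorem top_mem {w z j : ℕ} (h : (blockSet w z j).Nonempty) : top w z j ∈ blockSet w z j := by
  obtain ⟨y, hy, hy'⟩ := Finset.exists_mem_eq_sup _ h id
  unfold top
  rw [hy']
  exact hy

theorem le_top {w z j p : ℕ} (h : p ∈ blockSet w z j) : p ≤ top w z j :=
  Finset.le_sup (f := id) h

theorem block_sum_inv (w z j : ℕ) : ∑ p ∈ blockSet w z j, (1 : ℝ) / p ≤ 6 := by
  by_cases h : (blockSet w z j).Nonempty
  · refine le_trans ?_ (sum_inv_le (top w z j))
    apply Finset.sum_le_sum_of_subset_of_nonneg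
    · intro p hp
      rw [Finset.mem_filter, mem_primesUpTo]
      exact ⟨⟨(mem_blockSet.mp hp).1.1, le_top hp⟩, block_sq hp (top_mem h)⟩
    · intro p _ _
      positivity
  · rw [Finset.not_nonempty_iff_eq_empty] at h
    rw [h]
    simp

theorem exp_neg_two_mul_le {x : ℝ} (h0 : 0 ≤ x) (h1 : x ≤ 1 / 2) : Real.exp (-(2 * x)) ≤ 1 - x := by
  rw [Real.exp_neg]
  have h2 : 1 + 2 * x ≤ Real.exp (2 * x) := by
    have := Real.add_one_le_exp (2 * x)
    linarith
  have h3 : 0 < Real.exp (2 * x) := Real.exp_pos _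
  rw [inv_le_iff_one_le_mul₀ h3]
  nlinarith

theorem prod_one_sub_ge {Q : Finset ℕ} {g : ℕ → ℝ} (h0 : ∀ p ∈ Q, 0 ≤ g p)
    (h1 : ∀ p ∈ Q, g p ≤ 1 / 2) :
    Real.exp (-(2 * ∑ p ∈ Q, g p)) ≤ ∏ p ∈ Q, (1 - g p) := by
  rw [Finset.mul_sum, ← Finset.sum_neg_distrib, Real.exp_sum]
  exact Finset.prod_le_prod (fun p _ => (Real.exp_pos _).le)
    fun p hp => exp_neg_two_mul_le (h0 p hp) (h1 p hp)

theorem prod_one_add_le {Q : Finset ℕ} {g : ℕ → ℝ} (h0 : ∀ p ∈ Q, 0 ≤ g p) :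
    ∏ p ∈ Q, (1 + g p) ≤ Real.exp (∑ p ∈ Q, g p) := by
  rw [Real.exp_sum]
  refine Finset.prod_le_prod (fun p hp => by linarith [h0 p hp]) fun p _ => ?_
  have := Real.add_one_le_exp (g p)
  linarith

theorem exp_nat_le (n : ℕ) : Real.exp n ≤ 2 ^ (2 * n) := by
  have h1 : Real.exp (n : ℝ) = Real.exp 1 ^ n := by
    rw [← Real.exp_nat_mul]
    simp
  rw [h1, pow_mul]
  apply pow_le_pow_left₀ (Real.exp_pos _).le
  have := Real.exp_one_lt_d9
  linarith

section

variable (k z : ℕ) (Ω : (p : ℕ) → Finset (ZMod p))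

/-- The density of removed classes. -/
noncomputable def dens (Ω : (p : ℕ) → Finset (ZMod p)) (p : ℕ) : ℝ := ((Ω p).card : ℝ) / p

theorem dens_nonneg (p : ℕ) : 0 ≤ dens Ω p := by
  unfold dens
  positivity

variable {k z Ω}

theorem dens_le {p : ℕ} (h : (Ω p).card ≤ k) : dens Ω p ≤ k * (1 / p) := by
  unfold dens
  rw [mul_one_div]
  apply div_le_div_of_nonneg_right _ (Nat.cast_nonneg _)
  exact_mod_cast h

theorem dens_le_half {p : ℕ} (h : (Ω p).card ≤ k) (hp : 2 * k + 2 < p) : dens Ω p ≤ 1 / 2 := by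
  unfold dens
  have hp0 : (0 : ℝ) < p := by
    have : 0 < p := by omega
    exact_mod_cast this
  rw [div_le_iff₀ hp0]
  have h1 : ((Ω p).card : ℝ) ≤ k := by exact_mod_cast h
  have h2 : (2 * k + 2 : ℝ) < p := by exact_mod_cast hp
  linarith

/-- The exponents `b_j = 48 k + 2 + 2 j`. -/
def bj (k j : ℕ) : ℕ := 48 * k + 2 + 2 * j

theorem bj_even (k j : ℕ) : Even (bj k j) := ⟨24 * k + 1 + j, by unfold bj; ring⟩

/-- The relative error of block `j`. -/
noncomputable def epsj (k j : ℕ) : ℝ := Real.exp (24 * k) / 2 ^ (bj k j + 1)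

theorem epsj_nonneg (k j : ℕ) : 0 ≤ epsj k j := by
  unfold epsj
  positivity

theorem sum_epsj (k n : ℕ) : ∑ j ∈ Finset.range n, epsj k j ≤ 1 / 2 := by
  have h1 : ∀ j, epsj k j ≤ 1 / 8 * (1 / 2) ^ j := by
    intro j
    unfold epsj bj
    have h2 : Real.exp (24 * k) ≤ 2 ^ (48 * k) := by
      have := exp_nat_le (24 * k)
      push_cast at this
      calc Real.exp (24 * k) ≤ 2 ^ (2 * (24 * k)) := this
        _ = 2 ^ (48 * k) := by congr 1; ring
    rw [div_le_iff₀ (by positivity)]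
    have h3 : (1 : ℝ) / 8 * (1 / 2) ^ j * 2 ^ (48 * k + 2 + 2 * j + 1) = 2 ^ (48 * k) * 2 ^ j := by
      rw [one_div_pow]
      have : (2 : ℝ) ^ (48 * k + 2 + 2 * j + 1) = 2 ^ (48 * k) * 8 * (2 ^ j * 2 ^ j) := by
        rw [show 48 * k + 2 + 2 * j + 1 = 48 * k + 3 + (j + j) by ring, pow_add, pow_add, pow_add]
        norm_num
      rw [this]
      have hj : (2 : ℝ) ^ j ≠ 0 := by positivity
      field_simp
    rw [h3]
    have h4 : (1 : ℝ) ≤ 2 ^ j := one_le_pow₀ (by norm_num)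
    have h5 : (0 : ℝ) < 2 ^ (48 * k) := by positivity
    nlinarith
  calc ∑ j ∈ Finset.range n, epsj k j ≤ ∑ j ∈ Finset.range n, 1 / 8 * (1 / 2 : ℝ) ^ j :=
        Finset.sum_le_sum fun j _ => h1 j
    _ = 1 / 8 * ∑ j ∈ Finset.range n, (1 / 2 : ℝ) ^ j := by rw [Finset.mul_sum]
    _ ≤ 1 / 8 * 2 := by
        apply mul_le_mul_of_nonneg_left (sum_geometric_two_le n) (by norm_num)
    _ ≤ 1 / 2 := by norm_num

theorem sum_aux (B : ℝ) (hB : 0 ≤ B) (n : ℕ) :
    ∑ j ∈ Finset.range n, (B + 2 * j) / 2 ^ j ≤ 2 * B + 4 := by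
  have h : ∀ n : ℕ, ∑ j ∈ Finset.range n, (B + 2 * j) / 2 ^ j
      = 2 * B + 4 - (2 * B + 4 * n + 4) / 2 ^ n := by
    intro n
    induction n with
    | zero => simp
    | succ n ih =>
      rw [Finset.sum_range_succ, ih, pow_succ]
      push_cast
      have : (2 : ℝ) ^ n ≠ 0 := by positivity
      field_simp
      ring
  rw [h n]
  have : 0 ≤ (2 * B + 4 * n + 4) / 2 ^ n := by positivity
  linarith

theorem block_E (hΩ : ∀ p, p.Prime → 2 * k + 2 < p → p ≤ z → (Ω p).card ≤ k) (j : ℕ) :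
    poly (cE (bj k j + 1)) (dens Ω) (blockSet (2 * k + 2) z j)
      ≤ epsj k j * ∏ p ∈ blockSet (2 * k + 2) z j, (1 - dens Ω p) := by
  set Q := blockSet (2 * k + 2) z j with hQ
  have hcard : ∀ p ∈ Q, (Ω p).card ≤ k := fun p hp => by
    have h := mem_blockSet.mp hp
    exact hΩ p h.1.1 h.1.2.1 h.1.2.2
  have hg0 : ∀ p ∈ Q, 0 ≤ dens Ω p := fun p _ => dens_nonneg Ω p
  have hg1 : ∀ p ∈ Q, dens Ω p ≤ 1 / 2 := fun p hp =>
    dens_le_half (hcard p hp) (mem_blockSet.mp hp).1.2.1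
  have hsum : ∑ p ∈ Q, dens Ω p ≤ 6 * k := by
    calc ∑ p ∈ Q, dens Ω p ≤ ∑ p ∈ Q, (k : ℝ) * (1 / p) :=
          Finset.sum_le_sum fun p hp => dens_le (hcard p hp)
      _ = k * ∑ p ∈ Q, (1 : ℝ) / p := by rw [Finset.mul_sum]
      _ ≤ k * 6 := mul_le_mul_of_nonneg_left (block_sum_inv _ _ _) (Nat.cast_nonneg _)
      _ = 6 * k := by ring
  have h1 := rankinE hg0 (bj k j + 1) (l := 2) (by norm_num)
  have h2 : ∏ p ∈ Q, (1 + 2 * dens Ω p) ≤ Real.exp (∑ p ∈ Q, 2 * dens Ω p) :=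
    prod_one_add_le fun p hp => by
      have := hg0 p hp
      linarith
  rw [← Finset.mul_sum] at h2
  have h3 : Real.exp (2 * ∑ p ∈ Q, dens Ω p) ≤ Real.exp (12 * k) :=
    Real.exp_le_exp.mpr (by linarith)
  have h4 : Real.exp (-(12 * k)) ≤ ∏ p ∈ Q, (1 - dens Ω p) :=
    (Real.exp_le_exp.mpr (by linarith)).trans (prod_one_sub_ge hg0 hg1)
  have h5 : (0 : ℝ) < 2 ^ (bj k j + 1) := by positivity
  have h6 : poly (cE (bj k j + 1)) (dens Ω) Q ≤ Real.exp (12 * k) / 2 ^ (bj k j + 1) := by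
    rw [le_div_iff₀ h5]
    linarith
  refine h6.trans ?_
  unfold epsj
  have h7 : Real.exp (12 * k) = Real.exp (24 * k) * Real.exp (-(12 * k)) := by
    rw [← Real.exp_add]
    congr 1
    ring
  rw [h7]
  have h8 : 0 ≤ Real.exp (24 * k) / 2 ^ (bj k j + 1) := by positivity
  calc Real.exp (24 * k) * Real.exp (-(12 * k)) / 2 ^ (bj k j + 1)
      = Real.exp (24 * k) / 2 ^ (bj k j + 1) * Real.exp (-(12 * k)) := by ring
    _ ≤ Real.exp (24 * k) / 2 ^ (bj k j + 1) * ∏ p ∈ Q, (1 - dens Ω p) :=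
        mul_le_mul_of_nonneg_left h4 h8

theorem block_R (hz : 2 ≤ z) (hΩ : ∀ p, p.Prime → 2 * k + 2 < p → p ≤ z → (Ω p).card ≤ k)
    (j : ℕ) :
    poly (cA (bj k j + 1)) (fun p => ((Ω p).card : ℝ)) (blockSet (2 * k + 2) z j)
      ≤ Real.exp (2 * ((48 * k + 4 + 2 * j) / 2 ^ j) * Real.log z) := by
  have hz' : (2 : ℝ) ≤ z := by exact_mod_cast hz
  have hlogz : 0 ≤ Real.log z := Real.log_nonneg (by linarith)
  by_cases h : (blockSet (2 * k + 2) z j).Nonempty
  · set Q := blockSet (2 * k + 2) z j with hQ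
    set y := top (2 * k + 2) z j with hy
    have hyQ : y ∈ Q := top_mem h
    have hyw := (mem_blockSet.mp hyQ)
    have hcard : ∀ p ∈ Q, (Ω p).card ≤ k := fun p hp => by
      have h := mem_blockSet.mp hp
      exact hΩ p h.1.1 h.1.2.1 h.1.2.2
    have hy3 : 3 ≤ y := by omega
    have hyr : (3 : ℝ) ≤ y := by exact_mod_cast hy3
    have hky : (k : ℝ) ≤ y := by
      have : k ≤ y := by omega
      exact_mod_cast this
    set X : ℝ := (y : ℝ) ^ 2 with hX
    have hX9 : 9 ≤ X := by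
      rw [hX]
      nlinarith
    have hX1 : 1 ≤ X := by linarith
    have h1 := rankinA (f := fun p => ((Ω p).card : ℝ)) (Q := Q)
      (fun p _ => Nat.cast_nonneg _) (bj k j + 1) hX1
    have h2 : ∏ p ∈ Q, (1 + ((Ω p).card : ℝ) / X) ≤ Real.exp (∑ p ∈ Q, ((Ω p).card : ℝ) / X) :=
      prod_one_add_le fun p hp => by positivity
    have hQcard : (Q.card : ℝ) ≤ y := by
      have : Q ⊆ Finset.Icc 1 y := by
        intro p hp
        rw [Finset.mem_Icc]
        exact ⟨(mem_blockSet.mp hp).1.1.one_le, le_top hp⟩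
      have := Finset.card_le_card this
      rw [Nat.card_Icc] at this
      have h' : Q.card ≤ y := by omega
      exact_mod_cast h'
    have h3 : ∑ p ∈ Q, ((Ω p).card : ℝ) / X ≤ 1 := by
      rw [← Finset.sum_div, div_le_one (by linarith)]
      calc ∑ p ∈ Q, ((Ω p).card : ℝ) ≤ ∑ _p ∈ Q, (k : ℝ) :=
            Finset.sum_le_sum fun p hp => by exact_mod_cast hcard p hp
        _ = Q.card * k := by rw [Finset.sum_const, nsmul_eq_mul]
        _ ≤ y * y := mul_le_mul hQcard hky (Nat.cast_nonneg _) (Nat.cast_nonneg _)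
        _ = X := by rw [hX]; ring
    have h4 : ∏ p ∈ Q, (1 + ((Ω p).card : ℝ) / X) ≤ X := by
      refine h2.trans ((Real.exp_le_exp.mpr h3).trans ?_)
      have := Real.exp_one_lt_d9
      linarith
    have h5 : poly (cA (bj k j + 1)) (fun p => ((Ω p).card : ℝ)) Q ≤ X ^ (bj k j + 2) := by
      refine h1.trans ?_
      calc X ^ (bj k j + 1) * ∏ p ∈ Q, (1 + ((Ω p).card : ℝ) / X)
          ≤ X ^ (bj k j + 1) * X := mul_le_mul_of_nonneg_left h4 (by positivity)
        _ = X ^ (bj k j + 2) := by rw [← pow_succ]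
    refine h5.trans ?_
    -- compare with a power of `z`
    have hylog : (2 : ℝ) ^ j * Real.log y ≤ Real.log z := by
      have h6 := (blk_spec hyw.1.1 hyw.1.2.2).1
      rw [hyw.2] at h6
      have h7 : Real.log ((y : ℝ) ^ (2 ^ j)) ≤ Real.log z := by
        apply Real.log_le_log (by positivity)
        exact_mod_cast h6
      rw [Real.log_pow] at h7
      push_cast at h7
      exact h7
    have hylog' : Real.log y ≤ Real.log z / 2 ^ j := by
      rw [le_div_iff₀ (by positivity)]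
      linarith
    have h8 : X ^ (bj k j + 2) = Real.exp ((2 * (bj k j + 2) : ℕ) * Real.log y) := by
      rw [Real.exp_nat_mul, Real.exp_log (by linarith), hX, ← pow_mul]
    rw [h8]
    apply Real.exp_le_exp.mpr
    have h9 : ((2 * (bj k j + 2) : ℕ) : ℝ) = 2 * (48 * k + 4 + 2 * j) := by
      unfold bj
      push_cast
      ring
    rw [h9]
    calc (2 * (48 * k + 4 + 2 * j) : ℝ) * Real.log y
        ≤ (2 * (48 * k + 4 + 2 * j)) * (Real.log z / 2 ^ j) :=
          mul_le_mul_of_nonneg_left hylog' (by positivity)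
      _ = 2 * ((48 * k + 4 + 2 * j) / 2 ^ j) * Real.log z := by ring
  · rw [Finset.not_nonempty_iff_eq_empty] at h
    rw [h, poly_empty]
    have : cA (bj k j + 1) (∅ : Finset ℕ) = 1 := by simp [cA]
    rw [this]
    apply Real.one_le_exp
    positivity

theorem prod_R (hz : 2 ≤ z) (hΩ : ∀ p, p.Prime → 2 * k + 2 < p → p ≤ z → (Ω p).card ≤ k)
    (n : ℕ) :
    ∏ j ∈ Finset.range n,
        poly (cA (bj k j + 1)) (fun p => ((Ω p).card : ℝ)) (blockSet (2 * k + 2) z j)
      ≤ (z : ℝ) ^ (192 * k + 24) := by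
  have hz' : (2 : ℝ) ≤ z := by exact_mod_cast hz
  have hlogz : 0 ≤ Real.log z := Real.log_nonneg (by linarith)
  calc ∏ j ∈ Finset.range n,
        poly (cA (bj k j + 1)) (fun p => ((Ω p).card : ℝ)) (blockSet (2 * k + 2) z j)
      ≤ ∏ j ∈ Finset.range n, Real.exp (2 * ((48 * k + 4 + 2 * j) / 2 ^ j) * Real.log z) := by
        refine Finset.prod_le_prod (fun j _ => ?_) fun j _ => block_R hz hΩ j
        apply poly_nonneg
        · intro D
          unfold cA
          split_ifs <;> norm_num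
        · intro p _
          positivity
    _ = Real.exp (2 * (∑ j ∈ Finset.range n, ((48 * k + 4 : ℝ) + 2 * j) / 2 ^ j) * Real.log z) := by
        rw [← Real.exp_sum]
        congr 1
        rw [Finset.mul_sum, Finset.sum_mul]
    _ ≤ Real.exp (2 * (2 * (48 * k + 4) + 4) * Real.log z) := by
        apply Real.exp_le_exp.mpr
        apply mul_le_mul_of_nonneg_right _ hlogz
        apply mul_le_mul_of_nonneg_left _ (by norm_num)
        exact sum_aux _ (by positivity) n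
    _ = (z : ℝ) ^ (192 * k + 24) := by
        have : (2 * (2 * (48 * k + 4) + 4) : ℝ) = ((192 * k + 24 : ℕ) : ℝ) := by
          push_cast
          ring
        rw [this, Real.exp_nat_mul, Real.exp_log (by linarith)]

theorem V_lower (hz : 2 ≤ z) (hΩ : ∀ p, p.Prime → 2 * k + 2 < p → p ≤ z → (Ω p).card ≤ k) :
    4 * (z : ℝ) ^ (192 * k + 24)
      ≤ (z : ℝ) ^ (198 * k + 26) * ∏ p ∈ sprimes (2 * k + 2) z, (1 - dens Ω p) := by
  have hz' : (2 : ℝ) ≤ z := by exact_mod_cast hz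
  have hz0 : (0 : ℝ) < z := by linarith
  set Q := sprimes (2 * k + 2) z with hQ
  have hcard : ∀ p ∈ Q, (Ω p).card ≤ k := fun p hp => by
    have h := mem_sprimes.mp hp
    exact hΩ p h.1 h.2.1 h.2.2
  have hg0 : ∀ p ∈ Q, 0 ≤ dens Ω p := fun p _ => dens_nonneg Ω p
  have hg1 : ∀ p ∈ Q, dens Ω p ≤ 1 / 2 := fun p hp =>
    dens_le_half (hcard p hp) (mem_sprimes.mp hp).2.1
  have hharm : ∑ p ∈ Q, (1 : ℝ) / p ≤ 1 + Real.log z := by
    have h1 : ∑ p ∈ Q, (1 : ℝ) / p ≤ ∑ i ∈ Finset.Icc 1 z, (1 : ℝ) / i := by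
      apply Finset.sum_le_sum_of_subset_of_nonneg
      · intro p hp
        rw [Finset.mem_Icc]
        have h := mem_sprimes.mp hp
        exact ⟨h.1.one_le, h.2.2⟩
      · intro p _ _
        positivity
    have h2 : ∑ i ∈ Finset.Icc 1 z, (1 : ℝ) / i = (harmonic z : ℝ) := by
      rw [harmonic_eq_sum_Icc]
      push_cast
      refine Finset.sum_congr rfl fun i _ => ?_
      rw [one_div]
    have h3 := harmonic_le_one_add_log z
    linarith
  have hsum : ∑ p ∈ Q, dens Ω p ≤ k * (1 + Real.log z) := by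
    calc ∑ p ∈ Q, dens Ω p ≤ ∑ p ∈ Q, (k : ℝ) * (1 / p) :=
          Finset.sum_le_sum fun p hp => dens_le (hcard p hp)
      _ = k * ∑ p ∈ Q, (1 : ℝ) / p := by rw [Finset.mul_sum]
      _ ≤ k * (1 + Real.log z) := mul_le_mul_of_nonneg_left hharm (Nat.cast_nonneg _)
  have h1 : Real.exp (-(2 * (k * (1 + Real.log z)))) ≤ ∏ p ∈ Q, (1 - dens Ω p) :=
    (Real.exp_le_exp.mpr (by linarith)).trans (prod_one_sub_ge hg0 hg1)
  have h2 : Real.exp (2 * (k * (1 + Real.log z))) ≤ (z : ℝ) ^ (6 * k) := by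
    have h3 : 2 * (k * (1 + Real.log z)) = ((2 * k : ℕ) : ℝ) + ((2 * k : ℕ) : ℝ) * Real.log z := by
      push_cast
      ring
    rw [h3, Real.exp_add, Real.exp_nat_mul, Real.exp_log hz0]
    have h4 := exp_nat_le (2 * k)
    have h5 : (2 : ℝ) ^ (2 * (2 * k)) ≤ (z : ℝ) ^ (2 * (2 * k)) := pow_le_pow_left₀ (by norm_num) hz' _
    calc Real.exp ((2 * k : ℕ) : ℝ) * (z : ℝ) ^ (2 * k)
        ≤ (z : ℝ) ^ (2 * (2 * k)) * (z : ℝ) ^ (2 * k) :=
          mul_le_mul_of_nonneg_right (h4.trans h5) (by positivity)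
      _ = (z : ℝ) ^ (6 * k) := by
          rw [← pow_add]
          congr 1
          ring
  have h6 : 1 ≤ (z : ℝ) ^ (6 * k) * Real.exp (-(2 * (k * (1 + Real.log z)))) := by
    rw [Real.exp_neg, ← div_eq_mul_inv, one_le_div (Real.exp_pos _)]
    exact h2
  have h7 : 1 ≤ (z : ℝ) ^ (6 * k) * ∏ p ∈ Q, (1 - dens Ω p) :=
    h6.trans (mul_le_mul_of_nonneg_left h1 (by positivity))
  have h8 : (4 : ℝ) ≤ (z : ℝ) ^ 2 := by nlinarith
  have h9 : (z : ℝ) ^ (198 * k + 26) = (z : ℝ) ^ (192 * k + 24) * ((z : ℝ) ^ 2 * (z : ℝ) ^ (6 * k)) := by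
    rw [← pow_add, ← pow_add]
    congr 1
    ring
  rw [h9]
  have h10 : 0 < (z : ℝ) ^ (192 * k + 24) := by positivity
  have h11 : 4 * 1 ≤ (z : ℝ) ^ 2 * ((z : ℝ) ^ (6 * k) * ∏ p ∈ Q, (1 - dens Ω p)) :=
    mul_le_mul h8 h7 (by norm_num) (by positivity)
  calc 4 * (z : ℝ) ^ (192 * k + 24) = (z : ℝ) ^ (192 * k + 24) * (4 * 1) := by ring
    _ ≤ (z : ℝ) ^ (192 * k + 24) *
        ((z : ℝ) ^ 2 * ((z : ℝ) ^ (6 * k) * ∏ p ∈ Q, (1 - dens Ω p))) :=
        mul_le_mul_of_nonneg_left h11 h10.le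
    _ = _ := by ring

/-- **Fundamental lemma** (Brun-Hooley), in terms of weighted sums. -/
theorem fundamental_sum (hz : 2 ≤ z)
    (hΩ : ∀ p, p.Prime → 2 * k + 2 < p → p ≤ z → (Ω p).card ≤ k)
    (a : ℤ) (M : ℕ) (hM : z ^ (198 * k + 26) ≤ M) :
    (M : ℝ) / 4 * ∏ p ∈ sprimes (2 * k + 2) z, (1 - dens Ω p)
      ≤ ∑ u ∈ Finset.Ico a (a + M), ∏ p ∈ sprimes (2 * k + 2) z, (1 - chi Ω p u) ∧
    ∑ u ∈ Finset.Ico a (a + M), ∏ p ∈ sprimes (2 * k + 2) z, (1 - chi Ω p u)
      ≤ 3 * (M : ℝ) * ∏ p ∈ sprimes (2 * k + 2) z, (1 - dens Ω p) := by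
  set P := sprimes (2 * k + 2) z with hP
  have hcard : ∀ p ∈ P, (Ω p).card ≤ k := fun p hp => by
    have h := mem_sprimes.mp hp
    exact hΩ p h.1 h.2.1 h.2.2
  have hmain := brun_hooley (Finset.Ico a (a + M)) (chi Ω) (dens Ω)
    (fun p => ((Ω p).card : ℝ)) M P
    (fun E hE => count_classes' Ω a M E fun p hp => (mem_sprimes.mp (hE hp)).1)
    (Nat.cast_nonneg _) (chi_nonneg Ω) (chi_le_one Ω) (fun p _ => dens_nonneg Ω p)
    (fun p hp => by
      have := dens_le_half (hcard p hp) (mem_sprimes.mp hp).2.1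
      linarith)
    (fun p _ => Nat.cast_nonneg _)
    (blockSet (2 * k + 2) z) (Finset.range (z + 1)) (bj k) (fun j _ => bj_even k j)
    (fun j _ => Finset.filter_subset _ _)
    (fun i _ j _ hij => by
      rw [Finset.disjoint_left]
      intro p hp hp'
      exact hij ((mem_blockSet.mp hp).2.symm.trans (mem_blockSet.mp hp').2))
    (epsj k) (fun j _ => epsj_nonneg k j) (fun j _ => block_E hΩ j) (sum_epsj k (z + 1))
  have hR := prod_R hz hΩ (z + 1)
  have hV := V_lower hz hΩ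
  have hVnn : 0 ≤ ∏ p ∈ P, (1 - dens Ω p) := Finset.prod_nonneg fun p hp => by
    have := dens_le_half (hcard p hp) (mem_sprimes.mp hp).2.1
    linarith
  have hM' : (z : ℝ) ^ (198 * k + 26) ≤ M := by exact_mod_cast hM
  have hMV : (z : ℝ) ^ (198 * k + 26) * ∏ p ∈ P, (1 - dens Ω p) ≤ M * ∏ p ∈ P, (1 - dens Ω p) :=
    mul_le_mul_of_nonneg_right hM' hVnn
  simp_rw [prod_blocks] at hmain
  constructor
  · have := hmain.1
    linarith
  · have := hmain.2
    linarith

end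

end Pool.Agent.Lib.Sieve
end

-- from Lib.H18GB.Defs
section

/-!
# Project GB (problem `MP_443e5f_co`): basic definitions

* `e x = exp (2 π i x)`, `nr x` distance to the nearest integer.
* `IsW w W`: the prime factors of `W` are exactly the primes `≤ w`.
* `PSet w z S`: `S` is a set of primes in `(w, z]`.
* `rho S v`: the indicator of `no p ∈ S divides v`, divided by its density `VV S`.
* `er C A w = 2 ^ (-A / C) + w ^ (-1 / C)`: the generic error.
* `lamv W v = φ(W)/W log |v|` if `|v|` is prime, `lam W r n = lamv W (r + W n)`, `uu = lam - 1`.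
-/

namespace Pool.Agent.Lib.H18GB

open Finset Pool.Agent.Lib.Sieve

/-- `exp (2 π i x)` -/
noncomputable def e (x : ℝ) : ℂ := Complex.exp (2 * Real.pi * x * Complex.I)

/-- distance to the nearest integer -/
noncomputable def nr (x : ℝ) : ℝ := |x - round x|

/-- the prime factors of `W` are exactly the primes `≤ w` -/
def IsW (w W : ℕ) : Prop := 0 < W ∧ ∀ p : ℕ, p.Prime → (p ∣ W ↔ p ≤ w)

/-- `S` is a set of primes in `(w, z]` -/
def PSet (w z : ℕ) (S : Finset ℕ) : Prop := ∀ p ∈ S, p.Prime ∧ w < p ∧ p ≤ z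

/-- no `p ∈ S` divides `v` -/
def Rgh (S : Finset ℕ) (v : ℤ) : Prop := ∀ p ∈ S, ¬ (p : ℤ) ∣ v

noncomputable def VV (S : Finset ℕ) : ℝ := ∏ p ∈ S, (1 - 1 / (p : ℝ))

open Classical in
noncomputable def rho (S : Finset ℕ) (v : ℤ) : ℝ := if Rgh S v then (VV S)⁻¹ else 0

/-- the singular factor of a pair of linear forms with discriminant `d` -/
noncomputable def SGp (S : Finset ℕ) (d : ℤ) : ℝ :=
  ∏ p ∈ S, if (p : ℤ) ∣ d then (1 - 1 / (p : ℝ))⁻¹ else (1 - 2 / (p : ℝ)) / (1 - 1 / (p : ℝ)) ^ 2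

noncomputable def Ers (t : ℝ) (S : Finset ℕ) (m : ℤ) : ℝ :=
  ∑ p ∈ S.filter (fun p : ℕ => (p : ℤ) ∣ m), (p : ℝ) ^ (-t)

/-- the generic error term -/
noncomputable def er (C A w : ℕ) : ℝ := (2 : ℝ) ^ (-(A : ℝ) / C) + (w : ℝ) ^ (-(1 : ℝ) / C)

noncomputable def lamv (W : ℕ) (v : ℤ) : ℝ :=
  if v.natAbs.Prime then (Nat.totient W / W : ℝ) * Real.log v.natAbs else 0

noncomputable def lam (W : ℕ) (r n : ℤ) : ℝ := lamv W (r + W * n)

noncomputable def uu (W : ℕ) (r n : ℤ) : ℝ := lam W r n - 1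

/-- `f` is dominated by `κ (1 + rho)` along `r + W n` -/
def Maj (κ : ℝ) (S : Finset ℕ) (W : ℕ) (r : ℤ) (f : ℤ → ℂ) : Prop :=
  ∀ n : ℤ, ‖f n‖ ≤ κ * (1 + rho S (r + W * n))

/-- `f` vanishes outside `[a, b)` -/
def SuppIn (a b : ℤ) (f : ℤ → ℂ) : Prop := ∀ n, n ∉ Finset.Ico a b → f n = 0

theorem e_zero : e 0 = 1 := by simp [e]

theorem e_add (x y : ℝ) : e (x + y) = e x * e y := by
  unfold e
  rw [← Complex.exp_add]
  congr 1
  push_cast
  ring

theorem e_neg (x : ℝ) : e (-x) = (starRingEnd ℂ) (e x) := by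
  unfold e
  rw [← Complex.exp_conj]
  congr 1
  simp only [map_mul, Complex.conj_ofReal, Complex.conj_I, map_ofNat]
  push_cast
  ring

theorem norm_e (x : ℝ) : ‖e x‖ = 1 := by
  unfold e
  have : (2 * Real.pi * x * Complex.I : ℂ) = ((2 * Real.pi * x : ℝ) : ℂ) * Complex.I := by
    push_cast; ring
  rw [this]
  exact Complex.norm_exp_ofReal_mul_I _

theorem e_int (n : ℤ) : e n = 1 := by
  unfold e
  rw [Complex.exp_eq_one_iff]
  exact ⟨n, by push_cast; ring⟩

theorem e_add_int (x : ℝ) (n : ℤ) : e (x + n) = e x := by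
  rw [e_add, e_int, mul_one]


theorem nr_le_abs_sub (x : ℝ) (n : ℤ) : nr x ≤ |x - n| := round_le x n


theorem rho_nonneg {S : Finset ℕ} (hS : ∀ p ∈ S, p.Prime) (v : ℤ) : 0 ≤ rho S v := by
  unfold rho
  split_ifs
  · apply inv_nonneg.mpr
    apply Finset.prod_nonneg
    intro p hp
    have : (1 : ℝ) ≤ p := by exact_mod_cast (hS p hp).one_lt.le
    rw [sub_nonneg, div_le_one (by linarith)]
    exact this
  · exact le_rfl

theorem VV_pos {S : Finset ℕ} (hS : ∀ p ∈ S, p.Prime) : 0 < VV S := by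
  apply Finset.prod_pos
  intro p hp
  have : (1 : ℝ) < p := by exact_mod_cast (hS p hp).one_lt
  rw [sub_pos, div_lt_one (by linarith)]
  exact this


theorem Ers_nonneg (t : ℝ) (S : Finset ℕ) (m : ℤ) : 0 ≤ Ers t S m :=
  Finset.sum_nonneg fun _ _ => Real.rpow_nonneg (Nat.cast_nonneg _) _

theorem er_nonneg (C A w : ℕ) : 0 ≤ er C A w :=
  add_nonneg (Real.rpow_nonneg (by norm_num) _) (Real.rpow_nonneg (Nat.cast_nonneg _) _)

theorem PSet.prime {w z : ℕ} {S : Finset ℕ} (h : PSet w z S) : ∀ p ∈ S, p.Prime :=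
  fun p hp => (h p hp).1

theorem pset_sprimes (w z : ℕ) : PSet w z (sprimes w z) := fun _ hp => mem_sprimes.mp hp

theorem IsW.not_dvd {w W z : ℕ} (hW : IsW w W) {S : Finset ℕ} (hS : PSet w z S) :
    ∀ p ∈ S, ¬ (p : ℤ) ∣ (W : ℤ) := by
  intro p hp h
  obtain ⟨h1, h2, -⟩ := hS p hp
  have := (hW.2 p h1).mp (Int.natCast_dvd_natCast.mp h)
  omega

end Pool.Agent.Lib.H18GB
end

-- from Lib.H18GB.FL
section

/-!
# Chunk FL: the fundamental lemma of the sieve with arbitrary precision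

Copy of `Pool/Agent/Lib/Sieve/Fundamental.lean` (`fundamental_sum`), with an additional parameter
`A'` (about `A / C`): the exponents are `48 * k + 2 + 2 * j + 2 * A'`, so that the total relative
error is at most `2 ^ (-2 * A' - 2)`, and the remainder is at most `z ^ (192 k + 24 + 8 A')`.
-/

set_option linter.unusedSectionVars false

namespace Pool.Agent.Lib.H18GB

open Finset Pool.Agent.Lib.Sieve

theorem fl_exp_le {x : ℝ} (h0 : 0 ≤ x) (h1 : x ≤ 1) : Real.exp x ≤ 1 + 2 * x := by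
  have h := Real.abs_exp_sub_one_sub_id_le (x := x) (by rw [abs_of_nonneg h0]; exact h1)
  have h2 := (abs_le.mp h).2
  nlinarith

section

variable {ι κ α : Type*} [DecidableEq ι] [DecidableEq κ]

/-- The abstract Brun-Hooley sieve: upper and lower bound for the number (weighted) of `u ∈ U`
avoiding all the classes. -/
theorem fl_brun_hooley (U : Finset α) (χ : ι → α → ℝ) (g ω : ι → ℝ) (M : ℝ) (P : Finset ι)
    (hC : ∀ E ⊆ P, |∑ u ∈ U, ∏ p ∈ E, χ p u - M * ∏ p ∈ E, g p| ≤ ∏ p ∈ E, ω p)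
    (hM : 0 ≤ M) (hχ0 : ∀ p u, 0 ≤ χ p u) (hχ1 : ∀ p u, χ p u ≤ 1)
    (hg0 : ∀ p ∈ P, 0 ≤ g p) (hg1 : ∀ p ∈ P, g p ≤ 1) (hω : ∀ p ∈ P, 0 ≤ ω p)
    (Q : κ → Finset ι) (J : Finset κ) (b : κ → ℕ) (hb : ∀ j ∈ J, Even (b j))
    (hQ : ∀ j ∈ J, Q j ⊆ P) (hdisj : ∀ i ∈ J, ∀ j ∈ J, i ≠ j → Disjoint (Q i) (Q j))
    (ε : κ → ℝ) (hε0 : ∀ j ∈ J, 0 ≤ ε j)
    (hε : ∀ j ∈ J, poly (cE (b j + 1)) g (Q j) ≤ ε j * ∏ p ∈ Q j, (1 - g p))
    {η : ℝ} (hη : η ≤ 1) (hεsum : ∑ j ∈ J, ε j ≤ η) :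
    M * (1 - η) * ∏ j ∈ J, ∏ p ∈ Q j, (1 - g p) - ∏ j ∈ J, poly (cA (b j + 1)) ω (Q j)
      ≤ ∑ u ∈ U, ∏ j ∈ J, ∏ p ∈ Q j, (1 - χ p u) ∧
    ∑ u ∈ U, ∏ j ∈ J, ∏ p ∈ Q j, (1 - χ p u)
      ≤ M * (1 + 2 * η) * ∏ j ∈ J, ∏ p ∈ Q j, (1 - g p)
        + ∏ j ∈ J, poly (cA (b j + 1)) ω (Q j) := by
  -- abbreviations
  set V : κ → ℝ := fun j => ∏ p ∈ Q j, (1 - g p) with hV
  set Tj : κ → ℝ := fun j => poly (cT (b j)) g (Q j) with hT
  set Ej : κ → ℝ := fun j => poly (cE (b j + 1)) g (Q j) with hE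
  set r : κ → ℝ := fun j => poly (fun D => |cT (b j) D|) ω (Q j) with hr
  set s : κ → ℝ := fun j => poly (fun D => |cE (b j + 1) D|) ω (Q j) with hs
  have hVnn : ∀ j ∈ J, 0 ≤ V j := fun j hj =>
    Finset.prod_nonneg fun p hp => by
      have := hg1 p (hQ j hj hp)
      linarith
  have hVT : ∀ j ∈ J, V j ≤ Tj j := fun j hj =>
    le_polyT_of_even (fun p hp => hg0 p (hQ j hj hp)) (fun p hp => hg1 p (hQ j hj hp)) (hb j hj)
  have hTV : ∀ j ∈ J, Tj j ≤ (1 + ε j) * V j := by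
    intro j hj
    have h1 := polyT_le_of_even (fun p hp => hg0 p (hQ j hj hp))
      (fun p hp => hg1 p (hQ j hj hp)) (hb j hj)
    have h2 := hε j hj
    simp only [hT, hV] at *
    linarith
  have hTnn : ∀ j ∈ J, 0 ≤ Tj j := fun j hj => (hVnn j hj).trans (hVT j hj)
  have hrnn : ∀ j ∈ J, 0 ≤ r j := fun j hj =>
    poly_nonneg (fun D => abs_nonneg _) fun p hp => hω p (hQ j hj hp)
  have hsnn : ∀ j ∈ J, 0 ≤ s j := fun j hj =>
    poly_nonneg (fun D => abs_nonneg _) fun p hp => hω p (hQ j hj hp)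
  have hrs : ∀ j ∈ J, r j + s j = poly (cA (b j + 1)) ω (Q j) := by
    intro j hj
    simp only [hr, hs]
    rw [← poly_add]
    congr 1
    funext D
    unfold cT cE cA
    by_cases h1 : D.card ≤ b j
    · rw [if_pos h1, if_neg (by omega), if_pos (by omega)]
      simp
    · by_cases h2 : D.card = b j + 1
      · rw [if_neg h1, if_pos h2, if_pos (by omega)]
        simp
      · rw [if_neg h1, if_neg h2, if_neg (by omega)]
        simp
  have hR : ∏ j ∈ J, r j + ∑ l ∈ J, s l * ∏ j ∈ J.erase l, r j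
      ≤ ∏ j ∈ J, poly (cA (b j + 1)) ω (Q j) := by
    refine (prod_add_ge J r s hrnn hsnn).trans (le_of_eq ?_)
    exact Finset.prod_congr rfl hrs
  have hemp : ∀ j ∈ J, Disjoint (∅ : Finset ι) (Q j) := fun j _ => Finset.disjoint_empty_left _
  -- the main sum
  have main := rep U χ g ω M P hC (fun j => cT (b j)) Q J hQ hdisj ∅ (Finset.empty_subset _) hemp
  simp only [Finset.prod_empty, mul_one] at main
  have main' : |∑ u ∈ U, ∏ j ∈ J, poly (cT (b j)) (fun p => χ p u) (Q j) - M * ∏ j ∈ J, Tj j|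
      ≤ ∏ j ∈ J, r j := main
  -- the correction sums
  have corr : ∀ l ∈ J,
      |∑ u ∈ U, poly (cE (b l + 1)) (fun p => χ p u) (Q l) *
          ∏ j ∈ J.erase l, poly (cT (b j)) (fun p => χ p u) (Q j)
        - M * (Ej l * ∏ j ∈ J.erase l, Tj j)| ≤ s l * ∏ j ∈ J.erase l, r j := by
    intro l hl
    have h := rep U χ g ω M P hC (Function.update (fun j => cT (b j)) l (cE (b l + 1))) Q J hQ
      hdisj ∅ (Finset.empty_subset _) hemp
    simp only [Finset.prod_empty, mul_one] at h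
    have hupd : ∀ F : κ → (Finset ι → ℝ) → ℝ,
        ∏ j ∈ J, F j (Function.update (fun j => cT (b j)) l (cE (b l + 1)) j)
          = F l (cE (b l + 1)) * ∏ j ∈ J.erase l, F j (cT (b j)) := by
      intro F
      rw [← Finset.mul_prod_erase J _ hl]
      rw [Function.update_self]
      congr 1
      refine Finset.prod_congr rfl fun j hj => ?_
      rw [Function.update_of_ne (Finset.ne_of_mem_erase hj)]
    have h1 : ∀ u, ∏ j ∈ J, poly (Function.update (fun j => cT (b j)) l (cE (b l + 1)) j)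
        (fun p => χ p u) (Q j) = poly (cE (b l + 1)) (fun p => χ p u) (Q l) *
          ∏ j ∈ J.erase l, poly (cT (b j)) (fun p => χ p u) (Q j) := fun u =>
      hupd (fun j c => poly c (fun p => χ p u) (Q j))
    have h2 : ∏ j ∈ J, poly (Function.update (fun j => cT (b j)) l (cE (b l + 1)) j) g (Q j)
        = Ej l * ∏ j ∈ J.erase l, Tj j := hupd (fun j c => poly c g (Q j))
    have h3 : ∏ j ∈ J, poly (fun D =>
        |Function.update (fun j => cT (b j)) l (cE (b l + 1)) j D|) ω (Q j)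
        = s l * ∏ j ∈ J.erase l, r j := hupd (fun j c => poly (fun D => |c D|) ω (Q j))
    simp_rw [h1] at h
    rw [h2, h3] at h
    exact h
  have hcard : ∀ l ∈ J, Ej l * ∏ j ∈ J.erase l, Tj j ≤ ε l * ∏ j ∈ J, Tj j := by
    intro l hl
    rw [← Finset.mul_prod_erase J Tj hl, ← mul_assoc]
    apply mul_le_mul_of_nonneg_right
    · have h1 := hε l hl
      have h2 := mul_le_mul_of_nonneg_left (hVT l hl) (hε0 l hl)
      simp only [hE, hV] at *
      linarith
    · exact Finset.prod_nonneg fun j hj => hTnn j (Finset.mem_of_mem_erase hj)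
  have hprodT : 0 ≤ ∏ j ∈ J, Tj j := Finset.prod_nonneg hTnn
  have hVT' : ∏ j ∈ J, V j ≤ ∏ j ∈ J, Tj j := Finset.prod_le_prod hVnn hVT
  constructor
  · -- lower bound
    have hpt : ∀ u ∈ U, ∏ j ∈ J, poly (cT (b j)) (fun p => χ p u) (Q j)
        - ∑ l ∈ J, poly (cE (b l + 1)) (fun p => χ p u) (Q l) *
            ∏ j ∈ J.erase l, poly (cT (b j)) (fun p => χ p u) (Q j)
        ≤ ∏ j ∈ J, ∏ p ∈ Q j, (1 - χ p u) := by
      intro u _
      apply prod_ge_telescope
      · intro j _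
        exact Finset.prod_nonneg fun p _ => by linarith [hχ1 p u]
      · intro j hj
        exact le_polyT_of_even (fun p _ => hχ0 p u) (fun p _ => hχ1 p u) (hb j hj)
      · intro j hj
        have := polyT_le_of_even (f := fun p => χ p u) (Q := Q j) (fun p _ => hχ0 p u)
          (fun p _ => hχ1 p u) (hb j hj)
        linarith
    have hsum := Finset.sum_le_sum hpt
    rw [Finset.sum_sub_distrib, Finset.sum_comm] at hsum
    have h1 := (abs_le.mp main').1
    have h2 : ∑ l ∈ J, ∑ u ∈ U, poly (cE (b l + 1)) (fun p => χ p u) (Q l) *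
          ∏ j ∈ J.erase l, poly (cT (b j)) (fun p => χ p u) (Q j)
        ≤ ∑ l ∈ J, (M * (ε l * ∏ j ∈ J, Tj j) + s l * ∏ j ∈ J.erase l, r j) := by
      refine Finset.sum_le_sum fun l hl => ?_
      have h3 := (abs_le.mp (corr l hl)).2
      have h4 := mul_le_mul_of_nonneg_left (hcard l hl) hM
      linarith
    rw [Finset.sum_add_distrib, ← Finset.mul_sum, ← Finset.sum_mul] at h2
    have h5 : M * ((∑ l ∈ J, ε l) * ∏ j ∈ J, Tj j) ≤ M * (η * ∏ j ∈ J, Tj j) :=
      mul_le_mul_of_nonneg_left (mul_le_mul_of_nonneg_right hεsum hprodT) hM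
    have h6 : M * (1 - η) * ∏ j ∈ J, V j ≤ M * (1 - η) * ∏ j ∈ J, Tj j :=
      mul_le_mul_of_nonneg_left hVT' (mul_nonneg hM (by linarith))
    have h7 : M * (1 - η) * ∏ j ∈ J, Tj j = M * ∏ j ∈ J, Tj j - M * (η * ∏ j ∈ J, Tj j) := by ring
    rw [h7] at h6
    simp only [hV] at h6
    linarith
  · -- upper bound
    have hpt : ∀ u ∈ U, ∏ j ∈ J, ∏ p ∈ Q j, (1 - χ p u)
        ≤ ∏ j ∈ J, poly (cT (b j)) (fun p => χ p u) (Q j) := by
      intro u _
      apply Finset.prod_le_prod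
      · intro j _
        exact Finset.prod_nonneg fun p _ => by linarith [hχ1 p u]
      · intro j hj
        exact le_polyT_of_even (fun p _ => hχ0 p u) (fun p _ => hχ1 p u) (hb j hj)
    have hsum := Finset.sum_le_sum hpt
    have h1 := (abs_le.mp main').2
    have h2 : ∏ j ∈ J, Tj j ≤ (1 + 2 * η) * ∏ j ∈ J, V j := by
      have h3 : ∏ j ∈ J, Tj j ≤ ∏ j ∈ J, ((1 + ε j) * V j) := Finset.prod_le_prod hTnn hTV
      rw [Finset.prod_mul_distrib] at h3
      have h4 : ∏ j ∈ J, (1 + ε j) ≤ Real.exp (∑ j ∈ J, ε j) := by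
        rw [Real.exp_sum]
        refine Finset.prod_le_prod (fun j hj => by linarith [hε0 j hj]) fun j _ => ?_
        have := Real.add_one_le_exp (ε j)
        linarith
      have h5 : Real.exp (∑ j ∈ J, ε j) ≤ Real.exp η := Real.exp_le_exp.mpr hεsum
      have h6 : Real.exp η ≤ 1 + 2 * η := fl_exp_le (le_trans (Finset.sum_nonneg hε0) hεsum) hη
      have h10 : 0 ≤ ∏ j ∈ J, V j := Finset.prod_nonneg hVnn
      calc ∏ j ∈ J, Tj j ≤ (∏ j ∈ J, (1 + ε j)) * ∏ j ∈ J, V j := h3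
        _ ≤ (1 + 2 * η) * ∏ j ∈ J, V j := mul_le_mul_of_nonneg_right (by linarith) h10
    have h3 : M * ∏ j ∈ J, Tj j ≤ M * ((1 + 2 * η) * ∏ j ∈ J, V j) :=
      mul_le_mul_of_nonneg_left h2 hM
    have h4 : ∏ j ∈ J, r j ≤ ∏ j ∈ J, poly (cA (b j + 1)) ω (Q j) := by
      refine le_trans ?_ hR
      have : 0 ≤ ∑ l ∈ J, s l * ∏ j ∈ J.erase l, r j :=
        Finset.sum_nonneg fun l hl => mul_nonneg (hsnn l hl)
          (Finset.prod_nonneg fun j hj => hrnn j (Finset.mem_of_mem_erase hj))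
      linarith
    rw [← mul_assoc] at h3
    simp only [hV] at h3
    linarith

end

section

variable {k A' w z : ℕ} {S : Finset ℕ} {Ω : (p : ℕ) → Finset (ZMod p)}

/-- The blocks of sieving primes. -/
def fl_blk (z : ℕ) (S : Finset ℕ) (j : ℕ) : Finset ℕ := S.filter (fun p => blk z p = j)

theorem fl_mem {j p : ℕ} : p ∈ fl_blk z S j ↔ p ∈ S ∧ blk z p = j := by
  unfold fl_blk
  rw [Finset.mem_filter]

theorem fl_blk_sub (hS : PSet w z S) (j : ℕ) : fl_blk z S j ⊆ blockSet w z j := by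
  intro p hp
  rw [fl_mem] at hp
  rw [mem_blockSet]
  exact ⟨hS p hp.1, hp.2⟩

theorem fl_prod_blocks (z : ℕ) (S : Finset ℕ) (f : ℕ → ℝ) :
    ∏ j ∈ Finset.range (z + 1), ∏ p ∈ fl_blk z S j, f p = ∏ p ∈ S, f p := by
  unfold fl_blk
  apply Finset.prod_fiberwise_of_maps_to
  intro p _
  exact Finset.mem_range.mpr (Nat.lt_succ_of_le (blk_le z p))

/-- The exponents `b_j`. -/
def fl_bj (k A' j : ℕ) : ℕ := 48 * k + 2 + 2 * j + 2 * A'

theorem fl_bj_even (k A' j : ℕ) : Even (fl_bj k A' j) := ⟨24 * k + 1 + j + A', by unfold fl_bj; ring⟩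

/-- The relative error of block `j`. -/
noncomputable def fl_eps (k A' j : ℕ) : ℝ := Real.exp (24 * k) / 2 ^ (fl_bj k A' j + 1)

theorem fl_eps_nonneg (k A' j : ℕ) : 0 ≤ fl_eps k A' j := by
  unfold fl_eps
  positivity

theorem fl_sum_eps (k A' n : ℕ) :
    ∑ j ∈ Finset.range n, fl_eps k A' j ≤ 1 / 4 * (1 / 2) ^ (2 * A') := by
  have h1 : ∀ j, fl_eps k A' j ≤ 1 / 8 * (1 / 2) ^ (2 * A') * (1 / 2) ^ j := by
    intro j
    unfold fl_eps fl_bj
    have h2 : Real.exp (24 * k) ≤ 2 ^ (48 * k) := by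
      have := exp_nat_le (24 * k)
      push_cast at this
      calc Real.exp (24 * k) ≤ 2 ^ (2 * (24 * k)) := this
        _ = 2 ^ (48 * k) := by congr 1; ring
    rw [div_le_iff₀ (by positivity)]
    have h3 : (1 : ℝ) / 8 * (1 / 2) ^ (2 * A') * (1 / 2) ^ j * 2 ^ (48 * k + 2 + 2 * j + 2 * A' + 1)
        = 2 ^ (48 * k) * 2 ^ j := by
      rw [one_div_pow, one_div_pow]
      have : (2 : ℝ) ^ (48 * k + 2 + 2 * j + 2 * A' + 1)
          = 2 ^ (48 * k) * 8 * (2 ^ j * 2 ^ j) * 2 ^ (2 * A') := by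
        rw [show 48 * k + 2 + 2 * j + 2 * A' + 1 = 48 * k + 3 + (j + j) + 2 * A' by ring, pow_add,
          pow_add, pow_add, pow_add]
        norm_num
      rw [this]
      have hj : (2 : ℝ) ^ j ≠ 0 := by positivity
      have hA : (2 : ℝ) ^ (2 * A') ≠ 0 := by positivity
      field_simp
    rw [h3]
    have h4 : (1 : ℝ) ≤ 2 ^ j := one_le_pow₀ (by norm_num)
    have h5 : (0 : ℝ) < 2 ^ (48 * k) := by positivity
    nlinarith
  have h0 : (0 : ℝ) ≤ 1 / 8 * (1 / 2) ^ (2 * A') := by positivity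
  calc ∑ j ∈ Finset.range n, fl_eps k A' j
      ≤ ∑ j ∈ Finset.range n, 1 / 8 * (1 / 2 : ℝ) ^ (2 * A') * (1 / 2 : ℝ) ^ j :=
        Finset.sum_le_sum fun j _ => h1 j
    _ = 1 / 8 * (1 / 2) ^ (2 * A') * ∑ j ∈ Finset.range n, (1 / 2 : ℝ) ^ j := by
        rw [Finset.mul_sum]
    _ ≤ 1 / 8 * (1 / 2) ^ (2 * A') * 2 :=
        mul_le_mul_of_nonneg_left (sum_geometric_two_le n) h0
    _ = 1 / 4 * (1 / 2) ^ (2 * A') := by ring

theorem fl_block_E (hS : PSet w z S) (hw : 2 * k + 2 ≤ w) (hΩ : ∀ p ∈ S, (Ω p).card ≤ k) (j : ℕ) :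
    poly (cE (fl_bj k A' j + 1)) (dens Ω) (fl_blk z S j)
      ≤ fl_eps k A' j * ∏ p ∈ fl_blk z S j, (1 - dens Ω p) := by
  set Q := fl_blk z S j with hQ
  have hcard : ∀ p ∈ Q, (Ω p).card ≤ k := fun p hp => hΩ p (fl_mem.mp hp).1
  have hg0 : ∀ p ∈ Q, 0 ≤ dens Ω p := fun p _ => dens_nonneg Ω p
  have hg1 : ∀ p ∈ Q, dens Ω p ≤ 1 / 2 := fun p hp =>
    dens_le_half (hcard p hp) (by
      have := (hS p (fl_mem.mp hp).1).2.1
      omega)
  have hinv : ∑ p ∈ Q, (1 : ℝ) / p ≤ 6 :=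
    (Finset.sum_le_sum_of_subset_of_nonneg (fl_blk_sub hS j) fun p _ _ => by positivity).trans
      (block_sum_inv w z j)
  have hsum : ∑ p ∈ Q, dens Ω p ≤ 6 * k := by
    calc ∑ p ∈ Q, dens Ω p ≤ ∑ p ∈ Q, (k : ℝ) * (1 / p) :=
          Finset.sum_le_sum fun p hp => dens_le (hcard p hp)
      _ = k * ∑ p ∈ Q, (1 : ℝ) / p := by rw [Finset.mul_sum]
      _ ≤ k * 6 := mul_le_mul_of_nonneg_left hinv (Nat.cast_nonneg _)
      _ = 6 * k := by ring
  have h1 := rankinE hg0 (fl_bj k A' j + 1) (l := 2) (by norm_num)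
  have h2 : ∏ p ∈ Q, (1 + 2 * dens Ω p) ≤ Real.exp (∑ p ∈ Q, 2 * dens Ω p) :=
    prod_one_add_le fun p hp => by
      have := hg0 p hp
      linarith
  rw [← Finset.mul_sum] at h2
  have h3 : Real.exp (2 * ∑ p ∈ Q, dens Ω p) ≤ Real.exp (12 * k) :=
    Real.exp_le_exp.mpr (by linarith)
  have h4 : Real.exp (-(12 * k)) ≤ ∏ p ∈ Q, (1 - dens Ω p) :=
    (Real.exp_le_exp.mpr (by linarith)).trans (prod_one_sub_ge hg0 hg1)
  have h5 : (0 : ℝ) < 2 ^ (fl_bj k A' j + 1) := by positivity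
  have h6 : poly (cE (fl_bj k A' j + 1)) (dens Ω) Q
      ≤ Real.exp (12 * k) / 2 ^ (fl_bj k A' j + 1) := by
    rw [le_div_iff₀ h5]
    linarith
  refine h6.trans ?_
  unfold fl_eps
  have h7 : Real.exp (12 * k) = Real.exp (24 * k) * Real.exp (-(12 * k)) := by
    rw [← Real.exp_add]
    congr 1
    ring
  rw [h7]
  have h8 : 0 ≤ Real.exp (24 * k) / 2 ^ (fl_bj k A' j + 1) := by positivity
  calc Real.exp (24 * k) * Real.exp (-(12 * k)) / 2 ^ (fl_bj k A' j + 1)
      = Real.exp (24 * k) / 2 ^ (fl_bj k A' j + 1) * Real.exp (-(12 * k)) := by ring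
    _ ≤ Real.exp (24 * k) / 2 ^ (fl_bj k A' j + 1) * ∏ p ∈ Q, (1 - dens Ω p) :=
        mul_le_mul_of_nonneg_left h4 h8

theorem fl_block_R (hz : 2 ≤ z) (hS : PSet w z S) (hw : 2 * k + 2 ≤ w)
    (hΩ : ∀ p ∈ S, (Ω p).card ≤ k) (j : ℕ) :
    poly (cA (fl_bj k A' j + 1)) (fun p => ((Ω p).card : ℝ)) (fl_blk z S j)
      ≤ Real.exp (2 * ((48 * k + 4 + 2 * A' + 2 * j) / 2 ^ j) * Real.log z) := by
  have hz' : (2 : ℝ) ≤ z := by exact_mod_cast hz
  have hlogz : 0 ≤ Real.log z := Real.log_nonneg (by linarith)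
  by_cases h : (fl_blk z S j).Nonempty
  · set Q := fl_blk z S j with hQ
    obtain ⟨y, hyQ, hymax⟩ := Finset.exists_max_image Q id h
    have hymem := fl_mem.mp hyQ
    obtain ⟨hyp, hyw, hyz⟩ := hS y hymem.1
    have hcard : ∀ p ∈ Q, (Ω p).card ≤ k := fun p hp => hΩ p (fl_mem.mp hp).1
    have hy3 : 3 ≤ y := by omega
    have hyr : (3 : ℝ) ≤ y := by exact_mod_cast hy3
    have hky : (k : ℝ) ≤ y := by
      have : k ≤ y := by omega
      exact_mod_cast this
    set X : ℝ := (y : ℝ) ^ 2 with hX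
    have hX9 : 9 ≤ X := by
      rw [hX]
      nlinarith
    have hX1 : 1 ≤ X := by linarith
    have h1 := rankinA (f := fun p => ((Ω p).card : ℝ)) (Q := Q)
      (fun p _ => Nat.cast_nonneg _) (fl_bj k A' j + 1) hX1
    have h2 : ∏ p ∈ Q, (1 + ((Ω p).card : ℝ) / X) ≤ Real.exp (∑ p ∈ Q, ((Ω p).card : ℝ) / X) :=
      prod_one_add_le fun p hp => by positivity
    have hQcard : (Q.card : ℝ) ≤ y := by
      have : Q ⊆ Finset.Icc 1 y := by
        intro p hp
        rw [Finset.mem_Icc]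
        exact ⟨(hS p (fl_mem.mp hp).1).1.one_le, hymax p hp⟩
      have := Finset.card_le_card this
      rw [Nat.card_Icc] at this
      have h' : Q.card ≤ y := by omega
      exact_mod_cast h'
    have h3 : ∑ p ∈ Q, ((Ω p).card : ℝ) / X ≤ 1 := by
      rw [← Finset.sum_div, div_le_one (by linarith)]
      calc ∑ p ∈ Q, ((Ω p).card : ℝ) ≤ ∑ _p ∈ Q, (k : ℝ) :=
            Finset.sum_le_sum fun p hp => by exact_mod_cast hcard p hp
        _ = Q.card * k := by rw [Finset.sum_const, nsmul_eq_mul]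
        _ ≤ y * y := mul_le_mul hQcard hky (Nat.cast_nonneg _) (Nat.cast_nonneg _)
        _ = X := by rw [hX]; ring
    have h4 : ∏ p ∈ Q, (1 + ((Ω p).card : ℝ) / X) ≤ X := by
      refine h2.trans ((Real.exp_le_exp.mpr h3).trans ?_)
      have := Real.exp_one_lt_d9
      linarith
    have h5 : poly (cA (fl_bj k A' j + 1)) (fun p => ((Ω p).card : ℝ)) Q
        ≤ X ^ (fl_bj k A' j + 2) := by
      refine h1.trans ?_
      calc X ^ (fl_bj k A' j + 1) * ∏ p ∈ Q, (1 + ((Ω p).card : ℝ) / X)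
          ≤ X ^ (fl_bj k A' j + 1) * X := mul_le_mul_of_nonneg_left h4 (by positivity)
        _ = X ^ (fl_bj k A' j + 2) := by rw [← pow_succ]
    refine h5.trans ?_
    -- compare with a power of `z`
    have hylog : (2 : ℝ) ^ j * Real.log y ≤ Real.log z := by
      have h6 := (blk_spec hyp hyz).1
      rw [hymem.2] at h6
      have h7 : Real.log ((y : ℝ) ^ (2 ^ j)) ≤ Real.log z := by
        apply Real.log_le_log (by positivity)
        exact_mod_cast h6
      rw [Real.log_pow] at h7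
      push_cast at h7
      exact h7
    have hylog' : Real.log y ≤ Real.log z / 2 ^ j := by
      rw [le_div_iff₀ (by positivity)]
      linarith
    have h8 : X ^ (fl_bj k A' j + 2) = Real.exp ((2 * (fl_bj k A' j + 2) : ℕ) * Real.log y) := by
      rw [Real.exp_nat_mul, Real.exp_log (by linarith), hX, ← pow_mul]
    rw [h8]
    apply Real.exp_le_exp.mpr
    have h9 : ((2 * (fl_bj k A' j + 2) : ℕ) : ℝ) = 2 * (48 * k + 4 + 2 * A' + 2 * j) := by
      unfold fl_bj
      push_cast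
      ring
    rw [h9]
    calc (2 * (48 * k + 4 + 2 * A' + 2 * j) : ℝ) * Real.log y
        ≤ (2 * (48 * k + 4 + 2 * A' + 2 * j)) * (Real.log z / 2 ^ j) :=
          mul_le_mul_of_nonneg_left hylog' (by positivity)
      _ = 2 * ((48 * k + 4 + 2 * A' + 2 * j) / 2 ^ j) * Real.log z := by ring
  · rw [Finset.not_nonempty_iff_eq_empty] at h
    rw [h, poly_empty]
    have : cA (fl_bj k A' j + 1) (∅ : Finset ℕ) = 1 := by simp [cA]
    rw [this]
    apply Real.one_le_exp
    positivity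

theorem fl_prod_R (hz : 2 ≤ z) (hS : PSet w z S) (hw : 2 * k + 2 ≤ w)
    (hΩ : ∀ p ∈ S, (Ω p).card ≤ k) (n : ℕ) :
    ∏ j ∈ Finset.range n,
        poly (cA (fl_bj k A' j + 1)) (fun p => ((Ω p).card : ℝ)) (fl_blk z S j)
      ≤ (z : ℝ) ^ (192 * k + 24 + 8 * A') := by
  have hz' : (2 : ℝ) ≤ z := by exact_mod_cast hz
  have hlogz : 0 ≤ Real.log z := Real.log_nonneg (by linarith)
  calc ∏ j ∈ Finset.range n,
        poly (cA (fl_bj k A' j + 1)) (fun p => ((Ω p).card : ℝ)) (fl_blk z S j)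
      ≤ ∏ j ∈ Finset.range n,
          Real.exp (2 * ((48 * k + 4 + 2 * A' + 2 * j) / 2 ^ j) * Real.log z) := by
        refine Finset.prod_le_prod (fun j _ => ?_) fun j _ => fl_block_R hz hS hw hΩ j
        apply poly_nonneg
        · intro D
          unfold cA
          split_ifs <;> norm_num
        · intro p _
          positivity
    _ = Real.exp (2 * (∑ j ∈ Finset.range n, ((48 * k + 4 + 2 * A' : ℝ) + 2 * j) / 2 ^ j) *
          Real.log z) := by
        rw [← Real.exp_sum]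
        congr 1
        rw [Finset.mul_sum, Finset.sum_mul]
    _ ≤ Real.exp (2 * (2 * (48 * k + 4 + 2 * A') + 4) * Real.log z) := by
        apply Real.exp_le_exp.mpr
        apply mul_le_mul_of_nonneg_right _ hlogz
        apply mul_le_mul_of_nonneg_left _ (by norm_num)
        exact sum_aux _ (by positivity) n
    _ = (z : ℝ) ^ (192 * k + 24 + 8 * A') := by
        have : (2 * (2 * (48 * k + 4 + 2 * A') + 4) : ℝ) = ((192 * k + 24 + 8 * A' : ℕ) : ℝ) := by
          push_cast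
          ring
        rw [this, Real.exp_nat_mul, Real.exp_log (by linarith)]

/-- **Fundamental lemma** with precision `2 ^ (-2 A' - 1)`. -/
theorem fl_sum (hz : 2 ≤ z) (hS : PSet w z S) (hw : 2 * k + 2 ≤ w)
    (hΩ : ∀ p ∈ S, (Ω p).card ≤ k) (A' : ℕ) (a : ℤ) (M : ℕ) :
    |∑ u ∈ Finset.Ico a (a + M), ∏ p ∈ S, (1 - chi Ω p u) - M * ∏ p ∈ S, (1 - dens Ω p)|
      ≤ 1 / 2 * (1 / 2) ^ (2 * A') * (M * ∏ p ∈ S, (1 - dens Ω p))
        + (z : ℝ) ^ (192 * k + 24 + 8 * A') := by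
  have hhalf : ∀ p ∈ S, dens Ω p ≤ 1 / 2 := fun p hp => dens_le_half (hΩ p hp) (by
    have := (hS p hp).2.1
    omega)
  set η : ℝ := 1 / 4 * (1 / 2) ^ (2 * A') with hη
  have hη1 : η ≤ 1 := by
    have h1 : ((1 : ℝ) / 2) ^ (2 * A') ≤ 1 := pow_le_one₀ (by norm_num) (by norm_num)
    rw [hη]
    linarith
  have hmain := fl_brun_hooley (Finset.Ico a (a + M)) (chi Ω) (dens Ω)
    (fun p => ((Ω p).card : ℝ)) M S
    (fun E hE => count_classes' Ω a M E fun p hp => (hS p (hE hp)).1)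
    (Nat.cast_nonneg _) (chi_nonneg Ω) (chi_le_one Ω) (fun p _ => dens_nonneg Ω p)
    (fun p hp => by
      have := hhalf p hp
      linarith)
    (fun p _ => Nat.cast_nonneg _)
    (fl_blk z S) (Finset.range (z + 1)) (fl_bj k A') (fun j _ => fl_bj_even k A' j)
    (fun j _ => Finset.filter_subset _ _)
    (fun i _ j _ hij => by
      rw [Finset.disjoint_left]
      intro p hp hp'
      exact hij ((fl_mem.mp hp).2.symm.trans (fl_mem.mp hp').2))
    (fl_eps k A') (fun j _ => fl_eps_nonneg k A' j) (fun j _ => fl_block_E hS hw hΩ j)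
    (η := η) hη1 (fl_sum_eps k A' (z + 1))
  have hR := fl_prod_R (A' := A') hz hS hw hΩ (z + 1)
  simp_rw [fl_prod_blocks] at hmain
  have hVnn : 0 ≤ ∏ p ∈ S, (1 - dens Ω p) := Finset.prod_nonneg fun p hp => by
    have := hhalf p hp
    linarith
  have hMV : 0 ≤ (M : ℝ) * ∏ p ∈ S, (1 - dens Ω p) := mul_nonneg (Nat.cast_nonneg _) hVnn
  have hη0 : 0 ≤ η := by positivity
  have e1 : (1 : ℝ) / 2 * (1 / 2) ^ (2 * A') = 2 * η := by
    rw [hη]
    ring
  rw [e1, abs_le]
  obtain ⟨h1, h2⟩ := hmain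
  have h3 : 0 ≤ η * (M * ∏ p ∈ S, (1 - dens Ω p)) := mul_nonneg hη0 hMV
  constructor
  · nlinarith
  · nlinarith

end

open Classical in
theorem fl (k : ℕ) : ∃ C : ℕ, 1 ≤ C ∧ ∀ (A w z : ℕ) (S : Finset ℕ), C ≤ A → 2 * k + 2 ≤ w →
    2 ≤ z → PSet w z S → ∀ Ω : (p : ℕ) → Finset (ZMod p), (∀ p ∈ S, (Ω p).card ≤ k) →
    ∀ (a b : ℤ), a ≤ b →
    |(((Finset.Ico a b).filter fun u => ∀ p ∈ S, (u : ZMod p) ∉ Ω p).card : ℝ)
        - (b - a) * ∏ p ∈ S, (1 - ((Ω p).card : ℝ) / p)| ≤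
      (2 : ℝ) ^ (-(A : ℝ) / C) * ((b - a) * ∏ p ∈ S, (1 - ((Ω p).card : ℝ) / p)) + (z : ℝ) ^ A := by
  refine ⟨384 * k + 48, by omega, ?_⟩
  intro A w z S hCA hw hz hS Ω hΩ a b hab
  obtain ⟨M, hM⟩ := Int.eq_ofNat_of_zero_le (sub_nonneg.mpr hab)
  have hb : b = a + M := by linarith
  have hMr : ((b : ℝ) - a) = M := by
    rw [hb]
    push_cast
    ring
  set C : ℕ := 384 * k + 48 with hC
  set A' : ℕ := A / C with hA'
  have h := fl_sum hz hS hw hΩ A' a M
  have hcount : (((Finset.Ico a b).filter fun u => ∀ p ∈ S, (u : ZMod p) ∉ Ω p).card : ℝ)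
      = ∑ u ∈ Finset.Ico a (a + M), ∏ p ∈ S, (1 - chi Ω p u) := by
    rw [Finset.card_filter, hb]
    push_cast
    refine Finset.sum_congr rfl fun u _ => ?_
    by_cases h1 : ∀ p ∈ S, (u : ZMod p) ∉ Ω p
    · rw [if_pos h1, Finset.prod_eq_one]
      intro p hp
      unfold chi
      rw [if_neg (h1 p hp)]
      ring
    · rw [if_neg h1]
      push Not at h1
      obtain ⟨p, hp, hpu⟩ := h1
      rw [Finset.prod_eq_zero hp]
      unfold chi
      rw [if_pos hpu]
      ring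
  have hdens : ∏ p ∈ S, (1 - ((Ω p).card : ℝ) / p) = ∏ p ∈ S, (1 - dens Ω p) := rfl
  rw [hcount, hMr, hdens]
  have hVnn : 0 ≤ ∏ p ∈ S, (1 - dens Ω p) := Finset.prod_nonneg fun p hp => by
    have := dens_le_half (hΩ p hp) (by
      have := (hS p hp).2.1
      omega)
    linarith
  have hMV : 0 ≤ (M : ℝ) * ∏ p ∈ S, (1 - dens Ω p) := mul_nonneg (Nat.cast_nonneg _) hVnn
  have hCpos : 0 < C := by omega
  have hCr : (0 : ℝ) < C := by exact_mod_cast hCpos
  refine h.trans (add_le_add (mul_le_mul_of_nonneg_right ?_ hMV) ?_)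
  · -- precision
    have h1 : (1 : ℝ) / 2 * (1 / 2) ^ (2 * A') = (2 : ℝ) ^ (-((2 * A' + 1 : ℕ) : ℝ)) := by
      rw [Real.rpow_neg (by norm_num), Real.rpow_natCast, pow_succ, one_div_pow]
      rw [mul_inv]
      ring
    rw [h1]
    apply Real.rpow_le_rpow_of_exponent_le (by norm_num)
    rw [neg_div, neg_le_neg_iff, div_le_iff₀ hCr]
    have h2 : A < C * (A / C + 1) := Nat.lt_mul_div_succ A hCpos
    have h3 : A ≤ (2 * A' + 1) * C := by
      rw [← hA'] at h2
      nlinarith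
    exact_mod_cast h3
  · -- remainder
    have hz1 : (1 : ℝ) ≤ z := by
      have : 1 ≤ z := by omega
      exact_mod_cast this
    apply pow_le_pow_right₀ hz1
    have h2 : C * (A / C) ≤ A := Nat.mul_div_le A C
    rw [← hA'] at h2
    nlinarith

end Pool.Agent.Lib.H18GB
end

-- from Lib.H18GB.Sing
section

/-!
# Project GB: SING
-/

namespace Pool.Agent.Lib.H18GB

open Finset Pool.Agent.Lib.Sieve

theorem sing_sqrt (n : ℕ) : (primesUpTo n).filter (fun p => ¬ n < p ^ 2) = primesUpTo (Nat.sqrt n) := by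
  ext p
  rw [Finset.mem_filter, mem_primesUpTo, mem_primesUpTo, not_lt, Nat.le_sqrt']
  constructor
  · rintro ⟨⟨h1, _⟩, h2⟩
    exact ⟨h1, h2⟩
  · rintro ⟨h1, h2⟩
    refine ⟨⟨h1, ?_⟩, h2⟩
    have := h1.one_lt
    nlinarith

/-- `∑_{p ≤ n} 1/p ≤ ε log n + K`. -/
theorem sing_recip (ε : ℝ) (hε : 0 < ε) : ∃ K : ℝ, 0 ≤ K ∧ ∀ n : ℕ, 1 ≤ n →
    ∑ p ∈ primesUpTo n, (1 : ℝ) / p ≤ ε * Real.log n + K := by
  refine ⟨Real.exp (12 / ε), (Real.exp_pos _).le, fun n => ?_⟩
  induction n using Nat.strong_induction_on with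
  | _ n ih =>
    intro hn
    have hnr : (1 : ℝ) ≤ n := by exact_mod_cast hn
    have hlog : 0 ≤ Real.log n := Real.log_nonneg hnr
    by_cases hb : (n : ℝ) ≤ Real.exp (12 / ε)
    · have h1 : ∑ p ∈ primesUpTo n, (1 : ℝ) / p ≤ n := by
        have h2 : ∑ p ∈ primesUpTo n, (1 : ℝ) / p ≤ ∑ p ∈ primesUpTo n, (1 : ℝ) := by
          apply Finset.sum_le_sum
          intro p hp
          have := (mem_primesUpTo.mp hp).1.one_lt
          rw [div_le_one (by positivity)]
          exact_mod_cast this.le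
        refine h2.trans ?_
        rw [Finset.sum_const, nsmul_eq_mul, mul_one]
        have h3 : (primesUpTo n).card ≤ (Finset.Icc 1 n).card := by
          apply Finset.card_le_card
          intro p hp
          rw [Finset.mem_Icc]
          exact ⟨(mem_primesUpTo.mp hp).1.one_lt.le, (mem_primesUpTo.mp hp).2⟩
        rw [Nat.card_Icc, Nat.add_sub_cancel] at h3
        exact_mod_cast h3
      have h2 : 0 ≤ ε * Real.log n := by positivity
      linarith
    · push Not at hb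
      have hn2 : 1 < n := by
        have h1 : (1 : ℝ) < Real.exp (12 / ε) := Real.one_lt_exp_iff.mpr (by positivity)
        exact_mod_cast h1.trans hb
      have hs1 : Nat.sqrt n < n := Nat.sqrt_lt_self hn2
      have hs2 : 1 ≤ Nat.sqrt n := Nat.sqrt_pos.mpr (by omega)
      have h1 := ih (Nat.sqrt n) hs1 hs2
      rw [← sing_sqrt] at h1
      have h2 := sum_inv_le n
      rw [← Finset.sum_filter_add_sum_filter_not (primesUpTo n) (fun p => n < p ^ 2)]
      have h3 : Real.log (Nat.sqrt n) ≤ Real.log n / 2 := by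
        have h4 : ((Nat.sqrt n : ℕ) : ℝ) ^ 2 ≤ n := by exact_mod_cast Nat.sqrt_le' n
        have h5 : (0 : ℝ) < (Nat.sqrt n : ℕ) := by exact_mod_cast hs2
        have h6 := Real.log_le_log (by positivity) h4
        rw [Real.log_pow] at h6
        push_cast at h6
        linarith
      have h4 : 12 < ε * Real.log n := by
        have h5 : 12 / ε < Real.log n := by
          rw [Real.lt_log_iff_exp_lt (by linarith)]
          exact hb
        rw [div_lt_iff₀ hε] at h5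
        linarith
      have h5 : ε * Real.log (Nat.sqrt n) ≤ ε * (Real.log n / 2) := mul_le_mul_of_nonneg_left h3 hε.le
      linarith

/-- Chunk SING1. For primes `> w`: `exp (∑ C / p) ≤ 1 + ∑ p ^ (-9/10)`.
Proof: order `S` increasingly and telescope:
`exp (∑_S C/p) - 1 = ∑_{p ∈ S} exp (∑_{q ∈ S, q < p} C/q) (exp (C/p) - 1)`, and
`exp (C ∑_{q < p} 1/q) ≤ C' (log p)^C'` by the upper bound of Mertens
(`Pool.Agent.Lib.Sieve.sum_inv_le`, or `block_sum_inv`), so each term is at most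
`C'' (log p)^C' / p ≤ p^(-9/10)` for `p > w ≥ w0`. -/
theorem sing_exp (C : ℝ) (hC : 0 ≤ C) : ∃ w0 : ℕ, ∀ (w z : ℕ) (S : Finset ℕ), w0 ≤ w →
    PSet w z S → Real.exp (∑ p ∈ S, C / (p : ℝ)) ≤ 1 + ∑ p ∈ S, (p : ℝ) ^ (-(9 / 10 : ℝ)) := by
  set D : ℝ := C + 1 with hD
  have hDp : 0 < D := by linarith
  obtain ⟨K, hK, hrec⟩ := sing_recip (1 / (20 * D)) (by positivity)
  obtain ⟨w0, hw0⟩ := exists_nat_ge (max D ((2 * D * Real.exp (D * K)) ^ 20))
  have hwD : D ≤ w0 := (le_max_left _ _).trans hw0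
  have hwE : (2 * D * Real.exp (D * K)) ^ 20 ≤ w0 := (le_max_right _ _).trans hw0
  refine ⟨w0, fun w z S hw hS => ?_⟩
  -- the key estimate for one prime
  have key : ∀ p : ℕ, p.Prime → w < p → ∀ T : Finset ℕ, (∀ q ∈ T, q.Prime ∧ q < p) →
      Real.exp (∑ q ∈ T, D / (q : ℝ)) * (Real.exp (D / p) - 1) ≤ (p : ℝ) ^ (-(9 / 10 : ℝ)) := by
    intro p hp hwp T hT
    have hpr : (1 : ℝ) < p := by exact_mod_cast hp.one_lt
    have hpw : (w0 : ℝ) ≤ p := by exact_mod_cast (by omega : w0 ≤ p)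
    have hpp : (0 : ℝ) < p := by linarith
    have h1 : ∑ q ∈ T, D / (q : ℝ) ≤ 1 / 20 * Real.log p + D * K := by
      have h2 : ∑ q ∈ T, D / (q : ℝ) = D * ∑ q ∈ T, (1 : ℝ) / q := by
        rw [Finset.mul_sum]
        apply Finset.sum_congr rfl
        intro q _
        ring
      rw [h2]
      have h3 : ∑ q ∈ T, (1 : ℝ) / q ≤ ∑ q ∈ primesUpTo p, (1 : ℝ) / q := by
        apply Finset.sum_le_sum_of_subset_of_nonneg
        · intro q hq
          rw [mem_primesUpTo]
          exact ⟨(hT q hq).1, (hT q hq).2.le⟩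
        · intro q _ _
          positivity
      have h4 := h3.trans (hrec p hp.one_lt.le)
      calc D * ∑ q ∈ T, (1 : ℝ) / q ≤ D * (1 / (20 * D) * Real.log p + K) :=
            mul_le_mul_of_nonneg_left h4 hDp.le
        _ = 1 / 20 * Real.log p + D * K := by field_simp
    have h2 : Real.exp (∑ q ∈ T, D / (q : ℝ)) ≤ (p : ℝ) ^ (1 / 20 : ℝ) * Real.exp (D * K) := by
      refine (Real.exp_le_exp.mpr h1).trans (le_of_eq ?_)
      rw [Real.exp_add, Real.rpow_def_of_pos hpp]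
      congr 2
      ring
    have h3 : Real.exp (D / p) - 1 ≤ 2 * D / p := by
      have hx : |D / (p : ℝ)| ≤ 1 := by
        rw [abs_of_pos (by positivity), div_le_one hpp]
        linarith
      have h4 := Real.abs_exp_sub_one_le hx
      rw [abs_of_pos (by positivity : 0 < D / (p : ℝ))] at h4
      have h5 := le_abs_self (Real.exp (D / p) - 1)
      calc Real.exp (D / p) - 1 ≤ 2 * (D / p) := h5.trans h4
        _ = 2 * D / p := by ring
    have h4 : 2 * D * Real.exp (D * K) ≤ (p : ℝ) ^ (1 / 20 : ℝ) := by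
      have h5 : (2 * D * Real.exp (D * K)) ^ 20 ≤ p := hwE.trans hpw
      have h6 : ((p : ℝ) ^ (1 / 20 : ℝ)) ^ 20 = p := by
        rw [← Real.rpow_natCast, ← Real.rpow_mul hpp.le]
        norm_num
      rw [← h6] at h5
      exact le_of_pow_le_pow_left₀ (by norm_num) (by positivity) h5
    have h5 : 0 ≤ Real.exp (D / p) - 1 := by
      have := Real.add_one_le_exp (D / (p : ℝ))
      have : 0 ≤ D / (p : ℝ) := by positivity
      linarith
    calc Real.exp (∑ q ∈ T, D / (q : ℝ)) * (Real.exp (D / p) - 1)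
        ≤ ((p : ℝ) ^ (1 / 20 : ℝ) * Real.exp (D * K)) * (2 * D / p) :=
          mul_le_mul h2 h3 h5 (by positivity)
      _ = (p : ℝ) ^ (1 / 20 : ℝ) * (2 * D * Real.exp (D * K)) / p := by ring
      _ ≤ (p : ℝ) ^ (1 / 20 : ℝ) * (p : ℝ) ^ (1 / 20 : ℝ) / p := by gcongr
      _ = (p : ℝ) ^ (-(9 / 10 : ℝ)) := by
          rw [← Real.rpow_add hpp, ← Real.rpow_sub_one hpp.ne']
          norm_num
  -- induction
  have main : ∀ T : Finset ℕ, T ⊆ S → Real.exp (∑ p ∈ T, D / (p : ℝ)) ≤ 1 + ∑ p ∈ T, (p : ℝ) ^ (-(9 / 10 : ℝ)) := by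
    intro T
    induction T using Finset.induction_on_max with
    | empty => intro _; simp
    | insert a T ha ih =>
      intro hTS
      have haT : a ∉ T := fun h => lt_irrefl _ (ha a h)
      have haS := hS a (hTS (Finset.mem_insert_self _ _))
      have hT := ih (fun x hx => hTS (Finset.mem_insert_of_mem hx))
      rw [Finset.sum_insert haT, Finset.sum_insert haT, add_comm (D / (a : ℝ)), Real.exp_add]
      have h1 := key a haS.1 haS.2.1 T (fun q hq => ⟨(hS q (hTS (Finset.mem_insert_of_mem hq))).1, ha q hq⟩)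
      have h2 : Real.exp (∑ p ∈ T, D / (p : ℝ)) * Real.exp (D / a)
          = Real.exp (∑ p ∈ T, D / (p : ℝ)) + Real.exp (∑ p ∈ T, D / (p : ℝ)) * (Real.exp (D / a) - 1) := by ring
      rw [h2]
      linarith
  refine le_trans (Real.exp_le_exp.mpr ?_) (main S subset_rfl)
  apply Finset.sum_le_sum
  intro p _
  apply div_le_div_of_nonneg_right _ (Nat.cast_nonneg _)
  linarith

end Pool.Agent.Lib.H18GB
end
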