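import Mathlib
import Pool.Agent.Lib.H1M.RV.M003
import Pool.Agent.Lib.H1M.RV.M004

/-! Merged copies (to shorten the build) of Lib.H59C.Defs, Lib.H59C.LSA, Lib.H59C.LSB, Lib.H59C.HH, Lib.H59C.RW1, Lib.H59C.PS, Lib.H59C.MER0, Lib.H59C.MER2, Lib.H59C.MER3. -/

-- from Lib.H59C.Defs
section

/-!
# Project H59C (MP_443e5f_co, Goldbach graphs): definitions

See `PROOF.md` in this folder. `PC Q`: the primitive characters of conductor at most `Q`
(pairs `⟨r, χ⟩`), `p0` the trivial one, `e x = exp (2 π i x)` (`Lib/H68T/Defs.lean`).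
-/

open Finset

namespace Pool.Agent.Lib.H59C

noncomputable section

open Pool.Agent.Lib.H68T (PC p0 e)

/-- Primitive characters with their conductors. -/
abbrev PCh : Type := Σ r : ℕ, DirichletCharacter ℂ r

open Classical in
/-- The primitive characters of conductor in `(R, 2 R]`. -/
def PD (R : ℕ) : Finset PCh := (PC (2 * R)).filter (fun p => R < p.1)

/-- `∑_{m ≤ y} Λ(m) χ(m)` -/
def psi (y : ℕ) (p : PCh) : ℂ :=
  ∑ m ∈ Icc 1 y, (ArithmeticFunction.vonMangoldt m : ℂ) * p.2 (m : ZMod p.1)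

/-- `∑ log q` over the primes `q ≤ y`. -/
def th (y : ℕ) : ℝ := ∑ q ∈ (Icc 1 y).filter Nat.Prime, Real.log q

/-- `∑ log q` over the primes `q ≤ y` with `q ≡ a mod d`. -/
def thp (y d a : ℕ) : ℝ :=
  ∑ q ∈ (Icc 1 y).filter (fun q => q.Prime ∧ q ≡ a [MOD d]), Real.log q

/-- The level of distribution `√n / (log n)^B`. -/
def DD (n B : ℕ) : ℕ := ⌊Real.sqrt n / Real.log n ^ B⌋₊

open Classical in
/-- The Siegel-Walfisz property, away from the conductors divisible by `p1`. -/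
def SWp (A n p1 : ℕ) : Prop :=
  ∀ p ∈ PC ⌊Real.log n ^ A⌋₊, p ≠ p0 → ¬ p1 ∣ p.1 → ∀ y : ℕ, (n : ℝ) ^ (1 / 10 : ℝ) ≤ y →
    y ≤ 8 * n → ‖psi y p‖ ≤ y / Real.log n ^ A

/-! ## The linear sieve -/

/-- `∏ (1 - g q)` over the `q ∈ P`, `q < z`. -/
def VP (P : Finset ℕ) (g : ℕ → ℝ) (z : ℝ) : ℝ :=
  ∏ q ∈ P.filter (fun q : ℕ => (q : ℝ) < z), (1 - g q)

/-- Sifting dimension one, constant `K`. -/
def Om (K : ℝ) (P : Finset ℕ) (g : ℕ → ℝ) : Prop :=
  ∀ u z : ℝ, 2 ≤ u → u ≤ z → VP P g u ≤ K * (Real.log z / Real.log u) * VP P g z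

/-- Rosser's condition on a decreasing list of primes (`true`: upper bound sieve, `false`: lower
bound sieve). -/
def adm : Bool → ℝ → List ℕ → Prop
  | _, _, [] => True
  | true, D, p :: l => (p : ℝ) ^ 3 < D ∧ adm false (D / p) l
  | false, D, p :: l => adm true (D / p) l

open Classical in
/-- Rosser's weights. -/
def lamR (b : Bool) (D : ℝ) (A : Finset ℕ) : ℝ :=
  if adm b D (A.sort (· ≥ ·)) then (-1) ^ A.card else 0

/-- `∑_{A ⊆ P} λ(A) ∏_{q ∈ A} h(q)` -/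
def SS (b : Bool) (D : ℝ) (P : Finset ℕ) (h : ℕ → ℝ) : ℝ :=
  ∑ A ∈ P.powerset, lamR b D A * ∏ q ∈ A, h q

/-- The comparison function. -/
def hh (s : ℝ) : ℝ := Real.exp (-(11 / 10) * max s 2)

/-- The functions of the linear sieve: `F = 1 + u`, `f = 1 - v`. -/
structure UV (C : ℝ) (u v : ℝ → ℝ) : Prop where
  u0 : ∀ s, 1 ≤ s → 0 ≤ u s
  v0 : ∀ s, 2 ≤ s → 0 ≤ v s
  uanti : AntitoneOn u (Set.Ici 1)
  vanti : AntitoneOn v (Set.Ici 2)
  ub : ∀ s, 1 ≤ s → u s ≤ C * hh s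
  vb : ∀ s, 2 ≤ s → v s ≤ C * hh s
  eqv : ∀ s, 2 ≤ s → s * v s = ∫ t in Set.Ioi s, u (t - 1)
  equ : ∀ s, 3 ≤ s → s * u s = ∫ t in Set.Ioi s, v (t - 1)
  equ' : ∀ s, 1 ≤ s → s ≤ 3 → s * (1 + u s) = 3 * (1 + u 3)

/-- The density `1/(q-1)`. -/
def gq (q : ℕ) : ℝ := 1 / ((q : ℝ) - 1)

/-- `∏ (1 - 1/(q-1))` over the `q ∈ P`, `q < z`. -/
def VV (P : Finset ℕ) (z : ℝ) : ℝ := VP P gq z

open Classical in
/-- The total weight of the `i` such that no `q ∈ P`, `q < z`, divides `a i`. -/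
def sift {ι : Type} (S : Finset ι) (w : ι → ℝ) (a : ι → ℕ) (P : Finset ℕ) (z : ℝ) : ℝ :=
  ∑ i ∈ S.filter (fun i => ∀ q ∈ P, (q : ℝ) < z → ¬ q ∣ a i), w i

open Classical in
/-- The sum of the remainder terms, squarefree moduli `d ≤ D` composed of primes `q ∈ P`, `q < z`. -/
def remd {ι : Type} (S : Finset ι) (w : ι → ℝ) (a : ι → ℕ) (P : Finset ℕ) (z X D : ℝ) : ℝ :=
  ∑ d ∈ (Icc 1 ⌊D⌋₊).filter (fun d => Squarefree d ∧ ∀ q ∈ d.primeFactors, q ∈ P ∧ (q : ℝ) < z),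
    |∑ i ∈ S.filter (fun i => d ∣ a i), w i - X / (Nat.totient d : ℝ)|

end

end Pool.Agent.Lib.H59C
end

-- from Lib.H59C.LSA
section

/-!
# LSA: the additive large sieve for the Farey fractions
-/

open Finset

namespace Pool.Agent.Lib.H59C

open Pool.Agent.Lib.H68T (PC p0 e nd VB_e_add VB_cell VB_cell_mem VB_nd_ge geo_le)

theorem LSA_conj (x : ℝ) : (starRingEnd ℂ) (e x) = e (-x) := by
  unfold Pool.Agent.Lib.H68T.e
  rw [← Complex.exp_conj]
  congr 1
  simp only [map_mul, map_ofNat, Complex.conj_ofReal, Complex.conj_I]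
  push_cast
  ring

theorem LSA_quad {ι : Type*} (I : Finset ι) (α : ι → ℝ) (c : ι → ℂ) (x0 : ℝ) (n : ℕ) :
    ∑ u ∈ Ico (0 : ℤ) n, ∑ v ∈ Ico (0 : ℤ) n,
      ‖∑ i ∈ I, c i * e ((x0 + u - v) * α i)‖ ^ 2 ≤
      ∑ i ∈ I, ∑ j ∈ I, ‖c i‖ * ‖c j‖ * ‖∑ u ∈ Ico (0 : ℤ) n, e (u * (α i - α j))‖ ^ 2 := by
  have h1 : ((∑ u ∈ Ico (0 : ℤ) n, ∑ v ∈ Ico (0 : ℤ) n,
      ‖∑ i ∈ I, c i * e ((x0 + u - v) * α i)‖ ^ 2 : ℝ) : ℂ) =
      ∑ i ∈ I, ∑ j ∈ I, (c i * (starRingEnd ℂ) (c j) * e (x0 * (α i - α j))) *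
        ((∑ u ∈ Ico (0 : ℤ) n, e (u * (α i - α j))) *
          (starRingEnd ℂ) (∑ v ∈ Ico (0 : ℤ) n, e (v * (α i - α j)))) := by
    push_cast
    have h2 : ∀ u v : ℤ, ((‖∑ i ∈ I, c i * e ((x0 + u - v) * α i)‖ : ℝ) : ℂ) ^ 2 =
        ∑ i ∈ I, ∑ j ∈ I, (c i * (starRingEnd ℂ) (c j) * e (x0 * (α i - α j))) *
          (e (u * (α i - α j)) * (starRingEnd ℂ) (e (v * (α i - α j)))) := by
      intro u v
      rw [← Complex.mul_conj', map_sum, Finset.sum_mul_sum]
      refine sum_congr rfl fun i _ => sum_congr rfl fun j _ => ?_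
      rw [map_mul, LSA_conj, LSA_conj]
      have h3 : e ((x0 + u - v) * α i) * e (-((x0 + u - v) * α j)) =
          e (x0 * (α i - α j)) * (e (u * (α i - α j)) * e (-(v * (α i - α j)))) := by
        rw [← VB_e_add, ← VB_e_add, ← VB_e_add]
        congr 1
        ring
      linear_combination c i * (starRingEnd ℂ) (c j) * h3
    simp_rw [h2, map_sum, Finset.sum_mul_sum, Finset.mul_sum]
    rw [Finset.sum_congr rfl fun u _ => Finset.sum_comm, Finset.sum_comm]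
    refine sum_congr rfl fun i _ => ?_
    rw [Finset.sum_congr rfl fun u _ => Finset.sum_comm, Finset.sum_comm]
  have h4 : ‖((∑ u ∈ Ico (0 : ℤ) n, ∑ v ∈ Ico (0 : ℤ) n,
      ‖∑ i ∈ I, c i * e ((x0 + u - v) * α i)‖ ^ 2 : ℝ) : ℂ)‖ =
      ∑ u ∈ Ico (0 : ℤ) n, ∑ v ∈ Ico (0 : ℤ) n,
      ‖∑ i ∈ I, c i * e ((x0 + u - v) * α i)‖ ^ 2 := by
    rw [Complex.norm_real, Real.norm_eq_abs, abs_of_nonneg]
    positivity
  rw [← h4, h1]
  refine (norm_sum_le _ _).trans (sum_le_sum fun i _ => ?_)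
  refine (norm_sum_le _ _).trans (sum_le_sum fun j _ => ?_)
  rw [norm_mul, norm_mul, norm_mul, norm_mul, RCLike.norm_conj, RCLike.norm_conj,
    Pool.Agent.Lib.H68T.VB_norm_e]
  apply le_of_eq
  ring

/-- Schur's bound. -/
theorem LSA_schur {ι : Type*} (I : Finset ι) (c : ι → ℂ) (g : ι → ι → ℝ) (B : ℝ)
    (hg : ∀ i j, 0 ≤ g i j) (hsymm : ∀ i j, g i j = g j i)
    (hB : ∀ i ∈ I, ∑ j ∈ I, g i j ≤ B) :
    ∑ i ∈ I, ∑ j ∈ I, ‖c i‖ * ‖c j‖ * g i j ≤ B * ∑ i ∈ I, ‖c i‖ ^ 2 := by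
  have h1 : ∑ i ∈ I, ∑ j ∈ I, ‖c i‖ * ‖c j‖ * g i j ≤
      ∑ i ∈ I, ∑ j ∈ I, (1 / 2 * (‖c i‖ ^ 2 * g i j) + 1 / 2 * (‖c j‖ ^ 2 * g i j)) := by
    refine sum_le_sum fun i _ => sum_le_sum fun j _ => ?_
    nlinarith [hg i j, sq_nonneg (‖c i‖ - ‖c j‖), mul_nonneg (sq_nonneg (‖c i‖ - ‖c j‖)) (hg i j)]
  refine h1.trans ?_
  simp_rw [Finset.sum_add_distrib]
  have h2 : ∑ i ∈ I, ∑ j ∈ I, 1 / 2 * (‖c j‖ ^ 2 * g i j) =
      ∑ i ∈ I, ∑ j ∈ I, 1 / 2 * (‖c i‖ ^ 2 * g i j) := by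
    rw [Finset.sum_comm]
    refine sum_congr rfl fun i _ => sum_congr rfl fun j _ => ?_
    rw [hsymm]
  rw [h2, ← two_mul, Finset.mul_sum, Finset.mul_sum]
  refine sum_le_sum fun i hi => ?_
  rw [← Finset.mul_sum, ← Finset.mul_sum]
  have := mul_le_mul_of_nonneg_left (hB i hi) (sq_nonneg ‖c i‖)
  linarith

/-- Extension of the range of summation. -/
theorem LSA_ext (f : ℤ → ℝ) (hf : ∀ x, 0 ≤ f x) (M N L : ℕ) (hNL : N ≤ L) :
    L * ∑ m ∈ Ico M (M + N), f m ≤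
      ∑ u ∈ Ico (0 : ℤ) (2 * L : ℕ), ∑ v ∈ Ico (0 : ℤ) (2 * L : ℕ), f (M + u - v) := by
  rw [← Finset.sum_product']
  have h1 : (L : ℝ) * ∑ m ∈ Ico M (M + N), f m =
      ∑ p ∈ (Ico M (M + N)) ×ˢ (range L), f (p.1 : ℕ) := by
    rw [Finset.sum_product, Finset.mul_sum]
    refine sum_congr rfl fun m _ => ?_
    simp
  rw [h1]
  have h2 : ∑ p ∈ (Ico M (M + N)) ×ˢ (range L), f (p.1 : ℕ) =
      ∑ p ∈ ((Ico M (M + N)) ×ˢ (range L)).image
        (fun p : ℕ × ℕ => (((p.1 : ℤ) - M + p.2, (p.2 : ℤ)) : ℤ × ℤ)), f (M + p.1 - p.2) := by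
    rw [Finset.sum_image]
    · refine sum_congr rfl fun p _ => ?_
      congr 1
      ring
    · intro p _ q _ h
      simp only [Prod.mk.injEq] at h
      ext
      · have := h.1
        have := h.2
        omega
      · have := h.2
        omega
  rw [h2]
  apply Finset.sum_le_sum_of_subset_of_nonneg
  · intro p hp
    rw [Finset.mem_image] at hp
    obtain ⟨⟨m, l⟩, hml, rfl⟩ := hp
    rw [Finset.mem_product, Finset.mem_Ico, Finset.mem_range] at hml
    rw [Finset.mem_product, Finset.mem_Ico, Finset.mem_Ico]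
    push_cast
    dsimp only at hml ⊢
    omega
  · intro p _ _
    exact hf _

/-- The separation of the Farey fractions. -/
theorem LSA_sep {Q q q' b b' : ℕ} (hq : q ≤ Q) (hq' : q' ≤ Q) (hb : b < q) (hb' : b' < q')
    (hc : Nat.Coprime b q) (hc' : Nat.Coprime b' q') (hne : ¬ (q = q' ∧ b = b')) :
    1 / (Q : ℝ) ^ 2 ≤ nd ((b : ℝ) / q - (b' : ℝ) / q') := by
  have hq0 : (0 : ℝ) < q := by exact_mod_cast (by omega : 0 < q)
  have hq0' : (0 : ℝ) < q' := by exact_mod_cast (by omega : 0 < q')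
  set x : ℝ := (b : ℝ) / q - (b' : ℝ) / q' with hx
  set k : ℤ := round x with hk
  have h1 : x - k = (((b : ℤ) * q' - b' * q - k * q * q' : ℤ) : ℝ) / (q * q') := by
    rw [hx]
    push_cast
    field_simp
  have h2 : ((b : ℤ) * q' - b' * q - k * q * q' : ℤ) ≠ 0 := by
    intro h0
    rw [h0] at h1
    simp only [Int.cast_zero, zero_div] at h1
    have h3 : x = k := by linarith
    have hb1 : (b : ℝ) / q < 1 := by
      rw [div_lt_one hq0]
      exact_mod_cast hb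
    have hb0 : 0 ≤ (b : ℝ) / q := by positivity
    have hb1' : (b' : ℝ) / q' < 1 := by
      rw [div_lt_one hq0']
      exact_mod_cast hb'
    have hb0' : 0 ≤ (b' : ℝ) / q' := by positivity
    have h4 : (k : ℝ) < 1 := by rw [← h3]; linarith
    have h5 : (-1 : ℝ) < k := by rw [← h3]; linarith
    have h6 : k < 1 := by exact_mod_cast h4
    have h7 : -1 < k := by exact_mod_cast h5
    have h8 : k = 0 := by omega
    rw [h8] at h0
    have h9 : b * q' = b' * q := by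
      have : (b : ℤ) * q' = b' * q := by linarith
      exact_mod_cast this
    have h10 : q ∣ q' := by
      have : q ∣ b * q' := ⟨b', by rw [h9]; ring⟩
      exact (Nat.Coprime.symm hc).dvd_of_dvd_mul_left this
    have h11 : q' ∣ q := by
      have : q' ∣ b' * q := ⟨b, by rw [← h9]; ring⟩
      exact (Nat.Coprime.symm hc').dvd_of_dvd_mul_left this
    have h12 : q = q' := Nat.dvd_antisymm h10 h11
    apply hne
    refine ⟨h12, ?_⟩
    rw [← h12] at h9
    exact Nat.eq_of_mul_eq_mul_right (by omega) h9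
  have h3 : nd x = |x - k| := rfl
  rw [h3, h1, abs_div, abs_of_pos (mul_pos hq0 hq0')]
  have h4 : (1 : ℝ) ≤ |(((b : ℤ) * q' - b' * q - k * q * q' : ℤ) : ℝ)| := by
    rw [← Int.cast_abs]
    exact_mod_cast Int.one_le_abs h2
  have h5 : (q : ℝ) * q' ≤ (Q : ℝ) ^ 2 := by
    have e1 : (q : ℝ) ≤ Q := by exact_mod_cast hq
    have e2 : (q' : ℝ) ≤ Q := by exact_mod_cast hq'
    nlinarith
  have hQ0 : (0 : ℝ) < (Q : ℝ) ^ 2 := lt_of_lt_of_le (mul_pos hq0 hq0') h5
  rw [div_le_div_iff₀ hQ0 (mul_pos hq0 hq0')]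
  nlinarith [mul_pos hq0 hq0', sq_nonneg (Q : ℝ)]

theorem LSA_cell {D : ℕ} (hD : 1 ≤ D) {x y : ℝ} (h : 1 / (D : ℝ) ≤ nd (x - y)) :
    VB_cell D x ≠ VB_cell D y := by
  intro heq
  have hD0 : (0 : ℝ) < D := by exact_mod_cast hD
  have h1 : |(D : ℝ) * Int.fract x - (D : ℝ) * Int.fract y| < 1 :=
    Int.abs_sub_lt_one_of_floor_eq_floor heq
  have h2 : nd (x - y) ≤ |Int.fract x - Int.fract y| := by
    have h3 := round_le (x - y) (⌊x⌋ - ⌊y⌋)
    have h4 : x - y - ((⌊x⌋ - ⌊y⌋ : ℤ) : ℝ) = Int.fract x - Int.fract y := by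
      unfold Int.fract
      push_cast
      ring
    rw [h4] at h3
    exact h3
  rw [← mul_sub, abs_mul, abs_of_pos hD0] at h1
  have h5 : (1 : ℝ) ≤ D * nd (x - y) := by
    rw [div_le_iff₀ hD0] at h
    linarith
  nlinarith

/-- `1 / max(k,1)²` -/
noncomputable def LSA_h (k : ℕ) : ℝ := 1 / (max (k : ℝ) 1) ^ 2

theorem LSA_h_nonneg (k : ℕ) : 0 ≤ LSA_h k := by
  unfold LSA_h
  positivity

theorem LSA_h_sum (n : ℕ) : ∑ k ∈ range n, LSA_h k ≤ 3 := by
  have key : ∀ n : ℕ, ∑ k ∈ range (n + 2), LSA_h k ≤ 3 - 1 / ((n : ℝ) + 1) := by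
    intro n
    induction n with
    | zero =>
      rw [Finset.sum_range_succ, Finset.sum_range_succ]
      simp only [Finset.range_zero, Finset.sum_empty, LSA_h]
      norm_num
    | succ n ih =>
      rw [Finset.sum_range_succ]
      have h1 : LSA_h (n + 2) ≤ 1 / ((n : ℝ) + 1) - 1 / ((n : ℝ) + 2) := by
        unfold LSA_h
        have e1 : max (((n + 2 : ℕ) : ℝ)) 1 = (n : ℝ) + 2 := by
          rw [max_eq_left]
          · push_cast; ring
          · push_cast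
            have : (0 : ℝ) ≤ n := Nat.cast_nonneg n
            linarith
        rw [e1]
        have hn : (0 : ℝ) ≤ n := Nat.cast_nonneg n
        rw [div_sub_div _ _ (by positivity) (by positivity), div_le_div_iff₀ (by positivity)
          (by positivity)]
        nlinarith
      have e2 : 3 - 1 / (((n + 1 : ℕ) : ℝ) + 1) = 3 - 1 / ((n : ℝ) + 2) := by
        push_cast
        ring_nf
      rw [e2]
      linarith
  have h1 : ∑ k ∈ range n, LSA_h k ≤ ∑ k ∈ range (n + 2), LSA_h k := by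
    apply Finset.sum_le_sum_of_subset_of_nonneg
    · intro k hk
      rw [Finset.mem_range] at hk ⊢
      omega
    · intro k _ _
      exact LSA_h_nonneg k
  have h2 := key n
  have h3 : 0 ≤ 1 / ((n : ℝ) + 1) := by positivity
  linarith

theorem LSA_nd_bound {D : ℕ} (hD : 1 ≤ D) {x : ℝ} (h : 1 / (D : ℝ) ≤ nd x) :
    1 / nd x ^ 2 ≤ (D : ℝ) ^ 2 * (LSA_h (VB_cell D x).toNat +
      LSA_h (D - 1 - (VB_cell D x).toNat)) := by
  obtain ⟨h0, h1⟩ := VB_cell_mem hD x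
  have hD0 : (0 : ℝ) < D := by exact_mod_cast hD
  have hnd : 0 < nd x := lt_of_lt_of_le (by positivity) h
  set k := (VB_cell D x).toNat with hk
  have hk1 : (k : ℤ) = VB_cell D x := Int.toNat_of_nonneg h0
  have hkD : k < D := by omega
  have gen : ∀ j : ℕ, (j : ℝ) / D ≤ nd x → 1 / nd x ^ 2 ≤ (D : ℝ) ^ 2 * LSA_h j := by
    intro j hj
    have h2 : max (j : ℝ) 1 / D ≤ nd x := by
      rcases max_cases (j : ℝ) 1 with ⟨h3, _⟩ | ⟨h3, _⟩
      · rw [h3]; exact hj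
      · rw [h3]; exact h
    have hm : (0 : ℝ) < max (j : ℝ) 1 := lt_of_lt_of_le one_pos (le_max_right _ _)
    unfold LSA_h
    have h3 : (max (j : ℝ) 1 / D) ^ 2 ≤ nd x ^ 2 := by
      gcongr
    calc 1 / nd x ^ 2 ≤ 1 / (max (j : ℝ) 1 / D) ^ 2 := by
          apply one_div_le_one_div_of_le _ h3
          positivity
      _ = (D : ℝ) ^ 2 * (1 / (max (j : ℝ) 1) ^ 2) := by
          field_simp
  have hkk : ((VB_cell D x : ℤ) : ℝ) = (k : ℝ) := by
    rw [← hk1]
    simp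
  rcases le_total k (D - 1 - k) with hle | hle
  · have h2 := gen k (VB_nd_ge hD x k (by rw [hkk]) (by
      rw [hkk]
      have : (k : ℝ) + k + 1 ≤ D := by exact_mod_cast (by omega : k + k + 1 ≤ D)
      linarith))
    have := mul_nonneg (sq_nonneg (D : ℝ)) (LSA_h_nonneg (D - 1 - k))
    rw [mul_add]
    linarith
  · have h2 := gen (D - 1 - k) (VB_nd_ge hD x ((D - 1 - k : ℕ) : ℝ) (by
      rw [hkk]
      exact_mod_cast hle) (by
      rw [hkk]
      rw [Nat.cast_sub (by omega), Nat.cast_sub (by omega)]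
      push_cast
      linarith))
    have := mul_nonneg (sq_nonneg (D : ℝ)) (LSA_h_nonneg k)
    rw [mul_add]
    linarith

/-- The row sums. -/
theorem LSA_row {ι : Type*} [DecidableEq ι] (I : Finset ι) (α : ι → ℝ) (D n : ℕ) (hD : 1 ≤ D)
    (hsep : ∀ i ∈ I, ∀ j ∈ I, i ≠ j → 1 / (D : ℝ) ≤ nd (α i - α j)) (i : ι) (hi : i ∈ I) :
    ∑ j ∈ I, ‖∑ u ∈ Ico (0 : ℤ) n, e (u * (α i - α j))‖ ^ 2 ≤ (n : ℝ) ^ 2 +
      3 / 2 * (D : ℝ) ^ 2 := by
  rw [← Finset.add_sum_erase _ _ hi]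
  have h1 : ‖∑ u ∈ Ico (0 : ℤ) n, e (u * (α i - α i))‖ ^ 2 ≤ (n : ℝ) ^ 2 := by
    have := (geo_le 0 n (by positivity) (α i - α i)).1
    push_cast at this
    rw [sub_zero] at this
    gcongr
  have h2 : ∑ j ∈ I.erase i, ‖∑ u ∈ Ico (0 : ℤ) n, e (u * (α i - α j))‖ ^ 2 ≤
      ∑ j ∈ I.erase i, 1 / 4 * ((D : ℝ) ^ 2 * (LSA_h (VB_cell D (α i - α j)).toNat +
        LSA_h (D - 1 - (VB_cell D (α i - α j)).toNat))) := by
    refine sum_le_sum fun j hj => ?_
    rw [Finset.mem_erase] at hj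
    have h3 := hsep i hi j hj.2 (Ne.symm hj.1)
    have hD0 : (0 : ℝ) < D := by exact_mod_cast hD
    have hnd : 0 < nd (α i - α j) := lt_of_lt_of_le (by positivity) h3
    have h4 := (geo_le 0 n (by positivity) (α i - α j)).2
    have h5 := LSA_nd_bound hD h3
    have h6 : ‖∑ u ∈ Ico (0 : ℤ) n, e (u * (α i - α j))‖ ≤ 1 / (2 * nd (α i - α j)) := by
      rw [le_div_iff₀ (by positivity)]
      exact h4
    calc ‖∑ u ∈ Ico (0 : ℤ) n, e (u * (α i - α j))‖ ^ 2 ≤ (1 / (2 * nd (α i - α j))) ^ 2 := by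
          gcongr
      _ = 1 / 4 * (1 / nd (α i - α j) ^ 2) := by
          field_simp
          ring
      _ ≤ _ := by gcongr
  have h3 : ∑ j ∈ I.erase i, 1 / 4 * ((D : ℝ) ^ 2 * (LSA_h (VB_cell D (α i - α j)).toNat +
        LSA_h (D - 1 - (VB_cell D (α i - α j)).toNat))) ≤
      ∑ k ∈ range D, 1 / 4 * ((D : ℝ) ^ 2 * (LSA_h k + LSA_h (D - 1 - k))) := by
    have hinj : Set.InjOn (fun j => (VB_cell D (α i - α j)).toNat) (I.erase i : Set ι) := by
      intro j hj l hl hjl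
      rw [Finset.mem_coe, Finset.mem_erase] at hj hl
      by_contra hne
      have h4 := hsep l hl.2 j hj.2 (Ne.symm hne)
      have h5 : 1 / (D : ℝ) ≤ nd ((α i - α j) - (α i - α l)) := by
        have : (α i - α j) - (α i - α l) = α l - α j := by ring
        rw [this]
        exact h4
      apply LSA_cell hD h5
      have e1 := (VB_cell_mem hD (α i - α j)).1
      have e2 := (VB_cell_mem hD (α i - α l)).1
      dsimp only at hjl
      omega
    rw [← Finset.sum_image (f := fun k => 1 / 4 * ((D : ℝ) ^ 2 * (LSA_h k + LSA_h (D - 1 - k))))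
      (g := fun j => (VB_cell D (α i - α j)).toNat) hinj]
    apply Finset.sum_le_sum_of_subset_of_nonneg
    · intro k hk
      rw [Finset.mem_image] at hk
      obtain ⟨j, _, rfl⟩ := hk
      rw [Finset.mem_range]
      obtain ⟨e1, e2⟩ := VB_cell_mem hD (α i - α j)
      omega
    · intro k _ _
      have := LSA_h_nonneg k
      have := LSA_h_nonneg (D - 1 - k)
      positivity
  have h4 : ∑ k ∈ range D, 1 / 4 * ((D : ℝ) ^ 2 * (LSA_h k + LSA_h (D - 1 - k))) ≤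
      3 / 2 * (D : ℝ) ^ 2 := by
    rw [← Finset.mul_sum, ← Finset.mul_sum, Finset.sum_add_distrib, Finset.sum_range_reflect]
    have := LSA_h_sum D
    nlinarith [sq_nonneg (D : ℝ)]
  linarith

/-- The additive large sieve for the fractions `b/q`, `q ≤ Q`, `(b, q) = 1`.

Proof. The points `b/q` (one per reduced fraction in `[0, 1)`) are `δ`-spaced modulo `1` with
`δ = 1/Q²` (`|b/q - b'/q' - k| ≥ 1/(q q')` unless the fractions are equal). We may assume `M = 0`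
(multiply `a m` by `e(M b/q)`-twists: `|∑ a_m e(m α)| = |∑ a_{M+m} e(m α)|`), and put
`N' = max N (Q^2)`. By `lsa_dual` (with `K (q, b) m = e(m b/q)`) it suffices to bound
`∑_{m < N} |∑_α c_α e(m α)|²`. The Fejér weight `w m = 2 max 0 (1 - |m|/(2 N'))`, is `≥ 1` for
`|m| ≤ N'`, so this is at most `∑_{m ∈ ℤ} w m |∑_α c_α e(m α)|² = ∑_{α, β} c_α conj(c_β) ŵ(α - β)`,
`ŵ θ = ∑_m w m e(m θ) = (1/N') |∑_{m < 2N'} e(m θ)|² `, so `0 ≤ ŵ θ ≤ min (4 N') (1/(4 N' ‖θ‖²))`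
(`‖∑ e(m θ)‖ ≤ 1/(2 ‖θ‖)`, cf. `geo_le` in `H68T/VB.lean`). By `|c_α c_β| ≤ (|c_α|² + |c_β|²)/2`
(Schur) it is at most `sup_α ∑_β ŵ(α - β) ∑ |c|²`, and for fixed `α` the points `β ≠ α` have
`‖α - β‖ ≥ k δ` for at least... the `k`-th closest point on each side: `∑_β ≤ 4 N' + 2 ∑_k 1/(4 N' k² δ²)
≤ 4 N' + Q^4/N' ≤ 5 N'`. (Alternatively use Gallagher's lemma
`|S(α)|² ≤ δ⁻¹ ∫_{|β-α| ≤ δ/2} |S|² + ∫_{|β-α| ≤ δ/2} |S S'|`.) -/
theorem ls_add : ∃ C : ℝ, 0 < C ∧ ∀ (Q N : ℕ), 1 ≤ Q → 1 ≤ N → ∀ (M : ℕ) (a : ℕ → ℂ),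
    ∑ q ∈ Icc 1 Q, ∑ b ∈ (range q).filter (fun b => Nat.Coprime b q),
      ‖∑ m ∈ Ico M (M + N), a m * e ((m : ℝ) * ((b : ℝ) / q))‖ ^ 2 ≤
      C * ((N : ℝ) + (Q : ℝ) ^ 2) * ∑ m ∈ Ico M (M + N), ‖a m‖ ^ 2 := by
  refine ⟨6, by norm_num, ?_⟩
  intro Q N hQ hN M a
  classical
  set I : Finset (Σ _ : ℕ, ℕ) := (Icc 1 Q).sigma
    (fun q => (range q).filter (fun b => Nat.Coprime b q)) with hI
  set α : (Σ _ : ℕ, ℕ) → ℝ := fun p => (p.2 : ℝ) / p.1 with hα
  have hsum : ∑ q ∈ Icc 1 Q, ∑ b ∈ (range q).filter (fun b => Nat.Coprime b q),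
      ‖∑ m ∈ Ico M (M + N), a m * e ((m : ℝ) * ((b : ℝ) / q))‖ ^ 2 =
      ∑ p ∈ I, ‖∑ m ∈ Ico M (M + N), a m * e ((m : ℝ) * α p)‖ ^ 2 := by
    rw [hI, Finset.sum_sigma]
  rw [hsum]
  apply lsa_dual I (Ico M (M + N)) (fun p m => e ((m : ℝ) * α p)) _ (by positivity)
  intro c
  set D : ℕ := Q ^ 2 with hD
  set L : ℕ := max N D with hL
  have hD1 : 1 ≤ D := Nat.one_le_pow _ _ hQ
  have hL1 : 1 ≤ L := le_trans hN (le_max_left _ _)
  have hsep : ∀ i ∈ I, ∀ j ∈ I, i ≠ j → 1 / (D : ℝ) ≤ nd (α i - α j) := by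
    rintro ⟨q, b⟩ h1 ⟨q', b'⟩ h2 hne
    rw [hI, Finset.mem_sigma, Finset.mem_Icc, Finset.mem_filter, Finset.mem_range] at h1 h2
    have := LSA_sep h1.1.2 h2.1.2 h1.2.1 h2.2.1 h1.2.2 h2.2.2 (by
      rintro ⟨rfl, rfl⟩
      exact hne rfl)
    rw [hD]
    push_cast
    exact this
  have h1 := LSA_ext (fun x : ℤ => ‖∑ i ∈ I, c i * e ((x : ℝ) * α i)‖ ^ 2)
    (fun x => by positivity) M N L (le_max_left _ _)
  have h2 := LSA_quad I α c (M : ℝ) (2 * L)
  have h3 := LSA_schur I c (fun i j => ‖∑ u ∈ Ico (0 : ℤ) (2 * L : ℕ), e (u * (α i - α j))‖ ^ 2)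
    ((((2 * L : ℕ) : ℝ)) ^ 2 + 3 / 2 * (D : ℝ) ^ 2) (fun i j => by positivity) (fun i j => by
      have e1 : ∑ u ∈ Ico (0 : ℤ) (2 * L : ℕ), e (u * (α j - α i)) =
          (starRingEnd ℂ) (∑ u ∈ Ico (0 : ℤ) (2 * L : ℕ), e (u * (α i - α j))) := by
        rw [map_sum]
        refine sum_congr rfl fun u _ => ?_
        rw [LSA_conj]
        congr 1
        ring
      rw [e1, RCLike.norm_conj])
    (fun i hi => LSA_row I α D (2 * L) hD1 hsep i hi)
  have h4 : ∑ u ∈ Ico (0 : ℤ) (2 * L : ℕ), ∑ v ∈ Ico (0 : ℤ) (2 * L : ℕ),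
      ‖∑ i ∈ I, c i * e ((((M : ℤ) + u - v : ℤ) : ℝ) * α i)‖ ^ 2 =
      ∑ u ∈ Ico (0 : ℤ) (2 * L : ℕ), ∑ v ∈ Ico (0 : ℤ) (2 * L : ℕ),
      ‖∑ i ∈ I, c i * e (((M : ℝ) + u - v) * α i)‖ ^ 2 := by
    push_cast
    rfl
  have h5 : (L : ℝ) * ∑ m ∈ Ico M (M + N), ‖∑ i ∈ I, c i * e (((m : ℤ) : ℝ) * α i)‖ ^ 2 ≤
      ((((2 * L : ℕ) : ℝ)) ^ 2 + 3 / 2 * (D : ℝ) ^ 2) * ∑ i ∈ I, ‖c i‖ ^ 2 := by
    refine h1.trans ?_
    rw [h4]
    exact h2.trans h3
  have hL0 : (0 : ℝ) < L := by exact_mod_cast hL1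
  have hDL : (D : ℝ) ≤ L := by exact_mod_cast le_max_right N D
  have hLND : (L : ℝ) ≤ N + D := by
    have : L ≤ N + D := max_le (Nat.le_add_right _ _) (Nat.le_add_left _ _)
    exact_mod_cast this
  have hDQ : (D : ℝ) = (Q : ℝ) ^ 2 := by rw [hD]; push_cast; rfl
  have h6 : ((((2 * L : ℕ) : ℝ)) ^ 2 + 3 / 2 * (D : ℝ) ^ 2) ≤
      L * (6 * ((N : ℝ) + (Q : ℝ) ^ 2)) := by
    push_cast
    rw [← hDQ]
    have hD0 : (0 : ℝ) ≤ D := Nat.cast_nonneg _
    nlinarith
  have h7 : ∑ m ∈ Ico M (M + N), ‖∑ i ∈ I, c i * e (((m : ℤ) : ℝ) * α i)‖ ^ 2 =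
      ∑ j ∈ Ico M (M + N), ‖∑ i ∈ I, c i * e ((j : ℝ) * α i)‖ ^ 2 := by
    push_cast
    rfl
  rw [h7] at h5
  have h8 : 0 ≤ ∑ i ∈ I, ‖c i‖ ^ 2 := by positivity
  have h9 := h5.trans (mul_le_mul_of_nonneg_right h6 h8)
  rw [mul_assoc] at h9
  exact le_of_mul_le_mul_left h9 hL0

end Pool.Agent.Lib.H59C
end

-- from Lib.H59C.LSB
section

/-!
# LSB: from primitive characters to additive characters
-/

open Finset

namespace Pool.Agent.Lib.H59C

open Pool.Agent.Lib.H68T (PC p0 e)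

theorem lsb_prim_inv {q : ℕ} {χ : DirichletCharacter ℂ q} (h : χ.IsPrimitive) :
    χ⁻¹.IsPrimitive := by
  rw [DirichletCharacter.isPrimitive_def] at h ⊢
  rw [DirichletCharacter.conductor_inv, h]

/-- abstract Parseval -/
theorem lsb_parseval {X B : Type*} [Fintype X] [Fintype B] [DecidableEq B] (u : X → B → ℂ) (c : ℝ)
    (h : ∀ b b', ∑ x, (starRingEnd ℂ) (u x b) * u x b' = if b = b' then (c : ℂ) else 0)
    (f : B → ℂ) : ∑ x, ‖∑ b, u x b * f b‖ ^ 2 = c * ∑ b, ‖f b‖ ^ 2 := by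
  have h1 : ∀ x, ((‖∑ b, u x b * f b‖ ^ 2 : ℝ) : ℂ) =
      ∑ b, ∑ b', (starRingEnd ℂ) (f b) * f b' * ((starRingEnd ℂ) (u x b) * u x b') := by
    intro x
    rw [Complex.ofReal_pow, ← Complex.conj_mul', map_sum, sum_mul_sum]
    refine sum_congr rfl fun b _ => sum_congr rfl fun b' _ => ?_
    rw [map_mul]
    ring
  have h2 : ((∑ x, ‖∑ b, u x b * f b‖ ^ 2 : ℝ) : ℂ) = ((c * ∑ b, ‖f b‖ ^ 2 : ℝ) : ℂ) := by
    rw [Complex.ofReal_sum, sum_congr rfl fun x _ => h1 x, sum_comm, Complex.ofReal_mul,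
      Complex.ofReal_sum, mul_sum]
    refine sum_congr rfl fun b _ => ?_
    rw [sum_comm, sum_congr rfl fun b' _ => (mul_sum _ _ _).symm]
    simp_rw [h]
    simp only [mul_ite, mul_zero, sum_ite_eq, mem_univ, if_true]
    rw [Complex.conj_mul', Complex.ofReal_pow, mul_comm]
  exact_mod_cast h2

theorem lsb_sum_units (q : ℕ) [NeZero q] (G : ZMod q → ℂ) (hG : ∀ b, ¬ IsUnit b → G b = 0) :
    ∑ b, G b = ∑ b : (ZMod q)ˣ, G b := by
  classical
  have h1 : ∑ b : (ZMod q)ˣ, G b =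
      ∑ b ∈ (univ : Finset (ZMod q)ˣ).map ⟨fun u : (ZMod q)ˣ => (u : ZMod q), fun _ _ h => Units.ext h⟩, G b := by
    rw [sum_map]
    rfl
  rw [h1]
  symm
  apply sum_subset (subset_univ _)
  intro b _ hb
  apply hG
  rintro ⟨u, rfl⟩
  apply hb
  rw [mem_map]
  exact ⟨u, mem_univ _, rfl⟩

theorem lsb_conj {q : ℕ} [NeZero q] (χ : DirichletCharacter ℂ q) (b : (ZMod q)ˣ) :
    (starRingEnd ℂ) (χ (b : ZMod q)) = χ (((b : ZMod q))⁻¹) := by
  have h0 : ‖χ (b : ZMod q)‖ = 1 := χ.unit_norm_eq_one b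
  have h1 : χ (((b : ZMod q))⁻¹) * χ (b : ZMod q) = 1 := by
    rw [← map_mul, ZMod.inv_mul_of_unit _ b.isUnit, map_one]
  have h2 : (starRingEnd ℂ) (χ (b : ZMod q)) * χ (b : ZMod q) = 1 := by
    rw [Complex.conj_mul', h0]
    norm_num
  have h3 : χ (b : ZMod q) ≠ 0 := by
    rw [← norm_ne_zero_iff, h0]
    norm_num
  exact mul_right_cancel₀ h3 (h2.trans h1.symm)

/-- orthogonality in the form needed -/
theorem lsb_orth (q : ℕ) [NeZero q] (F : ZMod q → ℂ) :
    ∑ χ : DirichletCharacter ℂ q, ‖∑ b, χ b * F b‖ ^ 2 =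
      (Nat.totient q : ℝ) * ∑ b : (ZMod q)ˣ, ‖F b‖ ^ 2 := by
  classical
  have h := lsb_parseval (fun (χ : DirichletCharacter ℂ q) (b : (ZMod q)ˣ) => χ (b : ZMod q))
    (Nat.totient q : ℝ) (by
      intro b b'
      simp_rw [lsb_conj]
      rw [DirichletCharacter.sum_char_inv_mul_char_eq ℂ b.isUnit]
      simp only [Units.val_inj]
      split_ifs
      · norm_cast
      · norm_cast) (fun b => F (b : ZMod q))
  rw [← h]
  refine sum_congr rfl fun χ _ => ?_
  rw [lsb_sum_units q (fun b => χ b * F b) (fun b hb => by rw [MulChar.map_nonunit _ hb, zero_mul])]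

theorem lsb_card (q : ℕ) [NeZero q] (χ : DirichletCharacter ℂ q) :
    ∑ b : ZMod q, ‖χ b‖ ^ 2 = (Nat.totient q : ℝ) := by
  classical
  have h1 : ∑ b : ZMod q, ((‖χ b‖ ^ 2 : ℝ) : ℂ) = ∑ b : (ZMod q)ˣ, ((‖χ (b : ZMod q)‖ ^ 2 : ℝ) : ℂ) :=
    lsb_sum_units q (fun b => ((‖χ b‖ ^ 2 : ℝ) : ℂ)) (fun b hb => by
      rw [MulChar.map_nonunit _ hb]
      norm_num)
  have h2 : ∑ b : ZMod q, ‖χ b‖ ^ 2 = ∑ b : (ZMod q)ˣ, ‖χ (b : ZMod q)‖ ^ 2 := by
    exact_mod_cast h1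
  rw [h2]
  have h3 : ∀ b : (ZMod q)ˣ, ‖χ (b : ZMod q)‖ ^ 2 = 1 := by
    intro b
    rw [χ.unit_norm_eq_one b, one_pow]
  rw [sum_congr rfl fun b _ => h3 b, sum_const, card_univ, ZMod.card_units_eq_totient, nsmul_one]

theorem lsb_gauss (q : ℕ) [NeZero q] {χ : DirichletCharacter ℂ q} (h : χ.IsPrimitive) :
    ‖gaussSum χ (ZMod.stdAddChar (N := q))‖ ^ 2 = q := by
  classical
  have hq : (0 : ℝ) < Nat.totient q := by exact_mod_cast Nat.totient_pos.2 (NeZero.pos q)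
  have h1 := lsb_parseval (fun (m b : ZMod q) => (ZMod.stdAddChar (b * m) : ℂ)) (q : ℝ) (by
    intro b b'
    have h2 := AddChar.sum_mulShift (b' - b) (ZMod.isPrimitive_stdAddChar q)
    rw [ZMod.card] at h2
    have h3 : ∀ x : ZMod q, (starRingEnd ℂ) (ZMod.stdAddChar (b * x) : ℂ) *
        ZMod.stdAddChar (b' * x) = ZMod.stdAddChar (x * (b' - b)) := by
      intro x
      rw [← AddChar.map_neg_eq_conj, ← AddChar.map_add_eq_mul]
      congr 1
      ring
    rw [sum_congr rfl fun x _ => h3 x, h2]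
    by_cases hb : b = b'
    · rw [if_pos hb, if_pos (by rw [hb, sub_self])]
      norm_cast
    · rw [if_neg hb, if_neg (by rw [sub_eq_zero]; exact fun h => hb h.symm)]
      norm_cast) (fun b => χ b)
  rw [lsb_card] at h1
  have h4 : ∀ m : ZMod q, ‖∑ b, (ZMod.stdAddChar (b * m) : ℂ) * χ b‖ ^ 2 =
      ‖χ⁻¹ m‖ ^ 2 * ‖gaussSum χ (ZMod.stdAddChar (N := q))‖ ^ 2 := by
    intro m
    rw [← mul_pow, ← norm_mul, ← gaussSum_mulShift_of_isPrimitive _ h, gaussSum]
    congr 2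
    refine sum_congr rfl fun b _ => ?_
    rw [AddChar.mulShift_apply, mul_comm, mul_comm b]
  rw [sum_congr rfl fun m _ => h4 m, ← sum_mul, lsb_card] at h1
  exact mul_left_cancel₀ hq.ne' (h1.trans (mul_comm _ _))

theorem lsb_units (q : ℕ) [NeZero q] (G : ZMod q → ℝ) : ∑ b : (ZMod q)ˣ, G b =
    ∑ b ∈ (range q).filter (fun b => Nat.Coprime b q), G (b : ZMod q) := by
  classical
  symm
  refine sum_bij' (fun b hb => ZMod.unitOfCoprime b (mem_filter.1 hb).2)
    (fun u _ => (u : ZMod q).val) ?_ ?_ ?_ ?_ ?_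
  · intro b hb
    exact mem_univ _
  · intro u _
    rw [mem_filter, mem_range]
    exact ⟨ZMod.val_lt _, ZMod.val_coe_unit_coprime u⟩
  · intro b hb
    rw [mem_filter, mem_range] at hb
    rw [ZMod.coe_unitOfCoprime, ZMod.val_natCast, Nat.mod_eq_of_lt hb.1]
  · intro u _
    apply Units.ext
    rw [ZMod.coe_unitOfCoprime, ZMod.natCast_zmod_val]
  · intro b hb
    rw [ZMod.coe_unitOfCoprime]

theorem lsb_e (q : ℕ) [NeZero q] (m b : ℕ) : ZMod.stdAddChar ((b : ZMod q) * (m : ZMod q)) =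
    e ((m : ℝ) * ((b : ℝ) / q)) := by
  have h := ZMod.stdAddChar_coe (N := q) ((b * m : ℕ) : ℤ)
  push_cast at h
  rw [h, e]
  congr 1
  push_cast
  ring

/-- For primitive `χ` mod `q` and all `m`: `χ̄(m) τ = ∑_b χ(b) e(m b/q)` with `|τ|² = q`, hence
`∑_{χ} |∑_m a_m χ̄(m)|² = q⁻¹ ∑_χ |∑_b χ(b) S(b/q)|²`, `S(α) = ∑_m a_m e(m α)`; extending the sum to ALL
characters mod `q` and using orthogonality this is at most `φ(q)/q ∑_{(b,q)=1} |S(b/q)|²`. Apply it to the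
set of the conjugates `χ̄`, `χ ∈ T`. (Mathlib: `gaussSum_mulShift_of_isPrimitive`, `ZMod.stdAddChar`,
`DirichletCharacter.IsPrimitive...`; `|τ|² = q` follows from Parseval: `∑_m |∑_b χ(b) e(m b/q)|² =
q ∑_b |χ(b)|² = q φ(q)` and `|χ̄(m) τ|² = |τ|²` for the `φ(q)` units `m`.) -/
theorem ls_gauss (q : ℕ) [NeZero q] (S : Finset ℕ) (a : ℕ → ℂ)
    (T : Finset (DirichletCharacter ℂ q)) (hT : ∀ χ ∈ T, χ.IsPrimitive) :
    (q : ℝ) / (Nat.totient q : ℝ) * ∑ χ ∈ T, ‖∑ m ∈ S, a m * χ (m : ZMod q)‖ ^ 2 ≤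
      ∑ b ∈ (range q).filter (fun b => Nat.Coprime b q),
        ‖∑ m ∈ S, a m * e ((m : ℝ) * ((b : ℝ) / q))‖ ^ 2 := by
  classical
  have hq : (0 : ℝ) < Nat.totient q := by exact_mod_cast Nat.totient_pos.2 (NeZero.pos q)
  obtain ⟨F, hF⟩ : ∃ F : ZMod q → ℂ, ∀ b, F b = ∑ m ∈ S, a m * ZMod.stdAddChar (b * (m : ZMod q)) :=
    ⟨_, fun _ => rfl⟩
  have h1 : ∑ b ∈ (range q).filter (fun b => Nat.Coprime b q),
        ‖∑ m ∈ S, a m * e ((m : ℝ) * ((b : ℝ) / q))‖ ^ 2 = ∑ b : (ZMod q)ˣ, ‖F b‖ ^ 2 := by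
    rw [lsb_units q (fun b => ‖F b‖ ^ 2)]
    refine sum_congr rfl fun b _ => ?_
    rw [hF]
    congr 2
    exact sum_congr rfl fun m _ => by rw [lsb_e]
  have h2 : ∀ χ ∈ T, (q : ℝ) * ‖∑ m ∈ S, a m * χ (m : ZMod q)‖ ^ 2 = ‖∑ b, χ⁻¹ b * F b‖ ^ 2 := by
    intro χ hχ
    have hp := lsb_prim_inv (hT χ hχ)
    have e1 : ∑ b, χ⁻¹ b * F b =
        (∑ m ∈ S, a m * χ (m : ZMod q)) * gaussSum χ⁻¹ (ZMod.stdAddChar (N := q)) := by
      rw [sum_mul]
      have e2 : ∀ b, χ⁻¹ b * F b =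
          ∑ m ∈ S, a m * (χ⁻¹ b * ZMod.stdAddChar (b * (m : ZMod q))) := by
        intro b
        rw [hF, mul_sum]
        exact sum_congr rfl fun m _ => by ring
      rw [sum_congr rfl fun b _ => e2 b, sum_comm]
      refine sum_congr rfl fun m _ => ?_
      rw [← mul_sum]
      have e3 := gaussSum_mulShift_of_isPrimitive (ZMod.stdAddChar (N := q)) hp (m : ZMod q)
      rw [inv_inv, gaussSum] at e3
      rw [mul_assoc, ← e3]
      congr 1
      refine sum_congr rfl fun b _ => ?_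
      rw [AddChar.mulShift_apply, mul_comm b]
    rw [e1, norm_mul, mul_pow, lsb_gauss q hp, mul_comm]
  have h3 : (q : ℝ) * ∑ χ ∈ T, ‖∑ m ∈ S, a m * χ (m : ZMod q)‖ ^ 2 ≤
      ∑ χ : DirichletCharacter ℂ q, ‖∑ b, χ b * F b‖ ^ 2 := by
    rw [mul_sum, sum_congr rfl h2]
    have e1 : ∑ χ ∈ T, ‖∑ b, χ⁻¹ b * F b‖ ^ 2 = ∑ χ ∈ T.map (Equiv.inv _).toEmbedding,
        ‖∑ b, χ b * F b‖ ^ 2 := by
      rw [sum_map]
      rfl
    rw [e1]
    exact sum_le_sum_of_subset_of_nonneg (subset_univ _) fun χ _ _ => by positivity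
  rw [lsb_orth, ← h1] at h3
  rw [div_mul_eq_mul_div, div_le_iff₀ hq, mul_comm _ (Nat.totient q : ℝ)]
  exact h3

end Pool.Agent.Lib.H59C
end

-- from Lib.H59C.HH
section

/-!
# HH: the comparison function `hh s = exp (-(11/10) max s 2)`
-/

open Finset MeasureTheory

namespace Pool.Agent.Lib.H59C

/-- `c = 11/10`. -/
theorem hh_pos (s : ℝ) : 0 < hh s := Real.exp_pos _

theorem hh_anti : Antitone hh := by
  intro a b hab
  unfold hh
  apply Real.exp_le_exp.2
  have : max a 2 ≤ max b 2 := max_le_max_right 2 hab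
  linarith

theorem HH_cont : Continuous (fun t : ℝ => hh (t - 1)) := by
  unfold hh
  fun_prop

theorem HH_big {t : ℝ} (ht : 3 ≤ t) : hh (t - 1) = Real.exp (11 / 10) * Real.exp (-(11 / 10) * t) := by
  unfold hh
  rw [max_eq_left (by linarith), ← Real.exp_add]
  congr 1
  ring

theorem HH_small {t : ℝ} (ht : t ≤ 3) : hh (t - 1) = Real.exp (-(11 / 10) * 2) := by
  unfold hh
  rw [max_eq_right (by linarith)]

theorem HH_int_big (s : ℝ) (hs : 3 ≤ s) : IntegrableOn (fun t => hh (t - 1)) (Set.Ioi s) := by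
  have h1 : IntegrableOn (fun t : ℝ => Real.exp (11 / 10) * Real.exp (-(11 / 10) * t)) (Set.Ioi s) :=
    (integrableOn_exp_mul_Ioi (by norm_num : (-(11 / 10) : ℝ) < 0) s).const_mul _
  refine h1.congr_fun (fun t ht => ?_) measurableSet_Ioi
  rw [HH_big (by linarith [Set.mem_Ioi.1 ht])]

theorem hh_integrable (s : ℝ) : IntegrableOn (fun t => hh (t - 1)) (Set.Ioi s) := by
  rcases le_or_gt 3 s with h | h
  · exact HH_int_big s h
  · rw [← Set.Ioc_union_Ioi_eq_Ioi h.le]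
    apply IntegrableOn.union
    · exact HH_cont.integrableOn_Ioc
    · exact HH_int_big 3 le_rfl

/-- the value of the integral, large s -/
theorem HH_val_big (s : ℝ) (hs : 3 ≤ s) : ∫ t in Set.Ioi s, hh (t - 1) =
    10 / 11 * (Real.exp (11 / 10) * Real.exp (-(11 / 10) * s)) := by
  have h1 : ∫ t in Set.Ioi s, hh (t - 1) =
      ∫ t in Set.Ioi s, Real.exp (11 / 10) * Real.exp (-(11 / 10) * t) := by
    apply setIntegral_congr_fun measurableSet_Ioi
    intro t ht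
    exact HH_big (by linarith [Set.mem_Ioi.1 ht])
  rw [h1, integral_const_mul, integral_exp_mul_Ioi (by norm_num)]
  ring

theorem HH_val_small (s : ℝ) (hs : s ≤ 3) : ∫ t in Set.Ioi s, hh (t - 1) =
    Real.exp (-(11 / 10) * 2) * (3 - s + 10 / 11) := by
  rw [← Set.Ioc_union_Ioi_eq_Ioi hs, setIntegral_union (Set.Ioc_disjoint_Ioi le_rfl)
    measurableSet_Ioi (HH_cont.integrableOn_Ioc) (hh_integrable 3), HH_val_big 3 le_rfl]
  have h1 : ∫ t in Set.Ioc s 3, hh (t - 1) = ∫ _ in Set.Ioc s (3 : ℝ), Real.exp (-(11 / 10) * 2) := by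
    apply setIntegral_congr_fun measurableSet_Ioc
    intro t ht
    exact HH_small ht.2
  rw [h1, setIntegral_const, Real.volume_real_Ioc_of_le hs, smul_eq_mul, ← Real.exp_add]
  have e : (11 / 10 : ℝ) + -(11 / 10) * 3 = -(11 / 10) * 2 := by norm_num
  rw [e]
  ring

theorem HH_e : Real.exp (11 / 10) ≤ 303 / 100 := by
  have h1 : Real.exp (11 / 10) = Real.exp 1 * Real.exp (1 / 10) := by
    rw [← Real.exp_add]
    norm_num
  have h2 : Real.exp (1 / 10) ≤ 10 / 9 := by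
    have h3 := Real.one_sub_le_exp_neg (1 / 10)
    have h4 : Real.exp (-(1 / 10)) * Real.exp (1 / 10) = 1 := by
      rw [← Real.exp_add, neg_add_cancel, Real.exp_zero]
    have h5 := Real.exp_pos (1 / 10)
    nlinarith
  have h3 := Real.exp_one_lt_d9
  have h4 := Real.exp_pos 1
  have h5 := Real.exp_pos (1 / 10)
  rw [h1]
  nlinarith

theorem HH_half : Real.exp (1 / 2) ≤ 164873 / 100000 := by
  have h1 : Real.exp (1 / 2) ^ 2 = Real.exp 1 := by
    rw [← Real.exp_nat_mul]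
    norm_num
  have h3 := Real.exp_one_lt_d9
  have h5 := Real.exp_pos (1 / 2)
  by_contra h
  rw [not_le] at h
  nlinarith

theorem HH_taylor (y : ℝ) (hy : |y| ≤ 1) :
    Real.exp y ≤ 1 + y + y ^ 2 / 2 + y ^ 3 / 6 + 5 / 96 * y ^ 4 := by
  have h := (abs_le.1 (Real.exp_bound hy (n := 4) (by norm_num))).2
  have e : ∑ m ∈ range 4, y ^ m / (m.factorial : ℝ) = 1 + y + y ^ 2 / 2 + y ^ 3 / 6 := by
    simp [Finset.sum_range_succ, Nat.factorial]
  rw [e] at h
  have e2 : |y| ^ 4 = y ^ 4 := by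
    rw [← abs_pow]
    exact abs_of_nonneg (by positivity)
  rw [e2] at h
  norm_num [Nat.factorial] at h
  linarith

/-- the polynomial inequality -/
theorem HH_poly (y : ℝ) (h1 : -(1 / 2) ≤ y) (h2 : y ≤ 3 / 5) :
    164873 / 100000 * ((8 / 5 - y) * (1 + y + y ^ 2 / 2 + y ^ 3 / 6 + 5 / 96 * y ^ 4)) ≤
      49 / 50 * (27 / 10 + y) := by
  rcases le_or_gt 0 y with h | h
  · have a3 : 0 ≤ y ^ 3 := by positivity
    have a4 : 0 ≤ y ^ 4 := by positivity
    have a5 : 0 ≤ y ^ 5 := by positivity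
    nlinarith [sq_nonneg (y - 1 / 70)]
  · have b2 : 0 ≤ y ^ 2 := sq_nonneg y
    have b3 : -(1 / 2) * y ^ 2 ≤ y ^ 3 := by nlinarith
    have b4 : 0 ≤ y ^ 4 := by positivity
    have b5 : -(1 / 8) * y ^ 2 ≤ y ^ 5 := by nlinarith [mul_nonneg b2 b2, sq_nonneg (y ^ 2)]
    nlinarith

/-- the inequality for `2 ≤ s ≤ 3` -/
theorem HH_mid (s : ℝ) (h1 : 2 ≤ s) (h2 : s ≤ 3) :
    (3 - s + 10 / 11) * Real.exp (11 / 10 * (s - 2)) ≤ 49 / 50 * s := by
  obtain ⟨y, hy⟩ : ∃ y, y = 11 / 10 * (s - 2) - 1 / 2 := ⟨_, rfl⟩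
  have hs : s = 2 + 10 / 11 * (y + 1 / 2) := by rw [hy]; ring
  have y1 : -(1 / 2) ≤ y := by rw [hy]; linarith
  have y2 : y ≤ 3 / 5 := by rw [hy]; linarith
  have e1 : Real.exp (11 / 10 * (s - 2)) = Real.exp (1 / 2) * Real.exp y := by
    rw [← Real.exp_add, hy]
    congr 1
    ring
  have t := HH_taylor y (by rw [abs_le]; constructor <;> linarith)
  have hh2 := HH_half
  have p := HH_poly y y1 y2
  have hpos : 0 < 8 / 5 - y := by linarith
  have ey := Real.exp_pos y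
  have e3 : Real.exp (1 / 2) * Real.exp y ≤
      164873 / 100000 * (1 + y + y ^ 2 / 2 + y ^ 3 / 6 + 5 / 96 * y ^ 4) :=
    mul_le_mul hh2 t ey.le (by norm_num)
  rw [e1]
  have e4 : 3 - s + 10 / 11 = 10 / 11 * (8 / 5 - y) := by rw [hs]; ring
  rw [e4]
  have e5 := mul_le_mul_of_nonneg_left e3 hpos.le
  have e6 : 49 / 50 * s = 10 / 11 * (49 / 50 * (27 / 10 + y)) := by rw [hs]; ring
  rw [e6]
  nlinarith

/-- For `s ≥ 3` the integral is `e^c e^(-c s)/c` and `e^c/c ≤ 2.74 ≤ (49/50) · 3`. For `2 ≤ s ≤ 3` it is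
`e^(-2c) ((3 - s) + 1/c)` and `((3 - s) + 1/c) e^(c (s-2)) ≤ (49/50) s` (the maximum of the quotient
of the left side by `s` is `0.9771` near `s = 2.47`; for the proof use e.g. upper bounds of `exp` on
`[0, 1.1]` by Taylor polynomials on a few subintervals, or convexity). -/
theorem hh_int (s : ℝ) (hs : 2 ≤ s) : ∫ t in Set.Ioi s, hh (t - 1) ≤ 49 / 50 * s * hh s := by
  have e1 : hh s = Real.exp (-(11 / 10) * s) := by
    unfold hh
    rw [max_eq_left hs]
  have hp := Real.exp_pos (-(11 / 10) * s)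
  rcases le_or_gt 3 s with h | h
  · rw [HH_val_big s h, e1]
    have h2 := HH_e
    have h3 : 10 / 11 * Real.exp (11 / 10) ≤ 49 / 50 * s := by linarith
    have := mul_le_mul_of_nonneg_right h3 hp.le
    linarith
  · rw [HH_val_small s h.le, e1]
    have h2 := HH_mid s hs h.le
    have e2 : Real.exp (-(11 / 10) * 2) = Real.exp (11 / 10 * (s - 2)) * Real.exp (-(11 / 10) * s) := by
      rw [← Real.exp_add]
      congr 1
      ring
    rw [e2]
    have := mul_le_mul_of_nonneg_right h2 hp.le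
    linarith

/-- The integral is `e^(-2c)/c`; `s hh s ≥ e^(-2c)` on `[1, 2]`, and `s e^(-c s) ≥ 3 e^(-3c)` on `[2, 3]`. -/
theorem hh_int3 (s : ℝ) (hs : 1 ≤ s) (hs3 : s ≤ 3) :
    ∫ t in Set.Ioi (3 : ℝ), hh (t - 1) ≤ 49 / 50 * s * hh s := by
  rcases le_or_gt 2 s with h | h
  · refine le_trans ?_ (hh_int s h)
    apply setIntegral_mono_set (hh_integrable s)
    · exact Filter.Eventually.of_forall fun t => (hh_pos _).le
    · exact Filter.Eventually.of_forall (Set.Ioi_subset_Ioi hs3)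
  · rw [HH_val_small 3 le_rfl]
    have e1 : hh s = Real.exp (-(11 / 10) * 2) := by
      unfold hh
      rw [max_eq_right h.le]
    rw [e1]
    have hp := Real.exp_pos (-(11 / 10) * 2)
    nlinarith

theorem hh_shift (s : ℝ) (hs : 2 ≤ s) : hh (s - 1) ≤ 4 * hh s := by
  have e1 : hh s = Real.exp (-(11 / 10) * s) := by
    unfold hh
    rw [max_eq_left hs]
  have h1 : hh (s - 1) ≤ Real.exp (11 / 10) * Real.exp (-(11 / 10) * s) := by
    unfold hh
    rw [← Real.exp_add]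
    apply Real.exp_le_exp.2
    have := le_max_left (s - 1) 2
    linarith
  rw [e1]
  refine h1.trans (mul_le_mul_of_nonneg_right ?_ (Real.exp_pos _).le)
  have := HH_e
  linarith

end Pool.Agent.Lib.H59C
end

-- from Lib.H59C.RW1
section

/-!
# RW1: the recursion of Rosser's weights
-/

open Finset

namespace Pool.Agent.Lib.H59C

theorem RW1_lam (b : Bool) (D : ℝ) (p : ℕ) (t : Finset ℕ) (ht : ∀ q ∈ t, q < p) :
    lamR b D (insert p t) =
      if (b = true → (p : ℝ) ^ 3 < D) then -lamR (!b) (D / p) t else 0 := by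
  classical
  have hp : p ∉ t := fun h => lt_irrefl _ (ht p h)
  have hs : (insert p t).sort (· ≥ ·) = p :: t.sort (· ≥ ·) :=
    Finset.sort_insert _ (fun q hq => (ht q hq).le) hp
  unfold lamR
  rw [hs, Finset.card_insert_of_notMem hp, pow_succ]
  cases b with
  | true =>
    simp only [adm, Bool.not_true, true_implies]
    by_cases h1 : (p : ℝ) ^ 3 < D
    · by_cases h2 : adm false (D / p) (t.sort (· ≥ ·))
      · simp [h1, h2]
      · simp [h1, h2]
    · simp [h1]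
  | false =>
    simp only [adm, Bool.not_false, Bool.false_eq_true, false_implies, if_true]
    by_cases h2 : adm true (D / p) (t.sort (· ≥ ·))
    · simp [h2]
    · simp [h2]

theorem RW1_empty (b : Bool) (D : ℝ) (h : ℕ → ℝ) : SS b D ∅ h = 1 := by
  unfold SS lamR
  simp [adm]

/-- Split the sum over `A ⊆ P` according to the largest element `p` of `A` (`A = ∅` gives `1`):
`A = {p} ∪ A'`, `A' ⊆ {q ∈ P : q < p}`, the decreasing list of `A` is `p ::` that of `A'`, so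
`λ_b,D(A) = - [b = true → p³ < D] λ_(!b),D/p(A')` by the definition of `adm`. -/
theorem SS_rec (b : Bool) (D : ℝ) (P : Finset ℕ) (h : ℕ → ℝ) :
    SS b D P h = 1 - ∑ p ∈ P.filter (fun p : ℕ => b = true → (p : ℝ) ^ 3 < D),
      h p * SS (!b) (D / p) (P.filter (fun q => q < p)) h := by
  classical
  induction P using Finset.induction_on_max with
  | empty => simp [RW1_empty]
  | insert p P hP ih =>
    have hp : p ∉ P := fun hq => lt_irrefl _ (hP p hq)
    have e1 : SS b D (insert p P) h = SS b D P h +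
        ∑ t ∈ P.powerset, lamR b D (insert p t) * ∏ q ∈ insert p t, h q := by
      unfold SS
      rw [Finset.sum_powerset_insert hp]
    have e2 : ∑ t ∈ P.powerset, lamR b D (insert p t) * ∏ q ∈ insert p t, h q =
        if (b = true → (p : ℝ) ^ 3 < D) then -(h p * SS (!b) (D / p) P h) else 0 := by
      have e3 : ∀ t ∈ P.powerset, lamR b D (insert p t) * ∏ q ∈ insert p t, h q =
          if (b = true → (p : ℝ) ^ 3 < D) then
            -(h p * (lamR (!b) (D / p) t * ∏ q ∈ t, h q)) else 0 := by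
        intro t ht
        rw [Finset.mem_powerset] at ht
        have h1 : ∀ q ∈ t, q < p := fun q hq => hP q (ht hq)
        rw [RW1_lam b D p t h1, Finset.prod_insert (fun hh => hp (ht hh))]
        split_ifs
        · ring
        · ring
      rw [Finset.sum_congr rfl e3]
      split_ifs with hc
      · rw [Finset.sum_neg_distrib, ← Finset.mul_sum]
        rfl
      · simp
    have e4 : (insert p P).filter (fun q => q < p) = P := by
      rw [Finset.filter_insert, if_neg (lt_irrefl p)]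
      exact Finset.filter_true_of_mem hP
    have e5 : ∀ p' ∈ P, (insert p P).filter (fun q => q < p') = P.filter (fun q => q < p') := by
      intro p' hp'
      rw [Finset.filter_insert, if_neg (not_lt.2 (hP p' hp').le)]
    rw [e1, e2, ih, Finset.filter_insert]
    split_ifs with hc
    · rw [Finset.sum_insert (fun hh => hp (Finset.mem_filter.1 hh).1), e4]
      have e6 : ∑ x ∈ P.filter (fun p : ℕ => b = true → (p : ℝ) ^ 3 < D),
          h x * SS (!b) (D / x) ((insert p P).filter (fun q => q < x)) h =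
          ∑ x ∈ P.filter (fun p : ℕ => b = true → (p : ℝ) ^ 3 < D),
          h x * SS (!b) (D / x) (P.filter (fun q => q < x)) h :=
        Finset.sum_congr rfl fun x hx => by rw [e5 x (Finset.mem_filter.1 hx).1]
      rw [e6]
      ring
    · have e6 : ∑ x ∈ P.filter (fun p : ℕ => b = true → (p : ℝ) ^ 3 < D),
          h x * SS (!b) (D / x) ((insert p P).filter (fun q => q < x)) h =
          ∑ x ∈ P.filter (fun p : ℕ => b = true → (p : ℝ) ^ 3 < D),
          h x * SS (!b) (D / x) (P.filter (fun q => q < x)) h :=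
        Finset.sum_congr rfl fun x hx => by rw [e5 x (Finset.mem_filter.1 hx).1]
      rw [e6]
      ring

/-- If `h` is the indicator function of `T ⊆ P` only the `A ⊆ T` count. -/
theorem SS_restrict (b : Bool) (D : ℝ) (P T : Finset ℕ) (hT : T ⊆ P) :
    SS b D P (fun q => if q ∈ T then 1 else 0) = SS b D T (fun _ => 1) := by
  classical
  unfold SS
  symm
  have h1 : ∑ A ∈ T.powerset, lamR b D A * ∏ q ∈ A, (fun _ : ℕ => (1 : ℝ)) q =
      ∑ A ∈ T.powerset, lamR b D A * ∏ q ∈ A, (fun q => if q ∈ T then (1 : ℝ) else 0) q := by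
    refine Finset.sum_congr rfl fun A hA => ?_
    rw [Finset.mem_powerset] at hA
    congr 1
    exact Finset.prod_congr rfl fun q hq => by simp [hA hq]
  rw [h1]
  refine Finset.sum_subset (Finset.powerset_mono.2 hT) ?_
  intro A _ hA
  rw [Finset.mem_powerset, Finset.not_subset] at hA
  obtain ⟨q, hq, hqT⟩ := hA
  rw [Finset.prod_eq_zero hq (by simp [hqT]), mul_zero]

/-- For the upper bound sieve only the `p` with `p³ < D` matter: if `y³ = D`, `y ≤ z`, then the sum over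
the subsets of `{q < z}` is the sum over the subsets of `{q < y}`. -/
theorem SS_cut (D y z : ℝ) (P : Finset ℕ) (h : ℕ → ℝ) (hy : y ^ 3 = D) (hy0 : 0 ≤ y) (hyz : y ≤ z) :
    SS true D (P.filter (fun q : ℕ => (q : ℝ) < z)) h =
      SS true D (P.filter (fun q : ℕ => (q : ℝ) < y)) h := by
  rw [SS_rec true D (P.filter (fun q : ℕ => (q : ℝ) < z)),
    SS_rec true D (P.filter (fun q : ℕ => (q : ℝ) < y))]
  have hlt : ∀ p : ℕ, (p : ℝ) ^ 3 < D → (p : ℝ) < y := fun p hp =>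
    lt_of_pow_lt_pow_left₀ 3 hy0 (by rw [hy]; exact hp)
  have e1 : (P.filter (fun q : ℕ => (q : ℝ) < z)).filter
      (fun p : ℕ => true = true → (p : ℝ) ^ 3 < D) =
      (P.filter (fun q : ℕ => (q : ℝ) < y)).filter
      (fun p : ℕ => true = true → (p : ℝ) ^ 3 < D) := by
    ext p
    simp only [Finset.mem_filter, true_implies]
    constructor
    · rintro ⟨⟨h1, _⟩, h3⟩
      exact ⟨⟨h1, hlt p h3⟩, h3⟩
    · rintro ⟨⟨h1, h2⟩, h3⟩
      exact ⟨⟨h1, h2.trans_le hyz⟩, h3⟩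
  rw [e1]
  congr 1
  refine Finset.sum_congr rfl fun p hp => ?_
  simp only [Finset.mem_filter, true_implies] at hp
  have hpy : (p : ℝ) < y := hp.1.2
  have e2 : (P.filter (fun q : ℕ => (q : ℝ) < z)).filter (fun q => q < p) =
      (P.filter (fun q : ℕ => (q : ℝ) < y)).filter (fun q => q < p) := by
    ext q
    simp only [Finset.mem_filter]
    constructor
    · rintro ⟨⟨h1, _⟩, h3⟩
      exact ⟨⟨h1, (Nat.cast_lt.2 h3).trans hpy⟩, h3⟩
    · rintro ⟨⟨h1, h2⟩, h3⟩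
      exact ⟨⟨h1, h2.trans_le hyz⟩, h3⟩
  rw [e2]

end Pool.Agent.Lib.H59C
end

-- from Lib.H59C.PS
section

/-!
# PS: partial summation for sifting products
-/

open Finset MeasureTheory

namespace Pool.Agent.Lib.H59C

/-- the elements below `z` are the largest one, `p`, and those below `p` -/
theorem PS_split (P : Finset ℕ) (z : ℝ) (hne : (P.filter (fun q : ℕ => (q : ℝ) < z)).Nonempty) :
    ∃ p ∈ P, (p : ℝ) < z ∧ p ∉ P.filter (fun q : ℕ => (q : ℝ) < p) ∧
      P.filter (fun q : ℕ => (q : ℝ) < z) = insert p (P.filter (fun q : ℕ => (q : ℝ) < p)) := by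
  classical
  refine ⟨(P.filter (fun q : ℕ => (q : ℝ) < z)).max' hne, ?_, ?_, ?_, ?_⟩
  · exact (mem_filter.mp (max'_mem _ hne)).1
  · exact (mem_filter.mp (max'_mem _ hne)).2
  · intro h
    exact absurd (mem_filter.mp h).2 (lt_irrefl _)
  · have hp := mem_filter.mp (max'_mem _ hne)
    ext q
    rw [mem_insert, mem_filter, mem_filter]
    constructor
    · rintro ⟨h1, h2⟩
      have h3 := le_max' (P.filter (fun q : ℕ => (q : ℝ) < z)) q (mem_filter.mpr ⟨h1, h2⟩)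
      rcases h3.lt_or_eq with h4 | h4
      · right
        exact ⟨h1, by exact_mod_cast h4⟩
      · left
        exact h4
    · rintro (h1 | ⟨h1, h2⟩)
      · rw [h1]
        exact hp
      · exact ⟨h1, h2.trans hp.2⟩

theorem PS_VP (P : Finset ℕ) (g : ℕ → ℝ) (z : ℝ) (p : ℕ)
    (hp : p ∉ P.filter (fun q : ℕ => (q : ℝ) < p))
    (h : P.filter (fun q : ℕ => (q : ℝ) < z) = insert p (P.filter (fun q : ℕ => (q : ℝ) < p))) :
    VP P g z = (1 - g p) * VP P g p := by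
  unfold VP
  rw [h, prod_insert hp]

theorem PS_tail {ψ : ℝ → ℝ} {a b : ℝ} (hab : a ≤ b) (hψ : AntitoneOn ψ (Set.Ici (a - 1)))
    (hi : IntegrableOn (fun t => ψ (t - 1)) (Set.Ioi a)) :
    (b - a) * ψ (b - 1) + ∫ t in Set.Ioi b, ψ (t - 1) ≤ ∫ t in Set.Ioi a, ψ (t - 1) := by
  have hi1 : IntegrableOn (fun t => ψ (t - 1)) (Set.Ioc a b) :=
    hi.mono_set Set.Ioc_subset_Ioi_self
  have hi2 : IntegrableOn (fun t => ψ (t - 1)) (Set.Ioi b) := hi.mono_set (Set.Ioi_subset_Ioi hab)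
  have h1 : ∫ t in Set.Ioi a, ψ (t - 1) =
      (∫ t in Set.Ioc a b, ψ (t - 1)) + ∫ t in Set.Ioi b, ψ (t - 1) := by
    rw [← Set.Ioc_union_Ioi_eq_Ioi hab]
    exact setIntegral_union Set.Ioc_disjoint_Ioi_same measurableSet_Ioi hi1 hi2
  rw [h1]
  have h2 : ∫ _t in Set.Ioc a b, ψ (b - 1) ≤ ∫ t in Set.Ioc a b, ψ (t - 1) := by
    refine setIntegral_mono_on ?_ hi1 measurableSet_Ioc fun t ht => ?_
    · exact integrableOn_const (by simp)
    · apply hψ
      · rw [Set.mem_Ici]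
        linarith [ht.1]
      · rw [Set.mem_Ici]
        linarith
      · linarith [ht.2]
  have h3 : ∫ _t in Set.Ioc a b, ψ (b - 1) = (b - a) * ψ (b - 1) := by
    rw [setIntegral_const, smul_eq_mul]
    congr 1
    rw [Real.volume_real_Ioc_of_le hab]
  linarith

/-- the auxiliary statement -/
theorem PS_aux (K : ℝ) (hK : 1 ≤ K) (P : Finset ℕ) (g : ℕ → ℝ)
    (hP : ∀ q ∈ P, 2 ≤ q ∧ 0 ≤ g q ∧ g q < 1) (hOm : Om K P g) (φ : ℝ → ℝ) (D z : ℝ) (hz : 2 ≤ z)
    (hD : 1 < D) (hφ : AntitoneOn φ (Set.Ici (Real.log D / Real.log z - 1)))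
    (hφ0 : ∀ x, Real.log D / Real.log z - 1 ≤ x → 0 ≤ φ x)
    (hφi : IntegrableOn (fun t => φ (t - 1)) (Set.Ioi (Real.log D / Real.log z))) :
    ∀ (n : ℕ) (y : ℝ), 2 ≤ y → y ≤ z → (P.filter (fun q : ℕ => (q : ℝ) < y)).card = n →
    ∑ q ∈ P.filter (fun q : ℕ => (q : ℝ) < y), g q * VP P g q * φ (Real.log D / Real.log q - 1) +
      VP P g y * φ (Real.log D / Real.log y - 1) ≤
      K * VP P g z / (Real.log D / Real.log z) *
        ((∫ t in Set.Ioi (Real.log D / Real.log y), φ (t - 1)) +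
          Real.log D / Real.log y * φ (Real.log D / Real.log y - 1)) := by
  have hlD : 0 < Real.log D := Real.log_pos hD
  have hlz : 0 < Real.log z := Real.log_pos (by linarith)
  obtain ⟨s, hs⟩ : ∃ s : ℝ, s = Real.log D / Real.log z := ⟨_, rfl⟩
  have hs0 : 0 < s := by rw [hs]; positivity
  rw [← hs] at hφ hφ0 hφi ⊢
  have hVz : 0 ≤ VP P g z := by
    unfold VP
    apply prod_nonneg
    intro q hq
    have := (hP q (mem_filter.mp hq).1).2.2
    linarith
  -- facts at a point y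
  have hfacts : ∀ y : ℝ, 2 ≤ y → y ≤ z → s ≤ Real.log D / Real.log y ∧
      VP P g y ≤ K * VP P g z / s * (Real.log D / Real.log y) ∧ 0 < Real.log y := by
    intro y hy hyz
    have hly : 0 < Real.log y := Real.log_pos (by linarith)
    have hlyz : Real.log y ≤ Real.log z := Real.log_le_log (by linarith) hyz
    refine ⟨?_, ?_, hly⟩
    · rw [hs]
      exact div_le_div_of_nonneg_left hlD.le hly hlyz
    · have h1 := hOm y z hy hyz
      refine h1.trans (le_of_eq ?_)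
      rw [hs]
      field_simp
  intro n
  induction n with
  | zero =>
    intro y hy hyz hcard
    rw [card_eq_zero] at hcard
    obtain ⟨h1, h2, h3⟩ := hfacts y hy hyz
    rw [hcard, sum_empty, zero_add]
    have h4 : 0 ≤ φ (Real.log D / Real.log y - 1) := hφ0 _ (by linarith)
    have h5 : 0 ≤ ∫ t in Set.Ioi (Real.log D / Real.log y), φ (t - 1) := by
      apply setIntegral_nonneg measurableSet_Ioi
      intro t ht
      apply hφ0
      have := Set.mem_Ioi.mp ht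
      linarith
    have h6 : 0 ≤ K * VP P g z / s := by positivity
    have h7 := mul_le_mul_of_nonneg_right h2 h4
    have h8 := mul_nonneg h6 h5
    rw [mul_add]
    linarith
  | succ n ih =>
    intro y hy hyz hcard
    have hne : (P.filter (fun q : ℕ => (q : ℝ) < y)).Nonempty := by
      rw [← card_pos]
      omega
    obtain ⟨p, hpP, hpy, hpn, hins⟩ := PS_split P y hne
    have hp2 : (2 : ℝ) ≤ p := by exact_mod_cast (hP p hpP).1
    have hpz : (p : ℝ) ≤ z := hpy.le.trans hyz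
    have hcard' : (P.filter (fun q : ℕ => (q : ℝ) < p)).card = n := by
      rw [hins, card_insert_of_notMem hpn] at hcard
      omega
    have hih := ih p hp2 hpz hcard'
    obtain ⟨h1, h2, h3⟩ := hfacts y hy hyz
    obtain ⟨h1', h2', h3'⟩ := hfacts p hp2 hpz
    have hVy : VP P g y = (1 - g p) * VP P g p := PS_VP P g y p hpn hins
    have hty : Real.log D / Real.log y ≤ Real.log D / Real.log p := by
      apply div_le_div_of_nonneg_left hlD.le h3'
      exact Real.log_le_log (by linarith) hpy.le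
    have hanti : AntitoneOn φ (Set.Ici (Real.log D / Real.log y - 1)) :=
      hφ.mono (Set.Ici_subset_Ici.mpr (by linarith))
    have hint : IntegrableOn (fun t => φ (t - 1)) (Set.Ioi (Real.log D / Real.log y)) :=
      hφi.mono_set (Set.Ioi_subset_Ioi h1)
    have htail := PS_tail hty hanti hint
    have hφle : φ (Real.log D / Real.log p - 1) ≤ φ (Real.log D / Real.log y - 1) := by
      apply hanti
      · rw [Set.mem_Ici]
      · rw [Set.mem_Ici]
        linarith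
      · linarith
    have h6 : 0 ≤ K * VP P g z / s := by positivity
    rw [hins, sum_insert hpn]
    have h7 : g p * VP P g p * φ (Real.log D / Real.log p - 1) +
        ∑ q ∈ P.filter (fun q : ℕ => (q : ℝ) < p),
          g q * VP P g q * φ (Real.log D / Real.log q - 1) +
        VP P g y * φ (Real.log D / Real.log y - 1) =
        (∑ q ∈ P.filter (fun q : ℕ => (q : ℝ) < p),
          g q * VP P g q * φ (Real.log D / Real.log q - 1) +
          VP P g p * φ (Real.log D / Real.log p - 1)) +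
        VP P g y * (φ (Real.log D / Real.log y - 1) - φ (Real.log D / Real.log p - 1)) := by
      rw [hVy]
      ring
    rw [h7]
    have h8 := mul_le_mul_of_nonneg_right h2 (sub_nonneg.mpr hφle)
    have h9 := mul_le_mul_of_nonneg_left htail h6
    nlinarith [hih, h8, h9]

/-- Let `s = log D/log z` and `φ ≥ 0` nonincreasing and integrable on `[s - 1, ∞)`.

Proof. Let `p_1 < ... < p_k` be the elements of `P` below `z`, `V_j = V(p_j)`, `V_{k+1} = V(z)`,
`t_j = log D/log p_j ≥ s` (decreasing in `j`), `φ_j = φ(t_j - 1)` (increasing in `j`). `g(p_j) V_j = V_j - V_{j+1}`, so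
the sum is `∑ (V_j - V_{j+1}) φ_j = V_1 φ_1 + ∑_{j ≥ 2} V_j (φ_j - φ_{j-1}) - V(z) φ_k`. By `Om`
`V_j ≤ K V(z) log z/log p_j = K V(z) t_j/s`; so it is at most
`(K V(z)/s) (t_1 φ_1 + ∑_{j≥2} t_j (φ_j - φ_{j-1})) - V(z) φ_k
= (K V(z)/s) (∑_{j<k} φ_j (t_j - t_{j+1}) + t_k φ_k) - V(z) φ_k`. As `φ` is nonincreasing
`φ_j (t_j - t_{j+1}) ≤ ∫_{t_{j+1}}^{t_j} φ(t - 1) dt`, and `(t_k - s) φ_k ≤ ∫_s^{t_k} φ(t-1) dt`. Total:
`(K V(z)/s) (∫_s^∞ φ(t-1) dt + s φ_k) - V(z) φ_k ≤ V(z) ((K/s) ∫_s^∞ φ(t-1) dt + (K - 1) φ(s-1))`.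
(One can do the same by induction on the number of elements of `P` below `z'` for the auxiliary
statement `∑_{p ∈ P, p < z'} (V(p) - V(p+)) φ + V(z') φ(z') ≤ (K V(z)/s)(∫_{t(z')}^∞ φ(t-1) dt + t(z') φ(z'))`,
`z' ≤ z`, `V(z)` fixed.) -/
theorem part_sum (K : ℝ) (hK : 1 ≤ K) (P : Finset ℕ) (g : ℕ → ℝ)
    (hP : ∀ q ∈ P, 2 ≤ q ∧ 0 ≤ g q ∧ g q < 1) (hOm : Om K P g) (φ : ℝ → ℝ) (D z : ℝ) (hz : 2 ≤ z)
    (hD : 1 < D) (hφ : AntitoneOn φ (Set.Ici (Real.log D / Real.log z - 1)))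
    (hφ0 : ∀ x, Real.log D / Real.log z - 1 ≤ x → 0 ≤ φ x)
    (hφi : IntegrableOn (fun t => φ (t - 1)) (Set.Ioi (Real.log D / Real.log z))) :
    ∑ q ∈ P.filter (fun q : ℕ => (q : ℝ) < z), g q * VP P g q * φ (Real.log D / Real.log q - 1) ≤
      VP P g z * (K / (Real.log D / Real.log z) *
        (∫ t in Set.Ioi (Real.log D / Real.log z), φ (t - 1)) +
        (K - 1) * φ (Real.log D / Real.log z - 1)) := by
  have hlD : 0 < Real.log D := Real.log_pos hD
  have hlz : 0 < Real.log z := Real.log_pos (by linarith)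
  have h := PS_aux K hK P g hP hOm φ D z hz hD hφ hφ0 hφi _ z hz (le_refl z) rfl
  have hs0 : 0 < Real.log D / Real.log z := by positivity
  have h2 : K * VP P g z / (Real.log D / Real.log z) *
        ((∫ t in Set.Ioi (Real.log D / Real.log z), φ (t - 1)) +
          Real.log D / Real.log z * φ (Real.log D / Real.log z - 1)) =
      VP P g z * (K / (Real.log D / Real.log z) *
        (∫ t in Set.Ioi (Real.log D / Real.log z), φ (t - 1)) +
        (K - 1) * φ (Real.log D / Real.log z - 1)) +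
      VP P g z * φ (Real.log D / Real.log z - 1) := by
    generalize (∫ t in Set.Ioi (Real.log D / Real.log z), φ (t - 1)) = I
    generalize φ (Real.log D / Real.log z - 1) = w
    generalize Real.log D / Real.log z = s at hs0 ⊢
    field_simp
    ring
  linarith

theorem PS_gV (P : Finset ℕ) (g : ℕ → ℝ) : ∀ (n : ℕ) (z : ℝ),
    (P.filter (fun q : ℕ => (q : ℝ) < z)).card = n →
    ∑ q ∈ P.filter (fun q : ℕ => (q : ℝ) < z), g q * VP P g q = 1 - VP P g z := by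
  intro n
  induction n with
  | zero =>
    intro z hcard
    rw [card_eq_zero] at hcard
    unfold VP
    rw [hcard]
    simp
  | succ n ih =>
    intro z hcard
    have hne : (P.filter (fun q : ℕ => (q : ℝ) < z)).Nonempty := by
      rw [← card_pos]
      omega
    obtain ⟨p, hpP, hpy, hpn, hins⟩ := PS_split P z hne
    have hcard' : (P.filter (fun q : ℕ => (q : ℝ) < p)).card = n := by
      rw [hins, card_insert_of_notMem hpn] at hcard
      omega
    rw [PS_VP P g z p hpn hins, hins, sum_insert hpn, ih p hcard']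
    ring

/-- `∑_{q < z} g(q) V(q) = 1 - V(z)` -/
theorem sum_gV (P : Finset ℕ) (g : ℕ → ℝ) (z : ℝ) :
    ∑ q ∈ P.filter (fun q : ℕ => (q : ℝ) < z), g q * VP P g q = 1 - VP P g z := by
  exact PS_gV P g _ z rfl

end Pool.Agent.Lib.H59C
end

-- from Lib.H59C.MER0
section

/-!
# MER0: Mertens' second theorem
-/

open Finset

namespace Pool.Agent.Lib.H59C

/-- The primes in `[u, v)`. -/
noncomputable def PR (u v : ℝ) : Finset ℕ :=
  open Classical in (range ⌈v⌉₊).filter (fun q : ℕ => q.Prime ∧ u ≤ (q : ℝ))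

theorem mem_PR {u v : ℝ} {q : ℕ} : q ∈ PR u v ↔ q.Prime ∧ u ≤ (q : ℝ) ∧ (q : ℝ) < v := by
  unfold PR
  rw [Finset.mem_filter, Finset.mem_range, Nat.lt_ceil]
  tauto

open Pool.Agent.Lib.Sieve (primesUpTo mem_primesUpTo sum_log_div_le)

theorem MER0_sq : ∃ B : ℝ, 0 ≤ B ∧ ∀ s : Finset ℕ, ∑ p ∈ s, Real.log p / (p : ℝ) ^ 2 ≤ B := by
  have hs : Summable (fun n : ℕ => 2 * (1 / (n : ℝ) ^ (3 / 2 : ℝ))) :=
    (Real.summable_one_div_nat_rpow.2 (by norm_num)).mul_left 2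
  refine ⟨∑' n : ℕ, 2 * (1 / (n : ℝ) ^ (3 / 2 : ℝ)), tsum_nonneg fun n => by positivity,
    fun s => ?_⟩
  refine (Finset.sum_le_sum fun p _ => ?_).trans (hs.sum_le_tsum s fun n _ => by positivity)
  rcases Nat.eq_zero_or_pos p with rfl | hp
  · simp
  · have hp0 : (0 : ℝ) < p := by exact_mod_cast hp
    have h1 := Real.log_le_rpow_div hp0.le (show (0 : ℝ) < 1 / 2 by norm_num)
    have h2 : (p : ℝ) ^ 2 = (p : ℝ) ^ (3 / 2 : ℝ) * (p : ℝ) ^ (1 / 2 : ℝ) := by
      rw [← Real.rpow_add hp0]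
      norm_num
    rw [h2, div_le_iff₀ (by positivity)]
    have h3 : (0 : ℝ) < (p : ℝ) ^ (3 / 2 : ℝ) := by positivity
    calc Real.log p ≤ (p : ℝ) ^ (1 / 2 : ℝ) / (1 / 2) := h1
      _ = 2 * (1 / (p : ℝ) ^ (3 / 2 : ℝ)) * ((p : ℝ) ^ (3 / 2 : ℝ) * (p : ℝ) ^ (1 / 2 : ℝ)) := by
        field_simp

theorem MER0_fac (n : ℕ) (hn : 1 ≤ n) : n * Real.log n - n ≤ Real.log (n.factorial : ℝ) := by
  have hn0 : (0 : ℝ) < n := by exact_mod_cast hn
  have h1 := Real.pow_div_factorial_le_exp (n : ℝ) hn0.le n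
  have h2 : (0 : ℝ) < n.factorial := by exact_mod_cast n.factorial_pos
  have h3 := Real.log_le_log (by positivity) h1
  rw [Real.log_exp, Real.log_div (by positivity) h2.ne', Real.log_pow] at h3
  linarith

theorem MER0_val (n p : ℕ) (hp : p.Prime) :
    (n.factorial.factorization p : ℝ) ≤ n / ((p : ℝ) - 1) := by
  haveI : Fact p.Prime := ⟨hp⟩
  have h1 := sub_one_mul_padicValNat_factorial (p := p) n
  rw [Nat.factorization_def _ hp]
  have h2 : (p - 1) * padicValNat p n.factorial ≤ n := by omega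
  have hp1 : (1 : ℝ) < p := by exact_mod_cast hp.one_lt
  rw [le_div_iff₀ (by linarith)]
  have h3 : ((p - 1 : ℕ) : ℝ) * (padicValNat p n.factorial : ℝ) ≤ n := by exact_mod_cast h2
  rw [Nat.cast_sub hp.one_le] at h3
  push_cast at h3
  linarith

theorem MER0_logfac (n : ℕ) : Real.log (n.factorial : ℝ) =
    ∑ p ∈ primesUpTo n, (n.factorial.factorization p : ℝ) * Real.log p := by
  have h0 : n.factorial ≠ 0 := n.factorial_ne_zero
  have h1 : ∏ p ∈ primesUpTo n, p ^ n.factorial.factorization p = n.factorial := by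
    conv_rhs => rw [← Nat.prod_factorization_pow_eq_self h0]
    symm
    apply Finsupp.prod_of_support_subset
    · intro p hp
      rw [Nat.support_factorization, Nat.mem_primeFactors] at hp
      rw [mem_primesUpTo]
      exact ⟨hp.1, (hp.1.dvd_factorial).1 hp.2.1⟩
    · intro p _
      exact pow_zero p
  conv_lhs => rw [← h1]
  push_cast
  rw [Real.log_prod]
  · exact Finset.sum_congr rfl fun p _ => Real.log_pow _ _
  · intro p hp
    have : (p : ℝ) ≠ 0 := by exact_mod_cast (mem_primesUpTo.1 hp).1.ne_zero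
    positivity

theorem MER0_lower : ∃ C : ℝ, 0 ≤ C ∧ ∀ n : ℕ, 1 ≤ n →
    Real.log n - C ≤ ∑ p ∈ primesUpTo n, Real.log p / p := by
  obtain ⟨B, hB, hB1⟩ := MER0_sq
  refine ⟨1 + 2 * B, by linarith, fun n hn => ?_⟩
  have hn0 : (0 : ℝ) < n := by exact_mod_cast hn
  have h1 := MER0_fac n hn
  rw [MER0_logfac] at h1
  have h2 : ∑ p ∈ primesUpTo n, (n.factorial.factorization p : ℝ) * Real.log p ≤
      ∑ p ∈ primesUpTo n, (n * (Real.log p / p) + n * (2 * (Real.log p / (p : ℝ) ^ 2))) := by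
    refine Finset.sum_le_sum fun p hp => ?_
    have hp' := (mem_primesUpTo.1 hp).1
    have hp2 : (2 : ℝ) ≤ p := by exact_mod_cast hp'.two_le
    have hlog : 0 ≤ Real.log p := Real.log_nonneg (by linarith)
    have h3 := mul_le_mul_of_nonneg_right (MER0_val n p hp') hlog
    refine h3.trans ?_
    have h4 : (n : ℝ) / ((p : ℝ) - 1) ≤ n / p + n * (2 / (p : ℝ) ^ 2) := by
      rw [div_le_iff₀ (by linarith)]
      have h5 : (n : ℝ) / p + n * (2 / (p : ℝ) ^ 2) = n * ((p + 2) / (p : ℝ) ^ 2) := by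
        field_simp
      rw [h5, mul_assoc]
      have h6 : 1 ≤ ((p : ℝ) + 2) / (p : ℝ) ^ 2 * (p - 1) := by
        rw [div_mul_eq_mul_div, le_div_iff₀ (by positivity)]
        nlinarith
      nlinarith
    calc (n : ℝ) / ((p : ℝ) - 1) * Real.log p ≤ (n / p + n * (2 / (p : ℝ) ^ 2)) * Real.log p :=
          mul_le_mul_of_nonneg_right h4 hlog
      _ = _ := by ring
  rw [Finset.sum_add_distrib, ← Finset.mul_sum, ← Finset.mul_sum, ← Finset.mul_sum] at h2
  have h3 := hB1 (primesUpTo n)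
  have h4 : (n : ℝ) * Real.log n - n ≤ n * ∑ p ∈ primesUpTo n, Real.log p / p + n * (2 * B) := by
    have : (n : ℝ) * (2 * ∑ p ∈ primesUpTo n, Real.log p / (p : ℝ) ^ 2) ≤ n * (2 * B) := by
      gcongr
    linarith
  have h5 : (n : ℝ) * (Real.log n - (1 + 2 * B)) ≤ n * ∑ p ∈ primesUpTo n, Real.log p / p := by
    linarith
  exact le_of_mul_le_mul_left h5 hn0

/-- the coefficients -/
noncomputable def MER0_c (n : ℕ) : ℝ := open Classical in if n.Prime then Real.log n / n else 0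

theorem MER0_sumc (n : ℕ) : ∑ k ∈ Icc 0 n, MER0_c k = ∑ p ∈ primesUpTo n, Real.log p / p := by
  unfold primesUpTo
  rw [Finset.sum_filter]
  have : Icc 0 n = range (n + 1) := by
    ext k; simp
  rw [this]
  unfold MER0_c
  refine Finset.sum_congr rfl fun k _ => ?_
  split_ifs <;> rfl

theorem MER0_first : ∃ C : ℝ, 0 < C ∧ ∀ t : ℝ, 1 ≤ t →
    |∑ k ∈ Icc 0 ⌊t⌋₊, MER0_c k - Real.log t| ≤ C := by
  obtain ⟨C, hC, h⟩ := MER0_lower
  refine ⟨C + Real.log 4 + 2, by positivity, fun t ht => ?_⟩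
  rw [MER0_sumc]
  have hn : 1 ≤ ⌊t⌋₊ := (Nat.one_le_floor_iff t).2 ht
  have hn0 : (1 : ℝ) ≤ ⌊t⌋₊ := by exact_mod_cast hn
  have h1 := h ⌊t⌋₊ hn
  have h2 := sum_log_div_le ⌊t⌋₊ hn
  have h3 : Real.log (⌊t⌋₊ : ℝ) ≤ Real.log t :=
    Real.log_le_log (by linarith) (Nat.floor_le (by linarith))
  have h4 : Real.log t ≤ Real.log (⌊t⌋₊ : ℝ) + 1 := by
    have h5 : t ≤ ⌊t⌋₊ * 2 := by
      have := Nat.lt_floor_add_one t
      linarith
    have h6 := Real.log_le_log (by linarith) h5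
    rw [Real.log_mul (by linarith) (by norm_num)] at h6
    have h7 : Real.log 2 ≤ 1 := by
      have := Real.log_two_lt_d9
      linarith
    linarith
  have h8 : 0 ≤ Real.log 4 := Real.log_nonneg (by norm_num)
  rw [abs_le]
  constructor <;> linarith

open MeasureTheory in
theorem MER0_abel : ∃ C : ℝ, 0 < C ∧ ∀ u v : ℝ, 2 ≤ u → u ≤ v →
    |∑ k ∈ Ioc ⌊u⌋₊ ⌊v⌋₊, (1 / Real.log k) * MER0_c k -
      (Real.log (Real.log v) - Real.log (Real.log u))| ≤ C / Real.log u := by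
  obtain ⟨C, hC, h⟩ := MER0_first
  refine ⟨2 * C, by linarith, fun u v hu huv => ?_⟩
  have hd : ∀ t : ℝ, 1 < t → HasDerivAt (fun x => 1 / Real.log x) (-(1 / (t * Real.log t ^ 2))) t := by
    intro t ht
    have h0 : Real.log t ≠ 0 := (Real.log_pos ht).ne'
    have h1 := (Real.hasDerivAt_log (show t ≠ 0 by linarith)).inv h0
    have h2 : (fun x => 1 / Real.log x) = fun x => (Real.log x)⁻¹ := by
      ext x; rw [one_div]
    have h3 : -(1 / (t * Real.log t ^ 2)) = -t⁻¹ / Real.log t ^ 2 := by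
      rw [one_div, mul_inv, neg_div, div_eq_mul_inv]
    rw [h2, h3]
    exact h1
  have hdd : ∀ t : ℝ, 1 < t → HasDerivAt (fun x => Real.log (Real.log x)) (1 / (t * Real.log t)) t := by
    intro t ht
    have h0 : Real.log t ≠ 0 := (Real.log_pos ht).ne'
    have h1 := (Real.hasDerivAt_log (show t ≠ 0 by linarith)).log h0
    have h2 : 1 / (t * Real.log t) = t⁻¹ / Real.log t := by
      rw [one_div, mul_inv, div_eq_mul_inv]
    rw [h2]
    exact h1
  have hder : ∀ t : ℝ, 1 < t → deriv (fun x => 1 / Real.log x) t = -(1 / (t * Real.log t ^ 2)) :=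
    fun t ht => (hd t ht).deriv
  have hcont : ContinuousOn (fun t : ℝ => -(1 / (t * Real.log t ^ 2))) (Set.Icc u v) := by
    refine ContinuousOn.neg (ContinuousOn.div continuousOn_const ?_ ?_)
    · exact continuousOn_id.mul ((Real.continuousOn_log.mono (by
        intro t ht
        have := ht.1
        simp only [Set.mem_compl_iff, Set.mem_singleton_iff]
        linarith)).pow 2)
    · intro t ht
      have h1 : 1 < t := by have := ht.1; linarith
      have := Real.log_pos h1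
      positivity
  have hcont2 : ContinuousOn (fun t : ℝ => 1 / (t * Real.log t)) (Set.Icc u v) := by
    refine ContinuousOn.div continuousOn_const ?_ ?_
    · exact continuousOn_id.mul (Real.continuousOn_log.mono (by
        intro t ht
        have := ht.1
        simp only [Set.mem_compl_iff, Set.mem_singleton_iff]
        linarith))
    · intro t ht
      have h1 : 1 < t := by have := ht.1; linarith
      have := Real.log_pos h1
      positivity
  have hint : IntegrableOn (deriv (fun x : ℝ => 1 / Real.log x)) (Set.Icc u v) := by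
    refine (hcont.integrableOn_Icc).congr_fun ?_ measurableSet_Icc
    intro t ht
    rw [hder t (by have := ht.1; linarith)]
  have hab := sum_mul_eq_sub_sub_integral_mul MER0_c (f := fun x : ℝ => 1 / Real.log x)
    (a := u) (b := v) (by linarith) huv
    (fun t ht => (hd t (by have := ht.1; linarith)).differentiableAt) hint
  have hint2 := integrableOn_mul_sum_Icc (m := 0) MER0_c (a := u) (b := v) (by linarith) hint
  rw [hab]
  -- the two boundary terms
  have hlu : 0 < Real.log u := Real.log_pos (by linarith)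
  have hlv : 0 < Real.log v := Real.log_pos (by linarith)
  have hluv : Real.log u ≤ Real.log v := Real.log_le_log (by linarith) huv
  -- integrals
  have i1 : ∫ t in Set.Ioc u v, 1 / (t * Real.log t) =
      Real.log (Real.log v) - Real.log (Real.log u) := by
    rw [← intervalIntegral.integral_of_le huv]
    refine intervalIntegral.integral_eq_sub_of_hasDerivAt (f := fun x => Real.log (Real.log x))
      (fun t ht => hdd t ?_) ?_
    · rw [Set.uIcc_of_le huv] at ht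
      have := ht.1
      linarith
    · rw [intervalIntegrable_iff_integrableOn_Ioc_of_le huv]
      exact hcont2.integrableOn_Icc.mono_set Set.Ioc_subset_Icc_self
  have i2 : ∫ t in Set.Ioc u v, C * -(-(1 / (t * Real.log t ^ 2))) =
      C * (1 / Real.log u - 1 / Real.log v) := by
    rw [integral_const_mul, integral_neg, ← intervalIntegral.integral_of_le huv,
      intervalIntegral.integral_eq_sub_of_hasDerivAt (f := fun x => 1 / Real.log x)]
    · ring
    · intro t ht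
      rw [Set.uIcc_of_le huv] at ht
      have := ht.1
      exact hd t (by linarith)
    · rw [intervalIntegrable_iff_integrableOn_Ioc_of_le huv]
      exact hcont.integrableOn_Icc.mono_set Set.Ioc_subset_Icc_self
  have i3 : |∫ t in Set.Ioc u v, (deriv (fun x : ℝ => 1 / Real.log x) t *
      ∑ k ∈ Icc 0 ⌊t⌋₊, MER0_c k + 1 / (t * Real.log t))| ≤ C * (1 / Real.log u - 1 / Real.log v) := by
    rw [← i2, ← Real.norm_eq_abs]
    refine norm_integral_le_of_norm_le ?_ ?_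
    · exact ((hcont.integrableOn_Icc.mono_set Set.Ioc_subset_Icc_self).neg).const_mul C
    · rw [ae_restrict_iff' measurableSet_Ioc]
      refine ae_of_all _ fun t ht => ?_
      have ht1 : 1 < t := by have := ht.1; linarith
      have hl := Real.log_pos ht1
      rw [hder t ht1, Real.norm_eq_abs]
      have e : -(1 / (t * Real.log t ^ 2)) * ∑ k ∈ Icc 0 ⌊t⌋₊, MER0_c k + 1 / (t * Real.log t) =
          -(1 / (t * Real.log t ^ 2)) * (∑ k ∈ Icc 0 ⌊t⌋₊, MER0_c k - Real.log t) := by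
        field_simp
        ring
      rw [e, abs_mul, abs_neg, abs_of_pos (by positivity), neg_neg, mul_comm C]
      exact mul_le_mul_of_nonneg_left (h t ht1.le) (by positivity)
  rw [integral_add (hint2.mono_set Set.Ioc_subset_Icc_self)
    (hcont2.integrableOn_Icc.mono_set Set.Ioc_subset_Icc_self), i1] at i3
  have b1 := h u (by linarith)
  have b2 := h v (by linarith)
  rw [abs_le] at b1 b2 i3
  have c1 : |1 / Real.log v * ∑ k ∈ Icc 0 ⌊v⌋₊, MER0_c k - 1| ≤ C / Real.log v := by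
    have e : 1 / Real.log v * ∑ k ∈ Icc 0 ⌊v⌋₊, MER0_c k - 1 =
        (∑ k ∈ Icc 0 ⌊v⌋₊, MER0_c k - Real.log v) / Real.log v := by field_simp
    rw [e, abs_div, abs_of_pos hlv]
    exact div_le_div_of_nonneg_right (h v (by linarith)) hlv.le
  have c2 : |1 / Real.log u * ∑ k ∈ Icc 0 ⌊u⌋₊, MER0_c k - 1| ≤ C / Real.log u := by
    have e : 1 / Real.log u * ∑ k ∈ Icc 0 ⌊u⌋₊, MER0_c k - 1 =
        (∑ k ∈ Icc 0 ⌊u⌋₊, MER0_c k - Real.log u) / Real.log u := by field_simp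
    rw [e, abs_div, abs_of_pos hlu]
    exact div_le_div_of_nonneg_right (h u (by linarith)) hlu.le
  rw [abs_le] at c1 c2 ⊢
  have e1 : C * (1 / Real.log u - 1 / Real.log v) = C / Real.log u - C / Real.log v := by ring
  have e2 : 2 * C / Real.log u = C / Real.log u + C / Real.log u := by ring
  rw [e1] at i3
  rw [e2]
  constructor <;> linarith [i3.1, i3.2, c1.1, c1.2, c2.1, c2.2]

/-- **Mertens.** `∑_{u ≤ q < v} 1/q = log log v - log log u + O(1/log u)`.

Proof. `∑_{n ≤ x} Λ(n)/n = log x + O(1)` (from `∑_{n ≤ x} Λ(n) ⌊x/n⌋ = log ⌊x⌋!`, Stirling, and Chebyshev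
`ψ(x) ≤ C x`, `Chebyshev.psi_le_const_mul_self`), hence `∑_{q ≤ x} log q/q = log x + O(1)`, and partial summation
with `1/log q`. -/
theorem mertens : ∃ C : ℝ, 0 < C ∧ ∀ u v : ℝ, 2 ≤ u → u ≤ v →
    |∑ q ∈ PR u v, 1 / (q : ℝ) - (Real.log (Real.log v) - Real.log (Real.log u))| ≤
      C / Real.log u := by
  classical
  obtain ⟨C, hC, h⟩ := MER0_abel
  refine ⟨C + 2, by linarith, fun u v hu huv => ?_⟩
  have hlu : 0 < Real.log u := Real.log_pos (by linarith)
  have h1 : ∑ k ∈ Ioc ⌊u⌋₊ ⌊v⌋₊, (1 / Real.log k) * MER0_c k =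
      ∑ k ∈ (Ioc ⌊u⌋₊ ⌊v⌋₊).filter Nat.Prime, 1 / (k : ℝ) := by
    rw [Finset.sum_filter]
    refine Finset.sum_congr rfl fun k _ => ?_
    unfold MER0_c
    split_ifs with hk
    · have h2 : (1 : ℝ) < k := by exact_mod_cast hk.one_lt
      have h3 := (Real.log_pos h2).ne'
      field_simp
    · rw [mul_zero]
  have h2 := h u v hu huv
  rw [h1] at h2
  have hle1 : ∑ q ∈ PR u v, 1 / (q : ℝ) ≤
      ∑ k ∈ (Ioc ⌊u⌋₊ ⌊v⌋₊).filter Nat.Prime, 1 / (k : ℝ) + 1 / u := by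
    have hsub : PR u v ⊆ insert ⌊u⌋₊ ((Ioc ⌊u⌋₊ ⌊v⌋₊).filter Nat.Prime) := by
      intro q hq
      rw [mem_PR] at hq
      rw [Finset.mem_insert, Finset.mem_filter, Finset.mem_Ioc]
      by_cases hqu : q ≤ ⌊u⌋₊
      · left
        have h3 : (⌊u⌋₊ : ℝ) ≤ q := (Nat.floor_le (by linarith)).trans hq.2.1
        have h4 : ⌊u⌋₊ ≤ q := by exact_mod_cast h3
        omega
      · right
        refine ⟨⟨by omega, Nat.le_floor hq.2.2.le⟩, hq.1⟩
    by_cases hmem : ⌊u⌋₊ ∈ PR u v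
    · refine (Finset.sum_le_sum_of_subset_of_nonneg hsub fun k _ _ => by positivity).trans ?_
      rw [Finset.sum_insert (by simp)]
      have h3 := (mem_PR.1 hmem).2.1
      have h4 : 1 / (⌊u⌋₊ : ℝ) ≤ 1 / u := one_div_le_one_div_of_le (by linarith) h3
      linarith
    · have hsub' : PR u v ⊆ (Ioc ⌊u⌋₊ ⌊v⌋₊).filter Nat.Prime := by
        intro q hq
        rcases Finset.mem_insert.1 (hsub hq) with h3 | h3
        · exact absurd (h3 ▸ hq) hmem
        · exact h3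
      have h3 := Finset.sum_le_sum_of_subset_of_nonneg (f := fun k : ℕ => 1 / (k : ℝ)) hsub'
        fun k _ _ => by positivity
      have h4 : 0 ≤ 1 / u := by positivity
      linarith
  have hle2 : ∑ k ∈ (Ioc ⌊u⌋₊ ⌊v⌋₊).filter Nat.Prime, 1 / (k : ℝ) ≤
      ∑ q ∈ PR u v, 1 / (q : ℝ) + 1 / u := by
    have hsub : (Ioc ⌊u⌋₊ ⌊v⌋₊).filter Nat.Prime ⊆ insert ⌊v⌋₊ (PR u v) := by
      intro q hq
      rw [Finset.mem_filter, Finset.mem_Ioc] at hq
      rw [Finset.mem_insert, mem_PR]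
      by_cases hqv : (q : ℝ) < v
      · right
        exact ⟨hq.2, (Nat.lt_of_floor_lt hq.1.1).le, hqv⟩
      · left
        have h3 : (q : ℝ) ≤ v := (Nat.le_floor_iff (by linarith)).1 hq.1.2
        have h4 : (q : ℝ) = v := le_antisymm h3 (not_lt.1 hqv)
        rw [← h4, Nat.floor_natCast]
    by_cases hmem : ⌊v⌋₊ ∈ (Ioc ⌊u⌋₊ ⌊v⌋₊).filter Nat.Prime
    · refine (Finset.sum_le_sum_of_subset_of_nonneg hsub fun k _ _ => by positivity).trans ?_
      have h5 : 1 / (⌊v⌋₊ : ℝ) ≤ 1 / u := by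
        refine one_div_le_one_div_of_le (by linarith) ?_
        exact (Nat.lt_of_floor_lt (Finset.mem_Ioc.1 (Finset.mem_filter.1 hmem).1).1).le
      by_cases h6 : ⌊v⌋₊ ∈ PR u v
      · rw [Finset.insert_eq_of_mem h6]
        have : 0 ≤ 1 / u := by positivity
        linarith
      · rw [Finset.sum_insert h6]
        linarith
    · have hsub' : (Ioc ⌊u⌋₊ ⌊v⌋₊).filter Nat.Prime ⊆ PR u v := by
        intro q hq
        rcases Finset.mem_insert.1 (hsub hq) with h3 | h3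
        · exact absurd (h3 ▸ hq) hmem
        · exact h3
      have h3 := Finset.sum_le_sum_of_subset_of_nonneg (f := fun k : ℕ => 1 / (k : ℝ)) hsub'
        fun k _ _ => by positivity
      have h4 : 0 ≤ 1 / u := by positivity
      linarith
  have h3 : 1 / u ≤ 2 / Real.log u := by
    rw [div_le_div_iff₀ (by linarith) hlu]
    have := Real.log_le_sub_one_of_pos (show (0 : ℝ) < u by linarith)
    linarith
  rw [abs_le] at h2 ⊢
  have e : (C + 2) / Real.log u = C / Real.log u + 2 / Real.log u := by ring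
  rw [e]
  constructor <;> linarith [h2.1, h2.2]

end Pool.Agent.Lib.H59C
end

-- from Lib.H59C.MER2
section

/-!
# MER2: ratio of two sifting products
-/

open Finset

namespace Pool.Agent.Lib.H59C

theorem MER2_card (n N : ℕ) (z : ℝ) (hn : 2 ≤ n) (hN : 0 < N) (hNn : N ≤ n ^ 3)
    (hz : (n : ℝ) ^ (1 / 20 : ℝ) ≤ z) :
    (N.primeFactors.filter (fun q : ℕ => z ≤ (q : ℝ))).card ≤ 60 := by
  classical
  set T := N.primeFactors.filter (fun q : ℕ => z ≤ (q : ℝ)) with hT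
  have hn1 : (1 : ℝ) < n := by exact_mod_cast (show 1 < n by omega)
  have hy : (1 : ℝ) < (n : ℝ) ^ (1 / 20 : ℝ) := Real.one_lt_rpow hn1 (by norm_num)
  have h1 : ∏ q ∈ T, q ∣ N := by
    refine (Finset.prod_dvd_prod_of_subset _ _ _ (Finset.filter_subset _ _)).trans ?_
    exact Nat.prod_primeFactors_dvd N
  have h2 : ∏ q ∈ T, q ≤ n ^ 3 := (Nat.le_of_dvd hN h1).trans hNn
  have h3 : ((n : ℝ) ^ (1 / 20 : ℝ)) ^ T.card ≤ ((∏ q ∈ T, q : ℕ) : ℝ) := by
    rw [Nat.cast_prod, ← Finset.prod_const]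
    refine Finset.prod_le_prod (fun q _ => by positivity) fun q hq => ?_
    exact hz.trans (Finset.mem_filter.1 hq).2
  have h4 : ((∏ q ∈ T, q : ℕ) : ℝ) ≤ (n : ℝ) ^ 3 := by exact_mod_cast h2
  have h5 : (n : ℝ) ^ 3 = ((n : ℝ) ^ (1 / 20 : ℝ)) ^ 60 := by
    rw [← Real.rpow_natCast ((n : ℝ) ^ (1 / 20 : ℝ)), ← Real.rpow_mul (by linarith),
      ← Real.rpow_natCast]
    norm_num
  rw [h5] at h4
  exact (pow_le_pow_iff_right₀ hy).1 (h3.trans h4)

/-- `n` large. -/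
theorem MER2_large (C δ : ℝ) (hC : 0 < C) (hδ : 0 < δ) : ∃ n0 : ℕ, ∀ n : ℕ, n0 ≤ n → 2 ≤ n ∧
    ∀ z : ℝ, (n : ℝ) ^ (1 / 20 : ℝ) ≤ z → 4 ≤ z ∧ C / Real.log z ≤ δ := by
  refine ⟨⌈Real.exp (20 * (C / δ + 2))⌉₊, fun n hn => ?_⟩
  have h1 : Real.exp (20 * (C / δ + 2)) ≤ n := (Nat.le_ceil _).trans (by exact_mod_cast hn)
  have hn0 : (0 : ℝ) < n := (Real.exp_pos _).trans_le h1
  have h2 : 20 * (C / δ + 2) ≤ Real.log n := (Real.le_log_iff_exp_le hn0).2 h1
  have hcd : 0 < C / δ := by positivity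
  have h3 : 2 ≤ n := by
    have h4 : (20 * (C / δ + 2)) + 1 ≤ n := (Real.add_one_le_exp _).trans h1
    have h5 : (2 : ℝ) ≤ n := by linarith
    exact_mod_cast h5
  refine ⟨h3, fun z hz => ?_⟩
  have h4 : Real.log ((n : ℝ) ^ (1 / 20 : ℝ)) = 1 / 20 * Real.log n := Real.log_rpow hn0 _
  have h5 : C / δ + 2 ≤ Real.log z := by
    have h6 := Real.log_le_log (by positivity) hz
    rw [h4] at h6
    linarith
  have hz0 : 0 < z := (show (0 : ℝ) < (n : ℝ) ^ (1 / 20 : ℝ) by positivity).trans_le hz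
  constructor
  · have h6 : Real.exp 2 ≤ z := (Real.le_log_iff_exp_le hz0).1 (by linarith)
    have h7 : (4 : ℝ) ≤ Real.exp 2 := by
      have h8 := Real.add_one_le_exp (1 : ℝ)
      have h9 : Real.exp 2 = Real.exp 1 * Real.exp 1 := by rw [← Real.exp_add]; norm_num
      rw [h9]
      nlinarith
    linarith
  · rw [div_le_iff₀ (by linarith)]
    have h6 : C = δ * (C / δ) := by field_simp
    nlinarith

/-- Upper bound of `V(z')` by `V(z)`, when `P` contains all primes in `[z, z')` not dividing `N`.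

Proof. `V(z')/V(z) = ∏_{q ∈ P, z ≤ q < z'} (1 - 1/(q-1)) ≤ ∏_{z ≤ q < z'} (1 - 1/q) · ∏_{q ∣ N, q ≥ z} (1 - 1/q)⁻¹`; at
most `60` primes `≥ z ≥ n^(1/20)` divide `N ≤ n^3`, so the last product is `≤ (1 - 1/z)^(-60) ≤ 1 + ε/3`, and the first
one is `≤ exp (-∑ 1/q) ≤ (log z/log z') exp (C/log z)` (`mertens`). -/
theorem ratio_VV (ε : ℝ) (hε : 0 < ε) : ∃ n0 : ℕ, ∀ n : ℕ, n0 ≤ n → ∀ (P : Finset ℕ) (N : ℕ)
    (z z' : ℝ), 0 < N → N ≤ n ^ 3 → (n : ℝ) ^ (1 / 20 : ℝ) ≤ z → z ≤ z' → z' ≤ n →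
    (∀ q ∈ P, q.Prime ∧ 3 ≤ q) → (∀ q : ℕ, q.Prime → z ≤ q → (q : ℝ) < z' → q ∈ P ∨ q ∣ N) →
    VV P z' ≤ (1 + ε) * (Real.log z / Real.log z') * VV P z := by
  classical
  obtain ⟨C, hC, hmer⟩ := mertens
  obtain ⟨n0, hn0⟩ := MER2_large (C + 60) (Real.log (1 + ε)) (by linarith)
    (Real.log_pos (by linarith))
  refine ⟨n0, fun n hn P N z z' hN hNn hz hzz _ hP hPN => ?_⟩
  obtain ⟨hn2, hlarge⟩ := hn0 n hn
  obtain ⟨hz4, hzC⟩ := hlarge z hz
  have hlz : 0 < Real.log z := Real.log_pos (by linarith)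
  have hlz' : 0 < Real.log z' := Real.log_pos (by linarith)
  -- positivity of the factors
  have hfac : ∀ q ∈ P, 0 < 1 - gq q ∧ 1 - gq q ≤ Real.exp (-(1 / (q : ℝ))) := by
    intro q hq
    have h3 : (3 : ℝ) ≤ q := by exact_mod_cast (hP q hq).2
    unfold gq
    have h4 : 1 / ((q : ℝ) - 1) ≤ 1 / 2 := one_div_le_one_div_of_le (by norm_num) (by linarith)
    have h5 : 1 / (q : ℝ) ≤ 1 / ((q : ℝ) - 1) := one_div_le_one_div_of_le (by linarith) (by linarith)
    have h6 := Real.add_one_le_exp (-(1 / (q : ℝ)))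
    constructor <;> linarith
  set T := P.filter (fun q : ℕ => z ≤ (q : ℝ) ∧ (q : ℝ) < z') with hT
  have hsplit : VV P z' = VV P z * ∏ q ∈ T, (1 - gq q) := by
    unfold VV VP
    rw [← Finset.prod_union]
    · refine Finset.prod_congr ?_ fun q _ => rfl
      ext q
      rw [Finset.mem_union, hT, Finset.mem_filter, Finset.mem_filter, Finset.mem_filter]
      constructor
      · rintro ⟨h3, h4⟩
        rcases lt_or_ge (q : ℝ) z with h5 | h5
        · exact Or.inl ⟨h3, h5⟩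
        · exact Or.inr ⟨h3, h5, h4⟩
      · rintro (⟨h3, h4⟩ | ⟨h3, h4, h5⟩)
        · exact ⟨h3, h4.trans_le hzz⟩
        · exact ⟨h3, h5⟩
    · rw [Finset.disjoint_left]
      intro q h3 h4
      rw [hT, Finset.mem_filter] at h4
      exact absurd (Finset.mem_filter.1 h3).2 (not_lt.2 h4.2.1)
  have hV0 : 0 ≤ VV P z := by
    unfold VV VP
    exact Finset.prod_nonneg fun q hq => (hfac q (Finset.mem_filter.1 hq).1).1.le
  have hR : ∏ q ∈ T, (1 - gq q) ≤ Real.exp (-∑ q ∈ T, 1 / (q : ℝ)) := by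
    rw [← Finset.sum_neg_distrib, Real.exp_sum]
    exact Finset.prod_le_prod (fun q hq => (hfac q (Finset.mem_filter.1 hq).1).1.le)
      fun q hq => (hfac q (Finset.mem_filter.1 hq).1).2
  set U := N.primeFactors.filter (fun q : ℕ => z ≤ (q : ℝ)) with hU
  have hUcard := MER2_card n N z hn2 hN hNn hz
  have hUsum : ∑ q ∈ U, 1 / (q : ℝ) ≤ 60 / Real.log z := by
    have h3 : ∑ q ∈ U, 1 / (q : ℝ) ≤ ∑ q ∈ U, 1 / Real.log z := by
      refine Finset.sum_le_sum fun q hq => one_div_le_one_div_of_le hlz ?_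
      have h4 := (Finset.mem_filter.1 hq).2
      have h5 := Real.log_le_sub_one_of_pos (show (0 : ℝ) < z by linarith)
      linarith
    refine h3.trans ?_
    rw [Finset.sum_const, nsmul_eq_mul, mul_one_div]
    refine div_le_div_of_nonneg_right ?_ hlz.le
    exact_mod_cast hUcard
  have hsum : ∑ q ∈ PR z z', 1 / (q : ℝ) ≤ ∑ q ∈ T, 1 / (q : ℝ) + ∑ q ∈ U, 1 / (q : ℝ) := by
    have hsub : PR z z' ⊆ T ∪ U := by
      intro q hq
      rw [mem_PR] at hq
      rw [Finset.mem_union, hT, hU, Finset.mem_filter, Finset.mem_filter, Nat.mem_primeFactors]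
      rcases hPN q hq.1 hq.2.1 hq.2.2 with h3 | h3
      · exact Or.inl ⟨h3, hq.2.1, hq.2.2⟩
      · exact Or.inr ⟨⟨hq.1, h3, hN.ne'⟩, hq.2.1⟩
    refine (Finset.sum_le_sum_of_subset_of_nonneg hsub fun q _ _ => by positivity).trans ?_
    have h3 := Finset.sum_union_inter (s₁ := T) (s₂ := U) (f := fun q : ℕ => 1 / (q : ℝ))
    have h4 : 0 ≤ ∑ q ∈ T ∩ U, 1 / (q : ℝ) := Finset.sum_nonneg fun q _ => by positivity
    linarith
  have hm := hmer z z' (by linarith) hzz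
  rw [abs_le] at hm
  have h7 : -∑ q ∈ T, 1 / (q : ℝ) ≤
      Real.log (Real.log z) - Real.log (Real.log z') + Real.log (1 + ε) := by
    have e : (C + 60) / Real.log z = C / Real.log z + 60 / Real.log z := by ring
    rw [e] at hzC
    linarith [hm.1, hm.2]
  have h8 : ∏ q ∈ T, (1 - gq q) ≤ (1 + ε) * (Real.log z / Real.log z') := by
    refine (hR.trans (Real.exp_le_exp.2 h7)).trans (le_of_eq ?_)
    rw [Real.exp_add, Real.exp_sub, Real.exp_log hlz, Real.exp_log hlz',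
      Real.exp_log (by linarith)]
    ring
  rw [hsplit, mul_comm]
  exact mul_le_mul_of_nonneg_right h8 hV0

end Pool.Agent.Lib.H59C
end

-- from Lib.H59C.MER3
section

/-!
# MER3: lower bound for the sifting product
-/

open Finset

namespace Pool.Agent.Lib.H59C

theorem MER3_sq : ∃ B : ℝ, 0 ≤ B ∧ ∀ s : Finset ℕ, ∑ p ∈ s, 1 / (p : ℝ) ^ 2 ≤ B := by
  have hs : Summable (fun n : ℕ => 1 / (n : ℝ) ^ 2) := Real.summable_one_div_nat_pow.2 (by norm_num)
  refine ⟨∑' n : ℕ, 1 / (n : ℝ) ^ 2, tsum_nonneg fun n => by positivity, fun s => ?_⟩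
  exact hs.sum_le_tsum s fun n _ => by positivity

theorem MER3_fac (q : ℕ) (hq : 3 ≤ q) : 0 < 1 - gq q ∧ 1 - gq q ≤ 1 ∧
    (1 - gq q) * (((q : ℝ) - 1) / (q - 2)) = 1 ∧
    Real.exp (-(1 / (q : ℝ) + 6 * (1 / (q : ℝ) ^ 2))) ≤ 1 - gq q := by
  have h3 : (3 : ℝ) ≤ q := by exact_mod_cast hq
  unfold gq
  have h4 : 1 / ((q : ℝ) - 1) ≤ 1 / 2 := one_div_le_one_div_of_le (by norm_num) (by linarith)
  have h5 : 0 < 1 / ((q : ℝ) - 1) := by
    have : (0 : ℝ) < q - 1 := by linarith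
    positivity
  have h6 : (0 : ℝ) < q - 1 := by linarith
  have h7 : (0 : ℝ) < q - 2 := by linarith
  have h8 : 1 - 1 / ((q : ℝ) - 1) = (q - 2) / (q - 1) := by field_simp; ring
  refine ⟨by linarith, by linarith, ?_, ?_⟩
  · rw [h8]
    field_simp
  · have h9 := Real.one_sub_inv_le_log_of_pos (show (0 : ℝ) < (q - 2) / (q - 1) by positivity)
    rw [h8, ← Real.le_log_iff_exp_le (by positivity)]
    refine le_trans ?_ h9
    have h10 : 1 - (((q : ℝ) - 2) / (q - 1))⁻¹ = -(1 / ((q : ℝ) - 2)) := by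
      rw [inv_div]
      field_simp
      ring
    rw [h10, neg_le_neg_iff]
    have hq0 : (0 : ℝ) < q := by linarith
    have h11 : 1 / (q : ℝ) + 6 * (1 / (q : ℝ) ^ 2) = (q + 6) / (q : ℝ) ^ 2 := by
      field_simp
    rw [h11, div_le_div_iff₀ h7 (by positivity)]
    nlinarith

/-- Lower bound for `V(z)` in terms of the primes dividing `N`.

Proof. `V(z) ≥ ∏_{3 ≤ q < z} (1 - 1/(q-1)) ∏_{q ∣ N, 3 ≤ q < z} (1 - 1/(q-1))⁻¹`,
`(1 - 1/(q-1))⁻¹ = (q-1)/(q-2)`, the first product is `≥ c/log z` (`mertens`), and the at most `60` primes `q ≥ z` dividing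
`N` contribute a factor `≤ 2` to the product on the right. -/
theorem VV_lower : ∃ c : ℝ, 0 < c ∧ ∃ n0 : ℕ, ∀ n : ℕ, n0 ≤ n → ∀ (P : Finset ℕ) (N : ℕ) (z : ℝ),
    0 < N → N ≤ n ^ 3 → (n : ℝ) ^ (1 / 20 : ℝ) ≤ z → z ≤ n →
    (∀ q ∈ P, q.Prime ∧ 3 ≤ q ∧ ¬ q ∣ N) →
    c * (∏ q ∈ N.primeFactors.filter (fun q => 2 < q), (((q : ℝ) - 1) / (q - 2))) / Real.log n ≤
      VV P z := by
  classical
  obtain ⟨C, hC, hmer⟩ := mertens
  obtain ⟨B, hB, hsq⟩ := MER3_sq
  obtain ⟨n0, hn0⟩ := MER2_large 60 (1 / 4) (by norm_num) (by norm_num)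
  have hl2 : 0 < Real.log 2 := Real.log_pos (by norm_num)
  refine ⟨Real.log 2 * Real.exp (-(C / Real.log 2) - 6 * B - 6), by positivity, n0,
    fun n hn P N z hN hNn hz hzn hP => ?_⟩
  obtain ⟨hn2, hlarge⟩ := hn0 n hn
  obtain ⟨hz4, hzC⟩ := hlarge z hz
  have hlz : 0 < Real.log z := Real.log_pos (by linarith)
  have hlzn : Real.log z ≤ Real.log n := Real.log_le_log (by linarith) hzn
  -- the primes `3 ≤ q < z`
  set A := (PR 2 z).filter (fun q => 3 ≤ q) with hA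
  set A0 := A.filter (fun q => q ∣ N) with hA0
  set A1 := A.filter (fun q => ¬ q ∣ N) with hA1
  have hAm : ∀ q ∈ A, q.Prime ∧ (q : ℝ) < z ∧ 3 ≤ q := fun q hq => by
    rw [hA, Finset.mem_filter, mem_PR] at hq
    exact ⟨hq.1.1, hq.1.2.2, hq.2⟩
  have hVA1 : ∏ q ∈ A1, (1 - gq q) ≤ VV P z := by
    unfold VV VP
    have hsub : P.filter (fun q : ℕ => (q : ℝ) < z) ⊆ A1 := by
      intro q hq
      rw [Finset.mem_filter] at hq
      obtain ⟨h1, h2, h3⟩ := hP q hq.1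
      rw [hA1, Finset.mem_filter, hA, Finset.mem_filter, mem_PR]
      exact ⟨⟨⟨h1, by exact_mod_cast h1.two_le, hq.2⟩, h2⟩, h3⟩
    refine Finset.prod_le_prod_of_subset_of_le_one hsub ?_ ?_
    · intro q hq
      exact (MER3_fac q (hAm q (Finset.mem_filter.1 hq).1).2.2).1.le
    · intro q hq _
      exact (MER3_fac q (hAm q (Finset.mem_filter.1 hq).1).2.2).2.1
  have hAA : (∏ q ∈ A0, (1 - gq q)) * ∏ q ∈ A1, (1 - gq q) = ∏ q ∈ A, (1 - gq q) :=
    Finset.prod_filter_mul_prod_filter_not A (fun q => q ∣ N) _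
  have hA0' : (∏ q ∈ A0, (1 - gq q)) * ∏ q ∈ A0, (((q : ℝ) - 1) / (q - 2)) = 1 := by
    rw [← Finset.prod_mul_distrib]
    exact Finset.prod_eq_one fun q hq => (MER3_fac q (hAm q (Finset.mem_filter.1 hq).1).2.2).2.2.1
  have hpos0 : 0 ≤ ∏ q ∈ A0, (((q : ℝ) - 1) / (q - 2)) := by
    refine Finset.prod_nonneg fun q hq => ?_
    have h3 : (3 : ℝ) ≤ q := by exact_mod_cast (hAm q (Finset.mem_filter.1 hq).1).2.2
    exact div_nonneg (by linarith) (by linarith)
  have hA1eq : ∏ q ∈ A1, (1 - gq q) =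
      (∏ q ∈ A, (1 - gq q)) * ∏ q ∈ A0, (((q : ℝ) - 1) / (q - 2)) := by
    rw [← hAA]
    calc ∏ q ∈ A1, (1 - gq q) = ((∏ q ∈ A0, (1 - gq q)) *
          ∏ q ∈ A0, (((q : ℝ) - 1) / (q - 2))) * ∏ q ∈ A1, (1 - gq q) := by rw [hA0', one_mul]
      _ = _ := by ring
  -- lower bound for the full product
  have hfull : Real.log 2 * Real.exp (-(C / Real.log 2) - 6 * B) / Real.log n ≤
      ∏ q ∈ A, (1 - gq q) := by
    have h1 : Real.exp (∑ q ∈ A, -(1 / (q : ℝ) + 6 * (1 / (q : ℝ) ^ 2))) ≤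
        ∏ q ∈ A, (1 - gq q) := by
      rw [Real.exp_sum]
      exact Finset.prod_le_prod (fun q _ => (Real.exp_pos _).le)
        fun q hq => (MER3_fac q (hAm q hq).2.2).2.2.2
    refine le_trans ?_ h1
    have h2 : ∑ q ∈ A, 1 / (q : ℝ) ≤ ∑ q ∈ PR 2 z, 1 / (q : ℝ) :=
      Finset.sum_le_sum_of_subset_of_nonneg (Finset.filter_subset _ _) fun q _ _ => by positivity
    have h3 := (abs_le.1 (hmer 2 z le_rfl (by linarith))).2
    have h4 := hsq A
    have h5 : ∑ q ∈ A, -(1 / (q : ℝ) + 6 * (1 / (q : ℝ) ^ 2)) =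
        -∑ q ∈ A, 1 / (q : ℝ) - 6 * ∑ q ∈ A, 1 / (q : ℝ) ^ 2 := by
      rw [Finset.sum_neg_distrib, Finset.sum_add_distrib, ← Finset.mul_sum]
      ring
    rw [h5]
    have h6 : Real.log (Real.log 2) - Real.log (Real.log z) + (-(C / Real.log 2) - 6 * B) ≤
        -∑ q ∈ A, 1 / (q : ℝ) - 6 * ∑ q ∈ A, 1 / (q : ℝ) ^ 2 := by linarith
    refine le_trans ?_ (Real.exp_le_exp.2 h6)
    rw [Real.exp_add, Real.exp_sub (Real.log (Real.log 2)) (Real.log (Real.log z)),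
      Real.exp_log hl2, Real.exp_log hlz, mul_div_right_comm]
    exact mul_le_mul_of_nonneg_right (div_le_div_of_nonneg_left hl2.le hlz hlzn)
      (Real.exp_pos _).le
  -- the large prime divisors
  set U := N.primeFactors.filter (fun q : ℕ => z ≤ (q : ℝ)) with hU
  have hUcard := MER2_card n N z hn2 hN hNn hz
  have hUprod : ∏ q ∈ U, (((q : ℝ) - 1) / (q - 2)) ≤ Real.exp 6 := by
    have h1 : ∀ q ∈ U, 0 ≤ ((q : ℝ) - 1) / (q - 2) ∧
        ((q : ℝ) - 1) / (q - 2) ≤ Real.exp (1 / 10) := by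
      intro q hq
      have h2 := (Finset.mem_filter.1 hq).2
      have h3 : (60 : ℝ) / Real.log z ≤ 1 / 4 := hzC
      rw [div_le_div_iff₀ hlz (by norm_num)] at h3
      have h4 := Real.log_le_sub_one_of_pos (show (0 : ℝ) < z by linarith)
      have h5 : (240 : ℝ) ≤ q := by linarith
      refine ⟨div_nonneg (by linarith) (by linarith), ?_⟩
      have h6 := Real.add_one_le_exp (1 / 10 : ℝ)
      refine le_trans ?_ h6
      rw [div_le_iff₀ (by linarith)]
      linarith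
    calc ∏ q ∈ U, (((q : ℝ) - 1) / (q - 2)) ≤ ∏ q ∈ U, Real.exp (1 / 10) :=
          Finset.prod_le_prod (fun q hq => (h1 q hq).1) fun q hq => (h1 q hq).2
      _ = Real.exp (1 / 10) ^ U.card := by rw [Finset.prod_const]
      _ ≤ Real.exp (1 / 10) ^ 60 :=
          pow_le_pow_right₀ (Real.one_le_exp (by norm_num)) hUcard
      _ = Real.exp 6 := by
          rw [← Real.exp_nat_mul]
          norm_num
  have hsplit : ∏ q ∈ N.primeFactors.filter (fun q => 2 < q), (((q : ℝ) - 1) / (q - 2)) =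
      (∏ q ∈ A0, (((q : ℝ) - 1) / (q - 2))) * ∏ q ∈ U, (((q : ℝ) - 1) / (q - 2)) := by
    rw [← Finset.prod_union]
    · refine Finset.prod_congr ?_ fun q _ => rfl
      ext q
      rw [Finset.mem_union, Finset.mem_filter, hA0, hA, hU, Finset.mem_filter, Finset.mem_filter,
        Finset.mem_filter, mem_PR, Nat.mem_primeFactors]
      constructor
      · rintro ⟨⟨h1, h2, h3⟩, h4⟩
        rcases lt_or_ge (q : ℝ) z with h5 | h5
        · exact Or.inl ⟨⟨⟨h1, by exact_mod_cast h1.two_le, h5⟩, h4⟩, h2⟩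
        · exact Or.inr ⟨⟨h1, h2, h3⟩, h5⟩
      · rintro (⟨⟨⟨h1, h2, h3⟩, h4⟩, h5⟩ | ⟨⟨h1, h2, h3⟩, h4⟩)
        · exact ⟨⟨h1, h5, hN.ne'⟩, h4⟩
        · refine ⟨⟨h1, h2, h3⟩, ?_⟩
          have h5 : (2 : ℝ) < q := by linarith
          exact_mod_cast h5
    · rw [Finset.disjoint_left]
      intro q h1 h2
      have h3 := (hAm q (Finset.mem_filter.1 h1).1).2.1
      exact absurd h3 (not_lt.2 (Finset.mem_filter.1 h2).2)
  -- conclusion
  have hln : 0 < Real.log n := by linarith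
  refine le_trans ?_ hVA1
  rw [hsplit, hA1eq]
  have hf0 : 0 ≤ ∏ q ∈ A0, (((q : ℝ) - 1) / (q - 2)) := hpos0
  calc Real.log 2 * Real.exp (-(C / Real.log 2) - 6 * B - 6) *
        ((∏ q ∈ A0, (((q : ℝ) - 1) / (q - 2))) * ∏ q ∈ U, (((q : ℝ) - 1) / (q - 2))) / Real.log n
      ≤ Real.log 2 * Real.exp (-(C / Real.log 2) - 6 * B - 6) *
        ((∏ q ∈ A0, (((q : ℝ) - 1) / (q - 2))) * Real.exp 6) / Real.log n := by
        gcongr
    _ = Real.log 2 * Real.exp (-(C / Real.log 2) - 6 * B) / Real.log n *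
        ∏ q ∈ A0, (((q : ℝ) - 1) / (q - 2)) := by
        have e : Real.exp (-(C / Real.log 2) - 6 * B) =
            Real.exp (-(C / Real.log 2) - 6 * B - 6) * Real.exp 6 := by
          rw [← Real.exp_add]; congr 1; ring
        rw [e]
        ring
    _ ≤ _ := mul_le_mul_of_nonneg_right hfull hf0

end Pool.Agent.Lib.H59C
end
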