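import Mathlib
import Pool.Agent.Lib.H1M.RV.M003

/-! Merged copies (to shorten the build) of Lib.H18GB.Ers, Lib.PNT.Fejer, Lib.PNT.WienerIkehara, Lib.PNT.Dirichlet, Lib.PNT.PNT, Lib.H18GB.Pntl, Lib.H18GB.RT, Lib.Sieve.Averages, Lib.H18GB.Majo. -/

-- from Lib.H18GB.Ers
section

/-!
# Project GB: ERS (averages of `Ers`)
-/

namespace Pool.Agent.Lib.H18GB

open Finset Pool.Agent.Lib.Sieve

/-- the constant `∑ n ^ (-21/20)` plus one -/
noncomputable def ersZ : ℝ := 1 + ∑' n : ℕ, (n : ℝ) ^ (-(21 / 20 : ℝ))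

theorem ersZ_summable : Summable fun n : ℕ => (n : ℝ) ^ (-(21 / 20 : ℝ)) :=
  Real.summable_nat_rpow.mpr (by norm_num)

theorem one_le_ersZ : 1 ≤ ersZ := by
  unfold ersZ
  have : 0 ≤ ∑' n : ℕ, (n : ℝ) ^ (-(21 / 20 : ℝ)) := tsum_nonneg fun n => Real.rpow_nonneg (Nat.cast_nonneg _) _
  linarith

/-- Cauchy-Schwarz with the weights `p ^ (-21/20)`. -/
theorem ers_cs {w z : ℕ} {S : Finset ℕ} (hS : PSet w z S) (m : ℤ) (t : ℝ) :
    Ers t S m ^ 2 ≤ ersZ * Ers (2 * t - 21 / 20) S m := by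
  unfold Ers
  set T := S.filter (fun p : ℕ => (p : ℤ) ∣ m) with hT
  have hpos : ∀ p ∈ T, (0 : ℝ) < p := by
    intro p hp
    have := (hS p (Finset.mem_filter.mp hp).1).1.pos
    exact_mod_cast this
  have h1 : ∑ p ∈ T, (p : ℝ) ^ (-t) = ∑ p ∈ T, (p : ℝ) ^ (-(21 / 40 : ℝ)) * (p : ℝ) ^ (21 / 40 - t) := by
    apply Finset.sum_congr rfl
    intro p hp
    rw [← Real.rpow_add (hpos p hp)]
    congr 1
    ring
  rw [h1]
  refine (Finset.sum_mul_sq_le_sq_mul_sq T _ _).trans ?_
  have h2 : ∑ p ∈ T, ((p : ℝ) ^ (-(21 / 40 : ℝ))) ^ 2 ≤ ersZ := by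
    have h3 : ∑ p ∈ T, ((p : ℝ) ^ (-(21 / 40 : ℝ))) ^ 2 = ∑ p ∈ T, (p : ℝ) ^ (-(21 / 20 : ℝ)) := by
      apply Finset.sum_congr rfl
      intro p hp
      rw [← Real.rpow_natCast, ← Real.rpow_mul (hpos p hp).le]
      norm_num
    rw [h3]
    have h4 := ersZ_summable.sum_le_tsum T (fun n _ => Real.rpow_nonneg (Nat.cast_nonneg _) _)
    unfold ersZ
    linarith
  have h3 : ∑ p ∈ T, ((p : ℝ) ^ (21 / 40 - t)) ^ 2 = ∑ p ∈ T, (p : ℝ) ^ (-(2 * t - 21 / 20)) := by
    apply Finset.sum_congr rfl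
    intro p hp
    rw [← Real.rpow_natCast, ← Real.rpow_mul (hpos p hp).le]
    congr 1
    push_cast
    ring
  rw [h3]
  exact mul_le_mul_of_nonneg_right h2 (Finset.sum_nonneg fun p _ => Real.rpow_nonneg (Nat.cast_nonneg _) _)

theorem ers_anti {w z : ℕ} {S : Finset ℕ} (hS : PSet w z S) (m : ℤ) {t t' : ℝ} (h : t ≤ t') :
    Ers t' S m ≤ Ers t S m := by
  unfold Ers
  apply Finset.sum_le_sum
  intro p hp
  have h1 := (hS p (Finset.mem_filter.mp hp).1).1.one_lt.le
  exact Real.rpow_le_rpow_of_exponent_le (by exact_mod_cast h1) (by linarith)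

/-- Chunk ERS1. Hölder: with `π p = p^(-21/20)`, `(∑ x_p)^j ≤ (∑ π_p)^(j-1) ∑ π_p^(1-j) x_p^j`. -/
theorem ers_pow_le : ∃ C : ℝ, 1 ≤ C ∧ ∀ (w z : ℕ) (S : Finset ℕ) (m : ℤ) (j : ℕ), PSet w z S →
    1 ≤ j → j ≤ 4 → Ers (9 / 10) S m ^ j ≤ C * Ers (9 / 20) S m := by
  have hZ := one_le_ersZ
  refine ⟨ersZ ^ 3, one_le_pow₀ hZ, fun w z S m j hS hj1 hj4 => ?_⟩
  have hZ0 : 0 < ersZ := by linarith
  have e0 := Ers_nonneg (9 / 10) S m
  have e1 := Ers_nonneg (3 / 4) S m
  have e2 := Ers_nonneg (9 / 20) S m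
  have a1 : Ers (9 / 10) S m ≤ Ers (3 / 4) S m := ers_anti hS m (by norm_num)
  have a2 : Ers (3 / 4) S m ≤ Ers (9 / 20) S m := ers_anti hS m (by norm_num)
  have b1 : Ers (9 / 10) S m ^ 2 ≤ ersZ * Ers (3 / 4) S m := by
    have := ers_cs hS m (9 / 10)
    norm_num at this
    exact this
  have b2 : Ers (3 / 4) S m ^ 2 ≤ ersZ * Ers (9 / 20) S m := by
    have := ers_cs hS m (3 / 4)
    norm_num at this
    exact this
  have c1 : 1 ≤ ersZ ^ 3 := one_le_pow₀ hZ
  have c2 : ersZ ≤ ersZ ^ 3 := by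
    calc ersZ = ersZ * 1 := (mul_one _).symm
      _ ≤ ersZ * ersZ ^ 2 := mul_le_mul_of_nonneg_left (one_le_pow₀ hZ) hZ0.le
      _ = ersZ ^ 3 := by ring
  have c3 : ersZ ^ 2 ≤ ersZ ^ 3 := pow_le_pow_right₀ hZ (by norm_num)
  interval_cases j
  · rw [pow_one]
    calc Ers (9 / 10) S m ≤ 1 * Ers (9 / 20) S m := by rw [one_mul]; exact a1.trans a2
      _ ≤ ersZ ^ 3 * Ers (9 / 20) S m := mul_le_mul_of_nonneg_right c1 e2
  · calc Ers (9 / 10) S m ^ 2 ≤ ersZ * Ers (9 / 20) S m := b1.trans (mul_le_mul_of_nonneg_left a2 hZ0.le)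
      _ ≤ ersZ ^ 3 * Ers (9 / 20) S m := mul_le_mul_of_nonneg_right c2 e2
  · calc Ers (9 / 10) S m ^ 3 = Ers (9 / 10) S m ^ 2 * Ers (9 / 10) S m := by ring
      _ ≤ (ersZ * Ers (3 / 4) S m) * Ers (3 / 4) S m := mul_le_mul b1 a1 e0 (by positivity)
      _ = ersZ * Ers (3 / 4) S m ^ 2 := by ring
      _ ≤ ersZ * (ersZ * Ers (9 / 20) S m) := mul_le_mul_of_nonneg_left b2 hZ0.le
      _ = ersZ ^ 2 * Ers (9 / 20) S m := by ring
      _ ≤ ersZ ^ 3 * Ers (9 / 20) S m := mul_le_mul_of_nonneg_right c3 e2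
  · calc Ers (9 / 10) S m ^ 4 = (Ers (9 / 10) S m ^ 2) ^ 2 := by ring
      _ ≤ (ersZ * Ers (3 / 4) S m) ^ 2 := pow_le_pow_left₀ (by positivity) b1 2
      _ = ersZ ^ 2 * Ers (3 / 4) S m ^ 2 := by ring
      _ ≤ ersZ ^ 2 * (ersZ * Ers (9 / 20) S m) := mul_le_mul_of_nonneg_left b2 (by positivity)
      _ = ersZ ^ 3 * Ers (9 / 20) S m := by ring

/-- Chunk ERS1. -/
theorem ers_sq_le : ∃ C : ℝ, 1 ≤ C ∧ ∀ (w z : ℕ) (S : Finset ℕ) (m : ℤ), PSet w z S →
    Ers (9 / 10) S m ^ 2 ≤ C * Ers (3 / 4) S m := by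
  refine ⟨ersZ, one_le_ersZ, fun w z S m hS => ?_⟩
  have := ers_cs hS m (9 / 10)
  norm_num at this
  exact this

/-- telescoping: `t n^(-1-t) ≤ (n-1)^(-t) - n^(-t)` -/
theorem ers_tele (t : ℝ) (ht : 0 < t) (n : ℕ) (hn : 1 ≤ n) :
    t * ((n + 1 : ℕ) : ℝ) ^ (-1 - t) ≤ (n : ℝ) ^ (-t) - ((n + 1 : ℕ) : ℝ) ^ (-t) := by
  have hnr : (0 : ℝ) < n := by exact_mod_cast hn
  have hn1 : (0 : ℝ) < ((n + 1 : ℕ) : ℝ) := by positivity
  set x : ℝ := ((n + 1 : ℕ) : ℝ) with hx
  have hxn : (n : ℝ) = x - 1 := by rw [hx]; push_cast; ring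
  have h1 : (n : ℝ) ^ (-t) = x ^ (-t) * (1 - 1 / x) ^ (-t) := by
    rw [← Real.mul_rpow hn1.le (by rw [hxn] at hnr; rw [sub_nonneg, div_le_one hn1]; linarith)]
    congr 1
    rw [hxn]
    field_simp
  have h2 : 1 + t / x ≤ (1 - 1 / x) ^ (-t) := by
    have hpos : 0 < 1 - 1 / x := by
      rw [sub_pos, div_lt_one hn1]
      rw [hxn] at hnr
      linarith
    rw [Real.rpow_def_of_pos hpos]
    have h3 := Real.add_one_le_exp (Real.log (1 - 1 / x) * (-t))
    have h4 := Real.log_le_sub_one_of_pos hpos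
    have h5 : 1 / x * t ≤ Real.log (1 - 1 / x) * (-t) := by nlinarith
    have h6 : t / x = 1 / x * t := by ring
    rw [h6]
    linarith
  have h3 : x ^ (-1 - t) = x ^ (-t) / x := by
    rw [← Real.rpow_sub_one hn1.ne']
    congr 1
    ring
  rw [h1, h3]
  have h4 : 0 < x ^ (-t) := Real.rpow_pos_of_pos hn1 _
  have h5 := mul_le_mul_of_nonneg_left h2 h4.le
  have h6 : x ^ (-t) * (1 + t / x) = x ^ (-t) + t * (x ^ (-t) / x) := by ring
  linarith

theorem ers_tail (t : ℝ) (ht : 0 < t) (w z : ℕ) (hw : 1 ≤ w) :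
    t * ∑ n ∈ Finset.Ioc w z, (n : ℝ) ^ (-1 - t) ≤ (w : ℝ) ^ (-t) := by
  rcases Nat.lt_or_ge z w with h | h
  · rw [Finset.Ioc_eq_empty (by omega), Finset.sum_empty, mul_zero]
    exact Real.rpow_nonneg (Nat.cast_nonneg _) _
  · have key : t * ∑ n ∈ Finset.Ioc w z, (n : ℝ) ^ (-1 - t) ≤ (w : ℝ) ^ (-t) - (z : ℝ) ^ (-t) := by
      induction z, h using Nat.le_induction with
      | base => simp
      | succ z hz ih =>
        rw [Finset.sum_Ioc_succ_top (by omega), mul_add]
        have := ers_tele t ht z (by omega)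
        linarith
    have : 0 ≤ (z : ℝ) ^ (-t) := Real.rpow_nonneg (Nat.cast_nonneg _) _
    linarith

/-- the number of `h` in an interval with `p ∣ α h + β` -/
theorem ers_count {p : ℕ} (hp : p.Prime) {α β a b : ℤ} (hα : ¬ (p : ℤ) ∣ α) (hab : a ≤ b) :
    (((Finset.Ico a b).filter (fun h : ℤ => (p : ℤ) ∣ α * h + β)).card : ℝ) ≤ (b - a) / p + 1 := by
  have hp0 : (0 : ℤ) < p := by exact_mod_cast hp.pos
  have hpr : (0 : ℝ) < p := by exact_mod_cast hp.pos
  set T := (Finset.Ico a b).filter (fun h : ℤ => (p : ℤ) ∣ α * h + β) with hT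
  have h1 : T.card ≤ (Finset.Ico (0 : ℤ) ((b - a) / p + 1)).card := by
    apply Finset.card_le_card_of_injOn (fun h => (h - a) / p)
    · intro h hh
      rw [Finset.mem_coe, hT, Finset.mem_filter, Finset.mem_Ico] at hh
      rw [Finset.mem_coe, Finset.mem_Ico]
      constructor
      · exact Int.ediv_nonneg (by omega) hp0.le
      · have : (h - a) / p ≤ (b - a) / p := Int.ediv_le_ediv hp0 (by omega)
        show (h - a) / p < (b - a) / p + 1
        omega
    · intro h hh h' hh' he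
      rw [Finset.mem_coe, hT, Finset.mem_filter] at hh hh'
      simp only at he
      have h2 : (p : ℤ) ∣ α * (h - h') := by
        have := dvd_sub hh.2 hh'.2
        have e1 : α * h + β - (α * h' + β) = α * (h - h') := by ring
        rw [e1] at this
        exact this
      have h3 : (p : ℤ) ∣ h - h' := ((Nat.prime_iff_prime_int.mp hp).dvd_or_dvd h2).resolve_left hα
      have h4 : (h - a) % p = (h' - a) % p := by
        apply Int.ModEq.symm
        rw [Int.modEq_iff_dvd]
        have e1 : h - a - (h' - a) = h - h' := by ring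
        rw [e1]
        exact h3
      have h5 := Int.emod_add_mul_ediv (h - a) p
      have h6 := Int.emod_add_mul_ediv (h' - a) p
      rw [h4, he] at h5
      omega
  rw [Int.card_Ico, sub_zero] at h1
  have h2 : (0 : ℤ) ≤ (b - a) / p := Int.ediv_nonneg (by omega) hp0.le
  have h3 : (T.card : ℤ) ≤ (b - a) / p + 1 := by
    have h4 : (((b - a) / p + 1).toNat : ℤ) = (b - a) / p + 1 := Int.toNat_of_nonneg (by omega)
    rw [← h4]
    exact_mod_cast h1
  have h4 : (T.card : ℝ) ≤ (((b - a) / p : ℤ) : ℝ) + 1 := by exact_mod_cast h3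
  have h5 : (((b - a) / p : ℤ) : ℝ) ≤ ((b : ℝ) - a) / p := by
    rw [le_div_iff₀ hpr]
    have h6 : (b - a) / p * p ≤ b - a := Int.ediv_mul_le _ hp0.ne'
    have h7 : (((b - a) / p * p : ℤ) : ℝ) ≤ ((b - a : ℤ) : ℝ) := by exact_mod_cast h6
    push_cast at h7
    exact_mod_cast h7
  linarith

/-- Chunk ERS2. Count `h` with `p ∣ α h + β`: at most `(b - a) / p + 1`. -/
theorem ers_avg (t : ℝ) (ht : 0 < t) (ht1 : t ≤ 1) : ∃ C : ℝ, 1 ≤ C ∧ ∀ (w z : ℕ) (S : Finset ℕ),
    1 ≤ w → PSet w z S → ∀ α β : ℤ, (∀ p ∈ S, ¬ (p : ℤ) ∣ α) → ∀ a b : ℤ, a ≤ b →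
    ∑ h ∈ Finset.Ico a b, Ers t S (α * h + β) ≤ C * ((b - a) * (w : ℝ) ^ (-t) + z) := by
  refine ⟨1 / t, by rw [le_div_iff₀ ht]; linarith, fun w z S hw hS α β hα a b hab => ?_⟩
  have hab' : (0 : ℝ) ≤ (b : ℝ) - a := by
    have : (a : ℝ) ≤ b := by exact_mod_cast hab
    linarith
  have h1 : ∑ h ∈ Finset.Ico a b, Ers t S (α * h + β)
      = ∑ p ∈ S, (p : ℝ) ^ (-t) * ((Finset.Ico a b).filter (fun h : ℤ => (p : ℤ) ∣ α * h + β)).card := by
    unfold Ers
    simp_rw [Finset.sum_filter]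
    rw [Finset.sum_comm]
    apply Finset.sum_congr rfl
    intro p _
    rw [← Finset.sum_filter, Finset.sum_const, nsmul_eq_mul, mul_comm]
  rw [h1]
  have h2 : ∑ p ∈ S, (p : ℝ) ^ (-t) * ((Finset.Ico a b).filter (fun h : ℤ => (p : ℤ) ∣ α * h + β)).card
      ≤ ∑ p ∈ S, (((b : ℝ) - a) * (p : ℝ) ^ (-1 - t) + 1) := by
    apply Finset.sum_le_sum
    intro p hp
    have hpp := (hS p hp).1
    have hpr : (0 : ℝ) < p := by exact_mod_cast hpp.pos
    have hp1 : (1 : ℝ) ≤ p := by exact_mod_cast hpp.one_lt.le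
    have h3 := ers_count hpp (β := β) (hα p hp) hab
    have h4 : (p : ℝ) ^ (-t) ≤ 1 := Real.rpow_le_one_of_one_le_of_nonpos hp1 (by linarith)
    have h5 : (0 : ℝ) ≤ (p : ℝ) ^ (-t) := Real.rpow_nonneg hpr.le _
    calc (p : ℝ) ^ (-t) * ((Finset.Ico a b).filter (fun h : ℤ => (p : ℤ) ∣ α * h + β)).card
        ≤ (p : ℝ) ^ (-t) * (((b : ℝ) - a) / p + 1) := mul_le_mul_of_nonneg_left h3 h5
      _ = ((b : ℝ) - a) * ((p : ℝ) ^ (-t) / p) + (p : ℝ) ^ (-t) := by ring
      _ ≤ ((b : ℝ) - a) * (p : ℝ) ^ (-1 - t) + 1 := by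
          rw [← Real.rpow_sub_one hpr.ne']
          have : -t - 1 = -1 - t := by ring
          rw [this]
          linarith
  refine h2.trans ?_
  rw [Finset.sum_add_distrib, ← Finset.mul_sum, Finset.sum_const, nsmul_eq_mul, mul_one]
  have hsub : S ⊆ Finset.Ioc w z := by
    intro p hp
    rw [Finset.mem_Ioc]
    exact (hS p hp).2
  have h3 : ∑ p ∈ S, (p : ℝ) ^ (-1 - t) ≤ ∑ n ∈ Finset.Ioc w z, (n : ℝ) ^ (-1 - t) :=
    Finset.sum_le_sum_of_subset_of_nonneg hsub (fun _ _ _ => Real.rpow_nonneg (Nat.cast_nonneg _) _)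
  have h4 := ers_tail t ht w z hw
  have h5 : ∑ p ∈ S, (p : ℝ) ^ (-1 - t) ≤ 1 / t * (w : ℝ) ^ (-t) := by
    rw [one_div, ← div_eq_inv_mul, le_div_iff₀ ht, mul_comm]
    exact (mul_le_mul_of_nonneg_left h3 ht.le).trans h4
  have h6 : (S.card : ℝ) ≤ z := by
    have h7 := Finset.card_le_card hsub
    rw [Nat.card_Ioc] at h7
    exact_mod_cast (by omega : S.card ≤ z)
  have h7 : (z : ℝ) ≤ 1 / t * z := by
    rw [one_div, ← div_eq_inv_mul, le_div_iff₀ ht]
    have : (0 : ℝ) ≤ z := Nat.cast_nonneg _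
    nlinarith
  calc ((b : ℝ) - a) * ∑ p ∈ S, (p : ℝ) ^ (-1 - t) + S.card
      ≤ ((b : ℝ) - a) * (1 / t * (w : ℝ) ^ (-t)) + 1 / t * z :=
        add_le_add (mul_le_mul_of_nonneg_left h5 hab') (h6.trans h7)
    _ = 1 / t * (((b : ℝ) - a) * (w : ℝ) ^ (-t) + z) := by ring

/-- Chunk ERS2. -/
theorem ers_mul {S : Finset ℕ} (hS : ∀ p ∈ S, p.Prime) (t : ℝ) (a m : ℤ)
    (ha : ∀ p ∈ S, ¬ (p : ℤ) ∣ a) : Ers t S (a * m) = Ers t S m := by
  unfold Ers
  congr 1
  apply Finset.filter_congr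
  intro p hp
  constructor
  · intro h
    exact ((Nat.prime_iff_prime_int.mp (hS p hp)).dvd_or_dvd h).resolve_left (ha p hp)
  · intro h
    exact h.mul_left a

/-- Chunk ERS2. -/
theorem ers_neg (t : ℝ) (S : Finset ℕ) (m : ℤ) : Ers t S (-m) = Ers t S m := by
  unfold Ers
  congr 1
  ext p
  simp

end Pool.Agent.Lib.H18GB
end

-- from Lib.PNT.Fejer
section

/-!
# The Fejer kernel and its Fourier transform
-/

open Complex MeasureTheory Filter Topology Set FourierTransform

namespace Pool.Agent.Lib.PNT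

/-- The tent function. -/
noncomputable def tent (t : ℝ) : ℝ := max 0 (1 - |t|)

/-- The Fejer kernel, normalised to have integral one. -/
noncomputable def fejer (u : ℝ) : ℝ := (Real.sinc (u / 2)) ^ 2 / (2 * Real.pi)

theorem continuous_tent : Continuous tent := by
  unfold tent; fun_prop

theorem tent_nonneg (t : ℝ) : 0 ≤ tent t := le_max_left _ _

theorem tent_eq_zero {t : ℝ} (ht : 1 ≤ |t|) : tent t = 0 :=
  max_eq_left (by linarith)

theorem tent_zero : tent 0 = 1 := by simp [tent]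

theorem hasCompactSupport_tent : HasCompactSupport tent := by
  refine HasCompactSupport.intro (K := Icc (-1) 1) isCompact_Icc ?_
  intro t ht
  apply tent_eq_zero
  by_contra h
  push Not at h
  exact ht (abs_le.mp h.le)

theorem integrable_tent : Integrable tent :=
  continuous_tent.integrable_of_hasCompactSupport hasCompactSupport_tent

theorem continuous_fejer : Continuous fejer := by
  unfold fejer
  have := Real.continuous_sinc
  fun_prop

theorem fejer_nonneg (u : ℝ) : 0 ≤ fejer u := by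
  unfold fejer
  have := Real.pi_pos
  positivity

theorem fejer_le_one (u : ℝ) : fejer u ≤ 1 := by
  unfold fejer
  have h3 := Real.pi_gt_three
  have h1 : (Real.sinc (u / 2)) ^ 2 ≤ 1 := by
    have := Real.abs_sinc_le_one (u / 2)
    rw [← sq_abs]
    exact pow_le_one₀ (abs_nonneg _) this
  rw [div_le_one (by positivity)]
  linarith

theorem tent_fourier (u : ℝ) :
    ∫ t : ℝ, (tent t : ℂ) * cexp (-(t * u) * I) = ((Real.sinc (u / 2)) ^ 2 : ℝ) := by
  have h1 : ∫ t : ℝ, (tent t : ℂ) * cexp (-(t * u) * I)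
      = ∫ t in (-1 : ℝ)..1, (tent t : ℂ) * cexp (-(t * u) * I) := by
    rw [intervalIntegral.integral_of_le (by norm_num)]
    symm
    apply setIntegral_eq_integral_of_forall_compl_eq_zero
    intro t ht
    have : tent t = 0 := by
      apply tent_eq_zero
      by_contra h
      push Not at h
      rw [abs_lt] at h
      exact ht ⟨h.1, h.2.le⟩
    simp [this]
  have hc : Continuous fun t : ℝ => (tent t : ℂ) * cexp (-(t * u) * I) := by
    have := continuous_tent
    fun_prop
  have h2 : ∫ t in (-1 : ℝ)..1, (tent t : ℂ) * cexp (-(t * u) * I)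
      = (∫ t in (-1 : ℝ)..0, (tent t : ℂ) * cexp (-(t * u) * I))
        + ∫ t in (0 : ℝ)..1, (tent t : ℂ) * cexp (-(t * u) * I) :=
    (intervalIntegral.integral_add_adjacent_intervals (hc.intervalIntegrable _ _)
      (hc.intervalIntegrable _ _)).symm
  have h3 : ∫ t in (-1 : ℝ)..0, (tent t : ℂ) * cexp (-(t * u) * I)
      = ∫ t in (-1 : ℝ)..0, ((1 + t : ℝ) : ℂ) * cexp (-(t * u) * I) := by
    apply intervalIntegral.integral_congr
    intro t ht
    rw [uIcc_of_le (by norm_num)] at ht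
    have : tent t = 1 + t := by
      unfold tent
      rw [abs_of_nonpos ht.2, max_eq_right (by linarith [ht.1])]; ring
    simp only [this]
  have h4 : ∫ t in (0 : ℝ)..1, (tent t : ℂ) * cexp (-(t * u) * I)
      = ∫ t in (0 : ℝ)..1, ((1 - t : ℝ) : ℂ) * cexp (-(t * u) * I) := by
    apply intervalIntegral.integral_congr
    intro t ht
    rw [uIcc_of_le (by norm_num)] at ht
    have : tent t = 1 - t := by
      unfold tent
      rw [abs_of_nonneg ht.1, max_eq_right (by linarith [ht.2])]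
    simp only [this]
  rw [h1, h2, h3, h4]
  rcases eq_or_ne u 0 with rfl | hu
  · simp only [ofReal_zero, mul_zero, neg_zero, zero_mul, Complex.exp_zero, mul_one, zero_div,
      Real.sinc_zero, one_pow, ofReal_one]
    rw [intervalIntegral.integral_ofReal, intervalIntegral.integral_ofReal]
    have e1 : ∫ t in (-1 : ℝ)..0, (1 + t) = 1 / 2 := by
      rw [intervalIntegral.integral_add (by simp) (by simp)]
      simp; norm_num
    have e2 : ∫ t in (0 : ℝ)..1, (1 - t) = 1 / 2 := by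
      rw [intervalIntegral.integral_sub (by simp) (by simp)]
      simp; norm_num
    rw [e1, e2]; norm_num
  · set c : ℂ := -(u * I) with hcdef
    have hc0 : c ≠ 0 := by
      rw [hcdef, neg_ne_zero]
      exact mul_ne_zero (by exact_mod_cast hu) I_ne_zero
    have hexp : ∀ t : ℝ, cexp (-(t * u) * I) = cexp (c * t) := by
      intro t; rw [hcdef]; congr 1; ring
    have hd : ∀ t : ℝ, HasDerivAt (fun t : ℝ => cexp (c * t)) (c * cexp (c * t)) t := by
      intro t
      have h := ((hasDerivAt_id (t : ℂ)).const_mul c).cexp.comp_ofReal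
      simpa [mul_comm] using h
    have hid : ∀ t : ℝ, HasDerivAt (fun t : ℝ => (t : ℂ)) 1 t := fun t =>
      (hasDerivAt_id (t : ℂ)).comp_ofReal
    have e1 : ∫ t in (-1 : ℝ)..0, ((1 + t : ℝ) : ℂ) * cexp (-(t * u) * I)
        = 1 / c - 1 / c ^ 2 + cexp (-c) / c ^ 2 := by
      have hder : ∀ t ∈ uIcc (-1 : ℝ) 0, HasDerivAt
          (fun t : ℝ => (1 + (t : ℂ)) * cexp (c * t) / c - cexp (c * t) / c ^ 2)
          (((1 + t : ℝ) : ℂ) * cexp (-(t * u) * I)) t := by
        intro t _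
        rw [hexp]
        have h := ((((hid t).const_add 1).mul (hd t)).div_const c).sub ((hd t).div_const (c ^ 2))
        convert! h using 1
        push_cast
        field_simp
        ring
      rw [intervalIntegral.integral_eq_sub_of_hasDerivAt hder
        (Continuous.intervalIntegrable (by fun_prop) _ _)]
      simp
    have e2 : ∫ t in (0 : ℝ)..1, ((1 - t : ℝ) : ℂ) * cexp (-(t * u) * I)
        = cexp c / c ^ 2 - 1 / c - 1 / c ^ 2 := by
      have hder : ∀ t ∈ uIcc (0 : ℝ) 1, HasDerivAt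
          (fun t : ℝ => (1 - (t : ℂ)) * cexp (c * t) / c + cexp (c * t) / c ^ 2)
          (((1 - t : ℝ) : ℂ) * cexp (-(t * u) * I)) t := by
        intro t _
        rw [hexp]
        have h := ((((hid t).const_sub 1).mul (hd t)).div_const c).add ((hd t).div_const (c ^ 2))
        convert! h using 1
        push_cast
        field_simp
        ring
      rw [intervalIntegral.integral_eq_sub_of_hasDerivAt hder
        (Continuous.intervalIntegrable (by fun_prop) _ _)]
      simp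
      ring
    rw [e1, e2]
    have hsum : cexp (-c) + cexp c = 2 * (Real.cos u : ℂ) := by
      rw [hcdef, neg_neg]
      rw [ofReal_cos, Complex.cos]
      ring_nf
    have hc2 : c ^ 2 = -((u : ℂ) ^ 2) := by
      rw [hcdef, neg_sq, mul_pow, I_sq]; ring
    have hu' : (u : ℂ) ≠ 0 := by exact_mod_cast hu
    have hs : (Real.sinc (u / 2)) ^ 2 = 2 * (1 - Real.cos u) / u ^ 2 := by
      rw [Real.sinc_of_ne_zero (by simpa using hu), div_pow]
      have : Real.cos u = 1 - 2 * Real.sin (u / 2) ^ 2 := by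
        have h := Real.cos_two_mul (u / 2)
        rw [Real.cos_sq', show 2 * (u / 2) = u by ring] at h
        linarith
      rw [this]
      field_simp
      ring
    have : 1 / c - 1 / c ^ 2 + cexp (-c) / c ^ 2 + (cexp c / c ^ 2 - 1 / c - 1 / c ^ 2)
        = ((cexp (-c) + cexp c) - 2) / c ^ 2 := by ring
    rw [this, hsum, hc2, hs]
    push_cast
    field_simp
    ring

theorem sinc_sq_le (x : ℝ) : (Real.sinc x) ^ 2 ≤ 2 * (1 + x ^ 2)⁻¹ := by
  have h1 : (Real.sinc x) ^ 2 ≤ 1 := by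
    have := Real.abs_sinc_le_one x
    rw [← sq_abs]
    exact pow_le_one₀ (abs_nonneg _) this
  have h2 : x ^ 2 * (Real.sinc x) ^ 2 ≤ 1 := by
    rcases eq_or_ne x 0 with rfl | hx
    · simp
    · rw [Real.sinc_of_ne_zero hx, div_pow]
      have : x ^ 2 * (Real.sin x ^ 2 / x ^ 2) = Real.sin x ^ 2 := by field_simp
      rw [this]
      exact Real.sin_sq_le_one x
  rw [← div_eq_mul_inv, le_div_iff₀ (by positivity)]
  nlinarith

theorem integrable_fejer : Integrable fejer := by
  have h1 : Integrable fun x : ℝ => (1 + x ^ 2)⁻¹ := integrable_inv_one_add_sq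
  have h2 : Integrable fun x : ℝ => (1 + (x / 2) ^ 2)⁻¹ := h1.comp_div (by norm_num)
  refine Integrable.mono' (g := fun x : ℝ => (2 * (1 + (x / 2) ^ 2)⁻¹) / (2 * Real.pi))
    ((h2.const_mul 2).div_const _) continuous_fejer.aestronglyMeasurable ?_
  refine Eventually.of_forall fun x => ?_
  rw [Real.norm_of_nonneg (fejer_nonneg x), fejer]
  exact div_le_div_of_nonneg_right (sinc_sq_le _) (by positivity)

theorem fourier_tent (w : ℝ) : 𝓕 (fun t : ℝ => (tent t : ℂ)) w = ((2 * Real.pi * fejer (2 * Real.pi * w) : ℝ) : ℂ) := by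
  rw [Real.fourier_eq']
  have := tent_fourier (2 * Real.pi * w)
  have hpi := Real.pi_pos
  rw [fejer, mul_div_cancel₀ _ (by positivity), ← this]
  apply integral_congr_ae
  refine Eventually.of_forall fun t => ?_
  simp only [smul_eq_mul]
  rw [mul_comm]
  congr 1
  simp
  ring_nf

theorem integral_fejer : ∫ u, fejer u = 1 := by
  have hpi := Real.pi_pos
  have hF : (𝓕 (fun t : ℝ => (tent t : ℂ)))
      = fun w : ℝ => ((2 * Real.pi * fejer (2 * Real.pi * w) : ℝ) : ℂ) := by
    ext w; exact fourier_tent w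
  have hint : Integrable (𝓕 (fun t : ℝ => (tent t : ℂ))) := by
    rw [hF]
    apply Integrable.ofReal
    exact (integrable_fejer.comp_mul_left' (by positivity : 2 * Real.pi ≠ 0)).const_mul _
  have hinv := Continuous.fourierInv_fourier_eq (f := fun t : ℝ => (tent t : ℂ))
    (by have := continuous_tent; fun_prop) integrable_tent.ofReal hint
  have h0 := congrFun hinv 0
  rw [Real.fourierInv_eq'] at h0
  simp only [inner_zero_right, mul_zero, ofReal_zero, zero_mul, Complex.exp_zero, one_smul,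
    tent_zero, ofReal_one] at h0
  rw [hF] at h0
  beta_reduce at h0
  rw [integral_complex_ofReal] at h0
  have h1 : ∫ w : ℝ, 2 * Real.pi * fejer (2 * Real.pi * w) = 1 := by exact_mod_cast h0
  rw [integral_const_mul, Measure.integral_comp_mul_left] at h1
  rw [abs_of_pos (by positivity), smul_eq_mul, ← mul_assoc, mul_inv_cancel₀ (by positivity),
    one_mul] at h1
  exact h1

/-- Scaled Fejer kernel. -/
noncomputable def fejerS (l u : ℝ) : ℝ := l * fejer (l * u)

/-- Scaled tent. -/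
noncomputable def tentS (l t : ℝ) : ℝ := tent (t / l)

theorem continuous_fejerS (l : ℝ) : Continuous (fejerS l) := by
  unfold fejerS
  have := continuous_fejer
  fun_prop

theorem continuous_tentS (l : ℝ) : Continuous (tentS l) := by
  unfold tentS
  have := continuous_tent
  fun_prop

theorem fejerS_nonneg {l : ℝ} (hl : 0 < l) (u : ℝ) : 0 ≤ fejerS l u :=
  mul_nonneg hl.le (fejer_nonneg _)

theorem fejerS_le {l : ℝ} (hl : 0 < l) (u : ℝ) : fejerS l u ≤ l := by
  unfold fejerS
  have := fejer_le_one (l * u)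
  nlinarith

theorem tentS_nonneg (l t : ℝ) : 0 ≤ tentS l t := tent_nonneg _

theorem tentS_eq_zero {l t : ℝ} (hl : 0 < l) (ht : l ≤ |t|) : tentS l t = 0 := by
  apply tent_eq_zero
  rwa [abs_div, abs_of_pos hl, le_div_iff₀ hl, one_mul]

theorem integrable_tentS {l : ℝ} (hl : 0 < l) : Integrable (tentS l) := by
  unfold tentS
  exact integrable_tent.comp_div hl.ne'

theorem integrable_fejerS {l : ℝ} (hl : 0 < l) : Integrable (fejerS l) := by
  unfold fejerS
  exact (integrable_fejer.comp_mul_left' hl.ne').const_mul _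

theorem integral_fejerS {l : ℝ} (hl : 0 < l) : ∫ u, fejerS l u = 1 := by
  unfold fejerS
  rw [integral_const_mul, Measure.integral_comp_mul_left, integral_fejer, abs_of_pos
    (by positivity), smul_eq_mul, mul_one, mul_inv_cancel₀ hl.ne']

theorem tentS_fourier {l : ℝ} (hl : 0 < l) (u : ℝ) :
    ∫ t : ℝ, (tentS l t : ℂ) * cexp (-(t * u) * I) = ((2 * Real.pi * fejerS l u : ℝ) : ℂ) := by
  have h := tent_fourier (l * u)
  have h2 := Measure.integral_comp_div (fun t : ℝ => (tent t : ℂ) * cexp (-(t * (l * u : ℝ)) * I)) l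
  rw [h, abs_of_pos hl] at h2
  have h3 : ∫ t : ℝ, (tentS l t : ℂ) * cexp (-(t * u) * I)
      = ∫ x : ℝ, (tent (x / l) : ℂ) * cexp (-(((x / l : ℝ) : ℂ) * (l * u : ℝ)) * I) := by
    apply integral_congr_ae
    refine Eventually.of_forall fun t => ?_
    simp only [tentS]
    congr 2
    push_cast
    have : (l : ℂ) ≠ 0 := by exact_mod_cast hl.ne'
    field_simp
  rw [h3, h2, fejerS, fejer]
  have hpi := Real.pi_pos
  rw [real_smul, ← ofReal_mul]
  congr 1
  field_simp

end Pool.Agent.Lib.PNT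
end

-- from Lib.PNT.WienerIkehara
section

/-!
# The Wiener-Ikehara theorem, Laplace transform form
-/

open Complex MeasureTheory Filter Topology Set

namespace Pool.Agent.Lib.PNT

/-- Hypotheses of the Wiener-Ikehara theorem in Laplace form. -/
structure WIData (α : ℝ → ℝ) (A : ℝ) (H : ℂ → ℂ) : Prop where
  mono : MonotoneOn α (Ici 0)
  nonneg : ∀ u, 0 ≤ u → 0 ≤ α u
  int : ∀ σ : ℝ, 1 < σ → IntegrableOn (fun u => α u * Real.exp (-(σ * u))) (Ioi 0)
  cont : ContinuousOn H {s | 1 ≤ s.re}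
  lap : ∀ s : ℂ, 1 < s.re →
    ∫ u in Ioi (0 : ℝ), (α u : ℂ) * cexp (-(s * u)) = H s + A / (s - 1)

/-- The damped difference. -/
noncomputable def wiG (α : ℝ → ℝ) (A δ u : ℝ) : ℝ :=
  (α u * Real.exp (-u) - A) * Real.exp (-(δ * u))

variable {α : ℝ → ℝ} {A : ℝ} {H : ℂ → ℂ}

theorem WIData.integrable_exp {δ : ℝ} (hδ : 0 < δ) :
    IntegrableOn (fun u : ℝ => Real.exp (-(δ * u))) (Ioi 0) := by
  have := integrableOn_exp_mul_Ioi (a := -δ) (by linarith) 0
  refine this.congr_fun (fun u _ => ?_) measurableSet_Ioi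
  simp

theorem WIData.integrable_damped (h : WIData α A H) {δ : ℝ} (hδ : 0 < δ) :
    IntegrableOn (fun u : ℝ => α u * Real.exp (-u) * Real.exp (-(δ * u))) (Ioi 0) := by
  refine (h.int (1 + δ) (by linarith)).congr_fun (fun u _ => ?_) measurableSet_Ioi
  simp only []
  rw [mul_assoc, ← Real.exp_add]
  ring_nf

theorem WIData.integrable_g (h : WIData α A H) {δ : ℝ} (hδ : 0 < δ) :
    IntegrableOn (wiG α A δ) (Ioi 0) := by
  have h1 := h.integrable_damped hδ
  have h2 := (WIData.integrable_exp hδ).const_mul A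
  refine (h1.sub h2).congr (Eventually.of_forall fun u => ?_)
  simp only [wiG, Pi.sub_apply]
  ring

theorem WIData.lap' (h : WIData α A H) {δ : ℝ} (hδ : 0 < δ) (t : ℝ) :
    ∫ u in Ioi (0 : ℝ), (wiG α A δ u : ℂ) * cexp (-(t * u) * I) = H (1 + δ + t * I) := by
  have hs : 1 < (1 + δ + t * I : ℂ).re := by simp [hδ]
  have h1 := h.lap _ hs
  have hre : (-(δ + t * I) : ℂ).re < 0 := by simp [hδ]
  have hint1 : IntegrableOn (fun u : ℝ => (α u : ℂ) * cexp (-((1 + δ + t * I) * u))) (Ioi 0) := by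
    have hi := (h.int (1 + δ) (by linarith)).ofReal (𝕜 := ℂ)
    have := hi.mul_bdd (g := fun u : ℝ => cexp (-(t * u) * I)) (c := 1)
      (by fun_prop) (Eventually.of_forall fun u => by
        rw [show (-(t * u : ℂ) * I) = ((-(t * u) : ℝ) : ℂ) * I by push_cast; ring]
        rw [Complex.norm_exp_ofReal_mul_I])
    refine Integrable.congr this (Eventually.of_forall fun u => ?_)
    simp only [coe_algebraMap]
    push_cast
    rw [mul_assoc, ← Complex.exp_add]
    congr 2
    ring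
  have hint2 : IntegrableOn (fun u : ℝ => cexp (-(δ + t * I) * u)) (Ioi 0) :=
    integrableOn_exp_mul_complex_Ioi hre 0
  have h2 := integral_exp_mul_complex_Ioi hre 0
  have h3 : ∫ u in Ioi (0 : ℝ), (wiG α A δ u : ℂ) * cexp (-(t * u) * I)
      = ∫ u in Ioi (0 : ℝ), ((α u : ℂ) * cexp (-((1 + δ + t * I) * u))
        - A * cexp (-(δ + t * I) * u)) := by
    apply integral_congr_ae
    refine Eventually.of_forall fun u => ?_
    simp only [wiG]
    push_cast
    have e1 : cexp (-((1 + δ + t * I) * u)) = cexp (-(u : ℂ)) * cexp (-(δ * u)) * cexp (-(t * u) * I) := by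
      rw [← Complex.exp_add, ← Complex.exp_add]; congr 1; ring
    have e2 : cexp (-(δ + t * I) * u) = cexp (-(δ * u)) * cexp (-(t * u) * I) := by
      rw [← Complex.exp_add]; congr 1; ring
    rw [e1, e2]
    ring
  rw [h3, integral_sub hint1 (hint2.const_mul _), h1, integral_const_mul, h2]
  have hne : (δ + t * I : ℂ) ≠ 0 := by
    intro h0
    rw [h0] at hre
    simp at hre
  rw [show (1 + δ + t * I - 1 : ℂ) = δ + t * I by ring]
  simp only [ofReal_zero, mul_zero, Complex.exp_zero]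
  field_simp
  ring

theorem WIData.fub (h : WIData α A H) {l : ℝ} (hl : 0 < l) {δ : ℝ} (hδ : 0 < δ) (y : ℝ) :
    ∫ t : ℝ, (tentS l t : ℂ) * cexp (t * y * I) * H (1 + δ + t * I)
      = ((∫ u in Ioi (0 : ℝ), wiG α A δ u * (2 * Real.pi * fejerS l (u - y)) : ℝ) : ℂ) := by
  have hint : Integrable (Function.uncurry fun (t : ℝ) (u : ℝ) =>
      ((tentS l t : ℂ) * (wiG α A δ u : ℂ)) * cexp (-(t * (u - y)) * I))
      ((volume : Measure ℝ).prod (volume.restrict (Ioi (0 : ℝ)))) := by
    have h1 := Integrable.mul_prod ((integrable_tentS hl).ofReal (𝕜 := ℂ))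
      ((h.integrable_g hδ).ofReal (𝕜 := ℂ))
    have := h1.mul_bdd (g := fun z : ℝ × ℝ => cexp (-(z.1 * (z.2 - y)) * I)) (c := 1)
      (by fun_prop) (Eventually.of_forall fun z => by
        rw [show (-(z.1 * (z.2 - y) : ℂ) * I) = ((-(z.1 * (z.2 - y)) : ℝ) : ℂ) * I by push_cast; ring]
        rw [Complex.norm_exp_ofReal_mul_I])
    exact this
  have key := integral_integral_swap hint
  have e1 : ∫ t : ℝ, (tentS l t : ℂ) * cexp (t * y * I) * H (1 + δ + t * I)
      = ∫ t : ℝ, ∫ u in Ioi (0 : ℝ),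
        ((tentS l t : ℂ) * (wiG α A δ u : ℂ)) * cexp (-(t * (u - y)) * I) := by
    apply integral_congr_ae
    refine Eventually.of_forall fun t => ?_
    simp only []
    rw [← h.lap' hδ t, ← integral_const_mul]
    apply integral_congr_ae
    refine Eventually.of_forall fun u => ?_
    simp only []
    have : cexp (-(t * (u - y)) * I) = cexp (t * y * I) * cexp (-(t * u) * I) := by
      rw [← Complex.exp_add]; congr 1; ring
    rw [this]; ring
  have e2 : ∫ u in Ioi (0 : ℝ), ∫ t : ℝ,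
        ((tentS l t : ℂ) * (wiG α A δ u : ℂ)) * cexp (-(t * (u - y)) * I)
      = ((∫ u in Ioi (0 : ℝ), wiG α A δ u * (2 * Real.pi * fejerS l (u - y)) : ℝ) : ℂ) := by
    rw [← integral_complex_ofReal]
    apply integral_congr_ae
    refine Eventually.of_forall fun u => ?_
    simp only []
    rw [ofReal_mul, ← tentS_fourier hl, ← integral_const_mul]
    apply integral_congr_ae
    refine Eventually.of_forall fun t => ?_
    simp only []
    push_cast
    ring
  rw [e1, key, e2]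

/-- The smoothed damped function. -/
noncomputable def wiJ (α : ℝ → ℝ) (l δ y : ℝ) : ℝ :=
  ∫ u in Ioi (0 : ℝ), α u * Real.exp (-u) * Real.exp (-(δ * u)) * fejerS l (u - y)

/-- The limit of the smoothed damped function. -/
noncomputable def wiL (A : ℝ) (H : ℂ → ℂ) (l y : ℝ) : ℝ :=
  A * (∫ u in Ioi (0 : ℝ), fejerS l (u - y))
    + (1 / (2 * Real.pi)) * (∫ t : ℝ, (tentS l t : ℂ) * cexp (t * y * I) * H (1 + t * I)).re

theorem integrable_shift {l : ℝ} (hl : 0 < l) (y : ℝ) :
    Integrable fun u : ℝ => fejerS l (u - y) :=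
  (integrable_fejerS hl).comp_sub_right y

theorem WIData.integrable_J (h : WIData α A H) {l : ℝ} (hl : 0 < l) {δ : ℝ} (hδ : 0 < δ) (y : ℝ) :
    IntegrableOn (fun u : ℝ => α u * Real.exp (-u) * Real.exp (-(δ * u)) * fejerS l (u - y))
      (Ioi 0) := by
  refine (h.integrable_damped hδ).mul_bdd (c := l) ?_ (Eventually.of_forall fun u => ?_)
  · have := continuous_fejerS l
    fun_prop
  · rw [Real.norm_of_nonneg (fejerS_nonneg hl _)]
    exact fejerS_le hl _

theorem WIData.J_eq (h : WIData α A H) {l : ℝ} (hl : 0 < l) {δ : ℝ} (hδ : 0 < δ) (y : ℝ) :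
    wiJ α l δ y = A * (∫ u in Ioi (0 : ℝ), Real.exp (-(δ * u)) * fejerS l (u - y))
      + (1 / (2 * Real.pi)) *
        (∫ t : ℝ, (tentS l t : ℂ) * cexp (t * y * I) * H (1 + δ + t * I)).re := by
  have hpi := Real.pi_pos
  rw [h.fub hl hδ y, ofReal_re]
  have h1 := h.integrable_J hl hδ y
  have h2 : IntegrableOn (fun u : ℝ => Real.exp (-(δ * u)) * fejerS l (u - y)) (Ioi 0) := by
    refine (WIData.integrable_exp hδ).mul_bdd (c := l) ?_ (Eventually.of_forall fun u => ?_)
    · have := continuous_fejerS l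
      fun_prop
    · rw [Real.norm_of_nonneg (fejerS_nonneg hl _)]
      exact fejerS_le hl _
  have h3 : ∫ u in Ioi (0 : ℝ), wiG α A δ u * (2 * Real.pi * fejerS l (u - y))
      = 2 * Real.pi * (wiJ α l δ y
        - A * (∫ u in Ioi (0 : ℝ), Real.exp (-(δ * u)) * fejerS l (u - y))) := by
    unfold wiJ
    rw [← integral_const_mul, ← integral_sub h1 (h2.const_mul A), ← integral_const_mul]
    apply integral_congr_ae
    refine Eventually.of_forall fun u => ?_
    simp only [wiG]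
    ring
  rw [h3]
  field_simp
  ring

theorem WIData.tendsto_J (h : WIData α A H) {l : ℝ} (hl : 0 < l) (y : ℝ) :
    Tendsto (fun δ => wiJ α l δ y) (𝓝[>] 0) (𝓝 (wiL A H l y)) := by
  have hpi := Real.pi_pos
  have hA : Tendsto (fun δ : ℝ => ∫ u in Ioi (0 : ℝ), Real.exp (-(δ * u)) * fejerS l (u - y))
      (𝓝[>] 0) (𝓝 (∫ u in Ioi (0 : ℝ), fejerS l (u - y))) := by
    apply tendsto_integral_filter_of_dominated_convergence (fun u => fejerS l (u - y))
    · refine Eventually.of_forall fun δ => ?_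
      have := continuous_fejerS l
      exact Continuous.aestronglyMeasurable (by fun_prop)
    · filter_upwards [self_mem_nhdsWithin] with δ hδ
      filter_upwards [ae_restrict_mem measurableSet_Ioi] with u hu
      have hδ' : 0 < δ := hδ
      have hu' : 0 < u := hu
      rw [norm_mul, Real.norm_of_nonneg (fejerS_nonneg hl _), Real.norm_of_nonneg (Real.exp_pos _).le]
      have : Real.exp (-(δ * u)) ≤ 1 := by
        rw [Real.exp_le_one_iff]
        have := mul_pos hδ' hu'
        linarith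
      exact mul_le_of_le_one_left (fejerS_nonneg hl _) this
    · exact (integrable_shift hl y).integrableOn
    · refine Eventually.of_forall fun u => ?_
      have : Continuous fun δ : ℝ => Real.exp (-(δ * u)) * fejerS l (u - y) := by fun_prop
      have h0 := (this.tendsto 0).mono_left (nhdsWithin_le_nhds (s := Ioi (0 : ℝ)))
      simpa using h0
  have hB : Tendsto (fun δ : ℝ => ∫ t : ℝ, (tentS l t : ℂ) * cexp (t * y * I) * H (1 + δ + t * I))
      (𝓝[>] 0) (𝓝 (∫ t : ℝ, (tentS l t : ℂ) * cexp (t * y * I) * H (1 + t * I))) := by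
    have hcomp : IsCompact (Icc (1 : ℝ) 2 ×ℂ Icc (-l) l) := isCompact_Icc.reProdIm isCompact_Icc
    have hsub : (Icc (1 : ℝ) 2 ×ℂ Icc (-l) l) ⊆ {s : ℂ | 1 ≤ s.re} := by
      intro s hs
      exact (Complex.mem_reProdIm.mp hs).1.1
    obtain ⟨C, hC⟩ := hcomp.exists_bound_of_continuousOn (h.cont.mono hsub)
    have hcont : ∀ δ : ℝ, 0 ≤ δ → Continuous fun t : ℝ => H (1 + δ + t * I) := by
      intro δ hδ
      apply h.cont.comp_continuous (by fun_prop)
      intro t
      simp [hδ]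
    apply tendsto_integral_filter_of_dominated_convergence (fun t => C * tentS l t)
    · filter_upwards [self_mem_nhdsWithin] with δ hδ
      have h1 := hcont δ (le_of_lt hδ)
      have h2 := continuous_tentS l
      refine Continuous.aestronglyMeasurable (Continuous.mul ?_ h1)
      fun_prop
    · have hmem : Ioo (0 : ℝ) 1 ∈ 𝓝[>] (0 : ℝ) := Ioo_mem_nhdsGT one_pos
      filter_upwards [hmem] with δ hδ
      refine Eventually.of_forall fun t => ?_
      rw [norm_mul, norm_mul, show ((t : ℂ) * y * I) = ((t * y : ℝ) : ℂ) * I by push_cast; ring,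
        Complex.norm_exp_ofReal_mul_I, mul_one, Complex.norm_real,
        Real.norm_of_nonneg (tentS_nonneg _ _), mul_comm]
      rcases le_or_gt l |t| with ht | ht
      · rw [tentS_eq_zero hl ht]; simp
      · apply mul_le_mul_of_nonneg_right _ (tentS_nonneg _ _)
        apply hC
        rw [Complex.mem_reProdIm]
        rw [abs_lt] at ht
        simp only [add_re, one_re, ofReal_re, mul_re, I_re, mul_zero, ofReal_im, I_im, mul_one,
          sub_self, add_zero, add_im, one_im, mul_im, zero_add, mem_Icc]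
        exact ⟨⟨by linarith [hδ.1], by linarith [hδ.2]⟩, ht.1.le, ht.2.le⟩
    · exact (integrable_tentS hl).const_mul C
    · refine Eventually.of_forall fun t => ?_
      apply Tendsto.const_mul
      have hc := h.cont (1 + t * I) (by simp)
      refine Tendsto.comp hc ?_
      rw [tendsto_nhdsWithin_iff]
      constructor
      · have : Continuous fun δ : ℝ => (1 + δ + t * I : ℂ) := by fun_prop
        have h0 := (this.tendsto 0).mono_left (nhdsWithin_le_nhds (s := Ioi (0 : ℝ)))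
        simpa using h0
      · filter_upwards [self_mem_nhdsWithin] with δ hδ
        have hδ' : 0 < δ := hδ
        simp [hδ'.le]
  have hsum := (hA.const_mul A).add (((continuous_re.tendsto _).comp hB).const_mul (1 / (2 * Real.pi)))
  refine Tendsto.congr' ?_ hsum
  filter_upwards [self_mem_nhdsWithin] with δ hδ
  rw [h.J_eq hl hδ y]
  rfl

theorem WIData.tendsto_L (_h : WIData α A H) {l : ℝ} (hl : 0 < l) :
    Tendsto (wiL A H l) atTop (𝓝 A) := by
  have hA : Tendsto (fun y : ℝ => ∫ u in Ioi (0 : ℝ), fejerS l (u - y)) atTop (𝓝 1) := by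
    have h1 : ∀ y : ℝ, ∫ u in Ioi (0 : ℝ), fejerS l (u - y) = ∫ v in Ioi (-y), fejerS l v := by
      intro y
      rw [← integral_indicator measurableSet_Ioi, ← integral_indicator measurableSet_Ioi,
        ← integral_sub_right_eq_self (fun v => (Ioi (-y)).indicator (fejerS l) v) y]
      apply integral_congr_ae
      refine Eventually.of_forall fun u => ?_
      simp only [indicator, mem_Ioi]
      by_cases hu : 0 < u
      · rw [if_pos hu, if_pos (by linarith)]
      · rw [if_neg hu, if_neg (by intro h; exact hu (by linarith))]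
    simp_rw [h1]
    have hc : AECover (volume : Measure ℝ) atTop (fun y : ℝ => Ioi (-y)) :=
      aecover_Ioi tendsto_neg_atTop_atBot
    have := hc.integral_tendsto_of_countably_generated (integrable_fejerS hl)
    rwa [integral_fejerS hl] at this
  have hB : Tendsto (fun y : ℝ => ∫ t : ℝ, (tentS l t : ℂ) * cexp (t * y * I) * H (1 + t * I))
      atTop (𝓝 0) := by
    have hRL := Real.tendsto_integral_exp_smul_cocompact
      (fun t : ℝ => (tentS l t : ℂ) * H (1 + t * I))
    have hy : Tendsto (fun y : ℝ => -(y / (2 * Real.pi))) atTop (cocompact ℝ) := by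
      have h1 : Tendsto (fun y : ℝ => -(y / (2 * Real.pi))) atTop atBot :=
        tendsto_neg_atTop_atBot.comp (tendsto_id.atTop_div_const (by positivity))
      exact h1.mono_right atBot_le_cocompact
    refine (hRL.comp hy).congr fun y => ?_
    simp only [Function.comp]
    apply integral_congr_ae
    refine Eventually.of_forall fun t => ?_
    simp only [Real.fourierChar_apply, Circle.smul_def, smul_eq_mul]
    have hpi := Real.pi_pos
    have : ((2 * Real.pi * (-(t * -(y / (2 * Real.pi)))) : ℝ) : ℂ) * I = t * y * I := by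
      push_cast
      have : (Real.pi : ℂ) ≠ 0 := by exact_mod_cast hpi.ne'
      field_simp
    rw [this]
    ring
  have hsum := (hA.const_mul A).add (((continuous_re.tendsto _).comp hB).const_mul (1 / (2 * Real.pi)))
  simp only [zero_re, mul_zero, add_zero, mul_one] at hsum
  exact hsum

/-- Mass of the kernel on `[-η, η]`. -/
noncomputable def wiP (l η : ℝ) : ℝ := ∫ u in (-η)..η, fejerS l u

theorem tendsto_P {η : ℝ} (hη : 0 < η) : Tendsto (fun l => wiP l η) atTop (𝓝 1) := by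
  have h1 : ∀ l, wiP l η = ∫ u in (l * (-η))..(l * η), fejer u := by
    intro l
    unfold wiP fejerS
    rw [intervalIntegral.integral_const_mul, intervalIntegral.mul_integral_comp_mul_left]
  simp_rw [h1]
  rw [← integral_fejer]
  apply intervalIntegral_tendsto_integral integrable_fejer
  · exact tendsto_id.atTop_mul_const_of_neg (by linarith)
  · exact tendsto_id.atTop_mul_const hη

theorem wiP_le_one {l η : ℝ} (hl : 0 < l) (hη : 0 < η) : wiP l η ≤ 1 := by
  unfold wiP
  rw [intervalIntegral.integral_of_le (by linarith), ← integral_fejerS hl]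
  exact setIntegral_le_integral (integrable_fejerS hl)
    (Eventually.of_forall fun u => fejerS_nonneg hl u)

theorem wiP_shift (l η y : ℝ) (hη : 0 < η) :
    ∫ u in Ioc (y - η) (y + η), fejerS l (u - y) = wiP l η := by
  rw [← intervalIntegral.integral_of_le (by linarith), intervalIntegral.integral_comp_sub_right]
  unfold wiP
  congr 1 <;> ring

theorem WIData.upper (h : WIData α A H) {l η y : ℝ} (hl : 0 < l) (hη : 0 < η) (hy : η ≤ y) :
    α (y - η) * Real.exp (-(y + η)) * wiP l η ≤ wiL A H l y := by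
  have h0 : 0 ≤ α (y - η) := h.nonneg _ (by linarith)
  have h1 : ∀ δ > 0, α (y - η) * Real.exp (-(y + η)) * Real.exp (-(δ * (y + η))) * wiP l η
      ≤ wiJ α l δ y := by
    intro δ hδ
    have hint := h.integrable_J hl hδ y
    have hsub : Ioc (y - η) (y + η) ⊆ Ioi 0 := fun u hu => lt_of_le_of_lt (by linarith) hu.1
    have h2 : ∫ u in Ioc (y - η) (y + η),
        α u * Real.exp (-u) * Real.exp (-(δ * u)) * fejerS l (u - y) ≤ wiJ α l δ y := by
      unfold wiJ
      apply setIntegral_mono_set hint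
      · filter_upwards [ae_restrict_mem measurableSet_Ioi] with u hu
        have hu' : (0 : ℝ) < u := hu
        have h3 := h.nonneg u hu'.le
        have h4 := fejerS_nonneg hl (u - y)
        simp only [Pi.zero_apply]
        positivity
      · exact hsub.eventuallyLE
    refine le_trans ?_ h2
    rw [← wiP_shift l η y hη, ← integral_const_mul]
    apply setIntegral_mono_on ((integrable_shift hl y).integrableOn.const_mul _)
      (hint.mono_set hsub) measurableSet_Ioc
    intro u hu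
    have hu0 : 0 < u := hsub hu
    apply mul_le_mul_of_nonneg_right _ (fejerS_nonneg hl _)
    have hm : α (y - η) ≤ α u := h.mono (by simp only [mem_Ici]; linarith) hu0.le hu.1.le
    have he : Real.exp (-(y + η)) ≤ Real.exp (-u) := Real.exp_le_exp.mpr (by linarith [hu.2])
    have he2 : Real.exp (-(δ * (y + η))) ≤ Real.exp (-(δ * u)) := by
      apply Real.exp_le_exp.mpr
      have := mul_le_mul_of_nonneg_left hu.2 hδ.le
      linarith
    have h3 := h.nonneg u hu0.le
    gcongr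
  have h2 : Tendsto (fun δ : ℝ => α (y - η) * Real.exp (-(y + η)) * Real.exp (-(δ * (y + η)))
      * wiP l η) (𝓝[>] 0) (𝓝 (α (y - η) * Real.exp (-(y + η)) * wiP l η)) := by
    have : Continuous fun δ : ℝ => α (y - η) * Real.exp (-(y + η)) * Real.exp (-(δ * (y + η)))
      * wiP l η := by fun_prop
    have h0 := (this.tendsto 0).mono_left (nhdsWithin_le_nhds (s := Ioi (0 : ℝ)))
    simpa using h0
  refine le_of_tendsto_of_tendsto h2 (h.tendsto_J hl y) ?_
  filter_upwards [self_mem_nhdsWithin] with δ hδ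
  exact h1 δ hδ

theorem WIData.lower (h : WIData α A H) {l η y M : ℝ} (hl : 0 < l) (hη : 0 < η) (hy : η ≤ y)
    (hM : ∀ u, 0 ≤ u → α u * Real.exp (-u) ≤ M) :
    wiL A H l y ≤ α (y + η) * Real.exp (-(y - η)) * wiP l η + M * (1 - wiP l η) := by
  have h0 : 0 ≤ α (y + η) := h.nonneg _ (by linarith)
  have hM0 : 0 ≤ M := le_trans (mul_nonneg (h.nonneg 0 le_rfl) (Real.exp_pos _).le) (hM 0 le_rfl)
  set c : ℝ := α (y + η) * Real.exp (-(y - η)) with hc
  have hc0 : 0 ≤ c := mul_nonneg h0 (Real.exp_pos _).le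
  have h1 : ∀ δ > 0, wiJ α l δ y ≤ c * wiP l η + M * (1 - wiP l η) := by
    intro δ hδ
    have hint := h.integrable_J hl hδ y
    set Bd : ℝ → ℝ := fun u => M * fejerS l (u - y)
      + (Ioc (y - η) (y + η)).indicator (fun u => (c - M) * fejerS l (u - y)) u with hBd
    have hi1 : Integrable fun u => M * fejerS l (u - y) := (integrable_shift hl y).const_mul M
    have hi2 : Integrable ((Ioc (y - η) (y + η)).indicator
        (fun u => (c - M) * fejerS l (u - y))) :=
      ((integrable_shift hl y).const_mul _).indicator measurableSet_Ioc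
    have hBdi : Integrable Bd := hi1.add hi2
    have hBd_eq : ∀ u, Bd u = (if u ∈ Ioc (y - η) (y + η) then c else M) * fejerS l (u - y) := by
      intro u
      simp only [hBd, indicator]
      split_ifs
      · ring
      · ring
    have hBd0 : ∀ u, 0 ≤ Bd u := by
      intro u
      rw [hBd_eq]
      apply mul_nonneg _ (fejerS_nonneg hl _)
      split_ifs
      · exact hc0
      · exact hM0
    have h2 : wiJ α l δ y ≤ ∫ u in Ioi (0 : ℝ), Bd u := by
      unfold wiJ
      apply setIntegral_mono_on hint hBdi.integrableOn measurableSet_Ioi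
      intro u hu
      have hu0 : (0 : ℝ) < u := hu
      have h3 := h.nonneg u hu0.le
      rw [hBd_eq]
      apply mul_le_mul_of_nonneg_right _ (fejerS_nonneg hl _)
      have he : Real.exp (-(δ * u)) ≤ 1 := by
        rw [Real.exp_le_one_iff]
        have := mul_pos hδ hu0
        linarith
      have hle : α u * Real.exp (-u) * Real.exp (-(δ * u)) ≤ α u * Real.exp (-u) :=
        mul_le_of_le_one_right (by positivity) he
      refine hle.trans ?_
      split_ifs with hu1
      · rw [hc]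
        have hm : α u ≤ α (y + η) := h.mono hu0.le (by simp only [mem_Ici]; linarith) hu1.2
        have he : Real.exp (-u) ≤ Real.exp (-(y - η)) := Real.exp_le_exp.mpr (by linarith [hu1.1])
        gcongr
      · exact hM u hu0.le
    have h3 : ∫ u in Ioi (0 : ℝ), Bd u ≤ ∫ u, Bd u :=
      setIntegral_le_integral hBdi (Eventually.of_forall hBd0)
    have h4 : ∫ u, Bd u = c * wiP l η + M * (1 - wiP l η) := by
      rw [hBd, integral_add hi1 hi2, integral_indicator measurableSet_Ioc, integral_const_mul,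
        integral_const_mul, wiP_shift l η y hη,
        integral_sub_right_eq_self (fun v => fejerS l v) y, integral_fejerS hl]
      ring
    linarith
  refine le_of_tendsto (h.tendsto_J hl y) ?_
  filter_upwards [self_mem_nhdsWithin] with δ hδ
  exact h1 δ hδ

theorem WIData.A_nonneg (h : WIData α A H) : 0 ≤ A := by
  have hP : ∃ l : ℝ, 0 < l ∧ 0 < wiP l 1 := by
    have h1 := (tendsto_P one_pos).eventually (lt_mem_nhds (show (0 : ℝ) < 1 by norm_num))
    obtain ⟨l, hl, hl2⟩ := (h1.and (eventually_gt_atTop 0)).exists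
    exact ⟨l, hl2, hl⟩
  obtain ⟨l, hl, hP⟩ := hP
  refine ge_of_tendsto (h.tendsto_L hl) ?_
  filter_upwards [eventually_ge_atTop (1 : ℝ)] with y hy
  refine le_trans ?_ (h.upper hl one_pos hy)
  have := h.nonneg (y - 1) (by linarith)
  positivity

theorem WIData.exists_bound (h : WIData α A H) :
    ∃ M, ∀ u, 0 ≤ u → α u * Real.exp (-u) ≤ M := by
  have hP : ∃ l : ℝ, 0 < l ∧ 1 / 2 < wiP l 1 := by
    have h1 := (tendsto_P one_pos).eventually (lt_mem_nhds (show (1 / 2 : ℝ) < 1 by norm_num))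
    obtain ⟨l, hl, hl2⟩ := (h1.and (eventually_gt_atTop 0)).exists
    exact ⟨l, hl2, hl⟩
  obtain ⟨l, hl, hP⟩ := hP
  have hL := (h.tendsto_L hl).eventually (gt_mem_nhds (show A < A + 1 by linarith))
  obtain ⟨Y, hY⟩ := eventually_atTop.mp hL
  set U := max Y 0 with hU
  refine ⟨max (α U) (2 * Real.exp 2 * (A + 1)), fun u hu => ?_⟩
  rcases le_or_gt u U with h1 | h1
  · apply le_max_of_le_left
    have h2 : α u ≤ α U := h.mono hu (by simp [hU]) h1
    have h3 : Real.exp (-u) ≤ 1 := by rw [Real.exp_le_one_iff]; linarith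
    calc α u * Real.exp (-u) ≤ α u := mul_le_of_le_one_right (h.nonneg u hu) h3
      _ ≤ α U := h2
  · apply le_max_of_le_right
    have hyY : Y ≤ u + 1 := by
      have := le_max_left Y 0
      linarith
    have h2 := h.upper hl one_pos (y := u + 1) (by linarith)
    have h3 := hY (u + 1) hyY
    rw [show u + 1 - 1 = u by ring, show -(u + 1 + 1) = -u + -2 by ring, Real.exp_add] at h2
    have h4 := h.nonneg u hu
    have h5 : 0 ≤ α u * (Real.exp (-u) * Real.exp (-2)) := by positivity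
    have h6 : α u * (Real.exp (-u) * Real.exp (-2)) * (1 / 2) ≤ A + 1 := by
      calc α u * (Real.exp (-u) * Real.exp (-2)) * (1 / 2)
          ≤ α u * (Real.exp (-u) * Real.exp (-2)) * wiP l 1 := by gcongr
        _ ≤ A + 1 := by linarith
    have h7 : Real.exp 2 * Real.exp (-2) = 1 := by rw [← Real.exp_add]; simp
    calc α u * Real.exp (-u) = 2 * Real.exp 2 * (α u * (Real.exp (-u) * Real.exp (-2)) * (1 / 2)) := by
          linear_combination (-(α u * Real.exp (-u))) * h7
      _ ≤ 2 * Real.exp 2 * (A + 1) := by gcongr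

/-- **Wiener-Ikehara theorem**, Laplace transform form. -/
theorem WIData.tendsto (h : WIData α A H) :
    Tendsto (fun u => α u * Real.exp (-u)) atTop (𝓝 A) := by
  have hA := h.A_nonneg
  obtain ⟨M, hM⟩ := h.exists_bound
  have hM0 : 0 ≤ M := le_trans (mul_nonneg (h.nonneg 0 le_rfl) (Real.exp_pos _).le) (hM 0 le_rfl)
  rw [tendsto_order]
  constructor
  · intro a ha
    have hc : Continuous fun η : ℝ => Real.exp (-(2 * η)) * (A - η - M * η) := by fun_prop
    have h1 : ∀ᶠ η in 𝓝[>] (0 : ℝ), a < Real.exp (-(2 * η)) * (A - η - M * η) := by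
      have := (hc.tendsto 0).mono_left (nhdsWithin_le_nhds (s := Ioi (0 : ℝ)))
      simp only [mul_zero, neg_zero, Real.exp_zero, sub_zero, one_mul] at this
      exact this.eventually (lt_mem_nhds ha)
    obtain ⟨η, hη1, hη2⟩ := (h1.and (Ioo_mem_nhdsGT (show (0 : ℝ) < 1 by norm_num))).exists
    have hP := (tendsto_P hη2.1).eventually (lt_mem_nhds (show 1 - η < 1 by linarith [hη2.1]))
    obtain ⟨l, hPl, hl⟩ := (hP.and (eventually_gt_atTop 0)).exists
    have hL := (h.tendsto_L hl).eventually (lt_mem_nhds (show A - η < A by linarith [hη2.1]))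
    obtain ⟨Y, hY⟩ := eventually_atTop.mp hL
    filter_upwards [eventually_ge_atTop (max Y 0 + 2)] with u hu
    have hY0 := le_max_left Y 0
    have hY1 := le_max_right Y 0
    have h2 := hY (u - η) (by linarith [hη2.2])
    have h3 := h.lower hl hη2.1 (y := u - η) (by linarith [hη2.2]) hM
    rw [show u - η + η = u by ring, show -(u - η - η) = -u + 2 * η by ring, Real.exp_add] at h3
    have hP1 := wiP_le_one hl hη2.1
    have hu0 : 0 ≤ α u := h.nonneg u (by linarith)
    have h4 : α u * (Real.exp (-u) * Real.exp (2 * η)) * wiP l η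
        ≤ α u * Real.exp (-u) * Real.exp (2 * η) := by
      rw [← mul_assoc]
      exact mul_le_of_le_one_right (by positivity) hP1
    have h5 : M * (1 - wiP l η) ≤ M * η := by
      apply mul_le_mul_of_nonneg_left _ hM0
      linarith
    have h6 : A - η - M * η ≤ α u * Real.exp (-u) * Real.exp (2 * η) := by linarith
    have h7 : Real.exp (-(2 * η)) * Real.exp (2 * η) = 1 := by rw [← Real.exp_add]; simp
    calc a < Real.exp (-(2 * η)) * (A - η - M * η) := hη1
      _ ≤ Real.exp (-(2 * η)) * (α u * Real.exp (-u) * Real.exp (2 * η)) := by gcongr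
      _ = α u * Real.exp (-u) := by linear_combination (α u * Real.exp (-u)) * h7
  · intro a ha
    have hc : ContinuousAt (fun η : ℝ => Real.exp (2 * η) * (A + η) / (1 - η)) 0 := by
      apply ContinuousAt.div (by fun_prop) (by fun_prop) (by norm_num)
    have h1 : ∀ᶠ η in 𝓝[>] (0 : ℝ), Real.exp (2 * η) * (A + η) / (1 - η) < a := by
      have := hc.tendsto.mono_left (nhdsWithin_le_nhds (s := Ioi (0 : ℝ)))
      simp only [mul_zero, Real.exp_zero, sub_zero, one_mul, add_zero, div_one] at this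
      exact this.eventually (gt_mem_nhds ha)
    obtain ⟨η, hη1, hη2⟩ := (h1.and (Ioo_mem_nhdsGT (show (0 : ℝ) < 1 by norm_num))).exists
    have hP := (tendsto_P hη2.1).eventually (lt_mem_nhds (show 1 - η < 1 by linarith [hη2.1]))
    obtain ⟨l, hPl, hl⟩ := (hP.and (eventually_gt_atTop 0)).exists
    have hL := (h.tendsto_L hl).eventually (gt_mem_nhds (show A < A + η by linarith [hη2.1]))
    obtain ⟨Y, hY⟩ := eventually_atTop.mp hL
    filter_upwards [eventually_ge_atTop (max Y 0)] with u hu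
    have hY0 := le_max_left Y 0
    have hY1 := le_max_right Y 0
    have h2 := hY (u + η) (by linarith [hη2.1])
    have h3 := h.upper hl hη2.1 (y := u + η) (by linarith)
    rw [show u + η - η = u by ring, show -(u + η + η) = -u + -(2 * η) by ring, Real.exp_add] at h3
    have hu0 : 0 ≤ α u := h.nonneg u (by linarith)
    have h4 : α u * (Real.exp (-u) * Real.exp (-(2 * η))) * (1 - η)
        ≤ α u * (Real.exp (-u) * Real.exp (-(2 * η))) * wiP l η := by
      apply mul_le_mul_of_nonneg_left hPl.le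
      positivity
    have h6 : α u * (Real.exp (-u) * Real.exp (-(2 * η))) * (1 - η) ≤ A + η := by linarith
    have h7 : Real.exp (2 * η) * Real.exp (-(2 * η)) = 1 := by rw [← Real.exp_add]; simp
    have h8 : 0 < 1 - η := by linarith [hη2.2]
    calc α u * Real.exp (-u)
        = Real.exp (2 * η) * (α u * (Real.exp (-u) * Real.exp (-(2 * η))) * (1 - η)) / (1 - η) := by
          rw [eq_div_iff h8.ne']
          linear_combination (-(α u * Real.exp (-u) * (1 - η))) * h7
      _ ≤ Real.exp (2 * η) * (A + η) / (1 - η) := by gcongr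
      _ < a := hη1

end Pool.Agent.Lib.PNT
end

-- from Lib.PNT.Dirichlet
section

/-!
# The Wiener-Ikehara theorem for Dirichlet series
-/

open Complex MeasureTheory Filter Topology Set

namespace Pool.Agent.Lib.PNT

/-- The summatory function. -/
noncomputable def summ (a : ℕ → ℝ) (x : ℝ) : ℝ := ∑ k ∈ Finset.Icc 1 ⌊x⌋₊, a k

theorem summ_mono {a : ℕ → ℝ} (ha : ∀ n, 0 ≤ a n) : Monotone (summ a) := by
  intro x y hxy
  unfold summ
  apply Finset.sum_le_sum_of_subset_of_nonneg
  · exact Finset.Icc_subset_Icc_right (Nat.floor_le_floor hxy)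
  · intro i _ _
    exact ha i

theorem summ_nonneg {a : ℕ → ℝ} (ha : ∀ n, 0 ≤ a n) (x : ℝ) : 0 ≤ summ a x :=
  Finset.sum_nonneg fun i _ => ha i

theorem summ_le_rpow {a : ℕ → ℝ} (ha : ∀ n, 0 ≤ a n) {r : ℝ} (hr : 0 ≤ r)
    (hS : LSeriesSummable (fun n => (a n : ℂ)) r) :
    ∃ C, 0 ≤ C ∧ ∀ x : ℝ, 1 ≤ x → summ a x ≤ C * x ^ r := by
  have h1 : Summable fun n : ℕ => ‖LSeries.term (fun n => (a n : ℂ)) r n‖ := hS.norm
  refine ⟨∑' n : ℕ, ‖LSeries.term (fun n => (a n : ℂ)) r n‖, tsum_nonneg fun n => norm_nonneg _,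
    fun x hx => ?_⟩
  have h2 : ∀ k ∈ Finset.Icc 1 ⌊x⌋₊, a k ≤ x ^ r * ‖LSeries.term (fun n => (a n : ℂ)) r k‖ := by
    intro k hk
    rw [Finset.mem_Icc] at hk
    have hk0 : k ≠ 0 := by omega
    have hkpos : (0 : ℝ) < k := by exact_mod_cast hk.1
    have hkx : (k : ℝ) ≤ x := (Nat.le_floor_iff (by linarith)).mp hk.2
    rw [LSeries.norm_term_eq, if_neg hk0, Complex.norm_real, Real.norm_of_nonneg (ha k), ofReal_re]
    rw [mul_div_assoc', le_div_iff₀ (Real.rpow_pos_of_pos hkpos _), mul_comm]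
    exact mul_le_mul_of_nonneg_right (Real.rpow_le_rpow hkpos.le hkx hr) (ha k)
  calc summ a x ≤ ∑ k ∈ Finset.Icc 1 ⌊x⌋₊, x ^ r * ‖LSeries.term (fun n => (a n : ℂ)) r k‖ :=
        Finset.sum_le_sum h2
    _ = x ^ r * ∑ k ∈ Finset.Icc 1 ⌊x⌋₊, ‖LSeries.term (fun n => (a n : ℂ)) r k‖ := by
        rw [Finset.mul_sum]
    _ ≤ x ^ r * ∑' n : ℕ, ‖LSeries.term (fun n => (a n : ℂ)) r n‖ := by
        apply mul_le_mul_of_nonneg_left _ (by positivity)
        exact h1.sum_le_tsum _ fun i _ => norm_nonneg _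
    _ = _ := mul_comm _ _

theorem wiData_of_dirichlet (a : ℕ → ℝ) (ha : ∀ n, 0 ≤ a n) (A : ℝ) (G : ℂ → ℂ)
    (hS : ∀ σ : ℝ, 1 < σ → LSeriesSummable (fun n => (a n : ℂ)) σ)
    (hG : ContinuousOn G {s | 1 ≤ s.re})
    (hE : ∀ s : ℂ, 1 < s.re → LSeries (fun n => (a n : ℂ)) s = G s + A / (s - 1)) :
    WIData (fun u => summ a (Real.exp u)) A (fun s => (G s - A) / s) where
  mono := by
    intro u _ v _ huv
    exact summ_mono ha (Real.exp_le_exp.mpr huv)
  nonneg := fun u _ => summ_nonneg ha _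
  int := by
    intro σ hσ
    obtain ⟨C, hC0, hC⟩ := summ_le_rpow ha (r := (1 + σ) / 2) (by linarith)
      (hS _ (by linarith))
    have hm : Measurable fun u => summ a (Real.exp u) :=
      Monotone.measurable fun u v huv => summ_mono ha (Real.exp_le_exp.mpr huv)
    refine Integrable.mono' (g := fun u => C * Real.exp (-((σ - 1) / 2) * u))
      ((integrableOn_exp_mul_Ioi (by linarith) 0).const_mul C) ?_ ?_
    · exact Measurable.aestronglyMeasurable (by fun_prop)
    · filter_upwards [ae_restrict_mem measurableSet_Ioi] with u hu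
      have hu0 : (0 : ℝ) < u := hu
      rw [Real.norm_of_nonneg (mul_nonneg (summ_nonneg ha _) (Real.exp_pos _).le)]
      have h1 := hC (Real.exp u) (by rw [Real.one_le_exp_iff]; exact hu0.le)
      rw [← Real.exp_mul] at h1
      calc summ a (Real.exp u) * Real.exp (-(σ * u))
          ≤ C * Real.exp (u * ((1 + σ) / 2)) * Real.exp (-(σ * u)) := by gcongr
        _ = C * Real.exp (-((σ - 1) / 2) * u) := by
            rw [mul_assoc, ← Real.exp_add]; ring_nf
  cont := by
    apply ContinuousOn.div (hG.sub continuousOn_const) continuousOn_id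
    intro s hs h0
    have : (1 : ℝ) ≤ s.re := hs
    rw [id] at h0
    rw [h0] at this
    simp at this
    linarith
  lap := by
    intro s hs
    have hs0 : s ≠ 0 := by
      intro h0; rw [h0] at hs; simp at hs; linarith
    have hs1 : s - 1 ≠ 0 := by
      intro h0
      have : s = 1 := by linear_combination h0
      rw [this] at hs; simp at hs
    obtain ⟨C, hC0, hC⟩ := summ_le_rpow ha (r := (1 + s.re) / 2) (by linarith)
      (hS _ (by linarith))
    have hO : (fun n : ℕ => ∑ k ∈ Finset.Icc 1 n, a k) =O[atTop]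
        fun n : ℕ => (n : ℝ) ^ ((1 + s.re) / 2) := by
      apply Asymptotics.IsBigO.of_bound C
      filter_upwards [eventually_ge_atTop 1] with n hn
      have h1 := hC n (by exact_mod_cast hn)
      unfold summ at h1
      rw [Nat.floor_natCast] at h1
      rw [Real.norm_of_nonneg (Finset.sum_nonneg fun i _ => ha i),
        Real.norm_of_nonneg (by positivity)]
      exact h1
    have h1 := LSeries_eq_mul_integral_of_nonneg a (r := (1 + s.re) / 2) (by linarith)
      (s := s) (by linarith) hO ha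
    have h2 := integral_comp_exp_Ioi
      (fun t : ℝ => (∑ k ∈ Finset.Icc 1 ⌊t⌋₊, (a k : ℂ)) * (t : ℂ) ^ (-(s + 1))) 0
    rw [Real.exp_zero] at h2
    rw [← h2] at h1
    have h3 : ∫ x in Ioi (0 : ℝ), Real.exp x • ((∑ k ∈ Finset.Icc 1 ⌊Real.exp x⌋₊, (a k : ℂ)) *
        ((Real.exp x : ℝ) : ℂ) ^ (-(s + 1)))
        = ∫ u in Ioi (0 : ℝ), ((summ a (Real.exp u) : ℝ) : ℂ) * cexp (-(s * u)) := by
      apply integral_congr_ae
      refine Eventually.of_forall fun u => ?_
      simp only [summ, real_smul]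
      push_cast
      have h4 : (cexp u) ^ (-(s + 1)) = cexp (-(s + 1) * u) := by
        rw [← ofReal_exp, Complex.cpow_def_of_ne_zero (by exact_mod_cast (Real.exp_pos u).ne'),
          ← Complex.ofReal_log (Real.exp_pos u).le, Real.log_exp, mul_comm]
      rw [h4]
      have h5 : cexp (-(s * u)) = cexp u * cexp (-(s + 1) * u) := by
        rw [← Complex.exp_add]; ring_nf
      rw [h5]
      ring
    rw [h3, hE s hs] at h1
    have h6 : ∫ u in Ioi (0 : ℝ), ((summ a (Real.exp u) : ℝ) : ℂ) * cexp (-(s * u))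
        = (G s + A / (s - 1)) / s := by
      rw [h1]; field_simp
    rw [h6]
    field_simp
    ring

/-- **Wiener-Ikehara theorem** for Dirichlet series with nonnegative coefficients. -/
theorem wiener_ikehara (a : ℕ → ℝ) (ha : ∀ n, 0 ≤ a n) (A : ℝ) (G : ℂ → ℂ)
    (hS : ∀ σ : ℝ, 1 < σ → LSeriesSummable (fun n => (a n : ℂ)) σ)
    (hG : ContinuousOn G {s | 1 ≤ s.re})
    (hE : ∀ s : ℂ, 1 < s.re → LSeries (fun n => (a n : ℂ)) s = G s + A / (s - 1)) :
    Tendsto (fun x : ℝ => summ a x / x) atTop (𝓝 A) := by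
  have h := (wiData_of_dirichlet a ha A G hS hG hE).tendsto
  refine (h.comp Real.tendsto_log_atTop).congr' ?_
  filter_upwards [eventually_gt_atTop 0] with x hx
  simp only [Function.comp]
  rw [Real.exp_neg, Real.exp_log hx, div_eq_mul_inv]


end Pool.Agent.Lib.PNT
end

-- from Lib.PNT.PNT
section

/-!
# The prime number theorem, also in arithmetic progressions
-/

open Complex MeasureTheory Filter Topology Set

namespace Pool.Agent.Lib.PNT

/-- Chebyshev's theta function for the primes with property `P`. -/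
noncomputable def thetaP (P : ℕ → Prop) [DecidablePred P] (x : ℝ) : ℝ :=
  ∑ p ∈ Finset.Ioc 0 ⌊x⌋₊ with p.Prime ∧ P p, Real.log p


variable {P : ℕ → Prop} [DecidablePred P]












section AP

variable {q : ℕ} [NeZero q] {a : ZMod q}

open ArithmeticFunction ArithmeticFunction.vonMangoldt

theorem summ_residueClass_tendsto (ha : IsUnit a) :
    Tendsto (fun x : ℝ => summ (residueClass a) x / x) atTop (𝓝 (q.totient : ℝ)⁻¹) := by
  apply wiener_ikehara _ (fun n => residueClass_nonneg a n) _ (LFunctionResidueClassAux a)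
  · intro σ hσ
    apply LSeriesSummable_of_abscissaOfAbsConv_lt_re
    refine (abscissaOfAbsConv_residueClass_le_one a).trans_lt ?_
    rw [ofReal_re]
    exact_mod_cast hσ
  · exact continuousOn_LFunctionResidueClassAux a
  · intro s hs
    have h := eqOn_LFunctionResidueClassAux ha hs
    rw [h]
    push_cast
    ring

theorem summ_residueClass_sub_thetaP (x : ℝ) :
    |summ (residueClass a) x - thetaP (fun p => (p : ZMod q) = a) x|
      ≤ Chebyshev.psi x - Chebyshev.theta x := by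
  have h1 : summ (residueClass a) x - thetaP (fun p => (p : ZMod q) = a) x
      = ∑ n ∈ Finset.Ioc 0 ⌊x⌋₊ with ¬ n.Prime, residueClass a n := by
    unfold summ thetaP
    rw [show Finset.Icc 1 ⌊x⌋₊ = Finset.Ioc 0 ⌊x⌋₊ from rfl,
      ← Finset.sum_filter_add_sum_filter_not (Finset.Ioc 0 ⌊x⌋₊) (fun p => p.Prime)]
    have : ∑ n ∈ Finset.Ioc 0 ⌊x⌋₊ with n.Prime, residueClass a n
        = ∑ p ∈ Finset.filter (fun p : ℕ => p.Prime ∧ (p : ZMod q) = a) (Finset.Ioc 0 ⌊x⌋₊),
          Real.log p := by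
      rw [Finset.sum_filter, Finset.sum_filter]
      apply Finset.sum_congr rfl
      intro p _
      by_cases hp : p.Prime
      · by_cases h2 : (p : ZMod q) = a
        · rw [if_pos hp, if_pos ⟨hp, h2⟩]
          simp only [residueClass]
          rw [Set.indicator_of_mem (by exact h2), vonMangoldt_apply_prime hp]
        · rw [if_pos hp, if_neg (fun h => h2 h.2)]
          simp only [residueClass]
          rw [Set.indicator_of_notMem (by exact h2)]
      · rw [if_neg hp, if_neg (fun h => hp h.1)]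
    rw [this]
    ring
  rw [h1, Chebyshev.psi_sub_theta_eq_sum_not_prime, abs_of_nonneg
    (Finset.sum_nonneg fun n _ => residueClass_nonneg a n)]
  exact Finset.sum_le_sum fun n _ => residueClass_le a n

theorem psi_sub_theta_div_tendsto :
    Tendsto (fun x : ℝ => (Chebyshev.psi x - Chebyshev.theta x) / x) atTop (𝓝 0) := by
  obtain ⟨C, hC⟩ := Chebyshev.psi_sub_theta_le_mul_sqrt
  have h1 : Tendsto (fun x : ℝ => C * (x ^ (1 / 2 : ℝ))⁻¹) atTop (𝓝 (C * 0)) :=
    ((tendsto_rpow_atTop (by norm_num)).inv_tendsto_atTop).const_mul C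
  rw [mul_zero] at h1
  refine squeeze_zero' ?_ ?_ h1
  · filter_upwards [eventually_gt_atTop 0] with x hx
    have := Chebyshev.theta_le_psi x
    exact div_nonneg (by linarith) hx.le
  · filter_upwards [eventually_gt_atTop 0] with x hx
    rw [← Real.sqrt_eq_rpow, div_le_iff₀ hx]
    refine (hC x).trans (le_of_eq ?_)
    have h2 : √x ≠ 0 := (Real.sqrt_pos.mpr hx).ne'
    have h3 : √x * √x = x := Real.mul_self_sqrt hx.le
    field_simp
    linear_combination C * h3

/-- **Prime number theorem in arithmetic progressions**, theta form. -/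
theorem thetaAP_tendsto (ha : IsUnit a) :
    Tendsto (fun x : ℝ => thetaP (fun p => (p : ZMod q) = a) x / x) atTop
      (𝓝 (q.totient : ℝ)⁻¹) := by
  have h1 := summ_residueClass_tendsto ha
  have h2 : Tendsto (fun x : ℝ => (summ (residueClass a) x
      - thetaP (fun p => (p : ZMod q) = a) x) / x) atTop (𝓝 0) := by
    rw [tendsto_zero_iff_abs_tendsto_zero]
    refine squeeze_zero' (Eventually.of_forall fun x => abs_nonneg _) ?_ psi_sub_theta_div_tendsto
    filter_upwards [eventually_gt_atTop 0] with x hx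
    simp only [Function.comp]
    rw [abs_div, abs_of_pos hx]
    exact div_le_div_of_nonneg_right (summ_residueClass_sub_thetaP x) hx.le
  have h3 := h1.sub h2
  rw [sub_zero] at h3
  refine h3.congr fun x => ?_
  ring



end AP

/-- **Prime number theorem**, theta form. -/
theorem theta_tendsto : Tendsto (fun x : ℝ => Chebyshev.theta x / x) atTop (𝓝 1) := by
  have h := thetaAP_tendsto (q := 1) (a := 0) (by rw [isUnit_iff_eq_one]; rfl)
  simp only [Nat.totient_one, Nat.cast_one, inv_one] at h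
  refine h.congr fun x => ?_
  congr 1
  unfold thetaP Chebyshev.theta
  apply Finset.sum_congr _ fun _ _ => rfl
  ext p
  rw [Finset.mem_filter, Finset.mem_filter]
  constructor
  · rintro ⟨h1, h2, _⟩; exact ⟨h1, h2⟩
  · rintro ⟨h1, h2⟩; exact ⟨h1, h2, Subsingleton.elim _ _⟩









end Pool.Agent.Lib.PNT
end

-- from Lib.H18GB.Pntl
section

/-!
# Project GB: PNTL
-/

namespace Pool.Agent.Lib.H18GB

open Finset Pool.Agent.Lib.Sieve

/-- truncation of `uu W r` to `[0, M1)` -/
noncomputable def uc (W : ℕ) (r M1 n : ℤ) : ℂ := if 0 ≤ n ∧ n < M1 then (uu W r n : ℂ) else 0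

theorem lamv_nonneg (W : ℕ) (v : ℤ) : 0 ≤ lamv W v := by
  unfold lamv
  split_ifs
  · exact mul_nonneg (by positivity) (Real.log_natCast_nonneg _)
  · exact le_rfl

theorem lam_nonneg (W : ℕ) (r n : ℤ) : 0 ≤ lam W r n := lamv_nonneg _ _

open Pool.Agent.Lib.PNT in
private theorem theta_succ (W b k : ℕ) (hW : 0 < W) (hb : 0 < b) :
    thetaP (fun p => (p : ZMod W) = (b : ZMod W)) ((b + W * (k + 1) - 1 : ℕ) : ℝ) =
      thetaP (fun p => (p : ZMod W) = (b : ZMod W)) ((b + W * k - 1 : ℕ) : ℝ) +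
        if (b + W * k).Prime then Real.log ((b + W * k : ℕ) : ℝ) else 0 := by
  unfold thetaP
  rw [Nat.floor_natCast, Nat.floor_natCast, Finset.sum_filter, Finset.sum_filter]
  obtain ⟨N, hN⟩ : ∃ N, N + 1 = b + W * k := ⟨b + W * k - 1, by omega⟩
  have e1 : b + W * (k + 1) - 1 = N + W := by rw [mul_add, mul_one]; omega
  have e2 : b + W * k - 1 = N := by omega
  rw [e1, e2, ← Finset.sum_Ioc_consecutive _ (Nat.zero_le N) (Nat.le_add_right N W)]
  congr 1
  rw [Finset.sum_eq_single (N + 1)]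
  · rw [hN]
    by_cases hp : (b + W * k).Prime
    · rw [if_pos hp, if_pos]
      refine ⟨hp, ?_⟩
      push_cast
      simp
    · rw [if_neg hp, if_neg]
      exact fun h => hp h.1
  · intro p hp hne
    rw [if_neg]
    rintro ⟨-, h2⟩
    apply hne
    rw [Finset.mem_Ioc] at hp
    have h3 : ((p : ℕ) : ZMod W) = ((N + 1 : ℕ) : ZMod W) := by
      rw [h2, hN]; push_cast; simp
    rw [ZMod.natCast_eq_natCast_iff] at h3
    have h4 : (N + 1) ≡ p [MOD W] := h3.symm
    rw [Nat.modEq_iff_dvd' (by omega)] at h4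
    obtain ⟨c, hc⟩ := h4
    have : c = 0 := by
      by_contra hc0
      have : W * 1 ≤ W * c := Nat.mul_le_mul_left _ (Nat.pos_of_ne_zero hc0)
      omega
    rw [this] at hc
    omega
  · intro h
    exact absurd (Finset.mem_Ioc.mpr ⟨by omega, by omega⟩) h

open Pool.Agent.Lib.PNT in
private theorem lam_sum (W : ℕ) (hW : 0 < W) (r : ℤ) (b : ℕ) (hb : 0 < b)
    (hbr : (b : ℤ) = r + 2 * W) (k : ℕ) :
    ∑ n ∈ Finset.Ico (0 : ℤ) (k + 2 : ℕ), lam W r n = lam W r 0 + lam W r 1 +
      (Nat.totient W / W : ℝ) *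
        (thetaP (fun p => (p : ZMod W) = (b : ZMod W)) ((b + W * k - 1 : ℕ) : ℝ) -
          thetaP (fun p => (p : ZMod W) = (b : ZMod W)) ((b + W * 0 - 1 : ℕ) : ℝ)) := by
  induction k with
  | zero =>
    have : Finset.Ico (0 : ℤ) ((0 + 2 : ℕ) : ℤ) = {0, 1} := by
      ext x; simp only [Finset.mem_Ico, Finset.mem_insert, Finset.mem_singleton]
      push_cast; omega
    rw [this, Finset.sum_pair (by norm_num)]
    ring
  | succ k ih =>
    have e1 : Finset.Ico (0 : ℤ) ((k + 1 + 2 : ℕ) : ℤ) =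
        insert ((k + 2 : ℕ) : ℤ) (Finset.Ico (0 : ℤ) ((k + 2 : ℕ) : ℤ)) := by
      ext x; simp only [Finset.mem_Ico, Finset.mem_insert]
      push_cast; omega
    rw [e1, Finset.sum_insert (by simp), ih, theta_succ W b k hW hb]
    have e2 : r + W * ((k + 2 : ℕ) : ℤ) = ((b + W * k : ℕ) : ℤ) := by
      push_cast; rw [hbr]; ring
    have e3 : lam W r ((k + 2 : ℕ) : ℤ) = (Nat.totient W / W : ℝ) *
        (if (b + W * k).Prime then Real.log ((b + W * k : ℕ) : ℝ) else 0) := by
      unfold lam lamv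
      rw [e2, Int.natAbs_natCast]
      split_ifs
      · rfl
      · ring
    rw [e3]
    ring

open Pool.Agent.Lib.PNT Filter Topology in
private theorem lam_tendsto (W : ℕ) (hW : 0 < W) (r : ℤ) (hr : |r| < 2 * W)
    (hc : IsCoprime r (W : ℤ)) :
    Tendsto (fun m : ℕ => (∑ n ∈ Finset.Ico (0 : ℤ) (m : ℕ), lam W r n) / (m : ℝ)) atTop
      (𝓝 1) := by
  haveI : NeZero W := ⟨hW.ne'⟩
  have hr' := abs_lt.mp hr
  obtain ⟨b, hbr⟩ : ∃ b : ℕ, (b : ℤ) = r + 2 * W := ⟨(r + 2 * W).toNat, by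
    rw [Int.toNat_of_nonneg (by linarith)]⟩
  have hb : 0 < b := by
    have : (0 : ℤ) < b := by rw [hbr]; linarith
    exact_mod_cast this
  have hu : IsUnit (b : ZMod W) := by
    rw [ZMod.isUnit_iff_coprime]
    have h1 : IsCoprime (b : ℤ) (W : ℤ) := by
      rw [hbr]
      exact IsCoprime.add_mul_right_left hc 2
    exact Nat.isCoprime_iff_coprime.mp h1
  have h1 := thetaAP_tendsto hu
  have hx : Tendsto (fun k : ℕ => ((b + W * k - 1 : ℕ) : ℝ)) atTop atTop := by
    apply tendsto_natCast_atTop_atTop.comp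
    apply tendsto_atTop_mono (f := fun k : ℕ => k) _ tendsto_id
    intro k
    have : 1 * k ≤ W * k := Nat.mul_le_mul_right _ hW
    show k ≤ b + W * k - 1
    omega
  have h2 := h1.comp hx
  have hx2 : Tendsto (fun k : ℕ => ((b + W * k - 1 : ℕ) : ℝ) / ((k + 2 : ℕ) : ℝ)) atTop
      (𝓝 (W : ℝ)) := by
    have h3 : Tendsto (fun k : ℕ => (W : ℝ) + ((b : ℝ) - 1 - 2 * W) * (1 / ((k + 2 : ℕ) : ℝ)))
        atTop (𝓝 ((W : ℝ) + ((b : ℝ) - 1 - 2 * W) * 0)) := by
      apply Tendsto.add tendsto_const_nhds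
      apply Tendsto.mul tendsto_const_nhds
      exact (tendsto_add_atTop_iff_nat (f := fun k : ℕ => 1 / (k : ℝ)) 2).mpr
        tendsto_one_div_atTop_nhds_zero_nat
    rw [mul_zero, add_zero] at h3
    refine h3.congr fun k => ?_
    have : ((b + W * k - 1 : ℕ) : ℝ) = b + W * k - 1 := by
      rw [Nat.cast_sub (by omega)]; push_cast; ring
    rw [this]
    have hk : ((k + 2 : ℕ) : ℝ) ≠ 0 := by positivity
    field_simp
    push_cast
    ring
  have h4 : Tendsto (fun k : ℕ =>
      thetaP (fun p => (p : ZMod W) = (b : ZMod W)) ((b + W * k - 1 : ℕ) : ℝ) /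
        ((k + 2 : ℕ) : ℝ)) atTop (𝓝 ((W.totient : ℝ)⁻¹ * W)) := by
    refine (h2.mul hx2).congr' ?_
    filter_upwards [eventually_ge_atTop 1] with k hk
    have h5 : ((b + W * k - 1 : ℕ) : ℝ) ≠ 0 := by
      have : 1 * 1 ≤ W * k := Nat.mul_le_mul hW hk
      have : b + W * k - 1 ≠ 0 := by omega
      exact_mod_cast this
    simp only [Function.comp]
    rw [div_mul_div_cancel₀ h5]
  rw [← tendsto_add_atTop_iff_nat 2]
  set c0 : ℝ := lam W r 0 + lam W r 1 - (Nat.totient W / W : ℝ) *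
    thetaP (fun p => (p : ZMod W) = (b : ZMod W)) ((b + W * 0 - 1 : ℕ) : ℝ) with hc0
  have h6 : Tendsto (fun k : ℕ => c0 * (1 / ((k + 2 : ℕ) : ℝ)) + (Nat.totient W / W : ℝ) *
      (thetaP (fun p => (p : ZMod W) = (b : ZMod W)) ((b + W * k - 1 : ℕ) : ℝ) /
        ((k + 2 : ℕ) : ℝ))) atTop
      (𝓝 (c0 * 0 + (Nat.totient W / W : ℝ) * ((W.totient : ℝ)⁻¹ * W))) := by
    apply Tendsto.add
    · apply Tendsto.mul tendsto_const_nhds
      exact (tendsto_add_atTop_iff_nat (f := fun k : ℕ => 1 / (k : ℝ)) 2).mpr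
        tendsto_one_div_atTop_nhds_zero_nat
    · exact Tendsto.mul tendsto_const_nhds h4
  have h7 : c0 * 0 + (Nat.totient W / W : ℝ) * ((W.totient : ℝ)⁻¹ * W) = 1 := by
    have h8 : (W.totient : ℝ) ≠ 0 := by
      have := Nat.totient_pos.mpr hW
      positivity
    have h9 : (W : ℝ) ≠ 0 := by positivity
    field_simp
    ring
  rw [h7] at h6
  refine h6.congr fun k => ?_
  rw [lam_sum W hW r b hb hbr k, hc0]
  ring

private theorem uu_sum (W : ℕ) (r : ℤ) (m : ℕ) :
    ∑ n ∈ Finset.Ico (0 : ℤ) (m : ℕ), uu W r n =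
      (∑ n ∈ Finset.Ico (0 : ℤ) (m : ℕ), lam W r n) - m := by
  unfold uu
  rw [Finset.sum_sub_distrib]
  simp

open Filter Topology in
private theorem pntlam_aux (W : ℕ) (hW : 0 < W) (δ : ℝ) (hδ : 0 < δ) (r : ℤ) (hr : |r| < 2 * W)
    (hc : IsCoprime r (W : ℤ)) : ∀ᶠ M : ℕ in atTop, ∀ m : ℕ, m ≤ M →
    |∑ n ∈ Finset.Ico (0 : ℤ) (m : ℕ), uu W r n| ≤ δ * M := by
  have h1 := lam_tendsto W hW r hr hc
  have h2 : ∀ᶠ m : ℕ in atTop, |∑ n ∈ Finset.Ico (0 : ℤ) (m : ℕ), uu W r n| ≤ δ * m := by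
    rw [Metric.tendsto_atTop] at h1
    obtain ⟨N, hN⟩ := h1 δ hδ
    filter_upwards [eventually_ge_atTop N, eventually_gt_atTop 0] with m hm hm0
    have h3 := hN m hm
    rw [Real.dist_eq] at h3
    have hm' : (0 : ℝ) < m := by exact_mod_cast hm0
    rw [uu_sum]
    have h4 : (∑ n ∈ Finset.Ico (0 : ℤ) (m : ℕ), lam W r n) - m =
        ((∑ n ∈ Finset.Ico (0 : ℤ) (m : ℕ), lam W r n) / m - 1) * m := by
      field_simp
    rw [h4, abs_mul, abs_of_pos hm']
    exact mul_le_mul_of_nonneg_right h3.le hm'.le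
  rw [eventually_atTop] at h2
  obtain ⟨N, hN⟩ := h2
  obtain ⟨C, hC⟩ : ∃ C : ℝ, ∀ m ∈ Finset.range N,
      |∑ n ∈ Finset.Ico (0 : ℤ) (m : ℕ), uu W r n| ≤ C := by
    refine ⟨∑ m ∈ Finset.range N, |∑ n ∈ Finset.Ico (0 : ℤ) (m : ℕ), uu W r n|, ?_⟩
    intro m hm
    exact Finset.single_le_sum (f := fun m : ℕ => |∑ n ∈ Finset.Ico (0 : ℤ) (m : ℕ), uu W r n|)
      (fun _ _ => abs_nonneg _) hm
  have h5 : Tendsto (fun M : ℕ => δ * (M : ℝ)) atTop atTop :=
    Tendsto.const_mul_atTop hδ tendsto_natCast_atTop_atTop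
  filter_upwards [h5.eventually_ge_atTop C] with M hM m hm
  by_cases hmN : m < N
  · exact (hC m (Finset.mem_range.mpr hmN)).trans hM
  · refine (hN m (by omega)).trans ?_
    have : (m : ℝ) ≤ M := by exact_mod_cast hm
    exact mul_le_mul_of_nonneg_left this hδ.le

/-- Chunk PNTL: the prime number theorem in progressions (`Pool.Agent.Lib.PNT.thetaAP_tendsto`).
Finitely many `r`; `∑_{n < M'} lam W r n = φ(W)/W * θ(r + W M'; W, r) + O(log W)`; for `M' ≤ δ' M`
use monotonicity. -/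
theorem pntlam (W : ℕ) (hW : 0 < W) (δ : ℝ) (hδ : 0 < δ) : ∃ M0 : ℕ, ∀ M : ℕ, M0 ≤ M →
    ∀ r : ℤ, |r| < 2 * W → IsCoprime r (W : ℤ) → ∀ M' : ℤ, 0 ≤ M' → M' ≤ M →
    |∑ n ∈ Finset.Ico (0 : ℤ) M', uu W r n| ≤ δ * M := by
  have h : ∀ᶠ M : ℕ in Filter.atTop, ∀ r ∈ Finset.Ioo (-(2 * W : ℤ)) (2 * W),
      IsCoprime r (W : ℤ) → ∀ m : ℕ, m ≤ M →
      |∑ n ∈ Finset.Ico (0 : ℤ) (m : ℕ), uu W r n| ≤ δ * M := by
    rw [Filter.eventually_all_finset]
    intro r hr
    by_cases hc : IsCoprime r (W : ℤ)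
    · have hr' : |r| < 2 * W := by
        rw [Finset.mem_Ioo] at hr
        exact abs_lt.mpr hr
      filter_upwards [pntlam_aux W hW δ hδ r hr' hc] with M hM _ m hm
      exact hM m hm
    · exact Filter.Eventually.of_forall fun M h => absurd h hc
  rw [Filter.eventually_atTop] at h
  obtain ⟨M0, hM0⟩ := h
  refine ⟨M0, fun M hM r hr hc M' h0 h1 => ?_⟩
  obtain ⟨m, rfl⟩ := Int.eq_ofNat_of_zero_le h0
  exact hM0 M hM r (Finset.mem_Ioo.mpr (abs_lt.mp hr)) hc m (by exact_mod_cast h1)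

/-- Chunk PNTL: consequence of `pntlam`. -/
theorem l1lam (W : ℕ) (hW : 0 < W) : ∃ M0 : ℕ, ∀ M : ℕ, M0 ≤ M →
    ∀ r : ℤ, |r| < 2 * W → IsCoprime r (W : ℤ) →
    ∑ n ∈ Finset.Ico (0 : ℤ) M, |uu W r n| ≤ 3 * M := by
  obtain ⟨M0, h0⟩ := pntlam W hW 1 one_pos
  refine ⟨M0, fun M hM r hr hc => ?_⟩
  have h1 := (le_abs_self _).trans (h0 M hM r hr hc M (by positivity) le_rfl)
  have h2 : ∑ n ∈ Finset.Ico (0 : ℤ) M, |uu W r n| ≤
      ∑ n ∈ Finset.Ico (0 : ℤ) M, (uu W r n + 2) := by
    apply Finset.sum_le_sum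
    intro n _
    have := lam_nonneg W r n
    unfold uu
    rw [abs_le]
    constructor <;> linarith
  rw [Finset.sum_add_distrib] at h2
  have h3 : ∑ n ∈ Finset.Ico (0 : ℤ) M, (2 : ℝ) = 2 * M := by simp [mul_comm]
  linarith

end Pool.Agent.Lib.H18GB
end

-- from Lib.H18GB.RT
section

/-!
# Project GB: RT (`rt s M = ⌊M^(1/s)⌋`)
-/

namespace Pool.Agent.Lib.H18GB

open Finset Pool.Agent.Lib.Sieve

/-- the integer part of `M^(1/s)` -/
noncomputable def rt (s M : ℕ) : ℕ := ⌊(M : ℝ) ^ (1 / (s : ℝ))⌋₊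

theorem rt_le_rpow (s M : ℕ) : (rt s M : ℝ) ≤ (M : ℝ) ^ (1 / (s : ℝ)) :=
  Nat.floor_le (Real.rpow_nonneg (Nat.cast_nonneg _) _)

theorem rpow_lt_rt_succ (s M : ℕ) : (M : ℝ) ^ (1 / (s : ℝ)) < (rt s M : ℝ) + 1 :=
  Nat.lt_floor_add_one _

theorem rpow_inv_pow {s : ℕ} (hs : 1 ≤ s) (M : ℕ) : ((M : ℝ) ^ (1 / (s : ℝ))) ^ s = M := by
  rw [← Real.rpow_natCast, ← Real.rpow_mul (Nat.cast_nonneg _), one_div,
    inv_mul_cancel₀ (by exact_mod_cast (by omega : s ≠ 0)), Real.rpow_one]

/-- Chunk RT -/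
theorem rt_pow_le {s : ℕ} (hs : 1 ≤ s) (M : ℕ) : rt s M ^ s ≤ M := by
  have h1 : ((rt s M : ℝ)) ^ s ≤ M := by
    calc ((rt s M : ℝ)) ^ s ≤ ((M : ℝ) ^ (1 / (s : ℝ))) ^ s :=
          pow_le_pow_left₀ (Nat.cast_nonneg _) (rt_le_rpow s M) s
      _ = M := rpow_inv_pow hs M
  exact_mod_cast h1

/-- Chunk RT -/
theorem lt_rt_succ_pow {s : ℕ} (hs : 1 ≤ s) (M : ℕ) : M < (rt s M + 1) ^ s := by
  have h1 : (M : ℝ) < ((rt s M : ℝ) + 1) ^ s := by
    calc (M : ℝ) = ((M : ℝ) ^ (1 / (s : ℝ))) ^ s := (rpow_inv_pow hs M).symm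
      _ < ((rt s M : ℝ) + 1) ^ s :=
          pow_lt_pow_left₀ (rpow_lt_rt_succ s M) (Real.rpow_nonneg (Nat.cast_nonneg _) _)
            (by omega)
  exact_mod_cast h1

/-- Chunk RT -/
theorem rt_tendsto {s : ℕ} (hs : 1 ≤ s) : Filter.Tendsto (rt s) Filter.atTop Filter.atTop := by
  have h1 : Filter.Tendsto (fun M : ℕ => (M : ℝ) ^ (1 / (s : ℝ))) Filter.atTop Filter.atTop :=
    (tendsto_rpow_atTop (by positivity)).comp tendsto_natCast_atTop_atTop
  exact tendsto_nat_floor_atTop.comp h1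

/-- Chunk RT -/
theorem rt_mono_pow {s t : ℕ} (hs : 1 ≤ s) (ht : 1 ≤ t) (M : ℕ) : rt (s * t) M ^ t ≤ rt s M := by
  apply Nat.le_floor
  push_cast
  calc ((rt (s * t) M : ℝ)) ^ t ≤ ((M : ℝ) ^ (1 / ((s * t : ℕ) : ℝ))) ^ t :=
        pow_le_pow_left₀ (Nat.cast_nonneg _) (rt_le_rpow (s * t) M) t
    _ = (M : ℝ) ^ (1 / (s : ℝ)) := by
        rw [← Real.rpow_natCast, ← Real.rpow_mul (Nat.cast_nonneg _)]
        congr 1
        have h1 : (s : ℝ) ≠ 0 := by exact_mod_cast (by omega : s ≠ 0)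
        have h2 : (t : ℝ) ≠ 0 := by exact_mod_cast (by omega : t ≠ 0)
        push_cast
        field_simp

/-- Chunk RT -/
theorem log_le_rt {s : ℕ} (hs : 1 ≤ s) : ∃ M0 : ℕ, ∀ M ≥ M0,
    Real.log M ≤ 2 * s * Real.log (rt s M) := by
  obtain ⟨M0, hM0⟩ := Filter.eventually_atTop.mp
    ((rt_tendsto hs).eventually (Filter.eventually_ge_atTop 2))
  refine ⟨M0 + 1, fun M hM => ?_⟩
  have h2 : 2 ≤ rt s M := hM0 M (by omega)
  have h2' : (2 : ℝ) ≤ rt s M := by exact_mod_cast h2
  have hMpos : (0 : ℝ) < M := by exact_mod_cast (by omega : 0 < M)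
  have h3 : (M : ℝ) ≤ ((rt s M : ℝ) + 1) ^ s := by exact_mod_cast (lt_rt_succ_pow hs M).le
  have h4 : ((rt s M : ℝ) + 1) ≤ (rt s M : ℝ) ^ 2 := by nlinarith
  have h5 : (M : ℝ) ≤ ((rt s M : ℝ) ^ 2) ^ s :=
    h3.trans (pow_le_pow_left₀ (by positivity) h4 s)
  have h6 := Real.log_le_log hMpos h5
  rw [← pow_mul, Real.log_pow] at h6
  push_cast at h6
  calc Real.log M ≤ 2 * s * Real.log (rt s M) := h6

end Pool.Agent.Lib.H18GB
end

-- from Lib.Sieve.Averages
section

/-!
# Mertens type upper bound and averages of multiplicative functions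
-/

namespace Pool.Agent.Lib.Sieve

open Finset

/-- The reciprocal map as a monoid homomorphism. -/
noncomputable def recHom : ℕ →* ℝ :=
  (invMonoidHom : ℝ →* ℝ).comp (Nat.castRingHom ℝ : ℕ →* ℝ)

theorem recHom_apply (m : ℕ) : recHom m = (m : ℝ)⁻¹ := rfl

/-- `∏_{p ≤ z} (1 - 1/p) ≤ 1 / log z`. -/
theorem prod_one_sub_inv_le (z : ℕ) (hz : 2 ≤ z) :
    ∏ p ∈ primesUpTo z, (1 - 1 / (p : ℝ)) ≤ 1 / Real.log z := by
  have hz' : (2 : ℝ) ≤ z := by exact_mod_cast hz
  have hlog : 0 < Real.log z := Real.log_pos (by linarith)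
  have hnorm : ∀ {p : ℕ}, p.Prime → ‖recHom p‖ < 1 := by
    intro p hp
    rw [recHom_apply, norm_inv, Real.norm_natCast]
    apply inv_lt_one_of_one_lt₀
    exact_mod_cast hp.one_lt
  have h1 := EulerProduct.summable_and_hasSum_smoothNumbers_prod_primesBelow_geometric
    (f := recHom) hnorm (z + 1)
  obtain ⟨hsum, hhas⟩ := h1
  have h2 : ∏ p ∈ (z + 1).primesBelow, (1 - recHom p)⁻¹
      = (∏ p ∈ primesUpTo z, (1 - 1 / (p : ℝ)))⁻¹ := by
    rw [← Finset.prod_inv_distrib]
    refine Finset.prod_congr rfl fun p _ => ?_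
    rw [recHom_apply, one_div]
  rw [h2] at hhas
  -- the sum over `1 ≤ m ≤ z`
  have h3 : ∑ m ∈ Finset.Icc 1 z, ((m : ℝ)⁻¹)
      ≤ (∏ p ∈ primesUpTo z, (1 - 1 / (p : ℝ)))⁻¹ := by
    let s : Finset (Nat.smoothNumbers (z + 1)) :=
      (Finset.Icc 1 z).attach.map ⟨fun m => ⟨m.1, by
        have hm := Finset.mem_Icc.mp m.2
        exact Nat.mem_smoothNumbers_of_lt (by omega) (by omega)⟩, fun a b hab => by
        apply Subtype.ext
        exact congrArg (fun x => x.1) hab⟩
    have h4 := sum_le_hasSum s (fun i _ => by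
      rw [recHom_apply]
      positivity) hhas
    refine le_trans (le_of_eq ?_) h4
    rw [Finset.sum_map]
    simp only [Function.Embedding.coeFn_mk, recHom_apply]
    exact (Finset.sum_attach (Finset.Icc 1 z) fun m => ((m : ℝ)⁻¹)).symm
  have h5 : Real.log z ≤ ∑ m ∈ Finset.Icc 1 z, ((m : ℝ)⁻¹) := by
    have h6 := log_add_one_le_harmonic z
    rw [harmonic_eq_sum_Icc] at h6
    push_cast at h6
    refine le_trans ?_ h6
    apply Real.log_le_log (by linarith)
    linarith
  have hpos : 0 < ∏ p ∈ primesUpTo z, (1 - 1 / (p : ℝ)) := by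
    apply Finset.prod_pos
    intro p hp
    have hp1 : (1 : ℝ) < p := by exact_mod_cast (mem_primesUpTo.mp hp).1.one_lt
    rw [sub_pos, div_lt_one (by linarith)]
    exact hp1
  have h7 : Real.log z ≤ (∏ p ∈ primesUpTo z, (1 - 1 / (p : ℝ)))⁻¹ := h5.trans h3
  rw [le_div_iff₀ hlog]
  have h8 := mul_le_mul_of_nonneg_left h7 hpos.le
  rwa [mul_inv_cancel₀ hpos.ne'] at h8

/-- Average of a product over the prime factors. -/
theorem sum_prod_primeFactors_le (h : ℕ → ℝ) (h0 : ∀ p, 0 ≤ h p) (N : ℕ) :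
    ∑ m ∈ Finset.Icc 1 N, ∏ p ∈ m.primeFactors, (1 + h p)
      ≤ N * ∏ p ∈ primesUpTo N, (1 + h p / p) := by
  have hD0 : ∀ D : Finset ℕ, 0 ≤ ∏ p ∈ D, h p := fun D => Finset.prod_nonneg fun p _ => h0 p
  have h1 : ∀ m ∈ Finset.Icc 1 N, ∏ p ∈ m.primeFactors, (1 + h p)
      ≤ ∑ D ∈ (primesUpTo N).powerset, if (∏ p ∈ D, p) ∣ m then ∏ p ∈ D, h p else 0 := by
    intro m hm
    rw [Finset.mem_Icc] at hm
    rw [Finset.prod_one_add, ← Finset.sum_filter]
    apply Finset.sum_le_sum_of_subset_of_nonneg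
    · intro D hD
      rw [Finset.mem_powerset] at hD
      rw [Finset.mem_filter, Finset.mem_powerset]
      refine ⟨fun p hp => ?_, ?_⟩
      · have hpm := Nat.mem_primeFactors.mp (hD hp)
        rw [mem_primesUpTo]
        exact ⟨hpm.1, (Nat.le_of_dvd (by omega) hpm.2.1).trans hm.2⟩
      · exact (Finset.prod_dvd_prod_of_subset _ _ _ hD).trans (Nat.prod_primeFactors_dvd m)
    · intro D _ _
      exact hD0 D
  refine (Finset.sum_le_sum h1).trans ?_
  rw [Finset.sum_comm, Finset.prod_one_add, Finset.mul_sum]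
  refine Finset.sum_le_sum fun D hD => ?_
  rw [Finset.mem_powerset] at hD
  rw [← Finset.sum_filter, Finset.sum_const, nsmul_eq_mul]
  set d := ∏ p ∈ D, p with hd
  have hdpos : 0 < d := Finset.prod_pos fun p hp => (mem_primesUpTo.mp (hD hp)).1.pos
  have hcard : (((Finset.Icc 1 N).filter (fun m => d ∣ m)).card : ℝ) ≤ N / d := by
    have h2 : ((Finset.Icc 1 N).filter (fun m => d ∣ m)).card = N / d := by
      have := Nat.Ioc_filter_dvd_card_eq_div N d
      rw [← this]
      congr 1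
    rw [h2]
    exact Nat.cast_div_le
  rw [Finset.prod_div_distrib]
  have hdr : (∏ p ∈ D, (p : ℝ)) = d := by
    rw [hd]
    push_cast
    rfl
  rw [hdr]
  calc (((Finset.Icc 1 N).filter (fun m => d ∣ m)).card : ℝ) * ∏ p ∈ D, h p
      ≤ (N / d) * ∏ p ∈ D, h p := mul_le_mul_of_nonneg_right hcard (hD0 D)
    _ = N * ((∏ p ∈ D, h p) / d) := by ring


end Pool.Agent.Lib.Sieve
end

-- from Lib.H18GB.Majo
section

/-!
# Project GB: MAJO
-/

namespace Pool.Agent.Lib.H18GB

open Finset Pool.Agent.Lib.Sieve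

theorem IsW.primeFactors {w W : ℕ} (hW : IsW w W) : W.primeFactors = primesUpTo w := by
  ext p
  rw [Nat.mem_primeFactors, mem_primesUpTo]
  constructor
  · rintro ⟨h1, h2, -⟩
    exact ⟨h1, (hW.2 p h1).mp h2⟩
  · rintro ⟨h1, h2⟩
    exact ⟨h1, (hW.2 p h1).mpr h2, hW.1.ne'⟩

theorem IsW.totient {w W : ℕ} (hW : IsW w W) :
    (Nat.totient W / W : ℝ) = ∏ p ∈ primesUpTo w, (1 - 1 / (p : ℝ)) := by
  have h1 := Nat.totient_eq_mul_prod_factors W
  have h2 : (Nat.totient W : ℝ) = W * ∏ p ∈ W.primeFactors, (1 - (p : ℝ)⁻¹) := by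
    have := congrArg (fun x : ℚ => (x : ℝ)) h1
    push_cast at this
    exact this
  have hW0 : (W : ℝ) ≠ 0 := by exact_mod_cast hW.1.ne'
  rw [h2, hW.primeFactors, mul_div_cancel_left₀ _ hW0]
  simp only [one_div]

theorem IsW.totient_mul_VV {w W z : ℕ} (hW : IsW w W) (hwz : w ≤ z) :
    (Nat.totient W / W : ℝ) * VV (sprimes w z) = ∏ p ∈ primesUpTo z, (1 - 1 / (p : ℝ)) := by
  rw [hW.totient, VV, ← Finset.prod_union]
  · refine Finset.prod_congr ?_ fun _ _ => rfl
    ext p
    rw [Finset.mem_union, mem_primesUpTo, mem_primesUpTo, mem_sprimes]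
    constructor
    · rintro (⟨h1, h2⟩ | ⟨h1, h2, h3⟩)
      · exact ⟨h1, by omega⟩
      · exact ⟨h1, h3⟩
    · rintro ⟨h1, h2⟩
      by_cases h : p ≤ w
      · exact Or.inl ⟨h1, h⟩
      · exact Or.inr ⟨h1, by omega, h2⟩
  · rw [Finset.disjoint_left]
    intro p h1 h2
    rw [mem_primesUpTo] at h1
    rw [mem_sprimes] at h2
    omega

/-- Chunk MAJO: for primes `v > rt s M`, `log v ≤ log (2 W M + ..) ≤ C s / (φ(W)/W * VV)`:
`φ(W)/W * VV (sprimes w z) = ∏_{p ≤ z} (1 - 1/p) ≤ C / log z` (`prod_one_sub_inv_le`), and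
`log (3 W M) ≤ 2 log M ≤ 4 s log z` for large `M`. -/
theorem majo : ∃ C : ℝ, 1 ≤ C ∧ ∀ s : ℕ, 1 ≤ s → ∀ w W : ℕ, IsW w W → ∃ M0 : ℕ, ∀ M : ℕ, M0 ≤ M →
    ∀ v : ℤ, |v| ≤ 5 * W * M → (rt s M : ℤ) < |v| →
    lamv W v ≤ C * s * rho (sprimes w (rt s M)) v := by
  refine ⟨4, by norm_num, fun s hs w W hW => ?_⟩
  obtain ⟨M1, hM1⟩ := log_le_rt hs
  obtain ⟨M2, hM2⟩ := Filter.eventually_atTop.mp
    ((rt_tendsto hs).eventually (Filter.eventually_ge_atTop (w + 2)))
  refine ⟨M1 + M2 + 5 * W + 1, fun M hM v hv1 hv2 => ?_⟩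
  have hlog := hM1 M (by omega)
  have hz := hM2 M (by omega)
  have hpr := (pset_sprimes w (rt s M)).prime
  have hs' : (1 : ℝ) ≤ s := by exact_mod_cast hs
  by_cases hp : v.natAbs.Prime
  · have hv2' : rt s M < v.natAbs := by
      zify
      exact hv2
    have hrg : Rgh (sprimes w (rt s M)) v := by
      intro p hpS hdv
      rw [mem_sprimes] at hpS
      have h1 : p ∣ v.natAbs := by
        have := Int.natAbs_dvd_natAbs.mpr hdv
        simpa using this
      rcases (Nat.dvd_prime hp).mp h1 with h2 | h2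
      · exact hpS.1.one_lt.ne' h2
      · omega
    have hV := VV_pos hpr
    rw [lamv, if_pos hp, rho, if_pos hrg, ← div_eq_mul_inv, le_div_iff₀ hV]
    have hz2 : 2 ≤ rt s M := by omega
    have hz2' : (2 : ℝ) ≤ rt s M := by exact_mod_cast hz2
    have hlz : 0 < Real.log (rt s M) := Real.log_pos (by linarith)
    have h3 := prod_one_sub_inv_le (rt s M) hz2
    rw [← hW.totient_mul_VV (by omega : w ≤ rt s M)] at h3
    have hMpos : (0 : ℝ) < M := by exact_mod_cast (by omega : 0 < M)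
    have hvle : (v.natAbs : ℝ) ≤ (M : ℝ) ^ 2 := by
      have h4 : v.natAbs ≤ 5 * W * M := by
        zify
        exact hv1
      have h5 : 5 * W * M ≤ M * M := Nat.mul_le_mul_right _ (by omega)
      have h6 : v.natAbs ≤ M ^ 2 := by rw [pow_two]; exact h4.trans h5
      exact_mod_cast h6
    have hvpos : (0 : ℝ) < v.natAbs := by exact_mod_cast hp.pos
    have h7 : Real.log v.natAbs ≤ 2 * Real.log M := by
      have := Real.log_le_log hvpos hvle
      rw [Real.log_pow] at this
      exact_mod_cast this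
    have h8 : Real.log v.natAbs ≤ 4 * s * Real.log (rt s M) := by nlinarith
    have hφ : (0 : ℝ) ≤ Nat.totient W / W := by positivity
    calc (Nat.totient W / W : ℝ) * Real.log v.natAbs * VV (sprimes w (rt s M))
        = ((Nat.totient W / W : ℝ) * VV (sprimes w (rt s M))) * Real.log v.natAbs := by ring
      _ ≤ (1 / Real.log (rt s M)) * (4 * s * Real.log (rt s M)) := by
          apply mul_le_mul h3 h8
          · exact Real.log_nonneg (by exact_mod_cast hp.one_lt.le)
          · positivity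
      _ = 4 * s := by field_simp
  · rw [lamv, if_neg hp]
    have := rho_nonneg hpr v
    positivity

end Pool.Agent.Lib.H18GB
end
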