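import Pool.Agent.Lib.H1M.RV.M007
import Pool.Agent.Lib.H1M.RV.M008

/-! Merged copies (to shorten the build) of Lib.H18GB.QT, Lib.H18GB.STdefs, Lib.H18GB.DecA. -/

-- from Lib.H18GB.QT
section

/-!
# Project GB: QT

Throughout `S` is a set of primes in `(w, z]`, `IsW w W`, and all intervals have length at least
`z ^ (C A)`; errors are `er C A w = 2^(-A/C) + w^(-1/C)`, and powers `er^(1/2)` etc. are absorbed
by increasing `C`. All sums of products of `rho`'s come from `corr0` / `corr`: the error terms are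
`Ers (9/10) S (discriminant)` with discriminants affine in the averaged variables, with coefficient
`± W^i * (1, 2 or 3)` or a prime `> z`; use `ers_mul`, `ers_pow_le`, `ers_avg`.
The error term `z^(A+k)` is `≤ er * (length)` when `z ^ (C A) ≤ length`.
-/

namespace Pool.Agent.Lib.H18GB

open Finset Pool.Agent.Lib.Sieve

/-- `e'` is typical: the correlation `rho(x) rho(x + e')` does not see quadratic phases. -/
def Typ (S : Finset ℕ) (W : ℕ) (b0 x0 : ℤ) (L : ℕ) (η : ℝ) (e' : ℤ) : Prop :=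
  Ers (9 / 10) S e' ≤ η ∧
  ∀ a b : ℤ, x0 ≤ a → a ≤ b → b ≤ x0 + L → ∀ α β : ℝ,
    ‖∑ x ∈ Finset.Ico a b, ((rho S (b0 + W * x) * rho S (b0 + W * (x + e')) - 1 : ℝ) : ℂ) *
      e (α * x ^ 2 + β * x)‖ ≤ η * L

/-! ### the error `er` -/

lemma qt_er_mono {C C' A w : ℕ} (hC : 1 ≤ C) (hCC : C ≤ C') (hw : 1 ≤ w) :
    er C A w ≤ er C' A w := by
  have h1 : (1:ℝ) ≤ C := by exact_mod_cast hC
  have h2 : (C:ℝ) ≤ C' := by exact_mod_cast hCC
  have h3 : (1:ℝ) ≤ w := by exact_mod_cast hw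
  have hA : (0:ℝ) ≤ A := Nat.cast_nonneg A
  unfold er
  apply add_le_add
  · apply Real.rpow_le_rpow_of_exponent_le (by norm_num)
    rw [neg_div, neg_div, neg_le_neg_iff]
    exact div_le_div_of_nonneg_left hA (by linarith) h2
  · apply Real.rpow_le_rpow_of_exponent_le h3
    rw [neg_div, neg_div, neg_le_neg_iff]
    exact div_le_div_of_nonneg_left zero_le_one (by linarith) h2

lemma qt_er_pow {C C' A w : ℕ} (n : ℕ) (hn : 1 ≤ n) (hC : 1 ≤ C) (hCC : n * C ≤ C')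
    (hw : 1 ≤ w) : er C A w ≤ er C' A w ^ n := by
  have h1 : (1:ℝ) ≤ C := by exact_mod_cast hC
  have h2 : (n:ℝ) * C ≤ C' := by exact_mod_cast hCC
  have hn' : (1:ℝ) ≤ n := by exact_mod_cast hn
  have h3 : (1:ℝ) ≤ w := by exact_mod_cast hw
  have hA : (0:ℝ) ≤ A := Nat.cast_nonneg A
  have hC' : (0:ℝ) < C' := by nlinarith
  have hx : 0 ≤ (2:ℝ) ^ (-(A:ℝ) / C') := Real.rpow_nonneg (by norm_num) _
  have hy : 0 ≤ (w:ℝ) ^ (-(1:ℝ) / C') := Real.rpow_nonneg (by linarith) _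
  unfold er
  refine le_trans (add_le_add ?_ ?_) (pow_add_pow_le hx hy (by omega))
  · rw [← Real.rpow_natCast, ← Real.rpow_mul (by norm_num)]
    apply Real.rpow_le_rpow_of_exponent_le (by norm_num)
    rw [neg_div, neg_div, neg_mul, neg_le_neg_iff, div_mul_eq_mul_div, div_le_div_iff₀ hC' (by linarith)]
    nlinarith
  · rw [← Real.rpow_natCast, ← Real.rpow_mul (by linarith)]
    apply Real.rpow_le_rpow_of_exponent_le h3
    rw [neg_div, neg_div, neg_mul, neg_le_neg_iff, div_mul_eq_mul_div, div_le_div_iff₀ hC' (by linarith)]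
    nlinarith

/-! ### van der Corput -/

/-- `‖∑ F‖² ≤ ∑_k ‖∑_x F(x+k) conj F(x)‖` -/
lemma qt_vdc {F : ℤ → ℂ} {a b : ℤ} {L : ℕ} (hF : ∀ x, x ∉ Finset.Ico a b → F x = 0)
    (hL : b - a ≤ L) :
    ‖∑ x ∈ Finset.Ico a b, F x‖ ^ 2 ≤ ∑ k ∈ Finset.Ioo (-(L : ℤ)) L,
      ‖∑ x ∈ Finset.Ico a b, F (x + k) * (starRingEnd ℂ) (F x)‖ := by
  have h1 : ((‖∑ x ∈ Finset.Ico a b, F x‖ ^ 2 : ℝ) : ℂ) =
      ∑ x ∈ Finset.Ico a b, ∑ y ∈ Finset.Ico a b, F y * (starRingEnd ℂ) (F x) := by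
    rw [← Complex.normSq_eq_norm_sq, ← Complex.mul_conj, map_sum, Finset.sum_mul_sum,
      Finset.sum_comm]
  have h2 : ∀ x ∈ Finset.Ico a b, ∑ y ∈ Finset.Ico a b, F y * (starRingEnd ℂ) (F x) =
      ∑ k ∈ Finset.Ioo (-(L : ℤ)) L, F (x + k) * (starRingEnd ℂ) (F x) := by
    intro x hx
    rw [Finset.mem_Ico] at hx
    have h3 : ∑ k ∈ Finset.Ioo (-(L : ℤ)) L, F (x + k) * (starRingEnd ℂ) (F x) =
        ∑ y ∈ (Finset.Ioo (-(L : ℤ)) L).map (addLeftEmbedding x), F y * (starRingEnd ℂ) (F x) := by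
      rw [Finset.sum_map]
      rfl
    rw [h3]
    apply Finset.sum_subset
    · intro y hy
      rw [Finset.mem_Ico] at hy
      rw [Finset.mem_map]
      refine ⟨y - x, ?_, ?_⟩
      · rw [Finset.mem_Ioo]
        omega
      · simp
    · intro y _ hy
      rw [hF y hy, zero_mul]
  rw [Finset.sum_congr rfl h2, Finset.sum_comm] at h1
  have h4 : ‖∑ x ∈ Finset.Ico a b, F x‖ ^ 2 =
      ‖((‖∑ x ∈ Finset.Ico a b, F x‖ ^ 2 : ℝ) : ℂ)‖ := by
    rw [Complex.norm_real, Real.norm_of_nonneg (sq_nonneg _)]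
  rw [h4, h1]
  exact norm_sum_le _ _

/-- van der Corput twice, for quadratic phases -/
lemma qt_vdc2 {f : ℤ → ℝ} {a b : ℤ} {L : ℕ} (hf : ∀ x, x ∉ Finset.Ico a b → f x = 0)
    (hL : b - a ≤ L) (α β : ℝ) :
    ‖∑ x ∈ Finset.Ico a b, (f x : ℂ) * e (α * x ^ 2 + β * x)‖ ^ 4 ≤
      2 * L * ∑ k ∈ Finset.Ioo (-(L : ℤ)) L, ∑ j ∈ Finset.Ioo (-(L : ℤ)) L,
        |∑ x ∈ Finset.Ico a b, f x * f (x + k) * f (x + j) * f (x + k + j)| := by
  have hconj : ∀ x : ℝ, (starRingEnd ℂ) (e x) = e (-x) := fun x => (e_neg x).symm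
  have h1 := qt_vdc (F := fun x => (f x : ℂ) * e (α * x ^ 2 + β * x)) (a := a) (b := b) (L := L)
    (fun x hx => by simp only [hf x hx, Complex.ofReal_zero, zero_mul]) hL
  have h2 : ∀ k : ℤ, ‖∑ x ∈ Finset.Ico a b, ((f (x + k) : ℂ) *
        e (α * ((x + k : ℤ) : ℝ) ^ 2 + β * ((x + k : ℤ) : ℝ))) *
      (starRingEnd ℂ) ((f x : ℂ) * e (α * x ^ 2 + β * x))‖ =
      ‖∑ x ∈ Finset.Ico a b, ((f x * f (x + k) : ℝ) : ℂ) * e (2 * α * k * x)‖ := by
    intro k
    have h3 : ∀ x : ℤ, ((f (x + k) : ℂ) *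
        e (α * ((x + k : ℤ) : ℝ) ^ 2 + β * ((x + k : ℤ) : ℝ))) *
        (starRingEnd ℂ) ((f x : ℂ) * e (α * x ^ 2 + β * x)) =
        e (α * k ^ 2 + β * k) * (((f x * f (x + k) : ℝ) : ℂ) * e (2 * α * k * x)) := by
      intro x
      rw [map_mul, Complex.conj_ofReal, hconj]
      have h4 : e (α * ((x + k : ℤ) : ℝ) ^ 2 + β * ((x + k : ℤ) : ℝ)) *
          e (-(α * x ^ 2 + β * x)) = e (α * k ^ 2 + β * k) * e (2 * α * k * x) := by
        rw [← e_add, ← e_add]
        congr 1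
        push_cast
        ring
      calc _ = (f (x + k) : ℂ) * (f x : ℂ) * (e (α * ((x + k : ℤ) : ℝ) ^ 2 +
            β * ((x + k : ℤ) : ℝ)) * e (-(α * x ^ 2 + β * x))) := by ring
        _ = _ := by
          rw [h4]
          push_cast
          ring
    rw [Finset.sum_congr rfl fun x _ => h3 x, ← Finset.mul_sum, norm_mul, norm_e, one_mul]
  rw [Finset.sum_congr rfl fun k _ => h2 k] at h1
  have h5 : ∀ k : ℤ, ‖∑ x ∈ Finset.Ico a b, ((f x * f (x + k) : ℝ) : ℂ) *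
      e (2 * α * k * x)‖ ^ 2 ≤ ∑ j ∈ Finset.Ioo (-(L : ℤ)) L,
        |∑ x ∈ Finset.Ico a b, f x * f (x + k) * f (x + j) * f (x + k + j)| := by
    intro k
    refine (qt_vdc (F := fun x => ((f x * f (x + k) : ℝ) : ℂ) * e (2 * α * k * x)) (a := a)
      (b := b) (L := L) (fun x hx => by simp only [hf x hx, zero_mul, Complex.ofReal_zero])
      hL).trans ?_
    apply Finset.sum_le_sum
    intro j _
    have h3 : ∀ x : ℤ, (((f (x + j) * f (x + j + k) : ℝ) : ℂ) *
        e (2 * α * k * ((x + j : ℤ) : ℝ))) *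
        (starRingEnd ℂ) (((f x * f (x + k) : ℝ) : ℂ) * e (2 * α * k * x)) =
        e (2 * α * k * j) * ((f x * f (x + k) * f (x + j) * f (x + k + j) : ℝ) : ℂ) := by
      intro x
      rw [map_mul, Complex.conj_ofReal, hconj]
      have h4 : e (2 * α * k * ((x + j : ℤ) : ℝ)) * e (-(2 * α * k * x)) = e (2 * α * k * j) := by
        rw [← e_add]
        congr 1
        push_cast
        ring
      have h6 : x + j + k = x + k + j := by ring
      rw [h6]
      calc _ = ((f (x + j) * f (x + k + j) : ℝ) : ℂ) * ((f x * f (x + k) : ℝ) : ℂ) *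
            (e (2 * α * k * ((x + j : ℤ) : ℝ)) * e (-(2 * α * k * x))) := by ring
        _ = _ := by
          rw [h4]
          push_cast
          ring
    rw [Finset.sum_congr rfl fun x _ => h3 x, ← Finset.mul_sum, norm_mul, norm_e, one_mul,
      ← Complex.ofReal_sum, Complex.norm_real, Real.norm_eq_abs]
  have hcard : ((Finset.Ioo (-(L : ℤ)) L).card : ℝ) ≤ 2 * L := by
    rw [Int.card_Ioo]
    have : ((L:ℤ) - -(L:ℤ) - 1).toNat ≤ 2 * L := by omega
    exact_mod_cast this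
  calc ‖∑ x ∈ Finset.Ico a b, (f x : ℂ) * e (α * x ^ 2 + β * x)‖ ^ 4
      = (‖∑ x ∈ Finset.Ico a b, (f x : ℂ) * e (α * x ^ 2 + β * x)‖ ^ 2) ^ 2 := by ring
    _ ≤ (∑ k ∈ Finset.Ioo (-(L : ℤ)) L, ‖∑ x ∈ Finset.Ico a b,
        ((f x * f (x + k) : ℝ) : ℂ) * e (2 * α * k * x)‖) ^ 2 := by
        gcongr
    _ ≤ ((Finset.Ioo (-(L : ℤ)) L).card : ℝ) * ∑ k ∈ Finset.Ioo (-(L : ℤ)) L,
        ‖∑ x ∈ Finset.Ico a b, ((f x * f (x + k) : ℝ) : ℂ) * e (2 * α * k * x)‖ ^ 2 :=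
        sq_sum_le_card_mul_sum_sq
    _ ≤ 2 * L * ∑ k ∈ Finset.Ioo (-(L : ℤ)) L, ∑ j ∈ Finset.Ioo (-(L : ℤ)) L,
        |∑ x ∈ Finset.Ico a b, f x * f (x + k) * f (x + j) * f (x + k + j)| := by
        apply mul_le_mul hcard (Finset.sum_le_sum fun k _ => h5 k)
        · exact Finset.sum_nonneg fun _ _ => sq_nonneg _
        · positivity

/-! ### correlations with a general index type -/

open Classical in
lemma qt_corr (k : ℕ) : ∃ C : ℕ, 1 ≤ C ∧ ∀ (A w z : ℕ) (S : Finset ℕ), C ≤ A → C ≤ w → 2 ≤ z →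
    PSet w z S → ∀ (ι : Type) [Fintype ι], Fintype.card ι = k → ∀ (α β : ι → ℤ),
    (∀ p ∈ S, ∀ i, ¬ (p : ℤ) ∣ α i) → ∀ (a b : ℤ), a ≤ b →
    |∑ x ∈ Finset.Ico a b, ∏ i : ι, rho S (α i * x + β i) - (b - a)| ≤
      (b - a) * (C * er C A w +
        C * ∑ i : ι, ∑ j ∈ Finset.univ.filter (fun j => i ≠ j), Ers (9 / 10) S (disc α β i j))
        + C * (z : ℝ) ^ (A + k) := by
  obtain ⟨C, hC, h⟩ := corr0 k
  refine ⟨C, hC, ?_⟩
  intro A w z S hA hw hz hS ι _ hk α β hα a b hab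
  let φ : Fin k ≃ ι := (Fintype.equivFinOfCardEq hk).symm
  have h1 := h A w z S hA hw hz hS (α ∘ φ) (β ∘ φ) (fun p hp i => hα p hp _) a b hab
  have e1 : ∀ x : ℤ, ∏ i : Fin k, rho S ((α ∘ φ) i * x + (β ∘ φ) i) =
      ∏ i : ι, rho S (α i * x + β i) := fun x =>
    Equiv.prod_comp φ (fun i => rho S (α i * x + β i))
  have e2 : ∑ i, ∑ j ∈ Finset.univ.filter (fun j => i ≠ j),
      Ers (9 / 10) S (disc (α ∘ φ) (β ∘ φ) i j) =
      ∑ i : ι, ∑ j ∈ Finset.univ.filter (fun j => i ≠ j), Ers (9 / 10) S (disc α β i j) := by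
    rw [← Equiv.sum_comp φ]
    apply Finset.sum_congr rfl
    intro i _
    rw [Finset.sum_filter, Finset.sum_filter, ← Equiv.sum_comp φ]
    apply Finset.sum_congr rfl
    intro j _
    simp only [ne_eq, EmbeddingLike.apply_eq_iff_eq]
    rfl
  rw [e2] at h1
  simp only [e1] at h1
  exact h1

/-! ### the cube -/

/-- position of a vertex of the square -/
def qtP (k j : ℤ) (s : Bool × Bool) : ℤ := (if s.1 then k else 0) + (if s.2 then j else 0)

/-- position of a vertex of the cube -/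
def qtPe (k j e' : ℤ) (s : (Bool × Bool) × Bool) : ℤ := qtP k j s.1 + (if s.2 then e' else 0)

open Classical in
/-- the total error -/
noncomputable def qtE (S : Finset ℕ) (k j e' : ℤ) : ℝ :=
  ∑ s : (Bool × Bool) × Bool, ∑ t ∈ Finset.univ.filter (fun t => s ≠ t),
    Ers (9 / 10) S (qtPe k j e' t - qtPe k j e' s)

lemma qtE_nonneg (S : Finset ℕ) (k j e' : ℤ) : 0 ≤ qtE S k j e' :=
  Finset.sum_nonneg fun _ _ => Finset.sum_nonneg fun _ _ => Ers_nonneg _ _ _

/-- correlations over a subset of the square -/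
lemma qt_corrT : ∃ C : ℕ, 1 ≤ C ∧ ∀ (A w z W : ℕ) (S : Finset ℕ), C ≤ A → C ≤ w → 2 ≤ z →
    PSet w z S → IsW w W → ∀ (T : Finset (Bool × Bool)) (b0 k j e' a b : ℤ), a ≤ b →
    |∑ x ∈ Finset.Ico a b, ∏ s ∈ T, (rho S (b0 + W * (x + qtP k j s)) *
        rho S (b0 + W * (x + qtP k j s + e'))) - (b - a)| ≤
      (b - a) * (C * er C A w + C * qtE S k j e') + C * (z : ℝ) ^ (A + 8) := by
  classical
  choose Cf hCf1 hCf using qt_corr
  let C : ℕ := ∑ k ∈ Finset.range 9, Cf k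
  have hCC : ∀ k < 9, Cf k ≤ C := fun k hk =>
    Finset.single_le_sum (f := Cf) (fun _ _ => Nat.zero_le _) (Finset.mem_range.2 hk)
  refine ⟨C, (hCf1 0).trans (hCC 0 (by norm_num)), ?_⟩
  intro A w z W S hA hw hz hS hW T b0 k j e' a b hab
  have hcard : Fintype.card ({s // s ∈ T} × Bool) < 9 := by
    rw [Fintype.card_prod, Fintype.card_coe, Fintype.card_bool]
    have := Finset.card_le_univ T
    simp only [Fintype.card_prod, Fintype.card_bool] at this
    omega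
  set n := Fintype.card ({s // s ∈ T} × Bool) with hn
  have hCn := hCC n hcard
  have h1 := hCf n A w z S (hCn.trans hA) (hCn.trans hw) hz hS ({s // s ∈ T} × Bool) rfl
    (fun _ => (W : ℤ)) (fun s => b0 + W * qtPe k j e' (s.1.1, s.2))
    (fun p hp _ => hW.not_dvd hS p hp) a b hab
  have e1 : ∀ x : ℤ, ∏ s : {s // s ∈ T} × Bool,
      rho S ((W : ℤ) * x + (b0 + W * qtPe k j e' (s.1.1, s.2))) =
      ∏ s ∈ T, (rho S (b0 + W * (x + qtP k j s)) * rho S (b0 + W * (x + qtP k j s + e'))) := by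
    intro x
    rw [Fintype.prod_prod_type, ← Finset.prod_coe_sort T (fun s =>
      rho S (b0 + W * (x + qtP k j s)) * rho S (b0 + W * (x + qtP k j s + e')))]
    apply Finset.prod_congr rfl
    intro s _
    rw [Fintype.prod_bool, mul_comm]
    unfold qtPe
    simp only [Bool.false_eq_true, if_false, if_true, add_zero]
    congr 2
    · ring
    · ring
  simp only [e1] at h1
  refine h1.trans ?_
  have hw1 : 1 ≤ w := ((hCf1 0).trans (hCC 0 (by norm_num))).trans hw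
  have hba : (0:ℝ) ≤ b - a := by
    rw [sub_nonneg]
    exact_mod_cast hab
  have hz1 : (1:ℝ) ≤ z := by exact_mod_cast (by omega : 1 ≤ z)
  have hCr : (Cf n : ℝ) ≤ C := by exact_mod_cast hCn
  have hE : ∑ s : {s // s ∈ T} × Bool, ∑ t ∈ Finset.univ.filter (fun t => s ≠ t),
      Ers (9 / 10) S (disc (fun _ => (W : ℤ)) (fun s : {s // s ∈ T} × Bool =>
        b0 + W * qtPe k j e' (s.1.1, s.2)) s t) ≤ qtE S k j e' := by
    have e2 : ∀ s t : {s // s ∈ T} × Bool,
        Ers (9 / 10) S (disc (fun _ => (W : ℤ)) (fun s : {s // s ∈ T} × Bool =>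
        b0 + W * qtPe k j e' (s.1.1, s.2)) s t) =
        Ers (9 / 10) S (qtPe k j e' (t.1.1, t.2) - qtPe k j e' (s.1.1, s.2)) := by
      intro s t
      have : disc (fun _ => (W : ℤ)) (fun s : {s // s ∈ T} × Bool =>
          b0 + W * qtPe k j e' (s.1.1, s.2)) s t =
          (W * W : ℤ) * (qtPe k j e' (t.1.1, t.2) - qtPe k j e' (s.1.1, s.2)) := by
        unfold disc
        ring
      rw [this]
      apply ers_mul hS.prime
      intro p hp hd
      rcases (Nat.prime_iff_prime_int.1 (hS.prime p hp)).dvd_or_dvd hd with h | h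
      · exact hW.not_dvd hS p hp h
      · exact hW.not_dvd hS p hp h
    let ψ : ({s // s ∈ T} × Bool) ↪ ((Bool × Bool) × Bool) :=
      ⟨fun s => (s.1.1, s.2), by
        rintro ⟨⟨s, hs⟩, u⟩ ⟨⟨t, ht⟩, v⟩ h
        simp only [Prod.mk.injEq] at h
        obtain ⟨rfl, rfl⟩ := h
        rfl⟩
    calc ∑ s : {s // s ∈ T} × Bool, ∑ t ∈ Finset.univ.filter (fun t => s ≠ t),
        Ers (9 / 10) S (disc (fun _ => (W : ℤ)) (fun s : {s // s ∈ T} × Bool =>
          b0 + W * qtPe k j e' (s.1.1, s.2)) s t)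
        = ∑ s : {s // s ∈ T} × Bool, ∑ t : {s // s ∈ T} × Bool, (if ψ s ≠ ψ t then
          Ers (9 / 10) S (qtPe k j e' (ψ t) - qtPe k j e' (ψ s)) else 0) := by
          apply Finset.sum_congr rfl
          intro s _
          rw [Finset.sum_filter]
          apply Finset.sum_congr rfl
          intro t _
          rw [e2]
          simp only [ne_eq, EmbeddingLike.apply_eq_iff_eq]
          rfl
      _ ≤ ∑ s : {s // s ∈ T} × Bool, ∑ t : (Bool × Bool) × Bool, (if ψ s ≠ t then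
          Ers (9 / 10) S (qtPe k j e' t - qtPe k j e' (ψ s)) else 0) := by
          apply Finset.sum_le_sum
          intro s _
          rw [← Finset.sum_map Finset.univ ψ (fun t => if ψ s ≠ t then
            Ers (9 / 10) S (qtPe k j e' t - qtPe k j e' (ψ s)) else 0)]
          apply Finset.sum_le_sum_of_subset_of_nonneg (Finset.subset_univ _)
          intro t _ _
          split_ifs
          · exact Ers_nonneg _ _ _
          · exact le_rfl
      _ ≤ ∑ s : (Bool × Bool) × Bool, ∑ t : (Bool × Bool) × Bool, (if s ≠ t then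
          Ers (9 / 10) S (qtPe k j e' t - qtPe k j e' s) else 0) := by
          rw [← Finset.sum_map Finset.univ ψ (fun s => ∑ t : (Bool × Bool) × Bool, (if s ≠ t then
            Ers (9 / 10) S (qtPe k j e' t - qtPe k j e' s) else 0))]
          apply Finset.sum_le_sum_of_subset_of_nonneg (Finset.subset_univ _)
          intro s _ _
          apply Finset.sum_nonneg
          intro t _
          split_ifs
          · exact Ers_nonneg _ _ _
          · exact le_rfl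
      _ = qtE S k j e' := by
          unfold qtE
          apply Finset.sum_congr rfl
          intro s _
          rw [Finset.sum_filter]
  have her := qt_er_mono (A := A) (w := w) (hCf1 n) hCn hw1
  have her0 := er_nonneg (Cf n) A w
  have hE0 := qtE_nonneg S k j e'
  have hC0 : (0:ℝ) ≤ Cf n := Nat.cast_nonneg _
  have hz2 : (z:ℝ) ^ (A + n) ≤ (z:ℝ) ^ (A + 8) := pow_le_pow_right₀ hz1 (by omega)
  apply add_le_add
  · apply mul_le_mul_of_nonneg_left _ hba
    apply add_le_add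
    · exact mul_le_mul hCr her her0 (hC0.trans hCr)
    · refine le_trans (mul_le_mul_of_nonneg_left ?_ hC0) (mul_le_mul_of_nonneg_right hCr hE0)
      refine le_trans (le_of_eq ?_) hE
      refine Finset.sum_congr rfl fun i _ => Finset.sum_congr ?_ fun _ _ => rfl
      ext t
      simp
  · exact mul_le_mul hCr hz2 (by positivity) (hC0.trans hCr)

/-- the correlations of `ρ ρ' - 1` over the square -/
lemma qt_D : ∃ C : ℕ, 1 ≤ C ∧ ∀ (A w z W : ℕ) (S : Finset ℕ), C ≤ A → C ≤ w → 2 ≤ z →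
    PSet w z S → IsW w W → ∀ (b0 k j e' a b : ℤ), a ≤ b →
    |∑ x ∈ Finset.Ico a b, ∏ s : Bool × Bool, (rho S (b0 + W * (x + qtP k j s)) *
        rho S (b0 + W * (x + qtP k j s + e')) - 1)| ≤
      (b - a) * (C * er C A w + C * qtE S k j e') + C * (z : ℝ) ^ (A + 8) := by
  classical
  obtain ⟨C, hC, h⟩ := qt_corrT
  refine ⟨16 * C, by omega, ?_⟩
  intro A w z W S hA hw hz hS hW b0 k j e' a b hab
  have hw1 : 1 ≤ w := by omega
  have hba : (0:ℝ) ≤ b - a := by
    rw [sub_nonneg]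
    exact_mod_cast hab
  let y : Bool × Bool → ℤ → ℝ := fun s x => rho S (b0 + W * (x + qtP k j s)) *
        rho S (b0 + W * (x + qtP k j s + e'))
  have e1 : ∀ x : ℤ, ∏ s : Bool × Bool, (y s x - 1) =
      ∑ T ∈ (Finset.univ : Finset (Bool × Bool)).powerset,
        (-1) ^ (Finset.univ \ T).card * ∏ s ∈ T, y s x := by
    intro x
    have := Finset.prod_add (fun s => y s x) (fun _ => (-1:ℝ)) (Finset.univ : Finset (Bool × Bool))
    simp only [Finset.prod_const] at this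
    rw [← Finset.sum_congr rfl (fun T _ => mul_comm _ _)] at this
    rw [← this]
    apply Finset.prod_congr rfl
    intro s _
    ring
  have e2 : ∑ T ∈ (Finset.univ : Finset (Bool × Bool)).powerset,
        (-1 : ℝ) ^ (Finset.univ \ T).card = 0 := by
    have := Finset.prod_add (fun _ => (1:ℝ)) (fun _ => (-1:ℝ)) (Finset.univ : Finset (Bool × Bool))
    simp only [Finset.prod_const, one_pow, one_mul, add_neg_cancel] at this
    rw [← this]
    rw [Finset.card_univ]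
    simp
  have e3 : ∑ x ∈ Finset.Ico a b, ∏ s : Bool × Bool, (y s x - 1) =
      ∑ T ∈ (Finset.univ : Finset (Bool × Bool)).powerset,
        (-1) ^ (Finset.univ \ T).card * (∑ x ∈ Finset.Ico a b, ∏ s ∈ T, y s x - (b - a)) := by
    rw [Finset.sum_congr rfl fun x _ => e1 x, Finset.sum_comm]
    generalize ((b:ℝ) - a) = c
    simp only [mul_sub, Finset.sum_sub_distrib]
    rw [← Finset.sum_mul, e2, zero_mul, sub_zero]
    apply Finset.sum_congr rfl
    intro T _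
    rw [Finset.mul_sum]
  change |∑ x ∈ Finset.Ico a b, ∏ s : Bool × Bool, (y s x - 1)| ≤ _
  rw [e3]
  have her := qt_er_mono (A := A) (w := w) hC (by omega : C ≤ 16 * C) hw1
  have hE0 := qtE_nonneg S k j e'
  have her0 := er_nonneg C A w
  calc |∑ T ∈ (Finset.univ : Finset (Bool × Bool)).powerset,
        (-1) ^ (Finset.univ \ T).card * (∑ x ∈ Finset.Ico a b, ∏ s ∈ T, y s x - (b - a))|
      ≤ ∑ T ∈ (Finset.univ : Finset (Bool × Bool)).powerset,
        |(-1) ^ (Finset.univ \ T).card * (∑ x ∈ Finset.Ico a b, ∏ s ∈ T, y s x - (b - a))| :=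
        Finset.abs_sum_le_sum_abs _ _
    _ ≤ ∑ T ∈ (Finset.univ : Finset (Bool × Bool)).powerset,
        ((b - a) * (C * er C A w + C * qtE S k j e') + C * (z : ℝ) ^ (A + 8)) := by
        apply Finset.sum_le_sum
        intro T _
        rw [abs_mul, abs_pow, abs_neg, abs_one, one_pow, one_mul]
        exact h A w z W S (by omega) (by omega) hz hS hW T b0 k j e' a b hab
    _ = 16 * ((b - a) * (C * er C A w + C * qtE S k j e') + C * (z : ℝ) ^ (A + 8)) := by
        rw [Finset.sum_const, Finset.card_powerset]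
        simp
        ring
    _ ≤ _ := by
        have h1 : (C:ℝ) * er C A w ≤ C * er (16 * C) A w := by gcongr
        have h2 : 0 ≤ (b - a : ℝ) * (C * er (16 * C) A w - C * er C A w) :=
          mul_nonneg hba (by linarith)
        push_cast
        nlinarith [h2]

/-- bound of the fourth power of the exponential sums, uniform in the interval and the phase -/
noncomputable def qtB (S : Finset ℕ) (C A w z L : ℕ) (e' : ℤ) : ℝ :=
  2 * L * ∑ k ∈ Finset.Ioo (-(L : ℤ)) L, ∑ j ∈ Finset.Ioo (-(L : ℤ)) L,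
    (L * (C * er C A w + C * qtE S k j e') + C * (z : ℝ) ^ (A + 8))

lemma qt_four : ∃ C : ℕ, 1 ≤ C ∧ ∀ (A w z W L : ℕ) (S : Finset ℕ), C ≤ A → C ≤ w → 2 ≤ z →
    PSet w z S → IsW w W → ∀ (b0 e' a b : ℤ), a ≤ b → b - a ≤ L → ∀ α β : ℝ,
    ‖∑ x ∈ Finset.Ico a b, ((rho S (b0 + W * x) * rho S (b0 + W * (x + e')) - 1 : ℝ) : ℂ) *
      e (α * x ^ 2 + β * x)‖ ^ 4 ≤ qtB S C A w z L e' := by
  classical
  obtain ⟨C, hC, h⟩ := qt_D
  refine ⟨C, hC, ?_⟩
  intro A w z W L S hA hw hz hS hW b0 e' a b hab hL α β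
  let q : ℤ → ℝ := fun x => rho S (b0 + W * x) * rho S (b0 + W * (x + e')) - 1
  let f : ℤ → ℝ := fun x => if x ∈ Finset.Ico a b then q x else 0
  have e1 : ∑ x ∈ Finset.Ico a b, ((rho S (b0 + W * x) * rho S (b0 + W * (x + e')) - 1 : ℝ) : ℂ) *
      e (α * x ^ 2 + β * x) = ∑ x ∈ Finset.Ico a b, (f x : ℂ) * e (α * x ^ 2 + β * x) := by
    apply Finset.sum_congr rfl
    intro x hx
    simp only [f, if_pos hx, q]
  rw [e1]
  refine (qt_vdc2 (f := f) (fun x hx => if_neg hx) hL α β).trans ?_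
  unfold qtB
  apply mul_le_mul_of_nonneg_left _ (by positivity)
  apply Finset.sum_le_sum
  intro k _
  apply Finset.sum_le_sum
  intro j _
  -- the interval
  let a' : ℤ := Finset.univ.sup' Finset.univ_nonempty (fun s : Bool × Bool => a - qtP k j s)
  let b' : ℤ := Finset.univ.inf' Finset.univ_nonempty (fun s : Bool × Bool => b - qtP k j s)
  have hmem : ∀ x : ℤ, x ∈ Finset.Ico a' b' ↔ ∀ s : Bool × Bool,
      x + qtP k j s ∈ Finset.Ico a b := by
    intro x
    simp only [a', b', Finset.mem_Ico, Finset.sup'_le_iff, Finset.lt_inf'_iff,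
      Finset.mem_univ, true_implies]
    constructor
    · rintro ⟨h1, h2⟩ s
      have := h1 s
      have := h2 s
      constructor <;> omega
    · intro h1
      constructor
      · intro s
        have := h1 s
        omega
      · intro s
        have := h1 s
        omega
  have h00 : qtP k j (false, false) = 0 := by simp [qtP]
  have hprod : ∀ x : ℤ, f x * f (x + k) * f (x + j) * f (x + k + j) =
      ∏ s : Bool × Bool, f (x + qtP k j s) := by
    intro x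
    rw [Fintype.prod_prod_type, Fintype.prod_bool, Fintype.prod_bool, Fintype.prod_bool]
    simp only [qtP, Bool.false_eq_true, if_false, if_true, add_zero, zero_add]
    rw [show x + (k + j) = x + k + j by ring]
    ring
  have hsum : ∑ x ∈ Finset.Ico a b, f x * f (x + k) * f (x + j) * f (x + k + j) =
      ∑ x ∈ Finset.Ico a' b', ∏ s : Bool × Bool, q (x + qtP k j s) := by
    rw [Finset.sum_congr rfl fun x _ => hprod x]
    have hsub : Finset.Ico a' b' ⊆ Finset.Ico a b := by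
      intro x hx
      have := (hmem x).1 hx (false, false)
      rwa [h00, add_zero] at this
    rw [← Finset.sum_subset hsub]
    · apply Finset.sum_congr rfl
      intro x hx
      apply Finset.prod_congr rfl
      intro s _
      simp only [f]
      rw [if_pos ((hmem x).1 hx s)]
    · intro x _ hx
      have : ∃ s : Bool × Bool, x + qtP k j s ∉ Finset.Ico a b := by
        by_contra hcon
        push Not at hcon
        exact hx ((hmem x).2 hcon)
      obtain ⟨s, hs⟩ := this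
      apply Finset.prod_eq_zero (Finset.mem_univ s)
      simp only [f]
      rw [if_neg hs]
  rw [hsum]
  have hE0 := qtE_nonneg S k j e'
  have her0 := er_nonneg C A w
  have hC0 : (0:ℝ) ≤ C := Nat.cast_nonneg _
  rcases le_or_gt a' b' with hab' | hab'
  · have h1 := h A w z W S hA hw hz hS hW b0 k j e' a' b' hab'
    have e2 : ∑ x ∈ Finset.Ico a' b', ∏ s : Bool × Bool, q (x + qtP k j s) =
        ∑ x ∈ Finset.Ico a' b', ∏ s : Bool × Bool, (rho S (b0 + W * (x + qtP k j s)) *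
          rho S (b0 + W * (x + qtP k j s + e')) - 1) := rfl
    rw [e2]
    refine h1.trans ?_
    have h2 : (b' : ℝ) - a' ≤ L := by
      have h3 : b' ≤ b - qtP k j (false, false) := Finset.inf'_le _ (Finset.mem_univ _)
      have h4 : a - qtP k j (false, false) ≤ a' :=
        Finset.le_sup' (fun s : Bool × Bool => a - qtP k j s) (Finset.mem_univ _)
      rw [h00] at h3 h4
      have h5 : b' - a' ≤ L := by omega
      exact_mod_cast h5
    gcongr
  · rw [Finset.Ico_eq_empty (by omega), Finset.sum_empty, abs_zero]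
    positivity

/-- average of an error term over the cube -/
lemma qt_avg1 : ∃ C : ℝ, 1 ≤ C ∧ ∀ (w z L : ℕ) (S : Finset ℕ), 1 ≤ w → PSet w z S → 1 ≤ L →
    ∀ c1 c2 c3 : ℤ, (c1 = 1 ∨ c1 = -1 ∨ c2 = 1 ∨ c2 = -1 ∨ c3 = 1 ∨ c3 = -1) →
    ∑ e' ∈ Finset.Ioo (-(L : ℤ)) L, ∑ k ∈ Finset.Ioo (-(L : ℤ)) L, ∑ j ∈ Finset.Ioo (-(L : ℤ)) L,
      Ers (9 / 10) S (c1 * k + c2 * j + c3 * e') ≤
      (2 * L) ^ 2 * (C * (2 * L * (w : ℝ) ^ (-(9 / 10 : ℝ)) + z)) := by
  obtain ⟨C, hC, h⟩ := ers_avg (9 / 10) (by norm_num) (by norm_num)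
  refine ⟨C, hC, ?_⟩
  intro w z L S hw hS hL c1 c2 c3 hc
  have hL1 : (1:ℝ) ≤ L := by exact_mod_cast hL
  have hcard : ((Finset.Ioo (-(L : ℤ)) L).card : ℝ) ≤ 2 * L := by
    rw [Int.card_Ioo]
    have : ((L:ℤ) - -(L:ℤ) - 1).toNat ≤ 2 * L := by omega
    exact_mod_cast this
  have hX0 : 0 ≤ C * (2 * L * (w : ℝ) ^ (-(9 / 10 : ℝ)) + z) := by positivity
  have key : ∀ c β : ℤ, (c = 1 ∨ c = -1) → ∑ h ∈ Finset.Ioo (-(L : ℤ)) L,
      Ers (9 / 10) S (c * h + β) ≤ C * (2 * L * (w : ℝ) ^ (-(9 / 10 : ℝ)) + z) := by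
    intro c β hc
    have hdvd : ∀ p ∈ S, ¬ (p : ℤ) ∣ c := by
      intro p hp hd
      have hp2 := (hS.prime p hp).two_le
      rcases hc with rfl | rfl
      · have := Int.le_of_dvd one_pos hd
        omega
      · have := Int.le_of_dvd one_pos ((dvd_neg (a := (p:ℤ)) (b := 1)).1 hd)
        omega
    have h1 := h w z S hw hS c β hdvd (-(L:ℤ)) L (by omega)
    have h2 : ∑ h ∈ Finset.Ioo (-(L : ℤ)) L, Ers (9 / 10) S (c * h + β) ≤
        ∑ h ∈ Finset.Ico (-(L : ℤ)) L, Ers (9 / 10) S (c * h + β) :=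
      Finset.sum_le_sum_of_subset_of_nonneg Finset.Ioo_subset_Ico_self
        fun _ _ _ => Ers_nonneg _ _ _
    refine h2.trans (h1.trans (le_of_eq ?_))
    push_cast
    ring
  have hconst : ∀ X : ℝ, 0 ≤ X → ∑ _h ∈ Finset.Ioo (-(L : ℤ)) L, X ≤ 2 * L * X := by
    intro X hX
    rw [Finset.sum_const, nsmul_eq_mul]
    exact mul_le_mul_of_nonneg_right hcard hX
  set X := C * (2 * L * (w : ℝ) ^ (-(9 / 10 : ℝ)) + z) with hX
  have hfin : ∀ F : ℤ → ℤ → ℤ → ℝ, (∀ x y, ∑ h ∈ Finset.Ioo (-(L : ℤ)) L, F x y h ≤ X) →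
      ∑ x ∈ Finset.Ioo (-(L : ℤ)) L, ∑ y ∈ Finset.Ioo (-(L : ℤ)) L,
        ∑ h ∈ Finset.Ioo (-(L : ℤ)) L, F x y h ≤ (2 * L) ^ 2 * X := by
    intro F hF
    calc ∑ x ∈ Finset.Ioo (-(L : ℤ)) L, ∑ y ∈ Finset.Ioo (-(L : ℤ)) L,
        ∑ h ∈ Finset.Ioo (-(L : ℤ)) L, F x y h
        ≤ ∑ x ∈ Finset.Ioo (-(L : ℤ)) L, ∑ y ∈ Finset.Ioo (-(L : ℤ)) L, X :=
          Finset.sum_le_sum fun x _ => Finset.sum_le_sum fun y _ => hF x y
      _ ≤ ∑ x ∈ Finset.Ioo (-(L : ℤ)) L, 2 * L * X :=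
          Finset.sum_le_sum fun x _ => hconst X hX0
      _ ≤ 2 * L * (2 * L * X) := hconst _ (by positivity)
      _ = (2 * L) ^ 2 * X := by ring
  rcases hc with hc | hc | hc | hc | hc | hc
  · rw [Finset.sum_congr rfl fun e' _ => Finset.sum_comm]
    refine hfin (fun e' j k => Ers (9 / 10) S (c1 * k + c2 * j + c3 * e')) fun e' j => ?_
    rw [Finset.sum_congr rfl fun k _ => by
      rw [show c1 * k + c2 * j + c3 * e' = c1 * k + (c2 * j + c3 * e') by ring]]
    exact key c1 _ (Or.inl hc)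
  · rw [Finset.sum_congr rfl fun e' _ => Finset.sum_comm]
    refine hfin (fun e' j k => Ers (9 / 10) S (c1 * k + c2 * j + c3 * e')) fun e' j => ?_
    rw [Finset.sum_congr rfl fun k _ => by
      rw [show c1 * k + c2 * j + c3 * e' = c1 * k + (c2 * j + c3 * e') by ring]]
    exact key c1 _ (Or.inr hc)
  · refine hfin (fun e' k j => Ers (9 / 10) S (c1 * k + c2 * j + c3 * e')) fun e' k => ?_
    rw [Finset.sum_congr rfl fun j _ => by
      rw [show c1 * k + c2 * j + c3 * e' = c2 * j + (c1 * k + c3 * e') by ring]]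
    exact key c2 _ (Or.inl hc)
  · refine hfin (fun e' k j => Ers (9 / 10) S (c1 * k + c2 * j + c3 * e')) fun e' k => ?_
    rw [Finset.sum_congr rfl fun j _ => by
      rw [show c1 * k + c2 * j + c3 * e' = c2 * j + (c1 * k + c3 * e') by ring]]
    exact key c2 _ (Or.inr hc)
  · rw [Finset.sum_comm]
    rw [Finset.sum_congr rfl fun k _ => Finset.sum_comm]
    refine hfin (fun k j e' => Ers (9 / 10) S (c1 * k + c2 * j + c3 * e')) fun k j => ?_
    rw [Finset.sum_congr rfl fun e' _ => by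
      rw [show c1 * k + c2 * j + c3 * e' = c3 * e' + (c1 * k + c2 * j) by ring]]
    exact key c3 _ (Or.inl hc)
  · rw [Finset.sum_comm]
    rw [Finset.sum_congr rfl fun k _ => Finset.sum_comm]
    refine hfin (fun k j e' => Ers (9 / 10) S (c1 * k + c2 * j + c3 * e')) fun k j => ?_
    rw [Finset.sum_congr rfl fun e' _ => by
      rw [show c1 * k + c2 * j + c3 * e' = c3 * e' + (c1 * k + c2 * j) by ring]]
    exact key c3 _ (Or.inr hc)

/-- indicator of `true` -/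
def qtI (b : Bool) : ℤ := if b then 1 else 0

lemma qt_diff (k j e' : ℤ) (s t : (Bool × Bool) × Bool) :
    qtPe k j e' t - qtPe k j e' s = (qtI t.1.1 - qtI s.1.1) * k + (qtI t.1.2 - qtI s.1.2) * j +
      (qtI t.2 - qtI s.2) * e' := by
  unfold qtPe qtP qtI
  split_ifs <;> ring

lemma qt_coef {s t : (Bool × Bool) × Bool} (h : s ≠ t) :
    (qtI t.1.1 - qtI s.1.1) = 1 ∨ (qtI t.1.1 - qtI s.1.1) = -1 ∨
    (qtI t.1.2 - qtI s.1.2) = 1 ∨ (qtI t.1.2 - qtI s.1.2) = -1 ∨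
    (qtI t.2 - qtI s.2) = 1 ∨ (qtI t.2 - qtI s.2) = -1 := by
  obtain ⟨⟨s1, s2⟩, s3⟩ := s
  obtain ⟨⟨t1, t2⟩, t3⟩ := t
  revert h
  cases s1 <;> cases s2 <;> cases s3 <;> cases t1 <;> cases t2 <;> cases t3 <;> simp [qtI]

lemma qt_sumE : ∃ C : ℝ, 1 ≤ C ∧ ∀ (w z L : ℕ) (S : Finset ℕ), 1 ≤ w → PSet w z S → 1 ≤ L →
    ∑ e' ∈ Finset.Ioo (-(L : ℤ)) L, ∑ k ∈ Finset.Ioo (-(L : ℤ)) L, ∑ j ∈ Finset.Ioo (-(L : ℤ)) L,
      qtE S k j e' ≤ (2 * L) ^ 2 * (C * (2 * L * (w : ℝ) ^ (-(9 / 10 : ℝ)) + z)) := by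
  classical
  obtain ⟨C, hC, h⟩ := qt_avg1
  refine ⟨64 * C, by linarith, ?_⟩
  intro w z L S hw hS hL
  have hX0 : 0 ≤ (2 * L) ^ 2 * (C * (2 * L * (w : ℝ) ^ (-(9 / 10 : ℝ)) + z)) := by positivity
  have e1 : ∑ e' ∈ Finset.Ioo (-(L : ℤ)) L, ∑ k ∈ Finset.Ioo (-(L : ℤ)) L,
      ∑ j ∈ Finset.Ioo (-(L : ℤ)) L, qtE S k j e' =
      ∑ s : (Bool × Bool) × Bool, ∑ t ∈ Finset.univ.filter (fun t => s ≠ t),
        ∑ e' ∈ Finset.Ioo (-(L : ℤ)) L, ∑ k ∈ Finset.Ioo (-(L : ℤ)) L,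
          ∑ j ∈ Finset.Ioo (-(L : ℤ)) L, Ers (9 / 10) S ((qtI t.1.1 - qtI s.1.1) * k +
            (qtI t.1.2 - qtI s.1.2) * j + (qtI t.2 - qtI s.2) * e') := by
    have e2 : ∀ k j e' : ℤ, qtE S k j e' = ∑ s : (Bool × Bool) × Bool,
        ∑ t ∈ Finset.univ.filter (fun t => s ≠ t), Ers (9 / 10) S ((qtI t.1.1 - qtI s.1.1) * k +
            (qtI t.1.2 - qtI s.1.2) * j + (qtI t.2 - qtI s.2) * e') := by
      intro k j e'
      unfold qtE
      refine Finset.sum_congr rfl fun s _ => Finset.sum_congr ?_ fun t _ => ?_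
      · ext t
        simp
      · rw [qt_diff]
    simp only [e2]
    rw [Finset.sum_congr rfl fun e' _ => Finset.sum_congr rfl fun k _ => Finset.sum_comm]
    rw [Finset.sum_congr rfl fun e' _ => Finset.sum_comm]
    rw [Finset.sum_comm]
    apply Finset.sum_congr rfl
    intro s _
    rw [Finset.sum_congr rfl fun e' _ => Finset.sum_congr rfl fun k _ => Finset.sum_comm]
    rw [Finset.sum_congr rfl fun e' _ => Finset.sum_comm]
    rw [Finset.sum_comm]
  rw [e1]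
  calc _ ≤ ∑ s : (Bool × Bool) × Bool, ∑ t ∈ Finset.univ.filter (fun t => s ≠ t),
        (2 * L) ^ 2 * (C * (2 * L * (w : ℝ) ^ (-(9 / 10 : ℝ)) + z)) := by
        refine Finset.sum_le_sum fun s _ => Finset.sum_le_sum fun t ht => ?_
        exact h w z L S hw hS hL _ _ _ (qt_coef (Finset.mem_filter.1 ht).2)
    _ ≤ ∑ s : (Bool × Bool) × Bool, ∑ t : (Bool × Bool) × Bool,
        (2 * L) ^ 2 * (C * (2 * L * (w : ℝ) ^ (-(9 / 10 : ℝ)) + z)) := by
        refine Finset.sum_le_sum fun s _ => ?_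
        exact Finset.sum_le_sum_of_subset_of_nonneg (Finset.filter_subset _ _)
          fun _ _ _ => hX0
    _ = (2 * L) ^ 2 * (64 * C * (2 * L * (w : ℝ) ^ (-(9 / 10 : ℝ)) + z)) := by
        simp only [Finset.sum_const, Finset.card_univ, Fintype.card_prod, Fintype.card_bool,
          nsmul_eq_mul]
        push_cast
        ring

/-- the sum of the bounds -/
lemma qt_total : ∃ C0 : ℕ, 2 ≤ C0 ∧ ∃ K : ℝ, 1 ≤ K ∧ ∀ (A w z W L : ℕ) (S : Finset ℕ),
    C0 ≤ A → C0 ≤ w → 2 ≤ z → PSet w z S → IsW w W → z ^ (10 * A) ≤ L →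
    ∃ B : ℤ → ℝ, (∀ e', 0 ≤ B e') ∧ (∀ (b0 e' a b : ℤ), a ≤ b → b - a ≤ L → ∀ α β : ℝ,
      ‖∑ x ∈ Finset.Ico a b, ((rho S (b0 + W * x) * rho S (b0 + W * (x + e')) - 1 : ℝ) : ℂ) *
        e (α * x ^ 2 + β * x)‖ ^ 4 ≤ B e') ∧
      ∑ e' ∈ Finset.Ioo (-(L : ℤ)) L, B e' ≤ K * L ^ 5 * er C0 A w ∧
      ∑ e' ∈ Finset.Ioo (-(L : ℤ)) L, Ers (9 / 10) S e' ≤ K * L * er C0 A w := by
  obtain ⟨C, hC, h4⟩ := qt_four
  obtain ⟨C1, hC1, h1⟩ := qt_sumE
  obtain ⟨C3, hC3, h3⟩ := ers_avg (9 / 10) (by norm_num) (by norm_num)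
  let C0 : ℕ := max C 2
  have hCC0 : C ≤ C0 := le_max_left _ _
  have hC02 : 2 ≤ C0 := le_max_right _ _
  have hCr : (1:ℝ) ≤ C := by exact_mod_cast hC
  refine ⟨C0, hC02, 32 * C + 24 * C * C1 + 3 * C3, by nlinarith, ?_⟩
  intro A w z W L S hA hw hz hS hW hL
  have hA1 : 1 ≤ A := by omega
  have hw1 : 1 ≤ w := by omega
  have hz1 : (1:ℝ) ≤ z := by exact_mod_cast (by omega : 1 ≤ z)
  have hz2 : (2:ℝ) ≤ z := by exact_mod_cast hz
  have hL1 : 1 ≤ L := le_trans (Nat.one_le_pow _ _ (by omega)) hL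
  have hL1' : (1:ℝ) ≤ L := by exact_mod_cast hL1
  have hLr : (z:ℝ) ^ (10 * A) ≤ L := by exact_mod_cast hL
  have hw1' : (1:ℝ) ≤ w := by exact_mod_cast hw1
  have hC0r : (2:ℝ) ≤ C0 := by exact_mod_cast hC02
  set E := er C0 A w with hE
  have hE0 : 0 ≤ E := er_nonneg _ _ _
  have herC : er C A w ≤ E := qt_er_mono hC hCC0 hw1
  -- the remainder term
  have hrem : (z:ℝ) ^ (A + 8) ≤ L * E := by
    have e1 : (z:ℝ) ^ (A + 8) * 2 ^ A ≤ L := by
      calc (z:ℝ) ^ (A + 8) * 2 ^ A ≤ (z:ℝ) ^ (A + 8) * z ^ A := by gcongr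
        _ = (z:ℝ) ^ (A + 8 + A) := by rw [← pow_add]
        _ ≤ (z:ℝ) ^ (10 * A) := pow_le_pow_right₀ hz1 (by omega)
        _ ≤ L := hLr
    have e2 : ((2:ℝ) ^ A)⁻¹ ≤ E := by
      have e3 : ((2:ℝ) ^ A)⁻¹ = (2:ℝ) ^ (-(A:ℝ)) := by
        rw [Real.rpow_neg (by norm_num), Real.rpow_natCast]
      rw [e3]
      have e4 : (2:ℝ) ^ (-(A:ℝ)) ≤ (2:ℝ) ^ (-(A:ℝ) / C0) := by
        apply Real.rpow_le_rpow_of_exponent_le (by norm_num)
        rw [neg_div, neg_le_neg_iff]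
        exact div_le_self (Nat.cast_nonneg _) (by linarith)
      have e5 : 0 ≤ (w:ℝ) ^ (-(1:ℝ) / C0) := Real.rpow_nonneg (Nat.cast_nonneg _) _
      rw [hE]
      unfold er
      linarith
    have e6 : (0:ℝ) < 2 ^ A := by positivity
    calc (z:ℝ) ^ (A + 8) = (z:ℝ) ^ (A + 8) * 2 ^ A * ((2:ℝ) ^ A)⁻¹ := by
          field_simp
      _ ≤ L * E := mul_le_mul e1 e2 (by positivity) (by positivity)
  have hzrem : (z:ℝ) ≤ L * E := by
    calc (z:ℝ) = (z:ℝ) ^ 1 := (pow_one _).symm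
      _ ≤ (z:ℝ) ^ (A + 8) := pow_le_pow_right₀ hz1 (by omega)
      _ ≤ L * E := hrem
  have hwE : (w : ℝ) ^ (-(9 / 10 : ℝ)) ≤ E := by
    have e4 : (w:ℝ) ^ (-(9 / 10 : ℝ)) ≤ (w:ℝ) ^ (-(1:ℝ) / C0) := by
      apply Real.rpow_le_rpow_of_exponent_le hw1'
      rw [neg_div, neg_le_neg_iff, div_le_iff₀ (by linarith)]
      linarith
    have e5 : 0 ≤ (2:ℝ) ^ (-(A:ℝ) / C0) := Real.rpow_nonneg (by norm_num) _
    rw [hE]
    unfold er
    linarith
  have hX : 2 * L * (w : ℝ) ^ (-(9 / 10 : ℝ)) + z ≤ 3 * L * E := by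
    have : 2 * L * (w : ℝ) ^ (-(9 / 10 : ℝ)) ≤ 2 * L * E := by gcongr
    linarith
  have hcard : ((Finset.Ioo (-(L : ℤ)) L).card : ℝ) ≤ 2 * L := by
    rw [Int.card_Ioo]
    have : ((L:ℤ) - -(L:ℤ) - 1).toNat ≤ 2 * L := by omega
    exact_mod_cast this
  have hconst : ∀ X : ℝ, 0 ≤ X → ∑ _h ∈ Finset.Ioo (-(L : ℤ)) L, X ≤ 2 * L * X := by
    intro X hX
    rw [Finset.sum_const, nsmul_eq_mul]
    exact mul_le_mul_of_nonneg_right hcard hX
  refine ⟨qtB S C A w z L, ?_, ?_, ?_, ?_⟩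
  · intro e'
    unfold qtB
    have her0 := er_nonneg C A w
    apply mul_nonneg (by positivity)
    refine Finset.sum_nonneg fun k _ => Finset.sum_nonneg fun j _ => ?_
    have hE0 := qtE_nonneg S k j e'
    positivity
  · intro b0 e' a b hab hL' α β
    exact h4 A w z W L S (hCC0.trans hA) (hCC0.trans hw) hz hS hW b0 e' a b hab hL' α β
  · have e1 : ∑ e' ∈ Finset.Ioo (-(L : ℤ)) L, qtB S C A w z L e' =
        2 * L * (∑ e' ∈ Finset.Ioo (-(L : ℤ)) L, ∑ k ∈ Finset.Ioo (-(L : ℤ)) L,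
          ∑ j ∈ Finset.Ioo (-(L : ℤ)) L, (L * (C * er C A w) + C * (z : ℝ) ^ (A + 8))) +
        2 * L * (L * C * ∑ e' ∈ Finset.Ioo (-(L : ℤ)) L, ∑ k ∈ Finset.Ioo (-(L : ℤ)) L,
          ∑ j ∈ Finset.Ioo (-(L : ℤ)) L, qtE S k j e') := by
      unfold qtB
      rw [← Finset.mul_sum, ← mul_add]
      congr 1
      simp only [Finset.mul_sum]
      rw [← Finset.sum_add_distrib]
      apply Finset.sum_congr rfl
      intro e' _
      rw [← Finset.sum_add_distrib]
      apply Finset.sum_congr rfl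
      intro k _
      rw [← Finset.sum_add_distrib]
      apply Finset.sum_congr rfl
      intro j _
      ring
    have hY0 : 0 ≤ L * (C * er C A w) + C * (z : ℝ) ^ (A + 8) := by
      have her0 := er_nonneg C A w
      positivity
    have e2 : ∑ e' ∈ Finset.Ioo (-(L : ℤ)) L, ∑ k ∈ Finset.Ioo (-(L : ℤ)) L,
          ∑ j ∈ Finset.Ioo (-(L : ℤ)) L, (L * (C * er C A w) + C * (z : ℝ) ^ (A + 8)) ≤
        (2 * L) ^ 3 * (2 * C * L * E) := by
      calc _ ≤ ∑ e' ∈ Finset.Ioo (-(L : ℤ)) L, ∑ k ∈ Finset.Ioo (-(L : ℤ)) L,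
            2 * L * (L * (C * er C A w) + C * (z : ℝ) ^ (A + 8)) :=
            Finset.sum_le_sum fun _ _ => Finset.sum_le_sum fun _ _ => hconst _ hY0
        _ ≤ ∑ e' ∈ Finset.Ioo (-(L : ℤ)) L,
            2 * L * (2 * L * (L * (C * er C A w) + C * (z : ℝ) ^ (A + 8))) :=
            Finset.sum_le_sum fun _ _ => hconst _ (by positivity)
        _ ≤ 2 * L * (2 * L * (2 * L * (L * (C * er C A w) + C * (z : ℝ) ^ (A + 8)))) :=
            hconst _ (by positivity)
        _ ≤ 2 * L * (2 * L * (2 * L * (L * (C * E) + C * (L * E)))) := by gcongr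
        _ = (2 * L) ^ 3 * (2 * C * L * E) := by ring
    have e3 := h1 w z L S hw1 hS hL1
    rw [e1]
    calc _ ≤ 2 * L * ((2 * L) ^ 3 * (2 * C * L * E)) +
          2 * L * (L * C * ((2 * L) ^ 2 * (C1 * (3 * L * E)))) := by
          apply add_le_add
          · gcongr
          · refine mul_le_mul_of_nonneg_left ?_ (by positivity)
            refine mul_le_mul_of_nonneg_left ?_ (by positivity)
            refine e3.trans ?_
            refine mul_le_mul_of_nonneg_left ?_ (by positivity)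
            exact mul_le_mul_of_nonneg_left hX (by linarith)
      _ = (32 * C + 24 * C * C1) * L ^ 5 * E := by ring
      _ ≤ (32 * C + 24 * C * C1 + 3 * C3) * L ^ 5 * E := by
          have h0 : 0 ≤ 3 * C3 * (L ^ 5 * E) := mul_nonneg (by linarith) (by positivity)
          linarith
  · have h5 := h3 w z S hw1 hS 1 0 (by
      intro p hp hd
      have hp2 := (hS.prime p hp).two_le
      have := Int.le_of_dvd one_pos hd
      omega) (-(L:ℤ)) L (by omega)
    have h6 : ∑ e' ∈ Finset.Ioo (-(L : ℤ)) L, Ers (9 / 10) S e' ≤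
        ∑ h ∈ Finset.Ico (-(L : ℤ)) L, Ers (9 / 10) S (1 * h + 0) := by
      simp only [one_mul, add_zero]
      exact Finset.sum_le_sum_of_subset_of_nonneg Finset.Ioo_subset_Ico_self
        fun _ _ _ => Ers_nonneg _ _ _
    refine h6.trans (h5.trans ?_)
    have e1 : ((L:ℤ):ℝ) - ((-(L:ℤ) : ℤ) : ℝ) = 2 * L := by push_cast; ring
    rw [e1]
    calc C3 * (2 * L * (w : ℝ) ^ (-(9 / 10 : ℝ)) + z) ≤ C3 * (3 * L * E) :=
          mul_le_mul_of_nonneg_left hX (by linarith)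
      _ = 3 * C3 * L * E := by ring
      _ ≤ (32 * C + 24 * C * C1 + 3 * C3) * L * E := by
          have : 0 ≤ (32 * C + 24 * C * C1) * (L * E) := by positivity
          nlinarith

open Classical in
/-- Chunk QT. Van der Corput twice: with `q(x) = ρ(x) ρ(x+e') - 1` on `[a,b)`,
`|∑ q(x) e(α x^2 + β x)|^4 ≤ 2L ∑_{k,k2} |∑_{x ∈ I_{k,k2}} q(x) q(x+k) q(x+k2) q(x+k+k2)|`, and by
`corr0` with up to 8 forms (expand) the inner sum is `≤ L E(k,k2,e')` for every interval, `E` a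
combination of `er` and `Ers (9/10) S` at `k, k2, k ± k2, e', e' ± (k, k2, k ± k2)`; average over
`k, k2, e'` and use Markov. -/
theorem qt : ∃ C : ℕ, 1 ≤ C ∧ ∀ (A w z W L : ℕ) (S : Finset ℕ), C ≤ A → C ≤ w → 2 ≤ z →
    PSet w z S → IsW w W → z ^ (C * A) ≤ L → ∀ (b0 x0 : ℤ),
    (((Finset.Ioo (-(L : ℤ)) L).filter
      fun e' => ¬ Typ S W b0 x0 L (C * er C A w) e').card : ℝ) ≤ C * er C A w * L := by
  obtain ⟨C0, hC0, K, hK, h⟩ := qt_total
  obtain ⟨N, hN⟩ := exists_nat_ge (2 * K)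
  let C : ℕ := 10 + 5 * C0 + N
  have hCr : (C:ℝ) = 10 + 5 * C0 + N := by simp [C]
  refine ⟨C, by omega, ?_⟩
  intro A w z W L S hA hw hz hS hW hL b0 x0
  have hA1 : 1 ≤ A := by omega
  have hw1 : 1 ≤ w := by omega
  have hL' : z ^ (10 * A) ≤ L :=
    le_trans (Nat.pow_le_pow_right (by omega) (Nat.mul_le_mul_right A (by omega))) hL
  have hL1 : 1 ≤ L := le_trans (Nat.one_le_pow _ _ (by omega)) hL
  have hL1' : (1:ℝ) ≤ L := by exact_mod_cast hL1
  obtain ⟨B, hB0, hB, hBs, hEs⟩ := h A w z W L S (by omega) (by omega) hz hS hW hL'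
  set η := (C:ℝ) * er C A w with hη
  have hC1 : (1:ℝ) ≤ C := by rw [hCr]; have := Nat.cast_nonneg (α := ℝ) C0; have := Nat.cast_nonneg (α := ℝ) N; linarith
  have hC2K : 2 * K ≤ C := by
    rw [hCr]
    have := Nat.cast_nonneg (α := ℝ) C0
    linarith
  have her0 : 0 ≤ er C A w := er_nonneg _ _ _
  have herpos : 0 < er C A w := by
    unfold er
    have : 0 < (2:ℝ) ^ (-(A:ℝ) / C) := Real.rpow_pos_of_pos (by norm_num) _
    have := Real.rpow_nonneg (Nat.cast_nonneg (α := ℝ) w) (-(1:ℝ) / C)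
    linarith
  have hηpos : 0 < η := by rw [hη]; positivity
  -- powers of the error
  have p2 : er C0 A w ≤ er C A w ^ 2 := qt_er_pow 2 (by norm_num) (by omega) (by omega) hw1
  have p5 : er C0 A w ≤ er C A w ^ 5 := qt_er_pow 5 (by norm_num) (by omega) (by omega) hw1
  have q2 : 2 * K * er C0 A w ≤ η ^ 2 := by
    rw [hη, mul_pow]
    have : 2 * K ≤ (C:ℝ) ^ 2 := by nlinarith
    exact mul_le_mul this p2 (er_nonneg _ _ _) (by positivity)
  have q5 : 2 * K * er C0 A w ≤ η ^ 5 := by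
    rw [hη, mul_pow]
    have : 2 * K ≤ (C:ℝ) ^ 5 := by
      calc 2 * K ≤ C := hC2K
        _ = (C:ℝ) ^ 1 := (pow_one _).symm
        _ ≤ (C:ℝ) ^ 5 := pow_le_pow_right₀ hC1 (by norm_num)
    exact mul_le_mul this p5 (er_nonneg _ _ _) (by positivity)
  -- the two exceptional sets
  let I := Finset.Ioo (-(L : ℤ)) L
  have hsub : (I.filter fun e' => ¬ Typ S W b0 x0 L η e') ⊆
      (I.filter fun e' => η < Ers (9 / 10) S e') ∪ (I.filter fun e' => η ^ 4 * L ^ 4 < B e') := by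
    intro e' he'
    rw [Finset.mem_filter] at he'
    rw [Finset.mem_union, Finset.mem_filter, Finset.mem_filter]
    by_contra hcon
    push Not at hcon
    apply he'.2
    refine ⟨hcon.1 he'.1, ?_⟩
    intro a b ha hab hb α β
    have h1 := hB b0 e' a b hab (by omega) α β
    have h2 := hcon.2 he'.1
    have h3 := h1.trans h2
    rw [← mul_pow] at h3
    exact le_of_pow_le_pow_left₀ (by norm_num) (by positivity) h3
  have m1 : ((I.filter fun e' => η < Ers (9 / 10) S e').card : ℝ) * η ≤ K * L * er C0 A w := by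
    calc ((I.filter fun e' => η < Ers (9 / 10) S e').card : ℝ) * η
        = ∑ e' ∈ I.filter (fun e' => η < Ers (9 / 10) S e'), η := by
          rw [Finset.sum_const, nsmul_eq_mul]
      _ ≤ ∑ e' ∈ I.filter (fun e' => η < Ers (9 / 10) S e'), Ers (9 / 10) S e' :=
          Finset.sum_le_sum fun e' he' => (Finset.mem_filter.1 he').2.le
      _ ≤ ∑ e' ∈ I, Ers (9 / 10) S e' :=
          Finset.sum_le_sum_of_subset_of_nonneg (Finset.filter_subset _ _)
            fun _ _ _ => Ers_nonneg _ _ _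
      _ ≤ _ := hEs
  have m2 : ((I.filter fun e' => η ^ 4 * L ^ 4 < B e').card : ℝ) * (η ^ 4 * L ^ 4) ≤
      K * L ^ 5 * er C0 A w := by
    calc ((I.filter fun e' => η ^ 4 * L ^ 4 < B e').card : ℝ) * (η ^ 4 * L ^ 4)
        = ∑ e' ∈ I.filter (fun e' => η ^ 4 * L ^ 4 < B e'), η ^ 4 * L ^ 4 := by
          rw [Finset.sum_const, nsmul_eq_mul]
      _ ≤ ∑ e' ∈ I.filter (fun e' => η ^ 4 * L ^ 4 < B e'), B e' :=
          Finset.sum_le_sum fun e' he' => (Finset.mem_filter.1 he').2.le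
      _ ≤ ∑ e' ∈ I, B e' :=
          Finset.sum_le_sum_of_subset_of_nonneg (Finset.filter_subset _ _)
            fun _ _ _ => hB0 _
      _ ≤ _ := hBs
  have n1 : ((I.filter fun e' => η < Ers (9 / 10) S e').card : ℝ) ≤ η * L / 2 := by
    by_contra hcon
    push Not at hcon
    have h1 : η * L / 2 * η < K * L * er C0 A w :=
      lt_of_lt_of_le (mul_lt_mul_of_pos_right hcon hηpos) m1
    have h2 : 2 * K * er C0 A w * L ≤ η ^ 2 * L := mul_le_mul_of_nonneg_right q2 (by linarith)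
    nlinarith
  have n2 : ((I.filter fun e' => η ^ 4 * L ^ 4 < B e').card : ℝ) ≤ η * L / 2 := by
    by_contra hcon
    push Not at hcon
    have hpos : 0 < η ^ 4 * (L:ℝ) ^ 4 := by positivity
    have h1 : η * L / 2 * (η ^ 4 * (L:ℝ) ^ 4) < K * L ^ 5 * er C0 A w :=
      lt_of_lt_of_le (mul_lt_mul_of_pos_right hcon hpos) m2
    have h2 : 2 * K * er C0 A w * L ^ 5 ≤ η ^ 5 * L ^ 5 :=
      mul_le_mul_of_nonneg_right q5 (by positivity)
    have h3 : η * L / 2 * (η ^ 4 * (L:ℝ) ^ 4) = η ^ 5 * L ^ 5 / 2 := by ring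
    rw [h3] at h1
    linarith
  have hfin : ((I.filter fun e' => ¬ Typ S W b0 x0 L η e').card : ℝ) ≤ η * L := by
    calc ((I.filter fun e' => ¬ Typ S W b0 x0 L η e').card : ℝ)
        ≤ (((I.filter fun e' => η < Ers (9 / 10) S e') ∪
            (I.filter fun e' => η ^ 4 * L ^ 4 < B e')).card : ℝ) := by
          exact_mod_cast Finset.card_le_card hsub
      _ ≤ ((I.filter fun e' => η < Ers (9 / 10) S e').card : ℝ) +
            ((I.filter fun e' => η ^ 4 * L ^ 4 < B e').card : ℝ) := by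
          exact_mod_cast Finset.card_union_le _ _
      _ ≤ η * L := by linarith
  exact hfin

end Pool.Agent.Lib.H18GB
end

-- from Lib.H18GB.STdefs
section

/-!
# The Type II structural theorem: configuration, sets
-/

namespace Pool.Agent.Lib.H18GB

open Finset Pool.Agent.Lib.Sieve

/-- Standing assumptions: `P` is a set of primes in `[B, 2B]`, all `= b0 mod W`. -/
structure Cfg (w W y B M : ℕ) (r b0 : ℤ) (P : Finset ℕ) (H : Finset ℤ) : Prop where
  isW : IsW w W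
  hr : |r| < 2 * W
  rcop : IsCoprime r (W : ℤ)
  hb0 : 0 ≤ b0 ∧ b0 < W
  b0cop : IsCoprime b0 (W : ℤ)
  Wy : 4 * W ^ 4 ≤ y
  hw : w ≤ y
  BM : 100 * B ^ 2 ≤ M
  hP : ∀ b ∈ P, b.Prime ∧ B ≤ b ∧ b ≤ 2 * B ∧ (W : ℤ) ∣ (b : ℤ) - b0
  hH : H ⊆ Finset.Ioo (-(M : ℤ)) M

/-- the Type II function `f(n) = ∑_{b ∈ P, b ∣ r + W n} β((r + W n) / b)` -/
noncomputable def fII (W : ℕ) (r : ℤ) (P : Finset ℕ) (β : ℤ → ℂ) (n : ℤ) : ℂ :=
  ∑ b ∈ P.filter (fun b : ℕ => (b : ℤ) ∣ r + W * n), β ((r + W * n) / b)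

/-- `β` is supported on `S`-rough numbers and bounded by `1` -/
def BetaOK (S : Finset ℕ) (β : ℤ → ℂ) : Prop := ∀ a, ‖β a‖ ≤ 1 ∧ (¬ Rgh S a → β a = 0)

open Classical in
/-- the tuples `((b, c), (t, (h1, h2)))` of step (R) -/
noncomputable def Rset (M B : ℕ) (P : Finset ℕ) (H : Finset ℤ) (θ : ℤ → ℝ) (C1 : ℝ) :
    Finset ((ℕ × ℕ) × (ℤ × (ℤ × ℤ))) :=
  ((P ×ˢ P) ×ˢ (Finset.Icc (-((M / B : ℕ) : ℤ)) ((M / B : ℕ) : ℤ) ×ˢ (H ×ˢ H))).filter
    fun q => q.2.2.1 - q.2.1 * q.1.1 ∈ H ∧ q.2.2.2 - q.2.1 * q.1.2 ∈ H ∧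
      nr (q.1.1 * (θ q.2.2.1 - θ (q.2.2.1 - q.2.1 * q.1.1)) -
        q.1.2 * (θ q.2.2.2 - θ (q.2.2.2 - q.2.1 * q.1.2))) ≤ C1 * B / M

open Classical in
/-- the primes `b` with `b + W e'` in `P` too and `b (b + W e') Y` near `γ` -/
noncomputable def Bset (W : ℕ) (P : Finset ℕ) (e' : ℤ) (Y γ ε0 : ℝ) : Finset ℕ :=
  P.filter fun b : ℕ => (∃ b' ∈ P, (b' : ℤ) = b + W * e') ∧ nr (b * (b + W * e') * Y - γ) ≤ ε0

open Classical in
/-- the triples `(t, (h, e'))` with `h, h - t W e' ∈ H` -/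
noncomputable def Tset (W M B : ℕ) (H : Finset ℤ) : Finset (ℤ × (ℤ × ℤ)) :=
  (Finset.Icc (-((M / B : ℕ) : ℤ)) ((M / B : ℕ) : ℤ) ×ˢ
    (H ×ˢ Finset.Icc (-((B / W : ℕ) : ℤ)) ((B / W : ℕ) : ℤ))).filter
    fun q => q.1 ≠ 0 ∧ q.2.2 ≠ 0 ∧ q.2.1 - q.1 * (W * q.2.2) ∈ H

/-- `x` is within `T / M` of `(1 / (Q W^2)) ℤ` -/
def Near (Q W T M : ℕ) (x : ℝ) : Prop := ∃ m : ℤ, |x - m / (Q * (W : ℝ) ^ 2)| ≤ T / M

end Pool.Agent.Lib.H18GB
end

-- from Lib.H18GB.DecA
section

/-!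
# Project GB: DEC, auxiliary lemmas I
-/

namespace Pool.Agent.Lib.H18GB

open Finset Pool.Agent.Lib.Sieve

/-- dyadic blocks -/
theorem dec_dyad (x : ℕ) (hx : 2 ≤ x) :
    ∑ p ∈ (Finset.Ioc x (2 * x)).filter Nat.Prime, (1 : ℝ) / p ≤ 3 / Real.log x := by
  have hx' : (2 : ℝ) ≤ x := by exact_mod_cast hx
  have hlog : 0 < Real.log x := Real.log_pos (by linarith)
  set P := (Finset.Ioc x (2 * x)).filter Nat.Prime with hP
  have h1 : (x : ℕ) ^ P.card ≤ 4 ^ (2 * x) := by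
    calc x ^ P.card = ∏ p ∈ P, x := by rw [Finset.prod_const]
      _ ≤ ∏ p ∈ P, p := Finset.prod_le_prod' fun p hp =>
          (Finset.mem_Ioc.mp (Finset.mem_filter.mp hp).1).1.le
      _ ≤ ∏ p ∈ primesUpTo (2 * x), p := by
          apply Finset.prod_le_prod_of_subset_of_one_le'
          · intro p hp
            rw [mem_primesUpTo]
            have := Finset.mem_filter.mp hp
            exact ⟨this.2, (Finset.mem_Ioc.mp this.1).2⟩
          · intro p hp _
            exact (mem_primesUpTo.mp hp).1.one_le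
      _ ≤ 4 ^ (2 * x) := primorial_le_four_pow _
  have h2 : (P.card : ℝ) * Real.log x ≤ 2 * x * Real.log 4 := by
    have h3 : ((x : ℝ) ^ P.card) ≤ (4 : ℝ) ^ (2 * x) := by exact_mod_cast h1
    have h4 := Real.log_le_log (by positivity) h3
    rw [Real.log_pow, Real.log_pow] at h4
    push_cast at h4
    exact h4
  have h4 : Real.log 4 ≤ 3 / 2 := by
    have : (4 : ℝ) = 2 ^ 2 := by norm_num
    rw [this, Real.log_pow]
    have := Real.log_two_lt_d9
    push_cast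
    linarith
  calc ∑ p ∈ P, (1 : ℝ) / p ≤ ∑ p ∈ P, (1 : ℝ) / x := by
        refine Finset.sum_le_sum fun p hp => ?_
        have := (Finset.mem_Ioc.mp (Finset.mem_filter.mp hp).1).1
        have h5 : (x : ℝ) ≤ p := by exact_mod_cast this.le
        exact one_div_le_one_div_of_le (by linarith) h5
    _ = P.card / x := by rw [Finset.sum_const, nsmul_eq_mul]; ring
    _ ≤ 3 / Real.log x := by
        rw [div_le_div_iff₀ (by linarith) hlog]
        nlinarith

theorem dec_tot {w W : ℕ} (hW : IsW w W) :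
    (Nat.totient W / W : ℝ) = ∏ p ∈ W.primeFactors, (1 - 1 / (p : ℝ)) := by
  have h := Nat.totient_eq_mul_prod_factors W
  have hW0 : (W : ℝ) ≠ 0 := by exact_mod_cast hW.1.ne'
  have h2 : (Nat.totient W : ℝ) = W * ∏ p ∈ W.primeFactors, (1 - (p : ℝ)⁻¹) := by
    have h3 := congrArg (Rat.cast : ℚ → ℝ) h
    push_cast at h3
    exact h3
  rw [h2, mul_div_cancel_left₀ _ hW0]
  simp only [one_div]

theorem dec_vv {w W : ℕ} (hW : IsW w W) {z : ℕ} (hz : 2 ≤ z) (hwz : w ≤ z) :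
    (Nat.totient W / W : ℝ) * VV (sprimes w z) ≤ 1 / Real.log z := by
  refine le_trans (le_of_eq ?_) (prod_one_sub_inv_le z hz)
  rw [dec_tot hW]
  unfold VV
  have h3 : primesUpTo z = W.primeFactors ∪ sprimes w z := by
    ext p
    rw [Finset.mem_union, mem_primesUpTo, mem_sprimes, Nat.mem_primeFactors]
    constructor
    · rintro ⟨h1, h2⟩
      by_cases h : p ≤ w
      · left
        exact ⟨h1, (hW.2 p h1).mpr h, hW.1.ne'⟩
      · right
        exact ⟨h1, by omega, h2⟩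
    · rintro (⟨h1, h2, -⟩ | ⟨h1, h2, h3⟩)
      · exact ⟨h1, ((hW.2 p h1).mp h2).trans hwz⟩
      · exact ⟨h1, h3⟩
  rw [h3, Finset.prod_union]
  rw [Finset.disjoint_left]
  intro p hp hp2
  rw [mem_sprimes] at hp2
  rw [Nat.mem_primeFactors] at hp
  have := (hW.2 p hp.1).mp hp.2.1
  omega

open Classical in
theorem dec_cnt : ∃ C2 : ℕ, 1 ≤ C2 ∧ ∀ (w z W q M : ℕ) (S : Finset ℕ) (r : ℤ), C2 ≤ w → 2 ≤ z →
    IsW w W → PSet w z S → 0 < q → IsCoprime (q : ℤ) (W : ℤ) →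
    (((Finset.Ico (0 : ℤ) M).filter fun n => (q : ℤ) ∣ r + W * n ∧ Rgh S ((r + W * n) / q)).card : ℝ)
      ≤ VV S * (C2 * ((M : ℝ) / q + 1) + C2 * (z : ℝ) ^ (C2 + 1)) := by
  obtain ⟨C, hC1, hC⟩ := corr0 1
  refine ⟨1 + 2 * C, by omega, ?_⟩
  intro w z W q M S r hw hz hW hS hq hcop
  have hq' : (0 : ℤ) < q := by exact_mod_cast hq
  obtain ⟨u, t, hut⟩ := hcop
  set n0 : ℤ := (-r * t) % q with hn0
  have hn0a : 0 ≤ n0 := Int.emod_nonneg _ hq'.ne'
  have hn0b : n0 < q := Int.emod_lt_of_pos _ hq'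
  have hdiv : (q : ℤ) ∣ r + W * n0 := by
    have h1 : (q : ℤ) ∣ (-r * t) - n0 := Int.dvd_self_sub_emod
    obtain ⟨k, hk⟩ := h1
    refine ⟨r * u - W * k, ?_⟩
    have h2 : n0 = -r * t - q * k := by linarith
    rw [h2]
    linear_combination (-r) * hut
  obtain ⟨β, hβ⟩ := hdiv
  have key : ((Finset.Ico (0 : ℤ) M).filter fun n =>
        (q : ℤ) ∣ r + W * n ∧ Rgh S ((r + W * n) / q)).card ≤
      ((Finset.Ico (0 : ℤ) ((M / q + 1 : ℕ) : ℤ)).filter (fun m => Rgh S (W * m + β))).card := by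
    have hrec : ∀ n : ℤ, (q : ℤ) ∣ r + W * n → ∃ m, n - n0 = q * m := by
      intro n hn
      have h1 : (q : ℤ) ∣ W * (n - n0) := by
        have : (W : ℤ) * (n - n0) = (r + W * n) - q * β := by rw [← hβ]; ring
        rw [this]
        exact dvd_sub hn (Dvd.intro _ rfl)
      have h2 : IsCoprime (q : ℤ) (W : ℤ) := ⟨u, t, hut⟩
      exact h2.dvd_of_dvd_mul_left h1
    apply Finset.card_le_card_of_injOn (fun n => (n - n0) / q)
    · intro n hn
      rw [Finset.mem_coe, Finset.mem_filter, Finset.mem_Ico] at hn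
      obtain ⟨⟨hn1, hn2⟩, hn3, hn4⟩ := hn
      obtain ⟨m, hm⟩ := hrec n hn3
      rw [Finset.mem_coe, Finset.mem_filter, Finset.mem_Ico]
      have h1 : (n - n0) / q = m := by rw [hm]; exact Int.mul_ediv_cancel_left _ hq'.ne'
      beta_reduce
      rw [h1]
      have h2 : 0 ≤ m := by
        by_contra hneg
        push Not at hneg
        nlinarith
      refine ⟨⟨h2, ?_⟩, ?_⟩
      · have h3 : q * m < M := by linarith
        have h4 : m ≤ (M : ℤ) / q := by
          rw [Int.le_ediv_iff_mul_le hq']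
          linarith
        push_cast
        omega
      · have h5 : (r + W * n) / q = W * m + β := by
          have : r + W * n = q * (W * m + β) := by
            have h6 : n = n0 + q * m := by linarith
            rw [h6]
            linear_combination hβ
          rw [this]
          exact Int.mul_ediv_cancel_left _ hq'.ne'
        rwa [h5] at hn4
    · intro n hn n' hn' h
      rw [Finset.mem_coe, Finset.mem_filter] at hn hn'
      obtain ⟨m, hm⟩ := hrec n hn.2.1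
      obtain ⟨m', hm'⟩ := hrec n' hn'.2.1
      simp only at h
      rw [hm, hm', Int.mul_ediv_cancel_left _ hq'.ne', Int.mul_ediv_cancel_left _ hq'.ne'] at h
      rw [h] at hm
      linarith
  have hVV : 0 < VV S := VV_pos hS.prime
  have hcard : (((Finset.Ico (0 : ℤ) ((M / q + 1 : ℕ) : ℤ)).filter
      (fun m => Rgh S (W * m + β))).card : ℝ) =
      VV S * ∑ m ∈ Finset.Ico (0 : ℤ) ((M / q + 1 : ℕ) : ℤ), rho S (W * m + β) := by
    rw [Finset.card_filter, Finset.mul_sum]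
    push_cast
    refine Finset.sum_congr rfl fun m _ => ?_
    unfold rho
    split_ifs
    · rw [mul_inv_cancel₀ hVV.ne']
    · simp
  have hwpos : (1 : ℝ) ≤ w := by
    have : 1 ≤ w := by omega
    exact_mod_cast this
  have her : er C C w ≤ 2 := by
    unfold er
    have h1 : (2 : ℝ) ^ (-(C : ℝ) / C) ≤ 1 := by
      apply Real.rpow_le_one_of_one_le_of_nonpos (by norm_num)
      rw [neg_div]
      have : (0 : ℝ) ≤ (C : ℝ) / C := by positivity
      linarith
    have h2 : (w : ℝ) ^ (-(1 : ℝ) / C) ≤ 1 := by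
      apply Real.rpow_le_one_of_one_le_of_nonpos hwpos
      rw [neg_div]
      have : (0 : ℝ) ≤ (1 : ℝ) / C := by positivity
      linarith
    linarith
  have hz1 : (1 : ℝ) ≤ z := by
    have : 1 ≤ z := by omega
    exact_mod_cast this
  have hsum := hC C w z S le_rfl (by omega) hz hS (fun _ => (W : ℤ)) (fun _ => β)
    (fun p hp _ => hW.not_dvd hS p hp) 0 ((M / q + 1 : ℕ) : ℤ) (by positivity)
  have hE : ∑ i : Fin 1, ∑ j ∈ Finset.univ.filter (fun j => i ≠ j),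
      Ers (9 / 10) S (disc (fun _ : Fin 1 => (W : ℤ)) (fun _ => β) i j) = 0 := by
    apply Finset.sum_eq_zero
    intro i _
    apply Finset.sum_eq_zero
    intro j hj
    exact absurd (Subsingleton.elim i j) (Finset.mem_filter.mp hj).2
  rw [hE] at hsum
  simp only [Fin.prod_univ_one, mul_zero, add_zero, Int.cast_zero, sub_zero,
    Int.cast_natCast] at hsum
  have hsum2 := (abs_le.mp hsum).2
  have hMq : ((M / q + 1 : ℕ) : ℝ) ≤ (M : ℝ) / q + 1 := by
    push_cast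
    have : ((M / q : ℕ) : ℝ) ≤ (M : ℝ) / q := Nat.cast_div_le
    linarith
  have hMq0 : (0 : ℝ) ≤ ((M / q + 1 : ℕ) : ℝ) := Nat.cast_nonneg _
  calc (((Finset.Ico (0 : ℤ) M).filter fun n =>
        (q : ℤ) ∣ r + W * n ∧ Rgh S ((r + W * n) / q)).card : ℝ)
      ≤ (((Finset.Ico (0 : ℤ) ((M / q + 1 : ℕ) : ℤ)).filter
        (fun m => Rgh S (W * m + β))).card : ℝ) := by exact_mod_cast key
    _ = _ := hcard
    _ ≤ VV S * (((1 + 2 * C : ℕ) : ℝ) * ((M : ℝ) / q + 1) +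
        ((1 + 2 * C : ℕ) : ℝ) * (z : ℝ) ^ ((1 + 2 * C) + 1)) := by
        apply mul_le_mul_of_nonneg_left _ hVV.le
        have h1 : (z : ℝ) ^ (C + 1) ≤ (z : ℝ) ^ ((1 + 2 * C) + 1) :=
          pow_le_pow_right₀ hz1 (by omega)
        have h0 : (0 : ℝ) ≤ (z : ℝ) ^ (C + 1) := by positivity
        have hCr : (1 : ℝ) ≤ C := by exact_mod_cast hC1
        have h2 : (C : ℝ) * er C C w ≤ 2 * C := by nlinarith
        have h3 : ((M / q + 1 : ℕ) : ℝ) * ((C : ℝ) * er C C w) ≤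
            ((M : ℝ) / q + 1) * (2 * C) := by
          apply mul_le_mul hMq h2
          · exact mul_nonneg (by linarith) (er_nonneg _ _ _)
          · linarith
        have h4 : (C : ℝ) * (z : ℝ) ^ (C + 1) ≤
            ((1 + 2 * C : ℕ) : ℝ) * (z : ℝ) ^ ((1 + 2 * C) + 1) := by
          push_cast
          apply mul_le_mul (by linarith) h1 h0 (by linarith)
        push_cast at h4 ⊢
        push_cast at hsum2 h3 hMq
        nlinarith

end Pool.Agent.Lib.H18GB
end
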