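import Pool.Agent.Lib.H1M.RV.M005
import Pool.Agent.Lib.H1M.RV.M011
import Pool.Agent.Lib.H1M.RV.M012
import Pool.Agent.Lib.H1M.RV.M015

/-! Merged copies (to shorten the build) of Lib.H18GB.DecB, Lib.H18GB.DecC, Lib.H68T.INVS, Lib.H68X.XDefs, Lib.H18Q.R0, Lib.H59C.TY1, Lib.H51D.DHDefs, Lib.H51D.DHA, Lib.H68X.XRL, Lib.H51D.DHE. -/

-- from Lib.H18GB.DecB
section

/-!
# Project GB: DEC, auxiliary lemmas II (the pointwise decomposition)
-/

namespace Pool.Agent.Lib.H18GB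

open Finset Pool.Agent.Lib.Sieve

/-- the primes in `(z 2^j, z 2^(j+1)]` -/
def Pj (z j : ℕ) : Finset ℕ := (Finset.Ioc (z * 2 ^ j) (z * 2 ^ (j + 1))).filter Nat.Prime

open Classical in
/-- indicator of `a > 1` without prime factor `≤ z 2^(j+1)` -/
noncomputable def βj (z j : ℕ) (a : ℤ) : ℂ :=
  if 1 < a ∧ ∀ p : ℕ, p.Prime → p ≤ z * 2 ^ (j + 1) → ¬ (p : ℤ) ∣ a then 1 else 0

theorem dec_mem_Pj {z j b : ℕ} : b ∈ Pj z j ↔ (z * 2 ^ j < b ∧ b ≤ z * 2 ^ (j + 1)) ∧ b.Prime := by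
  unfold Pj
  rw [Finset.mem_filter, Finset.mem_Ioc]

open Classical in
/-- natural number version of the count of block `j` -/
noncomputable def dec_cN (z j m : ℕ) : ℕ :=
  ((Pj z j).filter fun b => b ∣ m ∧ 1 < m / b ∧
    ∀ p : ℕ, p.Prime → p ≤ z * 2 ^ (j + 1) → ¬ p ∣ m / b).card

def dec_E1 (z J m : ℕ) : Prop :=
  ∃ b : ℕ, b.Prime ∧ z * 2 ^ J < b ∧ b ^ 2 ≤ m ∧ b ∣ m ∧ ∀ p : ℕ, p.Prime → p < b → ¬ p ∣ m

def dec_E2 (w z J m : ℕ) : Prop :=
  Rgh (sprimes w z) (m : ℤ) ∧ ∃ j < J, ∃ b ∈ Pj z j, ∃ b' ∈ Pj z j, b * b' ∣ m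

theorem dec_exists_block {z b : ℕ} (hzb : z < b) :
    ∀ J : ℕ, b ≤ z * 2 ^ J → ∃ j < J, z * 2 ^ j < b ∧ b ≤ z * 2 ^ (j + 1) := by
  intro J
  induction J with
  | zero => intro h; simp at h; omega
  | succ J ih =>
    intro h
    by_cases h1 : b ≤ z * 2 ^ J
    · obtain ⟨j, hj, h2⟩ := ih h1
      exact ⟨j, by omega, h2⟩
    · exact ⟨J, by omega, by omega, h⟩

theorem dec_block_unique {z b j j' : ℕ} (h : b ∈ Pj z j) (h' : b ∈ Pj z j') : j = j' := by
  rw [dec_mem_Pj] at h h'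
  have aux : ∀ {i i' : ℕ}, i < i' → z * 2 ^ (i + 1) ≤ z * 2 ^ i' := fun hi =>
    Nat.mul_le_mul_left _ (Nat.pow_le_pow_right (by norm_num) hi)
  rcases lt_trichotomy j j' with h1 | h1 | h1
  · have := aux h1
    omega
  · exact h1
  · have := aux h1
    omega

open Classical in
theorem dec_point {w W z : ℕ} (hW : IsW w W) (J m : ℕ) (hz : 1 ≤ z) (hm : z < m)
    (hcop : Nat.Coprime m W) :
    |(if m.Prime then (1 : ℝ) else 0) - (if Rgh (sprimes w z) (m : ℤ) then 1 else 0) +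
      ((∑ j ∈ Finset.range J, dec_cN z j m : ℕ) : ℝ)| ≤
      (if dec_E1 z J m then (1 : ℝ) else 0) + (if dec_E2 w z J m then (1 : ℝ) else 0) := by
  have hpos : (0 : ℝ) ≤ (if dec_E1 z J m then (1 : ℝ) else 0) + (if dec_E2 w z J m then (1 : ℝ) else 0) := by
    split_ifs <;> norm_num
  by_cases hR : Rgh (sprimes w z) (m : ℤ)
  · by_cases hp : m.Prime
    · have hT : ∑ j ∈ Finset.range J, dec_cN z j m = 0 := by
        apply Finset.sum_eq_zero
        intro j _
        unfold dec_cN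
        rw [Finset.card_eq_zero, Finset.filter_eq_empty_iff]
        rintro b hb ⟨h1, h2, -⟩
        have hbp := (dec_mem_Pj.mp hb).2
        have h3 : b = m := (Nat.prime_dvd_prime_iff_eq hbp hp).mp h1
        rw [h3, Nat.div_self hp.pos] at h2
        omega
      rw [if_pos hp, if_pos hR, hT]
      simpa using hpos
    · set b := m.minFac with hbdef
      have hb : b.Prime := Nat.minFac_prime (by omega)
      have hbd : b ∣ m := Nat.minFac_dvd m
      have hbw : w < b := by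
        by_contra h
        push Not at h
        have h1 : b ∣ W := (hW.2 b hb).mpr h
        have h2 : b ∣ 1 := by
          rw [← Nat.Coprime.gcd_eq_one hcop]
          exact Nat.dvd_gcd hbd h1
        exact hb.one_lt.ne' (Nat.dvd_one.mp h2)
      have hbz : z < b := by
        by_contra h
        push Not at h
        exact hR b (mem_sprimes.mpr ⟨hb, hbw, h⟩) (Int.natCast_dvd_natCast.mpr hbd)
      have hb2 : b ^ 2 ≤ m := Nat.minFac_sq_le_self (by omega) hp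
      have hmin : ∀ p : ℕ, p.Prime → p ∣ m → b ≤ p := fun p hpp hpd =>
        Nat.minFac_le_of_dvd hpp.two_le hpd
      -- the elements counted
      have huniq : ∀ j b' : ℕ, b' ∈ Pj z j → b' ∣ m →
          (∀ p : ℕ, p.Prime → p ≤ z * 2 ^ (j + 1) → ¬ p ∣ m / b') → b' = b := by
        intro j b' hb' h1 h2
        by_contra hne
        have hbp := (dec_mem_Pj.mp hb').2
        have h3 : b ∣ b' * (m / b') := by rw [Nat.mul_div_cancel' h1]; exact hbd
        rcases (Nat.Prime.dvd_mul hb).mp h3 with h4 | h4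
        · exact hne ((Nat.prime_dvd_prime_iff_eq hb hbp).mp h4).symm
        · exact h2 b hb ((hmin b' hbp h1).trans (dec_mem_Pj.mp hb').1.2) h4
      rw [if_neg hp, if_pos hR]
      by_cases hJ : z * 2 ^ J < b
      · have hE1 : dec_E1 z J m := ⟨b, hb, hJ, hb2, hbd, fun p hpp hpb hpd => by
          have := hmin p hpp hpd
          omega⟩
        have hT : ∑ j ∈ Finset.range J, dec_cN z j m = 0 := by
          apply Finset.sum_eq_zero
          intro j hj
          unfold dec_cN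
          rw [Finset.card_eq_zero, Finset.filter_eq_empty_iff]
          rintro b' hb' ⟨h1, -, h3⟩
          have h4 := huniq j b' hb' h1 h3
          have h5 := (dec_mem_Pj.mp hb').1.2
          have h6 : z * 2 ^ (j + 1) ≤ z * 2 ^ J :=
            Nat.mul_le_mul_left _ (Nat.pow_le_pow_right (by norm_num) (Finset.mem_range.mp hj))
          omega
        rw [hT, if_pos hE1]
        split_ifs <;> norm_num
      · push Not at hJ
        obtain ⟨j0, hj0, hb1, hb3⟩ := dec_exists_block hbz J hJ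
        have hbj : b ∈ Pj z j0 := dec_mem_Pj.mpr ⟨⟨hb1, hb3⟩, hb⟩
        have hother : ∀ j ∈ Finset.range J, j ≠ j0 → dec_cN z j m = 0 := by
          intro j _ hne
          unfold dec_cN
          rw [Finset.card_eq_zero, Finset.filter_eq_empty_iff]
          rintro b' hb' ⟨h1, -, h3⟩
          have h4 := huniq j b' hb' h1 h3
          rw [h4] at hb'
          exact hne (dec_block_unique hb' hbj)
        have hsum : ∑ j ∈ Finset.range J, dec_cN z j m = dec_cN z j0 m :=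
          Finset.sum_eq_single_of_mem j0 (Finset.mem_range.mpr hj0) hother
        rw [hsum]
        have hmb : m / b * b = m := Nat.div_mul_cancel hbd
        have hmb1 : 1 < m / b := by
          by_contra h
          push Not at h
          have h1 : m / b * b ≤ 1 * b := Nat.mul_le_mul_right _ h
          rw [hmb] at h1
          nlinarith [hb.two_le]
        by_cases hq : ∃ p : ℕ, p.Prime ∧ p ≤ z * 2 ^ (j0 + 1) ∧ p ∣ m / b
        · obtain ⟨p, hpp, hp1, hp2⟩ := hq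
          have hpm : p ∣ m := hp2.trans (Nat.div_dvd_of_dvd hbd)
          have hpj : p ∈ Pj z j0 := dec_mem_Pj.mpr ⟨⟨lt_of_lt_of_le hb1 (hmin p hpp hpm), hp1⟩, hpp⟩
          have hE2 : dec_E2 w z J m := by
            refine ⟨hR, j0, hj0, b, hbj, p, hpj, ?_⟩
            obtain ⟨k, hk⟩ := hp2
            refine ⟨k, ?_⟩
            calc m = m / b * b := hmb.symm
              _ = b * p * k := by rw [hk]; ring
          have hT : dec_cN z j0 m = 0 := by
            unfold dec_cN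
            rw [Finset.card_eq_zero, Finset.filter_eq_empty_iff]
            rintro b' hb' ⟨h1, -, h3⟩
            have h4 := huniq j0 b' hb' h1 h3
            rw [h4] at h3
            exact h3 p hpp hp1 hp2
          rw [hT, if_pos hE2]
          split_ifs <;> norm_num
        · push Not at hq
          have hT : dec_cN z j0 m = 1 := by
            unfold dec_cN
            rw [Finset.card_eq_one]
            refine ⟨b, ?_⟩
            ext b'
            rw [Finset.mem_filter, Finset.mem_singleton]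
            constructor
            · rintro ⟨hb', h1, -, h3⟩
              exact huniq j0 b' hb' h1 h3
            · rintro rfl
              exact ⟨hbj, hbd, hmb1, hq⟩
          rw [hT]
          simpa using hpos
  · -- not rough
    have hR' : ∃ p ∈ sprimes w z, (p : ℤ) ∣ (m : ℤ) := by
      by_contra h
      push Not at h
      exact hR h
    obtain ⟨p, hp, hpm⟩ := hR'
    have hpm' : p ∣ m := Int.natCast_dvd_natCast.mp hpm
    obtain ⟨hpp, -, hpz⟩ := mem_sprimes.mp hp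
    have hnp : ¬ m.Prime := by
      intro h
      have := (Nat.prime_dvd_prime_iff_eq hpp h).mp hpm'
      omega
    have hT : ∑ j ∈ Finset.range J, dec_cN z j m = 0 := by
      apply Finset.sum_eq_zero
      intro j _
      unfold dec_cN
      rw [Finset.card_eq_zero, Finset.filter_eq_empty_iff]
      rintro b hb ⟨h1, -, h3⟩
      have hbp := (dec_mem_Pj.mp hb).2
      have hb1 := (dec_mem_Pj.mp hb).1.1
      have h2j : z ≤ z * 2 ^ j := Nat.le_mul_of_pos_right _ (by positivity)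
      have h2j' : z ≤ z * 2 ^ (j + 1) := Nat.le_mul_of_pos_right _ (by positivity)
      have h4 : p ∣ b * (m / b) := by rw [Nat.mul_div_cancel' h1]; exact hpm'
      rcases (Nat.Prime.dvd_mul hpp).mp h4 with h5 | h5
      · have := (Nat.prime_dvd_prime_iff_eq hpp hbp).mp h5
        omega
      · exact h3 p hpp (hpz.trans h2j') h5
    rw [if_neg hnp, if_neg hR, hT]
    simpa using hpos

open Classical in
theorem dec_fII_nat (W z j : ℕ) (r n : ℤ) (m : ℕ) (h : r + W * n = m) :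
    fII W r (Pj z j) (βj z j) n = (dec_cN z j m : ℂ) := by
  unfold fII dec_cN βj
  rw [h, Finset.card_filter, Finset.sum_filter]
  push_cast
  refine Finset.sum_congr rfl fun b _ => ?_
  by_cases hb : b ∣ m
  · rw [if_pos (Int.natCast_dvd_natCast.mpr hb)]
    have h1 : ((m : ℤ) / (b : ℤ)) = ((m / b : ℕ) : ℤ) := by push_cast; rfl
    rw [h1]
    congr 1
    apply propext
    constructor
    · rintro ⟨h2, h3⟩
      refine ⟨hb, by exact_mod_cast h2, fun p hp hp1 hp2 => ?_⟩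
      exact h3 p hp hp1 (Int.natCast_dvd_natCast.mpr hp2)
    · rintro ⟨-, h2, h3⟩
      refine ⟨by exact_mod_cast h2, fun p hp hp1 hp2 => ?_⟩
      exact h3 p hp hp1 (Int.natCast_dvd_natCast.mp hp2)
  · rw [if_neg (fun h => hb (Int.natCast_dvd_natCast.mp h)), if_neg (fun h => hb h.1)]

theorem dec_fII_zero (W z j : ℕ) (r n : ℤ) (h0 : r + W * n ≠ 0) (h : |r + W * n| ≤ z) :
    fII W r (Pj z j) (βj z j) n = 0 := by
  unfold fII
  apply Finset.sum_eq_zero
  intro b hb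
  rw [Finset.mem_filter] at hb
  exfalso
  have hb1 := (dec_mem_Pj.mp hb.1).1.1
  have h2j : z ≤ z * 2 ^ j := Nat.le_mul_of_pos_right _ (by positivity)
  have h1 : (b : ℤ) ≤ |r + W * n| := by
    apply Int.le_of_dvd (abs_pos.mpr h0)
    exact (dvd_abs _ _).mpr hb.2
  have h2 : (z : ℤ) < b := by exact_mod_cast lt_of_le_of_lt h2j hb1
  omega

end Pool.Agent.Lib.H18GB
end

-- from Lib.H18GB.DecC
section

/-!
# Project GB: DEC, auxiliary lemmas III (counting)
-/

namespace Pool.Agent.Lib.H18GB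

open Finset Pool.Agent.Lib.Sieve

open Classical in
/-- the property of the constant of `dec_cnt` -/
def dec_CntProp (C2 : ℕ) : Prop := ∀ (w z W q M : ℕ) (S : Finset ℕ) (r : ℤ), C2 ≤ w → 2 ≤ z →
    IsW w W → PSet w z S → 0 < q → IsCoprime (q : ℤ) (W : ℤ) →
    (((Finset.Ico (0 : ℤ) M).filter fun n => (q : ℤ) ∣ r + W * n ∧ Rgh S ((r + W * n) / q)).card : ℝ)
      ≤ VV S * (C2 * ((M : ℝ) / q + 1) + C2 * (z : ℝ) ^ (C2 + 1))

theorem dec_Pj_sum (z j : ℕ) (hz : 2 ≤ z * 2 ^ j) :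
    ∑ p ∈ Pj z j, (1 : ℝ) / p ≤ 3 / Real.log ((z * 2 ^ j : ℕ) : ℝ) := by
  have h := dec_dyad (z * 2 ^ j) hz
  have h1 : Pj z j = (Finset.Ioc (z * 2 ^ j) (2 * (z * 2 ^ j))).filter Nat.Prime := by
    unfold Pj
    congr 2
    rw [pow_succ]
    ring
  rw [h1]
  exact h

theorem dec_coprime_prime_W {w W b : ℕ} (hW : IsW w W) (hb : b.Prime) (h : w < b) :
    IsCoprime (b : ℤ) (W : ℤ) := by
  rw [Nat.isCoprime_iff_coprime, Nat.Prime.coprime_iff_not_dvd hb]
  intro h1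
  have := (hW.2 b hb).mp h1
  omega

open Classical in
theorem dec_B {C2 : ℕ} (hC2 : dec_CntProp C2) {w W z J M D0 K y : ℕ} {r : ℤ}
    (hW : IsW w W) (hr : |r| < 2 * W) (hw : C2 ≤ w) (hM : 1 ≤ M) (hy : 2 ≤ y) (hyD : y ≤ D0)
    (hwD : w ≤ D0) (hD1 : D0 ≤ z * 2 ^ J) (hK : 2 * W * M ≤ (D0 * 2 ^ K) ^ 2)
    (h1 : (1 : ℝ) ≤ (M : ℝ) / ((D0 * 2 ^ K : ℕ) : ℝ))
    (h2 : (y : ℝ) ^ (C2 + 1) ≤ (M : ℝ) / ((D0 * 2 ^ K : ℕ) : ℝ)) :
    (((Finset.Ico (0 : ℤ) M).filter fun n => dec_E1 z J (r + W * n).toNat).card : ℝ) ≤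
      VV (sprimes w y) * (3 * C2) * M * (K * (3 / Real.log D0)) := by
  have hD2 : 2 ≤ D0 := hy.trans hyD
  set S' := sprimes w y with hS'
  have hVV : 0 < VV S' := VV_pos (pset_sprimes w y).prime
  have hsub : (Finset.Ico (0 : ℤ) M).filter (fun n => dec_E1 z J (r + W * n).toNat) ⊆
      (Finset.range K).biUnion fun i => (Pj D0 i).biUnion fun b =>
        (Finset.Ico (0 : ℤ) M).filter fun n => (b : ℤ) ∣ r + W * n ∧ Rgh S' ((r + W * n) / b) := by
    intro n hn
    rw [Finset.mem_filter, Finset.mem_Ico] at hn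
    obtain ⟨⟨hn0, hn1⟩, b, hb, hb1, hb2, hb3, hb4⟩ := hn
    set m := (r + W * n).toNat with hm
    have hm0 : 0 < m := by
      have : 0 < b ^ 2 := pow_pos hb.pos 2
      omega
    have hmv : r + W * n = (m : ℤ) := by
      have : (0 : ℤ) ≤ r + W * n := by
        by_contra h
        push Not at h
        have := Int.toNat_of_nonpos h.le
        omega
      rw [hm]
      exact (Int.toNat_of_nonneg this).symm
    have hmle : m ≤ 2 * W * M := by
      have h3 : (m : ℤ) ≤ 2 * W * M := by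
        rw [← hmv]
        have h4 := (abs_lt.mp hr).2
        have h5 : n + 1 ≤ M := by omega
        have h6 : (0 : ℤ) < W := by exact_mod_cast hW.1
        have hM' : (1 : ℤ) ≤ M := by exact_mod_cast hM
        nlinarith
      exact_mod_cast h3
    have hbD : D0 < b := lt_of_le_of_lt hD1 hb1
    have hbK : b ≤ D0 * 2 ^ K := by
      have : b ^ 2 ≤ (D0 * 2 ^ K) ^ 2 := hb2.trans (hmle.trans hK)
      exact (Nat.pow_le_pow_iff_left (by norm_num)).mp this
    obtain ⟨i, hi, hi1, hi2⟩ := dec_exists_block hbD K hbK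
    rw [Finset.mem_biUnion]
    refine ⟨i, Finset.mem_range.mpr hi, ?_⟩
    rw [Finset.mem_biUnion]
    refine ⟨b, dec_mem_Pj.mpr ⟨⟨hi1, hi2⟩, hb⟩, ?_⟩
    rw [Finset.mem_filter, Finset.mem_Ico]
    refine ⟨⟨hn0, hn1⟩, ?_, ?_⟩
    · rw [hmv]
      exact Int.natCast_dvd_natCast.mpr hb3
    · intro p hp hpd
      obtain ⟨hpp, -, hpy⟩ := mem_sprimes.mp hp
      rw [hmv] at hpd
      have h5 : (p : ℤ) ∣ (m : ℤ) := by
        obtain ⟨k, hk⟩ := hb3
        have h6 : (m : ℤ) / b = k := by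
          rw [hk]
          push_cast
          exact Int.mul_ediv_cancel_left _ (by exact_mod_cast hb.pos.ne')
        rw [h6] at hpd
        rw [hk]
        push_cast
        exact Dvd.dvd.mul_left hpd _
      exact hb4 p hpp (by omega) (Int.natCast_dvd_natCast.mp h5)
  have hterm : ∀ i ∈ Finset.range K, ∀ b ∈ Pj D0 i,
      (((Finset.Ico (0 : ℤ) M).filter fun n => (b : ℤ) ∣ r + W * n ∧
        Rgh S' ((r + W * n) / b)).card : ℝ) ≤ VV S' * (3 * C2) * M * (1 / b) := by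
    intro i hi b hb
    obtain ⟨⟨hb1, hb2⟩, hbp⟩ := dec_mem_Pj.mp hb
    have hwb : w < b := by
      have : D0 ≤ D0 * 2 ^ i := Nat.le_mul_of_pos_right _ (by positivity)
      omega
    refine (hC2 w y W b M S' r hw hy hW (pset_sprimes w y) hbp.pos
      (dec_coprime_prime_W hW hbp hwb)).trans ?_
    have hbK : b ≤ D0 * 2 ^ K := hb2.trans (Nat.mul_le_mul_left _
      (Nat.pow_le_pow_right (by norm_num) (Finset.mem_range.mp hi)))
    have hb0 : (0 : ℝ) < b := by exact_mod_cast hbp.pos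
    have hbK' : (b : ℝ) ≤ ((D0 * 2 ^ K : ℕ) : ℝ) := by exact_mod_cast hbK
    have h3 : (M : ℝ) / ((D0 * 2 ^ K : ℕ) : ℝ) ≤ M / b :=
      div_le_div_of_nonneg_left (Nat.cast_nonneg _) hb0 hbK'
    have h4 : (C2 : ℝ) * ((M : ℝ) / b + 1) + C2 * (y : ℝ) ^ (C2 + 1) ≤ 3 * C2 * (M / b) := by
      have hc : (0 : ℝ) ≤ C2 := Nat.cast_nonneg _
      have h5 : (1 : ℝ) ≤ M / b := h1.trans h3
      have h6 : (y : ℝ) ^ (C2 + 1) ≤ M / b := h2.trans h3
      nlinarith [mul_le_mul_of_nonneg_left h5 hc, mul_le_mul_of_nonneg_left h6 hc]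
    calc VV S' * ((C2 : ℝ) * ((M : ℝ) / b + 1) + C2 * (y : ℝ) ^ (C2 + 1))
        ≤ VV S' * (3 * C2 * (M / b)) := mul_le_mul_of_nonneg_left h4 hVV.le
      _ = VV S' * (3 * C2) * M * (1 / b) := by ring
  calc (((Finset.Ico (0 : ℤ) M).filter fun n => dec_E1 z J (r + W * n).toNat).card : ℝ)
      ≤ ∑ i ∈ Finset.range K, ∑ b ∈ Pj D0 i, (((Finset.Ico (0 : ℤ) M).filter fun n =>
          (b : ℤ) ∣ r + W * n ∧ Rgh S' ((r + W * n) / b)).card : ℝ) := by
        have h3 := (Finset.card_le_card hsub).trans Finset.card_biUnion_le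
        have h4 : ∀ i ∈ Finset.range K, ((Pj D0 i).biUnion fun b =>
            (Finset.Ico (0 : ℤ) M).filter fun n => (b : ℤ) ∣ r + W * n ∧
              Rgh S' ((r + W * n) / b)).card ≤ ∑ b ∈ Pj D0 i,
            ((Finset.Ico (0 : ℤ) M).filter fun n => (b : ℤ) ∣ r + W * n ∧
              Rgh S' ((r + W * n) / b)).card := fun i _ => Finset.card_biUnion_le
        have h5 := h3.trans (Finset.sum_le_sum h4)
        exact_mod_cast h5
    _ ≤ ∑ i ∈ Finset.range K, ∑ b ∈ Pj D0 i, VV S' * (3 * C2) * M * (1 / b) :=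
        Finset.sum_le_sum fun i hi => Finset.sum_le_sum fun b hb => hterm i hi b hb
    _ ≤ ∑ i ∈ Finset.range K, VV S' * (3 * C2) * M * (3 / Real.log D0) := by
        refine Finset.sum_le_sum fun i _ => ?_
        rw [← Finset.mul_sum]
        apply mul_le_mul_of_nonneg_left _ (by positivity)
        have hle : D0 ≤ D0 * 2 ^ i := Nat.le_mul_of_pos_right _ (by positivity)
        refine (dec_Pj_sum D0 i (hD2.trans hle)).trans ?_
        have hlog : 0 < Real.log D0 := Real.log_pos (by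
          have : (2 : ℝ) ≤ D0 := by exact_mod_cast hD2
          linarith)
        apply div_le_div_of_nonneg_left (by norm_num) hlog
        apply Real.log_le_log (by
          have : (2 : ℝ) ≤ D0 := by exact_mod_cast hD2
          linarith)
        exact_mod_cast hle
    _ = VV S' * (3 * C2) * M * (K * (3 / Real.log D0)) := by
        rw [Finset.sum_const, Finset.card_range, nsmul_eq_mul]
        ring

open Classical in
theorem dec_C {C2 : ℕ} (hC2 : dec_CntProp C2) {w W z J M : ℕ} {r : ℤ}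
    (hW : IsW w W) (hw : C2 ≤ w) (hz : 2 ≤ z) (hwz : w ≤ z)
    (h1 : ∀ j < J, (1 : ℝ) ≤ (M : ℝ) / (4 * ((z * 2 ^ j : ℕ) : ℝ) ^ 2))
    (h2 : ∀ j < J, (z : ℝ) ^ (C2 + 1) ≤ (M : ℝ) / (4 * ((z * 2 ^ j : ℕ) : ℝ) ^ 2)) :
    (((Finset.Ico (0 : ℤ) M).filter fun n => (z : ℤ) < r + W * n ∧
        dec_E2 w z J (r + W * n).toNat).card : ℝ) ≤
      VV (sprimes w z) * (3 * C2) * M *
        ∑ j ∈ Finset.range J, (3 / Real.log ((z * 2 ^ j : ℕ) : ℝ)) ^ 2 := by
  set S := sprimes w z with hS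
  have hVV : 0 < VV S := VV_pos (pset_sprimes w z).prime
  have hsub : (Finset.Ico (0 : ℤ) M).filter (fun n => (z : ℤ) < r + W * n ∧
        dec_E2 w z J (r + W * n).toNat) ⊆
      (Finset.range J).biUnion fun j => (Pj z j ×ˢ Pj z j).biUnion fun b =>
        (Finset.Ico (0 : ℤ) M).filter fun n => ((b.1 * b.2 : ℕ) : ℤ) ∣ r + W * n ∧
          Rgh S ((r + W * n) / ((b.1 * b.2 : ℕ) : ℤ)) := by
    intro n hn
    rw [Finset.mem_filter] at hn
    obtain ⟨hn0, hzv, hR, j, hj, b, hb, b', hb', hbb⟩ := hn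
    set m := (r + W * n).toNat with hm
    have hmv : r + W * n = (m : ℤ) := by
      rw [hm]
      exact (Int.toNat_of_nonneg (by omega)).symm
    rw [Finset.mem_biUnion]
    refine ⟨j, Finset.mem_range.mpr hj, ?_⟩
    rw [Finset.mem_biUnion]
    refine ⟨(b, b'), Finset.mem_product.mpr ⟨hb, hb'⟩, ?_⟩
    rw [Finset.mem_filter]
    refine ⟨hn0, ?_, ?_⟩
    · rw [hmv]
      exact Int.natCast_dvd_natCast.mpr hbb
    · intro p hp hpd
      rw [hmv] at hpd
      apply hR p hp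
      obtain ⟨k, hk⟩ := hbb
      have hpos : 0 < b * b' := Nat.mul_pos (dec_mem_Pj.mp hb).2.pos (dec_mem_Pj.mp hb').2.pos
      have h6 : (m : ℤ) / ((b * b' : ℕ) : ℤ) = k := by
        rw [hk, Nat.cast_mul (b * b') k]
        exact Int.mul_ediv_cancel_left _ (by exact_mod_cast hpos.ne')
      simp only at hpd
      rw [h6] at hpd
      rw [hk, Nat.cast_mul (b * b') k]
      exact Dvd.dvd.mul_left hpd _
  have hterm : ∀ j ∈ Finset.range J, ∀ b ∈ Pj z j ×ˢ Pj z j,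
      (((Finset.Ico (0 : ℤ) M).filter fun n => ((b.1 * b.2 : ℕ) : ℤ) ∣ r + W * n ∧
          Rgh S ((r + W * n) / ((b.1 * b.2 : ℕ) : ℤ))).card : ℝ) ≤
        VV S * (3 * C2) * M * ((1 / b.1) * (1 / b.2)) := by
    rintro j hj ⟨b, b'⟩ hb
    rw [Finset.mem_product] at hb
    obtain ⟨hb, hb'⟩ := hb
    simp only at hb hb' ⊢
    obtain ⟨⟨hb1, hb2⟩, hbp⟩ := dec_mem_Pj.mp hb
    obtain ⟨⟨hb1', hb2'⟩, hbp'⟩ := dec_mem_Pj.mp hb'
    have hzj : z ≤ z * 2 ^ j := Nat.le_mul_of_pos_right _ (by positivity)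
    have hcop : IsCoprime ((b * b' : ℕ) : ℤ) (W : ℤ) := by
      push_cast
      exact IsCoprime.mul_left (dec_coprime_prime_W hW hbp (by omega))
        (dec_coprime_prime_W hW hbp' (by omega))
    refine (hC2 w z W (b * b') M S r hw hz hW (pset_sprimes w z)
      (Nat.mul_pos hbp.pos hbp'.pos) hcop).trans ?_
    have hb0 : (0 : ℝ) < b := by exact_mod_cast hbp.pos
    have hb0' : (0 : ℝ) < b' := by exact_mod_cast hbp'.pos
    have h2j : z * 2 ^ (j + 1) = 2 * (z * 2 ^ j) := by rw [pow_succ]; ring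
    have hble : ((b * b' : ℕ) : ℝ) ≤ 4 * ((z * 2 ^ j : ℕ) : ℝ) ^ 2 := by
      have h3 : b * b' ≤ (2 * (z * 2 ^ j)) * (2 * (z * 2 ^ j)) :=
        Nat.mul_le_mul (h2j ▸ hb2) (h2j ▸ hb2')
      have h4 : ((b * b' : ℕ) : ℝ) ≤ (((2 * (z * 2 ^ j)) * (2 * (z * 2 ^ j)) : ℕ) : ℝ) := by
        exact_mod_cast h3
      refine h4.trans (le_of_eq ?_)
      push_cast
      ring
    have hbb0 : (0 : ℝ) < ((b * b' : ℕ) : ℝ) := by push_cast; positivity
    have h3 : (M : ℝ) / (4 * ((z * 2 ^ j : ℕ) : ℝ) ^ 2) ≤ M / ((b * b' : ℕ) : ℝ) :=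
      div_le_div_of_nonneg_left (Nat.cast_nonneg _) hbb0 hble
    have hj' := Finset.mem_range.mp hj
    have h4 : (C2 : ℝ) * ((M : ℝ) / ((b * b' : ℕ) : ℝ) + 1) + C2 * (z : ℝ) ^ (C2 + 1) ≤
        3 * C2 * (M / ((b * b' : ℕ) : ℝ)) := by
      have hc : (0 : ℝ) ≤ C2 := Nat.cast_nonneg _
      have h5 : (1 : ℝ) ≤ M / ((b * b' : ℕ) : ℝ) := (h1 j hj').trans h3
      have h6 : (z : ℝ) ^ (C2 + 1) ≤ M / ((b * b' : ℕ) : ℝ) := (h2 j hj').trans h3
      nlinarith [mul_le_mul_of_nonneg_left h5 hc, mul_le_mul_of_nonneg_left h6 hc]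
    calc VV S * ((C2 : ℝ) * ((M : ℝ) / ((b * b' : ℕ) : ℝ) + 1) + C2 * (z : ℝ) ^ (C2 + 1))
        ≤ VV S * (3 * C2 * (M / ((b * b' : ℕ) : ℝ))) := mul_le_mul_of_nonneg_left h4 hVV.le
      _ = VV S * (3 * C2) * M * ((1 / b) * (1 / b')) := by
          push_cast
          field_simp
  calc (((Finset.Ico (0 : ℤ) M).filter fun n => (z : ℤ) < r + W * n ∧
        dec_E2 w z J (r + W * n).toNat).card : ℝ)
      ≤ ∑ j ∈ Finset.range J, ∑ b ∈ Pj z j ×ˢ Pj z j, (((Finset.Ico (0 : ℤ) M).filter fun n =>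
          ((b.1 * b.2 : ℕ) : ℤ) ∣ r + W * n ∧
          Rgh S ((r + W * n) / ((b.1 * b.2 : ℕ) : ℤ))).card : ℝ) := by
        have h3 := (Finset.card_le_card hsub).trans Finset.card_biUnion_le
        have h4 : ∀ j ∈ Finset.range J, ((Pj z j ×ˢ Pj z j).biUnion fun b =>
            (Finset.Ico (0 : ℤ) M).filter fun n => ((b.1 * b.2 : ℕ) : ℤ) ∣ r + W * n ∧
              Rgh S ((r + W * n) / ((b.1 * b.2 : ℕ) : ℤ))).card ≤ ∑ b ∈ Pj z j ×ˢ Pj z j,
            ((Finset.Ico (0 : ℤ) M).filter fun n => ((b.1 * b.2 : ℕ) : ℤ) ∣ r + W * n ∧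
              Rgh S ((r + W * n) / ((b.1 * b.2 : ℕ) : ℤ))).card :=
          fun i _ => Finset.card_biUnion_le
        have h5 := h3.trans (Finset.sum_le_sum h4)
        exact_mod_cast h5
    _ ≤ ∑ j ∈ Finset.range J, ∑ b ∈ Pj z j ×ˢ Pj z j,
          VV S * (3 * C2) * M * ((1 / b.1) * (1 / b.2)) :=
        Finset.sum_le_sum fun i hi => Finset.sum_le_sum fun b hb => hterm i hi b hb
    _ ≤ ∑ j ∈ Finset.range J, VV S * (3 * C2) * M *
          (3 / Real.log ((z * 2 ^ j : ℕ) : ℝ)) ^ 2 := by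
        refine Finset.sum_le_sum fun j _ => ?_
        rw [← Finset.mul_sum]
        apply mul_le_mul_of_nonneg_left _ (by positivity)
        have hzj : z ≤ z * 2 ^ j := Nat.le_mul_of_pos_right _ (by positivity)
        have h3 := dec_Pj_sum z j (hz.trans hzj)
        have h4 : (0 : ℝ) ≤ ∑ p ∈ Pj z j, (1 : ℝ) / p := by positivity
        have h5 : ∑ b ∈ Pj z j ×ˢ Pj z j, ((1 : ℝ) / b.1) * (1 / b.2) =
            (∑ p ∈ Pj z j, (1 : ℝ) / p) * ∑ p ∈ Pj z j, (1 : ℝ) / p := by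
          rw [Finset.sum_mul_sum, Finset.sum_product]
        rw [h5, sq]
        exact mul_le_mul h3 h3 h4 (h4.trans h3)
    _ = _ := by rw [← Finset.mul_sum]

end Pool.Agent.Lib.H18GB
end

-- from Lib.H68T.INVS
section

/-!
# Statements of the zero-free region part (chunks INV, INVZ), used by MS and PNTE
-/

open Finset

namespace Pool.Agent.Lib.H68T

/-- Control of `1/L(s, ψ)` in the rectangle `Rg c' Q`: there is `g`, analytic on the rectangle and
bounded there by `C log Q`, equal to the Dirichlet series of `μ ψ` for `Re s > 1`. -/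
def InvStmt (c' C : ℝ) (Q : ℕ) (p : Σ r : ℕ, DirichletCharacter ℂ r) : Prop :=
  ∃ g : ℂ → ℂ, AnalyticOnNhd ℂ g (Rg c' Q) ∧
    (∀ s : ℂ, 1 < s.re → g s = LSeries (fun n => (ArithmeticFunction.moebius n : ℂ) *
      p.2 (n : ZMod p.1)) s) ∧ ∀ s ∈ Rg c' Q, ‖g s‖ ≤ C * Real.log Q


end Pool.Agent.Lib.H68T
end

-- from Lib.H68X.XDefs
section

/-!
# Project H68X: exceptional zeros included (definitions)

All statements of this project are about the same objects as in `Lib/H68T`; errors are measured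
by `sw K Q X = exp (-log X/(K log Q)) + Q^(-1/K)`.
-/

open Finset

namespace Pool.Agent.Lib.H68T

noncomputable section

/-- The error measure. It increases with `K`. -/
def sw (K : ℝ) (Q X : ℕ) : ℝ :=
  Real.exp (-(Real.log X / (K * Real.log Q))) + (Q : ℝ) ^ (-(1 / K))

/-- `β` is a real zero, close to `1`, of the real primitive character `ψ ≠ 1` of conductor
`r ≤ Q`. -/
def Exc (c : ℝ) (Q r : ℕ) [NeZero r] (ψ : DirichletCharacter ℂ r) (β : ℝ) : Prop :=
  r ≤ Q ∧ ψ.IsPrimitive ∧ ψ ≠ 1 ∧ ψ ^ 2 = 1 ∧ 1 - c / Real.log Q ≤ β ∧ β < 1 ∧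
    ψ.LFunction (β : ℂ) = 0

/-- As `InvStmt`, only for `|Im s| ≥ 1`. -/
def InvHigh (c' C : ℝ) (Q : ℕ) (p : Σ r : ℕ, DirichletCharacter ℂ r) : Prop :=
  ∃ g : ℂ → ℂ, AnalyticOnNhd ℂ g (Rg c' Q ∩ {s | 1 ≤ |s.im|}) ∧
    (∀ s : ℂ, 1 < s.re → g s = LSeries (fun n => (ArithmeticFunction.moebius n : ℂ) *
      p.2 (n : ZMod p.1)) s) ∧ ∀ s ∈ Rg c' Q, 1 ≤ |s.im| → ‖g s‖ ≤ C * Real.log Q

/-- Control of `-L'/L(s,ψ) + 1/(s-β)` in the rectangle. -/
def LogStmt (c' C : ℝ) (Q : ℕ) (p : Σ r : ℕ, DirichletCharacter ℂ r) (β : ℝ) : Prop :=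
  ∃ g : ℂ → ℂ, AnalyticOnNhd ℂ g (Rg c' Q) ∧
    (∀ s : ℂ, 1 < s.re → g s = LSeries (fun n => (ArithmeticFunction.vonMangoldt n : ℂ) *
      p.2 (n : ZMod p.1)) s + 1 / (s - β)) ∧ ∀ s ∈ Rg c' Q, ‖g s‖ ≤ C * Real.log Q


/-- `∑ m^(β-1) v(m) m^(-1-it)` -/
def Fb (X : ℕ) (β t : ℝ) : ℂ := FF X (fun m => (((m : ℝ) ^ (β - 1) : ℝ) : ℂ)) t

/-- The model with exceptional term: `ε = ψ(m) = ±1`. -/
def Mod (Q r : ℕ) (ε β : ℝ) (m : ℤ) : ℝ := G Q m - ε * (m : ℝ) ^ (β - 1) * Gam Q r m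


/-- `∑_{w ∣ W, w q ≤ Q} μ²(w)/φ(w)` -/
def TW (Q W q : ℕ) : ℝ :=
  ∑ w ∈ W.divisors.filter (fun w => w * q ≤ Q),
    (ArithmeticFunction.moebius w : ℝ) ^ 2 / (Nat.totient w : ℝ)

/-- `(r/φ(r)) ∑_{w ∣ W, (w,r) = 1, w r q ≤ Q} μ²(w)/φ(w)` -/
def TWr (Q W r q : ℕ) : ℝ :=
  (r : ℝ) / (Nat.totient r : ℝ) *
    ∑ w ∈ W.divisors.filter (fun w => Nat.Coprime w r ∧ w * r * q ≤ Q),
      (ArithmeticFunction.moebius w : ℝ) ^ 2 / (Nat.totient w : ℝ)

/-- The squares and products of the singular part: the moduli `q ≤ Q` coprime to `W`. -/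
def QW (Q W : ℕ) : Finset ℕ := (Icc 1 Q).filter (fun q => Nat.Coprime q W)




end

/-! ## Monotonicity -/

theorem Rg_mono {c c' : ℝ} {Q : ℕ} (h : c ≤ c') : Rg c Q ⊆ Rg c' Q := by
  rintro s ⟨h1, h2, h3⟩
  refine ⟨?_, h2, h3⟩
  have : c / Real.log Q ≤ c' / Real.log Q := div_le_div_of_nonneg_right h (by positivity)
  linarith

theorem InvStmt.mono {c c' C C' : ℝ} {Q : ℕ} {p : Σ r : ℕ, DirichletCharacter ℂ r}
    (h : InvStmt c' C Q p) (hc : c ≤ c') (hC : C ≤ C') : InvStmt c C' Q p := by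
  obtain ⟨g, h1, h2, h3⟩ := h
  refine ⟨g, h1.mono (Rg_mono hc), h2, fun s hs => (h3 s (Rg_mono hc hs)).trans ?_⟩
  exact mul_le_mul_of_nonneg_right hC (by positivity)

theorem InvHigh.mono {c c' C C' : ℝ} {Q : ℕ} {p : Σ r : ℕ, DirichletCharacter ℂ r}
    (h : InvHigh c' C Q p) (hc : c ≤ c') (hC : C ≤ C') : InvHigh c C' Q p := by
  obtain ⟨g, h1, h2, h3⟩ := h
  refine ⟨g, h1.mono (Set.inter_subset_inter_left _ (Rg_mono hc)), h2, fun s hs hi =>
    (h3 s (Rg_mono hc hs) hi).trans ?_⟩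
  exact mul_le_mul_of_nonneg_right hC (by positivity)

theorem LogStmt.mono {c c' C C' : ℝ} {Q : ℕ} {p : Σ r : ℕ, DirichletCharacter ℂ r} {β : ℝ}
    (h : LogStmt c' C Q p β) (hc : c ≤ c') (hC : C ≤ C') : LogStmt c C' Q p β := by
  obtain ⟨g, h1, h2, h3⟩ := h
  refine ⟨g, h1.mono (Rg_mono hc), h2, fun s hs => (h3 s (Rg_mono hc hs)).trans ?_⟩
  exact mul_le_mul_of_nonneg_right hC (by positivity)


theorem Good.mono {c c' : ℝ} {Q : ℕ} (h : Good c' Q) (hc : c ≤ c') : Good c Q := by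
  intro r _ ψ hr h1 h2 h3 σ hσ hσ1
  refine h r ψ hr h1 h2 h3 σ (le_trans ?_ hσ) hσ1
  have : c / Real.log Q ≤ c' / Real.log Q := div_le_div_of_nonneg_right hc (by positivity)
  linarith

theorem Exc.mono {c c' : ℝ} {Q r : ℕ} [NeZero r] {ψ : DirichletCharacter ℂ r} {β : ℝ}
    (h : Exc c Q r ψ β) (hc : c ≤ c') : Exc c' Q r ψ β := by
  obtain ⟨h1, h2, h3, h4, h5, h6, h7⟩ := h
  refine ⟨h1, h2, h3, h4, le_trans ?_ h5, h6, h7⟩
  have : c / Real.log Q ≤ c' / Real.log Q := div_le_div_of_nonneg_right hc (by positivity)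
  linarith

/-! ## Calculus of `sw` -/

theorem sw_pos (K : ℝ) (Q X : ℕ) (hQ : 0 < Q) : 0 < sw K Q X := by
  unfold sw
  have : (0:ℝ) < Q := by exact_mod_cast hQ
  positivity

theorem sw_mono {K K' : ℝ} {Q X : ℕ} (hK : 0 < K) (hKK : K ≤ K') (hQ : 1 ≤ Q) :
    sw K Q X ≤ sw K' Q X := by
  unfold sw
  have hQ1 : (1:ℝ) ≤ Q := by exact_mod_cast hQ
  have hlQ : 0 ≤ Real.log Q := Real.log_nonneg hQ1
  have hlX : 0 ≤ Real.log X := by positivity
  have hK' : 0 < K' := hK.trans_le hKK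
  apply add_le_add
  · apply Real.exp_le_exp.mpr
    apply neg_le_neg
    rcases eq_or_lt_of_le hlQ with h0 | h0
    · rw [← h0]; simp
    · exact div_le_div_of_nonneg_left hlX (by positivity) (mul_le_mul_of_nonneg_right hKK hlQ)
  · apply Real.rpow_le_rpow_of_exponent_le hQ1
    apply neg_le_neg
    exact one_div_le_one_div_of_le hK hKK

/-- Absorb constants and powers of `log X` into `sw`. -/
theorem sw_absorb (C A K₁ : ℝ) (hK₁ : 0 < K₁) : ∃ K : ℝ, K₁ ≤ K ∧ 1 ≤ K ∧ ∀ Q X : ℕ,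
    Reg K Q X → C * (Real.log X) ^ A * sw K₁ Q X ≤ sw K Q X := by
  set a := |A| + |C| + 2 with hadef
  have hA := abs_nonneg A
  have hCn := abs_nonneg C
  set K := a * K₁ + 1 with hKdef
  have ha2 : 2 ≤ a := by rw [hadef]; linarith
  have hK1 : 1 ≤ K := by
    rw [hKdef]
    have : 0 ≤ a * K₁ := by positivity
    linarith
  have hKK : K₁ ≤ K := by rw [hKdef]; nlinarith
  refine ⟨K, hKK, hK1, fun Q X h => ?_⟩
  have hK0 : 0 < K := by linarith
  have hlX := h.logX_pos hK0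
  have hll : 1 ≤ Real.log (Real.log X) := hK1.trans h.1
  have hlQ : 1 ≤ Real.log Q := hK1.trans (h.logQ_ge hK1)
  have hQ : (0:ℝ) < Q := by exact_mod_cast h.Q_pos hK1
  rcases le_or_gt C 0 with hC0 | hC0
  · have h1 : C * (Real.log X) ^ A ≤ 0 :=
      mul_nonpos_of_nonpos_of_nonneg hC0 (Real.rpow_nonneg hlX.le _)
    have h2 := mul_nonpos_of_nonpos_of_nonneg h1 (sw_pos K₁ Q X (h.Q_pos hK1)).le
    exact h2.trans (sw_pos K Q X (h.Q_pos hK1)).le
  have hCA : C * (Real.log X) ^ A ≤ Real.exp ((a - 1) * Real.log (Real.log X)) := by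
    have h1 : C ≤ Real.exp ((1 + |C|) * Real.log (Real.log X)) := by
      have : C ≤ Real.exp C := by linarith [Real.add_one_le_exp C]
      refine this.trans (Real.exp_le_exp.mpr ?_)
      have : C ≤ |C| := le_abs_self C
      nlinarith
    rw [Real.rpow_def_of_pos hlX]
    calc C * Real.exp (Real.log (Real.log X) * A)
        ≤ Real.exp ((1 + |C|) * Real.log (Real.log X)) * Real.exp (Real.log (Real.log X) * A) :=
          mul_le_mul_of_nonneg_right h1 (Real.exp_pos _).le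
      _ = Real.exp ((1 + |C| + A) * Real.log (Real.log X)) := by rw [← Real.exp_add]; ring_nf
      _ ≤ _ := by
          apply Real.exp_le_exp.mpr
          apply mul_le_mul_of_nonneg_right _ (by linarith)
          rw [hadef]
          linarith [le_abs_self A]
  have hr2 : K * Real.log (Real.log X) ≤ Real.log X / Real.log Q := by
    rw [le_div_iff₀ (by linarith)]
    have := h.2.2
    nlinarith
  have hr1 : K * Real.log (Real.log X) ≤ Real.log Q := h.2.1
  have hkey : (a - 1) * Real.log (Real.log X) ≤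
      (1 / K₁ - 1 / K) * (K * Real.log (Real.log X)) := by
    have h1 : (1 / K₁ - 1 / K) * (K * Real.log (Real.log X)) =
        (K / K₁ - 1) * Real.log (Real.log X) := by field_simp
    rw [h1]
    apply mul_le_mul_of_nonneg_right _ (by linarith)
    have : a ≤ K / K₁ := by
      rw [le_div_iff₀ hK₁, hKdef]; linarith
    linarith
  have hinv : 0 ≤ 1 / K₁ - 1 / K := by
    have := one_div_le_one_div_of_le hK₁ hKK
    linarith
  unfold sw
  rw [mul_add]
  apply add_le_add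
  · calc C * (Real.log X) ^ A * Real.exp (-(Real.log X / (K₁ * Real.log Q)))
        ≤ Real.exp ((a - 1) * Real.log (Real.log X)) *
            Real.exp (-(Real.log X / (K₁ * Real.log Q))) :=
          mul_le_mul_of_nonneg_right hCA (Real.exp_pos _).le
      _ = Real.exp ((a - 1) * Real.log (Real.log X) - Real.log X / (K₁ * Real.log Q)) := by
          rw [← Real.exp_add]; ring_nf
      _ ≤ _ := by
          apply Real.exp_le_exp.mpr
          have h1 : Real.log X / (K₁ * Real.log Q) = (1 / K₁) * (Real.log X / Real.log Q) := by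
            field_simp
          have h2 : Real.log X / (K * Real.log Q) = (1 / K) * (Real.log X / Real.log Q) := by
            field_simp
          rw [h1, h2]
          have h3 := mul_le_mul_of_nonneg_left hr2 hinv
          linarith
  · calc C * (Real.log X) ^ A * (Q : ℝ) ^ (-(1 / K₁))
        ≤ Real.exp ((a - 1) * Real.log (Real.log X)) * (Q : ℝ) ^ (-(1 / K₁)) :=
          mul_le_mul_of_nonneg_right hCA (Real.rpow_nonneg hQ.le _)
      _ = Real.exp ((a - 1) * Real.log (Real.log X) - (1 / K₁) * Real.log Q) := by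
          rw [Real.rpow_def_of_pos hQ, ← Real.exp_add]; ring_nf
      _ ≤ Real.exp (Real.log Q * (-(1 / K))) := by
          apply Real.exp_le_exp.mpr
          have h3 := mul_le_mul_of_nonneg_left hr1 hinv
          linarith
      _ = _ := by rw [Real.rpow_def_of_pos hQ]

/-- Negative powers of `Q` are absorbed in `sw`. -/
theorem sw_of_Q (C A ε : ℝ) (hε : 0 < ε) : ∃ K : ℝ, 1 ≤ K ∧ ∀ Q X : ℕ, Reg K Q X →
    C * (Real.log X) ^ A * (Q : ℝ) ^ (-ε) ≤ sw K Q X := by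
  obtain ⟨K, hK1, hK2, hK⟩ := sw_absorb |C| A (1 / ε) (by positivity)
  refine ⟨K, hK2, fun Q X h => le_trans ?_ (hK Q X h)⟩
  have hlX := h.logX_pos (by linarith)
  have hQ : (0:ℝ) < Q := by exact_mod_cast h.Q_pos hK2
  have h1 : C * (Real.log X) ^ A ≤ |C| * (Real.log X) ^ A :=
    mul_le_mul_of_nonneg_right (le_abs_self C) (Real.rpow_nonneg hlX.le _)
  calc C * (Real.log X) ^ A * (Q : ℝ) ^ (-ε) ≤ |C| * (Real.log X) ^ A * (Q : ℝ) ^ (-ε) :=
        mul_le_mul_of_nonneg_right h1 (Real.rpow_nonneg hQ.le _)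
    _ ≤ |C| * (Real.log X) ^ A * sw (1 / ε) Q X := by
        apply mul_le_mul_of_nonneg_left _ (by positivity)
        unfold sw
        have : (-(1 / (1 / ε)) : ℝ) = -ε := by field_simp
        rw [this]
        linarith [Real.exp_pos (-(Real.log X / (1 / ε * Real.log Q)))]

/-- The saving of the zero-free region is absorbed in `sw`. -/
theorem sw_of_exp (C A c : ℝ) (hc : 0 < c) : ∃ K : ℝ, 1 ≤ K ∧ ∀ Q X : ℕ, Reg K Q X →
    C * (Real.log X) ^ A * Real.exp (-(c * (Real.log X / Real.log Q))) ≤ sw K Q X := by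
  obtain ⟨K, hK1, hK2, hK⟩ := sw_absorb |C| A (1 / c) (by positivity)
  refine ⟨K, hK2, fun Q X h => le_trans ?_ (hK Q X h)⟩
  have hlX := h.logX_pos (by linarith)
  have hQ : (0:ℝ) < Q := by exact_mod_cast h.Q_pos hK2
  have h1 : C * (Real.log X) ^ A ≤ |C| * (Real.log X) ^ A :=
    mul_le_mul_of_nonneg_right (le_abs_self C) (Real.rpow_nonneg hlX.le _)
  calc C * (Real.log X) ^ A * Real.exp (-(c * (Real.log X / Real.log Q)))
      ≤ |C| * (Real.log X) ^ A * Real.exp (-(c * (Real.log X / Real.log Q))) :=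
        mul_le_mul_of_nonneg_right h1 (Real.exp_pos _).le
    _ ≤ |C| * (Real.log X) ^ A * sw (1 / c) Q X := by
        apply mul_le_mul_of_nonneg_left _ (by positivity)
        unfold sw
        have : Real.log X / (1 / c * Real.log Q) = c * (Real.log X / Real.log Q) := by
          field_simp
        rw [this]
        linarith [Real.rpow_nonneg hQ.le (-(1 / (1 / c)))]


end Pool.Agent.Lib.H68T
end

-- from Lib.H18Q.R0
section

/-!
# Project H18Q: the power regime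

`RegP K Q X`: `(log X)^K ≤ Q` and `Q^K ≤ X`, `X` large. The lemmas are those of `H68T/RegL.lean` with
the same proofs.
-/

namespace Pool.Agent.Lib.H18Q

open Real Pool.Agent.Lib.H68T

/-- The regime of the parameters: `(log X)^K ≤ Q` and `Q^K ≤ X`, `X` large. -/
def RegP (K : ℝ) (Q X : ℕ) : Prop :=
  K ≤ Real.log (Real.log X) ∧ K * Real.log (Real.log X) ≤ Real.log Q ∧
    K * Real.log Q ≤ Real.log X

theorem RegP.mono {K K' : ℝ} {Q X : ℕ} (h : RegP K Q X) (h0 : 0 ≤ K) (hK : K' ≤ K) :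
    RegP K' Q X := by
  obtain ⟨h1, h2, h3⟩ := h
  have hll : 0 ≤ log (log X) := h0.trans h1
  have hQ : 0 ≤ log Q := by positivity
  exact ⟨hK.trans h1, (mul_le_mul_of_nonneg_right hK hll).trans h2,
    (mul_le_mul_of_nonneg_right hK hQ).trans h3⟩


theorem RegP.logX_ge {K : ℝ} {Q X : ℕ} (h : RegP K Q X) (hK : 0 < K) : exp K ≤ log X := by
  have h1 : 0 < log (log X) := hK.trans_le h.1
  have h2 : 0 < log X := by
    by_contra hc
    push Not at hc
    have h3 : (0:ℝ) ≤ log X := by positivity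
    have h4 : log (X:ℝ) = 0 := le_antisymm hc h3
    rw [h4] at h1
    simp at h1
  exact (Real.le_log_iff_exp_le h2).mp h.1

theorem RegP.logX_pos {K : ℝ} {Q X : ℕ} (h : RegP K Q X) (hK : 0 < K) : 0 < log X :=
  (exp_pos K).trans_le (h.logX_ge hK)

theorem RegP.X_pos {K : ℝ} {Q X : ℕ} (h : RegP K Q X) (hK : 0 < K) : 0 < X := by
  rcases Nat.eq_zero_or_pos X with h0 | h0
  · have := h.logX_pos hK
    rw [h0] at this
    simp at this
  · exact h0

theorem RegP.logX_ge_one {K : ℝ} {Q X : ℕ} (h : RegP K Q X) (hK : 0 < K) : 1 ≤ log X := by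
  have h1 := h.logX_ge hK
  have h2 : (1:ℝ) ≤ exp K := Real.one_le_exp hK.le
  linarith

theorem RegP.X_ge {K : ℝ} {Q X : ℕ} (h : RegP K Q X) (hK : 0 < K) : K ≤ X := by
  have h1 := h.logX_ge hK
  have h2 : K + 1 ≤ exp K := Real.add_one_le_exp K
  have h3 : log X ≤ X := (Real.log_le_sub_one_of_pos (by exact_mod_cast h.X_pos hK)).trans
    (by linarith)
  linarith


theorem RegP.logQ_ge {K : ℝ} {Q X : ℕ} (h : RegP K Q X) (hK : 1 ≤ K) : K ≤ log Q := by
  have h1 : 1 ≤ log (log X) := hK.trans h.1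
  have := h.2.1
  nlinarith

theorem RegP.Q_ge {K : ℝ} {Q X : ℕ} (h : RegP K Q X) (hK : 1 ≤ K) : K ≤ Q := by
  have h1 := h.logQ_ge hK
  have h3 : log Q ≤ Q := by
    rcases Nat.eq_zero_or_pos Q with h0 | h0
    · rw [h0]; simp
    · exact (Real.log_le_sub_one_of_pos (by exact_mod_cast h0)).trans (by linarith)
  linarith

theorem RegP.Q_pos {K : ℝ} {Q X : ℕ} (h : RegP K Q X) (hK : 1 ≤ K) : 0 < Q := by
  have h1 := h.Q_ge hK
  have h2 : (0:ℝ) < Q := by linarith
  exact_mod_cast h2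

/-- `K log Q ≤ log X` -/
theorem RegP.logQ_le {K : ℝ} {Q X : ℕ} (h : RegP K Q X) (_hK : 1 ≤ K) : K * log Q ≤ log X := h.2.2


/-- Absorb constants and powers of `log X` into a power of `Q`. -/
theorem regp_log_le (C A ε : ℝ) (hε : 0 < ε) : ∃ K : ℝ, 1 ≤ K ∧ ∀ Q X : ℕ, RegP K Q X →
    C * (log X) ^ A ≤ (Q : ℝ) ^ ε := by
  refine ⟨1 + |A| / ε + (1 + |C|) / ε, by
    have : 0 ≤ |A| / ε := by positivity
    have : 0 ≤ (1 + |C|) / ε := by positivity
    linarith, fun Q X h => ?_⟩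
  set K := 1 + |A| / ε + (1 + |C|) / ε with hKdef
  have hA : 0 ≤ |A| / ε := by positivity
  have hC : 0 ≤ (1 + |C|) / ε := by positivity
  have hK : 1 ≤ K := by rw [hKdef]; linarith
  have hK0 : 0 < K := by linarith
  have hlX := h.logX_pos hK0
  have hll : 1 ≤ log (log X) := hK.trans h.1
  have hQ : (0:ℝ) < Q := by exact_mod_cast h.Q_pos hK
  rcases le_or_gt C 0 with hC0 | hC0
  · have : C * (log X) ^ A ≤ 0 :=
      mul_nonpos_of_nonpos_of_nonneg hC0 (Real.rpow_nonneg hlX.le _)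
    exact this.trans (Real.rpow_nonneg hQ.le _)
  rw [Real.rpow_def_of_pos hlX, Real.rpow_def_of_pos hQ]
  have h1 : C ≤ exp (log (log X) * (1 + |C|)) := by
    have : C ≤ exp C := by linarith [Real.add_one_le_exp C]
    refine this.trans (Real.exp_le_exp.mpr ?_)
    have : C ≤ |C| := le_abs_self C
    nlinarith [abs_nonneg C]
  calc C * exp (log (log X) * A) ≤ exp (log (log X) * (1 + |C|)) * exp (log (log X) * A) :=
        mul_le_mul_of_nonneg_right h1 (exp_pos _).le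
    _ = exp (log (log X) * (1 + |C| + A)) := by rw [← Real.exp_add]; ring_nf
    _ ≤ exp (log Q * ε) := by
        apply Real.exp_le_exp.mpr
        have h2 : K * log (log X) ≤ log Q := h.2.1
        have h3 : (1 + |C| + A) ≤ K * ε := by
          rw [hKdef]
          have e1 : |A| / ε * ε = |A| := div_mul_cancel₀ _ hε.ne'
          have e2 : (1 + |C|) / ε * ε = 1 + |C| := div_mul_cancel₀ _ hε.ne'
          have : A ≤ |A| := le_abs_self A
          nlinarith
        calc log (log X) * (1 + |C| + A) ≤ log (log X) * (K * ε) :=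
              mul_le_mul_of_nonneg_left h3 (by linarith)
          _ = (K * log (log X)) * ε := by ring
          _ ≤ log Q * ε := mul_le_mul_of_nonneg_right h2 hε.le

/-- Absorb constants and powers of `Q` into a power of `X`. -/
theorem regp_pow_le (C A ε : ℝ) (hε : 0 < ε) : ∃ K : ℝ, 1 ≤ K ∧ ∀ Q X : ℕ, RegP K Q X →
    C * (Q : ℝ) ^ A ≤ (X : ℝ) ^ ε := by
  refine ⟨1 + |A| / ε + (1 + |C|) / ε, by
    have : 0 ≤ |A| / ε := by positivity
    have : 0 ≤ (1 + |C|) / ε := by positivity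
    linarith, fun Q X h => ?_⟩
  set K := 1 + |A| / ε + (1 + |C|) / ε with hKdef
  have hA : 0 ≤ |A| / ε := by positivity
  have hC : 0 ≤ (1 + |C|) / ε := by positivity
  have hK : 1 ≤ K := by rw [hKdef]; linarith
  have hK0 : 0 < K := by linarith
  have hQ : (0:ℝ) < Q := by exact_mod_cast h.Q_pos hK
  have hX : (0:ℝ) < X := by exact_mod_cast h.X_pos hK0
  have hlQ : 1 ≤ log Q := hK.trans (h.logQ_ge hK)
  rcases le_or_gt C 0 with hC0 | hC0
  · have : C * (Q:ℝ) ^ A ≤ 0 :=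
      mul_nonpos_of_nonpos_of_nonneg hC0 (Real.rpow_nonneg hQ.le _)
    exact this.trans (Real.rpow_nonneg hX.le _)
  rw [Real.rpow_def_of_pos hQ, Real.rpow_def_of_pos hX]
  have h1 : C ≤ exp (log Q * (1 + |C|)) := by
    have : C ≤ exp C := by linarith [Real.add_one_le_exp C]
    refine this.trans (Real.exp_le_exp.mpr ?_)
    have : C ≤ |C| := le_abs_self C
    nlinarith [abs_nonneg C]
  calc C * exp (log Q * A) ≤ exp (log Q * (1 + |C|)) * exp (log Q * A) :=
        mul_le_mul_of_nonneg_right h1 (exp_pos _).le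
    _ = exp (log Q * (1 + |C| + A)) := by rw [← Real.exp_add]; ring_nf
    _ ≤ exp (log X * ε) := by
        apply Real.exp_le_exp.mpr
        have h2 : K * log Q ≤ log X := h.logQ_le hK
        have h3 : (1 + |C| + A) ≤ K * ε := by
          rw [hKdef]
          have e1 : |A| / ε * ε = |A| := div_mul_cancel₀ _ hε.ne'
          have e2 : (1 + |C|) / ε * ε = 1 + |C| := div_mul_cancel₀ _ hε.ne'
          have : A ≤ |A| := le_abs_self A
          nlinarith
        calc log Q * (1 + |C| + A) ≤ log Q * (K * ε) :=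
              mul_le_mul_of_nonneg_left h3 (by linarith)
          _ = (K * log Q) * ε := by ring
          _ ≤ log X * ε := mul_le_mul_of_nonneg_right h2 hε.le


end Pool.Agent.Lib.H18Q
end

-- from Lib.H59C.TY1
section

/-!
# TY1: type I sums
-/

open Finset

namespace Pool.Agent.Lib.H59C

open Pool.Agent.Lib.H68T (PC p0 e)

theorem ty1_mem {R : ℕ} {p : PCh} : p ∈ PD R ↔ 1 ≤ p.1 ∧ p.1 ≤ 2 * R ∧ p.2.IsPrimitive ∧ R < p.1 := by
  classical
  rw [PD, mem_filter, Pool.Agent.Lib.H68T.mem_PC]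
  tauto

/-- `∑_{p ∈ PD R} 1/φ(p.1) ≤ R` -/
theorem ty1_count (R : ℕ) : ∑ p ∈ PD R, 1 / (Nat.totient p.1 : ℝ) ≤ R := by
  classical
  have hmaps : ∀ p ∈ PD R, p.1 ∈ Ioc R (2 * R) := by
    intro p hp
    have := ty1_mem.1 hp
    rw [mem_Ioc]
    exact ⟨this.2.2.2, this.2.1⟩
  rw [← sum_fiberwise_of_maps_to hmaps]
  have h1 : ∀ r ∈ Ioc R (2 * R), ∑ p ∈ (PD R).filter (fun p => p.1 = r),
      1 / (Nat.totient p.1 : ℝ) ≤ 1 := by
    intro r hr
    rw [mem_Ioc] at hr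
    have hne : NeZero r := ⟨by omega⟩
    have hφ : (0 : ℝ) < Nat.totient r := by exact_mod_cast Nat.totient_pos.2 (by omega)
    have h2 : ∑ p ∈ (PD R).filter (fun p => p.1 = r), 1 / (Nat.totient p.1 : ℝ) =
        ((PD R).filter (fun p => p.1 = r)).card * (1 / (Nat.totient r : ℝ)) := by
      rw [← nsmul_eq_mul, ← sum_const]
      refine sum_congr rfl fun p hp => ?_
      rw [(mem_filter.1 hp).2]
    have h3 : ((PD R).filter (fun p => p.1 = r)).card ≤ Nat.totient r := by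
      have h4 : (PD R).filter (fun p => p.1 = r) ⊆
          (univ : Finset (DirichletCharacter ℂ r)).map (Function.Embedding.sigmaMk r) := by
        rintro ⟨s, χ⟩ hp
        have h5 : s = r := (mem_filter.1 hp).2
        subst h5
        rw [mem_map]
        exact ⟨χ, mem_univ _, rfl⟩
      refine (card_le_card h4).trans ?_
      rw [card_map, card_univ, ← Nat.card_eq_fintype_card,
        DirichletCharacter.card_eq_totient_of_hasEnoughRootsOfUnity ℂ r]
    rw [h2, mul_one_div, div_le_one hφ]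
    exact_mod_cast h3
  refine (sum_le_sum h1).trans ?_
  rw [sum_const, Nat.card_Ioc, nsmul_one]
  have : 2 * R - R = R := by omega
  rw [this]

/-- partial summation -/
theorem ty1_abel (f : ℕ → ℂ) (B : ℝ) (hB : ∀ u v, ‖∑ n ∈ Ico u v, f n‖ ≤ B) (w : ℕ → ℝ)
    (hw0 : 0 ≤ w 1) (hmono : ∀ n, 1 ≤ n → w n ≤ w (n + 1)) (N : ℕ) (hN : 1 ≤ N) (v : ℕ)
    (hv : N + 1 ≤ v) :
    ‖∑ n ∈ Ico 1 (N + 1), (w n : ℂ) * f n + (w N : ℂ) * ∑ n ∈ Ico (N + 1) v, f n‖ ≤ w N * B := by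
  induction N, hN using Nat.le_induction with
  | base =>
    have h1 : ∑ n ∈ Ico 1 (1 + 1), (w n : ℂ) * f n + (w 1 : ℂ) * ∑ n ∈ Ico (1 + 1) v, f n =
        (w 1 : ℂ) * ∑ n ∈ Ico 1 v, f n := by
      rw [← sum_Ico_consecutive f (by norm_num : 1 ≤ 1 + 1) hv, mul_add]
      simp
    rw [h1, norm_mul, Complex.norm_real, Real.norm_of_nonneg hw0]
    exact mul_le_mul_of_nonneg_left (hB _ _) hw0
  | succ N hN ih =>
    have h1 : ∑ n ∈ Ico 1 (N + 1 + 1), (w n : ℂ) * f n +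
        (w (N + 1) : ℂ) * ∑ n ∈ Ico (N + 1 + 1) v, f n =
        (∑ n ∈ Ico 1 (N + 1), (w n : ℂ) * f n + (w N : ℂ) * ∑ n ∈ Ico (N + 1) v, f n) +
          ((w (N + 1) - w N : ℝ) : ℂ) * ∑ n ∈ Ico (N + 1) v, f n := by
      rw [sum_Ico_succ_top (by omega), ← sum_Ico_consecutive f (by omega : N + 1 ≤ N + 1 + 1) hv]
      have h2 : ∑ n ∈ Ico (N + 1) (N + 1 + 1), f n = f (N + 1) := by simp
      rw [h2]
      push_cast
      ring
    have h3 : 0 ≤ w (N + 1) - w N := by linarith [hmono N hN]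
    rw [h1]
    refine (norm_add_le _ _).trans ?_
    have h4 : ‖((w (N + 1) - w N : ℝ) : ℂ) * ∑ n ∈ Ico (N + 1) v, f n‖ ≤
        (w (N + 1) - w N) * B := by
      rw [norm_mul, Complex.norm_real, Real.norm_of_nonneg h3]
      exact mul_le_mul_of_nonneg_left (hB _ _) h3
    have h5 := ih (by omega)
    linarith

theorem ty1_inner (f : ℕ → ℂ) (B : ℝ) (hB : ∀ u v, ‖∑ n ∈ Ico u v, f n‖ ≤ B) (j : ℕ)
    (hj : j ≤ 1) (N : ℕ) (y : ℕ) (hNy : N ≤ y) (hy : 1 ≤ y) :
    ‖∑ n ∈ Ico 1 (N + 1), ((Real.log n ^ j : ℝ) : ℂ) * f n‖ ≤ (1 + Real.log y) * B := by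
  have hB0 : 0 ≤ B := (norm_nonneg _).trans (hB 0 0)
  have hly : 0 ≤ Real.log y := Real.log_nonneg (by exact_mod_cast hy)
  rcases Nat.eq_zero_or_pos N with rfl | hN
  · simp only [zero_add, Ico_self, sum_empty, norm_zero]
    positivity
  · have hmono : ∀ n : ℕ, 1 ≤ n → Real.log n ^ j ≤ Real.log ((n + 1 : ℕ) : ℝ) ^ j := by
      intro n hn
      have h1 : (1 : ℝ) ≤ n := by exact_mod_cast hn
      have h2 : Real.log n ≤ Real.log ((n + 1 : ℕ) : ℝ) :=
        Real.log_le_log (by linarith) (by push_cast; linarith)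
      exact pow_le_pow_left₀ (Real.log_nonneg h1) h2 j
    have h := ty1_abel f B hB (fun n => Real.log n ^ j) (by positivity) hmono N hN (N + 1) le_rfl
    rw [Ico_self, sum_empty, mul_zero, add_zero] at h
    refine h.trans (mul_le_mul_of_nonneg_right ?_ hB0)
    have h1 : (1 : ℝ) ≤ N := by exact_mod_cast hN
    have h2 : Real.log N ≤ Real.log y := Real.log_le_log (by linarith) (by exact_mod_cast hNy)
    have h3 := Real.log_nonneg h1
    interval_cases j
    · rw [pow_zero]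
      linarith
    · rw [pow_one]
      linarith

/-- Type I sums (`j = 0` or `1`).

Proof. For fixed `m ≤ U` the inner sum is `∑_{n ≤ y/m} (log n)^j χ(n)`, at most
`2 log y · C √(2R) log (2R)` by `polya_vinogradov` and partial summation (`log n = ∑_{k ≤ n}
(log k - log (k-1))`, monotone weights); `∑_{p ∈ PD R} 1/φ(p.1) ≤ R` (at most `φ(r)` primitive characters
for each `r ∈ (R, 2R]`, all nontrivial as `r > R ≥ 1`). -/
theorem ty1 : ∃ C : ℝ, 0 < C ∧ ∀ (R U y : ℕ), 1 ≤ R → 1 ≤ U → 2 ≤ y → R ≤ y → ∀ a : ℕ → ℂ,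
    (∀ m, 1 ≤ m → m ≤ U → ‖a m‖ ≤ 1 + Real.log y) → ∀ j : ℕ, j ≤ 1 →
    ∑ p ∈ PD R, 1 / (Nat.totient p.1 : ℝ) *
      ‖∑ m ∈ Icc 1 U, ∑ n ∈ (Icc 1 y).filter (fun n => m * n ≤ y),
        a m * ((Real.log n ^ j : ℝ) : ℂ) * p.2 ((m * n : ℕ) : ZMod p.1)‖ ≤
      C * Real.log y ^ 3 * U * (R : ℝ) ^ (3 / 2 : ℝ) := by
  obtain ⟨C₀, hC₀, hPV⟩ := polya_vinogradov
  refine ⟨40 * C₀, by positivity, ?_⟩
  intro R U y hR hU hy hRy a ha j hj
  have hy2 : (2 : ℝ) ≤ y := by exact_mod_cast hy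
  have hR1 : (1 : ℝ) ≤ R := by exact_mod_cast hR
  have hU1 : (1 : ℝ) ≤ U := by exact_mod_cast hU
  have hl2 := Real.log_two_gt_d9
  have hly : Real.log 2 ≤ Real.log y := Real.log_le_log (by norm_num) hy2
  obtain ⟨L, hL⟩ : ∃ L, L = Real.log y := ⟨_, rfl⟩
  have hL0 : 0.69 < L := by rw [hL]; linarith
  have hl2y : Real.log (2 * R) ≤ 2 * L := by
    have h1 : Real.log (2 * R) ≤ Real.log (2 * y) :=
      Real.log_le_log (by positivity) (by
        have : (R : ℝ) ≤ y := by exact_mod_cast hRy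
        linarith)
    rw [Real.log_mul (by norm_num : (2 : ℝ) ≠ 0) (by positivity : (y : ℝ) ≠ 0), ← hL] at h1
    rw [← hL] at hly
    linarith
  have hsq : Real.sqrt (2 * R) ≤ 3 / 2 * Real.sqrt R := by
    rw [Real.sqrt_mul (by norm_num)]
    refine mul_le_mul_of_nonneg_right ?_ (Real.sqrt_nonneg _)
    rw [Real.sqrt_le_left (by norm_num)]
    norm_num
  have hpt : ∀ p ∈ PD R, ‖∑ m ∈ Icc 1 U, ∑ n ∈ (Icc 1 y).filter (fun n => m * n ≤ y),
        a m * ((Real.log n ^ j : ℝ) : ℂ) * p.2 ((m * n : ℕ) : ZMod p.1)‖ ≤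
      U * ((1 + L) * ((1 + L) * (C₀ * (3 / 2 * Real.sqrt R) * (2 * L)))) := by
    intro p hp
    obtain ⟨hp1, hp2, hp3, hp4⟩ := ty1_mem.1 hp
    have hne : NeZero p.1 := ⟨by omega⟩
    have hB : ∀ u v : ℕ, ‖∑ n ∈ Ico u v, p.2 (n : ZMod p.1)‖ ≤
        C₀ * (3 / 2 * Real.sqrt R) * (2 * L) := by
      intro u v
      refine (hPV p.1 p.2 (by omega) hp3 u v).trans ?_
      have e1 : Real.sqrt p.1 ≤ 3 / 2 * Real.sqrt R :=
        (Real.sqrt_le_sqrt (by exact_mod_cast hp2)).trans hsq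
      have e2 : Real.log p.1 ≤ 2 * L :=
        (Real.log_le_log (by exact_mod_cast hp1) (by exact_mod_cast hp2)).trans hl2y
      have e3 : 0 ≤ Real.log p.1 := Real.log_nonneg (by exact_mod_cast hp1)
      gcongr
    refine (norm_sum_le _ _).trans ?_
    have hm : ∀ m ∈ Icc 1 U, ‖∑ n ∈ (Icc 1 y).filter (fun n => m * n ≤ y),
        a m * ((Real.log n ^ j : ℝ) : ℂ) * p.2 ((m * n : ℕ) : ZMod p.1)‖ ≤
        (1 + L) * ((1 + L) * (C₀ * (3 / 2 * Real.sqrt R) * (2 * L))) := by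
      intro m hm
      rw [mem_Icc] at hm
      have e1 : ∑ n ∈ (Icc 1 y).filter (fun n => m * n ≤ y),
          a m * ((Real.log n ^ j : ℝ) : ℂ) * p.2 ((m * n : ℕ) : ZMod p.1) =
          a m * p.2 (m : ZMod p.1) * ∑ n ∈ Ico 1 (y / m + 1),
            ((Real.log n ^ j : ℝ) : ℂ) * p.2 (n : ZMod p.1) := by
        rw [mul_sum]
        have e2 : (Icc 1 y).filter (fun n => m * n ≤ y) = Ico 1 (y / m + 1) := by
          ext n
          rw [mem_filter, mem_Icc, mem_Ico, Nat.lt_succ_iff, Nat.le_div_iff_mul_le (by omega)]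
          constructor
          · rintro ⟨⟨h1, -⟩, h2⟩
            exact ⟨h1, by rw [mul_comm]; exact h2⟩
          · rintro ⟨h1, h2⟩
            refine ⟨⟨h1, ?_⟩, by rw [mul_comm]; exact h2⟩
            nlinarith
        rw [e2]
        refine sum_congr rfl fun n _ => ?_
        rw [Nat.cast_mul, map_mul]
        ring
      rw [e1, norm_mul, norm_mul]
      have e3 : ‖p.2 (m : ZMod p.1)‖ ≤ 1 := DirichletCharacter.norm_le_one _ _
      have e4 := ha m hm.1 hm.2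
      rw [← hL] at e4
      have e5 := ty1_inner (fun n => p.2 (n : ZMod p.1)) _ hB j hj (y / m) y (Nat.div_le_self _ _)
        (by omega)
      rw [← hL] at e5
      have e6 : ‖a m‖ * ‖p.2 (m : ZMod p.1)‖ ≤ 1 + L :=
        calc _ ≤ (1 + L) * 1 := mul_le_mul e4 e3 (norm_nonneg _) (by linarith)
          _ = 1 + L := mul_one _
      exact mul_le_mul e6 e5 (norm_nonneg _) (by linarith)
    refine (sum_le_sum hm).trans ?_
    rw [sum_const, Nat.card_Icc, nsmul_eq_mul, Nat.add_sub_cancel]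
  have h1 : ∑ p ∈ PD R, 1 / (Nat.totient p.1 : ℝ) *
      ‖∑ m ∈ Icc 1 U, ∑ n ∈ (Icc 1 y).filter (fun n => m * n ≤ y),
        a m * ((Real.log n ^ j : ℝ) : ℂ) * p.2 ((m * n : ℕ) : ZMod p.1)‖ ≤
      R * (U * ((1 + L) * ((1 + L) * (C₀ * (3 / 2 * Real.sqrt R) * (2 * L))))) := by
    refine (sum_le_sum fun p hp => mul_le_mul_of_nonneg_left (hpt p hp) (by positivity)).trans ?_
    rw [← sum_mul]
    exact mul_le_mul_of_nonneg_right (ty1_count R) (by positivity)
  refine h1.trans ?_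
  have h2 : (R : ℝ) ^ (3 / 2 : ℝ) = R * Real.sqrt R := by
    rw [Real.sqrt_eq_rpow, ← Real.rpow_one_add' (by positivity) (by norm_num)]
    norm_num
  rw [h2, ← hL]
  have h3 : 1 + L ≤ 5 / 2 * L := by linarith
  have h4 : (1 + L) * (1 + L) ≤ (5 / 2 * L) * (5 / 2 * L) :=
    mul_le_mul h3 h3 (by linarith) (by linarith)
  have h5 : 0 ≤ (R : ℝ) * U * C₀ * Real.sqrt R * L := by positivity
  calc (R : ℝ) * (U * ((1 + L) * ((1 + L) * (C₀ * (3 / 2 * Real.sqrt R) * (2 * L)))))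
      = 3 * ((1 + L) * (1 + L)) * ((R : ℝ) * U * C₀ * Real.sqrt R * L) := by ring
    _ ≤ 3 * ((5 / 2 * L) * (5 / 2 * L)) * ((R : ℝ) * U * C₀ * Real.sqrt R * L) := by gcongr
    _ = 75 / 4 * (C₀ * L ^ 3 * U * (R * Real.sqrt R)) := by ring
    _ ≤ 40 * (C₀ * L ^ 3 * U * (R * Real.sqrt R)) := by
      have : 0 ≤ C₀ * L ^ 3 * U * (R * Real.sqrt R) := by positivity
      linarith
    _ = 40 * C₀ * L ^ 3 * U * (R * Real.sqrt R) := by ring

end Pool.Agent.Lib.H59C
end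

-- from Lib.H51D.DHDefs
section

/-!
# Project H51D (MP_f686a1_nt): definitions

Objects of the Deuring-Heilbronn part (module DH).
-/

open Finset

namespace Pool.Agent.Lib.H68T

noncomputable section

/-! ## Objects of the Deuring-Heilbronn part -/

/-- `λ = 1 * ψ` for a real character `ψ`. -/
def lam {r : ℕ} (ψ : DirichletCharacter ℂ r) (n : ℕ) : ℝ :=
  ∑ d ∈ n.divisors, (ψ (d : ZMod r)).re






end

end Pool.Agent.Lib.H68T
end

-- from Lib.H51D.DHA
section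

/-!
# Chunk DHA: the arithmetic functions `λ = 1 * ψ` and `g = μ * μψ`, `ψ` real
-/

open Finset

namespace Pool.Agent.Lib.H68T

open ArithmeticFunction in
theorem dha_val (r : ℕ) (ψ : DirichletCharacter ℂ r) (h2 : ψ ^ 2 = 1) (n : ℕ) :
    ψ (n : ZMod r) = ((ψ (n : ZMod r)).re : ℂ) ∧
      ((ψ (n : ZMod r)).re = 0 ∨ (ψ (n : ZMod r)).re = 1 ∨ (ψ (n : ZMod r)).re = -1) := by
  by_cases hu : IsUnit (n : ZMod r)
  · have h1 : (ψ ^ 2) (n : ZMod r) = 1 := by
      rw [h2]; exact MulChar.one_apply hu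
    rw [MulChar.pow_apply' ψ two_ne_zero] at h1
    have h3 : ψ (n : ZMod r) = 1 ∨ ψ (n : ZMod r) = -1 := sq_eq_one_iff.mp h1
    rcases h3 with h | h
    · rw [h]
      simp
    · rw [h]
      simp
  · rw [MulChar.map_nonunit ψ hu]
    simp

theorem dha_mul (r : ℕ) (ψ : DirichletCharacter ℂ r) (h2 : ψ ^ 2 = 1) (m n : ℕ) :
    (ψ ((m * n : ℕ) : ZMod r)).re = (ψ (m : ZMod r)).re * (ψ (n : ZMod r)).re := by
  rw [Nat.cast_mul, map_mul]
  rw [(dha_val r ψ h2 m).1, (dha_val r ψ h2 n).1, ← Complex.ofReal_mul, Complex.ofReal_re,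
    Complex.ofReal_re, Complex.ofReal_re]

/-- `ψ` as an arithmetic function -/
noncomputable def dha_P {r : ℕ} (ψ : DirichletCharacter ℂ r) : ArithmeticFunction ℝ :=
  ⟨fun n => if n = 0 then 0 else (ψ (n : ZMod r)).re, by simp⟩

theorem dha_P_apply {r : ℕ} (ψ : DirichletCharacter ℂ r) {n : ℕ} (hn : n ≠ 0) :
    dha_P ψ n = (ψ (n : ZMod r)).re := by
  change (if n = 0 then 0 else (ψ (n : ZMod r)).re) = _
  rw [if_neg hn]

theorem dha_P_mult (r : ℕ) (ψ : DirichletCharacter ℂ r) (h2 : ψ ^ 2 = 1) :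
    (dha_P ψ).IsMultiplicative := by
  rw [ArithmeticFunction.IsMultiplicative.iff_ne_zero]
  refine ⟨?_, ?_⟩
  · rw [dha_P_apply ψ one_ne_zero]
    simp
  · intro m n hm hn _
    rw [dha_P_apply ψ (mul_ne_zero hm hn), dha_P_apply ψ hm, dha_P_apply ψ hn, dha_mul r ψ h2]

theorem dha_lam {r : ℕ} (ψ : DirichletCharacter ℂ r) (n : ℕ) :
    lam ψ n = (dha_P ψ * (ArithmeticFunction.zeta : ArithmeticFunction ℝ)) n := by
  rw [ArithmeticFunction.coe_mul_zeta_apply]
  unfold lam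
  refine sum_congr rfl fun d hd => ?_
  rw [dha_P_apply ψ (Nat.pos_of_mem_divisors hd).ne']


theorem dha_lam_mult (r : ℕ) (ψ : DirichletCharacter ℂ r) (h2 : ψ ^ 2 = 1) :
    (dha_P ψ * (ArithmeticFunction.zeta : ArithmeticFunction ℝ)).IsMultiplicative :=
  (dha_P_mult r ψ h2).mul ArithmeticFunction.isMultiplicative_zeta.natCast


theorem dha_pow (r : ℕ) (ψ : DirichletCharacter ℂ r) (h2 : ψ ^ 2 = 1) (p k : ℕ) :
    (ψ ((p ^ k : ℕ) : ZMod r)).re = (ψ (p : ZMod r)).re ^ k := by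
  induction k with
  | zero => simp
  | succ k ih =>
    rw [pow_succ, dha_mul r ψ h2, ih, pow_succ]

theorem dha_lam_pp (r : ℕ) (ψ : DirichletCharacter ℂ r) (h2 : ψ ^ 2 = 1) (p k : ℕ)
    (hp : p.Prime) : lam ψ (p ^ k) = ∑ i ∈ range (k + 1), (ψ (p : ZMod r)).re ^ i := by
  unfold lam
  rw [Nat.divisors_prime_pow hp, sum_map]
  refine sum_congr rfl fun i _ => ?_
  exact dha_pow r ψ h2 p i


theorem dha_geom_nonneg (v : ℝ) (hv : v = 0 ∨ v = 1 ∨ v = -1) (n : ℕ) :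
    0 ≤ ∑ i ∈ range n, v ^ i := by
  rcases hv with h | h | h
  · rw [h]
    exact sum_nonneg fun i _ => pow_nonneg le_rfl i
  · rw [h]
    exact sum_nonneg fun i _ => by simp
  · rw [h, neg_one_geom_sum]
    split <;> norm_num

/-- `λ(n) ≥ 0`: `λ` is multiplicative (`ArithmeticFunction.IsMultiplicative.mul` for the functions
`n ↦ 1` and `n ↦ (ψ n).re`; `ψ n` is real by `T341_real_value` or because `ψ(n)^2 ∈ {0, 1}`), and
`λ(p^k) = 1 + ψ(p) + ... + ψ(p)^k ≥ 0` for `ψ(p) ∈ {-1, 0, 1}`. -/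
theorem lam_nonneg (r : ℕ) [NeZero r] (ψ : DirichletCharacter ℂ r) (h2 : ψ ^ 2 = 1) (n : ℕ) :
    0 ≤ lam ψ n := by
  induction n using Nat.recOnPosPrimePosCoprime with
  | zero => simp [lam]
  | one => simp [lam]
  | prime_pow p k hp hk =>
    rw [dha_lam_pp r ψ h2 p k hp]
    exact dha_geom_nonneg _ (dha_val r ψ h2 p).2 _
  | coprime a b ha hb hab iha ihb =>
    rw [dha_lam, (dha_lam_mult r ψ h2).map_mul_of_coprime hab, ← dha_lam, ← dha_lam]
    exact mul_nonneg iha ihb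




/-- `λ` as a sum of complex values: `ψ(d)` is real. -/
theorem lam_cast (r : ℕ) [NeZero r] (ψ : DirichletCharacter ℂ r) (h2 : ψ ^ 2 = 1) (n : ℕ) :
    (lam ψ n : ℂ) = ∑ d ∈ n.divisors, ψ (d : ZMod r) := by
  unfold lam
  rw [Complex.ofReal_sum]
  refine sum_congr rfl fun d _ => ?_
  exact ((dha_val r ψ h2 d).1).symm

end Pool.Agent.Lib.H68T
end

-- from Lib.H68X.XRL
section

/-!
# Chunk XRL: a zero close to `1` makes `L(1,ψ)` small
-/

open Finset

namespace Pool.Agent.Lib.H68T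

/-- summation by parts, split at `K` -/
theorem XRL_split (r : ℕ) [NeZero r] (ψ : DirichletCharacter ℂ r) (hψ : ψ ≠ 1) (s : ℂ)
    (hs : 0 < s.re) (K : ℕ) :
    ψ.LFunction s = ∑ n ∈ range K, ψ ((n + 1 : ℕ) : ZMod r) * (((n : ℝ) + 1 : ℝ) : ℂ) ^ (-s)
      - gl1_T ψ K * (((K : ℝ) + 1 : ℝ) : ℂ) ^ (-s) + ∑' n, gl1_A ψ (n + K) s := by
  have hsum := (gl1_tele s.re hs (r * ‖s‖ / s.re) (by positivity) (fun n => gl1_A ψ n s)
    (fun n => gl1_A_norm r ψ hψ n s hs)).1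
  rw [gl1_eqOn r ψ hψ s hs, ← hsum.sum_add_tsum_nat_add K]
  have h9 := gl1_parts ψ (fun n => (((n : ℝ) + 1 : ℝ) : ℂ) ^ (-s)) K
  have h10 : ∀ n : ℕ, gl1_T ψ (n + 1) * ((((n : ℝ) + 1 : ℝ) : ℂ) ^ (-s) -
      ((((n + 1 : ℕ) : ℝ) + 1 : ℝ) : ℂ) ^ (-s)) = gl1_A ψ n s := by
    intro n
    rw [gl1_A]
    congr 3
    push_cast
    ring_nf
  simp only [h10] at h9
  rw [h9]
  ring

/-- telescoping tail -/
theorem XRL_tele (σ : ℝ) (D : ℝ) (hD : 0 ≤ D) (K : ℕ) (f : ℕ → ℂ)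
    (hf : ∀ n : ℕ, ‖f n‖ ≤ D * ((((n + K : ℕ) : ℝ) + 1) ^ (-σ) -
      (((n + K : ℕ) : ℝ) + 2) ^ (-σ))) :
    ‖∑' n, f n‖ ≤ D * ((K : ℝ) + 1) ^ (-σ) := by
  have hsum : ∀ M : ℕ, ∑ n ∈ range M, ‖f n‖ ≤ D * ((K : ℝ) + 1) ^ (-σ) := by
    intro M
    have h1 : ∑ n ∈ range M, ‖f n‖ ≤
        D * (((K : ℝ) + 1) ^ (-σ) - (((M + K : ℕ) : ℝ) + 1) ^ (-σ)) := by
      induction M with
      | zero => simp
      | succ M ih =>
        rw [sum_range_succ]
        have h2 := hf M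
        have e : (((M + 1 + K : ℕ) : ℝ) + 1) = ((M + K : ℕ) : ℝ) + 2 := by
          push_cast
          ring
        rw [e]
        linarith
    have h3 : 0 ≤ (((M + K : ℕ) : ℝ) + 1) ^ (-σ) := Real.rpow_nonneg (by positivity) _
    nlinarith
  have hs : Summable fun n => ‖f n‖ := summable_of_sum_range_le (fun n => norm_nonneg _) hsum
  refine (norm_tsum_le_tsum_norm hs).trans ?_
  exact hs.tsum_le_of_sum_range_le hsum

/-- powers of `n ≤ r` near `1` -/
theorem XRL_pow (r : ℕ) (hr : 100 ≤ r) (σ : ℝ) (hσ : 1 - 2 / Real.log r ≤ σ) (x : ℝ)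
    (hx1 : 1 ≤ x) (hxr : x ≤ r) : x ^ (-σ) ≤ Real.exp 2 * x⁻¹ := by
  have hr1 : (1 : ℝ) < r := by
    have : (100 : ℝ) ≤ r := by exact_mod_cast hr
    linarith
  have hlog : 0 < Real.log r := Real.log_pos hr1
  have hx0 : 0 < x := by linarith
  have h1 : x ^ (-σ) ≤ x ^ (2 / Real.log r - 1) :=
    Real.rpow_le_rpow_of_exponent_le hx1 (by linarith)
  refine h1.trans ?_
  rw [Real.rpow_sub hx0, Real.rpow_one, div_eq_mul_inv]
  refine mul_le_mul_of_nonneg_right ?_ (by positivity)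
  have h2 : x ^ (2 / Real.log r) ≤ (r : ℝ) ^ (2 / Real.log r) :=
    Real.rpow_le_rpow hx0.le hxr (by positivity)
  refine h2.trans ?_
  rw [Real.rpow_def_of_pos (by linarith)]
  apply Real.exp_le_exp.2
  rw [mul_div_cancel₀ _ hlog.ne']

theorem XRL_harm (r : ℕ) : ∑ n ∈ range r, (((n : ℝ) + 1))⁻¹ ≤ 1 + Real.log r := by
  have h := harmonic_le_one_add_log r
  have e : ((harmonic r : ℚ) : ℝ) = ∑ n ∈ range r, (((n : ℝ) + 1))⁻¹ := by
    rw [harmonic]
    push_cast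
    rfl
  rw [← e]
  exact h

/-- `‖L(s,ψ)‖ ≤ C log r` for `|s - 1| ≤ 2/log r`, `ψ ≠ 1` mod `r`, `r ≥ 100`: for `Re s > 1`, and then by
analytic continuation for `Re s > 0` (cf. `LFunction_bound` in `H68T/GL1.lean`),
`L(s) = ∑_{n ≤ r} ψ(n) n^(-s) + s ∫_r^∞ (S(u) - S(r)) u^(-s-1) du`, `S(u) = ∑_{n ≤ u} ψ(n)`,
`|S(u) - S(r)| ≤ r`; `|n^(-s)| ≤ e²/n` for `n ≤ r`, and the integral is at most
`r r^(-σ)/σ ≤ 2 e²`. -/
theorem LFunction_near_one : ∃ C : ℝ, 0 < C ∧ ∀ (r : ℕ) [NeZero r]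
    (ψ : DirichletCharacter ℂ r), 100 ≤ r → ψ ≠ 1 → ∀ s : ℂ, ‖s - 1‖ ≤ 2 / Real.log r →
    ‖ψ.LFunction s‖ ≤ C * Real.log r := by
  refine ⟨6 * Real.exp 2, by positivity, fun r _ ψ hr hψ s hs => ?_⟩
  have hrR : (100 : ℝ) ≤ r := by exact_mod_cast hr
  have hlog4 : 4 ≤ Real.log r := by
    have h1 : Real.log 100 ≤ Real.log r := Real.log_le_log (by norm_num) hrR
    have h2 : (4 : ℝ) ≤ Real.log 100 := by
      rw [Real.le_log_iff_exp_le (by norm_num)]
      have h3 : Real.exp 4 = Real.exp 1 ^ 4 := by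
        rw [← Real.exp_nat_mul]
        norm_num
      rw [h3]
      have h4 := Real.exp_one_lt_d9
      calc Real.exp 1 ^ 4 ≤ (2.7182818286 : ℝ) ^ 4 :=
            pow_le_pow_left₀ (Real.exp_pos 1).le h4.le 4
        _ ≤ 100 := by norm_num
    linarith
  have hδ : 2 / Real.log r ≤ 1 / 2 := by
    rw [div_le_iff₀ (by linarith)]
    linarith
  have hre : |s.re - 1| ≤ ‖s - 1‖ := by
    have := Complex.abs_re_le_norm (s - 1)
    simpa using this
  have hσ : 1 - 2 / Real.log r ≤ s.re := by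
    have := (abs_le.1 (hre.trans hs)).1
    linarith
  have hσ2 : 1 / 2 ≤ s.re := by linarith
  have hσ0 : 0 < s.re := by linarith
  have hns : ‖s‖ ≤ 3 / 2 := by
    have h1 : ‖s‖ ≤ ‖s - 1‖ + ‖(1 : ℂ)‖ := by
      have := norm_add_le (s - 1) 1
      simpa using this
    rw [norm_one] at h1
    linarith
  have hE : 0 < Real.exp 2 := Real.exp_pos 2
  have hrpos : (0 : ℝ) < r := by linarith
  -- the power of `r + 1`
  have hK : ((r : ℝ) + 1) ^ (-s.re) ≤ Real.exp 2 * (r : ℝ)⁻¹ := by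
    refine le_trans ?_ (XRL_pow r hr s.re hσ r (by linarith) le_rfl)
    exact Real.rpow_le_rpow_of_nonpos hrpos (by linarith) (by linarith)
  have hK0 : 0 ≤ ((r : ℝ) + 1) ^ (-s.re) := Real.rpow_nonneg (by positivity) _
  rw [XRL_split r ψ hψ s hσ0 r]
  have h1 : ‖∑ n ∈ range r, ψ ((n + 1 : ℕ) : ZMod r) * (((n : ℝ) + 1 : ℝ) : ℂ) ^ (-s)‖ ≤
      Real.exp 2 * (1 + Real.log r) := by
    refine (norm_sum_le _ _).trans ?_
    refine le_trans (sum_le_sum fun n hn => ?_)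
      (le_of_eq_of_le (mul_sum (range r) (fun n : ℕ => ((n : ℝ) + 1)⁻¹) (Real.exp 2)).symm
        (mul_le_mul_of_nonneg_left (XRL_harm r) hE.le))
    rw [norm_mul, Complex.norm_cpow_eq_rpow_re_of_pos (by positivity), Complex.neg_re]
    have hn' : (n : ℝ) + 1 ≤ r := by
      have := mem_range.1 hn
      exact_mod_cast this
    have h2 := XRL_pow r hr s.re hσ ((n : ℝ) + 1) (by linarith [Nat.cast_nonneg (α := ℝ) n]) hn'
    have h3 := DirichletCharacter.norm_le_one ψ ((n + 1 : ℕ) : ZMod r)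
    have h4 : 0 ≤ ((n : ℝ) + 1) ^ (-s.re) := Real.rpow_nonneg (by positivity) _
    calc _ ≤ 1 * ((n : ℝ) + 1) ^ (-s.re) := mul_le_mul_of_nonneg_right h3 h4
      _ ≤ _ := by rw [one_mul]; exact h2
  have h2 : ‖gl1_T ψ r * (((r : ℝ) + 1 : ℝ) : ℂ) ^ (-s)‖ ≤ Real.exp 2 := by
    rw [norm_mul, Complex.norm_cpow_eq_rpow_re_of_pos (by positivity), Complex.neg_re]
    calc _ ≤ (r : ℝ) * (Real.exp 2 * (r : ℝ)⁻¹) :=
          mul_le_mul (gl1_T_bound r ψ hψ r) hK hK0 hrpos.le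
      _ = Real.exp 2 := by field_simp
  have h3 : ‖∑' n, gl1_A ψ (n + r) s‖ ≤ 3 * Real.exp 2 := by
    have h4 := XRL_tele s.re (r * ‖s‖ / s.re) (by positivity) r (fun n => gl1_A ψ (n + r) s)
      (fun n => gl1_A_norm r ψ hψ (n + r) s hσ0)
    refine h4.trans ?_
    have h5 : (r : ℝ) * ‖s‖ / s.re ≤ 3 * r := by
      rw [div_le_iff₀ hσ0]
      nlinarith
    calc _ ≤ (3 * r) * (Real.exp 2 * (r : ℝ)⁻¹) := mul_le_mul h5 hK hK0 (by positivity)
      _ = 3 * Real.exp 2 := by field_simp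
  have h6 : ‖∑ n ∈ range r, ψ ((n + 1 : ℕ) : ZMod r) * (((n : ℝ) + 1 : ℝ) : ℂ) ^ (-s)
      - gl1_T ψ r * (((r : ℝ) + 1 : ℝ) : ℂ) ^ (-s) + ∑' n, gl1_A ψ (n + r) s‖ ≤
      Real.exp 2 * (1 + Real.log r) + Real.exp 2 + 3 * Real.exp 2 := by
    refine (norm_add_le _ _).trans (add_le_add ((norm_sub_le _ _).trans (add_le_add h1 h2)) h3)
  refine h6.trans ?_
  nlinarith

/-- `L(1) = L(1) - L(β)` is at most `(1-β) sup_{[β,1]} |L'|`, and `|L'| ≤ C (log r)²` there by Cauchy's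
inequality on circles of radius `1/log r`. -/
theorem L1_upper : ∃ C : ℝ, 0 < C ∧ ∀ (r : ℕ) [NeZero r] (ψ : DirichletCharacter ℂ r),
    100 ≤ r → ψ ≠ 1 → ∀ β : ℝ, 1 - 1 / Real.log r ≤ β → β ≤ 1 → ψ.LFunction (β : ℂ) = 0 →
    ‖ψ.LFunction 1‖ ≤ C * (1 - β) * (Real.log r) ^ 2 := by
  obtain ⟨C, hC, H⟩ := LFunction_near_one
  refine ⟨C, hC, fun r _ ψ hr hψ β hβ1 hβ2 hz => ?_⟩
  have hrR : (100 : ℝ) ≤ r := by exact_mod_cast hr
  have hlog : 0 < Real.log r := Real.log_pos (by linarith)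
  have hρ : 0 < 1 / Real.log r := by positivity
  have hdiff := DirichletCharacter.differentiable_LFunction hψ
  have hder : ∀ z ∈ Metric.closedBall (1 : ℂ) (1 / Real.log r),
      ‖deriv ψ.LFunction z‖ ≤ C * Real.log r ^ 2 := by
    intro z hz
    have h1 := Complex.norm_deriv_le_of_forall_mem_sphere_norm_le (c := z)
      (C := C * Real.log r) (f := ψ.LFunction) hρ hdiff.diffContOnCl (fun w hw => by
        apply H r ψ hr hψ w
        have h2 : ‖w - z‖ = 1 / Real.log r := by simpa [dist_eq_norm] using hw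
        have h3 : ‖z - 1‖ ≤ 1 / Real.log r := by simpa [dist_eq_norm] using hz
        have h4 : ‖w - 1‖ ≤ ‖w - z‖ + ‖z - 1‖ := by
          have := norm_add_le (w - z) (z - 1)
          simpa using this
        have h5 : 2 / Real.log r = 1 / Real.log r + 1 / Real.log r := by ring
        rw [h5]
        linarith)
    refine h1.trans (le_of_eq ?_)
    field_simp
  have hmem1 : (1 : ℂ) ∈ Metric.closedBall (1 : ℂ) (1 / Real.log r) :=
    Metric.mem_closedBall_self hρ.le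
  have hnorm : ‖(1 : ℂ) - (β : ℂ)‖ = 1 - β := by
    rw [← Complex.ofReal_one, ← Complex.ofReal_sub, Complex.norm_real, Real.norm_eq_abs,
      abs_of_nonneg (by linarith)]
  have hmemβ : (β : ℂ) ∈ Metric.closedBall (1 : ℂ) (1 / Real.log r) := by
    rw [Metric.mem_closedBall, dist_comm, dist_eq_norm, hnorm]
    linarith
  have h := Convex.norm_image_sub_le_of_norm_deriv_le (f := ψ.LFunction)
    (C := C * Real.log r ^ 2) (s := Metric.closedBall (1 : ℂ) (1 / Real.log r))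
    (x := (β : ℂ)) (y := 1) (fun z _ => hdiff z) hder (convex_closedBall _ _) hmemβ hmem1
  rw [hz, sub_zero, hnorm] at h
  linarith [h]

end Pool.Agent.Lib.H68T
end

-- from Lib.H51D.DHE
section

/-!
# Chunk DHE: Dirichlet series at a zero of their analytic continuation
-/

open Finset

namespace Pool.Agent.Lib.H68T

/-- the error term -/
noncomputable def DHE_E (f : ℕ → ℂ) (κ : ℂ) (n : ℕ) : ℂ := (∑ k ∈ Icc 1 n, f k) - κ * n

/-- `(n+1)^(-s)` -/
noncomputable def DHE_p (n : ℕ) (s : ℂ) : ℂ := (((n : ℝ) + 1 : ℝ) : ℂ) ^ (-s)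

/-- the terms of the continuation -/
noncomputable def DHE_A (f : ℕ → ℂ) (κ : ℂ) (n : ℕ) (s : ℂ) : ℂ :=
  DHE_E f κ (n + 1) * ((((n : ℝ) + 1 : ℝ) : ℂ) ^ (-s) - (((n : ℝ) + 2 : ℝ) : ℂ) ^ (-s))

theorem DHE_p_succ (n : ℕ) (s : ℂ) : DHE_p (n + 1) s = (((n : ℝ) + 2 : ℝ) : ℂ) ^ (-s) := by
  have e : (((n + 1 : ℕ) : ℝ) + 1 : ℝ) = (n : ℝ) + 2 := by
    push_cast
    ring
  rw [DHE_p, e]

theorem DHE_abel (f : ℕ → ℂ) (κ : ℂ) (s : ℂ) (K : ℕ) :
    ∑ n ∈ range K, f (n + 1) * DHE_p n s =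
      DHE_E f κ K * DHE_p K s + κ * ∑ n ∈ range K, DHE_p n s + ∑ n ∈ range K, DHE_A f κ n s := by
  induction K with
  | zero => simp [DHE_E]
  | succ K ih =>
    rw [sum_range_succ, ih, sum_range_succ, sum_range_succ (fun n => DHE_A f κ n s)]
    have h1 : DHE_E f κ (K + 1) = DHE_E f κ K + f (K + 1) - κ := by
      rw [DHE_E, DHE_E, sum_Icc_succ_top (by omega)]
      push_cast
      ring
    have h2 : DHE_A f κ K s = DHE_E f κ (K + 1) * (DHE_p K s - DHE_p (K + 1) s) := by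
      rw [DHE_A, DHE_p_succ, DHE_p]
    rw [h2, h1]
    ring

theorem DHE_A_norm (f : ℕ → ℂ) (κ : ℂ) (D : ℝ)
    (hM : ∀ u : ℕ, ‖(∑ n ∈ Icc 1 u, f n) - κ * u‖ ≤ D * Real.sqrt u) (n : ℕ) (s : ℂ)
    (hs : 0 < s.re) :
    ‖DHE_A f κ n s‖ ≤ D * ‖s‖ * ((n : ℝ) + 1) ^ (-s.re - 1 / 2) := by
  have hn : (0 : ℝ) < (n : ℝ) + 1 := by positivity
  rw [DHE_A, norm_mul, norm_sub_rev]
  have h1 : ‖DHE_E f κ (n + 1)‖ ≤ D * ((n : ℝ) + 1) ^ (1 / 2 : ℝ) := by
    have := hM (n + 1)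
    rw [Real.sqrt_eq_rpow] at this
    push_cast at this ⊢
    rw [DHE_E]
    push_cast
    exact this
  have h2 := gl1_diff' s hs (a := (n : ℝ) + 1) (b := (n : ℝ) + 2) hn (by linarith)
  have e : (n : ℝ) + 2 - ((n : ℝ) + 1) = 1 := by ring
  rw [e, mul_one] at h2
  calc _ ≤ (D * ((n : ℝ) + 1) ^ (1 / 2 : ℝ)) * (‖s‖ * ((n : ℝ) + 1) ^ (-s.re - 1)) :=
        mul_le_mul h1 h2 (norm_nonneg _) ((norm_nonneg _).trans h1)
    _ = D * ‖s‖ * (((n : ℝ) + 1) ^ (1 / 2 : ℝ) * ((n : ℝ) + 1) ^ (-s.re - 1)) := by ring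
    _ = _ := by
      rw [← Real.rpow_add hn]
      congr 2
      ring

theorem DHE_diff (f : ℕ → ℂ) (κ : ℂ) (n : ℕ) : Differentiable ℂ (DHE_A f κ n) := by
  have h0 : ∀ (x : ℝ), 0 < x → Differentiable ℂ fun s : ℂ => (x : ℂ) ^ (-s) := by
    intro x hx s
    refine DifferentiableAt.const_cpow differentiableAt_id.neg (Or.inl ?_)
    exact_mod_cast hx.ne'
  unfold DHE_A
  exact ((h0 _ (by positivity)).sub (h0 _ (by positivity))).const_mul _

theorem DHE_analytic (f : ℕ → ℂ) (κ : ℂ) (D : ℝ) (hD : 0 ≤ D)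
    (hM : ∀ u : ℕ, ‖(∑ n ∈ Icc 1 u, f n) - κ * u‖ ≤ D * Real.sqrt u) :
    AnalyticOnNhd ℂ (fun s => ∑' n, DHE_A f κ n s) {s | 1 / 2 < s.re} := by
  have h1 : DifferentiableOn ℂ (fun s => ∑' n, DHE_A f κ n (s + 1 / 2)) {s | 0 < s.re} := by
    apply gl1_analytic (fun n s => DHE_A f κ n (s + 1 / 2))
    · intro n
      exact (DHE_diff f κ n).comp (by fun_prop)
    · intro R
      refine ⟨D * (|R| + 1), fun n s hs hR => ?_⟩
      have h2 : 0 < (s + 1 / 2).re := by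
        simp
        linarith
      refine (DHE_A_norm f κ D hM n _ h2).trans ?_
      have e1 : -(s + 1 / 2).re - 1 / 2 = -s.re - 1 := by
        simp
        ring
      rw [e1]
      apply mul_le_mul_of_nonneg_right _ (Real.rpow_nonneg (by positivity) _)
      apply mul_le_mul_of_nonneg_left _ hD
      refine (norm_add_le _ _).trans ?_
      have h3 : ‖(1 / 2 : ℂ)‖ = 1 / 2 := by simp
      rw [h3]
      linarith [hR.trans (le_abs_self R)]
  have hop : IsOpen {s : ℂ | 1 / 2 < s.re} := isOpen_lt continuous_const Complex.continuous_re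
  apply DifferentiableOn.analyticOnNhd _ hop
  have h4 : DifferentiableOn ℂ ((fun s => ∑' n, DHE_A f κ n (s + 1 / 2)) ∘ fun s => s - 1 / 2)
      {s | 1 / 2 < s.re} := by
    refine h1.comp (by fun_prop) ?_
    intro s hs
    have hs' : 1 / 2 < s.re := hs
    change 0 < (s - 1 / 2).re
    simp
    linarith
  refine h4.congr fun s _ => ?_
  simp

theorem DHE_summable (f : ℕ → ℂ) (κ : ℂ) (D : ℝ)
    (hM : ∀ u : ℕ, ‖(∑ n ∈ Icc 1 u, f n) - κ * u‖ ≤ D * Real.sqrt u) (s : ℂ)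
    (hs : 1 / 2 < s.re) : Summable fun n => DHE_A f κ n s := by
  refine Summable.of_norm_bounded (g := fun n : ℕ => D * ‖s‖ * ((n : ℝ) + 1) ^ (-s.re - 1 / 2)) ?_
    (fun n => DHE_A_norm f κ D hM n s (by linarith))
  apply Summable.mul_left
  have h1 : Summable fun n : ℕ => (n : ℝ) ^ (-s.re - 1 / 2) :=
    Real.summable_nat_rpow.2 (by linarith)
  have h2 := (summable_nat_add_iff 1).2 h1
  simpa using h2

/-- the continuation -/
theorem DHE_series (f : ℕ → ℂ) (κ : ℂ) (D : ℝ)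
    (hM : ∀ u : ℕ, ‖(∑ n ∈ Icc 1 u, f n) - κ * u‖ ≤ D * Real.sqrt u)
    (hsum : ∀ s : ℂ, 1 < s.re → LSeriesSummable f s) (s : ℂ) (hs : 1 < s.re) :
    LSeries f s = κ * riemannZeta s + ∑' n, DHE_A f κ n s := by
  have h2 : Filter.Tendsto (fun K => ∑ n ∈ range K, f (n + 1) * DHE_p n s) Filter.atTop
      (nhds (LSeries f s)) := by
    have h3 := (hsum s hs).hasSum.tendsto_sum_nat
    have h4 := (Filter.tendsto_add_atTop_iff_nat 1).2 h3
    refine h4.congr fun K => ?_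
    rw [sum_range_succ']
    simp only [LSeries.term_zero, add_zero]
    refine sum_congr rfl fun n _ => ?_
    rw [LSeries.term_of_ne_zero (by omega), DHE_p, Complex.cpow_neg, div_eq_mul_inv]
    push_cast
    rfl
  have h5 : Filter.Tendsto (fun K => DHE_E f κ K * DHE_p K s) Filter.atTop (nhds 0) := by
    have h6 : Filter.Tendsto (fun K : ℕ => |D| * ((K : ℝ) + 1) ^ (-(s.re - 1 / 2))) Filter.atTop
        (nhds (|D| * 0)) := by
      refine Filter.Tendsto.const_mul _ ?_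
      have h7 := tendsto_rpow_neg_atTop (y := s.re - 1 / 2) (by linarith)
      have h8 : Filter.Tendsto (fun K : ℕ => (K : ℝ) + 1) Filter.atTop Filter.atTop :=
        Filter.tendsto_atTop_add_const_right _ _ tendsto_natCast_atTop_atTop
      exact h7.comp h8
    rw [mul_zero] at h6
    refine squeeze_zero_norm (fun K => ?_) h6
    have hK : (0 : ℝ) < (K : ℝ) + 1 := by positivity
    rw [norm_mul, DHE_p, Complex.norm_cpow_eq_rpow_re_of_pos hK]
    have h9 : ‖DHE_E f κ K‖ ≤ |D| * ((K : ℝ) + 1) ^ (1 / 2 : ℝ) := by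
      refine (hM K).trans ?_
      rw [Real.sqrt_eq_rpow]
      refine (mul_le_mul_of_nonneg_right (le_abs_self D) (Real.rpow_nonneg (by positivity) _)).trans ?_
      apply mul_le_mul_of_nonneg_left _ (abs_nonneg D)
      exact Real.rpow_le_rpow (by positivity) (by linarith) (by norm_num)
    calc ‖DHE_E f κ K‖ * ((K : ℝ) + 1) ^ (-s).re
        ≤ |D| * ((K : ℝ) + 1) ^ (1 / 2 : ℝ) * ((K : ℝ) + 1) ^ (-s).re :=
          mul_le_mul_of_nonneg_right h9 (Real.rpow_nonneg hK.le _)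
      _ = |D| * (((K : ℝ) + 1) ^ (1 / 2 : ℝ) * ((K : ℝ) + 1) ^ (-s).re) := by ring
      _ = _ := by
        rw [← Real.rpow_add hK]
        congr 2
        simp
        ring
  have h10 : Filter.Tendsto (fun K => ∑ n ∈ range K, DHE_p n s) Filter.atTop
      (nhds (riemannZeta s)) := by
    have h1 : Summable fun n : ℕ => 1 / ((n : ℂ) + 1) ^ s := by
      have h2 := Complex.summable_one_div_nat_cpow.2 hs
      have h3 := (summable_nat_add_iff 1).2 h2
      simpa using h3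
    rw [zeta_eq_tsum_one_div_nat_add_one_cpow hs]
    refine h1.hasSum.tendsto_sum_nat.congr fun K => ?_
    refine sum_congr rfl fun n _ => ?_
    rw [DHE_p, Complex.cpow_neg, one_div]
    push_cast
    rfl
  have h11 := (DHE_summable f κ D hM s (by linarith)).hasSum.tendsto_sum_nat
  have h12 := (h5.add (h10.const_mul κ)).add h11
  rw [zero_add] at h12
  refine tendsto_nhds_unique h2 (h12.congr fun K => ?_)
  exact (DHE_abel f κ s K).symm

theorem DHE_mvt (p x : ℝ) (hp : 0 < p) (hx : 0 < x) :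
    p * (x + 1) ^ (-p - 1) ≤ x ^ (-p) - (x + 1) ^ (-p) := by
  have hx1 : 0 < x + 1 := by linarith
  have h1 : Real.log x ≤ Real.log (x + 1) - 1 / (x + 1) := by
    have h2 : Real.log (x / (x + 1)) ≤ x / (x + 1) - 1 :=
      Real.log_le_sub_one_of_pos (by positivity)
    rw [Real.log_div hx.ne' hx1.ne'] at h2
    have h3 : x / (x + 1) - 1 = -(1 / (x + 1)) := by
      field_simp
      ring
    linarith
  have h4 : (x + 1) ^ (-p) * (1 + p / (x + 1)) ≤ x ^ (-p) := by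
    rw [Real.rpow_def_of_pos hx, Real.rpow_def_of_pos hx1]
    calc Real.exp (Real.log (x + 1) * -p) * (1 + p / (x + 1))
        ≤ Real.exp (Real.log (x + 1) * -p) * Real.exp (p / (x + 1)) := by
          apply mul_le_mul_of_nonneg_left _ (Real.exp_pos _).le
          linarith [Real.add_one_le_exp (p / (x + 1))]
      _ = Real.exp (Real.log (x + 1) * -p + p / (x + 1)) := by rw [Real.exp_add]
      _ ≤ _ := by
          apply Real.exp_le_exp.mpr
          have h5 := mul_le_mul_of_nonneg_left h1 hp.le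
          have h6 : p / (x + 1) = p * (1 / (x + 1)) := by ring
          rw [h6]
          linarith
  have h7 : (x + 1) ^ (-p) * (p / (x + 1)) = p * (x + 1) ^ (-p - 1) := by
    rw [Real.rpow_sub hx1, Real.rpow_one]
    ring
  linarith


end Pool.Agent.Lib.H68T
end
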