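import Pool.Agent.Lib.H1M.RV.M008
import Pool.Agent.Lib.H1M.RV.M011
import Pool.Agent.Lib.H1M.RV.M012
import Pool.Agent.Lib.H1M.RV.M025

/-! Merged copies (to shorten the build) of Lib.GoldbachGraph.Codegree, Lib.GoldbachGraph.Moments, Lib.GoldbachGraph.Proportion, Lib.H18E.Defs, Lib.H68T.CG1, Lib.H18E.PG, Lib.H18Q.QDefs, Lib.H59C.CDefs, Lib.H59C.C0, Lib.H59C.CVX, Lib.H59C.CDL, Lib.H59C.BV1C, Lib.H59C.RW3, Lib.H59C.RW2, Lib.H59C.SAP, Lib.H59C.UVE, Lib.H59C.UVF. -/

-- from Lib.GoldbachGraph.Codegree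
section

/-!
# Upper bound for codegrees in the Goldbach graph

Vertices are written `x` for the even number `2 x`; two distinct vertices `x, u` are adjacent
when `x + u` and `|x - u|` are odd primes.
-/

namespace Pool.Agent.Lib.GoldbachGraph

open Finset Pool.Agent.Lib.Sieve

/-- Halved adjacency: `x + u` and `|x - u|` are odd primes. -/
def hadj (x u : ℕ) : Prop :=
  (x + u).Prime ∧ Odd (x + u) ∧ (Nat.dist x u).Prime ∧ Odd (Nat.dist x u)

instance (x u : ℕ) : Decidable (hadj x u) := by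
  unfold hadj
  infer_instance

theorem hadj_comm (x u : ℕ) : hadj x u ↔ hadj u x := by
  unfold hadj
  rw [add_comm x u, Nat.dist_comm x u]


/-- The weight `(1 - 1/p)^{-4}` for `p > 10`, and `1` otherwise. -/
noncomputable def g4 (p : ℕ) : ℝ := if 10 < p then ((1 - 1 / (p : ℝ)) ^ 4)⁻¹ else 1


/-- `G m = ∏_{p ∣ m, p > 10} (1 - 1/p)^{-4}`. -/
noncomputable def G (m : ℕ) : ℝ := ∏ p ∈ m.primeFactors, g4 p









end Pool.Agent.Lib.GoldbachGraph
end

-- from Lib.GoldbachGraph.Moments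
section

/-!
# Moments of codegrees in the Goldbach graph
-/

namespace Pool.Agent.Lib.GoldbachGraph

open Finset Filter Pool.Agent.Lib.Sieve



/-- The constant bounding the average of `G ^ 8`. -/
noncomputable def CG : ℝ := Real.exp (64 * Real.exp 6 * ∑' n : ℕ, 1 / (n : ℝ) ^ 2)




/-- `S N = ∑_{m ≤ N} G m ^ 8`. -/
noncomputable def SG (N : ℕ) : ℝ := ∑ m ∈ Finset.range (N + 1), G m ^ 8








/-- The constant of the second moment. -/
noncomputable def C2 : ℝ := 1 + (1875 * 1636 ^ 4 + 1) ^ 2 * (6 * (1 + CG))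



end Pool.Agent.Lib.GoldbachGraph
end

-- from Lib.GoldbachGraph.Proportion
section

/-!
# A positive proportion of pairs have a common neighbour
-/

namespace Pool.Agent.Lib.GoldbachGraph

open Finset Filter Pool.Agent.Lib.Sieve

/-- Degree inside `[1, n]`. -/
def hdeg (n x : ℕ) : ℕ := ((Finset.Icc 1 n).filter fun u => hadj x u).card










/-- The proportion of good pairs. -/
noncomputable def c0 : ℝ := 1 / (1024 ^ 2 * C2)




end Pool.Agent.Lib.GoldbachGraph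
end

-- from Lib.H18E.Defs
section

/-!
# Project H18E (MP_443e5f_co): tiny exceptional sets for the Goldbach graphs

Everything is stated for halved vertices: `X ~ Y` iff `X + Y` and `|X - Y|` are odd primes (`hadj`),
`hdeg n X` is the number of neighbours of `X` in `[1, n]`, `SE X = ∏_{p ∣ X, p > 2} (p-1)/(p-2)`.

Target: for every `a < 1/2` and all large `n` there is a set `Γ` of all but `n exp (-(log n)^a)`
vertices, containing all vertices of degree at least `n exp (-(log n)^a)`, whose elements are pairwise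
at distance at most `11`.
-/

open Finset Pool.Agent.Lib.H68T

namespace Pool.Agent.Lib.H18E

noncomputable section

/-- The structured model of the primes in a class on which the exceptional character is `ε`
(`ε = 0`: no exceptional character). It is even in `m`; for `m > 0` it is `Mod Q r ε β m`. -/
def MM (Q r : ℕ) (ε β : ℝ) (m : ℤ) : ℝ := G Q m - ε * |(m : ℝ)| ^ (β - 1) * Gam Q r m

/-- Rankin's factor `∏_{p ∣ D} (1 + √p/(p-1))`. -/
def Rk (D : ℤ) : ℝ := ∏ p ∈ D.natAbs.primeFactors, (1 + Real.sqrt p / ((p : ℝ) - 1))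

/-- `∏_{p ∣ D, p ∤ W} (1 + 1/(p-1))`. -/
def Gp (W : ℕ) (D : ℤ) : ℝ :=
  ∏ p ∈ D.natAbs.primeFactors.filter (fun p => ¬ p ∣ W), (1 + 1 / ((p : ℝ) - 1))


/-- The index of the second prime: increasing (`σ = true`, differences) or decreasing
(`σ = false`, sums). -/
def ix (H : ℕ) (σ : Bool) (t c : ℕ) : ℕ := bif σ then t + c else t + (H - 1 - c)

/-- The difference `m - m'` (`σ = true`) resp. the sum `m + m'` (`σ = false`) of the two primes
`m = u + r (s + c)`, `m' = v + r (ix H σ t c)`. -/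
def dd (H r : ℕ) (σ : Bool) (u v s t : ℕ) : ℤ :=
  bif σ then ((u : ℤ) + r * s) - (v + r * t) else ((u : ℤ) + r * s) + (v + r * (t + (H - 1 : ℕ)))

/-- The arithmetic factor `∏_{p ∣ x, p > 2} (p-1)/(p-2)` of Hardy and Littlewood (the same as
`Pool.Agent.Lib.H18GB.SH`). -/
def SE (x : ℕ) : ℝ :=
  ∏ p ∈ x.primeFactors.filter (fun p => 2 < p), (((p : ℝ) - 1) / (p - 2))

/-- The classes modulo `r` compatible with `x`. -/
def compat (r x : ℕ) : Finset ℕ :=
  open Classical in (range r).filter (fun y => IsCoprime ((x : ℤ) + y) r ∧ IsCoprime ((x : ℤ) - y) r)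


end

end Pool.Agent.Lib.H18E
end

-- from Lib.H68T.CG1
section

/-!
# Chunk CG1: correlations of the model `G` along a class
-/

open Finset

namespace Pool.Agent.Lib.H68T

/-! ### Counting -/

theorem cg1_count_mod (M L v : ℕ) (hL : 0 < L) :
    |((((range M).filter (fun c => c ≡ v [MOD L])).card : ℕ) : ℝ) - (M : ℝ) / L| ≤ 1 := by
  rw [← Nat.count_eq_card_filter_range, Nat.count_modEq_card _ hL]
  have hL' : (0 : ℝ) < L := by exact_mod_cast hL
  have h1 : (M : ℝ) / L = ((M / L : ℕ) : ℝ) + ((M % L : ℕ) : ℝ) / L := by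
    have : (M : ℝ) = ((L * (M / L) + M % L : ℕ) : ℝ) := by rw [Nat.div_add_mod]
    rw [this]
    push_cast
    field_simp
  have h2 : ((M % L : ℕ) : ℝ) / L < 1 := by
    rw [div_lt_one hL']
    exact_mod_cast Nat.mod_lt _ hL
  have h3 : 0 ≤ ((M % L : ℕ) : ℝ) / L := by positivity
  rw [h1, Nat.cast_add, abs_le]
  split_ifs <;> constructor <;> push_cast <;> linarith

theorem cg1_count (d₁ d₂ W b s s' M : ℕ) (hd₁ : 0 < d₁) (hd₂ : 0 < d₂)
    (h₁ : Nat.Coprime d₁ W) (h₂ : Nat.Coprime d₂ W) :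
    |((((range M).filter (fun c : ℕ => (d₁ : ℤ) ∣ (b : ℤ) + W * (s + c : ℕ) ∧
      (d₂ : ℤ) ∣ (b : ℤ) + W * (s' + c : ℕ))).card : ℕ) : ℝ) -
      (if ((Nat.gcd d₁ d₂ : ℕ) : ℤ) ∣ (s : ℤ) - s' then
        (M : ℝ) * (Nat.gcd d₁ d₂ : ℝ) / ((d₁ : ℝ) * d₂) else 0)| ≤ 1 := by
  have hc₁ : IsCoprime (d₁ : ℤ) (W : ℤ) := Nat.isCoprime_iff_coprime.mpr h₁
  have hc₂ : IsCoprime (d₂ : ℤ) (W : ℤ) := Nat.isCoprime_iff_coprime.mpr h₂
  by_cases hex : ∃ c₀ : ℕ, (d₁ : ℤ) ∣ (b : ℤ) + W * (s + c₀ : ℕ) ∧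
      (d₂ : ℤ) ∣ (b : ℤ) + W * (s' + c₀ : ℕ)
  · obtain ⟨c₀, e₁, e₂⟩ := hex
    have hg : ((Nat.gcd d₁ d₂ : ℕ) : ℤ) ∣ (s : ℤ) - s' := by
      have hg1 : ((Nat.gcd d₁ d₂ : ℕ) : ℤ) ∣ (d₁ : ℤ) :=
        Int.natCast_dvd_natCast.mpr (Nat.gcd_dvd_left _ _)
      have hg2 : ((Nat.gcd d₁ d₂ : ℕ) : ℤ) ∣ (d₂ : ℤ) :=
        Int.natCast_dvd_natCast.mpr (Nat.gcd_dvd_right _ _)
      have h3 : ((Nat.gcd d₁ d₂ : ℕ) : ℤ) ∣ (W : ℤ) * ((s : ℤ) - s') := by
        have := dvd_sub (hg1.trans e₁) (hg2.trans e₂)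
        have h4 : (b : ℤ) + W * (s + c₀ : ℕ) - ((b : ℤ) + W * (s' + c₀ : ℕ)) =
            (W : ℤ) * ((s : ℤ) - s') := by push_cast; ring
        rwa [h4] at this
      exact (IsCoprime.of_isCoprime_of_dvd_left hc₁ hg1).dvd_of_dvd_mul_left h3
    rw [if_pos hg]
    have hset : (range M).filter (fun c : ℕ => (d₁ : ℤ) ∣ (b : ℤ) + W * (s + c : ℕ) ∧
        (d₂ : ℤ) ∣ (b : ℤ) + W * (s' + c : ℕ)) =
        (range M).filter (fun c => c ≡ c₀ [MOD (Nat.lcm d₁ d₂)]) := by
      apply filter_congr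
      intro c _
      have key : ∀ (d t : ℕ), IsCoprime (d : ℤ) (W : ℤ) → (d : ℤ) ∣ (b : ℤ) + W * (t + c₀ : ℕ) →
          ((d : ℤ) ∣ (b : ℤ) + W * (t + c : ℕ) ↔ (d : ℤ) ∣ (c : ℤ) - c₀) := by
        intro d t hc hd
        have h5 : (b : ℤ) + W * (t + c : ℕ) = ((b : ℤ) + W * (t + c₀ : ℕ)) +
            (W : ℤ) * ((c : ℤ) - c₀) := by push_cast; ring
        rw [h5, dvd_add_right hd]
        exact ⟨fun h => hc.dvd_of_dvd_mul_left h, fun h => dvd_mul_of_dvd_right h _⟩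
      rw [key d₁ s hc₁ e₁, key d₂ s' hc₂ e₂, Nat.ModEq.comm, ← Int.natCast_modEq_iff,
        Int.modEq_iff_dvd]
      rw [Int.natCast_dvd, Int.natCast_dvd, Int.natCast_dvd, Nat.lcm_dvd_iff]
    rw [hset]
    have hl : 0 < Nat.lcm d₁ d₂ := Nat.lcm_pos hd₁ hd₂
    have h6 := cg1_count_mod M (Nat.lcm d₁ d₂) c₀ hl
    have h7 : (M : ℝ) * (Nat.gcd d₁ d₂ : ℝ) / ((d₁ : ℝ) * d₂) = (M : ℝ) / (Nat.lcm d₁ d₂ : ℕ) := by
      have h8 : ((d₁ : ℝ) * d₂) = (Nat.gcd d₁ d₂ : ℝ) * (Nat.lcm d₁ d₂ : ℕ) := by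
        exact_mod_cast (Nat.gcd_mul_lcm d₁ d₂).symm
      have h9 : (0 : ℝ) < (Nat.gcd d₁ d₂ : ℝ) := by
        exact_mod_cast Nat.gcd_pos_of_pos_left _ hd₁
      have h10 : (0 : ℝ) < (Nat.lcm d₁ d₂ : ℕ) := by exact_mod_cast hl
      rw [h8]
      field_simp
    rw [h7]
    exact h6
  · have hg : ¬ ((Nat.gcd d₁ d₂ : ℕ) : ℤ) ∣ (s : ℤ) - s' := by
      rintro ⟨t, ht⟩
      apply hex
      have hcc : IsCoprime ((d₁ : ℤ) * d₂) (W : ℤ) := hc₁.mul_left hc₂
      obtain ⟨x, u, hu⟩ := hcc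
      -- x * (d₁ d₂) + u * W = 1
      have hbz := Nat.gcd_eq_gcd_ab d₁ d₂
      set y₁ := Nat.gcdA d₁ d₂
      set y₂ := Nat.gcdB d₁ d₂
      set c : ℤ := -(b * u) - s + d₁ * y₁ * t with hc
      have hpos : (0 : ℤ) < (d₁ : ℤ) * d₂ := by positivity
      refine ⟨(c % ((d₁ : ℤ) * d₂)).toNat, ?_, ?_⟩
      · have hcn : ((c % ((d₁ : ℤ) * d₂)).toNat : ℤ) = c - ((d₁ : ℤ) * d₂) * (c / ((d₁ : ℤ) * d₂)) := by
          rw [Int.toNat_of_nonneg (Int.emod_nonneg _ hpos.ne')]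
          exact Int.emod_def _ _
        have : (b : ℤ) + W * (s + (c % ((d₁ : ℤ) * d₂)).toNat : ℕ) =
            d₁ * (b * x * d₂ + W * y₁ * t - W * d₂ * (c / ((d₁ : ℤ) * d₂))) := by
          rw [Nat.cast_add, hcn]
          have : (b : ℤ) = b * (x * (d₁ * d₂) + u * W) := by rw [hu]; ring
          linear_combination this + W * hc
        rw [this]
        exact dvd_mul_right _ _
      · have hcn : ((c % ((d₁ : ℤ) * d₂)).toNat : ℤ) = c - ((d₁ : ℤ) * d₂) * (c / ((d₁ : ℤ) * d₂)) := by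
          rw [Int.toNat_of_nonneg (Int.emod_nonneg _ hpos.ne')]
          exact Int.emod_def _ _
        have : (b : ℤ) + W * (s' + (c % ((d₁ : ℤ) * d₂)).toNat : ℕ) =
            d₂ * (b * x * d₁ - W * y₂ * t - W * d₁ * (c / ((d₁ : ℤ) * d₂))) := by
          rw [Nat.cast_add, hcn]
          have h0 : (b : ℤ) = b * (x * (d₁ * d₂) + u * W) := by rw [hu]; ring
          linear_combination h0 + W * hc - W * ht - W * t * hbz
        rw [this]
        exact dvd_mul_right _ _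
    rw [if_neg hg]
    have hempty : (range M).filter (fun c : ℕ => (d₁ : ℤ) ∣ (b : ℤ) + W * (s + c : ℕ) ∧
        (d₂ : ℤ) ∣ (b : ℤ) + W * (s' + c : ℕ)) = ∅ := by
      rw [filter_eq_empty_iff]
      intro c _ h
      exact hex ⟨c, h⟩
    rw [hempty]
    simp

/-! ### Möbius inversion -/

theorem cg1_moebius (f g : ℕ → ℝ) (h : ∀ n > 0, ∑ i ∈ n.divisors, f i = g n) (n : ℕ) (hn : 0 < n) :
    ∑ d ∈ n.divisors, (ArithmeticFunction.moebius (n / d) : ℝ) * g d = f n := by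
  have h1 := (ArithmeticFunction.sum_eq_iff_sum_mul_moebius_eq.mp h) n hn
  rw [Nat.sum_divisorsAntidiagonal' (fun i j => (ArithmeticFunction.moebius i : ℝ) * g j)] at h1
  exact h1

theorem cg1_indicator (e n : ℕ) (hn : 0 < n) :
    ∑ d ∈ n.divisors, (ArithmeticFunction.moebius (n / d) : ℝ) * (if e ∣ d then 1 else 0) =
      if n = e then 1 else 0 := by
  apply cg1_moebius (fun i => if i = e then 1 else 0) (fun d => if e ∣ d then 1 else 0) _ n hn
  intro m hm
  rw [sum_ite_eq' m.divisors e (fun _ => (1 : ℝ))]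
  simp [Nat.mem_divisors, hm.ne']

theorem cg1_cq_sum (n : ℕ) (hn : 0 < n) (D : ℤ) :
    ∑ e ∈ n.divisors, cq e D = if (n : ℤ) ∣ D then (n : ℝ) else 0 := by
  revert n
  rw [ArithmeticFunction.sum_eq_iff_sum_mul_moebius_eq
    (f := fun e => cq e D) (g := fun n : ℕ => if (n : ℤ) ∣ D then (n : ℝ) else 0)]
  intro n hn
  rw [Nat.sum_divisorsAntidiagonal' (fun i j : ℕ => (ArithmeticFunction.moebius i : ℝ) *
    (if (j : ℤ) ∣ D then (j : ℝ) else 0))]
  unfold cq
  rw [sum_filter]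
  apply sum_congr rfl
  intro d _
  split_ifs <;> ring

theorem cg1_pair_sum (r₁ r₂ : ℕ) (h₁ : 0 < r₁) (h₂ : 0 < r₂) (D : ℤ) :
    ∑ d₁ ∈ r₁.divisors, ∑ d₂ ∈ r₂.divisors, (ArithmeticFunction.moebius (r₁ / d₁) : ℝ) *
      (ArithmeticFunction.moebius (r₂ / d₂) : ℝ) *
      (if ((Nat.gcd d₁ d₂ : ℕ) : ℤ) ∣ D then (Nat.gcd d₁ d₂ : ℝ) else 0) =
    if r₁ = r₂ then cq r₁ D else 0 := by
  have hexp : ∀ d₁ ∈ r₁.divisors, ∀ d₂ ∈ r₂.divisors,
      (if ((Nat.gcd d₁ d₂ : ℕ) : ℤ) ∣ D then (Nat.gcd d₁ d₂ : ℝ) else 0) =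
      ∑ e ∈ r₁.divisors, cq e D * (if e ∣ d₁ then 1 else 0) * (if e ∣ d₂ then 1 else 0) := by
    intro d₁ hd₁ d₂ hd₂
    have hd₁' : 0 < d₁ := Nat.pos_of_mem_divisors hd₁
    rw [← cg1_cq_sum (Nat.gcd d₁ d₂) (Nat.gcd_pos_of_pos_left _ hd₁') D]
    have hsub : (Nat.gcd d₁ d₂).divisors = r₁.divisors.filter (fun e => e ∣ d₁ ∧ e ∣ d₂) := by
      ext e
      simp only [Nat.mem_divisors, mem_filter, Nat.dvd_gcd_iff]
      constructor
      · rintro ⟨⟨a, b⟩, -⟩
        exact ⟨⟨a.trans (Nat.dvd_of_mem_divisors hd₁), h₁.ne'⟩, a, b⟩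
      · rintro ⟨-, a, b⟩
        exact ⟨⟨a, b⟩, (Nat.gcd_pos_of_pos_left _ hd₁').ne'⟩
    rw [hsub, sum_filter]
    apply sum_congr rfl
    intro e _
    by_cases a : e ∣ d₁ <;> by_cases b : e ∣ d₂ <;> simp [a, b]
  calc ∑ d₁ ∈ r₁.divisors, ∑ d₂ ∈ r₂.divisors, (ArithmeticFunction.moebius (r₁ / d₁) : ℝ) *
      (ArithmeticFunction.moebius (r₂ / d₂) : ℝ) *
      (if ((Nat.gcd d₁ d₂ : ℕ) : ℤ) ∣ D then (Nat.gcd d₁ d₂ : ℝ) else 0)
      = ∑ d₁ ∈ r₁.divisors, ∑ d₂ ∈ r₂.divisors, ∑ e ∈ r₁.divisors,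
        (ArithmeticFunction.moebius (r₁ / d₁) : ℝ) *
        (ArithmeticFunction.moebius (r₂ / d₂) : ℝ) *
        (cq e D * (if e ∣ d₁ then 1 else 0) * (if e ∣ d₂ then 1 else 0)) := by
        apply sum_congr rfl
        intro d₁ hd₁
        apply sum_congr rfl
        intro d₂ hd₂
        rw [hexp d₁ hd₁ d₂ hd₂, mul_sum]
    _ = ∑ e ∈ r₁.divisors, cq e D *
        ((∑ d₁ ∈ r₁.divisors, (ArithmeticFunction.moebius (r₁ / d₁) : ℝ) * (if e ∣ d₁ then 1 else 0)) *
        (∑ d₂ ∈ r₂.divisors, (ArithmeticFunction.moebius (r₂ / d₂) : ℝ) *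
          (if e ∣ d₂ then 1 else 0))) := by
        rw [sum_congr rfl (fun d₁ _ => sum_comm), sum_comm]
        apply sum_congr rfl
        intro e _
        rw [sum_mul_sum, mul_sum]
        apply sum_congr rfl
        intro d₁ _
        rw [mul_sum]
        apply sum_congr rfl
        intro d₂ _
        ring
    _ = ∑ e ∈ r₁.divisors, cq e D * ((if r₁ = e then 1 else 0) * (if r₂ = e then 1 else 0)) := by
        apply sum_congr rfl
        intro e _
        rw [cg1_indicator e r₁ h₁, cg1_indicator e r₂ h₂]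
    _ = if r₁ = r₂ then cq r₁ D else 0 := by
        rw [sum_eq_single r₁]
        · by_cases h : r₁ = r₂
          · simp [h]
          · simp [h, Ne.symm h]
        · intro e _ he
          simp [Ne.symm he]
        · intro h
          exact absurd (Nat.mem_divisors_self r₁ h₁.ne') h

/-! ### Correlations of Ramanujan sums along a class -/

theorem cg1_abs_moebius_le (n : ℕ) : |(ArithmeticFunction.moebius n : ℝ)| ≤ 1 := by
  exact_mod_cast ArithmeticFunction.abs_moebius_le_one (n := n)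

theorem cg1_corr (r₁ r₂ W b s s' M : ℕ) (h₁ : 0 < r₁) (h₂ : 0 < r₂)
    (c₁ : Nat.Coprime r₁ W) (c₂ : Nat.Coprime r₂ W) :
    |∑ c ∈ range M, cq r₁ ((b : ℤ) + W * (s + c : ℕ)) * cq r₂ ((b : ℤ) + W * (s' + c : ℕ)) -
      M * (if r₁ = r₂ then cq r₁ ((s : ℤ) - s') else 0)| ≤
      (∑ d ∈ r₁.divisors, (d : ℝ)) * ∑ d ∈ r₂.divisors, (d : ℝ) := by
  have hA : ∑ c ∈ range M, cq r₁ ((b : ℤ) + W * (s + c : ℕ)) * cq r₂ ((b : ℤ) + W * (s' + c : ℕ)) =
      ∑ d₁ ∈ r₁.divisors, ∑ d₂ ∈ r₂.divisors, (ArithmeticFunction.moebius (r₁ / d₁) : ℝ) *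
      (ArithmeticFunction.moebius (r₂ / d₂) : ℝ) * ((d₁ : ℝ) * d₂) *
      ((((range M).filter (fun c : ℕ => (d₁ : ℤ) ∣ (b : ℤ) + W * (s + c : ℕ) ∧
      (d₂ : ℤ) ∣ (b : ℤ) + W * (s' + c : ℕ))).card : ℕ) : ℝ) := by
    have h3 : ∀ c ∈ range M, cq r₁ ((b : ℤ) + W * (s + c : ℕ)) * cq r₂ ((b : ℤ) + W * (s' + c : ℕ)) =
        ∑ d₁ ∈ r₁.divisors, ∑ d₂ ∈ r₂.divisors, (ArithmeticFunction.moebius (r₁ / d₁) : ℝ) *
        (ArithmeticFunction.moebius (r₂ / d₂) : ℝ) * ((d₁ : ℝ) * d₂) *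
        (if (d₁ : ℤ) ∣ (b : ℤ) + W * (s + c : ℕ) ∧
          (d₂ : ℤ) ∣ (b : ℤ) + W * (s' + c : ℕ) then 1 else 0) := by
      intro c _
      unfold cq
      rw [sum_filter, sum_filter, sum_mul_sum]
      apply sum_congr rfl
      intro d₁ _
      apply sum_congr rfl
      intro d₂ _
      by_cases a : (d₁ : ℤ) ∣ (b : ℤ) + W * (s + c : ℕ) <;>
        by_cases a' : (d₂ : ℤ) ∣ (b : ℤ) + W * (s' + c : ℕ)
      · rw [if_pos a, if_pos a', if_pos ⟨a, a'⟩]; ring
      · rw [if_neg a', mul_zero, if_neg (fun h : _ ∧ _ => a' h.2), mul_zero]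
      · rw [if_neg a, zero_mul, if_neg (fun h : _ ∧ _ => a h.1), mul_zero]
      · rw [if_neg a, zero_mul, if_neg (fun h : _ ∧ _ => a h.1), mul_zero]
    rw [sum_congr rfl h3, sum_comm]
    apply sum_congr rfl
    intro d₁ _
    rw [sum_comm]
    apply sum_congr rfl
    intro d₂ _
    rw [← mul_sum, card_filter]
    push_cast
    rfl
  have hB : (M : ℝ) * (if r₁ = r₂ then cq r₁ ((s : ℤ) - s') else 0) =
      ∑ d₁ ∈ r₁.divisors, ∑ d₂ ∈ r₂.divisors, (ArithmeticFunction.moebius (r₁ / d₁) : ℝ) *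
      (ArithmeticFunction.moebius (r₂ / d₂) : ℝ) * ((d₁ : ℝ) * d₂) *
      (if ((Nat.gcd d₁ d₂ : ℕ) : ℤ) ∣ (s : ℤ) - s' then
        (M : ℝ) * (Nat.gcd d₁ d₂ : ℝ) / ((d₁ : ℝ) * d₂) else 0) := by
    rw [← cg1_pair_sum r₁ r₂ h₁ h₂, mul_sum]
    apply sum_congr rfl
    intro d₁ hd₁
    rw [mul_sum]
    apply sum_congr rfl
    intro d₂ hd₂
    have e₁ : (0 : ℝ) < d₁ := by exact_mod_cast Nat.pos_of_mem_divisors hd₁
    have e₂ : (0 : ℝ) < d₂ := by exact_mod_cast Nat.pos_of_mem_divisors hd₂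
    split_ifs
    · field_simp
    · ring
  rw [hA, hB, ← sum_sub_distrib, sum_mul_sum]
  refine (abs_sum_le_sum_abs _ _).trans (sum_le_sum fun d₁ hd₁ => ?_)
  rw [← sum_sub_distrib]
  refine (abs_sum_le_sum_abs _ _).trans (sum_le_sum fun d₂ hd₂ => ?_)
  rw [← mul_sub, abs_mul, abs_mul, abs_mul]
  have e₁ : 0 < d₁ := Nat.pos_of_mem_divisors hd₁
  have e₂ : 0 < d₂ := Nat.pos_of_mem_divisors hd₂
  have i₁ : Nat.Coprime d₁ W := Nat.Coprime.coprime_dvd_left (Nat.dvd_of_mem_divisors hd₁) c₁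
  have i₂ : Nat.Coprime d₂ W := Nat.Coprime.coprime_dvd_left (Nat.dvd_of_mem_divisors hd₂) c₂
  have h5 := cg1_count d₁ d₂ W b s s' M e₁ e₂ i₁ i₂
  have h6 : |(d₁ : ℝ) * d₂| = (d₁ : ℝ) * d₂ := abs_of_nonneg (by positivity)
  rw [h6]
  have h7 := cg1_abs_moebius_le (r₁ / d₁)
  have h8 := cg1_abs_moebius_le (r₂ / d₂)
  have h9 : |(ArithmeticFunction.moebius (r₁ / d₁) : ℝ)| *
      |(ArithmeticFunction.moebius (r₂ / d₂) : ℝ)| ≤ 1 :=
    mul_le_one₀ h7 (abs_nonneg _) h8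
  calc _ ≤ 1 * ((d₁ : ℝ) * d₂) * 1 := by
        apply mul_le_mul _ h5 (abs_nonneg _) (by positivity)
        exact mul_le_mul_of_nonneg_right h9 (by positivity)
    _ = (d₁ : ℝ) * d₂ := by ring







/-! ### Bounds -/

theorem cg1_totient_squarefree {q : ℕ} (hq : Squarefree q) :
    Nat.totient q = ∏ p ∈ q.primeFactors, (p - 1) := by
  have h1 := Nat.totient_mul_prod_primeFactors q
  rw [Nat.prod_primeFactors_of_squarefree hq, mul_comm] at h1
  exact Nat.eq_of_mul_eq_mul_left (Nat.pos_of_ne_zero hq.ne_zero) h1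

theorem cg1_totient_squarefree_real {q : ℕ} (hq : Squarefree q) :
    (Nat.totient q : ℝ) = ∏ p ∈ q.primeFactors, ((p : ℝ) - 1) := by
  rw [cg1_totient_squarefree hq]
  push_cast
  apply prod_congr rfl
  intro p hp
  rw [Nat.cast_sub (Nat.prime_of_mem_primeFactors hp).one_lt.le]
  simp

theorem cg1_sigma_le {q : ℕ} (hq : Squarefree q) :
    ∑ d ∈ q.divisors, (d : ℝ) ≤ 3 / 2 * (q : ℝ) * (Nat.totient q : ℝ) := by
  have h1 : ∑ d ∈ q.divisors, (d : ℝ) = ∏ p ∈ q.primeFactors, (1 + (p : ℝ)) := by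
    have := ArithmeticFunction.isMultiplicative_id.prodPrimeFactors_one_add_of_squarefree hq
    simp only [ArithmeticFunction.id_apply] at this
    have h := congrArg (fun n : ℕ => (n : ℝ)) this.symm
    push_cast at h
    exact h
  have h2 : (q : ℝ) = ∏ p ∈ q.primeFactors, (p : ℝ) := by
    have h := congrArg (fun n : ℕ => (n : ℝ)) (Nat.prod_primeFactors_of_squarefree hq).symm
    push_cast at h
    exact h
  have h3 : ∏ p ∈ q.primeFactors, (if p = 2 then (3 / 2 : ℝ) else 1) ≤ 3 / 2 := by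
    rw [prod_ite_eq' q.primeFactors 2 (fun _ => (3 / 2 : ℝ))]
    split_ifs <;> norm_num
  calc ∑ d ∈ q.divisors, (d : ℝ) = ∏ p ∈ q.primeFactors, (1 + (p : ℝ)) := h1
    _ ≤ ∏ p ∈ q.primeFactors, ((if p = 2 then (3 / 2 : ℝ) else 1) * (p : ℝ) * ((p : ℝ) - 1)) := by
        apply prod_le_prod
        · intro p _
          positivity
        · intro p hp
          have hp' := Nat.prime_of_mem_primeFactors hp
          split_ifs with h
          · subst h
            norm_num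
          · have h4 : 3 ≤ p := by
              have := hp'.two_le
              omega
            have h5 : (3 : ℝ) ≤ p := by exact_mod_cast h4
            nlinarith
    _ = (∏ p ∈ q.primeFactors, (if p = 2 then (3 / 2 : ℝ) else 1)) * (q : ℝ) *
        (Nat.totient q : ℝ) := by
        rw [prod_mul_distrib, prod_mul_distrib, ← h2, ← cg1_totient_squarefree_real hq]
    _ ≤ 3 / 2 * (q : ℝ) * (Nat.totient q : ℝ) := by
        apply mul_le_mul_of_nonneg_right _ (by positivity)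
        exact mul_le_mul_of_nonneg_right h3 (by positivity)

theorem cg1_sum_sigma (Q : ℕ) :
    ∑ q ∈ Icc 1 Q, (if Squarefree q then (∑ d ∈ q.divisors, (d : ℝ)) / (Nat.totient q : ℝ)
      else 0) ≤ (Q : ℝ) ^ 2 := by
  induction Q with
  | zero => simp
  | succ n ih =>
    rw [sum_Icc_succ_top (by omega)]
    rcases Nat.eq_zero_or_pos n with h0 | h0
    · subst h0
      simp
    have hn : (1 : ℝ) ≤ n := by exact_mod_cast h0
    have h1 : (if Squarefree (n + 1) then (∑ d ∈ (n + 1).divisors, (d : ℝ)) /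
        (Nat.totient (n + 1) : ℝ) else 0) ≤ 2 * n + 1 := by
      split_ifs with h
      · have h2 := cg1_sigma_le h
        have h3 : (0 : ℝ) < (Nat.totient (n + 1) : ℝ) := by
          exact_mod_cast Nat.totient_pos.mpr (Nat.succ_pos n)
        rw [div_le_iff₀ h3]
        refine h2.trans ?_
        apply mul_le_mul_of_nonneg_right _ h3.le
        push_cast
        linarith
      · linarith
    push_cast
    nlinarith



theorem cg1_T_full (W : ℕ) (hW : 0 < W) :
    ∑ w ∈ W.divisors, (ArithmeticFunction.moebius w : ℝ) ^ 2 / (Nat.totient w : ℝ) =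
      (W : ℝ) / (Nat.totient W : ℝ) := by
  set W' := ∏ p ∈ W.primeFactors, p with hW'
  have hW'W : W' ∣ W := Nat.prod_primeFactors_dvd W
  have hpf : ∀ p ∈ W.primeFactors, p.Prime := fun p hp => Nat.prime_of_mem_primeFactors hp
  have hpf' : W'.primeFactors = W.primeFactors := Nat.primeFactors_prod hpf
  have hsq : Squarefree W' := by
    refine Finset.squarefree_prod_of_pairwise_isCoprime (fun p hp q hq hpq => ?_)
      (fun p hp => (hpf p hp).prime.squarefree)
    simp only [Function.onFun, ← Nat.coprime_iff_isRelPrime]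
    exact (Nat.coprime_primes (hpf p hp) (hpf q hq)).mpr hpq
  have hset : W.divisors.filter (fun w => Squarefree w) = W'.divisors := by
    ext w
    simp only [mem_filter, Nat.mem_divisors]
    constructor
    · rintro ⟨⟨h1, -⟩, h2⟩
      refine ⟨?_, hsq.ne_zero⟩
      rw [← Nat.prod_primeFactors_of_squarefree h2]
      exact Finset.prod_dvd_prod_of_subset _ _ _ (Nat.primeFactors_mono h1 hW.ne')
    · rintro ⟨h1, -⟩
      exact ⟨⟨h1.trans hW'W, hW.ne'⟩, hsq.squarefree_of_dvd h1⟩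
  have h1 : ∑ w ∈ W.divisors, (ArithmeticFunction.moebius w : ℝ) ^ 2 / (Nat.totient w : ℝ) =
      ∑ w ∈ W'.divisors, 1 / (Nat.totient w : ℝ) := by
    rw [← hset, sum_filter]
    apply sum_congr rfl
    intro w _
    split_ifs with h
    · have : (ArithmeticFunction.moebius w : ℝ) ^ 2 = 1 := by
        exact_mod_cast ArithmeticFunction.moebius_sq_eq_one_of_squarefree h
      rw [this]
    · rw [ArithmeticFunction.moebius_eq_zero_of_not_squarefree h]
      simp
  have h2 : ∑ w ∈ W'.divisors, 1 / (Nat.totient w : ℝ) =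
      ∏ p ∈ W.primeFactors, (1 + 1 / ((p : ℝ) - 1)) := by
    let f : ArithmeticFunction ℝ := ⟨fun n => 1 / (Nat.totient n : ℝ), by simp⟩
    have hf : f.IsMultiplicative := by
      refine ⟨by simp [f], fun {m n} hmn => ?_⟩
      simp only [f, ArithmeticFunction.coe_mk]
      rw [Nat.totient_mul hmn]
      push_cast
      rw [one_div_mul_one_div]
    have h3 := hf.prodPrimeFactors_one_add_of_squarefree hsq
    rw [hpf'] at h3
    rw [show ∑ w ∈ W'.divisors, 1 / (Nat.totient w : ℝ) = ∑ w ∈ W'.divisors, f w from rfl, ← h3]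
    apply prod_congr rfl
    intro p hp
    have hp' := hpf p hp
    simp only [f, ArithmeticFunction.coe_mk]
    rw [Nat.totient_prime hp', Nat.cast_sub hp'.one_lt.le]
    simp
  rw [h1, h2]
  have hφ : (0 : ℝ) < (Nat.totient W : ℝ) := by exact_mod_cast Nat.totient_pos.mpr hW
  rw [eq_div_iff hφ.ne']
  have h4 := congrArg (fun n : ℕ => (n : ℝ)) (Nat.totient_mul_prod_primeFactors W)
  push_cast at h4
  have h5 : ((∏ p ∈ W.primeFactors, ((p - 1 : ℕ) : ℝ))) =
      ∏ p ∈ W.primeFactors, ((p : ℝ) - 1) := by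
    apply prod_congr rfl
    intro p hp
    rw [Nat.cast_sub (hpf p hp).one_lt.le]
    simp
  rw [h5] at h4
  have h6 : (∏ p ∈ W.primeFactors, (1 + 1 / ((p : ℝ) - 1))) * ∏ p ∈ W.primeFactors, ((p : ℝ) - 1) =
      ∏ p ∈ W.primeFactors, (p : ℝ) := by
    rw [← prod_mul_distrib]
    apply prod_congr rfl
    intro p hp
    have : (1 : ℝ) < p := by exact_mod_cast (hpf p hp).one_lt
    have : (p : ℝ) - 1 ≠ 0 := by linarith
    field_simp
    ring
  have h7 : (0 : ℝ) < ∏ p ∈ W.primeFactors, ((p : ℝ) - 1) := by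
    apply prod_pos
    intro p hp
    have : (1 : ℝ) < p := by exact_mod_cast (hpf p hp).one_lt
    linarith
  have h8 : ((∏ p ∈ W.primeFactors, (1 + 1 / ((p : ℝ) - 1))) * (Nat.totient W : ℝ)) *
      ∏ p ∈ W.primeFactors, ((p : ℝ) - 1) = (W : ℝ) * ∏ p ∈ W.primeFactors, ((p : ℝ) - 1) := by
    rw [← h4, ← h6]
    ring
  exact mul_right_cancel₀ h7.ne' h8






theorem cg1_class_coprime {W b : ℕ} (hb : Nat.Coprime b W) (t : ℕ) :
    IsCoprime ((b : ℤ) + W * (t : ℕ)) (W : ℤ) := by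
  have h : IsCoprime (b : ℤ) (W : ℤ) := Nat.isCoprime_iff_coprime.mpr hb
  exact IsCoprime.add_mul_left_left h _


end Pool.Agent.Lib.H68T
end

-- from Lib.H18E.PG
section

/-!
# Chunk PG: weighted correlations of Ramanujan sums along a progression
-/

open Finset Pool.Agent.Lib.H68T

namespace Pool.Agent.Lib.H18E

theorem pg_cq_congr {q : ℕ} {m m' : ℤ} (h : (q : ℤ) ∣ m - m') : cq q m = cq q m' := by
  unfold cq
  refine sum_congr (filter_congr fun d hd => ?_) fun _ _ => rfl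
  have hdq : (d : ℤ) ∣ m - m' :=
    (Int.natCast_dvd_natCast.mpr (Nat.dvd_of_mem_divisors hd)).trans h
  constructor
  · intro h1
    have := dvd_sub h1 hdq
    simpa using this
  · intro h1
    have := dvd_add hdq h1
    simpa using this

theorem pg_cq_mul {q W : ℕ} (h : Nat.Coprime q W) (m : ℤ) : cq q (W * m) = cq q m := by
  unfold cq
  refine sum_congr (filter_congr fun d hd => ?_) fun _ _ => rfl
  have hc : IsCoprime (d : ℤ) (W : ℤ) :=
    Nat.isCoprime_iff_coprime.mpr (Nat.Coprime.coprime_dvd_left (Nat.dvd_of_mem_divisors hd) h)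
  exact ⟨fun h1 => hc.dvd_of_dvd_mul_left h1, fun h1 => dvd_mul_of_dvd_right h1 _⟩

theorem pg_exists {q W : ℕ} (hq : 0 < q) (h : Nat.Coprime q W) (x : ℤ) :
    ∃ s : ℕ, (q : ℤ) ∣ x - W * s := by
  obtain ⟨a, b, hab⟩ := Nat.isCoprime_iff_coprime.mpr h
  have hq' : (0 : ℤ) < q := by exact_mod_cast hq
  refine ⟨((x * b) % q).toNat, ?_⟩
  rw [Int.toNat_of_nonneg (Int.emod_nonneg _ hq'.ne'), Int.emod_def]
  refine ⟨x * a + W * (x * b / q), ?_⟩
  linear_combination (-x) * hab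

/-- As `cg1_corr` (file `H68T/CG1.lean`, with `cg1_count`), for arbitrary starting points: `x + W c`
instead of `b + W (s + c)`, `y + W c` instead of `b + W (s' + c)`; the condition
`gcd(d₁,d₂) ∣ s - s'` becomes `gcd(d₁,d₂) ∣ x - y`. -/
theorem corr_gen (q₁ q₂ W N : ℕ) (x y : ℤ) (h₁ : 0 < q₁) (h₂ : 0 < q₂)
    (c₁ : Nat.Coprime q₁ W) (c₂ : Nat.Coprime q₂ W) :
    |∑ c ∈ range N, cq q₁ (x + W * (c : ℕ)) * cq q₂ (y + W * (c : ℕ)) -
      N * (if q₁ = q₂ then cq q₁ (x - y) else 0)| ≤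
      (∑ d ∈ q₁.divisors, (d : ℝ)) * ∑ d ∈ q₂.divisors, (d : ℝ) := by
  obtain ⟨s, hs⟩ := pg_exists h₁ c₁ x
  obtain ⟨s', hs'⟩ := pg_exists h₂ c₂ y
  have h := cg1_corr q₁ q₂ W 0 s s' N h₁ h₂ c₁ c₂
  have e1 : ∑ c ∈ range N, cq q₁ (x + W * (c : ℕ)) * cq q₂ (y + W * (c : ℕ)) =
      ∑ c ∈ range N, cq q₁ (((0 : ℕ) : ℤ) + W * (s + c : ℕ)) *
        cq q₂ (((0 : ℕ) : ℤ) + W * (s' + c : ℕ)) := by
    refine sum_congr rfl fun c _ => ?_
    congr 1
    · apply pg_cq_congr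
      have : x + W * (c : ℕ) - (((0 : ℕ) : ℤ) + W * (s + c : ℕ)) = x - W * s := by push_cast; ring
      rw [this]; exact hs
    · apply pg_cq_congr
      have : y + W * (c : ℕ) - (((0 : ℕ) : ℤ) + W * (s' + c : ℕ)) = y - W * s' := by
        push_cast; ring
      rw [this]; exact hs'
  have e2 : (if q₁ = q₂ then cq q₁ (x - y) else 0) =
      (if q₁ = q₂ then cq q₁ ((s : ℤ) - s') else 0) := by
    split_ifs with hq
    · subst hq
      rw [← pg_cq_mul c₁ ((s : ℤ) - s')]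
      apply pg_cq_congr
      have := dvd_sub hs hs'
      have e : x - y - W * ((s : ℤ) - s') = x - W * s - (y - W * s') := by ring
      rw [e]; exact this
    · rfl
  rw [e1, e2]
  exact h

end Pool.Agent.Lib.H18E
end

-- from Lib.H18Q.QDefs
section

/-!
# Project H18Q: definitions for the zeros of L-functions

`od f ρ` order of vanishing, `ZD f c R` zeros in a closed disc, `ZR f σ T` zeros in a rectangle,
`Lp p` the entire function attached to a primitive character (`(s-1)ζ(s)` for the trivial one),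
`Lx r ψ β p` the same with the zero `β` of `L(s, ψ)` removed, `Jk lam k n` the weights of the
power sum method, `LDat C0 ℓ T f` growth data.
-/

open Finset

namespace Pool.Agent.Lib.H18Q

open Pool.Agent.Lib.H68T

noncomputable section

/-- Order of vanishing of `f` at `ρ`. -/
def od (f : ℂ → ℂ) (ρ : ℂ) : ℕ := analyticOrderNatAt f ρ

open Classical in
/-- The zeros of `f` in a set, if there are finitely many of them. -/
def ZS (f : ℂ → ℂ) (S : Set ℂ) : Finset ℂ :=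
  if h : ({ρ : ℂ | f ρ = 0 ∧ ρ ∈ S}).Finite then h.toFinset else ∅

/-- The zeros of `f` in the closed disc with centre `c` and radius `R`. -/
def ZD (f : ℂ → ℂ) (c : ℂ) (R : ℝ) : Finset ℂ := ZS f (Metric.closedBall c R)

/-- The zeros of `f` with `σ ≤ Re ρ ≤ 1` and `|Im ρ| ≤ T`. -/
def ZR (f : ℂ → ℂ) (σ T : ℝ) : Finset ℂ := ZS f {ρ | σ ≤ ρ.re ∧ ρ.re ≤ 1 ∧ |ρ.im| ≤ T}

/-- The entire function attached to a character: `(s-1) ζ(s)` for the trivial character modulo
`1`, else `L(s, χ)`. -/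
def Lp (p : Σ r : ℕ, DirichletCharacter ℂ r) : ℂ → ℂ :=
  open Classical in
  if p = p0 then gl2_Z else
    if h : p.1 = 0 then fun _ => 1 else
      haveI : NeZero p.1 := ⟨h⟩
      p.2.LFunction

/-- `Lp p` with the zero `β` of `L(s, ψ)` removed for `p = (r, ψ)`. -/
def Lx (r : ℕ) (ψ : DirichletCharacter ℂ r) (β : ℝ) (p : Σ r : ℕ, DirichletCharacter ℂ r) :
    ℂ → ℂ :=
  open Classical in
  if p = ⟨r, ψ⟩ then dslope (Lp ⟨r, ψ⟩) (β : ℂ) else Lp p

/-- The weights of the power sum method: `lam^(k+1) (log n)^k / k! n^(-1-lam)`. -/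
def Jk (lam : ℝ) (k n : ℕ) : ℝ :=
  lam ^ (k + 1) * Real.log n ^ k / (k.factorial : ℝ) * (n : ℝ) ^ (-1 - lam)

/-- Growth data of an entire function near the line `Re s = 1`: zeros only in `Re s < 1`, growth
`exp (C0 ℓ)` in discs of radius `1/2` about the points `1 + lam + i v`, `1/ℓ ≤ lam ≤ 1/8`,
`|v| ≤ T`, and logarithmic derivative at these points at most `C0 / lam`. -/
structure LDat (C0 ℓ T : ℝ) (f : ℂ → ℂ) : Prop where
  diff : Differentiable ℂ f
  zre : ∀ ρ : ℂ, f ρ = 0 → ρ.re < 1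
  growth : ∀ lam v : ℝ, 1 / ℓ ≤ lam → lam ≤ 1 / 8 → |v| ≤ T →
    ∀ s ∈ Metric.closedBall (1 + lam + v * Complex.I : ℂ) (1 / 2),
      ‖f s‖ ≤ Real.exp (C0 * ℓ) * ‖f (1 + lam + v * Complex.I)‖
  ld : ∀ lam v : ℝ, 1 / ℓ ≤ lam → lam ≤ 1 / 8 → |v| ≤ T →
    ‖logDeriv f (1 + lam + v * Complex.I)‖ ≤ C0 / lam

/-- The threshold for the width of the region in which zeros are detected. -/
def th0 : ℝ := 1 / 10 ^ 9

end

theorem Lp_p0 : Lp p0 = gl2_Z := by
  unfold Lp
  rw [if_pos rfl]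

theorem Lp_mk (r : ℕ) [NeZero r] (ψ : DirichletCharacter ℂ r)
    (h : (⟨r, ψ⟩ : Σ r : ℕ, DirichletCharacter ℂ r) ≠ p0) : Lp ⟨r, ψ⟩ = ψ.LFunction := by
  unfold Lp
  rw [if_neg h, dif_neg (NeZero.ne r)]

theorem Lx_mk (r : ℕ) (ψ : DirichletCharacter ℂ r) (β : ℝ) :
    Lx r ψ β ⟨r, ψ⟩ = dslope (Lp ⟨r, ψ⟩) (β : ℂ) := by
  unfold Lx
  rw [if_pos rfl]

theorem Lx_of_ne (r : ℕ) (ψ : DirichletCharacter ℂ r) (β : ℝ)
    (p : Σ r : ℕ, DirichletCharacter ℂ r) (h : p ≠ ⟨r, ψ⟩) : Lx r ψ β p = Lp p := by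
  unfold Lx
  rw [if_neg h]

/-- A member of `PC Q` different from `p0` is a character different from `1`. -/
theorem ne_one_of_ne_p0 {Q : ℕ} {p : Σ r : ℕ, DirichletCharacter ℂ r} (hp : p ∈ PC Q)
    (h : p ≠ p0) : p.2 ≠ 1 := by
  intro h1
  apply h
  obtain ⟨r, ψ⟩ := p
  have hp' := (mem_PC.mp hp).2.2
  have hr := (mem_PC.mp hp).1
  simp only at h1 hp' hr
  have hne : NeZero r := ⟨by omega⟩
  have h2 : r = 1 := by
    have h3 := hp'
    unfold DirichletCharacter.IsPrimitive at h3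
    rw [h1, DirichletCharacter.conductor_one] at h3
    exact h3.symm
  subst h2
  rw [h1]
  rfl

theorem Lp_mem {Q : ℕ} {p : Σ r : ℕ, DirichletCharacter ℂ r} (hp : p ∈ PC Q) (h : p ≠ p0) :
    ∃ _h : NeZero p.1, Lp p = p.2.LFunction := by
  have h1 := (mem_PC.mp hp).1
  have hne : NeZero p.1 := ⟨by omega⟩
  refine ⟨hne, ?_⟩
  obtain ⟨r, ψ⟩ := p
  exact Lp_mk r ψ h

end Pool.Agent.Lib.H18Q
end

-- from Lib.H59C.CDefs
section

/-!
# Project H59C, part 3: definitions for the weighted sieve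

A window is `n, N, y1, y2` (`N = 2 X`, `X` the vertex of the Goldbach graph); the sequence is `|N - p|`, `p ∈ (y1, y2]`
prime, with weights `log p`; sifting primes `PP n N p1` up to `z = n^(1/8)`; weights for the primes in `[z, y)`,
`y = (2n)^(1/3)`.
-/

open Finset

namespace Pool.Agent.Lib.H59C

noncomputable section

/-- A window. -/
structure Win (n N y1 y2 : ℕ) : Prop where
  N0 : 0 < N
  even : 2 ∣ N
  N2 : N ≤ 2 * n
  lt : y1 < y2
  le : y2 ≤ n
  len : n ≤ 16 * (y2 - y1)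
  lo : n ≤ 16 * y1
  side : (y2 < N ∧ n ≤ 8 * (N - y2)) ∨ (N ≤ y1 ∧ n ≤ 8 * (y1 - N))

/-- The primes in `(y1, y2]`. -/
def Sq (y1 y2 : ℕ) : Finset ℕ := (Ioc y1 y2).filter Nat.Prime

/-- `log p` -/
def lg (p : ℕ) : ℝ := Real.log p

/-- The total weight. -/
def XX (y1 y2 : ℕ) : ℝ := ∑ p ∈ Sq y1 y2, lg p

/-- The odd primes up to `n` which do not divide `N` and are different from `p1`. -/
def PP (n N p1 : ℕ) : Finset ℕ := (Icc 3 n).filter (fun q => q.Prime ∧ ¬ q ∣ N ∧ q ≠ p1)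

/-- The arithmetic factor. -/
def hl (N : ℕ) : ℝ := ∏ q ∈ N.primeFactors.filter (fun q => 2 < q), (((q : ℝ) - 1) / (q - 2))

/-- `z = n^(1/8)` -/
def zz (n : ℕ) : ℝ := (n : ℝ) ^ (1 / 8 : ℝ)

/-- `y = (2n)^(1/3)` -/
def yy (n : ℕ) : ℝ := (2 * n : ℝ) ^ (1 / 3 : ℝ)

/-- The primes with weights. -/
def QQ (n N p1 : ℕ) : Finset ℕ := (PR (zz n) (yy n)).filter (fun q => q ∈ PP n N p1)

/-- `a = q1 q2 q3` with primes `z ≤ q1 < y ≤ q2 ≤ q3`. -/
def Tri (n a : ℕ) : Prop :=
  ∃ q1 q2 q3 : ℕ, q1.Prime ∧ q2.Prime ∧ q3.Prime ∧ zz n ≤ q1 ∧ (q1 : ℝ) < yy n ∧ yy n ≤ q2 ∧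
    q2 ≤ q3 ∧ a = q1 * q2 * q3

/-! ## Switching -/

/-- The values of the switched sequence: `|N - m q|` to the left of `N`, `N + m q` otherwise. -/
def bb (N y2 : ℕ) (x : ℕ × ℕ) : ℕ := if y2 < N then Nat.dist N (x.1 * x.2) else N + x.1 * x.2

/-- The pairs `(m, q)`, `m ≤ M`, `q` prime in `(u, v]`. -/
def BX (M u v : ℕ) : Finset (ℕ × ℕ) := (Icc 1 M) ×ˢ Sq u v

/-- The weight of `(m, q)`. -/
def wB (α : ℕ → ℝ) (x : ℕ × ℕ) : ℝ := α x.1 * lg x.2

/-- The total weight. -/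
def XB (M u v : ℕ) (α : ℕ → ℝ) : ℝ := (∑ m ∈ Icc 1 M, α m) * XX u v

/-- The ends of the boxes. -/
def lv (δ : ℝ) (i : ℕ) : ℕ := ⌊(1 + δ) ^ i⌋₊

open Classical in
/-- The weight of `m` in the box `(i, j)`: `m = q1 q2` with primes `z ≤ q1 < y ≤ q2 ≤ v_j`, `m` in the `i`-th
interval. -/
def al (n : ℕ) (δ : ℝ) (x : ℕ × ℕ) (m : ℕ) : ℝ :=
  if lv δ x.1 < m ∧ ∃ q1 q2 : ℕ, q1.Prime ∧ q2.Prime ∧ zz n ≤ q1 ∧ (q1 : ℝ) < yy n ∧ yy n ≤ q2 ∧
    q2 ≤ lv δ (x.2 + 1) ∧ m = q1 * q2 then 1 else 0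

open Classical in
/-- The boxes which are needed: there is a pair `(m, q)` in the box with `N - m q` or `N + m q` in
`(y1, y2]`. -/
def Rel (n N y1 y2 : ℕ) (δ : ℝ) : Finset (ℕ × ℕ) :=
  (range (⌊4 * Real.log n / δ⌋₊ + 1) ×ˢ range (⌊4 * Real.log n / δ⌋₊ + 1)).filter
    (fun x => ∃ m q p : ℕ, lv δ x.1 < m ∧ m ≤ lv δ (x.1 + 1) ∧ lv δ x.2 < q ∧ q ≤ lv δ (x.2 + 1) ∧
      q.Prime ∧ al n δ x m = 1 ∧ yy n ≤ q ∧ y1 < p ∧ p ≤ y2 ∧ Nat.dist N p = m * q)

end

theorem one_le_hl (N : ℕ) : 1 ≤ hl N := by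
  unfold hl
  have h : ∏ q ∈ N.primeFactors.filter (fun q => 2 < q), (1 : ℝ) ≤
      ∏ q ∈ N.primeFactors.filter (fun q => 2 < q), (((q : ℝ) - 1) / (q - 2)) := by
    apply Finset.prod_le_prod
    · intro i _; norm_num
    · intro i hi
      have h2 : 2 < i := (Finset.mem_filter.mp hi).2
      have h3 : (2 : ℝ) < i := by exact_mod_cast h2
      rw [le_div_iff₀ (by linarith)]
      linarith
  simpa using h

theorem mem_Sq {y1 y2 p : ℕ} : p ∈ Sq y1 y2 ↔ (y1 < p ∧ p ≤ y2) ∧ p.Prime := by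
  simp [Sq]

theorem mem_PP {n N p1 q : ℕ} :
    q ∈ PP n N p1 ↔ (3 ≤ q ∧ q ≤ n) ∧ q.Prime ∧ ¬ q ∣ N ∧ q ≠ p1 := by
  simp [PP]

end Pool.Agent.Lib.H59C
end

-- from Lib.H59C.C0
section

/-!
# C0: the prime number theorem for the windows, monotonicity of `SWp`
-/

open Finset Filter

namespace Pool.Agent.Lib.H59C

theorem c0_th_eq (y : ℕ) : th y = Chebyshev.theta y := by
  unfold th Chebyshev.theta
  rw [Nat.floor_natCast]
  rfl

/-- Proof. `PNT.theta_tendsto` (`Lib/PNT/PNT.lean`; `th y = Chebyshev.theta y`): there is `y0` with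
`|th y - y| ≤ (ε/8) y` for `y ≥ y0`, and for `y < y0` both are bounded. -/
theorem th_pnt (ε : ℝ) (hε : 0 < ε) : ∃ n0 : ℕ, ∀ n : ℕ, n0 ≤ n → ∀ y : ℕ, y ≤ 8 * n →
    |th y - y| ≤ ε * n := by
  have h := Metric.tendsto_atTop.mp Pool.Agent.Lib.PNT.theta_tendsto (ε / 8) (by linarith)
  obtain ⟨y0, hy0⟩ := h
  obtain ⟨Y, hY⟩ := exists_nat_ge (max y0 1)
  have hY0 : y0 ≤ Y := le_trans (le_max_left _ _) hY
  have hY1 : (1 : ℝ) ≤ Y := le_trans (le_max_right _ _) hY
  obtain ⟨n0, hn0⟩ := exists_nat_ge (3 * Y / ε)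
  refine ⟨n0, fun n hn y hy => ?_⟩
  have hy8 : (y : ℝ) ≤ 8 * n := by exact_mod_cast hy
  have hn' : 3 * Y / ε ≤ n := hn0.trans (by exact_mod_cast hn)
  rw [div_le_iff₀ hε] at hn'
  rw [c0_th_eq]
  rcases le_or_gt (Y : ℝ) y with h1 | h1
  · have hypos : (0 : ℝ) < y := by linarith
    have h2 := hy0 y (by linarith)
    rw [Real.dist_eq] at h2
    have h3 : |Chebyshev.theta y - y| = |Chebyshev.theta y / y - 1| * y := by
      rw [← abs_of_pos hypos, ← abs_mul, abs_of_pos hypos]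
      congr 1
      field_simp
    rw [h3]
    calc |Chebyshev.theta y / y - 1| * y ≤ ε / 8 * y :=
          mul_le_mul_of_nonneg_right h2.le hypos.le
      _ ≤ ε * n := by nlinarith
  · have hy0' : (0 : ℝ) ≤ y := Nat.cast_nonneg _
    have h2 := Chebyshev.theta_nonneg (y : ℝ)
    have h3 := Chebyshev.theta_le_log4_mul_x hy0'
    have h4 : Real.log 4 ≤ 2 := by
      have h5 : Real.log 4 = 2 * Real.log 2 := by
        rw [show (4 : ℝ) = 2 ^ 2 by norm_num, Real.log_pow]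
        norm_num
      have := Real.log_two_lt_d9
      rw [h5]
      linarith
    have h5 : Chebyshev.theta y ≤ 2 * y := h3.trans (mul_le_mul_of_nonneg_right h4 hy0')
    rw [abs_le]
    constructor <;> nlinarith

theorem XX_eq {y1 y2 : ℕ} (h : y1 ≤ y2) : XX y1 y2 = th y2 - th y1 := by
  unfold XX th Sq lg
  have h1 : (Icc 1 y2).filter Nat.Prime =
      (Icc 1 y1).filter Nat.Prime ∪ (Ioc y1 y2).filter Nat.Prime := by
    ext q
    simp only [mem_filter, mem_Icc, mem_union, mem_Ioc]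
    constructor
    · rintro ⟨⟨h1, h2⟩, h3⟩
      rcases le_or_gt q y1 with h4 | h4
      · left; exact ⟨⟨h1, h4⟩, h3⟩
      · right; exact ⟨⟨h4, h2⟩, h3⟩
    · rintro (⟨⟨h1, h2⟩, h3⟩ | ⟨⟨h1, h2⟩, h3⟩)
      · exact ⟨⟨h1, by omega⟩, h3⟩
      · exact ⟨⟨by omega, h2⟩, h3⟩
  have h2 : Disjoint ((Icc 1 y1).filter Nat.Prime) ((Ioc y1 y2).filter Nat.Prime) := by
    rw [Finset.disjoint_left]
    intro q hq hq'
    simp only [mem_filter, mem_Icc, mem_Ioc] at hq hq'
    omega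
  rw [h1, sum_union h2]
  ring

/-- Proof. `th_pnt (ε/32)`, `n ≤ 16 (y2 - y1)`. -/
theorem XX_bounds (ε : ℝ) (hε : 0 < ε) : ∃ n0 : ℕ, ∀ n : ℕ, n0 ≤ n → ∀ N y1 y2 : ℕ,
    Win n N y1 y2 → (1 - ε) * ((y2 : ℝ) - y1) ≤ XX y1 y2 ∧
      XX y1 y2 ≤ (1 + ε) * ((y2 : ℝ) - y1) := by
  obtain ⟨n0, hn0⟩ := th_pnt (ε / 32) (by linarith)
  refine ⟨n0, fun n hn N y1 y2 hW => ?_⟩
  have h1 := hn0 n hn y1 (by have := hW.lt; have := hW.le; omega)
  have h2 := hn0 n hn y2 (by have := hW.le; omega)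
  have h3 := hW.len
  have h4 := hW.lt
  have h5 : (n : ℝ) ≤ 16 * ((y2 : ℝ) - y1) := by
    have h6 : (n : ℝ) ≤ ((16 * (y2 - y1) : ℕ) : ℝ) := by exact_mod_cast h3
    rw [Nat.cast_mul, Nat.cast_sub h4.le] at h6
    exact_mod_cast h6
  rw [XX_eq h4.le]
  rw [abs_le] at h1 h2
  constructor <;> nlinarith

/-- Proof. More conductors and a better bound (`1 ≤ log n`). -/
theorem SWp_mono {A A' n p1 : ℕ} (h : A ≤ A') (hn : 3 ≤ n) (hS : SWp A' n p1) : SWp A n p1 := by
  have hN : (3 : ℝ) ≤ n := by exact_mod_cast hn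
  have hL : 1 ≤ Real.log n := by
    rw [Real.le_log_iff_exp_le (by linarith)]
    have := Real.exp_one_lt_d9
    linarith
  intro p hp hp0 hpd y hy1 hy2
  have hp' := Pool.Agent.Lib.H68T.mem_PC.mp hp
  have hp2 : p ∈ Pool.Agent.Lib.H68T.PC ⌊Real.log n ^ A'⌋₊ := by
    rw [Pool.Agent.Lib.H68T.mem_PC]
    refine ⟨hp'.1, le_trans hp'.2.1 ?_, hp'.2.2⟩
    apply Nat.floor_le_floor
    exact pow_le_pow_right₀ hL h
  refine (hS p hp2 hp0 hpd y hy1 hy2).trans ?_
  apply div_le_div_of_nonneg_left (Nat.cast_nonneg _) (by positivity)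
  exact pow_le_pow_right₀ hL h

end Pool.Agent.Lib.H59C
end

-- from Lib.H59C.CVX
section

/-!
# CVX: lower bound for the main term
-/

open Finset

namespace Pool.Agent.Lib.H59C

theorem CVX_le_one (n N p1 : ℕ) (z : ℝ) : VV (PP n N p1) z ≤ 1 := by
  classical
  unfold VV VP
  apply Finset.prod_le_one
  · intro q hq
    have hq' : q ∈ PP n N p1 := (Finset.mem_filter.1 hq).1
    have h3 : (3 : ℝ) ≤ q := by exact_mod_cast (mem_PP.1 hq').1.1
    unfold gq
    rw [sub_nonneg, div_le_one (by linarith)]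
    linarith
  · intro q hq
    have hq' : q ∈ PP n N p1 := (Finset.mem_filter.1 hq).1
    have h3 : (3 : ℝ) ≤ q := by exact_mod_cast (mem_PP.1 hq').1.1
    unfold gq
    rw [sub_le_self_iff]
    exact div_nonneg zero_le_one (by linarith)

/-- Proof. `XX_bounds` (`XX ≥ (y2 - y1)/2 ≥ n/32`) and `VV_lower` (`N ≤ 2 n ≤ n^3`, `zz n = n^(1/8)`; `hl N` is the product
there). -/
theorem main_lower : ∃ c : ℝ, 0 < c ∧ ∃ n0 : ℕ, ∀ n : ℕ, n0 ≤ n → ∀ p1 N y1 y2 : ℕ,
    Win n N y1 y2 →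
    c * hl N * n / Real.log n ≤ XX y1 y2 * VV (PP n N p1) (zz n) ∧
    c / Real.log n ≤ VV (PP n N p1) (zz n) ∧ VV (PP n N p1) (zz n) ≤ 1 := by
  obtain ⟨c, hc, n0, h⟩ := VV_lower
  obtain ⟨n1, h1⟩ := XX_bounds (1 / 2) (by norm_num)
  refine ⟨c / 32, by positivity, max (max n0 n1) 3, ?_⟩
  intro n hn p1 N y1 y2 W
  have hn0 : n0 ≤ n := le_trans (le_trans (le_max_left _ _) (le_max_left _ _)) hn
  have hn1 : n1 ≤ n := le_trans (le_trans (le_max_right _ _) (le_max_left _ _)) hn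
  have hn3 : 3 ≤ n := le_trans (le_max_right _ _) hn
  have hn1' : (1 : ℝ) ≤ n := by exact_mod_cast (by omega : 1 ≤ n)
  have hn3' : (3 : ℝ) ≤ n := by exact_mod_cast hn3
  have hlog : 0 < Real.log n := Real.log_pos (by linarith)
  have hN3 : N ≤ n ^ 3 := by
    have h2 := W.N2
    have h3 : 2 * n ≤ n ^ 3 := by
      have : 9 ≤ n ^ 2 := by nlinarith
      nlinarith
    exact h2.trans h3
  have hz1 : (n : ℝ) ^ (1 / 20 : ℝ) ≤ zz n :=
    Real.rpow_le_rpow_of_exponent_le hn1' (by norm_num)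
  have hz2 : zz n ≤ n := by
    have := Real.rpow_le_rpow_of_exponent_le hn1' (show (1 / 8 : ℝ) ≤ 1 by norm_num)
    rwa [Real.rpow_one] at this
  have hV : c * hl N / Real.log n ≤ VV (PP n N p1) (zz n) :=
    h n hn0 (PP n N p1) N (zz n) W.N0 hN3 hz1 hz2 (fun q hq => by
      obtain ⟨⟨a1, a2⟩, a3, a4, a5⟩ := mem_PP.1 hq
      exact ⟨a3, a1, a4⟩)
  have hX := (h1 n hn1 N y1 y2 W).1
  have hlen : (n : ℝ) ≤ 16 * ((y2 : ℝ) - y1) := by
    have h2 : n ≤ 16 * (y2 - y1) := W.len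
    have h3 : ((y2 - y1 : ℕ) : ℝ) = (y2 : ℝ) - y1 := Nat.cast_sub W.lt.le
    rw [← h3]
    exact_mod_cast h2
  have hX' : (n : ℝ) / 32 ≤ XX y1 y2 := by linarith
  have hhl := one_le_hl N
  have hV0 : 0 ≤ c * hl N / Real.log n := by positivity
  refine ⟨?_, ?_, CVX_le_one n N p1 _⟩
  · calc c / 32 * hl N * n / Real.log n = (n : ℝ) / 32 * (c * hl N / Real.log n) := by ring
      _ ≤ XX y1 y2 * VV (PP n N p1) (zz n) :=
        mul_le_mul hX' hV hV0 (le_trans (by positivity) hX')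
  · refine le_trans ?_ hV
    rw [div_le_div_iff_of_pos_right hlog]
    nlinarith

end Pool.Agent.Lib.H59C
end

-- from Lib.H59C.CDL
section

/-!
# CDL: the logarithm of the level of distribution, and other elementary asymptotics
-/

open Finset Filter

namespace Pool.Agent.Lib.H59C

theorem cdl_log_pow (B : ℕ) (C η : ℝ) (hC : 0 < C) (hη : 0 < η) : ∃ n0 : ℕ, ∀ n : ℕ, n0 ≤ n →
    C * Real.log n ^ B ≤ (n : ℝ) ^ η := by
  have h1 := isLittleO_log_rpow_rpow_atTop (B : ℝ) hη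
  have h2 := h1.def (c := 1 / C) (by positivity)
  have h3 := (tendsto_natCast_atTop_atTop (R := ℝ)).eventually h2
  obtain ⟨n0, hn0⟩ := eventually_atTop.mp h3
  refine ⟨max n0 3, fun n hn => ?_⟩
  have hn3 : 3 ≤ n := le_trans (le_max_right _ _) hn
  have h4 := hn0 n (le_trans (le_max_left _ _) hn)
  have hn' : (1 : ℝ) ≤ n := by exact_mod_cast (by omega : 1 ≤ n)
  have hl : 0 ≤ Real.log n := Real.log_nonneg hn'
  rw [Real.rpow_natCast, Real.norm_of_nonneg (by positivity),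
    Real.norm_of_nonneg (by positivity)] at h4
  calc C * Real.log n ^ B ≤ C * (1 / C * (n : ℝ) ^ η) := by
        apply mul_le_mul_of_nonneg_left h4 hC.le
    _ = (n : ℝ) ^ η := by field_simp

/-- The logarithm of the level of distribution. -/
theorem dd_log (B Q0 : ℕ) (hQ : 1 ≤ Q0) (η : ℝ) (hη : 0 < η) : ∃ n0 : ℕ, ∀ n : ℕ, n0 ≤ n →
    1 ≤ DD n B ∧ (1 / 2 - η) * Real.log n ≤ Real.log ((DD n B : ℝ) / Q0) ∧
    Real.log ((DD n B : ℝ) / Q0) ≤ 1 / 2 * Real.log n ∧ (0 : ℝ) < (DD n B : ℝ) / Q0 := by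
  obtain ⟨θ, hθ⟩ : ∃ θ : ℝ, θ = min η (1 / 4) := ⟨_, rfl⟩
  have hθ0 : 0 < θ := by rw [hθ]; exact lt_min hη (by norm_num)
  have hθη : θ ≤ η := by rw [hθ]; exact min_le_left _ _
  have hθ4 : θ ≤ 1 / 4 := by rw [hθ]; exact min_le_right _ _
  have hQ' : (1 : ℝ) ≤ Q0 := by exact_mod_cast hQ
  obtain ⟨n0, hn0⟩ := cdl_log_pow B (2 * Q0) θ (by positivity) hθ0
  refine ⟨max n0 3, fun n hn => ?_⟩
  have hn3 : 3 ≤ n := le_trans (le_max_right _ _) hn
  have h4 := hn0 n (le_trans (le_max_left _ _) hn)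
  have hn' : (3 : ℝ) ≤ n := by exact_mod_cast hn3
  have hl : 1 ≤ Real.log n := by
    rw [Real.le_log_iff_exp_le (by linarith)]
    have := Real.exp_one_lt_d9
    linarith
  have hLB : 1 ≤ Real.log n ^ B := one_le_pow₀ hl
  have hx : 2 * Q0 * (n : ℝ) ^ (1 / 2 - θ) ≤ Real.sqrt n / Real.log n ^ B := by
    rw [le_div_iff₀ (by positivity)]
    calc 2 * Q0 * (n : ℝ) ^ (1 / 2 - θ) * Real.log n ^ B
        = (2 * Q0 * Real.log n ^ B) * (n : ℝ) ^ (1 / 2 - θ) := by ring
      _ ≤ (n : ℝ) ^ θ * (n : ℝ) ^ (1 / 2 - θ) :=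
          mul_le_mul_of_nonneg_right h4 (by positivity)
      _ = Real.sqrt n := by
          rw [← Real.rpow_add (by linarith), Real.sqrt_eq_rpow]
          congr 1
          ring
  have hpow : 1 ≤ (n : ℝ) ^ (1 / 2 - θ) := Real.one_le_rpow (by linarith) (by linarith)
  have hx1 : 2 ≤ Real.sqrt n / Real.log n ^ B := by
    refine le_trans ?_ hx
    nlinarith
  have hfl : Real.sqrt n / Real.log n ^ B < (DD n B : ℝ) + 1 := Nat.lt_floor_add_one _
  have hfl2 : (DD n B : ℝ) ≤ Real.sqrt n / Real.log n ^ B := Nat.floor_le (by positivity)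
  have hD : (Q0 : ℝ) * (n : ℝ) ^ (1 / 2 - θ) ≤ DD n B := by linarith
  have hD1 : (1 : ℝ) ≤ DD n B := by linarith
  have hpos : (0 : ℝ) < (DD n B : ℝ) / Q0 := by positivity
  refine ⟨by exact_mod_cast hD1, ?_, ?_, hpos⟩
  · have h5 : (n : ℝ) ^ (1 / 2 - θ) ≤ (DD n B : ℝ) / Q0 := by
      rw [le_div_iff₀ (by linarith)]
      linarith
    have h6 := Real.log_le_log (by positivity) h5
    rw [Real.log_rpow (by linarith)] at h6
    have h7 : (1 / 2 - η) * Real.log n ≤ (1 / 2 - θ) * Real.log n := by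
      apply mul_le_mul_of_nonneg_right (by linarith) (by linarith)
    linarith
  · have h5 : (DD n B : ℝ) / Q0 ≤ Real.sqrt n := by
      calc (DD n B : ℝ) / Q0 ≤ DD n B := div_le_self (by positivity) hQ'
        _ ≤ Real.sqrt n / Real.log n ^ B := hfl2
        _ ≤ Real.sqrt n := div_le_self (Real.sqrt_nonneg _) hLB
    have h6 := Real.log_le_log hpos h5
    rw [Real.log_sqrt (by linarith)] at h6
    linarith

theorem cdl_zz (M : ℝ) : ∃ n0 : ℕ, ∀ n : ℕ, n0 ≤ n → M ≤ zz n := by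
  have h1 : Tendsto (fun n : ℕ => (n : ℝ) ^ (1 / 8 : ℝ)) atTop atTop :=
    (tendsto_rpow_atTop (by norm_num : (0 : ℝ) < 1 / 8)).comp tendsto_natCast_atTop_atTop
  obtain ⟨n0, hn0⟩ := eventually_atTop.mp (h1.eventually_ge_atTop M)
  exact ⟨n0, fun n hn => hn0 n hn⟩

theorem cdl_log (M : ℝ) : ∃ n0 : ℕ, ∀ n : ℕ, n0 ≤ n → M ≤ Real.log n := by
  have h1 : Tendsto (fun n : ℕ => Real.log (n : ℝ)) atTop atTop :=
    Real.tendsto_log_atTop.comp tendsto_natCast_atTop_atTop
  obtain ⟨n0, hn0⟩ := eventually_atTop.mp (h1.eventually_ge_atTop M)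
  exact ⟨n0, fun n hn => hn0 n hn⟩

theorem log_zz (n : ℕ) (hn : 0 < n) : Real.log (zz n) = 1 / 8 * Real.log n := by
  unfold zz
  rw [Real.log_rpow (by exact_mod_cast hn)]

end Pool.Agent.Lib.H59C
end

-- from Lib.H59C.BV1C
section

/-!
# BV1C: exchange of summations
-/

open Finset

namespace Pool.Agent.Lib.H59C

open Pool.Agent.Lib.H68T (PC p0 e)

theorem BV1C_sum_dvd (n f : ℕ) (hf : 1 ≤ f) (G : ℕ → ℝ) :
    ∑ e ∈ (Icc 1 n).filter (fun e => f ∣ e), G e = ∑ k ∈ Icc 1 (n / f), G (f * k) := by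
  refine sum_nbij' (fun e => e / f) (fun k => f * k) ?_ ?_ ?_ ?_ ?_
  · intro e he
    rw [mem_filter, mem_Icc] at he
    obtain ⟨⟨h1, h2⟩, k, rfl⟩ := he
    rw [Nat.mul_div_cancel_left _ hf, mem_Icc]
    refine ⟨?_, ?_⟩
    · rcases Nat.eq_zero_or_pos k with h | h
      · subst h
        omega
      · exact h
    · rw [Nat.le_div_iff_mul_le hf, mul_comm]
      exact h2
  · intro k hk
    rw [mem_Icc, Nat.le_div_iff_mul_le hf] at hk
    rw [mem_filter, mem_Icc]
    refine ⟨⟨Nat.mul_pos hf hk.1, ?_⟩, dvd_mul_right _ _⟩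
    rw [mul_comm]
    exact hk.2
  · intro e he
    rw [mem_filter] at he
    exact Nat.mul_div_cancel' he.2
  · intro k _
    exact Nat.mul_div_cancel_left _ hf
  · intro e he
    rw [mem_filter] at he
    rw [Nat.mul_div_cancel' he.2]

open Classical in
theorem BV1C_fix (D p1 : ℕ) (F : ℕ → ℝ) (hF : ∀ k, 0 ≤ F k) (r : ℕ) (hr : 1 ≤ r) :
    ∑ d ∈ (Icc 1 D).filter (fun d => ¬ p1 ∣ d),
      (if r ∣ d then 1 / (Nat.totient d : ℝ) * F (d / r) else 0) ≤
      ∑ k ∈ Icc 1 D, (if ¬ p1 ∣ r then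
        1 / (Nat.totient k : ℝ) * (1 / (Nat.totient r : ℝ) * F k) else 0) := by
  by_cases hp : p1 ∣ r
  · have h1 : ∑ d ∈ (Icc 1 D).filter (fun d => ¬ p1 ∣ d),
        (if r ∣ d then 1 / (Nat.totient d : ℝ) * F (d / r) else 0) = 0 := by
      apply sum_eq_zero
      intro d hd
      rw [mem_filter] at hd
      rw [if_neg]
      intro h
      exact hd.2 (hp.trans h)
    rw [h1]
    apply sum_nonneg
    intro k _
    rw [if_neg (not_not.mpr hp)]
  · have h2 : ∀ k ∈ Icc 1 D, (if ¬ p1 ∣ r then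
        1 / (Nat.totient k : ℝ) * (1 / (Nat.totient r : ℝ) * F k) else 0) =
        1 / (Nat.totient k : ℝ) * (1 / (Nat.totient r : ℝ) * F k) := by
      intro k _
      rw [if_pos hp]
    rw [sum_congr rfl h2]
    calc ∑ d ∈ (Icc 1 D).filter (fun d => ¬ p1 ∣ d),
          (if r ∣ d then 1 / (Nat.totient d : ℝ) * F (d / r) else 0)
        ≤ ∑ d ∈ Icc 1 D, (if r ∣ d then 1 / (Nat.totient d : ℝ) * F (d / r) else 0) := by
          apply sum_le_sum_of_subset_of_nonneg (filter_subset _ _)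
          intro d _ _
          have := hF (d / r)
          split_ifs
          · positivity
          · exact le_refl _
      _ = ∑ k ∈ Icc 1 (D / r), 1 / (Nat.totient (r * k) : ℝ) * F (r * k / r) := by
          rw [← sum_filter, BV1C_sum_dvd D r hr (fun d => 1 / (Nat.totient d : ℝ) * F (d / r))]
      _ ≤ ∑ k ∈ Icc 1 (D / r), 1 / (Nat.totient k : ℝ) * (1 / (Nat.totient r : ℝ) * F k) := by
          apply sum_le_sum
          intro k hk
          rw [mem_Icc] at hk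
          rw [Nat.mul_div_cancel_left _ hr]
          have h3 := Nat.totient_super_multiplicative r k
          have h4 : 0 < Nat.totient r := Nat.totient_pos.mpr hr
          have h5 : 0 < Nat.totient k := Nat.totient_pos.mpr hk.1
          have h6 : (0 : ℝ) < Nat.totient r := by exact_mod_cast h4
          have h7 : (0 : ℝ) < Nat.totient k := by exact_mod_cast h5
          have h8 : (Nat.totient r : ℝ) * Nat.totient k ≤ Nat.totient (r * k) := by
            exact_mod_cast h3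
          have h9 : 1 / (Nat.totient (r * k) : ℝ) ≤
              1 / ((Nat.totient r : ℝ) * Nat.totient k) :=
            one_div_le_one_div_of_le (by positivity) h8
          calc 1 / (Nat.totient (r * k) : ℝ) * F k
              ≤ 1 / ((Nat.totient r : ℝ) * Nat.totient k) * F k :=
                mul_le_mul_of_nonneg_right h9 (hF k)
            _ = 1 / (Nat.totient k : ℝ) * (1 / (Nat.totient r : ℝ) * F k) := by
                field_simp
      _ ≤ ∑ k ∈ Icc 1 D, 1 / (Nat.totient k : ℝ) * (1 / (Nat.totient r : ℝ) * F k) := by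
          apply sum_le_sum_of_subset_of_nonneg
          · exact Icc_subset_Icc_right (Nat.div_le_self _ _)
          · intro k _ _
            have := hF k
            positivity

open Classical in
/-- Exchange of the summations: write `d = r k`, `r = p.1`; `φ(r k) ≥ φ(r) φ(k)`. -/
theorem exchange (D p1 : ℕ) (F : ℕ → PCh → ℝ) (hF : ∀ k p, 0 ≤ F k p) :
    ∑ d ∈ (Icc 1 D).filter (fun d => ¬ p1 ∣ d), 1 / (Nat.totient d : ℝ) *
      ∑ p ∈ (PC d).filter (fun p => p ≠ p0 ∧ p.1 ∣ d), F (d / p.1) p ≤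
      ∑ k ∈ Icc 1 D, 1 / (Nat.totient k : ℝ) *
        ∑ p ∈ (PC D).filter (fun p => p ≠ p0 ∧ ¬ p1 ∣ p.1), 1 / (Nat.totient p.1 : ℝ) * F k p := by
  have hL : ∀ d ∈ (Icc 1 D).filter (fun d => ¬ p1 ∣ d), 1 / (Nat.totient d : ℝ) *
      ∑ p ∈ (PC d).filter (fun p => p ≠ p0 ∧ p.1 ∣ d), F (d / p.1) p =
      ∑ p ∈ (PC D).filter (fun p => p ≠ p0),
        (if p.1 ∣ d then 1 / (Nat.totient d : ℝ) * F (d / p.1) p else 0) := by
    intro d hd
    rw [mem_filter, mem_Icc] at hd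
    rw [← sum_filter, ← mul_sum]
    congr 1
    apply sum_congr _ fun _ _ => rfl
    ext p
    rw [mem_filter, mem_filter, mem_filter, Pool.Agent.Lib.H68T.mem_PC,
      Pool.Agent.Lib.H68T.mem_PC]
    constructor
    · rintro ⟨⟨h1, h2, h3⟩, h4, h5⟩
      exact ⟨⟨⟨h1, h2.trans hd.1.2, h3⟩, h4⟩, h5⟩
    · rintro ⟨⟨⟨h1, h2, h3⟩, h4⟩, h5⟩
      exact ⟨⟨h1, Nat.le_of_dvd (by omega) h5, h3⟩, h4, h5⟩
  have hR : ∀ k ∈ Icc 1 D, 1 / (Nat.totient k : ℝ) *
        ∑ p ∈ (PC D).filter (fun p => p ≠ p0 ∧ ¬ p1 ∣ p.1), 1 / (Nat.totient p.1 : ℝ) * F k p =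
      ∑ p ∈ (PC D).filter (fun p => p ≠ p0), (if ¬ p1 ∣ p.1 then
        1 / (Nat.totient k : ℝ) * (1 / (Nat.totient p.1 : ℝ) * F k p) else 0) := by
    intro k _
    rw [← sum_filter, ← mul_sum, filter_filter]
  rw [sum_congr rfl hL, sum_congr rfl hR, sum_comm, sum_comm (s := Icc 1 D)]
  apply sum_le_sum
  intro p hp
  rw [mem_filter, Pool.Agent.Lib.H68T.mem_PC] at hp
  exact BV1C_fix D p1 (fun k => F k p) (fun k => hF k p) p.1 hp.1.1

end Pool.Agent.Lib.H59C
end

-- from Lib.H59C.RW3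
section

/-!
# RW3: the support of Rosser's weights
-/

open Finset

namespace Pool.Agent.Lib.H59C

theorem RW3_list : ∀ (l : List ℕ) (D : ℝ), 1 < D → (∀ p ∈ l, 2 ≤ p) → l.Pairwise (· ≥ ·) →
    (adm true D l → ((l.prod : ℕ) : ℝ) < D) ∧
      ((∀ p ∈ l, (p : ℝ) < D) → adm false D l → ((l.prod : ℕ) : ℝ) < D) := by
  intro l
  induction l with
  | nil =>
    intro D hD _ _
    simp only [List.prod_nil, Nat.cast_one]
    exact ⟨fun _ => hD, fun _ _ => hD⟩
  | cons p l ih =>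
    intro D hD h2 hs
    have hp2 : 2 ≤ p := h2 p List.mem_cons_self
    have hpR : (2 : ℝ) ≤ p := by exact_mod_cast hp2
    have hp0 : (0 : ℝ) < p := by linarith
    have hl2 : ∀ q ∈ l, 2 ≤ q := fun q hq => h2 q (List.mem_cons_of_mem _ hq)
    rw [List.pairwise_cons] at hs
    have hprod : ((((p :: l).prod : ℕ)) : ℝ) = p * ((l.prod : ℕ) : ℝ) := by
      rw [List.prod_cons]
      push_cast
      ring
    rw [hprod]
    constructor
    · intro hadm
      unfold adm at hadm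
      obtain ⟨h3, h4⟩ := hadm
      have h5 : (p : ℝ) * p < D := by nlinarith
      have h6 : 1 < D / p := by
        rw [lt_div_iff₀ hp0]
        nlinarith
      have h7 : ∀ q ∈ l, (q : ℝ) < D / p := by
        intro q hq
        have h8 : (q : ℝ) ≤ p := by exact_mod_cast hs.1 q hq
        rw [lt_div_iff₀ hp0]
        nlinarith
      have h9 := (ih (D / p) h6 hl2 hs.2).2 h7 h4
      rw [lt_div_iff₀ hp0] at h9
      linarith
    · intro hlt hadm
      unfold adm at hadm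
      have h5 : (p : ℝ) < D := hlt p List.mem_cons_self
      have h6 : 1 < D / p := by
        rw [lt_div_iff₀ hp0]
        linarith
      have h9 := (ih (D / p) h6 hl2 hs.2).1 hadm
      rw [lt_div_iff₀ hp0] at h9
      linarith

/-- The product of an admissible set is less than `D`.

Proof. By induction on the list (decreasing, all entries `≥ 1`): if `adm b D (p₁ :: ... :: p_r)` then for
`b = true` and `r` odd, or `b = false` and `r` even `≥ 2`, the last condition says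
`p₁ ⋯ p_(r-1) p_r³ < D`; otherwise (`r ≥ 2`) the condition for `r - 1` gives `p₁ ⋯ p_(r-2) p_(r-1)³ < D`
and `p_r ≤ p_(r-1)`; for `r = 1`, `b = false` use `p₁ < z ≤ D`; for `r = 0` `1 < D`. (In the induction the
hypothesis `z ≤ D` has to be replaced: prove `∏ < D` for `b = true` assuming only `1 < D`, and for
`b = false` assuming `1 < D` and head `< D`; for the tail of a list with `b = true`, `p³ < D`, one has
`1 < D/p` and the head of the tail is `≤ p < D/p`.) -/
theorem adm_prod (b : Bool) (D z : ℝ) (A : Finset ℕ) (hD : 1 < D) (hz : z ≤ D)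
    (hA : ∀ p ∈ A, 2 ≤ p ∧ (p : ℝ) < z) (h : adm b D (A.sort (· ≥ ·))) :
    ((∏ p ∈ A, p : ℕ) : ℝ) < D := by
  have h1 : (∏ p ∈ A, p) = (A.sort (· ≥ ·)).prod := by
    have h2 : ((A.sort (· ≥ ·) : List ℕ) : Multiset ℕ) = A.val := Finset.sort_eq _ _
    rw [← Multiset.prod_coe, h2]
    exact (Finset.prod_val A).symm
  rw [h1]
  have h3 := RW3_list (A.sort (· ≥ ·)) D hD
    (fun p hp => (hA p ((Finset.mem_sort _).mp hp)).1) (Finset.pairwise_sort _ _)
  cases b with
  | true => exact h3.1 h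
  | false =>
    exact h3.2 (fun p hp => ((hA p ((Finset.mem_sort _).mp hp)).2).trans_le hz) h

end Pool.Agent.Lib.H59C
end

-- from Lib.H59C.RW2
section

/-!
# RW2: Rosser's weights are sieve weights
-/

open Finset

namespace Pool.Agent.Lib.H59C

/-- Both inequalities by strong induction on `T` (for all `D`), with `SS_rec`, `h = 1`. If `T = ∅`, `SS = 1`.
Let `T ≠ ∅`, `m = min T`. Upper: `SS true D T = 1 - ∑_{p ∈ T, p³ < D} SS false (D/p) T_{<p} ≥ 1 - ∑_p 1[T_{<p} = ∅] ≥ 0`,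
because `T_{<p} = ∅` only for `p = m`. Lower: `SS false D T = 1 - ∑_{p ∈ T} SS true (D/p) T_{<p}
≤ 1 - SS true (D/m) ∅ = 0`, because all the terms are `≥ 0`. -/
theorem SS_sieve (T : Finset ℕ) : ∀ D : ℝ,
    (if T = ∅ then (1 : ℝ) else 0) ≤ SS true D T (fun _ => 1) ∧
      SS false D T (fun _ => 1) ≤ (if T = ∅ then (1 : ℝ) else 0) := by
  classical
  induction T using Finset.strongInduction with
  | H T ih =>
    intro D
    rcases T.eq_empty_or_nonempty with hT | hT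
    · subst hT
      rw [RW1_empty, RW1_empty]
      simp
    have hne : T ≠ ∅ := hT.ne_empty
    rw [if_neg hne]
    have hss : ∀ p ∈ T, T.filter (fun q => q < p) ⊂ T := by
      intro p hp
      refine Finset.filter_ssubset.2 ⟨p, hp, lt_irrefl p⟩
    set m := T.min' hT with hm
    have hmT : m ∈ T := Finset.min'_mem T hT
    have hmin : ∀ p ∈ T, m ≤ p := fun p hp => Finset.min'_le T p hp
    have hem : T.filter (fun q => q < m) = ∅ := by
      rw [Finset.filter_eq_empty_iff]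
      intro q hq
      exact not_lt.2 (hmin q hq)
    have hem' : ∀ p ∈ T, p ≠ m → T.filter (fun q => q < p) ≠ ∅ := by
      intro p hp hpm h
      rw [Finset.filter_eq_empty_iff] at h
      exact h hmT (lt_of_le_of_ne (hmin p hp) (Ne.symm hpm))
    constructor
    · rw [SS_rec]
      have h1 : ∑ p ∈ T.filter (fun p : ℕ => true = true → (p : ℝ) ^ 3 < D),
          (fun _ : ℕ => (1 : ℝ)) p * SS (!true) (D / p) (T.filter (fun q => q < p)) (fun _ => 1) ≤
          ∑ p ∈ T.filter (fun p : ℕ => true = true → (p : ℝ) ^ 3 < D),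
          (if p = m then (1 : ℝ) else 0) := by
        refine Finset.sum_le_sum fun p hp => ?_
        have hpT := (Finset.mem_filter.1 hp).1
        have h2 := (ih _ (hss p hpT) (D / p)).2
        rw [one_mul]
        refine h2.trans ?_
        by_cases hpm : p = m
        · rw [if_pos hpm]
          split_ifs <;> norm_num
        · rw [if_neg hpm, if_neg (hem' p hpT hpm)]
      have h2 : ∑ p ∈ T.filter (fun p : ℕ => true = true → (p : ℝ) ^ 3 < D),
          (if p = m then (1 : ℝ) else 0) ≤ 1 := by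
        rw [Finset.sum_ite_eq']
        split_ifs <;> norm_num
      exact sub_nonneg.2 (h1.trans h2)
    · rw [SS_rec]
      have h3 : ∀ p ∈ T.filter (fun p : ℕ => false = true → (p : ℝ) ^ 3 < D),
          0 ≤ (fun _ : ℕ => (1 : ℝ)) p *
            SS (!false) (D / p) (T.filter (fun q => q < p)) (fun _ => 1) := by
        intro p hp
        have hpT := (Finset.mem_filter.1 hp).1
        have h2 := (ih _ (hss p hpT) (D / p)).1
        rw [one_mul]
        refine le_trans ?_ h2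
        split_ifs <;> norm_num
      have hmf : m ∈ T.filter (fun p : ℕ => false = true → (p : ℝ) ^ 3 < D) :=
        Finset.mem_filter.2 ⟨hmT, by simp⟩
      have h4 := Finset.single_le_sum h3 hmf
      simp only [hem, one_mul] at h4
      rw [RW1_empty] at h4
      simp only [one_mul] at *
      linarith

end Pool.Agent.Lib.H59C
end

-- from Lib.H59C.SAP
section

/-!
# SAP: sieving a weighted sequence
-/

open Finset

namespace Pool.Agent.Lib.H59C

/-- `∑_{A ⊆ P} (-1)^|A| ∏_A f = ∏_P (1 - f)` -/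
theorem SAP_leg (P : Finset ℕ) (f : ℕ → ℝ) :
    ∑ A ∈ P.powerset, (-1 : ℝ) ^ A.card * ∏ q ∈ A, f q = ∏ q ∈ P, (1 - f q) := by
  classical
  have h1 : ∏ q ∈ P, (1 - f q) = ∏ q ∈ P, (-f q + 1) :=
    Finset.prod_congr rfl fun q _ => by ring
  rw [h1, Finset.prod_add]
  refine Finset.sum_congr rfl fun A _ => ?_
  rw [Finset.prod_const_one, mul_one, Finset.prod_neg]

/-- `SS` depends only on the values on `P`. -/
theorem SAP_congr (b : Bool) (D : ℝ) (P : Finset ℕ) (f g : ℕ → ℝ) (h : ∀ q ∈ P, f q = g q) :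
    SS b D P f = SS b D P g := by
  unfold SS
  refine Finset.sum_congr rfl fun A hA => ?_
  rw [Finset.mem_powerset] at hA
  congr 1
  exact Finset.prod_congr rfl fun q hq => h q (hA hq)

theorem SAP_totient (A : Finset ℕ) (hA : ∀ q ∈ A, q.Prime) :
    1 / (Nat.totient (∏ q ∈ A, q) : ℝ) = ∏ q ∈ A, gq q := by
  classical
  induction A using Finset.induction_on with
  | empty => simp
  | insert q A hq ih =>
    have hqp : q.Prime := hA q (Finset.mem_insert_self q A)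
    have hA' : ∀ r ∈ A, r.Prime := fun r hr => hA r (Finset.mem_insert_of_mem hr)
    rw [Finset.prod_insert hq, Finset.prod_insert hq, ← ih hA']
    have hc : Nat.Coprime q (∏ r ∈ A, r) := by
      apply Nat.Coprime.prod_right
      intro r hr
      rw [Nat.coprime_primes hqp (hA' r hr)]
      rintro rfl
      exact hq hr
    rw [Nat.totient_mul hc, Nat.totient_prime hqp]
    unfold gq
    rw [Nat.cast_mul, Nat.cast_sub hqp.one_le, Nat.cast_one]
    rw [one_div_mul_one_div]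

theorem SAP_dvd (A : Finset ℕ) (hA : ∀ q ∈ A, q.Prime) (n : ℕ) :
    (∏ q ∈ A, (if q ∣ n then (1 : ℝ) else 0)) = if (∏ q ∈ A, q) ∣ n then 1 else 0 := by
  classical
  by_cases h : ∀ q ∈ A, q ∣ n
  · rw [if_pos (Finset.prod_primes_dvd n (fun q hq => (hA q hq).prime) h)]
    exact Finset.prod_eq_one fun q hq => if_pos (h q hq)
  · push Not at h
    obtain ⟨q, hq, hqn⟩ := h
    rw [Finset.prod_eq_zero hq (if_neg hqn), if_neg]
    intro hd
    exact hqn ((Finset.dvd_prod_of_mem (fun q => q) hq).trans hd)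

theorem SAP_lam_le (b : Bool) (D : ℝ) (A : Finset ℕ) : |lamR b D A| ≤ 1 := by
  unfold lamR
  split_ifs
  · rw [abs_pow, abs_neg, abs_one, one_pow]
  · simp

theorem SAP_lam_ne (b : Bool) (D : ℝ) (A : Finset ℕ) (h : lamR b D A ≠ 0) :
    adm b D (A.sort (· ≥ ·)) := by
  unfold lamR at h
  by_contra hc
  rw [if_neg hc] at h
  exact h rfl

section

variable {ι : Type} (S : Finset ι) (w : ι → ℝ) (a : ι → ℕ)

open Classical in
/-- `W(d)` -/
noncomputable def SAP_W (d : ℕ) : ℝ := ∑ i ∈ S.filter (fun i => d ∣ a i), w i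

/-- the indicator function of the divisors -/
noncomputable def SAP_de (i : ι) (q : ℕ) : ℝ := if q ∣ a i then 1 else 0

theorem SAP_expand (b : Bool) (D : ℝ) (P0 P1 : Finset ℕ) (h0 : ∀ q ∈ P0, q.Prime)
    (h1 : ∀ q ∈ P1, q.Prime) (hdis : Disjoint P0 P1) :
    ∑ i ∈ S, w i * ((∏ q ∈ P0, (1 - SAP_de a i q)) * SS b D P1 (SAP_de a i)) =
    ∑ x ∈ P0.powerset ×ˢ P1.powerset, (-1 : ℝ) ^ x.1.card * lamR b D x.2 *
      SAP_W S w a (∏ q ∈ x.1 ∪ x.2, q) := by
  classical
  have e1 : ∀ i ∈ S, w i * ((∏ q ∈ P0, (1 - SAP_de a i q)) * SS b D P1 (SAP_de a i)) =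
      ∑ x ∈ P0.powerset ×ˢ P1.powerset, (-1 : ℝ) ^ x.1.card * lamR b D x.2 *
        (if (∏ q ∈ x.1 ∪ x.2, q) ∣ a i then w i else 0) := by
    intro i _
    rw [← SAP_leg]
    unfold SS
    rw [Finset.sum_mul_sum, ← Finset.sum_product', Finset.mul_sum]
    refine Finset.sum_congr rfl fun x hx => ?_
    rw [Finset.mem_product, Finset.mem_powerset, Finset.mem_powerset] at hx
    have hd : Disjoint x.1 x.2 := Finset.disjoint_of_subset_left hx.1
      (Finset.disjoint_of_subset_right hx.2 hdis)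
    have e2 : (∏ q ∈ x.1, SAP_de a i q) * (∏ q ∈ x.2, SAP_de a i q) =
        if (∏ q ∈ x.1 ∪ x.2, q) ∣ a i then 1 else 0 := by
      rw [← Finset.prod_union hd]
      unfold SAP_de
      rw [SAP_dvd]
      intro q hq
      rcases Finset.mem_union.1 hq with h | h
      · exact h0 q (hx.1 h)
      · exact h1 q (hx.2 h)
    calc w i * ((-1 : ℝ) ^ x.1.card * (∏ q ∈ x.1, SAP_de a i q) *
          (lamR b D x.2 * ∏ q ∈ x.2, SAP_de a i q))
        = (-1 : ℝ) ^ x.1.card * lamR b D x.2 * (w i * ((∏ q ∈ x.1, SAP_de a i q) *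
          (∏ q ∈ x.2, SAP_de a i q))) := by ring
      _ = _ := by
        rw [e2, mul_ite, mul_one, mul_zero]
  rw [Finset.sum_congr rfl e1, Finset.sum_comm]
  refine Finset.sum_congr rfl fun x _ => ?_
  rw [← Finset.mul_sum]
  congr 1
  unfold SAP_W
  rw [Finset.sum_filter]

theorem SAP_main (b : Bool) (D X : ℝ) (P0 P1 : Finset ℕ) (h0 : ∀ q ∈ P0, q.Prime)
    (h1 : ∀ q ∈ P1, q.Prime) (hdis : Disjoint P0 P1) :
    ∑ x ∈ P0.powerset ×ˢ P1.powerset, (-1 : ℝ) ^ x.1.card * lamR b D x.2 *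
      (X / (Nat.totient (∏ q ∈ x.1 ∪ x.2, q) : ℝ)) =
    X * ((∏ q ∈ P0, (1 - gq q)) * SS b D P1 gq) := by
  classical
  rw [← SAP_leg]
  unfold SS
  rw [Finset.sum_mul_sum, ← Finset.sum_product', Finset.mul_sum]
  refine Finset.sum_congr rfl fun x hx => ?_
  rw [Finset.mem_product, Finset.mem_powerset, Finset.mem_powerset] at hx
  have hd : Disjoint x.1 x.2 := Finset.disjoint_of_subset_left hx.1
    (Finset.disjoint_of_subset_right hx.2 hdis)
  have hp : ∀ q ∈ x.1 ∪ x.2, q.Prime := by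
    intro q hq
    rcases Finset.mem_union.1 hq with h | h
    · exact h0 q (hx.1 h)
    · exact h1 q (hx.2 h)
  rw [div_eq_mul_one_div, SAP_totient _ hp, Finset.prod_union hd]
  ring

theorem SAP_rem (b : Bool) (P : Finset ℕ) (hP : ∀ q ∈ P, q.Prime ∧ 3 ≤ q) (w0 : ℕ) (z D X : ℝ)
    (h1 : 1 < D) (hz : z ≤ D) (hwz : (w0 : ℝ) ≤ z) :
    |∑ x ∈ (P.filter (fun q => q < w0)).powerset ×ˢ ((P.filter (fun q => w0 ≤ q)).filter
        (fun q : ℕ => (q : ℝ) < z)).powerset, (-1 : ℝ) ^ x.1.card * lamR b D x.2 *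
      (SAP_W S w a (∏ q ∈ x.1 ∪ x.2, q) - X / (Nat.totient (∏ q ∈ x.1 ∪ x.2, q) : ℝ))| ≤
      remd S w a P z X (D * primorial w0) := by
  classical
  set P0 := P.filter (fun q => q < w0) with hP0
  set P1 := (P.filter (fun q => w0 ≤ q)).filter (fun q : ℕ => (q : ℝ) < z) with hP1
  have m0 : ∀ q ∈ P0, q ∈ P ∧ q < w0 := fun q hq => Finset.mem_filter.1 hq
  have m1 : ∀ q ∈ P1, q ∈ P ∧ w0 ≤ q ∧ (q : ℝ) < z := fun q hq => by
    rw [hP1, Finset.mem_filter, Finset.mem_filter] at hq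
    exact ⟨hq.1.1, hq.1.2, hq.2⟩
  set r : ℕ → ℝ := fun d => SAP_W S w a d - X / (Nat.totient d : ℝ) with hr
  set F := (P0.powerset ×ˢ P1.powerset).filter (fun x => adm b D (x.2.sort (· ≥ ·))) with hF
  have hFm : ∀ x ∈ F, x.1 ⊆ P0 ∧ x.2 ⊆ P1 ∧ adm b D (x.2.sort (· ≥ ·)) := by
    intro x hx
    rw [hF, Finset.mem_filter, Finset.mem_product, Finset.mem_powerset, Finset.mem_powerset] at hx
    exact ⟨hx.1.1, hx.1.2, hx.2⟩
  have s1 : |∑ x ∈ P0.powerset ×ˢ P1.powerset, (-1 : ℝ) ^ x.1.card * lamR b D x.2 *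
      r (∏ q ∈ x.1 ∪ x.2, q)| ≤ ∑ x ∈ F, |r (∏ q ∈ x.1 ∪ x.2, q)| := by
    refine (Finset.abs_sum_le_sum_abs _ _).trans ?_
    rw [hF, Finset.sum_filter]
    refine Finset.sum_le_sum fun x _ => ?_
    rw [abs_mul, abs_mul, abs_pow, abs_neg, abs_one, one_pow, one_mul]
    split_ifs with hx
    · exact mul_le_of_le_one_left (abs_nonneg _) (SAP_lam_le b D x.2)
    · have : lamR b D x.2 = 0 := by
        by_contra hc
        exact hx (SAP_lam_ne b D x.2 hc)
      rw [this, abs_zero, zero_mul]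
  have hpr : ∀ x ∈ F, ∀ q ∈ x.1 ∪ x.2, q.Prime ∧ q ∈ P ∧ (q : ℝ) < z := by
    intro x hx q hq
    obtain ⟨hx0, hx1, _⟩ := hFm x hx
    rcases Finset.mem_union.1 hq with h | h
    · obtain ⟨h3, h4⟩ := m0 q (hx0 h)
      refine ⟨(hP q h3).1, h3, ?_⟩
      have : (q : ℝ) < w0 := by exact_mod_cast h4
      linarith
    · obtain ⟨h3, h4, h5⟩ := m1 q (hx1 h)
      exact ⟨(hP q h3).1, h3, h5⟩
  have hpf : ∀ x ∈ F, (∏ q ∈ x.1 ∪ x.2, q).primeFactors = x.1 ∪ x.2 := fun x hx =>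
    Nat.primeFactors_prod fun q hq => (hpr x hx q hq).1
  have hinj : Set.InjOn (fun x : Finset ℕ × Finset ℕ => ∏ q ∈ x.1 ∪ x.2, q) F := by
    intro x hx y hy hxy
    have hxy' : x.1 ∪ x.2 = y.1 ∪ y.2 := by
      rw [← hpf x hx, ← hpf y hy]
      exact congrArg Nat.primeFactors hxy
    obtain ⟨hx0, hx1, _⟩ := hFm x hx
    obtain ⟨hy0, hy1, _⟩ := hFm y hy
    have k0 : ∀ z : Finset ℕ × Finset ℕ, z.1 ⊆ P0 → z.2 ⊆ P1 →
        (z.1 ∪ z.2).filter (fun q => q < w0) = z.1 := by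
      intro z hz0 hz1
      ext q
      rw [Finset.mem_filter, Finset.mem_union]
      constructor
      · rintro ⟨h | h, h'⟩
        · exact h
        · exact absurd h' (not_lt.2 (m1 q (hz1 h)).2.1)
      · intro h
        exact ⟨Or.inl h, (m0 q (hz0 h)).2⟩
    have k1 : ∀ z : Finset ℕ × Finset ℕ, z.1 ⊆ P0 → z.2 ⊆ P1 →
        (z.1 ∪ z.2).filter (fun q => ¬ q < w0) = z.2 := by
      intro z hz0 hz1
      ext q
      rw [Finset.mem_filter, Finset.mem_union]
      constructor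
      · rintro ⟨h | h, h'⟩
        · exact absurd (m0 q (hz0 h)).2 h'
        · exact h
      · intro h
        exact ⟨Or.inr h, not_lt.2 (m1 q (hz1 h)).2.1⟩
    refine Prod.ext ?_ ?_
    · rw [← k0 x hx0 hx1, ← k0 y hy0 hy1, hxy']
    · rw [← k1 x hx0 hx1, ← k1 y hy0 hy1, hxy']
  have s2 : ∑ x ∈ F, |r (∏ q ∈ x.1 ∪ x.2, q)| =
      ∑ d ∈ F.image (fun x : Finset ℕ × Finset ℕ => ∏ q ∈ x.1 ∪ x.2, q), |r d| := by
    rw [Finset.sum_image hinj]
  refine s1.trans (s2.le.trans ?_)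
  unfold remd
  refine Finset.sum_le_sum_of_subset_of_nonneg ?_ fun d _ _ => abs_nonneg _
  intro d hd
  rw [Finset.mem_image] at hd
  obtain ⟨x, hx, rfl⟩ := hd
  obtain ⟨hx0, hx1, hadm⟩ := hFm x hx
  rw [Finset.mem_filter, Finset.mem_Icc]
  have hpos : 0 < ∏ q ∈ x.1 ∪ x.2, q := Finset.prod_pos fun q hq => (hpr x hx q hq).1.pos
  have hdis : Disjoint x.1 x.2 := by
    rw [Finset.disjoint_left]
    intro q h3 h4
    exact absurd (m0 q (hx0 h3)).2 (not_lt.2 (m1 q (hx1 h4)).2.1)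
  refine ⟨⟨hpos, ?_⟩, ?_, ?_⟩
  · refine Nat.le_floor ?_
    rw [Finset.prod_union hdis, Nat.cast_mul, mul_comm]
    have h3 : ((∏ p ∈ x.2, p : ℕ) : ℝ) < D := by
      refine adm_prod b D z x.2 h1 hz ?_ hadm
      intro p hp
      obtain ⟨h4, h5, h6⟩ := m1 p (hx1 hp)
      exact ⟨(hP p h4).1.two_le, h6⟩
    have h4 : ∏ q ∈ x.1, q ≤ primorial w0 := by
      unfold primorial
      refine Finset.prod_le_prod_of_subset_of_one_le' ?_ ?_
      · intro q hq
        obtain ⟨h5, h6⟩ := m0 q (hx0 hq)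
        rw [Finset.mem_filter, Finset.mem_range]
        exact ⟨by omega, (hP q h5).1⟩
      · intro q hq _
        exact (Finset.mem_filter.1 hq).2.one_le
    have h5 : ((∏ q ∈ x.1, q : ℕ) : ℝ) ≤ primorial w0 := by exact_mod_cast h4
    exact mul_le_mul h3.le h5 (by positivity) (by linarith)
  · exact Finset.squarefree_prod_of_pairwise_isCoprime (by
      intro p hp q hq hpq
      exact Nat.coprime_iff_isRelPrime.1 ((Nat.coprime_primes (hpr x hx p hp).1
        (hpr x hx q hq).1).2 hpq)) (fun q hq => (hpr x hx q hq).1.squarefree)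
  · intro q hq
    rw [hpf x hx] at hq
    exact (hpr x hx q hq).2

end

/-- Upper and lower bound sieve for a weighted sequence `a i`, `i ∈ S`: Legendre for the primes
`q < w0`, Rosser's weights of level `D` for the primes `w0 ≤ q < z`.

Proof. Let `P0 = {q ∈ P, q < w0}`, `P1 = {q ∈ P, w0 ≤ q < z}`. For each `i` let `T0, T1` be the sets of the `q ∈ P0`
(`P1`) dividing `a i`. `1[T0 = ∅] 1[T1 = ∅] ≤ (∑_{A0 ⊆ T0} (-1)^|A0|) (∑_{A1 ⊆ T1} λ(A1))` with `λ = lamR true D`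
(`SS_sieve`, the first factor is exactly `1[T0 = ∅] ≥ 0`), and `≥` with `lamR false D`. Sum over `i` with the weights:
`∑_{A0 ⊆ P0} ∑_{A1 ⊆ P1} (-1)^|A0| λ(A1) W(d)`, `d = ∏ A0 ∏ A1`, `W(d) = ∑_{i ∈ S, d ∣ a i} w i = X/φ(d) + r(d)`, with
`1/φ(d) = ∏_{q ∈ A0 ∪ A1} gq q`. The main term is `X ∏_{P0} (1 - gq q) · SS _ D P1 gq`; in the remainder
`|λ| ≤ 1`, the `d` are distinct, squarefree, composed of primes of `P` below `z`, and `≤ D primorial w0`
(`adm_prod`; `∏ A0 ∣ primorial w0`). -/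
theorem sap {ι : Type} (S : Finset ι) (w : ι → ℝ) (a : ι → ℕ) (hw : ∀ i ∈ S, 0 ≤ w i)
    (P : Finset ℕ) (hP : ∀ q ∈ P, q.Prime ∧ 3 ≤ q) (w0 : ℕ) (z D X : ℝ) (h1 : 1 < D) (hz : z ≤ D)
    (hwz : (w0 : ℝ) ≤ z) :
    sift S w a P z ≤ X * (VV P w0 * SS true D ((P.filter (fun q => w0 ≤ q)).filter
        (fun q : ℕ => (q : ℝ) < z)) gq) + remd S w a P z X (D * primorial w0) ∧
    X * (VV P w0 * SS false D ((P.filter (fun q => w0 ≤ q)).filter
        (fun q : ℕ => (q : ℝ) < z)) gq) - remd S w a P z X (D * primorial w0) ≤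
      sift S w a P z := by
  classical
  set P0 := P.filter (fun q => q < w0) with hP0
  set P1 := (P.filter (fun q => w0 ≤ q)).filter (fun q : ℕ => (q : ℝ) < z) with hP1
  have m0 : ∀ q, q ∈ P0 ↔ q ∈ P ∧ q < w0 := fun q => Finset.mem_filter
  have m1 : ∀ q, q ∈ P1 ↔ q ∈ P ∧ w0 ≤ q ∧ (q : ℝ) < z := fun q => by
    rw [hP1, Finset.mem_filter, Finset.mem_filter, and_assoc]
  have hdis : Disjoint P0 P1 := by
    rw [Finset.disjoint_left]
    intro q h3 h4
    exact absurd ((m0 q).1 h3).2 (not_lt.2 ((m1 q).1 h4).2.1)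
  have p0 : ∀ q ∈ P0, q.Prime := fun q hq => (hP q ((m0 q).1 hq).1).1
  have p1 : ∀ q ∈ P1, q.Prime := fun q hq => (hP q ((m1 q).1 hq).1).1
  have hVV : VV P w0 = ∏ q ∈ P0, (1 - gq q) := by
    unfold VV VP
    refine Finset.prod_congr ?_ fun q _ => rfl
    ext q
    rw [m0, Finset.mem_filter, Nat.cast_lt]
  -- the sum for both signs
  have key : ∀ b : Bool,
      |∑ i ∈ S, w i * ((∏ q ∈ P0, (1 - SAP_de a i q)) * SS b D P1 (SAP_de a i)) -
        X * (VV P w0 * SS b D P1 gq)| ≤ remd S w a P z X (D * primorial w0) := by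
    intro b
    have h3 := SAP_rem S w a b P hP w0 z D X h1 hz hwz
    rw [SAP_expand S w a b D P0 P1 p0 p1 hdis, hVV, ← SAP_main b D X P0 P1 p0 p1 hdis,
      ← Finset.sum_sub_distrib]
    refine le_trans (le_of_eq ?_) h3
    congr 1
    refine Finset.sum_congr rfl fun x _ => ?_
    ring
  -- the indicator functions
  have hprod : ∀ i, ∏ q ∈ P0, (1 - SAP_de a i q) = if ∀ q ∈ P0, ¬ q ∣ a i then 1 else 0 := by
    intro i
    split_ifs with h
    · refine Finset.prod_eq_one fun q hq => ?_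
      unfold SAP_de
      rw [if_neg (h q hq), sub_zero]
    · push Not at h
      obtain ⟨q, hq, hqi⟩ := h
      refine Finset.prod_eq_zero hq ?_
      unfold SAP_de
      rw [if_pos hqi, sub_self]
  have hSS : ∀ b i, SS b D P1 (SAP_de a i) =
      SS b D (P1.filter (fun q => q ∣ a i)) (fun _ => 1) := by
    intro b i
    rw [← SS_restrict b D P1 _ (Finset.filter_subset _ _)]
    refine SAP_congr b D P1 _ _ fun q hq => ?_
    unfold SAP_de
    by_cases h : q ∣ a i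
    · rw [if_pos h, if_pos (Finset.mem_filter.2 ⟨hq, h⟩)]
    · have h' : q ∉ P1.filter (fun q => q ∣ a i) := fun hh => h (Finset.mem_filter.1 hh).2
      rw [if_neg h, if_neg h']
  have hsift : sift S w a P z = ∑ i ∈ S, w i * ((if ∀ q ∈ P0, ¬ q ∣ a i then 1 else 0) *
      (if P1.filter (fun q => q ∣ a i) = ∅ then 1 else 0)) := by
    unfold sift
    rw [Finset.sum_filter]
    refine Finset.sum_congr rfl fun i _ => ?_
    by_cases h0 : ∀ q ∈ P0, ¬ q ∣ a i
    · by_cases h2 : P1.filter (fun q => q ∣ a i) = ∅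
      · rw [if_pos h0, if_pos h2, mul_one, mul_one, if_pos]
        intro q hq hqz
        rw [Finset.filter_eq_empty_iff] at h2
        rcases lt_or_ge q w0 with h | h
        · exact h0 q ((m0 q).2 ⟨hq, h⟩)
        · exact h2 ((m1 q).2 ⟨hq, h, hqz⟩)
      · rw [if_neg h2, mul_zero, mul_zero, if_neg]
        intro hc
        apply h2
        rw [Finset.filter_eq_empty_iff]
        intro q hq
        exact hc q ((m1 q).1 hq).1 ((m1 q).1 hq).2.2
    · rw [if_neg h0, zero_mul, mul_zero, if_neg]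
      intro hc
      apply h0
      intro q hq
      refine hc q ((m0 q).1 hq).1 ?_
      have : (q : ℝ) < w0 := by exact_mod_cast ((m0 q).1 hq).2
      linarith
  have hup : sift S w a P z ≤
      ∑ i ∈ S, w i * ((∏ q ∈ P0, (1 - SAP_de a i q)) * SS true D P1 (SAP_de a i)) := by
    rw [hsift]
    refine Finset.sum_le_sum fun i hi => mul_le_mul_of_nonneg_left ?_ (hw i hi)
    rw [hprod, hSS]
    refine mul_le_mul_of_nonneg_left (SS_sieve _ D).1 ?_
    split_ifs <;> norm_num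
  have hlo : ∑ i ∈ S, w i * ((∏ q ∈ P0, (1 - SAP_de a i q)) * SS false D P1 (SAP_de a i)) ≤
      sift S w a P z := by
    rw [hsift]
    refine Finset.sum_le_sum fun i hi => mul_le_mul_of_nonneg_left ?_ (hw i hi)
    rw [hprod, hSS]
    refine mul_le_mul_of_nonneg_left (SS_sieve _ D).2 ?_
    split_ifs <;> norm_num
  have k1 := abs_le.1 (key true)
  have k2 := abs_le.1 (key false)
  constructor <;> linarith [k1.1, k1.2, k2.1, k2.2]

end Pool.Agent.Lib.H59C
end

-- from Lib.H59C.UVE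
section

/-!
# UVE: the functions of the linear sieve exist
-/

open Finset MeasureTheory

namespace Pool.Agent.Lib.H59C

open Filter Topology in
theorem UVE_int (C : ℝ) (f : ℝ → ℝ) (a s : ℝ) (hf : AntitoneOn f (Set.Ici a))
    (h0 : ∀ x, a ≤ x → 0 ≤ f x) (hb : ∀ x, a ≤ x → f x ≤ C * hh x) (hs : a + 1 ≤ s) :
    IntegrableOn (fun t => f (t - 1)) (Set.Ioi s) := by
  have hm : AEMeasurable (fun t => f (t - 1)) (volume.restrict (Set.Ioi s)) := by
    apply aemeasurable_restrict_of_antitoneOn measurableSet_Ioi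
    intro x hx y hy hxy
    rw [Set.mem_Ioi] at hx hy
    apply hf
    · rw [Set.mem_Ici]; linarith
    · rw [Set.mem_Ici]; linarith
    · linarith
  refine Integrable.mono' ((hh_integrable s).const_mul C) hm.aestronglyMeasurable ?_
  refine (ae_restrict_mem measurableSet_Ioi).mono fun t ht => ?_
  rw [Set.mem_Ioi] at ht
  rw [Real.norm_eq_abs, abs_of_nonneg (h0 _ (by linarith))]
  exact hb _ (by linarith)

/-- The properties of the approximations. -/
structure UVE_G (u v : ℝ → ℝ) : Prop where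
  u0 : ∀ s, 1 ≤ s → 0 ≤ u s
  v0 : ∀ s, 2 ≤ s → 0 ≤ v s
  uanti : AntitoneOn u (Set.Ici 1)
  vanti : AntitoneOn v (Set.Ici 2)
  ub : ∀ s, 1 ≤ s → u s ≤ 10000 * hh s
  vb : ∀ s, 2 ≤ s → v s ≤ 10000 * hh s

/-- new `u` from old `v` -/
noncomputable def UVE_U (v : ℝ → ℝ) (s : ℝ) : ℝ :=
  (max 0 (3 - s) + ∫ t in Set.Ioi (max s 3), v (t - 1)) / s

/-- new `v` from old `u` -/
noncomputable def UVE_V (u : ℝ → ℝ) (s : ℝ) : ℝ := (∫ t in Set.Ioi s, u (t - 1)) / s

theorem UVE_intu {u v : ℝ → ℝ} (h : UVE_G u v) (s : ℝ) (hs : 2 ≤ s) :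
    IntegrableOn (fun t => u (t - 1)) (Set.Ioi s) :=
  UVE_int 10000 u 1 s h.uanti h.u0 h.ub (by linarith)

theorem UVE_intv {u v : ℝ → ℝ} (h : UVE_G u v) (s : ℝ) (hs : 3 ≤ s) :
    IntegrableOn (fun t => v (t - 1)) (Set.Ioi s) :=
  UVE_int 10000 v 2 s h.vanti h.v0 h.vb (by linarith)

theorem UVE_nn (f : ℝ → ℝ) (s : ℝ) (h0 : ∀ x, s - 1 ≤ x → 0 ≤ f x) :
    0 ≤ ∫ t in Set.Ioi s, f (t - 1) := by
  apply setIntegral_nonneg measurableSet_Ioi
  intro t ht
  rw [Set.mem_Ioi] at ht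
  exact h0 _ (by linarith)

theorem UVE_anti (f : ℝ → ℝ) (s s' : ℝ) (hss : s ≤ s') (h0 : ∀ x, s - 1 ≤ x → 0 ≤ f x)
    (hi : IntegrableOn (fun t => f (t - 1)) (Set.Ioi s)) :
    ∫ t in Set.Ioi s', f (t - 1) ≤ ∫ t in Set.Ioi s, f (t - 1) := by
  apply setIntegral_mono_set hi
  · refine (ae_restrict_mem measurableSet_Ioi).mono fun t ht => ?_
    rw [Set.mem_Ioi] at ht
    exact h0 _ (by linarith)
  · exact (Set.Ioi_subset_Ioi hss).eventuallyLE

theorem UVE_up (f : ℝ → ℝ) (s C : ℝ) (hC : 0 ≤ C) (hi : IntegrableOn (fun t => f (t - 1)) (Set.Ioi s))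
    (hb : ∀ x, s - 1 ≤ x → f x ≤ C * hh x) :
    ∫ t in Set.Ioi s, f (t - 1) ≤ C * ∫ t in Set.Ioi s, hh (t - 1) := by
  rw [← integral_const_mul]
  apply setIntegral_mono_on hi ((hh_integrable s).const_mul C) measurableSet_Ioi
  intro t ht
  rw [Set.mem_Ioi] at ht
  exact hb _ (by linarith)

theorem UVE_e1 (s : ℝ) (h1 : 1 ≤ s) (h3 : s ≤ 3) : (3 - s) / s ≤ 1 / 50 * (10000 * hh s) := by
  have hs : 0 < s := by linarith
  rw [div_le_iff₀ hs]
  have e4 : Real.exp 4 ≤ 81 := by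
    have h := Real.exp_one_lt_d9
    have h2 : Real.exp 4 = Real.exp 1 ^ 4 := by
      rw [← Real.exp_nat_mul]
      norm_num
    rw [h2]
    have h5 : Real.exp 1 ≤ 3 := by linarith
    calc Real.exp 1 ^ 4 ≤ 3 ^ 4 := by
          apply pow_le_pow_left₀ (Real.exp_pos 1).le h5
      _ = 81 := by norm_num
  have hhs : 1 / 81 ≤ hh s := by
    unfold hh
    have h5 : Real.exp (-4) ≤ Real.exp (-(11 / 10) * max s 2) := by
      apply Real.exp_le_exp.mpr
      have : max s 2 ≤ 3 := max_le h3 (by norm_num)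
      linarith
    refine le_trans ?_ h5
    rw [Real.exp_neg, one_div]
    exact inv_anti₀ (Real.exp_pos 4) e4
  nlinarith

theorem UVE_step {u v : ℝ → ℝ} (h : UVE_G u v) : UVE_G (UVE_U v) (UVE_V u) := by
  have hv0 : ∀ s, 3 ≤ s → 0 ≤ ∫ t in Set.Ioi s, v (t - 1) := fun s hs =>
    UVE_nn v s (fun x hx => h.v0 x (by linarith))
  have hu0 : ∀ s, 2 ≤ s → 0 ≤ ∫ t in Set.Ioi s, u (t - 1) := fun s hs =>
    UVE_nn u s (fun x hx => h.u0 x (by linarith))
  refine ⟨?_, ?_, ?_, ?_, ?_, ?_⟩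
  · intro s hs
    unfold UVE_U
    have := hv0 (max s 3) (le_max_right _ _)
    have := le_max_left 0 (3 - s)
    positivity
  · intro s hs
    unfold UVE_V
    have := hu0 s hs
    positivity
  · intro s hs s' hs' hss
    rw [Set.mem_Ici] at hs hs'
    unfold UVE_U
    have h1 := hv0 (max s' 3) (le_max_right _ _)
    have h2 := le_max_left 0 (3 - s')
    have h3 : ∫ t in Set.Ioi (max s' 3), v (t - 1) ≤ ∫ t in Set.Ioi (max s 3), v (t - 1) := by
      apply UVE_anti v _ _ (max_le_max hss le_rfl)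
      · intro x hx
        exact h.v0 x (by linarith [le_max_right s 3])
      · exact UVE_intv h _ (le_max_right _ _)
    have h4 : max 0 (3 - s') ≤ max 0 (3 - s) := max_le_max le_rfl (by linarith)
    apply div_le_div₀ (by linarith) (by linarith) (by linarith) hss
  · intro s hs s' hs' hss
    rw [Set.mem_Ici] at hs hs'
    unfold UVE_V
    have h3 : ∫ t in Set.Ioi s', u (t - 1) ≤ ∫ t in Set.Ioi s, u (t - 1) := by
      apply UVE_anti u _ _ hss
      · intro x hx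
        exact h.u0 x (by linarith)
      · exact UVE_intu h _ hs
    apply div_le_div₀ (hu0 s hs) h3 (by linarith) hss
  · intro s hs
    have hs0 : 0 < s := by linarith
    unfold UVE_U
    rw [div_le_iff₀ hs0]
    rcases le_total s 3 with h3 | h3
    · rw [max_eq_right h3, max_eq_right (by linarith : (0 : ℝ) ≤ 3 - s)]
      have h1 := UVE_up v 3 10000 (by norm_num) (UVE_intv h 3 le_rfl)
        (fun x hx => h.vb x (by linarith))
      have h2 := hh_int3 s hs h3
      have h4 := UVE_e1 s hs h3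
      rw [div_le_iff₀ hs0] at h4
      nlinarith
    · rw [max_eq_left h3, max_eq_left (by linarith : 3 - s ≤ (0 : ℝ))]
      have h1 := UVE_up v s 10000 (by norm_num) (UVE_intv h s h3)
        (fun x hx => h.vb x (by linarith))
      have h2 := hh_int s (by linarith)
      have h4 := mul_pos hs0 (hh_pos s)
      nlinarith
  · intro s hs
    have hs0 : 0 < s := by linarith
    unfold UVE_V
    rw [div_le_iff₀ hs0]
    have h1 := UVE_up u s 10000 (by norm_num) (UVE_intu h s hs)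
        (fun x hx => h.ub x (by linarith))
    have h2 := hh_int s (by linarith)
    have h4 := mul_pos hs0 (hh_pos s)
    nlinarith

theorem UVE_mono {u v u' v' : ℝ → ℝ} (h : UVE_G u v) (h' : UVE_G u' v')
    (hu : ∀ s, 1 ≤ s → u s ≤ u' s) (hv : ∀ s, 2 ≤ s → v s ≤ v' s) :
    (∀ s, 1 ≤ s → UVE_U v s ≤ UVE_U v' s) ∧ (∀ s, 2 ≤ s → UVE_V u s ≤ UVE_V u' s) := by
  constructor
  · intro s hs
    unfold UVE_U
    have h1 : ∫ t in Set.Ioi (max s 3), v (t - 1) ≤ ∫ t in Set.Ioi (max s 3), v' (t - 1) := by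
      apply setIntegral_mono_on (UVE_intv h _ (le_max_right _ _))
        (UVE_intv h' _ (le_max_right _ _)) measurableSet_Ioi
      intro t ht
      rw [Set.mem_Ioi] at ht
      exact hv _ (by linarith [le_max_right s 3])
    gcongr
  · intro s hs
    unfold UVE_V
    have h1 : ∫ t in Set.Ioi s, u (t - 1) ≤ ∫ t in Set.Ioi s, u' (t - 1) := by
      apply setIntegral_mono_on (UVE_intu h _ hs)
        (UVE_intu h' _ hs) measurableSet_Ioi
      intro t ht
      rw [Set.mem_Ioi] at ht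
      exact hu _ (by linarith)
    gcongr

/-- The approximations. -/
noncomputable def UVE_seq : ℕ → (ℝ → ℝ) × (ℝ → ℝ)
  | 0 => (fun _ => 0, fun _ => 0)
  | k + 1 => (UVE_U (UVE_seq k).2, UVE_V (UVE_seq k).1)

theorem UVE_seq_G (k : ℕ) : UVE_G (UVE_seq k).1 (UVE_seq k).2 := by
  induction k with
  | zero =>
    refine ⟨?_, ?_, ?_, ?_, ?_, ?_⟩
    · intro s _; exact le_rfl
    · intro s _; exact le_rfl
    · intro s _ s' _ _; exact le_rfl
    · intro s _ s' _ _; exact le_rfl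
    · intro s _
      have := hh_pos s
      change (0 : ℝ) ≤ _
      positivity
    · intro s _
      have := hh_pos s
      change (0 : ℝ) ≤ _
      positivity
  | succ k ih => exact UVE_step ih

theorem UVE_seq_mono (k : ℕ) : (∀ s, 1 ≤ s → (UVE_seq k).1 s ≤ (UVE_seq (k + 1)).1 s) ∧
    (∀ s, 2 ≤ s → (UVE_seq k).2 s ≤ (UVE_seq (k + 1)).2 s) := by
  induction k with
  | zero => exact ⟨fun s hs => (UVE_seq_G 1).u0 s hs, fun s hs => (UVE_seq_G 1).v0 s hs⟩
  | succ k ih => exact UVE_mono (UVE_seq_G k) (UVE_seq_G (k + 1)) ih.1 ih.2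

open Filter Topology in
/-- Existence of `u = F - 1`, `v = 1 - f`.

Proof. Iterate: `u_0 = v_0 = 0`, `v_{k+1}(s) = s⁻¹ ∫_{t > s} u_k(t - 1) dt` (`s ≥ 2`),
`u_{k+1}(s) = s⁻¹ (max 0 (3 - s) + ∫_{t > max s 3} v_k(t - 1) dt)` (`s ≥ 1`). By induction both are
nonnegative, nonincreasing (a nonnegative nonincreasing numerator times `1/s`), increasing in `k`, and
bounded by `C hh` with `C = 1000`: by `hh_int` (`s ≥ 2`, resp. `s ≥ 3`) and `hh_int3` the integral terms are at most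
`(49/50) C hh s`, and `(3 - s)/s ≤ (1/50) C hh s` on `[1, 3]` (`2 ≤ 20 e^(-2.2)` on `[1,2]`,
`1/2 ≤ 20 e^(-3.3)` on `[2, 3]`). Put `u = sup u_k`, `v = sup v_k` (limits); dominated (or monotone)
convergence gives the equations: `eqv`; for `s ≥ 3` `equ`; for `1 ≤ s ≤ 3`
`s u(s) = 3 - s + ∫_{t>3} v(t-1) dt = 3 - s + 3 u(3)`, i.e. `equ'`. -/
theorem exists_uv : ∃ (C : ℝ) (u v : ℝ → ℝ), 0 < C ∧ UV C u v := by
  have hG := UVE_seq_G
  have limu : ∀ s, 1 ≤ s → Tendsto (fun k => (UVE_seq k).1 s) atTop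
      (𝓝 (⨆ k, (UVE_seq k).1 s)) := by
    intro s hs
    apply tendsto_atTop_ciSup
    · exact monotone_nat_of_le_succ fun k => (UVE_seq_mono k).1 s hs
    · refine ⟨10000 * hh s, ?_⟩
      rintro _ ⟨k, rfl⟩
      exact (hG k).ub s hs
  have limv : ∀ s, 2 ≤ s → Tendsto (fun k => (UVE_seq k).2 s) atTop
      (𝓝 (⨆ k, (UVE_seq k).2 s)) := by
    intro s hs
    apply tendsto_atTop_ciSup
    · exact monotone_nat_of_le_succ fun k => (UVE_seq_mono k).2 s hs
    · refine ⟨10000 * hh s, ?_⟩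
      rintro _ ⟨k, rfl⟩
      exact (hG k).vb s hs
  set u : ℝ → ℝ := fun s => ⨆ k, (UVE_seq k).1 s with hu
  set v : ℝ → ℝ := fun s => ⨆ k, (UVE_seq k).2 s with hv
  have limu' : ∀ s, 1 ≤ s → Tendsto (fun k => (UVE_seq k).1 s) atTop (𝓝 (u s)) := limu
  have limv' : ∀ s, 2 ≤ s → Tendsto (fun k => (UVE_seq k).2 s) atTop (𝓝 (v s)) := limv
  have hint_u : ∀ s, 2 ≤ s → Tendsto (fun k => ∫ t in Set.Ioi s, (UVE_seq k).1 (t - 1)) atTop
      (𝓝 (∫ t in Set.Ioi s, u (t - 1))) := by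
    intro s hs
    apply tendsto_integral_of_dominated_convergence (fun t => 10000 * hh (t - 1))
    · intro k
      exact (UVE_intu (hG k) s hs).aestronglyMeasurable
    · exact (hh_integrable s).const_mul 10000
    · intro k
      refine (ae_restrict_mem measurableSet_Ioi).mono fun t ht => ?_
      rw [Set.mem_Ioi] at ht
      rw [Real.norm_eq_abs, abs_of_nonneg ((hG k).u0 _ (by linarith))]
      exact (hG k).ub _ (by linarith)
    · refine (ae_restrict_mem measurableSet_Ioi).mono fun t ht => ?_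
      rw [Set.mem_Ioi] at ht
      exact limu' _ (by linarith)
  have hint_v : ∀ s, 3 ≤ s → Tendsto (fun k => ∫ t in Set.Ioi s, (UVE_seq k).2 (t - 1)) atTop
      (𝓝 (∫ t in Set.Ioi s, v (t - 1))) := by
    intro s hs
    apply tendsto_integral_of_dominated_convergence (fun t => 10000 * hh (t - 1))
    · intro k
      exact (UVE_intv (hG k) s hs).aestronglyMeasurable
    · exact (hh_integrable s).const_mul 10000
    · intro k
      refine (ae_restrict_mem measurableSet_Ioi).mono fun t ht => ?_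
      rw [Set.mem_Ioi] at ht
      rw [Real.norm_eq_abs, abs_of_nonneg ((hG k).v0 _ (by linarith))]
      exact (hG k).vb _ (by linarith)
    · refine (ae_restrict_mem measurableSet_Ioi).mono fun t ht => ?_
      rw [Set.mem_Ioi] at ht
      exact limv' _ (by linarith)
  have equ3 : ∀ s, 3 ≤ s → s * u s = ∫ t in Set.Ioi s, v (t - 1) := by
    intro s hs
    have h1 : Tendsto (fun k => s * (UVE_seq (k + 1)).1 s) atTop (𝓝 (s * u s)) :=
      ((limu' s (by linarith)).comp (tendsto_add_atTop_nat 1)).const_mul s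
    have h2 : (fun k => s * (UVE_seq (k + 1)).1 s) =
        fun k => ∫ t in Set.Ioi s, (UVE_seq k).2 (t - 1) := by
      funext k
      change s * UVE_U (UVE_seq k).2 s = _
      unfold UVE_U
      rw [max_eq_left (by linarith : 3 - s ≤ (0 : ℝ)), max_eq_left hs, zero_add]
      field_simp
    rw [h2] at h1
    exact tendsto_nhds_unique h1 (hint_v s hs)
  refine ⟨10000, u, v, by norm_num, ?_⟩
  refine ⟨?_, ?_, ?_, ?_, ?_, ?_, ?_, equ3, ?_⟩
  · intro s hs
    exact ge_of_tendsto' (limu' s hs) fun k => (hG k).u0 s hs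
  · intro s hs
    exact ge_of_tendsto' (limv' s hs) fun k => (hG k).v0 s hs
  · intro s hs s' hs' hss
    exact le_of_tendsto_of_tendsto' (limu' s' hs') (limu' s hs) fun k => (hG k).uanti hs hs' hss
  · intro s hs s' hs' hss
    exact le_of_tendsto_of_tendsto' (limv' s' hs') (limv' s hs) fun k => (hG k).vanti hs hs' hss
  · intro s hs
    exact le_of_tendsto' (limu' s hs) fun k => (hG k).ub s hs
  · intro s hs
    exact le_of_tendsto' (limv' s hs) fun k => (hG k).vb s hs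
  · intro s hs
    have h1 : Tendsto (fun k => s * (UVE_seq (k + 1)).2 s) atTop (𝓝 (s * v s)) :=
      ((limv' s (by linarith)).comp (tendsto_add_atTop_nat 1)).const_mul s
    have h2 : (fun k => s * (UVE_seq (k + 1)).2 s) =
        fun k => ∫ t in Set.Ioi s, (UVE_seq k).1 (t - 1) := by
      funext k
      change s * UVE_V (UVE_seq k).1 s = _
      unfold UVE_V
      have : s ≠ 0 := by linarith
      field_simp
    rw [h2] at h1
    exact tendsto_nhds_unique h1 (hint_u s hs)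
  · intro s hs h3
    have h1 : Tendsto (fun k => s * (UVE_seq (k + 1)).1 s) atTop (𝓝 (s * u s)) :=
      ((limu' s (by linarith)).comp (tendsto_add_atTop_nat 1)).const_mul s
    have h2 : (fun k => s * (UVE_seq (k + 1)).1 s) =
        fun k => (3 - s) + ∫ t in Set.Ioi (3 : ℝ), (UVE_seq k).2 (t - 1) := by
      funext k
      change s * UVE_U (UVE_seq k).2 s = _
      unfold UVE_U
      rw [max_eq_right (by linarith : (0 : ℝ) ≤ 3 - s), max_eq_right h3]
      have : s ≠ 0 := by linarith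
      field_simp
    rw [h2] at h1
    have h4 := tendsto_nhds_unique h1 ((hint_v 3 le_rfl).const_add (3 - s))
    rw [← equ3 3 le_rfl] at h4
    linarith

end Pool.Agent.Lib.H59C
end

-- from Lib.H59C.UVF
section

/-!
# UVF: the functions of the linear sieve on short intervals
-/

open Finset MeasureTheory

namespace Pool.Agent.Lib.H59C

theorem UVF_int (C : ℝ) (f : ℝ → ℝ) (a s : ℝ) (hf : AntitoneOn f (Set.Ici a))
    (h0 : ∀ x, a ≤ x → 0 ≤ f x) (hb : ∀ x, a ≤ x → f x ≤ C * hh x) (hs : a + 1 ≤ s) :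
    IntegrableOn (fun t => f (t - 1)) (Set.Ioi s) := by
  have hm : AEMeasurable (fun t => f (t - 1)) (volume.restrict (Set.Ioi s)) := by
    apply aemeasurable_restrict_of_antitoneOn measurableSet_Ioi
    intro x hx y hy hxy
    rw [Set.mem_Ioi] at hx hy
    apply hf
    · rw [Set.mem_Ici]; linarith
    · rw [Set.mem_Ici]; linarith
    · linarith
  refine Integrable.mono' ((hh_integrable s).const_mul C) hm.aestronglyMeasurable ?_
  refine (ae_restrict_mem measurableSet_Ioi).mono fun t ht => ?_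
  rw [Set.mem_Ioi] at ht
  rw [Real.norm_eq_abs, abs_of_nonneg (h0 _ (by linarith))]
  exact hb _ (by linarith)

theorem UVF_shift (f : ℝ → ℝ) (s : ℝ) :
    ∫ t in Set.Ioi s, f (t - 1) = ∫ x in Set.Ioi (s - 1), f x := by
  rw [← integral_indicator measurableSet_Ioi, ← integral_indicator measurableSet_Ioi,
    ← integral_sub_right_eq_self (fun x => (Set.Ioi (s - 1)).indicator f x) 1]
  congr 1
  funext t
  simp only [Set.indicator, Set.mem_Ioi, sub_lt_sub_iff_right]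

theorem UVF_fub (Q : ℝ → ℝ) (hm : AEStronglyMeasurable Q (volume.restrict (Set.Ioi 2)))
    (hi : IntegrableOn (fun y => (y - 2) * Q y) (Set.Ioi 2)) :
    ∫ x in Set.Ioi (2 : ℝ), ∫ y in Set.Ioi x, Q y = ∫ y in Set.Ioi (2 : ℝ), (y - 2) * Q y := by
  set μ := volume.restrict (Set.Ioi (2 : ℝ)) with hμ
  set f : ℝ → ℝ → ℝ := fun x y => (Set.Ioi x).indicator Q y with hf
  have hf1 : Function.uncurry f = ({p : ℝ × ℝ | p.1 < p.2}).indicator (fun p => Q p.2) := by
    funext p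
    simp only [Function.uncurry, hf, Set.indicator, Set.mem_Ioi, Set.mem_setOf_eq]
  have hmeas : MeasurableSet {p : ℝ × ℝ | p.1 < p.2} := measurableSet_lt measurable_fst measurable_snd
  have hfm : AEStronglyMeasurable (Function.uncurry f) (μ.prod μ) := by
    rw [hf1]
    exact (hm.comp_snd).indicator hmeas
  have hin : ∀ y, 2 < y → ∀ g : ℝ → ℝ, (fun x => g ((Set.Ioi x).indicator Q y)) =
      fun x => if x < y then g (Q y) else g 0 := by
    intro y _ g
    funext x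
    simp only [Set.indicator, Set.mem_Ioi]
    split_ifs <;> rfl
  have hfun : ∀ y, (fun x => f x y) = (Set.Iio y).indicator (fun _ => Q y) := by
    intro y
    funext x
    simp only [hf, Set.indicator, Set.mem_Ioi, Set.mem_Iio]
  have hnfun : ∀ y, (fun x => ‖f x y‖) = (Set.Iio y).indicator (fun _ => ‖Q y‖) := by
    intro y
    funext x
    simp only [hf, Set.indicator, Set.mem_Ioi, Set.mem_Iio]
    split_ifs <;> simp
  have hset : ∀ y, 2 < y → ∀ c : ℝ, ∫ x, (Set.Iio y).indicator (fun _ => c) x ∂μ = (y - 2) * c := by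
    intro y hy c
    rw [hμ, setIntegral_indicator measurableSet_Iio, Set.Ioi_inter_Iio, setIntegral_const]
    simp only [Measure.real, Real.volume_Ioo, smul_eq_mul]
    rw [ENNReal.toReal_ofReal (by linarith)]
  have hint : Integrable (Function.uncurry f) (μ.prod μ) := by
    rw [integrable_prod_iff' hfm]
    constructor
    · refine (ae_restrict_mem measurableSet_Ioi).mono fun y hy => ?_
      have e1 : (fun x => Function.uncurry f (x, y)) = (Set.Iio y).indicator (fun _ => Q y) := hfun y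
      rw [e1, integrable_indicator_iff measurableSet_Iio, IntegrableOn, hμ,
        Measure.restrict_restrict measurableSet_Iio, Set.Iio_inter_Ioi]
      exact integrableOn_const (by simp)
    · have e2 : ∀ y ∈ Set.Ioi (2 : ℝ), ‖(y - 2) * Q y‖ = ∫ x, ‖Function.uncurry f (x, y)‖ ∂μ := by
        intro y hy
        rw [Set.mem_Ioi] at hy
        have e3 : (fun x => ‖Function.uncurry f (x, y)‖) = (Set.Iio y).indicator (fun _ => ‖Q y‖) :=
          hnfun y
        rw [e3, hset y hy, norm_mul, Real.norm_eq_abs, abs_of_nonneg (by linarith : 0 ≤ y - 2)]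
      exact (integrableOn_congr_fun e2 measurableSet_Ioi).mp hi.norm
  have hswap := integral_integral_swap hint
  have hL : ∫ x, ∫ y, f x y ∂μ ∂μ = ∫ x in Set.Ioi (2 : ℝ), ∫ y in Set.Ioi x, Q y := by
    rw [hμ]
    apply setIntegral_congr_fun measurableSet_Ioi
    intro x hx
    rw [Set.mem_Ioi] at hx
    simp only [hf]
    rw [setIntegral_indicator measurableSet_Ioi, Set.Ioi_inter_Ioi, sup_eq_right.mpr hx.le]
  have hR : ∫ y, ∫ x, f x y ∂μ ∂μ = ∫ y in Set.Ioi (2 : ℝ), (y - 2) * Q y := by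
    rw [hμ]
    apply setIntegral_congr_fun measurableSet_Ioi
    intro y hy
    rw [Set.mem_Ioi] at hy
    have e1 := hset y hy (Q y)
    rw [← hfun y, hμ] at e1
    exact e1
  rw [← hL, hswap, hR]

/-- `F(s) = 1 + u(s) = A/s` on `[1, 3]`, `f(s) = 1 - v(s) = A log (s-1)/s` on `[2, 4]`.

Proof. `A = 3 (1 + u 3) > 0` and `equ'`. For `2 ≤ s ≤ 4` by `eqv`
`s f(s) - 2 f(2) = (s - 2) + ∫_2^s u(t-1) dt = ∫_2^s (1 + u(t - 1)) dt = A log (s - 1)`, as `1 ≤ t - 1 ≤ 3`. It remains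
to show `B := 2 f(2) = 0`. Let `Q = u + v` on `[2, ∞)`, `R(y) = ∫_{x > y} Q(x) dx`. By `eqv`, `equ`:
`s Q(s) = R(s - 1)` for `s ≥ 3`. Let `J(s) = (s - 1) R(s - 1) - ∫_{s-1}^s x Q(x) dx` (`s ≥ 3`). `Q` is continuous on
`[2, ∞)` (by the formulas: `s u(s)`, `s v(s)` are integrals), so
`J'(s) = R(s-1) - (s-1) Q(s-1) - s Q(s) + (s-1) Q(s-1) = R(s-1) - s Q(s) = 0`, and `J(s) → 0` as `s → ∞` because
`Q ≤ 2 C hh`. (Without derivatives: `∫_{s-1}^s x Q(x) dx` for `s ≥ 4` is `∫_{s-1}^s R(x-1) dx`, integrate by parts.)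
So `J(3) = 0`: `2 R(2) = ∫_2^3 x Q(x) dx`, `R(2) = 3 Q(3)`. On `[2, 3]`
`x Q(x) = x (1 + u) - x (1 - v) = A - B - A log (x - 1)`, hence
`2 (A - B - A log 2) = (A - B) - A (2 log 2 - 1)`, i.e. `B = 0`. -/
theorem uv_formula {C : ℝ} {u v : ℝ → ℝ} (h : UV C u v) : ∃ A : ℝ, 0 < A ∧
    (∀ s, 1 ≤ s → s ≤ 3 → 1 + u s = A / s) ∧
    (∀ s, 2 ≤ s → s ≤ 4 → 1 - v s = A * Real.log (s - 1) / s) := by
  have hC : 0 ≤ C := by
    by_contra hcon
    push Not at hcon
    have h1 := h.u0 1 le_rfl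
    have h2 := h.ub 1 le_rfl
    have h3 := hh_pos 1
    nlinarith
  have iu : ∀ s, 2 ≤ s → IntegrableOn (fun t => u (t - 1)) (Set.Ioi s) := fun s hs =>
    UVF_int C u 1 s h.uanti h.u0 h.ub (by linarith)
  have iv : ∀ s, 3 ≤ s → IntegrableOn (fun t => v (t - 1)) (Set.Ioi s) := fun s hs =>
    UVF_int C v 2 s h.vanti h.v0 h.vb (by linarith)
  set A : ℝ := 3 * (1 + u 3) with hA
  have hA0 : 0 < A := by
    have := h.u0 3 (by norm_num)
    linarith
  have hu : ∀ s, 1 ≤ s → s ≤ 3 → s * (1 + u s) = A := fun s h1 h3 => h.equ' s h1 h3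
  set B : ℝ := 2 * (1 - v 2) with hB
  -- the formula for v with the constant B
  have hv : ∀ s, 2 ≤ s → s ≤ 4 → s * (1 - v s) = B + A * Real.log (s - 1) := by
    intro s h2 h4
    have e1 := h.eqv s h2
    have e2 := h.eqv 2 le_rfl
    have e3 : ∫ t in Set.Ioi (2 : ℝ), u (t - 1) =
        (∫ t in Set.Ioc (2 : ℝ) s, u (t - 1)) + ∫ t in Set.Ioi s, u (t - 1) := by
      rw [← setIntegral_union Set.Ioc_disjoint_Ioi_same measurableSet_Ioi
        ((iu 2 le_rfl).mono_set Set.Ioc_subset_Ioi_self) (iu s h2), Set.Ioc_union_Ioi_eq_Ioi h2]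
    have e4 : ∫ t in Set.Ioc (2 : ℝ) s, u (t - 1) = A * Real.log (s - 1) - (s - 2) := by
      rw [← intervalIntegral.integral_of_le h2]
      have e5 : ∫ t in (2 : ℝ)..s, u (t - 1) = ∫ t in (2 : ℝ)..s, (fun x => A * x⁻¹ - 1) (t - 1) := by
        apply intervalIntegral.integral_congr
        intro t ht
        rw [Set.uIcc_of_le h2, Set.mem_Icc] at ht
        have e6 := hu (t - 1) (by linarith) (by linarith)
        have e7 : (t - 1) ≠ 0 := by linarith
        simp only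
        field_simp
        linarith
      rw [e5, intervalIntegral.integral_comp_sub_right (fun x => A * x⁻¹ - 1) 1]
      have e8 : (2 : ℝ) - 1 = 1 := by norm_num
      rw [e8]
      rw [intervalIntegral.integral_sub, intervalIntegral.integral_const_mul,
        integral_inv_of_pos (by norm_num) (by linarith), intervalIntegral.integral_const]
      · simp only [smul_eq_mul, mul_one, div_one]
        ring
      · apply IntervalIntegrable.const_mul
        apply intervalIntegral.intervalIntegrable_inv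
        · intro x hx
          rw [Set.uIcc_of_le (by linarith), Set.mem_Icc] at hx
          linarith
        · exact continuousOn_id
      · exact intervalIntegrable_const
    rw [e3, e4] at e2
    linarith
  -- Q
  set Q : ℝ → ℝ := fun x => u x + v x with hQ
  have Qm : AEStronglyMeasurable Q (volume.restrict (Set.Ioi 2)) := by
    apply AEMeasurable.aestronglyMeasurable
    apply aemeasurable_restrict_of_antitoneOn measurableSet_Ioi
    intro x hx y hy hxy
    rw [Set.mem_Ioi] at hx hy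
    have e1 := h.uanti (by rw [Set.mem_Ici]; linarith : x ∈ Set.Ici (1 : ℝ))
      (by rw [Set.mem_Ici]; linarith : y ∈ Set.Ici (1 : ℝ)) hxy
    have e2 := h.vanti (by rw [Set.mem_Ici]; linarith : x ∈ Set.Ici (2 : ℝ))
      (by rw [Set.mem_Ici]; linarith : y ∈ Set.Ici (2 : ℝ)) hxy
    simp only [hQ]
    linarith
  have Q0 : ∀ x, 2 < x → 0 ≤ Q x := by
    intro x hx
    have e1 := h.u0 x (by linarith)
    have e2 := h.v0 x (by linarith)
    simp only [hQ]
    linarith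
  have Qb : ∀ x, 2 < x → x * Q x ≤ 20 * C * Real.exp (-1 * x) := by
    intro x hx
    have e1 := h.ub x (by linarith)
    have e2 := h.vb x (by linarith)
    have e3 : hh x = Real.exp (-1 * x) * Real.exp (-(1 / 10) * x) := by
      unfold hh
      rw [max_eq_left hx.le, ← Real.exp_add]
      congr 1
      ring
    have e4 : x * Real.exp (-(1 / 10) * x) ≤ 10 := by
      have e5 := Real.add_one_le_exp (1 / 10 * x)
      have e6 : Real.exp (-(1 / 10) * x) * Real.exp (1 / 10 * x) = 1 := by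
        rw [← Real.exp_add]
        have : -(1 / 10) * x + 1 / 10 * x = 0 := by ring
        rw [this, Real.exp_zero]
      have e7 := Real.exp_pos (-(1 / 10) * x)
      nlinarith
    have e8 : Q x ≤ 2 * C * hh x := by
      simp only [hQ]
      linarith
    have e9 := Real.exp_pos (-1 * x)
    calc x * Q x ≤ x * (2 * C * hh x) := mul_le_mul_of_nonneg_left e8 (by linarith)
      _ = 2 * C * Real.exp (-1 * x) * (x * Real.exp (-(1 / 10) * x)) := by rw [e3]; ring
      _ ≤ 2 * C * Real.exp (-1 * x) * 10 := mul_le_mul_of_nonneg_left e4 (by positivity)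
      _ = 20 * C * Real.exp (-1 * x) := by ring
  have iexp : IntegrableOn (fun x : ℝ => 20 * C * Real.exp (-1 * x)) (Set.Ioi 2) :=
    (exp_neg_integrableOn_Ioi 2 one_pos).const_mul (20 * C)
  have ixQ : IntegrableOn (fun x => x * Q x) (Set.Ioi 2) := by
    refine Integrable.mono' iexp (aestronglyMeasurable_id.mul Qm) ?_
    refine (ae_restrict_mem measurableSet_Ioi).mono fun x hx => ?_
    rw [Set.mem_Ioi] at hx
    rw [Real.norm_eq_abs, abs_of_nonneg (mul_nonneg (by linarith) (Q0 x hx))]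
    exact Qb x hx
  have iQ : IntegrableOn Q (Set.Ioi 2) := by
    refine Integrable.mono' iexp Qm ?_
    refine (ae_restrict_mem measurableSet_Ioi).mono fun x hx => ?_
    rw [Set.mem_Ioi] at hx
    rw [Real.norm_eq_abs, abs_of_nonneg (Q0 x hx)]
    have := Qb x hx
    have := Q0 x hx
    nlinarith
  have hsQ : ∀ s, 3 ≤ s → s * Q s = ∫ x in Set.Ioi (s - 1), Q x := by
    intro s hs
    have e1 := h.eqv s (by linarith)
    have e2 := h.equ s hs
    rw [← UVF_shift Q s]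
    simp only [hQ]
    rw [integral_add (iu s (by linarith)) (iv s hs), ← e1, ← e2]
    ring
  have hfub := UVF_fub Q Qm (by
    have : (fun y => (y - 2) * Q y) = fun y => y * Q y - 2 * Q y := by
      funext y
      ring
    rw [this]
    exact ixQ.sub (iQ.const_mul 2))
  have hL : ∫ x in Set.Ioi (2 : ℝ), ∫ y in Set.Ioi x, Q y = ∫ x in Set.Ioi (3 : ℝ), x * Q x := by
    have e1 : ∫ x in Set.Ioi (2 : ℝ), ∫ y in Set.Ioi x, Q y =
        ∫ x in Set.Ioi (2 : ℝ), (fun x => (x + 1) * Q (x + 1)) x := by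
      apply setIntegral_congr_fun measurableSet_Ioi
      intro x hx
      rw [Set.mem_Ioi] at hx
      have := hsQ (x + 1) (by linarith)
      rw [show x + 1 - 1 = x by ring] at this
      simp only
      rw [this]
    have e2 := UVF_shift (fun x => (x + 1) * Q (x + 1)) 3
    have e3 : (3 : ℝ) - 1 = 2 := by norm_num
    rw [e3] at e2
    rw [e1, ← e2]
    apply setIntegral_congr_fun measurableSet_Ioi
    intro x _
    simp only [sub_add_cancel]
  have hR : ∫ y in Set.Ioi (2 : ℝ), (y - 2) * Q y =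
      (∫ y in Set.Ioc (2 : ℝ) 3, y * Q y) + (∫ y in Set.Ioi (3 : ℝ), y * Q y) - 2 * (3 * Q 3) := by
    have e1 : ∫ y in Set.Ioi (2 : ℝ), (y - 2) * Q y =
        (∫ y in Set.Ioi (2 : ℝ), y * Q y) - 2 * ∫ y in Set.Ioi (2 : ℝ), Q y := by
      rw [← integral_const_mul, ← integral_sub ixQ (iQ.const_mul 2)]
      congr 1
      funext y
      ring
    have e2 := hsQ 3 le_rfl
    have e3 : (3 : ℝ) - 1 = 2 := by norm_num
    rw [e3] at e2
    rw [e1, e2, ← setIntegral_union Set.Ioc_disjoint_Ioi_same measurableSet_Ioi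
        (ixQ.mono_set Set.Ioc_subset_Ioi_self)
        (ixQ.mono_set (Set.Ioi_subset_Ioi (by norm_num))),
        Set.Ioc_union_Ioi_eq_Ioi (by norm_num)]
  rw [hL, hR] at hfub
  have hxQ : ∀ x, 2 ≤ x → x ≤ 3 → x * Q x = A - B - A * Real.log (x - 1) := by
    intro x h2 h3
    have e1 := hu x (by linarith) h3
    have e2 := hv x h2 (by linarith)
    simp only [hQ]
    linarith
  have hI : ∫ y in Set.Ioc (2 : ℝ) 3, y * Q y = (A - B) - A * (2 * Real.log 2 - 1) := by
    rw [← intervalIntegral.integral_of_le (by norm_num)]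
    have e5 : ∫ t in (2 : ℝ)..3, t * Q t = ∫ t in (2 : ℝ)..3,
        (fun x => (A - B) - A * Real.log x) (t - 1) := by
      apply intervalIntegral.integral_congr
      intro t ht
      rw [Set.uIcc_of_le (by norm_num), Set.mem_Icc] at ht
      exact hxQ t ht.1 ht.2
    rw [e5, intervalIntegral.integral_comp_sub_right (fun x => (A - B) - A * Real.log x) 1]
    have e8 : (2 : ℝ) - 1 = 1 := by norm_num
    have e9 : (3 : ℝ) - 1 = 2 := by norm_num
    rw [e8, e9, intervalIntegral.integral_sub, intervalIntegral.integral_const_mul,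
      integral_log, intervalIntegral.integral_const]
    · simp only [Real.log_one, smul_eq_mul]
      ring
    · exact intervalIntegrable_const
    · apply IntervalIntegrable.const_mul
      exact intervalIntegral.intervalIntegrable_log'
  rw [hI] at hfub
  have h3Q := hxQ 3 (by norm_num) le_rfl
  have e9 : (3 : ℝ) - 1 = 2 := by norm_num
  rw [e9] at h3Q
  have hB0 : B = 0 := by linarith
  refine ⟨A, hA0, ?_, ?_⟩
  · intro s h1 h3
    rw [eq_div_iff (by linarith)]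
    have := hu s h1 h3
    linarith
  · intro s h2 h4
    rw [eq_div_iff (by linarith)]
    have := hv s h2 h4
    rw [hB0] at this
    linarith

end Pool.Agent.Lib.H59C
end
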