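import Pool.Agent.Lib.H1M.RV.M001
import Pool.Agent.Lib.H1M.RV.M003
import Pool.Agent.Lib.H1M.RV.M004

/-! Merged copies (to shorten the build) of Lib.H15P.PB6, Lib.H92G.Defs, Lib.H92G.G2, Lib.H92G.WG, Lib.H92G.G0, Lib.H92G.G3, Lib.H92G.G1, Lib.H68T.TENT, Lib.H18GB.Fej, Lib.H68T.KER, Lib.H68T.PV. -/

-- from Lib.H15P.PB6
section

/-!
# Chunk PB6: the fourth moment
-/

open Finset

namespace Pool.Agent.Lib.H15P

variable {ι J I : Type} [Fintype ι] [DecidableEq ι] [Fintype J] [DecidableEq J]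
  [Fintype I] [DecidableEq I]

theorem pb6_abs_ex_le (q : ι → ℝ) (h0 : ∀ i, 0 ≤ q i) (h1 : ∀ i, q i ≤ 1) (F G : Finset ι → ℝ)
    (h : ∀ A, |F A| ≤ G A) : |ex q F| ≤ ex q G := by
  unfold ex
  refine (Finset.abs_sum_le_sum_abs _ _).trans (Finset.sum_le_sum (fun A _ => ?_))
  rw [abs_mul, abs_of_nonneg (bw_nonneg q h0 h1 A)]
  exact mul_le_mul_of_nonneg_right (h A) (bw_nonneg q h0 h1 A)


theorem pb6_two (a b : ℝ) : |a| * |b| ≤ (1 / 2) * a ^ 2 + (1 / 2) * b ^ 2 := by
  have h := sq_nonneg (|a| - |b|)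
  have ha := sq_abs a
  have hb := sq_abs b
  nlinarith

theorem pb6_three (a b c : ℝ) :
    |a| * |b| * |c| ≤ (1 / 2) * a ^ 2 + ((1 / 4) * b ^ 4 + (1 / 4) * c ^ 4) := by
  have h := sq_nonneg (|a| - |b| * |c|)
  have h2 := sq_nonneg (b ^ 2 - c ^ 2)
  have ha := sq_abs a
  have hbc : (|b| * |c|) ^ 2 = b ^ 2 * c ^ 2 := by
    rw [mul_pow, sq_abs, sq_abs]
  nlinarith

theorem pb6_four (a b c d : ℝ) :
    |a| * |b| * |c| * |d| ≤ ((1 / 4) * a ^ 4 + (1 / 4) * b ^ 4) +
      ((1 / 4) * c ^ 4 + (1 / 4) * d ^ 4) := by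
  have h := sq_nonneg (|a| * |b| - |c| * |d|)
  have h2 := sq_nonneg (a ^ 2 - b ^ 2)
  have h3 := sq_nonneg (c ^ 2 - d ^ 2)
  have hab : (|a| * |b|) ^ 2 = a ^ 2 * b ^ 2 := by
    rw [mul_pow, sq_abs, sq_abs]
  have hcd : (|c| * |d|) ^ 2 = c ^ 2 * d ^ 2 := by
    rw [mul_pow, sq_abs, sq_abs]
  nlinarith







end Pool.Agent.Lib.H15P
end

-- from Lib.H92G.Defs
section

/-!
# H92G: definitions

Weights with form dependent one form functions. `ι` = index type of the primes, `J` = index type of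
the forms `b j + M t`, `I` = labels. `ex`, `EX`, `bw`, `cnt`, `adm`, `hit`, `qq`, `Forms`, `EP`,
`Lev`, `LevS` are those of `Lib/H15P/Defs`; `PC`, `p0`, `v` those of `Lib/H68T/Defs`.
-/

open Finset

namespace Pool.Agent.Lib.H92G

open Pool.Agent.Lib.H15P

/-! ## Weights (Part II) -/

/-- Factor of the form `j` with the label `o`. -/
noncomputable def dg {ι J I : Type} (D : J → I → Finset ι → ℝ) (j : J) :
    Option I → Finset ι → ℝ
  | none, _ => 1
  | some i, A => D j i A

/-- Sum over the labelings of `s` with coefficients `w`. -/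
noncomputable def LW {ι J I : Type} [Fintype J] (D : J → I → Finset ι → ℝ)
    (s : Finset (J → Option I)) (w : (J → Option I) → ℝ) (S : J → Finset ι) : ℝ :=
  ∑ l ∈ s, w l * ∏ j, dg D j (l j) (S j)

/-- The weight function (before squaring). -/
noncomputable def LG {ι J I : Type} [Fintype J] [DecidableEq J] [Fintype I] [DecidableEq I]
    (D : J → I → Finset ι → ℝ) (m : I → ℕ) (B : Finset J) (S : J → Finset ι) : ℝ :=
  LW D (adm B m) (fun _ => 1) S

/-- Second moments of the factors of the form `j`. -/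
noncomputable def GJ {ι J I : Type} [Fintype ι] [DecidableEq ι] (q : ι → ℝ)
    (D : J → I → Finset ι → ℝ) (j : J) : Option I → ℝ
  | none => 1
  | some i => ex q (fun A => D j i A ^ 2)

/-- Total weight of all labelings of `B`. -/
noncomputable def ZG {ι J I : Type} [Fintype ι] [DecidableEq ι] [Fintype I] (q : ι → ℝ)
    (D : J → I → Finset ι → ℝ) (B : Finset J) : ℝ :=
  ∏ j ∈ B, (1 + ∑ i, GJ q D j (some i))

/-- The hypotheses on the one form functions `D j i` (some of them may be `0`). -/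
structure GoodJ {ι J I : Type} [Fintype ι] [DecidableEq ι] (q : ι → ℝ)
    (D : J → I → Finset ι → ℝ) (h : ℝ) : Prop where
  q0 : ∀ i, 0 ≤ q i
  q1 : ∀ i, q i ≤ 1
  mean : ∀ j i, ex q (D j i) = 0
  orth : ∀ j i i', i ≠ i' → ex q (fun A => D j i A * D j i' A) = 0
  sq : ∀ j i, ex q (fun A => D j i A ^ 2) ≤ h
  fourth : ∀ j i, ex q (fun A => D j i A ^ 4) ≤ h

/-- Coefficient of the labeling `l` (outside `Z`) if no prime divides the forms of `Z`: sum over
the labelings `o` of `Z` such that `l` and `o` together are admissible. -/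
noncomputable def wZ {ι J I : Type} [Fintype J] [DecidableEq J] [Fintype I] [DecidableEq I]
    (D : J → I → Finset ι → ℝ) (m : I → ℕ) (Z : Finset J) (l : J → Option I) : ℝ :=
  ∑ o ∈ univ.filter (fun o : J → Option I => (∀ j, j ∉ Z → o j = none) ∧
      ∀ i, cnt l i + cnt o i ≤ m i), ∏ j ∈ Z, dg D j (o j) ∅




/-- Mean value over the `t` for which no prime of `P` divides `b + M t`. -/
noncomputable def EU (P : Finset ℕ) (M b : ℕ) (G : ℕ → ℝ) : ℝ :=
  (∑ t ∈ (range (∏ p ∈ P, p)).filter (fun t => (b + M * t).Coprime (∏ p ∈ P, p)), G t) /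
    ((∏ p ∈ P, p).totient : ℝ)




end Pool.Agent.Lib.H92G
end

-- from Lib.H92G.G2
section

/-!
# Chunk G2: the fourth moment

Compare `H15P/PB6` (`EX_LL_four_le`).
-/

open Finset

namespace Pool.Agent.Lib.H92G

open Pool.Agent.Lib.H15P

variable {ι J I : Type} [Fintype ι] [DecidableEq ι] [Fintype J] [DecidableEq J] [Fintype I]
  [DecidableEq I]

omit [Fintype J] [DecidableEq J] [Fintype I] [DecidableEq I] in
theorem g2_L1 (q : ι → ℝ) (D : J → I → Finset ι → ℝ) (h : ℝ) (hg : GoodJ q D h)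
    (hh : 0 ≤ h) (j : J) (i : I) : |ex q (fun A => D j i A)| ≤ h := by
  have e : ex q (fun A => D j i A) = 0 := hg.mean j i
  rw [e, abs_zero]
  exact hh

omit [Fintype J] [DecidableEq J] [Fintype I] [DecidableEq I] in
theorem g2_L2 (q : ι → ℝ) (D : J → I → Finset ι → ℝ) (h : ℝ) (hg : GoodJ q D h)
    (j : J) (i i' : I) : |ex q (fun A => D j i A * D j i' A)| ≤ h := by
  refine (pb6_abs_ex_le q hg.q0 hg.q1 _ (fun A => (1 / 2) * D j i A ^ 2 + (1 / 2) * D j i' A ^ 2)
    (fun A => ?_)).trans ?_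
  · rw [abs_mul]
    exact pb6_two _ _
  · rw [ex_add, ex_const_mul, ex_const_mul]
    have h1 := hg.sq j i
    have h2 := hg.sq j i'
    linarith

omit [Fintype J] [DecidableEq J] [Fintype I] [DecidableEq I] in
theorem g2_L3 (q : ι → ℝ) (D : J → I → Finset ι → ℝ) (h : ℝ) (hg : GoodJ q D h)
    (j : J) (i i' i'' : I) : |ex q (fun A => D j i A * D j i' A * D j i'' A)| ≤ h := by
  refine (pb6_abs_ex_le q hg.q0 hg.q1 _ (fun A => (1 / 2) * D j i A ^ 2 +
    ((1 / 4) * D j i' A ^ 4 + (1 / 4) * D j i'' A ^ 4)) (fun A => ?_)).trans ?_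
  · rw [abs_mul, abs_mul]
    exact pb6_three _ _ _
  · rw [ex_add, ex_const_mul, ex_add, ex_const_mul, ex_const_mul]
    have h1 := hg.sq j i
    have h2 := hg.fourth j i'
    have h3 := hg.fourth j i''
    linarith

omit [Fintype J] [DecidableEq J] [Fintype I] [DecidableEq I] in
theorem g2_L4 (q : ι → ℝ) (D : J → I → Finset ι → ℝ) (h : ℝ) (hg : GoodJ q D h)
    (j : J) (i i' i'' i''' : I) :
    |ex q (fun A => D j i A * D j i' A * D j i'' A * D j i''' A)| ≤ h := by
  refine (pb6_abs_ex_le q hg.q0 hg.q1 _ (fun A => ((1 / 4) * D j i A ^ 4 +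
    (1 / 4) * D j i' A ^ 4) + ((1 / 4) * D j i'' A ^ 4 + (1 / 4) * D j i''' A ^ 4))
    (fun A => ?_)).trans ?_
  · rw [abs_mul, abs_mul, abs_mul]
    exact pb6_four _ _ _ _
  · rw [ex_add, ex_add, ex_const_mul, ex_const_mul, ex_add, ex_const_mul, ex_const_mul]
    have h1 := hg.fourth j i
    have h2 := hg.fourth j i'
    have h3 := hg.fourth j i''
    have h4 := hg.fourth j i'''
    linarith

omit [Fintype J] [DecidableEq J] [Fintype I] [DecidableEq I] in
/-- Moments of products of at most four factors of the same form, not all of them trivial. One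
factor: mean `0`. Two, three, four factors: `|ab| ≤ (a^2 + b^2)/2`, `|abc| ≤ (a^2 + (bc)^2)/2`,
`(bc)^2 ≤ (b^4 + c^4)/2`, `|abcd| ≤ (a^4 + b^4 + c^4 + d^4)/4` (`pb6_two`, `pb6_three`,
`pb6_four`). -/
theorem abs_ex_four_leJ (q : ι → ℝ) (D : J → I → Finset ι → ℝ) (h : ℝ) (hg : GoodJ q D h)
    (hh : 0 ≤ h) (j : J) (o : Fin 4 → Option I) (ho : ∃ k, o k ≠ none) :
    |ex q (fun A => ∏ k, dg D j (o k) A)| ≤ h := by
  simp only [Fin.prod_univ_four]
  rcases h0 : o 0 with _ | i0 <;> rcases h1 : o 1 with _ | i1 <;>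
    rcases h2 : o 2 with _ | i2 <;> rcases h3 : o 3 with _ | i3 <;>
    simp only [dg, one_mul, mul_one]
  · exfalso
    obtain ⟨k, hk⟩ := ho
    fin_cases k
    · exact hk h0
    · exact hk h1
    · exact hk h2
    · exact hk h3
  · exact g2_L1 q D h hg hh j i3
  · exact g2_L1 q D h hg hh j i2
  · exact g2_L2 q D h hg j i2 i3
  · exact g2_L1 q D h hg hh j i1
  · exact g2_L2 q D h hg j i1 i3
  · exact g2_L2 q D h hg j i1 i2
  · exact g2_L3 q D h hg j i1 i2 i3
  · exact g2_L1 q D h hg hh j i0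
  · exact g2_L2 q D h hg j i0 i3
  · exact g2_L2 q D h hg j i0 i2
  · exact g2_L3 q D h hg j i0 i2 i3
  · exact g2_L2 q D h hg j i0 i1
  · exact g2_L3 q D h hg j i0 i1 i3
  · exact g2_L3 q D h hg j i0 i1 i2
  · exact g2_L4 q D h hg j i0 i1 i2 i3


end Pool.Agent.Lib.H92G
end

-- from Lib.H92G.WG
section

/-!
# The data of the weights for one value of `x`, the weight `nu`, the classes
-/

open Finset

namespace Pool.Agent.Lib.H92G

open Pool.Agent.Lib.H15P

/-- All data of the weight function and the inequalities between them. `KA` = bound for the number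
of allowed forms, `K` = bound for the number of all forms. Allowed forms (`true`) use the labels
`inl i`, disallowed forms (`false`) the labels `inr i`. -/
structure WG where
  P : Finset ℕ
  W : ℕ
  KA : ℕ
  K : ℕ
  nA : ℕ
  nD : ℕ
  DJ : Bool → (Fin nA ⊕ Fin nD) → Finset {p // p ∈ P} → ℝ
  m : (Fin nA ⊕ Fin nD) → ℕ
  R : (Fin nA ⊕ Fin nD) → ℝ
  lm : Finset {p // p ∈ P} → ℝ
  cA : ℝ
  h : ℝ
  C : ℝ
  lv : ℝ
  e : ℝ
  el : ℝ
  prime : ∀ p ∈ P, p.Prime
  big : ∀ p ∈ P, W < p
  nDpos : 0 < nD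
  Kpos : 1 ≤ K
  KW : 4 * K ^ 2 ≤ W
  cA0 : 0 ≤ cA
  good : GoodJ (qq P K) DJ h
  h0 : 0 ≤ h
  trl : ∀ i, DJ true (Sum.inl i) ∅ = cA
  trr : ∀ i A, DJ true (Sum.inr i) A = 0
  fll : ∀ i A, DJ false (Sum.inl i) A = 0
  flr : ∀ i, DJ false (Sum.inr i) ∅ = -1 / (nD : ℝ)
  hm : ∀ i, 2 * (KA * GJ (qq P K) DJ true (some i) + K * GJ (qq P K) DJ false (some i)) + R i
    ≤ m i
  hR : ∑ i, Real.exp (-R i) ≤ 1 / 4
  hG : ∀ a, ∑ i, GJ (qq P K) DJ a (some i) ≤ 1
  lm0 : ∀ A, 0 ≤ lm A
  lm1 : lm ∅ = 1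
  lmel : ex (qq P K) lm ≤ el
  el0 : 0 < el
  el1 : el ≤ 1
  e0 : 0 < e
  e1 : e ≤ 1 / 10
  hlm : K * (∑ i : Fin nD, Real.exp (-R (Sum.inr i))) * el ≤ e
  hC : Real.exp ((((nA + nD : ℕ) : ℝ) + 1) ^ 4 * h * K) ≤ C
  hKW : Real.exp (2 * (K : ℝ) ^ 2 / W) ≤ 1 + e
  lv1 : 1 ≤ lv
  levL : ∀ (J : Type) [Fintype J] [DecidableEq J] (al : J → Bool) (B : Finset J) (M : ℕ)
    (b : J → ℕ) (wt : (J → Option (Fin nA ⊕ Fin nD)) → ℝ),
    Fintype.card J ≤ K → (∀ l, |wt l| ≤ 1) →
      Lev (∏ p ∈ P, p)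
        (fun t => LW (fun j => DJ (al j)) (adm B m) wt (fun j => hit P (b j + M * t))) lv
  levlm : LevS P lm lv

/-- The factors of the forms `b + M t`, `b ∈ B`, if the elements of `A` are allowed. -/
def WG.Df (w : WG) (A B : Finset ℕ) :
    {b // b ∈ B} → (Fin w.nA ⊕ Fin w.nD) → Finset {p // p ∈ w.P} → ℝ :=
  fun j => w.DJ (decide (j.1 ∈ A))

/-- The weight at `t` of the system of the forms `b + M t`, `b ∈ B`. -/
noncomputable def WG.nu (w : WG) (A B : Finset ℕ) (M t : ℕ) : ℝ :=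
  LG (w.Df A B) w.m univ (fun j : {b // b ∈ B} => hit w.P (j.1 + M * t)) ^ 2 /
    ZG (qq w.P w.K) (w.Df A B) univ

/-- The value `1 + nA cA`: the gain at a prime of an allowed form. -/
noncomputable def WG.g (w : WG) : ℝ := 1 + w.nA * w.cA

/-- Hypotheses on a system of forms. -/
structure WG.Sys (w : WG) (A B : Finset ℕ) (M : ℕ) : Prop where
  AB : A ⊆ B
  cardA : A.card ≤ w.KA
  cardB : B.card ≤ w.K
  dist : ∀ b ∈ B, ∀ b' ∈ B, b ≤ b' + w.W
  cop : ∀ p ∈ w.P, ¬ p ∣ M

/-- Hypothesis on the length of the sums. -/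
def WG.Long (w : WG) (Y : ℕ) : Prop := 8 * w.K * w.g ^ 4 * w.lv ^ 4 ≤ w.e * w.el ^ 2 * Y

end Pool.Agent.Lib.H92G
end

-- from Lib.H92G.G0
section

/-!
# Chunk G0: sums over labelings with form dependent factors, tails

Compare `H15P/PB3` (`sum_supp`, `tail_supp`: the same with factors independent of the form).
-/

open Finset

namespace Pool.Agent.Lib.H92G

open Pool.Agent.Lib.H15P

variable {J I : Type} [Fintype J] [DecidableEq J] [Fintype I] [DecidableEq I]

/-- `Finset.prod_univ_sum` with the sets `univ` (`j ∈ B`) and `{none}` (`j ∉ B`). -/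
theorem sum_suppJ (a : J → Option I → ℝ) (h0 : ∀ j, a j none = 1) (B : Finset J) :
    ∑ l ∈ univ.filter (fun l : J → Option I => ∀ j, j ∉ B → l j = none), ∏ j, a j (l j)
      = ∏ j ∈ B, (1 + ∑ i, a j (some i)) := by
  classical
  set t : J → Finset (Option I) := fun j => if j ∈ B then univ else {none} with ht
  have h1 : univ.filter (fun l : J → Option I => ∀ j, j ∉ B → l j = none) =
      Fintype.piFinset t := by
    ext l
    simp only [mem_filter, mem_univ, true_and, Fintype.mem_piFinset, ht]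
    constructor
    · intro h j
      by_cases hj : j ∈ B
      · rw [if_pos hj]; exact mem_univ _
      · rw [if_neg hj, mem_singleton]; exact h j hj
    · intro h j hj
      have := h j
      rw [if_neg hj, mem_singleton] at this
      exact this
  rw [h1, ← Finset.prod_univ_sum t (fun j o => a j o)]
  have h2 : ∀ j, ∑ o ∈ t j, a j o = if j ∈ B then (1 + ∑ i, a j (some i)) else 1 := by
    intro j
    by_cases hj : j ∈ B
    · simp only [ht, if_pos hj]
      rw [Fintype.sum_option, h0]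
    · simp only [ht, if_neg hj, sum_singleton, h0]
  rw [Finset.prod_congr rfl (fun j _ => h2 j), Finset.prod_ite_mem, Finset.univ_inter]

/-- Chernoff: `1[m0 ≤ cnt l i0] ≤ e^(cnt l i0 - m0)` and `e^(cnt l i0) = ∏_j (e if l j = some i0
else 1)` (`pb3_exp_cnt`), so by `sum_suppJ` the sum is at most
`e^(-m0) ∏_{j ∈ B} (1 + ∑_i a_j i + (e - 1) a_j i0)
 ≤ e^(-m0) ∏_{j ∈ B} (1 + ∑_i a_j i) e^(2 a_j i0)`. -/
theorem tail_suppJ (a : J → Option I → ℝ) (ha : ∀ j o, 0 ≤ a j o) (h0 : ∀ j, a j none = 1)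
    (B : Finset J) (i0 : I) (m0 : ℕ) (R : ℝ)
    (hm : 2 * ∑ j ∈ B, a j (some i0) + R ≤ m0) :
    ∑ l ∈ univ.filter (fun l : J → Option I => (∀ j, j ∉ B → l j = none) ∧ m0 ≤ cnt l i0),
        ∏ j, a j (l j)
      ≤ Real.exp (-R) * ∏ j ∈ B, (1 + ∑ i, a j (some i)) := by
  classical
  set e : ℝ := Real.exp 1 with he
  have he2 : e - 1 ≤ 2 := by
    have := Real.exp_one_lt_d9
    rw [he]; linarith
  have he1 : 1 ≤ e := by
    rw [he]; exact Real.one_le_exp (by norm_num)
  set a' : J → Option I → ℝ := fun j o => a j o * (if o = some i0 then e else 1) with ha'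
  have hprod : ∀ l : J → Option I, ∏ j, a' j (l j) = (∏ j, a j (l j)) * e ^ cnt l i0 := by
    intro l
    simp only [ha']
    rw [Finset.prod_mul_distrib, pb3_exp_cnt]
  have hP0 : ∀ l : J → Option I, 0 ≤ ∏ j, a j (l j) := fun l =>
    Finset.prod_nonneg (fun j _ => ha _ _)
  have hexp : ∀ n : ℕ, e ^ n = Real.exp n := by
    intro n
    rw [he, ← Real.exp_nat_mul, mul_one]
  have step1 : ∑ l ∈ univ.filter (fun l : J → Option I => (∀ j, j ∉ B → l j = none) ∧
        m0 ≤ cnt l i0), ∏ j, a j (l j)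
      ≤ ∑ l ∈ univ.filter (fun l : J → Option I => ∀ j, j ∉ B → l j = none),
        Real.exp (-(m0 : ℝ)) * ∏ j, a' j (l j) := by
    calc ∑ l ∈ univ.filter (fun l : J → Option I => (∀ j, j ∉ B → l j = none) ∧
          m0 ≤ cnt l i0), ∏ j, a j (l j)
        ≤ ∑ l ∈ univ.filter (fun l : J → Option I => (∀ j, j ∉ B → l j = none) ∧
          m0 ≤ cnt l i0), Real.exp (-(m0 : ℝ)) * ∏ j, a' j (l j) := by
          apply Finset.sum_le_sum
          intro l hl
          have hl2 := (Finset.mem_filter.1 hl).2.2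
          rw [hprod, hexp]
          have h1 : 1 ≤ Real.exp (-(m0 : ℝ)) * Real.exp (cnt l i0) := by
            rw [← Real.exp_add]
            apply Real.one_le_exp
            have : (m0 : ℝ) ≤ cnt l i0 := by exact_mod_cast hl2
            linarith
          calc ∏ j, a j (l j) = 1 * ∏ j, a j (l j) := by ring
            _ ≤ (Real.exp (-(m0 : ℝ)) * Real.exp (cnt l i0)) * ∏ j, a j (l j) :=
                mul_le_mul_of_nonneg_right h1 (hP0 l)
            _ = _ := by ring
      _ ≤ ∑ l ∈ univ.filter (fun l : J → Option I => ∀ j, j ∉ B → l j = none),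
            Real.exp (-(m0 : ℝ)) * ∏ j, a' j (l j) := by
          apply Finset.sum_le_sum_of_subset_of_nonneg
          · intro l hl
            have := (Finset.mem_filter.1 hl).2.1
            exact Finset.mem_filter.2 ⟨Finset.mem_univ _, this⟩
          · intro l _ _
            rw [hprod]
            exact mul_nonneg (Real.exp_pos _).le
              (mul_nonneg (hP0 l) (pow_nonneg (by linarith) _))
  refine step1.trans ?_
  rw [← Finset.mul_sum, sum_suppJ a' (fun j => by simp [ha', h0]) B]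
  have hsum : ∀ j, 1 + ∑ i, a' j (some i) = 1 + ∑ i, a j (some i) + (e - 1) * a j (some i0) := by
    intro j
    have h2 : ∀ i, a' j (some i) = a j (some i) +
        (if i = i0 then (e - 1) * a j (some i0) else 0) := by
      intro i
      by_cases hi : i = i0
      · subst hi
        simp only [ha', if_true]
        ring
      · have : ¬ ((some i : Option I) = some i0) := fun h => hi (Option.some_inj.1 h)
        simp only [ha', if_neg hi, if_neg this]
        ring
    rw [Finset.sum_congr rfl (fun i _ => h2 i), Finset.sum_add_distrib,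
      Finset.sum_ite_eq' univ i0 (fun _ => (e - 1) * a j (some i0)), if_pos (Finset.mem_univ _)]
    ring
  have h3 : ∏ j ∈ B, (1 + ∑ i, a' j (some i)) ≤
      (∏ j ∈ B, (1 + ∑ i, a j (some i))) * Real.exp (2 * ∑ j ∈ B, a j (some i0)) := by
    rw [Finset.mul_sum, Real.exp_sum, ← Finset.prod_mul_distrib]
    apply Finset.prod_le_prod
    · intro j _
      have : 0 ≤ ∑ i, a' j (some i) := by
        apply Finset.sum_nonneg
        intro i _
        simp only [ha']
        have := ha j (some i)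
        split_ifs
        · positivity
        · positivity
      linarith
    · intro j _
      rw [hsum]
      have hS1 : 1 ≤ 1 + ∑ i, a j (some i) := by
        have : 0 ≤ ∑ i, a j (some i) := Finset.sum_nonneg (fun i _ => ha _ _)
        linarith
      set S : ℝ := 1 + ∑ i, a j (some i) with hS
      set α := a j (some i0) with hα
      have hα0 : 0 ≤ α := ha _ _
      have h4 : (e - 1) * α ≤ 2 * α := mul_le_mul_of_nonneg_right he2 hα0
      calc S + (e - 1) * α ≤ S * (1 + 2 * α) := by nlinarith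
        _ ≤ S * Real.exp (2 * α) := by
            apply mul_le_mul_of_nonneg_left _ (by linarith)
            rw [add_comm]
            exact Real.add_one_le_exp _
  have hP : 0 ≤ ∏ j ∈ B, (1 + ∑ i, a j (some i)) := by
    apply Finset.prod_nonneg
    intro j _
    have : 0 ≤ ∑ i, a j (some i) := Finset.sum_nonneg (fun i _ => ha _ _)
    linarith
  calc Real.exp (-(m0 : ℝ)) * ∏ j ∈ B, (1 + ∑ i, a' j (some i))
      ≤ Real.exp (-(m0 : ℝ)) * ((∏ j ∈ B, (1 + ∑ i, a j (some i))) *
          Real.exp (2 * ∑ j ∈ B, a j (some i0))) :=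
        mul_le_mul_of_nonneg_left h3 (Real.exp_pos _).le
    _ = Real.exp (-(m0 : ℝ) + 2 * ∑ j ∈ B, a j (some i0)) *
          ∏ j ∈ B, (1 + ∑ i, a j (some i)) := by
        rw [Real.exp_add]
        ring
    _ ≤ Real.exp (-R) * ∏ j ∈ B, (1 + ∑ i, a j (some i)) := by
        apply mul_le_mul_of_nonneg_right _ hP
        apply Real.exp_le_exp.2
        linarith

/-- Union bound: the labelings with a saturated label (`m i ≤ cnt l i` for some `i`) are removed. -/
theorem sum_unsat_ge (a : J → Option I → ℝ) (ha : ∀ j o, 0 ≤ a j o) (h0 : ∀ j, a j none = 1)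
    (B : Finset J) (m : I → ℕ) (R : I → ℝ)
    (hm : ∀ i, 2 * ∑ j ∈ B, a j (some i) + R i ≤ m i) :
    (1 - ∑ i, Real.exp (-R i)) * ∏ j ∈ B, (1 + ∑ i, a j (some i)) ≤
      ∑ l ∈ univ.filter (fun l : J → Option I => (∀ j, j ∉ B → l j = none) ∧
        ∀ i, cnt l i < m i), ∏ j, a j (l j) := by
  classical
  have hP0 : ∀ l : J → Option I, 0 ≤ ∏ j, a j (l j) := fun l =>
    Finset.prod_nonneg (fun j _ => ha _ _)
  have h1 : ∑ l ∈ univ.filter (fun l : J → Option I => ∀ j, j ∉ B → l j = none), ∏ j, a j (l j) ≤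
      ∑ l ∈ univ.filter (fun l : J → Option I => (∀ j, j ∉ B → l j = none) ∧
        ∀ i, cnt l i < m i), ∏ j, a j (l j) +
      ∑ i, ∑ l ∈ univ.filter (fun l : J → Option I => (∀ j, j ∉ B → l j = none) ∧
        m i ≤ cnt l i), ∏ j, a j (l j) := by
    have e1 : ∑ i, ∑ l ∈ univ.filter (fun l : J → Option I => (∀ j, j ∉ B → l j = none) ∧
        m i ≤ cnt l i), ∏ j, a j (l j) =
        ∑ l ∈ univ.filter (fun l : J → Option I => ∀ j, j ∉ B → l j = none),
          ∑ i, if m i ≤ cnt l i then ∏ j, a j (l j) else 0 := by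
      rw [Finset.sum_comm]
      apply Finset.sum_congr rfl
      intro i _
      rw [← Finset.sum_filter, Finset.filter_filter]
    have e2 : ∑ l ∈ univ.filter (fun l : J → Option I => (∀ j, j ∉ B → l j = none) ∧
        ∀ i, cnt l i < m i), ∏ j, a j (l j) =
        ∑ l ∈ univ.filter (fun l : J → Option I => ∀ j, j ∉ B → l j = none),
          if ∀ i, cnt l i < m i then ∏ j, a j (l j) else 0 := by
      rw [← Finset.sum_filter, Finset.filter_filter]
    rw [e1, e2, ← Finset.sum_add_distrib]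
    apply Finset.sum_le_sum
    intro l _
    by_cases hl : ∀ i, cnt l i < m i
    · rw [if_pos hl]
      have : 0 ≤ ∑ i, if m i ≤ cnt l i then ∏ j, a j (l j) else 0 := by
        apply Finset.sum_nonneg
        intro i _
        split_ifs
        · exact hP0 l
        · exact le_rfl
      linarith
    · rw [if_neg hl, zero_add]
      push Not at hl
      obtain ⟨i, hi⟩ := hl
      have h2 := Finset.single_le_sum (f := fun i => if m i ≤ cnt l i then ∏ j, a j (l j) else 0)
        (fun i _ => by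
          show 0 ≤ if m i ≤ cnt l i then ∏ j, a j (l j) else 0
          split_ifs
          · exact hP0 l
          · exact le_rfl) (mem_univ i)
      simp only [if_pos hi] at h2
      exact h2
  have h2 : ∑ i, ∑ l ∈ univ.filter (fun l : J → Option I => (∀ j, j ∉ B → l j = none) ∧
        m i ≤ cnt l i), ∏ j, a j (l j) ≤
      ∑ i, Real.exp (-R i) * ∏ j ∈ B, (1 + ∑ i, a j (some i)) :=
    Finset.sum_le_sum fun i _ => tail_suppJ a ha h0 B i (m i) (R i) (hm i)
  rw [sum_suppJ a h0 B] at h1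
  rw [← Finset.sum_mul] at h2
  rw [sub_mul, one_mul]
  linarith

end Pool.Agent.Lib.H92G
end

-- from Lib.H92G.G3
section

/-!
# Chunk G3: configurations where no prime divides the forms of `Z`
-/

open Finset

namespace Pool.Agent.Lib.H92G

open Pool.Agent.Lib.H15P

variable {ι J I : Type} [Fintype J] [DecidableEq J] [Fintype I] [DecidableEq I]

omit [DecidableEq J] [Fintype I] in
theorem g3_cnt (Z : Finset J) (L l o : J → Option I) (h1 : ∀ j ∈ Z, l j = none)
    (h2 : ∀ j, j ∉ Z → l j = L j) (h3 : ∀ j ∈ Z, o j = L j) (h4 : ∀ j, j ∉ Z → o j = none) (i : I) :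
    cnt L i = cnt l i + cnt o i := by
  classical
  unfold cnt
  rw [← Finset.card_union_of_disjoint]
  · congr 1
    ext j
    simp only [mem_union, mem_filter, mem_univ, true_and]
    by_cases hj : j ∈ Z
    · rw [h1 j hj, h3 j hj]
      simp
    · rw [h2 j hj, h4 j hj]
      simp
  · rw [Finset.disjoint_left]
    intro j hj hj'
    simp only [mem_filter, mem_univ, true_and] at hj hj'
    by_cases hjZ : j ∈ Z
    · rw [h1 j hjZ] at hj
      simp at hj
    · rw [h4 j hjZ] at hj'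
      simp at hj'

/-- A labeling `L ∈ adm B m` is the same as a pair (`l` = `L` outside `Z`, `none` in `Z`; `o` = `L`
in `Z`, `none` outside `Z`) with `l` supported in `B \ Z`, `o` supported in `Z` and
`cnt L = cnt l + cnt o ≤ m`; then `l ∈ adm (B \ Z) m`. The product over all `j` of the factors of `L`
is the product of the factors of `l` over all `j` (`1` on `Z`) times the product of the factors of
`o` over `Z`, where `S j = ∅`. -/
theorem LG_restrict (D : J → I → Finset ι → ℝ) (m : I → ℕ) (B Z : Finset J) (hZ : Z ⊆ B)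
    (S : J → Finset ι) (hS : ∀ j ∈ Z, S j = ∅) :
    LG D m B S = LW D (adm (B \ Z) m) (wZ D m Z) S := by
  classical
  unfold LG LW wZ
  simp only [one_mul]
  have e1 : ∀ l : J → Option I, (∑ o ∈ univ.filter (fun o : J → Option I =>
      (∀ j, j ∉ Z → o j = none) ∧ ∀ i, cnt l i + cnt o i ≤ m i), ∏ j ∈ Z, dg D j (o j) ∅) *
      ∏ j, dg D j (l j) (S j) =
      ∑ o ∈ univ.filter (fun o : J → Option I =>
      (∀ j, j ∉ Z → o j = none) ∧ ∀ i, cnt l i + cnt o i ≤ m i),
        (∏ j ∈ Z, dg D j (o j) ∅) * ∏ j, dg D j (l j) (S j) := fun l => Finset.sum_mul _ _ _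
  rw [Finset.sum_congr rfl (fun l _ => e1 l), Finset.sum_sigma']
  refine Finset.sum_bij' (fun L _ => ⟨fun j => if j ∈ Z then none else L j,
    fun j => if j ∈ Z then L j else none⟩) (fun p _ => fun j => if j ∈ Z then p.2 j else p.1 j)
    ?_ ?_ ?_ ?_ ?_
  · intro L hL
    unfold adm at hL
    rw [mem_filter] at hL
    have hc := fun i => g3_cnt Z L (fun j => if j ∈ Z then none else L j)
      (fun j => if j ∈ Z then L j else none) (fun j hj => if_pos hj) (fun j hj => if_neg hj)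
      (fun j hj => if_pos hj) (fun j hj => if_neg hj) i
    rw [mem_sigma]
    constructor
    · unfold adm
      rw [mem_filter]
      refine ⟨mem_univ _, ?_, ?_⟩
      · intro j hj
        show (if j ∈ Z then none else L j) = none
        by_cases hjZ : j ∈ Z
        · rw [if_pos hjZ]
        · rw [if_neg hjZ]
          apply hL.2.1
          intro hjB
          exact hj (mem_sdiff.2 ⟨hjB, hjZ⟩)
      · intro i
        have := hL.2.2 i
        rw [hc i] at this
        show cnt (fun j => if j ∈ Z then none else L j) i ≤ m i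
        omega
    · rw [mem_filter]
      refine ⟨mem_univ _, fun j hj => if_neg hj, ?_⟩
      intro i
      have := hL.2.2 i
      rw [hc i] at this
      exact this
  · rintro ⟨l, o⟩ hp
    rw [mem_sigma] at hp
    obtain ⟨hl, ho⟩ := hp
    simp only at hl ho
    unfold adm at hl
    rw [mem_filter] at hl ho
    have hl0 : ∀ j ∈ Z, l j = none := fun j hj => hl.2.1 j (fun h => (mem_sdiff.1 h).2 hj)
    have hc := fun i => g3_cnt Z (fun j => if j ∈ Z then o j else l j) l o hl0
      (fun j hj => (if_neg hj).symm) (fun j hj => (if_pos hj).symm) ho.2.1 i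
    unfold adm
    rw [mem_filter]
    refine ⟨mem_univ _, ?_, ?_⟩
    · intro j hj
      show (if j ∈ Z then o j else l j) = none
      have hjZ : j ∉ Z := fun h => hj (hZ h)
      rw [if_neg hjZ]
      exact hl.2.1 j (fun h => hj (mem_sdiff.1 h).1)
    · intro i
      show cnt (fun j => if j ∈ Z then o j else l j) i ≤ m i
      rw [hc i]
      exact ho.2.2 i
  · intro L hL
    funext j
    show (if j ∈ Z then (if j ∈ Z then L j else none) else (if j ∈ Z then none else L j)) = L j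
    by_cases hj : j ∈ Z
    · rw [if_pos hj, if_pos hj]
    · rw [if_neg hj, if_neg hj]
  · rintro ⟨l, o⟩ hp
    rw [mem_sigma] at hp
    obtain ⟨hl, ho⟩ := hp
    simp only at hl ho
    unfold adm at hl
    rw [mem_filter] at hl ho
    have hl0 : ∀ j ∈ Z, l j = none := fun j hj => hl.2.1 j (fun h => (mem_sdiff.1 h).2 hj)
    have e2 : (fun j => if j ∈ Z then none else if j ∈ Z then o j else l j) = l := by
      funext j
      by_cases hj : j ∈ Z
      · rw [if_pos hj, hl0 j hj]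
      · rw [if_neg hj, if_neg hj]
    have e3 : (fun j => if j ∈ Z then (if j ∈ Z then o j else l j) else none) = o := by
      funext j
      by_cases hj : j ∈ Z
      · rw [if_pos hj, if_pos hj]
      · rw [if_neg hj, ho.2.1 j hj]
    simp only [e2, e3]
  · intro L hL
    show ∏ j, dg D j (L j) (S j) = (∏ j ∈ Z, dg D j (if j ∈ Z then L j else none) ∅) *
      ∏ j, dg D j (if j ∈ Z then none else L j) (S j)
    rw [← Finset.prod_mul_prod_compl Z (fun j => dg D j (L j) (S j)),
      ← Finset.prod_mul_prod_compl Z (fun j => dg D j (if j ∈ Z then none else L j) (S j))]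
    have a1 : ∏ j ∈ Z, dg D j (if j ∈ Z then none else L j) (S j) = 1 := by
      apply Finset.prod_eq_one
      intro j hj
      rw [if_pos hj]
      rfl
    have a2 : ∏ j ∈ Zᶜ, dg D j (if j ∈ Z then none else L j) (S j) =
        ∏ j ∈ Zᶜ, dg D j (L j) (S j) := by
      apply Finset.prod_congr rfl
      intro j hj
      rw [if_neg (mem_compl.1 hj)]
    have a3 : ∏ j ∈ Z, dg D j (if j ∈ Z then L j else none) ∅ =
        ∏ j ∈ Z, dg D j (L j) (S j) := by
      apply Finset.prod_congr rfl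
      intro j hj
      rw [if_pos hj, hS j hj]
    rw [a1, a2, a3, one_mul]

/-- If the values `D j i ∅` are nonnegative (`j ∈ Z`), all terms are nonnegative and the sum is at
most the sum over all labelings `o` supported in `Z`, which is the product
(`Finset.prod_univ_sum`, compare `sum_suppJ` in `G0`). -/
theorem wZ_bounds (D : J → I → Finset ι → ℝ) (m : I → ℕ) (Z : Finset J) (l : J → Option I)
    (hD : ∀ j ∈ Z, ∀ i, 0 ≤ D j i ∅) :
    0 ≤ wZ D m Z l ∧ wZ D m Z l ≤ ∏ j ∈ Z, (1 + ∑ i, D j i ∅) := by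
  classical
  have h0 : ∀ o : J → Option I, 0 ≤ ∏ j ∈ Z, dg D j (o j) ∅ := by
    intro o
    apply Finset.prod_nonneg
    intro j hj
    cases o j with
    | none => exact zero_le_one
    | some i => exact hD j hj i
  unfold wZ
  constructor
  · exact Finset.sum_nonneg fun o _ => h0 o
  · have h1 := sum_suppJ (fun j o => dg D j o ∅) (fun j => rfl) Z
    have h2 : ∏ j ∈ Z, (1 + ∑ i, D j i ∅) =
        ∑ o ∈ univ.filter (fun o : J → Option I => ∀ j, j ∉ Z → o j = none),
          ∏ j ∈ Z, dg D j (o j) ∅ := by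
      refine h1.symm.trans ?_
      apply Finset.sum_congr rfl
      intro o ho
      rw [mem_filter] at ho
      rw [← Finset.prod_mul_prod_compl Z (fun j => dg D j (o j) ∅)]
      have : ∏ j ∈ Zᶜ, dg D j (o j) ∅ = 1 := by
        apply Finset.prod_eq_one
        intro j hj
        rw [ho.2 j (mem_compl.1 hj)]
        rfl
      rw [this, mul_one]
    rw [h2]
    apply Finset.sum_le_sum_of_subset_of_nonneg
    · intro o ho
      rw [mem_filter] at ho ⊢
      exact ⟨ho.1, ho.2.1⟩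
    · intro o _ _
      exact h0 o

/-- One form: the labelings `o` of `{j0}` are `none` and the labels `i` with `cnt l i < m i`. -/
theorem wZ_single (D : J → I → Finset ι → ℝ) (m : I → ℕ) (j0 : J) (l : J → Option I)
    (hl : ∀ i, cnt l i ≤ m i) :
    wZ D m {j0} l = 1 + ∑ i ∈ univ.filter (fun i => cnt l i < m i), D j0 i ∅ := by
  classical
  set φ : Option I → (J → Option I) := fun x => Function.update (fun _ => none) j0 x with hφ
  have hφi : Function.Injective φ := by
    intro x y h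
    have := congrFun h j0
    simpa [hφ] using this
  have hcnt : ∀ (x : Option I) (i : I), cnt (φ x) i = if x = some i then 1 else 0 := by
    intro x i
    unfold cnt
    by_cases hx : x = some i
    · rw [if_pos hx]
      have : univ.filter (fun j => φ x j = some i) = {j0} := by
        ext j
        rw [mem_filter, mem_singleton]
        constructor
        · rintro ⟨_, h⟩
          by_contra hj
          rw [hφ] at h
          simp only [Function.update_of_ne hj] at h
          simp at h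
        · intro h
          subst h
          refine ⟨mem_univ _, ?_⟩
          rw [hφ]
          simp only [Function.update_self]
          exact hx
      rw [this, card_singleton]
    · rw [if_neg hx]
      rw [Finset.card_eq_zero, Finset.filter_eq_empty_iff]
      intro j _ h
      by_cases hj : j = j0
      · subst hj
        rw [hφ] at h
        simp only [Function.update_self] at h
        exact hx h
      · rw [hφ] at h
        simp only [Function.update_of_ne hj] at h
        simp at h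
  have hset : univ.filter (fun o : J → Option I => (∀ j, j ∉ ({j0} : Finset J) → o j = none) ∧
      ∀ i, cnt l i + cnt o i ≤ m i) =
      (univ.filter (fun x : Option I => ∀ i, x = some i → cnt l i < m i)).image φ := by
    ext o
    rw [mem_filter, mem_image]
    constructor
    · rintro ⟨_, h1, h2⟩
      have e : φ (o j0) = o := by
        funext j
        by_cases hj : j = j0
        · subst hj
          rw [hφ]
          simp only [Function.update_self]
        · rw [hφ]
          simp only [Function.update_of_ne hj]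
          exact (h1 j (by rw [mem_singleton]; exact hj)).symm
      refine ⟨o j0, ?_, e⟩
      rw [mem_filter]
      refine ⟨mem_univ _, ?_⟩
      intro i hi
      have h3 := h2 i
      rw [← e, hcnt, if_pos hi] at h3
      omega
    · rintro ⟨x, hx, rfl⟩
      rw [mem_filter] at hx
      refine ⟨mem_univ _, ?_, ?_⟩
      · intro j hj
        rw [mem_singleton] at hj
        rw [hφ]
        simp only [Function.update_of_ne hj]
      · intro i
        rw [hcnt]
        by_cases h : x = some i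
        · rw [if_pos h]
          exact hx.2 i h
        · rw [if_neg h, add_zero]
          exact hl i
  unfold wZ
  rw [hset, Finset.sum_image (fun a _ b _ h => hφi h), Finset.sum_filter, Fintype.sum_option]
  congr 1
  · rw [if_pos (by intro i hi; simp at hi), Finset.prod_singleton]
    rw [hφ]
    simp only [Function.update_self]
    rfl
  · rw [Finset.sum_filter]
    apply Finset.sum_congr rfl
    intro i _
    have hiff : (∀ i', (some i : Option I) = some i' → cnt l i' < m i') ↔ cnt l i < m i := by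
      constructor
      · intro h
        exact h i rfl
      · intro h i' hi'
        rw [← Option.some_inj.1 hi']
        exact h
    by_cases h : cnt l i < m i
    · rw [if_pos (hiff.2 h), if_pos h, Finset.prod_singleton]
      rw [hφ]
      simp only [Function.update_self]
      rfl
    · rw [if_neg (fun h' => h (hiff.1 h')), if_neg h]

end Pool.Agent.Lib.H92G
end

-- from Lib.H92G.G1
section

/-!
# Chunk G1: second moments

Compare `H15P/PB2` (`ex_dd_dd`, `EX_sq_mul`).
-/

open Finset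

namespace Pool.Agent.Lib.H92G

open Pool.Agent.Lib.H15P

variable {ι J I : Type} [Fintype ι] [DecidableEq ι] [Fintype J] [DecidableEq J] [Fintype I]
  [DecidableEq I]

omit [Fintype J] [DecidableEq J] [Fintype I] in
/-- Mean `0`, orthogonality. -/
theorem ex_dg_dg (q : ι → ℝ) (D : J → I → Finset ι → ℝ) (h : ℝ) (hg : GoodJ q D h) (j : J)
    (o o' : Option I) :
    ex q (fun A => dg D j o A * dg D j o' A) = if o = o' then GJ q D j o else 0 := by
  rcases o with _ | i <;> rcases o' with _ | i'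
  · simp only [dg, mul_one, if_true, GJ]
    exact ex_one q
  · simp only [dg, one_mul, reduceCtorEq, if_false]
    exact hg.mean j i'
  · simp only [dg, mul_one, reduceCtorEq, if_false]
    exact hg.mean j i
  · simp only [dg, Option.some.injEq, GJ]
    by_cases hii : i = i'
    · subst hii
      rw [if_pos rfl]
      congr 1
      funext A
      ring
    · rw [if_neg hii]
      exact hg.orth j i i' hii

omit [Fintype J] [DecidableEq J] [Fintype I] [DecidableEq I] in
theorem GJ_nonneg (q : ι → ℝ) (D : J → I → Finset ι → ℝ) (h : ℝ) (hg : GoodJ q D h) (j : J)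
    (o : Option I) : 0 ≤ GJ q D j o := by
  rcases o with _ | i
  · exact zero_le_one
  · exact ex_nonneg q hg.q0 hg.q1 _ fun A => sq_nonneg _

omit [DecidableEq I] in
theorem one_le_ZG (q : ι → ℝ) (D : J → I → Finset ι → ℝ) (h : ℝ) (hg : GoodJ q D h)
    (B : Finset J) : 1 ≤ ZG q D B := by
  unfold ZG
  have h1 : ∀ j ∈ B, (1 : ℝ) ≤ 1 + ∑ i, GJ q D j (some i) := by
    intro j _
    have : 0 ≤ ∑ i, GJ q D j (some i) := Finset.sum_nonneg fun i _ => GJ_nonneg q D h hg j _
    linarith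
  calc (1 : ℝ) = ∏ _j ∈ B, 1 := Finset.prod_const_one.symm
    _ ≤ ∏ j ∈ B, (1 + ∑ i, GJ q D j (some i)) :=
        Finset.prod_le_prod (fun _ _ => zero_le_one) h1

omit [DecidableEq I] in
theorem ZG_mono (q : ι → ℝ) (D : J → I → Finset ι → ℝ) (h : ℝ) (hg : GoodJ q D h)
    {B B' : Finset J} (hB : B ⊆ B') : ZG q D B ≤ ZG q D B' := by
  unfold ZG
  have h1 : ∀ j, (1 : ℝ) ≤ 1 + ∑ i, GJ q D j (some i) := by
    intro j
    have : 0 ≤ ∑ i, GJ q D j (some i) := Finset.sum_nonneg fun i _ => GJ_nonneg q D h hg j _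
    linarith
  apply Finset.prod_le_prod_of_subset_of_one_le hB
  · intro j _
    exact zero_le_one.trans (h1 j)
  · intro j _ _
    exact h1 j

/-- Square out, exchange, `EX_prod`; for `l ≠ l'` some factor `ex_dg_dg` is `0` (at the forms of
`Z` both labels are `none`, the factor is `ex F`). -/
theorem EX_LW_sq_mul (q : ι → ℝ) (D : J → I → Finset ι → ℝ) (h : ℝ) (hg : GoodJ q D h)
    (s : Finset (J → Option I)) (w : (J → Option I) → ℝ) (Z : Finset J)
    (hZ : ∀ l ∈ s, ∀ j ∈ Z, l j = none) (F : Finset ι → ℝ) :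
    EX q (fun S : J → Finset ι => LW D s w S ^ 2 * ∏ j ∈ Z, F (S j))
      = (∑ l ∈ s, w l ^ 2 * ∏ j, GJ q D j (l j)) * ex q F ^ Z.card := by
  have h1 : ∀ S : J → Finset ι,
      LW D s w S ^ 2 * ∏ j ∈ Z, F (S j) =
      ∑ l ∈ s, ∑ l' ∈ s, w l * w l' * ∏ j,
        (dg D j (l j) (S j) * dg D j (l' j) (S j) * if j ∈ Z then F (S j) else 1) := by
    intro S
    unfold LW
    rw [sq, sum_mul_sum, sum_mul]
    refine sum_congr rfl fun l _ => ?_
    rw [sum_mul]
    refine sum_congr rfl fun l' _ => ?_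
    rw [prod_mul_distrib, prod_mul_distrib]
    have e : ∏ j, (if j ∈ Z then F (S j) else 1) = ∏ j ∈ Z, F (S j) := by
      rw [Finset.prod_ite_mem, Finset.univ_inter]
    rw [e]
    ring
  simp only [h1]
  rw [EX_sum, sum_mul]
  refine sum_congr rfl fun l hl => ?_
  rw [EX_sum]
  have h3 : ∀ l' ∈ s, EX q (fun S : J → Finset ι => w l * w l' * ∏ j,
      (dg D j (l j) (S j) * dg D j (l' j) (S j) * if j ∈ Z then F (S j) else 1)) =
      if l' = l then w l ^ 2 * (∏ j, GJ q D j (l j)) * ex q F ^ Z.card else 0 := by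
    intro l' hl'
    rw [EX_const_mul, EX_prod q (fun j A => dg D j (l j) A * dg D j (l' j) A *
      if j ∈ Z then F A else 1)]
    by_cases hll : l' = l
    · subst hll
      rw [if_pos rfl]
      have e2 : ∏ j, ex q (fun A => dg D j (l' j) A * dg D j (l' j) A *
          if j ∈ Z then F A else 1) =
          ∏ j, (GJ q D j (l' j) * if j ∈ Z then ex q F else 1) := by
        refine prod_congr rfl fun j _ => ?_
        by_cases hj : j ∈ Z
        · rw [if_pos hj, hZ l' hl' j hj]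
          have e3 : (fun A => dg D j none A * dg D j none A * if j ∈ Z then F A else 1) = F := by
            funext A
            rw [if_pos hj]
            simp [dg]
          rw [e3]
          simp [GJ]
        · rw [if_neg hj, mul_one]
          have e3 : (fun A => dg D j (l' j) A * dg D j (l' j) A * if j ∈ Z then F A else 1) =
              fun A => dg D j (l' j) A * dg D j (l' j) A := by
            funext A
            rw [if_neg hj, mul_one]
          rw [e3, ex_dg_dg q D h hg, if_pos rfl]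
      rw [e2, prod_mul_distrib, Finset.prod_ite_mem, Finset.univ_inter, Finset.prod_const]
      ring
    · rw [if_neg hll]
      obtain ⟨j, hj⟩ := Function.ne_iff.1 hll
      have hjZ : j ∉ Z := by
        intro hjZ
        exact hj (by rw [hZ l hl j hjZ, hZ l' hl' j hjZ])
      have e1 : ex q (fun A => dg D j (l j) A * dg D j (l' j) A * if j ∈ Z then F A else 1) =
          0 := by
        have e3 : (fun A => dg D j (l j) A * dg D j (l' j) A * if j ∈ Z then F A else 1) =
            fun A => dg D j (l j) A * dg D j (l' j) A := by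
          funext A
          rw [if_neg hjZ, mul_one]
        rw [e3, ex_dg_dg q D h hg, if_neg (fun hh => hj hh.symm)]
      rw [prod_eq_zero (mem_univ j) e1, mul_zero]
  rw [sum_congr rfl h3, sum_ite_eq' s l, if_pos hl]

/-- `Z = ∅`. -/
theorem EX_LW_sq (q : ι → ℝ) (D : J → I → Finset ι → ℝ) (h : ℝ) (hg : GoodJ q D h)
    (s : Finset (J → Option I)) (w : (J → Option I) → ℝ) :
    EX q (fun S : J → Finset ι => LW D s w S ^ 2) =
      ∑ l ∈ s, w l ^ 2 * ∏ j, GJ q D j (l j) := by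
  have h1 := EX_LW_sq_mul q D h hg s w ∅ (fun l _ j hj => absurd hj (Finset.notMem_empty j))
    (fun _ => 0)
  simp only [Finset.prod_empty, mul_one, Finset.card_empty, pow_zero] at h1
  exact h1

end Pool.Agent.Lib.H92G
end

-- from Lib.H68T.TENT
section

/-!
# Chunk TENT: Mellin representation of the tent
-/

open Finset MeasureTheory

namespace Pool.Agent.Lib.H68T

/-- Mellin transform of `max 0 (1 - y)`. -/
theorem TENT_hasMellin (s : ℂ) (hs : 0 < s.re) :
    HasMellin (fun y : ℝ => ((max 0 (1 - y) : ℝ) : ℂ)) s (1 / (s * (s + 1))) := by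
  have h1 := hasMellin_one_Ioc hs
  have h2 := hasMellin_cpow_Ioc (a := 1) (s := s) (by simp; linarith)
  have h3 := hasMellin_sub h1.1 h2.1
  have hfun : ∀ y ∈ Set.Ioi (0 : ℝ),
      (Set.indicator (Set.Ioc 0 1) (fun _ => 1 : ℝ → ℂ) y -
        Set.indicator (Set.Ioc 0 1) (fun t => (t : ℂ) ^ (1 : ℂ) : ℝ → ℂ) y) =
      ((max 0 (1 - y) : ℝ) : ℂ) := by
    intro y hy
    have hy' : (0 : ℝ) < y := hy
    by_cases h : y ≤ 1
    · have hm : y ∈ Set.Ioc (0 : ℝ) 1 := ⟨hy', h⟩
      rw [Set.indicator_of_mem hm, Set.indicator_of_mem hm, Complex.cpow_one,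
        max_eq_right (by linarith)]
      push_cast
      ring
    · have hm : y ∉ Set.Ioc (0 : ℝ) 1 := fun h' => h h'.2
      rw [Set.indicator_of_notMem hm, Set.indicator_of_notMem hm, max_eq_left (by linarith)]
      simp
  have hs0 : s ≠ 0 := by
    intro h
    rw [h] at hs
    simp at hs
  have hs1 : s + 1 ≠ 0 := by
    intro h
    have := congrArg Complex.re h
    simp at this
    linarith
  refine ⟨?_, ?_⟩
  · have := h3.1
    refine MeasureTheory.IntegrableOn.congr_fun this (fun y hy => ?_) measurableSet_Ioi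
    simp only
    rw [hfun y hy]
  · have := h3.2
    rw [h1.2, h2.2] at this
    have e : 1 / s - 1 / (s + 1) = 1 / (s * (s + 1)) := by
      field_simp
      ring
    rw [e] at this
    rw [← this]
    refine MeasureTheory.setIntegral_congr_fun measurableSet_Ioi (fun y hy => ?_)
    simp only
    rw [hfun y hy]

/-- `‖1/((σ+it)(σ+1+it))‖` is integrable. -/
theorem TENT_integrable (σ : ℝ) (hσ : 0 < σ) :
    Integrable (fun t : ℝ => 1 / ((σ + t * Complex.I) * (σ + t * Complex.I + 1))) := by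
  have h1 : Integrable (fun t : ℝ => (1 + σ⁻¹ ^ 2) * (1 + t ^ 2)⁻¹) :=
    integrable_inv_one_add_sq.const_mul _
  have hne : ∀ t : ℝ, (σ + t * Complex.I : ℂ) ≠ 0 := by
    intro t h
    have := congrArg Complex.re h
    simp at this
    linarith
  have hne1 : ∀ t : ℝ, (σ + t * Complex.I + 1 : ℂ) ≠ 0 := by
    intro t h
    have := congrArg Complex.re h
    simp at this
    linarith
  refine h1.mono' ?_ ?_
  · refine Continuous.aestronglyMeasurable ?_
    refine Continuous.div continuous_const (by fun_prop) (fun t => mul_ne_zero (hne t) (hne1 t))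
  · refine Filter.Eventually.of_forall (fun t => ?_)
    have hn : ∀ a : ℝ, ‖(a + t * Complex.I : ℂ)‖ ^ 2 = a ^ 2 + t ^ 2 := by
      intro a
      rw [← Complex.normSq_eq_norm_sq, Complex.normSq_add_mul_I]
    have h2 : ‖(σ + t * Complex.I : ℂ)‖ ^ 2 = σ ^ 2 + t ^ 2 := hn σ
    have h3 : ‖(σ + t * Complex.I + 1 : ℂ)‖ ^ 2 = (σ + 1) ^ 2 + t ^ 2 := by
      have := hn (σ + 1)
      rw [← this]
      congr 2
      push_cast
      ring
    have h4 : ‖(σ + t * Complex.I : ℂ)‖ ≤ ‖(σ + t * Complex.I + 1 : ℂ)‖ := by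
      refine le_of_sq_le_sq ?_ (norm_nonneg _)
      rw [h2, h3]
      nlinarith
    have h5 : σ ^ 2 + t ^ 2 ≤ ‖(σ + t * Complex.I : ℂ)‖ * ‖(σ + t * Complex.I + 1 : ℂ)‖ := by
      rw [← h2, sq]
      exact mul_le_mul_of_nonneg_left h4 (norm_nonneg _)
    have h6 : 0 < σ ^ 2 + t ^ 2 := by positivity
    rw [norm_div, norm_one, norm_mul, ← div_eq_mul_inv]
    rw [div_le_div_iff₀ (lt_of_lt_of_le h6 h5) (by positivity)]
    calc 1 * (1 + t ^ 2) ≤ (1 + σ⁻¹ ^ 2) * (σ ^ 2 + t ^ 2) := by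
          have : σ⁻¹ ^ 2 * σ ^ 2 = 1 := by
            field_simp
          nlinarith [sq_nonneg (σ⁻¹ * t), sq_nonneg σ]
      _ ≤ _ := mul_le_mul_of_nonneg_left h5 (by positivity)

/-- Mellin inversion for the hinge on the line `Re s = σ`. -/
theorem TENT_hinge (σ : ℝ) (hσ : 0 < σ) (y : ℝ) (hy : 0 < y) :
    ((max 0 (1 - y) : ℝ) : ℂ) = 1 / (2 * Real.pi) *
      ∫ t : ℝ, (y : ℂ) ^ (-(σ + t * Complex.I)) /
        ((σ + t * Complex.I) * (σ + t * Complex.I + 1)) := by
  have hf : MellinConvergent (fun y : ℝ => ((max 0 (1 - y) : ℝ) : ℂ)) σ :=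
    (TENT_hasMellin σ (by simpa using hσ)).1
  have hm : ∀ t : ℝ, mellin (fun y : ℝ => ((max 0 (1 - y) : ℝ) : ℂ)) (σ + t * Complex.I) =
      1 / ((σ + t * Complex.I) * (σ + t * Complex.I + 1)) := by
    intro t
    exact (TENT_hasMellin (σ + t * Complex.I) (by simpa using hσ)).2
  have hv : Complex.VerticalIntegrable (mellin (fun y : ℝ => ((max 0 (1 - y) : ℝ) : ℂ))) σ := by
    unfold Complex.VerticalIntegrable
    refine (TENT_integrable σ hσ).congr (Filter.Eventually.of_forall (fun t => ?_))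
    simp only
    rw [hm t]
  have h := mellinInv_mellin_eq σ (fun y : ℝ => ((max 0 (1 - y) : ℝ) : ℂ)) hy hf hv
    (Continuous.continuousAt (by fun_prop))
  rw [← h, mellinInv, Complex.real_smul]
  push_cast
  congr 1
  refine integral_congr_ae (Filter.Eventually.of_forall (fun t => ?_))
  simp only
  rw [hm t, smul_eq_mul, mul_one_div]

/-- The kernel formula: for `z > 0`, `n ≥ 1`,
`max 0 (z - n) = (1/2π) ∫ z^(2+it) n^(-1-it) / ((1+it)(2+it)) dt`. It is the Mellin inversion of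
`y ↦ max 0 (1 - y)` (`y = n/z`), whose Mellin transform at `s` is `1/(s(s+1))` (`Re s > 0`), on the
line `Re s = 1` (`mellin_inversion`). -/
theorem mellin_hinge (z : ℝ) (hz : 0 < z) (n : ℝ) (hn : 0 < n) :
    Integrable (fun t : ℝ => (z : ℂ) ^ (2 + t * Complex.I) * (n : ℂ) ^ (-(1 + t * Complex.I)) /
      ((1 + t * Complex.I) * (2 + t * Complex.I))) ∧
    ((max 0 (z - n) : ℝ) : ℂ) = 1 / (2 * Real.pi) *
      ∫ t : ℝ, (z : ℂ) ^ (2 + t * Complex.I) * (n : ℂ) ^ (-(1 + t * Complex.I)) /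
        ((1 + t * Complex.I) * (2 + t * Complex.I)) := by
  have hzC : (z : ℂ) ≠ 0 := by exact_mod_cast hz.ne'
  have hnC : (n : ℂ) ≠ 0 := by exact_mod_cast hn.ne'
  have hpow : ∀ t : ℝ, (z : ℂ) ^ (2 + t * Complex.I) * (n : ℂ) ^ (-(1 + t * Complex.I)) =
      z * ((n / z : ℝ) : ℂ) ^ (-(1 + t * Complex.I)) := by
    intro t
    rw [div_eq_mul_inv, Complex.ofReal_mul, Complex.mul_cpow_ofReal_nonneg hn.le (by positivity),
      Complex.ofReal_inv, Complex.inv_cpow_eq_ite, if_neg]
    · rw [← Complex.cpow_neg, neg_neg, show (2 + t * Complex.I : ℂ) = 1 + (1 + t * Complex.I) by ring,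
        Complex.cpow_add _ _ hzC, Complex.cpow_one]
      ring
    · rw [Complex.arg_ofReal_of_nonneg hz.le]
      exact Real.pi_pos.ne
  have hden : ∀ t : ℝ, ((1 + t * Complex.I) * (2 + t * Complex.I) : ℂ) =
      (((1 : ℝ) + t * Complex.I) * ((1 : ℝ) + t * Complex.I + 1)) := by
    intro t
    push_cast
    ring
  have hnz : 0 < n / z := by positivity
  refine ⟨?_, ?_⟩
  · have h1 := (TENT_integrable 1 one_pos).norm.const_mul (z * (n / z) ^ (-1 : ℝ))
    refine h1.mono' ?_ ?_
    · refine Continuous.aestronglyMeasurable ?_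
      refine Continuous.div ?_ (by fun_prop) ?_
      · refine Continuous.mul ?_ ?_
        · exact Continuous.const_cpow (by fun_prop) (Or.inl hzC)
        · exact Continuous.const_cpow (by fun_prop) (Or.inl hnC)
      · intro t
        refine mul_ne_zero ?_ ?_
        · intro h
          have := congrArg Complex.re h
          simp at this
        · intro h
          have := congrArg Complex.re h
          simp at this
    · refine Filter.Eventually.of_forall (fun t => ?_)
      rw [hpow t, hden t, norm_div, norm_mul, norm_div, norm_one, Complex.norm_real,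
        Complex.norm_cpow_eq_rpow_re_of_pos hnz, Real.norm_of_nonneg hz.le]
      have : (-(1 + (t : ℂ) * Complex.I)).re = -1 := by simp
      rw [this, mul_one_div]
  · have h2 := TENT_hinge 1 one_pos (n / z) hnz
    have h3 : ((max 0 (z - n) : ℝ) : ℂ) = z * ((max 0 (1 - n / z) : ℝ) : ℂ) := by
      rw [← Complex.ofReal_mul]
      congr 1
      rw [mul_max_of_nonneg _ _ hz.le]
      congr 1
      · ring
      · field_simp
    rw [h3, h2, mul_left_comm, ← integral_const_mul]
    congr 1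
    refine integral_congr_ae (Filter.Eventually.of_forall (fun t => ?_))
    simp only
    rw [hpow t, hden t, mul_div_assoc]
    push_cast
    rfl

/-- The second difference of the hinge is the tent. -/
theorem TENT_second_diff (Y z : ℝ) (hY : 0 ≤ Y) :
    max 0 (Y - |z|) = max 0 (z + Y) - 2 * max 0 z + max 0 (z - Y) := by
  rcases le_total 0 z with h | h
  · rw [abs_of_nonneg h, max_eq_right (show (0 : ℝ) ≤ z + Y by linarith), max_eq_right h]
    rcases le_total z Y with h' | h'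
    · rw [max_eq_right (by linarith), max_eq_left (by linarith)]
      ring
    · rw [max_eq_left (by linarith), max_eq_right (by linarith)]
      ring
  · rw [abs_of_nonpos h, max_eq_left h, max_eq_left (show z - Y ≤ 0 by linarith)]
    rw [show Y - -z = z + Y by ring]
    ring

/-- The second difference of `z^(2+it)` as a double integral. -/
theorem TENT_double (t : ℝ) (a Y : ℝ) (ha : 0 < a) (hY : 0 ≤ Y) :
    ((a + 2 * Y : ℝ) : ℂ) ^ (2 + t * Complex.I) - 2 * ((a + Y : ℝ) : ℂ) ^ (2 + t * Complex.I) +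
      (a : ℂ) ^ (2 + t * Complex.I) =
    ((1 + t * Complex.I) * (2 + t * Complex.I)) *
      ∫ x in (0 : ℝ)..Y, ∫ y in (0 : ℝ)..Y, ((a + x + y : ℝ) : ℂ) ^ (t * Complex.I) := by
  have hd : ∀ c : ℂ, ∀ x : ℝ, 0 < x →
      HasDerivAt (fun x : ℝ => (x : ℂ) ^ (c + 1)) ((c + 1) * (x : ℂ) ^ c) x := by
    intro c x hx
    have h1 := (hasDerivAt_id (x : ℂ)).cpow_const (c := c + 1)
      (Or.inl (by simpa using hx))
    have h2 := h1.comp_ofReal
    simpa using h2
  have hcont : ∀ c : ℂ, ∀ b : ℝ, 0 < b → ContinuousOn (fun y : ℝ => ((b + y : ℝ) : ℂ) ^ c)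
      (Set.Ici 0) := by
    intro c b hb y hy
    have hy' : (0 : ℝ) ≤ y := hy
    refine ContinuousAt.continuousWithinAt ?_
    refine ContinuousAt.cpow (by fun_prop) continuousAt_const (Or.inl ?_)
    rw [Complex.ofReal_re]
    linarith
  have hint : ∀ c : ℂ, c + 1 ≠ 0 → ∀ b : ℝ, 0 < b →
      (c + 1) * ∫ y in (0 : ℝ)..Y, ((b + y : ℝ) : ℂ) ^ c =
        ((b + Y : ℝ) : ℂ) ^ (c + 1) - (b : ℂ) ^ (c + 1) := by
    intro c hc b hb
    have h := intervalIntegral.integral_eq_sub_of_hasDerivAt (a := 0) (b := Y)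
      (f := fun y : ℝ => ((b + y : ℝ) : ℂ) ^ (c + 1))
      (f' := fun y : ℝ => (c + 1) * ((b + y : ℝ) : ℂ) ^ c) ?_ ?_
    · rw [intervalIntegral.integral_const_mul] at h
      rw [h]
      simp
    · intro y hy
      rw [Set.uIcc_of_le hY] at hy
      have := hd c (b + y) (by linarith [hy.1])
      exact this.comp_const_add b y
    · refine ContinuousOn.intervalIntegrable ?_
      rw [Set.uIcc_of_le hY]
      exact (continuousOn_const.mul (hcont c b hb)).mono Set.Icc_subset_Ici_self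
  have hne1 : (t * Complex.I + 1 : ℂ) ≠ 0 := by
    intro h
    have := congrArg Complex.re h
    simp at this
  have hne2 : (1 + t * Complex.I + 1 : ℂ) ≠ 0 := by
    intro h
    have := congrArg Complex.re h
    norm_num at this
  have hinner : ∀ x : ℝ, x ∈ Set.uIcc 0 Y →
      (1 + t * Complex.I : ℂ) * ∫ y in (0 : ℝ)..Y, ((a + x + y : ℝ) : ℂ) ^ (t * Complex.I) =
        ((a + Y + x : ℝ) : ℂ) ^ (1 + t * Complex.I) - ((a + x : ℝ) : ℂ) ^ (1 + t * Complex.I) := by
    intro x hx
    rw [Set.uIcc_of_le hY] at hx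
    have := hint (t * Complex.I) hne1 (a + x) (by linarith [hx.1])
    rw [add_comm (t * Complex.I) 1] at this
    rw [this, show a + Y + x = a + x + Y by ring]
  have h1 := hint (1 + t * Complex.I) hne2 (a + Y) (by linarith)
  have h2 := hint (1 + t * Complex.I) hne2 a ha
  rw [show (1 + t * Complex.I + 1 : ℂ) = 2 + t * Complex.I by ring] at h1 h2
  have hi1 : IntervalIntegrable (fun x : ℝ => ((a + Y + x : ℝ) : ℂ) ^ (1 + t * Complex.I)) volume 0 Y := by
    refine ContinuousOn.intervalIntegrable ?_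
    rw [Set.uIcc_of_le hY]
    exact (hcont _ (a + Y) (by linarith)).mono Set.Icc_subset_Ici_self
  have hi2 : IntervalIntegrable (fun x : ℝ => ((a + x : ℝ) : ℂ) ^ (1 + t * Complex.I)) volume 0 Y := by
    refine ContinuousOn.intervalIntegrable ?_
    rw [Set.uIcc_of_le hY]
    exact (hcont _ a ha).mono Set.Icc_subset_Ici_self
  calc _ = ((a + Y + Y : ℝ) : ℂ) ^ (2 + t * Complex.I) - ((a + Y : ℝ) : ℂ) ^ (2 + t * Complex.I) -
      (((a + Y : ℝ) : ℂ) ^ (2 + t * Complex.I) - (a : ℂ) ^ (2 + t * Complex.I)) := by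
        rw [show a + Y + Y = a + 2 * Y by ring]
        ring
    _ = (2 + t * Complex.I) * ((∫ x in (0 : ℝ)..Y, ((a + Y + x : ℝ) : ℂ) ^ (1 + t * Complex.I)) -
        ∫ x in (0 : ℝ)..Y, ((a + x : ℝ) : ℂ) ^ (1 + t * Complex.I)) := by
        rw [← h1, ← h2]
        ring
    _ = (2 + t * Complex.I) * (∫ x in (0 : ℝ)..Y, (((a + Y + x : ℝ) : ℂ) ^ (1 + t * Complex.I) -
        ((a + x : ℝ) : ℂ) ^ (1 + t * Complex.I))) := by
        rw [intervalIntegral.integral_sub hi1 hi2]
    _ = (2 + t * Complex.I) * (∫ x in (0 : ℝ)..Y, (1 + t * Complex.I : ℂ) *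
        ∫ y in (0 : ℝ)..Y, ((a + x + y : ℝ) : ℂ) ^ (t * Complex.I)) := by
        congr 1
        refine intervalIntegral.integral_congr (fun x hx => ?_)
        exact (hinner x hx).symm
    _ = _ := by
        rw [intervalIntegral.integral_const_mul]
        ring

/-- **Representation of the tent** as second difference of the hinge:
`tent(m - n) = Y^(-2) (h(m+Y-n) - 2 h(m-n) + h(m-Y-n))`, `h(z) = max 0 z`. So
`gt t = (1/2π) Δ²_Y [z^(2+it)] (m) / (Y² (1+it)(2+it))`; `‖gt t‖ ≤ 4 (2m)²/(2π Y² (1+t²))`, and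
`‖gt t‖ ≤ 1` because `Δ²_Y [z^(2+it)]/((1+it)(2+it)) = ∫_0^Y ∫_0^Y (m - Y + x + y)^(it) dx dy`
(with the appropriate order of differences). -/
theorem tent_rep (Y : ℕ) (m : ℤ) (hY : 1 ≤ Y) (hm : 2 * (Y : ℤ) ≤ m) :
    ∃ gt : ℝ → ℂ, Continuous gt ∧ (∀ t, ‖gt t‖ ≤ 1) ∧
      (∀ t, ‖gt t‖ ≤ 10 * ((m : ℝ) / Y) ^ 2 / (1 + t ^ 2)) ∧
      ∀ n : ℕ, 1 ≤ n → ((tent Y (m - n) : ℝ) : ℂ) =
        ∫ t : ℝ, gt t * (n : ℂ) ^ (-(1 + t * Complex.I)) := by
  have hYr : (1 : ℝ) ≤ Y := by exact_mod_cast hY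
  have hmr : 2 * (Y : ℝ) ≤ m := by exact_mod_cast hm
  have ha : 0 < (m : ℝ) - Y := by linarith
  have hm0 : 0 < (m : ℝ) := by linarith
  have hmY : 0 < (m : ℝ) + Y := by linarith
  set D : ℝ → ℂ := fun t => (((m : ℝ) + Y : ℝ) : ℂ) ^ (2 + t * Complex.I) -
    2 * ((m : ℝ) : ℂ) ^ (2 + t * Complex.I) + (((m : ℝ) - Y : ℝ) : ℂ) ^ (2 + t * Complex.I) with hD
  have hPne : ∀ t : ℝ, ((1 + t * Complex.I) * (2 + t * Complex.I) : ℂ) ≠ 0 := by
    intro t
    refine mul_ne_zero ?_ ?_
    · intro h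
      have := congrArg Complex.re h
      simp at this
    · intro h
      have := congrArg Complex.re h
      simp at this
  have hYne : ((Y : ℂ) ^ 2) ≠ 0 := by
    have : (Y : ℂ) ≠ 0 := by exact_mod_cast (by omega : Y ≠ 0)
    positivity
  have hpi := Real.pi_gt_three
  refine ⟨fun t => 1 / (2 * Real.pi) * (D t / ((Y : ℂ) ^ 2 * ((1 + t * Complex.I) * (2 + t * Complex.I)))),
    ?_, ?_, ?_, ?_⟩
  · refine continuous_const.mul (Continuous.div ?_ (by fun_prop)
      (fun t => mul_ne_zero hYne (hPne t)))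
    have hc : ∀ z : ℝ, 0 < z → Continuous (fun t : ℝ => (z : ℂ) ^ (2 + t * Complex.I)) := by
      intro z hz
      exact Continuous.const_cpow (by fun_prop) (Or.inl (by exact_mod_cast hz.ne'))
    exact ((hc _ hmY).sub (continuous_const.mul (hc _ hm0))).add (hc _ ha)
  · intro t
    have h := TENT_double t ((m : ℝ) - Y) Y ha (by linarith)
    rw [show (m : ℝ) - Y + 2 * Y = m + Y by ring, show (m : ℝ) - Y + Y = m by ring] at h
    have h' : D t / ((Y : ℂ) ^ 2 * ((1 + t * Complex.I) * (2 + t * Complex.I))) =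
        (∫ x in (0 : ℝ)..Y, ∫ y in (0 : ℝ)..Y, (((m : ℝ) - Y + x + y : ℝ) : ℂ) ^ (t * Complex.I)) /
          (Y : ℂ) ^ 2 := by
      rw [hD]
      simp only
      rw [h, mul_comm ((Y : ℂ) ^ 2), mul_div_mul_left _ _ (hPne t)]
    change ‖1 / (2 * Real.pi : ℂ) * (D t / ((Y : ℂ) ^ 2 *
      ((1 + t * Complex.I) * (2 + t * Complex.I))))‖ ≤ 1
    rw [h']
    have hn1 : ∀ x : ℝ, x ∈ Set.uIoc 0 (Y : ℝ) →
        ‖∫ y in (0 : ℝ)..Y, (((m : ℝ) - Y + x + y : ℝ) : ℂ) ^ (t * Complex.I)‖ ≤ 1 * |(Y : ℝ) - 0| := by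
      intro x hx
      rw [Set.uIoc_of_le (by linarith)] at hx
      refine intervalIntegral.norm_integral_le_of_norm_le_const (fun y hy => ?_)
      rw [Set.uIoc_of_le (by linarith)] at hy
      rw [Complex.norm_cpow_eq_rpow_re_of_pos (by linarith [hx.1, hy.1])]
      simp
    have hn2 := intervalIntegral.norm_integral_le_of_norm_le_const hn1
    rw [sub_zero, abs_of_nonneg (by linarith)] at hn2
    rw [norm_mul, norm_div, norm_div, norm_pow, Complex.norm_natCast, norm_one, norm_mul]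
    rw [Complex.norm_real, Real.norm_of_nonneg Real.pi_pos.le]
    have h2 : ‖(2 : ℂ)‖ = 2 := by simp
    rw [h2]
    have hq : ‖∫ x in (0 : ℝ)..Y, ∫ y in (0 : ℝ)..Y,
        (((m : ℝ) - Y + x + y : ℝ) : ℂ) ^ (t * Complex.I)‖ / (Y : ℝ) ^ 2 ≤ 1 := by
      rw [div_le_one (by positivity)]
      nlinarith
    have hp1 : 1 / (2 * Real.pi) ≤ 1 := by
      rw [div_le_one (by positivity)]
      linarith
    calc 1 / (2 * Real.pi) * _ ≤ 1 * 1 := by
          refine mul_le_mul hp1 hq (by positivity) zero_le_one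
      _ = 1 := one_mul 1
  · intro t
    have hnorm : ∀ z : ℝ, 0 < z → ‖(z : ℂ) ^ (2 + t * Complex.I)‖ = z ^ 2 := by
      intro z hz
      rw [Complex.norm_cpow_eq_rpow_re_of_pos hz]
      simp
    have hDn : ‖D t‖ ≤ 9 * (m : ℝ) ^ 2 := by
      calc ‖D t‖ ≤ ‖(((m : ℝ) + Y : ℝ) : ℂ) ^ (2 + t * Complex.I)‖ +
            ‖2 * ((m : ℝ) : ℂ) ^ (2 + t * Complex.I)‖ +
            ‖(((m : ℝ) - Y : ℝ) : ℂ) ^ (2 + t * Complex.I)‖ := by
            refine (norm_add_le _ _).trans ?_
            gcongr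
            exact norm_sub_le _ _
        _ = ((m : ℝ) + Y) ^ 2 + 2 * (m : ℝ) ^ 2 + ((m : ℝ) - Y) ^ 2 := by
            rw [norm_mul, hnorm _ hmY, hnorm _ hm0, hnorm _ ha]
            simp
        _ ≤ 9 * (m : ℝ) ^ 2 := by nlinarith
    have hden : 1 + t ^ 2 ≤ ‖((1 + t * Complex.I) * (2 + t * Complex.I) : ℂ)‖ := by
      have hn : ∀ a : ℝ, ‖(a + t * Complex.I : ℂ)‖ ^ 2 = a ^ 2 + t ^ 2 := by
        intro a
        rw [← Complex.normSq_eq_norm_sq, Complex.normSq_add_mul_I]
      have h1 := hn 1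
      have h2 := hn 2
      push_cast at h1 h2
      rw [norm_mul]
      have h4 : ‖(1 + t * Complex.I : ℂ)‖ ≤ ‖(2 + t * Complex.I : ℂ)‖ := by
        refine le_of_sq_le_sq ?_ (norm_nonneg _)
        rw [h1, h2]
        nlinarith
      nlinarith [norm_nonneg (1 + t * Complex.I : ℂ)]
    change ‖1 / (2 * Real.pi : ℂ) * (D t / ((Y : ℂ) ^ 2 *
      ((1 + t * Complex.I) * (2 + t * Complex.I))))‖ ≤ _
    rw [norm_mul, norm_div, norm_div, norm_mul, norm_mul ((Y : ℂ) ^ 2), norm_pow,
      Complex.norm_natCast, norm_one,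
      Complex.norm_real, Real.norm_of_nonneg Real.pi_pos.le]
    have h2 : ‖(2 : ℂ)‖ = 2 := by simp
    rw [h2]
    have hp1 : 1 / (2 * Real.pi) ≤ 1 := by
      rw [div_le_one (by positivity)]
      linarith
    have hYpos : (0 : ℝ) < Y := by linarith
    calc 1 / (2 * Real.pi) * (‖D t‖ / ((Y : ℝ) ^ 2 * ‖((1 + t * Complex.I) * (2 + t * Complex.I) : ℂ)‖))
        ≤ 1 * (9 * (m : ℝ) ^ 2 / ((Y : ℝ) ^ 2 * (1 + t ^ 2))) := by
          gcongr
      _ ≤ 10 * ((m : ℝ) / Y) ^ 2 / (1 + t ^ 2) := by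
          rw [one_mul, div_pow, mul_div_assoc', div_div]
          gcongr
          norm_num
  · intro n hn
    have hnr : 0 < (n : ℝ) := by exact_mod_cast hn
    obtain ⟨hi1, he1⟩ := mellin_hinge ((m : ℝ) + Y) hmY n hnr
    obtain ⟨hi2, he2⟩ := mellin_hinge (m : ℝ) hm0 n hnr
    obtain ⟨hi3, he3⟩ := mellin_hinge ((m : ℝ) - Y) ha n hnr
    have ht : tent Y (m - n) = (max 0 ((m : ℝ) + Y - n) - 2 * max 0 ((m : ℝ) - n) +
        max 0 ((m : ℝ) - Y - n)) / (Y : ℝ) ^ 2 := by
      unfold tent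
      push_cast
      rw [TENT_second_diff (Y : ℝ) ((m : ℝ) - n) (by linarith)]
      rw [show (m : ℝ) - n + Y = m + Y - n by ring, show (m : ℝ) - n - Y = m - Y - n by ring]
    have hpi' : (2 * Real.pi : ℂ) ≠ 0 := by
      simp [Real.pi_ne_zero]
    simp only [Complex.ofReal_natCast] at hi1 hi2 hi3 he1 he2 he3
    rw [ht, Complex.ofReal_div, Complex.ofReal_add, Complex.ofReal_sub, Complex.ofReal_mul, he1,
      he2, he3, Complex.ofReal_pow, Complex.ofReal_natCast, Complex.ofReal_ofNat]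
    have hABC : ∀ A B C : ℂ, (1 / (2 * (Real.pi : ℂ)) * A - 2 * (1 / (2 * (Real.pi : ℂ)) * B) +
      1 / (2 * (Real.pi : ℂ)) * C) / (Y : ℂ) ^ 2 =
      1 / (2 * (Real.pi : ℂ)) / (Y : ℂ) ^ 2 * (A - 2 * B + C) := by
      intro A B C
      ring
    rw [hABC]
    set F1 : ℝ → ℂ := fun t => (((m : ℝ) + Y : ℝ) : ℂ) ^ (2 + t * Complex.I) *
      (n : ℂ) ^ (-(1 + t * Complex.I)) / ((1 + t * Complex.I) * (2 + t * Complex.I)) with hF1
    set F2 : ℝ → ℂ := fun t => ((m : ℝ) : ℂ) ^ (2 + t * Complex.I) *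
      (n : ℂ) ^ (-(1 + t * Complex.I)) / ((1 + t * Complex.I) * (2 + t * Complex.I)) with hF2
    set F3 : ℝ → ℂ := fun t => (((m : ℝ) - Y : ℝ) : ℂ) ^ (2 + t * Complex.I) *
      (n : ℂ) ^ (-(1 + t * Complex.I)) / ((1 + t * Complex.I) * (2 + t * Complex.I)) with hF3
    have hs : (∫ t, F1 t) - 2 * (∫ t, F2 t) + ∫ t, F3 t = ∫ t, (F1 t - 2 * F2 t + F3 t) := by
      have hi12 : Integrable (fun t => F1 t - 2 * F2 t) := hi1.sub (hi2.const_mul 2)
      rw [integral_add hi12 hi3, integral_sub hi1 (hi2.const_mul 2), integral_const_mul]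
    rw [hs, ← integral_const_mul]
    refine integral_congr_ae (Filter.Eventually.of_forall (fun t => ?_))
    simp only [hD, hF1, hF2, hF3]
    have := hPne t
    field_simp

end Pool.Agent.Lib.H68T
end

-- from Lib.H18GB.Fej
section

/-!
# Project GB: FEJ
-/

namespace Pool.Agent.Lib.H18GB

open Finset Pool.Agent.Lib.Sieve

lemma fej_sub_round (j : ℕ) (x : ℝ) : e (j * x) = e (j * (x - round x)) := by
  have h1 : (j : ℝ) * x = j * (x - round x) + ((j * round x : ℤ) : ℝ) := by
    push_cast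
    ring
  rw [h1, e_add_int]

lemma fej_re (x : ℝ) : (e x).re = Real.cos (2 * Real.pi * x) := by
  unfold e
  have : (2 * Real.pi * x * Complex.I : ℂ) = ((2 * Real.pi * x : ℝ) : ℂ) * Complex.I := by
    push_cast; ring
  rw [this, Complex.exp_ofReal_mul_I_re]

/-- the kernel is large near the integers -/
lemma fej_lower (K : ℕ) (hK : 0 < K) (x : ℝ) (hx : nr x ≤ 1 / (8 * K)) :
    (K : ℝ) ^ 2 / 4 ≤ ‖∑ j ∈ range K, e (j * x)‖ ^ 2 := by
  have hK' : (0 : ℝ) < K := by exact_mod_cast hK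
  have h1 : (K : ℝ) / 2 ≤ (∑ j ∈ range K, e (j * x)).re := by
    rw [Complex.re_sum]
    have h2 : ∀ j ∈ range K, (1 / 2 : ℝ) ≤ (e (j * x)).re := by
      intro j hj
      have hj' : (j : ℝ) ≤ K := by exact_mod_cast (mem_range.1 hj).le
      rw [fej_sub_round, fej_re]
      have h3 : |2 * Real.pi * (j * (x - round x))| ≤ Real.pi / 4 := by
        rw [abs_mul, abs_mul, abs_mul, abs_of_pos Real.pi_pos, Nat.abs_cast, Nat.abs_ofNat]
        have h4 : |x - round x| ≤ 1 / (8 * K) := hx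
        have h5 : (j : ℝ) * |x - round x| ≤ K * (1 / (8 * K)) :=
          mul_le_mul hj' h4 (abs_nonneg _) hK'.le
        have h6 : (K : ℝ) * (1 / (8 * K)) = 1 / 8 := by field_simp
        rw [h6] at h5
        nlinarith [Real.pi_pos]
      have h7 := Real.one_sub_sq_div_two_le_cos (x := 2 * Real.pi * (j * (x - round x)))
      have h8 : (2 * Real.pi * (j * (x - round x))) ^ 2 ≤ 1 := by
        have h9 : |2 * Real.pi * (j * (x - round x))| ≤ 1 := by
          have := Real.pi_lt_d2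
          linarith
        exact (sq_le_one_iff_abs_le_one _).2 h9
      linarith
    calc (K : ℝ) / 2 = ∑ j ∈ range K, (1 / 2 : ℝ) := by
          rw [sum_const, card_range, nsmul_eq_mul]; ring
      _ ≤ _ := sum_le_sum h2
  have h2 := Complex.re_le_norm (∑ j ∈ range K, e (j * x))
  have h3 : (K : ℝ) / 2 ≤ ‖∑ j ∈ range K, e (j * x)‖ := le_trans h1 h2
  nlinarith [norm_nonneg (∑ j ∈ range K, e (j * x))]

lemma fej_sq (K : ℕ) (x : ℝ) : ((‖∑ j ∈ range K, e (j * x)‖ ^ 2 : ℝ) : ℂ) =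
    ∑ j ∈ range K, ∑ l ∈ range K, e (j * x) * e (-(l * x)) := by
  have h2 : ((‖∑ j ∈ range K, e (j * x)‖ ^ 2 : ℝ) : ℂ) =
      (∑ j ∈ range K, e (j * x)) * (starRingEnd ℂ) (∑ j ∈ range K, e (j * x)) := by
    rw [Complex.mul_conj, Complex.normSq_eq_norm_sq]
  rw [h2, map_sum, sum_mul_sum]
  refine sum_congr rfl fun j _ => sum_congr rfl fun l _ => ?_
  rw [e_neg]

lemma fej_pair {ι : Type*} (s : Finset ι) (ω φ : ι → ℝ) (γ : ℝ) (j l : ℕ) (hlj : l ≤ j) :
    ‖∑ i ∈ s, (ω i : ℂ) * (e (j * (φ i - γ)) * e (-(l * (φ i - γ))))‖ =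
      ‖∑ i ∈ s, (ω i : ℂ) * e (((j - l : ℕ) : ℝ) * φ i)‖ := by
  have h1 : ∑ i ∈ s, (ω i : ℂ) * (e (j * (φ i - γ)) * e (-(l * (φ i - γ)))) =
      e (-(((j - l : ℕ) : ℝ) * γ)) * ∑ i ∈ s, (ω i : ℂ) * e (((j - l : ℕ) : ℝ) * φ i) := by
    rw [mul_sum]
    refine sum_congr rfl fun i _ => ?_
    rw [← e_add, mul_left_comm, ← e_add]
    congr 2
    push_cast [Nat.cast_sub hlj]
    ring
  rw [h1, norm_mul, norm_e, one_mul]

lemma fej_pair' {ι : Type*} (s : Finset ι) (ω φ : ι → ℝ) (γ : ℝ) (j l : ℕ) (hlj : j ≤ l) :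
    ‖∑ i ∈ s, (ω i : ℂ) * (e (j * (φ i - γ)) * e (-(l * (φ i - γ))))‖ =
      ‖∑ i ∈ s, (ω i : ℂ) * e (((l - j : ℕ) : ℝ) * φ i)‖ := by
  rw [← fej_pair s ω φ γ l j hlj, ← RCLike.norm_conj, map_sum]
  congr 1
  refine sum_congr rfl fun i _ => ?_
  rw [map_mul, map_mul, Complex.conj_ofReal, ← e_neg, ← e_neg, neg_neg, mul_comm (e _) (e _)]

open Classical in
/-- Chunk FEJ. Fejér kernel `F_K x = ∑_{|k| < K} (1 - |k| / K) e (k x) = |∑_{j < K} e (j x)|^2 / K`,
`≥ 0`, and `≥ K / 4` if `nr x ≤ 1 / (8 K)`; `K = ⌈24 / c⌉`. -/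
theorem fej {ι : Type*} (s : Finset ι) (ω φ : ι → ℝ) (γ T c : ℝ) (hω : ∀ i ∈ s, 0 ≤ ω i)
    (hT : 0 < T) (hc : 0 < c) (hc1 : c ≤ 1) (K : ℕ) (hK : 24 ≤ c * K)
    (htot : ∑ i ∈ s, ω i ≤ 3 * T)
    (hconc : c * T ≤ ∑ i ∈ s.filter (fun i => nr (φ i - γ) ≤ 1 / (8 * K)), ω i) :
    ∃ k : ℕ, 1 ≤ k ∧ k < K ∧ T / K ≤ ‖∑ i ∈ s, (ω i : ℂ) * e (k * φ i)‖ := by
  by_contra hcon
  push Not at hcon
  have hK0 : 0 < K := by
    rcases Nat.eq_zero_or_pos K with h | h
    · subst h
      norm_num at hK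
    · exact h
  have hK' : (0 : ℝ) < K := by exact_mod_cast hK0
  set A : ι → ℝ := fun i => ‖∑ j ∈ range K, e (j * (φ i - γ))‖ ^ 2 with hA
  have hA0 : ∀ i, 0 ≤ A i := fun i => by positivity
  -- lower bound
  have hlow : (K : ℝ) ^ 2 / 4 * (c * T) ≤ ∑ i ∈ s, ω i * A i := by
    calc (K : ℝ) ^ 2 / 4 * (c * T)
        ≤ (K : ℝ) ^ 2 / 4 * ∑ i ∈ s.filter (fun i => nr (φ i - γ) ≤ 1 / (8 * K)), ω i :=
          mul_le_mul_of_nonneg_left hconc (by positivity)
      _ = ∑ i ∈ s.filter (fun i => nr (φ i - γ) ≤ 1 / (8 * K)), ω i * ((K : ℝ) ^ 2 / 4) := by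
          rw [mul_comm, sum_mul]
      _ ≤ ∑ i ∈ s.filter (fun i => nr (φ i - γ) ≤ 1 / (8 * K)), ω i * A i := by
          refine sum_le_sum fun i hi => ?_
          rw [mem_filter] at hi
          exact mul_le_mul_of_nonneg_left (fej_lower K hK0 _ hi.2) (hω i hi.1)
      _ ≤ ∑ i ∈ s, ω i * A i :=
          sum_le_sum_of_subset_of_nonneg (filter_subset _ _)
            fun i hi _ => mul_nonneg (hω i hi) (hA0 i)
  -- upper bound
  have hup : ∑ i ∈ s, ω i * A i ≤ 4 * K * T := by
    have h1 : ((∑ i ∈ s, ω i * A i : ℝ) : ℂ) = ∑ j ∈ range K, ∑ l ∈ range K,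
        ∑ i ∈ s, (ω i : ℂ) * (e (j * (φ i - γ)) * e (-(l * (φ i - γ)))) := by
      push_cast
      have h2 : ∀ i ∈ s, (ω i : ℂ) * ((A i : ℝ) : ℂ) = ∑ j ∈ range K, ∑ l ∈ range K,
          (ω i : ℂ) * (e (j * (φ i - γ)) * e (-(l * (φ i - γ)))) := by
        intro i _
        rw [hA]
        simp only []
        rw [fej_sq, mul_sum]
        refine sum_congr rfl fun j _ => ?_
        rw [mul_sum]
      rw [sum_congr rfl h2, sum_comm]
      refine sum_congr rfl fun j _ => ?_
      rw [sum_comm]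
    have h2 : ∑ i ∈ s, ω i * A i ≤ ‖((∑ i ∈ s, ω i * A i : ℝ) : ℂ)‖ := by
      rw [Complex.norm_real]
      exact le_abs_self _
    have hS0 : ∀ j ∈ range K, ∀ l ∈ range K,
        ‖∑ i ∈ s, (ω i : ℂ) * (e (j * (φ i - γ)) * e (-(l * (φ i - γ))))‖ ≤
          (if j = l then 3 * T else 0) + T / K := by
      intro j hj l hl
      rw [mem_range] at hj hl
      rcases lt_trichotomy j l with h | h | h
      · rw [fej_pair' s ω φ γ j l h.le, if_neg h.ne, zero_add]
        exact (hcon (l - j) (by omega) (by omega)).le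
      · rw [if_pos h]
        subst h
        rw [fej_pair s ω φ γ j j le_rfl, Nat.sub_self]
        simp only [Nat.cast_zero, zero_mul, e_zero, mul_one]
        rw [← Complex.ofReal_sum, Complex.norm_real, Real.norm_eq_abs,
          abs_of_nonneg (sum_nonneg hω)]
        have : 0 ≤ T / K := by positivity
        linarith
      · rw [fej_pair s ω φ γ j l h.le, if_neg h.ne', zero_add]
        exact (hcon (j - l) (by omega) (by omega)).le
    calc ∑ i ∈ s, ω i * A i ≤ ‖((∑ i ∈ s, ω i * A i : ℝ) : ℂ)‖ := h2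
      _ ≤ ∑ j ∈ range K, ∑ l ∈ range K,
          ‖∑ i ∈ s, (ω i : ℂ) * (e (j * (φ i - γ)) * e (-(l * (φ i - γ))))‖ := by
          rw [h1]
          exact (norm_sum_le _ _).trans (sum_le_sum fun j _ => norm_sum_le _ _)
      _ ≤ ∑ j ∈ range K, ∑ l ∈ range K, ((if j = l then 3 * T else 0) + T / K) :=
          sum_le_sum fun j hj => sum_le_sum fun l hl => hS0 j hj l hl
      _ = ∑ j ∈ range K, (3 * T + K * (T / K)) := by
          refine sum_congr rfl fun j hj => ?_
          rw [sum_add_distrib, sum_ite_eq, if_pos hj, sum_const, card_range, nsmul_eq_mul]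
      _ = 4 * K * T := by
          rw [sum_const, card_range, nsmul_eq_mul]
          field_simp
          ring
  have h3 := hlow.trans hup
  have h4 : (K : ℝ) * T * 6 ≤ (K : ℝ) ^ 2 / 4 * (c * T) := by
    have : (K : ℝ) ^ 2 / 4 * (c * T) = (K : ℝ) * T / 4 * (c * K) := by ring
    rw [this]
    have h5 : 0 ≤ (K : ℝ) * T / 4 := by positivity
    nlinarith
  have h5 : 0 < (K : ℝ) * T := by positivity
  nlinarith

end Pool.Agent.Lib.H18GB
end

-- from Lib.H68T.KER
section

/-!
# Chunk KER: the kernel in terms of primitive characters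
-/

open Finset

namespace Pool.Agent.Lib.H68T

theorem KER_sigma_eq {d r r' : ℕ} [NeZero d] (hr : r ∣ d) (hr' : r' ∣ d)
    (ψ : DirichletCharacter ℂ r) (ψ' : DirichletCharacter ℂ r') (h : r = r')
    (he : DirichletCharacter.changeLevel hr ψ = DirichletCharacter.changeLevel hr' ψ') :
    (⟨r, ψ⟩ : Σ r : ℕ, DirichletCharacter ℂ r) = ⟨r', ψ'⟩ := by
  subst h
  rw [DirichletCharacter.changeLevel_injective hr he]

theorem KER_sum (Q d : ℕ) [NeZero d] [Fintype (DirichletCharacter ℂ d)] (hd : d ≤ Q)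
    (F : (Σ r : ℕ, DirichletCharacter ℂ r) → ℂ) :
    ∑ χ : DirichletCharacter ℂ d, F ⟨χ.conductor, χ.primitiveCharacter⟩ =
      ∑ p ∈ (PC Q).filter (fun p => p.1 ∣ d), F p := by
  refine Finset.sum_bij (fun χ _ => ⟨χ.conductor, χ.primitiveCharacter⟩) ?_ ?_ ?_ ?_
  · intro χ _
    rw [mem_filter, mem_PC]
    have h1 := χ.conductor_dvd_level
    have h2 := χ.conductor_ne_zero
    have h3 := Nat.le_of_dvd (Nat.pos_of_ne_zero (NeZero.ne d)) h1
    exact ⟨⟨Nat.one_le_iff_ne_zero.mpr h2, h3.trans hd, χ.primitiveCharacter_isPrimitive⟩, h1⟩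
  · intro χ₁ _ χ₂ _ h
    rw [← χ₁.changeLevel_primitiveCharacter, ← χ₂.changeLevel_primitiveCharacter]
    have : ∀ (p p' : Σ r : ℕ, DirichletCharacter ℂ r) (hp : p.1 ∣ d) (hp' : p'.1 ∣ d), p = p' →
        DirichletCharacter.changeLevel hp p.2 = DirichletCharacter.changeLevel hp' p'.2 := by
      rintro p p' hp hp' rfl
      rfl
    exact this _ _ χ₁.conductor_dvd_level χ₂.conductor_dvd_level h
  · rintro ⟨r, ψ⟩ hp
    rw [mem_filter, mem_PC] at hp
    obtain ⟨⟨h1, h2, h3⟩, h4⟩ := hp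
    have hr : NeZero r := ⟨by simp only at h1; omega⟩
    refine ⟨DirichletCharacter.changeLevel h4 ψ, mem_univ _, ?_⟩
    have hc := DirichletCharacter.conductor_changeLevel ψ h4
    rw [h3] at hc
    refine KER_sigma_eq (DirichletCharacter.conductor_dvd_level _) h4 _ _ hc ?_
    rw [DirichletCharacter.changeLevel_primitiveCharacter]
  · intro χ _
    rfl

theorem KER_orth (Q d n : ℕ) (m : ℤ) (hd0 : d ≠ 0) (hd : d ≤ Q) (hn : n.Coprime d)
    (hm : IsCoprime (d : ℤ) m) :
    ∑ p ∈ (PC Q).filter (fun p => p.1 ∣ d), p.2 (n : ZMod p.1) *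
        (starRingEnd ℂ) (p.2 (m : ZMod p.1)) =
      if (d : ℤ) ∣ (n : ℤ) - m then (d.totient : ℂ) else 0 := by
  have hne : NeZero d := ⟨hd0⟩
  rw [← KER_sum Q d hd (fun p => p.2 (n : ZMod p.1) * (starRingEnd ℂ) (p.2 (m : ZMod p.1)))]
  have hnz : IsCoprime (n : ℤ) (d : ℤ) := Nat.isCoprime_iff_coprime.mpr hn
  have hu : IsUnit ((m : ℤ) : ZMod d) := by
    rw [← ZMod.coe_unitOfIsCoprime m hm.symm]
    exact Units.isUnit _
  have h1 : ∀ χ : DirichletCharacter ℂ d,
      χ.primitiveCharacter (n : ZMod χ.conductor) *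
        (starRingEnd ℂ) (χ.primitiveCharacter (m : ZMod χ.conductor)) =
      χ ((m : ZMod d)⁻¹) * χ (n : ZMod d) := by
    intro χ
    have h2 := χ.primitiveCharacter_apply_of_isCoprime (a := (n : ℤ)) hnz
    have h3 := χ.primitiveCharacter_apply_of_isCoprime (a := m) hm.symm
    rw [Int.cast_natCast, Int.cast_natCast] at h2
    rw [h2, h3, mul_comm]
    congr 1
    have h5 : (starRingEnd ℂ) (χ (m : ZMod d)) = χ⁻¹ (m : ZMod d) := MulChar.star_apply' χ _
    have hone : χ ((m : ZMod d)⁻¹) * χ (m : ZMod d) = 1 := by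
      rw [← map_mul, ZMod.inv_mul_of_unit _ hu, map_one]
    rw [h5, MulChar.inv_apply_eq_inv']
    exact (eq_inv_of_mul_eq_one_left hone).symm
  simp_rw [h1]
  rw [DirichletCharacter.sum_char_inv_mul_char_eq ℂ hu (n : ZMod d)]
  have h4 : ((m : ZMod d) = (n : ZMod d)) ↔ (d : ℤ) ∣ (n : ℤ) - m := by
    rw [← ZMod.intCast_eq_intCast_iff_dvd_sub, Int.cast_natCast]
  simp only [h4]

/-- For a prime `n > Q` and any integer `m`,
`∑_{q ≤ Q} c_q(n - m) = ∑_{ψ primitive, conductor r ≤ Q} Γ_r(m) ψ(n) conj ψ(m)`.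

Proof. `c_q(n-m) = ∑_{d ∣ q, d ∣ n - m} d μ(q/d)`. Here `d ≤ Q < n` so `(n, d) = 1`, and
`d ∣ n - m` forces `(m, d) = 1`; for `(m,d) = (n,d) = 1`,
`[d ∣ n - m] = (1/φ(d)) ∑_{χ mod d} χ(n) conj χ(m)`
(`DirichletCharacter.sum_char_inv_mul_char_eq`). Every `χ` mod `d` is `changeLevel` of the
primitive character `χ.primitiveCharacter` of conductor `r ∣ d`
(`changeLevel_primitiveCharacter`, `conductor_changeLevel`), with the same values at integers
coprime to `d`; this is a bijection between the characters mod `d` and the pairs `(r, ψ)`,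
`r ∣ d`, `ψ` primitive mod `r`. Exchange the sums. -/
theorem kernel_char (Q : ℕ) (n : ℕ) (hn : n.Prime) (hQn : Q < n) (m : ℤ) :
    ((∑ q ∈ Icc 1 Q, cq q ((n : ℤ) - m) : ℝ) : ℂ) =
      ∑ p ∈ PC Q, (Gam Q p.1 m : ℂ) * (p.2 (n : ZMod p.1) *
        (starRingEnd ℂ) (p.2 (m : ZMod p.1))) := by
  set E : (Σ r : ℕ, DirichletCharacter ℂ r) → ℂ := fun p => p.2 (n : ZMod p.1) *
        (starRingEnd ℂ) (p.2 (m : ZMod p.1)) with hE
  -- the left side
  have hL : ∀ q ∈ Icc 1 Q, ((cq q ((n : ℤ) - m) : ℝ) : ℂ) =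
      ∑ d ∈ q.divisors.filter (fun d : ℕ => IsCoprime (d : ℤ) m),
        ((ArithmeticFunction.moebius (q / d) : ℝ) : ℂ) * ((d : ℂ) / (Nat.totient d : ℂ)) *
          ∑ p ∈ (PC Q).filter (fun p => p.1 ∣ d), E p := by
    intro q hq
    rw [mem_Icc] at hq
    unfold cq
    rw [Complex.ofReal_sum, Finset.sum_filter, Finset.sum_filter]
    refine Finset.sum_congr rfl fun d hd => ?_
    rw [Nat.mem_divisors] at hd
    have hd0 : d ≠ 0 := by
      rintro rfl
      exact hd.2 (Nat.eq_zero_of_zero_dvd hd.1)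
    have hdq : d ≤ q := Nat.le_of_dvd (by omega) hd.1
    have hdn : n.Coprime d := by
      rw [Nat.Prime.coprime_iff_not_dvd hn]
      intro h
      have := Nat.le_of_dvd (Nat.pos_of_ne_zero hd0) h
      omega
    have hphi : (d.totient : ℂ) ≠ 0 := by
      have := Nat.totient_pos.mpr (Nat.pos_of_ne_zero hd0)
      exact_mod_cast this.ne'
    by_cases hm : IsCoprime (d : ℤ) m
    · rw [if_pos hm, KER_orth Q d n m hd0 (hdq.trans hq.2) hdn hm]
      by_cases hdv : (d : ℤ) ∣ (n : ℤ) - m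
      · rw [if_pos hdv, if_pos hdv]
        push_cast
        field_simp
      · rw [if_neg hdv, if_neg hdv]
        simp
    · rw [if_neg hm, if_neg]
      intro hdv
      apply hm
      have h1 : IsCoprime (d : ℤ) (n : ℤ) := (Nat.isCoprime_iff_coprime.mpr hdn).symm
      obtain ⟨c, hc⟩ := hdv
      have h2 : m = (n : ℤ) + (d : ℤ) * (-c) := by linear_combination -hc
      rw [h2]
      exact IsCoprime.add_mul_left_right h1 (-c)
  rw [Complex.ofReal_sum, Finset.sum_congr rfl hL]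
  -- exchange
  simp_rw [Finset.mul_sum, Finset.sum_filter]
  have hswap : ∀ q ∈ Icc 1 Q,
      (∑ d ∈ q.divisors, if IsCoprime (d : ℤ) m then ∑ p ∈ PC Q, if p.1 ∣ d then
        ((ArithmeticFunction.moebius (q / d) : ℝ) : ℂ) * ((d : ℂ) / (Nat.totient d : ℂ)) * E p
          else 0 else 0) =
      ∑ p ∈ PC Q, ((∑ d ∈ q.divisors.filter (fun d : ℕ => p.1 ∣ d ∧ IsCoprime (d : ℤ) m),
        (ArithmeticFunction.moebius (q / d) : ℝ) * ((d : ℝ) / (Nat.totient d : ℝ)) : ℝ) : ℂ)
          * E p := by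
    intro q _
    have h1 : ∀ d ∈ q.divisors, (if IsCoprime (d : ℤ) m then ∑ p ∈ PC Q, if p.1 ∣ d then
        ((ArithmeticFunction.moebius (q / d) : ℝ) : ℂ) * ((d : ℂ) / (Nat.totient d : ℂ)) * E p
          else 0 else 0) = ∑ p ∈ PC Q, if p.1 ∣ d ∧ IsCoprime (d : ℤ) m then
        ((ArithmeticFunction.moebius (q / d) : ℝ) : ℂ) * ((d : ℂ) / (Nat.totient d : ℂ)) * E p
          else 0 := by
      intro d _
      by_cases hm : IsCoprime (d : ℤ) m
      · simp [hm]
      · simp [hm]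
    rw [Finset.sum_congr rfl h1, Finset.sum_comm]
    refine Finset.sum_congr rfl fun p _ => ?_
    rw [Complex.ofReal_sum, Finset.sum_mul, Finset.sum_filter]
    refine Finset.sum_congr rfl fun d _ => ?_
    split_ifs <;> push_cast <;> ring
  rw [Finset.sum_congr rfl hswap, Finset.sum_comm]
  refine Finset.sum_congr rfl fun p hp => ?_
  rw [← Finset.sum_mul]
  congr 1
  unfold Gam
  rw [Complex.ofReal_sum, Finset.sum_filter]
  refine Finset.sum_congr rfl fun q hq => ?_
  split_ifs with hpq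
  · rfl
  · rw [Finset.filter_false_of_mem]
    · simp
    · intro d hd h
      rw [Nat.mem_divisors] at hd
      exact hpq (h.1.trans hd.1)

end Pool.Agent.Lib.H68T
end

-- from Lib.H68T.PV
section

/-!
# Chunk PV: correlations and Parseval
-/

open Finset

namespace Pool.Agent.Lib.H68T

theorem PV_e_add (x y : ℝ) : e (x + y) = e x * e y := by
  unfold e
  rw [← Complex.exp_add]
  congr 1
  push_cast
  ring

theorem PV_e_conj (x : ℝ) : (starRingEnd ℂ) (e x) = e (-x) := by
  unfold e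
  rw [← Complex.exp_conj]
  congr 1
  simp only [map_mul, Complex.conj_ofReal, Complex.conj_I, map_ofNat]
  push_cast
  ring

theorem PV_e_pow (x : ℝ) (n : ℕ) : e (n * x) = e x ^ n := by
  unfold e
  rw [← Complex.exp_nat_mul]
  congr 1
  push_cast
  ring

theorem PV_e_int (n : ℤ) : e n = 1 := by
  unfold e
  rw [Complex.exp_eq_one_iff]
  exact ⟨n, by push_cast; ring⟩

theorem PV_e_ne_one (N : ℕ) (hN : 0 < N) (k : ℤ) (hk : |k| < N) (hk0 : k ≠ 0) :
    e ((k : ℝ) / N) ≠ 1 := by
  unfold e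
  rw [Ne, Complex.exp_eq_one_iff]
  rintro ⟨n, hn⟩
  have h1 : ((k : ℝ) / N : ℂ) = (n : ℂ) := by
    have h2 : (2 * Real.pi * Complex.I : ℂ) ≠ 0 := Complex.two_pi_I_ne_zero
    apply mul_right_cancel₀ h2
    rw [← hn]
    push_cast
    ring
  have hN' : (N : ℂ) ≠ 0 := by exact_mod_cast hN.ne'
  rw [div_eq_iff hN'] at h1
  have h3 : k = n * N := by exact_mod_cast h1
  have h4 : n ≠ 0 := by
    rintro rfl
    exact hk0 (by rw [h3]; simp)
  have h5 : (1 : ℤ) ≤ |n| := Int.one_le_abs h4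
  rw [h3, abs_mul, Nat.abs_cast] at hk
  have : (N : ℤ) > 0 := by exact_mod_cast hN
  nlinarith

theorem PV_ortho (N : ℕ) (hN : 0 < N) (a : ℕ) (k : ℤ) (hk : |k| < N) :
    ∑ j ∈ Ico a (a + N), e ((j : ℝ) * ((k : ℝ) / N)) = if k = 0 then (N : ℂ) else 0 := by
  have hNr : (N : ℝ) ≠ 0 := by exact_mod_cast hN.ne'
  rw [Finset.sum_Ico_eq_sum_range]
  have h1 : ∀ j : ℕ, e (((a + j : ℕ) : ℝ) * ((k : ℝ) / N)) =
      e ((k : ℝ) / N) ^ a * e ((k : ℝ) / N) ^ j := by
    intro j
    rw [PV_e_pow, pow_add]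
  simp only [h1, Nat.add_sub_cancel_left]
  rw [← Finset.mul_sum]
  split_ifs with h0
  · subst h0
    have : e (((0 : ℤ) : ℝ) / N) = 1 := by
      have := PV_e_int 0
      simpa using this
    rw [this]
    simp
  · have hne := PV_e_ne_one N hN k hk h0
    have hpow : e ((k : ℝ) / N) ^ N = 1 := by
      rw [← PV_e_pow]
      have : (N : ℝ) * ((k : ℝ) / N) = ((k : ℤ) : ℝ) := by field_simp
      rw [this]
      exact PV_e_int k
    rw [geom_sum_eq hne, hpow]
    simp

theorem PV_parseval (N : ℕ) (hN : 0 < N) (a a' : ℕ) (b : ℕ → ℂ) :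
    ∑ j ∈ Ico a' (a' + N), ‖∑ t ∈ Ico a (a + N), b t * e ((j : ℝ) * ((t : ℝ) / N))‖ ^ 2 =
      N * ∑ t ∈ Ico a (a + N), ‖b t‖ ^ 2 := by
  have hC : ((∑ j ∈ Ico a' (a' + N), ‖∑ t ∈ Ico a (a + N), b t * e ((j : ℝ) * ((t : ℝ) / N))‖ ^ 2 :
      ℝ) : ℂ) = ((N * ∑ t ∈ Ico a (a + N), ‖b t‖ ^ 2 : ℝ) : ℂ) := by
    have hsq : ∀ z : ℂ, ((‖z‖ ^ 2 : ℝ) : ℂ) = z * (starRingEnd ℂ) z := by
      intro z
      rw [Complex.mul_conj, Complex.normSq_eq_norm_sq]
    push_cast
    have h1 : ∀ j : ℕ, ((‖∑ t ∈ Ico a (a + N), b t * e ((j : ℝ) * ((t : ℝ) / N))‖ : ℝ) : ℂ) ^ 2 =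
        ∑ t ∈ Ico a (a + N), ∑ t' ∈ Ico a (a + N), b t * (starRingEnd ℂ) (b t') *
          e ((j : ℝ) * ((((t : ℤ) - t' : ℤ) : ℝ) / N)) := by
      intro j
      have := hsq (∑ t ∈ Ico a (a + N), b t * e ((j : ℝ) * ((t : ℝ) / N)))
      push_cast at this
      rw [this, map_sum, Finset.sum_mul_sum]
      refine Finset.sum_congr rfl fun t _ => Finset.sum_congr rfl fun t' _ => ?_
      rw [map_mul, PV_e_conj]
      have h2 : (j : ℝ) * ((((t : ℤ) - t' : ℤ) : ℝ) / N) =
          (j : ℝ) * ((t : ℝ) / N) + -((j : ℝ) * ((t' : ℝ) / N)) := by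
        push_cast
        ring
      rw [h2, PV_e_add]
      ring
    simp only [h1]
    rw [Finset.sum_comm, Finset.mul_sum]
    refine Finset.sum_congr rfl fun t ht => ?_
    rw [Finset.sum_comm]
    have h3 : ∀ t' ∈ Ico a (a + N), ∑ j ∈ Ico a' (a' + N), b t * (starRingEnd ℂ) (b t') *
        e ((j : ℝ) * ((((t : ℤ) - t' : ℤ) : ℝ) / N)) =
        if t = t' then (N : ℂ) * (b t * (starRingEnd ℂ) (b t')) else 0 := by
      intro t' ht'
      rw [← Finset.mul_sum]
      rw [mem_Ico] at ht ht'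
      rw [PV_ortho N hN a' ((t : ℤ) - t') (by rw [abs_lt]; omega)]
      by_cases h : t = t'
      · subst h
        simp only [sub_self, if_true]
        ring
      · rw [if_neg h, if_neg (by omega), mul_zero]
    rw [Finset.sum_congr rfl h3, Finset.sum_ite_eq, if_pos ht]
    have := hsq (b t)
    push_cast at this
    rw [this]
  exact_mod_cast hC


end Pool.Agent.Lib.H68T
end
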