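import Pool.Agent.Lib.H1M.RV.M009
import Pool.Agent.Lib.H1M.RV.M010
import Pool.Agent.Lib.H1M.RV.M012

/-! Merged copies (to shorten the build) of Lib.H18GB.Weyl, Lib.H68T.BPS. -/

-- from Lib.H18GB.Weyl
section

/-!
# Project GB: WEYL
-/

namespace Pool.Agent.Lib.H18GB

open Finset Pool.Agent.Lib.Sieve

/-- `|∑_{x ∈ [a,b)} f x|^2 ≤ ∑_{|k| ≤ L} |∑_{y, y + k ∈ [a,b)} f (y + k) conj (f y)|`. -/
theorem weyl_vdc (L : ℕ) (a b : ℤ) (hab : b - a ≤ L) (f : ℤ → ℂ) :
    ‖∑ x ∈ Finset.Ico a b, f x‖ ^ 2 ≤ ∑ k ∈ Finset.Icc (-(L : ℤ)) L,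
      ‖∑ y ∈ Finset.Ico (max a (a - k)) (min b (b - k)), f (y + k) * (starRingEnd ℂ) (f y)‖ := by
  have h1 : ((‖∑ x ∈ Finset.Ico a b, f x‖ ^ 2 : ℝ) : ℂ) =
      ∑ k ∈ Finset.Icc (-(L : ℤ)) L,
        ∑ y ∈ Finset.Ico (max a (a - k)) (min b (b - k)), f (y + k) * (starRingEnd ℂ) (f y) := by
    rw [← Complex.normSq_eq_norm_sq, Complex.normSq_eq_conj_mul_self, map_sum, mul_comm,
      Finset.sum_mul_sum, ← Finset.sum_product']
    rw [Finset.sum_sigma']
    refine Finset.sum_bij' (fun p _ => (⟨p.1 - p.2, p.2⟩ : Σ _ : ℤ, ℤ)) (fun q _ => (q.2 + q.1, q.2))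
      ?_ ?_ ?_ ?_ ?_
    · rintro ⟨x, y⟩ hp
      simp only [Finset.mem_product, Finset.mem_Ico, Finset.mem_sigma, Finset.mem_Icc, max_le_iff,
        lt_min_iff] at hp ⊢
      omega
    · rintro ⟨k, y⟩ hp
      simp only [Finset.mem_product, Finset.mem_Ico, Finset.mem_sigma, Finset.mem_Icc, max_le_iff,
        lt_min_iff] at hp ⊢
      omega
    · rintro ⟨x, y⟩ _
      simp
    · rintro ⟨k, y⟩ _
      simp
    · rintro ⟨x, y⟩ _
      simp
  have h2 : ‖∑ x ∈ Finset.Ico a b, f x‖ ^ 2 =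
      ‖(((‖∑ x ∈ Finset.Ico a b, f x‖ ^ 2 : ℝ)) : ℂ)‖ := by
    rw [Complex.norm_real, Real.norm_of_nonneg (by positivity)]
  rw [h2, h1]
  exact norm_sum_le _ _

theorem weyl_inner (a b : ℤ) (α β : ℝ) (k : ℤ) :
    ‖∑ y ∈ Finset.Ico (max a (a - k)) (min b (b - k)),
      e (α * ((y + k : ℤ) : ℝ) ^ 2 + β * ((y + k : ℤ) : ℝ)) *
        (starRingEnd ℂ) (e (α * (y : ℝ) ^ 2 + β * (y : ℝ)))‖ =
    ‖∑ y ∈ Finset.Ico (max a (a - k)) (min b (b - k)), e (k * (2 * α) * y)‖ := by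
  have h : ∀ y : ℤ, e (α * ((y + k : ℤ) : ℝ) ^ 2 + β * ((y + k : ℤ) : ℝ)) *
        (starRingEnd ℂ) (e (α * (y : ℝ) ^ 2 + β * (y : ℝ))) =
      e (α * (k : ℝ) ^ 2 + β * k) * e (k * (2 * α) * y) := by
    intro y
    rw [← e_neg, ← e_add, ← e_add]
    congr 1
    push_cast
    ring
  simp only [h]
  rw [← Finset.mul_sum, norm_mul, norm_e, one_mul]

open Classical in
/-- Chunk WEYL. `|S|^2 ≤ ∑_{|k| < L} |∑_{x ∈ I_k} e (2 α k x)|` with `I_k` an interval, so by
`geo` many `k` have `nr (k (2 α)) ≤ C / L`; apply `vl`. -/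
theorem weyl (c : ℝ) (hc : 0 < c) (hc1 : c ≤ 1) : ∃ Q : ℕ, 1 ≤ Q ∧ ∀ (L : ℕ), Q ≤ L →
    ∀ (a b : ℤ), a ≤ b → b - a ≤ L → ∀ (α β : ℝ),
    c * L ≤ ‖∑ x ∈ Finset.Ico a b, e (α * x ^ 2 + β * x)‖ →
    ∃ q : ℕ, 1 ≤ q ∧ q ≤ Q ∧ nr (q * α) ≤ Q / (L : ℝ) ^ 2 := by
  obtain ⟨Q', hQ', hvl⟩ := vl (c ^ 2 / 2) (by positivity) (by nlinarith)
  obtain ⟨Q1, hQ1⟩ := exists_nat_ge ((3 : ℝ) * Q' / c ^ 2)
  have hQ'r : (1 : ℝ) ≤ Q' := by exact_mod_cast hQ'
  refine ⟨2 * Q' + Q1 + 1, by omega, ?_⟩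
  intro L hL a b hab hba α β hbig
  have hLr : ((2 * Q' + Q1 + 1 : ℕ) : ℝ) ≤ L := by exact_mod_cast hL
  push_cast at hLr
  have hL1 : (1 : ℝ) ≤ L := by
    have : (0 : ℝ) ≤ Q1 := Nat.cast_nonneg _
    linarith
  have hLpos : (0 : ℝ) < L := by linarith
  set ε0 : ℝ := 3 / (c ^ 2 * L) with hε0
  have hε0pos : 0 < ε0 := by positivity
  set 𝒦 := (Finset.Icc (-(L : ℤ)) L).filter fun k : ℤ => nr (k * (2 * α)) ≤ ε0 with hK
  have hsq : (c * L) ^ 2 ≤ ‖∑ x ∈ Finset.Ico a b, e (α * (x : ℝ) ^ 2 + β * x)‖ ^ 2 :=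
    pow_le_pow_left₀ (by positivity) hbig 2
  have h1 := weyl_vdc L a b hba (fun x : ℤ => e (α * (x : ℝ) ^ 2 + β * x))
  have h2 : ∑ k ∈ Finset.Icc (-(L : ℤ)) L,
      ‖∑ y ∈ Finset.Ico (max a (a - k)) (min b (b - k)),
        (fun x : ℤ => e (α * (x : ℝ) ^ 2 + β * x)) (y + k) *
          (starRingEnd ℂ) ((fun x : ℤ => e (α * (x : ℝ) ^ 2 + β * x)) y)‖ ≤
      𝒦.card * L + (2 * L + 1) * (1 / (2 * ε0)) := by
    have h3 : ∀ k ∈ Finset.Icc (-(L : ℤ)) L,
      ‖∑ y ∈ Finset.Ico (max a (a - k)) (min b (b - k)),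
        (fun x : ℤ => e (α * (x : ℝ) ^ 2 + β * x)) (y + k) *
          (starRingEnd ℂ) ((fun x : ℤ => e (α * (x : ℝ) ^ 2 + β * x)) y)‖ ≤
        (if k ∈ 𝒦 then (L : ℝ) else 0) + 1 / (2 * ε0) := by
      intro k hk
      have h4 := weyl_inner a b α β k
      simp only
      rw [h4]
      have hpos : 0 < 1 / (2 * ε0) := by positivity
      by_cases hkK : k ∈ 𝒦
      · rw [if_pos hkK]
        have h5 : ‖∑ y ∈ Finset.Ico (max a (a - k)) (min b (b - k)), e (k * (2 * α) * y)‖ ≤ L := by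
          refine (norm_sum_le _ _).trans ?_
          simp only [norm_e, Finset.sum_const, nsmul_eq_mul, mul_one, Int.card_Ico]
          have : (min b (b - k) - max a (a - k)).toNat ≤ L := by omega
          exact_mod_cast this
        linarith
      · rw [if_neg hkK, zero_add]
        have hnr : ε0 < nr (k * (2 * α)) := by
          by_contra hne
          push Not at hne
          exact hkK (Finset.mem_filter.mpr ⟨hk, hne⟩)
        rcases le_or_gt (max a (a - k)) (min b (b - k)) with h6 | h6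
        · have h5 := geo (max a (a - k)) (min b (b - k)) h6 (k * (2 * α))
          rw [le_div_iff₀ (by positivity)]
          refine le_trans ?_ h5
          exact mul_le_mul_of_nonneg_left (by linarith) (norm_nonneg _)
        · rw [Finset.Ico_eq_empty (by omega)]
          simp only [Finset.sum_empty, norm_zero]
          exact hpos.le
    refine (Finset.sum_le_sum h3).trans ?_
    rw [Finset.sum_add_distrib, Finset.sum_const, nsmul_eq_mul, Int.card_Icc]
    have h6 : ∑ k ∈ Finset.Icc (-(L : ℤ)) L, (if k ∈ 𝒦 then (L : ℝ) else 0) = 𝒦.card * L := by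
      rw [← Finset.sum_filter, Finset.sum_const, nsmul_eq_mul]
      congr 2
      congr 1
      ext k
      simp [hK]
    rw [h6]
    have h7 : (((L : ℤ) + 1 - -(L : ℤ)).toNat : ℝ) = 2 * L + 1 := by
      have : ((L : ℤ) + 1 - -(L : ℤ)).toNat = 2 * L + 1 := by omega
      rw [this]
      push_cast
      ring
    rw [h7]
  have h8 : (2 * (L : ℝ) + 1) * (1 / (2 * ε0)) ≤ c ^ 2 * L ^ 2 / 2 := by
    have : 1 / (2 * ε0) = c ^ 2 * L / 6 := by
      rw [hε0]
      field_simp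
      ring
    rw [this]
    have h9 : (2 * (L : ℝ) + 1) ≤ 3 * L := by linarith
    have h10 : (0 : ℝ) ≤ c ^ 2 * L / 6 := by positivity
    calc (2 * (L : ℝ) + 1) * (c ^ 2 * L / 6) ≤ (3 * L) * (c ^ 2 * L / 6) :=
          mul_le_mul_of_nonneg_right h9 h10
      _ = c ^ 2 * L ^ 2 / 2 := by ring
  have h9 : c ^ 2 / 2 * L ≤ 𝒦.card := by
    have h10 : (c * L) ^ 2 ≤ 𝒦.card * L + c ^ 2 * L ^ 2 / 2 := by linarith
    have h11 : (c ^ 2 / 2 * L) * L ≤ 𝒦.card * L := by nlinarith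
    exact le_of_mul_le_mul_right h11 hLpos
  have h10 : (Q' : ℝ) * ε0 ≤ 1 := by
    rw [hε0, mul_div_assoc', div_le_one (by positivity)]
    have h11 : (3 : ℝ) * Q' ≤ Q1 * c ^ 2 := by
      rw [div_le_iff₀ (by positivity)] at hQ1
      exact hQ1
    have h12 : (Q1 : ℝ) * c ^ 2 ≤ L * c ^ 2 :=
      mul_le_mul_of_nonneg_right (by linarith) (by positivity)
    linarith
  obtain ⟨q, hq1, hq2, hq3⟩ := hvl L (by omega) ε0 hε0pos.le h10 (2 * α) h9
  refine ⟨2 * q, by omega, by omega, ?_⟩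
  have h11 : ((2 * q : ℕ) : ℝ) * α = q * (2 * α) := by
    push_cast
    ring
  rw [h11]
  refine hq3.trans ?_
  rw [hε0, mul_div_assoc', div_div, div_le_div_iff₀ (by positivity) (by positivity)]
  have h12 : (3 : ℝ) * Q' ≤ Q1 * c ^ 2 := by
    rw [div_le_iff₀ (by positivity)] at hQ1
    exact hQ1
  push_cast
  have h13 : (Q' : ℝ) * 3 ≤ (2 * Q' + Q1 + 1) * c ^ 2 := by
    have : (0 : ℝ) ≤ (2 * Q' + 1) * c ^ 2 := by positivity
    nlinarith
  have h14 : (0 : ℝ) ≤ (L : ℝ) ^ 2 := by positivity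
  nlinarith [mul_le_mul_of_nonneg_right h13 h14]

end Pool.Agent.Lib.H18GB
end

-- from Lib.H68T.BPS
section

/-!
# Chunk BPS: the local averages `B_ψ(m)` bounded by the `L¹` norm of `F_ψ`
-/

open Finset MeasureTheory

namespace Pool.Agent.Lib.H68T

/-! ### The weight `v` -/

theorem BPS_w_nonneg (y : ℝ) : 0 ≤ w y :=
  mul_nonneg (Real.smoothTransition.nonneg _) (Real.smoothTransition.nonneg _)

theorem BPS_w_le_one (y : ℝ) : w y ≤ 1 :=
  mul_le_one₀ (Real.smoothTransition.le_one _) (Real.smoothTransition.nonneg _)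
    (Real.smoothTransition.le_one _)

theorem BPS_w_eq_one {y : ℝ} (h1 : -1 ≤ y) (h2 : y ≤ 3) : w y = 1 := by
  unfold w
  rw [Real.smoothTransition.one_of_one_le (by linarith),
    Real.smoothTransition.one_of_one_le (by linarith), one_mul]

theorem BPS_w_eq_zero {y : ℝ} (h1 : y ≤ -2) : w y = 0 := by
  unfold w
  rw [Real.smoothTransition.zero_of_nonpos (by linarith), zero_mul]

theorem BPS_v_nonneg (X m : ℕ) : 0 ≤ v X m := BPS_w_nonneg _

theorem BPS_v_le_one (X m : ℕ) : v X m ≤ 1 := BPS_w_le_one _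

/-- `v(m)/m ≤ 9/X` -/
theorem BPS_v_div_le {X m : ℕ} (hX : 1 ≤ X) (hm : 1 ≤ m) : v X m / m ≤ 9 / X := by
  have hX' : (0:ℝ) < X := by exact_mod_cast hX
  have hm' : (0:ℝ) < m := by exact_mod_cast hm
  rcases le_or_gt (Real.log ((m:ℝ) / X)) (-2) with h | h
  · have : v X m = 0 := BPS_w_eq_zero h
    rw [this, zero_div]; positivity
  · have h1 : Real.exp (-2) < (m:ℝ) / X := (Real.lt_log_iff_exp_lt (by positivity)).mp h
    have h2 : (1:ℝ) / 9 ≤ Real.exp (-2) := by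
      rw [Real.exp_neg, one_div]
      apply inv_anti₀ (Real.exp_pos _)
      have : Real.exp 2 = Real.exp 1 ^ 2 := by rw [← Real.exp_nat_mul]; norm_num
      rw [this]
      have h3 := Real.exp_one_lt_d9
      have h4 := Real.exp_pos 1
      nlinarith
    have h3 : (1:ℝ) / 9 < (m:ℝ) / X := lt_of_le_of_lt h2 h1
    rw [div_lt_div_iff₀ (by norm_num) hX'] at h3
    rw [div_le_div_iff₀ hm' hX']
    have := BPS_v_le_one X m
    have h0 := BPS_v_nonneg X m
    nlinarith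

theorem BPS_norm_cpow {m : ℕ} (hm : 1 ≤ m) (t : ℝ) :
    ‖(m : ℂ) ^ (-(1 + t * Complex.I))‖ = 1 / (m:ℝ) := by
  have hm' : (0:ℝ) < m := by exact_mod_cast hm
  have h := Complex.norm_cpow_eq_rpow_re_of_pos hm' (-(1 + t * Complex.I))
  have h2 : ((m:ℝ) : ℂ) = (m : ℂ) := by norm_cast
  rw [h2] at h
  rw [h]
  have : (-(1 + (t:ℂ) * Complex.I)).re = -1 := by simp
  rw [this, Real.rpow_neg_one, one_div]

/-- A general bound for the weighted polynomials. -/
theorem BPS_FF_le {X : ℕ} (hX : 1 ≤ X) (h : ℕ → ℂ) {D : ℝ}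
    (hD : ∑ m ∈ Icc 1 (60 * X), ‖h m‖ ≤ D * X) (t : ℝ) : ‖FF X h t‖ ≤ 9 * D := by
  have hX' : (0:ℝ) < X := by exact_mod_cast hX
  unfold FF
  calc ‖∑ m ∈ Icc 1 (60 * X), h m * (v X m : ℂ) * (m : ℂ) ^ (-(1 + t * Complex.I))‖
      ≤ ∑ m ∈ Icc 1 (60 * X), ‖h m * (v X m : ℂ) * (m : ℂ) ^ (-(1 + t * Complex.I))‖ :=
        norm_sum_le _ _
    _ ≤ ∑ m ∈ Icc 1 (60 * X), ‖h m‖ * (9 / X) := by
        apply Finset.sum_le_sum
        intro m hm
        rw [mem_Icc] at hm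
        rw [norm_mul, norm_mul, BPS_norm_cpow hm.1, mul_assoc]
        apply mul_le_mul_of_nonneg_left _ (norm_nonneg _)
        rw [Complex.norm_real, Real.norm_of_nonneg (BPS_v_nonneg X m), mul_one_div]
        exact BPS_v_div_le hX hm.1
    _ = (∑ m ∈ Icc 1 (60 * X), ‖h m‖) * (9 / X) := by rw [Finset.sum_mul]
    _ ≤ (D * X) * (9 / X) := mul_le_mul_of_nonneg_right hD (by positivity)
    _ = 9 * D := by field_simp

/-- Chebyshev -/
theorem BPS_sum_vM {X : ℕ} : ∑ m ∈ Icc 1 (60 * X), ArithmeticFunction.vonMangoldt m ≤ 600 * X := by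
  have h1 := Chebyshev.psi_le_const_mul_self (x := ((60 * X : ℕ) : ℝ)) (by positivity)
  have h2 : Chebyshev.psi ((60 * X : ℕ) : ℝ) =
      ∑ m ∈ Icc 1 (60 * X), ArithmeticFunction.vonMangoldt m := by
    unfold Chebyshev.psi
    rw [Nat.floor_natCast]
    rfl
  rw [← h2]
  refine h1.trans ?_
  have h4 : Real.log 4 ≤ 2 := by
    have : (4:ℝ) = 2 ^ 2 := by norm_num
    rw [this, Real.log_pow]
    have := Real.log_two_lt_d9
    push_cast
    linarith
  push_cast
  have : (0:ℝ) ≤ X := by positivity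
  nlinarith

theorem BPS_sum_norm {X : ℕ} (p : Σ r : ℕ, DirichletCharacter ℂ r) :
    ∑ m ∈ Icc 1 (60 * X), ‖(ArithmeticFunction.vonMangoldt m : ℂ) * p.2 (m : ZMod p.1)‖ ≤
      600 * X := by
  refine le_trans (Finset.sum_le_sum fun m _ => ?_) (BPS_sum_vM (X := X))
  rw [norm_mul, Complex.norm_real, Real.norm_of_nonneg ArithmeticFunction.vonMangoldt_nonneg]
  calc _ ≤ ArithmeticFunction.vonMangoldt m * 1 :=
        mul_le_mul_of_nonneg_left (DirichletCharacter.norm_le_one _ _)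
          ArithmeticFunction.vonMangoldt_nonneg
    _ = _ := mul_one _


theorem BPS_continuous_cpow {m : ℕ} (hm : 1 ≤ m) :
    Continuous fun t : ℝ => (m : ℂ) ^ (-(1 + t * Complex.I)) := by
  have hm' : (m : ℂ) ≠ 0 := by
    have : m ≠ 0 := by omega
    exact_mod_cast this
  exact Continuous.const_cpow (by fun_prop) (Or.inl hm')

theorem continuous_FF (X : ℕ) (h : ℕ → ℂ) : Continuous (FF X h) := by
  unfold FF
  apply continuous_finsetSum
  intro m hm
  rw [mem_Icc] at hm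
  exact continuous_const.mul (BPS_continuous_cpow hm.1)

/-! ### Integrability -/

theorem BPS_integrable_inv {g : ℝ → ℂ} (hg : Continuous g) {D : ℝ}
    (hD : ∀ t, ‖g t‖ ≤ D / (1 + t ^ 2)) : Integrable g := by
  have h1 : Integrable fun t : ℝ => D * (1 + t ^ 2)⁻¹ := integrable_inv_one_add_sq.const_mul D
  refine h1.mono' hg.aestronglyMeasurable (Filter.Eventually.of_forall fun t => ?_)
  rw [← div_eq_mul_inv]
  exact hD t

/-- Tail of `1/(1+t²)`. -/
theorem BPS_tail {T : ℝ} (hT : 0 < T) :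
    ∫ t in (Set.Icc (-T) T)ᶜ, (1 + t ^ 2)⁻¹ ≤ 2 / T := by
  have h1 : (Set.Icc (-T) T)ᶜ = Set.Iio (-T) ∪ Set.Ioi T := by
    ext t
    simp only [Set.mem_compl_iff, Set.mem_Icc, not_and_or, not_le, Set.mem_union, Set.mem_Iio,
      Set.mem_Ioi]
  have hI : Integrable fun t : ℝ => (1 + t ^ 2)⁻¹ := integrable_inv_one_add_sq
  rw [h1, setIntegral_union _ measurableSet_Ioi hI.integrableOn hI.integrableOn]
  · have hpos : ∫ t in Set.Ioi T, (1 + t ^ 2)⁻¹ ≤ 1 / T := by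
      have hi : IntegrableOn (fun t : ℝ => t ^ (-2 : ℝ)) (Set.Ioi T) :=
        integrableOn_Ioi_rpow_of_lt (by norm_num) hT
      have e := integral_Ioi_rpow_of_lt (a := -2) (by norm_num) hT
      calc ∫ t in Set.Ioi T, (1 + t ^ 2)⁻¹ ≤ ∫ t in Set.Ioi T, t ^ (-2 : ℝ) := by
            apply setIntegral_mono_on hI.integrableOn hi measurableSet_Ioi
            intro t ht
            have ht' : 0 < t := hT.trans ht
            rw [Real.rpow_neg ht'.le, show (2:ℝ) = ((2:ℕ):ℝ) by norm_num, Real.rpow_natCast]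
            apply inv_anti₀ (by positivity)
            linarith
        _ = 1 / T := by
            rw [e]
            have : (-2 + 1 : ℝ) = -1 := by norm_num
            rw [this, Real.rpow_neg_one]
            field_simp
    have hneg : ∫ t in Set.Iio (-T), (1 + t ^ 2)⁻¹ = ∫ t in Set.Ioi T, (1 + t ^ 2)⁻¹ := by
      have := integral_comp_neg_Ioi (c := T) (f := fun t : ℝ => (1 + t ^ 2)⁻¹)
      rw [← integral_Iic_eq_integral_Iio, ← this]
      apply integral_congr_ae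
      exact Filter.Eventually.of_forall fun t => by simp
    rw [hneg]
    have : 2 / T = 1 / T + 1 / T := by ring
    linarith
  · rw [Set.disjoint_left]
    intro t ht1 ht2
    simp only [Set.mem_Iio, Set.mem_Ioi] at ht1 ht2
    linarith

theorem BPS_tent_nonneg (Y : ℕ) (z : ℤ) : 0 ≤ tent Y z := by
  unfold tent
  positivity

theorem BPS_tent_le (Y : ℕ) (z : ℤ) : tent Y z ≤ 1 / Y := by
  unfold tent
  rcases Nat.eq_zero_or_pos Y with h | h
  · subst h; simp
  have hY : (0:ℝ) < Y := by exact_mod_cast h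
  rw [div_le_div_iff₀ (by positivity) hY]
  have : max 0 ((Y : ℝ) - |(z : ℝ)|) ≤ Y := max_le hY.le (by linarith [abs_nonneg (z:ℝ)])
  nlinarith

theorem BPS_tent_zero {Y : ℕ} {z : ℤ} (h : (Y:ℤ) ≤ |z|) : tent Y z = 0 := by
  unfold tent
  have h' : (Y:ℝ) ≤ |(z:ℝ)| := by exact_mod_cast h
  rw [max_eq_left (by linarith), zero_div]

/-- The weight is `1` on the support of the tent. -/
theorem BPS_v_mul_tent {X Y : ℕ} (hX : 1 ≤ X) (hYX : 2 * Y ≤ X) {m : ℤ} (hm1 : (X : ℤ) ≤ m)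
    (hm2 : m ≤ 4 * X) (n : ℕ) : v X n * tent Y (m - n) = tent Y (m - n) := by
  rcases le_or_gt (Y:ℤ) |m - n| with h | h
  · rw [BPS_tent_zero h, mul_zero]
  · rw [abs_lt] at h
    have hX' : (0:ℝ) < X := by exact_mod_cast hX
    have h1 : (X:ℤ) ≤ 2 * n := by omega
    have h2 : (n:ℤ) ≤ 5 * X := by omega
    have h1' : (X:ℝ) ≤ 2 * n := by exact_mod_cast h1
    have h2' : (n:ℝ) ≤ 5 * X := by exact_mod_cast h2
    have h3 : (1:ℝ) / 2 ≤ (n:ℝ) / X := by
      rw [div_le_div_iff₀ (by norm_num) hX']; linarith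
    have h4 : (n:ℝ) / X ≤ 5 := by rw [div_le_iff₀ hX']; linarith
    have h5 : v X n = 1 := by
      apply BPS_w_eq_one
      · have := Real.log_le_log (by norm_num) h3
        rw [one_div, Real.log_inv] at this
        have := Real.log_two_lt_d9
        linarith
      · have := Real.log_le_log (by linarith) h4
        have h8 : Real.log 5 ≤ Real.log (2 ^ 3) := Real.log_le_log (by norm_num) (by norm_num)
        rw [Real.log_pow] at h8
        have := Real.log_two_lt_d9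
        push_cast at h8
        linarith
    rw [h5, one_mul]

/-- General statement: the average of `h` against the tent. -/
theorem BPS_general {Q X Y : ℕ} (hQ : 1 ≤ Q) (hX : 1 ≤ X) (hY : 1 ≤ Y)
    (hYX : 2 * Y ≤ X) (hYQ : (X : ℝ) ≤ 2 * Q ^ 2 * Y) (h : ℕ → ℂ) {D : ℝ} (hD0 : 0 ≤ D)
    (hD : ∑ n ∈ Icc 1 (60 * X), ‖h n‖ ≤ D * X) (m : ℤ) (hm1 : (X : ℤ) ≤ m) (hm2 : m ≤ 4 * X) :
    ‖∑ n ∈ Icc 1 (60 * X), h n * (tent Y (m - n) : ℂ)‖ ≤
      (∫ t in (-(Q : ℝ) ^ 7)..((Q : ℝ) ^ 7), ‖FF X h t‖) + 11520 * D / (Q : ℝ) ^ 3 := by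
  have hQ' : (0:ℝ) < Q := by exact_mod_cast hQ
  have hX' : (0:ℝ) < X := by exact_mod_cast hX
  have hY' : (0:ℝ) < Y := by exact_mod_cast hY
  have hm1' : (X:ℝ) ≤ m := by exact_mod_cast hm1
  have hm2' : (m:ℝ) ≤ 4 * X := by exact_mod_cast hm2
  obtain ⟨gt, hc, hb1, hb2, hrep⟩ := tent_rep Y m hY (by omega)
  set E : ℝ := 10 * ((m : ℝ) / Y) ^ 2 with hE
  have hE0 : 0 ≤ E := by positivity
  have hmY : (m:ℝ) / Y ≤ 8 * Q ^ 2 := by
    rw [div_le_iff₀ hY']; nlinarith
  have hE1 : E ≤ 640 * Q ^ 4 := by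
    have h0 : 0 ≤ (m:ℝ) / Y := div_nonneg (by linarith) hY'.le
    have : ((m:ℝ) / Y) ^ 2 ≤ (8 * Q ^ 2) ^ 2 := by gcongr
    rw [hE]; nlinarith
  have hFF := BPS_FF_le hX h hD
  have hFc := continuous_FF X h
  -- the identity
  have key : ∑ n ∈ Icc 1 (60 * X), h n * (tent Y (m - n) : ℂ) = ∫ t : ℝ, gt t * FF X h t := by
    have h1 : ∀ n ∈ Icc 1 (60 * X), h n * (tent Y (m - n) : ℂ) =
        ∫ t : ℝ, gt t * (h n * (v X n : ℂ) * (n : ℂ) ^ (-(1 + t * Complex.I))) := by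
      intro n hn
      rw [mem_Icc] at hn
      have h2 : (tent Y (m - n) : ℂ) = (v X n : ℂ) * (tent Y (m - n) : ℂ) := by
        rw [← Complex.ofReal_mul, BPS_v_mul_tent hX hYX hm1 hm2]
      rw [h2, hrep n hn.1, ← mul_assoc, ← integral_const_mul]
      apply integral_congr_ae
      exact Filter.Eventually.of_forall fun t => by ring
    rw [Finset.sum_congr rfl h1, ← integral_finsetSum]
    · apply integral_congr_ae
      refine Filter.Eventually.of_forall fun t => ?_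
      simp only [FF]
      rw [Finset.mul_sum]
    · intro n hn
      rw [mem_Icc] at hn
      have hcc := BPS_continuous_cpow hn.1
      apply BPS_integrable_inv (D := E * ‖h n * (v X n : ℂ)‖)
      · fun_prop
      · intro t
        rw [norm_mul, norm_mul (h n * (v X n : ℂ)), BPS_norm_cpow hn.1]
        have hn' : (1:ℝ) ≤ n := by exact_mod_cast hn.1
        have h3 : 1 / (n:ℝ) ≤ 1 := by rw [div_le_one (by linarith)]; exact hn'
        calc ‖gt t‖ * (‖h n * (v X n : ℂ)‖ * (1 / (n:ℝ)))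
            ≤ (E / (1 + t ^ 2)) * (‖h n * (v X n : ℂ)‖ * 1) := by
              apply mul_le_mul (hb2 t) _ (by positivity) (by positivity)
              exact mul_le_mul_of_nonneg_left h3 (norm_nonneg _)
          _ = _ := by ring
  have hint : Integrable fun t : ℝ => gt t * FF X h t := by
    apply BPS_integrable_inv (D := E * (9 * D)) (by fun_prop)
    intro t
    rw [norm_mul]
    calc ‖gt t‖ * ‖FF X h t‖ ≤ (E / (1 + t ^ 2)) * (9 * D) :=
          mul_le_mul (hb2 t) (hFF t) (norm_nonneg _) (by positivity)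
      _ = _ := by ring
  set T : ℝ := (Q:ℝ) ^ 7 with hT
  have hT0 : 0 < T := by positivity
  rw [key, ← integral_add_compl (measurableSet_Icc (a := -T) (b := T)) hint]
  refine (norm_add_le _ _).trans ?_
  apply add_le_add
  · rw [intervalIntegral.integral_of_le (by linarith), ← integral_Icc_eq_integral_Ioc]
    refine (norm_integral_le_integral_norm _).trans ?_
    apply setIntegral_mono_on hint.norm.integrableOn
    · exact (hFc.norm.continuousOn).integrableOn_compact isCompact_Icc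
    · exact measurableSet_Icc
    · intro t _
      rw [norm_mul]
      calc ‖gt t‖ * ‖FF X h t‖ ≤ 1 * ‖FF X h t‖ :=
            mul_le_mul_of_nonneg_right (hb1 t) (norm_nonneg _)
        _ = _ := one_mul _
  · have hI : Integrable fun t : ℝ => E * (9 * D) * (1 + t ^ 2)⁻¹ :=
      integrable_inv_one_add_sq.const_mul _
    calc ‖∫ t in (Set.Icc (-T) T)ᶜ, gt t * FF X h t‖
        ≤ ∫ t in (Set.Icc (-T) T)ᶜ, ‖gt t * FF X h t‖ := norm_integral_le_integral_norm _
      _ ≤ ∫ t in (Set.Icc (-T) T)ᶜ, E * (9 * D) * (1 + t ^ 2)⁻¹ := by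
          apply setIntegral_mono_on hint.norm.integrableOn hI.integrableOn
            measurableSet_Icc.compl
          intro t _
          rw [norm_mul]
          calc ‖gt t‖ * ‖FF X h t‖ ≤ (E / (1 + t ^ 2)) * (9 * D) :=
                mul_le_mul (hb2 t) (hFF t) (norm_nonneg _) (by positivity)
            _ = _ := by ring
      _ = E * (9 * D) * ∫ t in (Set.Icc (-T) T)ᶜ, (1 + t ^ 2)⁻¹ := integral_const_mul _ _
      _ ≤ (640 * Q ^ 4) * (9 * D) * (2 / T) := by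
          apply mul_le_mul _ (BPS_tail hT0)
          · apply setIntegral_nonneg measurableSet_Icc.compl
            intro t _; positivity
          · positivity
          · exact mul_le_mul_of_nonneg_right hE1 (by positivity)
      _ = 11520 * D / (Q:ℝ) ^ 3 := by
          rw [hT]
          field_simp
          ring

/-! ### Total mass of the tent -/

theorem BPS_mass_aux (N : ℕ) : ∀ Y : ℕ, Y ≤ N →
    ∑ z ∈ Ioo (-(N : ℤ)) N, max 0 ((Y : ℝ) - |(z : ℝ)|) = (Y : ℝ) ^ 2 := by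
  intro Y
  induction Y with
  | zero =>
    intro _
    simp
  | succ Y ih =>
    intro hY
    have ih' := ih (by omega)
    have h1 : ∀ z ∈ Ioo (-(N : ℤ)) N, max 0 (((Y + 1 : ℕ) : ℝ) - |(z : ℝ)|) =
        max 0 ((Y : ℝ) - |(z : ℝ)|) + if |z| ≤ (Y:ℤ) then (1:ℝ) else 0 := by
      intro z _
      have hc : ((Y + 1 : ℕ) : ℝ) = (Y:ℝ) + 1 := by push_cast; ring
      rw [hc]
      split_ifs with h
      · have h' : |(z:ℝ)| ≤ Y := by exact_mod_cast h
        rw [max_eq_right (by linarith), max_eq_right (by linarith)]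
        ring
      · have h2 : (Y:ℤ) + 1 ≤ |z| := by omega
        have h' : (Y:ℝ) + 1 ≤ |(z:ℝ)| := by exact_mod_cast h2
        rw [max_eq_left (by linarith), max_eq_left (by linarith)]
        ring
    rw [Finset.sum_congr rfl h1, Finset.sum_add_distrib, ih', ← Finset.sum_filter]
    have h2 : (Ioo (-(N : ℤ)) N).filter (fun z => |z| ≤ (Y:ℤ)) = Icc (-(Y:ℤ)) Y := by
      ext z
      simp only [mem_filter, mem_Ioo, mem_Icc, abs_le]
      omega
    rw [h2, Finset.sum_const, Int.card_Icc, nsmul_eq_mul, mul_one]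
    have h3 : (Y:ℤ) + 1 - -(Y:ℤ) = ((2 * Y + 1 : ℕ) : ℤ) := by push_cast; ring
    rw [h3, Int.toNat_natCast]
    push_cast; ring

theorem BPS_mass {X Y : ℕ} (hY : 1 ≤ Y) (hYX : 2 * Y ≤ X) {m : ℤ} (hm1 : (X : ℤ) ≤ m)
    (hm2 : m ≤ 4 * X) : ∑ n ∈ Icc 1 (60 * X), tent Y (m - n) = 1 := by
  have hY' : (0:ℝ) < Y := by exact_mod_cast hY
  have h0 : ∑ z ∈ Ioo (-(Y : ℤ)) Y, tent Y z = 1 := by
    unfold tent
    rw [← Finset.sum_div, BPS_mass_aux Y Y le_rfl]
    field_simp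
  rw [← h0]
  have h1 : ∑ n ∈ (Icc 1 (60 * X)).filter (fun n : ℕ => |m - n| < Y), tent Y (m - n) =
      ∑ n ∈ Icc 1 (60 * X), tent Y (m - n) := by
    apply Finset.sum_subset (Finset.filter_subset _ _)
    intro n hn hn'
    rw [mem_filter, not_and, not_lt] at hn'
    exact BPS_tent_zero (hn' hn)
  rw [← h1]
  apply Finset.sum_nbij' (fun n : ℕ => m - n) (fun z => (m - z).toNat)
  · intro n hn
    rw [mem_filter, abs_lt] at hn
    rw [mem_Ioo]
    omega
  · intro z hz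
    rw [mem_Ioo] at hz
    rw [mem_filter, mem_Icc, abs_lt]
    omega
  · intro n hn
    rw [mem_filter, abs_lt] at hn
    omega
  · intro z hz
    rw [mem_Ioo] at hz
    omega
  · intro n _
    rfl

/-! ### Prime powers -/

theorem BPS_lp_le (n : ℕ) : lp n ≤ ArithmeticFunction.vonMangoldt n := by
  unfold lp
  split_ifs with h
  · rw [Int.toNat_natCast] at h
    rw [ArithmeticFunction.vonMangoldt_apply_prime h]
    simp
  · exact ArithmeticFunction.vonMangoldt_nonneg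

theorem BPS_prime_powers (X : ℕ) (hX : 1 ≤ X) :
    ∑ n ∈ Icc 1 (60 * X), (ArithmeticFunction.vonMangoldt n - lp n) ≤
      2 * √((60 * X : ℕ) : ℝ) * Real.log ((60 * X : ℕ) : ℝ) := by
  have h1 := Chebyshev.psi_sub_theta_le (x := ((60 * X : ℕ) : ℝ)) (by
    have : 1 ≤ 60 * X := by omega
    exact_mod_cast this)
  rw [Chebyshev.psi_sub_theta_eq_sum_not_prime, Nat.floor_natCast] at h1
  refine le_trans (le_of_eq ?_) h1
  rw [Finset.sum_filter]
  apply Finset.sum_congr rfl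
  intro n _
  unfold lp
  rw [Int.toNat_natCast]
  by_cases h : n.Prime
  · simp [h, ArithmeticFunction.vonMangoldt_apply_prime h]
  · simp [h]

/-- Replacing the primes by the von Mangoldt function. -/
theorem BPS_replace {X Y : ℕ} (hX : 1 ≤ X) (u : ℕ → ℂ) (hu : ∀ n, ‖u n‖ ≤ 1) (m : ℤ) :
    ‖∑ n ∈ Icc 1 (60 * X), ((lp n * tent Y (m - n) : ℝ) : ℂ) * u n -
      ∑ n ∈ Icc 1 (60 * X), (ArithmeticFunction.vonMangoldt n : ℂ) * u n * (tent Y (m - n) : ℂ)‖ ≤
      (1 / Y) * (2 * √((60 * X : ℕ) : ℝ) * Real.log ((60 * X : ℕ) : ℝ)) := by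
  rw [← Finset.sum_sub_distrib]
  refine (norm_sum_le _ _).trans ?_
  refine le_trans ?_ (mul_le_mul_of_nonneg_left (BPS_prime_powers X hX) (by positivity))
  rw [Finset.mul_sum]
  apply Finset.sum_le_sum
  intro n _
  have h1 : ((lp n * tent Y (m - n) : ℝ) : ℂ) * u n -
      (ArithmeticFunction.vonMangoldt n : ℂ) * u n * (tent Y (m - n) : ℂ) =
      ((tent Y (m - n) * (lp n - ArithmeticFunction.vonMangoldt n) : ℝ) : ℂ) * u n := by
    push_cast; ring
  rw [h1, norm_mul, Complex.norm_real, norm_mul, Real.norm_of_nonneg (BPS_tent_nonneg _ _),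
    Real.norm_of_nonpos (by linarith [BPS_lp_le n]), neg_sub]
  calc tent Y (m - n) * (ArithmeticFunction.vonMangoldt n - lp n) * ‖u n‖
      ≤ tent Y (m - n) * (ArithmeticFunction.vonMangoldt n - lp n) * 1 := by
        apply mul_le_mul_of_nonneg_left (hu n)
        exact mul_nonneg (BPS_tent_nonneg _ _) (by linarith [BPS_lp_le n])
    _ ≤ 1 / Y * (ArithmeticFunction.vonMangoldt n - lp n) := by
        rw [mul_one]
        exact mul_le_mul_of_nonneg_right (BPS_tent_le _ _) (by linarith [BPS_lp_le n])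




end Pool.Agent.Lib.H68T
end
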