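import Mathlib

/-! Merged copies (to shorten the build) of Lib.H59C.PVI, Lib.H59C.SEP, Lib.H68T.T341. -/

-- from Lib.H59C.PVI
section

/-!
# PVI: the inequality of Pólya and Vinogradov
-/

open Finset

namespace Pool.Agent.Lib.H59C

/-- The norm of the Gauss sum of a primitive character. -/
theorem PVI_tau (r : ℕ) [NeZero r] (χ : DirichletCharacter ℂ r) (hχ : χ.IsPrimitive) :
    ‖gaussSum χ (ZMod.stdAddChar (N := r))‖ ^ 2 = r := by
  classical
  set e : AddChar (ZMod r) ℂ := ZMod.stdAddChar with he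
  set τ : ℂ := gaussSum χ e with hτ
  have hprim : e.IsPrimitive := ZMod.isPrimitive_stdAddChar r
  have hconj : ∀ x : ZMod r, (starRingEnd ℂ) (e x) = e (-x) := by
    intro x
    rw [AddChar.map_neg_eq_inv, Complex.inv_eq_conj (AddChar.norm_apply e x)]
  have hinv : ∀ a : ZMod r, ‖χ⁻¹ a‖ = ‖χ a‖ := by
    intro a
    rw [← MulChar.star_apply' χ a, norm_star]
  set Q : ℝ := ∑ a : ZMod r, ‖χ a‖ ^ 2 with hQ
  have hQ0 : 0 < Q := by
    refine Finset.sum_pos' (fun a _ => by positivity) ⟨1, Finset.mem_univ _, ?_⟩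
    rw [map_one, norm_one]
    norm_num
  have h1 : ∑ a : ZMod r, ‖gaussSum χ (e.mulShift a)‖ ^ 2 = Q * ‖τ‖ ^ 2 := by
    rw [hQ, Finset.sum_mul]
    refine Finset.sum_congr rfl fun a _ => ?_
    rw [gaussSum_mulShift_of_isPrimitive e hχ a, norm_mul, hinv, mul_pow]
  have h2 : ((∑ a : ZMod r, ‖gaussSum χ (e.mulShift a)‖ ^ 2 : ℝ) : ℂ) = r * (Q : ℂ) := by
    have e1 : ∀ a : ZMod r, ((‖gaussSum χ (e.mulShift a)‖ ^ 2 : ℝ) : ℂ) =
        ∑ b : ZMod r, ∑ c : ZMod r, χ b * (starRingEnd ℂ) (χ c) * e (a * (b - c)) := by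
      intro a
      have h3 : ((‖gaussSum χ (e.mulShift a)‖ ^ 2 : ℝ) : ℂ) =
          gaussSum χ (e.mulShift a) * (starRingEnd ℂ) (gaussSum χ (e.mulShift a)) := by
        rw [Complex.mul_conj']
        push_cast
        rfl
      rw [h3, gaussSum, map_sum, Finset.sum_mul_sum]
      refine Finset.sum_congr rfl fun b _ => Finset.sum_congr rfl fun c _ => ?_
      have h5 : (starRingEnd ℂ) (χ c * (e.mulShift a) c) =
          (starRingEnd ℂ) (χ c) * e (-(a * c)) := by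
        rw [AddChar.mulShift_apply, ← hconj]
        exact map_mul (starRingEnd ℂ) _ _
      rw [h5, AddChar.mulShift_apply]
      have h4 : e (a * (b - c)) = e (a * b) * e (-(a * c)) := by
        rw [← AddChar.map_add_eq_mul]
        congr 1
        ring
      rw [h4]
      ring
    rw [Complex.ofReal_sum, Finset.sum_congr rfl fun a _ => e1 a, Finset.sum_comm]
    have e2 : ∀ b : ZMod r, ∑ a : ZMod r, ∑ c : ZMod r,
        χ b * (starRingEnd ℂ) (χ c) * e (a * (b - c)) = r * ((‖χ b‖ ^ 2 : ℝ) : ℂ) := by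
      intro b
      rw [Finset.sum_comm, Finset.sum_eq_single b]
      · rw [← Finset.mul_sum, AddChar.sum_mulShift _ hprim, sub_self, if_pos rfl, ZMod.card,
          Complex.mul_conj']
        push_cast
        ring
      · intro c _ hcb
        rw [← Finset.mul_sum, AddChar.sum_mulShift _ hprim, if_neg (sub_ne_zero.mpr hcb.symm)]
        simp
      · intro h
        exact absurd (Finset.mem_univ b) h
    rw [Finset.sum_congr rfl fun b _ => e2 b, ← Finset.mul_sum, hQ, Complex.ofReal_sum]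
  rw [h1] at h2
  have h3 : Q * ‖τ‖ ^ 2 = r * Q := by
    have : ((Q * ‖τ‖ ^ 2 : ℝ) : ℂ) = ((r * Q : ℝ) : ℂ) := by
      rw [h2]
      push_cast
      rfl
    exact_mod_cast this
  have h4 : Q * ‖τ‖ ^ 2 = Q * r := by rw [h3]; ring
  exact mul_left_cancel₀ hQ0.ne' h4

theorem PVI_sin (t : ℝ) (h0 : 0 ≤ t) (h1 : t ≤ 1) :
    2 * (t * (1 - t)) ≤ Real.sin (Real.pi * t) := by
  have hpi := Real.pi_pos
  have key : ∀ s : ℝ, 0 ≤ s → s ≤ 1 / 2 → 2 * (s * (1 - s)) ≤ Real.sin (Real.pi * s) := by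
    intro s hs0 hs1
    have h := Real.mul_le_sin (x := Real.pi * s) (by positivity) (by nlinarith)
    have e : 2 / Real.pi * (Real.pi * s) = 2 * s := by
      field_simp
    rw [e] at h
    nlinarith
  rcases le_total t (1 / 2) with h | h
  · exact key t h0 h
  · have h2 := key (1 - t) (by linarith) (by linarith)
    have e : Real.sin (Real.pi * (1 - t)) = Real.sin (Real.pi * t) := by
      rw [mul_sub, mul_one, Real.sin_pi_sub]
    rw [e] at h2
    nlinarith

/-- Geometric sums of a nontrivial additive character. -/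
theorem PVI_geom (r : ℕ) [NeZero r] (b : ZMod r) (hb : b ≠ 0) (u v : ℕ) :
    ‖∑ n ∈ Ico u v, ZMod.stdAddChar ((n : ZMod r) * b)‖ ≤
      r / 2 * ((b.val : ℝ)⁻¹ + ((r - b.val : ℕ) : ℝ)⁻¹) := by
  have hr : 0 < r := Nat.pos_of_ne_zero (NeZero.ne r)
  have hbr : b.val < r := ZMod.val_lt b
  have hb0 : 0 < b.val := Nat.pos_of_ne_zero fun h => hb ((ZMod.val_eq_zero b).mp h)
  have hbr' : ((r - b.val : ℕ) : ℝ) = (r : ℝ) - b.val := by
    rw [Nat.cast_sub hbr.le]
  have hrR : (0 : ℝ) < r := by exact_mod_cast hr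
  have hbR : (0 : ℝ) < b.val := by exact_mod_cast hb0
  have hbrR : (b.val : ℝ) < r := by exact_mod_cast hbr
  have hrhs : 0 ≤ (r : ℝ) / 2 * ((b.val : ℝ)⁻¹ + ((r - b.val : ℕ) : ℝ)⁻¹) := by positivity
  rcases le_or_gt v u with huv | huv
  · rw [Finset.Ico_eq_empty_of_le huv, Finset.sum_empty, norm_zero]
    exact hrhs
  set z : ℂ := ZMod.stdAddChar b with hz
  have hzn : ‖z‖ = 1 := AddChar.norm_apply _ _
  have h1 : ∑ n ∈ Ico u v, ZMod.stdAddChar ((n : ZMod r) * b) = ∑ n ∈ Ico u v, z ^ n := by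
    refine Finset.sum_congr rfl fun n _ => ?_
    rw [← nsmul_eq_mul, AddChar.map_nsmul_eq_pow]
  set t : ℝ := b.val / r with ht
  have ht0 : 0 < t := by positivity
  have ht1 : t < 1 := by rw [ht, div_lt_one hrR]; exact hbrR
  have hzt : z = Complex.exp (Complex.I * ((2 * Real.pi * t : ℝ) : ℂ)) := by
    have h2 : z = ZMod.stdAddChar (((b.val : ℤ)) : ZMod r) := by
      rw [hz]
      congr 1
      rw [Int.cast_natCast, ZMod.natCast_zmod_val]
    rw [h2, ZMod.stdAddChar_coe]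
    congr 1
    rw [ht]
    push_cast
    ring
  have hsin := PVI_sin t ht0.le ht1.le
  have hpos : 0 < t * (1 - t) := mul_pos ht0 (by linarith)
  have hz1 : 4 * (t * (1 - t)) ≤ ‖z - 1‖ := by
    rw [hzt, Complex.norm_exp_I_mul_ofReal_sub_one, Real.norm_eq_abs]
    have e : 2 * Real.pi * t / 2 = Real.pi * t := by ring
    rw [e]
    refine le_trans ?_ (le_abs_self _)
    linarith
  have hz1' : 0 < ‖z - 1‖ := lt_of_lt_of_le (by linarith) hz1
  have hgeom : (∑ n ∈ Ico u v, z ^ n) * (z - 1) = z ^ v - z ^ u := geom_sum_Ico_mul z huv.le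
  have hnorm : ‖∑ n ∈ Ico u v, z ^ n‖ * ‖z - 1‖ ≤ 2 := by
    rw [← norm_mul, hgeom]
    refine (norm_sub_le _ _).trans ?_
    rw [norm_pow, norm_pow, hzn, one_pow, one_pow]
    norm_num
  rw [h1]
  have h5 : ‖∑ n ∈ Ico u v, z ^ n‖ * (4 * (t * (1 - t))) ≤ 2 :=
    (mul_le_mul_of_nonneg_left hz1 (norm_nonneg _)).trans hnorm
  have h6 : ‖∑ n ∈ Ico u v, z ^ n‖ ≤ 2 / (4 * (t * (1 - t))) := by
    rw [le_div_iff₀ (by linarith)]
    exact h5
  refine h6.trans (le_of_eq ?_)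
  rw [hbr', ht]
  have hne : (r : ℝ) - b.val ≠ 0 := by linarith
  field_simp
  ring

/-- `|∑_{u ≤ n < v} χ(n)| ≤ C √r log r` for primitive `χ` mod `r > 1`.

Proof. `χ(n) = τ(χ̄)⁻¹ ∑_{b mod r} χ̄(b) e(b n/r)` (`gaussSum_mulShift_of_isPrimitive`), `|τ|² = r` (as in
`LSB`: Parseval), and `|∑_{u ≤ n < v} e(b n/r)| ≤ 1/|sin(π b/r)| ≤ r/(2 min(b, r-b))` for `0 < b < r`
(`b = 0` does not contribute, `χ̄(0) = 0`); so the sum is at most
`r^(-1/2) ∑_{0<b<r} r/(2 min(b, r - b)) ≤ √r (1 + log r)`. -/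
theorem polya_vinogradov : ∃ C : ℝ, 0 < C ∧ ∀ (r : ℕ) [NeZero r] (χ : DirichletCharacter ℂ r),
    1 < r → χ.IsPrimitive → ∀ u v : ℕ,
    ‖∑ n ∈ Ico u v, χ (n : ZMod r)‖ ≤ C * Real.sqrt r * Real.log r := by
  refine ⟨1 / Real.log 2 + 1, by positivity, ?_⟩
  intro r _ χ hr hχ u v
  classical
  set e : AddChar (ZMod r) ℂ := ZMod.stdAddChar with he
  set τ : ℂ := gaussSum χ e with hτ
  have hτ2 : ‖τ‖ ^ 2 = r := PVI_tau r χ hχ
  have hrR : (1 : ℝ) < r := by exact_mod_cast hr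
  have hτs : ‖τ‖ = Real.sqrt r := by
    rw [← hτ2, Real.sqrt_sq (norm_nonneg _)]
  have hconj : ‖∑ n ∈ Ico u v, χ (n : ZMod r)‖ = ‖∑ n ∈ Ico u v, χ⁻¹ (n : ZMod r)‖ := by
    rw [← norm_star (∑ n ∈ Ico u v, χ (n : ZMod r)), star_sum]
    congr 1
    exact Finset.sum_congr rfl fun n _ => MulChar.star_apply' χ _
  have hmain : (∑ n ∈ Ico u v, χ⁻¹ (n : ZMod r)) * τ =
      ∑ b : ZMod r, χ b * ∑ n ∈ Ico u v, e ((n : ZMod r) * b) := by
    rw [Finset.sum_mul]
    have h1 : ∀ n ∈ Ico u v, χ⁻¹ (n : ZMod r) * τ = ∑ b : ZMod r, χ b * e ((n : ZMod r) * b) := by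
      intro n _
      rw [hτ, ← gaussSum_mulShift_of_isPrimitive e hχ, gaussSum]
      exact Finset.sum_congr rfl fun b _ => by rw [AddChar.mulShift_apply]
    rw [Finset.sum_congr rfl h1, Finset.sum_comm]
    exact Finset.sum_congr rfl fun b _ => by rw [Finset.mul_sum]
  set G : ℕ → ℝ := fun k => (r : ℝ) / 2 * ((k : ℝ)⁻¹ + ((r - k : ℕ) : ℝ)⁻¹) with hG
  set F : ℕ → ℝ := fun k => if k = 0 then 0 else G k with hF
  have hbound : ‖∑ b : ZMod r, χ b * ∑ n ∈ Ico u v, e ((n : ZMod r) * b)‖ ≤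
      ∑ b : ZMod r, F b.val := by
    refine (norm_sum_le _ _).trans (Finset.sum_le_sum fun b _ => ?_)
    rw [norm_mul]
    by_cases hb : b = 0
    · rw [hb, DirichletCharacter.map_zero' χ (by omega), norm_zero, zero_mul, hF]
      simp
    · have hb' : b.val ≠ 0 := fun h => hb ((ZMod.val_eq_zero b).mp h)
      rw [hF]
      simp only [if_neg hb', hG]
      calc ‖χ b‖ * ‖∑ n ∈ Ico u v, e ((n : ZMod r) * b)‖
          ≤ 1 * ‖∑ n ∈ Ico u v, e ((n : ZMod r) * b)‖ :=
            mul_le_mul_of_nonneg_right (DirichletCharacter.norm_le_one χ b) (norm_nonneg _)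
        _ = ‖∑ n ∈ Ico u v, e ((n : ZMod r) * b)‖ := one_mul _
        _ ≤ _ := PVI_geom r b hb u v
  have hsum1 : ∑ b : ZMod r, F b.val = ∑ k ∈ range r, F k := by
    refine Finset.sum_nbij' (fun b : ZMod r => b.val) (fun k : ℕ => (k : ZMod r)) ?_ ?_ ?_ ?_ ?_
    · intro b _
      exact Finset.mem_range.mpr (ZMod.val_lt b)
    · intro k _
      exact Finset.mem_univ _
    · intro b _
      exact ZMod.natCast_zmod_val b
    · intro k hk
      exact ZMod.val_cast_of_lt (Finset.mem_range.mp hk)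
    · intro b _
      rfl
  have hsum2 : ∑ k ∈ range r, F k = ∑ k ∈ Ico 1 r, G k := by
    rw [Finset.range_eq_Ico, Finset.sum_eq_sum_Ico_succ_bot (by omega)]
    have : F 0 = 0 := by rw [hF]; simp
    rw [this, zero_add]
    refine Finset.sum_congr rfl fun k hk => ?_
    have hk0 : k ≠ 0 := by
      have := (Finset.mem_Ico.mp hk).1
      omega
    rw [hF]
    simp only [if_neg hk0]
  have hsum3 : ∑ k ∈ Ico 1 r, G k = r * ∑ k ∈ Ico 1 r, (k : ℝ)⁻¹ := by
    rw [hG, ← Finset.mul_sum, Finset.sum_add_distrib]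
    have h1 := Finset.sum_Ico_reflect (fun k : ℕ => (k : ℝ)⁻¹) 1 (m := r) (n := r) (by omega)
    rw [h1]
    have e1 : r + 1 - r = 1 := by omega
    have e2 : r + 1 - 1 = r := by omega
    rw [e1, e2]
    ring
  have hharm : ∑ k ∈ Ico 1 r, (k : ℝ)⁻¹ ≤ 1 + Real.log r := by
    have h1 : ∑ k ∈ Ico 1 r, (k : ℝ)⁻¹ = ((harmonic (r - 1) : ℚ) : ℝ) := by
      rw [harmonic_eq_sum_Icc]
      push_cast
      refine Finset.sum_congr ?_ fun _ _ => rfl
      ext k
      simp only [Finset.mem_Ico, Finset.mem_Icc]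
      omega
    rw [h1]
    refine (harmonic_le_one_add_log (r - 1)).trans ?_
    have h2 : Real.log ((r - 1 : ℕ) : ℝ) ≤ Real.log r := by
      apply Real.log_le_log
      · have : 0 < r - 1 := by omega
        exact_mod_cast this
      · exact_mod_cast Nat.sub_le r 1
    linarith
  have hτpos : 0 < ‖τ‖ := by
    rw [hτs]
    exact Real.sqrt_pos.mpr (by linarith)
  have h5 : ‖∑ n ∈ Ico u v, χ⁻¹ (n : ZMod r)‖ * ‖τ‖ ≤ r * (1 + Real.log r) := by
    rw [← norm_mul, hmain]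
    refine hbound.trans ?_
    rw [hsum1, hsum2, hsum3]
    exact mul_le_mul_of_nonneg_left hharm (by linarith)
  have hsq : Real.sqrt r * Real.sqrt r = r := Real.mul_self_sqrt (by linarith)
  have h6 : ‖∑ n ∈ Ico u v, χ⁻¹ (n : ZMod r)‖ ≤ Real.sqrt r * (1 + Real.log r) := by
    rw [hτs] at h5 hτpos
    have h7 : ‖∑ n ∈ Ico u v, χ⁻¹ (n : ZMod r)‖ * Real.sqrt r ≤
        (Real.sqrt r * (1 + Real.log r)) * Real.sqrt r := by
      refine h5.trans (le_of_eq ?_)
      calc (r : ℝ) * (1 + Real.log r) = (Real.sqrt r * Real.sqrt r) * (1 + Real.log r) := by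
            rw [hsq]
        _ = (Real.sqrt r * (1 + Real.log r)) * Real.sqrt r := by ring
    exact le_of_mul_le_mul_right h7 hτpos
  rw [hconj]
  refine h6.trans ?_
  have hlog2 : 0 < Real.log 2 := Real.log_pos (by norm_num)
  have hlogr : Real.log 2 ≤ Real.log r := by
    apply Real.log_le_log (by norm_num)
    exact_mod_cast hr
  have h8 : 1 ≤ 1 / Real.log 2 * Real.log r := by
    rw [one_div, inv_mul_eq_div, le_div_iff₀ hlog2]
    linarith
  have h9 : 1 + Real.log r ≤ (1 / Real.log 2 + 1) * Real.log r := by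
    rw [add_mul, one_mul]
    linarith
  calc Real.sqrt r * (1 + Real.log r) ≤ Real.sqrt r * ((1 / Real.log 2 + 1) * Real.log r) :=
        mul_le_mul_of_nonneg_left h9 (Real.sqrt_nonneg _)
    _ = (1 / Real.log 2 + 1) * Real.sqrt r * Real.log r := by ring

end Pool.Agent.Lib.H59C
end

-- from Lib.H59C.SEP
section

/-!
# SEP: exact separation of variables
-/

open MeasureTheory FourierTransform

namespace Pool.Agent.Lib.H59C

theorem sep_ft_eq (a b : ℝ) (hab : a ≤ b) (c : ℂ) (t : ℝ) :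
    𝓕 (Set.indicator (Set.Icc a b) (fun _ => c)) t =
      (∫ v in a..b, Complex.exp ((-(2 * Real.pi * t) * Complex.I) * v)) * c := by
  rw [Real.fourier_real_eq_integral_exp_smul]
  have h1 : ∀ v : ℝ, Complex.exp (((-2 * Real.pi * v * t : ℝ) : ℂ) * Complex.I) •
      Set.indicator (Set.Icc a b) (fun _ => c) v =
      Set.indicator (Set.Icc a b) (fun v : ℝ =>
        Complex.exp ((-(2 * Real.pi * t) * Complex.I) * v) * c) v := by
    intro v
    by_cases hv : v ∈ Set.Icc a b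
    · rw [Set.indicator_of_mem hv, Set.indicator_of_mem hv, smul_eq_mul]
      congr 2
      push_cast
      ring
    · rw [Set.indicator_of_notMem hv, Set.indicator_of_notMem hv, smul_zero]
  rw [integral_congr_ae (Filter.Eventually.of_forall h1), integral_indicator measurableSet_Icc,
    integral_Icc_eq_integral_Ioc, ← intervalIntegral.integral_of_le hab,
    intervalIntegral.integral_mul_const]

theorem sep_norm_exp (t v : ℝ) : ‖Complex.exp ((-(2 * Real.pi * t) * Complex.I) * v)‖ = 1 := by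
  rw [Complex.norm_exp]
  have : ((-(2 * Real.pi * t) * Complex.I) * v : ℂ).re = 0 := by simp
  rw [this, Real.exp_zero]

theorem sep_ft_le (a b : ℝ) (hab : a ≤ b) (c : ℂ) (t : ℝ) :
    ‖𝓕 (Set.indicator (Set.Icc a b) (fun _ => c)) t‖ ≤ (b - a) * ‖c‖ := by
  rw [sep_ft_eq a b hab, norm_mul]
  refine mul_le_mul_of_nonneg_right ?_ (norm_nonneg _)
  have h := intervalIntegral.norm_integral_le_of_norm_le_const (a := a) (b := b) (C := 1)
    (f := fun v : ℝ => Complex.exp ((-(2 * Real.pi * t) * Complex.I) * v))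
    (fun v _ => (sep_norm_exp t v).le)
  rwa [one_mul, abs_of_nonneg (by linarith)] at h

theorem sep_ft_le' (a b : ℝ) (hab : a ≤ b) (c : ℂ) {t : ℝ} (ht : t ≠ 0) :
    ‖𝓕 (Set.indicator (Set.Icc a b) (fun _ => c)) t‖ ≤ 1 / (Real.pi * |t|) * ‖c‖ := by
  rw [sep_ft_eq a b hab, norm_mul]
  refine mul_le_mul_of_nonneg_right ?_ (norm_nonneg _)
  have hc : (-(2 * Real.pi * t) * Complex.I : ℂ) ≠ 0 := by
    apply mul_ne_zero _ Complex.I_ne_zero
    rw [neg_ne_zero]
    exact_mod_cast mul_ne_zero (mul_ne_zero two_ne_zero Real.pi_ne_zero) ht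
  rw [integral_exp_mul_complex hc, norm_div]
  have h1 : ‖(-(2 * Real.pi * t) * Complex.I : ℂ)‖ = 2 * Real.pi * |t| := by
    rw [norm_mul, Complex.norm_I, mul_one, norm_neg]
    have : (2 * Real.pi * t : ℂ) = ((2 * Real.pi * t : ℝ) : ℂ) := by push_cast; ring
    rw [this, Complex.norm_real, Real.norm_eq_abs, abs_mul, abs_of_pos Real.two_pi_pos]
  have h2 : ‖Complex.exp ((-(2 * Real.pi * t) * Complex.I) * b) -
      Complex.exp ((-(2 * Real.pi * t) * Complex.I) * a)‖ ≤ 2 := by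
    refine (norm_sub_le _ _).trans ?_
    rw [sep_norm_exp, sep_norm_exp]
    norm_num
  have h3 : 0 < Real.pi * |t| := mul_pos Real.pi_pos (abs_pos.2 ht)
  rw [h1, div_le_div_iff₀ (by linarith) h3]
  nlinarith

/-- the trapezoid -/
theorem sep_conv (a b w : ℝ) (u : ℝ) :
    convolution (Set.indicator (Set.Icc a b) (fun _ => (1 : ℂ)))
      (Set.indicator (Set.Icc (-(w / 2)) (w / 2)) (fun _ => ((1 / w : ℝ) : ℂ)))
      (ContinuousLinearMap.mul ℂ ℂ) volume u =
      ((max (min b (u + w / 2) - max a (u - w / 2)) 0 * (1 / w) : ℝ) : ℂ) := by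
  rw [convolution_def]
  have h1 : ∀ t : ℝ, (ContinuousLinearMap.mul ℂ ℂ) (Set.indicator (Set.Icc a b) (fun _ => (1 : ℂ)) t)
      (Set.indicator (Set.Icc (-(w / 2)) (w / 2)) (fun _ => ((1 / w : ℝ) : ℂ)) (u - t)) =
      Set.indicator (Set.Icc (max a (u - w / 2)) (min b (u + w / 2)))
        (fun _ => ((1 / w : ℝ) : ℂ)) t := by
    intro t
    rw [ContinuousLinearMap.mul_apply']
    by_cases h1 : t ∈ Set.Icc (max a (u - w / 2)) (min b (u + w / 2))
    · rw [Set.indicator_of_mem h1]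
      rw [Set.mem_Icc, max_le_iff, le_min_iff] at h1
      rw [Set.indicator_of_mem (Set.mem_Icc.2 ⟨h1.1.1, h1.2.1⟩),
        Set.indicator_of_mem (Set.mem_Icc.2 ⟨by linarith, by linarith⟩), one_mul]
    · rw [Set.indicator_of_notMem h1]
      by_cases h2 : t ∈ Set.Icc a b
      · have h3 : u - t ∉ Set.Icc (-(w / 2)) (w / 2) := by
          intro h3
          apply h1
          rw [Set.mem_Icc] at h2 h3
          rw [Set.mem_Icc, max_le_iff, le_min_iff]
          exact ⟨⟨h2.1, by linarith⟩, ⟨h2.2, by linarith⟩⟩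
        rw [Set.indicator_of_notMem h3, mul_zero]
      · rw [Set.indicator_of_notMem h2, zero_mul]
  rw [integral_congr_ae (Filter.Eventually.of_forall h1), integral_indicator measurableSet_Icc,
    setIntegral_const, Real.volume_real_Icc, Complex.real_smul, ← Complex.ofReal_mul]

theorem sep_abs {f : ℝ → ℝ} (hf : IntegrableOn f (Set.Ioi 0)) :
    Integrable (fun x => f |x|) := by
  have hf' : IntegrableOn (fun x => f |x|) (Set.Ioi 0) := by
    refine hf.congr_fun (fun x hx => ?_) measurableSet_Ioi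
    rw [abs_of_pos hx]
  have int_Iic : IntegrableOn (fun x ↦ f |x|) (Set.Iic 0) := by
    rw [← Measure.map_neg_eq_self (volume : Measure ℝ)]
    let m : MeasurableEmbedding fun x : ℝ => -x := (Homeomorph.neg ℝ).measurableEmbedding
    rw [m.integrableOn_map_iff]
    simp_rw [Function.comp_def, abs_neg, Set.neg_preimage, Set.neg_Iic, neg_zero]
    exact Iff.mpr integrableOn_Ici_iff_integrableOn_Ioi hf'
  rw [← integrableOn_univ, ← Set.Iic_union_Ioi (a := (0 : ℝ))]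
  exact int_Iic.union hf'

/-- the majorant -/
noncomputable def sepH (A D ε : ℝ) (x : ℝ) : ℝ := if x ≤ 1 then A else D * x ^ (-1 - ε)

theorem sepH_int (A D ε : ℝ) (hε : 0 < ε) : IntegrableOn (sepH A D ε) (Set.Ioi 0) ∧
    ∫ x in Set.Ioi 0, sepH A D ε x = A + D / ε := by
  have hu : Set.Ioi (0 : ℝ) = Set.Ioc 0 1 ∪ Set.Ioi 1 := by
    rw [Set.Ioc_union_Ioi_eq_Ioi zero_le_one]
  have hd : Disjoint (Set.Ioc (0 : ℝ) 1) (Set.Ioi 1) := by
    rw [Set.disjoint_left]
    intro x hx hx2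
    exact absurd hx.2 (not_le.2 hx2)
  have e1 : Set.EqOn (fun _ => A) (sepH A D ε) (Set.Ioc 0 1) := by
    intro x hx
    show A = sepH A D ε x
    rw [sepH, if_pos hx.2]
  have e2 : Set.EqOn (fun x => D * x ^ (-1 - ε)) (sepH A D ε) (Set.Ioi 1) := by
    intro x hx
    show D * x ^ (-1 - ε) = sepH A D ε x
    rw [sepH, if_neg (not_le.2 hx)]
  have i1 : IntegrableOn (sepH A D ε) (Set.Ioc 0 1) := by
    refine IntegrableOn.congr_fun ?_ e1 measurableSet_Ioc
    exact integrableOn_const (by simp)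
  have i2 : IntegrableOn (sepH A D ε) (Set.Ioi 1) := by
    refine IntegrableOn.congr_fun ?_ e2 measurableSet_Ioi
    exact (integrableOn_Ioi_rpow_of_lt (by linarith) zero_lt_one).const_mul D
  refine ⟨?_, ?_⟩
  · rw [hu]
    exact i1.union i2
  · rw [hu, setIntegral_union hd measurableSet_Ioi i1 i2,
      ← setIntegral_congr_fun measurableSet_Ioc e1, ← setIntegral_congr_fun measurableSet_Ioi e2,
      integral_const_mul, integral_Ioi_rpow_of_lt (by linarith) zero_lt_one, Real.one_rpow,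
      setIntegral_const, Real.volume_real_Ioc]
    have : -1 - ε + 1 = -ε := by ring
    rw [this, neg_div_neg_eq, max_eq_left (by norm_num)]
    simp
    ring

theorem sep_cont {f : ℝ → ℂ} (hf : Integrable f) : Continuous (𝓕 f) :=
  VectorFourier.fourierIntegral_continuous Real.continuous_fourierChar
    (innerSL ℝ).continuous₂ hf

theorem sep_ind (a b : ℝ) (c : ℂ) : Integrable (Set.indicator (Set.Icc a b) (fun _ => c)) := by
  rw [integrable_indicator_iff measurableSet_Icc]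
  exact integrableOn_const (by simp)

/-- the pointwise bound -/
theorem sep_bound (a b w : ℝ) (hab : a ≤ b) (hw : 0 < w) (ε : ℝ) (hε : 0 < ε) (hε1 : ε ≤ 1)
    (t : ℝ) :
    ‖𝓕 (Set.indicator (Set.Icc a b) (fun _ => (1 : ℂ))) t *
      𝓕 (Set.indicator (Set.Icc (-(w / 2)) (w / 2)) (fun _ => ((1 / w : ℝ) : ℂ))) t‖ ≤
      sepH (b - a) ((1 / w) ^ ε) ε |t| := by
  have hc : ‖((1 / w : ℝ) : ℂ)‖ = 1 / w := by
    rw [Complex.norm_real, Real.norm_of_nonneg (by positivity)]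
  have h2 := sep_ft_le (-(w / 2)) (w / 2) (by linarith) ((1 / w : ℝ) : ℂ) t
  have h2' : ‖𝓕 (Set.indicator (Set.Icc (-(w / 2)) (w / 2)) (fun _ => ((1 / w : ℝ) : ℂ))) t‖ ≤ 1 := by
    refine h2.trans (le_of_eq ?_)
    rw [hc]
    field_simp
    ring
  rw [norm_mul, sepH]
  split_ifs with ht
  · have h1 := sep_ft_le a b hab 1 t
    rw [norm_one, mul_one] at h1
    calc _ ≤ (b - a) * 1 := mul_le_mul h1 h2' (norm_nonneg _) (by linarith)
      _ = b - a := mul_one _
  · push Not at ht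
    have ht0 : t ≠ 0 := by
      rintro rfl
      rw [abs_zero] at ht
      linarith
    have hat : 0 < |t| := abs_pos.2 ht0
    have h1 := sep_ft_le' a b hab 1 ht0
    rw [norm_one, mul_one] at h1
    have h3 := sep_ft_le' (-(w / 2)) (w / 2) (by linarith) ((1 / w : ℝ) : ℂ) ht0
    rw [hc] at h3
    have hpi : 1 ≤ Real.pi := by linarith [Real.pi_gt_three]
    have h4 : 1 / (Real.pi * |t|) ≤ 1 / |t| := by
      apply one_div_le_one_div_of_le hat
      nlinarith
    have h5 : ‖𝓕 (Set.indicator (Set.Icc (-(w / 2)) (w / 2)) (fun _ => ((1 / w : ℝ) : ℂ))) t‖ ≤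
        (1 / |t| * (1 / w)) ^ ε := by
      have h6 : ‖𝓕 (Set.indicator (Set.Icc (-(w / 2)) (w / 2)) (fun _ => ((1 / w : ℝ) : ℂ))) t‖ ≤
          1 / |t| * (1 / w) := h3.trans (mul_le_mul_of_nonneg_right h4 (by positivity))
      rcases le_total (1 / |t| * (1 / w)) 1 with h7 | h7
      · refine h6.trans ?_
        conv_lhs => rw [← Real.rpow_one (1 / |t| * (1 / w))]
        exact Real.rpow_le_rpow_of_exponent_ge (by positivity) h7 hε1
      · exact h2'.trans (Real.one_le_rpow h7 hε.le)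
    calc _ ≤ 1 / |t| * (1 / |t| * (1 / w)) ^ ε :=
          mul_le_mul (h1.trans h4) h5 (norm_nonneg _) (by positivity)
      _ = (1 / w) ^ ε * |t| ^ (-1 - ε) := by
        rw [Real.mul_rpow (by positivity) (by positivity), Real.rpow_sub hat, Real.rpow_neg_one,
          Real.div_rpow zero_le_one hat.le, Real.one_rpow]
        field_simp

/-- For every `y ≥ 2` the indicator function of the integers `k ≤ y` is a combination of the functions
`k^(it)` with total weight `O(log y)`.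

Proof. Let `Φ : ℝ → ℝ` be the trapezoid with `Φ = 1` on `[0, log y]`, `Φ = 0` outside
`[-w, log y + w]`, `w = log (y+1) - log y ≥ 1/(2y)`, linear in between. Then `Φ(log k) = 1` for
`1 ≤ k ≤ y` and `= 0` for the integers `k ≥ y + 1`. `Φ = (1/w) 1_[-w/2, log y + w/2] * 1_[-w/2, w/2]`
(convolution), so `|Φ̂(t)| ≤ min (log y + w, 1/(π|t|), 1/(π² t² w))` (Fourier transform, `e^(-2πi t u)`;
one can compute it directly, by two integrations by parts on the linear pieces), which is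
integrable with `∫ |Φ̂| ≤ C (1 + log (1/w) ...) ≤ C' log y`: split at `|t| = 1` and `|t| = 1/w`.
`Φ` is continuous and integrable, `Φ̂` integrable, hence Fourier inversion (Mathlib:
`MeasureTheory.Integrable.fourierInv_fourier_eq` or similar names, `Continuous.fourierInv_fourier_eq`):
`Φ(log k) = ∫ Φ̂(t) e^(2πi t log k) dt`; substitute `t ↦ t/(2π)`. -/
theorem sep : ∃ C : ℝ, 0 < C ∧ ∀ y : ℕ, 2 ≤ y → ∃ g : ℝ → ℂ, Integrable g ∧
    ∫ t, ‖g t‖ ≤ C * Real.log y ∧ ∀ k : ℕ, 1 ≤ k →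
      ∫ t, g t * (k : ℂ) ^ ((t : ℂ) * Complex.I) = if k ≤ y then 1 else 0 := by
  refine ⟨16, by norm_num, fun y hy => ?_⟩
  have hy2 : (2 : ℝ) ≤ y := by exact_mod_cast hy
  obtain ⟨L, hL⟩ : ∃ L, L = Real.log y := ⟨_, rfl⟩
  obtain ⟨w, hw⟩ : ∃ w, w = Real.log (y + 1) - Real.log y := ⟨_, rfl⟩
  have hL0 : 0.6 < L := by
    have := Real.log_two_gt_d9
    have h2 := Real.log_le_log (by norm_num) hy2
    rw [hL]
    linarith
  have hw1 : w = Real.log (1 + 1 / y) := by
    rw [hw, ← Real.log_div (by positivity) (by positivity)]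
    congr 1
    field_simp
  have hwlow : 1 / (2 * (y : ℝ)) ≤ w := by
    rw [hw1]
    have h1 := Real.one_sub_inv_le_log_of_pos (x := 1 + 1 / (y : ℝ)) (by positivity)
    refine le_trans ?_ h1
    have h2 : 1 - (1 + 1 / (y : ℝ))⁻¹ = 1 / (y + 1) := by
      field_simp
      ring
    rw [h2]
    apply one_div_le_one_div_of_le (by positivity)
    linarith
  have hw0 : 0 < w := lt_of_lt_of_le (by positivity) hwlow
  have hwup : w ≤ 1 / 2 := by
    rw [hw1]
    have h1 := Real.log_le_sub_one_of_pos (x := 1 + 1 / (y : ℝ)) (by positivity)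
    have h2 : 1 / (y : ℝ) ≤ 1 / 2 := one_div_le_one_div_of_le (by norm_num) hy2
    linarith
  have hl2 : Real.log (2 * y) ≤ 2 * L := by
    rw [Real.log_mul (by norm_num) (by positivity), hL]
    have h2 := Real.log_le_log (by norm_num) hy2
    linarith
  have hl1 : 1 ≤ Real.log (2 * y) := by
    rw [Real.log_mul (by norm_num) (by positivity), ← hL]
    have := Real.log_two_gt_d9
    linarith
  obtain ⟨ε, hε⟩ : ∃ ε, ε = 1 / Real.log (2 * y) := ⟨_, rfl⟩
  have hε0 : 0 < ε := by rw [hε]; positivity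
  have hε1 : ε ≤ 1 := by
    rw [hε, div_le_one (by linarith)]
    exact hl1
  obtain ⟨f₁, hf₁⟩ : ∃ f₁ : ℝ → ℂ, f₁ = Set.indicator (Set.Icc (-(w / 2)) (L + w / 2))
    (fun _ => (1 : ℂ)) := ⟨_, rfl⟩
  obtain ⟨f₂, hf₂⟩ : ∃ f₂ : ℝ → ℂ, f₂ = Set.indicator (Set.Icc (-(w / 2)) (w / 2))
    (fun _ => ((1 / w : ℝ) : ℂ)) := ⟨_, rfl⟩
  have hi₁ : Integrable f₁ := by rw [hf₁]; exact sep_ind _ _ _
  have hi₂ : Integrable f₂ := by rw [hf₂]; exact sep_ind _ _ _
  obtain ⟨Φ, hΦ⟩ : ∃ Φ : ℝ → ℂ, Φ = convolution f₁ f₂ (ContinuousLinearMap.mul ℂ ℂ) volume :=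
    ⟨_, rfl⟩
  have hΦe : ∀ u, Φ u = ((max (min (L + w / 2) (u + w / 2) - max (-(w / 2)) (u - w / 2)) 0 *
      (1 / w) : ℝ) : ℂ) := by
    intro u
    rw [hΦ, hf₁, hf₂]
    exact sep_conv _ _ _ _
  have hΦc : Continuous Φ := by
    have : Φ = fun u => ((max (min (L + w / 2) (u + w / 2) - max (-(w / 2)) (u - w / 2)) 0 *
      (1 / w) : ℝ) : ℂ) := funext hΦe
    rw [this]
    fun_prop
  have hΦi : Integrable Φ := by
    rw [hΦ]
    exact hi₁.integrable_convolution _ hi₂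
  have hΦF : ∀ t, 𝓕 Φ t = 𝓕 f₁ t * 𝓕 f₂ t := by
    intro t
    rw [hΦ]
    exact Real.fourier_mul_convolution_eq hi₁ hi₂ t
  have hbd : ∀ t, ‖𝓕 Φ t‖ ≤ sepH (L + w) ((1 / w) ^ ε) ε |t| := by
    intro t
    rw [hΦF, hf₁, hf₂]
    have h := sep_bound (-(w / 2)) (L + w / 2) w (by linarith) hw0 ε hε0 hε1 t
    have e1 : L + w / 2 - -(w / 2) = L + w := by ring
    rwa [e1] at h
  obtain ⟨hH1, hH2⟩ := sepH_int (L + w) ((1 / w) ^ ε) ε hε0
  have hH3 := sep_abs hH1
  have hFi : Integrable (𝓕 Φ) :=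
    hH3.mono' (sep_cont hΦi).aestronglyMeasurable (Filter.Eventually.of_forall hbd)
  have hFn : ∫ t, ‖𝓕 Φ t‖ ≤ 16 * L := by
    have h1 : ∫ t, ‖𝓕 Φ t‖ ≤ ∫ t, sepH (L + w) ((1 / w) ^ ε) ε |t| :=
      integral_mono hFi.norm hH3 hbd
    rw [integral_comp_abs, hH2] at h1
    have h2 : (1 / w) ^ ε ≤ 3 := by
      have h3 : 1 / w ≤ 2 * y := by
        rw [div_le_iff₀ hw0]
        rw [div_le_iff₀ (by positivity)] at hwlow
        linarith
      have h4 : (1 / w) ^ ε ≤ (2 * (y : ℝ)) ^ ε :=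
        Real.rpow_le_rpow (by positivity) h3 hε0.le
      have h5 : (2 * (y : ℝ)) ^ ε = Real.exp 1 := by
        rw [Real.rpow_def_of_pos (by positivity), hε]
        congr 1
        field_simp
      have h6 := Real.exp_one_lt_d9
      linarith
    have h3 : (1 / w) ^ ε / ε ≤ 3 * (2 * L) := by
      have h4 : (1 / w) ^ ε / ε = (1 / w) ^ ε * Real.log (2 * y) := by
        rw [hε]
        field_simp
      rw [h4]
      exact mul_le_mul h2 hl2 (by linarith) (by norm_num)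
    linarith
  have hpi : (2 * Real.pi : ℝ) ≠ 0 := Real.two_pi_pos.ne'
  refine ⟨fun t => (((2 * Real.pi)⁻¹ : ℝ) : ℂ) * 𝓕 Φ (t / (2 * Real.pi)), ?_, ?_, ?_⟩
  · exact (hFi.comp_div hpi).const_mul _
  · have h1 : ∀ t : ℝ, ‖(((2 * Real.pi)⁻¹ : ℝ) : ℂ) * 𝓕 Φ (t / (2 * Real.pi))‖ =
        (2 * Real.pi)⁻¹ * ‖𝓕 Φ (t / (2 * Real.pi))‖ := by
      intro t
      rw [norm_mul, Complex.norm_real, Real.norm_of_nonneg (by positivity)]
    rw [integral_congr_ae (Filter.Eventually.of_forall h1), integral_const_mul,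
      Measure.integral_comp_div (fun s => ‖𝓕 Φ s‖), abs_of_pos Real.two_pi_pos, smul_eq_mul,
      ← mul_assoc, inv_mul_cancel₀ hpi, one_mul, ← hL]
    exact hFn
  · intro k hk
    have hk0 : (k : ℂ) ≠ 0 := by exact_mod_cast (by omega : k ≠ 0)
    have hkr : (1 : ℝ) ≤ k := by exact_mod_cast hk
    have h1 : ∀ t : ℝ, (((2 * Real.pi)⁻¹ : ℝ) : ℂ) * 𝓕 Φ (t / (2 * Real.pi)) *
        (k : ℂ) ^ ((t : ℂ) * Complex.I) = (((2 * Real.pi)⁻¹ : ℝ) : ℂ) *
        (fun s : ℝ => Complex.exp ((((2 * Real.pi * (s * Real.log k)) : ℝ) : ℂ) * Complex.I) *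
          𝓕 Φ s) (t / (2 * Real.pi)) := by
      intro t
      have e1 : (k : ℂ) ^ ((t : ℂ) * Complex.I) =
          Complex.exp ((((2 * Real.pi * (t / (2 * Real.pi) * Real.log k)) : ℝ) : ℂ) * Complex.I) := by
        rw [Complex.cpow_def_of_ne_zero hk0, ← Complex.natCast_log]
        congr 1
        have e2 : 2 * Real.pi * (t / (2 * Real.pi) * Real.log k) = t * Real.log k := by
          field_simp
        rw [e2]
        push_cast
        ring
      rw [e1]
      ring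
    rw [integral_congr_ae (Filter.Eventually.of_forall h1), integral_const_mul,
      Measure.integral_comp_div (fun s : ℝ => Complex.exp ((((2 * Real.pi * (s * Real.log k)) : ℝ) :
        ℂ) * Complex.I) * 𝓕 Φ s), abs_of_pos Real.two_pi_pos, Complex.real_smul, ← mul_assoc,
      ← Complex.ofReal_mul, inv_mul_cancel₀ hpi, Complex.ofReal_one, one_mul]
    have h2 := congrFun (hΦc.fourierInv_fourier_eq hΦi hFi) (Real.log k)
    rw [Real.fourierInv_eq'] at h2
    have h3 : ∫ s : ℝ, Complex.exp ((((2 * Real.pi * (s * Real.log k)) : ℝ) : ℂ) * Complex.I) *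
        𝓕 Φ s = Φ (Real.log k) := by
      rw [← h2]
      apply integral_congr_ae
      refine Filter.Eventually.of_forall fun s => ?_
      simp only [smul_eq_mul]
      congr 5
      simp [mul_comm]
    rw [h3, hΦe]
    have hlk : 0 ≤ Real.log k := Real.log_nonneg hkr
    split_ifs with hky
    · have h4 : Real.log k ≤ L := by
        rw [hL]
        exact Real.log_le_log (by linarith) (by exact_mod_cast hky)
      rw [min_eq_right (by linarith), max_eq_right (a := -(w / 2)) (by linarith)]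
      have h5 : Real.log k + w / 2 - (Real.log k - w / 2) = w := by ring
      rw [h5, max_eq_left hw0.le, mul_one_div_cancel hw0.ne', Complex.ofReal_one]
    · have h4 : L + w ≤ Real.log k := by
        rw [hL, hw]
        have h5 : (y : ℝ) + 1 ≤ k := by exact_mod_cast (by omega : y + 1 ≤ k)
        have := Real.log_le_log (by positivity) h5
        linarith
      rw [min_eq_left (by linarith), max_eq_right (a := -(w / 2)) (by linarith),
        max_eq_right (by linarith), zero_mul, Complex.ofReal_zero]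

end Pool.Agent.Lib.H59C
end

-- from Lib.H68T.T341
section

/-!
# Chunk T341: positivity
-/

open Finset ArithmeticFunction

namespace Pool.Agent.Lib.H68T

theorem T341_summable (h : ℕ → ℂ) (hh : ∀ n, ‖h n‖ ≤ 1) (s : ℂ) (hs : 1 < s.re) :
    LSeriesSummable (fun n => (vonMangoldt n : ℂ) * h n) s := by
  have h1 := (LSeriesSummable_vonMangoldt hs).norm
  refine Summable.of_norm_bounded h1 (fun n => ?_)
  rcases eq_or_ne n 0 with rfl | hn
  · simp
  · rw [LSeries.term_of_ne_zero hn, LSeries.term_of_ne_zero hn, norm_div, norm_div, norm_mul]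
    have : ‖((vonMangoldt n : ℝ) : ℂ)‖ * ‖h n‖ ≤ ‖((vonMangoldt n : ℝ) : ℂ)‖ * 1 :=
      mul_le_mul_of_nonneg_left (hh n) (norm_nonneg _)
    rw [mul_one] at this
    exact div_le_div_of_nonneg_right this (norm_nonneg _)

theorem T341_hasSum (h : ℕ → ℂ) (hh : ∀ n, ‖h n‖ ≤ 1) (σ u : ℝ) (hσ : 1 < σ) :
    HasSum (fun n : ℕ => ((vonMangoldt n : ℝ) * (n : ℝ) ^ (-σ)) *
      (h n * (n : ℂ) ^ (-(u * Complex.I))).re)
      (LSeries (fun n => (vonMangoldt n : ℂ) * h n) (σ + u * Complex.I)).re := by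
  have hs : 1 < ((σ : ℂ) + u * Complex.I).re := by simpa using hσ
  have h1 : HasSum (LSeries.term (fun n => (vonMangoldt n : ℂ) * h n) (σ + u * Complex.I))
      (LSeries (fun n => (vonMangoldt n : ℂ) * h n) (σ + u * Complex.I)) :=
    (T341_summable h hh _ hs).hasSum
  have h2 := Complex.hasSum_re h1
  convert h2 using 1
  funext n
  rcases eq_or_ne n 0 with rfl | hn
  · simp
  · rw [LSeries.term_of_ne_zero hn]
    have hn0 : (n : ℂ) ≠ 0 := by exact_mod_cast hn
    have e1 : (vonMangoldt n : ℂ) * h n / (n : ℂ) ^ ((σ : ℂ) + u * Complex.I) =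
        (((vonMangoldt n : ℝ) * (n : ℝ) ^ (-σ) : ℝ) : ℂ) * (h n * (n : ℂ) ^ (-(u * Complex.I))) := by
      rw [Complex.cpow_add _ _ hn0, Complex.cpow_neg]
      push_cast
      rw [Complex.ofReal_cpow (Nat.cast_nonneg n)]
      push_cast
      rw [Complex.cpow_neg]
      have a1 : (n : ℂ) ^ (σ : ℂ) ≠ 0 := by
        rw [Complex.cpow_ne_zero_iff]; left; exact hn0
      have a2 : (n : ℂ) ^ ((u : ℂ) * Complex.I) ≠ 0 := by
        rw [Complex.cpow_ne_zero_iff]; left; exact hn0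
      field_simp
    rw [e1, Complex.re_ofReal_mul]

theorem T341_weight_nonneg (σ : ℝ) (n : ℕ) : 0 ≤ (vonMangoldt n : ℝ) * (n : ℝ) ^ (-σ) :=
  mul_nonneg vonMangoldt_nonneg (Real.rpow_nonneg (Nat.cast_nonneg n) _)

theorem T341_alg (z : ℂ) (hz : ‖z‖ ≤ 1) : 0 ≤ 3 + 4 * z.re + (z ^ 2).re := by
  have h1 : z.re ^ 2 + z.im ^ 2 ≤ 1 := by
    have := Complex.sq_norm z
    rw [Complex.normSq_apply] at this
    have h3 : ‖z‖ ^ 2 ≤ 1 := by
      have := norm_nonneg z
      nlinarith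
    nlinarith
  have h2 : (z ^ 2).re = z.re ^ 2 - z.im ^ 2 := by
    rw [pow_two, Complex.mul_re]; ring
  rw [h2]
  nlinarith [sq_nonneg (z.re + 1)]

theorem T341_norm_cpow (n : ℕ) (u : ℝ) : ‖(n : ℂ) ^ (-((u : ℂ) * Complex.I))‖ ≤ 1 := by
  rcases eq_or_ne n 0 with rfl | hn
  · rcases eq_or_ne u 0 with rfl | hu
    · simp
    · rw [Nat.cast_zero, Complex.zero_cpow]
      · simp
      · intro h
        rw [neg_eq_zero, mul_eq_zero] at h
        rcases h with h | h
        · exact hu (by exact_mod_cast h)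
        · exact Complex.I_ne_zero h
  · have hpos : 0 < n := Nat.pos_of_ne_zero hn
    rw [Complex.norm_natCast_cpow_of_pos hpos]
    simp

theorem T341_main (h₁ h₂ : ℕ → ℂ) (hh₁ : ∀ n, ‖h₁ n‖ ≤ 1) (hh₂ : ∀ n, h₂ n = h₁ n ^ 2)
    (σ t : ℝ) (hσ : 1 < σ) :
    0 ≤ 3 * (LSeries (fun n => (vonMangoldt n : ℂ)) σ).re +
      4 * (LSeries (fun n => (vonMangoldt n : ℂ) * h₁ n) (σ + t * Complex.I)).re +
      (LSeries (fun n => (vonMangoldt n : ℂ) * h₂ n) (σ + 2 * t * Complex.I)).re := by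
  have A0 := T341_hasSum (fun _ => 1) (fun n => by simp) σ 0 hσ
  have A1 := T341_hasSum h₁ hh₁ σ t hσ
  have A2 := T341_hasSum h₂ (fun n => by
    rw [hh₂, norm_pow]
    exact pow_le_one₀ (norm_nonneg _) (hh₁ n)) σ (2 * t) hσ
  have e0 : (fun n : ℕ => (vonMangoldt n : ℂ) * (fun _ : ℕ => (1 : ℂ)) n) =
      (fun n => (vonMangoldt n : ℂ)) := by
    funext n; simp
  simp only [Complex.ofReal_zero, zero_mul, add_zero, mul_one, one_mul] at A0
  push_cast at A2
  have A := ((A0.mul_left 3).add (A1.mul_left 4)).add A2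
  refine A.nonneg (fun n => ?_)
  rcases eq_or_ne n 0 with rfl | hn
  · simp
  have hn0 : (n : ℂ) ≠ 0 := by exact_mod_cast hn
  set z : ℂ := h₁ n * (n : ℂ) ^ (-((t : ℂ) * Complex.I)) with hz
  have hz1 : ‖z‖ ≤ 1 := by
    rw [hz, norm_mul]
    exact mul_le_one₀ (hh₁ n) (norm_nonneg _) (T341_norm_cpow n t)
  have hz2 : h₂ n * (n : ℂ) ^ (-(2 * (t : ℂ) * Complex.I)) = z ^ 2 := by
    rw [hz, mul_pow, hh₂, ← Complex.cpow_nat_mul]
    congr 2
    push_cast
    ring
  have h3 := T341_alg z hz1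
  have h4 := mul_nonneg (T341_weight_nonneg σ n) h3
  have e5 : ((n : ℂ) ^ (-(0 : ℂ))).re = 1 := by simp
  simp only [hz2, e5]
  nlinarith [h4]

/-- `3 + 4 cos θ + cos 2θ ≥ 0` summed against `Λ(n) n^(-σ)`; for `(n, N) > 1` the terms are
`3 Λ(n) n^(-σ) ≥ 0`. -/
theorem three_four_one (N : ℕ) [NeZero N] (χ : DirichletCharacter ℂ N) (σ t : ℝ) (hσ : 1 < σ) :
    0 ≤ 3 * (LSeries (fun n => (vonMangoldt n : ℂ)) σ).re +
      4 * (LSeries (fun n => (vonMangoldt n : ℂ) * χ (n : ZMod N)) (σ + t * Complex.I)).re +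
      (LSeries (fun n => (vonMangoldt n : ℂ) * (χ ^ 2) (n : ZMod N))
        (σ + 2 * t * Complex.I)).re := by
  exact T341_main (fun n => χ (n : ZMod N)) (fun n => (χ ^ 2) (n : ZMod N))
    (fun n => DirichletCharacter.norm_le_one χ _)
    (fun n => MulChar.pow_apply' χ two_ne_zero _) σ t hσ

/-- The same for `ζ`. -/
theorem three_four_one_zeta (σ t : ℝ) (hσ : 1 < σ) :
    0 ≤ 3 * (LSeries (fun n => (vonMangoldt n : ℂ)) σ).re +
      4 * (LSeries (fun n => (vonMangoldt n : ℂ)) (σ + t * Complex.I)).re +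
      (LSeries (fun n => (vonMangoldt n : ℂ)) (σ + 2 * t * Complex.I)).re := by
  have h := T341_main (fun _ => 1) (fun _ => 1) (fun n => by simp) (fun n => by simp) σ t hσ
  simpa using h

theorem T341_real_value (N : ℕ) (ψ : DirichletCharacter ℂ N) (hψ : ψ ^ 2 = 1) (n : ℕ) :
    ∃ x : ℝ, -1 ≤ x ∧ x ≤ 1 ∧ ψ (n : ZMod N) = (x : ℂ) := by
  by_cases hu : IsUnit (n : ZMod N)
  · have h1 : (ψ ^ 2) (n : ZMod N) = 1 := by
      rw [hψ]; exact MulChar.one_apply hu
    rw [MulChar.pow_apply' ψ two_ne_zero] at h1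
    have h2 : ψ (n : ZMod N) = 1 ∨ ψ (n : ZMod N) = -1 := sq_eq_one_iff.mp h1
    rcases h2 with h | h
    · exact ⟨1, by norm_num, le_refl _, by rw [h]; simp⟩
    · exact ⟨-1, le_refl _, by norm_num, by rw [h]; simp⟩
  · exact ⟨0, by norm_num, by norm_num, by rw [MulChar.map_nonunit ψ hu]; simp⟩

/-- `1 + ψ(n) ≥ 0` for real `ψ`. -/
theorem one_add_real (N : ℕ) [NeZero N] (ψ : DirichletCharacter ℂ N) (hψ : ψ ^ 2 = 1) (σ : ℝ)
    (hσ : 1 < σ) :
    0 ≤ (LSeries (fun n => (vonMangoldt n : ℂ)) σ).re +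
      (LSeries (fun n => (vonMangoldt n : ℂ) * ψ (n : ZMod N)) σ).re := by
  have A0 := T341_hasSum (fun _ => 1) (fun n => by simp) σ 0 hσ
  have A1 := T341_hasSum (fun n => ψ (n : ZMod N)) (fun n => DirichletCharacter.norm_le_one ψ _)
    σ 0 hσ
  simp only [Complex.ofReal_zero, zero_mul, add_zero, mul_one, one_mul] at A0 A1
  refine (A0.add A1).nonneg (fun n => ?_)
  obtain ⟨x, hx, -, hx2⟩ := T341_real_value N ψ hψ n
  have e5 : (n : ℂ) ^ (-(0 : ℂ)) = 1 := by simp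
  have h4 := mul_nonneg (T341_weight_nonneg σ n) (by linarith : 0 ≤ 1 + x)
  simp only [e5, hx2, mul_one, Complex.ofReal_re, Complex.one_re]
  nlinarith [h4]

/-- `(1 + ψ₁(n)) (1 + ψ₂(n)) ≥ 0` for real characters; the product character has level `r₁ r₂`. -/
theorem product_real (r₁ r₂ : ℕ) [NeZero r₁] [NeZero r₂] (ψ₁ : DirichletCharacter ℂ r₁)
    (ψ₂ : DirichletCharacter ℂ r₂) (h₁ : ψ₁ ^ 2 = 1) (h₂ : ψ₂ ^ 2 = 1) (σ : ℝ) (hσ : 1 < σ) :
    0 ≤ (LSeries (fun n => (vonMangoldt n : ℂ)) σ).re +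
      (LSeries (fun n => (vonMangoldt n : ℂ) * ψ₁ (n : ZMod r₁)) σ).re +
      (LSeries (fun n => (vonMangoldt n : ℂ) * ψ₂ (n : ZMod r₂)) σ).re +
      (LSeries (fun n => (vonMangoldt n : ℂ) *
        (DirichletCharacter.changeLevel (Dvd.intro r₂ rfl) ψ₁ *
          DirichletCharacter.changeLevel (Dvd.intro_left r₁ rfl) ψ₂ :
            DirichletCharacter ℂ (r₁ * r₂)) (n : ZMod (r₁ * r₂))) σ).re := by
  set ψ₃ : DirichletCharacter ℂ (r₁ * r₂) :=
    DirichletCharacter.changeLevel (Dvd.intro r₂ rfl) ψ₁ *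
          DirichletCharacter.changeLevel (Dvd.intro_left r₁ rfl) ψ₂ with hψ₃
  have key : ∀ n : ℕ, ψ₃ (n : ZMod (r₁ * r₂)) = ψ₁ (n : ZMod r₁) * ψ₂ (n : ZMod r₂) := by
    intro n
    rw [hψ₃, MulChar.mul_apply]
    by_cases hu : IsUnit (n : ZMod (r₁ * r₂))
    · have e1 := DirichletCharacter.changeLevel_eq_cast_of_dvd ψ₁ (Dvd.intro r₂ rfl) hu.unit
      have e2 := DirichletCharacter.changeLevel_eq_cast_of_dvd ψ₂ (Dvd.intro_left r₁ rfl) hu.unit
      rw [IsUnit.unit_spec] at e1 e2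
      rw [e1, e2]
      simp [ZMod.cast_natCast]
    · rw [MulChar.map_nonunit _ hu, zero_mul]
      rw [ZMod.isUnit_iff_coprime, Nat.coprime_mul_iff_right] at hu
      rcases not_and_or.mp hu with h | h
      · rw [MulChar.map_nonunit ψ₁ (fun h' => h ((ZMod.isUnit_iff_coprime _ _).mp h')), zero_mul]
      · rw [MulChar.map_nonunit ψ₂ (fun h' => h ((ZMod.isUnit_iff_coprime _ _).mp h')), mul_zero]
  have A0 := T341_hasSum (fun _ => 1) (fun n => by simp) σ 0 hσ
  have A1 := T341_hasSum (fun n => ψ₁ (n : ZMod r₁))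
    (fun n => DirichletCharacter.norm_le_one ψ₁ _) σ 0 hσ
  have A2 := T341_hasSum (fun n => ψ₂ (n : ZMod r₂))
    (fun n => DirichletCharacter.norm_le_one ψ₂ _) σ 0 hσ
  have A3 := T341_hasSum (fun n => ψ₃ (n : ZMod (r₁ * r₂)))
    (fun n => DirichletCharacter.norm_le_one ψ₃ _) σ 0 hσ
  simp only [Complex.ofReal_zero, zero_mul, add_zero, mul_one, one_mul] at A0 A1 A2 A3
  refine (((A0.add A1).add A2).add A3).nonneg (fun n => ?_)
  obtain ⟨x, hx, -, hx2⟩ := T341_real_value r₁ ψ₁ h₁ n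
  obtain ⟨y, hy, -, hy2⟩ := T341_real_value r₂ ψ₂ h₂ n
  have e5 : (n : ℂ) ^ (-(0 : ℂ)) = 1 := by simp
  have e6 : ψ₃ (n : ZMod (r₁ * r₂)) = ((x * y : ℝ) : ℂ) := by
    rw [key, hx2, hy2]; push_cast; ring
  have h4 := mul_nonneg (T341_weight_nonneg σ n)
    (mul_nonneg (by linarith : 0 ≤ 1 + x) (by linarith : 0 ≤ 1 + y))
  simp only [e5, e6, hx2, hy2, mul_one, Complex.ofReal_re, Complex.one_re]
  nlinarith [h4]

end Pool.Agent.Lib.H68T
end
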