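import Mathlib
import Pool.Agent.Lib.H1M.RV.M001
import Pool.Agent.Lib.H1M.RV.M004
import Pool.Agent.Lib.H1M.RV.M005
import Pool.Agent.Lib.H1M.RV.M008
import Pool.Agent.Lib.H1M.RV.M011
import Pool.Agent.Lib.H1M.RV.M012

/-! Merged copies (to shorten the build) of Lib.H59C.BV1A, Lib.H59C.BV1B, Lib.Helper57.Mertens, Lib.Helper57.PairCount, Lib.H59C.BV1D, Lib.H68T.LAB2, Lib.H68T.LAB3, Lib.H68T.ZF1. -/

-- from Lib.H59C.BV1A
section

/-!
# BV1A: from progressions to primitive characters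
-/

open Finset

namespace Pool.Agent.Lib.H59C

open Pool.Agent.Lib.H68T (PC p0 e)

open Classical in
theorem BV1A_val {d : ℕ} [NeZero d] (χ : DirichletCharacter ℂ d) (m : ℕ) :
    χ (m : ZMod d) = if m.Coprime (d / χ.conductor) then
      χ.primitiveCharacter (m : ZMod χ.conductor) else 0 := by
  have hr : χ.conductor ∣ d := χ.conductor_dvd_level
  have hd : χ.conductor * (d / χ.conductor) = d := Nat.mul_div_cancel' hr
  by_cases hm : m.Coprime d
  · have h1 : m.Coprime (d / χ.conductor) := Nat.Coprime.coprime_dvd_right (Nat.div_dvd_of_dvd hr) hm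
    rw [if_pos h1]
    have h2 : IsCoprime ((m : ℕ) : ℤ) (d : ℤ) := Nat.isCoprime_iff_coprime.mpr hm
    have h3 := DirichletCharacter.primitiveCharacter_apply_of_isCoprime χ h2
    rw [Int.cast_natCast, Int.cast_natCast] at h3
    exact h3.symm
  · have h0 : χ (m : ZMod d) = 0 := by
      apply MulChar.map_nonunit
      rw [ZMod.isUnit_iff_coprime]
      exact hm
    rw [h0]
    split_ifs with h1
    · have h2 : ¬ m.Coprime χ.conductor := by
        intro h3
        apply hm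
        rw [← hd]
        exact Nat.Coprime.mul_right h3 h1
      symm
      apply MulChar.map_nonunit
      rw [ZMod.isUnit_iff_coprime]
      exact h2
    · rfl

/-- the primitive character of a character -/
noncomputable def BV1A_P {d : ℕ} (χ : DirichletCharacter ℂ d) : PCh :=
  ⟨χ.conductor, χ.primitiveCharacter⟩

/-- a character modulo `d` from a pair -/
noncomputable def BV1A_L (d : ℕ) (p : PCh) : DirichletCharacter ℂ d := by
  classical
  exact if h : p.1 ∣ d then DirichletCharacter.changeLevel h p.2 else 1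

theorem BV1A_LP {d : ℕ} (χ : DirichletCharacter ℂ d) : BV1A_L d (BV1A_P χ) = χ := by
  unfold BV1A_L BV1A_P
  rw [dif_pos χ.conductor_dvd_level]
  exact χ.changeLevel_primitiveCharacter

theorem BV1A_inj {d : ℕ} : Function.Injective (BV1A_P (d := d)) := by
  intro χ ψ h
  rw [← BV1A_LP χ, ← BV1A_LP ψ, h]

theorem BV1A_p0 {d : ℕ} : BV1A_L d p0 = 1 := by
  unfold BV1A_L p0
  rw [dif_pos (one_dvd d)]
  exact map_one _

open Classical in
/-- For a function `f` on `[1, y]` the deviation in a reduced class mod `d` is at most the mean of the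
sums against the primitive characters `≠ 1` inducing the characters mod `d`.

Proof. Orthogonality: for `(a, d) = 1`, `∑_{m ≡ a} f m = φ(d)⁻¹ ∑_{χ mod d} χ̄(a) ∑_m f m χ(m)`; `χ = 1` gives
`φ(d)⁻¹ ∑_{(m,d)=1} f m`. For `χ ≠ 1` let `χ*` mod `r ∣ d` be the primitive character inducing `χ`
(`χ.primitiveCharacter`, `χ.conductor`); `χ(m) = χ*(m) 1[(m, d) = 1] = χ*(m) 1[(m, d/r) = 1]` (`χ*(m) = 0` if
`(m, r) > 1`), and `χ ↦ ⟨conductor, χ*⟩` is an injection from the characters mod `d` to the `p ∈ PC d` with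
`p.1 ∣ d`; `χ ≠ 1` has `χ* ≠ 1`, so `p ≠ p0`. -/
theorem prog_gen (d a y : ℕ) (hd : 1 ≤ d) (ha : a.Coprime d) (f : ℕ → ℂ) :
    ‖∑ m ∈ (Icc 1 y).filter (fun m => m ≡ a [MOD d]), f m -
      1 / (Nat.totient d : ℂ) * ∑ m ∈ (Icc 1 y).filter (fun m => m.Coprime d), f m‖ ≤
      1 / (Nat.totient d : ℝ) * ∑ p ∈ (PC d).filter (fun p => p ≠ p0 ∧ p.1 ∣ d),
        ‖∑ m ∈ (Icc 1 y).filter (fun m => m.Coprime (d / p.1)), f m * p.2 (m : ZMod p.1)‖ := by
  have hne : NeZero d := ⟨by omega⟩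
  have hφ0 : (Nat.totient d : ℂ) ≠ 0 := by
    have := Nat.totient_pos.mpr hd
    exact_mod_cast this.ne'
  have hau : IsUnit ((a : ℕ) : ZMod d) := (ZMod.isUnit_iff_coprime a d).mpr ha
  -- orthogonality
  have h1 : ∑ m ∈ (Icc 1 y).filter (fun m => m ≡ a [MOD d]), f m =
      1 / (Nat.totient d : ℂ) * ∑ χ : DirichletCharacter ℂ d,
        χ ((a : ZMod d)⁻¹) * ∑ m ∈ Icc 1 y, f m * χ (m : ZMod d) := by
    have h2 : ∑ χ : DirichletCharacter ℂ d,
        χ ((a : ZMod d)⁻¹) * ∑ m ∈ Icc 1 y, f m * χ (m : ZMod d) =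
        ∑ m ∈ Icc 1 y, f m * ∑ χ : DirichletCharacter ℂ d,
          χ ((a : ZMod d)⁻¹) * χ (m : ZMod d) := by
      simp_rw [mul_sum]
      rw [sum_comm]
      apply sum_congr rfl
      intro m _
      apply sum_congr rfl
      intro χ _
      ring
    rw [h2, mul_sum, sum_filter]
    apply sum_congr rfl
    intro m _
    rw [DirichletCharacter.sum_char_inv_mul_char_eq ℂ hau (m : ZMod d)]
    by_cases hm : m ≡ a [MOD d]
    · rw [if_pos hm, if_pos ((ZMod.natCast_eq_natCast_iff m a d).mpr hm).symm]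
      field_simp
    · rw [if_neg hm, if_neg (fun h => hm ((ZMod.natCast_eq_natCast_iff m a d).mp h.symm))]
      simp
  have h3 : ∑ χ : DirichletCharacter ℂ d,
        χ ((a : ZMod d)⁻¹) * ∑ m ∈ Icc 1 y, f m * χ (m : ZMod d) =
      ∑ m ∈ (Icc 1 y).filter (fun m => m.Coprime d), f m +
      ∑ χ ∈ (univ : Finset (DirichletCharacter ℂ d)).erase 1,
        χ ((a : ZMod d)⁻¹) * ∑ m ∈ Icc 1 y, f m * χ (m : ZMod d) := by
    rw [← add_sum_erase _ _ (mem_univ (1 : DirichletCharacter ℂ d))]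
    congr 1
    have h4 : (1 : DirichletCharacter ℂ d) ((a : ZMod d)⁻¹) = 1 := by
      apply MulChar.one_apply
      obtain ⟨u, hu⟩ := hau
      rw [← hu, ZMod.inv_coe_unit]
      exact (u⁻¹).isUnit
    rw [h4, one_mul, sum_filter]
    apply sum_congr rfl
    intro m _
    by_cases hm : m.Coprime d
    · rw [if_pos hm, MulChar.one_apply ((ZMod.isUnit_iff_coprime m d).mpr hm), mul_one]
    · rw [if_neg hm, MulChar.map_nonunit _ (fun h => hm ((ZMod.isUnit_iff_coprime m d).mp h)),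
        mul_zero]
  have h5 : ∑ m ∈ (Icc 1 y).filter (fun m => m ≡ a [MOD d]), f m -
      1 / (Nat.totient d : ℂ) * ∑ m ∈ (Icc 1 y).filter (fun m => m.Coprime d), f m =
      1 / (Nat.totient d : ℂ) * ∑ χ ∈ (univ : Finset (DirichletCharacter ℂ d)).erase 1,
        χ ((a : ZMod d)⁻¹) * ∑ m ∈ Icc 1 y, f m * χ (m : ZMod d) := by
    rw [h1, h3]
    ring
  rw [h5, norm_mul]
  have h6 : ‖1 / (Nat.totient d : ℂ)‖ = 1 / (Nat.totient d : ℝ) := by
    rw [norm_div, norm_one, Complex.norm_natCast]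
  rw [h6]
  apply mul_le_mul_of_nonneg_left _ (by positivity)
  -- the norms
  have h7 : ∀ χ : DirichletCharacter ℂ d, ∑ m ∈ Icc 1 y, f m * χ (m : ZMod d) =
      ∑ m ∈ (Icc 1 y).filter (fun m => m.Coprime (d / (BV1A_P χ).1)),
        f m * (BV1A_P χ).2 (m : ZMod (BV1A_P χ).1) := by
    intro χ
    rw [sum_filter]
    apply sum_congr rfl
    intro m _
    rw [BV1A_val χ m]
    by_cases hm : m.Coprime (d / χ.conductor)
    · rw [if_pos hm]
      have hm' : m.Coprime (d / (BV1A_P χ).1) := hm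
      rw [if_pos hm']
      rfl
    · rw [if_neg hm]
      have hm' : ¬ m.Coprime (d / (BV1A_P χ).1) := hm
      rw [if_neg hm', mul_zero]
  obtain ⟨G, hG⟩ : ∃ G : PCh → ℝ, G = fun p =>
    ‖∑ m ∈ (Icc 1 y).filter (fun m => m.Coprime (d / p.1)), f m * p.2 (m : ZMod p.1)‖ := ⟨_, rfl⟩
  have h8 : ‖∑ χ ∈ (univ : Finset (DirichletCharacter ℂ d)).erase 1,
        χ ((a : ZMod d)⁻¹) * ∑ m ∈ Icc 1 y, f m * χ (m : ZMod d)‖ ≤
      ∑ χ ∈ (univ : Finset (DirichletCharacter ℂ d)).erase 1, G (BV1A_P χ) := by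
    refine (norm_sum_le _ _).trans ?_
    apply sum_le_sum
    intro χ _
    rw [norm_mul, h7 χ, hG]
    calc ‖χ ((a : ZMod d)⁻¹)‖ * _ ≤ 1 * _ :=
          mul_le_mul_of_nonneg_right (DirichletCharacter.norm_le_one _ _) (norm_nonneg _)
      _ = _ := one_mul _
  refine h8.trans ?_
  have h9 : ∑ χ ∈ (univ : Finset (DirichletCharacter ℂ d)).erase 1, G (BV1A_P χ) =
      ∑ p ∈ ((univ : Finset (DirichletCharacter ℂ d)).erase 1).image BV1A_P, G p := by
    rw [sum_image]
    intro χ _ ψ _ h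
    exact BV1A_inj h
  rw [h9]
  have h10 : ∑ p ∈ (PC d).filter (fun p => p ≠ p0 ∧ p.1 ∣ d),
        ‖∑ m ∈ (Icc 1 y).filter (fun m => m.Coprime (d / p.1)), f m * p.2 (m : ZMod p.1)‖ =
      ∑ p ∈ (PC d).filter (fun p => p ≠ p0 ∧ p.1 ∣ d), G p := by
    rw [hG]
  rw [h10]
  apply sum_le_sum_of_subset_of_nonneg
  · intro p hp
    rw [mem_image] at hp
    obtain ⟨χ, hχ, rfl⟩ := hp
    have hχ1 := ne_of_mem_erase hχ
    rw [mem_filter, Pool.Agent.Lib.H68T.mem_PC]
    have hc0 : χ.conductor ≠ 0 := χ.conductor_ne_zero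
    refine ⟨⟨?_, ?_, ?_⟩, ?_, ?_⟩
    · exact Nat.one_le_iff_ne_zero.mpr hc0
    · exact Nat.le_of_dvd hd χ.conductor_dvd_level
    · exact χ.primitiveCharacter_isPrimitive
    · intro h
      apply hχ1
      rw [← BV1A_LP χ, h, BV1A_p0]
    · exact χ.conductor_dvd_level
  · intro p _ _
    rw [hG]
    exact norm_nonneg _

end Pool.Agent.Lib.H59C
end

-- from Lib.H59C.BV1B
section

/-!
# BV1B: the case of the primes
-/

open Finset

namespace Pool.Agent.Lib.H59C

open Pool.Agent.Lib.H68T (PC p0 e)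

open Classical in
/-- The number of primitive characters of conductor dividing `d` is at most `φ(d)`. -/
theorem BV1B_card (d : ℕ) (hd : 1 ≤ d) :
    ((PC d).filter (fun p => p ≠ p0 ∧ p.1 ∣ d)).card ≤ Nat.totient d := by
  have hne : NeZero d := ⟨by omega⟩
  have h1 : ((PC d).filter (fun p => p ≠ p0 ∧ p.1 ∣ d)).card ≤
      (univ : Finset (DirichletCharacter ℂ d)).card := by
    apply Finset.card_le_card_of_injOn (fun p => BV1A_L d p)
    · intro p _
      exact mem_coe.mpr (mem_univ _)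
    · intro p hp q hq h
      rw [mem_coe, mem_filter, Pool.Agent.Lib.H68T.mem_PC] at hp hq
      obtain ⟨⟨_, _, hp1⟩, _, hpd⟩ := hp
      obtain ⟨⟨_, _, hq1⟩, _, hqd⟩ := hq
      have h' : BV1A_L d p = BV1A_L d q := h
      unfold BV1A_L at h'
      rw [dif_pos hpd, dif_pos hqd] at h'
      have h2 : p.2.conductor = q.2.conductor := by
        have h3 := congrArg DirichletCharacter.conductor h'
        rw [DirichletCharacter.conductor_changeLevel, DirichletCharacter.conductor_changeLevel] at h3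
        exact h3
      rw [DirichletCharacter.isPrimitive_def] at hp1 hq1
      rw [hp1, hq1] at h2
      obtain ⟨r, χ⟩ := p
      obtain ⟨s, ψ⟩ := q
      simp only at h2
      subst h2
      have h4 := DirichletCharacter.changeLevel_injective hpd h'
      simp only at h4
      rw [h4]
  refine h1.trans ?_
  rw [card_univ, ← Nat.card_eq_fintype_card, DirichletCharacter.card_eq_totient_of_hasEnoughRootsOfUnity]

theorem BV1B_omega (d : ℕ) (hd : 1 ≤ d) : (d.primeFactors.card : ℝ) ≤ 2 * Real.log d := by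
  have hl2 : (0.69 : ℝ) < Real.log 2 := by
    have := Real.log_two_gt_d9
    linarith
  have h1 : 2 ^ d.primeFactors.card ≤ ∏ q ∈ d.primeFactors, q := by
    apply Finset.pow_card_le_prod
    intro q hq
    exact (Nat.prime_of_mem_primeFactors hq).two_le
  have h2 : ∏ q ∈ d.primeFactors, q ≤ d := Nat.le_of_dvd hd (Nat.prod_primeFactors_dvd d)
  have h3 : ((2 : ℝ) ^ d.primeFactors.card) ≤ d := by exact_mod_cast h1.trans h2
  have h4 := Real.log_le_log (by positivity) h3
  rw [Real.log_pow] at h4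
  have h5 : (0 : ℝ) ≤ (d.primeFactors.card : ℝ) := by positivity
  nlinarith

/-- The prime powers not coprime to `d`. -/
theorem BV1B_N (d y : ℕ) (hd : 1 ≤ d) (hy : 1 ≤ y) :
    ∑ m ∈ (Icc 1 y).filter (fun m => ¬ m.Coprime d), ArithmeticFunction.vonMangoldt m ≤
      2 * Real.log d * Real.log y := by
  have hly : 0 ≤ Real.log y := Real.log_nonneg (by exact_mod_cast hy)
  have h1 : ∀ m ∈ (Icc 1 y).filter (fun m => ¬ m.Coprime d),
      ArithmeticFunction.vonMangoldt m ≤ ∑ q ∈ d.primeFactors, ∑ k ∈ Icc 1 (Nat.log q y),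
        if m = q ^ k then Real.log q else 0 := by
    intro m hm
    rw [mem_filter, mem_Icc] at hm
    obtain ⟨⟨hm1, hm2⟩, hm3⟩ := hm
    have hnn : ∀ q ∈ d.primeFactors, 0 ≤ ∑ k ∈ Icc 1 (Nat.log q y),
        if m = q ^ k then Real.log q else 0 := by
      intro q hq
      apply sum_nonneg
      intro k _
      split_ifs
      · exact Real.log_nonneg (by exact_mod_cast (Nat.prime_of_mem_primeFactors hq).one_le)
      · exact le_rfl
    by_cases h0 : IsPrimePow m
    · obtain ⟨q, k, hq, hk, rfl⟩ := (isPrimePow_nat_iff m).mp h0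
      have hqd : q ∣ d := by
        by_contra hqd
        exact hm3 (Nat.Coprime.pow_left k ((Nat.Prime.coprime_iff_not_dvd hq).mpr hqd))
      have hqm : q ∈ d.primeFactors := Nat.mem_primeFactors.mpr ⟨hq, hqd, by omega⟩
      refine le_trans ?_ (single_le_sum hnn hqm)
      have hkm : k ∈ Icc 1 (Nat.log q y) := by
        rw [mem_Icc]
        exact ⟨hk, Nat.le_log_of_pow_le hq.one_lt hm2⟩
      refine le_trans ?_ (single_le_sum (f := fun k' => if q ^ k = q ^ k' then Real.log q else 0)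
        (fun k' _ => ?_) hkm)
      · rw [if_pos rfl, ArithmeticFunction.vonMangoldt_apply_pow (by omega),
          ArithmeticFunction.vonMangoldt_apply_prime hq]
      · show 0 ≤ if q ^ k = q ^ k' then Real.log q else 0
        split_ifs
        · exact Real.log_nonneg (by exact_mod_cast hq.one_le)
        · exact le_rfl
    · rw [ArithmeticFunction.vonMangoldt_eq_zero_iff.mpr h0]
      exact sum_nonneg hnn
  have h2 : ∑ m ∈ (Icc 1 y).filter (fun m => ¬ m.Coprime d), ArithmeticFunction.vonMangoldt m ≤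
      ∑ q ∈ d.primeFactors, Real.log y := by
    refine (sum_le_sum h1).trans ?_
    rw [sum_comm]
    apply sum_le_sum
    intro q hq
    have hqp := Nat.prime_of_mem_primeFactors hq
    have hlq : 0 ≤ Real.log q := Real.log_nonneg (by exact_mod_cast hqp.one_le)
    rw [sum_comm]
    have h3 : ∀ k ∈ Icc 1 (Nat.log q y),
        ∑ m ∈ (Icc 1 y).filter (fun m => ¬ m.Coprime d), (if m = q ^ k then Real.log q else 0) ≤
          Real.log q := by
      intro k _
      rw [Finset.sum_ite_eq']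
      split_ifs
      · exact le_rfl
      · exact hlq
    refine (sum_le_sum h3).trans ?_
    rw [sum_const, Nat.card_Icc, nsmul_eq_mul, Nat.add_sub_cancel]
    have h4 : q ^ (Nat.log q y) ≤ y := Nat.pow_log_le_self q (by omega)
    have h5 : ((q : ℝ) ^ (Nat.log q y)) ≤ y := by exact_mod_cast h4
    have h6 := Real.log_le_log (by
      have : (0 : ℝ) < q := by exact_mod_cast hqp.pos
      positivity) h5
    rw [Real.log_pow] at h6
    exact h6
  refine h2.trans ?_
  rw [sum_const, nsmul_eq_mul]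
  exact mul_le_mul_of_nonneg_right (BV1B_omega d hd) hly

theorem BV1B_Ioc (y : ℕ) : Ioc 0 ⌊(y : ℝ)⌋₊ = Icc 1 y := by
  rw [Nat.floor_natCast]
  ext m
  rw [mem_Ioc, mem_Icc]
  omega

/-- The prime powers with exponent at least two. -/
theorem BV1B_P (y : ℕ) (hy : 1 ≤ y) :
    ∑ m ∈ (Icc 1 y).filter (fun m => ¬ m.Prime), ArithmeticFunction.vonMangoldt m ≤
      2 * Real.sqrt y * Real.log y := by
  have h1 := Chebyshev.psi_sub_theta_le (x := (y : ℝ)) (by exact_mod_cast hy)
  rw [Chebyshev.psi_sub_theta_eq_sum_not_prime, BV1B_Ioc] at h1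
  exact h1

/-- Splitting into primes and prime powers. -/
theorem BV1B_split (y : ℕ) (P : ℕ → Prop) [DecidablePred P] :
    ∑ m ∈ (Icc 1 y).filter P, ArithmeticFunction.vonMangoldt m =
      ∑ q ∈ (Icc 1 y).filter (fun q => q.Prime ∧ P q), Real.log q +
      ∑ m ∈ (Icc 1 y).filter (fun m => ¬ m.Prime ∧ P m), ArithmeticFunction.vonMangoldt m := by
  simp_rw [sum_filter]
  rw [← sum_add_distrib]
  apply sum_congr rfl
  intro m _
  by_cases h1 : m.Prime <;> by_cases h2 : P m
  · simp [h1, h2, ArithmeticFunction.vonMangoldt_apply_prime]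
  · simp [h1, h2]
  · simp [h1, h2]
  · simp [h1, h2]

theorem BV1B_sub (y : ℕ) (hy : 1 ≤ y) (P : ℕ → Prop) [DecidablePred P] :
    ∑ m ∈ (Icc 1 y).filter (fun m => ¬ m.Prime ∧ P m), ArithmeticFunction.vonMangoldt m ≤
      2 * Real.sqrt y * Real.log y := by
  refine le_trans ?_ (BV1B_P y hy)
  apply sum_le_sum_of_subset_of_nonneg
  · intro m hm
    rw [mem_filter] at hm ⊢
    exact ⟨hm.1, hm.2.1⟩
  · intro m _ _
    exact ArithmeticFunction.vonMangoldt_nonneg

open Classical in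
/-- The case of the primes: `prog_gen` with `f = Λ`; prime powers contribute at most
`2 √y log y` (`Chebyshev.psi_sub_theta_le`), the `m` not coprime to `d` (or `d/r`) at most
`∑_{p ∣ d} log y/log p · log p ≤ 2 log d log y`. (There are at most `φ(d)` characters.) -/
theorem prog_le : ∃ C : ℝ, 0 < C ∧ ∀ (d a y : ℕ), 1 ≤ d → d ≤ y → a.Coprime d → 2 ≤ y →
    |thp y d a - th y / (Nat.totient d : ℝ)| ≤
      1 / (Nat.totient d : ℝ) * ∑ p ∈ (PC d).filter (fun p => p ≠ p0 ∧ p.1 ∣ d), ‖psi y p‖ +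
      C * Real.sqrt y * Real.log y ^ 2 := by
  refine ⟨100, by norm_num, ?_⟩
  intro d a y hd hdy ha hy
  have hy1 : 1 ≤ y := by omega
  have hl2 : (0.69 : ℝ) < Real.log 2 := by
    have := Real.log_two_gt_d9
    linarith
  have hly : Real.log 2 ≤ Real.log y :=
    Real.log_le_log (by norm_num) (by exact_mod_cast hy)
  have hld : Real.log d ≤ Real.log y :=
    Real.log_le_log (by exact_mod_cast hd) (by exact_mod_cast hdy)
  have hld0 : 0 ≤ Real.log d := Real.log_nonneg (by exact_mod_cast hd)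
  have hs1 : 1 ≤ Real.sqrt y := by
    rw [Real.one_le_sqrt]
    exact_mod_cast hy1
  have hφ : 1 ≤ (Nat.totient d : ℝ) := by exact_mod_cast Nat.totient_pos.mpr hd
  -- the error
  obtain ⟨E, hE⟩ : ∃ E, E = 2 * Real.sqrt y * Real.log y := ⟨_, rfl⟩
  obtain ⟨N, hN⟩ : ∃ N, N = 2 * Real.log d * Real.log y := ⟨_, rfl⟩
  have hE1 : E ≤ 4 * (Real.sqrt y * Real.log y ^ 2) := by
    rw [hE]
    have h1 : Real.log y ≤ 2 * Real.log y ^ 2 := by nlinarith
    have h2 := mul_le_mul_of_nonneg_left h1 (by positivity : 0 ≤ 2 * Real.sqrt y)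
    linarith
  have hN1 : N ≤ 2 * (Real.sqrt y * Real.log y ^ 2) := by
    rw [hN]
    have h1 : Real.log d * Real.log y ≤ Real.log y ^ 2 := by nlinarith
    have h2 : Real.log y ^ 2 ≤ Real.sqrt y * Real.log y ^ 2 := by
      nlinarith [sq_nonneg (Real.log y)]
    linarith
  have hE0 : 0 ≤ E := by
    rw [hE]
    have : 0 ≤ Real.log y := by linarith
    positivity
  have hN0 : 0 ≤ N := by
    rw [hN]
    have : 0 ≤ Real.log y := by linarith
    positivity
  have hPN := BV1B_N d y hd hy1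
  rw [← hN] at hPN
  -- the orthogonality
  have hg := prog_gen d a y hd ha (fun m => (ArithmeticFunction.vonMangoldt m : ℂ))
  -- left side
  have hL : ‖∑ m ∈ (Icc 1 y).filter (fun m => m ≡ a [MOD d]),
        (ArithmeticFunction.vonMangoldt m : ℂ) -
      1 / (Nat.totient d : ℂ) * ∑ m ∈ (Icc 1 y).filter (fun m => m.Coprime d),
        (ArithmeticFunction.vonMangoldt m : ℂ)‖ =
      |∑ m ∈ (Icc 1 y).filter (fun m => m ≡ a [MOD d]), ArithmeticFunction.vonMangoldt m -
      1 / (Nat.totient d : ℝ) * ∑ m ∈ (Icc 1 y).filter (fun m => m.Coprime d),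
        ArithmeticFunction.vonMangoldt m| := by
    rw [← Real.norm_eq_abs, ← Complex.norm_real]
    congr 1
    push_cast
    ring
  rw [hL] at hg
  -- the class
  have hA : |thp y d a - ∑ m ∈ (Icc 1 y).filter (fun m => m ≡ a [MOD d]),
      ArithmeticFunction.vonMangoldt m| ≤ E := by
    rw [BV1B_split y (fun m => m ≡ a [MOD d])]
    have h1 := BV1B_sub y hy1 (fun m => m ≡ a [MOD d])
    have h2 : 0 ≤ ∑ m ∈ (Icc 1 y).filter (fun m => ¬ m.Prime ∧ m ≡ a [MOD d]),
        ArithmeticFunction.vonMangoldt m :=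
      sum_nonneg fun m _ => ArithmeticFunction.vonMangoldt_nonneg
    rw [← hE] at h1
    have h3 : thp y d a = ∑ q ∈ (Icc 1 y).filter (fun q => q.Prime ∧ q ≡ a [MOD d]),
      Real.log q := rfl
    rw [← h3, abs_le]
    constructor <;> linarith
  -- all primes
  have hT : |∑ m ∈ (Icc 1 y).filter (fun m => m.Coprime d), ArithmeticFunction.vonMangoldt m -
      th y| ≤ E + N := by
    have h1 : ∑ m ∈ (Icc 1 y).filter (fun m => m.Coprime d), ArithmeticFunction.vonMangoldt m +
        ∑ m ∈ (Icc 1 y).filter (fun m => ¬ m.Coprime d), ArithmeticFunction.vonMangoldt m =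
        ∑ m ∈ Icc 1 y, ArithmeticFunction.vonMangoldt m :=
      sum_filter_add_sum_filter_not _ _ _
    have h2 : ∑ m ∈ Icc 1 y, ArithmeticFunction.vonMangoldt m =
        th y + ∑ m ∈ (Icc 1 y).filter (fun m => ¬ m.Prime),
          ArithmeticFunction.vonMangoldt m := by
      have h3 := BV1B_split y (fun _ => True)
      simp only [and_true, filter_true] at h3
      rw [h3]
      rfl
    have h4 := BV1B_P y hy1
    rw [← hE] at h4
    have h5 : 0 ≤ ∑ m ∈ (Icc 1 y).filter (fun m => ¬ m.Prime),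
        ArithmeticFunction.vonMangoldt m :=
      sum_nonneg fun m _ => ArithmeticFunction.vonMangoldt_nonneg
    have h6 : 0 ≤ ∑ m ∈ (Icc 1 y).filter (fun m => ¬ m.Coprime d),
        ArithmeticFunction.vonMangoldt m :=
      sum_nonneg fun m _ => ArithmeticFunction.vonMangoldt_nonneg
    rw [abs_le]
    constructor <;> linarith
  -- the characters
  have hC : ∀ p ∈ (PC d).filter (fun p => p ≠ p0 ∧ p.1 ∣ d),
      ‖∑ m ∈ (Icc 1 y).filter (fun m => m.Coprime (d / p.1)),
        (ArithmeticFunction.vonMangoldt m : ℂ) * p.2 (m : ZMod p.1)‖ ≤ ‖psi y p‖ + N := by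
    intro p hp
    rw [mem_filter] at hp
    have h1 : ∑ m ∈ (Icc 1 y).filter (fun m => m.Coprime (d / p.1)),
        (ArithmeticFunction.vonMangoldt m : ℂ) * p.2 (m : ZMod p.1) +
        ∑ m ∈ (Icc 1 y).filter (fun m => ¬ m.Coprime (d / p.1)),
        (ArithmeticFunction.vonMangoldt m : ℂ) * p.2 (m : ZMod p.1) = psi y p :=
      sum_filter_add_sum_filter_not _ _ _
    have h2 : ‖∑ m ∈ (Icc 1 y).filter (fun m => ¬ m.Coprime (d / p.1)),
        (ArithmeticFunction.vonMangoldt m : ℂ) * p.2 (m : ZMod p.1)‖ ≤ N := by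
      refine (norm_sum_le _ _).trans ?_
      refine le_trans ?_ hPN
      refine le_trans (b := ∑ m ∈ (Icc 1 y).filter (fun m => ¬ m.Coprime (d / p.1)),
        ArithmeticFunction.vonMangoldt m) ?_ ?_
      · apply sum_le_sum
        intro m _
        rw [norm_mul, Complex.norm_real, Real.norm_eq_abs,
          abs_of_nonneg ArithmeticFunction.vonMangoldt_nonneg]
        calc _ ≤ ArithmeticFunction.vonMangoldt m * 1 :=
              mul_le_mul_of_nonneg_left (DirichletCharacter.norm_le_one _ _)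
                ArithmeticFunction.vonMangoldt_nonneg
          _ = _ := mul_one _
      · apply sum_le_sum_of_subset_of_nonneg
        · intro m hm
          rw [mem_filter] at hm ⊢
          exact ⟨hm.1, fun h => hm.2 (Nat.Coprime.coprime_dvd_right
            (Nat.div_dvd_of_dvd hp.2.2) h)⟩
        · intro m _ _
          exact ArithmeticFunction.vonMangoldt_nonneg
    have h3 : ∑ m ∈ (Icc 1 y).filter (fun m => m.Coprime (d / p.1)),
        (ArithmeticFunction.vonMangoldt m : ℂ) * p.2 (m : ZMod p.1) = psi y p -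
        ∑ m ∈ (Icc 1 y).filter (fun m => ¬ m.Coprime (d / p.1)),
        (ArithmeticFunction.vonMangoldt m : ℂ) * p.2 (m : ZMod p.1) := by
      rw [← h1]; ring
    rw [h3]
    exact (norm_sub_le _ _).trans (by linarith)
  have hS := sum_le_sum hC
  rw [sum_add_distrib, sum_const, nsmul_eq_mul] at hS
  have hcard : ((((PC d).filter (fun p => p ≠ p0 ∧ p.1 ∣ d)).card : ℕ) : ℝ) ≤
      (Nat.totient d : ℝ) := by exact_mod_cast BV1B_card d hd
  have hS2 := mul_le_mul_of_nonneg_left hS (by positivity : 0 ≤ 1 / (Nat.totient d : ℝ))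
  have hS3 : 1 / (Nat.totient d : ℝ) *
      ((((PC d).filter (fun p => p ≠ p0 ∧ p.1 ∣ d)).card : ℕ) * N) ≤ N := by
    rw [← mul_assoc]
    calc _ ≤ 1 * N := by
          apply mul_le_mul_of_nonneg_right _ hN0
          rw [one_div, inv_mul_le_iff₀ (by linarith), mul_one]
          exact hcard
      _ = N := one_mul N
  rw [mul_add] at hS2
  -- assembly
  obtain ⟨TA, hTA⟩ : ∃ TA, TA = ∑ m ∈ (Icc 1 y).filter (fun m => m ≡ a [MOD d]),
      ArithmeticFunction.vonMangoldt m := ⟨_, rfl⟩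
  obtain ⟨TC, hTC⟩ : ∃ TC, TC = ∑ m ∈ (Icc 1 y).filter (fun m => m.Coprime d),
      ArithmeticFunction.vonMangoldt m := ⟨_, rfl⟩
  rw [← hTA] at hg hA
  rw [← hTC] at hg hT
  have hT2 : |1 / (Nat.totient d : ℝ) * TC - th y / (Nat.totient d : ℝ)| ≤ E + N := by
    have h1 : 1 / (Nat.totient d : ℝ) * TC - th y / (Nat.totient d : ℝ) =
        (1 / (Nat.totient d : ℝ)) * (TC - th y) := by ring
    rw [h1, abs_mul, abs_of_nonneg (by positivity)]
    calc _ ≤ 1 * (E + N) := by
          apply mul_le_mul _ hT (abs_nonneg _) zero_le_one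
          rw [div_le_one (by linarith)]
          exact hφ
      _ = _ := one_mul _
  have h7 : |thp y d a - th y / (Nat.totient d : ℝ)| ≤ E +
      |TA - 1 / (Nat.totient d : ℝ) * TC| + (E + N) := by
    have h8 : thp y d a - th y / (Nat.totient d : ℝ) = (thp y d a - TA) +
      (TA - 1 / (Nat.totient d : ℝ) * TC) +
      (1 / (Nat.totient d : ℝ) * TC - th y / (Nat.totient d : ℝ)) := by ring
    rw [h8]
    refine (abs_add_le _ _).trans ?_
    refine add_le_add ((abs_add_le _ _).trans ?_) hT2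
    exact add_le_add hA le_rfl
  have h9 : (100 : ℝ) * Real.sqrt y * Real.log y ^ 2 =
      100 * (Real.sqrt y * Real.log y ^ 2) := by ring
  nlinarith [hg, h7, hS2, hS3, hE1, hN1]

end Pool.Agent.Lib.H59C
end

-- from Lib.Helper57.Mertens
section

/-!
# Mertens-type upper bounds
-/

namespace Pool.Agent.Lib.Helper57

open Finset Pool.Agent.Lib.Sieve

/-- Partial sums of `log p / p`. -/
noncomputable def SL (n : ℕ) : ℝ := ∑ p ∈ primesUpTo n, Real.log p / p

lemma primesUpTo_succ (n : ℕ) :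
    primesUpTo (n + 1) = if (n + 1).Prime then insert (n + 1) (primesUpTo n) else primesUpTo n := by
  unfold primesUpTo
  rw [Finset.range_add_one, Finset.filter_insert]

lemma sum_primesUpTo_succ (n : ℕ) (f : ℕ → ℝ) :
    ∑ p ∈ primesUpTo (n + 1), f p =
      ∑ p ∈ primesUpTo n, f p + if (n + 1).Prime then f (n + 1) else 0 := by
  rw [primesUpTo_succ]
  split_ifs with h
  · rw [Finset.sum_insert, add_comm]
    rw [mem_primesUpTo]; omega
  · simp

lemma primesUpTo_one : primesUpTo 1 = ∅ := by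
  ext p; rw [mem_primesUpTo]; constructor
  · rintro ⟨h1, h2⟩; have := h1.two_le; omega
  · intro h; simp at h

/-- Abel summation. -/
lemma sum_inv_eq (n : ℕ) (hn : 2 ≤ n) :
    ∑ p ∈ primesUpTo n, (1 : ℝ) / p = SL n / Real.log n +
      ∑ m ∈ Finset.Ico 2 n, SL m * (1 / Real.log m - 1 / Real.log (m + 1 : ℕ)) := by
  induction n, hn using Nat.le_induction with
  | base =>
    have h1 := sum_primesUpTo_succ 1 (fun p => (1 : ℝ) / p)
    have h2 := sum_primesUpTo_succ 1 (fun p => Real.log p / p)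
    rw [primesUpTo_one] at h1 h2
    norm_num at h1 h2
    unfold SL
    rw [h2]
    have h3 : Real.log 2 ≠ 0 := (Real.log_pos (by norm_num)).ne'
    simp only [Finset.Ico_self, Finset.sum_empty, add_zero]
    simp only [one_div]
    rw [h1]
    push_cast
    field_simp
  | succ n hn ih =>
    rw [sum_primesUpTo_succ, Finset.sum_Ico_succ_top hn, ih]
    have h2 : SL (n + 1) = SL n + if (n + 1).Prime then Real.log (n + 1 : ℕ) / (n + 1 : ℕ) else 0 := by
      unfold SL
      rw [sum_primesUpTo_succ n (fun p => Real.log p / p)]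
    rw [h2]
    have h3 : Real.log (n + 1 : ℕ) ≠ 0 := by
      apply (Real.log_pos _).ne'
      have : (2 : ℝ) ≤ n := by exact_mod_cast hn
      push_cast; linarith
    have h4 : Real.log (n : ℕ) ≠ 0 := by
      apply (Real.log_pos _).ne'
      have : (2 : ℝ) ≤ n := by exact_mod_cast hn
      linarith
    split_ifs with hp
    · field_simp
      ring
    · field_simp
      ring

/-- `∑_{p ≤ n} 1/p ≤ log log n + 4`. -/
lemma sum_inv_primes_le (n : ℕ) (hn : 2 ≤ n) :
    ∑ p ∈ primesUpTo n, (1 : ℝ) / p ≤ Real.log (Real.log n) + 4 := by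
  rw [sum_inv_eq n hn]
  have hn' : (2 : ℝ) ≤ n := by exact_mod_cast hn
  have hlog2 : 0 < Real.log 2 := Real.log_pos (by norm_num)
  have hlogn : 0 < Real.log n := Real.log_pos (by linarith)
  have h0 : SL n / Real.log n ≤ 1 + Real.log 4 / Real.log n := by
    rw [div_le_iff₀ hlogn]
    have := sum_log_div_le n (by omega)
    unfold SL
    field_simp
    linarith
  have h1 : ∀ m ∈ Finset.Ico 2 n, SL m * (1 / Real.log m - 1 / Real.log (m + 1 : ℕ)) ≤
      (Real.log (Real.log (m + 1 : ℕ)) - Real.log (Real.log m)) +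
        Real.log 4 * (1 / Real.log m - 1 / Real.log (m + 1 : ℕ)) := by
    intro m hm
    rw [Finset.mem_Ico] at hm
    have hm' : (2 : ℝ) ≤ m := by exact_mod_cast hm.1
    have hlm : 0 < Real.log m := Real.log_pos (by linarith)
    have hlm1 : Real.log m < Real.log (m + 1 : ℕ) := by
      apply Real.log_lt_log (by linarith)
      push_cast; linarith
    have hlm2 : 0 < Real.log (m + 1 : ℕ) := hlm.trans hlm1
    have h2 : 0 ≤ 1 / Real.log m - 1 / Real.log (m + 1 : ℕ) := by
      rw [sub_nonneg]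
      exact one_div_le_one_div_of_le hlm hlm1.le
    have h3 : SL m ≤ Real.log m + Real.log 4 := sum_log_div_le m (by omega)
    calc SL m * (1 / Real.log m - 1 / Real.log (m + 1 : ℕ))
        ≤ (Real.log m + Real.log 4) * (1 / Real.log m - 1 / Real.log (m + 1 : ℕ)) :=
          mul_le_mul_of_nonneg_right h3 h2
      _ = (1 - Real.log m / Real.log (m + 1 : ℕ)) +
          Real.log 4 * (1 / Real.log m - 1 / Real.log (m + 1 : ℕ)) := by
          field_simp
      _ ≤ _ := by
          have h5 := Real.one_sub_inv_le_log_of_pos (x := Real.log (m + 1 : ℕ) / Real.log m)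
            (by positivity)
          rw [Real.log_div hlm2.ne' hlm.ne', inv_div] at h5
          linarith
  have h2 := Finset.sum_le_sum h1
  rw [Finset.sum_add_distrib, ← Finset.mul_sum] at h2
  have h3 : ∀ f : ℕ → ℝ, ∑ m ∈ Finset.Ico 2 n, (f (m + 1) - f m) = f n - f 2 := by
    intro f
    exact Finset.sum_Ico_sub f hn
  have h4 := h3 (fun m => Real.log (Real.log m))
  have h5 := h3 (fun m => -(1 / Real.log m))
  have h6 : ∑ m ∈ Finset.Ico 2 n, (1 / Real.log m - 1 / Real.log (m + 1 : ℕ)) =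
      1 / Real.log 2 - 1 / Real.log n := by
    rw [← sub_eq_zero]
    have : ∑ m ∈ Finset.Ico 2 n, (1 / Real.log m - 1 / Real.log (m + 1 : ℕ)) =
      ∑ m ∈ Finset.Ico 2 n, (-(1 / Real.log (m + 1 : ℕ)) - -(1 / Real.log m)) := by
      apply Finset.sum_congr rfl
      intro m _
      ring
    rw [this, h5]
    push_cast
    ring
  rw [h4, h6] at h2
  have h7 : Real.log 4 = 2 * Real.log 2 := by
    rw [show (4 : ℝ) = 2 ^ 2 by norm_num, Real.log_pow]; push_cast; ring
  have h8 : Real.log 4 * (1 / Real.log 2 - 1 / Real.log n) = 2 - Real.log 4 / Real.log n := by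
    rw [h7]; field_simp
  rw [h8] at h2
  -- `- log log 2 ≤ 1/2`
  have h9 : -(1 : ℝ) ≤ Real.log (Real.log 2) := by
    rw [Real.le_log_iff_exp_le hlog2]
    have h10 := Real.exp_neg_one_lt_d9
    have h11 := Real.log_two_gt_d9
    linarith
  push_cast at h2 ⊢
  have h2' : ∑ m ∈ Finset.Ico 2 n, SL m * (1 / Real.log m - 1 / Real.log (m + 1)) ≤
      (Real.log (Real.log n) - Real.log (Real.log 2)) + (2 - Real.log 4 / Real.log n) := h2
  linarith

lemma neg_log_one_sub_le {t : ℝ} (h0 : 0 ≤ t) (h1 : t ≤ 1 / 2) :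
    -Real.log (1 - t) ≤ t + 2 * t ^ 2 := by
  have _ := h0
  have h2 : 0 < 1 - t := by linarith
  rw [← Real.log_inv]
  have h3 := Real.log_le_sub_one_of_pos (inv_pos.mpr h2)
  refine h3.trans ?_
  rw [show (1 - t)⁻¹ - 1 = t / (1 - t) by field_simp; ring]
  rw [div_le_iff₀ h2]
  nlinarith [mul_nonneg h0 h0, mul_nonneg (mul_nonneg h0 h0) h0]

lemma sum_inv_sq_primes_le (S : Finset ℕ) (m : ℕ) (hm : 1 ≤ m) (hS : ∀ p ∈ S, m < p) :
    ∑ p ∈ S, (1 : ℝ) / (p : ℝ) ^ 2 ≤ 1 / m := by
  obtain ⟨N, hN⟩ : ∃ N, ∀ p ∈ S, p ≤ N := ⟨S.sup id, fun p hp => Finset.le_sup (f := id) hp⟩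
  have h1 : ∀ n : ℕ, m ≤ n → ∑ p ∈ Finset.Ioc m n, (1 : ℝ) / (p : ℝ) ^ 2 ≤ 1 / m - 1 / n := by
    intro n hn
    induction n, hn using Nat.le_induction with
    | base => simp
    | succ n hn ih =>
      rw [← Finset.insert_Ioc_right_eq_Ioc_add_one (by omega), Finset.sum_insert (by simp)]
      have hn' : (0 : ℝ) < n := by
        have : 1 ≤ n := hm.trans hn
        exact_mod_cast this
      have h3 : (1 : ℝ) / ((n + 1 : ℕ) : ℝ) ^ 2 ≤ 1 / n - 1 / (n + 1 : ℕ) := by
        push_cast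
        rw [div_sub_div _ _ hn'.ne' (by positivity), div_le_div_iff₀ (by positivity) (by positivity)]
        nlinarith
      linarith
  rcases le_or_gt m N with h | h
  · calc ∑ p ∈ S, (1 : ℝ) / (p : ℝ) ^ 2 ≤ ∑ p ∈ Finset.Ioc m N, (1 : ℝ) / (p : ℝ) ^ 2 := by
          apply Finset.sum_le_sum_of_subset_of_nonneg
          · intro p hp
            rw [Finset.mem_Ioc]
            exact ⟨hS p hp, hN p hp⟩
          · intro p _ _
            positivity
      _ ≤ 1 / m - 1 / N := h1 N h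
      _ ≤ 1 / m := by
          have : (0 : ℝ) ≤ 1 / N := by positivity
          linarith
  · have : S = ∅ := by
      rw [Finset.eq_empty_iff_forall_notMem]
      intro p hp
      have := hS p hp
      have := hN p hp
      omega
    rw [this]
    simp

/-- `∏_{p ≤ n} (1 - 1/p)⁻¹ ≤ 500 log n`. -/
lemma prod_one_sub_inv_inv_le (n : ℕ) (hn : 2 ≤ n) :
    ∏ p ∈ primesUpTo n, (1 - 1 / (p : ℝ))⁻¹ ≤ 500 * Real.log n := by
  have hn' : (2 : ℝ) ≤ n := by exact_mod_cast hn
  have hlogn : 0 < Real.log n := Real.log_pos (by linarith)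
  have h1 : ∀ p ∈ primesUpTo n, (1 - 1 / (p : ℝ))⁻¹ ≤
      Real.exp (1 / p + 2 * (1 / (p : ℝ) ^ 2)) := by
    intro p hp
    have hp2 : (2 : ℝ) ≤ p := by exact_mod_cast (mem_primesUpTo.mp hp).1.two_le
    have h2 : (1 : ℝ) / p ≤ 1 / 2 := one_div_le_one_div_of_le (by norm_num) hp2
    have h3 := neg_log_one_sub_le (t := 1 / (p : ℝ)) (by positivity) h2
    have h4 : 0 < 1 - 1 / (p : ℝ) := by linarith
    rw [← Real.log_le_iff_le_exp (inv_pos.mpr h4), Real.log_inv]
    calc _ ≤ _ := h3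
      _ = _ := by ring
  calc ∏ p ∈ primesUpTo n, (1 - 1 / (p : ℝ))⁻¹
      ≤ ∏ p ∈ primesUpTo n, Real.exp (1 / p + 2 * (1 / (p : ℝ) ^ 2)) := by
        apply Finset.prod_le_prod
        · intro p hp
          have hp2 : (2 : ℝ) ≤ p := by exact_mod_cast (mem_primesUpTo.mp hp).1.two_le
          have h2 : (1 : ℝ) / p ≤ 1 / 2 := one_div_le_one_div_of_le (by norm_num) hp2
          have h4 : 0 < 1 - 1 / (p : ℝ) := by linarith
          exact (inv_pos.mpr h4).le
        · exact h1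
    _ = Real.exp (∑ p ∈ primesUpTo n, (1 : ℝ) / p + 2 * ∑ p ∈ primesUpTo n, 1 / (p : ℝ) ^ 2) := by
        rw [← Real.exp_sum, Finset.sum_add_distrib, ← Finset.mul_sum]
    _ ≤ Real.exp (Real.log (Real.log n) + 6) := by
        apply Real.exp_le_exp.mpr
        have h5 := sum_inv_primes_le n hn
        have h6 := sum_inv_sq_primes_le (primesUpTo n) 1 le_rfl
          (fun p hp => (mem_primesUpTo.mp hp).1.one_lt)
        norm_num at h6 ⊢
        norm_num at h5
        linarith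
    _ = Real.exp 6 * Real.log n := by
        rw [Real.exp_add, Real.exp_log hlogn]; ring
    _ ≤ 500 * Real.log n := by
        apply mul_le_mul_of_nonneg_right _ hlogn.le
        have h7 : Real.exp 1 ≤ 2.7183 := by linarith [Real.exp_one_lt_d9]
        have h8 : Real.exp 6 = Real.exp 1 ^ 6 := by rw [← Real.exp_nat_mul]; norm_num
        rw [h8]
        calc Real.exp 1 ^ 6 ≤ 2.7183 ^ 6 := pow_le_pow_left₀ (Real.exp_pos 1).le h7 6
          _ ≤ 500 := by norm_num

end Pool.Agent.Lib.Helper57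
end

-- from Lib.Helper57.PairCount
section

/-!
# Counting primes and pairs of primes in short intervals, and moments of `h / φ(h)`
-/

namespace Pool.Agent.Lib.Helper57

open Finset Pool.Agent.Lib.Sieve

/-- `h / φ(h)`, written as a product over the prime factors. -/
noncomputable def G (h : ℕ) : ℝ := ∏ p ∈ h.primeFactors, (1 - 1 / (p : ℝ))⁻¹

lemma inv_one_sub_ge_one {p : ℕ} (hp : 2 ≤ p) : 1 ≤ (1 - 1 / (p : ℝ))⁻¹ := by
  have hp2 : (2 : ℝ) ≤ p := by exact_mod_cast hp
  have h2 : (1 : ℝ) / p ≤ 1 / 2 := one_div_le_one_div_of_le (by norm_num) hp2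
  have h3 : 0 < 1 - 1 / (p : ℝ) := by linarith
  rw [one_le_inv₀ h3]
  have : (0 : ℝ) ≤ 1 / p := by positivity
  linarith


lemma moment_le (k N : ℕ) (hk : 1 ≤ k) :
    ∑ h ∈ Finset.Icc 1 N, G h ^ k ≤ 3 * (N * (500 * Real.log (2 * k : ℕ)) ^ k) := by
  have hk' : (1 : ℝ) ≤ k := by exact_mod_cast hk
  set f : ℕ → ℝ := fun p => if p.Prime then ((1 - 1 / (p : ℝ))⁻¹) ^ k - 1 else 0 with hf
  have hf0 : ∀ p, 0 ≤ f p := by
    intro p
    simp only [hf]
    split_ifs with hp
    · have := one_le_pow₀ (n := k) (inv_one_sub_ge_one hp.two_le)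
      linarith
    · exact le_rfl
  have h1 : ∀ h ∈ Finset.Icc 1 N, G h ^ k = ∏ p ∈ h.primeFactors, (1 + f p) := by
    intro h _
    unfold G
    rw [← Finset.prod_pow]
    apply Finset.prod_congr rfl
    intro p hp
    have := Nat.prime_of_mem_primeFactors hp
    simp only [hf, if_pos this]
    ring
  rw [Finset.sum_congr rfl h1]
  refine (sum_prod_primeFactors_le f hf0 N).trans ?_
  -- split the primes at `2 k`
  have h2 : ∏ p ∈ primesUpTo N, (1 + f p / p) =
      (∏ p ∈ (primesUpTo N).filter (fun p => p ≤ 2 * k), (1 + f p / p)) *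
      ∏ p ∈ (primesUpTo N).filter (fun p => ¬ p ≤ 2 * k), (1 + f p / p) :=
    (Finset.prod_filter_mul_prod_filter_not _ _ _).symm
  have h3 : ∏ p ∈ (primesUpTo N).filter (fun p => p ≤ 2 * k), (1 + f p / p) ≤
      (500 * Real.log (2 * k : ℕ)) ^ k := by
    calc ∏ p ∈ (primesUpTo N).filter (fun p => p ≤ 2 * k), (1 + f p / p)
        ≤ ∏ p ∈ primesUpTo (2 * k), (1 + f p / p) := by
          apply Finset.prod_le_prod_of_subset_of_one_le
          · intro p hp
            rw [mem_filter, mem_primesUpTo] at hp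
            rw [mem_primesUpTo]
            exact ⟨hp.1.1, hp.2⟩
          · intro p _
            have := hf0 p
            positivity
          · intro p _ _
            have := hf0 p
            have : 0 ≤ f p / p := by positivity
            linarith
      _ ≤ ∏ p ∈ primesUpTo (2 * k), ((1 - 1 / (p : ℝ))⁻¹) ^ k := by
          apply Finset.prod_le_prod
          · intro p _
            have := hf0 p
            positivity
          · intro p hp
            have hpp := (mem_primesUpTo.mp hp).1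
            have hp1 : (1 : ℝ) ≤ p := by exact_mod_cast hpp.one_le
            have h4 : f p / p ≤ f p := div_le_self (hf0 p) hp1
            have h5 : f p = ((1 - 1 / (p : ℝ))⁻¹) ^ k - 1 := by simp only [hf, if_pos hpp]
            linarith
      _ = (∏ p ∈ primesUpTo (2 * k), (1 - 1 / (p : ℝ))⁻¹) ^ k := Finset.prod_pow _ _ _
      _ ≤ (500 * Real.log (2 * k : ℕ)) ^ k := by
          apply pow_le_pow_left₀
          · apply Finset.prod_nonneg
            intro p hp
            exact zero_le_one.trans (inv_one_sub_ge_one (mem_primesUpTo.mp hp).1.two_le)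
          · exact prod_one_sub_inv_inv_le (2 * k) (by omega)
  have h4 : ∏ p ∈ (primesUpTo N).filter (fun p => ¬ p ≤ 2 * k), (1 + f p / p) ≤ 3 := by
    calc ∏ p ∈ (primesUpTo N).filter (fun p => ¬ p ≤ 2 * k), (1 + f p / p)
        ≤ ∏ p ∈ (primesUpTo N).filter (fun p => ¬ p ≤ 2 * k),
            Real.exp (2 * k * (1 / (p : ℝ) ^ 2)) := by
          apply Finset.prod_le_prod
          · intro p _
            have := hf0 p
            positivity
          · intro p hp
            rw [mem_filter, mem_primesUpTo] at hp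
            obtain ⟨⟨hpp, _⟩, hpk⟩ := hp
            push Not at hpk
            have hpk' : (2 * k : ℝ) < p := by exact_mod_cast hpk
            have hp0 : (0 : ℝ) < p := by exact_mod_cast hpp.pos
            -- Bernoulli
            have h5 : 1 - k / (p : ℝ) ≤ (1 - 1 / (p : ℝ)) ^ k := by
              have h6 : (1 : ℝ) / p ≤ 1 := by
                rw [div_le_one hp0]; linarith
              have := one_add_mul_le_pow (a := -(1 / (p : ℝ))) (by linarith) k
              calc 1 - k / (p : ℝ) = 1 + k * (-(1 / (p : ℝ))) := by ring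
                _ ≤ (1 + -(1 / (p : ℝ))) ^ k := this
                _ = _ := by ring_nf
            have h6 : (k : ℝ) / p ≤ 1 / 2 := by
              rw [div_le_div_iff₀ hp0 (by norm_num)]; linarith
            have h7 : 0 < 1 - (k : ℝ) / p := by linarith
            have h8 : ((1 - 1 / (p : ℝ))⁻¹) ^ k ≤ 1 + 2 * (k / p) := by
              rw [inv_pow]
              calc ((1 - 1 / (p : ℝ)) ^ k)⁻¹ ≤ (1 - (k : ℝ) / p)⁻¹ := by
                    apply inv_anti₀ h7 h5
                _ ≤ 1 + 2 * (k / p) := by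
                    rw [inv_le_iff_one_le_mul₀ h7]
                    have : 0 ≤ (k : ℝ) / p := by positivity
                    nlinarith
            have h9 : f p ≤ 2 * (k / p) := by
              have : f p = ((1 - 1 / (p : ℝ))⁻¹) ^ k - 1 := by simp only [hf, if_pos hpp]
              linarith
            calc 1 + f p / p ≤ 1 + 2 * k * (1 / (p : ℝ) ^ 2) := by
                  have : f p / p ≤ 2 * (k / p) / p := by gcongr
                  have h10 : 2 * ((k : ℝ) / p) / p = 2 * k * (1 / (p : ℝ) ^ 2) := by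
                    field_simp
                  linarith
              _ ≤ _ := by
                  have := Real.add_one_le_exp (2 * k * (1 / (p : ℝ) ^ 2))
                  linarith
      _ = Real.exp (2 * k * ∑ p ∈ (primesUpTo N).filter (fun p => ¬ p ≤ 2 * k),
            1 / (p : ℝ) ^ 2) := by
          rw [← Real.exp_sum, Finset.mul_sum]
      _ ≤ Real.exp 1 := by
          apply Real.exp_le_exp.mpr
          have h5 := sum_inv_sq_primes_le ((primesUpTo N).filter (fun p => ¬ p ≤ 2 * k)) (2 * k)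
            (by omega) (fun p hp => by
              have := (mem_filter.mp hp).2
              omega)
          push_cast at h5
          calc 2 * (k : ℝ) * ∑ p ∈ (primesUpTo N).filter (fun p => ¬ p ≤ 2 * k), 1 / (p : ℝ) ^ 2
              ≤ 2 * k * (1 / (2 * k)) := by gcongr
            _ = 1 := by field_simp
      _ ≤ 3 := by linarith [Real.exp_one_lt_d9]
  rw [h2]
  have hlog : 0 ≤ Real.log (2 * k : ℕ) := Real.log_natCast_nonneg _
  calc (N : ℝ) * ((∏ p ∈ (primesUpTo N).filter (fun p => p ≤ 2 * k), (1 + f p / p)) *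
      ∏ p ∈ (primesUpTo N).filter (fun p => ¬ p ≤ 2 * k), (1 + f p / p))
      ≤ N * ((500 * Real.log (2 * k : ℕ)) ^ k * 3) := by
        gcongr
        apply Finset.prod_nonneg
        intro p _
        have := hf0 p
        positivity
    _ = _ := by ring













end Pool.Agent.Lib.Helper57
end

-- from Lib.H59C.BV1D
section

/-!
# BV1D: the sum of 1/φ
-/

open Finset

namespace Pool.Agent.Lib.H59C

open Pool.Agent.Lib.H68T (PC p0 e)

theorem BV1D_totient (k : ℕ) (hk : 1 ≤ k) :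
    1 / (Nat.totient k : ℝ) = Helper57.G k / k := by
  have h1 := Nat.totient_eq_mul_prod_factors k
  have h2 : (Nat.totient k : ℝ) = k * ∏ p ∈ k.primeFactors, (1 - (p : ℝ)⁻¹) := by
    have h3 := congrArg (fun q : ℚ => (q : ℝ)) h1
    push_cast at h3
    exact h3
  have hk0 : (k : ℝ) ≠ 0 := by
    have : k ≠ 0 := by omega
    exact_mod_cast this
  have hprod : ∏ p ∈ k.primeFactors, (1 - (p : ℝ)⁻¹) ≠ 0 := by
    rw [Finset.prod_ne_zero_iff]
    intro p hp
    have hp2 : (2 : ℝ) ≤ p := by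
      exact_mod_cast (Nat.prime_of_mem_primeFactors hp).two_le
    have h4 : (p : ℝ)⁻¹ ≤ 2⁻¹ := inv_anti₀ (by norm_num) hp2
    have h5 : (0 : ℝ) < 1 - (p : ℝ)⁻¹ := by
      have : (2 : ℝ)⁻¹ < 1 := by norm_num
      linarith
    exact h5.ne'
  have hG : Helper57.G k = (∏ p ∈ k.primeFactors, (1 - (p : ℝ)⁻¹))⁻¹ := by
    unfold Helper57.G
    rw [← Finset.prod_inv_distrib]
    apply Finset.prod_congr rfl
    intro p _
    rw [one_div]
  rw [h2, hG]
  field_simp

/-- partial summation -/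
theorem BV1D_sum (g : ℕ → ℝ) (C : ℝ) (hC : 0 ≤ C)
    (h : ∀ N : ℕ, ∑ k ∈ Icc 1 N, g k ≤ C * N) (D : ℕ) (hD : 1 ≤ D) :
    ∑ k ∈ Icc 1 D, g k / k ≤ (∑ k ∈ Icc 1 D, g k) / D + C * Real.log D := by
  induction D, hD using Nat.le_induction with
  | base => simp
  | succ D hD ih =>
    rw [Finset.sum_Icc_succ_top (by omega), Finset.sum_Icc_succ_top (by omega)]
    have hS := h D
    set S : ℝ := ∑ k ∈ Icc 1 D, g k with hSd
    have hD0 : (0 : ℝ) < D := by
      have : 0 < D := by omega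
      exact_mod_cast this
    have h1 : 1 / ((D : ℝ) + 1) ≤ Real.log ((D + 1 : ℕ) : ℝ) - Real.log D := by
      rw [← Real.log_div (by positivity) hD0.ne']
      have h2 := Real.one_sub_inv_le_log_of_pos (x := ((D + 1 : ℕ) : ℝ) / D) (by positivity)
      refine le_trans (le_of_eq ?_) h2
      push_cast
      field_simp
      ring
    have h3 : S / D - S / ((D : ℝ) + 1) ≤ C * (1 / ((D : ℝ) + 1)) := by
      have e : S / D - S / ((D : ℝ) + 1) = (S / D) * (1 / ((D : ℝ) + 1)) := by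
        field_simp
        ring
      rw [e]
      apply mul_le_mul_of_nonneg_right _ (by positivity)
      rw [div_le_iff₀ hD0]
      exact hS
    have h4 : C * (1 / ((D : ℝ) + 1)) ≤ C * (Real.log ((D + 1 : ℕ) : ℝ) - Real.log D) :=
      mul_le_mul_of_nonneg_left h1 hC
    have e2 : (S + g (D + 1)) / ((D + 1 : ℕ) : ℝ) = S / ((D : ℝ) + 1) + g (D + 1) / ((D + 1 : ℕ) : ℝ) := by
      push_cast
      rw [add_div]
    rw [e2]
    linarith

/-- `∑_{k ≤ D} 1/φ(k) ≤ C log D`: `1/φ(k) = k⁻¹ ∑_{e ∣ k} μ²(e)/φ(e)`, so the sum is at most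
`∑_e μ²(e)/(e φ(e)) ∑_{k ≤ D} 1/k`. -/
theorem sum_inv_totient : ∃ C : ℝ, 0 < C ∧ ∀ D : ℕ, 2 ≤ D →
    ∑ k ∈ Icc 1 D, 1 / (Nat.totient k : ℝ) ≤ C * Real.log D := by
  obtain ⟨K, hK⟩ : ∃ K : ℝ, K = 3 * (500 * Real.log ((2 * 1 : ℕ) : ℝ)) := ⟨_, rfl⟩
  have hK0 : 0 < K := by
    rw [hK]
    have : 0 < Real.log ((2 * 1 : ℕ) : ℝ) := Real.log_pos (by norm_num)
    positivity
  have hS : ∀ N : ℕ, ∑ k ∈ Icc 1 N, Helper57.G k ≤ K * N := by
    intro N
    have h := Helper57.moment_le 1 N le_rfl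
    simp only [pow_one] at h
    rw [hK]
    linarith
  have hl2 : 0 < Real.log 2 := Real.log_pos (by norm_num)
  refine ⟨K / Real.log 2 + K, by positivity, fun D hD => ?_⟩
  have h1 : ∑ k ∈ Icc 1 D, 1 / (Nat.totient k : ℝ) = ∑ k ∈ Icc 1 D, Helper57.G k / k := by
    apply Finset.sum_congr rfl
    intro k hk
    exact BV1D_totient k (mem_Icc.1 hk).1
  rw [h1]
  have h2 := BV1D_sum Helper57.G K hK0.le hS D (by omega)
  have hD0 : (0 : ℝ) < D := by
    have : 0 < D := by omega
    exact_mod_cast this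
  have h3 : (∑ k ∈ Icc 1 D, Helper57.G k) / D ≤ K := by
    rw [div_le_iff₀ hD0]
    exact hS D
  have h4 : Real.log 2 ≤ Real.log D := by
    apply Real.log_le_log (by norm_num)
    exact_mod_cast hD
  have h5 : K ≤ K / Real.log 2 * Real.log D := by
    rw [div_mul_eq_mul_div, le_div_iff₀ hl2]
    exact mul_le_mul_of_nonneg_left h4 hK0.le
  calc ∑ k ∈ Icc 1 D, Helper57.G k / k ≤ (∑ k ∈ Icc 1 D, Helper57.G k) / D + K * Real.log D := h2
    _ ≤ K / Real.log 2 * Real.log D + K * Real.log D := by linarith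
    _ = (K / Real.log 2 + K) * Real.log D := by ring

end Pool.Agent.Lib.H59C
end

-- from Lib.H68T.LAB2
section

/-!
# Chunk LAB2; part of LAB: real parts of logarithmic derivatives
-/

open Finset ArithmeticFunction

namespace Pool.Agent.Lib.H68T

/-- `ζ(σ) ≤ σ/(σ-1)` -/
theorem lab2_zeta_le (σ : ℝ) (hσ : 1 < σ) : ‖riemannZeta (σ : ℂ)‖ ≤ σ / (σ - 1) := by
  have hs : 1 < ((σ : ℂ)).re := by simpa using hσ
  have h1 := gl2_eq (σ : ℂ) hs
  have h2 := (gl1_tele σ (by linarith) (‖(σ : ℂ) - 1‖ * ‖(σ : ℂ)‖ / σ) (by positivity)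
    (fun n => gl2_B n (σ : ℂ)) (fun n => by simpa using gl2_B_norm n (σ : ℂ) (by simp; linarith))).2
  have e1 : ‖(σ : ℂ) - 1‖ = σ - 1 := by
    rw [← Complex.ofReal_one, ← Complex.ofReal_sub, Complex.norm_real, Real.norm_of_nonneg]
    linarith
  have e2 : ‖(σ : ℂ)‖ = σ := by
    rw [Complex.norm_real, Real.norm_of_nonneg]
    linarith
  rw [e1, e2, mul_div_assoc, div_self (by linarith), mul_one] at h2
  have h3 : ‖((σ : ℂ) - 1) * riemannZeta (σ : ℂ)‖ ≤ σ := by
    rw [h1]
    refine (norm_add_le _ _).trans ?_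
    rw [norm_one]
    linarith
  rw [norm_mul, e1] at h3
  rw [le_div_iff₀ (by linarith)]
  linarith

/-- lower bound for `L(s,χ)`, `Re s > 1` -/
theorem lab2_lower (N : ℕ) (χ : DirichletCharacter ℂ N) (s : ℂ) (hs : 1 < s.re) :
    (s.re - 1) / s.re ≤ ‖LSeries (fun n => χ (n : ZMod N)) s‖ := by
  have h1 := DirichletCharacter.LSeries.mul_mu_eq_one χ hs
  have h2 : ‖LSeries ((fun n : ℕ => χ (n : ZMod N)) * fun n : ℕ => ((moebius n : ℤ) : ℂ)) s‖ ≤
      s.re / (s.re - 1) := by
    refine le_trans ?_ (lab2_zeta_le s.re hs)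
    have hs' : 1 < ((s.re : ℂ)).re := by simpa using hs
    have h3 : Summable fun n : ℕ => 1 / ((n : ℝ) + 1) ^ s.re := by
      have h4 := (Real.summable_one_div_nat_rpow (p := s.re)).2 hs
      have h5 := (summable_nat_add_iff 1).2 h4
      simpa using h5
    have hle : ∀ n, ‖LSeries.term ((fun n : ℕ => χ (n : ZMod N)) *
        fun n : ℕ => ((moebius n : ℤ) : ℂ)) s (n + 1)‖ ≤ 1 / ((n : ℝ) + 1) ^ s.re := by
      intro n
      rw [LSeries.term_of_ne_zero (by omega), norm_div,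
        Complex.norm_natCast_cpow_of_pos (by omega)]
      push_cast
      refine div_le_div_of_nonneg_right ?_ (Real.rpow_nonneg (by positivity) _)
      rw [Pi.mul_apply, norm_mul]
      have h6 := DirichletCharacter.norm_le_one χ ((n + 1 : ℕ) : ZMod N)
      have h7 : ‖((moebius (n + 1) : ℤ) : ℂ)‖ ≤ 1 := by
        rw [Complex.norm_intCast]
        exact_mod_cast abs_moebius_le_one
      calc _ ≤ (1 : ℝ) * 1 := mul_le_mul h6 h7 (norm_nonneg _) zero_le_one
        _ = 1 := one_mul _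
    have hsum : Summable fun n => ‖LSeries.term ((fun n : ℕ => χ (n : ZMod N)) *
        fun n : ℕ => ((moebius n : ℤ) : ℂ)) s (n + 1)‖ :=
      Summable.of_nonneg_of_le (fun n => norm_nonneg _) hle h3
    have hL : LSeries ((fun n : ℕ => χ (n : ZMod N)) * fun n : ℕ => ((moebius n : ℤ) : ℂ)) s =
        ∑' n, LSeries.term ((fun n : ℕ => χ (n : ZMod N)) *
          fun n : ℕ => ((moebius n : ℤ) : ℂ)) s (n + 1) := by
      rw [LSeries, ((summable_nat_add_iff 1).1 hsum.of_norm).tsum_eq_zero_add]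
      simp
    have hzeta : ‖riemannZeta (s.re : ℂ)‖ = ∑' n : ℕ, 1 / ((n : ℝ) + 1) ^ s.re := by
      rw [zeta_eq_tsum_one_div_nat_add_one_cpow hs']
      have e : (fun n : ℕ => 1 / ((n : ℂ) + 1) ^ ((s.re : ℝ) : ℂ)) =
          fun n : ℕ => ((1 / ((n : ℝ) + 1) ^ s.re : ℝ) : ℂ) := by
        funext n
        push_cast
        rw [Complex.ofReal_cpow (by positivity)]
        push_cast
        rfl
      rw [e, ← Complex.ofReal_tsum, Complex.norm_real, Real.norm_of_nonneg]
      exact tsum_nonneg fun n => by positivity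
    rw [hL, hzeta]
    exact (norm_tsum_le_tsum_norm hsum).trans (Summable.tsum_le_tsum hle hsum h3)
  have h3 := congrArg norm h1
  rw [norm_mul, norm_one] at h3
  have h4 : 0 < s.re - 1 := by linarith
  have h5 : 0 < s.re := by linarith
  have h6 : 1 ≤ ‖LSeries (fun n => χ (n : ZMod N)) s‖ * (s.re / (s.re - 1)) := by
    exact h3.symm.le.trans (mul_le_mul_of_nonneg_left h2 (norm_nonneg _))
  rw [div_le_iff₀ h5]
  rw [← mul_div_assoc, le_div_iff₀ h4] at h6
  linarith

/-- the consequence of Landau's lemma used for all L-functions -/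
theorem lab2_core : ∃ A : ℝ, 0 < A ∧ ∀ (f : ℂ → ℂ) (s₀ : ℂ) (M : ℝ), 0 ≤ M →
    AnalyticOnNhd ℂ f (Metric.closedBall s₀ (1 / 2)) → f s₀ ≠ 0 →
    (∀ s ∈ Metric.closedBall s₀ (1 / 2), ‖f s‖ ≤ Real.exp M * ‖f s₀‖) →
    (∀ ρ, f ρ = 0 → ρ.re < s₀.re) → ∀ S : Finset ℂ, (∀ ρ ∈ S, f ρ = 0 ∧ ‖ρ - s₀‖ ≤ 1 / 4) →
      -(logDeriv f s₀).re ≤ A * (M + 1) - ∑ ρ ∈ S, (1 / (s₀ - ρ)).re := by
  obtain ⟨A, hA, hlan⟩ := landau
  refine ⟨2 * A, by positivity, fun f s₀ M hM hf h0 hb hre S hS => ?_⟩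
  obtain ⟨Z, hZ1, hZ2, hZ3⟩ := hlan f s₀ (1 / 2) M (by norm_num) hM hf h0 hb
  have h1 := hZ3 s₀ (Metric.mem_closedBall_self (by norm_num)) h0
  have hSZ : S.val ≤ Z := by
    rw [Finset.val_le_iff_val_subset]
    intro ρ hρ
    have h2 := hS ρ hρ
    exact hZ2 ρ (by linarith [h2.2]) h2.1
  obtain ⟨Z', hZ'⟩ := Multiset.le_iff_exists_add.1 hSZ
  have hpos : ∀ ρ ∈ Z, 0 ≤ (1 / (s₀ - ρ)).re := by
    intro ρ hρ
    have h2 := hre ρ (hZ1 ρ hρ).2
    rw [one_div, Complex.inv_re, Complex.sub_re]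
    apply div_nonneg (by linarith) (Complex.normSq_nonneg _)
  have hsum : ((Z.map (fun ρ => 1 / (s₀ - ρ))).sum).re =
      ∑ ρ ∈ S, (1 / (s₀ - ρ)).re + (Z'.map (fun ρ => (1 / (s₀ - ρ)).re)).sum := by
    rw [hZ', Multiset.map_add, Multiset.sum_add, Complex.add_re]
    congr 1
    · change (∑ ρ ∈ S, 1 / (s₀ - ρ)).re = _
      rw [Complex.re_sum]
    · have := (Multiset.sum_hom (Z'.map fun ρ => 1 / (s₀ - ρ)) Complex.reAddGroupHom)
      rw [Multiset.map_map] at this
      exact this.symm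
  have hZ'pos : 0 ≤ (Z'.map (fun ρ => (1 / (s₀ - ρ)).re)).sum := by
    apply Multiset.sum_nonneg
    intro x hx
    obtain ⟨ρ, hρ, rfl⟩ := Multiset.mem_map.1 hx
    exact hpos ρ (by rw [hZ']; exact Multiset.mem_add.2 (Or.inr hρ))
  have h3 : -(deriv f s₀ / f s₀ - (Z.map (fun ρ => 1 / (s₀ - ρ))).sum).re ≤
      A * (M + 1) / (1 / 2) := by
    refine le_trans ?_ h1
    have := Complex.abs_re_le_norm (deriv f s₀ / f s₀ - (Z.map (fun ρ => 1 / (s₀ - ρ))).sum)
    linarith [neg_abs_le (deriv f s₀ / f s₀ - (Z.map (fun ρ => 1 / (s₀ - ρ))).sum).re]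
  rw [Complex.sub_re, hsum] at h3
  rw [logDeriv_apply]
  have e : A * (M + 1) / (1 / 2) = 2 * A * (M + 1) := by ring
  rw [e] at h3
  linarith

/-- **Upper bound for `-Re L'/L`**, `χ ≠ 1` mod `N`, `S` any finite set of zeros near
`s₀ = σ + it`. `landau` with `f = L(·,χ)`, `R = 1/2`: on the disc `‖f‖ ≤ 2N(|t|+3)`
(`LFunction_bound`), `‖f(s₀)‖ ≥ 1/ζ(σ) ≥ (σ-1)/σ`; `LSeries (Λχ) = -f'/f`
(`DirichletCharacter.LSeries_twist_vonMangoldt_eq`); every zero has real part `< 1`
(`DirichletCharacter.LFunction_ne_zero_of_one_le_re`), so all terms `Re 1/(s₀-ρ)` are positive and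
the others can be dropped. -/
theorem re_char : ∃ C : ℝ, 0 < C ∧ ∀ (N : ℕ) [NeZero N] (χ : DirichletCharacter ℂ N), χ ≠ 1 →
    ∀ σ t : ℝ, 1 < σ → σ ≤ 5 / 4 → ∀ S : Finset ℂ,
    (∀ ρ ∈ S, χ.LFunction ρ = 0 ∧ ‖ρ - (σ + t * Complex.I)‖ ≤ 1 / 4) →
    (LSeries (fun n => (vonMangoldt n : ℂ) * χ (n : ZMod N)) (σ + t * Complex.I)).re ≤
      C * (Real.log N + Real.log (|t| + 3) + Real.log (1 / (σ - 1)) + 1) -
        ∑ ρ ∈ S, (1 / (σ + t * Complex.I - ρ)).re := by
  obtain ⟨A, hA, hcore⟩ := lab2_core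
  refine ⟨3 * A, by positivity, fun N _ χ hχ σ t h1 h2 S hS => ?_⟩
  have hN : (1 : ℝ) ≤ N := by exact_mod_cast NeZero.one_le
  set s₀ : ℂ := σ + t * Complex.I with hs₀
  have hre : s₀.re = σ := by simp [hs₀]
  have him : s₀.im = t := by simp [hs₀]
  have hs1 : 1 < s₀.re := by rw [hre]; exact h1
  have hlow := lab2_lower N χ s₀ hs1
  rw [← DirichletCharacter.LFunction_eq_LSeries χ hs1, hre] at hlow
  have hσ0 : 0 < σ := by linarith
  have hσ1 : 0 < σ - 1 := by linarith
  have hf0 : 0 < ‖χ.LFunction s₀‖ := lt_of_lt_of_le (by positivity) hlow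
  have ht : 0 ≤ |t| := abs_nonneg t
  set T : ℝ := 2 * N * (|t| + 3) * (σ / (σ - 1)) with hT
  have hq1 : 1 ≤ σ / (σ - 1) := by
    rw [le_div_iff₀ hσ1]
    linarith
  have hT1 : 1 ≤ T := by
    have e1 : 1 ≤ 2 * (N : ℝ) * (|t| + 3) := by nlinarith
    calc (1 : ℝ) = 1 * 1 := (one_mul 1).symm
      _ ≤ T := mul_le_mul e1 hq1 zero_le_one (by positivity)
  have hb : ∀ s ∈ Metric.closedBall s₀ (1 / 2), ‖χ.LFunction s‖ ≤
      Real.exp (Real.log T) * ‖χ.LFunction s₀‖ := by
    intro s hs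
    rw [Real.exp_log (by linarith)]
    rw [Metric.mem_closedBall, dist_eq_norm] at hs
    have e1 : |s.re - s₀.re| ≤ 1 / 2 := by
      have := Complex.abs_re_le_norm (s - s₀)
      rw [Complex.sub_re] at this
      linarith
    have e2 : 1 / 2 ≤ s.re := by
      rw [hre] at e1
      linarith [(abs_le.1 e1).1]
    refine (LFunction_bound N χ hχ s e2).trans ?_
    have e3 : ‖s‖ ≤ |t| + 3 := by
      have h5 : ‖s‖ ≤ ‖s₀‖ + ‖s - s₀‖ := by
        have := norm_add_le s₀ (s - s₀)
        simpa using this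
      have h6 : ‖s₀‖ ≤ σ + |t| := by
        refine (Complex.norm_le_abs_re_add_abs_im s₀).trans ?_
        rw [hre, him, abs_of_pos hσ0]
      linarith
    have e4 : 2 * (N : ℝ) * ‖s‖ ≤ 2 * N * (|t| + 3) :=
      mul_le_mul_of_nonneg_left e3 (by positivity)
    refine e4.trans ?_
    have e5 : 1 ≤ σ / (σ - 1) * ‖χ.LFunction s₀‖ := by
      have e6 : σ / (σ - 1) * ((σ - 1) / σ) = 1 := by field_simp
      exact e6.symm.le.trans (mul_le_mul_of_nonneg_left hlow (by positivity))
    calc 2 * (N : ℝ) * (|t| + 3) = 2 * N * (|t| + 3) * 1 := (mul_one _).symm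
      _ ≤ 2 * N * (|t| + 3) * (σ / (σ - 1) * ‖χ.LFunction s₀‖) :=
          mul_le_mul_of_nonneg_left e5 (by positivity)
      _ = T * ‖χ.LFunction s₀‖ := by rw [hT]; ring
  have han : AnalyticOnNhd ℂ χ.LFunction (Metric.closedBall s₀ (1 / 2)) := fun z _ =>
    ((DirichletCharacter.differentiable_LFunction hχ).analyticAt z)
  have hzero : ∀ ρ, χ.LFunction ρ = 0 → ρ.re < s₀.re := by
    intro ρ hρ
    by_contra hcon
    push Not at hcon
    exact DirichletCharacter.LFunction_ne_zero_of_one_le_re χ (Or.inl hχ) (by linarith) hρ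
  have h3 := hcore χ.LFunction s₀ (Real.log T) (Real.log_nonneg hT1) han (norm_pos_iff.1 hf0) hb
    hzero S hS
  rw [lab1_char N χ s₀ hs1, Complex.neg_re]
  refine h3.trans ?_
  have hlogT : Real.log T = Real.log 2 + Real.log N + Real.log (|t| + 3) +
      (Real.log σ + Real.log (1 / (σ - 1))) := by
    have e1 : T = 2 * N * (|t| + 3) * (σ * (1 / (σ - 1))) := by rw [hT]; ring
    rw [e1, Real.log_mul (by positivity) (by positivity), Real.log_mul (by positivity)
      (by positivity), Real.log_mul (by positivity) (by positivity),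
      Real.log_mul (by positivity) (by positivity)]
  have l1 : Real.log 2 ≤ 1 := by linarith [Real.log_two_lt_d9]
  have l2 : Real.log σ ≤ 1 := by
    have := Real.log_le_sub_one_of_pos hσ0
    linarith
  have l3 : 0 ≤ Real.log N := Real.log_nonneg hN
  have l4 : 0 ≤ Real.log (|t| + 3) := Real.log_nonneg (by linarith)
  have l5 : 0 ≤ Real.log (1 / (σ - 1)) := by
    apply Real.log_nonneg
    rw [le_div_iff₀ hσ1]
    linarith
  have l6 : A * (Real.log T + 1) ≤ 3 * A * (Real.log N + Real.log (|t| + 3) +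
      Real.log (1 / (σ - 1)) + 1) := by
    have : Real.log T + 1 ≤ 3 * (Real.log N + Real.log (|t| + 3) +
      Real.log (1 / (σ - 1)) + 1) := by
      rw [hlogT]
      linarith
    nlinarith
  linarith

end Pool.Agent.Lib.H68T
end

-- from Lib.H68T.LAB3
section

/-!
# Chunk LAB3; part of LAB: real parts of logarithmic derivatives
-/

open Finset ArithmeticFunction

namespace Pool.Agent.Lib.H68T

theorem lab3_Z_zero (ρ : ℂ) (h : gl2_Z ρ = 0) : riemannZeta ρ = 0 := by
  have h1 : ρ ≠ 1 := by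
    rintro rfl
    rw [gl2_Z_one] at h
    exact one_ne_zero h
  rw [gl2_Z_eq ρ h1] at h
  exact (mul_eq_zero.1 h).resolve_left (sub_ne_zero.2 h1)

theorem lab3_zeta_zero (ρ : ℂ) (h : riemannZeta ρ = 0) : gl2_Z ρ = 0 := by
  have h1 : ρ ≠ 1 := by
    rintro rfl
    exact riemannZeta_ne_zero_of_one_le_re (by simp) h
  rw [gl2_Z_eq ρ h1, h, mul_zero]

/-- The same for `ζ`, with `f(s) = (s-1) ζ(s)` (value `1` at `s = 1`), `zeta_bound`,
`‖f(s₀)‖ ≥ (σ-1)²/σ`. -/
theorem re_zeta : ∃ C : ℝ, 0 < C ∧ ∀ σ t : ℝ, 1 < σ → σ ≤ 5 / 4 → ∀ S : Finset ℂ,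
    (∀ ρ ∈ S, riemannZeta ρ = 0 ∧ ‖ρ - (σ + t * Complex.I)‖ ≤ 1 / 4) →
    (LSeries (fun n => (vonMangoldt n : ℂ)) (σ + t * Complex.I)).re ≤
      (1 / (σ + t * Complex.I - 1)).re +
      C * (Real.log (|t| + 3) + Real.log (1 / (σ - 1)) + 1) -
        ∑ ρ ∈ S, (1 / (σ + t * Complex.I - ρ)).re := by
  obtain ⟨A, hA, hcore⟩ := lab2_core
  refine ⟨5 * A, by positivity, fun σ t h1 h2 S hS => ?_⟩
  set s₀ : ℂ := σ + t * Complex.I with hs₀
  have hre : s₀.re = σ := by simp [hs₀]
  have him : s₀.im = t := by simp [hs₀]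
  have hs1 : 1 < s₀.re := by rw [hre]; exact h1
  have hne1 : s₀ ≠ 1 := by
    intro h
    rw [h] at hs1
    simp at hs1
  have hσ0 : 0 < σ := by linarith
  have hσ1 : 0 < σ - 1 := by linarith
  have hlow : (σ - 1) * ((σ - 1) / σ) ≤ ‖gl2_Z s₀‖ := by
    have e1 := lab2_lower 1 1 s₀ hs1
    have e2 : LSeries (fun n => (1 : DirichletCharacter ℂ 1) (n : ZMod 1)) s₀ =
        riemannZeta s₀ := by
      rw [← DirichletCharacter.LFunction_eq_LSeries (1 : DirichletCharacter ℂ 1) hs1,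
        DirichletCharacter.LFunction_modOne_eq]
    rw [e2, hre] at e1
    rw [gl2_Z_eq s₀ hne1, norm_mul]
    refine mul_le_mul ?_ e1 (by positivity) (norm_nonneg _)
    have e3 := Complex.abs_re_le_norm (s₀ - 1)
    rw [Complex.sub_re, hre, Complex.one_re, abs_of_pos hσ1] at e3
    exact e3
  have hf0 : 0 < ‖gl2_Z s₀‖ := lt_of_lt_of_le (by positivity) hlow
  have ht : 0 ≤ |t| := abs_nonneg t
  set T : ℝ := 16 * ((|t| + 3) * (|t| + 3)) * (σ * (1 / (σ - 1)) * (1 / (σ - 1))) with hT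
  have hq0 : 1 ≤ 1 / (σ - 1) := by
    rw [le_div_iff₀ hσ1]
    linarith
  have hq1 : 1 ≤ σ * (1 / (σ - 1)) * (1 / (σ - 1)) := by
    have e1 : 1 ≤ σ * (1 / (σ - 1)) := by nlinarith
    nlinarith
  have hT1 : 1 ≤ T := by
    have e1 : 1 ≤ 16 * ((|t| + 3) * (|t| + 3)) := by nlinarith
    calc (1 : ℝ) = 1 * 1 := (one_mul 1).symm
      _ ≤ T := mul_le_mul e1 hq1 zero_le_one (by positivity)
  have hb : ∀ s ∈ Metric.closedBall s₀ (1 / 2), ‖gl2_Z s‖ ≤
      Real.exp (Real.log T) * ‖gl2_Z s₀‖ := by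
    intro s hs
    rw [Real.exp_log (by linarith)]
    rw [Metric.mem_closedBall, dist_eq_norm] at hs
    have e1 : |s.re - σ| ≤ 1 / 2 := by
      have := Complex.abs_re_le_norm (s - s₀)
      rw [Complex.sub_re, hre] at this
      linarith
    have e1' := abs_le.1 e1
    have e2 : |s.im - t| ≤ 1 / 2 := by
      have := Complex.abs_im_le_norm (s - s₀)
      rw [Complex.sub_im, him] at this
      linarith
    refine (gl2_Z_bound s (by linarith [e1'.1]) (by linarith [e1'.2])).trans ?_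
    have e3 : |s.im| ≤ |t| + 1 / 2 := by
      have := abs_sub_abs_le_abs_sub s.im t
      linarith
    have e4 : 4 * (|s.im| + 3) ^ 2 ≤ 16 * ((|t| + 3) * (|t| + 3)) := by
      have e5 : |s.im| + 3 ≤ 2 * (|t| + 3) := by linarith
      have e6 : 0 ≤ |s.im| + 3 := by positivity
      nlinarith
    refine e4.trans ?_
    have e5 : 1 ≤ (σ * (1 / (σ - 1)) * (1 / (σ - 1))) * ‖gl2_Z s₀‖ := by
      have e6 : (σ * (1 / (σ - 1)) * (1 / (σ - 1))) * ((σ - 1) * ((σ - 1) / σ)) = 1 := by
        field_simp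
      exact e6.symm.le.trans (mul_le_mul_of_nonneg_left hlow (by positivity))
    calc 16 * ((|t| + 3) * (|t| + 3)) = 16 * ((|t| + 3) * (|t| + 3)) * 1 := (mul_one _).symm
      _ ≤ 16 * ((|t| + 3) * (|t| + 3)) * ((σ * (1 / (σ - 1)) * (1 / (σ - 1))) * ‖gl2_Z s₀‖) :=
          mul_le_mul_of_nonneg_left e5 (by positivity)
      _ = T * ‖gl2_Z s₀‖ := by rw [hT]; ring
  have han : AnalyticOnNhd ℂ gl2_Z (Metric.closedBall s₀ (1 / 2)) := fun z _ =>
    gl2_Z_differentiable.analyticAt z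
  have hzero : ∀ ρ, gl2_Z ρ = 0 → ρ.re < s₀.re := by
    intro ρ hρ
    by_contra hcon
    push Not at hcon
    exact riemannZeta_ne_zero_of_one_le_re (by linarith) (lab3_Z_zero ρ hρ)
  have h3 := hcore gl2_Z s₀ (Real.log T) (Real.log_nonneg hT1) han (norm_pos_iff.1 hf0) hb
    hzero S (fun ρ hρ => ⟨lab3_zeta_zero ρ (hS ρ hρ).1, (hS ρ hρ).2⟩)
  rw [lab1_Z s₀ hs1, Complex.sub_re]
  have hlogT : Real.log T = Real.log 16 + (Real.log (|t| + 3) + Real.log (|t| + 3)) +
      (Real.log σ + Real.log (1 / (σ - 1)) + Real.log (1 / (σ - 1))) := by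
    rw [hT, Real.log_mul (by positivity) (by positivity), Real.log_mul (by positivity)
      (by positivity), Real.log_mul (by positivity) (by positivity),
      Real.log_mul (by positivity) (by positivity), Real.log_mul (by positivity) (by positivity)]
  have l1 : Real.log 16 ≤ 3 := by
    have e1 : (16 : ℝ) = 2 ^ 4 := by norm_num
    rw [e1, Real.log_pow]
    have := Real.log_two_lt_d9
    push_cast
    linarith
  have l2 : Real.log σ ≤ 1 := by
    have := Real.log_le_sub_one_of_pos hσ0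
    linarith
  have l4 : 0 ≤ Real.log (|t| + 3) := Real.log_nonneg (by linarith)
  have l5 : 0 ≤ Real.log (1 / (σ - 1)) := Real.log_nonneg hq0
  have l6 : A * (Real.log T + 1) ≤ 5 * A * (Real.log (|t| + 3) +
      Real.log (1 / (σ - 1)) + 1) := by
    have : Real.log T + 1 ≤ 5 * (Real.log (|t| + 3) +
      Real.log (1 / (σ - 1)) + 1) := by
      rw [hlogT]
      linarith
    nlinarith
  linarith

end Pool.Agent.Lib.H68T
end

-- from Lib.H68T.ZF1
section

/-!
# Chunk ZF1; part of ZF1, ZF2, ZF3: zero-free regions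
(`L := log Q`; all `log N, log(|t|+3), log(1/(σ-1))` in `re_char` are `O(L)` for `N ≤ Q^2`,
`|t| ≤ 2 Q^12 + 2`, `σ = 1 + a/L`.)
-/

open Finset ArithmeticFunction

namespace Pool.Agent.Lib.H68T

/-- Bracket estimate: everything in `re_char` and `re_zeta` is `O(log Q)`. -/
theorem ZF1_bracket (a : ℝ) (ha : 0 < a) : ∃ K : ℝ, ∀ Q : ℕ, K ≤ Q →
    1 ≤ Real.log Q ∧ 8 * a ≤ Real.log Q ∧
    (∀ N : ℕ, 1 ≤ N → N ≤ Q → ∀ t : ℝ, |t| ≤ 2 * ((Q : ℝ) ^ 12 + 1) →
      Real.log N + Real.log (|t| + 3) +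
        Real.log (1 / (1 + a / Real.log Q - 1)) + 1 ≤ 17 * Real.log Q) := by
  refine ⟨Real.exp (1 + 8 * a + |Real.log a|) + 3, fun Q hQ => ?_⟩
  have h0 : 0 < Real.exp (1 + 8 * a + |Real.log a|) := Real.exp_pos _
  have hQ3 : (3 : ℝ) ≤ Q := by linarith
  have hQ0 : (0 : ℝ) < Q := by linarith
  have hL : 1 + 8 * a + |Real.log a| ≤ Real.log Q := by
    rw [Real.le_log_iff_exp_le hQ0]; linarith
  have habs := abs_nonneg (Real.log a)
  have hL1 : 1 ≤ Real.log Q := by linarith
  have hL0 : 0 < Real.log Q := by linarith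
  refine ⟨hL1, by linarith, fun N hN1 hNQ t ht => ?_⟩
  have h1 : Real.log N ≤ Real.log Q :=
    Real.log_le_log (by exact_mod_cast hN1) (by exact_mod_cast hNQ)
  have h2 : Real.log (|t| + 3) ≤ 13 * Real.log Q := by
    have e1 : |t| + 3 ≤ (Q : ℝ) ^ 13 := by
      have e2 : (1 : ℝ) ≤ (Q : ℝ) ^ 12 := one_le_pow₀ (by linarith)
      have e3 : (Q : ℝ) ^ 13 = (Q : ℝ) ^ 12 * Q := by ring
      rw [e3]
      have e4 : (Q : ℝ) ^ 12 * 3 ≤ (Q : ℝ) ^ 12 * Q :=
        mul_le_mul_of_nonneg_left hQ3 (by positivity)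
      have e5 : (5 : ℝ) ≤ (Q : ℝ) ^ 12 := by
        have : (3 : ℝ) ^ 12 ≤ (Q : ℝ) ^ 12 := pow_le_pow_left₀ (by norm_num) hQ3 12
        norm_num at this
        linarith
      linarith
    have e6 := Real.log_le_log (by positivity : 0 < |t| + 3) e1
    rw [Real.log_pow] at e6
    push_cast at e6
    linarith
  have h3 : Real.log (1 / (1 + a / Real.log Q - 1)) ≤ 2 * Real.log Q := by
    have e1 : 1 / (1 + a / Real.log Q - 1) = Real.log Q / a := by
      rw [add_sub_cancel_left, one_div, inv_div]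
    rw [e1, Real.log_div hL0.ne' ha.ne']
    have e2 : Real.log (Real.log Q) ≤ Real.log Q := by
      have := Real.log_le_sub_one_of_pos hL0
      linarith
    have e3 : -Real.log a ≤ |Real.log a| := neg_le_abs _
    linarith
  linarith

/-- **ZF1**, complex characters. `ρ = β + iγ` a zero, suppose `β ≥ 1 - c₁/L`, `σ = 1 + a/L`.
`three_four_one` at `t = γ`, `vonMangoldt_le`, `re_char` for `ψ` with `S = {ρ}` and for
`ψ² ≠ 1` with `S = ∅`: `0 ≤ 3 L/a + C' L - 4 L/(a + c₁)`, i.e. `4/(a + c₁) ≤ 3/a + C'`, false for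
`a = 1/(2C')`, `c₁ = a/8` (`3/a + C' = 3.5/a`). -/
theorem zero_free_complex : ∃ c₁ K : ℝ, 0 < c₁ ∧ ∀ Q : ℕ, K ≤ Q → ∀ (r : ℕ) [NeZero r]
    (ψ : DirichletCharacter ℂ r), r ≤ Q → ψ ^ 2 ≠ 1 → ∀ ρ : ℂ, ψ.LFunction ρ = 0 →
    |ρ.im| ≤ (Q : ℝ) ^ 12 + 1 → ρ.re < 1 - c₁ / Real.log Q := by
  obtain ⟨Cv, hCv, hv⟩ := vonMangoldt_le
  obtain ⟨Cc, hCc, hc⟩ := re_char
  set C' : ℝ := 3 * Cv + 85 * Cc with hC'
  have hC'0 : 0 < C' := by positivity
  set a : ℝ := 1 / (2 * C') with ha
  have ha0 : 0 < a := by positivity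
  have haC : a * C' = 1 / 2 := by rw [ha]; field_simp
  obtain ⟨K, hK⟩ := ZF1_bracket a ha0
  refine ⟨a / 8, K, by positivity, fun Q hQ r _ ψ hr hψ ρ hρ him => ?_⟩
  obtain ⟨hL1, hL8, hbr⟩ := hK Q hQ
  set L : ℝ := Real.log Q with hLdef
  have hL0 : 0 < L := by linarith
  by_contra hcon
  push Not at hcon
  have hψ1 : ψ ≠ 1 := by
    rintro rfl
    exact hψ (one_pow 2)
  have hβ1 : ρ.re < 1 := by
    by_contra h
    push Not at h
    exact DirichletCharacter.LFunction_ne_zero_of_one_le_re ψ (Or.inl hψ1) h hρ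
  set σ : ℝ := 1 + a / L with hσ
  have haL : 0 < a / L := by positivity
  have haL8 : a / L ≤ 1 / 8 := by
    rw [div_le_iff₀ hL0]; linarith
  have hσ1 : 1 < σ := by linarith
  have hσ2 : σ ≤ 5 / 4 := by linarith
  have hc8 : a / 8 / L = a / L / 8 := by ring
  rw [hc8] at hcon
  have hr1 : 1 ≤ r := Nat.one_le_iff_ne_zero.mpr (NeZero.ne r)
  have e0 : (σ : ℂ) + ρ.im * Complex.I - ρ = ((σ - ρ.re : ℝ) : ℂ) := by
    apply Complex.ext <;> simp
  -- the three terms
  have T0 := hv σ hσ1 (by linarith)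
  have T1 := hc r ψ hψ1 σ ρ.im hσ1 hσ2 {ρ} (by
    intro ρ' hρ'
    rw [Finset.mem_singleton] at hρ'
    subst hρ'
    refine ⟨hρ, ?_⟩
    rw [norm_sub_rev, e0, Complex.norm_real, Real.norm_eq_abs, abs_of_pos (by linarith)]
    linarith)
  rw [Finset.sum_singleton, e0] at T1
  have e1 : (1 / ((σ - ρ.re : ℝ) : ℂ)).re = 1 / (σ - ρ.re) := by
    rw [← Complex.ofReal_one, ← Complex.ofReal_div, Complex.ofReal_re]
  rw [e1] at T1
  have T2 := hc r (ψ ^ 2) hψ σ (2 * ρ.im) hσ1 hσ2 ∅ (by simp)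
  rw [Finset.sum_empty] at T2
  have T3 := three_four_one r ψ σ ρ.im hσ1
  have B1 := hbr r hr1 hr ρ.im (by
    have := abs_nonneg ρ.im
    linarith)
  have B2 := hbr r hr1 hr (2 * ρ.im) (by
    rw [abs_mul, abs_of_pos (by norm_num : (0 : ℝ) < 2)]
    linarith)
  have B1' := mul_le_mul_of_nonneg_left B1 hCc.le
  have B2' := mul_le_mul_of_nonneg_left B2 hCc.le
  push_cast at T2
  have e2 : 1 / (σ - 1) = L / a := by
    rw [hσ, add_sub_cancel_left, one_div, inv_div]
  rw [e2] at T0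
  have e3 : L / (9 * a / 8) ≤ 1 / (σ - ρ.re) := by
    rw [div_le_div_iff₀ (by positivity) (by linarith)]
    have : L * (a / L) = a := by field_simp
    have h5 : L * (σ - ρ.re) ≤ L * (9 * (a / L) / 8) :=
      mul_le_mul_of_nonneg_left (by linarith) hL0.le
    have h6 : L * (9 * (a / L) / 8) = 9 * a / 8 := by
      rw [show L * (9 * (a / L) / 8) = 9 * (L * (a / L)) / 8 by ring, this]
    linarith
  have e4 : L / (9 * a / 8) = (8 / 9) * (L / a) := by
    field_simp
  rw [e4] at e3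
  have e5 : C' * L = (L / a) / 2 := by
    have : C' = 1 / (2 * a) := by
      rw [eq_div_iff (by positivity)]; linarith
    rw [this]; field_simp
  have hLa : 0 < L / a := by positivity
  have hCvL : Cv ≤ Cv * L := le_mul_of_one_le_right hCv.le hL1
  have : 0 ≤ 3 * (L / a) + C' * L - 4 * (8 / 9 * (L / a)) := by
    rw [hC']
    linarith
  rw [e5] at this
  linarith

end Pool.Agent.Lib.H68T
end
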