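import Pool.Agent.Lib.H1M.RV.M001
import Pool.Agent.Lib.H1M.RV.M003
import Pool.Agent.Lib.H1M.RV.M005
import Pool.Agent.Lib.H1M.RV.M010
import Pool.Agent.Lib.H1M.RV.M012
import Pool.Agent.Lib.H1M.RV.M021

/-! Merged copies (to shorten the build) of Lib.H15P.LV1, Lib.H92G.G5, Lib.H92G.W1, Lib.H18GB.Pars, Lib.H68T.LONG1, Lib.H68T.LONG2, Lib.H15P.LV3, Lib.H15P.LV4, Lib.H92G.G4, Lib.H68T.ZF3. -/

-- from Lib.H15P.LV1
section

/-!
# Chunk LV1: the level norm
-/

open Finset

namespace Pool.Agent.Lib.H15P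

variable {Q : ℕ}

theorem Lev.nonneg {G : ℕ → ℝ} {K : ℝ} (h : Lev Q G K) : 0 ≤ K := by
  induction h with
  | base g d c hd0 hd hper hc =>
    have hc0 : 0 ≤ c := le_trans (abs_nonneg _) (hc 0)
    positivity
  | add G G' K K' h h' ih ih' => exact add_nonneg ih ih'
  | mono G K K' h hK ih => exact ih.trans hK

theorem Lev.const (hQ : 0 < Q) (c : ℝ) : Lev Q (fun _ => c) |c| := by
  have h := Lev.base (Q := Q) (fun _ => c) 1 |c| one_pos (one_dvd Q) (fun _ => rfl)
    (fun _ => le_rfl)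
  exact Lev.mono _ _ _ h (by simp)

theorem Lev.const_mul {G : ℕ → ℝ} {K : ℝ} (h : Lev Q G K) (c : ℝ) :
    Lev Q (fun t => c * G t) (|c| * K) := by
  induction h with
  | base g d c' hd0 hd hper hc =>
    have h1 := Lev.base (Q := Q) (fun t => c * g t) d (|c| * c') hd0 hd
      (fun t => by simp only [hper t]) (fun t => by
        rw [abs_mul]
        exact mul_le_mul_of_nonneg_left (hc t) (abs_nonneg c))
    exact Lev.mono _ _ _ h1 (by nlinarith)
  | add G G' K K' h h' ih ih' =>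
    have h1 := Lev.add _ _ _ _ ih ih'
    have h2 : (fun t => c * G t + c * G' t) = fun t => c * (G t + G' t) := by
      funext t
      ring
    rw [h2] at h1
    exact Lev.mono _ _ _ h1 (by nlinarith)
  | mono G K K' h hK ih =>
    exact Lev.mono _ _ _ ih (mul_le_mul_of_nonneg_left hK (abs_nonneg c))

theorem lv1_mul_base {g : ℕ → ℝ} {d : ℕ} {c : ℝ} (hd0 : 0 < d) (hd : d ∣ Q)
    (hper : Function.Periodic g d) (hc : ∀ t, |g t| ≤ c) {G' : ℕ → ℝ} {K' : ℝ}
    (h' : Lev Q G' K') : Lev Q (fun t => g t * G' t) (d * c * K') := by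
  have hc0 : 0 ≤ c := le_trans (abs_nonneg _) (hc 0)
  induction h' with
  | base g' d' c' hd0' hd' hper' hc' =>
    have hc0' : 0 ≤ c' := le_trans (abs_nonneg _) (hc' 0)
    have hl : 0 < Nat.lcm d d' := Nat.lcm_pos hd0 hd0'
    have hl' : Nat.lcm d d' ∣ Q := Nat.lcm_dvd hd hd'
    have hp : Function.Periodic (fun t => g t * g' t) (Nat.lcm d d') := by
      intro t
      obtain ⟨k, hk⟩ := Nat.dvd_lcm_left d d'
      obtain ⟨k', hk'⟩ := Nat.dvd_lcm_right d d'
      have h1 : g (t + Nat.lcm d d') = g t := by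
        rw [hk, mul_comm]
        simpa using (hper.nat_mul k) t
      have h2 : g' (t + Nat.lcm d d') = g' t := by
        rw [hk', mul_comm]
        simpa using (hper'.nat_mul k') t
      show g (t + Nat.lcm d d') * g' (t + Nat.lcm d d') = g t * g' t
      rw [h1, h2]
    have h1 := Lev.base (Q := Q) (fun t => g t * g' t) (Nat.lcm d d') (c * c') hl hl' hp
      (fun t => by
        rw [abs_mul]
        exact mul_le_mul (hc t) (hc' t) (abs_nonneg _) hc0)
    refine Lev.mono _ _ _ h1 ?_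
    have h2 : ((Nat.lcm d d' : ℕ) : ℝ) ≤ d * d' := by
      exact_mod_cast Nat.le_of_dvd (Nat.mul_pos hd0 hd0') (Nat.lcm_dvd_mul d d')
    calc ((Nat.lcm d d' : ℕ) : ℝ) * (c * c') ≤ (d * d') * (c * c') :=
          mul_le_mul_of_nonneg_right h2 (mul_nonneg hc0 hc0')
      _ = d * c * (d' * c') := by ring
  | add G G' K K' h h' ih ih' =>
    have h1 := Lev.add _ _ _ _ ih ih'
    have h2 : (fun t => g t * G t + g t * G' t) = fun t => g t * (G t + G' t) := by
      funext t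
      ring
    rw [h2] at h1
    exact Lev.mono _ _ _ h1 (by nlinarith)
  | mono G K K' h hK ih =>
    exact Lev.mono _ _ _ ih (mul_le_mul_of_nonneg_left hK (by positivity))

/-- Double induction; the product of functions with periods `d, d' ∣ Q` has the period
`lcm d d' ∣ Q`, `lcm d d' ≤ d d'`. -/
theorem Lev.mul (hQ : 0 < Q) {G G' : ℕ → ℝ} {K K' : ℝ} (h : Lev Q G K) (h' : Lev Q G' K') :
    Lev Q (fun t => G t * G' t) (K * K') := by
  have hK0' := h'.nonneg
  induction h with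
  | base g d c hd0 hd hper hc => exact lv1_mul_base hd0 hd hper hc h'
  | add G1 G2 K1 K2 h1 h2 ih1 ih2 =>
    have h3 := Lev.add _ _ _ _ ih1 ih2
    have h4 : (fun t => G1 t * G' t + G2 t * G' t) = fun t => (G1 t + G2 t) * G' t := by
      funext t
      ring
    rw [h4] at h3
    exact Lev.mono _ _ _ h3 (by nlinarith)
  | mono G K1 K2 h hK ih =>
    exact Lev.mono _ _ _ ih (mul_le_mul_of_nonneg_right hK hK0')

theorem Lev.sum {α : Type} (s : Finset α) (G : α → ℕ → ℝ) (K : α → ℝ)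
    (hQ : 0 < Q) (h : ∀ a ∈ s, Lev Q (G a) (K a)) :
    Lev Q (fun t => ∑ a ∈ s, G a t) (∑ a ∈ s, K a) := by
  classical
  induction s using Finset.induction_on with
  | empty =>
    have h1 := Lev.const hQ 0
    rw [abs_zero] at h1
    simpa using h1
  | insert a s ha ih =>
    have h1 := Lev.add _ _ _ _ (h a (Finset.mem_insert_self a s))
      (ih fun b hb => h b (Finset.mem_insert_of_mem hb))
    rw [Finset.sum_insert ha]
    have h2 : (fun t => ∑ b ∈ insert a s, G b t) = fun t => G a t + ∑ b ∈ s, G b t := by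
      funext t
      rw [Finset.sum_insert ha]
    rw [h2]
    exact h1

theorem Lev.prod {α : Type} (s : Finset α) (G : α → ℕ → ℝ) (K : α → ℝ)
    (hQ : 0 < Q) (h : ∀ a ∈ s, Lev Q (G a) (K a)) :
    Lev Q (fun t => ∏ a ∈ s, G a t) (∏ a ∈ s, K a) := by
  classical
  induction s using Finset.induction_on with
  | empty =>
    have h1 := Lev.const hQ 1
    rw [abs_one] at h1
    simpa using h1
  | insert a s ha ih =>
    have h1 := Lev.mul hQ (h a (Finset.mem_insert_self a s))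
      (ih fun b hb => h b (Finset.mem_insert_of_mem hb))
    rw [Finset.prod_insert ha]
    have h2 : (fun t => ∏ b ∈ insert a s, G b t) = fun t => G a t * ∏ b ∈ s, G b t := by
      funext t
      rw [Finset.prod_insert ha]
    rw [h2]
    exact h1

theorem Lev.pow (hQ : 0 < Q) {G : ℕ → ℝ} {K : ℝ} (h : Lev Q G K) (n : ℕ) :
    Lev Q (fun t => G t ^ n) (K ^ n) := by
  have h1 := Lev.prod (Finset.range n) (fun _ => G) (fun _ => K) hQ (fun _ _ => h)
  simpa using h1

theorem lv1_range_mul (d : ℕ) (g : ℕ → ℝ) (hg : Function.Periodic g d) (k : ℕ) :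
    ∑ t ∈ range (k * d), g t = k * ∑ t ∈ range d, g t := by
  rw [← H56G.crt_sum_Icc_mul d g hg k]
  have h1 : Function.Periodic g (k * d) := by
    have := hg.nat_mul k
    simpa using this
  rw [← H56G.crt_sum_Icc_period (k * d) g h1 1]

theorem lv1_avg_base {g : ℕ → ℝ} {d : ℕ} {c : ℝ} (hQ : 0 < Q) (hd0 : 0 < d) (hd : d ∣ Q)
    (hper : Function.Periodic g d) (hc : ∀ t, |g t| ≤ c) (a Y : ℕ) :
    |∑ t ∈ Ico a (a + Y), g t - Y * ((∑ t ∈ range Q, g t) / Q)| ≤ 2 * (d * c) := by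
  have hF : Function.Periodic (fun t => g (t + (a + (d - 1)))) d := by
    intro t
    show g (t + d + (a + (d - 1))) = g (t + (a + (d - 1)))
    have h1 : t + d + (a + (d - 1)) = t + (a + (d - 1)) + d := by ring
    rw [h1]
    exact hper _
  have h := H56G.abs_sum_Icc_sub_le d hd0 (fun t => g (t + (a + (d - 1)))) hF c
    (fun t => hc _) Y
  have h1 : ∑ t ∈ Icc 1 Y, g (t + (a + (d - 1))) = ∑ t ∈ Ico a (a + Y), g t := by
    have h2 : Ico a (a + Y) = (range Y).image (fun t => t + a) := by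
      ext t
      simp only [Finset.mem_Ico, Finset.mem_image, Finset.mem_range]
      constructor
      · rintro ⟨h3, h4⟩
        exact ⟨t - a, by omega, by omega⟩
      · rintro ⟨u, h3, rfl⟩
        omega
    have h3 : Icc 1 Y = (range Y).image (fun t => t + 1) := by
      ext t
      simp only [Finset.mem_Icc, Finset.mem_image, Finset.mem_range]
      constructor
      · rintro ⟨h3, h4⟩
        exact ⟨t - 1, by omega, by omega⟩
      · rintro ⟨u, h3, rfl⟩
        omega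
    rw [h2, h3, Finset.sum_image (fun x _ y _ h => by simpa using h),
      Finset.sum_image (fun x _ y _ h => by simpa using h)]
    apply Finset.sum_congr rfl
    intro t _
    have h4 : t + 1 + (a + (d - 1)) = t + a + d := by omega
    rw [h4]
    exact hper _
  have h2 : ∑ t ∈ range d, g (t + (a + (d - 1))) = ∑ t ∈ range d, g t := by
    rw [← H56G.crt_sum_Icc_period d g hper (a + (d - 1))]
    have h3 : Ico (a + (d - 1)) (a + (d - 1) + d) =
        (range d).image (fun t => t + (a + (d - 1))) := by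
      ext t
      simp only [Finset.mem_Ico, Finset.mem_image, Finset.mem_range]
      constructor
      · rintro ⟨h3, h4⟩
        exact ⟨t - (a + (d - 1)), by omega, by omega⟩
      · rintro ⟨u, h3, rfl⟩
        omega
    rw [h3, Finset.sum_image (fun x _ y _ h => by simpa using h)]
  obtain ⟨k, hk⟩ := hd
  have hk0 : 0 < k := by
    rcases Nat.eq_zero_or_pos k with h3 | h3
    · subst h3
      omega
    · exact h3
  have h3 : (∑ t ∈ range Q, g t) / (Q : ℝ) = (∑ t ∈ range d, g t) / d := by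
    rw [hk, mul_comm d k, lv1_range_mul d g hper k]
    push_cast
    have hk' : (k : ℝ) ≠ 0 := by exact_mod_cast hk0.ne'
    have hd' : (d : ℝ) ≠ 0 := by exact_mod_cast hd0.ne'
    field_simp
  rw [h1, h2] at h
  rw [h3]
  refine h.trans (le_of_eq ?_)
  ring

/-- Incomplete sums. Each term `g` (period `d`, `|g| ≤ c`) contributes at most `2 d c`:
`H56G.abs_sum_Icc_sub_le` for the translate `t ↦ g (t + a - 1)` (or directly), and the mean value
over `range Q` is the mean value over `range d` as `d ∣ Q`. Induction over `Lev`. -/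
theorem Lev.avg (hQ : 0 < Q) {G : ℕ → ℝ} {K : ℝ} (h : Lev Q G K) (a Y : ℕ) :
    |∑ t ∈ Ico a (a + Y), G t - Y * ((∑ t ∈ range Q, G t) / Q)| ≤ 2 * K := by
  induction h with
  | base g d c hd0 hd hper hc => exact lv1_avg_base hQ hd0 hd hper hc a Y
  | add G G' K K' h h' ih ih' =>
    have h1 : ∑ t ∈ Ico a (a + Y), (G t + G' t) -
        Y * ((∑ t ∈ range Q, (G t + G' t)) / Q) =
        (∑ t ∈ Ico a (a + Y), G t - Y * ((∑ t ∈ range Q, G t) / Q)) +
        (∑ t ∈ Ico a (a + Y), G' t - Y * ((∑ t ∈ range Q, G' t) / Q)) := by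
      rw [Finset.sum_add_distrib, Finset.sum_add_distrib]
      ring
    rw [h1]
    refine (abs_add_le _ _).trans ?_
    linarith
  | mono G K K' h hK ih => linarith

end Pool.Agent.Lib.H15P
end

-- from Lib.H92G.G5
section

/-!
# Chunk G5: the main moments of the weight
-/

open Finset

namespace Pool.Agent.Lib.H92G

open Pool.Agent.Lib.H15P

variable {ι J I : Type} [Fintype ι] [DecidableEq ι] [Fintype J] [DecidableEq J] [Fintype I]
  [DecidableEq I]

theorem g5_mem_adm {B : Finset J} {m : I → ℕ} {l : J → Option I} :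
    l ∈ adm B m ↔ (∀ j, j ∉ B → l j = none) ∧ ∀ i, cnt l i ≤ m i := by
  unfold adm
  simp

theorem g5_prod_nonneg (q : ι → ℝ) (D : J → I → Finset ι → ℝ) (h : ℝ) (hg : GoodJ q D h)
    (l : J → Option I) : 0 ≤ ∏ j, GJ q D j (l j) :=
  Finset.prod_nonneg fun j _ => GJ_nonneg q D h hg j _

/-- Sums over admissible labelings. -/
theorem g5_sum_adm_le (q : ι → ℝ) (D : J → I → Finset ι → ℝ) (h : ℝ) (hg : GoodJ q D h)
    (m : I → ℕ) (B : Finset J) : ∑ l ∈ adm B m, ∏ j, GJ q D j (l j) ≤ ZG q D B := by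
  unfold ZG
  rw [← sum_suppJ (fun j o => GJ q D j o) (fun j => rfl) B]
  apply Finset.sum_le_sum_of_subset_of_nonneg
  · intro l hl
    rw [g5_mem_adm] at hl
    rw [mem_filter]
    exact ⟨mem_univ _, hl.1⟩
  · intro l _ _
    exact g5_prod_nonneg q D h hg l

/-- `EX_LW_sq`, `adm B m` is a subset of the labelings supported in `B`, `sum_suppJ`. -/
theorem EX_LG_sq_le (q : ι → ℝ) (D : J → I → Finset ι → ℝ) (h : ℝ) (hg : GoodJ q D h)
    (m : I → ℕ) (B : Finset J) :
    EX q (fun S : J → Finset ι => LG D m B S ^ 2) ≤ ZG q D B := by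
  unfold LG
  rw [EX_LW_sq q D h hg]
  simp only [one_pow, one_mul]
  exact g5_sum_adm_le q D h hg m B

/-- The majorant used if no prime divides the forms of `Z`: `EX_LW_sq_mul` with `F = lm`;
`w^2 ≤ wm^2`; `sum_suppJ`; `ZG (B \ Z) ≤ ZG B`. -/
theorem EX_maj_le (q : ι → ℝ) (D : J → I → Finset ι → ℝ) (h : ℝ) (hg : GoodJ q D h)
    (m : I → ℕ) (B Z : Finset J) (wm : ℝ) (hw : ∀ l, |wZ D m Z l| ≤ wm)
    (lm : Finset ι → ℝ) (hlm : ∀ A, 0 ≤ lm A) :
    EX q (fun S : J → Finset ι => LW D (adm (B \ Z) m) (wZ D m Z) S ^ 2 * ∏ j ∈ Z, lm (S j))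
      ≤ wm ^ 2 * ZG q D B * ex q lm ^ Z.card := by
  have hZ : ∀ l ∈ adm (B \ Z) m, ∀ j ∈ Z, l j = none := by
    intro l hl j hj
    rw [g5_mem_adm] at hl
    exact hl.1 j (fun h => (mem_sdiff.1 h).2 hj)
  rw [EX_LW_sq_mul q D h hg (adm (B \ Z) m) (wZ D m Z) Z hZ lm]
  apply mul_le_mul_of_nonneg_right _ (pow_nonneg (ex_nonneg q hg.q0 hg.q1 _ hlm) _)
  calc ∑ l ∈ adm (B \ Z) m, wZ D m Z l ^ 2 * ∏ j, GJ q D j (l j)
      ≤ ∑ l ∈ adm (B \ Z) m, wm ^ 2 * ∏ j, GJ q D j (l j) := by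
        apply Finset.sum_le_sum
        intro l _
        apply mul_le_mul_of_nonneg_right _ (g5_prod_nonneg q D h hg l)
        rw [← sq_abs]
        exact pow_le_pow_left₀ (abs_nonneg _) (hw l) 2
    _ = wm ^ 2 * ∑ l ∈ adm (B \ Z) m, ∏ j, GJ q D j (l j) := by rw [Finset.mul_sum]
    _ ≤ wm ^ 2 * ZG q D B := by
        apply mul_le_mul_of_nonneg_left _ (sq_nonneg _)
        exact (g5_sum_adm_le q D h hg m _).trans (ZG_mono q D h hg sdiff_subset)




/-- An allowed form `j0` (all values `D j0 i ∅ ≥ 0`), no prime divides it: `LG_restrict`,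
`EX_LW_sq_mul` with `F = 1[A = ∅]` (mean value `∏ (1 - q i)`), and for the labelings `l` without
saturated label the coefficient is `1 + ∑ D j0 i ∅` (`wZ_single`); `sum_unsat_ge` for the set
`B \ {j0}`. -/
theorem EX_prime_ge (q : ι → ℝ) (D : J → I → Finset ι → ℝ) (h : ℝ) (hg : GoodJ q D h)
    (m : I → ℕ) (B : Finset J) (R : I → ℝ)
    (hm : ∀ i, 2 * ∑ j ∈ B, GJ q D j (some i) + R i ≤ m i) (j0 : J) (hj0 : j0 ∈ B)
    (hD : ∀ i, 0 ≤ D j0 i ∅) :
    (1 + ∑ i, D j0 i ∅) ^ 2 * (1 - ∑ i, Real.exp (-R i)) * ZG q D (B.erase j0) *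
        ∏ i, (1 - q i)
      ≤ EX q (fun S : J → Finset ι => LG D m B S ^ 2 * (if S j0 = ∅ then 1 else 0)) := by
  classical
  have hZ : ∀ l ∈ adm (B \ {j0}) m, ∀ j ∈ ({j0} : Finset J), l j = none := by
    intro l hl j hj
    rw [g5_mem_adm] at hl
    exact hl.1 j (fun h => (mem_sdiff.1 h).2 hj)
  set F : Finset ι → ℝ := fun A => if A = ∅ then 1 else 0 with hF
  have e0 : (fun S : J → Finset ι => LG D m B S ^ 2 * (if S j0 = ∅ then (1 : ℝ) else 0)) =
      fun S => LW D (adm (B \ {j0}) m) (wZ D m {j0}) S ^ 2 * ∏ j ∈ ({j0} : Finset J), F (S j) := by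
    funext S
    rw [Finset.prod_singleton]
    by_cases hS : S j0 = ∅
    · rw [LG_restrict D m B {j0} (singleton_subset_iff.2 hj0) S
        (fun j hj => by rw [mem_singleton.1 hj]; exact hS)]
    · simp only [hF, if_neg hS, mul_zero]
  rw [e0, EX_LW_sq_mul q D h hg (adm (B \ {j0}) m) (wZ D m {j0}) {j0} hZ F, card_singleton,
    pow_one]
  have e1 : ex q F = ∏ i, (1 - q i) := by
    unfold ex
    rw [Finset.sum_eq_single (∅ : Finset ι)]
    · simp only [hF, if_true, one_mul]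
      unfold bw
      simp
    · intro A _ hA
      simp only [hF, if_neg hA, zero_mul]
    · intro hA
      exact absurd (mem_univ _) hA
  rw [e1]
  apply mul_le_mul_of_nonneg_right _
    (Finset.prod_nonneg fun i _ => by have := hg.q1 i; linarith)
  set g : ℝ := 1 + ∑ i, D j0 i ∅ with hgdef
  have h3 : ∀ i, 2 * ∑ j ∈ B \ {j0}, GJ q D j (some i) + R i ≤ m i := by
    intro i
    have h6 : ∑ j ∈ B \ {j0}, GJ q D j (some i) ≤ ∑ j ∈ B, GJ q D j (some i) :=
      Finset.sum_le_sum_of_subset_of_nonneg sdiff_subset (fun j _ _ => GJ_nonneg q D h hg j _)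
    have := hm i
    linarith
  have h4 := sum_unsat_ge (fun j o => GJ q D j o) (fun j o => GJ_nonneg q D h hg j o)
    (fun j => rfl) (B \ {j0}) m R h3
  have e2 : ∏ j ∈ B \ {j0}, (1 + ∑ i, GJ q D j (some i)) = ZG q D (B.erase j0) := by
    unfold ZG
    rw [Finset.sdiff_singleton_eq_erase]
  rw [e2] at h4
  calc g ^ 2 * (1 - ∑ i, Real.exp (-R i)) * ZG q D (B.erase j0)
      = g ^ 2 * ((1 - ∑ i, Real.exp (-R i)) * ZG q D (B.erase j0)) := by ring
    _ ≤ g ^ 2 * ∑ l ∈ univ.filter (fun l : J → Option I => (∀ j, j ∉ B \ {j0} → l j = none) ∧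
        ∀ i, cnt l i < m i), ∏ j, GJ q D j (l j) :=
        mul_le_mul_of_nonneg_left h4 (sq_nonneg _)
    _ = ∑ l ∈ univ.filter (fun l : J → Option I => (∀ j, j ∉ B \ {j0} → l j = none) ∧
        ∀ i, cnt l i < m i), wZ D m {j0} l ^ 2 * ∏ j, GJ q D j (l j) := by
        rw [Finset.mul_sum]
        apply Finset.sum_congr rfl
        intro l hl
        rw [mem_filter] at hl
        have e3 : wZ D m {j0} l = g := by
          rw [wZ_single D m j0 l (fun i => (hl.2.2 i).le)]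
          rw [Finset.filter_true_of_mem (fun i _ => hl.2.2 i)]
        rw [e3]
    _ ≤ ∑ l ∈ adm (B \ {j0}) m, wZ D m {j0} l ^ 2 * ∏ j, GJ q D j (l j) := by
        apply Finset.sum_le_sum_of_subset_of_nonneg
        · intro l hl
          rw [mem_filter] at hl
          rw [g5_mem_adm]
          exact ⟨hl.2.1, fun i => (hl.2.2 i).le⟩
        · intro l _ _
          exact mul_nonneg (sq_nonneg _) (g5_prod_nonneg q D h hg l)

end Pool.Agent.Lib.H92G
end

-- from Lib.H92G.W1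
section

/-!
# Chunk W1: basic facts on a system of forms, mean value and mean square of the weight

Compare `H15P/WIN1`, `H15P/WIN2`.
-/

open Finset

namespace Pool.Agent.Lib.H92G

open Pool.Agent.Lib.H15P

/-- Distinct `b, b' ∈ B` differ by at most `W < p`. -/
theorem WG.Sys.forms {w : WG} {A B : Finset ℕ} {M : ℕ} (h : w.Sys A B M) :
    Forms w.P w.W w.K M (fun j : {b // b ∈ B} => j.1) := by
  refine ⟨w.prime, w.big, h.cop, ?_, w.Kpos, ?_, w.KW⟩
  · intro p hp j j' hne hm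
    apply hne
    apply Subtype.ext
    have h1 := h.dist j.1 j.2 j'.1 j'.2
    have h2 := h.dist j'.1 j'.2 j.1 j.2
    have h3 := w.big p hp
    rcases le_total j.1 j'.1 with h4 | h4
    · have h5 := (Nat.modEq_iff_dvd' h4).1 hm
      have h6 := Nat.eq_zero_of_dvd_of_lt h5 (by omega)
      omega
    · have h5 := (Nat.modEq_iff_dvd' h4).1 hm.symm
      have h6 := Nat.eq_zero_of_dvd_of_lt h5 (by omega)
      omega
  · rw [Fintype.card_coe]
    exact h.cardB

theorem WG.good_Df (w : WG) (A B : Finset ℕ) : GoodJ (qq w.P w.K) (w.Df A B) w.h where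
  q0 := w.good.q0
  q1 := w.good.q1
  mean := fun _ i => w.good.mean _ i
  orth := fun _ i i' hi => w.good.orth _ i i' hi
  sq := fun _ i => w.good.sq _ i
  fourth := fun _ i => w.good.fourth _ i

theorem WG.one_le_g (w : WG) : 1 ≤ w.g := by
  unfold WG.g
  have h1 := mul_nonneg (Nat.cast_nonneg w.nA : (0 : ℝ) ≤ w.nA) w.cA0
  linarith


theorem w1_GJ (w : WG) (A B : Finset ℕ) (j : {b // b ∈ B}) (o : Option (Fin w.nA ⊕ Fin w.nD)) :
    GJ (qq w.P w.K) (w.Df A B) j o = GJ (qq w.P w.K) w.DJ (decide (j.1 ∈ A)) o := by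
  cases o <;> rfl

theorem w1_GJ_nonneg (w : WG) (a : Bool) (o : Option (Fin w.nA ⊕ Fin w.nD)) :
    0 ≤ GJ (qq w.P w.K) w.DJ a o := GJ_nonneg _ _ _ w.good _ _

theorem w1_card_filter (A B : Finset ℕ) (hAB : A ⊆ B) :
    ((univ : Finset {b // b ∈ B}).filter (fun j => j.1 ∈ A)).card = A.card := by
  rw [← Finset.card_map (Function.Embedding.subtype (fun b => b ∈ B))]
  congr 1
  ext x
  simp only [Finset.mem_map, Finset.mem_filter, Finset.mem_univ, true_and,
    Function.Embedding.coe_subtype]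
  constructor
  · rintro ⟨a, ha, rfl⟩
    exact ha
  · intro hx
    exact ⟨⟨x, hAB hx⟩, hx, rfl⟩

/-- The sums of second moments: at most `KA` forms are allowed, at most `K` are not. -/
theorem WG.Sys.hm {w : WG} {A B : Finset ℕ} {M : ℕ} (h : w.Sys A B M)
    (i : Fin w.nA ⊕ Fin w.nD) :
    2 * ∑ j ∈ (univ : Finset {b // b ∈ B}), GJ (qq w.P w.K) (w.Df A B) j (some i) + w.R i
      ≤ w.m i := by
  refine le_trans ?_ (w.hm i)
  have h0 : ∑ j ∈ (univ : Finset {b // b ∈ B}), GJ (qq w.P w.K) (w.Df A B) j (some i) ≤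
      w.KA * GJ (qq w.P w.K) w.DJ true (some i) + w.K * GJ (qq w.P w.K) w.DJ false (some i) := by
    rw [← Finset.sum_filter_add_sum_filter_not (univ : Finset {b // b ∈ B}) (fun j => j.1 ∈ A)]
    have h1 : ∑ j ∈ (univ : Finset {b // b ∈ B}).filter (fun j => j.1 ∈ A),
        GJ (qq w.P w.K) (w.Df A B) j (some i) =
          (A.card : ℝ) * GJ (qq w.P w.K) w.DJ true (some i) := by
      rw [← w1_card_filter A B h.AB, ← nsmul_eq_mul]
      refine Finset.sum_eq_card_nsmul fun j hj => ?_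
      rw [w1_GJ, decide_eq_true (Finset.mem_filter.1 hj).2]
    have h2 : ∑ j ∈ (univ : Finset {b // b ∈ B}).filter (fun j => ¬ j.1 ∈ A),
        GJ (qq w.P w.K) (w.Df A B) j (some i) =
          (((univ : Finset {b // b ∈ B}).filter (fun j => ¬ j.1 ∈ A)).card : ℝ) *
            GJ (qq w.P w.K) w.DJ false (some i) := by
      rw [← nsmul_eq_mul]
      refine Finset.sum_eq_card_nsmul fun j hj => ?_
      rw [w1_GJ, decide_eq_false (Finset.mem_filter.1 hj).2]
    rw [h1, h2]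
    have h3 : (A.card : ℝ) ≤ w.KA := by exact_mod_cast h.cardA
    have h4 : ((((univ : Finset {b // b ∈ B}).filter (fun j => ¬ j.1 ∈ A)).card : ℕ) : ℝ) ≤ w.K := by
      have h5 := Finset.card_filter_le (univ : Finset {b // b ∈ B}) (fun j => ¬ j.1 ∈ A)
      rw [Finset.card_univ, Fintype.card_coe] at h5
      exact_mod_cast h5.trans h.cardB
    exact add_le_add (mul_le_mul_of_nonneg_right h3 (w1_GJ_nonneg w _ _))
      (mul_le_mul_of_nonneg_right h4 (w1_GJ_nonneg w _ _))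
  linarith

/-- The values at `∅` of the factors of an allowed form. -/
theorem WG.sum_allowed (w : WG) (A B : Finset ℕ) (j : {b // b ∈ B}) (hj : j.1 ∈ A) :
    (∀ i, 0 ≤ w.Df A B j i ∅) ∧ 1 + ∑ i, w.Df A B j i ∅ = w.g := by
  have h1 : w.Df A B j = w.DJ true := by
    unfold WG.Df
    rw [decide_eq_true hj]
  rw [h1]
  constructor
  · rintro (i | i)
    · rw [w.trl]
      exact w.cA0
    · rw [w.trr]
  · rw [Fintype.sum_sum_type]
    simp only [w.trl, w.trr]
    rw [Finset.sum_const, Finset.sum_const_zero, Finset.card_univ, Fintype.card_fin, nsmul_eq_mul,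
      add_zero]
    rfl

theorem w1_Qpos (w : WG) : 0 < ∏ p ∈ w.P, p :=
  Finset.prod_pos fun p hp => (w.prime p hp).pos

/-- Sum over `t < Y` of a nonnegative function of the configuration of level `L`
(`Lev.avg` with `a = 0`, `EP_le`, `w.hKW`). -/
theorem WG.Sys.avg_le {w : WG} {A B : Finset ℕ} {M : ℕ} (h : w.Sys A B M)
    (F : ({b // b ∈ B} → Finset {p // p ∈ w.P}) → ℝ) (h0 : ∀ S, 0 ≤ F S) (L : ℝ)
    (hL : Lev (∏ p ∈ w.P, p) (fun t => F (fun j => hit w.P (j.1 + M * t))) L) (Y : ℕ) :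
    ∑ t ∈ range Y, F (fun j => hit w.P (j.1 + M * t)) ≤
      Y * ((1 + w.e) * EX (qq w.P w.K) F) + 2 * L := by
  have h1 := Lev.avg (w1_Qpos w) hL 0 Y
  rw [zero_add, ← Finset.range_eq_Ico] at h1
  have h2 : EP w.P M (fun j : {b // b ∈ B} => j.1) F ≤ (1 + w.e) * EX (qq w.P w.K) F :=
    (EP_le w.P w.W w.K M _ h.forms F h0).trans
      (mul_le_mul_of_nonneg_right w.hKW (EX_nonneg _ w.good.q0 w.good.q1 F h0))
  have h3 := mul_le_mul_of_nonneg_left h2 (Nat.cast_nonneg Y : (0 : ℝ) ≤ Y)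
  have h4 : |∑ t ∈ range Y, F (fun j => hit w.P (j.1 + M * t)) -
      Y * EP w.P M (fun j : {b // b ∈ B} => j.1) F| ≤ 2 * L := h1
  rw [abs_le] at h4
  linarith [h4.2]

theorem w1_one_le_ZG (w : WG) (A B : Finset ℕ) : 1 ≤ ZG (qq w.P w.K) (w.Df A B) univ :=
  one_le_ZG _ _ _ (w.good_Df A B) _



/-- the error terms -/
theorem w1_err (w : WG) (Y : ℕ) (hY : w.Long Y) (a k : ℕ) (ha : a ≤ 4) (hk : k ≤ 4) :
    2 * w.K * (w.g ^ a * w.lv ^ k) ≤ w.e * w.el ^ 2 * Y / 4 ∧
      2 * (w.g ^ a * w.lv ^ k) ≤ w.e * w.el ^ 2 * Y / 4 := by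
  have h1 : w.g ^ a * w.lv ^ k ≤ w.g ^ 4 * w.lv ^ 4 :=
    mul_le_mul (pow_le_pow_right₀ w.one_le_g ha) (pow_le_pow_right₀ w.lv1 hk)
      (pow_nonneg (zero_le_one.trans w.lv1) _) (pow_nonneg (zero_le_one.trans w.one_le_g) _)
  have h2 : (1 : ℝ) ≤ w.K := by exact_mod_cast w.Kpos
  have h3 : 0 ≤ w.g ^ a * w.lv ^ k := mul_nonneg (pow_nonneg (zero_le_one.trans w.one_le_g) _)
    (pow_nonneg (zero_le_one.trans w.lv1) _)
  have h4 : (w.K : ℝ) * (w.g ^ a * w.lv ^ k) ≤ w.K * (w.g ^ 4 * w.lv ^ 4) :=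
    mul_le_mul_of_nonneg_left h1 (by linarith)
  have h5 : w.g ^ a * w.lv ^ k ≤ w.K * (w.g ^ a * w.lv ^ k) := le_mul_of_one_le_left h3 h2
  have h6 : 8 * w.K * w.g ^ 4 * w.lv ^ 4 ≤ w.e * w.el ^ 2 * Y := hY
  constructor <;> nlinarith




end Pool.Agent.Lib.H92G
end

-- from Lib.H18GB.Pars
section

/-!
# Project GB: PARS
-/

namespace Pool.Agent.Lib.H18GB

open Finset Pool.Agent.Lib.Sieve

lemma pars_e_pow (x : ℝ) (j : ℕ) : e (j * x) = e x ^ j := by
  unfold e
  rw [← Complex.exp_nat_mul]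
  congr 1
  push_cast
  ring

/-- orthogonality -/
lemma pars_orth {Q : ℕ} (hQ : 0 < Q) (a : ℤ) (ha : ¬ (Q : ℤ) ∣ a) :
    ∑ j ∈ range Q, e (j * (a / Q)) = 0 := by
  simp only [pars_e_pow]
  have hQ' : (Q : ℝ) ≠ 0 := by exact_mod_cast hQ.ne'
  have h1 : e ((a : ℝ) / Q) ≠ 1 := by
    intro h
    unfold e at h
    rw [Complex.exp_eq_one_iff] at h
    obtain ⟨n, hn⟩ := h
    apply ha
    refine ⟨n, ?_⟩
    have h2 : (2 * Real.pi * Complex.I : ℂ) ≠ 0 := Complex.two_pi_I_ne_zero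
    have h3 : (((a : ℝ) / Q : ℝ) : ℂ) = n := by
      have h4 : (2 * Real.pi * Complex.I : ℂ) * (((a : ℝ) / Q : ℝ) : ℂ) =
          (2 * Real.pi * Complex.I : ℂ) * n := by
        linear_combination hn
      exact mul_left_cancel₀ h2 h4
    have h5 : ((a : ℝ) / Q : ℝ) = n := by exact_mod_cast h3
    rw [div_eq_iff hQ'] at h5
    have h6 : (a : ℝ) = (Q : ℝ) * n := by rw [h5, mul_comm]
    exact_mod_cast h6
  have h2 : e ((a : ℝ) / Q) ^ Q = 1 := by
    rw [← pars_e_pow]
    have h3 : (Q : ℝ) * (a / Q) = a := by field_simp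
    rw [h3, e_int]
  rw [geom_sum_eq h1, h2, sub_self, zero_div]

lemma pars_orth' {Q : ℕ} (a : ℤ) (ha : a = 0) :
    ∑ j ∈ range Q, e (j * (a / Q)) = Q := by
  subst ha
  simp [e_zero]

lemma pars_parseval {Q : ℕ} (hQ : 0 < Q) (I : Finset ℤ)
    (hI : ∀ t ∈ I, ∀ t' ∈ I, (Q : ℤ) ∣ t - t' → t = t') (f : ℤ → ℂ) :
    ∑ j ∈ range Q, ‖∑ t ∈ I, f t * e (j * (t / Q))‖ ^ 2 = Q * ∑ t ∈ I, ‖f t‖ ^ 2 := by
  have h1 : ∀ j ∈ range Q, ((‖∑ t ∈ I, f t * e (j * (t / Q))‖ ^ 2 : ℝ) : ℂ) =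
      ∑ t ∈ I, ∑ t' ∈ I, (f t * (starRingEnd ℂ) (f t')) * e (j * ((t - t' : ℤ) / Q)) := by
    intro j _
    have h2 : ((‖∑ t ∈ I, f t * e (j * (t / Q))‖ ^ 2 : ℝ) : ℂ) =
        (∑ t ∈ I, f t * e (j * (t / Q))) *
          (starRingEnd ℂ) (∑ t ∈ I, f t * e (j * (t / Q))) := by
      rw [Complex.mul_conj, Complex.normSq_eq_norm_sq]
    rw [h2, map_sum, sum_mul_sum]
    refine sum_congr rfl fun t _ => sum_congr rfl fun t' _ => ?_
    rw [map_mul, ← e_neg]
    have h3 : (j : ℝ) * ((t - t' : ℤ) / Q) = j * (t / Q) + -(j * (t' / Q)) := by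
      push_cast
      ring
    rw [h3, e_add]
    ring
  have h4 : ((∑ j ∈ range Q, ‖∑ t ∈ I, f t * e (j * (t / Q))‖ ^ 2 : ℝ) : ℂ) =
      ((Q * ∑ t ∈ I, ‖f t‖ ^ 2 : ℝ) : ℂ) := by
    rw [Complex.ofReal_sum, sum_congr rfl h1, sum_comm]
    rw [Complex.ofReal_mul, Complex.ofReal_sum, mul_sum]
    refine sum_congr rfl fun t ht => ?_
    rw [sum_comm]
    rw [sum_eq_single t]
    · rw [← mul_sum, sub_self, pars_orth' 0 rfl, Complex.mul_conj, Complex.normSq_eq_norm_sq]
      push_cast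
      ring
    · intro t' ht' hne
      rw [← mul_sum, pars_orth hQ _ fun h => hne (hI t ht t' ht' h).symm, mul_zero]
    · intro h
      exact absurd ht h
  exact_mod_cast h4

/-- Chunk PARS. Parseval: with `Q > 4 K`, on `ZMod Q` (or by `∫_0^1`), the Fourier transform of
`t ↦ ∑_s P (s + t) D s` is `P^ (j) * conj-type of D^ (j)`, and `|D^| ≤ m`. -/
theorem pars (K : ℕ) (P D : ℤ → ℂ) (hP : ∀ n, n ∉ Finset.Ioo (-(K : ℤ)) K → P n = 0)
    (hD : ∀ n, n ∉ Finset.Ioo (-(K : ℤ)) K → D n = 0) (m : ℝ)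
    (hm : ∀ θ : ℝ, ‖∑ s ∈ Finset.Ioo (-(K : ℤ)) K, D s * e (θ * s)‖ ≤ m) :
    ∑ t ∈ Finset.Ioo (-(2 * K : ℤ)) (2 * K), ‖∑ s ∈ Finset.Ioo (-(K : ℤ)) K, P (s + t) * D s‖ ^ 2
      ≤ m ^ 2 * ∑ s ∈ Finset.Ioo (-(K : ℤ)) K, ‖P s‖ ^ 2 := by
  set Q : ℕ := 4 * K + 1 with hQdef
  have hQ : 0 < Q := by omega
  set I1 := Finset.Ioo (-(K : ℤ)) K with hI1
  set I2 := Finset.Ioo (-(2 * K : ℤ)) (2 * K) with hI2
  have hd1 : ∀ t ∈ I1, ∀ t' ∈ I1, (Q : ℤ) ∣ t - t' → t = t' := by
    intro t ht t' ht' hd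
    rw [hI1, Finset.mem_Ioo] at ht ht'
    have := Int.eq_zero_of_abs_lt_dvd hd (by rw [abs_lt]; constructor <;> push_cast [hQdef] <;> omega)
    omega
  have hd2 : ∀ t ∈ I2, ∀ t' ∈ I2, (Q : ℤ) ∣ t - t' → t = t' := by
    intro t ht t' ht' hd
    rw [hI2, Finset.mem_Ioo] at ht ht'
    have := Int.eq_zero_of_abs_lt_dvd hd (by rw [abs_lt]; constructor <;> push_cast [hQdef] <;> omega)
    omega
  have h1 := pars_parseval hQ I2 hd2 fun t => ∑ s ∈ I1, P (s + t) * D s
  have h2 := pars_parseval hQ I1 hd1 P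
  have hm0 : 0 ≤ m := (norm_nonneg _).trans (hm 0)
  have h3 : ∀ j ∈ range Q, ∑ t ∈ I2, (∑ s ∈ I1, P (s + t) * D s) * e (j * (t / Q)) =
      (∑ s ∈ I1, D s * e (-(j / Q) * s)) * ∑ n ∈ I1, P n * e (j * (n / Q)) := by
    intro j _
    simp only [sum_mul]
    rw [sum_comm]
    refine sum_congr rfl fun s hs => ?_
    have h4 : ∑ n ∈ I1, P n * e (j * (n / Q)) =
        ∑ t ∈ I2, P (s + t) * e (j * ((s + t : ℤ) / Q)) := by
      have h5 : ∑ t ∈ I2, P (s + t) * e (j * ((s + t : ℤ) / Q)) =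
          ∑ n ∈ I2.map (addLeftEmbedding s), P n * e (j * (n / Q)) := by
        rw [sum_map]
        rfl
      rw [h5]
      refine sum_subset ?_ ?_
      · intro n hn
        rw [hI2, Finset.map_add_left_Ioo, Finset.mem_Ioo]
        rw [hI1, Finset.mem_Ioo] at hs hn
        constructor <;> omega
      · intro n _ hn
        rw [hP n hn, zero_mul]
    rw [h4, mul_sum]
    refine sum_congr rfl fun t _ => ?_
    have h6 : (j : ℝ) * (t / Q) = -(j / Q) * s + j * ((s + t : ℤ) / Q) := by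
      push_cast
      ring
    rw [h6, e_add]
    ring
  have h7 : (Q : ℝ) * ∑ t ∈ I2, ‖∑ s ∈ I1, P (s + t) * D s‖ ^ 2 ≤
      Q * (m ^ 2 * ∑ s ∈ I1, ‖P s‖ ^ 2) := by
    rw [← h1]
    calc ∑ j ∈ range Q, ‖∑ t ∈ I2, (∑ s ∈ I1, P (s + t) * D s) * e (j * (t / Q))‖ ^ 2
        = ∑ j ∈ range Q, (‖∑ s ∈ I1, D s * e (-(j / Q) * s)‖ *
            ‖∑ n ∈ I1, P n * e (j * (n / Q))‖) ^ 2 := by
          refine sum_congr rfl fun j hj => ?_
          rw [h3 j hj, norm_mul]
      _ ≤ ∑ j ∈ range Q, (m * ‖∑ n ∈ I1, P n * e (j * (n / Q))‖) ^ 2 := by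
          refine sum_le_sum fun j _ => ?_
          have h8 := hm (-(j / Q))
          gcongr
      _ = m ^ 2 * ∑ j ∈ range Q, ‖∑ n ∈ I1, P n * e (j * (n / Q))‖ ^ 2 := by
          rw [mul_sum]
          exact sum_congr rfl fun j _ => by ring
      _ = Q * (m ^ 2 * ∑ s ∈ I1, ‖P s‖ ^ 2) := by
          rw [h2]
          ring
  have hQ0 : (0 : ℝ) < Q := by exact_mod_cast hQ
  exact le_of_mul_le_mul_left h7 hQ0

end Pool.Agent.Lib.H18GB
end

-- from Lib.H68T.LONG1
section

/-!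
# Chunk LONG1; part of LONG: long smooth sums
-/

open Finset

namespace Pool.Agent.Lib.H68T

/-- `smoothTransition` has bounded first and second derivatives, supported in `[0,1]`. -/
theorem LONG_sT : ∃ B : ℝ, 1 ≤ B ∧ (∀ x, |deriv Real.smoothTransition x| ≤ B) ∧
    (∀ x, |deriv (deriv Real.smoothTransition) x| ≤ B) ∧
    (∀ x, x ∉ Set.Icc (0:ℝ) 1 → deriv Real.smoothTransition x = 0) ∧
    (∀ x, x ∉ Set.Icc (0:ℝ) 1 → deriv (deriv Real.smoothTransition) x = 0) := by
  have hc : ContDiff ℝ ((2 : ℕ∞) : WithTop ℕ∞) Real.smoothTransition := Real.smoothTransition.contDiff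
  have hc1 : ContDiff ℝ 1 (deriv Real.smoothTransition) := by
    have h2 : ContDiff ℝ (1 + 1) Real.smoothTransition := by exact_mod_cast hc
    exact (contDiff_succ_iff_deriv.mp h2).2.2
  have hc2 : Continuous (deriv (deriv Real.smoothTransition)) := hc1.continuous_deriv le_rfl
  have z1 : ∀ x, x ∉ Set.Icc (0:ℝ) 1 → deriv Real.smoothTransition x = 0 := by
    intro x hx
    rw [Set.mem_Icc, not_and_or, not_le, not_le] at hx
    rcases hx with hx | hx
    · have : Real.smoothTransition =ᶠ[nhds x] fun _ => (0:ℝ) := by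
        filter_upwards [Iio_mem_nhds hx] with y hy
        exact Real.smoothTransition.zero_of_nonpos (le_of_lt hy)
      rw [this.deriv_eq]; simp
    · have : Real.smoothTransition =ᶠ[nhds x] fun _ => (1:ℝ) := by
        filter_upwards [Ioi_mem_nhds hx] with y hy
        exact Real.smoothTransition.one_of_one_le (le_of_lt hy)
      rw [this.deriv_eq]; simp
  have z2 : ∀ x, x ∉ Set.Icc (0:ℝ) 1 → deriv (deriv Real.smoothTransition) x = 0 := by
    intro x hx
    have hx' := hx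
    rw [Set.mem_Icc, not_and_or, not_le, not_le] at hx
    have hopen : IsOpen (Set.Icc (0:ℝ) 1)ᶜ := isClosed_Icc.isOpen_compl
    have : deriv Real.smoothTransition =ᶠ[nhds x] fun _ => (0:ℝ) := by
      filter_upwards [hopen.mem_nhds hx'] with y hy
      exact z1 y hy
    rw [this.deriv_eq]; simp
  obtain ⟨C1, hC1⟩ := (isCompact_Icc (a := (0:ℝ)) (b := 1)).exists_bound_of_continuousOn
    hc1.continuous.continuousOn
  obtain ⟨C2, hC2⟩ := (isCompact_Icc (a := (0:ℝ)) (b := 1)).exists_bound_of_continuousOn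
    hc2.continuousOn
  refine ⟨max 1 (max C1 C2), le_max_left _ _, ?_, ?_, z1, z2⟩
  · intro x
    by_cases hx : x ∈ Set.Icc (0:ℝ) 1
    · exact (hC1 x hx).trans (le_max_of_le_right (le_max_left _ _))
    · rw [z1 x hx, abs_zero]; positivity
  · intro x
    by_cases hx : x ∈ Set.Icc (0:ℝ) 1
    · exact (hC2 x hx).trans (le_max_of_le_right (le_max_right _ _))
    · rw [z2 x hx, abs_zero]; positivity

theorem LONG_sT_diff : ContDiff ℝ 2 Real.smoothTransition := by
  have hc : ContDiff ℝ ((2 : ℕ∞) : WithTop ℕ∞) Real.smoothTransition := Real.smoothTransition.contDiff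
  exact_mod_cast hc


theorem LONG_w_nonneg (y : ℝ) : 0 ≤ w y :=
  mul_nonneg (Real.smoothTransition.nonneg _) (Real.smoothTransition.nonneg _)

theorem LONG_w_le_one (y : ℝ) : w y ≤ 1 :=
  mul_le_one₀ (Real.smoothTransition.le_one _) (Real.smoothTransition.nonneg _)
    (Real.smoothTransition.le_one _)







theorem LONG_cpow_norm (t u : ℝ) (hu : 0 < u) : ‖(u : ℂ) ^ (-(1 + t * Complex.I))‖ = u⁻¹ := by
  rw [Complex.norm_cpow_eq_rpow_re_of_pos hu]
  simp [Real.rpow_neg_one]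

theorem LONG_cpow_diff (t u u' : ℝ) (hu : 0 < u) (huu : u ≤ u') :
    ‖(u' : ℂ) ^ (-(1 + t * Complex.I)) - (u : ℂ) ^ (-(1 + t * Complex.I))‖ ≤
      (1 + |t|) * (u' - u) / u ^ 2 := by
  have hder : ∀ x ∈ Set.Icc u u', HasDerivWithinAt (fun x : ℝ => (x : ℂ) ^ (-(1 + t * Complex.I)))
      ((-(1 + t * Complex.I)) * (x : ℂ) ^ (-(1 + t * Complex.I) - 1)) (Set.Icc u u') x := by
    intro x hx
    have hx0 : 0 < x := lt_of_lt_of_le hu hx.1
    have h1 : HasDerivAt (fun z : ℂ => z ^ (-(1 + t * Complex.I)))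
        ((-(1 + t * Complex.I)) * (x : ℂ) ^ (-(1 + t * Complex.I) - 1)) (x : ℂ) := by
      have := (hasDerivAt_id (x : ℂ)).cpow_const (c := -(1 + t * Complex.I))
        (Or.inl (by simpa using hx0))
      simpa using this
    exact h1.comp_ofReal.hasDerivWithinAt
  have hb : ∀ x ∈ Set.Ico u u', ‖(-(1 + t * Complex.I)) * (x : ℂ) ^ (-(1 + t * Complex.I) - 1)‖ ≤
      (1 + |t|) / u ^ 2 := by
    intro x hx
    have hx0 : 0 < x := lt_of_lt_of_le hu hx.1
    rw [norm_mul, norm_neg, Complex.norm_cpow_eq_rpow_re_of_pos hx0]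
    have e1 : (-(1 + t * Complex.I) - 1 : ℂ).re = ((-2 : ℤ) : ℝ) := by simp; norm_num
    rw [e1, Real.rpow_intCast]
    have e2 : ‖(1 + t * Complex.I : ℂ)‖ ≤ 1 + |t| := by
      refine (norm_add_le _ _).trans ?_
      simp
    have e3 : x ^ (-2 : ℤ) ≤ (u ^ 2)⁻¹ := by
      rw [zpow_neg]
      have : u ^ 2 ≤ x ^ (2:ℤ) := by
        have := hx.1
        exact_mod_cast pow_le_pow_left₀ hu.le this 2
      exact inv_anti₀ (by positivity) this
    calc _ ≤ (1 + |t|) * (u ^ 2)⁻¹ := by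
          apply mul_le_mul e2 e3 (by positivity) (by positivity)
      _ = _ := by rw [div_eq_mul_inv]
  have := norm_image_sub_le_of_norm_deriv_le_segment' hder hb u' (Set.right_mem_Icc.mpr huu)
  calc _ ≤ _ := this
    _ = _ := by ring







theorem LONG_sum_inv_sq (N0 N : ℕ) (h0 : 1 ≤ N0) :
    ∑ n ∈ Ico N0 N, 1 / (n : ℝ) ^ 2 ≤ 2 / (N0 : ℝ) := by
  rcases le_or_gt N N0 with h | h
  · rw [Ico_eq_empty (by omega), sum_empty]; positivity
  have key : ∀ k : ℕ, N0 ≤ k → ∑ n ∈ Ico N0 (k + 1), 1 / (n : ℝ) ^ 2 ≤ 2 / (N0 : ℝ) - 1 / (k : ℝ) := by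
    intro k hk
    induction k, hk using Nat.le_induction with
    | base =>
      have : (1:ℝ) ≤ N0 := by exact_mod_cast h0
      rw [Ico_add_one_right_eq_Icc, Icc_self, sum_singleton]
      have e : (2:ℝ) / N0 - 1 / N0 = 1 / N0 := by ring
      rw [e]
      exact one_div_le_one_div_of_le (by linarith) (by nlinarith)
    | succ k hk ih =>
      rw [sum_Ico_succ_top (by omega)]
      have hk0 : (0:ℝ) < k := by exact_mod_cast (by omega : 0 < k)
      have : 1 / ((k + 1 : ℕ) : ℝ) ^ 2 ≤ 1 / k - 1 / ((k + 1 : ℕ) : ℝ) := by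
        push_cast
        rw [div_sub_div _ _ hk0.ne' (by positivity), div_le_div_iff₀ (by positivity) (by positivity)]
        nlinarith
      linarith
  have := key (N - 1) (by omega)
  rw [Nat.sub_add_cancel (by omega)] at this
  have h3 : (0:ℝ) ≤ 1 / ((N - 1 : ℕ) : ℝ) := by positivity
  linarith


end Pool.Agent.Lib.H68T
end

-- from Lib.H68T.LONG2
section

/-!
# Chunk LONG2; part of LONG: long smooth sums
-/

open Finset

namespace Pool.Agent.Lib.H68T

theorem LONG2_smooth : Differentiable ℝ Real.smoothTransition ∧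
    Differentiable ℝ (deriv Real.smoothTransition) ∧
    Continuous (deriv (deriv Real.smoothTransition)) := by
  have h2 : ContDiff ℝ (1 + 1) Real.smoothTransition := by exact_mod_cast LONG_sT_diff
  have hc1 : ContDiff ℝ 1 (deriv Real.smoothTransition) := (contDiff_succ_iff_deriv.mp h2).2.2
  exact ⟨LONG_sT_diff.differentiable (by norm_num), hc1.differentiable (by norm_num),
    hc1.continuous_deriv le_rfl⟩

/-- derivative of `smoothTransition` -/
noncomputable def LONG2_s1 (x : ℝ) : ℝ := deriv Real.smoothTransition x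

/-- second derivative of `smoothTransition` -/
noncomputable def LONG2_s2 (x : ℝ) : ℝ := deriv (deriv Real.smoothTransition) x

theorem LONG2_h0 (x : ℝ) : HasDerivAt Real.smoothTransition (LONG2_s1 x) x :=
  (LONG2_smooth.1 x).hasDerivAt

theorem LONG2_h1 (x : ℝ) : HasDerivAt LONG2_s1 (LONG2_s2 x) x :=
  (LONG2_smooth.2.1 x).hasDerivAt

theorem LONG2_c0 : Continuous Real.smoothTransition := LONG2_smooth.1.continuous
theorem LONG2_c1 : Continuous LONG2_s1 := LONG2_smooth.2.1.continuous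
theorem LONG2_c2 : Continuous LONG2_s2 := LONG2_smooth.2.2

theorem LONG2_comp {f f' : ℝ → ℝ} (hf : ∀ x, HasDerivAt f (f' x) x) {g : ℝ → ℝ} {g' y : ℝ}
    (hg : HasDerivAt g g' y) : HasDerivAt (fun y => f (g y)) (f' (g y) * g') y :=
  (hf (g y)).comp y hg

/-- `V = w (· + c)` and its derivatives -/
noncomputable def LONG2_V1 (c y : ℝ) : ℝ :=
  LONG2_s1 (y + c + 2) * Real.smoothTransition (4 - (y + c)) -
    Real.smoothTransition (y + c + 2) * LONG2_s1 (4 - (y + c))

noncomputable def LONG2_V2 (c y : ℝ) : ℝ :=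
  LONG2_s2 (y + c + 2) * Real.smoothTransition (4 - (y + c)) -
    2 * (LONG2_s1 (y + c + 2) * LONG2_s1 (4 - (y + c))) +
    Real.smoothTransition (y + c + 2) * LONG2_s2 (4 - (y + c))

theorem LONG2_in1 (c y : ℝ) : HasDerivAt (fun y : ℝ => y + c + 2) 1 y := by
  simpa using ((hasDerivAt_id' y).add_const c).add_const 2

theorem LONG2_in2 (c y : ℝ) : HasDerivAt (fun y : ℝ => 4 - (y + c)) (-1) y := by
  simpa using ((hasDerivAt_id' y).add_const c).const_sub 4

theorem LONG2_hV (c y : ℝ) : HasDerivAt (fun y => w (y + c)) (LONG2_V1 c y) y := by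
  unfold w LONG2_V1
  have h1 : HasDerivAt (fun y : ℝ => Real.smoothTransition (y + c + 2))
      (LONG2_s1 (y + c + 2) * 1) y := LONG2_comp LONG2_h0 (LONG2_in1 c y)
  have h2 : HasDerivAt (fun y : ℝ => Real.smoothTransition (4 - (y + c)))
      (LONG2_s1 (4 - (y + c)) * (-1)) y := LONG2_comp LONG2_h0 (LONG2_in2 c y)
  refine HasDerivAt.congr_deriv (h1.mul h2) ?_
  ring

theorem LONG2_hV1 (c y : ℝ) : HasDerivAt (LONG2_V1 c) (LONG2_V2 c y) y := by
  unfold LONG2_V1 LONG2_V2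
  have h1 : HasDerivAt (fun y : ℝ => Real.smoothTransition (y + c + 2))
      (LONG2_s1 (y + c + 2) * 1) y := LONG2_comp LONG2_h0 (LONG2_in1 c y)
  have h2 : HasDerivAt (fun y : ℝ => Real.smoothTransition (4 - (y + c)))
      (LONG2_s1 (4 - (y + c)) * (-1)) y := LONG2_comp LONG2_h0 (LONG2_in2 c y)
  have h3 : HasDerivAt (fun y : ℝ => LONG2_s1 (y + c + 2))
      (LONG2_s2 (y + c + 2) * 1) y := LONG2_comp LONG2_h1 (LONG2_in1 c y)
  have h4 : HasDerivAt (fun y : ℝ => LONG2_s1 (4 - (y + c)))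
      (LONG2_s2 (4 - (y + c)) * (-1)) y := LONG2_comp LONG2_h1 (LONG2_in2 c y)
  refine HasDerivAt.congr_deriv ((h3.mul h2).sub (h1.mul h4)) ?_
  ring








theorem LONG2_cw : Continuous w := by
  unfold w
  exact (LONG2_c0.comp (by fun_prop)).mul (LONG2_c0.comp (by fun_prop))

















end Pool.Agent.Lib.H68T
end

-- from Lib.H15P.LV3
section

/-!
# Chunk LV3: level of the one form functions
-/

open Finset

namespace Pool.Agent.Lib.H15P

theorem lv3_esymm {α : Type} [DecidableEq α] (x : α → ℝ) (hx : ∀ i, 0 ≤ x i) (S : Finset α) :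
    ∀ l : ℕ, ∑ B ∈ S.powersetCard l, ∏ i ∈ B, x i ≤ (∑ i ∈ S, x i) ^ l := by
  induction S using Finset.induction_on with
  | empty =>
    intro l
    cases l with
    | zero => simp
    | succ l =>
      have h1 : powersetCard (l + 1) (∅ : Finset α) = ∅ := by
        apply Finset.powersetCard_eq_empty.2
        simp
      rw [h1]
      simp
  | insert a S ha ih =>
    intro l
    cases l with
    | zero => simp
    | succ l =>
      rw [Finset.powersetCard_succ_insert ha]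
      have h1 := ih (l + 1)
      have h2 := ih l
      have hX : 0 ≤ ∑ i ∈ S, x i := Finset.sum_nonneg fun i _ => hx i
      have hdisj : Disjoint (powersetCard (l + 1) S) ((powersetCard l S).image (insert a)) := by
        rw [Finset.disjoint_left]
        intro B hB hB'
        rw [Finset.mem_powersetCard] at hB
        obtain ⟨B', -, rfl⟩ := Finset.mem_image.1 hB'
        exact ha (hB.1 (Finset.mem_insert_self a B'))
      rw [Finset.sum_union hdisj, Finset.sum_insert ha]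
      have h3 : ∑ B ∈ (powersetCard l S).image (insert a), ∏ i ∈ B, x i =
          x a * ∑ B ∈ powersetCard l S, ∏ i ∈ B, x i := by
        rw [Finset.sum_image, Finset.mul_sum]
        · apply Finset.sum_congr rfl
          intro B hB
          rw [Finset.mem_powersetCard] at hB
          rw [Finset.prod_insert fun h => ha (hB.1 h)]
        · intro B hB B' hB' h
          rw [Finset.mem_coe, Finset.mem_powersetCard] at hB hB'
          have h4 : a ∉ B := fun h => ha (hB.1 h)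
          have h5 : a ∉ B' := fun h => ha (hB'.1 h)
          have h6 : (insert a B).erase a = (insert a B').erase a := by rw [h]
          rwa [Finset.erase_insert h4, Finset.erase_insert h5] at h6
      rw [h3]
      have ha0 := hx a
      have h4 : (∑ i ∈ S, x i) ^ l ≤ (x a + ∑ i ∈ S, x i) ^ l :=
        pow_le_pow_left₀ hX (by linarith) l
      calc ∑ B ∈ powersetCard (l + 1) S, ∏ i ∈ B, x i + x a * ∑ B ∈ powersetCard l S, ∏ i ∈ B, x i
          ≤ (∑ i ∈ S, x i) ^ (l + 1) + x a * (∑ i ∈ S, x i) ^ l :=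
            add_le_add h1 (mul_le_mul_of_nonneg_left h2 ha0)
        _ = (x a + ∑ i ∈ S, x i) * (∑ i ∈ S, x i) ^ l := by ring
        _ ≤ (x a + ∑ i ∈ S, x i) * (x a + ∑ i ∈ S, x i) ^ l :=
            mul_le_mul_of_nonneg_left h4 (by linarith)
        _ = (x a + ∑ i ∈ S, x i) ^ (l + 1) := by ring

theorem lv3_choose {ι : Type} [Fintype ι] [DecidableEq ι] (blk : ι → ℕ) (b l : ℕ) (A : Finset ι) :
    (((AB blk b A).card.choose l : ℕ) : ℝ) =
      ∑ B ∈ (univ.filter (fun i => blk i = b)).powersetCard l, if B ⊆ A then (1 : ℝ) else 0 := by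
  rw [← Finset.card_powersetCard, ← Finset.sum_filter, Finset.sum_const, nsmul_eq_mul, mul_one]
  congr 2
  ext B
  rw [Finset.mem_powersetCard, Finset.mem_filter, Finset.mem_powersetCard]
  unfold AB
  constructor
  · rintro ⟨h1, h2⟩
    refine ⟨⟨?_, h2⟩, ?_⟩
    · intro i hi
      exact Finset.mem_filter.2 ⟨Finset.mem_univ i, (Finset.mem_filter.1 (h1 hi)).2⟩
    · intro i hi
      exact (Finset.mem_filter.1 (h1 hi)).1
  · rintro ⟨⟨h1, h2⟩, h3⟩
    refine ⟨?_, h2⟩
    intro i hi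
    exact Finset.mem_filter.2 ⟨h3 hi, (Finset.mem_filter.1 (h1 hi)).2⟩

theorem lv3_ind (P : Finset ℕ) (hP : ∀ p ∈ P, p.Prime) (B : Finset {p // p ∈ P}) (M b0 : ℕ) :
    Lev (∏ p ∈ P, p) (fun t => if B ⊆ hit P (b0 + M * t) then (1 : ℝ) else 0)
      (∏ i ∈ B, (i.1 : ℝ)) := by
  have hd : (∏ i ∈ B, i.1) ∣ ∏ p ∈ P, p := by
    have h1 : ∏ i ∈ B, i.1 = ∏ p ∈ B.map ⟨Subtype.val, Subtype.val_injective⟩, p := by
      rw [Finset.prod_map]
      rfl
    rw [h1]
    apply Finset.prod_dvd_prod_of_subset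
    intro p hp
    rw [Finset.mem_map] at hp
    obtain ⟨i, -, rfl⟩ := hp
    exact i.2
  have h := Lev.base (Q := ∏ p ∈ P, p) (fun t => if B ⊆ hit P (b0 + M * t) then (1 : ℝ) else 0)
    (∏ i ∈ B, i.1) 1 (Finset.prod_pos fun i _ => (hP i.1 i.2).pos) hd (by
      intro t
      have h1 : B ⊆ hit P (b0 + M * (t + ∏ i ∈ B, i.1)) ↔ B ⊆ hit P (b0 + M * t) := by
        have h2 : ∀ i ∈ B, (i ∈ hit P (b0 + M * (t + ∏ i ∈ B, i.1)) ↔ i ∈ hit P (b0 + M * t)) := by
          intro i hi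
          unfold hit
          rw [Finset.mem_filter, Finset.mem_filter]
          simp only [Finset.mem_univ, true_and]
          have h3 : i.1 ∣ M * ∏ i ∈ B, i.1 := Dvd.dvd.mul_left (Finset.dvd_prod_of_mem _ hi) M
          have h4 : b0 + M * (t + ∏ i ∈ B, i.1) = (b0 + M * t) + M * ∏ i ∈ B, i.1 := by ring
          rw [h4]
          exact (Nat.dvd_add_left h3)
        exact ⟨fun h i hi => (h2 i hi).1 (h hi), fun h i hi => (h2 i hi).2 (h hi)⟩
      simp only [h1]) (by
      intro t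
      split_ifs <;> simp)
  simpa using h

/-- `t ↦ 1[p ∣ b + M t]` for all `p ∈ B` is periodic mod `∏_{p ∈ B} p`; and
`(s choose l) = Σ_{B ⊆ block, |B| = l} 1[B ⊆ A]` for `s = |A ∩ block|`. So the level is at most
`Σ_{l ≤ 2r} Σ_{|B| = l} ∏_{p ∈ B} p ≤ Σ_{l ≤ 2r} X^l/l! ≤ (1 + X)^(2r)`, `X = Σ_{p ∈ block} p`
(elementary symmetric functions: `Finset.prod_pow_le..`/ or
`Σ_{|B| = l} ∏_B p ≤ X^l` and `Σ_{l ≤ 2r} X^l` with `X ≥ 2` or `X = 0`; any proof). -/
theorem levS_TT (P : Finset ℕ) (hP : ∀ p ∈ P, p.Prime) (blk : {p // p ∈ P} → ℕ) (r b : ℕ) :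
    LevS P (fun A => TT r (AB blk b A).card) ((1 + XB (fun i : {p // p ∈ P} => i.1) blk b) ^ (2 * r)) := by
  intro M b0
  have hQ : 0 < ∏ p ∈ P, p := Finset.prod_pos fun p hp => (hP p hp).pos
  set X := XB (fun i : {p // p ∈ P} => i.1) blk b with hX
  have hX0 : 0 ≤ X := Finset.sum_nonneg fun i _ => by positivity
  have hl : ∀ l ∈ range (2 * r + 1), Lev (∏ p ∈ P, p)
      (fun t => (-1 : ℝ) ^ l * ∑ B ∈ (univ.filter (fun i => blk i = b)).powersetCard l,
        if B ⊆ hit P (b0 + M * t) then (1 : ℝ) else 0) (X ^ l * ((2 * r).choose l : ℕ)) := by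
    intro l hlr
    have h1 := Lev.sum ((univ.filter (fun i => blk i = b)).powersetCard l)
      (fun B t => if B ⊆ hit P (b0 + M * t) then (1 : ℝ) else 0)
      (fun B => ∏ i ∈ B, (i.1 : ℝ)) hQ (fun B _ => lv3_ind P hP B M b0)
    have h2 := h1.const_mul ((-1 : ℝ) ^ l)
    refine Lev.mono _ _ _ h2 ?_
    have h3 : |(-1 : ℝ) ^ l| = 1 := by rw [abs_pow, abs_neg, abs_one, one_pow]
    rw [h3, one_mul]
    have h4 := lv3_esymm (fun i : {p // p ∈ P} => (i.1 : ℝ)) (fun i => by positivity)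
      (univ.filter (fun i => blk i = b)) l
    have h5 : (1 : ℝ) ≤ (((2 * r).choose l : ℕ) : ℝ) := by
      have : 0 < (2 * r).choose l := Nat.choose_pos (by
        have := Finset.mem_range.1 hlr
        omega)
      exact_mod_cast this
    calc ∑ B ∈ (univ.filter (fun i => blk i = b)).powersetCard l, ∏ i ∈ B, (i.1 : ℝ) ≤ X ^ l := h4
      _ ≤ X ^ l * (((2 * r).choose l : ℕ) : ℝ) := le_mul_of_one_le_right (by positivity) h5
  have h := Lev.sum (range (2 * r + 1)) (fun l t => (-1 : ℝ) ^ l *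
    ∑ B ∈ (univ.filter (fun i => blk i = b)).powersetCard l,
        if B ⊆ hit P (b0 + M * t) then (1 : ℝ) else 0)
    (fun l => X ^ l * ((2 * r).choose l : ℕ)) hQ hl
  have h1 : (fun t => TT r (AB blk b (hit P (b0 + M * t))).card) = fun t =>
      ∑ l ∈ range (2 * r + 1), (-1 : ℝ) ^ l *
        ∑ B ∈ (univ.filter (fun i => blk i = b)).powersetCard l,
          if B ⊆ hit P (b0 + M * t) then (1 : ℝ) else 0 := by
    funext t
    unfold TT
    apply Finset.sum_congr rfl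
    intro l _
    rw [lv3_choose]
  rw [h1]
  refine Lev.mono _ _ _ h (le_of_eq ?_)
  rw [add_comm 1 X, add_pow]
  apply Finset.sum_congr rfl
  intro l _
  rw [one_pow, mul_one]


/-- The last factor has level at most `((1 + X)^(2 r0) + 1/2)/(1 - tau) ≤ 4 (1 + X)^(2 r0)`. -/
theorem levS_DB (P : Finset ℕ) (hP : ∀ p ∈ P, p.Prime) (q : {p // p ∈ P} → ℝ)
    (blk : {p // p ∈ P} → ℕ) (r0 N i : ℕ) (hi : i < N) (ht0 : 0 ≤ tau q blk r0 i)
    (ht : tau q blk r0 i ≤ 1 / 2) :
    LevS P (DB q blk r0 N i)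
      (4 * ∏ b ∈ Ico i N, (1 + XB (fun i : {p // p ∈ P} => i.1) blk b) ^ (2 * (r0 + (b - i)))) := by
  intro M b0
  have hQ : 0 < ∏ p ∈ P, p := Finset.prod_pos fun p hp => (hP p hp).pos
  set X : ℕ → ℝ := fun b => XB (fun i : {p // p ∈ P} => i.1) blk b with hX
  have hX0 : ∀ b, 0 ≤ X b := fun b => Finset.sum_nonneg fun i _ => by positivity
  set τ := tau q blk r0 i with hτ
  have h1 := Lev.prod (Ico (i + 1) N)
    (fun b t => TT (r0 + (b - i)) (AB blk b (hit P (b0 + M * t))).card)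
    (fun b => (1 + X b) ^ (2 * (r0 + (b - i)))) hQ
    (fun b _ => levS_TT P hP blk (r0 + (b - i)) b M b0)
  have h2 := Lev.add _ _ _ _ (levS_TT P hP blk r0 i M b0) (Lev.const hQ (-τ))
  have h3 := h2.const_mul (1 / (1 - τ))
  have h4 := Lev.mul hQ h1 h3
  have h5 : (fun t => (∏ b ∈ Ico (i + 1) N, TT (r0 + (b - i)) (AB blk b (hit P (b0 + M * t))).card) *
      (1 / (1 - τ) * (TT r0 (AB blk i (hit P (b0 + M * t))).card + -τ))) =
      fun t => DB q blk r0 N i (hit P (b0 + M * t)) := by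
    funext t
    unfold DB
    rw [← hτ]
    ring
  rw [h5] at h4
  refine Lev.mono _ _ _ h4 ?_
  rw [Finset.prod_eq_prod_Ico_succ_bot hi]
  have h6 : r0 + (i - i) = r0 := by omega
  rw [h6]
  have h7 : (0 : ℝ) ≤ ∏ b ∈ Ico (i + 1) N, (1 + X b) ^ (2 * (r0 + (b - i))) :=
    Finset.prod_nonneg fun b _ => pow_nonneg (by linarith [hX0 b]) _
  have h8 : (1 : ℝ) ≤ (1 + X i) ^ (2 * r0) := one_le_pow₀ (by linarith [hX0 i])
  have h9 : |1 / (1 - τ)| ≤ 2 := by
    have : 0 < 1 - τ := by linarith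
    rw [abs_of_nonneg (by positivity), div_le_iff₀ this]
    linarith
  have h10 : |(-τ)| ≤ 1 / 2 := by
    rw [abs_neg, abs_of_nonneg ht0]
    exact ht
  have h11 : |1 / (1 - τ)| * ((1 + X i) ^ (2 * r0) + |(-τ)|) ≤ 4 * (1 + X i) ^ (2 * r0) := by
    calc |1 / (1 - τ)| * ((1 + X i) ^ (2 * r0) + |(-τ)|) ≤
          2 * ((1 + X i) ^ (2 * r0) + |(-τ)|) := by
            apply mul_le_mul_of_nonneg_right h9
            positivity
      _ ≤ 4 * (1 + X i) ^ (2 * r0) := by linarith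
  calc (∏ b ∈ Ico (i + 1) N, (1 + X b) ^ (2 * (r0 + (b - i)))) *
        (|1 / (1 - τ)| * ((1 + X i) ^ (2 * r0) + |(-τ)|))
      ≤ (∏ b ∈ Ico (i + 1) N, (1 + X b) ^ (2 * (r0 + (b - i)))) * (4 * (1 + X i) ^ (2 * r0)) :=
        mul_le_mul_of_nonneg_left h11 h7
    _ = 4 * ((1 + X i) ^ (2 * r0) * ∏ b ∈ Ico (i + 1) N, (1 + X b) ^ (2 * (r0 + (b - i)))) := by
        ring

end Pool.Agent.Lib.H15P
end

-- from Lib.H15P.LV4
section

/-!
# Chunk LV4: level of `LL` and `LP`
-/

open Finset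

namespace Pool.Agent.Lib.H15P

variable {J I : Type} [Fintype J] [DecidableEq J] [Fintype I] [DecidableEq I]

theorem lv4_mem_adm {B : Finset J} {m : I → ℕ} {l : J → Option I} :
    l ∈ adm B m ↔ (∀ j, j ∉ B → l j = none) ∧ ∀ i, cnt l i ≤ m i := by
  unfold adm
  simp

theorem lv4_card_labelled (l : J → Option I) :
    (univ.filter (fun j => l j ≠ none)).card ≤ ∑ i, cnt l i := by
  have h1 : univ.filter (fun j => l j ≠ none) ⊆
      (univ : Finset I).biUnion (fun i => univ.filter (fun j => l j = some i)) := by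
    intro j hj
    rw [Finset.mem_filter] at hj
    obtain ⟨i, hi⟩ := Option.ne_none_iff_exists'.1 hj.2
    rw [Finset.mem_biUnion]
    exact ⟨i, Finset.mem_univ i, Finset.mem_filter.2 ⟨Finset.mem_univ j, hi⟩⟩
  exact (Finset.card_le_card h1).trans Finset.card_biUnion_le

/-- `#adm ≤ Σ_l y^(Σ m - Σ cnt l) ≤ y^(Σ m) (1 + |I|/y)^|J|` with `y = |I| |J| + 1`
(`Σ_l ∏_j a (l j)` with `a none = 1`, `a (some i) = 1/y`), and `(1 + |I|/y)^|J| ≤ e ≤ 3`. -/
theorem card_adm_le (B : Finset J) (m : I → ℕ) :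
    ((adm B m).card : ℝ) ≤
      3 * ((Fintype.card I : ℝ) * Fintype.card J + 1) ^ (∑ i, m i) := by
  set y : ℝ := (Fintype.card I : ℝ) * Fintype.card J + 1 with hy
  have hy1 : 1 ≤ y := by
    rw [hy]
    have : (0 : ℝ) ≤ (Fintype.card I : ℝ) * Fintype.card J := by positivity
    linarith
  have hy0 : 0 < y := by linarith
  set a : Option I → ℝ := fun o => o.elim 1 (fun _ => y⁻¹) with ha
  have ha0 : ∀ o, 0 ≤ a o := by
    intro o
    cases o with
    | none => simp [ha]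
    | some i => simp only [ha, Option.elim]; positivity
  have hterm : ∀ l ∈ adm B m, (1 : ℝ) ≤ y ^ (∑ i, m i) * ∏ j, a (l j) := by
    intro l hl
    rw [lv4_mem_adm] at hl
    have h1 : ∏ j, a (l j) = (y⁻¹) ^ (univ.filter (fun j => l j ≠ none)).card := by
      rw [← Finset.prod_const, Finset.prod_filter]
      apply Finset.prod_congr rfl
      intro j _
      by_cases hj : l j = none
      · simp [hj, ha]
      · obtain ⟨i, hi⟩ := Option.ne_none_iff_exists'.1 hj
        simp [hi, ha]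
    have h2 : (univ.filter (fun j => l j ≠ none)).card ≤ ∑ i, m i :=
      (lv4_card_labelled l).trans (Finset.sum_le_sum fun i _ => hl.2 i)
    rw [h1]
    obtain ⟨c, hc⟩ := Nat.exists_eq_add_of_le h2
    rw [hc, pow_add, inv_pow]
    have h3 : y ^ (univ.filter (fun j => l j ≠ none)).card ≠ 0 := pow_ne_zero _ hy0.ne'
    have h4 : y ^ (univ.filter (fun j => l j ≠ none)).card * y ^ c *
        (y ^ (univ.filter (fun j => l j ≠ none)).card)⁻¹ = y ^ c := by
      field_simp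
    rw [h4]
    exact one_le_pow₀ hy1
  have hsum : ∑ l : J → Option I, ∏ j, a (l j) =
      (1 + (Fintype.card I : ℝ) * y⁻¹) ^ Fintype.card J := by
    have h1 := Finset.prod_univ_sum (fun _ : J => (univ : Finset (Option I))) (fun _ o => a o)
    rw [Fintype.piFinset_univ] at h1
    rw [← h1, Fintype.sum_option]
    simp [ha]
  have hexp : (1 + (Fintype.card I : ℝ) * y⁻¹) ^ Fintype.card J ≤ 3 := by
    have h1 : 1 + (Fintype.card I : ℝ) * y⁻¹ ≤ Real.exp ((Fintype.card I : ℝ) * y⁻¹) := by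
      have := Real.add_one_le_exp ((Fintype.card I : ℝ) * y⁻¹)
      linarith
    have h0 : 0 ≤ 1 + (Fintype.card I : ℝ) * y⁻¹ := by positivity
    calc (1 + (Fintype.card I : ℝ) * y⁻¹) ^ Fintype.card J
        ≤ (Real.exp ((Fintype.card I : ℝ) * y⁻¹)) ^ Fintype.card J := pow_le_pow_left₀ h0 h1 _
      _ = Real.exp (Fintype.card J * ((Fintype.card I : ℝ) * y⁻¹)) := by
          rw [← Real.exp_nat_mul]
      _ ≤ Real.exp 1 := by
          apply Real.exp_le_exp.2
          have h2 : (Fintype.card J : ℝ) * ((Fintype.card I : ℝ) * y⁻¹) =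
              ((Fintype.card I : ℝ) * Fintype.card J) / y := by
            field_simp
          rw [h2, div_le_one hy0, hy]
          linarith
      _ ≤ 3 := by
          have := Real.exp_one_lt_d9
          linarith
  calc ((adm B m).card : ℝ) = ∑ l ∈ adm B m, (1 : ℝ) := by simp
    _ ≤ ∑ l ∈ adm B m, y ^ (∑ i, m i) * ∏ j, a (l j) := Finset.sum_le_sum hterm
    _ ≤ ∑ l : J → Option I, y ^ (∑ i, m i) * ∏ j, a (l j) := by
        apply Finset.sum_le_sum_of_subset_of_nonneg (Finset.subset_univ _)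
        intro l _ _
        exact mul_nonneg (by positivity) (Finset.prod_nonneg fun j _ => ha0 _)
    _ = y ^ (∑ i, m i) * (1 + (Fintype.card I : ℝ) * y⁻¹) ^ Fintype.card J := by
        rw [← Finset.mul_sum, hsum]
    _ ≤ y ^ (∑ i, m i) * 3 := by
        apply mul_le_mul_of_nonneg_left hexp (by positivity)
    _ = 3 * y ^ (∑ i, m i) := by ring

theorem lv4_prod_kd (KD : I → ℝ) (l : J → Option I) :
    ∏ j, (l j).elim 1 KD = ∏ i, KD i ^ cnt l i := by
  have h1 := Finset.prod_fiberwise' (univ : Finset J) l (fun o => o.elim 1 KD)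
  rw [← h1, Fintype.prod_option]
  simp only [Option.elim, Finset.prod_const_one, one_mul, Finset.prod_const]
  rfl




end Pool.Agent.Lib.H15P
end

-- from Lib.H92G.G4
section

/-!
# Chunk G4: the level

Compare `H15P/LV4` (`lv4_main`, `card_adm_le`).
-/

open Finset

namespace Pool.Agent.Lib.H92G

open Pool.Agent.Lib.H15P

variable {J I : Type} [Fintype J] [DecidableEq J] [Fintype I] [DecidableEq I]

/-- Every term has level at most `|w l| ∏_i KD_i^(cnt l i) ≤ wm ∏_i KD_i^(m i)` (`KD ≥ 1`; a label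
`none` contributes the constant `1`, of level `1`: `Lev.const`). `card_adm_le` for the number of
terms. -/
theorem lev_LW (P : Finset ℕ) (hP : ∀ p ∈ P, p.Prime) (D : J → I → Finset {p // p ∈ P} → ℝ)
    (KD : I → ℝ) (hK : ∀ i, 1 ≤ KD i) (hD : ∀ j i, LevS P (D j i) (KD i)) (m : I → ℕ)
    (B : Finset J) (M : ℕ) (b : J → ℕ) (w : (J → Option I) → ℝ) (wm : ℝ) (hw0 : 0 ≤ wm)
    (hw : ∀ l, |w l| ≤ wm) :
    Lev (∏ p ∈ P, p) (fun t => LW D (adm B m) w (fun j => hit P (b j + M * t)))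
      (wm * (3 * ((Fintype.card I : ℝ) * Fintype.card J + 1) ^ (∑ i, m i) *
        ∏ i, KD i ^ m i)) := by
  have hQ : 0 < ∏ p ∈ P, p := Finset.prod_pos fun p hp => (hP p hp).pos
  have hfac : ∀ (o : Option I) (j : J), Lev (∏ p ∈ P, p)
      (fun t => dg D j o (hit P (b j + M * t))) (o.elim 1 KD) := by
    intro o j
    cases o with
    | none =>
      have h1 := Lev.const hQ 1
      rw [abs_one] at h1
      exact h1
    | some i => exact hD j i M (b j)
  have hterm : ∀ l ∈ adm B m, Lev (∏ p ∈ P, p)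
      (fun t => w l * ∏ j, dg D j (l j) (hit P (b j + M * t))) (wm * ∏ i, KD i ^ m i) := by
    intro l hl
    rw [lv4_mem_adm] at hl
    have h1 := Lev.prod (univ : Finset J) (fun j t => dg D j (l j) (hit P (b j + M * t)))
      (fun j => (l j).elim 1 KD) hQ (fun j _ => hfac (l j) j)
    have h2 := h1.const_mul (w l)
    refine Lev.mono _ _ _ h2 ?_
    rw [lv4_prod_kd]
    have h3 : ∏ i, KD i ^ cnt l i ≤ ∏ i, KD i ^ m i := by
      apply Finset.prod_le_prod
      · intro i _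
        exact pow_nonneg (by linarith [hK i]) _
      · intro i _
        exact pow_le_pow_right₀ (hK i) (hl.2 i)
    have h4 : 0 ≤ ∏ i, KD i ^ cnt l i :=
      Finset.prod_nonneg fun i _ => pow_nonneg (by linarith [hK i]) _
    calc |w l| * ∏ i, KD i ^ cnt l i ≤ wm * ∏ i, KD i ^ cnt l i :=
          mul_le_mul_of_nonneg_right (hw l) h4
      _ ≤ wm * ∏ i, KD i ^ m i := mul_le_mul_of_nonneg_left h3 hw0
  have hs := Lev.sum (adm B m) (fun l t => w l * ∏ j, dg D j (l j) (hit P (b j + M * t)))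
    (fun _ => wm * ∏ i, KD i ^ m i) hQ hterm
  unfold LW
  refine Lev.mono _ _ _ hs ?_
  rw [Finset.sum_const, nsmul_eq_mul]
  have h5 : 0 ≤ wm * ∏ i, KD i ^ m i :=
    mul_nonneg hw0 (Finset.prod_nonneg fun i _ => pow_nonneg (by linarith [hK i]) _)
  calc ((adm B m).card : ℝ) * (wm * ∏ i, KD i ^ m i)
      ≤ (3 * ((Fintype.card I : ℝ) * Fintype.card J + 1) ^ (∑ i, m i)) *
        (wm * ∏ i, KD i ^ m i) := mul_le_mul_of_nonneg_right (card_adm_le B m) h5
    _ = _ := by ring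

end Pool.Agent.Lib.H92G
end

-- from Lib.H68T.ZF3
section

/-!
# Chunk ZF3; part of ZF1, ZF2, ZF3: zero-free regions
(`L := log Q`; all `log N, log(|t|+3), log(1/(σ-1))` in `re_char` are `O(L)` for `N ≤ Q^2`,
`|t| ≤ 2 Q^12 + 2`, `σ = 1 + a/L`.)
-/

open Finset

namespace Pool.Agent.Lib.H68T

theorem zf3_near (s : ℂ) (hs : 1 ≤ s.re) : ∀ᶠ z in nhds s, riemannZeta z ≠ 0 := by
  by_cases h1 : s = 1
  · subst h1
    have h2 := riemannZeta_residue_one
    have h3 : ∀ᶠ z in nhdsWithin (1 : ℂ) {1}ᶜ, (z - 1) * riemannZeta z ≠ 0 :=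
      h2.eventually_ne one_ne_zero
    rw [eventually_nhdsWithin_iff] at h3
    filter_upwards [h3] with z hz
    by_cases hz1 : z = 1
    · rw [hz1]; exact riemannZeta_one_ne_zero
    · exact right_ne_zero_of_mul (hz hz1)
  · have h2 : ContinuousAt riemannZeta s := (differentiableAt_riemannZeta h1).continuousAt
    exact h2.eventually_ne (riemannZeta_ne_zero_of_one_le_re hs)

theorem zf3_low : ∃ δ : ℝ, 0 < δ ∧ ∀ ρ : ℂ, riemannZeta ρ = 0 → |ρ.im| ≤ 1 →
    ρ.re < 1 - δ := by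
  have hK : IsCompact ((fun y : ℝ => (1 + y * Complex.I : ℂ)) '' Set.Icc (-1) 1) :=
    isCompact_Icc.image (by fun_prop)
  obtain ⟨δ, hδ, hsub⟩ := hK.exists_thickening_subset_open
    (isOpen_interior (s := {z : ℂ | riemannZeta z ≠ 0})) (by
      rintro s ⟨y, -, rfl⟩
      rw [mem_interior_iff_mem_nhds]
      exact zf3_near _ (by simp))
  refine ⟨δ / 2, by positivity, fun ρ hρ him => ?_⟩
  by_contra hcon
  push Not at hcon
  have hre : ρ.re < 1 := by
    by_contra h
    push Not at h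
    exact riemannZeta_ne_zero_of_one_le_re h hρ
  have hmem : ρ ∈ Metric.thickening δ
      ((fun y : ℝ => (1 + y * Complex.I : ℂ)) '' Set.Icc (-1) 1) := by
    rw [Metric.mem_thickening_iff]
    refine ⟨1 + ρ.im * Complex.I, ⟨ρ.im, abs_le.1 him, rfl⟩, ?_⟩
    rw [Complex.dist_eq]
    have : ρ - (1 + ρ.im * Complex.I) = ((ρ.re - 1 : ℝ) : ℂ) := by
      apply Complex.ext <;> simp
    rw [this, Complex.norm_real, Real.norm_eq_abs, abs_of_nonpos (by linarith)]
    linarith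
  exact interior_subset (hsub hmem) hρ

/-- **ZF3**, zeta. For `|γ| ≥ a/L` as in ZF2 (with `three_four_one_zeta`, and
`Re 1/(σ-1+iγ) ≤ (a/L)/((a/L)² + γ²) ≤ L/(2a)`; choose the threshold `|γ| ≥ 1` instead, where this
is `O(1)`); for `|γ| ≤ 1` use that `(s-1) ζ(s)` (value `1` at `1`) has no zero on the compact set
`Re s = 1, |Im s| ≤ 1`, hence none in `Re s ≥ 1 - δ`, `|Im s| ≤ 1` for some `δ > 0`. -/
theorem zero_free_zeta : ∃ c₁ K : ℝ, 0 < c₁ ∧ ∀ Q : ℕ, K ≤ Q → ∀ ρ : ℂ, riemannZeta ρ = 0 →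
    |ρ.im| ≤ (Q : ℝ) ^ 12 + 1 → ρ.re < 1 - c₁ / Real.log Q := by
  obtain ⟨C₁, hC₁, hvM⟩ := vonMangoldt_le
  obtain ⟨C₂, hC₂, hre⟩ := re_zeta
  obtain ⟨δ, hδ, hlow⟩ := zf3_low
  set C' : ℝ := 3 * C₁ + 5 + 75 * C₂ with hC'
  have hC'5 : 5 < C' := by rw [hC']; nlinarith
  set a : ℝ := 1 / (2 * C') with ha
  have ha0 : 0 < a := by positivity
  have ha10 : a ≤ 1 / 10 := by
    rw [ha]
    exact one_div_le_one_div_of_le (by norm_num) (by linarith)
  set c₁ : ℝ := a / 8 with hc₁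
  have hc₁0 : 0 < c₁ := by positivity
  refine ⟨c₁, Real.exp (10 + 2 * |Real.log a| + c₁ / δ), hc₁0, ?_⟩
  intro Q hQ ρ hρ him
  have hQ0 : (0 : ℝ) < Q := lt_of_lt_of_le (Real.exp_pos _) hQ
  set L : ℝ := Real.log Q with hL
  have hLb : 10 + 2 * |Real.log a| + c₁ / δ ≤ L := (Real.le_log_iff_exp_le hQ0).2 hQ
  have hcδ : 0 ≤ c₁ / δ := by positivity
  have hlog0 : 0 ≤ |Real.log a| := abs_nonneg _
  have hL10 : 10 ≤ L := by linarith
  have hL0 : 0 < L := by linarith
  have hQ3 : (3 : ℝ) ≤ Q := by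
    have h1 : L ≤ Q := (Real.log_le_sub_one_of_pos hQ0).trans (by linarith)
    linarith
  by_contra hcon
  push Not at hcon
  have hre1 : ρ.re < 1 := by
    by_contra h
    push Not at h
    exact riemannZeta_ne_zero_of_one_le_re h hρ
  rcases le_or_gt |ρ.im| 1 with hγ | hγ
  · have h1 := hlow ρ hρ hγ
    have h2 : c₁ / L ≤ δ := by
      rw [div_le_iff₀ hL0]
      have : c₁ / δ ≤ L := by linarith
      rw [div_le_iff₀ hδ] at this
      linarith
    linarith
  · set γ : ℝ := ρ.im with hγdef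
    set σ : ℝ := 1 + a / L with hσ
    have haL : a / L ≤ 1 / 100 := by
      rw [div_le_iff₀ hL0]
      linarith
    have haL0 : 0 < a / L := by positivity
    have hσ1 : 1 < σ := by linarith
    have hσ2 : σ ≤ 5 / 4 := by linarith
    have hcL : c₁ / L ≤ 1 / 100 := by
      rw [div_le_iff₀ hL0]
      have : c₁ ≤ a := by rw [hc₁]; linarith
      linarith
    have hσβ : σ - ρ.re ≤ (a + c₁) / L := by
      rw [hσ, add_div]
      linarith
    have hσβ0 : 0 < σ - ρ.re := by linarith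
    have h341 := three_four_one_zeta σ γ hσ1
    have e1 := hvM σ hσ1 (by linarith)
    have e2 := hre σ γ hσ1 hσ2 {ρ} (by
      intro ρ' hρ'
      rw [Finset.mem_singleton] at hρ'
      subst hρ'
      refine ⟨hρ, ?_⟩
      have : ρ' - (σ + γ * Complex.I) = ((ρ'.re - σ : ℝ) : ℂ) := by
        apply Complex.ext <;> simp [hγdef]
      rw [this, Complex.norm_real, Real.norm_eq_abs, abs_of_nonpos (by linarith)]
      rw [add_div] at hσβ
      linarith)
    have e3 := hre σ (2 * γ) hσ1 hσ2 ∅ (by simp)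
    rw [Finset.sum_singleton] at e2
    rw [Finset.sum_empty, sub_zero] at e3
    have f1 : (1 / ((σ : ℂ) + γ * Complex.I - ρ)).re = 1 / (σ - ρ.re) := by
      have : (σ : ℂ) + γ * Complex.I - ρ = ((σ - ρ.re : ℝ) : ℂ) := by
        apply Complex.ext <;> simp [hγdef]
      rw [this, ← Complex.ofReal_one, ← Complex.ofReal_div, Complex.ofReal_re]
    have f2 : ∀ t : ℝ, 1 ≤ |t| → (1 / ((σ : ℂ) + t * Complex.I - 1)).re ≤ 1 := by
      intro t ht
      refine (Complex.re_le_norm _).trans ?_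
      rw [norm_div, norm_one]
      have h1 : |t| ≤ ‖(σ : ℂ) + t * Complex.I - 1‖ := by
        have h2 := Complex.abs_im_le_norm ((σ : ℂ) + t * Complex.I - 1)
        simpa using h2
      rw [div_le_one (by linarith)]
      linarith
    have hLa : Real.log (1 / (σ - 1)) ≤ L := by
      have h1 : 1 / (σ - 1) = L / a := by
        have h0 : σ - 1 = a / L := by rw [hσ]; ring
        rw [h0, one_div, inv_div]
      rw [h1, Real.log_div hL0.ne' ha0.ne']
      have h2 : Real.log L ≤ L / 2 := by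
        have h3 := Real.log_le_sub_one_of_pos (show 0 < L / 2 by positivity)
        rw [Real.log_div hL0.ne' (by norm_num)] at h3
        have h4 := Real.log_two_lt_d9
        linarith
      have h5 : -Real.log a ≤ |Real.log a| := neg_le_abs _
      linarith
    have hpow : 2 * ((Q : ℝ) ^ 12 + 1) + 3 ≤ (Q : ℝ) ^ 13 := by
      have h1 : (Q : ℝ) ^ 13 = (Q : ℝ) ^ 12 * Q := by ring
      have h2 : (3 : ℝ) ^ 12 ≤ (Q : ℝ) ^ 12 := pow_le_pow_left₀ (by norm_num) hQ3 12
      rw [h1]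
      nlinarith
    have hlt : ∀ t : ℝ, |t| ≤ 2 * ((Q : ℝ) ^ 12 + 1) → Real.log (|t| + 3) ≤ 13 * L := by
      intro t ht
      have h0 : 0 ≤ |t| := abs_nonneg _
      have h1 : Real.log (|t| + 3) ≤ Real.log ((Q : ℝ) ^ 13) :=
        Real.log_le_log (by linarith) (by linarith)
      rw [Real.log_pow] at h1
      push_cast at h1
      exact h1
    have hQ12 : (0 : ℝ) ≤ (Q : ℝ) ^ 12 := by positivity
    have g2 := hlt γ (by linarith)
    have g3 := hlt (2 * γ) (by rw [abs_mul, abs_two]; linarith)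
    have k2 := f2 γ hγ.le
    have k3 := f2 (2 * γ) (by rw [abs_mul, abs_two]; linarith)
    rw [f1] at e2
    have m2 : C₂ * (Real.log (|γ| + 3) + Real.log (1 / (σ - 1)) + 1) ≤ C₂ * (15 * L) :=
      mul_le_mul_of_nonneg_left (by linarith) hC₂.le
    have m3 : C₂ * (Real.log (|2 * γ| + 3) + Real.log (1 / (σ - 1)) + 1) ≤ C₂ * (15 * L) :=
      mul_le_mul_of_nonneg_left (by linarith) hC₂.le
    have e1' : 1 / (σ - 1) = L / a := by
      have h0 : σ - 1 = a / L := by rw [hσ]; ring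
      rw [h0, one_div, inv_div]
    rw [e1'] at e1
    have e4 : (LSeries (fun n => (ArithmeticFunction.vonMangoldt n : ℂ))
        (σ + 2 * γ * Complex.I)).re ≤ 1 + C₂ * (15 * L) := by
      have h1 : ((σ : ℂ) + 2 * γ * Complex.I) = σ + ((2 * γ : ℝ) : ℂ) * Complex.I := by
        push_cast; ring
      rw [h1]
      linarith
    have n1 : L / (a + c₁) ≤ 1 / (σ - ρ.re) := by
      rw [div_le_div_iff₀ (by positivity) hσβ0]
      rw [le_div_iff₀ hL0] at hσβ
      linarith
    have n2 : 4 * (L / (a + c₁)) ≤ 3 * (L / a) + C' * L := by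
      have : C' * L = 3 * C₁ * L + 5 * L + 75 * C₂ * L := by rw [hC']; ring
      have h1 : 3 * C₁ ≤ 3 * C₁ * L := by nlinarith
      have h2 : (5 : ℝ) ≤ 5 * L := by linarith
      rw [this]
      linarith
    have n3 : L / (a + c₁) = (8 / 9) * (L / a) := by
      rw [hc₁]
      field_simp
      ring
    have n4 : C' * L = (1 / 2) * (L / a) := by
      rw [ha]
      field_simp
    rw [n3, n4] at n2
    have n5 : 0 < L / a := by positivity
    linarith

end Pool.Agent.Lib.H68T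
end
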