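import Pool.Agent.Lib.H1M.RV.M001
import Pool.Agent.Lib.H1M.RV.M008
import Pool.Agent.Lib.H1M.RV.M010
import Pool.Agent.Lib.H1M.RV.M011
import Pool.Agent.Lib.H1M.RV.M012
import Pool.Agent.Lib.H1M.RV.M019
import Pool.Agent.Lib.H1M.RV.M021
import Pool.Agent.Lib.H1M.RV.M025
import Pool.Agent.Lib.H1M.RV.M029
import Pool.Agent.Lib.H1M.RV.M031

/-! Merged copies (to shorten the build) of Lib.H15P.NT1, Lib.H92G.E6, Lib.H59C.PIN, Lib.H18Q.R2A, Lib.H68T.CG2, Lib.H68X.XFB, Lib.H68X.XPAIR. -/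

-- from Lib.H15P.NT1
section

/-!
# Chunk NT1: Mertens products over blocks
-/

open Finset

namespace Pool.Agent.Lib.H15P

theorem NT1_split (f : ℕ → ℝ) (a b : ℕ) (hab : a ≤ b) :
    ∏ p ∈ Sieve.primesUpTo b, f p =
      (∏ p ∈ Sieve.primesUpTo a, f p) * ∏ p ∈ (Ioc a b).filter Nat.Prime, f p := by
  have h1 : Sieve.primesUpTo b = Sieve.primesUpTo a ∪ (Ioc a b).filter Nat.Prime := by
    ext p
    rw [mem_union, Sieve.mem_primesUpTo, Sieve.mem_primesUpTo, mem_filter, mem_Ioc]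
    constructor
    · rintro ⟨h1, h2⟩
      rcases le_or_gt p a with h | h
      · exact Or.inl ⟨h1, h⟩
      · exact Or.inr ⟨⟨h, h2⟩, h1⟩
    · rintro (⟨h1, h2⟩ | ⟨⟨h1, h2⟩, h3⟩)
      · exact ⟨h1, h2.trans hab⟩
      · exact ⟨h3, h2⟩
  rw [h1, prod_union]
  rw [disjoint_left]
  intro p hp hp'
  rw [Sieve.mem_primesUpTo] at hp
  rw [mem_filter, mem_Ioc] at hp'
  omega

theorem NT1_pos (p : ℕ) (hp : p.Prime) : 0 < 1 - 1 / (p : ℝ) := by
  have h2 : (2 : ℝ) ≤ p := by exact_mod_cast hp.two_le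
  have : 1 / (p : ℝ) ≤ 1 / 2 := one_div_le_one_div_of_le (by norm_num) h2
  linarith

/-- `∏_{a < p ≤ b} (1 - 1/p) ≤ 500 log a / log b`, from `Sieve.prod_one_sub_inv_le b` and
`Helper57.prod_one_sub_inv_inv_le a`. -/
theorem mertens_prod_le (a b : ℕ) (ha : 2 ≤ a) (hab : a ≤ b) :
    ∏ p ∈ (Ioc a b).filter Nat.Prime, (1 - 1 / (p : ℝ)) ≤ 500 * (Real.log a / Real.log b) := by
  have hloga : 0 < Real.log a := Real.log_pos (by exact_mod_cast (by omega : 1 < a))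
  have hlogb : 0 < Real.log b := Real.log_pos (by exact_mod_cast (by omega : 1 < b))
  have h1 := Sieve.prod_one_sub_inv_le b (ha.trans hab)
  have h2 := Helper57.prod_one_sub_inv_inv_le a ha
  rw [NT1_split _ a b hab] at h1
  have hpos : 0 < ∏ p ∈ Sieve.primesUpTo a, (1 - 1 / (p : ℝ)) :=
    prod_pos fun p hp => NT1_pos p (Sieve.mem_primesUpTo.mp hp).1
  rw [prod_inv_distrib] at h2
  have h3 : ∏ p ∈ (Ioc a b).filter Nat.Prime, (1 - 1 / (p : ℝ)) ≤
      (∏ p ∈ Sieve.primesUpTo a, (1 - 1 / (p : ℝ)))⁻¹ * (1 / Real.log b) := by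
    rw [inv_mul_eq_div, le_div_iff₀ hpos]
    linarith
  refine h3.trans ((mul_le_mul_of_nonneg_right h2 (by positivity)).trans (le_of_eq ?_))
  ring

/-- `Σ_{a < p ≤ b} 1/p ≤ -Σ log (1 - 1/p) ≤ log (500 log b/log a)`. -/
theorem mertens_sum_le (a b : ℕ) (ha : 2 ≤ a) (hab : a ≤ b) :
    ∑ p ∈ (Ioc a b).filter Nat.Prime, 1 / (p : ℝ)
      ≤ Real.log (500 * (Real.log b / Real.log a)) := by
  have hloga : 0 < Real.log a := Real.log_pos (by exact_mod_cast (by omega : 1 < a))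
  have hlogb : 0 < Real.log b := Real.log_pos (by exact_mod_cast (by omega : 1 < b))
  have h1 := Sieve.prod_one_sub_inv_le a ha
  have h2 := Helper57.prod_one_sub_inv_inv_le b (ha.trans hab)
  have hposa : 0 < ∏ p ∈ Sieve.primesUpTo a, (1 - 1 / (p : ℝ)) :=
    prod_pos fun p hp => NT1_pos p (Sieve.mem_primesUpTo.mp hp).1
  have hposab : 0 < ∏ p ∈ (Ioc a b).filter Nat.Prime, (1 - 1 / (p : ℝ)) :=
    prod_pos fun p hp => NT1_pos p (mem_filter.1 hp).2
  rw [prod_inv_distrib, NT1_split _ a b hab] at h2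
  have h3 : (∏ p ∈ (Ioc a b).filter Nat.Prime, (1 - 1 / (p : ℝ)))⁻¹ ≤
      500 * (Real.log b / Real.log a) := by
    rw [mul_inv] at h2
    have e1 : (∏ p ∈ (Ioc a b).filter Nat.Prime, (1 - 1 / (p : ℝ)))⁻¹ =
        (∏ p ∈ Sieve.primesUpTo a, (1 - 1 / (p : ℝ))) *
          ((∏ p ∈ Sieve.primesUpTo a, (1 - 1 / (p : ℝ)))⁻¹ *
          (∏ p ∈ (Ioc a b).filter Nat.Prime, (1 - 1 / (p : ℝ)))⁻¹) := by
      field_simp
    rw [e1]
    calc _ ≤ (1 / Real.log a) * (500 * Real.log b) :=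
          mul_le_mul h1 h2 (by positivity) (by positivity)
      _ = _ := by ring
  refine le_trans ?_ (Real.log_le_log (by positivity) h3)
  rw [Real.log_inv, Real.log_prod (fun p hp => (NT1_pos p (mem_filter.1 hp).2).ne'),
    ← sum_neg_distrib]
  refine sum_le_sum fun p hp => ?_
  have := Real.log_le_sub_one_of_pos (NT1_pos p (mem_filter.1 hp).2)
  linarith

variable (κ W K : ℕ) (T : ℝ)

theorem NT1_frac (hK : 1 ≤ K) (hKW : 4 * K ^ 2 ≤ W) (p : ℕ) (hp : p.Prime) (hWp : W < p) :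
    (1 / (p : ℝ) + 2 * K / (p : ℝ) ^ 2) / (1 + 2 * K / (p : ℝ) ^ 2) /
      (1 - (1 / (p : ℝ) + 2 * K / (p : ℝ) ^ 2) / (1 + 2 * K / (p : ℝ) ^ 2)) ≤ 4 * (1 / (p : ℝ)) ∧
    1 - (1 / (p : ℝ) + 2 * K / (p : ℝ) ^ 2) / (1 + 2 * K / (p : ℝ) ^ 2) ≤ 1 - 1 / (p : ℝ) ∧
    0 ≤ 1 - (1 / (p : ℝ) + 2 * K / (p : ℝ) ^ 2) / (1 + 2 * K / (p : ℝ) ^ 2) := by
  have hp2 : (2 : ℝ) ≤ p := by exact_mod_cast hp.two_le
  have hp0 : (0 : ℝ) < p := by linarith
  have hK1 : (1 : ℝ) ≤ K := by exact_mod_cast hK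
  have hKp : 4 * (K : ℝ) ≤ p := by
    have h1 : 4 * K ≤ p := by nlinarith
    exact_mod_cast h1
  set x : ℝ := 1 / (p : ℝ) with hx
  have hx0 : 0 < x := by positivity
  have hx2 : x ≤ 1 / 2 := one_div_le_one_div_of_le (by norm_num) hp2
  set y : ℝ := 2 * K / (p : ℝ) ^ 2 with hy
  have hy0 : 0 < y := by positivity
  have hyx : y ≤ x / 2 := by
    rw [hy, hx, div_div, div_le_div_iff₀ (by positivity) (by positivity)]
    nlinarith
  have hden : 0 < 1 + y := by linarith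
  have h1 : 1 - (x + y) / (1 + y) = (1 - x) / (1 + y) := by
    field_simp
    ring
  rw [h1]
  have h1x : 0 < 1 - x := by linarith
  refine ⟨?_, ?_, by positivity⟩
  · rw [div_div_div_cancel_right₀ hden.ne', div_le_iff₀ h1x]
    nlinarith
  · rw [div_le_iff₀ hden]
    nlinarith

theorem NT1_bk (hκ : 2 ≤ κ) (p b : ℕ) (h1 : (κ : ℝ) ^ b ≤ T / Real.log p)
    (h2 : T / Real.log p < (κ : ℝ) ^ (b + 1)) : bk κ T p = b := by
  have h0 : 0 ≤ T / Real.log p := le_trans (by positivity) h1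
  unfold bk
  refine Nat.log_eq_of_pow_le_of_lt_pow ?_ ?_
  · exact Nat.le_floor (by rw [Nat.cast_pow]; exact h1)
  · rw [Nat.floor_lt h0, Nat.cast_pow]
    exact h2

/-- `qq/(1 - qq) = (1/p + 2K/p^2)/(1 - 1/p) ≤ 4/p`. In a block the logarithms of two primes differ
at most by the factor `κ`; with `a` = the smallest and `b` = the largest prime of the block
`Σ 1/p ≤ 1/a + log (500 κ) ≤ log (1000 κ)`. -/
theorem block_sum_le (hκ : 2 ≤ κ) (hW : 2 ≤ W) (hK : 1 ≤ K) (hKW : 4 * K ^ 2 ≤ W)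
    (hT : 0 ≤ T) (b : ℕ) :
    ∑ i ∈ univ.filter (fun i : {p // p ∈ PP W T} => bk κ T i.1 = b),
        qq (PP W T) K i / (1 - qq (PP W T) K i) ≤ 4 * Real.log (1000 * κ) := by
  have hκ2 : (2 : ℝ) ≤ κ := by exact_mod_cast hκ
  have h1 : ∑ i ∈ univ.filter (fun i : {p // p ∈ PP W T} => bk κ T i.1 = b),
        qq (PP W T) K i / (1 - qq (PP W T) K i) ≤
      ∑ i ∈ univ.filter (fun i : {p // p ∈ PP W T} => bk κ T i.1 = b), 4 * (1 / (i.1 : ℝ)) := by
    refine sum_le_sum fun i _ => ?_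
    obtain ⟨h1, h2, -⟩ := NT2_mem W T i.1 i.2
    exact (NT1_frac W K hK hKW i.1 h1 h2).1
  refine h1.trans ?_
  rw [← mul_sum]
  refine mul_le_mul_of_nonneg_left ?_ (by norm_num)
  have h2 : ∑ i ∈ univ.filter (fun i : {p // p ∈ PP W T} => bk κ T i.1 = b), 1 / (i.1 : ℝ) =
      ∑ p ∈ (PP W T).filter (fun p => bk κ T p = b), 1 / (p : ℝ) := by
    rw [sum_filter, sum_filter]
    exact Finset.sum_coe_sort (PP W T) (fun p => if bk κ T p = b then 1 / (p : ℝ) else 0)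
  rw [h2]
  set B := (PP W T).filter (fun p => bk κ T p = b) with hB
  have hmem : ∀ p ∈ B, p.Prime ∧ W < p ∧ Real.log p ≤ T ∧ bk κ T p = b := by
    intro p hp
    rw [hB, mem_filter] at hp
    obtain ⟨h1, h2, h3⟩ := NT2_mem W T p hp.1
    exact ⟨h1, h2, h3, hp.2⟩
  rcases B.eq_empty_or_nonempty with h | h
  · rw [h, sum_empty]
    exact Real.log_nonneg (by linarith)
  · set a := B.min' h with ha
    set c := B.max' h with hc
    obtain ⟨a1, a2, a3, a4⟩ := hmem a (B.min'_mem h)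
    obtain ⟨c1, c2, c3, c4⟩ := hmem c (B.max'_mem h)
    have hac : a ≤ c := B.min'_le_max' h
    have ha2 : 2 ≤ a := a1.two_le
    have hloga : 0 < Real.log a := Real.log_pos (by exact_mod_cast (by omega : 1 < a))
    have hlogc : 0 < Real.log c := Real.log_pos (by exact_mod_cast (by omega : 1 < c))
    have hsa := (bk_spec κ T hκ a a1 a3).2
    have hsc := (bk_spec κ T hκ c c1 c3).1
    rw [a4, div_lt_iff₀ hloga] at hsa
    rw [c4, le_div_iff₀ hlogc] at hsc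
    have hratio : Real.log c / Real.log a ≤ κ := by
      rw [div_le_iff₀ hloga]
      have h3 : (κ : ℝ) ^ b * Real.log c ≤ (κ : ℝ) ^ b * (κ * Real.log a) := by
        rw [pow_succ] at hsa
        linarith
      exact le_of_mul_le_mul_left h3 (by positivity)
    have hsub : B ⊆ insert a ((Ioc a c).filter Nat.Prime) := by
      intro p hp
      rw [mem_insert, mem_filter, mem_Ioc]
      have h3 := B.min'_le p hp
      have h4 := B.le_max' p hp
      rcases eq_or_lt_of_le h3 with h5 | h5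
      · exact Or.inl h5.symm
      · exact Or.inr ⟨⟨h5, h4⟩, (hmem p hp).1⟩
    have h3 : ∑ p ∈ B, 1 / (p : ℝ) ≤ 1 / (a : ℝ) + ∑ p ∈ (Ioc a c).filter Nat.Prime, 1 / (p : ℝ) := by
      refine (sum_le_sum_of_subset_of_nonneg hsub fun _ _ _ => by positivity).trans (le_of_eq ?_)
      rw [sum_insert]
      rw [mem_filter, mem_Ioc]
      omega
    have h4 := mertens_sum_le a c ha2 hac
    have h5 : Real.log (500 * (Real.log c / Real.log a)) ≤ Real.log (500 * κ) :=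
      Real.log_le_log (by positivity) (by linarith)
    have h6 : Real.log (1000 * (κ : ℝ)) = Real.log 2 + Real.log (500 * κ) := by
      rw [← Real.log_mul (by norm_num) (by positivity)]
      congr 1
      ring
    have h7 : 1 / (a : ℝ) ≤ 1 / 2 := one_div_le_one_div_of_le (by norm_num) (by exact_mod_cast ha2)
    have h8 := Real.log_two_gt_d9
    rw [h6]
    linarith

theorem NT1_floor (y : ℝ) (hy : 2 ≤ y) : y / 2 ≤ Real.log (⌊Real.exp y⌋₊ : ℕ) ∧
    Real.log (⌊Real.exp y⌋₊ : ℕ) ≤ y ∧ 2 ≤ ⌊Real.exp y⌋₊ := by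
  have h1 : 3 ≤ Real.exp y := by linarith [Real.add_one_le_exp y]
  have h2 : Real.exp y < (⌊Real.exp y⌋₊ : ℕ) + 1 := Nat.lt_floor_add_one _
  have h3 : ((⌊Real.exp y⌋₊ : ℕ) : ℝ) ≤ Real.exp y := Nat.floor_le (by linarith)
  have h4 : 2 ≤ ⌊Real.exp y⌋₊ := Nat.le_floor (by push_cast; linarith)
  have h4' : (2 : ℝ) ≤ (⌊Real.exp y⌋₊ : ℕ) := by exact_mod_cast h4
  refine ⟨?_, ?_, h4⟩
  · have h5 : Real.exp (y / 2) ≤ (⌊Real.exp y⌋₊ : ℕ) := by
      have h6 : Real.exp y = Real.exp (y / 2) * Real.exp (y / 2) := by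
        rw [← Real.exp_add]
        congr 1
        ring
      have h7 : 2 ≤ Real.exp (y / 2) := by linarith [Real.add_one_le_exp (y / 2)]
      nlinarith
    rwa [Real.le_log_iff_exp_le (by linarith)]
  · rw [Real.log_le_iff_le_exp (by linarith)]
    exact h3

theorem NT1_prod_coe (P : Finset ℕ) (f : ℕ → ℝ) (g : ℕ → Prop) [DecidablePred g] :
    ∏ i ∈ univ.filter (fun i : {p // p ∈ P} => g i.1), f i.1 = ∏ p ∈ P.filter g, f p := by
  rw [prod_filter, prod_filter]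
  exact Finset.prod_coe_sort P (fun p => if g p then f p else 1)

/-- products over larger sets of factors in `[0, 1]` -/
theorem NT1_mono (s t : Finset ℕ) (hst : s ⊆ t) (f g : ℕ → ℝ)
    (h0 : ∀ p ∈ t, 0 ≤ f p) (h1 : ∀ p ∈ t, f p ≤ g p) (h2 : ∀ p ∈ t, g p ≤ 1) :
    ∏ p ∈ t, f p ≤ ∏ p ∈ s, g p := by
  rw [← prod_sdiff hst]
  have h3 : ∏ p ∈ t \ s, f p ≤ 1 :=
    prod_le_one (fun p hp => h0 p (mem_sdiff.1 hp).1) fun p hp =>
      (h1 p (mem_sdiff.1 hp).1).trans (h2 p (mem_sdiff.1 hp).1)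
  have h4 : ∏ p ∈ s, f p ≤ ∏ p ∈ s, g p :=
    prod_le_prod (fun p hp => h0 p (hst hp)) fun p hp => h1 p (hst hp)
  calc _ ≤ 1 * ∏ p ∈ s, f p :=
        mul_le_mul_of_nonneg_right h3 (prod_nonneg fun p hp => h0 p (hst hp))
    _ ≤ _ := by rw [one_mul]; exact h4

/-- The block consists of all primes in `(⌊exp (T/κ^(b+1))⌋, ⌊exp (T/κ^b)⌋]`, because
`W ≤ exp (T/κ^(b+1))`; `1 - qq ≤ 1 - 1/p`, `mertens_prod_le`, and
`log ⌊exp y⌋ ≥ y - log 2 ≥ y/2` for `y ≥ 2`. -/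
theorem p0_le (hκ : 2 ≤ κ) (hW : 2 ≤ W) (hK : 1 ≤ K) (hKW : 4 * K ^ 2 ≤ W) (b : ℕ)
    (hT : Real.log W ≤ T / κ ^ (b + 1)) (hT2 : 2 ≤ T / κ ^ b) :
    p0 (qq (PP W T) K) (fun i => bk κ T i.1) b ≤ 1000 / κ := by
  have hκ2 : (2 : ℝ) ≤ κ := by exact_mod_cast hκ
  have hκ0 : (0 : ℝ) < κ := by linarith
  have hκb : (0 : ℝ) < (κ : ℝ) ^ b := by positivity
  have hT0 : 0 < T := by
    rw [le_div_iff₀ hκb] at hT2
    linarith
  have hTb : T / (κ : ℝ) ^ b ≤ T :=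
    div_le_self hT0.le (one_le_pow₀ (by linarith))
  set y : ℝ := T / (κ : ℝ) ^ b with hy
  set y' : ℝ := T / (κ : ℝ) ^ (b + 1) with hy'
  have hyy : y' = y / κ := by rw [hy, hy', pow_succ, div_div]
  have hW2 : (2 : ℝ) ≤ W := by exact_mod_cast hW
  have hWexp : (W : ℝ) ≤ Real.exp y' := (Real.log_le_iff_le_exp (by linarith)).1 hT
  have hWa : W ≤ ⌊Real.exp y'⌋₊ := Nat.le_floor hWexp
  have hy'y : y' ≤ y := by
    rw [hyy]
    exact div_le_self (by linarith) (by linarith)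
  have hac : ⌊Real.exp y'⌋₊ ≤ ⌊Real.exp y⌋₊ := Nat.floor_le_floor (Real.exp_le_exp.2 hy'y)
  have hm := mertens_prod_le ⌊Real.exp y'⌋₊ ⌊Real.exp y⌋₊ (hW.trans hWa) hac
  obtain ⟨f1, f2, f3⟩ := NT1_floor y hT2
  have hloga : Real.log (⌊Real.exp y'⌋₊ : ℕ) ≤ y' := by
    have h1 : (2 : ℝ) ≤ (⌊Real.exp y'⌋₊ : ℕ) := by exact_mod_cast hW.trans hWa
    rw [Real.log_le_iff_le_exp (by linarith)]
    exact Nat.floor_le (Real.exp_pos _).le
  have h5 : 500 * (Real.log (⌊Real.exp y'⌋₊ : ℕ) / Real.log (⌊Real.exp y⌋₊ : ℕ)) ≤ 1000 / κ := by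
    have h6 : Real.log (⌊Real.exp y'⌋₊ : ℕ) / Real.log (⌊Real.exp y⌋₊ : ℕ) ≤ y' / (y / 2) :=
      div_le_div₀ (by rw [hyy]; positivity) hloga (by linarith) f1
    have h7 : y' / (y / 2) = 2 / κ := by
      rw [hyy]
      have : y ≠ 0 := by linarith
      field_simp
    rw [h7] at h6
    calc _ ≤ 500 * (2 / (κ : ℝ)) := by linarith
      _ = _ := by ring
  refine le_trans ?_ (hm.trans h5)
  unfold p0
  have h8 := NT1_prod_coe (PP W T) (fun p => 1 - (1 / (p : ℝ) + 2 * K / (p : ℝ) ^ 2) /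
    (1 + 2 * K / (p : ℝ) ^ 2)) (fun p => bk κ T p = b)
  refine (le_of_eq h8).trans (NT1_mono _ _ ?_ _ _ ?_ ?_ ?_)
  · intro p hp
    rw [mem_filter, mem_Ioc] at hp
    obtain ⟨⟨g1, g2⟩, g3⟩ := hp
    have hlogp : 0 < Real.log p := Real.log_pos (by exact_mod_cast g3.one_lt)
    have e1 : y' < Real.log p := by
      rw [Real.lt_log_iff_exp_lt (by exact_mod_cast g3.pos)]
      exact (Nat.floor_lt (Real.exp_pos _).le).1 g1
    have e2 : Real.log p ≤ y := by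
      rw [Real.log_le_iff_le_exp (by exact_mod_cast g3.pos)]
      exact (Nat.le_floor_iff (Real.exp_pos _).le).1 g2
    rw [mem_filter]
    constructor
    · unfold PP
      rw [mem_filter, mem_Ioc]
      refine ⟨⟨by omega, Nat.le_floor ?_⟩, g3⟩
      rw [← Real.log_le_iff_le_exp (by exact_mod_cast g3.pos)]
      linarith
    · refine NT1_bk κ T hκ p b ?_ ?_
      · rw [le_div_iff₀ hlogp]
        rw [hy, le_div_iff₀ hκb] at e2
        linarith
      · rw [div_lt_iff₀ hlogp]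
        rw [hy', div_lt_iff₀ (by positivity)] at e1
        linarith
  · intro p hp
    obtain ⟨h1, h2, -⟩ := NT2_mem W T p (mem_filter.1 hp).1
    exact (NT1_frac W K hK hKW p h1 h2).2.2
  · intro p hp
    obtain ⟨h1, h2, -⟩ := NT2_mem W T p (mem_filter.1 hp).1
    exact (NT1_frac W K hK hKW p h1 h2).2.1
  · intro p _
    have : 0 ≤ 1 / (p : ℝ) := by positivity
    linarith

/-- The blocks `i, .., N - 1` contain all primes in `(W, ⌊exp (T/κ^i)⌋]`. -/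
theorem prod_p0_le (hκ : 2 ≤ κ) (hW : 2 ≤ W) (hK : 1 ≤ K) (hKW : 4 * K ^ 2 ≤ W) (i N : ℕ)
    (hN : ∀ p ∈ PP W T, bk κ T p < N)
    (hT : Real.log W ≤ T / κ ^ i) (hT2 : 2 ≤ T / κ ^ i) :
    ∏ b ∈ Ico i N, p0 (qq (PP W T) K) (fun i => bk κ T i.1) b
      ≤ 1000 * Real.log W * κ ^ i / T := by
  have hκ2 : (2 : ℝ) ≤ κ := by exact_mod_cast hκ
  have hκ0 : (0 : ℝ) < κ := by linarith
  have hκb : (0 : ℝ) < (κ : ℝ) ^ i := by positivity
  have hT0 : 0 < T := by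
    rw [le_div_iff₀ hκb] at hT2
    linarith
  have hTb : T / (κ : ℝ) ^ i ≤ T :=
    div_le_self hT0.le (one_le_pow₀ (by linarith))
  set y : ℝ := T / (κ : ℝ) ^ i with hy
  have hW2 : (2 : ℝ) ≤ W := by exact_mod_cast hW
  have hWexp : (W : ℝ) ≤ Real.exp y := (Real.log_le_iff_le_exp (by linarith)).1 hT
  have hWa : W ≤ ⌊Real.exp y⌋₊ := Nat.le_floor hWexp
  have hm := mertens_prod_le W ⌊Real.exp y⌋₊ hW hWa
  obtain ⟨f1, f2, f3⟩ := NT1_floor y hT2
  have hlogW : 0 < Real.log W := Real.log_pos (by linarith)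
  have h5 : 500 * (Real.log W / Real.log (⌊Real.exp y⌋₊ : ℕ)) ≤
      1000 * Real.log W * (κ : ℝ) ^ i / T := by
    have h6 : Real.log W / Real.log (⌊Real.exp y⌋₊ : ℕ) ≤ Real.log W / (y / 2) :=
      div_le_div_of_nonneg_left hlogW.le (by linarith) f1
    have h7 : 500 * (Real.log W / (y / 2)) = 1000 * Real.log W * (κ : ℝ) ^ i / T := by
      rw [hy]
      field_simp
      ring
    linarith
  refine le_trans ?_ (hm.trans h5)
  have h8 : ∀ b, p0 (qq (PP W T) K) (fun i => bk κ T i.1) b =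
      ∏ p ∈ (PP W T).filter (fun p => bk κ T p = b),
        (1 - (1 / (p : ℝ) + 2 * K / (p : ℝ) ^ 2) / (1 + 2 * K / (p : ℝ) ^ 2)) := fun b =>
    NT1_prod_coe (PP W T) (fun p => 1 - (1 / (p : ℝ) + 2 * K / (p : ℝ) ^ 2) /
    (1 + 2 * K / (p : ℝ) ^ 2)) (fun p => bk κ T p = b)
  simp only [h8]
  have h9 : ∏ b ∈ Ico i N, ∏ p ∈ (PP W T).filter (fun p => bk κ T p = b),
        (1 - (1 / (p : ℝ) + 2 * K / (p : ℝ) ^ 2) / (1 + 2 * K / (p : ℝ) ^ 2)) =
      ∏ p ∈ (PP W T).filter (fun p => bk κ T p ∈ Ico i N),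
        (1 - (1 / (p : ℝ) + 2 * K / (p : ℝ) ^ 2) / (1 + 2 * K / (p : ℝ) ^ 2)) := by
    rw [← prod_fiberwise_of_maps_to (s := (PP W T).filter (fun p => bk κ T p ∈ Ico i N))
      (t := Ico i N) (g := bk κ T) (fun p hp => (mem_filter.1 hp).2)]
    refine prod_congr rfl fun b hb => ?_
    rw [filter_filter]
    refine prod_congr ?_ fun _ _ => rfl
    ext p
    rw [mem_filter, mem_filter]
    constructor
    · rintro ⟨g1, g2⟩
      exact ⟨g1, by rw [g2]; exact hb, g2⟩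
    · rintro ⟨g1, -, g2⟩
      exact ⟨g1, g2⟩
  rw [h9]
  refine NT1_mono _ _ ?_ _ _ ?_ ?_ ?_
  · intro p hp
    rw [mem_filter, mem_Ioc] at hp
    obtain ⟨⟨g1, g2⟩, g3⟩ := hp
    have hlogp : 0 < Real.log p := Real.log_pos (by exact_mod_cast g3.one_lt)
    have e2 : Real.log p ≤ y := by
      rw [Real.log_le_iff_le_exp (by exact_mod_cast g3.pos)]
      exact (Nat.le_floor_iff (Real.exp_pos _).le).1 g2
    have hpP : p ∈ PP W T := by
      unfold PP
      rw [mem_filter, mem_Ioc]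
      refine ⟨⟨by omega, Nat.le_floor ?_⟩, g3⟩
      rw [← Real.log_le_iff_le_exp (by exact_mod_cast g3.pos)]
      linarith
    rw [mem_filter, mem_Ico]
    refine ⟨hpP, ?_, hN p hpP⟩
    have e3 := (bk_spec κ T hκ p g3 (by linarith)).2
    have e4 : (κ : ℝ) ^ i ≤ T / Real.log p := by
      rw [le_div_iff₀ hlogp]
      rw [hy, le_div_iff₀ hκb] at e2
      linarith
    have e5 : (κ : ℝ) ^ i < (κ : ℝ) ^ (bk κ T p + 1) := lt_of_le_of_lt e4 e3
    have e6 := (pow_lt_pow_iff_right₀ (by linarith : (1 : ℝ) < κ)).1 e5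
    omega
  · intro p hp
    obtain ⟨h1, h2, -⟩ := NT2_mem W T p (mem_filter.1 hp).1
    exact (NT1_frac W K hK hKW p h1 h2).2.2
  · intro p hp
    obtain ⟨h1, h2, -⟩ := NT2_mem W T p (mem_filter.1 hp).1
    exact (NT1_frac W K hK hKW p h1 h2).2.1
  · intro p _
    have : 0 ≤ 1 / (p : ℝ) := by positivity
    linarith

end Pool.Agent.Lib.H15P
end

-- from Lib.H92G.E6
section

/-!
# Chunk E6: the mean value `EU`, and `Q/φ(Q)`
-/

open Finset

namespace Pool.Agent.Lib.H92G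

open Pool.Agent.Lib.H15P

variable {J : Type} [Fintype J] [DecidableEq J]

theorem e6_totient (P : Finset ℕ) (hp : ∀ p ∈ P, p.Prime) :
    ((∏ p ∈ P, p).totient : ℝ) = ∏ p ∈ P, ((p : ℝ) - 1) := by
  induction P using Finset.induction_on with
  | empty => simp
  | insert a s ha ih =>
    have hap := hp a (mem_insert_self a s)
    have hcop : Nat.Coprime a (∏ p ∈ s, p) := by
      rw [Nat.coprime_prod_right_iff]
      intro q hq
      rw [Nat.coprime_primes hap (hp q (mem_insert_of_mem hq))]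
      rintro rfl
      exact ha hq
    rw [prod_insert ha, prod_insert ha, Nat.totient_mul hcop, Nat.totient_prime hap,
      Nat.cast_mul, ih (fun q hq => hp q (mem_insert_of_mem hq)), Nat.cast_sub hap.one_le,
      Nat.cast_one]

theorem e6_ratio (P : Finset ℕ) (hp : ∀ p ∈ P, p.Prime) :
    ((∏ p ∈ P, p : ℕ) : ℝ) / ((∏ p ∈ P, p).totient : ℝ) = ∏ p ∈ P, (1 - 1 / (p : ℝ))⁻¹ := by
  rw [e6_totient P hp, Nat.cast_prod, ← prod_div_distrib]
  refine prod_congr rfl fun p hpP => ?_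
  have h2 : (2 : ℝ) ≤ p := by exact_mod_cast (hp p hpP).two_le
  have h3 : (p : ℝ) - 1 ≠ 0 := by linarith
  have h4 : (p : ℝ) ≠ 0 := by linarith
  field_simp

theorem e6_hit (P : Finset ℕ) (hp : ∀ p ∈ P, p.Prime) (e : ℕ) :
    hit P e = ∅ ↔ e.Coprime (∏ p ∈ P, p) := by
  rw [Nat.coprime_prod_right_iff]
  unfold hit
  rw [filter_eq_empty_iff]
  constructor
  · intro h p hpP
    rw [Nat.coprime_comm, Nat.Prime.coprime_iff_not_dvd (hp p hpP)]
    exact h (mem_univ ⟨p, hpP⟩)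
  · intro h p _
    have := h p.1 p.2
    rwa [Nat.coprime_comm, Nat.Prime.coprime_iff_not_dvd (hp p.1 p.2)] at this



/-- `φ(Q)/Q = ∏ (1 - 1/p)`, `1 - qq p = (1 - 1/p)/(1 + 2K/p^2)`, and
`∏ 1/(1 + 2K/p^2) ≥ 1 - ∑ 2K/p^2 ≥ 1 - 2K/W` (`sum_inv_sq_le`). -/
theorem p_empty_ge (P : Finset ℕ) (W K : ℕ) (hp : ∀ p ∈ P, p.Prime) (hK : 1 ≤ K)
    (hKW : 4 * K ^ 2 ≤ W) (hb : ∀ p ∈ P, W < p) :
    1 - 2 * (K : ℝ) / W ≤ (((∏ p ∈ P, p : ℕ) : ℝ) / ((∏ p ∈ P, p).totient : ℝ)) *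
      ∏ i, (1 - qq P K i) := by
  have hW1 : 1 ≤ W := by nlinarith
  have hK1 : (1 : ℝ) ≤ K := by exact_mod_cast hK
  have hpK : ∀ p ∈ P, 4 * (K : ℝ) ≤ p := by
    intro p hpP
    have := hb p hpP
    have h2 : 4 * K ≤ p := by nlinarith
    exact_mod_cast h2
  have e1 : ∏ i, (1 - qq P K i)
      = ∏ p ∈ P, ((1 - 1 / (p : ℝ)) / (1 + 2 * K / (p : ℝ) ^ 2)) := by
    rw [← prod_coe_sort P (fun p : ℕ => ((1 - 1 / (p : ℝ)) / (1 + 2 * K / (p : ℝ) ^ 2)))]
    refine prod_congr rfl fun i _ => ?_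
    have hx : (0 : ℝ) < (i.1 : ℝ) := by have := hpK i.1 i.2; linarith
    have hN : (0 : ℝ) < 1 + 2 * K / (i.1 : ℝ) ^ 2 := by positivity
    unfold qq
    rw [eq_div_iff hN.ne', sub_mul, div_mul_cancel₀ _ hN.ne']
    ring
  rw [e1, e6_ratio P hp, ← prod_mul_distrib]
  have e2 : ∀ p ∈ P, (1 - 1 / (p : ℝ))⁻¹ * ((1 - 1 / (p : ℝ)) / (1 + 2 * K / (p : ℝ) ^ 2))
      = 1 / (1 + 2 * K / (p : ℝ) ^ 2) := by
    intro p hpP
    have h2 : (2 : ℝ) ≤ p := by exact_mod_cast (hp p hpP).two_le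
    have h3 : (1 - 1 / (p : ℝ)) ≠ 0 := by
      have : 1 / (p : ℝ) ≤ 1 / 2 := one_div_le_one_div_of_le (by norm_num) h2
      linarith
    rw [← mul_div_assoc, inv_mul_cancel₀ h3]
  rw [prod_congr rfl e2]
  have h1 := tr3_prod_one_sub P (fun p => 2 * (K : ℝ) / (p : ℝ) ^ 2) (fun p _ => by positivity)
    (fun p hpP => by
      have h4 := hpK p hpP
      have hx : (0 : ℝ) < (p : ℝ) := by linarith
      rw [div_le_one (by positivity)]
      nlinarith)
  have h2 : ∏ p ∈ P, (1 - 2 * (K : ℝ) / (p : ℝ) ^ 2) ≤ ∏ p ∈ P, (1 / (1 + 2 * K / (p : ℝ) ^ 2)) := by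
    refine prod_le_prod (fun p hpP => ?_) (fun p hpP => ?_)
    · have h4 := hpK p hpP
      have hx : (0 : ℝ) < (p : ℝ) := by linarith
      rw [sub_nonneg, div_le_one (by positivity)]
      nlinarith
    · have h4 := hpK p hpP
      have hx : (0 : ℝ) < (p : ℝ) := by linarith
      set y := 2 * (K : ℝ) / (p : ℝ) ^ 2 with hy
      have hy0 : 0 ≤ y := by positivity
      rw [le_div_iff₀ (by linarith)]
      nlinarith
  have h3 : ∑ p ∈ P, 2 * (K : ℝ) / (p : ℝ) ^ 2 ≤ 2 * (K : ℝ) / (W : ℝ) := by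
    have h4 := sum_inv_sq_le P W hW1 hb
    calc ∑ p ∈ P, 2 * (K : ℝ) / (p : ℝ) ^ 2 = 2 * (K : ℝ) * ∑ p ∈ P, 1 / (p : ℝ) ^ 2 := by
          rw [mul_sum]; exact sum_congr rfl fun p _ => by ring
      _ ≤ 2 * (K : ℝ) * (1 / (W : ℝ)) := mul_le_mul_of_nonneg_left h4 (by positivity)
      _ = 2 * K / W := by ring
  linarith [h1.1]

/-- `Q/φ(Q) = ∏_{W < p ≤ e^T} (1 - 1/p)^{-1} ≤ C T` (Mertens upper bound for the inverse product,
`Helper57.prod_one_sub_inv_inv_le`; for `e^T < 2` the product is empty; `T ≥ 1`). -/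
theorem Q_div_totient_le : ∃ C : ℝ, 0 < C ∧ ∀ (W : ℕ) (T : ℝ), 1 ≤ T →
    ((∏ p ∈ PP W T, p : ℕ) : ℝ) / ((∏ p ∈ PP W T, p).totient : ℝ) ≤ C * T := by
  refine ⟨500, by norm_num, fun W T hT => ?_⟩
  have hp : ∀ p ∈ PP W T, p.Prime := fun p h => (mem_filter.1 h).2
  rw [e6_ratio _ hp]
  set n := ⌊Real.exp T⌋₊ with hn
  have hn2 : 2 ≤ n := by
    rw [hn]
    apply Nat.le_floor
    have h1 := Real.add_one_le_exp T
    push_cast
    linarith
  have hsub : PP W T ⊆ Sieve.primesUpTo n := by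
    intro p h
    rw [Sieve.mem_primesUpTo]
    have := mem_filter.1 h
    exact ⟨this.2, (mem_Ioc.1 this.1).2⟩
  have h1 : ∏ p ∈ PP W T, (1 - 1 / (p : ℝ))⁻¹ ≤ ∏ p ∈ Sieve.primesUpTo n, (1 - 1 / (p : ℝ))⁻¹ := by
    refine prod_le_prod_of_subset_of_one_le hsub (fun p h => ?_) (fun p h _ => ?_)
    · exact inv_nonneg.2 (NT1_pos p (hp p h)).le
    · have hpr := (Sieve.mem_primesUpTo.1 h).1
      have h3 : (0 : ℝ) < p := by exact_mod_cast hpr.pos
      rw [one_le_inv₀ (NT1_pos p hpr)]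
      have : 0 ≤ 1 / (p : ℝ) := by positivity
      linarith
  have h2 := Helper57.prod_one_sub_inv_inv_le n hn2
  have h3 : Real.log n ≤ T := by
    have : (n : ℝ) ≤ Real.exp T := Nat.floor_le (Real.exp_pos T).le
    calc Real.log n ≤ Real.log (Real.exp T) := Real.log_le_log (by positivity) this
      _ = T := Real.log_exp T
  refine h1.trans (h2.trans ?_)
  linarith

end Pool.Agent.Lib.H92G
end

-- from Lib.H59C.PIN
section

/-!
# PIN: sums over primes and integrals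
-/

open Finset MeasureTheory

namespace Pool.Agent.Lib.H59C

theorem pin_add (u v w : ℝ) (f : ℕ → ℝ) (huv : u ≤ v) (hvw : v ≤ w) :
    ∑ q ∈ PR u w, f q = ∑ q ∈ PR u v, f q + ∑ q ∈ PR v w, f q := by
  classical
  rw [← sum_union]
  · congr 1
    ext q
    simp only [mem_union, mem_PR]
    constructor
    · rintro ⟨h1, h2, h3⟩
      by_cases h : (q : ℝ) < v
      · exact Or.inl ⟨h1, h2, h⟩
      · exact Or.inr ⟨h1, not_lt.1 h, h3⟩
    · rintro (⟨h1, h2, h3⟩ | ⟨h1, h2, h3⟩)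
      · exact ⟨h1, h2, h3.trans_le hvw⟩
      · exact ⟨h1, huv.trans h2, h3⟩
  · rw [disjoint_left]
    intro q hq hq'
    rw [mem_PR] at hq hq'
    linarith [hq.2.2, hq'.2.1]

theorem pin_split (s : ℕ → ℝ) (hs : Monotone s) (f : ℕ → ℝ) (J : ℕ) :
    ∑ q ∈ PR (s 0) (s J), f q = ∑ j ∈ range J, ∑ q ∈ PR (s j) (s (j + 1)), f q := by
  induction J with
  | zero =>
    rw [range_zero, sum_empty]
    apply sum_eq_zero
    intro q hq
    rw [mem_PR] at hq
    linarith [hq.2.1, hq.2.2]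
  | succ J ih =>
    rw [sum_range_succ, ← ih]
    exact pin_add _ _ _ f (hs (Nat.zero_le J)) (hs (Nat.le_succ J))

theorem pin_abel1 (c e : ℕ → ℝ) (J : ℕ) :
    ∑ j ∈ range J, c (j + 1) * (e j - e (j + 1)) =
      c 0 * e 0 - c J * e J + ∑ j ∈ range J, (c (j + 1) - c j) * e j := by
  induction J with
  | zero => simp
  | succ J ih =>
    rw [sum_range_succ, sum_range_succ, ih]
    ring

theorem pin_abel2 (c e : ℕ → ℝ) (J : ℕ) :
    ∑ j ∈ range J, c j * (e j - e (j + 1)) =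
      c 0 * e 0 - c J * e J + ∑ j ∈ range J, (c (j + 1) - c j) * e (j + 1) := by
  induction J with
  | zero => simp
  | succ J ih =>
    rw [sum_range_succ, sum_range_succ, ih]
    ring

theorem pin_tv (c e : ℕ → ℝ) (J : ℕ) (E Φ : ℝ) (hc : ∀ j < J, c j ≤ c (j + 1))
    (hcΦ : ∀ j ≤ J, |c j| ≤ Φ) (he : ∀ j < J, |e j| ≤ E) (hE : 0 ≤ E) :
    |∑ j ∈ range J, (c (j + 1) - c j) * e j| ≤ 2 * Φ * E := by
  refine (abs_sum_le_sum_abs _ _).trans ?_
  have h1 : ∀ j ∈ range J, |(c (j + 1) - c j) * e j| ≤ (c (j + 1) - c j) * E := by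
    intro j hj
    rw [mem_range] at hj
    have h2 : 0 ≤ c (j + 1) - c j := by linarith [hc j hj]
    rw [abs_mul, abs_of_nonneg h2]
    exact mul_le_mul_of_nonneg_left (he j hj) h2
  refine (sum_le_sum h1).trans ?_
  rw [← sum_mul, sum_range_sub]
  apply mul_le_mul_of_nonneg_right _ hE
  have h3 := abs_le.1 (hcΦ J le_rfl)
  have h4 := abs_le.1 (hcΦ 0 (Nat.zero_le J))
  linarith [h3.2, h4.1]

/-- Monotone functions, one subdivision. -/
theorem pin_mono {C0 : ℝ} (hC0 : 0 < C0) (hm : ∀ u v : ℝ, 2 ≤ u → u ≤ v →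
    |∑ q ∈ PR u v, 1 / (q : ℝ) - (Real.log (Real.log v) - Real.log (Real.log u))| ≤
      C0 / Real.log u) (n : ℕ) (a b Φ : ℝ) (φ : ℝ → ℝ) (hn : 3 ≤ n) (ha : 0 < a) (hab : a ≤ b)
    (hna : 2 ≤ (n : ℝ) ^ a) (hφ : MonotoneOn φ (Set.Icc a b))
    (hΦ : ∀ x ∈ Set.Icc a b, |φ x| ≤ Φ) :
    |∑ q ∈ PR ((n : ℝ) ^ a) ((n : ℝ) ^ b), φ (Real.log q / Real.log n) / q -
      ∫ x in a..b, φ x / x| ≤ 5 * Φ * (C0 / (a * Real.log n)) := by
  have hn3 : (3 : ℝ) ≤ n := by exact_mod_cast hn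
  have hn1 : (1 : ℝ) < n := by linarith
  have hn0 : (0 : ℝ) < n := by linarith
  have hl : 0 < Real.log n := Real.log_pos hn1
  set E : ℝ := C0 / (a * Real.log n) with hE
  have hE0 : 0 < E := by positivity
  have hΦ0 : 0 ≤ Φ := (abs_nonneg _).trans (hΦ a ⟨le_rfl, hab⟩)
  -- the subdivision
  obtain ⟨J, hJ⟩ := exists_nat_ge (2 * (b - a) / (a * E) + 1)
  have hJ1 : (1 : ℝ) ≤ J := by
    have : 0 ≤ 2 * (b - a) / (a * E) := by
      apply div_nonneg (by linarith) (by positivity)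
    linarith
  have hJ0 : (0 : ℝ) < J := by linarith
  have hJ2 : 2 * ((b - a) / (J * a)) ≤ E := by
    have h1 : 2 * (b - a) / (a * E) ≤ J := by linarith
    rw [div_le_iff₀ (by positivity)] at h1
    rw [mul_div_assoc', div_le_iff₀ (by positivity)]
    linarith
  obtain ⟨t, ht⟩ : ∃ t : ℕ → ℝ, t = fun j : ℕ => a + (j : ℝ) * ((b - a) / J) := ⟨_, rfl⟩
  have hstep : 0 ≤ (b - a) / J := div_nonneg (by linarith) hJ0.le
  have htm : Monotone t := by
    intro i j hij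
    rw [ht]
    have : (i : ℝ) ≤ j := by exact_mod_cast hij
    have := mul_le_mul_of_nonneg_right this hstep
    simp only
    linarith
  have ht0 : t 0 = a := by rw [ht]; simp
  have htJ : t J = b := by
    rw [ht]
    simp only
    field_simp
    ring
  have hta : ∀ j, a ≤ t j := fun j => by
    rw [← ht0]
    exact htm (Nat.zero_le j)
  have htb : ∀ j ≤ J, t j ≤ b := fun j hj => by
    rw [← htJ]
    exact htm hj
  have htpos : ∀ j, 0 < t j := fun j => ha.trans_le (hta j)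
  have htmem : ∀ j ≤ J, t j ∈ Set.Icc a b := fun j hj => ⟨hta j, htb j hj⟩
  -- the exponents
  have hsm : Monotone (fun j => (n : ℝ) ^ (t j)) := fun i j hij =>
    Real.rpow_le_rpow_of_exponent_le hn1.le (htm hij)
  have hlog : ∀ x : ℝ, Real.log ((n : ℝ) ^ x) = x * Real.log n := fun x =>
    Real.log_rpow hn0 x
  -- the error function
  obtain ⟨e, he⟩ : ∃ e : ℕ → ℝ, e = fun j => ∑ q ∈ PR ((n : ℝ) ^ (t j)) ((n : ℝ) ^ b), 1 / (q : ℝ) -
    (Real.log b - Real.log (t j)) := ⟨_, rfl⟩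
  have hb0 : 0 < b := ha.trans_le hab
  have heE : ∀ j ≤ J, |e j| ≤ E := by
    intro j hj
    have h1 := hm ((n : ℝ) ^ (t j)) ((n : ℝ) ^ b)
      (hna.trans (Real.rpow_le_rpow_of_exponent_le hn1.le (hta j)))
      (Real.rpow_le_rpow_of_exponent_le hn1.le (htb j hj))
    rw [hlog, hlog, Real.log_mul hb0.ne' hl.ne', Real.log_mul (htpos j).ne' hl.ne'] at h1
    rw [he]
    simp only
    have h2 : Real.log b + Real.log (Real.log n) - (Real.log (t j) + Real.log (Real.log n)) =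
        Real.log b - Real.log (t j) := by ring
    rw [h2] at h1
    refine h1.trans ?_
    rw [hE]
    apply div_le_div_of_nonneg_left hC0.le (by positivity)
    exact mul_le_mul_of_nonneg_right (hta j) hl.le
  have heD : ∀ j < J, e j - e (j + 1) =
      ∑ q ∈ PR ((n : ℝ) ^ (t j)) ((n : ℝ) ^ (t (j + 1))), 1 / (q : ℝ) -
        (Real.log (t (j + 1)) - Real.log (t j)) := by
    intro j hj
    rw [he]
    simp only
    rw [pin_add ((n : ℝ) ^ (t j)) ((n : ℝ) ^ (t (j + 1))) ((n : ℝ) ^ b) (fun q => 1 / (q : ℝ))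
      (hsm (Nat.le_succ j)) (Real.rpow_le_rpow_of_exponent_le hn1.le (htb (j + 1) hj))]
    ring
  -- bounds for one interval: primes
  have hxq : ∀ j < J, ∀ q ∈ PR ((n : ℝ) ^ (t j)) ((n : ℝ) ^ (t (j + 1))),
      t j ≤ Real.log q / Real.log n ∧ Real.log q / Real.log n ≤ t (j + 1) := by
    intro j hj q hq
    rw [mem_PR] at hq
    have hq0 : (0 : ℝ) < q := by exact_mod_cast hq.1.pos
    constructor
    · rw [le_div_iff₀ hl, ← hlog]
      exact Real.log_le_log (Real.rpow_pos_of_pos hn0 _) hq.2.1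
    · rw [div_le_iff₀ hl, ← hlog]
      exact Real.log_le_log hq0 hq.2.2.le
  have hP1 : ∀ j < J, ∑ q ∈ PR ((n : ℝ) ^ (t j)) ((n : ℝ) ^ (t (j + 1))),
      φ (Real.log q / Real.log n) / q ≤
      φ (t (j + 1)) * ∑ q ∈ PR ((n : ℝ) ^ (t j)) ((n : ℝ) ^ (t (j + 1))), 1 / (q : ℝ) := by
    intro j hj
    rw [mul_sum]
    apply sum_le_sum
    intro q hq
    obtain ⟨h1, h2⟩ := hxq j hj q hq
    rw [mul_one_div]
    apply div_le_div_of_nonneg_right _ (Nat.cast_nonneg q)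
    exact hφ ⟨(hta j).trans h1, h2.trans (htb (j + 1) hj)⟩ (htmem (j + 1) hj) h2
  have hP2 : ∀ j < J, φ (t j) * ∑ q ∈ PR ((n : ℝ) ^ (t j)) ((n : ℝ) ^ (t (j + 1))), 1 / (q : ℝ) ≤
      ∑ q ∈ PR ((n : ℝ) ^ (t j)) ((n : ℝ) ^ (t (j + 1))), φ (Real.log q / Real.log n) / q := by
    intro j hj
    rw [mul_sum]
    apply sum_le_sum
    intro q hq
    obtain ⟨h1, h2⟩ := hxq j hj q hq
    rw [mul_one_div]
    apply div_le_div_of_nonneg_right _ (Nat.cast_nonneg q)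
    exact hφ (htmem j hj.le) ⟨(hta j).trans h1, h2.trans (htb (j + 1) hj)⟩ h1
  -- the integrals
  have hint : ∀ j < J, IntervalIntegrable (fun x => φ x / x) volume (t j) (t (j + 1)) := by
    intro j hj
    have h1 : Set.uIcc (t j) (t (j + 1)) = Set.Icc (t j) (t (j + 1)) :=
      Set.uIcc_of_le (htm (Nat.le_succ j))
    have h2 : MonotoneOn φ (Set.uIcc (t j) (t (j + 1))) := by
      rw [h1]
      exact hφ.mono (Set.Icc_subset_Icc (hta j) (htb (j + 1) hj))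
    have h3 : ContinuousOn (fun x : ℝ => x⁻¹) (Set.uIcc (t j) (t (j + 1))) := by
      apply ContinuousOn.inv₀ continuousOn_id
      intro x hx
      rw [h1] at hx
      exact ((htpos j).trans_le hx.1).ne'
    have h4 := h2.intervalIntegrable (μ := volume)
    simpa [div_eq_mul_inv] using h4.mul_continuousOn h3
  have hI0 : ∫ x in a..b, φ x / x = ∑ j ∈ range J, ∫ x in (t j)..(t (j + 1)), φ x / x := by
    rw [intervalIntegral.sum_integral_adjacent_intervals (fun j hj => hint j hj), ht0, htJ]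
  have hcinv : ∀ j, ∀ c : ℝ, IntervalIntegrable (fun x => c / x) volume (t j) (t (j + 1)) := by
    intro j c
    apply ContinuousOn.intervalIntegrable
    intro x hx
    rw [Set.uIcc_of_le (htm (Nat.le_succ j))] at hx
    exact (continuousAt_const.div continuousAt_id ((htpos j).trans_le hx.1).ne').continuousWithinAt
  have hconst : ∀ j, ∀ c : ℝ, ∫ x in (t j)..(t (j + 1)), c / x =
      c * (Real.log (t (j + 1)) - Real.log (t j)) := by
    intro j c
    simp only [div_eq_mul_inv]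
    rw [intervalIntegral.integral_const_mul, integral_inv_of_pos (htpos j) (htpos (j + 1)),
      Real.log_div (htpos (j + 1)).ne' (htpos j).ne']
  have hI1 : ∀ j < J, φ (t j) * (Real.log (t (j + 1)) - Real.log (t j)) ≤
      ∫ x in (t j)..(t (j + 1)), φ x / x := by
    intro j hj
    rw [← hconst]
    apply intervalIntegral.integral_mono_on (htm (Nat.le_succ j)) (hcinv j _) (hint j hj)
    intro x hx
    apply div_le_div_of_nonneg_right _ ((htpos j).trans_le hx.1).le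
    exact hφ (htmem j hj.le) ⟨(hta j).trans hx.1, hx.2.trans (htb (j + 1) hj)⟩ hx.1
  have hI2 : ∀ j < J, ∫ x in (t j)..(t (j + 1)), φ x / x ≤
      φ (t (j + 1)) * (Real.log (t (j + 1)) - Real.log (t j)) := by
    intro j hj
    rw [← hconst]
    apply intervalIntegral.integral_mono_on (htm (Nat.le_succ j)) (hint j hj) (hcinv j _)
    intro x hx
    apply div_le_div_of_nonneg_right _ ((htpos j).trans_le hx.1).le
    exact hφ ⟨(hta j).trans hx.1, hx.2.trans (htb (j + 1) hj)⟩ (htmem (j + 1) hj) hx.2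
  -- the logarithms
  have hB : ∀ j < J, Real.log (t (j + 1)) - Real.log (t j) ≤ (b - a) / (J * a) := by
    intro j _
    have h1 : t (j + 1) = t j + (b - a) / J := by
      rw [ht]
      simp only
      push_cast
      ring
    rw [← Real.log_div (htpos (j + 1)).ne' (htpos j).ne']
    refine (Real.log_le_sub_one_of_pos (div_pos (htpos (j + 1)) (htpos j))).trans ?_
    rw [h1, add_div, div_self (htpos j).ne', add_sub_cancel_left, div_div]
    apply div_le_div_of_nonneg_left (by linarith) (by positivity)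
    exact mul_le_mul_of_nonneg_left (hta j) hJ0.le
  have hcm : ∀ j < J, φ (t j) ≤ φ (t (j + 1)) := fun j hj =>
    hφ (htmem j hj.le) (htmem (j + 1) hj) (htm (Nat.le_succ j))
  have hcΦ : ∀ j ≤ J, |φ (t j)| ≤ Φ := fun j hj => hΦ _ (htmem j hj)
  have hvar : ∑ j ∈ range J, (φ (t (j + 1)) - φ (t j)) *
      (Real.log (t (j + 1)) - Real.log (t j)) ≤ Φ * E := by
    have h1 : ∀ j ∈ range J, (φ (t (j + 1)) - φ (t j)) *
        (Real.log (t (j + 1)) - Real.log (t j)) ≤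
        (φ (t (j + 1)) - φ (t j)) * ((b - a) / (J * a)) := by
      intro j hj
      rw [mem_range] at hj
      exact mul_le_mul_of_nonneg_left (hB j hj) (by linarith [hcm j hj])
    refine (sum_le_sum h1).trans ?_
    rw [← sum_mul, sum_range_sub (fun j => φ (t j))]
    have h3 := abs_le.1 (hcΦ J le_rfl)
    have h4 := abs_le.1 (hcΦ 0 (Nat.zero_le J))
    have h5 : 0 ≤ (b - a) / (J * a) := div_nonneg (by linarith) (by positivity)
    calc (φ (t J) - φ (t 0)) * ((b - a) / (J * a)) ≤ (2 * Φ) * ((b - a) / (J * a)) :=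
          mul_le_mul_of_nonneg_right (by linarith [h3.2, h4.1]) h5
      _ = Φ * (2 * ((b - a) / (J * a))) := by ring
      _ ≤ Φ * E := mul_le_mul_of_nonneg_left hJ2 hΦ0
  -- conclusion
  have hend : |φ (t 0) * e 0 - φ (t J) * e J| ≤ 2 * Φ * E := by
    have h1 : |φ (t 0) * e 0| ≤ Φ * E := by
      rw [abs_mul]
      exact mul_le_mul (hcΦ 0 (Nat.zero_le J)) (heE 0 (Nat.zero_le J)) (abs_nonneg _) hΦ0
    have h2 : |φ (t J) * e J| ≤ Φ * E := by
      rw [abs_mul]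
      exact mul_le_mul (hcΦ J le_rfl) (heE J le_rfl) (abs_nonneg _) hΦ0
    have h3 := abs_sub (φ (t 0) * e 0) (φ (t J) * e J)
    linarith
  have hS := pin_split (fun j => (n : ℝ) ^ (t j)) hsm
    (fun q => φ (Real.log q / Real.log n) / q) J
  simp only [ht0, htJ] at hS
  rw [hS, hI0, abs_le]
  constructor
  · -- lower bound
    have h1 : ∑ j ∈ range J, φ (t j) * (e j - e (j + 1)) -
        ∑ j ∈ range J, (φ (t (j + 1)) - φ (t j)) * (Real.log (t (j + 1)) - Real.log (t j)) ≤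
        ∑ j ∈ range J, ∑ q ∈ PR ((n : ℝ) ^ (t j)) ((n : ℝ) ^ (t (j + 1))),
          φ (Real.log q / Real.log n) / q - ∑ j ∈ range J, ∫ x in (t j)..(t (j + 1)), φ x / x := by
      rw [← sum_sub_distrib, ← sum_sub_distrib]
      apply sum_le_sum
      intro j hj
      rw [mem_range] at hj
      have h2 := hP2 j hj
      have h3 := hI2 j hj
      rw [heD j hj]
      nlinarith [h2, h3]
    rw [pin_abel2 (fun j => φ (t j)) e J] at h1
    have h4 := pin_tv (fun j => φ (t j)) (fun j => e (j + 1)) J E Φ hcm hcΦ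
      (fun j hj => heE (j + 1) hj) hE0.le
    have h5 := abs_le.1 h4
    have h6 := abs_le.1 hend
    linarith [h5.1, h6.1]
  · have h1 : ∑ j ∈ range J, ∑ q ∈ PR ((n : ℝ) ^ (t j)) ((n : ℝ) ^ (t (j + 1))),
          φ (Real.log q / Real.log n) / q - ∑ j ∈ range J, ∫ x in (t j)..(t (j + 1)), φ x / x ≤
        ∑ j ∈ range J, φ (t (j + 1)) * (e j - e (j + 1)) +
        ∑ j ∈ range J, (φ (t (j + 1)) - φ (t j)) * (Real.log (t (j + 1)) - Real.log (t j)) := by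
      rw [← sum_sub_distrib, ← sum_add_distrib]
      apply sum_le_sum
      intro j hj
      rw [mem_range] at hj
      have h2 := hP1 j hj
      have h3 := hI1 j hj
      rw [heD j hj]
      nlinarith [h2, h3]
    rw [pin_abel1 (fun j => φ (t j)) e J] at h1
    have h4 := pin_tv (fun j => φ (t j)) e J E Φ hcm hcΦ
      (fun j hj => heE j hj.le) hE0.le
    have h5 := abs_le.1 h4
    have h6 := abs_le.1 hend
    linarith [h5.2, h6.2]

/-- For monotone `φ`: `∑_{n^a ≤ q < n^b} φ(log q/log n)/q = ∫_a^b φ(x)/x dx + O(sup |φ|/(a log n))`.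

Proof. Let `M(x) = ∑_{n^a ≤ q < n^x} 1/q = log x - log a + O(1/(a log n))` (`mertens`), uniformly for
`a ≤ x ≤ b`. The sum is `∫ φ dM`; for monotone `φ`, `∫_a^b φ(x) d(M(x) - log x) = [φ (M - log)]_a^b -
∫ (M - log) dφ = O(sup|φ| · C/(a log n))`. In finite terms (Abel summation over the primes
`q_1 < ... < q_k`, `x_i = log q_i/log n`, `φ` monotone): compare
`∑ φ(x_i) (M(x_{i+1}) - M(x_i))` with `∑ ∫_{x_i}^{x_{i+1}} φ(x)/x dx`; or subdivide `[a, b]` into `J` intervals with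
`φ` replaced by its values at the ends (the error is at most `sup|φ| · max_j (M increment + log increment)` plus
`2 J`-free terms by Abel summation) and let `J → ∞`. -/
theorem prime_int : ∃ C : ℝ, 0 < C ∧ ∀ (n : ℕ) (a b Φ : ℝ) (φ : ℝ → ℝ), 3 ≤ n → 0 < a → a ≤ b →
    b ≤ 2 → 2 ≤ (n : ℝ) ^ a → (MonotoneOn φ (Set.Icc a b) ∨ AntitoneOn φ (Set.Icc a b)) →
    (∀ x ∈ Set.Icc a b, |φ x| ≤ Φ) →
    |∑ q ∈ PR ((n : ℝ) ^ a) ((n : ℝ) ^ b), φ (Real.log q / Real.log n) / q -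
      ∫ x in a..b, φ x / x| ≤ C * Φ / (a * Real.log n) := by
  obtain ⟨C0, hC0, hm⟩ := mertens
  refine ⟨5 * C0, by positivity, fun n a b Φ φ hn ha hab _ hna hφ hΦ => ?_⟩
  have hfin : 5 * C0 * Φ / (a * Real.log n) = 5 * Φ * (C0 / (a * Real.log n)) := by ring
  rw [hfin]
  rcases hφ with h | h
  · exact pin_mono hC0 hm n a b Φ φ hn ha hab hna h hΦ
  · have h1 := pin_mono hC0 hm n a b Φ (fun x => - φ x) hn ha hab hna h.neg
      (fun x hx => by
        rw [abs_neg]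
        exact hΦ x hx)
    have h2 : ∑ q ∈ PR ((n : ℝ) ^ a) ((n : ℝ) ^ b), - φ (Real.log q / Real.log n) / (q : ℝ) -
        ∫ x in a..b, - φ x / x =
        - (∑ q ∈ PR ((n : ℝ) ^ a) ((n : ℝ) ^ b), φ (Real.log q / Real.log n) / (q : ℝ) -
        ∫ x in a..b, φ x / x) := by
      simp only [neg_div]
      rw [sum_neg_distrib, intervalIntegral.integral_neg]
      ring
    rw [h2, abs_neg] at h1
    exact h1

end Pool.Agent.Lib.H59C
end

-- from Lib.H18Q.R2A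
section

/-!
# Project H18Q, chunk R2A: ports of `B_le`, `B0_le` to the regime `RegP`
-/

open Finset

namespace Pool.Agent.Lib.H18Q

open Pool.Agent.Lib.H68T

/-- PORT of `BPS_regime` (end of `H68T/BPS.lean`) to `RegP K Q X : K ≤ log log X ∧ K log log X ≤
log Q ∧ K log Q ≤ log X` (lemmas in `R0.lean`: the same names as in `RegL.lean`). With `K ≥ 100`:
`X ≥ Q^100`, `log (60 X) ≤ Q`. -/
theorem BPS_regimeP : ∃ K : ℝ, 1 ≤ K ∧ ∀ Q X : ℕ, RegP K Q X →
    1 ≤ Q ∧ 1 ≤ X ∧ 1 ≤ X / Q ^ 2 ∧ 2 * (X / Q ^ 2) ≤ X ∧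
    (X : ℝ) ≤ 2 * Q ^ 2 * ((X / Q ^ 2 : ℕ) : ℝ) ∧
    11520 * 700 / (Q : ℝ) ^ 3 + (1 / ((X / Q ^ 2 : ℕ) : ℝ)) *
      (2 * √((60 * X : ℕ) : ℝ) * Real.log ((60 * X : ℕ) : ℝ)) ≤ (Q : ℝ) ^ (-(5 / 2) : ℝ) := by
  obtain ⟨K1, hK1, h1⟩ := regp_log_le 1 1 1 one_pos
  obtain ⟨K2, hK2, h2⟩ := regp_pow_le 128 (11 / 2) (1 / 2) (by norm_num)
  obtain ⟨K3, hK3, h3⟩ := regp_log_le (2 * (11520 * 700)) 0 (1 / 2) (by norm_num)
  obtain ⟨K4, hK4, h4⟩ := regp_pow_le 2 2 1 one_pos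
  refine ⟨60 + K1 + K2 + K3 + K4, by linarith, fun Q X h => ?_⟩
  set K := 60 + K1 + K2 + K3 + K4 with hKdef
  have hK : 1 ≤ K := by linarith
  have hK0 : 0 < K := by linarith
  have e1 := h1 Q X (h.mono hK0.le (by linarith))
  have e2 := h2 Q X (h.mono hK0.le (by linarith))
  have e3 := h3 Q X (h.mono hK0.le (by linarith))
  have e4 := h4 Q X (h.mono hK0.le (by linarith))
  have hQ0 := h.Q_pos hK
  have hX0 := h.X_pos hK0
  have hXK := h.X_ge hK0
  have hQK := h.Q_ge hK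
  have hQ' : (0:ℝ) < Q := by exact_mod_cast hQ0
  have hX' : (0:ℝ) < X := by exact_mod_cast hX0
  have hlX := h.logX_ge_one hK0
  rw [Real.rpow_one, Real.rpow_one, one_mul] at e1
  rw [Real.rpow_one] at e4
  have e4' : 2 * (Q:ℝ) ^ 2 ≤ X := by
    have : ((Q:ℝ) ^ (2:ℝ)) = (Q:ℝ) ^ 2 := by rw [← Real.rpow_natCast]; norm_num
    rw [this] at e4; exact e4
  have e4n : 2 * Q ^ 2 ≤ X := by exact_mod_cast e4'
  have hQ2 : 2 ≤ Q := by
    have : (2:ℝ) ≤ Q := by linarith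
    exact_mod_cast this
  have hQsq : 0 < Q ^ 2 := by positivity
  have hY1 : 1 ≤ X / Q ^ 2 := by
    rw [Nat.one_le_div_iff hQsq]; linarith
  have hYX : 2 * (X / Q ^ 2) ≤ X := by
    have h5 : X / Q ^ 2 ≤ X / 2 := Nat.div_le_div_left (by nlinarith) (by norm_num)
    omega
  have hXY : (X : ℝ) ≤ 2 * Q ^ 2 * ((X / Q ^ 2 : ℕ) : ℝ) := by
    have h5 : X < Q ^ 2 * (X / Q ^ 2 + 1) := Nat.lt_mul_div_succ X hQsq
    have h6 : X ≤ 2 * Q ^ 2 * (X / Q ^ 2) := by nlinarith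
    exact_mod_cast h6
  refine ⟨hQ0, hX0, hY1, hYX, hXY, ?_⟩
  have hY' : (0:ℝ) < ((X / Q ^ 2 : ℕ) : ℝ) := by exact_mod_cast hY1
  set Y : ℝ := ((X / Q ^ 2 : ℕ) : ℝ) with hYdef
  -- first term
  have t1 : 11520 * 700 / (Q : ℝ) ^ 3 ≤ (1 / 2) * (Q : ℝ) ^ (-(5 / 2) : ℝ) := by
    rw [Real.rpow_zero, mul_one] at e3
    have h5 : (Q : ℝ) ^ (-(5 / 2) : ℝ) = (Q:ℝ) ^ (1 / 2 : ℝ) / (Q:ℝ) ^ 3 := by
      rw [eq_div_iff (by positivity), ← Real.rpow_natCast, ← Real.rpow_add hQ']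
      norm_num
    rw [h5, ← mul_div_assoc]
    apply div_le_div_of_nonneg_right _ (by positivity)
    linarith
  have t2 : (1 / Y) * (2 * √((60 * X : ℕ) : ℝ) * Real.log ((60 * X : ℕ) : ℝ)) ≤
      (1 / 2) * (Q : ℝ) ^ (-(5 / 2) : ℝ) := by
    have h5 : 1 / Y ≤ 2 * Q ^ 2 / X := by
      rw [div_le_div_iff₀ hY' hX']; linarith
    have h6 : √((60 * X : ℕ) : ℝ) ≤ 8 * √(X:ℝ) := by
      rw [Real.sqrt_le_left (by positivity), mul_pow, Real.sq_sqrt hX'.le]
      push_cast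
      linarith
    have h7 : Real.log ((60 * X : ℕ) : ℝ) ≤ 2 * Real.log X := by
      push_cast
      rw [Real.log_mul (by norm_num) hX'.ne']
      have := Real.log_le_log (by norm_num : (0:ℝ) < 60) (by linarith : (60:ℝ) ≤ X)
      linarith
    have h8 : 0 ≤ Real.log ((60 * X : ℕ) : ℝ) := by positivity
    have h9 : √(X:ℝ) = (X:ℝ) ^ (1 / 2 : ℝ) := Real.sqrt_eq_rpow _
    have h10 : (X:ℝ) = √(X:ℝ) * √(X:ℝ) := (Real.mul_self_sqrt hX'.le).symm
    have hs0 : 0 < √(X:ℝ) := Real.sqrt_pos.mpr hX'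
    calc (1 / Y) * (2 * √((60 * X : ℕ) : ℝ) * Real.log ((60 * X : ℕ) : ℝ))
        ≤ (2 * Q ^ 2 / X) * (2 * (8 * √(X:ℝ)) * (2 * Q)) := by
          apply mul_le_mul h5 _ (by positivity) (by positivity)
          apply mul_le_mul _ _ h8 (by positivity)
          · linarith
          · linarith
      _ = 64 * Q ^ 3 / √(X:ℝ) := by
          rw [div_mul_eq_mul_div, div_eq_div_iff hX'.ne' hs0.ne']
          calc 2 * (Q:ℝ) ^ 2 * (2 * (8 * √(X:ℝ)) * (2 * Q)) * √(X:ℝ)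
              = 64 * (Q:ℝ) ^ 3 * (√(X:ℝ) * √(X:ℝ)) := by ring
            _ = 64 * (Q:ℝ) ^ 3 * (X:ℝ) := by rw [← h10]
      _ ≤ (1 / 2) * (Q : ℝ) ^ (-(5 / 2) : ℝ) := by
          rw [div_le_iff₀ hs0]
          rw [← h9] at e2
          have h11 : (Q:ℝ) ^ (-(5 / 2) : ℝ) * (Q:ℝ) ^ (11 / 2 : ℝ) = (Q:ℝ) ^ 3 := by
            rw [← Real.rpow_add hQ', ← Real.rpow_natCast]
            norm_num
          have h12 : 0 < (Q:ℝ) ^ (-(5 / 2) : ℝ) := Real.rpow_pos_of_pos hQ' _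
          have h13 := mul_le_mul_of_nonneg_left e2 h12.le
          nlinarith
  linarith

/-- PORT of `B_le` (the proof is the same with `BPS_regimeP`). -/
theorem B_leP : ∃ K : ℝ, 1 ≤ K ∧ ∀ Q X : ℕ, RegP K Q X → ∀ p : Σ r : ℕ, DirichletCharacter ℂ r,
    1 ≤ p.1 → ∀ m : ℤ, (X : ℤ) ≤ m → m ≤ 4 * X →
    ‖∑ n ∈ Icc 1 (60 * X), ((lp n * tent (X / Q ^ 2) (m - n) : ℝ) : ℂ) * p.2 (n : ZMod p.1)‖ ≤
      (∫ t in (-(Q : ℝ) ^ 7)..((Q : ℝ) ^ 7), ‖FL X p t‖) + (Q : ℝ) ^ (-(5 / 2) : ℝ) := by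
  obtain ⟨K, hK1, hK⟩ := BPS_regimeP
  refine ⟨K, hK1, fun Q X h p _ m hm1 hm2 => ?_⟩
  obtain ⟨hQ, hX, hY, hYX, hXY, hbd⟩ := hK Q X h
  have hQ' : (0:ℝ) < Q := by exact_mod_cast hQ
  have h1 := BPS_general hQ hX hY hYX hXY
    (fun n => (ArithmeticFunction.vonMangoldt n : ℂ) * p.2 (n : ZMod p.1)) (D := 600)
    (by norm_num) (BPS_sum_norm p) m hm1 hm2
  have h2 := BPS_replace (Y := X / Q ^ 2) hX (fun n => p.2 (n : ZMod p.1))
    (fun n => DirichletCharacter.norm_le_one _ _) m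
  have h3 := norm_le_norm_add_norm_sub' (∑ n ∈ Icc 1 (60 * X),
    ((lp n * tent (X / Q ^ 2) (m - n) : ℝ) : ℂ) * p.2 (n : ZMod p.1))
    (∑ n ∈ Icc 1 (60 * X), (ArithmeticFunction.vonMangoldt n : ℂ) * p.2 (n : ZMod p.1) *
      (tent (X / Q ^ 2) (m - n) : ℂ))
  have h4 : 11520 * 600 / (Q:ℝ) ^ 3 ≤ 11520 * 700 / (Q:ℝ) ^ 3 := by
    apply div_le_div_of_nonneg_right _ (by positivity)
    norm_num
  have h5 : (∫ t in (-(Q : ℝ) ^ 7)..((Q : ℝ) ^ 7), ‖FL X p t‖) =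
      ∫ t in (-(Q : ℝ) ^ 7)..((Q : ℝ) ^ 7),
        ‖FF X (fun n => (ArithmeticFunction.vonMangoldt n : ℂ) * p.2 (n : ZMod p.1)) t‖ := rfl
  rw [h5]
  linarith

/-- PORT of `B0_le`. -/
theorem B0_leP : ∃ K : ℝ, 1 ≤ K ∧ ∀ Q X : ℕ, RegP K Q X → ∀ m : ℤ, (X : ℤ) ≤ m → m ≤ 4 * X →
    |∑ n ∈ Icc 1 (60 * X), lp n * tent (X / Q ^ 2) (m - n) - 1| ≤
      (∫ t in (-(Q : ℝ) ^ 7)..((Q : ℝ) ^ 7), ‖FL X p0 t - F0 X t‖) +
        (Q : ℝ) ^ (-(5 / 2) : ℝ) := by
  obtain ⟨K, hK1, hK⟩ := BPS_regimeP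
  refine ⟨K, hK1, fun Q X h m hm1 hm2 => ?_⟩
  obtain ⟨hQ, hX, hY, hYX, hXY, hbd⟩ := hK Q X h
  have hQ' : (0:ℝ) < Q := by exact_mod_cast hQ
  have hone : ∀ n : ℕ, p0.2 (n : ZMod p0.1) = 1 := by
    intro n
    have : (n : ZMod 1) = 1 := Subsingleton.elim _ _
    change (1 : DirichletCharacter ℂ 1) (n : ZMod 1) = 1
    rw [this, map_one]
  have hsum : ∑ n ∈ Icc 1 (60 * X), ‖(ArithmeticFunction.vonMangoldt n : ℂ) - 1‖ ≤ 700 * X := by
    calc ∑ n ∈ Icc 1 (60 * X), ‖(ArithmeticFunction.vonMangoldt n : ℂ) - 1‖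
        ≤ ∑ n ∈ Icc 1 (60 * X), (ArithmeticFunction.vonMangoldt n + 1) := by
          apply Finset.sum_le_sum
          intro n _
          refine (norm_sub_le _ _).trans ?_
          rw [Complex.norm_real, Real.norm_of_nonneg ArithmeticFunction.vonMangoldt_nonneg,
            norm_one]
      _ = ∑ n ∈ Icc 1 (60 * X), ArithmeticFunction.vonMangoldt n + 60 * X := by
          rw [Finset.sum_add_distrib, Finset.sum_const, Nat.card_Icc]
          simp
      _ ≤ 700 * X := by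
          have := BPS_sum_vM (X := X)
          have : (0:ℝ) ≤ X := by positivity
          linarith
  have h1 := BPS_general hQ hX hY hYX hXY
    (fun n => (ArithmeticFunction.vonMangoldt n : ℂ) - 1) (D := 700)
    (by norm_num) hsum m hm1 hm2
  have h2 := BPS_replace (Y := X / Q ^ 2) hX (fun _ => 1) (fun n => by simp) m
  have hmass := BPS_mass (Y := X / Q ^ 2) hY hYX hm1 hm2
  have h3 : ((∑ n ∈ Icc 1 (60 * X), lp n * tent (X / Q ^ 2) (m - n) - 1 : ℝ) : ℂ) =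
      (∑ n ∈ Icc 1 (60 * X), ((lp n * tent (X / Q ^ 2) (m - n) : ℝ) : ℂ) * 1 -
        ∑ n ∈ Icc 1 (60 * X), (ArithmeticFunction.vonMangoldt n : ℂ) * 1 *
          (tent (X / Q ^ 2) (m - n) : ℂ)) +
      ∑ n ∈ Icc 1 (60 * X), ((ArithmeticFunction.vonMangoldt n : ℂ) - 1) *
          (tent (X / Q ^ 2) (m - n) : ℂ) := by
    rw [← hmass]
    push_cast
    simp only [mul_one, sub_mul, one_mul, Finset.sum_sub_distrib]
    ring
  have h4 : |∑ n ∈ Icc 1 (60 * X), lp n * tent (X / Q ^ 2) (m - n) - 1| =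
      ‖((∑ n ∈ Icc 1 (60 * X), lp n * tent (X / Q ^ 2) (m - n) - 1 : ℝ) : ℂ)‖ := by
    rw [Complex.norm_real, Real.norm_eq_abs]
  have h5 : (∫ t in (-(Q : ℝ) ^ 7)..((Q : ℝ) ^ 7), ‖FL X p0 t - F0 X t‖) =
      ∫ t in (-(Q : ℝ) ^ 7)..((Q : ℝ) ^ 7),
        ‖FF X (fun n => (ArithmeticFunction.vonMangoldt n : ℂ) - 1) t‖ := by
    congr 1
    ext t
    congr 1
    unfold FL F0 FF
    rw [← Finset.sum_sub_distrib]
    apply Finset.sum_congr rfl
    intro n _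
    simp only [hone]
    ring
  rw [h4, h5, h3]
  refine (norm_add_le _ _).trans ?_
  linarith

end Pool.Agent.Lib.H18Q
end

-- from Lib.H68T.CG2
section

/-!
# Chunk CG2: mean of the model `G` along a class, and the second moment of `dQ`
-/

open Finset

namespace Pool.Agent.Lib.H68T



theorem cg2_sum_inv (Q : ℕ) : ∑ e ∈ Icc 1 Q, 1 / (e : ℝ) ≤ 1 + Real.log Q := by
  have h := harmonic_le_one_add_log Q
  rw [harmonic_eq_sum_Icc] at h
  push_cast at h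
  simpa [one_div] using h

theorem cg2_sum_multiples (Q g : ℕ) (hg : 0 < g) :
    ∑ e ∈ Icc 1 Q, (if g ∣ e then 1 / (e : ℝ) else 0) ≤ 1 / (g : ℝ) * (1 + Real.log Q) := by
  rw [← sum_filter]
  have hsub : (Icc 1 Q).filter (fun e => g ∣ e) ⊆ (Icc 1 Q).image (fun k => g * k) := by
    intro e he
    rw [mem_filter, mem_Icc] at he
    obtain ⟨⟨h1, h2⟩, k, hk⟩ := he
    rw [mem_image]
    refine ⟨k, ?_, hk.symm⟩
    rw [mem_Icc]
    subst hk
    refine ⟨Nat.pos_of_mul_pos_left h1 |> fun h => ?_, ?_⟩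
    · rcases Nat.eq_zero_or_pos k with h0 | h0
      · subst h0
        omega
      · exact h0
    · exact (Nat.le_mul_of_pos_left k hg).trans h2
  have hinj : Set.InjOn (fun k : ℕ => g * k) (Icc 1 Q : Finset ℕ) := by
    intro x _ y _ hxy
    exact Nat.eq_of_mul_eq_mul_left hg hxy
  calc ∑ e ∈ (Icc 1 Q).filter (fun e => g ∣ e), 1 / (e : ℝ)
      ≤ ∑ e ∈ (Icc 1 Q).image (fun k => g * k), 1 / (e : ℝ) := by
        apply sum_le_sum_of_subset_of_nonneg hsub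
        intro i _ _
        positivity
    _ = ∑ k ∈ Icc 1 Q, 1 / ((g * k : ℕ) : ℝ) := sum_image hinj
    _ = 1 / (g : ℝ) * ∑ k ∈ Icc 1 Q, 1 / (k : ℝ) := by
        rw [mul_sum]
        apply sum_congr rfl
        intro k _
        push_cast
        rw [one_div_mul_one_div]
    _ ≤ _ := mul_le_mul_of_nonneg_left (cg2_sum_inv Q) (by positivity)

theorem cg2_gcd_sum (Q : ℕ) :
    ∑ e₁ ∈ Icc 1 Q, ∑ e₂ ∈ Icc 1 Q, ((Nat.gcd e₁ e₂ : ℝ) / ((e₁ : ℝ) * e₂)) ≤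
      (1 + Real.log Q) ^ 3 := by
  have hlog : 0 ≤ Real.log Q := by positivity
  have h1 : ∀ e₁ ∈ Icc 1 Q, ∀ e₂ ∈ Icc 1 Q, ((Nat.gcd e₁ e₂ : ℝ) / ((e₁ : ℝ) * e₂)) =
      ∑ g ∈ Icc 1 Q, (Nat.totient g : ℝ) * ((if g ∣ e₁ then 1 / (e₁ : ℝ) else 0) *
        (if g ∣ e₂ then 1 / (e₂ : ℝ) else 0)) := by
    intro e₁ he₁ e₂ he₂
    rw [mem_Icc] at he₁ he₂
    have h2 : ((Nat.gcd e₁ e₂ : ℕ) : ℝ) = ∑ g ∈ (Nat.gcd e₁ e₂).divisors, (Nat.totient g : ℝ) := by
      have := congrArg (fun n : ℕ => (n : ℝ)) (Nat.sum_totient (Nat.gcd e₁ e₂)).symm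
      push_cast at this
      exact_mod_cast this
    have h3 : (Nat.gcd e₁ e₂).divisors = (Icc 1 Q).filter (fun g => g ∣ e₁ ∧ g ∣ e₂) := by
      ext g
      simp only [Nat.mem_divisors, mem_filter, mem_Icc, Nat.dvd_gcd_iff]
      constructor
      · rintro ⟨⟨a, b⟩, -⟩
        exact ⟨⟨Nat.pos_of_dvd_of_pos a he₁.1, (Nat.le_of_dvd he₁.1 a).trans he₁.2⟩, a, b⟩
      · rintro ⟨-, a, b⟩
        exact ⟨⟨a, b⟩, (Nat.gcd_pos_of_pos_left _ he₁.1).ne'⟩
    rw [h2, h3, sum_filter, sum_div]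
    apply sum_congr rfl
    intro g _
    have hp₁ : (0 : ℝ) < e₁ := by exact_mod_cast he₁.1
    have hp₂ : (0 : ℝ) < e₂ := by exact_mod_cast he₂.1
    by_cases a : g ∣ e₁ <;> by_cases b : g ∣ e₂ <;> simp [a, b]
    field_simp
  have h4 : ∑ e₁ ∈ Icc 1 Q, ∑ e₂ ∈ Icc 1 Q, ((Nat.gcd e₁ e₂ : ℝ) / ((e₁ : ℝ) * e₂)) =
      ∑ g ∈ Icc 1 Q, (Nat.totient g : ℝ) *
        ((∑ e ∈ Icc 1 Q, if g ∣ e then 1 / (e : ℝ) else 0) *
        (∑ e ∈ Icc 1 Q, if g ∣ e then 1 / (e : ℝ) else 0)) := by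
    rw [sum_congr rfl (fun e₁ he₁ => sum_congr rfl (fun e₂ he₂ => h1 e₁ he₁ e₂ he₂))]
    rw [sum_congr rfl (fun e₁ _ => sum_comm), sum_comm]
    apply sum_congr rfl
    intro g _
    rw [sum_mul_sum, mul_sum]
    apply sum_congr rfl
    intro e₁ _
    rw [mul_sum]
  rw [h4]
  calc _ ≤ ∑ g ∈ Icc 1 Q, 1 / (g : ℝ) * (1 + Real.log Q) ^ 2 := by
        apply sum_le_sum
        intro g hg
        rw [mem_Icc] at hg
        have hg0 : (0 : ℝ) < g := by exact_mod_cast hg.1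
        have h5 := cg2_sum_multiples Q g hg.1
        have h6 : 0 ≤ ∑ e ∈ Icc 1 Q, (if g ∣ e then 1 / (e : ℝ) else 0) := by
          apply sum_nonneg
          intro e _
          positivity
        have h7 : (Nat.totient g : ℝ) ≤ g := by exact_mod_cast Nat.totient_le g
        calc _ ≤ (g : ℝ) * ((1 / (g : ℝ) * (1 + Real.log Q)) * (1 / (g : ℝ) * (1 + Real.log Q))) := by
              gcongr
          _ = _ := by field_simp
    _ = (∑ g ∈ Icc 1 Q, 1 / (g : ℝ)) * (1 + Real.log Q) ^ 2 := by rw [sum_mul]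
    _ ≤ (1 + Real.log Q) * (1 + Real.log Q) ^ 2 := by
        apply mul_le_mul_of_nonneg_right (cg2_sum_inv Q) (by positivity)
    _ = _ := by ring

/-- Second moment of `dQ` along a class: only divisors coprime to `W` occur, and for
`D = lcm(e₁, e₂)` coprime to `W` at most `M/D + 1` of the `c < M` have `D ∣ b + W (s + c)`;
`∑_{e₁, e₂ ≤ Q} 1/lcm(e₁,e₂) = ∑ gcd/(e₁ e₂) ≤ ∑_{g ≤ Q} φ(g)/g² (1 + log Q)² ≤ (1 + log Q)³`. -/
theorem dQ_moment (Q M W b s : ℕ) (hW : 0 < W) (hb : Nat.Coprime b W) :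
    ∑ c ∈ range M, (dQ Q ((b : ℤ) + W * (s + c : ℕ))) ^ 2 ≤
      M * (1 + Real.log Q) ^ 3 + (Q : ℝ) ^ 2 := by
  have hlog : 0 ≤ Real.log Q := by positivity
  have h1 : ∀ c ∈ range M, (dQ Q ((b : ℤ) + W * (s + c : ℕ))) ^ 2 =
      ∑ e₁ ∈ Icc 1 Q, ∑ e₂ ∈ Icc 1 Q, if (e₁ : ℤ) ∣ (b : ℤ) + W * (s + c : ℕ) ∧
        (e₂ : ℤ) ∣ (b : ℤ) + W * (s + c : ℕ) then (1 : ℝ) else 0 := by
    intro c _
    unfold dQ
    rw [card_filter, sq]
    push_cast
    rw [sum_mul_sum]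
    apply sum_congr rfl
    intro e₁ _
    apply sum_congr rfl
    intro e₂ _
    rw [ite_and]
    split_ifs <;> simp
  rw [sum_congr rfl h1, sum_comm]
  have h2 : ∀ e₁ ∈ Icc 1 Q, ∑ c ∈ range M, ∑ e₂ ∈ Icc 1 Q,
      (if (e₁ : ℤ) ∣ (b : ℤ) + W * (s + c : ℕ) ∧
        (e₂ : ℤ) ∣ (b : ℤ) + W * (s + c : ℕ) then (1 : ℝ) else 0) ≤
      ∑ e₂ ∈ Icc 1 Q, ((M : ℝ) * ((Nat.gcd e₁ e₂ : ℝ) / ((e₁ : ℝ) * e₂)) + 1) := by
    intro e₁ he₁
    rw [sum_comm]
    apply sum_le_sum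
    intro e₂ he₂
    rw [mem_Icc] at he₁ he₂
    have hp₁ : (0 : ℝ) < e₁ := by exact_mod_cast he₁.1
    have hp₂ : (0 : ℝ) < e₂ := by exact_mod_cast he₂.1
    have hnn : 0 ≤ (M : ℝ) * ((Nat.gcd e₁ e₂ : ℝ) / ((e₁ : ℝ) * e₂)) + 1 := by positivity
    have hcast : ∑ c ∈ range M, (if (e₁ : ℤ) ∣ (b : ℤ) + W * (s + c : ℕ) ∧
        (e₂ : ℤ) ∣ (b : ℤ) + W * (s + c : ℕ) then (1 : ℝ) else 0) =
        ((((range M).filter (fun c : ℕ => (e₁ : ℤ) ∣ (b : ℤ) + W * (s + c : ℕ) ∧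
        (e₂ : ℤ) ∣ (b : ℤ) + W * (s + c : ℕ))).card : ℕ) : ℝ) := by
      rw [card_filter]
      push_cast
      rfl
    rw [hcast]
    by_cases hcop : Nat.Coprime e₁ W ∧ Nat.Coprime e₂ W
    · have h3 := cg1_count e₁ e₂ W b s s M he₁.1 he₂.1 hcop.1 hcop.2
      rw [if_pos (by simp)] at h3
      have h4 := (abs_le.mp h3).2
      have h5 : (M : ℝ) * ((Nat.gcd e₁ e₂ : ℝ) / ((e₁ : ℝ) * e₂)) =
          (M : ℝ) * (Nat.gcd e₁ e₂ : ℝ) / ((e₁ : ℝ) * e₂) := by ring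
      rw [h5]
      linarith
    · have hempty : (range M).filter (fun c : ℕ => (e₁ : ℤ) ∣ (b : ℤ) + W * (s + c : ℕ) ∧
          (e₂ : ℤ) ∣ (b : ℤ) + W * (s + c : ℕ)) = ∅ := by
        rw [filter_eq_empty_iff]
        intro c _ hc
        apply hcop
        have hcc := cg1_class_coprime hb (s + c)
        exact ⟨Nat.isCoprime_iff_coprime.mp (hcc.of_isCoprime_of_dvd_left hc.1),
          Nat.isCoprime_iff_coprime.mp (hcc.of_isCoprime_of_dvd_left hc.2)⟩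
      rw [hempty]
      simpa using hnn
  refine le_trans (b := ∑ e₁ ∈ Icc 1 Q, ∑ e₂ ∈ Icc 1 Q,
    ((M : ℝ) * ((Nat.gcd e₁ e₂ : ℝ) / ((e₁ : ℝ) * e₂)) + 1)) ?_ ?_
  · exact sum_le_sum h2
  simp_rw [sum_add_distrib, ← mul_sum]
  have h6 : ∑ _e₁ ∈ Icc 1 Q, ∑ _e₂ ∈ Icc 1 Q, (1 : ℝ) = (Q : ℝ) ^ 2 := by
    simp [sq]
  rw [h6]
  have h7 : ∑ e₁ ∈ Icc 1 Q, ∑ e₂ ∈ Icc 1 Q, ((Nat.gcd e₁ e₂ : ℝ) / ((e₁ : ℝ) * e₂)) ≤
      (1 + Real.log Q) ^ 3 := cg2_gcd_sum Q
  have h8 : (M : ℝ) * ∑ e₁ ∈ Icc 1 Q, ∑ e₂ ∈ Icc 1 Q, ((Nat.gcd e₁ e₂ : ℝ) / ((e₁ : ℝ) * e₂)) ≤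
      M * (1 + Real.log Q) ^ 3 := mul_le_mul_of_nonneg_left h7 (by positivity)
  linarith


end Pool.Agent.Lib.H68T
end

-- from Lib.H68X.XFB
section

/-!
# Chunk XFB: the polynomial `Fb`
-/

open Finset

namespace Pool.Agent.Lib.H68T

/-- A smooth amplitude with compact support. -/
structure XFB_Amp (A M : ℝ) (O O1 O2 : ℝ → ℝ) : Prop where
  d0 : ∀ y, HasDerivAt O (O1 y) y
  d1 : ∀ y, HasDerivAt O1 (O2 y) y
  c2 : Continuous O2
  b0 : ∀ y, |O y| ≤ M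
  b1 : ∀ y, |O1 y| ≤ M
  b2 : ∀ y, |O2 y| ≤ M
  z0 : ∀ y, y ∉ Set.Icc A (A + 6) → O y = 0
  z1 : ∀ y, y ∉ Set.Icc A (A + 6) → O1 y = 0
  z2 : ∀ y, y ∉ Set.Icc A (A + 6) → O2 y = 0

theorem XFB_Amp.c0 {A M : ℝ} {O O1 O2 : ℝ → ℝ} (h : XFB_Amp A M O O1 O2) : Continuous O :=
  continuous_iff_continuousAt.mpr (fun y => (h.d0 y).continuousAt)

theorem XFB_Amp.c1 {A M : ℝ} {O O1 O2 : ℝ → ℝ} (h : XFB_Amp A M O O1 O2) : Continuous O1 :=
  continuous_iff_continuousAt.mpr (fun y => (h.d1 y).continuousAt)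



/-- The summand. -/
noncomputable def XFB_W (O : ℝ → ℝ) (t u : ℝ) : ℂ :=
  (O (Real.log u) : ℂ) * (u : ℂ) ^ (-(1 + t * Complex.I))

theorem XFB_lip {A M : ℝ} {O O1 O2 : ℝ → ℝ} (h : XFB_Amp A M O O1 O2) (x y : ℝ) :
    |O y - O x| ≤ M * |y - x| := by
  have := Convex.norm_image_sub_le_of_norm_hasDerivWithin_le (f := O) (f' := O1) (s := Set.univ)
    (C := M) (x := x) (y := y) (fun z _ => (h.d0 z).hasDerivWithinAt) (fun z _ => h.b1 z)
    convex_univ (Set.mem_univ _) (Set.mem_univ _)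
  simpa [Real.norm_eq_abs] using this

theorem XFB_diff {A M : ℝ} {O O1 O2 : ℝ → ℝ} (h : XFB_Amp A M O O1 O2) (hM : 0 ≤ M)
    (t u u' : ℝ) (hu : 1 ≤ u) (huu : u ≤ u') :
    ‖XFB_W O t u' - XFB_W O t u‖ ≤ M * (2 + |t|) * ((u' - u) / u ^ 2) := by
  have hu0 : 0 < u := by linarith
  have hu0' : 0 < u' := by linarith
  have hll : Real.log u ≤ Real.log u' := Real.log_le_log hu0 huu
  have hd : Real.log u' - Real.log u ≤ (u' - u) / u := by
    rw [← Real.log_div hu0'.ne' hu0.ne']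
    refine (Real.log_le_sub_one_of_pos (by positivity)).trans ?_
    rw [sub_div, div_self hu0.ne']
  have h1 := XFB_lip h (Real.log u) (Real.log u')
  rw [abs_of_nonneg (by linarith : 0 ≤ Real.log u' - Real.log u)] at h1
  have h2 := h.b0 (Real.log u)
  have h3 := LONG_cpow_norm t u' hu0'
  have h4 := LONG_cpow_diff t u u' hu0 huu
  unfold XFB_W
  have e : (O (Real.log u') : ℂ) * (u' : ℂ) ^ (-(1 + t * Complex.I)) -
      (O (Real.log u) : ℂ) * (u : ℂ) ^ (-(1 + t * Complex.I)) =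
      ((O (Real.log u') - O (Real.log u) : ℝ) : ℂ) *
        (u' : ℂ) ^ (-(1 + t * Complex.I)) +
      (O (Real.log u) : ℂ) * ((u' : ℂ) ^ (-(1 + t * Complex.I)) -
        (u : ℂ) ^ (-(1 + t * Complex.I))) := by push_cast; ring
  rw [e]
  refine (norm_add_le _ _).trans ?_
  rw [norm_mul, norm_mul, Complex.norm_real, Complex.norm_real, h3, Real.norm_eq_abs,
    Real.norm_eq_abs]
  have b1 : |O (Real.log u') - O (Real.log u)| * u'⁻¹ ≤ (M * ((u' - u) / u)) * u⁻¹ := by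
    have : M * (Real.log u' - Real.log u) ≤ M * ((u' - u) / u) :=
      mul_le_mul_of_nonneg_left hd hM
    apply mul_le_mul (h1.trans this) (inv_anti₀ hu0 huu) (by positivity)
    exact le_trans (abs_nonneg _) (h1.trans this)
  have b2 : |O (Real.log u)| * ‖(u' : ℂ) ^ (-(1 + t * Complex.I)) -
        (u : ℂ) ^ (-(1 + t * Complex.I))‖ ≤ M * ((1 + |t|) * (u' - u) / u ^ 2) := by
    apply mul_le_mul h2 h4 (norm_nonneg _) hM
  calc _ ≤ (M * ((u' - u) / u)) * u⁻¹ + M * ((1 + |t|) * (u' - u) / u ^ 2) := add_le_add b1 b2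
    _ = _ := by field_simp; ring

theorem XFB_W_cont (O : ℝ → ℝ) (hO : Continuous O) (t : ℝ) (u : ℝ) (hpos : 0 < u) :
    ContinuousAt (XFB_W O t) u := by
  unfold XFB_W
  apply ContinuousAt.mul
  · apply Complex.continuous_ofReal.continuousAt.comp
    exact ContinuousAt.comp (f := Real.log) (g := O) hO.continuousAt
      (Real.continuousAt_log hpos.ne')
  · have h1 : ContinuousAt (fun z : ℂ => z ^ (-(1 + t * Complex.I))) ((u : ℝ) : ℂ) :=
      continuousAt_cpow_const (Or.inl (by simpa using hpos))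
    exact ContinuousAt.comp (f := fun x : ℝ => (x : ℂ)) h1 Complex.continuous_ofReal.continuousAt

theorem XFB_W_ii (O : ℝ → ℝ) (hO : Continuous O) (t : ℝ) (a b : ℝ) (ha : 0 < a) (hab : a ≤ b) :
    IntervalIntegrable (XFB_W O t) MeasureTheory.volume a b :=
  ContinuousOn.intervalIntegrable_of_Icc hab
    (fun u hu => (XFB_W_cont O hO t u (lt_of_lt_of_le ha hu.1)).continuousWithinAt)

/-- Substitution `u = e^y`. -/
theorem XFB_subst (O : ℝ → ℝ) (hO : Continuous O) (t : ℝ) (N : ℝ) (hN : 1 ≤ N) :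
    ∫ u in (1:ℝ)..N, XFB_W O t u =
      ∫ y in (0:ℝ)..Real.log N, (O y : ℂ) * Complex.exp (-(t * Complex.I) * y) := by
  have hN0 : 0 < N := by linarith
  have h := intervalIntegral.integral_deriv_smul_comp' (f := Real.exp) (f' := Real.exp)
    (g := XFB_W O t) (a := 0) (b := Real.log N) (fun x _ => Real.hasDerivAt_exp x)
    Real.continuous_exp.continuousOn ?_
  · rw [Real.exp_zero, Real.exp_log hN0] at h
    rw [← h]
    apply intervalIntegral.integral_congr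
    intro y _
    simp only [Function.comp_apply, XFB_W, Real.log_exp, Complex.real_smul]
    rw [Complex.cpow_def_of_ne_zero (by exact_mod_cast (Real.exp_pos y).ne'),
      ← Complex.ofReal_log (Real.exp_pos y).le, Real.log_exp, Complex.ofReal_exp,
      mul_left_comm, ← Complex.exp_add]
    congr 2
    ring
  · intro u hu
    obtain ⟨y, -, rfl⟩ := hu
    exact (XFB_W_cont O hO t _ (Real.exp_pos y)).continuousWithinAt


/-- The amplitude of `Fb`. -/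
noncomputable def XFB_O (c β y : ℝ) : ℝ := w (y + c) * Real.exp ((β - 1) * y)

noncomputable def XFB_O1 (c β y : ℝ) : ℝ :=
  (LONG2_V1 c y + (β - 1) * w (y + c)) * Real.exp ((β - 1) * y)

noncomputable def XFB_O2 (c β y : ℝ) : ℝ :=
  (LONG2_V2 c y + 2 * ((β - 1) * LONG2_V1 c y) + (β - 1) ^ 2 * w (y + c)) *
    Real.exp ((β - 1) * y)

theorem XFB_amp : ∃ M : ℝ, 0 ≤ M ∧ ∀ c β : ℝ, c ≤ -2 → 1 / 2 ≤ β → β ≤ 1 →
    XFB_Amp (-c - 2) M (XFB_O c β) (XFB_O1 c β) (XFB_O2 c β) := by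
  obtain ⟨B, hB1, hs1, hs2, hz1, hz2⟩ := LONG_sT
  have hs1' : ∀ x, |LONG2_s1 x| ≤ B := hs1
  have hs2' : ∀ x, |LONG2_s2 x| ≤ B := hs2
  have hB0 : 0 ≤ B := by linarith
  refine ⟨9 * B ^ 2, by positivity, fun c β hc hβ hβ1 => ?_⟩
  have t1 : ∀ x, |Real.smoothTransition x| ≤ 1 := fun x => by
    rw [abs_of_nonneg (Real.smoothTransition.nonneg _)]; exact Real.smoothTransition.le_one _
  have tw : ∀ x, |w x| ≤ 1 := fun x => by
    rw [abs_of_nonneg (LONG_w_nonneg _)]; exact LONG_w_le_one _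
  have V1 : ∀ y, |LONG2_V1 c y| ≤ 2 * B := by
    intro y
    unfold LONG2_V1
    refine (abs_sub _ _).trans ?_
    rw [abs_mul, abs_mul]
    calc _ ≤ B * 1 + 1 * B := by
          gcongr
          · exact hs1' _
          · exact t1 _
          · exact t1 _
          · exact hs1' _
      _ = _ := by ring
  have V2 : ∀ y, |LONG2_V2 c y| ≤ 2 * B + 2 * B ^ 2 := by
    intro y
    unfold LONG2_V2
    refine (abs_add_le _ _).trans ?_
    have h1 := abs_sub (LONG2_s2 (y + c + 2) * Real.smoothTransition (4 - (y + c)))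
      (2 * (LONG2_s1 (y + c + 2) * LONG2_s1 (4 - (y + c))))
    rw [abs_mul, abs_mul, abs_mul, abs_two] at h1
    rw [abs_mul (Real.smoothTransition (y + c + 2))]
    have h2 : |LONG2_s2 (y + c + 2)| * |Real.smoothTransition (4 - (y + c))| ≤ B * 1 := by
      gcongr
      · exact hs2' _
      · exact t1 _
    have h3 : |LONG2_s1 (y + c + 2)| * |LONG2_s1 (4 - (y + c))| ≤ B * B := by
      gcongr
      · exact hs1' _
      · exact hs1' _
    have h4 : |Real.smoothTransition (y + c + 2)| * |LONG2_s2 (4 - (y + c))| ≤ 1 * B := by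
      gcongr
      · exact t1 _
      · exact hs2' _
    nlinarith
  have hout : ∀ y, y ∉ Set.Icc (-c - 2) (-c - 2 + 6) →
      w (y + c) = 0 ∧ LONG2_V1 c y = 0 ∧ LONG2_V2 c y = 0 := by
    intro y hy
    rw [Set.mem_Icc, not_and_or, not_le, not_le] at hy
    rcases hy with hy | hy
    · have e0 : Real.smoothTransition (y + c + 2) = 0 :=
        Real.smoothTransition.zero_of_nonpos (by linarith)
      have e1 : LONG2_s1 (y + c + 2) = 0 := hz1 _ (by rw [Set.mem_Icc]; intro h; linarith [h.1])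
      have e2 : LONG2_s2 (y + c + 2) = 0 := hz2 _ (by rw [Set.mem_Icc]; intro h; linarith [h.1])
      unfold w LONG2_V1 LONG2_V2
      rw [e0, e1, e2]
      simp
    · have e0 : Real.smoothTransition (4 - (y + c)) = 0 :=
        Real.smoothTransition.zero_of_nonpos (by linarith)
      have e1 : LONG2_s1 (4 - (y + c)) = 0 := hz1 _ (by rw [Set.mem_Icc]; intro h; linarith [h.1])
      have e2 : LONG2_s2 (4 - (y + c)) = 0 := hz2 _ (by rw [Set.mem_Icc]; intro h; linarith [h.1])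
      unfold w LONG2_V1 LONG2_V2
      rw [e0, e1, e2]
      simp
  have hbeta : |β - 1| ≤ 1 := by rw [abs_le]; constructor <;> linarith
  have hexp : ∀ y, y ∈ Set.Icc (-c - 2) (-c - 2 + 6) → |Real.exp ((β - 1) * y)| ≤ 1 := by
    intro y hy
    rw [abs_of_pos (Real.exp_pos _), Real.exp_le_one_iff]
    have : 0 ≤ y := by linarith [hy.1]
    nlinarith
  have hE : ∀ y : ℝ, HasDerivAt (fun y : ℝ => Real.exp ((β - 1) * y))
      (Real.exp ((β - 1) * y) * (β - 1)) y := by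
    intro y
    have := ((hasDerivAt_id' y).const_mul (β - 1)).exp
    simpa using this
  have gen : ∀ (f : ℝ → ℝ) (D : ℝ), 0 ≤ D → (∀ y, |f y| ≤ D) →
      (∀ y, y ∉ Set.Icc (-c - 2) (-c - 2 + 6) → f y = 0) → ∀ y,
      |f y * Real.exp ((β - 1) * y)| ≤ D := by
    intro f D hD hf hz y
    by_cases h : y ∈ Set.Icc (-c - 2) (-c - 2 + 6)
    · rw [abs_mul]
      calc _ ≤ D * 1 := mul_le_mul (hf y) (hexp y h) (abs_nonneg _) hD
        _ = D := mul_one D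
    · rw [hz y h]; simpa using hD
  refine ⟨?_, ?_, ?_, ?_, ?_, ?_, ?_, ?_, ?_⟩
  · intro y
    unfold XFB_O XFB_O1
    refine HasDerivAt.congr_deriv ((LONG2_hV c y).mul (hE y)) ?_
    ring
  · intro y
    unfold XFB_O1 XFB_O2
    refine HasDerivAt.congr_deriv
      (((LONG2_hV1 c y).add ((LONG2_hV c y).const_mul (β - 1))).mul (hE y)) ?_
    simp only [Pi.add_apply]
    ring
  · unfold XFB_O2 LONG2_V1 LONG2_V2
    have := LONG2_cw
    have := LONG2_c0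
    have := LONG2_c1
    have := LONG2_c2
    fun_prop
  · intro y
    unfold XFB_O
    refine (gen (fun y => w (y + c)) 1 zero_le_one (fun y => tw _) (fun y hy => (hout y hy).1)
      y).trans ?_
    nlinarith
  · intro y
    unfold XFB_O1
    refine (gen (fun y => LONG2_V1 c y + (β - 1) * w (y + c)) (2 * B + 1) (by linarith)
      (fun y => ?_) (fun y hy => ?_) y).trans ?_
    · refine (abs_add_le _ _).trans (add_le_add (V1 y) ?_)
      rw [abs_mul]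
      calc _ ≤ (1:ℝ) * 1 := mul_le_mul hbeta (tw _) (abs_nonneg _) zero_le_one
        _ = 1 := one_mul 1
    · rw [(hout y hy).1, (hout y hy).2.1]; simp
    · nlinarith
  · intro y
    unfold XFB_O2
    refine (gen (fun y => LONG2_V2 c y + 2 * ((β - 1) * LONG2_V1 c y) + (β - 1) ^ 2 * w (y + c))
      ((2 * B + 2 * B ^ 2) + 2 * (2 * B) + 1) (by positivity)
      (fun y => ?_) (fun y hy => ?_) y).trans ?_
    · refine (abs_add_three _ _ _).trans ?_
      have h1 : |2 * ((β - 1) * LONG2_V1 c y)| ≤ 2 * (2 * B) := by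
        rw [abs_mul, abs_mul, abs_two]
        have := mul_le_mul hbeta (V1 y) (abs_nonneg _) zero_le_one
        linarith
      have h2 : |(β - 1) ^ 2 * w (y + c)| ≤ 1 := by
        rw [abs_mul, abs_pow]
        calc _ ≤ (1:ℝ) ^ 2 * 1 := by
              apply mul_le_mul _ (tw _) (abs_nonneg _) (by norm_num)
              exact pow_le_pow_left₀ (abs_nonneg _) hbeta 2
          _ = 1 := by norm_num
      exact add_le_add (add_le_add (V2 y) h1) h2
    · rw [(hout y hy).1, (hout y hy).2.1, (hout y hy).2.2]; simp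
    · nlinarith
  · intro y hy
    unfold XFB_O
    rw [(hout y hy).1]; simp
  · intro y hy
    unfold XFB_O1
    rw [(hout y hy).1, (hout y hy).2.1]; simp
  · intro y hy
    unfold XFB_O2
    rw [(hout y hy).1, (hout y hy).2.1, (hout y hy).2.2]; simp

theorem XFB_eq (X : ℕ) (β t : ℝ) (hX : 1 ≤ X) :
    Fb X β t = ∑ n ∈ Icc 1 (60 * X), XFB_W (XFB_O (-Real.log X) β) t n := by
  unfold Fb FF
  apply sum_congr rfl
  intro m hm
  rw [mem_Icc] at hm
  have hm0 : (0:ℝ) < m := by exact_mod_cast hm.1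
  have hX0 : (0:ℝ) < X := by exact_mod_cast hX
  unfold XFB_W XFB_O v
  show (((m : ℝ) ^ (β - 1) : ℝ) : ℂ) * _ * _ = _
  rw [Real.log_div hm0.ne' hX0.ne', ← sub_eq_add_neg, Real.rpow_def_of_pos hm0,
    mul_comm (Real.log (m:ℝ)) (β - 1)]
  push_cast
  ring



end Pool.Agent.Lib.H68T
end

-- from Lib.H68X.XPAIR
section

/-!
# Chunk XPAIR: correlations of weighted Ramanujan expansions along a class
-/

open Finset

namespace Pool.Agent.Lib.H68T

/-- Abel summation: a bounded monotone weight costs a factor `2`: if all partial sums of `g` over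
`[0, N)`, `N ≤ M`, are at most `E` in norm, and `a` is antitone or monotone with values in `[0, D]`,
then `‖∑_{c<M} a c g c‖ ≤ 2 D E`. -/
theorem weighted_sum (M : ℕ) (a : ℕ → ℝ) (g : ℕ → ℂ) (D E : ℝ) (hD : 0 ≤ D)
    (hE : ∀ N ≤ M, ‖∑ c ∈ range N, g c‖ ≤ E) (ha0 : ∀ c, 0 ≤ a c) (haD : ∀ c, a c ≤ D)
    (hmon : Antitone a ∨ Monotone a) :
    ‖∑ c ∈ range M, (a c : ℂ) * g c‖ ≤ 2 * D * E := by
  have hE0 : 0 ≤ E := (norm_nonneg _).trans (hE 0 (Nat.zero_le _))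
  rcases Nat.eq_zero_or_pos M with h0 | hM
  · subst h0
    simp only [range_zero, sum_empty, norm_zero]
    positivity
  have h1 := Finset.sum_range_by_parts (fun c => (a c : ℂ)) g M
  simp only [smul_eq_mul] at h1
  rw [h1]
  have h2 : ‖(a (M - 1) : ℂ) * ∑ i ∈ range M, g i‖ ≤ a (M - 1) * E := by
    rw [norm_mul, Complex.norm_real, Real.norm_eq_abs, abs_of_nonneg (ha0 _)]
    exact mul_le_mul_of_nonneg_left (hE M le_rfl) (ha0 _)
  have h3 : ‖∑ i ∈ range (M - 1), ((a (i + 1) : ℂ) - (a i : ℂ)) * ∑ j ∈ range (i + 1), g j‖ ≤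
      (∑ i ∈ range (M - 1), |a (i + 1) - a i|) * E := by
    refine (norm_sum_le _ _).trans ?_
    rw [sum_mul]
    apply sum_le_sum
    intro i hi
    rw [mem_range] at hi
    rw [norm_mul, ← Complex.ofReal_sub, Complex.norm_real, Real.norm_eq_abs]
    exact mul_le_mul_of_nonneg_left (hE (i + 1) (by omega)) (abs_nonneg _)
  have h4 : a (M - 1) + ∑ i ∈ range (M - 1), |a (i + 1) - a i| ≤ 2 * D := by
    rcases hmon with hm | hm
    · have h5 : ∑ i ∈ range (M - 1), |a (i + 1) - a i| = ∑ i ∈ range (M - 1), (a i - a (i + 1)) := by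
        apply sum_congr rfl
        intro i _
        rw [abs_sub_comm, abs_of_nonneg]
        have := hm (Nat.le_succ i)
        linarith
      rw [h5, sum_range_sub']
      have := haD 0
      linarith
    · have h5 : ∑ i ∈ range (M - 1), |a (i + 1) - a i| = ∑ i ∈ range (M - 1), (a (i + 1) - a i) := by
        apply sum_congr rfl
        intro i _
        rw [abs_of_nonneg]
        have := hm (Nat.le_succ i)
        linarith
      rw [h5, sum_range_sub]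
      have := haD (M - 1)
      have := ha0 0
      linarith
  calc _ ≤ a (M - 1) * E + (∑ i ∈ range (M - 1), |a (i + 1) - a i|) * E :=
        (norm_sub_le _ _).trans (add_le_add h2 h3)
    _ = (a (M - 1) + ∑ i ∈ range (M - 1), |a (i + 1) - a i|) * E := by ring
    _ ≤ 2 * D * E := mul_le_mul_of_nonneg_right h4 hE0

/-- real version of `weighted_sum` -/
theorem XPAIR_weighted (M : ℕ) (a : ℕ → ℝ) (g : ℕ → ℝ) (D E : ℝ) (hD : 0 ≤ D)
    (hE : ∀ N ≤ M, |∑ c ∈ range N, g c| ≤ E) (ha0 : ∀ c, 0 ≤ a c) (haD : ∀ c, a c ≤ D)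
    (hmon : Antitone a ∨ Monotone a) :
    |∑ c ∈ range M, a c * g c| ≤ 2 * D * E := by
  have h := weighted_sum M a (fun c => (g c : ℂ)) D E hD (fun N hN => ?_) ha0 haD hmon
  · have h1 : ∑ c ∈ range M, (a c : ℂ) * (g c : ℂ) = ((∑ c ∈ range M, a c * g c : ℝ) : ℂ) := by
      push_cast
      rfl
    rw [h1, Complex.norm_real, Real.norm_eq_abs] at h
    exact h
  · have h1 : ∑ c ∈ range N, (g c : ℂ) = ((∑ c ∈ range N, g c : ℝ) : ℂ) := by
      push_cast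
      rfl
    rw [h1, Complex.norm_real, Real.norm_eq_abs]
    exact hE N hN

theorem XPAIR_cq_one (m : ℤ) : cq 1 m = 1 := by
  unfold cq
  rw [Nat.divisors_one, filter_singleton, if_pos (by simp)]
  simp

/-- two weights -/
theorem XPAIR_two (M : ℕ) (a a' : ℕ → ℝ) (g : ℕ → ℝ) (D E : ℝ) (hD : 0 ≤ D)
    (hE : ∀ N ≤ M, |∑ c ∈ range N, g c| ≤ E) (ha0 : ∀ c, 0 ≤ a c) (haD : ∀ c, a c ≤ D)
    (hmon : Antitone a ∨ Monotone a) (ha0' : ∀ c, 0 ≤ a' c) (haD' : ∀ c, a' c ≤ D)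
    (hmon' : Antitone a' ∨ Monotone a') :
    |∑ c ∈ range M, a' c * (a c * g c)| ≤ 4 * D ^ 2 * E := by
  have h := XPAIR_weighted M a' (fun c => a c * g c) D (2 * D * E) hD (fun N hN => ?_) ha0' haD' hmon'
  · calc _ ≤ 2 * D * (2 * D * E) := h
      _ = 4 * D ^ 2 * E := by ring
  · exact XPAIR_weighted N a g D E hD (fun N' hN' => hE N' (hN'.trans hN)) ha0 haD hmon

theorem XPAIR_sum_le (Q W : ℕ) :
    ∑ q ∈ QW Q W, |(ArithmeticFunction.moebius q : ℝ) / (Nat.totient q : ℝ)| *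
      ∑ d ∈ q.divisors, (d : ℝ) ≤ (Q : ℝ) ^ 2 := by
  refine le_trans ?_ (cg1_sum_sigma Q)
  have hsub : QW Q W ⊆ Icc 1 Q := filter_subset _ _
  refine le_trans (sum_le_sum_of_subset_of_nonneg hsub (fun q _ _ => by positivity)) ?_
  apply sum_le_sum
  intro q _
  split_ifs with h
  · rw [abs_div, abs_of_nonneg (by positivity : (0 : ℝ) ≤ (Nat.totient q : ℝ)), div_mul_eq_mul_div]
    apply div_le_div_of_nonneg_right _ (by positivity)
    have := cg1_abs_moebius_le q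
    have h2 : (0 : ℝ) ≤ ∑ d ∈ q.divisors, (d : ℝ) := by positivity
    nlinarith
  · rw [ArithmeticFunction.moebius_eq_zero_of_not_squarefree h]
    simp

theorem XPAIR_mem {Q W q : ℕ} (hq : q ∈ QW Q W) : 0 < q ∧ Nat.Coprime q W ∧ q ≤ Q := by
  unfold QW at hq
  rw [mem_filter, mem_Icc] at hq
  exact ⟨hq.1.1, hq.2, hq.1.2⟩



end Pool.Agent.Lib.H68T
end
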