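import Pool.Agent.Lib.H1M.RV.M005
import Pool.Agent.Lib.H1M.RV.M011

/-! Merged copies (to shorten the build) of Lib.H59C.LSC, Lib.H59C.BIL, Lib.H59C.TY2, Lib.H59C.MI. -/

-- from Lib.H59C.LSC
section

/-!
# LSC: the multiplicative large sieve
-/

open Finset

namespace Pool.Agent.Lib.H59C

open Pool.Agent.Lib.H68T (PC p0 e)

open Classical in
theorem LSC_fiber (Q q : ℕ) (hq : 1 ≤ q) (f : PCh → ℝ) (hf : ∀ p, 0 ≤ f p) :
    ∑ p ∈ (PC Q).filter (fun p => p.1 = q), f p ≤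
      ∑ χ ∈ ((Set.toFinite {χ : DirichletCharacter ℂ q | χ.IsPrimitive}).toFinset), f ⟨q, χ⟩ := by
  have hne : NeZero q := ⟨by omega⟩
  have h1 : (PC Q).filter (fun p => p.1 = q) ⊆
      ((Set.toFinite {χ : DirichletCharacter ℂ q | χ.IsPrimitive}).toFinset).map
        (Function.Embedding.sigmaMk (β := fun r => DirichletCharacter ℂ r) q) := by
    intro p hp
    rw [mem_filter] at hp
    obtain ⟨hp1, hp2⟩ := hp
    obtain ⟨r, ψ⟩ := p
    simp only at hp2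
    subst hp2
    rw [mem_map]
    refine ⟨ψ, ?_, rfl⟩
    rw [Set.Finite.mem_toFinset]
    exact (Pool.Agent.Lib.H68T.mem_PC.1 hp1).2.2
  refine (Finset.sum_le_sum_of_subset_of_nonneg h1 (fun p _ _ => hf p)).trans ?_
  rw [Finset.sum_map]
  exact le_rfl

/-- The large sieve for primitive characters: group `PC Q` by the conductor `q ∈ [1, Q]`
(`PC Q` is the set of all `⟨r, χ⟩` with `1 ≤ r ≤ Q`, `χ` primitive, `H68T.mem_PC`), apply `ls_gauss` with
`T` = the fibre over `q` and `S = Ico M (M + N)`, then `ls_add`. -/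
theorem ls_mul : ∃ C : ℝ, 0 < C ∧ ∀ (Q N : ℕ), 1 ≤ Q → 1 ≤ N → ∀ (M : ℕ) (a : ℕ → ℂ),
    ∑ p ∈ PC Q, (p.1 : ℝ) / (Nat.totient p.1 : ℝ) *
      ‖∑ m ∈ Ico M (M + N), a m * p.2 (m : ZMod p.1)‖ ^ 2 ≤
      C * ((N : ℝ) + (Q : ℝ) ^ 2) * ∑ m ∈ Ico M (M + N), ‖a m‖ ^ 2 := by
  classical
  obtain ⟨C, hC, h⟩ := ls_add
  refine ⟨C, hC, fun Q N hQ hN M a => ?_⟩
  refine le_trans ?_ (h Q N hQ hN M a)
  have hmaps : ∀ p ∈ PC Q, p.1 ∈ Icc 1 Q := by
    intro p hp
    have := Pool.Agent.Lib.H68T.mem_PC.1 hp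
    rw [mem_Icc]
    exact ⟨this.1, this.2.1⟩
  rw [← Finset.sum_fiberwise_of_maps_to hmaps]
  apply Finset.sum_le_sum
  intro q hq
  rw [mem_Icc] at hq
  have hne : NeZero q := ⟨by omega⟩
  refine (LSC_fiber Q q hq.1 (fun p => (p.1 : ℝ) / (Nat.totient p.1 : ℝ) *
      ‖∑ m ∈ Ico M (M + N), a m * p.2 (m : ZMod p.1)‖ ^ 2) (fun p => by positivity)).trans ?_
  simp only
  rw [← Finset.mul_sum]
  refine ls_gauss q (Ico M (M + N)) a _ ?_
  intro χ hχ
  rw [Set.Finite.mem_toFinset] at hχ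
  exact hχ

end Pool.Agent.Lib.H59C
end

-- from Lib.H59C.BIL
section

/-!
# BIL: bilinear forms with characters, with the condition `m n ≤ y`
-/

open Finset

namespace Pool.Agent.Lib.H59C

open Pool.Agent.Lib.H68T (PC p0 e)

/-- Cauchy-Schwarz with weights -/
theorem BIL_cs {ι : Type*} (S : Finset ι) (w a b : ι → ℝ) (hw : ∀ i ∈ S, 0 ≤ w i) :
    ∑ i ∈ S, w i * (a i * b i) ≤
      Real.sqrt (∑ i ∈ S, w i * a i ^ 2) * Real.sqrt (∑ i ∈ S, w i * b i ^ 2) := by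
  have h := Real.sum_mul_le_sqrt_mul_sqrt S (fun i => Real.sqrt (w i) * a i)
    (fun i => Real.sqrt (w i) * b i)
  have h1 : ∑ i ∈ S, Real.sqrt (w i) * a i * (Real.sqrt (w i) * b i) =
      ∑ i ∈ S, w i * (a i * b i) := by
    apply sum_congr rfl
    intro i hi
    have := Real.mul_self_sqrt (hw i hi)
    calc Real.sqrt (w i) * a i * (Real.sqrt (w i) * b i)
        = (Real.sqrt (w i) * Real.sqrt (w i)) * (a i * b i) := by ring
      _ = w i * (a i * b i) := by rw [this]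
  have h2 : ∀ c : ι → ℝ, ∑ i ∈ S, (Real.sqrt (w i) * c i) ^ 2 = ∑ i ∈ S, w i * c i ^ 2 := by
    intro c
    apply sum_congr rfl
    intro i hi
    rw [mul_pow, Real.sq_sqrt (hw i hi)]
  rw [h1, h2, h2] at h
  exact h

theorem BIL_half : ∃ C : ℝ, 0 < C ∧ ∀ (R M : ℕ), 1 ≤ R → 1 ≤ M → ∀ α : ℕ → ℂ,
    ∑ p ∈ PD R, (p.1 : ℝ) / (Nat.totient p.1 : ℝ) *
      ‖∑ m ∈ Icc 1 M, α m * p.2 (m : ZMod p.1)‖ ^ 2 ≤
      C * ((M : ℝ) + (R : ℝ) ^ 2) * ∑ m ∈ Icc 1 M, ‖α m‖ ^ 2 := by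
  obtain ⟨C, hC, h⟩ := ls_mul
  refine ⟨4 * C, by positivity, ?_⟩
  intro R M hR hM α
  have h1 := h (2 * R) M (by omega) hM 1 α
  have h2 : Ico 1 (1 + M) = Icc 1 M := by
    ext x
    rw [mem_Ico, mem_Icc]
    omega
  rw [h2] at h1
  have h3 : ∑ p ∈ PD R, (p.1 : ℝ) / (Nat.totient p.1 : ℝ) *
      ‖∑ m ∈ Icc 1 M, α m * p.2 (m : ZMod p.1)‖ ^ 2 ≤
      ∑ p ∈ PC (2 * R), (p.1 : ℝ) / (Nat.totient p.1 : ℝ) *
      ‖∑ m ∈ Icc 1 M, α m * p.2 (m : ZMod p.1)‖ ^ 2 := by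
    apply sum_le_sum_of_subset_of_nonneg
    · unfold PD
      exact filter_subset _ _
    · intro p _ _
      positivity
  refine (h3.trans h1).trans ?_
  apply mul_le_mul_of_nonneg_right _ (sum_nonneg fun _ _ => by positivity)
  push_cast
  have h4 : (0 : ℝ) ≤ M := Nat.cast_nonneg _
  nlinarith

/-- The same without the condition `m n ≤ y` (no separation of variables needed). -/
theorem bil' : ∃ C : ℝ, 0 < C ∧ ∀ (R M N : ℕ), 1 ≤ R → 1 ≤ M → 1 ≤ N → ∀ α β : ℕ → ℂ,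
    ∑ p ∈ PD R, 1 / (Nat.totient p.1 : ℝ) *
      (‖∑ m ∈ Icc 1 M, α m * p.2 (m : ZMod p.1)‖ * ‖∑ n ∈ Icc 1 N, β n * p.2 (n : ZMod p.1)‖) ≤
      C / R * Real.sqrt (((M : ℝ) + (R : ℝ) ^ 2) * ((N : ℝ) + (R : ℝ) ^ 2) *
        (∑ m ∈ Icc 1 M, ‖α m‖ ^ 2) * ∑ n ∈ Icc 1 N, ‖β n‖ ^ 2) := by
  obtain ⟨C, hC, h⟩ := BIL_half
  refine ⟨C, hC, ?_⟩
  intro R M N hR hM hN α β
  have hR0 : (0 : ℝ) < R := by exact_mod_cast hR
  have hA := h R M hR hM α
  have hB := h R N hR hN β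
  obtain ⟨SA, hSA⟩ : ∃ SA : ℝ, SA = ∑ m ∈ Icc 1 M, ‖α m‖ ^ 2 := ⟨_, rfl⟩
  obtain ⟨SB, hSB⟩ : ∃ SB : ℝ, SB = ∑ m ∈ Icc 1 N, ‖β m‖ ^ 2 := ⟨_, rfl⟩
  rw [← hSA] at hA ⊢
  rw [← hSB] at hB ⊢
  have hSA0 : 0 ≤ SA := by rw [hSA]; positivity
  have hSB0 : 0 ≤ SB := by rw [hSB]; positivity
  have h1 : ∀ p ∈ PD R, 1 / (Nat.totient p.1 : ℝ) *
      (‖∑ m ∈ Icc 1 M, α m * p.2 (m : ZMod p.1)‖ * ‖∑ n ∈ Icc 1 N, β n * p.2 (n : ZMod p.1)‖) ≤
      (1 / R) * ((p.1 : ℝ) / (Nat.totient p.1 : ℝ) *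
      (‖∑ m ∈ Icc 1 M, α m * p.2 (m : ZMod p.1)‖ * ‖∑ n ∈ Icc 1 N, β n * p.2 (n : ZMod p.1)‖)) := by
    intro p hp
    have hp1 : R < p.1 := by
      unfold PD at hp
      exact (mem_filter.mp hp).2
    have hp2 : (R : ℝ) ≤ p.1 := by exact_mod_cast hp1.le
    rw [← mul_assoc (1 / (R : ℝ))]
    apply mul_le_mul_of_nonneg_right _ (by positivity)
    have h2 : (1 : ℝ) ≤ (1 / R) * p.1 := by
      rw [one_div, inv_mul_eq_div, le_div_iff₀ hR0, one_mul]
      exact hp2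
    calc 1 / (Nat.totient p.1 : ℝ) ≤ ((1 / R) * p.1) / (Nat.totient p.1 : ℝ) :=
          div_le_div_of_nonneg_right h2 (Nat.cast_nonneg _)
      _ = (1 / R) * ((p.1 : ℝ) / (Nat.totient p.1 : ℝ)) := by ring
  refine (sum_le_sum h1).trans ?_
  rw [← mul_sum]
  have h3 := BIL_cs (PD R) (fun p => (p.1 : ℝ) / (Nat.totient p.1 : ℝ))
    (fun p => ‖∑ m ∈ Icc 1 M, α m * p.2 (m : ZMod p.1)‖)
    (fun p => ‖∑ n ∈ Icc 1 N, β n * p.2 (n : ZMod p.1)‖) (fun p _ => by positivity)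
  have h4 : Real.sqrt (∑ p ∈ PD R, (p.1 : ℝ) / (Nat.totient p.1 : ℝ) *
      ‖∑ m ∈ Icc 1 M, α m * p.2 (m : ZMod p.1)‖ ^ 2) *
      Real.sqrt (∑ p ∈ PD R, (p.1 : ℝ) / (Nat.totient p.1 : ℝ) *
      ‖∑ n ∈ Icc 1 N, β n * p.2 (n : ZMod p.1)‖ ^ 2) ≤
      Real.sqrt (C * ((M : ℝ) + (R : ℝ) ^ 2) * SA) *
        Real.sqrt (C * ((N : ℝ) + (R : ℝ) ^ 2) * SB) :=
    mul_le_mul (Real.sqrt_le_sqrt hA) (Real.sqrt_le_sqrt hB) (Real.sqrt_nonneg _)
      (Real.sqrt_nonneg _)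
  have h5 : Real.sqrt (C * ((M : ℝ) + (R : ℝ) ^ 2) * SA) *
        Real.sqrt (C * ((N : ℝ) + (R : ℝ) ^ 2) * SB) =
      C * Real.sqrt (((M : ℝ) + (R : ℝ) ^ 2) * ((N : ℝ) + (R : ℝ) ^ 2) * SA * SB) := by
    rw [← Real.sqrt_mul (by positivity)]
    have h6 : C * ((M : ℝ) + (R : ℝ) ^ 2) * SA * (C * ((N : ℝ) + (R : ℝ) ^ 2) * SB) =
        C ^ 2 * (((M : ℝ) + (R : ℝ) ^ 2) * ((N : ℝ) + (R : ℝ) ^ 2) * SA * SB) := by ring
    rw [h6, Real.sqrt_mul (by positivity), Real.sqrt_sq hC.le]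
  calc (1 / (R : ℝ)) * _ ≤ (1 / R) *
        (C * Real.sqrt (((M : ℝ) + (R : ℝ) ^ 2) * ((N : ℝ) + (R : ℝ) ^ 2) * SA * SB)) := by
        apply mul_le_mul_of_nonneg_left _ (by positivity)
        exact (h3.trans h4).trans (le_of_eq h5)
    _ = _ := by ring

theorem BIL_norm (k : ℕ) (hk : 1 ≤ k) (t : ℝ) : ‖(k : ℂ) ^ ((t : ℂ) * Complex.I)‖ = 1 := by
  rw [Complex.norm_natCast_cpow_of_pos hk]
  simp

theorem BIL_int {g : ℝ → ℂ} (hg : MeasureTheory.Integrable g) (k : ℕ) (hk : 1 ≤ k) :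
    MeasureTheory.Integrable (fun t => g t * (k : ℂ) ^ ((t : ℂ) * Complex.I)) := by
  have hk0 : (k : ℂ) ≠ 0 := by
    have : k ≠ 0 := by omega
    exact_mod_cast this
  have hc : Continuous (fun t : ℝ => (k : ℂ) ^ ((t : ℂ) * Complex.I)) := by
    apply Continuous.const_cpow
    · fun_prop
    · exact Or.inl hk0
  refine hg.norm.mono' (hg.aestronglyMeasurable.mul hc.aestronglyMeasurable) ?_
  refine Filter.Eventually.of_forall fun t => ?_
  rw [norm_mul, BIL_norm k hk t, mul_one]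

/-- Bilinear sums over the primitive characters of conductor in `(R, 2R]`.

Proof. For `p ∈ PD R` one has `1/φ(r) ≤ R⁻¹ r/φ(r)`. By `sep` (with `k = m n`)
`∑∑_{m n ≤ y} α β χ(m n) = ∫ g(t) A_t(χ) B_t(χ) dt`, `A_t(χ) = ∑_m α_m m^(it) χ(m)`,
`B_t(χ) = ∑_n β_n n^(it) χ(n)`. For every `t` Cauchy-Schwarz and `ls_mul` (`Q = 2R`) give
`∑_χ (r/φ(r)) |A_t B_t| ≤ C ((M + 4R²)(N + 4R²) ∑|α|² ∑|β|²)^(1/2)`. -/
theorem bil : ∃ C : ℝ, 0 < C ∧ ∀ (R M N y : ℕ), 1 ≤ R → 1 ≤ M → 1 ≤ N → 2 ≤ y → ∀ α β : ℕ → ℂ,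
    ∑ p ∈ PD R, 1 / (Nat.totient p.1 : ℝ) *
      ‖∑ m ∈ Icc 1 M, ∑ n ∈ (Icc 1 N).filter (fun n => m * n ≤ y),
        α m * β n * p.2 ((m * n : ℕ) : ZMod p.1)‖ ≤
      C * Real.log y / R * Real.sqrt (((M : ℝ) + (R : ℝ) ^ 2) * ((N : ℝ) + (R : ℝ) ^ 2) *
        (∑ m ∈ Icc 1 M, ‖α m‖ ^ 2) * ∑ n ∈ Icc 1 N, ‖β n‖ ^ 2) := by
  obtain ⟨C₁, hC₁, hsep⟩ := sep
  obtain ⟨C₂, hC₂, hbil⟩ := bil'
  refine ⟨C₁ * C₂, by positivity, ?_⟩
  intro R M N y hR hM hN hy α β
  have hR0 : (0 : ℝ) < R := by exact_mod_cast hR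
  obtain ⟨g, hg, hgn, hgk⟩ := hsep y hy
  obtain ⟨K, hK⟩ : ∃ K : ℝ, K = Real.sqrt (((M : ℝ) + (R : ℝ) ^ 2) * ((N : ℝ) + (R : ℝ) ^ 2) *
        (∑ m ∈ Icc 1 M, ‖α m‖ ^ 2) * ∑ n ∈ Icc 1 N, ‖β n‖ ^ 2) := ⟨_, rfl⟩
  have hK0 : 0 ≤ K := by rw [hK]; exact Real.sqrt_nonneg _
  rw [← hK]
  -- the integrand
  obtain ⟨h, hh⟩ : ∃ h : PCh → ℝ → ℂ, h = fun p t => ∑ m ∈ Icc 1 M, ∑ n ∈ Icc 1 N,
    (α m * β n * p.2 ((m * n : ℕ) : ZMod p.1)) *
      (g t * ((m * n : ℕ) : ℂ) ^ ((t : ℂ) * Complex.I)) := ⟨_, rfl⟩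
  have hint : ∀ p, MeasureTheory.Integrable (h p) := by
    intro p
    rw [hh]
    apply MeasureTheory.integrable_finsetSum
    intro m hm
    apply MeasureTheory.integrable_finsetSum
    intro n hn
    rw [mem_Icc] at hm hn
    exact (BIL_int hg (m * n) (Nat.mul_pos hm.1 hn.1)).const_mul _
  have hval : ∀ p : PCh, ∫ t, h p t = ∑ m ∈ Icc 1 M, ∑ n ∈ (Icc 1 N).filter (fun n => m * n ≤ y),
        α m * β n * p.2 ((m * n : ℕ) : ZMod p.1) := by
    intro p
    rw [hh]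
    rw [MeasureTheory.integral_finsetSum]
    · apply sum_congr rfl
      intro m hm
      rw [MeasureTheory.integral_finsetSum]
      · rw [sum_filter]
        apply sum_congr rfl
        intro n hn
        rw [mem_Icc] at hm hn
        rw [MeasureTheory.integral_const_mul, hgk (m * n) (Nat.mul_pos hm.1 hn.1)]
        split_ifs <;> simp
      · intro n hn
        rw [mem_Icc] at hm hn
        exact (BIL_int hg (m * n) (Nat.mul_pos hm.1 hn.1)).const_mul _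
    · intro m hm
      apply MeasureTheory.integrable_finsetSum
      intro n hn
      rw [mem_Icc] at hm hn
      exact (BIL_int hg (m * n) (Nat.mul_pos hm.1 hn.1)).const_mul _
  have hprod : ∀ (p : PCh) (t : ℝ), h p t = g t *
      ((∑ m ∈ Icc 1 M, (α m * (m : ℂ) ^ ((t : ℂ) * Complex.I)) * p.2 (m : ZMod p.1)) *
        (∑ n ∈ Icc 1 N, (β n * (n : ℂ) ^ ((t : ℂ) * Complex.I)) * p.2 (n : ZMod p.1))) := by
    intro p t
    rw [hh, sum_mul_sum, mul_sum]
    apply sum_congr rfl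
    intro m _
    rw [mul_sum]
    apply sum_congr rfl
    intro n _
    have e1 : ((m * n : ℕ) : ℂ) ^ ((t : ℂ) * Complex.I) =
        (m : ℂ) ^ ((t : ℂ) * Complex.I) * (n : ℂ) ^ ((t : ℂ) * Complex.I) := by
      rw [Nat.cast_mul]
      exact Complex.natCast_mul_natCast_cpow m n _
    rw [e1, Nat.cast_mul, map_mul]
    ring
  have hpt : ∀ t : ℝ, ∑ p ∈ PD R, 1 / (Nat.totient p.1 : ℝ) * ‖h p t‖ ≤ ‖g t‖ * (C₂ / R * K) := by
    intro t
    have h1 := hbil R M N hR hM hN (fun m => α m * (m : ℂ) ^ ((t : ℂ) * Complex.I))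
      (fun n => β n * (n : ℂ) ^ ((t : ℂ) * Complex.I))
    have h2 : ∀ (L : ℕ) (γ : ℕ → ℂ), ∑ m ∈ Icc 1 L, ‖γ m * (m : ℂ) ^ ((t : ℂ) * Complex.I)‖ ^ 2 =
        ∑ m ∈ Icc 1 L, ‖γ m‖ ^ 2 := by
      intro L γ
      apply sum_congr rfl
      intro m hm
      rw [mem_Icc] at hm
      rw [norm_mul, BIL_norm m hm.1 t, mul_one]
    rw [h2, h2, ← hK] at h1
    have h3 : ∑ p ∈ PD R, 1 / (Nat.totient p.1 : ℝ) * ‖h p t‖ = ‖g t‖ *
        ∑ p ∈ PD R, 1 / (Nat.totient p.1 : ℝ) *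
      (‖∑ m ∈ Icc 1 M, (α m * (m : ℂ) ^ ((t : ℂ) * Complex.I)) * p.2 (m : ZMod p.1)‖ *
        ‖∑ n ∈ Icc 1 N, (β n * (n : ℂ) ^ ((t : ℂ) * Complex.I)) * p.2 (n : ZMod p.1)‖) := by
      rw [mul_sum]
      apply sum_congr rfl
      intro p _
      rw [hprod, norm_mul, norm_mul]
      ring
    rw [h3]
    exact mul_le_mul_of_nonneg_left h1 (norm_nonneg _)
  calc ∑ p ∈ PD R, 1 / (Nat.totient p.1 : ℝ) *
      ‖∑ m ∈ Icc 1 M, ∑ n ∈ (Icc 1 N).filter (fun n => m * n ≤ y),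
        α m * β n * p.2 ((m * n : ℕ) : ZMod p.1)‖
      ≤ ∑ p ∈ PD R, ∫ t, 1 / (Nat.totient p.1 : ℝ) * ‖h p t‖ := by
        apply sum_le_sum
        intro p _
        rw [MeasureTheory.integral_const_mul]
        apply mul_le_mul_of_nonneg_left _ (by positivity)
        rw [← hval p]
        exact MeasureTheory.norm_integral_le_integral_norm _
    _ = ∫ t, ∑ p ∈ PD R, 1 / (Nat.totient p.1 : ℝ) * ‖h p t‖ := by
        rw [MeasureTheory.integral_finsetSum]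
        intro p _
        exact (hint p).norm.const_mul _
    _ ≤ ∫ t, ‖g t‖ * (C₂ / R * K) := by
        apply MeasureTheory.integral_mono
        · apply MeasureTheory.integrable_finsetSum
          intro p _
          exact (hint p).norm.const_mul _
        · exact hg.norm.mul_const _
        · exact hpt
    _ = (∫ t, ‖g t‖) * (C₂ / R * K) := by
        rw [MeasureTheory.integral_mul_const]
    _ ≤ (C₁ * Real.log y) * (C₂ / R * K) :=
        mul_le_mul_of_nonneg_right hgn (by positivity)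
    _ = C₁ * C₂ * Real.log y / R * K := by ring

end Pool.Agent.Lib.H59C
end

-- from Lib.H59C.TY2
section

/-!
# TY2: type II sums
-/

open Finset

namespace Pool.Agent.Lib.H59C

open Pool.Agent.Lib.H68T (PC p0 e)

/-- the dyadic piece of `n` above `R` -/
def ty2_dy (R n : ℕ) : ℕ := Nat.log 2 ((n - 1) / R)

theorem ty2_dy_spec {R n : ℕ} (hR : 1 ≤ R) (hn : R < n) :
    2 ^ ty2_dy R n * R < n ∧ n ≤ 2 * (2 ^ ty2_dy R n * R) := by
  have h1 : (n - 1) / R ≠ 0 := by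
    have : 1 ≤ (n - 1) / R := (Nat.le_div_iff_mul_le (by omega)).2 (by omega)
    omega
  have h2 : 2 ^ ty2_dy R n ≤ (n - 1) / R := Nat.pow_log_le_self 2 h1
  have h3 : (n - 1) / R < 2 ^ (ty2_dy R n + 1) := Nat.lt_pow_succ_log_self (by norm_num) _
  rw [Nat.le_div_iff_mul_le (by omega)] at h2
  rw [Nat.div_lt_iff_lt_mul (by omega), pow_succ] at h3
  constructor
  · omega
  · have : 2 ^ ty2_dy R n * 2 * R = 2 * (2 ^ ty2_dy R n * R) := by ring
    omega

theorem ty2_dy_lt {R n Q : ℕ} (hQ : n ≤ Q) : ty2_dy R n < Nat.log 2 Q + 1 := by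
  rw [Nat.lt_succ_iff]
  apply Nat.log_mono_right
  exact (Nat.div_le_self _ _).trans (by omega)

theorem ty2_log {Q : ℕ} (hQ : 2 ≤ Q) : ((Nat.log 2 Q + 1 : ℕ) : ℝ) ≤ 3 * Real.log Q := by
  have hQ2 : (2 : ℝ) ≤ Q := by exact_mod_cast hQ
  have hl2 := Real.log_two_gt_d9
  have h1 : ((2 : ℝ) ^ Nat.log 2 Q) ≤ Q := by
    exact_mod_cast Nat.pow_log_le_self 2 (by omega : Q ≠ 0)
  have h2 := Real.log_le_log (by positivity) h1
  rw [Real.log_pow] at h2
  have h3 := Real.log_le_log (by norm_num) hQ2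
  push_cast
  have h4 : (0 : ℝ) ≤ Nat.log 2 Q := Nat.cast_nonneg _
  nlinarith

theorem ty2_sqrt_add {x R : ℝ} (hx : 0 ≤ x) (hR : 0 ≤ R) :
    Real.sqrt (x + R ^ 2) ≤ Real.sqrt x + R := by
  rw [Real.sqrt_le_left (by positivity)]
  have h1 := Real.sq_sqrt hx
  have h2 : 0 ≤ Real.sqrt x * R := by positivity
  nlinarith

/-- the numerical estimate for one piece -/
theorem ty2_num {M y R A B N : ℝ} (hM : 1 ≤ M) (hy : 1 ≤ y) (hR : 1 ≤ R)
    (hA : 0 ≤ A) (hB : 0 ≤ B) (hN0 : 0 ≤ N) (hN : N ≤ y / M) (hAM : A ≤ 2 * M) (hBN : B ≤ y / M) :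
    Real.sqrt ((2 * M + R ^ 2) * (N + R ^ 2) * A * B) / R ≤
      2 * (y / R + Real.sqrt (y * M) + y / Real.sqrt M + R * Real.sqrt y) := by
  have hM0 : 0 < M := by linarith
  have hR0 : 0 < R := by linarith
  have hy0 : 0 < y := by linarith
  have hsM : Real.sqrt M * Real.sqrt M = M := Real.mul_self_sqrt hM0.le
  have hsy : Real.sqrt y * Real.sqrt y = y := Real.mul_self_sqrt hy0.le
  have hsM0 : 0 < Real.sqrt M := Real.sqrt_pos.2 hM0
  have hsy0 : 0 < Real.sqrt y := Real.sqrt_pos.2 hy0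
  have h2 : Real.sqrt 2 * Real.sqrt 2 = 2 := Real.mul_self_sqrt (by norm_num)
  have h20 : 0 < Real.sqrt 2 := Real.sqrt_pos.2 (by norm_num)
  have h22 : Real.sqrt 2 ≤ 2 := by
    rw [Real.sqrt_le_left (by norm_num)]
    norm_num
  have e1 : Real.sqrt (2 * M + R ^ 2) ≤ Real.sqrt 2 * Real.sqrt M + R := by
    have := ty2_sqrt_add (x := 2 * M) (R := R) (by positivity) hR0.le
    rwa [Real.sqrt_mul (by norm_num : (0 : ℝ) ≤ 2)] at this
  have e2 : Real.sqrt (N + R ^ 2) ≤ Real.sqrt y / Real.sqrt M + R := by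
    have h3 := ty2_sqrt_add (x := y / M) (R := R) (by positivity) hR0.le
    rw [Real.sqrt_div hy0.le] at h3
    exact (Real.sqrt_le_sqrt (by linarith)).trans h3
  have e3 : Real.sqrt (A * B) ≤ Real.sqrt 2 * Real.sqrt y := by
    rw [← Real.sqrt_mul (by norm_num : (0 : ℝ) ≤ 2)]
    apply Real.sqrt_le_sqrt
    calc A * B ≤ (2 * M) * (y / M) := mul_le_mul hAM hBN hB (by positivity)
      _ = 2 * y := by field_simp
  have e4 : Real.sqrt ((2 * M + R ^ 2) * (N + R ^ 2) * A * B) =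
      Real.sqrt (2 * M + R ^ 2) * Real.sqrt (N + R ^ 2) * Real.sqrt (A * B) := by
    rw [mul_assoc ((2 * M + R ^ 2) * (N + R ^ 2)), Real.sqrt_mul (by positivity),
      Real.sqrt_mul (by positivity)]
  rw [e4, div_le_iff₀ hR0]
  have e5 : Real.sqrt (2 * M + R ^ 2) * Real.sqrt (N + R ^ 2) * Real.sqrt (A * B) ≤
      (Real.sqrt 2 * Real.sqrt M + R) * (Real.sqrt y / Real.sqrt M + R) *
        (Real.sqrt 2 * Real.sqrt y) := by
    gcongr
  refine e5.trans ?_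
  have hym : Real.sqrt (y * M) = Real.sqrt y * Real.sqrt M := Real.sqrt_mul hy0.le _
  rw [hym]
  have e6 : (Real.sqrt 2 * Real.sqrt M + R) * (Real.sqrt y / Real.sqrt M + R) *
        (Real.sqrt 2 * Real.sqrt y) =
      (Real.sqrt 2 * Real.sqrt 2) * (Real.sqrt y * Real.sqrt y) +
      (Real.sqrt 2 * Real.sqrt 2) * R * (Real.sqrt y * Real.sqrt M) +
      Real.sqrt 2 * R * ((Real.sqrt y * Real.sqrt y) / Real.sqrt M) +
      Real.sqrt 2 * R ^ 2 * Real.sqrt y := by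
    field_simp
    ring
  rw [e6, h2, hsy]
  have e7 : 2 * (y / R + Real.sqrt y * Real.sqrt M + y / Real.sqrt M + R * Real.sqrt y) * R =
      2 * y + 2 * R * (Real.sqrt y * Real.sqrt M) + 2 * R * (y / Real.sqrt M) +
        2 * R ^ 2 * Real.sqrt y := by
    field_simp
  rw [e7]
  gcongr

/-- Type II sums: `m` in `(U, V]`, `n ≤ y/m` arbitrary.

Proof. Split `(U, V]` into at most `2 log y` dyadic pieces `(M, 2M]`, `U ≤ M ≤ V` (intersected with
`(U, V]`); there `n ≤ y/M =: N`; `bil` with `2M`, `N` gives at most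
`C L/R √((2M + R²)(y/M + R²) · 2M (1+L)² · (y/M)(1+L)²)`, `L = log y`, and
`√(y (M + R²)(y/M + R²)) ≤ √y (√y + R √M + R √(y/M) + R²)`, so (dividing by `R`)
`C' L³ (y/R + √(y M) + y/√M + R √y)`, where `M ≤ V`, `M ≥ U`. -/
theorem ty2 : ∃ C : ℝ, 0 < C ∧ ∀ (R U V y : ℕ), 1 ≤ R → 1 ≤ U → U ≤ V → V ≤ y → 2 ≤ y →
    ∀ α β : ℕ → ℂ, (∀ m, 1 ≤ m → m ≤ y → ‖α m‖ ≤ 1 + Real.log y) →
    (∀ m, 1 ≤ m → m ≤ y → ‖β m‖ ≤ 1 + Real.log y) →
    ∑ p ∈ PD R, 1 / (Nat.totient p.1 : ℝ) *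
      ‖∑ m ∈ Ioc U V, ∑ n ∈ (Icc 1 y).filter (fun n => m * n ≤ y),
        α m * β n * p.2 ((m * n : ℕ) : ZMod p.1)‖ ≤
      C * Real.log y ^ 5 * ((y : ℝ) / R + Real.sqrt ((y : ℝ) * V) + (y : ℝ) / Real.sqrt U +
        R * Real.sqrt y) := by
  classical
  obtain ⟨C₀, hC₀, hb⟩ := bil
  refine ⟨100 * C₀, by positivity, ?_⟩
  intro R U V y hR hU hUV hVy hy α β hα hβ
  have hy2 : (2 : ℝ) ≤ y := by exact_mod_cast hy
  have hl2 := Real.log_two_gt_d9
  have hly : Real.log 2 ≤ Real.log y := Real.log_le_log (by norm_num) hy2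
  have hdy := ty2_log hy
  obtain ⟨L, hL⟩ : ∃ L, L = Real.log y := ⟨_, rfl⟩
  rw [← hL] at hα hβ hly hdy ⊢
  have hL0 : 0.69 < L := by linarith
  have hRr : (1 : ℝ) ≤ R := by exact_mod_cast hR
  have hUr : (1 : ℝ) ≤ U := by exact_mod_cast hU
  obtain ⟨T, hT⟩ : ∃ T : ℝ, T = (y : ℝ) / R + Real.sqrt ((y : ℝ) * V) + (y : ℝ) / Real.sqrt U +
      R * Real.sqrt y := ⟨_, rfl⟩
  have hT0 : 0 ≤ T := by rw [hT]; positivity
  rw [← hT]
  -- the pieces
  obtain ⟨g, hg⟩ : ∃ g : PCh → ℕ → ℂ, ∀ p m, g p m = ∑ n ∈ (Icc 1 y).filter (fun n => m * n ≤ y),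
        α m * β n * p.2 ((m * n : ℕ) : ZMod p.1) := ⟨_, fun _ _ => rfl⟩
  simp only [← hg]
  have hmaps : ∀ m ∈ Ioc U V, ty2_dy U m ∈ range (Nat.log 2 y + 1) := by
    intro m hm
    rw [mem_Ioc] at hm
    rw [mem_range]
    exact ty2_dy_lt (hm.2.trans hVy)
  have hpiece : ∀ i ∈ range (Nat.log 2 y + 1), ∑ p ∈ PD R, 1 / (Nat.totient p.1 : ℝ) *
      ‖∑ m ∈ (Ioc U V).filter (fun m => ty2_dy U m = i), g p m‖ ≤
      C₀ * L * ((1 + L) ^ 2 * (2 * T)) := by
    intro i _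
    by_cases hi : 2 ^ i * U < V
    · obtain ⟨M, hMdef⟩ : ∃ M, M = 2 ^ i * U := ⟨_, rfl⟩
      rw [← hMdef] at hi
      have hUM : U ≤ M := by
        rw [hMdef]
        exact Nat.le_mul_of_pos_left _ (by positivity)
      have hM1 : 1 ≤ M := hU.trans hUM
      have hMr : (1 : ℝ) ≤ M := by exact_mod_cast hM1
      have hN1 : 1 ≤ y / M := (Nat.le_div_iff_mul_le (by omega)).2 (by omega)
      obtain ⟨α', hα'⟩ : ∃ α' : ℕ → ℂ, ∀ m, α' m =
          if m ∈ (Ioc U V).filter (fun m => ty2_dy U m = i) then α m else 0 := ⟨_, fun _ => rfl⟩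
      have h1 := hb R (2 * M) (y / M) y hR (by omega) hN1 hy α' β
      have hsub : (Ioc U V).filter (fun m => ty2_dy U m = i) ⊆ Icc 1 (2 * M) := by
        intro m hm
        rw [mem_filter, mem_Ioc] at hm
        have h6 := ty2_dy_spec hU hm.1.1
        rw [hm.2, ← hMdef] at h6
        rw [mem_Icc]
        exact ⟨by omega, h6.2⟩
      have heq : ∀ p : PCh, ∑ m ∈ Icc 1 (2 * M), ∑ n ∈ (Icc 1 (y / M)).filter (fun n => m * n ≤ y),
          α' m * β n * p.2 ((m * n : ℕ) : ZMod p.1) =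
          ∑ m ∈ (Ioc U V).filter (fun m => ty2_dy U m = i), g p m := by
        intro p
        rw [← sum_subset hsub (fun m _ hm => ?_)]
        · refine sum_congr rfl fun m hm => ?_
          rw [hg, hα', if_pos hm]
          refine sum_congr ?_ fun n _ => rfl
          rw [mem_filter, mem_Ioc] at hm
          have h6 := ty2_dy_spec hU hm.1.1
          rw [hm.2, ← hMdef] at h6
          ext n
          rw [mem_filter, mem_filter, mem_Icc, mem_Icc, Nat.le_div_iff_mul_le (by omega)]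
          constructor
          · rintro ⟨⟨h1, h2⟩, h3⟩
            refine ⟨⟨h1, ?_⟩, h3⟩
            nlinarith
          · rintro ⟨⟨h1, h2⟩, h3⟩
            refine ⟨⟨h1, ?_⟩, h3⟩
            have : n * M ≤ m * n := by rw [mul_comm m]; exact Nat.mul_le_mul_left n h6.1.le
            omega
        · rw [hα', if_neg hm]
          simp
      simp only [heq] at h1
      rw [← hL] at h1
      refine h1.trans ?_
      have hA : ∑ m ∈ Icc 1 (2 * M), ‖α' m‖ ^ 2 ≤ 2 * M * (1 + L) ^ 2 := by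
        have h2 : ∀ m ∈ Icc 1 (2 * M), ‖α' m‖ ^ 2 ≤ (1 + L) ^ 2 := by
          intro m _
          refine pow_le_pow_left₀ (norm_nonneg _) ?_ 2
          rw [hα']
          split_ifs with hm
          · rw [mem_filter, mem_Ioc] at hm
            exact hα m (by omega) (by omega)
          · rw [norm_zero]
            linarith
        refine (sum_le_sum h2).trans (le_of_eq ?_)
        rw [sum_const, Nat.card_Icc, nsmul_eq_mul, Nat.add_sub_cancel]
        push_cast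
        ring
      have hB : ∑ n ∈ Icc 1 (y / M), ‖β n‖ ^ 2 ≤ ((y / M : ℕ) : ℝ) * (1 + L) ^ 2 := by
        have h2 : ∀ m ∈ Icc 1 (y / M), ‖β m‖ ^ 2 ≤ (1 + L) ^ 2 := by
          intro m hm
          rw [mem_Icc] at hm
          exact pow_le_pow_left₀ (norm_nonneg _)
            (hβ m hm.1 (hm.2.trans (Nat.div_le_self _ _))) 2
        refine (sum_le_sum h2).trans (le_of_eq ?_)
        rw [sum_const, Nat.card_Icc, nsmul_eq_mul, Nat.add_sub_cancel]
      have hyM : ((y / M : ℕ) : ℝ) ≤ (y : ℝ) / M := Nat.cast_div_le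
      obtain ⟨A, hAdef⟩ : ∃ A, A = (∑ m ∈ Icc 1 (2 * M), ‖α' m‖ ^ 2) / (1 + L) ^ 2 := ⟨_, rfl⟩
      obtain ⟨B, hBdef⟩ : ∃ B, B = (∑ n ∈ Icc 1 (y / M), ‖β n‖ ^ 2) / (1 + L) ^ 2 := ⟨_, rfl⟩
      have hpos : 0 < (1 + L) ^ 2 := by positivity
      have hA0 : 0 ≤ A := by rw [hAdef]; positivity
      have hB0 : 0 ≤ B := by rw [hBdef]; positivity
      have hA1 : A ≤ 2 * M := by
        rw [hAdef, div_le_iff₀ hpos]
        exact hA
      have hB1 : B ≤ (y : ℝ) / M := by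
        rw [hBdef, div_le_iff₀ hpos]
        exact hB.trans (mul_le_mul_of_nonneg_right hyM hpos.le)
      have hAe : ∑ m ∈ Icc 1 (2 * M), ‖α' m‖ ^ 2 = A * (1 + L) ^ 2 := by
        rw [hAdef, div_mul_cancel₀ _ hpos.ne']
      have hBe : ∑ n ∈ Icc 1 (y / M), ‖β n‖ ^ 2 = B * (1 + L) ^ 2 := by
        rw [hBdef, div_mul_cancel₀ _ hpos.ne']
      have h3 := ty2_num (M := M) (y := y) (R := R) (A := A) (B := B) (N := ((y / M : ℕ) : ℝ)) hMr
        (by linarith) hRr hA0 hB0 (by positivity) hyM hA1 hB1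
      have h4 : Real.sqrt ((((2 * M : ℕ) : ℝ) + (R : ℝ) ^ 2) * (((y / M : ℕ) : ℝ) + (R : ℝ) ^ 2) *
          (∑ m ∈ Icc 1 (2 * M), ‖α' m‖ ^ 2) * ∑ n ∈ Icc 1 (y / M), ‖β n‖ ^ 2) =
          (1 + L) ^ 2 * Real.sqrt ((2 * M + (R : ℝ) ^ 2) * (((y / M : ℕ) : ℝ) + (R : ℝ) ^ 2) *
            A * B) := by
        rw [hAe, hBe]
        have e1 : (((2 * M : ℕ) : ℝ) + (R : ℝ) ^ 2) * (((y / M : ℕ) : ℝ) + (R : ℝ) ^ 2) *
            (A * (1 + L) ^ 2) * (B * (1 + L) ^ 2) = ((1 + L) ^ 2) ^ 2 *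
            ((2 * M + (R : ℝ) ^ 2) * (((y / M : ℕ) : ℝ) + (R : ℝ) ^ 2) * A * B) := by
          push_cast
          ring
        rw [e1, Real.sqrt_mul (by positivity), Real.sqrt_sq (by positivity)]
      have h5 : 2 * ((y : ℝ) / R + Real.sqrt (y * M) + y / Real.sqrt M + R * Real.sqrt y) ≤
          2 * T := by
        rw [hT]
        have hMV : (M : ℝ) ≤ V := by exact_mod_cast hi.le
        have hUM' : (U : ℝ) ≤ M := by exact_mod_cast hUM
        have hsU : 0 < Real.sqrt U := Real.sqrt_pos.2 (by linarith)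
        gcongr
      calc C₀ * L / R * Real.sqrt ((((2 * M : ℕ) : ℝ) + (R : ℝ) ^ 2) *
            (((y / M : ℕ) : ℝ) + (R : ℝ) ^ 2) *
            (∑ m ∈ Icc 1 (2 * M), ‖α' m‖ ^ 2) * ∑ n ∈ Icc 1 (y / M), ‖β n‖ ^ 2)
          = C₀ * L * ((1 + L) ^ 2 * (Real.sqrt ((2 * M + (R : ℝ) ^ 2) *
            (((y / M : ℕ) : ℝ) + (R : ℝ) ^ 2) * A * B) / R)) := by
            rw [h4]
            ring
        _ ≤ C₀ * L * ((1 + L) ^ 2 * (2 * T)) := by
            refine mul_le_mul_of_nonneg_left ?_ (by positivity)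
            exact mul_le_mul_of_nonneg_left (h3.trans h5) (by positivity)
    · have hempty : (Ioc U V).filter (fun m => ty2_dy U m = i) = ∅ := by
        rw [filter_eq_empty_iff]
        intro m hm h5
        rw [mem_Ioc] at hm
        have h6 := ty2_dy_spec hU hm.1
        rw [h5] at h6
        omega
      simp only [hempty, sum_empty, norm_zero, mul_zero, sum_const_zero]
      positivity
  have hsum : ∑ p ∈ PD R, 1 / (Nat.totient p.1 : ℝ) * ‖∑ m ∈ Ioc U V, g p m‖ ≤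
      ∑ i ∈ range (Nat.log 2 y + 1), ∑ p ∈ PD R, 1 / (Nat.totient p.1 : ℝ) *
        ‖∑ m ∈ (Ioc U V).filter (fun m => ty2_dy U m = i), g p m‖ := by
    rw [sum_comm]
    refine sum_le_sum fun p _ => ?_
    rw [← mul_sum]
    refine mul_le_mul_of_nonneg_left ?_ (by positivity)
    rw [← sum_fiberwise_of_maps_to hmaps]
    exact norm_sum_le _ _
  refine hsum.trans ((sum_le_sum hpiece).trans ?_)
  rw [sum_const, card_range, nsmul_eq_mul]
  refine (mul_le_mul_of_nonneg_right hdy (by positivity)).trans ?_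
  have h1 : (1 + L) ^ 2 ≤ 13 / 2 * L ^ 2 := by nlinarith
  have h2 : L ^ 4 ≤ 3 / 2 * L ^ 5 := by
    have : 0 ≤ L ^ 4 := by positivity
    nlinarith
  calc 3 * L * (C₀ * L * ((1 + L) ^ 2 * (2 * T))) = 6 * C₀ * L ^ 2 * T * (1 + L) ^ 2 := by ring
    _ ≤ 6 * C₀ * L ^ 2 * T * (13 / 2 * L ^ 2) := by gcongr
    _ = 39 * C₀ * T * L ^ 4 := by ring
    _ ≤ 39 * C₀ * T * (3 / 2 * L ^ 5) := by gcongr
    _ = 117 / 2 * (C₀ * L ^ 5 * T) := by ring
    _ ≤ 100 * (C₀ * L ^ 5 * T) := by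
      have : 0 ≤ C₀ * L ^ 5 * T := by positivity
      linarith
    _ = 100 * C₀ * L ^ 5 * T := by ring

end Pool.Agent.Lib.H59C
end

-- from Lib.H59C.MI
section

/-!
# MI: the main terms of the linear sieve
-/

open Finset MeasureTheory

namespace Pool.Agent.Lib.H59C

theorem MI_F (P : Finset ℕ) (z : ℝ) (p : ℕ) (hp : (p : ℝ) < z) :
    (P.filter (fun q : ℕ => (q : ℝ) < z)).filter (fun q => q < p) =
      P.filter (fun q : ℕ => (q : ℝ) < (p : ℝ)) := by
  ext q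
  simp only [Finset.mem_filter]
  constructor
  · rintro ⟨⟨h1, _⟩, h3⟩
    exact ⟨h1, Nat.cast_lt.2 h3⟩
  · rintro ⟨h1, h3⟩
    exact ⟨⟨h1, h3.trans hp⟩, Nat.cast_lt.1 h3⟩

theorem MI_card (P : Finset ℕ) (z : ℝ) (p : ℕ) (hpP : p ∈ P) (hp : (p : ℝ) < z) :
    (P.filter (fun q : ℕ => (q : ℝ) < (p : ℝ))).card <
      (P.filter (fun q : ℕ => (q : ℝ) < z)).card := by
  apply Finset.card_lt_card
  rw [Finset.ssubset_iff_of_subset]
  · refine ⟨p, Finset.mem_filter.2 ⟨hpP, hp⟩, ?_⟩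
    intro h
    exact lt_irrefl _ (Finset.mem_filter.1 h).2
  · intro q hq
    rw [Finset.mem_filter] at hq ⊢
    exact ⟨hq.1, hq.2.trans hp⟩

theorem MI_low (P : Finset ℕ) (g : ℕ → ℝ) (hP : ∀ q ∈ P, 2 ≤ q ∧ 0 ≤ g q ∧ g q < 1) (D z : ℝ)
    (φ : ℝ → ℝ)
    (h : ∀ p ∈ P, (p : ℝ) < z → SS true (D / p) (P.filter (fun q : ℕ => (q : ℝ) < (p : ℝ))) g ≤
      VP P g p * (1 + φ (Real.log D / Real.log p - 1))) :
    VP P g z - SS false D (P.filter (fun q : ℕ => (q : ℝ) < z)) g ≤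
      ∑ q ∈ P.filter (fun q : ℕ => (q : ℝ) < z),
        g q * VP P g q * φ (Real.log D / Real.log q - 1) := by
  rw [SS_rec false D]
  have e1 : (P.filter (fun q : ℕ => (q : ℝ) < z)).filter
      (fun p : ℕ => false = true → (p : ℝ) ^ 3 < D) = P.filter (fun q : ℕ => (q : ℝ) < z) := by
    apply Finset.filter_true_of_mem
    intro q _ h
    exact absurd h (by simp)
  rw [e1]
  have e2 : ∑ p ∈ P.filter (fun q : ℕ => (q : ℝ) < z), g p * SS (!false) (D / p)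
        ((P.filter (fun q : ℕ => (q : ℝ) < z)).filter (fun q => q < p)) g ≤
      ∑ p ∈ P.filter (fun q : ℕ => (q : ℝ) < z),
        (g p * VP P g p + g p * VP P g p * φ (Real.log D / Real.log p - 1)) := by
    apply Finset.sum_le_sum
    intro p hp
    have hp' := Finset.mem_filter.1 hp
    rw [MI_F P z p hp'.2, Bool.not_false]
    have := mul_le_mul_of_nonneg_left (h p hp'.1 hp'.2) (hP p hp'.1).2.1
    linarith
  rw [Finset.sum_add_distrib, sum_gV] at e2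
  linarith

theorem MI_up (P : Finset ℕ) (g : ℕ → ℝ) (hP : ∀ q ∈ P, 2 ≤ q ∧ 0 ≤ g q ∧ g q < 1) (D z : ℝ)
    (φ : ℝ → ℝ) (hD : ∀ p ∈ P, (p : ℝ) < z → (p : ℝ) ^ 3 < D)
    (h : ∀ p ∈ P, (p : ℝ) < z → VP P g p * (1 - φ (Real.log D / Real.log p - 1)) ≤
      SS false (D / p) (P.filter (fun q : ℕ => (q : ℝ) < (p : ℝ))) g) :
    SS true D (P.filter (fun q : ℕ => (q : ℝ) < z)) g - VP P g z ≤
      ∑ q ∈ P.filter (fun q : ℕ => (q : ℝ) < z),
        g q * VP P g q * φ (Real.log D / Real.log q - 1) := by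
  rw [SS_rec true D]
  have e1 : (P.filter (fun q : ℕ => (q : ℝ) < z)).filter
      (fun p : ℕ => true = true → (p : ℝ) ^ 3 < D) = P.filter (fun q : ℕ => (q : ℝ) < z) := by
    apply Finset.filter_true_of_mem
    intro q hq _
    exact hD q (Finset.mem_filter.1 hq).1 (Finset.mem_filter.1 hq).2
  rw [e1]
  have e2 : ∑ p ∈ P.filter (fun q : ℕ => (q : ℝ) < z),
        (g p * VP P g p - g p * VP P g p * φ (Real.log D / Real.log p - 1)) ≤
      ∑ p ∈ P.filter (fun q : ℕ => (q : ℝ) < z), g p * SS (!true) (D / p)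
        ((P.filter (fun q : ℕ => (q : ℝ) < z)).filter (fun q => q < p)) g := by
    apply Finset.sum_le_sum
    intro p hp
    have hp' := Finset.mem_filter.1 hp
    rw [MI_F P z p hp'.2, Bool.not_true]
    have := mul_le_mul_of_nonneg_left (h p hp'.1 hp'.2) (hP p hp'.1).2.1
    linarith
  rw [Finset.sum_sub_distrib, sum_gV] at e2
  linarith

theorem MI_int {a C : ℝ} {w : ℝ → ℝ} (h0 : ∀ s, a ≤ s → 0 ≤ w s)
    (hanti : AntitoneOn w (Set.Ici a)) (hb : ∀ s, a ≤ s → w s ≤ C * hh s) (s : ℝ)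
    (hs : a + 1 ≤ s) : IntegrableOn (fun t => w (t - 1)) (Set.Ioi s) := by
  have h1 : AntitoneOn (fun t => w (t - 1)) (Set.Ioi s) := by
    intro x hx y hy hxy
    have hx' : s < x := hx
    have hy' : s < y := hy
    apply hanti
    · rw [Set.mem_Ici]
      linarith
    · rw [Set.mem_Ici]
      linarith
    · linarith
  refine Integrable.mono' ((hh_integrable s).const_mul C)
    (aemeasurable_restrict_of_antitoneOn measurableSet_Ioi h1).aestronglyMeasurable ?_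
  refine (ae_restrict_iff' measurableSet_Ioi).2 (Filter.Eventually.of_forall fun t ht => ?_)
  have ht' : s < t := ht
  rw [Real.norm_eq_abs, abs_of_nonneg (h0 _ (by linarith))]
  exact hb _ (by linarith)

theorem MI_ps {C a : ℝ} {w : ℝ → ℝ} (h0 : ∀ s, a ≤ s → 0 ≤ w s)
    (hanti : AntitoneOn w (Set.Ici a)) (hb : ∀ s, a ≤ s → w s ≤ C * hh s) (K c : ℝ) (hK : 1 ≤ K)
    (hc : 0 ≤ c) (P : Finset ℕ) (g : ℕ → ℝ) (hP : ∀ q ∈ P, 2 ≤ q ∧ 0 ≤ g q ∧ g q < 1)
    (hOm : Om K P g) (D z : ℝ) (hz : 2 ≤ z) (hD : 1 < D)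
    (has : a + 1 ≤ Real.log D / Real.log z) :
    ∑ q ∈ P.filter (fun q : ℕ => (q : ℝ) < z),
      g q * VP P g q * (w (Real.log D / Real.log q - 1) + c * hh (Real.log D / Real.log q - 1)) ≤
    VP P g z * (K / (Real.log D / Real.log z) *
      ((∫ t in Set.Ioi (Real.log D / Real.log z), w (t - 1)) +
        c * (∫ t in Set.Ioi (Real.log D / Real.log z), hh (t - 1))) +
      (K - 1) * (w (Real.log D / Real.log z - 1) + c * hh (Real.log D / Real.log z - 1))) := by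
  have hi1 := MI_int h0 hanti hb _ has
  have hi2 := (hh_integrable (Real.log D / Real.log z)).const_mul c
  have key := part_sum K hK P g hP hOm (fun x => w x + c * hh x) D z hz hD ?_ ?_ ?_
  · have e1 : ∫ t in Set.Ioi (Real.log D / Real.log z), (w (t - 1) + c * hh (t - 1)) =
        (∫ t in Set.Ioi (Real.log D / Real.log z), w (t - 1)) +
        c * (∫ t in Set.Ioi (Real.log D / Real.log z), hh (t - 1)) := by
      rw [integral_add hi1 hi2, integral_const_mul]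
    simp only [e1] at key
    exact key
  · intro x hx y hy hxy
    rw [Set.mem_Ici] at hx hy
    have h1 : w y ≤ w x := hanti (by rw [Set.mem_Ici]; linarith) (by rw [Set.mem_Ici]; linarith) hxy
    have h2 : c * hh y ≤ c * hh x := mul_le_mul_of_nonneg_left (hh_anti hxy) hc
    show w y + c * hh y ≤ w x + c * hh x
    linarith
  · intro x hx
    have h1 := h0 x (by linarith)
    have h2 : 0 ≤ c * hh x := mul_nonneg hc (hh_pos x).le
    show 0 ≤ w x + c * hh x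
    linarith
  · exact hi1.add hi2

theorem MI_alg {C C1 δ s h h1 w w1 I : ℝ} (hC : 0 < C) (hC1 : 1000 * C ≤ C1) (hδ : 0 ≤ δ)
    (hδ1 : δ ≤ 1 / 1000) (hs : 0 < s) (hh0 : 0 ≤ h) (hI : I ≤ 49 / 50 * s * h) (hh1 : h1 ≤ 4 * h)
    (hw1 : w1 ≤ C * h1) (hw : w ≤ C * h) :
    (1 + δ) / s * (s * w + C1 * δ * I) + δ * (w1 + C1 * δ * h1) ≤ w + C1 * δ * h := by
  have hC10 : 0 < C1 := by linarith
  have e1 : (1 + δ) / s * (s * w + C1 * δ * I) ≤
      (1 + δ) / s * (s * w + C1 * δ * (49 / 50 * s * h)) := by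
    gcongr
  have e2 : (1 + δ) / s * (s * w + C1 * δ * (49 / 50 * s * h)) =
      (1 + δ) * w + (1 + δ) * (C1 * δ * (49 / 50 * h)) := by
    field_simp
  have e3 : δ * (w1 + C1 * δ * h1) ≤ δ * (C * (4 * h) + C1 * δ * (4 * h)) := by
    have e31 : w1 ≤ C * (4 * h) := hw1.trans (mul_le_mul_of_nonneg_left hh1 hC.le)
    have e32 : C1 * δ * h1 ≤ C1 * δ * (4 * h) := mul_le_mul_of_nonneg_left hh1 (by positivity)
    apply mul_le_mul_of_nonneg_left _ hδ
    linarith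
  have e4 : δ * w ≤ δ * (C * h) := mul_le_mul_of_nonneg_left hw hδ
  have e6 : C1 * δ ≤ C1 * (1 / 1000) := mul_le_mul_of_nonneg_left hδ1 hC10.le
  have e7 : 5 * C + C1 * (49 / 50 * (1 + δ) + 4 * δ) ≤ C1 := by
    linarith
  have e5 : δ * h * (5 * C + C1 * (49 / 50 * (1 + δ) + 4 * δ)) ≤ δ * h * C1 :=
    mul_le_mul_of_nonneg_left e7 (mul_nonneg hδ hh0)
  linarith

theorem MI_alg2 {C1 δ s us u3 v2 h2 h3 hs I : ℝ} (hC1 : 200 * (3 + 9 * u3 + 6 * v2) ≤ C1 * h3)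
    (hC10 : 0 < C1) (hδ : 0 ≤ δ) (hδ1 : δ ≤ 1 / 1000) (hs1 : 1 ≤ s) (hh0 : 0 ≤ h3) (hu3 : 0 ≤ u3)
    (hv2 : 0 ≤ v2) (hI : I ≤ 49 / 50 * s * hs) (hh2 : h2 ≤ 4 * h3) (hh3 : h3 ≤ hs)
    (heq : s * (1 + us) = 3 * (1 + u3)) :
    (1 + δ) * (3 / s) * (1 + ((1 + δ) / 3 * (3 * u3 + C1 * δ * I) + δ * (v2 + C1 * δ * h2))) ≤
      1 + us + C1 * δ * hs := by
  have hs0 : 0 < s := by linarith
  have hhs : 0 ≤ hs := hh0.trans hh3
  have e0 : (1 + δ) * (3 / s) *
      (1 + ((1 + δ) / 3 * (3 * u3 + C1 * δ * I) + δ * (v2 + C1 * δ * h2))) =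
      (3 * (1 + δ) + 3 * (1 + δ) ^ 2 * u3 + (1 + δ) ^ 2 * (C1 * δ) * I +
        3 * (1 + δ) * δ * (v2 + C1 * δ * h2)) / s := by
    field_simp
    ring
  rw [e0, div_le_iff₀ hs0]
  have hcd : 0 ≤ C1 * δ := by positivity
  have hX : hs ≤ s * hs := by nlinarith
  have e1 : (1 + δ) ^ 2 * (C1 * δ) * I ≤ (1 + δ) ^ 2 * (C1 * δ) * (49 / 50 * s * hs) :=
    mul_le_mul_of_nonneg_left hI (by positivity)
  have hδ2 : (1 + δ) ^ 2 ≤ 10021 / 10000 := by nlinarith
  have e2 : (1 + δ) ^ 2 * (C1 * δ * (49 / 50 * s * hs)) ≤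
      10021 / 10000 * (C1 * δ * (49 / 50 * s * hs)) :=
    mul_le_mul_of_nonneg_right hδ2 (by positivity)
  have e3 : h2 ≤ 4 * (s * hs) := by linarith
  have e4 : 3 * (1 + δ) * δ * (C1 * δ) * h2 ≤ 3 * (1 + δ) * δ * (C1 * δ) * (4 * (s * hs)) :=
    mul_le_mul_of_nonneg_left e3 (by positivity)
  have hδ3 : 3 * (1 + δ) * δ ≤ 31 / 10000 := by nlinarith
  have e5 : 3 * (1 + δ) * δ * (C1 * δ * (4 * (s * hs))) ≤ 31 / 10000 * (C1 * δ * (4 * (s * hs))) :=
    mul_le_mul_of_nonneg_right hδ3 (by positivity)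
  have e6 : δ * (200 * (3 + 9 * u3 + 6 * v2)) ≤ δ * (C1 * h3) := mul_le_mul_of_nonneg_left hC1 hδ
  have e7 : C1 * δ * h3 ≤ C1 * δ * (s * hs) := mul_le_mul_of_nonneg_left (by linarith) hcd
  have e8 : 3 * δ ^ 2 * u3 ≤ 3 * δ * u3 := by
    have : δ ^ 2 ≤ δ := by nlinarith
    have := mul_le_mul_of_nonneg_right this hu3
    linarith
  have e9 : 3 * δ ^ 2 * v2 ≤ 3 * δ * v2 := by
    have : δ ^ 2 ≤ δ := by nlinarith
    have := mul_le_mul_of_nonneg_right this hv2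
    linarith
  have e10 : 0 ≤ C1 * δ * (s * hs) := by positivity
  linarith

theorem MI_log (D : ℝ) (p : ℕ) (hp : 2 ≤ p) (hD : 0 < D) :
    Real.log (D / p) / Real.log p = Real.log D / Real.log p - 1 := by
  have hp1 : (2 : ℝ) ≤ p := by exact_mod_cast hp
  have hl : 0 < Real.log (p : ℝ) := Real.log_pos (by linarith)
  rw [Real.log_div hD.ne' (by linarith), sub_div, div_self hl.ne']

theorem MI_star {C : ℝ} {u v : ℝ → ℝ} (h : UV C u v) (C1 : ℝ) (hC10 : 0 < C1)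
    (δ : ℝ) (hδ : 0 ≤ δ) (P : Finset ℕ) (g : ℕ → ℝ)
    (hP : ∀ q ∈ P, 2 ≤ q ∧ 0 ≤ g q ∧ g q < 1) (hOm : Om (1 + δ) P g) (n : ℕ)
    (ih : ∀ D z : ℝ, 2 ≤ z → z ≤ D → (P.filter (fun q : ℕ => (q : ℝ) < z)).card < n →
      (2 * Real.log z ≤ Real.log D →
      VP P g z * (1 - v (Real.log D / Real.log z) - C1 * δ * hh (Real.log D / Real.log z)) ≤
        SS false D (P.filter (fun q : ℕ => (q : ℝ) < z)) g))
    (D z : ℝ) (hz : 2 ≤ z) (hD : 1 < D) (hs : 3 * Real.log z ≤ Real.log D)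
    (hcard : (P.filter (fun q : ℕ => (q : ℝ) < z)).card < n + 1) (s : ℝ)
    (hs' : s = Real.log D / Real.log z) :
    SS true D (P.filter (fun q : ℕ => (q : ℝ) < z)) g ≤
      VP P g z * (1 + ((1 + δ) / s * (s * u s + C1 * δ * (∫ t in Set.Ioi s, hh (t - 1))) +
        δ * (v (s - 1) + C1 * δ * hh (s - 1)))) := by
  have hlz : 0 < Real.log z := Real.log_pos (by linarith)
  have hs3 : 3 ≤ Real.log D / Real.log z := by
    rw [le_div_iff₀ hlz]
    exact hs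
  have hz3 : z ^ 3 ≤ D := by
    rw [← Real.log_le_log_iff (by positivity) (by linarith), Real.log_pow]
    exact_mod_cast hs
  have hp3 : ∀ p ∈ P, (p : ℝ) < z → (p : ℝ) ^ 3 < D := by
    intro p _ hpz
    exact (pow_lt_pow_left₀ hpz (Nat.cast_nonneg p) (by norm_num)).trans_le hz3
  have k1 := MI_up P g hP D z (fun x => v x + C1 * δ * hh x) hp3 ?_
  · have k2 := MI_ps (C := C) (a := 2) (w := v) h.v0 h.vanti h.vb (1 + δ) (C1 * δ) (by linarith)
      (by positivity) P g hP hOm D z hz hD (by linarith)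
    rw [← h.equ _ hs3] at k2
    rw [← hs', add_sub_cancel_left] at k2
    have k3 := k1.trans k2
    linarith
  · intro p hpP hpz
    have hp2 : 2 ≤ p := (hP p hpP).1
    have hp2' : (2 : ℝ) ≤ p := by exact_mod_cast hp2
    have hlp : 0 < Real.log (p : ℝ) := Real.log_pos (by linarith)
    have hlpz : Real.log (p : ℝ) < Real.log z := Real.log_lt_log (by linarith) hpz
    have hpp := hp3 p hpP hpz
    have k4 := ih (D / p) p hp2' ?_ (by have := MI_card P z p hpP hpz; omega) ?_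
    · rw [MI_log D p hp2 (by linarith)] at k4
      show VP P g p * (1 - (v (Real.log D / Real.log p - 1) +
        C1 * δ * hh (Real.log D / Real.log p - 1))) ≤ _
      have e : (1 - (v (Real.log D / Real.log p - 1) +
        C1 * δ * hh (Real.log D / Real.log p - 1))) = 1 - v (Real.log D / Real.log p - 1) -
        C1 * δ * hh (Real.log D / Real.log p - 1) := by ring
      rw [e]
      exact k4
    · rw [le_div_iff₀ (by linarith)]
      nlinarith
    · rw [Real.log_div (by linarith) (by linarith)]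
      linarith

theorem MI_main {C : ℝ} {u v : ℝ → ℝ} (hC : 0 < C) (h : UV C u v) (C1 : ℝ)
    (hC1 : 1000 * C ≤ C1) (hC1' : 200 * (3 + 9 * u 3 + 6 * v 2) ≤ C1 * hh 3)
    (δ : ℝ) (hδ : 0 ≤ δ) (hδ1 : δ ≤ 1 / 1000) (P : Finset ℕ) (g : ℕ → ℝ)
    (hP : ∀ q ∈ P, 2 ≤ q ∧ 0 ≤ g q ∧ g q < 1) (hOm : Om (1 + δ) P g) (n : ℕ) : ∀ D z : ℝ,
    2 ≤ z → z ≤ D → (P.filter (fun q : ℕ => (q : ℝ) < z)).card < n →
    SS true D (P.filter (fun q : ℕ => (q : ℝ) < z)) g ≤
      VP P g z * (1 + u (Real.log D / Real.log z) + C1 * δ * hh (Real.log D / Real.log z)) ∧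
    (2 * Real.log z ≤ Real.log D →
      VP P g z * (1 - v (Real.log D / Real.log z) - C1 * δ * hh (Real.log D / Real.log z)) ≤
        SS false D (P.filter (fun q : ℕ => (q : ℝ) < z)) g) := by
  have hC10 : 0 < C1 := by linarith
  have hVP : ∀ x : ℝ, 0 ≤ VP P g x := by
    intro x
    unfold VP
    apply Finset.prod_nonneg
    intro q hq
    have := (hP q (Finset.mem_filter.1 hq).1).2.2
    linarith
  induction n with
  | zero =>
    intro D z _ _ hcard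
    omega
  | succ n ih =>
    intro D z hz hzD hcard
    have hD : 1 < D := by linarith
    have hlz : 0 < Real.log z := Real.log_pos (by linarith)
    have hlD : Real.log z ≤ Real.log D := Real.log_le_log (by linarith) hzD
    have hlD0 : 0 < Real.log D := Real.log_pos hD
    obtain ⟨s, hs⟩ : ∃ s : ℝ, s = Real.log D / Real.log z := ⟨_, rfl⟩
    have hs1 : 1 ≤ s := by
      rw [hs, le_div_iff₀ hlz]
      linarith
    have star := MI_star h C1 hC10 δ hδ P g hP hOm n (fun D z a b c => (ih D z a b c).2)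
    refine ⟨?_, ?_⟩
    · rcases le_or_gt (3 * Real.log z) (Real.log D) with h3 | h3
      · -- case (b)
        have hs3 : 3 ≤ s := by
          rw [hs, le_div_iff₀ hlz]
          exact h3
        have k1 := star D z hz hD h3 hcard s hs
        rw [← hs]
        refine k1.trans (mul_le_mul_of_nonneg_left ?_ (hVP z))
        have k2 := MI_alg (C := C) (C1 := C1) (δ := δ) (s := s) (h := hh s) (h1 := hh (s - 1))
          (w := u s) (w1 := v (s - 1)) (I := ∫ t in Set.Ioi s, hh (t - 1)) hC hC1 hδ hδ1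
          (by linarith) (hh_pos s).le (hh_int s (by linarith)) (hh_shift s (by linarith))
          (h.vb _ (by linarith)) (h.ub _ (by linarith))
        linarith
      · -- case (c)
        have hs3 : s ≤ 3 := by
          rw [hs, div_le_iff₀ hlz]
          exact h3.le
        obtain ⟨y, hy⟩ : ∃ y : ℝ, y = D ^ (1 / 3 : ℝ) := ⟨_, rfl⟩
        have hy0 : 0 < y := by
          rw [hy]
          exact Real.rpow_pos_of_pos (by linarith) _
        have hy3 : y ^ 3 = D := by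
          rw [hy, ← Real.rpow_natCast, ← Real.rpow_mul (by linarith)]
          norm_num
        have hly : 3 * Real.log y = Real.log D := by
          rw [← hy3, Real.log_pow]
          norm_num
        have hyz : y ≤ z := by
          rw [← Real.log_le_log_iff hy0 (by linarith)]
          linarith
        have heq := h.equ' s hs1 hs3
        rw [SS_cut D y z P g hy3 hy0.le hyz, ← hs]
        rcases le_or_gt 2 y with hy2 | hy2
        · have hlyp : 0 < Real.log y := Real.log_pos (by linarith)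
          have h3y : 3 = Real.log D / Real.log y := by
            rw [← hly]
            field_simp
          have hcy : (P.filter (fun q : ℕ => (q : ℝ) < y)).card < n + 1 := by
            refine lt_of_le_of_lt (Finset.card_le_card ?_) hcard
            intro q hq
            rw [Finset.mem_filter] at hq ⊢
            exact ⟨hq.1, hq.2.trans_le hyz⟩
          have k1 := star D y hy2 hD hly.le hcy 3 h3y
          have k2 := hOm y z hy2 hyz
          have hzy : Real.log z / Real.log y = 3 / s := by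
            rw [hs, ← hly]
            field_simp
          rw [hzy] at k2
          have k3 := MI_alg2 (C1 := C1) (δ := δ) (s := s) (us := u s) (u3 := u 3) (v2 := v 2)
            (h2 := hh 2) (h3 := hh 3) (hs := hh s) (I := ∫ t in Set.Ioi (3 : ℝ), hh (t - 1))
            hC1' hC10 hδ hδ1 hs1 (hh_pos 3).le (h.u0 3 (by norm_num)) (h.v0 2 le_rfl)
            (hh_int3 s hs1 hs3) (by have := hh_shift 3 (by norm_num); norm_num at this; exact this)
            (hh_anti hs3) heq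
          have hI0 : 0 ≤ ∫ t in Set.Ioi (3 : ℝ), hh (t - 1) :=
            integral_nonneg fun t => (hh_pos _).le
          have hX0 : 0 ≤ 1 + ((1 + δ) / 3 * (3 * u 3 +
              C1 * δ * (∫ t in Set.Ioi (3 : ℝ), hh (t - 1))) +
              δ * (v 2 + C1 * δ * hh 2)) := by
            have h1 := h.u0 3 (by norm_num)
            have h2 := h.v0 2 le_rfl
            have h4 := (hh_pos 2).le
            positivity
          have e31 : (3 : ℝ) - 1 = 2 := by norm_num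
          rw [e31] at k1
          calc SS true D (P.filter (fun q : ℕ => (q : ℝ) < y)) g
              ≤ VP P g y * (1 + ((1 + δ) / 3 * (3 * u 3 +
              C1 * δ * (∫ t in Set.Ioi (3 : ℝ), hh (t - 1))) +
              δ * (v 2 + C1 * δ * hh 2))) := k1
            _ ≤ ((1 + δ) * (3 / s) * VP P g z) * (1 + ((1 + δ) / 3 * (3 * u 3 +
              C1 * δ * (∫ t in Set.Ioi (3 : ℝ), hh (t - 1))) +
              δ * (v 2 + C1 * δ * hh 2))) := mul_le_mul_of_nonneg_right k2 hX0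
            _ = VP P g z * ((1 + δ) * (3 / s) * (1 + ((1 + δ) / 3 * (3 * u 3 +
              C1 * δ * (∫ t in Set.Ioi (3 : ℝ), hh (t - 1))) +
              δ * (v 2 + C1 * δ * hh 2)))) := by ring
            _ ≤ VP P g z * (1 + u s + C1 * δ * hh s) :=
              mul_le_mul_of_nonneg_left k3 (hVP z)
        · have hempty : P.filter (fun q : ℕ => (q : ℝ) < y) = ∅ := by
            apply Finset.filter_false_of_mem
            intro q hq hqy
            have := (hP q hq).1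
            have h2 : (2 : ℝ) ≤ q := by exact_mod_cast this
            linarith
          have hempty2 : P.filter (fun q : ℕ => (q : ℝ) < 2) = ∅ := by
            apply Finset.filter_false_of_mem
            intro q hq hqy
            have := (hP q hq).1
            have h2 : (2 : ℝ) ≤ q := by exact_mod_cast this
            linarith
          have hV2 : VP P g 2 = 1 := by
            unfold VP
            rw [hempty2, Finset.prod_empty]
          have k2 := hOm 2 z le_rfl hz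
          rw [hV2] at k2
          rw [hempty, RW1_empty]
          have hl2 : 0 < Real.log 2 := Real.log_pos (by norm_num)
          have hly2 : Real.log y ≤ Real.log 2 := Real.log_le_log hy0 hy2.le
          have hz2 : Real.log z / Real.log 2 ≤ 3 / s := by
            rw [div_le_div_iff₀ hl2 (by linarith), hs, mul_div_assoc', mul_comm (Real.log z),
              mul_div_assoc, div_self hlz.ne', mul_one]
            linarith
          have k3 : (1 : ℝ) ≤ (1 + δ) * (3 / s) * VP P g z :=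
            k2.trans (mul_le_mul_of_nonneg_right
              (mul_le_mul_of_nonneg_left hz2 (by linarith)) (hVP z))
          have k4 : (1 + δ) * (3 / s) ≤ 1 + u s + C1 * δ * hh s := by
            have hu3 := h.u0 3 (by norm_num)
            have hv2 := h.v0 2 le_rfl
            have e1 : 3 / s ≤ 1 + u s := by
              rw [div_le_iff₀ (by linarith)]
              linarith
            have e2 : 3 / s ≤ 3 := by
              rw [div_le_iff₀ (by linarith)]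
              linarith
            have e3 : δ * (3 / s) ≤ δ * 3 := mul_le_mul_of_nonneg_left e2 hδ
            have e4 : (3 : ℝ) ≤ C1 * hh s := by
              have : C1 * hh 3 ≤ C1 * hh s := mul_le_mul_of_nonneg_left (hh_anti hs3) hC10.le
              linarith
            have e5 : δ * 3 ≤ δ * (C1 * hh s) := mul_le_mul_of_nonneg_left e4 hδ
            linarith
          calc (1 : ℝ) ≤ (1 + δ) * (3 / s) * VP P g z := k3
            _ ≤ (1 + u s + C1 * δ * hh s) * VP P g z := mul_le_mul_of_nonneg_right k4 (hVP z)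
            _ = VP P g z * (1 + u s + C1 * δ * hh s) := by ring
    · intro h2
      -- case (a)
      have hs2 : 2 ≤ s := by
        rw [hs, le_div_iff₀ hlz]
        exact h2
      have hz2 : z ^ 2 ≤ D := by
        rw [← Real.log_le_log_iff (by positivity) (by linarith), Real.log_pow]
        exact_mod_cast h2
      have k1 := MI_low P g hP D z (fun x => u x + C1 * δ * hh x) ?_
      · have k2 := MI_ps (C := C) (a := 1) (w := u) h.u0 h.uanti h.ub (1 + δ) (C1 * δ)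
          (by linarith) (by positivity) P g hP hOm D z hz hD (by rw [← hs]; linarith)
        rw [← hs, ← h.eqv s hs2, add_sub_cancel_left] at k2
        have k3 := k1.trans k2
        have k4 := MI_alg (C := C) (C1 := C1) (δ := δ) (s := s) (h := hh s) (h1 := hh (s - 1))
          (w := v s) (w1 := u (s - 1)) (I := ∫ t in Set.Ioi s, hh (t - 1)) hC hC1 hδ hδ1
          (by linarith) (hh_pos s).le (hh_int s hs2) (hh_shift s hs2)
          (h.ub _ (by linarith)) (h.vb _ hs2)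
        have k5 := mul_le_mul_of_nonneg_left k4 (hVP z)
        rw [← hs]
        linarith
      · intro p hpP hpz
        have hp2 : 2 ≤ p := (hP p hpP).1
        have hp2' : (2 : ℝ) ≤ p := by exact_mod_cast hp2
        have k4 := (ih (D / p) p hp2' ?_ (by have := MI_card P z p hpP hpz; omega)).1
        · rw [MI_log D p hp2 (by linarith)] at k4
          show _ ≤ VP P g p * (1 + (u (Real.log D / Real.log p - 1) +
            C1 * δ * hh (Real.log D / Real.log p - 1)))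
          rw [← add_assoc]
          exact k4
        · rw [le_div_iff₀ (by linarith)]
          nlinarith

/-- The main terms of Rosser's sieve, `s = log D/log z`.

Proof. Put `E(D,z) = SS true - V(z)`, `E'(D,z) = V(z) - SS false`. By `SS_rec` and `sum_gV`
`E(D,z) = ∑_{p<z, p³ ≥ D} g(p) V(p) + ∑_{p<z, p³ < D} g(p) E'(D/p, p)`, `E'(D,z) = ∑_{p<z} g(p) E(D/p, p)`
(`{q ∈ P : q < z, q < p} = {q ∈ P : q < p}`). Induction on the number of elements of `P` below `z` (for all `D`).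
`c₁ := C1 (K - 1)`.
(a) `E'`, `s ≥ 2`: for `p < z` the pair `(D/p, p)` has `s' = log D/log p - 1 ≥ s - 1 ≥ 1`, so by induction
`E(D/p,p) ≤ V(p) φ(s')` with `φ = u + c₁ hh`; `part_sum` gives `E'(D,z) ≤ V(z) ((K/s) ∫_{t>s} φ(t-1) dt + (K-1) φ(s-1))`
`≤ V(z) (K v(s) + K c₁ (49/50) hh s + (K-1) u(s-1) + 4 (K-1) c₁ hh s)` (`eqv`, `hh_int`, `hh_shift`), which is
`≤ V(z) (v(s) + c₁ hh s)` if `(49/50) K + 4 (K-1) + 5 C/C1 ≤ 1`: `K - 1 ≤ η = 1/1000`, `C1 ≥ 1000 C`.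
(b) `E`, `s ≥ 3`: all `p < z` have `p³ < D`; in the same way, with `φ = v + c₁ hh`, `s' ≥ 2`, using `equ`; keep
the intermediate bound (*) `E(D,z) ≤ V(z) ((K/s) ∫_{t>s} φ(t-1) dt + (K-1) φ(s-1))`.
(c) `SS true`, `1 ≤ s < 3`: let `y = D^(1/3) < z`; `SS_cut`: `SS true D P_{<z} = SS true D P_{<y} = V(y) + E(D,y)`. If
`y ≥ 2`: by (*) at `s = 3` (there are not more elements below `y`) and `V(y) ≤ K (3/s) V(z)`:
`SS ≤ V(z) (3K/s) (1 + K u(3) + (K/3) c₁ ∫_{t>3} hh(t-1) dt + (K-1)(v(2) + c₁ hh 2))`; here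
`(3/s)(1 + u 3) = 1 + u s` (`equ'`), `(K²/s) c₁ ∫ ≤ K² c₁ (49/50) hh s` (`hh_int3`), the remaining terms are
`≤ (K-1)(C' + 3 K c₁ hh 2)` and `hh 2 ≤ 4 hh s`... (`hh s ≥ hh 3`, `hh 2 ≤ e^1.1 hh 3 ≤ 4 hh 3`), absorbed if `C1` is large
compared with `C'` (depends on `u 3`, `v 2`). If `y < 2`: `SS = 1 ≤ K (log z/log 2) V(z)` and `log z/log 2 ≤ 3/s
≤ 1 + u s` (as `D < 8`, `1 + u s = (3/s)(1 + u 3)`). -/
theorem main_ind {C : ℝ} {u v : ℝ → ℝ} (hC : 0 < C) (h : UV C u v) :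
    ∃ η C1 : ℝ, 0 < η ∧ 0 < C1 ∧
    ∀ K : ℝ, 1 ≤ K → K ≤ 1 + η → ∀ (P : Finset ℕ) (g : ℕ → ℝ),
    (∀ q ∈ P, 2 ≤ q ∧ 0 ≤ g q ∧ g q < 1) → Om K P g → ∀ D z : ℝ, 2 ≤ z → z ≤ D →
    SS true D (P.filter (fun q : ℕ => (q : ℝ) < z)) g ≤
      VP P g z * (1 + u (Real.log D / Real.log z) + C1 * (K - 1) * hh (Real.log D / Real.log z)) ∧
    (2 * Real.log z ≤ Real.log D →
      VP P g z * (1 - v (Real.log D / Real.log z) - C1 * (K - 1) * hh (Real.log D / Real.log z)) ≤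
        SS false D (P.filter (fun q : ℕ => (q : ℝ) < z)) g) := by
  have hh3 : 0 < hh 3 := hh_pos 3
  have hu3 := h.u0 3 (by norm_num)
  have hv2 := h.v0 2 le_rfl
  refine ⟨1 / 1000, 1000 * C + 200 * (3 + 9 * u 3 + 6 * v 2) / hh 3, by norm_num, by positivity, ?_⟩
  intro K hK1 hK2 P g hP hOm D z hz hzD
  obtain ⟨δ, rfl⟩ : ∃ δ : ℝ, K = 1 + δ := ⟨K - 1, by ring⟩
  rw [add_sub_cancel_left]
  refine MI_main hC h _ ?_ ?_ δ (by linarith) (by linarith) P g hP hOm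
    ((P.filter (fun q : ℕ => (q : ℝ) < z)).card + 1) D z hz hzD (Nat.lt_succ_self _)
  · have : 0 ≤ 200 * (3 + 9 * u 3 + 6 * v 2) / hh 3 := by positivity
    linarith
  · rw [add_mul, div_mul_cancel₀ _ hh3.ne']
    have : 0 ≤ 1000 * C * hh 3 := by positivity
    linarith

end Pool.Agent.Lib.H59C
end
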