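import Mathlib
import Pool.Agent.Lib.H1M.RV.M005
import Pool.Agent.Lib.H1M.RV.M010
import Pool.Agent.Lib.H1M.RV.M011
import Pool.Agent.Lib.H1M.RV.M012
import Pool.Agent.Lib.H1M.RV.M017
import Pool.Agent.Lib.H1M.RV.M021
import Pool.Agent.Lib.H1M.RV.M025
import Pool.Agent.Lib.H1M.RV.M031

/-! Merged copies (to shorten the build) of Lib.H68X.XRH, Lib.H68T.PAGE1, Lib.H51D.DHF, Lib.H18Q.E1, Lib.H59C.LIN, Lib.H59C.MER1, Lib.H59C.JR, Lib.H92G.CDefs. -/

-- from Lib.H68X.XRH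
section

/-!
# Chunk XRH: the hyperbola method
-/

open Finset

namespace Pool.Agent.Lib.H68T

theorem XRH_int (r : ℕ) [NeZero r] (ψ : DirichletCharacter ℂ r) (hψ : ψ ≠ 1) (a n : ℕ) :
    ‖∑ k ∈ range n, ψ ((a + k + 1 : ℕ) : ZMod r)‖ ≤ r := by
  have hN : 0 < r := Nat.pos_of_ne_zero (NeZero.ne r)
  induction n using Nat.strong_induction_on with
  | _ n ih =>
    rcases lt_or_ge n r with h | h
    · refine (norm_sum_le _ _).trans ?_
      refine (sum_le_sum fun k _ => DirichletCharacter.norm_le_one ψ _).trans ?_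
      rw [sum_const, card_range, nsmul_eq_mul, mul_one]
      exact_mod_cast h.le
    · obtain ⟨m, rfl⟩ := Nat.exists_eq_add_of_le' h
      have h1 : ∑ k ∈ range (m + r), ψ ((a + k + 1 : ℕ) : ZMod r) =
          ∑ k ∈ range m, ψ ((a + k + 1 : ℕ) : ZMod r) := by
        rw [sum_range_add]
        have h2 := gl1_period r ψ hψ (a + m)
        have h3 : ∑ k ∈ range r, ψ ((a + (m + k) + 1 : ℕ) : ZMod r) = 0 := by
          rw [← h2]
          refine sum_congr rfl fun k _ => ?_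
          congr 2
          ring
        rw [h3, add_zero]
      rw [h1]
      exact ih m (by omega)

theorem XRH_Ioc (r : ℕ) [NeZero r] (ψ : DirichletCharacter ℂ r) (hψ : ψ ≠ 1) (a b : ℕ) :
    ‖∑ d ∈ Ioc a b, ψ (d : ZMod r)‖ ≤ r := by
  have h1 : Ioc a b = Ico (a + 1) (b + 1) := by
    ext x
    simp only [mem_Ioc, mem_Ico]
    omega
  rw [h1, sum_Ico_eq_sum_range]
  have h2 := XRH_int r ψ hψ a (b + 1 - (a + 1))
  refine (le_of_eq ?_).trans h2
  congr 1
  refine sum_congr rfl fun k _ => ?_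
  congr 2
  ring

/-- tail of the series of `L(1,ψ)` -/
theorem XRH_tail (r : ℕ) [NeZero r] (ψ : DirichletCharacter ℂ r) (hψ : ψ ≠ 1) (D : ℕ) :
    ‖ψ.LFunction 1 - ∑ d ∈ Ioc 0 D, ψ (d : ZMod r) / d‖ ≤ 2 * r / (D + 1) := by
  have hsum := (gl1_tele 1 one_pos (r * ‖(1 : ℂ)‖ / (1 : ℂ).re) (by simp) (fun n => gl1_A ψ n 1)
    (fun n => by simpa using gl1_A_norm r ψ hψ n 1 (by simp))).1
  have h1 : ψ.LFunction 1 = ∑' n, gl1_A ψ n 1 := gl1_eqOn r ψ hψ 1 (by simp)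
  have hA : ∀ n : ℕ, gl1_A ψ n 1 =
      gl1_T ψ (n + 1) * ((1 : ℂ) / (n + 1) - 1 / (n + 1 + 1)) := by
    intro n
    unfold gl1_A
    rw [Complex.cpow_neg_one, Complex.cpow_neg_one]
    congr 1
    push_cast
    rw [one_div, one_div]
    congr 2
    ring
  have h2 := gl1_parts ψ (fun n => (1 : ℂ) / (n + 1)) D
  have h3 : ∑ d ∈ Ioc 0 D, ψ (d : ZMod r) / d =
      ∑ n ∈ range D, ψ ((n + 1 : ℕ) : ZMod r) * ((1 : ℂ) / (n + 1)) := by
    have h4 : Ioc 0 D = Ico 1 (D + 1) := by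
      ext x
      simp only [mem_Ioc, mem_Ico]
      omega
    rw [h4, sum_Ico_eq_sum_range]
    refine sum_congr rfl fun n _ => ?_
    rw [add_comm 1 n]
    push_cast
    ring
  have h5 : ∑ n ∈ range D, gl1_T ψ (n + 1) * ((1 : ℂ) / (n + 1) - 1 / ((n + 1 : ℕ) + 1)) =
      ∑ n ∈ range D, gl1_A ψ n 1 := by
    refine sum_congr rfl fun n _ => ?_
    rw [hA n]
    push_cast
    ring
  rw [h5] at h2
  have h6 := hsum.sum_add_tsum_nat_add D
  rw [h1, h3, h2, ← h6]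
  have h7 : ∑ i ∈ range D, gl1_A ψ i 1 + ∑' i, gl1_A ψ (i + D) 1 -
      (gl1_T ψ D * (1 / ((D : ℂ) + 1)) + ∑ n ∈ range D, gl1_A ψ n 1) =
      ∑' i, gl1_A ψ (i + D) 1 - gl1_T ψ D * (1 / ((D : ℂ) + 1)) := by ring
  rw [h7]
  have h8 : ‖∑' i, gl1_A ψ (i + D) 1‖ ≤ r / (D + 1) := by
    have hg : HasSum (fun i : ℕ => (r : ℝ) * (1 / ((i : ℝ) + D + 1) - 1 / ((i : ℝ) + D + 2)))
        (r / (D + 1)) := by
      rw [hasSum_iff_tendsto_nat_of_nonneg]
      · have h9 : ∀ K : ℕ, ∑ i ∈ range K, (r : ℝ) * (1 / ((i : ℝ) + D + 1) - 1 / ((i : ℝ) + D + 2)) =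
            r * (1 / ((D : ℝ) + 1) - 1 / ((K : ℝ) + D + 1)) := by
          intro K
          induction K with
          | zero => simp
          | succ K ih =>
            rw [sum_range_succ, ih]
            push_cast
            ring
        simp only [h9]
        have h10 : Filter.Tendsto (fun K : ℕ => 1 / ((K : ℝ) + D + 1)) Filter.atTop (nhds 0) := by
          have h11 := tendsto_one_div_add_atTop_nhds_zero_nat (𝕜 := ℝ)
          have h12 := (Filter.tendsto_add_atTop_iff_nat D).2 h11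
          refine h12.congr fun K => ?_
          push_cast
          rfl
        have h13 := (h10.const_sub (1 / ((D : ℝ) + 1))).const_mul (r : ℝ)
        rw [sub_zero, mul_one_div] at h13
        exact h13
      · intro i
        refine mul_nonneg (Nat.cast_nonneg _) (sub_nonneg.2 ?_)
        exact one_div_le_one_div_of_le (by positivity) (by linarith)
    refine tsum_of_norm_bounded hg fun i => ?_
    rw [hA, norm_mul]
    refine mul_le_mul (gl1_T_bound r ψ hψ _) ?_ (norm_nonneg _) (Nat.cast_nonneg _)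
    have h14 : (1 : ℂ) / (((i + D : ℕ) : ℂ) + 1) - 1 / (((i + D : ℕ) : ℂ) + 1 + 1) =
        ((1 / ((i : ℝ) + D + 1) - 1 / ((i : ℝ) + D + 2) : ℝ) : ℂ) := by
      push_cast
      congr 2
      ring
    rw [h14, Complex.norm_real, Real.norm_of_nonneg]
    refine sub_nonneg.2 ?_
    exact one_div_le_one_div_of_le (by positivity) (by linarith)
  have h15 : ‖gl1_T ψ D * (1 / ((D : ℂ) + 1))‖ ≤ r / (D + 1) := by
    rw [norm_mul, mul_comm]
    have h16 : ‖1 / ((D : ℂ) + 1)‖ = 1 / ((D : ℝ) + 1) := by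
      have : 1 / ((D : ℂ) + 1) = ((1 / ((D : ℝ) + 1) : ℝ) : ℂ) := by push_cast; rfl
      rw [this, Complex.norm_real, Real.norm_of_nonneg (by positivity)]
    rw [h16, one_div_mul_eq_div]
    exact div_le_div_of_nonneg_right (gl1_T_bound r ψ hψ _) (by positivity)
  refine (norm_sub_le _ _).trans ?_
  have : 2 * (r : ℝ) / (D + 1) = r / (D + 1) + r / (D + 1) := by ring
  rw [this]
  exact add_le_add h8 h15

/-- `∑_{m ≤ y} ∑_{d ∣ m} ψ(d) = y L(1,ψ) + O(r √y)`. With `D = ⌊√y⌋`: the sum is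
`∑_{d ≤ D} ψ(d) ⌊y/d⌋ + ∑_{e ≤ y/(D+1)} (S(y/e) - S(D))`, sums of `ψ` over intervals are at most `r`;
`∑_{d > D} ψ(d)/d` is at most `r/(D+1)` (`L(1,ψ)` is the sum of the conditionally convergent
series). Total error `≤ D + r y/(D+1) + r y/(D+1) ≤ 4 r √y`. -/
theorem hyperbola (r : ℕ) [NeZero r] (ψ : DirichletCharacter ℂ r) (hψ : ψ ≠ 1) (y : ℕ) :
    ‖(∑ m ∈ Icc 1 y, ∑ d ∈ m.divisors, ψ (d : ZMod r)) - y * ψ.LFunction 1‖ ≤
      4 * r * Real.sqrt y := by
  have hr : (1 : ℝ) ≤ r := by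
    exact_mod_cast Nat.one_le_iff_ne_zero.2 (NeZero.ne r)
  have e1 : ∑ m ∈ Icc 1 y, ∑ d ∈ m.divisors, ψ (d : ZMod r) =
      ∑ d ∈ Ioc 0 y, ψ (d : ZMod r) * ((y / d : ℕ) : ℂ) := by
    have h1 := ArithmeticFunction.sum_Ioc_mul_zeta_eq_sum
      (⟨fun n => if n = 0 then (0 : ℂ) else ψ (n : ZMod r), by simp⟩ : ArithmeticFunction ℂ) y
    have h2 : Icc 1 y = Ioc 0 y := by
      ext x
      simp only [mem_Ioc, mem_Icc]
      omega
    rw [h2]
    refine Eq.trans ?_ (h1.trans ?_)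
    · refine sum_congr rfl fun m hm => ?_
      rw [ArithmeticFunction.coe_mul_zeta_apply]
      refine sum_congr rfl fun d hd => ?_
      rw [ArithmeticFunction.coe_mk, if_neg (Nat.pos_of_mem_divisors hd).ne']
    · refine sum_congr rfl fun d hd => ?_
      rw [ArithmeticFunction.coe_mk, if_neg (by have := (mem_Ioc.1 hd).1; omega)]
  rw [e1]
  set D := Nat.sqrt y with hD
  have hDy : D ≤ y := Nat.sqrt_le_self y
  have hD1 : (D : ℝ) ≤ √y := Real.nat_sqrt_le_real_sqrt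
  have hD2 : √y ≤ D + 1 := Real.real_sqrt_le_nat_sqrt_succ
  have hs0 : 0 ≤ √(y : ℝ) := Real.sqrt_nonneg _
  have hyy : √(y : ℝ) * √y = y := Real.mul_self_sqrt (Nat.cast_nonneg _)
  have hyD : (y : ℝ) / (D + 1) ≤ √y := by
    rw [div_le_iff₀ (by positivity)]
    nlinarith
  have e2 : ∑ d ∈ Ioc 0 y, ψ (d : ZMod r) * ((y / d : ℕ) : ℂ) =
      ∑ d ∈ Ioc 0 D, ψ (d : ZMod r) * ((y / d : ℕ) : ℂ) +
      ∑ d ∈ Ioc D y, ψ (d : ZMod r) * ((y / d : ℕ) : ℂ) :=
    (sum_Ioc_consecutive _ (Nat.zero_le _) hDy).symm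
  -- the second part
  have e3 : ∑ d ∈ Ioc D y, ψ (d : ZMod r) * ((y / d : ℕ) : ℂ) =
      ∑ e ∈ Ioc 0 (y / (D + 1)), ∑ d ∈ Ioc D (y / e), ψ (d : ZMod r) := by
    have h1 : ∀ d ∈ Ioc D y, ψ (d : ZMod r) * ((y / d : ℕ) : ℂ) =
        ∑ e ∈ Ioc 0 (y / (D + 1)), if d * e ≤ y then ψ (d : ZMod r) else 0 := by
      intro d hd
      obtain ⟨hd1, hd2⟩ := mem_Ioc.1 hd
      have hd0 : 0 < d := by omega
      rw [← sum_filter, sum_const, nsmul_eq_mul, mul_comm]
      congr 2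
      have h2 : (Ioc 0 (y / (D + 1))).filter (fun e => d * e ≤ y) = Ioc 0 (y / d) := by
        ext e
        simp only [mem_filter, mem_Ioc]
        have h3 : e ≤ y / d ↔ d * e ≤ y := by
          rw [Nat.le_div_iff_mul_le hd0, mul_comm]
        constructor
        · rintro ⟨⟨ha, hb⟩, hc⟩
          exact ⟨ha, h3.2 hc⟩
        · rintro ⟨ha, hb⟩
          refine ⟨⟨ha, hb.trans (Nat.div_le_div_left hd1 (by omega))⟩, h3.1 hb⟩
      rw [h2, Nat.card_Ioc, Nat.sub_zero]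
    rw [sum_congr rfl h1, sum_comm]
    refine sum_congr rfl fun e he => ?_
    have he0 : 0 < e := (mem_Ioc.1 he).1
    rw [← sum_filter]
    refine sum_congr ?_ fun _ _ => rfl
    ext d
    simp only [mem_filter, mem_Ioc]
    have h3 : d ≤ y / e ↔ d * e ≤ y := by
      rw [Nat.le_div_iff_mul_le he0]
    constructor
    · rintro ⟨⟨ha, hb⟩, hc⟩
      exact ⟨ha, h3.2 hc⟩
    · rintro ⟨ha, hb⟩
      refine ⟨⟨ha, hb.trans (Nat.div_le_self _ _)⟩, h3.1 hb⟩
  have b3 : ‖∑ d ∈ Ioc D y, ψ (d : ZMod r) * ((y / d : ℕ) : ℂ)‖ ≤ r * √y := by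
    rw [e3]
    refine (norm_sum_le _ _).trans ((sum_le_sum fun e _ => XRH_Ioc r ψ hψ D (y / e)).trans ?_)
    rw [sum_const, Nat.card_Ioc, Nat.sub_zero, nsmul_eq_mul, mul_comm]
    refine mul_le_mul_of_nonneg_left ?_ (by linarith)
    refine Nat.cast_div_le.trans ?_
    push_cast
    exact hyD
  -- the first part
  have b4 : ‖∑ d ∈ Ioc 0 D, ψ (d : ZMod r) * ((y / d : ℕ) : ℂ) -
      y * ∑ d ∈ Ioc 0 D, ψ (d : ZMod r) / d‖ ≤ √y := by
    rw [mul_sum, ← sum_sub_distrib]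
    refine (norm_sum_le _ _).trans (le_trans (sum_le_sum (g := fun _ => (1 : ℝ)) ?_) ?_)
    · intro d hd
      have hd0 : 0 < d := (mem_Ioc.1 hd).1
      have h1 : ψ (d : ZMod r) * ((y / d : ℕ) : ℂ) - y * (ψ (d : ZMod r) / d) =
          ψ (d : ZMod r) * (((((y / d : ℕ) : ℝ) - y / d : ℝ)) : ℂ) := by
        push_cast
        ring
      rw [h1, norm_mul, Complex.norm_real]
      have h2 : ‖((y / d : ℕ) : ℝ) - y / d‖ ≤ 1 := by
        rw [Real.norm_eq_abs, abs_le]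
        have h3 : ((y / d : ℕ) : ℝ) ≤ y / d := Nat.cast_div_le
        have h4 : (y : ℝ) / d < ((y / d : ℕ) : ℝ) + 1 := by
          rw [div_lt_iff₀ (by exact_mod_cast hd0)]
          have := Nat.lt_mul_div_succ y hd0
          have h5 : (y : ℝ) < d * (((y / d : ℕ) : ℝ) + 1) := by exact_mod_cast this
          linarith
        constructor <;> linarith
      calc _ ≤ 1 * 1 := mul_le_mul (DirichletCharacter.norm_le_one ψ _) h2 (norm_nonneg _) (by norm_num)
        _ = 1 := by norm_num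
    · rw [sum_const, Nat.card_Ioc, Nat.sub_zero, nsmul_eq_mul, mul_one]
      exact hD1
  have b5 : ‖(y : ℂ) * (ψ.LFunction 1 - ∑ d ∈ Ioc 0 D, ψ (d : ZMod r) / d)‖ ≤ 2 * r * √y := by
    rw [norm_mul, Complex.norm_natCast]
    calc (y : ℝ) * ‖ψ.LFunction 1 - ∑ d ∈ Ioc 0 D, ψ (d : ZMod r) / d‖
        ≤ y * (2 * r / (D + 1)) :=
          mul_le_mul_of_nonneg_left (XRH_tail r ψ hψ D) (Nat.cast_nonneg _)
      _ = 2 * r * (y / (D + 1)) := by ring
      _ ≤ _ := mul_le_mul_of_nonneg_left hyD (by positivity)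
  rw [e2]
  have e6 : ∑ d ∈ Ioc 0 D, ψ (d : ZMod r) * ((y / d : ℕ) : ℂ) +
      ∑ d ∈ Ioc D y, ψ (d : ZMod r) * ((y / d : ℕ) : ℂ) - y * ψ.LFunction 1 =
      (∑ d ∈ Ioc 0 D, ψ (d : ZMod r) * ((y / d : ℕ) : ℂ) -
        y * ∑ d ∈ Ioc 0 D, ψ (d : ZMod r) / d) +
      ∑ d ∈ Ioc D y, ψ (d : ZMod r) * ((y / d : ℕ) : ℂ) -
      (y : ℂ) * (ψ.LFunction 1 - ∑ d ∈ Ioc 0 D, ψ (d : ZMod r) / d) := by ring
  rw [e6]
  refine (norm_sub_le _ _).trans ((add_le_add (norm_add_le _ _) le_rfl).trans ?_)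
  nlinarith

end Pool.Agent.Lib.H68T
end

-- from Lib.H68T.PAGE1
section

/-!
# Chunk PAGE1; part of PAGE: at most one exceptional character; good levels exist
-/

open Finset

namespace Pool.Agent.Lib.H68T

/-- The product of two different primitive real characters is not principal. -/
theorem PAGE1_ne_one (r₁ r₂ : ℕ) [NeZero r₁] [NeZero r₂] (ψ₁ : DirichletCharacter ℂ r₁)
    (ψ₂ : DirichletCharacter ℂ r₂) (hp₁ : ψ₁.IsPrimitive) (hp₂ : ψ₂.IsPrimitive)
    (h₂ : ψ₂ ^ 2 = 1)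
    (hne : (⟨r₁, ψ₁⟩ : Σ r : ℕ, DirichletCharacter ℂ r) ≠ ⟨r₂, ψ₂⟩) :
    (DirichletCharacter.changeLevel (Dvd.intro r₂ rfl) ψ₁ *
      DirichletCharacter.changeLevel (Dvd.intro_left r₁ rfl) ψ₂ :
        DirichletCharacter ℂ (r₁ * r₂)) ≠ 1 := by
  intro h
  have hN : NeZero (r₁ * r₂) := inferInstance
  set χ₁ : DirichletCharacter ℂ (r₁ * r₂) :=
    DirichletCharacter.changeLevel (Dvd.intro r₂ rfl) ψ₁ with hχ₁
  set χ₂ : DirichletCharacter ℂ (r₁ * r₂) :=
    DirichletCharacter.changeLevel (Dvd.intro_left r₁ rfl) ψ₂ with hχ₂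
  have hsq : χ₂ * χ₂ = 1 := by
    rw [hχ₂, ← map_mul, ← pow_two, h₂, map_one]
  have heq : χ₁ = χ₂ := by
    calc χ₁ = χ₁ * (χ₂ * χ₂) := by rw [hsq, mul_one]
      _ = (χ₁ * χ₂) * χ₂ := by rw [mul_assoc]
      _ = χ₂ := by rw [h, one_mul]
  have hc₁ : χ₁.conductor = r₁ := by
    rw [hχ₁, DirichletCharacter.conductor_changeLevel]
    exact hp₁
  have hc₂ : χ₂.conductor = r₂ := by
    rw [hχ₂, DirichletCharacter.conductor_changeLevel]
    exact hp₂
  have hr : r₁ = r₂ := by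
    rw [← hc₁, heq, hc₂]
  subst hr
  apply hne
  have hinj := DirichletCharacter.changeLevel_injective (R := ℂ)
    (Dvd.intro r₁ rfl : r₁ ∣ r₁ * r₁)
  have : ψ₁ = ψ₂ := hinj heq
  rw [this]

/-- **Page.** Two different real primitive characters of conductor at most `Q` cannot both have a
real zero in `[1 - c₀/log Q, 1]`. `product_real` at `σ = 1 + a/log Q`; the product character is
non-trivial (distinct primitive characters have distinct lifts to level `r₁ r₂`), of modulus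
`≤ Q²`; `re_char` with `S = {β_i}`: `2/(a + c₀) ≤ 1/a + C'`, false for `a = 1/(4C')`, `c₀ = a/4`. -/
theorem page : ∃ c₀ K : ℝ, 0 < c₀ ∧ ∀ Q : ℕ, K ≤ Q → ∀ (r₁ r₂ : ℕ) [NeZero r₁] [NeZero r₂]
    (ψ₁ : DirichletCharacter ℂ r₁) (ψ₂ : DirichletCharacter ℂ r₂), r₁ ≤ Q → r₂ ≤ Q →
    ψ₁.IsPrimitive → ψ₂.IsPrimitive → ψ₁ ≠ 1 → ψ₂ ≠ 1 → ψ₁ ^ 2 = 1 → ψ₂ ^ 2 = 1 →
    (⟨r₁, ψ₁⟩ : Σ r : ℕ, DirichletCharacter ℂ r) ≠ ⟨r₂, ψ₂⟩ →
    ∀ σ₁ σ₂ : ℝ, 1 - c₀ / Real.log Q ≤ σ₁ → σ₁ ≤ 1 → 1 - c₀ / Real.log Q ≤ σ₂ → σ₂ ≤ 1 →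
    ψ₁.LFunction (σ₁ : ℂ) = 0 → ψ₂.LFunction (σ₂ : ℂ) = 0 → False := by
  obtain ⟨C, hC, hre⟩ := re_char
  obtain ⟨Cv, hCv, hvM⟩ := vonMangoldt_le
  set C' : ℝ := 12 * C + Cv + 1 with hC'
  have hC'1 : 1 ≤ C' := by linarith
  have hC'pos : 0 < C' := by linarith
  set a : ℝ := 1 / (4 * C') with ha
  have hapos : 0 < a := by positivity
  have ha4 : a ≤ 1 / 4 := by
    rw [ha]
    exact div_le_div_of_nonneg_left (by norm_num) (by norm_num) (by linarith)
  refine ⟨a / 4, Real.exp (4 + 2 / a), by positivity, ?_⟩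
  intro Q hQ r₁ r₂ _ _ ψ₁ ψ₂ hr₁ hr₂ hp₁ hp₂ hne₁ hne₂ hs₁ hs₂ hne σ₁ σ₂ hσ₁ hσ₁' hσ₂ hσ₂' hz₁ hz₂
  have hQpos : (0 : ℝ) < Q := (Real.exp_pos _).trans_le hQ
  set L : ℝ := Real.log Q with hL
  have hLge : 4 + 2 / a ≤ L := (Real.le_log_iff_exp_le hQpos).2 hQ
  have h2a : 0 < 2 / a := by positivity
  have hL4 : 4 ≤ L := by linarith
  have hLpos : 0 < L := by linarith
  set x : ℝ := a / L with hx
  have hxpos : 0 < x := by positivity
  have hxle : x ≤ 1 / 16 := by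
    rw [hx, div_le_div_iff₀ hLpos (by norm_num)]
    linarith
  have hσ : 1 < 1 + x := by linarith
  -- the logarithms
  have hlog : Real.log (1 / x) ≤ L := by
    have h1 : 1 / x = (1 / a) * L := by
      rw [hx]
      field_simp
    rw [h1, Real.log_mul (by positivity) hLpos.ne']
    have h2 : Real.log (1 / a) ≤ 1 / a := (Real.log_le_sub_one_of_pos (by positivity)).trans (by linarith)
    have h3 : 2 / a = 2 * (1 / a) := by ring
    have h4 : Real.log L ≤ L / 2 := by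
      have h5 : Real.log (L / 2) ≤ L / 2 - 1 := Real.log_le_sub_one_of_pos (by positivity)
      rw [Real.log_div hLpos.ne' (by norm_num)] at h5
      have h6 : Real.log 2 ≤ 1 := (Real.log_le_sub_one_of_pos (by norm_num)).trans (by norm_num)
      linarith
    linarith
  have hlog3 : Real.log (|(0 : ℝ)| + 3) + 1 ≤ L := by
    rw [abs_zero, zero_add]
    have : Real.log 3 ≤ 2 := (Real.log_le_sub_one_of_pos (by norm_num)).trans (by norm_num)
    linarith
  have hlogr : ∀ r : ℕ, 0 < r → r ≤ Q → Real.log r ≤ L := by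
    intro r hr hrQ
    exact Real.log_le_log (by exact_mod_cast hr) (by exact_mod_cast hrQ)
  have hr₁pos : 0 < r₁ := Nat.pos_of_ne_zero (NeZero.ne r₁)
  have hr₂pos : 0 < r₂ := Nat.pos_of_ne_zero (NeZero.ne r₂)
  have hb : a / 4 / L = x / 4 := by rw [hx]; ring
  rw [hb] at hσ₁ hσ₂
  -- one character with a real zero
  have hone : ∀ (r : ℕ) [NeZero r] (ψ : DirichletCharacter ℂ r) (β : ℝ), 0 < r → r ≤ Q → ψ ≠ 1 →
      1 - x / 4 ≤ β → β ≤ 1 → ψ.LFunction (β : ℂ) = 0 →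
      (LSeries (fun n => (ArithmeticFunction.vonMangoldt n : ℂ) * ψ (n : ZMod r))
        ((1 + x : ℝ) : ℂ)).re ≤ 4 * C * L - 1 / (5 / 4 * x) := by
    intro r _ ψ β hr hrQ hψ hβ hβ' hz
    have h1 := hre r ψ hψ (1 + x) 0 hσ (by linarith) {(β : ℂ)} (by
      intro ρ hρ
      rw [Finset.mem_singleton] at hρ
      subst hρ
      refine ⟨hz, ?_⟩
      have : (β : ℂ) - (((1 + x : ℝ) : ℂ) + ((0 : ℝ) : ℂ) * Complex.I) = ((β - (1 + x) : ℝ) : ℂ) := by
        push_cast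
        ring
      rw [this, Complex.norm_real, Real.norm_eq_abs, abs_le]
      constructor <;> linarith)
    rw [Finset.sum_singleton] at h1
    have h2 : ((1 + x : ℝ) : ℂ) + ((0 : ℝ) : ℂ) * Complex.I = ((1 + x : ℝ) : ℂ) := by
      push_cast
      ring
    rw [h2] at h1
    have h3 : (1 / (((1 + x : ℝ) : ℂ) - (β : ℂ))).re = 1 / (1 + x - β) := by
      have : (1 / (((1 + x : ℝ) : ℂ) - (β : ℂ))) = ((1 / (1 + x - β) : ℝ) : ℂ) := by
        push_cast
        ring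
      rw [this, Complex.ofReal_re]
    rw [h3] at h1
    have h4 : 1 / (5 / 4 * x) ≤ 1 / (1 + x - β) :=
      div_le_div_of_nonneg_left (by norm_num) (by linarith) (by linarith)
    have h5 : Real.log r + Real.log (|(0 : ℝ)| + 3) + Real.log (1 / (1 + x - 1)) + 1 ≤ 4 * L := by
      rw [add_sub_cancel_left]
      have e1 := hlogr r hr hrQ
      have e2 : Real.log r + Real.log (|(0 : ℝ)| + 3) + Real.log (1 / x) + 1 =
          Real.log r + (Real.log (|(0 : ℝ)| + 3) + 1) + Real.log (1 / x) := by ring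
      rw [e2]
      calc Real.log r + (Real.log (|(0 : ℝ)| + 3) + 1) + Real.log (1 / x) ≤ L + L + L :=
            add_le_add (add_le_add e1 hlog3) hlog
        _ ≤ 4 * L := by linarith
    have h6 := mul_le_mul_of_nonneg_left h5 hC.le
    linarith
  have e₁ := hone r₁ ψ₁ σ₁ hr₁pos hr₁ hne₁ hσ₁ hσ₁' hz₁
  have e₂ := hone r₂ ψ₂ σ₂ hr₂pos hr₂ hne₂ hσ₂ hσ₂' hz₂
  have e₃ := hre (r₁ * r₂) _ (PAGE1_ne_one r₁ r₂ ψ₁ ψ₂ hp₁ hp₂ hs₂ hne) (1 + x) 0 hσ
    (by linarith) ∅ (by simp)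
  rw [Finset.sum_empty, sub_zero] at e₃
  have h2 : ((1 + x : ℝ) : ℂ) + ((0 : ℝ) : ℂ) * Complex.I = ((1 + x : ℝ) : ℂ) := by
    push_cast
    ring
  rw [h2] at e₃
  have h5 : Real.log ((r₁ * r₂ : ℕ) : ℝ) + Real.log (|(0 : ℝ)| + 3) + Real.log (1 / (1 + x - 1)) + 1 ≤
      4 * L := by
    rw [add_sub_cancel_left, Nat.cast_mul, Real.log_mul (by positivity) (by positivity)]
    have e2 : Real.log r₁ + Real.log r₂ + Real.log (|(0 : ℝ)| + 3) + Real.log (1 / x) + 1 =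
        Real.log r₁ + Real.log r₂ + (Real.log (|(0 : ℝ)| + 3) + 1) + Real.log (1 / x) := by ring
    rw [e2]
    calc Real.log r₁ + Real.log r₂ + (Real.log (|(0 : ℝ)| + 3) + 1) + Real.log (1 / x) ≤
          L + L + L + L :=
          add_le_add (add_le_add (add_le_add (hlogr r₁ hr₁pos hr₁) (hlogr r₂ hr₂pos hr₂)) hlog3) hlog
      _ = 4 * L := by ring
  have h6 := mul_le_mul_of_nonneg_left h5 hC.le
  have e₄ := hvM (1 + x) hσ (by linarith)
  rw [add_sub_cancel_left] at e₄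
  have hpos := product_real r₁ r₂ ψ₁ ψ₂ hs₁ hs₂ (1 + x) hσ
  have hfin : 0 ≤ 1 / x + Cv + 12 * C * L - 2 * (1 / (5 / 4 * x)) := by linarith
  have h7 : 1 / (5 / 4 * x) = 4 / 5 * (1 / x) := by field_simp
  have h8 : 1 / x = 4 * C' * L := by
    rw [hx, ha]
    field_simp
  rw [h7, h8] at hfin
  have h9 : 4 * C' * L + Cv + 12 * C * L - 2 * (4 / 5 * (4 * C' * L)) =
      Cv + 12 * C * L - 12 / 5 * (C' * L) := by ring
  rw [h9] at hfin
  have h10 : C' * L = 12 * C * L + Cv * L + L := by rw [hC']; ring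
  have h11 : Cv ≤ Cv * L := le_mul_of_one_le_right hCv.le (by linarith)
  have h12 : 0 < 12 * C * L := by positivity
  linarith

end Pool.Agent.Lib.H68T
end

-- from Lib.H51D.DHF
section

/-!
# Chunk DHF: the twisted sums of `λ` at a zero
-/

open Finset

namespace Pool.Agent.Lib.H68T

/-- the convolution of two characters -/
noncomputable def DHF_f {N₁ N₂ : ℕ} (χ₁ : DirichletCharacter ℂ N₁) (χ₂ : DirichletCharacter ℂ N₂)
    (n : ℕ) : ℂ :=
  ∑ d ∈ n.divisors, χ₁ (d : ZMod N₁) * χ₂ ((n / d : ℕ) : ZMod N₂)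

theorem DHF_f_eq {N₁ N₂ : ℕ} (χ₁ : DirichletCharacter ℂ N₁) (χ₂ : DirichletCharacter ℂ N₂) :
    DHF_f χ₁ χ₂ = LSeries.convolution (fun n : ℕ => χ₁ (n : ZMod N₁))
      (fun n : ℕ => χ₂ (n : ZMod N₂)) := by
  rw [LSeries.convolution_def]
  funext n
  unfold DHF_f
  exact (Nat.sum_divisorsAntidiagonal
    (f := fun a b => χ₁ (a : ZMod N₁) * χ₂ (b : ZMod N₂))).symm

theorem DHF_summable {N₁ N₂ : ℕ} (χ₁ : DirichletCharacter ℂ N₁) (χ₂ : DirichletCharacter ℂ N₂)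
    (s : ℂ) (hs : 1 < s.re) : LSeriesSummable (DHF_f χ₁ χ₂) s := by
  rw [DHF_f_eq]
  exact LSeriesSummable.convolution (DirichletCharacter.LSeriesSummable_of_one_lt_re χ₁ hs)
    (DirichletCharacter.LSeriesSummable_of_one_lt_re χ₂ hs)

theorem DHF_LSeries {N₁ N₂ : ℕ} [NeZero N₁] [NeZero N₂] (χ₁ : DirichletCharacter ℂ N₁)
    (χ₂ : DirichletCharacter ℂ N₂)
    (s : ℂ) (hs : 1 < s.re) : LSeries (DHF_f χ₁ χ₂) s = χ₁.LFunction s * χ₂.LFunction s := by
  rw [DHF_f_eq, LSeries_convolution' (DirichletCharacter.LSeriesSummable_of_one_lt_re χ₁ hs)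
    (DirichletCharacter.LSeriesSummable_of_one_lt_re χ₂ hs),
    DirichletCharacter.LFunction_eq_LSeries χ₁ hs, DirichletCharacter.LFunction_eq_LSeries χ₂ hs]


/-- the value of a product of characters to different moduli -/
theorem DHF_val (q r : ℕ) [NeZero q] [NeZero r] (χ : DirichletCharacter ℂ q)
    (ψ : DirichletCharacter ℂ r) (d : ℕ) :
    (DirichletCharacter.changeLevel (Dvd.intro r rfl) χ *
      DirichletCharacter.changeLevel (Dvd.intro_left q rfl) ψ : DirichletCharacter ℂ (q * r))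
        (d : ZMod (q * r)) = χ (d : ZMod q) * ψ (d : ZMod r) := by
  rw [MulChar.mul_apply]
  by_cases h : IsUnit (d : ZMod (q * r))
  · have e1 := DirichletCharacter.changeLevel_eq_cast_of_dvd χ (Dvd.intro r rfl) h.unit
    have e2 := DirichletCharacter.changeLevel_eq_cast_of_dvd ψ (Dvd.intro_left q rfl) h.unit
    simp only [IsUnit.unit_spec] at e1 e2
    rw [e1, e2, ZMod.cast_natCast (Dvd.intro r rfl), ZMod.cast_natCast (Dvd.intro_left q rfl)]
  · have h0 : ∀ ξ : DirichletCharacter ℂ (q * r), ξ (d : ZMod (q * r)) = 0 :=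
      fun ξ => MulChar.map_nonunit ξ h
    rw [h0, zero_mul]
    rw [ZMod.isUnit_iff_coprime, Nat.coprime_mul_iff_right, not_and_or] at h
    rcases h with h | h
    · rw [MulChar.map_nonunit χ (fun hu => h ((ZMod.isUnit_iff_coprime d q).1 hu)), zero_mul]
    · rw [MulChar.map_nonunit ψ (fun hu => h ((ZMod.isUnit_iff_coprime d r).1 hu)), mul_zero]



end Pool.Agent.Lib.H68T
end

-- from Lib.H18Q.E1
section

/-!
# Project H18Q, chunk E1: the partial sums of `λ(m) m^(-β)` at a zero `β`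
-/

open Finset

namespace Pool.Agent.Lib.H18Q

open Pool.Agent.Lib.H68T

/-- Difference of two powers, without a sign of the exponent. -/
theorem e1_diff (s : ℂ) {a b : ℝ} (hs : -1 ≤ s.re) (ha : 0 < a) (hab : a ≤ b) :
    ‖(b : ℂ) ^ (-s) - (a : ℂ) ^ (-s)‖ ≤ ‖s‖ * a ^ (-s.re - 1) * (b - a) := by
  have hpos : ∀ x ∈ Set.Icc a b, 0 < x := fun x hx => lt_of_lt_of_le ha hx.1
  refine norm_image_sub_le_of_norm_deriv_le_segment' (f := fun x : ℝ => (x : ℂ) ^ (-s))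
    (a := a) (b := b) (f' := fun x => -s * (x : ℂ) ^ (-s - 1))
    (fun x hx => (gl1_hasDerivAt s (hpos x hx)).hasDerivWithinAt) (fun x hx => ?_) b ⟨hab, le_rfl⟩
  have hx' := hpos x ⟨hx.1, hx.2.le⟩
  rw [gl1_norm_deriv s hx']
  refine mul_le_mul_of_nonneg_left ?_ (norm_nonneg _)
  exact Real.rpow_le_rpow_of_nonpos ha hx.1 (by linarith)

/-- Let `f : ℕ → ℂ` have `|∑_{n ≤ u} f n - κ u| ≤ D √u`, and let `F` be analytic in `Re s > 1/2` with
`F s = (s-1) ∑ f n n^(-s)` for `Re s > 1`, `F s = 0`, `3/4 ≤ Re s ≤ 1`, `s ≠ 1`. Then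
`∑_{n ≤ u} f n n^(-s) = κ u^(1-s)/(1-s) + O((D + |κ|)(1 + |s|) u^(1/2 - Re s))`.

Proof. Exactly the proof of `dh_analytic` (file `H51D/DHE`), which states the upper bound that
follows from this formula: before the last triangle inequality its proof has the formula (the main
term there is `κ (ζ-part) = κ u^(1-s)/(1-s)`, with a constant `2` lost in
`∑_{n ≤ u} n^(-s) = u^(1-s)/(1-s) + ζ(s) + O(...)`). Copy that proof and keep the main term. -/
theorem E1_formula (f : ℕ → ℂ) (κ : ℂ) (D : ℝ) (hD : 0 ≤ D)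
    (hM : ∀ u : ℕ, ‖(∑ n ∈ Icc 1 u, f n) - κ * u‖ ≤ D * Real.sqrt u)
    (hsum : ∀ s : ℂ, 1 < s.re → LSeriesSummable f s)
    (F : ℂ → ℂ) (hF : AnalyticOnNhd ℂ F {s | 1 / 2 < s.re})
    (hFs : ∀ s : ℂ, 1 < s.re → F s = (s - 1) * LSeries f s)
    (s : ℂ) (h1 : 3 / 4 ≤ s.re) (h2 : s.re ≤ 1) (hs1 : s ≠ 1) (h0 : F s = 0) (u : ℕ)
    (hu : 1 ≤ u) :
    ‖(∑ n ∈ Icc 1 u, f n * (n : ℂ) ^ (-s)) - κ * (u : ℂ) ^ (1 - s) / (1 - s)‖ ≤
      100 * (D + ‖κ‖) * (1 + ‖s‖) * (u : ℝ) ^ (1 / 2 - s.re) := by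
  have hs0 : 0 < s.re := by linarith
  have hs12 : 1 / 2 < s.re := by linarith
  have hG := DHE_analytic f κ D hD hM
  -- the identity
  have hid : F s = κ * gl2_Z s + (s - 1) * ∑' n, DHE_A f κ n s := by
    have ha : AnalyticOnNhd ℂ (fun s => κ * gl2_Z s + (s - 1) * ∑' n, DHE_A f κ n s)
        {s | 1 / 2 < s.re} := by
      intro z hz
      exact (analyticAt_const.mul (gl2_Z_differentiable.analyticAt z)).add
        ((analyticAt_id.sub analyticAt_const).mul (hG z hz))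
    have hp : IsPreconnected {s : ℂ | 1 / 2 < s.re} :=
      (convex_halfSpace_re_gt (1 / 2)).isPreconnected
    have h4 := hF.eqOn_of_preconnected_of_eventuallyEq ha hp (z₀ := 2) (by simp; norm_num) ?_
    · exact h4 hs12
    · have h5 : {s : ℂ | 1 < s.re} ∈ nhds (2 : ℂ) :=
        (isOpen_lt continuous_const Complex.continuous_re).mem_nhds (by simp)
      filter_upwards [h5] with z hz
      have hz' : 1 < z.re := hz
      rw [hFs z hz', DHE_series f κ D hM hsum z hz', gl2_Z_eq z (by rintro rfl; simp at hz')]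
      ring
  rw [h0] at hid
  -- the finite sum
  have e1 : ∑ n ∈ Icc 1 u, f n * (n : ℂ) ^ (-s) = ∑ n ∈ range u, f (n + 1) * DHE_p n s := by
    rw [← Finset.Ico_succ_right_eq_Icc, Finset.sum_Ico_eq_sum_range]
    simp only [Order.succ_eq_add_one, Nat.add_sub_cancel]
    refine sum_congr rfl fun n _ => ?_
    rw [add_comm 1 n, DHE_p]
    push_cast
    rfl
  have e2 := DHE_abel f κ s u
  -- sums of `gl2_B`
  have hsumB := (gl1_tele s.re hs0 (‖s - 1‖ * ‖s‖ / s.re) (by positivity) (fun n => gl2_B n s)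
    (fun n => gl2_B_norm n s hs0)).1
  have e3 : ∀ K : ℕ, ∑ n ∈ range K, gl2_B n s = (s - 1) * ∑ n ∈ range K, DHE_p n s +
      ((((K : ℝ) + 1 : ℝ) : ℂ) ^ (-(s - 1)) - 1) := by
    intro K
    induction K with
    | zero => simp
    | succ K ih =>
      rw [sum_range_succ, sum_range_succ, ih, gl2_B, DHE_p]
      have e2 : (((K + 1 : ℕ) : ℝ) + 1 : ℝ) = (K : ℝ) + 2 := by
        push_cast
        ring
      rw [e2]
      ring
  have e4 : gl2_Z s = 1 + ∑ n ∈ range u, gl2_B n s + ∑' n, gl2_B (n + u) s := by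
    rw [gl2_eqOn s hs0, ← hsumB.sum_add_tsum_nat_add u]
    ring
  have hsumA := DHE_summable f κ D hM s hs12
  have e5 : ∑' n, DHE_A f κ n s = ∑ n ∈ range u, DHE_A f κ n s + ∑' n, DHE_A f κ (n + u) s :=
    (hsumA.sum_add_tsum_nat_add u).symm
  have hs1' : s - 1 ≠ 0 := sub_ne_zero.2 hs1
  have hu0 : (0 : ℝ) < u := by exact_mod_cast hu
  have hu1 : (1 : ℝ) ≤ u := by exact_mod_cast hu
  -- the tails
  have hB : ‖∑' n, gl2_B (n + u) s‖ ≤ ‖s - 1‖ * ‖s‖ / s.re * ((u : ℝ) + 1) ^ (-s.re) :=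
    XRL_tele s.re _ (by positivity) u _ (fun n => gl2_B_norm (n + u) s hs0)
  have hA : ‖∑' n, DHE_A f κ (n + u) s‖ ≤
      D * ‖s‖ / (s.re - 1 / 2) * (u : ℝ) ^ (-(s.re - 1 / 2)) := by
    have hh := XRL_tele (s.re - 1 / 2) (D * ‖s‖ / (s.re - 1 / 2))
      (div_nonneg (by positivity) (by linarith)) (u - 1) (fun n => DHE_A f κ (n + u) s) ?_
    · have e6 : (((u - 1 : ℕ) : ℝ) + 1) = u := by
        rw [Nat.cast_sub hu]
        simp
      rwa [e6] at hh
    · intro n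
      refine (DHE_A_norm f κ D hM (n + u) s hs0).trans ?_
      have e7 : ((n + (u - 1) : ℕ) : ℝ) + 1 = ((n + u : ℕ) : ℝ) := by
        have : n + (u - 1) + 1 = n + u := by omega
        exact_mod_cast this
      have e8 : ((n + (u - 1) : ℕ) : ℝ) + 2 = ((n + u : ℕ) : ℝ) + 1 := by
        linarith
      rw [e7, e8]
      have hx : (0 : ℝ) < ((n + u : ℕ) : ℝ) := by
        have : 0 < n + u := by omega
        exact_mod_cast this
      have h9 := DHE_mvt (s.re - 1 / 2) ((n + u : ℕ) : ℝ) (by linarith) hx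
      have e9 : -(s.re - 1 / 2) - 1 = -s.re - 1 / 2 := by ring
      rw [e9] at h9
      have hp : 0 < s.re - 1 / 2 := by linarith
      calc D * ‖s‖ * (((n + u : ℕ) : ℝ) + 1) ^ (-s.re - 1 / 2)
          = D * ‖s‖ / (s.re - 1 / 2) *
            ((s.re - 1 / 2) * (((n + u : ℕ) : ℝ) + 1) ^ (-s.re - 1 / 2)) := by
            rw [← mul_assoc, div_mul_cancel₀ _ hp.ne']
        _ ≤ _ := mul_le_mul_of_nonneg_left h9 (div_nonneg (by positivity) hp.le)
  -- the formula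
  have key : ∑ n ∈ Icc 1 u, f n * (n : ℂ) ^ (-s) =
      DHE_E f κ u * DHE_p u s - κ * (∑' n, gl2_B (n + u) s) / (s - 1) -
        κ * (((u : ℝ) + 1 : ℝ) : ℂ) ^ (-(s - 1)) / (s - 1) - ∑' n, DHE_A f κ (n + u) s := by
    rw [e1, e2]
    have e10 : ∑ n ∈ range u, DHE_p n s = (gl2_Z s - ∑' n, gl2_B (n + u) s -
        (((u : ℝ) + 1 : ℝ) : ℂ) ^ (-(s - 1))) / (s - 1) := by
      rw [eq_div_iff hs1', e4, e3 u]
      ring
    have e11 : ∑ n ∈ range u, DHE_A f κ n s =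
        -(κ * gl2_Z s / (s - 1)) - ∑' n, DHE_A f κ (n + u) s := by
      have e12 : ∑' n, DHE_A f κ n s = -(κ * gl2_Z s / (s - 1)) := by
        field_simp
        linear_combination -hid
      rw [← e12, e5]
      ring
    rw [e10, e11]
    ring
  have hn1 : 0 < ‖1 - s‖ := by
    rw [norm_pos_iff]
    exact sub_ne_zero.2 hs1.symm
  have hs1'' : 1 - s ≠ 0 := sub_ne_zero.2 hs1.symm
  have key2 : (∑ n ∈ Icc 1 u, f n * (n : ℂ) ^ (-s)) - κ * (u : ℂ) ^ (1 - s) / (1 - s) =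
      DHE_E f κ u * DHE_p u s - κ * (∑' n, gl2_B (n + u) s) / (s - 1) -
        κ * ((u : ℂ) ^ (1 - s) - (((u : ℝ) + 1 : ℝ) : ℂ) ^ (1 - s)) / (1 - s) -
        ∑' n, DHE_A f κ (n + u) s := by
    rw [key]
    have e20 : -(s - 1) = 1 - s := by ring
    rw [e20]
    have e21 : s - 1 = -(1 - s) := by ring
    rw [e21]
    field_simp
    ring
  rw [key2]
  have hκ := norm_nonneg κ
  have hns := norm_nonneg s
  have hsw : ‖s - 1‖ = ‖1 - s‖ := norm_sub_rev _ _
  -- bounds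
  have b1 : ‖DHE_E f κ u * DHE_p u s‖ ≤ D * (u : ℝ) ^ (1 / 2 - s.re) := by
    rw [norm_mul, DHE_p, Complex.norm_cpow_eq_rpow_re_of_pos (by positivity)]
    have h3 : ‖DHE_E f κ u‖ ≤ D * (u : ℝ) ^ (1 / 2 : ℝ) := by
      rw [← Real.sqrt_eq_rpow]
      exact hM u
    have h4 : ((u : ℝ) + 1) ^ (-s).re ≤ (u : ℝ) ^ (-s.re) := by
      rw [Complex.neg_re]
      exact Real.rpow_le_rpow_of_nonpos hu0 (by linarith) (by linarith)
    calc ‖DHE_E f κ u‖ * ((u : ℝ) + 1) ^ (-s).re ≤ (D * (u : ℝ) ^ (1 / 2 : ℝ)) * (u : ℝ) ^ (-s.re) :=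
          mul_le_mul h3 h4 (Real.rpow_nonneg (by positivity) _) ((norm_nonneg _).trans h3)
      _ = D * ((u : ℝ) ^ (1 / 2 : ℝ) * (u : ℝ) ^ (-s.re)) := by ring
      _ = _ := by
        rw [← Real.rpow_add hu0]
        ring_nf
  have hpow : ((u : ℝ) + 1) ^ (-s.re) ≤ (u : ℝ) ^ (1 / 2 - s.re) := by
    calc ((u : ℝ) + 1) ^ (-s.re) ≤ (u : ℝ) ^ (-s.re) :=
          Real.rpow_le_rpow_of_nonpos hu0 (by linarith) (by linarith)
      _ ≤ _ := Real.rpow_le_rpow_of_exponent_le hu1 (by linarith)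
  have hpos : 0 ≤ (u : ℝ) ^ (1 / 2 - s.re) := Real.rpow_nonneg hu0.le _
  have b2 : ‖κ * (∑' n, gl2_B (n + u) s) / (s - 1)‖ ≤ 2 * ‖κ‖ * ‖s‖ * (u : ℝ) ^ (1 / 2 - s.re) := by
    rw [norm_div, norm_mul, div_le_iff₀ (by rw [hsw]; exact hn1)]
    have h3 : ‖s - 1‖ * ‖s‖ / s.re ≤ 2 * (‖s - 1‖ * ‖s‖) := by
      rw [div_le_iff₀ hs0]
      have : 0 ≤ ‖s - 1‖ * ‖s‖ := by positivity
      nlinarith
    calc ‖κ‖ * ‖∑' n, gl2_B (n + u) s‖
        ≤ ‖κ‖ * (2 * (‖s - 1‖ * ‖s‖) * (u : ℝ) ^ (1 / 2 - s.re)) := by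
          apply mul_le_mul_of_nonneg_left _ hκ
          refine hB.trans ?_
          exact mul_le_mul h3 hpow (Real.rpow_nonneg (by positivity) _) (by positivity)
      _ = _ := by ring
  have b3 : ‖κ * ((u : ℂ) ^ (1 - s) - (((u : ℝ) + 1 : ℝ) : ℂ) ^ (1 - s)) / (1 - s)‖ ≤
      ‖κ‖ * (u : ℝ) ^ (1 / 2 - s.re) := by
    rw [norm_div, norm_mul, div_le_iff₀ hn1]
    have h3 := e1_diff (s - 1) (a := (u : ℝ)) (b := (u : ℝ) + 1) (by simp; linarith) hu0
      (by linarith)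
    have e30 : -(s - 1) = 1 - s := by ring
    have e31 : -(s - 1).re - 1 = -s.re := by simp
    have e32 : (u : ℝ) + 1 - (u : ℝ) = 1 := by ring
    rw [e30, e31, e32, mul_one, hsw, norm_sub_rev] at h3
    have h4 : (u : ℝ) ^ (-s.re) ≤ (u : ℝ) ^ (1 / 2 - s.re) :=
      Real.rpow_le_rpow_of_exponent_le hu1 (by linarith)
    calc ‖κ‖ * ‖(u : ℂ) ^ (1 - s) - (((u : ℝ) + 1 : ℝ) : ℂ) ^ (1 - s)‖
        ≤ ‖κ‖ * (‖1 - s‖ * (u : ℝ) ^ (1 / 2 - s.re)) := by
          apply mul_le_mul_of_nonneg_left _ hκ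
          have h5 : ‖(u : ℂ) ^ (1 - s) - (((u : ℝ) + 1 : ℝ) : ℂ) ^ (1 - s)‖ ≤
              ‖1 - s‖ * (u : ℝ) ^ (-s.re) := by
            simpa using h3
          exact h5.trans (mul_le_mul_of_nonneg_left h4 hn1.le)
      _ = _ := by ring
  have b4 : ‖∑' n, DHE_A f κ (n + u) s‖ ≤ 4 * D * ‖s‖ * (u : ℝ) ^ (1 / 2 - s.re) := by
    refine hA.trans ?_
    have e14 : -(s.re - 1 / 2) = 1 / 2 - s.re := by ring
    rw [e14]
    apply mul_le_mul_of_nonneg_right _ hpos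
    rw [div_le_iff₀ (by linarith)]
    have : 0 ≤ D * ‖s‖ := by positivity
    nlinarith
  have t1 := norm_sub_le (DHE_E f κ u * DHE_p u s - κ * (∑' n, gl2_B (n + u) s) / (s - 1) -
        κ * ((u : ℂ) ^ (1 - s) - (((u : ℝ) + 1 : ℝ) : ℂ) ^ (1 - s)) / (1 - s))
        (∑' n, DHE_A f κ (n + u) s)
  have t2 := norm_sub_le (DHE_E f κ u * DHE_p u s - κ * (∑' n, gl2_B (n + u) s) / (s - 1))
        (κ * ((u : ℂ) ^ (1 - s) - (((u : ℝ) + 1 : ℝ) : ℂ) ^ (1 - s)) / (1 - s))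
  have t3 := norm_sub_le (DHE_E f κ u * DHE_p u s) (κ * (∑' n, gl2_B (n + u) s) / (s - 1))
  have t4 : D * (u : ℝ) ^ (1 / 2 - s.re) + 2 * ‖κ‖ * ‖s‖ * (u : ℝ) ^ (1 / 2 - s.re) +
      ‖κ‖ * (u : ℝ) ^ (1 / 2 - s.re) + 4 * D * ‖s‖ * (u : ℝ) ^ (1 / 2 - s.re) ≤
      100 * (D + ‖κ‖) * (1 + ‖s‖) * (u : ℝ) ^ (1 / 2 - s.re) := by
    have : D + 2 * ‖κ‖ * ‖s‖ + ‖κ‖ + 4 * D * ‖s‖ ≤ 100 * (D + ‖κ‖) * (1 + ‖s‖) := by
      have h5 : 0 ≤ D * ‖s‖ := by positivity
      have h6 : 0 ≤ ‖κ‖ * ‖s‖ := by positivity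
      nlinarith
    have h7 := mul_le_mul_of_nonneg_right this hpos
    linarith
  linarith

/-- Lower bound for the partial sums of `λ = 1 * ψ` at a real zero `β` of `L(s, ψ)`.

Proof. `E1_formula` with `f = λ` (as complex numbers), `κ = L(1, ψ)`, `D = 4 r`
(`hyperbola` in `H68X/XRH`), `F s = gl2_Z s * ψ.LFunction s` (`gl2_Z s = (s-1) ζ(s)`,
`LSeries λ = ζ L` by `LSeries_convolution'`/`zetaMul`-lemmas as in `H51D` file `DHF` or `DHG`),
`s = β`. `L(1, ψ)` is real and positive (its norm is its value: real since `ψ` is real,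
`ZF2_conj`; positivity is not needed if one takes the real part and uses
`(L(1)).re = ‖L(1)‖`, which follows from the formula itself or from
`DirichletCharacter.LFunction` positivity for real characters: `0 ≤ ∑_{m ≤ u} λ(m)/u → L(1)`).
`‖κ‖ ≤ 2 r` (`LFunction_bound`), `1 + β ≤ 2`: the error is at most `100 · 6 r · 2 ≤ 2000 r`. -/
theorem E1_lower (r : ℕ) [NeZero r] (ψ : DirichletCharacter ℂ r) (hψ : ψ ≠ 1) (h2 : ψ ^ 2 = 1)
    (β : ℝ) (hβ : 3 / 4 ≤ β) (hβ1 : β < 1) (h0 : ψ.LFunction (β : ℂ) = 0) (x : ℕ) (hx : 1 ≤ x) :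
    ‖ψ.LFunction 1‖ * (x : ℝ) ^ (1 - β) / (1 - β) - 2000 * r * (x : ℝ) ^ (1 / 2 - β) ≤
      ∑ m ∈ Icc 1 x, lam ψ m * (m : ℝ) ^ (-β) := by
  have hr1 : (1 : ℝ) ≤ r := by exact_mod_cast Nat.one_le_iff_ne_zero.2 (NeZero.ne r)
  set κ : ℂ := ψ.LFunction 1 with hκdef
  set f : ℕ → ℂ := fun n => ∑ d ∈ n.divisors, ψ (d : ZMod r) with hf
  have hflam : ∀ n, f n = ((lam ψ n : ℝ) : ℂ) := fun n => (lam_cast r ψ h2 n).symm
  have hfD : f = DHF_f ψ (1 : DirichletCharacter ℂ 1) := by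
    funext n
    rw [hf]
    unfold DHF_f
    apply Finset.sum_congr rfl
    intro d _
    have : (1 : DirichletCharacter ℂ 1) ((n / d : ℕ) : ZMod 1) = 1 := by
      rw [Subsingleton.elim ((n / d : ℕ) : ZMod 1) 1, map_one]
    rw [this, mul_one]
  have hMf : ∀ u : ℕ, ‖(∑ n ∈ Icc 1 u, f n) - κ * u‖ ≤ (4 * r) * Real.sqrt u := by
    intro u
    have := hyperbola r ψ hψ u
    rw [mul_comm κ]
    exact this
  -- positivity of `L(1)`
  have hκpos : κ = ((‖κ‖ : ℝ) : ℂ) := by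
    have hcl : IsClosed {z : ℂ | z.im = 0 ∧ 0 ≤ z.re} :=
      (isClosed_eq Complex.continuous_im continuous_const).inter
        (isClosed_le continuous_const Complex.continuous_re)
    have hlim : Filter.Tendsto (fun y : ℕ => (∑ n ∈ Icc 1 (y + 1), f n) / ((y + 1 : ℕ) : ℂ))
        Filter.atTop (nhds κ) := by
      rw [tendsto_iff_norm_sub_tendsto_zero]
      have h3 : Filter.Tendsto (fun y : ℕ => (4 * (r : ℝ)) / Real.sqrt ((y + 1 : ℕ) : ℝ))
          Filter.atTop (nhds 0) := by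
        apply Filter.Tendsto.div_atTop tendsto_const_nhds
        apply Real.tendsto_sqrt_atTop.comp
        exact tendsto_natCast_atTop_atTop.comp (Filter.tendsto_add_atTop_nat 1)
      refine squeeze_zero (fun _ => norm_nonneg _) (fun y => ?_) h3
      have hy : (0 : ℝ) < ((y + 1 : ℕ) : ℝ) := by positivity
      have hyc : (((y + 1 : ℕ) : ℂ)) ≠ 0 := by exact_mod_cast hy.ne'
      have e1 : (∑ n ∈ Icc 1 (y + 1), f n) / ((y + 1 : ℕ) : ℂ) - κ =
          ((∑ n ∈ Icc 1 (y + 1), f n) - κ * ((y + 1 : ℕ) : ℂ)) / ((y + 1 : ℕ) : ℂ) := by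
        rw [sub_div, mul_div_assoc, div_self hyc, mul_one]
      rw [e1, norm_div, Complex.norm_natCast, div_le_iff₀ hy]
      refine (hMf (y + 1)).trans (le_of_eq ?_)
      have hsq : Real.sqrt ((y + 1 : ℕ) : ℝ) * Real.sqrt ((y + 1 : ℕ) : ℝ) = ((y + 1 : ℕ) : ℝ) :=
        Real.mul_self_sqrt hy.le
      have hsp : 0 < Real.sqrt ((y + 1 : ℕ) : ℝ) := Real.sqrt_pos.mpr hy
      rw [div_mul_eq_mul_div, eq_div_iff hsp.ne', mul_assoc, hsq]
    have hmem : κ ∈ {z : ℂ | z.im = 0 ∧ 0 ≤ z.re} := by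
      refine hcl.mem_of_tendsto hlim (Filter.Eventually.of_forall fun y => ?_)
      have e2 : (∑ n ∈ Icc 1 (y + 1), f n) / ((y + 1 : ℕ) : ℂ) =
          (((∑ n ∈ Icc 1 (y + 1), lam ψ n) / ((y + 1 : ℕ) : ℝ) : ℝ) : ℂ) := by
        rw [Finset.sum_congr rfl (fun n _ => hflam n)]
        push_cast
        rfl
      rw [e2]
      refine ⟨Complex.ofReal_im _, ?_⟩
      rw [Complex.ofReal_re]
      exact div_nonneg (Finset.sum_nonneg fun n _ => lam_nonneg r ψ h2 n) (Nat.cast_nonneg _)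
    have h4 : κ = ((κ.re : ℝ) : ℂ) := by
      apply Complex.ext
      · simp
      · simp [hmem.1]
    have h5 : ‖κ‖ = κ.re := by
      rw [h4, Complex.norm_real, Complex.ofReal_re, Real.norm_of_nonneg hmem.2]
    rw [h5]
    exact h4
  have hκ2 : ‖κ‖ ≤ 2 * r := by
    have := LFunction_bound r ψ hψ 1 (by norm_num)
    simpa using this
  have hβ0 : (β : ℂ) ≠ 1 := by
    intro h
    have : β = 1 := by exact_mod_cast h
    linarith
  have hmain := E1_formula f κ (4 * r) (by positivity) hMf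
    (fun s hs => by rw [hfD]; exact DHF_summable ψ _ s hs)
    (fun z => ψ.LFunction z * gl2_Z z)
    (fun z _ => ((DirichletCharacter.differentiable_LFunction hψ).mul
      gl2_Z_differentiable).analyticAt z)
    (fun z hz => by
      have hz1 : z ≠ 1 := by
        rintro rfl
        simp at hz
      change ψ.LFunction z * gl2_Z z = _
      rw [hfD, DHF_LSeries ψ _ z hz, gl2_Z_eq z hz1, DirichletCharacter.LFunction_modOne_eq]
      ring)
    (β : ℂ) (by rw [Complex.ofReal_re]; exact hβ) (by rw [Complex.ofReal_re]; exact hβ1.le) hβ0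
    (by rw [h0, zero_mul]) x hx
  have e3 : ∑ n ∈ Icc 1 x, f n * (n : ℂ) ^ (-(β : ℂ)) =
      ((∑ m ∈ Icc 1 x, lam ψ m * (m : ℝ) ^ (-β) : ℝ) : ℂ) := by
    rw [Complex.ofReal_sum]
    apply Finset.sum_congr rfl
    intro n _
    rw [hflam, Complex.ofReal_mul, Complex.ofReal_cpow (Nat.cast_nonneg _)]
    push_cast
    rfl
  have e4 : κ * (x : ℂ) ^ (1 - (β : ℂ)) / (1 - (β : ℂ)) =
      ((‖κ‖ * (x : ℝ) ^ (1 - β) / (1 - β) : ℝ) : ℂ) := by
    rw [Complex.ofReal_div, Complex.ofReal_mul, Complex.ofReal_cpow (Nat.cast_nonneg _), ← hκpos]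
    push_cast
    rfl
  rw [e3, e4, ← Complex.ofReal_sub, Complex.norm_real, Complex.norm_real, Complex.ofReal_re,
    Real.norm_eq_abs, Real.norm_of_nonneg (by linarith : (0 : ℝ) ≤ β)] at hmain
  have hpx : 0 ≤ (x : ℝ) ^ (1 / 2 - β) := Real.rpow_nonneg (Nat.cast_nonneg _) _
  have h6 : 100 * (4 * (r : ℝ) + ‖κ‖) * (1 + β) ≤ 2000 * r := by
    have := norm_nonneg κ
    nlinarith
  have h7 := mul_le_mul_of_nonneg_right h6 hpx
  have h8 := (abs_le.mp hmain).1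
  linarith

end Pool.Agent.Lib.H18Q
end

-- from Lib.H59C.LIN
section

/-!
# LIN: main terms of the linear sieve, final form
-/

open Finset MeasureTheory

namespace Pool.Agent.Lib.H59C

/-- From `exists_uv`, `uv_formula`, `main_ind` with `K = 1 + δ`, `δ = min η (ε/C1)` (`hh ≤ 1`). -/
theorem linear_sieve : ∃ A : ℝ, 0 < A ∧ ∀ ε : ℝ, 0 < ε → ∃ δ : ℝ, 0 < δ ∧
    ∀ (P : Finset ℕ) (g : ℕ → ℝ), (∀ q ∈ P, 2 ≤ q ∧ 0 ≤ g q ∧ g q < 1) → Om (1 + δ) P g →
    ∀ D z : ℝ, 2 ≤ z → z ≤ D →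
    (Real.log D ≤ 3 * Real.log z →
      SS true D (P.filter (fun q : ℕ => (q : ℝ) < z)) g ≤
        VP P g z * (A / (Real.log D / Real.log z) + ε)) ∧
    (2 * Real.log z ≤ Real.log D → Real.log D ≤ 4 * Real.log z →
      VP P g z * (A * Real.log (Real.log D / Real.log z - 1) / (Real.log D / Real.log z) - ε) ≤
        SS false D (P.filter (fun q : ℕ => (q : ℝ) < z)) g) := by
  obtain ⟨C, u, v, hC, h⟩ := exists_uv
  obtain ⟨A, hA, hF, hf⟩ := uv_formula h
  obtain ⟨η, C1, hη, hC1, hm⟩ := main_ind hC h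
  refine ⟨A, hA, ?_⟩
  intro ε hε
  obtain ⟨δ, hδ⟩ : ∃ δ : ℝ, δ = min η (ε / C1) := ⟨_, rfl⟩
  have hδ0 : 0 < δ := by
    rw [hδ]
    exact lt_min hη (by positivity)
  refine ⟨δ, hδ0, ?_⟩
  intro P g hP hOm D z hz hzD
  have hK1 : (1 : ℝ) ≤ 1 + δ := by linarith
  have hK2 : 1 + δ ≤ 1 + η := by
    have : δ ≤ η := by
      rw [hδ]
      exact min_le_left _ _
    linarith
  obtain ⟨h1, h2⟩ := hm (1 + δ) hK1 hK2 P g hP hOm D z hz hzD
  have hlz : 0 < Real.log z := Real.log_pos (by linarith)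
  have hlD : Real.log z ≤ Real.log D := Real.log_le_log (by linarith) hzD
  obtain ⟨s, hs⟩ : ∃ s : ℝ, s = Real.log D / Real.log z := ⟨_, rfl⟩
  rw [← hs] at h1 h2 ⊢
  have hs1 : 1 ≤ s := by
    rw [hs, le_div_iff₀ hlz]
    linarith
  have hVP : 0 ≤ VP P g z := by
    unfold VP
    apply prod_nonneg
    intro q hq
    have := (hP q (mem_filter.mp hq).1).2.2
    linarith
  have hhh : hh s ≤ 1 := by
    unfold hh
    rw [Real.exp_le_one_iff]
    have : (2 : ℝ) ≤ max s 2 := le_max_right _ _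
    linarith
  have hhh0 : 0 ≤ hh s := by
    unfold hh
    exact (Real.exp_pos _).le
  have hCδ : C1 * (1 + δ - 1) * hh s ≤ ε := by
    have h3 : δ ≤ ε / C1 := by
      rw [hδ]
      exact min_le_right _ _
    have h4 : C1 * δ ≤ ε := by
      rw [le_div_iff₀ hC1] at h3
      linarith
    have h5 : C1 * (1 + δ - 1) * hh s ≤ C1 * δ * 1 := by
      have h6 : C1 * (1 + δ - 1) = C1 * δ := by ring
      rw [h6]
      exact mul_le_mul_of_nonneg_left hhh (by positivity)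
    linarith
  constructor
  · intro h3
    have hs3 : s ≤ 3 := by
      rw [hs, div_le_iff₀ hlz]
      exact h3
    refine h1.trans (mul_le_mul_of_nonneg_left ?_ hVP)
    have := hF s hs1 hs3
    linarith
  · intro h3 h4
    have hs2 : 2 ≤ s := by
      rw [hs, le_div_iff₀ hlz]
      exact h3
    have hs4 : s ≤ 4 := by
      rw [hs, div_le_iff₀ hlz]
      exact h4
    refine le_trans (mul_le_mul_of_nonneg_left ?_ hVP) (h2 h3)
    have := hf s hs2 hs4
    linarith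

end Pool.Agent.Lib.H59C
end

-- from Lib.H59C.MER1
section

/-!
# MER1: the sifting condition for `1/(q-1)`
-/

open Finset

namespace Pool.Agent.Lib.H59C

theorem MER1_sq (w : ℕ) (hw : 2 ≤ w) (N : ℕ) :
    ∑ n ∈ Ico w N, 1 / (n : ℝ) ^ 2 ≤ 2 / (w : ℝ) := by
  have hw0 : (2 : ℝ) ≤ w := by exact_mod_cast hw
  rcases Nat.lt_or_ge N w with h | h
  · rw [Finset.Ico_eq_empty (by omega), Finset.sum_empty]
    positivity
  have key : ∀ M : ℕ, w ≤ M → ∑ n ∈ Ico w M, 1 / (n : ℝ) ^ 2 ≤ 1 / ((w : ℝ) - 1) - 1 / ((M : ℝ) - 1) := by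
    intro M hM
    induction M, hM using Nat.le_induction with
    | base => simp
    | succ M hM ih =>
      rw [Finset.sum_Ico_succ_top hM]
      have hM0 : (2 : ℝ) ≤ M := by
        have : 2 ≤ M := by omega
        exact_mod_cast this
      have e : 1 / (M : ℝ) ^ 2 ≤ 1 / ((M : ℝ) - 1) - 1 / (((M + 1 : ℕ) : ℝ) - 1) := by
        push_cast
        have h1 : (0 : ℝ) < (M : ℝ) - 1 := by linarith
        have h2 : 1 / ((M : ℝ) - 1) - 1 / ((M : ℝ) + 1 - 1) = 1 / (((M : ℝ) - 1) * M) := by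
          rw [add_sub_cancel_right]
          field_simp
          ring
        rw [h2]
        apply one_div_le_one_div_of_le (by positivity)
        nlinarith
      linarith
  have h1 := key N h
  have h2 : 0 ≤ 1 / ((N : ℝ) - 1) := by
    have : (2 : ℝ) ≤ N := by
      have : 2 ≤ N := by omega
      exact_mod_cast this
    apply div_nonneg (by norm_num)
    linarith
  have h3 : 1 / ((w : ℝ) - 1) ≤ 2 / w := by
    rw [div_le_div_iff₀ (by linarith) (by linarith)]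
    linarith
  linarith

/-- The condition of the linear sieve for the density `1/(q-1)` on sets of large primes.

Proof. Let `2 ≤ u ≤ z`. `V(u)/V(z) = ∏_{q ∈ P, u ≤ q < z} (1 - 1/(q-1))⁻¹ ≤ ∏_{max u w0 ≤ q < z, q prime} (1 - 1/(q-1))⁻¹`,
whose logarithm is at most `∑ (1/q + 10/q²) ≤ log log z - log log (max u w0) + (C + 10)/log w0` (`mertens`), so it is
`≤ (1 + δ) log z/log (max u w0) ≤ (1 + δ) log z/log u` for `w0` large (if `z ≤ w0` the product is empty). -/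
theorem om_gq (δ : ℝ) (hδ : 0 < δ) : ∃ w0 : ℕ, 5 ≤ w0 ∧ ∀ P : Finset ℕ,
    (∀ q ∈ P, q.Prime ∧ w0 ≤ q) → Om (1 + δ) P gq := by
  obtain ⟨C, hC, hmer⟩ := mertens
  have hδ1 : 0 < Real.log (1 + δ) := Real.log_pos (by linarith)
  obtain ⟨w0, hw5, hwl⟩ : ∃ w0 : ℕ, 5 ≤ w0 ∧ C / Real.log w0 + 20 / (w0 : ℝ) ≤ Real.log (1 + δ) := by
    have t1 : Filter.Tendsto (fun w : ℕ => C / Real.log (w : ℝ)) Filter.atTop (nhds 0) :=
      Filter.Tendsto.div_atTop tendsto_const_nhds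
        (Real.tendsto_log_atTop.comp tendsto_natCast_atTop_atTop)
    have t2 : Filter.Tendsto (fun w : ℕ => 20 / (w : ℝ)) Filter.atTop (nhds 0) :=
      Filter.Tendsto.div_atTop tendsto_const_nhds tendsto_natCast_atTop_atTop
    have t3 := t1.add t2
    rw [add_zero] at t3
    have t4 := t3.eventually (ge_mem_nhds hδ1)
    obtain ⟨w, hw, hw5⟩ := (t4.and (Filter.eventually_ge_atTop 5)).exists
    exact ⟨w, hw5, hw⟩
  refine ⟨w0, hw5, fun P hP u z hu huz => ?_⟩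
  have hw0' : (5 : ℝ) ≤ w0 := by exact_mod_cast hw5
  have hlu : 0 < Real.log u := Real.log_pos (by linarith)
  have hlz : 0 < Real.log z := Real.log_pos (by linarith)
  have hluz : Real.log u ≤ Real.log z := Real.log_le_log (by linarith) huz
  -- factors
  have hfac : ∀ q ∈ P, 0 < 1 - gq q ∧ (1 - gq q)⁻¹ ≤ Real.exp (1 / (q : ℝ) + 10 * (1 / (q : ℝ) ^ 2)) := by
    intro q hq
    have hq5 : (5 : ℝ) ≤ q := by
      have : 5 ≤ q := hw5.trans (hP q hq).2
      exact_mod_cast this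
    have e : 1 - gq q = ((q : ℝ) - 2) / ((q : ℝ) - 1) := by
      unfold gq
      have : (q : ℝ) - 1 ≠ 0 := by linarith
      field_simp
      ring
    have h2 : (0 : ℝ) < (q : ℝ) - 2 := by linarith
    have h1 : (0 : ℝ) < (q : ℝ) - 1 := by linarith
    refine ⟨by rw [e]; positivity, ?_⟩
    rw [e, inv_div]
    have e2 : ((q : ℝ) - 1) / ((q : ℝ) - 2) = 1 / ((q : ℝ) - 2) + 1 := by
      field_simp
      ring
    rw [e2]
    refine (Real.add_one_le_exp _).trans (Real.exp_le_exp.2 ?_)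
    have e3 : 1 / (q : ℝ) + 10 * (1 / (q : ℝ) ^ 2) = (q + 10) / (q : ℝ) ^ 2 := by
      field_simp
    rw [e3, div_le_div_iff₀ h2 (by positivity)]
    nlinarith
  -- split of the product
  have hsplit : VP P gq z = VP P gq u *
      ∏ q ∈ P.filter (fun q : ℕ => u ≤ (q : ℝ) ∧ (q : ℝ) < z), (1 - gq q) := by
    unfold VP
    rw [← Finset.prod_union]
    · apply Finset.prod_congr _ (fun _ _ => rfl)
      ext q
      simp only [mem_filter, mem_union]
      constructor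
      · rintro ⟨h1, h2⟩
        rcases lt_or_ge (q : ℝ) u with h3 | h3
        · exact Or.inl ⟨h1, h3⟩
        · exact Or.inr ⟨h1, h3, h2⟩
      · rintro (⟨h1, h2⟩ | ⟨h1, h2, h3⟩)
        · exact ⟨h1, h2.trans_le huz⟩
        · exact ⟨h1, h3⟩
    · rw [Finset.disjoint_left]
      intro q h1 h2
      rw [mem_filter] at h1 h2
      exact absurd h1.2 (not_lt.2 h2.2.1)
  have hVu : 0 < VP P gq u := by
    unfold VP
    apply Finset.prod_pos
    intro q hq
    exact (hfac q (mem_filter.1 hq).1).1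
  obtain ⟨W, hW⟩ : ∃ W, W = ∏ q ∈ P.filter (fun q : ℕ => u ≤ (q : ℝ) ∧ (q : ℝ) < z), (1 - gq q) :=
    ⟨_, rfl⟩
  rw [← hW] at hsplit
  have hW0 : 0 < W := by
    rw [hW]
    apply Finset.prod_pos
    intro q hq
    exact (hfac q (mem_filter.1 hq).1).1
  suffices hmain : W⁻¹ ≤ (1 + δ) * (Real.log z / Real.log u) by
    rw [hsplit]
    have h1 : 1 ≤ (1 + δ) * (Real.log z / Real.log u) * W := by
      have := mul_le_mul_of_nonneg_right hmain hW0.le
      rwa [inv_mul_cancel₀ hW0.ne'] at this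
    calc VP P gq u = VP P gq u * 1 := (mul_one _).symm
      _ ≤ VP P gq u * ((1 + δ) * (Real.log z / Real.log u) * W) :=
        mul_le_mul_of_nonneg_left h1 hVu.le
      _ = _ := by ring
  rcases le_or_gt z w0 with hzw | hzw
  · -- empty product
    have hempty : P.filter (fun q : ℕ => u ≤ (q : ℝ) ∧ (q : ℝ) < z) = ∅ := by
      rw [Finset.filter_eq_empty_iff]
      rintro q hq ⟨-, h2⟩
      have : (w0 : ℝ) ≤ q := by exact_mod_cast (hP q hq).2
      linarith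
    rw [hW, hempty, Finset.prod_empty, inv_one]
    have h1 : 1 ≤ Real.log z / Real.log u := by
      rw [one_le_div hlu]
      exact hluz
    nlinarith
  · have hu' : max u w0 ≤ z := max_le huz hzw.le
    have h2u' : 2 ≤ max u (w0 : ℝ) := le_max_of_le_left hu
    have hm := (abs_le.1 (hmer (max u w0) z h2u' hu')).2
    -- the exponent
    have h1 : W⁻¹ ≤ Real.exp (∑ q ∈ P.filter (fun q : ℕ => u ≤ (q : ℝ) ∧ (q : ℝ) < z),
        (1 / (q : ℝ) + 10 * (1 / (q : ℝ) ^ 2))) := by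
      rw [hW, Real.exp_sum, ← Finset.prod_inv_distrib]
      apply Finset.prod_le_prod
      · intro q hq
        exact (inv_pos.2 (hfac q (mem_filter.1 hq).1).1).le
      · intro q hq
        exact (hfac q (mem_filter.1 hq).1).2
    refine h1.trans ?_
    have h2 : ∑ q ∈ P.filter (fun q : ℕ => u ≤ (q : ℝ) ∧ (q : ℝ) < z), 1 / (q : ℝ) ≤
        ∑ q ∈ PR (max u w0) z, 1 / (q : ℝ) := by
      apply Finset.sum_le_sum_of_subset_of_nonneg
      · intro q hq
        rw [mem_filter] at hq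
        rw [mem_PR]
        refine ⟨(hP q hq.1).1, max_le hq.2.1 ?_, hq.2.2⟩
        exact_mod_cast (hP q hq.1).2
      · intro q _ _
        positivity
    have h3 : ∑ q ∈ P.filter (fun q : ℕ => u ≤ (q : ℝ) ∧ (q : ℝ) < z), 1 / (q : ℝ) ^ 2 ≤
        ∑ q ∈ Ico w0 ⌈z⌉₊, 1 / (q : ℝ) ^ 2 := by
      apply Finset.sum_le_sum_of_subset_of_nonneg
      · intro q hq
        rw [mem_filter] at hq
        rw [mem_Ico]
        exact ⟨(hP q hq.1).2, Nat.lt_ceil.2 hq.2.2⟩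
      · intro q _ _
        positivity
    have h4 := MER1_sq w0 (by omega) ⌈z⌉₊
    have hlw : 0 < Real.log w0 := Real.log_pos (by linarith)
    have hlu' : Real.log u ≤ Real.log (max u w0) := Real.log_le_log (by linarith) (le_max_left _ _)
    have hlw' : Real.log w0 ≤ Real.log (max u w0) :=
      Real.log_le_log (by linarith) (le_max_right _ _)
    have h5 : Real.log (Real.log u) ≤ Real.log (Real.log (max u w0)) := Real.log_le_log hlu hlu'
    have h6 : C / Real.log (max u w0) ≤ C / Real.log w0 :=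
      div_le_div_of_nonneg_left hC.le hlw hlw'
    have h7 : ∑ q ∈ P.filter (fun q : ℕ => u ≤ (q : ℝ) ∧ (q : ℝ) < z),
        (1 / (q : ℝ) + 10 * (1 / (q : ℝ) ^ 2)) ≤
        Real.log (Real.log z) - Real.log (Real.log u) + Real.log (1 + δ) := by
      rw [Finset.sum_add_distrib, ← Finset.mul_sum]
      have h8 : 10 * (2 / (w0 : ℝ)) = 20 / (w0 : ℝ) := by ring
      linarith
    refine (Real.exp_le_exp.2 h7).trans (le_of_eq ?_)
    rw [Real.exp_add, Real.exp_sub, Real.exp_log hlz, Real.exp_log hlu, Real.exp_log (by linarith)]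
    ring

end Pool.Agent.Lib.H59C
end

-- from Lib.H59C.JR
section

/-!
# JR: the theorem of Jurkat and Richert for the density `1/(q-1)`
-/

open Finset

namespace Pool.Agent.Lib.H59C

/-- The constant `A` of the linear sieve (in fact `2 e^γ`). -/
noncomputable def AA : ℝ := Classical.choose linear_sieve

theorem AA_pos : 0 < AA := (Classical.choose_spec linear_sieve).1

/-- **Jurkat-Richert.** From `sap` with `w0` given by `om_gq δ`, `δ` by `linear_sieve ε`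
(`VV P z = VV P w0 * VP (P.filter (w0 ≤ ·)) gq z`), `Q0 = primorial w0`, `z0 = max w0 2`. -/
theorem jr (ε : ℝ) (hε : 0 < ε) : ∃ Q0 : ℕ, 1 ≤ Q0 ∧ ∃ z0 : ℝ, 2 ≤ z0 ∧
    ∀ P : Finset ℕ, (∀ q ∈ P, q.Prime ∧ 3 ≤ q) → ∀ z D : ℝ, z0 ≤ z → z ≤ D →
    ∀ {ι : Type} (S : Finset ι) (w : ι → ℝ) (a : ι → ℕ) (X : ℝ), 0 ≤ X → (∀ i ∈ S, 0 ≤ w i) →
    (Real.log D ≤ 3 * Real.log z →
      sift S w a P z ≤ X * VV P z * (AA / (Real.log D / Real.log z) + ε) +
        remd S w a P z X (D * Q0)) ∧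
    (2 * Real.log z ≤ Real.log D → Real.log D ≤ 4 * Real.log z →
      X * VV P z * (AA * Real.log (Real.log D / Real.log z - 1) / (Real.log D / Real.log z) - ε) -
        remd S w a P z X (D * Q0) ≤ sift S w a P z) := by
  classical
  obtain ⟨δ, hδ, hlin⟩ := (Classical.choose_spec linear_sieve).2 ε hε
  obtain ⟨w0, hw0, hom⟩ := om_gq δ hδ
  refine ⟨primorial w0, Nat.one_le_iff_ne_zero.mpr (primorial_pos w0).ne', max w0 2,
    le_max_right _ _, ?_⟩
  intro P hP z D hz hzD ι S w a X hX hw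
  have hz2 : 2 ≤ z := le_trans (le_max_right _ _) hz
  have hwz : (w0 : ℝ) ≤ z := le_trans (le_max_left _ _) hz
  have hD1 : 1 < D := by linarith
  obtain ⟨P1, hP1⟩ : ∃ P1 : Finset ℕ, P1 = P.filter (fun q => w0 ≤ q) := ⟨_, rfl⟩
  have hP1p : ∀ q ∈ P1, q.Prime ∧ w0 ≤ q := by
    intro q hq
    rw [hP1, mem_filter] at hq
    exact ⟨(hP q hq.1).1, hq.2⟩
  have hg : ∀ q ∈ P, 2 ≤ q ∧ 0 ≤ gq q ∧ gq q < 1 := by
    intro q hq
    have h3 := (hP q hq).2
    have h3' : (3 : ℝ) ≤ q := by exact_mod_cast h3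
    refine ⟨by omega, ?_, ?_⟩
    · unfold gq
      apply div_nonneg zero_le_one
      linarith
    · unfold gq
      rw [div_lt_one (by linarith)]
      linarith
  have hg1 : ∀ q ∈ P1, 2 ≤ q ∧ 0 ≤ gq q ∧ gq q < 1 := by
    intro q hq
    rw [hP1, mem_filter] at hq
    exact hg q hq.1
  have hOm : Om (1 + δ) P1 gq := hom P1 hP1p
  obtain ⟨hup, hlo⟩ := hlin P1 gq hg1 hOm D z hz2 hzD
  obtain ⟨sup, slo⟩ := sap S w a hw P hP w0 z D X hD1 hzD hwz
  rw [← hP1] at sup slo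
  have hVsplit : VV P z = VV P w0 * VP P1 gq z := by
    unfold VV VP
    rw [hP1, filter_filter]
    have e1 : P.filter (fun q : ℕ => (q : ℝ) < (w0 : ℝ)) =
        (P.filter (fun q : ℕ => (q : ℝ) < z)).filter (fun q : ℕ => ¬ w0 ≤ q) := by
      ext q
      simp only [mem_filter, not_le, Nat.cast_lt]
      constructor
      · rintro ⟨h1, h2⟩
        have : (q : ℝ) < w0 := by exact_mod_cast h2
        exact ⟨⟨h1, by linarith⟩, h2⟩
      · rintro ⟨⟨h1, _⟩, h2⟩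
        exact ⟨h1, h2⟩
    have e2 : P.filter (fun q : ℕ => w0 ≤ q ∧ (q : ℝ) < z) =
        (P.filter (fun q : ℕ => (q : ℝ) < z)).filter (fun q : ℕ => w0 ≤ q) := by
      ext q
      simp only [mem_filter]
      tauto
    rw [e1, e2, mul_comm]
    exact (prod_filter_mul_prod_filter_not _ _ _).symm
  have hV0 : 0 ≤ VV P w0 := by
    unfold VV VP
    apply prod_nonneg
    intro q hq
    have := (hg q (mem_filter.mp hq).1).2.2
    linarith
  have hA : AA = Classical.choose linear_sieve := rfl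
  constructor
  · intro h3
    have h4 := hup h3
    rw [← hA] at h4
    refine sup.trans ?_
    have h5 : X * (VV P w0 * SS true D (P1.filter (fun q : ℕ => (q : ℝ) < z)) gq) ≤
        X * VV P z * (AA / (Real.log D / Real.log z) + ε) := by
      rw [hVsplit]
      calc X * (VV P w0 * SS true D (P1.filter (fun q : ℕ => (q : ℝ) < z)) gq)
          ≤ X * (VV P w0 * (VP P1 gq z * (AA / (Real.log D / Real.log z) + ε))) := by
            apply mul_le_mul_of_nonneg_left _ hX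
            exact mul_le_mul_of_nonneg_left h4 hV0
        _ = X * (VV P w0 * VP P1 gq z) * (AA / (Real.log D / Real.log z) + ε) := by ring
    linarith
  · intro h2 h4
    have h5 := hlo h2 h4
    rw [← hA] at h5
    refine le_trans ?_ slo
    have h6 : X * VV P z * (AA * Real.log (Real.log D / Real.log z - 1) /
        (Real.log D / Real.log z) - ε) ≤
        X * (VV P w0 * SS false D (P1.filter (fun q : ℕ => (q : ℝ) < z)) gq) := by
      rw [hVsplit]
      calc X * (VV P w0 * VP P1 gq z) * (AA * Real.log (Real.log D / Real.log z - 1) /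
            (Real.log D / Real.log z) - ε)
          = X * (VV P w0 * (VP P1 gq z * (AA * Real.log (Real.log D / Real.log z - 1) /
            (Real.log D / Real.log z) - ε))) := by ring
        _ ≤ X * (VV P w0 * SS false D (P1.filter (fun q : ℕ => (q : ℝ) < z)) gq) := by
            apply mul_le_mul_of_nonneg_left _ hX
            exact mul_le_mul_of_nonneg_left h5 hV0
    linarith

end Pool.Agent.Lib.H59C
end

-- from Lib.H92G.CDefs
section

/-!
# Definitions for the second half: the modulus, the classes, the allowed intervals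
-/

open Finset

namespace Pool.Agent.Lib.H92G

open Pool.Agent.Lib.H15P


/-- The numbers `a + h`, `h ∈ S`, which are prime to `M`. -/
def Ac (M : ℕ) (S : Finset ℕ) (a : ℕ) : Finset ℕ :=
  (S.filter (fun h => (a + h).Coprime M)).image (fun h => a + h)

/-- `h/φ(h)` for the difference of two elements. -/
noncomputable def Gd (h h' : ℕ) : ℝ := Helper57.G (Nat.dist h h')


/-- The class of `a` is good: not too many forms, `S` = allowed shifts. -/
def okc (w : WG) (M H : ℕ) (S : Finset ℕ) (a : ℕ) : Prop :=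
  (Ac M S a).card ≤ w.KA ∧ (Ac M (Icc 1 H) a).card ≤ w.K

instance (w : WG) (M H : ℕ) (S : Finset ℕ) (a : ℕ) : Decidable (okc w M H S a) := by
  unfold okc; infer_instance


/-- `n + h` is prime to `M` and to the primes of `P`. -/
def rg (w : WG) (M n h : ℕ) : Prop := (n + h).Coprime M ∧ hit w.P (n + h) = ∅

instance (w : WG) (M n h : ℕ) : Decidable (rg w M n h) := by
  unfold rg; infer_instance








end Pool.Agent.Lib.H92G
end
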