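import Pool.Agent.Lib.H1M.RV.M001
import Pool.Agent.Lib.H1M.RV.M003

/-! Merged copies (to shorten the build) of Lib.H15P.BH1, Lib.H15P.BH2, Lib.H15P.BH3, Lib.H15P.BH4, Lib.H18GB.Greedy, Lib.H57C.BH1, Lib.H57M.B1. -/

-- from Lib.H15P.BH1
section

/-!
# Chunk BH1: the alternating binomial sums
-/

open Finset

namespace Pool.Agent.Lib.H15P

theorem TT_zero (r : ℕ) : TT r 0 = 1 := by
  unfold TT
  rw [Finset.sum_range_succ']
  simp

/-- `Σ_{l ≤ 2r} (-1)^l (s+1 choose l) = (s choose 2r)`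
(`Int.alternating_sum_range_choose_eq_choose` or Pascal and induction). -/
theorem TT_succ (r s : ℕ) : TT r (s + 1) = (s.choose (2 * r) : ℝ) := by
  unfold TT
  have key : ∀ m : ℕ, ∑ l ∈ range (m + 1), (-1 : ℝ) ^ l * ((s + 1).choose l : ℝ)
      = (-1) ^ m * (s.choose m : ℝ) := by
    intro m
    induction m with
    | zero => simp
    | succ m ih =>
      rw [Finset.sum_range_succ, ih, Nat.choose_succ_succ]
      push_cast
      ring
  rw [key (2 * r)]
  rw [pow_mul]
  norm_num

theorem TT_nonneg (r s : ℕ) : 0 ≤ TT r s := by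
  cases s with
  | zero => rw [TT_zero]; norm_num
  | succ s => rw [TT_succ]; positivity

theorem TT_le (r s : ℕ) : TT r s ≤ 2 ^ s := by
  cases s with
  | zero => rw [TT_zero]; norm_num
  | succ s =>
    rw [TT_succ]
    have h1 : s.choose (2 * r) ≤ 2 ^ s := Nat.choose_le_two_pow s (2 * r)
    have h2 : ((s.choose (2 * r) : ℕ) : ℝ) ≤ 2 ^ s := by exact_mod_cast h1
    have h3 : (0 : ℝ) ≤ 2 ^ s := by positivity
    calc ((s.choose (2 * r) : ℕ) : ℝ) ≤ 2 ^ s := h2
      _ ≤ 2 ^ (s + 1) := by rw [pow_succ]; linarith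

theorem TT_eq_zero (r s : ℕ) (h1 : 1 ≤ s) (h2 : s ≤ 2 * r) : TT r s = 0 := by
  obtain ⟨t, rfl⟩ : ∃ t, s = t + 1 := ⟨s - 1, by omega⟩
  rw [TT_succ, Nat.choose_eq_zero_of_lt (by omega)]
  norm_num



theorem DB_empty {ι : Type} [Fintype ι] [DecidableEq ι] (q : ι → ℝ) (blk : ι → ℕ)
    (r0 N i : ℕ) (ht : tau q blk r0 i < 1) : DB q blk r0 N i ∅ = 1 := by
  unfold DB
  have h1 : ∏ b ∈ Ico (i + 1) N, TT (r0 + (b - i)) (AB blk b (∅ : Finset ι)).card = 1 := by
    apply Finset.prod_eq_one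
    intro b _
    simp [AB, TT_zero]
  have h2 : TT r0 (AB blk i (∅ : Finset ι)).card = 1 := by simp [AB, TT_zero]
  rw [h1, h2, one_mul, div_self]
  intro h
  linarith

end Pool.Agent.Lib.H15P
end

-- from Lib.H15P.BH2
section

/-!
# Chunk BH2: independence of the blocks
-/

open Finset

namespace Pool.Agent.Lib.H15P

variable {ι : Type} [Fintype ι] [DecidableEq ι]

/-- Bijection `A ↦ (A ∩ s, A \ s)`. -/
theorem bh2_sum_split (s : Finset ι) (H K : Finset ι → ℝ) :
    ∑ A : Finset ι, H (A ∩ s) * K (A \ s)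
      = (∑ B ∈ s.powerset, H B) * (∑ C ∈ sᶜ.powerset, K C) := by
  rw [Finset.sum_mul_sum, ← Finset.sum_product']
  refine Finset.sum_bij' (fun A _ => (A ∩ s, A \ s)) (fun p _ => p.1 ∪ p.2) ?_ ?_ ?_ ?_ ?_
  · intro A _
    simp only [mem_product, mem_powerset]
    refine ⟨Finset.inter_subset_right, ?_⟩
    intro x hx
    simp only [mem_sdiff] at hx
    simp [hx.2]
  · intro p _
    exact mem_univ _
  · intro A _
    ext x
    simp only [mem_union, mem_inter, mem_sdiff]
    tauto
  · rintro ⟨B, C⟩ hp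
    simp only [mem_product, mem_powerset] at hp
    obtain ⟨hB, hC⟩ := hp
    have hC' : ∀ x ∈ C, x ∉ s := fun x hx => by simpa using hC hx
    ext x
    · simp only [mem_inter, mem_union]
      constructor
      · rintro ⟨h | h, hs⟩
        · exact h
        · exact absurd hs (hC' x h)
      · intro h
        exact ⟨Or.inl h, hB h⟩
    · simp only [mem_sdiff, mem_union]
      constructor
      · rintro ⟨h | h, hs⟩
        · exact absurd (hB h) hs
        · exact h
      · intro h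
        exact ⟨Or.inr h, hC' x h⟩
  · intro A _
    rfl

/-- Partial weight. -/
noncomputable def bh2w (q : ι → ℝ) (s A : Finset ι) : ℝ :=
  ∏ i ∈ s, if i ∈ A then q i else 1 - q i

theorem bh2_bw (q : ι → ℝ) (s A : Finset ι) :
    bw q A = bh2w q s (A ∩ s) * bh2w q sᶜ (A \ s) := by
  unfold bw bh2w
  rw [← Finset.prod_mul_prod_compl s (fun i => if i ∈ A then q i else 1 - q i)]
  congr 1
  · apply Finset.prod_congr rfl
    intro i hi
    simp [hi]
  · apply Finset.prod_congr rfl
    intro i hi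
    have : i ∉ s := by simpa using hi
    simp [this]

/-- Independence: a function of `A ∩ s` times a function of `A \ s`. Bijection
`A ↦ (A ∩ s, A \ s)` onto `powerset s ×ˢ powerset sᶜ`, and the weight `bw` is the product of the
weights of the two parts. -/
theorem ex_mul_of_split (q : ι → ℝ) (s : Finset ι) (F G : Finset ι → ℝ)
    (hF : ∀ A, F A = F (A ∩ s)) (hG : ∀ A, G A = G (A \ s)) :
    ex q (fun A => F A * G A) = ex q F * ex q G := by
  have gen : ∀ F G : Finset ι → ℝ, (∀ A, F A = F (A ∩ s)) → (∀ A, G A = G (A \ s)) →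
      ex q (fun A => F A * G A)
        = (∑ B ∈ s.powerset, F B * bh2w q s B) * (∑ C ∈ sᶜ.powerset, G C * bh2w q sᶜ C) := by
    intro F G hF hG
    rw [← bh2_sum_split s (fun B => F B * bh2w q s B) (fun C => G C * bh2w q sᶜ C)]
    unfold ex
    apply Finset.sum_congr rfl
    intro A _
    dsimp only
    rw [bh2_bw q s A, hF A, hG A]
    ring
  have h1 := gen F G hF hG
  have h2 := gen F (fun _ => 1) hF (fun _ => rfl)
  have h3 := gen (fun _ => 1) G (fun _ => rfl) hG
  have h4 := gen (fun _ => 1) (fun _ => 1) (fun _ => rfl) (fun _ => rfl)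
  have h5 : ex q (fun _ => 1) = 1 := ex_one q
  simp only [mul_one, one_mul] at h2 h3 h4
  rw [h5] at h4
  have h2' : ex q F = (∑ B ∈ s.powerset, F B * bh2w q s B) * ∑ C ∈ sᶜ.powerset, bh2w q sᶜ C := h2
  have h3' : ex q G = (∑ B ∈ s.powerset, bh2w q s B) * ∑ C ∈ sᶜ.powerset, G C * bh2w q sᶜ C := h3
  rw [h1, h2', h3']
  calc (∑ B ∈ s.powerset, F B * bh2w q s B) * ∑ C ∈ sᶜ.powerset, G C * bh2w q sᶜ C
      = (∑ B ∈ s.powerset, F B * bh2w q s B) * (∑ C ∈ sᶜ.powerset, G C * bh2w q sᶜ C) * 1 := by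
        ring
    _ = _ := by rw [h4]; ring

/-- Induction with `ex_mul_of_split` (`s` = one block). -/
theorem ex_prod_blocks (q : ι → ℝ) (blk : ι → ℕ) (F : ℕ → Finset ι → ℝ) (T : Finset ℕ) :
    ex q (fun A => ∏ b ∈ T, F b (AB blk b A)) = ∏ b ∈ T, ex q (fun A => F b (AB blk b A)) := by
  induction T using Finset.induction_on with
  | empty => simpa using ex_one q
  | insert b T hb ih =>
    simp only [Finset.prod_insert hb]
    rw [← ih]
    refine ex_mul_of_split q (univ.filter (fun i => blk i = b)) (fun A => F b (AB blk b A))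
      (fun A => ∏ b ∈ T, F b (AB blk b A)) ?_ ?_
    · intro A
      congr 1
      ext x
      simp only [AB, mem_filter, mem_inter, mem_univ, true_and]
      tauto
    · intro A
      apply Finset.prod_congr rfl
      intro c hc
      have hcb : c ≠ b := fun h => hb (h ▸ hc)
      congr 1
      ext x
      simp only [AB, mem_filter, mem_sdiff, mem_univ, true_and]
      constructor
      · rintro ⟨h1, h2⟩
        exact ⟨⟨h1, fun h => hcb (h2 ▸ h)⟩, h2⟩
      · rintro ⟨⟨h1, _⟩, h2⟩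
        exact ⟨h1, h2⟩

end Pool.Agent.Lib.H15P
end

-- from Lib.H15P.BH3
section

/-!
# Chunk BH3: moments of the factor of one block
-/

open Finset

namespace Pool.Agent.Lib.H15P

theorem bh3_pow_add (S y : ℝ) (hS : 0 ≤ S) (hy : 0 ≤ y) (s : ℕ) :
    S ^ (s + 1) + (s + 1) * y * S ^ s ≤ (S + y) ^ (s + 1) := by
  induction s with
  | zero => simp
  | succ s ih =>
    have h1 : (S + y) * (S ^ (s + 1) + (s + 1) * y * S ^ s) ≤ (S + y) * (S + y) ^ (s + 1) :=
      mul_le_mul_of_nonneg_left ih (by positivity)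
    have h2 : 0 ≤ ((s : ℝ) + 1) * y ^ 2 * S ^ s := by positivity
    have h3 : (S + y) * (S ^ (s + 1) + (s + 1) * y * S ^ s)
        = S ^ (s + 1 + 1) + ((s : ℝ) + 1 + 1) * y * S ^ (s + 1)
          + ((s : ℝ) + 1) * y ^ 2 * S ^ s := by ring
    have h4 : (S + y) ^ (s + 1 + 1) = (S + y) * (S + y) ^ (s + 1) := by ring
    push_cast
    rw [h4]
    linarith

/-- Elementary symmetric sums: `e_s ≤ (Σ y)^s/s!`. -/
theorem bh3_esymm_le {ι : Type} [DecidableEq ι] (y : ι → ℝ) (hy : ∀ i, 0 ≤ y i)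
    (B : Finset ι) : ∀ s : ℕ, ∑ C ∈ B.powersetCard s, ∏ i ∈ C, y i
      ≤ (∑ i ∈ B, y i) ^ s / (s.factorial : ℝ) := by
  induction B using Finset.induction_on with
  | empty =>
    intro s
    cases s with
    | zero => simp
    | succ s => rw [Finset.powersetCard_eq_empty.mpr (by simp)]; simp
  | insert a B ha ih =>
    intro s
    cases s with
    | zero => simp
    | succ s =>
      rw [Finset.powersetCard_succ_insert ha, Finset.sum_union, Finset.sum_image,
        Finset.sum_insert ha]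
      · have h1 := ih (s + 1)
        have h2 := ih s
        have hS : 0 ≤ ∑ i ∈ B, y i := Finset.sum_nonneg (fun i _ => hy i)
        have h3 : ∑ C ∈ B.powersetCard s, ∏ i ∈ insert a C, y i
            = y a * ∑ C ∈ B.powersetCard s, ∏ i ∈ C, y i := by
          rw [Finset.mul_sum]
          apply Finset.sum_congr rfl
          intro C hC
          rw [Finset.prod_insert]
          intro h
          exact ha ((Finset.mem_powersetCard.mp hC).1 h)
        rw [h3]
        have h4 := mul_le_mul_of_nonneg_left h2 (hy a)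
        have h5 := bh3_pow_add (∑ i ∈ B, y i) (y a) hS (hy a) s
        have hf : (0 : ℝ) < (s.factorial : ℝ) := by exact_mod_cast s.factorial_pos
        have hs1 : (0 : ℝ) < (s : ℝ) + 1 := by positivity
        have h6 : (((s + 1).factorial : ℕ) : ℝ) = ((s : ℝ) + 1) * s.factorial := by
          rw [Nat.factorial_succ]; push_cast; ring
        rw [h6] at h1 ⊢
        calc ∑ C ∈ B.powersetCard (s + 1), ∏ i ∈ C, y i
              + y a * ∑ C ∈ B.powersetCard s, ∏ i ∈ C, y i
            ≤ (∑ i ∈ B, y i) ^ (s + 1) / (((s : ℝ) + 1) * s.factorial)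
              + y a * ((∑ i ∈ B, y i) ^ s / s.factorial) := add_le_add h1 h4
          _ = ((∑ i ∈ B, y i) ^ (s + 1) + (s + 1) * y a * (∑ i ∈ B, y i) ^ s)
              / (((s : ℝ) + 1) * s.factorial) := by
              field_simp
          _ ≤ (y a + ∑ i ∈ B, y i) ^ (s + 1) / (((s : ℝ) + 1) * s.factorial) := by
              rw [add_comm (y a)]
              apply div_le_div_of_nonneg_right h5
              positivity
      · intro C hC D hD hCD
        have hC' : a ∉ C := fun h => ha ((Finset.mem_powersetCard.mp hC).1 h)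
        have hD' : a ∉ D := fun h => ha ((Finset.mem_powersetCard.mp hD).1 h)
        have := congrArg (fun X => X.erase a) hCD
        simpa [Finset.erase_insert hC', Finset.erase_insert hD'] using this
      · rw [Finset.disjoint_left]
        intro C hC hC2
        obtain ⟨D, _, rfl⟩ := Finset.mem_image.mp hC2
        exact ha ((Finset.mem_powersetCard.mp hC).1 (Finset.mem_insert_self a D))

variable {ι : Type} [Fintype ι] [DecidableEq ι]

/-- Expectation of a function of the part in `B`. -/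
theorem bh3_ex_inter (q : ι → ℝ) (B : Finset ι) (f : Finset ι → ℝ) :
    ex q (fun A => f (A ∩ B)) = ∑ C ∈ B.powerset, f C * bh2w q B C := by
  have h1 := bh2_sum_split B (fun C => f C * bh2w q B C) (fun C => bh2w q Bᶜ C)
  have h2 : ∑ C ∈ Bᶜ.powerset, bh2w q Bᶜ C = 1 := by
    have h3 := Finset.prod_add (fun i => q i) (fun i => 1 - q i) Bᶜ
    have h4 : ∏ i ∈ Bᶜ, (q i + (1 - q i)) = 1 := by
      apply Finset.prod_eq_one
      intro i _
      ring
    rw [h4] at h3
    rw [h3]
    apply Finset.sum_congr rfl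
    intro C hC
    rw [Finset.mem_powerset] at hC
    unfold bh2w
    rw [← Finset.prod_sdiff hC, mul_comm]
    congr 1
    · apply Finset.prod_congr rfl
      intro i hi
      simp [hi]
    · apply Finset.prod_congr rfl
      intro i hi
      have : i ∉ C := (Finset.mem_sdiff.mp hi).2
      simp [this]
  rw [h2, mul_one] at h1
  rw [← h1]
  unfold ex
  apply Finset.sum_congr rfl
  intro A _
  rw [bh2_bw q B A]
  ring

theorem bh3_AB (blk : ι → ℕ) (b : ℕ) (A : Finset ι) :
    AB blk b A = A ∩ univ.filter (fun i => blk i = b) := by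
  ext x
  simp [AB]

/-- `P(|A ∩ block| = s) = p0 e_s(q/(1-q)) ≤ p0 σ^s/s!`. -/
theorem ex_card_eq_le (q : ι → ℝ) (blk : ι → ℕ) (b : ℕ) (σ : ℝ) (h0 : ∀ i, 0 ≤ q i)
    (h1 : ∀ i, q i ≤ 1 / 2)
    (hσ : ∑ i ∈ univ.filter (fun i => blk i = b), q i / (1 - q i) ≤ σ) (s : ℕ) :
    ex q (fun A => if (AB blk b A).card = s then 1 else 0)
      ≤ p0 q blk b * (σ ^ s / s.factorial) := by
  have hq : ∀ i, 0 < 1 - q i := fun i => by linarith [h1 i]
  have hy : ∀ i, 0 ≤ q i / (1 - q i) := fun i => div_nonneg (h0 i) (hq i).le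
  simp only [bh3_AB]
  rw [bh3_ex_inter q (univ.filter (fun i => blk i = b)) (fun C => if C.card = s then 1 else 0)]
  set B := univ.filter (fun i => blk i = b) with hB
  have e1 : ∑ C ∈ B.powerset, (if C.card = s then (1 : ℝ) else 0) * bh2w q B C
      = ∑ C ∈ B.powersetCard s, bh2w q B C := by
    rw [Finset.powersetCard_eq_filter, Finset.sum_filter]
    apply Finset.sum_congr rfl
    intro C _
    split_ifs <;> simp
  have e2 : ∀ C ∈ B.powersetCard s, bh2w q B C
      = p0 q blk b * ∏ i ∈ C, q i / (1 - q i) := by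
    intro C hC
    have hC' : C ⊆ B := (Finset.mem_powersetCard.mp hC).1
    unfold bh2w p0
    rw [← hB, ← Finset.prod_sdiff hC', ← Finset.prod_sdiff hC' (f := fun i => 1 - q i), mul_assoc,
      ← Finset.prod_mul_distrib]
    congr 1
    · apply Finset.prod_congr rfl
      intro i hi
      have : i ∉ C := (Finset.mem_sdiff.mp hi).2
      simp [this]
    · apply Finset.prod_congr rfl
      intro i hi
      rw [if_pos hi, mul_div_cancel₀]
      exact (hq i).ne'
  rw [e1, Finset.sum_congr rfl e2, ← Finset.mul_sum]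
  have hp : 0 ≤ p0 q blk b := Finset.prod_nonneg (fun i _ => (hq i).le)
  apply mul_le_mul_of_nonneg_left _ hp
  refine (bh3_esymm_le (fun i => q i / (1 - q i)) hy B s).trans ?_
  apply div_le_div_of_nonneg_right _ (by positivity)
  exact pow_le_pow_left₀ (Finset.sum_nonneg (fun i _ => hy i)) hσ s

theorem ex_card_zero (q : ι → ℝ) (blk : ι → ℕ) (b : ℕ) :
    ex q (fun A => if (AB blk b A).card = 0 then 1 else 0) = p0 q blk b := by
  simp only [bh3_AB]
  rw [bh3_ex_inter q (univ.filter (fun i => blk i = b)) (fun C => if C.card = 0 then 1 else 0)]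
  rw [Finset.sum_eq_single ∅]
  · simp [bh2w, p0]
  · intro C _ hC
    rw [if_neg, zero_mul]
    simpa using hC
  · intro h
    exact absurd (Finset.empty_mem_powerset _) h

/-- `TT = 1` at `0`, `0` at `1, .., 2r`, at most `2^s` at `s > 2r`, and `(2^s)^a ≤ 16^s`. -/
theorem ex_TT_pow_le (q : ι → ℝ) (blk : ι → ℕ) (b r : ℕ) (σ : ℝ) (h0 : ∀ i, 0 ≤ q i)
    (h1 : ∀ i, q i ≤ 1 / 2)
    (hσ : ∑ i ∈ univ.filter (fun i => blk i = b), q i / (1 - q i) ≤ σ)
    (a : ℕ) (ha1 : 1 ≤ a) (ha : a ≤ 4) :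
    ex q (fun A => TT r (AB blk b A).card ^ a)
      ≤ p0 q blk b *
        (1 + ∑ s ∈ Ioc (2 * r) (Fintype.card ι), (16 * σ) ^ s / (s.factorial : ℝ)) := by
  have h1' : ∀ i, q i ≤ 1 := fun i => by linarith [h1 i]
  have hpt : ∀ A : Finset ι, TT r (AB blk b A).card ^ a
      ≤ (if (AB blk b A).card = 0 then (1 : ℝ) else 0)
        + ∑ s ∈ Ioc (2 * r) (Fintype.card ι),
          (16 : ℝ) ^ s * (if (AB blk b A).card = s then (1 : ℝ) else 0) := by
    intro A
    have hcard : (AB blk b A).card ≤ Fintype.card ι := Finset.card_le_univ _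
    have hnn : 0 ≤ ∑ s ∈ Ioc (2 * r) (Fintype.card ι),
          (16 : ℝ) ^ s * (if (AB blk b A).card = s then (1 : ℝ) else 0) := by
      apply Finset.sum_nonneg
      intro s _
      split_ifs <;> positivity
    generalize (AB blk b A).card = t at *
    rcases Nat.eq_zero_or_pos t with h | h
    · subst h
      rw [TT_zero, if_pos rfl, one_pow]
      linarith
    · rw [if_neg (by omega), zero_add]
      rcases le_or_gt t (2 * r) with h2 | h2
      · rw [TT_eq_zero r t h h2, zero_pow (by omega)]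
        exact hnn
      · have hmem : t ∈ Ioc (2 * r) (Fintype.card ι) := Finset.mem_Ioc.mpr ⟨h2, hcard⟩
        have hterm : (16 : ℝ) ^ t * (if t = t then (1 : ℝ) else 0)
            ≤ ∑ s ∈ Ioc (2 * r) (Fintype.card ι),
              (16 : ℝ) ^ s * (if t = s then (1 : ℝ) else 0) := by
          apply Finset.single_le_sum (f := fun s => (16 : ℝ) ^ s * (if t = s then (1 : ℝ) else 0))
            _ hmem
          intro s _
          split_ifs <;> positivity
        rw [if_pos rfl, mul_one] at hterm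
        refine le_trans ?_ hterm
        calc TT r t ^ a ≤ (2 ^ t) ^ a := pow_le_pow_left₀ (TT_nonneg r t) (TT_le r t) a
          _ ≤ (2 ^ t) ^ 4 := by
              apply pow_le_pow_right₀ _ ha
              exact one_le_pow₀ (by norm_num)
          _ = 16 ^ t := by rw [← pow_mul, mul_comm, pow_mul]; norm_num
  refine (ex_mono q h0 h1' _ _ hpt).trans ?_
  rw [ex_add]
  have hsum : ex q (fun A => ∑ s ∈ Ioc (2 * r) (Fintype.card ι),
      (16 : ℝ) ^ s * (if (AB blk b A).card = s then (1 : ℝ) else 0))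
      = ∑ s ∈ Ioc (2 * r) (Fintype.card ι), (16 : ℝ) ^ s *
        ex q (fun A => if (AB blk b A).card = s then (1 : ℝ) else 0) := by
    unfold ex
    simp only [Finset.mul_sum, Finset.sum_mul]
    rw [Finset.sum_comm]
    apply Finset.sum_congr rfl
    intro s _
    apply Finset.sum_congr rfl
    intro A _
    ring
  rw [hsum, ex_card_zero, mul_add, mul_one, Finset.mul_sum]
  apply add_le_add le_rfl
  apply Finset.sum_le_sum
  intro s _
  have := mul_le_mul_of_nonneg_left (ex_card_eq_le q blk b σ h0 h1 hσ s)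
    (by positivity : (0 : ℝ) ≤ 16 ^ s)
  refine this.trans (le_of_eq ?_)
  rw [mul_pow]
  ring

theorem bh3_geom (m S : ℕ) : ∑ s ∈ Ioc m S, (1 / 8 : ℝ) ^ s ≤ (1 / 8) ^ m := by
  rcases le_or_gt m S with h | h
  · have : ∑ s ∈ Ioc m S, (1 / 8 : ℝ) ^ s ≤ (1 / 8) ^ m - (1 / 8) ^ S := by
      induction S, h using Nat.le_induction with
      | base => simp
      | succ S hS ih =>
        have e : Ioc m (S + 1) = insert (S + 1) (Ioc m S) := by
          ext x
          simp only [Finset.mem_Ioc, Finset.mem_insert]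
          omega
        rw [e, Finset.sum_insert (by simp)]
        have h8 : (0 : ℝ) < (1 / 8) ^ S := by positivity
        have h9 : (1 / 8 : ℝ) ^ (S + 1) = (1 / 8) ^ S * (1 / 8) := pow_succ _ _
        rw [h9]
        linarith
    have h8 : (0 : ℝ) < (1 / 8) ^ S := by positivity
    linarith
  · rw [Finset.Ioc_eq_empty (by omega)]
    simp

/-- For every `σ` the tails of the exponential series are small: for `s ≥ 2 r0 ≥ 200 σ`,
`(16 σ)^s/s! ≤ (16 e σ/s)^s ≤ 4^(-s)`. -/
theorem exists_r0 (σ : ℝ) (hσ : 0 ≤ σ) : ∃ r0 : ℕ, ∀ c S : ℕ,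
    ∑ s ∈ Ioc (2 * (r0 + c)) S, (16 * σ) ^ s / (s.factorial : ℝ) ≤ (1 / 4) ^ (c + 1) := by
  have ht := FloorSemiring.tendsto_pow_div_factorial_atTop (8 * (16 * σ))
  have hev := (ht.eventually (gt_mem_nhds (show (0 : ℝ) < 1 by norm_num)))
  obtain ⟨s0, hs0⟩ := Filter.eventually_atTop.mp hev
  refine ⟨s0 + 1, ?_⟩
  intro c S
  have hle : ∀ s ∈ Ioc (2 * (s0 + 1 + c)) S,
      (16 * σ) ^ s / (s.factorial : ℝ) ≤ (1 / 8) ^ s := by
    intro s hs
    rw [Finset.mem_Ioc] at hs
    have h1 := (hs0 s (by omega)).le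
    rw [mul_pow] at h1
    have h8 : (0 : ℝ) < 8 ^ s := by positivity
    rw [one_div, inv_pow]
    rw [← div_le_one (by positivity)]
    calc (16 * σ) ^ s / (s.factorial : ℝ) / (8 ^ s)⁻¹
        = 8 ^ s * (16 * σ) ^ s / (s.factorial : ℝ) := by
          rw [div_inv_eq_mul]; ring
      _ ≤ 1 := h1
  calc ∑ s ∈ Ioc (2 * (s0 + 1 + c)) S, (16 * σ) ^ s / (s.factorial : ℝ)
      ≤ ∑ s ∈ Ioc (2 * (s0 + 1 + c)) S, (1 / 8 : ℝ) ^ s := Finset.sum_le_sum hle
    _ ≤ (1 / 8) ^ (2 * (s0 + 1 + c)) := bh3_geom _ _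
    _ ≤ (1 / 8) ^ (c + 1) :=
        pow_le_pow_of_le_one (by norm_num) (by norm_num) (by omega)
    _ ≤ (1 / 4) ^ (c + 1) := pow_le_pow_left₀ (by norm_num) (by norm_num) _

end Pool.Agent.Lib.H15P
end

-- from Lib.H15P.BH4
section

/-!
# Chunk BH4: the one form functions
-/

open Finset

namespace Pool.Agent.Lib.H15P

variable {ι : Type} [Fintype ι] [DecidableEq ι]

/-- The common hypotheses. -/
structure Blocks (q : ι → ℝ) (blk : ι → ℕ) (σ : ℝ) (r0 n N : ℕ) : Prop where
  q0 : ∀ i, 0 ≤ q i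
  q1 : ∀ i, q i ≤ 1 / 2
  sum : ∀ b, ∑ i ∈ univ.filter (fun i => blk i = b), q i / (1 - q i) ≤ σ
  r0 : ∀ c S : ℕ,
    ∑ s ∈ Ioc (2 * (r0 + c)) S, (16 * σ) ^ s / (s.factorial : ℝ) ≤ (1 / 4) ^ (c + 1)
  nN : n ≤ N
  small : ∀ b, b < n → p0 q blk b ≤ 1 / 4

theorem bh4_q1 {q : ι → ℝ} {blk : ι → ℕ} {σ : ℝ} {r0 n N : ℕ} (h : Blocks q blk σ r0 n N) :
    ∀ i, q i ≤ 1 := fun i => by linarith [h.q1 i]

theorem bh4_p0_nonneg {q : ι → ℝ} {blk : ι → ℕ} {σ : ℝ} {r0 n N : ℕ}
    (h : Blocks q blk σ r0 n N) (b : ℕ) : 0 ≤ p0 q blk b :=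
  Finset.prod_nonneg (fun i _ => by linarith [h.q1 i])

theorem bh4_p0_le_one {q : ι → ℝ} {blk : ι → ℕ} {σ : ℝ} {r0 n N : ℕ}
    (h : Blocks q blk σ r0 n N) (b : ℕ) : p0 q blk b ≤ 1 :=
  Finset.prod_le_one (fun i _ => by linarith [h.q1 i]) (fun i _ => by linarith [h.q0 i])

theorem bh4_pow_le (q : ι → ℝ) (blk : ι → ℕ) (σ : ℝ) (r0 n N : ℕ) (h : Blocks q blk σ r0 n N)
    (b c a : ℕ) (ha1 : 1 ≤ a) (ha : a ≤ 4) :
    ex q (fun A => TT (r0 + c) (AB blk b A).card ^ a)
      ≤ p0 q blk b * (1 + (1 / 4) ^ (c + 1)) := by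
  refine (ex_TT_pow_le q blk b (r0 + c) σ h.q0 h.q1 (h.sum b) a ha1 ha).trans ?_
  apply mul_le_mul_of_nonneg_left _ (bh4_p0_nonneg h b)
  have := h.r0 c (Fintype.card ι)
  linarith

/-- `p0 ≤ tau ≤ p0 (1 + 1/4) ≤ 1/2`. -/
theorem tau_le (q : ι → ℝ) (blk : ι → ℕ) (σ : ℝ) (r0 n N : ℕ) (h : Blocks q blk σ r0 n N)
    (i : ℕ) (hi : i < n) : 0 ≤ tau q blk r0 i ∧ tau q blk r0 i ≤ 1 / 2 := by
  constructor
  · exact ex_nonneg q h.q0 (bh4_q1 h) _ (fun A => TT_nonneg _ _)
  · have h1 := bh4_pow_le q blk σ r0 n N h i 0 1 le_rfl (by norm_num)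
    simp only [pow_one, add_zero, zero_add] at h1
    unfold tau
    have h2 := h.small i hi
    have h3 := bh4_p0_nonneg h i
    linarith

theorem bh4_prod_le (i k : ℕ) :
    ∏ b ∈ Ico i (i + k), (1 + (1 / 4 : ℝ) ^ (b - i + 1)) ≤ 2 - (1 / 4) ^ k := by
  induction k with
  | zero => simp; norm_num
  | succ k ih =>
    rw [← add_assoc, Finset.prod_Ico_succ_top (by omega)]
    have e : i + k - i + 1 = k + 1 := by omega
    rw [e]
    have h4 : (0 : ℝ) < (1 / 4) ^ k := by positivity
    have h5 : (1 / 4 : ℝ) ^ (k + 1) = (1 / 4) ^ k * (1 / 4) := pow_succ _ _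
    rw [h5]
    have h6 : (0 : ℝ) ≤ 1 + (1 / 4) ^ k * (1 / 4) := by positivity
    have h7 := mul_le_mul_of_nonneg_right ih h6
    refine h7.trans ?_
    nlinarith [mul_pos h4 h4]

theorem bh4_prod_le' (i N : ℕ) :
    ∏ b ∈ Ico i N, (1 + (1 / 4 : ℝ) ^ (b - i + 1)) ≤ 2 := by
  rcases le_or_gt i N with h | h
  · obtain ⟨k, rfl⟩ := Nat.exists_eq_add_of_le h
    have h1 := bh4_prod_le i k
    have h4 : (0 : ℝ) < (1 / 4) ^ k := by positivity
    linarith
  · rw [Finset.Ico_eq_empty (by omega)]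
    norm_num

theorem bh4_prod_ex (q : ι → ℝ) (blk : ι → ℕ) (σ : ℝ) (r0 n N : ℕ) (h : Blocks q blk σ r0 n N)
    (i j a : ℕ) (hij : i ≤ j) (ha1 : 1 ≤ a) (ha : a ≤ 4) :
    ∏ b ∈ Ico j N, ex q (fun A => TT (r0 + (b - i)) (AB blk b A).card ^ a)
      ≤ 2 * ∏ b ∈ Ico j N, p0 q blk b := by
  calc ∏ b ∈ Ico j N, ex q (fun A => TT (r0 + (b - i)) (AB blk b A).card ^ a)
      ≤ ∏ b ∈ Ico j N, (p0 q blk b * (1 + (1 / 4 : ℝ) ^ (b - j + 1))) := by
        apply Finset.prod_le_prod
        · intro b _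
          exact ex_nonneg q h.q0 (bh4_q1 h) _ (fun A => pow_nonneg (TT_nonneg _ _) _)
        · intro b hb
          rw [Finset.mem_Ico] at hb
          refine (bh4_pow_le q blk σ r0 n N h b (b - i) a ha1 ha).trans ?_
          apply mul_le_mul_of_nonneg_left _ (bh4_p0_nonneg h b)
          have : (1 / 4 : ℝ) ^ (b - i + 1) ≤ (1 / 4) ^ (b - j + 1) :=
            pow_le_pow_of_le_one (by norm_num) (by norm_num) (by omega)
          linarith
    _ = (∏ b ∈ Ico j N, p0 q blk b) * ∏ b ∈ Ico j N, (1 + (1 / 4 : ℝ) ^ (b - j + 1)) :=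
        Finset.prod_mul_distrib
    _ ≤ (∏ b ∈ Ico j N, p0 q blk b) * 2 :=
        mul_le_mul_of_nonneg_left (bh4_prod_le' j N)
          (Finset.prod_nonneg (fun b _ => bh4_p0_nonneg h b))
    _ = 2 * ∏ b ∈ Ico j N, p0 q blk b := mul_comm _ _


/-- Factorization of the moments of `DB`. -/
theorem bh4_ex_DB (q : ι → ℝ) (blk : ι → ℕ) (r0 N i a : ℕ) :
    ex q (fun A => DB q blk r0 N i A ^ a)
      = ex q (fun A => ((TT r0 (AB blk i A).card - tau q blk r0 i) / (1 - tau q blk r0 i)) ^ a)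
        * ∏ b ∈ Ico (i + 1) N, ex q (fun A => TT (r0 + (b - i)) (AB blk b A).card ^ a) := by
  have h1 := ex_prod_blocks q blk
    (fun b A => if b = i then ((TT r0 A.card - tau q blk r0 i) / (1 - tau q blk r0 i)) ^ a
      else TT (r0 + (b - i)) A.card ^ a) (insert i (Ico (i + 1) N))
  have hni : i ∉ Ico (i + 1) N := by simp
  simp only [Finset.prod_insert hni, if_true] at h1
  have hb : ∀ b ∈ Ico (i + 1) N, b ≠ i := by
    intro b hb
    rw [Finset.mem_Ico] at hb
    omega
  have e2 : ∏ b ∈ Ico (i + 1) N, ex q (fun A =>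
      if b = i then ((TT r0 (AB blk b A).card - tau q blk r0 i) / (1 - tau q blk r0 i)) ^ a
      else TT (r0 + (b - i)) (AB blk b A).card ^ a)
      = ∏ b ∈ Ico (i + 1) N, ex q (fun A => TT (r0 + (b - i)) (AB blk b A).card ^ a) := by
    apply Finset.prod_congr rfl
    intro b hb'
    simp only [if_neg (hb b hb')]
  rw [e2] at h1
  rw [← h1]
  congr 1
  funext A
  unfold DB
  rw [mul_pow, mul_comm, ← Finset.prod_pow]
  congr 1
  apply Finset.prod_congr rfl
  intro b hb'
  rw [if_neg (hb b hb')]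

theorem bh4_bound (q : ι → ℝ) (blk : ι → ℕ) (σ : ℝ) (r0 n N : ℕ)
    (h : Blocks q blk σ r0 n N) (i a : ℕ) (ha1 : 1 ≤ a) (ha : a ≤ 4) (c : ℝ) (hc : 0 ≤ c)
    (hb : ex q (fun A => ((TT r0 (AB blk i A).card - tau q blk r0 i) /
      (1 - tau q blk r0 i)) ^ a) ≤ c) :
    ex q (fun A => DB q blk r0 N i A ^ a) ≤ c * (2 * ∏ b ∈ Ico (i + 1) N, p0 q blk b) := by
  rw [bh4_ex_DB]
  apply mul_le_mul hb (bh4_prod_ex q blk σ r0 n N h i (i + 1) a (by omega) ha1 ha) _ hc
  exact Finset.prod_nonneg (fun b _ => ex_nonneg q h.q0 (bh4_q1 h) _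
    (fun A => pow_nonneg (TT_nonneg _ _) _))

/-- `E D_i^2 = ∏_{b > i} E T_b^2 * E(T_i - tau)^2/(1 - tau)^2 ≤ 2 ∏ p0 * (1/2) * 4`. -/
theorem ex_DB_sq_le (q : ι → ℝ) (blk : ι → ℕ) (σ : ℝ) (r0 n N : ℕ)
    (h : Blocks q blk σ r0 n N) (i : ℕ) (hi : i < n) :
    ex q (fun A => DB q blk r0 N i A ^ 2) ≤ 4 * ∏ b ∈ Ico (i + 1) N, p0 q blk b := by
  obtain ⟨ht0, ht1⟩ := tau_le q blk σ r0 n N h i hi
  have key : ex q (fun A => ((TT r0 (AB blk i A).card - tau q blk r0 i) /
      (1 - tau q blk r0 i)) ^ 2) ≤ 2 := by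
    set τ := tau q blk r0 i with hτ
    have e1 : (fun A => ((TT r0 (AB blk i A).card - τ) / (1 - τ)) ^ 2)
        = fun A => (1 / (1 - τ) ^ 2) * (TT r0 (AB blk i A).card ^ 2
          + ((-2 * τ) * TT r0 (AB blk i A).card + τ ^ 2 * 1)) := by
      funext A
      have : (1 - τ) ≠ 0 := by intro h0; linarith
      field_simp
      ring
    rw [e1, ex_const_mul, ex_add, ex_add, ex_const_mul, ex_const_mul, ex_one]
    have e2 : ex q (fun A => TT r0 (AB blk i A).card) = τ := rfl
    rw [e2]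
    have h2 := bh4_pow_le q blk σ r0 n N h i 0 2 (by norm_num) (by norm_num)
    simp only [add_zero, zero_add, pow_one] at h2
    have h3 := h.small i hi
    have h4 := bh4_p0_nonneg h i
    have h5 : ex q (fun A => TT r0 (AB blk i A).card ^ 2) ≤ 5 / 16 := by linarith
    have h6 : ex q (fun A => TT r0 (AB blk i A).card ^ 2) + (-2 * τ * τ + τ ^ 2 * 1) ≤ 5 / 16 := by
      nlinarith
    have h7 : 1 / (1 - τ) ^ 2 ≤ 4 := by
      rw [div_le_iff₀ (by nlinarith)]
      nlinarith
    have h8 : 0 ≤ 1 / (1 - τ) ^ 2 := by positivity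
    nlinarith
  have := bh4_bound q blk σ r0 n N h i 2 (by norm_num) (by norm_num) 2 (by norm_num) key
  linarith

theorem bh4_four (x τ : ℝ) (hx : 0 ≤ x) (hτ : 0 ≤ τ) : (x - τ) ^ 4 ≤ x ^ 4 + τ ^ 4 := by
  have h1 : (x - τ) ^ 2 ≤ x ^ 2 + τ ^ 2 := by nlinarith [mul_nonneg hx hτ]
  rcases le_total τ x with h | h
  · have : (x - τ) ^ 4 ≤ x ^ 4 := pow_le_pow_left₀ (by linarith) (by linarith) 4
    have : 0 ≤ τ ^ 4 := by positivity
    linarith
  · have h2 : (τ - x) ^ 4 ≤ τ ^ 4 := pow_le_pow_left₀ (by linarith) (by linarith) 4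
    have h3 : (x - τ) ^ 4 = (τ - x) ^ 4 := by ring
    have : 0 ≤ x ^ 4 := by positivity
    linarith

/-- `E D_i^4 ≤ 2 ∏ p0 * 8 (1/2 + 1/16) * 16 = 144 ∏ p0`. -/
theorem ex_DB_four_le (q : ι → ℝ) (blk : ι → ℕ) (σ : ℝ) (r0 n N : ℕ)
    (h : Blocks q blk σ r0 n N) (i : ℕ) (hi : i < n) :
    ex q (fun A => DB q blk r0 N i A ^ 4) ≤ 144 * ∏ b ∈ Ico (i + 1) N, p0 q blk b := by
  obtain ⟨ht0, ht1⟩ := tau_le q blk σ r0 n N h i hi
  have key : ex q (fun A => ((TT r0 (AB blk i A).card - tau q blk r0 i) /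
      (1 - tau q blk r0 i)) ^ 4) ≤ 6 := by
    set τ := tau q blk r0 i with hτ
    have hpt : ∀ A, ((TT r0 (AB blk i A).card - τ) / (1 - τ)) ^ 4
        ≤ 16 * (TT r0 (AB blk i A).card ^ 4 + 1 / 16 * 1) := by
      intro A
      have h1 := bh4_four (TT r0 (AB blk i A).card) τ (TT_nonneg _ _) ht0
      have h2 : τ ^ 4 ≤ 1 / 16 := by
        calc τ ^ 4 ≤ (1 / 2) ^ 4 := pow_le_pow_left₀ ht0 ht1 4
          _ = 1 / 16 := by norm_num
      have h3 : 1 / 16 ≤ (1 - τ) ^ 4 := by
        calc (1 / 16 : ℝ) = (1 / 2) ^ 4 := by norm_num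
          _ ≤ (1 - τ) ^ 4 := pow_le_pow_left₀ (by norm_num) (by linarith) 4
      have h4 : 0 ≤ TT r0 (AB blk i A).card ^ 4 := pow_nonneg (TT_nonneg _ _) _
      rw [div_pow, div_le_iff₀ (by linarith)]
      have h5 : TT r0 (AB blk i A).card ^ 4 + 1 / 16 * 1
          ≤ 16 * (TT r0 (AB blk i A).card ^ 4 + 1 / 16 * 1) * (1 - τ) ^ 4 := by
        have h6 : 0 ≤ TT r0 (AB blk i A).card ^ 4 + 1 / 16 * 1 := by positivity
        nlinarith
      linarith
    refine (ex_mono q h.q0 (bh4_q1 h) _ _ hpt).trans ?_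
    rw [ex_const_mul, ex_add, ex_const_mul, ex_one]
    have h2 := bh4_pow_le q blk σ r0 n N h i 0 4 (by norm_num) (by norm_num)
    simp only [add_zero, zero_add, pow_one] at h2
    have h3 := h.small i hi
    have h4 := bh4_p0_nonneg h i
    linarith
  have := bh4_bound q blk σ r0 n N h i 4 (by norm_num) (by norm_num) 6 (by norm_num) key
  have hp : 0 ≤ ∏ b ∈ Ico (i + 1) N, p0 q blk b :=
    Finset.prod_nonneg (fun b _ => bh4_p0_nonneg h b)
  linarith

theorem bh4_centered (q : ι → ℝ) (blk : ι → ℕ) (r0 i : ℕ) :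
    ex q (fun A => (TT r0 (AB blk i A).card - tau q blk r0 i) / (1 - tau q blk r0 i)) = 0 := by
  have e1 : (fun A => (TT r0 (AB blk i A).card - tau q blk r0 i) / (1 - tau q blk r0 i))
      = fun A => (1 / (1 - tau q blk r0 i)) * (TT r0 (AB blk i A).card
        + (-tau q blk r0 i) * 1) := by
    funext A
    ring
  rw [e1, ex_const_mul, ex_add, ex_const_mul, ex_one]
  have e2 : ex q (fun A => TT r0 (AB blk i A).card) = tau q blk r0 i := rfl
  rw [e2]
  ring

theorem bh4_orth (q : ι → ℝ) (blk : ι → ℕ) (r0 N i i' : ℕ) (hii : i < i') :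
    ex q (fun A => DB q blk r0 N i A * DB q blk r0 N i' A) = 0 := by
  have h1 := ex_mul_of_split q (univ.filter (fun x => blk x = i))
    (fun A => (TT r0 (AB blk i A).card - tau q blk r0 i) / (1 - tau q blk r0 i))
    (fun A => (∏ b ∈ Ico (i + 1) N, TT (r0 + (b - i)) (AB blk b A).card)
      * DB q blk r0 N i' A) ?_ ?_
  · rw [bh4_centered, zero_mul] at h1
    rw [← h1]
    congr 1
    funext A
    rw [DB]
    ring
  · intro A
    have : AB blk i (A ∩ univ.filter (fun x => blk x = i)) = AB blk i A := by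
      ext x
      simp only [AB, mem_filter, mem_inter, mem_univ, true_and]
      tauto
    simp only [this]
  · intro A
    have hAB : ∀ b, b ≠ i → AB blk b (A \ univ.filter (fun x => blk x = i)) = AB blk b A := by
      intro b hb
      ext x
      simp only [AB, mem_filter, mem_sdiff, mem_univ, true_and]
      constructor
      · rintro ⟨⟨h1, _⟩, h2⟩
        exact ⟨h1, h2⟩
      · rintro ⟨h1, h2⟩
        exact ⟨⟨h1, fun h => hb (h2 ▸ h)⟩, h2⟩
    simp only [DB]
    rw [hAB i' (by omega)]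
    congr 1
    · apply Finset.prod_congr rfl
      intro b hb
      rw [Finset.mem_Ico] at hb
      rw [hAB b (by omega)]
    · congr 1
      apply Finset.prod_congr rfl
      intro b hb
      rw [Finset.mem_Ico] at hb
      rw [hAB b (by omega)]

/-- Mean value `0`: the factor of the block `i` has mean value `0` and is independent of the
others. Orthogonality for `i < i'`: the product is a function of the blocks `≠ i` times the factor
of the block `i` of `D_i` (`D_i'` does not involve the block `i`). `0 ≤ p0 ≤ 1`, so the products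
over `Ico (i+1) N` are at most the product over `Ico n N`. -/
theorem good_DB (q : ι → ℝ) (blk : ι → ℕ) (σ : ℝ) (r0 n N : ℕ) (h : Blocks q blk σ r0 n N) :
    Good q (fun (i : Fin n) => DB q blk r0 N i) (144 * ∏ b ∈ Ico n N, p0 q blk b) := by
  have hprod : ∀ i : Fin n, ∏ b ∈ Ico ((i : ℕ) + 1) N, p0 q blk b
      ≤ ∏ b ∈ Ico n N, p0 q blk b := by
    intro i
    have hi := i.2
    rw [← Finset.prod_Ico_consecutive (fun b => p0 q blk b) (show (i : ℕ) + 1 ≤ n by omega) h.nN]
    have h1 : ∏ b ∈ Ico ((i : ℕ) + 1) n, p0 q blk b ≤ 1 :=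
      Finset.prod_le_one (fun b _ => bh4_p0_nonneg h b) (fun b _ => bh4_p0_le_one h b)
    have h2 : 0 ≤ ∏ b ∈ Ico n N, p0 q blk b :=
      Finset.prod_nonneg (fun b _ => bh4_p0_nonneg h b)
    nlinarith
  have hnn : 0 ≤ ∏ b ∈ Ico n N, p0 q blk b :=
    Finset.prod_nonneg (fun b _ => bh4_p0_nonneg h b)
  refine ⟨h.q0, bh4_q1 h, ?_, ?_, ?_, ?_, ?_⟩
  · intro i
    apply DB_empty
    have := (tau_le q blk σ r0 n N h i i.2).2
    linarith
  · intro i
    have h1 := bh4_ex_DB q blk r0 N i 1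
    simp only [pow_one] at h1
    rw [bh4_centered, zero_mul] at h1
    exact h1
  · intro i i' hii
    have hne : (i : ℕ) ≠ i' := fun hh => hii (Fin.ext hh)
    rcases lt_or_gt_of_ne hne with hlt | hlt
    · exact bh4_orth q blk r0 N i i' hlt
    · have := bh4_orth q blk r0 N i' i hlt
      rw [← this]
      congr 1
      funext A
      ring
  · intro i
    have h1 := ex_DB_sq_le q blk σ r0 n N h i i.2
    have h2 := hprod i
    linarith
  · intro i
    have h1 := ex_DB_four_le q blk σ r0 n N h i i.2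
    have h2 := hprod i
    linarith

end Pool.Agent.Lib.H15P
end

-- from Lib.H18GB.Greedy
section

/-!
# Project GB: GREEDY
-/

namespace Pool.Agent.Lib.H18GB

open Finset Pool.Agent.Lib.Sieve

open Classical in
theorem greedy_aux (δ : ℝ) (hδ : 0 < δ) (R : ℤ → ℤ → Prop) :
    ∀ (n : ℕ) (H : Finset ℤ), H.card = n →
    ∃ (I : Finset ℤ) (Pc : ℤ → Finset ℤ) (H' : Finset ℤ), H' ⊆ H ∧ (I.card : ℝ) * δ ≤ H.card ∧
      (∀ i ∈ I, Pc i ⊆ H ∧ ∀ h ∈ Pc i, R h i) ∧
      (∀ f : ℤ → ℝ, ∑ h ∈ H, f h = ∑ h ∈ H', f h + ∑ i ∈ I, ∑ h ∈ Pc i, f h) ∧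
      ∀ h ∈ H', ((H'.filter fun h' => R h' h).card : ℝ) < δ := by
  intro n
  induction n using Nat.strong_induction_on with
  | _ n ih =>
    intro H hH
    by_cases hgood : ∀ h ∈ H, ((H.filter fun h' => R h' h).card : ℝ) < δ
    · exact ⟨∅, fun _ => ∅, H, Finset.Subset.refl _, by simp, by simp, by simp, hgood⟩
    · push Not at hgood
      obtain ⟨i0, hi0, hbig⟩ := hgood
      set P := H.filter fun h' => R h' i0 with hP
      have hPpos : 0 < P.card := by
        have : (0 : ℝ) < P.card := lt_of_lt_of_le hδ hbig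
        exact_mod_cast this
      have hPH : P ⊆ H := Finset.filter_subset _ _
      have hcard : (H \ P).card + P.card = H.card := Finset.card_sdiff_add_card_eq_card hPH
      obtain ⟨I, Pc, H', h1, h2, h3, h4, h5⟩ := ih (H \ P).card (by omega) (H \ P) rfl
      have hPc0 : i0 ∈ I → Pc i0 = ∅ := by
        intro hi
        obtain ⟨ha, hb⟩ := h3 i0 hi
        rw [Finset.eq_empty_iff_forall_notMem]
        intro x hx
        have hx1 := ha hx
        rw [Finset.mem_sdiff] at hx1
        exact hx1.2 (Finset.mem_filter.mpr ⟨hx1.1, hb x hx⟩)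
      refine ⟨insert i0 I, Function.update Pc i0 P, H', h1.trans Finset.sdiff_subset, ?_, ?_, ?_, h5⟩
      · have hc1 : ((insert i0 I).card : ℝ) ≤ I.card + 1 := by
          exact_mod_cast Finset.card_insert_le i0 I
        have hc2 : (H.card : ℝ) = (H \ P).card + P.card := by exact_mod_cast hcard.symm
        rw [hc2]
        nlinarith
      · intro i hi
        by_cases hii : i = i0
        · subst hii
          rw [Function.update_self]
          exact ⟨hPH, fun h hh => (Finset.mem_filter.mp hh).2⟩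
        · rw [Function.update_of_ne hii]
          have hiI : i ∈ I := by
            rcases Finset.mem_insert.mp hi with h | h
            · exact absurd h hii
            · exact h
          exact ⟨(h3 i hiI).1.trans Finset.sdiff_subset, (h3 i hiI).2⟩
      · intro f
        have hs : ∑ h ∈ H, f h = ∑ h ∈ H \ P, f h + ∑ h ∈ P, f h :=
          (Finset.sum_sdiff hPH).symm
        rw [hs, h4 f]
        have hI : ∑ i ∈ insert i0 I, ∑ h ∈ Function.update Pc i0 P i, f h =
            ∑ h ∈ P, f h + ∑ i ∈ I, ∑ h ∈ Pc i, f h := by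
          by_cases hi : i0 ∈ I
          · rw [Finset.insert_eq_of_mem hi, ← Finset.add_sum_erase I _ hi, ← Finset.add_sum_erase I
              (fun i => ∑ h ∈ Pc i, f h) hi, Function.update_self, hPc0 hi]
            simp only [Finset.sum_empty, zero_add]
            congr 1
            refine Finset.sum_congr rfl fun i hi' => ?_
            rw [Function.update_of_ne (Finset.ne_of_mem_erase hi')]
          · rw [Finset.sum_insert hi, Function.update_self]
            congr 1
            refine Finset.sum_congr rfl fun i hi' => ?_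
            rw [Function.update_of_ne]
            rintro rfl
            exact hi hi'
        rw [hI]
        ring

open Classical in
/-- Chunk GREEDY: remove popular neighbourhoods one after the other. -/
theorem greedy (M W : ℕ) (hM : 1 ≤ M) (hW : 1 ≤ W) (c : ℝ) (hc : 0 < c) (R : ℤ → ℤ → Prop)
    (H : Finset ℤ) (hH : H ⊆ Finset.Ioo (-(M : ℤ)) M) :
    ∃ (I : Finset ℤ) (Pc : ℤ → Finset ℤ) (H' : Finset ℤ), H' ⊆ H ∧ (I.card : ℝ) ≤ 2 * W / c ∧
      (∀ i ∈ I, Pc i ⊆ H ∧ ∀ h ∈ Pc i, R h i) ∧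
      (∀ f : ℤ → ℝ, ∑ h ∈ H, f h = ∑ h ∈ H', f h + ∑ i ∈ I, ∑ h ∈ Pc i, f h) ∧
      ∀ h ∈ H', ((H'.filter fun h' => R h' h).card : ℝ) < c * M / W := by
  have hM' : (0 : ℝ) < M := by exact_mod_cast hM
  have hW' : (0 : ℝ) < W := by exact_mod_cast hW
  obtain ⟨I, Pc, H', h1, h2, h3, h4, h5⟩ := greedy_aux (c * M / W) (by positivity) R _ H rfl
  refine ⟨I, Pc, H', h1, ?_, h3, h4, h5⟩
  have hcard : (H.card : ℝ) ≤ 2 * M := by
    have h6 := Finset.card_le_card hH
    rw [Int.card_Ioo] at h6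
    have h7 : H.card ≤ 2 * M := by omega
    exact_mod_cast h7
  rw [le_div_iff₀ hc]
  have h6 : (I.card : ℝ) * (c * M / W) ≤ 2 * M := h2.trans hcard
  have h7 : (I.card : ℝ) * (c * M / W) = (I.card : ℝ) * c * M / W := by ring
  rw [h7, div_le_iff₀ hW'] at h6
  have h8 : ((I.card : ℝ) * c) * M ≤ (2 * W) * M := by linarith
  exact le_of_mul_le_mul_right h8 hM'

end Pool.Agent.Lib.H18GB
end

-- from Lib.H57C.BH1
section

/-!
# Chunk BH1: the Brun-Hooley sieve, weights
-/

open Finset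

namespace Pool.Agent.Lib.H57C

open Pool.Agent.Lib.Sieve

theorem bh1_sum_union {ι : Type} [DecidableEq ι] (A B : Finset ι) (h : Disjoint A B)
    (F : Finset ι → ℝ) :
    ∑ E ∈ (A ∪ B).powerset, F E = ∑ D ∈ A.powerset, ∑ E ∈ B.powerset, F (D ∪ E) := by
  rw [← Finset.sum_product']
  symm
  refine Finset.sum_nbij' (fun x => x.1 ∪ x.2) (fun X => (X ∩ A, X ∩ B)) ?_ ?_ ?_ ?_ ?_
  · rintro ⟨D, E⟩ hx
    rw [Finset.mem_product, Finset.mem_powerset, Finset.mem_powerset] at hx
    exact Finset.mem_powerset.2 (Finset.union_subset_union hx.1 hx.2)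
  · intro X _
    rw [Finset.mem_product, Finset.mem_powerset, Finset.mem_powerset]
    exact ⟨Finset.inter_subset_right, Finset.inter_subset_right⟩
  · rintro ⟨D, E⟩ hx
    rw [Finset.mem_product, Finset.mem_powerset, Finset.mem_powerset] at hx
    have h1 : (D ∪ E) ∩ A = D := by
      ext x
      simp only [Finset.mem_inter, Finset.mem_union]
      constructor
      · rintro ⟨h1 | h1, h2⟩
        · exact h1
        · exact absurd (hx.2 h1) (Finset.disjoint_left.1 h h2)
      · intro h1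
        exact ⟨Or.inl h1, hx.1 h1⟩
    have h2 : (D ∪ E) ∩ B = E := by
      ext x
      simp only [Finset.mem_inter, Finset.mem_union]
      constructor
      · rintro ⟨h1 | h1, h2⟩
        · exact absurd h2 (Finset.disjoint_left.1 h (hx.1 h1))
        · exact h1
      · intro h1
        exact ⟨Or.inr h1, hx.2 h1⟩
    simp only [h1, h2]
  · intro X hX
    rw [Finset.mem_powerset] at hX
    simp only
    rw [← Finset.inter_union_distrib_left]
    exact Finset.inter_eq_left.2 hX
  · intro x _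
    rfl

theorem bh1_rep {ι κ : Type} [DecidableEq ι] [DecidableEq κ] (Q : κ → Finset ι) (J : Finset κ)
    (hdisj : ∀ i ∈ J, ∀ j ∈ J, i ≠ j → Disjoint (Q i) (Q j)) (c : κ → Finset ι → ℝ)
    (f : ι → ℝ) :
    ∑ E ∈ (J.biUnion Q).powerset, (∏ j ∈ J, c j (E ∩ Q j)) * ∏ p ∈ E, f p =
      ∏ j ∈ J, poly (c j) f (Q j) := by
  induction J using Finset.induction_on with
  | empty => simp
  | insert a J ha ih =>
    have ih' := ih (fun i hi j hj hij => hdisj i (Finset.mem_insert_of_mem hi) j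
      (Finset.mem_insert_of_mem hj) hij)
    have hne : ∀ j ∈ J, a ≠ j := fun j hj h => ha (h ▸ hj)
    have hda : ∀ j ∈ J, Disjoint (Q a) (Q j) := fun j hj =>
      hdisj a (Finset.mem_insert_self a J) j (Finset.mem_insert_of_mem hj) (hne j hj)
    have hd : Disjoint (Q a) (J.biUnion Q) := (Finset.disjoint_biUnion_right _ _ _).2 hda
    rw [Finset.biUnion_insert, bh1_sum_union _ _ hd, Finset.prod_insert ha, ← ih', poly,
      Finset.sum_mul_sum]
    refine Finset.sum_congr rfl fun D hD => Finset.sum_congr rfl fun E hE => ?_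
    rw [Finset.mem_powerset] at hD hE
    have hDE : Disjoint D E := Finset.disjoint_of_subset_left hD (Finset.disjoint_of_subset_right hE hd)
    rw [Finset.prod_insert ha, Finset.prod_union hDE]
    have h1 : (D ∪ E) ∩ Q a = D := by
      rw [Finset.union_inter_distrib_right, Finset.inter_eq_left.2 hD]
      have : E ∩ Q a = ∅ := by
        rw [← Finset.disjoint_iff_inter_eq_empty]
        exact (Finset.disjoint_of_subset_right hE hd).symm
      rw [this, Finset.union_empty]
    have h2 : ∀ j ∈ J, (D ∪ E) ∩ Q j = E ∩ Q j := by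
      intro j hj
      rw [Finset.union_inter_distrib_right]
      have : D ∩ Q j = ∅ := by
        rw [← Finset.disjoint_iff_inter_eq_empty]
        exact Finset.disjoint_of_subset_left hD (hda j hj)
      rw [this, Finset.empty_union]
    rw [h1, Finset.prod_congr rfl fun j hj => by rw [h2 j hj]]
    ring

theorem bh1_cT_abs {ι : Type} [DecidableEq ι] (b : ℕ) (D : Finset ι) : |cT b D| ≤ 1 := by
  unfold cT
  split_ifs <;> simp

theorem bh1_cE_abs {ι : Type} [DecidableEq ι] (b : ℕ) (D : Finset ι) : |cE b D| ≤ 1 := by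
  unfold cE
  split_ifs <;> simp

/-- Proof. `lp E = ∏_{j ∈ J} cT (b j) (E ∩ Q j)` and `lm E = lp E - ∑_{l ∈ J} cE (b l + 1) (E ∩ Q l) ∏_{j ∈ J.erase l} cT (b j) (E ∩ Q j)` for
`E ⊆ ⋃ Q j` (and `0` otherwise). At most one of the terms of `lm E` is not `0`, and it is `± 1`: if all `|E ∩ Q j| ≤ b j` only the first
one; if exactly one `|E ∩ Q l| = b l + 1` and the others are `≤ b j`, only the term of `l`; otherwise none. For every `f` the sum
`∑_E (∏_j c j (E ∩ Q j)) ∏_{p ∈ E} f p` over `E ⊆ ⋃ Q j` is `∏_j poly (c j) f (Q j)` (disjoint blocks; induction over `J` as in `rep`, or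
`Finset.prod_univ_sum`-like). The inequalities are then those in the proof of `brun_hooley` (`Sieve/BrunHooley.lean`): pointwise
`prod_ge_telescope`, `le_polyT_of_even`, `polyT_le_of_even`; the main terms `∏ Tj ≤ 2 ∏ V` and `∏ Tj - ∑_l Ej l ∏_{j ≠ l} Tj ≥ (1/2) ∏ Tj ≥ (1/2) ∏ V`. -/
theorem bh_weights {ι κ : Type} [DecidableEq ι] [DecidableEq κ] (Q : κ → Finset ι) (J : Finset κ)
    (b : κ → ℕ) (hb : ∀ j ∈ J, Even (b j))
    (hdisj : ∀ i ∈ J, ∀ j ∈ J, i ≠ j → Disjoint (Q i) (Q j)) (g : ι → ℝ)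
    (hg0 : ∀ p ∈ J.biUnion Q, 0 ≤ g p) (hg1 : ∀ p ∈ J.biUnion Q, g p ≤ 1)
    (ε : κ → ℝ) (hε0 : ∀ j ∈ J, 0 ≤ ε j)
    (hε : ∀ j ∈ J, poly (cE (b j + 1)) g (Q j) ≤ ε j * ∏ p ∈ Q j, (1 - g p))
    (hεsum : ∑ j ∈ J, ε j ≤ 1 / 2) :
    ∃ lp lm : Finset ι → ℝ, (∀ E, |lp E| ≤ 1) ∧ (∀ E, |lm E| ≤ 1) ∧
      (∀ E, (lp E ≠ 0 ∨ lm E ≠ 0) → ∀ j ∈ J, (E ∩ Q j).card ≤ b j + 1) ∧
      (∀ f : ι → ℝ, (∀ p, 0 ≤ f p) → (∀ p, f p ≤ 1) →
        ∑ E ∈ (J.biUnion Q).powerset, lm E * ∏ p ∈ E, f p ≤ ∏ p ∈ J.biUnion Q, (1 - f p) ∧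
        ∏ p ∈ J.biUnion Q, (1 - f p) ≤ ∑ E ∈ (J.biUnion Q).powerset, lp E * ∏ p ∈ E, f p) ∧
      1 / 2 * ∏ p ∈ J.biUnion Q, (1 - g p) ≤
        ∑ E ∈ (J.biUnion Q).powerset, lm E * ∏ p ∈ E, g p ∧
      ∑ E ∈ (J.biUnion Q).powerset, lp E * ∏ p ∈ E, g p ≤ 2 * ∏ p ∈ J.biUnion Q, (1 - g p) := by
  set lp : Finset ι → ℝ := fun E => ∏ j ∈ J, cT (b j) (E ∩ Q j) with hlp
  set tm : κ → Finset ι → ℝ := fun l E => cE (b l + 1) (E ∩ Q l) *
    ∏ j ∈ J.erase l, cT (b j) (E ∩ Q j) with htm
  set lm : Finset ι → ℝ := fun E => lp E - ∑ l ∈ J, tm l E with hlm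
  have hprod1 : ∀ (s : Finset κ) (E : Finset ι), |∏ j ∈ s, cT (b j) (E ∩ Q j)| ≤ 1 := by
    intro s E
    rw [Finset.abs_prod]
    exact Finset.prod_le_one (fun j _ => abs_nonneg _) fun j _ => bh1_cT_abs _ _
  -- case A
  have hA : ∀ E : Finset ι, (∀ j ∈ J, (E ∩ Q j).card ≤ b j) → lm E = lp E := by
    intro E hE
    have : ∑ l ∈ J, tm l E = 0 := by
      refine Finset.sum_eq_zero fun l hl => ?_
      have h1 : cE (b l + 1) (E ∩ Q l) = 0 := by
        unfold cE
        rw [if_neg]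
        have := hE l hl
        omega
      simp only [htm, h1, zero_mul]
    simp only [hlm, this, sub_zero]
  -- case B
  have hB : ∀ E : Finset ι, ∀ l0 ∈ J, ¬ (E ∩ Q l0).card ≤ b l0 → lp E = 0 ∧ lm E = - tm l0 E := by
    intro E l0 hl0 hc
    have h0 : cT (b l0) (E ∩ Q l0) = 0 := by
      unfold cT
      rw [if_neg hc]
    have h1 : lp E = 0 := Finset.prod_eq_zero hl0 h0
    refine ⟨h1, ?_⟩
    have h2 : ∑ l ∈ J, tm l E = tm l0 E := by
      refine Finset.sum_eq_single l0 (fun l hl hne => ?_) (fun h => absurd hl0 h)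
      have : ∏ j ∈ J.erase l, cT (b j) (E ∩ Q j) = 0 :=
        Finset.prod_eq_zero (Finset.mem_erase.2 ⟨hne.symm, hl0⟩) h0
      simp only [htm, this, mul_zero]
    simp only [hlm, h1, h2, zero_sub]
  -- the representation
  have rep1 : ∀ f : ι → ℝ, ∑ E ∈ (J.biUnion Q).powerset, lp E * ∏ p ∈ E, f p =
      ∏ j ∈ J, poly (cT (b j)) f (Q j) := fun f =>
    bh1_rep Q J hdisj (fun j => cT (b j)) f
  have rep2 : ∀ f : ι → ℝ, ∀ l ∈ J, ∑ E ∈ (J.biUnion Q).powerset, tm l E * ∏ p ∈ E, f p =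
      poly (cE (b l + 1)) f (Q l) * ∏ j ∈ J.erase l, poly (cT (b j)) f (Q j) := by
    intro f l hl
    have h := bh1_rep Q J hdisj (Function.update (fun j => cT (b j)) l (cE (b l + 1))) f
    have hupd : ∀ F : κ → (Finset ι → ℝ) → ℝ,
        ∏ j ∈ J, F j (Function.update (fun j => cT (b j)) l (cE (b l + 1)) j)
          = F l (cE (b l + 1)) * ∏ j ∈ J.erase l, F j (cT (b j)) := by
      intro F
      rw [← Finset.mul_prod_erase J _ hl]
      rw [Function.update_self]
      congr 1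
      refine Finset.prod_congr rfl fun j hj => ?_
      rw [Function.update_of_ne (Finset.ne_of_mem_erase hj)]
    have h1 : ∀ E : Finset ι, ∏ j ∈ J, Function.update (fun j => cT (b j)) l (cE (b l + 1)) j (E ∩ Q j)
        = tm l E := fun E => hupd (fun j c => c (E ∩ Q j))
    have h2 : ∏ j ∈ J, poly (Function.update (fun j => cT (b j)) l (cE (b l + 1)) j) f (Q j)
        = poly (cE (b l + 1)) f (Q l) * ∏ j ∈ J.erase l, poly (cT (b j)) f (Q j) :=
      hupd (fun j c => poly c f (Q j))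
    rw [h2] at h
    rw [← h]
    exact Finset.sum_congr rfl fun E _ => by rw [h1 E]
  have rep3 : ∀ f : ι → ℝ, ∑ E ∈ (J.biUnion Q).powerset, lm E * ∏ p ∈ E, f p =
      ∏ j ∈ J, poly (cT (b j)) f (Q j) - ∑ l ∈ J, poly (cE (b l + 1)) f (Q l) *
        ∏ j ∈ J.erase l, poly (cT (b j)) f (Q j) := by
    intro f
    rw [← rep1 f, ← Finset.sum_congr rfl (rep2 f), Finset.sum_comm, ← Finset.sum_sub_distrib]
    refine Finset.sum_congr rfl fun E _ => ?_
    simp only [hlm]
    rw [sub_mul, Finset.sum_mul]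
  have hbU : ∀ f : ι → ℝ, ∏ p ∈ J.biUnion Q, (1 - f p) = ∏ j ∈ J, ∏ p ∈ Q j, (1 - f p) := by
    intro f
    exact Finset.prod_biUnion (fun i hi j hj hij => hdisj i hi j hj hij)
  have hQg0 : ∀ j ∈ J, ∀ p ∈ Q j, 0 ≤ g p := fun j hj p hp =>
    hg0 p (Finset.mem_biUnion.2 ⟨j, hj, hp⟩)
  have hQg1 : ∀ j ∈ J, ∀ p ∈ Q j, g p ≤ 1 := fun j hj p hp =>
    hg1 p (Finset.mem_biUnion.2 ⟨j, hj, hp⟩)
  set V : κ → ℝ := fun j => ∏ p ∈ Q j, (1 - g p) with hV
  set Tj : κ → ℝ := fun j => poly (cT (b j)) g (Q j) with hT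
  set Ej : κ → ℝ := fun j => poly (cE (b j + 1)) g (Q j) with hE
  have hVnn : ∀ j ∈ J, 0 ≤ V j := fun j hj =>
    Finset.prod_nonneg fun p hp => by
      have := hQg1 j hj p hp
      linarith
  have hVT : ∀ j ∈ J, V j ≤ Tj j := fun j hj =>
    le_polyT_of_even (hQg0 j hj) (hQg1 j hj) (hb j hj)
  have hTV : ∀ j ∈ J, Tj j ≤ (1 + ε j) * V j := by
    intro j hj
    have h1 := polyT_le_of_even (hQg0 j hj) (hQg1 j hj) (hb j hj)
    have h2 := hε j hj
    simp only [hT, hV] at *
    linarith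
  have hTnn : ∀ j ∈ J, 0 ≤ Tj j := fun j hj => (hVnn j hj).trans (hVT j hj)
  have hcard : ∀ l ∈ J, Ej l * ∏ j ∈ J.erase l, Tj j ≤ ε l * ∏ j ∈ J, Tj j := by
    intro l hl
    rw [← Finset.mul_prod_erase J Tj hl, ← mul_assoc]
    apply mul_le_mul_of_nonneg_right
    · have h1 := hε l hl
      have h2 := mul_le_mul_of_nonneg_left (hVT l hl) (hε0 l hl)
      simp only [hE, hV] at *
      linarith
    · exact Finset.prod_nonneg fun j hj => hTnn j (Finset.mem_of_mem_erase hj)
  have hprodT : 0 ≤ ∏ j ∈ J, Tj j := Finset.prod_nonneg hTnn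
  have hVT' : ∏ j ∈ J, V j ≤ ∏ j ∈ J, Tj j := Finset.prod_le_prod hVnn hVT
  refine ⟨lp, lm, fun E => hprod1 J E, fun E => ?_, fun E hE0 j hj => ?_, fun f hf0 hf1 => ⟨?_, ?_⟩,
    ?_, ?_⟩
  · by_cases hc : ∀ j ∈ J, (E ∩ Q j).card ≤ b j
    · rw [hA E hc]
      exact hprod1 J E
    · push_neg at hc
      obtain ⟨l0, hl0, hc⟩ := hc
      rw [(hB E l0 hl0 (not_le.2 hc)).2, abs_neg]
      simp only [htm]
      rw [abs_mul]
      exact mul_le_one₀ (bh1_cE_abs _ _) (abs_nonneg _) (hprod1 _ E)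
  · by_cases hc : ∀ j ∈ J, (E ∩ Q j).card ≤ b j
    · have := hc j hj
      omega
    · push_neg at hc
      obtain ⟨l0, hl0, hc⟩ := hc
      obtain ⟨h1, h2⟩ := hB E l0 hl0 (not_le.2 hc)
      have h3 : tm l0 E ≠ 0 := by
        rcases hE0 with h | h
        · exact absurd h1 h
        · intro h4
          rw [h2, h4, neg_zero] at h
          exact h rfl
      simp only [htm] at h3
      have h4 := left_ne_zero_of_mul h3
      have h5 := right_ne_zero_of_mul h3
      by_cases hjl : j = l0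
      · subst hjl
        unfold cE at h4
        by_contra h6
        rw [if_neg (by omega)] at h4
        exact h4 rfl
      · have h6 := (Finset.prod_ne_zero_iff.1 h5) j (Finset.mem_erase.2 ⟨hjl, hj⟩)
        unfold cT at h6
        by_contra h7
        rw [if_neg (by omega)] at h6
        exact h6 rfl
  · rw [rep3 f, hbU f]
    apply prod_ge_telescope
    · intro j _
      exact Finset.prod_nonneg fun p _ => by linarith [hf1 p]
    · intro j hj
      exact le_polyT_of_even (fun p _ => hf0 p) (fun p _ => hf1 p) (hb j hj)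
    · intro j hj
      have := polyT_le_of_even (f := f) (Q := Q j) (fun p _ => hf0 p)
        (fun p _ => hf1 p) (hb j hj)
      linarith
  · rw [rep1 f, hbU f]
    apply Finset.prod_le_prod
    · intro j _
      exact Finset.prod_nonneg fun p _ => by linarith [hf1 p]
    · intro j hj
      exact le_polyT_of_even (fun p _ => hf0 p) (fun p _ => hf1 p) (hb j hj)
  · rw [rep3 g, hbU g]
    have h2 : ∑ l ∈ J, Ej l * ∏ j ∈ J.erase l, Tj j ≤ ∑ l ∈ J, ε l * ∏ j ∈ J, Tj j :=
      Finset.sum_le_sum hcard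
    rw [← Finset.sum_mul] at h2
    have h5 : (∑ l ∈ J, ε l) * ∏ j ∈ J, Tj j ≤ 1 / 2 * ∏ j ∈ J, Tj j :=
      mul_le_mul_of_nonneg_right hεsum hprodT
    simp only [hV, hT, hE] at *
    linarith
  · rw [rep1 g, hbU g]
    have h3 : ∏ j ∈ J, Tj j ≤ ∏ j ∈ J, ((1 + ε j) * V j) := Finset.prod_le_prod hTnn hTV
    rw [Finset.prod_mul_distrib] at h3
    have h4 : ∏ j ∈ J, (1 + ε j) ≤ Real.exp (∑ j ∈ J, ε j) := by
      rw [Real.exp_sum]
      refine Finset.prod_le_prod (fun j hj => by linarith [hε0 j hj]) fun j _ => ?_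
      have := Real.add_one_le_exp (ε j)
      linarith
    have h5 : Real.exp (∑ j ∈ J, ε j) ≤ Real.exp (1 / 2) := Real.exp_le_exp.mpr hεsum
    have h6 : Real.exp (1 / 2) ≤ 2 := by
      have h7 : Real.exp (1 / 2) ^ 2 = Real.exp 1 := by
        rw [← Real.exp_nat_mul]
        norm_num
      have h8 := Real.exp_one_lt_d9
      have h9 : 0 < Real.exp (1 / 2) := Real.exp_pos _
      nlinarith
    have h10 : 0 ≤ ∏ j ∈ J, V j := Finset.prod_nonneg hVnn
    calc ∏ j ∈ J, Tj j ≤ (∏ j ∈ J, (1 + ε j)) * ∏ j ∈ J, V j := h3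
      _ ≤ 2 * ∏ j ∈ J, V j := mul_le_mul_of_nonneg_right (by linarith) h10

end Pool.Agent.Lib.H57C
end

-- from Lib.H57M.B1
section

/-!
# Chunk B1: the one form functions of Brun-Hooley, with prescribed prime divisors
-/

open Finset

namespace Pool.Agent.Lib.H57M

open Pool.Agent.Lib.H15P

theorem B1_ex_prod {ι : Type} [Fintype ι] [DecidableEq ι] (q u v : ι → ℝ) :
    ex q (fun A => ∏ i, if i ∈ A then u i else v i) = ∏ i, (u i * q i + v i * (1 - q i)) := by
  have h := Finset.prod_add (fun i => u i * q i) (fun i => v i * (1 - q i)) (univ : Finset ι)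
  rw [h, powerset_univ]
  unfold ex bw
  refine sum_congr rfl fun A _ => ?_
  rw [← Finset.prod_mul_distrib, ← Finset.prod_sdiff (Finset.subset_univ A), mul_comm]
  congr 1
  · exact prod_congr rfl fun i hi => by rw [if_pos hi, if_pos hi]
  · refine prod_congr rfl fun i hi => ?_
    have := (mem_sdiff.1 hi).2
    rw [if_neg this, if_neg this]

/-- the block with prescribed elements -/
theorem B1_block {ι : Type} [Fintype ι] [DecidableEq ι] (q : ι → ℝ) (blk : ι → ℕ) (σ : ℝ)
    (q0 : ∀ i, 0 ≤ q i) (q1 : ∀ i, q i ≤ 1 / 2) (b : ℕ)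
    (hσ : ∑ i ∈ univ.filter (fun i => blk i = b), q i / (1 - q i) ≤ σ)
    (T : Finset ι) (hT : ∀ i ∈ T, blk i = b) :
    ex q (fun A => (4 : ℝ) ^ (AB blk b A).card * (if T ⊆ AB blk b A then 1 else 0)) ≤
      8 ^ T.card * Real.exp (4 * σ) * (∏ i ∈ T, q i) * p0 q blk b := by
  have hfun : (fun A => (4 : ℝ) ^ (AB blk b A).card * (if T ⊆ AB blk b A then 1 else 0)) =
      fun A => ∏ i, if i ∈ A then (if blk i = b then (4 : ℝ) else 1)
        else (if i ∈ T then 0 else 1) := by
    funext A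
    have e1 : (4 : ℝ) ^ (AB blk b A).card = ∏ i ∈ A, (if blk i = b then (4 : ℝ) else 1) := by
      rw [Finset.prod_ite, Finset.prod_const, Finset.prod_const_one, mul_one]
      rfl
    have e2 : (if T ⊆ AB blk b A then (1 : ℝ) else 0) =
        ∏ i ∈ univ \ A, (if i ∈ T then (0 : ℝ) else 1) := by
      by_cases hTA : T ⊆ AB blk b A
      · rw [if_pos hTA]
        symm
        refine Finset.prod_eq_one fun i hi => ?_
        rw [if_neg]
        intro hiT
        have := hTA hiT
        unfold AB at this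
        exact (mem_sdiff.1 hi).2 (Finset.mem_filter.1 this).1
      · rw [if_neg hTA]
        obtain ⟨i, hi, hiA⟩ := Finset.not_subset.1 hTA
        symm
        refine Finset.prod_eq_zero (i := i) ?_ ?_
        · rw [mem_sdiff]
          refine ⟨mem_univ _, fun hA => hiA ?_⟩
          unfold AB
          exact Finset.mem_filter.2 ⟨hA, hT i hi⟩
        · rw [if_pos hi]
    rw [e1, e2]
    rw [← Finset.prod_sdiff (Finset.subset_univ A), mul_comm]
    congr 1
    · refine prod_congr rfl fun i hi => ?_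
      rw [if_neg (mem_sdiff.1 hi).2]
    · exact prod_congr rfl fun i hi => by rw [if_pos hi]
  rw [hfun, B1_ex_prod]
  set B := univ.filter (fun i => blk i = b) with hB
  have hq : ∀ i, 0 < 1 - q i := fun i => by linarith [q1 i]
  have h1 : ∏ i, ((if blk i = b then (4 : ℝ) else 1) * q i +
      (if i ∈ T then 0 else 1) * (1 - q i)) =
      ∏ i ∈ B, (4 * q i + (if i ∈ T then 0 else 1) * (1 - q i)) := by
    rw [hB, Finset.prod_filter]
    refine prod_congr rfl fun i _ => ?_
    by_cases hi : blk i = b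
    · rw [if_pos hi, if_pos hi]
    · rw [if_neg hi, if_neg hi, if_neg (fun h => hi (hT i h))]
      ring
  rw [h1]
  have h2 : ∏ i ∈ B, (4 * q i + (if i ∈ T then 0 else 1) * (1 - q i)) ≤
      ∏ i ∈ B, ((if i ∈ T then 8 * q i else 1) *
        ((1 - q i) * Real.exp (4 * (q i / (1 - q i))))) := by
    refine Finset.prod_le_prod (fun i _ => ?_) (fun i _ => ?_)
    · have := q0 i
      have := hq i
      split_ifs <;> linarith
    · have h0 := q0 i
      have h3 := hq i
      have h4 : 0 ≤ q i / (1 - q i) := div_nonneg h0 h3.le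
      have h5 : 1 + 4 * (q i / (1 - q i)) ≤ Real.exp (4 * (q i / (1 - q i))) := by
        have := Real.add_one_le_exp (4 * (q i / (1 - q i)))
        linarith
      by_cases hi : i ∈ T
      · rw [if_pos hi, if_pos hi]
        have h6 : 1 / 2 ≤ (1 - q i) * Real.exp (4 * (q i / (1 - q i))) := by
          have h7 : 1 / 2 ≤ 1 - q i := by linarith [q1 i]
          nlinarith
        nlinarith
      · rw [if_neg hi, if_neg hi, one_mul, one_mul]
        have h6 : (1 - q i) * (1 + 4 * (q i / (1 - q i))) = 4 * q i + (1 - q i) := by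
          field_simp
          ring
        rw [← h6]
        exact mul_le_mul_of_nonneg_left h5 h3.le
  refine h2.trans (le_of_eq_of_le (by rw [Finset.prod_mul_distrib, Finset.prod_mul_distrib]) ?_)
  have h3 : ∏ i ∈ B, (if i ∈ T then 8 * q i else 1) = 8 ^ T.card * ∏ i ∈ T, q i := by
    rw [Finset.prod_ite_mem]
    have : B ∩ T = T := by
      rw [Finset.inter_eq_right]
      intro i hi
      rw [hB]
      exact Finset.mem_filter.2 ⟨mem_univ _, hT i hi⟩
    rw [this, Finset.prod_mul_distrib, Finset.prod_const]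
  have h4 : ∏ i ∈ B, (1 - q i) = p0 q blk b := rfl
  have h5 : ∏ i ∈ B, Real.exp (4 * (q i / (1 - q i))) ≤ Real.exp (4 * σ) := by
    rw [← Real.exp_sum, ← Finset.mul_sum]
    apply Real.exp_le_exp.2
    linarith
  rw [h3, h4]
  have h6 : 0 ≤ 8 ^ T.card * ∏ i ∈ T, q i := by
    have := Finset.prod_nonneg (fun i (_ : i ∈ T) => q0 i)
    positivity
  have h7 : 0 ≤ p0 q blk b := Finset.prod_nonneg (fun i _ => (hq i).le)
  calc 8 ^ T.card * (∏ i ∈ T, q i) * (p0 q blk b * ∏ i ∈ B, Real.exp (4 * (q i / (1 - q i))))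
      ≤ 8 ^ T.card * (∏ i ∈ T, q i) * (p0 q blk b * Real.exp (4 * σ)) := by gcongr
    _ = _ := by ring

/-- powers of `TT` with prescribed elements -/
theorem B1_TT {ι : Type} [Fintype ι] [DecidableEq ι] (q : ι → ℝ) (blk : ι → ℕ) (σ : ℝ)
    (q0 : ∀ i, 0 ≤ q i) (q1 : ∀ i, q i ≤ 1 / 2) (b r : ℕ)
    (hσ : ∑ i ∈ univ.filter (fun i => blk i = b), q i / (1 - q i) ≤ σ)
    (T : Finset ι) (hT : ∀ i ∈ T, blk i = b) (hT1 : 1 ≤ T.card) :
    ex q (fun A => TT r (AB blk b A).card ^ 2 * (if T ⊆ AB blk b A then 1 else 0)) ≤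
      (8 * Real.exp (4 * σ)) ^ T.card * (∏ i ∈ T, q i) * p0 q blk b := by
  have hq : ∀ i, 0 < 1 - q i := fun i => by linarith [q1 i]
  have hσ0 : 0 ≤ σ := le_trans (Finset.sum_nonneg fun i _ => div_nonneg (q0 i) (hq i).le) hσ
  have h1 : ex q (fun A => TT r (AB blk b A).card ^ 2 * (if T ⊆ AB blk b A then 1 else 0)) ≤
      ex q (fun A => (4 : ℝ) ^ (AB blk b A).card * (if T ⊆ AB blk b A then 1 else 0)) := by
    refine ex_mono q q0 (fun i => by linarith [q1 i]) _ _ fun A => ?_
    have h2 := TT_le r (AB blk b A).card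
    have h3 := TT_nonneg r (AB blk b A).card
    have h4 : TT r (AB blk b A).card ^ 2 ≤ (4 : ℝ) ^ (AB blk b A).card := by
      calc TT r (AB blk b A).card ^ 2 ≤ ((2 : ℝ) ^ (AB blk b A).card) ^ 2 :=
            pow_le_pow_left₀ h3 h2 2
        _ = (4 : ℝ) ^ (AB blk b A).card := by
            rw [← pow_mul, mul_comm, pow_mul]
            norm_num
    split_ifs <;> linarith
  refine h1.trans ((B1_block q blk σ q0 q1 b hσ T hT).trans ?_)
  have h6 : 0 ≤ ∏ i ∈ T, q i := Finset.prod_nonneg (fun i _ => q0 i)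
  have h7 : 0 ≤ p0 q blk b := Finset.prod_nonneg (fun i _ => (hq i).le)
  have h8 : Real.exp (4 * σ) ≤ Real.exp (4 * σ) ^ T.card := by
    calc Real.exp (4 * σ) = Real.exp (4 * σ) ^ 1 := (pow_one _).symm
      _ ≤ Real.exp (4 * σ) ^ T.card :=
        pow_le_pow_right₀ (Real.one_le_exp (by positivity)) hT1
  rw [mul_pow]
  gcongr

theorem B1_sq (q : ℝ) (τ x : ℝ) (hx : 0 ≤ x) (ht0 : 0 ≤ τ) (ht1 : τ ≤ 1 / 2) (_hq : q = q) :
    ((x - τ) / (1 - τ)) ^ 2 ≤ 4 * x ^ 2 + 1 := by
  rw [div_pow, div_le_iff₀ (by nlinarith)]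
  have h1 : (x - τ) ^ 2 ≤ x ^ 2 + 1 / 4 := by nlinarith [mul_nonneg hx ht0]
  have h2 : 1 / 4 ≤ (1 - τ) ^ 2 := by nlinarith
  nlinarith [sq_nonneg x]

/-- As `ex_DB_sq_le` in `H15P/BH4.lean`, with the extra condition `T ⊆ A`.
Factorise over the blocks (`ex_prod_blocks`; `T ⊆ A` iff `AB blk b T ⊆ AB blk b A` for all blocks
`b` of `T`). Write `t_b = |T_b|`, `T_b = AB blk b T`, `E_b = 8 e^(4σ)`.
* Block `b > i`, `b < N`, `T_b = ∅`: `bh4_pow_le`, factor `p0 b (1 + 4^(-(b-i+1)))`.
* Block `b`, `T_b ≠ ∅`: `TT^2 ≤ 4^|A_b|` (`TT_le`), and `E [4^|A_b| 1[T_b ⊆ A_b]]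
  = ∏_{T_b} (4 q) ∏_{block ∖ T_b} (1 + 3 q)`, `1 + 3 q = (1 - q)(1 + 4 q/(1-q))`,
  `∏ (1 + 4 q/(1-q)) ≤ e^(4σ)` (hypothesis `sum`), `∏_{block ∖ T_b} (1 - q) ≤ 2^t_b p0 b`:
  at most `(8 e^(4σ))^t_b (∏_{T_b} q) p0 b` (`t_b ≥ 1`, `σ ≥ 0`).
* Block `i`: `((TT - τ)/(1 - τ))^2 ≤ 4 (TT^2 + 1/4)` (`tau_le`); if `T_i = ∅` the mean value is
  `≤ 2` as in `ex_DB_sq_le`, otherwise `≤ (∏_{T_i} q)(4 (8 e^(4σ))^t_i + 1) ≤
  2 (32 e^(4σ))^t_i ∏_{T_i} q`.
* Other blocks: `∏_{T_b} q`.
Total: `2 · 2 ∏_{b > i} p0 · (32 e^(4σ))^|T| ∏_T q` (`bh4_prod_le'`). -/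
theorem ex_DB_tilt {ι : Type} [Fintype ι] [DecidableEq ι] (q : ι → ℝ) (blk : ι → ℕ) (σ : ℝ)
    (r0 n N : ℕ) (h : Blocks q blk σ r0 n N) (i : ℕ) (hi : i < n) (T : Finset ι) :
    ex q (fun A => DB q blk r0 N i A ^ 2 * (if T ⊆ A then 1 else 0)) ≤
      (32 * Real.exp (4 * σ)) ^ T.card * (∏ p ∈ T, q p) *
        (4 * ∏ b ∈ Ico (i + 1) N, p0 q blk b) := by
  classical
  obtain ⟨ht0, ht1⟩ := tau_le q blk σ r0 n N h i hi
  have q0 := h.q0
  have q1 := bh4_q1 h
  have hq : ∀ j, 0 < 1 - q j := fun j => by linarith [h.q1 j]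
  have hσ0 : 0 ≤ σ :=
    le_trans (Finset.sum_nonneg fun j _ => div_nonneg (q0 j) (hq j).le) (h.sum i)
  have hex1 : 1 ≤ Real.exp (4 * σ) := Real.one_le_exp (by positivity)
  set τ := tau q blk r0 i with hτ
  set E := 32 * Real.exp (4 * σ) with hE
  have hE1 : 1 ≤ E := by rw [hE]; linarith
  set S := insert i (Ico (i + 1) N) ∪ T.image blk with hS
  -- the factors
  set F : ℕ → Finset ι → ℝ := fun b A' =>
    (if b = i then ((TT r0 A'.card - τ) / (1 - τ)) ^ 2
      else if b ∈ Ico (i + 1) N then TT (r0 + (b - i)) A'.card ^ 2 else 1) *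
      (if AB blk b T ⊆ A' then 1 else 0) with hF
  have hfac : (fun A => DB q blk r0 N i A ^ 2 * (if T ⊆ A then 1 else 0)) =
      fun A => ∏ b ∈ S, F b (AB blk b A) := by
    funext A
    simp only [hF]
    rw [Finset.prod_mul_distrib]
    congr 1
    · have hni : i ∉ Ico (i + 1) N := by simp
      have hsub : insert i (Ico (i + 1) N) ⊆ S := Finset.subset_union_left
      rw [← Finset.prod_subset hsub]
      · rw [Finset.prod_insert hni, if_pos rfl]
        unfold DB
        rw [mul_pow, mul_comm, ← Finset.prod_pow]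
        congr 1
        refine Finset.prod_congr rfl fun b hb => ?_
        have hb' : b ≠ i := by
          rw [Finset.mem_Ico] at hb
          omega
        rw [if_neg hb', if_pos hb]
      · intro b _ hb
        rw [Finset.mem_insert, not_or] at hb
        rw [if_neg hb.1, if_neg hb.2]
    · by_cases hTA : T ⊆ A
      · rw [if_pos hTA]
        symm
        refine Finset.prod_eq_one fun b _ => ?_
        rw [if_pos]
        unfold AB
        exact Finset.filter_subset_filter _ hTA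
      · rw [if_neg hTA]
        obtain ⟨j, hj, hjA⟩ := Finset.not_subset.1 hTA
        symm
        refine Finset.prod_eq_zero (i := blk j) ?_ ?_
        · rw [hS]
          exact Finset.mem_union_right _ (Finset.mem_image_of_mem _ hj)
        · rw [if_neg]
          intro hsub
          have : j ∈ AB blk (blk j) A := hsub (by
            unfold AB
            exact Finset.mem_filter.2 ⟨hj, rfl⟩)
          unfold AB at this
          exact hjA (Finset.mem_filter.1 this).1
  rw [hfac, ex_prod_blocks]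
  -- bounds for the factors
  set g : ℕ → ℝ := fun b =>
    if b = i then 2 else if b ∈ Ico (i + 1) N then p0 q blk b * (1 + (1 / 4) ^ (b - i + 1)) else 1
    with hg
  have hQ0 : ∀ b, 0 ≤ ∏ p ∈ AB blk b T, q p := fun b => Finset.prod_nonneg fun p _ => q0 p
  have hTb : ∀ b, ∀ p ∈ AB blk b T, blk p = b := by
    intro b p hp
    unfold AB at hp
    exact (Finset.mem_filter.1 hp).2
  have hfb : ∀ b ∈ S, ex q (fun A => F b (AB blk b A)) ≤
      E ^ (AB blk b T).card * (∏ p ∈ AB blk b T, q p) * g b := by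
    intro b _
    by_cases hbi : b = i
    · -- the block `i`
      subst hbi
      have e1 : (fun A => F b (AB blk b A)) = fun A =>
          ((TT r0 (AB blk b A).card - τ) / (1 - τ)) ^ 2 *
            (if AB blk b T ⊆ AB blk b A then 1 else 0) := by
        funext A
        simp only [hF, if_true]
      have e2 : g b = 2 := by simp only [hg, if_true]
      rw [e1, e2]
      rcases Nat.eq_zero_or_pos (AB blk b T).card with hc | hc
      · have hc' : AB blk b T = ∅ := Finset.card_eq_zero.1 hc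
        simp only [hc', Finset.empty_subset, if_true, mul_one, Finset.card_empty, pow_zero,
          Finset.prod_empty, one_mul]
        have e3 : (fun A => ((TT r0 (AB blk b A).card - τ) / (1 - τ)) ^ 2)
            = fun A => (1 / (1 - τ) ^ 2) * (TT r0 (AB blk b A).card ^ 2
              + ((-2 * τ) * TT r0 (AB blk b A).card + τ ^ 2 * 1)) := by
          funext A
          have : (1 - τ) ≠ 0 := by intro h0; linarith
          field_simp
          ring
        rw [e3, ex_const_mul, ex_add, ex_add, ex_const_mul, ex_const_mul, ex_one]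
        have e4 : ex q (fun A => TT r0 (AB blk b A).card) = τ := rfl
        rw [e4]
        have h2 := bh4_pow_le q blk σ r0 n N h b 0 2 (by norm_num) (by norm_num)
        simp only [add_zero, zero_add, pow_one] at h2
        have h3 := h.small b hi
        have h4 := bh4_p0_nonneg h b
        have h5 : ex q (fun A => TT r0 (AB blk b A).card ^ 2) ≤ 5 / 16 := by linarith
        have h6 : ex q (fun A => TT r0 (AB blk b A).card ^ 2) + (-2 * τ * τ + τ ^ 2 * 1) ≤
            5 / 16 := by nlinarith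
        have h7 : 1 / (1 - τ) ^ 2 ≤ 4 := by
          rw [div_le_iff₀ (by nlinarith)]
          nlinarith
        have h8 : 0 ≤ 1 / (1 - τ) ^ 2 := by positivity
        nlinarith
      · have h1 : ex q (fun A => ((TT r0 (AB blk b A).card - τ) / (1 - τ)) ^ 2 *
            (if AB blk b T ⊆ AB blk b A then 1 else 0)) ≤
            ex q (fun A => 4 * (TT r0 (AB blk b A).card ^ 2 *
              (if AB blk b T ⊆ AB blk b A then 1 else 0)) +
              (if AB blk b T ⊆ A then 1 else 0)) := by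
          refine ex_mono q q0 q1 _ _ fun A => ?_
          have h2 := B1_sq 0 τ (TT r0 (AB blk b A).card) (TT_nonneg _ _) ht0 ht1 rfl
          by_cases hA : AB blk b T ⊆ AB blk b A
          · have hA' : AB blk b T ⊆ A := hA.trans (by unfold AB; exact Finset.filter_subset _ _)
            rw [if_pos hA, if_pos hA']
            linarith
          · rw [if_neg hA, mul_zero, mul_zero, mul_zero, zero_add]
            split_ifs <;> norm_num
        refine h1.trans ?_
        rw [ex_add, ex_const_mul, tr3_ex_subset]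
        have h2 := B1_TT q blk σ q0 h.q1 b r0 (h.sum b) (AB blk b T) (hTb b) hc
        have h3 : p0 q blk b ≤ 1 := bh4_p0_le_one h b
        have h4 := hQ0 b
        have h5 : 0 < (8 * Real.exp (4 * σ)) ^ (AB blk b T).card := by positivity
        have h6 : (8 * Real.exp (4 * σ)) ^ (AB blk b T).card * (∏ p ∈ AB blk b T, q p) *
            p0 q blk b ≤ (8 * Real.exp (4 * σ)) ^ (AB blk b T).card *
              (∏ p ∈ AB blk b T, q p) := by
          have : 0 ≤ (8 * Real.exp (4 * σ)) ^ (AB blk b T).card * (∏ p ∈ AB blk b T, q p) := by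
            positivity
          nlinarith
        have h7 : 4 * (8 * Real.exp (4 * σ)) ^ (AB blk b T).card ≤ E ^ (AB blk b T).card := by
          have e3 : E = 4 * (8 * Real.exp (4 * σ)) := by rw [hE]; ring
          rw [e3, mul_pow 4 (8 * Real.exp (4 * σ))]
          have : (4 : ℝ) ≤ 4 ^ (AB blk b T).card := by
            calc (4 : ℝ) = 4 ^ 1 := (pow_one _).symm
              _ ≤ 4 ^ (AB blk b T).card := pow_le_pow_right₀ (by norm_num) hc
          exact mul_le_mul_of_nonneg_right this h5.le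
        have h8 : 1 ≤ E ^ (AB blk b T).card := one_le_pow₀ hE1
        have h9 : 4 * ((8 * Real.exp (4 * σ)) ^ (AB blk b T).card * (∏ p ∈ AB blk b T, q p)) ≤
            E ^ (AB blk b T).card * (∏ p ∈ AB blk b T, q p) := by
          calc 4 * ((8 * Real.exp (4 * σ)) ^ (AB blk b T).card * (∏ p ∈ AB blk b T, q p))
              = (4 * (8 * Real.exp (4 * σ)) ^ (AB blk b T).card) * (∏ p ∈ AB blk b T, q p) := by
                ring
            _ ≤ _ := mul_le_mul_of_nonneg_right h7 h4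
        have h10 : (∏ p ∈ AB blk b T, q p) ≤
            E ^ (AB blk b T).card * (∏ p ∈ AB blk b T, q p) := by
          nlinarith
        linarith
    · by_cases hbN : b ∈ Ico (i + 1) N
      · have e1 : (fun A => F b (AB blk b A)) = fun A =>
            TT (r0 + (b - i)) (AB blk b A).card ^ 2 *
              (if AB blk b T ⊆ AB blk b A then 1 else 0) := by
          funext A
          simp only [hF, if_neg hbi, if_pos hbN]
        have e2 : g b = p0 q blk b * (1 + (1 / 4) ^ (b - i + 1)) := by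
          simp only [hg, if_neg hbi, if_pos hbN]
        rw [e1, e2]
        have h4 := bh4_p0_nonneg h b
        have h45 : (0 : ℝ) ≤ (1 / 4) ^ (b - i + 1) := by positivity
        rcases Nat.eq_zero_or_pos (AB blk b T).card with hc | hc
        · have hc' : AB blk b T = ∅ := Finset.card_eq_zero.1 hc
          simp only [hc', Finset.empty_subset, if_true, mul_one, Finset.card_empty, pow_zero,
            Finset.prod_empty, one_mul]
          exact bh4_pow_le q blk σ r0 n N h b (b - i) 2 (by norm_num) (by norm_num)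
        · refine (B1_TT q blk σ q0 h.q1 b (r0 + (b - i)) (h.sum b) (AB blk b T) (hTb b) hc).trans ?_
          have h5 := hQ0 b
          have h6 : (8 * Real.exp (4 * σ)) ^ (AB blk b T).card ≤ E ^ (AB blk b T).card := by
            apply pow_le_pow_left₀ (by positivity)
            rw [hE]
            linarith
          have h7 : p0 q blk b ≤ p0 q blk b * (1 + (1 / 4) ^ (b - i + 1)) := by nlinarith
          have hE0 : 0 ≤ E ^ (AB blk b T).card := by positivity
          exact mul_le_mul (mul_le_mul_of_nonneg_right h6 h5) h7 h4 (mul_nonneg hE0 h5)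
      · have e1 : (fun A => F b (AB blk b A)) = fun A =>
            (if AB blk b T ⊆ A then (1 : ℝ) else 0) := by
          funext A
          simp only [hF, if_neg hbi, if_neg hbN, one_mul]
          have : AB blk b T ⊆ AB blk b A ↔ AB blk b T ⊆ A := by
            constructor
            · intro hA
              exact hA.trans (by unfold AB; exact Finset.filter_subset _ _)
            · intro hA x hx
              unfold AB
              rw [Finset.mem_filter]
              exact ⟨hA hx, hTb b x hx⟩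
          by_cases hA : AB blk b T ⊆ A
          · rw [if_pos hA, if_pos (this.2 hA)]
          · rw [if_neg hA, if_neg (fun h' => hA (this.1 h'))]
        have e2 : g b = 1 := by
          simp only [hg, if_neg hbi, if_neg hbN]
        rw [e1, e2, tr3_ex_subset, mul_one]
        have h8 : 1 ≤ E ^ (AB blk b T).card := one_le_pow₀ hE1
        have := hQ0 b
        nlinarith
  have hnn : ∀ b ∈ S, 0 ≤ ex q (fun A => F b (AB blk b A)) := by
    intro b _
    refine ex_nonneg q q0 q1 _ fun A => ?_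
    simp only [hF]
    refine mul_nonneg ?_ (by split_ifs <;> norm_num)
    split_ifs
    · positivity
    · positivity
    · norm_num
  refine (Finset.prod_le_prod hnn hfb).trans ?_
  rw [Finset.prod_mul_distrib, Finset.prod_mul_distrib]
  -- the three products
  have hmaps : ∀ p ∈ T, blk p ∈ S := fun p hp => by
    rw [hS]
    exact Finset.mem_union_right _ (Finset.mem_image_of_mem _ hp)
  have p1 : ∏ b ∈ S, E ^ (AB blk b T).card = E ^ T.card := by
    rw [Finset.prod_pow_eq_pow_sum]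
    congr 1
    exact (Finset.card_eq_sum_card_fiberwise hmaps).symm
  have p2 : ∏ b ∈ S, ∏ p ∈ AB blk b T, q p = ∏ p ∈ T, q p :=
    Finset.prod_fiberwise_of_maps_to hmaps q
  have p3 : ∏ b ∈ S, g b ≤ 4 * ∏ b ∈ Ico (i + 1) N, p0 q blk b := by
    have hni : i ∉ Ico (i + 1) N := by simp
    have hsub : insert i (Ico (i + 1) N) ⊆ S := Finset.subset_union_left
    rw [← Finset.prod_subset hsub]
    · rw [Finset.prod_insert hni]
      have e1 : g i = 2 := by simp only [hg, if_true]
      have e2 : ∏ b ∈ Ico (i + 1) N, g b ≤ 2 * ∏ b ∈ Ico (i + 1) N, p0 q blk b := by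
        calc ∏ b ∈ Ico (i + 1) N, g b
            ≤ ∏ b ∈ Ico (i + 1) N, (p0 q blk b * (1 + (1 / 4 : ℝ) ^ (b - (i + 1) + 1))) := by
              refine Finset.prod_le_prod (fun b hb => ?_) (fun b hb => ?_)
              · have hb' : b ≠ i := by
                  rw [Finset.mem_Ico] at hb
                  omega
                simp only [hg, if_neg hb', if_pos hb]
                have := bh4_p0_nonneg h b
                positivity
              · have hb' : b ≠ i := by
                  rw [Finset.mem_Ico] at hb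
                  omega
                simp only [hg, if_neg hb', if_pos hb]
                apply mul_le_mul_of_nonneg_left _ (bh4_p0_nonneg h b)
                have : (1 / 4 : ℝ) ^ (b - i + 1) ≤ (1 / 4) ^ (b - (i + 1) + 1) :=
                  pow_le_pow_of_le_one (by norm_num) (by norm_num) (by omega)
                linarith
          _ = (∏ b ∈ Ico (i + 1) N, p0 q blk b) *
                ∏ b ∈ Ico (i + 1) N, (1 + (1 / 4 : ℝ) ^ (b - (i + 1) + 1)) :=
              Finset.prod_mul_distrib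
          _ ≤ (∏ b ∈ Ico (i + 1) N, p0 q blk b) * 2 :=
              mul_le_mul_of_nonneg_left (bh4_prod_le' (i + 1) N)
                (Finset.prod_nonneg (fun b _ => bh4_p0_nonneg h b))
          _ = _ := mul_comm _ _
      rw [e1]
      linarith
    · intro b _ hb
      rw [Finset.mem_insert, not_or] at hb
      simp only [hg, if_neg hb.1, if_neg hb.2]
  rw [p1, p2]
  have h6 : 0 ≤ ∏ p ∈ T, q p := Finset.prod_nonneg (fun p _ => q0 p)
  exact mul_le_mul_of_nonneg_left p3 (by positivity)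

end Pool.Agent.Lib.H57M
end
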