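import Pool.Agent.Lib.H1M.RV.M001
import Pool.Agent.Lib.H1M.RV.M003
import Pool.Agent.Lib.H1M.RV.M006
import Pool.Agent.Lib.H1M.RV.M010
import Pool.Agent.Lib.H1M.RV.M012

/-! Merged copies (to shorten the build) of Lib.H57C.BH2, Lib.Sieve.Gap, Lib.H57M.B4, Lib.H57M.B2, Lib.H68T.UNS. -/

-- from Lib.H57C.BH2
section

/-!
# Chunk BH2: the Brun-Hooley sieve for weighted sequences with remainder terms
-/

open Finset

namespace Pool.Agent.Lib.H57C

open Pool.Agent.Lib.Sieve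

theorem bh2_blockE (k z : ℕ) (Q : Finset ℕ)
    (hQ : ∀ q ∈ Q, q.Prime ∧ 2 * k + 2 < q ∧ q ≤ z) (g : ℕ → ℝ) (hg0 : ∀ q, 0 ≤ g q)
    (hg : ∀ q ∈ Q, g q ≤ k / q) (j : ℕ) :
    poly (cE (bj k j + 1)) g (Q.filter (fun q => blk z q = j)) ≤
      epsj k j * ∏ p ∈ Q.filter (fun q => blk z q = j), (1 - g p) := by
  set R := Q.filter (fun q => blk z q = j) with hR
  have hsub : R ⊆ blockSet (2 * k + 2) z j := by
    intro q hq
    rw [hR, mem_filter] at hq
    rw [mem_blockSet]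
    exact ⟨hQ q hq.1, hq.2⟩
  have hRQ : ∀ q ∈ R, q ∈ Q := fun q hq => (mem_filter.1 hq).1
  have hg1 : ∀ p ∈ R, g p ≤ 1 / 2 := fun p hp => by
    have h1 := hg p (hRQ p hp)
    have h2 := (hQ p (hRQ p hp)).2.1
    refine h1.trans ?_
    have hp0 : (0 : ℝ) < p := by
      have : 0 < p := by omega
      exact_mod_cast this
    rw [div_le_iff₀ hp0]
    have h3 : (2 * k + 2 : ℝ) < p := by exact_mod_cast h2
    linarith
  have hsum : ∑ p ∈ R, g p ≤ 6 * k := by
    calc ∑ p ∈ R, g p ≤ ∑ p ∈ R, (k : ℝ) * (1 / p) :=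
          Finset.sum_le_sum fun p hp => by
            rw [mul_one_div]
            exact hg p (hRQ p hp)
      _ = k * ∑ p ∈ R, (1 : ℝ) / p := by rw [Finset.mul_sum]
      _ ≤ k * ∑ p ∈ blockSet (2 * k + 2) z j, (1 : ℝ) / p := by
          refine mul_le_mul_of_nonneg_left ?_ (Nat.cast_nonneg _)
          exact sum_le_sum_of_subset_of_nonneg hsub (fun p _ _ => by positivity)
      _ ≤ k * 6 := mul_le_mul_of_nonneg_left (block_sum_inv _ _ _) (Nat.cast_nonneg _)
      _ = 6 * k := by ring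
  have h1 := rankinE (f := g) (Q := R) (fun p _ => hg0 p) (bj k j + 1) (l := 2) (by norm_num)
  have h2 : ∏ p ∈ R, (1 + 2 * g p) ≤ Real.exp (∑ p ∈ R, 2 * g p) :=
    prod_one_add_le fun p _ => by
      have := hg0 p
      linarith
  rw [← Finset.mul_sum] at h2
  have h3 : Real.exp (2 * ∑ p ∈ R, g p) ≤ Real.exp (12 * k) :=
    Real.exp_le_exp.mpr (by linarith)
  have h4 : Real.exp (-(12 * k)) ≤ ∏ p ∈ R, (1 - g p) :=
    (Real.exp_le_exp.mpr (by linarith)).trans (prod_one_sub_ge (fun p _ => hg0 p) hg1)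
  have h5 : (0 : ℝ) < 2 ^ (bj k j + 1) := by positivity
  have h6 : poly (cE (bj k j + 1)) g R ≤ Real.exp (12 * k) / 2 ^ (bj k j + 1) := by
    rw [le_div_iff₀ h5]
    linarith
  refine h6.trans ?_
  unfold epsj
  have h7 : Real.exp (12 * k) = Real.exp (24 * k) * Real.exp (-(12 * k)) := by
    rw [← Real.exp_add]
    congr 1
    ring
  rw [h7]
  have h8 : 0 ≤ Real.exp (24 * k) / 2 ^ (bj k j + 1) := by positivity
  calc Real.exp (24 * k) * Real.exp (-(12 * k)) / 2 ^ (bj k j + 1)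
      = Real.exp (24 * k) / 2 ^ (bj k j + 1) * Real.exp (-(12 * k)) := by ring
    _ ≤ Real.exp (24 * k) / 2 ^ (bj k j + 1) * ∏ p ∈ R, (1 - g p) :=
        mul_le_mul_of_nonneg_left h4 h8

/-- The level. -/
theorem bh2_level (k z : ℕ) (hz : 2 ≤ z) (Q : Finset ℕ)
    (hQ : ∀ q ∈ Q, q.Prime ∧ 2 * k + 2 < q ∧ q ≤ z) (E : Finset ℕ) (hE : E ⊆ Q)
    (hc : ∀ j ∈ range (z + 1), (E ∩ Q.filter (fun q => blk z q = j)).card ≤ bj k j + 1) :
    ∏ q ∈ E, q ≤ z ^ (96 * k + 10) := by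
  have hz0 : (0 : ℝ) < z := by
    have : 0 < z := by omega
    exact_mod_cast this
  have hz1 : (1 : ℝ) ≤ z := by
    have : 1 ≤ z := by omega
    exact_mod_cast this
  have hlog : 0 ≤ Real.log z := Real.log_nonneg hz1
  have hEf : ∀ j, E ∩ Q.filter (fun q => blk z q = j) = E.filter (fun q => blk z q = j) := by
    intro j
    ext q
    rw [mem_inter, mem_filter, mem_filter]
    constructor
    · rintro ⟨h1, -, h2⟩
      exact ⟨h1, h2⟩
    · rintro ⟨h1, h2⟩
      exact ⟨h1, hE h1, h2⟩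
  have h1 : ∏ q ∈ E, (q : ℝ) = ∏ j ∈ range (z + 1), ∏ q ∈ E.filter (fun q => blk z q = j), (q : ℝ) := by
    symm
    apply Finset.prod_fiberwise_of_maps_to
    intro p _
    exact Finset.mem_range.mpr (Nat.lt_succ_of_le (blk_le z p))
  have h2 : ∀ j ∈ range (z + 1), ∏ q ∈ E.filter (fun q => blk z q = j), (q : ℝ) ≤
      Real.exp (((48 * k + 3 : ℝ) + 2 * j) / 2 ^ j * Real.log z) := by
    intro j hj
    have h3 : ∀ q ∈ E.filter (fun q => blk z q = j), (q : ℝ) ≤ Real.exp (Real.log z / 2 ^ j) := by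
      intro q hq
      rw [mem_filter] at hq
      have hqq := hQ q (hE hq.1)
      have h6 := (blk_spec hqq.1 hqq.2.2).1
      rw [hq.2] at h6
      have hq0 : (0 : ℝ) < q := by exact_mod_cast hqq.1.pos
      have h7 : Real.log ((q : ℝ) ^ (2 ^ j)) ≤ Real.log z := by
        apply Real.log_le_log (by positivity)
        exact_mod_cast h6
      rw [Real.log_pow] at h7
      push_cast at h7
      rw [← Real.log_le_iff_le_exp hq0, le_div_iff₀ (by positivity)]
      linarith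
    have h4 : ∏ q ∈ E.filter (fun q => blk z q = j), (q : ℝ) ≤
        Real.exp (Real.log z / 2 ^ j) ^ (E.filter (fun q => blk z q = j)).card := by
      rw [← prod_const]
      exact prod_le_prod (fun q _ => Nat.cast_nonneg _) h3
    refine h4.trans ?_
    have h5 := hc j hj
    rw [hEf j] at h5
    have h6 : (1 : ℝ) ≤ Real.exp (Real.log z / 2 ^ j) := Real.one_le_exp (by positivity)
    refine (pow_le_pow_right₀ h6 h5).trans (le_of_eq ?_)
    rw [← Real.exp_nat_mul]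
    congr 1
    unfold bj
    push_cast
    ring
  have h3 : ∏ q ∈ E, (q : ℝ) ≤ (z : ℝ) ^ (96 * k + 10) := by
    rw [h1]
    refine (prod_le_prod (fun j _ => prod_nonneg (fun q _ => Nat.cast_nonneg _)) h2).trans ?_
    rw [← Real.exp_sum, ← Finset.sum_mul]
    have h4 := sum_aux (48 * k + 3 : ℝ) (by positivity) (z + 1)
    have h5 : (∑ j ∈ range (z + 1), ((48 * k + 3 : ℝ) + 2 * j) / 2 ^ j) * Real.log z ≤
        ((96 * k + 10 : ℕ) : ℝ) * Real.log z := by
      refine mul_le_mul_of_nonneg_right (h4.trans (le_of_eq ?_)) hlog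
      push_cast
      ring
    refine (Real.exp_le_exp.2 h5).trans (le_of_eq ?_)
    rw [Real.exp_nat_mul, Real.exp_log hz0]
  have h4 : ((∏ q ∈ E, q : ℕ) : ℝ) ≤ ((z ^ (96 * k + 10) : ℕ) : ℝ) := by
    rw [Nat.cast_prod, Nat.cast_pow]
    exact h3
  exact Nat.cast_le.1 h4

open Classical in
theorem bh2_rem (k z : ℕ) (hz : 2 ≤ z) (Q : Finset ℕ)
    (hQ : ∀ q ∈ Q, q.Prime ∧ 2 * k + 2 < q ∧ q ≤ z) (g : ℕ → ℝ)
    {ι : Type} (S : Finset ι) (wt : ι → ℝ)
    (ev : ℕ → ι → Prop) (X : ℝ) (Rm : ℝ)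
    (hRm : ∑ d ∈ (Icc 1 (z ^ (96 * k + 10))).filter
        (fun d => Squarefree d ∧ ∀ q ∈ d.primeFactors, q ∈ Q),
      |∑ i ∈ S.filter (fun i => ∀ q ∈ d.primeFactors, ev q i), wt i -
        X * ∏ q ∈ d.primeFactors, g q| ≤ Rm) (l : Finset ℕ → ℝ) (hl : ∀ E, |l E| ≤ 1)
    (hc : ∀ E, l E ≠ 0 → ∀ j ∈ range (z + 1),
      (E ∩ Q.filter (fun q => blk z q = j)).card ≤ bj k j + 1) :
    |∑ E ∈ Q.powerset, l E * (∑ i ∈ S.filter (fun i => ∀ q ∈ E, ev q i), wt i) -
      X * ∑ E ∈ Q.powerset, l E * ∏ q ∈ E, g q| ≤ Rm := by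
  have hP : ∀ E ⊆ Q, (∏ q ∈ E, q).primeFactors = E := fun E hE =>
    Nat.primeFactors_prod (fun p hp => (hQ p (hE hp)).1)
  rw [mul_sum, ← sum_sub_distrib]
  refine (abs_sum_le_sum_abs _ _).trans (le_trans ?_ hRm)
  have h1 : ∀ E ∈ Q.powerset, |l E * (∑ i ∈ S.filter (fun i => ∀ q ∈ E, ev q i), wt i) -
      X * (l E * ∏ q ∈ E, g q)| ≤ if l E ≠ 0 then
        |∑ i ∈ S.filter (fun i => ∀ q ∈ E, ev q i), wt i - X * ∏ q ∈ E, g q| else 0 := by
    intro E _
    split_ifs with h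
    · rw [show l E * (∑ i ∈ S.filter (fun i => ∀ q ∈ E, ev q i), wt i) - X * (l E * ∏ q ∈ E, g q) =
        l E * (∑ i ∈ S.filter (fun i => ∀ q ∈ E, ev q i), wt i - X * ∏ q ∈ E, g q) by ring, abs_mul]
      exact mul_le_of_le_one_left (abs_nonneg _) (hl E)
    · rw [not_not] at h
      rw [h]
      simp
  refine (sum_le_sum h1).trans ?_
  rw [← sum_filter]
  have hinj : Set.InjOn (fun E : Finset ℕ => ∏ q ∈ E, q) (Q.powerset.filter (fun E => l E ≠ 0)) := by
    intro E hE E' hE' hh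
    have a1 := hP E (mem_powerset.1 (mem_filter.1 (mem_coe.1 hE)).1)
    have a2 := hP E' (mem_powerset.1 (mem_filter.1 (mem_coe.1 hE')).1)
    rw [← a1, ← a2]
    exact congrArg Nat.primeFactors hh
  have h2 : ∑ E ∈ Q.powerset.filter (fun E => l E ≠ 0),
      |∑ i ∈ S.filter (fun i => ∀ q ∈ E, ev q i), wt i - X * ∏ q ∈ E, g q| =
      ∑ d ∈ (Q.powerset.filter (fun E => l E ≠ 0)).image (fun E : Finset ℕ => ∏ q ∈ E, q),
        |∑ i ∈ S.filter (fun i => ∀ q ∈ d.primeFactors, ev q i), wt i -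
          X * ∏ q ∈ d.primeFactors, g q| := by
    rw [sum_image hinj]
    refine sum_congr rfl (fun E hE => ?_)
    rw [hP E (mem_powerset.1 (mem_filter.1 hE).1)]
  rw [h2]
  refine sum_le_sum_of_subset_of_nonneg ?_ (fun d _ _ => abs_nonneg _)
  intro d hd
  rw [mem_image] at hd
  obtain ⟨E, hE, rfl⟩ := hd
  rw [mem_filter, mem_powerset] at hE
  rw [mem_filter, mem_Icc]
  refine ⟨⟨?_, ?_⟩, ?_, ?_⟩
  · exact Nat.one_le_iff_ne_zero.2 (prod_ne_zero_iff.2 (fun q hq => (hQ q (hE.1 hq)).1.ne_zero))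
  · exact bh2_level k z hz Q hQ E hE.1 (hc E hE.2)
  · refine Finset.squarefree_prod_of_pairwise_isCoprime ?_ ?_
    · intro p hp q hq hpq
      exact Nat.coprime_iff_isRelPrime.1
        ((Nat.coprime_primes (hQ p (hE.1 (Finset.mem_coe.1 hp))).1
          (hQ q (hE.1 (Finset.mem_coe.1 hq))).1).2 hpq)
    · intro p hp
      exact (hQ p (hE.1 hp)).1.squarefree
  · rw [hP E hE.1]
    exact hE.1

open Classical in
theorem bh (k z : ℕ) (hz : 2 ≤ z) (hk : 1 ≤ k) (Q : Finset ℕ)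
    (hQ : ∀ q ∈ Q, q.Prime ∧ 2 * k + 2 < q ∧ q ≤ z) (g : ℕ → ℝ) (hg0 : ∀ q, 0 ≤ g q)
    (hg : ∀ q ∈ Q, g q ≤ k / q) {ι : Type} (S : Finset ι) (wt : ι → ℝ) (hw : ∀ i ∈ S, 0 ≤ wt i)
    (ev : ℕ → ι → Prop) (X : ℝ) (hX : 0 ≤ X) (Rm : ℝ)
    (hRm : ∑ d ∈ (Icc 1 (z ^ (96 * k + 10))).filter
        (fun d => Squarefree d ∧ ∀ q ∈ d.primeFactors, q ∈ Q),
      |∑ i ∈ S.filter (fun i => ∀ q ∈ d.primeFactors, ev q i), wt i -
        X * ∏ q ∈ d.primeFactors, g q| ≤ Rm) :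
    X / 2 * ∏ q ∈ Q, (1 - g q) - Rm ≤ ∑ i ∈ S.filter (fun i => ∀ q ∈ Q, ¬ ev q i), wt i ∧
    ∑ i ∈ S.filter (fun i => ∀ q ∈ Q, ¬ ev q i), wt i ≤ 2 * X * ∏ q ∈ Q, (1 - g q) + Rm := by
  have _ := hk
  have hbU : (range (z + 1)).biUnion (fun j => Q.filter (fun q => blk z q = j)) = Q := by
    ext q
    rw [mem_biUnion]
    constructor
    · rintro ⟨j, _, h⟩
      exact (mem_filter.1 h).1
    · intro h
      exact ⟨blk z q, Finset.mem_range.mpr (Nat.lt_succ_of_le (blk_le z q)), mem_filter.2 ⟨h, rfl⟩⟩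
  have hg1 : ∀ q ∈ Q, g q ≤ 1 := by
    intro p hp
    have h1 := hg p hp
    have h2 := (hQ p hp).2.1
    refine h1.trans ?_
    have hp0 : (0 : ℝ) < p := by
      have : 0 < p := by omega
      exact_mod_cast this
    rw [div_le_iff₀ hp0]
    have h3 : (2 * k + 2 : ℝ) < p := by exact_mod_cast h2
    linarith [Nat.cast_nonneg (α := ℝ) k]
  obtain ⟨lp, lm, hlp, hlm, hlev, hpt, hm1, hm2⟩ := bh_weights
    (fun j => Q.filter (fun q => blk z q = j)) (range (z + 1)) (bj k) (fun j _ => bj_even k j)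
    (fun i _ j _ hij => by
      rw [Finset.disjoint_left]
      intro p hp hp'
      exact hij ((mem_filter.mp hp).2.symm.trans (mem_filter.mp hp').2))
    g (fun p _ => hg0 p) (fun p hp => hg1 p (by rwa [hbU] at hp)) (epsj k)
    (fun j _ => epsj_nonneg k j) (fun j _ => bh2_blockE k z Q hQ g hg0 hg j) (sum_epsj k (z + 1))
  rw [hbU] at hm1 hm2
  have hpt' : ∀ i : ι, ∑ E ∈ Q.powerset, lm E * ∏ p ∈ E, (if ev p i then (1 : ℝ) else 0) ≤
      (if ∀ q ∈ Q, ¬ ev q i then (1 : ℝ) else 0) ∧ (if ∀ q ∈ Q, ¬ ev q i then (1 : ℝ) else 0) ≤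
      ∑ E ∈ Q.powerset, lp E * ∏ p ∈ E, (if ev p i then (1 : ℝ) else 0) := by
    intro i
    have h1 := hpt (fun p => if ev p i then (1 : ℝ) else 0) (fun p => by split_ifs <;> norm_num)
      (fun p => by split_ifs <;> norm_num)
    rw [hbU] at h1
    have h2 : ∏ p ∈ Q, (1 - (if ev p i then (1 : ℝ) else 0)) =
        (if ∀ q ∈ Q, ¬ ev q i then (1 : ℝ) else 0) := by
      split_ifs with h
      · apply prod_eq_one
        intro p hp
        rw [if_neg (h p hp)]
        norm_num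
      · push Not at h
        obtain ⟨q, hq, he⟩ := h
        refine prod_eq_zero hq ?_
        rw [if_pos he]
        norm_num
    rw [h2] at h1
    exact h1
  have hprod : ∀ (i : ι) (E : Finset ℕ), ∏ p ∈ E, (if ev p i then (1 : ℝ) else 0) =
      if ∀ q ∈ E, ev q i then (1 : ℝ) else 0 := by
    intro i E
    split_ifs with h
    · exact prod_eq_one (fun p hp => if_pos (h p hp))
    · push Not at h
      obtain ⟨q, hq, he⟩ := h
      exact prod_eq_zero hq (if_neg he)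
  have hswap : ∀ l : Finset ℕ → ℝ, ∑ i ∈ S, wt i * ∑ E ∈ Q.powerset, l E *
      ∏ p ∈ E, (if ev p i then (1 : ℝ) else 0) =
      ∑ E ∈ Q.powerset, l E * (∑ i ∈ S.filter (fun i => ∀ q ∈ E, ev q i), wt i) := by
    intro l
    simp_rw [mul_sum]
    rw [sum_comm]
    refine sum_congr rfl (fun E _ => ?_)
    rw [sum_filter]
    refine sum_congr rfl (fun i _ => ?_)
    rw [hprod i E]
    split_ifs <;> ring
  have hlhs : ∑ i ∈ S.filter (fun i => ∀ q ∈ Q, ¬ ev q i), wt i =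
      ∑ i ∈ S, wt i * (if ∀ q ∈ Q, ¬ ev q i then (1 : ℝ) else 0) := by
    rw [sum_filter]
    refine sum_congr rfl (fun i _ => ?_)
    split_ifs <;> ring
  have hr1 := bh2_rem k z hz Q hQ g S wt ev X Rm hRm lp hlp (fun E hE => hlev E (Or.inl hE))
  have hr2 := bh2_rem k z hz Q hQ g S wt ev X Rm hRm lm hlm (fun E hE => hlev E (Or.inr hE))
  rw [abs_le] at hr1 hr2
  rw [hlhs]
  constructor
  · have h1 : ∑ i ∈ S, wt i * ∑ E ∈ Q.powerset, lm E * ∏ p ∈ E, (if ev p i then (1 : ℝ) else 0) ≤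
        ∑ i ∈ S, wt i * (if ∀ q ∈ Q, ¬ ev q i then (1 : ℝ) else 0) :=
      sum_le_sum (fun i hi => mul_le_mul_of_nonneg_left (hpt' i).1 (hw i hi))
    rw [hswap lm] at h1
    have h2 := mul_le_mul_of_nonneg_left hm1 hX
    linarith [hr2.1]
  · have h1 : ∑ i ∈ S, wt i * (if ∀ q ∈ Q, ¬ ev q i then (1 : ℝ) else 0) ≤
        ∑ i ∈ S, wt i * ∑ E ∈ Q.powerset, lp E * ∏ p ∈ E, (if ev p i then (1 : ℝ) else 0) :=
      sum_le_sum (fun i hi => mul_le_mul_of_nonneg_left (hpt' i).2 (hw i hi))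
    rw [hswap lp] at h1
    have h2 := mul_le_mul_of_nonneg_left hm2 hX
    linarith [hr1.2]

end Pool.Agent.Lib.H57C
end

-- from Lib.Sieve.Gap
section

/-!
# Existence of integers avoiding residue classes (lower bound sieve)
-/

namespace Pool.Agent.Lib.Sieve

open Finset

/-- The product `∏ (1 - chi)` is the indicator of avoiding all classes. -/
theorem prod_one_sub_chi (Ω : (p : ℕ) → Finset (ZMod p)) (P : Finset ℕ) (u : ℤ) :
    ∏ p ∈ P, (1 - chi Ω p u) = if ∀ p ∈ P, (u : ZMod p) ∉ Ω p then 1 else 0 := by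
  classical
  by_cases h : ∀ p ∈ P, (u : ZMod p) ∉ Ω p
  · rw [if_pos h]
    apply Finset.prod_eq_one
    intro p hp
    unfold chi
    rw [if_neg (h p hp)]
    ring
  · rw [if_neg h]
    push Not at h
    obtain ⟨p, hp, hu⟩ := h
    apply Finset.prod_eq_zero hp
    unfold chi
    rw [if_pos hu]
    ring

/-- Chinese remainder theorem: an integer avoiding one class modulo each small prime. -/
theorem exists_crt (P : Finset ℕ) (hP : ∀ p ∈ P, p.Prime) (r : (p : ℕ) → ZMod p) :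
    ∃ c : ℤ, ∀ p ∈ P, (c : ZMod p) = r p := by
  set q := ∏ p ∈ P, p with hq
  have hq0 : 0 < q := Finset.prod_pos fun p hp => (hP p hp).pos
  have h := count_classes' (fun p => {r p}) 0 (2 * q) P hP
  simp only [Finset.card_singleton, Nat.cast_one, Finset.prod_const_one] at h
  have h1 : ∏ p ∈ P, (1 : ℝ) / p = 1 / q := by
    rw [Finset.prod_div_distrib, hq]
    push_cast
    simp
  rw [h1] at h
  have hq' : (q : ℝ) ≠ 0 := by
    have : q ≠ 0 := hq0.ne'
    exact_mod_cast this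
  have h2 : ((2 * q : ℕ) : ℝ) * (1 / q) = 2 := by
    push_cast
    field_simp
  rw [h2] at h
  have h3 := (abs_le.mp h).1
  have h4 : 0 < ∑ u ∈ Finset.Ico (0 : ℤ) (0 + (2 * q : ℕ)), ∏ p ∈ P, chi (fun p => {r p}) p u := by
    linarith
  obtain ⟨u, _, hu⟩ := Finset.exists_lt_of_sum_lt (f := fun _ => (0 : ℝ)) (by simpa using h4)
  refine ⟨u, fun p hp => ?_⟩
  by_contra hne
  have : ∏ p ∈ P, chi (fun p => {r p}) p u = 0 := by
    apply Finset.prod_eq_zero hp
    unfold chi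
    rw [if_neg]
    simpa using hne
  linarith


end Pool.Agent.Lib.Sieve
end

-- from Lib.H57M.B4
section

/-!
# Chunk B4: `le_EP`, `EX_erase_mul_hit_le`, `cf_fiber` with first moments
-/

open Finset

namespace Pool.Agent.Lib.H57M

open Pool.Agent.Lib.H15P Pool.Agent.Lib.H92G

variable {J : Type} [Fintype J] [DecidableEq J]

/-- `step1` of the proof of `H15P.le_EP`. -/
theorem le_EP2 (P : Finset ℕ) (W K M : ℕ) (b : J → ℕ) (hF : Forms P W K M b)
    (F : (J → Finset {p // p ∈ P}) → ℝ) (h0 : ∀ S, 0 ≤ F S) :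
    (1 - (K : ℝ) ^ 2 / W) * EX (qq P K) F - EX (qq P K) (fun S => F S * loss P K S)
      ≤ EP P M b F := by
  classical
  have hK1 : (1 : ℝ) ≤ K := by exact_mod_cast hF.one_le
  have hW1 : 1 ≤ W := by
    have := hF.KW
    have := hF.one_le
    nlinarith
  have hWr : (1 : ℝ) ≤ W := by exact_mod_cast hW1
  have hpW : ∀ i : {p // p ∈ P}, (W : ℝ) ≤ i.1 := by
    intro i
    exact_mod_cast (hF.big i.1 i.2).le
  have hKW : 4 * (K : ℝ) ^ 2 ≤ W := by exact_mod_cast hF.KW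
  have hp0 : ∀ i : {p // p ∈ P}, (0 : ℝ) < i.1 := fun i => by
    have := hpW i
    linarith
  have hq0 : ∀ i, 0 ≤ qq P K i := qq_nonneg P K
  have hq1 : ∀ i, qq P K i ≤ 1 := by
    intro i
    refine (qq_le P W K hF.one_le hF.KW hF.big i).trans ?_
    rw [div_le_one (hp0 i)]
    have := hpW i
    nlinarith
  have hbw : ∀ S : J → Finset {p // p ∈ P}, 0 ≤ ∏ j, bw (qq P K) (S j) := fun S =>
    Finset.prod_nonneg fun j _ => bw_nonneg _ hq0 hq1 _
  -- step 1: the sum over the families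
  have step1 : EX (qq P K) (fun S : J → Finset {p // p ∈ P} =>
      F S * ((1 - (K : ℝ) ^ 2 / W) - loss P K S)) ≤ EP P M b F := by
    rw [EP_eq P W K M b hF F]
    have e1 : ∑ κ : {p // p ∈ P} → Option J,
        F (cfg κ) * ((1 - (K : ℝ) ^ 2 / W - ∑ j, ∑ p ∈ cfg κ j, 2 * (K : ℝ) / (p.1 : ℝ)) *
          ∏ j, bw (qq P K) (cfg κ j)) ≤
        ∑ κ : {p // p ∈ P} → Option J, F (cfg κ) * ∏ i, ww J i.1 (κ i) :=
      Finset.sum_le_sum fun κ _ => mul_le_mul_of_nonneg_left (prod_ww_ge P W K M b hF κ) (h0 _)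
    refine le_trans ?_ e1
    set g : (J → Finset {p // p ∈ P}) → ℝ := fun S =>
      F S * ((1 - (K : ℝ) ^ 2 / W) - loss P K S) * ∏ j, bw (qq P K) (S j) with hg
    have e2 : ∑ κ : {p // p ∈ P} → Option J, g (cfg κ) =
        ∑ S ∈ (univ : Finset ({p // p ∈ P} → Option J)).image cfg, g S :=
      (Finset.sum_image (fun a _ b _ h => tr3_cfg_inj h)).symm
    have e3 : ∑ κ : {p // p ∈ P} → Option J,
        F (cfg κ) * ((1 - (K : ℝ) ^ 2 / W - ∑ j, ∑ p ∈ cfg κ j, 2 * (K : ℝ) / (p.1 : ℝ)) *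
          ∏ j, bw (qq P K) (cfg κ j)) = ∑ κ : {p // p ∈ P} → Option J, g (cfg κ) := by
      refine Finset.sum_congr rfl fun κ _ => ?_
      simp only [hg]
      have : loss P K (cfg κ) = ∑ j, ∑ p ∈ cfg κ j, 2 * (K : ℝ) / (p.1 : ℝ) := by
        unfold loss
        rw [if_neg, zero_add]
        rintro ⟨j, j', hjj, hd⟩
        exact hd (tr3_cfg_disj κ j j' hjj)
      rw [this]
      ring
    rw [e3, e2]
    have e4 : EX (qq P K) (fun S : J → Finset {p // p ∈ P} =>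
        F S * ((1 - (K : ℝ) ^ 2 / W) - loss P K S)) = ∑ S, g S := rfl
    rw [e4, ← Finset.sum_sdiff (Finset.subset_univ
      ((univ : Finset ({p // p ∈ P} → Option J)).image cfg))]
    have e5 : ∑ S ∈ univ \ (univ : Finset ({p // p ∈ P} → Option J)).image cfg, g S ≤ 0 := by
      refine Finset.sum_nonpos fun S hS => ?_
      rw [Finset.mem_sdiff, Finset.mem_image] at hS
      have hex : ∃ j j', j ≠ j' ∧ ¬ Disjoint (S j) (S j') := by
        by_contra hcon
        push Not at hcon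
        obtain ⟨κ, hκ⟩ := tr3_exists_cfg S hcon
        exact hS.2 ⟨κ, Finset.mem_univ _, hκ⟩
      have hl : 1 ≤ loss P K S := by
        unfold loss
        rw [if_pos hex]
        have : 0 ≤ ∑ j, ∑ p ∈ S j, 2 * (K : ℝ) / (p.1 : ℝ) :=
          Finset.sum_nonneg fun j _ => Finset.sum_nonneg fun p _ => by positivity
        linarith
      have hKW0 : 0 ≤ (K : ℝ) ^ 2 / W := by positivity
      simp only [hg]
      refine mul_nonpos_of_nonpos_of_nonneg ?_ (hbw S)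
      exact mul_nonpos_of_nonneg_of_nonpos (h0 S) (by linarith)
    linarith
  refine le_trans ?_ step1
  have e6 : EX (qq P K) (fun S : J → Finset {p // p ∈ P} =>
      F S * ((1 - (K : ℝ) ^ 2 / W) - loss P K S)) =
      (1 - (K : ℝ) ^ 2 / W) * EX (qq P K) F - EX (qq P K) (fun S => F S * loss P K S) := by
    unfold EX
    rw [Finset.mul_sum, ← Finset.sum_sub_distrib]
    exact Finset.sum_congr rfl fun S _ => by ring
  rw [← e6]




end Pool.Agent.Lib.H57M
end

-- from Lib.H57M.B2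
section

/-!
# Chunk B2: the fourth moment for a bounded number of forms
-/

open Finset

namespace Pool.Agent.Lib.H57M

open Pool.Agent.Lib.H15P Pool.Agent.Lib.H92G

/-- Copy of the proof of `EX_LG_four_le` (`H92G/G2.lean`), stopping at the product
`(1 + ((|I|+1)^4 - 1) h)^|B|` with `B = univ`; and `1 + (a - 1) h ≤ a (1 + h)` for `a ≥ 1`. -/
theorem EX_LG_four_le2 {ι J I : Type} [Fintype ι] [DecidableEq ι] [Fintype J] [DecidableEq J]
    [Fintype I] [DecidableEq I] (q : ι → ℝ) (D : J → I → Finset ι → ℝ) (h : ℝ)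
    (hg : GoodJ q D h) (hh : 0 ≤ h) (m : I → ℕ) :
    EX q (fun S : J → Finset ι => LG D m univ S ^ 4)
      ≤ (((Fintype.card I : ℝ) + 1) ^ 4 * (1 + h)) ^ Fintype.card J := by
  classical
  obtain ⟨B, hB⟩ : ∃ B : Finset J, B = univ := ⟨_, rfl⟩
  rw [← hB]
  set E : (Fin 4 → Option I) → ℝ := fun o => if o = (fun _ => none) then 1 else h with hE
  have hE0 : ∀ o, 0 ≤ E o := by
    intro o
    simp only [hE]
    split_ifs
    · exact zero_le_one
    · exact hh
  have h4 : ∀ S : J → Finset ι, LG D m B S ^ 4 =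
      ∑ x ∈ Fintype.piFinset (fun _ : Fin 4 => adm B m), ∏ j, ∏ k, dg D j (x k j) (S j) := by
    intro S
    have e1 : LG D m B S ^ 4 = ∏ _k : Fin 4, ∑ l ∈ adm B m, ∏ j, dg D j (l j) (S j) := by
      rw [Finset.prod_const, Finset.card_univ, Fintype.card_fin]
      unfold LG LW
      simp only [one_mul]
    rw [e1, Finset.prod_univ_sum]
    refine Finset.sum_congr rfl (fun x _ => ?_)
    rw [Finset.prod_comm]
  have h5 : EX q (fun S : J → Finset ι => LG D m B S ^ 4) =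
      ∑ x ∈ Fintype.piFinset (fun _ : Fin 4 => adm B m),
        ∏ j, ex q (fun A => ∏ k, dg D j (x k j) A) := by
    have e2 : (fun S : J → Finset ι => LG D m B S ^ 4) = (fun S : J → Finset ι =>
        ∑ x ∈ Fintype.piFinset (fun _ : Fin 4 => adm B m), ∏ j, ∏ k, dg D j (x k j) (S j)) :=
      funext h4
    rw [e2, EX_sum]
    refine Finset.sum_congr rfl (fun x _ => ?_)
    exact EX_prod q (fun j A => ∏ k, dg D j (x k j) A)
  have h6 : ∀ (j : J) (o : Fin 4 → Option I), |ex q (fun A => ∏ k, dg D j (o k) A)| ≤ E o := by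
    intro j o
    by_cases ho : o = (fun _ => none)
    · subst ho
      simp only [hE, if_true, dg, Finset.prod_const_one]
      rw [ex_one, abs_one]
    · have ho' : ∃ k, o k ≠ none := by
        by_contra hcon
        push Not at hcon
        exact ho (funext hcon)
      simp only [hE, if_neg ho]
      exact abs_ex_four_leJ q D h hg hh j o ho'
  have hinj : Function.Injective
      (fun (x : Fin 4 → J → Option I) (j : J) (k : Fin 4) => x k j) := by
    intro x y hxy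
    funext k j
    exact congrFun (congrFun hxy j) k
  have hcard : ∑ ω, E ω ≤ 1 + ((Fintype.card I : ℝ) + 1) ^ 4 * h := by
    rw [← Finset.add_sum_erase univ E (Finset.mem_univ (fun _ => none))]
    have e3 : E (fun _ => none) = 1 := by simp only [hE, if_true]
    have e4 : ∑ ω ∈ univ.erase (fun _ : Fin 4 => (none : Option I)), E ω
        = ∑ ω ∈ univ.erase (fun _ : Fin 4 => (none : Option I)), h := by
      refine Finset.sum_congr rfl (fun ω hω => ?_)
      simp only [hE, if_neg (Finset.ne_of_mem_erase hω)]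
    rw [e3, e4, Finset.sum_const, nsmul_eq_mul]
    have e5 : ((univ.erase (fun _ : Fin 4 => (none : Option I))).card : ℝ)
        ≤ ((Fintype.card I : ℝ) + 1) ^ 4 := by
      have : (univ.erase (fun _ : Fin 4 => (none : Option I))).card
          ≤ (Fintype.card I + 1) ^ 4 := by
        refine (Finset.card_erase_le).trans ?_
        rw [Finset.card_univ, Fintype.card_fun, Fintype.card_option, Fintype.card_fin]
      exact_mod_cast this
    have := mul_le_mul_of_nonneg_right e5 hh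
    linarith
  rw [h5]
  calc ∑ x ∈ Fintype.piFinset (fun _ : Fin 4 => adm B m),
        ∏ j, ex q (fun A => ∏ k, dg D j (x k j) A)
      ≤ ∑ x ∈ Fintype.piFinset (fun _ : Fin 4 => adm B m), ∏ j, E (fun k => x k j) := by
        apply Finset.sum_le_sum
        intro x _
        refine (le_abs_self _).trans ?_
        rw [Finset.abs_prod]
        exact Finset.prod_le_prod (fun j _ => abs_nonneg _) (fun j _ => h6 j _)
    _ = ∑ y ∈ (Fintype.piFinset (fun _ : Fin 4 => adm B m)).image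
          (fun (x : Fin 4 → J → Option I) (j : J) (k : Fin 4) => x k j), ∏ j, E (y j) := by
        rw [Finset.sum_image (fun a _ b _ hab => hinj hab)]
    _ ≤ ∑ y ∈ univ.filter (fun y : J → (Fin 4 → Option I) => ∀ j, j ∉ B → y j = fun _ => none),
          ∏ j, E (y j) := by
        apply Finset.sum_le_sum_of_subset_of_nonneg
        · intro y hy
          obtain ⟨x, hx, rfl⟩ := Finset.mem_image.1 hy
          refine Finset.mem_filter.2 ⟨Finset.mem_univ _, ?_⟩
          intro j hj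
          funext k
          have h7 := (Fintype.mem_piFinset.1 hx) k
          unfold adm at h7
          exact (Finset.mem_filter.1 h7).2.1 j hj
        · intro y _ _
          exact Finset.prod_nonneg (fun j _ => hE0 _)
    _ = (∑ ω, E ω) ^ B.card :=
        sum_supp (fun _ : Fin 4 => (none : Option I)) E (by simp only [hE, if_true]) B
    _ ≤ (((Fintype.card I : ℝ) + 1) ^ 4 * (1 + h)) ^ B.card := by
        apply pow_le_pow_left₀ (Finset.sum_nonneg (fun ω _ => hE0 ω))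
        refine hcard.trans ?_
        have h8 : (1 : ℝ) ≤ ((Fintype.card I : ℝ) + 1) ^ 4 := by
          apply one_le_pow₀
          have : (0 : ℝ) ≤ (Fintype.card I : ℝ) := Nat.cast_nonneg _
          linarith
        nlinarith
    _ = (((Fintype.card I : ℝ) + 1) ^ 4 * (1 + h)) ^ Fintype.card J := by
        rw [hB, Finset.card_univ]

end Pool.Agent.Lib.H57M
end

-- from Lib.H68T.UNS
section

/-!
# Chunk UNS; part of PER: Perron's formula with Cesàro weights, contour shift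
-/

open Finset MeasureTheory

namespace Pool.Agent.Lib.H68T

/-- **Removing the weight.** `S(u) = ∑_{n ≤ u} a_n (u - n)`, `|S(u)| ≤ κ u²` on `[u₀, 2u₁]`;
with `h = √κ u ≤ u`: `h ∑_{n ≤ u} a_n = S(u+h) - S(u) - ∑_{u < n ≤ u+h} a_n (u + h - n)`, hence
`|∑_{n ≤ u} a_n| ≤ 5 √κ u + (h + 1)(2 + log u) ≤ 20 √κ u (1 + log u)`. -/
theorem unsmooth (a : ℕ → ℂ) (κ u₀ u₁ : ℝ) (hκ0 : 0 < κ) (hκ1 : κ ≤ 1) (hu₀ : 1 ≤ u₀)
    (hκu : 1 ≤ κ * u₀) (ha : ∀ n, 1 ≤ n → ‖a n‖ ≤ 1 + Real.log n)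
    (h : ∀ u : ℝ, u₀ ≤ u → u ≤ 2 * u₁ → ‖∑ n ∈ Icc 1 ⌊u⌋₊, a n * (1 - n / u)‖ ≤ κ * u) :
    ∀ u : ℝ, u₀ ≤ u → u ≤ u₁ → ‖∑ n ∈ Icc 1 ⌊u⌋₊, a n‖ ≤
      20 * Real.sqrt κ * u * (1 + Real.log u) := by
  intro u hu0 hu1
  have hu1' : 1 ≤ u := hu₀.trans hu0
  have hupos : 0 < u := by linarith
  have hs0 : 0 < Real.sqrt κ := Real.sqrt_pos.mpr hκ0
  have hs1 : Real.sqrt κ ≤ 1 := by
    rw [Real.sqrt_le_left (by norm_num)]; simpa using hκ1
  have hss : Real.sqrt κ * Real.sqrt κ = κ := Real.mul_self_sqrt hκ0.le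
  set d : ℝ := Real.sqrt κ * u with hd
  have hdpos : 0 < d := by positivity
  have hdu : d ≤ u := by
    calc d ≤ 1 * u := mul_le_mul_of_nonneg_right hs1 hupos.le
      _ = u := one_mul u
  have hd1 : 1 ≤ d := by
    have h1 : 1 ≤ κ * u := hκu.trans (by gcongr)
    have h2 : κ * u ≤ d := by
      have h3 : κ ≤ Real.sqrt κ := by nlinarith
      exact mul_le_mul_of_nonneg_right h3 hupos.le
    linarith
  -- the weighted sums
  have hS : ∀ z : ℝ, u₀ ≤ z → z ≤ 2 * u₁ →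
      ‖∑ n ∈ Icc 1 ⌊z⌋₊, a n * ((z : ℂ) - n)‖ ≤ κ * z ^ 2 := by
    intro z hz0 hz1
    have hz : 0 < z := by linarith
    have e1 : ∑ n ∈ Icc 1 ⌊z⌋₊, a n * ((z : ℂ) - n) =
        (z : ℂ) * ∑ n ∈ Icc 1 ⌊z⌋₊, a n * (1 - n / z) := by
      rw [mul_sum]
      refine sum_congr rfl fun n _ => ?_
      have : (z : ℂ) ≠ 0 := by exact_mod_cast hz.ne'
      field_simp
    rw [e1, norm_mul]
    have := h z hz0 hz1
    have e2 : ‖(z : ℂ)‖ = z := by
      rw [Complex.norm_real, Real.norm_of_nonneg hz.le]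
    rw [e2]
    nlinarith
  have hA := hS u hu0 (by linarith)
  have hB := hS (u + d) (by linarith) (by linarith)
  -- splitting
  have hfl : ⌊u⌋₊ ≤ ⌊u + d⌋₊ := Nat.floor_mono (by linarith)
  have hsplit : ∑ n ∈ Icc 1 ⌊u + d⌋₊, a n * (((u + d : ℝ) : ℂ) - n) =
      ∑ n ∈ Icc 1 ⌊u⌋₊, a n * (((u + d : ℝ) : ℂ) - n) +
      ∑ n ∈ Ioc ⌊u⌋₊ ⌊u + d⌋₊, a n * (((u + d : ℝ) : ℂ) - n) := by
    rw [← sum_union]
    · congr 1
      ext n
      simp only [mem_union, mem_Icc, mem_Ioc]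
      omega
    · rw [disjoint_left]
      intro n hn hn'
      simp only [mem_Icc, mem_Ioc] at hn hn'
      omega
  have hid : (d : ℂ) * ∑ n ∈ Icc 1 ⌊u⌋₊, a n =
      ∑ n ∈ Icc 1 ⌊u + d⌋₊, a n * (((u + d : ℝ) : ℂ) - n) -
      ∑ n ∈ Icc 1 ⌊u⌋₊, a n * ((u : ℂ) - n) -
      ∑ n ∈ Ioc ⌊u⌋₊ ⌊u + d⌋₊, a n * (((u + d : ℝ) : ℂ) - n) := by
    rw [hsplit, mul_sum]
    have : ∑ n ∈ Icc 1 ⌊u⌋₊, a n * (((u + d : ℝ) : ℂ) - n) =
        ∑ n ∈ Icc 1 ⌊u⌋₊, (d : ℂ) * a n + ∑ n ∈ Icc 1 ⌊u⌋₊, a n * ((u : ℂ) - n) := by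
      rw [← sum_add_distrib]
      refine sum_congr rfl fun n _ => ?_
      push_cast
      ring
    rw [this]
    ring
  have hlast : ‖∑ n ∈ Ioc ⌊u⌋₊ ⌊u + d⌋₊, a n * (((u + d : ℝ) : ℂ) - n)‖ ≤
      (d + 1) * ((2 + Real.log u) * d) := by
    have h1 : ∀ n ∈ Ioc ⌊u⌋₊ ⌊u + d⌋₊, ‖a n * (((u + d : ℝ) : ℂ) - n)‖ ≤
        (2 + Real.log u) * d := by
      intro n hn
      rw [mem_Ioc] at hn
      have hn1 : u < n := (Nat.floor_lt hupos.le).mp hn.1
      have hn2 : (n : ℝ) ≤ u + d := (Nat.le_floor_iff (by positivity)).mp hn.2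
      rw [norm_mul]
      have h2 : ‖a n‖ ≤ 2 + Real.log u := by
        refine (ha n (by omega)).trans ?_
        have h3 : Real.log n ≤ Real.log (2 * u) :=
          Real.log_le_log (by linarith) (by linarith)
        rw [Real.log_mul (by norm_num) hupos.ne'] at h3
        have := Real.log_two_lt_d9
        linarith
      have h3 : ‖((u + d : ℝ) : ℂ) - n‖ ≤ d := by
        have : ((u + d : ℝ) : ℂ) - n = ((u + d - n : ℝ) : ℂ) := by push_cast; ring
        rw [this, Complex.norm_real, Real.norm_eq_abs, abs_le]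
        constructor <;> linarith
      have h4 : 0 ≤ Real.log u := Real.log_nonneg hu1'
      exact mul_le_mul h2 h3 (norm_nonneg _) (by linarith)
    refine (norm_sum_le _ _).trans ((sum_le_sum h1).trans ?_)
    rw [sum_const, Nat.card_Ioc, nsmul_eq_mul]
    have h4 : 0 ≤ Real.log u := Real.log_nonneg hu1'
    refine mul_le_mul_of_nonneg_right ?_ (by positivity)
    rw [Nat.cast_sub hfl]
    have := Nat.floor_le (show 0 ≤ u + d by positivity)
    have := Nat.lt_floor_add_one u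
    linarith
  have hlog : 0 ≤ Real.log u := Real.log_nonneg hu1'
  have hmain : d * ‖∑ n ∈ Icc 1 ⌊u⌋₊, a n‖ ≤ κ * (u + d) ^ 2 + κ * u ^ 2 +
      (d + 1) * ((2 + Real.log u) * d) := by
    have e1 : d * ‖∑ n ∈ Icc 1 ⌊u⌋₊, a n‖ = ‖(d : ℂ) * ∑ n ∈ Icc 1 ⌊u⌋₊, a n‖ := by
      rw [norm_mul, Complex.norm_real, Real.norm_of_nonneg hdpos.le]
    rw [e1, hid]
    refine (norm_sub_le _ _).trans (add_le_add ((norm_sub_le _ _).trans (add_le_add hB hA)) hlast)
  have hκd : κ * u = Real.sqrt κ * d := by rw [hd, ← mul_assoc, hss]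
  have h5 : κ * (u + d) ^ 2 + κ * u ^ 2 ≤ 5 * (d * d) := by
    have h6 : κ * u ^ 2 = d * d := by rw [hd]; nlinarith [hss]
    have h7 : (u + d) ^ 2 ≤ 4 * u ^ 2 := by nlinarith
    nlinarith
  have h8 : (d + 1) * ((2 + Real.log u) * d) ≤ (2 * d) * ((2 + Real.log u) * d) := by
    gcongr; linarith
  have h9 : d * ‖∑ n ∈ Icc 1 ⌊u⌋₊, a n‖ ≤ d * (20 * d * (1 + Real.log u)) := by
    refine hmain.trans ?_
    have : 0 ≤ d * d * Real.log u := by positivity
    nlinarith [mul_pos hdpos hdpos]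
  have h10 := le_of_mul_le_mul_left h9 hdpos
  calc _ ≤ 20 * d * (1 + Real.log u) := h10
    _ = _ := by rw [hd]; ring

end Pool.Agent.Lib.H68T
end
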