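import Pool.Agent.Lib.H1M.RV.M010
import Pool.Agent.Lib.H1M.RV.M012

/-! Merged copies (to shorten the build) of Lib.H68T.PER1. -/

-- from Lib.H68T.PER1
section

/-!
# Chunk PER1; part of PER: Perron's formula with Cesàro weights, contour shift
-/

open Finset MeasureTheory

namespace Pool.Agent.Lib.H68T

/-! ### Auxiliary sums -/

theorem PER_step (δ : ℝ) (hδ : 0 < δ) (N : ℕ) (hN : 1 ≤ N) :
    ((N + 1 : ℕ) : ℝ) ^ (-(1 + δ)) ≤ (1 / δ) * ((N : ℝ) ^ (-δ) - ((N + 1 : ℕ) : ℝ) ^ (-δ)) := by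
  have hN0 : (0 : ℝ) < N := by exact_mod_cast hN
  have hM0 : (0 : ℝ) < ((N + 1 : ℕ) : ℝ) := by positivity
  set m : ℝ := ((N + 1 : ℕ) : ℝ) with hm
  have hmN : (N : ℝ) = m * (1 - 1 / m) := by
    rw [hm]; push_cast
    field_simp
    ring
  have hx1 : 0 < 1 - 1 / m := by
    have := hmN ▸ hN0
    exact (pos_iff_pos_of_mul_pos this).mp hM0
  have h1 : (N : ℝ) ^ (-δ) = m ^ (-δ) * (1 - 1 / m) ^ (-δ) := by
    rw [hmN, Real.mul_rpow hM0.le hx1.le]
  have h2 : 1 + δ / m ≤ (1 - 1 / m) ^ (-δ) := by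
    rw [Real.rpow_def_of_pos hx1]
    have h3 : Real.log (1 - 1 / m) ≤ -(1 / m) := by
      have := Real.log_le_sub_one_of_pos hx1
      linarith
    have h4 := Real.add_one_le_exp (Real.log (1 - 1 / m) * -δ)
    have h5 : δ / m ≤ Real.log (1 - 1 / m) * -δ := by
      have : δ / m = -(1 / m) * -δ := by ring
      rw [this]
      nlinarith
    linarith
  have h6 : m ^ (-(1 + δ)) = m ^ (-δ) / m := by
    rw [show -(1 + δ) = -δ - 1 by ring, Real.rpow_sub hM0, Real.rpow_one]
  rw [h1, h6]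
  have h7 : 0 < m ^ (-δ) := Real.rpow_pos_of_pos hM0 _
  have h8 : m ^ (-δ) * (1 + δ / m) ≤ m ^ (-δ) * (1 - 1 / m) ^ (-δ) :=
    mul_le_mul_of_nonneg_left h2 h7.le
  have h9 : m ^ (-δ) / m = (1 / δ) * (m ^ (-δ) * (1 + δ / m) - m ^ (-δ)) := by
    field_simp
    ring
  rw [h9]
  have : 0 < 1 / δ := by positivity
  nlinarith

theorem PER_sum_le (δ : ℝ) (hδ : 0 < δ) (N : ℕ) :
    ∑ n ∈ range (N + 1), (((n + 1 : ℕ) : ℝ) ^ (-(1 + δ))) ≤
      1 + (1 / δ) * (1 - ((N + 1 : ℕ) : ℝ) ^ (-δ)) := by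
  induction N with
  | zero => simp
  | succ N ih =>
    rw [sum_range_succ]
    have := PER_step δ hδ (N + 1) (by omega)
    push_cast at *
    nlinarith

theorem PER_tsum (ε : ℝ) (hε : 0 < ε) :
    Summable (fun n : ℕ => (1 + Real.log n) * (n : ℝ) ^ (-(1 + ε))) ∧
      ∑' n : ℕ, (1 + Real.log n) * (n : ℝ) ^ (-(1 + ε)) ≤ (1 + 2 / ε) ^ 2 := by
  have h0 : (fun n : ℕ => (1 + Real.log n) * (n : ℝ) ^ (-(1 + ε))) 0 = 0 := by
    simp only [Nat.cast_zero]
    rw [Real.zero_rpow (by linarith)]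
    ring
  have hnn : ∀ n : ℕ, 0 ≤ (1 + Real.log n) * (n : ℝ) ^ (-(1 + ε)) := by
    intro n
    have : 0 ≤ Real.log n := Real.log_natCast_nonneg n
    positivity
  have hle : ∀ n : ℕ, (1 + Real.log ((n + 1 : ℕ) : ℝ)) * ((n + 1 : ℕ) : ℝ) ^ (-(1 + ε)) ≤
      (1 + 2 / ε) * ((n + 1 : ℕ) : ℝ) ^ (-(1 + ε / 2)) := by
    intro n
    set m : ℝ := ((n + 1 : ℕ) : ℝ) with hm
    have hm1 : 1 ≤ m := by rw [hm]; push_cast; linarith [Nat.cast_nonneg (α := ℝ) n]
    have hm0 : 0 < m := by linarith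
    have h1 : Real.log m ≤ m ^ (ε / 2) / (ε / 2) := Real.log_le_rpow_div hm0.le (by positivity)
    have h2 : 1 ≤ m ^ (ε / 2) := Real.one_le_rpow hm1 (by positivity)
    have h3 : 1 + Real.log m ≤ (1 + 2 / ε) * m ^ (ε / 2) := by
      have : m ^ (ε / 2) / (ε / 2) = 2 / ε * m ^ (ε / 2) := by field_simp
      rw [this] at h1
      linarith
    have h4 : m ^ (-(1 + ε / 2)) = m ^ (ε / 2) * m ^ (-(1 + ε)) := by
      rw [← Real.rpow_add hm0]; congr 1; ring
    rw [h4, ← mul_assoc]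
    exact mul_le_mul_of_nonneg_right h3 (Real.rpow_nonneg hm0.le _)
  have hpart : ∀ N : ℕ, ∑ n ∈ range N, (1 + Real.log n) * (n : ℝ) ^ (-(1 + ε)) ≤
      (1 + 2 / ε) ^ 2 := by
    intro N
    have hmono : ∑ n ∈ range N, (1 + Real.log n) * (n : ℝ) ^ (-(1 + ε)) ≤
        ∑ n ∈ range (N + 1 + 1), (1 + Real.log n) * (n : ℝ) ^ (-(1 + ε)) :=
      sum_le_sum_of_subset_of_nonneg (range_subset_range.mpr (by omega)) fun n _ _ => hnn n
    refine hmono.trans ?_
    rw [sum_range_succ']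
    have h0' : (1 + Real.log ((0 : ℕ) : ℝ)) * ((0 : ℕ) : ℝ) ^ (-(1 + ε)) = 0 := h0
    rw [h0', add_zero]
    refine (sum_le_sum fun n _ => hle n).trans ?_
    rw [← mul_sum]
    have h1 := PER_sum_le (ε / 2) (by positivity) N
    have h2 : ∑ n ∈ range (N + 1), (((n + 1 : ℕ) : ℝ) ^ (-(1 + ε / 2))) ≤ 1 + 2 / ε := by
      refine h1.trans ?_
      have h3 : 0 ≤ ((N + 1 : ℕ) : ℝ) ^ (-(ε / 2)) := Real.rpow_nonneg (by positivity) _
      have h4 : 1 / (ε / 2) = 2 / ε := by field_simp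
      rw [h4]
      have h5 : 0 < 2 / ε := by positivity
      nlinarith
    have h5 : 0 < 2 / ε := by positivity
    calc (1 + 2 / ε) * ∑ n ∈ range (N + 1), (((n + 1 : ℕ) : ℝ) ^ (-(1 + ε / 2)))
        ≤ (1 + 2 / ε) * (1 + 2 / ε) := mul_le_mul_of_nonneg_left h2 (by positivity)
      _ = _ := by ring
  have hsum := summable_of_sum_range_le hnn hpart
  exact ⟨hsum, hsum.tsum_le_of_sum_range_le hpart⟩

/-! ### Kernels -/

theorem PER_norm_sq (σ y : ℝ) : ‖(σ : ℂ) + y * Complex.I‖ ^ 2 = σ ^ 2 + y ^ 2 := by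
  rw [← Complex.normSq_eq_norm_sq, Complex.normSq_apply]
  simp
  ring

theorem PER_den (σ y m : ℝ) (hm : 0 < m) (hσ : m ≤ σ ^ 2) (hm1 : m ≤ 1) (hσ0 : 0 ≤ σ) :
    ‖(1 : ℂ) / (((σ : ℂ) + y * Complex.I) * ((σ : ℂ) + y * Complex.I + 1))‖ ≤
      (1 / m) * (1 + y ^ 2)⁻¹ := by
  rw [norm_div, norm_one, norm_mul]
  have h1 := PER_norm_sq σ y
  have h2 := PER_norm_sq (σ + 1) y
  have e : (σ : ℂ) + y * Complex.I + 1 = ((σ + 1 : ℝ) : ℂ) + y * Complex.I := by push_cast; ring
  rw [e]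
  set p := ‖(σ : ℂ) + y * Complex.I‖
  set q := ‖((σ + 1 : ℝ) : ℂ) + y * Complex.I‖
  have hp : 0 ≤ p := norm_nonneg _
  have hq : 0 ≤ q := norm_nonneg _
  have h3 : m * (1 + y ^ 2) ≤ p ^ 2 := by nlinarith [sq_nonneg y]
  have h4 : p ^ 2 ≤ q ^ 2 := by nlinarith
  have h5 : p ≤ q := (sq_le_sq₀ hp hq).mp h4
  have h6 : m * (1 + y ^ 2) ≤ p * q := by nlinarith
  have h7 : 0 < m * (1 + y ^ 2) := by positivity
  calc 1 / (p * q) ≤ 1 / (m * (1 + y ^ 2)) := one_div_le_one_div_of_le h7 h6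
    _ = _ := by rw [one_div, mul_inv, one_div]

theorem PER_integrable1 (σ : ℝ) (hσ : 1 ≤ σ) :
    Integrable (fun y : ℝ => (1 : ℂ) / (((σ : ℂ) + y * Complex.I) *
      ((σ : ℂ) + y * Complex.I + 1))) := by
  refine Integrable.mono' (g := fun y => (1 / 1) * (1 + y ^ 2)⁻¹)
    (integrable_inv_one_add_sq.const_mul _) ?_ ?_
  · refine Continuous.aestronglyMeasurable ?_
    refine Continuous.div continuous_const (by fun_prop) ?_
    intro y
    refine mul_ne_zero ?_ ?_
    · intro h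
      have := congrArg Complex.re h
      simp at this
      linarith
    · intro h
      have := congrArg Complex.re h
      simp at this
      linarith
  · exact Filter.Eventually.of_forall fun y => PER_den σ y 1 one_pos (by nlinarith) le_rfl
      (by linarith)

theorem PER_kernel1 (σ : ℝ) (hσ : 1 ≤ σ) (x : ℝ) (hx : 0 < x) :
    (2 * Real.pi : ℂ) * ((max 0 (1 - 1 / x) : ℝ) : ℂ) =
      ∫ y : ℝ, (x : ℂ) ^ ((σ : ℂ) + y * Complex.I) * (1 / (((σ : ℂ) + y * Complex.I) *
        ((σ : ℂ) + y * Complex.I + 1))) := by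
  set g : ℝ → ℂ := fun y => Set.indicator (Set.Ioc 0 1) (fun _ => 1 : ℝ → ℂ) y -
    Set.indicator (Set.Ioc 0 1) (fun t => (t : ℂ) ^ (1 : ℂ) : ℝ → ℂ) y with hg
  have hM : ∀ s : ℂ, 0 < s.re → HasMellin g s (1 / (s * (s + 1))) := by
    intro s hs
    have h1 := hasMellin_one_Ioc hs
    have h2 := hasMellin_cpow_Ioc 1 (s := s) (by simp; linarith)
    have h3 := hasMellin_sub h1.1 h2.1
    rw [h1.2, h2.2] at h3
    have e : 1 / s - 1 / (s + 1) = 1 / (s * (s + 1)) := by
      have hs0 : s ≠ 0 := by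
        intro h; rw [h] at hs; simp at hs
      have hs1 : s + 1 ≠ 0 := by
        intro h
        have := congrArg Complex.re h
        simp at this
        linarith
      field_simp
      ring
    rw [e] at h3
    exact h3
  have hmel : ∀ y : ℝ, mellin g ((σ : ℂ) + y * Complex.I) =
      1 / (((σ : ℂ) + y * Complex.I) * ((σ : ℂ) + y * Complex.I + 1)) := by
    intro y
    exact (hM _ (by simp; linarith)).2
  have hinv : (0 : ℝ) < 1 / x := by positivity
  have hgeq : ∀ y : ℝ, 0 < y → g y = ((max 0 (1 - y) : ℝ) : ℂ) := by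
    intro y hy
    simp only [hg]
    by_cases h : y ≤ 1
    · rw [Set.indicator_of_mem (show y ∈ Set.Ioc (0:ℝ) 1 from ⟨hy, h⟩),
        Set.indicator_of_mem (show y ∈ Set.Ioc (0:ℝ) 1 from ⟨hy, h⟩),
        max_eq_right (by linarith)]
      simp
    · rw [Set.indicator_of_notMem (fun hh => h hh.2), Set.indicator_of_notMem (fun hh => h hh.2),
        max_eq_left (by linarith)]
      simp
  have hcont : ContinuousAt g (1 / x) := by
    have h1 : ContinuousAt (fun y : ℝ => ((max 0 (1 - y) : ℝ) : ℂ)) (1 / x) := by fun_prop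
    refine h1.congr ?_
    filter_upwards [lt_mem_nhds hinv] with y hy
    exact (hgeq y hy).symm
  have hvert : Complex.VerticalIntegrable (mellin g) σ := by
    unfold Complex.VerticalIntegrable
    refine (PER_integrable1 σ hσ).congr ?_
    exact Filter.Eventually.of_forall fun y => (hmel y).symm
  have key := mellinInv_mellin_eq σ g hinv (hM σ (by simp; linarith)).1 hvert hcont
  rw [hgeq _ hinv] at key
  rw [← key]
  unfold mellinInv
  rw [Complex.real_smul, ← mul_assoc]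
  have hpi : (2 * Real.pi : ℂ) * ((1 / (2 * Real.pi) : ℝ) : ℂ) = 1 := by
    push_cast
    have : (Real.pi : ℂ) ≠ 0 := by exact_mod_cast Real.pi_ne_zero
    field_simp
  rw [hpi, one_mul]
  refine integral_congr_ae (Filter.Eventually.of_forall fun y => ?_)
  simp only [smul_eq_mul]
  rw [hmel y]
  congr 1
  rw [one_div, Complex.ofReal_inv, Complex.inv_cpow _ _ (by
    rw [Complex.arg_ofReal_of_nonneg hx.le]; exact Real.pi_pos.ne), Complex.cpow_neg, inv_inv]

theorem PER_integrable2 (σ : ℝ) (hσ : 1 < σ) :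
    Integrable (fun y : ℝ => (1 : ℂ) / (((σ : ℂ) + y * Complex.I - 1) *
      (((σ : ℂ) + y * Complex.I) * ((σ : ℂ) + y * Complex.I + 1)))) := by
  have h1 := PER_integrable1 σ hσ.le
  refine Integrable.mono' (g := fun y => (1 / (σ - 1)) * ‖(1 : ℂ) / (((σ : ℂ) + y * Complex.I) *
      ((σ : ℂ) + y * Complex.I + 1))‖)
    (h1.norm.const_mul _) ?_ ?_
  · refine Continuous.aestronglyMeasurable ?_
    refine Continuous.div continuous_const (by fun_prop) ?_
    intro y
    refine mul_ne_zero ?_ (mul_ne_zero ?_ ?_)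
    · intro h
      have := congrArg Complex.re h
      simp at this
      linarith
    · intro h
      have := congrArg Complex.re h
      simp at this
      linarith
    · intro h
      have := congrArg Complex.re h
      simp at this
      linarith
  · refine Filter.Eventually.of_forall fun y => ?_
    have h2 : σ - 1 ≤ ‖(σ : ℂ) + y * Complex.I - 1‖ := by
      have := Complex.abs_re_le_norm ((σ : ℂ) + y * Complex.I - 1)
      simp at this
      exact (le_abs_self _).trans this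
    have h3 : 1 / ‖(σ : ℂ) + y * Complex.I - 1‖ ≤ 1 / (σ - 1) :=
      one_div_le_one_div_of_le (by linarith) h2
    have e : (1 : ℂ) / (((σ : ℂ) + y * Complex.I - 1) *
        (((σ : ℂ) + y * Complex.I) * ((σ : ℂ) + y * Complex.I + 1))) =
        (1 / ((σ : ℂ) + y * Complex.I - 1)) * (1 / (((σ : ℂ) + y * Complex.I) *
          ((σ : ℂ) + y * Complex.I + 1))) := by
      rw [one_div_mul_one_div]
    rw [e, norm_mul]
    refine mul_le_mul_of_nonneg_right ?_ (norm_nonneg _)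
    rw [norm_div, norm_one]
    exact h3

theorem PER_kernel2 (σ : ℝ) (hσ : 1 < σ) (u : ℝ) (hu : 1 < u) :
    (2 * Real.pi : ℂ) * ((u : ℂ) / 2 - 1 + 1 / (2 * u)) =
      ∫ y : ℝ, (u : ℂ) ^ ((σ : ℂ) + y * Complex.I) * (1 / (((σ : ℂ) + y * Complex.I - 1) *
        (((σ : ℂ) + y * Complex.I) * ((σ : ℂ) + y * Complex.I + 1)))) := by
  set g : ℝ → ℂ := fun y => (1 / 2 : ℂ) • Set.indicator (Set.Ioc 0 1)
      (fun t => (t : ℂ) ^ (-1 : ℂ) : ℝ → ℂ) y -
    Set.indicator (Set.Ioc 0 1) (fun _ => 1 : ℝ → ℂ) y +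
    (1 / 2 : ℂ) • Set.indicator (Set.Ioc 0 1) (fun t => (t : ℂ) ^ (1 : ℂ) : ℝ → ℂ) y with hg
  have hM : ∀ s : ℂ, 1 < s.re → HasMellin g s (1 / ((s - 1) * (s * (s + 1)))) := by
    intro s hs
    have h1 := hasMellin_one_Ioc (s := s) (by linarith)
    have h2 := hasMellin_const_smul (hasMellin_cpow_Ioc 1 (s := s) (by simp; linarith)).1
      (1 / 2 : ℂ)
    have h3 := hasMellin_const_smul (hasMellin_cpow_Ioc (-1) (s := s) (by simp; linarith)).1
      (1 / 2 : ℂ)
    have h4 := hasMellin_sub h3.1 h1.1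
    have h5 := hasMellin_add h4.1 h2.1
    rw [h4.2, h3.2, h2.2, h1.2, (hasMellin_cpow_Ioc 1 (s := s) (by simp; linarith)).2,
      (hasMellin_cpow_Ioc (-1) (s := s) (by simp; linarith)).2] at h5
    have e : (1 / 2 : ℂ) • (1 / (s + -1)) - 1 / s + (1 / 2 : ℂ) • (1 / (s + 1)) =
        1 / ((s - 1) * (s * (s + 1))) := by
      have hs0 : s ≠ 0 := by
        intro h; rw [h] at hs; simp at hs; linarith
      have hs1 : s + 1 ≠ 0 := by
        intro h
        have := congrArg Complex.re h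
        simp at this
        linarith
      have hs2 : s - 1 ≠ 0 := by
        intro h
        have := congrArg Complex.re h
        simp at this
        linarith
      rw [show s + -1 = s - 1 by ring, smul_eq_mul, smul_eq_mul]
      field_simp
      ring
    rw [e] at h5
    exact h5
  have hmel : ∀ y : ℝ, mellin g ((σ : ℂ) + y * Complex.I) =
      1 / (((σ : ℂ) + y * Complex.I - 1) *
        (((σ : ℂ) + y * Complex.I) * ((σ : ℂ) + y * Complex.I + 1))) := by
    intro y
    exact (hM _ (by simp; linarith)).2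
  have hu0 : 0 < u := by linarith
  have hinv : (0 : ℝ) < 1 / u := by positivity
  have hinv1 : 1 / u < 1 := by rw [div_lt_one hu0]; exact hu
  have hgeq : ∀ y : ℝ, 0 < y → y < 1 → g y = ((1 / (2 * y) - 1 + y / 2 : ℝ) : ℂ) := by
    intro y hy h
    simp only [hg]
    have hm : y ∈ Set.Ioc (0:ℝ) 1 := ⟨hy, h.le⟩
    rw [Set.indicator_of_mem hm, Set.indicator_of_mem hm, Set.indicator_of_mem hm,
      Complex.cpow_neg, Complex.cpow_one, smul_eq_mul, smul_eq_mul]
    push_cast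
    field_simp
  have hcont : ContinuousAt g (1 / u) := by
    have h1 : ContinuousAt (fun y : ℝ => ((1 / (2 * y) - 1 + y / 2 : ℝ) : ℂ)) (1 / u) := by
      refine Complex.continuous_ofReal.continuousAt.comp ?_
      refine ContinuousAt.add (ContinuousAt.sub (ContinuousAt.div continuousAt_const
        (by fun_prop) (by positivity)) continuousAt_const) (by fun_prop)
    refine h1.congr ?_
    filter_upwards [lt_mem_nhds hinv, gt_mem_nhds hinv1] with y hy hy1
    exact (hgeq y hy hy1).symm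
  have hvert : Complex.VerticalIntegrable (mellin g) σ := by
    unfold Complex.VerticalIntegrable
    refine (PER_integrable2 σ hσ).congr ?_
    exact Filter.Eventually.of_forall fun y => (hmel y).symm
  have key := mellinInv_mellin_eq σ g hinv (hM σ (by simp; linarith)).1 hvert hcont
  rw [hgeq _ hinv hinv1] at key
  have e2 : (((1 / (2 * (1 / u)) - 1 + (1 / u) / 2 : ℝ)) : ℂ) = (u : ℂ) / 2 - 1 + 1 / (2 * u) := by
    push_cast
    have : (u : ℂ) ≠ 0 := by exact_mod_cast hu0.ne'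
    field_simp
  rw [e2] at key
  rw [← key]
  unfold mellinInv
  rw [Complex.real_smul, ← mul_assoc]
  have hpi : (2 * Real.pi : ℂ) * ((1 / (2 * Real.pi) : ℝ) : ℂ) = 1 := by
    push_cast
    have : (Real.pi : ℂ) ≠ 0 := by exact_mod_cast Real.pi_ne_zero
    field_simp
  rw [hpi, one_mul]
  refine integral_congr_ae (Filter.Eventually.of_forall fun y => ?_)
  simp only [smul_eq_mul]
  rw [hmel y]
  congr 1
  rw [one_div, Complex.ofReal_inv, Complex.inv_cpow _ _ (by
    rw [Complex.arg_ofReal_of_nonneg hu0.le]; exact Real.pi_pos.ne), Complex.cpow_neg, inv_inv]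

/-- Summation of the kernel formula over a Dirichlet series. -/
theorem PER_series (a : ℕ → ℂ) (σ u A : ℝ) (hσ : 1 < σ) (hu : 1 < u)
    (hs : Summable (fun n => ‖LSeries.term a (σ : ℂ) n‖)) 
    (hA : ∑' n, ‖LSeries.term a (σ : ℂ) n‖ ≤ A) :
    (∀ y : ℝ, ‖LSeries a ((σ : ℂ) + y * Complex.I)‖ ≤ A) ∧
    Integrable (fun y : ℝ => LSeries a ((σ : ℂ) + y * Complex.I) *
      ((u : ℂ) ^ ((σ : ℂ) + y * Complex.I) * (1 / (((σ : ℂ) + y * Complex.I) *
        ((σ : ℂ) + y * Complex.I + 1))))) ∧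
    (2 * Real.pi : ℂ) * ∑ n ∈ Icc 1 ⌊u⌋₊, a n * (1 - n / u) =
      ∫ y : ℝ, LSeries a ((σ : ℂ) + y * Complex.I) *
        ((u : ℂ) ^ ((σ : ℂ) + y * Complex.I) * (1 / (((σ : ℂ) + y * Complex.I) *
        ((σ : ℂ) + y * Complex.I + 1)))) := by
  have hu0 : 0 < u := by linarith
  have hu0' : (u : ℂ) ≠ 0 := by exact_mod_cast hu0.ne'
  have hterm : ∀ (y : ℝ) (n : ℕ), ‖LSeries.term a ((σ : ℂ) + y * Complex.I) n‖ =
      ‖LSeries.term a (σ : ℂ) n‖ := by
    intro y n
    rw [LSeries.norm_term_eq, LSeries.norm_term_eq]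
    simp
  have hbound : ∀ y : ℝ, ‖LSeries a ((σ : ℂ) + y * Complex.I)‖ ≤ A := by
    intro y
    unfold LSeries
    refine (norm_tsum_le_tsum_norm ?_).trans ?_
    · simpa only [hterm y] using hs
    · simpa only [hterm y] using hA
  -- the kernel
  set W : ℝ → ℂ := fun y => (u : ℂ) ^ ((σ : ℂ) + y * Complex.I) *
    (1 / (((σ : ℂ) + y * Complex.I) * ((σ : ℂ) + y * Complex.I + 1))) with hW
  have hcpow : Continuous (fun y : ℝ => (u : ℂ) ^ ((σ : ℂ) + y * Complex.I)) := by
    refine Continuous.const_cpow (by fun_prop) (Or.inl hu0')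
  have hWint : Integrable W := by
    have h1 := PER_integrable1 σ hσ.le
    refine Integrable.bdd_mul (c := u ^ σ) h1 hcpow.aestronglyMeasurable ?_
    refine Filter.Eventually.of_forall fun y => ?_
    rw [Complex.norm_cpow_eq_rpow_re_of_pos hu0]
    simp
  have hmeas : ∀ n : ℕ, Continuous (fun y : ℝ => LSeries.term a ((σ : ℂ) + y * Complex.I) n) := by
    intro n
    by_cases hn : n = 0
    · subst hn
      simpa using continuous_const
    · simp only [LSeries.term_of_ne_zero hn]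
      refine Continuous.div continuous_const ?_ ?_
      · exact Continuous.const_cpow (by fun_prop) (Or.inl (by exact_mod_cast hn))
      · intro y
        rw [Complex.cpow_def_of_ne_zero (by exact_mod_cast hn)]
        exact Complex.exp_ne_zero _
  have hF : ∀ n : ℕ, Integrable (fun y : ℝ => LSeries.term a ((σ : ℂ) + y * Complex.I) n * W y) := by
    intro n
    refine Integrable.bdd_mul (c := ‖LSeries.term a (σ : ℂ) n‖) hWint
      (hmeas n).aestronglyMeasurable ?_
    exact Filter.Eventually.of_forall fun y => (hterm y n).le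
  have hFn : ∀ n : ℕ, ∫ y : ℝ, ‖LSeries.term a ((σ : ℂ) + y * Complex.I) n * W y‖ =
      ‖LSeries.term a (σ : ℂ) n‖ * ∫ y : ℝ, ‖W y‖ := by
    intro n
    simp only [norm_mul, hterm]
    rw [integral_const_mul]
  have hsum : Summable (fun n : ℕ => ∫ y : ℝ, ‖LSeries.term a ((σ : ℂ) + y * Complex.I) n * W y‖) := by
    simp only [hFn]
    exact hs.mul_right _
  have key := hasSum_integral_of_summable_integral_norm hF hsum
  have hts : ∀ y : ℝ, ∑' n : ℕ, LSeries.term a ((σ : ℂ) + y * Complex.I) n * W y =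
      LSeries a ((σ : ℂ) + y * Complex.I) * W y := by
    intro y
    rw [tsum_mul_right]
    rfl
  refine ⟨hbound, ?_, ?_⟩
  · refine Integrable.bdd_mul (c := A) hWint ?_ (Filter.Eventually.of_forall hbound)
    -- measurability as a limit of finite sums
    refine aestronglyMeasurable_of_tendsto_ae (u := Filter.atTop) (f := fun (N : ℕ) (y : ℝ) =>
      ∑ n ∈ range N, LSeries.term a ((σ : ℂ) + y * Complex.I) n) ?_ ?_
    · intro N
      refine Continuous.aestronglyMeasurable ?_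
      exact continuous_finsetSum _ fun n _ => hmeas n
    · refine Filter.Eventually.of_forall fun y => ?_
      have : Summable (fun n => LSeries.term a ((σ : ℂ) + y * Complex.I) n) := by
        refine Summable.of_norm ?_
        simpa only [hterm y] using hs
      exact this.hasSum.tendsto_sum_nat
  · simp only [hts] at key
    rw [← key.tsum_eq]
    have hval : ∀ n : ℕ, ∫ y : ℝ, LSeries.term a ((σ : ℂ) + y * Complex.I) n * W y =
        if n ∈ Icc 1 ⌊u⌋₊ then (2 * Real.pi : ℂ) * (a n * (1 - n / u)) else 0 := by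
      intro n
      by_cases hn : n = 0
      · subst hn
        simp
      · have hnpos : (0 : ℝ) < n := by exact_mod_cast Nat.pos_of_ne_zero hn
        have hnC : (n : ℂ) ≠ 0 := by exact_mod_cast hn
        have hx : 0 < u / n := by positivity
        have h1 : ∀ y : ℝ, LSeries.term a ((σ : ℂ) + y * Complex.I) n * W y =
            a n * (((u / n : ℝ) : ℂ) ^ ((σ : ℂ) + y * Complex.I) *
              (1 / (((σ : ℂ) + y * Complex.I) * ((σ : ℂ) + y * Complex.I + 1)))) := by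
          intro y
          rw [LSeries.term_of_ne_zero hn]
          have h2 : ((u / n : ℝ) : ℂ) ^ ((σ : ℂ) + y * Complex.I) =
              (u : ℂ) ^ ((σ : ℂ) + y * Complex.I) / (n : ℂ) ^ ((σ : ℂ) + y * Complex.I) := by
            have h3 := Complex.mul_cpow_ofReal_nonneg hu0.le (inv_nonneg.mpr hnpos.le)
              ((σ : ℂ) + y * Complex.I)
            rw [div_eq_mul_inv, Complex.ofReal_mul, h3, div_eq_mul_inv, Complex.ofReal_inv,
              Complex.inv_cpow _ _ (by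
                rw [Complex.arg_ofReal_of_nonneg hnpos.le]; exact Real.pi_pos.ne)]
            simp
          rw [h2]
          simp only [hW]
          ring
        simp only [h1]
        rw [integral_const_mul, ← PER_kernel1 σ hσ.le _ hx]
        have h4 : 1 / (u / n) = n / u := by field_simp
        rw [h4]
        split_ifs with hmem
        · rw [mem_Icc] at hmem
          have hle : (n : ℝ) ≤ u := (Nat.le_floor_iff hu0.le).mp hmem.2
          rw [max_eq_right (by rw [sub_nonneg, div_le_one hu0]; exact hle)]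
          push_cast
          ring
        · have hlt : u < n := by
            rw [mem_Icc] at hmem
            have h5 : ¬ n ≤ ⌊u⌋₊ := fun h => hmem ⟨by omega, h⟩
            exact (Nat.floor_lt hu0.le).mp (by omega)
          rw [max_eq_left (by rw [sub_nonpos, one_le_div hu0]; exact hlt.le)]
          simp
    simp only [hval]
    rw [tsum_eq_sum (s := Icc 1 ⌊u⌋₊) (fun n hn => by rw [if_neg hn]), mul_sum]
    refine sum_congr rfl fun n hn => ?_
    rw [if_pos hn]

theorem PER_main (a : ℕ → ℂ) (f : ℂ → ℂ) (κ : ℂ) (η T B u : ℝ) (hκ : ‖κ‖ ≤ 1)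
    (hη0 : 0 < η) (hη1 : η ≤ 1 / 2) (hT : 1 ≤ T) (hu : 3 ≤ u) (hB : 1 ≤ B)
    (ha : ∀ n, 1 ≤ n → ‖a n‖ ≤ 1 + Real.log n)
    (hf : AnalyticOnNhd ℂ f {s | 1 - η ≤ s.re ∧ s.re ≤ 2 ∧ |s.im| ≤ T})
    (hfB : ∀ s : ℂ, 1 - η ≤ s.re → s.re ≤ 2 → |s.im| ≤ T → ‖f s‖ ≤ B)
    (hfL : ∀ s : ℂ, 1 < s.re → f s = LSeries a s - κ / (s - 1)) :
    ‖∑ n ∈ Icc 1 ⌊u⌋₊, a n * (1 - n / u) - κ * (u / 2 - 1 + 1 / (2 * u))‖ ≤
      10 * (B * u ^ (1 - η) + B * u / T ^ 2 + u * (1 + Real.log u) ^ 2 / T) := by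
  have hu0 : 0 < u := by linarith
  have hu0' : (u : ℂ) ≠ 0 := by exact_mod_cast hu0.ne'
  have hlog1 : 1 ≤ Real.log u := by
    rw [Real.le_log_iff_exp_le hu0]
    have := Real.exp_one_lt_d9
    linarith
  have hlog0 : 0 < Real.log u := by linarith
  set ε : ℝ := 1 / Real.log u with hε
  have hε0 : 0 < ε := by positivity
  have hε1 : ε ≤ 1 := by rw [hε, div_le_one hlog0]; exact hlog1
  set σ : ℝ := 1 + ε with hσdef
  have hσ : 1 < σ := by linarith
  have hσ2 : σ ≤ 2 := by linarith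
  have huσ : u ^ σ = u * Real.exp 1 := by
    rw [hσdef, Real.rpow_add hu0, Real.rpow_one, Real.rpow_def_of_pos hu0 ε, hε,
      mul_one_div_cancel hlog0.ne']
  have he3 : Real.exp 1 ≤ 3 := by have := Real.exp_one_lt_d9; linarith
  -- Dirichlet series bound
  obtain ⟨hsm, hts⟩ := PER_tsum ε hε0
  have htb : ∀ n : ℕ, ‖LSeries.term a (σ : ℂ) n‖ ≤ (1 + Real.log n) * (n : ℝ) ^ (-(1 + ε)) := by
    intro n
    by_cases hn : n = 0
    · subst hn
      simp only [LSeries.term_zero, norm_zero]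
      simp only [Nat.cast_zero, Real.log_zero, add_zero, one_mul]
      exact Real.rpow_nonneg le_rfl _
    · have hnpos : (0 : ℝ) < n := by exact_mod_cast Nat.pos_of_ne_zero hn
      rw [LSeries.norm_term_eq, if_neg hn]
      simp only [Complex.ofReal_re]
      rw [Real.rpow_neg hnpos.le, ← div_eq_mul_inv]
      exact div_le_div_of_nonneg_right (ha n (by omega)) (Real.rpow_nonneg hnpos.le _)
  have hs : Summable (fun n => ‖LSeries.term a (σ : ℂ) n‖) :=
    Summable.of_nonneg_of_le (fun n => norm_nonneg _) htb hsm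
  have hA : ∑' n, ‖LSeries.term a (σ : ℂ) n‖ ≤ 4 * (1 + Real.log u) ^ 2 := by
    refine (hs.tsum_le_tsum htb hsm).trans (hts.trans ?_)
    have : 2 / ε = 2 * Real.log u := by rw [hε]; field_simp
    rw [this]
    nlinarith
  obtain ⟨hL1, hL2, hL3⟩ := PER_series a σ u _ hσ (by linarith) hs hA
  have hK := PER_kernel2 σ hσ u (by linarith)
  have hKint : Integrable (fun y : ℝ => (u : ℂ) ^ ((σ : ℂ) + y * Complex.I) *
      (1 / (((σ : ℂ) + y * Complex.I - 1) *
        (((σ : ℂ) + y * Complex.I) * ((σ : ℂ) + y * Complex.I + 1))))) := by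
    have h1 := PER_integrable2 σ hσ
    refine Integrable.bdd_mul (c := u ^ σ) h1 (Continuous.aestronglyMeasurable
      (Continuous.const_cpow (by fun_prop) (Or.inl hu0'))) ?_
    refine Filter.Eventually.of_forall fun y => ?_
    rw [Complex.norm_cpow_eq_rpow_re_of_pos hu0]
    simp
  -- the function on the line
  set F : ℂ → ℂ := fun s => f s * ((u : ℂ) ^ s * (1 / (s * (s + 1)))) with hFdef
  have hline : ∀ y : ℝ, F ((σ : ℂ) + y * Complex.I) =
      LSeries a ((σ : ℂ) + y * Complex.I) *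
        ((u : ℂ) ^ ((σ : ℂ) + y * Complex.I) * (1 / (((σ : ℂ) + y * Complex.I) *
        ((σ : ℂ) + y * Complex.I + 1)))) - κ * ((u : ℂ) ^ ((σ : ℂ) + y * Complex.I) *
      (1 / (((σ : ℂ) + y * Complex.I - 1) *
        (((σ : ℂ) + y * Complex.I) * ((σ : ℂ) + y * Complex.I + 1))))) := by
    intro y
    simp only [hFdef]
    rw [hfL _ (by simp; linarith)]
    rw [← one_div_mul_one_div ((σ : ℂ) + y * Complex.I - 1)]
    ring
  have hFint : Integrable (fun y : ℝ => F ((σ : ℂ) + y * Complex.I)) := by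
    simp only [hline]
    exact hL2.sub (hKint.const_mul κ)
  have hD : (2 * Real.pi : ℂ) * (∑ n ∈ Icc 1 ⌊u⌋₊, a n * (1 - n / u) -
      κ * (u / 2 - 1 + 1 / (2 * u))) = ∫ y : ℝ, F ((σ : ℂ) + y * Complex.I) := by
    simp only [hline]
    rw [integral_sub hL2 (hKint.const_mul κ), integral_const_mul, ← hL3, ← hK]
    ring
  -- bound of F on the line
  have hkap : ∀ y : ℝ, ‖f ((σ : ℂ) + y * Complex.I)‖ ≤ 5 * (1 + Real.log u) ^ 2 := by
    intro y
    rw [hfL _ (by simp; linarith)]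
    refine (norm_sub_le _ _).trans ?_
    have h1 : ‖κ / ((σ : ℂ) + y * Complex.I - 1)‖ ≤ Real.log u := by
      rw [norm_div]
      have h2 : ε ≤ ‖(σ : ℂ) + y * Complex.I - 1‖ := by
        have := Complex.abs_re_le_norm ((σ : ℂ) + y * Complex.I - 1)
        simp at this
        refine le_trans ?_ ((le_abs_self _).trans this)
        linarith
      calc ‖κ‖ / ‖(σ : ℂ) + y * Complex.I - 1‖ ≤ 1 / ε :=
            div_le_div₀ zero_le_one hκ hε0 h2
        _ = Real.log u := by rw [hε]; field_simp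
    have := hL1 y
    nlinarith
  have hFb : ∀ y : ℝ, ‖F ((σ : ℂ) + y * Complex.I)‖ ≤
      (15 * u * (1 + Real.log u) ^ 2) * (1 + y ^ 2)⁻¹ := by
    intro y
    simp only [hFdef]
    rw [norm_mul, norm_mul, Complex.norm_cpow_eq_rpow_re_of_pos hu0]
    have h1 := PER_den σ y 1 one_pos (by nlinarith) le_rfl (by linarith)
    have h2 : ((σ : ℂ) + y * Complex.I).re = σ := by simp
    rw [h2, huσ]
    have h3 := hkap y
    have h4 : 0 ≤ (1 + y ^ 2)⁻¹ := by positivity
    calc ‖f ((σ : ℂ) + y * Complex.I)‖ * (u * Real.exp 1 *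
          ‖(1 : ℂ) / (((σ : ℂ) + y * Complex.I) * ((σ : ℂ) + y * Complex.I + 1))‖)
        ≤ (5 * (1 + Real.log u) ^ 2) * (u * 3 * (1 / 1 * (1 + y ^ 2)⁻¹)) := by
          gcongr
      _ = _ := by ring
  -- splitting of the integral
  have hsplit := integral_add_compl (μ := volume) (s := Set.Ioc (-T) T) measurableSet_Ioc hFint
  have htail : ‖∫ y in (Set.Ioc (-T) T)ᶜ, F ((σ : ℂ) + y * Complex.I)‖ ≤
      (15 * u * (1 + Real.log u) ^ 2) * (2 / T) := by
    have h1 : ‖∫ y in (Set.Ioc (-T) T)ᶜ, F ((σ : ℂ) + y * Complex.I)‖ ≤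
        ∫ y in (Set.Ioc (-T) T)ᶜ, (15 * u * (1 + Real.log u) ^ 2) * (1 + y ^ 2)⁻¹ :=
      norm_integral_le_of_norm_le (integrable_inv_one_add_sq.const_mul _).integrableOn
        (Filter.Eventually.of_forall hFb)
    refine h1.trans ?_
    rw [integral_const_mul]
    refine mul_le_mul_of_nonneg_left ?_ (by positivity)
    have h2 := integral_add_compl (μ := volume) (s := Set.Ioc (-T) T) measurableSet_Ioc
      integrable_inv_one_add_sq
    rw [integral_univ_inv_one_add_sq, ← intervalIntegral.integral_of_le (by linarith),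
      integral_inv_one_add_sq] at h2
    have h3 : Real.arctan T⁻¹ = Real.pi / 2 - Real.arctan T :=
      Real.arctan_inv_of_pos (by linarith)
    rw [Real.arctan_neg] at h2
    have h4 : Real.arctan T⁻¹ ≤ T⁻¹ := by
      have h6 := Real.le_tan (x := Real.arctan T⁻¹)
        (Real.arctan_nonneg.mpr (by positivity)) (Real.arctan_lt_pi_div_two _)
      rwa [Real.tan_arctan] at h6
    have h5 : 2 / T = 2 * T⁻¹ := by rw [div_eq_mul_inv]
    rw [h5]
    linarith
  -- contour shift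
  have hT0 : 0 < T := by linarith
  have hFd : ∀ s : ℂ, 1 - η ≤ s.re → s.re ≤ 2 → |s.im| ≤ T → DifferentiableAt ℂ F s := by
    intro s h1 h2 h3
    simp only [hFdef]
    have hs0 : s ≠ 0 := by
      intro h; rw [h] at h1; simp at h1; linarith
    have hs1 : s + 1 ≠ 0 := by
      intro h
      have := congrArg Complex.re h
      simp at this
      linarith
    refine (hf s ⟨h1, h2, h3⟩).differentiableAt.mul (DifferentiableAt.mul ?_ ?_)
    · exact differentiableAt_id.const_cpow (Or.inl hu0')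
    · exact (differentiableAt_const _).div (differentiableAt_id.mul
        (differentiableAt_id.add (differentiableAt_const _))) (mul_ne_zero hs0 hs1)
  set z : ℂ := ⟨1 - η, -T⟩ with hz
  set w : ℂ := ⟨σ, T⟩ with hw
  have hrect := Complex.integral_boundary_rect_eq_zero_of_differentiableOn F z w (by
    intro s hs
    rw [Complex.mem_reProdIm, hz, hw] at hs
    simp only at hs
    rw [Set.uIcc_of_le (by linarith), Set.uIcc_of_le (by linarith)] at hs
    exact (hFd s hs.1.1 (hs.1.2.trans hσ2) (abs_le.mpr hs.2)).differentiableWithinAt)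
  simp only [hz, hw] at hrect
  -- vertical side
  have hv : ‖∫ y : ℝ in (-T)..T, F (((1 - η : ℝ) : ℂ) + y * Complex.I)‖ ≤
      4 * (B * u ^ (1 - η)) * Real.pi := by
    have h1 : ∀ y ∈ Set.Ioc (-T) T, ‖F (((1 - η : ℝ) : ℂ) + y * Complex.I)‖ ≤
        4 * (B * u ^ (1 - η)) * (1 + y ^ 2)⁻¹ := by
      intro y hy
      simp only [hFdef]
      rw [norm_mul, norm_mul, Complex.norm_cpow_eq_rpow_re_of_pos hu0]
      have h2 := PER_den (1 - η) y (1 / 4) (by norm_num) (by nlinarith) (by norm_num)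
        (by linarith)
      have h3 : (((1 - η : ℝ) : ℂ) + y * Complex.I).re = 1 - η := by simp
      have h4 : (((1 - η : ℝ) : ℂ) + y * Complex.I).im = y := by simp
      rw [h3]
      have h5 := hfB (((1 - η : ℝ) : ℂ) + y * Complex.I) (by rw [h3]) (by rw [h3]; linarith)
        (by rw [h4]; exact abs_le.mpr ⟨hy.1.le, hy.2⟩)
      have h6 : 0 ≤ (1 + y ^ 2)⁻¹ := by positivity
      have h7 : 0 ≤ u ^ (1 - η) := Real.rpow_nonneg hu0.le _
      calc ‖f (((1 - η : ℝ) : ℂ) + y * Complex.I)‖ * (u ^ (1 - η) *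
            ‖(1 : ℂ) / ((((1 - η : ℝ) : ℂ) + y * Complex.I) *
              (((1 - η : ℝ) : ℂ) + y * Complex.I + 1))‖)
          ≤ B * (u ^ (1 - η) * (1 / (1 / 4) * (1 + y ^ 2)⁻¹)) := by gcongr
        _ = _ := by ring
    have h8 := intervalIntegral.norm_integral_le_of_norm_le (μ := volume) (a := -T) (b := T)
      (by linarith)
      (g := fun y => 4 * (B * u ^ (1 - η)) * (1 + y ^ 2)⁻¹)
      (Filter.Eventually.of_forall h1)
      (integrable_inv_one_add_sq.const_mul _).intervalIntegrable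
    refine h8.trans ?_
    rw [intervalIntegral.integral_const_mul, integral_inv_one_add_sq, Real.arctan_neg]
    refine mul_le_mul_of_nonneg_left ?_ (by positivity)
    have := Real.arctan_lt_pi_div_two T
    linarith
  -- horizontal sides
  have hh : ∀ t : ℝ, |t| = T → ‖∫ x : ℝ in (1 - η)..σ, F ((x : ℂ) + (t : ℂ) * Complex.I)‖ ≤
      3 * (B * u / T ^ 2) * (3 / 2) := by
    intro t ht
    have h1 : ∀ x ∈ Set.uIoc (1 - η) σ, ‖F ((x : ℂ) + (t : ℂ) * Complex.I)‖ ≤
        3 * (B * u / T ^ 2) := by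
      intro x hx
      rw [Set.uIoc_of_le (by linarith)] at hx
      simp only [hFdef]
      rw [norm_mul, norm_mul, Complex.norm_cpow_eq_rpow_re_of_pos hu0]
      have h3 : ((x : ℂ) + (t : ℂ) * Complex.I).re = x := by simp
      have h4 : ((x : ℂ) + (t : ℂ) * Complex.I).im = t := by simp
      rw [h3]
      have h5 := hfB ((x : ℂ) + (t : ℂ) * Complex.I) (by rw [h3]; exact hx.1.le)
        (by rw [h3]; linarith [hx.2]) (by rw [h4]; exact ht.le)
      have h6 : u ^ x ≤ u * 3 := by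
        calc u ^ x ≤ u ^ σ := Real.rpow_le_rpow_of_exponent_le (by linarith) hx.2
          _ = u * Real.exp 1 := huσ
          _ ≤ u * 3 := by gcongr
      have h7 : ‖(1 : ℂ) / (((x : ℂ) + (t : ℂ) * Complex.I) *
          ((x : ℂ) + (t : ℂ) * Complex.I + 1))‖ ≤ 1 / T ^ 2 := by
        rw [norm_div, norm_one, norm_mul]
        have h8 : T ≤ ‖(x : ℂ) + (t : ℂ) * Complex.I‖ := by
          have := Complex.abs_im_le_norm ((x : ℂ) + (t : ℂ) * Complex.I)
          rwa [h4, ht] at this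
        have h9 : T ≤ ‖(x : ℂ) + (t : ℂ) * Complex.I + 1‖ := by
          have := Complex.abs_im_le_norm ((x : ℂ) + (t : ℂ) * Complex.I + 1)
          rw [Complex.add_im, h4, Complex.one_im, add_zero, ht] at this
          exact this
        refine one_div_le_one_div_of_le (by positivity) ?_
        nlinarith
      have h10 : 0 ≤ u ^ x := Real.rpow_nonneg hu0.le _
      calc ‖f ((x : ℂ) + (t : ℂ) * Complex.I)‖ * (u ^ x *
            ‖(1 : ℂ) / (((x : ℂ) + (t : ℂ) * Complex.I) *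
          ((x : ℂ) + (t : ℂ) * Complex.I + 1))‖)
          ≤ B * ((u * 3) * (1 / T ^ 2)) := by gcongr
        _ = _ := by ring
    refine (intervalIntegral.norm_integral_le_of_norm_le_const h1).trans ?_
    refine mul_le_mul_of_nonneg_left ?_ (by positivity)
    rw [abs_of_nonneg (by linarith)]
    linarith
  have hh1 := hh (-T) (by rw [abs_neg, abs_of_pos hT0])
  have hh2 := hh T (abs_of_pos hT0)
  -- the central part
  have hcent : ‖∫ y : ℝ in (-T)..T, F ((σ : ℂ) + y * Complex.I)‖ ≤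
      4 * (B * u ^ (1 - η)) * Real.pi + 9 * (B * u / T ^ 2) := by
    have e1 : Complex.I • (∫ y : ℝ in (-T)..T, F ((σ : ℂ) + y * Complex.I)) =
        Complex.I • (∫ y : ℝ in (-T)..T, F (((1 - η : ℝ) : ℂ) + y * Complex.I)) +
        (∫ x : ℝ in (1 - η)..σ, F ((x : ℂ) + (T : ℂ) * Complex.I)) -
        (∫ x : ℝ in (1 - η)..σ, F ((x : ℂ) + ((-T : ℝ) : ℂ) * Complex.I)) := by
      linear_combination hrect
    have e2 : ‖∫ y : ℝ in (-T)..T, F ((σ : ℂ) + y * Complex.I)‖ =
        ‖Complex.I • (∫ y : ℝ in (-T)..T, F ((σ : ℂ) + y * Complex.I))‖ := by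
      rw [norm_smul, Complex.norm_I, one_mul]
    rw [e2, e1]
    refine (norm_sub_le _ _).trans ?_
    have h1 := norm_add_le (Complex.I • (∫ y : ℝ in (-T)..T, F (((1 - η : ℝ) : ℂ) + y * Complex.I)))
      (∫ x : ℝ in (1 - η)..σ, F ((x : ℂ) + (T : ℂ) * Complex.I))
    rw [norm_smul, Complex.norm_I, one_mul] at h1
    linarith
  -- conclusion
  rw [← intervalIntegral.integral_of_le (by linarith)] at hsplit
  have hfin : 2 * Real.pi * ‖∑ n ∈ Icc 1 ⌊u⌋₊, a n * (1 - n / u) -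
      κ * (u / 2 - 1 + 1 / (2 * u))‖ ≤ 4 * (B * u ^ (1 - η)) * Real.pi + 9 * (B * u / T ^ 2) +
        (15 * u * (1 + Real.log u) ^ 2) * (2 / T) := by
    have e3 : ‖(2 * Real.pi : ℂ)‖ = 2 * Real.pi := by
      rw [norm_mul, Complex.norm_real, Real.norm_of_nonneg Real.pi_pos.le]
      simp
    rw [← e3, ← norm_mul, hD, ← hsplit]
    exact (norm_add_le _ _).trans (add_le_add hcent htail)
  have hpi3 : 3 ≤ Real.pi := Real.pi_gt_three.le
  have hP : 0 ≤ B * u ^ (1 - η) := mul_nonneg (by linarith) (Real.rpow_nonneg hu0.le _)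
  have hQ : 0 ≤ B * u / T ^ 2 := by positivity
  have hR : 0 ≤ u * (1 + Real.log u) ^ 2 / T := by positivity
  set P := B * u ^ (1 - η)
  set Q' := B * u / T ^ 2
  set R := u * (1 + Real.log u) ^ 2 / T with hRdef
  have e4 : (15 * u * (1 + Real.log u) ^ 2) * (2 / T) = 30 * R := by rw [hRdef]; ring
  rw [e4] at hfin
  have h1 : 2 * Real.pi * ‖∑ n ∈ Icc 1 ⌊u⌋₊, a n * (1 - n / u) -
      κ * (u / 2 - 1 + 1 / (2 * u))‖ ≤ 2 * Real.pi * (10 * (P + Q' + R)) := by
    refine hfin.trans ?_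
    nlinarith
  exact le_of_mul_le_mul_left h1 (by positivity)

/-- **Perron.** `a` a sequence with `|a n| ≤ 1 + log n`, whose Dirichlet series on `Re s > 1` is
`f(s) + κ/(s-1)`, `|κ| ≤ 1`; `f` analytic and bounded by `B` on `[1-η, 2] × [-T, T]`. Then for
`u ≥ 3` the Cesàro sum `∑_{n ≤ u} a_n (1 - n/u)` is `κ (u/2 - 1 + 1/(2u))` up to
`C (B u^(1-η) + B u/T² + u (1 + log u)²/T)`.

Proof. `σ₀ = 1 + 1/log u ≤ 2`. By Mellin inversion (as in `mellin_hinge`, on the line `Re s = σ₀`: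
`max 0 (1 - n/u) = (1/2π) ∫ (u/n)^(σ₀+iy)/((σ₀+iy)(σ₀+1+iy)) dy`; or first prove a
version of `mellin_hinge` with general `σ > 0`), and absolute convergence
(`∑ (1 + log n) n^(-σ₀) ≤ C (1 + log u)²`), the sum equals
`(1/2π) ∫ L(s) u^s/(s(s+1)) dy`, `L = LSeries a`, `s = σ₀ + iy`. In the same way (integrating the
formula over real `n ∈ [1, ∞)`, `∫_1^∞ n^(-s) dn = 1/(s-1)`) one has
`∫_1^u (1 - n/u) dn = u/2 - 1 + 1/(2u) = (1/2π) ∫ u^s/((s-1) s (s+1)) dy`. Subtract: it remains to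
bound `(1/2π) ∫ f(s) u^s/(s(s+1)) dy`. The part `|y| > T` is at most
`C (1 + log u)² e u/T`. For `|y| ≤ T` move to `Re s = 1 - η ≥ 1/2`
(`Complex.integral_boundary_rect_eq_zero_of_differentiableOn`): the new vertical side is at most
`B u^(1-η) ∫ dy/|s|² ≤ 10 B u^(1-η)`, the horizontal sides at most `2 B e u/T²` each. -/
theorem perron : ∃ C : ℝ, 0 < C ∧ ∀ (a : ℕ → ℂ) (f : ℂ → ℂ) (κ : ℂ) (η T B u : ℝ), ‖κ‖ ≤ 1 →
    0 < η → η ≤ 1 / 2 → 1 ≤ T → 3 ≤ u → 1 ≤ B → (∀ n, 1 ≤ n → ‖a n‖ ≤ 1 + Real.log n) →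
    AnalyticOnNhd ℂ f {s | 1 - η ≤ s.re ∧ s.re ≤ 2 ∧ |s.im| ≤ T} →
    (∀ s : ℂ, 1 - η ≤ s.re → s.re ≤ 2 → |s.im| ≤ T → ‖f s‖ ≤ B) →
    (∀ s : ℂ, 1 < s.re → f s = LSeries a s - κ / (s - 1)) →
    ‖∑ n ∈ Icc 1 ⌊u⌋₊, a n * (1 - n / u) - κ * (u / 2 - 1 + 1 / (2 * u))‖ ≤
      C * (B * u ^ (1 - η) + B * u / T ^ 2 + u * (1 + Real.log u) ^ 2 / T) :=
  ⟨10, by norm_num, fun a f κ η T B u hκ hη0 hη1 hT hu hB ha hf hfB hfL =>
    PER_main a f κ η T B u hκ hη0 hη1 hT hu hB ha hf hfB hfL⟩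

end Pool.Agent.Lib.H68T
end
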