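import Pool.Agent.Lib.H1M.RV.M002
import Pool.Agent.Lib.H1M.RV.M004
import Pool.Agent.Lib.H1M.RV.M010
import Pool.Agent.Lib.H1M.RV.M021
import Pool.Agent.Lib.H1M.RV.M031

/-! Merged copies (to shorten the build) of Lib.H18E.BS, Lib.H18Q.S2, Lib.H18Q.Z5A, Lib.H18Q.Z0, Lib.H18Q.Z1, Lib.H18Q.Z2, Lib.H18Q.Z4. -/

-- from Lib.H18E.BS
section

/-!
# Chunk BS: Bessel's inequality
-/

open Finset Pool.Agent.Lib.H68T

namespace Pool.Agent.Lib.H18E

/-- If all exponential sums of `w` over `[0, H)` are at most `D`, the correlations with `v` are small in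
mean square. Same proof as the first part of `corr_sq_le` (file `H68T/PV.lean`; `PV_parseval`,
`PV_ortho`): discrete Fourier transform modulo a large `N`. -/
theorem bessel (H a b : ℕ) (w v : ℕ → ℝ) (D : ℝ)
    (hw : ∀ θ : ℝ, ‖∑ c ∈ range H, (w c : ℂ) * e (c * θ)‖ ≤ D) :
    ∑ t ∈ Ico a b, (∑ c ∈ range H, w c * v (t + c)) ^ 2 ≤
      D ^ 2 * ∑ l ∈ Ico a (b + H), v l ^ 2 := by
  rcases Nat.lt_or_ge a b with hab | hab
  swap
  · rw [Finset.Ico_eq_empty (by omega), Finset.sum_empty]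
    positivity
  obtain ⟨N, hNdef⟩ : ∃ N : ℕ, a + N = b + H := ⟨b + H - a, by omega⟩
  have hN : 0 < N := by omega
  have hNr : (0 : ℝ) < N := by exact_mod_cast hN
  rw [← hNdef]
  have hD : 0 ≤ D := (norm_nonneg _).trans (hw 0)
  set U : ℕ → ℂ := fun j => ∑ c ∈ range H, (w c : ℂ) * e (c * ((j : ℝ) / N)) with hU
  set Vf : ℕ → ℂ := fun j => ∑ l ∈ Ico a (a + N), (v l : ℂ) * e ((j : ℝ) * ((l : ℝ) / N)) with hVf
  set B : ℕ → ℂ := fun j => Vf j * (starRingEnd ℂ) (U j) with hB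
  have hUD : ∀ j, ‖U j‖ ≤ D := fun j => hw _
  -- the Fourier expansion of the correlation
  have hA : ∀ t ∈ Ico a b, ((N : ℝ) * ∑ c ∈ range H, w c * v (t + c) : ℝ) =
      (∑ j ∈ Ico 0 (0 + N), B j * e (-((j : ℝ) * ((t : ℝ) / N))) : ℂ) := by
    intro t ht
    rw [mem_Ico] at ht
    have e1 : ∀ j : ℕ, B j * e (-((j : ℝ) * ((t : ℝ) / N))) =
        ∑ l ∈ Ico a (a + N), ∑ c ∈ range H, ((v l : ℂ) * w c) *
          e ((j : ℝ) * ((((l : ℤ) - c - t : ℤ) : ℝ) / N)) := by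
      intro j
      simp only [hB, hVf, hU, map_sum, Finset.sum_mul_sum]
      rw [Finset.sum_mul]
      refine Finset.sum_congr rfl fun l _ => ?_
      rw [Finset.sum_mul]
      refine Finset.sum_congr rfl fun c _ => ?_
      rw [map_mul, PV_e_conj, Complex.conj_ofReal]
      have e2 : (j : ℝ) * ((((l : ℤ) - c - t : ℤ) : ℝ) / N) =
          (j : ℝ) * ((l : ℝ) / N) + (-((c : ℝ) * ((j : ℝ) / N)) + -((j : ℝ) * ((t : ℝ) / N))) := by
        push_cast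
        ring
      rw [e2, PV_e_add, PV_e_add]
      ring
    simp only [e1]
    rw [Finset.sum_comm]
    have e3 : ∀ l ∈ Ico a (a + N), ∑ j ∈ Ico 0 (0 + N), ∑ c ∈ range H,
        ((v l : ℂ) * w c) * e ((j : ℝ) * ((((l : ℤ) - c - t : ℤ) : ℝ) / N)) =
        ∑ c ∈ range H, if l = t + c then (N : ℂ) * ((v l : ℂ) * w c) else 0 := by
      intro l hl
      rw [Finset.sum_comm]
      refine Finset.sum_congr rfl fun c hc => ?_
      rw [mem_Ico] at hl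
      rw [mem_range] at hc
      rw [← Finset.mul_sum, PV_ortho N hN 0 ((l : ℤ) - c - t) (by rw [abs_lt]; omega)]
      by_cases h : l = t + c
      · rw [if_pos (by omega), if_pos h]
        ring
      · rw [if_neg (by omega), if_neg h, mul_zero]
    rw [Finset.sum_congr rfl e3, Finset.sum_comm]
    push_cast
    rw [Finset.mul_sum]
    refine Finset.sum_congr rfl fun c hc => ?_
    rw [mem_range] at hc
    rw [Finset.sum_ite_eq', if_pos (by rw [mem_Ico]; omega)]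
    ring
  have hle1 : ∑ t ∈ Ico a b, ((N : ℝ) * ∑ c ∈ range H, w c * v (t + c)) ^ 2 ≤
      ∑ t ∈ Ico a (a + N), ‖∑ j ∈ Ico 0 (0 + N), (starRingEnd ℂ) (B j) *
        e ((t : ℝ) * ((j : ℝ) / N))‖ ^ 2 := by
    have h1 : ∀ t ∈ Ico a b, ((N : ℝ) * ∑ c ∈ range H, w c * v (t + c)) ^ 2 =
        ‖∑ j ∈ Ico 0 (0 + N), (starRingEnd ℂ) (B j) * e ((t : ℝ) * ((j : ℝ) / N))‖ ^ 2 := by
      intro t ht
      have h2 := congrArg (fun z : ℂ => ‖z‖) (hA t ht)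
      rw [Complex.norm_real, Real.norm_eq_abs] at h2
      rw [← sq_abs, h2, ← RCLike.norm_conj (∑ j ∈ Ico 0 (0 + N), B j *
        e (-((j : ℝ) * ((t : ℝ) / N)))), map_sum]
      congr 2
      refine Finset.sum_congr rfl fun j _ => ?_
      rw [map_mul, PV_e_conj, neg_neg]
      congr 2
      ring
    rw [Finset.sum_congr rfl h1]
    refine Finset.sum_le_sum_of_subset_of_nonneg ?_ fun _ _ _ => by positivity
    intro t ht
    rw [mem_Ico] at ht ⊢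
    omega
  rw [PV_parseval N hN 0 a (fun j => (starRingEnd ℂ) (B j))] at hle1
  have hle2 : ∑ j ∈ Ico 0 (0 + N), ‖(starRingEnd ℂ) (B j)‖ ^ 2 ≤
      D ^ 2 * ((N : ℝ) * ∑ l ∈ Ico a (a + N), ‖((v l : ℝ) : ℂ)‖ ^ 2) := by
    rw [← PV_parseval N hN a 0 (fun l => ((v l : ℝ) : ℂ)), Finset.mul_sum]
    refine Finset.sum_le_sum fun j _ => ?_
    rw [RCLike.norm_conj]
    simp only [hB]
    rw [norm_mul, RCLike.norm_conj, mul_pow, mul_comm]
    exact mul_le_mul_of_nonneg_right (pow_le_pow_left₀ (norm_nonneg _) (hUD j) 2) (by positivity)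
  have hle3 : (N : ℝ) ^ 2 * ∑ t ∈ Ico a b, (∑ c ∈ range H, w c * v (t + c)) ^ 2 ≤
      (N : ℝ) ^ 2 * (D ^ 2 * ∑ l ∈ Ico a (a + N), v l ^ 2) := by
    have h4 : ∑ l ∈ Ico a (a + N), ‖((v l : ℝ) : ℂ)‖ ^ 2 = ∑ l ∈ Ico a (a + N), v l ^ 2 := by
      refine Finset.sum_congr rfl fun l _ => ?_
      rw [Complex.norm_real, Real.norm_eq_abs, sq_abs]
    rw [h4] at hle2
    calc (N : ℝ) ^ 2 * ∑ t ∈ Ico a b, (∑ c ∈ range H, w c * v (t + c)) ^ 2
        = ∑ t ∈ Ico a b, ((N : ℝ) * ∑ c ∈ range H, w c * v (t + c)) ^ 2 := by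
          rw [Finset.mul_sum]
          exact Finset.sum_congr rfl fun t _ => by ring
      _ ≤ _ := hle1
      _ ≤ (N : ℝ) * (D ^ 2 * ((N : ℝ) * ∑ l ∈ Ico a (a + N), v l ^ 2)) :=
          mul_le_mul_of_nonneg_left hle2 hNr.le
      _ = _ := by ring
  exact le_of_mul_le_mul_left hle3 (by positivity)

theorem bs_ix (H : ℕ) (σ : Bool) (s t : ℕ) (u v : ℕ → ℝ) :
    ∑ c ∈ range H, u (s + c) * v (ix H σ t c) = ∑ c ∈ range H, u (ix H σ s c) * v (t + c) := by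
  cases σ with
  | true => rfl
  | false =>
    simp only [ix, cond_false]
    rw [← sum_range_reflect (fun c => u (s + (H - 1 - c)) * v (t + c)) H]
    refine sum_congr rfl fun c hc => ?_
    rw [mem_range] at hc
    have : H - 1 - (H - 1 - c) = c := by omega
    rw [this]

/-- the exponential sums of the reflected sequence -/
theorem bs_refl (H : ℕ) (σ : Bool) (s : ℕ) (u : ℕ → ℝ) (D : ℝ)
    (hu : ∀ θ : ℝ, ‖∑ c ∈ range H, (u (s + c) : ℂ) * e (c * θ)‖ ≤ D) (θ : ℝ) :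
    ‖∑ c ∈ range H, (u (ix H σ s c) : ℂ) * e (c * θ)‖ ≤ D := by
  cases σ with
  | true => exact hu θ
  | false =>
    simp only [ix, cond_false]
    rw [← sum_range_reflect]
    have h1 : ∀ c ∈ range H, ((u (s + (H - 1 - (H - 1 - c))) : ℝ) : ℂ) *
        e (((H - 1 - c : ℕ) : ℝ) * θ) =
        e (((H - 1 : ℕ) : ℝ) * θ) * ((u (s + c) : ℂ) * e (c * (-θ))) := by
      intro c hc
      rw [mem_range] at hc
      have h2 : H - 1 - (H - 1 - c) = c := by omega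
      have h3 : ((H - 1 - c : ℕ) : ℝ) * θ = ((H - 1 : ℕ) : ℝ) * θ + c * (-θ) := by
        rw [Nat.cast_sub (by omega)]
        ring
      rw [h2, h3, PV_e_add]
      ring
    rw [sum_congr rfl h1, ← mul_sum, norm_mul]
    have h4 : ‖e (((H - 1 : ℕ) : ℝ) * θ)‖ = 1 := by
      unfold e
      have : 2 * (Real.pi : ℂ) * ((((H - 1 : ℕ) : ℝ) * θ : ℝ) : ℂ) * Complex.I =
        ((2 * Real.pi * (((H - 1 : ℕ) : ℝ) * θ) : ℝ) : ℂ) * Complex.I := by push_cast; ring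
      rw [this, Complex.norm_exp_ofReal_mul_I]
    rw [h4, one_mul]
    exact hu (-θ)

/-- Hence for `u` with small exponential sums over the intervals `[s, s + H)`, `s ∈ S`, for both
directions `σ`. For `σ = false` use `∑_c u(s+c) v(t+(H-1-c)) = ∑_c u(s+(H-1-c)) v(t+c)`
(`Finset.sum_range_reflect`) and that `w(c) = u(s + (H-1-c))` has the same bound. -/
theorem corr_sq (H a b : ℕ) (σ : Bool) (u v : ℕ → ℝ) (D : ℝ) (S : Finset ℕ)
    (hu : ∀ s ∈ S, ∀ θ : ℝ, ‖∑ c ∈ range H, (u (s + c) : ℂ) * e (c * θ)‖ ≤ D) :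
    ∑ s ∈ S, ∑ t ∈ Ico a b, (∑ c ∈ range H, u (s + c) * v (ix H σ t c)) ^ 2 ≤
      S.card * (D ^ 2 * ∑ l ∈ Ico a (b + H), v l ^ 2) := by
  have h1 : ∀ s ∈ S, ∑ t ∈ Ico a b, (∑ c ∈ range H, u (s + c) * v (ix H σ t c)) ^ 2 ≤
      D ^ 2 * ∑ l ∈ Ico a (b + H), v l ^ 2 := by
    intro s hs
    have h2 : ∑ t ∈ Ico a b, (∑ c ∈ range H, u (s + c) * v (ix H σ t c)) ^ 2 =
        ∑ t ∈ Ico a b, (∑ c ∈ range H, (fun c => u (ix H σ s c)) c * v (t + c)) ^ 2 :=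
      sum_congr rfl fun t _ => by rw [bs_ix]
    rw [h2]
    exact bessel H a b (fun c => u (ix H σ s c)) v D (bs_refl H σ s u D (hu s hs))
  refine (sum_le_sum h1).trans ?_
  rw [sum_const, nsmul_eq_mul]

/-- The same with the roles exchanged: `v` has small exponential sums. -/
theorem corr_sq' (H a b : ℕ) (σ : Bool) (u v : ℕ → ℝ) (D : ℝ) (S : Finset ℕ)
    (hv : ∀ t ∈ S, ∀ θ : ℝ, ‖∑ c ∈ range H, (v (t + c) : ℂ) * e (c * θ)‖ ≤ D) :
    ∑ s ∈ Ico a b, ∑ t ∈ S, (∑ c ∈ range H, u (s + c) * v (ix H σ t c)) ^ 2 ≤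
      S.card * (D ^ 2 * ∑ l ∈ Ico a (b + H), u l ^ 2) := by
  rw [sum_comm]
  have h1 : ∀ t ∈ S, ∑ s ∈ Ico a b, (∑ c ∈ range H, u (s + c) * v (ix H σ t c)) ^ 2 ≤
      D ^ 2 * ∑ l ∈ Ico a (b + H), u l ^ 2 := by
    intro t ht
    have h2 : ∑ s ∈ Ico a b, (∑ c ∈ range H, u (s + c) * v (ix H σ t c)) ^ 2 =
        ∑ s ∈ Ico a b, (∑ c ∈ range H, (fun c => v (ix H σ t c)) c * u (s + c)) ^ 2 :=
      sum_congr rfl fun s _ => by
        congr 1
        exact sum_congr rfl fun c _ => mul_comm _ _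
    rw [h2]
    exact bessel H a b (fun c => v (ix H σ t c)) u D (bs_refl H σ t v D (hv t ht))
  refine (sum_le_sum h1).trans ?_
  rw [sum_const, nsmul_eq_mul]

end Pool.Agent.Lib.H18E
end

-- from Lib.H18Q.S2
section

/-!
# Project H18Q, chunk S2: the mean value of the sieve majorant
-/

open Finset

namespace Pool.Agent.Lib.H18Q

open Pool.Agent.Lib.H68T

/-- `V z = ∑_{q ≤ z} μ²(q)/φ(q)`. -/
noncomputable def Vz (z : ℕ) : ℝ :=
  ∑ q ∈ Icc 1 z, (ArithmeticFunction.moebius q : ℝ) ^ 2 / (Nat.totient q : ℝ)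

theorem s2_rad (n : ℕ) (hn : n ≠ 0) : Squarefree (∏ p ∈ n.primeFactors, p) ∧
    (∏ p ∈ n.primeFactors, p).primeFactors = n.primeFactors := by
  refine ⟨?_, Nat.primeFactors_prod fun p hp => Nat.prime_of_mem_primeFactors hp⟩
  rw [← Nat.radical_eq_prod_primeFactors]
  exact UniqueFactorizationMonoid.squarefree_radical

/-- The sum of `1/n` over numbers with radical `q`. -/
theorem s2_fiber (q z : ℕ) (hq : Squarefree q) :
    ∑ n ∈ (Icc 1 z).filter (fun n => ∏ p ∈ n.primeFactors, p = q), (1 : ℝ) / n ≤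
      1 / (Nat.totient q : ℝ) := by
  classical
  have hq0 : q ≠ 0 := hq.ne_zero
  have hqR : (0 : ℝ) < q := by exact_mod_cast Nat.pos_of_ne_zero hq0
  let f : ℕ →* ℝ :=
    { toFun := fun n => (n : ℝ)⁻¹
      map_one' := by simp
      map_mul' := fun a b => by push_cast; rw [mul_inv] }
  have hf : ∀ {p : ℕ}, p.Prime → ‖f p‖ < 1 := by
    intro p hp
    have h2 : (1 : ℝ) < p := by exact_mod_cast hp.one_lt
    change ‖(p : ℝ)⁻¹‖ < 1
    rw [Real.norm_of_nonneg (by positivity)]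
    exact inv_lt_one_of_one_lt₀ h2
  obtain ⟨hs, hS⟩ :=
    EulerProduct.summable_and_hasSum_factoredNumbers_prod_filter_prime_geometric hf q.primeFactors
  have hprod : ∏ p ∈ q.primeFactors with p.Prime, (1 - f p)⁻¹ = (q : ℝ) / (Nat.totient q : ℝ) := by
    have h1 : q.primeFactors.filter (fun p => p.Prime) = q.primeFactors :=
      Finset.filter_true_of_mem fun p hp => Nat.prime_of_mem_primeFactors hp
    have h2 : (Nat.totient q : ℝ) = q * ∏ p ∈ q.primeFactors, (1 - (p : ℝ)⁻¹) := by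
      have := Nat.totient_eq_mul_prod_factors q
      have h3 : ((Nat.totient q : ℚ) : ℝ) = ((q * ∏ p ∈ q.primeFactors, (1 - (p : ℚ)⁻¹) : ℚ) : ℝ) := by
        rw [this]
      push_cast at h3
      exact h3
    rw [h1, h2, Finset.prod_inv_distrib]
    have h3 : ∏ p ∈ q.primeFactors, (1 - f p) = ∏ p ∈ q.primeFactors, (1 - (p : ℝ)⁻¹) := rfl
    rw [h3]
    have h4 : ∏ p ∈ q.primeFactors, (1 - (p : ℝ)⁻¹) ≠ 0 := by
      rw [Finset.prod_ne_zero_iff]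
      intro p hp
      have hp' := Nat.prime_of_mem_primeFactors hp
      have h5 : (1 : ℝ) < p := by exact_mod_cast hp'.one_lt
      have h6 : (p : ℝ)⁻¹ < 1 := inv_lt_one_of_one_lt₀ h5
      linarith
    field_simp
  rw [hprod] at hS
  set A := (Icc 1 z).filter (fun n => ∏ p ∈ n.primeFactors, p = q) with hA
  have hmem : ∀ n ∈ A, q ∣ n ∧ n ≠ 0 ∧ n / q ∈ Nat.factoredNumbers q.primeFactors := by
    intro n hn
    rw [hA, Finset.mem_filter, Finset.mem_Icc] at hn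
    obtain ⟨⟨h1, -⟩, h2⟩ := hn
    have hn0 : n ≠ 0 := by omega
    have hd : q ∣ n := by
      rw [← h2]; exact Nat.prod_primeFactors_dvd n
    refine ⟨hd, hn0, ?_⟩
    rw [Nat.mem_factoredNumbers_iff_primeFactors_subset]
    have h3 : n / q ≠ 0 := (Nat.div_pos (Nat.le_of_dvd (by omega) hd) (by omega)).ne'
    refine ⟨h3, ?_⟩
    have h4 : (n / q).primeFactors ⊆ n.primeFactors :=
      Nat.primeFactors_mono (Nat.div_dvd_of_dvd hd) hn0
    refine h4.trans ?_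
    rw [← (s2_rad n hn0).2, h2]
  -- compare with the sum over the factored numbers
  have hle : ∑ n ∈ A, (1 : ℝ) / ((n / q : ℕ) : ℝ) ≤ (q : ℝ) / (Nat.totient q : ℝ) := by
    let g : A → Nat.factoredNumbers q.primeFactors := fun n => ⟨n.1 / q, (hmem n.1 n.2).2.2⟩
    have hg : Function.Injective g := by
      intro a b hab
      have h1 : a.1 / q = b.1 / q := congrArg Subtype.val hab
      have h2 := Nat.div_mul_cancel (hmem a.1 a.2).1
      have h3 := Nat.div_mul_cancel (hmem b.1 b.2).1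
      apply Subtype.ext
      rw [← h2, ← h3, h1]
    have h1 : ∑ n ∈ A, (1 : ℝ) / ((n / q : ℕ) : ℝ) = ∑ n : A, f (g n) := by
      rw [← Finset.sum_coe_sort A]
      refine Finset.sum_congr rfl fun n _ => ?_
      change (1 : ℝ) / ((n.1 / q : ℕ) : ℝ) = (((n.1 / q : ℕ)) : ℝ)⁻¹
      rw [one_div]
    have h2 : ∑ n : A, f (g n) =
        ∑ m ∈ (Finset.univ : Finset A).map ⟨g, hg⟩, f m := by
      rw [Finset.sum_map]
      rfl
    rw [h1, h2]
    refine sum_le_hasSum _ (fun m _ => ?_) hS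
    change (0 : ℝ) ≤ ((m : ℕ) : ℝ)⁻¹
    positivity
  have h1 : ∑ n ∈ A, (1 : ℝ) / n = (1 / q) * ∑ n ∈ A, (1 : ℝ) / ((n / q : ℕ) : ℝ) := by
    rw [Finset.mul_sum]
    refine Finset.sum_congr rfl fun n hn => ?_
    have h2 := Nat.div_mul_cancel (hmem n hn).1
    have h3 : (n : ℝ) = ((n / q : ℕ) : ℝ) * q := by exact_mod_cast h2.symm
    rw [div_mul_div_comm, one_mul, mul_comm (q : ℝ), ← h3]
  rw [h1]
  calc (1 / (q : ℝ)) * ∑ n ∈ A, (1 : ℝ) / ((n / q : ℕ) : ℝ)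
      ≤ (1 / (q : ℝ)) * ((q : ℝ) / (Nat.totient q : ℝ)) :=
        mul_le_mul_of_nonneg_left hle (by positivity)
    _ = 1 / (Nat.totient q : ℝ) := by field_simp

/-- `V z ≥ log z`: `∑_{q ≤ z} μ²(q)/φ(q) ≥ ∑_{n ≤ z} 1/n ≥ log z`
(`1/φ(q) = ∑_{n : rad n = q} 1/n` for squarefree `q`; `n ≤ z` has `rad n ≤ z`). See `ss_low` or
`SS1_sum` in `Lib/H18E`, or Mathlib's Selberg sieve, if helpful. -/
theorem Vz_ge (z : ℕ) (hz : 1 ≤ z) : Real.log z ≤ Vz z := by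
  classical
  have h1 : Real.log z ≤ ∑ n ∈ Icc 1 z, (1 : ℝ) / n := by
    have h2 := log_add_one_le_harmonic z
    have h3 : (harmonic z : ℝ) = ∑ n ∈ Icc 1 z, (1 : ℝ) / n := by
      rw [harmonic_eq_sum_Icc]
      push_cast
      exact Finset.sum_congr rfl fun n _ => by rw [one_div]
    rw [h3] at h2
    refine le_trans (Real.log_le_log (by exact_mod_cast hz) ?_) h2
    push_cast
    linarith
  refine h1.trans ?_
  have hmaps : ∀ n ∈ Icc 1 z, (∏ p ∈ n.primeFactors, p) ∈ (Icc 1 z).filter Squarefree := by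
    intro n hn
    rw [Finset.mem_Icc] at hn
    rw [Finset.mem_filter, Finset.mem_Icc]
    have hn0 : n ≠ 0 := by omega
    have h2 := (s2_rad n hn0).1
    refine ⟨⟨Nat.pos_of_ne_zero h2.ne_zero, ?_⟩, h2⟩
    exact (Nat.le_of_dvd (by omega) (Nat.prod_primeFactors_dvd n)).trans hn.2
  rw [← Finset.sum_fiberwise_of_maps_to hmaps]
  have h2 : ∑ q ∈ (Icc 1 z).filter Squarefree, (1 : ℝ) / (Nat.totient q : ℝ) = Vz z := by
    unfold Vz
    rw [Finset.sum_filter]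
    refine Finset.sum_congr rfl fun q _ => ?_
    by_cases hq : Squarefree q
    · rw [if_pos hq]
      have h3 : (ArithmeticFunction.moebius q : ℤ) ^ 2 = 1 := by
        rw [ArithmeticFunction.moebius_sq, if_pos hq]
      have h4 : (ArithmeticFunction.moebius q : ℝ) ^ 2 = 1 := by exact_mod_cast h3
      rw [h4]
    · rw [if_neg hq, ArithmeticFunction.moebius_eq_zero_of_not_squarefree hq]
      simp
  rw [← h2]
  refine Finset.sum_le_sum fun q hq => ?_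
  exact s2_fiber q z (Finset.mem_filter.1 hq).2

theorem Vz_ge_one (z : ℕ) (hz : 1 ≤ z) : 1 ≤ Vz z := by
  unfold Vz
  have h1 : (1 : ℝ) = ∑ q ∈ ({1} : Finset ℕ),
      (ArithmeticFunction.moebius q : ℝ) ^ 2 / (Nat.totient q : ℝ) := by simp
  rw [h1]
  refine Finset.sum_le_sum_of_subset_of_nonneg ?_ fun q _ _ => by positivity
  intro q hq
  rw [Finset.mem_singleton] at hq
  rw [hq, Finset.mem_Icc]
  omega

/-- For a prime `n > z`: `c_q(n) = μ(q)` for `q ≤ z` (only `d = 1` divides both), so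
`G z n = V z`. -/
theorem G_prime (z n : ℕ) (hn : n.Prime) (hzn : z < n) : G z n = Vz z := by
  unfold G Vz
  refine Finset.sum_congr rfl fun q hq => ?_
  rw [Finset.mem_Icc] at hq
  have h1 : cq q (n : ℤ) = (ArithmeticFunction.moebius q : ℝ) := by
    unfold cq
    have h2 : q.divisors.filter (fun d : ℕ => (d : ℤ) ∣ (n : ℤ)) = {1} := by
      ext d
      rw [Finset.mem_filter, Nat.mem_divisors, Finset.mem_singleton, Int.natCast_dvd_natCast]
      constructor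
      · rintro ⟨⟨h3, h4⟩, h5⟩
        rcases (Nat.dvd_prime hn).1 h5 with h6 | h6
        · exact h6
        · exfalso
          have := Nat.le_of_dvd (by omega) h3
          omega
      · rintro rfl
        exact ⟨⟨one_dvd _, by omega⟩, one_dvd _⟩
    rw [h2, Finset.sum_singleton]
    simp
  rw [h1]
  ring

/-- Mean square of `G z` over an interval: `∑_{n ∈ (M, M+N]} G(z,n)² ≤ N V + z^8`.

Proof. `c_q(n) = ∑_{a mod q, (a,q)=1} e(a n/q)`-free proof: `∑_{n ∈ (M, M+N]} c_q(n) c_q'(n) =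
∑_{d ∣ q, d' ∣ q'} d d' μ(q/d) μ(q'/d') #{n : lcm(d,d') ∣ n}`, and `# = N/lcm(d,d') + θ`,
`|θ| ≤ 1`. The main part is `N ∑_{d ∣ q} ∑_{d' ∣ q'} μ(q/d) μ(q'/d') gcd(d,d') = N φ(q) 1[q = q']`
(`gcd(d,d') = ∑_{e ∣ d, e ∣ d'} φ(e)` and Möbius inversion: `∑_{d ∣ q} μ(q/d) 1[e ∣ d] = 1[e = q]`);
the error is at most `(∑_{d ∣ q} d)(∑_{d' ∣ q'} d') ≤ (z²)(z²) = z^4`. Then
`∑ G² = ∑_{q,q'} μ(q) μ(q')/(φ(q) φ(q')) ∑_n c_q c_q' ≤ N ∑_q μ²(q)/φ(q) + z² z^4`. (The same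
computation, for shifted arguments, is in `H68T` (search `corr`, file `CG1`) and `H18E`.) -/
theorem G_sq_sum (z M N : ℕ) :
    ∑ n ∈ Ioc M (M + N), G z n ^ 2 ≤ N * Vz z + (z : ℝ) ^ 8 := by
  have hcast : ∀ k : ℕ, (ArithmeticFunction.moebius k : ℝ) ^ 2 ≤ 1 := by
    intro k
    have := cg1_abs_moebius_le k
    rw [sq_le_one_iff_abs_le_one]
    exact this
  have hsum : ∑ n ∈ Ioc M (M + N), G z n ^ 2 =
      ∑ c ∈ range N, G z (((M + 1 : ℕ) : ℤ) + (1 : ℕ) * (c : ℕ)) ^ 2 := by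
    have h1 : Ioc M (M + N) = (range N).image (fun c => M + 1 + c) := by
      ext n
      rw [Finset.mem_Ioc, Finset.mem_image]
      constructor
      · rintro ⟨h1, h2⟩
        exact ⟨n - (M + 1), Finset.mem_range.2 (by omega), by omega⟩
      · rintro ⟨c, hc, rfl⟩
        rw [Finset.mem_range] at hc
        omega
    rw [h1, Finset.sum_image]
    · refine Finset.sum_congr rfl fun c _ => ?_
      congr 2
      push_cast
      ring
    · intro a _ b _ hab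
      simpa using hab
  rw [hsum]
  set x : ℤ := ((M + 1 : ℕ) : ℤ) with hx
  set a : ℕ → ℝ := fun q => (ArithmeticFunction.moebius q : ℝ) / (Nat.totient q : ℝ) with ha
  have hexp : ∑ c ∈ range N, G z (x + (1 : ℕ) * (c : ℕ)) ^ 2 =
      ∑ q₁ ∈ Icc 1 z, ∑ q₂ ∈ Icc 1 z, a q₁ * a q₂ *
        ∑ c ∈ range N, cq q₁ (x + (1 : ℕ) * (c : ℕ)) * cq q₂ (x + (1 : ℕ) * (c : ℕ)) := by
    have h1 : ∀ c ∈ range N, G z (x + (1 : ℕ) * (c : ℕ)) ^ 2 =
        ∑ q₁ ∈ Icc 1 z, ∑ q₂ ∈ Icc 1 z, a q₁ * a q₂ *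
          (cq q₁ (x + (1 : ℕ) * (c : ℕ)) * cq q₂ (x + (1 : ℕ) * (c : ℕ))) := by
      intro c _
      unfold G
      rw [sq, Finset.sum_mul_sum]
      refine Finset.sum_congr rfl fun q₁ _ => Finset.sum_congr rfl fun q₂ _ => ?_
      simp only [ha]
      ring
    rw [Finset.sum_congr rfl h1, Finset.sum_comm]
    refine Finset.sum_congr rfl fun q₁ _ => ?_
    rw [Finset.sum_comm]
    refine Finset.sum_congr rfl fun q₂ _ => ?_
    rw [Finset.mul_sum]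
  rw [hexp]
  have hsig : ∀ q ∈ Icc 1 z, ∑ d ∈ q.divisors, (d : ℝ) ≤ (z : ℝ) ^ 2 := by
    intro q hq
    rw [Finset.mem_Icc] at hq
    have hqz : (q : ℝ) ≤ z := by exact_mod_cast hq.2
    calc ∑ d ∈ q.divisors, (d : ℝ) ≤ ∑ d ∈ q.divisors, (q : ℝ) :=
          Finset.sum_le_sum fun d hd => by exact_mod_cast Nat.divisor_le hd
      _ = (q.divisors.card : ℝ) * q := by rw [Finset.sum_const, nsmul_eq_mul]
      _ ≤ (q : ℝ) * q := by
          refine mul_le_mul_of_nonneg_right ?_ (by positivity)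
          exact_mod_cast Nat.card_divisors_le_self q
      _ ≤ (z : ℝ) ^ 2 := by
          rw [sq]
          exact mul_le_mul hqz hqz (by positivity) (by positivity)
  have hsig0 : ∀ q : ℕ, 0 ≤ ∑ d ∈ q.divisors, (d : ℝ) := fun q =>
    Finset.sum_nonneg fun d _ => by positivity
  have ha1 : ∀ q ∈ Icc 1 z, |a q| ≤ 1 := by
    intro q hq
    rw [Finset.mem_Icc] at hq
    simp only [ha]
    rw [abs_div]
    have h1 : (1 : ℝ) ≤ (Nat.totient q : ℝ) := by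
      exact_mod_cast Nat.totient_pos.2 (by omega)
    rw [abs_of_nonneg (by linarith : (0 : ℝ) ≤ (Nat.totient q : ℝ)), div_le_one (by linarith)]
    exact (cg1_abs_moebius_le q).trans h1
  have hcq0 : ∀ q ∈ Icc 1 z, cq q 0 = (Nat.totient q : ℝ) := by
    intro q hq
    rw [Finset.mem_Icc] at hq
    have h2 := cg1_moebius (fun i => (Nat.totient i : ℝ)) (fun n => (n : ℝ))
      (fun n _ => by exact_mod_cast Nat.sum_totient n) q (by omega)
    rw [← h2]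
    unfold cq
    simp only [dvd_zero, Finset.filter_true]
    exact Finset.sum_congr rfl fun d _ => mul_comm _ _
  have hterm : ∀ q₁ ∈ Icc 1 z, ∀ q₂ ∈ Icc 1 z, a q₁ * a q₂ *
        ∑ c ∈ range N, cq q₁ (x + (1 : ℕ) * (c : ℕ)) * cq q₂ (x + (1 : ℕ) * (c : ℕ)) ≤
      a q₁ * a q₂ * (N * (if q₁ = q₂ then cq q₁ (x - x) else 0)) + (z : ℝ) ^ 4 := by
    intro q₁ h₁ q₂ h₂
    have h₁' := Finset.mem_Icc.1 h₁
    have h₂' := Finset.mem_Icc.1 h₂
    have h3 := Pool.Agent.Lib.H18E.corr_gen q₁ q₂ 1 N x x (by omega) (by omega)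
      (Nat.coprime_one_right _) (Nat.coprime_one_right _)
    set S := ∑ c ∈ range N, cq q₁ (x + (1 : ℕ) * (c : ℕ)) * cq q₂ (x + (1 : ℕ) * (c : ℕ)) with hS
    set T := N * (if q₁ = q₂ then cq q₁ (x - x) else 0) with hT
    have h4 : a q₁ * a q₂ * S - a q₁ * a q₂ * T ≤ (z : ℝ) ^ 4 := by
      calc a q₁ * a q₂ * S - a q₁ * a q₂ * T = (a q₁ * a q₂) * (S - T) := by ring
        _ ≤ |(a q₁ * a q₂) * (S - T)| := le_abs_self _
        _ = |a q₁| * |a q₂| * |S - T| := by rw [abs_mul, abs_mul]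
        _ ≤ 1 * 1 * ((z : ℝ) ^ 2 * (z : ℝ) ^ 2) := by
            refine mul_le_mul (mul_le_mul (ha1 q₁ h₁) (ha1 q₂ h₂) (abs_nonneg _) zero_le_one)
              (h3.trans (mul_le_mul (hsig q₁ h₁) (hsig q₂ h₂) (hsig0 q₂) (by positivity)))
              (abs_nonneg _) (by norm_num)
        _ = (z : ℝ) ^ 4 := by ring
    linarith
  refine (Finset.sum_le_sum fun q₁ h₁ => Finset.sum_le_sum fun q₂ h₂ =>
    hterm q₁ h₁ q₂ h₂).trans ?_
  have hmain : ∑ q₁ ∈ Icc 1 z, ∑ q₂ ∈ Icc 1 z, (a q₁ * a q₂ *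
      (N * (if q₁ = q₂ then cq q₁ (x - x) else 0)) + (z : ℝ) ^ 4) =
      N * Vz z + (z : ℝ) ^ 2 * (z : ℝ) ^ 4 := by
    simp only [Finset.sum_add_distrib, Finset.sum_const, Nat.card_Icc, nsmul_eq_mul,
      add_tsub_cancel_right]
    congr 1
    · unfold Vz
      rw [Finset.mul_sum]
      refine Finset.sum_congr rfl fun q₁ h₁ => ?_
      rw [Finset.sum_eq_single q₁]
      · rw [if_pos rfl, sub_self, hcq0 q₁ h₁]
        simp only [ha]
        have h1 : (0 : ℝ) < (Nat.totient q₁ : ℝ) := by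
          exact_mod_cast Nat.totient_pos.2 (by have := Finset.mem_Icc.1 h₁; omega)
        field_simp
      · intro q₂ _ h
        rw [if_neg (Ne.symm h)]
        ring
      · intro h
        exact absurd h₁ h
    · ring
  rw [hmain]
  have h5 : (z : ℝ) ^ 2 * (z : ℝ) ^ 4 ≤ (z : ℝ) ^ 8 := by
    rcases Nat.eq_zero_or_pos z with h0 | h0
    · subst h0; norm_num
    · have h1 : (1 : ℝ) ≤ z := by exact_mod_cast h0
      calc (z : ℝ) ^ 2 * (z : ℝ) ^ 4 = (z : ℝ) ^ 6 := by ring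
        _ ≤ (z : ℝ) ^ 8 := pow_le_pow_right₀ h1 (by norm_num)
  linarith

end Pool.Agent.Lib.H18Q
end

-- from Lib.H18Q.Z5A
section

/-!
# Project H18Q, chunk Z5A: growth data of the primitive L-functions
-/

open Finset

namespace Pool.Agent.Lib.H18Q

open Pool.Agent.Lib.H68T

/-- Products. Proof: `f s₀ ≠ 0`, `g s₀ ≠ 0` at `s₀ = 1 + lam + i v` (`zre`), `logDeriv_mul`, the
rest is multiplication and the triangle inequality. -/
theorem LDat.mul {C0 C0' ℓ T : ℝ} {f g : ℂ → ℂ} (hf : LDat C0 ℓ T f) (hg : LDat C0' ℓ T g) :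
    LDat (C0 + C0') ℓ T (fun s => f s * g s) := by
  refine ⟨hf.diff.mul hg.diff, ?_, ?_, ?_⟩
  · intro ρ h
    rcases mul_eq_zero.1 h with h | h
    · exact hf.zre ρ h
    · exact hg.zre ρ h
  · intro lam v h1 h2 h3 s hs
    have h4 := hf.growth lam v h1 h2 h3 s hs
    have h5 := hg.growth lam v h1 h2 h3 s hs
    simp only [norm_mul]
    rw [add_mul, Real.exp_add]
    calc ‖f s‖ * ‖g s‖ ≤ (Real.exp (C0 * ℓ) * ‖f (1 + lam + v * Complex.I)‖) *
          (Real.exp (C0' * ℓ) * ‖g (1 + lam + v * Complex.I)‖) :=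
          mul_le_mul h4 h5 (norm_nonneg _) (by positivity)
      _ = _ := by ring
  · intro lam v h1 h2 h3
    have h4 := hf.ld lam v h1 h2 h3
    have h5 := hg.ld lam v h1 h2 h3
    set s₀ : ℂ := 1 + lam + v * Complex.I with hs₀
    by_cases h0 : f s₀ * g s₀ = 0
    · rw [logDeriv_apply, h0, div_zero, norm_zero, add_div]
      have := norm_nonneg (logDeriv f s₀)
      have := norm_nonneg (logDeriv g s₀)
      linarith
    · replace h0 := mul_ne_zero_iff.1 h0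
      rw [logDeriv_mul s₀ h0.1 h0.2 hf.diff.differentiableAt hg.diff.differentiableAt, add_div]
      exact (norm_add_le _ _).trans (add_le_add h4 h5)

theorem LDat.mono {C0 C0' ℓ T T' : ℝ} {f : ℂ → ℂ} (h : LDat C0 ℓ T f) (hC : C0 ≤ C0')
    (hT : T' ≤ T) (hℓ : 0 ≤ ℓ) : LDat C0' ℓ T' f := by
  refine ⟨h.diff, h.zre, ?_, ?_⟩
  · intro lam v h1 h2 h3 s hs
    refine (h.growth lam v h1 h2 (h3.trans hT) s hs).trans ?_
    apply mul_le_mul_of_nonneg_right _ (norm_nonneg _)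
    exact Real.exp_le_exp.2 (mul_le_mul_of_nonneg_right hC hℓ)
  · intro lam v h1 h2 h3
    refine (h.ld lam v h1 h2 (h3.trans hT)).trans ?_
    apply div_le_div_of_nonneg_right hC
    exact le_trans (by positivity) h1

/-- facts on `s₀` and on `s` in the disc -/
theorem z5a_pt {lam v η X : ℝ} (hl : 0 < lam) (hl8 : lam ≤ 1 / 8) (hv : |v| ≤ X) (hη : 0 ≤ η)
    (hη8 : η ≤ 1 / 8) {s : ℂ} (hs : s ∈ Metric.closedBall (1 + lam + v * Complex.I : ℂ) (1 / 2)) :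
    1 / 2 ≤ (s + η).re ∧ (s + η).re ≤ 3 ∧ |(s + η).im| ≤ X + 1 ∧ ‖s + η‖ ≤ X + 3 := by
  rw [Metric.mem_closedBall, Complex.dist_eq] at hs
  have h1 := (Complex.abs_re_le_norm _).trans hs
  have h2 := (Complex.abs_im_le_norm _).trans hs
  simp only [Complex.sub_re, Complex.sub_im, Complex.add_re, Complex.add_im, Complex.one_re,
    Complex.one_im, Complex.ofReal_re, Complex.ofReal_im, Complex.mul_re, Complex.mul_im,
    Complex.I_re, Complex.I_im, mul_zero, mul_one, sub_zero, zero_add, add_zero] at h1 h2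
  rw [abs_le] at h1 h2 hv
  have e1 : (s + η).re = s.re + η := by simp
  have e2 : (s + η).im = s.im := by simp
  rw [e1, e2]
  have h3 : |s.im| ≤ X + 1 := by
    rw [abs_le]
    constructor <;> linarith [h2.1, h2.2, hv.1, hv.2]
  have h5 : ‖s + η‖ ≤ X + 3 := by
    have h6 := Complex.norm_le_abs_re_add_abs_im (s + η)
    rw [e1, e2] at h6
    have h7 : |s.re + η| ≤ 2 := by
      rw [abs_le]
      constructor <;> linarith [h1.1, h1.2]
    linarith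
  exact ⟨by linarith [h1.1], by linarith [h1.2], h3, h5⟩

theorem z5a_re (lam v η : ℝ) : ((1 + lam + v * Complex.I : ℂ) + η).re = 1 + lam + η := by
  simp

theorem z5a_ld : ∃ C : ℝ, 0 < C ∧ ∀ (N : ℕ) [NeZero N] (χ : DirichletCharacter ℂ N) (lam v η : ℝ),
    0 < lam → lam ≤ 1 / 8 → 0 ≤ η → η ≤ 1 / 8 →
    ‖logDeriv χ.LFunction ((1 + lam + v * Complex.I : ℂ) + η)‖ ≤ 1 / lam + C := by
  obtain ⟨C, hC, h⟩ := vonMangoldt_le
  refine ⟨C, hC, fun N _ χ lam v η hl hl8 hη hη8 => ?_⟩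
  have hre := z5a_re lam v η
  have h1 := lab1_char N χ ((1 + lam + v * Complex.I : ℂ) + η) (by rw [hre]; linarith)
  have h2 := norm_LSeries_vM_le N χ ((1 + lam + v * Complex.I : ℂ) + η) (by rw [hre]; linarith)
  rw [h1, norm_neg, hre] at h2
  have h3 := h (1 + lam + η) (by linarith) (by linarith)
  refine h2.trans (h3.trans ?_)
  have h4 : 1 / (1 + lam + η - 1) ≤ 1 / lam :=
    one_div_le_one_div_of_le hl (by linarith)
  linarith

theorem z5a_low (N : ℕ) [NeZero N] (χ : DirichletCharacter ℂ N) (lam v η : ℝ)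
    (hl : 0 < lam) (hl8 : lam ≤ 1 / 8) (hη : 0 ≤ η) :
    lam / 2 ≤ ‖χ.LFunction ((1 + lam + v * Complex.I : ℂ) + η)‖ := by
  have hre := z5a_re lam v η
  have h1 := lab2_lower N χ ((1 + lam + v * Complex.I : ℂ) + η) (by rw [hre]; linarith)
  rw [DirichletCharacter.LFunction_eq_LSeries χ (by rw [hre]; linarith)]
  refine le_trans ?_ h1
  rw [hre, div_le_div_iff₀ (by norm_num) (by linarith)]
  nlinarith

theorem z5a_logQ {Q : ℕ} (hQ : (4 : ℝ) ≤ Q) : 0 < Real.log Q ∧ Real.log Q ≤ Q := by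
  refine ⟨Real.log_pos (by linarith), ?_⟩
  have := Real.log_le_sub_one_of_pos (by linarith : (0 : ℝ) < Q)
  linarith

theorem z5a_exp {Q : ℕ} (hQ : (4 : ℝ) ≤ Q) (k : ℕ) (C : ℝ) (hC : k ≤ C) :
    (Q : ℝ) ^ k ≤ Real.exp (C * Real.log Q) := by
  have h1 : (Q : ℝ) ^ k = Real.exp (k * Real.log Q) := by
    rw [mul_comm, Real.exp_mul, Real.exp_log (by linarith), Real.rpow_natCast]
  rw [h1]
  exact Real.exp_le_exp.2 (mul_le_mul_of_nonneg_right hC (z5a_logQ hQ).1.le)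

theorem z5a_logDeriv_shift (f : ℂ → ℂ) (η : ℝ) (s : ℂ) :
    logDeriv (fun s => f (s + η)) s = logDeriv f (s + η) := by
  rw [logDeriv_apply, logDeriv_apply, deriv_comp_add_const]

/-- Growth data of `L(s + η, χ)`, `χ ≠ 1` modulo `N ≤ Q²`, `0 ≤ η ≤ 1/8`.

Proof. `ℓ = log Q`, `T = Q^10`, `s₀ = 1 + lam + i v`. Entire:
`DirichletCharacter.differentiable_LFunction`. `zre`: `LFunction (ρ + η) = 0` implies
`Re (ρ + η) < 1` (`DirichletCharacter.LFunction_ne_zero_of_one_le_re`, `χ ≠ 1`). Growth: `|s - s₀| ≤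
1/2` gives `Re (s + η) ≥ 1/2`, so `LFunction_bound`: `|L(s + η)| ≤ 2 N |s + η| ≤ 2 Q² (Q^10 + 3)`,
and `|L(s₀ + η)| ≥ (lam + η)/(1 + lam + η) ≥ lam/2 ≥ 1/(2 log Q)` (`lab2_lower`, with
`DirichletCharacter.LFunction_eq_LSeries` for `Re > 1`; `x/(1+x)` is increasing). So the quotient is
at most `4 Q² (Q^10 + 3) log Q ≤ exp (20 log Q)` for `Q ≥ 4`. Logarithmic derivative: `lab1_char`,
`norm_LSeries_vM_le`, `vonMangoldt_le`: `≤ 1/(lam + η) + C ≤ (1 + C)/lam`; use `logDeriv` of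
the composition with the translation (`logDeriv_comp` or `deriv_comp_add_const`). -/
theorem LDat_shift : ∃ C0 K : ℝ, 1 ≤ C0 ∧ ∀ Q : ℕ, K ≤ Q → ∀ (N : ℕ) [NeZero N]
    (χ : DirichletCharacter ℂ N), N ≤ Q ^ 2 → χ ≠ 1 → ∀ η : ℝ, 0 ≤ η → η ≤ 1 / 8 →
    LDat C0 (Real.log Q) ((Q : ℝ) ^ 10) (fun s => χ.LFunction (s + η)) := by
  obtain ⟨C, hC, hld⟩ := z5a_ld
  refine ⟨20 + C, 4, by linarith, fun Q hQ N _ χ hN hχ η hη hη8 => ?_⟩
  obtain ⟨hlog, hlogQ⟩ := z5a_logQ hQ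
  refine ⟨?_, ?_, ?_, ?_⟩
  · exact (DirichletCharacter.differentiable_LFunction hχ).comp
      (differentiable_id.add (differentiable_const _))
  · intro ρ h
    by_contra hcon
    have h1 : 1 ≤ (ρ + η).re := by
      have : (ρ + η).re = ρ.re + η := by simp
      rw [this]
      linarith [not_lt.1 hcon]
    exact DirichletCharacter.LFunction_ne_zero_of_one_le_re χ (Or.inl hχ) h1 h
  · intro lam v h1 h2 h3 s hs
    have hl : 0 < lam := lt_of_lt_of_le (by positivity) h1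
    obtain ⟨p1, p2, p3, p4⟩ := z5a_pt hl h2 h3 hη hη8 hs
    have q1 := LFunction_bound N χ hχ (s + η) p1
    have q2 := z5a_low N χ lam v η hl h2 hη
    have hN' : (N : ℝ) ≤ (Q : ℝ) ^ 2 := by exact_mod_cast hN
    have q3 : ‖χ.LFunction (s + η)‖ ≤ (Q : ℝ) ^ 18 * (1 / (2 * Q)) := by
      refine q1.trans ?_
      have hQ0 : (0 : ℝ) < Q := by linarith
      have r1 : 2 * (N : ℝ) * ‖s + η‖ ≤ 2 * (Q : ℝ) ^ 2 * ((Q : ℝ) ^ 10 + 3) := by
        apply mul_le_mul _ p4 (norm_nonneg _) (by positivity)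
        linarith
      refine r1.trans ?_
      have r2 : (1 : ℝ) ≤ (Q : ℝ) ^ 10 := one_le_pow₀ (by linarith)
      have r3 : (4 : ℝ) ^ 2 ≤ (Q : ℝ) ^ 2 := pow_le_pow_left₀ (by norm_num) hQ 2
      have r4 : (1 : ℝ) ≤ (Q : ℝ) ^ 3 := one_le_pow₀ (by linarith)
      have r5 : (Q : ℝ) ^ 18 * (1 / (2 * Q)) = (Q : ℝ) ^ 2 * (Q : ℝ) ^ 10 * (Q : ℝ) ^ 2 * (Q : ℝ) ^ 3 / 2 := by
        field_simp
      rw [r5]
      have r6 : 2 * (Q : ℝ) ^ 2 * ((Q : ℝ) ^ 10 + 3) ≤ (Q : ℝ) ^ 2 * (Q : ℝ) ^ 10 * 8 := by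
        nlinarith [pow_pos hQ0 2]
      have r7 : (Q : ℝ) ^ 2 * (Q : ℝ) ^ 10 * 8 ≤ (Q : ℝ) ^ 2 * (Q : ℝ) ^ 10 * (Q : ℝ) ^ 2 * (Q : ℝ) ^ 3 / 2 := by
        have t1 : 0 < (Q : ℝ) ^ 2 * (Q : ℝ) ^ 10 := by positivity
        have t2 : (16 : ℝ) ≤ (Q : ℝ) ^ 2 * (Q : ℝ) ^ 3 := by nlinarith
        nlinarith [mul_le_mul_of_nonneg_left t2 t1.le]
      exact r6.trans r7
    have q4 : 1 / (2 * (Q : ℝ)) ≤ ‖χ.LFunction ((1 + lam + v * Complex.I : ℂ) + η)‖ := by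
      refine le_trans ?_ q2
      have r1 : 1 / (Q : ℝ) ≤ 1 / Real.log Q := one_div_le_one_div_of_le hlog hlogQ
      have r2 : 1 / (2 * (Q : ℝ)) = (1 / Q) / 2 := by field_simp
      rw [r2]
      linarith
    refine q3.trans ?_
    exact mul_le_mul (z5a_exp hQ 18 (20 + C) (by push_cast; linarith)) q4 (by positivity) (by positivity)
  · intro lam v h1 h2 h3
    have hl : 0 < lam := lt_of_lt_of_le (by positivity) h1
    rw [z5a_logDeriv_shift]
    refine (hld N χ lam v η hl h2 hη hη8).trans ?_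
    rw [le_div_iff₀ hl, add_mul, div_mul_cancel₀ _ hl.ne']
    nlinarith

/-- the trivial character -/
theorem z5a_triv_eq (N : ℕ) [NeZero N] (s : ℂ) : DirichletCharacter.LFunctionTrivChar₁ N s =
    gl2_Z s * ∏ p ∈ N.primeFactors, (1 - (p : ℂ) ^ (-s)) := by
  by_cases hs : s = 1
  · subst hs
    rw [gl2_Z_one, one_mul]
    unfold DirichletCharacter.LFunctionTrivChar₁
    rw [Function.update_self]
    refine Finset.prod_congr rfl fun p _ => ?_
    rw [Complex.cpow_neg_one]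
  · rw [gl2_Z_eq s hs, DirichletCharacter.LFunctionTrivChar₁, Function.update_of_ne hs,
      DirichletCharacter.LFunctionTrivChar_eq_mul_riemannZeta hs]
    ring

theorem z5a_prod (N : ℕ) [NeZero N] (s : ℂ) (hs : 0 ≤ s.re) :
    ‖∏ p ∈ N.primeFactors, (1 - (p : ℂ) ^ (-s))‖ ≤ N := by
  rw [norm_prod]
  have h1 : ∏ p ∈ N.primeFactors, ‖1 - (p : ℂ) ^ (-s)‖ ≤ ∏ p ∈ N.primeFactors, (p : ℝ) := by
    refine Finset.prod_le_prod (fun _ _ => norm_nonneg _) fun p hp => ?_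
    have hp2 : 2 ≤ p := (Nat.prime_of_mem_primeFactors hp).two_le
    have hp2' : (2 : ℝ) ≤ p := by exact_mod_cast hp2
    have h2 : ‖(p : ℂ) ^ (-s)‖ ≤ 1 := by
      rw [Complex.norm_natCast_cpow_of_pos (by omega), Complex.neg_re]
      exact Real.rpow_le_one_of_one_le_of_nonpos (by linarith) (by linarith)
    calc ‖1 - (p : ℂ) ^ (-s)‖ ≤ ‖(1 : ℂ)‖ + ‖(p : ℂ) ^ (-s)‖ := norm_sub_le _ _
      _ ≤ 2 := by rw [norm_one]; linarith
      _ ≤ p := hp2'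
  refine h1.trans ?_
  have h3 : ∏ p ∈ N.primeFactors, p ≤ N := Nat.le_of_dvd (Nat.pos_of_ne_zero (NeZero.ne N)) (Nat.prod_primeFactors_dvd N)
  have h4 : ((∏ p ∈ N.primeFactors, p : ℕ) : ℝ) ≤ (N : ℝ) := Nat.cast_le.2 h3
  rw [Nat.cast_prod] at h4
  exact h4

/-- Growth data of `(s + η - 1) L(s + η, 1_N)` for the trivial character modulo `N ≤ Q²`
(`DirichletCharacter.LFunctionTrivChar₁ N`, entire).

Proof. As `LDat_shift`. For `s ≠ 1`, `LFunctionTrivChar₁ N s = (s - 1) L(s, 1_N) =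
gl2_Z s ∏_{p ∣ N} (1 - p^(-s))` (`gl2_Z = LFunctionTrivChar₁ 1`;
`DirichletCharacter.LFunctionTrivChar_eq_mul_riemannZeta`), at `1` by continuity; the product has
absolute value at most `∏_{p ∣ N} 2 ≤ N` for `Re s ≥ 0`; `gl2_Z_bound` for `Re s ≤ 3`. Zeros: a zero
`ρ + η` of `LFunctionTrivChar₁` with `Re ≥ 1` is impossible (`riemannZeta_ne_zero_of_one_le_re`,
`gl2_Z_one`, `|p^(-s)| < 1`, `LFunctionTrivChar₁_apply_one_ne_zero`). Lower bound at `s₀ + η`: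
`|s₀ + η - 1| ≥ lam + η`, `|L(s₀ + η, 1_N)| ≥ (lam + η)/(1 + lam + η)` (`lab2_lower`), product
`≥ lam²/2`. Logarithmic derivative: `1/(s-1)` (at most `1/(lam+η)`) plus that of `L(s, 1_N)`
(`lab1_char`, `norm_LSeries_vM_le`, `vonMangoldt_le`). -/
theorem LDat_shift_triv : ∃ C0 K : ℝ, 1 ≤ C0 ∧ ∀ Q : ℕ, K ≤ Q → ∀ (N : ℕ) [NeZero N],
    N ≤ Q ^ 2 → ∀ η : ℝ, 0 ≤ η → η ≤ 1 / 8 →
    LDat C0 (Real.log Q) ((Q : ℝ) ^ 10)
      (fun s => DirichletCharacter.LFunctionTrivChar₁ N (s + η)) := by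
  obtain ⟨C, hC, hld⟩ := z5a_ld
  refine ⟨30 + C, 4, by linarith, fun Q hQ N _ hN η hη hη8 => ?_⟩
  obtain ⟨hlog, hlogQ⟩ := z5a_logQ hQ
  refine ⟨?_, ?_, ?_, ?_⟩
  · exact (DirichletCharacter.differentiable_LFunctionTrivChar₁ N).comp
      (differentiable_id.add (differentiable_const _))
  · intro ρ h
    by_contra hcon
    have h1 : 1 ≤ (ρ + η).re := by
      have : (ρ + η).re = ρ.re + η := by simp
      rw [this]
      linarith [not_lt.1 hcon]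
    by_cases hs : ρ + (η : ℂ) = 1
    · simp only [hs] at h
      exact DirichletCharacter.LFunctionTrivChar₁_apply_one_ne_zero N h
    · simp only [DirichletCharacter.LFunctionTrivChar₁, Function.update_of_ne hs] at h
      rcases mul_eq_zero.1 h with h2 | h2
      · exact sub_ne_zero.2 hs h2
      · exact DirichletCharacter.LFunction_ne_zero_of_one_le_re _ (Or.inr hs) h1 h2
  · intro lam v h1 h2 h3 s hs
    have hl : 0 < lam := lt_of_lt_of_le (by positivity) h1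
    obtain ⟨p1, p2, p3, p4⟩ := z5a_pt hl h2 h3 hη hη8 hs
    have q1 := gl2_Z_bound (s + η) p1 p2
    have q1' := z5a_prod N (s + η) (by linarith)
    have q2 := z5a_low N (1 : DirichletCharacter ℂ N) lam v η hl h2 hη
    have hN' : (N : ℝ) ≤ (Q : ℝ) ^ 2 := by exact_mod_cast hN
    have hQ0 : (0 : ℝ) < Q := by linarith
    have q3 : ‖DirichletCharacter.LFunctionTrivChar₁ N (s + η)‖ ≤ (Q : ℝ) ^ 30 * (1 / (2 * Q ^ 2)) := by
      rw [z5a_triv_eq, norm_mul]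
      have r0 : 4 * (|(s + η).im| + 3) ^ 2 ≤ 4 * (5 * (Q : ℝ) ^ 10) ^ 2 := by
        have r2 : (1 : ℝ) ≤ (Q : ℝ) ^ 10 := one_le_pow₀ (by linarith)
        have r3 : |(s + η).im| + 3 ≤ 5 * (Q : ℝ) ^ 10 := by linarith
        have r4 : (|(s + η).im| + 3) ^ 2 ≤ (5 * (Q : ℝ) ^ 10) ^ 2 := pow_le_pow_left₀ (by positivity) r3 2
        linarith
      have r1 := mul_le_mul (q1.trans r0) (q1'.trans hN') (norm_nonneg _) (by positivity)
      refine r1.trans ?_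
      have r5 : (Q : ℝ) ^ 30 * (1 / (2 * Q ^ 2)) = (Q : ℝ) ^ 22 * (Q : ℝ) ^ 6 / 2 := by
        field_simp
      have r6 : 4 * (5 * (Q : ℝ) ^ 10) ^ 2 * (Q : ℝ) ^ 2 = 100 * (Q : ℝ) ^ 22 := by ring
      rw [r5, r6]
      have r7 : (4 : ℝ) ^ 6 ≤ (Q : ℝ) ^ 6 := pow_le_pow_left₀ (by norm_num) hQ 6
      have r8 : (0 : ℝ) < (Q : ℝ) ^ 22 := by positivity
      nlinarith [mul_le_mul_of_nonneg_left r7 r8.le]
    have q4 : 1 / (2 * (Q : ℝ) ^ 2) ≤
        ‖DirichletCharacter.LFunctionTrivChar₁ N ((1 + lam + v * Complex.I : ℂ) + η)‖ := by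
      have hne : (1 + lam + v * Complex.I : ℂ) + η ≠ 1 := by
        intro h
        have := congrArg Complex.re h
        rw [z5a_re, Complex.one_re] at this
        linarith
      rw [DirichletCharacter.LFunctionTrivChar₁, Function.update_of_ne hne, norm_mul]
      have t1 : lam ≤ ‖(1 + lam + v * Complex.I : ℂ) + η - 1‖ := by
        refine le_trans ?_ (Complex.re_le_norm _)
        rw [Complex.sub_re, z5a_re, Complex.one_re]
        linarith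
      have t2 : 1 / (Q : ℝ) ≤ lam := (one_div_le_one_div_of_le hlog hlogQ).trans h1
      have t3 : lam * (lam / 2) ≤ ‖(1 + lam + v * Complex.I : ℂ) + η - 1‖ *
          ‖(1 : DirichletCharacter ℂ N).LFunction ((1 + lam + v * Complex.I : ℂ) + η)‖ :=
        mul_le_mul t1 q2 (by positivity) (norm_nonneg _)
      refine le_trans ?_ t3
      have t4 : 1 / (2 * (Q : ℝ) ^ 2) = (1 / Q) * (1 / Q) / 2 := by field_simp
      have t5 : (1 / (Q : ℝ)) * (1 / Q) ≤ lam * lam := mul_le_mul t2 t2 (by positivity) hl.le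
      rw [t4]
      linarith
    refine q3.trans ?_
    exact mul_le_mul (z5a_exp hQ 30 (30 + C) (by push_cast; linarith)) q4 (by positivity) (by positivity)
  · intro lam v h1 h2 h3
    have hl : 0 < lam := lt_of_lt_of_le (by positivity) h1
    have hne : (1 + lam + v * Complex.I : ℂ) + η ≠ 1 := by
      intro h
      have := congrArg Complex.re h
      rw [z5a_re, Complex.one_re] at this
      linarith
    rw [z5a_logDeriv_shift]
    have hL := z5a_low N (1 : DirichletCharacter ℂ N) lam v η hl h2 hη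
    have hLne : (1 : DirichletCharacter ℂ N).LFunction ((1 + lam + v * Complex.I : ℂ) + η) ≠ 0 := by
      intro h
      rw [h, norm_zero] at hL
      linarith
    have hs1 : (1 + lam + v * Complex.I : ℂ) + η - 1 ≠ 0 := sub_ne_zero.2 hne
    have hsplit : logDeriv (DirichletCharacter.LFunctionTrivChar₁ N) ((1 + lam + v * Complex.I : ℂ) + η) =
        logDeriv (1 : DirichletCharacter ℂ N).LFunction ((1 + lam + v * Complex.I : ℂ) + η) +
          1 / ((1 + lam + v * Complex.I : ℂ) + η - 1) := by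
      rw [logDeriv_apply, logDeriv_apply,
        DirichletCharacter.deriv_LFunctionTrivChar₁_apply_of_ne_one N hne,
        DirichletCharacter.LFunctionTrivChar₁, Function.update_of_ne hne]
      simp only [DirichletCharacter.LFunctionTrivChar]
      field_simp
    rw [hsplit]
    have t1 : lam ≤ ‖(1 + lam + v * Complex.I : ℂ) + η - 1‖ := by
      refine le_trans ?_ (Complex.re_le_norm _)
      rw [Complex.sub_re, z5a_re, Complex.one_re]
      linarith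
    have t2 : ‖1 / ((1 + lam + v * Complex.I : ℂ) + η - 1)‖ ≤ 1 / lam := by
      rw [norm_div, norm_one]
      exact one_div_le_one_div_of_le hl t1
    refine (norm_add_le _ _).trans ?_
    have t3 := hld N (1 : DirichletCharacter ℂ N) lam v η hl h2 hη hη8
    refine (add_le_add t3 t2).trans ?_
    rw [le_div_iff₀ hl, add_mul, add_mul, div_mul_cancel₀ _ hl.ne']
    nlinarith

/-- Growth data of `Lp p`: `LDat_shift` with `η = 0` for `p ≠ p0` (`Lp_mem`, `ne_one_of_ne_p0`),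
`LDat_shift_triv` with `N = 1`, `η = 0` for `p = p0` (`Lp_p0`, `gl2_Z` is by definition
`LFunctionTrivChar₁ 1`). -/
theorem LDat_Lp : ∃ C0 K : ℝ, 1 ≤ C0 ∧ ∀ Q : ℕ, K ≤ Q → ∀ p ∈ PC Q,
    LDat C0 (Real.log Q) ((Q : ℝ) ^ 10) (Lp p) := by
  obtain ⟨C1, K1, hC1, h1⟩ := LDat_shift
  obtain ⟨C2, K2, hC2, h2⟩ := LDat_shift_triv
  refine ⟨max C1 C2, max 4 (max K1 K2), hC1.trans (le_max_left _ _), fun Q hQ p hp => ?_⟩
  have hQ4 : (4 : ℝ) ≤ Q := (le_max_left _ _).trans hQ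
  have hQ1 : K1 ≤ (Q : ℝ) := ((le_max_left _ _).trans (le_max_right _ _)).trans hQ
  have hQ2 : K2 ≤ (Q : ℝ) := ((le_max_right _ _).trans (le_max_right _ _)).trans hQ
  have hQ4' : 4 ≤ Q := by exact_mod_cast hQ4
  have hlog := (z5a_logQ hQ4).1
  by_cases h : p = p0
  · have h3 := h2 Q hQ2 1 (by nlinarith) 0 le_rfl (by norm_num)
    rw [h, Lp_p0]
    have h4 : (fun s : ℂ => DirichletCharacter.LFunctionTrivChar₁ 1 (s + ((0 : ℝ) : ℂ))) = gl2_Z := by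
      funext s
      rw [Complex.ofReal_zero, add_zero]
      rfl
    rw [h4] at h3
    exact h3.mono (le_max_right _ _) le_rfl hlog.le
  · obtain ⟨hne, hLp⟩ := Lp_mem hp h
    have hmem := mem_PC.mp hp
    have h3 := h1 Q hQ1 p.1 p.2 (by nlinarith [hmem.2.1]) (ne_one_of_ne_p0 hp h) 0 le_rfl (by norm_num)
    have h4 : (fun s : ℂ => p.2.LFunction (s + ((0 : ℝ) : ℂ))) = p.2.LFunction := by
      funext s
      rw [Complex.ofReal_zero, add_zero]
    rw [h4] at h3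
    rw [hLp]
    exact h3.mono (le_max_left _ _) le_rfl hlog.le

end Pool.Agent.Lib.H18Q
end

-- from Lib.H18Q.Z0
section

/-!
# Project H18Q, chunk Z0: zeros of entire functions
-/

open Finset

namespace Pool.Agent.Lib.H18Q

/-- An entire function, not identically zero, has finitely many zeros in a bounded set.
Proof: `AnalyticOnNhd.eqOn_zero_or_eventually_ne_zero_of_preconnected` on `Set.univ`, the zero set
is closed and discrete, its intersection with the (compact) closure of the bounded set is finite. -/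
theorem zeros_finite {f : ℂ → ℂ} (hf : Differentiable ℂ f) (hne : ∃ c, f c ≠ 0) {S : Set ℂ}
    (hS : Bornology.IsBounded S) : ({ρ : ℂ | f ρ = 0 ∧ ρ ∈ S}).Finite := by
  by_contra hinf
  have hinf' : ({ρ : ℂ | f ρ = 0 ∧ ρ ∈ S}).Infinite := hinf
  obtain ⟨x, -, hx⟩ := hinf'.exists_accPt_of_subset_isCompact hS.isCompact_closure
    (fun z hz => subset_closure hz.2)
  have hfa : AnalyticOnNhd ℂ f Set.univ := fun z _ => hf.analyticAt z
  have hfr : ∃ᶠ z in nhdsWithin x {x}ᶜ, f z = 0 :=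
    (accPt_iff_frequently_nhdsNE.1 hx).mono (fun z hz => hz.1)
  obtain ⟨c, hc⟩ := hne
  exact hc (hfa.eqOn_zero_of_preconnected_of_frequently_eq_zero isPreconnected_univ
    (Set.mem_univ x) hfr (Set.mem_univ c))

theorem mem_ZS {f : ℂ → ℂ} (hf : Differentiable ℂ f) (hne : ∃ c, f c ≠ 0) {S : Set ℂ}
    (hS : Bornology.IsBounded S) {ρ : ℂ} : ρ ∈ ZS f S ↔ f ρ = 0 ∧ ρ ∈ S := by
  unfold ZS
  rw [dif_pos (zeros_finite hf hne hS), Set.Finite.mem_toFinset]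
  rfl

theorem mem_ZD {f : ℂ → ℂ} (hf : Differentiable ℂ f) (hne : ∃ c, f c ≠ 0) {c : ℂ} {R : ℝ}
    {ρ : ℂ} : ρ ∈ ZD f c R ↔ f ρ = 0 ∧ ‖ρ - c‖ ≤ R := by
  unfold ZD
  rw [mem_ZS hf hne Metric.isBounded_closedBall, mem_closedBall_iff_norm]

theorem mem_ZR {f : ℂ → ℂ} (hf : Differentiable ℂ f) (hne : ∃ c, f c ≠ 0) {σ T : ℝ}
    {ρ : ℂ} : ρ ∈ ZR f σ T ↔ f ρ = 0 ∧ σ ≤ ρ.re ∧ ρ.re ≤ 1 ∧ |ρ.im| ≤ T := by
  unfold ZR
  rw [mem_ZS hf hne]
  · rfl
  · refine (Metric.isBounded_closedBall (x := (0 : ℂ)) (r := |σ| + 1 + |T|)).subset ?_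
    intro z hz
    obtain ⟨h1, h2, h3⟩ := hz
    rw [mem_closedBall_zero_iff]
    refine (Complex.norm_le_abs_re_add_abs_im z).trans ?_
    have h4 : |z.re| ≤ |σ| + 1 := by
      rw [abs_le]
      constructor
      · have := neg_abs_le σ
        linarith
      · have := abs_nonneg σ
        linarith
    have h5 : T ≤ |T| := le_abs_self T
    linarith

/-- The order at a point is finite, and positive at a zero
(`AnalyticAt.analyticOrderAt_ne_zero`, `analyticOrderAt_ne_top` from the identity theorem). -/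
theorem order_ne_top {f : ℂ → ℂ} (hf : Differentiable ℂ f) (hne : ∃ c, f c ≠ 0) (ρ : ℂ) :
    analyticOrderAt f ρ ≠ ⊤ := by
  intro h
  rw [analyticOrderAt_eq_top] at h
  have hfa : AnalyticOnNhd ℂ f Set.univ := fun z _ => hf.analyticAt z
  obtain ⟨c, hc⟩ := hne
  exact hc (hfa.eqOn_zero_of_preconnected_of_eventuallyEq_zero isPreconnected_univ
    (Set.mem_univ ρ) h (Set.mem_univ c))

theorem od_pos {f : ℂ → ℂ} (hf : Differentiable ℂ f) (hne : ∃ c, f c ≠ 0) {ρ : ℂ}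
    (h : f ρ = 0) : 1 ≤ od f ρ := by
  have h1 : analyticOrderAt f ρ ≠ 0 := (hf.analyticAt ρ).analyticOrderAt_ne_zero.2 h
  have h2 : analyticOrderAt f ρ ≠ ⊤ := order_ne_top hf hne ρ
  have h3 : ((od f ρ : ℕ) : ℕ∞) = analyticOrderAt f ρ := Nat.cast_analyticOrderNatAt h2
  rw [Nat.one_le_iff_ne_zero]
  intro h4
  rw [← h3, h4] at h1
  exact h1 rfl

theorem od_zero {f : ℂ → ℂ} (hf : Differentiable ℂ f) {ρ : ℂ}
    (h : f ρ ≠ 0) : od f ρ = 0 := by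
  have h1 : analyticOrderAt f ρ = 0 := (hf.analyticAt ρ).analyticOrderAt_eq_zero.2 h
  unfold od analyticOrderNatAt
  rw [h1]
  rfl

theorem od_mul {f g : ℂ → ℂ} (hf : Differentiable ℂ f) (hg : Differentiable ℂ g)
    (hfn : ∃ c, f c ≠ 0) (hgn : ∃ c, g c ≠ 0) (ρ : ℂ) :
    od (fun s => f s * g s) ρ = od f ρ + od g ρ := by
  exact analyticOrderNatAt_mul (hf.analyticAt ρ) (hg.analyticAt ρ) (order_ne_top hf hfn ρ)
    (order_ne_top hg hgn ρ)

/-- Zeros in a finite set can be divided out (with `od` as exponents); the quotient does not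
vanish at the points of the set. Proof: induction on `S`; for one point
`AnalyticAt.analyticOrderNatAt_eq_iff` gives `f = (z - ρ)^(od f ρ) g` near `ρ`; the function equal
to `g` near `ρ` and to `f(z)/(z-ρ)^(od f ρ)` away from `ρ` is entire, its zeros and orders away
from `ρ` are those of `f` (`od_mul`, `od_zero`). `LAN_remove` of `H68T/LAN` (import it if you like)
is the one-point statement. -/
theorem od_factor {f : ℂ → ℂ} (hf : Differentiable ℂ f) (hne : ∃ c, f c ≠ 0) (S : Finset ℂ) :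
    ∃ h : ℂ → ℂ, Differentiable ℂ h ∧ (∀ ρ ∈ S, h ρ ≠ 0) ∧
      ∀ s, f s = (∏ ρ ∈ S, (s - ρ) ^ od f ρ) * h s := by
  classical
  induction S using Finset.induction_on with
  | empty => exact ⟨f, hf, by simp, by simp⟩
  | insert a S ha ih =>
    obtain ⟨h, hd, h0, hfac⟩ := ih
    have hhne : ∃ c, h c ≠ 0 := by
      obtain ⟨c, hc⟩ := hne
      refine ⟨c, fun h1 => hc ?_⟩
      rw [hfac, h1, mul_zero]
    have hPd : Differentiable ℂ (fun s => ∏ ρ ∈ S, (s - ρ) ^ od f ρ) := by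
      fun_prop
    have hPa : (∏ ρ ∈ S, (a - ρ) ^ od f ρ) ≠ 0 := by
      rw [Finset.prod_ne_zero_iff]
      intro ρ hρ
      refine pow_ne_zero _ (sub_ne_zero.2 ?_)
      rintro rfl
      exact ha hρ
    have hod : od h a = od f a := by
      have h1 := od_mul hPd hd ⟨a, hPa⟩ hhne a
      have h2 : (fun s => (∏ ρ ∈ S, (s - ρ) ^ od f ρ) * h s) = f := by
        funext s
        exact (hfac s).symm
      rw [h2, od_zero hPd hPa, zero_add] at h1
      exact h1.symm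
    have hane : ¬ ∀ᶠ z in nhds a, h z = 0 := by
      rw [← analyticOrderAt_eq_top]
      exact order_ne_top hd hhne a
    obtain ⟨n, g, hg, hga, hhg⟩ := Pool.Agent.Lib.H68T.LAN_remove (U := Set.univ)
      (fun z _ => hd.analyticAt z) (Set.mem_univ a) hane
    have hgd : Differentiable ℂ g := fun z => (hg z (Set.mem_univ z)).differentiableAt
    have hn : n = od f a := by
      rw [← hod]
      have h1 : analyticOrderAt h a = n := by
        rw [(hd.analyticAt a).analyticOrderAt_eq_natCast]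
        exact ⟨g, hg a (Set.mem_univ a), hga, Filter.Eventually.of_forall fun z => by
          rw [smul_eq_mul]; exact hhg z⟩
      unfold od analyticOrderNatAt
      rw [h1]
      rfl
    refine ⟨g, hgd, ?_, ?_⟩
    · intro ρ hρ
      rcases Finset.mem_insert.1 hρ with rfl | hρ
      · exact hga
      · intro h1
        apply h0 ρ hρ
        rw [hhg, h1, mul_zero]
    · intro s
      rw [Finset.prod_insert ha, hfac s, hhg s, hn]
      ring

/-- Removing a zero: `f s = (s - a) (dslope f a s)`, so the orders of `dslope f a` are at most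
those of `f`, and its zeros are zeros of `f`. -/
theorem od_dslope_le {f : ℂ → ℂ} (hf : Differentiable ℂ f) (hne : ∃ c, f c ≠ 0) {a : ℂ}
    (ha : f a = 0) (ρ : ℂ) : od (dslope f a) ρ ≤ od f ρ := by
  have hd : Differentiable ℂ (dslope f a) := by
    rw [← differentiableOn_univ]
    exact (Complex.differentiableOn_dslope Filter.univ_mem).2 hf.differentiableOn
  have hfs : (fun s => (s - a) * dslope f a s) = f := by
    funext s
    have h1 := sub_smul_dslope f a s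
    rw [smul_eq_mul, ha, sub_zero] at h1
    exact h1
  have hdn : ∃ c, dslope f a c ≠ 0 := by
    obtain ⟨c, hc⟩ := hne
    refine ⟨c, fun h1 => hc ?_⟩
    rw [← hfs]
    simp only [h1, mul_zero]
  have h1 := od_mul (f := fun s => s - a) (by fun_prop) hd ⟨a + 1, by simp⟩ hdn ρ
  rw [hfs] at h1
  omega

theorem dslope_zero {f : ℂ → ℂ} {a : ℂ} (ha : f a = 0) {ρ : ℂ}
    (h : dslope f a ρ = 0) : f ρ = 0 := by
  have h1 := sub_smul_dslope f a ρ
  rw [h, smul_zero, ha, sub_zero] at h1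
  exact h1.symm

end Pool.Agent.Lib.H18Q
end

-- from Lib.H18Q.Z1
section

/-!
# Project H18Q, chunk Z1: derivatives of the logarithmic derivative
-/

open Finset

namespace Pool.Agent.Lib.H18Q

/-- Derivatives of `1/(s - ρ)`. -/
theorem z1_inv (ρ s₀ : ℂ) (k : ℕ) :
    iteratedDeriv k (fun s => (s - ρ)⁻¹) s₀ =
      (k.factorial : ℂ) * ((-1) ^ k * (1 / (s₀ - ρ)) ^ (k + 1)) := by
  have h1 := iter_deriv_inv_linear_sub k (1 : ℂ) ρ
  have h2 : (fun s : ℂ => (s - ρ)⁻¹) = (fun s : ℂ => (1 * s - ρ)⁻¹) := by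
    funext s
    rw [one_mul]
  rw [iteratedDeriv_eq_iterate, h2, h1]
  simp only [one_pow, mul_one, one_mul]
  have h3 : (-1 - (k : ℤ)) = -((k + 1 : ℕ) : ℤ) := by push_cast; ring
  rw [h3, zpow_neg, zpow_natCast, one_div, inv_pow]
  ring

/-- Higher derivatives of `f'/f` and the zeros near `s₀`.

Proof. Let `S = ZD f s₀ (R/2)` and `f = P h`, `P(s) = ∏_{ρ ∈ S} (s - ρ)^(od f ρ)` (`od_factor`).
Then `h ≠ 0` on `closedBall s₀ (R/2)`: a zero of `h` there is a zero of `f`, so in `S`, where `h`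
does not vanish. For `|s - s₀| = R` and `ρ ∈ S`: `|s - ρ| ≥ R - R/2 = R/2 ≥ |s₀ - ρ|`, so
`|P(s)| ≥ |P(s₀)| > 0` and `|h(s)| ≤ exp M |h(s₀)|` on the sphere, hence in the ball (maximum
principle, `Complex.norm_le_of_forall_mem_frontier_norm_le`). By `LAN_zero_free` (file `H68T/LAN`)
`|h'/h| ≤ 48 (M+1)/R` on `closedBall s₀ (R/4)`. Cauchy's estimate for the `k`-th derivative of the
function `logDeriv h` (analytic near that ball, `h ≠ 0` on `closedBall s₀ (R/2)`):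
`|iteratedDeriv k (logDeriv h) s₀| ≤ k! 48 (M+1)/R (4/R)^k`
(`Complex.norm_iteratedDeriv_le_of_forall_mem_sphere_norm_le`). Near `s₀`, `logDeriv f = ∑_{ρ ∈ S}
od f ρ / (s - ρ) + logDeriv h` (`f s₀ ≠ 0`; `logDeriv_mul`, `logDeriv_prod`, `logDeriv_pow`), and
`iteratedDeriv k (fun s => 1/(s - ρ)) s₀ = (-1)^k k! / (s₀ - ρ)^(k+1)`
(`iteratedDeriv_inv`-type lemmas or induction). -/
theorem landau_k : ∃ A : ℝ, 0 < A ∧ ∀ (f : ℂ → ℂ) (s₀ : ℂ) (R M : ℝ), 0 < R → 0 ≤ M →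
    Differentiable ℂ f → f s₀ ≠ 0 →
    (∀ s ∈ Metric.closedBall s₀ R, ‖f s‖ ≤ Real.exp M * ‖f s₀‖) → ∀ k : ℕ,
    ‖iteratedDeriv k (logDeriv f) s₀ / (k.factorial : ℂ) -
      (-1) ^ k * ∑ ρ ∈ ZD f s₀ (R / 2), (od f ρ : ℂ) * (1 / (s₀ - ρ)) ^ (k + 1)‖ ≤
        A * (M + 1) / R * (4 / R) ^ k := by
  refine ⟨48, by norm_num, ?_⟩
  intro f s₀ R M hR hM hf hfs hb k
  classical
  have hne : ∃ c, f c ≠ 0 := ⟨s₀, hfs⟩
  obtain ⟨S, hSdef⟩ : ∃ S : Finset ℂ, S = ZD f s₀ (R / 2) := ⟨_, rfl⟩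
  rw [← hSdef]
  have hmem : ∀ ρ, ρ ∈ S ↔ f ρ = 0 ∧ ‖ρ - s₀‖ ≤ R / 2 := by
    intro ρ
    rw [hSdef]
    exact mem_ZD hf hne
  obtain ⟨h, hd, h0, hfac⟩ := od_factor hf hne S
  set P : ℂ → ℂ := fun s => ∏ ρ ∈ S, (s - ρ) ^ od f ρ with hP
  have hfac' : ∀ s, f s = P s * h s := hfac
  have hPs : P s₀ ≠ 0 := by
    intro h1
    apply hfs
    rw [hfac', h1, zero_mul]
  have hhs : h s₀ ≠ 0 := by
    intro h1
    apply hfs
    rw [hfac', h1, mul_zero]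
  have hh0 : ∀ s ∈ Metric.closedBall s₀ (R / 2), h s ≠ 0 := by
    intro s hs h1
    rw [mem_closedBall_iff_norm] at hs
    exact h0 s ((hmem s).2 ⟨by rw [hfac', h1, mul_zero], hs⟩) h1
  have hPmono : ∀ s ∈ Metric.sphere s₀ R, ‖P s₀‖ ≤ ‖P s‖ := by
    intro s hs
    rw [mem_sphere_iff_norm] at hs
    simp only [hP]
    rw [norm_prod, norm_prod]
    refine Finset.prod_le_prod (fun ρ _ => norm_nonneg _) fun ρ hρ => ?_
    rw [norm_pow, norm_pow]
    refine pow_le_pow_left₀ (norm_nonneg _) ?_ _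
    have h1 := ((hmem ρ).1 hρ).2
    have h2 : ‖s - s₀‖ ≤ ‖s - ρ‖ + ‖ρ - s₀‖ := by
      have := norm_add_le (s - ρ) (ρ - s₀)
      rwa [sub_add_sub_cancel] at this
    rw [norm_sub_rev s₀ ρ]
    linarith
  have hPpos : 0 < ‖P s₀‖ := norm_pos_iff.2 hPs
  have hsph : ∀ s ∈ Metric.sphere s₀ R, ‖h s‖ ≤ Real.exp M * ‖h s₀‖ := by
    intro s hs
    have h1 := hb s (Metric.sphere_subset_closedBall hs)
    rw [hfac' s, hfac' s₀, norm_mul, norm_mul] at h1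
    have h2 := hPmono s hs
    have h3 : 0 < ‖P s‖ := lt_of_lt_of_le hPpos h2
    have h4 : ‖P s‖ * ‖h s‖ ≤ ‖P s‖ * (Real.exp M * ‖h s₀‖) := by
      calc ‖P s‖ * ‖h s‖ ≤ Real.exp M * (‖P s₀‖ * ‖h s₀‖) := h1
        _ = ‖P s₀‖ * (Real.exp M * ‖h s₀‖) := by ring
        _ ≤ ‖P s‖ * (Real.exp M * ‖h s₀‖) := by
            refine mul_le_mul_of_nonneg_right h2 ?_
            positivity
    exact le_of_mul_le_mul_left h4 h3
  have hball : ∀ s ∈ Metric.closedBall s₀ R, ‖h s‖ ≤ Real.exp M * ‖h s₀‖ := by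
    intro s hs
    refine Complex.norm_le_of_forall_mem_frontier_norm_le (U := Metric.ball s₀ R)
      Metric.isBounded_ball hd.diffContOnCl ?_ ?_
    · intro z hz
      rw [frontier_ball _ hR.ne'] at hz
      exact hsph z hz
    · rw [closure_ball _ hR.ne']
      exact hs
  have hLAN := Pool.Agent.Lib.H68T.LAN_zero_free h s₀ R M hR hM
    (fun z _ => hd.analyticAt z) hh0 hball
  have hdiff : DifferentiableOn ℂ (logDeriv h) (Metric.ball s₀ (R / 2)) := by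
    intro s hs
    have h1 : DifferentiableAt ℂ (fun s => deriv h s / h s) s :=
      ((hd.analyticAt s).deriv.differentiableAt).div (hd s) (hh0 s (Metric.ball_subset_closedBall hs))
    exact h1.differentiableWithinAt
  have hcl : DiffContOnCl ℂ (logDeriv h) (Metric.ball s₀ (R / 4)) := by
    refine DifferentiableOn.diffContOnCl ?_
    rw [closure_ball _ (by positivity)]
    exact hdiff.mono (Metric.closedBall_subset_ball (by linarith))
  have hcau := Complex.norm_iteratedDeriv_le_of_forall_mem_sphere_norm_le k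
    (by positivity : 0 < R / 4) hcl (C := 48 * (M + 1) / R)
    (fun z hz => by
      rw [logDeriv_apply]
      exact hLAN z (Metric.sphere_subset_closedBall hz))
  -- the formula near `s₀`
  have hSne : ∀ ρ ∈ S, s₀ - ρ ≠ 0 := by
    intro ρ hρ h1
    rw [sub_eq_zero] at h1
    apply hfs
    rw [h1]
    exact ((hmem ρ).1 hρ).1
  have hev : logDeriv f =ᶠ[nhds s₀]
      fun s => (∑ ρ ∈ S, (od f ρ : ℂ) * (s - ρ)⁻¹) + logDeriv h s := by
    have hPd : Differentiable ℂ P := by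
      simp only [hP]
      fun_prop
    have e1 : ∀ᶠ s in nhds s₀, P s ≠ 0 := hPd.continuous.continuousAt.eventually_ne hPs
    have e2 : ∀ᶠ s in nhds s₀, h s ≠ 0 := hd.continuous.continuousAt.eventually_ne hhs
    have e3 : ∀ᶠ s in nhds s₀, ∀ ρ ∈ S, s - ρ ≠ 0 := by
      rw [Filter.eventually_all_finset]
      intro ρ hρ
      exact (continuous_id.sub continuous_const).continuousAt.eventually_ne (hSne ρ hρ)
    filter_upwards [e1, e2, e3] with s hs1 hs2 hs3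
    have h1 : f = fun s => P s * h s := funext hfac'
    have h2 : logDeriv P s = ∑ ρ ∈ S, (od f ρ : ℂ) * (s - ρ)⁻¹ := by
      have h3 : P = fun s => ∏ ρ ∈ S, (fun z : ℂ => (z - ρ) ^ od f ρ) s := rfl
      rw [h3, logDeriv_prod]
      · refine Finset.sum_congr rfl fun ρ _ => ?_
        rw [logDeriv_fun_pow (by fun_prop)]
        congr 1
        rw [logDeriv_apply]
        simp
      · intro ρ hρ
        exact pow_ne_zero _ (hs3 ρ hρ)
      · intro ρ _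
        fun_prop
    rw [← h2]
    conv_lhs => rw [h1]
    exact logDeriv_mul s hs1 hs2 (hPd s) (hd s)
  have hana : ∀ ρ ∈ S, ContDiffAt ℂ k (fun s => (od f ρ : ℂ) * (s - ρ)⁻¹) s₀ := by
    intro ρ hρ
    refine contDiffAt_const.mul ?_
    exact (contDiffAt_id.sub contDiffAt_const).inv (hSne ρ hρ)
  have hanah : ContDiffAt ℂ k (logDeriv h) s₀ := by
    refine AnalyticAt.contDiffAt ?_
    exact (hd.analyticAt s₀).deriv.div (hd.analyticAt s₀) hhs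
  have hiter : iteratedDeriv k (logDeriv f) s₀ =
      (k.factorial : ℂ) * ((-1) ^ k * ∑ ρ ∈ S, (od f ρ : ℂ) * (1 / (s₀ - ρ)) ^ (k + 1)) +
        iteratedDeriv k (logDeriv h) s₀ := by
    rw [(hev.iteratedDeriv_eq k)]
    have h1 : (fun s => (∑ ρ ∈ S, (od f ρ : ℂ) * (s - ρ)⁻¹) + logDeriv h s) =
        (fun s => ∑ ρ ∈ S, (od f ρ : ℂ) * (s - ρ)⁻¹) + logDeriv h := rfl
    rw [h1, iteratedDeriv_add (ContDiffAt.sum hana) hanah, iteratedDeriv_fun_sum hana]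
    congr 1
    rw [Finset.mul_sum, Finset.mul_sum]
    refine Finset.sum_congr rfl fun ρ hρ => ?_
    rw [iteratedDeriv_const_mul_field, z1_inv]
    ring
  have hk0 : (k.factorial : ℂ) ≠ 0 := by exact_mod_cast k.factorial_ne_zero
  have hkp : (0 : ℝ) < (k.factorial : ℝ) := by exact_mod_cast k.factorial_pos
  have hdiv : iteratedDeriv k (logDeriv f) s₀ / (k.factorial : ℂ) -
      (-1) ^ k * ∑ ρ ∈ S, (od f ρ : ℂ) * (1 / (s₀ - ρ)) ^ (k + 1) =
      iteratedDeriv k (logDeriv h) s₀ / (k.factorial : ℂ) := by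
    rw [hiter]
    field_simp
    ring
  rw [hdiv, norm_div, Complex.norm_natCast]
  rw [div_le_iff₀ hkp]
  refine hcau.trans (le_of_eq ?_)
  rw [div_pow, div_pow]
  have hR4 : (4 : ℝ) ^ k ≠ 0 := by positivity
  have hRk : R ^ k ≠ 0 := by positivity
  field_simp

end Pool.Agent.Lib.H18Q
end

-- from Lib.H18Q.Z2
section

/-!
# Project H18Q, chunk Z2: sums over the zeros near a point
-/

open Finset

namespace Pool.Agent.Lib.H18Q

/-- If all zeros `ρ` of `f` in the disc of radius `R/2` about `s₀` have `Re ρ ≤ Re s₀ - lam`, then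
`∑ od(ρ) lam / |s₀ - ρ|² ≤ |f'/f (s₀)| + A (M+1)/R`.

Proof: `landau_k` with `k = 0` and the real part: `Re (1/(s₀ - ρ)) = Re (s₀ - ρ)/|s₀ - ρ|² ≥
lam/|s₀ - ρ|²`. -/
theorem zero_sum_sq : ∃ A : ℝ, 0 < A ∧ ∀ (f : ℂ → ℂ) (s₀ : ℂ) (R M lam : ℝ), 0 < R → 0 ≤ M →
    Differentiable ℂ f → f s₀ ≠ 0 →
    (∀ s ∈ Metric.closedBall s₀ R, ‖f s‖ ≤ Real.exp M * ‖f s₀‖) →
    (∀ ρ, f ρ = 0 → ‖ρ - s₀‖ ≤ R / 2 → ρ.re ≤ s₀.re - lam) →
    ∑ ρ ∈ ZD f s₀ (R / 2), (od f ρ : ℝ) * (lam / ‖s₀ - ρ‖ ^ 2) ≤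
      ‖logDeriv f s₀‖ + A * (M + 1) / R := by
  obtain ⟨A, hA, H⟩ := landau_k
  refine ⟨A, hA, ?_⟩
  intro f s₀ R M lam hR hM hf hs0 hgr hz
  have h1 := H f s₀ R M hR hM hf hs0 hgr 0
  simp only [iteratedDeriv_zero, Nat.factorial_zero, Nat.cast_one, div_one, pow_zero, one_mul,
    zero_add, pow_one, mul_one] at h1
  have h2 : (∑ ρ ∈ ZD f s₀ (R / 2), (od f ρ : ℂ) * (1 / (s₀ - ρ))).re ≤
      ‖logDeriv f s₀‖ + A * (M + 1) / R := by
    have h3 : ‖∑ ρ ∈ ZD f s₀ (R / 2), (od f ρ : ℂ) * (1 / (s₀ - ρ))‖ ≤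
        ‖logDeriv f s₀‖ + A * (M + 1) / R := by
      have h4 : ∑ ρ ∈ ZD f s₀ (R / 2), (od f ρ : ℂ) * (1 / (s₀ - ρ)) = logDeriv f s₀ -
          (logDeriv f s₀ - ∑ ρ ∈ ZD f s₀ (R / 2), (od f ρ : ℂ) * (1 / (s₀ - ρ))) := by ring
      rw [h4]
      exact (norm_sub_le _ _).trans (add_le_add_right h1 _)
    exact (Complex.re_le_norm _).trans h3
  refine le_trans ?_ h2
  rw [Complex.re_sum]
  refine sum_le_sum fun ρ hρ => ?_
  rw [mem_ZD hf ⟨s₀, hs0⟩] at hρ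
  have h5 := hz ρ hρ.1 hρ.2
  have h6 : ((od f ρ : ℂ) * (1 / (s₀ - ρ))).re = (od f ρ : ℝ) * ((s₀ - ρ).re / ‖s₀ - ρ‖ ^ 2) := by
    rw [one_div, ← Complex.ofReal_natCast, Complex.re_ofReal_mul, Complex.inv_re,
      Complex.normSq_eq_norm_sq]
  rw [h6]
  apply mul_le_mul_of_nonneg_left _ (Nat.cast_nonneg _)
  apply div_le_div_of_nonneg_right _ (sq_nonneg _)
  rw [Complex.sub_re]
  linarith

theorem z2_re (lam v : ℝ) : (1 + lam + v * Complex.I : ℂ).re = 1 + lam := by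
  simp

theorem z2_im (lam v : ℝ) : (1 + lam + v * Complex.I : ℂ).im = v := by
  simp

theorem z2_ne {C0 ℓ T : ℝ} {f : ℂ → ℂ} (h : LDat C0 ℓ T f) {lam v : ℝ} (hl : 0 ≤ lam) :
    f (1 + lam + v * Complex.I) ≠ 0 := by
  intro h0
  have h1 := h.zre _ h0
  rw [z2_re] at h1
  linarith

/-- The sum for a function with growth data: at `s₀ = 1 + lam + i v`,
`∑_{|ρ - s₀| ≤ 1/4} od(ρ) (lam/|s₀ - ρ|)² ≤ C1 lam ℓ`.

Proof: `zero_sum_sq` with `R = 1/2`, `M = C0 ℓ` (`f s₀ ≠ 0` and `Re ρ ≤ 1 = Re s₀ - lam` by `zre`),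
times `lam`: at most `lam (C0/lam + 2 A (C0 ℓ + 1)) ≤ (C0 + 2 A (C0 + 1)) lam ℓ`, as
`lam ℓ ≥ 1`, `ℓ ≥ 8`. (`f s₀ ≠ 0` gives `hne` for `mem_ZD`.) -/
theorem ldat_sum (C0 : ℝ) (h0 : 1 ≤ C0) : ∃ C1 : ℝ, 1 ≤ C1 ∧ ∀ (ℓ T : ℝ) (f : ℂ → ℂ), 8 ≤ ℓ →
    LDat C0 ℓ T f → ∀ lam v : ℝ, 1 / ℓ ≤ lam → lam ≤ 1 / 8 → |v| ≤ T →
    ∑ ρ ∈ ZD f (1 + lam + v * Complex.I) (1 / 4),
      (od f ρ : ℝ) * (lam / ‖1 + lam + v * Complex.I - ρ‖) ^ 2 ≤ C1 * (lam * ℓ) := by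
  obtain ⟨A, hA, H⟩ := zero_sum_sq
  refine ⟨C0 + 2 * A * (C0 + 1), by nlinarith, ?_⟩
  intro ℓ T f hℓ hf lam v hl1 hl2 hv
  have hℓ0 : 0 < ℓ := by linarith
  have hlam : 0 < lam := lt_of_lt_of_le (by positivity) hl1
  have hlamℓ : 1 ≤ lam * ℓ := by
    rw [div_le_iff₀ hℓ0] at hl1
    exact hl1
  have hs0 : f (1 + lam + v * Complex.I) ≠ 0 := z2_ne hf hlam.le
  have h1 := H f (1 + lam + v * Complex.I) (1 / 2) (C0 * ℓ) lam (by norm_num)
    (by positivity) hf.diff hs0 (hf.growth lam v hl1 hl2 hv) (by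
      intro ρ hρ _
      have h2 := hf.zre ρ hρ
      rw [z2_re]
      linarith)
  have h3 := hf.ld lam v hl1 hl2 hv
  have h4 : (1 / 2 / 2 : ℝ) = 1 / 4 := by norm_num
  rw [h4] at h1
  have h5 : ∑ ρ ∈ ZD f (1 + lam + v * Complex.I) (1 / 4),
      (od f ρ : ℝ) * (lam / ‖1 + lam + v * Complex.I - ρ‖) ^ 2 =
      lam * ∑ ρ ∈ ZD f (1 + lam + v * Complex.I) (1 / 4),
      (od f ρ : ℝ) * (lam / ‖1 + lam + v * Complex.I - ρ‖ ^ 2) := by
    rw [mul_sum]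
    refine sum_congr rfl fun ρ _ => ?_
    rw [div_pow]
    ring
  rw [h5]
  have h6 : lam * ∑ ρ ∈ ZD f (1 + lam + v * Complex.I) (1 / 4),
      (od f ρ : ℝ) * (lam / ‖1 + lam + v * Complex.I - ρ‖ ^ 2) ≤
      lam * (C0 / lam + A * (C0 * ℓ + 1) / (1 / 2)) :=
    mul_le_mul_of_nonneg_left (h1.trans (add_le_add_left h3 _)) hlam.le
  refine h6.trans ?_
  have h7 : lam * (C0 / lam + A * (C0 * ℓ + 1) / (1 / 2)) =
      C0 + 2 * A * (C0 * (lam * ℓ) + lam) := by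
    field_simp
  rw [h7]
  have h8 : lam ≤ lam * ℓ := by nlinarith
  have h9 : C0 ≤ C0 * (lam * ℓ) := by nlinarith
  have h10 : 2 * A * (C0 * (lam * ℓ) + lam) ≤ 2 * A * (C0 * (lam * ℓ) + lam * ℓ) := by
    apply mul_le_mul_of_nonneg_left _ (by positivity)
    linarith
  nlinarith

/-- Few zeros near a point. Proof: in `ldat_sum` the zeros with `|s₀ - ρ| ≤ D lam ≤ 1/4` have
`(lam/|s₀ - ρ|)² ≥ 1/D²` (`|s₀ - ρ| > 0`). -/
theorem ldat_near (C0 : ℝ) (h0 : 1 ≤ C0) : ∃ C1 : ℝ, 1 ≤ C1 ∧ ∀ (ℓ T : ℝ) (f : ℂ → ℂ), 8 ≤ ℓ →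
    LDat C0 ℓ T f → ∀ lam v D : ℝ, 1 / ℓ ≤ lam → lam ≤ 1 / 8 → |v| ≤ T → 1 ≤ D →
    D * lam ≤ 1 / 4 →
    ∑ ρ ∈ ZD f (1 + lam + v * Complex.I) (D * lam), (od f ρ : ℝ) ≤ C1 * D ^ 2 * (lam * ℓ) := by
  obtain ⟨C1, hC1, H⟩ := ldat_sum C0 h0
  refine ⟨C1, hC1, ?_⟩
  intro ℓ T f hℓ hf lam v D hl1 hl2 hv hD hDl
  have hℓ0 : 0 < ℓ := by linarith
  have hlam : 0 < lam := lt_of_lt_of_le (by positivity) hl1
  have hs0 : f (1 + lam + v * Complex.I) ≠ 0 := z2_ne hf hlam.le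
  have h1 := H ℓ T f hℓ hf lam v hl1 hl2 hv
  have hsub : ZD f (1 + lam + v * Complex.I) (D * lam) ⊆
      ZD f (1 + lam + v * Complex.I) (1 / 4) := by
    intro ρ hρ
    rw [mem_ZD hf.diff ⟨_, hs0⟩] at hρ ⊢
    exact ⟨hρ.1, hρ.2.trans hDl⟩
  have h2 : ∑ ρ ∈ ZD f (1 + lam + v * Complex.I) (D * lam), (od f ρ : ℝ) ≤
      ∑ ρ ∈ ZD f (1 + lam + v * Complex.I) (D * lam),
        D ^ 2 * ((od f ρ : ℝ) * (lam / ‖1 + lam + v * Complex.I - ρ‖) ^ 2) := by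
    refine sum_le_sum fun ρ hρ => ?_
    rw [mem_ZD hf.diff ⟨_, hs0⟩] at hρ
    have h3 : ‖(1 + lam + v * Complex.I : ℂ) - ρ‖ ≤ D * lam := by
      rw [norm_sub_rev]
      exact hρ.2
    have h4 : 0 < ‖(1 + lam + v * Complex.I : ℂ) - ρ‖ := by
      rw [norm_pos_iff, sub_ne_zero]
      intro h5
      rw [h5] at hs0
      exact hs0 hρ.1
    have h5 : 1 ≤ D * (lam / ‖(1 + lam + v * Complex.I : ℂ) - ρ‖) := by
      rw [← mul_div_assoc, le_div_iff₀ h4, one_mul]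
      exact h3
    have h6 : 1 ≤ (D * (lam / ‖(1 + lam + v * Complex.I : ℂ) - ρ‖)) ^ 2 := one_le_pow₀ h5
    have h7 : (0 : ℝ) ≤ od f ρ := Nat.cast_nonneg _
    calc (od f ρ : ℝ) = (od f ρ : ℝ) * 1 := (mul_one _).symm
      _ ≤ (od f ρ : ℝ) * (D * (lam / ‖(1 + lam + v * Complex.I : ℂ) - ρ‖)) ^ 2 :=
        mul_le_mul_of_nonneg_left h6 h7
      _ = D ^ 2 * ((od f ρ : ℝ) * (lam / ‖(1 + lam + v * Complex.I : ℂ) - ρ‖) ^ 2) := by ring
  refine h2.trans ?_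
  rw [← mul_sum]
  have h3 : ∑ ρ ∈ ZD f (1 + lam + v * Complex.I) (D * lam),
      (od f ρ : ℝ) * (lam / ‖1 + lam + v * Complex.I - ρ‖) ^ 2 ≤ C1 * (lam * ℓ) :=
    (sum_le_sum_of_subset_of_nonneg hsub fun ρ _ _ => by positivity).trans h1
  calc D ^ 2 * ∑ ρ ∈ ZD f (1 + lam + v * Complex.I) (D * lam),
      (od f ρ : ℝ) * (lam / ‖1 + lam + v * Complex.I - ρ‖) ^ 2
      ≤ D ^ 2 * (C1 * (lam * ℓ)) := mul_le_mul_of_nonneg_left h3 (by positivity)
    _ = C1 * D ^ 2 * (lam * ℓ) := by ring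

/-- Few zeros in a box: the zeros `ρ` in a finite set `S` with `Re ρ ≥ 1 - lam` and
`|Im ρ - v| ≤ lam` have `|s₀ - ρ| ≤ 3 lam ≤ 1/4` for `lam ≤ 1/12` (`ldat_near` with `D = 3`). -/
theorem ldat_box (C0 : ℝ) (h0 : 1 ≤ C0) : ∃ C1 : ℝ, 1 ≤ C1 ∧ ∀ (ℓ T : ℝ) (f : ℂ → ℂ), 8 ≤ ℓ →
    LDat C0 ℓ T f → ∀ lam v : ℝ, 1 / ℓ ≤ lam → lam ≤ 1 / 12 → |v| ≤ T →
    ∀ S : Finset ℂ, (∀ ρ ∈ S, f ρ = 0 ∧ 1 - lam ≤ ρ.re ∧ |ρ.im - v| ≤ lam) →
    ∑ ρ ∈ S, (od f ρ : ℝ) ≤ C1 * (lam * ℓ) := by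
  obtain ⟨C1, hC1, H⟩ := ldat_near C0 h0
  refine ⟨C1 * 9, by linarith, ?_⟩
  intro ℓ T f hℓ hf lam v hl1 hl2 hv S hS
  have hℓ0 : 0 < ℓ := by linarith
  have hlam : 0 < lam := lt_of_lt_of_le (by positivity) hl1
  have hs0 : f (1 + lam + v * Complex.I) ≠ 0 := z2_ne hf hlam.le
  have h1 := H ℓ T f hℓ hf lam v 3 hl1 (by linarith) hv (by norm_num) (by linarith)
  have hsub : S ⊆ ZD f (1 + lam + v * Complex.I) (3 * lam) := by
    intro ρ hρ
    obtain ⟨h2, h3, h4⟩ := hS ρ hρ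
    have h5 := hf.zre ρ h2
    rw [mem_ZD hf.diff ⟨_, hs0⟩]
    refine ⟨h2, ?_⟩
    have h6 := Complex.norm_le_abs_re_add_abs_im (ρ - (1 + lam + v * Complex.I))
    rw [Complex.sub_re, Complex.sub_im, z2_re, z2_im] at h6
    have h7 : |ρ.re - (1 + lam)| ≤ 2 * lam := by
      rw [abs_le]
      constructor <;> linarith
    linarith
  refine (sum_le_sum_of_subset_of_nonneg hsub fun ρ _ _ => Nat.cast_nonneg _).trans ?_
  refine h1.trans ?_
  have h8 : C1 * 3 ^ 2 * (lam * ℓ) = C1 * 9 * (lam * ℓ) := by norm_num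
  rw [h8]

end Pool.Agent.Lib.H18Q
end

-- from Lib.H18Q.Z4
section

/-!
# Project H18Q, chunk Z4: a zero makes a high derivative of the logarithmic derivative large
-/

open Finset

namespace Pool.Agent.Lib.H18Q

/-- Numerical facts for `detect`: with `D = exp 10`, for all `K1 ≥ C3 κ`, `κ ≥ 1`,
`K1 ≤ e < 2 K1` (only `e ≥ K1` is used), `C3` large in terms of `B`:
`B κ D^2 D^(-e) ≤ (1/4) 4096^(-K1)` and `B κ (1/D)^(e-1) ≤ (1/4) 4096^(-K1)`.
(`log 4096 < 8.4`; `exp (1.6 K1) ≥ 4 B κ exp 30` for `K1 ≥ C3 κ`.) -/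
theorem detect_num (B : ℝ) (hB : 1 ≤ B) : ∃ C3 : ℝ, 1 ≤ C3 ∧ ∀ (κ : ℝ) (K1 e : ℕ), 1 ≤ κ →
    C3 * κ ≤ K1 → K1 ≤ e →
    B * κ * (Real.exp 10) ^ 2 * (1 / Real.exp 10) ^ e ≤ 1 / 4 * (1 / 4096) ^ K1 ∧
    B * κ * (1 / Real.exp 10) ^ (e - 1) ≤ 1 / 4 * (1 / 4096) ^ K1 := by
  have hD0 : 0 < Real.exp 10 := Real.exp_pos _
  have hD1 : 1 ≤ Real.exp 10 := Real.one_le_exp (by norm_num)
  refine ⟨4 * B * (Real.exp 10) ^ 2, by nlinarith [one_le_pow₀ hD1 (n := 2)], ?_⟩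
  intro κ K1 e hκ hK1 he
  have hK1' : 1 ≤ K1 := by
    by_contra h
    have h1 : K1 = 0 := by omega
    rw [h1, Nat.cast_zero] at hK1
    have : 0 < 4 * B * (Real.exp 10) ^ 2 * κ := by positivity
    linarith
  have h9 : (4096 : ℝ) ≤ Real.exp 9 := by
    have h1 : (2.7 : ℝ) ≤ Real.exp 1 := by
      have := Real.exp_one_gt_d9
      linarith
    have h2 : Real.exp 9 = Real.exp 1 ^ 9 := by
      rw [← Real.exp_nat_mul]
      norm_num
    rw [h2]
    calc (4096 : ℝ) ≤ 2.7 ^ 9 := by norm_num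
      _ ≤ Real.exp 1 ^ 9 := pow_le_pow_left₀ (by norm_num) h1 9
  have h10 : (4096 : ℝ) * Real.exp 1 ≤ Real.exp 10 := by
    have h1 : Real.exp 10 = Real.exp 9 * Real.exp 1 := by
      rw [← Real.exp_add]
      norm_num
    rw [h1]
    exact mul_le_mul_of_nonneg_right h9 (Real.exp_pos _).le
  have hkey : B * κ * (Real.exp 10) ^ 2 * (1 / Real.exp 10) ^ K1 ≤
      1 / 4 * (1 / 4096) ^ K1 := by
    have h1 : (4096 * Real.exp 1) ^ K1 ≤ (Real.exp 10) ^ K1 :=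
      pow_le_pow_left₀ (by positivity) h10 K1
    have h2 : (K1 : ℝ) ≤ Real.exp 1 ^ K1 := by
      rw [← Real.exp_nat_mul, mul_one]
      have := Real.add_one_le_exp (K1 : ℝ)
      linarith
    have h3 : 4 * (B * κ * (Real.exp 10) ^ 2) ≤ Real.exp 1 ^ K1 := by
      refine le_trans ?_ (hK1.trans h2)
      have : 4 * (B * κ * (Real.exp 10) ^ 2) = 4 * B * (Real.exp 10) ^ 2 * κ := by ring
      rw [this]
    have h4 : (4096 : ℝ) ^ K1 * (4 * (B * κ * (Real.exp 10) ^ 2)) ≤ (Real.exp 10) ^ K1 := by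
      rw [mul_pow] at h1
      exact (mul_le_mul_of_nonneg_left h3 (by positivity)).trans h1
    rw [one_div_pow, one_div_pow, mul_one_div, div_le_iff₀ (by positivity), mul_one_div,
      div_mul_eq_mul_div, le_div_iff₀ (by positivity)]
    nlinarith
  have h1 : (1 / Real.exp 10) ^ e ≤ (1 / Real.exp 10) ^ K1 := by
    apply pow_le_pow_of_le_one (by positivity) _ he
    rw [div_le_one hD0]
    exact hD1
  have hfirst : B * κ * (Real.exp 10) ^ 2 * (1 / Real.exp 10) ^ e ≤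
      1 / 4 * (1 / 4096) ^ K1 :=
    (mul_le_mul_of_nonneg_left h1 (by positivity)).trans hkey
  refine ⟨hfirst, ?_⟩
  refine le_trans ?_ hfirst
  obtain ⟨e', rfl⟩ : ∃ e', e = e' + 1 := ⟨e - 1, by omega⟩
  rw [Nat.add_sub_cancel, mul_assoc (B * κ)]
  apply mul_le_mul_of_nonneg_left _ (by positivity)
  have h5 : (Real.exp 10) ^ 2 * (1 / Real.exp 10) ^ (e' + 1) =
      Real.exp 10 * (1 / Real.exp 10) ^ e' := by
    rw [pow_succ (1 / Real.exp 10)]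
    field_simp
  rw [h5]
  have h6 : 0 ≤ (1 / Real.exp 10) ^ e' := by positivity
  nlinarith

/-- Detection of zeros. Let `f` have growth data, `lam = κ/ℓ`, `1 ≤ κ ≤ th0 ℓ`, `s₀ = 1 + lam + i v`,
and let `f` have a zero `ρ₀` with `Re ρ₀ ≥ 1 - lam`, `|Im ρ₀ - v| ≤ lam`. Then for `K1 ≥ C3 κ` there
is `K1 ≤ e < 2 K1` with `|lam^e (f'/f)^(e-1)(s₀)/(e-1)!| ≥ (1/2) 4096^(-K1)`.

Proof. `D = exp 10`; `D lam ≤ 1/4` and `8 lam ≤ 1/D` (`th0 = 10^(-9)`, `exp 10 < 22027`), `lam ≤ 1/8`,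
`1/ℓ ≤ lam`, `ℓ ≥ 1/th0 ≥ 8`. Let `S = ZD f s₀ (D lam)`, `z_ρ = lam/(s₀ - ρ)`, `m_ρ = od f ρ`
(`≥ 1`, `od_pos`). `Re (s₀ - ρ) > lam` for zeros `ρ` (`zre`), so `|z_ρ| ≤ 1`. By `ldat_near`
`#S ≤ ∑_S m_ρ ≤ C1 D² κ ≤ K1` if `C3 ≥ C1 D²`. `ρ₀ ∈ S`: `lam < Re (s₀ - ρ₀) ≤ 2 lam`,
`|Im| ≤ lam`, so `|s₀ - ρ₀| ≤ 3 lam`, `|z_{ρ₀}| ≥ 1/3`. `turan` gives `K1 ≤ e < 2 K1` with
`|∑_S m_ρ z_ρ^e| ≥ 4096^(-K1)`. The other zeros in `ZD f s₀ (1/4)`: `|z_ρ| < 1/D`, so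
`|z_ρ|^e ≤ (1/D)^(e-2) |z_ρ|²` (`e ≥ 2`), total `≤ D² D^(-e) C1 κ` (`ldat_sum`). `landau_k` with
`R = 1/2`, `M = C0 ℓ`, `k = e - 1`, times `lam^e`: error `≤ 2 A (C0 ℓ + 1) 8^(e-1) lam^e ≤
2 A (C0 + 1) κ (8 lam)^(e-1)`. Both errors are `≤ (1/4) 4096^(-K1)` by `detect_num` with
`B = max 1 (C1) (2 A (C0+1))`. -/
theorem detect (C0 : ℝ) (h0 : 1 ≤ C0) : ∃ C3 : ℝ, 1 ≤ C3 ∧ ∀ (ℓ T : ℝ) (f : ℂ → ℂ),
    LDat C0 ℓ T f → ∀ κ v : ℝ, 1 ≤ κ → κ ≤ th0 * ℓ → |v| ≤ T → ∀ K1 : ℕ, C3 * κ ≤ K1 →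
    (∃ ρ : ℂ, f ρ = 0 ∧ 1 - κ / ℓ ≤ ρ.re ∧ |ρ.im - v| ≤ κ / ℓ) →
    ∃ e : ℕ, K1 ≤ e ∧ e < 2 * K1 ∧ 1 / 2 * (1 / 4096 : ℝ) ^ K1 ≤
      ‖((κ / ℓ : ℝ) : ℂ) ^ e * (iteratedDeriv (e - 1) (logDeriv f)
        (1 + (κ / ℓ : ℝ) + v * Complex.I) / ((e - 1).factorial : ℂ))‖ := by
  obtain ⟨A, hA, HL⟩ := landau_k
  obtain ⟨C1, hC1, Hsum⟩ := ldat_sum C0 h0
  obtain ⟨C2, hC2, Hnear⟩ := ldat_near C0 h0
  obtain ⟨C3, hC3, Hnum⟩ := detect_num (C1 + 2 * A * (C0 + 1)) (by nlinarith)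
  have hD0 : 0 < Real.exp 10 := Real.exp_pos _
  have hD1 : 1 ≤ Real.exp 10 := Real.one_le_exp (by norm_num)
  have hD3 : 3 ≤ Real.exp 10 := by
    have := Real.add_one_le_exp (10 : ℝ)
    linarith
  have hD5 : Real.exp 10 < 22027 := by
    have h1 : Real.exp 10 = Real.exp 1 ^ 10 := by
      rw [← Real.exp_nat_mul]
      norm_num
    rw [h1]
    calc Real.exp 1 ^ 10 ≤ 2.7182818286 ^ 10 :=
        pow_le_pow_left₀ (Real.exp_pos _).le Real.exp_one_lt_d9.le 10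
      _ < 22027 := by norm_num
  refine ⟨C3 + C2 * (Real.exp 10) ^ 2, by nlinarith [sq_nonneg (Real.exp 10)], ?_⟩
  intro ℓ T f hf κ v hκ1 hκ2 hv K1 hK1 hρ
  obtain ⟨ρ₀, hρ0, hρ1, hρ2⟩ := hρ
  have hℓ : 10 ^ 9 ≤ ℓ := by
    unfold th0 at hκ2
    rw [div_mul_eq_mul_div, one_mul, le_div_iff₀ (by norm_num)] at hκ2
    nlinarith
  have hℓ0 : 0 < ℓ := by linarith
  have hℓ8 : 8 ≤ ℓ := by linarith
  have hlamle : κ / ℓ ≤ 1 / 10 ^ 9 := by
    rw [div_le_iff₀ hℓ0]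
    exact hκ2
  have hlam1 : 1 / ℓ ≤ κ / ℓ := div_le_div_of_nonneg_right hκ1 hℓ0.le
  have hlamℓ : κ / ℓ * ℓ = κ := div_mul_cancel₀ _ hℓ0.ne'
  generalize κ / ℓ = lam at *
  have hlam0 : 0 < lam := lt_of_lt_of_le (by positivity) hlam1
  have hlam8 : lam ≤ 1 / 8 := hlamle.trans (by norm_num)
  have hs0 : f (1 + lam + v * Complex.I) ≠ 0 := z2_ne hf hlam0.le
  have hDlam : Real.exp 10 * lam ≤ 1 / 4 := by
    have h1 : Real.exp 10 * lam ≤ 22027 * (1 / 10 ^ 9) :=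
      mul_le_mul hD5.le hlamle hlam0.le (by norm_num)
    exact h1.trans (by norm_num)
  have h8lam : 8 * lam ≤ 1 / Real.exp 10 := by
    rw [le_div_iff₀ hD0]
    have h1 : Real.exp 10 * lam ≤ 22027 * (1 / 10 ^ 9) :=
      mul_le_mul hD5.le hlamle hlam0.le (by norm_num)
    have h2 : 8 * lam * Real.exp 10 = 8 * (Real.exp 10 * lam) := by ring
    rw [h2]
    linarith
  have hnear := Hnear ℓ T f hℓ8 hf lam v (Real.exp 10) hlam1 hlam8 hv hD1 hDlam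
  have hsum := Hsum ℓ T f hℓ8 hf lam v hlam1 hlam8 hv
  rw [hlamℓ] at hnear hsum
  have hgr := hf.growth lam v hlam1 hlam8 hv
  have hrep := z2_re lam v
  have himp := z2_im lam v
  generalize (1 + lam + v * Complex.I : ℂ) = s₀ at *
  have hne : ∃ c, f c ≠ 0 := ⟨s₀, hs0⟩
  have hmem : ∀ (R : ℝ) (ρ : ℂ), ρ ∈ ZD f s₀ R ↔ f ρ = 0 ∧ ‖ρ - s₀‖ ≤ R :=
    fun R ρ => mem_ZD hf.diff hne
  -- the distance from the zeros
  have hdist : ∀ ρ : ℂ, f ρ = 0 → lam < ‖s₀ - ρ‖ := by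
    intro ρ h1
    have h2 := hf.zre ρ h1
    have h3 := Complex.re_le_norm (s₀ - ρ)
    rw [Complex.sub_re, hrep] at h3
    linarith
  let z : ℂ → ℂ := fun ρ => (lam : ℂ) / (s₀ - ρ)
  have hznorm : ∀ ρ, ‖z ρ‖ = lam / ‖s₀ - ρ‖ := by
    intro ρ
    simp only [z]
    rw [norm_div, Complex.norm_real, Real.norm_of_nonneg hlam0.le]
  have hz1 : ∀ ρ, f ρ = 0 → ‖z ρ‖ ≤ 1 := by
    intro ρ h1
    rw [hznorm, div_le_one (hlam0.trans (hdist ρ h1))]
    exact (hdist ρ h1).le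
  have hK1C : C3 * κ ≤ K1 ∧ C2 * (Real.exp 10) ^ 2 * κ ≤ K1 := by
    have h1 : (C3 + C2 * (Real.exp 10) ^ 2) * κ = C3 * κ + C2 * (Real.exp 10) ^ 2 * κ := by ring
    have h2 : 0 ≤ C3 * κ := by positivity
    have h3 : 0 ≤ C2 * (Real.exp 10) ^ 2 * κ := by positivity
    constructor <;> linarith
  have hK12 : 2 ≤ K1 := by
    have h1 : (2 : ℝ) ≤ K1 := by
      refine le_trans ?_ hK1C.2
      have h2 : (9 : ℝ) ≤ (Real.exp 10) ^ 2 := by nlinarith
      have h3 : (9 : ℝ) ≤ C2 * (Real.exp 10) ^ 2 := by nlinarith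
      nlinarith
    exact_mod_cast h1
  have hcard : (ZD f s₀ (Real.exp 10 * lam)).card ≤ K1 := by
    have h1 : ((ZD f s₀ (Real.exp 10 * lam)).card : ℝ) ≤ K1 := by
      refine le_trans ?_ (hnear.trans hK1C.2)
      rw [card_eq_sum_ones, Nat.cast_sum]
      refine sum_le_sum fun ρ hρ => ?_
      rw [hmem] at hρ
      exact_mod_cast od_pos hf.diff hne hρ.1
    exact_mod_cast h1
  have hρ₀d : ‖s₀ - ρ₀‖ ≤ 3 * lam := by
    have h5 := hf.zre ρ₀ hρ0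
    have h6 := Complex.norm_le_abs_re_add_abs_im (s₀ - ρ₀)
    rw [Complex.sub_re, Complex.sub_im, hrep, himp] at h6
    have h7 : |1 + lam - ρ₀.re| ≤ 2 * lam := by
      rw [abs_le]
      constructor <;> linarith
    have h8 : |v - ρ₀.im| ≤ lam := by
      rw [abs_sub_comm]
      exact hρ2
    linarith
  have hρ₀S : ρ₀ ∈ ZD f s₀ (Real.exp 10 * lam) := by
    rw [hmem]
    refine ⟨hρ0, ?_⟩
    rw [norm_sub_rev]
    exact hρ₀d.trans (mul_le_mul_of_nonneg_right hD3 hlam0.le)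
  have hρ₀z : 1 / 3 ≤ ‖z ρ₀‖ := by
    rw [hznorm, le_div_iff₀ (hlam0.trans (hdist ρ₀ hρ0))]
    linarith
  obtain ⟨e, he1, he2, hT⟩ := turan (ZD f s₀ (Real.exp 10 * lam)) (od f) z K1 (by omega) hcard
    (fun ρ hρ => hz1 ρ ((hmem _ _).1 hρ).1) ρ₀ hρ₀S (od_pos hf.diff hne hρ0) hρ₀z
  refine ⟨e, he1, he2, ?_⟩
  obtain ⟨hn1, hn2⟩ := Hnum κ K1 e hκ1 hK1C.1 he1
  have hsub : ZD f s₀ (Real.exp 10 * lam) ⊆ ZD f s₀ (1 / 4) := by
    intro ρ hρ
    rw [hmem] at hρ ⊢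
    exact ⟨hρ.1, hρ.2.trans hDlam⟩
  -- the far zeros
  have hfar : ‖∑ ρ ∈ ZD f s₀ (1 / 4) \ ZD f s₀ (Real.exp 10 * lam), (od f ρ : ℂ) * z ρ ^ e‖ ≤
      C1 * κ * (Real.exp 10) ^ 2 * (1 / Real.exp 10) ^ e := by
    have h1 : ∀ ρ ∈ ZD f s₀ (1 / 4) \ ZD f s₀ (Real.exp 10 * lam),
        ‖(od f ρ : ℂ) * z ρ ^ e‖ ≤ ((Real.exp 10) ^ 2 * (1 / Real.exp 10) ^ e) *
          ((od f ρ : ℝ) * (lam / ‖s₀ - ρ‖) ^ 2) := by
      intro ρ hρ
      rw [mem_sdiff, hmem, hmem] at hρ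
      have h2 : Real.exp 10 * lam < ‖s₀ - ρ‖ := by
        rw [norm_sub_rev]
        by_contra h
        exact hρ.2 ⟨hρ.1.1, not_lt.1 h⟩
      have h3 : ‖z ρ‖ ≤ 1 / Real.exp 10 := by
        rw [hznorm, div_le_div_iff₀ (hlam0.trans (hdist ρ hρ.1.1)) hD0]
        linarith
      have h4 : ‖z ρ‖ ^ e ≤ (1 / Real.exp 10) ^ (e - 2) * ‖z ρ‖ ^ 2 := by
        have h5 : ‖z ρ‖ ^ e = ‖z ρ‖ ^ (e - 2) * ‖z ρ‖ ^ 2 := by
          rw [← pow_add]
          congr 1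
          omega
        rw [h5]
        exact mul_le_mul_of_nonneg_right (pow_le_pow_left₀ (norm_nonneg _) h3 _) (by positivity)
      have h6 : (1 / Real.exp 10) ^ (e - 2) = (Real.exp 10) ^ 2 * (1 / Real.exp 10) ^ e := by
        obtain ⟨e', rfl⟩ : ∃ e', e = e' + 2 := ⟨e - 2, by omega⟩
        rw [Nat.add_sub_cancel, pow_add]
        field_simp
      rw [norm_mul, norm_pow, Complex.norm_natCast]
      rw [h6, hznorm] at h4
      rw [hznorm]
      calc (od f ρ : ℝ) * (lam / ‖s₀ - ρ‖) ^ e ≤ (od f ρ : ℝ) *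
          ((Real.exp 10) ^ 2 * (1 / Real.exp 10) ^ e * (lam / ‖s₀ - ρ‖) ^ 2) :=
            mul_le_mul_of_nonneg_left h4 (Nat.cast_nonneg _)
        _ = _ := by ring
    refine (norm_sum_le_of_le _ h1).trans ?_
    rw [← mul_sum]
    have h2 : ∑ ρ ∈ ZD f s₀ (1 / 4) \ ZD f s₀ (Real.exp 10 * lam),
        (od f ρ : ℝ) * (lam / ‖s₀ - ρ‖) ^ 2 ≤ C1 * κ :=
      (sum_le_sum_of_subset_of_nonneg sdiff_subset fun ρ _ _ => by positivity).trans hsum
    calc _ ≤ (Real.exp 10) ^ 2 * (1 / Real.exp 10) ^ e * (C1 * κ) :=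
          mul_le_mul_of_nonneg_left h2 (by positivity)
      _ = _ := by ring
  have hall : (1 / 4096 : ℝ) ^ K1 - C1 * κ * (Real.exp 10) ^ 2 * (1 / Real.exp 10) ^ e ≤
      ‖∑ ρ ∈ ZD f s₀ (1 / 4), (od f ρ : ℂ) * z ρ ^ e‖ := by
    rw [← sum_sdiff hsub]
    have h1 := norm_sub_norm_le (∑ ρ ∈ ZD f s₀ (Real.exp 10 * lam), (od f ρ : ℂ) * z ρ ^ e)
      (-∑ ρ ∈ ZD f s₀ (1 / 4) \ ZD f s₀ (Real.exp 10 * lam), (od f ρ : ℂ) * z ρ ^ e)
    rw [norm_neg, sub_neg_eq_add] at h1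
    rw [add_comm]
    linarith
  -- the approximation of the logarithmic derivative
  have hLk := HL f s₀ (1 / 2) (C0 * ℓ) (by norm_num) (by positivity) hf.diff hs0 hgr (e - 1)
  have h4 : (1 / 2 / 2 : ℝ) = 1 / 4 := by norm_num
  have h8 : (4 / (1 / 2) : ℝ) = 8 := by norm_num
  have hee : e - 1 + 1 = e := by omega
  rw [h4, h8, hee] at hLk
  have hmul : ‖(lam : ℂ) ^ e * (iteratedDeriv (e - 1) (logDeriv f) s₀ / ((e - 1).factorial : ℂ)) -
      (-1) ^ (e - 1) * ∑ ρ ∈ ZD f s₀ (1 / 4), (od f ρ : ℂ) * z ρ ^ e‖ ≤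
      lam ^ e * (A * (C0 * ℓ + 1) / (1 / 2) * 8 ^ (e - 1)) := by
    have h1 : (lam : ℂ) ^ e * (iteratedDeriv (e - 1) (logDeriv f) s₀ / ((e - 1).factorial : ℂ)) -
      (-1) ^ (e - 1) * ∑ ρ ∈ ZD f s₀ (1 / 4), (od f ρ : ℂ) * z ρ ^ e =
      (lam : ℂ) ^ e * (iteratedDeriv (e - 1) (logDeriv f) s₀ / ((e - 1).factorial : ℂ) -
      (-1) ^ (e - 1) * ∑ ρ ∈ ZD f s₀ (1 / 4), (od f ρ : ℂ) * (1 / (s₀ - ρ)) ^ e) := by
      rw [mul_sub, mul_left_comm ((lam : ℂ) ^ e) ((-1) ^ (e - 1))]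
      congr 2
      rw [mul_sum]
      refine sum_congr rfl fun ρ _ => ?_
      simp only [z]
      rw [div_eq_mul_one_div, mul_pow]
      ring
    rw [h1, norm_mul, norm_pow, Complex.norm_real, Real.norm_of_nonneg hlam0.le]
    exact mul_le_mul_of_nonneg_left hLk (by positivity)
  have herr : lam ^ e * (A * (C0 * ℓ + 1) / (1 / 2) * 8 ^ (e - 1)) ≤
      2 * A * (C0 + 1) * κ * (1 / Real.exp 10) ^ (e - 1) := by
    obtain ⟨e', rfl⟩ : ∃ e', e = e' + 1 := ⟨e - 1, by omega⟩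
    rw [Nat.add_sub_cancel]
    have h1 : lam ^ (e' + 1) * (A * (C0 * ℓ + 1) / (1 / 2) * 8 ^ e') =
        2 * A * (C0 * (lam * ℓ) + lam) * (8 * lam) ^ e' := by
      rw [mul_pow, pow_succ]
      ring
    rw [h1, hlamℓ]
    have h2 : (8 * lam) ^ e' ≤ (1 / Real.exp 10) ^ e' :=
      pow_le_pow_left₀ (by positivity) h8lam e'
    have h3 : C0 * κ + lam ≤ (C0 + 1) * κ := by
      rw [add_mul, one_mul]
      exact add_le_add_right (hlam8.trans (le_trans (by norm_num) hκ1)) _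
    have h5 : 2 * A * (C0 * κ + lam) ≤ 2 * A * (C0 + 1) * κ := by
      have : 2 * A * (C0 + 1) * κ = 2 * A * ((C0 + 1) * κ) := by ring
      rw [this]
      exact mul_le_mul_of_nonneg_left h3 (by positivity)
    exact mul_le_mul h5 h2 (by positivity) (by positivity)
  have hsplit1 : C1 * κ * (Real.exp 10) ^ 2 * (1 / Real.exp 10) ^ e ≤
      1 / 4 * (1 / 4096) ^ K1 := by
    refine le_trans ?_ hn1
    have h1 : C1 * κ ≤ (C1 + 2 * A * (C0 + 1)) * κ :=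
      mul_le_mul_of_nonneg_right (le_add_of_nonneg_right (by positivity))
        (zero_le_one.trans hκ1)
    exact mul_le_mul_of_nonneg_right (mul_le_mul_of_nonneg_right h1 (by positivity))
      (by positivity)
  have hsplit2 : 2 * A * (C0 + 1) * κ * (1 / Real.exp 10) ^ (e - 1) ≤
      1 / 4 * (1 / 4096) ^ K1 := by
    refine le_trans ?_ hn2
    have h1 : 2 * A * (C0 + 1) * κ ≤ (C1 + 2 * A * (C0 + 1)) * κ :=
      mul_le_mul_of_nonneg_right (le_add_of_nonneg_left (zero_le_one.trans hC1))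
        (zero_le_one.trans hκ1)
    exact mul_le_mul_of_nonneg_right h1 (by positivity)
  have hfin := norm_sub_norm_le
    ((-1) ^ (e - 1) * ∑ ρ ∈ ZD f s₀ (1 / 4), (od f ρ : ℂ) * z ρ ^ e)
    ((-1) ^ (e - 1) * ∑ ρ ∈ ZD f s₀ (1 / 4), (od f ρ : ℂ) * z ρ ^ e -
      (lam : ℂ) ^ e * (iteratedDeriv (e - 1) (logDeriv f) s₀ / ((e - 1).factorial : ℂ)))
  rw [sub_sub_cancel, norm_sub_rev, norm_mul, norm_pow, norm_neg, norm_one, one_pow, one_mul]
    at hfin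
  linarith

end Pool.Agent.Lib.H18Q
end
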