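import Pool.Agent.Lib.H1M.RV.M004
import Pool.Agent.Lib.H1M.RV.M008
import Pool.Agent.Lib.H1M.RV.M012

/-! Merged copies (to shorten the build) of Lib.H18GB.V1Maj, Lib.H68T.GAM1, Lib.H68T.GAM2. -/

-- from Lib.H18GB.V1Maj
section

/-!
# Project GB: V1MAJ
-/

namespace Pool.Agent.Lib.H18GB

open Finset Pool.Agent.Lib.Sieve

private theorem norm_e_sub_one_le (x : ℝ) : ‖e x - 1‖ ≤ 2 * Real.pi * |x| := by
  have h := Real.norm_exp_I_mul_ofReal_sub_one_le (x := 2 * Real.pi * x)
  have h1 : e x = Complex.exp (Complex.I * ((2 * Real.pi * x : ℝ) : ℂ)) := by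
    unfold e
    congr 1
    push_cast
    ring
  rw [h1]
  refine h.trans (le_of_eq ?_)
  rw [Real.norm_eq_abs, abs_mul, abs_of_pos (by positivity)]

private theorem norm_e_sub_le (x y : ℝ) : ‖e x - e y‖ ≤ 2 * Real.pi * |x - y| := by
  have h : e x - e y = e y * (e (x - y) - 1) := by
    rw [mul_sub, mul_one, ← e_add]
    congr 2
    ring
  rw [h, norm_mul, norm_e, one_mul]
  exact norm_e_sub_one_le _

private theorem abel_id (g : ℕ → ℂ) (β : ℝ) (K : ℕ) :
    ∑ i ∈ Finset.range K, g i * e (β * i) = (∑ i ∈ Finset.range K, g i) * e (β * K) -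
      ∑ j ∈ Finset.range K, (∑ i ∈ Finset.range (j + 1), g i) *
        (e (β * ((j + 1 : ℕ) : ℝ)) - e (β * j)) := by
  induction K with
  | zero => simp
  | succ K ih =>
    rw [Finset.sum_range_succ, ih, Finset.sum_range_succ (n := K)
      (f := fun j => (∑ i ∈ Finset.range (j + 1), g i) *
        (e (β * ((j + 1 : ℕ) : ℝ)) - e (β * j))), Finset.sum_range_succ (n := K) (f := g)]
    ring

private theorem abel_bound (g : ℕ → ℂ) (β B : ℝ) (K : ℕ)
    (h : ∀ j ≤ K, ‖∑ i ∈ Finset.range j, g i‖ ≤ B) :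
    ‖∑ i ∈ Finset.range K, g i * e (β * i)‖ ≤ B * (1 + 2 * Real.pi * |β| * K) := by
  have hB : 0 ≤ B := (norm_nonneg _).trans (h 0 (Nat.zero_le _))
  rw [abel_id]
  refine (norm_sub_le _ _).trans ?_
  rw [norm_mul, norm_e, mul_one, mul_add, mul_one]
  refine add_le_add (h K le_rfl) ?_
  refine (norm_sum_le _ _).trans ?_
  have h1 : ∀ j ∈ Finset.range K, ‖(∑ i ∈ Finset.range (j + 1), g i) *
        (e (β * ((j + 1 : ℕ) : ℝ)) - e (β * j))‖ ≤ B * (2 * Real.pi * |β|) := by
    intro j hj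
    rw [norm_mul]
    refine mul_le_mul (h _ (Finset.mem_range.mp hj)) ?_ (norm_nonneg _) hB
    refine (norm_e_sub_le _ _).trans (le_of_eq ?_)
    congr 2
    push_cast
    ring
  refine (Finset.sum_le_sum h1).trans (le_of_eq ?_)
  rw [Finset.sum_const, Finset.card_range, nsmul_eq_mul]
  ring

private theorem sum_range_mul (f : ℕ → ℂ) (D K : ℕ) :
    ∑ n ∈ Finset.range (D * K), f n =
      ∑ n0 ∈ Finset.range D, ∑ k ∈ Finset.range K, f (n0 + D * k) := by
  induction K with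
  | zero => simp
  | succ K ih =>
    rw [mul_add, mul_one, Finset.sum_range_add, ih, ← Finset.sum_add_distrib]
    apply Finset.sum_congr rfl
    intro n0 _
    rw [Finset.sum_range_succ]
    congr 2
    ring

private theorem totient_ratio (W D : ℕ) (hW : 0 < W) (hD : 0 < D)
    (h : ∀ p : ℕ, p.Prime → p ∣ D → p ∣ W) :
    (Nat.totient (W * D) / (W * D : ℕ) : ℝ) = Nat.totient W / W := by
  have h1 := Nat.totient_eq_mul_prod_factors (W * D)
  have h2 := Nat.totient_eq_mul_prod_factors W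
  have h3 : (W * D).primeFactors = W.primeFactors := by
    ext p
    simp only [Nat.mem_primeFactors]
    constructor
    · rintro ⟨hp, hd, _⟩
      refine ⟨hp, ?_, hW.ne'⟩
      rcases hp.dvd_mul.mp hd with h' | h'
      · exact h'
      · exact h p hp h'
    · rintro ⟨hp, hd, _⟩
      exact ⟨hp, Dvd.dvd.mul_right hd D, (Nat.mul_pos hW hD).ne'⟩
  rw [h3] at h1
  have hW' : (W : ℚ) ≠ 0 := by exact_mod_cast hW.ne'
  have hD' : (D : ℚ) ≠ 0 := by exact_mod_cast hD.ne'
  have h4 : (Nat.totient (W * D) / (W * D : ℕ) : ℚ) = Nat.totient W / W := by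
    rw [h1, h2]
    push_cast
    field_simp
  have h5 := congrArg (fun x : ℚ => (x : ℝ)) h4
  simpa using h5

private theorem uu_sub (W D : ℕ) (hW : 0 < W) (hD : 0 < D)
    (h : ∀ p : ℕ, p.Prime → p ∣ D → p ∣ W) (r n0 k : ℤ) :
    uu W r (n0 + D * k) = uu (W * D) (r + W * n0) k := by
  unfold uu lam lamv
  have e1 : r + W * (n0 + D * k) = r + W * n0 + ((W * D : ℕ) : ℤ) * k := by
    push_cast; ring
  rw [e1, totient_ratio W D hW hD h]

/-- Chunk V1MAJ (major arcs). `q W θ = a + O(Q W / M)`, so `θ = a / (q W) + β0`,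
`|β0| ≤ Q / M`. Split `n = n0 + q W n'`, `0 ≤ n0 < q W`: `e(θ n) = e(θ n0) e(β0 q W n')` and
`uu W r n = uu (q W^2) (r + W n0) n'` (since `φ(q W^2)/(q W^2) = φ(W)/W`, the primes of `q` dividing
`W`); Abel summation and `pntlam` for the modulus `q W^2`. -/
theorem v1maj (W Q : ℕ) (hW : 0 < W) (δ : ℝ) (hδ : 0 < δ) : ∃ M0 : ℕ, ∀ M : ℕ, M0 ≤ M →
    ∀ r : ℤ, |r| < 2 * W → IsCoprime r (W : ℤ) → ∀ q : ℕ, 1 ≤ q → q ≤ Q →
    (∀ p : ℕ, p.Prime → p ∣ q → p ∣ W) → ∀ θ : ℝ, nr (q * (W * θ)) ≤ Q * W / M →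
    ∀ M' : ℤ, 0 ≤ M' → M' ≤ M →
    ‖∑ n ∈ Finset.Ico (0 : ℤ) M', (uu W r n : ℂ) * e (θ * n)‖ ≤ δ * M := by
  -- the thresholds
  set δ' : ℝ := δ / ((Q * W + 1) * (1 + 2 * Real.pi * (2 * Q * W))) with hδ'
  have hden : 0 < ((Q : ℝ) * W + 1) * (1 + 2 * Real.pi * (2 * Q * W)) := by positivity
  have hδ'pos : 0 < δ' := div_pos hδ hden
  have hP : ∀ q : ℕ, ∃ M0 : ℕ, 1 ≤ q → ∀ M : ℕ, M0 ≤ M →
      ∀ r : ℤ, |r| < 2 * ((W * (q * W) : ℕ) : ℤ) → IsCoprime r ((W * (q * W) : ℕ) : ℤ) →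
      ∀ M' : ℤ, 0 ≤ M' → M' ≤ M →
      |∑ n ∈ Finset.Ico (0 : ℤ) M', uu (W * (q * W)) r n| ≤ δ' * M := by
    intro q
    by_cases hq : 1 ≤ q
    · obtain ⟨M0, h⟩ := pntlam (W * (q * W)) (by positivity) δ' hδ'pos
      exact ⟨M0, fun _ => h⟩
    · exact ⟨0, fun h => absurd h hq⟩
  choose F hF using hP
  refine ⟨(∑ q ∈ Finset.range (Q + 1), F q) + Q * W + 1, ?_⟩
  intro M hM r hr hc q hq1 hqQ hqW θ hθ M' hM'0 hM'M
  have hFq : F q ≤ M := by
    have : F q ≤ ∑ q ∈ Finset.range (Q + 1), F q :=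
      Finset.single_le_sum (f := F) (fun _ _ => Nat.zero_le _) (Finset.mem_range.mpr (by omega))
    omega
  have hDM : q * W ≤ M := by
    have : q * W ≤ Q * W := Nat.mul_le_mul_right _ hqQ
    omega
  have hM0 : 0 < M := by omega
  have hMpos : (0 : ℝ) < M := by exact_mod_cast hM0
  obtain ⟨D, hD⟩ : ∃ D, D = q * W := ⟨_, rfl⟩
  have hDpos : 0 < D := by rw [hD]; exact Nat.mul_pos hq1 hW
  have hDW : ∀ p : ℕ, p.Prime → p ∣ D → p ∣ W := by
    intro p hp hpd
    rw [hD] at hpd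
    rcases hp.dvd_mul.mp hpd with h | h
    · exact hqW p hp h
    · exact h
  have hDr : (0 : ℝ) < D := by exact_mod_cast hDpos
  -- the frequency
  set a : ℤ := round (q * (W * θ)) with ha
  set β : ℝ := θ - a / D with hβ
  have hβD : |β * D| ≤ Q * W / M := by
    have h1 : β * D = q * (W * θ) - a := by
      rw [hβ, sub_mul, div_mul_cancel₀ _ hDr.ne', hD]
      push_cast
      ring
    rw [h1]
    exact hθ
  obtain ⟨m, rfl⟩ := Int.eq_ofNat_of_zero_le hM'0
  have hmM : m ≤ M := by exact_mod_cast hM'M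
  -- from integers to naturals
  have e1 : ∑ n ∈ Finset.Ico (0 : ℤ) (m : ℕ), (uu W r n : ℂ) * e (θ * n) =
      ∑ n ∈ Finset.range m, (uu W r n : ℂ) * e (θ * n) := by
    rw [← Nat.Ico_zero_eq_range]
    symm
    refine Finset.sum_bij (fun (n : ℕ) _ => (n : ℤ)) ?_ ?_ ?_ ?_
    · intro n hn
      rw [Finset.mem_Ico] at hn ⊢
      exact ⟨by positivity, by exact_mod_cast hn.2⟩
    · intro x _ y _ hxy
      exact_mod_cast hxy
    · intro z hz
      rw [Finset.mem_Ico] at hz
      obtain ⟨k, rfl⟩ := Int.eq_ofNat_of_zero_le hz.1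
      exact ⟨k, Finset.mem_Ico.mpr ⟨Nat.zero_le _, by exact_mod_cast hz.2⟩, rfl⟩
    · intro n _
      push_cast
      rfl
  rw [e1]
  -- truncated sum
  set f : ℕ → ℂ := fun n => if n < m then (uu W r n : ℂ) * e (θ * n) else 0 with hf
  have e2 : ∑ n ∈ Finset.range m, (uu W r n : ℂ) * e (θ * n) =
      ∑ n ∈ Finset.range (D * M), f n := by
    have hsub : Finset.range m ⊆ Finset.range (D * M) := by
      intro x hx
      rw [Finset.mem_range] at hx ⊢
      have : 1 * M ≤ D * M := Nat.mul_le_mul_right _ hDpos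
      omega
    rw [← Finset.sum_subset hsub]
    · apply Finset.sum_congr rfl
      intro n hn
      rw [hf]
      simp only
      rw [if_pos (Finset.mem_range.mp hn)]
    · intro n _ hn
      rw [hf]
      simp only
      rw [if_neg (fun h => hn (Finset.mem_range.mpr h))]
  rw [e2, sum_range_mul]
  -- one residue class
  have hcls : ∀ n0 ∈ Finset.range D, ‖∑ k ∈ Finset.range M, f (n0 + D * k)‖ ≤
      δ' * M * (1 + 2 * Real.pi * (2 * Q * W)) := by
    intro n0 hn0
    rw [Finset.mem_range] at hn0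
    set K : ℕ := (m - n0 + D - 1) / D with hK
    have hiff : ∀ k : ℕ, n0 + D * k < m ↔ k < K := by
      intro k
      rw [hK, Nat.lt_iff_add_one_le (m := k), Nat.le_div_iff_mul_le hDpos]
      have : (k + 1) * D = D * k + D := by ring
      rw [this]
      constructor
      · intro h; omega
      · intro h; omega
    have hKM : K ≤ M := by
      by_contra hcon
      have h1 := (hiff M).mpr (by omega)
      have h2 : 1 * M ≤ D * M := Nat.mul_le_mul_right _ hDpos
      omega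
    have hKD : (K : ℝ) * D ≤ 2 * M := by
      have h1 : K * D ≤ m - n0 + D - 1 := Nat.div_mul_le_self _ _
      have h2 : K * D ≤ 2 * M := by
        have : D ≤ M := by rw [hD]; exact hDM
        omega
      exact_mod_cast h2
    have e3 : ∑ k ∈ Finset.range M, f (n0 + D * k) =
        e (θ * n0) * ∑ k ∈ Finset.range K,
          ((uu (W * D) (r + W * n0) k : ℝ) : ℂ) * e (β * D * k) := by
      rw [Finset.mul_sum]
      have hsub : Finset.range K ⊆ Finset.range M := Finset.range_subset_range.mpr hKM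
      rw [← Finset.sum_subset hsub]
      · apply Finset.sum_congr rfl
        intro k hk
        rw [Finset.mem_range] at hk
        rw [hf]
        simp only
        rw [if_pos ((hiff k).mpr hk)]
        have h1 : uu W r ((n0 + D * k : ℕ) : ℤ) = uu (W * D) (r + W * n0) k := by
          have := uu_sub W D hW hDpos hDW r n0 k
          rw [← this]
          congr 1
        rw [h1]
        have h2 : e (θ * ((n0 + D * k : ℕ) : ℝ)) = e (θ * n0) * e (β * D * k) := by
          rw [← e_add, ← e_add_int (θ * n0 + β * D * k) (a * k)]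
          congr 1
          rw [hβ]
          push_cast
          field_simp
          ring
        rw [h2]
        ring
      · intro k _ hk
        rw [hf]
        simp only
        rw [if_neg (fun h => hk (Finset.mem_range.mpr ((hiff k).mp h)))]
    rw [e3, norm_mul, norm_e, one_mul]
    refine (abel_bound _ (β * D) (δ' * M) K ?_).trans ?_
    · intro j hj
      have hbound := hF q hq1 M hFq (r + W * n0) (by
        have h1 := abs_lt.mp hr
        have h2 : (n0 : ℤ) + 1 ≤ D := by exact_mod_cast hn0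
        have h3 : (W : ℤ) * (n0 + 1) ≤ W * D := mul_le_mul_of_nonneg_left h2 (by positivity)
        have h4 : (W : ℤ) * 1 ≤ W * D :=
          mul_le_mul_of_nonneg_left (by exact_mod_cast hDpos) (by positivity)
        have h5 : (0 : ℤ) ≤ W * n0 := by positivity
        rw [← hD]
        push_cast
        rw [abs_lt]
        constructor <;> nlinarith) (by
        rw [← hD]
        have h1 : IsCoprime (r + W * n0) (W : ℤ) := IsCoprime.add_mul_left_left hc n0
        push_cast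
        refine IsCoprime.mul_right h1 ?_
        rw [Int.isCoprime_iff_gcd_eq_one]
        by_contra hne
        obtain ⟨p, hp, hpd⟩ := Nat.exists_prime_and_dvd hne
        have h2 : (p : ℤ) ∣ r + W * n0 :=
          (Int.natCast_dvd_natCast.mpr hpd).trans (Int.gcd_dvd_left _ _)
        have h3 : (p : ℤ) ∣ (D : ℤ) :=
          (Int.natCast_dvd_natCast.mpr hpd).trans (Int.gcd_dvd_right _ _)
        have h4 : p ∣ W := hDW p hp (Int.natCast_dvd_natCast.mp h3)
        have h5 : IsUnit (p : ℤ) := h1.isUnit_of_dvd' h2 (Int.natCast_dvd_natCast.mpr h4)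
        rw [Int.isUnit_iff] at h5
        have h6 := hp.one_lt
        omega) j (by positivity) (by exact_mod_cast hj.trans hKM)
      rw [← hD] at hbound
      have e4 : ∑ i ∈ Finset.range j, ((uu (W * D) (r + W * n0) i : ℝ) : ℂ) =
          ((∑ n ∈ Finset.Ico (0 : ℤ) (j : ℕ), uu (W * D) (r + W * n0) n : ℝ) : ℂ) := by
        rw [← Nat.Ico_zero_eq_range]
        push_cast
        refine Finset.sum_bij (fun (n : ℕ) _ => (n : ℤ)) ?_ ?_ ?_ ?_
        · intro n hn
          rw [Finset.mem_Ico] at hn ⊢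
          exact ⟨by positivity, by exact_mod_cast hn.2⟩
        · intro x _ y _ hxy
          exact_mod_cast hxy
        · intro z hz
          rw [Finset.mem_Ico] at hz
          obtain ⟨k, rfl⟩ := Int.eq_ofNat_of_zero_le hz.1
          exact ⟨k, Finset.mem_Ico.mpr ⟨Nat.zero_le _, by exact_mod_cast hz.2⟩, rfl⟩
        · intro n _
          rfl
      rw [e4, Complex.norm_real]
      exact hbound
    · refine mul_le_mul_of_nonneg_left ?_ (by positivity)
      have h1 : |β * D| * K ≤ 2 * Q * W := by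
        have h2 : |β * D| * K ≤ Q * W / M * K := mul_le_mul_of_nonneg_right hβD (by positivity)
        have h3 : (K : ℝ) ≤ 2 * M := by
          have h4 : (1 : ℝ) ≤ D := by exact_mod_cast hDpos
          nlinarith [(Nat.cast_nonneg K : (0 : ℝ) ≤ K)]
        refine h2.trans ?_
        rw [div_mul_eq_mul_div, div_le_iff₀ hMpos]
        have h5 : (0 : ℝ) ≤ Q * W := by positivity
        nlinarith
      have h6 : 2 * Real.pi * |β * D| * K = 2 * Real.pi * (|β * D| * K) := by ring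
      rw [h6]
      have : 0 < 2 * Real.pi := by positivity
      nlinarith
  refine (norm_sum_le _ _).trans ((Finset.sum_le_sum hcls).trans ?_)
  rw [Finset.sum_const, Finset.card_range, nsmul_eq_mul]
  have h1 : (D : ℝ) ≤ Q * W + 1 := by
    have : D ≤ Q * W := by rw [hD]; exact Nat.mul_le_mul_right _ hqQ
    have h2 : (D : ℝ) ≤ ((Q * W : ℕ) : ℝ) := by exact_mod_cast this
    push_cast at h2
    linarith
  have h2 : (D : ℝ) * (δ' * M * (1 + 2 * Real.pi * (2 * Q * W))) ≤
      (Q * W + 1) * (δ' * M * (1 + 2 * Real.pi * (2 * Q * W))) :=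
    mul_le_mul_of_nonneg_right h1 (by positivity)
  refine h2.trans (le_of_eq ?_)
  rw [hδ']
  field_simp

end Pool.Agent.Lib.H18GB
end

-- from Lib.H68T.GAM1
section

/-!
# Chunk GAM1; part of GAM: the coefficients `Γ_r(m)`
-/

open Finset

namespace Pool.Agent.Lib.H68T

/-- `n/φ(n) = ∏_{p ∣ n} p/(p-1)` -/
theorem GAM_ratio (n : ℕ) (hn : n ≠ 0) :
    (n : ℝ) / Nat.totient n = ∏ p ∈ n.primeFactors, ((p : ℝ) / (p - 1)) := by
  have h := Nat.totient_eq_mul_prod_factors n
  have h' : (Nat.totient n : ℝ) = n * ∏ p ∈ n.primeFactors, (1 - (p : ℝ)⁻¹) := by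
    have := congrArg (fun x : ℚ => (x : ℝ)) h
    simpa using this
  have hn' : (n : ℝ) ≠ 0 := by exact_mod_cast hn
  rw [h', ← div_div, div_self hn', one_div, ← Finset.prod_inv_distrib]
  refine Finset.prod_congr rfl (fun p hp => ?_)
  have hp1 := (Nat.prime_of_mem_primeFactors hp).one_lt
  have hp2 : (1 : ℝ) < p := by exact_mod_cast hp1
  have h1 : (p : ℝ) ≠ 0 := by linarith
  have h2 : (p : ℝ) - 1 ≠ 0 := by linarith
  have h3 : 1 - (p : ℝ)⁻¹ = (p - 1) / p := by field_simp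
  rw [h3, inv_div]

theorem GAM_ratio_mul (r d : ℕ) (hr : r ≠ 0) (hd : d ≠ 0) :
    ((r * d : ℕ) : ℝ) / Nat.totient (r * d) = (r : ℝ) / Nat.totient r *
      ∏ p ∈ d.primeFactors.filter (fun p => ¬ p ∣ r), ((p : ℝ) / (p - 1)) := by
  rw [GAM_ratio _ (mul_ne_zero hr hd), GAM_ratio r hr, Nat.primeFactors_mul hr hd]
  have h : r.primeFactors ∪ d.primeFactors =
      r.primeFactors ∪ d.primeFactors.filter (fun p => ¬ p ∣ r) := by
    ext p
    simp only [mem_union, mem_filter, Nat.mem_primeFactors]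
    tauto
  rw [h, Finset.prod_union]
  rw [Finset.disjoint_left]
  intro p hp hp'
  rw [mem_filter] at hp'
  exact hp'.2 (Nat.dvd_of_mem_primeFactors hp)

/-- The normalised ratio `(r d/φ(r d))/(r/φ(r))` for `d` coprime to `m`. -/
noncomputable def GAM_g (r : ℕ) (m : ℤ) : ArithmeticFunction ℝ :=
  ⟨fun d => if d = 0 then 0 else if IsCoprime (d : ℤ) m then
    ∏ p ∈ d.primeFactors.filter (fun p => ¬ p ∣ r), ((p : ℝ) / (p - 1)) else 0, by simp⟩

theorem GAM_g_apply (r : ℕ) (m : ℤ) (d : ℕ) (hd : d ≠ 0) : GAM_g r m d =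
    if IsCoprime (d : ℤ) m then
      ∏ p ∈ d.primeFactors.filter (fun p => ¬ p ∣ r), ((p : ℝ) / (p - 1)) else 0 := by
  change (if d = 0 then 0 else _) = _
  rw [if_neg hd]

theorem GAM_g_mult (r : ℕ) (m : ℤ) : (GAM_g r m).IsMultiplicative := by
  rw [ArithmeticFunction.IsMultiplicative.iff_ne_zero]
  refine ⟨?_, ?_⟩
  · rw [GAM_g_apply _ _ _ one_ne_zero]
    simp [isCoprime_one_left]
  · intro a b ha hb hab
    rw [GAM_g_apply _ _ _ (mul_ne_zero ha hb), GAM_g_apply _ _ _ ha, GAM_g_apply _ _ _ hb]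
    have hc : IsCoprime ((a * b : ℕ) : ℤ) m ↔ IsCoprime (a : ℤ) m ∧ IsCoprime (b : ℤ) m := by
      rw [Nat.cast_mul, IsCoprime.mul_left_iff]
    by_cases h1 : IsCoprime (a : ℤ) m
    · by_cases h2 : IsCoprime (b : ℤ) m
      · rw [if_pos (hc.mpr ⟨h1, h2⟩), if_pos h1, if_pos h2, hab.primeFactors_mul, Finset.filter_union,
          Finset.prod_union]
        exact Finset.disjoint_filter_filter hab.disjoint_primeFactors
      · rw [if_neg (fun h => h2 (hc.mp h).2), if_neg h2, mul_zero]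
    · rw [if_neg (fun h => h1 (hc.mp h).1), if_neg h1, zero_mul]

theorem GAM_g_prime_pow (r : ℕ) (m : ℤ) (p k : ℕ) (hp : p.Prime) :
    GAM_g r m (p ^ (k + 1)) = if (p : ℤ) ∣ m then 0 else if p ∣ r then 1 else (p : ℝ) / (p - 1) := by
  rw [GAM_g_apply _ _ _ (pow_ne_zero _ hp.ne_zero)]
  have h1 : IsCoprime ((p ^ (k + 1) : ℕ) : ℤ) m ↔ ¬ (p : ℤ) ∣ m := by
    rw [Nat.cast_pow, IsCoprime.pow_left_iff (Nat.succ_pos k)]
    exact (Nat.prime_iff_prime_int.mp hp).coprime_iff_not_dvd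
  by_cases h : (p : ℤ) ∣ m
  · rw [if_neg (by rw [h1]; exact fun h' => h' h), if_pos h]
  · rw [if_pos (h1.mpr h), if_neg h, Nat.primeFactors_prime_pow (Nat.succ_ne_zero k) hp]
    by_cases h2 : p ∣ r
    · rw [if_pos h2, Finset.filter_singleton, if_neg (fun h => h h2), Finset.prod_empty]
    · rw [if_neg h2, Finset.filter_singleton, if_pos h2, Finset.prod_singleton]

/-- The convolution of `GAM_g` with the Möbius function. -/
noncomputable def GAM_F (r : ℕ) (m : ℤ) : ArithmeticFunction ℝ :=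
  (ArithmeticFunction.moebius : ArithmeticFunction ℝ) * GAM_g r m

theorem GAM_F_mult (r : ℕ) (m : ℤ) : (GAM_F r m).IsMultiplicative :=
  ArithmeticFunction.isMultiplicative_moebius.intCast.mul (GAM_g_mult r m)

theorem GAM_F_apply (r : ℕ) (m : ℤ) (q : ℕ) : GAM_F r m q =
    ∑ d ∈ q.divisors, (ArithmeticFunction.moebius (q / d) : ℝ) * GAM_g r m d := by
  unfold GAM_F
  rw [ArithmeticFunction.mul_apply]
  exact Nat.sum_divisorsAntidiagonal'
    (fun a b => ((ArithmeticFunction.moebius a : ℤ) : ℝ) * GAM_g r m b)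

theorem GAM_mu_conv (f : ℕ → ℝ) (p k : ℕ) (hp : p.Prime) :
    ∑ d ∈ (p ^ (k + 1)).divisors, (ArithmeticFunction.moebius (p ^ (k + 1) / d) : ℝ) * f d =
      f (p ^ (k + 1)) - f (p ^ k) := by
  rw [Nat.sum_divisors_prime_pow hp, Finset.sum_range_succ, Finset.sum_range_succ,
    Finset.sum_eq_zero]
  · rw [Nat.div_self (pow_pos hp.pos _), pow_succ p k, Nat.mul_div_cancel_left _ (pow_pos hp.pos _)]
    rw [ArithmeticFunction.moebius_apply_one, ArithmeticFunction.moebius_apply_prime hp]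
    push_cast
    ring
  · intro j hj
    rw [mem_range] at hj
    rw [Nat.pow_div (by omega) hp.pos, ArithmeticFunction.moebius_apply_prime_pow hp (by omega),
      if_neg (by omega)]
    simp

theorem GAM_F_prime (r : ℕ) (m : ℤ) (p : ℕ) (hp : p.Prime) : GAM_F r m p =
    if (p : ℤ) ∣ m then -1 else if p ∣ r then 0 else 1 / ((p : ℝ) - 1) := by
  have h := GAM_F_apply r m (p ^ (0 + 1))
  rw [GAM_mu_conv _ _ _ hp, GAM_g_prime_pow _ _ _ _ hp, pow_zero, (GAM_g_mult r m).1, zero_add,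
    pow_one] at h
  rw [h]
  have hp2 : (1 : ℝ) < p := by exact_mod_cast hp.one_lt
  have h2 : (p : ℝ) - 1 ≠ 0 := by linarith
  split_ifs
  · ring
  · ring
  · field_simp
    ring

theorem GAM_F_prime_pow (r : ℕ) (m : ℤ) (p k : ℕ) (hp : p.Prime) :
    GAM_F r m (p ^ (k + 2)) = 0 := by
  rw [GAM_F_apply r m (p ^ (k + 1 + 1)), GAM_mu_conv _ _ _ hp, GAM_g_prime_pow _ _ _ _ hp,
    GAM_g_prime_pow _ _ _ _ hp, sub_self]

/-- For `r` coprime to `m` the inner sum of `Γ_r`. -/
theorem GAM_inner (r : ℕ) (m : ℤ) (hr : r ≠ 0) (hrm : IsCoprime (r : ℤ) m) (q : ℕ) (hq : q ≠ 0) :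
    ∑ d ∈ (r * q).divisors.filter (fun d => r ∣ d ∧ IsCoprime (d : ℤ) m),
      (ArithmeticFunction.moebius (r * q / d) : ℝ) * ((d : ℝ) / (Nat.totient d : ℝ)) =
    (r : ℝ) / Nat.totient r * GAM_F r m q := by
  rw [GAM_F_apply, Finset.mul_sum]
  have himg : (r * q).divisors.filter (fun d => r ∣ d ∧ IsCoprime (d : ℤ) m) =
      (q.divisors.filter (fun d : ℕ => IsCoprime (d : ℤ) m)).image (fun d => r * d) := by
    ext d
    simp only [mem_filter, Nat.mem_divisors, mem_image]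
    constructor
    · rintro ⟨⟨h1, h2⟩, ⟨e, rfl⟩, h4⟩
      refine ⟨e, ⟨⟨(Nat.mul_dvd_mul_iff_left (Nat.pos_of_ne_zero hr)).mp h1, hq⟩, ?_⟩, rfl⟩
      rw [Nat.cast_mul, IsCoprime.mul_left_iff] at h4
      exact h4.2
    · rintro ⟨e, ⟨⟨h1, h2⟩, h3⟩, rfl⟩
      refine ⟨⟨Nat.mul_dvd_mul_left r h1, mul_ne_zero hr hq⟩, Dvd.intro _ rfl, ?_⟩
      rw [Nat.cast_mul, IsCoprime.mul_left_iff]
      exact ⟨hrm, h3⟩
  rw [himg, Finset.sum_image (fun a _ b _ h => Nat.eq_of_mul_eq_mul_left (Nat.pos_of_ne_zero hr) h),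
    Finset.sum_filter]
  refine Finset.sum_congr rfl (fun d hd => ?_)
  have hd0 : d ≠ 0 := (Nat.pos_of_mem_divisors hd).ne'
  rw [GAM_g_apply _ _ _ hd0, Nat.mul_div_mul_left _ _ (Nat.pos_of_ne_zero hr)]
  split_ifs
  · rw [GAM_ratio_mul r d hr hd0]
    ring
  · simp

/-- `h(d) = d` if `d ∣ m` -/
noncomputable def GAM_h (m : ℤ) : ArithmeticFunction ℝ :=
  ⟨fun d => if (d : ℤ) ∣ m then (d : ℝ) else 0, by simp⟩

theorem GAM_h_apply (m : ℤ) (d : ℕ) : GAM_h m d = if (d : ℤ) ∣ m then (d : ℝ) else 0 := rfl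

theorem GAM_h_mult (m : ℤ) : (GAM_h m).IsMultiplicative := by
  refine ⟨by simp [GAM_h_apply], ?_⟩
  intro a b hab
  rw [GAM_h_apply, GAM_h_apply, GAM_h_apply]
  have h : ((a * b : ℕ) : ℤ) ∣ m ↔ (a : ℤ) ∣ m ∧ (b : ℤ) ∣ m := by
    rw [Nat.cast_mul]
    constructor
    · intro h
      exact ⟨(Dvd.intro _ rfl).trans h, (Dvd.intro_left _ rfl).trans h⟩
    · rintro ⟨h1, h2⟩
      exact IsCoprime.mul_dvd (Nat.isCoprime_iff_coprime.mpr hab) h1 h2
  by_cases h1 : (a : ℤ) ∣ m
  · by_cases h2 : (b : ℤ) ∣ m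
    · rw [if_pos (h.mpr ⟨h1, h2⟩), if_pos h1, if_pos h2]
      push_cast
      ring
    · rw [if_neg (fun h' => h2 (h.mp h').2), if_neg h2, mul_zero]
  · rw [if_neg (fun h' => h1 (h.mp h').1), if_neg h1, zero_mul]

/-- `c_q(m)` as an arithmetic function of `q` -/
noncomputable def GAM_c (m : ℤ) : ArithmeticFunction ℝ :=
  (ArithmeticFunction.moebius : ArithmeticFunction ℝ) * GAM_h m

theorem GAM_c_apply (m : ℤ) (q : ℕ) : GAM_c m q = cq q m := by
  unfold GAM_c cq
  rw [ArithmeticFunction.mul_apply, Finset.sum_filter]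
  rw [Nat.sum_divisorsAntidiagonal'
    (fun a b => ((ArithmeticFunction.moebius : ArithmeticFunction ℝ) a) * GAM_h m b)]
  refine Finset.sum_congr rfl (fun d hd => ?_)
  rw [GAM_h_apply]
  split_ifs
  · rw [mul_comm]
    rfl
  · simp

theorem GAM_c_mult (m : ℤ) : (GAM_c m).IsMultiplicative :=
  ArithmeticFunction.isMultiplicative_moebius.intCast.mul (GAM_h_mult m)

/-- The totient as a real arithmetic function. -/
noncomputable def GAM_phi : ArithmeticFunction ℝ := ⟨fun n => (Nat.totient n : ℝ), by simp⟩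

theorem GAM_phi_mult : GAM_phi.IsMultiplicative := by
  refine ⟨by simp [GAM_phi], ?_⟩
  intro a b hab
  change ((Nat.totient (a * b) : ℕ) : ℝ) = (Nat.totient a : ℝ) * (Nat.totient b : ℝ)
  rw [Nat.totient_mul hab]
  push_cast
  ring

theorem GAM_identity (m : ℤ) : GAM_F 1 m =
    (((ArithmeticFunction.moebius : ArithmeticFunction ℤ) : ArithmeticFunction ℝ).pmul
      (GAM_c m)).pdiv GAM_phi := by
  rw [ArithmeticFunction.IsMultiplicative.eq_iff_eq_on_prime_powers _ (GAM_F_mult 1 m) _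
    ((ArithmeticFunction.isMultiplicative_moebius.intCast.pmul (GAM_c_mult m)).pdiv GAM_phi_mult)]
  intro p i hp
  rcases i with _ | _ | k
  · rw [pow_zero, (GAM_F_mult 1 m).1]
    exact ((ArithmeticFunction.isMultiplicative_moebius.intCast.pmul (GAM_c_mult m)).pdiv
      GAM_phi_mult).1.symm
  · rw [zero_add, pow_one, GAM_F_prime _ _ _ hp, ArithmeticFunction.pdiv_apply,
      ArithmeticFunction.pmul_apply, GAM_c_apply]
    have hc : cq p m = -1 + if (p : ℤ) ∣ m then (p : ℝ) else 0 := by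
      unfold cq
      rw [Finset.sum_filter, hp.divisors, Finset.sum_pair hp.one_lt.ne, Nat.div_one,
        Nat.div_self hp.pos, ArithmeticFunction.moebius_apply_one,
        ArithmeticFunction.moebius_apply_prime hp]
      simp
    have hphi : GAM_phi p = (p : ℝ) - 1 := by
      change ((Nat.totient p : ℕ) : ℝ) = _
      rw [Nat.totient_prime hp, Nat.cast_sub hp.one_lt.le, Nat.cast_one]
    have hmu : ((ArithmeticFunction.moebius : ArithmeticFunction ℤ) : ArithmeticFunction ℝ) p = -1 := by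
      rw [ArithmeticFunction.intCoe_apply, ArithmeticFunction.moebius_apply_prime hp]
      simp
    rw [hc, hphi, hmu]
    have hp2 : (1 : ℝ) < p := by exact_mod_cast hp.one_lt
    have h2 : (p : ℝ) - 1 ≠ 0 := by linarith
    have h3 : ¬ p ∣ 1 := fun h => hp.one_lt.ne' (Nat.dvd_one.mp h)
    split_ifs
    · field_simp
      ring
    · field_simp
      ring
  · rw [GAM_F_prime_pow _ _ _ _ hp, ArithmeticFunction.pdiv_apply,
      ArithmeticFunction.pmul_apply, ArithmeticFunction.intCoe_apply,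
      ArithmeticFunction.moebius_apply_prime_pow hp (by omega), if_neg (by omega)]
    simp

/-- `Γ_1 = G`: for every `q`, `∑_{d ∣ q, (d,m)=1} μ(q/d) d/φ(d) = μ(q) c_q(m)/φ(q)`. Both sides are
multiplicative in `q` (Dirichlet convolution of `μ` with `d ↦ [(d,m)=1] d/φ(d)`); at `q = p` both
are `1/(p-1)` if `p ∤ m` and `-1` if `p ∣ m`; at `q = p^j`, `j ≥ 2`, both are `0`
(`ArithmeticFunction.IsMultiplicative.eq_iff_eq_on_prime_powers`, or direct for squarefree `q`). -/
theorem Gam_one (Q : ℕ) (m : ℤ) : Gam Q 1 m = G Q m := by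
  unfold Gam G
  have h1 : (Icc 1 Q).filter (fun q => 1 ∣ q) = Icc 1 Q :=
    Finset.filter_true_of_mem (fun q _ => one_dvd q)
  rw [h1]
  refine Finset.sum_congr rfl (fun q hq => ?_)
  rw [mem_Icc] at hq
  have h := GAM_inner 1 m one_ne_zero (by simpa using isCoprime_one_left) q (by omega)
  rw [one_mul] at h
  rw [h, GAM_identity, ArithmeticFunction.pdiv_apply, ArithmeticFunction.pmul_apply, GAM_c_apply,
    ArithmeticFunction.intCoe_apply]
  simp only [Nat.cast_one, Nat.totient_one, div_one, one_mul]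
  change _ / ((Nat.totient q : ℕ) : ℝ) = _
  ring

end Pool.Agent.Lib.H68T
end

-- from Lib.H68T.GAM2
section

/-!
# Chunk GAM2; part of GAM: the coefficients `Γ_r(m)`
-/

open Finset

namespace Pool.Agent.Lib.H68T

/-- `∏_{s ∈ S} s/(s-1) ≤ |S| + 1` for a finite set of integers `≥ 2`. -/
theorem GAM_prod_le (S : Finset ℕ) (hS : ∀ s ∈ S, 2 ≤ s) :
    ∏ s ∈ S, ((s : ℝ) / (s - 1)) ≤ (S.card : ℝ) + 1 := by
  induction S using Finset.induction_on_max with
  | empty => simp
  | insert a s hlt ih =>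
    have ha : a ∉ s := fun h => lt_irrefl _ (hlt a h)
    have ih' := ih (fun x hx => hS x (mem_insert_of_mem hx))
    rw [Finset.prod_insert ha, Finset.card_insert_of_notMem ha]
    have hcard : s.card + 2 ≤ a := by
      have h1 : s ⊆ Ico 2 a := by
        intro x hx
        rw [mem_Ico]
        exact ⟨hS x (mem_insert_of_mem hx), hlt x hx⟩
      have h2 := Finset.card_le_card h1
      rw [Nat.card_Ico] at h2
      have h3 := hS a (mem_insert_self a s)
      omega
    have hc : (s.card : ℝ) + 2 ≤ a := by exact_mod_cast hcard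
    have hs0 : (0 : ℝ) ≤ s.card := Nat.cast_nonneg _
    have ha1 : (0 : ℝ) < (a : ℝ) - 1 := by linarith
    have h4 : (a : ℝ) / (a - 1) ≤ ((s.card : ℝ) + 2) / (s.card + 1) := by
      rw [div_le_div_iff₀ ha1 (by linarith)]
      nlinarith
    calc (a : ℝ) / (a - 1) * ∏ x ∈ s, ((x : ℝ) / (x - 1))
        ≤ ((s.card : ℝ) + 2) / (s.card + 1) * ((s.card : ℝ) + 1) := by
          refine mul_le_mul h4 ih' (Finset.prod_nonneg (fun x hx => ?_)) (by positivity)
          have hx2 : (2 : ℝ) ≤ x := by exact_mod_cast hS x (mem_insert_of_mem hx)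
          exact div_nonneg (by linarith) (by linarith)
      _ = (s.card : ℝ) + 2 := by
          rw [div_mul_cancel₀]
          linarith
      _ = _ := by push_cast; ring

/-- `r/φ(r) ≤ 1 + log r/log 2` -/
theorem GAM_ratio_le (r : ℕ) (hr : r ≠ 0) :
    (r : ℝ) / Nat.totient r ≤ 10 * (1 + Real.log r) := by
  rw [GAM_ratio r hr]
  have h1 := GAM_prod_le r.primeFactors (fun p hp => (Nat.prime_of_mem_primeFactors hp).two_le)
  have h2 : 2 ^ r.primeFactors.card ≤ r := by
    calc 2 ^ r.primeFactors.card ≤ ∏ p ∈ r.primeFactors, p :=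
          Finset.pow_card_le_prod _ _ _ (fun p hp => (Nat.prime_of_mem_primeFactors hp).two_le)
      _ ≤ r := Nat.le_of_dvd (Nat.pos_of_ne_zero hr) (Nat.prod_primeFactors_dvd r)
  have h3 : (r.primeFactors.card : ℝ) * Real.log 2 ≤ Real.log r := by
    rw [← Real.log_pow]
    refine Real.log_le_log (by positivity) ?_
    exact_mod_cast h2
  have h4 := Real.log_two_gt_d9
  have h5 : (0 : ℝ) ≤ r.primeFactors.card := Nat.cast_nonneg _
  nlinarith

/-- absolute value of `F` at squarefree arguments -/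
theorem GAM_F_abs (r : ℕ) (m : ℤ) (q : ℕ) (hq : q ≠ 0) :
    |GAM_F r m q| ≤ if Squarefree q then
      1 / (Nat.totient (q / Nat.gcd q m.natAbs) : ℝ) else 0 := by
  by_cases hsq : Squarefree q
  · rw [if_pos hsq, ← (GAM_F_mult r m).prod_primeFactors hsq, Finset.abs_prod]
    set g := Nat.gcd q m.natAbs with hg
    have hgq : g ∣ q := Nat.gcd_dvd_left _ _
    have hqg : q = g * (q / g) := (Nat.mul_div_cancel' hgq).symm
    have hsq' : Squarefree (q / g) := hsq.squarefree_of_dvd (Nat.div_dvd_of_dvd hgq)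
    have hpf : (q / g).primeFactors = q.primeFactors.filter (fun p : ℕ => ¬ (p : ℤ) ∣ m) := by
      ext p
      rw [mem_filter, Nat.mem_primeFactors, Nat.mem_primeFactors]
      constructor
      · rintro ⟨hp, hpq, -⟩
        refine ⟨⟨hp, hpq.trans (Nat.div_dvd_of_dvd hgq), hq⟩, ?_⟩
        intro hpm
        have h1 : p ∣ g := by
          rw [hg]
          exact Nat.dvd_gcd (hpq.trans (Nat.div_dvd_of_dvd hgq)) (Int.natCast_dvd.mp hpm)
        have h2 : p * p ∣ q := by
          rw [hqg]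
          exact Nat.mul_dvd_mul h1 hpq
        exact hp.one_lt.ne' (Nat.isUnit_iff.mp (hsq p h2))
      · rintro ⟨⟨hp, hpq, -⟩, hpm⟩
        refine ⟨hp, ?_, hsq'.ne_zero⟩
        rw [hqg] at hpq
        rcases hp.dvd_mul.mp hpq with h | h
        · exfalso
          exact hpm (Int.natCast_dvd.mpr (h.trans (Nat.gcd_dvd_right _ _)))
        · exact h
    have hphi : (Nat.totient (q / g) : ℝ) = ∏ p ∈ (q / g).primeFactors, ((p : ℝ) - 1) := by
      have := GAM_phi_mult.prod_primeFactors hsq'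
      change _ = ((Nat.totient (q / g) : ℕ) : ℝ) at this
      rw [← this]
      refine Finset.prod_congr rfl (fun p hp => ?_)
      change ((Nat.totient p : ℕ) : ℝ) = _
      have hp' := Nat.prime_of_mem_primeFactors hp
      rw [Nat.totient_prime hp', Nat.cast_sub hp'.one_lt.le, Nat.cast_one]
    rw [hphi, hpf, one_div, ← Finset.prod_inv_distrib, Finset.prod_filter]
    refine Finset.prod_le_prod (fun p _ => abs_nonneg _) (fun p hp => ?_)
    have hp' := Nat.prime_of_mem_primeFactors hp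
    have hp2 : (2 : ℝ) ≤ p := by exact_mod_cast hp'.two_le
    rw [GAM_F_prime r m p hp']
    by_cases h : (p : ℤ) ∣ m
    · simp [h]
    · rw [if_neg h, if_pos h]
      split_ifs
      · rw [abs_zero]
        exact inv_nonneg.mpr (by linarith)
      · rw [one_div, abs_of_nonneg (inv_nonneg.mpr (by linarith))]
  · rw [if_neg hsq, abs_nonpos_iff, (GAM_F_mult r m).multiplicative_factorization _ hq]
    have hex : ∃ p ∈ q.primeFactors, 2 ≤ q.factorization p := by
      by_contra hcon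
      push Not at hcon
      refine hsq ((Nat.squarefree_iff_factorization_le_one hq).mpr (fun p => ?_))
      by_cases hp : p ∈ q.primeFactors
      · have := hcon p hp
        omega
      · rw [← Nat.support_factorization, Finsupp.notMem_support_iff] at hp
        omega
    obtain ⟨p, hp, h2⟩ := hex
    refine Finset.prod_eq_zero (i := p) (by rwa [Nat.support_factorization]) ?_
    obtain ⟨k, hk⟩ := Nat.exists_eq_add_of_le h2
    change GAM_F r m (p ^ q.factorization p) = 0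
    rw [hk, add_comm 2 k]
    exact GAM_F_prime_pow r m p k (Nat.prime_of_mem_primeFactors hp)

theorem GAM_sum_F (r : ℕ) (m : ℤ) (Q N : ℕ) (hN : N ≤ Q) :
    ∑ q ∈ Icc 1 N, |GAM_F r m q| ≤ dQ Q m * ∑ q ∈ Icc 1 Q, (1 : ℝ) / Nat.totient q := by
  have h1 : ∑ q ∈ Icc 1 N, |GAM_F r m q| ≤
      ∑ q ∈ (Icc 1 N).filter Squarefree, 1 / (Nat.totient (q / Nat.gcd q m.natAbs) : ℝ) := by
    rw [Finset.sum_filter]
    refine Finset.sum_le_sum (fun q hq => ?_)
    rw [mem_Icc] at hq
    exact GAM_F_abs r m q (by omega)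
  refine h1.trans ?_
  have h2 : ∑ q ∈ (Icc 1 N).filter Squarefree, 1 / (Nat.totient (q / Nat.gcd q m.natAbs) : ℝ) =
      ∑ x ∈ ((Icc 1 N).filter Squarefree).image (fun q => (Nat.gcd q m.natAbs, q / Nat.gcd q m.natAbs)),
        1 / (Nat.totient x.2 : ℝ) := by
    rw [Finset.sum_image]
    intro a ha b hb hab
    simp only [Prod.mk.injEq] at hab
    have ha' := Nat.mul_div_cancel' (Nat.gcd_dvd_left a m.natAbs)
    have hb' := Nat.mul_div_cancel' (Nat.gcd_dvd_left b m.natAbs)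
    rw [hab.2, hab.1] at ha'
    exact ha'.symm.trans hb'
  rw [h2]
  have h3 : dQ Q m * ∑ q ∈ Icc 1 Q, (1 : ℝ) / Nat.totient q =
      ∑ x ∈ ((Icc 1 Q).filter (fun d : ℕ => (d : ℤ) ∣ m)) ×ˢ (Icc 1 Q),
        1 / (Nat.totient x.2 : ℝ) := by
    rw [Finset.sum_product]
    unfold dQ
    simp only
    rw [Finset.sum_const, nsmul_eq_mul]
  rw [h3]
  refine Finset.sum_le_sum_of_subset_of_nonneg ?_ (fun _ _ _ => by positivity)
  intro x hx
  rw [mem_image] at hx
  obtain ⟨q, hq, rfl⟩ := hx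
  rw [mem_filter, mem_Icc] at hq
  have hg1 : 0 < Nat.gcd q m.natAbs := Nat.gcd_pos_of_pos_left _ (by omega)
  have hg2 : Nat.gcd q m.natAbs ≤ q := Nat.gcd_le_left _ (by omega)
  have hg3 : 0 < q / Nat.gcd q m.natAbs := Nat.div_pos hg2 hg1
  rw [mem_product, mem_filter, mem_Icc, mem_Icc]
  refine ⟨⟨⟨hg1, by simp only; omega⟩, ?_⟩, hg3, ?_⟩
  · exact Int.natCast_dvd.mpr (Nat.gcd_dvd_right _ _)
  · exact (Nat.div_le_self _ _).trans (by omega)

/-- `|Γ_r(m)| ≤ 100 (1 + log Q)^3 dQ(m)`. If `(r, m) ≠ 1` it is `0`. Otherwise write `q = r q'`,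
`d = r d'`; `d' ↦ [(d',m)=1] (r d'/φ(r d')) / (r/φ(r))` is multiplicative, equal at `p^j` (`j ≥ 1`)
to `1` if `p ∣ r`, `p/(p-1)` if `p ∤ r m`, `0` if `p ∣ m`; so its Dirichlet convolution with `μ` is
`0` at `q'` not squarefree or not coprime to `r`, and at squarefree `q'` coprime to `r` it is
`∏_{p ∣ q', p ∤ m} 1/(p-1) ∏_{p ∣ q', p ∣ m} (-1)`, of absolute value `φ((q',m))/φ(q')`. Hence
`|Γ_r(m)| ≤ (r/φ(r)) ∑_{g ∣ m, g ≤ Q} ∑_{q'' ≤ Q} 1/φ(q'')`, and `r/φ(r) ≤ 10 (1 + log Q)` for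
`r ≤ Q` (e.g. `r/φ(r) = ∏_{p ∣ r} (1 - 1/p)^{-1} ≤ ∏_{j ≤ ω(r)} (1 + 1/j) ≤ ω(r) + 1`, `2^ω(r) ≤ r`). -/
theorem abs_Gam_le (Q r : ℕ) (hr : 1 ≤ r) (hrQ : r ≤ Q) (m : ℤ) :
    |Gam Q r m| ≤ 100 * (1 + Real.log Q) ^ 3 * dQ Q m := by
  have hQ1 : (1 : ℝ) ≤ Q := by exact_mod_cast hr.trans hrQ
  have hL : 0 ≤ Real.log Q := Real.log_nonneg hQ1
  have hd0 : 0 ≤ dQ Q m := by unfold dQ; positivity
  by_cases hrm : IsCoprime (r : ℤ) m
  swap
  · have : Gam Q r m = 0 := by
      unfold Gam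
      refine Finset.sum_eq_zero (fun q _ => ?_)
      rw [Finset.filter_false_of_mem, Finset.sum_empty]
      rintro d _ ⟨⟨e, rfl⟩, h⟩
      rw [Nat.cast_mul, IsCoprime.mul_left_iff] at h
      exact hrm h.1
    rw [this, abs_zero]
    positivity
  have hr0 : r ≠ 0 := by omega
  have himg : (Icc 1 Q).filter (fun q => r ∣ q) = (Icc 1 (Q / r)).image (fun q => r * q) := by
    ext q
    simp only [mem_filter, mem_Icc, mem_image]
    constructor
    · rintro ⟨⟨h1, h2⟩, ⟨e, rfl⟩⟩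
      refine ⟨e, ⟨?_, ?_⟩, rfl⟩
      · rcases Nat.eq_zero_or_pos e with rfl | h
        · simp at h1
        · exact h
      · rw [Nat.le_div_iff_mul_le (by omega), mul_comm]
        exact h2
    · rintro ⟨e, ⟨h1, h2⟩, rfl⟩
      refine ⟨⟨Nat.mul_pos (by omega) (by omega), ?_⟩, Dvd.intro _ rfl⟩
      rw [Nat.le_div_iff_mul_le (by omega), mul_comm] at h2
      exact h2
  have hGam : Gam Q r m = (r : ℝ) / Nat.totient r * ∑ q ∈ Icc 1 (Q / r), GAM_F r m q := by
    unfold Gam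
    rw [himg, Finset.sum_image (fun a _ b _ h => Nat.eq_of_mul_eq_mul_left (by omega) h),
      Finset.mul_sum]
    refine Finset.sum_congr rfl (fun q hq => ?_)
    rw [mem_Icc] at hq
    exact GAM_inner r m hr0 hrm q (by omega)
  have hρ := GAM_ratio_le r hr0
  have hρ0 : 0 ≤ (r : ℝ) / Nat.totient r := by positivity
  have hlogr : Real.log r ≤ Real.log Q :=
    Real.log_le_log (by exact_mod_cast hr) (by exact_mod_cast hrQ)
  rw [hGam, abs_mul, abs_of_nonneg hρ0]
  have h1 : |∑ q ∈ Icc 1 (Q / r), GAM_F r m q| ≤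
      dQ Q m * ∑ q ∈ Icc 1 Q, (1 : ℝ) / Nat.totient q :=
    (Finset.abs_sum_le_sum_abs _ _).trans (GAM_sum_F r m Q (Q / r) (Nat.div_le_self _ _))
  have h2 := sum_inv_totient Q
  calc (r : ℝ) / Nat.totient r * |∑ q ∈ Icc 1 (Q / r), GAM_F r m q|
      ≤ (10 * (1 + Real.log Q)) * (dQ Q m * (10 * (1 + Real.log Q) ^ 2)) := by
        refine mul_le_mul (hρ.trans (by linarith)) (h1.trans ?_) (abs_nonneg _) (by positivity)
        exact mul_le_mul_of_nonneg_left h2 hd0
    _ = _ := by ring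

end Pool.Agent.Lib.H68T
end
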