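import Pool.Agent.Lib.H1M.RV.M007
import Pool.Agent.Lib.H1M.RV.M008

/-! Merged copies (to shorten the build) of Lib.H18GB.CorrAP, Lib.H18GB.Tool1. -/

-- from Lib.H18GB.CorrAP
section

/-!
# Project GB: CORRAP
-/

namespace Pool.Agent.Lib.H18GB

open Finset Pool.Agent.Lib.Sieve

theorem corrAP_rho {w z : ℕ} {S : Finset ℕ} (hS : PSet w z S) {q : ℕ} (hq : q ∈ S) (v : ℤ) :
    rho S v ≤ 2 * rho (S.erase q) v := by
  have hq2 : (2 : ℝ) ≤ q := by exact_mod_cast (hS q hq).1.two_le
  have hS' : ∀ p ∈ S.erase q, p.Prime := fun p hp => (hS p (Finset.mem_of_mem_erase hp)).1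
  have hV : VV S = (1 - 1 / (q : ℝ)) * VV (S.erase q) := by
    unfold VV
    rw [Finset.mul_prod_erase S (fun p : ℕ => (1 - 1 / (p : ℝ))) hq]
  have hVp := VV_pos hS'
  have hq1 : (1 : ℝ) / q ≤ 1 / 2 := one_div_le_one_div_of_le (by norm_num) hq2
  unfold rho
  by_cases h : Rgh S v
  · have h' : Rgh (S.erase q) v := fun p hp => h p (Finset.mem_of_mem_erase hp)
    rw [if_pos h, if_pos h', hV, mul_inv]
    apply mul_le_mul_of_nonneg_right _ (inv_nonneg.mpr hVp.le)
    rw [inv_le_comm₀ (by linarith) (by norm_num)]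
    linarith
  · rw [if_neg h]
    split_ifs
    · positivity
    · simp

theorem corrAP_ers_le {w z : ℕ} {S : Finset ℕ} (hS : PSet w z S) (d : ℤ) :
    Ers (9 / 10) S d ≤ z := by
  unfold Ers
  have h1 : ∑ p ∈ S.filter (fun p : ℕ => (p : ℤ) ∣ d), (p : ℝ) ^ (-(9 / 10 : ℝ)) ≤
      ∑ p ∈ S.filter (fun p : ℕ => (p : ℤ) ∣ d), (1 : ℝ) := by
    apply Finset.sum_le_sum
    intro p hp
    have hp1 : (1 : ℝ) ≤ p := by exact_mod_cast (hS p (Finset.mem_filter.mp hp).1).1.one_lt.le
    exact Real.rpow_le_one_of_one_le_of_nonpos hp1 (by norm_num)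
  refine h1.trans ?_
  rw [Finset.sum_const, nsmul_eq_mul, mul_one]
  have h2 : S.filter (fun p : ℕ => (p : ℤ) ∣ d) ⊆ Finset.Icc 1 z := by
    intro p hp
    have := hS p (Finset.mem_filter.mp hp).1
    exact Finset.mem_Icc.mpr ⟨this.1.one_lt.le, this.2.2⟩
  have h3 := Finset.card_le_card h2
  rw [Nat.card_Icc] at h3
  have h4 : (S.filter (fun p : ℕ => (p : ℤ) ∣ d)).card ≤ z := by omega
  exact_mod_cast h4

theorem corrAP_ers_erase {w z : ℕ} {S : Finset ℕ} (hS : PSet w z S) {q : ℕ} (hq : q ∈ S) (d : ℤ) :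
    Ers (9 / 10) (S.erase q) (q * d) ≤ Ers (9 / 10) S d := by
  unfold Ers
  apply Finset.sum_le_sum_of_subset_of_nonneg
  · intro p hp
    rw [Finset.mem_filter] at hp ⊢
    have hpS := Finset.mem_of_mem_erase hp.1
    refine ⟨hpS, ?_⟩
    have hpp : Prime (p : ℤ) := Nat.prime_iff_prime_int.mp (hS p hpS).1
    rcases hpp.dvd_or_dvd hp.2 with h | h
    · exfalso
      have h1 : p ∣ q := Int.natCast_dvd_natCast.mp h
      have := (Nat.prime_dvd_prime_iff_eq (hS p hpS).1 (hS q hq).1).mp h1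
      exact (Finset.ne_of_mem_erase hp.1) this
    · exact h
  · intro p _ _
    exact Real.rpow_nonneg (Nat.cast_nonneg _) _

theorem cap_er_le_two {C A w : ℕ} (hw : 1 ≤ w) : er C A w ≤ 2 := by
  unfold er
  have h1 : (2 : ℝ) ^ (-(A : ℝ) / C) ≤ 1 :=
    Real.rpow_le_one_of_one_le_of_nonpos (by norm_num)
      (div_nonpos_of_nonpos_of_nonneg (by simp) (Nat.cast_nonneg _))
  have h2 : (w : ℝ) ^ (-(1 : ℝ) / C) ≤ 1 :=
    Real.rpow_le_one_of_one_le_of_nonpos (by exact_mod_cast hw)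
      (div_nonpos_of_nonpos_of_nonneg (by norm_num) (Nat.cast_nonneg _))
  linarith

open Classical in
/-- Chunk CORRAP: upper bound in a residue class modulo one of the sieving primes `q`. (Sieve by
`S.erase q`: `rho S v ≤ (1 - 1/q)^(-1) rho (S.erase q) v`, `x = c + q x'`, and apply `corr0` with
`α i * q`, `β i + α i c`; the discriminants are multiplied by `q`, not divisible by `p ≠ q`.) -/
theorem corrAP (k : ℕ) : ∃ C : ℕ, 1 ≤ C ∧ ∀ (A w z : ℕ) (S : Finset ℕ), C ≤ A → C ≤ w → 2 ≤ z →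
    PSet w z S → ∀ (α β : Fin k → ℤ), (∀ p ∈ S, ∀ i, ¬ (p : ℤ) ∣ α i) →
    ∀ (a b : ℤ), a ≤ b → ∀ q ∈ S, ∀ c : ℤ,
    ∑ x ∈ (Finset.Ico a b).filter (fun x => (q : ℤ) ∣ x - c), ∏ i : Fin k, rho S (α i * x + β i) ≤
      C * ((b - a) / q * (1 +
        ∑ i, ∑ j ∈ Finset.univ.filter (fun j => i ≠ j), Ers (9 / 10) S (disc α β i j))
        + (z : ℝ) ^ (A + k)) := by
  obtain ⟨C0, hC0, hcorr⟩ := corr0 k
  refine ⟨2 ^ k * (1 + 3 * C0 + C0 * k ^ 2), ?_, ?_⟩
  · exact Nat.one_le_iff_ne_zero.mpr (by positivity)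
  intro A w z S hA hw hz hS α β hα a b hab q hq c
  have hC0le : C0 ≤ 2 ^ k * (1 + 3 * C0 + C0 * k ^ 2) := by
    have h1 : 1 ≤ 2 ^ k := Nat.one_le_two_pow
    nlinarith [Nat.zero_le (C0 * k ^ 2)]
  have hq0 : 0 < (q : ℤ) := by exact_mod_cast (hS q hq).1.pos
  have hqr : (0 : ℝ) < q := by exact_mod_cast (hS q hq).1.pos
  have hS' : PSet w z (S.erase q) := fun p hp => hS p (Finset.mem_of_mem_erase hp)
  set a' : ℤ := -((c - a) / q) with ha'
  set b' : ℤ := -((c - b) / q) with hb'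
  have hab' : a' ≤ b' := by
    have := Int.ediv_le_ediv hq0 (by linarith : c - b ≤ c - a)
    omega
  set α' : Fin k → ℤ := fun i => α i * q with hα'
  set β' : Fin k → ℤ := fun i => β i + α i * c with hβ'
  -- change of variables
  have hmap : ∑ x ∈ (Finset.Ico a b).filter (fun x => (q : ℤ) ∣ x - c),
      ∏ i : Fin k, rho (S.erase q) (α i * x + β i) =
      ∑ x ∈ Finset.Ico a' b', ∏ i : Fin k, rho (S.erase q) (α' i * x + β' i) := by
    refine Finset.sum_bij' (fun x _ => (x - c) / q) (fun x _ => c + q * x) ?_ ?_ ?_ ?_ ?_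
    · intro x hx
      rw [Finset.mem_filter, Finset.mem_Ico] at hx
      obtain ⟨⟨h1, h2⟩, t, ht⟩ := hx
      simp only [ht, Int.mul_ediv_cancel_left _ hq0.ne', Finset.mem_Ico]
      constructor
      · have : -t ≤ (c - a) / q := (Int.le_ediv_iff_mul_le hq0).mpr (by linarith)
        omega
      · have : (c - b) / q < -t := (Int.ediv_lt_iff_lt_mul hq0).mpr (by linarith)
        omega
    · intro x hx
      rw [Finset.mem_Ico] at hx
      rw [Finset.mem_filter, Finset.mem_Ico]
      refine ⟨⟨?_, ?_⟩, x, by ring⟩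
      · have h1 : -x ≤ (c - a) / q := by omega
        have := (Int.le_ediv_iff_mul_le hq0).mp h1
        linarith
      · have h1 : (c - b) / q < -x := by omega
        have := (Int.ediv_lt_iff_lt_mul hq0).mp h1
        linarith
    · intro x hx
      rw [Finset.mem_filter] at hx
      obtain ⟨_, t, ht⟩ := hx
      simp only [ht, Int.mul_ediv_cancel_left _ hq0.ne']
      linarith
    · intro x _
      simp [Int.mul_ediv_cancel_left _ hq0.ne']
    · intro x hx
      rw [Finset.mem_filter] at hx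
      obtain ⟨_, t, ht⟩ := hx
      refine Finset.prod_congr rfl fun i _ => ?_
      congr 1
      simp only [ht, Int.mul_ediv_cancel_left _ hq0.ne', hα', hβ']
      have : x = c + q * t := by linarith
      rw [this]
      ring
  have hstep : ∑ x ∈ (Finset.Ico a b).filter (fun x => (q : ℤ) ∣ x - c),
      ∏ i : Fin k, rho S (α i * x + β i) ≤
      2 ^ k * ∑ x ∈ Finset.Ico a' b', ∏ i : Fin k, rho (S.erase q) (α' i * x + β' i) := by
    rw [← hmap, Finset.mul_sum]
    apply Finset.sum_le_sum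
    intro x _
    have h1 : ∏ i : Fin k, rho S (α i * x + β i) ≤
        ∏ i : Fin k, (2 * rho (S.erase q) (α i * x + β i)) := by
      apply Finset.prod_le_prod
      · intro i _
        exact rho_nonneg hS.prime _
      · intro i _
        exact corrAP_rho hS hq _
    refine h1.trans (le_of_eq ?_)
    rw [Finset.prod_mul_distrib]
    simp
  have hα1 : ∀ p ∈ S.erase q, ∀ i, ¬ (p : ℤ) ∣ α' i := by
    intro p hp i h
    have hpS := Finset.mem_of_mem_erase hp
    have hpp : Prime (p : ℤ) := Nat.prime_iff_prime_int.mp (hS p hpS).1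
    rcases hpp.dvd_or_dvd h with h | h
    · exact hα p hpS i h
    · have h1 : p ∣ q := Int.natCast_dvd_natCast.mp h
      have := (Nat.prime_dvd_prime_iff_eq (hS p hpS).1 (hS q hq).1).mp h1
      exact (Finset.ne_of_mem_erase hp) this
  have hc := hcorr A w z (S.erase q) (hC0le.trans hA) (hC0le.trans hw) hz hS' α' β' hα1 a' b' hab'
  have hc1 := (abs_le.mp hc).2
  have her : er C0 A w ≤ 2 := cap_er_le_two (le_trans hC0 (hC0le.trans hw))
  set E : ℝ := ∑ i, ∑ j ∈ Finset.univ.filter (fun j => i ≠ j), Ers (9 / 10) S (disc α β i j) with hE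
  have hE0 : 0 ≤ E := Finset.sum_nonneg fun i _ => Finset.sum_nonneg fun j _ => Ers_nonneg _ _ _
  have hE' : ∑ i, ∑ j ∈ Finset.univ.filter (fun j => i ≠ j),
      Ers (9 / 10) (S.erase q) (disc α' β' i j) ≤ E := by
    apply Finset.sum_le_sum
    intro i _
    apply Finset.sum_le_sum
    intro j _
    have : disc α' β' i j = q * disc α β i j := by
      simp only [disc, hα', hβ']
      ring
    rw [this]
    exact corrAP_ers_erase hS hq _
  have hEz : E ≤ k ^ 2 * z := by
    have h1 : E ≤ ∑ i : Fin k, ∑ j ∈ Finset.univ.filter (fun j : Fin k => i ≠ j), (z : ℝ) := by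
      apply Finset.sum_le_sum
      intro i _
      apply Finset.sum_le_sum
      intro j _
      exact corrAP_ers_le hS _
    have h2 : ∑ i : Fin k, ∑ j ∈ Finset.univ.filter (fun j : Fin k => i ≠ j), (z : ℝ) ≤
        ∑ i : Fin k, ∑ j : Fin k, (z : ℝ) := by
      apply Finset.sum_le_sum
      intro i _
      exact Finset.sum_le_sum_of_subset_of_nonneg (Finset.filter_subset _ _)
        (fun _ _ _ => Nat.cast_nonneg _)
    refine (h1.trans h2).trans (le_of_eq ?_)
    simp
    ring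
  have hlen : ((b' : ℝ) - a') ≤ (b - a) / q + 1 := by
    have h1 : (((c - a) / (q : ℤ) : ℤ) : ℝ) ≤ ((c : ℝ) - a) / q := by
      rw [le_div_iff₀ hqr]
      have := Int.ediv_mul_le (c - a) hq0.ne'
      exact_mod_cast this
    have h2 : ((c : ℝ) - b) / q - 1 ≤ (((c - b) / (q : ℤ) : ℤ) : ℝ) := by
      rw [sub_le_iff_le_add, div_le_iff₀ hqr]
      have := Int.lt_ediv_add_one_mul_self (c - b) hq0
      exact_mod_cast this.le
    rw [ha', hb']
    push_cast
    have h3 : ((b : ℝ) - a) / q = ((c : ℝ) - a) / q - ((c : ℝ) - b) / q := by ring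
    rw [h3]
    linarith
  have hlen0 : (0 : ℝ) ≤ (b' : ℝ) - a' := by
    have : (a' : ℝ) ≤ b' := by exact_mod_cast hab'
    linarith
  have hz1 : (1 : ℝ) ≤ z := by exact_mod_cast (by omega : 1 ≤ z)
  have hC0r : (1 : ℝ) ≤ C0 := by exact_mod_cast hC0
  have hzpow : (z : ℝ) ≤ (z : ℝ) ^ (A + k) := by
    have hA1 : 1 ≤ A + k := by omega
    calc (z : ℝ) = (z : ℝ) ^ 1 := (pow_one _).symm
      _ ≤ _ := pow_le_pow_right₀ hz1 hA1
  have hzpow1 : (1 : ℝ) ≤ (z : ℝ) ^ (A + k) := hz1.trans hzpow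
  have hX : ∑ x ∈ Finset.Ico a' b', ∏ i : Fin k, rho (S.erase q) (α' i * x + β' i) ≤
      (1 + 3 * C0 + C0 * k ^ 2) * ((b - a) / q * (1 + E) + (z : ℝ) ^ (A + k)) := by
    have h1 : ∑ x ∈ Finset.Ico a' b', ∏ i : Fin k, rho (S.erase q) (α' i * x + β' i) ≤
        (b' - a') * (1 + 2 * C0 + C0 * E) + C0 * (z : ℝ) ^ (A + k) := by
      have h2 : ((b' : ℝ) - a') * (C0 * er C0 A w +
          C0 * ∑ i, ∑ j ∈ Finset.univ.filter (fun j => i ≠ j),
            Ers (9 / 10) (S.erase q) (disc α' β' i j)) ≤ (b' - a') * (2 * C0 + C0 * E) := by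
        apply mul_le_mul_of_nonneg_left _ hlen0
        have h3 := mul_le_mul_of_nonneg_left her (by linarith : (0 : ℝ) ≤ C0)
        have h4 := mul_le_mul_of_nonneg_left hE' (by linarith : (0 : ℝ) ≤ C0)
        linarith
      linarith
    have h5 : ((b' : ℝ) - a') * (1 + 2 * C0 + C0 * E) ≤
        ((b - a) / q + 1) * (1 + 2 * C0 + C0 * E) :=
      mul_le_mul_of_nonneg_right hlen (by positivity)
    have hba : (0 : ℝ) ≤ ((b : ℝ) - a) / q := by
      have : (a : ℝ) ≤ b := by exact_mod_cast hab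
      exact div_nonneg (by linarith) hqr.le
    set X : ℝ := ((b : ℝ) - a) / q with hXdef
    set Z : ℝ := (z : ℝ) ^ (A + k) with hZdef
    have h6 : (1 + 2 * C0 + C0 * E) ≤ (1 + 2 * C0) + C0 * k ^ 2 * Z := by
      have h7 : C0 * E ≤ C0 * (k ^ 2 * Z) := by
        apply mul_le_mul_of_nonneg_left _ (by linarith)
        exact hEz.trans (mul_le_mul_of_nonneg_left hzpow (by positivity))
      linarith
    have h7 : (1 + 2 * (C0 : ℝ)) ≤ (1 + 2 * C0) * Z := by nlinarith
    have h8 : X * (1 + 2 * C0 + C0 * E) ≤ X * ((1 + 3 * C0 + C0 * k ^ 2) * (1 + E)) := by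
      apply mul_le_mul_of_nonneg_left _ hba
      have : (0 : ℝ) ≤ C0 * k ^ 2 * (1 + E) := by positivity
      nlinarith
    nlinarith
  calc ∑ x ∈ (Finset.Ico a b).filter (fun x => (q : ℤ) ∣ x - c),
      ∏ i : Fin k, rho S (α i * x + β i)
      ≤ 2 ^ k * ∑ x ∈ Finset.Ico a' b', ∏ i : Fin k, rho (S.erase q) (α' i * x + β' i) := hstep
    _ ≤ 2 ^ k * ((1 + 3 * C0 + C0 * k ^ 2) * ((b - a) / q * (1 + E) + (z : ℝ) ^ (A + k))) :=
        mul_le_mul_of_nonneg_left hX (by positivity)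
    _ = _ := by
        push_cast
        ring

end Pool.Agent.Lib.H18GB
end

-- from Lib.H18GB.Tool1
section

/-!
# Project GB: tools (helper82)

* `er_mono`, `er_le_sq` (`er C <= (er (2 C))^2`), `er_two_pow`, `er_rpow`, `er_le_two`;
* `Stp C A w z W N S`: the standing assumptions as a structure (`mono`, `zpow`: powers of `z` are
  negligible, `unitW`, `unit_small`, `unit_mul`, `unit_neg`, `unit_one`);
* `corr_sub`, `corr0_sub`, `corrAP_sub`: the correlation theorems for subfamilies of a family of forms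
  indexed by arbitrary finite types, with one constant (for expanding products of `1 + rho`).
-/

namespace Pool.Agent.Lib.H18GB

open Finset Pool.Agent.Lib.Sieve

/-! ## the error function -/

theorem er_mono {C C' : ℕ} (h1 : 1 ≤ C) (h : C ≤ C') (A : ℕ) {w : ℕ} (hw : 1 ≤ w) :
    er C A w ≤ er C' A w := by
  unfold er
  have hC : (0 : ℝ) < C := by exact_mod_cast h1
  have hC' : (C : ℝ) ≤ C' := by exact_mod_cast h
  apply add_le_add
  · apply Real.rpow_le_rpow_of_exponent_le (by norm_num)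
    rw [neg_div, neg_div]
    exact neg_le_neg (div_le_div_of_nonneg_left (Nat.cast_nonneg _) hC hC')
  · apply Real.rpow_le_rpow_of_exponent_le (by exact_mod_cast hw)
    rw [neg_div, neg_div]
    exact neg_le_neg (div_le_div_of_nonneg_left zero_le_one hC hC')

theorem er_le_sq {C : ℕ} (hC : 1 ≤ C) (A w : ℕ) : er C A w ≤ er (2 * C) A w ^ 2 := by
  have hC0 : (C : ℝ) ≠ 0 := by positivity
  have h1 : (2 : ℝ) ^ (-(A : ℝ) / C) = ((2 : ℝ) ^ (-(A : ℝ) / (2 * C : ℕ))) ^ 2 := by
    rw [← Real.rpow_natCast, ← Real.rpow_mul (by norm_num)]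
    congr 1
    push_cast
    field_simp
  have h2 : (w : ℝ) ^ (-(1 : ℝ) / C) = ((w : ℝ) ^ (-(1 : ℝ) / (2 * C : ℕ))) ^ 2 := by
    rw [← Real.rpow_natCast, ← Real.rpow_mul (Nat.cast_nonneg _)]
    congr 1
    push_cast
    field_simp
  have h3 : 0 ≤ (2 : ℝ) ^ (-(A : ℝ) / (2 * C : ℕ)) := by positivity
  have h4 : 0 ≤ (w : ℝ) ^ (-(1 : ℝ) / (2 * C : ℕ)) := by positivity
  unfold er
  rw [h1, h2]
  nlinarith [mul_nonneg h3 h4]

theorem er_two_pow {C : ℕ} (hC : 1 ≤ C) (A w : ℕ) : (1 / 2 : ℝ) ^ A ≤ er C A w := by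
  have h2 : 0 ≤ (w : ℝ) ^ (-(1 : ℝ) / C) := by positivity
  have hC0 : (1 : ℝ) ≤ C := by exact_mod_cast hC
  have h1 : (1 / 2 : ℝ) ^ A ≤ (2 : ℝ) ^ (-(A : ℝ) / C) := by
    have : (1 / 2 : ℝ) ^ A = (2 : ℝ) ^ (-(A : ℝ)) := by
      rw [Real.rpow_neg (by norm_num), Real.rpow_natCast]
      simp
    rw [this]
    apply Real.rpow_le_rpow_of_exponent_le (by norm_num)
    rw [neg_div]
    exact neg_le_neg (div_le_self (Nat.cast_nonneg _) hC0)
  unfold er
  linarith

theorem er_rpow {C : ℕ} (A : ℕ) {w : ℕ} (hw : 1 ≤ w) {t : ℝ} (ht : 1 / (C : ℝ) ≤ t) :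
    (w : ℝ) ^ (-t) ≤ er C A w := by
  have h2 : 0 ≤ (2 : ℝ) ^ (-(A : ℝ) / C) := by positivity
  have h1 : (w : ℝ) ^ (-t) ≤ (w : ℝ) ^ (-(1 : ℝ) / C) := by
    apply Real.rpow_le_rpow_of_exponent_le (by exact_mod_cast hw)
    rw [neg_div]
    exact neg_le_neg ht
  unfold er
  linarith

theorem er_le_two {C : ℕ} (hC : 1 ≤ C) (A : ℕ) {w : ℕ} (hw : 1 ≤ w) : er C A w ≤ 2 := by
  unfold er
  have hC0 : (0 : ℝ) < C := by exact_mod_cast hC
  have h1 : (2 : ℝ) ^ (-(A : ℝ) / C) ≤ 1 := by
    apply Real.rpow_le_one_of_one_le_of_nonpos (by norm_num)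
    rw [neg_div]
    exact neg_nonpos.mpr (by positivity)
  have h2 : (w : ℝ) ^ (-(1 : ℝ) / C) ≤ 1 := by
    apply Real.rpow_le_one_of_one_le_of_nonpos (by exact_mod_cast hw)
    rw [neg_div]
    exact neg_nonpos.mpr (by positivity)
  linarith

/-! ## the setup -/

/-- standing assumptions -/
structure Stp (C A w z W N : ℕ) (S : Finset ℕ) : Prop where
  hA : C ≤ A
  hw : C ≤ w
  hz : 2 ≤ z
  hS : PSet w z S
  hW : IsW w W
  hN : z ^ (C * A) ≤ N

theorem Stp.mono {C C' A w z W N : ℕ} {S : Finset ℕ} (h : Stp C A w z W N S) (hC : C' ≤ C) :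
    Stp C' A w z W N S := by
  refine ⟨hC.trans h.hA, hC.trans h.hw, h.hz, h.hS, h.hW, le_trans ?_ h.hN⟩
  exact Nat.pow_le_pow_right (by have := h.hz; omega) (Nat.mul_le_mul_right _ hC)

/-- powers of `z` are negligible -/
theorem Stp.zpow {C A w z W N : ℕ} {S : Finset ℕ} (h : Stp C A w z W N S) {D : ℕ} (hD : 1 ≤ D)
    {k : ℕ} (hk : k + 2 ≤ C) : (z : ℝ) ^ (A + k) ≤ er D A w * N := by
  have h1 : (z : ℝ) ^ (A + k) ≤ (1 / 2 : ℝ) ^ A * N := by
    have hz : (2 : ℝ) ≤ z := by exact_mod_cast h.hz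
    have hA := h.hA
    have h2 : (2 : ℝ) ^ A * (z : ℝ) ^ (A + k) ≤ N := by
      calc (2 : ℝ) ^ A * (z : ℝ) ^ (A + k) ≤ (z : ℝ) ^ A * (z : ℝ) ^ (A + k) := by gcongr
        _ = (z : ℝ) ^ (A + (A + k)) := by rw [← pow_add]
        _ ≤ (z : ℝ) ^ (C * A) := by
            apply pow_le_pow_right₀ (by linarith)
            have : (k + 2) * A ≤ C * A := Nat.mul_le_mul_right _ hk
            have h3 : k ≤ k * A := Nat.le_mul_of_pos_right _ (by omega)
            nlinarith
        _ ≤ N := by exact_mod_cast h.hN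
    have h3 : (1 / 2 : ℝ) ^ A * ((2 : ℝ) ^ A * (z : ℝ) ^ (A + k)) = (z : ℝ) ^ (A + k) := by
      rw [← mul_assoc, ← mul_pow]
      norm_num
    rw [← h3]
    gcongr
  exact h1.trans (mul_le_mul_of_nonneg_right (er_two_pow hD A w) (Nat.cast_nonneg _))

theorem Stp.w_pos {C A w z W N : ℕ} {S : Finset ℕ} (h : Stp C A w z W N S) (hC : 1 ≤ C) : 1 ≤ w :=
  hC.trans h.hw

/-- units -/
theorem Stp.unitW {C A w z W N : ℕ} {S : Finset ℕ} (h : Stp C A w z W N S) :
    ∀ p ∈ S, ¬ (p : ℤ) ∣ (W : ℤ) := h.hW.not_dvd h.hS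

theorem Stp.unit_small {C A w z W N : ℕ} {S : Finset ℕ} (h : Stp C A w z W N S) (hC : 2 ≤ C)
    {ε : ℤ} (h0 : ε ≠ 0) (h2 : |ε| ≤ 2) : ∀ p ∈ S, ¬ (p : ℤ) ∣ ε := by
  intro p hp hd
  obtain ⟨h1, h3, -⟩ := h.hS p hp
  have h4 := h.hw
  have h5 : (p : ℤ) ≤ |ε| := Int.le_of_dvd (abs_pos.mpr h0) ((dvd_abs _ _).mpr hd)
  omega

theorem unit_mul {w z : ℕ} {S : Finset ℕ} (hS : PSet w z S) {a b : ℤ}
    (ha : ∀ p ∈ S, ¬ (p : ℤ) ∣ a) (hb : ∀ p ∈ S, ¬ (p : ℤ) ∣ b) :
    ∀ p ∈ S, ¬ (p : ℤ) ∣ a * b := by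
  intro p hp hd
  have h1 := (hS p hp).1
  rcases (Nat.prime_iff_prime_int.mp h1).dvd_or_dvd hd with h | h
  · exact ha p hp h
  · exact hb p hp h

theorem unit_neg {S : Finset ℕ} {a : ℤ} (ha : ∀ p ∈ S, ¬ (p : ℤ) ∣ a) :
    ∀ p ∈ S, ¬ (p : ℤ) ∣ -a := by
  intro p hp hd
  exact ha p hp ((dvd_neg).mp hd)

theorem unit_one {w z : ℕ} {S : Finset ℕ} (hS : PSet w z S) : ∀ p ∈ S, ¬ (p : ℤ) ∣ 1 := by
  intro p hp hd
  have h1 := (hS p hp).1.one_lt
  have := Int.le_of_dvd one_pos hd
  omega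

/-- the primes of `S` are few -/
theorem PSet.card_le {w z : ℕ} {S : Finset ℕ} (hS : PSet w z S) : S.card ≤ z := by
  have : S ⊆ Finset.Icc 1 z := by
    intro p hp
    obtain ⟨h1, h2, h3⟩ := hS p hp
    exact Finset.mem_Icc.mpr ⟨h1.pos, h3⟩
  simpa using Finset.card_le_card this


/-! ## correlations for subfamilies -/

theorem sum_comp_inj_le {ι κ : Type*} [Fintype ι] [Fintype κ] {φ : ι → κ}
    (hφ : Function.Injective φ) {h : κ → ℝ} (hh : ∀ i, 0 ≤ h i) : ∑ i, h (φ i) ≤ ∑ i, h i := by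
  have : ∑ i, h (φ i) = ∑ x ∈ Finset.univ.map ⟨φ, hφ⟩, h x := by
    rw [Finset.sum_map]
    rfl
  rw [this]
  exact Finset.sum_le_sum_of_subset_of_nonneg (Finset.subset_univ _) fun i _ _ => hh i

/-- crossing relation for arbitrary index types -/
def crs {ι υ : Type*} (i j : ι ⊕ (υ × Bool)) : Prop :=
  i ≠ j ∧ ¬ ∃ t : υ, ∃ a b : Bool, i = .inr (t, a) ∧ j = .inr (t, b)

open Classical in
theorem corr_sub (ι υ : Type) [Fintype ι] [Fintype υ] : ∃ C : ℕ, 1 ≤ C ∧
    ∀ (A w z : ℕ) (S : Finset ℕ), C ≤ A → C ≤ w → 2 ≤ z →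
    PSet w z S → ∀ (α β : ι ⊕ (υ × Bool) → ℤ), (∀ p ∈ S, ∀ i, ¬ (p : ℤ) ∣ α i) →
    ∀ (T : Finset ι) (U : Finset υ) (a b : ℤ), a ≤ b →
    |∑ x ∈ Finset.Ico a b,
        (∏ i ∈ T, rho S (α (.inl i) * x + β (.inl i))) *
        (∏ j ∈ U, rho S (α (.inr (j, false)) * x + β (.inr (j, false))) *
          rho S (α (.inr (j, true)) * x + β (.inr (j, true))) /
          SGp S (disc α β (.inr (j, false)) (.inr (j, true)))) - (b - a)| ≤
      (b - a) * (C * er C A w +
        C * ∑ i, ∑ j, if crs i j then Ers (9 / 10) S (disc α β i j) else 0)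
        + C * (z : ℝ) ^ (A + Fintype.card ι + 2 * Fintype.card υ) := by
  choose Cc hc1 hc using fun k m : ℕ => corr k m
  refine ⟨∑ k ∈ range (Fintype.card ι + 1), ∑ m ∈ range (Fintype.card υ + 1), Cc k m, ?_, ?_⟩
  · calc 1 ≤ Cc 0 0 := hc1 0 0
      _ ≤ ∑ m ∈ range (Fintype.card υ + 1), Cc 0 m :=
        Finset.single_le_sum (f := fun m => Cc 0 m) (fun _ _ => Nat.zero_le _) (by simp)
      _ ≤ _ := Finset.single_le_sum (f := fun k => ∑ m ∈ range (Fintype.card υ + 1), Cc k m)
        (fun _ _ => Nat.zero_le _) (by simp)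
  intro A w z S hA hw hz hS α β hα T U a b hab
  set C := ∑ k ∈ range (Fintype.card ι + 1), ∑ m ∈ range (Fintype.card υ + 1), Cc k m with hC
  have hle : Cc T.card U.card ≤ C := by
    have h1 : T.card ≤ Fintype.card ι := Finset.card_le_univ T
    have h2 : U.card ≤ Fintype.card υ := Finset.card_le_univ U
    calc Cc T.card U.card ≤ ∑ m ∈ range (Fintype.card υ + 1), Cc T.card m :=
        Finset.single_le_sum (f := fun m => Cc T.card m) (fun _ _ => Nat.zero_le _)
          (Finset.mem_range.mpr (by omega))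
      _ ≤ _ := Finset.single_le_sum (f := fun k => ∑ m ∈ range (Fintype.card υ + 1), Cc k m)
        (fun _ _ => Nat.zero_le _) (Finset.mem_range.mpr (by omega))
  let eT : Fin T.card ≃ T := T.equivFin.symm
  let eU : Fin U.card ≃ U := U.equivFin.symm
  let φ : Fin T.card ⊕ (Fin U.card × Bool) → ι ⊕ (υ × Bool) :=
    Sum.map (fun i => (eT i : ι)) (Prod.map (fun u => (eU u : υ)) id)
  have heT : Function.Injective (fun i => (eT i : ι)) :=
    Subtype.val_injective.comp eT.injective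
  have heU : Function.Injective (fun i => (eU i : υ)) :=
    Subtype.val_injective.comp eU.injective
  have hφ : Function.Injective φ := heT.sumMap (heU.prodMap Function.injective_id)
  have key := hc T.card U.card A w z S (hle.trans hA) (hle.trans hw) hz hS (α ∘ φ) (β ∘ φ)
    (fun p hp i => hα p hp (φ i)) a b hab
  have e1 : ∀ x : ℤ, (∏ i : Fin T.card, rho S ((α ∘ φ) (.inl i) * x + (β ∘ φ) (.inl i))) =
      ∏ i ∈ T, rho S (α (.inl i) * x + β (.inl i)) := by
    intro x
    rw [← Finset.prod_coe_sort T (fun i => rho S (α (.inl i) * x + β (.inl i)))]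
    exact Equiv.prod_comp eT (fun i : T => rho S (α (.inl (i : ι)) * x + β (.inl (i : ι))))
  have e2 : ∀ x : ℤ, (∏ j : Fin U.card,
      rho S ((α ∘ φ) (.inr (j, false)) * x + (β ∘ φ) (.inr (j, false))) *
      rho S ((α ∘ φ) (.inr (j, true)) * x + (β ∘ φ) (.inr (j, true))) /
      SGp S (disc (α ∘ φ) (β ∘ φ) (.inr (j, false)) (.inr (j, true)))) =
      ∏ j ∈ U, rho S (α (.inr (j, false)) * x + β (.inr (j, false))) *
          rho S (α (.inr (j, true)) * x + β (.inr (j, true))) /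
          SGp S (disc α β (.inr (j, false)) (.inr (j, true))) := by
    intro x
    rw [← Finset.prod_coe_sort U (fun j => rho S (α (.inr (j, false)) * x + β (.inr (j, false))) *
          rho S (α (.inr (j, true)) * x + β (.inr (j, true))) /
          SGp S (disc α β (.inr (j, false)) (.inr (j, true))))]
    exact Equiv.prod_comp eU (fun j : U => rho S (α (.inr ((j : υ), false)) * x +
      β (.inr ((j : υ), false))) *
          rho S (α (.inr ((j : υ), true)) * x + β (.inr ((j : υ), true))) /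
          SGp S (disc α β (.inr ((j : υ), false)) (.inr ((j : υ), true))))
  simp only [e1, e2] at key
  refine key.trans ?_
  have hab' : (0 : ℝ) ≤ (b : ℝ) - a := by
    have : (a : ℝ) ≤ b := by exact_mod_cast hab
    linarith
  have hCr : (Cc T.card U.card : ℝ) ≤ C := by exact_mod_cast hle
  have her : er (Cc T.card U.card) A w ≤ er C A w :=
    er_mono (hc1 _ _) hle A ((hc1 _ _).trans (hle.trans hw))
  have hs : ∑ i, ∑ j ∈ Finset.univ.filter (fun j => crossing i j),
      Ers (9 / 10) S (disc (α ∘ φ) (β ∘ φ) i j) ≤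
      ∑ i, ∑ j, if crs i j then Ers (9 / 10) S (disc α β i j) else 0 := by
    calc ∑ i, ∑ j ∈ Finset.univ.filter (fun j => crossing i j),
        Ers (9 / 10) S (disc (α ∘ φ) (β ∘ φ) i j)
        ≤ ∑ i, ∑ j, if crs (φ i) j then Ers (9 / 10) S (disc α β (φ i) j) else 0 := by
          apply Finset.sum_le_sum
          intro i _
          rw [Finset.sum_filter]
          refine le_trans ?_ (sum_comp_inj_le hφ (h := fun j => if crs (φ i) j then
            Ers (9 / 10) S (disc α β (φ i) j) else 0) ?_)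
          · apply Finset.sum_le_sum
            intro j _
            by_cases h : crossing i j
            · have h' : crs (φ i) (φ j) := by
                refine ⟨fun h1 => h.1 (hφ h1), ?_⟩
                rintro ⟨t, c, d, h2, h3⟩
                apply h.2
                rcases i with i | ⟨i, c'⟩
                · simp [φ] at h2
                rcases j with j | ⟨j, d'⟩
                · simp [φ] at h3
                simp only [Sum.map_inr, Sum.inr.injEq, φ, Prod.map_apply, id_eq,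
                  Prod.mk.injEq] at h2 h3
                refine ⟨i, c', d', rfl, ?_⟩
                have : (eU i : υ) = (eU j : υ) := by rw [h2.1, h3.1]
                rw [heU this]
              simp only [h, h', if_true]
              exact le_rfl
            · simp only [h, if_false]
              split_ifs
              · exact Ers_nonneg _ _ _
              · exact le_rfl
          · intro j
            split_ifs
            · exact Ers_nonneg _ _ _
            · exact le_rfl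
      _ ≤ _ := by
          apply sum_comp_inj_le hφ (h := fun i => ∑ j, if crs i j then
            Ers (9 / 10) S (disc α β i j) else 0)
          intro i
          apply Finset.sum_nonneg
          intro j _
          split_ifs
          · exact Ers_nonneg _ _ _
          · exact le_rfl
  have hs0 : 0 ≤ ∑ i, ∑ j ∈ Finset.univ.filter (fun j => crossing i j),
      Ers (9 / 10) S (disc (α ∘ φ) (β ∘ φ) i j) :=
    Finset.sum_nonneg fun _ _ => Finset.sum_nonneg fun _ _ => Ers_nonneg _ _ _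
  have hz1 : (1 : ℝ) ≤ z := by exact_mod_cast (by omega : 1 ≤ z)
  have hT : T.card ≤ Fintype.card ι := Finset.card_le_univ T
  have hU : U.card ≤ Fintype.card υ := Finset.card_le_univ U
  have her0 := er_nonneg (Cc T.card U.card) A w
  have hzz : (z : ℝ) ^ (A + T.card + 2 * U.card) ≤
      (z : ℝ) ^ (A + Fintype.card ι + 2 * Fintype.card υ) :=
    pow_le_pow_right₀ hz1 (by omega)
  gcongr

open Classical in
theorem corr0_sub (ι : Type) [Fintype ι] : ∃ C : ℕ, 1 ≤ C ∧
    ∀ (A w z : ℕ) (S : Finset ℕ), C ≤ A → C ≤ w → 2 ≤ z →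
    PSet w z S → ∀ (α β : ι → ℤ), (∀ p ∈ S, ∀ i, ¬ (p : ℤ) ∣ α i) →
    ∀ (T : Finset ι) (a b : ℤ), a ≤ b →
    |∑ x ∈ Finset.Ico a b, (∏ i ∈ T, rho S (α i * x + β i)) - (b - a)| ≤
      (b - a) * (C * er C A w +
        C * ∑ i, ∑ j, if i ≠ j then Ers (9 / 10) S (disc α β i j) else 0)
        + C * (z : ℝ) ^ (A + Fintype.card ι) := by
  choose Cc hc1 hc using fun k : ℕ => corr0 k
  refine ⟨∑ k ∈ range (Fintype.card ι + 1), Cc k, ?_, ?_⟩
  · calc 1 ≤ Cc 0 := hc1 0
      _ ≤ _ := Finset.single_le_sum (f := fun k => Cc k)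
        (fun _ _ => Nat.zero_le _) (by simp)
  intro A w z S hA hw hz hS α β hα T a b hab
  set C := ∑ k ∈ range (Fintype.card ι + 1), Cc k with hC
  have hle : Cc T.card ≤ C := by
    have h1 : T.card ≤ Fintype.card ι := Finset.card_le_univ T
    exact Finset.single_le_sum (f := fun k => Cc k)
        (fun _ _ => Nat.zero_le _) (Finset.mem_range.mpr (by omega))
  let eT : Fin T.card ≃ T := T.equivFin.symm
  let φ : Fin T.card → ι := fun i => (eT i : ι)
  have hφ : Function.Injective φ := Subtype.val_injective.comp eT.injective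
  have key := hc T.card A w z S (hle.trans hA) (hle.trans hw) hz hS (α ∘ φ) (β ∘ φ)
    (fun p hp i => hα p hp (φ i)) a b hab
  have e1 : ∀ x : ℤ, (∏ i : Fin T.card, rho S ((α ∘ φ) i * x + (β ∘ φ) i)) =
      ∏ i ∈ T, rho S (α i * x + β i) := by
    intro x
    rw [← Finset.prod_coe_sort T (fun i => rho S (α i * x + β i))]
    exact Equiv.prod_comp eT (fun i : T => rho S (α (i : ι) * x + β (i : ι)))
  simp only [e1] at key
  refine key.trans ?_
  have hab' : (0 : ℝ) ≤ (b : ℝ) - a := by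
    have : (a : ℝ) ≤ b := by exact_mod_cast hab
    linarith
  have hCr : (Cc T.card : ℝ) ≤ C := by exact_mod_cast hle
  have her : er (Cc T.card) A w ≤ er C A w :=
    er_mono (hc1 _) hle A ((hc1 _).trans (hle.trans hw))
  have hs : ∑ i, ∑ j ∈ Finset.univ.filter (fun j => i ≠ j),
      Ers (9 / 10) S (disc (α ∘ φ) (β ∘ φ) i j) ≤
      ∑ i, ∑ j, if i ≠ j then Ers (9 / 10) S (disc α β i j) else 0 := by
    calc ∑ i, ∑ j ∈ Finset.univ.filter (fun j => i ≠ j),
        Ers (9 / 10) S (disc (α ∘ φ) (β ∘ φ) i j)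
        ≤ ∑ i, ∑ j, if φ i ≠ j then Ers (9 / 10) S (disc α β (φ i) j) else 0 := by
          apply Finset.sum_le_sum
          intro i _
          rw [Finset.sum_filter]
          refine le_trans ?_ (sum_comp_inj_le hφ (h := fun j => if φ i ≠ j then
            Ers (9 / 10) S (disc α β (φ i) j) else 0) ?_)
          · apply Finset.sum_le_sum
            intro j _
            by_cases h : i ≠ j
            · have h' : φ i ≠ φ j := fun h1 => h (hφ h1)
              rw [if_pos h, if_pos h']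
              exact le_rfl
            · rw [if_neg h]
              split_ifs
              · exact Ers_nonneg _ _ _
              · exact le_rfl
          · intro j
            split_ifs
            · exact Ers_nonneg _ _ _
            · exact le_rfl
      _ ≤ _ := by
          apply sum_comp_inj_le hφ (h := fun i => ∑ j, if i ≠ j then
            Ers (9 / 10) S (disc α β i j) else 0)
          intro i
          apply Finset.sum_nonneg
          intro j _
          split_ifs
          · exact Ers_nonneg _ _ _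
          · exact le_rfl
  have hs0 : 0 ≤ ∑ i, ∑ j ∈ Finset.univ.filter (fun j => i ≠ j),
      Ers (9 / 10) S (disc (α ∘ φ) (β ∘ φ) i j) :=
    Finset.sum_nonneg fun _ _ => Finset.sum_nonneg fun _ _ => Ers_nonneg _ _ _
  have hz1 : (1 : ℝ) ≤ z := by exact_mod_cast (by omega : 1 ≤ z)
  have hT : T.card ≤ Fintype.card ι := Finset.card_le_univ T
  have her0 := er_nonneg (Cc T.card) A w
  have hzz : (z : ℝ) ^ (A + T.card) ≤ (z : ℝ) ^ (A + Fintype.card ι) :=
    pow_le_pow_right₀ hz1 (by omega)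
  gcongr

open Classical in
theorem corrAP_sub (ι : Type) [Fintype ι] : ∃ C : ℕ, 1 ≤ C ∧
    ∀ (A w z : ℕ) (S : Finset ℕ), C ≤ A → C ≤ w → 2 ≤ z →
    PSet w z S → ∀ (α β : ι → ℤ), (∀ p ∈ S, ∀ i, ¬ (p : ℤ) ∣ α i) →
    ∀ (T : Finset ι) (a b : ℤ), a ≤ b → ∀ q ∈ S, ∀ c : ℤ,
    ∑ x ∈ (Finset.Ico a b).filter (fun x => (q : ℤ) ∣ x - c), ∏ i ∈ T, rho S (α i * x + β i) ≤
      C * ((b - a) / q * (1 + ∑ i, ∑ j, if i ≠ j then Ers (9 / 10) S (disc α β i j) else 0)
        + (z : ℝ) ^ (A + Fintype.card ι)) := by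
  choose Cc hc1 hc using fun k : ℕ => corrAP k
  refine ⟨∑ k ∈ range (Fintype.card ι + 1), Cc k, ?_, ?_⟩
  · calc 1 ≤ Cc 0 := hc1 0
      _ ≤ _ := Finset.single_le_sum (f := fun k => Cc k)
        (fun _ _ => Nat.zero_le _) (by simp)
  intro A w z S hA hw hz hS α β hα T a b hab q hq c
  set C := ∑ k ∈ range (Fintype.card ι + 1), Cc k with hC
  have hle : Cc T.card ≤ C := by
    have h1 : T.card ≤ Fintype.card ι := Finset.card_le_univ T
    exact Finset.single_le_sum (f := fun k => Cc k)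
        (fun _ _ => Nat.zero_le _) (Finset.mem_range.mpr (by omega))
  let eT : Fin T.card ≃ T := T.equivFin.symm
  let φ : Fin T.card → ι := fun i => (eT i : ι)
  have hφ : Function.Injective φ := Subtype.val_injective.comp eT.injective
  have key := hc T.card A w z S (hle.trans hA) (hle.trans hw) hz hS (α ∘ φ) (β ∘ φ)
    (fun p hp i => hα p hp (φ i)) a b hab q hq c
  have e1 : ∀ x : ℤ, (∏ i : Fin T.card, rho S ((α ∘ φ) i * x + (β ∘ φ) i)) =
      ∏ i ∈ T, rho S (α i * x + β i) := by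
    intro x
    rw [← Finset.prod_coe_sort T (fun i => rho S (α i * x + β i))]
    exact Equiv.prod_comp eT (fun i : T => rho S (α (i : ι) * x + β (i : ι)))
  simp only [e1] at key
  refine key.trans ?_
  have hab' : (0 : ℝ) ≤ (b : ℝ) - a := by
    have : (a : ℝ) ≤ b := by exact_mod_cast hab
    linarith
  have hCr : (Cc T.card : ℝ) ≤ C := by exact_mod_cast hle
  have hs : ∑ i, ∑ j ∈ Finset.univ.filter (fun j => i ≠ j),
      Ers (9 / 10) S (disc (α ∘ φ) (β ∘ φ) i j) ≤
      ∑ i, ∑ j, if i ≠ j then Ers (9 / 10) S (disc α β i j) else 0 := by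
    calc ∑ i, ∑ j ∈ Finset.univ.filter (fun j => i ≠ j),
        Ers (9 / 10) S (disc (α ∘ φ) (β ∘ φ) i j)
        ≤ ∑ i, ∑ j, if φ i ≠ j then Ers (9 / 10) S (disc α β (φ i) j) else 0 := by
          apply Finset.sum_le_sum
          intro i _
          rw [Finset.sum_filter]
          refine le_trans ?_ (sum_comp_inj_le hφ (h := fun j => if φ i ≠ j then
            Ers (9 / 10) S (disc α β (φ i) j) else 0) ?_)
          · apply Finset.sum_le_sum
            intro j _
            by_cases h : i ≠ j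
            · have h' : φ i ≠ φ j := fun h1 => h (hφ h1)
              rw [if_pos h, if_pos h']
              exact le_rfl
            · rw [if_neg h]
              split_ifs
              · exact Ers_nonneg _ _ _
              · exact le_rfl
          · intro j
            split_ifs
            · exact Ers_nonneg _ _ _
            · exact le_rfl
      _ ≤ _ := by
          apply sum_comp_inj_le hφ (h := fun i => ∑ j, if i ≠ j then
            Ers (9 / 10) S (disc α β i j) else 0)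
          intro i
          apply Finset.sum_nonneg
          intro j _
          split_ifs
          · exact Ers_nonneg _ _ _
          · exact le_rfl
  have hs0 : 0 ≤ ∑ i, ∑ j ∈ Finset.univ.filter (fun j => i ≠ j),
      Ers (9 / 10) S (disc (α ∘ φ) (β ∘ φ) i j) :=
    Finset.sum_nonneg fun _ _ => Finset.sum_nonneg fun _ _ => Ers_nonneg _ _ _
  have hz1 : (1 : ℝ) ≤ z := by exact_mod_cast (by omega : 1 ≤ z)
  have hT : T.card ≤ Fintype.card ι := Finset.card_le_univ T
  have hzz : (z : ℝ) ^ (A + T.card) ≤ (z : ℝ) ^ (A + Fintype.card ι) :=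
    pow_le_pow_right₀ hz1 (by omega)
  gcongr

end Pool.Agent.Lib.H18GB
end
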