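import Pool.Agent.Lib.H1M.RV.M002
import Pool.Agent.Lib.H1M.RV.M014
import Pool.Agent.Lib.H1M.RV.M025
import Pool.Agent.Lib.H1M.RV.M031

/-! Merged copies (to shorten the build) of Lib.H18E.CM, Lib.H18E.CC, Lib.H18Q.CDefs, Lib.H18Q.CC1, Lib.H18GB.TU3Avg. -/

-- from Lib.H18E.CM
section

/-!
# Chunk CM: many classes on which the exceptional character is `-1` twice
-/

open Finset

namespace Pool.Agent.Lib.H18E

theorem CM_compat (r x : ℕ) [NeZero r] (P : ZMod r → Prop) :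
    open Classical in
    ((compat r x).filter (fun y : ℕ => P (y : ZMod r))).card =
      (univ.filter (fun y : ZMod r => (IsUnit ((x : ZMod r) + y) ∧ IsUnit ((x : ZMod r) - y)) ∧
        P y)).card := by
  classical
  have hu : ∀ y : ℕ, (IsCoprime ((x : ℤ) + y) r ∧ IsCoprime ((x : ℤ) - y) r) ↔
      (IsUnit ((x : ZMod r) + (y : ZMod r)) ∧ IsUnit ((x : ZMod r) - (y : ZMod r))) := by
    intro y
    have h1 : IsUnit ((x : ZMod r) + (y : ZMod r)) ↔ IsCoprime ((x : ℤ) + y) r := by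
      have := ZMod.coe_int_isUnit_iff_isCoprime ((x : ℤ) + y) r
      push_cast at this
      rw [this]
      exact isCoprime_comm
    have h2 : IsUnit ((x : ZMod r) - (y : ZMod r)) ↔ IsCoprime ((x : ℤ) - y) r := by
      have := ZMod.coe_int_isUnit_iff_isCoprime ((x : ℤ) - y) r
      push_cast at this
      rw [this]
      exact isCoprime_comm
    rw [h1, h2]
  apply Finset.card_bij (fun (y : ℕ) _ => (y : ZMod r))
  · intro y hy
    rw [mem_filter, compat, mem_filter, hu] at hy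
    rw [mem_filter]
    exact ⟨mem_univ _, hy.1.2, hy.2⟩
  · intro y hy z hz hyz
    rw [mem_filter, compat, mem_filter, mem_range] at hy hz
    rw [ZMod.natCast_eq_natCast_iff'] at hyz
    rwa [Nat.mod_eq_of_lt hy.1.1, Nat.mod_eq_of_lt hz.1.1] at hyz
  · intro y hy
    rw [mem_filter] at hy
    refine ⟨y.val, ?_, by simp⟩
    rw [mem_filter, compat, mem_filter, mem_range, hu]
    have : ((y.val : ℕ) : ZMod r) = y := by simp
    rw [this]
    exact ⟨⟨ZMod.val_lt y, hy.2.1⟩, hy.2.2⟩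

theorem CM_ex (r : ℕ) [NeZero r] (ψ : DirichletCharacter ℂ r) (hψ : ψ.IsPrimitive)
    (m : ℕ) (hm : m ∣ r) (hlt : m < r) :
    ∃ u : (ZMod r)ˣ, ZMod.unitsMap hm u = 1 ∧ ψ (u : ZMod r) ≠ 1 := by
  by_contra hcon
  push Not at hcon
  have hm0 : 0 < m := Nat.pos_of_dvd_of_pos hm (NeZero.pos r)
  have hf : DirichletCharacter.FactorsThrough ψ m := by
    rw [DirichletCharacter.factorsThrough_iff_ker_unitsMap hm]
    intro u hu
    rw [MonoidHom.mem_ker] at hu ⊢
    apply Units.ext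
    simpa using hcon u hu
  have h7 : ψ.conductor ≤ m :=
    Nat.le_of_dvd hm0 (DirichletCharacter.conductor_dvd_of_mem_conductorSet _ hf)
  rw [(DirichletCharacter.isPrimitive_def ψ).1 hψ] at h7
  omega

theorem CM_val (r : ℕ) [NeZero r] (ψ : DirichletCharacter ℂ r) (h2 : ψ ^ 2 = 1) (z : ZMod r)
    (hz : IsUnit z) : ψ z = 1 ∨ ψ z = -1 := by
  have h3 : (ψ ^ 2) z = 1 := by
    rw [h2]; exact MulChar.one_apply hz
  rw [MulChar.pow_apply' _ two_ne_zero] at h3
  have h4 : (ψ z - 1) * (ψ z + 1) = 0 := by linear_combination h3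
  rcases mul_eq_zero.1 h4 with h5 | h5
  · left; linear_combination h5
  · right; linear_combination h5

/-- `r = p r'` with `(p, r') = 1` (`sq_not_dvd`). By the Chinese remainder theorem (`ZMod.chineseRemainder`)
`ψ(z) = θ(z mod p) ψ'(z mod r')` with `θ(u) = ψ((u,1))`, `ψ'(v) = ψ((1,v))`; `θ ≠ 1`, otherwise `ψ`
factors through `r'` (contradiction to primitivity). The compatible classes `y` modulo `r` are the
pairs of a class `y'` modulo `r'` with `x ± y'` units and a class modulo `p` with `y ≠ ± x` (`p - 2`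
classes, as `p ∤ 2 x`). For each `y'` the values `ψ'(x + y')`, `ψ'(s (x - y'))` are `± 1` and `cl_local`
gives at least `(p-2)/10` classes modulo `p`. -/
theorem cm_class (r : ℕ) [NeZero r] (ψ : DirichletCharacter ℂ r) (hψ : ψ.IsPrimitive)
    (h2 : ψ ^ 2 = 1) (p : ℕ) (hp : p.Prime) (h7 : 7 ≤ p) (hpr : p ∣ r) (x : ℕ) (hx : ¬ p ∣ x)
    (s : ℤ) (hs : s = 1 ∨ s = -1) :
    open Classical in
    ((compat r x).card : ℝ) / 10 ≤
      (((compat r x).filter (fun y : ℕ => ψ ((x : ZMod r) + y) = -1 ∧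
        ψ ((s : ZMod r) * ((x : ZMod r) - y)) = -1)).card : ℝ) := by
  classical
  obtain ⟨q, rfl⟩ := hpr
  have hq0 : q ≠ 0 := by
    rintro rfl
    exact NeZero.ne (p * 0) (by simp)
  have : NeZero q := ⟨hq0⟩
  have : Fact p.Prime := ⟨hp⟩
  have hcop : Nat.Coprime p q := by
    rw [hp.coprime_iff_not_dvd]
    rintro ⟨k, rfl⟩
    exact sq_not_dvd _ ψ hψ h2 p hp (by omega) ⟨k, by ring⟩
  obtain ⟨e, he⟩ : ∃ e : ZMod (p * q) ≃+* ZMod p × ZMod q, e = ZMod.chineseRemainder hcop := ⟨_, rfl⟩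
  have hc1 : ((compat (p * q) x).card : ℝ) = ((univ.filter (fun y : ZMod (p * q) =>
      (IsUnit ((x : ZMod (p * q)) + y) ∧ IsUnit ((x : ZMod (p * q)) - y)) ∧ True)).card : ℝ) := by
    have h := CM_compat (p * q) x (fun _ => True)
    have h' := congrArg (fun k : ℕ => (k : ℝ)) h
    refine Eq.trans ?_ (Eq.trans h' ?_)
    · have : (compat (p * q) x) = (compat (p * q) x).filter (fun _ => True) := by
        ext y
        simp
      exact congrArg (fun F : Finset ℕ => (F.card : ℝ)) (this.trans (by congr!))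
    · exact congrArg (fun F : Finset (ZMod (p * q)) => (F.card : ℝ)) (by congr!)
  have hc2 : (((compat (p * q) x).filter (fun y : ℕ => ψ ((x : ZMod (p * q)) + y) = -1 ∧
        ψ ((s : ZMod (p * q)) * ((x : ZMod (p * q)) - y)) = -1)).card : ℝ) =
      ((univ.filter (fun y : ZMod (p * q) =>
      (IsUnit ((x : ZMod (p * q)) + y) ∧ IsUnit ((x : ZMod (p * q)) - y)) ∧
      (ψ ((x : ZMod (p * q)) + y) = -1 ∧
        ψ ((s : ZMod (p * q)) * ((x : ZMod (p * q)) - y)) = -1))).card : ℝ) := by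
    have h := CM_compat (p * q) x (fun y => ψ ((x : ZMod (p * q)) + y) = -1 ∧
        ψ ((s : ZMod (p * q)) * ((x : ZMod (p * q)) - y)) = -1)
    exact_mod_cast h
  -- the local character
  have hunit : ∀ z : ZMod p × ZMod q, IsUnit (e.symm z) ↔ IsUnit z.1 ∧ IsUnit z.2 := by
    intro z
    rw [← Prod.isUnit_iff]
    exact MulEquiv.isUnit_map e.symm
  have hθ : ∃ θ : MulChar (ZMod p) ℂ, ∀ z, θ z = ψ (e.symm (z, 1)) := by
    refine ⟨{ toFun := fun z => ψ (e.symm (z, 1)), map_one' := ?_, map_mul' := ?_,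
              map_nonunit' := ?_ }, fun z => rfl⟩
    · have : ((1 : ZMod p), (1 : ZMod q)) = 1 := rfl
      simp only [this, map_one]
    · intro a b
      rw [← map_mul, ← map_mul]
      simp
    · intro a ha
      apply MulChar.map_nonunit
      rw [hunit]
      exact fun h => ha h.1
  obtain ⟨θ, hθ⟩ := hθ
  have hmul : ∀ (a : ZMod p) (b : ZMod q), ψ (e.symm (a, b)) = θ a * ψ (e.symm (1, b)) := by
    intro a b
    rw [hθ, ← map_mul, ← map_mul]
    simp
  have hθ2 : θ ^ 2 = 1 := by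
    apply MulChar.ext
    intro a
    rw [MulChar.pow_apply_coe, MulChar.one_apply_coe, hθ]
    have h3 : IsUnit (e.symm ((a : ZMod p), (1 : ZMod q))) := (hunit _).2 ⟨a.isUnit, isUnit_one⟩
    rcases CM_val _ ψ h2 _ h3 with h | h <;> rw [h] <;> norm_num
  have hθ1 : θ ≠ 1 := by
    intro h
    have hlt : q < p * q := by
      have : 0 < q := Nat.pos_of_ne_zero hq0
      nlinarith
    obtain ⟨u, hu1, hu2⟩ := CM_ex (p * q) ψ hψ q (Dvd.intro_left p rfl) hlt
    apply hu2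
    have h3 : (e (u : ZMod (p * q))).2 = 1 := by
      have h4 : (RingHom.snd (ZMod p) (ZMod q)).comp (e : ZMod (p * q) →+* ZMod p × ZMod q) =
          ZMod.castHom (Dvd.intro_left p rfl : q ∣ p * q) (ZMod q) := Subsingleton.elim _ _
      have h5 : (e (u : ZMod (p * q))).2 = ZMod.castHom (Dvd.intro_left p rfl : q ∣ p * q) (ZMod q)
          (u : ZMod (p * q)) := by rw [← h4]; rfl
      rw [h5]
      have := congrArg (fun z : (ZMod q)ˣ => (z : ZMod q)) hu1
      simpa [ZMod.unitsMap_def] using this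
    have h6 : (u : ZMod (p * q)) = e.symm ((e (u : ZMod (p * q))).1, 1) := by
      rw [← h3]; simp
    have h7 : IsUnit (e (u : ZMod (p * q))).1 := by
      have := ((hunit ((e (u : ZMod (p * q))).1, 1)).1 (h6 ▸ u.isUnit)).1
      exact this
    rw [h6, ← hθ, h]
    exact MulChar.one_apply h7
  have hex : ∀ (a : ZMod p) (b : ZMod q), (x : ZMod (p * q)) + e.symm (a, b) =
      e.symm ((x : ZMod p) + a, (x : ZMod q) + b) := by
    intro a b
    apply e.injective
    rw [map_add, e.apply_symm_apply, e.apply_symm_apply, map_natCast]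
    rfl
  have hex2 : ∀ (a : ZMod p) (b : ZMod q), (x : ZMod (p * q)) - e.symm (a, b) =
      e.symm ((x : ZMod p) - a, (x : ZMod q) - b) := by
    intro a b
    apply e.injective
    rw [map_sub, e.apply_symm_apply, e.apply_symm_apply, map_natCast]
    rfl
  have hex3 : ∀ (a : ZMod p) (b : ZMod q), (s : ZMod (p * q)) * e.symm (a, b) =
      e.symm ((s : ZMod p) * a, (s : ZMod q) * b) := by
    intro a b
    apply e.injective
    rw [map_mul, e.apply_symm_apply, e.apply_symm_apply, map_intCast]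
    rfl
  have hx0 : (x : ZMod p) ≠ 0 := by
    rw [Ne, ZMod.natCast_eq_zero_iff]; exact hx
  have h20 : (2 : ZMod p) ≠ 0 := by
    intro h
    have h3 : ((2 : ℕ) : ZMod p) = 0 := by exact_mod_cast h
    rw [ZMod.natCast_eq_zero_iff] at h3
    have := Nat.le_of_dvd (by norm_num) h3
    omega
  -- both sides as sums over the second coordinate
  have hsum : ∀ P : ZMod (p * q) → Prop,
      ((univ.filter (fun y : ZMod (p * q) => P y)).card : ℝ) =
        ∑ b : ZMod q, ((univ.filter (fun a : ZMod p => P (e.symm (a, b)))).card : ℝ) := by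
    intro P
    have h3 : ((univ.filter (fun y : ZMod (p * q) => P y)).card : ℝ) =
        ∑ y : ZMod (p * q), if P y then (1 : ℝ) else 0 := by
      rw [Finset.sum_boole]
    rw [h3, ← Fintype.sum_equiv e.symm.toEquiv (fun z => if P (e.symm z) then (1 : ℝ) else 0)
      (fun y => if P y then (1 : ℝ) else 0) (fun z => rfl), Fintype.sum_prod_type_right]
    apply Finset.sum_congr rfl
    intro b _
    rw [Finset.sum_boole]
  have e1 := hsum (fun y => (IsUnit ((x : ZMod (p * q)) + y) ∧ IsUnit ((x : ZMod (p * q)) - y)) ∧ True)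
  have e2 := hsum (fun y => (IsUnit ((x : ZMod (p * q)) + y) ∧ IsUnit ((x : ZMod (p * q)) - y)) ∧
      (ψ ((x : ZMod (p * q)) + y) = -1 ∧
        ψ ((s : ZMod (p * q)) * ((x : ZMod (p * q)) - y)) = -1))
  have e1' : ((compat (p * q) x).card : ℝ) = _ := hc1.trans (Eq.trans (by congr!) e1)
  have e2' : (((compat (p * q) x).filter (fun y : ℕ => ψ ((x : ZMod (p * q)) + y) = -1 ∧
        ψ ((s : ZMod (p * q)) * ((x : ZMod (p * q)) - y)) = -1)).card : ℝ) = _ :=
    hc2.trans (Eq.trans (by congr!) e2)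
  rw [e1']
  refine le_trans ?_ (le_of_eq (Eq.trans e2'.symm (by congr!)))
  rw [Finset.sum_div]
  apply Finset.sum_le_sum
  intro b _
  simp only [hex, hex2, hex3, hunit, and_true]
  by_cases hb : IsUnit ((x : ZMod q) + b) ∧ IsUnit ((x : ZMod q) - b)
  · -- good class
    have hsu : IsUnit (s : ZMod q) := by rcases hs with rfl | rfl <;> simp
    have hA : ((univ.filter (fun a : ZMod p => (IsUnit ((x : ZMod p) + a) ∧ IsUnit ((x : ZMod q) + b)) ∧
        IsUnit ((x : ZMod p) - a) ∧ IsUnit ((x : ZMod q) - b))).card : ℝ) ≤ p - 2 := by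
      have h3 : (univ.filter (fun a : ZMod p => (IsUnit ((x : ZMod p) + a) ∧
          IsUnit ((x : ZMod q) + b)) ∧ IsUnit ((x : ZMod p) - a) ∧ IsUnit ((x : ZMod q) - b))) ⊆
          univ \ {(x : ZMod p), -(x : ZMod p)} := by
        intro a ha
        rw [mem_filter] at ha
        rw [mem_sdiff, mem_insert, mem_singleton]
        refine ⟨mem_univ _, ?_⟩
        rintro (rfl | rfl)
        · exact (ha.2.2.1.ne_zero) (sub_self _)
        · exact (ha.2.1.1.ne_zero) (add_neg_cancel _)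
      have h4 : (x : ZMod p) ≠ -(x : ZMod p) := by
        intro h
        have : (2 : ZMod p) * x = 0 := by
          linear_combination h
        rcases mul_eq_zero.1 this with h | h
        · exact h20 h
        · exact hx0 h
      have h5 := card_le_card h3
      rw [card_sdiff_of_subset (subset_univ _), card_pair h4, card_univ, ZMod.card] at h5
      have h6 : ((univ.filter (fun a : ZMod p => (IsUnit ((x : ZMod p) + a) ∧
          IsUnit ((x : ZMod q) + b)) ∧ IsUnit ((x : ZMod p) - a) ∧ IsUnit ((x : ZMod q) - b))).card :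
          ℝ) ≤ ((p - 2 : ℕ) : ℝ) := by exact_mod_cast h5
      rw [Nat.cast_sub (by omega)] at h6
      push_cast at h6
      exact h6
    have hv1 := CM_val _ ψ h2 (e.symm (1, (x : ZMod q) + b)) ((hunit _).2 ⟨isUnit_one, hb.1⟩)
    have hv2 := CM_val _ ψ h2 (e.symm (1, (s : ZMod q) * ((x : ZMod q) - b)))
      ((hunit _).2 ⟨isUnit_one, hsu.mul hb.2⟩)
    have hcl := cl_local p h7 θ hθ1 hθ2 (x : ZMod p) hx0 (s : ZMod p)
      (by rcases hs with rfl | rfl <;> simp)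
      (-ψ (e.symm (1, (x : ZMod q) + b))) (-ψ (e.symm (1, (s : ZMod q) * ((x : ZMod q) - b))))
      (by rcases hv1 with h | h <;> rw [h] <;> simp) (by rcases hv2 with h | h <;> rw [h] <;> simp)
    have hfin : ((univ.filter (fun y : ZMod p => θ ((x : ZMod p) + y) =
        -ψ (e.symm (1, (x : ZMod q) + b)) ∧ θ ((s : ZMod p) * ((x : ZMod p) - y)) =
        -ψ (e.symm (1, (s : ZMod q) * ((x : ZMod q) - b))))).card : ℝ) ≤
        ((univ.filter (fun a : ZMod p => ((IsUnit ((x : ZMod p) + a) ∧ IsUnit ((x : ZMod q) + b)) ∧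
        IsUnit ((x : ZMod p) - a) ∧ IsUnit ((x : ZMod q) - b)) ∧
        ψ (e.symm ((x : ZMod p) + a, (x : ZMod q) + b)) = -1 ∧
        ψ (e.symm ((s : ZMod p) * ((x : ZMod p) - a), (s : ZMod q) * ((x : ZMod q) - b))) = -1)).card :
        ℝ) := by
      apply Nat.cast_le.2
      apply card_le_card
      intro a ha
      rw [mem_filter] at ha ⊢
      obtain ⟨_, ha1, ha2⟩ := ha
      have hu1 : IsUnit ((x : ZMod p) + a) := by
        by_contra h
        rw [MulChar.map_nonunit θ h] at ha1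
        rcases hv1 with h | h <;> rw [h] at ha1 <;> norm_num at ha1
      have hu2 : IsUnit ((s : ZMod p) * ((x : ZMod p) - a)) := by
        by_contra h
        rw [MulChar.map_nonunit θ h] at ha2
        rcases hv2 with h | h <;> rw [h] at ha2 <;> norm_num at ha2
      have hu3 : IsUnit ((x : ZMod p) - a) := isUnit_of_mul_isUnit_right hu2
      refine ⟨mem_univ _, ⟨⟨hu1, hb.1⟩, hu3, hb.2⟩, ?_, ?_⟩
      · rw [hmul, ha1]
        rcases hv1 with h | h <;> rw [h] <;> norm_num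
      · rw [hmul, ha2]
        rcases hv2 with h | h <;> rw [h] <;> norm_num
    refine le_trans ?_ (hcl.trans hfin)
    linarith
  · -- empty class
    have h3 : (univ.filter (fun a : ZMod p => (IsUnit ((x : ZMod p) + a) ∧ IsUnit ((x : ZMod q) + b)) ∧
        IsUnit ((x : ZMod p) - a) ∧ IsUnit ((x : ZMod q) - b))) = ∅ := by
      apply Finset.filter_eq_empty_iff.2
      intro a _ h
      exact hb ⟨h.1.2, h.2.2⟩
    rw [h3]
    simp only [card_empty, Nat.cast_zero, zero_div]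
    exact Nat.cast_nonneg _

end Pool.Agent.Lib.H18E
end

-- from Lib.H18E.CC
section

/-!
# Chunk CC: counting compatible classes
-/

open Finset Pool.Agent.Lib.H68T

namespace Pool.Agent.Lib.H18E

theorem CC_zmod (r x : ℕ) [NeZero r] :
    open Classical in
    (compat r x).card =
      (univ.filter (fun y : ZMod r => IsUnit ((x : ZMod r) + y) ∧ IsUnit ((x : ZMod r) - y))).card := by
  classical
  have h := CM_compat r x (fun _ => True)
  have h1 : (compat r x) = (compat r x).filter (fun _ => True) := by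
    ext y; simp
  rw [h1]
  refine Eq.trans ?_ (h.trans ?_)
  · exact congrArg Finset.card (by congr!)
  · congr 1
    ext y
    simp

theorem CC_mul (a b x : ℕ) (ha : 0 < a) (hb : 0 < b) (hab : Nat.Coprime a b) :
    (compat (a * b) x).card = (compat a x).card * (compat b x).card := by
  classical
  have : NeZero a := ⟨ha.ne'⟩
  have : NeZero b := ⟨hb.ne'⟩
  have : NeZero (a * b) := ⟨(Nat.mul_pos ha hb).ne'⟩
  rw [CC_zmod (a * b), CC_zmod a, CC_zmod b, ← card_product]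
  have e := ZMod.chineseRemainder hab
  apply Finset.card_bij (fun y _ => e y)
  · intro y hy
    rw [mem_filter] at hy
    rw [mem_product, mem_filter, mem_filter]
    have h1 : IsUnit (e ((x : ZMod (a * b)) + y)) := hy.2.1.map e
    have h2 : IsUnit (e ((x : ZMod (a * b)) - y)) := hy.2.2.map e
    rw [map_add, map_natCast, Prod.isUnit_iff] at h1
    rw [map_sub, map_natCast, Prod.isUnit_iff] at h2
    exact ⟨⟨mem_univ _, h1.1, h2.1⟩, ⟨mem_univ _, h1.2, h2.2⟩⟩
  · intro y _ z _ hyz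
    exact e.injective hyz
  · intro z hz
    rw [mem_product, mem_filter, mem_filter] at hz
    refine ⟨e.symm z, ?_, by simp⟩
    rw [mem_filter]
    refine ⟨mem_univ _, ?_, ?_⟩
    · have h1 : IsUnit (e ((x : ZMod (a * b)) + e.symm z)) := by
        rw [map_add, map_natCast, Prod.isUnit_iff, e.apply_symm_apply]
        exact ⟨hz.1.2.1, hz.2.2.1⟩
      have := h1.map e.symm
      rwa [e.symm_apply_apply] at this
    · have h1 : IsUnit (e ((x : ZMod (a * b)) - e.symm z)) := by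
        rw [map_sub, map_natCast, Prod.isUnit_iff, e.apply_symm_apply]
        exact ⟨hz.1.2.2, hz.2.2.2⟩
      have := h1.map e.symm
      rwa [e.symm_apply_apply] at this

theorem CC_count (p k v : ℕ) (hp : 0 < p) (hk : 0 < k) :
    ((range (p ^ k)).filter (fun y => y ≡ v [MOD p])).card = p ^ (k - 1) := by
  have h := Nat.count_modEq_card (p ^ k) hp v
  rw [Nat.count_eq_card_filter_range] at h
  rw [h]
  obtain ⟨j, rfl⟩ : ∃ j, k = j + 1 := ⟨k - 1, by omega⟩
  have h1 : p ^ (j + 1) % p = 0 := by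
    rw [pow_succ]; exact Nat.mul_mod_left _ _
  rw [h1]
  simp only [Nat.not_lt_zero, if_false, add_zero, Nat.add_sub_cancel]
  rw [pow_succ, Nat.mul_div_cancel _ hp]

theorem CC_pow (p k x : ℕ) (hp : p.Prime) (hk : 0 < k) :
    ((compat (p ^ k) x).card : ℝ) =
      ((p ^ k : ℕ) : ℝ) * (if p ∣ 2 * x then 1 - 1 / (p : ℝ) else 1 - 2 / (p : ℝ)) := by
  classical
  have hpp : Prime (p : ℤ) := Nat.prime_iff_prime_int.1 hp
  have hcop : ∀ z : ℤ, IsCoprime z ((p ^ k : ℕ) : ℤ) ↔ ¬ (p : ℤ) ∣ z := by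
    intro z
    push_cast
    rw [IsCoprime.pow_right_iff hk, isCoprime_comm, hpp.coprime_iff_not_dvd]
  set x' : ℕ := (p - x % p) with hx'
  have hxp : x % p < p := Nat.mod_lt _ hp.pos
  have hxx : (x : ℤ) + x' ≡ 0 [ZMOD p] := by
    have h1 : (x : ℤ) + x' = p * (x / p + 1 : ℕ) := by
      have h2 := Nat.div_add_mod x p
      have h3 : x + x' = p * (x / p + 1) := by
        rw [hx', mul_add, mul_one]; omega
      exact_mod_cast h3
    rw [h1]
    exact (Int.modEq_zero_iff_dvd).2 (Dvd.intro _ rfl)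
  have hA : ∀ y : ℕ, (p : ℤ) ∣ (x : ℤ) - y ↔ y ≡ x [MOD p] := by
    intro y
    rw [← Int.natCast_modEq_iff, Int.modEq_iff_dvd]
  have hB : ∀ y : ℕ, (p : ℤ) ∣ (x : ℤ) + y ↔ y ≡ x' [MOD p] := by
    intro y
    rw [← Int.natCast_modEq_iff, ← Int.modEq_zero_iff_dvd]
    constructor
    · intro h
      exact Int.ModEq.add_left_cancel' (x : ℤ) (h.trans hxx.symm)
    · intro h
      exact (Int.ModEq.add_left (x : ℤ) h).trans hxx
  have hset : compat (p ^ k) x = range (p ^ k) \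
      ((range (p ^ k)).filter (fun y => y ≡ x [MOD p]) ∪
        (range (p ^ k)).filter (fun y => y ≡ x' [MOD p])) := by
    ext y
    simp only [compat, mem_filter, mem_sdiff, mem_union, hcop, hA, hB]
    tauto
  have hsub : ((range (p ^ k)).filter (fun y => y ≡ x [MOD p]) ∪
        (range (p ^ k)).filter (fun y => y ≡ x' [MOD p])) ⊆ range (p ^ k) :=
    union_subset (filter_subset _ _) (filter_subset _ _)
  have hc1 := CC_count p k x hp.pos hk
  have hc2 := CC_count p k x' hp.pos hk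
  have hp0 : (p : ℝ) ≠ 0 := by exact_mod_cast hp.pos.ne'
  have hpk : (p : ℝ) ^ (k - 1) * p = (p : ℝ) ^ k := by
    rw [← pow_succ]
    congr 1
    omega
  have hcard : ((compat (p ^ k) x).card : ℝ) = (p : ℝ) ^ k -
      (((range (p ^ k)).filter (fun y => y ≡ x [MOD p]) ∪
        (range (p ^ k)).filter (fun y => y ≡ x' [MOD p])).card : ℝ) := by
    rw [hset, card_sdiff_of_subset hsub, Nat.cast_sub (card_le_card hsub), card_range]
    push_cast
    ring
  rw [hcard]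
  by_cases h2x : p ∣ 2 * x
  · have hxx2 : x ≡ x' [MOD p] := by
      rw [← hB]
      have h1 : ((p : ℤ)) ∣ ((2 * x : ℕ) : ℤ) := Int.natCast_dvd_natCast.2 h2x
      push_cast at h1
      have h2 : (x : ℤ) + x = 2 * x := by ring
      rw [h2]; exact h1
    have heq : (range (p ^ k)).filter (fun y => y ≡ x' [MOD p]) =
        (range (p ^ k)).filter (fun y => y ≡ x [MOD p]) := by
      apply filter_congr
      intro y _
      exact ⟨fun h => h.trans hxx2.symm, fun h => h.trans hxx2⟩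
    rw [heq, union_self, hc1, if_pos h2x]
    push_cast
    rw [← hpk]
    field_simp
  · have hdis : Disjoint ((range (p ^ k)).filter (fun y => y ≡ x [MOD p]))
        ((range (p ^ k)).filter (fun y => y ≡ x' [MOD p])) := by
      rw [Finset.disjoint_left]
      intro y hy1 hy2
      rw [mem_filter] at hy1 hy2
      apply h2x
      have h1 : (p : ℤ) ∣ (x : ℤ) + x := (hB x).2 (hy1.2.symm.trans hy2.2)
      have h2 : (p : ℤ) ∣ ((2 * x : ℕ) : ℤ) := by
        push_cast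
        have h2 : (x : ℤ) + x = 2 * x := by ring
        rwa [h2] at h1
      exact Int.natCast_dvd_natCast.1 h2
    rw [card_union_of_disjoint hdis, hc1, hc2, if_neg h2x]
    push_cast
    rw [← hpk]
    field_simp
    ring

/-- The number of compatible classes. The condition depends on `y` modulo the radical `R` of `r`
only, so it is enough to count the classes modulo `R` (`r / R` lifts each), and for squarefree `R` one
multiplies over the primes `p ∣ R` (Chinese remainders, induction on the set of primes): `y ≢ -x` and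
`y ≢ x` modulo `p`, two different classes if `p ∤ 2 x` and one class otherwise. -/
theorem compat_card (r x : ℕ) (hr : 0 < r) :
    ((compat r x).card : ℝ) =
      r * ∏ p ∈ r.primeFactors, (if p ∣ 2 * x then 1 - 1 / (p : ℝ) else 1 - 2 / (p : ℝ)) := by
  classical
  revert hr
  induction r using Nat.recOnPosPrimePosCoprime with
  | prime_pow p k hp hk =>
    intro _
    rw [CC_pow p k x hp hk, Nat.primeFactors_prime_pow hk.ne' hp, prod_singleton]
  | zero => intro h; omega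
  | one =>
    intro _
    have : compat 1 x = {0} := by
      ext y
      simp only [compat, mem_filter, mem_range, mem_singleton, Nat.cast_one]
      constructor
      · intro h; omega
      · rintro rfl
        exact ⟨by norm_num, isCoprime_one_right, isCoprime_one_right⟩
    rw [this]
    simp
  | coprime a b ha hb hab iha ihb =>
    intro _
    rw [CC_mul a b x (by omega) (by omega) hab]
    push_cast
    rw [iha (by omega), ihb (by omega), Nat.Coprime.primeFactors_mul hab,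
      prod_union hab.disjoint_primeFactors]
    ring

theorem CC_tel (M : ℕ) (hM : 2 ≤ M) :
    ∏ m ∈ Icc 3 M, (1 - 1 / ((m : ℝ) - 1) ^ 2) = (M : ℝ) / (2 * ((M : ℝ) - 1)) := by
  induction M, hM using Nat.le_induction with
  | base => norm_num
  | succ M hM ih =>
    rw [Finset.prod_Icc_succ_top (by omega : 3 ≤ M + 1), ih]
    have : (2 : ℝ) ≤ M := by exact_mod_cast hM
    have h1 : (M : ℝ) - 1 ≠ 0 := by linarith
    have h2 : (M : ℝ) ≠ 0 := by linarith
    push_cast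
    have h3 : (M : ℝ) + 1 - 1 = M := by ring
    rw [h3]
    field_simp
    ring

theorem CC_half (S : Finset ℕ) (hS : ∀ p ∈ S, 3 ≤ p) :
    1 / 2 ≤ ∏ p ∈ S, (1 - 1 / ((p : ℝ) - 1) ^ 2) := by
  obtain ⟨M, hM2, hM⟩ : ∃ M, 2 ≤ M ∧ S ⊆ Icc 3 M := by
    refine ⟨S.sup id + 2, by omega, fun p hp => ?_⟩
    rw [mem_Icc]
    have := Finset.le_sup (f := id) hp
    simp only [id] at this
    exact ⟨hS p hp, by omega⟩
  have h01 : ∀ p ∈ Icc 3 M, 0 ≤ 1 - 1 / ((p : ℝ) - 1) ^ 2 ∧ 1 - 1 / ((p : ℝ) - 1) ^ 2 ≤ 1 := by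
    intro p hp
    rw [mem_Icc] at hp
    have h3 : (3 : ℝ) ≤ p := by exact_mod_cast hp.1
    have h4 : (1 : ℝ) ≤ ((p : ℝ) - 1) ^ 2 := by nlinarith
    have h5 : 1 / ((p : ℝ) - 1) ^ 2 ≤ 1 := by
      rw [div_le_one (by linarith)]; exact h4
    have h6 : 0 ≤ 1 / ((p : ℝ) - 1) ^ 2 := by positivity
    exact ⟨by linarith, by linarith⟩
  have h1 := Finset.prod_le_prod_of_subset_of_le_one hM (fun p hp => (h01 p hp).1)
    (fun p hp _ => (h01 p hp).2)
  refine le_trans ?_ h1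
  rw [CC_tel M hM2]
  have : (2 : ℝ) ≤ M := by exact_mod_cast hM2
  rw [div_le_div_iff₀ (by norm_num) (by linarith)]
  linarith

/-- The constant of the main term. With `r / φ(r) = ∏_{p ∣ r} p/(p-1)` (`Nat.totient_eq_mul_prod_factors`)
and `compat_card` the right-hand side is
`∏_{p ∣ r, p ∤ 2x} (1 - 1/(p-1)^2) * ∏_{p ∣ 2x} p/(p-1)`, and
`∏_{p ∣ 2x} p/(p-1) = 2 ∏_{p ∣ x, p > 2} p/(p-1) = 2 SE x ∏_{p ∣ x, p > 2} (1 - 1/(p-1)^2)`. Every product
of `1 - 1/(p-1)^2` over a finite set of primes `p ≥ 3` is at least `∏_{2 ≤ m ≤ M} (1 - 1/m^2) ≥ 1/2`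
(telescoping). -/
theorem compat_gp (r x : ℕ) (hr : 0 < r) (hx : 0 < x) :
    1 / 2 * SE x ≤ ((compat r x).card : ℝ) * (r / (Nat.totient r : ℝ) ^ 2) * Gp r (2 * (x : ℤ)) := by
  classical
  have hr0 : (r : ℝ) ≠ 0 := by exact_mod_cast hr.ne'
  have hphi : (Nat.totient r : ℝ) = r * ∏ p ∈ r.primeFactors, (1 - 1 / (p : ℝ)) := by
    have h := Nat.totient_eq_mul_prod_factors r
    have h' := congrArg (fun q : ℚ => (q : ℝ)) h
    push_cast at h'
    rw [h']
    simp only [one_div]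
  have hpr : ∀ p ∈ r.primeFactors, (0 : ℝ) < 1 - 1 / (p : ℝ) := by
    intro p hp
    have h2 : (2 : ℝ) ≤ p := by exact_mod_cast (Nat.prime_of_mem_primeFactors hp).two_le
    have : 1 / (p : ℝ) ≤ 1 / 2 := by
      apply div_le_div_of_nonneg_left zero_le_one (by norm_num) h2
    linarith
  have hprod0 : ∏ p ∈ r.primeFactors, (1 - 1 / (p : ℝ)) ≠ 0 :=
    (Finset.prod_pos hpr).ne'
  have h1 : ((compat r x).card : ℝ) * (r / (Nat.totient r : ℝ) ^ 2) =
      ∏ p ∈ r.primeFactors, (if p ∣ 2 * x then 1 + 1 / ((p : ℝ) - 1) else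
        1 - 1 / ((p : ℝ) - 1) ^ 2) := by
    rw [compat_card r x hr, hphi]
    have h2 : (r : ℝ) * (∏ p ∈ r.primeFactors, (if p ∣ 2 * x then 1 - 1 / (p : ℝ) else 1 - 2 / (p : ℝ))) *
        (r / (r * ∏ p ∈ r.primeFactors, (1 - 1 / (p : ℝ))) ^ 2) =
        (∏ p ∈ r.primeFactors, (if p ∣ 2 * x then 1 - 1 / (p : ℝ) else 1 - 2 / (p : ℝ))) /
        (∏ p ∈ r.primeFactors, (1 - 1 / (p : ℝ))) ^ 2 := by
      field_simp
    rw [h2, ← Finset.prod_pow, ← Finset.prod_div_distrib]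
    apply Finset.prod_congr rfl
    intro p hp
    have h3 : (2 : ℝ) ≤ p := by exact_mod_cast (Nat.prime_of_mem_primeFactors hp).two_le
    have h4 : (p : ℝ) ≠ 0 := by linarith
    have h5 : (p : ℝ) - 1 ≠ 0 := by linarith
    have h6 : 1 - 1 / (p : ℝ) = ((p : ℝ) - 1) / p := by field_simp
    split_ifs
    · rw [h6]
      field_simp
      ring
    · rw [h6]
      field_simp
      ring
  have hab : (2 * (x : ℤ)).natAbs = 2 * x := by omega
  -- split the primes of `r`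
  have h2 : (∏ p ∈ r.primeFactors, (if p ∣ 2 * x then 1 + 1 / ((p : ℝ) - 1) else
        1 - 1 / ((p : ℝ) - 1) ^ 2)) =
      (∏ p ∈ r.primeFactors.filter (fun p => p ∣ 2 * x), (1 + 1 / ((p : ℝ) - 1))) *
      ∏ p ∈ r.primeFactors.filter (fun p => ¬ p ∣ 2 * x), (1 - 1 / ((p : ℝ) - 1) ^ 2) := by
    rw [Finset.prod_ite]
  have h3 : (∏ p ∈ r.primeFactors.filter (fun p => p ∣ 2 * x), (1 + 1 / ((p : ℝ) - 1))) *
      Gp r (2 * (x : ℤ)) = ∏ p ∈ (2 * x).primeFactors, (1 + 1 / ((p : ℝ) - 1)) := by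
    unfold Gp
    rw [hab, ← Finset.prod_filter_mul_prod_filter_not (2 * x).primeFactors (fun p => p ∣ r)]
    congr 1
    apply Finset.prod_congr _ (fun _ _ => rfl)
    ext p
    simp only [mem_filter, Nat.mem_primeFactors]
    constructor
    · rintro ⟨⟨a, b, _⟩, d⟩
      exact ⟨⟨a, d, by omega⟩, b⟩
    · rintro ⟨⟨a, b, _⟩, d⟩
      exact ⟨⟨a, d, by omega⟩, b⟩
  -- the primes of `2 x`
  have h4 : (2 * x).primeFactors = insert 2 (x.primeFactors.filter (fun p => 2 < p)) := by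
    ext p
    simp only [mem_insert, mem_filter, Nat.mem_primeFactors]
    constructor
    · rintro ⟨a, b, _⟩
      rcases (Nat.Prime.dvd_mul a).1 b with h | h
      · left
        exact (Nat.prime_dvd_prime_iff_eq a Nat.prime_two).1 h
      · by_cases h2 : p = 2
        · left; exact h2
        · right
          have := a.two_le
          exact ⟨⟨a, h, hx.ne'⟩, by omega⟩
    · rintro (rfl | ⟨⟨a, b, _⟩, _⟩)
      · exact ⟨Nat.prime_two, Dvd.intro _ rfl, by omega⟩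
      · exact ⟨a, Dvd.dvd.mul_left b 2, by omega⟩
  have h5 : ∏ p ∈ (2 * x).primeFactors, (1 + 1 / ((p : ℝ) - 1)) =
      2 * (SE x * ∏ p ∈ x.primeFactors.filter (fun p => 2 < p), (1 - 1 / ((p : ℝ) - 1) ^ 2)) := by
    rw [h4, prod_insert (by simp), SE, ← Finset.prod_mul_distrib]
    congr 1
    · norm_num
    · apply Finset.prod_congr rfl
      intro p hp
      have h3 : (3 : ℝ) ≤ p := by
        have := (mem_filter.1 hp).2
        exact_mod_cast (by omega : 3 ≤ p)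
      have h5 : (p : ℝ) - 1 ≠ 0 := by linarith
      have h6 : (p : ℝ) - 2 ≠ 0 := by linarith
      field_simp
      ring
  have hSE : 0 ≤ SE x := by
    unfold SE
    apply Finset.prod_nonneg
    intro p hp
    have h3 : (3 : ℝ) ≤ p := by
      have := (mem_filter.1 hp).2
      exact_mod_cast (by omega : 3 ≤ p)
    exact div_nonneg (by linarith) (by linarith)
  have h6 : ((compat r x).card : ℝ) * (r / (Nat.totient r : ℝ) ^ 2) * Gp r (2 * (x : ℤ)) =
      2 * SE x * ∏ p ∈ (r.primeFactors.filter (fun p => ¬ p ∣ 2 * x)) ∪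
        (x.primeFactors.filter (fun p => 2 < p)), (1 - 1 / ((p : ℝ) - 1) ^ 2) := by
    rw [h1, h2, mul_right_comm, h3, h5, prod_union]
    · ring
    · rw [Finset.disjoint_left]
      intro p hp1 hp2
      rw [mem_filter] at hp1 hp2
      exact hp1.2 (Dvd.dvd.mul_left (Nat.dvd_of_mem_primeFactors hp2.1) 2)
  rw [h6]
  have h7 := CC_half ((r.primeFactors.filter (fun p => ¬ p ∣ 2 * x)) ∪
        (x.primeFactors.filter (fun p => 2 < p))) (by
    intro p hp
    rw [mem_union, mem_filter, mem_filter] at hp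
    rcases hp with ⟨h, h'⟩ | ⟨_, h⟩
    · have h2 := (Nat.prime_of_mem_primeFactors h).two_le
      by_contra hlt
      have : p = 2 := by omega
      rw [this] at h'
      exact h' (Dvd.intro _ rfl)
    · omega)
  nlinarith [mul_le_mul_of_nonneg_left h7 hSE]

end Pool.Agent.Lib.H18E
end

-- from Lib.H18Q.CDefs
section

/-!
# Project H18Q: definitions for module C (correlations of components)
-/

open Finset

namespace Pool.Agent.Lib.H18Q

open Pool.Agent.Lib.H68T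

noncomputable section

/-- The component of modulus `p.1 k` of `Gam Q p.1 m conj χ(m)`:
`(r/φ(r)) conj χ(m) μ(k) c_k(m)/φ(k)`, `r = p.1`. -/
def gk (p : Σ r : ℕ, DirichletCharacter ℂ r) (k : ℕ) (m : ℤ) : ℂ :=
  (((p.1 : ℝ) / (Nat.totient p.1 : ℝ) : ℝ) : ℂ) * (starRingEnd ℂ) (p.2 (m : ZMod p.1)) *
    (((ArithmeticFunction.moebius k : ℝ) / (Nat.totient k : ℝ) * cq k m : ℝ) : ℂ)

/-- The squarefree `k ≤ Q/r` coprime to `r`. -/
def KS (Q r : ℕ) : Finset ℕ :=
  open Classical in (Icc 1 (Q / r)).filter (fun k => Squarefree k ∧ Nat.Coprime k r)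

/-- The absolute value of a component as a product over primes. -/
def aw (p : Σ r : ℕ, DirichletCharacter ℂ r) (k : ℕ) (m : ℤ) : ℝ :=
  (∏ l ∈ p.1.primeFactors, (if (l : ℤ) ∣ m then 0 else (l : ℝ) / ((l : ℝ) - 1))) *
    ∏ l ∈ k.primeFactors, (if (l : ℤ) ∣ m then 1 else 1 / ((l : ℝ) - 1))

/-- The local bound for the mean of the product of two components with difference (or sum) of the
arguments `D`; `w = p.1 p'.1`. -/
def loc (w : ℕ) (D : ℤ) (l : ℕ) : ℝ :=
  if (l : ℤ) ∣ D then (if l ∣ w then (l : ℝ) / ((l : ℝ) - 1) else 1 / ((l : ℝ) - 1))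
  else (if l ∣ w then 1 else 3 / ((l : ℝ) - 1) ^ 2)

/-- The full sum `∑_p Gam_p(m) conj χ_p(m) b_p`. -/
def SG (Q : ℕ) (b : (Σ r : ℕ, DirichletCharacter ℂ r) → ℂ) (m : ℤ) : ℂ :=
  ∑ p ∈ PC Q, (Gam Q p.1 m : ℂ) * (starRingEnd ℂ) (p.2 (m : ZMod p.1)) * b p

/-- The projection `Lk` at level `Q` on `[X, 4X]` is the model `mo` up to an error with
coefficients of total size `E`: both have coefficients (of the components) which vary slowly. -/
def Lev (Q X : ℕ) (E : ℝ) (mo : ℤ → ℝ) : Prop :=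
  ∃ (μ e : ℤ → (Σ r : ℕ, DirichletCharacter ℂ r) → ℂ)
    (mb eb : (Σ r : ℕ, DirichletCharacter ℂ r) → ℝ),
    (∀ p ∈ PC Q, 0 ≤ mb p ∧ mb p ≤ 2 ∧ 0 ≤ eb p ∧ eb p ≤ 2) ∧
    ∑ p ∈ PC Q, mb p ≤ 2 ∧ ∑ p ∈ PC Q, eb p ≤ E ∧
    ∀ m : ℤ, (X : ℤ) ≤ m → m ≤ 4 * X →
      (mo m : ℂ) = SG Q (μ m) m ∧
      ((Lk Q (X / Q ^ 2) m - mo m : ℝ) : ℂ) = SG Q (e m) m ∧
      ∀ p ∈ PC Q, ‖μ m p‖ ≤ mb p ∧ ‖e m p‖ ≤ eb p ∧
        ‖μ (m + 1) p - μ m p‖ ≤ (Q : ℝ) ^ 3 / X ∧ ‖e (m + 1) p - e m p‖ ≤ (Q : ℝ) ^ 3 / X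

end

end Pool.Agent.Lib.H18Q
end

-- from Lib.H18Q.CC1
section

/-!
# Project H18Q, chunk CC1: means of products of two components of the same modulus
-/

open Finset

namespace Pool.Agent.Lib.H18Q

open Pool.Agent.Lib.H68T

theorem cc1_permul {f : ℕ → ℝ} {a : ℕ} (hf : ∀ c, f (c + a) = f c) (j c : ℕ) :
    f (a * j + c) = f c := by
  induction j with
  | zero => simp
  | succ j ih => rw [show a * (j+1) + c = (a * j + c) + a by ring, hf, ih]

theorem cc1_mod {f : ℕ → ℝ} {a : ℕ} (hf : ∀ c, f (c + a) = f c) (c : ℕ) :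
    f c = f (c % a) := by
  conv_lhs => rw [← Nat.div_add_mod c a]
  exact cc1_permul hf _ _

theorem cc1_per {f : ℕ → ℝ} {a : ℕ} (hf : ∀ c, f (c + a) = f c) (m : ℕ) :
    ∑ c ∈ range (a * m), f c = m * ∑ c ∈ range a, f c := by
  induction m with
  | zero => simp
  | succ m ih =>
    rw [Nat.mul_succ, Finset.sum_range_add, ih]
    simp only [cc1_permul hf]
    push_cast
    ring

theorem cc1_two {f g : ℕ → ℝ} {a b : ℕ} (ha : 0 < a) (hb : 0 < b) (hab : Nat.Coprime a b)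
    (hf : ∀ c, f (c + a) = f c) (hg : ∀ c, g (c + b) = g c) :
    ∑ c ∈ range (a * b), f c * g c = (∑ c ∈ range a, f c) * ∑ c ∈ range b, g c := by
  rw [Finset.sum_mul_sum, ← Finset.sum_product']
  refine Finset.sum_nbij' (fun c => (c % a, c % b))
    (fun x => (Nat.chineseRemainder hab x.1 x.2 : ℕ)) ?_ ?_ ?_ ?_ ?_
  · intro c _
    simp only [mem_product, mem_range]
    exact ⟨Nat.mod_lt _ ha, Nat.mod_lt _ hb⟩
  · intro x _
    simp only [mem_range]
    exact Nat.chineseRemainder_lt_mul hab _ _ ha.ne' hb.ne'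
  · intro c hc
    simp only [mem_range] at hc
    have h1 := (Nat.chineseRemainder hab (c % a) (c % b)).2
    have h2 := Nat.chineseRemainder_lt_mul hab (c % a) (c % b) ha.ne' hb.ne'
    have h3 : (Nat.chineseRemainder hab (c % a) (c % b) : ℕ) ≡ c [MOD a * b] := by
      rw [← Nat.modEq_and_modEq_iff_modEq_mul hab]
      exact ⟨h1.1.trans (Nat.mod_modEq _ _), h1.2.trans (Nat.mod_modEq _ _)⟩
    exact Nat.ModEq.eq_of_lt_of_lt h3 h2 hc
  · intro x hx
    simp only [mem_product, mem_range] at hx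
    have h1 := (Nat.chineseRemainder hab x.1 x.2).2
    ext
    · simp only
      exact Nat.ModEq.eq_of_lt_of_lt ((Nat.mod_modEq _ _).trans h1.1) (Nat.mod_lt _ ha) hx.1
    · simp only
      exact Nat.ModEq.eq_of_lt_of_lt ((Nat.mod_modEq _ _).trans h1.2) (Nat.mod_lt _ hb) hx.2
  · intro c _
    simp only
    rw [← cc1_mod hf, ← cc1_mod hg]

theorem cc1_prodper (S : Finset ℕ) (h : ℕ → ℕ → ℝ) (hp : ∀ l ∈ S, ∀ c, h l (c + l) = h l c) :
    ∀ c, (∏ l ∈ S, h l (c + ∏ i ∈ S, i)) = ∏ l ∈ S, h l c := by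
  intro c
  refine Finset.prod_congr rfl fun l hl => ?_
  obtain ⟨k, hk⟩ := Finset.dvd_prod_of_mem (fun i : ℕ => i) hl
  have hk' : (∏ i ∈ S, i) = l * k := hk
  rw [hk', add_comm c, cc1_permul (hp l hl)]

theorem cc1_crtset (S : Finset ℕ) (hS : ∀ l ∈ S, l.Prime) (h : ℕ → ℕ → ℝ)
    (hp : ∀ l ∈ S, ∀ c, h l (c + l) = h l c) :
    ∑ c ∈ range (∏ l ∈ S, l), ∏ l ∈ S, h l c = ∏ l ∈ S, ∑ c ∈ range l, h l c := by
  induction S using Finset.induction_on with
  | empty => simp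
  | insert a S ha ih =>
    have h1 := ih (fun l hl => hS l (mem_insert_of_mem hl))
      (fun l hl => hp l (mem_insert_of_mem hl))
    rw [Finset.prod_insert ha, Finset.prod_insert ha, ← h1]
    simp only [Finset.prod_insert ha]
    have hpa : a.Prime := hS a (mem_insert_self _ _)
    refine cc1_two hpa.pos (Finset.prod_pos fun l hl => (hS l (mem_insert_of_mem hl)).pos) ?_
      (hp a (mem_insert_self _ _)) (cc1_prodper S h (fun l hl => hp l (mem_insert_of_mem hl)))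
    refine Nat.Coprime.prod_right fun l hl => ?_
    rw [Nat.coprime_primes hpa (hS l (mem_insert_of_mem hl))]
    rintro rfl
    exact ha hl

/-- Chinese remainder theorem for means: the functions `h l`, `l` a prime factor of `q`, have
period `l`. Proof: the product has period `R = ∏ l` (the radical), and `q` is a multiple of `R`, so the
mean over `[0, q)` is the mean over `[0, R)`; `c ↦ (c mod l)_l` is a bijection of `range R` onto the
product (`ZMod.prodEquivPi`, `Nat.chineseRemainder...`, or induction on the set of primes with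
`Nat.Coprime` two-factor statement: for coprime `a, b`, `f` of period `a`, `g` of period `b`:
`∑_{c < ab} f g = ∑_{c < a} f ∑_{c < b} g`). -/
theorem crt_mean (q : ℕ) (hq : 0 < q) (h : ℕ → ℕ → ℝ)
    (hp : ∀ l ∈ q.primeFactors, ∀ c, h l (c + l) = h l c) :
    (∑ c ∈ range q, ∏ l ∈ q.primeFactors, h l c) / q =
      ∏ l ∈ q.primeFactors, ((∑ c ∈ range l, h l c) / l) := by
  obtain ⟨m, hm⟩ := Nat.prod_primeFactors_dvd q
  have hR : 0 < ∏ l ∈ q.primeFactors, l :=
    Finset.prod_pos fun l hl => (Nat.prime_of_mem_primeFactors hl).pos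
  have h1 := cc1_per (f := fun c => ∏ l ∈ q.primeFactors, h l c)
    (cc1_prodper q.primeFactors h hp) m
  rw [← hm, cc1_crtset q.primeFactors (fun l hl => Nat.prime_of_mem_primeFactors hl) h hp] at h1
  rw [h1, Finset.prod_div_distrib]
  have h2 : (q : ℝ) = (∏ l ∈ q.primeFactors, (l : ℝ)) * m := by
    conv_lhs => rw [hm]
    push_cast
    rfl
  have hm0 : (m : ℝ) ≠ 0 := by
    rintro h0
    have : m = 0 := by exact_mod_cast h0
    subst this
    omega
  rw [h2]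
  rw [mul_comm (m : ℝ), mul_div_mul_right _ _ hm0]


noncomputable def cc1_al (r l : ℕ) (m : ℤ) : ℝ :=
  if l ∣ r then (if (l : ℤ) ∣ m then 0 else (l : ℝ) / ((l : ℝ) - 1))
  else (if (l : ℤ) ∣ m then 1 else 1 / ((l : ℝ) - 1))

theorem cc1_al_nonneg (r l : ℕ) (hl : l.Prime) (m : ℤ) : 0 ≤ cc1_al r l m := by
  have h2 : (2 : ℝ) ≤ l := by exact_mod_cast hl.two_le
  unfold cc1_al
  split_ifs
  · exact le_rfl
  · exact div_nonneg (by linarith) (by linarith)
  · exact zero_le_one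
  · exact div_nonneg (by linarith) (by linarith)

theorem cc1_aw (p : Σ r : ℕ, DirichletCharacter ℂ r) (k : ℕ)
    (hc : Nat.Coprime k p.1) (m : ℤ) :
    aw p k m = ∏ l ∈ (p.1 * k).primeFactors, cc1_al p.1 l m := by
  have hc' : Nat.Coprime p.1 k := hc.symm
  rw [hc'.primeFactors_mul, Finset.prod_union hc'.disjoint_primeFactors]
  unfold aw
  congr 1
  · refine Finset.prod_congr rfl fun l hl => ?_
    unfold cc1_al
    rw [if_pos (Nat.dvd_of_mem_primeFactors hl)]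
  · refine Finset.prod_congr rfl fun l hl => ?_
    have hn : ¬ l ∣ p.1 := by
      intro h
      have hlp := Nat.prime_of_mem_primeFactors hl
      exact (Nat.not_coprime_of_dvd_of_dvd hlp.one_lt h (Nat.dvd_of_mem_primeFactors hl)) hc'
    unfold cc1_al
    rw [if_neg hn]

/-- indicator -/
noncomputable def cc1_u (l : ℕ) (s : ℤ) (c : ℕ) : ℝ := if (l : ℤ) ∣ s + c then 1 else 0

theorem cc1_cnt (l : ℕ) (hl : 0 < l) (s : ℤ) : ∑ c ∈ range l, cc1_u l s c = 1 := by
  unfold cc1_u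
  have hl' : (0 : ℤ) < l := by exact_mod_cast hl
  have h0 := Int.emod_nonneg (-s) hl'.ne'
  have h1 := Int.emod_lt_of_pos (-s) hl'
  rw [Finset.sum_eq_single ((-s) % l).toNat]
  · rw [if_pos]
    have : (((-s) % l).toNat : ℤ) = (-s) % l := Int.toNat_of_nonneg h0
    rw [this]
    have h2 := Int.emod_add_mul_ediv (-s) l
    refine ⟨-((-s) / l), ?_⟩
    linarith
  · intro c hc hne
    rw [if_neg]
    intro hd
    apply hne
    rw [mem_range] at hc
    have hc' : (c : ℤ) < l := by exact_mod_cast hc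
    have h3 : (c : ℤ) = (-s) % l := by
      have h5 : (-s) ≡ c [ZMOD l] := Int.modEq_iff_dvd.2 (by
        rw [show (c : ℤ) - -s = s + c by ring]; exact hd)
      have h4 : (c : ℤ) % l = (-s) % l := h5.symm
      rw [← h4, Int.emod_eq_of_lt (by positivity) hc']
    rw [← h3]
    simp
  · intro h
    exfalso
    apply h
    rw [mem_range]
    zify
    rw [Int.toNat_of_nonneg h0]
    exact h1

theorem cc1_uu_eq (l : ℕ) (s s' : ℤ) (h : (l : ℤ) ∣ s - s') (c : ℕ) :
    cc1_u l s c * cc1_u l s' c = cc1_u l s c := by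
  unfold cc1_u
  have : (l : ℤ) ∣ s + c ↔ (l : ℤ) ∣ s' + c := by
    constructor
    · intro h1
      have := dvd_sub h1 h
      rwa [show s + (c : ℤ) - (s - s') = s' + c by ring] at this
    · intro h1
      have := dvd_add h1 h
      rwa [show s' + (c : ℤ) + (s - s') = s + c by ring] at this
  by_cases h1 : (l : ℤ) ∣ s + c
  · rw [if_pos h1, if_pos (this.1 h1)]; norm_num
  · rw [if_neg h1]; norm_num

theorem cc1_uu_ne (l : ℕ) (s s' : ℤ) (h : ¬ (l : ℤ) ∣ s - s') (c : ℕ) :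
    cc1_u l s c * cc1_u l s' c = 0 := by
  unfold cc1_u
  by_cases h1 : (l : ℤ) ∣ s + c
  · rw [if_neg (c := (l : ℤ) ∣ s' + c)]
    · simp
    · intro h2
      apply h
      have := dvd_sub h1 h2
      rwa [show s + (c : ℤ) - (s' + c) = s - s' by ring] at this
  · rw [if_neg h1]; simp

theorem cc1_lin (l : ℕ) (hl : 0 < l) (s s' : ℤ) (α β α' β' : ℝ) :
    ∑ c ∈ range l, (α + β * cc1_u l s c) * (α' + β' * cc1_u l s' c) =
      l * α * α' + α * β' + α' * β + β * β' * (if (l : ℤ) ∣ s - s' then 1 else 0) := by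
  have h1 : ∀ c, (α + β * cc1_u l s c) * (α' + β' * cc1_u l s' c) =
      α * α' + α * β' * cc1_u l s' c + α' * β * cc1_u l s c +
        β * β' * (cc1_u l s c * cc1_u l s' c) := fun c => by ring
  simp only [h1, Finset.sum_add_distrib, ← Finset.mul_sum, cc1_cnt l hl]
  rw [Finset.sum_const, card_range]
  have h2 : ∑ c ∈ range l, cc1_u l s c * cc1_u l s' c = if (l : ℤ) ∣ s - s' then 1 else 0 := by
    split_ifs with h
    · rw [Finset.sum_congr rfl fun c _ => cc1_uu_eq l s s' h c, cc1_cnt l hl]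
    · rw [Finset.sum_congr rfl fun c _ => cc1_uu_ne l s s' h c]; simp
  rw [h2]
  simp only [nsmul_eq_mul]
  ring

theorem cc1_al_lin (r l : ℕ) (s : ℤ) (c : ℕ) :
    cc1_al r l (s + c) = (if l ∣ r then (l : ℝ) / ((l : ℝ) - 1) else 1 / ((l : ℝ) - 1)) +
      (if l ∣ r then - ((l : ℝ) / ((l : ℝ) - 1)) else 1 - 1 / ((l : ℝ) - 1)) * cc1_u l s c := by
  unfold cc1_al cc1_u
  split_ifs <;> ring

theorem cc1_tau (l : ℕ) (t τ : ℤ) (hτ : τ = 1 ∨ τ = -1) (c : ℕ) (r : ℕ) :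
    cc1_al r l (t + τ * c) = cc1_al r l (τ * t + c) := by
  have : (l : ℤ) ∣ t + τ * c ↔ (l : ℤ) ∣ τ * t + c := by
    rcases hτ with rfl | rfl
    · simp
    · rw [show (-1 : ℤ) * t + c = -(t + -1 * c) by ring, Int.dvd_neg]
  unfold cc1_al
  simp only [this]

theorem cc1_local (r r' l : ℕ) (hl : l.Prime) (s t τ D : ℤ) (hτ : τ = 1 ∨ τ = -1)
    (hD : D = s - τ * t) (hD2 : (2 : ℤ) ∣ D) :
    (∑ c ∈ range l, cc1_al r l (s + (c : ℤ)) * cc1_al r' l (t + τ * (c : ℤ))) / (l : ℝ) ≤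
      loc (r * r') D l := by
  have h2 : (2 : ℝ) ≤ l := by exact_mod_cast hl.two_le
  have hl1 : (0 : ℝ) < (l : ℝ) - 1 := by linarith
  have hl0 : (0 : ℝ) < (l : ℝ) := by linarith
  simp only [cc1_tau l t τ hτ, cc1_al_lin]
  rw [cc1_lin l hl.pos, ← hD]
  unfold loc
  have hw : l ∣ r * r' ↔ l ∣ r ∨ l ∣ r' := hl.dvd_mul
  have h3 : ¬ (l : ℤ) ∣ D → (3 : ℝ) ≤ l := by
    intro h
    have : l ≠ 2 := by
      rintro rfl
      exact h hD2
    have h4 : 3 ≤ l := by have := hl.two_le; omega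
    exact_mod_cast h4
  by_cases hd : (l : ℤ) ∣ D
  · simp only [hd, if_true]
    by_cases h1 : l ∣ r <;> by_cases h1' : l ∣ r' <;>
      simp only [hw, h1, h1', if_true, if_false, or_true, true_or, or_self, or_false]
    · rw [div_le_div_iff₀ hl0 hl1]
      field_simp
      nlinarith
    · rw [div_le_div_iff₀ hl0 hl1]
      field_simp
      nlinarith
    · rw [div_le_div_iff₀ hl0 hl1]
      field_simp
      nlinarith
    · rw [div_le_div_iff₀ hl0 hl1]
      field_simp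
      nlinarith
  · have h3' := h3 hd
    simp only [hd, if_false]
    by_cases h1 : l ∣ r <;> by_cases h1' : l ∣ r' <;>
      simp only [hw, h1, h1', if_true, if_false, or_true, true_or, or_self, or_false]
    · rw [div_le_one hl0]
      field_simp
      nlinarith
    · rw [div_le_one hl0]
      field_simp
      nlinarith
    · rw [div_le_one hl0]
      field_simp
      nlinarith
    · rw [div_le_div_iff₀ hl0 (by positivity)]
      field_simp
      nlinarith


/-- **Local means.** Let `q = p.1 k = p'.1 k'`, `τ = ±1`, `D = s - τ t ≠ 0`, `2 ∣ D`. Then the mean over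
`c` modulo `q` of `aw p k (s + c) aw p' k' (t + τ c)` is at most `∏_{l ∣ q} loc (p.1 p'.1) D l`.

Proof. `aw p k m = ∏_{l ∣ q} a_l(m)` with `a_l(m) = l/(l-1) 1[l ∤ m]` if `l ∣ p.1` and
`a_l(m) = 1 if l ∣ m else 1/(l-1)` if `l ∣ k` (the prime factors of `q` are the disjoint union of those
of `p.1` and of `k`), similarly for `p'`. By `crt_mean` the mean is the product of the local means
`E_l = (1/l) ∑_{c < l} a_l(s+c) a'_l(t + τ c)` (all factors `≥ 0`, so it suffices to bound each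
`E_l ≤ loc`). For `c` modulo `l`: `l ∣ s + c` for exactly one `c`, `l ∣ t + τ c` for exactly one `c`; they
agree iff `l ∣ s - τ t = D` (`c ≡ -s`, `c ≡ -τ t`). (A) `l ∣ p.1`, `l ∣ p'.1`: `E = (l/(l-1))²
(1 - 1/l) = l/(l-1)` if `l ∣ D`; else `(l/(l-1))² (1 - 2/l) ≤ 1`. (B) `l ∣ p.1`, `l ∣ k'` (or
conversely): `l ∣ D`: `(l/(l-1)) ((l-1)/l) (1/(l-1)) = 1/(l-1) ≤ l/(l-1)`; `l ∤ D` (so `l ≥ 3`):
`(l/(l-1)) (1/l + ((l-2)/l)/(l-1)) ≤ 2/(l-1) ≤ 1`. (C) `l ∣ k`, `l ∣ k'`: `l ∣ D`: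
`1/l + ((l-1)/l)/(l-1)² = 1/(l-1)`; `l ∤ D`: `2/(l (l-1)) + (l-2)/(l (l-1)²) ≤ 3/(l-1)²`. In case (C)
`l ∤ p.1 p'.1`; in (A), (B) `l ∣ p.1 p'.1`. -/
theorem loc_mean (Q : ℕ) (p p' : Σ r : ℕ, DirichletCharacter ℂ r) (hp : p ∈ PC Q)
    (hp' : p' ∈ PC Q) (k k' : ℕ) (hk : k ∈ KS Q p.1) (hk' : k' ∈ KS Q p'.1)
    (he : p.1 * k = p'.1 * k') (s t τ D : ℤ) (hτ : τ = 1 ∨ τ = -1) (hD : D = s - τ * t)
    (hD2 : (2 : ℤ) ∣ D) :
    (∑ c ∈ range (p.1 * k), aw p k (s + (c : ℤ)) * aw p' k' (t + τ * (c : ℤ))) /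
        (p.1 * k : ℕ) ≤
      ∏ l ∈ (p.1 * k).primeFactors, loc (p.1 * p'.1) D l := by
  have h1 := (mem_PC.1 hp).1
  unfold KS at hk hk'
  simp only [mem_filter, mem_Icc] at hk hk'
  have hq : 0 < p.1 * k := Nat.mul_pos h1 hk.1.1
  have h2 : ∀ c : ℕ, aw p k (s + (c : ℤ)) * aw p' k' (t + τ * (c : ℤ)) =
      ∏ l ∈ (p.1 * k).primeFactors,
        (cc1_al p.1 l (s + (c : ℤ)) * cc1_al p'.1 l (t + τ * (c : ℤ))) := by
    intro c
    rw [cc1_aw p k hk.2.2, cc1_aw p' k' hk'.2.2, ← he, ← Finset.prod_mul_distrib]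
  simp only [h2]
  rw [crt_mean (p.1 * k) hq
    (fun l c => cc1_al p.1 l (s + (c : ℤ)) * cc1_al p'.1 l (t + τ * (c : ℤ)))]
  · refine Finset.prod_le_prod ?_ ?_
    · intro l hl
      have hlp := Nat.prime_of_mem_primeFactors hl
      refine div_nonneg (Finset.sum_nonneg fun c _ => mul_nonneg ?_ ?_) (Nat.cast_nonneg _)
      · exact cc1_al_nonneg _ _ hlp _
      · exact cc1_al_nonneg _ _ hlp _
    · intro l hl
      exact cc1_local _ _ l (Nat.prime_of_mem_primeFactors hl) s t τ D hτ hD hD2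
  · intro l hl c
    have e1 : (l : ℤ) ∣ s + ((c + l : ℕ) : ℤ) ↔ (l : ℤ) ∣ s + (c : ℤ) := by
      push_cast
      rw [← add_assoc]
      exact Int.dvd_add_left (dvd_refl _)
    have e2 : (l : ℤ) ∣ t + τ * ((c + l : ℕ) : ℤ) ↔ (l : ℤ) ∣ t + τ * (c : ℤ) := by
      push_cast
      rw [mul_add, ← add_assoc]
      exact (Int.dvd_add_left (Dvd.intro_left τ rfl))
    simp only [cc1_al, e1, e2]

theorem cc1_tele (N : ℕ) : ∑ n ∈ Icc 3 N, (1 : ℝ) / ((n : ℝ) - 1) ^ 2 ≤ 1 := by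
  have h : ∀ N : ℕ, 2 ≤ N → ∑ n ∈ Icc 3 N, (1 : ℝ) / ((n : ℝ) - 1) ^ 2 ≤ 1 - 1 / ((N : ℝ) - 1) := by
    intro N hN
    induction N, hN using Nat.le_induction with
    | base => simp; norm_num
    | succ N hN ih =>
      rw [Finset.sum_Icc_succ_top (by omega)]
      have h2 : (2 : ℝ) ≤ N := by exact_mod_cast hN
      have h3 : (1 : ℝ) / (((N + 1 : ℕ) : ℝ) - 1) ^ 2 ≤ 1 / ((N : ℝ) - 1) - 1 / (((N + 1 : ℕ) : ℝ) - 1) := by
        push_cast
        rw [show (N : ℝ) + 1 - 1 = N by ring]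
        have h4 : (0 : ℝ) < (N : ℝ) - 1 := by linarith
        have h5 : (0 : ℝ) < N := by linarith
        rw [div_sub_div _ _ h4.ne' h5.ne', div_le_div_iff₀ (by positivity) (by positivity)]
        nlinarith
      linarith
  rcases le_or_gt 2 N with hN | hN
  · have := h N hN
    have h2 : (2 : ℝ) ≤ N := by exact_mod_cast hN
    have h3 : (0 : ℝ) ≤ 1 / ((N : ℝ) - 1) := by
      apply div_nonneg <;> linarith
    linarith
  · rw [Finset.Icc_eq_empty (by omega)]; simp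

theorem cc1_loc_nonneg (w : ℕ) (D : ℤ) (l : ℕ) (hl : l.Prime) : 0 ≤ loc w D l := by
  have h2 : (2 : ℝ) ≤ l := by exact_mod_cast hl.two_le
  unfold loc
  split_ifs
  · exact div_nonneg (by linarith) (by linarith)
  · exact div_nonneg (by linarith) (by linarith)
  · exact zero_le_one
  · positivity

/-- the local factor -/
noncomputable def cc1_F (w : ℕ) (D : ℤ) (l : ℕ) : ℝ := if l ∣ w then loc w D l else 1 + loc w D l

theorem cc1_F_bound (w : ℕ) (D : ℤ) (hD2 : (2 : ℤ) ∣ D) (l : ℕ) (hl : l.Prime) :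
    cc1_F w D l ≤ (if (l : ℤ) ∣ D then 1 + 1 / ((l : ℝ) - 1) else 1) *
      Real.exp (if 3 ≤ l then 3 / ((l : ℝ) - 1) ^ 2 else 0) := by
  have h2 : (2 : ℝ) ≤ l := by exact_mod_cast hl.two_le
  have hl1 : (0 : ℝ) < (l : ℝ) - 1 := by linarith
  have he : (1 : ℝ) ≤ Real.exp (if 3 ≤ l then 3 / ((l : ℝ) - 1) ^ 2 else 0) := by
    apply Real.one_le_exp
    split_ifs
    · positivity
    · exact le_rfl
  unfold cc1_F loc
  by_cases hd : (l : ℤ) ∣ D
  · simp only [hd, if_true]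
    have h3 : (l : ℝ) / ((l : ℝ) - 1) = 1 + 1 / ((l : ℝ) - 1) := by field_simp; ring
    have h4 : (0 : ℝ) ≤ 1 + 1 / ((l : ℝ) - 1) := by positivity
    by_cases h5 : l ∣ w
    · rw [if_pos h5, if_pos h5, h3]
      exact le_mul_of_one_le_right h4 he
    · rw [if_neg h5, if_neg h5]
      exact le_mul_of_one_le_right h4 he
  · have h3 : 3 ≤ l := by
      have : l ≠ 2 := by
        rintro rfl
        exact hd hD2
      have := hl.two_le
      omega
    simp only [hd, if_false, h3, if_true, one_mul] at he ⊢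
    split_ifs
    · exact he
    · have := Real.add_one_le_exp ((3 : ℝ) / ((l : ℝ) - 1) ^ 2)
      linarith

theorem cc1_F_nonneg (w : ℕ) (D : ℤ) (l : ℕ) (hl : l.Prime) : 0 ≤ cc1_F w D l := by
  unfold cc1_F
  have := cc1_loc_nonneg w D l hl
  split_ifs
  · exact this
  · linarith

theorem cc1_prodF (w : ℕ) (D : ℤ) (hD : D ≠ 0) (hD2 : (2 : ℤ) ∣ D) (U : Finset ℕ)
    (hU : ∀ l ∈ U, l.Prime) :
    ∏ l ∈ U, cc1_F w D l ≤ Real.exp 3 * Pool.Agent.Lib.H18E.Gp 1 D := by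
  have h1 : ∏ l ∈ U, cc1_F w D l ≤ ∏ l ∈ U, ((if (l : ℤ) ∣ D then 1 + 1 / ((l : ℝ) - 1) else 1) *
      Real.exp (if 3 ≤ l then 3 / ((l : ℝ) - 1) ^ 2 else 0)) :=
    Finset.prod_le_prod (fun l hl => cc1_F_nonneg w D l (hU l hl))
      (fun l hl => cc1_F_bound w D hD2 l (hU l hl))
  refine h1.trans ?_
  rw [Finset.prod_mul_distrib, ← Real.exp_sum, mul_comm (Real.exp 3)]
  have hG : ∏ l ∈ U, (if (l : ℤ) ∣ D then 1 + 1 / ((l : ℝ) - 1) else 1) ≤
      Pool.Agent.Lib.H18E.Gp 1 D := by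
    rw [← Finset.prod_filter]
    unfold Pool.Agent.Lib.H18E.Gp
    have hsub : U.filter (fun l : ℕ => (l : ℤ) ∣ D) ⊆
        D.natAbs.primeFactors.filter (fun p => ¬ p ∣ 1) := by
      intro l hl
      rw [mem_filter] at hl
      have hlp := hU l hl.1
      rw [mem_filter, Nat.mem_primeFactors]
      refine ⟨⟨hlp, Int.natCast_dvd.1 hl.2, Int.natAbs_ne_zero.2 hD⟩, ?_⟩
      intro h
      exact hlp.one_lt.ne' (Nat.dvd_one.1 h)
    rw [← Finset.prod_sdiff hsub]
    have hf : ∀ l ∈ (D.natAbs.primeFactors.filter (fun p => ¬ p ∣ 1)),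
        (1 : ℝ) ≤ 1 + 1 / ((l : ℝ) - 1) := by
      intro l hl
      rw [mem_filter] at hl
      have hlp := Nat.prime_of_mem_primeFactors hl.1
      have h2 : (2 : ℝ) ≤ l := by exact_mod_cast hlp.two_le
      have : (0 : ℝ) ≤ 1 / ((l : ℝ) - 1) := div_nonneg zero_le_one (by linarith)
      linarith
    have h1' : (1 : ℝ) ≤ ∏ l ∈ (D.natAbs.primeFactors.filter (fun p => ¬ p ∣ 1)) \
        U.filter (fun l : ℕ => (l : ℤ) ∣ D), (1 + 1 / ((l : ℝ) - 1)) := by
      refine Finset.prod_induction _ (fun x => (1 : ℝ) ≤ x)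
        (fun a b ha hb => one_le_mul_of_one_le_of_one_le ha hb) le_rfl ?_
      intro l hl
      exact hf l (mem_sdiff.1 hl).1
    refine le_mul_of_one_le_left (Finset.prod_nonneg fun l hl => ?_) h1'
    exact zero_le_one.trans (hf l (hsub hl))
  have hE : Real.exp (∑ l ∈ U, (if 3 ≤ l then 3 / ((l : ℝ) - 1) ^ 2 else 0)) ≤ Real.exp 3 := by
    apply Real.exp_le_exp.2
    rw [← Finset.sum_filter]
    have h2 : ∑ l ∈ U.filter (fun l => 3 ≤ l), (3 : ℝ) / ((l : ℝ) - 1) ^ 2 ≤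
        ∑ l ∈ Icc 3 (U.sup id), (3 : ℝ) / ((l : ℝ) - 1) ^ 2 := by
      refine Finset.sum_le_sum_of_subset_of_nonneg ?_ ?_
      · intro l hl
        rw [mem_filter] at hl
        rw [mem_Icc]
        exact ⟨hl.2, Finset.le_sup (f := id) hl.1⟩
      · intro l _ _
        positivity
    have h3 : ∑ l ∈ Icc 3 (U.sup id), (3 : ℝ) / ((l : ℝ) - 1) ^ 2 =
        3 * ∑ l ∈ Icc 3 (U.sup id), (1 : ℝ) / ((l : ℝ) - 1) ^ 2 := by
      rw [Finset.mul_sum]
      refine Finset.sum_congr rfl fun l _ => ?_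
      ring
    have h4 := cc1_tele (U.sup id)
    linarith
  refine mul_le_mul hG hE (Real.exp_pos _).le ?_
  unfold Pool.Agent.Lib.H18E.Gp
  refine Finset.prod_nonneg fun l hl => ?_
  rw [mem_filter] at hl
  have hlp := Nat.prime_of_mem_primeFactors hl.1
  have h2 : (2 : ℝ) ≤ l := by exact_mod_cast hlp.two_le
  have : (0 : ℝ) ≤ 1 / ((l : ℝ) - 1) := div_nonneg zero_le_one (by linarith)
  linarith


theorem cc1_pf (Q : ℕ) (p p' : Σ r : ℕ, DirichletCharacter ℂ r) (hp : p ∈ PC Q)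
    (hp' : p' ∈ PC Q) (k k' : ℕ) (hk : k ∈ KS Q p.1) (hk' : k' ∈ KS Q p'.1)
    (he : p.1 * k = p'.1 * k') :
    k.primeFactors = (p'.1.primeFactors \ p.1.primeFactors) ∪
      ((p.1 * k).primeFactors \ (p.1 * p'.1).primeFactors) := by
  have h1 := (mem_PC.1 hp).1
  have h1' := (mem_PC.1 hp').1
  unfold KS at hk hk'
  simp only [mem_filter, mem_Icc] at hk hk'
  have hk0 : k ≠ 0 := by omega
  have hk0' : k' ≠ 0 := by omega
  ext l
  simp only [mem_union, mem_sdiff, Nat.mem_primeFactors]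
  constructor
  · rintro ⟨hl, hlk, _⟩
    by_cases h : l ∣ p'.1
    · left
      refine ⟨⟨hl, h, by omega⟩, ?_⟩
      rintro ⟨_, h2, _⟩
      exact (Nat.not_coprime_of_dvd_of_dvd hl.one_lt hlk h2) hk.2.2
    · right
      refine ⟨⟨hl, Dvd.dvd.mul_left hlk _, Nat.mul_ne_zero (by omega) hk0⟩, ?_⟩
      rintro ⟨_, h2, _⟩
      rcases hl.dvd_mul.1 h2 with h2 | h2
      · exact (Nat.not_coprime_of_dvd_of_dvd hl.one_lt hlk h2) hk.2.2
      · exact h h2
  · rintro (⟨⟨hl, h, _⟩, h2⟩ | ⟨⟨hl, h, _⟩, h2⟩)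
    · refine ⟨hl, ?_, hk0⟩
      have h3 : l ∣ p.1 * k := by rw [he]; exact Dvd.dvd.mul_right h _
      rcases hl.dvd_mul.1 h3 with h4 | h4
      · exact absurd ⟨hl, h4, by omega⟩ h2
      · exact h4
    · refine ⟨hl, ?_, hk0⟩
      rcases hl.dvd_mul.1 h with h4 | h4
      · exact absurd ⟨hl, Dvd.dvd.mul_right h4 _, Nat.mul_ne_zero (by omega) (by omega)⟩ h2
      · exact h4

theorem cc1_qpf (Q : ℕ) (p p' : Σ r : ℕ, DirichletCharacter ℂ r) (hp : p ∈ PC Q)
    (hp' : p' ∈ PC Q) (k k' : ℕ) (hk : k ∈ KS Q p.1) (hk' : k' ∈ KS Q p'.1)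
    (he : p.1 * k = p'.1 * k') :
    (p.1 * p'.1).primeFactors ⊆ (p.1 * k).primeFactors := by
  have h1 := (mem_PC.1 hp).1
  have h1' := (mem_PC.1 hp').1
  unfold KS at hk hk'
  simp only [mem_filter, mem_Icc] at hk hk'
  have hk0 : k ≠ 0 := by omega
  intro l
  simp only [Nat.mem_primeFactors]
  rintro ⟨hl, h, _⟩
  refine ⟨hl, ?_, Nat.mul_ne_zero (by omega) hk0⟩
  rcases hl.dvd_mul.1 h with h2 | h2
  · exact Dvd.dvd.mul_right h2 _
  · rw [he]; exact Dvd.dvd.mul_right h2 _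

/-- **Sum over the moduli.** For fixed `p, p'` the sum of the local products over all pairs `(k, k')`
with `p.1 k = p'.1 k'` is at most `C Gp 1 D`, `Gp 1 D = ∏_{l ∣ D} l/(l-1)`.

Proof. Let `w = p.1 p'.1`. For such a pair, `q = p.1 k`, every prime of `w` divides `q`, and the other
primes of `q` form a set `S` of primes `≤ Q` not dividing `w`. `q` (hence `k, k'`) is determined by `S`:
for `l ∣ p.1`, `v_l(q) = v_l(p.1)` (`k` coprime to `p.1`), for `l ∣ p'.1`, `v_l(q) = v_l(p'.1)`, for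
`l ∈ S`, `v_l(q) = 1`. So the sum is at most `∏_{l ∣ w} loc(l) ∏_{l ≤ Q prime, l ∤ w} (1 + loc(l))`
(all `loc ≥ 0`). For `l ∣ D`: `loc(l) ≤ l/(l-1)` if `l ∣ w`, `1 + loc(l) = l/(l-1)` if `l ∤ w`. For
`l ∤ D` (`l ≥ 3`, as `2 ∣ D`): `loc(l) = 1` if `l ∣ w`, and `1 + 3/(l-1)² ≤ exp (3/(l-1)²)` if
`l ∤ w`. The product over `l ≥ 3` of the last is at most `exp (3 ∑_{n ≥ 2} 1/n²) ≤ exp 3`, and the
primes dividing `D` contribute at most `Gp 1 D` (`1 + 1/(l-1) = l/(l-1) ≥ 1`). -/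
theorem sum_loc : ∃ C : ℝ, 1 ≤ C ∧ ∀ (Q : ℕ) (p p' : Σ r : ℕ, DirichletCharacter ℂ r),
    p ∈ PC Q → p' ∈ PC Q → ∀ D : ℤ, D ≠ 0 → (2 : ℤ) ∣ D →
    ∑ k ∈ KS Q p.1, ∑ k' ∈ (KS Q p'.1).filter (fun k' => p.1 * k = p'.1 * k'),
      ∏ l ∈ (p.1 * k).primeFactors, loc (p.1 * p'.1) D l ≤ C * Pool.Agent.Lib.H18E.Gp 1 D := by
  refine ⟨Real.exp 3, Real.one_le_exp (by norm_num), ?_⟩
  intro Q p p' hp hp' D hD hD2
  have h1 := (mem_PC.1 hp).1
  have h1' := (mem_PC.1 hp').1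
  classical
  set w := p.1 * p'.1 with hw
  set KK : Finset ℕ := (KS Q p.1).filter (fun k => ∃ k' ∈ KS Q p'.1, p.1 * k = p'.1 * k') with hKK
  set P : Finset ℕ := (range (Q + 1)).filter (fun l => l.Prime ∧ ¬ l ∣ w) with hP
  set f : ℕ → ℝ := fun k => ∏ l ∈ (p.1 * k).primeFactors, loc w D l with hf
  have hf0 : ∀ k, 0 ≤ f k := fun k =>
    Finset.prod_nonneg fun l hl => cc1_loc_nonneg w D l (Nat.prime_of_mem_primeFactors hl)
  -- step 1
  have s1 : ∑ k ∈ KS Q p.1, ∑ k' ∈ (KS Q p'.1).filter (fun k' => p.1 * k = p'.1 * k'), f k ≤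
      ∑ k ∈ KK, f k := by
    rw [hKK, Finset.sum_filter]
    refine Finset.sum_le_sum fun k _ => ?_
    rw [Finset.sum_const, nsmul_eq_mul]
    split_ifs with h
    · have hcard : ((KS Q p'.1).filter (fun k' => p.1 * k = p'.1 * k')).card ≤ 1 := by
        rw [Finset.card_le_one]
        intro a ha b hb
        rw [mem_filter] at ha hb
        have : p'.1 * a = p'.1 * b := by rw [← ha.2, ← hb.2]
        exact Nat.eq_of_mul_eq_mul_left (by omega) this
      have : (((KS Q p'.1).filter (fun k' => p.1 * k = p'.1 * k')).card : ℝ) ≤ 1 := by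
        exact_mod_cast hcard
      nlinarith [hf0 k]
    · have : (KS Q p'.1).filter (fun k' => p.1 * k = p'.1 * k') = ∅ := by
        rw [Finset.filter_eq_empty_iff]
        intro k' hk' he
        exact h ⟨k', hk', he⟩
      rw [this]; simp
  -- step 2: f k as product
  have s2 : ∀ k ∈ KK, f k = (∏ l ∈ w.primeFactors, loc w D l) *
      ∏ l ∈ (p.1 * k).primeFactors \ w.primeFactors, loc w D l := by
    intro k hk
    rw [hKK, mem_filter] at hk
    obtain ⟨hk1, k', hk', he⟩ := hk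
    have hs := cc1_qpf Q p p' hp hp' k k' hk1 hk' he
    rw [← hw] at hs
    have h9 := Finset.prod_sdiff (f := fun l => loc w D l) hs
    rw [hf]
    simp only
    rw [← h9]
    ring
  -- step 3
  have s3 : ∑ k ∈ KK, ∏ l ∈ (p.1 * k).primeFactors \ w.primeFactors, loc w D l ≤
      ∑ S ∈ P.powerset, ∏ l ∈ S, loc w D l := by
    have hinj : Set.InjOn (fun k => (p.1 * k).primeFactors \ w.primeFactors) (KK : Set ℕ) := by
      intro k hk k2 hk2 hE
      rw [Finset.mem_coe, hKK, mem_filter] at hk hk2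
      obtain ⟨hk1, k', hk', he⟩ := hk
      obtain ⟨hk1b, k2', hk2', he2⟩ := hk2
      have e1 := cc1_pf Q p p' hp hp' k k' hk1 hk' he
      have e2 := cc1_pf Q p p' hp hp' k2 k2' hk1b hk2' he2
      simp only at hE
      rw [← hw] at e1 e2
      rw [hE, ← e2] at e1
      have q1 : Squarefree k := by
        unfold KS at hk1
        simp only [mem_filter, mem_Icc] at hk1
        exact hk1.2.1
      have q2 : Squarefree k2 := by
        unfold KS at hk1b
        simp only [mem_filter, mem_Icc] at hk1b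
        exact hk1b.2.1
      rw [← Nat.prod_primeFactors_of_squarefree q1, ← Nat.prod_primeFactors_of_squarefree q2, e1]
    rw [← Finset.sum_image (f := fun S : Finset ℕ => ∏ l ∈ S, loc w D l) hinj]
    refine Finset.sum_le_sum_of_subset_of_nonneg ?_ ?_
    · intro S hS
      rw [Finset.mem_image] at hS
      obtain ⟨k, hk, rfl⟩ := hS
      rw [Finset.mem_powerset]
      intro l hl
      rw [mem_sdiff, Nat.mem_primeFactors, Nat.mem_primeFactors] at hl
      obtain ⟨⟨hlp, hd, hne⟩, hn⟩ := hl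
      have hnw : ¬ l ∣ w := fun h => hn ⟨hlp, h, Nat.mul_ne_zero (by omega) (by omega)⟩
      rw [hP, mem_filter, mem_range]
      refine ⟨?_, hlp, hnw⟩
      rw [hKK, mem_filter] at hk
      have hk1 := hk.1
      unfold KS at hk1
      simp only [mem_filter, mem_Icc] at hk1
      have hlk : l ∣ k := by
        rcases hlp.dvd_mul.1 hd with h | h
        · exact absurd (Dvd.dvd.mul_right h _) hnw
        · exact h
      have := Nat.le_of_dvd (by omega) hlk
      have := Nat.div_le_self Q p.1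
      omega
    · intro S hS _
      rw [Finset.mem_powerset] at hS
      refine Finset.prod_nonneg fun l hl => cc1_loc_nonneg w D l ?_
      have := hS hl
      rw [hP, mem_filter] at this
      exact this.2.1
  have s4 : ∑ S ∈ P.powerset, ∏ l ∈ S, loc w D l = ∏ l ∈ P, (1 + loc w D l) := by
    rw [Finset.prod_one_add]
  have hdis : Disjoint w.primeFactors P := by
    rw [Finset.disjoint_left]
    intro l hl hl2
    rw [hP, mem_filter] at hl2
    exact hl2.2.2 (Nat.dvd_of_mem_primeFactors hl)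
  have s5 : (∏ l ∈ w.primeFactors, loc w D l) * ∏ l ∈ P, (1 + loc w D l) =
      ∏ l ∈ w.primeFactors ∪ P, cc1_F w D l := by
    rw [Finset.prod_union hdis]
    congr 1
    · refine Finset.prod_congr rfl fun l hl => ?_
      unfold cc1_F
      rw [if_pos (Nat.dvd_of_mem_primeFactors hl)]
    · refine Finset.prod_congr rfl fun l hl => ?_
      rw [hP, mem_filter] at hl
      unfold cc1_F
      rw [if_neg hl.2.2]
  have s6 := cc1_prodF w D hD hD2 (w.primeFactors ∪ P) (by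
    intro l hl
    rw [mem_union] at hl
    rcases hl with hl | hl
    · exact Nat.prime_of_mem_primeFactors hl
    · rw [hP, mem_filter] at hl
      exact hl.2.1)
  have hw0 : 0 ≤ ∏ l ∈ w.primeFactors, loc w D l :=
    Finset.prod_nonneg fun l hl => cc1_loc_nonneg w D l (Nat.prime_of_mem_primeFactors hl)
  calc _ ≤ ∑ k ∈ KK, f k := s1
    _ = (∏ l ∈ w.primeFactors, loc w D l) *
        ∑ k ∈ KK, ∏ l ∈ (p.1 * k).primeFactors \ w.primeFactors, loc w D l := by
        rw [Finset.mul_sum]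
        exact Finset.sum_congr rfl s2
    _ ≤ (∏ l ∈ w.primeFactors, loc w D l) * ∏ l ∈ P, (1 + loc w D l) := by
        refine mul_le_mul_of_nonneg_left ?_ hw0
        rw [← s4]
        exact s3
    _ ≤ _ := by rw [s5]; exact s6

end Pool.Agent.Lib.H18Q
end

-- from Lib.H18GB.TU3Avg
section

/-!
# Project GB: TU3, averages (helper82)

Majorants over four shifts, averages of the error functions over the shifts, sums over quadruples.
-/

namespace Pool.Agent.Lib.H18GB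

open Finset Pool.Agent.Lib.Sieve

/-! ## the majorant of the four shifts -/

/-- the four shifts -/
def sh (j k : ℤ) (i : Bool × Bool) : ℤ := (if i.1 then j else 0) + (if i.2 then k else 0)

/-- majorant of a product over the four shifts -/
noncomputable def nu (S : Finset ℕ) (W : ℕ) (r j k s : ℤ) : ℝ :=
  ∏ i : Bool × Bool, (1 + rho S (r + W * (s + sh j k i)))

/-- errors from the four shifts -/
noncomputable def e0 (S : Finset ℕ) (j k : ℤ) : ℝ :=
  Ers (9 / 10) S j + Ers (9 / 10) S k + Ers (9 / 10) S (j + k) + Ers (9 / 10) S (j - k)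

theorem e0_nonneg (S : Finset ℕ) (j k : ℤ) : 0 ≤ e0 S j k := by
  unfold e0
  have := Ers_nonneg (9 / 10) S
  have h1 := this j
  have h2 := this k
  have h3 := this (j + k)
  have h4 := this (j - k)
  linarith

theorem e0_neg (S : Finset ℕ) (j k : ℤ) : e0 S (-j) k = e0 S j k := by
  unfold e0
  rw [ers_neg, show -j + k = -(j - k) by ring, show -j - k = -(j + k) by ring, ers_neg, ers_neg]
  ring

theorem ers_sh (S : Finset ℕ) (j k : ℤ) (i i' : Bool × Bool) (h : i ≠ i') :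
    Ers (9 / 10) S (sh j k i' - sh j k i) ≤ e0 S j k := by
  have h0 := Ers_nonneg (9 / 10) S
  have h1 := h0 j
  have h2 := h0 k
  have h3 := h0 (j + k)
  have h4 := h0 (j - k)
  have n1 := ers_neg (9 / 10) S j
  have n2 := ers_neg (9 / 10) S k
  have n3 := ers_neg (9 / 10) S (j + k)
  have n4 := ers_neg (9 / 10) S (j - k)
  unfold e0
  obtain ⟨i1, i2⟩ := i
  obtain ⟨i1', i2'⟩ := i'
  have key : ∀ m : ℤ, (m = j ∨ m = -j ∨ m = k ∨ m = -k ∨ m = j + k ∨ m = -(j + k) ∨ m = j - k ∨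
      m = -(j - k)) → Ers (9 / 10) S m ≤ Ers (9 / 10) S j + Ers (9 / 10) S k +
      Ers (9 / 10) S (j + k) + Ers (9 / 10) S (j - k) := by
    rintro m (rfl | rfl | rfl | rfl | rfl | rfl | rfl | rfl) <;> linarith
  apply key
  cases i1 <;> cases i2 <;> cases i1' <;> cases i2' <;> simp [sh] at h ⊢

theorem nu_eq (S : Finset ℕ) (W : ℕ) (r j k s : ℤ) : nu S W r j k s =
    ∑ T ∈ (Finset.univ : Finset (Bool × Bool)).powerset,
      ∏ i ∈ T, rho S ((W : ℤ) * s + (r + W * sh j k i)) := by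
  unfold nu
  rw [Finset.prod_one_add]
  apply Finset.sum_congr rfl
  intro T _
  apply Finset.prod_congr rfl
  intro i _
  congr 1
  ring

theorem nu_nonneg {S : Finset ℕ} (hS : ∀ p ∈ S, p.Prime) (W : ℕ) (r j k s : ℤ) :
    0 ≤ nu S W r j k s :=
  Finset.prod_nonneg fun _ _ => by
    have := rho_nonneg hS (r + W * (s + sh j k ‹_›))
    linarith

theorem disc_sum_le {w z : ℕ} {S : Finset ℕ} (hS : PSet w z S) (W : ℕ)
    (hW : ∀ p ∈ S, ¬ (p : ℤ) ∣ (W : ℤ)) (r j k : ℤ)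
    (d : ∀ i i' : Bool × Bool, Decidable (i ≠ i')) :
    (∑ i : Bool × Bool, ∑ i' : Bool × Bool, @ite ℝ (i ≠ i') (d i i')
      (Ers (9 / 10) S (disc (fun _ => (W : ℤ)) (fun i => r + W * sh j k i) i i')) 0) ≤
      16 * e0 S j k := by
  have h0 := e0_nonneg S j k
  calc (∑ i : Bool × Bool, ∑ i' : Bool × Bool, @ite ℝ (i ≠ i') (d i i')
      (Ers (9 / 10) S (disc (fun _ => (W : ℤ)) (fun i => r + W * sh j k i) i i')) 0)
      ≤ ∑ i : Bool × Bool, ∑ i' : Bool × Bool, e0 S j k := by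
        apply Finset.sum_le_sum
        intro i _
        apply Finset.sum_le_sum
        intro i' _
        split_ifs with h
        · have e1 : disc (fun _ => (W : ℤ)) (fun i => r + W * sh j k i) i i' =
              ((W : ℤ) * W) * (sh j k i' - sh j k i) := by
            unfold disc
            ring
          rw [e1, ers_mul hS.prime _ _ _ (unit_mul hS hW hW)]
          exact ers_sh S j k i i' h
        · exact h0
    _ = 16 * e0 S j k := by
        simp only [Finset.sum_const, Finset.card_univ, Fintype.card_prod, Fintype.card_bool,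
          nsmul_eq_mul]
        push_cast
        ring

/-- bound for a sum of products over subfamilies -/
theorem sum_powerset_le {f : Finset (Bool × Bool) → ℝ} {B : ℝ} (h : ∀ T, f T ≤ B) :
    ∑ T ∈ (Finset.univ : Finset (Bool × Bool)).powerset, f T ≤ 16 * B := by
  calc ∑ T ∈ (Finset.univ : Finset (Bool × Bool)).powerset, f T
      ≤ ∑ T ∈ (Finset.univ : Finset (Bool × Bool)).powerset, B := Finset.sum_le_sum fun T _ => h T
    _ = 16 * B := by
      rw [Finset.sum_const, Finset.card_powerset, Finset.card_univ]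
      simp only [Fintype.card_prod, Fintype.card_bool, nsmul_eq_mul]
      push_cast
      ring

theorem nu_sum : ∃ C : ℕ, 1 ≤ C ∧ ∀ (A w z W N : ℕ) (S : Finset ℕ), Stp C A w z W N S →
    ∀ r j k a b : ℤ, a ≤ b → b - a ≤ 10 * N →
    ∑ s ∈ Finset.Ico a b, nu S W r j k s ≤ C * N * (1 + e0 S j k) := by
  obtain ⟨C0, hC0, hc⟩ := corr0_sub (Bool × Bool)
  refine ⟨10000 * C0, by omega, fun A w z W N S h r j k a b hab hN => ?_⟩
  have h0 := e0_nonneg S j k
  have hC0' : (1 : ℝ) ≤ C0 := by exact_mod_cast hC0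
  have hs := h.mono (show C0 ≤ 10000 * C0 by omega)
  have hN' : (b : ℝ) - a ≤ 10 * N := by exact_mod_cast hN
  have hab' : (0 : ℝ) ≤ (b : ℝ) - a := by
    have : (a : ℝ) ≤ b := by exact_mod_cast hab
    linarith
  have hN0 : (0 : ℝ) ≤ N := Nat.cast_nonneg _
  have key : ∀ T : Finset (Bool × Bool),
      ∑ s ∈ Finset.Ico a b, ∏ i ∈ T, rho S ((W : ℤ) * s + (r + W * sh j k i)) ≤
      200 * C0 * N * (1 + e0 S j k) := by
    intro T
    have h1 := hc A w z S hs.hA hs.hw h.hz h.hS (fun _ => (W : ℤ)) (fun i => r + W * sh j k i)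
      (fun p hp _ => h.unitW p hp) T a b hab
    have h2 := disc_sum_le h.hS W h.unitW r j k
    have h3 := (abs_le.mp h1).2
    have her := er_le_two hC0 A (h.w_pos (by omega))
    have her0 := er_nonneg C0 A w
    have hz : (z : ℝ) ^ (A + Fintype.card (Bool × Bool)) ≤ er C0 A w * N :=
      h.zpow hC0 (by simp only [Fintype.card_prod, Fintype.card_bool]; omega)
    have h4 : (C0 : ℝ) * (z : ℝ) ^ (A + Fintype.card (Bool × Bool)) ≤ C0 * (2 * N) := by
      gcongr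
      exact hz.trans (by gcongr)
    have h3' := h3.trans (add_le_add_left (mul_le_mul_of_nonneg_left (add_le_add
      (mul_le_mul_of_nonneg_left her (by linarith)) (mul_le_mul_of_nonneg_left (h2 _)
      (by linarith : (0 : ℝ) ≤ C0))) hab') _)
    have h5 : ((b : ℝ) - a) * (C0 * 2 + C0 * (16 * e0 S j k)) ≤
        (10 * N) * (C0 * 2 + C0 * (16 * e0 S j k)) := by
      gcongr
    have h6 : (N : ℝ) ≤ C0 * N := le_mul_of_one_le_left hN0 hC0'
    have h7 : 0 ≤ C0 * N * e0 S j k := by positivity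
    nlinarith
  calc ∑ s ∈ Finset.Ico a b, nu S W r j k s
      = ∑ T ∈ (Finset.univ : Finset (Bool × Bool)).powerset,
          ∑ s ∈ Finset.Ico a b, ∏ i ∈ T, rho S ((W : ℤ) * s + (r + W * sh j k i)) := by
        simp only [nu_eq]
        rw [Finset.sum_comm]
    _ ≤ 16 * (200 * C0 * N * (1 + e0 S j k)) := sum_powerset_le key
    _ ≤ _ := by
        push_cast
        have h7 : 0 ≤ C0 * N * e0 S j k := by positivity
        have h8 : 0 ≤ (C0 : ℝ) * N := by positivity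
        nlinarith

/-- the residue class -/
theorem exists_class {w z : ℕ} {S : Finset ℕ} (hS : PSet w z S) {α : ℤ}
    (hα : ∀ p ∈ S, ¬ (p : ℤ) ∣ α) (β : ℤ) {p : ℕ} (hp : p ∈ S) :
    ∃ c : ℤ, ∀ s : ℤ, (p : ℤ) ∣ α * s + β ↔ (p : ℤ) ∣ s - c := by
  have h1 := (hS p hp).1
  have h2 : IsCoprime (p : ℤ) α :=
    (Nat.prime_iff_prime_int.mp h1).coprime_iff_not_dvd.mpr (hα p hp)
  obtain ⟨u, v, huv⟩ := h2
  refine ⟨-(v * β), fun s => ⟨fun h => ?_, fun h => ?_⟩⟩
  · have e1 : s - -(v * β) = u * p * s + v * (α * s + β) := by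
      linear_combination (-s) * huv
    rw [e1]
    exact dvd_add (Dvd.intro_left _ (by ring : u * s * (p : ℤ) = u * p * s)) (h.mul_left v)
  · have e1 : α * s + β = α * (s - -(v * β)) + u * p * β := by
      linear_combination (-β) * huv
    rw [e1]
    exact dvd_add (h.mul_left α) (Dvd.intro_left _ (by ring : u * β * (p : ℤ) = u * p * β))

theorem nu_ers : ∃ C : ℕ, 2 ≤ C ∧ ∀ (A w z W N : ℕ) (S : Finset ℕ), Stp C A w z W N S →
    ∀ r j k a b : ℤ, a ≤ b → b - a ≤ 10 * N → ∀ α β : ℤ, (∀ p ∈ S, ¬ (p : ℤ) ∣ α) →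
    ∑ s ∈ Finset.Ico a b, nu S W r j k s * Ers (9 / 10) S (α * s + β) ≤
      C * N * (1 + e0 S j k) * er C A w := by
  obtain ⟨C0, hC0, hc⟩ := corrAP_sub (Bool × Bool)
  refine ⟨100000 * C0, by omega, fun A w z W N S h r j k a b hab hN α β hα => ?_⟩
  have h0 := e0_nonneg S j k
  have hC0' : (1 : ℝ) ≤ C0 := by exact_mod_cast hC0
  have hs := h.mono (show C0 ≤ 100000 * C0 by omega)
  have hN' : (b : ℝ) - a ≤ 10 * N := by exact_mod_cast hN
  have hab' : (0 : ℝ) ≤ (b : ℝ) - a := by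
    have : (a : ℝ) ≤ b := by exact_mod_cast hab
    linarith
  have hN0 : (0 : ℝ) ≤ N := Nat.cast_nonneg _
  have hz1 : (1 : ℝ) ≤ z := by
    have := h.hz
    exact_mod_cast (by omega : 1 ≤ z)
  have hw1 : 1 ≤ w := h.w_pos (by omega)
  set ε := er (100000 * C0) A w with hε
  have hε0 : 0 ≤ ε := er_nonneg _ _ _
  -- per prime
  have key : ∀ p ∈ S, ∑ s ∈ (Finset.Ico a b).filter (fun s => (p : ℤ) ∣ α * s + β),
      nu S W r j k s ≤ 16 * (C0 * (10 * N / p * (1 + 16 * e0 S j k) + (z : ℝ) ^ (A + 4))) := by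
    intro p hp
    have hp0 : (0 : ℝ) < p := by exact_mod_cast (h.hS p hp).1.pos
    obtain ⟨c, hcc⟩ := exists_class h.hS hα β hp
    have e1 : (Finset.Ico a b).filter (fun s => (p : ℤ) ∣ α * s + β) =
        (Finset.Ico a b).filter (fun s => (p : ℤ) ∣ s - c) :=
      Finset.filter_congr fun s _ => hcc s
    rw [e1]
    simp only [nu_eq]
    rw [Finset.sum_comm]
    apply sum_powerset_le
    intro T
    have h1 := hc A w z S hs.hA hs.hw h.hz h.hS (fun _ => (W : ℤ)) (fun i => r + W * sh j k i)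
      (fun p hp _ => h.unitW p hp) T a b hab p hp c
    refine h1.trans ?_
    have h2 := disc_sum_le h.hS W h.unitW r j k
    have h3 : Fintype.card (Bool × Bool) = 4 := by simp
    rw [h3]
    apply mul_le_mul_of_nonneg_left _ (by linarith)
    apply add_le_add_left
    apply mul_le_mul _ _ _ (by positivity)
    · gcongr
    · exact add_le_add_right (h2 _) _
    · apply add_nonneg zero_le_one
      exact Finset.sum_nonneg fun _ _ => Finset.sum_nonneg fun _ _ => by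
        split_ifs
        · exact Ers_nonneg _ _ _
        · exact le_rfl
  have e2 : ∑ s ∈ Finset.Ico a b, nu S W r j k s * Ers (9 / 10) S (α * s + β) =
      ∑ p ∈ S, (p : ℝ) ^ (-(9 / 10 : ℝ)) *
        ∑ s ∈ (Finset.Ico a b).filter (fun s => (p : ℤ) ∣ α * s + β), nu S W r j k s := by
    unfold Ers
    simp_rw [Finset.mul_sum, Finset.sum_filter]
    rw [Finset.sum_comm]
    apply Finset.sum_congr rfl
    intro p _
    apply Finset.sum_congr rfl
    intro s _
    split_ifs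
    · ring
    · simp
  rw [e2]
  have hsub : S ⊆ Finset.Ioc w z := by
    intro p hp
    rw [Finset.mem_Ioc]
    exact (h.hS p hp).2
  have h3 : ∑ p ∈ S, (p : ℝ) ^ (-1 - (9 / 10 : ℝ)) ≤
      ∑ n ∈ Finset.Ioc w z, (n : ℝ) ^ (-1 - (9 / 10 : ℝ)) :=
    Finset.sum_le_sum_of_subset_of_nonneg hsub (fun _ _ _ => Real.rpow_nonneg (Nat.cast_nonneg _) _)
  have h4 := ers_tail (9 / 10) (by norm_num) w z hw1
  have h5 : (w : ℝ) ^ (-(9 / 10 : ℝ)) ≤ ε := by
    apply er_rpow A hw1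
    have : (1 : ℝ) ≤ ((100000 * C0 : ℕ) : ℝ) := by
      push_cast
      linarith
    rw [div_le_iff₀ (by linarith)]
    push_cast
    linarith
  have h6 : ∑ p ∈ S, (p : ℝ) ^ (-1 - (9 / 10 : ℝ)) ≤ 2 * ε := by linarith
  have h7 : (S.card : ℝ) * (z : ℝ) ^ (A + 4) ≤ ε * N := by
    calc (S.card : ℝ) * (z : ℝ) ^ (A + 4) ≤ z * (z : ℝ) ^ (A + 4) := by
          gcongr
          exact_mod_cast h.hS.card_le
      _ = (z : ℝ) ^ (A + 5) := by ring
      _ ≤ ε * N := h.zpow (by omega) (by omega)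
  calc ∑ p ∈ S, (p : ℝ) ^ (-(9 / 10 : ℝ)) *
        ∑ s ∈ (Finset.Ico a b).filter (fun s => (p : ℤ) ∣ α * s + β), nu S W r j k s
      ≤ ∑ p ∈ S, (160 * C0 * N * (1 + 16 * e0 S j k) * (p : ℝ) ^ (-1 - (9 / 10 : ℝ)) +
          16 * C0 * (z : ℝ) ^ (A + 4)) := by
        apply Finset.sum_le_sum
        intro p hp
        have hp0 : (0 : ℝ) < p := by exact_mod_cast (h.hS p hp).1.pos
        have hp1 : (1 : ℝ) ≤ p := by exact_mod_cast (h.hS p hp).1.one_lt.le
        have g1 : (p : ℝ) ^ (-1 - (9 / 10 : ℝ)) = (p : ℝ) ^ (-(9 / 10 : ℝ)) / p := by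
          rw [← Real.rpow_sub_one hp0.ne']
          congr 1
          ring
        have g2 : (p : ℝ) ^ (-(9 / 10 : ℝ)) ≤ 1 :=
          Real.rpow_le_one_of_one_le_of_nonpos hp1 (by norm_num)
        have g3 : 0 ≤ (p : ℝ) ^ (-(9 / 10 : ℝ)) := Real.rpow_nonneg hp0.le _
        calc _ ≤ (p : ℝ) ^ (-(9 / 10 : ℝ)) *
              (16 * (C0 * (10 * N / p * (1 + 16 * e0 S j k) + (z : ℝ) ^ (A + 4)))) :=
              mul_le_mul_of_nonneg_left (key p hp) g3
          _ = 160 * C0 * N * (1 + 16 * e0 S j k) * ((p : ℝ) ^ (-(9 / 10 : ℝ)) / p) +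
              (p : ℝ) ^ (-(9 / 10 : ℝ)) * (16 * C0 * (z : ℝ) ^ (A + 4)) := by ring
          _ ≤ _ := by
            rw [g1]
            have g4 : (p : ℝ) ^ (-(9 / 10 : ℝ)) * (16 * C0 * (z : ℝ) ^ (A + 4)) ≤
                1 * (16 * C0 * (z : ℝ) ^ (A + 4)) :=
              mul_le_mul_of_nonneg_right g2 (by positivity)
            linarith
    _ = 160 * C0 * N * (1 + 16 * e0 S j k) * ∑ p ∈ S, (p : ℝ) ^ (-1 - (9 / 10 : ℝ)) +
          16 * C0 * (S.card * (z : ℝ) ^ (A + 4)) := by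
        rw [Finset.sum_add_distrib, ← Finset.mul_sum, Finset.sum_const, nsmul_eq_mul]
        ring
    _ ≤ 160 * C0 * N * (1 + 16 * e0 S j k) * (2 * ε) + 16 * C0 * (ε * N) := by gcongr
    _ ≤ _ := by
        push_cast
        have g1 : 0 ≤ C0 * N * ε := by positivity
        have g2 : 0 ≤ C0 * N * ε * e0 S j k := by positivity
        nlinarith


/-! ## averages over the shifts -/

/-- affine with a unit coefficient -/
def AffU (S : Finset ℕ) (c : ℤ → ℤ → ℤ) : Prop :=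
  (∃ α : ℤ, (∀ p ∈ S, ¬ (p : ℤ) ∣ α) ∧ ∃ β : ℤ → ℤ, ∀ j k, c j k = α * k + β j) ∨
  (∃ α : ℤ, (∀ p ∈ S, ¬ (p : ℤ) ∣ α) ∧ ∃ β : ℤ → ℤ, ∀ j k, c j k = α * j + β k)

theorem jk_avg (t : ℝ) (ht : 0 < t) (ht1 : t ≤ 1) : ∃ C : ℕ, 2 ≤ C ∧ ∀ (A w z W N : ℕ)
    (S : Finset ℕ), Stp C A w z W N S → ∀ c : ℤ → ℤ → ℤ, AffU S c →
    ∑ j ∈ Finset.Ico (-(2 * N : ℤ)) (2 * N), ∑ k ∈ Finset.Ico (-(N : ℤ)) N, Ers t S (c j k) ≤
      C * N ^ 2 * er C A w := by
  obtain ⟨C1, hC1, hc⟩ := ers_avg t ht ht1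
  refine ⟨⌈30 * C1 + 1 / t⌉₊ + 2, by omega, fun A w z W N S h c hcc => ?_⟩
  set C := ⌈30 * C1 + 1 / t⌉₊ + 2 with hC
  have hCr : 30 * C1 + 1 / t ≤ C := by
    rw [hC]
    push_cast
    have := Nat.le_ceil (30 * C1 + 1 / t)
    linarith
  have ht' : 0 < 1 / t := by positivity
  have hN0 : (0 : ℝ) ≤ N := Nat.cast_nonneg _
  have hw1 : 1 ≤ w := h.w_pos (by omega)
  set ε := er C A w with hε
  have hε0 : 0 ≤ ε := er_nonneg _ _ _
  have hz : (z : ℝ) ≤ ε * N := by
    have h1 : (z : ℝ) ^ (A + 0) ≤ ε * N := h.zpow (by omega) (by omega)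
    have h2 : (z : ℝ) ^ 1 ≤ (z : ℝ) ^ (A + 0) := by
      apply pow_le_pow_right₀
      · have := h.hz
        exact_mod_cast (by omega : 1 ≤ z)
      · have := h.hA
        omega
    rw [pow_one] at h2
    exact h2.trans h1
  have hwt : (w : ℝ) ^ (-t) ≤ ε := by
    apply er_rpow A hw1
    rw [div_le_iff₀ (by linarith)]
    have : 1 / t * t = 1 := by field_simp
    nlinarith
  rcases hcc with ⟨α, hα, β, hβ⟩ | ⟨α, hα, β, hβ⟩
  · calc ∑ j ∈ Finset.Ico (-(2 * N : ℤ)) (2 * N), ∑ k ∈ Finset.Ico (-(N : ℤ)) N, Ers t S (c j k)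
        ≤ ∑ j ∈ Finset.Ico (-(2 * N : ℤ)) (2 * N), C1 * (2 * N * ε + ε * N) := by
          apply Finset.sum_le_sum
          intro j _
          simp only [hβ]
          refine (hc w z S hw1 h.hS α (β j) hα (-N) N (by omega)).trans ?_
          push_cast
          have : ((N : ℝ) - -N) = 2 * N := by ring
          rw [this]
          gcongr
      _ = 12 * C1 * N ^ 2 * ε := by
          rw [Finset.sum_const, Int.card_Ico, nsmul_eq_mul]
          have e1 : (2 * (N : ℤ) - -(2 * N)).toNat = 4 * N := by omega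
          rw [e1]
          push_cast
          ring
      _ ≤ C * N ^ 2 * ε := by
          gcongr
          linarith
  · rw [Finset.sum_comm]
    calc ∑ k ∈ Finset.Ico (-(N : ℤ)) N, ∑ j ∈ Finset.Ico (-(2 * N : ℤ)) (2 * N), Ers t S (c j k)
        ≤ ∑ k ∈ Finset.Ico (-(N : ℤ)) N, C1 * (4 * N * ε + ε * N) := by
          apply Finset.sum_le_sum
          intro k _
          simp only [hβ]
          refine (hc w z S hw1 h.hS α (β k) hα (-(2 * N)) (2 * N) (by omega)).trans ?_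
          push_cast
          have : ((2 : ℝ) * N - -(2 * N)) = 4 * N := by ring
          rw [this]
          gcongr
      _ = 10 * C1 * N ^ 2 * ε := by
          rw [Finset.sum_const, Int.card_Ico, nsmul_eq_mul]
          have e1 : ((N : ℤ) - -N).toNat = 2 * N := by omega
          rw [e1]
          push_cast
          ring
      _ ≤ C * N ^ 2 * ε := by
          gcongr
          linarith

theorem four_pow (a b c d : ℝ) (ha : 0 ≤ a) (hb : 0 ≤ b) (hc : 0 ≤ c) (hd : 0 ≤ d) :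
    (1 + (a + b + c + d)) ^ 4 ≤ 8 + 512 * (a ^ 4 + b ^ 4 + c ^ 4 + d ^ 4) := by
  have h1 := add_pow_le zero_le_one (by positivity : 0 ≤ a + b + c + d) 4
  have h2 := add_pow_le (by positivity : 0 ≤ a + b) (by positivity : 0 ≤ c + d) 4
  have h3 := add_pow_le ha hb 4
  have h4 := add_pow_le hc hd 4
  norm_num at h1 h2 h3 h4
  rw [← add_assoc] at h2
  linarith

theorem e0_four : ∃ C : ℕ, 2 ≤ C ∧ ∀ (A w z W N : ℕ) (S : Finset ℕ), Stp C A w z W N S →
    ∑ j ∈ Finset.Ico (-(2 * N : ℤ)) (2 * N), ∑ k ∈ Finset.Ico (-(N : ℤ)) N,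
      (1 + e0 S j k) ^ 4 ≤ (C : ℝ) * (N : ℝ) ^ 2 := by
  obtain ⟨C1, hC1, hc1⟩ := ers_pow_le
  obtain ⟨C2, hC2, hc2⟩ := jk_avg (9 / 20) (by norm_num) (by norm_num)
  refine ⟨⌈4096 * C1 * C2⌉₊ + 64 + C2, by omega, fun A w z W N S h => ?_⟩
  have hs := h.mono (show C2 ≤ ⌈4096 * C1 * C2⌉₊ + 64 + C2 by omega)
  have hcc : ∀ c : ℤ → ℤ → ℤ, AffU S c → ∑ j ∈ Finset.Ico (-(2 * N : ℤ)) (2 * N),
      ∑ k ∈ Finset.Ico (-(N : ℤ)) N, Ers (9 / 10) S (c j k) ^ 4 ≤ C1 * (C2 * N ^ 2 * 2) := by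
    intro c hc
    calc ∑ j ∈ Finset.Ico (-(2 * N : ℤ)) (2 * N),
      ∑ k ∈ Finset.Ico (-(N : ℤ)) N, Ers (9 / 10) S (c j k) ^ 4 ≤
        ∑ j ∈ Finset.Ico (-(2 * N : ℤ)) (2 * N),
      ∑ k ∈ Finset.Ico (-(N : ℤ)) N, C1 * Ers (9 / 20) S (c j k) :=
        Finset.sum_le_sum fun j _ => Finset.sum_le_sum fun k _ =>
          hc1 w z S (c j k) 4 h.hS (by norm_num) le_rfl
      _ = C1 * ∑ j ∈ Finset.Ico (-(2 * N : ℤ)) (2 * N),
      ∑ k ∈ Finset.Ico (-(N : ℤ)) N, Ers (9 / 20) S (c j k) := by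
        simp only [Finset.mul_sum]
      _ ≤ C1 * (C2 * N ^ 2 * er C2 A w) := by
        gcongr
        exact hc2 A w z W N S hs c hc
      _ ≤ _ := by
        gcongr
        exact er_le_two (by omega) A (hs.w_pos (by omega))
  have u1 := unit_one h.hS
  have u2 := unit_neg u1
  have g1 := hcc (fun j k => j) (Or.inr ⟨1, u1, fun _ => 0, fun j k => by ring⟩)
  have g2 := hcc (fun j k => k) (Or.inl ⟨1, u1, fun _ => 0, fun j k => by ring⟩)
  have g3 := hcc (fun j k => j + k) (Or.inl ⟨1, u1, fun j => j, fun j k => by ring⟩)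
  have g4 := hcc (fun j k => j - k) (Or.inl ⟨-1, u2, fun j => j, fun j k => by ring⟩)
  have h0 := Ers_nonneg (9 / 10) S
  calc ∑ j ∈ Finset.Ico (-(2 * N : ℤ)) (2 * N), ∑ k ∈ Finset.Ico (-(N : ℤ)) N,
      (1 + e0 S j k) ^ 4 ≤ ∑ j ∈ Finset.Ico (-(2 * N : ℤ)) (2 * N), ∑ k ∈ Finset.Ico (-(N : ℤ)) N,
      (8 + 512 * (Ers (9 / 10) S j ^ 4 + Ers (9 / 10) S k ^ 4 + Ers (9 / 10) S (j + k) ^ 4 +
        Ers (9 / 10) S (j - k) ^ 4)) :=
        Finset.sum_le_sum fun j _ => Finset.sum_le_sum fun k _ =>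
          four_pow _ _ _ _ (h0 _) (h0 _) (h0 _) (h0 _)
    _ = 64 * N ^ 2 + 512 * (∑ j ∈ Finset.Ico (-(2 * N : ℤ)) (2 * N),
          ∑ k ∈ Finset.Ico (-(N : ℤ)) N, Ers (9 / 10) S j ^ 4 +
        ∑ j ∈ Finset.Ico (-(2 * N : ℤ)) (2 * N),
          ∑ k ∈ Finset.Ico (-(N : ℤ)) N, Ers (9 / 10) S k ^ 4 +
        ∑ j ∈ Finset.Ico (-(2 * N : ℤ)) (2 * N),
          ∑ k ∈ Finset.Ico (-(N : ℤ)) N, Ers (9 / 10) S (j + k) ^ 4 +
        ∑ j ∈ Finset.Ico (-(2 * N : ℤ)) (2 * N),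
          ∑ k ∈ Finset.Ico (-(N : ℤ)) N, Ers (9 / 10) S (j - k) ^ 4) := by
        simp only [Finset.sum_add_distrib, ← Finset.mul_sum]
        congr 1
        rw [Finset.sum_const, Finset.sum_const, Int.card_Ico, Int.card_Ico]
        have e1 : (2 * (N : ℤ) - -(2 * N)).toNat = 4 * N := by omega
        have e2 : ((N : ℤ) - -N).toNat = 2 * N := by omega
        rw [e1, e2]
        simp only [nsmul_eq_mul]
        push_cast
        ring
    _ ≤ 64 * N ^ 2 + 512 * (4 * (C1 * (C2 * N ^ 2 * 2))) := by linarith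
    _ ≤ _ := by
        push_cast
        have h5 := Nat.le_ceil (4096 * C1 * C2)
        have h6 : (0 : ℝ) ≤ (N : ℝ) ^ 2 := by positivity
        have h7 : (0 : ℝ) ≤ C2 := Nat.cast_nonneg _
        nlinarith [mul_le_mul_of_nonneg_right h5 h6, mul_nonneg h7 h6]

/-- bound of a sum over the shifts with weights -/
theorem jk_weighted : ∃ C : ℕ, 2 ≤ C ∧ ∀ (A w z W N : ℕ) (S : Finset ℕ), Stp C A w z W N S →
    ∀ c : ℤ → ℤ → ℤ, AffU S c →
    ∑ j ∈ Finset.Ico (-(2 * N : ℤ)) (2 * N), ∑ k ∈ Finset.Ico (-(N : ℤ)) N,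
      Ers (9 / 10) S (c j k) * (1 + e0 S j k) ^ 2 ≤ C * N ^ 2 * er C A w := by
  obtain ⟨C1, hC1, hc1⟩ := ers_sq_le
  obtain ⟨C2, hC2, hc2⟩ := jk_avg (3 / 4) (by norm_num) (by norm_num)
  obtain ⟨C3, hC3, hc3⟩ := e0_four
  refine ⟨⌈C1⌉₊ * (2 * C2 * C3), ?_, fun A w z W N S h c hcc => ?_⟩
  · have : 1 ≤ ⌈C1⌉₊ := Nat.one_le_ceil_iff.mpr (by linarith)
    nlinarith [Nat.mul_le_mul hC2 hC3]
  have hc1n : 1 ≤ ⌈C1⌉₊ := Nat.one_le_ceil_iff.mpr (by linarith)
  have hle2 : 2 * C2 ≤ ⌈C1⌉₊ * (2 * C2 * C3) := by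
    calc 2 * C2 = 1 * (2 * C2 * 1) := by ring
      _ ≤ _ := Nat.mul_le_mul hc1n (Nat.mul_le_mul_left _ (by omega))
  have hle3 : C3 ≤ ⌈C1⌉₊ * (2 * C2 * C3) := by
    calc C3 = 1 * (1 * C3) := by ring
      _ ≤ _ := Nat.mul_le_mul hc1n (Nat.mul_le_mul_right _ (by omega))
  have hs2 := h.mono (show C2 ≤ ⌈C1⌉₊ * (2 * C2 * C3) by omega)
  have hs3 := h.mono hle3
  have hw1 : 1 ≤ w := hs2.w_pos (by omega)
  have a2 := hc2 A w z W N S hs2 c hcc
  have a3 := hc3 A w z W N S hs3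
  rw [← Finset.sum_product'] at a2 a3 ⊢
  have hcs := Finset.sum_mul_sq_le_sq_mul_sq
    (Finset.Ico (-(2 * N : ℤ)) (2 * N) ×ˢ Finset.Ico (-(N : ℤ)) N)
    (fun q => Ers (9 / 10) S (c q.1 q.2)) (fun q => (1 + e0 S q.1 q.2) ^ 2)
  have b1 : ∑ q ∈ Finset.Ico (-(2 * N : ℤ)) (2 * N) ×ˢ Finset.Ico (-(N : ℤ)) N,
      Ers (9 / 10) S (c q.1 q.2) ^ 2 ≤ C1 * (C2 * N ^ 2 * er C2 A w) := by
    calc _ ≤ ∑ q ∈ Finset.Ico (-(2 * N : ℤ)) (2 * N) ×ˢ Finset.Ico (-(N : ℤ)) N,
          C1 * Ers (3 / 4) S (c q.1 q.2) :=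
          Finset.sum_le_sum fun q _ => hc1 w z S _ h.hS
      _ ≤ _ := by
          rw [← Finset.mul_sum]
          gcongr
  have b2 : ∑ q ∈ Finset.Ico (-(2 * N : ℤ)) (2 * N) ×ˢ Finset.Ico (-(N : ℤ)) N,
      ((1 + e0 S q.1 q.2) ^ 2) ^ 2 ≤ (C3 : ℝ) * (N : ℝ) ^ 2 := by
    refine le_trans (le_of_eq ?_) a3
    apply Finset.sum_congr rfl
    intro q _
    ring
  have her : er C2 A w ≤ er (⌈C1⌉₊ * (2 * C2 * C3)) A w ^ 2 := by
    refine (er_le_sq (by omega) A w).trans ?_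
    apply pow_le_pow_left₀ (er_nonneg _ _ _)
    exact er_mono (by omega) hle2 A hw1
  set ε := er (⌈C1⌉₊ * (2 * C2 * C3)) A w with hε
  have hε0 : 0 ≤ ε := er_nonneg _ _ _
  set C := ⌈C1⌉₊ * (2 * C2 * C3) with hCdef
  have hC1' : (1 : ℝ) ≤ C := by
    have : 1 ≤ C := by
      rw [hCdef]
      exact le_trans (by omega) hle2
    exact_mod_cast this
  have hCC : C1 * C2 * C3 ≤ C := by
    rw [hCdef]
    push_cast
    have h1 := Nat.le_ceil C1
    have h2 : (0 : ℝ) ≤ (C2 : ℝ) * C3 := by positivity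
    nlinarith [mul_le_mul_of_nonneg_right h1 h2]
  apply (pow_le_pow_iff_left₀ _ (by positivity) two_ne_zero).mp
  · calc _ ≤ _ := hcs
      _ ≤ (C1 * (C2 * N ^ 2 * er C2 A w)) * (C3 * N ^ 2) :=
        mul_le_mul b1 b2 (Finset.sum_nonneg fun _ _ => by positivity) (by
          have := er_nonneg C2 A w
          positivity)
      _ ≤ (C1 * (C2 * N ^ 2 * ε ^ 2)) * (C3 * N ^ 2) := by gcongr
      _ = (C1 * C2 * C3) * ((N : ℝ) ^ 2 * ε) ^ 2 := by ring
      _ ≤ C ^ 2 * ((N : ℝ) ^ 2 * ε) ^ 2 := by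
        gcongr
        calc C1 * C2 * C3 ≤ (C : ℝ) := hCC
          _ ≤ C ^ 2 := by nlinarith
      _ = _ := by ring
  · exact Finset.sum_nonneg fun _ _ => mul_nonneg (Ers_nonneg _ _ _) (by positivity)


/-! ## sums over quadruples -/

theorem sum_ls_le (N : ℕ) (g : ℤ → ℤ → ℝ) (hg : ∀ s s', 0 ≤ g s s') :
    ∑ l ∈ Finset.Ico (-(N : ℤ)) N, ∑ s ∈ Finset.Ico (-(2 * N : ℤ)) (2 * N), g s (s + 2 * l) ≤
      ∑ s ∈ Finset.Ico (-(2 * N : ℤ)) (2 * N), ∑ s' ∈ Finset.Ico (-(5 * N : ℤ)) (5 * N),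
        g s s' := by
  rw [Finset.sum_comm]
  apply Finset.sum_le_sum
  intro s hs
  have hinj : Function.Injective (fun l : ℤ => s + 2 * l) := fun a b h => by
    simp only at h
    omega
  have h1 : ∑ l ∈ Finset.Ico (-(N : ℤ)) N, g s (s + 2 * l) =
      ∑ s' ∈ (Finset.Ico (-(N : ℤ)) N).map ⟨fun l : ℤ => s + 2 * l, hinj⟩, g s s' := by
    rw [Finset.sum_map]
    rfl
  rw [h1]
  apply Finset.sum_le_sum_of_subset_of_nonneg
  · intro m hm
    rw [Finset.mem_map] at hm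
    obtain ⟨l, hl, rfl⟩ := hm
    rw [Finset.mem_Ico] at hl hs ⊢
    simp only [Function.Embedding.coeFn_mk]
    omega
  · intro m _ _
    exact hg s m

theorem inner : ∃ C : ℕ, 2 ≤ C ∧ ∀ (A w z W N : ℕ) (S : Finset ℕ), Stp C A w z W N S →
    ∀ r j k : ℤ,
    (∑ l ∈ Finset.Ico (-(N : ℤ)) N, ∑ s ∈ Finset.Ico (-(2 * N : ℤ)) (2 * N),
      nu S W r j k s * nu S W r j k (s + 2 * l) ≤ C * N ^ 2 * (1 + e0 S j k) ^ 2) ∧
    (∀ α β : ℤ, (∀ p ∈ S, ¬ (p : ℤ) ∣ α) →
      ∑ l ∈ Finset.Ico (-(N : ℤ)) N, ∑ s ∈ Finset.Ico (-(2 * N : ℤ)) (2 * N),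
      nu S W r j k s * nu S W r j k (s + 2 * l) * Ers (9 / 10) S (α * s + β) ≤
        C * N ^ 2 * (1 + e0 S j k) ^ 2 * er C A w) ∧
    (∀ (α : ℤ) (β : ℤ → ℤ), (∀ p ∈ S, ¬ (p : ℤ) ∣ α) →
      ∑ l ∈ Finset.Ico (-(N : ℤ)) N, ∑ s ∈ Finset.Ico (-(2 * N : ℤ)) (2 * N),
      nu S W r j k s * nu S W r j k (s + 2 * l) * Ers (9 / 10) S (α * (s + 2 * l) + β s) ≤
        C * N ^ 2 * (1 + e0 S j k) ^ 2 * er C A w) := by
  obtain ⟨C1, hC1, hc1⟩ := nu_sum
  obtain ⟨C2, hC2, hc2⟩ := nu_ers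
  refine ⟨C1 * C1 + C1 * C2 + C1 + C2, by omega, fun A w z W N S h r j k => ?_⟩
  have h1 := h.mono (show C1 ≤ C1 * C1 + C1 * C2 + C1 + C2 by omega)
  have h2 := h.mono (show C2 ≤ C1 * C1 + C1 * C2 + C1 + C2 by omega)
  have hw1 : 1 ≤ w := h1.w_pos hC1
  have hε : er C2 A w ≤ er (C1 * C1 + C1 * C2 + C1 + C2) A w := er_mono (by omega) (by omega) A hw1
  have hε0 := er_nonneg C2 A w
  set C := C1 * C1 + C1 * C2 + C1 + C2 with hC
  have hCa : (C1 : ℝ) * C1 ≤ C := by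
    rw [hC]
    push_cast
    have : (0 : ℝ) ≤ C1 * C2 := by positivity
    have : (0 : ℝ) ≤ C1 := by positivity
    have : (0 : ℝ) ≤ C2 := by positivity
    linarith
  have hCb : (C1 : ℝ) * C2 ≤ C := by
    rw [hC]
    push_cast
    have : (0 : ℝ) ≤ C1 * C1 := by positivity
    have : (0 : ℝ) ≤ C1 := by positivity
    have : (0 : ℝ) ≤ C2 := by positivity
    linarith
  have hnu : ∀ s, 0 ≤ nu S W r j k s := fun s => nu_nonneg h.hS.prime W r j k s
  have he := Ers_nonneg (9 / 10) S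
  have h0 := e0_nonneg S j k
  have A1 := hc1 A w z W N S h1 r j k (-(2 * N)) (2 * N) (by omega) (by omega)
  have A2 := hc1 A w z W N S h1 r j k (-(5 * N)) (5 * N) (by omega) (by omega)
  have A10 : 0 ≤ ∑ s ∈ Finset.Ico (-(2 * N : ℤ)) (2 * N), nu S W r j k s :=
    Finset.sum_nonneg fun s _ => hnu s
  have A20 : 0 ≤ ∑ s ∈ Finset.Ico (-(5 * N : ℤ)) (5 * N), nu S W r j k s :=
    Finset.sum_nonneg fun s _ => hnu s
  refine ⟨?_, ?_, ?_⟩
  · refine (sum_ls_le N (fun s s' => nu S W r j k s * nu S W r j k s')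
      (fun s s' => mul_nonneg (hnu s) (hnu s'))).trans ?_
    rw [← Finset.sum_mul_sum]
    calc _ ≤ (C1 * N * (1 + e0 S j k)) * (C1 * N * (1 + e0 S j k)) :=
          mul_le_mul A1 A2 A20 (by positivity)
      _ = (C1 * C1) * (N ^ 2 * (1 + e0 S j k) ^ 2) := by ring
      _ ≤ C * (N ^ 2 * (1 + e0 S j k) ^ 2) := by gcongr
      _ = _ := by ring
  · intro α β hα
    refine (sum_ls_le N (fun s s' => nu S W r j k s * nu S W r j k s' *
      Ers (9 / 10) S (α * s + β)) (fun s s' => mul_nonneg (mul_nonneg (hnu s) (hnu s'))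
        (he _))).trans ?_
    have B := hc2 A w z W N S h2 r j k (-(2 * N)) (2 * N) (by omega) (by omega) α β hα
    have e1 : ∑ s ∈ Finset.Ico (-(2 * N : ℤ)) (2 * N), ∑ s' ∈ Finset.Ico (-(5 * N : ℤ)) (5 * N),
        nu S W r j k s * nu S W r j k s' * Ers (9 / 10) S (α * s + β) =
        (∑ s ∈ Finset.Ico (-(2 * N : ℤ)) (2 * N), nu S W r j k s * Ers (9 / 10) S (α * s + β)) *
          ∑ s' ∈ Finset.Ico (-(5 * N : ℤ)) (5 * N), nu S W r j k s' := by
      rw [Finset.sum_mul_sum]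
      apply Finset.sum_congr rfl
      intro s _
      apply Finset.sum_congr rfl
      intro s' _
      ring
    rw [e1]
    calc _ ≤ (C2 * N * (1 + e0 S j k) * er C2 A w) * (C1 * N * (1 + e0 S j k)) :=
          mul_le_mul B A2 A20 (by positivity)
      _ = (C1 * C2) * (N ^ 2 * (1 + e0 S j k) ^ 2) * er C2 A w := by ring
      _ ≤ C * (N ^ 2 * (1 + e0 S j k) ^ 2) * er C A w := by gcongr
      _ = _ := by ring
  · intro α β hα
    refine (sum_ls_le N (fun s s' => nu S W r j k s * nu S W r j k s' *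
      Ers (9 / 10) S (α * s' + β s)) (fun s s' => mul_nonneg (mul_nonneg (hnu s) (hnu s'))
        (he _))).trans ?_
    calc ∑ s ∈ Finset.Ico (-(2 * N : ℤ)) (2 * N), ∑ s' ∈ Finset.Ico (-(5 * N : ℤ)) (5 * N),
        nu S W r j k s * nu S W r j k s' * Ers (9 / 10) S (α * s' + β s) =
        ∑ s ∈ Finset.Ico (-(2 * N : ℤ)) (2 * N), nu S W r j k s *
          ∑ s' ∈ Finset.Ico (-(5 * N : ℤ)) (5 * N),
            nu S W r j k s' * Ers (9 / 10) S (α * s' + β s) := by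
          apply Finset.sum_congr rfl
          intro s _
          rw [Finset.mul_sum]
          apply Finset.sum_congr rfl
          intro s' _
          ring
      _ ≤ ∑ s ∈ Finset.Ico (-(2 * N : ℤ)) (2 * N), nu S W r j k s *
          (C2 * N * (1 + e0 S j k) * er C2 A w) := by
          apply Finset.sum_le_sum
          intro s _
          exact mul_le_mul_of_nonneg_left (hc2 A w z W N S h2 r j k (-(5 * N)) (5 * N) (by omega)
            (by omega) α (β s) hα) (hnu s)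
      _ = (∑ s ∈ Finset.Ico (-(2 * N : ℤ)) (2 * N), nu S W r j k s) *
          (C2 * N * (1 + e0 S j k) * er C2 A w) := by rw [Finset.sum_mul]
      _ ≤ (C1 * N * (1 + e0 S j k)) * (C2 * N * (1 + e0 S j k) * er C2 A w) :=
          mul_le_mul_of_nonneg_right A1 (by positivity)
      _ = (C1 * C2) * (N ^ 2 * (1 + e0 S j k) ^ 2) * er C2 A w := by ring
      _ ≤ C * (N ^ 2 * (1 + e0 S j k) ^ 2) * er C A w := by gcongr
      _ = _ := by ring

/-- the three types of error functions -/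
def Ty (S : Finset ℕ) (Φ : ℤ → ℤ → ℤ → ℤ → ℝ) : Prop :=
  (∃ α : ℤ, (∀ p ∈ S, ¬ (p : ℤ) ∣ α) ∧ ∃ β : ℤ → ℤ → ℤ, ∀ j k l s,
    Φ j k l s ≤ Ers (9 / 10) S (α * s + β j k)) ∨
  (∃ α : ℤ, (∀ p ∈ S, ¬ (p : ℤ) ∣ α) ∧ ∃ β : ℤ → ℤ → ℤ → ℤ, ∀ j k l s,
    Φ j k l s ≤ Ers (9 / 10) S (α * (s + 2 * l) + β j k s)) ∨
  (∃ c : ℤ → ℤ → ℤ, AffU S c ∧ ∀ j k l s, Φ j k l s ≤ Ers (9 / 10) S (c j k))

/-- sum over quadruples -/
noncomputable def Qs (S : Finset ℕ) (W N : ℕ) (r : ℤ) (Φ : ℤ → ℤ → ℤ → ℤ → ℝ) : ℝ :=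
  ∑ j ∈ Finset.Ico (-(2 * N : ℤ)) (2 * N), ∑ k ∈ Finset.Ico (-(N : ℤ)) N,
    ∑ l ∈ Finset.Ico (-(N : ℤ)) N, ∑ s ∈ Finset.Ico (-(2 * N : ℤ)) (2 * N),
      nu S W r j k s * nu S W r j k (s + 2 * l) * Φ j k l s

theorem Qs_mono {S : Finset ℕ} (hS : ∀ p ∈ S, p.Prime) (W N : ℕ) (r : ℤ)
    {Φ Ψ : ℤ → ℤ → ℤ → ℤ → ℝ} (h : ∀ j k l s, Φ j k l s ≤ Ψ j k l s) :
    Qs S W N r Φ ≤ Qs S W N r Ψ := by
  unfold Qs
  apply Finset.sum_le_sum; intro j _
  apply Finset.sum_le_sum; intro k _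
  apply Finset.sum_le_sum; intro l _
  apply Finset.sum_le_sum; intro s _
  exact mul_le_mul_of_nonneg_left (h j k l s)
    (mul_nonneg (nu_nonneg hS _ _ _ _ _) (nu_nonneg hS _ _ _ _ _))

theorem e0_two : ∃ C : ℕ, 2 ≤ C ∧ ∀ (A w z W N : ℕ) (S : Finset ℕ), Stp C A w z W N S →
    ∑ j ∈ Finset.Ico (-(2 * N : ℤ)) (2 * N), ∑ k ∈ Finset.Ico (-(N : ℤ)) N,
      (1 + e0 S j k) ^ 2 ≤ (C : ℝ) * (N : ℝ) ^ 2 := by
  obtain ⟨C, hC, hc⟩ := e0_four
  refine ⟨C, hC, fun A w z W N S h => le_trans ?_ (hc A w z W N S h)⟩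
  apply Finset.sum_le_sum; intro j _
  apply Finset.sum_le_sum; intro k _
  have := e0_nonneg S j k
  exact pow_le_pow_right₀ (by linarith) (by norm_num)

theorem quad0 : ∃ C : ℕ, 2 ≤ C ∧ ∀ (A w z W N : ℕ) (S : Finset ℕ), Stp C A w z W N S →
    ∀ r : ℤ, Qs S W N r (fun _ _ _ _ => 1) ≤ (C : ℝ) * (N : ℝ) ^ 4 := by
  obtain ⟨C1, hC1, hc1⟩ := inner
  obtain ⟨C2, hC2, hc2⟩ := e0_two
  refine ⟨C1 * C2, by nlinarith, fun A w z W N S h r => ?_⟩
  have h1 := h.mono (show C1 ≤ C1 * C2 by nlinarith)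
  have h2 := h.mono (show C2 ≤ C1 * C2 by nlinarith)
  unfold Qs
  simp only [mul_one]
  calc _ ≤ ∑ j ∈ Finset.Ico (-(2 * N : ℤ)) (2 * N), ∑ k ∈ Finset.Ico (-(N : ℤ)) N,
        (C1 * N ^ 2 * (1 + e0 S j k) ^ 2 : ℝ) :=
        Finset.sum_le_sum fun j _ => Finset.sum_le_sum fun k _ => (hc1 A w z W N S h1 r j k).1
    _ = (C1 * N ^ 2 : ℝ) * ∑ j ∈ Finset.Ico (-(2 * N : ℤ)) (2 * N),
        ∑ k ∈ Finset.Ico (-(N : ℤ)) N, (1 + e0 S j k) ^ 2 := by
        simp only [Finset.mul_sum]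
    _ ≤ (C1 * N ^ 2 : ℝ) * (C2 * N ^ 2) :=
        mul_le_mul_of_nonneg_left (hc2 A w z W N S h2) (by positivity)
    _ = _ := by push_cast; ring

theorem quad : ∃ C : ℕ, 2 ≤ C ∧ ∀ (A w z W N : ℕ) (S : Finset ℕ), Stp C A w z W N S →
    ∀ (r : ℤ) (Φ : ℤ → ℤ → ℤ → ℤ → ℝ), Ty S Φ →
    Qs S W N r Φ ≤ (C : ℝ) * (N : ℝ) ^ 4 * er C A w := by
  obtain ⟨C1, hC1, hc1⟩ := inner
  obtain ⟨C2, hC2, hc2⟩ := e0_two
  obtain ⟨C3, hC3, hc3⟩ := jk_weighted
  refine ⟨C1 * C2 * C3, by nlinarith [Nat.mul_le_mul hC1 hC2], fun A w z W N S h r Φ hΦ => ?_⟩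
  have l1 : C1 * C2 ≤ C1 * C2 * C3 := Nat.le_mul_of_pos_right _ (by omega)
  have l2 : C1 * C3 ≤ C1 * C2 * C3 := by
    rw [mul_right_comm]
    exact Nat.le_mul_of_pos_right _ (by omega)
  have h1 := h.mono (show C1 ≤ C1 * C2 * C3 by nlinarith)
  have h2 := h.mono (show C2 ≤ C1 * C2 * C3 by nlinarith)
  have h3 := h.mono (show C3 ≤ C1 * C2 * C3 by nlinarith)
  have hw1 : 1 ≤ w := h1.w_pos (by omega)
  have hε1 : er C1 A w ≤ er (C1 * C2 * C3) A w := er_mono (by omega) (by nlinarith) A hw1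
  have hε3 : er C3 A w ≤ er (C1 * C2 * C3) A w := er_mono (by omega) (by nlinarith) A hw1
  have e1 := er_nonneg C1 A w
  have e3 := er_nonneg C3 A w
  set C := C1 * C2 * C3 with hC
  have l1' : (C1 : ℝ) * C2 ≤ C := by exact_mod_cast l1
  have l2' : (C1 : ℝ) * C3 ≤ C := by exact_mod_cast l2
  have fin : ∀ {X : ℝ}, (X ≤ ∑ j ∈ Finset.Ico (-(2 * N : ℤ)) (2 * N),
      ∑ k ∈ Finset.Ico (-(N : ℤ)) N, (C1 * N ^ 2 * (1 + e0 S j k) ^ 2 * er C1 A w : ℝ)) →
      X ≤ (C : ℝ) * (N : ℝ) ^ 4 * er C A w := by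
    intro X hX
    calc X ≤ _ := hX
      _ = (C1 * N ^ 2 * er C1 A w : ℝ) * ∑ j ∈ Finset.Ico (-(2 * N : ℤ)) (2 * N),
          ∑ k ∈ Finset.Ico (-(N : ℤ)) N, (1 + e0 S j k) ^ 2 := by
          simp only [Finset.mul_sum]
          apply Finset.sum_congr rfl; intro j _
          apply Finset.sum_congr rfl; intro k _
          ring
      _ ≤ (C1 * N ^ 2 * er C1 A w : ℝ) * (C2 * N ^ 2) :=
          mul_le_mul_of_nonneg_left (hc2 A w z W N S h2) (by positivity)
      _ = (C1 * C2) * N ^ 4 * er C1 A w := by ring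
      _ ≤ C * N ^ 4 * er C A w := by gcongr
  rcases hΦ with ⟨α, hα, β, hb⟩ | ⟨α, hα, β, hb⟩ | ⟨c, hc, hb⟩
  · refine (Qs_mono h.hS.prime W N r hb).trans (fin ?_)
    unfold Qs
    exact Finset.sum_le_sum fun j _ => Finset.sum_le_sum fun k _ =>
      (hc1 A w z W N S h1 r j k).2.1 α (β j k) hα
  · refine (Qs_mono h.hS.prime W N r hb).trans (fin ?_)
    unfold Qs
    exact Finset.sum_le_sum fun j _ => Finset.sum_le_sum fun k _ =>
      (hc1 A w z W N S h1 r j k).2.2 α (β j k) hα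
  · refine (Qs_mono h.hS.prime W N r hb).trans ?_
    unfold Qs
    simp only [← Finset.sum_mul]
    calc _ ≤ ∑ j ∈ Finset.Ico (-(2 * N : ℤ)) (2 * N), ∑ k ∈ Finset.Ico (-(N : ℤ)) N,
          ((C1 * N ^ 2 * (1 + e0 S j k) ^ 2) * Ers (9 / 10) S (c j k) : ℝ) :=
          Finset.sum_le_sum fun j _ => Finset.sum_le_sum fun k _ =>
            mul_le_mul_of_nonneg_right (hc1 A w z W N S h1 r j k).1 (Ers_nonneg _ _ _)
      _ = (C1 * N ^ 2 : ℝ) * ∑ j ∈ Finset.Ico (-(2 * N : ℤ)) (2 * N),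
          ∑ k ∈ Finset.Ico (-(N : ℤ)) N, Ers (9 / 10) S (c j k) * (1 + e0 S j k) ^ 2 := by
          simp only [Finset.mul_sum]
          apply Finset.sum_congr rfl; intro j _
          apply Finset.sum_congr rfl; intro k _
          ring
      _ ≤ (C1 * N ^ 2 : ℝ) * (C3 * N ^ 2 * er C3 A w) :=
          mul_le_mul_of_nonneg_left (hc3 A w z W N S h3 c hc) (by positivity)
      _ = (C1 * C3) * N ^ 4 * er C3 A w := by ring
      _ ≤ C * N ^ 4 * er C A w := by gcongr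

end Pool.Agent.Lib.H18GB
end
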