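import Pool.Agent.Lib.H1M.RV.M002
import Pool.Agent.Lib.H1M.RV.M018
import Pool.Agent.Lib.H1M.RV.M020
import Pool.Agent.Lib.H1M.RV.M031
import Pool.Agent.Lib.H1M.RV.M037
import Pool.Agent.Lib.H1M.RV.M039

/-! Merged copies (to shorten the build) of Lib.H18Q.CA, Lib.H18Q.CF, Lib.H57M.B6, Lib.H59C.CCV, Lib.H59C.CRP. -/

-- from Lib.H18Q.CA
section

/-!
# Project H18Q, chunk CA: the components of the projection
-/

open Finset

namespace Pool.Agent.Lib.H18Q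

open Pool.Agent.Lib.H68T

theorem CA_chi_zero (r : ℕ) (χ : DirichletCharacter ℂ r) (m : ℤ) (h : ¬ IsCoprime (r : ℤ) m) :
    χ (m : ZMod r) = 0 := by
  apply MulChar.map_nonunit
  rw [ZMod.coe_int_isUnit_iff_isCoprime]
  exact h

theorem CA_sum_icc (Q r : ℕ) (hr : 1 ≤ r) (m : ℤ) (hrm : IsCoprime (r : ℤ) m) :
    Gam Q r m = (r : ℝ) / Nat.totient r * ∑ q ∈ Icc 1 (Q / r), GAM_F r m q := by
  have himg : (Icc 1 Q).filter (fun q => r ∣ q) = (Icc 1 (Q / r)).image (fun q => r * q) := by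
    ext q
    simp only [mem_filter, mem_Icc, mem_image]
    constructor
    · rintro ⟨⟨h1, h2⟩, ⟨e, rfl⟩⟩
      refine ⟨e, ⟨?_, ?_⟩, rfl⟩
      · rcases Nat.eq_zero_or_pos e with rfl | h
        · simp at h1
        · exact h
      · rw [Nat.le_div_iff_mul_le (by omega), mul_comm]
        exact h2
    · rintro ⟨e, ⟨h1, h2⟩, rfl⟩
      refine ⟨⟨Nat.mul_pos (by omega) (by omega), ?_⟩, Dvd.intro _ rfl⟩
      rw [Nat.le_div_iff_mul_le (by omega), mul_comm] at h2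
      exact h2
  unfold Gam
  rw [himg, Finset.sum_image (fun a _ b _ h => Nat.eq_of_mul_eq_mul_left (by omega) h),
    Finset.mul_sum]
  refine Finset.sum_congr rfl (fun q hq => ?_)
  rw [mem_Icc] at hq
  exact GAM_inner r m (by omega) hrm q (by omega)

theorem CA_F_zero (r : ℕ) (m : ℤ) (hrm : IsCoprime (r : ℤ) m) (q : ℕ) (hq : q ≠ 0)
    (h : ¬ (Squarefree q ∧ Nat.Coprime q r)) : GAM_F r m q = 0 := by
  by_cases hs : Squarefree q
  · have hc : ¬ Nat.Coprime q r := fun h' => h ⟨hs, h'⟩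
    obtain ⟨l, hl, hlq, hlr⟩ := Nat.Prime.not_coprime_iff_dvd.1 hc
    rw [← (GAM_F_mult r m).prod_primeFactors hs]
    refine Finset.prod_eq_zero (Nat.mem_primeFactors.2 ⟨hl, hlq, hq⟩) ?_
    rw [GAM_F_prime r m l hl, if_neg, if_pos hlr]
    intro hlm
    have h1 : IsCoprime (l : ℤ) m := by
      obtain ⟨c, rfl⟩ := hlr
      rw [Nat.cast_mul, IsCoprime.mul_left_iff] at hrm
      exact hrm.1
    exact (Nat.prime_iff_prime_int.mp hl).not_unit (h1.isUnit_of_dvd' dvd_rfl hlm)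
  · have h1 := GAM_F_abs r m q hq
    rw [if_neg hs, abs_nonpos_iff] at h1
    exact h1

theorem CA_F_one (m : ℤ) (k : ℕ) : GAM_F 1 m k =
    (ArithmeticFunction.moebius k : ℝ) / (Nat.totient k : ℝ) * cq k m := by
  rw [GAM_identity, ArithmeticFunction.pdiv_apply, ArithmeticFunction.pmul_apply, GAM_c_apply,
    ArithmeticFunction.intCoe_apply]
  change _ / ((Nat.totient k : ℕ) : ℝ) = _
  ring

theorem CA_F_eq (r : ℕ) (m : ℤ) (k : ℕ) (hs : Squarefree k) (hc : Nat.Coprime k r) :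
    GAM_F r m k = GAM_F 1 m k := by
  rw [← (GAM_F_mult r m).prod_primeFactors hs, ← (GAM_F_mult 1 m).prod_primeFactors hs]
  refine Finset.prod_congr rfl fun l hl => ?_
  have hl' := Nat.mem_primeFactors.1 hl
  rw [GAM_F_prime r m l hl'.1, GAM_F_prime 1 m l hl'.1]
  have h1 : ¬ l ∣ r := fun h => hl'.1.one_lt.ne' (Nat.dvd_one.1 (hc ▸ Nat.dvd_gcd hl'.2.1 h))
  have h2 : ¬ l ∣ 1 := fun h => hl'.1.one_lt.ne' (Nat.dvd_one.1 h)
  rw [if_neg h1, if_neg h2]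

theorem CA_mem_KS {Q r k : ℕ} : k ∈ KS Q r ↔ (1 ≤ k ∧ k ≤ Q / r) ∧ Squarefree k ∧ Nat.Coprime k r := by
  classical
  unfold KS
  rw [mem_filter, mem_Icc]

theorem CA_F_abs (m : ℤ) (k : ℕ) (hs : Squarefree k) : |GAM_F 1 m k| =
    ∏ l ∈ k.primeFactors, (if (l : ℤ) ∣ m then 1 else 1 / ((l : ℝ) - 1)) := by
  rw [← (GAM_F_mult 1 m).prod_primeFactors hs, Finset.abs_prod]
  refine Finset.prod_congr rfl fun l hl => ?_
  have hl' := Nat.mem_primeFactors.1 hl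
  have h2 : ¬ l ∣ 1 := fun h => hl'.1.one_lt.ne' (Nat.dvd_one.1 h)
  have h3 : (2 : ℝ) ≤ l := by exact_mod_cast hl'.1.two_le
  rw [GAM_F_prime 1 m l hl'.1, if_neg h2]
  split_ifs
  · simp
  · rw [abs_of_nonneg]
    exact div_nonneg zero_le_one (by linarith)

theorem CA_norm (p : Σ r : ℕ, DirichletCharacter ℂ r) (k : ℕ) (m : ℤ) :
    ‖gk p k m‖ = (p.1 : ℝ) / (Nat.totient p.1 : ℝ) * ‖p.2 (m : ZMod p.1)‖ * |GAM_F 1 m k| := by
  unfold gk
  rw [norm_mul, norm_mul, RCLike.norm_conj, Complex.norm_real, Complex.norm_real, Real.norm_eq_abs,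
    Real.norm_eq_abs, ← CA_F_one, abs_of_nonneg (by positivity : (0 : ℝ) ≤ (p.1 : ℝ) / (Nat.totient p.1 : ℝ))]

theorem CA_cq_congr (k : ℕ) (a b : ℤ) (h : (k : ℤ) ∣ a - b) : cq k a = cq k b := by
  unfold cq
  refine Finset.sum_congr ?_ fun _ _ => rfl
  refine Finset.filter_congr fun d hd => ?_
  have h1 : (d : ℤ) ∣ a - b := (Int.natCast_dvd_natCast.2 (Nat.dvd_of_mem_divisors hd)).trans h
  exact (dvd_iff_dvd_of_dvd_sub h1)

theorem CA_cq_mul (a b : ℕ) (n : ℤ) (h : Nat.Coprime a b) : cq (a * b) n = cq a n * cq b n := by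
  rw [← GAM_c_apply, ← GAM_c_apply, ← GAM_c_apply]
  exact (GAM_c_mult n).2 h

theorem CA_cq_prime (l : ℕ) (hl : l.Prime) (n : ℤ) : cq l n = -1 + if (l : ℤ) ∣ n then (l : ℝ) else 0 := by
  unfold cq
  rw [Finset.sum_filter, hl.divisors, Finset.sum_pair hl.one_lt.ne, Nat.div_one,
    Nat.div_self hl.pos, ArithmeticFunction.moebius_apply_one,
    ArithmeticFunction.moebius_apply_prime hl]
  simp

theorem CA_range (l : ℕ) [NeZero l] (g : ZMod l → ℂ) : ∑ j ∈ range l, g (j : ZMod l) = ∑ z, g z := by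
  refine Finset.sum_bij' (fun (j : ℕ) _ => (j : ZMod l)) (fun (z : ZMod l) _ => z.val)
    (fun _ _ => mem_univ _) (fun z _ => mem_range.2 (ZMod.val_lt z)) (fun j hj => ?_)
    (fun z _ => ZMod.natCast_zmod_val z) (fun _ _ => rfl)
  rw [ZMod.val_natCast, Nat.mod_eq_of_lt (mem_range.1 hj)]

theorem CA_shift (l : ℕ) [NeZero l] (f : ℤ → ℂ) (hf : ∀ a b : ℤ, (a : ZMod l) = b → f a = f b)
    (a b : ℤ) (ha : IsUnit (a : ZMod l)) : ∑ j ∈ range l, f (a * j + b) = ∑ j ∈ range l, f j := by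
  obtain ⟨F, hF⟩ : ∃ F : ZMod l → ℂ, ∀ n : ℤ, f n = F (n : ZMod l) := by
    refine ⟨fun z => f (z.val : ℤ), fun n => hf _ _ ?_⟩
    simp
  have h1 : ∑ j ∈ range l, f (a * j + b) = ∑ z : ZMod l, F ((a : ZMod l) * z + b) := by
    rw [← CA_range l fun z => F ((a : ZMod l) * z + b)]
    refine Finset.sum_congr rfl fun j _ => ?_
    rw [hF]
    push_cast
    rfl
  have h2 : ∑ j ∈ range l, f j = ∑ z : ZMod l, F z := by
    rw [← CA_range l F]
    refine Finset.sum_congr rfl fun j _ => ?_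
    rw [hF]
    push_cast
    rfl
  rw [h1, h2]
  have hbij : Function.Bijective fun z : ZMod l => (a : ZMod l) * z + b := by
    rw [← Finite.injective_iff_bijective]
    intro x y hxy
    exact ha.mul_left_cancel (add_right_cancel hxy)
  exact hbij.sum_comp F

/-- Expansion into components. Proof: if `(m, r) ≠ 1`, `r = p.1`, then `χ(m) = 0` and both sides
vanish. Otherwise `Gam Q r m = ∑_{q ≤ Q, r ∣ q} (...)`, `q = r k`, `k ≤ Q/r`, and the inner sum is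
`(r/φ(r)) GAM_F r m k` (`GAM_inner` in `H68T/GAM1`). `GAM_F r m` is multiplicative, `0` at squares of
primes and beyond (`GAM_F_prime_pow`), and at a prime `l` it is `-1` if `l ∣ m`, `0` if `l ∣ r` (then
`l ∤ m`), else `1/(l-1)` (`GAM_F_prime`). So it vanishes unless `k` is squarefree and coprime to
`r`, and then equals `GAM_F 1 m k = μ(k) c_k(m)/φ(k)` (`GAM_identity`; compare prime by prime). -/
theorem gam_expand (Q : ℕ) (p : Σ r : ℕ, DirichletCharacter ℂ r) (hp : p ∈ PC Q) (m : ℤ) :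
    (Gam Q p.1 m : ℂ) * (starRingEnd ℂ) (p.2 (m : ZMod p.1)) = ∑ k ∈ KS Q p.1, gk p k m := by
  obtain ⟨hr1, hrQ, hprim⟩ := mem_PC.1 hp
  by_cases hrm : IsCoprime (p.1 : ℤ) m
  · rw [CA_sum_icc Q p.1 hr1 m hrm]
    have h1 : ∑ q ∈ Icc 1 (Q / p.1), GAM_F p.1 m q = ∑ k ∈ KS Q p.1, GAM_F 1 m k := by
      rw [← Finset.sum_subset (s₁ := KS Q p.1)]
      · refine Finset.sum_congr rfl fun k hk => ?_
        obtain ⟨-, h2, h3⟩ := CA_mem_KS.1 hk
        exact CA_F_eq p.1 m k h2 h3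
      · intro k hk
        exact mem_Icc.2 (CA_mem_KS.1 hk).1
      · intro k hk hk'
        refine CA_F_zero p.1 m hrm k ?_ fun h => hk' (CA_mem_KS.2 ⟨mem_Icc.1 hk, h⟩)
        have := (mem_Icc.1 hk).1
        omega
    rw [h1]
    push_cast
    rw [Finset.mul_sum, Finset.sum_mul]
    refine Finset.sum_congr rfl fun k _ => ?_
    unfold gk
    rw [CA_F_one]
    push_cast
    ring
  · have h0 := CA_chi_zero p.1 p.2 m hrm
    rw [h0, map_zero, mul_zero]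
    symm
    refine Finset.sum_eq_zero fun k _ => ?_
    unfold gk
    rw [h0, map_zero, mul_zero, zero_mul]

/-- The component is bounded by the product over primes: `|χ(m)| ≤ ∏_{l ∣ r} 1[l ∤ m]`,
`r/φ(r) = ∏ l/(l-1)` (`GAM_ratio`), `|c_k(m)/φ(k)| = ∏_{l ∣ k} (1 or 1/(l-1))` for squarefree `k`
(`GAM_identity`, `GAM_F_prime`, multiplicativity). -/
theorem gk_le_aw (Q : ℕ) (p : Σ r : ℕ, DirichletCharacter ℂ r) (hp : p ∈ PC Q) (k : ℕ)
    (hk : k ∈ KS Q p.1) (m : ℤ) : ‖gk p k m‖ ≤ aw p k m := by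
  obtain ⟨hr1, hrQ, hprim⟩ := mem_PC.1 hp
  obtain ⟨-, hs, -⟩ := CA_mem_KS.1 hk
  rw [CA_norm, CA_F_abs m k hs]
  unfold aw
  refine mul_le_mul_of_nonneg_right ?_ ?_
  · by_cases hex : ∃ l ∈ p.1.primeFactors, (l : ℤ) ∣ m
    · obtain ⟨l, hl, hlm⟩ := hex
      have hl' := Nat.mem_primeFactors.1 hl
      have h0 : p.2 (m : ZMod p.1) = 0 := by
        refine CA_chi_zero p.1 p.2 m fun h => ?_
        obtain ⟨c, hc⟩ := hl'.2.1
        rw [hc, Nat.cast_mul, IsCoprime.mul_left_iff] at h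
        exact (Nat.prime_iff_prime_int.mp hl'.1).not_unit (h.1.isUnit_of_dvd' dvd_rfl hlm)
      rw [h0, norm_zero, mul_zero, Finset.prod_eq_zero hl (by rw [if_pos hlm])]
    · push Not at hex
      have h1 : ∏ l ∈ p.1.primeFactors, (if (l : ℤ) ∣ m then 0 else (l : ℝ) / ((l : ℝ) - 1)) =
          (p.1 : ℝ) / (Nat.totient p.1 : ℝ) := by
        rw [GAM_ratio p.1 (by omega)]
        refine Finset.prod_congr rfl fun l hl => ?_
        rw [if_neg (hex l hl)]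
      rw [h1]
      exact mul_le_of_le_one_right (by positivity) (DirichletCharacter.norm_le_one p.2 _)
  · refine Finset.prod_nonneg fun l hl => ?_
    have hl' := Nat.mem_primeFactors.1 hl
    have h3 : (2 : ℝ) ≤ l := by exact_mod_cast hl'.1.two_le
    split_ifs
    · exact zero_le_one
    · exact div_nonneg zero_le_one (by linarith)

/-- `|gk| ≤ Q`: `r/φ(r) ≤ r ≤ Q` and the other factors are at most `1`. -/
theorem gk_bound (Q : ℕ) (p : Σ r : ℕ, DirichletCharacter ℂ r) (hp : p ∈ PC Q) (k : ℕ)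
    (hk : k ∈ KS Q p.1) (m : ℤ) : ‖gk p k m‖ ≤ Q := by
  obtain ⟨hr1, hrQ, hprim⟩ := mem_PC.1 hp
  obtain ⟨-, hs, -⟩ := CA_mem_KS.1 hk
  rw [CA_norm, CA_F_abs m k hs]
  have h1 : ∏ l ∈ k.primeFactors, (if (l : ℤ) ∣ m then 1 else 1 / ((l : ℝ) - 1)) ≤ 1 := by
    refine Finset.prod_le_one (fun l hl => ?_) (fun l hl => ?_)
    · have hl' := Nat.mem_primeFactors.1 hl
      have h3 : (2 : ℝ) ≤ l := by exact_mod_cast hl'.1.two_le
      split_ifs
      · exact zero_le_one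
      · exact div_nonneg zero_le_one (by linarith)
    · have hl' := Nat.mem_primeFactors.1 hl
      have h3 : (2 : ℝ) ≤ l := by exact_mod_cast hl'.1.two_le
      split_ifs
      · exact le_rfl
      · rw [div_le_one (by linarith)]
        linarith
  have h0 : 0 ≤ ∏ l ∈ k.primeFactors, (if (l : ℤ) ∣ m then 1 else 1 / ((l : ℝ) - 1)) := by
    refine Finset.prod_nonneg fun l hl => ?_
    have hl' := Nat.mem_primeFactors.1 hl
    have h3 : (2 : ℝ) ≤ l := by exact_mod_cast hl'.1.two_le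
    split_ifs
    · exact zero_le_one
    · exact div_nonneg zero_le_one (by linarith)
  have h2 : (p.1 : ℝ) / (Nat.totient p.1 : ℝ) ≤ Q := by
    have h4 : (1 : ℝ) ≤ (Nat.totient p.1 : ℝ) := by
      exact_mod_cast Nat.totient_pos.2 (by omega)
    refine (div_le_self (by positivity) h4).trans ?_
    exact_mod_cast hrQ
  have h5 := DirichletCharacter.norm_le_one p.2 (m : ZMod p.1)
  calc (p.1 : ℝ) / (Nat.totient p.1 : ℝ) * ‖p.2 (m : ZMod p.1)‖ *
        ∏ l ∈ k.primeFactors, (if (l : ℤ) ∣ m then 1 else 1 / ((l : ℝ) - 1))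
      ≤ (Q : ℝ) * 1 * 1 := by
        refine mul_le_mul (mul_le_mul h2 h5 (norm_nonneg _) (by positivity)) h1 h0 (by positivity)
    _ = Q := by ring

theorem gk_period (p : Σ r : ℕ, DirichletCharacter ℂ r) (k : ℕ) (m j : ℤ) :
    gk p k (m + (p.1 * k : ℕ) * j) = gk p k m := by
  unfold gk
  have h1 : ((m + (p.1 * k : ℕ) * j : ℤ) : ZMod p.1) = (m : ZMod p.1) := by
    push_cast
    simp
  have h2 : cq k (m + (p.1 * k : ℕ) * j) = cq k m := by
    refine CA_cq_congr k _ _ ⟨p.1 * j, ?_⟩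
    push_cast
    ring
  rw [h1, h2]

/-- Primitivity. Let `l` be a prime dividing `p.1 k`, `N = p.1 k / l`. If `l ∣ k` (then `l ∤ r`):
`N = r (k/l)`, `χ` and `c_(k/l)` do not see the shift, `c_k = c_(k/l) c_l`
(`GAM_c_mult`; coprime since `k` is squarefree), and `c_l(n) = l - 1` if `l ∣ n`, `-1` else, so the sum
of `c_l` over the `l` different classes `m + j N` modulo `l` is `0`. If `l ∣ r` (then `l ∤ k`):
`N = k (r/l)`, `c_k` does not see the shift, and `∑_j conj χ(m + j k r/l) = 0`: the values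
`m + j k (r/l)` run through all classes modulo `r` congruent to `m` modulo `r/l` (`k` is a unit
modulo `l`); by primitivity there is a unit `u ≡ 1` modulo `r/l` with `χ(u) ≠ 1` (`CM_ex` in
`H18E/CM`), multiplication by `u` permutes these classes, so the sum `S` satisfies `S = χ(u) S`. -/
theorem gk_prim (Q : ℕ) (p : Σ r : ℕ, DirichletCharacter ℂ r) (hp : p ∈ PC Q) (k : ℕ)
    (hk : k ∈ KS Q p.1) (l : ℕ) (hl : l.Prime) (hlk : l ∣ p.1 * k) (m : ℤ) :
    ∑ j ∈ range l, gk p k (m + (j : ℤ) * (p.1 * k / l : ℕ)) = 0 := by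
  obtain ⟨hr1, hrQ, hprim⟩ := mem_PC.1 hp
  obtain ⟨⟨hk1, -⟩, hs, hcop⟩ := CA_mem_KS.1 hk
  have hl0 : NeZero l := ⟨hl.ne_zero⟩
  have hr0 : NeZero p.1 := ⟨by omega⟩
  by_cases hlk' : l ∣ k
  · obtain ⟨k', rfl⟩ := hlk'
    have hck : Nat.Coprime l k' := by
      rw [hl.coprime_iff_not_dvd]
      rintro ⟨c, rfl⟩
      exact hl.one_lt.ne' (Nat.isUnit_iff.1 (hs l ⟨c, by ring⟩))
    have hcr : Nat.Coprime l p.1 := Nat.Coprime.coprime_mul_right hcop
    have hN : p.1 * (l * k') / l = p.1 * k' := by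
      rw [show p.1 * (l * k') = l * (p.1 * k') by ring, Nat.mul_div_cancel_left _ hl.pos]
    rw [hN]
    have h1 : ∀ j : ℕ, gk p (l * k') (m + (j : ℤ) * (p.1 * k' : ℕ)) =
        ((((p.1 : ℝ) / (Nat.totient p.1 : ℝ) : ℝ) : ℂ) * (starRingEnd ℂ) (p.2 (m : ZMod p.1)) *
        (((ArithmeticFunction.moebius (l * k') : ℝ) / (Nat.totient (l * k') : ℝ) * cq k' m : ℝ) : ℂ)) *
        ((cq l (((p.1 * k' : ℕ) : ℤ) * j + m) : ℝ) : ℂ) := by
      intro j
      unfold gk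
      have e1 : ((m + (j : ℤ) * (p.1 * k' : ℕ) : ℤ) : ZMod p.1) = (m : ZMod p.1) := by
        push_cast
        simp
      have e2 : cq (l * k') (m + (j : ℤ) * (p.1 * k' : ℕ)) = cq l (((p.1 * k' : ℕ) : ℤ) * j + m) * cq k' m := by
        rw [CA_cq_mul l k' _ hck]
        congr 1
        · congr 1
          ring
        · refine CA_cq_congr k' _ _ ⟨j * p.1, ?_⟩
          push_cast
          ring
      rw [e1, e2]
      push_cast
      ring
    rw [Finset.sum_congr rfl fun j _ => h1 j, ← Finset.mul_sum]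
    have h2 := CA_shift l (fun n => ((cq l n : ℝ) : ℂ)) (fun a b hab => by
      rw [CA_cq_congr l a b ((ZMod.intCast_eq_intCast_iff_dvd_sub b a l).1 hab.symm)]) ((p.1 * k' : ℕ) : ℤ) m (by
      rw [Int.cast_natCast, ZMod.isUnit_iff_coprime]
      exact (Nat.Coprime.mul_right hcr hck).symm)
    rw [h2]
    have h3 : ∑ j ∈ range l, ((cq l (j : ℤ) : ℝ) : ℂ) = 0 := by
      rw [← Complex.ofReal_sum]
      have h4 : ∑ j ∈ range l, cq l (j : ℤ) = 0 := by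
        have h5 : ∀ j ∈ range l, cq l (j : ℤ) = -1 + if j = 0 then (l : ℝ) else 0 := by
          intro j hj
          rw [CA_cq_prime l hl]
          congr 1
          have h6 : ((l : ℤ) ∣ (j : ℤ)) ↔ j = 0 := by
            rw [Int.natCast_dvd_natCast]
            constructor
            · intro h
              exact Nat.eq_zero_of_dvd_of_lt h (mem_range.1 hj)
            · rintro rfl
              exact dvd_zero _
          simp only [h6]
        rw [Finset.sum_congr rfl h5, Finset.sum_add_distrib, Finset.sum_ite_eq' (range l) 0,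
          if_pos (mem_range.2 hl.pos), Finset.sum_const, card_range]
        simp
      rw [h4, Complex.ofReal_zero]
    rw [h3, mul_zero]
  · have hlr : l ∣ p.1 := (hl.dvd_mul.1 hlk).resolve_right hlk'
    obtain ⟨r', hr'⟩ := hlr
    have hr'0 : 0 < r' := by
      rcases Nat.eq_zero_or_pos r' with h | h
      · rw [h, mul_zero] at hr'
        omega
      · exact h
    have hN : p.1 * k / l = r' * k := by
      rw [hr', mul_assoc, Nat.mul_div_cancel_left _ hl.pos]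
    rw [hN]
    obtain ⟨f, hf⟩ : ∃ f : ℤ → ℂ, ∀ t, f t = p.2 ((m + t * r' : ℤ) : ZMod p.1) := ⟨_, fun _ => rfl⟩
    have hfc : ∀ a b : ℤ, (a : ZMod l) = b → f a = f b := by
      intro a b hab
      rw [hf, hf]
      congr 1
      rw [ZMod.intCast_eq_intCast_iff_dvd_sub] at hab ⊢
      obtain ⟨c, hc⟩ := hab
      refine ⟨c, ?_⟩
      rw [hr']
      push_cast
      linear_combination (r' : ℤ) * hc
    have h1 : ∀ j : ℕ, gk p k (m + (j : ℤ) * (r' * k : ℕ)) =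
        ((((p.1 : ℝ) / (Nat.totient p.1 : ℝ) : ℝ) : ℂ) *
        (((ArithmeticFunction.moebius k : ℝ) / (Nat.totient k : ℝ) * cq k m : ℝ) : ℂ)) *
        (starRingEnd ℂ) (f ((k : ℤ) * j + 0)) := by
      intro j
      unfold gk
      have e1 : p.2 ((m + (j : ℤ) * (r' * k : ℕ) : ℤ) : ZMod p.1) = f ((k : ℤ) * j + 0) := by
        rw [hf]
        congr 1
        push_cast
        ring
      have e2 : cq k (m + (j : ℤ) * (r' * k : ℕ)) = cq k m := by
        refine CA_cq_congr k _ _ ⟨j * r', ?_⟩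
        push_cast
        ring
      rw [e1, e2]
      ring
    rw [Finset.sum_congr rfl fun j _ => h1 j, ← Finset.mul_sum, ← map_sum]
    have hku : IsUnit ((k : ℤ) : ZMod l) := by
      rw [Int.cast_natCast, ZMod.isUnit_iff_coprime]
      exact ((hl.coprime_iff_not_dvd).2 hlk').symm
    rw [CA_shift l f hfc (k : ℤ) 0 hku]
    have hlt : r' < p.1 := by
      rw [hr']
      have := hl.two_le
      nlinarith
    have hdvd : r' ∣ p.1 := ⟨l, by rw [hr', mul_comm]⟩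
    have hldvd : l ∣ p.1 := ⟨r', hr'⟩
    obtain ⟨u, hu1, hu2⟩ := Pool.Agent.Lib.H18E.CM_ex p.1 p.2 hprim r' hdvd hlt
    obtain ⟨U, hU⟩ : ∃ U : ℤ, U = (((u : ZMod p.1).val : ℕ) : ℤ) := ⟨_, rfl⟩
    have hUu : ((U : ℤ) : ZMod p.1) = (u : ZMod p.1) := by
      rw [hU, Int.cast_natCast, ZMod.natCast_zmod_val]
    have hU1 : ((U : ℤ) : ZMod r') = 1 := by
      have h3 := congrArg (fun z : (ZMod r')ˣ => (z : ZMod r')) hu1
      have h4 : ZMod.castHom hdvd (ZMod r') (u : ZMod p.1) = 1 := by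
        simpa [ZMod.unitsMap_def] using h3
      rw [← hUu, map_intCast] at h4
      exact h4
    have hUl : IsUnit ((U : ℤ) : ZMod l) := by
      have h3 : IsUnit (ZMod.castHom hldvd (ZMod l) (u : ZMod p.1)) := u.isUnit.map _
      rw [← hUu, map_intCast] at h3
      exact h3
    obtain ⟨s, hs'⟩ : ∃ s : ℤ, U = 1 + s * r' := by
      have h3 : ((1 : ℤ) : ZMod r') = ((U : ℤ) : ZMod r') := by rw [hU1, Int.cast_one]
      rw [ZMod.intCast_eq_intCast_iff_dvd_sub] at h3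
      obtain ⟨c, hc⟩ := h3
      exact ⟨c, by linear_combination hc⟩
    have h5 := CA_shift l f hfc U (s * m) hUl
    have h6 : ∀ j : ℕ, f (U * j + s * m) = p.2 (u : ZMod p.1) * f j := by
      intro j
      rw [hf, hf, ← hUu, ← map_mul]
      congr 1
      rw [← Int.cast_mul]
      congr 1
      linear_combination (-m) * hs'
    rw [Finset.sum_congr rfl fun j _ => h6 j, ← Finset.mul_sum] at h5
    have h7 : ∑ j ∈ range l, f (j : ℤ) = 0 := by
      have h8 : (p.2 (u : ZMod p.1) - 1) * ∑ j ∈ range l, f (j : ℤ) = 0 := by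
        linear_combination h5
      exact (mul_eq_zero.1 h8).resolve_left (sub_ne_zero.2 hu2)
    rw [h7, map_zero, mul_zero]

end Pool.Agent.Lib.H18Q
end

-- from Lib.H18Q.CF
section

/-!
# Project H18Q, chunk CF: the correlation inequality
-/

open Finset

namespace Pool.Agent.Lib.H18Q

open Pool.Agent.Lib.H68T

theorem cf_KS {Q r k : ℕ} (hk : k ∈ KS Q r) : 1 ≤ k ∧ k ≤ Q / r := by
  unfold KS at hk
  rw [mem_filter, mem_Icc] at hk
  exact hk.1

theorem cf_q {Q : ℕ} {p : Σ r : ℕ, DirichletCharacter ℂ r} (hp : p ∈ PC Q) {k : ℕ}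
    (hk : k ∈ KS Q p.1) : 0 < p.1 * k ∧ p.1 * k ≤ Q := by
  have h1 := (mem_PC.mp hp).1
  have h2 := cf_KS hk
  refine ⟨Nat.mul_pos (by omega) (by omega), ?_⟩
  calc p.1 * k ≤ p.1 * (Q / p.1) := Nat.mul_le_mul_left _ h2.2
    _ ≤ Q := Nat.mul_div_le Q p.1

/-- the sum of a periodic function over several periods -/
theorem cf_periods (φ : ℕ → ℂ) (q : ℕ) (hφ : ∀ c, φ (c + q) = φ c) (n : ℕ) :
    ∑ c ∈ range (q * n), φ c = n * ∑ c ∈ range q, φ c := by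
  have hper : ∀ n c, φ (q * n + c) = φ c := by
    intro n
    induction n with
    | zero => intro c; rw [mul_zero, zero_add]
    | succ n ih =>
      intro c
      have h1 : q * (n + 1) + c = (q * n + c) + q := by ring
      rw [h1, hφ, ih]
  induction n with
  | zero => simp
  | succ n ih =>
    have h1 : q * (n + 1) = q * n + q := by ring
    rw [h1, sum_range_add, ih]
    have h2 : ∑ x ∈ range q, φ (q * n + x) = ∑ c ∈ range q, φ c :=
      sum_congr rfl fun x _ => hper n x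
    rw [h2]
    push_cast
    ring

/-- Two components with slowly varying coefficients.

Proof. `q = p.1 k`, `q' = p'.1 k'`, `φ(c) = gk p k (s + c) gk p' k' (t + τ c)` has period `P = q q'`
(`gk_period`), `|φ| ≤ Q²` (`gk_bound`), `P ≤ Q²`. `per_slow`. If `q ≠ q'`: `∑_{c < P} φ = 0` (`orth`
with `gk_prim`). If `q = q'`: the mean over `P = q²` is the mean over `q`, at most the mean of
`aw aw'` (`gk_le_aw`), at most `∏ loc` (`loc_mean`). -/
theorem CF_pair (Q H : ℕ) (p p' : Σ r : ℕ, DirichletCharacter ℂ r) (hp : p ∈ PC Q)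
    (hp' : p' ∈ PC Q) (k k' : ℕ) (hk : k ∈ KS Q p.1) (hk' : k' ∈ KS Q p'.1)
    (s t τ D : ℤ) (hτ : τ = 1 ∨ τ = -1) (hD : D = s - τ * t) (hD2 : (2 : ℤ) ∣ D)
    (f : ℕ → ℂ) (F Λ : ℝ) (hF : 0 ≤ F) (hΛ : 0 ≤ Λ) (fb : ∀ c < H, ‖f c‖ ≤ F)
    (fl : ∀ c, c + 1 < H → ‖f (c + 1) - f c‖ ≤ Λ) :
    ‖∑ c ∈ range H, gk p k (s + (c : ℤ)) * gk p' k' (t + τ * (c : ℤ)) * f c‖ ≤
      (if p.1 * k = p'.1 * k' then ∏ l ∈ (p.1 * k).primeFactors, loc (p.1 * p'.1) D l else 0) *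
        F * H + (Q : ℝ) ^ 4 * (F + H * Λ) := by
  obtain ⟨hq, hqQ⟩ := cf_q hp hk
  obtain ⟨hq', hqQ'⟩ := cf_q hp' hk'
  set q := p.1 * k with hqd
  set q' := p'.1 * k' with hqd'
  set φ : ℕ → ℂ := fun c => gk p k (s + (c : ℤ)) * gk p' k' (t + τ * (c : ℤ)) with hφ
  have hP : 0 < q * q' := Nat.mul_pos hq hq'
  have per : ∀ c, φ (c + q * q') = φ c := by
    intro c
    simp only [hφ]
    have h1 : s + ((c + q * q' : ℕ) : ℤ) = (s + c) + ((p.1 * k : ℕ) : ℤ) * (q' : ℤ) := by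
      rw [← hqd]
      push_cast
      ring
    have h2 : t + τ * ((c + q * q' : ℕ) : ℤ) =
        (t + τ * c) + ((p'.1 * k' : ℕ) : ℤ) * (τ * (q : ℤ)) := by
      rw [← hqd']
      push_cast
      ring
    rw [h1, h2, gk_period, gk_period]
  have bd : ∀ c, ‖φ c‖ ≤ (Q : ℝ) ^ 2 := by
    intro c
    simp only [hφ]
    rw [norm_mul, sq]
    exact mul_le_mul (gk_bound Q p hp k hk _) (gk_bound Q p' hp' k' hk' _) (norm_nonneg _)
      (Nat.cast_nonneg _)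
  have h := per_slow φ f (q * q') H hP ((Q : ℝ) ^ 2) F Λ (by positivity) hF hΛ per bd fb fl
  have hPQ : ((q * q' : ℕ) : ℝ) ≤ (Q : ℝ) ^ 2 := by
    rw [sq]
    push_cast
    exact mul_le_mul (by exact_mod_cast hqQ) (by exact_mod_cast hqQ') (Nat.cast_nonneg _)
      (Nat.cast_nonneg _)
  have herr : (Q : ℝ) ^ 2 * (q * q' : ℕ) * (F + H * Λ) ≤ (Q : ℝ) ^ 4 * (F + H * Λ) := by
    apply mul_le_mul_of_nonneg_right _ (by positivity)
    calc (Q : ℝ) ^ 2 * (q * q' : ℕ) ≤ (Q : ℝ) ^ 2 * (Q : ℝ) ^ 2 :=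
          mul_le_mul_of_nonneg_left hPQ (by positivity)
      _ = (Q : ℝ) ^ 4 := by ring
  refine h.trans (add_le_add ?_ herr)
  apply mul_le_mul_of_nonneg_right _ (Nat.cast_nonneg _)
  apply mul_le_mul_of_nonneg_right _ hF
  have hPr : (0 : ℝ) < ((q * q' : ℕ) : ℝ) := by exact_mod_cast hP
  by_cases he : q = q'
  · rw [if_pos he]
    rw [div_le_iff₀ hPr]
    have hper1 : ∀ c, φ (c + q) = φ c := by
      intro c
      simp only [hφ]
      have h1 : s + ((c + q : ℕ) : ℤ) = (s + c) + ((p.1 * k : ℕ) : ℤ) * 1 := by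
        rw [← hqd]
        push_cast
        ring
      have h2 : t + τ * ((c + q : ℕ) : ℤ) = (t + τ * c) + ((p'.1 * k' : ℕ) : ℤ) * τ := by
        rw [← hqd', ← he]
        push_cast
        ring
      rw [h1, h2, gk_period, gk_period]
    have h3 : ∑ c ∈ range (q * q'), φ c = (q' : ℂ) * ∑ c ∈ range q, φ c :=
      cf_periods φ q hper1 q'
    rw [h3, norm_mul, Complex.norm_natCast]
    have h4 : ‖∑ c ∈ range q, φ c‖ ≤
        (∏ l ∈ q.primeFactors, loc (p.1 * p'.1) D l) * q := by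
      have h5 := loc_mean Q p p' hp hp' k k' hk hk' he s t τ D hτ hD hD2
      rw [← hqd, div_le_iff₀ (by exact_mod_cast hq)] at h5
      refine le_trans (norm_sum_le _ _) (le_trans (sum_le_sum fun c _ => ?_) h5)
      simp only [hφ]
      rw [norm_mul]
      exact mul_le_mul (gk_le_aw Q p hp k hk _) (gk_le_aw Q p' hp' k' hk' _) (norm_nonneg _)
        ((norm_nonneg _).trans (gk_le_aw Q p hp k hk _))
    calc (q' : ℝ) * ‖∑ c ∈ range q, φ c‖ ≤
          (q' : ℝ) * ((∏ l ∈ q.primeFactors, loc (p.1 * p'.1) D l) * q) :=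
          mul_le_mul_of_nonneg_left h4 (Nat.cast_nonneg _)
      _ = (∏ l ∈ q.primeFactors, loc (p.1 * p'.1) D l) * ((q * q' : ℕ) : ℝ) := by
          push_cast
          ring
  · rw [if_neg he]
    have h0 : ∑ c ∈ range (q * q'), φ c = 0 := by
      apply orth (gk p k) (gk p' k') q q' hq hq' ?_ ?_ ?_ ?_ he s t τ hτ
      · intro m
        have := gk_period p k m 1
        rwa [mul_one, ← hqd] at this
      · intro m
        have := gk_period p' k' m 1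
        rwa [mul_one, ← hqd'] at this
      · intro l hl hlq m
        exact gk_prim Q p hp k hk l hl hlq m
      · intro l hl hlq m
        exact gk_prim Q p' hp' k' hk' l hl hlq m
    rw [h0, norm_zero, zero_div]

theorem cf_cards (Q : ℕ) : ((∑ p ∈ PC Q, (KS Q p.1).card : ℕ) : ℝ) ≤ (Q : ℝ) ^ 3 := by
  have h1 : ∑ p ∈ PC Q, (KS Q p.1).card ≤ ∑ _p ∈ PC Q, Q := by
    apply sum_le_sum
    intro p _
    have h2 : KS Q p.1 ⊆ Icc 1 Q := by
      intro k hk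
      have h3 := cf_KS hk
      rw [mem_Icc]
      exact ⟨h3.1, h3.2.trans (Nat.div_le_self _ _)⟩
    have h4 := card_le_card h2
    rwa [Nat.card_Icc, Nat.add_sub_cancel] at h4
  rw [sum_const, smul_eq_mul] at h1
  have h5 := card_PC_le Q
  have h6 : ∑ p ∈ PC Q, (KS Q p.1).card ≤ Q ^ 3 := by
    calc ∑ p ∈ PC Q, (KS Q p.1).card ≤ (PC Q).card * Q := h1
      _ ≤ Q ^ 2 * Q := Nat.mul_le_mul_right _ h5
      _ = Q ^ 3 := by ring
  exact_mod_cast h6

/-- **The correlation inequality.** Proof. Expand both `SG` by `gam_expand`: the sum over `c` is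
`∑_{p,p'} ∑_{k,k'} ∑_c gk gk' f`, `f(c) = b c p · b' c p'`, `|f| ≤ be p be' p'` (`≤ 4`),
`|f(c+1) - f(c)| ≤ 4 Λ`. `CF_pair` and `sum_loc`: the main parts give at most
`∑_{p,p'} be p be' p' C Gp 1 D H`; there are at most `Q² · Q` pairs `(p, k)`, so the error terms give at
most `Q^6 · Q^4 (4 + 4 H Λ)`. -/
theorem corr_main : ∃ C : ℝ, 1 ≤ C ∧ ∀ (Q H : ℕ) (s t τ D : ℤ)
    (b b' : ℕ → (Σ r : ℕ, DirichletCharacter ℂ r) → ℂ)
    (be be' : (Σ r : ℕ, DirichletCharacter ℂ r) → ℝ) (Λ : ℝ), (τ = 1 ∨ τ = -1) →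
    D = s - τ * t → D ≠ 0 → (2 : ℤ) ∣ D → 0 ≤ Λ →
    (∀ p ∈ PC Q, 0 ≤ be p ∧ be p ≤ 2 ∧ 0 ≤ be' p ∧ be' p ≤ 2 ∧
      (∀ c < H, ‖b c p‖ ≤ be p ∧ ‖b' c p‖ ≤ be' p) ∧
      ∀ c, c + 1 < H → ‖b (c + 1) p - b c p‖ ≤ Λ ∧ ‖b' (c + 1) p - b' c p‖ ≤ Λ) →
    ‖∑ c ∈ range H, SG Q (b c) (s + (c : ℤ)) * SG Q (b' c) (t + τ * (c : ℤ))‖ ≤
      C * (∑ p ∈ PC Q, be p) * (∑ p ∈ PC Q, be' p) * Pool.Agent.Lib.H18E.Gp 1 D * H +
        4 * (Q : ℝ) ^ 10 * (1 + H * Λ) := by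
  obtain ⟨C, hC, hsum⟩ := sum_loc
  refine ⟨C, hC, ?_⟩
  intro Q H s t τ D b b' be be' Λ hτ hD hD0 hD2 hΛ hb
  -- expansion
  have hexp : ∀ (β : (Σ r : ℕ, DirichletCharacter ℂ r) → ℂ) (m : ℤ),
      SG Q β m = ∑ p ∈ PC Q, ∑ k ∈ KS Q p.1, gk p k m * β p := by
    intro β m
    unfold SG
    apply sum_congr rfl
    intro p hp
    rw [gam_expand Q p hp m, sum_mul]
  have h1 : ∑ c ∈ range H, SG Q (b c) (s + (c : ℤ)) * SG Q (b' c) (t + τ * (c : ℤ)) =
      ∑ p ∈ PC Q, ∑ k ∈ KS Q p.1, ∑ p' ∈ PC Q, ∑ k' ∈ KS Q p'.1, ∑ c ∈ range H,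
        gk p k (s + (c : ℤ)) * gk p' k' (t + τ * (c : ℤ)) * (b c p * b' c p') := by
    have h2 : ∀ c ∈ range H, SG Q (b c) (s + (c : ℤ)) * SG Q (b' c) (t + τ * (c : ℤ)) =
        ∑ p ∈ PC Q, ∑ k ∈ KS Q p.1, ∑ p' ∈ PC Q, ∑ k' ∈ KS Q p'.1,
          gk p k (s + (c : ℤ)) * gk p' k' (t + τ * (c : ℤ)) * (b c p * b' c p') := by
      intro c _
      rw [hexp, hexp, sum_mul]
      apply sum_congr rfl
      intro p _
      rw [sum_mul]
      apply sum_congr rfl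
      intro k _
      rw [mul_sum]
      apply sum_congr rfl
      intro p' _
      rw [mul_sum]
      apply sum_congr rfl
      intro k' _
      ring
    rw [sum_congr rfl h2, sum_comm]
    apply sum_congr rfl
    intro p _
    rw [sum_comm]
    apply sum_congr rfl
    intro k _
    rw [sum_comm]
    apply sum_congr rfl
    intro p' _
    rw [sum_comm]
  rw [h1]
  -- the single terms
  let T : (Σ r : ℕ, DirichletCharacter ℂ r) → ℕ → (Σ r : ℕ, DirichletCharacter ℂ r) → ℕ → ℝ :=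
    fun p k p' k' =>
      (if p.1 * k = p'.1 * k' then ∏ l ∈ (p.1 * k).primeFactors, loc (p.1 * p'.1) D l else 0)
  have hterm : ∀ p ∈ PC Q, ∀ k ∈ KS Q p.1, ∀ p' ∈ PC Q, ∀ k' ∈ KS Q p'.1,
      ‖∑ c ∈ range H, gk p k (s + (c : ℤ)) * gk p' k' (t + τ * (c : ℤ)) *
        (b c p * b' c p')‖ ≤
      T p k p' k' * (be p * be' p' * H) + (Q : ℝ) ^ 4 * (4 * (1 + H * Λ)) := by
    intro p hp k hk p' hp' k' hk'
    obtain ⟨hb1, hb2, -, -, hb5, hb6⟩ := hb p hp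
    obtain ⟨-, -, hb3, hb4, hb7, hb8⟩ := hb p' hp'
    have hc := CF_pair Q H p p' hp hp' k k' hk hk' s t τ D hτ hD hD2
      (fun c => b c p * b' c p') (be p * be' p') (4 * Λ) (mul_nonneg hb1 hb3) (by linarith)
      (by
        intro c hc
        rw [norm_mul]
        exact mul_le_mul (hb5 c hc).1 (hb7 c hc).2 (norm_nonneg _) hb1)
      (by
        intro c hc
        have e1 : b (c + 1) p * b' (c + 1) p' - b c p * b' c p' =
            (b (c + 1) p - b c p) * b' (c + 1) p' + b c p * (b' (c + 1) p' - b' c p') := by ring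
        rw [e1]
        refine (norm_add_le _ _).trans ?_
        rw [norm_mul, norm_mul]
        have e2 : ‖b (c + 1) p - b c p‖ * ‖b' (c + 1) p'‖ ≤ Λ * 2 :=
          mul_le_mul (hb6 c hc).1 ((hb7 (c + 1) hc).2.trans hb4) (norm_nonneg _) hΛ
        have e3 : ‖b c p‖ * ‖b' (c + 1) p' - b' c p'‖ ≤ 2 * Λ :=
          mul_le_mul ((hb5 c (by omega)).1.trans hb2) (hb8 c hc).2 (norm_nonneg _) (by norm_num)
        linarith)
    refine hc.trans ?_
    have e4 : T p k p' k' * (be p * be' p') * H = T p k p' k' * (be p * be' p' * H) := by ring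
    change T p k p' k' * (be p * be' p') * H + _ ≤ _
    rw [e4]
    apply add_le_add le_rfl
    apply mul_le_mul_of_nonneg_left _ (by positivity)
    have e5 : be p * be' p' ≤ 2 * 2 := mul_le_mul hb2 hb4 hb3 (by norm_num)
    have e6 : 4 * (1 + (H : ℝ) * Λ) = 4 + H * (4 * Λ) := by ring
    rw [e6]
    linarith
  -- sum of the bounds
  have h3 : ‖∑ p ∈ PC Q, ∑ k ∈ KS Q p.1, ∑ p' ∈ PC Q, ∑ k' ∈ KS Q p'.1, ∑ c ∈ range H,
        gk p k (s + (c : ℤ)) * gk p' k' (t + τ * (c : ℤ)) * (b c p * b' c p')‖ ≤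
      ∑ p ∈ PC Q, ∑ k ∈ KS Q p.1, ∑ p' ∈ PC Q, ∑ k' ∈ KS Q p'.1,
        (T p k p' k' * (be p * be' p' * H) + (Q : ℝ) ^ 4 * (4 * (1 + H * Λ))) := by
    refine (norm_sum_le _ _).trans (sum_le_sum fun p hp => ?_)
    refine (norm_sum_le _ _).trans (sum_le_sum fun k hk => ?_)
    refine (norm_sum_le _ _).trans (sum_le_sum fun p' hp' => ?_)
    refine (norm_sum_le _ _).trans (sum_le_sum fun k' hk' => ?_)
    exact hterm p hp k hk p' hp' k' hk'
  refine h3.trans ?_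
  simp only [sum_add_distrib]
  apply add_le_add
  · -- main terms
    have h4 : ∑ p ∈ PC Q, ∑ k ∈ KS Q p.1, ∑ p' ∈ PC Q, ∑ k' ∈ KS Q p'.1,
        T p k p' k' * (be p * be' p' * H) =
        ∑ p ∈ PC Q, ∑ p' ∈ PC Q, (∑ k ∈ KS Q p.1, ∑ k' ∈ KS Q p'.1, T p k p' k') *
          (be p * be' p' * H) := by
      apply sum_congr rfl
      intro p _
      rw [sum_comm]
      apply sum_congr rfl
      intro p' _
      rw [sum_mul]
      apply sum_congr rfl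
      intro k _
      rw [sum_mul]
    rw [h4]
    have h5 : ∀ p ∈ PC Q, ∀ p' ∈ PC Q,
        (∑ k ∈ KS Q p.1, ∑ k' ∈ KS Q p'.1, T p k p' k') * (be p * be' p' * H) ≤
          C * Pool.Agent.Lib.H18E.Gp 1 D * (be p * be' p' * H) := by
      intro p hp p' hp'
      obtain ⟨hb1, -⟩ := hb p hp
      obtain ⟨-, -, hb3, -⟩ := hb p' hp'
      apply mul_le_mul_of_nonneg_right _ (by positivity)
      refine le_trans (le_of_eq ?_) (hsum Q p p' hp hp' D hD0 hD2)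
      apply sum_congr rfl
      intro k _
      rw [sum_filter]
    refine (sum_le_sum fun p hp => sum_le_sum fun p' hp' => h5 p hp p' hp').trans ?_
    apply le_of_eq
    have h6 : ∀ p ∈ PC Q, ∑ p' ∈ PC Q,
        C * Pool.Agent.Lib.H18E.Gp 1 D * (be p * be' p' * H) =
        be p * (C * Pool.Agent.Lib.H18E.Gp 1 D * H * ∑ p' ∈ PC Q, be' p') := by
      intro p _
      rw [mul_sum, mul_sum]
      apply sum_congr rfl
      intro p' _
      ring
    rw [sum_congr rfl h6, ← sum_mul]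
    ring
  · -- error terms
    have hE : 0 ≤ (Q : ℝ) ^ 4 * (4 * (1 + H * Λ)) := by positivity
    set E : ℝ := (Q : ℝ) ^ 4 * (4 * (1 + H * Λ)) with hEd
    have h7 : ∑ p ∈ PC Q, ∑ k ∈ KS Q p.1, ∑ p' ∈ PC Q, ∑ _k' ∈ KS Q p'.1, E =
        ((∑ p ∈ PC Q, (KS Q p.1).card : ℕ) : ℝ) *
          (((∑ p ∈ PC Q, (KS Q p.1).card : ℕ) : ℝ) * E) := by
      have h8 : ∑ p' ∈ PC Q, ∑ _k' ∈ KS Q p'.1, E =
          ((∑ p ∈ PC Q, (KS Q p.1).card : ℕ) : ℝ) * E := by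
        push_cast
        rw [sum_mul]
        apply sum_congr rfl
        intro p' _
        rw [sum_const, nsmul_eq_mul]
      rw [h8]
      have h9 : ∀ X : ℝ, ∑ p ∈ PC Q, ∑ _k ∈ KS Q p.1, X =
          ((∑ p ∈ PC Q, (KS Q p.1).card : ℕ) : ℝ) * X := by
        intro X
        push_cast
        rw [sum_mul]
        apply sum_congr rfl
        intro p' _
        rw [sum_const, nsmul_eq_mul]
      rw [h9]
    rw [h7]
    have h10 := cf_cards Q
    have h11 : (0 : ℝ) ≤ ((∑ p ∈ PC Q, (KS Q p.1).card : ℕ) : ℝ) := Nat.cast_nonneg _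
    calc ((∑ p ∈ PC Q, (KS Q p.1).card : ℕ) : ℝ) *
          (((∑ p ∈ PC Q, (KS Q p.1).card : ℕ) : ℝ) * E) ≤ (Q : ℝ) ^ 3 * ((Q : ℝ) ^ 3 * E) := by
          apply mul_le_mul h10 _ (mul_nonneg h11 hE) (by positivity)
          exact mul_le_mul_of_nonneg_right h10 hE
      _ = 4 * (Q : ℝ) ^ 10 * (1 + H * Λ) := by
          rw [hEd]
          ring

end Pool.Agent.Lib.H18Q
end

-- from Lib.H57M.B6
section

/-!
# Chunk B6: `EU_ge` with first moments
-/

open Finset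

namespace Pool.Agent.Lib.H57M

open Pool.Agent.Lib.H15P Pool.Agent.Lib.H92G

variable {J : Type} [Fintype J] [DecidableEq J]

/-- Copy of the proof of `EU_ge` (`H92G/E6.lean`) with `le_EP2` instead of `le_EP`;
`EX (F 1[S j0 = ∅] loss) ≤ EX (F loss)` as `loss ≥ 0`. -/
theorem EU_ge2 (P : Finset ℕ) (W K M : ℕ) (b : J → ℕ) (hF : Forms P W K M b)
    (F : (J → Finset {p // p ∈ P}) → ℝ) (h0 : ∀ S, 0 ≤ F S) (j0 : J) :
    (((∏ p ∈ P, p : ℕ) : ℝ) / ((∏ p ∈ P, p).totient : ℝ)) *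
      ((1 - (K : ℝ) ^ 2 / W) * EX (qq P K) (fun S => F S * (if S j0 = ∅ then 1 else 0)) -
        EX (qq P K) (fun S => F S * loss P K S))
      ≤ EU P M (b j0) (fun t => F (fun j => hit P (b j + M * t))) := by
  have hq0 := qq_nonneg P K
  have hq1 := tr2_qq_le_one P W K hF.one_le hF.KW hF.big
  have hG0 : ∀ S, 0 ≤ F S * (if S j0 = ∅ then 1 else 0) := fun S =>
    mul_nonneg (h0 S) (by split_ifs <;> norm_num)
  have h1 := le_EP2 P W K M b hF (fun S => F S * (if S j0 = ∅ then 1 else 0)) hG0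
  have hl0 : ∀ S : J → Finset {p // p ∈ P}, 0 ≤ loss P K S := by
    intro S
    unfold loss
    refine add_nonneg (by split_ifs <;> norm_num) ?_
    exact Finset.sum_nonneg fun j _ => Finset.sum_nonneg fun p _ => by positivity
  have h2 : EX (qq P K) (fun S => (F S * (if S j0 = ∅ then 1 else 0)) * loss P K S)
      ≤ EX (qq P K) (fun S => F S * loss P K S) := by
    refine EX_mono _ hq0 hq1 _ _ fun S => ?_
    refine mul_le_mul_of_nonneg_right ?_ (hl0 S)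
    split_ifs
    · rw [mul_one]
    · rw [mul_zero]
      exact h0 S
  have hQ : 0 < ∏ p ∈ P, p := prod_pos fun p hp => (hF.prime p hp).pos
  have hQr : (0 : ℝ) < ((∏ p ∈ P, p : ℕ) : ℝ) := by exact_mod_cast hQ
  have hφ : (0 : ℝ) < ((∏ p ∈ P, p).totient : ℝ) := by exact_mod_cast Nat.totient_pos.2 hQ
  have h6 : (((∏ p ∈ P, p : ℕ) : ℝ) / ((∏ p ∈ P, p).totient : ℝ)) *
      EP P M b (fun S => F S * (if S j0 = ∅ then 1 else 0))
      = EU P M (b j0) (fun t => F (fun j => hit P (b j + M * t))) := by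
    unfold EP EU
    rw [div_mul_div_comm, mul_comm ((∏ p ∈ P, p).totient : ℝ), mul_div_mul_left _ _ hQr.ne',
      sum_filter]
    congr 1
    refine sum_congr rfl fun t _ => ?_
    have : hit P (b j0 + M * t) = ∅ ↔ (b j0 + M * t).Coprime (∏ p ∈ P, p) :=
      e6_hit P hF.prime _
    show F _ * (if hit P (b j0 + M * t) = ∅ then 1 else 0) = _
    by_cases h : hit P (b j0 + M * t) = ∅
    · rw [if_pos h, if_pos (this.1 h), mul_one]
    · rw [if_neg h, if_neg (fun h' => h (this.2 h')), mul_zero]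
  rw [← h6]
  refine mul_le_mul_of_nonneg_left ?_ (div_pos hQr hφ).le
  linarith

end Pool.Agent.Lib.H57M
end

-- from Lib.H59C.CCV
section

/-!
# CCV: covering by boxes
-/

open Finset

namespace Pool.Agent.Lib.H59C

theorem ccv_lv_zero (δ : ℝ) : lv δ 0 = 1 := by
  unfold lv
  simp

/-- The index of a number. -/
theorem ccv_index (δ : ℝ) (hδ : 0 < δ) (m : ℕ) (hm : 2 ≤ m) :
    ∃ i : ℕ, lv δ i < m ∧ m ≤ lv δ (i + 1) := by
  have hex : ∃ k, m ≤ lv δ k := by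
    obtain ⟨k, hk⟩ := pow_unbounded_of_one_lt (m : ℝ) (by linarith : (1 : ℝ) < 1 + δ)
    refine ⟨k, ?_⟩
    unfold lv
    exact Nat.le_floor hk.le
  classical
  obtain ⟨k, hk⟩ : ∃ k, k = Nat.find hex := ⟨_, rfl⟩
  have h1 : m ≤ lv δ k := by rw [hk]; exact Nat.find_spec hex
  have h2 : k ≠ 0 := by
    intro h
    rw [h, ccv_lv_zero] at h1
    omega
  refine ⟨k - 1, ?_, ?_⟩
  · have h3 := Nat.find_min hex (m := k - 1) (by rw [← hk]; omega)
    omega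
  · rw [Nat.sub_add_cancel (by omega)]
    exact h1

/-- The bound for the index. -/
theorem ccv_index_le (δ : ℝ) (hδ : 0 < δ) (hδ1 : δ ≤ 1 / 100) (n m i : ℕ) (hn : 2 ≤ n)
    (hm : m ≤ 2 * n) (hi : lv δ i < m) : i < ⌊4 * Real.log n / δ⌋₊ + 1 := by
  have hn' : (2 : ℝ) ≤ n := by exact_mod_cast hn
  have h1 : (1 + δ) ^ i < m := by
    unfold lv at hi
    exact (Nat.floor_lt (by positivity)).mp hi
  have h2 : (1 + δ) ^ i ≤ 2 * n := by
    have : (m : ℝ) ≤ 2 * n := by exact_mod_cast hm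
    linarith
  have h3 := Real.log_le_log (by positivity) h2
  rw [Real.log_pow, Real.log_mul (by norm_num) (by linarith)] at h3
  have h4 : Real.log 2 ≤ Real.log n := Real.log_le_log (by norm_num) hn'
  have h5 : δ / 2 ≤ Real.log (1 + δ) := by
    have h6 := Real.one_sub_inv_le_log_of_pos (by linarith : 0 < 1 + δ)
    have h7 : δ / 2 ≤ 1 - (1 + δ)⁻¹ := by
      have : 1 - (1 + δ)⁻¹ = δ / (1 + δ) := by
        field_simp
        ring
      rw [this, div_le_div_iff₀ (by norm_num) (by linarith)]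
      nlinarith
    linarith
  have h6 : (i : ℝ) ≤ 4 * Real.log n / δ := by
    rw [le_div_iff₀ hδ]
    have h7 : (i : ℝ) * (δ / 2) ≤ i * Real.log (1 + δ) :=
      mul_le_mul_of_nonneg_left h5 (Nat.cast_nonneg _)
    linarith
  have h7 : i ≤ ⌊4 * Real.log n / δ⌋₊ := Nat.le_floor h6
  omega

theorem ccv_al_nonneg (n : ℕ) (δ : ℝ) (b : ℕ × ℕ) (m : ℕ) : 0 ≤ al n δ b m := by
  unfold al
  split_ifs <;> norm_num

open Classical in
/-- Covering.

Proof. Let `p` be in the filter, `|N - p| = q1 q2 q3`, `m = q1 q2`, `q = q3`. Since `lv δ 0 = 1` and `lv δ i → ∞` there are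
(unique) `i, j` with `lv i < m ≤ lv (i+1)`, `lv j < q3 ≤ lv (j+1)`; `(1 + δ)^i < m ≤ 2 n` gives
`i ≤ log (2n)/log (1 + δ) ≤ 4 log n/δ` (`log (1 + δ) ≥ δ/2`), the same for `j`. `q2 ≤ q3 ≤ lv (j+1)`, so `al n δ (i,j) m = 1`, and
`(i, j) ∈ Rel`. Put `x = (m, q3) ∈ BX (lv (i+1)) (lv j) (lv (j+1))`: `bb N y2 x = p` (if `y2 < N` then `m q3 = N - p` and
`Nat.dist N (N - p) = p`; otherwise `N ≤ y1 < p`, `m q3 = p - N`), a prime, `p > y1 ≥ n/16 ≥ n^(1/6)`. Different `p` give different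
`(i, j, x)`. The weight is `1 ≤ al n δ (i,j) m · log q3/log (lv j)` (`q3 > lv j ≥ 2`, as `q3 ≥ (2n)^(1/3)` is large). -/
theorem cover (δ : ℝ) (hδ : 0 < δ) (hδ1 : δ ≤ 1 / 100) : ∃ n0 : ℕ, ∀ n : ℕ, n0 ≤ n →
    ∀ N y1 y2 : ℕ, Win n N y1 y2 →
    ((((Sq y1 y2).filter (fun p => Tri n (Nat.dist N p))).card : ℕ) : ℝ) ≤
      ∑ b ∈ Rel n N y1 y2 δ, 1 / Real.log (lv δ b.2) *
        ∑ x ∈ (BX (lv δ (b.1 + 1)) (lv δ b.2) (lv δ (b.2 + 1))).filter
          (fun x => (bb N y2 x).Prime ∧ (n : ℝ) ^ (1 / 6 : ℝ) ≤ bb N y2 x), wB (al n δ b) x := by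
  obtain ⟨n1, hn1⟩ := cdl_zz 4
  refine ⟨n1 + 1000, fun n hn N y1 y2 hW => ?_⟩
  have hN : (1000 : ℝ) ≤ n := by exact_mod_cast (by omega : 1000 ≤ n)
  have hz4 := hn1 n (by omega)
  have hyz : zz n ≤ yy n := by
    unfold zz yy
    calc (n : ℝ) ^ (1 / 8 : ℝ) ≤ (n : ℝ) ^ (1 / 3 : ℝ) :=
          Real.rpow_le_rpow_of_exponent_le (by linarith) (by norm_num)
      _ ≤ (2 * n : ℝ) ^ (1 / 3 : ℝ) :=
          Real.rpow_le_rpow (by linarith) (by linarith) (by norm_num)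
  obtain ⟨F, hF⟩ : ∃ F : ℕ × ℕ → Finset (ℕ × ℕ), F = fun b =>
    (BX (lv δ (b.1 + 1)) (lv δ b.2) (lv δ (b.2 + 1))).filter
          (fun x => (bb N y2 x).Prime ∧ (n : ℝ) ^ (1 / 6 : ℝ) ≤ bb N y2 x) := ⟨_, rfl⟩
  obtain ⟨t, ht⟩ : ∃ t : (_ : ℕ × ℕ) × (ℕ × ℕ) → ℝ, t = fun y =>
    1 / Real.log (lv δ y.1.2) * wB (al n δ y.1) y.2 := ⟨_, rfl⟩
  have ht0 : ∀ y, 0 ≤ t y := by
    intro y
    rw [ht]
    apply mul_nonneg
    · exact div_nonneg zero_le_one (Real.log_natCast_nonneg _)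
    · apply mul_nonneg (ccv_al_nonneg _ _ _ _)
      unfold lg
      exact Real.log_natCast_nonneg _
  -- the data of a prime
  have hdata : ∀ p ∈ (Sq y1 y2).filter (fun p => Tri n (Nat.dist N p)),
      ∃ y : (_ : ℕ × ℕ) × (ℕ × ℕ), y ∈ (Rel n N y1 y2 δ).sigma F ∧ bb N y2 y.2 = p ∧ 1 ≤ t y := by
    intro p hp
    rw [mem_filter, mem_Sq] at hp
    obtain ⟨⟨⟨hp1, hp2⟩, hpp⟩, q1, q2, q3, hq1, hq2, hq3, hz1, hy1, hy2, h23, hdist⟩ := hp
    have hdle : Nat.dist N p ≤ 2 * n := by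
      unfold Nat.dist
      have := hW.N2
      have := hW.le
      omega
    have hm2 : 2 ≤ q1 * q2 := by
      have := hq1.two_le
      have := hq2.two_le
      nlinarith
    have hmle : q1 * q2 ≤ 2 * n := by
      have h1 : q1 * q2 * 1 ≤ q1 * q2 * q3 := Nat.mul_le_mul_left _ hq3.one_lt.le
      rw [mul_one] at h1
      omega
    have hqle : q3 ≤ 2 * n := by
      have h1 : 1 * q3 ≤ q1 * q2 * q3 := Nat.mul_le_mul_right _ (by omega)
      omega
    obtain ⟨i, hi1, hi2⟩ := ccv_index δ hδ (q1 * q2) hm2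
    obtain ⟨j, hj1, hj2⟩ := ccv_index δ hδ q3 hq3.two_le
    have hal : al n δ (i, j) (q1 * q2) = 1 := by
      unfold al
      rw [if_pos]
      exact ⟨hi1, q1, q2, hq1, hq2, hz1, hy1, hy2, h23.trans hj2, rfl⟩
    have hyq3 : yy n ≤ q3 := by
      have : (q2 : ℝ) ≤ q3 := by exact_mod_cast h23
      linarith
    have hRel : (i, j) ∈ Rel n N y1 y2 δ := by
      unfold Rel
      rw [mem_filter, mem_product, mem_range, mem_range]
      exact ⟨⟨ccv_index_le δ hδ hδ1 n _ i (by omega) hmle hi1,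
        ccv_index_le δ hδ hδ1 n _ j (by omega) hqle hj1⟩,
        q1 * q2, q3, p, hi1, hi2, hj1, hj2, hq3, hal, hyq3, hp1, hp2, hdist⟩
    have hbb : bb N y2 (q1 * q2, q3) = p := by
      unfold bb
      show (if y2 < N then Nat.dist N (q1 * q2 * q3) else N + q1 * q2 * q3) = p
      rw [← hdist]
      unfold Nat.dist
      have h1 := hW.side
      split_ifs with h2
      · omega
      · omega
    have hplow : (n : ℝ) ^ (1 / 6 : ℝ) ≤ p := by
      have h1 : (n : ℝ) ≤ 16 * p := by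
        have h2 := hW.lo
        have h3 : n ≤ 16 * p := by omega
        exact_mod_cast h3
      have h2 : (n : ℝ) ^ (1 / 6 : ℝ) ≤ (n : ℝ) ^ (1 / 2 : ℝ) :=
        Real.rpow_le_rpow_of_exponent_le (by linarith) (by norm_num)
      have h3 : 16 ≤ (n : ℝ) ^ (1 / 2 : ℝ) := by
        rw [← Real.sqrt_eq_rpow]
        apply Real.le_sqrt_of_sq_le
        linarith
      have h4 : (n : ℝ) ^ (1 / 2 : ℝ) * (n : ℝ) ^ (1 / 2 : ℝ) = n := by
        rw [← Real.rpow_add (by linarith)]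
        norm_num
      nlinarith
    have hlv2 : 2 ≤ lv δ j := by
      have h1 : (q3 : ℝ) ≤ (1 + δ) ^ (j + 1) := by
        have h2 : (q3 : ℝ) ≤ (lv δ (j + 1) : ℝ) := by exact_mod_cast hj2
        have h3 : (lv δ (j + 1) : ℝ) ≤ (1 + δ) ^ (j + 1) := by
          unfold lv
          exact Nat.floor_le (by positivity)
        linarith
      have h2 : (3 : ℝ) ≤ (1 + δ) ^ j := by
        rw [pow_succ] at h1
        have h3 : (4 : ℝ) ≤ (1 + δ) ^ j * (1 + δ) := by linarith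
        have h4 : (0 : ℝ) < (1 + δ) ^ j := by positivity
        nlinarith
      unfold lv
      apply Nat.le_floor
      push_cast
      linarith
    refine ⟨⟨(i, j), (q1 * q2, q3)⟩, ?_, hbb, ?_⟩
    · rw [mem_sigma]
      refine ⟨hRel, ?_⟩
      rw [hF]
      show (q1 * q2, q3) ∈ (BX (lv δ (i + 1)) (lv δ j) (lv δ (j + 1))).filter
          (fun x => (bb N y2 x).Prime ∧ (n : ℝ) ^ (1 / 6 : ℝ) ≤ bb N y2 x)
      rw [mem_filter]
      constructor
      · unfold BX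
        rw [mem_product, mem_Icc, mem_Sq]
        exact ⟨⟨by show 1 ≤ q1 * q2; omega, hi2⟩, ⟨hj1, hj2⟩, hq3⟩
      · rw [hbb]
        exact ⟨hpp, hplow⟩
    · rw [ht]
      show 1 ≤ 1 / Real.log (lv δ j) * (al n δ (i, j) (q1 * q2) * lg q3)
      rw [hal, one_mul, one_div, ← div_eq_inv_mul]
      have h1 : (2 : ℝ) ≤ lv δ j := by exact_mod_cast hlv2
      have h2 : 0 < Real.log (lv δ j) := Real.log_pos (by linarith)
      rw [le_div_iff₀ h2, one_mul]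
      unfold lg
      apply Real.log_le_log (by linarith)
      exact_mod_cast hj1.le
  choose! f hf1 hf2 hf3 using hdata
  have hinj : Set.InjOn f ((Sq y1 y2).filter (fun p => Tri n (Nat.dist N p))) := by
    intro p hp p' hp' heq
    have h1 := hf2 p hp
    have h2 := hf2 p' hp'
    rw [← h1, ← h2, heq]
  calc ((((Sq y1 y2).filter (fun p => Tri n (Nat.dist N p))).card : ℕ) : ℝ)
      = ∑ p ∈ (Sq y1 y2).filter (fun p => Tri n (Nat.dist N p)), (1 : ℝ) := by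
        rw [sum_const, nsmul_eq_mul, mul_one]
    _ ≤ ∑ p ∈ (Sq y1 y2).filter (fun p => Tri n (Nat.dist N p)), t (f p) :=
        sum_le_sum fun p hp => hf3 p hp
    _ = ∑ y ∈ ((Sq y1 y2).filter (fun p => Tri n (Nat.dist N p))).image f, t y := by
        rw [sum_image hinj]
    _ ≤ ∑ y ∈ (Rel n N y1 y2 δ).sigma F, t y := by
        apply sum_le_sum_of_subset_of_nonneg
        · intro y hy
          rw [mem_image] at hy
          obtain ⟨p, hp, rfl⟩ := hy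
          exact hf1 p hp
        · intro y _ _
          exact ht0 y
    _ = ∑ b ∈ Rel n N y1 y2 δ, ∑ x ∈ F b, t ⟨b, x⟩ := by
        rw [sum_sigma]
    _ = _ := by
        apply sum_congr rfl
        intro b _
        rw [mul_sum, ht, hF]

end Pool.Agent.Lib.H59C
end

-- from Lib.H59C.CRP
section

/-!
# CRP: the parameters of the relevant boxes
-/

open Finset

namespace Pool.Agent.Lib.H59C

theorem CRP_yy {n : ℕ} (hn : 1 ≤ n) {t : ℝ} (ht : t ≤ 1 / 3) : (n : ℝ) ^ t ≤ yy n := by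
  have h1 : (1 : ℝ) ≤ n := by exact_mod_cast hn
  unfold yy
  calc (n : ℝ) ^ t ≤ (n : ℝ) ^ (1 / 3 : ℝ) := Real.rpow_le_rpow_of_exponent_le h1 ht
    _ ≤ (2 * n : ℝ) ^ (1 / 3 : ℝ) :=
      Real.rpow_le_rpow (by linarith) (by linarith) (by norm_num)

theorem CRP_zz {n : ℕ} (hn : 1 ≤ n) {t : ℝ} (ht : t ≤ 1 / 8) : (n : ℝ) ^ t ≤ zz n := by
  have h1 : (1 : ℝ) ≤ n := by exact_mod_cast hn
  exact Real.rpow_le_rpow_of_exponent_le h1 ht

theorem CRP_al {n : ℕ} {δ : ℝ} {b : ℕ × ℕ} {m : ℕ} (h : al n δ b m ≠ 0) :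
    lv δ b.1 < m ∧ ∃ q1 q2 : ℕ, q1.Prime ∧ q2.Prime ∧ zz n ≤ q1 ∧ (q1 : ℝ) < yy n ∧ yy n ≤ q2 ∧
    q2 ≤ lv δ (b.2 + 1) ∧ m = q1 * q2 := by
  by_contra hc
  apply h
  unfold al
  rw [if_neg hc]

theorem CRP_box {δ : ℝ} (hδ : 0 < δ) (hδ1 : δ ≤ 1 / 100) {n : ℕ} (hn : 2 ^ 24 ≤ n)
    {N y1 y2 : ℕ} (W : Win n N y1 y2) {b : ℕ × ℕ} (hb : b ∈ Rel n N y1 y2 δ) :
    (n : ℝ) ^ (1 / 4 : ℝ) ≤ lv δ (b.1 + 1) ∧
      (n : ℝ) ^ (1 / 4 : ℝ) ≤ lv δ (b.2 + 1) ∧ (n : ℝ) ^ (1 / 4 : ℝ) ≤ lv δ b.2 ∧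
      lv δ b.2 ≤ lv δ (b.2 + 1) ∧ lv δ (b.1 + 1) * lv δ (b.2 + 1) ≤ 8 * n := by
  have hn1 : 1 ≤ n := by omega
  have hn1' : (1 : ℝ) ≤ n := by exact_mod_cast hn1
  unfold Rel at hb
  classical
  obtain ⟨-, m, q, p, hm1, hm2, hq1, hq2, hq, hal, hyq, hp1, hp2, hd⟩ := Finset.mem_filter.1 hb
  have hal' : al n δ b m ≠ 0 := by rw [hal]; norm_num
  obtain ⟨-, q1, q2, hq1p, hq2p, hz, -, hy, -, hmq⟩ := CRP_al hal'
  have h1δ : (1 : ℝ) ≤ 1 + δ := by linarith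
  have h0δ : (0 : ℝ) ≤ 1 + δ := by linarith
  have c1 : (n : ℝ) ^ (1 / 4 : ℝ) ≤ lv δ (b.1 + 1) := by
    have h1 : (n : ℝ) ^ (1 / 4 : ℝ) ≤ q2 := (CRP_yy hn1 (by norm_num)).trans hy
    have h2 : q2 ≤ m := by
      rw [hmq]
      exact Nat.le_mul_of_pos_left q2 hq1p.pos
    have h3 : (q2 : ℝ) ≤ lv δ (b.1 + 1) := by exact_mod_cast h2.trans hm2
    exact h1.trans h3
  have c2 : yy n ≤ lv δ (b.2 + 1) := hyq.trans (by exact_mod_cast hq2)
  have c3 : (n : ℝ) ^ (1 / 4 : ℝ) ≤ lv δ b.2 := by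
    have h1 : (lv δ (b.2 + 1) : ℝ) ≤ (1 + δ) ^ (b.2 + 1) := Nat.floor_le (pow_nonneg h0δ _)
    have h2 : (1 + δ) ^ b.2 - 1 < (lv δ b.2 : ℝ) := Nat.sub_one_lt_floor _
    have h3 : (n : ℝ) ^ (1 / 3 : ℝ) ≤ (1 + δ) ^ (b.2 + 1) :=
      ((CRP_yy hn1 le_rfl).trans c2).trans h1
    have h4 : (n : ℝ) ^ (1 / 3 : ℝ) = (n : ℝ) ^ (1 / 12 : ℝ) * (n : ℝ) ^ (1 / 4 : ℝ) := by
      rw [← Real.rpow_add (by linarith)]
      norm_num
    have h5 : (4 : ℝ) ≤ (n : ℝ) ^ (1 / 12 : ℝ) := by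
      have h6 : ((2 : ℝ) ^ (24 : ℕ)) ^ (1 / 12 : ℝ) ≤ (n : ℝ) ^ (1 / 12 : ℝ) :=
        Real.rpow_le_rpow (by positivity) (by exact_mod_cast hn) (by norm_num)
      have h7 : ((2 : ℝ) ^ (24 : ℕ)) ^ (1 / 12 : ℝ) = 4 := by
        rw [← Real.rpow_natCast, ← Real.rpow_mul (by norm_num)]
        norm_num
      linarith
    have h8 : (1 : ℝ) ≤ (n : ℝ) ^ (1 / 4 : ℝ) := Real.one_le_rpow hn1' (by norm_num)
    have h9 : 4 * (n : ℝ) ^ (1 / 4 : ℝ) ≤ (1 + δ) * (1 + δ) ^ b.2 := by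
      have h10 : 4 * (n : ℝ) ^ (1 / 4 : ℝ) ≤ (n : ℝ) ^ (1 / 12 : ℝ) * (n : ℝ) ^ (1 / 4 : ℝ) :=
        mul_le_mul_of_nonneg_right h5 (by linarith)
      rw [pow_succ'] at h3
      linarith
    have h11 : (0 : ℝ) ≤ (1 + δ) ^ b.2 := pow_nonneg h0δ _
    have h12 : (1 + δ) * (1 + δ) ^ b.2 ≤ 2 * (1 + δ) ^ b.2 :=
      mul_le_mul_of_nonneg_right (by linarith) h11
    linarith
  have c4 : lv δ b.2 ≤ lv δ (b.2 + 1) :=
    Nat.floor_le_floor (pow_le_pow_right₀ h1δ (Nat.le_succ _))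
  refine ⟨c1, (CRP_yy hn1 (by norm_num)).trans c2, c3, c4, ?_⟩
  have h1 : (lv δ (b.2 + 1) : ℝ) ≤ (1 + δ) ^ (b.2 + 1) := Nat.floor_le (pow_nonneg h0δ _)
  have h2 : (lv δ (b.1 + 1) : ℝ) ≤ (1 + δ) ^ (b.1 + 1) := Nat.floor_le (pow_nonneg h0δ _)
  have h3 : (1 + δ) ^ b.1 < m := (Nat.floor_lt (pow_nonneg h0δ _)).1 hm1
  have h4 : (1 + δ) ^ b.2 < q := (Nat.floor_lt (pow_nonneg h0δ _)).1 hq1
  have h5 : m * q ≤ 2 * n := by
    rw [← hd]
    have e1 := W.N2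
    have e2 := W.le
    unfold Nat.dist
    omega
  have h6 : (m : ℝ) * q ≤ 2 * n := by exact_mod_cast h5
  have h7 : (1 + δ) ^ b.1 * (1 + δ) ^ b.2 ≤ 2 * n :=
    (mul_le_mul h3.le h4.le (pow_nonneg h0δ _) (Nat.cast_nonneg _)).trans h6
  have h8 : (lv δ (b.1 + 1) : ℝ) * lv δ (b.2 + 1) ≤ 8 * n := by
    calc (lv δ (b.1 + 1) : ℝ) * lv δ (b.2 + 1) ≤ (1 + δ) ^ (b.1 + 1) * (1 + δ) ^ (b.2 + 1) :=
          mul_le_mul h2 h1 (Nat.cast_nonneg _) (pow_nonneg h0δ _)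
      _ = (1 + δ) ^ 2 * ((1 + δ) ^ b.1 * (1 + δ) ^ b.2) := by ring
      _ ≤ 4 * (2 * n) := by
        apply mul_le_mul _ h7 (mul_nonneg (pow_nonneg h0δ _) (pow_nonneg h0δ _)) (by norm_num)
        nlinarith
      _ = 8 * n := by ring
  exact_mod_cast h8

/-- The parameters of the relevant boxes.

Proof. `m ≥ q1 q2 ≥ n^(1/8) (2n)^(1/3) ≥ n^(1/4)` and `m ≤ lv (i+1)`; `q ≥ (2n)^(1/3)`, `q ≤ lv (j+1)`, and
`lv j ≥ (1 + δ)^j - 1 ≥ lv (j+1)/2 - 1`; `(1 + δ)^i < m` (as `m ≥ lv i + 1`), `(1 + δ)^j < q`, `m q = |N - p| ≤ 2 n` and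
`lv (i+1) lv (j+1) ≤ (1 + δ)^2 (1 + δ)^(i+j) ≤ 8 n`. The number of boxes is at most `(4 log n/δ + 1)^2`. -/
theorem rel_par (δ : ℝ) (hδ : 0 < δ) (hδ1 : δ ≤ 1 / 100) : ∃ n0 : ℕ, ∀ n : ℕ, n0 ≤ n →
    ∀ N y1 y2 : ℕ, Win n N y1 y2 →
    (∀ b ∈ Rel n N y1 y2 δ, (n : ℝ) ^ (1 / 4 : ℝ) ≤ lv δ (b.1 + 1) ∧
      (n : ℝ) ^ (1 / 4 : ℝ) ≤ lv δ (b.2 + 1) ∧ (n : ℝ) ^ (1 / 4 : ℝ) ≤ lv δ b.2 ∧
      lv δ b.2 ≤ lv δ (b.2 + 1) ∧ lv δ (b.1 + 1) * lv δ (b.2 + 1) ≤ 8 * n) ∧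
    ((Rel n N y1 y2 δ).card : ℝ) ≤ 25 * Real.log n ^ 2 / δ ^ 2 ∧
    ∀ b : ℕ × ℕ, ∀ m, 0 ≤ al n δ b m ∧ al n δ b m ≤ 1 ∧ (al n δ b m ≠ 0 → ∀ r : ℕ, r.Prime → r ∣ m →
      (n : ℝ) ^ (1 / 10 : ℝ) ≤ r) := by
  refine ⟨2 ^ 24, ?_⟩
  intro n hn N y1 y2 W
  have hn1 : 1 ≤ n := by omega
  have hn3 : (3 : ℝ) ≤ n := by exact_mod_cast (by omega : 3 ≤ n)
  refine ⟨fun b hb => ?_, ?_, ?_⟩
  · obtain ⟨h1, h2, h3, h4, h5⟩ := CRP_box hδ hδ1 hn W hb
    exact ⟨h1, h2, h3, h4, h5⟩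
  · have hlog : 1 ≤ Real.log n := by
      rw [Real.le_log_iff_exp_le (by linarith)]
      have := Real.exp_one_lt_d9
      linarith
    have h1 : (Rel n N y1 y2 δ).card ≤ (⌊4 * Real.log n / δ⌋₊ + 1) ^ 2 := by
      classical
      unfold Rel
      refine (Finset.card_filter_le _ _).trans ?_
      rw [Finset.card_product, Finset.card_range, sq]
    have h2 : ((⌊4 * Real.log n / δ⌋₊ : ℝ)) ≤ 4 * Real.log n / δ :=
      Nat.floor_le (by positivity)
    have h3 : (1 : ℝ) ≤ Real.log n / δ := by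
      rw [le_div_iff₀ hδ]
      linarith
    have h4 : ((⌊4 * Real.log n / δ⌋₊ : ℝ)) + 1 ≤ 5 * (Real.log n / δ) := by
      have : 4 * Real.log n / δ = 4 * (Real.log n / δ) := by ring
      linarith
    calc ((Rel n N y1 y2 δ).card : ℝ) ≤ ((⌊4 * Real.log n / δ⌋₊ : ℝ) + 1) ^ 2 := by
          exact_mod_cast h1
      _ ≤ (5 * (Real.log n / δ)) ^ 2 := pow_le_pow_left₀ (by positivity) h4 2
      _ = 25 * Real.log n ^ 2 / δ ^ 2 := by
        rw [mul_pow, div_pow]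
        ring
  · intro b m
    refine ⟨?_, ?_, ?_⟩
    · unfold al
      split_ifs <;> norm_num
    · unfold al
      split_ifs <;> norm_num
    · intro h r hr hrm
      obtain ⟨-, q1, q2, hq1p, hq2p, hz, -, hy, -, hmq⟩ := CRP_al h
      rw [hmq] at hrm
      rcases (Nat.Prime.dvd_mul hr).1 hrm with h1 | h1
      · rw [(Nat.prime_dvd_prime_iff_eq hr hq1p).1 h1]
        exact (CRP_zz hn1 (by norm_num)).trans hz
      · rw [(Nat.prime_dvd_prime_iff_eq hr hq2p).1 h1]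
        exact (CRP_yy hn1 (by norm_num)).trans hy

end Pool.Agent.Lib.H59C
end
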