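import Pool.Agent.Lib.H1M.RV.M031
import Pool.Agent.Lib.H1M.RV.M037

/-! Merged copies (to shorten the build) of Lib.H59C.CP2. -/

-- from Lib.H59C.CP2
section

/-!
# CP2: a sum over primes
-/

open Finset

namespace Pool.Agent.Lib.H59C

theorem cp2_int (κ b : ℝ) (hb : 1 / 8 ≤ b) (hκ : b < κ) :
    ∫ x in (1 / 8 : ℝ)..b, (1 / 8 / (κ - x)) / x =
      1 / (8 * κ) * (Real.log b - Real.log (κ - b)) -
        1 / (8 * κ) * (Real.log (1 / 8) - Real.log (κ - 1 / 8)) := by
  have hκ0 : 0 < κ := by linarith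
  have h : ∀ x ∈ Set.uIcc (1 / 8 : ℝ) b,
      HasDerivAt (fun x : ℝ => 1 / (8 * κ) * (Real.log x - Real.log (κ - x)))
        ((1 / 8 / (κ - x)) / x) x := by
    intro x hx
    rw [Set.uIcc_of_le hb, Set.mem_Icc] at hx
    have hx0 : 0 < x := by linarith
    have hx1 : 0 < κ - x := by linarith
    have h1 : HasDerivAt (fun x : ℝ => Real.log x) (1 / x) x := by
      simpa using Real.hasDerivAt_log hx0.ne'
    have h2 : HasDerivAt (fun x : ℝ => κ - x) (-1) x := by
      simpa using (hasDerivAt_id x).const_sub κ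
    have h3 : HasDerivAt (fun x : ℝ => Real.log (κ - x)) (-1 / (κ - x)) x := by
      simpa using h2.log hx1.ne'
    have h4 := (h1.sub h3).const_mul (1 / (8 * κ))
    have hx0' : x ≠ 0 := hx0.ne'
    have hx1' : κ - x ≠ 0 := hx1.ne'
    have hκ' : κ ≠ 0 := hκ0.ne'
    have e : (1 / 8 / (κ - x)) / x = 1 / (8 * κ) * (1 / x - -1 / (κ - x)) := by
      field_simp
      ring
    rw [e]
    exact h4
  rw [intervalIntegral.integral_eq_sub_of_hasDerivAt h]
  apply ContinuousOn.intervalIntegrable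
  rw [Set.uIcc_of_le hb]
  apply ContinuousOn.div
  · apply ContinuousOn.div
    · fun_prop
    · fun_prop
    · intro x hx
      rw [Set.mem_Icc] at hx
      have : 0 < κ - x := by linarith
      exact this.ne'
  · fun_prop
  · intro x hx
    rw [Set.mem_Icc] at hx
    have : 0 < x := by linarith
    exact this.ne'

/-- The choice of `η`. -/
theorem cp2_eta (ε : ℝ) (hε : 0 < ε) : ∃ η : ℝ, 0 < η ∧ η ≤ 1 / 100 ∧
    (1 + η) * (1 / (8 * (1 / 2 - η)) * (Real.log (1 / 3 + η) -
        Real.log ((1 / 2 - η) - (1 / 3 + η))) -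
      1 / (8 * (1 / 2 - η)) * (Real.log (1 / 8) - Real.log ((1 / 2 - η) - 1 / 8))) ≤
      1 / 4 * Real.log 6 + ε := by
  obtain ⟨G, hG⟩ : ∃ G : ℝ → ℝ, G = fun η => (1 + η) * (1 / (8 * (1 / 2 - η)) *
      (Real.log (1 / 3 + η) - Real.log ((1 / 2 - η) - (1 / 3 + η))) -
      1 / (8 * (1 / 2 - η)) * (Real.log (1 / 8) - Real.log ((1 / 2 - η) - 1 / 8))) := ⟨_, rfl⟩
  have hcont : ContinuousAt G 0 := by
    rw [hG]
    have c1 : ContinuousAt (fun η : ℝ => 1 / (8 * (1 / 2 - η))) 0 := by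
      apply ContinuousAt.div (by fun_prop) (by fun_prop)
      norm_num
    have c2 : ContinuousAt (fun η : ℝ => Real.log (1 / 3 + η)) 0 := by
      apply ContinuousAt.log (by fun_prop)
      norm_num
    have c3 : ContinuousAt (fun η : ℝ => Real.log ((1 / 2 - η) - (1 / 3 + η))) 0 := by
      apply ContinuousAt.log (by fun_prop)
      norm_num
    have c4 : ContinuousAt (fun η : ℝ => Real.log ((1 / 2 - η) - 1 / 8)) 0 := by
      apply ContinuousAt.log (by fun_prop)
      norm_num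
    exact (by fun_prop : ContinuousAt (fun η : ℝ => 1 + η) 0).mul
      ((c1.mul (c2.sub c3)).sub (c1.mul (continuousAt_const.sub c4)))
  have hG0 : G 0 = 1 / 4 * Real.log 6 := by
    rw [hG]
    have e1 : Real.log (1 / 3 + 0) - Real.log ((1 / 2 - 0) - (1 / 3 + 0)) = Real.log 2 := by
      rw [← Real.log_div (by norm_num) (by norm_num)]
      norm_num
    have e2 : Real.log (1 / 8) - Real.log ((1 / 2 - 0) - 1 / 8) = - Real.log 3 := by
      rw [← Real.log_div (by norm_num) (by norm_num), ← Real.log_inv]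
      norm_num
    have e3 : Real.log 6 = Real.log 2 + Real.log 3 := by
      rw [← Real.log_mul (by norm_num) (by norm_num)]
      norm_num
    show (1 + 0) * (1 / (8 * (1 / 2 - 0)) * (Real.log (1 / 3 + 0) -
        Real.log ((1 / 2 - 0) - (1 / 3 + 0))) -
      1 / (8 * (1 / 2 - 0)) * (Real.log (1 / 8) - Real.log ((1 / 2 - 0) - 1 / 8))) = _
    rw [e1, e2, e3]
    ring
  obtain ⟨δ, hδ, h⟩ := Metric.continuousAt_iff.mp hcont ε hε
  refine ⟨min (δ / 2) (1 / 100), lt_min (by linarith) (by norm_num), min_le_right _ _, ?_⟩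
  have h1 : dist (min (δ / 2) (1 / 100)) 0 < δ := by
    rw [Real.dist_eq, sub_zero, abs_of_pos (lt_min (by linarith) (by norm_num))]
    have := min_le_left (δ / 2) (1 / 100)
    linarith
  have h2 := h h1
  rw [Real.dist_eq, abs_lt, hG0] at h2
  have h3 := h2.2
  rw [hG] at h3
  simp only at h3
  linarith

/-- Proof. `L = log n`, `x = log q/L`. For `η > 0` and `n` large: `log (DD n B/Q0/q)/L ≥ 1/2 - η - x`, `(2n)^(1/3) ≤ n^(1/3 + η)`
and `gq q ≤ (1 + η)/q`, so the sum is at most `(1 + η) ∑_{n^(1/8) ≤ q < n^(1/3 + η)} φ(x)/q` with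
`φ(x) = (1/8)/(1/2 - η - x)` (increasing, at most `1` for `η ≤ 1/100`; `1/3 + 2 η < 1/2`), and by `prime_int` the sum tends to
`∫_{1/8}^{1/3 + η} (1/8)/(x (1/2 - η - x)) dx = (1/8) (1/2 - η)⁻¹ [log (x/(1/2 - η - x))]_{1/8}^{1/3 + η}`,
which tends to `(1/4)(log 2 + log 3)` as `η → 0`. (The integral: `integral_eq_sub_of_hasDerivAt`.) -/
theorem prime_S2 (ε : ℝ) (hε : 0 < ε) (B Q0 : ℕ) (hQ : 1 ≤ Q0) : ∃ n0 : ℕ, ∀ n : ℕ, n0 ≤ n →
    ∑ q ∈ PR (zz n) (yy n), gq q * (Real.log (zz n) / Real.log ((DD n B : ℝ) / q / Q0)) ≤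
      1 / 4 * Real.log 6 + ε ∧
    ∑ q ∈ PR (zz n) (yy n), gq q ≤ 2 := by
  obtain ⟨η, hη, hη1, hG⟩ := cp2_eta (ε / 2) (by linarith)
  obtain ⟨C, hC, hpi⟩ := prime_int
  obtain ⟨n1, hn1⟩ := dd_log B Q0 hQ η hη
  obtain ⟨n2, hn2⟩ := cdl_zz (2 + (1 + η) / η)
  obtain ⟨n3, hn3⟩ := cdl_log (max (1 / η) (max (32 * C / ε) (80 * C)))
  refine ⟨n1 + n2 + n3 + 3, fun n hn => ?_⟩
  have hN : (3 : ℝ) ≤ n := by exact_mod_cast (by omega : 3 ≤ n)
  have hL : 0 < Real.log n := Real.log_pos (by linarith)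
  obtain ⟨L, hLdef⟩ : ∃ L : ℝ, L = Real.log n := ⟨_, rfl⟩
  obtain ⟨hD1, hDl, hDu, hDp⟩ := hn1 n (by omega)
  have hzn := hn2 n (by omega)
  have hLn := hn3 n (by omega)
  have hlz := log_zz n (by omega)
  rw [← hLdef] at hL hDl hDu hLn hlz
  have hL1 : 1 / η ≤ L := le_trans (le_max_left _ _) hLn
  have hL2 : 32 * C / ε ≤ L := le_trans (le_trans (le_max_left _ _) (le_max_right _ _)) hLn
  have hL3 : 80 * C ≤ L := le_trans (le_trans (le_max_right _ _) (le_max_right _ _)) hLn
  have hηinv : 0 < (1 + η) / η := by positivity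
  have hz2 : 2 ≤ zz n := by linarith
  have hzpos : 0 < zz n := by linarith
  obtain ⟨b, hb⟩ : ∃ b : ℝ, b = 1 / 3 + η := ⟨_, rfl⟩
  have hlyy : Real.log (yy n) = 1 / 3 * (Real.log 2 + L) := by
    unfold yy
    rw [Real.log_rpow (by linarith), Real.log_mul (by norm_num) (by linarith), hLdef]
  have hlog2 : Real.log 2 ≤ 1 := by
    have := Real.log_two_lt_d9
    linarith
  have hyypos : 0 < yy n := by unfold yy; positivity
  have hyb : yy n ≤ (n : ℝ) ^ b := by
    rw [← Real.log_le_log_iff hyypos (by positivity), hlyy, Real.log_rpow (by linarith),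
      ← hLdef, hb]
    have : 1 ≤ η * L := by
      rw [div_le_iff₀ hη] at hL1
      linarith
    nlinarith
  have hsub : PR (zz n) (yy n) ⊆ PR ((n : ℝ) ^ (1 / 8 : ℝ)) ((n : ℝ) ^ b) := by
    intro q hq
    rw [mem_PR] at hq ⊢
    exact ⟨hq.1, hq.2.1, lt_of_lt_of_le hq.2.2 hyb⟩
  -- facts about `q`
  have hqf : ∀ q ∈ PR ((n : ℝ) ^ (1 / 8 : ℝ)) ((n : ℝ) ^ b), (0 : ℝ) < q ∧ 1 / 8 ≤ Real.log q / L ∧
      Real.log q / L ≤ b ∧ 0 ≤ gq q ∧ gq q ≤ (1 + η) / q := by
    intro q hq
    obtain ⟨hqp, hq1, hq2⟩ := mem_PR.mp hq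
    have hq1' : zz n ≤ q := hq1
    have hq0 : (0 : ℝ) < q := by linarith
    refine ⟨hq0, ?_, ?_, ?_, ?_⟩
    · rw [le_div_iff₀ hL]
      have := Real.log_le_log hzpos hq1'
      rw [hlz] at this
      exact this
    · rw [div_le_iff₀ hL]
      have := Real.log_le_log hq0 hq2.le
      rw [Real.log_rpow (by linarith), ← hLdef] at this
      exact this
    · unfold gq
      apply div_nonneg zero_le_one
      linarith
    · unfold gq
      rw [div_le_div_iff₀ (by linarith) hq0]
      have h1 : (1 + η) / η ≤ q := by linarith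
      rw [div_le_iff₀ hη] at h1
      linarith
  have hκb : b < 1 / 2 - η := by rw [hb]; linarith
  constructor
  · -- first sum
    have hΦ : ∀ x ∈ Set.Icc (1 / 8 : ℝ) b, |1 / 8 / ((1 / 2 - η) - x)| ≤ 1 := by
      intro x hx
      rw [Set.mem_Icc] at hx
      have h1 : 1 / 8 ≤ (1 / 2 - η) - x := by rw [hb] at hx; linarith
      rw [abs_of_nonneg (by apply div_nonneg (by norm_num); linarith)]
      rw [div_le_one (by linarith)]
      exact h1
    have hmono : MonotoneOn (fun x : ℝ => 1 / 8 / ((1 / 2 - η) - x)) (Set.Icc (1 / 8 : ℝ) b) := by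
      intro x hx y hy hxy
      rw [Set.mem_Icc] at hx hy
      apply div_le_div_of_nonneg_left (by norm_num)
      · rw [hb] at hy; linarith
      · linarith
    have hpi1 := hpi n (1 / 8) b 1 (fun x : ℝ => 1 / 8 / ((1 / 2 - η) - x)) (by omega)
      (by norm_num) (by rw [hb]; linarith) (by rw [hb]; linarith) hz2 (Or.inl hmono) hΦ
    rw [cp2_int (1 / 2 - η) b (by rw [hb]; linarith) hκb, ← hLdef, abs_le] at hpi1
    have hterm : ∀ q ∈ PR (zz n) (yy n), gq q * (Real.log (zz n) /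
        Real.log ((DD n B : ℝ) / q / Q0)) ≤
        (1 + η) * ((1 / 8 / ((1 / 2 - η) - Real.log q / L)) / q) := by
      intro q hq
      obtain ⟨hq0, hx1, hx2, hg0, hg1⟩ := hqf q (hsub hq)
      have h1 : Real.log ((DD n B : ℝ) / q / Q0) = Real.log ((DD n B : ℝ) / Q0) - Real.log q := by
        rw [show (DD n B : ℝ) / q / Q0 = (DD n B : ℝ) / Q0 / q by ring,
          Real.log_div hDp.ne' hq0.ne']
      have h2 : 0 < (1 / 2 - η) - Real.log q / L := by linarith
      have h3 : ((1 / 2 - η) - Real.log q / L) * L ≤ Real.log ((DD n B : ℝ) / q / Q0) := by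
        rw [h1, sub_mul, div_mul_cancel₀ _ hL.ne']
        linarith
      have h4 : Real.log (zz n) / Real.log ((DD n B : ℝ) / q / Q0) ≤
          1 / 8 / ((1 / 2 - η) - Real.log q / L) := by
        rw [hlz, div_le_div_iff₀ (lt_of_lt_of_le (by positivity) h3) h2]
        calc 1 / 8 * L * ((1 / 2 - η) - Real.log q / L) =
            1 / 8 * (((1 / 2 - η) - Real.log q / L) * L) := by ring
          _ ≤ 1 / 8 * Real.log ((DD n B : ℝ) / q / Q0) := by
            apply mul_le_mul_of_nonneg_left h3 (by norm_num)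
      have h5 : 0 ≤ Real.log (zz n) / Real.log ((DD n B : ℝ) / q / Q0) := by
        apply div_nonneg
        · rw [hlz]; positivity
        · exact le_trans (by positivity) h3
      calc gq q * (Real.log (zz n) / Real.log ((DD n B : ℝ) / q / Q0))
          ≤ (1 + η) / q * (1 / 8 / ((1 / 2 - η) - Real.log q / L)) := by
            apply mul_le_mul hg1 h4 h5 (by positivity)
        _ = (1 + η) * ((1 / 8 / ((1 / 2 - η) - Real.log q / L)) / q) := by ring
    calc ∑ q ∈ PR (zz n) (yy n), gq q * (Real.log (zz n) / Real.log ((DD n B : ℝ) / q / Q0))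
        ≤ ∑ q ∈ PR (zz n) (yy n), (1 + η) * ((1 / 8 / ((1 / 2 - η) - Real.log q / L)) / q) :=
          sum_le_sum hterm
      _ = (1 + η) * ∑ q ∈ PR (zz n) (yy n), (1 / 8 / ((1 / 2 - η) - Real.log q / L)) / q := by
          rw [mul_sum]
      _ ≤ (1 + η) * ∑ q ∈ PR ((n : ℝ) ^ (1 / 8 : ℝ)) ((n : ℝ) ^ b),
          (1 / 8 / ((1 / 2 - η) - Real.log q / L)) / q := by
          apply mul_le_mul_of_nonneg_left _ (by linarith)
          apply sum_le_sum_of_subset_of_nonneg hsub
          intro q hq _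
          obtain ⟨hq0, hx1, hx2, hg0, hg1⟩ := hqf q hq
          have h2 : 0 < (1 / 2 - η) - Real.log q / L := by linarith
          positivity
      _ ≤ (1 + η) * (1 / (8 * (1 / 2 - η)) * (Real.log b - Real.log ((1 / 2 - η) - b)) -
          1 / (8 * (1 / 2 - η)) * (Real.log (1 / 8) - Real.log ((1 / 2 - η) - 1 / 8)) +
          C * 1 / (1 / 8 * L)) := by
          apply mul_le_mul_of_nonneg_left _ (by linarith)
          linarith [hpi1.2]
      _ ≤ 1 / 4 * Real.log 6 + ε / 2 + (1 + η) * (C * 1 / (1 / 8 * L)) := by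
          rw [mul_add, hb]
          linarith
      _ ≤ 1 / 4 * Real.log 6 + ε := by
          have h1 : (1 + η) * (C * 1 / (1 / 8 * L)) ≤ ε / 2 := by
            have h2 : C * 1 / (1 / 8 * L) = 8 * C / L := by
              field_simp
            have h3 : 8 * C / L ≤ ε / 4 := by
              rw [div_le_iff₀ hL]
              rw [div_le_iff₀ hε] at hL2
              linarith
            rw [h2]
            have h4 : 0 ≤ 8 * C / L := by positivity
            nlinarith
          linarith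
  · have hΦ : ∀ x ∈ Set.Icc (1 / 8 : ℝ) b, |(1 : ℝ)| ≤ 1 := by
      intro x _
      simp
    have hmono : MonotoneOn (fun _ : ℝ => (1 : ℝ)) (Set.Icc (1 / 8 : ℝ) b) := by
      intro x hx y hy hxy
      exact le_rfl
    have hpi1 := hpi n (1 / 8) b 1 (fun _ : ℝ => (1 : ℝ)) (by omega)
      (by norm_num) (by rw [hb]; linarith) (by rw [hb]; linarith) hz2 (Or.inl hmono) hΦ
    have hint : ∫ x in (1 / 8 : ℝ)..b, (1 : ℝ) / x = Real.log (8 * b) := by
      rw [integral_one_div_of_pos (by norm_num) (by rw [hb]; linarith)]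
      congr 1
      field_simp
    rw [hint, ← hLdef, abs_le] at hpi1
    have hlogb : Real.log (8 * b) ≤ 8 * b - 1 := by
      have : 0 < 8 * b := by rw [hb]; linarith
      exact Real.log_le_sub_one_of_pos this
    calc ∑ q ∈ PR (zz n) (yy n), gq q ≤ ∑ q ∈ PR (zz n) (yy n), (1 + η) * (1 / (q : ℝ)) := by
          apply sum_le_sum
          intro q hq
          have := (hqf q (hsub hq)).2.2.2.2
          calc gq q ≤ (1 + η) / q := this
            _ = (1 + η) * (1 / (q : ℝ)) := by ring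
      _ = (1 + η) * ∑ q ∈ PR (zz n) (yy n), 1 / (q : ℝ) := by rw [mul_sum]
      _ ≤ (1 + η) * ∑ q ∈ PR ((n : ℝ) ^ (1 / 8 : ℝ)) ((n : ℝ) ^ b), 1 / (q : ℝ) := by
          apply mul_le_mul_of_nonneg_left _ (by linarith)
          apply sum_le_sum_of_subset_of_nonneg hsub
          intro q hq _
          positivity
      _ ≤ (1 + η) * (8 * b - 1 + C * 1 / (1 / 8 * L)) := by
          apply mul_le_mul_of_nonneg_left _ (by linarith)
          linarith [hpi1.2]
      _ ≤ 2 := by
          have h2 : C * 1 / (1 / 8 * L) = 8 * C / L := by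
            field_simp
          have h3 : 8 * C / L ≤ 1 / 10 := by
            rw [div_le_iff₀ hL]
            linarith
          rw [h2, hb]
          nlinarith

end Pool.Agent.Lib.H59C
end
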