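import Pool.Agent.Lib.H1M.RV.M003
import Pool.Agent.Lib.H1M.RV.M008
import Pool.Agent.Lib.H1M.RV.M011
import Pool.Agent.Lib.H1M.RV.M029
import Pool.Agent.Lib.H1M.RV.M031
import Pool.Agent.Lib.H1M.RV.M037
import Pool.Agent.Lib.H1M.RV.M042

/-! Merged copies (to shorten the build) of Lib.H57M.Defs, Lib.H57C.Defs, Lib.H57C.D2, Lib.H57C.A2, Lib.H57C.SDefs, Lib.H57C.S0, Lib.H57C.MDefs, Lib.H57C.M0, Lib.H57C.M2. -/

-- from Lib.H57M.Defs
section

/-!
# Project H57M (MP_0bf1d2_nt): Maynard-Tao for Schinzel's hypothesis. Definitions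

See `PROOF.md` in this folder.
-/

open Finset

namespace Pool.Agent.Lib.H57M

open Pool.Agent.Lib.H15P Pool.Agent.Lib.H92G

/-! ## The weights -/

/-- The data of the weight for one scale; `K` = number of the forms. `D i` = one form function of
the label `i`, `c` = its value at `∅`, `s i` = bound for its second moment, `m i` = bound for the
number of the forms with label `i`. -/
structure Par (K : ℕ) where
  P : Finset ℕ
  W : ℕ
  n : ℕ
  D : Fin n → Finset {p // p ∈ P} → ℝ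
  m : Fin n → ℕ
  R : Fin n → ℝ
  s : Fin n → ℝ
  c : ℝ
  h : ℝ
  Dt : ℝ
  lv : ℝ
  prime : ∀ p ∈ P, p.Prime
  big : ∀ p ∈ P, W < p
  Kpos : 1 ≤ K
  KW : 4 * K ^ 2 ≤ W
  c0 : 0 ≤ c
  good : GoodJ (qq P K) (fun _ : Unit => D) h
  h0 : 0 ≤ h
  emp : ∀ i, D i ∅ = c
  s0 : ∀ i, 0 ≤ s i
  hs : ∑ i, s i ≤ 1
  hm : ∀ i, 2 * (K * s i) + R i ≤ m i
  hR : ∑ i, Real.exp (-R i) ≤ 1 / 4
  Dt1 : 1 ≤ Dt
  tilt : ∀ i (T : Finset {p // p ∈ P}),
    ex (qq P K) (fun A => D i A ^ 2 * (if T ⊆ A then 1 else 0)) ≤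
      Dt ^ T.card * (∏ p ∈ T, qq P K p) * s i
  lv1 : 1 ≤ lv
  lev : ∀ (J : Type) [Fintype J] [DecidableEq J] (M : ℕ) (b : J → ℕ), Fintype.card J = K →
    Lev (∏ p ∈ P, p) (fun t => LG (fun _ : J => D) m univ (fun j => hit P (b j + M * t))) lv

/-- The one form functions are good for every set of forms. -/
theorem Par.goodJ {K : ℕ} (w : Par K) (J : Type) : GoodJ (qq w.P K) (fun _ : J => w.D) w.h where
  q0 := w.good.q0
  q1 := w.good.q1
  mean := fun _ i => w.good.mean () i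
  orth := fun _ i i' hi => w.good.orth () i i' hi
  sq := fun _ i => w.good.sq () i
  fourth := fun _ i => w.good.fourth () i

/-- The weight function before squaring, as a function of the configuration. -/
noncomputable def Par.L {K : ℕ} (w : Par K) {J : Type} [Fintype J] [DecidableEq J]
    (S : J → Finset {p // p ∈ w.P}) : ℝ := LG (fun _ : J => w.D) w.m univ S

/-- `1 + ∑ E D_i^2` -/
noncomputable def Par.z {K : ℕ} (w : Par K) : ℝ :=
  1 + ∑ i, ex (qq w.P K) (fun A => w.D i A ^ 2)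

/-- The constant `(2 (n + 1))^K`. -/
noncomputable def Par.CL {K : ℕ} (w : Par K) : ℝ := (2 * ((w.n : ℝ) + 1)) ^ K


/-! ## Residues -/

/-- The residues `v` modulo `P` for which all `v + h`, `h ∈ H`, are prime to `P`. -/
def cF (H : Finset ℕ) (P : ℕ) : Finset ℕ :=
  (range P).filter (fun v => (∏ h ∈ H, (v + h)).Coprime P)



end Pool.Agent.Lib.H57M
end

-- from Lib.H57C.Defs
section

/-!
# Project H57C (MP_0bf1d2_nt): Chen's theorem with Maynard-Tao tuples, for ALL large N. Definitions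

See `PROOF.md` in this folder.
-/

open Finset

namespace Pool.Agent.Lib.H57C

open Pool.Agent.Lib.H15P Pool.Agent.Lib.H92G Pool.Agent.Lib.H57M
open Pool.Agent.Lib.H59C (Sq lg XX gq VV PR zz yy Tri BX wB remd sift)

noncomputable section

/-! ## Expansions -/

/-- `G(A) = ∑_{T ⊆ A} g(T)` with `|g| ≤ C`, and `g(T) ≠ 0` only if the product of the primes in `T` is at
most `D`. -/
def Ex1 (P : Finset ℕ) (G : Finset {p // p ∈ P} → ℝ) (C D : ℝ) : Prop :=
  ∃ g : Finset {p // p ∈ P} → ℝ, (∀ A, G A = ∑ T ∈ A.powerset, g T) ∧ (∀ T, |g T| ≤ C) ∧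
    ∀ T, g T ≠ 0 → (∏ p ∈ T, (p.1 : ℝ)) ≤ D

/-- `F(S) = ∑_U c(U)`, the sum over the families `U_j ⊆ S_j`, with `|c(U)| ≤ C E^(∑ |U_j|)`, and `c(U) ≠ 0` only
if the product of the primes in the `U_j` is at most `D`. -/
def ExJ {J : Type} [Fintype J] [DecidableEq J] (P : Finset ℕ)
    (F : (J → Finset {p // p ∈ P}) → ℝ) (C : ℝ) (E : ℕ) (D : ℝ) : Prop :=
  ∃ c : (J → Finset {p // p ∈ P}) → ℝ,
    (∀ S, F S = ∑ U : J → Finset {p // p ∈ P}, if ∀ j, U j ⊆ S j then c U else 0) ∧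
    (∀ U, |c U| ≤ C * (E : ℝ) ^ (∑ j, (U j).card)) ∧
    ∀ U, c U ≠ 0 → (∏ j, ∏ p ∈ U j, (p.1 : ℝ)) ≤ D

/-- The configuration of `t`: the primes of `P` dividing `t + h`, `h ∈ H`; if `i = some h` the form `t + h` is
left out. -/
def cfg (P H : Finset ℕ) (i : Option ℕ) (t : ℕ) : {h // h ∈ H} → Finset {p // p ∈ P} :=
  fun h => if i = some h.1 then ∅ else hit P (t + h.1)

/-! ## Small primes and targets -/

/-- The primes `≤ W` different from `p1`. -/
def Ps (W p1 : ℕ) : Finset ℕ := (Icc 1 W).filter (fun q => q.Prime ∧ q ≠ p1)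

/-- `1` if `t` is in no bad class modulo the primes in `Q`. -/
def Sg (Q : Finset ℕ) (R : ℕ → Finset ℕ) (t : ℕ) : ℝ := if ∀ q ∈ Q, t % q ∉ R q then 1 else 0

/-- `t` is in a target class for all prime factors of `d`. -/
def inT (T : ℕ → Finset ℕ) (d t : ℕ) : Prop := ∀ q ∈ d.primeFactors, t % q ∈ T q

instance (T : ℕ → Finset ℕ) (d t : ℕ) : Decidable (inT T d t) := by unfold inT; infer_instance

/-! ## Sequences -/

/-- A weighted sequence of natural numbers `x i`, `i ∈ S`, with its model: the class `c` mod `q` has density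
`hd q` if it is allowed (`Al q c`), otherwise the sequence does not meet it. -/
structure Seq (ι : Type) where
  S : Finset ι
  wt : ι → ℝ
  x : ι → ℕ
  X : ℝ
  hd : ℕ → ℝ
  Al : ℕ → ℕ → Prop

/-- Level of distribution, uniformly in the residue classes, with weights `E^ω(m)`. -/
def Lvl {ι : Type} (s : Seq ι) (p1 D E : ℕ) (Err : ℝ) : Prop :=
  ∃ rr : ℕ → ℝ, (∀ m, 0 ≤ rr m) ∧
    (∀ m, Squarefree m → m ≤ D → ¬ p1 ∣ m → ∀ c : ℕ, (∀ q ∈ m.primeFactors, s.Al q c) →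
      |∑ i ∈ s.S.filter (fun i => s.x i ≡ c [MOD m]), s.wt i -
        s.X * ∏ q ∈ m.primeFactors, s.hd q| ≤ rr m) ∧
    ∑ m ∈ (Icc 1 D).filter (fun m => Squarefree m ∧ ¬ p1 ∣ m),
      (E : ℝ) ^ m.primeFactors.card * rr m ≤ Err

open Classical in
/-- Product over the small primes. -/
def VS (Q : Finset ℕ) (R : ℕ → Finset ℕ) (hd : ℕ → ℝ) (Al : ℕ → ℕ → Prop) : ℝ :=
  ∏ q ∈ Q, (1 - (((R q).filter (fun c => Al q c)).card : ℝ) * hd q)

/-- Mean value of the weight function: over all residue classes (`none`), or over the classes for which `t + h0`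
is prime to `P` (`some h0`). -/
def AE (P H : Finset ℕ) (i : Option ℕ) (F : ({h // h ∈ H} → Finset {p // p ∈ P}) → ℝ) : ℝ :=
  match i with
  | none => EP P 1 (fun h : {h // h ∈ H} => h.1) F
  | some h0 => EU P 1 h0 (fun t => F (cfg P H (some h0) t))

open Classical in
/-- The hypotheses of the transfer theorem. `P`: the primes of the weight, `H`: the shifts, `i`: the form which is left
out, `R`: the bad classes modulo the primes `≤ W`, `T`: the target classes modulo the primes in `P'`. -/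
structure Hy {ι : Type} (s : Seq ι) (P H : Finset ℕ) (i : Option ℕ) (W p1 : ℕ)
    (R T : ℕ → Finset ℕ) (P' : Finset ℕ) (k b : ℕ) : Prop where
  w0 : ∀ j ∈ s.S, 0 ≤ s.wt j
  X0 : 0 ≤ s.X
  al : ∀ q c c' : ℕ, c ≡ c' [MOD q] → (s.Al q c ↔ s.Al q c')
  nev : ∀ j ∈ s.S, s.wt j ≠ 0 → ∀ q : ℕ, q.Prime → (q ∈ P ∨ (q ≤ W ∧ q ≠ p1)) → s.Al q (s.x j)
  hd0 : ∀ q : ℕ, q.Prime → 0 ≤ s.hd q
  hd2 : ∀ q : ℕ, q.Prime → s.hd q ≤ 2 / q
  hdq : ∀ q : ℕ, q.Prime → W < q → |s.hd q - 1 / q| ≤ 2 / (q : ℝ) ^ 2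
  Pp : ∀ p ∈ P, p.Prime ∧ W < p
  p1p : p1.Prime
  p1W : p1 ≤ W
  HW : ∀ h ∈ H, h ≤ W
  iH : ∀ h, i = some h → h ∈ H
  Rr : ∀ q, R q ⊆ range q
  Rk : ∀ q ∈ Ps W p1, (R q).card ≤ k
  R1 : ∀ q ∈ Ps W p1, (((R q).filter (fun c => s.Al q c)).card : ℝ) * s.hd q ≤ 1
  P'p : ∀ q ∈ P', q.Prime ∧ W < q
  Tr : ∀ q ∈ P', T q ⊆ range q
  Tk : ∀ q ∈ P', (T q).card ≤ k
  TA : ∀ q ∈ P', ∀ t ∈ T q, s.Al q t
  TH : ∀ q ∈ P', ∀ t ∈ T q, ∀ h ∈ H, i ≠ some h → ¬ q ∣ t + h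
  bad : (P.filter (fun p => ∃ h ∈ H, i ≠ some h ∧ ∃ c : ℕ, p ∣ c + h ∧ ¬ s.Al p c)).card ≤ b

/-- The moduli: squarefree, composed of primes in `P'`, at most `D1`. -/
def Dv (P' : Finset ℕ) (D1 : ℕ) : Finset ℕ :=
  (Icc 1 D1).filter (fun d => Squarefree d ∧ ∀ q ∈ d.primeFactors, q ∈ P')

/-! ## The concrete situation -/

/-- The weight of `t` (the form `t + h` is left out if `i = some h`). -/
def FF {K : ℕ} (w : Par K) (H : Finset ℕ) (i : Option ℕ) (t : ℕ) : ℝ :=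
  w.L (cfg w.P H i t) ^ 2 / w.z ^ K

/-- The weight as a function of the configuration. -/
def FC {K : ℕ} (w : Par K) (H : Finset ℕ) (S : {h // h ∈ H} → Finset {p // p ∈ w.P}) : ℝ :=
  w.L S ^ 2 / w.z ^ K

/-- The bad classes modulo `q`: `q ∣ t + h` for some `h ∈ H`, or `q ∣ N - t`. -/
def Rb (N : ℕ) (H : Finset ℕ) (q : ℕ) : Finset ℕ :=
  (range q).filter (fun c => (∃ h ∈ H, q ∣ c + h) ∨ c ≡ N [MOD q])

/-- The good primes in `(W, N]`: they divide no `N + h`, `h ∈ H`. -/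
def Pg (N W : ℕ) (H : Finset ℕ) : Finset ℕ :=
  (Ioc W N).filter (fun q => q.Prime ∧ ∀ h ∈ H, ¬ q ∣ N + h)

/-- The window for `t`. -/
def Ya (N : ℕ) : ℕ := 7 * N / 20

/-- The window for `t`. -/
def Yb (N : ℕ) : ℕ := 9 * N / 20

/-- The weight with the condition that no prime `≤ W`, `≠ p1`, divides `(N - t) ∏ (t + h)`. -/
def Fs {K : ℕ} (w : Par K) (H : Finset ℕ) (N p1 : ℕ) (i : Option ℕ) (t : ℕ) : ℝ :=
  FF w H i t * Sg (Ps w.W p1) (Rb N H) t

/-- Small primes, integers. -/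
def Va (N W p1 : ℕ) (H : Finset ℕ) : ℝ := ∏ q ∈ Ps W p1, (1 - ((Rb N H q).card : ℝ) / q)

/-- Small primes, the sequences without the classes `0` (`t + h` prime, `N - t = q1 q2 q3`). -/
def Vb (N W p1 : ℕ) (H : Finset ℕ) : ℝ :=
  Va N W p1 H * ∏ q ∈ Ps W p1, ((q : ℝ) / ((q : ℝ) - 1))

/-- The level of distribution of the sieve. -/
def Lv (N : ℕ) (θ : ℝ) : ℕ := ⌊(N : ℝ) ^ (1 / 2 - 4 * θ)⌋₊

/-- The value of the switched sequence: congruent to `N - m q` modulo all `d ≤ N`. -/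
def xv (N : ℕ) (x : ℕ × ℕ) : ℕ := N + (N.factorial - 1) * (x.1 * x.2)

/-- The total weight of the `t` with `t + h` prime. -/
def Xh {K : ℕ} (w : Par K) (H : Finset ℕ) (N p1 h : ℕ) : ℝ :=
  XX (Ya N + h) (Yb N + h) * (AE w.P H (some h) (FC w H) * Vb N w.W p1 H)

/-- The total weight of the integers. -/
def Xi {K : ℕ} (w : Par K) (H : Finset ℕ) (N p1 : ℕ) : ℝ :=
  ((Yb N : ℝ) - Ya N) * (AE w.P H none (FC w H) * Va N w.W p1 H)

/-- The sequence of the `t` with `t + h` prime. -/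
def sB (h y1 y2 : ℕ) : Seq ℕ where
  S := Sq y1 y2
  wt := lg
  x := fun p => p - h
  X := XX y1 y2
  hd := gq
  Al := fun q c => ¬ q ∣ c + h

/-- The switched sequence. -/
def sC (N M u v : ℕ) (α : ℕ → ℝ) : Seq (ℕ × ℕ) where
  S := BX M u v
  wt := wB α
  x := xv N
  X := H59C.XB M u v α
  hd := gq
  Al := fun q c => ¬ c ≡ N [MOD q]

/-- The integers `≡ N` modulo `r` (`r = 1`, or `r = p1`). -/
def sI (N r y1 y2 : ℕ) : Seq ℕ where
  S := (Ioc y1 y2).filter (fun t => t ≡ N [MOD r])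
  wt := fun _ => 1
  x := fun t => t
  X := ((y2 : ℝ) - y1) / r
  hd := fun q => 1 / q
  Al := fun _ _ => True

/-- What is assumed about the parameters. -/
structure Pre (B cF : ℕ) (θ : ℝ) {K : ℕ} (w : Par K) (H : Finset ℕ) (N p1 : ℕ) : Prop where
  cardH : H.card = K
  HW : ∀ h ∈ H, h ≤ w.W
  Wdef : w.W = ⌈Real.log N ^ B⌉₊
  PN : ∀ p ∈ w.P, (p : ℝ) ≤ (N : ℝ) ^ (1 / 100 : ℝ)
  p1p : p1.Prime
  p1W : p1 ≤ w.W
  even : ∀ h ∈ H, 2 ∣ N + h
  nf : ∀ q : ℕ, q.Prime → (Rb N H q).card < q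
  exF : ExJ w.P (FC w H) (Real.log N ^ cF) 3 ((N : ℝ) ^ (2 * θ))

open Classical in
/-- Everything that is needed for the sieve. -/
structure Reg (B cF : ℕ) (θ G : ℝ) {K : ℕ} (w : Par K) (H : Finset ℕ) (N p1 : ℕ) : Prop
    extends Pre B cF θ w H N p1 where
  aen0 : 0 ≤ AE w.P H none (FC w H)
  aen : AE w.P H none (FC w H) ≤ 11 / 10
  aes : ∀ h ∈ H, 36 / 100 * (1 + w.n * w.c) ^ 2 ≤ AE w.P H (some h) (FC w H)
  gain : G * Real.log N ≤ K * (1 + w.n * w.c) ^ 2 * Real.log w.W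
  remB : ∀ h ∈ H, ∑ d ∈ Dv (Pg N w.W H) (Lv N θ),
    |∑ p ∈ (Sq (Ya N + h) (Yb N + h)).filter (fun p => d ∣ Nat.dist (N + h) p),
        lg p * Fs w H N p1 (some h) (p - h) -
      Xh w H N p1 h / (Nat.totient d : ℝ)| ≤ N / Real.log N ^ 10
  remC : ∀ h ∈ H, ∀ (M u v : ℕ) (α : ℕ → ℝ), (∀ m, 0 ≤ α m ∧ α m ≤ 1) →
    (∀ m, α m ≠ 0 → ∀ r : ℕ, r.Prime → r ∣ m → (N : ℝ) ^ (1 / 10 : ℝ) ≤ r) →
    (N : ℝ) ^ (1 / 4 : ℝ) ≤ M → (N : ℝ) ^ (1 / 4 : ℝ) ≤ u → u ≤ v → M * v ≤ 8 * N → ∀ z : ℝ,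
    remd (BX M u v) (fun x => wB α x * Fs w H N p1 (some h) (xv N x)) (fun x => xv N x + h)
      (Pg N w.W H) z (H59C.XB M u v α * (AE w.P H (some h) (FC w H) * Vb N w.W p1 H)) (Lv N θ) ≤
      N / Real.log N ^ 10
  remI : ∑ d ∈ Dv (Pg N w.W H) (Lv N θ),
    |∑ t ∈ (Ioc (Ya N) (Yb N)).filter (fun t => d ∣ N - t), Fs w H N p1 none t -
      Xi w H N p1 / (Nat.totient d : ℝ)| ≤ N / Real.log N ^ 10
  remJ : ∀ h ∈ H, ∑ d ∈ Dv (Pg N w.W H) (Lv N θ),
    |∑ t ∈ (Ioc (Ya N) (Yb N)).filter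
        (fun t => t ≡ N [MOD p1] ∧ ∀ q ∈ d.primeFactors, q ∣ N - t ∨ q ∣ t + h),
        Fs w H N p1 (some h) t -
      ((Yb N : ℝ) - Ya N) / p1 * (AE w.P H (some h) (FC w H) * Va N w.W p1 H) *
        ((2 : ℝ) ^ d.primeFactors.card / d)| ≤ N / Real.log N ^ 10
  cls : ∀ h ∈ H, ∀ r c : ℕ, (r.Prime ∨ ∀ p ∈ w.P, r.Coprime p) → 1 ≤ r →
    ∑ t ∈ (Ioc (Ya N) (Yb N)).filter (fun t => t ≡ c [MOD r]), FF w H (some h) t ≤
      Real.log N ^ B * (N / r) / Real.log N ^ 20 + (N : ℝ) ^ (1 / 20 : ℝ)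
  mom : ∑ t ∈ Icc 1 N, FF w H none t ^ 2 ≤ Real.log N ^ B * N

end

end Pool.Agent.Lib.H57C
end

-- from Lib.H57C.D2
section

/-!
# Definitions: abstract bad classes `R` and target classes `T`
-/

open Finset

namespace Pool.Agent.Lib.H57C

open Pool.Agent.Lib.H15P Pool.Agent.Lib.H92G Pool.Agent.Lib.H57M
open Pool.Agent.Lib.H59C (Sq lg XX gq VV PR zz yy Tri BX wB remd sift)

noncomputable section

/-- Small primes, integers. -/
def VaR (Q : Finset ℕ) (R : ℕ → Finset ℕ) : ℝ := ∏ q ∈ Q, (1 - ((R q).card : ℝ) / q)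

/-- Small primes, sequences without one of the bad classes. -/
def VbR (Q : Finset ℕ) (R : ℕ → Finset ℕ) : ℝ :=
  VaR Q R * ∏ q ∈ Q, ((q : ℝ) / ((q : ℝ) - 1))

/-- What is assumed about the weight. -/
structure Pre0 (B cF : ℕ) (θ : ℝ) {K : ℕ} (w : Par K) (H : Finset ℕ) (n p1 : ℕ) : Prop where
  cardH : H.card = K
  HW : ∀ h ∈ H, h ≤ w.W
  Wdef : w.W = ⌈Real.log n ^ B⌉₊
  PN : ∀ p ∈ w.P, (p : ℝ) ≤ (n : ℝ) ^ (1 / 100 : ℝ)
  p1p : p1.Prime
  p1W : p1 ≤ w.W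
  exF : ExJ w.P (FC w H) (Real.log n ^ cF) 3 ((n : ℝ) ^ (2 * θ))

/-- What is assumed about the bad classes `R` modulo the primes `≤ W` and the target classes `T` modulo the primes
in `P'`. -/
structure HRT (K k W p1 : ℕ) (H : Finset ℕ) (R T : ℕ → Finset ℕ) (P' : Finset ℕ) : Prop where
  Rr : ∀ q, R q ⊆ range q
  Rk : ∀ q ∈ Ps W p1, (R q).card ≤ K + k
  Rq : ∀ q ∈ Ps W p1, (R q).card < q
  RH : ∀ q ∈ Ps W p1, ∀ h ∈ H, ∀ c < q, q ∣ c + h → c ∈ R q
  P'p : ∀ q ∈ P', q.Prime ∧ W < q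
  Tr : ∀ q ∈ P', T q ⊆ range q
  Tk : ∀ q ∈ P', (T q).card ≤ k
  TH : ∀ q ∈ P', ∀ t ∈ T q, ∀ h ∈ H, ¬ q ∣ t + h

/-- The target classes and the class `-h`. -/
def Tp (T : ℕ → Finset ℕ) (h q : ℕ) : Finset ℕ := (range q).filter (fun c => c ∈ T q ∨ q ∣ c + h)

theorem Pre.to0 {B cF : ℕ} {θ : ℝ} {K : ℕ} {w : Par K} {H : Finset ℕ} {N p1 : ℕ}
    (h : Pre B cF θ w H N p1) : Pre0 B cF θ w H N p1 :=
  ⟨h.cardH, h.HW, h.Wdef, h.PN, h.p1p, h.p1W, h.exF⟩

theorem Va_eq (N W p1 : ℕ) (H : Finset ℕ) : Va N W p1 H = VaR (Ps W p1) (Rb N H) := rfl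

theorem Vb_eq (N W p1 : ℕ) (H : Finset ℕ) : Vb N W p1 H = VbR (Ps W p1) (Rb N H) := rfl


end

end Pool.Agent.Lib.H57C
end

-- from Lib.H57C.A2
section

/-!
# Chunk A2: the small primes
-/

open Finset

namespace Pool.Agent.Lib.H57C

open Pool.Agent.Lib.H59C (gq)

/-- The class `-h` modulo `q`. -/
theorem a2_cls {q h c : ℕ} (hq : 0 < q) (hc : c < q) : q ∣ c + h ↔ c = (q - h % q) % q := by
  have hr : h % q < q := Nat.mod_lt _ hq
  have h1 : q ∣ c + h ↔ q ∣ c + h % q := by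
    rw [Nat.dvd_iff_mod_eq_zero, Nat.dvd_iff_mod_eq_zero, Nat.add_mod c h, Nat.add_mod c (h % q), Nat.mod_mod]
  rw [h1]
  set r := h % q with hrdef
  constructor
  · rintro ⟨k, hk⟩
    have hk2 : k < 2 := by
      by_contra hk2
      push Not at hk2
      have : q * 2 ≤ q * k := Nat.mul_le_mul_left q hk2
      omega
    interval_cases k
    · have : r = 0 := by omega
      rw [this, Nat.sub_zero, Nat.mod_self]
      omega
    · have h2 : c = q - r := by omega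
      rw [← h2, Nat.mod_eq_of_lt hc]
  · intro h2
    rcases Nat.eq_zero_or_pos r with h3 | h3
    · rw [h3, Nat.sub_zero, Nat.mod_self] at h2
      rw [h2, h3]
      exact dvd_zero q
    · rw [Nat.mod_eq_of_lt (by omega)] at h2
      exact ⟨1, by omega⟩

theorem a2_mod {q N c : ℕ} (hc : c < q) : c ≡ N [MOD q] ↔ c = N % q := by
  unfold Nat.ModEq
  rw [Nat.mod_eq_of_lt hc]

open Classical in
theorem a2_one (Q : Finset ℕ) (R : ℕ → Finset ℕ) (Al : ℕ → ℕ → Prop) (c0 : ℕ → ℕ) (hQ : ∀ q ∈ Q, q.Prime)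
    (h0 : ∀ q ∈ Q, c0 q ∈ R q) (hAl : ∀ q ∈ Q, ∀ c ∈ R q, (Al q c ↔ c ≠ c0 q)) :
    VS Q R gq Al = VbR Q R := by
  unfold VS VbR VaR
  rw [← Finset.prod_mul_distrib]
  refine Finset.prod_congr rfl fun q hq => ?_
  have h1 : (R q).filter (fun c => Al q c) = (R q).erase (c0 q) := by
    ext c
    rw [Finset.mem_filter, Finset.mem_erase]
    constructor
    · rintro ⟨h2, h3⟩
      exact ⟨(hAl q hq c h2).1 h3, h2⟩
    · rintro ⟨h2, h3⟩
      exact ⟨h3, (hAl q hq c h3).2 h2⟩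
  rw [h1, Finset.card_erase_of_mem (h0 q hq)]
  have hpos : 1 ≤ (R q).card := Finset.card_pos.2 ⟨_, h0 q hq⟩
  have hq2 : (2 : ℝ) ≤ q := by exact_mod_cast (hQ q hq).two_le
  rw [Nat.cast_sub hpos]
  unfold gq
  have hq0 : (q : ℝ) ≠ 0 := by linarith
  have hq1 : (q : ℝ) - 1 ≠ 0 := by linarith
  push_cast
  field_simp
  ring

/-- Proof. For every `q ∈ Q`: the class `-h` mod `q` (the `c < q` with `q ∣ c + h`) is in `R q` and is the only class which is not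
allowed, so the filtered set has `#R - 1` elements, and `1 - (r - 1)/(q - 1) = (1 - r/q) q/(q - 1)`. -/
theorem vs_BR (Q : Finset ℕ) (R : ℕ → Finset ℕ) (h : ℕ) (hQ : ∀ q ∈ Q, q.Prime)
    (hR : ∀ q ∈ Q, R q ⊆ range q) (hRH : ∀ q ∈ Q, ∀ c < q, q ∣ c + h → c ∈ R q) :
    VS Q R gq (fun q c => ¬ q ∣ c + h) = VbR Q R := by
  refine a2_one Q R _ (fun q => (q - h % q) % q) hQ ?_ ?_
  · intro q hq
    have hq0 := (hQ q hq).pos
    have hlt : (q - h % q) % q < q := Nat.mod_lt _ hq0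
    exact hRH q hq _ hlt ((a2_cls hq0 hlt).2 rfl)
  · intro q hq c hc
    have hlt := Finset.mem_range.1 (hR q hq hc)
    rw [a2_cls (hQ q hq).pos hlt]

theorem a2_Ps {W p1 q : ℕ} (hq : q ∈ Ps W p1) : q.Prime := by
  unfold Ps at hq
  rw [Finset.mem_filter] at hq
  exact hq.2.1

theorem a2_Rb {N : ℕ} {H : Finset ℕ} {q : ℕ} : Rb N H q ⊆ range q := by
  unfold Rb
  exact Finset.filter_subset _ _


/-- Proof. As before, the class of `N` is the only one which is not allowed. -/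
theorem vs_C (N W p1 : ℕ) (H : Finset ℕ) :
    VS (Ps W p1) (Rb N H) gq (fun q c => ¬ c ≡ N [MOD q]) = Vb N W p1 H := by
  rw [Vb_eq]
  refine a2_one _ _ _ (fun q => N % q) (fun q hq => a2_Ps hq) ?_ ?_
  · intro q hq
    have hlt : N % q < q := Nat.mod_lt _ (a2_Ps hq).pos
    unfold Rb
    rw [Finset.mem_filter, Finset.mem_range]
    exact ⟨hlt, Or.inr ((a2_mod hlt).2 rfl)⟩
  · intro q hq c hc
    have hlt := Finset.mem_range.1 (a2_Rb hc)
    rw [a2_mod hlt]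

theorem vs_IR (Q : Finset ℕ) (R : ℕ → Finset ℕ) :
    VS Q R (fun q => 1 / (q : ℝ)) (fun _ _ => True) = VaR Q R := by
  unfold VS VaR
  refine Finset.prod_congr rfl fun q _ => ?_
  rw [Finset.filter_true]
  ring


theorem a2_exp {x : ℝ} (h0 : 0 ≤ x) (h1 : x ≤ 1 / 2) : Real.exp (-(2 * x)) ≤ 1 - x := by
  have h2 : 0 < 1 - x := by linarith
  have h3 : Real.log (1 - x)⁻¹ ≤ (1 - x)⁻¹ - 1 := Real.log_le_sub_one_of_pos (inv_pos.2 h2)
  have h4 : (1 - x)⁻¹ - 1 ≤ 2 * x := by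
    rw [inv_eq_one_div, div_sub_one h2.ne', div_le_iff₀ h2]
    nlinarith
  rw [Real.log_inv] at h3
  rw [← Real.le_log_iff_exp_le h2]
  linarith

theorem a2_fac {K q r : ℕ} (hK : 1 ≤ K) (hq : 2 ≤ q) (hr : r ≤ K) (hrq : r < q) :
    (if q ≤ 2 * K then 1 / (2 * (K : ℝ)) else 1) * Real.exp (-(2 * K * (1 / (q : ℝ)))) ≤ 1 - (r : ℝ) / q := by
  have hK1 : (1 : ℝ) ≤ K := by exact_mod_cast hK
  have hq2 : (2 : ℝ) ≤ q := by exact_mod_cast hq
  have hr0 : (0 : ℝ) ≤ r := Nat.cast_nonneg r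
  have hrK : (r : ℝ) ≤ K := by exact_mod_cast hr
  have hrq' : (r : ℝ) + 1 ≤ q := by exact_mod_cast hrq
  have he : Real.exp (-(2 * K * (1 / (q : ℝ)))) ≤ 1 := by
    rw [Real.exp_le_one_iff]
    have : 0 ≤ 2 * (K : ℝ) * (1 / (q : ℝ)) := by positivity
    linarith
  have he0 := Real.exp_pos (-(2 * K * (1 / (q : ℝ))))
  split_ifs with h
  · have hqK : (q : ℝ) ≤ 2 * K := by exact_mod_cast h
    calc 1 / (2 * (K : ℝ)) * Real.exp (-(2 * K * (1 / (q : ℝ)))) ≤ 1 / (2 * (K : ℝ)) * 1 :=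
          mul_le_mul_of_nonneg_left he (by positivity)
      _ = 1 / (2 * (K : ℝ)) := mul_one _
      _ ≤ 1 / (q : ℝ) := one_div_le_one_div_of_le (by linarith) hqK
      _ ≤ 1 - (r : ℝ) / q := by
          rw [div_le_iff₀ (by linarith)]
          have : (1 - (r : ℝ) / q) * q = q - r := by field_simp
          rw [this]; linarith
  · push Not at h
    have hqK : 2 * (K : ℝ) ≤ q := by exact_mod_cast h.le
    rw [one_mul]
    have h1 : (K : ℝ) / q ≤ 1 / 2 := by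
      rw [div_le_iff₀ (by linarith)]; linarith
    have h2 := a2_exp (x := (K : ℝ) / q) (by positivity) h1
    have h3 : -(2 * (K : ℝ) * (1 / (q : ℝ))) = -(2 * ((K : ℝ) / q)) := by ring
    rw [h3]
    have h4 : (r : ℝ) / q ≤ (K : ℝ) / q := div_le_div_of_nonneg_right hrK (by linarith)
    linarith

theorem a2_large (K B : ℕ) (c : ℝ) (hc : 0 < c) : ∃ n0 : ℕ, ∀ N : ℕ, n0 ≤ N →
    1 ≤ Real.log N ∧ Real.log (Real.log N ^ B + 3) ≤ (B + 1) * Real.log (Real.log N) ∧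
      (((B : ℝ) + 1) * Real.log (Real.log N)) ^ (2 * K) ≤ c * Real.log N := by
  have h1 : ∀ᶠ x : ℝ in Filter.atTop, 1 ≤ x ∧ Real.log (x ^ B + 3) ≤ (B + 1) * Real.log x ∧
      (((B : ℝ) + 1) * Real.log x) ^ (2 * K) ≤ c * x := by
    have e1 := (Real.isLittleO_pow_log_id_atTop (n := 2 * K)).def
      (show 0 < c / ((B : ℝ) + 1) ^ (2 * K) by positivity)
    filter_upwards [e1, Filter.eventually_ge_atTop (4 : ℝ)] with x hx1 hx2
    refine ⟨by linarith, ?_, ?_⟩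
    · have h3 : x ^ B + 3 ≤ x ^ (B + 1) := by
        have : 1 ≤ x ^ B := one_le_pow₀ (by linarith)
        rw [pow_succ]
        nlinarith
      calc Real.log (x ^ B + 3) ≤ Real.log (x ^ (B + 1)) := Real.log_le_log (by positivity) h3
        _ = (B + 1) * Real.log x := by rw [Real.log_pow]; push_cast; ring
    · have hl : 0 ≤ Real.log x := Real.log_nonneg (by linarith)
      rw [Real.norm_eq_abs, Real.norm_eq_abs, abs_of_nonneg (pow_nonneg hl _), id, abs_of_nonneg (by linarith)] at hx1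
      rw [mul_pow]
      calc ((B : ℝ) + 1) ^ (2 * K) * Real.log x ^ (2 * K) ≤
            ((B : ℝ) + 1) ^ (2 * K) * (c / ((B : ℝ) + 1) ^ (2 * K) * x) :=
            mul_le_mul_of_nonneg_left hx1 (by positivity)
        _ = c * x := by field_simp
  have h2 : Filter.Tendsto (fun N : ℕ => Real.log (N : ℝ)) Filter.atTop Filter.atTop :=
    Real.tendsto_log_atTop.comp tendsto_natCast_atTop_atTop
  obtain ⟨n0, hn0⟩ := Filter.eventually_atTop.1 (h2.eventually h1)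
  exact ⟨n0, fun N hN => hn0 N hN⟩

/-- Lower bound for the small primes.

Proof. `#R ≤ K` and `#R < q`. For `q ≤ 2 K` the factor is at least `1/q`, the product of these is a constant
`c_K > 0`. For `q > 2 K`: `1 - K/q ≥ exp (-2 K/q)`, and `∑_{q ≤ W} 1/q ≤ log log W + C` (`mertens` in `H59C/MER0.lean`), so
`VaR ≥ c_K' (log W)^(-2K)`, and `log W ≤ (B + 1) log L`, so this is `≥ 1/L` for large `N` (`L = log N`). -/
theorem vaR_low (K B : ℕ) (hK : 1 ≤ K) : ∃ n0 : ℕ, ∀ N : ℕ, n0 ≤ N → ∀ (W p1 : ℕ)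
    (R : ℕ → Finset ℕ), W = ⌈Real.log N ^ B⌉₊ → (∀ q ∈ Ps W p1, (R q).card ≤ K) →
    (∀ q ∈ Ps W p1, (R q).card < q) →
    1 / Real.log N ≤ VaR (Ps W p1) R ∧ VaR (Ps W p1) R ≤ 1 := by
  obtain ⟨C, hC, hmer⟩ := Pool.Agent.Lib.H59C.mertens
  have hK1 : (1 : ℝ) ≤ K := by exact_mod_cast hK
  have hl2 : 0 < Real.log 2 := Real.log_pos (by norm_num)
  set C' : ℝ := C / Real.log 2 - Real.log (Real.log 2) with hC'
  set c : ℝ := (1 / (2 * (K : ℝ))) ^ (2 * K) * Real.exp (-(2 * K * C')) with hc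
  have hcpos : 0 < c := by rw [hc]; positivity
  obtain ⟨n0, hn0⟩ := a2_large K B c hcpos
  refine ⟨n0, fun N hN W p1 R hW hR1 hR2 => ?_⟩
  obtain ⟨hL1, hL2, hL3⟩ := hn0 N hN
  have hL0 : 0 < Real.log N := by linarith
  have hfac : ∀ q ∈ Ps W p1, 0 ≤ 1 - ((R q).card : ℝ) / q := by
    intro q hq
    have hq2 : (2 : ℝ) ≤ q := by exact_mod_cast (a2_Ps hq).two_le
    have h1 : ((R q).card : ℝ) ≤ q := by exact_mod_cast (hR2 q hq).le
    have h2 : ((R q).card : ℝ) / q ≤ 1 := by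
      rw [div_le_one (by linarith)]; exact h1
    linarith
  constructor
  · have hW1 : (W : ℝ) + 1 ≤ Real.log N ^ B + 3 := by
      rw [hW]
      have := (Nat.ceil_lt_add_one (show 0 ≤ Real.log N ^ B by positivity)).le
      linarith
    have hWone : 1 ≤ W := by
      rw [hW]
      exact Nat.one_le_iff_ne_zero.2 (by
        have : 0 < ⌈Real.log N ^ B⌉₊ := Nat.ceil_pos.2 (by positivity)
        omega)
    have hWone' : (1 : ℝ) ≤ W := by exact_mod_cast hWone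
    have hsum : ∑ q ∈ Ps W p1, 1 / (q : ℝ) ≤ Real.log (Real.log (W + 1)) + C' := by
      have h1 := hmer 2 (W + 1) le_rfl (by linarith)
      have h2 : ∑ q ∈ Ps W p1, 1 / (q : ℝ) ≤ ∑ q ∈ Pool.Agent.Lib.H59C.PR 2 (W + 1), 1 / (q : ℝ) := by
        refine Finset.sum_le_sum_of_subset_of_nonneg ?_ fun q _ _ => by positivity
        intro q hq
        rw [Pool.Agent.Lib.H59C.mem_PR]
        unfold Ps at hq
        rw [Finset.mem_filter, Finset.mem_Icc] at hq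
        refine ⟨hq.2.1, by exact_mod_cast hq.2.1.two_le, ?_⟩
        have : (q : ℝ) ≤ W := by exact_mod_cast hq.1.2
        linarith
      have h3 := (abs_le.1 h1).2
      rw [hC']
      linarith
    have hlogW : 0 < Real.log (W + 1) := Real.log_pos (by linarith)
    have hlogW2 : Real.log (W + 1) ≤ (B + 1) * Real.log (Real.log N) := by
      refine le_trans (Real.log_le_log (by linarith) hW1) hL2
    have hcard : ((Ps W p1).filter (fun q => q ≤ 2 * K)).card ≤ 2 * K := by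
      calc ((Ps W p1).filter (fun q => q ≤ 2 * K)).card ≤ (Icc 1 (2 * K)).card := by
            refine Finset.card_le_card fun q hq => ?_
            rw [Finset.mem_filter] at hq
            rw [Finset.mem_Icc]
            exact ⟨(a2_Ps hq.1).one_le, hq.2⟩
        _ = 2 * K := by simp
    have h1 : (1 / (2 * (K : ℝ))) ^ (2 * K) ≤ ∏ q ∈ Ps W p1, (if q ≤ 2 * K then 1 / (2 * (K : ℝ)) else 1) := by
      rw [← Finset.prod_filter, Finset.prod_const]
      refine pow_le_pow_of_le_one (by positivity) ?_ hcard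
      rw [div_le_one (by positivity)]
      linarith
    have h2 : Real.exp (-(2 * K * (Real.log (Real.log (W + 1)) + C'))) ≤
        ∏ q ∈ Ps W p1, Real.exp (-(2 * K * (1 / (q : ℝ)))) := by
      rw [← Real.exp_sum, Real.exp_le_exp, Finset.sum_neg_distrib, ← Finset.mul_sum]
      have := mul_le_mul_of_nonneg_left hsum (show (0 : ℝ) ≤ 2 * K by positivity)
      linarith
    have h3 : Real.exp (-(2 * K * (Real.log (Real.log (W + 1)) + C'))) =
        Real.exp (-(2 * K * C')) * (Real.log (W + 1) ^ (2 * K))⁻¹ := by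
      have h4 : -(2 * (K : ℝ) * (Real.log (Real.log (W + 1)) + C')) =
          -(2 * K * C') + -(((2 * K : ℕ) : ℝ) * Real.log (Real.log (W + 1))) := by push_cast; ring
      rw [h4, Real.exp_add, Real.exp_neg (((2 * K : ℕ) : ℝ) * _), Real.exp_nat_mul, Real.exp_log hlogW]
    have h5 : c * (Real.log (W + 1) ^ (2 * K))⁻¹ ≤ VaR (Ps W p1) R := by
      unfold VaR
      calc c * (Real.log (W + 1) ^ (2 * K))⁻¹ = (1 / (2 * (K : ℝ))) ^ (2 * K) *
            Real.exp (-(2 * K * (Real.log (Real.log (W + 1)) + C'))) := by rw [h3, hc]; ring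
        _ ≤ (∏ q ∈ Ps W p1, (if q ≤ 2 * K then 1 / (2 * (K : ℝ)) else 1)) *
            ∏ q ∈ Ps W p1, Real.exp (-(2 * K * (1 / (q : ℝ)))) :=
            mul_le_mul h1 h2 (Real.exp_pos _).le (le_trans (by positivity) h1)
        _ = ∏ q ∈ Ps W p1, ((if q ≤ 2 * K then 1 / (2 * (K : ℝ)) else 1) *
            Real.exp (-(2 * K * (1 / (q : ℝ))))) := by rw [Finset.prod_mul_distrib]
        _ ≤ ∏ q ∈ Ps W p1, (1 - ((R q).card : ℝ) / q) := by
            refine Finset.prod_le_prod (fun q _ => ?_) fun q hq => ?_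
            · refine mul_nonneg ?_ (Real.exp_pos _).le
              split_ifs
              · positivity
              · norm_num
            · exact a2_fac hK (a2_Ps hq).two_le (hR1 q hq) (hR2 q hq)
    refine le_trans ?_ h5
    have h6 : Real.log (W + 1) ^ (2 * K) ≤ c * Real.log N :=
      le_trans (pow_le_pow_left₀ hlogW.le hlogW2 _) hL3
    have h7 : 0 < Real.log (W + 1) ^ (2 * K) := pow_pos hlogW _
    rw [← div_eq_mul_inv, div_le_div_iff₀ hL0 h7]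
    linarith
  · unfold VaR
    refine Finset.prod_le_one hfac fun q hq => ?_
    have : 0 ≤ ((R q).card : ℝ) / q := by positivity
    linarith

/-- Proof. `vaR_low` with `K + 1`: the classes in `Rb` are those of `-h`, `h ∈ H`, and `N`: at most `K + 1`. -/
theorem va_low (K B : ℕ) (hK : 1 ≤ K) : ∃ n0 : ℕ, ∀ N : ℕ, n0 ≤ N → ∀ (W p1 : ℕ) (H : Finset ℕ),
    W = ⌈Real.log N ^ B⌉₊ → H.card = K → (∀ q : ℕ, q.Prime → (Rb N H q).card < q) →
    1 / Real.log N ≤ Va N W p1 H ∧ Va N W p1 H ≤ 1 := by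
  obtain ⟨n0, hn0⟩ := vaR_low (K + 1) B (by omega)
  refine ⟨n0, fun N hN W p1 H hW hH hq => ?_⟩
  rw [Va_eq]
  refine hn0 N hN W p1 (Rb N H) hW ?_ fun q hq' => hq q (a2_Ps hq')
  intro q hq'
  have hsub : Rb N H q ⊆ insert (N % q) (H.image (fun h => (q - h % q) % q)) := by
    intro c hc
    have hlt := Finset.mem_range.1 (a2_Rb hc)
    unfold Rb at hc
    rw [Finset.mem_filter] at hc
    rw [Finset.mem_insert, Finset.mem_image]
    rcases hc.2 with ⟨h, hh, hd⟩ | hd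
    · exact Or.inr ⟨h, hh, ((a2_cls (a2_Ps hq').pos hlt).1 hd).symm⟩
    · exact Or.inl ((a2_mod hlt).1 hd)
  calc (Rb N H q).card ≤ (insert (N % q) (H.image (fun h => (q - h % q) % q))).card := Finset.card_le_card hsub
    _ ≤ (H.image (fun h => (q - h % q) % q)).card + 1 := Finset.card_insert_le _ _
    _ ≤ H.card + 1 := by have := Finset.card_image_le (s := H) (f := fun h => (q - h % q) % q); omega
    _ = K + 1 := by rw [hH]

/-- Proof. `∏_{q ≤ W} q/(q-1) ≥ log W` (`Sieve.prod_one_sub_inv_le` or `∏ (1 - 1/q)⁻¹ ≥ ∑_{n ≤ W} 1/n`), and the factor at `p1` which is missing is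
`p1/(p1 - 1) ≤ 2`. -/
theorem vbR_ge (W p1 : ℕ) (R : ℕ → Finset ℕ) (hW : 2 ≤ W) (hp : p1.Prime)
    (hV : 0 ≤ VaR (Ps W p1) R) :
    Real.log W / 4 * VaR (Ps W p1) R ≤ VbR (Ps W p1) R ∧
      VaR (Ps W p1) R ≤ VbR (Ps W p1) R := by
  have hW2 : (2 : ℝ) ≤ W := by exact_mod_cast hW
  have hlog : 0 < Real.log W := Real.log_pos (by linarith)
  have hone : ∀ q : ℕ, q.Prime → 1 ≤ (q : ℝ) / ((q : ℝ) - 1) := by
    intro q hq
    have : (2 : ℝ) ≤ q := by exact_mod_cast hq.two_le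
    rw [le_div_iff₀ (by linarith)]
    linarith
  have h1 : 1 ≤ ∏ q ∈ Ps W p1, ((q : ℝ) / ((q : ℝ) - 1)) :=
    Finset.one_le_prod fun q hq => hone q (a2_Ps hq)
  have h2 := Pool.Agent.Lib.Sieve.prod_one_sub_inv_le W hW
  have h3 : ∏ p ∈ Pool.Agent.Lib.Sieve.primesUpTo W, ((p : ℝ) / ((p : ℝ) - 1)) =
      (∏ p ∈ Pool.Agent.Lib.Sieve.primesUpTo W, (1 - 1 / (p : ℝ)))⁻¹ := by
    rw [← Finset.prod_inv_distrib]
    refine Finset.prod_congr rfl fun p hp => ?_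
    have : (2 : ℝ) ≤ p := by exact_mod_cast (Pool.Agent.Lib.Sieve.mem_primesUpTo.1 hp).1.two_le
    have h4 : (p : ℝ) ≠ 0 := by linarith
    have h5 : (p : ℝ) - 1 ≠ 0 := by linarith
    field_simp
  have h4 : 0 < ∏ p ∈ Pool.Agent.Lib.Sieve.primesUpTo W, (1 - 1 / (p : ℝ)) := by
    refine Finset.prod_pos fun p hp => ?_
    have : (2 : ℝ) ≤ p := by exact_mod_cast (Pool.Agent.Lib.Sieve.mem_primesUpTo.1 hp).1.two_le
    have : 1 / (p : ℝ) ≤ 1 / 2 := one_div_le_one_div_of_le (by norm_num) this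
    linarith
  have h5 : Real.log W ≤ ∏ p ∈ Pool.Agent.Lib.Sieve.primesUpTo W, ((p : ℝ) / ((p : ℝ) - 1)) := by
    rw [h3, ← one_div, le_div_iff₀ h4]
    calc Real.log W * ∏ p ∈ Pool.Agent.Lib.Sieve.primesUpTo W, (1 - 1 / (p : ℝ)) ≤
          Real.log W * (1 / Real.log W) := mul_le_mul_of_nonneg_left h2 hlog.le
      _ = 1 := by field_simp
  have h6 : ∏ p ∈ Pool.Agent.Lib.Sieve.primesUpTo W, ((p : ℝ) / ((p : ℝ) - 1)) ≤
      2 * ∏ q ∈ Ps W p1, ((q : ℝ) / ((q : ℝ) - 1)) := by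
    have hsub : Pool.Agent.Lib.Sieve.primesUpTo W ⊆ insert p1 (Ps W p1) := by
      intro q hq
      rw [Pool.Agent.Lib.Sieve.mem_primesUpTo] at hq
      rw [Finset.mem_insert]
      by_cases h : q = p1
      · exact Or.inl h
      · refine Or.inr ?_
        unfold Ps
        rw [Finset.mem_filter, Finset.mem_Icc]
        exact ⟨⟨hq.1.one_le, hq.2⟩, hq.1, h⟩
    have hnot : p1 ∉ Ps W p1 := by
      unfold Ps
      rw [Finset.mem_filter]
      rintro ⟨_, _, h⟩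
      exact h rfl
    calc ∏ p ∈ Pool.Agent.Lib.Sieve.primesUpTo W, ((p : ℝ) / ((p : ℝ) - 1)) ≤
          ∏ p ∈ insert p1 (Ps W p1), ((p : ℝ) / ((p : ℝ) - 1)) := by
          refine Finset.prod_le_prod_of_subset_of_one_le hsub (fun q hq => ?_) fun q hq _ => ?_
          · exact le_trans zero_le_one (hone q (Pool.Agent.Lib.Sieve.mem_primesUpTo.1 hq).1)
          · rw [Finset.mem_insert] at hq
            rcases hq with rfl | hq
            · exact hone _ hp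
            · exact hone _ (a2_Ps hq)
      _ = (p1 : ℝ) / ((p1 : ℝ) - 1) * ∏ q ∈ Ps W p1, ((q : ℝ) / ((q : ℝ) - 1)) := Finset.prod_insert hnot
      _ ≤ 2 * ∏ q ∈ Ps W p1, ((q : ℝ) / ((q : ℝ) - 1)) := by
          refine mul_le_mul_of_nonneg_right ?_ (by linarith)
          have : (2 : ℝ) ≤ p1 := by exact_mod_cast hp.two_le
          rw [div_le_iff₀ (by linarith)]
          linarith
  unfold VbR
  constructor
  · rw [mul_comm]
    refine mul_le_mul_of_nonneg_left ?_ hV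
    linarith
  · calc VaR (Ps W p1) R = VaR (Ps W p1) R * 1 := (mul_one _).symm
      _ ≤ _ := mul_le_mul_of_nonneg_left h1 hV

/-- Proof. `vbR_ge`. -/
theorem vb_ge (N W p1 : ℕ) (H : Finset ℕ) (hW : 2 ≤ W) (hp : p1.Prime)
    (hV : 0 ≤ Va N W p1 H) :
    Real.log W / 4 * Va N W p1 H ≤ Vb N W p1 H ∧ Va N W p1 H ≤ Vb N W p1 H := by
  rw [Va_eq] at hV
  rw [Va_eq, Vb_eq]
  exact vbR_ge W p1 (Rb N H) hW hp hV

end Pool.Agent.Lib.H57C
end

-- from Lib.H57C.SDefs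
section

/-!
# Definitions for the weighted sieve
-/

open Finset

namespace Pool.Agent.Lib.H57C

open Pool.Agent.Lib.H57M
open Pool.Agent.Lib.H59C (Sq lg XX gq VV PR zz yy Tri sift)

noncomputable section

variable {K : ℕ} (w : Par K) (H : Finset ℕ) (N p1 h : ℕ)

/-- The primes `t + h`. -/
def Sh (N h : ℕ) : Finset ℕ := Sq (Ya N + h) (Yb N + h)

/-- The weight of the prime `p = t + h`. -/
def wh (p : ℕ) : ℝ := lg p * Fs w H N p1 (some h) (p - h)

/-- `V(z)` -/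
def Vz (N W : ℕ) (H : Finset ℕ) : ℝ := VV (Pg N W H) (zz N)

/-- The bad primes in `(W, N]`: they divide some `N + h`, `h ∈ H`. -/
def Bd (N W : ℕ) (H : Finset ℕ) : Finset ℕ :=
  (Ioc W N).filter (fun q => q.Prime ∧ ∃ h ∈ H, q ∣ N + h)

/-- The primes with weights. -/
def Qc (N W : ℕ) (H : Finset ℕ) : Finset ℕ := (PR (zz N) (yy N)).filter (fun q => q ∈ Pg N W H)

/-- The first sum. -/
def S1s : ℝ := sift (Sh N h) (wh w H N p1 h) (fun p => Nat.dist (N + h) p) (Pg N w.W H) (zz N)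

/-- The second sum. -/
def S2s : ℝ := ∑ q ∈ Qc N w.W H, sift ((Sh N h).filter (fun p => q ∣ Nat.dist (N + h) p))
  (wh w H N p1 h) (fun p => Nat.dist (N + h) p) (Pg N w.W H) (zz N)

open Classical in
/-- The third sum. -/
def S3s : ℝ := ∑ p ∈ (Sh N h).filter (fun p => Tri N (Nat.dist (N + h) p)), wh w H N p1 h p

open Classical in
/-- Exceptional: `p1` divides `N - t`. -/
def E1s : ℝ := ∑ p ∈ (Sh N h).filter (fun p => p1 ∣ Nat.dist (N + h) p ∧
  ∀ q ∈ Pg N w.W H, (q : ℝ) < zz N → ¬ q ∣ Nat.dist (N + h) p), wh w H N p1 h p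

/-- Exceptional: a bad prime divides `N - t`. -/
def E2s : ℝ := ∑ q ∈ Bd N w.W H, ∑ p ∈ (Sh N h).filter (fun p => q ∣ Nat.dist (N + h) p),
  wh w H N p1 h p

open Classical in
/-- Exceptional: squares. -/
def E3s : ℝ := ∑ p ∈ (Sh N h).filter
  (fun p => ∃ q : ℕ, q.Prime ∧ zz N ≤ q ∧ q ^ 2 ∣ Nat.dist (N + h) p), wh w H N p1 h p

/-- The negative part. -/
def Ns : ℝ := sift (Ioc (Ya N) (Yb N)) (Fs w H N p1 none) (fun t => N - t) (Pg N w.W H) (zz N)

/-- The whole weighted sum. -/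
def Tt (g : ℕ) : ℝ :=
  ∑ h ∈ H, (S1s w H N p1 h - 1 / 2 * S2s w H N p1 h - 1 / 2 * S3s w H N p1 h -
    E1s w H N p1 h - E2s w H N p1 h - E3s w H N p1 h) - ((g : ℝ) - 1) * Real.log (2 * N) *
    Ns w H N p1

/-- A prime or a product of two primes, all prime factors `≥ N^(1/10)`. -/
def AP2 (N a : ℕ) : Prop :=
  (∀ q : ℕ, q.Prime → q ∣ a → (N : ℝ) ^ (1 / 10 : ℝ) ≤ q) ∧
    (a.Prime ∨ ∃ r s : ℕ, r.Prime ∧ s.Prime ∧ a = r * s)

open Classical in
/-- The good `t` in the window. -/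
def Gd (H : Finset ℕ) (N g : ℕ) : Finset ℕ :=
  (Ioc (Ya N) (Yb N)).filter (fun t => g ≤ (H.filter (fun h => (t + h).Prime)).card ∧
    AP2 N (N - t))

end

end Pool.Agent.Lib.H57C
end

-- from Lib.H57C.S0
section

/-!
# Chunk S0: windows, `V(z)` and the size of the main term
-/

open Finset

namespace Pool.Agent.Lib.H57C

open Pool.Agent.Lib.H57M
open Pool.Agent.Lib.H59C (Sq lg XX gq VV PR zz yy Tri sift Win)

/-- The window of project H59C. Proof. `Ya N = 7N/20`, `Yb N = 9N/20`: `16 (Yb - Ya) ≥ 16 (N/10 - 1) ≥ N`; `N + h - (Yb + h) = N - Yb ≥ 11N/20`;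
`h ≤ N/100` for large `N` is a hypothesis. -/
theorem win_h (N h : ℕ) (hN : 1000 ≤ N) (hh : 100 * h ≤ N) (he : 2 ∣ N + h) :
    Win N (N + h) (Ya N + h) (Yb N + h) ∧ Yb N + h < N + h := by
  unfold Ya Yb
  refine ⟨⟨by omega, he, by omega, by omega, by omega, by omega, by omega, Or.inl ⟨by omega, by omega⟩⟩, by omega⟩

/-- `N + h` is not a multiple of a prime `p ∈ (Ya + h, Yb + h]`: `(N + h)/p` is between `2` and `3`. -/
theorem not_dvd_h (N h p : ℕ) (hN : 1000 ≤ N) (hh : 100 * h ≤ N) (hp : p ∈ Sh N h) :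
    ¬ p ∣ N + h := by
  unfold Sh Sq Ya Yb at hp
  rw [Finset.mem_filter, Finset.mem_Ioc] at hp
  obtain ⟨⟨h1, h2⟩, _⟩ := hp
  rintro ⟨k, hk⟩
  rcases Nat.lt_or_ge k 3 with h3 | h3
  · have h4 : p * k ≤ p * 2 := Nat.mul_le_mul_left p (by omega)
    omega
  · have h4 : p * 3 ≤ p * k := Nat.mul_le_mul_left p h3
    omega

/-- Proof. `Pg` consists of primes `> W ≥ 2`, `VV` of a subset of the odd primes is at least the one of all odd primes in `[3, z)`:
`VV_lower` with its `N = 1` (`c/log N ≤ VV`), and `VV ≤ 1`. -/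
theorem vz_low : ∃ c : ℝ, 0 < c ∧ ∃ n0 : ℕ, ∀ N : ℕ, n0 ≤ N → ∀ (W : ℕ) (H : Finset ℕ), 2 ≤ W →
    c / Real.log N ≤ Vz N W H ∧ Vz N W H ≤ 1 := by
  obtain ⟨c, hc, n0, hn0⟩ := Pool.Agent.Lib.H59C.VV_lower
  refine ⟨c, hc, max n0 1, fun N hN W H hW => ?_⟩
  have hN1 : 1 ≤ N := le_trans (le_max_right _ _) hN
  have hN1' : (1 : ℝ) ≤ N := by exact_mod_cast hN1
  have hP : ∀ q ∈ Pg N W H, q.Prime ∧ 3 ≤ q := by
    intro q hq
    unfold Pg at hq
    rw [Finset.mem_filter, Finset.mem_Ioc] at hq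
    exact ⟨hq.2.1, by omega⟩
  constructor
  · have h1 := hn0 N (le_trans (le_max_left _ _) hN) (Pg N W H) 1 (zz N) one_pos (Nat.one_le_pow _ _ hN1)
      (by
        unfold zz
        exact Real.rpow_le_rpow_of_exponent_le hN1' (by norm_num))
      (by
        unfold zz
        calc (N : ℝ) ^ (1 / 8 : ℝ) ≤ (N : ℝ) ^ (1 : ℝ) := Real.rpow_le_rpow_of_exponent_le hN1' (by norm_num)
          _ = N := Real.rpow_one _)
      (fun q hq => ⟨(hP q hq).1, (hP q hq).2, fun h => (hP q hq).1.one_lt.ne' (Nat.dvd_one.1 h)⟩)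
    have h2 : (∏ q ∈ (1 : ℕ).primeFactors.filter (fun q => 2 < q), (((q : ℝ) - 1) / (q - 2))) = 1 := by
      rw [Nat.primeFactors_one]
      simp
    rw [h2, mul_one] at h1
    exact h1
  · unfold Vz VV Pool.Agent.Lib.H59C.VP
    have h1 : ∀ q ∈ (Pg N W H).filter (fun q : ℕ => (q : ℝ) < zz N), 0 ≤ gq q ∧ gq q ≤ 1 := by
      intro q hq
      have hq3 : (3 : ℝ) ≤ q := by exact_mod_cast (hP q (Finset.mem_filter.1 hq).1).2
      unfold gq
      constructor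
      · exact div_nonneg zero_le_one (by linarith)
      · rw [div_le_one (by linarith)]
        linarith
    refine Finset.prod_le_one (fun q hq => ?_) fun q hq => ?_
    · linarith [(h1 q hq).2]
    · linarith [(h1 q hq).1]

theorem s0_large (B : ℕ) (c : ℝ) (hc : 0 < c) : ∃ n0 : ℕ, ∀ N : ℕ, n0 ≤ N →
    1000 ≤ N ∧ 1 ≤ Real.log N ∧ 1 ≤ c * Real.log N ∧ 100 * (Real.log N ^ B + 1) ≤ (N : ℝ) := by
  have h1 : ∀ᶠ x : ℝ in Filter.atTop, 1 ≤ Real.log x ∧ 1 ≤ c * Real.log x ∧ 100 * (Real.log x ^ B + 1) ≤ x := by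
    have e1 := (Real.isLittleO_pow_log_id_atTop (n := B)).def (show (0 : ℝ) < 1 / 200 by norm_num)
    filter_upwards [e1, Filter.eventually_ge_atTop (200 : ℝ),
      Real.tendsto_log_atTop.eventually_ge_atTop 1, Real.tendsto_log_atTop.eventually_ge_atTop (1 / c)] with x hx1 hx2 hx3 hx4
    refine ⟨hx3, ?_, ?_⟩
    · rw [div_le_iff₀ hc] at hx4
      linarith
    · rw [Real.norm_eq_abs, Real.norm_eq_abs, abs_of_nonneg (pow_nonneg (by linarith) _), id, abs_of_nonneg (by linarith)] at hx1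
      linarith
  obtain ⟨n0, hn0⟩ := Filter.eventually_atTop.1
    ((tendsto_natCast_atTop_atTop (R := ℝ)).eventually h1)
  exact ⟨max n0 1000, fun N hN => ⟨le_trans (le_max_right _ _) hN, hn0 N (le_trans (le_max_left _ _) hN)⟩⟩

/-- Proof. `Xh = XX AE Vb`, `XX ≥ N/20` (`XX_bounds` with `win_h`), `AE ≥ 36/100` (`aes`, `c ≥ 0`), `Vb ≥ Va ≥ 1/L` (`vb_ge`, `va_low`), `Vz ≥ c/L`:
`Xh Vz ≥ c' N/L^2 ≥ N/L^3` for large `N`. -/
theorem main_low (K B cF : ℕ) (hK : 1 ≤ K) (θ G : ℝ) : ∃ n0 : ℕ, ∀ N : ℕ, n0 ≤ N →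
    ∀ (w : Par K) (H : Finset ℕ) (p1 : ℕ), Reg B cF θ G w H N p1 → ∀ h ∈ H,
    N / Real.log N ^ 3 ≤ Xh w H N p1 h * Vz N w.W H ∧ 0 ≤ Xh w H N p1 h ∧
    (N : ℝ) / 20 ≤ XX (Ya N + h) (Yb N + h) ∧ XX (Ya N + h) (Yb N + h) ≤ N / 5 := by
  obtain ⟨c, hc, n1, hn1⟩ := vz_low
  obtain ⟨n2, hn2⟩ := va_low K B hK
  obtain ⟨n3, hn3⟩ := Pool.Agent.Lib.H59C.XX_bounds (1 / 10) (by norm_num)
  obtain ⟨n4, hn4⟩ := s0_large B (18 / 1000 * c) (by positivity)
  refine ⟨max (max n1 n2) (max n3 n4), fun N hN w H p1 hR h hh => ?_⟩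
  have hN1 : n1 ≤ N := le_trans (le_trans (le_max_left _ _) (le_max_left _ _)) hN
  have hN2 : n2 ≤ N := le_trans (le_trans (le_max_right _ _) (le_max_left _ _)) hN
  have hN3 : n3 ≤ N := le_trans (le_trans (le_max_left _ _) (le_max_right _ _)) hN
  have hN4 : n4 ≤ N := le_trans (le_trans (le_max_right _ _) (le_max_right _ _)) hN
  obtain ⟨g1, g2, g3, g4⟩ := hn4 N hN4
  have hNr : (1000 : ℝ) ≤ N := by exact_mod_cast g1
  have hL0 : 0 < Real.log N := by linarith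
  have hW4 : 4 ≤ w.W := by
    have := w.KW
    have h1 := w.Kpos
    nlinarith
  have hhW : h ≤ w.W := hR.HW h hh
  have hh100 : 100 * h ≤ N := by
    have h1 : (w.W : ℝ) ≤ Real.log N ^ B + 1 := by
      rw [hR.Wdef]
      exact (Nat.ceil_lt_add_one (by positivity)).le
    have h2 : (h : ℝ) ≤ w.W := by exact_mod_cast hhW
    have h3 : (100 * h : ℝ) ≤ N := by linarith
    exact_mod_cast h3
  obtain ⟨hwin, _⟩ := win_h N h g1 hh100 (hR.even h hh)
  obtain ⟨x1, x2⟩ := hn3 N hN3 _ _ _ hwin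
  have hdl : (N : ℝ) / 10 - 1 ≤ ((Yb N + h : ℕ) : ℝ) - ((Ya N + h : ℕ) : ℝ) := by
    have : N ≤ 10 * (Yb N + h) - 10 * (Ya N + h) + 10 := by unfold Ya Yb; omega
    have h2 : 10 * (Ya N + h) ≤ 10 * (Yb N + h) := by unfold Ya Yb; omega
    have h3 : N + 10 * (Ya N + h) ≤ 10 * (Yb N + h) + 10 := by omega
    have h4 : (N : ℝ) + 10 * ((Ya N + h : ℕ) : ℝ) ≤ 10 * ((Yb N + h : ℕ) : ℝ) + 10 := by exact_mod_cast h3
    linarith
  have hdu : ((Yb N + h : ℕ) : ℝ) - ((Ya N + h : ℕ) : ℝ) ≤ (N : ℝ) / 10 + 1 := by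
    have h3 : 10 * (Yb N + h) ≤ N + 10 * (Ya N + h) + 10 := by unfold Ya Yb; omega
    have h4 : 10 * ((Yb N + h : ℕ) : ℝ) ≤ (N : ℝ) + 10 * ((Ya N + h : ℕ) : ℝ) + 10 := by exact_mod_cast h3
    linarith
  have hX1 : (N : ℝ) / 20 ≤ XX (Ya N + h) (Yb N + h) := by
    refine le_trans ?_ x1
    nlinarith
  have hX2 : XX (Ya N + h) (Yb N + h) ≤ N / 5 := by
    refine le_trans x2 ?_
    nlinarith
  have hAE : 36 / 100 ≤ AE w.P H (some h) (FC w H) := by
    refine le_trans ?_ (hR.aes h hh)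
    have h1 : 0 ≤ (w.n : ℝ) * w.c := mul_nonneg (Nat.cast_nonneg _) w.c0
    nlinarith
  obtain ⟨v1, _⟩ := hn2 N hN2 w.W p1 H hR.Wdef hR.cardH hR.nf
  have hva0 : 0 ≤ Va N w.W p1 H := le_trans (by positivity) v1
  have hvb : 1 / Real.log N ≤ Vb N w.W p1 H := le_trans v1 (vb_ge N w.W p1 H (by omega) hR.p1p hva0).2
  obtain ⟨z1, _⟩ := hn1 N hN1 w.W H (by omega)
  have hXh : (N : ℝ) / 20 * (36 / 100 * (1 / Real.log N)) ≤ Xh w H N p1 h := by
    unfold Xh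
    refine mul_le_mul hX1 (mul_le_mul hAE hvb (by positivity) (by linarith)) (by positivity) (by linarith)
  have hXh0 : 0 ≤ Xh w H N p1 h := le_trans (by positivity) hXh
  refine ⟨?_, hXh0, hX1, hX2⟩
  calc (N : ℝ) / Real.log N ^ 3 = N / Real.log N ^ 3 * 1 := (mul_one _).symm
    _ ≤ N / Real.log N ^ 3 * (18 / 1000 * c * Real.log N) := mul_le_mul_of_nonneg_left g3 (by positivity)
    _ = (N : ℝ) / 20 * (36 / 100 * (1 / Real.log N)) * (c / Real.log N) := by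
        field_simp
        ring
    _ ≤ Xh w H N p1 h * Vz N w.W H := mul_le_mul hXh z1 (by positivity) hXh0

end Pool.Agent.Lib.H57C
end

-- from Lib.H57C.MDefs
section

/-!
# Definitions for the transfer theorem
-/

open Finset

namespace Pool.Agent.Lib.H57C

open Pool.Agent.Lib.H15P Pool.Agent.Lib.H92G Pool.Agent.Lib.H57M

/-- Families of sets of primes. -/
abbrev Fam (P H : Finset ℕ) : Type := {h // h ∈ H} → Finset {p // p ∈ P}

/-- `U_i = ∅`, and the sets are pairwise disjoint. -/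
def okA (P H : Finset ℕ) (i : Option ℕ) (U : Fam P H) : Prop :=
  (∀ h : {h // h ∈ H}, i = some h.1 → U h = ∅) ∧ ∀ h h', h ≠ h' → Disjoint (U h) (U h')

/-- The primes in the `U_h` do not divide `d`, and their classes `-h` are allowed. -/
def okB (P H : Finset ℕ) (Al : ℕ → ℕ → Prop) (d : ℕ) (U : Fam P H) : Prop :=
  (∀ h, ∀ p ∈ U h, ¬ p.1 ∣ d) ∧ ∀ h, ∀ p ∈ U h, ∀ c : ℕ, p.1 ∣ c + h.1 → Al p.1 c

/-- The product of all primes in the `U_h`. -/
def fp {P H : Finset ℕ} (U : Fam P H) : ℕ := ∏ h, ∏ p ∈ U h, p.1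

/-- `∏_h ∏_{p ∈ U_h} f p` -/
noncomputable def fpr {P H : Finset ℕ} (f : ℕ → ℝ) (U : Fam P H) : ℝ := ∏ h, ∏ p ∈ U h, f p.1

/-- The reference densities: `1/p`, resp. `1/(p-1)` if a form is prime. -/
noncomputable def hdr (i : Option ℕ) (p : ℕ) : ℝ := if i = none then 1 / (p : ℝ) else 1 / ((p : ℝ) - 1)

open Classical in
/-- The main term for the modulus `d`. -/
noncomputable def Am (P H : Finset ℕ) (i : Option ℕ) (Al : ℕ → ℕ → Prop) (hd : ℕ → ℝ) (d : ℕ)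
    (c : Fam P H → ℝ) : ℝ :=
  ∑ U : Fam P H, if okA P H i U ∧ okB P H Al d U then c U * fpr hd U else 0

end Pool.Agent.Lib.H57C
end

-- from Lib.H57C.M0
section

/-!
# Chunk M0: sums over residue classes
-/

open Finset

namespace Pool.Agent.Lib.H57C

/-- The Chinese remainder theorem for a product of pairwise coprime numbers. -/
theorem M0_crt (s : Finset ℕ) (hs : ∀ q ∈ s, q.Prime) (A : ℕ → Finset ℕ)
    (hA : ∀ q ∈ s, A q ⊆ range q) :
    ((range (∏ q ∈ s, q)).filter (fun c => ∀ q ∈ s, c % q ∈ A q)).card = ∏ q ∈ s, (A q).card := by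
  classical
  induction s using Finset.induction_on with
  | empty => simp
  | insert a s ha ih =>
    have hpa : a.Prime := hs a (Finset.mem_insert_self a s)
    have hs' : ∀ q ∈ s, q.Prime := fun q hq => hs q (Finset.mem_insert_of_mem hq)
    have hA' : ∀ q ∈ s, A q ⊆ range q := fun q hq => hA q (Finset.mem_insert_of_mem hq)
    have ih' := ih hs' hA'
    rw [Finset.prod_insert ha, Finset.prod_insert ha, ← ih', ← Finset.card_product]
    set M := ∏ q ∈ s, q with hM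
    have hcop : Nat.Coprime a M := by
      rw [hM]
      refine Nat.Coprime.prod_right fun q hq => ?_
      rw [Nat.coprime_primes hpa (hs' q hq)]
      rintro rfl
      exact ha hq
    have hMpos : 0 < M := Finset.prod_pos fun q hq => (hs' q hq).pos
    refine Finset.card_bij (fun c _ => (c % a, c % M)) ?_ ?_ ?_
    · intro c hc
      rw [Finset.mem_filter] at hc
      rw [Finset.mem_product]
      refine ⟨hc.2 a (Finset.mem_insert_self a s), ?_⟩
      rw [Finset.mem_filter]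
      refine ⟨Finset.mem_range.2 (Nat.mod_lt _ hMpos), fun q hq => ?_⟩
      rw [Nat.mod_mod_of_dvd c (Finset.dvd_prod_of_mem (fun q => q) hq)]
      exact hc.2 q (Finset.mem_insert_of_mem hq)
    · intro c hc d hd h
      rw [Finset.mem_filter, Finset.mem_range] at hc hd
      have h1 : c ≡ d [MOD a] := (Prod.ext_iff.1 h).1
      have h2 : c ≡ d [MOD M] := (Prod.ext_iff.1 h).2
      have h3 : c ≡ d [MOD a * M] := (Nat.modEq_and_modEq_iff_modEq_mul hcop).1 ⟨h1, h2⟩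
      exact Nat.ModEq.eq_of_lt_of_lt h3 hc.1 hd.1
    · rintro ⟨x, y⟩ hxy
      rw [Finset.mem_product, Finset.mem_filter, Finset.mem_range] at hxy
      obtain ⟨hx, hy, hy2⟩ := hxy
      dsimp only at hx hy hy2
      have hxa : x < a := Finset.mem_range.1 (hA a (Finset.mem_insert_self a s) hx)
      obtain ⟨k, hk1, hk2⟩ := Nat.chineseRemainder hcop x y
      have hk1' : k % (a * M) % a = x := by
        rw [Nat.mod_mod_of_dvd k (Dvd.intro _ rfl)]
        have := hk1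
        unfold Nat.ModEq at this
        rw [this, Nat.mod_eq_of_lt hxa]
      have hk2' : k % (a * M) % M = y := by
        rw [Nat.mod_mod_of_dvd k (Dvd.intro_left _ rfl)]
        have := hk2
        unfold Nat.ModEq at this
        rw [this, Nat.mod_eq_of_lt hy]
      refine ⟨k % (a * M), ?_, Prod.ext hk1' hk2'⟩
      rw [Finset.mem_filter, Finset.mem_range]
      refine ⟨Nat.mod_lt _ (Nat.mul_pos hpa.pos hMpos), fun q hq => ?_⟩
      rw [Finset.mem_insert] at hq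
      rcases hq with rfl | hq
      · rw [hk1']; exact hx
      · have h4 := hy2 q hq
        rw [← hk2', Nat.mod_mod_of_dvd _ (Finset.dvd_prod_of_mem (fun q => q) hq)] at h4
        exact h4

/-- Chinese remainder theorem, counting form. Induction over the prime factors, or a bijection with
`Fintype.piFinset`/`Finset.pi` (`ZMod.equivPi`, `Nat.chineseRemainderOfFinset`). -/
theorem crt_card (m : ℕ) (hm : Squarefree m) (A : ℕ → Finset ℕ)
    (hA : ∀ q ∈ m.primeFactors, A q ⊆ range q) :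
    ((range m).filter (fun c => ∀ q ∈ m.primeFactors, c % q ∈ A q)).card =
      ∏ q ∈ m.primeFactors, (A q).card := by
  have h := M0_crt m.primeFactors (fun q hq => Nat.prime_of_mem_primeFactors hq) A hA
  rw [Nat.prod_primeFactors_of_squarefree hm] at h
  exact h

/-- Proof. `x j % q ∈ A q` for all `q ∣ m` iff `x j % m` is in the set `C` of `crt_card` (`Nat.mod_mod_of_dvd`); so the sum is
`∑_{c ∈ C} ∑_{x j ≡ c [MOD m]} wt j`, every `c ∈ C` satisfies `Al q c` for all `q ∣ m` (`al`: `c ≡ c % q [MOD q]`), use the bound of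
`Lvl` for every `c ∈ C` and `crt_card`. -/
theorem class_sum {ι : Type} (s : Seq ι)
    (al : ∀ q c c' : ℕ, c ≡ c' [MOD q] → (s.Al q c ↔ s.Al q c')) (m : ℕ) (hm : Squarefree m)
    (B : ℝ) (hB : ∀ c : ℕ, (∀ q ∈ m.primeFactors, s.Al q c) →
      |∑ i ∈ s.S.filter (fun i => s.x i ≡ c [MOD m]), s.wt i -
        s.X * ∏ q ∈ m.primeFactors, s.hd q| ≤ B)
    (A : ℕ → Finset ℕ) (hA : ∀ q ∈ m.primeFactors, A q ⊆ range q)
    (hAl : ∀ q ∈ m.primeFactors, ∀ c ∈ A q, s.Al q c) :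
    |∑ i ∈ s.S.filter (fun i => ∀ q ∈ m.primeFactors, s.x i % q ∈ A q), s.wt i -
        s.X * ∏ q ∈ m.primeFactors, (((A q).card : ℝ) * s.hd q)| ≤
      (∏ q ∈ m.primeFactors, ((A q).card : ℝ)) * B := by
  classical
  have hm0 : 0 < m := Nat.pos_of_ne_zero hm.ne_zero
  set C := (range m).filter (fun c => ∀ q ∈ m.primeFactors, c % q ∈ A q) with hC
  have hCc : (C.card : ℝ) = ∏ q ∈ m.primeFactors, ((A q).card : ℝ) := by
    rw [hC, crt_card m hm A hA]; push_cast; rfl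
  have hsum : ∑ i ∈ s.S.filter (fun i => ∀ q ∈ m.primeFactors, s.x i % q ∈ A q), s.wt i =
      ∑ c ∈ C, ∑ i ∈ s.S.filter (fun i => s.x i ≡ c [MOD m]), s.wt i := by
    rw [← Finset.sum_fiberwise_of_maps_to (s := s.S.filter (fun i => ∀ q ∈ m.primeFactors, s.x i % q ∈ A q))
      (t := C) (g := fun i => s.x i % m)]
    · refine Finset.sum_congr rfl fun c hc => Finset.sum_congr ?_ fun _ _ => rfl
      rw [hC, Finset.mem_filter, Finset.mem_range] at hc
      ext i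
      simp only [Finset.mem_filter]
      constructor
      · rintro ⟨⟨h1, _⟩, h3⟩
        refine ⟨h1, ?_⟩
        unfold Nat.ModEq
        rw [h3, Nat.mod_eq_of_lt hc.1]
      · rintro ⟨h1, h2⟩
        unfold Nat.ModEq at h2
        rw [Nat.mod_eq_of_lt hc.1] at h2
        refine ⟨⟨h1, fun q hq => ?_⟩, h2⟩
        have h3 := hc.2 q hq
        rw [← h2, Nat.mod_mod_of_dvd _ (Nat.dvd_of_mem_primeFactors hq)] at h3
        exact h3
    · intro i hi
      rw [Finset.mem_filter] at hi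
      rw [hC, Finset.mem_filter, Finset.mem_range]
      refine ⟨Nat.mod_lt _ hm0, fun q hq => ?_⟩
      rw [Nat.mod_mod_of_dvd _ (Nat.dvd_of_mem_primeFactors hq)]
      exact hi.2 q hq
  have hX : s.X * ∏ q ∈ m.primeFactors, (((A q).card : ℝ) * s.hd q) =
      ∑ _c ∈ C, s.X * ∏ q ∈ m.primeFactors, s.hd q := by
    rw [Finset.sum_const, nsmul_eq_mul, hCc, Finset.prod_mul_distrib]; ring
  rw [hsum, hX, ← Finset.sum_sub_distrib, ← hCc]
  calc |∑ c ∈ C, (∑ i ∈ s.S.filter (fun i => s.x i ≡ c [MOD m]), s.wt i - s.X * ∏ q ∈ m.primeFactors, s.hd q)|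
      ≤ ∑ c ∈ C, |∑ i ∈ s.S.filter (fun i => s.x i ≡ c [MOD m]), s.wt i - s.X * ∏ q ∈ m.primeFactors, s.hd q| :=
        Finset.abs_sum_le_sum_abs _ _
    _ ≤ ∑ _c ∈ C, B := by
        refine Finset.sum_le_sum fun c hc => hB c fun q hq => ?_
        rw [hC, Finset.mem_filter] at hc
        refine (al q c (c % q) ?_).2 (hAl q hq _ (hc.2 q hq))
        exact (Nat.mod_modEq c q).symm
    _ = (C.card : ℝ) * B := by rw [Finset.sum_const, nsmul_eq_mul]

end Pool.Agent.Lib.H57C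
end

-- from Lib.H57C.M2
section

/-!
# Chunk M2: the sum of the remainder terms
-/

open Finset

namespace Pool.Agent.Lib.H57C

/-- Colourings of a finite set. -/
theorem m2_col {X τ : Type} [Fintype X] (S : Finset ℕ) (T : Finset τ) (c : τ → ℕ → X) (w : X → ℝ)
    (hw : ∀ x, 0 ≤ w x)
    (inj : ∀ t ∈ T, ∀ t' ∈ T, (∀ q ∈ S, c t q = c t' q) → t = t') :
    ∑ t ∈ T, ∏ q ∈ S, w (c t q) ≤ (∑ x, w x) ^ S.card := by
  classical
  have h1 : (∑ x, w x) ^ S.card = ∑ f : {q // q ∈ S} → X, ∏ q, w (f q) := by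
    have h := Finset.prod_univ_sum (ι := {q // q ∈ S}) (κ := fun _ => X) (R := ℝ)
      (fun _ => (Finset.univ : Finset X)) (fun _ x => w x)
    rw [Fintype.piFinset_univ] at h
    rw [← h]
    simp
  rw [h1]
  let Φ : τ → ({q // q ∈ S} → X) := fun t q => c t q.1
  have h2 : ∀ t, ∏ q ∈ S, w (c t q) = ∏ q, w (Φ t q) := fun t => by
    rw [← Finset.prod_coe_sort]
  have hinj : Set.InjOn Φ T := by
    intro t ht t' ht' h
    refine inj t (by simpa using ht) t' (by simpa using ht') fun q hq => ?_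
    exact congrFun h ⟨q, hq⟩
  calc ∑ t ∈ T, ∏ q ∈ S, w (c t q) = ∑ t ∈ T, ∏ q, w (Φ t q) := Finset.sum_congr rfl fun t _ => h2 t
    _ = ∑ f ∈ T.image Φ, ∏ q, w (f q) := by
        rw [Finset.sum_image (f := fun f : {q // q ∈ S} → X => ∏ q, w (f q)) hinj]
    _ ≤ ∑ f : {q // q ∈ S} → X, ∏ q, w (f q) :=
        Finset.sum_le_sum_of_subset_of_nonneg (Finset.subset_univ _)
          fun f _ _ => Finset.prod_nonneg fun q _ => hw _

/-- The primes of the family, as a set. -/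
noncomputable def m2_UU {P H : Finset ℕ} (U : Fam P H) : Finset ℕ :=
  Finset.univ.biUnion (fun h => (U h).map (Function.Embedding.subtype _))

theorem m2_mem_UU {P H : Finset ℕ} (U : Fam P H) (q : ℕ) :
    q ∈ m2_UU U ↔ ∃ h, ∃ hq : q ∈ P, (⟨q, hq⟩ : {p // p ∈ P}) ∈ U h := by
  unfold m2_UU
  simp only [Finset.mem_biUnion, Finset.mem_univ, true_and, Finset.mem_map,
    Function.Embedding.coe_subtype, Subtype.exists, exists_and_right, exists_eq_right]

theorem m2_prod_UU {P H : Finset ℕ} {M : Type} [CommMonoid M] (U : Fam P H)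
    (hd : ∀ h h', h ≠ h' → Disjoint (U h) (U h')) (f : ℕ → M) :
    ∏ q ∈ m2_UU U, f q = ∏ h, ∏ p ∈ U h, f p.1 := by
  unfold m2_UU
  rw [Finset.prod_biUnion]
  · refine Finset.prod_congr rfl fun h _ => ?_
    rw [Finset.prod_map]
    rfl
  · intro h _ h' _ hne
    rw [Function.onFun, Finset.disjoint_map]
    exact hd h h' hne

theorem m2_fp {P H : Finset ℕ} (U : Fam P H)
    (hd : ∀ h h', h ≠ h' → Disjoint (U h) (U h')) : fp U = ∏ q ∈ m2_UU U, q := by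
  rw [m2_prod_UU U hd (fun q => q)]
  rfl

theorem m2_sqf (s : Finset ℕ) (hs : ∀ p ∈ s, p.Prime) : Squarefree (∏ p ∈ s, p) := by
  refine Finset.squarefree_prod_of_pairwise_isCoprime (fun p hp q hq hpq ↦ ?_)
    fun p hp ↦ (hs p hp).squarefree
  simp only [← Nat.coprime_iff_isRelPrime]
  exact (Nat.coprime_primes (hs p (by simpa using hp)) (hs q (by simpa using hq))).mpr hpq

open Classical in
/-- The colour of `q`. -/
noncomputable def m2_c {P H : Finset ℕ} (t : ℕ × Finset ℕ × Fam P H) (q : ℕ) :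
    Option (Option {h // h ∈ H}) :=
  if q ∈ t.2.1 then none else if h : ∃ h, ∃ hq : q ∈ P, (⟨q, hq⟩ : {p // p ∈ P}) ∈ t.2.2 h then
    some (some h.choose) else some none

/-- The weight of a colour. -/
noncomputable def m2_w (H : Finset ℕ) (k E : ℕ) : Option (Option {h // h ∈ H}) → ℝ
  | none => k
  | some none => k
  | some (some _) => E

theorem m2_w_sum (H : Finset ℕ) (k E K : ℕ) (hK : H.card = K) :
    ∑ x, m2_w H k E x = ((K * E + 2 * k : ℕ) : ℝ) := by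
  rw [Fintype.sum_option, Fintype.sum_option]
  simp only [m2_w]
  simp [hK]
  ring

/-- The conditions on a triple. -/
structure m2_ok {P H : Finset ℕ} (W p1 : ℕ) (P' : Finset ℕ) (t : ℕ × Finset ℕ × Fam P H) : Prop where
  sq : Squarefree t.1
  dP : ∀ q ∈ t.1.primeFactors, q ∈ P'
  V : t.2.1 ⊆ Ps W p1
  dis : ∀ h h', h ≠ h' → Disjoint (t.2.2 h) (t.2.2 h')
  cop : ∀ h, ∀ p ∈ t.2.2 h, ¬ p.1 ∣ t.1

section

variable {P H : Finset ℕ} {W p1 : ℕ} {P' : Finset ℕ}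

/-- The product of a triple. -/
noncomputable def m2_m (t : ℕ × Finset ℕ × Fam P H) : ℕ := fp t.2.2 * (∏ q ∈ t.2.1, q) * t.1

theorem m2_VU (hP : ∀ p ∈ P, p.Prime ∧ W < p) {t : ℕ × Finset ℕ × Fam P H} (h : m2_ok W p1 P' t) :
    Disjoint (m2_UU t.2.2) t.2.1 := by
  rw [Finset.disjoint_left]
  intro q hq hV
  obtain ⟨h', hqP, -⟩ := (m2_mem_UU _ _).1 hq
  have h1 := (hP q hqP).2
  have h2 := h.V hV
  simp only [Ps, Finset.mem_filter, Finset.mem_Icc] at h2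
  omega

theorem m2_UVd (hP : ∀ p ∈ P, p.Prime ∧ W < p) (hP' : ∀ q ∈ P', q.Prime ∧ W < q)
    {t : ℕ × Finset ℕ × Fam P H} (h : m2_ok W p1 P' t) :
    Disjoint (m2_UU t.2.2 ∪ t.2.1) t.1.primeFactors := by
  rw [Finset.disjoint_left]
  intro q hq hd
  rcases Finset.mem_union.1 hq with hq | hV
  · obtain ⟨h', hqP, hq'⟩ := (m2_mem_UU _ _).1 hq
    exact h.cop h' _ hq' (Nat.dvd_of_mem_primeFactors hd)
  · have h1 := (hP' q (h.dP q hd)).2
    have h2 := h.V hV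
    simp only [Ps, Finset.mem_filter, Finset.mem_Icc] at h2
    omega

theorem m2_m_eq (hP : ∀ p ∈ P, p.Prime ∧ W < p) (hP' : ∀ q ∈ P', q.Prime ∧ W < q)
    {t : ℕ × Finset ℕ × Fam P H} (h : m2_ok W p1 P' t) :
    m2_m t = ∏ q ∈ m2_UU t.2.2 ∪ t.2.1 ∪ t.1.primeFactors, q := by
  rw [Finset.prod_union (m2_UVd hP hP' h), Finset.prod_union (m2_VU hP h),
    Nat.prod_primeFactors_of_squarefree h.sq, m2_m, m2_fp _ h.dis]

theorem m2_pr (hP : ∀ p ∈ P, p.Prime ∧ W < p)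
    {t : ℕ × Finset ℕ × Fam P H} (h : m2_ok W p1 P' t) :
    ∀ q ∈ m2_UU t.2.2 ∪ t.2.1 ∪ t.1.primeFactors, q.Prime := by
  intro q hq
  rcases Finset.mem_union.1 hq with hq | hq
  · rcases Finset.mem_union.1 hq with hq | hq
    · obtain ⟨h', hqP, hq'⟩ := (m2_mem_UU _ _).1 hq
      exact (hP q hqP).1
    · have h2 := h.V hq
      simp only [Ps, Finset.mem_filter, Finset.mem_Icc] at h2
      exact h2.2.1
  · exact Nat.prime_of_mem_primeFactors hq

theorem m2_pf (hP : ∀ p ∈ P, p.Prime ∧ W < p) (hP' : ∀ q ∈ P', q.Prime ∧ W < q)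
    {t : ℕ × Finset ℕ × Fam P H} (h : m2_ok W p1 P' t) :
    (m2_m t).primeFactors = m2_UU t.2.2 ∪ t.2.1 ∪ t.1.primeFactors := by
  rw [m2_m_eq hP hP' h, Nat.primeFactors_prod (m2_pr hP h)]

theorem m2_p1 (hP : ∀ p ∈ P, p.Prime ∧ W < p) (hP' : ∀ q ∈ P', q.Prime ∧ W < q)
    (hp1 : p1.Prime) (hp1W : p1 ≤ W)
    {t : ℕ × Finset ℕ × Fam P H} (h : m2_ok W p1 P' t) : Squarefree (m2_m t) ∧ ¬ p1 ∣ m2_m t := by
  have h0 : Squarefree (m2_m t) := by
    rw [m2_m_eq hP hP' h]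
    exact m2_sqf _ (m2_pr hP h)
  refine ⟨h0, fun h1 => ?_⟩
  have h2 : p1 ∈ (m2_m t).primeFactors := Nat.mem_primeFactors.2 ⟨hp1, h1, h0.ne_zero⟩
  rw [m2_pf hP hP' h] at h2
  rcases Finset.mem_union.1 h2 with hq | hq
  · rcases Finset.mem_union.1 hq with hq | hq
    · obtain ⟨h', hqP, hq'⟩ := (m2_mem_UU _ _).1 hq
      have := (hP p1 hqP).2
      omega
    · have h2 := h.V hq
      simp only [Ps, Finset.mem_filter, Finset.mem_Icc] at h2
      exact h2.2.2 rfl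
  · have := (hP' p1 (h.dP p1 hq)).2
    omega

theorem m2_cV (t : ℕ × Finset ℕ × Fam P H) {q : ℕ} (hq : q ∈ t.2.1) : m2_c t q = none := by
  simp [m2_c, hq]

theorem m2_cd (hP : ∀ p ∈ P, p.Prime ∧ W < p) (hP' : ∀ q ∈ P', q.Prime ∧ W < q)
    {t : ℕ × Finset ℕ × Fam P H} (h : m2_ok W p1 P' t) {q : ℕ} (hq : q ∈ t.1.primeFactors) :
    m2_c t q = some none := by
  have h1 := Finset.disjoint_right.1 (m2_UVd hP hP' h) hq
  rw [Finset.mem_union, not_or, m2_mem_UU] at h1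
  unfold m2_c
  rw [if_neg h1.2, dif_neg h1.1]

theorem m2_cU (hP : ∀ p ∈ P, p.Prime ∧ W < p)
    {t : ℕ × Finset ℕ × Fam P H} (h : m2_ok W p1 P' t) {q : ℕ} {h' : {h // h ∈ H}} {hqP : q ∈ P}
    (hq : (⟨q, hqP⟩ : {p // p ∈ P}) ∈ t.2.2 h') :
    m2_c t q = some (some h') := by
  have h0 : ∃ h, ∃ hq : q ∈ P, (⟨q, hq⟩ : {p // p ∈ P}) ∈ t.2.2 h := ⟨h', hqP, hq⟩
  have h1 := Finset.disjoint_left.1 (m2_VU hP h) ((m2_mem_UU _ _).2 h0)
  unfold m2_c
  rw [if_neg h1, dif_pos h0]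
  congr 2
  by_contra hne
  obtain ⟨hq1, hq2⟩ := h0.choose_spec
  exact Finset.disjoint_left.1 (h.dis _ _ hne) hq2 hq

theorem m2_wt (hP : ∀ p ∈ P, p.Prime ∧ W < p) (hP' : ∀ q ∈ P', q.Prime ∧ W < q) (k E : ℕ)
    {t : ℕ × Finset ℕ × Fam P H} (h : m2_ok W p1 P' t) :
    ∏ q ∈ (m2_m t).primeFactors, m2_w H k E (m2_c t q) =
      (E : ℝ) ^ (∑ h, (t.2.2 h).card) * ((k : ℝ) ^ t.2.1.card * (k : ℝ) ^ t.1.primeFactors.card) := by
  rw [m2_pf hP hP' h, Finset.prod_union (m2_UVd hP hP' h), Finset.prod_union (m2_VU hP h)]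
  have h1 : ∏ q ∈ t.2.1, m2_w H k E (m2_c t q) = (k : ℝ) ^ t.2.1.card := by
    rw [Finset.prod_congr rfl fun q hq => by rw [m2_cV t hq], Finset.prod_const]
    rfl
  have h2 : ∏ q ∈ t.1.primeFactors, m2_w H k E (m2_c t q) = (k : ℝ) ^ t.1.primeFactors.card := by
    rw [Finset.prod_congr rfl fun q hq => by rw [m2_cd hP hP' h hq], Finset.prod_const]
    rfl
  have h3 : ∏ q ∈ m2_UU t.2.2, m2_w H k E (m2_c t q) = (E : ℝ) ^ (∑ h, (t.2.2 h).card) := by
    rw [m2_prod_UU _ h.dis, ← Finset.prod_pow_eq_pow_sum]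
    refine Finset.prod_congr rfl fun h' _ => ?_
    rw [Finset.prod_congr rfl fun p (hp : p ∈ t.2.2 h') => by
      rw [show m2_c t p.1 = some (some h') from m2_cU hP h (hqP := p.2) hp], Finset.prod_const]
    rfl
  rw [h1, h2, h3]
  ring

theorem m2_inj (hP : ∀ p ∈ P, p.Prime ∧ W < p) (hP' : ∀ q ∈ P', q.Prime ∧ W < q) (m : ℕ)
    {t t' : ℕ × Finset ℕ × Fam P H} (h : m2_ok W p1 P' t) (h' : m2_ok W p1 P' t')
    (e : m2_m t = m) (e' : m2_m t' = m)
    (hc : ∀ q ∈ m.primeFactors, m2_c t q = m2_c t' q) : t = t' := by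
  have f := m2_pf hP hP' h
  have f' := m2_pf hP hP' h'
  rw [e] at f
  rw [e'] at f'
  -- the colour classes
  have key : ∀ {s : ℕ × Finset ℕ × Fam P H}, m2_ok W p1 P' s →
      (m.primeFactors = m2_UU s.2.2 ∪ s.2.1 ∪ s.1.primeFactors) →
      (∀ q, q ∈ s.2.1 ↔ q ∈ m.primeFactors ∧ m2_c s q = none) ∧
      (∀ q, q ∈ s.1.primeFactors ↔ q ∈ m.primeFactors ∧ m2_c s q = some none) ∧
      (∀ (g : {h // h ∈ H}) (p : {p // p ∈ P}), p ∈ s.2.2 g ↔
        p.1 ∈ m.primeFactors ∧ m2_c s p.1 = some (some g)) := by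
    intro s hs fs
    have hcase : ∀ q ∈ m.primeFactors, (q ∈ s.2.1 ∧ m2_c s q = none) ∨
        (q ∈ s.1.primeFactors ∧ m2_c s q = some none) ∨
        ∃ (g : {h // h ∈ H}) (hqP : q ∈ P), (⟨q, hqP⟩ : {p // p ∈ P}) ∈ s.2.2 g ∧
          m2_c s q = some (some g) := by
      intro q hq
      rw [fs] at hq
      rcases Finset.mem_union.1 hq with hq | hq
      · rcases Finset.mem_union.1 hq with hq | hq
        · obtain ⟨g, hqP, hq'⟩ := (m2_mem_UU _ _).1 hq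
          exact Or.inr (Or.inr ⟨g, hqP, hq', m2_cU hP hs hq'⟩)
        · exact Or.inl ⟨hq, m2_cV s hq⟩
      · exact Or.inr (Or.inl ⟨hq, m2_cd hP hP' hs hq⟩)
    refine ⟨fun q => ⟨fun hq => ⟨?_, m2_cV s hq⟩, fun hq => ?_⟩,
      fun q => ⟨fun hq => ⟨?_, m2_cd hP hP' hs hq⟩, fun hq => ?_⟩,
      fun g p => ⟨fun hq => ⟨?_, m2_cU hP hs (hqP := p.2) hq⟩, fun hq => ?_⟩⟩
    · rw [fs]; simp [hq]
    · rcases hcase q hq.1 with h1 | h1 | ⟨g, hqP, h1, h2⟩
      · exact h1.1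
      · rw [hq.2] at h1; simp at h1
      · rw [hq.2] at h2; simp at h2
    · rw [fs]; exact Finset.mem_union_right _ hq
    · rcases hcase q hq.1 with h1 | h1 | ⟨g, hqP, h1, h2⟩
      · rw [hq.2] at h1; simp at h1
      · exact h1.1
      · rw [hq.2] at h2; simp at h2
    · rw [fs]
      exact Finset.mem_union_left _ (Finset.mem_union_left _ ((m2_mem_UU _ _).2 ⟨g, p.2, hq⟩))
    · rcases hcase p.1 hq.1 with h1 | h1 | ⟨g', hqP, h1, h2⟩
      · rw [hq.2] at h1; simp at h1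
      · rw [hq.2] at h1; simp at h1
      · rw [hq.2] at h2
        simp only [Option.some.injEq] at h2
        rw [h2]
        exact h1
  obtain ⟨a1, a2, a3⟩ := key h f
  obtain ⟨b1, b2, b3⟩ := key h' f'
  have e1 : t.2.1 = t'.2.1 := by
    ext q
    rw [a1, b1]
    constructor
    · rintro ⟨x, y⟩; exact ⟨x, by rw [← hc q x, y]⟩
    · rintro ⟨x, y⟩; exact ⟨x, by rw [hc q x, y]⟩
  have e2 : t.1.primeFactors = t'.1.primeFactors := by
    ext q
    rw [a2, b2]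
    constructor
    · rintro ⟨x, y⟩; exact ⟨x, by rw [← hc q x, y]⟩
    · rintro ⟨x, y⟩; exact ⟨x, by rw [hc q x, y]⟩
  have e3 : t.2.2 = t'.2.2 := by
    funext g
    ext p
    rw [a3, b3]
    constructor
    · rintro ⟨x, y⟩; exact ⟨x, by rw [← hc _ x, y]⟩
    · rintro ⟨x, y⟩; exact ⟨x, by rw [hc _ x, y]⟩
  have e4 : t.1 = t'.1 := by
    rw [← Nat.prod_primeFactors_of_squarefree h.sq, e2, Nat.prod_primeFactors_of_squarefree h'.sq]
  exact Prod.ext e4 (Prod.ext e1 e3)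

end

open Classical in
/-- Proof. For a triple `(d, U, V)` in the sum, `m = fp U (∏ V) d` is squarefree, `≤ D`, not divisible by `p1`. For a fixed `m` the
triple is determined by the function on the prime factors of `m` which says for every `q ∣ m` whether `q ∈ V`, `q ∣ d` or `q ∈ U_h`
(`K + 2` possibilities): `d = ∏ {q : q ∣ d}` since `d` is squarefree. So the sum of `E^(∑|U_h|) k^|V| k^ω(d)` over the triples with
this `m` is at most `∏_{q ∣ m} (k + k + K E) = (K E + 2 k)^ω(m)` (`Finset.prod_univ_sum`, or sum over maps `m.primeFactors → Option (Option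
{h // h ∈ H})`). Another way: sum over `d` first, by the inequality
`∑_{(a, b) : a b = m} α^ω(a) β^ω(b) ≤ (α + β)^ω(m)` for squarefree `m`, used for `V`, for `d` and for every `h ∈ H` in turn. -/
theorem m2 (P H : Finset ℕ) (W p1 k E D D1 r K : ℕ) (P' : Finset ℕ) (DF : ℝ) (rr : ℕ → ℝ)
    (hrr : ∀ m, 0 ≤ rr m) (hP : ∀ p ∈ P, p.Prime ∧ W < p) (hp1 : p1.Prime) (hp1W : p1 ≤ W)
    (hP' : ∀ q ∈ P', q.Prime ∧ W < q) (hK : H.card = K) (hW : 1 ≤ W)
    (hD : DF * (W : ℝ) ^ (r + 1) * D1 ≤ D) (hDF : 0 ≤ DF) :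
    ∑ d ∈ Dv P' D1, ∑ V ∈ (Ps W p1).powerset.filter (fun V => V.card ≤ r + 1),
      ∑ U : Fam P H, (if (∀ h h', h ≠ h' → Disjoint (U h) (U h')) ∧ (∀ h, ∀ p ∈ U h, ¬ p.1 ∣ d) ∧
          (fp U : ℝ) ≤ DF then
        (E : ℝ) ^ (∑ h, (U h).card) * ((k : ℝ) ^ V.card * (k : ℝ) ^ d.primeFactors.card) *
          rr (fp U * (∏ q ∈ V, q) * d) else 0) ≤
      ∑ m ∈ (Icc 1 D).filter (fun m => Squarefree m ∧ ¬ p1 ∣ m),
        ((K * E + 2 * k : ℕ) : ℝ) ^ m.primeFactors.card * rr m := by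
  set I : Finset (ℕ × Finset ℕ × Fam P H) :=
    (Dv P' D1 ×ˢ ((Ps W p1).powerset.filter (fun V => V.card ≤ r + 1) ×ˢ
      (Finset.univ : Finset (Fam P H)))).filter (fun t =>
        (∀ h h', h ≠ h' → Disjoint (t.2.2 h) (t.2.2 h')) ∧ (∀ h, ∀ p ∈ t.2.2 h, ¬ p.1 ∣ t.1) ∧
          (fp t.2.2 : ℝ) ≤ DF) with hI
  have hok : ∀ t ∈ I, m2_ok W p1 P' t ∧ m2_m t ∈
      (Icc 1 D).filter (fun m => Squarefree m ∧ ¬ p1 ∣ m) := by
    intro t ht
    simp only [hI, Finset.mem_filter, Finset.mem_product, Finset.mem_powerset, Dv,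
      Finset.mem_Icc, Finset.mem_univ, and_true] at ht
    obtain ⟨⟨⟨⟨hd1, hd2⟩, hd3, hd4⟩, hV1, hV2⟩, hU1, hU2, hU3⟩ := ht
    have ok : m2_ok W p1 P' t := ⟨hd3, hd4, hV1, hU1, hU2⟩
    obtain ⟨h1, h2⟩ := m2_p1 hP hP' hp1 hp1W ok
    refine ⟨ok, ?_⟩
    rw [Finset.mem_filter, Finset.mem_Icc]
    refine ⟨⟨Nat.pos_of_ne_zero h1.ne_zero, ?_⟩, h1, h2⟩
    have h3 : ((∏ q ∈ t.2.1, q : ℕ) : ℝ) ≤ (W : ℝ) ^ (r + 1) := by
      have h4 : ∏ q ∈ t.2.1, q ≤ W ^ t.2.1.card := by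
        refine Finset.prod_le_pow_card _ _ _ fun q hq => ?_
        have h5 := hV1 hq
        simp only [Ps, Finset.mem_filter, Finset.mem_Icc] at h5
        exact h5.1.2
      have h6 : W ^ t.2.1.card ≤ W ^ (r + 1) := Nat.pow_le_pow_right hW hV2
      exact_mod_cast h4.trans h6
    have h7 : ((m2_m t : ℕ) : ℝ) ≤ D := by
      refine le_trans ?_ hD
      unfold m2_m
      push_cast
      push_cast at h3
      have h8 : (t.1 : ℝ) ≤ D1 := by exact_mod_cast hd2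
      have h9 : (0 : ℝ) ≤ ∏ q ∈ t.2.1, (q : ℝ) := Finset.prod_nonneg fun q _ => by positivity
      gcongr
    exact_mod_cast h7
  have step1 : ∑ d ∈ Dv P' D1, ∑ V ∈ (Ps W p1).powerset.filter (fun V => V.card ≤ r + 1),
      ∑ U : Fam P H, (if (∀ h h', h ≠ h' → Disjoint (U h) (U h')) ∧ (∀ h, ∀ p ∈ U h, ¬ p.1 ∣ d) ∧
          (fp U : ℝ) ≤ DF then
        (E : ℝ) ^ (∑ h, (U h).card) * ((k : ℝ) ^ V.card * (k : ℝ) ^ d.primeFactors.card) *
          rr (fp U * (∏ q ∈ V, q) * d) else 0) =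
      ∑ t ∈ I, (E : ℝ) ^ (∑ h, (t.2.2 h).card) *
        ((k : ℝ) ^ t.2.1.card * (k : ℝ) ^ t.1.primeFactors.card) * rr (m2_m t) := by
    rw [hI, Finset.sum_filter, Finset.sum_product]
    refine Finset.sum_congr rfl fun d _ => ?_
    rw [Finset.sum_product]
    rfl
  rw [step1, ← Finset.sum_fiberwise_of_maps_to (g := m2_m) (fun t ht => (hok t ht).2)]
  refine Finset.sum_le_sum fun m hm => ?_
  have step2 : ∑ t ∈ I.filter (fun t => m2_m t = m), (E : ℝ) ^ (∑ h, (t.2.2 h).card) *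
        ((k : ℝ) ^ t.2.1.card * (k : ℝ) ^ t.1.primeFactors.card) * rr (m2_m t) =
      (∑ t ∈ I.filter (fun t => m2_m t = m), ∏ q ∈ m.primeFactors, m2_w H k E (m2_c t q)) * rr m := by
    rw [Finset.sum_mul]
    refine Finset.sum_congr rfl fun t ht => ?_
    rw [Finset.mem_filter] at ht
    rw [← m2_wt hP hP' k E (hok t ht.1).1, ht.2]
  rw [step2]
  refine mul_le_mul_of_nonneg_right ?_ (hrr m)
  rw [← m2_w_sum H k E K hK]
  refine m2_col _ _ _ _ (fun x => ?_) fun t ht t' ht' hc => ?_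
  · rcases x with _ | _ | _ <;> simp only [m2_w] <;> positivity
  · rw [Finset.mem_filter] at ht ht'
    exact m2_inj hP hP' m (hok t ht.1).1 (hok t' ht'.1).1 ht.2 ht'.2 hc

end Pool.Agent.Lib.H57C
end
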