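import Pool.Agent.Lib.H1M.RV.M001
import Pool.Agent.Lib.H1M.RV.M020
import Pool.Agent.Lib.H1M.RV.M029
import Pool.Agent.Lib.H1M.RV.M051

/-! Merged copies (to shorten the build) of Lib.H57C.M3, Lib.H57C.M4, Lib.H57C.RA, Lib.H57C.X3, Lib.H57C.X4, Lib.H57M.B3, Lib.H57M.B8. -/

-- from Lib.H57C.M3
section

/-!
# Chunk M3: the main terms
-/

open Finset

namespace Pool.Agent.Lib.H57C

open Pool.Agent.Lib.H15P Pool.Agent.Lib.H92G Pool.Agent.Lib.H57M

/-- The allowed classes modulo `q`. -/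
noncomputable def m3_A {P H : Finset ℕ} (i : Option ℕ) (U : Fam P H) (q : ℕ) : Finset ℕ := by
  classical
  exact (range q).filter (fun c => (∀ h0, i = some h0 → ¬ q ∣ h0 + c) ∧
    ∀ h : {h // h ∈ H}, (∃ p ∈ U h, p.1 = q) → i ≠ some h.1 ∧ q ∣ c + h.1)

theorem m3_mem_A {P H : Finset ℕ} (i : Option ℕ) (U : Fam P H) (q c : ℕ) :
    c ∈ m3_A i U q ↔ c < q ∧ (∀ h0, i = some h0 → ¬ q ∣ h0 + c) ∧
      ∀ h : {h // h ∈ H}, (∃ p ∈ U h, p.1 = q) → i ≠ some h.1 ∧ q ∣ c + h.1 := by
  unfold m3_A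
  rw [mem_filter, mem_range]

theorem m3_Pf (P : Finset ℕ) (hP : ∀ p ∈ P, p.Prime) : (∏ p ∈ P, p).primeFactors = P :=
  Nat.primeFactors_prod hP

theorem m3_sqf (P : Finset ℕ) (hP : ∀ p ∈ P, p.Prime) : Squarefree (∏ p ∈ P, p) := by
  refine Finset.squarefree_prod_of_pairwise_isCoprime ?_ ?_
  · intro p hp q hq hpq
    exact Nat.coprime_iff_isRelPrime.1
      ((Nat.coprime_primes (hP p (Finset.mem_coe.1 hp)) (hP q (Finset.mem_coe.1 hq))).2 hpq)
  · intro p hp
    exact (hP p hp).squarefree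

theorem m3_cop (P : Finset ℕ) (hP : ∀ p ∈ P, p.Prime) (x : ℕ) :
    x.Coprime (∏ p ∈ P, p) ↔ ∀ p ∈ P, ¬ p ∣ x := by
  rw [Nat.coprime_prod_right_iff]
  constructor
  · intro h p hp hd
    have h1 := h p hp
    rw [Nat.coprime_comm, (hP p hp).coprime_iff_not_dvd] at h1
    exact h1 hd
  · intro h p hp
    rw [Nat.coprime_comm, (hP p hp).coprime_iff_not_dvd]
    exact h p hp

/-- The count. -/
theorem m3_count (P H : Finset ℕ) (i : Option ℕ) (hP : ∀ p ∈ P, p.Prime) (U : Fam P H) :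
    ((range (∏ p ∈ P, p)).filter (fun t => (∀ h0, i = some h0 → (h0 + 1 * t).Coprime (∏ p ∈ P, p)) ∧
      ∀ j, U j ⊆ cfg P H i t j)).card = ∏ q ∈ P, (m3_A i U q).card := by
  classical
  have h0 := crt_card (∏ p ∈ P, p) (m3_sqf P hP) (m3_A i U) (fun q _ => by
    intro c hc
    rw [m3_mem_A] at hc
    exact mem_range.2 hc.1)
  rw [m3_Pf P hP] at h0
  rw [← h0]
  congr 1
  ext t
  rw [mem_filter, mem_filter]
  refine and_congr_right (fun _ => ?_)
  constructor
  · rintro ⟨h1, h2⟩ q hq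
    rw [m3_mem_A]
    refine ⟨Nat.mod_lt _ (hP q hq).pos, ?_, ?_⟩
    · intro h0 hh hd
      have h3 := (m3_cop P hP _).1 (h1 h0 hh) q hq
      apply h3
      rw [one_mul]
      rw [Nat.dvd_iff_mod_eq_zero, Nat.add_mod, Nat.mod_mod, ← Nat.add_mod] at hd
      exact Nat.dvd_of_mod_eq_zero hd
    · rintro h ⟨p, hp, rfl⟩
      have h3 := h2 h hp
      unfold cfg at h3
      split_ifs at h3 with h4
      · exact absurd h3 (by simp)
      · refine ⟨h4, ?_⟩
        unfold hit at h3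
        have h5 := (mem_filter.1 h3).2
        rw [Nat.dvd_iff_mod_eq_zero, Nat.add_mod, Nat.mod_mod, ← Nat.add_mod]
        exact Nat.mod_eq_zero_of_dvd h5
  · intro h1
    constructor
    · intro h0 hh
      rw [m3_cop P hP]
      intro p hp hd
      have h2 := (m3_mem_A i U p _).1 (h1 p hp)
      apply h2.2.1 h0 hh
      rw [one_mul] at hd
      rw [Nat.dvd_iff_mod_eq_zero, Nat.add_mod, Nat.mod_mod, ← Nat.add_mod]
      exact Nat.mod_eq_zero_of_dvd hd
    · intro j p hp
      have h2 := (m3_mem_A i U p.1 _).1 (h1 p.1 p.2)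
      have h3 := h2.2.2 j ⟨p, hp, rfl⟩
      unfold cfg
      rw [if_neg h3.1]
      unfold hit
      rw [mem_filter]
      refine ⟨mem_univ _, ?_⟩
      have h4 := h3.2
      rw [Nat.dvd_iff_mod_eq_zero, Nat.add_mod, Nat.mod_mod, ← Nat.add_mod] at h4
      exact Nat.dvd_of_mod_eq_zero h4

/-- The normalisation. -/
noncomputable def m3_n (i : Option ℕ) (q : ℕ) : ℕ := if i = none then q else q - 1

theorem m3_diff {q h h' c : ℕ} (hh : h < q) (hh' : h' < q) (h1 : q ∣ c + h) (h2 : q ∣ c + h') :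
    h = h' := by
  have h3 : c + h ≡ c + h' [MOD q] := by
    rw [Nat.ModEq, Nat.mod_eq_zero_of_dvd h1, Nat.mod_eq_zero_of_dvd h2]
  have h4 : h ≡ h' [MOD q] := Nat.ModEq.add_left_cancel' c h3
  exact Nat.ModEq.eq_of_lt_of_lt h4 hh hh'

/-- No prime: all classes. -/
theorem m3_card0 {P H : Finset ℕ} (i : Option ℕ) (U : Fam P H) (q : ℕ) (hq : q.Prime)
    (hU : ∀ h : {h // h ∈ H}, ¬ ∃ p ∈ U h, p.1 = q) : (m3_A i U q).card = m3_n i q := by
  classical
  unfold m3_n
  cases i with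
  | none =>
    rw [if_pos rfl]
    have : m3_A none U q = range q := by
      ext c
      rw [m3_mem_A, mem_range]
      constructor
      · exact fun h => h.1
      · intro h
        refine ⟨h, ?_, ?_⟩
        · intro h0 hh
          exact absurd hh (by simp)
        · intro h' hh
          exact absurd hh (hU h')
    rw [this, card_range]
  | some h0 =>
    rw [if_neg (by simp)]
    have h1 : m3_A (some h0) U q = (range q).erase ((q - h0 % q) % q) := by
      ext c
      rw [m3_mem_A, mem_erase, mem_range]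
      have hm : h0 % q < q := Nat.mod_lt _ hq.pos
      have key : c < q → (q ∣ h0 + c ↔ c = (q - h0 % q) % q) := by
        intro hc
        have e1 : q ∣ h0 + (q - h0 % q) % q := by
          rw [Nat.dvd_iff_mod_eq_zero, Nat.add_mod, Nat.mod_mod, ← Nat.add_mod]
          have : h0 + (q - h0 % q) = q * (h0 / q) + q := by
            have := Nat.div_add_mod h0 q
            omega
          rw [this]
          simp
        constructor
        · intro h
          exact m3_diff (c := h0) hc (Nat.mod_lt _ hq.pos) h e1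
        · intro h
          rw [h]
          exact e1
      constructor
      · rintro ⟨h2, h3, -⟩
        refine ⟨?_, h2⟩
        intro h4
        exact h3 h0 rfl ((key h2).2 h4)
      · rintro ⟨h2, h3⟩
        refine ⟨h3, ?_, ?_⟩
        · intro h1 hh hd
          have : h0 = h1 := by simpa using hh
          subst this
          exact h2 ((key h3).1 hd)
        · intro h' hh
          exact absurd hh (hU h')
    rw [h1, card_erase_of_mem (mem_range.2 (Nat.mod_lt _ hq.pos)), card_range]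

/-- One form: one class. -/
theorem m3_card1 {P H : Finset ℕ} (i : Option ℕ) (U : Fam P H) (q : ℕ) (hq : q.Prime)
    (hH : ∀ h ∈ H, h < q) (iH : ∀ h, i = some h → h ∈ H) (h : {h // h ∈ H})
    (hU : ∃ p ∈ U h, p.1 = q) (hu : ∀ h' : {h // h ∈ H}, (∃ p ∈ U h', p.1 = q) → h' = h)
    (hi : i ≠ some h.1) : (m3_A i U q).card = 1 := by
  classical
  rw [card_eq_one]
  refine ⟨(q - h.1) % q, ?_⟩
  ext c
  rw [m3_mem_A, mem_singleton]
  have hh := hH h.1 h.2
  have e1 : q ∣ (q - h.1) % q + h.1 := by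
    rw [Nat.dvd_iff_mod_eq_zero, Nat.add_mod, Nat.mod_mod, ← Nat.add_mod]
    have : q - h.1 + h.1 = q := by omega
    rw [this, Nat.mod_self]
  constructor
  · rintro ⟨h1, -, h3⟩
    have h4 := (h3 h hU).2
    rw [add_comm] at h4 e1
    exact m3_diff h1 (Nat.mod_lt _ hq.pos) h4 e1
  · rintro rfl
    refine ⟨Nat.mod_lt _ hq.pos, ?_, ?_⟩
    · intro h0 h5 h6
      rw [add_comm] at h6
      have h7 := m3_diff (hH h0 (iH h0 h5)) hh h6 e1
      apply hi
      rw [h5, h7]
    · intro h' h8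
      have := hu h' h8
      subst this
      exact ⟨hi, e1⟩

/-- The local factor. -/
theorem m3_local {P H : Finset ℕ} (i : Option ℕ) (W : ℕ) (hP : ∀ p ∈ P, p.Prime ∧ W < p)
    (HW : ∀ h ∈ H, h ≤ W) (iH : ∀ h, i = some h → h ∈ H) (U : Fam P H) (hok : okA P H i U)
    (q : ℕ) (hq : q ∈ P) :
    ((m3_A i U q).card : ℝ) / (m3_n i q : ℝ) =
      ∏ h : {h // h ∈ H}, (if (⟨q, hq⟩ : {p // p ∈ P}) ∈ U h then hdr i q else 1) := by
  classical
  have hqp := (hP q hq).1
  have hH : ∀ h ∈ H, h < q := fun h hh => lt_of_le_of_lt (HW h hh) (hP q hq).2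
  have hn : (m3_n i q : ℝ) ≠ 0 := by
    unfold m3_n
    split_ifs
    · exact_mod_cast hqp.pos.ne'
    · have := hqp.one_lt
      have h2 : q - 1 ≠ 0 := by omega
      exact_mod_cast h2
  have hhd : hdr i q = 1 / (m3_n i q : ℝ) := by
    unfold hdr m3_n
    split_ifs
    · rfl
    · rw [Nat.cast_sub hqp.one_lt.le, Nat.cast_one]
  have hex : ∀ h : {h // h ∈ H}, (∃ p ∈ U h, p.1 = q) ↔ (⟨q, hq⟩ : {p // p ∈ P}) ∈ U h := by
    intro h
    constructor
    · rintro ⟨p, hp, h2⟩
      have : p = ⟨q, hq⟩ := Subtype.ext h2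
      rw [← this]
      exact hp
    · intro h2
      exact ⟨_, h2, rfl⟩
  by_cases hall : ∀ h : {h // h ∈ H}, ¬ ∃ p ∈ U h, p.1 = q
  · rw [m3_card0 i U q hqp hall, div_self hn]
    symm
    apply prod_eq_one
    intro h _
    rw [if_neg]
    rw [← hex]
    exact hall h
  · push Not at hall
    obtain ⟨h, hh⟩ := hall
    have hu : ∀ h' : {h // h ∈ H}, (∃ p ∈ U h', p.1 = q) → h' = h := by
      intro h' hh'
      by_contra hne
      have hd := hok.2 h' h hne
      rw [hex] at hh hh'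
      exact (Finset.disjoint_left.1 hd) hh' hh
    have hi : i ≠ some h.1 := by
      intro h5
      have := hok.1 h h5
      rw [hex, this] at hh
      exact absurd hh (by simp)
    rw [m3_card1 i U q hqp hH iH h hh hu hi, Nat.cast_one, ← hhd]
    rw [prod_eq_single h]
    · rw [if_pos ((hex h).1 hh)]
    · intro h' _ hne
      rw [if_neg]
      intro h6
      exact hne (hu h' ((hex h').2 h6))
    · intro h7
      exact absurd (mem_univ _) h7

/-- The bad families. -/
theorem m3_zero {P H : Finset ℕ} (i : Option ℕ) (W : ℕ) (hP : ∀ p ∈ P, p.Prime ∧ W < p)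
    (HW : ∀ h ∈ H, h ≤ W) (U : Fam P H) (hok : ¬ okA P H i U) :
    ∏ q ∈ P, (m3_A i U q).card = 0 := by
  classical
  unfold okA at hok
  rw [not_and_or] at hok
  rcases hok with hok | hok
  · push Not at hok
    obtain ⟨h, h1, h2⟩ := hok
    obtain ⟨p, hp⟩ := h2
    refine prod_eq_zero p.2 ?_
    rw [card_eq_zero, eq_empty_iff_forall_notMem]
    intro c hc
    rw [m3_mem_A] at hc
    exact (hc.2.2 h ⟨p, hp, rfl⟩).1 h1
  · push Not at hok
    obtain ⟨h, h', hne, hd⟩ := hok
    rw [Finset.not_disjoint_iff] at hd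
    obtain ⟨p, hp, hp'⟩ := hd
    refine prod_eq_zero p.2 ?_
    rw [card_eq_zero, eq_empty_iff_forall_notMem]
    intro c hc
    rw [m3_mem_A] at hc
    have h1 := (hc.2.2 h ⟨p, hp, rfl⟩).2
    have h2 := (hc.2.2 h' ⟨p, hp', rfl⟩).2
    have h3 := hP p.1 p.2
    exact hne (Subtype.ext (m3_diff (lt_of_le_of_lt (HW h.1 h.2) h3.2)
      (lt_of_le_of_lt (HW h'.1 h'.2) h3.2) h1 h2))

/-- The density of a family. -/
theorem m3_dens {P H : Finset ℕ} (i : Option ℕ) (W : ℕ) (hP : ∀ p ∈ P, p.Prime ∧ W < p)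
    (HW : ∀ h ∈ H, h ≤ W) (iH : ∀ h, i = some h → h ∈ H) (U : Fam P H) :
    (((∏ q ∈ P, (m3_A i U q).card : ℕ)) : ℝ) / (∏ q ∈ P, (m3_n i q : ℝ)) =
      (open Classical in if okA P H i U ∧ okB P H (fun _ _ => True) 1 U then fpr (hdr i) U else 0) := by
  classical
  by_cases hok : okA P H i U
  · have hB : okB P H (fun _ _ => True) 1 U := by
      refine ⟨?_, ?_⟩
      · intro h p _ hd
        exact (hP p.1 p.2).1.one_lt.ne' (Nat.dvd_one.1 hd)
      · intro h p _ c _
        trivial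
    rw [if_pos ⟨hok, hB⟩, Nat.cast_prod, ← prod_div_distrib]
    have h1 : ∀ q : {p // p ∈ P}, ((m3_A i U q.1).card : ℝ) / (m3_n i q.1 : ℝ) =
        ∏ h : {h // h ∈ H}, (if q ∈ U h then hdr i q.1 else 1) :=
      fun q => m3_local i W hP HW iH U hok q.1 q.2
    rw [← prod_attach P (fun q => ((m3_A i U q).card : ℝ) / (m3_n i q : ℝ))]
    rw [show (P.attach : Finset {p // p ∈ P}) = univ from rfl, prod_congr rfl (fun q _ => h1 q),
      prod_comm]
    unfold fpr
    refine prod_congr rfl (fun h _ => ?_)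
    rw [prod_ite_mem, univ_inter]
  · rw [if_neg (fun h => hok h.1), m3_zero i W hP HW U hok]
    simp

/-- The reference mean value as a sum over families. -/
theorem ae_sum (P H : Finset ℕ) (i : Option ℕ) (W : ℕ) (hP : ∀ p ∈ P, p.Prime ∧ W < p)
    (HW : ∀ h ∈ H, h ≤ W) (iH : ∀ h, i = some h → h ∈ H)
    (F : Fam P H → ℝ) (c : Fam P H → ℝ)
    (hc : ∀ S, F S = ∑ U : Fam P H, if ∀ j, U j ⊆ S j then c U else 0) :
    AE P H i F = Am P H i (fun _ _ => True) (hdr i) 1 c := by
  classical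
  have hPp : ∀ p ∈ P, p.Prime := fun p hp => (hP p hp).1
  have hN : AE P H i F = (∑ t ∈ (range (∏ p ∈ P, p)).filter (fun t => ∀ h0, i = some h0 →
      (h0 + 1 * t).Coprime (∏ p ∈ P, p)), F (cfg P H i t)) / (∏ q ∈ P, (m3_n i q : ℝ)) := by
    cases i with
    | none =>
      unfold AE EP m3_n
      simp only [if_true, Nat.cast_prod]
      congr 1
      refine sum_congr ?_ ?_
      · ext t
        simp
      · intro t _
        congr 1
        funext h
        unfold cfg
        rw [if_neg (by simp), one_mul, add_comm]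
    | some h0 =>
      unfold AE EU m3_n
      simp only [reduceCtorEq, if_false]
      congr 1
      · refine sum_congr ?_ (fun _ _ => rfl)
        ext t
        simp
      · have h3 := Nat.totient_mul_prod_primeFactors (∏ p ∈ P, p)
        rw [m3_Pf P hPp] at h3
        have h4 : 0 < ∏ p ∈ P, p := Finset.prod_pos (fun p hp => (hPp p hp).pos)
        have h5 : (∏ p ∈ P, p).totient = ∏ p ∈ P, (p - 1) := by
          rw [mul_comm] at h3
          exact Nat.eq_of_mul_eq_mul_left h4 h3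
        rw [h5, Nat.cast_prod]
  rw [hN]
  unfold Am
  simp only [hc]
  rw [sum_comm, sum_div]
  refine sum_congr rfl (fun U _ => ?_)
  rw [← sum_filter, filter_filter, sum_const, m3_count P H i hPp U, nsmul_eq_mul]
  have h2 := m3_dens i W hP HW iH U
  rw [mul_comm, mul_div_assoc, h2]
  split_ifs
  · rfl
  · rw [mul_zero]

end Pool.Agent.Lib.H57C
end

-- from Lib.H57C.M4
section

/-!
# Chunk M4: perturbation of the main terms
-/

open Finset

namespace Pool.Agent.Lib.H57C

open Pool.Agent.Lib.H15P Pool.Agent.Lib.H92G Pool.Agent.Lib.H57M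

theorem m4_sub {α : Type} [Fintype α] [DecidableEq α] (x : α → ℝ) :
    ∑ T : Finset α, ∏ p ∈ T, x p = ∏ p, (1 + x p) := by
  rw [Finset.prod_one_add, Finset.powerset_univ]

theorem m4_subp {α : Type} [Fintype α] [DecidableEq α] (x : α → ℝ) (hx : ∀ p, 0 ≤ x p) (p0 : α) :
    ∑ T : Finset α, (if p0 ∈ T then ∏ p ∈ T, x p else 0) ≤ x p0 * ∏ p, (1 + x p) := by
  rw [← m4_sub, ← Finset.sum_filter, Finset.mul_sum]
  calc ∑ T ∈ univ.filter (fun T : Finset α => p0 ∈ T), ∏ p ∈ T, x p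
      = ∑ T ∈ univ.filter (fun T : Finset α => p0 ∉ T), x p0 * ∏ p ∈ T, x p := by
        refine Finset.sum_nbij' (fun T => T.erase p0) (fun T => insert p0 T) ?_ ?_ ?_ ?_ ?_
        · intro T _
          simp
        · intro T _
          simp
        · intro T hT
          exact Finset.insert_erase (by simpa using hT)
        · intro T hT
          exact Finset.erase_insert (by simpa using hT)
        · intro T hT
          exact (Finset.mul_prod_erase T x (by simpa using hT)).symm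
    _ ≤ ∑ T : Finset α, x p0 * ∏ p ∈ T, x p := by
        refine Finset.sum_le_sum_of_subset_of_nonneg (Finset.filter_subset _ _) ?_
        intro T _ _
        exact mul_nonneg (hx _) (Finset.prod_nonneg fun p _ => hx p)

theorem m4_fam {ι α : Type} [Fintype ι] [DecidableEq ι] [Fintype α] [DecidableEq α] (x : α → ℝ) :
    ∑ U : ι → Finset α, ∏ h, ∏ p ∈ U h, x p = ∏ _h : ι, ∏ p, (1 + x p) := by
  simp_rw [← m4_sub x]
  rw [Finset.prod_univ_sum, Fintype.piFinset_univ]

theorem m4_famp {ι α : Type} [Fintype ι] [DecidableEq ι] [Fintype α] [DecidableEq α] (x : α → ℝ)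
    (hx : ∀ p, 0 ≤ x p) (h0 : ι) (p0 : α) :
    ∑ U : ι → Finset α, (if p0 ∈ U h0 then ∏ h, ∏ p ∈ U h, x p else 0) ≤
      x p0 * ∏ _h : ι, ∏ p, (1 + x p) := by
  have h1 : ∀ U : ι → Finset α, (if p0 ∈ U h0 then ∏ h, ∏ p ∈ U h, x p else 0) =
      ∏ h, (if h = h0 then (if p0 ∈ U h then ∏ p ∈ U h, x p else 0) else ∏ p ∈ U h, x p) := by
    intro U
    by_cases hp : p0 ∈ U h0
    · rw [if_pos hp]
      refine Finset.prod_congr rfl fun h _ => ?_
      split_ifs with h2 h3
      · rfl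
      · subst h2; exact absurd hp h3
      · rfl
    · rw [if_neg hp]
      symm
      exact Finset.prod_eq_zero (Finset.mem_univ h0) (by simp [hp])
  simp_rw [h1]
  have h2 := (Finset.prod_univ_sum (fun _ : ι => (univ : Finset (Finset α)))
    (fun (h : ι) (T : Finset α) =>
      if h = h0 then (if p0 ∈ T then ∏ p ∈ T, x p else 0) else ∏ p ∈ T, x p)).symm
  rw [Fintype.piFinset_univ] at h2
  rw [h2]
  have h3 : x p0 * ∏ _h : ι, ∏ p, (1 + x p) =
      ∏ h : ι, (if h = h0 then x p0 * ∏ p, (1 + x p) else ∏ p, (1 + x p)) := by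
    rw [← Finset.mul_prod_erase univ _ (Finset.mem_univ h0),
      ← Finset.mul_prod_erase univ (fun h : ι =>
        if h = h0 then x p0 * ∏ p, (1 + x p) else ∏ p, (1 + x p)) (Finset.mem_univ h0), if_pos rfl,
      mul_assoc]
    congr 2
    refine Finset.prod_congr rfl fun h hh => ?_
    rw [if_neg (Finset.ne_of_mem_erase hh)]
  rw [h3]
  refine Finset.prod_le_prod ?_ ?_
  · intro h _
    refine Finset.sum_nonneg fun T _ => ?_
    have := Finset.prod_nonneg (fun p (_ : p ∈ T) => hx p)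
    split_ifs <;> first | exact this | exact le_rfl
  · intro h _
    by_cases hh : h = h0
    · simp only [hh, if_true]
      exact m4_subp x hx p0
    · simp only [if_neg hh]
      exact (m4_sub x).le

theorem m4_pow {P H : Finset ℕ} (e : ℝ) (f : ℕ → ℝ) (U : Fam P H) :
    e ^ (∑ h, (U h).card) * fpr f U = ∏ h, ∏ p ∈ U h, (e * f p.1) := by
  unfold fpr
  simp_rw [Finset.prod_mul_distrib, Finset.prod_const]
  rw [Finset.prod_pow_eq_pow_sum]

theorem m4_all {P H : Finset ℕ} {K : ℕ} (hK : H.card = K) (g : ℕ → ℝ) :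
    ∏ _h : {h // h ∈ H}, ∏ p : {p // p ∈ P}, g p.1 = ∏ p ∈ P, g p ^ K := by
  rw [Finset.prod_const, Finset.card_univ, Fintype.card_coe, hK, Finset.prod_pow,
    Finset.prod_coe_sort P g]

theorem m4_diff {α : Type} [DecidableEq α] (a a' m : α → ℝ) (δ : ℝ) (hδ : 0 ≤ δ)
    (ha : ∀ p, 0 ≤ a p) (ha' : ∀ p, 0 ≤ a' p) (ham : ∀ p, a p ≤ m p) (ham' : ∀ p, a' p ≤ m p)
    (hd : ∀ p, |a p - a' p| ≤ δ * m p) (T : Finset α) :
    |∏ p ∈ T, a p - ∏ p ∈ T, a' p| ≤ T.card * δ * ∏ p ∈ T, m p := by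
  induction T using Finset.induction_on with
  | empty => simp
  | insert p T hp ih =>
    rw [Finset.prod_insert hp, Finset.prod_insert hp, Finset.prod_insert hp,
      Finset.card_insert_of_notMem hp]
    have h1 : a p * ∏ p ∈ T, a p - a' p * ∏ p ∈ T, a' p =
        (a p - a' p) * ∏ p ∈ T, a p + a' p * (∏ p ∈ T, a p - ∏ p ∈ T, a' p) := by ring
    have hA : ∏ p ∈ T, a p ≤ ∏ p ∈ T, m p := Finset.prod_le_prod (fun p _ => ha p) fun p _ => ham p
    have hA0 : 0 ≤ ∏ p ∈ T, a p := Finset.prod_nonneg fun p _ => ha p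
    have hM0 : 0 ≤ ∏ p ∈ T, m p := hA0.trans hA
    have hm0 : 0 ≤ m p := (ha p).trans (ham p)
    calc |a p * ∏ p ∈ T, a p - a' p * ∏ p ∈ T, a' p|
        ≤ |(a p - a' p) * ∏ p ∈ T, a p| + |a' p * (∏ p ∈ T, a p - ∏ p ∈ T, a' p)| := by
          rw [h1]; exact abs_add_le _ _
      _ = |a p - a' p| * ∏ p ∈ T, a p + a' p * |∏ p ∈ T, a p - ∏ p ∈ T, a' p| := by
          rw [abs_mul, abs_mul, abs_of_nonneg hA0, abs_of_nonneg (ha' p)]
      _ ≤ (δ * m p) * ∏ p ∈ T, m p + m p * (T.card * δ * ∏ p ∈ T, m p) := by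
          refine add_le_add (mul_le_mul (hd p) hA hA0 (mul_nonneg hδ hm0))
            (mul_le_mul (ham' p) ih (abs_nonneg _) hm0)
      _ = ((T.card + 1 : ℕ) : ℝ) * δ * (m p * ∏ p ∈ T, m p) := by
          push_cast; ring

theorem m4_two (n : ℕ) : (n : ℝ) ≤ 2 ^ n := by
  exact_mod_cast (Nat.lt_two_pow_self (n := n)).le

theorem m4_fpr {P H : Finset ℕ} (f : ℕ → ℝ) (U : Fam P H) :
    fpr f U = ∏ x ∈ (univ : Finset {h // h ∈ H}).sigma U, f x.2.1 := by
  unfold fpr
  rw [Finset.prod_sigma]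

open Classical in
theorem am_bound (P H : Finset ℕ) (i : Option ℕ) (W K E b : ℕ) (Al : ℕ → ℕ → Prop) (hd : ℕ → ℝ)
    (c : Fam P H → ℝ) (CF Pi0 : ℝ) (hCF : 0 ≤ CF) (hE : 1 ≤ E) (hK : H.card = K) (hK1 : 1 ≤ K)
    (hP : ∀ p ∈ P, p.Prime ∧ W < p) (hW : 1 ≤ W)
    (hd0 : ∀ q : ℕ, q.Prime → 0 ≤ hd q) (hd2 : ∀ q : ℕ, q.Prime → hd q ≤ 2 / q)
    (hdq : ∀ q : ℕ, q.Prime → W < q → |hd q - 1 / q| ≤ 2 / (q : ℝ) ^ 2)
    (hcb : ∀ U, |c U| ≤ CF * (E : ℝ) ^ (∑ h, (U h).card))
    (hPi : ∏ p ∈ P, (1 + 4 * (E : ℝ) / p) ^ K ≤ Pi0)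
    (hb : (P.filter (fun p => ∃ h ∈ H, i ≠ some h ∧ ∃ c : ℕ, p ∣ c + h ∧ ¬ Al p c)).card ≤ b)
    (d : ℕ) (hd1 : 1 ≤ d) :
    |Am P H i Al hd d c| ≤ CF * Pi0 ∧
    |Am P H i Al hd d c - Am P H i (fun _ _ => True) (hdr i) 1 c| ≤
      CF * Pi0 * ((2 * K * E * (b + d.primeFactors.card) + 2) / W) := by
  have hWr : (1 : ℝ) ≤ W := by exact_mod_cast hW
  have hEr : (1 : ℝ) ≤ E := by exact_mod_cast hE
  have hE0 : (0 : ℝ) ≤ E := by linarith
  -- the densities
  have hp0 : ∀ p : {p // p ∈ P}, (0 : ℝ) < (p.1 : ℝ) := fun p => by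
    exact_mod_cast (hP p.1 p.2).1.pos
  have hp2 : ∀ p : {p // p ∈ P}, (2 : ℝ) ≤ (p.1 : ℝ) := fun p => by
    exact_mod_cast (hP p.1 p.2).1.two_le
  have hpW : ∀ p : {p // p ∈ P}, (W : ℝ) ≤ (p.1 : ℝ) := fun p => by
    exact_mod_cast (hP p.1 p.2).2.le
  have hr0 : ∀ p : {p // p ∈ P}, 0 ≤ hdr i p.1 := fun p => by
    have := hp2 p
    unfold hdr
    split_ifs
    · positivity
    · exact one_div_nonneg.2 (by linarith)
  have hr2 : ∀ p : {p // p ∈ P}, hdr i p.1 ≤ 2 / (p.1 : ℝ) := fun p => by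
    have := hp2 p
    unfold hdr
    split_ifs
    · gcongr
      norm_num
    · rw [div_le_div_iff₀ (by linarith) (by linarith)]
      linarith
  have hrd : ∀ p : {p // p ∈ P}, |hd p.1 - hdr i p.1| ≤ (2 / (W : ℝ)) * (2 / (p.1 : ℝ)) := fun p => by
    have h2 := hp2 p
    have h3 := hpW p
    have h4 := hdq p.1 (hP p.1 p.2).1 (hP p.1 p.2).2
    have h5 : |1 / (p.1 : ℝ) - hdr i p.1| ≤ 2 / (p.1 : ℝ) ^ 2 := by
      unfold hdr
      split_ifs
      · rw [sub_self, abs_zero]; positivity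
      · rw [abs_sub_comm, abs_of_nonneg (by
          rw [sub_nonneg]
          exact one_div_le_one_div_of_le (by linarith) (by linarith))]
        rw [div_sub_div _ _ (by linarith) (by linarith), div_le_div_iff₀ (by nlinarith) (by nlinarith)]
        nlinarith
    calc |hd p.1 - hdr i p.1| ≤ |hd p.1 - 1 / (p.1 : ℝ)| + |1 / (p.1 : ℝ) - hdr i p.1| :=
          abs_sub_le _ _ _
      _ ≤ 2 / (p.1 : ℝ) ^ 2 + 2 / (p.1 : ℝ) ^ 2 := add_le_add h4 h5
      _ = (2 / (p.1 : ℝ)) * (2 / (p.1 : ℝ)) := by ring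
      _ ≤ (2 / (W : ℝ)) * (2 / (p.1 : ℝ)) := by
          gcongr
  -- products of densities
  have hf1 : ∀ U : Fam P H, 0 ≤ fpr hd U ∧ fpr hd U ≤ fpr (fun p => 2 / (p : ℝ)) U := fun U => by
    unfold fpr
    have h1 : ∀ h : {h // h ∈ H}, 0 ≤ ∏ p ∈ U h, hd p.1 := fun h =>
      Finset.prod_nonneg fun p _ => hd0 p.1 (hP p.1 p.2).1
    exact ⟨Finset.prod_nonneg fun h _ => h1 h, Finset.prod_le_prod (fun h _ => h1 h) fun h _ =>
      Finset.prod_le_prod (fun p _ => hd0 p.1 (hP p.1 p.2).1) fun p _ => hd2 p.1 (hP p.1 p.2).1⟩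
  have hf2 : ∀ U : Fam P H, 0 ≤ fpr (hdr i) U ∧ fpr (hdr i) U ≤ fpr (fun p => 2 / (p : ℝ)) U :=
    fun U => by
    unfold fpr
    have h1 : ∀ h : {h // h ∈ H}, 0 ≤ ∏ p ∈ U h, hdr i p.1 := fun h =>
      Finset.prod_nonneg fun p _ => hr0 p
    exact ⟨Finset.prod_nonneg fun h _ => h1 h, Finset.prod_le_prod (fun h _ => h1 h) fun h _ =>
      Finset.prod_le_prod (fun p _ => hr0 p) fun p _ => hr2 p⟩
  have hf0 : ∀ U : Fam P H, 0 ≤ fpr (fun p => 2 / (p : ℝ)) U := fun U => (hf1 U).1.trans (hf1 U).2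
  have hf3 : ∀ U : Fam P H, |fpr hd U - fpr (hdr i) U| ≤
      (2 : ℝ) ^ (∑ h, (U h).card) * (2 / (W : ℝ)) * fpr (fun p => 2 / (p : ℝ)) U := fun U => by
    have h1 := m4_diff (fun x : (_ : {h // h ∈ H}) × {p // p ∈ P} => hd x.2.1)
      (fun x => hdr i x.2.1) (fun x => 2 / (x.2.1 : ℝ)) (2 / (W : ℝ)) (by positivity)
      (fun x => hd0 _ (hP _ x.2.2).1) (fun x => hr0 x.2) (fun x => hd2 _ (hP _ x.2.2).1)
      (fun x => hr2 x.2) (fun x => hrd x.2) ((univ : Finset {h // h ∈ H}).sigma U)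
    rw [m4_fpr, m4_fpr, m4_fpr]
    rw [Finset.card_sigma] at h1
    refine h1.trans ?_
    have h2 : 0 ≤ ∏ x ∈ (univ : Finset {h // h ∈ H}).sigma U, (2 / (x.2.1 : ℝ)) :=
      Finset.prod_nonneg fun x _ => by positivity
    refine mul_le_mul_of_nonneg_right (mul_le_mul_of_nonneg_right (m4_two _) (by positivity)) h2
  -- the total sums
  have hS2 : ∑ U : Fam P H, (E : ℝ) ^ (∑ h, (U h).card) * fpr (fun p => 2 / (p : ℝ)) U ≤ Pi0 := by
    simp_rw [m4_pow]
    rw [m4_fam (fun p : {p // p ∈ P} => (E : ℝ) * (2 / (p.1 : ℝ))),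
      m4_all hK (fun p => 1 + (E : ℝ) * (2 / (p : ℝ)))]
    refine le_trans (Finset.prod_le_prod (fun p _ => by positivity) fun p _ => ?_) hPi
    refine pow_le_pow_left₀ (by positivity) ?_ K
    have : (E : ℝ) * (2 / (p : ℝ)) ≤ 4 * (E : ℝ) / p := by
      rw [← mul_div_assoc]
      gcongr ?_ / _
      linarith
    linarith
  have hS4 : ∑ U : Fam P H, ((2 * E : ℝ)) ^ (∑ h, (U h).card) * fpr (fun p => 2 / (p : ℝ)) U ≤
      Pi0 := by
    simp_rw [m4_pow]
    rw [m4_fam (fun p : {p // p ∈ P} => (2 * E : ℝ) * (2 / (p.1 : ℝ))),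
      m4_all hK (fun p => 1 + (2 * E : ℝ) * (2 / (p : ℝ)))]
    refine le_trans (le_of_eq ?_) hPi
    refine Finset.prod_congr rfl fun p _ => ?_
    ring
  have hPi0 : 0 ≤ Pi0 := le_trans (Finset.prod_nonneg fun p _ => by positivity) hPi
  refine ⟨?_, ?_⟩
  · unfold Am
    refine (Finset.abs_sum_le_sum_abs _ _).trans ?_
    refine le_trans (Finset.sum_le_sum fun U _ => ?_)
      (le_trans (Finset.mul_sum univ (fun U : Fam P H =>
        (E : ℝ) ^ (∑ h, (U h).card) * fpr (fun p => 2 / (p : ℝ)) U) CF).symm.le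
        (mul_le_mul_of_nonneg_left hS2 hCF))
    have hnn : 0 ≤ CF * ((E : ℝ) ^ (∑ h, (U h).card) * fpr (fun p => 2 / (p : ℝ)) U) :=
      mul_nonneg hCF (mul_nonneg (by positivity) (hf0 U))
    split_ifs
    · rw [abs_mul, abs_of_nonneg (hf1 U).1, ← mul_assoc]
      exact mul_le_mul (hcb U) (hf1 U).2 (hf1 U).1 (mul_nonneg hCF (by positivity))
    · rw [abs_zero]; exact hnn
  · -- the bad primes
    set Bd : Finset {p // p ∈ P} := univ.filter (fun p => p.1 ∈ d.primeFactors ∨
      p.1 ∈ P.filter (fun p => ∃ h ∈ H, i ≠ some h ∧ ∃ c : ℕ, p ∣ c + h ∧ ¬ Al p c)) with hBd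
    have hBc : (Bd.card : ℝ) ≤ b + d.primeFactors.card := by
      have h1 : Bd.card ≤ (d.primeFactors ∪
          P.filter (fun p => ∃ h ∈ H, i ≠ some h ∧ ∃ c : ℕ, p ∣ c + h ∧ ¬ Al p c)).card := by
        refine Finset.card_le_card_of_injOn (fun p => p.1) ?_ ?_
        · intro p hp
          have := (Finset.mem_filter.1 (Finset.mem_coe.1 hp)).2
          exact Finset.mem_coe.2 (Finset.mem_union.2 this)
        · intro p _ p' _ h
          exact Subtype.ext h
      have h2 := Finset.card_union_le d.primeFactors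
        (P.filter (fun p => ∃ h ∈ H, i ≠ some h ∧ ∃ c : ℕ, p ∣ c + h ∧ ¬ Al p c))
      have h3 : Bd.card ≤ b + d.primeFactors.card := by omega
      exact_mod_cast h3
    have hterm : ∀ U : Fam P H,
        |(if okA P H i U ∧ okB P H Al d U then c U * fpr hd U else 0) -
          (if okA P H i U ∧ okB P H (fun _ _ => True) 1 U then c U * fpr (hdr i) U else 0)| ≤
        CF * ((2 / (W : ℝ)) * ((2 * E : ℝ) ^ (∑ h, (U h).card) * fpr (fun p => 2 / (p : ℝ)) U)) +
        CF * ∑ p ∈ Bd, ∑ h : {h // h ∈ H}, (if p ∈ U h then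
          (E : ℝ) ^ (∑ h, (U h).card) * fpr (fun p => 2 / (p : ℝ)) U else 0) := by
      intro U
      have hB1 : okB P H (fun _ _ => True) 1 U :=
        ⟨fun h p _ hdv => (hP p.1 p.2).1.one_lt.ne' (Nat.dvd_one.1 hdv), fun _ _ _ _ _ => trivial⟩
      have hnn1 : 0 ≤ CF * ((2 / (W : ℝ)) * ((2 * E : ℝ) ^ (∑ h, (U h).card) *
          fpr (fun p => 2 / (p : ℝ)) U)) :=
        mul_nonneg hCF (mul_nonneg (by positivity) (mul_nonneg (by positivity) (hf0 U)))
      have hnn3 : 0 ≤ (E : ℝ) ^ (∑ h, (U h).card) * fpr (fun p => 2 / (p : ℝ)) U :=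
        mul_nonneg (by positivity) (hf0 U)
      have hnn4 : ∀ p ∈ Bd, 0 ≤ ∑ h : {h // h ∈ H}, (if p ∈ U h then
          (E : ℝ) ^ (∑ h, (U h).card) * fpr (fun p => 2 / (p : ℝ)) U else 0) := fun p _ =>
        Finset.sum_nonneg fun h _ => by split_ifs <;> first | exact hnn3 | exact le_rfl
      have hnn2 : 0 ≤ CF * ∑ p ∈ Bd, ∑ h : {h // h ∈ H}, (if p ∈ U h then
          (E : ℝ) ^ (∑ h, (U h).card) * fpr (fun p => 2 / (p : ℝ)) U else 0) :=
        mul_nonneg hCF (Finset.sum_nonneg hnn4)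
      by_cases hA : okA P H i U
      · by_cases hB : okB P H Al d U
        · rw [if_pos ⟨hA, hB⟩, if_pos ⟨hA, hB1⟩, ← mul_sub, abs_mul]
          refine le_trans ?_ (le_add_of_nonneg_right hnn2)
          calc |c U| * |fpr hd U - fpr (hdr i) U|
              ≤ (CF * (E : ℝ) ^ (∑ h, (U h).card)) *
                ((2 : ℝ) ^ (∑ h, (U h).card) * (2 / (W : ℝ)) * fpr (fun p => 2 / (p : ℝ)) U) :=
                mul_le_mul (hcb U) (hf3 U) (abs_nonneg _) (mul_nonneg hCF (by positivity))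
            _ = _ := by rw [mul_pow]; ring
        · rw [if_neg (fun h => hB h.2), if_pos ⟨hA, hB1⟩, zero_sub, abs_neg, abs_mul,
            abs_of_nonneg (hf2 U).1]
          refine le_trans ?_ (le_add_of_nonneg_left hnn1)
          -- find the bad prime
          have hex : ∃ p ∈ Bd, ∃ h : {h // h ∈ H}, p ∈ U h := by
            unfold okB at hB
            by_cases hB2 : ∀ h, ∀ p ∈ U h, ¬ p.1 ∣ d
            · have hB3 : ¬ ∀ h, ∀ p ∈ U h, ∀ c : ℕ, p.1 ∣ c + h.1 → Al p.1 c := fun h => hB ⟨hB2, h⟩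
              push Not at hB3
              obtain ⟨h, p, hp, c', hc', hc2⟩ := hB3
              refine ⟨p, ?_, h, hp⟩
              rw [hBd, Finset.mem_filter]
              refine ⟨Finset.mem_univ _, Or.inr (Finset.mem_filter.2 ⟨p.2, h.1, h.2, ?_, c', hc', hc2⟩)⟩
              intro hi
              have := hA.1 h hi
              rw [this] at hp
              exact absurd hp (Finset.notMem_empty _)
            · push Not at hB2
              obtain ⟨h, p, hp, hpd⟩ := hB2
              refine ⟨p, ?_, h, hp⟩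
              rw [hBd, Finset.mem_filter]
              exact ⟨Finset.mem_univ _, Or.inl (Nat.mem_primeFactors.2
                ⟨(hP p.1 p.2).1, hpd, by omega⟩)⟩
          obtain ⟨p, hp, h, hph⟩ := hex
          calc |c U| * fpr (hdr i) U
              ≤ (CF * (E : ℝ) ^ (∑ h, (U h).card)) * fpr (fun p => 2 / (p : ℝ)) U :=
                mul_le_mul (hcb U) (hf2 U).2 (hf2 U).1 (mul_nonneg hCF (by positivity))
            _ = CF * ((E : ℝ) ^ (∑ h, (U h).card) * fpr (fun p => 2 / (p : ℝ)) U) := by ring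
            _ ≤ _ := by
                refine mul_le_mul_of_nonneg_left ?_ hCF
                refine le_trans ?_ (Finset.single_le_sum hnn4 hp)
                refine le_trans (le_of_eq (if_pos hph).symm)
                  (Finset.single_le_sum (f := fun h : {h // h ∈ H} => if p ∈ U h then
                    (E : ℝ) ^ (∑ h, (U h).card) * fpr (fun p => 2 / (p : ℝ)) U else 0)
                    (fun h _ => ?_) (Finset.mem_univ h))
                split_ifs <;> first | exact hnn3 | exact le_rfl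
      · rw [if_neg (fun h => hA h.1), if_neg (fun h => hA h.1), sub_zero, abs_zero]
        exact add_nonneg hnn1 hnn2
    have hbad : ∑ U : Fam P H, ∑ p ∈ Bd, ∑ h : {h // h ∈ H}, (if p ∈ U h then
          (E : ℝ) ^ (∑ h, (U h).card) * fpr (fun p => 2 / (p : ℝ)) U else 0) ≤
        ((b + d.primeFactors.card : ℝ)) * (K * (((2 * E : ℝ) / W) * Pi0)) := by
      rw [Finset.sum_comm]
      have h1 : ∀ p ∈ Bd, ∑ U : Fam P H, ∑ h : {h // h ∈ H}, (if p ∈ U h then
          (E : ℝ) ^ (∑ h, (U h).card) * fpr (fun p => 2 / (p : ℝ)) U else 0) ≤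
          K * (((2 * E : ℝ) / W) * Pi0) := by
        intro p _
        rw [Finset.sum_comm]
        have h2 : ∀ h : {h // h ∈ H}, ∑ U : Fam P H, (if p ∈ U h then
            (E : ℝ) ^ (∑ h, (U h).card) * fpr (fun p => 2 / (p : ℝ)) U else 0) ≤
            ((2 * E : ℝ) / W) * Pi0 := by
          intro h
          simp_rw [m4_pow]
          refine (m4_famp (fun p : {p // p ∈ P} => (E : ℝ) * (2 / (p.1 : ℝ)))
            (fun p => by positivity) h p).trans ?_
          have h3 : ∏ _h : {h // h ∈ H}, ∏ p : {p // p ∈ P}, (1 + (E : ℝ) * (2 / (p.1 : ℝ))) ≤ Pi0 := by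
            refine le_trans (le_of_eq ?_) hS2
            simp_rw [m4_pow]
            rw [m4_fam (fun p : {p // p ∈ P} => (E : ℝ) * (2 / (p.1 : ℝ)))]
          refine mul_le_mul ?_ h3 (Finset.prod_nonneg fun h _ => Finset.prod_nonneg fun p _ => by
            positivity) (by positivity)
          have := hpW p
          rw [← mul_div_assoc, mul_comm (E : ℝ) 2]
          gcongr
        calc ∑ h : {h // h ∈ H}, ∑ U : Fam P H, (if p ∈ U h then
              (E : ℝ) ^ (∑ h, (U h).card) * fpr (fun p => 2 / (p : ℝ)) U else 0)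
            ≤ ∑ _h : {h // h ∈ H}, ((2 * E : ℝ) / W) * Pi0 := Finset.sum_le_sum fun h _ => h2 h
          _ = K * (((2 * E : ℝ) / W) * Pi0) := by
              rw [Finset.sum_const, Finset.card_univ, Fintype.card_coe, hK, nsmul_eq_mul]
      calc _ ≤ ∑ _p ∈ Bd, (K * (((2 * E : ℝ) / W) * Pi0)) := Finset.sum_le_sum h1
        _ = Bd.card * (K * (((2 * E : ℝ) / W) * Pi0)) := by rw [Finset.sum_const, nsmul_eq_mul]
        _ ≤ _ := mul_le_mul_of_nonneg_right hBc
            (mul_nonneg (by positivity) (mul_nonneg (by positivity) hPi0))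
    unfold Am
    rw [← Finset.sum_sub_distrib]
    refine (Finset.abs_sum_le_sum_abs _ _).trans ?_
    refine (Finset.sum_le_sum fun U _ => hterm U).trans ?_
    rw [Finset.sum_add_distrib, ← Finset.mul_sum, ← Finset.mul_sum, ← Finset.mul_sum]
    calc _ ≤ CF * ((2 / (W : ℝ)) * Pi0) +
          CF * (((b + d.primeFactors.card : ℝ)) * (K * (((2 * E : ℝ) / W) * Pi0))) := by
          refine add_le_add (mul_le_mul_of_nonneg_left
            (mul_le_mul_of_nonneg_left hS4 (by positivity)) hCF)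
            (mul_le_mul_of_nonneg_left hbad hCF)
      _ = CF * Pi0 * ((2 * K * E * (b + d.primeFactors.card) + 2) / W) := by
          field_simp
          ring

end Pool.Agent.Lib.H57C
end

-- from Lib.H57C.RA
section

/-!
# Chunk RA: the bad classes and the target classes of part (i)
-/

open Finset

namespace Pool.Agent.Lib.H57C

open Pool.Agent.Lib.H57M

theorem RA_res {q c h : ℕ} (hc : c < q) (hd : q ∣ c + h) : (q - h % q) % q = c := by
  have hq : 0 < q := by omega
  have hr : h % q < q := Nat.mod_lt _ hq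
  have h1 : q ∣ c + h % q := by
    have h2 : c + h = (c + h % q) + q * (h / q) := by
      have := Nat.mod_add_div h q
      omega
    rw [h2] at hd
    exact (Nat.dvd_add_left (Dvd.intro _ rfl)).1 hd
  obtain ⟨k, hk⟩ := h1
  have hk2 : k < 2 := by
    by_contra hcon
    have : q * 2 ≤ q * k := Nat.mul_le_mul_left q (by omega)
    omega
  interval_cases k
  · have : h % q = 0 := by omega
    have hc0 : c = 0 := by omega
    rw [this, hc0, Nat.sub_zero, Nat.mod_self]
  · have h3 : q - h % q = c := by omega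
    rw [h3, Nat.mod_eq_of_lt hc]

/-- At most `K + 1` bad classes: those of `-h`, `h ∈ H`, and `N`. -/
theorem rb_card (N : ℕ) (H : Finset ℕ) (q : ℕ) (hq : q.Prime) :
    (Rb N H q).card ≤ H.card + 1 := by
  classical
  have h1 : Rb N H q ⊆ insert (N % q) (H.image (fun h => (q - h % q) % q)) := by
    intro c hc
    unfold Rb at hc
    rw [mem_filter, mem_range] at hc
    obtain ⟨hcq, h2 | h2⟩ := hc
    · obtain ⟨h, hh, hd⟩ := h2
      exact mem_insert_of_mem (mem_image.2 ⟨h, hh, RA_res hcq hd⟩)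
    · rw [mem_insert]
      left
      have h3 : c % q = N % q := h2
      rwa [Nat.mod_eq_of_lt hcq] at h3
  refine (card_le_card h1).trans ((card_insert_le _ _).trans ?_)
  have := card_image_le (s := H) (f := fun h => (q - h % q) % q)
  omega

/-- Proof. `Rk`: `rb_card`; `Rq`: `Pre.nf`; `RH`: definition of `Rb`; `P'p`: definition of `Pg`; `T q = {N % q}`; `TH`: `q ∈ Pg` does not
divide `N + h`. -/
theorem pre_hrt (B cF : ℕ) (θ : ℝ) {K : ℕ} (w : Par K) (H : Finset ℕ) (N p1 : ℕ)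
    (h : Pre B cF θ w H N p1) :
    HRT K 1 w.W p1 H (Rb N H) (fun q => {N % q}) (Pg N w.W H) := by
  have hPs : ∀ q ∈ Ps w.W p1, q.Prime := by
    intro q hq
    unfold Ps at hq
    exact (mem_filter.1 hq).2.1
  have hPg : ∀ q ∈ Pg N w.W H, q.Prime ∧ w.W < q ∧ ∀ h ∈ H, ¬ q ∣ N + h := by
    intro q hq
    unfold Pg at hq
    rw [mem_filter, mem_Ioc] at hq
    exact ⟨hq.2.1, hq.1.1, hq.2.2⟩
  refine ⟨fun q => filter_subset _ _, fun q hq => ?_, fun q hq => h.nf q (hPs q hq), ?_,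
    fun q hq => ⟨(hPg q hq).1, (hPg q hq).2.1⟩, fun q hq => ?_, fun q hq => ?_, ?_⟩
  · have h1 := rb_card N H q (hPs q hq)
    rwa [h.cardH] at h1
  · intro q hq h' hh' c hc hd
    unfold Rb
    rw [mem_filter, mem_range]
    exact ⟨hc, Or.inl ⟨h', hh', hd⟩⟩
  · intro t ht
    have h1 : t = N % q := by simpa using ht
    rw [h1, mem_range]
    exact Nat.mod_lt _ (hPg q hq).1.pos
  · simp
  · intro q hq t ht h' hh' hd
    have h1 : t = N % q := by simpa using ht
    rw [h1] at hd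
    apply (hPg q hq).2.2 h' hh'
    have h2 : N + h' = (N % q + h') + q * (N / q) := by
      have := Nat.mod_add_div N q
      omega
    rw [h2]
    exact Dvd.dvd.add hd (Dvd.intro _ rfl)

/-- `T q = {N % q}`: `inT T d t` iff `d ∣ N - t`, for squarefree `d` and `t ≤ N`. -/
theorem inT_iff (N d t : ℕ) (hd : Squarefree d) (ht : t ≤ N) :
    inT (fun q => {N % q}) d t ↔ d ∣ N - t := by
  unfold inT
  have h1 : ∀ q : ℕ, t % q ∈ ({N % q} : Finset ℕ) ↔ q ∣ N - t := by
    intro q
    rw [mem_singleton]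
    exact (Nat.modEq_iff_dvd' ht)
  simp only [h1]
  constructor
  · intro h
    rw [← Nat.prod_primeFactors_of_squarefree hd]
    exact Finset.prod_primes_dvd _ (fun p hp => (Nat.prime_of_mem_primeFactors hp).prime)
      (fun p hp => h p hp)
  · intro h q hq
    exact (Nat.dvd_of_mem_primeFactors hq).trans h

/-- `∏_{q ∣ d} 1/(q - 1) = 1/φ(d)` for squarefree `d`. -/
theorem prod_gq (d : ℕ) (hd : Squarefree d) :
    ∏ q ∈ d.primeFactors, H59C.gq q = 1 / (Nat.totient d : ℝ) := by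
  have h0 : 0 < d := Nat.pos_of_ne_zero hd.ne_zero
  have h1 := Nat.totient_mul_prod_primeFactors d
  rw [Nat.prod_primeFactors_of_squarefree hd, mul_comm d] at h1
  have h2 := Nat.eq_of_mul_eq_mul_right h0 h1
  rw [h2]
  push_cast
  unfold H59C.gq
  rw [Finset.prod_div_distrib, Finset.prod_const_one]
  congr 1
  refine Finset.prod_congr rfl fun q hq => ?_
  rw [Nat.cast_sub (Nat.prime_of_mem_primeFactors hq).one_le, Nat.cast_one]

end Pool.Agent.Lib.H57C
end

-- from Lib.H57C.X3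
section

/-!
# Chunk X3: expansion of the weight function `L`
-/

open Finset

namespace Pool.Agent.Lib.H57C

open Pool.Agent.Lib.H15P Pool.Agent.Lib.H92G Pool.Agent.Lib.H57M

/-- The coefficients of the factor with label `o`. -/
noncomputable def x3_e {ι I : Type} [DecidableEq ι] (g : I → Finset ι → ℝ) : Option I → Finset ι → ℝ
  | none, T => if T = ∅ then 1 else 0
  | some i, T => g i T

/-- The level of the factor with label `o`. -/
noncomputable def x3_lv {I : Type} (lvs : I → ℝ) : Option I → ℝ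
  | none => 1
  | some i => lvs i

theorem x3_prod_lv {J I : Type} [Fintype J] [DecidableEq J] [Fintype I] [DecidableEq I] (lvs : I → ℝ)
    (l : J → Option I) : ∏ j, x3_lv lvs (l j) = ∏ i, lvs i ^ cnt l i := by
  rw [← Finset.prod_fiberwise univ l (fun j => x3_lv lvs (l j)), Fintype.prod_option]
  have h1 : ∏ j ∈ univ.filter (fun j => l j = none), x3_lv lvs (l j) = 1 := by
    refine Finset.prod_eq_one fun j hj => ?_
    rw [(Finset.mem_filter.1 hj).2]
    rfl
  rw [h1, one_mul]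
  refine Finset.prod_congr rfl fun i _ => ?_
  have h2 : ∏ j ∈ univ.filter (fun j => l j = some i), x3_lv lvs (l j) =
      ∏ j ∈ univ.filter (fun j => l j = some i), lvs i := by
    refine Finset.prod_congr rfl fun j hj => ?_
    rw [(Finset.mem_filter.1 hj).2]
    rfl
  rw [h2, Finset.prod_const]
  rfl

theorem x3_adm {J I : Type} [Fintype J] [DecidableEq J] [Fintype I] [DecidableEq I]
    {B : Finset J} {m : I → ℕ} {l : J → Option I} (hl : l ∈ adm B m) (i : I) : cnt l i ≤ m i :=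
  (Finset.mem_filter.1 hl).2.2 i

/-- Proof. `w.L S = ∑_{l ∈ adm univ m} ∏_j dg D j (l j) (S j)` (`Par.L`, `LG`, `LW`, `dg`). The factor with label `none` is
`1 = ∑_{T ⊆ A} 1[T = ∅]`, the factor with label `some i` is `D i A = ∑_{T ⊆ A} g_i(T)`, `|g_i| ≤ C`. Multiply out
(`Finset.prod_univ_sum` over `Fintype.piFinset (fun j => (S j).powerset)`): for every `l` the coefficient of `U : J → Finset`
is a product of `K` factors, each at most `C` in absolute value (`1 ≤ C`), there are at most `(n + 1)^K` labelings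
(`Fintype.card (J → Option (Fin n))`); and if it is not `0` then
`∏_j ∏_{p ∈ U_j} p ≤ ∏_{j : l j = some i} lvs i = ∏_i (lvs i)^(cnt l i) ≤ ∏_i (lvs i)^(m i)` (`lvs ≥ 1`, `adm`).
`E = 1`: `(1:ℝ)^_ = 1`. -/
theorem exJ_L {K : ℕ} (w : Par K) (C : ℝ) (hC : 1 ≤ C) (lvs : Fin w.n → ℝ)
    (h1 : ∀ i, 1 ≤ lvs i) (hE : ∀ i, Ex1 w.P (w.D i) C (lvs i))
    (J : Type) [Fintype J] [DecidableEq J] (hJ : Fintype.card J = K) :
    ExJ w.P (fun S : J → Finset {p // p ∈ w.P} => w.L S)
      ((((w.n : ℝ) + 1) * C) ^ K) 1 (∏ i, lvs i ^ w.m i) := by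
  choose g hg1 hg2 hg3 using hE
  have hdg : ∀ (j : J) (o : Option (Fin w.n)) (A : Finset {p // p ∈ w.P}),
      dg (fun _ : J => w.D) j o A = ∑ T ∈ A.powerset, x3_e g o T := by
    intro j o A
    cases o with
    | none =>
      show (1 : ℝ) = ∑ T ∈ A.powerset, (if T = ∅ then 1 else 0)
      rw [Finset.sum_ite_eq' A.powerset ∅ (fun _ => (1 : ℝ))]
      simp
    | some i => exact hg1 i A
  have heb : ∀ (o : Option (Fin w.n)) (T : Finset {p // p ∈ w.P}), |x3_e g o T| ≤ C := by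
    intro o T
    cases o with
    | none =>
      show |(if T = ∅ then (1 : ℝ) else 0)| ≤ C
      split_ifs
      · simpa using hC
      · simpa using le_trans zero_le_one hC
    | some i => exact hg2 i T
  have hel : ∀ (o : Option (Fin w.n)) (T : Finset {p // p ∈ w.P}), x3_e g o T ≠ 0 →
      (∏ p ∈ T, (p.1 : ℝ)) ≤ x3_lv lvs o := by
    intro o T h
    cases o with
    | none =>
      have hT : T = ∅ := by
        by_contra hT
        exact h (if_neg hT)
      subst hT
      simp [x3_lv]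
    | some i => exact hg3 i T h
  refine ⟨fun U => ∑ l ∈ adm univ w.m, ∏ j, x3_e g (l j) (U j), ?_, ?_, ?_⟩
  · intro S
    have e1 : (∑ U : J → Finset {p // p ∈ w.P},
        if ∀ j, U j ⊆ S j then ∑ l ∈ adm univ w.m, ∏ j, x3_e g (l j) (U j) else 0) =
        ∑ U ∈ Fintype.piFinset (fun j => (S j).powerset), ∑ l ∈ adm univ w.m, ∏ j, x3_e g (l j) (U j) := by
      rw [← Finset.sum_filter]
      refine Finset.sum_congr ?_ fun _ _ => rfl
      ext U
      simp [Fintype.mem_piFinset]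
    rw [e1, Finset.sum_comm]
    show LW (fun _ : J => w.D) (adm univ w.m) (fun _ => 1) S = _
    unfold LW
    refine Finset.sum_congr rfl fun l _ => ?_
    rw [one_mul]
    have e2 : ∏ j, dg (fun _ : J => w.D) j (l j) (S j) = ∏ j, ∑ T ∈ (S j).powerset, x3_e g (l j) T :=
      Finset.prod_congr rfl fun j _ => hdg j (l j) (S j)
    rw [e2, Finset.prod_univ_sum]
  · intro U
    have hn : (0 : ℝ) ≤ (w.n : ℝ) + 1 := by positivity
    have hC0 : (0 : ℝ) ≤ C := by linarith
    calc |∑ l ∈ adm univ w.m, ∏ j, x3_e g (l j) (U j)| ≤ ∑ l ∈ adm univ w.m, |∏ j, x3_e g (l j) (U j)| :=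
          Finset.abs_sum_le_sum_abs _ _
      _ ≤ ∑ l ∈ adm univ w.m, C ^ K := by
          refine Finset.sum_le_sum fun l _ => ?_
          rw [Finset.abs_prod]
          calc ∏ j, |x3_e g (l j) (U j)| ≤ ∏ _j : J, C :=
                Finset.prod_le_prod (fun _ _ => abs_nonneg _) fun j _ => heb (l j) (U j)
            _ = C ^ K := by rw [Finset.prod_const, Finset.card_univ, hJ]
      _ = ((adm univ w.m : Finset (J → Option (Fin w.n))).card : ℝ) * C ^ K := by
          rw [Finset.sum_const, nsmul_eq_mul]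
      _ ≤ ((w.n : ℝ) + 1) ^ K * C ^ K := by
          refine mul_le_mul_of_nonneg_right ?_ (pow_nonneg hC0 K)
          have hc : (adm univ w.m : Finset (J → Option (Fin w.n))).card ≤ (w.n + 1) ^ K := by
            calc (adm univ w.m : Finset (J → Option (Fin w.n))).card ≤ Fintype.card (J → Option (Fin w.n)) :=
                  Finset.card_le_univ _
              _ = (w.n + 1) ^ K := by simp [hJ]
          exact_mod_cast hc
      _ = (((w.n : ℝ) + 1) * C) ^ K * ((1 : ℕ) : ℝ) ^ (∑ j, (U j).card) := by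
          rw [mul_pow]; simp
  · intro U hU
    obtain ⟨l, hl, hne⟩ := Finset.exists_ne_zero_of_sum_ne_zero hU
    have hl2 := x3_adm hl
    calc (∏ j, ∏ p ∈ U j, (p.1 : ℝ)) ≤ ∏ j, x3_lv lvs (l j) := by
          refine Finset.prod_le_prod (fun j _ => Finset.prod_nonneg fun p _ => by positivity) fun j _ => ?_
          exact hel (l j) (U j) (Finset.prod_ne_zero_iff.1 hne j (Finset.mem_univ j))
      _ = ∏ i, lvs i ^ cnt l i := x3_prod_lv lvs l
      _ ≤ ∏ i, lvs i ^ w.m i := by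
          refine Finset.prod_le_prod (fun i _ => pow_nonneg (by linarith [h1 i]) _) fun i _ => ?_
          exact pow_le_pow_right₀ (h1 i) (hl2 i)

end Pool.Agent.Lib.H57C
end

-- from Lib.H57C.X4
section

/-!
# Chunk X4: expansion of a square
-/

open Finset

namespace Pool.Agent.Lib.H57C

open Pool.Agent.Lib.H15P Pool.Agent.Lib.H92G Pool.Agent.Lib.H57M

theorem x4_card {α : Type} [Fintype α] [DecidableEq α] (V : Finset α) :
    ((univ : Finset (Finset α × Finset α)).filter (fun x => x.1 ∪ x.2 = V)).card ≤ 3 ^ V.card := by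
  have h1 : (V.powerset.sigma (fun A => A.powerset)).card = 3 ^ V.card := by
    rw [Finset.card_sigma]
    simp only [Finset.card_powerset]
    have := Finset.prod_one_add (f := fun _ : α => (2 : ℕ)) V
    simp only [Finset.prod_const] at this
    rw [← this]
  rw [← h1]
  refine Finset.card_le_card_of_injOn (fun x => ⟨x.1, x.1 ∩ x.2⟩) ?_ ?_
  · intro x hx
    have hx' := (Finset.mem_filter.1 (Finset.mem_coe.1 hx)).2
    refine Finset.mem_coe.2 (Finset.mem_sigma.2 ⟨?_, ?_⟩)
    · rw [Finset.mem_powerset, ← hx']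
      exact Finset.subset_union_left
    · rw [Finset.mem_powerset]
      exact Finset.inter_subset_left
  · rintro ⟨A, B⟩ hx ⟨A', B'⟩ hx' h
    have e1 := (Finset.mem_filter.1 (Finset.mem_coe.1 hx)).2
    have e2 := (Finset.mem_filter.1 (Finset.mem_coe.1 hx')).2
    simp only [Sigma.mk.injEq] at h e1 e2
    obtain ⟨h1, h2⟩ := h
    subst h1
    have h3 := eq_of_heq h2
    congr 1
    ext y
    have f1 := Finset.ext_iff.1 h3 y
    have f2 := Finset.ext_iff.1 (e1.trans e2.symm) y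
    simp only [Finset.mem_inter, Finset.mem_union] at f1 f2
    tauto

theorem x4_cardJ {J α : Type} [Fintype J] [DecidableEq J] [Fintype α] [DecidableEq α]
    (V : J → Finset α) :
    ∑ U : J → Finset α, ∑ U' : J → Finset α, (if ∀ j, U j ∪ U' j = V j then (1 : ℝ) else 0) ≤
      3 ^ (∑ j, (V j).card) := by
  classical
  rw [← Finset.sum_product', ← Finset.prod_pow_eq_pow_sum]
  have h1 : ∑ x ∈ (univ : Finset (J → Finset α)) ×ˢ (univ : Finset (J → Finset α)),
      (if ∀ j, x.1 j ∪ x.2 j = V j then (1 : ℝ) else 0) =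
      ((Fintype.piFinset (fun j => (univ : Finset (Finset α × Finset α)).filter
        (fun x => x.1 ∪ x.2 = V j))).card : ℝ) := by
    rw [Finset.sum_boole]
    congr 1
    refine Finset.card_nbij' (fun x j => (x.1 j, x.2 j)) (fun y => (fun j => (y j).1, fun j => (y j).2))
      ?_ ?_ ?_ ?_
    · intro x hx
      have hx' := (Finset.mem_filter.1 (Finset.mem_coe.1 hx)).2
      refine Finset.mem_coe.2 (Fintype.mem_piFinset.2 fun j => ?_)
      rw [Finset.mem_filter]
      exact ⟨Finset.mem_univ _, hx' j⟩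
    · intro y hy
      have hy' := Fintype.mem_piFinset.1 (Finset.mem_coe.1 hy)
      refine Finset.mem_coe.2 (Finset.mem_filter.2 ⟨by simp, fun j => ?_⟩)
      exact (Finset.mem_filter.1 (hy' j)).2
    · intro x _
      rfl
    · intro y _
      rfl
  rw [h1, Fintype.card_piFinset]
  push_cast
  refine Finset.prod_le_prod (fun j _ => by positivity) fun j _ => ?_
  exact_mod_cast x4_card (V j)

/-- Proof. `F(S)^2 = ∑_{U, U' ⊆ S} c(U) c(U')`; the new coefficient of `V` is `a ∑_{U ∪ U' = V} c(U) c(U')` (union for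
every `j`). The number of the pairs with union `V` is `∏_j 3^|V_j|` (every element of `V_j` is in `U_j` only, in `U'_j` only, or
in both), and `∏_{V} p ≤ ∏_U p ∏_{U'} p ≤ D^2` (primes are `≥ 1`). -/
theorem exJ_sq {J : Type} [Fintype J] [DecidableEq J] (P : Finset ℕ) (hP : ∀ p ∈ P, p.Prime)
    (F : (J → Finset {p // p ∈ P}) → ℝ) (C D : ℝ) (hC : 0 ≤ C) (hD : 0 ≤ D)
    (h : ExJ P F C 1 D) (a : ℝ) (ha0 : 0 ≤ a) (ha : a ≤ 1) :
    ExJ P (fun S => a * F S ^ 2) (C ^ 2) 3 (D ^ 2) := by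
  obtain ⟨c, h1, h2, h3⟩ := h
  have h2' : ∀ U, |c U| ≤ C := by
    intro U
    have := h2 U
    simpa using this
  refine ⟨fun V => a * ∑ U : J → Finset {p // p ∈ P}, ∑ U' : J → Finset {p // p ∈ P},
    if ∀ j, U j ∪ U' j = V j then c U * c U' else 0, ?_, ?_, ?_⟩
  · intro S
    simp only
    rw [h1 S, sq, Finset.sum_mul_sum]
    have e1 : ∀ V : J → Finset {p // p ∈ P},
        (if ∀ j, V j ⊆ S j then a * ∑ U : J → Finset {p // p ∈ P}, ∑ U' : J → Finset {p // p ∈ P},
          (if ∀ j, U j ∪ U' j = V j then c U * c U' else 0) else 0) =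
        a * ∑ U : J → Finset {p // p ∈ P}, ∑ U' : J → Finset {p // p ∈ P},
          (if (fun j => U j ∪ U' j) = V then (if ∀ j, V j ⊆ S j then c U * c U' else 0) else 0) := by
      intro V
      by_cases hV : ∀ j, V j ⊆ S j
      · simp only [if_pos hV, funext_iff]
      · simp [if_neg hV]
    rw [Finset.sum_congr rfl fun V _ => e1 V, ← Finset.mul_sum]
    congr 1
    have e5 : ∑ V : J → Finset {p // p ∈ P}, ∑ U : J → Finset {p // p ∈ P},
        ∑ U' : J → Finset {p // p ∈ P},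
          (if (fun j => U j ∪ U' j) = V then (if ∀ j, V j ⊆ S j then c U * c U' else 0) else 0) =
        ∑ U : J → Finset {p // p ∈ P}, ∑ U' : J → Finset {p // p ∈ P},
          ∑ V : J → Finset {p // p ∈ P},
          (if (fun j => U j ∪ U' j) = V then (if ∀ j, V j ⊆ S j then c U * c U' else 0) else 0) := by
      rw [Finset.sum_comm]
      exact Finset.sum_congr rfl fun U _ => Finset.sum_comm
    rw [e5]
    refine Finset.sum_congr rfl fun U _ => Finset.sum_congr rfl fun U' _ => ?_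
    rw [Finset.sum_ite_eq, if_pos (Finset.mem_univ _)]
    by_cases hU : ∀ j, U j ⊆ S j
    · by_cases hU' : ∀ j, U' j ⊆ S j
      · rw [if_pos hU, if_pos hU', if_pos fun j => Finset.union_subset (hU j) (hU' j)]
      · have hU2 : ¬ ∀ j, U j ∪ U' j ⊆ S j := fun hh =>
          hU' fun j => (Finset.subset_union_right (s₁ := U j)).trans (hh j)
        rw [if_neg hU', if_neg hU2, mul_zero]
    · have hU2 : ¬ ∀ j, U j ∪ U' j ⊆ S j := fun hh =>
        hU fun j => (Finset.subset_union_left (s₂ := U' j)).trans (hh j)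
      rw [if_neg hU, if_neg hU2, zero_mul]
  · intro V
    simp only
    rw [abs_mul, abs_of_nonneg ha0]
    have e2 : |∑ U : J → Finset {p // p ∈ P}, ∑ U' : J → Finset {p // p ∈ P},
        (if ∀ j, U j ∪ U' j = V j then c U * c U' else 0)| ≤
        C ^ 2 * ∑ U : J → Finset {p // p ∈ P}, ∑ U' : J → Finset {p // p ∈ P},
          (if ∀ j, U j ∪ U' j = V j then (1 : ℝ) else 0) := by
      rw [Finset.mul_sum]
      refine (Finset.abs_sum_le_sum_abs _ _).trans (Finset.sum_le_sum fun U _ => ?_)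
      rw [Finset.mul_sum]
      refine (Finset.abs_sum_le_sum_abs _ _).trans (Finset.sum_le_sum fun U' _ => ?_)
      split_ifs
      · rw [abs_mul, mul_one, sq]
        exact mul_le_mul (h2' U) (h2' U') (abs_nonneg _) hC
      · simp
    have e3 := x4_cardJ V
    have e4 : (0 : ℝ) ≤ |∑ U : J → Finset {p // p ∈ P}, ∑ U' : J → Finset {p // p ∈ P},
        (if ∀ j, U j ∪ U' j = V j then c U * c U' else 0)| := abs_nonneg _
    calc a * |∑ U : J → Finset {p // p ∈ P}, ∑ U' : J → Finset {p // p ∈ P},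
        (if ∀ j, U j ∪ U' j = V j then c U * c U' else 0)| ≤ 1 * (C ^ 2 *
          ∑ U : J → Finset {p // p ∈ P}, ∑ U' : J → Finset {p // p ∈ P},
          (if ∀ j, U j ∪ U' j = V j then (1 : ℝ) else 0)) := mul_le_mul ha e2 e4 (by norm_num)
      _ ≤ C ^ 2 * ((3 : ℕ) : ℝ) ^ (∑ j, (V j).card) := by
          rw [one_mul]
          push_cast
          exact mul_le_mul_of_nonneg_left e3 (by positivity)
  · intro V hV
    simp only at hV
    have hV' := right_ne_zero_of_mul hV
    obtain ⟨U, -, hU⟩ := Finset.exists_ne_zero_of_sum_ne_zero hV'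
    obtain ⟨U', -, hU'⟩ := Finset.exists_ne_zero_of_sum_ne_zero hU
    by_cases hj : ∀ j, U j ∪ U' j = V j
    · rw [if_pos hj] at hU'
      have g1 := h3 U (left_ne_zero_of_mul hU')
      have g2 := h3 U' (right_ne_zero_of_mul hU')
      have p1 : ∀ p : {p // p ∈ P}, (1 : ℝ) ≤ (p.1 : ℝ) := fun p => by
        exact_mod_cast (hP p.1 p.2).one_lt.le
      have p0 : ∀ W : J → Finset {p // p ∈ P}, 0 ≤ ∏ j, ∏ p ∈ W j, (p.1 : ℝ) := fun W =>
        Finset.prod_nonneg fun j _ => Finset.prod_nonneg fun p _ => by linarith [p1 p]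
      calc ∏ j, ∏ p ∈ V j, (p.1 : ℝ) ≤ ∏ j, ((∏ p ∈ U j, (p.1 : ℝ)) * ∏ p ∈ U' j, (p.1 : ℝ)) := by
            refine Finset.prod_le_prod (fun j _ => Finset.prod_nonneg fun p _ => by linarith [p1 p])
              fun j _ => ?_
            rw [← hj j, ← Finset.prod_union_inter]
            refine le_mul_of_one_le_right (Finset.prod_nonneg fun p _ => by linarith [p1 p]) ?_
            have : ∏ p ∈ U j ∩ U' j, (1 : ℝ) ≤ ∏ p ∈ U j ∩ U' j, (p.1 : ℝ) :=
              Finset.prod_le_prod (fun _ _ => by norm_num) fun p _ => p1 p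
            simpa using this
        _ = (∏ j, ∏ p ∈ U j, (p.1 : ℝ)) * ∏ j, ∏ p ∈ U' j, (p.1 : ℝ) := Finset.prod_mul_distrib
        _ ≤ D * D := mul_le_mul g1 g2 (p0 U') hD
        _ = D ^ 2 := (sq D).symm
    · rw [if_neg hj] at hU'
      exact absurd rfl hU'

end Pool.Agent.Lib.H57C
end

-- from Lib.H57M.B3
section

/-!
# Chunk B3: second moments of the weight function with prescribed prime divisors
-/

open Finset

namespace Pool.Agent.Lib.H57M

open Pool.Agent.Lib.H15P Pool.Agent.Lib.H92G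

variable {K : ℕ} {J : Type} [Fintype J] [DecidableEq J]

/-- Cauchy-Schwarz over the labelings: `L^2 ≤ #(labelings) ∑_l ∏_j dg^2`, with at most
`(n + 1)^K` labelings (`sq_sum_le_card_mul_sum_sq`). Mean value of the product by `EX_prod`:
`∏_j ex (dg(l_j)^2 1[T_j ⊆ A])`, at most `Dt^|T_j| ∏_{T_j} q · (1 or s i)` for the label `none` or `i`
(for `none`: `ex 1[T ⊆ A] = ∏_T q`, `tr3_ex_subset`; `Par.tilt`). Sum over all functions
`l : J → Option (Fin n)` = product over `j` of the sums, each at most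
`(1 + ∑ s) Dt^|T_j| ∏ q ≤ 2 Dt^|T_j| ∏ q`. -/
theorem Par.EX_tilt (w : Par K) (hJ : Fintype.card J = K) (T : J → Finset {p // p ∈ w.P}) :
    EX (qq w.P K) (fun S : J → Finset {p // p ∈ w.P} =>
        w.L S ^ 2 * ∏ j, (if T j ⊆ S j then 1 else 0))
      ≤ w.CL * w.Dt ^ (∑ j, (T j).card) * ∏ j, ∏ p ∈ T j, qq w.P K p := by
  classical
  have hq0 : ∀ i, 0 ≤ qq w.P K i := w.good.q0
  have hq1 : ∀ i, qq w.P K i ≤ 1 := w.good.q1
  set q := qq w.P K with hq
  set D : J → Fin w.n → Finset {p // p ∈ w.P} → ℝ := fun _ => w.D with hD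
  have hDt0 : 0 ≤ w.Dt := zero_le_one.trans w.Dt1
  -- the cardinality of the set of the labelings
  have hcard : ((Fintype.card (J → Option (Fin w.n)) : ℕ) : ℝ) = ((w.n : ℝ) + 1) ^ K := by
    rw [Fintype.card_fun, Fintype.card_option, Fintype.card_fin, hJ]
    push_cast
    rfl
  -- pointwise bound
  have hpt : ∀ S : J → Finset {p // p ∈ w.P},
      w.L S ^ 2 * ∏ j, (if T j ⊆ S j then (1 : ℝ) else 0) ≤
      ((w.n : ℝ) + 1) ^ K * ∑ l : J → Option (Fin w.n),
        ∏ j, (dg D j (l j) (S j) ^ 2 * (if T j ⊆ S j then (1 : ℝ) else 0)) := by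
    intro S
    have h1 : w.L S = ∑ l ∈ adm (univ : Finset J) w.m, ∏ j, dg D j (l j) (S j) := by
      unfold Par.L LG LW
      simp only [one_mul, hD]
    have h2 : w.L S ^ 2 ≤ ((w.n : ℝ) + 1) ^ K * ∑ l : J → Option (Fin w.n),
        ∏ j, dg D j (l j) (S j) ^ 2 := by
      rw [h1]
      refine (sq_sum_le_card_mul_sum_sq).trans ?_
      have h3 : ((adm (univ : Finset J) w.m).card : ℝ) ≤ ((w.n : ℝ) + 1) ^ K := by
        rw [← hcard]
        exact_mod_cast Finset.card_le_univ _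
      have h4 : ∑ l ∈ adm (univ : Finset J) w.m, (∏ j, dg D j (l j) (S j)) ^ 2 ≤
          ∑ l : J → Option (Fin w.n), ∏ j, dg D j (l j) (S j) ^ 2 := by
        refine (Finset.sum_le_univ_sum_of_nonneg fun l => sq_nonneg _).trans (le_of_eq ?_)
        exact Finset.sum_congr rfl fun l _ => by rw [Finset.prod_pow]
      exact mul_le_mul h3 h4 (Finset.sum_nonneg fun l _ => sq_nonneg _) (by positivity)
    have h5 : (0 : ℝ) ≤ ∏ j, (if T j ⊆ S j then (1 : ℝ) else 0) :=
      Finset.prod_nonneg fun j _ => by split_ifs <;> norm_num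
    refine (mul_le_mul_of_nonneg_right h2 h5).trans (le_of_eq ?_)
    rw [mul_assoc, Finset.sum_mul]
    congr 1
    exact Finset.sum_congr rfl fun l _ => by rw [Finset.prod_mul_distrib]
  refine (EX_mono q hq0 hq1 _ _ hpt).trans ?_
  rw [EX_const_mul, EX_sum]
  -- each labeling
  set B : J → ℝ := fun j => w.Dt ^ (T j).card * ∏ p ∈ T j, q p with hB
  have hB0 : ∀ j, 0 ≤ B j := fun j =>
    mul_nonneg (pow_nonneg hDt0 _) (Finset.prod_nonneg fun p _ => hq0 p)
  set σ : Option (Fin w.n) → ℝ := fun o => match o with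
    | none => 1
    | some i => w.s i with hσ
  have hσ0 : ∀ o, 0 ≤ σ o := by
    rintro (_ | i)
    · exact zero_le_one
    · exact w.s0 i
  have hone : ∀ (j : J) (o : Option (Fin w.n)),
      ex q (fun A => dg D j o A ^ 2 * (if T j ⊆ A then (1 : ℝ) else 0)) ≤ B j * σ o := by
    intro j o
    rcases o with _ | i
    · have e1 : (fun A => dg D j (none : Option (Fin w.n)) A ^ 2 * (if T j ⊆ A then (1 : ℝ) else 0)) =
          fun A => (if T j ⊆ A then (1 : ℝ) else 0) := by
        funext A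
        simp only [dg, one_pow, one_mul]
      rw [e1, tr3_ex_subset]
      have h1 : (1 : ℝ) ≤ w.Dt ^ (T j).card := one_le_pow₀ w.Dt1
      have h2 : (0 : ℝ) ≤ ∏ p ∈ T j, q p := Finset.prod_nonneg fun p _ => hq0 p
      show ∏ p ∈ T j, q p ≤ w.Dt ^ (T j).card * (∏ p ∈ T j, q p) * 1
      nlinarith
    · exact w.tilt i (T j)
  have hlab : ∀ l : J → Option (Fin w.n),
      EX q (fun S : J → Finset {p // p ∈ w.P} =>
        ∏ j, (dg D j (l j) (S j) ^ 2 * (if T j ⊆ S j then (1 : ℝ) else 0))) ≤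
      ∏ j, (B j * σ (l j)) := by
    intro l
    rw [EX_prod q (fun j A => dg D j (l j) A ^ 2 * (if T j ⊆ A then (1 : ℝ) else 0))]
    refine Finset.prod_le_prod (fun j _ => ex_nonneg q hq0 hq1 _ fun A => ?_) fun j _ => hone j (l j)
    refine mul_nonneg (sq_nonneg _) ?_
    split_ifs <;> norm_num
  have hsum : ∑ l : J → Option (Fin w.n),
      EX q (fun S : J → Finset {p // p ∈ w.P} =>
        ∏ j, (dg D j (l j) (S j) ^ 2 * (if T j ⊆ S j then (1 : ℝ) else 0))) ≤
      2 ^ K * ∏ j, B j := by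
    refine (Finset.sum_le_sum fun l _ => hlab l).trans ?_
    have h1 := Finset.prod_univ_sum (fun _ : J => (univ : Finset (Option (Fin w.n))))
      (fun j o => B j * σ o)
    rw [Fintype.piFinset_univ] at h1
    rw [← h1]
    have h2 : ∀ j, ∑ o, B j * σ o ≤ 2 * B j := by
      intro j
      rw [← Finset.mul_sum, Fintype.sum_option]
      have h3 : σ none + ∑ i, σ (some i) ≤ 2 := by
        show 1 + ∑ i, w.s i ≤ 2
        linarith [w.hs]
      nlinarith [hB0 j]
    refine (Finset.prod_le_prod (fun j _ => Finset.sum_nonneg fun o _ =>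
      mul_nonneg (hB0 j) (hσ0 o)) fun j _ => h2 j).trans (le_of_eq ?_)
    rw [Finset.prod_mul_distrib, Finset.prod_const, Finset.card_univ, hJ]
  refine (mul_le_mul_of_nonneg_left hsum (by positivity)).trans (le_of_eq ?_)
  have h1 : ∏ j, B j = w.Dt ^ (∑ j, (T j).card) * ∏ j, ∏ p ∈ T j, q p := by
    rw [hB, Finset.prod_mul_distrib, Finset.prod_pow_eq_pow_sum]
  rw [h1, Par.CL, mul_pow]
  ring

theorem B3_EX_add {ι : Type} [Fintype ι] [DecidableEq ι] (q : ι → ℝ) (F G : (J → Finset ι) → ℝ) :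
    EX q (fun S => F S + G S) = EX q F + EX q G := by
  unfold EX
  rw [← Finset.sum_add_distrib]
  exact Finset.sum_congr rfl fun S _ => by rw [add_mul]

theorem B3_single (w : Par K) (hJ : Fintype.card J = K) (p : {p // p ∈ w.P}) (j : J) :
    EX (qq w.P K) (fun S : J → Finset {p // p ∈ w.P} =>
        w.L S ^ 2 * (if p ∈ S j then 1 else 0)) ≤ w.CL * w.Dt * qq w.P K p := by
  have h := w.EX_tilt hJ (fun l => if l = j then {p} else ∅)
  have e1 : (fun S : J → Finset {p // p ∈ w.P} => w.L S ^ 2 *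
      ∏ l, (if (if l = j then ({p} : Finset {p // p ∈ w.P}) else ∅) ⊆ S l then (1 : ℝ) else 0)) =
      (fun S : J → Finset {p // p ∈ w.P} => w.L S ^ 2 * (if p ∈ S j then 1 else 0)) := by
    funext S
    rw [Finset.prod_eq_single j]
    · rw [if_pos rfl]
      simp only [Finset.singleton_subset_iff]
    · intro l _ hl
      rw [if_neg hl, if_pos (Finset.empty_subset _)]
    · intro h
      exact absurd (mem_univ j) h
  have e2 : ∑ l, (if l = j then ({p} : Finset {p // p ∈ w.P}) else ∅).card = 1 := by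
    rw [Finset.sum_eq_single j]
    · rw [if_pos rfl, card_singleton]
    · intro l _ hl
      rw [if_neg hl, card_empty]
    · intro h
      exact absurd (mem_univ j) h
  have e3 : ∏ l, ∏ p' ∈ (if l = j then ({p} : Finset {p // p ∈ w.P}) else ∅), qq w.P K p' =
      qq w.P K p := by
    rw [Finset.prod_eq_single j]
    · rw [if_pos rfl, prod_singleton]
    · intro l _ hl
      rw [if_neg hl, prod_empty]
    · intro h
      exact absurd (mem_univ j) h
  rw [e1, e2, e3, pow_one] at h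
  exact h

theorem B3_pair (w : Par K) (hJ : Fintype.card J = K) (p : {p // p ∈ w.P}) (j j' : J) (hjj : j ≠ j') :
    EX (qq w.P K) (fun S : J → Finset {p // p ∈ w.P} =>
        w.L S ^ 2 * (tr3_ind S (j, p) * tr3_ind S (j', p))) ≤ w.CL * w.Dt ^ 2 * qq w.P K p ^ 2 := by
  have h := w.EX_tilt hJ (fun l => if l = j then {p} else if l = j' then {p} else ∅)
  have e1 : (fun S : J → Finset {p // p ∈ w.P} => w.L S ^ 2 *
      ∏ l, (if (if l = j then ({p} : Finset {p // p ∈ w.P}) else if l = j' then {p} else ∅) ⊆ S l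
        then (1 : ℝ) else 0)) =
      (fun S : J → Finset {p // p ∈ w.P} => w.L S ^ 2 * (tr3_ind S (j, p) * tr3_ind S (j', p))) := by
    funext S
    rw [← Finset.mul_prod_erase univ _ (Finset.mem_univ j), if_pos rfl,
      ← Finset.mul_prod_erase (univ.erase j) _
        (Finset.mem_erase.mpr ⟨hjj.symm, Finset.mem_univ j'⟩), if_neg hjj.symm, if_pos rfl]
    rw [Finset.prod_eq_one, mul_one]
    · unfold tr3_ind
      simp only [Finset.singleton_subset_iff]
    · intro l hl
      have h2 := Finset.ne_of_mem_erase hl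
      have h3 := Finset.ne_of_mem_erase (Finset.mem_of_mem_erase hl)
      rw [if_neg h3, if_neg h2, if_pos (Finset.empty_subset _)]
  have e2 : ∑ l, (if l = j then ({p} : Finset {p // p ∈ w.P}) else if l = j' then {p} else ∅).card = 2 := by
    rw [← Finset.add_sum_erase univ _ (Finset.mem_univ j), if_pos rfl,
      ← Finset.add_sum_erase (univ.erase j) _
        (Finset.mem_erase.mpr ⟨hjj.symm, Finset.mem_univ j'⟩), if_neg hjj.symm, if_pos rfl]
    rw [Finset.sum_eq_zero]
    · simp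
    · intro l hl
      have h2 := Finset.ne_of_mem_erase hl
      have h3 := Finset.ne_of_mem_erase (Finset.mem_of_mem_erase hl)
      rw [if_neg h3, if_neg h2, card_empty]
  have e3 : ∏ l, ∏ p' ∈ (if l = j then ({p} : Finset {p // p ∈ w.P}) else if l = j' then {p} else ∅),
      qq w.P K p' = qq w.P K p ^ 2 := by
    rw [← Finset.mul_prod_erase univ _ (Finset.mem_univ j), if_pos rfl,
      ← Finset.mul_prod_erase (univ.erase j) _
        (Finset.mem_erase.mpr ⟨hjj.symm, Finset.mem_univ j'⟩), if_neg hjj.symm, if_pos rfl,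
      prod_singleton]
    rw [Finset.prod_eq_one, mul_one, pow_two]
    intro l hl
    have h2 := Finset.ne_of_mem_erase hl
    have h3 := Finset.ne_of_mem_erase (Finset.mem_of_mem_erase hl)
    rw [if_neg h3, if_neg h2, prod_empty]
  rw [e1, e2, e3] at h
  exact h


/-- `loss ≤ ∑_{j ≠ j'} ∑_p 1[p ∈ S j] 1[p ∈ S j'] + ∑_j ∑_p (2K/p) 1[p ∈ S j]`; `EX_tilt` (two sets
`{p}`, resp. one), `qq ≤ 2/p` (`qq_le`), `∑ 1/p^2 ≤ 1/W` (`sum_inv_sq_le`): at most
`K^2 CL Dt^2 4/W + K CL Dt 4 K/W ≤ 8 K^2 CL Dt^2/W`. -/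
theorem Par.EX_loss (w : Par K) (hJ : Fintype.card J = K) :
    EX (qq w.P K) (fun S : J → Finset {p // p ∈ w.P} => w.L S ^ 2 * loss w.P K S)
      ≤ 8 * (K : ℝ) ^ 2 * w.CL * w.Dt ^ 2 / w.W := by
  classical
  have hK1 : (1 : ℝ) ≤ K := by exact_mod_cast w.Kpos
  have hW1 : 1 ≤ w.W := by
    have h1 := w.KW
    have h2 := w.Kpos
    nlinarith
  have hWr : (1 : ℝ) ≤ w.W := by exact_mod_cast hW1
  have hCL : 0 ≤ w.CL := by
    unfold Par.CL
    positivity
  have hDt : 1 ≤ w.Dt := w.Dt1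
  have hp0 : ∀ i : {p // p ∈ w.P}, (0 : ℝ) < i.1 := fun i => by
    exact_mod_cast (w.prime i.1 i.2).pos
  have hq0 : ∀ i, 0 ≤ qq w.P K i := w.good.q0
  have hq2 : ∀ i, qq w.P K i ≤ 2 / (i.1 : ℝ) := qq_le w.P w.W K w.Kpos w.KW w.big
  have hsq : ∑ i : {p // p ∈ w.P}, 1 / ((i.1 : ℕ) : ℝ) ^ 2 ≤ 1 / (w.W : ℝ) := by
    have h1 := sum_inv_sq_le w.P w.W hW1 w.big
    have h2 : ∑ i : {p // p ∈ w.P}, 1 / ((i.1 : ℕ) : ℝ) ^ 2 = ∑ p ∈ w.P, 1 / (p : ℝ) ^ 2 :=
      Finset.sum_coe_sort w.P (fun p => 1 / (p : ℝ) ^ 2)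
    rw [h2]
    exact h1
  -- pointwise bound
  have hpt : ∀ S : J → Finset {p // p ∈ w.P}, w.L S ^ 2 * loss w.P K S ≤
      (∑ j : J, ∑ j' : J, ∑ i : {p // p ∈ w.P},
        w.L S ^ 2 * (if j = j' then 0 else tr3_ind S (j, i) * tr3_ind S (j', i))) +
      (∑ j : J, ∑ i : {p // p ∈ w.P}, 2 * (K : ℝ) / (i.1 : ℝ) *
        (w.L S ^ 2 * (if i ∈ S j then 1 else 0))) := by
    intro S
    unfold loss
    rw [mul_add]
    refine add_le_add ?_ (le_of_eq ?_)
    · simp only [← Finset.mul_sum]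
      refine mul_le_mul_of_nonneg_left ?_ (sq_nonneg _)
      have hn : ∀ (j j' : J) (i : {p // p ∈ w.P}),
          0 ≤ (if j = j' then (0 : ℝ) else tr3_ind S (j, i) * tr3_ind S (j', i)) := by
        intro j j' i
        unfold tr3_ind
        split_ifs <;> norm_num
      by_cases h : ∃ j j', j ≠ j' ∧ ¬ Disjoint (S j) (S j')
      · rw [if_pos h]
        obtain ⟨j, j', hjj, hd⟩ := h
        rw [Finset.not_disjoint_iff] at hd
        obtain ⟨i, hi, hi'⟩ := hd
        have f1 : (1 : ℝ) = (if j = j' then (0 : ℝ) else tr3_ind S (j, i) * tr3_ind S (j', i)) := by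
          rw [if_neg hjj]
          unfold tr3_ind
          simp [hi, hi']
        rw [f1]
        refine le_trans ?_ (Finset.single_le_sum
          (f := fun j : J => ∑ j' : J, ∑ i : {p // p ∈ w.P},
            (if j = j' then (0 : ℝ) else tr3_ind S (j, i) * tr3_ind S (j', i)))
          (fun a _ => Finset.sum_nonneg fun a' _ => Finset.sum_nonneg fun i _ => hn a a' i)
          (Finset.mem_univ j))
        refine le_trans ?_ (Finset.single_le_sum
          (f := fun j' : J => ∑ i : {p // p ∈ w.P},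
            (if j = j' then (0 : ℝ) else tr3_ind S (j, i) * tr3_ind S (j', i)))
          (fun a' _ => Finset.sum_nonneg fun i _ => hn j a' i)
          (Finset.mem_univ j'))
        exact Finset.single_le_sum
          (f := fun i : {p // p ∈ w.P} =>
            (if j = j' then (0 : ℝ) else tr3_ind S (j, i) * tr3_ind S (j', i)))
          (fun i _ => hn j j' i) (Finset.mem_univ i)
      · rw [if_neg h]
        exact Finset.sum_nonneg fun a _ => Finset.sum_nonneg fun a' _ =>
          Finset.sum_nonneg fun i _ => hn a a' i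
    · rw [Finset.mul_sum]
      refine Finset.sum_congr rfl fun j _ => ?_
      have h1 : ∑ p ∈ S j, 2 * (K : ℝ) / (p.1 : ℝ) =
          ∑ p : {p // p ∈ w.P}, 2 * (K : ℝ) / (p.1 : ℝ) * (if p ∈ S j then 1 else 0) := by
        simp only [mul_ite, mul_one, mul_zero]
        rw [Finset.sum_ite_mem, Finset.univ_inter]
      rw [h1, Finset.mul_sum]
      exact Finset.sum_congr rfl fun i _ => by ring
  refine (EX_mono _ w.good.q0 w.good.q1 _ _ hpt).trans ?_
  rw [B3_EX_add]
  have hA : EX (qq w.P K) (fun S : J → Finset {p // p ∈ w.P} =>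
      ∑ j : J, ∑ j' : J, ∑ i : {p // p ∈ w.P},
        w.L S ^ 2 * (if j = j' then 0 else tr3_ind S (j, i) * tr3_ind S (j', i))) ≤
      4 * (K : ℝ) ^ 2 * w.CL * w.Dt ^ 2 / w.W := by
    rw [EX_sum]
    have h1 : ∀ j j' : J, EX (qq w.P K) (fun S : J → Finset {p // p ∈ w.P} =>
        ∑ i : {p // p ∈ w.P},
        w.L S ^ 2 * (if j = j' then 0 else tr3_ind S (j, i) * tr3_ind S (j', i))) ≤
        4 * w.CL * w.Dt ^ 2 / w.W := by
      intro j j'
      rw [EX_sum]
      have h2 : ∀ i : {p // p ∈ w.P}, EX (qq w.P K) (fun S : J → Finset {p // p ∈ w.P} =>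
          w.L S ^ 2 * (if j = j' then 0 else tr3_ind S (j, i) * tr3_ind S (j', i))) ≤
          4 * w.CL * w.Dt ^ 2 * (1 / ((i.1 : ℕ) : ℝ) ^ 2) := by
        intro i
        by_cases hjj : j = j'
        · have e : (fun S : J → Finset {p // p ∈ w.P} =>
              w.L S ^ 2 * (if j = j' then 0 else tr3_ind S (j, i) * tr3_ind S (j', i))) =
              fun S => 0 * (1 : ℝ) := by
            funext S
            rw [if_pos hjj, mul_zero, zero_mul]
          rw [e, EX_const_mul, zero_mul]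
          positivity
        · have e : (fun S : J → Finset {p // p ∈ w.P} =>
              w.L S ^ 2 * (if j = j' then 0 else tr3_ind S (j, i) * tr3_ind S (j', i))) =
              fun S => w.L S ^ 2 * (tr3_ind S (j, i) * tr3_ind S (j', i)) := by
            funext S
            rw [if_neg hjj]
          rw [e]
          refine (B3_pair w hJ i j j' hjj).trans ?_
          have h3 : qq w.P K i ^ 2 ≤ 4 * (1 / ((i.1 : ℕ) : ℝ) ^ 2) := by
            refine (pow_le_pow_left₀ (hq0 i) (hq2 i) 2).trans (le_of_eq ?_)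
            rw [div_pow]
            ring
          have h4 : 0 ≤ w.CL * w.Dt ^ 2 := by positivity
          nlinarith [mul_le_mul_of_nonneg_left h3 h4]
      refine (Finset.sum_le_sum fun i _ => h2 i).trans ?_
      rw [← Finset.mul_sum]
      have h4 : 0 ≤ 4 * w.CL * w.Dt ^ 2 := by positivity
      refine (mul_le_mul_of_nonneg_left hsq h4).trans (le_of_eq ?_)
      ring
    have h5 : ∀ j : J, EX (qq w.P K) (fun S : J → Finset {p // p ∈ w.P} =>
        ∑ j' : J, ∑ i : {p // p ∈ w.P},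
        w.L S ^ 2 * (if j = j' then 0 else tr3_ind S (j, i) * tr3_ind S (j', i))) ≤
        K * (4 * w.CL * w.Dt ^ 2 / w.W) := by
      intro j
      rw [EX_sum]
      refine (Finset.sum_le_sum fun j' _ => h1 j j').trans (le_of_eq ?_)
      rw [Finset.sum_const, Finset.card_univ, hJ, nsmul_eq_mul]
    refine (Finset.sum_le_sum fun j _ => h5 j).trans (le_of_eq ?_)
    rw [Finset.sum_const, Finset.card_univ, hJ, nsmul_eq_mul]
    ring
  have hB : EX (qq w.P K) (fun S : J → Finset {p // p ∈ w.P} =>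
      ∑ j : J, ∑ i : {p // p ∈ w.P}, 2 * (K : ℝ) / (i.1 : ℝ) *
        (w.L S ^ 2 * (if i ∈ S j then 1 else 0))) ≤
      4 * (K : ℝ) ^ 2 * w.CL * w.Dt / w.W := by
    rw [EX_sum]
    have h1 : ∀ j : J, EX (qq w.P K) (fun S : J → Finset {p // p ∈ w.P} =>
        ∑ i : {p // p ∈ w.P}, 2 * (K : ℝ) / (i.1 : ℝ) *
        (w.L S ^ 2 * (if i ∈ S j then 1 else 0))) ≤ 4 * K * w.CL * w.Dt / w.W := by
      intro j
      rw [EX_sum]
      have h2 : ∀ i : {p // p ∈ w.P}, EX (qq w.P K) (fun S : J → Finset {p // p ∈ w.P} =>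
          2 * (K : ℝ) / (i.1 : ℝ) * (w.L S ^ 2 * (if i ∈ S j then 1 else 0))) ≤
          4 * K * w.CL * w.Dt * (1 / ((i.1 : ℕ) : ℝ) ^ 2) := by
        intro i
        rw [EX_const_mul]
        have h3 := B3_single w hJ i j
        have h4 : w.CL * w.Dt * qq w.P K i ≤ w.CL * w.Dt * (2 / (i.1 : ℝ)) :=
          mul_le_mul_of_nonneg_left (hq2 i) (by positivity)
        have h5 : (0 : ℝ) ≤ 2 * (K : ℝ) / (i.1 : ℝ) := by
          have := hp0 i
          positivity
        refine (mul_le_mul_of_nonneg_left (h3.trans h4) h5).trans (le_of_eq ?_)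
        have := (hp0 i).ne'
        field_simp
        ring
      refine (Finset.sum_le_sum fun i _ => h2 i).trans ?_
      rw [← Finset.mul_sum]
      have h4 : 0 ≤ 4 * K * w.CL * w.Dt := by positivity
      refine (mul_le_mul_of_nonneg_left hsq h4).trans (le_of_eq ?_)
      ring
    refine (Finset.sum_le_sum fun j _ => h1 j).trans (le_of_eq ?_)
    rw [Finset.sum_const, Finset.card_univ, hJ, nsmul_eq_mul]
    ring
  have hB' : 4 * (K : ℝ) ^ 2 * w.CL * w.Dt / w.W ≤ 4 * (K : ℝ) ^ 2 * w.CL * w.Dt ^ 2 / w.W := by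
    refine div_le_div_of_nonneg_right ?_ (by positivity)
    refine mul_le_mul_of_nonneg_left ?_ (by positivity)
    nlinarith
  refine (add_le_add hA (hB.trans hB')).trans (le_of_eq ?_)
  ring

end Pool.Agent.Lib.H57M
end

-- from Lib.H57M.B8
section

/-!
# Chunk B8: the weight in intervals and residue classes: upper bounds
-/

open Finset

namespace Pool.Agent.Lib.H57M

open Pool.Agent.Lib.H15P Pool.Agent.Lib.H92G

variable {K : ℕ} {J : Type} [Fintype J] [DecidableEq J]

theorem B8_sq (w : Par K) (i : Fin w.n) :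
    0 ≤ ex (qq w.P K) (fun A => w.D i A ^ 2) ∧ ex (qq w.P K) (fun A => w.D i A ^ 2) ≤ w.s i := by
  refine ⟨ex_nonneg _ w.good.q0 w.good.q1 _ fun A => sq_nonneg _, ?_⟩
  have h := w.tilt i ∅
  simpa using h

theorem Par.z_bounds (w : Par K) : 1 ≤ w.z ∧ w.z ≤ 2 := by
  unfold Par.z
  have h1 : 0 ≤ ∑ i, ex (qq w.P K) (fun A => w.D i A ^ 2) :=
    Finset.sum_nonneg fun i _ => (B8_sq w i).1
  have h2 : ∑ i, ex (qq w.P K) (fun A => w.D i A ^ 2) ≤ ∑ i, w.s i :=
    Finset.sum_le_sum fun i _ => (B8_sq w i).2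
  have h3 := w.hs
  constructor <;> linarith

omit [DecidableEq J] in
theorem B8_ZG (w : Par K) (hJ : Fintype.card J = K) :
    ZG (qq w.P K) (fun _ : J => w.D) univ = w.z ^ K := by
  unfold ZG Par.z GJ
  rw [Finset.prod_const, Finset.card_univ, hJ]

theorem B8_Qpos (w : Par K) : 0 < ∏ p ∈ w.P, p :=
  Finset.prod_pos fun p hp => (w.prime p hp).pos

theorem B8_exp (w : Par K) (hKW : 200 * K ^ 2 ≤ w.W) :
    Real.exp (2 * (K : ℝ) ^ 2 / w.W) ≤ 11 / 10 := by
  have hK : (1 : ℝ) ≤ K := by exact_mod_cast w.Kpos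
  have hKW' : 200 * (K : ℝ) ^ 2 ≤ w.W := by exact_mod_cast hKW
  have hW : (0 : ℝ) < w.W := by nlinarith
  have h1 : 2 * (K : ℝ) ^ 2 / w.W ≤ 1 / 100 := by
    rw [div_le_iff₀ hW]
    linarith
  refine (Real.exp_le_exp.2 h1).trans ?_
  have h2 := Real.exp_bound' (x := 1 / 100) (by norm_num) (by norm_num) (n := 1) (by norm_num)
  norm_num [Finset.sum_range_succ] at h2
  linarith

/-- `Lev.avg` and `EP_le`. -/
theorem B8_avg (w : Par K) (M : ℕ) (b : J → ℕ) (hF : Forms w.P w.W K M b)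
    (F : (J → Finset {p // p ∈ w.P}) → ℝ) (h0 : ∀ S, 0 ≤ F S) (L : ℝ)
    (hL : Lev (∏ p ∈ w.P, p) (fun t => F (fun j => hit w.P (b j + M * t))) L) (Y : ℕ) :
    ∑ t ∈ range Y, F (fun j => hit w.P (b j + M * t)) ≤
      Y * (Real.exp (2 * (K : ℝ) ^ 2 / w.W) * EX (qq w.P K) F) + 2 * L := by
  have h1 := Lev.avg (B8_Qpos w) hL 0 Y
  rw [zero_add, ← Finset.range_eq_Ico] at h1
  have h2 : EP w.P M b F ≤ Real.exp (2 * (K : ℝ) ^ 2 / w.W) * EX (qq w.P K) F :=
    EP_le w.P w.W K M _ hF F h0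
  have h3 := mul_le_mul_of_nonneg_left h2 (Nat.cast_nonneg Y : (0 : ℝ) ≤ Y)
  have h4 : |∑ t ∈ range Y, F (fun j => hit w.P (b j + M * t)) - Y * EP w.P M b F| ≤ 2 * L := h1
  rw [abs_le] at h4
  linarith [h4.2]

theorem B8_lev (w : Par K) (hJ : Fintype.card J = K) (M : ℕ) (b : J → ℕ) (k : ℕ) :
    Lev (∏ p ∈ w.P, p) (fun t => w.L (fun j => hit w.P (b j + M * t)) ^ k) (w.lv ^ k) :=
  Lev.pow (B8_Qpos w) (w.lev J M b hJ) k


/-- `Lev.avg` for `L^4`, `EP_le`, `EX_LG_four_le2`. -/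
theorem Par.four_le (w : Par K) (hJ : Fintype.card J = K) (M : ℕ) (b : J → ℕ)
    (hF : Forms w.P w.W K M b) (hKW : 200 * K ^ 2 ≤ w.W) (Y : ℕ) :
    ∑ t ∈ range Y, w.L (fun j => hit w.P (b j + M * t)) ^ 4 ≤
      2 * (((w.n : ℝ) + 1) ^ 4 * (1 + w.h)) ^ K * Y + 2 * w.lv ^ 4 := by
  have h1 := B8_avg w M b hF (fun S => w.L S ^ 4) (fun S => by positivity) _
    (B8_lev w hJ M b 4) Y
  have h2 : EX (qq w.P K) (fun S : J → Finset {p // p ∈ w.P} => w.L S ^ 4) ≤
      (((w.n : ℝ) + 1) ^ 4 * (1 + w.h)) ^ K := by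
    have h := EX_LG_four_le2 (qq w.P K) (fun _ : J => w.D) w.h (w.goodJ J) w.h0 w.m
    rw [Fintype.card_fin, hJ] at h
    exact h
  have h3 : 0 ≤ EX (qq w.P K) (fun S : J → Finset {p // p ∈ w.P} => w.L S ^ 4) :=
    EX_nonneg _ w.good.q0 w.good.q1 _ fun S => by positivity
  have h4 : Real.exp (2 * (K : ℝ) ^ 2 / w.W) *
      EX (qq w.P K) (fun S : J → Finset {p // p ∈ w.P} => w.L S ^ 4) ≤
      2 * (((w.n : ℝ) + 1) ^ 4 * (1 + w.h)) ^ K :=
    mul_le_mul ((B8_exp w hKW).trans (by norm_num)) h2 h3 (by norm_num)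
  have h5 := mul_le_mul_of_nonneg_left h4 (Nat.cast_nonneg Y : (0 : ℝ) ≤ Y)
  linarith






end Pool.Agent.Lib.H57M
end
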