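import Pool.Agent.Lib.H1M.RV.M002
import Pool.Agent.Lib.H1M.RV.M029
import Pool.Agent.Lib.H1M.RV.M031
import Pool.Agent.Lib.H1M.RV.M037
import Pool.Agent.Lib.H1M.RV.M039
import Pool.Agent.Lib.H1M.RV.M047
import Pool.Agent.Lib.H1M.RV.M051
import Pool.Agent.Lib.H1M.RV.M052
import Pool.Agent.Lib.H1M.RV.M058

/-! Merged copies (to shorten the build) of Lib.H18Q.HM, Lib.H59C.CPW, Lib.H57C.V5, Lib.H59C.CTO, Lib.H57C.RM, Lib.H59C.CE1, Lib.H92G.W2, Lib.H59C.CW1. -/

-- from Lib.H18Q.HM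
section

/-!
# Project H18Q, chunk HM: half of the classes
-/

open Finset

namespace Pool.Agent.Lib.H18Q

open Pool.Agent.Lib.H68T Pool.Agent.Lib.H18E

open scoped Classical in
/-- If a prime `p` divides `r` and `x`, half of the compatible classes have `ψ(x + y) = -1`.

Proof. By `CM_ex` with `m = r/p` there is a unit `u` modulo `r`, `u ≡ 1` modulo `r/p`, `ψ(u) ≠ 1`, so
`ψ(u) = -1` (`CM_val`). `u x = x` in `ZMod r`: `u = 1 + (r/p) k`, `(r/p) k x = r k (x/p) = 0`. So `y ↦ u y`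
maps the compatible classes (`CM_compat`: units `x + y`, `x - y`) to themselves
(`x ± u y = u (x ± y)`), injectively, and `ψ(x + u y) = -ψ(x + y)`; hence the classes with
`ψ(x + y) = 1` and with `-1` are equally many, and these are all. -/
theorem half_minus (r : ℕ) [NeZero r] (ψ : DirichletCharacter ℂ r) (hψ : ψ.IsPrimitive)
    (h2 : ψ ^ 2 = 1) (p : ℕ) (hp : p.Prime) (hpr : p ∣ r) (x : ℕ) (hx : p ∣ x) :
    ((compat r x).card : ℝ) / 2 ≤
      (((compat r x).filter (fun y : ℕ => ψ ((x : ZMod r) + y) = -1)).card : ℝ) := by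
  classical
  obtain ⟨m, hm⟩ := hpr
  obtain ⟨x', hx'⟩ := hx
  have hr0 : 0 < r := NeZero.pos r
  have hm0 : 0 < m := by
    rcases Nat.eq_zero_or_pos m with h | h
    · rw [h] at hm
      omega
    · exact h
  have hmr : m ∣ r := ⟨p, by rw [hm]; ring⟩
  have hlt : m < r := by
    rw [hm]
    have := hp.two_le
    nlinarith
  obtain ⟨u, hu1, hu2⟩ := CM_ex r ψ hψ m hmr hlt
  have hψu : ψ (u : ZMod r) = -1 := (CM_val r ψ h2 _ u.isUnit).resolve_left hu2
  have hux : (u : ZMod r) * (x : ZMod r) = x := by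
    have h1 : ((u : ZMod r).cast : ZMod m) = 1 := by
      have := congrArg (fun z : (ZMod m)ˣ => (z : ZMod m)) hu1
      simpa [ZMod.unitsMap_def] using this
    rw [ZMod.cast_eq_val] at h1
    have h3 : (((u : ZMod r).val : ℤ) : ZMod m) = ((1 : ℤ) : ZMod m) := by
      push_cast
      exact h1
    rw [ZMod.intCast_eq_intCast_iff_dvd_sub] at h3
    obtain ⟨j, hj⟩ := h3
    have h4 : ((u : ZMod r).val : ℤ) = 1 + (-j) * m := by linarith
    have h5 : (((u : ZMod r).val : ℤ) : ZMod r) = ((1 + (-j) * m : ℤ) : ZMod r) := by rw [h4]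
    have h6 : (u : ZMod r) = ((1 + (-j) * m : ℤ) : ZMod r) := by
      rw [← h5]
      simp
    have hrz : ((p * m : ℕ) : ZMod r) = 0 := by
      rw [← hm]
      exact ZMod.natCast_self r
    push_cast at hrz
    rw [h6, hx']
    push_cast
    calc (1 + -(j : ZMod r) * (m : ZMod r)) * ((p : ZMod r) * (x' : ZMod r))
        = (p : ZMod r) * x' - j * x' * ((p : ZMod r) * (m : ZMod r)) := by ring
      _ = (p : ZMod r) * x' := by rw [hrz, mul_zero, sub_zero]
  have e1 := CM_compat r x (fun _ => True)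
  have e2 := CM_compat r x (fun y => ψ ((x : ZMod r) + y) = -1)
  have e3 := CM_compat r x (fun y => ψ ((x : ZMod r) + y) = 1)
  have e0 : (compat r x).filter (fun _ => True) = compat r x := by
    ext y
    simp
  have hsplit : (compat r x).card = ((compat r x).filter (fun y : ℕ =>
      ψ ((x : ZMod r) + (y : ZMod r)) = 1)).card + ((compat r x).filter (fun y : ℕ =>
      ψ ((x : ZMod r) + (y : ZMod r)) = -1)).card := by
    rw [← card_union_of_disjoint]
    · congr 1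
      ext y
      rw [mem_union, mem_filter, mem_filter]
      constructor
      · intro hy
        have hy' := hy
        rw [compat, mem_filter] at hy'
        have hun : IsUnit ((x : ZMod r) + (y : ZMod r)) := by
          have := ZMod.coe_int_isUnit_iff_isCoprime ((x : ℤ) + y) r
          push_cast at this
          rw [this]
          exact hy'.2.1.symm
        rcases CM_val r ψ h2 _ hun with h | h
        · exact Or.inl ⟨hy, h⟩
        · exact Or.inr ⟨hy, h⟩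
      · rintro (h | h)
        · exact h.1
        · exact h.1
    · rw [Finset.disjoint_filter]
      intro y _ h1 h2'
      rw [h1] at h2'
      norm_num at h2'
  have hle : ((compat r x).filter (fun y : ℕ => ψ ((x : ZMod r) + (y : ZMod r)) = 1)).card ≤
      ((compat r x).filter (fun y : ℕ => ψ ((x : ZMod r) + (y : ZMod r)) = -1)).card := by
    rw [e3, e2]
    refine card_le_card_of_injOn (fun y => (u : ZMod r) * y) ?_ ?_
    · intro y hy
      rw [mem_coe, mem_filter] at hy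
      rw [mem_coe, mem_filter]
      obtain ⟨_, ⟨h3, h4⟩, h5⟩ := hy
      have f1 : (x : ZMod r) + (u : ZMod r) * y = u * ((x : ZMod r) + y) := by
        rw [mul_add, hux]
      have f2 : (x : ZMod r) - (u : ZMod r) * y = u * ((x : ZMod r) - y) := by
        rw [mul_sub, hux]
      refine ⟨mem_univ _, ⟨?_, ?_⟩, ?_⟩
      · rw [f1]
        exact u.isUnit.mul h3
      · rw [f2]
        exact u.isUnit.mul h4
      · rw [f1, map_mul, hψu, h5, mul_one]
    · intro a _ b _ hab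
      exact u.isUnit.mul_left_cancel hab
  have h7 : (compat r x).card ≤ 2 * ((compat r x).filter (fun y : ℕ =>
      ψ ((x : ZMod r) + (y : ZMod r)) = -1)).card := by omega
  have h8 : ((compat r x).card : ℝ) ≤ 2 * (((compat r x).filter (fun y : ℕ =>
      ψ ((x : ZMod r) + (y : ZMod r)) = -1)).card : ℝ) := by exact_mod_cast h7
  linarith

/-- The product of the primes `≥ 7` dividing `r`. -/
noncomputable def rad7 (r : ℕ) : ℕ :=
  ∏ p ∈ r.primeFactors.filter (fun p => 7 ≤ p), p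

theorem hm_rad7_pos (r : ℕ) : 0 < rad7 r := by
  unfold rad7
  refine prod_pos fun p hp => ?_
  rw [mem_filter] at hp
  exact (Nat.prime_of_mem_primeFactors hp.1).pos

theorem hm_dvd_rad7 {r p : ℕ} (hr : r ≠ 0) (hp : p.Prime) (h7 : 7 ≤ p) (hpr : p ∣ r) :
    p ∣ rad7 r := by
  unfold rad7
  refine dvd_prod_of_mem (fun p => p) ?_
  rw [mem_filter]
  exact ⟨hp.mem_primeFactors hpr hr, h7⟩

/-- For a primitive real character modulo `r`: `r ≤ 120 rad7 r` (`sq_not_dvd`, `sixteen_not_dvd` in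
`H18E/CO`: `r = 2^a 3^b 5^c rad7`, `a ≤ 3`, `b, c ≤ 1`). -/
theorem rad7_ge (r : ℕ) [NeZero r] (ψ : DirichletCharacter ℂ r) (hψ : ψ.IsPrimitive)
    (h2 : ψ ^ 2 = 1) : r ≤ 120 * rad7 r := by
  have hr0 : r ≠ 0 := NeZero.ne r
  refine Nat.le_of_dvd (Nat.mul_pos (by norm_num) (hm_rad7_pos r)) ?_
  rw [Nat.dvd_iff_prime_pow_dvd_dvd]
  intro p k hp hk
  rcases Nat.eq_zero_or_pos k with rfl | hk0
  · simp
  have hpr : p ∣ r := (dvd_pow_self p hk0.ne').trans hk
  have hsq : p ≠ 2 → k = 1 := by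
    intro hne
    by_contra hk1
    exact sq_not_dvd r ψ hψ h2 p hp hne ((pow_dvd_pow p (by omega)).trans hk)
  rcases Nat.lt_or_ge p 7 with hp7 | hp7
  · apply Dvd.dvd.mul_right
    have hp2 := hp.two_le
    interval_cases p
    · have hk3 : k ≤ 3 := by
        by_contra h
        have h16 : (16 : ℕ) ∣ 2 ^ k := by
          have : (2 : ℕ) ^ 4 ∣ 2 ^ k := pow_dvd_pow 2 (by omega)
          simpa using this
        exact sixteen_not_dvd r ψ hψ h2 (h16.trans hk)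
      exact (pow_dvd_pow 2 hk3).trans (by norm_num)
    · rw [hsq (by norm_num)]; norm_num
    · exact absurd hp (by norm_num)
    · rw [hsq (by norm_num)]; norm_num
    · exact absurd hp (by norm_num)
  · rw [hsq (by omega), pow_one]
    exact (hm_dvd_rad7 hr0 hp hp7 hpr).mul_left _

/-- `x` is a multiple of `rad7 r`, or some prime `p ≥ 7` divides `r` and not `x`. If `r > 120` then
`rad7 r ≥ 7` (`cond_big`). -/
theorem rad7_dvd (r x : ℕ) : rad7 r ∣ x ∨ ∃ p : ℕ, p.Prime ∧ 7 ≤ p ∧ p ∣ r ∧ ¬ p ∣ x := by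
  by_cases h : ∀ p ∈ r.primeFactors.filter (fun p => 7 ≤ p), p ∣ x
  · left
    unfold rad7
    refine Finset.prod_primes_dvd x (fun p hp => ?_) h
    rw [mem_filter] at hp
    exact (Nat.prime_of_mem_primeFactors hp.1).prime
  · right
    push Not at h
    obtain ⟨p, hp, hpx⟩ := h
    rw [mem_filter] at hp
    exact ⟨p, Nat.prime_of_mem_primeFactors hp.1, hp.2, Nat.dvd_of_mem_primeFactors hp.1, hpx⟩

theorem rad7_seven (r : ℕ) [NeZero r] (ψ : DirichletCharacter ℂ r) (hψ : ψ.IsPrimitive)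
    (h2 : ψ ^ 2 = 1) (hr : 120 < r) : 7 ≤ rad7 r := by
  obtain ⟨p, hp, h7, hpr⟩ := cond_big r ψ hψ h2 hr
  exact h7.trans (Nat.le_of_dvd (hm_rad7_pos r) (hm_dvd_rad7 (NeZero.ne r) hp h7 hpr))

end Pool.Agent.Lib.H18Q
end

-- from Lib.H59C.CPW
section

/-!
# CPW: the pointwise inequality of the weighted sieve
-/

open Finset

namespace Pool.Agent.Lib.H59C

theorem CPW_yy (n : ℕ) : yy n ^ 3 = 2 * n := by
  unfold yy
  rw [← Real.rpow_natCast, ← Real.rpow_mul (by positivity)]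
  norm_num

theorem CPW_yy_le (n : ℕ) (hn : 2 ≤ n) : yy n ≤ n := by
  have hn0 : (2 : ℝ) ≤ n := by exact_mod_cast hn
  have h0 : 0 ≤ yy n := by unfold yy; positivity
  refine le_of_not_gt fun h => ?_
  have h1 : (n : ℝ) ^ 3 < yy n ^ 3 := pow_lt_pow_left₀ h (by linarith) (by norm_num)
  rw [CPW_yy] at h1
  have h2 : (4 : ℝ) ≤ (n : ℝ) ^ 2 := by nlinarith
  have h3 : (n : ℝ) ^ 3 = (n : ℝ) ^ 2 * n := by ring
  nlinarith

theorem CPW_one_le_yy (n : ℕ) (hn : 2 ≤ n) : 1 ≤ yy n := by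
  have hn0 : (2 : ℝ) ≤ n := by exact_mod_cast hn
  unfold yy
  exact Real.one_le_rpow (by linarith) (by norm_num)

/-- `1 < a < 2 n`, `a` odd. -/
theorem CPW_size {n N y1 y2 p : ℕ} (hn : 100 ≤ n) (hW : Win n N y1 y2) (hp : p ∈ Sq y1 y2) :
    1 < Nat.dist N p ∧ Nat.dist N p < 2 * n ∧ ¬ 2 ∣ Nat.dist N p := by
  rw [mem_Sq] at hp
  obtain ⟨⟨h1, h2⟩, hpr⟩ := hp
  have h3 := hW.lo
  have h4 := hW.N2
  have h5 := hW.le
  have hodd : ¬ 2 ∣ p := by
    intro h
    rw [Nat.prime_dvd_prime_iff_eq Nat.prime_two hpr] at h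
    omega
  have h6 := hW.even
  rcases hW.side with ⟨h7, h8⟩ | ⟨h7, h8⟩
  · rw [Nat.dist_eq_sub_of_le_right (by omega)]
    refine ⟨by omega, by omega, by omega⟩
  · rw [Nat.dist_eq_sub_of_le (by omega)]
    refine ⟨by omega, by omega, by omega⟩

open Classical in
/-- Chen's weights.

Proof. `p` is odd (`p > y1 ≥ n/16 ≥ 3`) and `N` even, so `a = |N - p|` is odd; a prime `q ∣ a` with `q ∣ N` divides `p`, so
`q = p ∣ N`: excluded. So every prime factor of `a` is in `PP n N p1` (odd, `≤ a ≤ 2n`; if `q > n`, then `q ≥ zz n` anyway) or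
`≥ zz n`; as no `q ∈ PP`, `q < zz n` divides `a`, all prime factors are `≥ z`. `a` is not divisible by the
square of a prime (they are `≥ z`), `1 < a < 2 n` (`a` odd), so `a` is a product of `Ω ≥ 1` distinct primes `≥ z`. Suppose
`Ω ≥ 3`. Let `r` be the number of its prime factors in `[z, y)`, all are in `QQ` (`q < y ≤ n`). If `r ≥ 2` the bracket is
`≤ 0`. If `r = 0`: `a ≥ y³ = 2n`, contradiction. If `r = 1`: at most two prime factors `≥ y` (three would give `a ≥ z · 2 n`),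
so exactly two, `Tri n a`, and the bracket is `1 - 1/2 - 1/2 = 0`. -/
theorem pointwise : ∃ n0 : ℕ, ∀ n : ℕ, n0 ≤ n → ∀ N y1 y2 p1 : ℕ, Win n N y1 y2 → ∀ p ∈ Sq y1 y2,
    ¬ p ∣ N → ¬ p1 ∣ Nat.dist N p → (∀ q : ℕ, q.Prime → zz n ≤ q → ¬ q ^ 2 ∣ Nat.dist N p) →
    (∀ q ∈ PP n N p1, (q : ℝ) < zz n → ¬ q ∣ Nat.dist N p) →
    0 < 1 - 1 / 2 * (((QQ n N p1).filter (fun q => q ∣ Nat.dist N p)).card : ℝ) -
      1 / 2 * (if Tri n (Nat.dist N p) then 1 else 0) →
    (∀ q : ℕ, q.Prime → q ∣ Nat.dist N p → (n : ℝ) ^ (1 / 10 : ℝ) ≤ q) ∧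
    ((Nat.dist N p).Prime ∨ ∃ r s : ℕ, r.Prime ∧ s.Prime ∧ Nat.dist N p = r * s) := by
  refine ⟨100, fun n hn N y1 y2 p1 hW p hp hpN hp1 hsq hsift hbr => ?_⟩
  obtain ⟨ha1, ha2, hodd⟩ := CPW_size hn hW hp
  have hppr : p.Prime := (mem_Sq.1 hp).2
  have hn1 : (100 : ℝ) ≤ n := by exact_mod_cast hn
  have hzn : zz n ≤ n := by
    unfold zz
    calc (n : ℝ) ^ (1 / 8 : ℝ) ≤ (n : ℝ) ^ (1 : ℝ) :=
          Real.rpow_le_rpow_of_exponent_le (by linarith) (by norm_num)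
      _ = n := Real.rpow_one _
  set a := Nat.dist N p with ha
  -- prime factors
  have hdiv : ∀ q : ℕ, q.Prime → q ∣ a → ¬ q ∣ N := by
    intro q hq hqa hqN
    have h1 : q ∣ p := by
      rcases le_total N p with h | h
      · rw [ha, Nat.dist_eq_sub_of_le h] at hqa
        have h2 := dvd_add hqa hqN
        rwa [Nat.sub_add_cancel h] at h2
      · rw [ha, Nat.dist_eq_sub_of_le_right h] at hqa
        have h2 := Nat.dvd_sub hqN hqa
        rwa [Nat.sub_sub_self h] at h2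
    rw [Nat.prime_dvd_prime_iff_eq hq hppr] at h1
    rw [h1] at hqN
    exact hpN hqN
  have hPP : ∀ q : ℕ, q.Prime → q ∣ a → q ≤ n → q ∈ PP n N p1 := by
    intro q hq hqa hqn
    rw [mem_PP]
    refine ⟨⟨?_, hqn⟩, hq, hdiv q hq hqa, ?_⟩
    · have h2 := hq.two_le
      rcases Nat.lt_or_ge 2 q with h | h
      · exact h
      · have h3 : q = 2 := by omega
        rw [h3] at hqa
        exact absurd hqa hodd
    · rintro rfl
      exact hp1 hqa
  have hz : ∀ q : ℕ, q.Prime → q ∣ a → zz n ≤ q := by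
    intro q hq hqa
    refine le_of_not_gt fun h => ?_
    have hqn : q ≤ n := by
      have : (q : ℝ) ≤ n := by linarith
      exact_mod_cast this
    exact hsift q (hPP q hq hqa hqn) h hqa
  have hsqf : Squarefree a := by
    rw [Nat.squarefree_iff_prime_squarefree]
    intro q hq hqa
    refine hsq q hq (hz q hq (dvd_trans (dvd_mul_right q q) hqa)) ?_
    rwa [pow_two]
  constructor
  · intro q hq hqa
    refine le_trans ?_ (hz q hq hqa)
    unfold zz
    exact Real.rpow_le_rpow_of_exponent_le (by linarith) (by norm_num)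
  -- small and large prime factors
  set A := a.primeFactors.filter (fun q : ℕ => (q : ℝ) < yy n) with hA
  set B := a.primeFactors.filter (fun q : ℕ => ¬ (q : ℝ) < yy n) with hB
  have hprod : (∏ q ∈ A, q) * ∏ q ∈ B, q = a := by
    rw [hA, hB, Finset.prod_filter_mul_prod_filter_not a.primeFactors (fun q : ℕ => (q : ℝ) < yy n)]
    exact Nat.prod_primeFactors_of_squarefree hsqf
  have hAm : ∀ q ∈ A, q.Prime ∧ q ∣ a ∧ (q : ℝ) < yy n := by
    intro q hq
    rw [hA, Finset.mem_filter, Nat.mem_primeFactors] at hq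
    exact ⟨hq.1.1, hq.1.2.1, hq.2⟩
  have hBm : ∀ q ∈ B, q.Prime ∧ q ∣ a ∧ yy n ≤ q := by
    intro q hq
    rw [hB, Finset.mem_filter, Nat.mem_primeFactors] at hq
    exact ⟨hq.1.1, hq.1.2.1, not_lt.1 hq.2⟩
  have hyn := CPW_yy_le n (by omega)
  have hy1 := CPW_one_le_yy n (by omega)
  have hAQ : A ⊆ (QQ n N p1).filter (fun q => q ∣ a) := by
    intro q hq
    obtain ⟨h1, h2, h3⟩ := hAm q hq
    rw [Finset.mem_filter]
    refine ⟨?_, h2⟩
    unfold QQ
    rw [Finset.mem_filter, mem_PR]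
    have hqn : q ≤ n := by
      have : (q : ℝ) ≤ n := by linarith
      exact_mod_cast this
    exact ⟨⟨h1, hz q h1 h2, h3⟩, hPP q h1 h2 hqn⟩
  have hAc : (A.card : ℝ) ≤ (((QQ n N p1).filter (fun q => q ∣ a)).card : ℝ) := by
    exact_mod_cast Finset.card_le_card hAQ
  have hT0 : (0 : ℝ) ≤ (if Tri n a then 1 else 0) := by split_ifs <;> norm_num
  have hA2 : A.card < 2 := by
    have h1 : (A.card : ℝ) < 2 := by linarith
    exact_mod_cast h1
  have hB3 : B.card < 3 := by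
    by_contra hc
    push Not at hc
    have h1 : (2 * n : ℝ) ≤ ((∏ q ∈ B, q : ℕ) : ℝ) := by
      rw [← CPW_yy, Nat.cast_prod]
      calc yy n ^ 3 ≤ yy n ^ B.card := pow_le_pow_right₀ hy1 hc
        _ = ∏ q ∈ B, yy n := by rw [Finset.prod_const]
        _ ≤ ∏ q ∈ B, (q : ℝ) :=
          Finset.prod_le_prod (fun q _ => by linarith) fun q hq => (hBm q hq).2.2
    have h2 : ∏ q ∈ B, q ≤ a :=
      Nat.le_of_dvd (by omega) ⟨∏ q ∈ A, q, by rw [mul_comm]; exact hprod.symm⟩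
    have h3 : (2 * n : ℝ) ≤ (a : ℝ) := h1.trans (by exact_mod_cast h2)
    have h4 : 2 * n ≤ a := by exact_mod_cast h3
    omega
  have hAcase : A.card = 0 ∨ A.card = 1 := by omega
  have hBcase : B.card = 0 ∨ B.card = 1 ∨ B.card = 2 := by omega
  rcases hAcase with hA0 | hA1
  · rw [Finset.card_eq_zero] at hA0
    rw [hA0, Finset.prod_empty, one_mul] at hprod
    rcases hBcase with hB0 | hB1 | hB2
    · rw [Finset.card_eq_zero] at hB0
      rw [hB0, Finset.prod_empty] at hprod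
      omega
    · obtain ⟨q, hq⟩ := Finset.card_eq_one.1 hB1
      rw [hq, Finset.prod_singleton] at hprod
      left
      rw [← hprod]
      exact (hBm q (by rw [hq]; exact Finset.mem_singleton_self q)).1
    · obtain ⟨q, r, hqr, hq⟩ := Finset.card_eq_two.1 hB2
      rw [hq, Finset.prod_pair hqr] at hprod
      right
      refine ⟨q, r, (hBm q ?_).1, (hBm r ?_).1, hprod.symm⟩
      · rw [hq]; simp
      · rw [hq]; simp
  · obtain ⟨s, hs⟩ := Finset.card_eq_one.1 hA1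
    have hs' := hAm s (by rw [hs]; exact Finset.mem_singleton_self s)
    rw [hs, Finset.prod_singleton] at hprod
    rcases hBcase with hB0 | hB1 | hB2
    · rw [Finset.card_eq_zero] at hB0
      rw [hB0, Finset.prod_empty, mul_one] at hprod
      left
      rw [← hprod]
      exact hs'.1
    · obtain ⟨q, hq⟩ := Finset.card_eq_one.1 hB1
      rw [hq, Finset.prod_singleton] at hprod
      right
      exact ⟨s, q, hs'.1, (hBm q (by rw [hq]; exact Finset.mem_singleton_self q)).1, hprod.symm⟩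
    · exfalso
      obtain ⟨q, r, hqr, hq⟩ := Finset.card_eq_two.1 hB2
      rw [hq, Finset.prod_pair hqr] at hprod
      have hqB := hBm q (by rw [hq]; simp)
      have hrB := hBm r (by rw [hq]; simp)
      have hTri : Tri n a := by
        rcases le_total q r with h | h
        · exact ⟨s, q, r, hs'.1, hqB.1, hrB.1, hz s hs'.1 hs'.2.1, hs'.2.2, hqB.2.2, h, by
            rw [mul_assoc]; exact hprod.symm⟩
        · exact ⟨s, r, q, hs'.1, hrB.1, hqB.1, hz s hs'.1 hs'.2.1, hs'.2.2, hrB.2.2, h, by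
            rw [mul_assoc, mul_comm r q]; exact hprod.symm⟩
      rw [if_pos hTri] at hbr
      rw [hA1, Nat.cast_one] at hAc
      linarith

end Pool.Agent.Lib.H59C
end

-- from Lib.H57C.V5
section

/-!
# Chunk V5: level of distribution of the integers
-/

open Finset

namespace Pool.Agent.Lib.H57C

theorem v5_count (y1 y2 R v : ℕ) (hR : 0 < R) (h : y1 ≤ y2) :
    |(((Ioc y1 y2).filter (fun t => t ≡ v [MOD R])).card : ℝ) - ((y2 : ℝ) - y1) / R| ≤ 1 := by
  have h1 := Nat.Ioc_filter_modEq_card y1 y2 hR v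
  have hR' : (0 : ℝ) < R := by exact_mod_cast hR
  have hRq : (0 : ℚ) < R := by exact_mod_cast hR
  have hAB : ⌊((y1 : ℚ) - v) / R⌋ ≤ ⌊((y2 : ℚ) - v) / R⌋ := by
    apply Int.floor_le_floor
    have : (y1 : ℚ) ≤ y2 := by exact_mod_cast h
    gcongr
  rw [max_eq_left (by linarith)] at h1
  have h2 : (((Ioc y1 y2).filter (fun t => t ≡ v [MOD R])).card : ℝ) =
      (⌊((y2 : ℚ) - v) / R⌋ : ℝ) - (⌊((y1 : ℚ) - v) / R⌋ : ℝ) := by
    exact_mod_cast h1
  have a1 : (⌊((y2 : ℚ) - v) / R⌋ : ℝ) ≤ ((y2 : ℝ) - v) / R := by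
    have := Int.floor_le (((y2 : ℚ) - v) / R)
    exact_mod_cast this
  have a2 : ((y2 : ℝ) - v) / R < (⌊((y2 : ℚ) - v) / R⌋ : ℝ) + 1 := by
    have := Int.lt_floor_add_one (((y2 : ℚ) - v) / R)
    exact_mod_cast this
  have b1 : (⌊((y1 : ℚ) - v) / R⌋ : ℝ) ≤ ((y1 : ℝ) - v) / R := by
    have := Int.floor_le (((y1 : ℚ) - v) / R)
    exact_mod_cast this
  have b2 : ((y1 : ℝ) - v) / R < (⌊((y1 : ℚ) - v) / R⌋ : ℝ) + 1 := by
    have := Int.lt_floor_add_one (((y1 : ℚ) - v) / R)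
    exact_mod_cast this
  have e : ((y2 : ℝ) - y1) / R = ((y2 : ℝ) - v) / R - ((y1 : ℝ) - v) / R := by ring
  rw [h2, e, abs_le]
  constructor <;> linarith

theorem v5_omega (E m : ℕ) (hm : Squarefree m) :
    (E : ℝ) ^ m.primeFactors.card ≤ (E + 1 : ℝ) ^ ((E + 1) ^ 10) * (m : ℝ) ^ (1 / 10 : ℝ) := by
  have hE : (E : ℝ) ≤ E + 1 := by linarith
  have hE1 : (1 : ℝ) ≤ (E : ℝ) + 1 := by
    have : (0 : ℝ) ≤ E := Nat.cast_nonneg _
    linarith
  have hpr : (m : ℝ) = ∏ p ∈ m.primeFactors, (p : ℝ) := by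
    have := Nat.prod_primeFactors_of_squarefree hm
    conv_lhs => rw [← this]
    push_cast
    rfl
  calc (E : ℝ) ^ m.primeFactors.card ≤ (E + 1 : ℝ) ^ m.primeFactors.card :=
        pow_le_pow_left₀ (Nat.cast_nonneg _) hE _
    _ = ∏ p ∈ m.primeFactors, (E + 1 : ℝ) := by rw [Finset.prod_const]
    _ ≤ ∏ p ∈ m.primeFactors, ((if p < (E + 1) ^ 10 then (E + 1 : ℝ) else 1) * (p : ℝ) ^ (1 / 10 : ℝ)) := by
        refine Finset.prod_le_prod (fun p _ => by linarith) fun p hp => ?_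
        have hp1 : 1 ≤ p := (Nat.prime_of_mem_primeFactors hp).one_lt.le
        have hp1' : (1 : ℝ) ≤ p := by exact_mod_cast hp1
        split_ifs with h
        · refine le_mul_of_one_le_right (by linarith) ?_
          exact Real.one_le_rpow hp1' (by norm_num)
        · rw [one_mul]
          rw [not_lt] at h
          have h' : ((E : ℝ) + 1) ^ (10 : ℕ) ≤ p := by exact_mod_cast h
          calc (E : ℝ) + 1 = ((((E : ℝ) + 1) ^ (10 : ℕ))) ^ (1 / 10 : ℝ) := by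
                rw [← Real.rpow_natCast, ← Real.rpow_mul (by linarith)]
                norm_num
            _ ≤ (p : ℝ) ^ (1 / 10 : ℝ) := Real.rpow_le_rpow (by positivity) h' (by norm_num)
    _ = (∏ p ∈ m.primeFactors, (if p < (E + 1) ^ 10 then (E + 1 : ℝ) else 1)) *
          (m : ℝ) ^ (1 / 10 : ℝ) := by
        rw [Finset.prod_mul_distrib, Real.finset_prod_rpow _ _ (fun p _ => Nat.cast_nonneg _), ← hpr]
    _ ≤ (E + 1 : ℝ) ^ ((E + 1) ^ 10) * (m : ℝ) ^ (1 / 10 : ℝ) := by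
        refine mul_le_mul_of_nonneg_right ?_ (by positivity)
        rw [← Finset.prod_filter, Finset.prod_const]
        refine pow_le_pow_right₀ hE1 ?_
        calc (m.primeFactors.filter (fun p => p < (E + 1) ^ 10)).card ≤
              (Finset.range ((E + 1) ^ 10)).card := Finset.card_le_card (fun p hp => by
                rw [Finset.mem_range]
                exact (Finset.mem_filter.1 hp).2)
          _ = (E + 1) ^ 10 := Finset.card_range _

theorem v5_large (A : ℕ) (C : ℝ) (hC : 0 < C) : ∃ n0 : ℕ, ∀ n : ℕ, n0 ≤ n →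
    C * (n : ℝ) ^ (11 / 20 : ℝ) ≤ n / Real.log n ^ A := by
  have h := isLittleO_log_rpow_rpow_atTop (A : ℝ) (show (0 : ℝ) < 9 / 20 by norm_num)
  have h1 := (h.bound (show (0 : ℝ) < 1 / C by positivity))
  have h2 := tendsto_natCast_atTop_atTop (R := ℝ) |>.eventually h1
  obtain ⟨n1, hn1⟩ := Filter.eventually_atTop.1 h2
  refine ⟨max n1 3, fun n hn => ?_⟩
  have h3 := hn1 n (le_trans (le_max_left _ _) hn)
  have hn3 : 3 ≤ n := le_trans (le_max_right _ _) hn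
  have hn3' : (3 : ℝ) ≤ n := by exact_mod_cast hn3
  have hn0 : (0 : ℝ) < n := by linarith
  have hlog : 0 < Real.log n := Real.log_pos (by linarith)
  rw [Real.rpow_natCast, Real.norm_of_nonneg (by positivity), Real.norm_of_nonneg (by positivity)] at h3
  rw [le_div_iff₀ (by positivity)]
  calc C * (n : ℝ) ^ (11 / 20 : ℝ) * Real.log n ^ A ≤
        C * (n : ℝ) ^ (11 / 20 : ℝ) * (1 / C * (n : ℝ) ^ (9 / 20 : ℝ)) :=
        mul_le_mul_of_nonneg_left h3 (by positivity)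
    _ = (n : ℝ) ^ (11 / 20 : ℝ) * (n : ℝ) ^ (9 / 20 : ℝ) := by field_simp
    _ = n := by
        rw [← Real.rpow_add hn0]
        norm_num

/-- Proof. `rr m = 1`: the `t ∈ (y1, y2]` with `t ≡ N [MOD r]` and `t ≡ c [MOD m]`, `(m, r) = 1` (`r = 1`, or `r = p1` prime,
`p1 ∤ m`), are the `t` of one class modulo `r m` (`Nat.chineseRemainder`), their number differs from `(y2 - y1)/(r m)` by less
than `1` (`Nat.Ioc_filter_modEq_card` or `Int.Ioc_filter_modEq_card`). `∑_{m ≤ √n} E^ω(m) ≤ n^(3/4)` for large `n`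
(`E^ω(m) ≤ C_E m^(1/10)`, or `E^ω(m) ≤ τ(m)^e`), at most `n/L^A`. -/
theorem lvlI (A E : ℕ) : ∃ n0 : ℕ, ∀ n : ℕ, n0 ≤ n → ∀ p1 N r y1 y2 : ℕ, p1.Prime →
    (r = 1 ∨ r = p1) → y1 ≤ y2 →
      Lvl (sI N r y1 y2) p1 ⌊Real.sqrt n⌋₊ E (n / Real.log n ^ A) := by
  have hC : (0 : ℝ) < (E + 1 : ℝ) ^ ((E + 1) ^ 10) := by positivity
  obtain ⟨n1, hn1⟩ := v5_large A _ hC
  refine ⟨max n1 3, fun n hn p1 N r y1 y2 hp1 hr hy => ?_⟩
  have h1 := hn1 n (le_trans (le_max_left _ _) hn)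
  have hr0 : 0 < r := by
    rcases hr with rfl | rfl
    · norm_num
    · exact hp1.pos
  refine ⟨fun _ => 1, fun _ => zero_le_one, ?_, ?_⟩
  · intro m hm hmD hpm c _
    have hm0 : 0 < m := Nat.pos_of_ne_zero hm.ne_zero
    have hcop : Nat.Coprime r m := by
      rcases hr with rfl | rfl
      · exact Nat.coprime_one_left m
      · exact (Nat.Prime.coprime_iff_not_dvd hp1).2 hpm
    obtain ⟨v, hv1, hv2⟩ := Nat.chineseRemainder hcop N c
    have hset : ((Ioc y1 y2).filter (fun t => t ≡ N [MOD r])).filter (fun t => t ≡ c [MOD m]) =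
        (Ioc y1 y2).filter (fun t => t ≡ v [MOD (r * m)]) := by
      rw [Finset.filter_filter]
      refine Finset.filter_congr fun t _ => ?_
      rw [← Nat.modEq_and_modEq_iff_modEq_mul hcop]
      constructor
      · rintro ⟨h1, h2⟩
        exact ⟨h1.trans hv1.symm, h2.trans hv2.symm⟩
      · rintro ⟨h1, h2⟩
        exact ⟨h1.trans hv1, h2.trans hv2⟩
    have hpr : (m : ℝ) = ∏ p ∈ m.primeFactors, (p : ℝ) := by
      have := Nat.prod_primeFactors_of_squarefree hm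
      conv_lhs => rw [← this]
      push_cast
      rfl
    have h2 := v5_count y1 y2 (r * m) v (Nat.mul_pos hr0 hm0) hy
    have e1 : ∑ i ∈ (sI N r y1 y2).S.filter (fun i => (sI N r y1 y2).x i ≡ c [MOD m]),
        (sI N r y1 y2).wt i = (((Ioc y1 y2).filter (fun t => t ≡ v [MOD (r * m)])).card : ℝ) := by
      simp only [sI]
      rw [hset]
      simp
    have e2 : (sI N r y1 y2).X * ∏ q ∈ m.primeFactors, (sI N r y1 y2).hd q =
        ((y2 : ℝ) - y1) / ((r * m : ℕ) : ℝ) := by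
      simp only [sI]
      rw [Finset.prod_div_distrib, ← hpr]
      push_cast
      simp only [Finset.prod_const_one]
      field_simp
    rw [e1, e2]
    exact h2
  · have hD : ((⌊Real.sqrt n⌋₊ : ℕ) : ℝ) ≤ Real.sqrt n := Nat.floor_le (Real.sqrt_nonneg _)
    calc ∑ m ∈ (Icc 1 ⌊Real.sqrt n⌋₊).filter (fun m => Squarefree m ∧ ¬ p1 ∣ m),
          (E : ℝ) ^ m.primeFactors.card * 1
        ≤ ∑ m ∈ (Icc 1 ⌊Real.sqrt n⌋₊).filter (fun m => Squarefree m ∧ ¬ p1 ∣ m),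
          (E + 1 : ℝ) ^ ((E + 1) ^ 10) * (Real.sqrt n) ^ (1 / 10 : ℝ) := by
          refine Finset.sum_le_sum fun m hm => ?_
          rw [Finset.mem_filter, Finset.mem_Icc] at hm
          rw [mul_one]
          refine (v5_omega E m hm.2.1).trans (mul_le_mul_of_nonneg_left ?_ hC.le)
          refine Real.rpow_le_rpow (Nat.cast_nonneg _) ?_ (by norm_num)
          exact le_trans (by exact_mod_cast hm.1.2) hD
      _ = (((Icc 1 ⌊Real.sqrt n⌋₊).filter (fun m => Squarefree m ∧ ¬ p1 ∣ m)).card : ℝ) *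
          ((E + 1 : ℝ) ^ ((E + 1) ^ 10) * (Real.sqrt n) ^ (1 / 10 : ℝ)) := by
          rw [Finset.sum_const, nsmul_eq_mul]
      _ ≤ Real.sqrt n * ((E + 1 : ℝ) ^ ((E + 1) ^ 10) * (Real.sqrt n) ^ (1 / 10 : ℝ)) := by
          refine mul_le_mul_of_nonneg_right ?_ (by positivity)
          refine le_trans ?_ hD
          have : ((Icc 1 ⌊Real.sqrt n⌋₊).filter (fun m => Squarefree m ∧ ¬ p1 ∣ m)).card ≤
              ⌊Real.sqrt n⌋₊ := by
            refine (Finset.card_filter_le _ _).trans ?_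
            simp
          exact_mod_cast this
      _ = (E + 1 : ℝ) ^ ((E + 1) ^ 10) * (n : ℝ) ^ (11 / 20 : ℝ) := by
          have hn0 : (0 : ℝ) ≤ n := Nat.cast_nonneg _
          have e3 : Real.sqrt n * (Real.sqrt n) ^ (1 / 10 : ℝ) = (n : ℝ) ^ (11 / 20 : ℝ) := by
            rw [Real.sqrt_eq_rpow, ← Real.rpow_mul hn0, ← Real.rpow_add_of_nonneg hn0 (by norm_num) (by norm_num)]
            norm_num
          rw [← e3]
          ring
      _ ≤ _ := h1

end Pool.Agent.Lib.H57C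
end

-- from Lib.H59C.CTO
section

/-!
# CTO: the switching constant
-/

open Finset MeasureTheory

namespace Pool.Agent.Lib.H59C

/-- The function of the outer sum. -/
noncomputable def ctoF (x : ℝ) : ℝ := Real.log (max 1 (2 - 3 * x)) / (1 - x)

theorem cto_anti (b : ℝ) (hb : b ≤ 1 / 2) : AntitoneOn ctoF (Set.Icc (1 / 8) b) := by
  intro x hx y hy hxy
  rw [Set.mem_Icc] at hx hy
  unfold ctoF
  have hx1 : 0 < 1 - x := by linarith
  have hy1 : 0 < 1 - y := by linarith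
  rcases le_or_gt (2 - 3 * y) 1 with h | h
  · rw [max_eq_left h, Real.log_one, zero_div]
    apply div_nonneg _ hx1.le
    exact Real.log_nonneg (le_max_left _ _)
  · rw [max_eq_right h.le, max_eq_right (by linarith : 1 ≤ 2 - 3 * x)]
    rw [div_le_div_iff₀ hy1 hx1]
    obtain ⟨u, hu⟩ : ∃ u : ℝ, u = 2 - 3 * x := ⟨_, rfl⟩
    obtain ⟨v, hv⟩ : ∃ v : ℝ, v = 2 - 3 * y := ⟨_, rfl⟩
    have e1 : 1 - x = (1 + u) / 3 := by rw [hu]; ring
    have e2 : 1 - y = (1 + v) / 3 := by rw [hv]; ring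
    rw [← hu, ← hv, e1, e2]
    have hv1 : 1 < v := by rw [hv]; exact h
    have hvu : v ≤ u := by rw [hu, hv]; linarith
    have hu1 : u ≤ 13 / 8 := by rw [hu]; linarith
    have hv0 : 0 < v := by linarith
    have hu0 : 0 < u := by linarith
    have h1 : (u - v) / u ≤ Real.log u - Real.log v := by
      rw [← Real.log_div hu0.ne' hv0.ne']
      have h2 := Real.one_sub_inv_le_log_of_pos (div_pos hu0 hv0)
      have h3 : 1 - (u / v)⁻¹ = (u - v) / u := by
        field_simp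
      linarith
    have h2 : Real.log v ≤ v - 1 := Real.log_le_sub_one_of_pos hv0
    have h3 : (u - v) * Real.log v ≤ (1 + v) * ((u - v) / u) := by
      have h4 : (1 + v) * ((u - v) / u) = (u - v) * ((1 + v) / u) := by ring
      rw [h4]
      apply mul_le_mul_of_nonneg_left _ (by linarith)
      have h5 : 1 ≤ (1 + v) / u := by
        rw [le_div_iff₀ hu0]
        linarith
      linarith
    have h4 : (1 + v) * ((u - v) / u) ≤ (1 + v) * (Real.log u - Real.log v) :=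
      mul_le_mul_of_nonneg_left h1 (by linarith)
    nlinarith

theorem cto_bound (b x : ℝ) (hb : b ≤ 1 / 3 + 1 / 100) (hx : x ∈ Set.Icc (1 / 8) b) :
    |ctoF x| ≤ 1 := by
  rw [Set.mem_Icc] at hx
  unfold ctoF
  have hx1 : 0 < 1 - x := by linarith
  have h0 : (0 : ℝ) < max 1 (2 - 3 * x) := lt_of_lt_of_le one_pos (le_max_left _ _)
  rw [abs_of_nonneg (div_nonneg (Real.log_nonneg (le_max_left _ _)) hx1.le),
    div_le_one hx1]
  have h1 := Real.log_le_sub_one_of_pos h0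
  have h2 : max 1 (2 - 3 * x) ≤ 13 / 8 := by
    apply max_le
    · norm_num
    · linarith
  linarith

theorem cto_cont (a b : ℝ) (ha : 1 / 8 ≤ a) (hb : b ≤ 1 / 2) :
    ContinuousOn (fun x : ℝ => ctoF x / x) (Set.Icc a b) := by
  unfold ctoF
  apply ContinuousOn.div
  · apply ContinuousOn.div
    · apply ContinuousOn.log
      · fun_prop
      · intro x _
        have : (0 : ℝ) < max 1 (2 - 3 * x) := lt_of_lt_of_le one_pos (le_max_left _ _)
        exact this.ne'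
    · fun_prop
    · intro x hx
      rw [Set.mem_Icc] at hx
      have : 0 < 1 - x := by linarith
      exact this.ne'
  · fun_prop
  · intro x hx
    rw [Set.mem_Icc] at hx
    have : 0 < x := by linarith
    exact this.ne'

theorem cto_int (b : ℝ) (hb : 1 / 3 ≤ b) (hb2 : b ≤ 1 / 2) :
    ∫ x in (1 / 8 : ℝ)..b, ctoF x / x ≤ 372 / 1000 := by
  have i1 : IntervalIntegrable (fun x : ℝ => ctoF x / x) volume (1 / 8) (1 / 3) := by
    apply ContinuousOn.intervalIntegrable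
    rw [Set.uIcc_of_le (by norm_num)]
    exact cto_cont _ _ le_rfl (by norm_num)
  have i2 : IntervalIntegrable (fun x : ℝ => ctoF x / x) volume (1 / 3) b := by
    apply ContinuousOn.intervalIntegrable
    rw [Set.uIcc_of_le hb]
    exact cto_cont _ _ (by norm_num) hb2
  rw [← intervalIntegral.integral_add_adjacent_intervals i1 i2]
  have e2 : ∫ x in (1 / 3 : ℝ)..b, ctoF x / x = 0 := by
    have : ∫ x in (1 / 3 : ℝ)..b, ctoF x / x = ∫ x in (1 / 3 : ℝ)..b, (0 : ℝ) := by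
      apply intervalIntegral.integral_congr
      intro x hx
      rw [Set.uIcc_of_le hb, Set.mem_Icc] at hx
      show ctoF x / x = 0
      unfold ctoF
      rw [max_eq_left (by linarith), Real.log_one, zero_div, zero_div]
    rw [this]
    simp
  have e1 : ∫ x in (1 / 8 : ℝ)..(1 / 3), ctoF x / x =
      ∫ x in (1 / 8 : ℝ)..(1 / 3), Real.log (2 - 3 * x) / (x * (1 - x)) := by
    apply intervalIntegral.integral_congr
    intro x hx
    rw [Set.uIcc_of_le (by norm_num), Set.mem_Icc] at hx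
    show ctoF x / x = Real.log (2 - 3 * x) / (x * (1 - x))
    unfold ctoF
    rw [max_eq_right (by linarith), div_div, mul_comm (1 - x) x]
  rw [e1, e2, add_zero]
  exact switch_int

/-- The switching constant.

Proof. By `inner_sum` the left side is `≤ ∑_{q1 ∈ PR (zz n) (yy n)} (φ(x1) + ε)/q1` with
`φ(x) = log (max 1 (2 - 3x))/(1 - x)`, decreasing on `[1/8, 1/2]` (derivative `(log (2-3x) - 3 (1-x)/(2-3x))/(1-x)²`, and
`log (2 - 3x) ≤ 1 - 3x < 1`, `3 (1-x)/(2-3x) ≥ 3/2`; constant `0` for `x ≥ 1/3`), bounded by `1`. `prime_int` (from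
`n^(1/8)` to `n^b = (2n)^(1/3)`) and `φ = 0` beyond `1/3`: the sum tends to at most
`∫_{1/8}^{1/3} log (2 - 3x)/(x (1 - x)) dx ≤ 372/1000` (`switch_int`); `∑ 1/q1 ≤ 2`. -/
theorem triple_sum : ∃ n0 : ℕ, ∀ n : ℕ, n0 ≤ n →
    Real.log n * ∑ q1 ∈ PR (zz n) (yy n),
      ∑ q2 ∈ (PR (yy n) n).filter (fun q2 => q1 * q2 ^ 2 ≤ 3 * n),
        1 / ((q1 : ℝ) * q2 * Real.log (n / (20 * q1 * q2))) ≤ 373 / 1000 := by
  obtain ⟨C, hC, hpi⟩ := prime_int
  obtain ⟨n1, hn1⟩ := inner_sum (1 / 4000) (by norm_num)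
  obtain ⟨n2, hn2⟩ := prime_S2 1 (by norm_num) 0 1 le_rfl
  obtain ⟨n3, hn3⟩ := cdl_log (max 100 (16000 * C))
  obtain ⟨n4, hn4⟩ := cdl_zz 2
  refine ⟨n1 + n2 + n3 + n4 + 3, fun n hn => ?_⟩
  have hN : (3 : ℝ) ≤ n := by exact_mod_cast (by omega : 3 ≤ n)
  have hL : 0 < Real.log n := Real.log_pos (by linarith)
  obtain ⟨L, hLdef⟩ : ∃ L : ℝ, L = Real.log n := ⟨_, rfl⟩
  have hLn := hn3 n (by omega)
  have hz2 := hn4 n (by omega)
  have hin := hn1 n (by omega)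
  obtain ⟨-, hs2⟩ := hn2 n (by omega)
  rw [← hLdef] at hL hLn hin ⊢
  have hL1 : 100 ≤ L := le_trans (le_max_left _ _) hLn
  have hL2 : 16000 * C ≤ L := le_trans (le_max_right _ _) hLn
  have hzpos : 0 < zz n := by linarith
  obtain ⟨b, hb⟩ : ∃ b : ℝ, b = 1 / 3 + 1 / 100 := ⟨_, rfl⟩
  have hlog2 : Real.log 2 ≤ 1 := by
    have := Real.log_two_lt_d9
    linarith
  have hyypos : 0 < yy n := by unfold yy; positivity
  have hyb : yy n ≤ (n : ℝ) ^ b := by
    rw [← Real.log_le_log_iff hyypos (by positivity), Real.log_rpow (by linarith),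
      ← hLdef, hb]
    unfold yy
    rw [Real.log_rpow (by linarith), Real.log_mul (by norm_num) (by linarith), ← hLdef]
    linarith
  have hsub : PR (zz n) (yy n) ⊆ PR ((n : ℝ) ^ (1 / 8 : ℝ)) ((n : ℝ) ^ b) := by
    intro q hq
    rw [mem_PR] at hq ⊢
    exact ⟨hq.1, hq.2.1, lt_of_lt_of_le hq.2.2 hyb⟩
  have hpi1 := hpi n (1 / 8) b 1 ctoF (by omega) (by norm_num) (by rw [hb]; norm_num)
    (by rw [hb]; norm_num) hz2 (Or.inr (cto_anti b (by rw [hb]; norm_num)))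
    (fun x hx => cto_bound b x (by rw [hb]) hx)
  rw [← hLdef, abs_le] at hpi1
  have hint := cto_int b (by rw [hb]; norm_num) (by rw [hb]; norm_num)
  have hqf : ∀ q ∈ PR ((n : ℝ) ^ (1 / 8 : ℝ)) ((n : ℝ) ^ b), (0 : ℝ) < q ∧
      Real.log q / L ∈ Set.Icc (1 / 8 : ℝ) b := by
    intro q hq
    obtain ⟨hqp, hq1, hq2⟩ := mem_PR.mp hq
    have hq1' : zz n ≤ q := hq1
    have hq0 : (0 : ℝ) < q := by linarith
    refine ⟨hq0, ?_, ?_⟩
    · rw [le_div_iff₀ hL]
      have := Real.log_le_log (by positivity) hq1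
      rw [Real.log_rpow (by linarith), ← hLdef] at this
      exact this
    · rw [div_le_iff₀ hL]
      have := Real.log_le_log hq0 hq2.le
      rw [Real.log_rpow (by linarith), ← hLdef] at this
      exact this
  have hF0 : ∀ x ∈ Set.Icc (1 / 8 : ℝ) b, 0 ≤ ctoF x := by
    intro x hx
    rw [Set.mem_Icc] at hx
    unfold ctoF
    apply div_nonneg (Real.log_nonneg (le_max_left _ _))
    rw [hb] at hx
    linarith
  have hone : ∀ q1 ∈ PR (zz n) (yy n), L * ∑ q2 ∈ (PR (yy n) n).filter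
      (fun q2 => q1 * q2 ^ 2 ≤ 3 * n), 1 / ((q1 : ℝ) * q2 * Real.log (n / (20 * q1 * q2))) ≤
      ctoF (Real.log q1 / L) / q1 + 1 / 4000 * gq q1 := by
    intro q1 hq1
    obtain ⟨hq0, hx⟩ := hqf q1 (hsub hq1)
    obtain ⟨hqp, hqa, hqb⟩ := mem_PR.mp hq1
    have h1 := hin q1 hqp hqa hqb
    have h2 : L * ∑ q2 ∈ (PR (yy n) n).filter (fun q2 => q1 * q2 ^ 2 ≤ 3 * n),
        1 / ((q1 : ℝ) * q2 * Real.log (n / (20 * q1 * q2))) =
        1 / (q1 : ℝ) * ∑ q2 ∈ (PR (yy n) n).filter (fun q2 => q1 * q2 ^ 2 ≤ 3 * n),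
          L / ((q2 : ℝ) * Real.log (n / (20 * q1 * q2))) := by
      rw [mul_sum, mul_sum]
      apply sum_congr rfl
      intro q2 _
      rw [mul_one_div, div_mul_div_comm, one_mul, mul_assoc]
    rw [h2]
    have h3 : 1 / (q1 : ℝ) ≤ gq q1 := by
      unfold gq
      apply div_le_div_of_nonneg_left zero_le_one
      · linarith
      · linarith
    calc 1 / (q1 : ℝ) * ∑ q2 ∈ (PR (yy n) n).filter (fun q2 => q1 * q2 ^ 2 ≤ 3 * n),
          L / ((q2 : ℝ) * Real.log (n / (20 * q1 * q2)))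
        ≤ 1 / (q1 : ℝ) * (ctoF (Real.log q1 / L) + 1 / 4000) :=
          mul_le_mul_of_nonneg_left h1 (by positivity)
      _ = ctoF (Real.log q1 / L) / q1 + 1 / 4000 * (1 / (q1 : ℝ)) := by ring
      _ ≤ ctoF (Real.log q1 / L) / q1 + 1 / 4000 * gq q1 := by
          apply add_le_add le_rfl
          exact mul_le_mul_of_nonneg_left h3 (by norm_num)
  calc L * ∑ q1 ∈ PR (zz n) (yy n), ∑ q2 ∈ (PR (yy n) n).filter
        (fun q2 => q1 * q2 ^ 2 ≤ 3 * n), 1 / ((q1 : ℝ) * q2 * Real.log (n / (20 * q1 * q2)))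
      = ∑ q1 ∈ PR (zz n) (yy n), L * ∑ q2 ∈ (PR (yy n) n).filter
        (fun q2 => q1 * q2 ^ 2 ≤ 3 * n), 1 / ((q1 : ℝ) * q2 * Real.log (n / (20 * q1 * q2))) := by
        rw [mul_sum]
    _ ≤ ∑ q1 ∈ PR (zz n) (yy n), (ctoF (Real.log q1 / L) / q1 + 1 / 4000 * gq q1) :=
        sum_le_sum hone
    _ = ∑ q1 ∈ PR (zz n) (yy n), ctoF (Real.log q1 / L) / q1 +
        1 / 4000 * ∑ q1 ∈ PR (zz n) (yy n), gq q1 := by
        rw [sum_add_distrib, ← mul_sum]
    _ ≤ ∑ q1 ∈ PR ((n : ℝ) ^ (1 / 8 : ℝ)) ((n : ℝ) ^ b), ctoF (Real.log q1 / L) / q1 +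
        1 / 4000 * 2 := by
        apply add_le_add
        · apply sum_le_sum_of_subset_of_nonneg hsub
          intro q hq _
          obtain ⟨hq0, hx⟩ := hqf q hq
          exact div_nonneg (hF0 _ hx) hq0.le
        · exact mul_le_mul_of_nonneg_left hs2 (by norm_num)
    _ ≤ (372 / 1000 + C * 1 / (1 / 8 * L)) + 1 / 4000 * 2 := by
        linarith [hpi1.2]
    _ ≤ 373 / 1000 := by
        have h2 : C * 1 / (1 / 8 * L) = 8 * C / L := by
          field_simp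
        have h3 : 8 * C / L ≤ 1 / 2000 := by
          rw [div_le_iff₀ hL]
          linarith
        rw [h2]
        linarith

end Pool.Agent.Lib.H59C
end

-- from Lib.H57C.RM
section

/-!
# Chunk RM: classes and second moment
-/

open Finset

namespace Pool.Agent.Lib.H57C

open Pool.Agent.Lib.H57M

theorem rm_gcd {ι : Type*} [DecidableEq ι] (r : ℕ) (hr : 1 ≤ r) (X : Finset ι) (p : ι → ℕ)
    (hp : ∀ x ∈ X, (p x).Prime) :
    Nat.gcd r (∏ x ∈ X, p x) ≤ ∏ x ∈ X, (if p x ∣ r then p x else 1) := by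
  induction X using Finset.induction_on with
  | empty => simp
  | insert x X hx ih =>
    have hpx := hp x (mem_insert_self _ _)
    have ih' := ih (fun y hy => hp y (mem_insert_of_mem hy))
    rw [prod_insert hx, prod_insert hx]
    have h1 : Nat.gcd r (p x * ∏ x ∈ X, p x) ≤ Nat.gcd r (p x) * Nat.gcd r (∏ x ∈ X, p x) :=
      Nat.le_of_dvd (Nat.mul_pos (Nat.gcd_pos_of_pos_left _ hr) (Nat.gcd_pos_of_pos_left _ hr))
        (Nat.gcd_mul_right_dvd_mul_gcd r _ _)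
    have h2 : Nat.gcd r (p x) ≤ if p x ∣ r then p x else 1 := by
      split_ifs with h
      · exact Nat.gcd_le_right _ hpx.pos
      · have h3 : Nat.Coprime r (p x) := by
          rw [Nat.coprime_comm]
          exact (hpx.coprime_iff_not_dvd).2 h
        exact h3.le
    exact h1.trans (Nat.mul_le_mul h2 ih')

theorem rm_count {ι : Type*} [DecidableEq ι] (X : Finset ι) (p v : ι → ℕ)
    (hp : ∀ x ∈ X, (p x).Prime) (hinj : ∀ x ∈ X, ∀ y ∈ X, p x = p y → x = y)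
    (r c a b : ℕ) (hr : 1 ≤ r) (hab : a ≤ b) (S : Finset ℕ)
    (hS : ∀ t ∈ S, t ∈ Ioc a b ∧ t ≡ c [MOD r] ∧ ∀ x ∈ X, p x ∣ t + v x) : (S.card : ℝ) ≤
      ((b : ℝ) - a) / r * ∏ x ∈ X, ((if p x ∣ r then (p x : ℝ) else 1) / p x) + 1 := by
  have hba : (0 : ℝ) ≤ (b : ℝ) - a := by
    have : (a : ℝ) ≤ b := by exact_mod_cast hab
    linarith
  have hr' : (0 : ℝ) < r := by exact_mod_cast hr
  have hprod0 : 0 ≤ ∏ x ∈ X, ((if p x ∣ r then (p x : ℝ) else 1) / p x) :=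
    prod_nonneg fun x hx => by split_ifs <;> positivity
  rcases S.eq_empty_or_nonempty with he | ⟨t0, ht0⟩
  · rw [he, card_empty, Nat.cast_zero]
    positivity
  · obtain ⟨-, h0c, h0x⟩ := hS t0 ht0
    have hPpos : 0 < ∏ x ∈ X, p x := prod_pos fun x hx => (hp x hx).pos
    have hMpos : 0 < Nat.lcm r (∏ x ∈ X, p x) := Nat.lcm_pos hr hPpos
    have hsub : S ⊆ (Ioc a b).filter (fun t => t ≡ t0 [MOD Nat.lcm r (∏ x ∈ X, p x)]) := by
      intro t ht'
      have ht := hS t ht'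
      rw [mem_filter]
      refine ⟨ht.1, ?_⟩
      have h1 : t ≡ t0 [MOD r] := ht.2.1.trans h0c.symm
      have h2 : ∀ x ∈ X, t ≡ t0 [MOD p x] := by
        intro x hx
        have e1 : t + v x ≡ t0 + v x [MOD p x] := by
          rw [Nat.ModEq, Nat.mod_eq_zero_of_dvd (ht.2.2 x hx), Nat.mod_eq_zero_of_dvd (h0x x hx)]
        exact Nat.ModEq.add_right_cancel' _ e1
      rw [Nat.modEq_iff_dvd] at h1 ⊢
      have h3 : ((∏ x ∈ X, p x : ℕ) : ℤ) ∣ (t0 : ℤ) - t := by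
        rw [Nat.cast_prod]
        refine Finset.prod_dvd_of_coprime ?_ ?_
        · intro x hx y hy hne
          have h4 : p x ≠ p y := fun h => hne (hinj x hx y hy h)
          have h5 : Nat.Coprime (p x) (p y) := (Nat.coprime_primes (hp x hx) (hp y hy)).2 h4
          exact Nat.Coprime.isCoprime h5
        · intro x hx
          exact Nat.modEq_iff_dvd.1 (h2 x hx)
      rw [Int.natCast_dvd] at h1 h3 ⊢
      exact Nat.lcm_dvd h1 h3
    have h1 := (abs_le.1 (v5_count a b _ t0 hMpos hab)).2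
    have h2 : (S.card : ℝ) ≤
        (((Ioc a b).filter (fun t => t ≡ t0 [MOD Nat.lcm r (∏ x ∈ X, p x)])).card : ℝ) := by
      exact_mod_cast card_le_card hsub
    have hPr : (0 : ℝ) < ((∏ x ∈ X, p x : ℕ) : ℝ) := by exact_mod_cast hPpos
    have hMr : (0 : ℝ) < (Nat.lcm r (∏ x ∈ X, p x) : ℝ) := by exact_mod_cast hMpos
    have h3 : (Nat.gcd r (∏ x ∈ X, p x) : ℝ) * (Nat.lcm r (∏ x ∈ X, p x) : ℝ) =
        r * ((∏ x ∈ X, p x : ℕ) : ℝ) := by exact_mod_cast Nat.gcd_mul_lcm r (∏ x ∈ X, p x)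
    have h4 : (Nat.gcd r (∏ x ∈ X, p x) : ℝ) ≤ ∏ x ∈ X, (if p x ∣ r then (p x : ℝ) else 1) := by
      have := rm_gcd r hr X p hp
      have h5 : ((∏ x ∈ X, (if p x ∣ r then p x else 1) : ℕ) : ℝ) =
          ∏ x ∈ X, (if p x ∣ r then (p x : ℝ) else 1) := by
        rw [Nat.cast_prod]
        refine prod_congr rfl fun x _ => ?_
        split_ifs <;> simp
      rw [← h5]
      exact_mod_cast this
    have h5 : ((b : ℝ) - a) / (Nat.lcm r (∏ x ∈ X, p x) : ℝ) ≤
        ((b : ℝ) - a) / r * ∏ x ∈ X, ((if p x ∣ r then (p x : ℝ) else 1) / p x) := by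
      rw [prod_div_distrib]
      have e : (1 : ℝ) / (Nat.lcm r (∏ x ∈ X, p x) : ℝ) ≤
          1 / r * ((∏ x ∈ X, (if p x ∣ r then (p x : ℝ) else 1)) / ∏ x ∈ X, (p x : ℝ)) := by
        rw [Nat.cast_prod] at h3 hPr
        rw [← mul_div_assoc, div_mul_eq_mul_div, one_mul, div_div, div_le_div_iff₀ hMr (by positivity),
          one_mul, ← h3]
        exact mul_le_mul_of_nonneg_right h4 hMr.le
      calc ((b : ℝ) - a) / (Nat.lcm r (∏ x ∈ X, p x) : ℝ) =
            ((b : ℝ) - a) * (1 / (Nat.lcm r (∏ x ∈ X, p x) : ℝ)) := by ring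
        _ ≤ ((b : ℝ) - a) * (1 / r * ((∏ x ∈ X, (if p x ∣ r then (p x : ℝ) else 1)) /
              ∏ x ∈ X, (p x : ℝ))) := mul_le_mul_of_nonneg_left e hba
        _ = _ := by ring
    linarith

theorem rm_fam {P H : Finset ℕ} {W : ℕ} (hP : ∀ p ∈ P, p.Prime ∧ W < p) (HW : ∀ h ∈ H, h ≤ W)
    (i : Option ℕ) (U : Fam P H) (r c a b : ℕ) (hr : 1 ≤ r) (hab : a ≤ b) :
    (((Ioc a b).filter (fun t => t ≡ c [MOD r] ∧ ∀ j, U j ⊆ cfg P H i t j)).card : ℝ) ≤
      ((b : ℝ) - a) / r * fpr (fun p => (if p ∣ r then (p : ℝ) else 1) / p) U + 1 := by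
  classical
  have hba : (0 : ℝ) ≤ (b : ℝ) - a := by
    have : (a : ℝ) ≤ b := by exact_mod_cast hab
    linarith
  rw [m4_fpr]
  have hsub : ∀ t, (∀ j, U j ⊆ cfg P H i t j) → ∀ x ∈ (univ : Finset {h // h ∈ H}).sigma U,
      x.2.1 ∣ t + x.1.1 := by
    intro t ht x hx
    have h1 := ht x.1 (mem_sigma.1 hx).2
    unfold cfg at h1
    split_ifs at h1 with h2
    · exact absurd h1 (by simp)
    · exact (mem_filter.1 h1).2
  by_cases hinj : ∀ x ∈ (univ : Finset {h // h ∈ H}).sigma U, ∀ y ∈ (univ : Finset {h // h ∈ H}).sigma U,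
      x.2.1 = y.2.1 → x = y
  · refine rm_count ((univ : Finset {h // h ∈ H}).sigma U) (fun x => x.2.1) (fun x => x.1.1)
      (fun x _ => (hP _ x.2.2).1) hinj r c a b hr hab _ ?_
    intro t ht
    rw [mem_filter] at ht
    exact ⟨ht.1, ht.2.1, hsub t ht.2.2⟩
  · push Not at hinj
    obtain ⟨x, hx, y, hy, hxy, hne⟩ := hinj
    have he : (Ioc a b).filter (fun t => t ≡ c [MOD r] ∧ ∀ j, U j ⊆ cfg P H i t j) = ∅ := by
      rw [filter_eq_empty_iff]
      rintro t - ⟨-, ht⟩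
      have h1 := hsub t ht x hx
      have h2 := hsub t ht y hy
      rw [← hxy] at h2
      apply hne
      have hpx := (hP _ x.2.2)
      have h3 : x.1.1 ≡ y.1.1 [MOD x.2.1] := by
        have e1 : t + x.1.1 ≡ t + y.1.1 [MOD x.2.1] := by
          rw [Nat.ModEq, Nat.mod_eq_zero_of_dvd h1, Nat.mod_eq_zero_of_dvd h2]
        exact Nat.ModEq.add_left_cancel' _ e1
      have h4 : x.1.1 = y.1.1 := Nat.ModEq.eq_of_lt_of_lt h3
        (lt_of_le_of_lt (HW _ x.1.2) hpx.2) (lt_of_le_of_lt (HW _ y.1.2) hpx.2)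
      have h5 : x.1 = y.1 := Subtype.ext h4
      have h6 : x.2 = y.2 := Subtype.ext hxy
      cases x
      cases y
      simp only at h5 h6
      rw [h5, h6]
    rw [he, card_empty, Nat.cast_zero]
    have : 0 ≤ ∏ x ∈ (univ : Finset {h // h ∈ H}).sigma U,
        ((if x.2.1 ∣ r then (x.2.1 : ℝ) else 1) / x.2.1) :=
      prod_nonneg fun x hx => by split_ifs <;> positivity
    positivity

/-- one prime of `P` may divide `r` -/
theorem rm_one {P : Finset ℕ} (hP : ∀ p ∈ P, p.Prime) (K r : ℕ)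
    (h1 : ∀ p ∈ P, ∀ q ∈ P, p ∣ r → q ∣ r → p = q) :
    ∏ p ∈ P, (1 + 3 * ((if p ∣ r then (p : ℝ) else 1) / p)) ^ K ≤
      4 ^ K * ∏ p ∈ P, (1 + 3 / (p : ℝ)) ^ K := by
  classical
  rw [Finset.prod_pow, Finset.prod_pow, ← mul_pow]
  refine pow_le_pow_left₀ (prod_nonneg fun p _ => by split_ifs <;> positivity) ?_ K
  by_cases h : ∃ q ∈ P, q ∣ r
  · obtain ⟨q, hq, hqr⟩ := h
    rw [← mul_prod_erase P _ hq, ← mul_prod_erase P (fun p => (1 + 3 / (p : ℝ))) hq, if_pos hqr]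
    have hq0 : (q : ℝ) ≠ 0 := by exact_mod_cast (hP q hq).pos.ne'
    have e : ∏ p ∈ P.erase q, (1 + 3 * ((if p ∣ r then (p : ℝ) else 1) / p)) =
        ∏ p ∈ P.erase q, (1 + 3 / (p : ℝ)) := by
      refine prod_congr rfl fun p hp => ?_
      rw [mem_erase] at hp
      rw [if_neg (fun hpr => hp.1 (h1 p hp.2 q hq hpr hqr))]
      ring
    rw [e, div_self hq0]
    have h3 : 0 ≤ ∏ p ∈ P.erase q, (1 + 3 / (p : ℝ)) := prod_nonneg fun p _ => by positivity
    have h4 : (1 : ℝ) ≤ 1 + 3 / (q : ℝ) := by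
      have : 0 ≤ 3 / (q : ℝ) := by positivity
      linarith
    nlinarith
  · push Not at h
    have e : ∏ p ∈ P, (1 + 3 * ((if p ∣ r then (p : ℝ) else 1) / p)) = ∏ p ∈ P, (1 + 3 / (p : ℝ)) := by
      refine prod_congr rfl fun p hp => ?_
      rw [if_neg (h p hp)]
      ring
    rw [e]
    have h3 : 0 ≤ ∏ p ∈ P, (1 + 3 / (p : ℝ)) := prod_nonneg fun p _ => by positivity
    linarith

theorem rm_total {P H : Finset ℕ} {W K : ℕ} (hK : H.card = K) (hP : ∀ p ∈ P, p.Prime ∧ W < p)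
    (HW : ∀ h ∈ H, h ≤ W) (i : Option ℕ) (F c : Fam P H → ℝ)
    (hF : ∀ S, F S = ∑ U : Fam P H, if ∀ j, U j ⊆ S j then c U else 0) (CF D : ℝ) (hCF : 0 ≤ CF)
    (hD0 : 0 ≤ D) (hc : ∀ U : Fam P H, |c U| ≤ CF * (3 : ℝ) ^ (∑ h, (U h).card))
    (hD : ∀ U, c U ≠ 0 → ∏ h, ∏ p ∈ U h, (p.1 : ℝ) ≤ D) (r c0 a b : ℕ) (hr : 1 ≤ r) (hab : a ≤ b)
    (M0 : ℝ) (hM : ∏ p ∈ P, (1 + 3 / (p : ℝ)) ^ K ≤ M0)
    (h1 : ∀ p ∈ P, ∀ q ∈ P, p ∣ r → q ∣ r → p = q) :
    ∑ t ∈ (Ioc a b).filter (fun t => t ≡ c0 [MOD r]), F (cfg P H i t) ≤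
      CF * M0 * (4 ^ K * (((b : ℝ) - a) / r) + D) := by
  classical
  have hPp : ∀ p ∈ P, p.Prime := fun p hp => (hP p hp).1
  have hba : (0 : ℝ) ≤ (b : ℝ) - a := by
    have : (a : ℝ) ≤ b := by exact_mod_cast hab
    linarith
  have hr' : (0 : ℝ) < r := by exact_mod_cast hr
  have hM0 : 0 ≤ M0 := (prod_nonneg fun p _ => by positivity).trans hM
  have e1 : ∑ t ∈ (Ioc a b).filter (fun t => t ≡ c0 [MOD r]), F (cfg P H i t) =
      ∑ U : Fam P H, c U *
        (((Ioc a b).filter (fun t => t ≡ c0 [MOD r] ∧ ∀ j, U j ⊆ cfg P H i t j)).card : ℝ) := by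
    simp only [hF]
    rw [sum_comm]
    refine sum_congr rfl fun U _ => ?_
    rw [← sum_filter, filter_filter, sum_const, nsmul_eq_mul, mul_comm]
  rw [e1]
  have e2 : ∀ U : Fam P H, c U *
      (((Ioc a b).filter (fun t => t ≡ c0 [MOD r] ∧ ∀ j, U j ⊆ cfg P H i t j)).card : ℝ) ≤
      CF * (((b : ℝ) - a) / r) * (∏ h, ∏ p ∈ U h, (3 * ((if p.1 ∣ r then (p.1 : ℝ) else 1) / p.1))) +
        CF * D * (∏ h, ∏ p ∈ U h, (3 * (1 / (p.1 : ℝ)))) := by
    intro U
    have hf := rm_fam hP HW i U r c0 a b hr hab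
    have p1 : (3 : ℝ) ^ (∑ h, (U h).card) * fpr (fun p => (if p ∣ r then (p : ℝ) else 1) / p) U =
        ∏ h, ∏ p ∈ U h, (3 * ((if p.1 ∣ r then (p.1 : ℝ) else 1) / p.1)) := m4_pow 3 _ U
    have p2 : (3 : ℝ) ^ (∑ h, (U h).card) * fpr (fun p => 1 / (p : ℝ)) U =
        ∏ h, ∏ p ∈ U h, (3 * (1 / (p.1 : ℝ))) := m4_pow 3 _ U
    rw [← p1, ← p2]
    have n1 : 0 ≤ fpr (fun p => (if p ∣ r then (p : ℝ) else 1) / p) U := by
      unfold fpr
      exact prod_nonneg fun h _ => prod_nonneg fun p _ => by dsimp only; split_ifs <;> positivity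
    have n2 : 0 ≤ fpr (fun p => 1 / (p : ℝ)) U := by
      unfold fpr
      exact prod_nonneg fun h _ => prod_nonneg fun p _ => by positivity
    have n3 : (0 : ℝ) ≤ (3 : ℝ) ^ (∑ h, (U h).card) := by positivity
    by_cases hcU : c U = 0
    · rw [hcU, zero_mul]
      positivity
    · have hDU := hD U hcU
      have hpos : 0 < ∏ h, ∏ p ∈ U h, (p.1 : ℝ) := prod_pos fun h _ => prod_pos fun p _ => by
        exact_mod_cast (hPp p.1 p.2).pos
      have h2 : fpr (fun p => 1 / (p : ℝ)) U = 1 / ∏ h, ∏ p ∈ U h, (p.1 : ℝ) := by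
        unfold fpr
        simp only [one_div, prod_inv_distrib]
      have h3 : 1 ≤ D * fpr (fun p => 1 / (p : ℝ)) U := by
        rw [h2, mul_one_div, le_div_iff₀ hpos, one_mul]
        exact hDU
      calc c U * (((Ioc a b).filter (fun t => t ≡ c0 [MOD r] ∧ ∀ j, U j ⊆ cfg P H i t j)).card : ℝ)
          ≤ |c U| * (((Ioc a b).filter (fun t => t ≡ c0 [MOD r] ∧ ∀ j, U j ⊆ cfg P H i t j)).card : ℝ) :=
            mul_le_mul_of_nonneg_right (le_abs_self _) (Nat.cast_nonneg _)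
        _ ≤ (CF * (3 : ℝ) ^ (∑ h, (U h).card)) *
            (((b : ℝ) - a) / r * fpr (fun p => (if p ∣ r then (p : ℝ) else 1) / p) U +
              D * fpr (fun p => 1 / (p : ℝ)) U) :=
            mul_le_mul (hc U) (hf.trans (by linarith)) (Nat.cast_nonneg _) (by positivity)
        _ = _ := by ring
  refine (sum_le_sum fun U _ => e2 U).trans ?_
  rw [sum_add_distrib, ← mul_sum, ← mul_sum]
  have s1 : ∑ U : Fam P H, ∏ h, ∏ p ∈ U h, (3 * ((if p.1 ∣ r then (p.1 : ℝ) else 1) / p.1)) ≤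
      4 ^ K * M0 := by
    rw [m4_fam (fun p : {p // p ∈ P} => 3 * ((if p.1 ∣ r then (p.1 : ℝ) else 1) / p.1)),
      m4_all hK (fun p => 1 + 3 * ((if p ∣ r then (p : ℝ) else 1) / p))]
    exact (rm_one hPp K r h1).trans (mul_le_mul_of_nonneg_left hM (by positivity))
  have s2 : ∑ U : Fam P H, ∏ h, ∏ p ∈ U h, (3 * (1 / (p.1 : ℝ))) ≤ M0 := by
    rw [m4_fam (fun p : {p // p ∈ P} => 3 * (1 / (p.1 : ℝ))),
      m4_all hK (fun p => 1 + 3 * (1 / (p : ℝ)))]
    refine le_trans (le_of_eq ?_) hM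
    refine prod_congr rfl fun p _ => ?_
    ring
  have t1 : 0 ≤ CF * (((b : ℝ) - a) / r) := by positivity
  have t2 : 0 ≤ CF * D := by positivity
  calc CF * (((b : ℝ) - a) / r) * ∑ U : Fam P H, ∏ h, ∏ p ∈ U h,
        (3 * ((if p.1 ∣ r then (p.1 : ℝ) else 1) / p.1)) +
        CF * D * ∑ U : Fam P H, ∏ h, ∏ p ∈ U h, (3 * (1 / (p.1 : ℝ)))
      ≤ CF * (((b : ℝ) - a) / r) * (4 ^ K * M0) + CF * D * M0 :=
        add_le_add (mul_le_mul_of_nonneg_left s1 t1) (mul_le_mul_of_nonneg_left s2 t2)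
    _ = _ := by ring

theorem rm_mert {P : Finset ℕ} {W N : ℕ} (K : ℕ) (hP : ∀ p ∈ P, p.Prime ∧ W < p) (hW : 2 ≤ W)
    (hN : ∀ p ∈ P, p ≤ N) (h2N : 2 ≤ N) :
    ∏ p ∈ P, (1 + 3 / (p : ℝ)) ^ K ≤ (500 * (Real.log N / Real.log 2)) ^ (3 * K) := by
  have h1 : ∑ p ∈ P, 1 / (p : ℝ) ≤ Real.log (500 * (Real.log N / Real.log 2)) := by
    refine le_trans ?_ (H15P.mertens_sum_le 2 N le_rfl h2N)
    refine sum_le_sum_of_subset_of_nonneg ?_ (fun p _ _ => by positivity)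
    intro p hp
    rw [mem_filter, mem_Ioc]
    exact ⟨⟨lt_of_le_of_lt hW (hP p hp).2, hN p hp⟩, (hP p hp).1⟩
  have hpos : 0 < 500 * (Real.log N / Real.log 2) := by
    have h2 : 0 < Real.log 2 := Real.log_pos (by norm_num)
    have h3 : 0 < Real.log N := Real.log_pos (by exact_mod_cast (by omega : 1 < N))
    positivity
  have h2 : ∏ p ∈ P, (1 + 3 / (p : ℝ)) ^ K ≤ ∏ p ∈ P, Real.exp ((3 * K : ℕ) * (1 / (p : ℝ))) := by
    refine prod_le_prod (fun p _ => by positivity) fun p _ => ?_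
    have h3 : 1 + 3 / (p : ℝ) ≤ Real.exp (3 / (p : ℝ)) := by
      have := Real.add_one_le_exp (3 / (p : ℝ))
      linarith
    calc (1 + 3 / (p : ℝ)) ^ K ≤ Real.exp (3 / (p : ℝ)) ^ K :=
          pow_le_pow_left₀ (by positivity) h3 K
      _ = Real.exp ((3 * K : ℕ) * (1 / (p : ℝ))) := by
          rw [← Real.exp_nat_mul]
          congr 1
          push_cast
          ring
  refine h2.trans ?_
  rw [← Real.exp_sum, ← mul_sum]
  calc Real.exp (((3 * K : ℕ) : ℝ) * ∑ p ∈ P, 1 / (p : ℝ)) ≤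
        Real.exp (((3 * K : ℕ) : ℝ) * Real.log (500 * (Real.log N / Real.log 2))) :=
        Real.exp_le_exp.2 (mul_le_mul_of_nonneg_left h1 (Nat.cast_nonneg _))
    _ = (500 * (Real.log N / Real.log 2)) ^ (3 * K) := by
        rw [Real.exp_nat_mul, Real.exp_log hpos]

theorem rm_large (C : ℝ) (m : ℕ) : ∃ n0 : ℕ, ∀ N : ℕ, n0 ≤ N → 2 ≤ N ∧ C ≤ Real.log N ∧
    Real.log N ^ m ≤ (N : ℝ) ^ (3 / 100 : ℝ) := by
  have h1 : ∀ᶠ x : ℝ in Filter.atTop, C ≤ Real.log x :=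
    Real.tendsto_log_atTop.eventually_ge_atTop C
  have h2 : ∀ᶠ x : ℝ in Filter.atTop, Real.log x ^ m ≤ x ^ (3 / 100 : ℝ) := by
    have h3 := (isLittleO_log_rpow_rpow_atTop (m : ℝ) (by norm_num : (0 : ℝ) < 3 / 100)).bound
      (by norm_num : (0 : ℝ) < 1)
    filter_upwards [h3, Filter.eventually_ge_atTop 1] with x hx h1x
    rw [Real.rpow_natCast, one_mul, Real.norm_eq_abs, Real.norm_eq_abs,
      abs_of_nonneg (Real.rpow_nonneg (by linarith : (0 : ℝ) ≤ x) (3 / 100))] at hx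
    exact (le_abs_self _).trans hx
  have h3 := tendsto_natCast_atTop_atTop.eventually ((h1.and h2).and (Filter.eventually_ge_atTop (2 : ℝ)))
  obtain ⟨n0, hn0⟩ := Filter.eventually_atTop.1 h3
  refine ⟨n0, fun N hN => ?_⟩
  have h4 := hn0 N hN
  exact ⟨by exact_mod_cast h4.2, h4.1.1, h4.1.2⟩

/-- Upper bound for the weight in one residue class.

Proof. `FF (some h) t = ∑_U c U 1[U ⊆ cfg t]`, `|c U| ≤ L^cF 3^|U|`, `fp U ≤ N^(2θ)`. Only the families with pairwise disjoint sets count (as in `m1_zero`).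
For such `U` the number of the `t ∈ (Ya, Yb]` with `t ≡ c [MOD r]` and `p ∣ t + h'` for all `p ∈ U_h'` is at most `N/lcm(r, fp U) + 1`
(one class modulo the lcm, or none), and `gcd(r, fp U)` is at most the product of the `p` in the `U_h'` which divide `r` (at most one
prime of `P` divides `r`). With `1 ≤ N^(2θ)/fp U` the sums over the families are products (`rm_total`), and
`∏ (1 + 3/p)^K ≤ (500 L/log 2)^(3K)`. -/
theorem rcls (K cF A0 : ℕ) (hK : 1 ≤ K) : ∃ B0 : ℕ, ∀ B : ℕ, B0 ≤ B → ∀ θ : ℝ, 0 < θ →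
    θ ≤ 1 / 100 → ∃ n0 : ℕ, ∀ N : ℕ, n0 ≤ N → ∀ (w : Par K) (H : Finset ℕ) (p1 : ℕ),
    Pre0 B cF θ w H N p1 → ∀ h ∈ H, ∀ r c : ℕ,
    ((∃ q : ℕ, q.Prime ∧ (r = q ∨ r = q ^ 2)) ∨ ∀ p ∈ w.P, r.Coprime p) → 1 ≤ r →
    ∑ t ∈ (Ioc (Ya N) (Yb N)).filter (fun t => t ≡ c [MOD r]), FF w H (some h) t ≤
      Real.log N ^ B * (N / r) / Real.log N ^ A0 + (N : ℝ) ^ (1 / 20 : ℝ) := by
  refine ⟨cF + 3 * K + A0 + 10, fun B hB θ hθ0 hθ => ?_⟩
  obtain ⟨n0, hn0⟩ := rm_large (max 1 ((500 / Real.log 2) ^ (3 * K) * 4 ^ K)) (cF + 3 * K + 1)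
  refine ⟨n0, fun N hN w H p1 hpre h hh r c hr1 hr => ?_⟩
  obtain ⟨h2N, hL, hlog⟩ := hn0 N hN
  have hL1 : 1 ≤ Real.log N := (le_max_left _ _).trans hL
  have hLC := (le_max_right _ _).trans hL
  have hN1 : (1 : ℝ) ≤ N := by exact_mod_cast (by omega : 1 ≤ N)
  have hN0 : (0 : ℝ) < N := by linarith
  have hP : ∀ p ∈ w.P, p.Prime ∧ w.W < p := fun p hp => ⟨w.prime p hp, w.big p hp⟩
  have hW2 : 2 ≤ w.W := by
    have h1 := w.KW
    have h2 : 1 ≤ K ^ 2 := Nat.one_le_pow _ _ hK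
    omega
  have hPN : ∀ p ∈ w.P, p ≤ N := by
    intro p hp
    have h1 := hpre.PN p hp
    have h2 : (N : ℝ) ^ (1 / 100 : ℝ) ≤ (N : ℝ) ^ (1 : ℝ) :=
      Real.rpow_le_rpow_of_exponent_le hN1 (by norm_num)
    rw [Real.rpow_one] at h2
    exact_mod_cast h1.trans h2
  have hM := rm_mert K hP hW2 hPN h2N
  obtain ⟨cU, hF, hc, hD⟩ := hpre.exF
  have hone : ∀ p ∈ w.P, ∀ q ∈ w.P, p ∣ r → q ∣ r → p = q := by
    intro p hp q hq hpr hqr
    have hpp := (hP p hp).1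
    have hqp := (hP q hq).1
    rcases hr1 with ⟨q0, hq0, hr0⟩ | hr0
    · have key : ∀ x : ℕ, x.Prime → x ∣ r → x = q0 := by
        intro x hx hxr
        rcases hr0 with h1 | h1
        · rw [h1] at hxr
          exact (Nat.prime_dvd_prime_iff_eq hx hq0).1 hxr
        · rw [h1] at hxr
          exact (Nat.prime_dvd_prime_iff_eq hx hq0).1 (hx.dvd_of_dvd_pow hxr)
      rw [key p hpp hpr, key q hqp hqr]
    · exfalso
      have h1 := hr0 p hp
      have h2 := Nat.Coprime.eq_one_of_dvd h1.symm hpr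
      exact hpp.one_lt.ne' h2
  have hYab : Ya N ≤ Yb N := by
    unfold Ya Yb
    exact Nat.div_le_div_right (by omega)
  have hYb : (Yb N : ℝ) ≤ N := by
    have : Yb N ≤ N := by
      unfold Yb
      omega
    exact_mod_cast this
  have hYa : (0 : ℝ) ≤ (Ya N : ℝ) := Nat.cast_nonneg _
  have hr' : (0 : ℝ) < r := by exact_mod_cast hr
  have htot := rm_total hpre.cardH hP hpre.HW (some h) (FC w H) cU hF (Real.log N ^ cF)
    ((N : ℝ) ^ (2 * θ)) (by positivity) (by positivity) (fun U => by exact_mod_cast hc U) hD r c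
    (Ya N) (Yb N) hr hYab _ hM hone
  have hlog2 : 0 < Real.log 2 := Real.log_pos (by norm_num)
  have e1 : (500 * (Real.log N / Real.log 2)) ^ (3 * K) =
      (500 / Real.log 2) ^ (3 * K) * Real.log N ^ (3 * K) := by
    rw [← mul_pow]
    congr 1
    ring
  rw [e1] at htot
  have hC1 : (1 : ℝ) ≤ 4 ^ K := one_le_pow₀ (by norm_num)
  have hC2 : 0 ≤ (500 / Real.log 2) ^ (3 * K) := by positivity
  have hC3 : (500 / Real.log 2) ^ (3 * K) ≤ Real.log N := by
    refine le_trans ?_ hLC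
    exact le_mul_of_one_le_right hC2 hC1
  have b1 : Real.log N ^ cF * ((500 / Real.log 2) ^ (3 * K) * Real.log N ^ (3 * K)) *
      (4 ^ K * (((Yb N : ℝ) - Ya N) / r)) ≤ Real.log N ^ B * (N / r) / Real.log N ^ A0 := by
    have s1 : ((Yb N : ℝ) - Ya N) / r ≤ N / r := by
      gcongr
      linarith
    have s2 : Real.log N ^ (cF + 3 * K + 1 + A0) ≤ Real.log N ^ B :=
      pow_le_pow_right₀ hL1 (by omega)
    rw [le_div_iff₀ (by positivity)]
    calc Real.log N ^ cF * ((500 / Real.log 2) ^ (3 * K) * Real.log N ^ (3 * K)) *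
          (4 ^ K * (((Yb N : ℝ) - Ya N) / r)) * Real.log N ^ A0
        ≤ Real.log N ^ cF * ((500 / Real.log 2) ^ (3 * K) * Real.log N ^ (3 * K)) *
          (4 ^ K * (N / r)) * Real.log N ^ A0 := by gcongr
      _ = (Real.log N ^ cF * Real.log N ^ (3 * K) * Real.log N ^ A0 * (N / r)) *
          ((500 / Real.log 2) ^ (3 * K) * 4 ^ K) := by ring
      _ ≤ (Real.log N ^ cF * Real.log N ^ (3 * K) * Real.log N ^ A0 * (N / r)) * Real.log N :=
          mul_le_mul_of_nonneg_left hLC (by positivity)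
      _ = Real.log N ^ (cF + 3 * K + 1 + A0) * (N / r) := by ring
      _ ≤ Real.log N ^ B * (N / r) := mul_le_mul_of_nonneg_right s2 (by positivity)
  have b2 : Real.log N ^ cF * ((500 / Real.log 2) ^ (3 * K) * Real.log N ^ (3 * K)) *
      (N : ℝ) ^ (2 * θ) ≤ (N : ℝ) ^ (1 / 20 : ℝ) := by
    have s1 : (N : ℝ) ^ (2 * θ) ≤ (N : ℝ) ^ (1 / 50 : ℝ) :=
      Real.rpow_le_rpow_of_exponent_le hN1 (by linarith)
    calc Real.log N ^ cF * ((500 / Real.log 2) ^ (3 * K) * Real.log N ^ (3 * K)) * (N : ℝ) ^ (2 * θ)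
        ≤ Real.log N ^ cF * (Real.log N * Real.log N ^ (3 * K)) * (N : ℝ) ^ (1 / 50 : ℝ) := by gcongr
      _ = Real.log N ^ (cF + 3 * K + 1) * (N : ℝ) ^ (1 / 50 : ℝ) := by ring
      _ ≤ (N : ℝ) ^ (3 / 100 : ℝ) * (N : ℝ) ^ (1 / 50 : ℝ) :=
          mul_le_mul_of_nonneg_right hlog (by positivity)
      _ = (N : ℝ) ^ (1 / 20 : ℝ) := by
          rw [← Real.rpow_add hN0]
          norm_num
  calc ∑ t ∈ (Ioc (Ya N) (Yb N)).filter (fun t => t ≡ c [MOD r]), FF w H (some h) t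
      ≤ Real.log N ^ cF * ((500 / Real.log 2) ^ (3 * K) * Real.log N ^ (3 * K)) *
        (4 ^ K * (((Yb N : ℝ) - Ya N) / r) + (N : ℝ) ^ (2 * θ)) := htot
    _ = Real.log N ^ cF * ((500 / Real.log 2) ^ (3 * K) * Real.log N ^ (3 * K)) *
        (4 ^ K * (((Yb N : ℝ) - Ya N) / r)) +
        Real.log N ^ cF * ((500 / Real.log 2) ^ (3 * K) * Real.log N ^ (3 * K)) *
        (N : ℝ) ^ (2 * θ) := by ring
    _ ≤ _ := add_le_add b1 b2

theorem rm_forms {K : ℕ} (w : Par K) (H : Finset ℕ) (hK : 1 ≤ K) (hH : H.card = K)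
    (hW : ∀ h ∈ H, h ≤ w.W) : H15P.Forms w.P w.W K 1 (fun h : {h // h ∈ H} => h.1) where
  prime := w.prime
  big := w.big
  cop := fun p hp hd => (w.prime p hp).one_lt.ne' (Nat.dvd_one.1 hd)
  dist := by
    intro p hp j j' hne hmod
    apply hne
    apply Subtype.ext
    exact Nat.ModEq.eq_of_lt_of_lt hmod (lt_of_le_of_lt (hW _ j.2) (w.big p hp))
      (lt_of_le_of_lt (hW _ j'.2) (w.big p hp))
  one_le := hK
  card := by rw [Fintype.card_coe, hH]
  KW := w.KW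

/-- Proof. `Par.four_le` with `M = 1`, `b h = h`, `Y = N + 1`; `z ≥ 1`; `w.h ≤ L^3`, `w.lv ≤ N^θ`:
`∑ L^4 ≤ 2 ((n+1)^4 (1 + L^3))^K (N + 1) + 2 N^(4θ) ≤ L^B N` if `B ≥ 4 K + 10` and `N` is large. -/
theorem rmom (K m : ℕ) (hK : 1 ≤ K) : ∃ B0 : ℕ, ∀ B : ℕ, B0 ≤ B → ∀ θ : ℝ, 0 < θ →
    θ ≤ 1 / 100 → ∃ n0 : ℕ, ∀ N : ℕ, n0 ≤ N → ∀ (w : Par K) (H : Finset ℕ), w.n = m →
    w.h ≤ Real.log N ^ 3 → w.lv ≤ (N : ℝ) ^ θ → H.card = K → (∀ h ∈ H, h ≤ w.W) →
    200 * K ^ 2 ≤ w.W →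
    ∑ t ∈ Icc 1 N, FF w H none t ^ 2 ≤ Real.log N ^ B * N := by
  refine ⟨4 * K + 10, fun B hB θ hθ0 hθ => ?_⟩
  obtain ⟨n0, hn0⟩ := rm_large (max 2 (2 * ((m : ℝ) + 1) ^ 4)) 1
  refine ⟨n0, fun N hN w H hm hh hlv hH hW h200 => ?_⟩
  obtain ⟨h2N, hL, -⟩ := hn0 N hN
  have hL2 : 2 ≤ Real.log N := (le_max_left _ _).trans hL
  have hLC := (le_max_right _ _).trans hL
  have hL1 : 1 ≤ Real.log N := by linarith
  have hN1 : (1 : ℝ) ≤ N := by exact_mod_cast (by omega : 1 ≤ N)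
  have hN0 : (0 : ℝ) < N := by linarith
  have h4 := w.four_le (J := {h // h ∈ H}) (by rw [Fintype.card_coe, hH]) 1 (fun h => h.1)
    (rm_forms w H hK hH hW) h200 (N + 1)
  have hz := w.z_bounds
  have hzK : 1 ≤ w.z ^ K := one_le_pow₀ hz.1
  have s1 : ∑ t ∈ Icc 1 N, FF w H none t ^ 2 ≤
      ∑ t ∈ range (N + 1), w.L (fun j : {h // h ∈ H} => H15P.hit w.P (j.1 + 1 * t)) ^ 4 := by
    have hsub : Icc 1 N ⊆ range (N + 1) := by
      intro t ht
      rw [mem_Icc] at ht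
      rw [mem_range]
      omega
    refine le_trans (sum_le_sum fun t _ => ?_) (sum_le_sum_of_subset_of_nonneg hsub
      (f := fun t => w.L (fun j : {h // h ∈ H} => H15P.hit w.P (j.1 + 1 * t)) ^ 4)
      (fun t _ _ => by positivity))
    have e : cfg w.P H none t = fun j : {h // h ∈ H} => H15P.hit w.P (j.1 + 1 * t) := by
      funext j
      unfold cfg
      rw [if_neg (by simp), one_mul, add_comm]
    unfold FF
    rw [e, div_pow, ← pow_mul, show 2 * 2 = 4 from rfl]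
    exact div_le_self (by positivity) (one_le_pow₀ hzK)
  have s2 : (((w.n : ℝ) + 1) ^ 4 * (1 + w.h)) ^ K ≤ Real.log N ^ (4 * K) := by
    rw [pow_mul]
    have h1 : 0 ≤ w.h := w.h0
    refine pow_le_pow_left₀ (by positivity) ?_ K
    have h2 : 1 + w.h ≤ 2 * Real.log N ^ 3 := by
      have : 1 ≤ Real.log N ^ 3 := one_le_pow₀ hL1
      linarith
    calc ((w.n : ℝ) + 1) ^ 4 * (1 + w.h) ≤ ((w.n : ℝ) + 1) ^ 4 * (2 * Real.log N ^ 3) :=
          mul_le_mul_of_nonneg_left h2 (by positivity)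
      _ = (2 * ((w.n : ℝ) + 1) ^ 4) * Real.log N ^ 3 := by ring
      _ ≤ Real.log N * Real.log N ^ 3 := by
          rw [hm]
          exact mul_le_mul_of_nonneg_right hLC (by positivity)
      _ = Real.log N ^ 4 := by ring
  have s3 : w.lv ^ 4 ≤ N := by
    have h1 : (0 : ℝ) ≤ w.lv := by
      have := w.lv1
      linarith
    calc w.lv ^ 4 ≤ ((N : ℝ) ^ θ) ^ 4 := pow_le_pow_left₀ h1 hlv 4
      _ = (N : ℝ) ^ (θ * (4 : ℕ)) := by rw [Real.rpow_mul hN0.le, Real.rpow_natCast]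
      _ ≤ (N : ℝ) ^ (1 : ℝ) := Real.rpow_le_rpow_of_exponent_le hN1 (by push_cast; linarith)
      _ = N := Real.rpow_one _
  have s4 : Real.log N ^ (4 * K + 3) ≤ Real.log N ^ B := pow_le_pow_right₀ hL1 (by omega)
  have s5 : (8 : ℝ) ≤ Real.log N ^ 3 := by
    calc (8 : ℝ) = 2 ^ 3 := by norm_num
      _ ≤ Real.log N ^ 3 := pow_le_pow_left₀ (by norm_num) hL2 3
  have s6 : (1 : ℝ) ≤ Real.log N ^ (4 * K) := one_le_pow₀ hL1
  calc ∑ t ∈ Icc 1 N, FF w H none t ^ 2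
      ≤ 2 * (((w.n : ℝ) + 1) ^ 4 * (1 + w.h)) ^ K * ((N + 1 : ℕ) : ℝ) + 2 * w.lv ^ 4 := s1.trans h4
    _ ≤ 2 * Real.log N ^ (4 * K) * (2 * N) + 2 * N := by
        refine add_le_add ?_ (by linarith)
        have : ((N + 1 : ℕ) : ℝ) ≤ 2 * N := by
          push_cast
          linarith
        gcongr
    _ ≤ 8 * (Real.log N ^ (4 * K) * N) := by
        have h1 : (N : ℝ) ≤ Real.log N ^ (4 * K) * N := le_mul_of_one_le_left hN0.le s6
        linarith
    _ ≤ Real.log N ^ 3 * (Real.log N ^ (4 * K) * N) := mul_le_mul_of_nonneg_right s5 (by positivity)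
    _ = Real.log N ^ (4 * K + 3) * N := by ring
    _ ≤ Real.log N ^ B * N := mul_le_mul_of_nonneg_right s4 hN0.le

end Pool.Agent.Lib.H57C
end

-- from Lib.H59C.CE1
section

/-!
# CE1: negligible primes
-/

open Finset

namespace Pool.Agent.Lib.H59C

theorem ce1_dvd (N p d : ℕ) : d ∣ Nat.dist N p ↔ p ≡ N [MOD d] := by
  unfold Nat.dist
  rcases le_total p N with h | h
  · rw [Nat.sub_eq_zero_of_le h, add_zero, Nat.modEq_iff_dvd' h]
  · rw [Nat.sub_eq_zero_of_le h, zero_add, ← Nat.modEq_iff_dvd' h]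
    exact ⟨fun h => h.symm, fun h => h.symm⟩

theorem ce1_count (N y1 y2 m n : ℕ) (h12 : y1 ≤ y2) (h : y2 ≤ n) (hm : 0 < m) :
    (((Ioc y1 y2).filter (fun p => m ∣ Nat.dist N p)).card : ℝ) ≤ n / m + 1 := by
  have e1 : (Ioc y1 y2).filter (fun p => m ∣ Nat.dist N p) =
      (Ioc y1 y2).filter (fun p => p ≡ N [MOD m]) := by
    apply filter_congr
    intro p _
    exact ce1_dvd N p m
  rw [e1]
  have h1 := Nat.Ioc_filter_modEq_card y1 y2 hm N
  have hm' : (0 : ℝ) < m := by exact_mod_cast hm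
  have h2 : ((((Ioc y1 y2).filter (fun p => p ≡ N [MOD m])).card : ℕ) : ℝ) =
      ((max (⌊((y2 : ℚ) - N) / m⌋ - ⌊((y1 : ℚ) - N) / m⌋) 0 : ℤ) : ℝ) := by
    exact_mod_cast h1
  rw [h2]
  have h3 : (⌊((y2 : ℚ) - N) / m⌋ : ℝ) ≤ ((y2 : ℝ) - N) / m := by
    have := Int.floor_le (((y2 : ℚ) - N) / m)
    have h4 : (((⌊((y2 : ℚ) - N) / m⌋ : ℤ) : ℚ) : ℝ) ≤ ((((y2 : ℚ) - N) / m : ℚ) : ℝ) := by
      exact_mod_cast this
    push_cast at h4
    exact h4
  have h4 : ((y1 : ℝ) - N) / m - 1 ≤ (⌊((y1 : ℚ) - N) / m⌋ : ℝ) := by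
    have := Int.lt_floor_add_one (((y1 : ℚ) - N) / m)
    have h5 : ((((y1 : ℚ) - N) / m : ℚ) : ℝ) < ((((⌊((y1 : ℚ) - N) / m⌋ : ℤ) : ℚ) + 1 : ℚ) : ℝ) := by
      exact_mod_cast this
    push_cast at h5
    linarith
  have h5 : (0 : ℝ) ≤ n / m + 1 := by positivity
  rw [Int.cast_max]
  apply max_le
  · push_cast
    have h6 : ((y2 : ℝ) - N) / m - ((y1 : ℝ) - N) / m ≤ n / m := by
      rw [← sub_div]
      apply div_le_div_of_nonneg_right _ hm'.le
      have h7 : (y2 : ℝ) ≤ n := by exact_mod_cast h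
      have h8 : (0 : ℝ) ≤ y1 := Nat.cast_nonneg _
      linarith
    linarith
  · push_cast
    exact h5

open Classical in
/-- Proof. `p ∣ N` or `q² ∣ |N - p|` for a prime `q ≥ z = n^(1/8)`. The prime divisors `p > y1 ≥ n/16` of `N ≤ 2 n` are at most
`1` (`n` large; or at most `log N/log 2`). For fixed `q` the number of `p ∈ (y1, y2]` with
`p ≡ N [MOD q²]` is at most `n/q² + 1`, and `0 < |N - p| ≤ 2 n` forces `q² ≤ 2 n`; `∑_{q ≥ z} n/q² ≤ 2 n/z + ...`. So the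
sum is at most `log n (3 n^(7/8) + √(2n) + 2 log n) ≤ n^(9/10)`. -/
theorem bad_sq : ∃ n0 : ℕ, ∀ n : ℕ, n0 ≤ n → ∀ N y1 y2 : ℕ, Win n N y1 y2 →
    ∑ p ∈ (Sq y1 y2).filter (fun p => p ∣ N ∨ ∃ q : ℕ, q.Prime ∧ zz n ≤ q ∧
      q ^ 2 ∣ Nat.dist N p), lg p ≤ (n : ℝ) ^ (9 / 10 : ℝ) := by
  obtain ⟨n1, hn1⟩ := cdl_log_pow 1 6 (1 / 40) (by norm_num) (by norm_num)
  obtain ⟨n2, hn2⟩ := cdl_zz 2
  refine ⟨n1 + n2 + 1000, fun n hn N y1 y2 hW => ?_⟩
  have hN : (1000 : ℝ) ≤ n := by exact_mod_cast (by omega : 1000 ≤ n)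
  have hL : 0 < Real.log n := Real.log_pos (by linarith)
  have h6 := hn1 n (by omega)
  rw [pow_one] at h6
  have hz2 := hn2 n (by omega)
  have hzpos : 0 < zz n := by linarith
  -- the two sets
  obtain ⟨U, hU⟩ : ∃ U : Finset ℕ, U = (Sq y1 y2).filter (fun p => p ∣ N) := ⟨_, rfl⟩
  obtain ⟨W, hWd⟩ : ∃ W : Finset ℕ, W = (Sq y1 y2).filter
    (fun p => ∃ q : ℕ, q.Prime ∧ zz n ≤ q ∧ q ^ 2 ∣ Nat.dist N p) := ⟨_, rfl⟩
  have hUc : U.card ≤ 1 := by
    rw [card_le_one]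
    intro a ha b hb
    by_contra hab
    rw [hU, mem_filter, mem_Sq] at ha hb
    have hcop : Nat.Coprime a b := (Nat.coprime_primes ha.1.2 hb.1.2).mpr hab
    have h1 : a * b ∣ N := Nat.Coprime.mul_dvd_of_dvd_of_dvd hcop ha.2 hb.2
    have h2 : a * b ≤ N := Nat.le_of_dvd hW.N0 h1
    have h3 := hW.N2
    have h4 := hW.lo
    have h5 : y1 * y1 < a * b := Nat.mul_lt_mul_of_lt_of_le ha.1.1.1 hb.1.1.1.le (by omega)
    nlinarith
  obtain ⟨k, hk⟩ : ∃ k : ℕ, k + 1 = ⌈zz n⌉₊ := by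
    have : 0 < ⌈zz n⌉₊ := Nat.ceil_pos.mpr hzpos
    exact ⟨⌈zz n⌉₊ - 1, by omega⟩
  have hkz : zz n ≤ (k : ℝ) + 1 := by
    have := Nat.le_ceil (zz n)
    rw [← hk] at this
    exact_mod_cast this
  obtain ⟨m, hm⟩ : ∃ m : ℕ, m = Nat.sqrt (2 * n) := ⟨_, rfl⟩
  have hWc : (W.card : ℝ) ≤ 2 * (n : ℝ) ^ (7 / 8 : ℝ) + 2 * (n : ℝ) ^ (1 / 2 : ℝ) := by
    have hsub : W ⊆ (Ioo k (m + 1)).biUnion
        (fun q => (Ioc y1 y2).filter (fun p => q ^ 2 ∣ Nat.dist N p)) := by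
      intro p hp
      rw [hWd, mem_filter, mem_Sq] at hp
      obtain ⟨⟨⟨hp1, hp2⟩, hpp⟩, q, hq, hqz, hqd⟩ := hp
      rw [mem_biUnion]
      refine ⟨q, ?_, ?_⟩
      · rw [mem_Ioo]
        constructor
        · have : ⌈zz n⌉₊ ≤ q := Nat.ceil_le.mpr hqz
          omega
        · have h1 : 0 < Nat.dist N p := by
            unfold Nat.dist
            have h2 := hW.side
            have h3 := hW.lt
            omega
          have h2 : q ^ 2 ≤ Nat.dist N p := Nat.le_of_dvd h1 hqd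
          have h3 : Nat.dist N p ≤ 2 * n := by
            unfold Nat.dist
            have := hW.N2
            have := hW.le
            omega
          have h4 : q ≤ m := by
            rw [hm, Nat.le_sqrt']
            omega
          omega
      · rw [mem_filter, mem_Ioc]
        exact ⟨⟨hp1, hp2⟩, hqd⟩
    have h1 : W.card ≤ ∑ q ∈ Ioo k (m + 1),
        ((Ioc y1 y2).filter (fun p => q ^ 2 ∣ Nat.dist N p)).card :=
      (card_le_card hsub).trans card_biUnion_le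
    have h2 : (W.card : ℝ) ≤ ∑ q ∈ Ioo k (m + 1),
        (((Ioc y1 y2).filter (fun p => q ^ 2 ∣ Nat.dist N p)).card : ℝ) := by
      exact_mod_cast h1
    have h3 : ∑ q ∈ Ioo k (m + 1),
        (((Ioc y1 y2).filter (fun p => q ^ 2 ∣ Nat.dist N p)).card : ℝ) ≤
        ∑ q ∈ Ioo k (m + 1), (n * ((q : ℝ) ^ 2)⁻¹ + 1) := by
      apply sum_le_sum
      intro q hq
      rw [mem_Ioo] at hq
      have h4 := ce1_count N y1 y2 (q ^ 2) n hW.lt.le hW.le (by
        have : 0 < q := by omega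
        positivity)
      rw [Nat.cast_pow] at h4
      rwa [div_eq_mul_inv] at h4
    have h4 : ∑ q ∈ Ioo k (m + 1), (n * ((q : ℝ) ^ 2)⁻¹ + 1) ≤ n * (2 / ((k : ℝ) + 1)) + m := by
      rw [sum_add_distrib, ← mul_sum]
      apply add_le_add
      · apply mul_le_mul_of_nonneg_left _ (by linarith)
        exact sum_Ioo_inv_sq_le (α := ℝ) k (m + 1)
      · rw [sum_const, nsmul_eq_mul, mul_one, Nat.card_Ioo]
        have : m + 1 - k - 1 ≤ m := by omega
        exact_mod_cast this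
    have h5 : (n : ℝ) * (2 / ((k : ℝ) + 1)) ≤ 2 * (n : ℝ) ^ (7 / 8 : ℝ) := by
      have h6 : (n : ℝ) * (2 / ((k : ℝ) + 1)) ≤ n * (2 / zz n) := by
        apply mul_le_mul_of_nonneg_left _ (by linarith)
        exact div_le_div_of_nonneg_left (by norm_num) hzpos hkz
      refine h6.trans (le_of_eq ?_)
      have h7 : (n : ℝ) = (n : ℝ) ^ (7 / 8 : ℝ) * zz n := by
        unfold zz
        rw [← Real.rpow_add (by linarith)]
        norm_num
      have h8 : (n : ℝ) * (2 / zz n) = (n : ℝ) ^ (7 / 8 : ℝ) * zz n * (2 / zz n) := by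
        rw [← h7]
      rw [h8]
      field_simp
    have h6 : (m : ℝ) ≤ 2 * (n : ℝ) ^ (1 / 2 : ℝ) := by
      have h7 : (m : ℝ) ≤ Real.sqrt (2 * n) := by
        rw [hm]
        have := Real.nat_sqrt_le_real_sqrt (a := 2 * n)
        push_cast at this
        exact this
      have h8 : Real.sqrt (2 * n) ≤ Real.sqrt (4 * n) := Real.sqrt_le_sqrt (by linarith)
      have h9 : Real.sqrt (4 * n) = 2 * (n : ℝ) ^ (1 / 2 : ℝ) := by
        rw [Real.sqrt_mul (by norm_num), ← Real.sqrt_eq_rpow]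
        congr 1
        rw [show (4 : ℝ) = 2 ^ 2 by norm_num, Real.sqrt_sq (by norm_num)]
      linarith
    linarith
  have hlg : ∀ p ∈ Sq y1 y2, lg p ≤ Real.log n := by
    intro p hp
    rw [mem_Sq] at hp
    unfold lg
    apply Real.log_le_log
    · exact_mod_cast hp.2.pos
    · exact_mod_cast hp.1.2.trans hW.le
  have hlg0 : ∀ p, 0 ≤ lg p := by
    intro p
    unfold lg
    exact Real.log_natCast_nonneg p
  have hpow1 : 1 ≤ (n : ℝ) ^ (7 / 8 : ℝ) := Real.one_le_rpow (by linarith) (by norm_num)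
  have hpow2 : (n : ℝ) ^ (1 / 2 : ℝ) ≤ (n : ℝ) ^ (7 / 8 : ℝ) :=
    Real.rpow_le_rpow_of_exponent_le (by linarith) (by norm_num)
  calc ∑ p ∈ (Sq y1 y2).filter (fun p => p ∣ N ∨ ∃ q : ℕ, q.Prime ∧ zz n ≤ q ∧
      q ^ 2 ∣ Nat.dist N p), lg p ≤ ∑ p ∈ U ∪ W, lg p := by
        apply sum_le_sum_of_subset_of_nonneg
        · intro p hp
          rw [mem_filter] at hp
          rw [mem_union, hU, hWd, mem_filter, mem_filter]
          rcases hp.2 with h | h
          · left; exact ⟨hp.1, h⟩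
          · right; exact ⟨hp.1, h⟩
        · intro p _ _
          exact hlg0 p
    _ ≤ ∑ p ∈ U ∪ W, Real.log n := by
        apply sum_le_sum
        intro p hp
        apply hlg
        rw [mem_union, hU, hWd, mem_filter, mem_filter] at hp
        rcases hp with h | h
        · exact h.1
        · exact h.1
    _ = ((U ∪ W).card : ℝ) * Real.log n := by
        rw [sum_const, nsmul_eq_mul]
    _ ≤ (5 * (n : ℝ) ^ (7 / 8 : ℝ)) * Real.log n := by
        apply mul_le_mul_of_nonneg_right _ hL.le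
        have h1 : ((U ∪ W).card : ℝ) ≤ (U.card : ℝ) + W.card := by
          exact_mod_cast card_union_le U W
        have h2 : (U.card : ℝ) ≤ 1 := by exact_mod_cast hUc
        linarith
    _ ≤ (n : ℝ) ^ (7 / 8 : ℝ) * (n : ℝ) ^ (1 / 40 : ℝ) := by
        have h1 : 5 * Real.log n ≤ (n : ℝ) ^ (1 / 40 : ℝ) := by linarith
        calc 5 * (n : ℝ) ^ (7 / 8 : ℝ) * Real.log n = (n : ℝ) ^ (7 / 8 : ℝ) * (5 * Real.log n) := by
              ring
          _ ≤ _ := mul_le_mul_of_nonneg_left h1 (by positivity)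
    _ = (n : ℝ) ^ (9 / 10 : ℝ) := by
        rw [← Real.rpow_add (by linarith)]
        norm_num

end Pool.Agent.Lib.H59C
end

-- from Lib.H92G.W2
section

/-!
# Chunk W2: upper bounds for the elements without prime factor in `P`

Compare `H15P/WIN3` (`win_rough`).
-/

open Finset

namespace Pool.Agent.Lib.H92G

open Pool.Agent.Lib.H15P

/-- Level of the majorant. -/
theorem w2_lev {w : WG} {A B : Finset ℕ} {M : ℕ} (h : w.Sys A B M)
    (Zs : Finset {b // b ∈ B}) (wm : ℝ) (hwm : 0 < wm)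
    (hw : ∀ l ∈ adm (univ \ Zs) w.m, |wZ (w.Df A B) w.m Zs l| ≤ wm) :
    Lev (∏ p ∈ w.P, p) (fun t =>
      LW (w.Df A B) (adm (univ \ Zs) w.m) (wZ (w.Df A B) w.m Zs)
        (fun j : {b // b ∈ B} => hit w.P (j.1 + M * t)) ^ 2 *
          ∏ j ∈ Zs, w.lm (hit w.P (j.1 + M * t)))
      (wm ^ 2 * w.lv ^ 2 * w.lv ^ Zs.card) := by
  have h1 : Lev (∏ p ∈ w.P, p) (fun t => ∏ j ∈ Zs, w.lm (hit w.P (j.1 + M * t)))
      (w.lv ^ Zs.card) := by
    have h2 := Lev.prod Zs (fun (j : {b // b ∈ B}) (t : ℕ) => w.lm (hit w.P (j.1 + M * t)))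
      (fun _ => w.lv) (w1_Qpos w) (fun j _ => w.levlm M j.1)
    rw [Finset.prod_const] at h2
    exact h2
  have h3 := w.levL {b // b ∈ B} (fun j => decide (j.1 ∈ A)) (univ \ Zs) M (fun j => j.1)
    (fun l => if l ∈ adm (univ \ Zs) w.m then wZ (w.Df A B) w.m Zs l / wm else 0)
    (by rw [Fintype.card_coe]; exact h.cardB) (by
      intro l
      split_ifs with hl
      · rw [abs_div, abs_of_pos hwm, div_le_one hwm]
        exact hw l hl
      · rw [abs_zero]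
        exact zero_le_one)
  have h4 := Lev.const_mul h3 wm
  rw [abs_of_pos hwm] at h4
  have h5 : (fun t : ℕ => wm * LW (fun j : {b // b ∈ B} => w.DJ (decide (j.1 ∈ A)))
      (adm (univ \ Zs) w.m)
      (fun l => if l ∈ adm (univ \ Zs) w.m then wZ (w.Df A B) w.m Zs l / wm else 0)
      (fun j => hit w.P (j.1 + M * t))) = fun t : ℕ =>
      LW (w.Df A B) (adm (univ \ Zs) w.m) (wZ (w.Df A B) w.m Zs)
        (fun j : {b // b ∈ B} => hit w.P (j.1 + M * t)) := by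
    funext t
    unfold LW
    rw [Finset.mul_sum]
    refine Finset.sum_congr rfl fun l hl => ?_
    beta_reduce
    rw [if_pos hl, ← mul_assoc, mul_div_cancel₀ _ hwm.ne']
    rfl
  rw [h5] at h4
  have h6 := Lev.mul (w1_Qpos w) (Lev.pow (w1_Qpos w) h4 2) h1
  rw [mul_pow] at h6
  exact h6

/-- General bound for the configurations where no prime divides the forms of `Zs`. -/
theorem w2_gen {w : WG} {A B : Finset ℕ} {M : ℕ} (h : w.Sys A B M) (Y : ℕ)
    (Zs : Finset {b // b ∈ B}) (wm : ℝ) (hwm : 0 < wm)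
    (hw : ∀ l ∈ adm (univ \ Zs) w.m, |wZ (w.Df A B) w.m Zs l| ≤ wm) (E : ℝ)
    (hE : EX (qq w.P w.K) (fun S : {b // b ∈ B} → Finset {p // p ∈ w.P} =>
      LW (w.Df A B) (adm (univ \ Zs) w.m) (wZ (w.Df A B) w.m Zs) S ^ 2 *
        ∏ j ∈ Zs, w.lm (S j)) ≤ E * ZG (qq w.P w.K) (w.Df A B) univ) :
    ∑ t ∈ range Y, w.nu A B M t *
        (if ∀ j ∈ Zs, hit w.P (j.1 + M * t) = ∅ then 1 else 0) ≤
      Y * ((1 + w.e) * E) + 2 * (wm ^ 2 * w.lv ^ 2 * w.lv ^ Zs.card) := by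
  set Z := ZG (qq w.P w.K) (w.Df A B) univ with hZ
  have hZ1 : 1 ≤ Z := w1_one_le_ZG w A B
  have hZpos : 0 < Z := by linarith
  set F : ({b // b ∈ B} → Finset {p // p ∈ w.P}) → ℝ := fun S =>
    LW (w.Df A B) (adm (univ \ Zs) w.m) (wZ (w.Df A B) w.m Zs) S ^ 2 *
        ∏ j ∈ Zs, w.lm (S j) with hF
  have hF0 : ∀ S, 0 ≤ F S := fun S =>
    mul_nonneg (sq_nonneg _) (Finset.prod_nonneg fun j _ => w.lm0 _)
  have hterm : ∀ t, w.nu A B M t * (if ∀ j ∈ Zs, hit w.P (j.1 + M * t) = ∅ then 1 else 0) ≤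
      F (fun j => hit w.P (j.1 + M * t)) / Z := by
    intro t
    split_ifs with hh
    · rw [mul_one]
      unfold WG.nu
      rw [← hZ]
      apply div_le_div_of_nonneg_right _ hZpos.le
      rw [LG_restrict (w.Df A B) w.m univ Zs (Finset.subset_univ _)
        (fun j => hit w.P (j.1 + M * t)) hh]
      show _ ≤ LW (w.Df A B) (adm (univ \ Zs) w.m) (wZ (w.Df A B) w.m Zs)
        (fun j => hit w.P (j.1 + M * t)) ^ 2 * ∏ j ∈ Zs, w.lm (hit w.P (j.1 + M * t))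
      rw [Finset.prod_congr rfl (fun j hj => by rw [hh j hj, w.lm1]), Finset.prod_const_one,
        mul_one]
    · rw [mul_zero]
      exact div_nonneg (hF0 _) hZpos.le
  have havg := h.avg_le F hF0 _ (w2_lev h Zs wm hwm hw) Y
  refine (Finset.sum_le_sum fun t _ => hterm t).trans ?_
  rw [← Finset.sum_div, div_le_iff₀ hZpos]
  refine havg.trans ?_
  have he0 := w.e0
  have h1 := mul_le_mul_of_nonneg_left hE (by linarith : 0 ≤ 1 + w.e)
  have h2 := mul_le_mul_of_nonneg_left h1 (Nat.cast_nonneg Y : (0 : ℝ) ≤ Y)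
  have h3 : 0 ≤ 2 * (wm ^ 2 * w.lv ^ 2 * w.lv ^ Zs.card) := by
    have := zero_le_one.trans w.lv1
    positivity
  have h4 := mul_le_mul_of_nonneg_left hZ1 h3
  nlinarith


/-- Allowed forms. -/
theorem w2_allowed {w : WG} {A B : Finset ℕ} {M : ℕ} (h : w.Sys A B M) (Y : ℕ)
    (Zs : Finset {b // b ∈ B}) (hZs : ∀ j ∈ Zs, j.1 ∈ A) :
    ∑ t ∈ range Y, w.nu A B M t *
        (if ∀ j ∈ Zs, hit w.P (j.1 + M * t) = ∅ then 1 else 0) ≤
      Y * ((1 + w.e) * ((w.g ^ Zs.card) ^ 2 * w.el ^ Zs.card)) +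
        2 * ((w.g ^ Zs.card) ^ 2 * w.lv ^ 2 * w.lv ^ Zs.card) := by
  have hg0 : 0 < w.g := zero_lt_one.trans_le w.one_le_g
  have hX0 : 0 ≤ ex (qq w.P w.K) w.lm := ex_nonneg _ w.good.q0 w.good.q1 _ w.lm0
  have hw : ∀ l, |wZ (w.Df A B) w.m Zs l| ≤ w.g ^ Zs.card := by
    intro l
    obtain ⟨h1, h2⟩ := wZ_bounds (w.Df A B) w.m Zs l
      (fun j hj => (w.sum_allowed A B j (hZs j hj)).1)
    rw [abs_of_nonneg h1]
    refine h2.trans (le_of_eq ?_)
    rw [Finset.prod_congr rfl (fun j hj => (w.sum_allowed A B j (hZs j hj)).2),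
      Finset.prod_const]
  refine w2_gen h Y Zs (w.g ^ Zs.card) (pow_pos hg0 _) (fun l _ => hw l) _ ?_
  refine (EX_maj_le (qq w.P w.K) (w.Df A B) w.h (w.good_Df A B) w.m univ Zs (w.g ^ Zs.card) hw
    w.lm w.lm0).trans ?_
  have h1 := w1_one_le_ZG w A B
  have h2 : ex (qq w.P w.K) w.lm ^ Zs.card ≤ w.el ^ Zs.card :=
    pow_le_pow_left₀ hX0 w.lmel _
  have h3 : 0 ≤ (w.g ^ Zs.card) ^ 2 * ZG (qq w.P w.K) (w.Df A B) univ :=
    mul_nonneg (sq_nonneg _) (by linarith)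
  have h4 := mul_le_mul_of_nonneg_left h2 h3
  nlinarith


/-- Two allowed forms: `Z = {b, b'}`, `wZ ≤ g^2`, `EX_maj_le`: mean value at most
`g^4 ZG el^2`; level `g^4 lv^2 lv^2`. -/
theorem WG.Sys.two_le {w : WG} {A B : Finset ℕ} {M : ℕ} (h : w.Sys A B M) (Y : ℕ)
    (hY : w.Long Y) (b b' : ℕ) (hb : b ∈ A) (hb' : b' ∈ A) (hne : b ≠ b') :
    ∑ t ∈ range Y, w.nu A B M t *
        (if hit w.P (b + M * t) = ∅ ∧ hit w.P (b' + M * t) = ∅ then 1 else 0) ≤
      2 * w.g ^ 4 * w.el ^ 2 * Y := by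
  have h1 := w2_allowed h Y {(⟨b, h.AB hb⟩ : {b // b ∈ B}), ⟨b', h.AB hb'⟩} (by
    intro j hj
    rcases Finset.mem_insert.1 hj with hj | hj
    · rw [hj]
      exact hb
    · rw [Finset.mem_singleton.1 hj]
      exact hb')
  have hc : ({(⟨b, h.AB hb⟩ : {b // b ∈ B}), ⟨b', h.AB hb'⟩} : Finset {b // b ∈ B}).card = 2 := by
    apply Finset.card_pair
    intro hh
    exact hne (congrArg Subtype.val hh)
  rw [hc] at h1
  simp only [Finset.mem_insert, Finset.mem_singleton, forall_eq_or_imp, forall_eq] at h1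
  refine h1.trans ?_
  have herr := (w1_err w Y hY 4 4 le_rfl le_rfl).2
  have hg := w.one_le_g
  have hg4 : 1 ≤ w.g ^ 4 := one_le_pow₀ hg
  have he0 := w.e0
  have he1 := w.e1
  have hYr : (0 : ℝ) ≤ Y := Nat.cast_nonneg Y
  have h0 : 0 ≤ w.el ^ 2 * Y := mul_nonneg (sq_nonneg _) hYr
  have h2 : w.el ^ 2 * Y ≤ w.g ^ 4 * (w.el ^ 2 * Y) := le_mul_of_one_le_left h0 hg4
  have h3 : w.e * (w.g ^ 4 * (w.el ^ 2 * Y)) ≤ 1 / 10 * (w.g ^ 4 * (w.el ^ 2 * Y)) :=
    mul_le_mul_of_nonneg_right he1 (by positivity)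
  have h4 : w.e * (w.el ^ 2 * Y) ≤ 1 / 10 * (w.el ^ 2 * Y) := mul_le_mul_of_nonneg_right he1 h0
  have h5 : (w.g ^ 2) ^ 2 * w.lv ^ 2 * w.lv ^ 2 = w.g ^ 4 * w.lv ^ 4 := by ring
  rw [h5]
  nlinarith

end Pool.Agent.Lib.H92G
end

-- from Lib.H59C.CW1
section

/-!
# CW1: summing Chen's weights
-/

open Finset

namespace Pool.Agent.Lib.H59C

open Classical in
/-- The good primes. -/
noncomputable def Good (n N y1 y2 : ℕ) : Finset ℕ :=
  (Sq y1 y2).filter (fun p =>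
    (∀ q : ℕ, q.Prime → q ∣ Nat.dist N p → (n : ℝ) ^ (1 / 10 : ℝ) ≤ q) ∧
    ((Nat.dist N p).Prime ∨ ∃ r s : ℕ, r.Prime ∧ s.Prime ∧ Nat.dist N p = r * s))

theorem CW1_lg {n N y1 y2 p : ℕ} (hW : Win n N y1 y2) (hp : p ∈ Sq y1 y2) :
    0 ≤ lg p ∧ lg p ≤ Real.log n := by
  rw [mem_Sq] at hp
  have h1 : (1 : ℝ) ≤ p := by exact_mod_cast hp.2.one_le
  have h2 : (p : ℝ) ≤ n := by exact_mod_cast hp.1.2.trans hW.le
  exact ⟨Real.log_nonneg h1, Real.log_le_log (by linarith) h2⟩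

open Classical in
/-- Proof. Sum the brackets of `pointwise` over the `p ∈ Sq y1 y2` with no `q ∈ PP`, `q < zz n`, dividing `|N - p|`, with
weights `log p`: `sift - (1/2) ∑_{q ∈ QQ} sift_q - (1/2) ∑_{Tri} log p` (in the last sum the condition on the small primes is
dropped) is at most the sum over the exceptional `p` (weight `log p`, bracket `≤ 1`) plus `log n` times the number of the good
`p`. -/
theorem chen_sum : ∃ n0 : ℕ, ∀ n : ℕ, n0 ≤ n → ∀ N y1 y2 p1 : ℕ, Win n N y1 y2 →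
    sift (Sq y1 y2) lg (fun p => Nat.dist N p) (PP n N p1) (zz n) -
      1 / 2 * ∑ q ∈ QQ n N p1, sift ((Sq y1 y2).filter (fun p => q ∣ Nat.dist N p)) lg
        (fun p => Nat.dist N p) (PP n N p1) (zz n) -
      1 / 2 * ∑ p ∈ (Sq y1 y2).filter (fun p => Tri n (Nat.dist N p)), lg p ≤
    Real.log n * ((Good n N y1 y2).card : ℝ) +
      ∑ p ∈ (Sq y1 y2).filter (fun p => p ∣ N ∨ ∃ q : ℕ, q.Prime ∧ zz n ≤ q ∧
        q ^ 2 ∣ Nat.dist N p), lg p +
      ∑ p ∈ (Sq y1 y2).filter (fun p => p1 ∣ Nat.dist N p ∧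
        ∀ q ∈ PP n N p1, (q : ℝ) < zz n → ¬ q ∣ Nat.dist N p), lg p := by
  obtain ⟨n0, hpt⟩ := pointwise
  refine ⟨n0, fun n hn N y1 y2 p1 hW => ?_⟩
  set G := (Sq y1 y2).filter (fun p => ∀ q ∈ PP n N p1, (q : ℝ) < zz n → ¬ q ∣ Nat.dist N p)
    with hG
  set r : ℕ → ℝ := fun p => (((QQ n N p1).filter (fun q => q ∣ Nat.dist N p)).card : ℝ) with hr
  set T : ℕ → ℝ := fun p => if Tri n (Nat.dist N p) then 1 else 0 with hT
  set E1 : ℕ → Prop := fun p => p ∣ N ∨ ∃ q : ℕ, q.Prime ∧ zz n ≤ q ∧ q ^ 2 ∣ Nat.dist N p with hE1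
  set E2 : ℕ → Prop := fun p => p1 ∣ Nat.dist N p ∧
    ∀ q ∈ PP n N p1, (q : ℝ) < zz n → ¬ q ∣ Nat.dist N p with hE2
  have hGm : ∀ p ∈ G, p ∈ Sq y1 y2 := fun p hp => (Finset.mem_filter.1 hp).1
  have hlg : ∀ p ∈ Sq y1 y2, 0 ≤ lg p ∧ lg p ≤ Real.log n := fun p hp => CW1_lg hW hp
  have e1 : sift (Sq y1 y2) lg (fun p => Nat.dist N p) (PP n N p1) (zz n) = ∑ p ∈ G, lg p := rfl
  have e2 : ∑ q ∈ QQ n N p1, sift ((Sq y1 y2).filter (fun p => q ∣ Nat.dist N p)) lg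
      (fun p => Nat.dist N p) (PP n N p1) (zz n) = ∑ p ∈ G, lg p * r p := by
    have h1 : ∀ q ∈ QQ n N p1, sift ((Sq y1 y2).filter (fun p => q ∣ Nat.dist N p)) lg
        (fun p => Nat.dist N p) (PP n N p1) (zz n) =
        ∑ p ∈ G, if q ∣ Nat.dist N p then lg p else 0 := by
      intro q _
      rw [← Finset.sum_filter]
      unfold sift
      refine Finset.sum_congr ?_ fun p _ => rfl
      ext p
      simp only [hG, Finset.mem_filter]
      tauto
    rw [Finset.sum_congr rfl h1, Finset.sum_comm]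
    refine Finset.sum_congr rfl fun p _ => ?_
    rw [← Finset.sum_filter, Finset.sum_const, nsmul_eq_mul, mul_comm]
  have hGsub : G ⊆ Sq y1 y2 := Finset.filter_subset _ _
  have hGs : ∀ p ∈ G, ∀ q ∈ PP n N p1, (q : ℝ) < zz n → ¬ q ∣ Nat.dist N p := fun p hp =>
    (Finset.mem_filter.1 hp).2
  clear_value G
  have e3 : ∑ p ∈ G, lg p * T p ≤ ∑ p ∈ (Sq y1 y2).filter (fun p => Tri n (Nat.dist N p)), lg p := by
    rw [Finset.sum_filter]
    have h1 : ∑ p ∈ G, lg p * T p = ∑ p ∈ G, if Tri n (Nat.dist N p) then lg p else 0 := by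
      refine Finset.sum_congr rfl fun p _ => ?_
      simp only [hT]
      rw [mul_ite, mul_one, mul_zero]
    rw [h1]
    refine Finset.sum_le_sum_of_subset_of_nonneg hGsub fun p hp _ => ?_
    split_ifs
    · exact (hlg p hp).1
    · exact le_rfl
  have hmain : ∀ p ∈ G, lg p * (1 - 1 / 2 * r p - 1 / 2 * T p) ≤
      (if p ∈ Good n N y1 y2 then Real.log n else 0) + (if E1 p then lg p else 0) +
        (if E2 p then lg p else 0) := by
    intro p hp
    have hpS := hGm p hp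
    obtain ⟨hl0, hl1⟩ := hlg p hpS
    have hln : 0 ≤ Real.log n := hl0.trans hl1
    have t1 : 0 ≤ (if p ∈ Good n N y1 y2 then Real.log n else 0) := by
      split_ifs
      · exact hln
      · exact le_rfl
    have t2 : 0 ≤ (if E1 p then lg p else 0) := by
      split_ifs
      · exact hl0
      · exact le_rfl
    have t3 : 0 ≤ (if E2 p then lg p else 0) := by
      split_ifs
      · exact hl0
      · exact le_rfl
    have hr0 : 0 ≤ r p := Nat.cast_nonneg _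
    have hT0 : 0 ≤ T p := by
      simp only [hT]
      split_ifs <;> norm_num
    have hb1 : 1 - 1 / 2 * r p - 1 / 2 * T p ≤ 1 := by linarith
    have hle : lg p * (1 - 1 / 2 * r p - 1 / 2 * T p) ≤ lg p :=
      mul_le_of_le_one_right hl0 hb1
    rcases le_or_gt (1 - 1 / 2 * r p - 1 / 2 * T p) 0 with hb | hb
    · have h1 : lg p * (1 - 1 / 2 * r p - 1 / 2 * T p) ≤ 0 :=
        mul_nonpos_of_nonneg_of_nonpos hl0 hb
      linarith
    · by_cases hc1 : E1 p
      · rw [if_pos hc1]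
        linarith
      · by_cases hc2 : E2 p
        · rw [if_pos hc2]
          linarith
        · have hsift := hGs p hp
          have hN : ¬ p ∣ N := fun h => hc1 (Or.inl h)
          have hsq : ∀ q : ℕ, q.Prime → zz n ≤ q → ¬ q ^ 2 ∣ Nat.dist N p :=
            fun q h1 h2 h3 => hc1 (Or.inr ⟨q, h1, h2, h3⟩)
          have hp1 : ¬ p1 ∣ Nat.dist N p := fun h => hc2 ⟨h, hsift⟩
          have hgood : p ∈ Good n N y1 y2 := by
            unfold Good
            rw [Finset.mem_filter]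
            exact ⟨hpS, hpt n hn N y1 y2 p1 hW p hpS hN hp1 hsq hsift hb⟩
          rw [if_pos hgood]
          linarith
  have hsum : ∑ p ∈ G, lg p * (1 - 1 / 2 * r p - 1 / 2 * T p) ≤
      Real.log n * ((Good n N y1 y2).card : ℝ) + ∑ p ∈ (Sq y1 y2).filter E1, lg p +
        ∑ p ∈ (Sq y1 y2).filter E2, lg p := by
    refine (Finset.sum_le_sum hmain).trans ?_
    rw [Finset.sum_add_distrib, Finset.sum_add_distrib]
    have s1 : ∑ p ∈ G, (if p ∈ Good n N y1 y2 then Real.log n else 0) ≤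
        Real.log n * ((Good n N y1 y2).card : ℝ) := by
      rw [← Finset.sum_filter, Finset.sum_const, nsmul_eq_mul, mul_comm]
      rcases (G.filter (fun p => p ∈ Good n N y1 y2)).eq_empty_or_nonempty with h0 | ⟨p, hp⟩
      · rw [h0, Finset.card_empty, Nat.cast_zero, mul_zero]
        exact mul_nonneg (Real.log_natCast_nonneg n) (Nat.cast_nonneg _)
      · refine mul_le_mul_of_nonneg_left ?_ (Real.log_natCast_nonneg n)
        exact_mod_cast Finset.card_le_card fun p hp => (Finset.mem_filter.1 hp).2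
    have s2 : ∀ (E : ℕ → Prop) [DecidablePred E], ∑ p ∈ G, (if E p then lg p else 0) ≤
        ∑ p ∈ (Sq y1 y2).filter E, lg p := by
      intro E _
      rw [Finset.sum_filter]
      refine Finset.sum_le_sum_of_subset_of_nonneg hGsub fun p hp _ => ?_
      split_ifs
      · exact (hlg p hp).1
      · exact le_rfl
    exact add_le_add (add_le_add s1 (@s2 E1 _)) (@s2 E2 _)
  have e4 : ∑ p ∈ G, lg p * (1 - 1 / 2 * r p - 1 / 2 * T p) =
      ∑ p ∈ G, lg p - 1 / 2 * ∑ p ∈ G, lg p * r p - 1 / 2 * ∑ p ∈ G, lg p * T p := by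
    rw [Finset.mul_sum, Finset.mul_sum, ← Finset.sum_sub_distrib, ← Finset.sum_sub_distrib]
    refine Finset.sum_congr rfl fun p _ => ?_
    ring
  rw [e1, e2]
  refine le_trans ?_ hsum
  rw [e4]
  linarith

end Pool.Agent.Lib.H59C
end
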