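import Pool.Agent.Lib.H1M.RV.M001
import Pool.Agent.Lib.H1M.RV.M006
import Pool.Agent.Lib.H1M.RV.M012
import Pool.Agent.Lib.H1M.RV.M018
import Pool.Agent.Lib.H1M.RV.M019
import Pool.Agent.Lib.H1M.RV.M025
import Pool.Agent.Lib.H1M.RV.M029
import Pool.Agent.Lib.H1M.RV.M031
import Pool.Agent.Lib.H1M.RV.M037

/-! Merged copies (to shorten the build) of Lib.H15P.MK1, Lib.H15P.MK2, Lib.H68X.XBPS, Lib.H18Q.R2B, Lib.H18E.PG2, Lib.H18E.SS3, Lib.H68X.XG1, Lib.H68X.XTW, Lib.H68X.XCG. -/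

-- from Lib.H15P.MK1
section

/-!
# Chunk MK1: verification of the hypotheses on the blocks (block ratio `4000`)
-/

open Finset

namespace Pool.Agent.Lib.H15P

/-- The constant bounding the sums over a block. -/
noncomputable def sig : ℝ := 4 * Real.log (1000 * (4000 : ℕ))

theorem mk1_Tpos {n : ℕ} {T : ℝ} (hT2 : 2 ≤ T / 4000 ^ n) : 2 * 4000 ^ n ≤ T := by
  rw [le_div_iff₀ (by positivity)] at hT2
  exact hT2

/-- `T/κ^i` is decreasing in `i` -/
theorem mk1_div_le {n i : ℕ} {T : ℝ} (hT2 : 2 ≤ T / 4000 ^ n) (hi : i ≤ n) :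
    T / 4000 ^ n ≤ T / ((4000 : ℕ) : ℝ) ^ i := by
  have h1 := mk1_Tpos hT2
  have h2 : (0 : ℝ) < 4000 ^ n := by positivity
  push_cast
  apply div_le_div_of_nonneg_left (by linarith) (by positivity)
  exact pow_le_pow_right₀ (by norm_num) hi

theorem mk1_big (W : ℕ) (T : ℝ) : ∀ p ∈ PP W T, W < p := by
  intro p hp
  unfold PP at hp
  rw [Finset.mem_filter, Finset.mem_Ioc] at hp
  exact hp.1.1

/-- Chunk MK1. `block_sum_le`, `p0_le` (`1000/4000 = 1/4`; for `b < n`: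
`T/κ^(b+1) ≥ T/κ^n`), `qq ≤ 2/p ≤ 1/2`, and `4000^n ≤ T/2` gives `n ≤ N`. -/
theorem blocks_ok (W K n r0 : ℕ) (T : ℝ) (hW : 2 ≤ W) (hK : 1 ≤ K) (hKW : 4 * K ^ 2 ≤ W)
    (hr0 : ∀ c S : ℕ, ∑ s ∈ Ioc (2 * (r0 + c)) S, (16 * sig) ^ s / (s.factorial : ℝ)
      ≤ (1 / 4) ^ (c + 1))
    (hT1 : Real.log W ≤ T / 4000 ^ n) (hT2 : 2 ≤ T / 4000 ^ n) :
    Blocks (qq (PP W T) K) (fun i => bk 4000 T i.1) sig r0 n (Nat.log 4000 ⌊2 * T⌋₊ + 1) := by
  have hT := mk1_Tpos hT2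
  have h4 : (0 : ℝ) < 4000 ^ n := by positivity
  refine ⟨fun i => qq_nonneg _ _ i, ?_, ?_, hr0, ?_, ?_⟩
  · intro i
    have h1 := qq_le (PP W T) W K hK hKW (mk1_big W T) i
    refine h1.trans ?_
    have h2 := mk1_big W T i.1 i.2
    have h3 : 4 ≤ W := by nlinarith
    have h5 : (4 : ℝ) ≤ (i.1 : ℝ) := by
      have : 4 ≤ i.1 := by omega
      exact_mod_cast this
    rw [div_le_iff₀ (by linarith)]
    linarith
  · intro b
    exact block_sum_le 4000 W K T (by norm_num) hW hK hKW (by linarith) b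
  · have h1 : (4000 : ℕ) ^ n ≤ ⌊2 * T⌋₊ := by
      apply Nat.le_floor
      push_cast
      linarith
    have h2 : n ≤ Nat.log 4000 ⌊2 * T⌋₊ := Nat.le_log_of_pow_le (by norm_num) h1
    omega
  · intro b hb
    have h1 := p0_le 4000 W K T (by norm_num) hW hK hKW b
      (hT1.trans (mk1_div_le hT2 (by omega))) (hT2.trans (mk1_div_le hT2 (by omega)))
    refine h1.trans ?_
    norm_num

end Pool.Agent.Lib.H15P
end

-- from Lib.H15P.MK2
section

/-!
# Chunk MK2: construction of the data from numerical inequalities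
-/

open Finset

namespace Pool.Agent.Lib.H15P

theorem mk2_prime (W : ℕ) (T : ℝ) : ∀ p ∈ PP W T, p.Prime := by
  intro p hp
  unfold PP at hp
  rw [Finset.mem_filter] at hp
  exact hp.2

theorem mk2_LevS_mono {P : Finset ℕ} {F : Finset {p // p ∈ P} → ℝ} {K K' : ℝ}
    (h : LevS P F K) (hK : K ≤ K') : LevS P F K' :=
  fun M b => Lev.mono _ _ _ (h M b) hK


end Pool.Agent.Lib.H15P
end

-- from Lib.H68X.XBPS
section

/-!
# Chunk XBPS: local averages of the exceptional character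
-/

open Finset MeasureTheory

namespace Pool.Agent.Lib.H68T

theorem XBPS_pow {a b s : ℝ} (ha : 1 ≤ a) (hab : a ≤ b) (hs0 : s ≤ 0) (hs : -1 ≤ s) :
    0 ≤ a ^ s - b ^ s ∧ a ^ s - b ^ s ≤ (b - a) / b := by
  have ha0 : 0 < a := by linarith
  have hb0 : 0 < b := by linarith
  constructor
  · have := Real.rpow_le_rpow_of_nonpos ha0 hab hs0
    linarith
  · have h1 : 1 ≤ b / a := by rwa [one_le_div ha0]
    have h2 : (b / a) ^ (-1 : ℝ) ≤ (b / a) ^ s := Real.rpow_le_rpow_of_exponent_le h1 hs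
    have h3 : b ^ s = a ^ s * (b / a) ^ s := by
      rw [← Real.mul_rpow ha0.le (by positivity)]
      congr 1
      field_simp
    have h4 : (b / a) ^ (-1 : ℝ) = a / b := by
      rw [Real.rpow_neg_one, inv_div]
    have h5 : a ^ s ≤ 1 := Real.rpow_le_one_of_one_le_of_nonpos ha hs0
    have h6 : 0 ≤ a ^ s := Real.rpow_nonneg ha0.le _
    have h7 : a / b ≤ 1 := by rwa [div_le_one hb0]
    have h8 : (b - a) / b = 1 - a / b := by field_simp
    rw [h3, h8]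
    rw [h4] at h2
    nlinarith

theorem XBPS_pow' {a b s : ℝ} (ha : 1 ≤ a) (hb : 1 ≤ b) (hs0 : s ≤ 0) (hs : -1 ≤ s) :
    |a ^ s - b ^ s| ≤ |a - b| / a := by
  have ha0 : 0 < a := by linarith
  have hb0 : 0 < b := by linarith
  rcases le_total a b with h | h
  · obtain ⟨h1, h2⟩ := XBPS_pow ha h hs0 hs
    rw [abs_of_nonneg h1, abs_of_nonpos (by linarith), neg_sub]
    refine h2.trans ?_
    exact div_le_div_of_nonneg_left (by linarith) ha0 h
  · obtain ⟨h1, h2⟩ := XBPS_pow hb h hs0 hs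
    rw [abs_of_nonpos (by linarith), neg_sub, abs_of_nonneg (by linarith)]
    exact h2


end Pool.Agent.Lib.H68T
end

-- from Lib.H18Q.R2B
section

/-!
# Project H18Q, chunk R2B: port of `B1_le` to the regime `RegP`
-/

open Finset

namespace Pool.Agent.Lib.H18Q

open Pool.Agent.Lib.H68T

/-- PORT of `B1_le` (`H68X/XBPS.lean`) to `RegP` (use `BPS_regimeP` and the lemmas of `R0.lean`, which
have the names of those in `H68T/RegL.lean`). -/
theorem B1_leP : ∃ K : ℝ, 1 ≤ K ∧ ∀ Q X : ℕ, RegP K Q X →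
    ∀ p : Σ r : ℕ, DirichletCharacter ℂ r,
    1 ≤ p.1 → ∀ β : ℝ, 1 / 2 ≤ β → β ≤ 1 → ∀ m : ℤ, (X : ℤ) ≤ m → m ≤ 4 * X →
    ‖∑ n ∈ Icc 1 (60 * X), ((lp n * tent (X / Q ^ 2) (m - n) : ℝ) : ℂ) * p.2 (n : ZMod p.1) +
      (((m : ℝ) ^ (β - 1) : ℝ) : ℂ)‖ ≤
      (∫ t in (-(Q : ℝ) ^ 7)..((Q : ℝ) ^ 7), ‖FL X p t + Fb X β t‖) +
        (Q : ℝ) ^ (-(3 / 2) : ℝ) := by
  obtain ⟨K₀, hK₀1, hK₀⟩ := BPS_regimeP
  refine ⟨|K₀| + 20, by have := abs_nonneg K₀; linarith, fun Q X h p _ β hβ hβ1 m hm1 hm2 => ?_⟩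
  have hab := abs_nonneg K₀
  have hle := le_abs_self K₀
  have hr0 : RegP K₀ Q X := h.mono (by linarith) (by linarith)
  have hr1 : RegP 20 Q X := h.mono (by linarith) (by linarith)
  have hQ20 : (20 : ℝ) ≤ Q := hr1.Q_ge (by norm_num)
  obtain ⟨hQ, hX, hY, hYX, hXY, hbd⟩ := hK₀ Q X hr0
  have hQ' : (0:ℝ) < Q := by exact_mod_cast hQ
  have hX' : (0:ℝ) < X := by exact_mod_cast hX
  have hX1 : (1:ℝ) ≤ X := by exact_mod_cast hX
  have hm' : (X:ℝ) ≤ m := by exact_mod_cast hm1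
  have hm1' : (1:ℝ) ≤ m := by linarith
  have hpw : ∀ n : ℕ, 1 ≤ n → ‖((((n : ℝ) ^ (β - 1) : ℝ)) : ℂ)‖ ≤ 1 := by
    intro n hn
    have hn1 : (1:ℝ) ≤ n := by exact_mod_cast hn
    rw [Complex.norm_real, Real.norm_of_nonneg (Real.rpow_nonneg (by linarith) _)]
    exact Real.rpow_le_one_of_one_le_of_nonpos hn1 (by linarith)
  have hsum : ∑ n ∈ Icc 1 (60 * X), ‖(ArithmeticFunction.vonMangoldt n : ℂ) * p.2 (n : ZMod p.1) +
      (((n : ℝ) ^ (β - 1) : ℝ) : ℂ)‖ ≤ 700 * X := by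
    calc ∑ n ∈ Icc 1 (60 * X), ‖(ArithmeticFunction.vonMangoldt n : ℂ) * p.2 (n : ZMod p.1) +
        (((n : ℝ) ^ (β - 1) : ℝ) : ℂ)‖
        ≤ ∑ n ∈ Icc 1 (60 * X), (‖(ArithmeticFunction.vonMangoldt n : ℂ) *
          p.2 (n : ZMod p.1)‖ + 1) := by
          apply Finset.sum_le_sum
          intro n hn
          refine (norm_add_le _ _).trans ?_
          have := hpw n (mem_Icc.1 hn).1
          linarith
      _ = ∑ n ∈ Icc 1 (60 * X), ‖(ArithmeticFunction.vonMangoldt n : ℂ) *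
          p.2 (n : ZMod p.1)‖ + 60 * X := by
          rw [Finset.sum_add_distrib, Finset.sum_const, Nat.card_Icc]
          simp
      _ ≤ 700 * X := by
          have := BPS_sum_norm (X := X) p
          linarith
  have h1 := BPS_general hQ hX hY hYX hXY
    (fun n => (ArithmeticFunction.vonMangoldt n : ℂ) * p.2 (n : ZMod p.1) +
      (((n : ℝ) ^ (β - 1) : ℝ) : ℂ)) (D := 700)
    (by norm_num) hsum m hm1 hm2
  have h2 := BPS_replace (Y := X / Q ^ 2) hX (fun n => p.2 (n : ZMod p.1))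
    (fun n => DirichletCharacter.norm_le_one _ _) m
  have hmass := BPS_mass (Y := X / Q ^ 2) hY hYX hm1 hm2
  have h3 : ‖(((m : ℝ) ^ (β - 1) : ℝ) : ℂ) - ∑ n ∈ Icc 1 (60 * X),
      (((n : ℝ) ^ (β - 1) : ℝ) : ℂ) * (tent (X / Q ^ 2) (m - n) : ℂ)‖ ≤ 1 / (Q : ℝ) ^ 2 := by
    have e1 : (((m : ℝ) ^ (β - 1) : ℝ) : ℂ) - ∑ n ∈ Icc 1 (60 * X),
        (((n : ℝ) ^ (β - 1) : ℝ) : ℂ) * (tent (X / Q ^ 2) (m - n) : ℂ) =
        ((∑ n ∈ Icc 1 (60 * X), ((m : ℝ) ^ (β - 1) - (n : ℝ) ^ (β - 1)) *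
          tent (X / Q ^ 2) (m - n) : ℝ) : ℂ) := by
      have : ((m : ℝ) ^ (β - 1) : ℝ) = ∑ n ∈ Icc 1 (60 * X), (m : ℝ) ^ (β - 1) *
          tent (X / Q ^ 2) (m - n) := by
        rw [← Finset.mul_sum, hmass, mul_one]
      simp only [sub_mul, Finset.sum_sub_distrib]
      rw [← this]
      push_cast
      ring
    rw [e1, Complex.norm_real, Real.norm_eq_abs]
    refine (Finset.abs_sum_le_sum_abs _ _).trans ?_
    calc ∑ n ∈ Icc 1 (60 * X), |((m : ℝ) ^ (β - 1) - (n : ℝ) ^ (β - 1)) *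
          tent (X / Q ^ 2) (m - n)|
        ≤ ∑ n ∈ Icc 1 (60 * X), 1 / (Q : ℝ) ^ 2 * tent (X / Q ^ 2) (m - n) := by
          apply Finset.sum_le_sum
          intro n hn
          have hn1 : (1:ℝ) ≤ n := by exact_mod_cast (mem_Icc.1 hn).1
          rw [abs_mul, abs_of_nonneg (BPS_tent_nonneg _ _)]
          rcases le_or_gt ((X / Q ^ 2 : ℕ) : ℤ) |m - n| with h5 | h5
          · rw [BPS_tent_zero h5, mul_zero, mul_zero]
          · apply mul_le_mul_of_nonneg_right _ (BPS_tent_nonneg _ _)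
            refine (XBPS_pow' hm1' hn1 (by linarith) (by linarith)).trans ?_
            have h6 : |(m : ℝ) - n| ≤ ((X / Q ^ 2 : ℕ) : ℝ) := by
              have h9 : |m - (n : ℤ)| ≤ ((X / Q ^ 2 : ℕ) : ℤ) := h5.le
              have h8 : ((|m - (n : ℤ)| : ℤ) : ℝ) ≤ (((X / Q ^ 2 : ℕ) : ℤ) : ℝ) :=
                Int.cast_le.2 h9
              rw [Int.cast_abs, Int.cast_sub, Int.cast_natCast, Int.cast_natCast] at h8
              exact h8
            have h7 : ((X / Q ^ 2 : ℕ) : ℝ) ≤ (X : ℝ) / (Q : ℝ) ^ 2 := by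
              have := Nat.cast_div_le (α := ℝ) (m := X) (n := Q ^ 2)
              push_cast at this
              exact this
            calc |(m : ℝ) - n| / m ≤ ((X : ℝ) / (Q : ℝ) ^ 2) / X := by
                  apply div_le_div₀ (by positivity) (h6.trans h7) hX' hm'
              _ = 1 / (Q : ℝ) ^ 2 := by field_simp
      _ = 1 / (Q : ℝ) ^ 2 := by rw [← Finset.mul_sum, hmass, mul_one]
  have h4 : ∑ n ∈ Icc 1 (60 * X), ((lp n * tent (X / Q ^ 2) (m - n) : ℝ) : ℂ) *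
      p.2 (n : ZMod p.1) + (((m : ℝ) ^ (β - 1) : ℝ) : ℂ) =
      (∑ n ∈ Icc 1 (60 * X), ((lp n * tent (X / Q ^ 2) (m - n) : ℝ) : ℂ) * p.2 (n : ZMod p.1) -
        ∑ n ∈ Icc 1 (60 * X), (ArithmeticFunction.vonMangoldt n : ℂ) * p.2 (n : ZMod p.1) *
          (tent (X / Q ^ 2) (m - n) : ℂ)) +
      ∑ n ∈ Icc 1 (60 * X), ((ArithmeticFunction.vonMangoldt n : ℂ) * p.2 (n : ZMod p.1) +
        (((n : ℝ) ^ (β - 1) : ℝ) : ℂ)) * (tent (X / Q ^ 2) (m - n) : ℂ) +
      ((((m : ℝ) ^ (β - 1) : ℝ) : ℂ) - ∑ n ∈ Icc 1 (60 * X),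
        (((n : ℝ) ^ (β - 1) : ℝ) : ℂ) * (tent (X / Q ^ 2) (m - n) : ℂ)) := by
    simp only [add_mul, Finset.sum_add_distrib]
    ring
  have h5 : (∫ t in (-(Q : ℝ) ^ 7)..((Q : ℝ) ^ 7), ‖FL X p t + Fb X β t‖) =
      ∫ t in (-(Q : ℝ) ^ 7)..((Q : ℝ) ^ 7),
        ‖FF X (fun n => (ArithmeticFunction.vonMangoldt n : ℂ) * p.2 (n : ZMod p.1) +
          (((n : ℝ) ^ (β - 1) : ℝ) : ℂ)) t‖ := by
    congr 1
    ext t
    congr 1
    unfold FL Fb FF
    rw [← Finset.sum_add_distrib]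
    apply Finset.sum_congr rfl
    intro n _
    ring
  rw [h4, h5]
  refine (norm_add₃_le).trans ?_
  have h6 : 1 / (Q : ℝ) ^ 2 + (Q : ℝ) ^ (-(5 / 2) : ℝ) ≤ (Q : ℝ) ^ (-(3 / 2) : ℝ) := by
    have e1 : (Q : ℝ) ^ (-(5 / 2) : ℝ) = (Q : ℝ) ^ (-(3 / 2) : ℝ) * (1 / Q) := by
      rw [show (-(5 / 2) : ℝ) = -(3 / 2) + (-1) by norm_num, Real.rpow_add hQ', Real.rpow_neg_one,
        one_div]
    have e2 : 1 / (Q : ℝ) ^ 2 = (Q : ℝ) ^ (-(3 / 2) : ℝ) * (1 / Real.sqrt Q) := by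
      rw [Real.sqrt_eq_rpow, one_div ((Q : ℝ) ^ (1 / 2 : ℝ)), ← Real.rpow_neg hQ'.le,
        ← Real.rpow_add hQ', show (-(3 / 2) + -(1 / 2) : ℝ) = -((2 : ℕ) : ℝ) by norm_num,
        Real.rpow_neg hQ'.le, Real.rpow_natCast, one_div]
    have e3 : 1 / (Q : ℝ) ≤ 1 / 20 := one_div_le_one_div_of_le (by norm_num) hQ20
    have e4 : 1 / Real.sqrt Q ≤ 1 / 4 := by
      apply one_div_le_one_div_of_le (by norm_num)
      rw [show (4 : ℝ) = Real.sqrt 16 by
        rw [show (16 : ℝ) = 4 ^ 2 by norm_num, Real.sqrt_sq (by norm_num)]]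
      exact Real.sqrt_le_sqrt (by linarith)
    have e5 : 0 < (Q : ℝ) ^ (-(3 / 2) : ℝ) := Real.rpow_pos_of_pos hQ' _
    rw [e1, e2]
    nlinarith
  linarith

end Pool.Agent.Lib.H18Q
end

-- from Lib.H18E.PG2
section

/-!
# Chunk PG2: weighted correlations
-/

open Finset Pool.Agent.Lib.H68T

namespace Pool.Agent.Lib.H18E

/-- Copy of `pair_general` (file `H68X/XPAIR.lean`) with arbitrary starting points; use `corr_gen`
instead of `cg1_corr`. -/
theorem pair_gen (Q N W : ℕ) (hW : 0 < W) (x y : ℤ)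
    (A A' : ℕ → ℕ → ℝ) (D : ℝ) (hD : 0 ≤ D) (hA0 : ∀ q c, 0 ≤ A q c) (hAD : ∀ q c, A q c ≤ D)
    (hA0' : ∀ q c, 0 ≤ A' q c) (hAD' : ∀ q c, A' q c ≤ D)
    (hA : ∀ q, Antitone (A q) ∨ Monotone (A q)) (hA' : ∀ q, Antitone (A' q) ∨ Monotone (A' q)) :
    |(∑ c ∈ range N,
        (∑ q ∈ QW Q W, (ArithmeticFunction.moebius q : ℝ) / (Nat.totient q : ℝ) *
          cq q (x + W * (c : ℕ)) * A q c) *
        (∑ q ∈ QW Q W, (ArithmeticFunction.moebius q : ℝ) / (Nat.totient q : ℝ) *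
          cq q (y + W * (c : ℕ)) * A' q c)) -
      ∑ q ∈ QW Q W, ((ArithmeticFunction.moebius q : ℝ) / (Nat.totient q : ℝ)) ^ 2 *
        cq q (x - y) * ∑ c ∈ range N, A q c * A' q c| ≤ 2 * D ^ 2 * (Q : ℝ) ^ 6 := by
  set α : ℕ → ℝ := fun q => (ArithmeticFunction.moebius q : ℝ) / (Nat.totient q : ℝ) with hα
  set xx : ℕ → ℕ → ℕ → ℝ := fun q₁ q₂ c =>
    cq q₁ (x + W * (c : ℕ)) * cq q₂ (y + W * (c : ℕ)) -
      (if q₁ = q₂ then cq q₁ (x - y) else 0) with hx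
  have hmain : (∑ c ∈ range N,
        (∑ q ∈ QW Q W, α q * cq q (x + W * (c : ℕ)) * A q c) *
        (∑ q ∈ QW Q W, α q * cq q (y + W * (c : ℕ)) * A' q c)) -
      ∑ q ∈ QW Q W, (α q) ^ 2 * cq q (x - y) * ∑ c ∈ range N, A q c * A' q c =
      ∑ q₁ ∈ QW Q W, ∑ q₂ ∈ QW Q W, α q₁ * α q₂ *
        ∑ c ∈ range N, A' q₂ c * (A q₁ c * xx q₁ q₂ c) := by
    have h1 : (∑ c ∈ range N,
        (∑ q ∈ QW Q W, α q * cq q (x + W * (c : ℕ)) * A q c) *
        (∑ q ∈ QW Q W, α q * cq q (y + W * (c : ℕ)) * A' q c)) =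
        ∑ q₁ ∈ QW Q W, ∑ q₂ ∈ QW Q W, α q₁ * α q₂ *
        ∑ c ∈ range N, A' q₂ c * (A q₁ c *
          (cq q₁ (x + W * (c : ℕ)) * cq q₂ (y + W * (c : ℕ)))) := by
      have h2 : ∀ c ∈ range N,
        (∑ q ∈ QW Q W, α q * cq q (x + W * (c : ℕ)) * A q c) *
        (∑ q ∈ QW Q W, α q * cq q (y + W * (c : ℕ)) * A' q c) =
        ∑ q₁ ∈ QW Q W, ∑ q₂ ∈ QW Q W, α q₁ * α q₂ *
          (A' q₂ c * (A q₁ c *
          (cq q₁ (x + W * (c : ℕ)) * cq q₂ (y + W * (c : ℕ))))) := by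
        intro c _
        rw [sum_mul_sum]
        apply sum_congr rfl
        intro q₁ _
        apply sum_congr rfl
        intro q₂ _
        ring
      rw [sum_congr rfl h2, sum_comm]
      apply sum_congr rfl
      intro q₁ _
      rw [sum_comm]
      apply sum_congr rfl
      intro q₂ _
      rw [mul_sum]
    have h3 : ∑ q ∈ QW Q W, (α q) ^ 2 * cq q (x - y) * ∑ c ∈ range N, A q c * A' q c =
        ∑ q₁ ∈ QW Q W, ∑ q₂ ∈ QW Q W, α q₁ * α q₂ *
        ∑ c ∈ range N, A' q₂ c * (A q₁ c * (if q₁ = q₂ then cq q₁ (x - y) else 0)) := by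
      apply sum_congr rfl
      intro q₁ hq₁
      symm
      refine (sum_eq_single q₁ ?_ ?_).trans ?_
      · intro q₂ _ hne
        rw [if_neg (Ne.symm hne)]
        simp
      · intro h
        exact absurd hq₁ h
      · rw [if_pos rfl, mul_sum, mul_sum]
        apply sum_congr rfl
        intro c _
        ring
    rw [h1, h3, ← sum_sub_distrib]
    apply sum_congr rfl
    intro q₁ _
    rw [← sum_sub_distrib]
    apply sum_congr rfl
    intro q₂ _
    rw [← mul_sub, ← sum_sub_distrib]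
    congr 1
    apply sum_congr rfl
    intro c _
    rw [hx]
    ring
  rw [hmain]
  rcases Nat.lt_or_ge Q 2 with hQ | hQ
  · have hzero : ∑ q₁ ∈ QW Q W, ∑ q₂ ∈ QW Q W, α q₁ * α q₂ *
        ∑ c ∈ range N, A' q₂ c * (A q₁ c * xx q₁ q₂ c) = 0 := by
      apply sum_eq_zero
      intro q₁ hq₁
      apply sum_eq_zero
      intro q₂ hq₂
      have h1 := XPAIR_mem hq₁
      have h2 := XPAIR_mem hq₂
      have e1 : q₁ = 1 := by omega
      have e2 : q₂ = 1 := by omega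
      rw [e1, e2]
      have : ∑ c ∈ range N, A' 1 c * (A 1 c * xx 1 1 c) = 0 := by
        apply sum_eq_zero
        intro c _
        rw [hx]
        simp [XPAIR_cq_one]
      rw [this, mul_zero]
    rw [hzero, abs_zero]
    positivity
  have hterm : ∀ q₁ ∈ QW Q W, ∀ q₂ ∈ QW Q W,
      |α q₁ * α q₂ * ∑ c ∈ range N, A' q₂ c * (A q₁ c * xx q₁ q₂ c)| ≤
      4 * D ^ 2 * ((|α q₁| * ∑ d ∈ q₁.divisors, (d : ℝ)) *
        (|α q₂| * ∑ d ∈ q₂.divisors, (d : ℝ))) := by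
    intro q₁ hq₁ q₂ hq₂
    have h1 := XPAIR_mem hq₁
    have h2 := XPAIR_mem hq₂
    have h3 := XPAIR_two N (A q₁) (A' q₂) (xx q₁ q₂) D
      ((∑ d ∈ q₁.divisors, (d : ℝ)) * ∑ d ∈ q₂.divisors, (d : ℝ)) hD (fun N' _ => ?_)
      (hA0 q₁) (hAD q₁) (hA q₁) (hA0' q₂) (hAD' q₂) (hA' q₂)
    · rw [abs_mul, abs_mul]
      calc |α q₁| * |α q₂| * |∑ c ∈ range N, A' q₂ c * (A q₁ c * xx q₁ q₂ c)|
          ≤ |α q₁| * |α q₂| * (4 * D ^ 2 * ((∑ d ∈ q₁.divisors, (d : ℝ)) *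
            ∑ d ∈ q₂.divisors, (d : ℝ))) := mul_le_mul_of_nonneg_left h3 (by positivity)
        _ = _ := by ring
    · have h4 := corr_gen q₁ q₂ W N' x y h1.1 h2.1 h1.2.1 h2.2.1
      have h5 : ∑ c ∈ range N', xx q₁ q₂ c = ∑ c ∈ range N', cq q₁ (x + W * (c : ℕ)) *
          cq q₂ (y + W * (c : ℕ)) -
          N' * (if q₁ = q₂ then cq q₁ (x - y) else 0) := by
        rw [hx]
        simp only
        rw [sum_sub_distrib, sum_const, card_range, nsmul_eq_mul]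
      rw [h5]
      exact h4
  set Y : ℕ → ℝ := fun q => |α q| * ∑ d ∈ q.divisors, (d : ℝ) with hY
  have hS : ∑ q ∈ QW Q W, Y q ≤ (Q : ℝ) ^ 2 := XPAIR_sum_le Q W
  have hS0 : 0 ≤ ∑ q ∈ QW Q W, Y q := by
    apply sum_nonneg
    intro q _
    rw [hY]
    positivity
  have hQ2 : (2 : ℝ) ≤ Q := by exact_mod_cast hQ
  calc |∑ q₁ ∈ QW Q W, ∑ q₂ ∈ QW Q W, α q₁ * α q₂ *
        ∑ c ∈ range N, A' q₂ c * (A q₁ c * xx q₁ q₂ c)|
      ≤ ∑ q₁ ∈ QW Q W, ∑ q₂ ∈ QW Q W, 4 * D ^ 2 * (Y q₁ * Y q₂) :=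
        (abs_sum_le_sum_abs _ _).trans (sum_le_sum fun q₁ hq₁ =>
          (abs_sum_le_sum_abs _ _).trans (sum_le_sum fun q₂ hq₂ => hterm q₁ hq₁ q₂ hq₂))
    _ = 4 * D ^ 2 * ((∑ q ∈ QW Q W, Y q) * (∑ q ∈ QW Q W, Y q)) := by
        rw [sum_mul_sum, mul_sum]
        apply sum_congr rfl
        intro q₁ _
        rw [mul_sum]
    _ ≤ 4 * D ^ 2 * ((Q : ℝ) ^ 2 * (Q : ℝ) ^ 2) := by
        apply mul_le_mul_of_nonneg_left _ (by positivity)
        exact mul_le_mul hS hS hS0 (by positivity)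
    _ ≤ 2 * D ^ 2 * (Q : ℝ) ^ 6 := by
        have h6 : (4 : ℝ) ≤ (Q : ℝ) ^ 2 := by nlinarith
        have h7 : 0 ≤ D ^ 2 * (Q : ℝ) ^ 4 := by positivity
        nlinarith

end Pool.Agent.Lib.H18E
end

-- from Lib.H18E.SS3
section

/-!
# Chunk SS3: the mean of Rankin's factor
-/

open Finset Pool.Agent.Lib.H68T

namespace Pool.Agent.Lib.H18E

theorem SS3_g0 (p : ℕ) (hp : 2 ≤ p) : 0 ≤ Real.sqrt p / ((p : ℝ) - 1) := by
  have : (2 : ℝ) ≤ p := by exact_mod_cast hp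
  exact div_nonneg (Real.sqrt_nonneg _) (by linarith)

theorem SS3_g1 (p : ℕ) (hp : 2 ≤ p) :
    Real.sqrt p / ((p : ℝ) - 1) / p ≤ 2 * (p : ℝ) ^ (-(3 / 2) : ℝ) := by
  have h2 : (2 : ℝ) ≤ p := by exact_mod_cast hp
  have hp0 : (0 : ℝ) < p := by linarith
  have e : (p : ℝ) ^ (-(3 / 2) : ℝ) = Real.sqrt p / (p : ℝ) ^ 2 := by
    rw [Real.sqrt_eq_rpow, eq_div_iff (by positivity), ← Real.rpow_natCast,
      ← Real.rpow_add hp0]
    norm_num
  rw [e, div_div]
  have hs : 0 ≤ Real.sqrt p := Real.sqrt_nonneg _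
  rw [← mul_div_assoc, div_le_div_iff₀ (by nlinarith) (by positivity)]
  nlinarith [mul_nonneg hs (mul_nonneg hp0.le (by linarith : (0 : ℝ) ≤ p - 2))]

theorem SS3_count (n : ℕ) (S : Finset ℕ) (hS : ∀ p ∈ S, p.Prime) :
    (((Icc 1 n).filter (fun x => S ⊆ x.primeFactors)).card : ℝ) ≤ n * ∏ p ∈ S, (1 / (p : ℝ)) := by
  have h1 : ((Icc 1 n).filter (fun x => S ⊆ x.primeFactors)) ⊆
      (Ioc 0 n).filter (fun x => (∏ p ∈ S, p) ∣ x) := by
    intro x hx
    rw [mem_filter, mem_Icc] at hx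
    rw [mem_filter, mem_Ioc]
    refine ⟨⟨by omega, hx.1.2⟩, ?_⟩
    exact Finset.prod_primes_dvd x (fun p hp => (hS p hp).prime)
      (fun p hp => Nat.dvd_of_mem_primeFactors (hx.2 hp))
  have h2 := card_le_card h1
  rw [Nat.Ioc_filter_dvd_card_eq_div] at h2
  have h3 : (((Icc 1 n).filter (fun x => S ⊆ x.primeFactors)).card : ℝ) ≤
      ((n / (∏ p ∈ S, p) : ℕ) : ℝ) := by exact_mod_cast h2
  refine h3.trans ?_
  refine (Nat.cast_div_le).trans ?_
  rw [div_eq_mul_inv]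
  push_cast
  rw [← Finset.prod_inv_distrib]
  simp only [one_div]
  exact le_refl _

theorem SS3_mean (n : ℕ) : ∑ x ∈ Icc 1 n, ∏ p ∈ x.primeFactors,
    (1 + Real.sqrt p / ((p : ℝ) - 1)) ≤
    n * ∏ p ∈ (Icc 1 n).filter Nat.Prime, (1 + Real.sqrt p / ((p : ℝ) - 1) / p) := by
  set P := (Icc 1 n).filter Nat.Prime with hP
  have h1 : ∀ x ∈ Icc 1 n, ∏ p ∈ x.primeFactors, (1 + Real.sqrt p / ((p : ℝ) - 1)) =
      ∑ S ∈ P.powerset, if S ⊆ x.primeFactors then ∏ p ∈ S, Real.sqrt p / ((p : ℝ) - 1) else 0 := by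
    intro x hx
    rw [mem_Icc] at hx
    rw [Finset.prod_one_add, ← Finset.sum_filter]
    apply Finset.sum_congr _ (fun _ _ => rfl)
    ext S
    simp only [mem_powerset, mem_filter]
    constructor
    · intro h
      refine ⟨fun p hp => ?_, h⟩
      have h3 := h hp
      rw [Nat.mem_primeFactors] at h3
      rw [hP, mem_filter, mem_Icc]
      have := Nat.le_of_dvd (by omega) h3.2.1
      exact ⟨⟨h3.1.one_lt.le, by omega⟩, h3.1⟩
    · exact fun h => h.2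
  rw [Finset.sum_congr rfl h1, Finset.sum_comm]
  rw [Finset.prod_one_add, Finset.mul_sum]
  apply Finset.sum_le_sum
  intro S hS
  rw [mem_powerset] at hS
  have hSp : ∀ p ∈ S, p.Prime := fun p hp => (mem_filter.1 (hS hp)).2
  rw [← Finset.sum_filter, Finset.sum_const, nsmul_eq_mul]
  have h4 := SS3_count n S hSp
  have h5 : 0 ≤ ∏ p ∈ S, Real.sqrt p / ((p : ℝ) - 1) :=
    Finset.prod_nonneg (fun p hp => SS3_g0 p (hSp p hp).two_le)
  calc _ ≤ (n * ∏ p ∈ S, (1 / (p : ℝ))) * ∏ p ∈ S, Real.sqrt p / ((p : ℝ) - 1) :=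
        mul_le_mul_of_nonneg_right h4 h5
    _ = n * ∏ p ∈ S, (Real.sqrt p / ((p : ℝ) - 1) / p) := by
        rw [mul_assoc, ← Finset.prod_mul_distrib]
        congr 1
        apply Finset.prod_congr rfl
        intro p hp
        ring

theorem SS3_prod : ∃ C : ℝ, 0 ≤ C ∧ ∀ n : ℕ,
    ∏ p ∈ (Icc 1 n).filter Nat.Prime, (1 + Real.sqrt p / ((p : ℝ) - 1) / p) ≤ C := by
  have hs : Summable (fun m : ℕ => 2 * (m : ℝ) ^ (-(3 / 2) : ℝ)) :=
    (Real.summable_nat_rpow.2 (by norm_num)).mul_left 2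
  refine ⟨Real.exp (∑' m : ℕ, 2 * (m : ℝ) ^ (-(3 / 2) : ℝ)), (Real.exp_pos _).le, fun n => ?_⟩
  calc ∏ p ∈ (Icc 1 n).filter Nat.Prime, (1 + Real.sqrt p / ((p : ℝ) - 1) / p)
      ≤ ∏ p ∈ (Icc 1 n).filter Nat.Prime, Real.exp (2 * (p : ℝ) ^ (-(3 / 2) : ℝ)) := by
        apply Finset.prod_le_prod
        · intro p hp
          have := SS3_g0 p (mem_filter.1 hp).2.two_le
          positivity
        · intro p hp
          have h1 := SS3_g1 p (mem_filter.1 hp).2.two_le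
          have h2 := Real.add_one_le_exp (2 * (p : ℝ) ^ (-(3 / 2) : ℝ))
          linarith
    _ = Real.exp (∑ p ∈ (Icc 1 n).filter Nat.Prime, 2 * (p : ℝ) ^ (-(3 / 2) : ℝ)) := by
        rw [Real.exp_sum]
    _ ≤ _ := by
        apply Real.exp_le_exp.2
        exact hs.sum_le_tsum _ (fun m _ => by positivity)

/-- `Rk (2 x) ≤ (1 + √2) ∏_{p ∣ x} (1 + g(p))`, `g(p) = √p/(p-1)`, and
`∏_{p ∣ x} (1 + g(p)) = ∑_{d ∣ x, squarefree} g(d)` (`Finset.prod_one_add`; `g(d) = ∏_{p ∣ d} g(p)`), so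
`∑_{x ≤ n} ≤ n ∑_{d ≤ n} g(d)/d ≤ n ∏_{p ≤ n} (1 + g(p)/p) ≤ C n`, since
`g(p)/p ≤ 2 p^(-3/2)`. -/
theorem rk_mean : ∃ C : ℝ, 1 ≤ C ∧ ∀ n : ℕ, ∑ x ∈ Icc 1 n, Rk (2 * (x : ℤ)) ≤ C * n := by
  obtain ⟨C, hC0, hC⟩ := SS3_prod
  refine ⟨max 1 (3 * C), le_max_left _ _, fun n => ?_⟩
  have h1 : ∀ x ∈ Icc 1 n, Rk (2 * (x : ℤ)) ≤
      3 * ∏ p ∈ x.primeFactors, (1 + Real.sqrt p / ((p : ℝ) - 1)) := by
    intro x hx
    rw [mem_Icc] at hx
    have hab : (2 * (x : ℤ)).natAbs = 2 * x := by omega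
    unfold Rk
    rw [hab]
    have hsub : (2 * x).primeFactors ⊆ insert 2 x.primeFactors := by
      rw [Nat.primeFactors_mul (by norm_num) (by omega), Nat.Prime.primeFactors Nat.prime_two]
      intro p hp
      simpa using hp
    have hge : ∀ p ∈ insert 2 x.primeFactors, 1 ≤ 1 + Real.sqrt p / ((p : ℝ) - 1) := by
      intro p hp
      rw [mem_insert] at hp
      have h2 : 2 ≤ p := by
        rcases hp with h | h
        · omega
        · exact (Nat.prime_of_mem_primeFactors h).two_le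
      linarith [SS3_g0 p h2]
    have hge' : ∀ p ∈ x.primeFactors, 1 ≤ 1 + Real.sqrt p / ((p : ℝ) - 1) :=
      fun p hp => hge p (mem_insert_of_mem hp)
    have h3 : ∏ p ∈ (2 * x).primeFactors, (1 + Real.sqrt p / ((p : ℝ) - 1)) ≤
        ∏ p ∈ insert 2 x.primeFactors, (1 + Real.sqrt p / ((p : ℝ) - 1)) := by
      exact Finset.prod_le_prod_of_subset_of_one_le hsub (fun p hp => by linarith [hge p (hsub hp)])
        (fun p hp _ => hge p hp)
    refine h3.trans ?_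
    have hpos : 0 ≤ ∏ p ∈ x.primeFactors, (1 + Real.sqrt p / ((p : ℝ) - 1)) :=
      Finset.prod_nonneg (fun p hp => by linarith [hge' p hp])
    by_cases h2 : 2 ∈ x.primeFactors
    · rw [Finset.insert_eq_of_mem h2]
      linarith
    · rw [Finset.prod_insert h2]
      apply mul_le_mul_of_nonneg_right _ hpos
      have : Real.sqrt 2 ≤ 2 := by
        rw [Real.sqrt_le_left (by norm_num)]; norm_num
      norm_num
      linarith
  calc ∑ x ∈ Icc 1 n, Rk (2 * (x : ℤ)) ≤ ∑ x ∈ Icc 1 n,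
        3 * ∏ p ∈ x.primeFactors, (1 + Real.sqrt p / ((p : ℝ) - 1)) := Finset.sum_le_sum h1
    _ = 3 * ∑ x ∈ Icc 1 n, ∏ p ∈ x.primeFactors, (1 + Real.sqrt p / ((p : ℝ) - 1)) := by
        rw [Finset.mul_sum]
    _ ≤ 3 * (n * C) := by
        apply mul_le_mul_of_nonneg_left _ (by norm_num)
        exact (SS3_mean n).trans (mul_le_mul_of_nonneg_left (hC n) (Nat.cast_nonneg n))
    _ = (3 * C) * n := by ring
    _ ≤ _ := mul_le_mul_of_nonneg_right (le_max_right _ _) (Nat.cast_nonneg n)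

/-- `Gp W D ≥ 1`, `Rk D ≥ 1`. -/
theorem one_le_Gp (W : ℕ) (D : ℤ) : 1 ≤ Gp W D := by
  unfold Gp
  apply Finset.one_le_prod
  intro p hp
  have h2 := (Nat.prime_of_mem_primeFactors (mem_filter.1 hp).1).two_le
  have h3 : (2 : ℝ) ≤ p := by exact_mod_cast h2
  have h4 : 0 ≤ 1 / ((p : ℝ) - 1) := div_nonneg zero_le_one (by linarith)
  linarith

theorem one_le_Rk (D : ℤ) : 1 ≤ Rk D := by
  unfold Rk
  apply Finset.one_le_prod
  intro p hp
  have h2 := (Nat.prime_of_mem_primeFactors hp).two_le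
  linarith [SS3_g0 p h2]


end Pool.Agent.Lib.H18E
end

-- from Lib.H68X.XG1
section

/-!
# Chunk XG1: the model at integers coprime to `W`
-/

open Finset

namespace Pool.Agent.Lib.H68T

/-! ### auxiliary lemmas -/

theorem XG1_eq (f g : ArithmeticFunction ℝ) (hf : f.IsMultiplicative) (hg : g.IsMultiplicative)
    {n : ℕ} (hn : n ≠ 0) (h : ∀ p ∈ n.primeFactors, ∀ k, 1 ≤ k → f (p ^ k) = g (p ^ k)) :
    f n = g n := by
  rw [hf.multiplicative_factorization f hn, hg.multiplicative_factorization g hn]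
  refine Finset.prod_congr rfl fun p hp => ?_
  have hp' : p ∈ n.primeFactors := by simpa using hp
  refine h p hp' _ ?_
  rw [Nat.mem_primeFactors] at hp'
  exact (hp'.1.dvd_iff_one_le_factorization hn).1 hp'.2.1

theorem XG1_F_nsq (r : ℕ) (m : ℤ) {n : ℕ} (hn : ¬ Squarefree n) : GAM_F r m n = 0 := by
  rcases Nat.eq_zero_or_pos n with rfl | hpos
  · simp
  have hn0 : n ≠ 0 := by omega
  rw [(GAM_F_mult r m).multiplicative_factorization _ hn0]
  rw [Nat.squarefree_iff_factorization_le_one hn0] at hn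
  push Not at hn
  obtain ⟨p, hp⟩ := hn
  have hpn : p ∈ n.primeFactors := by
    rw [← Nat.support_factorization, Finsupp.mem_support_iff]
    omega
  refine Finset.prod_eq_zero (i := p) (by rwa [Nat.support_factorization]) ?_
  obtain ⟨k, hk⟩ := Nat.exists_eq_add_of_le (show 2 ≤ n.factorization p by omega)
  change GAM_F r m (p ^ n.factorization p) = 0
  rw [hk, add_comm 2 k]
  exact GAM_F_prime_pow r m p k (Nat.prime_of_mem_primeFactors hpn)

theorem XG1_F1 (m : ℤ) (q : ℕ) : GAM_F 1 m q =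
    (ArithmeticFunction.moebius q : ℝ) / (Nat.totient q : ℝ) * cq q m := by
  rw [GAM_identity, ArithmeticFunction.pdiv_apply, ArithmeticFunction.pmul_apply, GAM_c_apply,
    ArithmeticFunction.intCoe_apply]
  change _ / ((Nat.totient q : ℕ) : ℝ) = _
  ring

/-- `μ²/φ` -/
noncomputable def XG1_K : ArithmeticFunction ℝ :=
  (((ArithmeticFunction.moebius : ArithmeticFunction ℤ) : ArithmeticFunction ℝ).pmul
    ((ArithmeticFunction.moebius : ArithmeticFunction ℤ) : ArithmeticFunction ℝ)).pdiv GAM_phi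

theorem XG1_K_apply (n : ℕ) : XG1_K n =
    (ArithmeticFunction.moebius n : ℝ) ^ 2 / (Nat.totient n : ℝ) := by
  unfold XG1_K
  rw [ArithmeticFunction.pdiv_apply, ArithmeticFunction.pmul_apply,
    ArithmeticFunction.intCoe_apply]
  change _ / ((Nat.totient n : ℕ) : ℝ) = _
  ring

theorem XG1_K_mult : XG1_K.IsMultiplicative :=
  (ArithmeticFunction.isMultiplicative_moebius.intCast.pmul
    ArithmeticFunction.isMultiplicative_moebius.intCast).pdiv GAM_phi_mult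

theorem XG1_not_dvd {n p : ℕ} {m : ℤ} (h : IsCoprime (n : ℤ) m) (hp : p ∈ n.primeFactors) :
    ¬ (p : ℤ) ∣ m := by
  rw [Nat.mem_primeFactors] at hp
  have h1 : IsCoprime (p : ℤ) m := by
    obtain ⟨k, hk⟩ := hp.2.1
    rw [hk, Nat.cast_mul, IsCoprime.mul_left_iff] at h
    exact h.1
  exact (Nat.prime_iff_prime_int.mp hp.1).coprime_iff_not_dvd.1 h1

theorem XG1_F_cop (r : ℕ) (m : ℤ) {n : ℕ} (hn : n ≠ 0) (hm : IsCoprime (n : ℤ) m)
    (hr : Nat.Coprime n r) : GAM_F r m n = XG1_K n := by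
  refine XG1_eq _ _ (GAM_F_mult r m) XG1_K_mult hn fun p hp k hk => ?_
  have hpp := Nat.prime_of_mem_primeFactors hp
  have h1 := XG1_not_dvd hm hp
  have h2 : ¬ p ∣ r := fun h => by
    have := Nat.dvd_gcd (Nat.dvd_of_mem_primeFactors hp) h
    rw [hr] at this
    exact hpp.one_lt.ne' (Nat.dvd_one.1 this)
  rcases Nat.lt_or_ge 1 k with hk1 | hk1
  · obtain ⟨j, hj⟩ := Nat.exists_eq_add_of_le (show 2 ≤ k by omega)
    rw [hj, add_comm 2 j, GAM_F_prime_pow _ _ _ _ hpp, XG1_K_apply,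
      ArithmeticFunction.moebius_apply_prime_pow hpp (by omega), if_neg (by omega)]
    simp
  · have hk' : k = 1 := by omega
    rw [hk', pow_one, GAM_F_prime _ _ _ hpp, if_neg h1, if_neg h2, XG1_K_apply,
      ArithmeticFunction.moebius_apply_prime hpp, Nat.totient_prime hpp,
      Nat.cast_sub hpp.one_lt.le]
    norm_num

theorem XG1_F_ncop (r : ℕ) (m : ℤ) {n : ℕ} (hn : n ≠ 0) (hm : IsCoprime (n : ℤ) m)
    (hr : ¬ Nat.Coprime n r) : GAM_F r m n = 0 := by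
  obtain ⟨p, hp, h1, h2⟩ := Nat.Prime.not_coprime_iff_dvd.1 hr
  have hpn : p ∈ n.primeFactors := Nat.mem_primeFactors.2 ⟨hp, h1, hn⟩
  rw [(GAM_F_mult r m).multiplicative_factorization _ hn]
  refine Finset.prod_eq_zero (i := p) (by rwa [Nat.support_factorization]) ?_
  change GAM_F r m (p ^ n.factorization p) = 0
  have hk : 1 ≤ n.factorization p := (hp.dvd_iff_one_le_factorization hn).1 h1
  rcases Nat.lt_or_ge 1 (n.factorization p) with hk1 | hk1
  · obtain ⟨j, hj⟩ := Nat.exists_eq_add_of_le (show 2 ≤ n.factorization p by omega)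
    rw [hj, add_comm 2 j, GAM_F_prime_pow _ _ _ _ hp]
  · have hk' : n.factorization p = 1 := by omega
    rw [hk', pow_one, GAM_F_prime _ _ _ hp, if_neg (XG1_not_dvd hm hpn), if_pos h2]

theorem XG1_F_r (r : ℕ) (m : ℤ) {n : ℕ} (hn : n ≠ 0) (hr : Nat.Coprime n r) :
    GAM_F r m n = GAM_F 1 m n := by
  refine XG1_eq _ _ (GAM_F_mult r m) (GAM_F_mult 1 m) hn fun p hp k hk => ?_
  have hpp := Nat.prime_of_mem_primeFactors hp
  have h2 : ¬ p ∣ r := fun h => by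
    have := Nat.dvd_gcd (Nat.dvd_of_mem_primeFactors hp) h
    rw [hr] at this
    exact hpp.one_lt.ne' (Nat.dvd_one.1 this)
  have h3 : ¬ p ∣ 1 := fun h => hpp.one_lt.ne' (Nat.dvd_one.1 h)
  rcases Nat.lt_or_ge 1 k with hk1 | hk1
  · obtain ⟨j, hj⟩ := Nat.exists_eq_add_of_le (show 2 ≤ k by omega)
    rw [hj, add_comm 2 j, GAM_F_prime_pow _ _ _ _ hpp, GAM_F_prime_pow _ _ _ _ hpp]
  · have hk' : k = 1 := by omega
    rw [hk', pow_one, GAM_F_prime _ _ _ hpp, GAM_F_prime _ _ _ hpp, if_neg h2, if_neg h3]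

/-- splitting off the part dividing `W` -/
theorem XG1_split (f : ArithmeticFunction ℝ) (hf : f.IsMultiplicative)
    (hsq : ∀ n, ¬ Squarefree n → f n = 0) (Q W : ℕ) (hW : 0 < W) :
    ∑ q ∈ Icc 1 Q, f q = ∑ q ∈ QW Q W, f q *
      ∑ w ∈ W.divisors.filter (fun w => w * q ≤ Q), f w := by
  have h1 : ∑ q ∈ Icc 1 Q, f q = ∑ q ∈ (Icc 1 Q).filter Squarefree, f q := by
    rw [Finset.sum_filter]
    refine Finset.sum_congr rfl fun q _ => ?_
    split_ifs with h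
    · rfl
    · exact hsq q h
  have h2 : ∑ q ∈ QW Q W, f q * ∑ w ∈ W.divisors.filter (fun w => w * q ≤ Q), f w =
      ∑ x ∈ ((QW Q W) ×ˢ W.divisors).filter
        (fun x => x.2 * x.1 ≤ Q ∧ Squarefree (x.2 * x.1)), f (x.2 * x.1) := by
    rw [Finset.sum_filter, Finset.sum_product]
    refine Finset.sum_congr rfl fun q hq => ?_
    rw [Finset.mul_sum, Finset.sum_filter]
    refine Finset.sum_congr rfl fun w hw => ?_
    have hqW : Nat.Coprime q W := (mem_filter.1 hq).2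
    have hwW : w ∣ W := (Nat.mem_divisors.1 hw).1
    have hwq : Nat.Coprime w q := (Nat.Coprime.coprime_dvd_right hwW hqW).symm
    simp only
    by_cases h3 : w * q ≤ Q
    · by_cases h4 : Squarefree (w * q)
      · rw [if_pos h3, if_pos ⟨h3, h4⟩, hf.map_mul_of_coprime hwq, mul_comm]
      · rw [if_pos h3, if_neg (fun h => h4 h.2), mul_comm, ← hf.map_mul_of_coprime hwq,
          hsq _ h4]
    · rw [if_neg h3, if_neg (fun h => h3 h.1)]
  rw [h1, h2]
  refine Finset.sum_nbij' (fun q => (q / Nat.gcd q W, Nat.gcd q W)) (fun x => x.2 * x.1)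
    ?_ ?_ ?_ ?_ ?_
  · intro q hq
    rw [mem_filter, mem_Icc] at hq
    obtain ⟨⟨hq1, hq2⟩, hq3⟩ := hq
    have hg0 : 0 < Nat.gcd q W := Nat.gcd_pos_of_pos_left _ (by omega)
    have hmul : Nat.gcd q W * (q / Nat.gcd q W) = q := Nat.mul_div_cancel' (Nat.gcd_dvd_left _ _)
    have hq0 : 0 < q / Nat.gcd q W := Nat.div_pos (Nat.gcd_le_left _ (by omega)) hg0
    have hle : q / Nat.gcd q W ≤ Q := (Nat.div_le_self _ _).trans hq2
    have hcop : Nat.Coprime (q / Nat.gcd q W) W := by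
      rw [Nat.coprime_iff_gcd_eq_one]
      by_contra hne
      obtain ⟨p, hp, hpd⟩ := Nat.exists_prime_and_dvd hne
      have h5 : p ∣ q / Nat.gcd q W := hpd.trans (Nat.gcd_dvd_left _ _)
      have h6 : p ∣ W := hpd.trans (Nat.gcd_dvd_right _ _)
      have h7 : p ∣ q := h5.trans (Nat.div_dvd_of_dvd (Nat.gcd_dvd_left _ _))
      have h8 : p ∣ Nat.gcd q W := Nat.dvd_gcd h7 h6
      have h9 : p * p ∣ q := by
        rw [← hmul]
        exact Nat.mul_dvd_mul h8 h5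
      have := hq3 p h9
      exact hp.one_lt.ne' (Nat.isUnit_iff.1 this)
    rw [mem_filter, mem_product]
    refine ⟨⟨?_, ?_⟩, ?_, ?_⟩
    · unfold QW
      rw [mem_filter, mem_Icc]
      exact ⟨⟨hq0, hle⟩, hcop⟩
    · exact Nat.mem_divisors.2 ⟨Nat.gcd_dvd_right _ _, hW.ne'⟩
    · simp only [hmul]
      exact hq2
    · simp only [hmul]
      exact hq3
  · intro x hx
    rw [mem_filter, mem_product] at hx
    obtain ⟨⟨h3, h4⟩, h5, h6⟩ := hx
    rw [mem_filter, mem_Icc]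
    exact ⟨⟨Nat.pos_of_ne_zero h6.ne_zero, h5⟩, h6⟩
  · intro q hq
    exact Nat.mul_div_cancel' (Nat.gcd_dvd_left _ _)
  · rintro ⟨a, w⟩ hx
    rw [mem_filter, mem_product] at hx
    obtain ⟨⟨h3, h4⟩, h5, h6⟩ := hx
    unfold QW at h3
    rw [mem_filter] at h3
    simp only at h3 h4 h5 h6 ⊢
    have hw0 : 0 < w := Nat.pos_of_mem_divisors h4
    have hg : Nat.gcd (w * a) W = w := by
      rw [Nat.Coprime.gcd_mul_right_cancel w h3.2]
      exact Nat.gcd_eq_left (Nat.mem_divisors.1 h4).1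
    rw [hg, Nat.mul_div_cancel_left _ hw0]
  · intro q hq
    congr 1
    exact (Nat.mul_div_cancel' (Nat.gcd_dvd_left _ _)).symm

theorem XG1_cop_of_dvd {w W : ℕ} {m : ℤ} (h : w ∣ W) (hm : IsCoprime m (W : ℤ)) :
    IsCoprime (w : ℤ) m :=
  (IsCoprime.of_isCoprime_of_dvd_right hm (Int.natCast_dvd_natCast.2 h)).symm

/-- Every squarefree `q ≤ Q` is `q' w` with `w = gcd(q, W)` (squarefree, divides `W`) and `q'` coprime
to `W`; `c_q = c_{q'} c_w`, `c_w(m) = μ(w)` for `(m, w) = 1` (`cq_squarefree`), `μ(q) = μ(q') μ(w)`,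
`φ(q) = φ(q') φ(w)`. -/
theorem G_coprime (Q W : ℕ) (hW : 0 < W) (m : ℤ) (hm : IsCoprime m (W : ℤ)) :
    G Q m = ∑ q ∈ QW Q W, (ArithmeticFunction.moebius q : ℝ) / (Nat.totient q : ℝ) * cq q m *
      TW Q W q := by
  have h1 : G Q m = ∑ q ∈ Icc 1 Q, GAM_F 1 m q := by
    unfold G
    exact Finset.sum_congr rfl fun q _ => (XG1_F1 m q).symm
  rw [h1, XG1_split _ (GAM_F_mult 1 m) (fun n hn => XG1_F_nsq 1 m hn) Q W hW]
  refine Finset.sum_congr rfl fun q _ => ?_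
  rw [XG1_F1]
  congr 1
  unfold TW
  refine Finset.sum_congr rfl fun w hw => ?_
  rw [mem_filter] at hw
  have hw0 := (Nat.pos_of_mem_divisors hw.1).ne'
  rw [XG1_F_cop 1 m hw0 (XG1_cop_of_dvd (Nat.mem_divisors.1 hw.1).1 hm) (Nat.coprime_one_right w),
    XG1_K_apply]

/-- The same for `Γ_r`, `r ∣ W`. By the computation in the docstring of `abs_Gam_le`
(file `H68T/GAM2.lean`; see the auxiliary lemmas there): for `(m, r) = 1` and `q = r q'` the inner sum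
`∑_{d ∣ q, r ∣ d, (d,m)=1} μ(q/d) d/φ(d)` is `(r/φ(r)) μ(q') c_{q'}(m)/φ(q')` if `q'` is squarefree and
coprime to `r`, and `0` otherwise. Then write `q' = q'' w` with `w = gcd(q', W)` (coprime to `r`) as in
`G_coprime`. -/
theorem Gam_coprime (Q W r : ℕ) (hW : 0 < W) (hr : r ∣ W) (m : ℤ)
    (hm : IsCoprime m (W : ℤ)) :
    Gam Q r m = ∑ q ∈ QW Q W, (ArithmeticFunction.moebius q : ℝ) / (Nat.totient q : ℝ) *
      cq q m * TWr Q W r q := by
  have hr0 : 0 < r := Nat.pos_of_dvd_of_pos hr hW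
  have hrm : IsCoprime (r : ℤ) m := XG1_cop_of_dvd hr hm
  have himg : (Icc 1 Q).filter (fun q => r ∣ q) = (Icc 1 (Q / r)).image (fun q => r * q) := by
    ext q
    simp only [mem_filter, mem_Icc, mem_image]
    constructor
    · rintro ⟨⟨h1, h2⟩, ⟨e, rfl⟩⟩
      refine ⟨e, ⟨?_, ?_⟩, rfl⟩
      · rcases Nat.eq_zero_or_pos e with rfl | h
        · simp at h1
        · exact h
      · rw [Nat.le_div_iff_mul_le (by omega), mul_comm]
        exact h2
    · rintro ⟨e, ⟨h1, h2⟩, rfl⟩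
      refine ⟨⟨Nat.mul_pos (by omega) (by omega), ?_⟩, Dvd.intro _ rfl⟩
      rw [Nat.le_div_iff_mul_le (by omega), mul_comm] at h2
      exact h2
  have hGam : Gam Q r m = (r : ℝ) / Nat.totient r * ∑ q ∈ Icc 1 (Q / r), GAM_F r m q := by
    unfold Gam
    rw [himg, Finset.sum_image (fun a _ b _ h => Nat.eq_of_mul_eq_mul_left (by omega) h),
      Finset.mul_sum]
    refine Finset.sum_congr rfl (fun q hq => ?_)
    rw [mem_Icc] at hq
    exact GAM_inner r m hr0.ne' hrm q (by omega)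
  rw [hGam, XG1_split _ (GAM_F_mult r m) (fun n hn => XG1_F_nsq r m hn) (Q / r) W hW,
    Finset.mul_sum]
  have hsub : QW (Q / r) W ⊆ QW Q W := by
    unfold QW
    refine Finset.filter_subset_filter _ (Finset.Icc_subset_Icc_right (Nat.div_le_self _ _))
  rw [← Finset.sum_subset hsub]
  · refine Finset.sum_congr rfl fun q hq => ?_
    unfold QW at hq
    rw [mem_filter, mem_Icc] at hq
    have hqr : Nat.Coprime q r := Nat.Coprime.coprime_dvd_right hr hq.2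
    rw [XG1_F_r r m (by omega) hqr, XG1_F1]
    have hsum : ∑ w ∈ W.divisors.filter (fun w => w * q ≤ Q / r), GAM_F r m w =
        ∑ w ∈ W.divisors.filter (fun w => Nat.Coprime w r ∧ w * r * q ≤ Q),
          (ArithmeticFunction.moebius w : ℝ) ^ 2 / (Nat.totient w : ℝ) := by
      rw [Finset.sum_filter, Finset.sum_filter]
      refine Finset.sum_congr rfl fun w hw => ?_
      have hw0 := (Nat.pos_of_mem_divisors hw).ne'
      have hwm := XG1_cop_of_dvd (Nat.mem_divisors.1 hw).1 hm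
      have hiff : w * q ≤ Q / r ↔ w * r * q ≤ Q := by
        rw [Nat.le_div_iff_mul_le hr0]
        have : w * q * r = w * r * q := by ring
        rw [this]
      by_cases h1 : Nat.Coprime w r
      · by_cases h2 : w * q ≤ Q / r
        · rw [if_pos h2, if_pos ⟨h1, hiff.1 h2⟩, XG1_F_cop r m hw0 hwm h1, XG1_K_apply]
        · rw [if_neg h2, if_neg (fun h => h2 (hiff.2 h.2))]
      · rw [XG1_F_ncop r m hw0 hwm h1, ite_self]
        exact (if_neg (fun h : _ ∧ _ => h1 h.1)).symm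
    rw [hsum]
    unfold TWr
    ring
  · intro q hq hnq
    unfold QW at hq hnq
    rw [mem_filter, mem_Icc] at hq hnq
    have h1 : Q / r < q := by
      by_contra hc
      exact hnq ⟨⟨hq.1.1, by omega⟩, hq.2⟩
    have h2 : TWr Q W r q = 0 := by
      unfold TWr
      rw [Finset.filter_false_of_mem, Finset.sum_empty, mul_zero]
      rintro w hw ⟨-, h3⟩
      have hw0 := Nat.pos_of_mem_divisors hw
      rw [Nat.div_lt_iff_lt_mul hr0] at h1
      have h4 : 1 * (r * q) ≤ w * (r * q) := Nat.mul_le_mul_right _ hw0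
      have h5 : w * r * q = w * (r * q) := by ring
      have h6 : q * r = r * q := by ring
      omega
    rw [h2, mul_zero]

end Pool.Agent.Lib.H68T
end

-- from Lib.H68X.XTW
section

/-!
# Chunk XTW: the divisor sums `TW`, `TWr`
-/

open Finset

namespace Pool.Agent.Lib.H68T

theorem XTW_term_nonneg (w : ℕ) :
    0 ≤ (ArithmeticFunction.moebius w : ℝ) ^ 2 / (Nat.totient w : ℝ) := by positivity

/-- `n / φ(n)` depends only on the set of primes dividing `n`. -/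
theorem XTW_ratio {a b : ℕ} (ha : 0 < a) (hb : 0 < b) (h : a.primeFactors = b.primeFactors) :
    (a : ℝ) / (Nat.totient a : ℝ) = (b : ℝ) / (Nat.totient b : ℝ) := by
  have hφa : (0 : ℝ) < (Nat.totient a : ℝ) := by exact_mod_cast Nat.totient_pos.mpr ha
  have hφb : (0 : ℝ) < (Nat.totient b : ℝ) := by exact_mod_cast Nat.totient_pos.mpr hb
  have h1 := congrArg (fun n : ℕ => (n : ℝ)) (Nat.totient_mul_prod_primeFactors a)
  have h2 := congrArg (fun n : ℕ => (n : ℝ)) (Nat.totient_mul_prod_primeFactors b)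
  simp only [Nat.cast_mul] at h1 h2
  rw [h] at h1
  have hP : (0 : ℝ) < ((∏ p ∈ b.primeFactors, (p - 1) : ℕ) : ℝ) := by
    have : 0 < ∏ p ∈ b.primeFactors, (p - 1) := by
      apply Finset.prod_pos
      intro p hp
      have := (Nat.prime_of_mem_primeFactors hp).two_le
      omega
    exact_mod_cast this
  rw [div_eq_div_iff hφa.ne' hφb.ne']
  have h3 : ((a : ℝ) * (Nat.totient b : ℝ)) * ((∏ p ∈ b.primeFactors, (p - 1) : ℕ) : ℝ) =
      ((b : ℝ) * (Nat.totient a : ℝ)) * ((∏ p ∈ b.primeFactors, (p - 1) : ℕ) : ℝ) := by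
    calc ((a : ℝ) * (Nat.totient b : ℝ)) * ((∏ p ∈ b.primeFactors, (p - 1) : ℕ) : ℝ)
        = (Nat.totient b : ℝ) * ((a : ℝ) * ((∏ p ∈ b.primeFactors, (p - 1) : ℕ) : ℝ)) := by ring
      _ = (Nat.totient b : ℝ) * ((Nat.totient a : ℝ) * ((∏ p ∈ b.primeFactors, p : ℕ) : ℝ)) := by
          rw [h1]
      _ = (Nat.totient a : ℝ) * ((Nat.totient b : ℝ) * ((∏ p ∈ b.primeFactors, p : ℕ) : ℝ)) := by
          ring
      _ = (Nat.totient a : ℝ) * ((b : ℝ) * ((∏ p ∈ b.primeFactors, (p - 1) : ℕ) : ℝ)) := by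
          rw [h2]
      _ = _ := by ring
  exact mul_right_cancel₀ hP.ne' h3

theorem XTW_full (W r : ℕ) (hW : 0 < W) (hr : r ∣ W) :
    (r : ℝ) / (Nat.totient r : ℝ) *
      ∑ w ∈ W.divisors.filter (fun w => Nat.Coprime w r),
        (ArithmeticFunction.moebius w : ℝ) ^ 2 / (Nat.totient w : ℝ) =
      (W : ℝ) / Nat.totient W := by
  have hr0 : 0 < r := Nat.pos_of_dvd_of_pos hr hW
  set P := W.primeFactors.filter (fun p => ¬ p ∣ r) with hP
  have hpf : ∀ p ∈ P, p.Prime := fun p hp =>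
    Nat.prime_of_mem_primeFactors (mem_of_mem_filter p hp)
  set V := ∏ p ∈ P, p with hV
  have hVpf : V.primeFactors = P := Nat.primeFactors_prod hpf
  have hV0 : 0 < V := Finset.prod_pos fun p hp => (hpf p hp).pos
  have hVW : V ∣ W := by
    refine dvd_trans ?_ (Nat.prod_primeFactors_dvd W)
    exact Finset.prod_dvd_prod_of_subset _ _ _ (filter_subset _ _)
  have hVr : Nat.Coprime V r := by
    rw [hV]
    apply Nat.Coprime.prod_left
    intro p hp
    exact (Nat.Prime.coprime_iff_not_dvd (hpf p hp)).mpr (mem_filter.mp hp).2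
  have hsum : ∑ w ∈ W.divisors.filter (fun w => Nat.Coprime w r),
        (ArithmeticFunction.moebius w : ℝ) ^ 2 / (Nat.totient w : ℝ) =
      ∑ w ∈ V.divisors, (ArithmeticFunction.moebius w : ℝ) ^ 2 / (Nat.totient w : ℝ) := by
    symm
    apply Finset.sum_subset
    · intro w hw
      rw [mem_filter, Nat.mem_divisors]
      have hwV := Nat.dvd_of_mem_divisors hw
      exact ⟨⟨hwV.trans hVW, hW.ne'⟩, Nat.Coprime.coprime_dvd_left hwV hVr⟩
    · intro w hw hwV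
      rw [mem_filter, Nat.mem_divisors] at hw
      have hns : ¬ Squarefree w := by
        intro hs
        apply hwV
        rw [Nat.mem_divisors]
        refine ⟨?_, hV0.ne'⟩
        rw [← Nat.prod_primeFactors_of_squarefree hs]
        apply Finset.prod_dvd_prod_of_subset
        intro p hp
        rw [hP, mem_filter]
        refine ⟨Nat.primeFactors_mono hw.1.1 hW.ne' hp, fun hpr => ?_⟩
        have hpp := Nat.prime_of_mem_primeFactors hp
        have hpw := Nat.dvd_of_mem_primeFactors hp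
        have := Nat.dvd_gcd hpw hpr
        rw [hw.2] at this
        exact hpp.one_lt.ne' (Nat.dvd_one.mp this)
      rw [ArithmeticFunction.moebius_eq_zero_of_not_squarefree hns]
      simp
  rw [hsum, cg1_T_full V hV0]
  have h1 : (r : ℝ) / (Nat.totient r : ℝ) * ((V : ℝ) / (Nat.totient V : ℝ)) =
      ((r * V : ℕ) : ℝ) / (Nat.totient (r * V) : ℝ) := by
    rw [Nat.totient_mul hVr.symm]
    push_cast
    rw [div_mul_div_comm]
  rw [h1]
  apply XTW_ratio (Nat.mul_pos hr0 hV0) hW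
  rw [Nat.primeFactors_mul hr0.ne' hV0.ne', hVpf, hP]
  ext p
  simp only [mem_union, mem_filter, Nat.mem_primeFactors]
  constructor
  · rintro (⟨h1, h2, -⟩ | ⟨h1, -⟩)
    · exact ⟨h1, h2.trans hr, hW.ne'⟩
    · exact h1
  · rintro ⟨h1, h2, h3⟩
    by_cases hpr : p ∣ r
    · exact Or.inl ⟨h1, hpr, hr0.ne'⟩
    · exact Or.inr ⟨⟨h1, h2, h3⟩, hpr⟩

theorem TW_nonneg (Q W q : ℕ) : 0 ≤ TW Q W q :=
  sum_nonneg fun w _ => XTW_term_nonneg w

/-- `∑_{w ∣ W} μ²(w)/φ(w) = W/φ(W)` -/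
theorem TW_le (Q W q : ℕ) (hW : 0 < W) : TW Q W q ≤ (W : ℝ) / Nat.totient W := by
  rw [← cg1_T_full W hW]
  exact sum_le_sum_of_subset_of_nonneg (filter_subset _ _) fun w _ _ => XTW_term_nonneg w

theorem TW_eq (Q W q : ℕ) (hW : 0 < W) (h : W * q ≤ Q) :
    TW Q W q = (W : ℝ) / Nat.totient W := by
  rw [← cg1_T_full W hW, TW]
  congr 1
  apply filter_true_of_mem
  intro w hw
  exact (Nat.mul_le_mul_right q (Nat.divisor_le hw)).trans h

theorem TWr_nonneg (Q W r q : ℕ) : 0 ≤ TWr Q W r q := by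
  unfold TWr
  exact mul_nonneg (by positivity) (sum_nonneg fun w _ => XTW_term_nonneg w)

/-- `(r/φ(r)) ∑_{w ∣ W, (w, r) = 1} μ²(w)/φ(w) = W/φ(W)` for `r ∣ W`: product over the primes
dividing `W`. -/
theorem TWr_le (Q W r q : ℕ) (hW : 0 < W) (hr : r ∣ W) :
    TWr Q W r q ≤ (W : ℝ) / Nat.totient W := by
  rw [← XTW_full W r hW hr, TWr]
  apply mul_le_mul_of_nonneg_left _ (by positivity)
  apply sum_le_sum_of_subset_of_nonneg _ fun w _ _ => XTW_term_nonneg w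
  intro w hw
  rw [mem_filter] at hw ⊢
  exact ⟨hw.1, hw.2.1⟩

/-- All divisors `w` of `W` coprime to `r` satisfy `w r ∣ W`, so `w r q ≤ W q ≤ Q`. -/
theorem TWr_eq (Q W r q : ℕ) (hW : 0 < W) (hr : r ∣ W) (h : W * q ≤ Q) :
    TWr Q W r q = (W : ℝ) / Nat.totient W := by
  rw [← XTW_full W r hW hr, TWr]
  congr 2
  apply filter_congr
  intro w hw
  constructor
  · exact fun h => h.1
  · intro hc
    refine ⟨hc, ?_⟩
    have h1 : w * r ∣ W := Nat.Coprime.mul_dvd_of_dvd_of_dvd hc (Nat.dvd_of_mem_divisors hw) hr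
    exact (Nat.mul_le_mul_right q (Nat.le_of_dvd hW h1)).trans h

end Pool.Agent.Lib.H68T
end

-- from Lib.H68X.XCG
section

/-!
# Chunk XCG: pair correlations and means of the model with exceptional term
-/

open Finset

namespace Pool.Agent.Lib.H68T








theorem XCG_W_sq (Q W : ℕ) (hW : 0 < W) (hWQ : W ^ 100 ≤ Q) : W ^ 2 ≤ Q :=
  (Nat.pow_le_pow_right hW (by norm_num)).trans hWQ

theorem XCG_D_sq (Q W : ℕ) (hW : 0 < W) (hWQ : W ^ 100 ≤ Q) :
    ((W : ℝ) / Nat.totient W) ^ 2 ≤ Q := by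
  have h1 : (1 : ℝ) ≤ Nat.totient W := by exact_mod_cast Nat.totient_pos.mpr hW
  have h2 : (W : ℝ) / Nat.totient W ≤ W := div_le_self (by positivity) h1
  calc ((W : ℝ) / Nat.totient W) ^ 2 ≤ (W : ℝ) ^ 2 := pow_le_pow_left₀ (by positivity) h2 2
    _ ≤ Q := by exact_mod_cast XCG_W_sq Q W hW hWQ

/-- The diagonal terms. -/
theorem XCG_cq_le (q : ℕ) (d : ℤ) :
    ((ArithmeticFunction.moebius q : ℝ) / (Nat.totient q : ℝ)) ^ 2 * |cq q d| ≤
      if Squarefree q then (Nat.totient (Nat.gcd q d.natAbs) : ℝ) / (Nat.totient q : ℝ) ^ 2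
      else 0 := by
  split_ifs with h
  · have h1 : (ArithmeticFunction.moebius q : ℝ) ^ 2 = 1 := by
      exact_mod_cast ArithmeticFunction.moebius_sq_eq_one_of_squarefree h
    rw [div_pow, h1, cq_squarefree q h d, abs_mul, one_div, inv_mul_eq_div]
    apply div_le_div_of_nonneg_right _ (by positivity)
    have h2 := cg1_abs_moebius_le (q / Nat.gcd q d.natAbs)
    have h3 : |(Nat.totient (Nat.gcd q d.natAbs) : ℝ)| = Nat.totient (Nat.gcd q d.natAbs) :=
      abs_of_nonneg (by positivity)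
    rw [h3]
    have h4 : (0 : ℝ) ≤ Nat.totient (Nat.gcd q d.natAbs) := by positivity
    nlinarith
  · rw [ArithmeticFunction.moebius_eq_zero_of_not_squarefree h]
    simp




end Pool.Agent.Lib.H68T
end
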