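import Pool.Agent.Lib.H1M.RV.M019
import Pool.Agent.Lib.H1M.RV.M031

/-! Merged copies (to shorten the build) of Lib.H18Q.W1, Lib.H18Q.W2, Lib.H18Q.W3, Lib.H18Q.D0. -/

-- from Lib.H18Q.W1
section

/-!
# Project H18Q, chunk W1: the weights `Jk`

`Jk lam k n = n^(-1) lam h_k(lam log n)`, `h_k(y) = y^k e^(-y) / k!`, for `n ≥ 1`.
-/

open Finset

namespace Pool.Agent.Lib.H18Q

open ArithmeticFunction

/-- `y^k e^(-y) / k!`. -/
noncomputable def w1_h (k : ℕ) (y : ℝ) : ℝ := y ^ k / (k.factorial : ℝ) * Real.exp (-y)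

/-- The tail `e^(-y) ∑_{i ≤ k} y^i / i!` of the Gamma integral. -/
noncomputable def w1_P : ℕ → ℝ → ℝ
  | 0 => fun y => Real.exp (-y)
  | (k + 1) => fun y => w1_P k y + y ^ (k + 1) / ((k + 1).factorial : ℝ) * Real.exp (-y)

theorem w1_exp_der (y : ℝ) : HasDerivAt (fun y : ℝ => Real.exp (-y)) (-Real.exp (-y)) y := by
  have h := (Real.hasDerivAt_exp (-y)).comp y (hasDerivAt_neg y)
  rw [mul_neg, mul_one] at h
  exact h

theorem w1_P_der (k : ℕ) (y : ℝ) : HasDerivAt (w1_P k) (-w1_h k y) y := by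
  induction k with
  | zero =>
    have h : w1_h 0 y = Real.exp (-y) := by
      unfold w1_h
      rw [pow_zero, Nat.factorial_zero, Nat.cast_one, div_one, one_mul]
    rw [h]
    exact w1_exp_der y
  | succ k ih =>
    have h1 : HasDerivAt (fun y : ℝ => y ^ (k + 1) / ((k + 1).factorial : ℝ))
        (y ^ k / (k.factorial : ℝ)) y := by
      have h2 := (hasDerivAt_pow (k + 1) y).div_const ((k + 1).factorial : ℝ)
      have h3 : ((k + 1 : ℕ) : ℝ) * y ^ (k + 1 - 1) / ((k + 1).factorial : ℝ) =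
          y ^ k / (k.factorial : ℝ) := by
        rw [Nat.add_sub_cancel, Nat.factorial_succ, Nat.cast_mul]
        exact mul_div_mul_left _ _ (by positivity)
      rw [h3] at h2
      exact h2
    have h4 := ih.add (h1.mul (w1_exp_der y))
    have h5 : -w1_h k y + (y ^ k / (k.factorial : ℝ) * Real.exp (-y) +
        y ^ (k + 1) / ((k + 1).factorial : ℝ) * -Real.exp (-y)) = -w1_h (k + 1) y := by
      unfold w1_h
      ring
    rw [h5] at h4
    exact h4

theorem w1_h_nonneg (k : ℕ) {y : ℝ} (hy : 0 ≤ y) : 0 ≤ w1_h k y := by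
  unfold w1_h
  positivity

theorem w1_h_le (k : ℕ) {y : ℝ} (hy : 0 ≤ y) : w1_h k y ≤ 1 := by
  unfold w1_h
  have h1 := Real.pow_div_factorial_le_exp y hy k
  calc y ^ k / (k.factorial : ℝ) * Real.exp (-y) ≤ Real.exp y * Real.exp (-y) :=
        mul_le_mul_of_nonneg_right h1 (Real.exp_pos _).le
    _ = 1 := by rw [← Real.exp_add, add_neg_cancel, Real.exp_zero]

theorem w1_P_nonneg (k : ℕ) {y : ℝ} (hy : 0 ≤ y) : 0 ≤ w1_P k y := by
  induction k with
  | zero => exact (Real.exp_pos _).le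
  | succ k ih =>
    have h : 0 ≤ w1_h (k + 1) y := w1_h_nonneg (k + 1) hy
    exact add_nonneg ih h

theorem w1_P_zero (k : ℕ) : w1_P k 0 = 1 := by
  induction k with
  | zero =>
    show Real.exp (-0) = 1
    rw [neg_zero, Real.exp_zero]
  | succ k ih =>
    show w1_P k 0 + (0 : ℝ) ^ (k + 1) / ((k + 1).factorial : ℝ) * Real.exp (-0) = 1
    rw [ih, zero_pow (Nat.succ_ne_zero k), zero_div, zero_mul, add_zero]

theorem w1_mvt (k : ℕ) {a b : ℝ} (hab : a < b) :
    ∃ ξ, a < ξ ∧ ξ < b ∧ w1_P k a - w1_P k b = w1_h k ξ * (b - a) := by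
  obtain ⟨ξ, hξ, h⟩ := exists_hasDerivAt_eq_slope (w1_P k) (fun y => -w1_h k y) hab
    (fun y _ => (w1_P_der k y).continuousAt.continuousWithinAt) (fun y _ => w1_P_der k y)
  refine ⟨ξ, hξ.1, hξ.2, ?_⟩
  have h0 : b - a ≠ 0 := (sub_pos.2 hab).ne'
  rw [eq_div_iff h0] at h
  linarith

theorem w1_P_anti (k : ℕ) {a b : ℝ} (ha : 0 ≤ a) (hab : a ≤ b) : w1_P k b ≤ w1_P k a := by
  rcases hab.lt_or_eq with h | h
  · obtain ⟨ξ, h1, h2, h3⟩ := w1_mvt k h
    have h4 : 0 ≤ w1_h k ξ * (b - a) :=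
      mul_nonneg (w1_h_nonneg k (by linarith)) (by linarith)
    linarith
  · rw [h]

theorem w1_h_mono (k : ℕ) {y ξ : ℝ} (hy : 0 ≤ y) (h1 : y ≤ ξ) (h2 : ξ ≤ k) :
    w1_h k y ≤ w1_h k ξ := by
  rcases hy.lt_or_eq with hy | hy
  · have hξ : 0 < ξ := by linarith
    have hk : (0 : ℝ) < k := by linarith
    have hk0 : k ≠ 0 := fun e => by
      rw [e, Nat.cast_zero] at hk
      exact lt_irrefl _ hk
    have h3 : (ξ - y) / k ≤ Real.log (ξ / y) := by
      have h4 := Real.one_sub_inv_le_log_of_pos (div_pos hξ hy)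
      have h5 : (ξ - y) / k ≤ 1 - (ξ / y)⁻¹ := by
        rw [inv_div]
        have h6 : 1 - y / ξ = (ξ - y) / ξ := by field_simp
        rw [h6]
        exact div_le_div_of_nonneg_left (by linarith) hξ h2
      exact h5.trans h4
    have h4 : Real.exp (ξ - y) ≤ (ξ / y) ^ k := by
      have h5 : Real.exp ((ξ - y) / k) ≤ ξ / y := by
        rw [← Real.exp_log (div_pos hξ hy)]
        exact Real.exp_le_exp.2 h3
      have h6 : Real.exp (ξ - y) = Real.exp ((ξ - y) / k) ^ k := by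
        rw [← Real.exp_nat_mul]
        congr 1
        field_simp
      rw [h6]
      exact pow_le_pow_left₀ (Real.exp_pos _).le h5 k
    unfold w1_h
    have h5 : Real.exp (-y) = Real.exp (ξ - y) * Real.exp (-ξ) := by
      rw [← Real.exp_add]
      congr 1
      ring
    rw [h5, div_mul_eq_mul_div, div_mul_eq_mul_div]
    apply div_le_div_of_nonneg_right _ (by positivity)
    rw [← mul_assoc]
    apply mul_le_mul_of_nonneg_right _ (Real.exp_pos _).le
    rw [div_pow, le_div_iff₀ (pow_pos hy k)] at h4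
    linarith
  · rcases Nat.eq_zero_or_pos k with hk | hk
    · subst hk
      rw [Nat.cast_zero] at h2
      have h3 : ξ = y := by linarith
      rw [h3]
    · unfold w1_h
      rw [← hy, zero_pow hk.ne', zero_div, zero_mul]
      have : 0 ≤ ξ := by linarith
      positivity

theorem w1_h_anti (k : ℕ) {y ξ : ℝ} (hy : 0 ≤ y) (h1 : y ≤ ξ) (h2 : (k : ℝ) ≤ y) :
    w1_h k ξ ≤ w1_h k y := by
  rcases hy.lt_or_eq with hy | hy
  · have hξ : 0 < ξ := by linarith
    have h4 : (ξ / y) ^ k ≤ Real.exp (ξ - y) := by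
      have h5 : ξ / y ≤ Real.exp (ξ / y - 1) := by
        have := Real.add_one_le_exp (ξ / y - 1)
        linarith
      have h6 : (ξ / y) ^ k ≤ Real.exp (ξ / y - 1) ^ k :=
        pow_le_pow_left₀ (div_pos hξ hy).le h5 k
      refine h6.trans ?_
      rw [← Real.exp_nat_mul]
      apply Real.exp_le_exp.2
      have h7 : ξ / y - 1 = (ξ - y) / y := by field_simp
      rw [h7, mul_div_assoc', div_le_iff₀ hy, mul_comm]
      exact mul_le_mul_of_nonneg_left h2 (by linarith)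
    unfold w1_h
    have h5 : Real.exp (-y) = Real.exp (ξ - y) * Real.exp (-ξ) := by
      rw [← Real.exp_add]
      congr 1
      ring
    rw [h5, div_mul_eq_mul_div, div_mul_eq_mul_div]
    apply div_le_div_of_nonneg_right _ (by positivity)
    rw [← mul_assoc]
    apply mul_le_mul_of_nonneg_right _ (Real.exp_pos _).le
    rw [div_pow, div_le_iff₀ (pow_pos hy k)] at h4
    linarith
  · have hk : k = 0 := by
      have : (k : ℝ) ≤ 0 := by linarith
      exact_mod_cast le_antisymm this (Nat.cast_nonneg k)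
    subst hk
    unfold w1_h
    rw [pow_zero, pow_zero]
    apply mul_le_mul_of_nonneg_left _ (by positivity)
    apply Real.exp_le_exp.2
    linarith

/-- The differences of `w1_P` at the points `lam j`, `lam (j + 2)`. -/
noncomputable def w1_D (lam : ℝ) (k j : ℕ) : ℝ := w1_P k (lam * j) - w1_P k (lam * (j + 2))

/-- The blocks about the maximum. -/
noncomputable def w1_F (lam : ℝ) (k j : ℕ) : ℝ :=
  open Classical in
  if (k : ℝ) / lam - 2 ≤ j ∧ (j : ℝ) ≤ k / lam + 1 then lam else 0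

theorem w1_D_nonneg {lam : ℝ} (hlam : 0 < lam) (k j : ℕ) : 0 ≤ w1_D lam k j := by
  unfold w1_D
  have h1 : 0 ≤ lam * (j : ℝ) := by positivity
  have h2 := w1_P_anti k h1 (mul_le_mul_of_nonneg_left (by linarith : (j : ℝ) ≤ j + 2) hlam.le)
  linarith

theorem w1_main {lam : ℝ} (hlam : 0 < lam) (k j : ℕ) {t : ℝ} (h1 : (j : ℝ) ≤ t)
    (h2 : t < j + 1) : lam * w1_h k (lam * t) ≤ w1_D lam k j + w1_D lam k (j - 1) + w1_F lam k j := by
  have ht : 0 ≤ t := (Nat.cast_nonneg j).trans h1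
  have hy : 0 ≤ lam * t := mul_nonneg hlam.le ht
  have hF : 0 ≤ w1_F lam k j := by
    unfold w1_F
    split_ifs
    · exact hlam.le
    · exact le_rfl
  have hD1 := w1_D_nonneg hlam k j
  have hD2 := w1_D_nonneg hlam k (j - 1)
  by_cases hA : lam * t + lam ≤ k
  · obtain ⟨ξ, hξ1, hξ2, hξ⟩ := w1_mvt k (show lam * t < lam * t + lam by linarith)
    have h3 : w1_h k (lam * t) ≤ w1_h k ξ := w1_h_mono k hy hξ1.le (by linarith)
    have h4 : lam * w1_h k (lam * t) ≤ w1_P k (lam * t) - w1_P k (lam * t + lam) := by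
      rw [hξ]
      nlinarith
    have h5 : w1_P k (lam * t) ≤ w1_P k (lam * j) :=
      w1_P_anti k (by positivity) (mul_le_mul_of_nonneg_left h1 hlam.le)
    have h6 : w1_P k (lam * (j + 2)) ≤ w1_P k (lam * t + lam) :=
      w1_P_anti k (by linarith) (by nlinarith)
    have h7 : w1_D lam k j = w1_P k (lam * j) - w1_P k (lam * (j + 2)) := rfl
    linarith
  · by_cases hB : (k : ℝ) ≤ lam * t - lam
    · have ht1 : 0 ≤ lam * t - lam := (Nat.cast_nonneg k).trans hB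
      have ht2 : 1 ≤ t := by
        by_contra hc
        push Not at hc
        nlinarith
      have hj : 1 ≤ j := by
        by_contra hc
        have : j = 0 := by omega
        rw [this, Nat.cast_zero] at h2
        linarith
      obtain ⟨i, rfl⟩ : ∃ i, j = i + 1 := ⟨j - 1, by omega⟩
      rw [Nat.add_sub_cancel] at hD2 ⊢
      push_cast at h1 h2
      obtain ⟨ξ, hξ1, hξ2, hξ⟩ := w1_mvt k (show lam * t - lam < lam * t by linarith)
      have h3 : w1_h k (lam * t) ≤ w1_h k ξ := w1_h_anti k (by linarith) hξ2.le (by linarith)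
      have h4 : lam * w1_h k (lam * t) ≤ w1_P k (lam * t - lam) - w1_P k (lam * t) := by
        rw [hξ]
        nlinarith
      have h5 : w1_P k (lam * t - lam) ≤ w1_P k (lam * i) :=
        w1_P_anti k (by positivity) (by nlinarith)
      have h6 : w1_P k (lam * (i + 2)) ≤ w1_P k (lam * t) :=
        w1_P_anti k hy (by nlinarith)
      have h7 : w1_D lam k i = w1_P k (lam * i) - w1_P k (lam * (i + 2)) := rfl
      linarith
    · push Not at hA hB
      have h3 : w1_F lam k j = lam := by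
        unfold w1_F
        rw [if_pos]
        constructor
        · rw [sub_le_iff_le_add, div_le_iff₀ hlam]
          nlinarith
        · have h4 : (j : ℝ) - 1 ≤ k / lam := by
            rw [le_div_iff₀ hlam]
            nlinarith
          linarith
      have h4 := w1_h_le k hy
      rw [h3]
      nlinarith

theorem w1_D_sum {lam : ℝ} (hlam : 0 < lam) (k J : ℕ) : ∑ j ∈ range J, w1_D lam k j ≤ 2 := by
  have h1 : ∀ j : ℕ, w1_D lam k j = (w1_P k (lam * (j : ℝ)) - w1_P k (lam * ((j + 1 : ℕ) : ℝ))) +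
      (w1_P k (lam * ((j + 1 : ℕ) : ℝ)) - w1_P k (lam * ((j + 1 + 1 : ℕ) : ℝ))) := by
    intro j
    unfold w1_D
    push_cast
    rw [show (j : ℝ) + 1 + 1 = j + 2 by ring]
    ring
  have h2 : ∑ j ∈ range J, (w1_P k (lam * (j : ℝ)) - w1_P k (lam * ((j + 1 : ℕ) : ℝ))) =
      w1_P k (lam * ((0 : ℕ) : ℝ)) - w1_P k (lam * (J : ℝ)) :=
    Finset.sum_range_sub' (fun j : ℕ => w1_P k (lam * (j : ℝ))) J
  have h3 : ∑ j ∈ range J, (w1_P k (lam * ((j + 1 : ℕ) : ℝ)) -
      w1_P k (lam * ((j + 1 + 1 : ℕ) : ℝ))) =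
      w1_P k (lam * ((0 + 1 : ℕ) : ℝ)) - w1_P k (lam * ((J + 1 : ℕ) : ℝ)) :=
    Finset.sum_range_sub' (fun j : ℕ => w1_P k (lam * ((j + 1 : ℕ) : ℝ))) J
  rw [Finset.sum_congr rfl fun j _ => h1 j, Finset.sum_add_distrib, h2, h3]
  have h4 : w1_P k (lam * ((0 : ℕ) : ℝ)) = 1 := by
    rw [Nat.cast_zero, mul_zero, w1_P_zero]
  have h5 : w1_P k (lam * ((0 + 1 : ℕ) : ℝ)) ≤ 1 := by
    rw [← w1_P_zero k]
    exact w1_P_anti k le_rfl (by positivity)
  have h6 : 0 ≤ w1_P k (lam * (J : ℝ)) := w1_P_nonneg k (by positivity)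
  have h7 : 0 ≤ w1_P k (lam * ((J + 1 : ℕ) : ℝ)) := w1_P_nonneg k (by positivity)
  linarith

theorem w1_D_sum' {lam : ℝ} (hlam : 0 < lam) (k J : ℕ) :
    ∑ j ∈ range J, w1_D lam k (j - 1) ≤ 4 := by
  have h0 : w1_D lam k 0 ≤ 2 := by
    have := w1_D_sum hlam k 1
    rw [Finset.sum_range_one] at this
    exact this
  rcases J with _ | J
  · rw [Finset.sum_range_zero]
    norm_num
  · rw [Finset.sum_range_succ']
    have h1 : ∑ j ∈ range J, w1_D lam k (j + 1 - 1) = ∑ j ∈ range J, w1_D lam k j :=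
      Finset.sum_congr rfl fun j _ => by rw [Nat.add_sub_cancel]
    rw [h1]
    have := w1_D_sum hlam k J
    have h2 : w1_D lam k (0 - 1) = w1_D lam k 0 := rfl
    rw [h2]
    linarith

theorem w1_F_sum {lam : ℝ} (hlam : 0 < lam) (hlam1 : lam ≤ 1) (k J : ℕ) :
    ∑ j ∈ range J, w1_F lam k j ≤ 5 := by
  classical
  have h1 : ∑ j ∈ range J, w1_F lam k j ≤
      ∑ j ∈ Finset.Icc ⌈(k : ℝ) / lam - 2⌉₊ ⌊(k : ℝ) / lam + 1⌋₊, lam := by
    rw [← Finset.sum_filter_add_sum_filter_not (range J)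
      (fun j : ℕ => (k : ℝ) / lam - 2 ≤ j ∧ (j : ℝ) ≤ k / lam + 1)]
    have h2 : ∑ j ∈ (range J).filter
        (fun j : ℕ => ¬ ((k : ℝ) / lam - 2 ≤ j ∧ (j : ℝ) ≤ k / lam + 1)), w1_F lam k j = 0 := by
      apply Finset.sum_eq_zero
      intro j hj
      unfold w1_F
      rw [if_neg (Finset.mem_filter.1 hj).2]
    rw [h2, add_zero]
    have h3 : ∑ j ∈ (range J).filter
        (fun j : ℕ => ((k : ℝ) / lam - 2 ≤ j ∧ (j : ℝ) ≤ k / lam + 1)), w1_F lam k j =
        ∑ j ∈ (range J).filter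
        (fun j : ℕ => ((k : ℝ) / lam - 2 ≤ j ∧ (j : ℝ) ≤ k / lam + 1)), lam := by
      apply Finset.sum_congr rfl
      intro j hj
      unfold w1_F
      rw [if_pos (Finset.mem_filter.1 hj).2]
    rw [h3]
    apply Finset.sum_le_sum_of_subset_of_nonneg
    · intro j hj
      obtain ⟨-, h4, h5⟩ := Finset.mem_filter.1 hj
      rw [Finset.mem_Icc]
      exact ⟨Nat.ceil_le.2 h4, Nat.le_floor h5⟩
    · intro j _ _
      exact hlam.le
  refine h1.trans ?_
  rw [Finset.sum_const, Nat.card_Icc, nsmul_eq_mul]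
  have h2 : ((⌊(k : ℝ) / lam + 1⌋₊ + 1 - ⌈(k : ℝ) / lam - 2⌉₊ : ℕ) : ℝ) ≤ 5 := by
    have h3 : (⌊(k : ℝ) / lam + 1⌋₊ : ℝ) ≤ k / lam + 1 := Nat.floor_le (by positivity)
    have h4 : (k : ℝ) / lam - 2 ≤ ⌈(k : ℝ) / lam - 2⌉₊ := Nat.le_ceil _
    have h5 : (⌊(k : ℝ) / lam + 1⌋₊ : ℝ) ≤ ⌈(k : ℝ) / lam - 2⌉₊ + 3 := by linarith
    have h6 : ⌊(k : ℝ) / lam + 1⌋₊ ≤ ⌈(k : ℝ) / lam - 2⌉₊ + 3 := by exact_mod_cast h5
    have h7 : ⌊(k : ℝ) / lam + 1⌋₊ + 1 - ⌈(k : ℝ) / lam - 2⌉₊ ≤ 5 := by omega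
    exact_mod_cast h7
  nlinarith [Nat.cast_nonneg (α := ℝ) (⌊(k : ℝ) / lam + 1⌋₊ + 1 - ⌈(k : ℝ) / lam - 2⌉₊)]

theorem w1_Jk (lam : ℝ) (k n : ℕ) (hn : 1 ≤ n) :
    (n : ℝ) * Jk lam k n = lam * w1_h k (lam * Real.log n) := by
  have hn0 : (0 : ℝ) < n := by exact_mod_cast hn
  unfold Jk w1_h
  have h1 : (n : ℝ) ^ (-1 - lam) = (n : ℝ)⁻¹ * Real.exp (-(lam * Real.log n)) := by
    rw [Real.rpow_def_of_pos hn0, ← Real.exp_log (inv_pos.2 hn0), Real.log_inv, ← Real.exp_add]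
    congr 1
    ring
  rw [h1, mul_pow]
  field_simp
  ring

theorem Jk_nonneg (lam : ℝ) (k n : ℕ) (hlam : 0 ≤ lam) : 0 ≤ Jk lam k n := by
  unfold Jk
  have h1 : 0 ≤ Real.log (n : ℝ) := Real.log_natCast_nonneg n
  positivity

/-- `n Jk(n) ≤ lam`: `y^k e^(-y) ≤ k!` for `y ≥ 0` (`Real.pow_div_factorial_le_exp`). Also true
for `n = 0` (`(0:ℝ)^(-1-lam) = 0`). -/
theorem Jk_le (lam : ℝ) (k n : ℕ) (hlam : 0 < lam) : (n : ℝ) * Jk lam k n ≤ lam := by
  rcases Nat.eq_zero_or_pos n with hn | hn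
  · rw [hn, Nat.cast_zero, zero_mul]
    exact hlam.le
  · rw [w1_Jk lam k n hn]
    have h1 := w1_h_le k (mul_nonneg hlam.le (Real.log_natCast_nonneg n))
    nlinarith

/-- Blocks: `∑_{e^j ≤ n < e^(j+1)} Λ(n)/n ≤ C`, from `∑_{n ≤ x} Λ(n) ≤ C x` (Chebyshev, e.g.
`Chebyshev.psi_le_const_mul_self` of Mathlib; see also `BPS_sum_vM` in `H68T/BPS`). Stated for
finite sets. -/
theorem W1_block : ∃ C : ℝ, 0 < C ∧ ∀ (j : ℕ) (s : Finset ℕ),
    (∀ n ∈ s, 1 ≤ n ∧ (j : ℝ) ≤ Real.log n ∧ Real.log n ≤ j + 1) →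
    ∑ n ∈ s, Λ n / n ≤ C := by
  refine ⟨(Real.log 4 + 4) * Real.exp 1, by positivity, ?_⟩
  intro j s hs
  have h1 : ∀ n ∈ s, Λ n / n ≤ Real.exp (-(j : ℝ)) * Λ n := by
    intro n hn
    obtain ⟨h2, h3, h4⟩ := hs n hn
    have hn0 : (0 : ℝ) < n := by exact_mod_cast h2
    have h5 : Real.exp (j : ℝ) ≤ n := by
      rw [← Real.exp_log hn0]
      exact Real.exp_le_exp.2 h3
    rw [Real.exp_neg, div_eq_inv_mul]
    exact mul_le_mul_of_nonneg_right (inv_anti₀ (Real.exp_pos _) h5)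
      ArithmeticFunction.vonMangoldt_nonneg
  have h2 : ∑ n ∈ s, Λ n ≤ Chebyshev.psi (Real.exp ((j : ℝ) + 1)) := by
    unfold Chebyshev.psi
    apply Finset.sum_le_sum_of_subset_of_nonneg
    · intro n hn
      obtain ⟨h2, h3, h4⟩ := hs n hn
      have hn0 : (0 : ℝ) < n := by exact_mod_cast h2
      rw [Finset.mem_Ioc]
      refine ⟨h2, Nat.le_floor ?_⟩
      rw [← Real.exp_log hn0]
      exact Real.exp_le_exp.2 h4
    · intro n _ _
      exact ArithmeticFunction.vonMangoldt_nonneg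
  have h3 := Chebyshev.psi_le_const_mul_self (Real.exp_pos ((j : ℝ) + 1)).le
  calc ∑ n ∈ s, Λ n / n ≤ ∑ n ∈ s, Real.exp (-(j : ℝ)) * Λ n := Finset.sum_le_sum h1
    _ = Real.exp (-(j : ℝ)) * ∑ n ∈ s, Λ n := by rw [Finset.mul_sum]
    _ ≤ Real.exp (-(j : ℝ)) * ((Real.log 4 + 4) * Real.exp ((j : ℝ) + 1)) :=
        mul_le_mul_of_nonneg_left (h2.trans h3) (Real.exp_pos _).le
    _ = (Real.log 4 + 4) * Real.exp 1 := by
        rw [Real.exp_add, Real.exp_neg]
        field_simp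

/-- Total mass: `∑_{n ∈ s} Λ(n) Jk(n) ≤ C` for every finite set `s`.

Proof. Split by `j = ⌊log n⌋` (`n ≥ 1`; the term `n = 0` is `0` since `Λ 0 = 0`): a block contributes
at most `C lam max_{[lam j, lam (j+1)]} h_k`. `h_k` is unimodal with maximum at `y = k` and
`h_k ≤ 1`, `∫_0^∞ h_k = 1`. So for the blocks with `lam (j+1) ≤ k` (increasing) the maximum is
`h_k(lam (j+1)) ≤ (1/lam) ∫_{lam (j+1)}^{lam (j+2)} h_k` if `lam (j+2) ≤ k`, similarly for the
decreasing part; at most `4` blocks remain, each contributing `≤ C lam`. Total `≤ C (1 + 1 + 4 lam)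
≤ 6 C`. Alternative avoiding unimodality: for `lam ≤ 1`, on a block `h_k(lam u) ≤ e (lam (j+1))^k
e^(-lam (j+1))/k!`, and `∑_j lam (lam (j+1))^k e^(-lam (j+1))/k! ≤ C` can be proved from
`x^k = x (x-lam)...` or from the negative binomial series: `(j+1)^k ≤ k! binom (j+k) k` with
`j + 1 ≤ ...` (then `∑_j binom(j+k) k e^(-lam (j+1)) = e^(-lam) (1 - e^(-lam))^(-k-1)` and
`lam^(k+1) (1-e^(-lam))^(-k-1)` is NOT bounded: do not use this), so prefer the comparison with the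
integral. -/
theorem Jk_sum : ∃ C : ℝ, 0 < C ∧ ∀ (lam : ℝ) (k : ℕ) (s : Finset ℕ), 0 < lam → lam ≤ 1 →
    ∑ n ∈ s, Λ n * Jk lam k n ≤ C := by
  classical
  obtain ⟨C, hC, hb⟩ := W1_block
  refine ⟨C * 11, by positivity, ?_⟩
  intro lam k s hlam hlam1
  have h1 : ∑ n ∈ s, Λ n * Jk lam k n = ∑ n ∈ s.filter (fun n => 1 ≤ n), Λ n * Jk lam k n := by
    rw [← Finset.sum_filter_add_sum_filter_not s (fun n => 1 ≤ n)]
    have h2 : ∑ n ∈ s.filter (fun n => ¬ 1 ≤ n), Λ n * Jk lam k n = 0 := by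
      apply Finset.sum_eq_zero
      intro n hn
      have h3 : n = 0 := by
        have := (Finset.mem_filter.1 hn).2
        omega
      rw [h3, ArithmeticFunction.map_zero, zero_mul]
    rw [h2, add_zero]
  rw [h1]
  obtain ⟨J, hJ⟩ : ∃ J : ℕ, ∀ n ∈ s.filter (fun n => 1 ≤ n), ⌊Real.log (n : ℝ)⌋₊ ∈ range J := by
    refine ⟨(s.filter (fun n => 1 ≤ n)).sup (fun n : ℕ => ⌊Real.log (n : ℝ)⌋₊) + 1, fun n hn => ?_⟩
    rw [Finset.mem_range, Nat.lt_succ_iff]
    exact Finset.le_sup (f := fun n : ℕ => ⌊Real.log (n : ℝ)⌋₊) hn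
  rw [← Finset.sum_fiberwise_of_maps_to hJ]
  have h2 : ∀ j ∈ range J, ∑ n ∈ (s.filter (fun n => 1 ≤ n)).filter
      (fun n : ℕ => ⌊Real.log (n : ℝ)⌋₊ = j), Λ n * Jk lam k n ≤
      C * (w1_D lam k j + w1_D lam k (j - 1) + w1_F lam k j) := by
    intro j _
    have h3 : ∀ n ∈ (s.filter (fun n => 1 ≤ n)).filter (fun n : ℕ => ⌊Real.log (n : ℝ)⌋₊ = j),
        1 ≤ n ∧ (j : ℝ) ≤ Real.log n ∧ Real.log n < j + 1 := by
      intro n hn
      obtain ⟨h4, h5⟩ := Finset.mem_filter.1 hn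
      have h6 := (Finset.mem_filter.1 h4).2
      have h7 : 0 ≤ Real.log (n : ℝ) := Real.log_natCast_nonneg n
      refine ⟨h6, ?_, ?_⟩
      · rw [← h5]
        exact Nat.floor_le h7
      · rw [← h5]
        exact Nat.lt_floor_add_one _
    have h4 : ∀ n ∈ (s.filter (fun n => 1 ≤ n)).filter (fun n : ℕ => ⌊Real.log (n : ℝ)⌋₊ = j),
        Λ n * Jk lam k n ≤ Λ n / n * (w1_D lam k j + w1_D lam k (j - 1) + w1_F lam k j) := by
      intro n hn
      obtain ⟨h5, h6, h7⟩ := h3 n hn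
      have hn0 : (0 : ℝ) < n := by exact_mod_cast h5
      have h8 : Λ n * Jk lam k n = Λ n / n * (n * Jk lam k n) := by field_simp
      rw [h8, w1_Jk lam k n h5]
      apply mul_le_mul_of_nonneg_left (w1_main hlam k j h6 h7)
      exact div_nonneg ArithmeticFunction.vonMangoldt_nonneg hn0.le
    refine (Finset.sum_le_sum h4).trans ?_
    rw [← Finset.sum_mul]
    apply mul_le_mul_of_nonneg_right
    · exact hb j _ fun n hn => ⟨(h3 n hn).1, (h3 n hn).2.1, (h3 n hn).2.2.le⟩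
    · have hD1 := w1_D_nonneg hlam k j
      have hD2 := w1_D_nonneg hlam k (j - 1)
      have hF : 0 ≤ w1_F lam k j := by
        unfold w1_F
        split_ifs
        · exact hlam.le
        · exact le_rfl
      linarith
  refine (Finset.sum_le_sum h2).trans ?_
  rw [← Finset.mul_sum, Finset.sum_add_distrib, Finset.sum_add_distrib]
  have h3 := w1_D_sum hlam k J
  have h4 := w1_D_sum' hlam k J
  have h5 := w1_F_sum hlam hlam1 k J
  exact mul_le_mul_of_nonneg_left (by linarith) hC.le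

theorem Jk_summable (lam : ℝ) (k : ℕ) (hlam : 0 < lam) (hlam1 : lam ≤ 1) :
    Summable fun n : ℕ => Λ n * Jk lam k n := by
  obtain ⟨C, hC, h⟩ := Jk_sum
  refine summable_of_sum_le (c := C) ?_ (fun u => h lam k u hlam hlam1)
  intro n
  exact mul_nonneg ArithmeticFunction.vonMangoldt_nonneg (Jk_nonneg lam k n hlam.le)

end Pool.Agent.Lib.H18Q
end

-- from Lib.H18Q.W2
section

/-!
# Project H18Q, chunk W2: tails of the weights `Jk`
-/

open Finset

namespace Pool.Agent.Lib.H18Q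

open ArithmeticFunction

theorem w2_blocks {C : ℝ} (hC : ∀ (j : ℕ) (s : Finset ℕ),
    (∀ n ∈ s, 1 ≤ n ∧ (j : ℝ) ≤ Real.log n ∧ Real.log n ≤ j + 1) → ∑ n ∈ s, Λ n / n ≤ C)
    (s : Finset ℕ) (hs : ∀ n ∈ s, 1 ≤ n) (G : ℕ → ℝ) (hG : ∀ j, 0 ≤ G j) (g : ℕ → ℝ)
    (hg : ∀ n ∈ s, g n ≤ G ⌊Real.log n⌋₊) (M : ℕ) (hM : ∀ n ∈ s, ⌊Real.log n⌋₊ < M) :
    ∑ n ∈ s, Λ n / n * g n ≤ ∑ j ∈ range M, C * G j := by
  rw [← Finset.sum_fiberwise_of_maps_to (g := fun n : ℕ => ⌊Real.log n⌋₊) (t := range M)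
    (fun n hn => Finset.mem_range.2 (hM n hn))]
  refine Finset.sum_le_sum fun j _ => ?_
  have h1 : ∑ n ∈ s.filter (fun n : ℕ => ⌊Real.log n⌋₊ = j), Λ n / n * g n ≤
      ∑ n ∈ s.filter (fun n : ℕ => ⌊Real.log n⌋₊ = j), Λ n / n * G j := by
    refine Finset.sum_le_sum fun n hn => ?_
    rw [Finset.mem_filter] at hn
    have h2 := hg n hn.1
    rw [hn.2] at h2
    exact mul_le_mul_of_nonneg_left h2 (div_nonneg vonMangoldt_nonneg (Nat.cast_nonneg n))
  refine h1.trans ?_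
  rw [← Finset.sum_mul]
  refine mul_le_mul_of_nonneg_right (hC j _ fun n hn => ?_) (hG j)
  rw [Finset.mem_filter] at hn
  have h3 := hs n hn.1
  have h4 : 0 ≤ Real.log n := Real.log_natCast_nonneg n
  refine ⟨h3, ?_, ?_⟩
  · rw [← hn.2]; exact Nat.floor_le h4
  · rw [← hn.2]; exact (Nat.lt_floor_add_one _).le

theorem w2_Jk (lam : ℝ) (k n : ℕ) (_ : 0 < lam) (hn : 1 ≤ n) :
    Jk lam k n = (lam * ((lam * Real.log n) ^ k / (k.factorial : ℝ) * Real.exp (-(lam * Real.log n)))) / n := by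
  have hn0 : (0 : ℝ) < n := by exact_mod_cast hn
  unfold Jk
  have h1 : (n : ℝ) ^ (-1 - lam) = Real.exp (-(lam * Real.log n)) / n := by
    rw [Real.rpow_def_of_pos hn0, div_eq_mul_inv, ← Real.exp_log hn0, ← Real.exp_neg, ← Real.exp_add,
      Real.exp_log hn0]
    congr 1
    ring
  rw [h1, mul_pow, pow_succ]
  ring

/-- Lower tail. Proof: for `n ≥ 1` with `y = lam log n ≤ k/B`: `h_k(y) ≤ y^k/k! ≤ (k/B)^k/k! ≤
(e/B)^k` (`k^k ≤ e^k k!`, the term of the exponential series), so `Λ(n) Jk(n) ≤ Λ(n)/n lam (e/B)^k`.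
There are at most `k/(B lam) + 1` blocks `⌊log n⌋ = j`, each contributing `C lam (e/B)^k`
(`W1_block`): total `C (k/B + lam) (e/B)^k ≤ C (k + 1) (e/B)^k ≤ C (2 e/B)^k` (`k + 1 ≤ 2^k`).
`n = 0` contributes `0`. -/
theorem Jk_low : ∃ C : ℝ, 0 < C ∧ ∀ (lam B : ℝ) (k : ℕ) (s : Finset ℕ), 0 < lam → lam ≤ 1 →
    1 ≤ B → (∀ n ∈ s, lam * Real.log n ≤ k / B) →
    ∑ n ∈ s, Λ n * Jk lam k n ≤ C * (6 / B) ^ k := by
  obtain ⟨C, hC0, hC⟩ := W1_block
  refine ⟨C, hC0, fun lam B k s hlam hlam1 hB hs => ?_⟩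
  have hB0 : 0 < B := by linarith
  obtain ⟨t, ht⟩ : ∃ t, t = s.filter (fun n => 1 ≤ n) := ⟨_, rfl⟩
  have hst : ∑ n ∈ s, Λ n * Jk lam k n = ∑ n ∈ t, Λ n * Jk lam k n := by
    rw [ht]
    symm
    apply Finset.sum_filter_of_ne
    intro n _ hn
    by_contra h0
    have : n = 0 := by omega
    rw [this, ArithmeticFunction.map_zero, zero_mul] at hn
    exact hn rfl
  have htm : ∀ n ∈ t, 1 ≤ n ∧ lam * Real.log n ≤ k / B := by
    intro n hn
    rw [ht, Finset.mem_filter] at hn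
    exact ⟨hn.2, hs n hn.1⟩
  rw [hst]
  have hkf : (0 : ℝ) < k.factorial := by exact_mod_cast Nat.factorial_pos k
  have hkk : (k : ℝ) ^ k / k.factorial ≤ Real.exp k := Real.pow_div_factorial_le_exp _ (Nat.cast_nonneg k) k
  have he3 : Real.exp 1 < 3 := lt_trans Real.exp_one_lt_d9 (by norm_num)
  have hterm : ∀ n ∈ t, Λ n * Jk lam k n ≤ Λ n / n * (lam * (3 / B) ^ k) := by
    intro n hn
    obtain ⟨hn1, hn2⟩ := htm n hn
    have hl : 0 ≤ Real.log n := Real.log_natCast_nonneg n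
    have hy : 0 ≤ lam * Real.log n := by positivity
    rw [w2_Jk lam k n hlam hn1]
    have h1 : (lam * Real.log n) ^ k / (k.factorial : ℝ) * Real.exp (-(lam * Real.log n)) ≤ (3 / B) ^ k := by
      have h2 : (lam * Real.log n) ^ k ≤ (k / B) ^ k := pow_le_pow_left₀ hy hn2 k
      have h3 : Real.exp (-(lam * Real.log n)) ≤ 1 := Real.exp_le_one_iff.2 (by linarith)
      have h4 : (k / B : ℝ) ^ k / k.factorial ≤ (3 / B) ^ k := by
        rw [div_pow, div_div, mul_comm, ← div_div, div_pow]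
        have h5 : (k : ℝ) ^ k / k.factorial ≤ 3 ^ k := by
          refine hkk.trans ?_
          have h6 : Real.exp k = Real.exp 1 ^ k := by rw [← Real.exp_nat_mul, mul_one]
          rw [h6]
          exact pow_le_pow_left₀ (Real.exp_pos _).le he3.le k
        exact div_le_div_of_nonneg_right h5 (by positivity)
      calc (lam * Real.log n) ^ k / (k.factorial : ℝ) * Real.exp (-(lam * Real.log n))
          ≤ (lam * Real.log n) ^ k / (k.factorial : ℝ) * 1 :=
            mul_le_mul_of_nonneg_left h3 (by positivity)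
        _ ≤ (k / B : ℝ) ^ k / k.factorial := by
            rw [mul_one]
            exact div_le_div_of_nonneg_right h2 hkf.le
        _ ≤ _ := h4
    have hL : 0 ≤ Λ n := vonMangoldt_nonneg
    have hn0 : (0 : ℝ) < n := by exact_mod_cast hn1
    calc Λ n * (lam * ((lam * Real.log n) ^ k / (k.factorial : ℝ) * Real.exp (-(lam * Real.log n))) / n)
        = Λ n / n * (lam * ((lam * Real.log n) ^ k / (k.factorial : ℝ) * Real.exp (-(lam * Real.log n)))) := by ring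
      _ ≤ _ := mul_le_mul_of_nonneg_left (mul_le_mul_of_nonneg_left h1 hlam.le) (by positivity)
  refine (Finset.sum_le_sum hterm).trans ?_
  have hlogY : ∀ n ∈ t, Real.log n ≤ k / (B * lam) := by
    intro n hn
    have h1 := (htm n hn).2
    rw [le_div_iff₀ (by positivity)]
    rw [le_div_iff₀ hB0] at h1
    linarith
  have hbl := w2_blocks hC t (fun n hn => (htm n hn).1) (fun _ => lam * (3 / B) ^ k)
    (fun _ => by positivity) (fun _ => lam * (3 / B) ^ k) (fun n _ => le_refl _) (⌊(k : ℝ) / (B * lam)⌋₊ + 1)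
    (fun n hn => Nat.lt_succ_of_le (Nat.floor_le_floor (hlogY n hn)))
  refine hbl.trans ?_
  rw [Finset.sum_const, nsmul_eq_mul, Finset.card_range]
  push_cast
  have hfl : (⌊(k : ℝ) / (B * lam)⌋₊ : ℝ) ≤ k / (B * lam) := Nat.floor_le (by positivity)
  have h2k : (k : ℝ) + 1 ≤ 2 ^ k := by
    have : k + 1 ≤ 2 ^ k := Nat.lt_two_pow_self
    exact_mod_cast this
  have h3B : (0 : ℝ) < (3 / B) ^ k := by positivity
  calc ((⌊(k : ℝ) / (B * lam)⌋₊ : ℝ) + 1) * (C * (lam * (3 / B) ^ k))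
      ≤ (k / (B * lam) + 1) * (C * (lam * (3 / B) ^ k)) :=
        mul_le_mul_of_nonneg_right (by linarith) (by positivity)
    _ = C * ((k / B + lam) * (3 / B) ^ k) := by field_simp
    _ ≤ C * (2 ^ k * (3 / B) ^ k) := by
        have h4 : (k : ℝ) / B ≤ k := div_le_self (Nat.cast_nonneg k) hB
        exact mul_le_mul_of_nonneg_left (mul_le_mul_of_nonneg_right (by linarith) h3B.le) hC0.le
    _ = C * (6 / B) ^ k := by rw [← mul_pow]; congr 2; ring

/-- Upper tail. Proof: for `y = lam log n ≥ B k`, `B ≥ 2`: `h_k(y) = (y^k e^(-y/2)/k!) e^(-y/2)`, and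
`y^k e^(-y/2)` is decreasing for `y ≥ 2 k`, so `h_k(y) ≤ ((B k)^k e^(-B k/2)/k!) e^(-y/2) ≤
(e B e^(-B/2))^k e^(-y/2)` (for `k = 0` directly). Block `j = ⌊log n⌋`: at most
`C lam (e B e^(-B/2))^k e^(-lam j/2)` (`W1_block`), and `∑_j lam e^(-lam j/2) ≤ lam/(1 - e^(-lam/2))
≤ 4` for `lam ≤ 1`. -/
theorem Jk_high : ∃ C : ℝ, 0 < C ∧ ∀ (lam B : ℝ) (k : ℕ) (s : Finset ℕ), 0 < lam → lam ≤ 1 →
    2 ≤ B → (∀ n ∈ s, 1 ≤ n ∧ B * k ≤ lam * Real.log n) →
    ∑ n ∈ s, Λ n * Jk lam k n ≤ C * (3 * B * Real.exp (-(B / 2))) ^ k := by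
  obtain ⟨C, hC0, hC⟩ := W1_block
  refine ⟨4 * C, by positivity, fun lam B k s hlam hlam1 hB hs => ?_⟩
  have hB0 : 0 < B := by linarith
  have hkf : (0 : ℝ) < k.factorial := by exact_mod_cast Nat.factorial_pos k
  have he3 : Real.exp 1 < 3 := lt_trans Real.exp_one_lt_d9 (by norm_num)
  obtain ⟨D, hD⟩ : ∃ D, D = (3 * B * Real.exp (-(B / 2))) ^ k := ⟨_, rfl⟩
  have hD0 : 0 < D := by rw [hD]; positivity
  rw [← hD]
  have hterm : ∀ n ∈ s, Λ n * Jk lam k n ≤ Λ n / n * (lam * D * Real.exp (-(lam / 2) * Real.log n)) := by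
    intro n hn
    obtain ⟨hn1, hn2⟩ := hs n hn
    have hl : 0 ≤ Real.log n := Real.log_natCast_nonneg n
    obtain ⟨y, hy⟩ : ∃ y, y = lam * Real.log n := ⟨_, rfl⟩
    have hy0 : 0 ≤ y := by rw [hy]; positivity
    rw [w2_Jk lam k n hlam hn1, ← hy]
    rw [← hy] at hn2
    have h1 : y ^ k / (k.factorial : ℝ) * Real.exp (-y) ≤ D * Real.exp (-(lam / 2) * Real.log n) := by
      have h2 : (y / B) ^ k / (k.factorial : ℝ) ≤ Real.exp (y / B) :=
        Real.pow_div_factorial_le_exp _ (by positivity) k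
      have h3 : y ^ k / (k.factorial : ℝ) ≤ B ^ k * Real.exp (y / B) := by
        rw [div_pow] at h2
        have h4 : y ^ k / (k.factorial : ℝ) = B ^ k * (y ^ k / B ^ k / (k.factorial : ℝ)) := by
          field_simp
        rw [h4]
        exact mul_le_mul_of_nonneg_left h2 (by positivity)
      have h5 : Real.exp (y / B) * Real.exp (-y) ≤ (3 * Real.exp (-(B / 2))) ^ k * Real.exp (-(y / 2)) := by
        have h6 : Real.exp (y / B) * Real.exp (-y) ≤ Real.exp ((k : ℝ) * (1 + -(B / 2))) * Real.exp (-(y / 2)) := by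
          rw [← Real.exp_add, ← Real.exp_add]
          apply Real.exp_le_exp.2
          have h7 : (B * k) * (1 / 2 - 1 / B) ≤ y * (1 / 2 - 1 / B) := by
            refine mul_le_mul_of_nonneg_right hn2 ?_
            rw [sub_nonneg]
            exact one_div_le_one_div_of_le (by norm_num) hB
          have h8 : (B * k) * (1 / 2 - 1 / B) = B * k / 2 - k := by field_simp
          rw [h8] at h7
          have h9 : y * (1 / 2 - 1 / B) = y / 2 - y / B := by ring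
          rw [h9] at h7
          linarith
        refine h6.trans (mul_le_mul_of_nonneg_right ?_ (Real.exp_pos _).le)
        rw [Real.exp_nat_mul, Real.exp_add]
        exact pow_le_pow_left₀ (by positivity) (mul_le_mul_of_nonneg_right he3.le (Real.exp_pos _).le) k
      have h10 : Real.exp (-(lam / 2) * Real.log n) = Real.exp (-(y / 2)) := by
        rw [hy]; congr 1; ring
      rw [h10]
      calc y ^ k / (k.factorial : ℝ) * Real.exp (-y) ≤ B ^ k * Real.exp (y / B) * Real.exp (-y) :=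
            mul_le_mul_of_nonneg_right h3 (Real.exp_pos _).le
        _ = B ^ k * (Real.exp (y / B) * Real.exp (-y)) := by ring
        _ ≤ B ^ k * ((3 * Real.exp (-(B / 2))) ^ k * Real.exp (-(y / 2))) :=
            mul_le_mul_of_nonneg_left h5 (by positivity)
        _ = D * Real.exp (-(y / 2)) := by
            rw [hD, ← mul_assoc, ← mul_pow]
            congr 2
            ring
    have hL : 0 ≤ Λ n := vonMangoldt_nonneg
    have hn0 : (0 : ℝ) < n := by exact_mod_cast hn1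
    calc Λ n * (lam * (y ^ k / (k.factorial : ℝ) * Real.exp (-y)) / n)
        = Λ n / n * (lam * (y ^ k / (k.factorial : ℝ) * Real.exp (-y))) := by ring
      _ ≤ Λ n / n * (lam * (D * Real.exp (-(lam / 2) * Real.log n))) :=
          mul_le_mul_of_nonneg_left (mul_le_mul_of_nonneg_left h1 hlam.le) (by positivity)
      _ = _ := by ring
  refine (Finset.sum_le_sum hterm).trans ?_
  obtain ⟨M, hM⟩ : ∃ M : ℕ, ∀ n ∈ s, ⌊Real.log n⌋₊ < M := by
    refine ⟨(s.sup fun n : ℕ => ⌊Real.log n⌋₊) + 1, fun n hn => Nat.lt_succ_of_le ?_⟩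
    exact Finset.le_sup (f := fun n : ℕ => ⌊Real.log n⌋₊) hn
  have hbl := w2_blocks hC s (fun n hn => (hs n hn).1) (fun j => lam * D * Real.exp (-(lam / 2)) ^ j)
    (fun _ => by positivity) (fun n => lam * D * Real.exp (-(lam / 2) * Real.log n)) (fun n hn => by
      refine mul_le_mul_of_nonneg_left ?_ (by positivity)
      rw [← Real.exp_nat_mul]
      apply Real.exp_le_exp.2
      have h1 : (⌊Real.log n⌋₊ : ℝ) ≤ Real.log n := Nat.floor_le (Real.log_natCast_nonneg n)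
      nlinarith) M hM
  refine hbl.trans ?_
  have hgeo : ∑ j ∈ range M, Real.exp (-(lam / 2)) ^ j ≤ 4 / lam := by
    have hr1 : Real.exp (-(lam / 2)) < 1 := Real.exp_lt_one_iff.2 (by linarith)
    have hr0 : 0 < Real.exp (-(lam / 2)) := Real.exp_pos _
    have h1 : ∑ j ∈ range M, Real.exp (-(lam / 2)) ^ j ≤ (1 - Real.exp (-(lam / 2)))⁻¹ := by
      rw [← tsum_geometric_of_lt_one hr0.le hr1]
      exact (summable_geometric_of_lt_one hr0.le hr1).sum_le_tsum _ (fun i _ => by positivity)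
    refine h1.trans ?_
    have h2 : lam / 4 ≤ 1 - Real.exp (-(lam / 2)) := by
      have h3 : 1 + lam / 2 ≤ Real.exp (lam / 2) := by
        have := Real.add_one_le_exp (lam / 2)
        linarith
      have h4 : Real.exp (-(lam / 2)) ≤ 1 / (1 + lam / 2) := by
        rw [Real.exp_neg, inv_eq_one_div]
        exact one_div_le_one_div_of_le (by positivity) h3
      have h5 : 1 / (1 + lam / 2) ≤ 1 - lam / 4 := by
        rw [div_le_iff₀ (by positivity)]
        nlinarith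
      linarith
    rw [inv_eq_one_div]
    refine (one_div_le_one_div_of_le (by positivity) h2).trans (le_of_eq ?_)
    rw [one_div_div]
  calc ∑ j ∈ range M, C * (lam * D * Real.exp (-(lam / 2)) ^ j)
      = C * (lam * D) * ∑ j ∈ range M, Real.exp (-(lam / 2)) ^ j := by
        rw [Finset.mul_sum]
        exact Finset.sum_congr rfl fun j _ => by ring
    _ ≤ C * (lam * D) * (4 / lam) := mul_le_mul_of_nonneg_left hgeo (by positivity)
    _ = 4 * C * D := by field_simp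

end Pool.Agent.Lib.H18Q
end

-- from Lib.H18Q.W3
section

/-!
# Project H18Q, chunk W3: prime powers in the weighted sums
-/

open Finset

namespace Pool.Agent.Lib.H18Q

open ArithmeticFunction Pool.Agent.Lib.H68T

theorem w3_pp_sum (N : ℕ) (hN : 1 ≤ N) :
    ∑ n ∈ Icc 1 N, (Λ n - lp n) ≤ 2 * √(N : ℝ) * Real.log (N : ℝ) := by
  have h1 := Chebyshev.psi_sub_theta_le (x := (N : ℝ)) (by exact_mod_cast hN)
  rw [Chebyshev.psi_sub_theta_eq_sum_not_prime, Nat.floor_natCast] at h1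
  refine le_trans (le_of_eq ?_) h1
  rw [Finset.sum_filter]
  apply Finset.sum_congr rfl
  intro n _
  unfold Pool.Agent.Lib.H68T.lp
  rw [Int.toNat_natCast]
  by_cases hp : n.Prime
  · simp [hp, vonMangoldt_apply_prime]
  · simp [hp]

theorem w3_nonneg (n : ℕ) : 0 ≤ Λ n - lp n := by
  have := BPS_lp_le n
  linarith

theorem w3_zero : Λ 0 - lp (0 : ℕ) = 0 := by
  unfold Pool.Agent.Lib.H68T.lp
  simp

/-- One dyadic block. -/
theorem w3_block (j : ℕ) (t : Finset ℕ) (ht : ∀ n ∈ t, 1 ≤ n ∧ Nat.log 2 n = j) :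
    ∑ n ∈ t, (Λ n - lp n) * (n : ℝ) ^ (-(3 / 4) : ℝ) ≤
      (4 * Real.log 2) * (((j : ℝ) + 1) * ((2 : ℝ) ^ (-(1 / 4) : ℝ)) ^ j) := by
  have h2j : (0 : ℝ) < (2 : ℝ) ^ j := by positivity
  have h1 : ∑ n ∈ t, (Λ n - lp n) * (n : ℝ) ^ (-(3 / 4) : ℝ) ≤
      ∑ n ∈ t, (Λ n - lp n) * ((2 : ℝ) ^ j) ^ (-(3 / 4) : ℝ) := by
    apply Finset.sum_le_sum
    intro n hn
    obtain ⟨hn1, hnj⟩ := ht n hn
    apply mul_le_mul_of_nonneg_left _ (w3_nonneg n)
    apply Real.rpow_le_rpow_of_nonpos h2j _ (by norm_num)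
    have := Nat.pow_log_le_self 2 (x := n) (by omega)
    rw [hnj] at this
    exact_mod_cast this
  have h2 : ∑ n ∈ t, (Λ n - lp n) ≤ ∑ n ∈ Icc 1 (2 ^ (j + 1)), (Λ n - lp n) := by
    apply Finset.sum_le_sum_of_subset_of_nonneg
    · intro n hn
      obtain ⟨hn1, hnj⟩ := ht n hn
      rw [Finset.mem_Icc]
      refine ⟨hn1, ?_⟩
      have := Nat.lt_pow_succ_log_self (b := 2) (by norm_num) n
      rw [hnj] at this
      omega
    · intro n _ _
      exact w3_nonneg n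
  have h3 := w3_pp_sum (2 ^ (j + 1)) (Nat.one_le_two_pow)
  have hl2 : 0 < Real.log 2 := Real.log_pos (by norm_num)
  have hlog : Real.log ((2 ^ (j + 1) : ℕ) : ℝ) = (j + 1) * Real.log 2 := by
    push_cast
    rw [Real.log_pow]
    push_cast
    ring
  rw [hlog] at h3
  rw [← Finset.sum_mul] at h1
  have hsq : √(((2 ^ (j + 1) : ℕ) : ℝ)) * ((2 : ℝ) ^ j) ^ (-(3 / 4) : ℝ) ≤
      2 * ((2 : ℝ) ^ (-(1 / 4) : ℝ)) ^ j := by
    push_cast
    rw [Real.sqrt_eq_rpow, ← Real.rpow_natCast, ← Real.rpow_natCast, ← Real.rpow_mul (by norm_num),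
      ← Real.rpow_mul (by norm_num), ← Real.rpow_natCast, ← Real.rpow_mul (by norm_num),
      ← Real.rpow_add (by norm_num)]
    have h4 : (2 : ℝ) * 2 ^ (-(1 / 4) * (j : ℝ)) = 2 ^ (1 + -(1 / 4) * (j : ℝ)) := by
      rw [Real.rpow_add (by norm_num), Real.rpow_one]
    rw [h4]
    apply Real.rpow_le_rpow_of_exponent_le (by norm_num)
    push_cast
    linarith
  calc ∑ n ∈ t, (Λ n - lp n) * (n : ℝ) ^ (-(3 / 4) : ℝ)
      ≤ (∑ n ∈ t, (Λ n - lp n)) * ((2 : ℝ) ^ j) ^ (-(3 / 4) : ℝ) := h1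
    _ ≤ (2 * √(((2 ^ (j + 1) : ℕ) : ℝ)) * ((j + 1) * Real.log 2)) *
        ((2 : ℝ) ^ j) ^ (-(3 / 4) : ℝ) := by
        apply mul_le_mul_of_nonneg_right (h2.trans h3)
        positivity
    _ = (2 * ((j + 1) * Real.log 2)) * (√(((2 ^ (j + 1) : ℕ) : ℝ)) *
        ((2 : ℝ) ^ j) ^ (-(3 / 4) : ℝ)) := by ring
    _ ≤ (2 * ((j + 1) * Real.log 2)) * (2 * ((2 : ℝ) ^ (-(1 / 4) : ℝ)) ^ j) := by
        apply mul_le_mul_of_nonneg_left hsq
        positivity
    _ = _ := by ring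

theorem w3_summable : Summable fun j : ℕ =>
    (4 * Real.log 2) * (((j : ℝ) + 1) * ((2 : ℝ) ^ (-(1 / 4) : ℝ)) ^ j) := by
  apply Summable.mul_left
  have hr : ‖(2 : ℝ) ^ (-(1 / 4) : ℝ)‖ < 1 := by
    rw [Real.norm_of_nonneg (by positivity)]
    exact Real.rpow_lt_one_of_one_lt_of_neg (by norm_num) (by norm_num)
  have h1 := summable_pow_mul_geometric_of_norm_lt_one 1 hr
  have h0 := summable_geometric_of_norm_lt_one hr
  refine (h1.add h0).congr ?_
  intro j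
  rw [pow_one]
  ring

theorem w3_total : ∃ C : ℝ, 0 < C ∧ ∀ s : Finset ℕ,
    ∑ n ∈ s, (Λ n - lp n) * (n : ℝ) ^ (-(3 / 4) : ℝ) ≤ C := by
  have hl2 : 0 < Real.log 2 := Real.log_pos (by norm_num)
  refine ⟨∑' j : ℕ, (4 * Real.log 2) * (((j : ℝ) + 1) * ((2 : ℝ) ^ (-(1 / 4) : ℝ)) ^ j) + 1,
    ?_, ?_⟩
  · have : 0 ≤ ∑' j : ℕ, (4 * Real.log 2) * (((j : ℝ) + 1) * ((2 : ℝ) ^ (-(1 / 4) : ℝ)) ^ j) :=
      tsum_nonneg fun j => by positivity
    linarith
  · intro s
    have h1 : ∑ n ∈ s, (Λ n - lp n) * (n : ℝ) ^ (-(3 / 4) : ℝ) =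
        ∑ n ∈ s.filter (fun n => 1 ≤ n), (Λ n - lp n) * (n : ℝ) ^ (-(3 / 4) : ℝ) := by
      rw [Finset.sum_filter]
      apply Finset.sum_congr rfl
      intro n _
      by_cases h : 1 ≤ n
      · rw [if_pos h]
      · rw [if_neg h]
        have : n = 0 := by omega
        subst this
        rw [w3_zero, zero_mul]
    rw [h1, ← Finset.sum_fiberwise_of_maps_to (s := s.filter (fun n => 1 ≤ n))
      (t := (s.filter (fun n => 1 ≤ n)).image (Nat.log 2)) (g := Nat.log 2)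
      (fun n hn => Finset.mem_image_of_mem _ hn)]
    calc _ ≤ ∑ j ∈ (s.filter (fun n => 1 ≤ n)).image (Nat.log 2),
          (4 * Real.log 2) * (((j : ℝ) + 1) * ((2 : ℝ) ^ (-(1 / 4) : ℝ)) ^ j) := by
          apply Finset.sum_le_sum
          intro j _
          apply w3_block
          intro n hn
          rw [Finset.mem_filter, Finset.mem_filter] at hn
          exact ⟨hn.1.2, hn.2⟩
      _ ≤ ∑' j : ℕ, (4 * Real.log 2) * (((j : ℝ) + 1) * ((2 : ℝ) ^ (-(1 / 4) : ℝ)) ^ j) := by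
          apply w3_summable.sum_le_tsum
          intro j _
          positivity
      _ ≤ _ := by linarith

/-- `∑_{n ∈ s, n ≥ x} (Λ(n) - lp(n))/n ≤ C x^(-1/4)`.

Proof: `Λ(n) - lp(n) = 0` unless `n = p^j`, `j ≥ 2`, where it is `log p`. The sum is at most
`∑_p log p ∑_{j ≥ 2, p^j ≥ x} p^(-j) ≤ ∑_p log p · min(2 p^(-2), 2/x) `-ish; simpler:
`p^(-j) ≤ x^(-1/4) p^(-3j/4)` for `p^j ≥ x`, and `∑_p log p ∑_{j ≥ 2} p^(-3j/4) ≤ C ∑_p log p
p^(-3/2) < ∞`. Formally `(Λ(n) - lp(n))/n ≤ x^(-1/4) (Λ(n) - lp(n)) n^(-3/4)`, and the sum over all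
`n` of `(Λ(n) - lp(n)) n^(-3/4)` is finite: from `ψ(u) - θ(u) ≤ C √u log u` (Mathlib
`Chebyshev.psi...` or `BPS_prime_powers` in `H68T/BPS`) over dyadic blocks. -/
theorem W3_pp : ∃ C : ℝ, 0 < C ∧ ∀ (x : ℝ) (s : Finset ℕ), 1 ≤ x → (∀ n ∈ s, x ≤ n) →
    ∑ n ∈ s, (Λ n - lp n) / n ≤ C * x ^ (-(1 / 4) : ℝ) := by
  obtain ⟨C, hC, h⟩ := w3_total
  refine ⟨C, hC, ?_⟩
  intro x s hx hs
  calc ∑ n ∈ s, (Λ n - lp n) / n
      ≤ ∑ n ∈ s, (Λ n - lp n) * (n : ℝ) ^ (-(3 / 4) : ℝ) * x ^ (-(1 / 4) : ℝ) := by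
        apply Finset.sum_le_sum
        intro n hn
        have hn1 : x ≤ n := hs n hn
        have hn0 : (0 : ℝ) < n := by linarith
        rw [mul_assoc, div_eq_mul_inv]
        apply mul_le_mul_of_nonneg_left _ (w3_nonneg n)
        have h1 : (n : ℝ)⁻¹ = (n : ℝ) ^ (-(3 / 4) : ℝ) * (n : ℝ) ^ (-(1 / 4) : ℝ) := by
          rw [← Real.rpow_add hn0, ← Real.rpow_neg_one]
          norm_num
        rw [h1]
        apply mul_le_mul_of_nonneg_left _ (by positivity)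
        exact Real.rpow_le_rpow_of_nonpos (by linarith) hn1 (by norm_num)
    _ = (∑ n ∈ s, (Λ n - lp n) * (n : ℝ) ^ (-(3 / 4) : ℝ)) * x ^ (-(1 / 4) : ℝ) := by
        rw [Finset.sum_mul]
    _ ≤ _ := mul_le_mul_of_nonneg_right (h s) (by positivity)

/-- Hence, with `Jk_le`: `Jk(n) ≤ lam/n`. -/
theorem W3_Jk : ∃ C : ℝ, 0 < C ∧ ∀ (lam x : ℝ) (k : ℕ) (s : Finset ℕ), 0 < lam → 1 ≤ x →
    (∀ n ∈ s, x ≤ n) → ∑ n ∈ s, (Λ n - lp n) * Jk lam k n ≤ C * lam * x ^ (-(1 / 4) : ℝ) := by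
  obtain ⟨C, hC, h⟩ := W3_pp
  refine ⟨C, hC, ?_⟩
  intro lam x k s hlam hx hs
  calc ∑ n ∈ s, (Λ n - lp n) * Jk lam k n
      ≤ ∑ n ∈ s, lam * ((Λ n - lp n) / n) := by
        apply Finset.sum_le_sum
        intro n hn
        have hn1 : x ≤ n := hs n hn
        have hn0 : (0 : ℝ) < n := by linarith
        have h1 := Jk_le lam k n hlam
        have h2 : Jk lam k n ≤ lam / n := by
          rw [le_div_iff₀ hn0]
          linarith
        calc (Λ n - lp n) * Jk lam k n ≤ (Λ n - lp n) * (lam / n) :=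
              mul_le_mul_of_nonneg_left h2 (w3_nonneg n)
          _ = _ := by ring
    _ = lam * ∑ n ∈ s, (Λ n - lp n) / n := by rw [Finset.mul_sum]
    _ ≤ lam * (C * x ^ (-(1 / 4) : ℝ)) := mul_le_mul_of_nonneg_left (h x s hx hs) hlam.le
    _ = _ := by ring

end Pool.Agent.Lib.H18Q
end

-- from Lib.H18Q.D0
section

/-!
# Project H18Q, chunk D0: from the logarithmic derivative to a sum over primes
-/

open Finset

namespace Pool.Agent.Lib.H18Q

open ArithmeticFunction Pool.Agent.Lib.H68T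

/-- The primes in `[x, y]`. -/
noncomputable def PI (x y : ℝ) : Finset ℕ := (Icc ⌈x⌉₊ ⌊y⌋₊).filter Nat.Prime

/-- Lower end of the range of primes. -/
noncomputable def xlo (K1 : ℕ) (lam : ℝ) : ℝ := Real.exp ((K1 - 1) / (2 ^ 20 * lam))

/-- Upper end of the range of primes. -/
noncomputable def yhi (K1 : ℕ) (lam : ℝ) : ℝ := Real.exp (128 * K1 / lam)

/-- The sum over primes with weights `log n Jk(n)` and coefficients `c n`. -/
noncomputable def PP (c : ℕ → ℂ) (lam : ℝ) (k K1 : ℕ) (v : ℝ) : ℂ :=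
  ∑ n ∈ PI (xlo K1 lam) (yhi K1 lam), ((Real.log n * Jk lam k n : ℝ) : ℂ) * c n *
    (n : ℂ) ^ (-(v * Complex.I))

theorem d0_iter (f : ℕ → ℂ) (m n : ℕ) :
    (LSeries.logMul^[m] f) n = (Complex.log n) ^ m * f n := by
  induction m with
  | zero => simp
  | succ m ih =>
    rw [Function.iterate_succ_apply', LSeries.logMul, ih, pow_succ]
    ring

theorem d0_norm (n : ℕ) (hn : 1 ≤ n) (v : ℝ) : ‖(n : ℂ) ^ (-(v * Complex.I))‖ = 1 := by
  have h1 : -(v * Complex.I) = ((-v : ℝ) : ℂ) * Complex.I := by push_cast; ring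
  rw [Complex.norm_natCast_cpow_of_pos (by omega)]
  simp

theorem d0_abs (c : ℕ → ℂ) (hc : ∀ n, ‖c n‖ ≤ 2) :
    LSeries.abscissaOfAbsConv (fun n => (Λ n : ℂ) * c n) ≤ (1 : ℝ) := by
  apply LSeries.abscissaOfAbsConv_le_of_forall_lt_LSeriesSummable
  intro y hy
  have h1 : LSeriesSummable (fun n => (Λ n : ℂ)) (y : ℂ) :=
    ArithmeticFunction.LSeriesSummable_vonMangoldt (by rw [Complex.ofReal_re]; exact hy)
  have h2 := (h1.norm).mul_left 2
  refine Summable.of_norm_bounded h2 fun n => ?_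
  by_cases hn : n = 0
  · subst hn
    simp
  · rw [LSeries.term_of_ne_zero hn, LSeries.term_of_ne_zero hn, norm_div, norm_div, norm_mul]
    have h3 : 0 ≤ ‖((Λ n : ℝ) : ℂ)‖ := norm_nonneg _
    have h4 := hc n
    rw [← mul_div_assoc]
    refine div_le_div_of_nonneg_right ?_ (norm_nonneg _)
    nlinarith

/-- Derivatives of the Dirichlet series. Proof: `LSeries_iteratedDeriv` (abscissa of absolute
convergence of `Λ c` at most `1`, since `‖Λ n c n‖ ≤ 2 Λ n` and the series of `Λ` converges for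
`Re s > 1`, `ArithmeticFunction.LSeriesSummable_vonMangoldt`): the `k`-th derivative is
`(-1)^k ∑ (log n)^k Λ(n) c(n) n^(-s)` (`LSeries.logMul` iterated), and
`lam^(k+1) (log n)^k / k! n^(-(1 + lam + i v)) = Jk lam k n n^(-i v)` for `n ≥ 1`; the term `n = 0`
is `0` on both sides. -/
theorem D0_series (c : ℕ → ℂ) (hc : ∀ n, ‖c n‖ ≤ 2) (lam : ℝ) (hlam : 0 < lam) (k : ℕ) (v : ℝ) :
    (lam : ℂ) ^ (k + 1) * (iteratedDeriv k (LSeries (fun n => (Λ n : ℂ) * c n))
      (1 + lam + v * Complex.I) / (k.factorial : ℂ)) =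
    (-1) ^ k * ∑' n : ℕ, ((Λ n * Jk lam k n : ℝ) : ℂ) * c n * (n : ℂ) ^ (-(v * Complex.I)) := by
  have hre : (1 + lam + v * Complex.I : ℂ).re = 1 + lam := by simp
  have habs : LSeries.abscissaOfAbsConv (fun n => (Λ n : ℂ) * c n) < ((1 + lam + v * Complex.I : ℂ).re : ℝ) := by
    refine lt_of_le_of_lt (d0_abs c hc) ?_
    rw [hre]
    exact_mod_cast (by linarith : (1 : ℝ) < 1 + lam)
  rw [LSeries_iteratedDeriv k habs, LSeries]
  have h1 : ∀ X : ℂ, (lam : ℂ) ^ (k + 1) * ((-1) ^ k * X / (k.factorial : ℂ)) =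
      (-1) ^ k * (((lam : ℂ) ^ (k + 1) / (k.factorial : ℂ)) * X) := by
    intro X
    ring
  rw [h1, ← tsum_mul_left]
  congr 1
  refine tsum_congr fun n => ?_
  by_cases hn : n = 0
  · subst hn
    rw [LSeries.term_zero]
    simp
  · have hn0 : (n : ℂ) ≠ 0 := by exact_mod_cast hn
    have hnr : (0 : ℝ) < n := by exact_mod_cast Nat.pos_of_ne_zero hn
    rw [LSeries.term_of_ne_zero hn, d0_iter]
    have h2 : (n : ℂ) ^ (1 + lam + v * Complex.I : ℂ) = ((n : ℂ) ^ (-1 - lam : ℂ) * (n : ℂ) ^ (-(v * Complex.I)))⁻¹ := by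
      rw [← Complex.cpow_add _ _ hn0, ← Complex.cpow_neg]
      congr 1
      ring
    rw [h2, div_inv_eq_mul]
    have h3 : ((Jk lam k n : ℝ) : ℂ) = (lam : ℂ) ^ (k + 1) * (Complex.log n) ^ k / (k.factorial : ℂ) * (n : ℂ) ^ (-1 - lam : ℂ) := by
      unfold Jk
      push_cast
      rw [Complex.ofReal_cpow hnr.le]
      push_cast
      rfl
    rw [Complex.ofReal_mul, h3]
    ring

/-- Truncation to the primes between `xlo` and `yhi`: for `K1 ≥ C3`, `lam ≤ th0`,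
`K1 ≤ k + 1 < 2 K1`, bounded coefficients, the error is at most `(1/8) 4096^(-K1)`.

Proof. `|n^(-iv)| ≤ 1`. The difference is at most `2 ∑' (Λ(n) - lp(n) 1[xlo ≤ n ≤ yhi]) Jk(n)`
(`lp n = log n` for primes, `lp ≤ Λ`); as all terms are nonnegative and finite sums suffice
(`Real.tsum_le_of_sum_le` or `tsum_le_of_sum_range_le`; `Jk_summable`), bound three parts:
(1) `n < xlo`: `lam log n ≤ (K1 - 1)/2^20 ≤ k/2^20`, `Jk_low` with `B = 2^20`: `C (6/2^20)^k`,
`k ≥ K1 - 1`, and `6/2^20 ≤ 2^(-17)`: `≤ C 2^(-17 (K1-1)) ≤ (1/100) 4096^(-K1) = (1/100) 2^(-12 K1)`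
for `K1 ≥ C3`. (2) `n > yhi`: `lam log n ≥ 128 K1 ≥ 64 k`, `Jk_high` with `B = 64`:
`C (192 e^(-32))^k`, `192 e^(-32) ≤ 2^(-38)`. (3) `xlo ≤ n ≤ yhi`: `(Λ - lp) Jk`, `W3_Jk` with
`x = xlo`: `C lam exp(-(K1-1)/(2^22 lam)) ≤ C exp(-(K1-1) 10^9/2^22) ≤ C exp(-200 (K1-1))`. -/
theorem D0_trunc : ∃ C3 : ℝ, 1 ≤ C3 ∧ ∀ (c : ℕ → ℂ), (∀ n, ‖c n‖ ≤ 2) → ∀ (lam v : ℝ)
    (k K1 : ℕ), 0 < lam → lam ≤ th0 → C3 ≤ K1 → K1 ≤ k + 1 → k + 1 < 2 * K1 →
    ‖(∑' n : ℕ, ((Λ n * Jk lam k n : ℝ) : ℂ) * c n * (n : ℂ) ^ (-(v * Complex.I))) -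
      PP c lam k K1 v‖ ≤ 1 / 8 * (1 / 4096) ^ K1 := by
  obtain ⟨A1, hA1, h1⟩ := Jk_low
  obtain ⟨A2, hA2, h2⟩ := Jk_high
  obtain ⟨A3, hA3, h3⟩ := W3_Jk
  refine ⟨(A1 + A2 + A3) * 2 ^ 21 + 2, by nlinarith, fun c hc lam v k K1 hlam hlam1 hK hk1 hk2 => ?_⟩
  have hth : th0 ≤ 1 := by unfold th0; norm_num
  have hl1 : lam ≤ 1 := hlam1.trans hth
  have hK2 : (2 : ℝ) ≤ K1 := by nlinarith
  have hK2' : 2 ≤ K1 := by exact_mod_cast hK2
  have hkr : (K1 : ℝ) - 1 ≤ k := by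
    have : (K1 : ℝ) ≤ k + 1 := by exact_mod_cast hk1
    linarith
  have hkr2 : (k : ℝ) ≤ 2 * K1 := by exact_mod_cast (by omega : k ≤ 2 * K1)
  obtain ⟨F, hF⟩ : ∃ F : ℕ → ℂ, F = fun n => ((Λ n * Jk lam k n : ℝ) : ℂ) * c n * (n : ℂ) ^ (-(v * Complex.I)) := ⟨_, rfl⟩
  obtain ⟨P, hP⟩ : ∃ P, P = PI (xlo K1 lam) (yhi K1 lam) := ⟨_, rfl⟩
  classical
  obtain ⟨G, hG⟩ : ∃ G : ℕ → ℂ, G = fun n => if n ∈ P then ((Real.log n * Jk lam k n : ℝ) : ℂ) * c n * (n : ℂ) ^ (-(v * Complex.I)) else 0 := ⟨_, rfl⟩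
  obtain ⟨E, hE⟩ : ∃ E : ℕ → ℝ, E = fun n => (Λ n - if n ∈ P then Real.log n else 0) * Jk lam k n := ⟨_, rfl⟩
  have hPpr : ∀ n ∈ P, n.Prime := by
    intro n hn
    rw [hP, PI, Finset.mem_filter] at hn
    exact hn.2
  have hJ : ∀ n, 0 ≤ Jk lam k n := fun n => Jk_nonneg lam k n hlam.le
  have hE0 : ∀ n, 0 ≤ E n := by
    intro n
    rw [hE]
    refine mul_nonneg ?_ (hJ n)
    split_ifs with h
    · rw [vonMangoldt_apply_prime (hPpr n h)]
      exact sub_nonneg.2 le_rfl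
    · rw [sub_zero]; exact vonMangoldt_nonneg
  have hEle : ∀ n, E n ≤ Λ n * Jk lam k n := by
    intro n
    rw [hE]
    refine mul_le_mul_of_nonneg_right ?_ (hJ n)
    split_ifs with h
    · exact sub_le_self _ (Real.log_natCast_nonneg n)
    · rw [sub_zero]
  have hEsum : Summable E := Summable.of_nonneg_of_le hE0 hEle (Jk_summable lam k hlam hl1)
  have hPP : PP c lam k K1 v = ∑' n, G n := by
    rw [tsum_eq_sum (s := P) (fun n hn => by rw [hG]; exact if_neg hn), PP, ← hP]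
    refine Finset.sum_congr rfl fun n hn => ?_
    rw [hG]
    exact (if_pos hn).symm
  have hGs : Summable G := summable_of_ne_finset_zero (s := P) (fun n hn => by rw [hG]; exact if_neg hn)
  have hFn : ∀ n, ‖F n‖ ≤ 2 * (Λ n * Jk lam k n) := by
    intro n
    rw [hF]
    by_cases hn : n = 0
    · subst hn
      simp
    · simp only [norm_mul, Complex.norm_real, d0_norm n (Nat.pos_of_ne_zero hn) v, mul_one, Real.norm_eq_abs]
      rw [abs_of_nonneg vonMangoldt_nonneg, abs_of_nonneg (hJ n)]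
      have h4 := hc n
      have h5 : 0 ≤ Λ n * Jk lam k n := mul_nonneg vonMangoldt_nonneg (hJ n)
      nlinarith
  have hFs : Summable F := Summable.of_norm_bounded ((Jk_summable lam k hlam hl1).mul_left 2) hFn
  have hdiff : ∀ n, ‖F n - G n‖ ≤ 2 * E n := by
    intro n
    have h4 : F n - G n = ((E n : ℝ) : ℂ) * c n * (n : ℂ) ^ (-(v * Complex.I)) := by
      rw [hF, hG, hE]
      simp only []
      split_ifs with h
      · push_cast; ring
      · push_cast; ring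
    rw [h4]
    by_cases hn : n = 0
    · subst hn
      have h5 : E 0 = 0 := by
        rw [hE]
        simp only []
        rw [if_neg (fun h => Nat.not_prime_zero (hPpr 0 h)), ArithmeticFunction.map_zero]
        ring
      rw [h5]
      simp
    · rw [norm_mul, norm_mul, d0_norm n (Nat.pos_of_ne_zero hn) v, mul_one, Complex.norm_real, Real.norm_eq_abs,
        abs_of_nonneg (hE0 n)]
      have h5 := hc n
      have h6 := hE0 n
      nlinarith
  have hxlo : 1 ≤ xlo K1 lam := by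
    unfold xlo
    apply Real.one_le_exp
    exact div_nonneg (by linarith) (by positivity)
  have hnum1 : ∀ C r : ℝ, 0 < C → 0 ≤ r → r ≤ (1 / 2) ^ 17 → C * r ^ k ≤ C * ((1 / 2) ^ 17) ^ (K1 - 1) := by
    intro C r hC hr hr2
    refine mul_le_mul_of_nonneg_left ?_ hC.le
    exact (pow_le_pow_left₀ hr hr2 k).trans
      (pow_le_pow_of_le_one (by positivity) (by norm_num) (by omega))
  have hfin : ∀ s : Finset ℕ, ∑ n ∈ s, E n ≤ (A1 + A2 + A3) * ((1 / 2) ^ 17) ^ (K1 - 1) := by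
    intro s
    obtain ⟨s1, hs1⟩ : ∃ s1, s1 = s.filter (fun n : ℕ => (n : ℝ) < xlo K1 lam) := ⟨_, rfl⟩
    obtain ⟨t, ht⟩ : ∃ t, t = s.filter (fun n : ℕ => ¬ (n : ℝ) < xlo K1 lam) := ⟨_, rfl⟩
    obtain ⟨s2, hs2⟩ : ∃ s2, s2 = t.filter (fun n : ℕ => yhi K1 lam < (n : ℝ)) := ⟨_, rfl⟩
    obtain ⟨s3, hs3⟩ : ∃ s3, s3 = t.filter (fun n : ℕ => ¬ yhi K1 lam < (n : ℝ)) := ⟨_, rfl⟩
    have hsplit : ∑ n ∈ s, E n = ∑ n ∈ s1, E n + (∑ n ∈ s2, E n + ∑ n ∈ s3, E n) := by
      rw [hs2, hs3, Finset.sum_filter_add_sum_filter_not, hs1, ht, Finset.sum_filter_add_sum_filter_not]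
    have hb1 : ∑ n ∈ s1, E n ≤ A1 * ((1 / 2) ^ 17) ^ (K1 - 1) := by
      refine (Finset.sum_le_sum fun n _ => hEle n).trans ?_
      refine (h1 lam (2 ^ 20) k s1 hlam hl1 (by norm_num) fun n hn => ?_).trans
        (hnum1 A1 _ hA1 (by positivity) (by norm_num))
      rw [hs1, Finset.mem_filter] at hn
      by_cases hn0 : n = 0
      · subst hn0
        simp only [Nat.cast_zero, Real.log_zero, mul_zero]
        positivity
      · have hnr : (0 : ℝ) < n := by exact_mod_cast Nat.pos_of_ne_zero hn0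
        have h4 := Real.log_lt_log hnr hn.2
        unfold xlo at h4
        rw [Real.log_exp, lt_div_iff₀ (by positivity)] at h4
        rw [le_div_iff₀ (by positivity)]
        linarith
    have hb2 : ∑ n ∈ s2, E n ≤ A2 * ((1 / 2) ^ 17) ^ (K1 - 1) := by
      refine (Finset.sum_le_sum fun n _ => hEle n).trans ?_
      have he : Real.exp (-(64 / 2)) ≤ (1 / 2) ^ 32 := by
        have h5 : (2 : ℝ) ≤ Real.exp 1 := by
          have := Real.add_one_le_exp (1 : ℝ)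
          linarith
        have h6 : Real.exp (-(64 / 2)) = (Real.exp 1)⁻¹ ^ 32 := by
          rw [← Real.exp_neg, ← Real.exp_nat_mul]
          congr 1
          norm_num
        rw [h6]
        refine pow_le_pow_left₀ (by positivity) ?_ 32
        rw [inv_eq_one_div]
        exact one_div_le_one_div_of_le (by norm_num) h5
      refine (h2 lam 64 k s2 hlam hl1 (by norm_num) fun n hn => ?_).trans
        (hnum1 A2 _ hA2 (by positivity) ?_)
      · rw [hs2, ht, Finset.mem_filter, Finset.mem_filter, not_lt] at hn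
        have hnr : (1 : ℝ) ≤ n := hxlo.trans hn.1.2
        refine ⟨by exact_mod_cast hnr, ?_⟩
        have h4 := Real.log_lt_log (by unfold yhi; positivity) hn.2
        unfold yhi at h4
        rw [Real.log_exp, div_lt_iff₀ hlam] at h4
        linarith
      · calc 3 * 64 * Real.exp (-(64 / 2)) ≤ 3 * 64 * (1 / 2) ^ 32 :=
              mul_le_mul_of_nonneg_left he (by norm_num)
          _ ≤ (1 / 2) ^ 17 := by norm_num
    have hb3 : ∑ n ∈ s3, E n ≤ A3 * ((1 / 2) ^ 17) ^ (K1 - 1) := by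
      have h4 : ∀ n ∈ s3, E n = (Λ n - lp n) * Jk lam k n := by
        intro n hn
        rw [hs3, ht, Finset.mem_filter, Finset.mem_filter, not_lt, not_lt] at hn
        rw [hE]
        simp only []
        congr 2
        by_cases hpn : n.Prime
        · rw [if_pos]
          · unfold H68T.lp
            rw [if_pos (by simpa using hpn)]
            simp
          · rw [hP, PI, Finset.mem_filter, Finset.mem_Icc]
            refine ⟨⟨Nat.ceil_le.2 hn.1.2, Nat.le_floor hn.2⟩, hpn⟩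
        · rw [if_neg (fun h => hpn (hPpr n h))]
          unfold H68T.lp
          rw [if_neg (by simpa using hpn)]
      rw [Finset.sum_congr rfl h4]
      refine (h3 lam (xlo K1 lam) k s3 hlam hxlo fun n hn => ?_).trans ?_
      · rw [hs3, ht, Finset.mem_filter, Finset.mem_filter, not_lt] at hn
        exact hn.1.2
      · have h5 : xlo K1 lam ^ (-(1 / 4) : ℝ) ≤ ((1 / 2) ^ 17) ^ (K1 - 1) := by
          unfold xlo
          rw [← Real.exp_mul]
          have h6 : Real.exp (-17) ≤ (1 / 2) ^ 17 := by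
            have h7 : (2 : ℝ) ≤ Real.exp 1 := by
              have := Real.add_one_le_exp (1 : ℝ)
              linarith
            have h8 : Real.exp (-17) = (Real.exp 1)⁻¹ ^ 17 := by
              rw [← Real.exp_neg, ← Real.exp_nat_mul]
              congr 1
              norm_num
            rw [h8]
            refine pow_le_pow_left₀ (by positivity) ?_ 17
            rw [inv_eq_one_div]
            exact one_div_le_one_div_of_le (by norm_num) h7
          refine le_trans ?_ (pow_le_pow_left₀ (Real.exp_pos _).le h6 (K1 - 1))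
          rw [← Real.exp_nat_mul]
          apply Real.exp_le_exp.2
          rw [Nat.cast_sub (by omega), Nat.cast_one]
          have h9 : (17 : ℝ) ≤ 1 / (2 ^ 22 * lam) := by
            rw [le_div_iff₀ (by positivity)]
            unfold th0 at hlam1
            calc 17 * (2 ^ 22 * lam) ≤ 17 * (2 ^ 22 * (1 / 10 ^ 9)) := by
                  have : (0 : ℝ) < 17 * 2 ^ 22 := by norm_num
                  nlinarith
              _ ≤ 1 := by norm_num
          have h10 : ((K1 : ℝ) - 1) / (2 ^ 20 * lam) * -(1 / 4) = -((K1 - 1) * (1 / (2 ^ 22 * lam))) := by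
            field_simp
            ring
          rw [h10]
          have h11 : (0 : ℝ) ≤ (K1 : ℝ) - 1 := by linarith
          nlinarith
        have h12 : A3 * lam ≤ A3 := by nlinarith
        exact mul_le_mul h12 h5 (by positivity) hA3.le
    rw [hsplit]
    nlinarith
  have htE : ∑' n, E n ≤ (A1 + A2 + A3) * ((1 / 2) ^ 17) ^ (K1 - 1) :=
    hEsum.tsum_le_of_sum_le hfin
  rw [hPP]
  have hFeq : (∑' n : ℕ, ((Λ n * Jk lam k n : ℝ) : ℂ) * c n * (n : ℂ) ^ (-(v * Complex.I))) = ∑' n, F n := by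
    rw [hF]
  rw [hFeq, ← hFs.tsum_sub hGs]
  have hns : Summable fun n => ‖F n - G n‖ := (hFs.sub hGs).norm
  refine (norm_tsum_le_tsum_norm hns).trans ?_
  refine (hns.tsum_le_tsum hdiff (hEsum.mul_left 2)).trans ?_
  rw [tsum_mul_left]
  refine (mul_le_mul_of_nonneg_left htE (by norm_num)).trans ?_
  obtain ⟨m, hm⟩ : ∃ m, K1 = m + 1 := ⟨K1 - 1, by omega⟩
  have hKm : K1 - 1 = m := by omega
  rw [hKm]
  have h4 : (K1 : ℝ) ≤ 2 ^ (5 * m) := by
    have h5 : K1 ≤ 2 ^ (5 * m) := by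
      have h6 : m < 2 ^ m := Nat.lt_two_pow_self
      have h7 : 2 ^ m ≤ 2 ^ (5 * m) := Nat.pow_le_pow_right (by norm_num) (by omega)
      omega
    exact_mod_cast h5
  have h5 : ((1 / 2 : ℝ) ^ 17) ^ m * 2 ^ (5 * m) = (1 / 4096) ^ m := by
    rw [pow_mul, ← mul_pow]
    congr 1
    norm_num
  have h6 : (0 : ℝ) < ((1 / 2) ^ 17) ^ m := by positivity
  rw [hm, pow_succ (1 / 4096 : ℝ) m, ← h5]
  have h7 : (A1 + A2 + A3) * 2 ^ 21 ≤ 2 ^ (5 * m) := by
    have : (A1 + A2 + A3) * 2 ^ 21 + 2 ≤ 2 ^ (5 * m) := hK.trans h4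
    linarith
  nlinarith

end Pool.Agent.Lib.H18Q
end
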