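import Pool.Agent.Lib.H1M.RV.M002
import Pool.Agent.Lib.H1M.RV.M029
import Pool.Agent.Lib.H1M.RV.M031
import Pool.Agent.Lib.H1M.RV.M038
import Pool.Agent.Lib.H1M.RV.M041
import Pool.Agent.Lib.H1M.RV.M042

/-! Merged copies (to shorten the build) of Lib.H18Q.D1, Lib.H18Q.S1, Lib.H18Q.S3, Lib.H18Q.S5, Lib.H18Q.ZN. -/

-- from Lib.H18Q.D1
section

/-!
# Project H18Q, chunk D1: a zero of a primitive L-function makes a sum over primes large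
-/

open Finset

namespace Pool.Agent.Lib.H18Q

open ArithmeticFunction Pool.Agent.Lib.H68T

/-! ### Auxiliary facts -/

theorem D1_analytic (s₀ : ℂ) (h : 1 < s₀.re) :
    AnalyticAt ℂ (LSeries (fun n => (Λ n : ℂ))) s₀ := by
  apply LSeries_analyticOnNhd (fun n => (Λ n : ℂ)) s₀
  have h1 : LSeries.abscissaOfAbsConv (fun n => (Λ n : ℂ)) ≤ (1 : ℝ) := by
    apply LSeries.abscissaOfAbsConv_le_of_forall_lt_LSeriesSummable
    intro y hy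
    apply ArithmeticFunction.LSeriesSummable_vonMangoldt
    simpa using hy
  have h2 : ((1 : ℝ) : EReal) < (s₀.re : EReal) := by exact_mod_cast h
  exact lt_of_le_of_lt h1 h2

theorem D1_inv (k : ℕ) (s₀ : ℂ) :
    iteratedDeriv k (fun s : ℂ => 1 / (s - 1)) s₀ =
      (-1) ^ k * (k.factorial : ℂ) * (1 / (s₀ - 1) ^ (k + 1)) := by
  have h1 : (fun s : ℂ => 1 / (s - 1)) = (fun s : ℂ => (1 * s - 1)⁻¹) := by
    funext s
    rw [one_mul, one_div]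
  rw [h1, iteratedDeriv_eq_iterate, iter_deriv_inv_linear_sub k 1 1]
  have h2 : (-1 - k : ℤ) = -((k + 1 : ℕ) : ℤ) := by push_cast; ring
  simp only [one_pow, mul_one, one_mul]
  rw [h2, zpow_neg, zpow_natCast, one_div]

theorem D1_near (s₀ : ℂ) (h : 1 < s₀.re) : ∀ᶠ s in nhds s₀, 1 < s.re :=
  (isOpen_lt continuous_const Complex.continuous_re).mem_nhds h

theorem D1_re (lam v : ℝ) (hlam : 0 < lam) :
    1 < ((1 : ℂ) + (lam : ℂ) + (v : ℂ) * Complex.I).re := by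
  simp [hlam]

/-- The logarithmic derivative of `Lp p` and the series of `Λ χ`, near `s₀ = 1 + lam + i v`: for
`p ≠ p0` it is `-LSeries (Λ χ)`; for `p = p0` it is `1/(s-1) - LSeries Λ`
(`lab1_char`, `lab1_Z`; on the open half plane `Re s > 1`, so the iterated derivatives agree:
`Filter.EventuallyEq.iteratedDeriv_eq`). With `D0_series` (`c n = p.2 n`, `‖c n‖ ≤ 1`) the
quantity of `detect` is, up to sign, the series over `n`, plus for `p0` the term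
`(-1)^k (lam/(lam + i v))^(k+1)` (`iteratedDeriv k (1/(s-1)) = (-1)^k k!/(s-1)^(k+1)`). -/
theorem D1_series (Q : ℕ) (p : Σ r : ℕ, DirichletCharacter ℂ r) (hp : p ∈ PC Q) (lam : ℝ)
    (hlam : 0 < lam) (k : ℕ) (v : ℝ) :
    ‖(lam : ℂ) ^ (k + 1) * (iteratedDeriv k (logDeriv (Lp p)) (1 + lam + v * Complex.I) /
      (k.factorial : ℂ))‖ ≤
    ‖∑' n : ℕ, ((Λ n * Jk lam k n : ℝ) : ℂ) * p.2 (n : ZMod p.1) *
      (n : ℂ) ^ (-(v * Complex.I))‖ +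
      (open Classical in if p = p0 then ‖(lam : ℂ) / (lam + v * Complex.I)‖ ^ (k + 1) else 0) := by
  classical
  have hre := D1_re lam v hlam
  have hc : ∀ n : ℕ, ‖p.2 (n : ZMod p.1)‖ ≤ 2 := fun n =>
    (DirichletCharacter.norm_le_one p.2 _).trans (by norm_num)
  have hser := D0_series (fun n => p.2 (n : ZMod p.1)) hc lam hlam k v
  have hnser : ‖(lam : ℂ) ^ (k + 1) * (iteratedDeriv k (LSeries (fun n => (Λ n : ℂ) *
      p.2 (n : ZMod p.1))) (1 + lam + v * Complex.I) / (k.factorial : ℂ))‖ =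
      ‖∑' n : ℕ, ((Λ n * Jk lam k n : ℝ) : ℂ) * p.2 (n : ZMod p.1) *
        (n : ℂ) ^ (-(v * Complex.I))‖ := by
    rw [hser, norm_mul, norm_pow, norm_neg, norm_one, one_pow, one_mul]
  by_cases hp0 : p = p0
  · subst hp0
    rw [if_pos rfl, Lp_p0]
    have hfun : (fun n : ℕ => (Λ n : ℂ) * (p0.2 (n : ZMod p0.1) : ℂ)) =
        fun n : ℕ => (Λ n : ℂ) := by
      funext n
      have h1 : (p0.2 : DirichletCharacter ℂ p0.1) (n : ZMod p0.1) = 1 := by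
        have h2 : (n : ZMod p0.1) = 1 := by
          have : Subsingleton (ZMod p0.1) := by
            change Subsingleton (ZMod 1)
            infer_instance
          exact Subsingleton.elim _ _
        rw [h2, map_one]
      rw [h1, mul_one]
    rw [hfun] at hnser
    have hev : logDeriv gl2_Z =ᶠ[nhds ((1 : ℂ) + lam + v * Complex.I)]
        fun s => 1 / (s - 1) - LSeries (fun n => (Λ n : ℂ)) s := by
      filter_upwards [D1_near _ hre] with s hs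
      rw [lab1_Z s hs]
      ring
    have hd := (hev.iteratedDeriv k).eq_of_nhds
    have hne : ((1 : ℂ) + lam + v * Complex.I) - 1 ≠ 0 := by
      intro h0
      have := congrArg Complex.re h0
      simp at this
      exact hlam.ne' this
    have hA1 : ContDiffAt ℂ k (fun s : ℂ => 1 / (s - 1)) ((1 : ℂ) + lam + v * Complex.I) := by
      apply ContDiffAt.div contDiffAt_const
      · exact contDiffAt_id.sub contDiffAt_const
      · exact hne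
    have hA2 : ContDiffAt ℂ k (LSeries (fun n => (Λ n : ℂ)))
        ((1 : ℂ) + lam + v * Complex.I) := (D1_analytic _ hre).contDiffAt
    rw [hd, iteratedDeriv_fun_sub hA1 hA2, D1_inv, sub_div, mul_sub]
    have hk : (k.factorial : ℂ) ≠ 0 := by exact_mod_cast k.factorial_ne_zero
    have h3 : (lam : ℂ) ^ (k + 1) * ((-1) ^ k * (k.factorial : ℂ) *
        (1 / ((1 : ℂ) + lam + v * Complex.I - 1) ^ (k + 1)) / (k.factorial : ℂ)) =
        (-1) ^ k * ((lam : ℂ) / (lam + v * Complex.I)) ^ (k + 1) := by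
      have h4 : (1 : ℂ) + lam + v * Complex.I - 1 = lam + v * Complex.I := by ring
      rw [h4] at hne ⊢
      rw [div_pow]
      field_simp
    rw [h3]
    refine (norm_sub_le _ _).trans ?_
    rw [hnser, norm_mul, norm_pow, norm_neg, norm_one, one_pow, one_mul, norm_pow]
    linarith
  · rw [if_neg hp0, add_zero]
    obtain ⟨hN, hL⟩ := Lp_mem hp hp0
    have hev : logDeriv (Lp p) =ᶠ[nhds ((1 : ℂ) + lam + v * Complex.I)]
        fun s => -LSeries (fun n => (Λ n : ℂ) * p.2 (n : ZMod p.1)) s := by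
      filter_upwards [D1_near _ hre] with s hs
      rw [lab1_char p.1 p.2 s hs, hL]
      ring
    have hd := (hev.iteratedDeriv k).eq_of_nhds
    rw [hd, iteratedDeriv_fun_neg, neg_div, mul_neg, norm_neg, hnser]

/-- Detection by primes. Proof: `LDat_Lp` and `detect` (`C3` of `detect` for the `C0` of
`LDat_Lp`, `ℓ = log Q`, `T = Q^10`), with `e = k + 1` (`e ≥ K1 ≥ 1`); `D1_series`, `D0_trunc`; for
`p = p0`, `|v| ≥ 1/2`: `‖lam/(lam + iv)‖^(k+1) ≤ (2 lam)^(K1) ≤ (2 th0)^K1 ≤ (1/8) 4096^(-K1)`.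
`1/2 - 1/8 - 1/8 = 1/4`. -/
theorem detect_primes : ∃ C3 K : ℝ, 1 ≤ C3 ∧ ∀ Q : ℕ, K ≤ Q → ∀ p ∈ PC Q, ∀ κ v : ℝ, 1 ≤ κ →
    κ ≤ th0 * Real.log Q → |v| ≤ (Q : ℝ) ^ 9 → (p = p0 → 1 / 2 ≤ |v|) → ∀ K1 : ℕ,
    C3 * κ ≤ K1 →
    (∃ ρ : ℂ, Lp p ρ = 0 ∧ 1 - κ / Real.log Q ≤ ρ.re ∧ |ρ.im - v| ≤ κ / Real.log Q) →
    ∃ k : ℕ, K1 ≤ k + 1 ∧ k + 1 < 2 * K1 ∧ 1 / 4 * (1 / 4096 : ℝ) ^ K1 ≤
      ‖PP (fun n => p.2 (n : ZMod p.1)) (κ / Real.log Q) k K1 v‖ := by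
  classical
  obtain ⟨C0, K, hC0, hL⟩ := LDat_Lp
  obtain ⟨C3, hC3, hdet⟩ := detect C0 hC0
  obtain ⟨C3', hC3', htr⟩ := D0_trunc
  refine ⟨max C3 C3', K, hC3.trans (le_max_left _ _), ?_⟩
  intro Q hQ p hp κ v hκ hκ2 hv hp0v K1 hK1 hρ
  have hth : (0 : ℝ) < th0 := by unfold th0; positivity
  have hlog : 0 < Real.log Q := by
    by_contra hcon
    push Not at hcon
    have : th0 * Real.log Q ≤ 0 := mul_nonpos_of_nonneg_of_nonpos hth.le hcon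
    linarith
  have hQ1 : (1 : ℝ) ≤ Q := by
    by_contra hcon
    push Not at hcon
    have h0 : Real.log (Q : ℝ) ≤ 0 := Real.log_nonpos (Nat.cast_nonneg Q) hcon.le
    linarith
  have hlam : 0 < κ / Real.log Q := by positivity
  have hlamth : κ / Real.log Q ≤ th0 := by
    rw [div_le_iff₀ hlog]
    exact hκ2
  have hv10 : |v| ≤ (Q : ℝ) ^ 10 :=
    hv.trans (pow_le_pow_right₀ hQ1 (by norm_num))
  have hκ0 : 0 < κ := by linarith
  have hK1a : C3 * κ ≤ K1 := (mul_le_mul_of_nonneg_right (le_max_left _ _) hκ0.le).trans hK1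
  have hK1b : C3' * κ ≤ K1 := (mul_le_mul_of_nonneg_right (le_max_right _ _) hκ0.le).trans hK1
  have hK1c : C3' ≤ K1 := by
    refine le_trans ?_ hK1b
    nlinarith
  have hK1d : 1 ≤ K1 := by
    have : (1 : ℝ) ≤ K1 := hC3'.trans hK1c
    exact_mod_cast this
  obtain ⟨e, he1, he2, he3⟩ := hdet (Real.log Q) ((Q : ℝ) ^ 10) (Lp p) (hL Q hQ p hp) κ v hκ hκ2
    hv10 K1 hK1a hρ
  obtain ⟨k, rfl⟩ : ∃ k, e = k + 1 := ⟨e - 1, by omega⟩
  refine ⟨k, he1, he2, ?_⟩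
  rw [Nat.add_sub_cancel] at he3
  have hser := D1_series Q p hp (κ / Real.log Q) hlam k v
  have htr2 := htr (fun n => p.2 (n : ZMod p.1)) (fun n =>
    (DirichletCharacter.norm_le_one p.2 _).trans (by norm_num)) (κ / Real.log Q) v k K1 hlam
    hlamth hK1c he1 he2
  have h4096 : (0 : ℝ) < (1 / 4096 : ℝ) ^ K1 := by positivity
  have hterm : (if p = p0 then ‖((κ / Real.log Q : ℝ) : ℂ) /
      (((κ / Real.log Q : ℝ) : ℂ) + v * Complex.I)‖ ^ (k + 1) else 0) ≤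
      1 / 8 * (1 / 4096 : ℝ) ^ K1 := by
    split_ifs with hp0
    · have hv2 := hp0v hp0
      set lam := κ / Real.log Q with hlamdef
      have h1 : ‖(lam : ℂ) / ((lam : ℂ) + v * Complex.I)‖ ≤ 2 * th0 := by
        rw [norm_div, Complex.norm_real, Real.norm_of_nonneg hlam.le]
        have h2 : |v| ≤ ‖(lam : ℂ) + v * Complex.I‖ := by
          have := Complex.abs_im_le_norm ((lam : ℂ) + v * Complex.I)
          simpa using this
        have h3 : 1 / 2 ≤ ‖(lam : ℂ) + v * Complex.I‖ := hv2.trans h2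
        rw [div_le_iff₀ (by linarith)]
        nlinarith
      have h2 : ‖(lam : ℂ) / ((lam : ℂ) + v * Complex.I)‖ ^ (k + 1) ≤ (2 * th0) ^ (k + 1) :=
        pow_le_pow_left₀ (norm_nonneg _) h1 _
      have h3 : (2 * th0) ^ (k + 1) ≤ (2 * th0) ^ K1 :=
        pow_le_pow_of_le_one (by positivity) (by unfold th0; norm_num) he1
      have h4 : (2 * th0) ^ K1 = (2 * th0 * 4096) ^ K1 * (1 / 4096) ^ K1 := by
        rw [← mul_pow]
        congr 1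
        ring
      have h5 : (2 * th0 * 4096) ^ K1 ≤ (2 * th0 * 4096) ^ 1 :=
        pow_le_pow_of_le_one (by positivity) (by unfold th0; norm_num) hK1d
      have h6 : (2 * th0 * 4096) ^ 1 ≤ 1 / 8 := by
        unfold th0
        norm_num
      calc _ ≤ (2 * th0) ^ K1 := h2.trans h3
        _ = (2 * th0 * 4096) ^ K1 * (1 / 4096) ^ K1 := h4
        _ ≤ _ := mul_le_mul_of_nonneg_right (h5.trans h6) h4096.le
    · positivity
  have hA : 1 / 2 * (1 / 4096 : ℝ) ^ K1 ≤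
      ‖∑' n : ℕ, ((Λ n * Jk (κ / Real.log Q) k n : ℝ) : ℂ) * p.2 (n : ZMod p.1) *
        (n : ℂ) ^ (-(v * Complex.I))‖ + 1 / 8 * (1 / 4096 : ℝ) ^ K1 := by
    refine (he3.trans hser).trans ?_
    exact add_le_add le_rfl hterm
  have hB := norm_sub_norm_le (∑' n : ℕ, ((Λ n * Jk (κ / Real.log Q) k n : ℝ) : ℂ) *
    p.2 (n : ZMod p.1) * (n : ℂ) ^ (-(v * Complex.I)))
    (PP (fun n => p.2 (n : ZMod p.1)) (κ / Real.log Q) k K1 v)
  have hC := hB.trans htr2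
  linarith

end Pool.Agent.Lib.H18Q
end

-- from Lib.H18Q.S1
section

/-!
# Project H18Q, chunk S1: the sieve majorant twisted by a product of two primitive characters

`G z n = ∑_{q ≤ z} μ(q)/φ(q) c_q(n)` (defined in `H68T/Defs`).
-/

open Finset

namespace Pool.Agent.Lib.H18Q

open Pool.Agent.Lib.H68T

theorem s1_ne (r r' : ℕ) [NeZero r] [NeZero r'] (χ : DirichletCharacter ℂ r)
    (χ' : DirichletCharacter ℂ r') (hp : χ.IsPrimitive) (hp' : χ'.IsPrimitive)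
    (hne : (⟨r, χ⟩ : Σ r : ℕ, DirichletCharacter ℂ r) ≠ ⟨r', χ'⟩) :
    (DirichletCharacter.changeLevel (Dvd.intro r' rfl) χ *
      DirichletCharacter.changeLevel (Dvd.intro_left r rfl) χ'⁻¹ :
        DirichletCharacter ℂ (r * r')) ≠ 1 := by
  intro h
  have hN : NeZero (r * r') := inferInstance
  have heq : DirichletCharacter.changeLevel (Dvd.intro r' rfl) χ =
      DirichletCharacter.changeLevel (Dvd.intro_left r rfl) χ' := by
    rw [map_inv, mul_inv_eq_one] at h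
    exact h
  have hc₁ : (DirichletCharacter.changeLevel (Dvd.intro r' rfl : r ∣ r * r') χ).conductor = r := by
    rw [DirichletCharacter.conductor_changeLevel]
    exact hp
  have hc₂ : (DirichletCharacter.changeLevel (Dvd.intro_left r rfl : r' ∣ r * r') χ').conductor =
      r' := by
    rw [DirichletCharacter.conductor_changeLevel]
    exact hp'
  have hr : r = r' := by
    rw [← hc₁, heq, hc₂]
  subst hr
  apply hne
  have hinj := DirichletCharacter.changeLevel_injective (R := ℂ)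
    (Dvd.intro r rfl : r ∣ r * r)
  have : χ = χ' := hinj heq
  rw [this]

theorem s1_conj {r : ℕ} (χ : DirichletCharacter ℂ r) (a : ZMod r) :
    (starRingEnd ℂ) (χ a) = χ⁻¹ a := MulChar.star_apply' χ a

theorem s1_reindex (M N D : ℕ) (hD : 1 ≤ D) (f : ℕ → ℂ) :
    ∑ n ∈ (Ioc M (M + N)).filter (fun n => D ∣ n), f n =
      ∑ m ∈ Ioc (M / D) ((M + N) / D), f (D * m) := by
  symm
  apply Finset.sum_bij (fun m _ => D * m)
  · intro m hm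
    rw [mem_Ioc, Nat.div_lt_iff_lt_mul (by omega), Nat.le_div_iff_mul_le (by omega)] at hm
    rw [mem_filter, mem_Ioc, mul_comm D m]
    exact ⟨hm, Dvd.intro_left m rfl⟩
  · intro a _ b _ h
    exact Nat.eq_of_mul_eq_mul_left (by omega) h
  · intro n hn
    rw [mem_filter, mem_Ioc] at hn
    obtain ⟨hn1, m, rfl⟩ := hn
    refine ⟨m, ?_, rfl⟩
    rw [mem_Ioc, Nat.div_lt_iff_lt_mul (by omega), Nat.le_div_iff_mul_le (by omega), mul_comm m D]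
    exact hn1
  · intro m _
    rfl

/-- `χ conj χ'` is a non-principal character modulo `r r'` for different primitive characters, so
its sums over intervals, and over the multiples of `D` in an interval, are at most `r r' ≤ Q²`.

Proof. `changeLevel` of `χ` and of `χ'` to level `r r'` differ (`KER_sigma_eq` in `H68T/KER` shows
that equal lifts of primitive characters have, with equal conductors, equal pairs; the conductor of
a lift is the conductor, `DirichletCharacter.changeLevel...`/`conductor` lemmas used in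
`H68T/KER`), so `χ χ'⁻¹` at level `r r'` is not `1` and its values are `χ(n) conj χ'(n)`. For
`D ∣ n`, `n = D m`: the sum is `χ χ'^bar(D)` times a sum over consecutive `m`; the sum over `r r'`
consecutive `m` vanishes (`gl1_period`, or `XRH_Ioc` in `H68X/XRH`: `‖∑_{d ∈ Ioc a b} ψ d‖ ≤ r`
for `ψ ≠ 1` modulo `r`). The multiples of `D ≥ 1` in `(M, M+N]` are `D m`, `m ∈ Ioc (M/D)
((M+N)/D)`. -/
theorem S1_mult (Q : ℕ) (p p' : Σ r : ℕ, DirichletCharacter ℂ r) (hp : p ∈ PC Q)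
    (hp' : p' ∈ PC Q) (hne : p ≠ p') (M N D : ℕ) (hD : 1 ≤ D) :
    ‖∑ n ∈ (Ioc M (M + N)).filter (fun n => D ∣ n), p.2 (n : ZMod p.1) *
      (starRingEnd ℂ) (p'.2 (n : ZMod p'.1))‖ ≤ (Q : ℝ) ^ 2 := by
  obtain ⟨r, χ⟩ := p
  obtain ⟨r', χ'⟩ := p'
  have h1 := mem_PC.mp hp
  have h2 := mem_PC.mp hp'
  simp only at h1 h2
  have : NeZero r := ⟨by omega⟩
  have : NeZero r' := ⟨by omega⟩
  have hξ := s1_ne r r' χ χ' h1.2.2 h2.2.2 hne
  rw [s1_reindex M N D hD]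
  have e1 : ∑ m ∈ Ioc (M / D) ((M + N) / D), χ ((D * m : ℕ) : ZMod r) *
      (starRingEnd ℂ) (χ' ((D * m : ℕ) : ZMod r')) =
      (χ (D : ZMod r) * (starRingEnd ℂ) (χ' (D : ZMod r'))) *
      ∑ m ∈ Ioc (M / D) ((M + N) / D),
        (DirichletCharacter.changeLevel (Dvd.intro r' rfl) χ *
        DirichletCharacter.changeLevel (Dvd.intro_left r rfl) χ'⁻¹ :
        DirichletCharacter ℂ (r * r')) (m : ZMod (r * r')) := by
    rw [mul_sum]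
    refine sum_congr rfl fun m _ => ?_
    rw [DHF_val r r' χ χ'⁻¹ m, ← s1_conj]
    push_cast
    rw [map_mul, map_mul, map_mul]
    ring
  simp only
  rw [e1, norm_mul, norm_mul, RCLike.norm_conj]
  have h3 := XRH_Ioc (r * r') _ hξ (M / D) ((M + N) / D)
  have h4 : ‖χ (D : ZMod r)‖ * ‖χ' (D : ZMod r')‖ ≤ 1 :=
    mul_le_one₀ (DirichletCharacter.norm_le_one χ _) (norm_nonneg _)
      (DirichletCharacter.norm_le_one χ' _)
  have h5 : ((r * r' : ℕ) : ℝ) ≤ (Q : ℝ) ^ 2 := by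
    have : r * r' ≤ Q ^ 2 := by
      rw [pow_two]
      exact Nat.mul_le_mul h1.2.1 h2.2.1
    exact_mod_cast this
  calc _ ≤ 1 * ((r * r' : ℕ) : ℝ) :=
        mul_le_mul h4 h3 (norm_nonneg _) zero_le_one
    _ ≤ _ := by rw [one_mul]; exact h5

/-- `G z n = ∑_{d ≤ z, d ∣ n} g_d` with `|g_d| ≤ z²`: interchange the sums in the definitions of
`G` and `cq`, `g_d = d ∑_{q ≤ z, d ∣ q} μ(q) μ(q/d)/φ(q)`, `|g_d| ≤ d z ≤ z²`. -/
theorem S1_G (z : ℕ) : ∃ g : ℕ → ℝ, (∀ d, |g d| ≤ (z : ℝ) ^ 2) ∧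
    ∀ n : ℕ, G z n = ∑ d ∈ (Icc 1 z).filter (fun d => d ∣ n), g d := by
  refine ⟨fun d => ∑ q ∈ (Icc 1 z).filter (fun q => d ∣ q),
    (ArithmeticFunction.moebius q : ℝ) / (Nat.totient q : ℝ) *
      ((d : ℝ) * (ArithmeticFunction.moebius (q / d) : ℝ)), fun d => ?_, fun n => ?_⟩
  · refine (abs_sum_le_sum_abs _ _).trans ?_
    have h1 : ∀ q ∈ (Icc 1 z).filter (fun q => d ∣ q),
        |(ArithmeticFunction.moebius q : ℝ) / (Nat.totient q : ℝ) *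
      ((d : ℝ) * (ArithmeticFunction.moebius (q / d) : ℝ))| ≤ z := by
      intro q hq
      rw [mem_filter, mem_Icc] at hq
      have hdz : (d : ℝ) ≤ z := by
        have := Nat.le_of_dvd (by omega) hq.2
        exact_mod_cast this.trans hq.1.2
      have hμ : ∀ k : ℕ, |(ArithmeticFunction.moebius k : ℝ)| ≤ 1 := by
        intro k
        have := ArithmeticFunction.abs_moebius_le_one (n := k)
        exact_mod_cast this
      have hφ : (1 : ℝ) ≤ (Nat.totient q : ℝ) := by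
        exact_mod_cast Nat.totient_pos.mpr (by omega)
      rw [abs_mul, abs_mul, abs_div, abs_of_pos (by linarith : (0 : ℝ) < (Nat.totient q : ℝ)),
        abs_of_nonneg (Nat.cast_nonneg d : (0 : ℝ) ≤ (d : ℝ))]
      have h2 : |(ArithmeticFunction.moebius q : ℝ)| / (Nat.totient q : ℝ) ≤ 1 := by
        rw [div_le_one (by linarith)]
        exact (hμ q).trans hφ
      have h3 : (d : ℝ) * |(ArithmeticFunction.moebius (q / d) : ℝ)| ≤ z := by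
        calc _ ≤ (z : ℝ) * 1 := mul_le_mul hdz (hμ _) (abs_nonneg _) (Nat.cast_nonneg _)
          _ = z := mul_one _
      calc _ ≤ 1 * (z : ℝ) := mul_le_mul h2 h3 (by positivity) zero_le_one
        _ = z := one_mul _
    refine (sum_le_sum h1).trans ?_
    rw [sum_const, nsmul_eq_mul, pow_two]
    apply mul_le_mul_of_nonneg_right _ (Nat.cast_nonneg _)
    have := card_filter_le (Icc 1 z) (fun q => d ∣ q)
    rw [Nat.card_Icc, Nat.add_sub_cancel] at this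
    exact_mod_cast this
  · unfold G cq
    simp only [mul_sum]
    apply sum_comm'
    intro q d
    simp only [mem_filter, mem_Icc, Nat.mem_divisors, Int.natCast_dvd_natCast]
    constructor
    · rintro ⟨⟨h1, h2⟩, ⟨h3, h4⟩, h5⟩
      have h6 := Nat.le_of_dvd (by omega) h3
      have h7 := Nat.pos_of_dvd_of_pos h3 (by omega)
      exact ⟨⟨⟨h1, h2⟩, h3⟩, ⟨by omega, by omega⟩, h5⟩
    · rintro ⟨⟨⟨h1, h2⟩, h3⟩, ⟨_, _⟩, h5⟩
      exact ⟨⟨h1, h2⟩, ⟨h3, by omega⟩, h5⟩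

/-- Off-diagonal bound. Proof: expand `(G z n)²` by `S1_G` as a sum over pairs `d, d' ≤ z` with
`lcm d d' ∣ n` (`z²` pairs, coefficients at most `z^4`), and use `S1_mult`. -/
theorem S1_off (Q : ℕ) (p p' : Σ r : ℕ, DirichletCharacter ℂ r) (hp : p ∈ PC Q)
    (hp' : p' ∈ PC Q) (hne : p ≠ p') (M N z : ℕ) :
    ‖∑ n ∈ Ioc M (M + N), ((G z n ^ 2 : ℝ) : ℂ) * (p.2 (n : ZMod p.1) *
      (starRingEnd ℂ) (p'.2 (n : ZMod p'.1)))‖ ≤ (z : ℝ) ^ 6 * (Q : ℝ) ^ 2 := by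
  obtain ⟨g, hg, hG⟩ := S1_G z
  have e1 : ∀ n : ℕ, ((G z n ^ 2 : ℝ) : ℂ) = ∑ d ∈ Icc 1 z, ∑ d' ∈ Icc 1 z,
      if Nat.lcm d d' ∣ n then ((g d * g d' : ℝ) : ℂ) else 0 := by
    intro n
    rw [hG, sum_filter, pow_two, sum_mul_sum]
    push_cast
    refine sum_congr rfl fun d _ => sum_congr rfl fun d' _ => ?_
    by_cases h1 : d ∣ n
    · by_cases h2 : d' ∣ n
      · rw [if_pos h1, if_pos h2, if_pos (Nat.lcm_dvd h1 h2)]
      · rw [if_neg h2, if_neg (fun h => h2 ((Nat.dvd_lcm_right d d').trans h))]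
        simp
    · rw [if_neg h1, if_neg (fun h => h1 ((Nat.dvd_lcm_left d d').trans h))]
      simp
  have e2 : ∑ n ∈ Ioc M (M + N), ((G z n ^ 2 : ℝ) : ℂ) * (p.2 (n : ZMod p.1) *
      (starRingEnd ℂ) (p'.2 (n : ZMod p'.1))) =
      ∑ d ∈ Icc 1 z, ∑ d' ∈ Icc 1 z, ((g d * g d' : ℝ) : ℂ) *
        ∑ n ∈ (Ioc M (M + N)).filter (fun n => Nat.lcm d d' ∣ n), p.2 (n : ZMod p.1) *
          (starRingEnd ℂ) (p'.2 (n : ZMod p'.1)) := by
    simp only [e1, sum_mul, mul_sum, sum_filter]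
    rw [sum_comm]
    refine sum_congr rfl fun d _ => ?_
    rw [sum_comm]
    refine sum_congr rfl fun d' _ => sum_congr rfl fun n _ => ?_
    split_ifs <;> simp
  rw [e2]
  have hterm : ∀ d ∈ Icc 1 z, ∀ d' ∈ Icc 1 z, ‖((g d * g d' : ℝ) : ℂ) *
        ∑ n ∈ (Ioc M (M + N)).filter (fun n => Nat.lcm d d' ∣ n), p.2 (n : ZMod p.1) *
          (starRingEnd ℂ) (p'.2 (n : ZMod p'.1))‖ ≤ (z : ℝ) ^ 4 * (Q : ℝ) ^ 2 := by
    intro d hd d' hd'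
    rw [mem_Icc] at hd hd'
    rw [norm_mul, Complex.norm_real, Real.norm_eq_abs, abs_mul]
    have h1 : |g d| * |g d'| ≤ (z : ℝ) ^ 4 := by
      calc _ ≤ (z : ℝ) ^ 2 * (z : ℝ) ^ 2 :=
            mul_le_mul (hg d) (hg d') (abs_nonneg _) (by positivity)
        _ = _ := by ring
    have hl : 1 ≤ Nat.lcm d d' := Nat.lcm_pos (by omega) (by omega)
    exact mul_le_mul h1 (S1_mult Q p p' hp hp' hne M N _ hl) (norm_nonneg _) (by positivity)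
  calc _ ≤ ∑ d ∈ Icc 1 z, ‖∑ d' ∈ Icc 1 z, ((g d * g d' : ℝ) : ℂ) *
        ∑ n ∈ (Ioc M (M + N)).filter (fun n => Nat.lcm d d' ∣ n), p.2 (n : ZMod p.1) *
          (starRingEnd ℂ) (p'.2 (n : ZMod p'.1))‖ := norm_sum_le _ _
    _ ≤ ∑ d ∈ Icc 1 z, ∑ d' ∈ Icc 1 z, ((z : ℝ) ^ 4 * (Q : ℝ) ^ 2) := by
        refine sum_le_sum fun d hd => (norm_sum_le _ _).trans (sum_le_sum fun d' hd' => ?_)
        exact hterm d hd d' hd'
    _ = _ := by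
        simp only [sum_const, Nat.card_Icc, Nat.add_sub_cancel, nsmul_eq_mul]
        ring

end Pool.Agent.Lib.H18Q
end

-- from Lib.H18Q.S3
section

/-!
# Project H18Q, chunk S3: large sieve for primitive characters over primes in an interval
-/

open Finset

namespace Pool.Agent.Lib.H18Q

open Pool.Agent.Lib.H68T

/-- The dual inequality. Proof. For primes `n > z`, `1 = G(z,n)²/V²` (`G_prime`), so the left side
is at most `V^(-2) ∑_{n ∈ (M, M+N]} G(z,n)² |∑_p c_p χ_p(n)|²` (all terms nonnegative). Open the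
square: the diagonal terms `p = p'` give at most `V^(-2) |c_p|² (N V + z^8)` (`|χ| ≤ 1`,
`G_sq_sum`), the others at most `V^(-2) |c_p| |c_p'| z^6 Q²` (`S1_off`), and
`∑_{p,p'} |c_p| |c_p'| ≤ #PC ∑ |c_p|² ≤ Q² ∑ |c_p|²` (`card_PC_le`). With `V ≥ 1`, `V ≥ log z`:
`N/V + z^8 + z^6 Q^4 ≤ N/log z + 2 z^8 Q^4`. -/
theorem S3_dual (Q z M N : ℕ) (hz : 2 ≤ z) (hQ : 1 ≤ Q)
    (c : (Σ r : ℕ, DirichletCharacter ℂ r) → ℂ) :
    ∑ n ∈ (Ioc M (M + N)).filter (fun n => n.Prime ∧ z < n),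
      ‖∑ p ∈ PC Q, c p * p.2 (n : ZMod p.1)‖ ^ 2 ≤
      (N / Real.log z + 2 * (z : ℝ) ^ 8 * (Q : ℝ) ^ 4) * ∑ p ∈ PC Q, ‖c p‖ ^ 2 := by
  classical
  set V : ℝ := Vz z with hV
  have hV1 : 1 ≤ V := Vz_ge_one z (by omega)
  have hVl : Real.log z ≤ V := Vz_ge z (by omega)
  have hlog : 0 < Real.log z := Real.log_pos (by exact_mod_cast (by omega : 1 < z))
  set S : ℝ := ∑ p ∈ PC Q, ‖c p‖ ^ 2 with hS
  have hS0 : 0 ≤ S := Finset.sum_nonneg fun _ _ => sq_nonneg _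
  have step1 : V ^ 2 * ∑ n ∈ (Ioc M (M + N)).filter (fun n => n.Prime ∧ z < n),
      ‖∑ p ∈ PC Q, c p * p.2 (n : ZMod p.1)‖ ^ 2 ≤
      ∑ n ∈ Ioc M (M + N), G z n ^ 2 * ‖∑ p ∈ PC Q, c p * p.2 (n : ZMod p.1)‖ ^ 2 := by
    rw [Finset.mul_sum]
    have h1 : ∀ n ∈ (Ioc M (M + N)).filter (fun n => n.Prime ∧ z < n),
        V ^ 2 * ‖∑ p ∈ PC Q, c p * p.2 (n : ZMod p.1)‖ ^ 2 =
        G z n ^ 2 * ‖∑ p ∈ PC Q, c p * p.2 (n : ZMod p.1)‖ ^ 2 := by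
      intro n hn
      rw [mem_filter] at hn
      rw [G_prime z n hn.2.1 hn.2.2]
    rw [Finset.sum_congr rfl h1]
    exact Finset.sum_le_sum_of_subset_of_nonneg (Finset.filter_subset _ _)
      fun _ _ _ => mul_nonneg (sq_nonneg _) (sq_nonneg _)
  have step2 : ((∑ n ∈ Ioc M (M + N), G z n ^ 2 * ‖∑ p ∈ PC Q, c p * p.2 (n : ZMod p.1)‖ ^ 2 : ℝ) : ℂ) =
      ∑ p ∈ PC Q, ∑ p' ∈ PC Q, c p * (starRingEnd ℂ) (c p') *
        ∑ n ∈ Ioc M (M + N), ((G z n ^ 2 : ℝ) : ℂ) * (p.2 (n : ZMod p.1) *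
          (starRingEnd ℂ) (p'.2 (n : ZMod p'.1))) := by
    rw [Complex.ofReal_sum]
    have h1 : ∀ n ∈ Ioc M (M + N),
        ((G z n ^ 2 * ‖∑ p ∈ PC Q, c p * p.2 (n : ZMod p.1)‖ ^ 2 : ℝ) : ℂ) =
        ∑ p ∈ PC Q, ∑ p' ∈ PC Q, c p * (starRingEnd ℂ) (c p') *
          (((G z n ^ 2 : ℝ) : ℂ) * (p.2 (n : ZMod p.1) *
          (starRingEnd ℂ) (p'.2 (n : ZMod p'.1)))) := by
      intro n _
      have h2 : ((‖∑ p ∈ PC Q, c p * p.2 (n : ZMod p.1)‖ ^ 2 : ℝ) : ℂ) =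
          (∑ p ∈ PC Q, c p * p.2 (n : ZMod p.1)) *
            (starRingEnd ℂ) (∑ p ∈ PC Q, c p * p.2 (n : ZMod p.1)) := by
        rw [Complex.mul_conj, Complex.normSq_eq_norm_sq]
      rw [Complex.ofReal_mul, h2, map_sum, Finset.sum_mul_sum, Finset.mul_sum]
      refine Finset.sum_congr rfl fun p _ => ?_
      rw [Finset.mul_sum]
      refine Finset.sum_congr rfl fun p' _ => ?_
      rw [map_mul]
      ring
    rw [Finset.sum_congr rfl h1, Finset.sum_comm]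
    refine Finset.sum_congr rfl fun p _ => ?_
    rw [Finset.sum_comm]
    refine Finset.sum_congr rfl fun p' _ => ?_
    rw [Finset.mul_sum]
  have hin : ∀ p ∈ PC Q, ∀ p' ∈ PC Q, ‖∑ n ∈ Ioc M (M + N), ((G z n ^ 2 : ℝ) : ℂ) * (p.2 (n : ZMod p.1) *
          (starRingEnd ℂ) (p'.2 (n : ZMod p'.1)))‖ ≤
      (if p = p' then N * V + (z : ℝ) ^ 8 else 0) + (z : ℝ) ^ 6 * (Q : ℝ) ^ 2 := by
    intro p hp p' hp'
    by_cases h : p = p'
    · rw [if_pos h, ← h]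
      have h1 : ‖∑ n ∈ Ioc M (M + N), ((G z n ^ 2 : ℝ) : ℂ) * (p.2 (n : ZMod p.1) *
          (starRingEnd ℂ) (p.2 (n : ZMod p.1)))‖ ≤ ∑ n ∈ Ioc M (M + N), G z n ^ 2 := by
        refine (norm_sum_le _ _).trans (Finset.sum_le_sum fun n _ => ?_)
        rw [norm_mul, norm_mul, RCLike.norm_conj, Complex.norm_real, Real.norm_eq_abs,
          abs_of_nonneg (sq_nonneg _)]
        have h2 : ‖p.2 (n : ZMod p.1)‖ ≤ 1 := DirichletCharacter.norm_le_one _ _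
        have h3 : ‖p.2 (n : ZMod p.1)‖ * ‖p.2 (n : ZMod p.1)‖ ≤ 1 :=
          mul_le_one₀ h2 (norm_nonneg _) h2
        exact mul_le_of_le_one_right (sq_nonneg _) h3
      have h4 : 0 ≤ (z : ℝ) ^ 6 * (Q : ℝ) ^ 2 := by positivity
      linarith [G_sq_sum z M N]
    · rw [if_neg h, zero_add]
      exact S1_off Q p p' hp hp' h M N z
  have hNV : 0 ≤ N * V + (z : ℝ) ^ 8 := by positivity
  have step3 : ∑ n ∈ Ioc M (M + N), G z n ^ 2 * ‖∑ p ∈ PC Q, c p * p.2 (n : ZMod p.1)‖ ^ 2 ≤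
      (N * V + (z : ℝ) ^ 8) * S + (z : ℝ) ^ 6 * (Q : ℝ) ^ 2 * (∑ p ∈ PC Q, ‖c p‖) ^ 2 := by
    have h0 : 0 ≤ ∑ n ∈ Ioc M (M + N), G z n ^ 2 * ‖∑ p ∈ PC Q, c p * p.2 (n : ZMod p.1)‖ ^ 2 :=
      Finset.sum_nonneg fun _ _ => mul_nonneg (sq_nonneg _) (sq_nonneg _)
    have h1 : ∑ n ∈ Ioc M (M + N), G z n ^ 2 * ‖∑ p ∈ PC Q, c p * p.2 (n : ZMod p.1)‖ ^ 2 =
        ‖((∑ n ∈ Ioc M (M + N), G z n ^ 2 * ‖∑ p ∈ PC Q, c p * p.2 (n : ZMod p.1)‖ ^ 2 : ℝ) : ℂ)‖ := by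
      rw [Complex.norm_real, Real.norm_eq_abs, abs_of_nonneg h0]
    rw [h1, step2]
    have h2 : ∀ p ∈ PC Q, ‖∑ p' ∈ PC Q, c p * (starRingEnd ℂ) (c p') *
        ∑ n ∈ Ioc M (M + N), ((G z n ^ 2 : ℝ) : ℂ) * (p.2 (n : ZMod p.1) *
          (starRingEnd ℂ) (p'.2 (n : ZMod p'.1)))‖ ≤
        (N * V + (z : ℝ) ^ 8) * ‖c p‖ ^ 2 +
          (z : ℝ) ^ 6 * (Q : ℝ) ^ 2 * (‖c p‖ * ∑ p' ∈ PC Q, ‖c p'‖) := by
      intro p hp
      refine (norm_sum_le _ _).trans ?_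
      have h3 : ∀ p' ∈ PC Q, ‖c p * (starRingEnd ℂ) (c p') *
          ∑ n ∈ Ioc M (M + N), ((G z n ^ 2 : ℝ) : ℂ) * (p.2 (n : ZMod p.1) *
          (starRingEnd ℂ) (p'.2 (n : ZMod p'.1)))‖ ≤
          (if p = p' then ‖c p‖ * ‖c p'‖ * (N * V + (z : ℝ) ^ 8) else 0) +
            (z : ℝ) ^ 6 * (Q : ℝ) ^ 2 * (‖c p‖ * ‖c p'‖) := by
        intro p' hp'
        rw [norm_mul, norm_mul, RCLike.norm_conj]
        have h4 := mul_le_mul_of_nonneg_left (hin p hp p' hp')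
          (mul_nonneg (norm_nonneg (c p)) (norm_nonneg (c p')))
        refine h4.trans (le_of_eq ?_)
        split_ifs <;> ring
      refine (Finset.sum_le_sum h3).trans (le_of_eq ?_)
      rw [Finset.sum_add_distrib, Finset.sum_ite_eq, if_pos hp, ← Finset.mul_sum, ← Finset.mul_sum]
      ring
    refine (norm_sum_le _ _).trans ((Finset.sum_le_sum h2).trans (le_of_eq ?_))
    rw [Finset.sum_add_distrib, ← Finset.mul_sum, ← Finset.mul_sum, ← Finset.sum_mul]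
    ring
  have step4 : (∑ p ∈ PC Q, ‖c p‖) ^ 2 ≤ (Q : ℝ) ^ 2 * S := by
    have h1 : (∑ p ∈ PC Q, ‖c p‖) ^ 2 ≤ ((PC Q).card : ℝ) * S := sq_sum_le_card_mul_sum_sq
    refine h1.trans (mul_le_mul_of_nonneg_right ?_ hS0)
    exact_mod_cast card_PC_le Q
  have hz0 : (0 : ℝ) ≤ (z : ℝ) ^ 6 * (Q : ℝ) ^ 2 := by positivity
  have step5 : V ^ 2 * ∑ n ∈ (Ioc M (M + N)).filter (fun n => n.Prime ∧ z < n),
      ‖∑ p ∈ PC Q, c p * p.2 (n : ZMod p.1)‖ ^ 2 ≤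
      (N * V + (z : ℝ) ^ 8 + (z : ℝ) ^ 6 * (Q : ℝ) ^ 4) * S := by
    have h1 := mul_le_mul_of_nonneg_left step4 hz0
    have h2 : (z : ℝ) ^ 6 * (Q : ℝ) ^ 2 * ((Q : ℝ) ^ 2 * S) = (z : ℝ) ^ 6 * (Q : ℝ) ^ 4 * S := by ring
    rw [h2] at h1
    have h3 : (N * V + (z : ℝ) ^ 8 + (z : ℝ) ^ 6 * (Q : ℝ) ^ 4) * S =
        (N * V + (z : ℝ) ^ 8) * S + (z : ℝ) ^ 6 * (Q : ℝ) ^ 4 * S := by ring
    rw [h3]
    linarith
  have hV2 : 0 < V ^ 2 := by positivity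
  have hVpos : 0 < V := by linarith
  have hz1 : (1 : ℝ) ≤ z := by exact_mod_cast (by omega : 1 ≤ z)
  have hQ1 : (1 : ℝ) ≤ Q := by exact_mod_cast hQ
  have key : N * V + (z : ℝ) ^ 8 + (z : ℝ) ^ 6 * (Q : ℝ) ^ 4 ≤
      V ^ 2 * (N / Real.log z + 2 * (z : ℝ) ^ 8 * (Q : ℝ) ^ 4) := by
    have h1 : (N : ℝ) * V ≤ V ^ 2 * (N / Real.log z) := by
      have h2 : V ^ 2 * (N / Real.log z) = (N * V) * (V / Real.log z) := by ring
      rw [h2]
      exact le_mul_of_one_le_right (by positivity) ((one_le_div hlog).2 hVl)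
    have h3 : (z : ℝ) ^ 8 ≤ (z : ℝ) ^ 8 * (Q : ℝ) ^ 4 :=
      le_mul_of_one_le_right (by positivity) (one_le_pow₀ hQ1)
    have h4 : (z : ℝ) ^ 6 * (Q : ℝ) ^ 4 ≤ (z : ℝ) ^ 8 * (Q : ℝ) ^ 4 :=
      mul_le_mul_of_nonneg_right (pow_le_pow_right₀ hz1 (by norm_num)) (by positivity)
    have h5 : 2 * (z : ℝ) ^ 8 * (Q : ℝ) ^ 4 ≤ V ^ 2 * (2 * (z : ℝ) ^ 8 * (Q : ℝ) ^ 4) :=
      le_mul_of_one_le_left (by positivity) (one_le_pow₀ hV1)
    rw [mul_add]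
    linarith
  have h6 := step5.trans (mul_le_mul_of_nonneg_right key hS0)
  rw [mul_assoc] at h6
  exact le_of_mul_le_mul_left h6 hV2

/-- Duality of finite matrices: if `∑_n |∑_p c_p A_{p,n}|² ≤ Δ ∑ |c_p|²` for all `c`, then
`∑_p |∑_n a_n A_{p,n}|² ≤ Δ ∑ |a_n|²` for all `a`.

Proof: put `c_p = conj (∑_n a_n A_{p,n})`, `T = ∑_p |c_p|²`. Then
`T = ∑_p c_p ∑_n a_n A_{p,n} = ∑_n a_n ∑_p c_p A_{p,n} ≤ (∑ |a_n|²)^(1/2) (Δ T)^(1/2)`. -/
theorem S3_duality {α γ : Type*} (P : Finset α) (s : Finset γ) (A : α → γ → ℂ) (Δ : ℝ)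
    (hΔ : 0 ≤ Δ)
    (h : ∀ c : α → ℂ, ∑ n ∈ s, ‖∑ p ∈ P, c p * A p n‖ ^ 2 ≤ Δ * ∑ p ∈ P, ‖c p‖ ^ 2)
    (a : γ → ℂ) : ∑ p ∈ P, ‖∑ n ∈ s, a n * A p n‖ ^ 2 ≤ Δ * ∑ n ∈ s, ‖a n‖ ^ 2 := by
  set B : α → ℂ := fun p => ∑ n ∈ s, a n * A p n with hB
  set T : ℝ := ∑ p ∈ P, ‖B p‖ ^ 2 with hT
  have hT0 : 0 ≤ T := Finset.sum_nonneg fun _ _ => sq_nonneg _
  have h1 := h fun p => (starRingEnd ℂ) (B p)
  have h2 : ∑ p ∈ P, ‖(starRingEnd ℂ) (B p)‖ ^ 2 = T := by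
    refine Finset.sum_congr rfl fun p _ => ?_
    rw [RCLike.norm_conj]
  rw [h2] at h1
  have h3 : (T : ℂ) = ∑ n ∈ s, a n * ∑ p ∈ P, (starRingEnd ℂ) (B p) * A p n := by
    rw [hT, Complex.ofReal_sum]
    have h4 : ∀ p ∈ P, ((‖B p‖ ^ 2 : ℝ) : ℂ) = ∑ n ∈ s, a n * ((starRingEnd ℂ) (B p) * A p n) := by
      intro p _
      rw [← Complex.normSq_eq_norm_sq, ← Complex.mul_conj]
      conv_lhs => rw [hB]
      rw [Finset.sum_mul]
      refine Finset.sum_congr rfl fun n _ => ?_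
      ring
    rw [Finset.sum_congr rfl h4, Finset.sum_comm]
    refine Finset.sum_congr rfl fun n _ => ?_
    rw [Finset.mul_sum]
  have h5 : T ≤ ∑ n ∈ s, ‖a n‖ * ‖∑ p ∈ P, (starRingEnd ℂ) (B p) * A p n‖ := by
    have h6 : T = ‖(T : ℂ)‖ := by
      rw [Complex.norm_real, Real.norm_eq_abs, abs_of_nonneg hT0]
    rw [h6, h3]
    refine (norm_sum_le _ _).trans (le_of_eq ?_)
    exact Finset.sum_congr rfl fun n _ => norm_mul _ _
  have h7 : T ^ 2 ≤ (∑ n ∈ s, ‖a n‖ ^ 2) * (Δ * T) := by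
    calc T ^ 2 ≤ (∑ n ∈ s, ‖a n‖ * ‖∑ p ∈ P, (starRingEnd ℂ) (B p) * A p n‖) ^ 2 :=
          pow_le_pow_left₀ hT0 h5 2
      _ ≤ (∑ n ∈ s, ‖a n‖ ^ 2) * ∑ n ∈ s, ‖∑ p ∈ P, (starRingEnd ℂ) (B p) * A p n‖ ^ 2 :=
          Finset.sum_mul_sq_le_sq_mul_sq _ _ _
      _ ≤ (∑ n ∈ s, ‖a n‖ ^ 2) * (Δ * T) :=
          mul_le_mul_of_nonneg_left h1 (Finset.sum_nonneg fun _ _ => sq_nonneg _)
  rcases hT0.eq_or_lt with h8 | h8
  · rw [← h8]
    exact mul_nonneg hΔ (Finset.sum_nonneg fun _ _ => sq_nonneg _)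
  · have h9 : T * T ≤ (Δ * ∑ n ∈ s, ‖a n‖ ^ 2) * T := by
      calc T * T = T ^ 2 := (sq T).symm
        _ ≤ (∑ n ∈ s, ‖a n‖ ^ 2) * (Δ * T) := h7
        _ = (Δ * ∑ n ∈ s, ‖a n‖ ^ 2) * T := by ring
    exact le_of_mul_le_mul_right h9 h8

/-- Large sieve over primes: `S3_dual`, `S3_duality`, and restriction to a subset `s` (replace `a`
by `0` outside `s`). -/
theorem S3_primal (Q z M N : ℕ) (hz : 2 ≤ z) (hQ : 1 ≤ Q) (s : Finset ℕ)
    (hs : ∀ n ∈ s, n.Prime ∧ z < n ∧ M < n ∧ n ≤ M + N) (a : ℕ → ℂ) :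
    ∑ p ∈ PC Q, ‖∑ n ∈ s, a n * p.2 (n : ZMod p.1)‖ ^ 2 ≤
      (N / Real.log z + 2 * (z : ℝ) ^ 8 * (Q : ℝ) ^ 4) * ∑ n ∈ s, ‖a n‖ ^ 2 := by
  have hlog : 0 < Real.log z := Real.log_pos (by exact_mod_cast (by omega : 1 < z))
  refine S3_duality (PC Q) s (fun p n => p.2 (n : ZMod p.1)) _ (by positivity) (fun c => ?_) a
  refine le_trans ?_ (S3_dual Q z M N hz hQ c)
  refine Finset.sum_le_sum_of_subset_of_nonneg ?_ fun _ _ _ => sq_nonneg _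
  intro n hn
  obtain ⟨h1, h2, h3, h4⟩ := hs n hn
  rw [mem_filter, mem_Ioc]
  exact ⟨⟨h3, h4⟩, h1, h2⟩

end Pool.Agent.Lib.H18Q
end

-- from Lib.H18Q.S5
section

/-!
# Project H18Q, chunk S5: cells and the hybrid large sieve over primes
-/

open Finset

namespace Pool.Agent.Lib.H18Q

open Pool.Agent.Lib.H68T

theorem s5_log_le {x : ℝ} (hx : 0 < x) : Real.log x ≤ 5 * x ^ (1 / 5 : ℝ) := by
  have h1 : Real.log (x ^ (1 / 5 : ℝ)) = 1 / 5 * Real.log x := Real.log_rpow hx _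
  have h2 : Real.log (x ^ (1 / 5 : ℝ)) ≤ x ^ (1 / 5 : ℝ) :=
    (Real.log_le_sub_one_of_pos (Real.rpow_pos_of_pos hx _)).trans (by linarith)
  rw [h1] at h2
  linarith

/-- The numerical inequalities for one cell. -/
theorem s5_num {Q : ℕ} (hQ : 2 ≤ Q) {x : ℝ} (hx : (Q : ℝ) ^ 100 ≤ x) :
    0 < Real.log x ∧ 2 ≤ ⌊x ^ (1 / 40 : ℝ)⌋₊ ∧ (⌊x ^ (1 / 40 : ℝ)⌋₊ : ℝ) < x ∧
    Real.log x / 80 ≤ Real.log (⌊x ^ (1 / 40 : ℝ)⌋₊ : ℝ) ∧
    2 * (⌊x ^ (1 / 40 : ℝ)⌋₊ : ℝ) ^ 8 * (Q : ℝ) ^ 4 ≤ x / ((Q : ℝ) ^ 9 * Real.log x) := by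
  have hQ2 : (2 : ℝ) ≤ Q := by exact_mod_cast hQ
  have hQ0 : (0 : ℝ) < Q := by linarith
  have h100 : (2 : ℝ) ^ 100 ≤ x := (pow_le_pow_left₀ (by norm_num) hQ2 100).trans hx
  have hx1 : (1 : ℝ) < x := lt_of_lt_of_le (by norm_num) h100
  have hx0 : (0 : ℝ) < x := by linarith
  have hlog : 0 < Real.log x := Real.log_pos hx1
  have hy0 : 0 < x ^ (1 / 40 : ℝ) := Real.rpow_pos_of_pos hx0 _
  have hy4 : (4 : ℝ) ≤ x ^ (1 / 40 : ℝ) := by
    have h1 : ((2 : ℝ) ^ 80) ^ (1 / 40 : ℝ) ≤ x ^ (1 / 40 : ℝ) := by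
      apply Real.rpow_le_rpow (by positivity) _ (by norm_num)
      exact (pow_le_pow_right₀ (by norm_num) (by norm_num)).trans h100
    have h2 : ((2 : ℝ) ^ 80) ^ (1 / 40 : ℝ) = 4 := by
      rw [← Real.rpow_natCast, ← Real.rpow_mul (by norm_num)]
      norm_num
    rw [h2] at h1
    exact h1
  have hz1 : (⌊x ^ (1 / 40 : ℝ)⌋₊ : ℝ) ≤ x ^ (1 / 40 : ℝ) := Nat.floor_le hy0.le
  have hz2 : x ^ (1 / 40 : ℝ) < (⌊x ^ (1 / 40 : ℝ)⌋₊ : ℝ) + 1 := Nat.lt_floor_add_one _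
  have hz3 : x ^ (1 / 40 : ℝ) / 2 ≤ (⌊x ^ (1 / 40 : ℝ)⌋₊ : ℝ) := by linarith
  have hz0 : (0 : ℝ) < (⌊x ^ (1 / 40 : ℝ)⌋₊ : ℝ) := by linarith
  refine ⟨hlog, ?_, ?_, ?_, ?_⟩
  · apply Nat.le_floor
    push_cast
    linarith
  · have h1 : x ^ (1 / 40 : ℝ) < x ^ (1 : ℝ) :=
      Real.rpow_lt_rpow_of_exponent_lt hx1 (by norm_num)
    rw [Real.rpow_one] at h1
    linarith
  · have h1 : Real.log (x ^ (1 / 40 : ℝ) / 2) ≤ Real.log (⌊x ^ (1 / 40 : ℝ)⌋₊ : ℝ) :=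
      Real.log_le_log (by positivity) hz3
    rw [Real.log_div hy0.ne' (by norm_num), Real.log_rpow hx0] at h1
    have h2 : Real.log ((2 : ℝ) ^ 80) ≤ Real.log x := by
      apply Real.log_le_log (by positivity)
      exact (pow_le_pow_right₀ (by norm_num) (by norm_num)).trans h100
    rw [Real.log_pow] at h2
    push_cast at h2
    linarith
  · have h1 : (⌊x ^ (1 / 40 : ℝ)⌋₊ : ℝ) ^ 8 ≤ x ^ (1 / 5 : ℝ) := by
      have h2 := pow_le_pow_left₀ hz0.le hz1 8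
      have h3 : (x ^ (1 / 40 : ℝ)) ^ 8 = x ^ (1 / 5 : ℝ) := by
        rw [← Real.rpow_natCast, ← Real.rpow_mul hx0.le]
        norm_num
      rw [h3] at h2
      exact h2
    have h13 : (Q : ℝ) ^ 13 ≤ x ^ (13 / 100 : ℝ) := by
      have h2 : ((Q : ℝ) ^ 100) ^ (13 / 100 : ℝ) ≤ x ^ (13 / 100 : ℝ) :=
        Real.rpow_le_rpow (by positivity) hx (by norm_num)
      have h3 : ((Q : ℝ) ^ 100) ^ (13 / 100 : ℝ) = (Q : ℝ) ^ 13 := by
        rw [← Real.rpow_natCast, ← Real.rpow_mul hQ0.le, ← Real.rpow_natCast]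
        norm_num
      rw [h3] at h2
      exact h2
    have h10 : (10 : ℝ) ≤ x ^ (47 / 100 : ℝ) := by
      have h2 : ((2 : ℝ) ^ 100) ^ (47 / 100 : ℝ) ≤ x ^ (47 / 100 : ℝ) :=
        Real.rpow_le_rpow (by positivity) h100 (by norm_num)
      have h3 : ((2 : ℝ) ^ 100) ^ (47 / 100 : ℝ) = (2 : ℝ) ^ 47 := by
        rw [← Real.rpow_natCast, ← Real.rpow_mul (by norm_num), ← Real.rpow_natCast]
        norm_num
      rw [h3] at h2
      exact le_trans (by norm_num) h2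
    have hl := s5_log_le hx0
    rw [le_div_iff₀ (by positivity)]
    have h5 : 0 < x ^ (1 / 5 : ℝ) := Real.rpow_pos_of_pos hx0 _
    have h6 : 0 < x ^ (13 / 100 : ℝ) := Real.rpow_pos_of_pos hx0 _
    have e1 : x ^ (1 / 5 : ℝ) * x ^ (13 / 100 : ℝ) * x ^ (1 / 5 : ℝ) * x ^ (47 / 100 : ℝ) = x := by
      rw [← Real.rpow_add hx0, ← Real.rpow_add hx0, ← Real.rpow_add hx0]
      norm_num
    calc 2 * (⌊x ^ (1 / 40 : ℝ)⌋₊ : ℝ) ^ 8 * (Q : ℝ) ^ 4 * ((Q : ℝ) ^ 9 * Real.log x)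
        = 2 * (⌊x ^ (1 / 40 : ℝ)⌋₊ : ℝ) ^ 8 * (Q : ℝ) ^ 13 * Real.log x := by ring
      _ ≤ 2 * x ^ (1 / 5 : ℝ) * x ^ (13 / 100 : ℝ) * (5 * x ^ (1 / 5 : ℝ)) := by gcongr
      _ = x ^ (1 / 5 : ℝ) * x ^ (13 / 100 : ℝ) * x ^ (1 / 5 : ℝ) * 10 := by ring
      _ ≤ x ^ (1 / 5 : ℝ) * x ^ (13 / 100 : ℝ) * x ^ (1 / 5 : ℝ) * x ^ (47 / 100 : ℝ) := by
          gcongr
      _ = x := e1

theorem s5_geom (F : Finset ℤ) : ∑ j ∈ F, (1 / 2 : ℝ) ^ j.natAbs ≤ 4 := by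
  classical
  have key : ∀ G : Finset ℕ, ∑ i ∈ G, (1 / 2 : ℝ) ^ i ≤ 2 := by
    intro G
    have h := summable_geometric_two.sum_le_tsum G (fun i _ => by positivity)
    rw [tsum_geometric_two] at h
    exact h
  have h1 : ∀ P : ℤ → Prop, [DecidablePred P] →
      (∀ a b : ℤ, P a → P b → a.natAbs = b.natAbs → a = b) →
      ∑ j ∈ F.filter P, (1 / 2 : ℝ) ^ j.natAbs ≤ 2 := by
    intro P _ hP
    have h2 : ∑ i ∈ (F.filter P).image Int.natAbs, (1 / 2 : ℝ) ^ i =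
        ∑ j ∈ F.filter P, (1 / 2 : ℝ) ^ j.natAbs := by
      apply Finset.sum_image
      intro a ha b hb hab
      exact hP a b (Finset.mem_filter.1 ha).2 (Finset.mem_filter.1 hb).2 hab
    rw [← h2]
    exact key _
  rw [← Finset.sum_filter_add_sum_filter_not F (fun j => 0 ≤ j)]
  have h2 := h1 (fun j => 0 ≤ j) (by intro a b ha hb hab; omega)
  have h3 := h1 (fun j => ¬ 0 ≤ j) (by intro a b ha hb hab; omega)
  linarith

theorem s5_weight (t : ℝ) :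
    (2 : ℝ) ^ (⌊t⌋.natAbs) * Real.exp (-(t ^ 2)) ≤ 4 * Real.exp (-(t ^ 2 / 2)) := by
  have h1 : ((⌊t⌋.natAbs : ℕ) : ℝ) ≤ |t| + 1 := by
    rw [Nat.cast_natAbs, Int.cast_abs]
    have h2 := Int.floor_le t
    have h3 := Int.lt_floor_add_one t
    rw [abs_le]
    constructor
    · have := neg_abs_le t
      linarith
    · have := le_abs_self t
      linarith
  have hl0 : 0 < Real.log 2 := Real.log_pos (by norm_num)
  have hl1 : Real.log 2 ≤ 1 := by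
    have := Real.log_le_sub_one_of_pos (show (0 : ℝ) < 2 by norm_num)
    linarith
  have e2 : (2 : ℝ) ^ (⌊t⌋.natAbs) = Real.exp (Real.log 2 * (⌊t⌋.natAbs : ℕ)) := by
    rw [Real.exp_mul, Real.exp_log (by norm_num), Real.rpow_natCast]
  have e4 : (4 : ℝ) = Real.exp (2 * Real.log 2) := by
    rw [mul_comm, Real.exp_mul, Real.exp_log (by norm_num)]
    norm_num
  rw [e2, e4, ← Real.exp_add, ← Real.exp_add]
  apply Real.exp_le_exp.2
  have h5 : Real.log 2 * (⌊t⌋.natAbs : ℕ) ≤ Real.log 2 * (|t| + 1) :=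
    mul_le_mul_of_nonneg_left h1 hl0.le
  have h6 : t ^ 2 = |t| ^ 2 := (sq_abs t).symm
  rw [h6]
  nlinarith [sq_nonneg (|t| - Real.log 2), abs_nonneg t]

/-- One cell: the primes `n ≥ x`, `x ≥ Q^100`, with `u ≤ log n < u + 1/Q^9`:
`∑_p |∑_n a_n χ_p(n)|² ≤ (C/(Q^9 log x)) ∑ n |a_n|²`.

Proof. If the cell contains `n0 ≥ x`, all its members lie in `(M, M + N]` with `M = n_min - 1`,
`N ≤ n_min (e^(1/Q^9) - 1) + 1 ≤ 2 n_min/Q^9 + 1 ≤ 3 n_min/Q^9` (`n_min` the least member, if the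
cell is not empty; `n_min ≥ x ≥ Q^100`, `Q ≥ 2`). `S3_primal` with `z = ⌊x^(1/40)⌋` (`≥ 2`,
`z < x ≤ n`, `log z ≥ (log x)/80`, `z^8 ≤ x^(1/5)`), `2 z^8 Q^4 ≤ 2 x^(1/5) Q^4 ≤ x/(Q^9 log x)`
(`x^(4/5) ≥ 2 Q^13 log x`, as `x ≥ Q^100`, `Q` large, `log x ≤ x^(1/5)` for `x` large). So the
constant is `≤ 240 n_min/(Q^9 log x) + x/(Q^9 log x) ≤ 241 n/(Q^9 log x)` for every member
`n ≥ n_min`. -/
theorem S5_cell : ∃ C K : ℝ, 0 < C ∧ ∀ Q : ℕ, K ≤ Q → ∀ x : ℝ, (Q : ℝ) ^ 100 ≤ x → ∀ u : ℝ,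
    ∀ s : Finset ℕ, (∀ n ∈ s, n.Prime ∧ x ≤ n ∧ u ≤ Real.log n ∧
      Real.log n < u + 1 / (Q : ℝ) ^ 9) → ∀ a : ℕ → ℂ,
    ∑ p ∈ PC Q, ‖∑ n ∈ s, a n * p.2 (n : ZMod p.1)‖ ^ 2 ≤
      C / ((Q : ℝ) ^ 9 * Real.log x) * ∑ n ∈ s, (n : ℝ) * ‖a n‖ ^ 2 := by
  refine ⟨241, 2, by norm_num, ?_⟩
  intro Q hQK x hx u s hs a
  have hQ : 2 ≤ Q := by exact_mod_cast hQK
  have hQ2 : (2 : ℝ) ≤ Q := by exact_mod_cast hQ
  have hQ0 : (0 : ℝ) < Q := by linarith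
  obtain ⟨hlog, hz2, hzx, hlz, h8⟩ := s5_num hQ hx
  have hx0 : 0 < x := lt_of_lt_of_le (by positivity) hx
  rcases s.eq_empty_or_nonempty with rfl | hne
  · simp
  have hmin := s.min'_mem hne
  have hmax := s.max'_mem hne
  generalize hn0 : s.min' hne = n0 at hmin
  generalize hn1 : s.max' hne = n1 at hmax
  have hle0 : ∀ n ∈ s, n0 ≤ n := fun n hn => hn0 ▸ s.min'_le n hn
  have hle1 : ∀ n ∈ s, n ≤ n1 := fun n hn => hn1 ▸ s.le_max' n hn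
  obtain ⟨hp0, hx0', hu0, -⟩ := hs n0 hmin
  obtain ⟨hp1, -, -, hu1⟩ := hs n1 hmax
  have hn0pos : (0 : ℝ) < n0 := by exact_mod_cast hp0.pos
  have hn1pos : (0 : ℝ) < n1 := by exact_mod_cast hp1.pos
  have h01 : n0 ≤ n1 := hle0 n1 hmax
  have hN : ((n1 - (n0 - 1) : ℕ) : ℝ) ≤ 3 * n0 / (Q : ℝ) ^ 9 := by
    have h1 : ((n1 - (n0 - 1) : ℕ) : ℝ) = n1 - n0 + 1 := by
      have h2 := hp0.pos
      rw [Nat.cast_sub (by omega), Nat.cast_sub (by omega)]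
      push_cast
      ring
    rw [h1]
    have hQ9 : (1 : ℝ) ≤ (Q : ℝ) ^ 9 := one_le_pow₀ (by linarith)
    have ht : |1 / (Q : ℝ) ^ 9| ≤ 1 := by
      rw [abs_of_pos (by positivity), div_le_one (by positivity)]
      exact hQ9
    have h2 := (abs_le.1 (Real.abs_exp_sub_one_le ht)).2
    rw [abs_of_pos (by positivity)] at h2
    have h3 : (n1 : ℝ) ≤ n0 * Real.exp (1 / (Q : ℝ) ^ 9) := by
      rw [← Real.exp_log hn1pos, ← Real.exp_log hn0pos, ← Real.exp_add]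
      apply Real.exp_le_exp.2
      linarith
    have h4 : (1 : ℝ) ≤ n0 / (Q : ℝ) ^ 9 := by
      rw [le_div_iff₀ (by positivity), one_mul]
      have h5 : (Q : ℝ) ^ 9 ≤ (Q : ℝ) ^ 100 := pow_le_pow_right₀ (by linarith) (by norm_num)
      linarith
    have h5 : (n0 : ℝ) * Real.exp (1 / (Q : ℝ) ^ 9) ≤ n0 * (1 + 2 * (1 / (Q : ℝ) ^ 9)) :=
      mul_le_mul_of_nonneg_left (by linarith) hn0pos.le
    have h6 : (n0 : ℝ) * (1 + 2 * (1 / (Q : ℝ) ^ 9)) = n0 + 2 * (n0 / (Q : ℝ) ^ 9) := by ring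
    have h7 : 3 * (n0 : ℝ) / (Q : ℝ) ^ 9 = 3 * (n0 / (Q : ℝ) ^ 9) := by ring
    rw [h7]
    linarith
  have hmain := S3_primal Q ⌊x ^ (1 / 40 : ℝ)⌋₊ (n0 - 1) (n1 - (n0 - 1)) hz2 (by omega) s (by
    intro n hn
    obtain ⟨h1, h2, -, -⟩ := hs n hn
    have h3 := hle0 n hn
    have h4 := hle1 n hn
    have h5 := hp0.pos
    refine ⟨h1, ?_, by omega, by omega⟩
    have h6 : (⌊x ^ (1 / 40 : ℝ)⌋₊ : ℝ) < n := lt_of_lt_of_le hzx h2
    exact_mod_cast h6) a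
  refine hmain.trans ?_
  have hlz0 : 0 < Real.log (⌊x ^ (1 / 40 : ℝ)⌋₊ : ℝ) := lt_of_lt_of_le (by positivity) hlz
  have hA : ((n1 - (n0 - 1) : ℕ) : ℝ) / Real.log (⌊x ^ (1 / 40 : ℝ)⌋₊ : ℝ) ≤
      240 * (n0 / ((Q : ℝ) ^ 9 * Real.log x)) := by
    calc ((n1 - (n0 - 1) : ℕ) : ℝ) / Real.log (⌊x ^ (1 / 40 : ℝ)⌋₊ : ℝ)
        ≤ (3 * n0 / (Q : ℝ) ^ 9) / (Real.log x / 80) := by gcongr
      _ = 240 * (n0 / ((Q : ℝ) ^ 9 * Real.log x)) := by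
          field_simp
          ring
  have hB : x / ((Q : ℝ) ^ 9 * Real.log x) ≤ n0 / ((Q : ℝ) ^ 9 * Real.log x) := by gcongr
  have hC : ((n1 - (n0 - 1) : ℕ) : ℝ) / Real.log (⌊x ^ (1 / 40 : ℝ)⌋₊ : ℝ) +
      2 * (⌊x ^ (1 / 40 : ℝ)⌋₊ : ℝ) ^ 8 * (Q : ℝ) ^ 4 ≤
      241 * (n0 / ((Q : ℝ) ^ 9 * Real.log x)) := by linarith
  refine (mul_le_mul_of_nonneg_right hC (Finset.sum_nonneg fun n _ => by positivity)).trans ?_
  rw [Finset.mul_sum, Finset.mul_sum]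
  apply Finset.sum_le_sum
  intro n hn
  have h1 : (n0 : ℝ) ≤ n := by exact_mod_cast hle0 n hn
  calc 241 * (n0 / ((Q : ℝ) ^ 9 * Real.log x)) * ‖a n‖ ^ 2
      ≤ 241 * (n / ((Q : ℝ) ^ 9 * Real.log x)) * ‖a n‖ ^ 2 := by gcongr
    _ = 241 / ((Q : ℝ) ^ 9 * Real.log x) * (n * ‖a n‖ ^ 2) := by ring

/-- The smoothed sum at a point `y`: with `T = Q^9`,
`∑_p |∑_n a_n χ_p(n) e^(-T² (y - log n)²/2)|² ≤ (C/(T log x)) ∑ n |a_n|² e^(-T² (y - log n)²/2)`.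

Proof. Cells `s_j = {n ∈ s : j ≤ T (log n - y) < j + 1}`, `j = ⌊T (log n - y)⌋ ∈ ℤ`. Cauchy-Schwarz:
`|∑_j S_j|² ≤ (∑_j 2^(-|j|)) ∑_j 2^|j| |S_j|² ≤ 3 ∑_j 2^|j| |S_j|²`, over the finitely many `j` with
`s_j` nonempty. `S5_cell` for each `j` with the coefficients `a_n e^(-T² (y - log n)²/2)`:
`|t| = T |y - log n| ≥ |j| - 1`, `2^|j| e^(-t²) ≤ 2^(|t| + 1) e^(-t²) ≤ 4 e^(-t²/2)`
(`|t| log 2 ≤ t²/2 + (log 2)²/2`). -/
theorem S5_point : ∃ C K : ℝ, 0 < C ∧ ∀ Q : ℕ, K ≤ Q → ∀ x : ℝ, (Q : ℝ) ^ 100 ≤ x →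
    ∀ s : Finset ℕ, (∀ n ∈ s, n.Prime ∧ x ≤ n) → ∀ (a : ℕ → ℂ) (y : ℝ),
    ∑ p ∈ PC Q, ‖∑ n ∈ s, a n * p.2 (n : ZMod p.1) *
      Real.exp (-(((Q : ℝ) ^ 9) ^ 2 * (y - Real.log n) ^ 2 / 2))‖ ^ 2 ≤
      C / ((Q : ℝ) ^ 9 * Real.log x) * ∑ n ∈ s, (n : ℝ) * ‖a n‖ ^ 2 *
        Real.exp (-(((Q : ℝ) ^ 9) ^ 2 * (y - Real.log n) ^ 2 / 2)) := by
  classical
  obtain ⟨C, K, hC, h⟩ := S5_cell
  refine ⟨16 * C, max K 2, by positivity, ?_⟩
  intro Q hQK x hx s hs a y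
  have hQ1 : K ≤ Q := (le_max_left _ _).trans hQK
  have hQ2 : (2 : ℝ) ≤ Q := (le_max_right _ _).trans hQK
  have hQn : 2 ≤ Q := by exact_mod_cast hQ2
  have hQ0 : (0 : ℝ) < Q := by linarith
  have hlog := (s5_num hQn hx).1
  have hT : (0 : ℝ) < (Q : ℝ) ^ 9 := by positivity
  let j : ℕ → ℤ := fun n => ⌊(Q : ℝ) ^ 9 * (Real.log n - y)⌋
  let b : ℕ → ℂ := fun n => a n * Real.exp (-(((Q : ℝ) ^ 9) ^ 2 * (y - Real.log n) ^ 2 / 2))
  have hcell : ∀ i : ℤ, ∑ p ∈ PC Q, ‖∑ n ∈ s.filter (fun n => j n = i), b n * p.2 (n : ZMod p.1)‖ ^ 2 ≤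
      C / ((Q : ℝ) ^ 9 * Real.log x) * ∑ n ∈ s.filter (fun n => j n = i), (n : ℝ) * ‖b n‖ ^ 2 := by
    intro i
    apply h Q hQ1 x hx (y + i / (Q : ℝ) ^ 9)
    intro n hn
    obtain ⟨h1, h2⟩ := Finset.mem_filter.1 hn
    obtain ⟨h3, h4⟩ := hs n h1
    have h5 : (i : ℝ) ≤ (Q : ℝ) ^ 9 * (Real.log n - y) := by
      rw [← h2]
      exact Int.floor_le _
    have h6 : (Q : ℝ) ^ 9 * (Real.log n - y) < i + 1 := by
      rw [← h2]
      exact Int.lt_floor_add_one _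
    refine ⟨h3, h4, ?_, ?_⟩
    · have h7 : (i : ℝ) / (Q : ℝ) ^ 9 ≤ Real.log n - y := by
        rw [div_le_iff₀ hT]
        linarith
      linarith
    · have h7 : Real.log n - y < ((i : ℝ) + 1) / (Q : ℝ) ^ 9 := by
        rw [lt_div_iff₀ hT]
        linarith
      have h8 : ((i : ℝ) + 1) / (Q : ℝ) ^ 9 = i / (Q : ℝ) ^ 9 + 1 / (Q : ℝ) ^ 9 := add_div _ _ _
      linarith
  have hsum : ∀ p ∈ PC Q, ‖∑ n ∈ s, a n * p.2 (n : ZMod p.1) *
      Real.exp (-(((Q : ℝ) ^ 9) ^ 2 * (y - Real.log n) ^ 2 / 2))‖ ^ 2 ≤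
      4 * ∑ i ∈ s.image j, (2 : ℝ) ^ i.natAbs *
        ‖∑ n ∈ s.filter (fun n => j n = i), b n * p.2 (n : ZMod p.1)‖ ^ 2 := by
    intro p _
    have h1 : ∑ n ∈ s, a n * p.2 (n : ZMod p.1) *
        Real.exp (-(((Q : ℝ) ^ 9) ^ 2 * (y - Real.log n) ^ 2 / 2)) =
        ∑ i ∈ s.image j, ∑ n ∈ s.filter (fun n => j n = i), b n * p.2 (n : ZMod p.1) := by
      rw [Finset.sum_fiberwise_of_maps_to (fun n hn => Finset.mem_image_of_mem j hn)]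
      apply Finset.sum_congr rfl
      intro n _
      show _ = a n * Real.exp (-(((Q : ℝ) ^ 9) ^ 2 * (y - Real.log n) ^ 2 / 2)) *
        p.2 (n : ZMod p.1)
      ring
    rw [h1]
    have h2 : ‖∑ i ∈ s.image j, ∑ n ∈ s.filter (fun n => j n = i), b n * p.2 (n : ZMod p.1)‖ ^ 2 ≤
        (∑ i ∈ s.image j, ‖∑ n ∈ s.filter (fun n => j n = i), b n * p.2 (n : ZMod p.1)‖) ^ 2 :=
      pow_le_pow_left₀ (norm_nonneg _) (norm_sum_le _ _) 2
    have h3 : (∑ i ∈ s.image j,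
        ‖∑ n ∈ s.filter (fun n => j n = i), b n * p.2 (n : ZMod p.1)‖) ^ 2 ≤
        (∑ i ∈ s.image j, (1 / 2 : ℝ) ^ i.natAbs) * ∑ i ∈ s.image j, (2 : ℝ) ^ i.natAbs *
        ‖∑ n ∈ s.filter (fun n => j n = i), b n * p.2 (n : ZMod p.1)‖ ^ 2 := by
      apply Finset.sum_sq_le_sum_mul_sum_of_sq_eq_mul
      · intro i _
        positivity
      · intro i _
        positivity
      · intro i _
        rw [← mul_assoc, ← mul_pow]
        norm_num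
    refine (h2.trans h3).trans ?_
    apply mul_le_mul_of_nonneg_right (s5_geom _)
    exact Finset.sum_nonneg fun i _ => by positivity
  refine (Finset.sum_le_sum hsum).trans ?_
  rw [← Finset.mul_sum, Finset.sum_comm]
  have h2 : ∀ i ∈ s.image j, ∑ p ∈ PC Q, (2 : ℝ) ^ i.natAbs *
      ‖∑ n ∈ s.filter (fun n => j n = i), b n * p.2 (n : ZMod p.1)‖ ^ 2 ≤
      4 * C / ((Q : ℝ) ^ 9 * Real.log x) * ∑ n ∈ s.filter (fun n => j n = i),
        (n : ℝ) * ‖a n‖ ^ 2 * Real.exp (-(((Q : ℝ) ^ 9) ^ 2 * (y - Real.log n) ^ 2 / 2)) := by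
    intro i _
    rw [← Finset.mul_sum]
    have h3 : (2 : ℝ) ^ i.natAbs * ∑ p ∈ PC Q,
        ‖∑ n ∈ s.filter (fun n => j n = i), b n * p.2 (n : ZMod p.1)‖ ^ 2 ≤
        (2 : ℝ) ^ i.natAbs * (C / ((Q : ℝ) ^ 9 * Real.log x) *
          ∑ n ∈ s.filter (fun n => j n = i), (n : ℝ) * ‖b n‖ ^ 2) :=
      mul_le_mul_of_nonneg_left (hcell i) (by positivity)
    refine h3.trans ?_
    have h4 : (2 : ℝ) ^ i.natAbs * (C / ((Q : ℝ) ^ 9 * Real.log x) *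
        ∑ n ∈ s.filter (fun n => j n = i), (n : ℝ) * ‖b n‖ ^ 2) =
        C / ((Q : ℝ) ^ 9 * Real.log x) * ∑ n ∈ s.filter (fun n => j n = i),
          (2 : ℝ) ^ i.natAbs * ((n : ℝ) * ‖b n‖ ^ 2) := by
      rw [← Finset.mul_sum]
      ring
    have h5 : 4 * C / ((Q : ℝ) ^ 9 * Real.log x) = C / ((Q : ℝ) ^ 9 * Real.log x) * 4 := by ring
    rw [h4, h5, mul_assoc]
    apply mul_le_mul_of_nonneg_left _ (by positivity)
    rw [Finset.mul_sum]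
    apply Finset.sum_le_sum
    intro n hn
    have h6 : j n = i := (Finset.mem_filter.1 hn).2
    have h7 : ‖b n‖ ^ 2 = ‖a n‖ ^ 2 * Real.exp (-(((Q : ℝ) ^ 9 * (Real.log n - y)) ^ 2)) := by
      show ‖a n * (Real.exp (-(((Q : ℝ) ^ 9) ^ 2 * (y - Real.log n) ^ 2 / 2)) : ℂ)‖ ^ 2 = _
      rw [norm_mul, mul_pow, Complex.norm_real, Real.norm_eq_abs, Real.abs_exp, ← Real.exp_nat_mul]
      congr 2
      push_cast
      ring
    have h8 := s5_weight ((Q : ℝ) ^ 9 * (Real.log n - y))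
    have h9 : Real.exp (-(((Q : ℝ) ^ 9) ^ 2 * (y - Real.log n) ^ 2 / 2)) =
        Real.exp (-(((Q : ℝ) ^ 9 * (Real.log n - y)) ^ 2 / 2)) := by
      congr 1
      ring
    have h10 : (2 : ℝ) ^ i.natAbs = (2 : ℝ) ^ (⌊(Q : ℝ) ^ 9 * (Real.log n - y)⌋.natAbs) := by
      rw [← h6]
    rw [h7, h9, h10]
    calc (2 : ℝ) ^ (⌊(Q : ℝ) ^ 9 * (Real.log n - y)⌋.natAbs) * ((n : ℝ) * (‖a n‖ ^ 2 *
          Real.exp (-(((Q : ℝ) ^ 9 * (Real.log n - y)) ^ 2))))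
        = ((n : ℝ) * ‖a n‖ ^ 2) * ((2 : ℝ) ^ (⌊(Q : ℝ) ^ 9 * (Real.log n - y)⌋.natAbs) *
          Real.exp (-(((Q : ℝ) ^ 9 * (Real.log n - y)) ^ 2))) := by ring
      _ ≤ ((n : ℝ) * ‖a n‖ ^ 2) * (4 * Real.exp (-(((Q : ℝ) ^ 9 * (Real.log n - y)) ^ 2 / 2))) :=
          mul_le_mul_of_nonneg_left h8 (by positivity)
      _ = 4 * ((n : ℝ) * ‖a n‖ ^ 2 *
          Real.exp (-(((Q : ℝ) ^ 9 * (Real.log n - y)) ^ 2 / 2))) := by ring
  have h3 := Finset.sum_le_sum h2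
  rw [← Finset.mul_sum, Finset.sum_fiberwise_of_maps_to
    (fun n hn => Finset.mem_image_of_mem j hn)] at h3
  calc 4 * ∑ i ∈ s.image j, ∑ p ∈ PC Q, (2 : ℝ) ^ i.natAbs *
        ‖∑ n ∈ s.filter (fun n => j n = i), b n * p.2 (n : ZMod p.1)‖ ^ 2
      ≤ 4 * (4 * C / ((Q : ℝ) ^ 9 * Real.log x) * ∑ n ∈ s, (n : ℝ) * ‖a n‖ ^ 2 *
        Real.exp (-(((Q : ℝ) ^ 9) ^ 2 * (y - Real.log n) ^ 2 / 2))) :=
        mul_le_mul_of_nonneg_left h3 (by norm_num)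
    _ = 16 * C / ((Q : ℝ) ^ 9 * Real.log x) * ∑ n ∈ s, (n : ℝ) * ‖a n‖ ^ 2 *
        Real.exp (-(((Q : ℝ) ^ 9) ^ 2 * (y - Real.log n) ^ 2 / 2)) := by ring

/-- **Hybrid large sieve over primes.** Proof: `gauss_interval` with `T = Q^9`, `a i = log n`
(`n^(-iv) = exp(-i v log n)`, `n ≥ 1`), sum over `p`, `S5_point`, and
`∫ e^(-T² (y - log n)²/2) dy = √(2π)/T ≤ 3/T`: the total is at most
`3 T² · C/(T log x) · 3/T ∑ n |a_n|²`. -/
theorem hybrid : ∃ C K : ℝ, 0 < C ∧ ∀ Q : ℕ, K ≤ Q → ∀ x : ℝ, (Q : ℝ) ^ 100 ≤ x →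
    ∀ s : Finset ℕ, (∀ n ∈ s, n.Prime ∧ x ≤ n) → ∀ a : ℕ → ℂ,
    ∑ p ∈ PC Q, ∫ v in (-(Q : ℝ) ^ 9)..((Q : ℝ) ^ 9), ‖∑ n ∈ s, a n * p.2 (n : ZMod p.1) *
      (n : ℂ) ^ (-(v * Complex.I))‖ ^ 2 ≤
      C / Real.log x * ∑ n ∈ s, (n : ℝ) * ‖a n‖ ^ 2 := by
  classical
  obtain ⟨C, K, hC, h⟩ := S5_point
  refine ⟨9 * C, max K 2, by positivity, ?_⟩
  intro Q hQK x hx s hs a
  have hQ1 : K ≤ Q := (le_max_left _ _).trans hQK
  have hQ2 : (2 : ℝ) ≤ Q := (le_max_right _ _).trans hQK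
  have hQn : 2 ≤ Q := by exact_mod_cast hQ2
  have hQ0 : (0 : ℝ) < Q := by linarith
  have hlog := (s5_num hQn hx).1
  have hT : (0 : ℝ) < (Q : ℝ) ^ 9 := by positivity
  have h1 : ∀ p ∈ PC Q, ∫ v in (-(Q : ℝ) ^ 9)..((Q : ℝ) ^ 9), ‖∑ n ∈ s, a n * p.2 (n : ZMod p.1) *
      (n : ℂ) ^ (-(v * Complex.I))‖ ^ 2 ≤
      3 * ((Q : ℝ) ^ 9) ^ 2 * ∫ y : ℝ, ‖∑ n ∈ s, a n * p.2 (n : ZMod p.1) *
        Real.exp (-(((Q : ℝ) ^ 9) ^ 2 * (y - Real.log n) ^ 2 / 2))‖ ^ 2 := by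
    intro p _
    have h2 := gauss_interval s (fun n : ℕ => Real.log n) (fun n => a n * p.2 (n : ZMod p.1))
      ((Q : ℝ) ^ 9) hT
    have h3 : ∀ v : ℝ, ‖∑ n ∈ s, a n * p.2 (n : ZMod p.1) * (n : ℂ) ^ (-(v * Complex.I))‖ ^ 2 =
        ‖∑ n ∈ s, a n * p.2 (n : ZMod p.1) * Complex.exp (-(v * Real.log n * Complex.I))‖ ^ 2 := by
      intro v
      congr 2
      apply Finset.sum_congr rfl
      intro n hn
      congr 1
      have hn0 : (n : ℂ) ≠ 0 := by exact_mod_cast (hs n hn).1.ne_zero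
      rw [Complex.cpow_def_of_ne_zero hn0]
      congr 1
      rw [Complex.ofReal_log (by positivity)]
      push_cast
      ring
    simp only [h3]
    exact h2
  refine (Finset.sum_le_sum h1).trans ?_
  rw [← Finset.mul_sum, ← MeasureTheory.integral_finset_sum]
  · have hint : ∀ n : ℕ, MeasureTheory.Integrable (fun y : ℝ => (n : ℝ) * ‖a n‖ ^ 2 *
        Real.exp (-(((Q : ℝ) ^ 9) ^ 2 * (y - Real.log n) ^ 2 / 2))) := by
      intro n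
      apply MeasureTheory.Integrable.const_mul
      have h3 := (integrable_exp_neg_mul_sq
        (show (0 : ℝ) < ((Q : ℝ) ^ 9) ^ 2 / 2 by positivity)).comp_sub_right (Real.log n)
      refine h3.congr (Filter.Eventually.of_forall fun y => ?_)
      show Real.exp (-(((Q : ℝ) ^ 9) ^ 2 / 2) * (y - Real.log n) ^ 2) = _
      congr 1
      ring
    have hval : ∀ n : ℕ, ∫ y : ℝ, (n : ℝ) * ‖a n‖ ^ 2 *
        Real.exp (-(((Q : ℝ) ^ 9) ^ 2 * (y - Real.log n) ^ 2 / 2)) ≤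
        (n : ℝ) * ‖a n‖ ^ 2 * (3 / (Q : ℝ) ^ 9) := by
      intro n
      rw [MeasureTheory.integral_const_mul]
      apply mul_le_mul_of_nonneg_left _ (by positivity)
      have h3 : ∫ y : ℝ, Real.exp (-(((Q : ℝ) ^ 9) ^ 2 * (y - Real.log n) ^ 2 / 2)) =
          ∫ y : ℝ, Real.exp (-(((Q : ℝ) ^ 9) ^ 2 / 2) * y ^ 2) := by
        rw [← MeasureTheory.integral_sub_right_eq_self
          (fun y : ℝ => Real.exp (-(((Q : ℝ) ^ 9) ^ 2 / 2) * y ^ 2)) (Real.log n)]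
        congr 1
        ext y
        congr 1
        ring
      rw [h3, integral_gaussian]
      rw [Real.sqrt_le_left (by positivity), div_pow, div_le_div_iff₀ (by positivity)
        (by positivity)]
      have h4 := Real.pi_lt_d2
      have h5 : (0 : ℝ) < ((Q : ℝ) ^ 9) ^ 2 := by positivity
      nlinarith
    calc 3 * ((Q : ℝ) ^ 9) ^ 2 * ∫ y : ℝ, ∑ p ∈ PC Q, ‖∑ n ∈ s, a n * p.2 (n : ZMod p.1) *
          Real.exp (-(((Q : ℝ) ^ 9) ^ 2 * (y - Real.log n) ^ 2 / 2))‖ ^ 2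
        ≤ 3 * ((Q : ℝ) ^ 9) ^ 2 * ∫ y : ℝ, C / ((Q : ℝ) ^ 9 * Real.log x) *
          ∑ n ∈ s, (n : ℝ) * ‖a n‖ ^ 2 *
          Real.exp (-(((Q : ℝ) ^ 9) ^ 2 * (y - Real.log n) ^ 2 / 2)) := by
          apply mul_le_mul_of_nonneg_left _ (by positivity)
          apply MeasureTheory.integral_mono
          · apply MeasureTheory.integrable_finset_sum
            intro p _
            exact (gauss_integrable s (fun n : ℕ => Real.log n)
              (fun n => a n * p.2 (n : ZMod p.1)) ((Q : ℝ) ^ 9) hT).2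
          · exact (MeasureTheory.integrable_finset_sum _ fun n _ => hint n).const_mul _
          · intro y
            exact h Q hQ1 x hx s hs a y
      _ ≤ 3 * ((Q : ℝ) ^ 9) ^ 2 * (C / ((Q : ℝ) ^ 9 * Real.log x) *
          ∑ n ∈ s, (n : ℝ) * ‖a n‖ ^ 2 * (3 / (Q : ℝ) ^ 9)) := by
          apply mul_le_mul_of_nonneg_left _ (by positivity)
          rw [MeasureTheory.integral_const_mul]
          apply mul_le_mul_of_nonneg_left _ (by positivity)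
          rw [MeasureTheory.integral_finset_sum _ fun n _ => hint n]
          exact Finset.sum_le_sum fun n _ => hval n
      _ = 9 * C / Real.log x * ∑ n ∈ s, (n : ℝ) * ‖a n‖ ^ 2 := by
          rw [← Finset.sum_mul]
          field_simp
          ring
  · intro p _
    exact (gauss_integrable s (fun n : ℕ => Real.log n)
      (fun n => a n * p.2 (n : ZMod p.1)) ((Q : ℝ) ^ 9) hT).2

end Pool.Agent.Lib.H18Q
end

-- from Lib.H18Q.ZN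
section

/-!
# Project H18Q, chunk ZN: log-free zero density
-/

open Finset

namespace Pool.Agent.Lib.H18Q

open ArithmeticFunction Pool.Agent.Lib.H68T

theorem PP_continuous (c : ℕ → ℂ) (lam : ℝ) (k K1 : ℕ) : Continuous (PP c lam k K1) := by
  unfold PP
  refine continuous_finsetSum _ fun n hn => ?_
  have hn0 : (n : ℂ) ≠ 0 := by
    have h1 := (mem_filter.1 hn).2
    exact_mod_cast h1.ne_zero
  refine continuous_const.mul ?_
  exact Continuous.const_cpow (by fun_prop) (Or.inl hn0)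

/-- The mean square of the sums over primes: for `K1 ≥ C3 κ`, `lam = κ/log Q ≤ th0`,
`∑_p ∫_{|v| ≤ Q^9} |PP|² ≤ C K1 lam`... in the form `≤ C K1²` (weak, enough) times `lam`.

Proof. `hybrid` with `x = xlo K1 lam`; `x ≥ Q^100` since `log x = (K1 - 1) log Q/(2^20 κ) ≥ 100 log Q`
for `K1 ≥ 2^28 κ`, `κ ≥ 1` (so `C3 ≥ 2^28`). `∑ n |log n Jk(n)|² ≤ max(n Jk(n)) max (log n)
∑ log n Jk(n) ≤ lam · (128 K1/lam) · C = 128 C K1` (`Jk_le`; primes: `Λ n = log n`, `Jk_sum`;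
`log n ≤ log yhi = 128 K1/lam`). And `1/log x = 2^20 lam/(K1 - 1) ≤ 2^21 lam/K1`. Total
`≤ C' lam ≤ C' lam K1`. -/
theorem PP_mean : ∃ C C3 K : ℝ, 0 < C ∧ 1 ≤ C3 ∧ ∀ Q : ℕ, K ≤ Q → ∀ κ : ℝ, 1 ≤ κ →
    κ ≤ th0 * Real.log Q → ∀ K1 : ℕ, C3 * κ ≤ K1 → ∀ k : ℕ,
    ∑ p ∈ PC Q, ∫ v in (-(Q : ℝ) ^ 9)..((Q : ℝ) ^ 9),
      ‖PP (fun n => p.2 (n : ZMod p.1)) (κ / Real.log Q) k K1 v‖ ^ 2 ≤
      C * (κ / Real.log Q) := by
  obtain ⟨Ch, Kh, hCh, hyb⟩ := hybrid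
  obtain ⟨CJ, hCJ, hJ⟩ := Jk_sum
  refine ⟨Ch * CJ * 2 ^ 28, 2 ^ 28, max Kh 3, by positivity, by norm_num, ?_⟩
  intro Q hQ κ hκ hκθ K1 hK1 k
  have hQ3 : (3 : ℝ) ≤ Q := (le_max_right _ _).trans hQ
  have hL : 0 < Real.log Q := Real.log_pos (by linarith)
  set lam : ℝ := κ / Real.log Q with hlam
  have hlam0 : 0 < lam := by positivity
  have hlam1 : lam ≤ th0 := by
    rw [hlam, div_le_iff₀ hL]
    exact hκθ
  have hth : th0 ≤ 1 := by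
    unfold th0
    norm_num
  have hlamle : lam ≤ 1 := hlam1.trans hth
  have hK2 : (2 : ℝ) ^ 28 ≤ K1 := by nlinarith
  have hK1pos : (0 : ℝ) < K1 := by linarith [pow_pos (two_pos : (0:ℝ) < 2) 28]
  have hlogx : Real.log (xlo K1 lam) = (K1 - 1) / (2 ^ 20 * lam) := by
    unfold xlo
    rw [Real.log_exp]
  have hlogx2 : (K1 : ℝ) / (2 ^ 21 * lam) ≤ Real.log (xlo K1 lam) := by
    rw [hlogx, div_le_div_iff₀ (by positivity) (by positivity)]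
    have : (K1 : ℝ) ≤ (K1 - 1) * 2 := by linarith
    calc (K1 : ℝ) * (2 ^ 20 * lam) ≤ ((K1 - 1) * 2) * (2 ^ 20 * lam) :=
          mul_le_mul_of_nonneg_right this (by positivity)
      _ = (K1 - 1) * (2 ^ 21 * lam) := by ring
  have hlogpos : 0 < Real.log (xlo K1 lam) := lt_of_lt_of_le (by positivity) hlogx2
  have hx : (Q : ℝ) ^ 100 ≤ xlo K1 lam := by
    unfold xlo
    rw [← Real.exp_log (show (0 : ℝ) < (Q : ℝ) ^ 100 by positivity), Real.log_pow,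
      Real.exp_le_exp, le_div_iff₀ (by positivity)]
    have h1 : ((100 : ℕ) : ℝ) * Real.log Q * (2 ^ 20 * lam) = 100 * 2 ^ 20 * κ := by
      rw [hlam]
      push_cast
      field_simp
    rw [h1]
    nlinarith
  have hs : ∀ n ∈ PI (xlo K1 lam) (yhi K1 lam), n.Prime ∧ xlo K1 lam ≤ n := by
    intro n hn
    unfold PI at hn
    rw [mem_filter, mem_Icc] at hn
    exact ⟨hn.2, Nat.ceil_le.1 hn.1.1⟩
  have h1 := hyb Q ((le_max_left _ _).trans hQ) (xlo K1 lam) hx _ hs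
    (fun n => ((Real.log n * Jk lam k n : ℝ) : ℂ))
  have h2 : ∑ n ∈ PI (xlo K1 lam) (yhi K1 lam), (n : ℝ) * ‖((Real.log n * Jk lam k n : ℝ) : ℂ)‖ ^ 2 ≤
      128 * K1 * CJ := by
    have h3 : ∀ n ∈ PI (xlo K1 lam) (yhi K1 lam),
        (n : ℝ) * ‖((Real.log n * Jk lam k n : ℝ) : ℂ)‖ ^ 2 ≤ 128 * K1 * (Λ n * Jk lam k n) := by
      intro n hn
      have hp := (hs n hn).1
      have hn1 : (1 : ℝ) ≤ n := by exact_mod_cast hp.one_lt.le
      have hlogn : 0 ≤ Real.log n := Real.log_nonneg hn1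
      have hJ0 := Jk_nonneg lam k n hlam0.le
      have hJ1 := Jk_le lam k n hlam0
      have hny : (n : ℝ) ≤ yhi K1 lam := by
        unfold PI at hn
        rw [mem_filter, mem_Icc] at hn
        exact (Nat.le_floor_iff (by unfold yhi; positivity)).1 hn.1.2
      have hlogn2 : Real.log n ≤ 128 * K1 / lam := by
        have := Real.log_le_log (by linarith) hny
        unfold yhi at this
        rwa [Real.log_exp] at this
      rw [Complex.norm_real, Real.norm_eq_abs, sq_abs, vonMangoldt_apply_prime hp]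
      calc (n : ℝ) * (Real.log n * Jk lam k n) ^ 2
          = (n * Jk lam k n) * (Real.log n * (Real.log n * Jk lam k n)) := by ring
        _ ≤ lam * ((128 * K1 / lam) * (Real.log n * Jk lam k n)) := by
            apply mul_le_mul hJ1 _ (by positivity) hlam0.le
            exact mul_le_mul_of_nonneg_right hlogn2 (by positivity)
        _ = 128 * K1 * (Real.log n * Jk lam k n) := by field_simp
    refine (Finset.sum_le_sum h3).trans ?_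
    rw [← Finset.mul_sum]
    exact mul_le_mul_of_nonneg_left (hJ lam k _ hlam0 hlamle) (by positivity)
  have h4 : Ch / Real.log (xlo K1 lam) ≤ Ch * (2 ^ 21 * lam / K1) := by
    rw [div_eq_mul_inv]
    refine mul_le_mul_of_nonneg_left ?_ hCh.le
    rw [← one_div, div_le_div_iff₀ hlogpos hK1pos, one_mul]
    rw [div_le_iff₀ (by positivity)] at hlogx2
    linarith
  calc ∑ p ∈ PC Q, ∫ v in (-(Q : ℝ) ^ 9)..((Q : ℝ) ^ 9),
        ‖PP (fun n => p.2 (n : ZMod p.1)) lam k K1 v‖ ^ 2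
      ≤ Ch / Real.log (xlo K1 lam) *
        ∑ n ∈ PI (xlo K1 lam) (yhi K1 lam), (n : ℝ) * ‖((Real.log n * Jk lam k n : ℝ) : ℂ)‖ ^ 2 := h1
    _ ≤ Ch * (2 ^ 21 * lam / K1) * (128 * K1 * CJ) :=
        mul_le_mul h4 h2 (Finset.sum_nonneg fun _ _ => by positivity) (by positivity)
    _ = Ch * CJ * 2 ^ 28 * lam := by
        field_simp
        ring

/-- **Log-free zero density.** `∑_{p ∈ PC Q} #{zeros of L(s, χ_p), Re ≥ 1 - κ/log Q, |Im| ≤ Q^8} ≤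
C exp (C κ)`.

Proof. Let `δ` be the constant of `zf3_low`; `θ = min th0 δ` (then for `p0` all zeros `ρ` of
`Lp p0 = gl2_Z` with `Re ρ ≥ 1 - κ/log Q` have `|Im ρ| > 1`; zeros of `gl2_Z` are zeros of `ζ`,
`lab3_Z_zero`). `lam = κ/log Q`, `K1 = ⌈C3 κ⌉` with the larger `C3` of `detect_primes`, `PP_mean`;
`g_p(v) = 16 · 4096^(2 K1) ∑_{k < 2 K1} ‖PP χ_p lam k K1 v‖²` (for `p = p0` too). `count_by_measure`
with `S = ZR (Lp p) (1 - lam) (Q^8)`, `γ = Im`, `m = od`, `[a, b] = [-Q^9, Q^9]`, `B = C1 lam log Q =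
C1 κ` from `ldat_box` (`LDat_Lp`, `ℓ = log Q`, `lam ≤ th0 ≤ 1/12`); the hypothesis `hg1` is
`detect_primes` (if `|Im ρ - v| ≤ lam`, and for `p0`: `|v| ≥ 1 - lam ≥ 1/2`). So
`∑_p ∑_ρ od ≤ (C1 κ/(2 lam)) 16 · 4096^(2 K1) ∑_{k < 2 K1} ∑_p ∫ ‖PP‖² ≤
(C1 κ/(2 lam)) 16 · 4096^(2 K1) 2 K1 C lam ≤ C' κ K1 4096^(2 K1)`, and `K1 ≤ C3 κ + 1 ≤ 2 C3 κ`,
`κ ≤ e^κ`. -/
theorem zero_density : ∃ C θ K : ℝ, 1 ≤ C ∧ 0 < θ ∧ ∀ Q : ℕ, K ≤ Q → ∀ κ : ℝ, 1 ≤ κ →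
    κ ≤ θ * Real.log Q →
    ∑ p ∈ PC Q, ∑ ρ ∈ ZR (Lp p) (1 - κ / Real.log Q) ((Q : ℝ) ^ 8), (od (Lp p) ρ : ℝ) ≤
      C * Real.exp (C * κ) := by
  obtain ⟨δ, hδ, hlow⟩ := zf3_low
  obtain ⟨C0, KL, hC0, hLD⟩ := LDat_Lp
  obtain ⟨C1, hC1, hbox⟩ := ldat_box C0 hC0
  obtain ⟨C3d, Kd, hC3d, hdet⟩ := detect_primes
  obtain ⟨Cm, C3m, Km, hCm, hC3m, hmean⟩ := PP_mean
  set C3 : ℝ := max C3d C3m with hC3
  have hC3one : 1 ≤ C3 := hC3d.trans (le_max_left _ _)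
  have hth0 : (0 : ℝ) < th0 := by
    unfold th0
    norm_num
  refine ⟨1 + 32 * C1 * Cm * C3 + 40 * C3 + 2, min th0 δ, max (max KL Kd) (max Km 3), ?_,
    lt_min hth0 hδ, ?_⟩
  · have : 0 ≤ 32 * C1 * Cm * C3 := by positivity
    linarith
  intro Q hQ κ hκ hκθ
  have hQL : KL ≤ Q := ((le_max_left _ _).trans (le_max_left _ _)).trans hQ
  have hQd : Kd ≤ Q := ((le_max_right _ _).trans (le_max_left _ _)).trans hQ
  have hQm : Km ≤ Q := ((le_max_left _ _).trans (le_max_right _ _)).trans hQ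
  have hQ3 : (3 : ℝ) ≤ Q := ((le_max_right _ _).trans (le_max_right _ _)).trans hQ
  have hL : 0 < Real.log Q := Real.log_pos (by linarith)
  set L : ℝ := Real.log Q with hLdef
  have hκth : κ ≤ th0 * L := hκθ.trans (mul_le_mul_of_nonneg_right (min_le_left _ _) hL.le)
  have hκδ : κ ≤ δ * L := hκθ.trans (mul_le_mul_of_nonneg_right (min_le_right _ _) hL.le)
  set lam : ℝ := κ / L with hlam
  have hlam0 : 0 < lam := by positivity
  have hlam1 : lam ≤ th0 := by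
    rw [hlam, div_le_iff₀ hL]
    exact hκth
  have hlamδ : lam ≤ δ := by
    rw [hlam, div_le_iff₀ hL]
    exact hκδ
  have hth1 : th0 ≤ 1 / 12 := by
    unfold th0
    norm_num
  have hlam12 : lam ≤ 1 / 12 := hlam1.trans hth1
  have hL8 : 8 ≤ L := by
    have h1 : 1 ≤ th0 * L := hκ.trans hκth
    have h2 : th0 * L ≤ 1 / 12 * L := mul_le_mul_of_nonneg_right hth1 hL.le
    linarith
  have hlamL : lam * L = κ := by
    rw [hlam]
    field_simp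
  have hinv : 1 / L ≤ lam := by
    rw [hlam]
    exact div_le_div_of_nonneg_right hκ hL.le
  obtain ⟨K1, hK1a, hK1b⟩ : ∃ K1 : ℕ, C3 * κ ≤ K1 ∧ (K1 : ℝ) ≤ 2 * C3 * κ := by
    refine ⟨⌈C3 * κ⌉₊, Nat.le_ceil _, ?_⟩
    have h1 := (Nat.ceil_lt_add_one (show 0 ≤ C3 * κ by positivity)).le
    have h2 : 1 ≤ C3 * κ := one_le_mul_of_one_le_of_one_le hC3one hκ
    linarith
  set A : ℝ := 16 * 4096 ^ (2 * K1) with hA
  have hA0 : 0 < A := by positivity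
  have hQ9 : (0 : ℝ) ≤ (Q : ℝ) ^ 9 := by positivity
  have hQ8 : (Q : ℝ) ^ 8 + 1 ≤ (Q : ℝ) ^ 9 := by
    have h1 : (1 : ℝ) ≤ (Q : ℝ) ^ 8 := one_le_pow₀ (by linarith)
    have h2 : (Q : ℝ) ^ 9 = (Q : ℝ) ^ 8 * Q := by ring
    rw [h2]
    nlinarith
  have hQ10 : (Q : ℝ) ^ 9 ≤ (Q : ℝ) ^ 10 := pow_le_pow_right₀ (by linarith) (by norm_num)
  have key : ∀ p ∈ PC Q, ∑ ρ ∈ ZR (Lp p) (1 - lam) ((Q : ℝ) ^ 8), (od (Lp p) ρ : ℝ) ≤
      C1 * (lam * L) / (2 * lam) * ∫ v in (-(Q : ℝ) ^ 9)..((Q : ℝ) ^ 9),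
        A * ∑ k ∈ range (2 * K1), ‖PP (fun n => p.2 (n : ZMod p.1)) lam k K1 v‖ ^ 2 := by
    intro p hp
    have hD := hLD Q hQL p hp
    have hne : ∃ c, Lp p c ≠ 0 := ⟨2, fun h => absurd (hD.zre 2 h) (by norm_num)⟩
    have hmem : ∀ ρ ∈ ZR (Lp p) (1 - lam) ((Q : ℝ) ^ 8), Lp p ρ = 0 ∧ 1 - lam ≤ ρ.re ∧
        |ρ.im| ≤ (Q : ℝ) ^ 8 := by
      intro ρ hρ
      obtain ⟨h1, h2, -, h3⟩ := (mem_ZR hD.diff hne).1 hρ
      exact ⟨h1, h2, h3⟩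
    refine count_by_measure (ZR (Lp p) (1 - lam) ((Q : ℝ) ^ 8)) (fun ρ => ρ.im)
      (fun ρ => (od (Lp p) ρ : ℝ)) lam (-(Q : ℝ) ^ 9) ((Q : ℝ) ^ 9) (C1 * (lam * L)) _ hlam0
      (fun _ _ => Nat.cast_nonneg _) (by positivity) ?_ ?_ (by linarith) ?_ ?_ ?_ ?_
    · intro ρ hρ
      have h1 := (abs_le.1 (hmem ρ hρ).2.2).1
      show -(Q : ℝ) ^ 9 ≤ ρ.im - lam
      linarith
    · intro ρ hρ
      have h1 := (abs_le.1 (hmem ρ hρ).2.2).2
      show ρ.im + lam ≤ (Q : ℝ) ^ 9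
      linarith
    · intro v hv
      refine hbox L ((Q : ℝ) ^ 10) (Lp p) hL8 hD lam v hinv hlam12
        ((abs_le.2 ⟨hv.1, hv.2⟩).trans hQ10) _ ?_
      intro ρ hρ
      rw [mem_filter] at hρ
      exact ⟨(hmem ρ hρ.1).1, (hmem ρ hρ.1).2.1, hρ.2⟩
    · refine continuous_const.mul (continuous_finsetSum _ fun k _ => ?_)
      exact ((PP_continuous _ _ _ _).norm).pow 2
    · intro v
      exact mul_nonneg hA0.le (Finset.sum_nonneg fun _ _ => sq_nonneg _)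
    · rintro v hv ⟨ρ, hρ, hρv⟩
      obtain ⟨h1, h2, h3⟩ := hmem ρ hρ
      have hv9 : |v| ≤ (Q : ℝ) ^ 9 := abs_le.2 ⟨hv.1, hv.2⟩
      have hp0 : p = p0 → 1 / 2 ≤ |v| := by
        rintro rfl
        rw [Lp_p0] at h1
        have h4 : 1 < |ρ.im| := by
          by_contra h5
          push Not at h5
          have := hlow ρ (lab3_Z_zero ρ h1) h5
          linarith
        have h6 : |ρ.im| - |v| ≤ |ρ.im - v| := abs_sub_abs_le_abs_sub _ _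
        have h7 : |ρ.im - v| ≤ lam := hρv
        linarith
      obtain ⟨k, hk1, hk2, hk3⟩ := hdet Q hQd p hp κ v hκ hκth hv9 hp0 K1
        ((mul_le_mul_of_nonneg_right (le_max_left _ _) (by linarith)).trans hK1a)
        ⟨ρ, h1, h2, hρv⟩
      have h8 : 1 ≤ A * ‖PP (fun n => p.2 (n : ZMod p.1)) lam k K1 v‖ ^ 2 := by
        have h9 : (1 / 4 * (1 / 4096 : ℝ) ^ K1) ^ 2 ≤
            ‖PP (fun n => p.2 (n : ZMod p.1)) lam k K1 v‖ ^ 2 :=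
          pow_le_pow_left₀ (by positivity) hk3 2
        have h10 : A * (1 / 4 * (1 / 4096 : ℝ) ^ K1) ^ 2 = 1 := by
          have h11 : (4096 : ℝ) ^ K1 * (1 / 4096 : ℝ) ^ K1 = 1 := by
            rw [← mul_pow]
            norm_num
          calc A * (1 / 4 * (1 / 4096 : ℝ) ^ K1) ^ 2
              = ((4096 : ℝ) ^ K1 * (1 / 4096 : ℝ) ^ K1) ^ 2 := by
                rw [hA, two_mul, pow_add]
                ring
            _ = 1 := by rw [h11, one_pow]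
        calc (1 : ℝ) = A * (1 / 4 * (1 / 4096 : ℝ) ^ K1) ^ 2 := h10.symm
          _ ≤ _ := mul_le_mul_of_nonneg_left h9 hA0.le
      refine h8.trans (mul_le_mul_of_nonneg_left ?_ hA0.le)
      exact Finset.single_le_sum (f := fun k =>
        ‖PP (fun n => p.2 (n : ZMod p.1)) lam k K1 v‖ ^ 2) (fun _ _ => sq_nonneg _)
        (mem_range.2 (by omega))
  have hint : ∀ p ∈ PC Q, ∫ v in (-(Q : ℝ) ^ 9)..((Q : ℝ) ^ 9),
        A * ∑ k ∈ range (2 * K1), ‖PP (fun n => p.2 (n : ZMod p.1)) lam k K1 v‖ ^ 2 =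
      A * ∑ k ∈ range (2 * K1), ∫ v in (-(Q : ℝ) ^ 9)..((Q : ℝ) ^ 9),
        ‖PP (fun n => p.2 (n : ZMod p.1)) lam k K1 v‖ ^ 2 := by
    intro p _
    rw [intervalIntegral.integral_const_mul, intervalIntegral.integral_finsetSum]
    intro k _
    exact (((PP_continuous _ _ _ _).norm).pow 2).intervalIntegrable _ _
  have hsum : ∑ p ∈ PC Q, ∑ k ∈ range (2 * K1), ∫ v in (-(Q : ℝ) ^ 9)..((Q : ℝ) ^ 9),
        ‖PP (fun n => p.2 (n : ZMod p.1)) lam k K1 v‖ ^ 2 ≤ (2 * K1 : ℕ) * (Cm * lam) := by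
    rw [Finset.sum_comm]
    have h1 : ∀ k ∈ range (2 * K1), ∑ p ∈ PC Q, ∫ v in (-(Q : ℝ) ^ 9)..((Q : ℝ) ^ 9),
        ‖PP (fun n => p.2 (n : ZMod p.1)) lam k K1 v‖ ^ 2 ≤ Cm * lam := by
      intro k _
      exact hmean Q hQm κ hκ hκth K1
        ((mul_le_mul_of_nonneg_right (le_max_right _ _) (by linarith)).trans hK1a) k
    refine (Finset.sum_le_sum h1).trans (le_of_eq ?_)
    rw [Finset.sum_const, card_range, nsmul_eq_mul]
  have htot : ∑ p ∈ PC Q, ∑ ρ ∈ ZR (Lp p) (1 - lam) ((Q : ℝ) ^ 8), (od (Lp p) ρ : ℝ) ≤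
      C1 * (lam * L) / (2 * lam) * (A * ((2 * K1 : ℕ) * (Cm * lam))) := by
    refine (Finset.sum_le_sum key).trans ?_
    rw [← Finset.mul_sum, Finset.sum_congr rfl hint, ← Finset.mul_sum]
    refine mul_le_mul_of_nonneg_left ?_ (by positivity)
    exact mul_le_mul_of_nonneg_left hsum hA0.le
  refine htot.trans ?_
  have e1 : C1 * (lam * L) / (2 * lam) * (A * ((2 * K1 : ℕ) * (Cm * lam))) =
      C1 * Cm * κ * K1 * A := by
    push_cast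
    rw [← hlamL]
    field_simp
  rw [e1]
  have hA1 : A ≤ 16 * Real.exp (40 * C3 * κ) := by
    rw [hA]
    refine mul_le_mul_of_nonneg_left ?_ (by norm_num)
    have h1 : (4096 : ℝ) ≤ Real.exp 10 := by
      have h2 : Real.exp 10 = Real.exp 1 ^ 10 := by
        rw [← Real.exp_nat_mul]
        norm_num
      have h3 : (2.7 : ℝ) ≤ Real.exp 1 := by
        have := Real.exp_one_gt_d9
        linarith
      rw [h2]
      calc (4096 : ℝ) ≤ 2.7 ^ 10 := by norm_num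
        _ ≤ Real.exp 1 ^ 10 := pow_le_pow_left₀ (by norm_num) h3 10
    calc (4096 : ℝ) ^ (2 * K1) ≤ Real.exp 10 ^ (2 * K1) := pow_le_pow_left₀ (by norm_num) h1 _
      _ = Real.exp ((2 * K1 : ℕ) * 10) := by rw [← Real.exp_nat_mul]
      _ ≤ Real.exp (40 * C3 * κ) := by
        rw [Real.exp_le_exp]
        push_cast
        linarith
  have hκe : κ ≤ Real.exp κ := by
    have := Real.add_one_le_exp κ
    linarith
  have hκ0 : 0 ≤ κ := by linarith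
  calc C1 * Cm * κ * K1 * A ≤ C1 * Cm * κ * (2 * C3 * κ) * (16 * Real.exp (40 * C3 * κ)) := by
        apply mul_le_mul _ hA1 hA0.le (by positivity)
        exact mul_le_mul_of_nonneg_left hK1b (by positivity)
    _ = (32 * C1 * Cm * C3) * ((κ * κ) * Real.exp (40 * C3 * κ)) := by ring
    _ ≤ (32 * C1 * Cm * C3) * ((Real.exp κ * Real.exp κ) * Real.exp (40 * C3 * κ)) := by
        refine mul_le_mul_of_nonneg_left ?_ (by positivity)
        refine mul_le_mul_of_nonneg_right ?_ (Real.exp_nonneg _)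
        exact mul_le_mul hκe hκe hκ0 (Real.exp_nonneg _)
    _ = (32 * C1 * Cm * C3) * Real.exp ((40 * C3 + 2) * κ) := by
        rw [← Real.exp_add, ← Real.exp_add]
        congr 2
        ring
    _ ≤ (1 + 32 * C1 * Cm * C3 + 40 * C3 + 2) *
          Real.exp ((1 + 32 * C1 * Cm * C3 + 40 * C3 + 2) * κ) := by
        have h0 : 0 ≤ 32 * C1 * Cm * C3 := by positivity
        apply mul_le_mul _ _ (Real.exp_nonneg _) (by positivity)
        · linarith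
        · rw [Real.exp_le_exp]
          exact mul_le_mul_of_nonneg_right (by linarith) hκ0

/-- The crude count of the zeros with `Re ρ ≥ 7/8`, `|Im ρ| ≤ Q^8` of one function.

Proof: with `lam = 1/16`, `s₀ = 1 + lam + i v`: a zero `ρ` (`Re ρ < 1`) with `Re ρ ≥ 7/8` and
`|Im ρ - v| ≤ 1/8` has `|ρ - s₀| ≤ sqrt((3/16)² + (1/8)²) < 1/4`, so `(lam/|s₀ - ρ|)² ≥ 1/16`, and by
`ldat_sum` (`LDat_Lp`) there are, with multiplicity, at most `16 C1 lam log Q = C1 log Q` such zeros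
for each `v`, `|v| ≤ Q^10`. The points `v = j/8`, `j` an integer, `|j| ≤ 8 Q^8 + 1`, serve all zeros.
`(16 Q^8 + 3) C1 log Q ≤ Q^9` for `Q` large. -/
theorem zero_crude : ∃ K : ℝ, ∀ Q : ℕ, K ≤ Q → ∀ p ∈ PC Q,
    ∑ ρ ∈ ZR (Lp p) (1 - 1 / 8) ((Q : ℝ) ^ 8), (od (Lp p) ρ : ℝ) ≤ (Q : ℝ) ^ 9 := by
  obtain ⟨C0, KL, hC0, hLD⟩ := LDat_Lp
  obtain ⟨C1, hC1, hsum⟩ := ldat_sum C0 hC0
  refine ⟨max (max KL (Real.exp 16)) ((38 * C1) ^ 2), ?_⟩
  intro Q hQ p hp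
  have hQL : KL ≤ Q := ((le_max_left _ _).trans (le_max_left _ _)).trans hQ
  have hQe : Real.exp 16 ≤ Q := ((le_max_right _ _).trans (le_max_left _ _)).trans hQ
  have hQC : (38 * C1) ^ 2 ≤ Q := (le_max_right _ _).trans hQ
  have hQ0 : (0 : ℝ) < Q := (Real.exp_pos _).trans_le hQe
  set L : ℝ := Real.log Q with hLdef
  have hL16 : 16 ≤ L := by
    have := Real.log_le_log (Real.exp_pos _) hQe
    rwa [Real.log_exp] at this
  have hQ16 : (16 : ℝ) ≤ Q := by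
    have := Real.add_one_le_exp (16 : ℝ)
    linarith
  have hQ1 : (1 : ℝ) ≤ Q := by linarith
  have hD := hLD Q hQL p hp
  have hne : ∃ c, Lp p c ≠ 0 := ⟨2, fun h => absurd (hD.zre 2 h) (by norm_num)⟩
  set Z := ZR (Lp p) (1 - 1 / 8) ((Q : ℝ) ^ 8) with hZ
  have hmem : ∀ ρ ∈ Z, Lp p ρ = 0 ∧ 7 / 8 ≤ ρ.re ∧ ρ.re < 1 ∧ |ρ.im| ≤ (Q : ℝ) ^ 8 := by
    intro ρ hρ
    obtain ⟨h1, h2, -, h3⟩ := (mem_ZR hD.diff hne).1 hρ
    exact ⟨h1, by linarith, hD.zre ρ h1, h3⟩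
  set J : Finset ℤ := Icc (-(8 * (Q : ℤ) ^ 8 + 1)) (8 * (Q : ℤ) ^ 8 + 1) with hJ
  have hmaps : ∀ ρ ∈ Z, ⌊8 * ρ.im⌋ ∈ J := by
    intro ρ hρ
    have h1 := abs_le.1 (hmem ρ hρ).2.2.2
    have h2 := Int.floor_le (8 * ρ.im)
    have h3 := Int.lt_floor_add_one (8 * ρ.im)
    rw [hJ, mem_Icc]
    constructor
    · have h4 : (-(8 * (Q : ℝ) ^ 8 + 1)) ≤ (⌊8 * ρ.im⌋ : ℝ) := by linarith
      exact_mod_cast h4
    · have h4 : (⌊8 * ρ.im⌋ : ℝ) ≤ 8 * (Q : ℝ) ^ 8 + 1 := by linarith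
      exact_mod_cast h4
  rw [← Finset.sum_fiberwise_of_maps_to hmaps]
  have hT : (Q : ℝ) ^ 8 + 1 ≤ (Q : ℝ) ^ 10 := by
    have h1 : (1 : ℝ) ≤ (Q : ℝ) ^ 8 := one_le_pow₀ hQ1
    have h2 : (Q : ℝ) ^ 10 = (Q : ℝ) ^ 8 * Q ^ 2 := by ring
    have h3 : (2 : ℝ) ≤ (Q : ℝ) ^ 2 := by nlinarith
    have h4 := mul_le_mul_of_nonneg_left h3 (zero_le_one.trans h1)
    rw [h2]
    linarith
  have hcell : ∀ j ∈ J, ∑ ρ ∈ Z with ⌊8 * ρ.im⌋ = j, (od (Lp p) ρ : ℝ) ≤ C1 * L := by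
    intro j hj
    rw [hJ, mem_Icc] at hj
    have hj1 : (-(8 * (Q : ℝ) ^ 8 + 1)) ≤ (j : ℝ) := by exact_mod_cast hj.1
    have hj2 : (j : ℝ) ≤ 8 * (Q : ℝ) ^ 8 + 1 := by exact_mod_cast hj.2
    have hv : |(j : ℝ) / 8| ≤ (Q : ℝ) ^ 10 := by
      rw [abs_le]
      constructor <;> linarith
    have h1 := hsum L ((Q : ℝ) ^ 10) (Lp p) (by linarith) hD (1 / 16) ((j : ℝ) / 8)
      (by rw [div_le_div_iff₀ (by linarith) (by norm_num)]; linarith) (by norm_num) hv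
    set s₀ : ℂ := 1 + ((1 / 16 : ℝ) : ℂ) + (((j : ℝ) / 8 : ℝ) : ℂ) * Complex.I with hs₀
    have hgeo : ∀ ρ ∈ Z.filter (fun ρ => ⌊8 * ρ.im⌋ = j), 1 / 16 ≤ ‖s₀ - ρ‖ ∧ ‖s₀ - ρ‖ ≤ 1 / 4 := by
      intro ρ hρ
      rw [mem_filter] at hρ
      obtain ⟨-, h2, h3, -⟩ := hmem ρ hρ.1
      have h4 := Int.floor_le (8 * ρ.im)
      have h5 := Int.lt_floor_add_one (8 * ρ.im)
      rw [hρ.2] at h4 h5
      have hre : (s₀ - ρ).re = 1 + 1 / 16 - ρ.re := by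
        rw [hs₀]
        simp
      have him : (s₀ - ρ).im = j / 8 - ρ.im := by
        rw [hs₀]
        simp
      constructor
      · refine le_trans ?_ (Complex.abs_re_le_norm _)
        rw [hre]
        exact le_trans (by linarith) (le_abs_self _)
      · refine abs_le_of_sq_le_sq' ?_ (by norm_num) |>.2
        rw [← Complex.normSq_eq_norm_sq, Complex.normSq_apply, hre, him]
        have h6 : (j : ℝ) / 8 - ρ.im ≤ 0 := by linarith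
        have h7 : -(1 / 8) ≤ (j : ℝ) / 8 - ρ.im := by linarith
        nlinarith
    have hsub : Z.filter (fun ρ => ⌊8 * ρ.im⌋ = j) ⊆ ZD (Lp p) s₀ (1 / 4) := by
      intro ρ hρ
      rw [mem_ZD hD.diff hne, ← norm_neg, neg_sub]
      exact ⟨(hmem ρ (mem_filter.1 hρ).1).1, (hgeo ρ hρ).2⟩
    have h2 : ∑ ρ ∈ Z.filter (fun ρ => ⌊8 * ρ.im⌋ = j), (od (Lp p) ρ : ℝ) * (1 / 16) ≤
        ∑ ρ ∈ ZD (Lp p) s₀ (1 / 4), (od (Lp p) ρ : ℝ) * ((1 / 16 : ℝ) / ‖s₀ - ρ‖) ^ 2 := by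
      refine (Finset.sum_le_sum fun ρ hρ => ?_).trans
        (Finset.sum_le_sum_of_subset_of_nonneg hsub fun _ _ _ => by positivity)
      refine mul_le_mul_of_nonneg_left ?_ (Nat.cast_nonneg _)
      obtain ⟨h3, h4⟩ := hgeo ρ hρ
      have h5 : 0 < ‖s₀ - ρ‖ := by linarith
      have h6 : (1 / 4 : ℝ) ≤ (1 / 16 : ℝ) / ‖s₀ - ρ‖ := by
        rw [le_div_iff₀ h5]
        linarith
      calc (1 / 16 : ℝ) = (1 / 4) ^ 2 := by norm_num
        _ ≤ _ := pow_le_pow_left₀ (by norm_num) h6 2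
    rw [← Finset.sum_mul] at h2
    have h3 := h2.trans h1
    linarith
  refine (Finset.sum_le_sum hcell).trans ?_
  rw [Finset.sum_const, nsmul_eq_mul]
  have hcard : ((J.card : ℕ) : ℝ) ≤ 19 * (Q : ℝ) ^ 8 := by
    have h1 : ((J.card : ℕ) : ℤ) = 16 * (Q : ℤ) ^ 8 + 3 := by
      rw [hJ, Int.card_Icc]
      have : (0 : ℤ) ≤ (Q : ℤ) ^ 8 := by positivity
      rw [Int.toNat_of_nonneg (by linarith)]
      ring
    have h2 : ((J.card : ℕ) : ℝ) = 16 * (Q : ℝ) ^ 8 + 3 := by exact_mod_cast h1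
    have h3 : (1 : ℝ) ≤ (Q : ℝ) ^ 8 := one_le_pow₀ hQ1
    linarith
  have hlog : L ≤ 2 * Real.sqrt Q := by
    have h1 : L = 2 * Real.log (Real.sqrt Q) := by
      rw [Real.log_sqrt hQ0.le]
      ring
    have h2 := Real.log_le_sub_one_of_pos (Real.sqrt_pos.2 hQ0)
    linarith
  have hsq : 38 * C1 ≤ Real.sqrt Q := Real.le_sqrt_of_sq_le hQC
  have hss : Real.sqrt Q * Real.sqrt Q = Q := Real.mul_self_sqrt hQ0.le
  have hfin : 19 * (C1 * L) ≤ Q := by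
    have h1 : 0 ≤ Real.sqrt Q := Real.sqrt_nonneg _
    calc 19 * (C1 * L) ≤ 19 * (C1 * (2 * Real.sqrt Q)) := by
          refine mul_le_mul_of_nonneg_left ?_ (by norm_num)
          exact mul_le_mul_of_nonneg_left hlog (by linarith)
      _ = (38 * C1) * Real.sqrt Q := by ring
      _ ≤ Real.sqrt Q * Real.sqrt Q := mul_le_mul_of_nonneg_right hsq h1
      _ = Q := hss
  calc ((J.card : ℕ) : ℝ) * (C1 * L) ≤ 19 * (Q : ℝ) ^ 8 * (C1 * L) :=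
        mul_le_mul_of_nonneg_right hcard (by positivity)
    _ = (Q : ℝ) ^ 8 * (19 * (C1 * L)) := by ring
    _ ≤ (Q : ℝ) ^ 8 * Q := mul_le_mul_of_nonneg_left hfin (by positivity)
    _ = (Q : ℝ) ^ 9 := by ring

end Pool.Agent.Lib.H18Q
end
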