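import Pool.Agent.Lib.H1M.RV.M008
import Pool.Agent.Lib.H1M.RV.M015
import Pool.Agent.Lib.H1M.RV.M018
import Pool.Agent.Lib.H1M.RV.M025
import Pool.Agent.Lib.H1M.RV.M027
import Pool.Agent.Lib.H1M.RV.M031
import Pool.Agent.Lib.H1M.RV.M037
import Pool.Agent.Lib.H1M.RV.M038
import Pool.Agent.Lib.H1M.RV.M064

/-! Merged copies (to shorten the build) of Lib.H18GB.UAux, Lib.H18Q.PDefs, Lib.H18Q.PF, Lib.H18Q.PB2, Lib.H18Q.PC1, Lib.H18GB.V1. -/

-- from Lib.H18GB.UAux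
section

/-!
# Project GB: auxiliary lemmas for the assembly of U
-/

namespace Pool.Agent.Lib.H18GB

open Finset Pool.Agent.Lib.Sieve

/-- the twisted correlation sum -/
noncomputable def Sfg (M : ℕ) (H : Finset ℤ) (c : ℤ → ℂ) (θ : ℤ → ℝ) (f g : ℤ → ℂ) : ℂ :=
  ∑ h ∈ H, c h * ∑ n ∈ Finset.Ico (0 : ℤ) M, f n * g (n + h) * e (θ h * n)

theorem Sfg_congr {M : ℕ} {H : Finset ℤ} {c : ℤ → ℂ} {θ : ℤ → ℝ} {f f' g : ℤ → ℂ}
    (h : ∀ n ∈ Finset.Ico (0 : ℤ) M, f n = f' n) : Sfg M H c θ f g = Sfg M H c θ f' g := by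
  unfold Sfg
  refine Finset.sum_congr rfl fun i _ => ?_
  congr 1
  exact Finset.sum_congr rfl fun n hn => by rw [h n hn]

theorem Sfg_add (M : ℕ) (H : Finset ℤ) (c : ℤ → ℂ) (θ : ℤ → ℝ) (f f' g : ℤ → ℂ) :
    Sfg M H c θ (fun n => f n + f' n) g = Sfg M H c θ f g + Sfg M H c θ f' g := by
  unfold Sfg
  rw [← Finset.sum_add_distrib]
  refine Finset.sum_congr rfl fun i _ => ?_
  rw [← mul_add, ← Finset.sum_add_distrib]
  congr 1
  exact Finset.sum_congr rfl fun n _ => by ring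

theorem Sfg_const_mul (M : ℕ) (H : Finset ℤ) (c : ℤ → ℂ) (θ : ℤ → ℝ) (a : ℂ) (f g : ℤ → ℂ) :
    Sfg M H c θ (fun n => a * f n) g = a * Sfg M H c θ f g := by
  unfold Sfg
  rw [Finset.mul_sum]
  refine Finset.sum_congr rfl fun i _ => ?_
  rw [mul_left_comm]
  congr 1
  rw [Finset.mul_sum]
  exact Finset.sum_congr rfl fun n _ => by ring

theorem Sfg_sum {ι : Type*} (s : Finset ι) (M : ℕ) (H : Finset ℤ) (c : ℤ → ℂ) (θ : ℤ → ℝ)
    (f : ι → ℤ → ℂ) (g : ℤ → ℂ) :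
    Sfg M H c θ (fun n => ∑ i ∈ s, f i n) g = ∑ i ∈ s, Sfg M H c θ (f i) g := by
  unfold Sfg
  rw [Finset.sum_comm]
  refine Finset.sum_congr rfl fun i _ => ?_
  rw [← Finset.mul_sum, Finset.sum_comm]
  congr 1
  refine Finset.sum_congr rfl fun n _ => ?_
  rw [Finset.sum_mul, Finset.sum_mul]

theorem Sfg_sub_right (M : ℕ) (H : Finset ℤ) (c : ℤ → ℂ) (θ : ℤ → ℝ) (f g g' : ℤ → ℂ) :
    Sfg M H c θ f g = Sfg M H c θ f g' + Sfg M H c θ f (fun n => g n - g' n) := by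
  unfold Sfg
  rw [← Finset.sum_add_distrib]
  refine Finset.sum_congr rfl fun i _ => ?_
  rw [← mul_add, ← Finset.sum_add_distrib]
  congr 1
  exact Finset.sum_congr rfl fun n _ => by ring

/-- trivial bound -/
theorem Sfg_le_l1 {M : ℕ} {H : Finset ℤ} {c : ℤ → ℂ} {θ : ℤ → ℝ} {f g : ℤ → ℂ}
    (hc : ∀ h, ‖c h‖ ≤ 1) (hg : SuppIn 0 M g) :
    ‖Sfg M H c θ f g‖ ≤
      (∑ n ∈ Finset.Ico (0 : ℤ) M, ‖f n‖) * ∑ n ∈ Finset.Ico (0 : ℤ) M, ‖g n‖ := by
  unfold Sfg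
  calc ‖∑ h ∈ H, c h * ∑ n ∈ Finset.Ico (0 : ℤ) M, f n * g (n + h) * e (θ h * n)‖
      ≤ ∑ h ∈ H, ∑ n ∈ Finset.Ico (0 : ℤ) M, ‖f n‖ * ‖g (n + h)‖ := by
        refine (norm_sum_le _ _).trans (Finset.sum_le_sum fun h _ => ?_)
        rw [norm_mul]
        refine (mul_le_of_le_one_left (norm_nonneg _) (hc h)).trans ?_
        refine (norm_sum_le _ _).trans (Finset.sum_le_sum fun n _ => ?_)
        rw [norm_mul, norm_mul, norm_e, mul_one]
    _ = ∑ n ∈ Finset.Ico (0 : ℤ) M, ‖f n‖ * ∑ h ∈ H, ‖g (n + h)‖ := by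
        rw [Finset.sum_comm]
        exact Finset.sum_congr rfl fun n _ => by rw [Finset.mul_sum]
    _ ≤ ∑ n ∈ Finset.Ico (0 : ℤ) M, ‖f n‖ * ∑ m ∈ Finset.Ico (0 : ℤ) M, ‖g m‖ := by
        refine Finset.sum_le_sum fun n _ => mul_le_mul_of_nonneg_left ?_ (norm_nonneg _)
        have h1 : ∑ h ∈ H, ‖g (n + h)‖ = ∑ m ∈ H.map (addLeftEmbedding n), ‖g m‖ := by
          rw [Finset.sum_map]
          rfl
        rw [h1]
        have h2 : ∑ m ∈ H.map (addLeftEmbedding n), ‖g m‖ =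
            ∑ m ∈ (H.map (addLeftEmbedding n)).filter (fun m => m ∈ Finset.Ico (0 : ℤ) M), ‖g m‖ := by
          rw [Finset.sum_filter_of_ne]
          intro m _ hm
          by_contra h
          exact hm (by rw [hg m h, norm_zero])
        rw [h2]
        exact Finset.sum_le_sum_of_subset_of_nonneg
          (fun m hm => (Finset.mem_filter.mp hm).2) fun _ _ _ => norm_nonneg _
    _ = _ := by rw [Finset.sum_mul]

end Pool.Agent.Lib.H18GB
end

-- from Lib.H18Q.PDefs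
section

/-!
# Project H18Q: definitions for module P
-/

open Finset

namespace Pool.Agent.Lib.H18Q

open Pool.Agent.Lib.H68T

noncomputable section

/-- The order of the derivative: `⌊log X / 64⌋`. -/
def kX (X : ℕ) : ℕ := ⌊Real.log X / 64⌋₊

/-- The Gamma density `(1/64)^(k+1) u^k e^(-u/64)/k!`. -/
def Wd (k : ℕ) (u : ℝ) : ℝ :=
  (1 / 64 : ℝ) ^ (k + 1) * u ^ k / (k.factorial : ℝ) * Real.exp (-(u / 64))

/-- The weighted series `∑ Λ(n) c(n) n^(-iv) Jk(1/64, k, n)`. -/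
def Pk (c : ℕ → ℂ) (k : ℕ) (v : ℝ) : ℂ :=
  ∑' n : ℕ, ((ArithmeticFunction.vonMangoldt n * Jk (1 / 64) k n : ℝ) : ℂ) * c n *
    (n : ℂ) ^ (-(v * Complex.I))

/-- The main term `((1/64)/(1/64 + 1 - b + iv))^(k+1)`. -/
def Mk (b : ℝ) (k : ℕ) (v : ℝ) : ℂ :=
  ((1 / 64 : ℝ) / ((1 / 64 + 1 - b : ℝ) + v * Complex.I) : ℂ) ^ (k + 1)

/-- The smooth main term `∫ w(u - log X) e^(-(1 - b + it) u) du`. -/
def Mb (X : ℕ) (b t : ℝ) : ℂ :=
  ∫ u : ℝ, (w (u - Real.log X) : ℂ) * Complex.exp (-((1 - b : ℝ) + t * Complex.I) * u)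

/-- A family of entire functions attached to the primitive characters of conductor at most `Q`,
with growth data, whose zeros are among those of the L-functions. -/
structure Fam (C0 : ℝ) (Q : ℕ) (g : (Σ r : ℕ, DirichletCharacter ℂ r) → ℂ → ℂ) : Prop where
  dat : ∀ p ∈ PC Q, LDat C0 (Real.log Q) ((Q : ℝ) ^ 10) (g p)
  zer : ∀ p ∈ PC Q, ∀ ρ, g p ρ = 0 → Lp p ρ = 0
  ord : ∀ p ∈ PC Q, ∀ ρ, od (g p) ρ ≤ od (Lp p) ρ

end

end Pool.Agent.Lib.H18Q
end

-- from Lib.H18Q.PF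
section

/-!
# Project H18Q, chunk PF: the smooth main terms
-/

open Finset

namespace Pool.Agent.Lib.H18Q

open Pool.Agent.Lib.H68T

theorem pf_sum_int {A M t : ℝ} {O O1 O2 : ℝ → ℝ} (h : XFB_Amp A M O O1 O2) (hM : 0 ≤ M)
    (_hA : 0 < A) (N N0 : ℕ) (hN : A + 6 < Real.log N) (hN0 : 1 ≤ N0) (hAN : Real.log N0 < A) :
    ‖∑ n ∈ Icc 1 N, XFB_W O t (n:ℝ) - ∫ u in (1:ℝ)..(N : ℝ), XFB_W O t u‖ ≤
      M * (2 + |t|) * (2 / N0) := by
  have hNpos : 1 ≤ N := by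
    rcases Nat.eq_zero_or_pos N with h0 | h0
    · rw [h0] at hN; simp at hN; linarith
    · exact h0
  have hzero : ∀ u : ℝ, 1 ≤ u → u ≤ N0 → XFB_W O t u = 0 := by
    intro u hu hu'
    unfold XFB_W
    rw [h.z0 _ (by
      rw [Set.mem_Icc]
      intro h'
      have := Real.log_le_log (by linarith) hu'
      linarith [h'.1])]
    simp
  have hNN : N0 ≤ N := by
    by_contra hc
    push Not at hc
    have : Real.log N ≤ Real.log N0 := Real.log_le_log (by exact_mod_cast hNpos)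
      (by exact_mod_cast hc.le)
    linarith
  have hW1 : XFB_W O t ((1 : ℕ) : ℝ) = 0 := hzero _ (by simp) (by exact_mod_cast hN0)
  have hint : ∀ N : ℕ, 1 ≤ N → ∫ u in (1:ℝ)..(N:ℝ), XFB_W O t u =
      ∑ n ∈ Ico 1 N, ∫ u in (n:ℝ)..((n + 1 : ℕ) : ℝ), XFB_W O t u := by
    intro N hN
    induction N, hN using Nat.le_induction with
    | base => simp
    | succ N hN ih =>
      rw [sum_Ico_succ_top hN, ← ih, intervalIntegral.integral_add_adjacent_intervals]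
      · exact XFB_W_ii O h.c0 t 1 N one_pos (by exact_mod_cast hN)
      · exact XFB_W_ii O h.c0 t N _ (by exact_mod_cast hN) (by push_cast; linarith)
  have hsum : ∀ N : ℕ, 1 ≤ N → ∑ n ∈ Icc 1 N, XFB_W O t (n:ℝ) =
      ∑ n ∈ Ico 1 N, XFB_W O t ((n + 1 : ℕ) : ℝ) := by
    intro N hN
    induction N, hN using Nat.le_induction with
    | base => simpa using hW1
    | succ N hN ih =>
      rw [sum_Ico_succ_top hN, ← ih, sum_Icc_succ_top (by omega)]
  have hdiff : ‖∑ n ∈ Icc 1 N, XFB_W O t (n:ℝ) - ∫ u in (1:ℝ)..(N : ℝ), XFB_W O t u‖ ≤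
      M * (2 + |t|) * (2 / N0) := by
    rw [hint _ hNpos, hsum _ hNpos, ← sum_sub_distrib]
    have hz : ∑ n ∈ Ico 1 N, (XFB_W O t ((n + 1 : ℕ) : ℝ) -
        ∫ u in (n:ℝ)..((n + 1 : ℕ) : ℝ), XFB_W O t u) =
        ∑ n ∈ Ico N0 N, (XFB_W O t ((n + 1 : ℕ) : ℝ) -
        ∫ u in (n:ℝ)..((n + 1 : ℕ) : ℝ), XFB_W O t u) := by
      symm
      apply sum_subset
      · intro n hn
        rw [mem_Ico] at hn ⊢
        exact ⟨le_trans hN0 hn.1, hn.2⟩
      · intro n hn hn'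
        rw [mem_Ico] at hn
        rw [mem_Ico, not_and] at hn'
        have hlt : n < N0 := by
          by_contra h
          exact hn' (not_lt.mp h) hn.2
        have hlt' : ((n + 1 : ℕ) : ℝ) ≤ (N0:ℝ) := by exact_mod_cast hlt
        have z2 : XFB_W O t ((n + 1 : ℕ) : ℝ) = 0 := hzero _ (by push_cast; linarith) hlt'
        rw [z2, zero_sub, neg_eq_zero]
        rw [intervalIntegral.integral_congr (g := fun _ => (0:ℂ))]
        · simp
        · intro u hu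
          rw [Set.uIcc_of_le (by push_cast; linarith)] at hu
          have hn1 : (1:ℝ) ≤ n := by exact_mod_cast hn.1
          exact hzero _ (by linarith [hu.1]) (hu.2.trans hlt')
    rw [hz]
    have hterm : ∀ n ∈ Ico N0 N, ‖XFB_W O t ((n + 1 : ℕ) : ℝ) -
        ∫ u in (n:ℝ)..((n + 1 : ℕ) : ℝ), XFB_W O t u‖ ≤ M * (2 + |t|) * (1 / (n : ℝ) ^ 2) := by
      intro n hn
      rw [mem_Ico] at hn
      have hn1 : 1 ≤ n := le_trans hN0 hn.1
      have hn1' : (1:ℝ) ≤ n := by exact_mod_cast hn1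
      have hle : (n:ℝ) ≤ ((n + 1 : ℕ) : ℝ) := by push_cast; linarith
      have h5 : (((n + 1 : ℕ) : ℝ) - n) = 1 := by push_cast; ring
      have hconst : XFB_W O t ((n + 1 : ℕ) : ℝ) =
          ∫ u in (n:ℝ)..((n + 1 : ℕ) : ℝ), XFB_W O t ((n + 1 : ℕ) : ℝ) := by
        rw [intervalIntegral.integral_const, h5, one_smul]
      rw [hconst, ← intervalIntegral.integral_sub (by simp)
        (XFB_W_ii O h.c0 t n _ (by linarith) hle)]
      have := intervalIntegral.norm_integral_le_of_norm_le_const (a := (n:ℝ))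
        (b := ((n + 1 : ℕ) : ℝ)) (C := M * (2 + |t|) * (1 / (n : ℝ) ^ 2))
        (f := fun u => XFB_W O t ((n + 1 : ℕ) : ℝ) - XFB_W O t u) ?_
      · rw [h5, abs_one, mul_one] at this
        exact this
      · intro u hu
        rw [Set.uIoc_of_le hle] at hu
        have hu1 : 1 ≤ u := by linarith [hu.1]
        refine (XFB_diff h hM t u ((n + 1 : ℕ) : ℝ) hu1 hu.2).trans ?_
        have h7 : (((n + 1 : ℕ) : ℝ) - u) / u ^ 2 ≤ 1 / (n:ℝ) ^ 2 := by
          apply div_le_div₀ zero_le_one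
          · have := hu.1; push_cast; linarith
          · positivity
          · exact pow_le_pow_left₀ (by linarith) hu.1.le 2
        have := abs_nonneg t
        exact mul_le_mul_of_nonneg_left h7 (by positivity)
    refine (norm_sum_le _ _).trans ((sum_le_sum hterm).trans ?_)
    rw [← mul_sum]
    have := abs_nonneg t
    exact mul_le_mul_of_nonneg_left (LONG_sum_inv_sq N0 N hN0) (by positivity)
  exact hdiff

/-- The integral `Mb` over the support. -/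
theorem pf_Mb (X : ℕ) (hX : 8 ≤ X) (b t : ℝ) :
    Mb X b t = ∫ y in (0:ℝ)..Real.log ((60 * X : ℕ) : ℝ),
      (XFB_O (-Real.log X) b y : ℂ) * Complex.exp (-(t * Complex.I) * y) := by
  have hX0 : (0:ℝ) < X := by
    have : 0 < X := by omega
    exact_mod_cast this
  have hX8 : (8:ℝ) ≤ X := by exact_mod_cast hX
  have hexp2 : Real.exp 2 ≤ 8 := by
    have h2 : Real.exp 2 = (Real.exp 1) ^ 2 := by rw [← Real.exp_nat_mul]; norm_num
    rw [h2]
    have h1 := Real.exp_one_lt_d9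
    calc (Real.exp 1) ^ 2 ≤ (2.7182818286:ℝ) ^ 2 := pow_le_pow_left₀ (Real.exp_pos 1).le h1.le 2
      _ ≤ 8 := by norm_num
  have hlX : 2 ≤ Real.log X := (Real.le_log_iff_exp_le hX0).mpr (hexp2.trans hX8)
  have hl60 : (4:ℝ) < Real.log 60 := by
    rw [Real.lt_log_iff_exp_lt (by norm_num)]
    have : Real.exp 4 = (Real.exp 1) ^ 4 := by
      rw [← Real.exp_nat_mul]; norm_num
    rw [this]
    have h1 := Real.exp_one_lt_d9
    calc (Real.exp 1) ^ 4 ≤ (2.7182818286:ℝ) ^ 4 :=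
          pow_le_pow_left₀ (Real.exp_pos 1).le h1.le 4
      _ < 60 := by norm_num
  have hlN : Real.log X + 4 < Real.log ((60 * X : ℕ) : ℝ) := by
    push_cast
    rw [Real.log_mul (by norm_num) hX0.ne']
    linarith
  have hpt : ∀ y : ℝ, (w (y - Real.log X) : ℂ) *
      Complex.exp (-((1 - b : ℝ) + t * Complex.I) * y) =
      (XFB_O (-Real.log X) b y : ℂ) * Complex.exp (-(t * Complex.I) * y) := by
    intro y
    unfold XFB_O
    rw [← sub_eq_add_neg]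
    push_cast
    rw [mul_assoc, ← Complex.exp_add]
    congr 2
    ring
  have hz : ∀ y : ℝ, y ∉ Set.Ioc 0 (Real.log ((60 * X : ℕ) : ℝ)) →
      w (y - Real.log X) = 0 := by
    intro y hy
    rw [Set.mem_Ioc, not_and_or, not_lt, not_le] at hy
    unfold w
    rcases hy with hy | hy
    · rw [Real.smoothTransition.zero_of_nonpos (by linarith), zero_mul]
    · rw [Real.smoothTransition.zero_of_nonpos (x := 4 - (y - Real.log X)) (by linarith), mul_zero]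
  unfold Mb
  rw [intervalIntegral.integral_of_le (by linarith)]
  rw [← MeasureTheory.setIntegral_eq_integral_of_forall_compl_eq_zero
    (s := Set.Ioc 0 (Real.log ((60 * X : ℕ) : ℝ)))]
  · exact MeasureTheory.setIntegral_congr_fun measurableSet_Ioc (fun y _ => hpt y)
  · intro y hy
    rw [hz y hy]
    simp

theorem PF_F0 (X : ℕ) (t : ℝ) : F0 X t = Fb X 1 t := by
  unfold F0 Fb
  congr 1
  funext m
  simp

/-- Sum and integral: `|Fb X b t - Mb X b t| ≤ C (1 + |t|)/X` for `1/2 ≤ b ≤ 1`, `X` large.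

Proof. `Fb X b t = ∑_{m ≤ 60 X} φ(m)`, `φ(x) = w(log x - log X) x^(b - 2 - it)`, and substituting
`x = e^u`, `Mb X b t = ∫_0^∞ φ(x) dx = ∫_{X/e²}^{e⁴ X} φ`. `|φ'(x)| ≤ C (1 + |t|) x^(b-3) ≤
C (1+|t|) x^(-2)`. `|∑_{m ∈ (A, B]} φ(m) - ∫_A^B φ| ≤ ∫_A^B |φ'| ≤ C (1+|t|)/A` with `A = ⌊X/8⌋ - 1`
(`φ = 0` below, as `e² < 7.4`), `B = 60 X`. The lemmas `XFB_W`, `XFB_diff`, `XFB_subst`, `XFB_eq` of
`H68X/XFB` do exactly this. -/
theorem PF_main : ∃ C K : ℝ, 0 < C ∧ ∀ X : ℕ, K ≤ X → ∀ b t : ℝ, 1 / 2 ≤ b → b ≤ 1 →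
    ‖Fb X b t - Mb X b t‖ ≤ C * (1 + |t|) / X := by
  obtain ⟨M, hM, hamp⟩ := XFB_amp
  refine ⟨40 * (M + 1), 100, by positivity, fun X hXK b t hb hb1 => ?_⟩
  have hX100 : (100:ℝ) ≤ X := hXK
  have hXn : 100 ≤ X := by exact_mod_cast hX100
  have hX0 : (0:ℝ) < X := by linarith
  rw [XFB_eq X b t (by omega), pf_Mb X (by omega) b t]
  have hexp2 : Real.exp 2 ≤ 8 := by
    have h2 : Real.exp 2 = (Real.exp 1) ^ 2 := by rw [← Real.exp_nat_mul]; norm_num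
    rw [h2]
    have h1 := Real.exp_one_lt_d9
    calc (Real.exp 1) ^ 2 ≤ (2.7182818286:ℝ) ^ 2 := pow_le_pow_left₀ (Real.exp_pos 1).le h1.le 2
      _ ≤ 8 := by norm_num
  have hlX : 3 ≤ Real.log X := by
    have h1 : Real.exp 3 ≤ 100 := by
      have h2 : Real.exp 3 = (Real.exp 1) ^ 3 := by rw [← Real.exp_nat_mul]; norm_num
      rw [h2]
      have h1 := Real.exp_one_lt_d9
      calc (Real.exp 1) ^ 3 ≤ (2.7182818286:ℝ) ^ 3 := pow_le_pow_left₀ (Real.exp_pos 1).le h1.le 3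
        _ ≤ 100 := by norm_num
    exact (Real.le_log_iff_exp_le hX0).mpr (h1.trans hX100)
  have hA := hamp (-Real.log X) b (by linarith) hb hb1
  rw [neg_neg] at hA
  have hN01 : 1 ≤ X / 9 := by omega
  have hN0' : ((X / 9 : ℕ) : ℝ) ≤ X / 9 := by exact_mod_cast Nat.cast_div_le
  have hN0'' : (X : ℝ) / 10 ≤ ((X / 9 : ℕ) : ℝ) := by
    have h1 : X < (X / 9 + 1) * 9 := by omega
    have h2 : (X : ℝ) < (((X / 9 : ℕ) : ℝ) + 1) * 9 := by exact_mod_cast h1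
    linarith
  have hN00 : (0:ℝ) < ((X / 9 : ℕ) : ℝ) := by exact_mod_cast hN01
  have hlN0 : Real.log ((X / 9 : ℕ) : ℝ) < Real.log X - 2 := by
    have h1 : Real.log ((X / 9 : ℕ) : ℝ) ≤ Real.log (X / 9) := Real.log_le_log hN00 hN0'
    rw [Real.log_div hX0.ne' (by norm_num)] at h1
    have h2 : 2 < Real.log 9 := by
      rw [Real.lt_log_iff_exp_lt (by norm_num)]; linarith
    linarith
  have hlN : Real.log X - 2 + 6 < Real.log ((60 * X : ℕ) : ℝ) := by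
    push_cast
    rw [Real.log_mul (by norm_num) hX0.ne']
    have hlog60 : (4:ℝ) < Real.log 60 := by
      rw [Real.lt_log_iff_exp_lt (by norm_num)]
      have : Real.exp 4 = (Real.exp 1) ^ 4 := by
        rw [← Real.exp_nat_mul]; norm_num
      rw [this]
      have h1 := Real.exp_one_lt_d9
      calc (Real.exp 1) ^ 4 ≤ (2.7182818286:ℝ) ^ 4 :=
            pow_le_pow_left₀ (Real.exp_pos 1).le h1.le 4
        _ < 60 := by norm_num
    linarith
  have hmain := pf_sum_int (t := t) hA hM (by linarith) (60 * X) (X / 9) hlN hN01 hlN0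
  have h60 : (1:ℝ) ≤ ((60 * X : ℕ) : ℝ) := by
    have : 1 ≤ 60 * X := by omega
    exact_mod_cast this
  rw [XFB_subst _ hA.c0 t _ h60] at hmain
  refine hmain.trans ?_
  have ht := abs_nonneg t
  calc M * (2 + |t|) * (2 / ((X / 9 : ℕ) : ℝ)) ≤ (M + 1) * (2 * (1 + |t|)) * (20 / X) := by
        apply mul_le_mul _ _ (by positivity) (by positivity)
        · nlinarith
        · rw [div_le_div_iff₀ hN00 hX0]
          linarith
    _ = 40 * (M + 1) * (1 + |t|) / X := by ring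

end Pool.Agent.Lib.H18Q
end

-- from Lib.H18Q.PB2
section

/-!
# Project H18Q, chunk PB2: the quotient of the bump by the Gamma density
-/

open Finset

namespace Pool.Agent.Lib.H18Q

open Pool.Agent.Lib.H68T

/-- One step: a smooth function vanishing outside `[a, b]`. -/
theorem pb2_step (g : ℝ → ℝ) (a b : ℝ) (hg : ContDiff ℝ (⊤ : ℕ∞) g)
    (hz : ∀ y, y ∉ Set.Icc a b → g y = 0) :
    (∀ y, HasDerivAt g (deriv g y) y) ∧ ContDiff ℝ (⊤ : ℕ∞) (deriv g) ∧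
    (∀ y, y ∉ Set.Icc a b → deriv g y = 0) ∧ ∃ M : ℝ, ∀ y, |g y| ≤ M := by
  obtain ⟨h1, h2⟩ := contDiff_infty_iff_deriv.mp hg
  have hsup : Function.support g ⊆ Set.Icc a b := by
    intro y hy
    by_contra h
    exact hy (hz y h)
  have hts : tsupport g ⊆ Set.Icc a b := closure_minimal hsup isClosed_Icc
  refine ⟨fun y => (h1 y).hasDerivAt, h2, ?_, ?_⟩
  · intro y hy
    by_contra h
    exact hy (hts (support_deriv_subset h))
  · have hc : HasCompactSupport g := isCompact_Icc.of_isClosed_subset (isClosed_tsupport _) hts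
    obtain ⟨C, hC⟩ := hc.exists_bound_of_continuous hg.continuous
    exact ⟨C, hC⟩

/-- Three derivatives of `w`: explicit functions, continuous, bounded, zero outside `[-2, 4]`
(`w` is smooth: `Real.smoothTransition.contDiff`; it vanishes outside `[-2, 4]`, so its derivatives
do; take `iteratedDeriv j w`; see `XFB_amp` in `H68X/XFB` for two derivatives). -/
theorem PB2_w : ∃ (w1 w2 w3 : ℝ → ℝ) (M : ℝ), 1 ≤ M ∧ (∀ y, HasDerivAt w (w1 y) y) ∧
    (∀ y, HasDerivAt w1 (w2 y) y) ∧ (∀ y, HasDerivAt w2 (w3 y) y) ∧ Continuous w3 ∧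
    (∀ y, y ∉ Set.Icc (-2 : ℝ) 4 → w y = 0 ∧ w1 y = 0 ∧ w2 y = 0 ∧ w3 y = 0) ∧
    ∀ y, |w y| ≤ M ∧ |w1 y| ≤ M ∧ |w2 y| ≤ M ∧ |w3 y| ≤ M := by
  have hw : ContDiff ℝ (⊤ : ℕ∞) w := by
    unfold w
    have h1 : ContDiff ℝ (⊤ : ℕ∞) (fun y : ℝ => Real.smoothTransition (y + 2)) :=
      Real.smoothTransition.contDiff.comp (contDiff_id.add contDiff_const)
    have h2 : ContDiff ℝ (⊤ : ℕ∞) (fun y : ℝ => Real.smoothTransition (4 - y)) :=
      Real.smoothTransition.contDiff.comp (contDiff_const.sub contDiff_id)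
    exact h1.mul h2
  have hz : ∀ y, y ∉ Set.Icc (-2 : ℝ) 4 → w y = 0 := by
    intro y hy
    rw [Set.mem_Icc, not_and_or, not_le, not_le] at hy
    unfold w
    rcases hy with hy | hy
    · rw [Real.smoothTransition.zero_of_nonpos (by linarith), zero_mul]
    · rw [Real.smoothTransition.zero_of_nonpos (x := 4 - y) (by linarith), mul_zero]
  obtain ⟨a1, a2, a3, M0, hM0⟩ := pb2_step w (-2) 4 hw hz
  obtain ⟨b1, b2, b3, M1, hM1⟩ := pb2_step (deriv w) (-2) 4 a2 a3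
  obtain ⟨c1, c2, c3, M2, hM2⟩ := pb2_step (deriv (deriv w)) (-2) 4 b2 b3
  obtain ⟨d1, d2, d3, M3, hM3⟩ := pb2_step (deriv (deriv (deriv w))) (-2) 4 c2 c3
  refine ⟨deriv w, deriv (deriv w), deriv (deriv (deriv w)), 1 + |M0| + |M1| + |M2| + |M3|, ?_,
    a1, b1, c1, c2.continuous, fun y hy => ⟨hz y hy, a3 y hy, b3 y hy, c3 y hy⟩, fun y => ?_⟩
  · have := abs_nonneg M0
    have := abs_nonneg M1
    have := abs_nonneg M2
    have := abs_nonneg M3
    linarith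
  · have h0 := (hM0 y).trans (le_abs_self M0)
    have h1 := (hM1 y).trans (le_abs_self M1)
    have h2 := (hM2 y).trans (le_abs_self M2)
    have h3 := (hM3 y).trans (le_abs_self M3)
    have := abs_nonneg M0
    have := abs_nonneg M1
    have := abs_nonneg M2
    have := abs_nonneg M3
    refine ⟨?_, ?_, ?_, ?_⟩ <;> linarith

/-- `k! ≤ e √k (k/e)^k`. -/
theorem pb2_fact (k : ℕ) (hk : 1 ≤ k) :
    (k.factorial : ℝ) ≤ Real.exp 1 * Real.sqrt k * ((k : ℝ) / Real.exp 1) ^ k := by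
  obtain ⟨m, rfl⟩ : ∃ m, k = m + 1 := ⟨k - 1, by omega⟩
  have h := Stirling.stirlingSeq'_antitone (Nat.zero_le m)
  simp only [Function.comp, Nat.succ_eq_add_one, zero_add] at h
  rw [Stirling.stirlingSeq_one] at h
  unfold Stirling.stirlingSeq at h
  have hp : (0 : ℝ) < ((m + 1 : ℕ) : ℝ) := by positivity
  have hs : 0 < Real.sqrt (2 * ((m + 1 : ℕ) : ℝ)) * (((m + 1 : ℕ) : ℝ) / Real.exp 1) ^ (m + 1) := by
    positivity
  rw [div_le_iff₀ hs] at h
  refine h.trans (le_of_eq ?_)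
  rw [Real.sqrt_mul (by norm_num)]
  have h2 : Real.sqrt 2 ≠ 0 := by positivity
  field_simp

/-- `1/Wd k U ≤ C √U` for `k = ⌊U/64⌋ ≥ 1`.

Proof. `Wd k U = (1/64) y^k e^(-y)/k!` with `y = U/64 ∈ [k, k+1)`. `y^k e^(-y)` is decreasing for
`y ≥ k`, so it is `≥ (k+1)^k e^(-k-1) ≥ 2 k^k e^(-k)/e` (`(1 + 1/k)^k ≥ 2`), and
`k! ≤ e √k (k/e)^k` (`Stirling.stirlingSeq` is antitone for `n ≥ 1`, value `e/√2` at `1`; or by
induction). So `1/Wd ≤ 64 (e/2) e √k ≤ 300 √k`. -/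
theorem PB2_W (X : ℕ) (hk : 1 ≤ kX X) : 0 < Wd (kX X) (Real.log X) ∧
    1 / Wd (kX X) (Real.log X) ≤ 300 * Real.sqrt (Real.log X) := by
  set k := kX X with hkd
  set U := Real.log X with hU
  have hk1 : (1 : ℝ) ≤ k := by exact_mod_cast hk
  have hU0 : 0 ≤ U := Real.log_natCast_nonneg X
  have hkle : (k : ℝ) ≤ U / 64 := by
    rw [hkd]
    unfold kX
    exact Nat.floor_le (by positivity)
  have hklt : U / 64 < k + 1 := by
    rw [hkd]
    unfold kX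
    exact Nat.lt_floor_add_one _
  have hUp : 0 < U := by linarith
  have hW : 0 < Wd k U := by
    unfold Wd
    positivity
  refine ⟨hW, ?_⟩
  rw [div_le_iff₀ hW]
  -- `1 ≤ 300 √U Wd`
  have hf := pb2_fact k hk
  have hfp : (0 : ℝ) < (k.factorial : ℝ) := by exact_mod_cast k.factorial_pos
  have h1 : (k : ℝ) ^ k ≤ (U / 64) ^ k := pow_le_pow_left₀ (by positivity) hkle k
  have h2 : Real.exp (-((k : ℝ) + 1)) ≤ Real.exp (-(U / 64)) := Real.exp_le_exp.mpr (by linarith)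
  have h3 : Real.sqrt k ≤ Real.sqrt U / 8 := by
    have e : Real.sqrt (U / 64) = Real.sqrt U / 8 := by
      rw [Real.sqrt_div hU0]
      congr 1
      rw [show (64 : ℝ) = 8 ^ 2 by norm_num]
      exact Real.sqrt_sq (by norm_num)
    rw [← e]
    exact Real.sqrt_le_sqrt hkle
  have hWe : Wd k U = (1 / 64) * ((U / 64) ^ k * Real.exp (-(U / 64))) / (k.factorial : ℝ) := by
    unfold Wd
    rw [div_pow, pow_succ, div_pow, one_pow]
    ring
  rw [hWe, mul_div_assoc', le_div_iff₀ hfp, one_mul]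
  have he : Real.exp 1 * Real.exp 1 ≤ 8 := by
    have := Real.exp_one_lt_d9
    have := Real.exp_pos 1
    nlinarith
  have h4 : ((k : ℝ) / Real.exp 1) ^ k = (k : ℝ) ^ k * (Real.exp 1 * Real.exp (-((k : ℝ) + 1))) := by
    rw [div_pow, div_eq_mul_inv]
    congr 1
    rw [← Real.exp_nat_mul, mul_one, ← Real.exp_neg, ← Real.exp_add]
    congr 1
    ring
  calc (k.factorial : ℝ) ≤ Real.exp 1 * Real.sqrt k * ((k : ℝ) / Real.exp 1) ^ k := hf
    _ = (Real.exp 1 * Real.exp 1) * Real.sqrt k * ((k : ℝ) ^ k * Real.exp (-((k : ℝ) + 1))) := by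
        rw [h4]; ring
    _ ≤ 8 * (Real.sqrt U / 8) * ((U / 64) ^ k * Real.exp (-(U / 64))) := by
        gcongr
    _ = 64 * Real.sqrt U * (1 / 64 * ((U / 64) ^ k * Real.exp (-(U / 64)))) := by ring
    _ ≤ _ := by
        gcongr
        norm_num

/-- The exponent `h(u) = (u - U)/64 - k (log u - log U)`. -/
noncomputable def pb2_h (k : ℕ) (U u : ℝ) : ℝ := (u - U) / 64 - k * (Real.log u - Real.log U)

/-- `h'`. -/
noncomputable def pb2_h1 (k : ℕ) (u : ℝ) : ℝ := 1 / 64 - k * u⁻¹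

/-- `h''`. -/
noncomputable def pb2_h2 (k : ℕ) (u : ℝ) : ℝ := k * (u⁻¹) ^ 2

/-- `h'''`. -/
noncomputable def pb2_h3 (k : ℕ) (u : ℝ) : ℝ := -(2 * k * (u⁻¹) ^ 3)

theorem pb2_dh (k : ℕ) (U u : ℝ) (hu : 0 < u) : HasDerivAt (pb2_h k U) (pb2_h1 k u) u := by
  unfold pb2_h pb2_h1
  have h1 : HasDerivAt (fun u : ℝ => (u - U) / 64) (1 / 64) u :=
    ((hasDerivAt_id u).sub_const U).div_const 64
  have h2 : HasDerivAt (fun u : ℝ => (k : ℝ) * (Real.log u - Real.log U)) (k * u⁻¹) u :=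
    ((Real.hasDerivAt_log hu.ne').sub_const _).const_mul _
  exact h1.sub h2

theorem pb2_dh1 (k : ℕ) (u : ℝ) (hu : 0 < u) : HasDerivAt (pb2_h1 k) (pb2_h2 k u) u := by
  unfold pb2_h1 pb2_h2
  have h2 := ((hasDerivAt_inv hu.ne').const_mul (k : ℝ)).const_sub (1 / 64 : ℝ)
  refine h2.congr_deriv ?_
  rw [inv_pow]
  ring

theorem pb2_dh2 (k : ℕ) (u : ℝ) (hu : 0 < u) : HasDerivAt (pb2_h2 k) (pb2_h3 k u) u := by
  unfold pb2_h2 pb2_h3
  have h2 := ((hasDerivAt_inv hu.ne').pow 2).const_mul (k : ℝ)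
  refine h2.congr_deriv ?_
  rw [← inv_pow]
  push_cast
  ring

theorem pb2_dG (k : ℕ) (U u : ℝ) (hu : 0 < u) :
    HasDerivAt (fun u => Real.exp (pb2_h k U u)) (pb2_h1 k u * Real.exp (pb2_h k U u)) u := by
  have := (pb2_dh k U u hu).exp
  rwa [mul_comm] at this

theorem pb2_dG1 (k : ℕ) (U u : ℝ) (hu : 0 < u) :
    HasDerivAt (fun u => pb2_h1 k u * Real.exp (pb2_h k U u))
      ((pb2_h2 k u + pb2_h1 k u ^ 2) * Real.exp (pb2_h k U u)) u := by
  refine ((pb2_dh1 k u hu).mul (pb2_dG k U u hu)).congr_deriv ?_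
  ring

theorem pb2_dG2 (k : ℕ) (U u : ℝ) (hu : 0 < u) :
    HasDerivAt (fun u => (pb2_h2 k u + pb2_h1 k u ^ 2) * Real.exp (pb2_h k U u))
      ((pb2_h3 k u + 3 * pb2_h1 k u * pb2_h2 k u + pb2_h1 k u ^ 3) * Real.exp (pb2_h k U u)) u := by
  refine (((pb2_dh2 k u hu).add ((pb2_dh1 k u hu).pow 2)).mul (pb2_dG k U u hu)).congr_deriv ?_
  simp only [Pi.add_apply, Pi.pow_apply]
  push_cast
  ring

theorem pb2_cG3 (k : ℕ) (U u : ℝ) (hu : 0 < u) :
    ContinuousAt (fun u => (pb2_h3 k u + 3 * pb2_h1 k u * pb2_h2 k u + pb2_h1 k u ^ 3) *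
      Real.exp (pb2_h k U u)) u := by
  have c0 := (pb2_dG k U u hu).continuousAt
  have c1 := (pb2_dh1 k u hu).continuousAt
  have c2 := (pb2_dh2 k u hu).continuousAt
  have c3 : ContinuousAt (pb2_h3 k) u := by
    unfold pb2_h3
    have := continuousAt_inv₀ hu.ne'
    fun_prop (disch := exact hu.ne')
  exact ((c3.add ((continuousAt_const.mul c1).mul c2)).add (c1.pow 3)).mul c0

/-- Bounds for the exponent on `[U - 2, U + 4]`. -/
theorem pb2_hb (k : ℕ) (U : ℝ) (hU : 100 ≤ U) (h1 : (k : ℝ) ≤ U / 64)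
    (u : ℝ) (hu : u ∈ Set.Icc (U - 2) (U + 4)) :
    |pb2_h1 k u| ≤ 1 ∧ |pb2_h2 k u| ≤ 1 ∧ |pb2_h3 k u| ≤ 1 := by
  obtain ⟨hu1, hu2⟩ := Set.mem_Icc.mp hu
  have hu0 : 0 < u := by linarith
  have hi : 0 < u⁻¹ := inv_pos.mpr hu0
  have hk : (0 : ℝ) ≤ k := Nat.cast_nonneg k
  have hki : k * u⁻¹ ≤ 1 := by
    rw [← div_eq_mul_inv, div_le_one hu0]
    linarith
  have hki0 : 0 ≤ k * u⁻¹ := by positivity
  have hi1 : u⁻¹ ≤ 1 / 2 := by
    rw [inv_eq_one_div]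
    exact one_div_le_one_div_of_le (by norm_num) (by linarith)
  refine ⟨?_, ?_, ?_⟩
  · unfold pb2_h1
    rw [abs_le]
    constructor <;> linarith
  · unfold pb2_h2
    rw [abs_of_nonneg (by positivity)]
    calc (k : ℝ) * u⁻¹ ^ 2 = (k * u⁻¹) * u⁻¹ := by ring
      _ ≤ 1 * (1 / 2) := mul_le_mul hki hi1 hi.le (by norm_num)
      _ ≤ 1 := by norm_num
  · unfold pb2_h3
    rw [abs_neg, abs_of_nonneg (by positivity)]
    calc 2 * (k : ℝ) * u⁻¹ ^ 3 = 2 * ((k * u⁻¹) * (u⁻¹ * u⁻¹)) := by ring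
      _ ≤ 2 * (1 * ((1 / 2) * (1 / 2))) := by
          gcongr
      _ ≤ 1 := by norm_num

theorem pb2_hh (k : ℕ) (U : ℝ) (hU : 100 ≤ U) (h1 : (k : ℝ) ≤ U / 64)
    (u : ℝ) (hu : u ∈ Set.Icc (U - 2) (U + 4)) : pb2_h k U u ≤ 4 := by
  have h := Convex.norm_image_sub_le_of_norm_hasDerivWithin_le (f := pb2_h k U)
    (f' := pb2_h1 k) (s := Set.Icc (U - 2) (U + 4)) (C := 1) (x := U) (y := u)
    (fun z hz => (pb2_dh k U z (by linarith [(Set.mem_Icc.mp hz).1])).hasDerivWithinAt)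
    (fun z hz => (pb2_hb k U hU h1 z hz).1) (convex_Icc _ _)
    (Set.mem_Icc.mpr ⟨by linarith, by linarith⟩) hu
  have h0 : pb2_h k U U = 0 := by
    unfold pb2_h
    ring
  rw [h0, sub_zero, one_mul, Real.norm_eq_abs, Real.norm_eq_abs] at h
  obtain ⟨hu1, hu2⟩ := Set.mem_Icc.mp hu
  refine (le_abs_self _).trans (h.trans ?_)
  rw [abs_le]
  constructor <;> linarith

/-- A function vanishing below `a > 0` with a derivative on `(0, ∞)` has a derivative. -/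
theorem pb2_glue (a : ℝ) (ha : 0 < a) (f f1 : ℝ → ℝ) (hz : ∀ y, y < a → f y = 0)
    (hz1 : ∀ y, y < a → f1 y = 0) (hd : ∀ y, 0 < y → HasDerivAt f (f1 y) y) (y : ℝ) :
    HasDerivAt f (f1 y) y := by
  by_cases h : 0 < y
  · exact hd y h
  · have hy : y < a := by linarith [not_lt.mp h]
    rw [hz1 y hy]
    have he : f =ᶠ[nhds y] fun _ => 0 := by
      filter_upwards [Iio_mem_nhds hy] with z hz'
      exact hz z hz'
    exact (hasDerivAt_const y (0 : ℝ)).congr_of_eventuallyEq he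

/-- The quotient `κ(u) = w(u - U)/Wd(k, u)` (`0` for `u ∉ [U-2, U+4]`), `U = log X`, `k = kX X`, has
three derivatives bounded by `C √U`.

Proof. For `u > 0`, `1/Wd k u = (1/Wd k U) e^(h(u))`, `h(u) = (u - U)/64 - k log (u/U)`. On
`[U-2, U+4]` (`U` large, `|k - U/64| ≤ 1`): `|h'(u)| = |1/64 - k/u| = |u/64 - k|/u ≤ 2/u ≤ 1`,
`|h''| = k/u² ≤ 1`, `|h'''| = 2 k/u³ ≤ 1`, and `h(U) = 0`, so `|h| ≤ 4` there. So `G = e^h` has
`G' = h' G`, `G'' = (h'' + h'²) G`, `G''' = (h''' + 3 h' h'' + h'³) G`, all at most `5 e^4` in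
absolute value. `κ = (1/Wd k U) w(u - U) G(u)`: Leibniz with `PB2_w`; outside `[U - 2, U + 4]`
everything is `0` (the functions `κ_j(u)` are defined as the Leibniz expressions for `u > 0` and `0`
for `u ≤ 0`, and `HasDerivAt` at `u ≤ 0` holds since `κ_j = 0` on `(-∞, U-2)`). `PB2_W` for the
factor `1/Wd k U`. -/
theorem PB2_quot : ∃ C K : ℝ, 0 < C ∧ ∀ X : ℕ, K ≤ X → ∃ f f1 f2 f3 : ℝ → ℝ,
    (∀ y, HasDerivAt f (f1 y) y) ∧ (∀ y, HasDerivAt f1 (f2 y) y) ∧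
    (∀ y, HasDerivAt f2 (f3 y) y) ∧ Continuous f3 ∧
    (∀ y, y ∉ Set.Icc (Real.log X - 2) (Real.log X + 4) → f y = 0 ∧ f1 y = 0 ∧ f2 y = 0 ∧
      f3 y = 0) ∧
    (∀ y, |f y| ≤ C * Real.sqrt (Real.log X) ∧ |f3 y| ≤ C * Real.sqrt (Real.log X)) ∧
    ∀ u : ℝ, 0 < u → w (u - Real.log X) = Wd (kX X) u * f u := by
  obtain ⟨w1, w2, w3, M, hM, d0, d1, d2, c3, hout, hb⟩ := PB2_w
  have hE4 : 1 ≤ Real.exp 4 := Real.one_le_exp (by norm_num)
  refine ⟨300 * (15 * M * Real.exp 4), Real.exp 100, by positivity, fun X hX => ?_⟩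
  have hX0 : (0 : ℝ) < X := lt_of_lt_of_le (Real.exp_pos _) hX
  set U := Real.log X with hUd
  have hU : 100 ≤ U := (Real.le_log_iff_exp_le hX0).mpr hX
  set k := kX X with hkd
  have hkle : (k : ℝ) ≤ U / 64 := by
    rw [hkd]
    unfold kX
    exact Nat.floor_le (by positivity)
  have hklt : U / 64 < k + 1 := by
    rw [hkd]
    unfold kX
    exact Nat.lt_floor_add_one _
  have hk1 : 1 ≤ k := by
    by_contra h
    have : k = 0 := by omega
    rw [this] at hklt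
    norm_num at hklt
    linarith
  obtain ⟨hWp, hWb⟩ := PB2_W X hk1
  rw [← hkd, ← hUd] at hWp hWb
  set c := 1 / Wd k U with hc
  have hc0 : 0 < c := by rw [hc]; positivity
  set G : ℝ → ℝ := fun u => Real.exp (pb2_h k U u) with hG
  set G1 : ℝ → ℝ := fun u => pb2_h1 k u * Real.exp (pb2_h k U u) with hG1
  set G2 : ℝ → ℝ := fun u => (pb2_h2 k u + pb2_h1 k u ^ 2) * Real.exp (pb2_h k U u) with hG2
  set G3 : ℝ → ℝ := fun u => (pb2_h3 k u + 3 * pb2_h1 k u * pb2_h2 k u + pb2_h1 k u ^ 3) *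
      Real.exp (pb2_h k U u) with hG3
  have dG : ∀ u, 0 < u → HasDerivAt G (G1 u) u := pb2_dG k U
  have dG1 : ∀ u, 0 < u → HasDerivAt G1 (G2 u) u := pb2_dG1 k U
  have dG2 : ∀ u, 0 < u → HasDerivAt G2 (G3 u) u := pb2_dG2 k U
  have cG3 : ∀ u, 0 < u → ContinuousAt G3 u := pb2_cG3 k U
  -- the shifted bump
  have e0 : ∀ u, HasDerivAt (fun u => w (u - U)) (w1 (u - U)) u := fun u => by
    simpa using (d0 (u - U)).comp_sub_const u U
  have e1 : ∀ u, HasDerivAt (fun u => w1 (u - U)) (w2 (u - U)) u := fun u => by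
    simpa using (d1 (u - U)).comp_sub_const u U
  have e2 : ∀ u, HasDerivAt (fun u => w2 (u - U)) (w3 (u - U)) u := fun u => by
    simpa using (d2 (u - U)).comp_sub_const u U
  have e3 : ∀ u, ContinuousAt (fun u => w3 (u - U)) u := fun u =>
    (c3.comp (continuous_id.sub continuous_const)).continuousAt
  have hz : ∀ u, u ∉ Set.Icc (U - 2) (U + 4) → w (u - U) = 0 ∧ w1 (u - U) = 0 ∧
      w2 (u - U) = 0 ∧ w3 (u - U) = 0 := by
    intro u hu
    apply hout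
    intro h
    apply hu
    rw [Set.mem_Icc] at h ⊢
    constructor <;> linarith [h.1, h.2]
  -- the functions
  set f : ℝ → ℝ := fun u => c * (w (u - U) * G u) with hf
  set f1 : ℝ → ℝ := fun u => c * (w1 (u - U) * G u + w (u - U) * G1 u) with hf1
  set f2 : ℝ → ℝ := fun u => c * (w2 (u - U) * G u + 2 * (w1 (u - U) * G1 u) +
    w (u - U) * G2 u) with hf2
  set f3 : ℝ → ℝ := fun u => c * (w3 (u - U) * G u + 3 * (w2 (u - U) * G1 u) +
    3 * (w1 (u - U) * G2 u) + w (u - U) * G3 u) with hf3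
  have hfz : ∀ y, y ∉ Set.Icc (U - 2) (U + 4) → f y = 0 ∧ f1 y = 0 ∧ f2 y = 0 ∧ f3 y = 0 := by
    intro y hy
    obtain ⟨h0, h1, h2, h3⟩ := hz y hy
    simp only [hf, hf1, hf2, hf3, h0, h1, h2, h3]
    simp
  have hlow : ∀ y, y < U - 2 → y ∉ Set.Icc (U - 2) (U + 4) := by
    intro y hy h
    linarith [(Set.mem_Icc.mp h).1]
  have ha : 0 < U - 2 := by linarith
  refine ⟨f, f1, f2, f3, ?_, ?_, ?_, ?_, hfz, ?_, ?_⟩
  · refine pb2_glue (U - 2) ha f f1 (fun y hy => (hfz y (hlow y hy)).1)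
      (fun y hy => (hfz y (hlow y hy)).2.1) (fun y hy => ?_)
    exact ((e0 y).mul (dG y hy)).const_mul c
  · refine pb2_glue (U - 2) ha f1 f2 (fun y hy => (hfz y (hlow y hy)).2.1)
      (fun y hy => (hfz y (hlow y hy)).2.2.1) (fun y hy => ?_)
    refine ((((e1 y).mul (dG y hy)).add ((e0 y).mul (dG1 y hy))).const_mul c).congr_deriv ?_
    simp only [hf2]
    ring
  · refine pb2_glue (U - 2) ha f2 f3 (fun y hy => (hfz y (hlow y hy)).2.2.1)
      (fun y hy => (hfz y (hlow y hy)).2.2.2) (fun y hy => ?_)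
    refine (((((e2 y).mul (dG y hy)).add (((e1 y).mul (dG1 y hy)).const_mul 2)).add
      ((e0 y).mul (dG2 y hy))).const_mul c).congr_deriv ?_
    simp only [hf3]
    ring
  · rw [continuous_iff_continuousAt]
    intro y
    by_cases h : 0 < y
    · have g0 := (dG y h).continuousAt
      have g1 := (dG1 y h).continuousAt
      have g2 := (dG2 y h).continuousAt
      have g3 := cG3 y h
      exact continuousAt_const.mul (((((e3 y).mul g0).add
        (continuousAt_const.mul ((e2 y).continuousAt.mul g1))).add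
        (continuousAt_const.mul ((e1 y).continuousAt.mul g2))).add ((e0 y).continuousAt.mul g3))
    · have hy : y < U - 2 := by linarith [not_lt.mp h]
      have he : f3 =ᶠ[nhds y] fun _ => 0 := by
        filter_upwards [Iio_mem_nhds hy] with z hz'
        exact (hfz z (hlow z hz')).2.2.2
      exact (continuousAt_const (y := (0 : ℝ))).congr he.symm
  · intro y
    have hM0 : 0 ≤ M := by linarith
    have hs : 0 ≤ Real.sqrt U := Real.sqrt_nonneg U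
    by_cases hy : y ∈ Set.Icc (U - 2) (U + 4)
    · obtain ⟨b0, b1, b2, b3⟩ := hb (y - U)
      obtain ⟨p1, p2, p3⟩ := pb2_hb k U hU hkle y hy
      have p0 := pb2_hh k U hU hkle y hy
      have q0 : |G y| ≤ Real.exp 4 := by
        simp only [hG]
        rw [abs_of_pos (Real.exp_pos _)]
        exact Real.exp_le_exp.mpr p0
      have q1 : |G1 y| ≤ Real.exp 4 := by
        simp only [hG1]
        rw [abs_mul]
        calc _ ≤ 1 * Real.exp 4 := mul_le_mul p1 q0 (abs_nonneg _) (by norm_num)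
          _ = _ := one_mul _
      have q2 : |G2 y| ≤ 2 * Real.exp 4 := by
        simp only [hG2]
        rw [abs_mul]
        refine mul_le_mul ?_ q0 (abs_nonneg _) (by norm_num)
        refine (abs_add_le _ _).trans ?_
        rw [abs_pow]
        have := pow_le_one₀ (n := 2) (abs_nonneg _) p1
        linarith
      have q3 : |G3 y| ≤ 5 * Real.exp 4 := by
        simp only [hG3]
        rw [abs_mul]
        refine mul_le_mul ?_ q0 (abs_nonneg _) (by norm_num)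
        refine (abs_add_three _ _ _).trans ?_
        rw [abs_pow, abs_mul, abs_mul]
        have h1 := pow_le_one₀ (n := 3) (abs_nonneg _) p1
        have h2 : |(3 : ℝ)| * |pb2_h1 k y| * |pb2_h2 k y| ≤ 3 * 1 * 1 := by
          rw [abs_of_pos (by norm_num : (0 : ℝ) < 3)]
          gcongr
        linarith
      have r : ∀ a b A B : ℝ, |a| ≤ A → |b| ≤ B → |a * b| ≤ A * B := by
        intro a b A B hA hB
        rw [abs_mul]
        exact mul_le_mul hA hB (abs_nonneg _) ((abs_nonneg _).trans hA)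
      constructor
      · simp only [hf]
        rw [abs_mul, abs_of_pos hc0]
        calc c * |w (y - U) * G y| ≤ (300 * Real.sqrt U) * (M * Real.exp 4) :=
              mul_le_mul hWb (r _ _ _ _ b0 q0) (abs_nonneg _) (by positivity)
          _ ≤ (300 * Real.sqrt U) * (15 * (M * Real.exp 4)) := by
              apply mul_le_mul_of_nonneg_left _ (by positivity)
              have : 0 ≤ M * Real.exp 4 := by positivity
              linarith
          _ = _ := by ring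
      · simp only [hf3]
        rw [abs_mul, abs_of_pos hc0]
        have t0 := r _ _ _ _ b3 q0
        have t1 := r _ _ _ _ b2 q1
        have t2 := r _ _ _ _ b1 q2
        have t3 := r _ _ _ _ b0 q3
        have key : |w3 (y - U) * G y + 3 * (w2 (y - U) * G1 y) + 3 * (w1 (y - U) * G2 y) +
            w (y - U) * G3 y| ≤ 15 * (M * Real.exp 4) := by
          refine (abs_add_le _ _).trans ?_
          have s1 := abs_add_three (w3 (y - U) * G y) (3 * (w2 (y - U) * G1 y))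
            (3 * (w1 (y - U) * G2 y))
          rw [abs_mul 3, abs_mul 3, abs_of_pos (by norm_num : (0 : ℝ) < 3)] at s1
          linarith
        calc _ ≤ (300 * Real.sqrt U) * (15 * (M * Real.exp 4)) :=
              mul_le_mul hWb key (abs_nonneg _) (by positivity)
          _ = _ := by ring
    · obtain ⟨h0, -, -, h3⟩ := hfz y hy
      rw [h0, h3, abs_zero]
      constructor <;> positivity
  · intro u hu
    simp only [hf, hG, hc]
    have hW' : Wd k u * Real.exp (pb2_h k U u) = Wd k U := by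
      unfold Wd pb2_h
      have hUp : 0 < U := by linarith
      have h1 : Real.exp ((u - U) / 64 - k * (Real.log u - Real.log U)) =
          Real.exp (u / 64) * Real.exp (-(U / 64)) * (U ^ k / u ^ k) := by
        rw [show (u - U) / 64 - k * (Real.log u - Real.log U) =
          u / 64 + -(U / 64) + (k * Real.log U - k * Real.log u) by ring, Real.exp_add,
          Real.exp_add, Real.exp_sub, Real.exp_nat_mul, Real.exp_nat_mul, Real.exp_log hu,
          Real.exp_log hUp]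
      rw [h1, Real.exp_neg (u / 64)]
      have h2 : Real.exp (u / 64) ≠ 0 := (Real.exp_pos _).ne'
      have h3 : u ^ k ≠ 0 := (pow_pos hu k).ne'
      have h4 : (k.factorial : ℝ) ≠ 0 := by exact_mod_cast k.factorial_ne_zero
      field_simp
    calc w (u - U) = (Wd k U) * (1 / Wd k U * w (u - U)) := by
          field_simp
      _ = _ := by rw [← hW']; ring

end Pool.Agent.Lib.H18Q
end

-- from Lib.H18Q.PC1
section

/-!
# Project H18Q, chunk PC1: the mean of the contribution of the zeros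
-/

open Finset

namespace Pool.Agent.Lib.H18Q

open Pool.Agent.Lib.H68T

theorem pc1_bern {k : ℕ} (hk : 1 ≤ k) (y : ℝ) :
    (1 / Real.sqrt (1 + y ^ 2)) ^ (k + 1) ≤ (1 + (k + 1) / 2 * y ^ 2)⁻¹ := by
  have h0 : (0 : ℝ) < 1 + y ^ 2 := by positivity
  have hk' : (1 : ℝ) ≤ k := by exact_mod_cast hk
  have h1 : 1 + (((k : ℝ) + 1) / 2) * y ^ 2 ≤ (1 + y ^ 2) ^ (((k : ℝ) + 1) / 2) :=
    one_add_mul_self_le_rpow_one_add (by nlinarith [sq_nonneg y]) (by linarith)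
  have h2 : Real.sqrt (1 + y ^ 2) ^ (k + 1) = (1 + y ^ 2) ^ (((k : ℝ) + 1) / 2) := by
    rw [Real.sqrt_eq_rpow, ← Real.rpow_natCast, ← Real.rpow_mul h0.le]
    congr 1
    push_cast
    ring
  rw [one_div, inv_pow, h2]
  exact inv_anti₀ (by positivity) h1

theorem pc1_cauchy {c : ℝ} (hc : 0 < c) :
    MeasureTheory.Integrable (fun y : ℝ => (1 + c * y ^ 2)⁻¹) ∧
    ∫ y : ℝ, (1 + c * y ^ 2)⁻¹ = Real.pi / Real.sqrt c := by
  have hs : 0 < Real.sqrt c := Real.sqrt_pos.2 hc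
  have h1 : (fun y : ℝ => (1 + c * y ^ 2)⁻¹) = fun y : ℝ =>
      (fun x : ℝ => (1 + x ^ 2)⁻¹) (Real.sqrt c * y) := by
    funext y
    simp only [mul_pow, Real.sq_sqrt hc.le]
  constructor
  · rw [h1]
    exact integrable_inv_one_add_sq.comp_mul_left' hs.ne'
  · have h2 := MeasureTheory.Measure.integral_comp_mul_left (fun x : ℝ => (1 + x ^ 2)⁻¹) (Real.sqrt c)
    rw [h1, h2, integral_univ_inv_one_add_sq, abs_of_pos (inv_pos.2 hs), smul_eq_mul]
    ring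

/-- `∫ (1+y²)^(-(k+1)/2) dy ≤ C/√(k+1)` for `k ≥ 1`.

Proof. For `|y| ≤ 1`, `log (1+y²) ≥ y²/2`, so the integrand is `≤ e^(-(k+1) y²/4)`, with integral
`√(4π/(k+1))`. For `|y| > 1` it is at most `2^(-(k-1)/2) (1+y²)^(-1)`, integral
`≤ π 2^(-(k-1)/2) ≤ C/√(k+1)`. -/
theorem PC1_beta : ∃ C : ℝ, 0 < C ∧ ∀ k : ℕ, 1 ≤ k →
    MeasureTheory.Integrable (fun y : ℝ => (1 / Real.sqrt (1 + y ^ 2)) ^ (k + 1)) ∧
    ∫ y : ℝ, (1 / Real.sqrt (1 + y ^ 2)) ^ (k + 1) ≤ C / Real.sqrt (k + 1) := by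
  refine ⟨Real.pi * Real.sqrt 2, by positivity, ?_⟩
  intro k hk
  have hc : (0 : ℝ) < (k + 1) / 2 := by positivity
  obtain ⟨h1, h2⟩ := pc1_cauchy hc
  have h3 : MeasureTheory.Integrable (fun y : ℝ => (1 / Real.sqrt (1 + y ^ 2)) ^ (k + 1)) := by
    refine h1.mono' ?_ ?_
    · apply Continuous.aestronglyMeasurable
      refine Continuous.pow (Continuous.div continuous_const ?_ ?_) _
      · exact Real.continuous_sqrt.comp (by fun_prop)
      · intro y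
        have : 0 < Real.sqrt (1 + y ^ 2) := Real.sqrt_pos.2 (by positivity)
        exact this.ne'
    · refine Filter.Eventually.of_forall fun y => ?_
      rw [Real.norm_of_nonneg (by positivity)]
      exact pc1_bern hk y
  refine ⟨h3, ?_⟩
  refine (MeasureTheory.integral_mono h3 h1 fun y => pc1_bern hk y).trans ?_
  rw [h2]
  have h4 : Real.sqrt ((k + 1) / 2) = Real.sqrt (k + 1) / Real.sqrt 2 :=
    Real.sqrt_div (by positivity) 2
  rw [h4, div_div_eq_mul_div]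

/-- One zero: for `Re ρ ≤ 1`,
`∫_a^b |(1/64)/(1 + 1/64 + iv - ρ)|^(k+1) dv ≤ C/√(k+1) (1/(1 + 64 (1 - Re ρ)))^k`.

Proof. With `A = 1/64 + 1 - Re ρ ≥ 1/64`, `|1 + 1/64 + iv - ρ| = √(A² + (v - Im ρ)²)`; substitute
`v = Im ρ + A y`: `(1/64)^(k+1) A^(-k) ∫ (1+y²)^(-(k+1)/2) dy`, and `(1/64)/A = 1/(1 + 64(1 - Re ρ))`. -/
theorem PC1_one : ∃ C : ℝ, 0 < C ∧ ∀ (k : ℕ) (ρ : ℂ) (a b : ℝ), 1 ≤ k → ρ.re ≤ 1 → a ≤ b →
    ∫ v in a..b, ‖((1 / 64 : ℝ) : ℂ) / (1 + (1 / 64 : ℝ) + v * Complex.I - ρ)‖ ^ (k + 1) ≤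
      C / Real.sqrt (k + 1) * (1 / (1 + 64 * (1 - ρ.re))) ^ k := by
  obtain ⟨C, hC, H⟩ := PC1_beta
  refine ⟨C, hC, ?_⟩
  intro k ρ a b hk hρ hab
  obtain ⟨h1, h2⟩ := H k hk
  set A : ℝ := 1 / 64 + 1 - ρ.re with hA
  have hA0 : 1 / 64 ≤ A := by rw [hA]; linarith
  have hAp : 0 < A := by linarith
  have hform : ∀ v : ℝ, ‖((1 / 64 : ℝ) : ℂ) / (1 + (1 / 64 : ℝ) + v * Complex.I - ρ)‖ ^ (k + 1) =
      ((1 / 64) / A) ^ (k + 1) *
        (fun y : ℝ => (1 / Real.sqrt (1 + y ^ 2)) ^ (k + 1)) (A⁻¹ * (v - ρ.im)) := by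
    intro v
    have h3 : ‖(1 + (1 / 64 : ℝ) + v * Complex.I - ρ : ℂ)‖ =
        A * Real.sqrt (1 + (A⁻¹ * (v - ρ.im)) ^ 2) := by
      rw [Complex.norm_eq_sqrt_sq_add_sq, Complex.sub_re, Complex.sub_im, z2_re, z2_im]
      have h4 : (1 + 1 / 64 - ρ.re) ^ 2 + (v - ρ.im) ^ 2 =
          A ^ 2 * (1 + (A⁻¹ * (v - ρ.im)) ^ 2) := by
        have h5 : (1 + 1 / 64 - ρ.re) = A := by rw [hA]; ring
        rw [h5]
        field_simp
      rw [h4, Real.sqrt_mul (sq_nonneg A), Real.sqrt_sq hAp.le]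
    rw [norm_div, h3, Complex.norm_real, Real.norm_of_nonneg (by norm_num : (0 : ℝ) ≤ 1 / 64)]
    show _ = (1 / 64 / A) ^ (k + 1) * (1 / Real.sqrt (1 + (A⁻¹ * (v - ρ.im)) ^ 2)) ^ (k + 1)
    rw [← mul_pow]
    congr 1
    rw [div_mul_div_comm, mul_one]
  have hint : MeasureTheory.Integrable (fun v : ℝ =>
      (fun y : ℝ => (1 / Real.sqrt (1 + y ^ 2)) ^ (k + 1)) (A⁻¹ * (v - ρ.im))) := by
    have h3 := (h1.comp_mul_left' (inv_ne_zero hAp.ne')).comp_sub_right ρ.im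
    exact h3
  have hval : ∫ v : ℝ, (fun y : ℝ => (1 / Real.sqrt (1 + y ^ 2)) ^ (k + 1)) (A⁻¹ * (v - ρ.im)) =
      A * ∫ y : ℝ, (1 / Real.sqrt (1 + y ^ 2)) ^ (k + 1) := by
    have h3 := MeasureTheory.integral_sub_right_eq_self (μ := MeasureTheory.volume)
      (fun v : ℝ => (fun y : ℝ => (1 / Real.sqrt (1 + y ^ 2)) ^ (k + 1)) (A⁻¹ * v)) ρ.im
    have h4 := MeasureTheory.Measure.integral_comp_mul_left
      (fun y : ℝ => (1 / Real.sqrt (1 + y ^ 2)) ^ (k + 1)) A⁻¹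
    rw [h3, h4, inv_inv, abs_of_pos hAp, smul_eq_mul]
  have hle : ∫ v in a..b, ‖((1 / 64 : ℝ) : ℂ) / (1 + (1 / 64 : ℝ) + v * Complex.I - ρ)‖ ^ (k + 1) ≤
      ((1 / 64) / A) ^ (k + 1) * (A * ∫ y : ℝ, (1 / Real.sqrt (1 + y ^ 2)) ^ (k + 1)) := by
    simp_rw [hform]
    rw [intervalIntegral.integral_const_mul, ← hval, intervalIntegral.integral_of_le hab]
    apply mul_le_mul_of_nonneg_left _ (by positivity)
    apply MeasureTheory.setIntegral_le_integral hint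
    exact Filter.Eventually.of_forall fun v => by
      show (0 : ℝ) ≤ (1 / Real.sqrt (1 + (A⁻¹ * (v - ρ.im)) ^ 2)) ^ (k + 1)
      positivity
  refine hle.trans ?_
  have hq : 1 / (1 + 64 * (1 - ρ.re)) = (1 / 64) / A := by
    rw [div_div]
    congr 1
    rw [hA]
    ring
  rw [hq]
  have hI : 0 ≤ ∫ y : ℝ, (1 / Real.sqrt (1 + y ^ 2)) ^ (k + 1) :=
    MeasureTheory.integral_nonneg fun y => by positivity
  have h5 : ((1 / 64) / A) ^ (k + 1) * (A * ∫ y : ℝ, (1 / Real.sqrt (1 + y ^ 2)) ^ (k + 1)) =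
      (1 / 64) * ((∫ y : ℝ, (1 / Real.sqrt (1 + y ^ 2)) ^ (k + 1)) * ((1 / 64) / A) ^ k) := by
    rw [pow_succ]
    have h6 : (1 / 64) / A * A = 1 / 64 := div_mul_cancel₀ _ hAp.ne'
    calc _ = ((1 / 64) / A * A) * ((∫ y : ℝ, (1 / Real.sqrt (1 + y ^ 2)) ^ (k + 1)) *
        ((1 / 64) / A) ^ k) := by ring
      _ = _ := by rw [h6]
  rw [h5]
  have h7 : 0 ≤ (∫ y : ℝ, (1 / Real.sqrt (1 + y ^ 2)) ^ (k + 1)) * ((1 / 64) / A) ^ k := by
    positivity
  have h8 : (∫ y : ℝ, (1 / Real.sqrt (1 + y ^ 2)) ^ (k + 1)) * ((1 / 64) / A) ^ k ≤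
      C / Real.sqrt (k + 1) * ((1 / 64) / A) ^ k :=
    mul_le_mul_of_nonneg_right h2 (by positivity)
  linarith

/-- The sum over the zeros near `s₀ = 1 + 1/64 + iv`, pointwise, `|v| ≤ Q^8 - 1`: it is at most the
sum over all zeros in `ZR f (7/8) (Q^8)` plus `C log Q (1/9)^k`.

Proof. A zero in `ZD f s₀ (1/4)` has `|Im ρ - v| ≤ 1/4`, so `|Im ρ| ≤ Q^8`. If `Re ρ ≥ 7/8` it is in
`ZR f (1 - 1/8) (Q^8)`. Otherwise `|s₀ - ρ| ≥ 1/64 + 1/8`, the ratio is `≤ 1/9`, and the number of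
zeros in `ZD f s₀ (1/4)` is at most `C log Q` (`ldat_sum` with `lam = 1/64`:
`(lam/|s₀ - ρ|)² ≥ 1/256`). -/
theorem PC1_point (C0 : ℝ) (h0 : 1 ≤ C0) : ∃ C : ℝ, 0 < C ∧ ∀ (Q : ℕ) (f : ℂ → ℂ),
    64 ≤ Real.log Q → LDat C0 (Real.log Q) ((Q : ℝ) ^ 10) f → ∀ (v : ℝ) (k : ℕ),
    |v| ≤ (Q : ℝ) ^ 8 - 1 →
    ‖∑ ρ ∈ ZD f (1 + (1 / 64 : ℝ) + v * Complex.I) (1 / 4),
      (od f ρ : ℂ) * (((1 / 64 : ℝ) : ℂ) / (1 + (1 / 64 : ℝ) + v * Complex.I - ρ)) ^ (k + 1)‖ ≤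
    (∑ ρ ∈ ZR f (1 - 1 / 8) ((Q : ℝ) ^ 8), (od f ρ : ℝ) *
      ‖((1 / 64 : ℝ) : ℂ) / (1 + (1 / 64 : ℝ) + v * Complex.I - ρ)‖ ^ (k + 1)) +
      C * Real.log Q * (1 / 9) ^ k := by
  obtain ⟨C1, hC1, H⟩ := ldat_sum C0 h0
  refine ⟨4 * C1, by positivity, ?_⟩
  intro Q f hQ hf v k hv
  have hQ1 : (1 : ℝ) ≤ Q := by
    rcases Nat.eq_zero_or_pos Q with h | h
    · rw [h] at hQ
      norm_num at hQ
    · exact_mod_cast h
  have hl1 : 1 / Real.log Q ≤ 1 / 64 := one_div_le_one_div_of_le (by norm_num) hQ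
  have hv' : |v| ≤ (Q : ℝ) ^ 10 := by
    have : (Q : ℝ) ^ 8 ≤ (Q : ℝ) ^ 10 := pow_le_pow_right₀ hQ1 (by norm_num)
    linarith
  have h1 := H (Real.log Q) ((Q : ℝ) ^ 10) f (by linarith) hf (1 / 64) v hl1 (by norm_num) hv'
  have hs0 : f (1 + (1 / 64 : ℝ) + v * Complex.I) ≠ 0 := z2_ne hf (by norm_num)
  set s₀ : ℂ := 1 + (1 / 64 : ℝ) + v * Complex.I with hs
  have hre : s₀.re = 1 + 1 / 64 := z2_re (1 / 64) v
  have him : s₀.im = v := z2_im (1 / 64) v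
  have hmem : ∀ ρ ∈ ZD f s₀ (1 / 4), f ρ = 0 ∧ ‖ρ - s₀‖ ≤ 1 / 4 := fun ρ hρ =>
    (mem_ZD hf.diff ⟨_, hs0⟩).1 hρ
  have hpos : ∀ ρ ∈ ZD f s₀ (1 / 4), 0 < ‖s₀ - ρ‖ := by
    intro ρ hρ
    rw [norm_pos_iff, sub_ne_zero]
    intro h5
    rw [h5] at hs0
    exact hs0 (hmem ρ hρ).1
  have hcount : ∑ ρ ∈ ZD f s₀ (1 / 4), (od f ρ : ℝ) ≤ 4 * C1 * Real.log Q := by
    have h2 : ∑ ρ ∈ ZD f s₀ (1 / 4), (od f ρ : ℝ) ≤
        ∑ ρ ∈ ZD f s₀ (1 / 4), 256 * ((od f ρ : ℝ) * ((1 / 64) / ‖s₀ - ρ‖) ^ 2) := by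
      refine sum_le_sum fun ρ hρ => ?_
      have h3 : ‖s₀ - ρ‖ ≤ 1 / 4 := by
        rw [norm_sub_rev]
        exact (hmem ρ hρ).2
      have h4 := hpos ρ hρ
      have h5 : 1 / 16 ≤ (1 / 64) / ‖s₀ - ρ‖ := by
        rw [le_div_iff₀ h4]
        linarith
      have h6 : (1 / 16 : ℝ) ^ 2 ≤ ((1 / 64) / ‖s₀ - ρ‖) ^ 2 := by gcongr
      have h7 : (0 : ℝ) ≤ od f ρ := Nat.cast_nonneg _
      nlinarith
    refine h2.trans ?_
    rw [← mul_sum]
    linarith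
  have hsplit : ‖∑ ρ ∈ ZD f s₀ (1 / 4),
      (od f ρ : ℂ) * (((1 / 64 : ℝ) : ℂ) / (s₀ - ρ)) ^ (k + 1)‖ ≤
      ∑ ρ ∈ ZD f s₀ (1 / 4), (od f ρ : ℝ) * ‖((1 / 64 : ℝ) : ℂ) / (s₀ - ρ)‖ ^ (k + 1) := by
    refine (norm_sum_le _ _).trans (le_of_eq (sum_congr rfl fun ρ _ => ?_))
    rw [norm_mul, norm_pow, Complex.norm_natCast]
  refine hsplit.trans ?_
  rw [← sum_filter_add_sum_filter_not (ZD f s₀ (1 / 4)) (fun ρ => 7 / 8 ≤ ρ.re)]
  apply add_le_add
  · apply sum_le_sum_of_subset_of_nonneg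
    · intro ρ hρ
      rw [mem_filter] at hρ
      obtain ⟨hρ1, hρ2⟩ := hρ
      obtain ⟨h3, h4⟩ := hmem ρ hρ1
      rw [mem_ZR hf.diff ⟨_, hs0⟩]
      refine ⟨h3, by linarith, (hf.zre ρ h3).le, ?_⟩
      have h5 : |ρ.im - v| ≤ 1 / 4 := by
        have h6 := Complex.abs_im_le_norm (ρ - s₀)
        rw [Complex.sub_im, him] at h6
        exact h6.trans h4
      have h7 : |ρ.im| ≤ |ρ.im - v| + |v| := by
        have := abs_add_le (ρ.im - v) v
        rwa [sub_add_cancel] at this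
      linarith
    · intro ρ _ _
      positivity
  · have h3 : ∑ ρ ∈ (ZD f s₀ (1 / 4)).filter (fun ρ => ¬ 7 / 8 ≤ ρ.re),
        (od f ρ : ℝ) * ‖((1 / 64 : ℝ) : ℂ) / (s₀ - ρ)‖ ^ (k + 1) ≤
        ∑ ρ ∈ (ZD f s₀ (1 / 4)).filter (fun ρ => ¬ 7 / 8 ≤ ρ.re), (od f ρ : ℝ) * (1 / 9) ^ k := by
      refine sum_le_sum fun ρ hρ => ?_
      rw [mem_filter] at hρ
      obtain ⟨hρ1, hρ2⟩ := hρ
      push Not at hρ2
      apply mul_le_mul_of_nonneg_left _ (Nat.cast_nonneg _)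
      have h4 : 9 / 64 ≤ ‖s₀ - ρ‖ := by
        have h5 := Complex.re_le_norm (s₀ - ρ)
        rw [Complex.sub_re, hre] at h5
        linarith
      have h6 : ‖((1 / 64 : ℝ) : ℂ) / (s₀ - ρ)‖ ≤ 1 / 9 := by
        rw [norm_div, Complex.norm_real, Real.norm_of_nonneg (by norm_num : (0 : ℝ) ≤ 1 / 64),
          div_le_iff₀ (by linarith)]
        linarith
      calc ‖((1 / 64 : ℝ) : ℂ) / (s₀ - ρ)‖ ^ (k + 1) ≤ (1 / 9) ^ (k + 1) := by gcongr
        _ ≤ (1 / 9) ^ k := pow_le_pow_of_le_one (by norm_num) (by norm_num) (Nat.le_succ k)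
    refine h3.trans ?_
    rw [← sum_mul]
    apply mul_le_mul_of_nonneg_right _ (by positivity)
    exact (sum_le_sum_of_subset_of_nonneg (filter_subset _ _) fun ρ _ _ => Nat.cast_nonneg _).trans
      hcount

end Pool.Agent.Lib.H18Q
end

-- from Lib.H18GB.V1
section

/-!
# Project GB: V1 (exponential sums over primes, no logarithm lost)
-/

namespace Pool.Agent.Lib.H18GB

open Finset Pool.Agent.Lib.Sieve

theorem v1_primeFactors {w W : ℕ} (hW : IsW w W) : W.primeFactors = primesUpTo w := by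
  ext p
  rw [Nat.mem_primeFactors, mem_primesUpTo]
  constructor
  · rintro ⟨h1, h2, -⟩
    exact ⟨h1, (hW.2 p h1).mp h2⟩
  · rintro ⟨h1, h2⟩
    exact ⟨h1, (hW.2 p h1).mpr h2, hW.1.ne'⟩

theorem v1_totient {w W : ℕ} (hW : IsW w W) :
    (Nat.totient W / W : ℝ) = ∏ p ∈ primesUpTo w, (1 - 1 / (p : ℝ)) := by
  have h := Nat.totient_eq_mul_prod_factors W
  rw [v1_primeFactors hW] at h
  have h' : ((Nat.totient W : ℚ) : ℝ) = ((W * ∏ p ∈ primesUpTo w, (1 - (p : ℚ)⁻¹) : ℚ) : ℝ) := by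
    exact_mod_cast congrArg (fun x : ℚ => (x : ℝ)) h
  push_cast at h'
  have hWpos : (0 : ℝ) < W := by exact_mod_cast hW.1
  rw [h', mul_div_cancel_left₀ _ hWpos.ne']
  refine Finset.prod_congr rfl fun p _ => ?_
  rw [one_div]

theorem v1_prod_split {w y : ℕ} (hwy : w ≤ y) (f : ℕ → ℝ) :
    ∏ p ∈ primesUpTo y, f p = (∏ p ∈ primesUpTo w, f p) * ∏ p ∈ sprimes w y, f p := by
  rw [← Finset.prod_union]
  · congr 1
    ext p
    rw [Finset.mem_union, mem_primesUpTo, mem_primesUpTo, mem_sprimes]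
    constructor
    · rintro ⟨h1, h2⟩
      rcases le_or_gt p w with h | h
      · exact Or.inl ⟨h1, h⟩
      · exact Or.inr ⟨h1, h, h2⟩
    · rintro (⟨h1, h2⟩ | ⟨h1, h2, h3⟩)
      · exact ⟨h1, h2.trans hwy⟩
      · exact ⟨h1, h3⟩
  · rw [Finset.disjoint_left]
    intro p h1 h2
    rw [mem_primesUpTo] at h1
    rw [mem_sprimes] at h2
    omega

/-- `φ(W)/W ∏_{w < p ≤ y} (1 - 1/p) ≤ 1 / log y` -/
theorem phi_mul_VV_le {w W y : ℕ} (hW : IsW w W) (hwy : w ≤ y) (hy : 2 ≤ y) :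
    (Nat.totient W / W : ℝ) * VV (sprimes w y) ≤ 1 / Real.log y := by
  rw [v1_totient hW]
  have h := prod_one_sub_inv_le y hy
  rw [v1_prod_split hwy] at h
  exact h

theorem v1_sum_class (W : ℕ) (hW : 0 < W) (r : ℤ) (P : Finset ℕ) (β : ℤ → ℂ) (n : ℤ)
    (hP : ∀ b ∈ P, Nat.Coprime W b) :
    fII W r P β n = ∑ b0 ∈ (Finset.range W).filter (Nat.Coprime W),
      fII W r (P.filter (fun b => b % W = b0)) β n := by
  unfold fII
  rw [← Finset.sum_fiberwise_of_maps_to (t := (Finset.range W).filter (Nat.Coprime W))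
    (g := fun b => b % W)]
  · refine Finset.sum_congr rfl fun b0 _ => ?_
    congr 1
    ext b
    simp only [Finset.mem_filter]
    tauto
  · intro b hb
    rw [Finset.mem_filter] at hb
    rw [Finset.mem_filter, Finset.mem_range]
    refine ⟨Nat.mod_lt _ hW, ?_⟩
    have := hP b hb.1
    rw [Nat.coprime_iff_gcd_eq_one] at this ⊢
    rw [Nat.gcd_comm, ← Nat.gcd_rec]
    exact this

theorem v1_pow_small (k Ce : ℕ) (hCe : 1 ≤ Ce) (η : ℝ) (hη : 0 < η) : ∃ N : ℕ, ∀ A : ℕ, N ≤ A →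
    (A : ℝ) ^ k * (2 : ℝ) ^ (-(A : ℝ) / Ce) ≤ η := by
  have hr0 : (0 : ℝ) ≤ (2 : ℝ) ^ (-(1 : ℝ) / Ce) := Real.rpow_nonneg (by norm_num) _
  have hCe' : (0 : ℝ) < Ce := by exact_mod_cast hCe
  have hr1 : (2 : ℝ) ^ (-(1 : ℝ) / Ce) < 1 := by
    apply Real.rpow_lt_one_of_one_lt_of_neg (by norm_num)
    rw [neg_div]
    have : 0 < 1 / (Ce : ℝ) := by positivity
    linarith
  have h := tendsto_pow_const_mul_const_pow_of_lt_one k hr0 hr1
  have h2 := (h.eventually (gt_mem_nhds hη))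
  obtain ⟨N, hN⟩ := Filter.eventually_atTop.mp h2
  refine ⟨N, fun A hA => ?_⟩
  have h3 := hN A hA
  have h4 : (2 : ℝ) ^ (-(A : ℝ) / Ce) = ((2 : ℝ) ^ (-(1 : ℝ) / Ce)) ^ A := by
    rw [← Real.rpow_natCast, ← Real.rpow_mul (by norm_num)]
    congr 1
    ring
  rw [h4]
  exact h3.le

theorem v1_w_small (Ce : ℕ) (hCe : 1 ≤ Ce) (η : ℝ) (hη : 0 < η) : ∃ N : ℕ, ∀ w : ℕ, N ≤ w →
    (w : ℝ) ^ (-(1 : ℝ) / Ce) ≤ η := by
  have hCe' : (0 : ℝ) < Ce := by exact_mod_cast hCe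
  have h1 : Filter.Tendsto (fun w : ℕ => (w : ℝ) ^ (-(1 / (Ce : ℝ)))) Filter.atTop (nhds 0) :=
    (tendsto_rpow_neg_atTop (by positivity)).comp tendsto_natCast_atTop_atTop
  have h2 := (h1.eventually (gt_mem_nhds hη))
  obtain ⟨N, hN⟩ := Filter.eventually_atTop.mp h2
  refine ⟨N, fun A hA => ?_⟩
  have h3 := hN A hA
  rw [neg_div]
  exact h3.le

theorem nr_natmul_le (k : ℕ) (x : ℝ) : nr (k * x) ≤ k * nr x := by
  have h := nr_le_abs_sub (k * x) (k * round x)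
  refine h.trans (le_of_eq ?_)
  unfold nr
  push_cast
  rw [← mul_sub, abs_mul, Nat.abs_cast]

theorem v1_norm_sum {ι : Type*} (s : Finset ι) (κ Λ : ℝ) (hκ : 0 ≤ κ) (hΛ : 0 ≤ Λ)
    (J : ℕ) (T : Finset ℕ) (u a b : ι → ℂ) (F : ℕ → ℕ → ι → ℂ) (er : ι → ℝ)
    (hb : ∀ n, ‖b n‖ ≤ 1)
    (hu : ∀ n ∈ s, u n = κ * a n + (κ - 1) - Λ * ∑ j ∈ Finset.range J, ∑ t ∈ T, F j t n + er n)
    (R1 R2 R3 R4 : ℝ) (h1 : ‖∑ n ∈ s, a n * b n‖ ≤ R1) (h2 : ‖∑ n ∈ s, b n‖ ≤ R2)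
    (h3 : ∀ j < J, ∀ t ∈ T, ‖∑ n ∈ s, F j t n * b n‖ ≤ R3) (h4 : ∑ n ∈ s, |er n| ≤ R4) :
    ‖∑ n ∈ s, u n * b n‖ ≤ κ * R1 + (κ + 1) * R2 + Λ * (J * (T.card * R3)) + R4 := by
  have e1 : ∑ n ∈ s, u n * b n = κ * ∑ n ∈ s, a n * b n + (κ - 1) * ∑ n ∈ s, b n -
      Λ * ∑ j ∈ Finset.range J, ∑ t ∈ T, ∑ n ∈ s, F j t n * b n + ∑ n ∈ s, er n * b n := by
    have e2 : ∑ j ∈ Finset.range J, ∑ t ∈ T, ∑ n ∈ s, F j t n * b n =
        ∑ n ∈ s, (∑ j ∈ Finset.range J, ∑ t ∈ T, F j t n) * b n := by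
      rw [Finset.sum_congr rfl fun j _ => Finset.sum_comm, Finset.sum_comm]
      refine Finset.sum_congr rfl fun n _ => ?_
      rw [Finset.sum_mul]
      refine Finset.sum_congr rfl fun j _ => ?_
      rw [Finset.sum_mul]
    rw [e2, Finset.mul_sum, Finset.mul_sum, Finset.mul_sum, ← Finset.sum_add_distrib,
      ← Finset.sum_sub_distrib, ← Finset.sum_add_distrib]
    refine Finset.sum_congr rfl fun n hn => ?_
    rw [hu n hn]
    ring
  have n1 : ‖(κ : ℂ) * ∑ n ∈ s, a n * b n‖ ≤ κ * R1 := by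
    rw [norm_mul, Complex.norm_real, Real.norm_of_nonneg hκ]
    exact mul_le_mul_of_nonneg_left h1 hκ
  have n2 : ‖((κ : ℂ) - 1) * ∑ n ∈ s, b n‖ ≤ (κ + 1) * R2 := by
    rw [norm_mul]
    have : ‖(κ : ℂ) - 1‖ ≤ κ + 1 := by
      refine (norm_sub_le _ _).trans ?_
      rw [Complex.norm_real, Real.norm_of_nonneg hκ, norm_one]
    exact mul_le_mul this h2 (norm_nonneg _) (by linarith)
  have n3 : ‖(Λ : ℂ) * ∑ j ∈ Finset.range J, ∑ t ∈ T, ∑ n ∈ s, F j t n * b n‖ ≤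
      Λ * (J * (T.card * R3)) := by
    rw [norm_mul, Complex.norm_real, Real.norm_of_nonneg hΛ]
    refine mul_le_mul_of_nonneg_left ?_ hΛ
    refine (norm_sum_le _ _).trans ?_
    have : ∀ j ∈ Finset.range J, ‖∑ t ∈ T, ∑ n ∈ s, F j t n * b n‖ ≤ T.card * R3 := by
      intro j hj
      refine (norm_sum_le _ _).trans ?_
      refine (Finset.sum_le_card_nsmul _ _ _ (h3 j (Finset.mem_range.mp hj))).trans ?_
      rw [nsmul_eq_mul]
    refine (Finset.sum_le_card_nsmul _ _ _ this).trans ?_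
    rw [nsmul_eq_mul, Finset.card_range]
  have n4 : ‖∑ n ∈ s, (er n : ℂ) * b n‖ ≤ R4 := by
    refine (norm_sum_le _ _).trans (le_trans (Finset.sum_le_sum fun n _ => ?_) h4)
    rw [norm_mul, Complex.norm_real, Real.norm_eq_abs]
    exact mul_le_of_le_one_right (abs_nonneg _) (hb n)
  rw [e1]
  refine (norm_add_le _ _).trans (add_le_add ?_ n4)
  refine (norm_sub_le _ _).trans (add_le_add ?_ n3)
  exact (norm_add_le _ _).trans (add_le_add n1 n2)

/-- Chunk V1 (assembly). Use `dec` with `ε/10`; `s` large so that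
`κ * (exp1 bound) ≤ C s * er ≤ ε/10`; `y = rt (s * s1) M` with `s1` large (for the hypotheses of
`v1ii` with `δ2 = ε / (C (s s1)^2)`, `A = s1 / (2 K)`); the sum of `κ - 1` is `≤ (κ+1)/(2 nr θ)`
(`geo`), small unless `θ` is near `ℤ` (covered by `v1maj`, `q = 1`); the sum over `j < J` and over the
classes `b0 mod W` (coprime to `W`) of the Type II sums: if each is `≤ δ2 V^2 M / W` then the total is
`≤ Λ J φ(W) δ2 V^2 M / W ≤ C (log M)^2 (φ(W)/W)^2 V^2 δ2 M ≤ C (s s1)^2 δ2 M` (`VV φ(W)/W ≤ C s s1 /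
log M`); otherwise `v1ii` gives `q ≤ Q ≤ w` and `v1maj` applies. -/
theorem v1 (ε : ℝ) (hε : 0 < ε) : ∃ w0 : ℕ, ∀ w W : ℕ, w0 ≤ w → IsW w W → ∃ M0 : ℕ, ∀ M : ℕ,
    M0 ≤ M → ∀ r : ℤ, |r| < 2 * W → IsCoprime r (W : ℤ) → ∀ θ : ℝ, ∀ M' : ℤ, 0 ≤ M' → M' ≤ M →
    ‖∑ n ∈ Finset.Ico (0 : ℤ) M', (uu W r n : ℂ) * e (θ * n)‖ ≤ ε * M := by
  wlog hε1 : ε ≤ 1 generalizing ε
  · obtain ⟨w0, h⟩ := this 1 one_pos le_rfl
    refine ⟨w0, fun w W hw hW => ?_⟩
    obtain ⟨M0, h⟩ := h w W hw hW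
    refine ⟨M0, fun M hM r hr hc θ M' h0 h1 => (h M hM r hr hc θ M' h0 h1).trans ?_⟩
    gcongr
    linarith
  obtain ⟨Cd, hCd, hdec⟩ := dec
  obtain ⟨ε', s0, w1, hε'0, hε'1, hdec⟩ := hdec (ε / 10) (by positivity) (by linarith)
  obtain ⟨Ce, hCe, hexp⟩ := exp1
  obtain ⟨K, hK, hv⟩ := v1ii
  have hCe' : (1 : ℝ) ≤ Ce := by exact_mod_cast hCe
  have hK' : (1 : ℝ) ≤ K := by exact_mod_cast hK
  -- choice of `A`, `s`
  obtain ⟨N1, hN1⟩ := v1_pow_small 1 Ce hCe (ε / (20 * Cd * Ce * Ce)) (by positivity)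
  obtain ⟨A, hAN, hACe, hAs0⟩ : ∃ A : ℕ, N1 ≤ A ∧ Ce ≤ A ∧ s0 ≤ A :=
    ⟨max N1 (max Ce s0), le_max_left _ _, (le_max_left _ _).trans (le_max_right _ _),
      (le_max_right _ _).trans (le_max_right _ _)⟩
  have hA1 : 1 ≤ A := hCe.trans hACe
  have hA1' : (1 : ℝ) ≤ A := by exact_mod_cast hA1
  obtain ⟨s, hs⟩ : ∃ s : ℕ, s = Ce * A := ⟨_, rfl⟩
  have hs1 : 1 ≤ s := by rw [hs]; exact Nat.mul_pos hCe hA1
  have hs1' : (1 : ℝ) ≤ s := by exact_mod_cast hs1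
  have hs0 : s0 ≤ s := by rw [hs]; exact hAs0.trans (Nat.le_mul_of_pos_left _ hCe)
  have hsR : (s : ℝ) = Ce * A := by rw [hs]; push_cast; ring
  obtain ⟨wa, hwa⟩ := v1_w_small Ce hCe (ε / (20 * Cd * s * Ce)) (by positivity)
  have hA2 : Cd * s * (Ce * (2 : ℝ) ^ (-(A : ℝ) / Ce)) ≤ ε / 20 := by
    have h := hN1 A hAN
    rw [pow_one, le_div_iff₀ (by positivity)] at h
    rw [hsR]
    have : Cd * (Ce * A) * (Ce * (2 : ℝ) ^ (-(A : ℝ) / Ce)) =
      (A * (2 : ℝ) ^ (-(A : ℝ) / Ce) * (20 * Cd * Ce * Ce)) / 20 := by ring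
    rw [this]
    linarith
  -- choice of `A'`, `s1`, `δ2`
  obtain ⟨N2, hN2⟩ := v1_pow_small (2 * K) K hK
    ((ε / (40 * Cd ^ 2 * s ^ 2 * K ^ 2)) ^ K / K) (by positivity)
  obtain ⟨A', hAN', hAK'⟩ : ∃ A : ℕ, N2 ≤ A ∧ K ≤ A :=
    ⟨max N2 K, le_max_left _ _, le_max_right _ _⟩
  have hA1b : 1 ≤ A' := hK.trans hAK'
  have hA1b' : (1 : ℝ) ≤ A' := by exact_mod_cast hA1b
  obtain ⟨s1, hs1d⟩ : ∃ s1 : ℕ, s1 = K * A' := ⟨_, rfl⟩
  have hs1R : (s1 : ℝ) = K * A' := by rw [hs1d]; push_cast; ring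
  have hs11 : 1 ≤ s1 := by rw [hs1d]; exact Nat.mul_pos hK hA1b
  have hs11' : (1 : ℝ) ≤ s1 := by exact_mod_cast hs11
  obtain ⟨δ2, hδ2d⟩ : ∃ δ2 : ℝ, δ2 = ε / (40 * Cd ^ 2 * s ^ 2 * s1 ^ 2) := ⟨_, rfl⟩
  have hδ2 : 0 < δ2 := by rw [hδ2d]; positivity
  have hδ21 : δ2 ≤ 1 := by
    rw [hδ2d, div_le_one (by positivity)]
    have h1 : (1 : ℝ) ≤ Cd ^ 2 := one_le_pow₀ hCd
    have h2 : (1 : ℝ) ≤ (s : ℝ) ^ 2 := one_le_pow₀ hs1'
    have h3 : (1 : ℝ) ≤ (s1 : ℝ) ^ 2 := one_le_pow₀ hs11'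
    have h4 : (1 : ℝ) ≤ Cd ^ 2 * s ^ 2 := one_le_mul_of_one_le_of_one_le h1 h2
    have h5 : (1 : ℝ) ≤ Cd ^ 2 * s ^ 2 * s1 ^ 2 := one_le_mul_of_one_le_of_one_le h4 h3
    nlinarith
  have hcond : K * (2 : ℝ) ^ (-(A' : ℝ) / K) ≤ δ2 ^ K := by
    have h := hN2 A' hAN'
    rw [le_div_iff₀ (by positivity)] at h
    have h2 : δ2 = (ε / (40 * Cd ^ 2 * s ^ 2 * K ^ 2)) / (A' : ℝ) ^ 2 := by
      rw [hδ2d, hs1R]
      field_simp
    rw [h2, div_pow, le_div_iff₀ (by positivity), ← pow_mul]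
    calc K * (2 : ℝ) ^ (-(A' : ℝ) / K) * (A' : ℝ) ^ (2 * K)
        = (A' : ℝ) ^ (2 * K) * (2 : ℝ) ^ (-(A' : ℝ) / K) * K := by ring
      _ ≤ _ := h
  obtain ⟨Q, T, w2, hQ, hv⟩ := hv δ2 A' hδ2 hδ21 hAK' hcond
  obtain ⟨Q', hQ'⟩ := exists_nat_ge ((Cd * s + 1) * 5 / ε)
  obtain ⟨Q2, hQQ2, hQQ2'⟩ : ∃ Q2 : ℕ, Q ≤ Q2 ∧ Q' ≤ Q2 := ⟨max Q Q', le_max_left _ _, le_max_right _ _⟩
  have hQ2R : (Cd * s + 1) * 5 / ε ≤ Q2 := hQ'.trans (by exact_mod_cast hQQ2')
  have hQ21 : 1 ≤ Q2 := hQ.trans hQQ2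
  refine ⟨max (max w1 w2) (max (max Ce wa) Q2), fun w W hw hW => ?_⟩
  have hww1 : w1 ≤ w := (le_max_left _ _).trans ((le_max_left _ _).trans hw)
  have hww2 : w2 ≤ w := (le_max_right _ _).trans ((le_max_left _ _).trans hw)
  have hwCe : Ce ≤ w := (le_max_left _ _).trans ((le_max_left _ _).trans ((le_max_right _ _).trans hw))
  have hwwa : wa ≤ w := (le_max_right _ _).trans ((le_max_left _ _).trans ((le_max_right _ _).trans hw))
  have hwQ : Q2 ≤ w := (le_max_right _ _).trans ((le_max_right _ _).trans hw)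
  obtain ⟨M1, hdec⟩ := hdec s hs0 w W hww1 hW
  obtain ⟨M2, hmaj⟩ := v1maj W Q2 hW.1 ε hε
  obtain ⟨y0, hv⟩ := hv w W hww2 hW
  have hss : 1 ≤ s * s1 := Nat.mul_pos hs1 hs11
  obtain ⟨M3, hlog⟩ := log_le_rt hss
  obtain ⟨M4, hM4⟩ := Filter.eventually_atTop.mp
    ((rt_tendsto hss).eventually (Filter.eventually_ge_atTop (max (max (4 * W ^ 4) w) (max y0 2))))
  obtain ⟨M5, hM5⟩ := Filter.eventually_atTop.mp
    (((tendsto_rpow_atTop (show 0 < 2 * ε' by positivity)).comp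
      tendsto_natCast_atTop_atTop).eventually (Filter.eventually_ge_atTop (max (100 : ℝ) T)))
  obtain ⟨M6, hM6⟩ : ∃ M6 : ℕ, 1 ≤ M6 := ⟨1, le_rfl⟩
  refine ⟨max (max (max M1 M2) (max M3 M4)) (max M5 M6),
    fun M hM r hr hrc θ M' hM'0 hM'M => ?_⟩
  have hMM1 : M1 ≤ M := (le_max_left _ _).trans ((le_max_left _ _).trans ((le_max_left _ _).trans hM))
  have hMM2 : M2 ≤ M := (le_max_right _ _).trans ((le_max_left _ _).trans ((le_max_left _ _).trans hM))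
  have hMM3 : M3 ≤ M := (le_max_left _ _).trans ((le_max_right _ _).trans ((le_max_left _ _).trans hM))
  have hMM4 : M4 ≤ M := (le_max_right _ _).trans ((le_max_right _ _).trans ((le_max_left _ _).trans hM))
  have hMM5 : M5 ≤ M := (le_max_left _ _).trans ((le_max_right _ _).trans hM)
  have hMM6 : 1 ≤ M := hM6.trans ((le_max_right _ _).trans ((le_max_right _ _).trans hM))
  have hMR : (1 : ℝ) ≤ M := by exact_mod_cast hMM6
  have hWR : (0 : ℝ) < W := by exact_mod_cast hW.1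
  by_cases hnear : ∃ q : ℕ, 1 ≤ q ∧ q ≤ Q2 ∧ nr (q * (W * θ)) ≤ Q2 * W / M
  · obtain ⟨q, hq1, hq2, hq3⟩ := hnear
    exact hmaj M hMM2 r hr hrc q hq1 hq2
      (fun p hp hpq => (hW.2 p hp).mpr ((Nat.le_of_dvd hq1 hpq).trans (hq2.trans hwQ))) θ hq3
      M' hM'0 hM'M
  push Not at hnear
  -- the parameter `y`
  obtain ⟨y, hyd⟩ : ∃ y : ℕ, y = rt (s * s1) M := ⟨_, rfl⟩
  have hy4 : max (max (4 * W ^ 4) w) (max y0 2) ≤ y := by rw [hyd]; exact hM4 M hMM4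
  have hyW : 4 * W ^ 4 ≤ y := (le_max_left _ _).trans ((le_max_left _ _).trans hy4)
  have hyw : w ≤ y := (le_max_right _ _).trans ((le_max_left _ _).trans hy4)
  have hyy0 : y0 ≤ y := (le_max_left _ _).trans ((le_max_right _ _).trans hy4)
  have hy2 : 2 ≤ y := (le_max_right _ _).trans ((le_max_right _ _).trans hy4)
  have hylog : Real.log M ≤ 2 * (s * s1) * Real.log y := by
    have := hlog M hMM3
    rw [← hyd] at this
    exact_mod_cast this
  obtain ⟨z, hzd⟩ : ∃ z : ℕ, z = rt s M := ⟨_, rfl⟩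
  have hyz1 : y ^ (K * A') ≤ z := by
    rw [hyd, hzd, ← hs1d]
    exact rt_mono_pow hs1 hs11 M
  have hyz : y ≤ z := by
    refine le_trans ?_ hyz1
    exact Nat.le_self_pow (by positivity) y
  have hz2 : 2 ≤ z := hy2.trans hyz
  have hWz : W < z := by
    have h1 : W ≤ W ^ 4 := Nat.le_self_pow (by norm_num) W
    have h2 : 1 ≤ W ^ 4 := Nat.one_le_pow _ _ hW.1
    omega
  obtain ⟨κ, Λ, J, err, hκ0, hκ, hJ, hΛ0, hΛ, hjB, herr, hdec⟩ := hdec M hMM1 r hr hrc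
  rw [← hzd] at hjB hdec
  -- bound for the rough part
  have hR1 : ‖∑ n ∈ Finset.Ico (0 : ℤ) M', ((rho (sprimes w z) (r + W * n) - 1 : ℝ) : ℂ)
      * e (θ * n)‖ ≤ Ce * er Ce A w * M := by
    refine hexp A w z W M (sprimes w z) hACe hwCe hz2 (pset_sprimes w z) hW ?_ r 0 M' hM'0
      (by simpa using hM'M) θ
    rw [← hs, hzd]
    exact rt_pow_le hs1 M
  have hκR1 : κ * (Ce * er Ce A w * M) ≤ ε / 10 * M := by
    have h1 : κ * (Ce * er Ce A w) ≤ ε / 10 := by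
      have h2 : κ * (Ce * er Ce A w) ≤ Cd * s * (Ce * er Ce A w) :=
        mul_le_mul_of_nonneg_right hκ (mul_nonneg (by positivity) (er_nonneg _ _ _))
      refine h2.trans ?_
      unfold er
      have h3 := hwa w hwwa
      rw [le_div_iff₀ (by positivity)] at h3
      have h4 : Cd * s * (Ce * ((2 : ℝ) ^ (-(A : ℝ) / Ce) + (w : ℝ) ^ (-(1 : ℝ) / Ce))) =
        Cd * s * (Ce * (2 : ℝ) ^ (-(A : ℝ) / Ce)) +
          ((w : ℝ) ^ (-(1 : ℝ) / Ce) * (20 * Cd * s * Ce)) / 20 := by ring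
      rw [h4]
      linarith
    calc κ * (Ce * er Ce A w * M) = κ * (Ce * er Ce A w) * M := by ring
      _ ≤ ε / 10 * M := mul_le_mul_of_nonneg_right h1 (by positivity)
  -- bound for the constant part
  have hnrW : (Q2 : ℝ) / M < nr θ := by
    have h1 := hnear 1 le_rfl hQ21
    have h2 : nr (((1 : ℕ) : ℝ) * (W * θ)) ≤ W * nr θ := by
      rw [Nat.cast_one, one_mul]
      exact nr_natmul_le W θ
    have h3 : (Q2 : ℝ) * W / M < W * nr θ := h1.trans_le h2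
    have h4 : (Q2 : ℝ) * W / M = W * (Q2 / M) := by ring
    rw [h4] at h3
    exact lt_of_mul_lt_mul_left h3 hWR.le
  have hR2 : ‖∑ n ∈ Finset.Ico (0 : ℤ) M', e (θ * n)‖ ≤ ε / (10 * (Cd * s + 1)) * M := by
    have h1 := geo 0 M' hM'0 θ
    have hnr0 : 0 < nr θ := lt_of_le_of_lt (by positivity) hnrW
    have h2 : ‖∑ n ∈ Finset.Ico (0 : ℤ) M', e (θ * n)‖ ≤ 1 / (2 * nr θ) := by
      rw [le_div_iff₀ (by positivity)]
      exact h1
    refine h2.trans ?_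
    rw [div_le_iff₀ (by positivity)]
    have h3 : (Cd * s + 1) * 5 / ε / M ≤ nr θ := by
      refine le_trans ?_ hnrW.le
      gcongr
    rw [div_div, div_le_iff₀ (by positivity)] at h3
    rw [div_mul_eq_mul_div, div_mul_eq_mul_div, le_div_iff₀ (by positivity)]
    linarith
  have hκR2 : (κ + 1) * (ε / (10 * (Cd * s + 1)) * M) ≤ ε / 10 * M := by
    have h1 : κ + 1 ≤ Cd * s + 1 := by linarith
    have h2 : (κ + 1) * (ε / (10 * (Cd * s + 1)) * M) ≤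
      (Cd * s + 1) * (ε / (10 * (Cd * s + 1)) * M) :=
      mul_le_mul_of_nonneg_right h1 (by positivity)
    refine h2.trans (le_of_eq ?_)
    field_simp
  -- Type II
  have hVnn : 0 ≤ VV (sprimes w y) := (VV_pos (pset_sprimes w y).prime).le
  have hR3 : ∀ j < J, ∀ t ∈ (Finset.range W).filter (Nat.Coprime W),
      ‖∑ n ∈ Finset.Ico (0 : ℤ) M', fII W r ((Pj z j).filter (fun b => b % W = t)) (βj z j) n
        * e (θ * n)‖ ≤ δ2 * VV (sprimes w y) ^ 2 * M / W := by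
    intro j hj t ht
    by_contra hcon
    push Not at hcon
    rw [Finset.mem_filter, Finset.mem_range] at ht
    have hBj := hjB j hj
    have hB2 : ((z * 2 ^ j : ℕ) : ℝ) ^ 2 * (M : ℝ) ^ (2 * ε') ≤ M := by
      have h1 : ((z * 2 ^ j : ℕ) : ℝ) ≤ (M : ℝ) ^ (1 / 2 - ε') := by
        push_cast
        exact hBj
      have h2 : ((z * 2 ^ j : ℕ) : ℝ) ^ 2 ≤ ((M : ℝ) ^ (1 / 2 - ε')) ^ 2 := by gcongr
      have h3 : ((M : ℝ) ^ (1 / 2 - ε')) ^ 2 * (M : ℝ) ^ (2 * ε') = M := by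
        rw [← Real.rpow_natCast, ← Real.rpow_mul (by positivity), ← Real.rpow_add (by positivity)]
        have : (1 / 2 - ε') * ((2 : ℕ) : ℝ) + 2 * ε' = 1 := by push_cast; ring
        rw [this, Real.rpow_one]
      exact (mul_le_mul_of_nonneg_right h2 (by positivity)).trans (le_of_eq h3)
    have hM5' : max (100 : ℝ) T ≤ (M : ℝ) ^ (2 * ε') := hM5 M hMM5
    have h100 : 100 * (z * 2 ^ j) ^ 2 ≤ M := by
      have h1 : (100 : ℝ) * ((z * 2 ^ j : ℕ) : ℝ) ^ 2 ≤ M := by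
        refine le_trans ?_ hB2
        rw [mul_comm]
        exact mul_le_mul_of_nonneg_left ((le_max_left _ _).trans hM5') (by positivity)
      exact_mod_cast h1
    have hT : T * (z * 2 ^ j) ^ 2 ≤ M := by
      have h1 : (T : ℝ) * ((z * 2 ^ j : ℕ) : ℝ) ^ 2 ≤ M := by
        refine le_trans ?_ hB2
        rw [mul_comm]
        exact mul_le_mul_of_nonneg_left ((le_max_right _ _).trans hM5') (by positivity)
      exact_mod_cast h1
    have hcfg : Cfg w W y (z * 2 ^ j) M r (t : ℤ) ((Pj z j).filter (fun b => b % W = t)) ∅ := by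
      refine ⟨hW, hr, hrc, ⟨by positivity, by exact_mod_cast ht.1⟩, ?_, hyW, hyw, h100, ?_, ?_⟩
      · exact (Nat.isCoprime_iff_coprime.mpr ht.2).symm
      · intro b hb
        rw [Finset.mem_filter, Pj, Finset.mem_filter, Finset.mem_Ioc] at hb
        refine ⟨hb.1.2, hb.1.1.1.le, hb.1.1.2.trans (le_of_eq (by ring)), ?_⟩
        rw [← hb.2]
        exact_mod_cast Int.dvd_self_sub_emod (x := (b : ℤ)) (m := (W : ℤ))
      · exact Finset.empty_subset _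
    have hbeta : BetaOK (sprimes w y) (βj z j) := by
      intro a
      constructor
      · unfold βj
        split_ifs <;> simp
      · intro hR
        unfold βj
        rw [if_neg]
        rintro ⟨-, h2⟩
        apply hR
        intro p hp
        rw [mem_sprimes] at hp
        refine h2 p hp.1 ?_
        have h3 : z ≤ z * 2 ^ (j + 1) := Nat.le_mul_of_pos_right _ (by positivity)
        omega
    obtain ⟨q, hq1, hq2, hq3⟩ := hv y (z * 2 ^ j) M r (t : ℤ) _ hyy0 hcfg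
      (hyz1.trans (Nat.le_mul_of_pos_right _ (by positivity))) hT (βj z j) θ M' hbeta hM'0 hM'M
      hcon.le
    have h4 := hnear q hq1 (hq2.trans hQQ2)
    have h5 : (Q : ℝ) * W / M ≤ Q2 * W / M := by
      have : (Q : ℝ) ≤ Q2 := by exact_mod_cast hQQ2
      gcongr
    linarith
  have hcard : (((Finset.range W).filter (Nat.Coprime W)).card : ℝ) = Nat.totient W := by
    norm_cast
  have hΛR3 : Λ * (J * ((((Finset.range W).filter (Nat.Coprime W)).card : ℝ) *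
      (δ2 * VV (sprimes w y) ^ 2 * M / W))) ≤ ε / 10 * M := by
    rw [hcard]
    have hlogy : 0 < Real.log y := Real.log_pos (by exact_mod_cast (show 1 < y by omega))
    have hlogM : 0 ≤ Real.log M := Real.log_nonneg hMR
    have hφ : 0 ≤ (Nat.totient W / W : ℝ) := by positivity
    obtain ⟨P, hP⟩ : ∃ P : ℝ, P = (Nat.totient W / W : ℝ) * VV (sprimes w y) := ⟨_, rfl⟩
    have hP0 : 0 ≤ P := by rw [hP]; positivity
    have hP1 : P * Real.log y ≤ 1 := by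
      have := phi_mul_VV_le hW hyw hy2
      rwa [← hP, le_div_iff₀ hlogy] at this
    have hPM : Real.log M * P ≤ 2 * (s * s1) := by
      calc Real.log M * P ≤ 2 * (s * s1) * Real.log y * P :=
            mul_le_mul_of_nonneg_right hylog hP0
        _ = 2 * (s * s1) * (P * Real.log y) := by ring
        _ ≤ 2 * (s * s1) * 1 := by gcongr
        _ = _ := by ring
    have h1 : Λ * J ≤ (Cd * (Nat.totient W / W) * Real.log M) * (Cd * Real.log M) :=
      mul_le_mul hΛ hJ (by positivity) (by positivity)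
    have h2 : Λ * (J * ((Nat.totient W : ℝ) * (δ2 * VV (sprimes w y) ^ 2 * M / W))) =
      (Λ * J) * ((Nat.totient W / W : ℝ) * VV (sprimes w y) ^ 2 * (δ2 * M)) := by
      field_simp
    rw [h2]
    calc (Λ * J) * ((Nat.totient W / W : ℝ) * VV (sprimes w y) ^ 2 * (δ2 * M))
        ≤ ((Cd * (Nat.totient W / W) * Real.log M) * (Cd * Real.log M)) *
          ((Nat.totient W / W : ℝ) * VV (sprimes w y) ^ 2 * (δ2 * M)) :=
          mul_le_mul_of_nonneg_right h1 (by positivity)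
      _ = Cd ^ 2 * (Real.log M * P) ^ 2 * (δ2 * M) := by rw [hP]; ring
      _ ≤ Cd ^ 2 * (2 * (s * s1)) ^ 2 * (δ2 * M) := by gcongr
      _ = ε / 10 * M := by
        rw [hδ2d]
        field_simp
        ring
  have hmain := v1_norm_sum (Finset.Ico (0 : ℤ) M') κ Λ hκ0 hΛ0 J
    ((Finset.range W).filter (Nat.Coprime W)) (fun n => (uu W r n : ℂ))
    (fun n => ((rho (sprimes w z) (r + W * n) - 1 : ℝ) : ℂ)) (fun n => e (θ * n))
    (fun j t n => fII W r ((Pj z j).filter (fun b => b % W = t)) (βj z j) n) err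
    (fun n => (norm_e _).le) ?_ _ _ _ (ε / 10 * M) hR1 hR2 hR3 ?_
  · refine hmain.trans ?_
    have : 0 ≤ ε * M := by positivity
    linarith
  · intro n hn
    have hn' : n ∈ Finset.Ico (0 : ℤ) M := by
      rw [Finset.mem_Ico] at hn ⊢
      omega
    rw [hdec n hn']
    congr 3
    refine Finset.sum_congr rfl fun j _ => ?_
    refine v1_sum_class W hW.1 r (Pj z j) (βj z j) n fun b hb => ?_
    rw [Pj, Finset.mem_filter, Finset.mem_Ioc] at hb
    have h1 : W < b := by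
      have h3 : z ≤ z * 2 ^ j := Nat.le_mul_of_pos_right _ (by positivity)
      omega
    exact ((Nat.Prime.coprime_iff_not_dvd hb.2).mpr
      (fun h => absurd (Nat.le_of_dvd hW.1 h) (by omega))).symm
  · refine le_trans ?_ herr
    exact Finset.sum_le_sum_of_subset_of_nonneg
      (Finset.Ico_subset_Ico_right hM'M) (fun _ _ _ => abs_nonneg _)

end Pool.Agent.Lib.H18GB
end
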