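import Pool.Agent.Lib.H1M.RV.M004
import Pool.Agent.Lib.H1M.RV.M010
import Pool.Agent.Lib.H1M.RV.M012
import Pool.Agent.Lib.H1M.RV.M018
import Pool.Agent.Lib.H1M.RV.M019
import Pool.Agent.Lib.H1M.RV.M020
import Pool.Agent.Lib.H1M.RV.M021
import Pool.Agent.Lib.H1M.RV.M022
import Pool.Agent.Lib.H1M.RV.M025
import Pool.Agent.Lib.H1M.RV.M029
import Pool.Agent.Lib.H1M.RV.M030
import Pool.Agent.Lib.H1M.RV.M037
import Pool.Agent.Lib.H1M.RV.M046
import Pool.Agent.Lib.H1M.RV.M048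
import Pool.Agent.Lib.H1M.RV.M050
import Pool.Agent.Lib.H1M.RV.M072

/-! Merged copies (to shorten the build) of Lib.H18Q.PD, Lib.H68T.DA, Lib.H68X.XPN0, Lib.H68X.XDA. -/

-- from Lib.H18Q.PD
section

/-!
# Project H18Q, chunk PD: sums over the zeros
-/

open Finset

namespace Pool.Agent.Lib.H18Q

open Pool.Agent.Lib.H68T

theorem pd_mono {C0 C1 ℓ T : ℝ} {f : ℂ → ℂ} (h : LDat C0 ℓ T f) (hC : C0 ≤ C1) (hℓ : 0 < ℓ) :
    LDat C1 ℓ T f := by
  refine ⟨h.diff, h.zre, ?_, ?_⟩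
  · intro lam v h1 h2 h3 s hs
    refine (h.growth lam v h1 h2 h3 s hs).trans ?_
    exact mul_le_mul_of_nonneg_right (Real.exp_le_exp.2 (mul_le_mul_of_nonneg_right hC hℓ.le))
      (norm_nonneg _)
  · intro lam v h1 h2 h3
    refine (h.ld lam v h1 h2 h3).trans ?_
    have : 0 < lam := lt_of_lt_of_le (by positivity) h1
    exact div_le_div_of_nonneg_right hC this.le

theorem pd_ne {C0 ℓ T : ℝ} {f : ℂ → ℂ} (h : LDat C0 ℓ T f) : ∃ c, f c ≠ 0 := by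
  refine ⟨2, fun h0 => ?_⟩
  have := h.zre 2 h0
  norm_num at this

theorem pd_log {Q : ℕ} (h : (2 : ℝ) ≤ Q) : 0 < Real.log Q := Real.log_pos (by linarith)

theorem Fam_Lp : ∃ C0 K : ℝ, 1 ≤ C0 ∧ ∀ Q : ℕ, K ≤ Q → Fam C0 Q Lp := by
  obtain ⟨C0, K, h0, h⟩ := LDat_Lp
  exact ⟨C0, K, h0, fun Q hQ => ⟨fun p hp => h Q hQ p hp, fun p _ ρ hρ => hρ, fun p _ ρ => le_refl _⟩⟩

/-- The family with the exceptional zero removed: `LDat_Lp` and `LDat_dslope`; `dslope_zero`,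
`od_dslope_le` of `Z0`. (`(r, ψ) ≠ p0` as `ψ ≠ 1`; `Lp ⟨r, ψ⟩ = ψ.LFunction` by `Lp_mk`.) -/
theorem Fam_Lx : ∃ C0 K : ℝ, 1 ≤ C0 ∧ ∀ Q : ℕ, K ≤ Q → ∀ (r : ℕ) [NeZero r]
    (ψ : DirichletCharacter ℂ r), r ≤ Q → ψ ≠ 1 → ∀ β : ℝ, 3 / 4 ≤ β → β < 1 →
    ψ.LFunction (β : ℂ) = 0 → Fam C0 Q (Lx r ψ β) := by
  obtain ⟨C1, K1, h1, H1⟩ := LDat_Lp
  obtain ⟨C2, K2, h2, H2⟩ := LDat_dslope
  refine ⟨max C1 C2, max (max K1 K2) 2, h1.trans (le_max_left _ _), ?_⟩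
  intro Q hQ r _ ψ hr hψ β hβ hβ1 hβ0
  have hQ1 : K1 ≤ Q := ((le_max_left _ _).trans (le_max_left _ _)).trans hQ
  have hQ2 : K2 ≤ Q := ((le_max_right _ _).trans (le_max_left _ _)).trans hQ
  have hQ3 : (2 : ℝ) ≤ Q := (le_max_right _ _).trans hQ
  have hL := pd_log hQ3
  have hne : (⟨r, ψ⟩ : Σ r : ℕ, DirichletCharacter ℂ r) ≠ p0 := by
    intro h
    unfold p0 at h
    rw [Sigma.mk.injEq] at h
    obtain ⟨h3, h4⟩ := h
    subst h3
    exact hψ (eq_of_heq h4)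
  have hLp := Lp_mk r ψ hne
  refine ⟨?_, ?_, ?_⟩
  · intro p hp
    by_cases h : p = ⟨r, ψ⟩
    · subst h
      rw [Lx_mk, hLp]
      exact pd_mono (H2 Q hQ2 r ψ hr hψ β hβ hβ1 hβ0) (le_max_right _ _) hL
    · rw [Lx_of_ne r ψ β p h]
      exact pd_mono (H1 Q hQ1 p hp) (le_max_left _ _) hL
  · intro p hp ρ hρ
    by_cases h : p = ⟨r, ψ⟩
    · subst h
      rw [Lx_mk] at hρ
      exact dslope_zero (by rw [hLp]; exact hβ0) hρ
    · rwa [Lx_of_ne r ψ β p h] at hρ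
  · intro p hp ρ
    by_cases h : p = ⟨r, ψ⟩
    · subst h
      rw [Lx_mk]
      have h5 := H1 Q hQ1 _ hp
      exact od_dslope_le h5.diff (pd_ne h5) (by rw [hLp]; exact hβ0) ρ
    · rw [Lx_of_ne r ψ β p h]

/-- Zero-free region at a good level: `zero_free_complex`, `zero_free_real`, `zero_free_zeta`
(`lab3_Z_zero`) and `Good` for the real zeros of real characters (a zero `ρ` with `Im ρ = 0` is
`(Re ρ : ℂ)`, `Re ρ ≤ 1`). -/
theorem zero_free_good (c : ℝ) (hc : 0 < c) : ∃ c' K : ℝ, 0 < c' ∧ ∀ Q : ℕ, K ≤ Q → Good c Q →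
    ∀ p ∈ PC Q, ∀ ρ : ℂ, Lp p ρ = 0 → |ρ.im| ≤ (Q : ℝ) ^ 8 →
    c' / Real.log Q ≤ 1 - ρ.re := by
  obtain ⟨c1, K1, hc1, H1⟩ := zero_free_complex
  obtain ⟨c2, K2, hc2, H2⟩ := zero_free_real
  obtain ⟨c3, K3, hc3, H3⟩ := zero_free_zeta
  obtain ⟨C0, K4, h0, H4⟩ := LDat_Lp
  refine ⟨min (min c1 c2) (min c3 c), max (max K1 K2) (max (max K3 K4) 2),
    lt_min (lt_min hc1 hc2) (lt_min hc3 hc), ?_⟩
  intro Q hQ hG p hp ρ hρ him
  have hQ1 : K1 ≤ Q := ((le_max_left _ _).trans (le_max_left _ _)).trans hQ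
  have hQ2 : K2 ≤ Q := ((le_max_right _ _).trans (le_max_left _ _)).trans hQ
  have hQ' : max (max K3 K4) 2 ≤ (Q : ℝ) := (le_max_right _ _).trans hQ
  have hQ3 : K3 ≤ Q := ((le_max_left _ _).trans (le_max_left _ _)).trans hQ'
  have hQ4 : K4 ≤ Q := ((le_max_right _ _).trans (le_max_left _ _)).trans hQ'
  have hQ5 : (2 : ℝ) ≤ Q := (le_max_right _ _).trans hQ'
  have hL := pd_log hQ5
  have him' : |ρ.im| ≤ (Q : ℝ) ^ 12 + 1 := by
    have h1 : (Q : ℝ) ^ 8 ≤ (Q : ℝ) ^ 12 := pow_le_pow_right₀ (by linarith) (by norm_num)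
    linarith
  have fin : ∀ c' : ℝ, min (min c1 c2) (min c3 c) ≤ c' → ρ.re < 1 - c' / Real.log Q →
      min (min c1 c2) (min c3 c) / Real.log Q ≤ 1 - ρ.re := by
    intro c' h1 h2
    have h3 : min (min c1 c2) (min c3 c) / Real.log Q ≤ c' / Real.log Q :=
      div_le_div_of_nonneg_right h1 hL.le
    linarith
  have m1 : min (min c1 c2) (min c3 c) ≤ c1 := (min_le_left _ _).trans (min_le_left _ _)
  have m2 : min (min c1 c2) (min c3 c) ≤ c2 := (min_le_left _ _).trans (min_le_right _ _)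
  have m3 : min (min c1 c2) (min c3 c) ≤ c3 := (min_le_right _ _).trans (min_le_left _ _)
  have m4 : min (min c1 c2) (min c3 c) ≤ c := (min_le_right _ _).trans (min_le_right _ _)
  by_cases hp0 : p = p0
  · rw [hp0, Lp_p0] at hρ
    exact fin c3 m3 (H3 Q hQ3 ρ (lab3_Z_zero ρ hρ) him')
  · have hψ := ne_one_of_ne_p0 hp hp0
    have hre := (H4 Q hQ4 p hp).zre ρ hρ
    obtain ⟨hne, hLp⟩ := Lp_mem hp hp0
    obtain ⟨hr1, hr2, hprim⟩ := mem_PC.1 hp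
    rw [hLp] at hρ
    by_cases hsq : p.2 ^ 2 = 1
    · by_cases hi : ρ.im = 0
      · have hρ' : ρ = (ρ.re : ℂ) := by
          apply Complex.ext
          · simp
          · simp [hi]
        have h5 : ρ.re < 1 - c / Real.log Q := by
          by_contra hcon
          push Not at hcon
          rw [hρ'] at hρ
          exact hG p.1 p.2 hr2 hprim hψ hsq ρ.re hcon hre.le hρ
        exact fin c m4 h5
      · exact fin c2 m2 (H2 Q hQ2 p.1 p.2 hr2 hψ hsq ρ hρ hi him')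
    · exact fin c1 m1 (H1 Q hQ1 p.1 p.2 hr2 hsq ρ hρ him')

theorem pd_exp {x : ℝ} (h0 : 0 ≤ x) (h1 : x ≤ 1) : 1 / (1 + x) ≤ Real.exp (-(x / 2)) := by
  have h2 : 1 / (1 + x) ≤ 1 - x / 2 := by
    rw [div_le_iff₀ (by linarith)]
    nlinarith
  exact h2.trans (Real.one_sub_le_exp_neg (x / 2))

theorem pd_pow {x : ℝ} (h0 : 0 ≤ x) (h1 : x ≤ 1) (k : ℕ) :
    (1 / (1 + x)) ^ k ≤ Real.exp (-(x / 2 * k)) := by
  have h2 := pow_le_pow_left₀ (by positivity) (pd_exp h0 h1) k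
  refine h2.trans (le_of_eq ?_)
  rw [← Real.exp_nat_mul]
  congr 1
  ring

theorem pd_geo (C κ : ℝ) (hC : 1 ≤ C) (hκ : C + 1 ≤ κ) (J : ℕ) :
    ∑ j ∈ Finset.range J, Real.exp (-(κ * j)) * (C * Real.exp (C * (j + 1))) ≤ 2 * C * Real.exp C := by
  have h1 : Real.exp (-1) ≤ 1 / 2 := by
    have h2 : (2 : ℝ) ≤ Real.exp 1 := by
      have := Real.add_one_le_exp (1 : ℝ)
      linarith
    rw [Real.exp_neg, one_div]
    exact inv_anti₀ (by norm_num) h2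
  have h3 : ∀ j ∈ Finset.range J, Real.exp (-(κ * j)) * (C * Real.exp (C * (j + 1))) ≤
      C * Real.exp C * (1 / 2) ^ j := by
    intro j _
    have h4 : Real.exp (-(κ * j)) * (C * Real.exp (C * (j + 1))) =
        C * Real.exp C * (Real.exp (C - κ)) ^ j := by
      rw [← Real.exp_nat_mul]
      have : Real.exp (-(κ * j)) * (C * Real.exp (C * (j + 1))) =
          C * (Real.exp (-(κ * j)) * Real.exp (C * (j + 1))) := by ring
      rw [this, ← Real.exp_add, mul_assoc, ← Real.exp_add]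
      congr 2
      ring
    rw [h4]
    apply mul_le_mul_of_nonneg_left _ (by positivity)
    exact pow_le_pow_left₀ (Real.exp_pos _).le ((Real.exp_le_exp.2 (by linarith)).trans h1) j
  calc _ ≤ ∑ j ∈ Finset.range J, C * Real.exp C * (1 / 2) ^ j := Finset.sum_le_sum h3
    _ = C * Real.exp C * ∑ j ∈ Finset.range J, (1 / 2 : ℝ) ^ j := by rw [Finset.mul_sum]
    _ ≤ C * Real.exp C * 2 := by
        apply mul_le_mul_of_nonneg_left _ (by positivity)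
        exact sum_geometric_two_le J
    _ = 2 * C * Real.exp C := by ring

/-- **Sum over the zeros.** If all zeros of the family with `|Im ρ| ≤ Q^8` have
`1 - Re ρ ≥ z/log Q`, then `∑_p ∑_ρ od(ρ) (1 + 64 (1 - Re ρ))^(-kX X) ≤ C exp (-K z/16) + Q^(-6)`.

Proof. Let `k = kX X ≥ log X/64 - 1 ≥ (K/100) log Q` (`log X ≥ K log Q`, `K` large), `δ = 1 - Re ρ`,
`θ' = min (θ/2) (1/64)` with the `θ` of `zero_density`. (i) `δ ≥ θ'`: the term is at most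
`(1 + 64 θ')^(-k) ≤ exp (-32 θ' k) ≤ Q^(-32 θ' K/100)` (`log (1+x) ≥ x/2` for `0 ≤ x ≤ 1`), the number
of zeros is at most `Q² Q^9` (`card_PC_le`, `zero_crude`, `Fam.zer`, `Fam.ord`): total `≤ Q^(-6)` if
`32 θ' K/100 ≥ 17`. (ii) `δ < θ'`: with `y = δ log Q ≥ z` the term is at most `exp (-32 δ k) ≤
exp (-(32 K/100) y) ≤ exp (-(K/8) z) exp (-(K/8) y)` (also if `z < 0`: then use `y ≥ 0`,
`exp(-K z/16) ≥ 1`). Split by `j = ⌊y⌋`, `0 ≤ j ≤ θ' log Q`, `j + 1 ≤ θ log Q` for `Q` large: the zeros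
with `y < j + 1` number at most `C exp (C (j+1))` (`zero_density` with `κ = j + 1`; `Fam.zer`,
`Fam.ord`). `∑_j C exp (C (j+1) - (K/8) j) ≤ 2 C e^C` for `K ≥ 8 (C + 1)`. -/
theorem zero_sum (C0 : ℝ) (h0 : 1 ≤ C0) : ∃ C K0 : ℝ, 1 ≤ C ∧ 1 ≤ K0 ∧ ∀ K : ℝ, K0 ≤ K →
    ∀ Q X : ℕ, RegP K Q X → ∀ g : (Σ r : ℕ, DirichletCharacter ℂ r) → ℂ → ℂ, Fam C0 Q g →
    ∀ z : ℝ, (∀ p ∈ PC Q, ∀ ρ : ℂ, g p ρ = 0 → |ρ.im| ≤ (Q : ℝ) ^ 8 →
      z / Real.log Q ≤ 1 - ρ.re) →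
    ∑ p ∈ PC Q, ∑ ρ ∈ ZR (g p) (1 - 1 / 8) ((Q : ℝ) ^ 8), (od (g p) ρ : ℝ) *
      (1 / (1 + 64 * (1 - ρ.re))) ^ kX X ≤ C * Real.exp (-(K / 16 * z)) + (Q : ℝ) ^ (-6 : ℝ) := by
  obtain ⟨C, θ, K1, hC, hθ, HD⟩ := zero_density
  obtain ⟨K2, HC⟩ := zero_crude
  obtain ⟨C4, K4, h4, H4⟩ := LDat_Lp
  obtain ⟨θ', hθ'0, hθ'1, hθ'2⟩ : ∃ θ' : ℝ, 0 < θ' ∧ θ' ≤ θ / 2 ∧ θ' ≤ 1 / 64 :=
    ⟨min (θ / 2) (1 / 64), lt_min (by linarith) (by norm_num), min_le_left _ _, min_le_right _ _⟩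
  obtain ⟨K0, hK0a, hK0b, hK0c, hK0d, hK0e, hK0f, hK0g⟩ : ∃ K0 : ℝ, 14 ≤ K0 ∧ 8 * (C + 1) ≤ K0 ∧
      1700 / (32 * θ') ≤ K0 ∧ K1 ≤ K0 ∧ K2 ≤ K0 ∧ K4 ≤ K0 ∧ 2 / θ ≤ K0 := by
    refine ⟨14 + 8 * (C + 1) + 1700 / (32 * θ') + |K1| + |K2| + |K4| + 2 / θ, ?_, ?_, ?_, ?_, ?_, ?_, ?_⟩ <;>
    · have e1 : 0 < 1700 / (32 * θ') := by positivity
      have e2 : 0 < 2 / θ := by positivity
      have e3 := abs_nonneg K1
      have e4 := abs_nonneg K2
      have e5 := abs_nonneg K4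
      have e6 := le_abs_self K1
      have e7 := le_abs_self K2
      have e8 := le_abs_self K4
      linarith
  refine ⟨2 * C * Real.exp C, K0, ?_, by linarith, ?_⟩
  · have := Real.add_one_le_exp C
    nlinarith
  intro K hK Q X hR g hg z hz
  have hK1 : 1 ≤ K := by linarith
  have hLK : K ≤ Real.log Q := hR.logQ_ge hK1
  have hQK : K ≤ (Q : ℝ) := hR.Q_ge hK1
  obtain ⟨L, hL⟩ : ∃ L, L = Real.log Q := ⟨_, rfl⟩
  rw [← hL] at hLK
  have hL0 : 0 < L := by linarith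
  have hQ0 : (0 : ℝ) < Q := by linarith
  have hQL : (Q : ℝ) = Real.exp L := by rw [hL, Real.exp_log hQ0]
  -- k
  have hk : K * L / 100 ≤ (kX X : ℝ) := by
    unfold kX
    have h1 := Nat.lt_floor_add_one (Real.log X / 64)
    have h2 := hR.2.2
    rw [← hL] at h2
    have h3 : 14 * 14 ≤ K * L := by nlinarith
    linarith
  have hθK : 17 ≤ 32 * θ' * K / 100 := by
    have h1 : 1700 / (32 * θ') ≤ K := by linarith
    rw [div_le_iff₀ (by positivity)] at h1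
    linarith
  have hdatg : ∀ p ∈ PC Q, ∀ ρ, ρ ∈ ZR (g p) (1 - 1 / 8) ((Q : ℝ) ^ 8) ↔
      g p ρ = 0 ∧ 1 - 1 / 8 ≤ ρ.re ∧ ρ.re ≤ 1 ∧ |ρ.im| ≤ (Q : ℝ) ^ 8 := by
    intro p hp ρ
    exact mem_ZR (hg.dat p hp).diff (pd_ne (hg.dat p hp))
  have hdatL : ∀ p ∈ PC Q, ∀ σ : ℝ, ∀ ρ, ρ ∈ ZR (Lp p) σ ((Q : ℝ) ^ 8) ↔
      Lp p ρ = 0 ∧ σ ≤ ρ.re ∧ ρ.re ≤ 1 ∧ |ρ.im| ≤ (Q : ℝ) ^ 8 := by
    intro p hp σ ρ
    have h5 := H4 Q (by linarith) p hp
    exact mem_ZR h5.diff (pd_ne h5)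
  obtain ⟨J, hJ⟩ : ∃ J : ℕ, J = ⌊θ' * L⌋₊ + 1 := ⟨_, rfl⟩
  -- the pointwise bound
  have hpt : ∀ p ∈ PC Q, ∀ ρ ∈ ZR (g p) (1 - 1 / 8) ((Q : ℝ) ^ 8),
      (1 / (1 + 64 * (1 - ρ.re))) ^ kX X ≤ Real.exp (-(17 * L)) +
        Real.exp (-(K / 16 * z)) * ∑ j ∈ Finset.range J,
          (if (1 - ρ.re) * L < j + 1 then Real.exp (-(K / 8 * j)) else 0) := by
    intro p hp ρ hρ
    obtain ⟨h1, h2, h3, h5⟩ := (hdatg p hp ρ).1 hρ
    have hzρ := hz p hp ρ h1 h5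
    obtain ⟨δ, hδ⟩ : ∃ δ, δ = 1 - ρ.re := ⟨_, rfl⟩
    rw [← hδ] at hzρ ⊢
    have hδ0 : 0 ≤ δ := by linarith
    have hsum0 : 0 ≤ ∑ j ∈ Finset.range J,
        (if δ * L < j + 1 then Real.exp (-(K / 8 * j)) else 0) := by
      apply Finset.sum_nonneg
      intro j _
      split_ifs
      · exact (Real.exp_pos _).le
      · exact le_refl _
    by_cases hc : θ' ≤ δ
    · have h6 : (1 / (1 + 64 * δ)) ^ kX X ≤ (1 / (1 + 64 * θ')) ^ kX X := by
        apply pow_le_pow_left₀ (by positivity)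
        apply one_div_le_one_div_of_le (by positivity)
        linarith
      have h7 := pd_pow (x := 64 * θ') (by positivity) (by linarith) (kX X)
      have h8 : Real.exp (-(64 * θ' / 2 * (kX X : ℝ))) ≤ Real.exp (-(17 * L)) := by
        apply Real.exp_le_exp.2
        have h9 : 32 * θ' * (K * L / 100) ≤ 32 * θ' * (kX X : ℝ) :=
          mul_le_mul_of_nonneg_left hk (by positivity)
        have h10 : 17 * L ≤ 32 * θ' * K / 100 * L := mul_le_mul_of_nonneg_right hθK hL0.le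
        have h11 : 32 * θ' * K / 100 * L = 32 * θ' * (K * L / 100) := by ring
        have h12 : 64 * θ' / 2 * (kX X : ℝ) = 32 * θ' * (kX X : ℝ) := by ring
        linarith
      have h9 := mul_nonneg (Real.exp_pos (-(K / 16 * z))).le hsum0
      linarith
    · push Not at hc
      have h6 := pd_pow (x := 64 * δ) (by positivity) (by linarith) (kX X)
      have hy0 : 0 ≤ δ * L := by positivity
      have hzy : z ≤ δ * L := by
        rw [← hL, div_le_iff₀ hL0] at hzρ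
        exact hzρ
      have h7 : Real.exp (-(64 * δ / 2 * (kX X : ℝ))) ≤
          Real.exp (-(K / 16 * z)) * Real.exp (-(K / 8 * (δ * L))) := by
        rw [← Real.exp_add]
        apply Real.exp_le_exp.2
        have h8 : 32 * δ * (K * L / 100) ≤ 32 * δ * (kX X : ℝ) :=
          mul_le_mul_of_nonneg_left hk (by positivity)
        have h9 : K / 16 * z ≤ K / 16 * (δ * L) := mul_le_mul_of_nonneg_left hzy (by positivity)
        have h10 : 0 ≤ K * (δ * L) := by positivity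
        have h11 : 32 * δ * (K * L / 100) = 32 / 100 * (K * (δ * L)) := by ring
        have h12 : 64 * δ / 2 * (kX X : ℝ) = 32 * δ * (kX X : ℝ) := by ring
        have h13 : K / 16 * (δ * L) = 1 / 16 * (K * (δ * L)) := by ring
        have h14 : K / 8 * (δ * L) = 1 / 8 * (K * (δ * L)) := by ring
        linarith
      have hjJ : ⌊δ * L⌋₊ ∈ Finset.range J := by
        rw [Finset.mem_range, hJ]
        have : ⌊δ * L⌋₊ ≤ ⌊θ' * L⌋₊ := Nat.floor_le_floor (mul_le_mul_of_nonneg_right hc.le hL0.le)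
        omega
      have h8 : Real.exp (-(K / 8 * (δ * L))) ≤ ∑ j ∈ Finset.range J,
          (if δ * L < j + 1 then Real.exp (-(K / 8 * j)) else 0) := by
        have h9 : (if δ * L < (⌊δ * L⌋₊ : ℝ) + 1 then Real.exp (-(K / 8 * (⌊δ * L⌋₊ : ℝ))) else 0) ≤
            ∑ j ∈ Finset.range J, (if δ * L < j + 1 then Real.exp (-(K / 8 * j)) else 0) := by
          refine Finset.single_le_sum
            (f := fun j : ℕ => if δ * L < (j : ℝ) + 1 then Real.exp (-(K / 8 * (j : ℝ))) else 0) ?_ hjJ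
          intro j _
          split_ifs
          · exact (Real.exp_pos _).le
          · exact le_refl _
        rw [if_pos (Nat.lt_floor_add_one _)] at h9
        refine le_trans (Real.exp_le_exp.2 ?_) h9
        have h10 := Nat.floor_le hy0
        have h11 : K / 8 * (⌊δ * L⌋₊ : ℝ) ≤ K / 8 * (δ * L) := mul_le_mul_of_nonneg_left h10 (by positivity)
        linarith
      have h9 := mul_le_mul_of_nonneg_left h8 (Real.exp_pos (-(K / 16 * z))).le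
      have h10 := (Real.exp_pos (-(17 * L))).le
      linarith
  -- summation
  have hsum1 : ∑ p ∈ PC Q, ∑ ρ ∈ ZR (g p) (1 - 1 / 8) ((Q : ℝ) ^ 8), (od (g p) ρ : ℝ) *
      (1 / (1 + 64 * (1 - ρ.re))) ^ kX X ≤
      ∑ p ∈ PC Q, ∑ ρ ∈ ZR (g p) (1 - 1 / 8) ((Q : ℝ) ^ 8), ((od (g p) ρ : ℝ) * Real.exp (-(17 * L)) +
        Real.exp (-(K / 16 * z)) * ∑ j ∈ Finset.range J, Real.exp (-(K / 8 * j)) *
          (if (1 - ρ.re) * L < j + 1 then (od (g p) ρ : ℝ) else 0)) := by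
    refine Finset.sum_le_sum fun p hp => Finset.sum_le_sum fun ρ hρ => ?_
    refine (mul_le_mul_of_nonneg_left (hpt p hp ρ hρ) (Nat.cast_nonneg _)).trans (le_of_eq ?_)
    rw [mul_add, mul_left_comm]
    congr 2
    rw [Finset.mul_sum]
    refine Finset.sum_congr rfl fun j _ => ?_
    split_ifs
    · ring
    · simp
  refine hsum1.trans ?_
  have hsub : ∀ p ∈ PC Q, ∀ σ : ℝ, ∀ R : Finset ℂ, (∀ ρ ∈ R, g p ρ = 0 ∧ σ ≤ ρ.re ∧ ρ.re ≤ 1 ∧
      |ρ.im| ≤ (Q : ℝ) ^ 8) → ∑ ρ ∈ R, (od (g p) ρ : ℝ) ≤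
        ∑ ρ ∈ ZR (Lp p) σ ((Q : ℝ) ^ 8), (od (Lp p) ρ : ℝ) := by
    intro p hp σ R hR'
    calc ∑ ρ ∈ R, (od (g p) ρ : ℝ) ≤ ∑ ρ ∈ R, (od (Lp p) ρ : ℝ) :=
          Finset.sum_le_sum fun ρ _ => by exact_mod_cast hg.ord p hp ρ
      _ ≤ _ := by
          apply Finset.sum_le_sum_of_subset_of_nonneg
          · intro ρ hρ
            obtain ⟨h1, h2⟩ := hR' ρ hρ
            exact (hdatL p hp σ ρ).2 ⟨hg.zer p hp ρ h1, h2⟩
          · intro ρ _ _
            exact Nat.cast_nonneg _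
  have hA : ∑ p ∈ PC Q, ∑ ρ ∈ ZR (g p) (1 - 1 / 8) ((Q : ℝ) ^ 8), (od (g p) ρ : ℝ) ≤ Real.exp (11 * L) := by
    have h1 : ∀ p ∈ PC Q, ∑ ρ ∈ ZR (g p) (1 - 1 / 8) ((Q : ℝ) ^ 8), (od (g p) ρ : ℝ) ≤ (Q : ℝ) ^ 9 := by
      intro p hp
      refine (hsub p hp (1 - 1 / 8) _ (fun ρ hρ => (hdatg p hp ρ).1 hρ)).trans ?_
      exact HC Q (by linarith) p hp
    refine (Finset.sum_le_card_nsmul _ _ _ h1).trans ?_
    rw [nsmul_eq_mul]
    have h2 : ((PC Q).card : ℝ) ≤ (Q : ℝ) ^ 2 := by exact_mod_cast card_PC_le Q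
    calc ((PC Q).card : ℝ) * (Q : ℝ) ^ 9 ≤ (Q : ℝ) ^ 2 * (Q : ℝ) ^ 9 :=
          mul_le_mul_of_nonneg_right h2 (by positivity)
      _ = (Q : ℝ) ^ 11 := by ring
      _ = Real.exp (11 * L) := by
          rw [hQL, ← Real.exp_nat_mul]
          norm_num
  have hB : ∀ j ∈ Finset.range J, ∑ p ∈ PC Q, ∑ ρ ∈ ZR (g p) (1 - 1 / 8) ((Q : ℝ) ^ 8),
      (if (1 - ρ.re) * L < j + 1 then (od (g p) ρ : ℝ) else 0) ≤ C * Real.exp (C * (j + 1)) := by
    intro j hj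
    rw [Finset.mem_range, hJ] at hj
    have hjL : (j : ℝ) ≤ θ' * L := by
      have h1 : j ≤ ⌊θ' * L⌋₊ := by omega
      have h2 : (j : ℝ) ≤ (⌊θ' * L⌋₊ : ℝ) := by exact_mod_cast h1
      exact h2.trans (Nat.floor_le (by positivity))
    have h1 : (j : ℝ) + 1 ≤ θ * Real.log Q := by
      rw [← hL]
      have h2 : 2 / θ ≤ L := by linarith
      rw [div_le_iff₀ hθ] at h2
      have h3 : θ' * L ≤ θ / 2 * L := mul_le_mul_of_nonneg_right hθ'1 hL0.le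
      linarith
    refine le_trans ?_ (HD Q (by linarith) (j + 1) (by
      have : (0 : ℝ) ≤ j := Nat.cast_nonneg j
      linarith) h1)
    refine Finset.sum_le_sum fun p hp => ?_
    rw [← Finset.sum_filter]
    refine hsub p hp (1 - (j + 1) / Real.log Q) _ ?_
    intro ρ hρ
    rw [Finset.mem_filter] at hρ
    obtain ⟨h2, h3, h5, h6⟩ := (hdatg p hp ρ).1 hρ.1
    refine ⟨h2, ?_, h5, h6⟩
    rw [← hL]
    have h7 : 1 - ρ.re ≤ (j + 1) / L := by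
      rw [le_div_iff₀ hL0]
      exact hρ.2.le
    linarith
  -- assembly
  have hsplit : ∑ p ∈ PC Q, ∑ ρ ∈ ZR (g p) (1 - 1 / 8) ((Q : ℝ) ^ 8), ((od (g p) ρ : ℝ) * Real.exp (-(17 * L)) +
        Real.exp (-(K / 16 * z)) * ∑ j ∈ Finset.range J, Real.exp (-(K / 8 * j)) *
          (if (1 - ρ.re) * L < j + 1 then (od (g p) ρ : ℝ) else 0)) =
      (∑ p ∈ PC Q, ∑ ρ ∈ ZR (g p) (1 - 1 / 8) ((Q : ℝ) ^ 8), (od (g p) ρ : ℝ)) * Real.exp (-(17 * L)) +
      Real.exp (-(K / 16 * z)) * ∑ j ∈ Finset.range J, Real.exp (-(K / 8 * j)) *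
        ∑ p ∈ PC Q, ∑ ρ ∈ ZR (g p) (1 - 1 / 8) ((Q : ℝ) ^ 8),
          (if (1 - ρ.re) * L < j + 1 then (od (g p) ρ : ℝ) else 0) := by
    simp only [Finset.sum_add_distrib]
    congr 1
    · rw [Finset.sum_mul]
      refine Finset.sum_congr rfl fun p _ => ?_
      rw [Finset.sum_mul]
    · simp only [← Finset.mul_sum]
      congr 1
      simp only [Finset.mul_sum]
      have e1 : ∀ p ∈ PC Q, ∑ ρ ∈ ZR (g p) (1 - 1 / 8) ((Q : ℝ) ^ 8), ∑ j ∈ Finset.range J,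
          Real.exp (-(K / 8 * j)) * (if (1 - ρ.re) * L < j + 1 then (od (g p) ρ : ℝ) else 0) =
          ∑ j ∈ Finset.range J, ∑ ρ ∈ ZR (g p) (1 - 1 / 8) ((Q : ℝ) ^ 8),
          Real.exp (-(K / 8 * j)) * (if (1 - ρ.re) * L < j + 1 then (od (g p) ρ : ℝ) else 0) :=
        fun p _ => Finset.sum_comm
      rw [Finset.sum_congr rfl e1]
      exact Finset.sum_comm
  rw [hsplit]
  have h1 : (∑ p ∈ PC Q, ∑ ρ ∈ ZR (g p) (1 - 1 / 8) ((Q : ℝ) ^ 8), (od (g p) ρ : ℝ)) *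
      Real.exp (-(17 * L)) ≤ (Q : ℝ) ^ (-6 : ℝ) := by
    calc _ ≤ Real.exp (11 * L) * Real.exp (-(17 * L)) := mul_le_mul_of_nonneg_right hA (Real.exp_pos _).le
      _ = (Q : ℝ) ^ (-6 : ℝ) := by
          rw [← Real.exp_add, Real.rpow_def_of_pos hQ0, ← hL]
          congr 1
          ring
  have h2 : ∑ j ∈ Finset.range J, Real.exp (-(K / 8 * j)) *
        ∑ p ∈ PC Q, ∑ ρ ∈ ZR (g p) (1 - 1 / 8) ((Q : ℝ) ^ 8),
          (if (1 - ρ.re) * L < j + 1 then (od (g p) ρ : ℝ) else 0) ≤ 2 * C * Real.exp C := by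
    refine (Finset.sum_le_sum fun j hj => mul_le_mul_of_nonneg_left (hB j hj) (Real.exp_pos _).le).trans ?_
    exact pd_geo C (K / 8) hC (by linarith) J
  have h3 := mul_le_mul_of_nonneg_left h2 (Real.exp_pos (-(K / 16 * z))).le
  calc _ ≤ (Q : ℝ) ^ (-6 : ℝ) + Real.exp (-(K / 16 * z)) * (2 * C * Real.exp C) := add_le_add h1 h3
    _ = _ := by ring

end Pool.Agent.Lib.H18Q
end

-- from Lib.H68T.DA
section

/-!
# Chunk DA: the projection `lp * kern` is close to the model `G`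
-/

open Finset

namespace Pool.Agent.Lib.H68T

/-- change of variables `n = m - z` -/
theorem DA_Lk_eq (Q X Y : ℕ) (m : ℤ) (hm : (X : ℤ) ≤ m) (hm4 : m ≤ 4 * X) (hY : Y < X) :
    Lk Q Y m = ∑ n ∈ Icc 1 (60 * X), (lp n * tent Y (m - n)) *
      ∑ q ∈ Icc 1 Q, cq q ((n : ℤ) - m) := by
  unfold Lk
  have h1 : ∑ n ∈ Icc 1 (60 * X), (lp n * tent Y (m - n)) *
      ∑ q ∈ Icc 1 Q, cq q ((n : ℤ) - m) =
      ∑ n ∈ (Icc 1 (60 * X)).filter (fun n : ℕ => |m - (n : ℤ)| < Y), (lp n * tent Y (m - n)) *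
      ∑ q ∈ Icc 1 Q, cq q ((n : ℤ) - m) := by
    rw [sum_filter]
    refine sum_congr rfl fun n _ => ?_
    split_ifs with h
    · rfl
    · have : tent Y (m - n) = 0 := by
        unfold tent
        have h2 : (Y : ℝ) ≤ |((m - n : ℤ) : ℝ)| := by
          have : (Y : ℤ) ≤ |m - (n : ℤ)| := not_lt.mp h
          exact_mod_cast this
        rw [max_eq_left (by linarith), zero_div]
      rw [this, mul_zero, zero_mul]
  rw [h1]
  symm
  refine sum_nbij' (fun n : ℕ => m - (n : ℤ)) (fun z : ℤ => (m - z).toNat) ?_ ?_ ?_ ?_ ?_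
  · intro n hn
    rw [mem_filter] at hn
    rw [mem_Ioo]
    have := abs_lt.mp hn.2
    constructor <;> linarith [this.1, this.2]
  · intro z hz
    rw [mem_Ioo] at hz
    rw [mem_filter, mem_Icc]
    have h3 : ((m - z).toNat : ℤ) = m - z := Int.toNat_of_nonneg (by omega)
    refine ⟨⟨by omega, by omega⟩, ?_⟩
    rw [h3, abs_lt]
    constructor <;> omega
  · intro n hn
    simp
  · intro z hz
    rw [mem_Ioo] at hz
    have h3 : ((m - z).toNat : ℤ) = m - z := Int.toNat_of_nonneg (by omega)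
    simp only [h3]
    ring
  · intro n hn
    have e1 : m - (m - (n : ℤ)) = n := by ring
    rw [e1]
    unfold kern
    have e2 : ∑ q ∈ Icc 1 Q, cq q (m - (n : ℤ)) = ∑ q ∈ Icc 1 Q, cq q ((n : ℤ) - m) := by
      refine sum_congr rfl fun q _ => ?_
      rw [← cq_neg q ((n : ℤ) - m)]
      congr 1
      ring
    rw [e2]
    ring

/-- expansion of the projection in characters -/
theorem DA_expand (Q X Y : ℕ) (m : ℤ) (hm : (X : ℤ) ≤ m) (hm4 : m ≤ 4 * X) (hY : Y < X)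
    (hQ : Q + Y ≤ X) :
    (Lk Q Y m : ℂ) = ∑ p ∈ PC Q, (Gam Q p.1 m : ℂ) * (starRingEnd ℂ) (p.2 (m : ZMod p.1)) *
      ∑ n ∈ Icc 1 (60 * X), ((lp n * tent Y (m - n) : ℝ) : ℂ) * p.2 (n : ZMod p.1) := by
  rw [DA_Lk_eq Q X Y m hm hm4 hY]
  rw [Complex.ofReal_sum]
  have h1 : ∀ n ∈ Icc 1 (60 * X), (((lp n * tent Y (m - n)) *
      ∑ q ∈ Icc 1 Q, cq q ((n : ℤ) - m) : ℝ) : ℂ) =
      ∑ p ∈ PC Q, ((lp n * tent Y (m - n) : ℝ) : ℂ) * ((Gam Q p.1 m : ℂ) *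
        (p.2 (n : ZMod p.1) * (starRingEnd ℂ) (p.2 (m : ZMod p.1)))) := by
    intro n hn
    rw [← mul_sum]
    by_cases h0 : lp n * tent Y (m - n) = 0
    · rw [h0]; simp
    · have hl : lp n ≠ 0 := fun h => h0 (by rw [h, zero_mul])
      have ht : tent Y (m - n) ≠ 0 := fun h => h0 (by rw [h, mul_zero])
      have hp : n.Prime := by
        unfold lp at hl
        by_contra hc
        apply hl
        simp [hc]
      have hlt : |m - (n : ℤ)| < Y := by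
        by_contra hc
        apply ht
        unfold tent
        have h2 : (Y : ℝ) ≤ |((m - n : ℤ) : ℝ)| := by
          have : (Y : ℤ) ≤ |m - (n : ℤ)| := not_lt.mp hc
          exact_mod_cast this
        rw [max_eq_left (by linarith), zero_div]
      have hQn : Q < n := by
        have := abs_lt.mp hlt
        omega
      rw [Complex.ofReal_mul, kernel_char Q n hp hQn m]
  rw [sum_congr rfl h1, sum_comm]
  refine sum_congr rfl fun p _ => ?_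
  rw [mul_sum]
  refine sum_congr rfl fun n _ => ?_
  ring



end Pool.Agent.Lib.H68T
end

-- from Lib.H68X.XPN0
section

/-!
# Chunk XPN0: prime number theorem with error `sw`
-/

open Finset

namespace Pool.Agent.Lib.H68T

theorem XPN0_log60 : Real.log 60 ≤ 7 := by
  have e1 : Real.log 60 ≤ Real.log (2 ^ 7) := Real.log_le_log (by norm_num) (by norm_num)
  rw [Real.log_pow] at e1
  have := Real.log_two_lt_d9
  push_cast at e1
  linarith

theorem XPN0_log120 : Real.log 120 ≤ 7 := by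
  have e1 : Real.log 120 ≤ Real.log (2 ^ 7) := Real.log_le_log (by norm_num) (by norm_num)
  rw [Real.log_pow] at e1
  have := Real.log_two_lt_d9
  push_cast at e1
  linarith

/-- the terms of the smoothed sum -/
theorem XPN0_terms {P C L E q T2 T1 u U V : ℝ} (hP : 0 < P) (hC : 0 ≤ C) (hL : 10 ≤ L) (hE : 0 < E)
    (hq : 0 < q) (hu : 0 < u) (h1 : U ≤ u * E) (hT2 : T2⁻¹ ≤ q) (hT1 : T1⁻¹ ≤ q) (hV0 : 0 ≤ V)
    (hV : V ≤ 2 * L) (hqu : 1 ≤ q * u) :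
    P * ((C + 1) * L * U + (C + 1) * L * u / T2 + u * V ^ 2 / T1) + 3 ≤
      (2 * P * (C + 1) + 4 * P + 3) * L ^ 2 * (E + q) * u := by
  have hL0 : 0 < L := by linarith
  have hLL : L ≤ L ^ 2 := le_self_pow₀ (by linarith) two_ne_zero
  have t1 : P * ((C + 1) * L * U) ≤ P * (C + 1) * L ^ 2 * E * u := by
    calc P * ((C + 1) * L * U) ≤ P * ((C + 1) * L * (u * E)) := by gcongr
      _ ≤ P * ((C + 1) * L ^ 2 * (u * E)) := by gcongr
      _ = _ := by ring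
  have t2 : P * ((C + 1) * L * u / T2) ≤ P * (C + 1) * L ^ 2 * q * u := by
    rw [div_eq_mul_inv]
    calc P * ((C + 1) * L * u * T2⁻¹) ≤ P * ((C + 1) * L * u * q) := by gcongr
      _ ≤ P * ((C + 1) * L ^ 2 * u * q) := by gcongr
      _ = _ := by ring
  have t3 : P * (u * V ^ 2 / T1) ≤ 4 * P * L ^ 2 * q * u := by
    have h8 : V ^ 2 ≤ (2 * L) ^ 2 := pow_le_pow_left₀ hV0 hV 2
    rw [div_eq_mul_inv]
    calc P * (u * V ^ 2 * T1⁻¹) ≤ P * (u * V ^ 2 * q) := by gcongr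
      _ ≤ P * (u * (2 * L) ^ 2 * q) := by gcongr
      _ = _ := by ring
  have t4 : (3 : ℝ) ≤ 3 * L ^ 2 * q * u := by
    have h4 : 1 ≤ L ^ 2 := one_le_pow₀ (by linarith)
    have h5 : 1 * 1 ≤ L ^ 2 * (q * u) := mul_le_mul h4 (by linarith) (by norm_num) (by positivity)
    linarith
  have h10 : 0 ≤ (P * (C + 1) * L ^ 2 * (E + q) + 4 * P * L ^ 2 * E + 3 * L ^ 2 * E) * u := by
    positivity
  linarith

/-- `κ` is small -/
theorem XPN0_kappa {M L E e q f u₀ : ℝ} (hM3 : 3 ≤ M) (hL : 10 ≤ L) (he0 : 0 < e)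
    (heE : e ^ 2 = E) (hf0 : 0 < f) (hfq : f ^ 2 = q) (hu₀ : 0 < u₀) (hqu : 1 ≤ q * u₀)
    (h1 : 2 * M * L ^ 2 * E ≤ 1) (h2 : 2 * M * L ^ 2 * q ≤ 1) :
    0 < M * L ^ 2 * (E + q) ∧ M * L ^ 2 * (E + q) ≤ 1 ∧ 1 ≤ M * L ^ 2 * (E + q) * u₀ ∧
      √(M * L ^ 2 * (E + q)) ≤ √M * L * (e + f) := by
  have hM0 : 0 < M := by linarith
  have hL0 : 0 < L := by linarith
  have hE0 : 0 < E := by rw [← heE]; positivity
  have hq0 : 0 < q := by rw [← hfq]; positivity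
  refine ⟨by positivity, ?_, ?_, ?_⟩
  · have h4 : M * L ^ 2 * (E + q) = (2 * M * L ^ 2 * E) / 2 + (2 * M * L ^ 2 * q) / 2 := by ring
    rw [h4]
    linarith
  · have h3 : 1 ≤ M * L ^ 2 :=
      one_le_mul_of_one_le_of_one_le (by linarith) (one_le_pow₀ (by linarith))
    have h4 : 1 * q ≤ M * L ^ 2 * (E + q) :=
      mul_le_mul h3 (by linarith) hq0.le (by positivity)
    rw [one_mul] at h4
    exact hqu.trans (mul_le_mul_of_nonneg_right h4 hu₀.le)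
  · rw [Real.sqrt_le_iff]
    refine ⟨by positivity, ?_⟩
    have h3 : √M ^ 2 = M := Real.sq_sqrt hM0.le
    have h4 : (√M * L * (e + f)) ^ 2 = M * L ^ 2 * (e + f) ^ 2 := by
      rw [mul_pow, mul_pow, h3]
    rw [h4]
    refine mul_le_mul_of_nonneg_left ?_ (by positivity)
    rw [← heE, ← hfq]
    have h5 : (e + f) ^ 2 = e ^ 2 + f ^ 2 + 2 * (e * f) := by ring
    have h6 := mul_pos he0 hf0
    linarith

/-- the lower end `X^(1/5)` -/
theorem XPN0_u0 {X : ℝ} (hX0 : 0 < X) (hy : (2 : ℝ) ≤ X ^ ((1 : ℝ) / 20)) :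
    (16 : ℝ) ≤ X ^ ((1 : ℝ) / 5) ∧ X ^ ((1 : ℝ) / 5) ≤ X / 8 ∧
      Real.log (X ^ ((1 : ℝ) / 5)) = Real.log X / 5 := by
  have hy4 : X ^ ((1 : ℝ) / 5) = (X ^ ((1 : ℝ) / 20)) ^ 4 := by
    rw [← Real.rpow_natCast, ← Real.rpow_mul hX0.le]
    norm_num
  have hy20 : X = (X ^ ((1 : ℝ) / 20)) ^ 20 := by
    rw [← Real.rpow_natCast, ← Real.rpow_mul hX0.le]
    norm_num
  refine ⟨?_, ?_, ?_⟩
  · rw [hy4]
    have := pow_le_pow_left₀ (by norm_num) hy 4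
    linarith
  · rw [hy4]
    conv_rhs => rw [hy20]
    generalize X ^ ((1 : ℝ) / 20) = y at hy
    have h1 : (2 : ℝ) ^ 16 ≤ y ^ 16 := pow_le_pow_left₀ (by norm_num) hy 16
    have h2 : y ^ 20 = y ^ 4 * y ^ 16 := by ring
    have h3 : 0 < y ^ 4 := by positivity
    rw [le_div_iff₀ (by norm_num), h2]
    exact mul_le_mul_of_nonneg_left (by linarith) h3.le
  · rw [Real.log_rpow hX0]
    ring

theorem XPN0_pow {u L lQ c' : ℝ} (hu0 : 0 < u) (hlQ : 0 < lQ) (hc' : 0 < c')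
    (hlogu : L / 5 ≤ Real.log u) :
    u ^ (1 - c' / lQ) ≤ u * Real.exp (-(c' / 5 * (L / lQ))) := by
  rw [Real.rpow_sub hu0, Real.rpow_one, div_eq_mul_inv, ← Real.rpow_neg hu0.le]
  refine mul_le_mul_of_nonneg_left ?_ hu0.le
  rw [Real.rpow_def_of_pos hu0]
  refine Real.exp_le_exp.2 ?_
  have h3 : L / 5 * (c' / lQ) ≤ Real.log u * (c' / lQ) :=
    mul_le_mul_of_nonneg_right hlogu (by positivity)
  have h4 : c' / 5 * (L / lQ) = L / 5 * (c' / lQ) := by ring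
  rw [h4]
  linarith

/-- The common part of `pnt_sw` and `exc_sum_sw`: from the smoothed sums (Perron) to the sums. -/
theorem XPN0_core (P C c' : ℝ) (hP : 0 < P) (hC : 0 ≤ C) (hc' : 0 < c') :
    ∃ K : ℝ, 1 ≤ K ∧ ∀ Q X : ℕ, Reg K Q X →
    (c' / Real.log Q ≤ 1 / 2 ∧ 3 ≤ (X : ℝ) ^ ((1 : ℝ) / 5) ∧
      C * Real.log Q ≤ (C + 1) * Real.log X ∧ 1 ≤ (C + 1) * Real.log X ∧ 0 < Real.log Q ∧
      (1 : ℝ) ≤ Q) ∧
    ∀ b : ℕ → ℂ, (∀ n, 1 ≤ n → ‖b n‖ ≤ 1 + Real.log n) →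
    (∀ u : ℝ, (X : ℝ) ^ ((1 : ℝ) / 5) ≤ u → u ≤ 2 * (60 * (X : ℝ)) →
      ‖∑ n ∈ Icc 1 ⌊u⌋₊, b n * (1 - n / u)‖ ≤
        P * ((C + 1) * Real.log X * u ^ (1 - c' / Real.log Q) +
          (C + 1) * Real.log X * u / ((Q : ℝ) ^ 11) ^ 2 +
          u * (1 + Real.log u) ^ 2 / (Q : ℝ) ^ 11) + 3) →
    ∀ u : ℝ, (X : ℝ) / 8 ≤ u → u ≤ 60 * X → ‖∑ n ∈ Icc 1 ⌊u⌋₊, b n‖ ≤ u * sw K Q X := by
  obtain ⟨M, hM⟩ : ∃ M : ℝ, M = 2 * P * (C + 1) + 4 * P + 3 := ⟨_, rfl⟩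
  have hM3 : 3 ≤ M := by
    have : 0 ≤ 2 * P * (C + 1) := by positivity
    rw [hM]
    linarith
  have hM0 : 0 < M := by linarith
  obtain ⟨K₂, hK₂1, hK₂⟩ := reg_exp_le (2 * M) 2 (c' / 5) (by positivity)
  obtain ⟨K₃, hK₃1, hK₃⟩ := reg_log_le (2 * M) 2 10 (by norm_num)
  obtain ⟨K₆, hK₆1, hK₆⟩ := reg_pow_le 1 10 (1 / 5) (by norm_num)
  obtain ⟨K₇, hK₇1, hK₇⟩ := reg_pow_le 2 0 (1 / 20) (by norm_num)
  obtain ⟨K₈, hK₈1, hK₈⟩ := sw_of_exp (80 * √M) 2 (c' / 10) (by positivity)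
  obtain ⟨K₉, hK₉1, hK₉⟩ := sw_of_Q (80 * √M) 2 5 (by norm_num)
  obtain ⟨K, hK⟩ : ∃ K : ℝ, K = K₂ + K₃ + K₆ + K₇ + K₈ + K₉ + 2 * c' + 10 := ⟨_, rfl⟩
  have hK1 : 1 ≤ K := by rw [hK]; linarith
  refine ⟨K, hK1, ?_⟩
  intro Q X hreg
  have hKpos : 0 ≤ K := by linarith
  have r1 : Reg (2 * c' + 10) Q X := hreg.mono hKpos (by rw [hK]; linarith)
  have r2 : Reg K₂ Q X := hreg.mono hKpos (by rw [hK]; linarith)
  have r3 : Reg K₃ Q X := hreg.mono hKpos (by rw [hK]; linarith)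
  have r6 : Reg K₆ Q X := hreg.mono hKpos (by rw [hK]; linarith)
  have r7 : Reg K₇ Q X := hreg.mono hKpos (by rw [hK]; linarith)
  have r8 : Reg K₈ Q X := hreg.mono hKpos (by rw [hK]; linarith)
  have r9 : Reg K₉ Q X := hreg.mono hKpos (by rw [hK]; linarith)
  have hQ1n : 1 ≤ Q := hreg.Q_pos hK1
  have s8 : sw K₈ Q X ≤ sw K Q X := sw_mono (by linarith) (by rw [hK]; linarith) hQ1n
  have s9 : sw K₉ Q X ≤ sw K Q X := sw_mono (by linarith) (by rw [hK]; linarith) hQ1n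
  have hLbig : 10 ≤ Real.log X := by
    have h1 := r1.logX_ge (by linarith)
    have := Real.add_one_le_exp (2 * c' + 10)
    linarith
  have hQ10 : (10 : ℝ) ≤ Q := by
    have := r1.Q_ge (by linarith)
    linarith
  have hlQbig : 2 * c' + 10 ≤ Real.log Q := r1.logQ_ge (by linarith)
  have hlQ0 : 0 < Real.log Q := by linarith
  have hlQL : Real.log Q ≤ Real.log X := by
    have h1 := r1.logQ_le (by linarith)
    have h2 : 1 * Real.log Q ≤ (2 * c' + 10) * Real.log Q :=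
      mul_le_mul_of_nonneg_right (by linarith) hlQ0.le
    linarith
  have hX0 : (0 : ℝ) < X := by exact_mod_cast r1.X_pos (by linarith)
  obtain ⟨hu₀16, hu₀X, hlogu₀⟩ := XPN0_u0 hX0 (by
    have := hK₇ Q X r7
    rwa [Real.rpow_zero, mul_one] at this)
  have g1 := hK₈ Q X r8
  have g2 := hK₉ Q X r9
  have k2 := hK₂ Q X r2
  have k3 := hK₃ Q X r3
  have k6 := hK₆ Q X r6
  rw [Real.rpow_two] at g1 g2 k2 k3
  rw [one_mul, show ((10 : ℝ)) = ((10 : ℕ) : ℝ) by norm_num, Real.rpow_natCast] at k6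
  rw [show ((10 : ℝ)) = ((10 : ℕ) : ℝ) by norm_num, Real.rpow_natCast] at k3
  have hη1 : c' / Real.log Q ≤ 1 / 2 := by
    rw [div_le_iff₀ hlQ0]
    linarith
  clear hK₂ hK₃ hK₆ hK₇ hK₈ hK₉ r1 r2 r3 r6 r7 r8 r9 hreg
  generalize Real.log (Q : ℝ) = lQ at *
  have hCL : 0 ≤ C * Real.log X := mul_nonneg hC (by linarith)
  have hCQ : C * lQ ≤ C * Real.log X := mul_le_mul_of_nonneg_left hlQL hC
  refine ⟨⟨hη1, by linarith, by linarith, by linarith, hlQ0, by linarith⟩, ?_⟩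
  intro b hb hsm
  -- the numbers
  have hQ0 : (0 : ℝ) < Q := by linarith
  obtain ⟨hκ0, hκ1, hκu, hsq⟩ := XPN0_kappa (M := M) (L := Real.log X)
    (E := Real.exp (-(c' / 5 * (Real.log X / lQ))))
    (e := Real.exp (-(c' / 10 * (Real.log X / lQ)))) (q := ((Q : ℝ) ^ 10)⁻¹)
    (f := (Q : ℝ) ^ (-(5 : ℝ))) (u₀ := (X : ℝ) ^ ((1 : ℝ) / 5)) hM3 hLbig (Real.exp_pos _)
    (by
      rw [← Real.exp_nat_mul]
      congr 1
      push_cast
      ring) (Real.rpow_pos_of_pos hQ0 _)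
    (by
      rw [← Real.rpow_natCast, ← Real.rpow_mul hQ0.le, ← Real.rpow_natCast (Q : ℝ) 10,
        ← Real.rpow_neg hQ0.le]
      norm_num) (by linarith)
    (by
      rw [← div_eq_inv_mul, le_div_iff₀ (by positivity), one_mul]
      exact k6) k2
    (by
      rw [← div_eq_mul_inv, div_le_one (by positivity)]
      exact k3)
  have hqu : 1 ≤ ((Q : ℝ) ^ 10)⁻¹ * (X : ℝ) ^ ((1 : ℝ) / 5) := by
    rw [← div_eq_inv_mul, le_div_iff₀ (by positivity), one_mul]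
    exact k6
  have huns := unsmooth b _ ((X : ℝ) ^ ((1 : ℝ) / 5)) (60 * X) hκ0 hκ1 (by linarith) hκu hb
    (fun u hu1 hu2 => by
      have hu0 : 0 < u := by linarith
      refine (hsm u hu1 hu2).trans ?_
      rw [hM]
      have hlogu : Real.log X / 5 ≤ Real.log u := by
        rw [← hlogu₀]
        exact Real.log_le_log (by linarith) hu1
      have hlogu2 : 1 + Real.log u ≤ 2 * Real.log X := by
        have h2 : Real.log u ≤ Real.log (120 * X) := Real.log_le_log hu0 (by linarith)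
        rw [Real.log_mul (by norm_num) hX0.ne'] at h2
        have h3 := XPN0_log120
        linarith
      have hQ1 : (1 : ℝ) ≤ Q := by linarith
      refine XPN0_terms hP hC hLbig (Real.exp_pos _) (by positivity) hu0
        (XPN0_pow hu0 hlQ0 hc' hlogu) ?_ ?_ (by linarith) hlogu2 ?_
      · rw [← pow_mul]
        exact inv_anti₀ (by positivity) (pow_le_pow_right₀ hQ1 (by norm_num))
      · exact inv_anti₀ (by positivity) (pow_le_pow_right₀ hQ1 (by norm_num))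
      · exact hqu.trans (mul_le_mul_of_nonneg_left hu1 (by positivity)))
  intro u hu1 hu2
  have hu0 : 0 < u := by linarith
  refine (huns u (by linarith) hu2).trans ?_
  have hlogu2 : 1 + Real.log u ≤ 2 * Real.log X := by
    have h2 : Real.log u ≤ Real.log (60 * X) := Real.log_le_log hu0 (by linarith)
    rw [Real.log_mul (by norm_num) hX0.ne'] at h2
    have h3 := XPN0_log60
    linarith
  have hlogu0 : 0 ≤ 1 + Real.log u := by
    have := Real.log_nonneg (show 1 ≤ u by linarith)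
    linarith
  generalize Real.exp (-(c' / 10 * (Real.log X / lQ))) = e at *
  generalize (Q : ℝ) ^ (-(5 : ℝ)) = f at *
  generalize Real.log (X : ℝ) = L at *
  generalize √M = m at *
  have h5 : 0 ≤ m * L * (e + f) := le_trans (Real.sqrt_nonneg _) hsq
  calc 20 * √(M * L ^ 2 * (Real.exp (-(c' / 5 * (L / lQ))) + ((Q : ℝ) ^ 10)⁻¹)) * u *
        (1 + Real.log u) ≤ 20 * (m * L * (e + f)) * u * (2 * L) := by gcongr
    _ = u * ((80 * m * L ^ 2 * e) / 2 + (80 * m * L ^ 2 * f) / 2) := by ring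
    _ ≤ u * sw K Q X := by
        refine mul_le_mul_of_nonneg_left ?_ hu0.le
        linarith




end Pool.Agent.Lib.H68T
end

-- from Lib.H68X.XDA
section

/-!
# Chunk XDA: the structured part with the exceptional zero
-/

open Finset

namespace Pool.Agent.Lib.H68T

theorem XDA_real {r : ℕ} (ψ : DirichletCharacter ℂ r) (h : ψ ^ 2 = 1) (a : ZMod r) :
    (starRingEnd ℂ) (ψ a) = ψ a := by
  by_cases ha : IsUnit a
  · have h1 : (ψ a) ^ 2 = 1 := by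
      rw [← MulChar.pow_apply' ψ (by norm_num : (2:ℕ) ≠ 0) a, h, MulChar.one_apply ha]
    have h2 : (ψ a - 1) * (ψ a + 1) = 0 := by
      have : (ψ a - 1) * (ψ a + 1) = (ψ a) ^ 2 - 1 := by ring
      rw [this, h1, sub_self]
    rcases mul_eq_zero.mp h2 with h3 | h3
    · have : ψ a = 1 := by linear_combination h3
      rw [this, map_one]
    · have : ψ a = -1 := by linear_combination h3
      rw [this, map_neg, map_one]
  · rw [MulChar.map_nonunit ψ ha, map_zero]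



end Pool.Agent.Lib.H68T
end
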