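import Pool.Agent.Lib.H1M.RV.M003
import Pool.Agent.Lib.H1M.RV.M008
import Pool.Agent.Lib.H1M.RV.M020
import Pool.Agent.Lib.H1M.RV.M031
import Pool.Agent.Lib.H1M.RV.M047
import Pool.Agent.Lib.H1M.RV.M049
import Pool.Agent.Lib.H1M.RV.M051
import Pool.Agent.Lib.H1M.RV.M053

/-! Merged copies (to shorten the build) of Lib.H57C.S3a, Lib.H59C.CS2, Lib.H59C.CE2P, Lib.H59C.CE2. -/

-- from Lib.H57C.S3a
section

/-!
# Chunk S3a: covering by boxes, with weights
-/

open Finset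

namespace Pool.Agent.Lib.H57C

open Pool.Agent.Lib.H57M
open Pool.Agent.Lib.H59C (Sq Win Tri lv Rel BX wB al)

open Classical in
/-- Proof. The proof of `cover` (`H59C/CCV.lean`) with the weights `Φ ≥ 0`: every `p` in the filter has `N' - p = q1 q2 q3 = x.1 x.2` for some `x` in a
box of `Rel`, `p = N' - x.1 x.2`, and `1 ≤ wB x/log (lv ..)`. Different `p` give different `x` (in the same box or not). -/
theorem cover' (δ : ℝ) (hδ : 0 < δ) (hδ1 : δ ≤ 1 / 100) : ∃ n0 : ℕ, ∀ n : ℕ, n0 ≤ n →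
    ∀ N' y1 y2 : ℕ, Win n N' y1 y2 → y2 < N' → ∀ Φ : ℕ → ℝ, (∀ p, 0 ≤ Φ p) →
    ∑ p ∈ (Sq y1 y2).filter (fun p => Tri n (Nat.dist N' p)), Φ p ≤
      ∑ b ∈ Rel n N' y1 y2 δ, 1 / Real.log (lv δ b.2) *
        ∑ x ∈ (BX (lv δ (b.1 + 1)) (lv δ b.2) (lv δ (b.2 + 1))).filter
          (fun x => x.1 * x.2 < N' ∧ (N' - x.1 * x.2).Prime ∧
            (n : ℝ) ^ (1 / 6 : ℝ) ≤ (N' - x.1 * x.2 : ℕ)),
          wB (al n δ b) x * Φ (N' - x.1 * x.2) := by
  obtain ⟨n1, hn1⟩ := Pool.Agent.Lib.H59C.cdl_zz 4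
  refine ⟨n1 + 1000, fun n hn N y1 y2 hW hyN Φ hΦ => ?_⟩
  have hN : (1000 : ℝ) ≤ n := by exact_mod_cast (by omega : 1000 ≤ n)
  have hz4 := hn1 n (by omega)
  have hyz : Pool.Agent.Lib.H59C.zz n ≤ Pool.Agent.Lib.H59C.yy n := by
    unfold Pool.Agent.Lib.H59C.zz Pool.Agent.Lib.H59C.yy
    calc (n : ℝ) ^ (1 / 8 : ℝ) ≤ (n : ℝ) ^ (1 / 3 : ℝ) :=
          Real.rpow_le_rpow_of_exponent_le (by linarith) (by norm_num)
      _ ≤ (2 * n : ℝ) ^ (1 / 3 : ℝ) :=
          Real.rpow_le_rpow (by linarith) (by linarith) (by norm_num)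
  obtain ⟨F, hF⟩ : ∃ F : ℕ × ℕ → Finset (ℕ × ℕ), F = fun b =>
    (BX (lv δ (b.1 + 1)) (lv δ b.2) (lv δ (b.2 + 1))).filter
          (fun x => x.1 * x.2 < N ∧ (N - x.1 * x.2).Prime ∧
            (n : ℝ) ^ (1 / 6 : ℝ) ≤ (N - x.1 * x.2 : ℕ)) := ⟨_, rfl⟩
  obtain ⟨t, ht⟩ : ∃ t : (_ : ℕ × ℕ) × (ℕ × ℕ) → ℝ, t = fun y =>
    1 / Real.log (lv δ y.1.2) * wB (al n δ y.1) y.2 := ⟨_, rfl⟩
  have ht0 : ∀ y, 0 ≤ t y := by
    intro y
    rw [ht]
    apply mul_nonneg
    · exact div_nonneg zero_le_one (Real.log_natCast_nonneg _)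
    · apply mul_nonneg (Pool.Agent.Lib.H59C.ccv_al_nonneg _ _ _ _)
      unfold Pool.Agent.Lib.H59C.lg
      exact Real.log_natCast_nonneg _
  -- the data of a prime
  have hdata : ∀ p ∈ (Sq y1 y2).filter (fun p => Tri n (Nat.dist N p)),
      ∃ y : (_ : ℕ × ℕ) × (ℕ × ℕ), y ∈ (Rel n N y1 y2 δ).sigma F ∧ N - y.2.1 * y.2.2 = p ∧ 1 ≤ t y := by
    intro p hp
    rw [mem_filter, Pool.Agent.Lib.H59C.mem_Sq] at hp
    obtain ⟨⟨⟨hp1, hp2⟩, hpp⟩, q1, q2, q3, hq1, hq2, hq3, hz1, hy1, hy2, h23, hdist⟩ := hp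
    have hdle : Nat.dist N p ≤ 2 * n := by
      unfold Nat.dist
      have := hW.N2
      have := hW.le
      omega
    have hm2 : 2 ≤ q1 * q2 := by
      have := hq1.two_le
      have := hq2.two_le
      nlinarith
    have hmle : q1 * q2 ≤ 2 * n := by
      have h1 : q1 * q2 * 1 ≤ q1 * q2 * q3 := Nat.mul_le_mul_left _ hq3.one_lt.le
      rw [mul_one] at h1
      omega
    have hqle : q3 ≤ 2 * n := by
      have h1 : 1 * q3 ≤ q1 * q2 * q3 := Nat.mul_le_mul_right _ (by omega)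
      omega
    obtain ⟨i, hi1, hi2⟩ := Pool.Agent.Lib.H59C.ccv_index δ hδ (q1 * q2) hm2
    obtain ⟨j, hj1, hj2⟩ := Pool.Agent.Lib.H59C.ccv_index δ hδ q3 hq3.two_le
    have hal : al n δ (i, j) (q1 * q2) = 1 := by
      unfold al
      rw [if_pos]
      exact ⟨hi1, q1, q2, hq1, hq2, hz1, hy1, hy2, h23.trans hj2, rfl⟩
    have hyq3 : Pool.Agent.Lib.H59C.yy n ≤ q3 := by
      have : (q2 : ℝ) ≤ q3 := by exact_mod_cast h23
      linarith
    have hRel : (i, j) ∈ Rel n N y1 y2 δ := by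
      unfold Pool.Agent.Lib.H59C.Rel
      rw [mem_filter, mem_product, mem_range, mem_range]
      exact ⟨⟨Pool.Agent.Lib.H59C.ccv_index_le δ hδ hδ1 n _ i (by omega) hmle hi1,
        Pool.Agent.Lib.H59C.ccv_index_le δ hδ hδ1 n _ j (by omega) hqle hj1⟩,
        q1 * q2, q3, p, hi1, hi2, hj1, hj2, hq3, hal, hyq3, hp1, hp2, hdist⟩
    have hpN : p < N := by omega
    have hlt : q1 * q2 * q3 < N ∧ N - q1 * q2 * q3 = p := by
      have hp0 := hpp.pos
      rw [← hdist]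
      unfold Nat.dist
      omega
    have hplow : (n : ℝ) ^ (1 / 6 : ℝ) ≤ p := by
      have h1 : (n : ℝ) ≤ 16 * p := by
        have h2 := hW.lo
        have h3 : n ≤ 16 * p := by omega
        exact_mod_cast h3
      have h2 : (n : ℝ) ^ (1 / 6 : ℝ) ≤ (n : ℝ) ^ (1 / 2 : ℝ) :=
        Real.rpow_le_rpow_of_exponent_le (by linarith) (by norm_num)
      have h3 : 16 ≤ (n : ℝ) ^ (1 / 2 : ℝ) := by
        rw [← Real.sqrt_eq_rpow]
        apply Real.le_sqrt_of_sq_le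
        linarith
      have h4 : (n : ℝ) ^ (1 / 2 : ℝ) * (n : ℝ) ^ (1 / 2 : ℝ) = n := by
        rw [← Real.rpow_add (by linarith)]
        norm_num
      nlinarith
    have hlv2 : 2 ≤ lv δ j := by
      have h1 : (q3 : ℝ) ≤ (1 + δ) ^ (j + 1) := by
        have h2 : (q3 : ℝ) ≤ (lv δ (j + 1) : ℝ) := by exact_mod_cast hj2
        have h3 : (lv δ (j + 1) : ℝ) ≤ (1 + δ) ^ (j + 1) := by
          unfold lv
          exact Nat.floor_le (by positivity)
        linarith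
      have h2 : (3 : ℝ) ≤ (1 + δ) ^ j := by
        rw [pow_succ] at h1
        have h3 : (4 : ℝ) ≤ (1 + δ) ^ j * (1 + δ) := by linarith
        have h4 : (0 : ℝ) < (1 + δ) ^ j := by positivity
        nlinarith
      unfold lv
      apply Nat.le_floor
      push_cast
      linarith
    refine ⟨⟨(i, j), (q1 * q2, q3)⟩, ?_, hlt.2, ?_⟩
    · rw [mem_sigma]
      refine ⟨hRel, ?_⟩
      rw [hF]
      show (q1 * q2, q3) ∈ (BX (lv δ (i + 1)) (lv δ j) (lv δ (j + 1))).filter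
          (fun x => x.1 * x.2 < N ∧ (N - x.1 * x.2).Prime ∧
            (n : ℝ) ^ (1 / 6 : ℝ) ≤ (N - x.1 * x.2 : ℕ))
      rw [mem_filter]
      constructor
      · unfold BX
        rw [mem_product, mem_Icc, Pool.Agent.Lib.H59C.mem_Sq]
        exact ⟨⟨by show 1 ≤ q1 * q2; omega, hi2⟩, ⟨hj1, hj2⟩, hq3⟩
      · show q1 * q2 * q3 < N ∧ (N - q1 * q2 * q3).Prime ∧
            (n : ℝ) ^ (1 / 6 : ℝ) ≤ (N - q1 * q2 * q3 : ℕ)
        rw [hlt.2]
        exact ⟨hlt.1, hpp, hplow⟩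
    · rw [ht]
      show 1 ≤ 1 / Real.log (lv δ j) * (al n δ (i, j) (q1 * q2) * Pool.Agent.Lib.H59C.lg q3)
      rw [hal, one_mul, one_div, ← div_eq_inv_mul]
      have h1 : (2 : ℝ) ≤ lv δ j := by exact_mod_cast hlv2
      have h2 : 0 < Real.log (lv δ j) := Real.log_pos (by linarith)
      rw [le_div_iff₀ h2, one_mul]
      unfold Pool.Agent.Lib.H59C.lg
      apply Real.log_le_log (by linarith)
      exact_mod_cast hj1.le
  choose! f hf1 hf2 hf3 using hdata
  have hinj : Set.InjOn f ((Sq y1 y2).filter (fun p => Tri n (Nat.dist N p))) := by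
    intro p hp p' hp' heq
    have h1 := hf2 p hp
    have h2 := hf2 p' hp'
    rw [← h1, ← h2, heq]
  calc ∑ p ∈ (Sq y1 y2).filter (fun p => Tri n (Nat.dist N p)), Φ p
      ≤ ∑ p ∈ (Sq y1 y2).filter (fun p => Tri n (Nat.dist N p)),
          t (f p) * Φ (N - (f p).2.1 * (f p).2.2) := by
        refine sum_le_sum fun p hp => ?_
        rw [hf2 p hp]
        exact le_mul_of_one_le_left (hΦ p) (hf3 p hp)
    _ = ∑ y ∈ ((Sq y1 y2).filter (fun p => Tri n (Nat.dist N p))).image f,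
          t y * Φ (N - y.2.1 * y.2.2) := by
        rw [sum_image hinj]
    _ ≤ ∑ y ∈ (Rel n N y1 y2 δ).sigma F, t y * Φ (N - y.2.1 * y.2.2) := by
        apply sum_le_sum_of_subset_of_nonneg
        · intro y hy
          rw [mem_image] at hy
          obtain ⟨p, hp, rfl⟩ := hy
          exact hf1 p hp
        · intro y _ _
          exact mul_nonneg (ht0 y) (hΦ _)
    _ = ∑ b ∈ Rel n N y1 y2 δ, ∑ x ∈ F b, t ⟨b, x⟩ * Φ (N - x.1 * x.2) := by
        rw [sum_sigma]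
    _ = _ := by
        apply sum_congr rfl
        intro b _
        rw [mul_sum, ht, hF]
        refine sum_congr rfl fun x _ => ?_
        exact mul_assoc _ _ _

end Pool.Agent.Lib.H57C
end

-- from Lib.H59C.CS2
section

/-!
# CS2: the second term of the weighted sieve
-/

open Finset

namespace Pool.Agent.Lib.H59C

open Classical in
/-- Proof. `jr (ε/8)` gives `Q0, z0`; `rem_A 3` gives `A', B, n0`. For every `q ∈ QQ n N p1` apply the upper bound of `jr`
to `S_q = {p ∈ Sq, q ∣ |N - p|}`, `X_q = XX * gq q`, `z = zz n`, `D_q = DD n B/q/Q0` (`D_q * Q0 = DD n B/q`;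
`log D_q ≤ (1/2 - 1/8) log n = 3 log z`, and `z ≤ D_q` since `n^(1/2)/(log n)^B/Q0/(2n)^(1/3) ≥ n^(1/8)` for large `n`):
`sift ≤ X_q VV (AA log z/log D_q + ε/8) + remd`. Sum over `q ∈ QQ ⊆ PR (zz n) (yy n)`: `prime_S2 (ε/(4 AA))`
and `rem_A`; the remainder `2 n/(log n)^3 ≤ (ε/4) XX VV` by `main_lower`. -/
theorem S2_upper (ε : ℝ) (hε : 0 < ε) : ∃ A' n0 : ℕ, ∀ n : ℕ, n0 ≤ n → ∀ p1 : ℕ, p1.Prime →
    SWp A' n p1 → ∀ N y1 y2 : ℕ, Win n N y1 y2 →
    ∑ q ∈ QQ n N p1, sift ((Sq y1 y2).filter (fun p => q ∣ Nat.dist N p)) lg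
        (fun p => Nat.dist N p) (PP n N p1) (zz n) ≤
      XX y1 y2 * VV (PP n N p1) (zz n) * (AA / 4 * Real.log 6 + ε) := by
  have hAA := AA_pos
  obtain ⟨Q0, hQ0, z0, hz0, hjr⟩ := jr (ε / 8) (by linarith)
  obtain ⟨A', B, n1, hrem⟩ := rem_A 3
  obtain ⟨n2, hn2⟩ := cs_rem (ε / 4) (by linarith)
  obtain ⟨n3, hn3⟩ := dd_log B Q0 hQ0 (1 / 100) (by norm_num)
  obtain ⟨n4, hn4⟩ := cdl_zz z0
  obtain ⟨n5, hn5⟩ := prime_S2 (ε / (4 * AA)) (by positivity) B Q0 hQ0
  obtain ⟨n6, hn6⟩ := cdl_log 100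
  refine ⟨A', n1 + n2 + n3 + n4 + n5 + n6 + 3, fun n hn p1 hp1 hSW N y1 y2 hW => ?_⟩
  have hN : (3 : ℝ) ≤ n := by exact_mod_cast (by omega : 3 ≤ n)
  have hL : 0 < Real.log n := Real.log_pos (by linarith)
  have hL100 := hn6 n (by omega)
  obtain ⟨hD1, hDl, hDu, hDp⟩ := hn3 n (by omega)
  have hzn := hn4 n (by omega)
  have hlz := log_zz n (by omega)
  obtain ⟨-, hr⟩ := hrem n (by omega) p1 hp1 hSW N y1 y2 hW
  have hsm := hn2 n (by omega) p1 N y1 y2 hW
  obtain ⟨hps, hps2⟩ := hn5 n (by omega)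
  have hzpos : 0 < zz n := by linarith
  have hlz0 : 0 < Real.log (zz n) := by rw [hlz]; linarith
  have hQ0' : (1 : ℝ) ≤ Q0 := by exact_mod_cast hQ0
  have hX := XX_nonneg y1 y2
  have hV : 0 ≤ VV (PP n N p1) (zz n) := by
    unfold VV VP
    apply prod_nonneg
    intro q hq
    have h3 := (PP_prime (mem_filter.mp hq).1).2
    have h3' : (3 : ℝ) ≤ q := by exact_mod_cast h3
    unfold gq
    rw [sub_nonneg, div_le_one (by linarith)]
    linarith
  have hVX : 0 ≤ XX y1 y2 * VV (PP n N p1) (zz n) := mul_nonneg hX hV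
  -- the bound for one `q`
  have hone : ∀ q ∈ QQ n N p1, sift ((Sq y1 y2).filter (fun p => q ∣ Nat.dist N p)) lg
        (fun p => Nat.dist N p) (PP n N p1) (zz n) ≤
      XX y1 y2 * VV (PP n N p1) (zz n) * (AA * (gq q * (Real.log (zz n) /
        Real.log ((DD n B : ℝ) / q / Q0))) + ε / 8 * gq q) +
      remd ((Sq y1 y2).filter (fun p => q ∣ Nat.dist N p)) lg
        (fun p => Nat.dist N p) (PP n N p1) (zz n) (XX y1 y2 * gq q) ((DD n B : ℝ) / q) := by
    intro q hq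
    have hq' : q ∈ PR (zz n) (yy n) ∧ q ∈ PP n N p1 := by
      unfold QQ at hq
      exact mem_filter.mp hq
    obtain ⟨hqp, hq1, hq2⟩ := mem_PR.mp hq'.1
    have hqpos : (0 : ℝ) < q := by linarith
    have hlq1 : Real.log (zz n) ≤ Real.log q := Real.log_le_log hzpos hq1
    have hyy : Real.log (yy n) = 1 / 3 * (Real.log 2 + Real.log n) := by
      unfold yy
      rw [Real.log_rpow (by linarith), Real.log_mul (by norm_num) (by linarith)]
    have hlq2 : Real.log q ≤ 1 / 3 * (Real.log 2 + Real.log n) := by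
      rw [← hyy]
      exact Real.log_le_log hqpos hq2.le
    have hlog2 : Real.log 2 ≤ 1 := by
      have := Real.log_two_lt_d9
      linarith
    have hDDpos : (0 : ℝ) < DD n B := by
      have : (1 : ℝ) ≤ DD n B := by exact_mod_cast hD1
      linarith
    obtain ⟨Dq, hDq⟩ : ∃ Dq : ℝ, Dq = (DD n B : ℝ) / q / Q0 := ⟨_, rfl⟩
    have hDqpos : 0 < Dq := by rw [hDq]; positivity
    have hDqlog : Real.log Dq = Real.log ((DD n B : ℝ) / Q0) - Real.log q := by
      rw [hDq, show (DD n B : ℝ) / q / Q0 = (DD n B : ℝ) / Q0 / q by ring,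
        Real.log_div hDp.ne' hqpos.ne']
    have h3z : Real.log Dq ≤ 3 * Real.log (zz n) := by
      rw [hDqlog]
      rw [hlz] at hlq1 ⊢
      linarith
    have hzD : zz n ≤ Dq := by
      rw [← Real.log_le_log_iff hzpos hDqpos, hDqlog, hlz]
      nlinarith
    obtain ⟨hup, -⟩ := hjr (PP n N p1) (fun q hq => PP_prime hq) (zz n) Dq hzn hzD
      ((Sq y1 y2).filter (fun p => q ∣ Nat.dist N p)) lg
      (fun p => Nat.dist N p) (XX y1 y2 * gq q) (by
        apply mul_nonneg hX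
        unfold gq
        have h3 := (PP_prime hq'.2).2
        have h3' : (3 : ℝ) ≤ q := by exact_mod_cast h3
        apply div_nonneg zero_le_one
        linarith) (fun p _ => lg_nonneg p)
    have hup := hup h3z
    have hDQ : Dq * (Q0 : ℝ) = (DD n B : ℝ) / q := by
      rw [hDq]
      field_simp
    rw [hDQ] at hup
    refine hup.trans (le_of_eq ?_)
    rw [← hDq]
    have hDlog0 : Real.log Dq ≠ 0 := by
      have : 0 < Real.log Dq := by
        rw [hDqlog]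
        nlinarith
      exact this.ne'
    congr 1
    field_simp
  calc ∑ q ∈ QQ n N p1, sift ((Sq y1 y2).filter (fun p => q ∣ Nat.dist N p)) lg
        (fun p => Nat.dist N p) (PP n N p1) (zz n)
      ≤ ∑ q ∈ QQ n N p1, (XX y1 y2 * VV (PP n N p1) (zz n) * (AA * (gq q * (Real.log (zz n) /
        Real.log ((DD n B : ℝ) / q / Q0))) + ε / 8 * gq q) +
      remd ((Sq y1 y2).filter (fun p => q ∣ Nat.dist N p)) lg
        (fun p => Nat.dist N p) (PP n N p1) (zz n) (XX y1 y2 * gq q) ((DD n B : ℝ) / q)) :=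
        sum_le_sum hone
    _ = XX y1 y2 * VV (PP n N p1) (zz n) * (AA * ∑ q ∈ QQ n N p1, gq q * (Real.log (zz n) /
        Real.log ((DD n B : ℝ) / q / Q0)) + ε / 8 * ∑ q ∈ QQ n N p1, gq q) +
        ∑ q ∈ QQ n N p1, remd ((Sq y1 y2).filter (fun p => q ∣ Nat.dist N p)) lg
        (fun p => Nat.dist N p) (PP n N p1) (zz n) (XX y1 y2 * gq q) ((DD n B : ℝ) / q) := by
        rw [sum_add_distrib, ← mul_sum, sum_add_distrib, ← mul_sum, ← mul_sum]
    _ ≤ XX y1 y2 * VV (PP n N p1) (zz n) * (AA * (1 / 4 * Real.log 6 + ε / (4 * AA)) + ε / 8 * 2) +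
        2 * n / Real.log n ^ 3 := by
        apply add_le_add _ hr
        apply mul_le_mul_of_nonneg_left _ hVX
        have hgq : ∀ q ∈ PR (zz n) (yy n), 0 ≤ gq q := by
          intro q hq
          have h2 := (mem_PR.mp hq).1.two_le
          have h2' : (2 : ℝ) ≤ q := by exact_mod_cast h2
          unfold gq
          apply div_nonneg zero_le_one
          linarith
        have hsub : QQ n N p1 ⊆ PR (zz n) (yy n) := by
          unfold QQ
          exact filter_subset _ _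
        apply add_le_add
        · apply mul_le_mul_of_nonneg_left _ hAA.le
          refine le_trans (sum_le_sum_of_subset_of_nonneg hsub ?_) hps
          intro q hq _
          apply mul_nonneg (hgq q hq)
          apply div_nonneg hlz0.le
          obtain ⟨hqp, hq1, hq2⟩ := mem_PR.mp hq
          have hqpos : (0 : ℝ) < q := by linarith
          rw [show (DD n B : ℝ) / q / Q0 = (DD n B : ℝ) / Q0 / q by ring,
            Real.log_div hDp.ne' hqpos.ne']
          have hyy : Real.log (yy n) = 1 / 3 * (Real.log 2 + Real.log n) := by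
            unfold yy
            rw [Real.log_rpow (by linarith), Real.log_mul (by norm_num) (by linarith)]
          have hlq2 : Real.log q ≤ 1 / 3 * (Real.log 2 + Real.log n) := by
            rw [← hyy]
            exact Real.log_le_log hqpos hq2.le
          have hlog2 : Real.log 2 ≤ 1 := by
            have := Real.log_two_lt_d9
            linarith
          nlinarith
        · apply mul_le_mul_of_nonneg_left _ (by linarith)
          exact le_trans (sum_le_sum_of_subset_of_nonneg hsub fun q hq _ => hgq q hq) hps2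
    _ ≤ XX y1 y2 * VV (PP n N p1) (zz n) * (AA * (1 / 4 * Real.log 6 + ε / (4 * AA)) + ε / 8 * 2) +
        ε / 4 * (XX y1 y2 * VV (PP n N p1) (zz n)) := by
        linarith
    _ = XX y1 y2 * VV (PP n N p1) (zz n) * (AA / 4 * Real.log 6 + 3 / 4 * ε) := by
        field_simp
        ring
    _ ≤ XX y1 y2 * VV (PP n N p1) (zz n) * (AA / 4 * Real.log 6 + ε) := by
        apply mul_le_mul_of_nonneg_left _ hVX
        linarith

end Pool.Agent.Lib.H59C
end

-- from Lib.H59C.CE2P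
section

/-!
# CE2P: a sifting product
-/

open Finset

namespace Pool.Agent.Lib.H59C

theorem CE2P_hl (S : Finset ℕ) (N : ℕ) (hN : 0 < N) (hS : ∀ q ∈ S, q.Prime ∧ 7 ≤ q) :
    ∏ q ∈ S, (if q ∣ N then ((q : ℝ) - 1) / (q - 2) else 1) ≤ hl N := by
  classical
  rw [← Finset.prod_filter]
  unfold hl
  have h1 : ∀ q : ℕ, 2 < q → (1 : ℝ) ≤ ((q : ℝ) - 1) / (q - 2) := by
    intro q hq
    have h3 : (2 : ℝ) < q := by exact_mod_cast hq
    rw [le_div_iff₀ (by linarith)]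
    linarith
  apply Finset.prod_le_prod_of_subset_of_one_le
  · intro q hq
    obtain ⟨hq1, hq2⟩ := Finset.mem_filter.1 hq
    obtain ⟨hp, h7⟩ := hS q hq1
    rw [Finset.mem_filter, Nat.mem_primeFactors]
    exact ⟨⟨hp, hq2, hN.ne'⟩, by omega⟩
  · intro q hq
    obtain ⟨hq1, hq2⟩ := Finset.mem_filter.1 hq
    have := h1 q (by have := (hS q hq1).2; omega)
    linarith
  · intro q hq _
    exact h1 q (Finset.mem_filter.1 hq).2

theorem CE2P_F (w p1 : ℕ) :
    ∏ q ∈ (Finset.range (w + 1)).filter (fun q => q.Prime ∧ 7 ≤ q ∧ q ≠ p1), (1 - 1 / (q : ℝ)) ≤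
      16 * ∏ p ∈ Sieve.primesUpTo w, (1 - 1 / (p : ℝ)) := by
  classical
  set F := (Finset.range (w + 1)).filter (fun q => q.Prime ∧ 7 ≤ q ∧ q ≠ p1) with hF
  set A := Sieve.primesUpTo w with hA
  have hFA : F ⊆ A := by
    intro q hq
    rw [hF, Finset.mem_filter, Finset.mem_range] at hq
    rw [hA, Sieve.mem_primesUpTo]
    exact ⟨hq.2.1, by omega⟩
  have hf : ∀ q ∈ A, (1 / 2 : ℝ) ≤ 1 - 1 / (q : ℝ) ∧ 1 - 1 / (q : ℝ) ≤ 1 := by
    intro q hq
    rw [hA, Sieve.mem_primesUpTo] at hq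
    have h2 : (2 : ℝ) ≤ q := by exact_mod_cast hq.1.two_le
    have h3 : 1 / (q : ℝ) ≤ 1 / 2 := one_div_le_one_div_of_le (by norm_num) h2
    have h4 : 0 ≤ 1 / (q : ℝ) := by positivity
    constructor <;> linarith
  have hsub : A \ F ⊆ {2, 3, 5, p1} := by
    intro q hq
    rw [Finset.mem_sdiff, hA, Sieve.mem_primesUpTo, hF, Finset.mem_filter, Finset.mem_range] at hq
    obtain ⟨⟨hp, hw⟩, hn⟩ := hq
    simp only [Finset.mem_insert, Finset.mem_singleton]
    by_contra hc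
    push Not at hc
    obtain ⟨c2, c3, c5, cp⟩ := hc
    apply hn
    refine ⟨by omega, hp, ?_, cp⟩
    by_contra h7
    push Not at h7
    interval_cases q <;> first | omega | (exact absurd hp (by norm_num))
  have hcard : (A \ F).card ≤ 4 := (Finset.card_le_card hsub).trans Finset.card_le_four
  have hlow : (1 / 16 : ℝ) ≤ ∏ q ∈ A \ F, (1 - 1 / (q : ℝ)) := by
    calc (1 / 16 : ℝ) = (1 / 2) ^ 4 := by norm_num
      _ ≤ (1 / 2) ^ (A \ F).card := pow_le_pow_of_le_one (by norm_num) (by norm_num) hcard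
      _ = ∏ q ∈ A \ F, (1 / 2 : ℝ) := by rw [Finset.prod_const]
      _ ≤ _ := Finset.prod_le_prod (fun _ _ => by norm_num)
        (fun q hq => (hf q (Finset.mem_sdiff.1 hq).1).1)
  have hF0 : 0 ≤ ∏ q ∈ F, (1 - 1 / (q : ℝ)) :=
    Finset.prod_nonneg fun q hq => by linarith [(hf q (hFA hq)).1]
  rw [← Finset.prod_sdiff hFA]
  nlinarith

/-- Proof. `(1 - 2/q) ≤ (1 - 1/q)²` and, for `q ∣ N`, `(1 - 1/q) = (1 - 2/q) (q - 1)/(q - 2)`, so the product is at most
`hl N ∏_{7 ≤ q ≤ w, q ≠ p1} (1 - 1/q)²`; `∏_{q ≤ w} (1 - 1/q) ≤ 1/log w` (`Sieve.prod_one_sub_inv_le`), and the factors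
`q = 2, 3, 5, p1` cost a constant. -/
theorem ce2_prod : ∃ C : ℝ, 0 < C ∧ ∀ (w N p1 : ℕ), 2 ≤ w → 0 < N →
    ∏ q ∈ (Finset.range (w + 1)).filter (fun q => q.Prime ∧ 7 ≤ q ∧ q ≠ p1),
      (1 - (if q ∣ N then 1 else 2 : ℝ) / q) ≤ C * hl N / Real.log w ^ 2 := by
  refine ⟨256, by norm_num, ?_⟩
  intro w N p1 hw hN
  set F := (Finset.range (w + 1)).filter (fun q => q.Prime ∧ 7 ≤ q ∧ q ≠ p1) with hF
  have hFp : ∀ q ∈ F, q.Prime ∧ 7 ≤ q := by
    intro q hq
    rw [hF, Finset.mem_filter] at hq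
    exact ⟨hq.2.1, hq.2.2.1⟩
  have h1 : ∏ q ∈ F, (1 - (if q ∣ N then 1 else 2 : ℝ) / q) ≤
      ∏ q ∈ F, ((1 - 1 / (q : ℝ)) ^ 2 * (if q ∣ N then ((q : ℝ) - 1) / (q - 2) else 1)) := by
    apply Finset.prod_le_prod
    · intro q hq
      have h7 : (7 : ℝ) ≤ q := by exact_mod_cast (hFp q hq).2
      rw [sub_nonneg, div_le_one (by linarith)]
      split_ifs <;> linarith
    · intro q hq
      have h7 : (7 : ℝ) ≤ q := by exact_mod_cast (hFp q hq).2
      have h0 : (0 : ℝ) < q := by linarith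
      have h2 : (0 : ℝ) < q - 2 := by linarith
      split_ifs with hd
      · have e : (1 - 1 / (q : ℝ)) ^ 2 * (((q : ℝ) - 1) / (q - 2)) - (1 - 1 / q) =
            (1 - 1 / (q : ℝ)) * (1 / (q * (q - 2))) := by
          field_simp
          ring
        have h3 : 1 / (q : ℝ) ≤ 1 := by
          rw [div_le_one h0]
          linarith
        have h4 : 0 ≤ (1 - 1 / (q : ℝ)) * (1 / (q * (q - 2))) :=
          mul_nonneg (by linarith) (by positivity)
        linarith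
      · rw [mul_one]
        have e : (1 - 1 / (q : ℝ)) ^ 2 = 1 - 2 / q + (1 / q) ^ 2 := by ring
        rw [e]
        nlinarith [sq_nonneg (1 / (q : ℝ))]
  have h2 : ∏ q ∈ F, ((1 - 1 / (q : ℝ)) ^ 2 * (if q ∣ N then ((q : ℝ) - 1) / (q - 2) else 1)) =
      (∏ q ∈ F, (1 - 1 / (q : ℝ))) ^ 2 * ∏ q ∈ F, (if q ∣ N then ((q : ℝ) - 1) / (q - 2) else 1) := by
    rw [Finset.prod_mul_distrib, Finset.prod_pow]
  have h3 := CE2P_hl F N hN hFp
  have h4 := CE2P_F w p1
  rw [← hF] at h4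
  have h5 := Sieve.prod_one_sub_inv_le w hw
  have hlog : 0 < Real.log w := Real.log_pos (by exact_mod_cast (by omega : 1 < w))
  have h6 : ∏ q ∈ F, (1 - 1 / (q : ℝ)) ≤ 16 / Real.log w := by
    refine h4.trans ?_
    calc 16 * ∏ p ∈ Sieve.primesUpTo w, (1 - 1 / (p : ℝ)) ≤ 16 * (1 / Real.log w) :=
          mul_le_mul_of_nonneg_left h5 (by norm_num)
      _ = 16 / Real.log w := by ring
  have hF0 : 0 ≤ ∏ q ∈ F, (1 - 1 / (q : ℝ)) := by
    apply Finset.prod_nonneg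
    intro q hq
    have h7 : (7 : ℝ) ≤ q := by exact_mod_cast (hFp q hq).2
    rw [sub_nonneg, div_le_one (by linarith)]
    linarith
  have h7 : (∏ q ∈ F, (1 - 1 / (q : ℝ))) ^ 2 ≤ (16 / Real.log w) ^ 2 :=
    pow_le_pow_left₀ hF0 h6 2
  have hhl : 0 ≤ hl N := le_trans zero_le_one (one_le_hl N)
  calc ∏ q ∈ F, (1 - (if q ∣ N then 1 else 2 : ℝ) / q)
      ≤ (∏ q ∈ F, (1 - 1 / (q : ℝ))) ^ 2 *
        ∏ q ∈ F, (if q ∣ N then ((q : ℝ) - 1) / (q - 2) else 1) := h1.trans (le_of_eq h2)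
    _ ≤ (∏ q ∈ F, (1 - 1 / (q : ℝ))) ^ 2 * hl N := mul_le_mul_of_nonneg_left h3 (sq_nonneg _)
    _ ≤ (16 / Real.log w) ^ 2 * hl N := mul_le_mul_of_nonneg_right h7 hhl
    _ = 256 * hl N / Real.log w ^ 2 := by
      rw [div_pow]
      ring

end Pool.Agent.Lib.H59C
end

-- from Lib.H59C.CE2
section

/-!
# CE2: the primes with `p1 ∣ N - p`
-/

open Finset

namespace Pool.Agent.Lib.H59C

open Pool.Agent.Lib.Sieve (sprimes mem_sprimes dens chi fundamental_sum prod_one_sub_chi)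

open Classical in
/-- The removed classes. -/
noncomputable def ce2Om (N p1 : ℕ) (s : ℤ) (q : ℕ) : Finset (ZMod q) :=
  if q = p1 then ∅ else {0, (s : ZMod q) * (N : ZMod q) * (p1 : ZMod q)⁻¹}

theorem ce2_card_le (N p1 : ℕ) (s : ℤ) (q : ℕ) : (ce2Om N p1 s q).card ≤ 2 := by
  unfold ce2Om
  split_ifs
  · simp
  · exact card_le_two

theorem ce2_card (N p1 : ℕ) (s : ℤ) (hs : s = 1 ∨ s = -1) (q : ℕ) (hq : q.Prime)
    (hp1 : p1.Prime) (hne : q ≠ p1) : (ce2Om N p1 s q).card = if q ∣ N then 1 else 2 := by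
  classical
  have : Fact q.Prime := ⟨hq⟩
  unfold ce2Om
  rw [if_neg hne]
  split_ifs with h
  · have h1 : (N : ZMod q) = 0 := (ZMod.natCast_eq_zero_iff N q).mpr h
    rw [h1, mul_zero, zero_mul]
    simp
  · have h1 : (N : ZMod q) ≠ 0 := fun h2 => h ((ZMod.natCast_eq_zero_iff N q).mp h2)
    have h2 : (p1 : ZMod q) ≠ 0 := by
      intro h3
      have h4 := (ZMod.natCast_eq_zero_iff p1 q).mp h3
      exact hne ((Nat.prime_dvd_prime_iff_eq hq hp1).mp h4)
    have h3 : (s : ZMod q) ≠ 0 := by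
      rcases hs with rfl | rfl
      · simp
      · simp
    apply card_pair
    have h4 : (s : ZMod q) * (N : ZMod q) * (p1 : ZMod q)⁻¹ ≠ 0 :=
      mul_ne_zero (mul_ne_zero h3 h1) (inv_ne_zero h2)
    exact h4.symm

theorem ce2_prod_eq (N p1 w : ℕ) (s : ℤ) (hs : s = 1 ∨ s = -1) (hp1 : p1.Prime) :
    ∏ q ∈ sprimes (2 * 2 + 2) w, (1 - dens (ce2Om N p1 s) q) =
      ∏ q ∈ (Finset.range (w + 1)).filter (fun q => q.Prime ∧ 7 ≤ q ∧ q ≠ p1),
        (1 - (if q ∣ N then 1 else 2 : ℝ) / q) := by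
  symm
  have hsub : (Finset.range (w + 1)).filter (fun q => q.Prime ∧ 7 ≤ q ∧ q ≠ p1) ⊆
      sprimes (2 * 2 + 2) w := by
    intro q hq
    rw [mem_filter, mem_range] at hq
    rw [mem_sprimes]
    exact ⟨hq.2.1, by omega, by omega⟩
  have h1 : ∏ q ∈ (Finset.range (w + 1)).filter (fun q => q.Prime ∧ 7 ≤ q ∧ q ≠ p1),
      (1 - dens (ce2Om N p1 s) q) = ∏ q ∈ sprimes (2 * 2 + 2) w, (1 - dens (ce2Om N p1 s) q) := by
    apply prod_subset hsub
    intro q hq hq'
    rw [mem_sprimes] at hq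
    rw [mem_filter, mem_range] at hq'
    have h2 : q = p1 := by
      by_contra h3
      exact hq' ⟨by omega, hq.1, by omega, h3⟩
    unfold Pool.Agent.Lib.Sieve.dens ce2Om
    rw [if_pos h2]
    simp
  rw [← h1]
  apply prod_congr rfl
  intro q hq
  rw [mem_filter, mem_range] at hq
  unfold Pool.Agent.Lib.Sieve.dens
  rw [ce2_card N p1 s hs q hq.2.1 hp1 hq.2.2.2]
  split_ifs <;> simp

open Classical in
/-- The sieve bound for the number of primes. -/
theorem ce2_sieve : ∃ C : ℝ, 0 < C ∧ ∀ (w N p1 M : ℕ) (a : ℤ) (s : ℤ), 2 ≤ w → 0 < N →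
    p1.Prime → (s = 1 ∨ s = -1) → w ^ 422 ≤ M → ∀ K : Finset ℕ,
    (∀ k ∈ K, (k : ℤ) ∈ Finset.Ico a (a + M) ∧ ∀ q ∈ sprimes (2 * 2 + 2) w,
      (((k : ℤ) : ℤ) : ZMod q) ∉ ce2Om N p1 s q) →
    (K.card : ℝ) ≤ M * (C * hl N / Real.log w ^ 2) := by
  obtain ⟨C, hC, hprod⟩ := ce2_prod
  refine ⟨3 * C, by positivity, fun w N p1 M a s hw hN hp1 hs hM K hK => ?_⟩
  have h1 := (fundamental_sum (k := 2) (Ω := ce2Om N p1 s) hw
    (fun q _ _ _ => ce2_card_le N p1 s q) a M hM).2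
  rw [ce2_prod_eq N p1 w s hs hp1] at h1
  have h2 := hprod w N p1 hw hN
  have h3 : (K.card : ℝ) ≤ ∑ u ∈ Finset.Ico a (a + M),
      ∏ p ∈ sprimes (2 * 2 + 2) w, (1 - chi (ce2Om N p1 s) p u) := by
    have h4 : (K.card : ℝ) = ∑ u ∈ K.image (fun k : ℕ => (k : ℤ)), (1 : ℝ) := by
      rw [sum_const, nsmul_eq_mul, mul_one, card_image_of_injective _ Nat.cast_injective]
    rw [h4]
    calc ∑ u ∈ K.image (fun k : ℕ => (k : ℤ)), (1 : ℝ) ≤
        ∑ u ∈ K.image (fun k : ℕ => (k : ℤ)),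
          ∏ p ∈ sprimes (2 * 2 + 2) w, (1 - chi (ce2Om N p1 s) p u) := by
          apply sum_le_sum
          intro u hu
          rw [mem_image] at hu
          obtain ⟨k, hk, rfl⟩ := hu
          rw [prod_one_sub_chi, if_pos (hK k hk).2]
      _ ≤ _ := by
          apply sum_le_sum_of_subset_of_nonneg
          · intro u hu
            rw [mem_image] at hu
            obtain ⟨k, hk, rfl⟩ := hu
            exact (hK k hk).1
          · intro u _ _
            rw [prod_one_sub_chi]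
            split_ifs <;> norm_num
  calc (K.card : ℝ) ≤ 3 * M * ∏ q ∈ (Finset.range (w + 1)).filter
        (fun q => q.Prime ∧ 7 ≤ q ∧ q ≠ p1), (1 - (if q ∣ N then 1 else 2 : ℝ) / q) := h3.trans h1
    _ ≤ 3 * M * (C * hl N / Real.log w ^ 2) := by
        apply mul_le_mul_of_nonneg_left h2 (by positivity)
    _ = M * (3 * C * hl N / Real.log w ^ 2) := by ring

/-- Parameters. -/
theorem ce2_par : ∃ n0 : ℕ, ∀ n : ℕ, n0 ≤ n → ∃ w : ℕ, 2 ≤ w ∧ (w : ℝ) < zz n ∧ 16 * w < n ∧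
    Real.log n / 2000 ≤ Real.log w ∧ ∀ p1 : ℕ, 0 < p1 → p1 ^ 100 ≤ n →
      (w : ℝ) ^ 422 ≤ n / (16 * p1) ∧ (p1 : ℝ) ≤ n ∧ 16 * p1 < n := by
  have ht : Filter.Tendsto (fun n : ℕ => (n : ℝ) ^ (1 / 1000 : ℝ)) Filter.atTop Filter.atTop :=
    (tendsto_rpow_atTop (by norm_num : (0 : ℝ) < 1 / 1000)).comp tendsto_natCast_atTop_atTop
  obtain ⟨n1, hn1⟩ := Filter.eventually_atTop.mp (ht.eventually_ge_atTop 16)
  refine ⟨n1 + 1, fun n hn => ?_⟩
  have hN : (1 : ℝ) ≤ n := by exact_mod_cast (by omega : 1 ≤ n)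
  have h16 : 16 ≤ (n : ℝ) ^ (1 / 1000 : ℝ) := hn1 n (by omega)
  obtain ⟨X, hX⟩ : ∃ X : ℝ, X = (n : ℝ) ^ (1 / 1000 : ℝ) := ⟨_, rfl⟩
  rw [← hX] at h16
  have hXn : ∀ a : ℕ, X ^ a = (n : ℝ) ^ ((a : ℝ) / 1000) := by
    intro a
    rw [hX, ← Real.rpow_natCast, ← Real.rpow_mul (by linarith)]
    congr 1
    ring
  have hX1000 : X ^ 1000 = n := by
    rw [hXn]
    norm_num
  have hX0 : 0 < X := by linarith
  have hX1 : 1 ≤ X := by linarith
  have hw1 : ((⌊X⌋₊ : ℕ) : ℝ) ≤ X := Nat.floor_le hX0.le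
  have hw2 : X < (⌊X⌋₊ : ℕ) + 1 := Nat.lt_floor_add_one X
  refine ⟨⌊X⌋₊, ?_, ?_, ?_, ?_, ?_⟩
  · apply Nat.le_floor
    push_cast
    linarith
  · have h1 : zz n = X ^ 125 := by
      rw [hXn]
      unfold zz
      norm_num
    rw [h1]
    calc ((⌊X⌋₊ : ℕ) : ℝ) ≤ X := hw1
      _ < X * X := by nlinarith
      _ = X ^ 2 := by ring
      _ ≤ X ^ 125 := pow_le_pow_right₀ hX1 (by norm_num)
  · have h1 : (16 : ℝ) * (⌊X⌋₊ : ℕ) < n := by
      calc (16 : ℝ) * (⌊X⌋₊ : ℕ) ≤ X * X := mul_le_mul h16 hw1 (Nat.cast_nonneg _) hX0.le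
        _ < X ^ 3 := by nlinarith [mul_pos hX0 hX0]
        _ ≤ X ^ 1000 := pow_le_pow_right₀ hX1 (by norm_num)
        _ = n := hX1000
    exact_mod_cast h1
  · have h1 : X / 2 ≤ (⌊X⌋₊ : ℕ) := by linarith
    have h2 : Real.log (X / 2) ≤ Real.log (⌊X⌋₊ : ℕ) := Real.log_le_log (by linarith) h1
    have h3 : Real.log X = 1 / 1000 * Real.log n := by
      rw [hX, Real.log_rpow (by linarith)]
    have h4 : Real.log (X / 2) = Real.log X - Real.log 2 :=
      Real.log_div hX0.ne' (by norm_num)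
    have h5 : 2 * Real.log 2 ≤ Real.log X := by
      have h6 : 2 * Real.log 2 = Real.log 4 := by
        rw [show (4 : ℝ) = 2 ^ 2 by norm_num, Real.log_pow]
        norm_num
      rw [h6]
      exact Real.log_le_log (by norm_num) (by linarith)
    linarith
  · intro p1 hp0 hp
    have hp' : (p1 : ℝ) ^ 100 ≤ n := by exact_mod_cast hp
    have hpX : (p1 : ℝ) ≤ X ^ 10 := by
      apply le_of_pow_le_pow_left₀ (n := 100) (by norm_num) (by positivity)
      calc (p1 : ℝ) ^ 100 ≤ n := hp'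
        _ = (X ^ 10) ^ 100 := by rw [← hX1000]; ring
    have hp0' : (0 : ℝ) < p1 := by exact_mod_cast hp0
    refine ⟨?_, ?_, ?_⟩
    · rw [le_div_iff₀ (by positivity)]
      calc ((⌊X⌋₊ : ℕ) : ℝ) ^ 422 * (16 * p1) ≤ X ^ 422 * (X * X ^ 10) := by
            apply mul_le_mul
            · exact pow_le_pow_left₀ (Nat.cast_nonneg _) hw1 422
            · exact mul_le_mul h16 hpX hp0'.le hX0.le
            · positivity
            · positivity
        _ = X ^ 433 := by ring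
        _ ≤ X ^ 1000 := pow_le_pow_right₀ hX1 (by norm_num)
        _ = n := hX1000
    · calc (p1 : ℝ) ≤ X ^ 10 := hpX
        _ ≤ X ^ 1000 := pow_le_pow_right₀ hX1 (by norm_num)
        _ = n := hX1000
    · have h1 : (16 : ℝ) * p1 < n := by
        calc (16 : ℝ) * p1 ≤ X * X ^ 10 := mul_le_mul h16 hpX hp0'.le hX0.le
          _ = X ^ 11 := by ring
          _ < X ^ 12 := by
              have : 0 < X ^ 11 := by positivity
              nlinarith [pow_succ X 11]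
          _ ≤ X ^ 1000 := pow_le_pow_right₀ hX1 (by norm_num)
          _ = n := hX1000
      exact_mod_cast h1

open Classical in
/-- The primes `p` in the window with `p1 ∣ N - p`: Brun's sieve.

Proof. If `p1 ∣ N` there is no such `p` (`p1 ∣ p`, `p > n/16 > p1`). Otherwise write `N - p = p1 k` (`y2 < N`) or
`p - N = p1 k`: `k` runs over an interval of `M ≤ (y2 - y1)/p1 + 1` consecutive integers. Sieve with the primes `7 ≤ q ≤ w`,
`w = ⌊n^(1/1000)⌋`, `q ≠ p1`: `N ∓ p1 k = p ≢ 0`, and `k ≢ 0 (mod q)` if `q ∤ N` (then `q ∈ PP` and `q < z`). The set of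
removed classes `Ω q` has `2` elements if `q ∤ N` and one (`0`, where `p ≡ 0`) if `q ∣ N`, none for `q = p1`.
`Sieve.fundamental_sum` with `k = 2` (`2 * 2 + 2 = 6`, `198 * 2 + 26 = 422`; `w^422 ≤ M`), `Sieve.prod_one_sub_chi`,
and `ce2_prod`: at most `3 M C hl N/(log w)² ≤ (C'/p1) hl N n/(log n)²`. Weights `log p ≤ log n`. -/
theorem bad_p1 : ∃ C : ℝ, 0 < C ∧ ∃ n0 : ℕ, ∀ n : ℕ, n0 ≤ n → ∀ p1 : ℕ, p1.Prime →
    p1 ^ 100 ≤ n → ∀ N y1 y2 : ℕ, Win n N y1 y2 →
    ∑ p ∈ (Sq y1 y2).filter (fun p => p1 ∣ Nat.dist N p ∧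
      ∀ q ∈ PP n N p1, (q : ℝ) < zz n → ¬ q ∣ Nat.dist N p), lg p ≤
      C / p1 * (hl N * n / Real.log n) := by
  obtain ⟨C, hC, hsv⟩ := ce2_sieve
  obtain ⟨n1, hpar⟩ := ce2_par
  refine ⟨C * (3 * 2000 ^ 2), by positivity, n1 + 3, fun n hn p1 hp1 hp100 N y1 y2 hW => ?_⟩
  have hN : (3 : ℝ) ≤ n := by exact_mod_cast (by omega : 3 ≤ n)
  have hL : 0 < Real.log n := Real.log_pos (by linarith)
  obtain ⟨w, hw2, hwz, hwn, hlw, hp⟩ := hpar n (by omega)
  obtain ⟨hw422, hp1n, hp116⟩ := hp p1 hp1.pos hp100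
  have hp0 : (0 : ℝ) < p1 := by exact_mod_cast hp1.pos
  obtain ⟨S0, hS0⟩ : ∃ S0 : Finset ℕ, S0 = (Sq y1 y2).filter (fun p => p1 ∣ Nat.dist N p ∧
      ∀ q ∈ PP n N p1, (q : ℝ) < zz n → ¬ q ∣ Nat.dist N p) := ⟨_, rfl⟩
  rw [← hS0]
  obtain ⟨s, hs⟩ : ∃ s : ℤ, s = if y2 < N then 1 else -1 := ⟨_, rfl⟩
  have hs1 : s = 1 ∨ s = -1 := by
    rw [hs]
    split_ifs
    · left; rfl
    · right; rfl
  have hside := hW.side
  have hlt := hW.lt
  have hle := hW.le
  have hlo := hW.lo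
  -- facts about the elements
  have hfact : ∀ p ∈ S0, y1 < p ∧ p ≤ y2 ∧ p.Prime ∧ p1 * (Nat.dist N p / p1) = Nat.dist N p ∧
      (p : ℤ) = N - s * (p1 * ((Nat.dist N p / p1 : ℕ) : ℤ)) ∧
      (∀ q ∈ PP n N p1, (q : ℝ) < zz n → ¬ q ∣ Nat.dist N p) := by
    intro p hp
    rw [hS0, mem_filter, mem_Sq] at hp
    obtain ⟨⟨⟨h1, h2⟩, h3⟩, h4, h5⟩ := hp
    have h6 : p1 * (Nat.dist N p / p1) = Nat.dist N p := Nat.mul_div_cancel' h4
    refine ⟨h1, h2, h3, h6, ?_, h5⟩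
    have h7 : ((p1 : ℤ) * ((Nat.dist N p / p1 : ℕ) : ℤ)) = (Nat.dist N p : ℤ) := by
      exact_mod_cast h6
    rw [h7, hs]
    unfold Nat.dist
    split_ifs with h8
    · have h9 : p ≤ N := by omega
      have h10 : p - N = 0 := by omega
      rw [h10, add_zero, Nat.cast_sub h9]
      ring
    · have h9 : N ≤ p := by omega
      have h10 : N - p = 0 := by omega
      rw [h10, zero_add, Nat.cast_sub h9]
      ring
  -- the set of the `k`
  obtain ⟨K, hK⟩ : ∃ K : Finset ℕ, K = S0.image (fun p => Nat.dist N p / p1) := ⟨_, rfl⟩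
  have hcard : K.card = S0.card := by
    rw [hK]
    apply card_image_of_injOn
    intro p hp p' hp' heq
    have h1 := (hfact p hp).2.2.2.2.1
    have h2 := (hfact p' hp').2.2.2.2.1
    have heq' : Nat.dist N p / p1 = Nat.dist N p' / p1 := heq
    rw [heq'] at h1
    have h3 : (p : ℤ) = p' := h1.trans h2.symm
    exact_mod_cast h3
  -- the interval
  obtain ⟨d0, hd0⟩ : ∃ d0 : ℕ, d0 = if y2 < N then N - y2 else y1 - N := ⟨_, rfl⟩
  obtain ⟨M, hM⟩ : ∃ M : ℕ, M = (y2 - y1) / p1 + 2 := ⟨_, rfl⟩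
  have hMw : w ^ 422 ≤ M := by
    have h1 : (w : ℝ) ^ 422 ≤ M := by
      refine hw422.trans ?_
      have h2 : (n : ℝ) / (16 * p1) ≤ ((y2 - y1 : ℕ) : ℝ) / p1 := by
        rw [div_le_div_iff₀ (by positivity) hp0]
        have h3 : (n : ℝ) ≤ ((16 * (y2 - y1) : ℕ) : ℝ) := by exact_mod_cast hW.len
        push_cast at h3
        nlinarith
      have h3 : ((y2 - y1 : ℕ) : ℝ) / p1 ≤ (((y2 - y1) / p1 : ℕ) : ℝ) + 1 := by
        rw [div_le_iff₀ hp0]
        have h4 : y2 - y1 < p1 * ((y2 - y1) / p1 + 1) := Nat.lt_mul_div_succ _ hp1.pos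
        have h5 : ((y2 - y1 : ℕ) : ℝ) ≤ ((p1 * ((y2 - y1) / p1 + 1) : ℕ) : ℝ) := by
          exact_mod_cast h4.le
        push_cast at h5
        push_cast
        linarith
      have h4 : (M : ℝ) = (((y2 - y1) / p1 : ℕ) : ℝ) + 2 := by
        rw [hM]
        push_cast
        ring
      linarith
    exact_mod_cast h1
  have hMn : (M : ℝ) ≤ 3 * (n / p1) := by
    have h1 : (((y2 - y1) / p1 : ℕ) : ℝ) ≤ ((y2 - y1 : ℕ) : ℝ) / p1 := Nat.cast_div_le
    have h2 : ((y2 - y1 : ℕ) : ℝ) / p1 ≤ n / p1 := by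
      apply div_le_div_of_nonneg_right _ hp0.le
      have : y2 - y1 ≤ n := by omega
      exact_mod_cast this
    have h3 : 1 ≤ (n : ℝ) / p1 := by
      rw [le_div_iff₀ hp0, one_mul]
      exact hp1n
    have h4 : (M : ℝ) = (((y2 - y1) / p1 : ℕ) : ℝ) + 2 := by
      rw [hM]
      push_cast
      ring
    rw [h4]
    linarith
  have hKc : (K.card : ℝ) ≤ M * (C * hl N / Real.log w ^ 2) := by
    apply hsv w N p1 M ((d0 / p1 : ℕ) : ℤ) s hw2 hW.N0 hp1 hs1 hMw K
    intro k hk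
    rw [hK, mem_image] at hk
    obtain ⟨p, hp, rfl⟩ := hk
    obtain ⟨h1, h2, h3, h4, h5, h6⟩ := hfact p hp
    constructor
    · rw [mem_Ico]
      have h7 : d0 ≤ Nat.dist N p ∧ Nat.dist N p ≤ d0 + (y2 - y1) := by
        rw [hd0]
        unfold Nat.dist
        split_ifs <;> omega
      constructor
      · exact_mod_cast Nat.div_le_div_right h7.1
      · have h8 : Nat.dist N p / p1 ≤ (d0 + (y2 - y1)) / p1 := Nat.div_le_div_right h7.2
        have h9 : (d0 + (y2 - y1)) / p1 ≤ d0 / p1 + (y2 - y1) / p1 + 1 := by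
          have h10 : d0 < p1 * (d0 / p1 + 1) := Nat.lt_mul_div_succ _ hp1.pos
          have h11 : y2 - y1 < p1 * ((y2 - y1) / p1 + 1) := Nat.lt_mul_div_succ _ hp1.pos
          have h12 : (d0 + (y2 - y1)) / p1 < d0 / p1 + (y2 - y1) / p1 + 2 := by
            rw [Nat.div_lt_iff_lt_mul hp1.pos]
            nlinarith
          omega
        have h10 : Nat.dist N p / p1 < d0 / p1 + M := by omega
        exact_mod_cast h10
    · intro q hq hmem
      rw [mem_sprimes] at hq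
      obtain ⟨hqp, hq6, hqw⟩ := hq
      have : Fact q.Prime := ⟨hqp⟩
      have hqne : q ≠ p := by
        intro h
        omega
      have hqnp : (p : ZMod q) ≠ 0 := by
        intro h
        have h7 := (ZMod.natCast_eq_zero_iff p q).mp h
        exact hqne ((Nat.prime_dvd_prime_iff_eq hqp h3).mp h7)
      unfold ce2Om at hmem
      split_ifs at hmem with h7
      · simp at hmem
      · have hp1q : (p1 : ZMod q) ≠ 0 := by
          intro h
          have h8 := (ZMod.natCast_eq_zero_iff p1 q).mp h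
          exact h7 ((Nat.prime_dvd_prime_iff_eq hqp hp1).mp h8)
        have h5q : (p : ZMod q) = N - s * (p1 * ((Nat.dist N p / p1 : ℕ) : ZMod q)) := by
          obtain ⟨k, hk⟩ : ∃ k : ℕ, k = Nat.dist N p / p1 := ⟨_, rfl⟩
          rw [← hk] at h5 ⊢
          have h8 : ((p : ℤ) : ZMod q) = ((N - s * (p1 * (k : ℤ)) : ℤ) : ZMod q) := by rw [← h5]
          push_cast at h8
          exact h8
        rw [mem_insert, mem_singleton] at hmem
        rcases hmem with h8 | h8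
        · -- `k ≡ 0`
          have h8' : ((Nat.dist N p / p1 : ℕ) : ZMod q) = 0 := by exact_mod_cast h8
          have h9 : q ∣ Nat.dist N p / p1 := (ZMod.natCast_eq_zero_iff _ q).mp h8'
          have h10 : q ∣ Nat.dist N p := by
            rw [← h4]
            exact dvd_mul_of_dvd_right h9 p1
          by_cases h11 : q ∣ N
          · apply hqnp
            rw [h5q, h8', (ZMod.natCast_eq_zero_iff N q).mpr h11]
            simp
          · have h12 : q ∈ PP n N p1 := by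
              rw [mem_PP]
              exact ⟨⟨by omega, by omega⟩, hqp, h11, h7⟩
            have h13 : (q : ℝ) < zz n := by
              have : (q : ℝ) ≤ w := by exact_mod_cast hqw
              linarith
            exact h6 q h12 h13 h10
        · -- `k ≡ s N / p1`
          have h8' : ((Nat.dist N p / p1 : ℕ) : ZMod q) = s * N * (p1 : ZMod q)⁻¹ := by
            exact_mod_cast h8
          apply hqnp
          rw [h5q, h8']
          have h9 : (s : ZMod q) * s = 1 := by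
            rcases hs1 with h | h <;> rw [h] <;> simp
          have h10 : (s : ZMod q) * (p1 * (s * N * (p1 : ZMod q)⁻¹)) = (s * s) * N := by
            field_simp
          rw [h10, h9]
          ring
  rw [hcard] at hKc
  have hlw0 : 0 < Real.log n / 2000 := by positivity
  have hlw1 : 0 < Real.log w := lt_of_lt_of_le hlw0 hlw
  have hhl := one_le_hl N
  have hb : (C * hl N / Real.log w ^ 2) ≤ C * hl N / (Real.log n / 2000) ^ 2 := by
    apply div_le_div_of_nonneg_left (by positivity) (by positivity)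
    exact pow_le_pow_left₀ hlw0.le hlw 2
  calc ∑ p ∈ S0, lg p ≤ ∑ p ∈ S0, Real.log n := by
        apply sum_le_sum
        intro p hp
        obtain ⟨h1, h2, h3, -⟩ := hfact p hp
        unfold lg
        apply Real.log_le_log
        · exact_mod_cast h3.pos
        · exact_mod_cast h2.trans hle
    _ = (S0.card : ℝ) * Real.log n := by rw [sum_const, nsmul_eq_mul]
    _ ≤ (3 * (n / p1) * (C * hl N / (Real.log n / 2000) ^ 2)) * Real.log n := by
        apply mul_le_mul_of_nonneg_right _ hL.le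
        refine hKc.trans ?_
        apply mul_le_mul hMn hb (by positivity) (by positivity)
    _ = C * (3 * 2000 ^ 2) / p1 * (hl N * n / Real.log n) := by
        field_simp

end Pool.Agent.Lib.H59C
end
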