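import Pool.Agent.Lib.H1M.RV.M006
import Pool.Agent.Lib.H1M.RV.M029
import Pool.Agent.Lib.H1M.RV.M040
import Pool.Agent.Lib.H1M.RV.M046
import Pool.Agent.Lib.H1M.RV.M051

/-! Merged copies (to shorten the build) of Lib.H18E.ML, Lib.H57C.X1, Lib.H57M.R1. -/

-- from Lib.H18E.ML
section

/-!
# Chunk ML: lower bound for the correlations of the model
-/

open Finset Pool.Agent.Lib.H68T

namespace Pool.Agent.Lib.H18E

/-- The weight `|x + W c|^(β-1)` along the class, constant for `c ≥ H - 1`. -/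
noncomputable def ml_w (H W : ℕ) (x : ℤ) (β : ℝ) (c : ℕ) : ℝ :=
  |((x + W * (min c (H - 1) : ℕ) : ℤ) : ℝ)| ^ (β - 1)

theorem ml_one_le {H W : ℕ} {x : ℤ} (hH : 1 ≤ H) (hW : 0 < W) (hx : 1 ≤ x ∨ x + W * H ≤ 0)
    (c : ℕ) : (1 : ℝ) ≤ |((x + W * (min c (H - 1) : ℕ) : ℤ) : ℝ)| := by
  have hc : min c (H - 1) ≤ H - 1 := min_le_right _ _
  set k := min c (H - 1) with hk
  have hW' : (0 : ℤ) < W := by exact_mod_cast hW
  have hk0 : (0 : ℤ) ≤ (W : ℤ) * k := by positivity
  have hk1 : (W : ℤ) * k + W ≤ W * H := by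
    have : W * (k + 1) ≤ W * H := Nat.mul_le_mul_left _ (by omega)
    have h3 : ((W * (k + 1) : ℕ) : ℤ) ≤ ((W * H : ℕ) : ℤ) := by exact_mod_cast this
    push_cast at h3
    linarith
  rw [← Int.cast_abs]
  have : (1 : ℤ) ≤ |x + W * (k : ℕ)| := by
    rcases hx with hx | hx
    · rw [abs_of_pos (by linarith)]
      linarith
    · rw [abs_of_neg (by linarith)]
      linarith
  exact_mod_cast this

theorem ml_w_nonneg (H W : ℕ) (x : ℤ) (β : ℝ) (c : ℕ) : 0 ≤ ml_w H W x β c := by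
  unfold ml_w
  positivity

theorem ml_w_le {H W : ℕ} {x : ℤ} {β : ℝ} (hH : 1 ≤ H) (hW : 0 < W)
    (hx : 1 ≤ x ∨ x + W * H ≤ 0) (hβ1 : β ≤ 1) (c : ℕ) : ml_w H W x β c ≤ 1 := by
  unfold ml_w
  exact Real.rpow_le_one_of_one_le_of_nonpos (ml_one_le hH hW hx c) (by linarith)

theorem ml_w_mono {H W : ℕ} {x : ℤ} {β : ℝ} (hH : 1 ≤ H) (hW : 0 < W)
    (hx : 1 ≤ x ∨ x + W * H ≤ 0) (hβ1 : β ≤ 1) :
    Antitone (ml_w H W x β) ∨ Monotone (ml_w H W x β) := by
  have hW' : (0 : ℤ) < W := by exact_mod_cast hW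
  have key : ∀ c c' : ℕ, c ≤ c' → (W : ℤ) * (min c (H - 1) : ℕ) ≤ W * (min c' (H - 1) : ℕ) := by
    intro c c' h
    have : min c (H - 1) ≤ min c' (H - 1) := min_le_min_right _ h
    have h2 : ((min c (H - 1) : ℕ) : ℤ) ≤ ((min c' (H - 1) : ℕ) : ℤ) := by exact_mod_cast this
    nlinarith
  have hb : ∀ c : ℕ, (0 : ℤ) ≤ (W : ℤ) * (min c (H - 1) : ℕ) ∧
      (W : ℤ) * (min c (H - 1) : ℕ) + W ≤ W * H := by
    intro c
    refine ⟨by positivity, ?_⟩
    have h1 : min c (H - 1) ≤ H - 1 := min_le_right _ _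
    have : W * (min c (H - 1) + 1) ≤ W * H := Nat.mul_le_mul_left _ (by omega)
    have h3 : ((W * (min c (H - 1) + 1) : ℕ) : ℤ) ≤ ((W * H : ℕ) : ℤ) := by exact_mod_cast this
    push_cast at h3 ⊢
    linarith
  rcases hx with hx | hx
  · left
    intro c c' h
    unfold ml_w
    apply Real.rpow_le_rpow_of_nonpos
    · exact lt_of_lt_of_le one_pos (ml_one_le hH hW (Or.inl hx) c)
    · rw [← Int.cast_abs, ← Int.cast_abs]
      have h1 := key c c' h
      have h2 := hb c
      have h3 := hb c'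
      have : |x + W * (min c (H - 1) : ℕ)| ≤ |x + W * (min c' (H - 1) : ℕ)| := by
        rw [abs_of_pos (by linarith [h2.1]), abs_of_pos (by linarith [h3.1])]
        linarith
      exact_mod_cast this
    · linarith
  · right
    intro c c' h
    unfold ml_w
    apply Real.rpow_le_rpow_of_nonpos
    · exact lt_of_lt_of_le one_pos (ml_one_le hH hW (Or.inr hx) c')
    · rw [← Int.cast_abs, ← Int.cast_abs]
      have h1 := key c c' h
      have h2 := hb c
      have h3 := hb c'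
      have : |x + W * (min c' (H - 1) : ℕ)| ≤ |x + W * (min c (H - 1) : ℕ)| := by
        rw [abs_of_neg (by linarith [h3.2]), abs_of_neg (by linarith [h2.2])]
        linarith
      exact_mod_cast this
    · linarith

/-- The weighted expansion. -/
noncomputable def ml_S (Q W : ℕ) (x : ℤ) (A : ℕ → ℕ → ℝ) (c : ℕ) : ℝ :=
  ∑ q ∈ QW Q W, (ArithmeticFunction.moebius q : ℝ) / (Nat.totient q : ℝ) *
    cq q (x + W * (c : ℕ)) * A q c

theorem ml_MM_eq (Q H W r : ℕ) (x : ℤ) (c : ℕ) (β ε : ℝ) (hW : 0 < W) (hr : r ∣ W)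
    (hx : IsCoprime x (W : ℤ)) (hc : c < H) :
    MM Q r ε β (x + W * (c : ℕ)) =
      ml_S Q W x (fun q _ => TW Q W q) c -
        ε * ml_S Q W x (fun q c => ml_w H W x β c * TWr Q W r q) c := by
  have hm : IsCoprime (x + W * (c : ℕ)) (W : ℤ) := hx.add_mul_left_left _
  unfold MM ml_S
  rw [G_coprime Q W hW _ hm, Gam_coprime Q W r hW hr _ hm, mul_sum, mul_sum]
  congr 1
  apply sum_congr rfl
  intro q _
  have hc' : |((x + W * (c : ℕ) : ℤ) : ℝ)| ^ (β - 1) = ml_w H W x β c := by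
    unfold ml_w
    have : min c (H - 1) = c := by omega
    rw [this]
  rw [hc']
  ring

/-- Lower bound version of `x_pair` (file `H68X/XCG.lean`), for two starting points `x`, `y`.

All `m = x + W c`, `m' = y + W c`, `c < H`, are coprime to `W`, nonzero; `|m|` is increasing in `c`
and `|m'|` is increasing (if `1 ≤ y`) or decreasing (if `y + W H ≤ 0`). By `G_coprime`, `Gam_coprime`
(`XG1.lean`) `MM(m) = ∑_{q ∈ QW Q W} (μ(q)/φ(q)) c_q(m) (A q c - ε B q c)`, `A q c = TW Q W q`,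
`B q c = |m|^(β-1) TWr Q W r q`, all in `[0, W/φ(W)]`, monotone in `c` (extend the weights monotonically
outside `c < H`, e.g. replace `c` by `min c (H - 1)`); similarly `m'`. Expand the product into four
correlations, apply `pair_gen` to each (`D = W/φ(W)`): up to `8 D² Q^6 ≤ Q^9` the sum is
`∑_q (μ(q)/φ(q))² c_q(x-y) ∑_c (A - ε B)(A' - ε' B')`. For `q² ≤ Q` (so `W q ≤ Q`, as `W^100 ≤ Q`)
`TW_eq`, `TWr_eq` (file `XTW.lean`) give the inner sum
`(W/φ(W))² ∑_c (1 - ε |m|^(β-1))(1 - ε' |m'|^(β-1)) ≥ 0`, and `ss_low` applies to the sum over these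
`q`. For `q² > Q` the inner sum is at most `4 (W/φ(W))² H` in absolute value, the terms vanish unless
`q` is squarefree, `|c_q(D)| ≤ φ((q,D))` (`cq_squarefree`): `ss_tail`. Note
`∑_c (1 - ..)(1 - ..) ≤ 4 H`. -/
theorem model_low : ∃ C : ℝ, 1 ≤ C ∧ ∀ (Q H W r : ℕ) (x y : ℤ) (β ε ε' : ℝ), 0 < W →
    W ^ 100 ≤ Q → 8 ≤ Q → r ∣ W → IsCoprime x (W : ℤ) → IsCoprime y (W : ℤ) → 1 ≤ x →
    (1 ≤ y ∨ y + W * H ≤ 0) → x ≠ y → (2 ∣ W ∨ (2 : ℤ) ∣ x - y) → 1 / 2 ≤ β → β ≤ 1 →
    |ε| ≤ 1 → |ε'| ≤ 1 →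
    ((W : ℝ) / Nat.totient W) ^ 2 *
        ((∑ c ∈ range H, (1 - ε * |((x + W * (c : ℕ) : ℤ) : ℝ)| ^ (β - 1)) *
            (1 - ε' * |((y + W * (c : ℕ) : ℤ) : ℝ)| ^ (β - 1))) * (1 / 2 * Gp W (x - y)) -
          C * H * (Q : ℝ) ^ (-(1 / 4) : ℝ) * Rk (x - y)) - (Q : ℝ) ^ 9 ≤
      ∑ c ∈ range H, MM Q r ε β (x + W * (c : ℕ)) * MM Q r ε' β (y + W * (c : ℕ)) := by
  obtain ⟨C1, hC1, hlow⟩ := ss_low
  obtain ⟨C2, hC2, htail⟩ := ss_tail
  refine ⟨4 * C1 + 4 * C2, by linarith, ?_⟩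
  intro Q H W r x y β ε ε' hW hWQ hQ hr hx hy hx1 hy1 hxy hpar hβ hβ1 hε hε'
  have hQr : (8 : ℝ) ≤ Q := by exact_mod_cast hQ
  by_cases hH0 : H = 0
  · subst hH0
    simp only [range_zero, sum_empty, Nat.cast_zero, zero_mul, mul_zero, sub_zero]
    have : 0 ≤ (Q : ℝ) ^ 9 := by positivity
    linarith
  have hH : 1 ≤ H := by omega
  have hH' : (1 : ℝ) ≤ H := by exact_mod_cast hH
  set D : ℝ := (W : ℝ) / Nat.totient W with hD
  have hD0 : 0 ≤ D := by positivity
  set d : ℤ := x - y with hd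
  have hd0 : d ≠ 0 := sub_ne_zero.mpr hxy
  set A : ℕ → ℕ → ℝ := fun q _ => TW Q W q with hA
  set B : ℕ → ℕ → ℝ := fun q c => ml_w H W x β c * TWr Q W r q with hB
  set B' : ℕ → ℕ → ℝ := fun q c => ml_w H W y β c * TWr Q W r q with hB'
  have hA0 : ∀ q c, 0 ≤ A q c := fun q _ => TW_nonneg Q W q
  have hAD : ∀ q c, A q c ≤ D := fun q _ => TW_le Q W q hW
  have hAm : ∀ q, Antitone (A q) ∨ Monotone (A q) := fun q => Or.inl (fun _ _ _ => le_refl _)
  have gB0 : ∀ (z : ℤ) (q c : ℕ), 0 ≤ ml_w H W z β c * TWr Q W r q := fun z q c =>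
    mul_nonneg (ml_w_nonneg H W z β c) (TWr_nonneg Q W r q)
  have gBD : ∀ z : ℤ, (1 ≤ z ∨ z + W * H ≤ 0) → ∀ q c : ℕ,
      ml_w H W z β c * TWr Q W r q ≤ D := fun z hz q c => by
    have h1 := ml_w_le hH hW hz hβ1 c
    have h3 := TWr_nonneg Q W r q
    have h4 := TWr_le Q W r q hW hr
    calc ml_w H W z β c * TWr Q W r q ≤ 1 * TWr Q W r q := mul_le_mul_of_nonneg_right h1 h3
      _ ≤ D := by rw [one_mul]; exact h4
  have gBm : ∀ z : ℤ, (1 ≤ z ∨ z + W * H ≤ 0) → ∀ q : ℕ,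
      Antitone (fun c => ml_w H W z β c * TWr Q W r q) ∨
        Monotone (fun c => ml_w H W z β c * TWr Q W r q) := fun z hz q => by
    rcases ml_w_mono hH hW hz hβ1 with h | h
    · exact Or.inl (fun c c' hc => mul_le_mul_of_nonneg_right (h hc) (TWr_nonneg Q W r q))
    · exact Or.inr (fun c c' hc => mul_le_mul_of_nonneg_right (h hc) (TWr_nonneg Q W r q))
  have hx1' : 1 ≤ x ∨ x + W * H ≤ 0 := Or.inl hx1
  have hB0 : ∀ q c, 0 ≤ B q c := gB0 x
  have hB0' : ∀ q c, 0 ≤ B' q c := gB0 y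
  have hBD : ∀ q c, B q c ≤ D := gBD x hx1'
  have hBD' : ∀ q c, B' q c ≤ D := gBD y hy1
  have hBm : ∀ q, Antitone (B q) ∨ Monotone (B q) := gBm x hx1'
  have hBm' : ∀ q, Antitone (B' q) ∨ Monotone (B' q) := gBm y hy1
  -- the four correlations
  set T : (ℕ → ℕ → ℝ) → (ℕ → ℕ → ℝ) → ℝ := fun U V => ∑ c ∈ range H,
    ml_S Q W x U c * ml_S Q W y V c with hT
  set Z : (ℕ → ℕ → ℝ) → (ℕ → ℕ → ℝ) → ℝ := fun U V =>
    ∑ q ∈ QW Q W, ((ArithmeticFunction.moebius q : ℝ) / (Nat.totient q : ℝ)) ^ 2 *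
        cq q d * ∑ c ∈ range H, U q c * V q c with hZ
  have hAA' : |T A A - Z A A| ≤ 2 * D ^ 2 * (Q : ℝ) ^ 6 :=
    pair_gen Q H W hW x y A A D hD0 hA0 hAD hA0 hAD hAm hAm
  have hAB' : |T A B' - Z A B'| ≤ 2 * D ^ 2 * (Q : ℝ) ^ 6 :=
    pair_gen Q H W hW x y A B' D hD0 hA0 hAD hB0' hBD' hAm hBm'
  have hBA' : |T B A - Z B A| ≤ 2 * D ^ 2 * (Q : ℝ) ^ 6 :=
    pair_gen Q H W hW x y B A D hD0 hB0 hBD hA0 hAD hBm hAm
  have hBB' : |T B B' - Z B B'| ≤ 2 * D ^ 2 * (Q : ℝ) ^ 6 :=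
    pair_gen Q H W hW x y B B' D hD0 hB0 hBD hB0' hBD' hBm hBm'
  have hE0 : 0 ≤ 2 * D ^ 2 * (Q : ℝ) ^ 6 := by positivity
  have hexp : ∑ c ∈ range H, MM Q r ε β (x + W * (c : ℕ)) * MM Q r ε' β (y + W * (c : ℕ)) =
      T A A - ε' * T A B' - ε * T B A + ε * ε' * T B B' := by
    simp only [hT]
    rw [mul_sum, mul_sum, mul_sum, ← sum_sub_distrib, ← sum_sub_distrib, ← sum_add_distrib]
    apply sum_congr rfl
    intro c hc
    rw [ml_MM_eq Q H W r x c β ε hW hr hx (mem_range.mp hc),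
      ml_MM_eq Q H W r y c β ε' hW hr hy (mem_range.mp hc)]
    simp only [hA, hB, hB']
    ring
  have herr : Z A A - ε' * Z A B' - ε * Z B A + ε * ε' * Z B B' - 8 * D ^ 2 * (Q : ℝ) ^ 6 ≤
      T A A - ε' * T A B' - ε * T B A + ε * ε' * T B B' := by
    have gen : ∀ (η u v : ℝ), |η| ≤ 1 → |u - v| ≤ 2 * D ^ 2 * (Q : ℝ) ^ 6 →
        η * v - 2 * D ^ 2 * (Q : ℝ) ^ 6 ≤ η * u := by
      intro η u v h1 h2
      have h3 : |η * (u - v)| ≤ 2 * D ^ 2 * (Q : ℝ) ^ 6 := by
        rw [abs_mul]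
        calc |η| * |u - v| ≤ 1 * (2 * D ^ 2 * (Q : ℝ) ^ 6) :=
              mul_le_mul h1 h2 (abs_nonneg _) (by norm_num)
          _ = _ := one_mul _
      have h4 := (abs_le.mp h3).1
      have h5 : η * (u - v) = η * u - η * v := by ring
      linarith
    have e1 := gen 1 _ _ (by norm_num) hAA'
    have e2 := gen (-ε') _ _ (by rw [abs_neg]; exact hε') hAB'
    have e3 := gen (-ε) _ _ (by rw [abs_neg]; exact hε) hBA'
    have e4 := gen (ε * ε') _ _ (by
      rw [abs_mul]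
      exact mul_le_one₀ hε (abs_nonneg _) hε') hBB'
    linarith
  have herr2 : 8 * D ^ 2 * (Q : ℝ) ^ 6 ≤ (Q : ℝ) ^ 9 := by
    have h1 : D ^ 2 ≤ Q := XCG_D_sq Q W hW hWQ
    calc 8 * D ^ 2 * (Q : ℝ) ^ 6 ≤ Q * Q * (Q : ℝ) ^ 6 := by gcongr
      _ = (Q : ℝ) ^ 8 := by ring
      _ ≤ (Q : ℝ) ^ 9 := pow_le_pow_right₀ (by linarith) (by norm_num)
  -- the main term
  set I : ℕ → ℝ := fun q => ∑ c ∈ range H, (A q c - ε * B q c) * (A q c - ε' * B' q c) with hI
  have hmain : Z A A - ε' * Z A B' - ε * Z B A + ε * ε' * Z B B' =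
      ∑ q ∈ QW Q W, ((ArithmeticFunction.moebius q : ℝ) / (Nat.totient q : ℝ)) ^ 2 *
        cq q d * I q := by
    simp only [hZ, hI]
    rw [mul_sum, mul_sum, mul_sum, ← sum_sub_distrib, ← sum_sub_distrib, ← sum_add_distrib]
    apply sum_congr rfl
    intro q _
    have h1 : ∑ c ∈ range H, (A q c - ε * B q c) * (A q c - ε' * B' q c) =
        ∑ c ∈ range H, A q c * A q c - ε' * ∑ c ∈ range H, A q c * B' q c -
          ε * ∑ c ∈ range H, B q c * A q c + ε * ε' * ∑ c ∈ range H, B q c * B' q c := by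
      rw [mul_sum, mul_sum, mul_sum, ← sum_sub_distrib, ← sum_sub_distrib, ← sum_add_distrib]
      apply sum_congr rfl
      intro c _
      ring
    rw [h1]
    ring
  set Sg : ℝ := ∑ c ∈ range H, (1 - ε * |((x + W * (c : ℕ) : ℤ) : ℝ)| ^ (β - 1)) *
            (1 - ε' * |((y + W * (c : ℕ) : ℤ) : ℝ)| ^ (β - 1)) with hSg
  have hSgw : Sg = ∑ c ∈ range H, (1 - ε * ml_w H W x β c) * (1 - ε' * ml_w H W y β c) := by
    rw [hSg]
    refine sum_congr rfl fun c hc => ?_
    have hc' := mem_range.mp hc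
    unfold ml_w
    have : min c (H - 1) = c := by omega
    rw [this]
  have hone : ∀ (z : ℤ) (η : ℝ), |η| ≤ 1 → (1 ≤ z ∨ z + W * H ≤ 0) → ∀ c : ℕ,
      0 ≤ 1 - η * ml_w H W z β c ∧ 1 - η * ml_w H W z β c ≤ 2 := by
    intro z η hη hz c
    have h1 := ml_w_le hH hW hz hβ1 c
    have h2 := ml_w_nonneg H W z β c
    have h3 := abs_le.mp hη
    constructor <;> nlinarith
  have hSg0 : 0 ≤ Sg := by
    rw [hSgw]
    exact sum_nonneg fun c _ => mul_nonneg (hone x ε hε hx1' c).1 (hone y ε' hε' hy1 c).1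
  have hSg4 : Sg ≤ 4 * H := by
    rw [hSgw]
    calc _ ≤ ∑ _c ∈ range H, (4 : ℝ) := by
          apply sum_le_sum
          intro c _
          have h1 := hone x ε hε hx1' c
          have h2 := hone y ε' hε' hy1 c
          calc _ ≤ (2 : ℝ) * 2 := mul_le_mul h1.2 h2.2 h2.1 (by norm_num)
            _ = 4 := by norm_num
      _ = 4 * H := by rw [sum_const, card_range, nsmul_eq_mul]; ring
  have hIsmall : ∀ q : ℕ, q ^ 2 ≤ Q → I q = D ^ 2 * Sg := by
    intro q hq
    have hWq : W * q ≤ Q := by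
      have h1 := XCG_W_sq Q W hW hWQ
      have h2 : (W * q) ^ 2 ≤ Q ^ 2 := by
        calc (W * q) ^ 2 = W ^ 2 * q ^ 2 := by ring
          _ ≤ Q * Q := Nat.mul_le_mul h1 hq
          _ = Q ^ 2 := by ring
      exact (Nat.pow_le_pow_iff_left (by norm_num)).mp h2
    rw [hSgw]
    simp only [hI]
    rw [mul_sum]
    apply sum_congr rfl
    intro c _
    simp only [hA, hB, hB']
    rw [TW_eq Q W q hW hWq, TWr_eq Q W r q hW hr hWq]
    ring
  have hIbig : ∀ q : ℕ, |I q| ≤ H * (4 * D ^ 2) := by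
    intro q
    simp only [hI]
    refine (abs_sum_le_sum_abs _ _).trans ?_
    calc ∑ c ∈ range H, |(A q c - ε * B q c) * (A q c - ε' * B' q c)|
        ≤ ∑ _c ∈ range H, 4 * D ^ 2 := by
          apply sum_le_sum
          intro c _
          rw [abs_mul]
          have key : ∀ η u v : ℝ, |η| ≤ 1 → 0 ≤ u → u ≤ D → 0 ≤ v → v ≤ D →
              |u - η * v| ≤ 2 * D := by
            intro η u v hη hu hu' hv hv'
            have h1 : |η * v| ≤ D := by
              rw [abs_mul, abs_of_nonneg hv]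
              calc |η| * v ≤ 1 * D := mul_le_mul hη hv' hv (by norm_num)
                _ = D := one_mul _
            have h2 := abs_le.mp h1
            rw [abs_le]
            constructor <;> linarith
          have h1 := key _ _ _ hε (hA0 q c) (hAD q c) (hB0 q c) (hBD q c)
          have h2 := key _ _ _ hε' (hA0 q c) (hAD q c) (hB0' q c) (hBD' q c)
          calc |A q c - ε * B q c| * |A q c - ε' * B' q c| ≤ (2 * D) * (2 * D) :=
                mul_le_mul h1 h2 (abs_nonneg _) (by positivity)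
            _ = 4 * D ^ 2 := by ring
      _ = H * (4 * D ^ 2) := by rw [sum_const, card_range, nsmul_eq_mul]
  set q4 := (Q : ℝ) ^ (-(1 / 4) : ℝ) with hq4
  have hq40 : 0 ≤ q4 := by positivity
  have hRk : 1 ≤ Rk d := one_le_Rk d
  have hbound : D ^ 2 * (Sg * (1 / 2 * Gp W d) - (4 * C1 + 4 * C2) * H * q4 * Rk d) ≤
      ∑ q ∈ QW Q W, ((ArithmeticFunction.moebius q : ℝ) / (Nat.totient q : ℝ)) ^ 2 *
        cq q d * I q := by
    rw [← sum_filter_add_sum_filter_not (QW Q W) (fun q => q ^ 2 ≤ Q)]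
    have p1 : D ^ 2 * (Sg * (1 / 2 * Gp W d) - 4 * C1 * H * q4 * Rk d) ≤
        ∑ q ∈ (QW Q W).filter (fun q => q ^ 2 ≤ Q),
        ((ArithmeticFunction.moebius q : ℝ) / (Nat.totient q : ℝ)) ^ 2 * cq q d * I q := by
      have h1 := hlow Q W d hd0 hW (by omega) (by
        rcases hpar with h | h
        · exact Or.inl h
        · exact Or.inr h)
      have h2 : ∑ q ∈ (QW Q W).filter (fun q => q ^ 2 ≤ Q),
          ((ArithmeticFunction.moebius q : ℝ) / (Nat.totient q : ℝ)) ^ 2 * cq q d * I q =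
          (D ^ 2 * Sg) * ∑ q ∈ (QW Q W).filter (fun q => q ^ 2 ≤ Q),
          ((ArithmeticFunction.moebius q : ℝ) / (Nat.totient q : ℝ)) ^ 2 * cq q d := by
        rw [mul_sum]
        refine sum_congr rfl fun q hq => ?_
        rw [hIsmall q (mem_filter.mp hq).2]
        ring
      rw [h2]
      refine le_trans ?_ (mul_le_mul_of_nonneg_left h1 (by positivity))
      have h3 : D ^ 2 * Sg * (C1 * q4 * Rk d) ≤ D ^ 2 * (4 * H) * (C1 * q4 * Rk d) := by
        have : 0 ≤ C1 * q4 * Rk d := by positivity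
        gcongr
      have h4 : D ^ 2 * Sg * (1 / 2 * Gp W d - C1 * q4 * Rk d) =
        D ^ 2 * (Sg * (1 / 2 * Gp W d)) - D ^ 2 * Sg * (C1 * q4 * Rk d) := by ring
      rw [h4]
      have h5 : D ^ 2 * (Sg * (1 / 2 * Gp W d) - 4 * C1 * H * q4 * Rk d) =
        D ^ 2 * (Sg * (1 / 2 * Gp W d)) - D ^ 2 * (4 * H) * (C1 * q4 * Rk d) := by ring
      rw [h5]
      linarith
    have p2 : -(D ^ 2 * (4 * C2 * H * q4 * Rk d)) ≤
        ∑ q ∈ (QW Q W).filter (fun q => ¬ q ^ 2 ≤ Q),
        ((ArithmeticFunction.moebius q : ℝ) / (Nat.totient q : ℝ)) ^ 2 * cq q d * I q := by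
      have h1 : |∑ q ∈ (QW Q W).filter (fun q => ¬ q ^ 2 ≤ Q),
        ((ArithmeticFunction.moebius q : ℝ) / (Nat.totient q : ℝ)) ^ 2 * cq q d * I q| ≤
          D ^ 2 * (4 * C2 * H * q4 * Rk d) := by
        refine (abs_sum_le_sum_abs _ _).trans ?_
        calc ∑ q ∈ (QW Q W).filter (fun q => ¬ q ^ 2 ≤ Q),
              |((ArithmeticFunction.moebius q : ℝ) / (Nat.totient q : ℝ)) ^ 2 * cq q d * I q|
            ≤ ∑ q ∈ (QW Q W).filter (fun q => ¬ q ^ 2 ≤ Q),
              (if Squarefree q then (Nat.totient (Nat.gcd q d.natAbs) : ℝ) /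
                (Nat.totient q : ℝ) ^ 2 else 0) * (H * (4 * D ^ 2)) := by
              apply sum_le_sum
              intro q _
              rw [abs_mul, abs_mul]
              have h2 : |((ArithmeticFunction.moebius q : ℝ) / (Nat.totient q : ℝ)) ^ 2| =
                  ((ArithmeticFunction.moebius q : ℝ) / (Nat.totient q : ℝ)) ^ 2 :=
                abs_of_nonneg (by positivity)
              rw [h2]
              exact mul_le_mul (XCG_cq_le q d) (hIbig q) (abs_nonneg _) (by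
                split_ifs <;> positivity)
          _ = (∑ q ∈ ((QW Q W).filter (fun q => ¬ q ^ 2 ≤ Q)).filter Squarefree,
                (Nat.totient (Nat.gcd q d.natAbs) : ℝ) / (Nat.totient q : ℝ) ^ 2) *
                  (H * (4 * D ^ 2)) := by
              rw [← sum_mul, sum_filter (s := (QW Q W).filter (fun q => ¬ q ^ 2 ≤ Q))]
          _ ≤ (C2 * q4 * Rk d) * (H * (4 * D ^ 2)) := by
              apply mul_le_mul_of_nonneg_right _ (by positivity)
              apply htail Q d hd0 (by omega)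
              intro q hq
              rw [mem_filter, mem_filter] at hq
              exact ⟨hq.2, not_le.mp hq.1.2⟩
          _ = _ := by ring
      exact (abs_le.mp h1).1
    have h6 : D ^ 2 * (Sg * (1 / 2 * Gp W d) - (4 * C1 + 4 * C2) * H * q4 * Rk d) =
      D ^ 2 * (Sg * (1 / 2 * Gp W d) - 4 * C1 * H * q4 * Rk d) +
        -(D ^ 2 * (4 * C2 * H * q4 * Rk d)) := by ring
    rw [h6]
    exact add_le_add p1 p2
  rw [hexp]
  rw [← hmain] at hbound
  linarith

end Pool.Agent.Lib.H18E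
end

-- from Lib.H57C.X1
section

/-!
# Chunk X1: expansion of the one form functions
-/

open Finset

namespace Pool.Agent.Lib.H57C

open Pool.Agent.Lib.H15P

/-- Coefficients of `TT`. -/
noncomputable def x1_g {α : Type} (m : ℕ) (T : Finset α) : ℝ :=
  if T.card ≤ m then (-1 : ℝ) ^ T.card else 0

theorem x1_g_abs {α : Type} (m : ℕ) (T : Finset α) : |x1_g m T| ≤ 1 := by
  unfold x1_g
  split_ifs
  · rw [abs_pow, abs_neg, abs_one, one_pow]
  · simp

theorem x1_TT {α : Type} [DecidableEq α] (r : ℕ) (A : Finset α) :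
    ∑ T ∈ A.powerset, x1_g (2 * r) T = TT r A.card := by
  have h := Finset.sum_powerset_apply_card (x := A) (fun l => if l ≤ 2 * r then (-1 : ℝ) ^ l else 0)
  have h1 : ∑ T ∈ A.powerset, x1_g (2 * r) T =
      ∑ T ∈ A.powerset, (fun l => if l ≤ 2 * r then (-1 : ℝ) ^ l else 0) T.card := rfl
  rw [h1, h]
  unfold TT
  have e1 : ∑ m ∈ range (A.card + 1), A.card.choose m • (if m ≤ 2 * r then (-1 : ℝ) ^ m else 0) =
      ∑ m ∈ range (A.card + 1 + (2 * r + 1)), (if m ≤ 2 * r then (-1 : ℝ) ^ m * (A.card.choose m : ℝ) else 0) := by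
    rw [Finset.sum_range_add _ (A.card + 1) (2 * r + 1)]
    have : ∑ x ∈ range (2 * r + 1), (if A.card + 1 + x ≤ 2 * r then
        (-1 : ℝ) ^ (A.card + 1 + x) * (A.card.choose (A.card + 1 + x) : ℝ) else 0) = 0 := by
      refine Finset.sum_eq_zero fun x _ => ?_
      rw [Nat.choose_eq_zero_of_lt (by omega)]
      simp
    rw [this, add_zero]
    refine Finset.sum_congr rfl fun m _ => ?_
    split_ifs
    · rw [nsmul_eq_mul, mul_comm]
    · simp
  have e2 : ∑ m ∈ range (2 * r + 1), (-1 : ℝ) ^ m * (A.card.choose m : ℝ) =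
      ∑ m ∈ range (2 * r + 1 + (A.card + 1)), (if m ≤ 2 * r then (-1 : ℝ) ^ m * (A.card.choose m : ℝ) else 0) := by
    rw [Finset.sum_range_add _ (2 * r + 1) (A.card + 1)]
    have : ∑ x ∈ range (A.card + 1), (if 2 * r + 1 + x ≤ 2 * r then
        (-1 : ℝ) ^ (2 * r + 1 + x) * (A.card.choose (2 * r + 1 + x) : ℝ) else 0) = 0 := by
      refine Finset.sum_eq_zero fun x _ => ?_
      rw [if_neg (by omega)]
    rw [this, add_zero]
    refine Finset.sum_congr rfl fun m hm => ?_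
    rw [Finset.mem_range] at hm
    rw [if_pos (by omega)]
  rw [e1, e2, add_comm (A.card + 1)]

/-- Proof. `TT r s = ∑_{l ≤ 2r} (-1)^l (s choose l)`, so for a block `b`
`TT r |A_b| = ∑_{T ⊆ A} g_b(T)` with `g_b(T) = (-1)^|T|` if all elements of `T` are in the block `b` and `|T| ≤ 2r`, and
`0` otherwise; the product of the primes of such a `T` is at most `(XB b)^|T| ≤ (1 + XB b)^(2r)` (every prime of the block
is `≤ XB b`). The last factor `(TT r0 |A_i| - τ)/(1 - τ)` has the coefficient `1` at `∅` and `± 1/(1 - τ)`, at most `2` in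
absolute value, at the other `T`. A product over different blocks: the coefficient of `T` is the product of the coefficients
of the parts `T ∩ block b` (show by induction over the blocks: if `G` and `G'` have expansions with coefficients supported
on the subsets of `B` resp. `B'`, `B` and `B'` disjoint, then `G G'` has the coefficients `g(T ∩ B) g'(T ∩ B')`,
`T ⊆ B ∪ B'`). So the coefficients of `DB` are at most `2` and the products of primes at most
`∏_{b ∈ [i, N)} (1 + XB b)^(2 (r0 + b - i))`. -/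
theorem ex1_DB (P : Finset ℕ) (hP : ∀ p ∈ P, p.Prime) (q : {p // p ∈ P} → ℝ)
    (blk : {p // p ∈ P} → ℕ) (r0 N i : ℕ) (hi : i < N) (ht0 : 0 ≤ tau q blk r0 i)
    (ht1 : tau q blk r0 i ≤ 1 / 2) (D : ℝ)
    (hD : ∏ b ∈ Ico i N, (1 + XB (fun i : {p // p ∈ P} => i.1) blk b) ^ (2 * (r0 + (b - i))) ≤ D) :
    Ex1 P (fun A => DB q blk r0 N i A) 2 D := by
  classical
  set τ := tau q blk r0 i with hτ
  have hτ1 : (0 : ℝ) < 1 - τ := by linarith
  -- coefficients of the blocks
  set c : ℕ → Finset {p // p ∈ P} → ℝ := fun b T =>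
    if b = i then (x1_g (2 * r0) T - (if T = ∅ then τ else 0)) / (1 - τ)
    else x1_g (2 * (r0 + (b - i))) T with hc
  have hcsum : ∀ (b : ℕ) (A : Finset {p // p ∈ P}), ∑ T ∈ A.powerset, c b T =
      if b = i then (TT r0 A.card - τ) / (1 - τ) else TT (r0 + (b - i)) A.card := by
    intro b A
    by_cases hb : b = i
    · simp only [hc, if_pos hb]
      rw [← Finset.sum_div, Finset.sum_sub_distrib, x1_TT]
      congr 2
      rw [Finset.sum_ite_eq' , if_pos (Finset.empty_mem_powerset A)]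
    · simp only [hc, if_neg hb]
      exact x1_TT _ _
  have hcabs : ∀ b T, |c b T| ≤ if b = i then 2 else 1 := by
    intro b T
    by_cases hb : b = i
    · simp only [hc, if_pos hb]
      rw [abs_div, abs_of_pos hτ1, div_le_iff₀ hτ1]
      by_cases hT : T = ∅
      · subst hT
        rw [if_pos rfl]
        have : x1_g (2 * r0) (∅ : Finset {p // p ∈ P}) = 1 := by
          unfold x1_g
          simp
        rw [this, abs_of_pos hτ1]
        linarith
      · rw [if_neg hT, sub_zero]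
        have := x1_g_abs (2 * r0) T
        linarith
    · simp only [hc, if_neg hb]
      exact x1_g_abs _ _
  have hcsupp : ∀ b T, c b T ≠ 0 → T.card ≤ 2 * (r0 + (b - i)) := by
    intro b T h
    by_contra hcard
    apply h
    by_cases hb : b = i
    · simp only [hc, if_pos hb]
      have hT : T ≠ ∅ := by
        rintro rfl
        simp at hcard
      have : x1_g (2 * r0) T = 0 := by
        unfold x1_g
        rw [if_neg]
        rw [hb] at hcard
        simpa using hcard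
      rw [if_neg hT, this]
      simp
    · simp only [hc, if_neg hb]
      unfold x1_g
      rw [if_neg hcard]
  refine ⟨fun T => if ∀ p ∈ T, blk p ∈ Ico i N then ∏ b ∈ Ico i N, c b (AB blk b T) else 0,
    ?_, ?_, ?_⟩
  · intro A
    have hdisj : ∀ a ∈ Ico i N, ∀ b ∈ Ico i N, a ≠ b → Disjoint (AB blk a A) (AB blk b A) := by
      intro a _ b _ hab
      rw [Finset.disjoint_left]
      intro x hx hx'
      unfold AB at hx hx'
      exact hab ((Finset.mem_filter.1 hx).2.symm.trans (Finset.mem_filter.1 hx').2)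
    have h1 := bh1_rep (fun b => AB blk b A) (Ico i N) hdisj c (fun _ => 1)
    have hbU : (Ico i N).biUnion (fun b => AB blk b A) = A.filter (fun p => blk p ∈ Ico i N) := by
      ext x
      simp only [Finset.mem_biUnion, AB, Finset.mem_filter]
      constructor
      · rintro ⟨b, hb, hx, hxb⟩
        exact ⟨hx, hxb ▸ hb⟩
      · rintro ⟨hx, hb⟩
        exact ⟨blk x, hb, hx, rfl⟩
    rw [hbU] at h1
    have h2 : ∏ b ∈ Ico i N, Sieve.poly (c b) (fun _ => 1) (AB blk b A) = DB q blk r0 N i A := by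
      have e : ∀ b, Sieve.poly (c b) (fun _ => 1) (AB blk b A) =
          if b = i then (TT r0 (AB blk b A).card - τ) / (1 - τ) else TT (r0 + (b - i)) (AB blk b A).card := by
        intro b
        rw [← hcsum b]
        unfold Sieve.poly
        simp
      rw [Finset.prod_congr rfl fun b _ => e b]
      unfold DB
      rw [← Finset.insert_Ico_add_one_left_eq_Ico hi, Finset.prod_insert (by simp), if_pos rfl, mul_comm]
      congr 1
      refine Finset.prod_congr rfl fun b hb => ?_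
      rw [if_neg]
      rw [Finset.mem_Ico] at hb
      omega
    simp only
    rw [← h2, ← h1]
    symm
    have h3 : ∑ T ∈ A.powerset, (if ∀ p ∈ T, blk p ∈ Ico i N then ∏ b ∈ Ico i N, c b (AB blk b T) else 0) =
        ∑ T ∈ (A.filter (fun p => blk p ∈ Ico i N)).powerset, ∏ b ∈ Ico i N, c b (AB blk b T) := by
      rw [← Finset.sum_filter]
      refine Finset.sum_congr ?_ fun _ _ => rfl
      ext T
      simp only [Finset.mem_filter, Finset.mem_powerset, Finset.subset_iff]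
      constructor
      · rintro ⟨h1, h2⟩ x hx
        exact ⟨h1 hx, h2 x hx⟩
      · intro h
        exact ⟨fun x hx => (h hx).1, fun x hx => (h hx).2⟩
    rw [h3]
    refine Finset.sum_congr rfl fun T hT => ?_
    rw [Finset.prod_const_one, mul_one]
    refine Finset.prod_congr rfl fun b _ => ?_
    congr 1
    rw [Finset.mem_powerset] at hT
    ext x
    simp only [AB, Finset.mem_filter, Finset.mem_inter]
    constructor
    · rintro ⟨h1, h2⟩
      exact ⟨h1, (Finset.mem_filter.1 (hT h1)).1, h2⟩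
    · rintro ⟨h1, _, h2⟩
      exact ⟨h1, h2⟩
  · intro T
    simp only
    split_ifs with h
    · rw [Finset.abs_prod]
      calc ∏ b ∈ Ico i N, |c b (AB blk b T)| ≤ ∏ b ∈ Ico i N, (if b = i then (2 : ℝ) else 1) :=
            Finset.prod_le_prod (fun _ _ => abs_nonneg _) fun b _ => hcabs b _
        _ ≤ 2 := by
            rw [Finset.prod_ite_eq' ]
            rw [if_pos (Finset.mem_Ico.2 ⟨le_refl i, hi⟩)]
    · simp
  · intro T hT
    simp only at hT
    by_cases h : ∀ p ∈ T, blk p ∈ Ico i N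
    · rw [if_pos h] at hT
      have h1 := Finset.prod_ne_zero_iff.1 hT
      have hX0 : ∀ b, 0 ≤ XB (fun i : {p // p ∈ P} => i.1) blk b := fun b =>
        Finset.sum_nonneg fun _ _ => Nat.cast_nonneg _
      have h2 : ∏ p ∈ T, (p.1 : ℝ) = ∏ b ∈ Ico i N, ∏ p ∈ AB blk b T, (p.1 : ℝ) := by
        unfold AB
        exact (Finset.prod_fiberwise_of_maps_to h _).symm
      rw [h2]
      refine le_trans (Finset.prod_le_prod (fun b _ => Finset.prod_nonneg fun _ _ => Nat.cast_nonneg _)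
        fun b hb => ?_) hD
      calc ∏ p ∈ AB blk b T, (p.1 : ℝ) ≤
            ∏ p ∈ AB blk b T, (1 + XB (fun i : {p // p ∈ P} => i.1) blk b) := by
            refine Finset.prod_le_prod (fun _ _ => Nat.cast_nonneg _) fun p hp => ?_
            unfold AB at hp
            have hpb := (Finset.mem_filter.1 hp).2
            have : (p.1 : ℝ) ≤ XB (fun i : {p // p ∈ P} => i.1) blk b := by
              unfold XB
              exact Finset.single_le_sum (f := fun i : {p // p ∈ P} => (i.1 : ℝ))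
                (fun _ _ => Nat.cast_nonneg _) (Finset.mem_filter.2 ⟨Finset.mem_univ p, hpb⟩)
            linarith
        _ = (1 + XB (fun i : {p // p ∈ P} => i.1) blk b) ^ (AB blk b T).card := Finset.prod_const _
        _ ≤ (1 + XB (fun i : {p // p ∈ P} => i.1) blk b) ^ (2 * (r0 + (b - i))) :=
            pow_le_pow_right₀ (by linarith [hX0 b]) (hcsupp b _ (h1 b hb))
    · rw [if_neg h] at hT
      exact absurd rfl hT

end Pool.Agent.Lib.H57C
end

-- from Lib.H57M.R1
section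

/-!
# Chunk R1: construction of the weight
-/

open Finset

namespace Pool.Agent.Lib.H57M

open Pool.Agent.Lib.H15P Pool.Agent.Lib.H92G

theorem R1_sum_s (n : ℕ) :
    ∑ i : Fin n, (4000 : ℝ) ^ ((i : ℕ) + 1) / (2 * 4000 ^ n) ≤ 1 := by
  have h1 : ∀ n : ℕ, ∑ i ∈ range n, (4000 : ℝ) ^ (i + 1) ≤ 2 * 4000 ^ n - 1 := by
    intro n
    induction n with
    | zero => simp
    | succ n ih =>
      rw [Finset.sum_range_succ]
      have h2 : (1 : ℝ) ≤ 4000 ^ n := one_le_pow₀ (by norm_num)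
      have h3 : (4000 : ℝ) ^ (n + 1) = 4000 ^ n * 4000 := pow_succ _ _
      rw [h3]
      nlinarith
  have h2 := h1 n
  rw [Fin.sum_univ_eq_sum_range (fun i => (4000 : ℝ) ^ (i + 1) / (2 * 4000 ^ n)),
    ← Finset.sum_div]
  have h3 : (1 : ℝ) ≤ 4000 ^ n := one_le_pow₀ (by norm_num)
  rw [div_le_one (by positivity)]
  linarith

theorem R1_sum_exp (n : ℕ) : ∑ i : Fin n, Real.exp (-((i : ℕ) + 2 : ℝ)) ≤ 1 / 4 := by
  have he : Real.exp (-1) ≤ 0.3679 := by
    rw [Real.exp_neg, inv_le_comm₀ (Real.exp_pos 1) (by norm_num)]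
    have := Real.exp_one_gt_d9
    norm_num
    linarith
  have he0 : 0 < Real.exp (-1) := Real.exp_pos _
  have h1 : ∀ n : ℕ, ∑ i ∈ range n, Real.exp (-((i : ℕ) + 2 : ℝ)) ≤
      1 / 4 - 1 / 4 * Real.exp (-1) ^ n := by
    intro n
    induction n with
    | zero => simp
    | succ n ih =>
      rw [Finset.sum_range_succ]
      have h2 : Real.exp (-((n : ℕ) + 2 : ℝ)) = Real.exp (-1) ^ n * Real.exp (-1) ^ 2 := by
        rw [← Real.exp_nat_mul, ← Real.exp_nat_mul, ← Real.exp_add]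
        congr 1
        push_cast
        ring
      have h4 : Real.exp (-1) ^ (n + 1) = Real.exp (-1) ^ n * Real.exp (-1) := pow_succ _ _
      rw [h2, h4]
      have h3 : 0 < Real.exp (-1) ^ n := by positivity
      have h5 : Real.exp (-1) ^ 2 ≤ 1 / 4 - 1 / 4 * Real.exp (-1) := by nlinarith
      nlinarith [mul_le_mul_of_nonneg_left h5 h3.le]
  have h2 := h1 n
  rw [Fin.sum_univ_eq_sum_range (fun i => Real.exp (-((i : ℕ) + 2 : ℝ)))]
  have h3 : 0 < Real.exp (-1) ^ n := by positivity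
  linarith

/-- the number of the forms with label `i` -/
def R1_m (i : ℕ) : ℕ := 4000 ^ (i + 1) + i + 2


theorem R1_sum_m (n : ℕ) (U : ℝ) (hU : 0 ≤ U) :
    ∑ i : Fin n, (R1_m i : ℝ) * (U / 4000 ^ (i : ℕ)) ≤ 4004 * n * U := by
  have h1 : ∀ i : Fin n, (R1_m i : ℝ) * (U / 4000 ^ (i : ℕ)) ≤ 4004 * U := by
    intro i
    have h4 : (0 : ℝ) < 4000 ^ (i : ℕ) := by positivity
    have h2 : ((i : ℕ) : ℝ) + 2 ≤ 2 * 4000 ^ (i : ℕ) := by
      have h3 : ∀ k : ℕ, (k : ℝ) + 2 ≤ 2 * 4000 ^ k := by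
        intro k
        induction k with
        | zero => simp
        | succ k ih =>
          push_cast
          rw [pow_succ]
          have : (1 : ℝ) ≤ 4000 ^ k := one_le_pow₀ (by norm_num)
          nlinarith
      exact h3 i
    have h3 : (R1_m i : ℝ) ≤ 4004 * 4000 ^ (i : ℕ) := by
      unfold R1_m
      push_cast
      rw [pow_succ]
      nlinarith
    calc (R1_m i : ℝ) * (U / 4000 ^ (i : ℕ)) ≤ (4004 * 4000 ^ (i : ℕ)) * (U / 4000 ^ (i : ℕ)) := by
          gcongr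
      _ = 4004 * U := by field_simp
  calc ∑ i : Fin n, (R1_m i : ℝ) * (U / 4000 ^ (i : ℕ)) ≤ ∑ _i : Fin n, 4004 * U :=
        Finset.sum_le_sum fun i _ => h1 i
    _ = 4004 * n * U := by
        rw [Finset.sum_const, Finset.card_univ, Fintype.card_fin, nsmul_eq_mul]
        ring


end Pool.Agent.Lib.H57M
end
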