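import Pool.Agent.Lib.H1M.RV.M014
import Pool.Agent.Lib.H1M.RV.M018
import Pool.Agent.Lib.H1M.RV.M039
import Pool.Agent.Lib.H1M.RV.M040
import Pool.Agent.Lib.H1M.RV.M046
import Pool.Agent.Lib.H1M.RV.M051
import Pool.Agent.Lib.H1M.RV.M056

/-! Merged copies (to shorten the build) of Lib.H18GB.TU3Cor, Lib.H18GB.TU3GvN, Lib.H18GB.TU3, Lib.H57T.Defs, Lib.H18GB2.GVN2, Lib.H18Q.MB. -/

-- from Lib.H18GB.TU3Cor
section

/-!
# Project GB: TU3, the correlation (helper82)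
-/

namespace Pool.Agent.Lib.H18GB

open Finset Pool.Agent.Lib.Sieve

/-! ## discriminants -/

/-- indicator -/
def bz (b : Bool) : ℤ := if b then 1 else 0

theorem sh_eq (j k : ℤ) (i : Bool × Bool) : sh j k i = bz i.1 * j + bz i.2 * k := by
  unfold sh bz
  split_ifs <;> ring

theorem unit_bz {w z : ℕ} {S : Finset ℕ} (hS : PSet w z S) {b b' : Bool} (h : b ≠ b') :
    ∀ p ∈ S, ¬ (p : ℤ) ∣ bz b' - bz b := by
  have u1 := unit_one hS
  have u2 := unit_neg u1
  cases b <;> cases b' <;> simp [bz] at h ⊢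
  · simpa using u1
  · simpa using u1

theorem disc_swap {ι : Type*} (α β : ι → ℤ) (i j : ι) : disc α β i j = -disc α β j i := by
  unfold disc
  ring

/-- coefficients of the twelve forms -/
def al (W : ℕ) (ep : Bool → ℤ) : (Bool × Bool) ⊕ ((Bool × Bool) × Bool) → ℤ :=
  Sum.elim (fun _ => 2 * W) (fun u => ep u.2 * W)

/-- constant terms of the twelve forms -/
def be (W : ℕ) (ep bb : Bool → ℤ) (r j k l s : ℤ) :
    (Bool × Bool) ⊕ ((Bool × Bool) × Bool) → ℤ :=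
  Sum.elim (fun i => r + W * (sh (-j) k i - s)) (fun u => ep u.2 * W * sh l k u.1 + bb u.2)

theorem cross_ty {C A w z W N : ℕ} {S : Finset ℕ} (h : Stp C A w z W N S) (hC : 2 ≤ C)
    {ep : Bool → ℤ} (bb : Bool → ℤ) (hep : ∀ c, ep c ≠ 0 ∧ |ep c| ≤ 2) (r : ℤ)
    (P Q : (Bool × Bool) ⊕ ((Bool × Bool) × Bool)) (hPQ : crs P Q) :
    Ty S (fun j k l s => Ers (9 / 10) S (disc (al W ep) (be W ep bb r j k l s) P Q)) := by
  have uW := h.unitW
  have u2 : ∀ p ∈ S, ¬ (p : ℤ) ∣ 2 := h.unit_small hC (by norm_num) (by norm_num)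
  have ue : ∀ c, ∀ p ∈ S, ¬ (p : ℤ) ∣ ep c := fun c => h.unit_small hC (hep c).1 (hep c).2
  -- single / pair
  have mixed : ∀ (i : Bool × Bool) (u : (Bool × Bool) × Bool),
      Ty S (fun j k l s => Ers (9 / 10) S
        (disc (al W ep) (be W ep bb r j k l s) (.inl i) (.inr u))) := by
    intro i u
    obtain ⟨⟨u1, u2'⟩, c⟩ := u
    have uu := unit_mul h.hS (unit_mul h.hS (ue c) uW) uW
    cases u1
    · left
      refine ⟨ep c * W * W, uu, fun j k => 2 * W * (ep c * W * (bz u2' * k) + bb c) -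
        ep c * W * (r + W * sh (-j) k i), fun j k l s => le_of_eq ?_⟩
      refine congrArg (Ers (9 / 10) S) ?_
      simp only [disc, al, be, Sum.elim_inl, Sum.elim_inr, sh_eq l k (false, u2')]
      simp only [bz, Bool.false_eq_true, if_false]
      ring
    · right; left
      refine ⟨ep c * W * W, uu, fun j k s => 2 * W * (ep c * W * (bz u2' * k) + bb c) -
        ep c * W * (r + W * sh (-j) k i), fun j k l s => le_of_eq ?_⟩
      refine congrArg (Ers (9 / 10) S) ?_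
      simp only [disc, al, be, Sum.elim_inl, Sum.elim_inr, sh_eq l k (true, u2')]
      simp only [bz, if_true]
      ring
  rcases P with i | u
  · rcases Q with i' | u
    · -- single / single
      have hne : i ≠ i' := fun h1 => hPQ.1 (by rw [h1])
      right; right
      refine ⟨fun j k => 2 * W * W * ((bz i'.1 - bz i.1) * (-j) + (bz i'.2 - bz i.2) * k), ?_,
        fun j k l s => le_of_eq ?_⟩
      · by_cases h2 : i.2 = i'.2
        · have h1 : i.1 ≠ i'.1 := fun h1 => hne (Prod.ext h1 h2)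
          right
          refine ⟨2 * W * W * (-(bz i'.1 - bz i.1)), unit_mul h.hS (unit_mul h.hS
            (unit_mul h.hS u2 uW) uW) (unit_neg (unit_bz h.hS h1)),
            fun k => 2 * W * W * ((bz i'.2 - bz i.2) * k), fun j k => by ring⟩
        · left
          refine ⟨2 * W * W * (bz i'.2 - bz i.2), unit_mul h.hS (unit_mul h.hS
            (unit_mul h.hS u2 uW) uW) (unit_bz h.hS h2),
            fun j => 2 * W * W * ((bz i'.1 - bz i.1) * (-j)), fun j k => by ring⟩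
      · refine congrArg (Ers (9 / 10) S) ?_
        simp only [disc, al, be, Sum.elim_inl, sh_eq]
        ring
    · exact mixed i u
  · rcases Q with i' | u'
    · have e1 : (fun j k l s => Ers (9 / 10) S
          (disc (al W ep) (be W ep bb r j k l s) (.inr u) (.inl i'))) =
          (fun j k l s => Ers (9 / 10) S
          (disc (al W ep) (be W ep bb r j k l s) (.inl i') (.inr u))) := by
        funext j k l s
        rw [disc_swap, ers_neg]
      rw [e1]
      exact mixed i' u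
    · -- pair / pair
      obtain ⟨u, c⟩ := u
      obtain ⟨u', c'⟩ := u'
      have hne : u ≠ u' := fun h1 => hPQ.2 ⟨u, c, c', rfl, by rw [h1]⟩
      by_cases h1 : u.1 = u'.1
      · have h2 : u.2 ≠ u'.2 := fun h2 => hne (Prod.ext h1 h2)
        right; right
        refine ⟨fun j k => ep c * ep c' * W * W * (bz u'.2 - bz u.2) * k +
          W * (ep c * bb c' - ep c' * bb c), ?_, fun j k l s => le_of_eq ?_⟩
        · left
          exact ⟨ep c * ep c' * W * W * (bz u'.2 - bz u.2), unit_mul h.hS (unit_mul h.hS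
            (unit_mul h.hS (unit_mul h.hS (ue c) (ue c')) uW) uW) (unit_bz h.hS h2),
            fun _ => W * (ep c * bb c' - ep c' * bb c), fun j k => by ring⟩
        · refine congrArg (Ers (9 / 10) S) ?_
          simp only [disc, al, be, Sum.elim_inr, sh_eq, h1]
          ring
      · right; left
        refine ⟨ep c * ep c' * W * W * (bz u'.1 - bz u.1), unit_mul h.hS (unit_mul h.hS
            (unit_mul h.hS (unit_mul h.hS (ue c) (ue c')) uW) uW) (unit_bz h.hS h1),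
          fun j k s => -(ep c * ep c' * W * W * (bz u'.1 - bz u.1)) * s +
            2 * (ep c * ep c' * W * W * (bz u'.2 - bz u.2) * k +
            W * (ep c * bb c' - ep c' * bb c)), fun j k l s => le_of_eq ?_⟩
        refine (ers_mul h.hS.prime (9 / 10) 2 _ u2).symm.trans ?_
        refine congrArg (Ers (9 / 10) S) ?_
        simp only [disc, al, be, Sum.elim_inr, sh_eq]
        ring

/-! ## the correlation -/

/-- the pair weight -/
noncomputable def om (S : Finset ℕ) (W : ℕ) (ep bb : Bool → ℤ) (x : ℤ) : ℝ :=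
  rho S (ep false * W * x + bb false) * rho S (ep true * W * x + bb true) /
    SGp S (ep false * W * bb true - ep true * W * bb false)

open Classical in
/-- the total error -/
noncomputable def Dt (S : Finset ℕ) (W : ℕ) (ep bb : Bool → ℤ) (r j k l s : ℤ) : ℝ :=
  ∑ P : (Bool × Bool) ⊕ ((Bool × Bool) × Bool), ∑ Q : (Bool × Bool) ⊕ ((Bool × Bool) × Bool),
    if crs P Q then Ers (9 / 10) S (disc (al W ep) (be W ep bb r j k l s) P Q) else 0

theorem Dt_nonneg (S : Finset ℕ) (W : ℕ) (ep bb : Bool → ℤ) (r j k l s : ℤ) :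
    0 ≤ Dt S W ep bb r j k l s :=
  Finset.sum_nonneg fun _ _ => Finset.sum_nonneg fun _ _ => by
    split_ifs
    · exact Ers_nonneg _ _ _
    · exact le_rfl

theorem prod_om_eq (S : Finset ℕ) (W : ℕ) (ep bb : Bool → ℤ) (r j k l s x : ℤ) :
    (∏ u : Bool × Bool, (om S W ep bb (x + sh l k u) - 1)) =
    ∑ U ∈ (Finset.univ : Finset (Bool × Bool)).powerset,
      (∏ u ∈ U, rho S (al W ep (.inr (u, false)) * x + be W ep bb r j k l s (.inr (u, false))) *
          rho S (al W ep (.inr (u, true)) * x + be W ep bb r j k l s (.inr (u, true))) /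
          SGp S (disc (al W ep) (be W ep bb r j k l s) (.inr (u, false)) (.inr (u, true)))) *
      ∏ u ∈ Finset.univ \ U, (-1 : ℝ) := by
  rw [← Finset.prod_add]
  apply Finset.prod_congr rfl
  intro u _
  rw [← sub_eq_add_neg]
  refine congrArg (fun y => y - 1) ?_
  unfold om
  have e1 : ep false * W * (x + sh l k u) + bb false =
      al W ep (.inr (u, false)) * x + be W ep bb r j k l s (.inr (u, false)) := by
    simp only [al, be, Sum.elim_inr]
    ring
  have e2 : ep true * W * (x + sh l k u) + bb true =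
      al W ep (.inr (u, true)) * x + be W ep bb r j k l s (.inr (u, true)) := by
    simp only [al, be, Sum.elim_inr]
    ring
  have e3 : ep false * W * bb true - ep true * W * bb false =
      disc (al W ep) (be W ep bb r j k l s) (.inr (u, false)) (.inr (u, true)) := by
    simp only [disc, al, be, Sum.elim_inr]
    ring
  rw [e1, e2, e3]

theorem nu_eq2 (S : Finset ℕ) (W : ℕ) (ep bb : Bool → ℤ) (r j k l s x : ℤ) :
    nu S W r (-j) k (2 * x - s) =
    ∑ T ∈ (Finset.univ : Finset (Bool × Bool)).powerset,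
      ∏ i ∈ T, rho S (al W ep (.inl i) * x + be W ep bb r j k l s (.inl i)) := by
  unfold nu
  rw [Finset.prod_one_add]
  apply Finset.sum_congr rfl
  intro T _
  apply Finset.prod_congr rfl
  intro i _
  congr 1
  simp only [al, be, Sum.elim_inl]
  ring

theorem core : ∃ C : ℕ, 2 ≤ C ∧ ∀ (A w z W N : ℕ) (S : Finset ℕ), Stp C A w z W N S →
    ∀ (ep bb : Bool → ℤ), (∀ c, ep c ≠ 0 ∧ |ep c| ≤ 2) → ∀ (r j k l s a b : ℤ), a ≤ b →
    b - a ≤ N →
    |∑ x ∈ Finset.Ico a b, (∏ u : Bool × Bool, (om S W ep bb (x + sh l k u) - 1)) *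
      nu S W r (-j) k (2 * x - s)| ≤ C * N * (er C A w + Dt S W ep bb r j k l s) := by
  obtain ⟨C0, hC0, hc⟩ := corr_sub (Bool × Bool) (Bool × Bool)
  refine ⟨1000 * C0, by omega, fun A w z W N S h ep bb hep r j k l s a b hab hN => ?_⟩
  have hs := h.mono (show C0 ≤ 1000 * C0 by omega)
  have hw1 : 1 ≤ w := h.w_pos (by omega)
  have hC0' : (1 : ℝ) ≤ C0 := by exact_mod_cast hC0
  have hN' : (b : ℝ) - a ≤ N := by exact_mod_cast hN
  have hab' : (0 : ℝ) ≤ (b : ℝ) - a := by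
    have : (a : ℝ) ≤ b := by exact_mod_cast hab
    linarith
  have hN0 : (0 : ℝ) ≤ N := Nat.cast_nonneg _
  have u2 : ∀ p ∈ S, ¬ (p : ℤ) ∣ 2 := h.unit_small (by omega) (by norm_num) (by norm_num)
  have ue : ∀ c, ∀ p ∈ S, ¬ (p : ℤ) ∣ ep c :=
    fun c => h.unit_small (by omega) (hep c).1 (hep c).2
  have hα : ∀ p ∈ S, ∀ i, ¬ (p : ℤ) ∣ al W ep i := by
    intro p hp i
    rcases i with i | u
    · exact unit_mul h.hS u2 h.unitW p hp
    · exact unit_mul h.hS (ue u.2) h.unitW p hp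
  have hD := Dt_nonneg S W ep bb r j k l s
  have hε0 := er_nonneg C0 A w
  have hε : er C0 A w ≤ er (1000 * C0) A w := er_mono hC0 (by omega) A hw1
  set D := Dt S W ep bb r j k l s with hDdef
  set Sg : Finset (Bool × Bool) → Finset (Bool × Bool) → ℝ := fun T U =>
    ∑ x ∈ Finset.Ico a b,
      (∏ i ∈ T, rho S (al W ep (.inl i) * x + be W ep bb r j k l s (.inl i))) *
      (∏ u ∈ U, rho S (al W ep (.inr (u, false)) * x + be W ep bb r j k l s (.inr (u, false))) *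
          rho S (al W ep (.inr (u, true)) * x + be W ep bb r j k l s (.inr (u, true))) /
          SGp S (disc (al W ep) (be W ep bb r j k l s) (.inr (u, false)) (.inr (u, true))))
    with hSg
  have key : ∀ T U, |Sg T U - (b - a)| ≤ 2 * C0 * N * (er C0 A w + D) := by
    intro T U
    have h1 := hc A w z S hs.hA hs.hw h.hz h.hS (al W ep) (be W ep bb r j k l s) hα T U a b hab
    have hz : (z : ℝ) ^ (A + Fintype.card (Bool × Bool) + 2 * Fintype.card (Bool × Bool)) ≤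
        er C0 A w * N := by
      rw [add_assoc]
      exact h.zpow hC0 (by simp only [Fintype.card_prod, Fintype.card_bool]; omega)
    refine h1.trans ?_
    calc _ ≤ (N : ℝ) * (C0 * er C0 A w + C0 * D) + C0 * (er C0 A w * N) := by
          apply add_le_add
          · apply mul_le_mul hN' le_rfl _ hN0
            positivity
          · exact mul_le_mul_of_nonneg_left hz (by positivity)
      _ ≤ _ := by
          have : 0 ≤ C0 * N * D := by positivity
          nlinarith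
  have e1 : ∑ x ∈ Finset.Ico a b, (∏ u : Bool × Bool, (om S W ep bb (x + sh l k u) - 1)) *
      nu S W r (-j) k (2 * x - s) = ∑ U ∈ (Finset.univ : Finset (Bool × Bool)).powerset,
        (∏ u ∈ Finset.univ \ U, (-1 : ℝ)) *
        ∑ T ∈ (Finset.univ : Finset (Bool × Bool)).powerset, Sg T U := by
    simp only [prod_om_eq S W ep bb r j k l s, nu_eq2 S W ep bb r j k l s, hSg]
    simp only [Finset.sum_mul_sum]
    rw [Finset.sum_comm]
    apply Finset.sum_congr rfl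
    intro U _
    rw [Finset.sum_comm, Finset.mul_sum]
    apply Finset.sum_congr rfl
    intro T _
    rw [Finset.mul_sum]
    apply Finset.sum_congr rfl
    intro x _
    ring
  have e2 : ∑ U ∈ (Finset.univ : Finset (Bool × Bool)).powerset,
      (∏ u ∈ Finset.univ \ U, (-1 : ℝ)) = 0 := by
    have := Finset.prod_add (fun _ : Bool × Bool => (1 : ℝ)) (fun _ => (-1 : ℝ)) Finset.univ
    simp only [Finset.prod_const_one, one_mul, add_neg_cancel, Finset.prod_const] at this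
    simp only [Finset.prod_const]
    rw [← this]
    simp
  have e3 : ∑ U ∈ (Finset.univ : Finset (Bool × Bool)).powerset,
        (∏ u ∈ Finset.univ \ U, (-1 : ℝ)) *
        ∑ T ∈ (Finset.univ : Finset (Bool × Bool)).powerset, Sg T U =
      ∑ U ∈ (Finset.univ : Finset (Bool × Bool)).powerset,
        (∏ u ∈ Finset.univ \ U, (-1 : ℝ)) *
        ∑ T ∈ (Finset.univ : Finset (Bool × Bool)).powerset, (Sg T U - (b - a)) := by
    have e4 : ∀ U, ∑ T ∈ (Finset.univ : Finset (Bool × Bool)).powerset,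
        (Sg T U - ((b : ℝ) - a)) = ∑ T ∈ (Finset.univ : Finset (Bool × Bool)).powerset,
        Sg T U - 16 * ((b : ℝ) - a) := by
      intro U
      rw [Finset.sum_sub_distrib, Finset.sum_const, Finset.card_powerset, Finset.card_univ]
      simp only [Fintype.card_prod, Fintype.card_bool, nsmul_eq_mul]
      push_cast
      ring
    simp only [e4]
    simp only [mul_sub (∏ u ∈ Finset.univ \ _, (-1 : ℝ)), Finset.sum_sub_distrib]
    rw [← Finset.sum_mul, e2]
    ring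
  rw [e1, e3]
  calc |∑ U ∈ (Finset.univ : Finset (Bool × Bool)).powerset,
        (∏ u ∈ Finset.univ \ U, (-1 : ℝ)) *
        ∑ T ∈ (Finset.univ : Finset (Bool × Bool)).powerset, (Sg T U - (b - a))|
      ≤ ∑ U ∈ (Finset.univ : Finset (Bool × Bool)).powerset,
        ∑ T ∈ (Finset.univ : Finset (Bool × Bool)).powerset, |Sg T U - (b - a)| := by
        refine (Finset.abs_sum_le_sum_abs _ _).trans (Finset.sum_le_sum fun U _ => ?_)
        rw [abs_mul, Finset.abs_prod]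
        simp only [abs_neg, abs_one, Finset.prod_const_one, one_mul]
        exact Finset.abs_sum_le_sum_abs _ _
    _ ≤ 16 * (16 * (2 * C0 * N * (er C0 A w + D))) :=
        sum_powerset_le fun U => sum_powerset_le fun T => key T U
    _ = (512 * C0) * N * (er C0 A w + D) := by ring
    _ ≤ _ := by
        push_cast
        gcongr
        norm_num

end Pool.Agent.Lib.H18GB
end

-- from Lib.H18GB.TU3GvN
section

/-!
# Project GB: TU3, generalised von Neumann inequality (helper82)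
-/

namespace Pool.Agent.Lib.H18GB

open Finset Pool.Agent.Lib.Sieve

/-! ## the generalised von Neumann inequality -/

theorem sum_reindex {f : ℤ → ℂ} {I J : Finset ℤ} (e : ℤ ≃ ℤ) (hJ : ∀ m, m ∉ J → f m = 0)
    (hI : ∀ m ∈ J, e.symm m ∈ I) : ∑ i ∈ I, f (e i) = ∑ m ∈ J, f m := by
  have h1 : ∑ i ∈ I, f (e i) = ∑ m ∈ I.map e.toEmbedding, f m := by
    rw [Finset.sum_map]
    rfl
  rw [h1]
  symm
  apply Finset.sum_subset
  · intro m hm
    rw [Finset.mem_map]
    exact ⟨e.symm m, hI m hm, by simp⟩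
  · intro m _ hm
    exact hJ m hm

theorem sum_shiftR {A B L : ℤ} (hL : B - A ≤ L) (q : ℤ → ℤ → ℂ)
    (hq : ∀ y y', y' ∉ Finset.Ico A B → q y y' = 0) :
    ∑ y ∈ Finset.Ico A B, ∑ y' ∈ Finset.Ico A B, q y y' =
      ∑ j ∈ Finset.Ico (-L) L, ∑ y ∈ Finset.Ico A B, q y (y + j) := by
  rw [Finset.sum_comm (s := Finset.Ico (-L) L)]
  apply Finset.sum_congr rfl
  intro y hy
  symm
  apply sum_reindex (f := fun m => q y m) (Equiv.addLeft y) (fun m hm => hq y m hm)
  intro m hm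
  rw [Finset.mem_Ico] at hm hy ⊢
  simp only [Equiv.addLeft_symm_apply]
  omega

theorem sum_reflect {f : ℤ → ℂ} {I J : Finset ℤ} (x : ℤ) (hJ : ∀ m, m ∉ J → f m = 0)
    (hI : ∀ m ∈ J, x - m ∈ I) : ∑ i ∈ I, f (x - i) = ∑ m ∈ J, f m := by
  apply sum_reindex (f := f) (Equiv.subLeft x) hJ
  intro m hm
  have := hI m hm
  simpa [Equiv.subLeft_symm_apply, add_comm, sub_eq_add_neg] using this

theorem normSq_sum (I : Finset ℤ) (v : ℤ → ℂ) : ((‖∑ x ∈ I, v x‖ ^ 2 : ℝ) : ℂ) =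
    ∑ x ∈ I, ∑ x' ∈ I, v x * (starRingEnd ℂ) (v x') := by
  have h1 : ((‖∑ x ∈ I, v x‖ ^ 2 : ℝ) : ℂ) = (∑ x ∈ I, v x) * (starRingEnd ℂ) (∑ x ∈ I, v x) := by
    rw [Complex.mul_conj, Complex.normSq_eq_norm_sq]
  rw [h1, map_sum, Finset.sum_mul_sum]

/-- step A -/
theorem gvnA (N : ℕ) (a : ℤ → ℝ) (f1 f2 G : ℤ → ℂ) (hG : ∀ y, ‖G y‖ ≤ 1)
    (hG' : SuppIn (-N) N G) :
    (∑ x ∈ Finset.Ico (0 : ℤ) N, a x *
      ‖∑ y ∈ Finset.Ico (-(N : ℤ)) N, G y * f1 (x + y) * f2 (x - y)‖ ^ 2) ^ 2 ≤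
    8 * (N : ℝ) ^ 2 * ∑ j ∈ Finset.Ico (-(2 * N : ℤ)) (2 * N), ∑ y ∈ Finset.Ico (-(N : ℤ)) N,
      ‖∑ x ∈ Finset.Ico (0 : ℤ) N, (a x : ℂ) * (f1 (x + y) * (starRingEnd ℂ) (f1 (x + y + j))) *
        (f2 (x - y) * (starRingEnd ℂ) (f2 (x - y - j)))‖ ^ 2 := by
  set X := ∑ x ∈ Finset.Ico (0 : ℤ) N, a x *
      ‖∑ y ∈ Finset.Ico (-(N : ℤ)) N, G y * f1 (x + y) * f2 (x - y)‖ ^ 2 with hX
  set Ψ : ℤ → ℤ → ℂ := fun j y => ∑ x ∈ Finset.Ico (0 : ℤ) N,
    (a x : ℂ) * (f1 (x + y) * (starRingEnd ℂ) (f1 (x + y + j))) *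
        (f2 (x - y) * (starRingEnd ℂ) (f2 (x - y - j))) with hΨ
  have h1 : (X : ℂ) = ∑ j ∈ Finset.Ico (-(2 * N : ℤ)) (2 * N), ∑ y ∈ Finset.Ico (-(N : ℤ)) N,
      (G y * (starRingEnd ℂ) (G (y + j))) * Ψ j y := by
    calc (X : ℂ) = ∑ x ∈ Finset.Ico (0 : ℤ) N, (a x : ℂ) *
          ((‖∑ y ∈ Finset.Ico (-(N : ℤ)) N, G y * f1 (x + y) * f2 (x - y)‖ ^ 2 : ℝ) : ℂ) := by
          rw [hX]
          push_cast
          rfl
      _ = ∑ y ∈ Finset.Ico (-(N : ℤ)) N, ∑ y' ∈ Finset.Ico (-(N : ℤ)) N,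
          ∑ x ∈ Finset.Ico (0 : ℤ) N, (a x : ℂ) * ((G y * f1 (x + y) * f2 (x - y)) *
            (starRingEnd ℂ) (G y' * f1 (x + y') * f2 (x - y'))) := by
          simp only [normSq_sum, Finset.mul_sum]
          rw [Finset.sum_comm]
          apply Finset.sum_congr rfl
          intro y _
          rw [Finset.sum_comm]
      _ = ∑ j ∈ Finset.Ico (-(2 * N : ℤ)) (2 * N), ∑ y ∈ Finset.Ico (-(N : ℤ)) N,
          ∑ x ∈ Finset.Ico (0 : ℤ) N, (a x : ℂ) * ((G y * f1 (x + y) * f2 (x - y)) *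
            (starRingEnd ℂ) (G (y + j) * f1 (x + (y + j)) * f2 (x - (y + j)))) := by
          rw [sum_shiftR (L := 2 * N) (by omega)]
          intro y y' hy'
          rw [hG' y' hy']
          simp
      _ = _ := by
          apply Finset.sum_congr rfl
          intro j _
          apply Finset.sum_congr rfl
          intro y _
          rw [hΨ, Finset.mul_sum]
          apply Finset.sum_congr rfl
          intro x _
          rw [show x + (y + j) = x + y + j by ring, show x - (y + j) = x - y - j by ring]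
          simp only [map_mul]
          ring
  have h2 : |X| ≤ ∑ q ∈ Finset.Ico (-(2 * N : ℤ)) (2 * N) ×ˢ Finset.Ico (-(N : ℤ)) N,
      ‖Ψ q.1 q.2‖ := by
    rw [Finset.sum_product]
    have h3 : |X| = ‖(X : ℂ)‖ := by rw [Complex.norm_real, Real.norm_eq_abs]
    rw [h3, h1]
    refine (norm_sum_le _ _).trans (Finset.sum_le_sum fun j _ => ?_)
    refine (norm_sum_le _ _).trans (Finset.sum_le_sum fun y _ => ?_)
    rw [norm_mul, norm_mul, RCLike.norm_conj]
    have := mul_le_one₀ (hG y) (norm_nonneg (G (y + j))) (hG (y + j))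
    exact mul_le_of_le_one_left (norm_nonneg _) this
  have h3 : X ^ 2 ≤ (∑ q ∈ Finset.Ico (-(2 * N : ℤ)) (2 * N) ×ˢ Finset.Ico (-(N : ℤ)) N,
      ‖Ψ q.1 q.2‖) ^ 2 := by
    rw [← sq_abs X]
    exact pow_le_pow_left₀ (abs_nonneg _) h2 2
  refine h3.trans (sq_sum_le_card_mul_sum_sq.trans (le_of_eq ?_))
  rw [Finset.card_product, Int.card_Ico, Int.card_Ico, Finset.sum_product]
  have e1 : (2 * (N : ℤ) - -(2 * N)).toNat = 4 * N := by omega
  have e2 : ((N : ℤ) - -N).toNat = 2 * N := by omega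
  rw [e1, e2]
  push_cast
  ring

/-- step B: fixed `j` -/
theorem gvnB (N : ℕ) (a : ℤ → ℝ) (ha : ∀ x, x ∉ Finset.Ico (0 : ℤ) N → a x = 0) (P Q : ℤ → ℂ)
    (hQ : SuppIn (-(2 * N)) (2 * N) Q) (M2 : ℤ → ℤ → ℝ)
    (h2 : ∀ k t, ‖Q t‖ * ‖Q (t + k)‖ ≤ M2 k t) :
    ∑ y ∈ Finset.Ico (-(N : ℤ)) N,
      ‖∑ x ∈ Finset.Ico (0 : ℤ) N, (a x : ℂ) * P (x + y) * Q (x - y)‖ ^ 2 ≤
    ∑ k ∈ Finset.Ico (-(N : ℤ)) N, ∑ t ∈ Finset.Ico (-(5 * N : ℤ)) (5 * N), M2 k t *
      ‖∑ x ∈ Finset.Ico (0 : ℤ) N, ((a x * a (x + k) : ℝ) : ℂ) *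
        (P (2 * x - t) * (starRingEnd ℂ) (P (2 * x - t + k)))‖ := by
  set Z := ∑ y ∈ Finset.Ico (-(3 * N : ℤ)) (3 * N),
      ‖∑ x ∈ Finset.Ico (0 : ℤ) N, (a x : ℂ) * P (x + y) * Q (x - y)‖ ^ 2 with hZ
  set Φ : ℤ → ℤ → ℂ := fun k t => ∑ x ∈ Finset.Ico (0 : ℤ) N, ((a x * a (x + k) : ℝ) : ℂ) *
        (P (2 * x - t) * (starRingEnd ℂ) (P (2 * x - t + k))) with hΦ
  have h0 : ∑ y ∈ Finset.Ico (-(N : ℤ)) N,
      ‖∑ x ∈ Finset.Ico (0 : ℤ) N, (a x : ℂ) * P (x + y) * Q (x - y)‖ ^ 2 ≤ Z := by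
    apply Finset.sum_le_sum_of_subset_of_nonneg
    · apply Finset.Ico_subset_Ico <;> omega
    · intro i _ _
      positivity
  have hM : ∀ k t, 0 ≤ M2 k t := fun k t =>
    (mul_nonneg (norm_nonneg _) (norm_nonneg _)).trans (h2 k t)
  have h1 : (Z : ℂ) = ∑ k ∈ Finset.Ico (-(N : ℤ)) N, ∑ t ∈ Finset.Ico (-(2 * N : ℤ)) (2 * N),
      (Q t * (starRingEnd ℂ) (Q (t + k))) * Φ k t := by
    calc (Z : ℂ) = ∑ y ∈ Finset.Ico (-(3 * N : ℤ)) (3 * N),
          ∑ x ∈ Finset.Ico (0 : ℤ) N, ∑ x' ∈ Finset.Ico (0 : ℤ) N,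
            ((a x : ℂ) * P (x + y) * Q (x - y)) *
              (starRingEnd ℂ) ((a x' : ℂ) * P (x' + y) * Q (x' - y)) := by
          rw [hZ]
          push_cast
          apply Finset.sum_congr rfl
          intro y _
          rw [← normSq_sum]
          push_cast
          rfl
      _ = ∑ y ∈ Finset.Ico (-(3 * N : ℤ)) (3 * N), ∑ k ∈ Finset.Ico (-(N : ℤ)) N,
          ∑ x ∈ Finset.Ico (0 : ℤ) N, ((a x : ℂ) * P (x + y) * Q (x - y)) *
              (starRingEnd ℂ) ((a (x + k) : ℂ) * P (x + k + y) * Q (x + k - y)) := by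
          apply Finset.sum_congr rfl
          intro y _
          rw [sum_shiftR (L := N) (by omega)]
          intro x x' hx'
          rw [ha x' hx']
          simp
      _ = ∑ k ∈ Finset.Ico (-(N : ℤ)) N, ∑ x ∈ Finset.Ico (0 : ℤ) N,
          ((a x * a (x + k) : ℝ) : ℂ) * ∑ y ∈ Finset.Ico (-(3 * N : ℤ)) (3 * N),
            (P (2 * x - (x - y)) * (starRingEnd ℂ) (P (2 * x - (x - y) + k))) *
              (Q (x - y) * (starRingEnd ℂ) (Q (x - y + k))) := by
          rw [Finset.sum_comm]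
          apply Finset.sum_congr rfl
          intro k _
          rw [Finset.sum_comm]
          apply Finset.sum_congr rfl
          intro x _
          rw [Finset.mul_sum]
          apply Finset.sum_congr rfl
          intro y _
          rw [show 2 * x - (x - y) = x + y by ring, show x + k + y = x + y + k by ring,
            show x + k - y = x - y + k by ring]
          simp only [map_mul, Complex.conj_ofReal]
          push_cast
          ring
      _ = ∑ k ∈ Finset.Ico (-(N : ℤ)) N, ∑ x ∈ Finset.Ico (0 : ℤ) N,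
          ((a x * a (x + k) : ℝ) : ℂ) * ∑ t ∈ Finset.Ico (-(2 * N : ℤ)) (2 * N),
            (P (2 * x - t) * (starRingEnd ℂ) (P (2 * x - t + k))) *
              (Q t * (starRingEnd ℂ) (Q (t + k))) := by
          apply Finset.sum_congr rfl
          intro k _
          apply Finset.sum_congr rfl
          intro x hx
          rw [Finset.mem_Ico] at hx
          congr 1
          apply sum_reflect (f := fun t => (P (2 * x - t) * (starRingEnd ℂ) (P (2 * x - t + k))) *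
              (Q t * (starRingEnd ℂ) (Q (t + k)))) x
          · intro t ht
            have : Q t = 0 := hQ t (by simpa using ht)
            simp [this]
          · intro t ht
            rw [Finset.mem_Ico] at ht ⊢
            omega
      _ = _ := by
          apply Finset.sum_congr rfl
          intro k _
          simp only [Finset.mul_sum, hΦ]
          rw [Finset.sum_comm]
          apply Finset.sum_congr rfl
          intro t _
          apply Finset.sum_congr rfl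
          intro x _
          ring
  have h3 : Z ≤ ∑ k ∈ Finset.Ico (-(N : ℤ)) N, ∑ t ∈ Finset.Ico (-(2 * N : ℤ)) (2 * N),
      M2 k t * ‖Φ k t‖ := by
    have h4 : Z ≤ ‖(Z : ℂ)‖ := by
      rw [Complex.norm_real, Real.norm_eq_abs]
      exact le_abs_self _
    refine h4.trans ?_
    rw [h1]
    refine (norm_sum_le _ _).trans (Finset.sum_le_sum fun k _ => ?_)
    refine (norm_sum_le _ _).trans (Finset.sum_le_sum fun t _ => ?_)
    rw [norm_mul, norm_mul, RCLike.norm_conj]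
    exact mul_le_mul_of_nonneg_right (h2 k t) (norm_nonneg _)
  refine h0.trans (h3.trans (Finset.sum_le_sum fun k _ => ?_))
  apply Finset.sum_le_sum_of_subset_of_nonneg
  · apply Finset.Ico_subset_Ico <;> omega
  · intro t _ _
    exact mul_nonneg (hM k t) (norm_nonneg _)

/-- step D: fixed `j, k` -/
theorem gvnD (N : ℕ) (c : ℤ → ℝ) (hc : ∀ x, x ∉ Finset.Ico (0 : ℤ) N → c x = 0) (F : ℤ → ℂ)
    (hF : SuppIn (-(2 * N)) (2 * N) F) (M1 M2 : ℤ → ℝ)
    (h1 : ∀ s, ‖F s‖ ≤ M1 s) :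
    ∑ t ∈ Finset.Ico (-(5 * N : ℤ)) (5 * N), M2 t *
      ‖∑ x ∈ Finset.Ico (0 : ℤ) N, (c x : ℂ) * F (2 * x - t)‖ ^ 2 ≤
    ∑ l ∈ Finset.Ico (-(N : ℤ)) N, ∑ s ∈ Finset.Ico (-(2 * N : ℤ)) (2 * N),
      M1 s * M1 (s + 2 * l) *
        |∑ x ∈ Finset.Ico (0 : ℤ) N, c x * c (x + l) * M2 (2 * x - s)| := by
  set Z := ∑ t ∈ Finset.Ico (-(5 * N : ℤ)) (5 * N), M2 t *
      ‖∑ x ∈ Finset.Ico (0 : ℤ) N, (c x : ℂ) * F (2 * x - t)‖ ^ 2 with hZ
  have key : (Z : ℂ) = ∑ l ∈ Finset.Ico (-(N : ℤ)) N, ∑ s ∈ Finset.Ico (-(2 * N : ℤ)) (2 * N),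
      (F s * (starRingEnd ℂ) (F (s + 2 * l))) *
        ((∑ x ∈ Finset.Ico (0 : ℤ) N, c x * c (x + l) * M2 (2 * x - s) : ℝ) : ℂ) := by
    calc (Z : ℂ) = ∑ t ∈ Finset.Ico (-(5 * N : ℤ)) (5 * N), (M2 t : ℂ) *
          ∑ x ∈ Finset.Ico (0 : ℤ) N, ∑ x' ∈ Finset.Ico (0 : ℤ) N,
            ((c x : ℂ) * F (2 * x - t)) * (starRingEnd ℂ) ((c x' : ℂ) * F (2 * x' - t)) := by
          rw [hZ]
          push_cast
          apply Finset.sum_congr rfl
          intro t _
          rw [← normSq_sum]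
          push_cast
          rfl
      _ = ∑ t ∈ Finset.Ico (-(5 * N : ℤ)) (5 * N), (M2 t : ℂ) *
          ∑ l ∈ Finset.Ico (-(N : ℤ)) N, ∑ x ∈ Finset.Ico (0 : ℤ) N,
            ((c x : ℂ) * F (2 * x - t)) *
              (starRingEnd ℂ) ((c (x + l) : ℂ) * F (2 * (x + l) - t)) := by
          apply Finset.sum_congr rfl
          intro t _
          rw [sum_shiftR (L := N) (by omega)]
          intro x x' hx'
          rw [hc x' hx']
          simp
      _ = ∑ l ∈ Finset.Ico (-(N : ℤ)) N, ∑ x ∈ Finset.Ico (0 : ℤ) N,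
          ((c x * c (x + l) : ℝ) : ℂ) * ∑ t ∈ Finset.Ico (-(5 * N : ℤ)) (5 * N),
            (M2 (2 * x - (2 * x - t)) : ℂ) * (F (2 * x - t) *
              (starRingEnd ℂ) (F (2 * x - t + 2 * l))) := by
          simp only [Finset.mul_sum]
          rw [Finset.sum_comm]
          apply Finset.sum_congr rfl
          intro l _
          rw [Finset.sum_comm]
          apply Finset.sum_congr rfl
          intro x _
          apply Finset.sum_congr rfl
          intro t _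
          rw [show 2 * x - (2 * x - t) = t by ring, show 2 * (x + l) - t = 2 * x - t + 2 * l by ring]
          simp only [map_mul, Complex.conj_ofReal]
          push_cast
          ring
      _ = ∑ l ∈ Finset.Ico (-(N : ℤ)) N, ∑ x ∈ Finset.Ico (0 : ℤ) N,
          ((c x * c (x + l) : ℝ) : ℂ) * ∑ s ∈ Finset.Ico (-(2 * N : ℤ)) (2 * N),
            (M2 (2 * x - s) : ℂ) * (F s * (starRingEnd ℂ) (F (s + 2 * l))) := by
          apply Finset.sum_congr rfl
          intro l _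
          apply Finset.sum_congr rfl
          intro x hx
          rw [Finset.mem_Ico] at hx
          congr 1
          apply sum_reflect (f := fun s => (M2 (2 * x - s) : ℂ) *
            (F s * (starRingEnd ℂ) (F (s + 2 * l)))) (2 * x)
          · intro s hs
            have : F s = 0 := hF s (by simpa using hs)
            simp [this]
          · intro s hs
            rw [Finset.mem_Ico] at hs ⊢
            omega
      _ = _ := by
          apply Finset.sum_congr rfl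
          intro l _
          push_cast
          simp only [Finset.mul_sum]
          rw [Finset.sum_comm]
          apply Finset.sum_congr rfl
          intro s _
          apply Finset.sum_congr rfl
          intro x _
          ring
  have h4 : Z ≤ ‖(Z : ℂ)‖ := by
    rw [Complex.norm_real, Real.norm_eq_abs]
    exact le_abs_self _
  refine h4.trans ?_
  rw [key]
  refine (norm_sum_le _ _).trans (Finset.sum_le_sum fun l _ => ?_)
  refine (norm_sum_le _ _).trans (Finset.sum_le_sum fun s _ => ?_)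
  rw [norm_mul, norm_mul, RCLike.norm_conj, Complex.norm_real, Real.norm_eq_abs]
  apply mul_le_mul_of_nonneg_right _ (abs_nonneg _)
  exact mul_le_mul (h1 s) (h1 _) (norm_nonneg _) ((norm_nonneg _).trans (h1 s))

/-- the generalised von Neumann inequality -/
theorem gvn (N : ℕ) (a : ℤ → ℝ) (ha : ∀ x, x ∉ Finset.Ico (0 : ℤ) N → a x = 0) (f1 f2 G : ℤ → ℂ)
    (hf1 : SuppIn (-(2 * N)) (2 * N) f1) (hf2 : SuppIn (-(2 * N)) (2 * N) f2)
    (hG : ∀ y, ‖G y‖ ≤ 1) (hG' : SuppIn (-N) N G) (M1 M2 : ℤ → ℤ → ℤ → ℝ)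
    (h1 : ∀ j k s, ‖f1 s‖ * ‖f1 (s + j)‖ * (‖f1 (s + k)‖ * ‖f1 (s + k + j)‖) ≤ M1 j k s)
    (h2 : ∀ j k t, ‖f2 t‖ * ‖f2 (t - j)‖ * (‖f2 (t + k)‖ * ‖f2 (t + k - j)‖) ≤ M2 j k t) :
    (∑ x ∈ Finset.Ico (0 : ℤ) N, a x *
      ‖∑ y ∈ Finset.Ico (-(N : ℤ)) N, G y * f1 (x + y) * f2 (x - y)‖ ^ 2) ^ 4 ≤
    64 * (N : ℝ) ^ 4 *
      (∑ j ∈ Finset.Ico (-(2 * N : ℤ)) (2 * N), ∑ k ∈ Finset.Ico (-(N : ℤ)) N,
        ∑ t ∈ Finset.Ico (-(5 * N : ℤ)) (5 * N), M2 j k t) *
      (∑ j ∈ Finset.Ico (-(2 * N : ℤ)) (2 * N), ∑ k ∈ Finset.Ico (-(N : ℤ)) N,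
        ∑ l ∈ Finset.Ico (-(N : ℤ)) N, ∑ s ∈ Finset.Ico (-(2 * N : ℤ)) (2 * N),
          M1 j k s * M1 j k (s + 2 * l) *
          |∑ x ∈ Finset.Ico (0 : ℤ) N, (a x * a (x + k)) * (a (x + l) * a (x + l + k)) *
            M2 j k (2 * x - s)|) := by
  have hA := gvnA N a f1 f2 G hG hG'
  set X := ∑ x ∈ Finset.Ico (0 : ℤ) N, a x *
      ‖∑ y ∈ Finset.Ico (-(N : ℤ)) N, G y * f1 (x + y) * f2 (x - y)‖ ^ 2 with hX
  set J := Finset.Ico (-(2 * N : ℤ)) (2 * N) with hJ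
  set K := Finset.Ico (-(N : ℤ)) N with hK
  set T := Finset.Ico (-(5 * N : ℤ)) (5 * N) with hT
  have hM2 : ∀ j k t, 0 ≤ M2 j k t := fun j k t =>
    (mul_nonneg (mul_nonneg (norm_nonneg _) (norm_nonneg _))
      (mul_nonneg (norm_nonneg _) (norm_nonneg _))).trans (h2 j k t)
  set Φ : ℤ → ℤ → ℤ → ℂ := fun j k t => ∑ x ∈ Finset.Ico (0 : ℤ) N, ((a x * a (x + k) : ℝ) : ℂ) *
        ((f1 (2 * x - t) * (starRingEnd ℂ) (f1 (2 * x - t + j))) *
        (starRingEnd ℂ) (f1 (2 * x - t + k) * (starRingEnd ℂ) (f1 (2 * x - t + k + j)))) with hΦ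
  have hB : ∀ j, ∑ y ∈ K, ‖∑ x ∈ Finset.Ico (0 : ℤ) N, (a x : ℂ) *
      (f1 (x + y) * (starRingEnd ℂ) (f1 (x + y + j))) *
        (f2 (x - y) * (starRingEnd ℂ) (f2 (x - y - j)))‖ ^ 2 ≤
      ∑ k ∈ K, ∑ t ∈ T, M2 j k t * ‖Φ j k t‖ := by
    intro j
    apply gvnB N a ha (fun s => f1 s * (starRingEnd ℂ) (f1 (s + j)))
      (fun t => f2 t * (starRingEnd ℂ) (f2 (t - j)))
    · intro t ht
      simp [hf2 t ht]
    · intro k t
      simp only [norm_mul, RCLike.norm_conj]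
      exact h2 j k t
  have hB' : X ^ 2 ≤ 8 * (N : ℝ) ^ 2 *
      ∑ q ∈ J ×ˢ (K ×ˢ T), M2 q.1 q.2.1 q.2.2 * ‖Φ q.1 q.2.1 q.2.2‖ := by
    refine hA.trans (mul_le_mul_of_nonneg_left ?_ (by positivity))
    rw [Finset.sum_product]
    apply Finset.sum_le_sum
    intro j _
    rw [Finset.sum_product]
    exact hB j
  have hC : (∑ q ∈ J ×ˢ (K ×ˢ T), M2 q.1 q.2.1 q.2.2 * ‖Φ q.1 q.2.1 q.2.2‖) ^ 2 ≤
      (∑ q ∈ J ×ˢ (K ×ˢ T), M2 q.1 q.2.1 q.2.2) *
      ∑ q ∈ J ×ˢ (K ×ˢ T), M2 q.1 q.2.1 q.2.2 * ‖Φ q.1 q.2.1 q.2.2‖ ^ 2 := by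
    apply Finset.sum_sq_le_sum_mul_sum_of_sq_le_mul
    · intro q _
      exact hM2 _ _ _
    · intro q _
      exact mul_nonneg (hM2 _ _ _) (by positivity)
    · intro q _
      exact le_of_eq (by ring)
  have hD : ∑ q ∈ J ×ˢ (K ×ˢ T), M2 q.1 q.2.1 q.2.2 * ‖Φ q.1 q.2.1 q.2.2‖ ^ 2 ≤
      ∑ j ∈ J, ∑ k ∈ K, ∑ l ∈ K, ∑ s ∈ J, M1 j k s * M1 j k (s + 2 * l) *
          |∑ x ∈ Finset.Ico (0 : ℤ) N, (a x * a (x + k)) * (a (x + l) * a (x + l + k)) *
            M2 j k (2 * x - s)| := by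
    rw [Finset.sum_product]
    apply Finset.sum_le_sum
    intro j _
    rw [Finset.sum_product]
    apply Finset.sum_le_sum
    intro k _
    apply gvnD N (fun x => a x * a (x + k)) (fun x hx => by simp [ha x hx])
      (fun s => (f1 s * (starRingEnd ℂ) (f1 (s + j))) *
        (starRingEnd ℂ) (f1 (s + k) * (starRingEnd ℂ) (f1 (s + k + j))))
    · intro s hs
      simp [hf1 s hs]
    · intro s
      simp only [norm_mul, RCLike.norm_conj]
      exact h1 j k s

  have e1 : ∑ q ∈ J ×ˢ (K ×ˢ T), M2 q.1 q.2.1 q.2.2 =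
      ∑ j ∈ J, ∑ k ∈ K, ∑ t ∈ T, M2 j k t := by
    rw [Finset.sum_product]
    apply Finset.sum_congr rfl
    intro j _
    rw [Finset.sum_product]
  rw [e1] at hC
  have hM2s : 0 ≤ ∑ j ∈ J, ∑ k ∈ K, ∑ t ∈ T, M2 j k t :=
    Finset.sum_nonneg fun _ _ => Finset.sum_nonneg fun _ _ => Finset.sum_nonneg fun _ _ =>
      hM2 _ _ _
  calc X ^ 4 = (X ^ 2) ^ 2 := by ring
    _ ≤ (8 * (N : ℝ) ^ 2 *
      ∑ q ∈ J ×ˢ (K ×ˢ T), M2 q.1 q.2.1 q.2.2 * ‖Φ q.1 q.2.1 q.2.2‖) ^ 2 :=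
        pow_le_pow_left₀ (by positivity) hB' 2
    _ = 64 * (N : ℝ) ^ 4 * (∑ q ∈ J ×ˢ (K ×ˢ T), M2 q.1 q.2.1 q.2.2 *
        ‖Φ q.1 q.2.1 q.2.2‖) ^ 2 := by ring
    _ ≤ 64 * (N : ℝ) ^ 4 * ((∑ j ∈ J, ∑ k ∈ K, ∑ t ∈ T, M2 j k t) *
      (∑ q ∈ J ×ˢ (K ×ˢ T), M2 q.1 q.2.1 q.2.2 * ‖Φ q.1 q.2.1 q.2.2‖ ^ 2)) :=
        mul_le_mul_of_nonneg_left hC (by positivity)
    _ ≤ 64 * (N : ℝ) ^ 4 * ((∑ j ∈ J, ∑ k ∈ K, ∑ t ∈ T, M2 j k t) *
      (∑ j ∈ J, ∑ k ∈ K, ∑ l ∈ K, ∑ s ∈ J, M1 j k s * M1 j k (s + 2 * l) *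
          |∑ x ∈ Finset.Ico (0 : ℤ) N, (a x * a (x + k)) * (a (x + l) * a (x + l + k)) *
            M2 j k (2 * x - s)|)) :=
        mul_le_mul_of_nonneg_left (mul_le_mul_of_nonneg_left hD hM2s) (by positivity)
    _ = _ := by ring

end Pool.Agent.Lib.H18GB
end

-- from Lib.H18GB.TU3
section

/-!
# Project GB: TU3

Throughout `S` is a set of primes in `(w, z]`, `IsW w W`, and all intervals have length at least
`z ^ (C A)`; errors are `er C A w = 2^(-A/C) + w^(-1/C)`, and powers `er^(1/2)` etc. are absorbed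
by increasing `C`. All sums of products of `rho`'s come from `corr0` / `corr`: the error terms are
`Ers (9/10) S (discriminant)` with discriminants affine in the averaged variables, with coefficient
`± W^i * (1, 2 or 3)` or a prime `> z`; use `ers_mul`, `ers_pow_le`, `ers_avg`.
The error term `z^(A+k)` is `≤ er * (length)` when `z ^ (C A) ≤ length`.
-/

namespace Pool.Agent.Lib.H18GB

open Finset Pool.Agent.Lib.Sieve

theorem nu_expand (S : Finset ℕ) (W : ℕ) (r j k s : ℤ) : nu S W r j k s =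
    (1 + rho S (r + W * s)) * (1 + rho S (r + W * (s + j))) *
      ((1 + rho S (r + W * (s + k))) * (1 + rho S (r + W * (s + k + j)))) := by
  unfold nu sh
  rw [Fintype.prod_prod_type]
  simp only [Fintype.prod_bool, if_true, Bool.false_eq_true, if_false, add_zero, zero_add]
  rw [show s + (j + k) = s + k + j by ring]
  ring

theorem maj_four {κ : ℝ} {S : Finset ℕ} {W : ℕ} {r : ℤ} {f : ℤ → ℂ} (hS : ∀ p ∈ S, p.Prime)
    (hκ : 0 ≤ κ) (hf : Maj κ S W r f) (j k s : ℤ) :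
    ‖f s‖ * ‖f (s + j)‖ * (‖f (s + k)‖ * ‖f (s + k + j)‖) ≤ κ ^ 4 * nu S W r j k s := by
  rw [nu_expand]
  have hr := fun m => rho_nonneg hS (r + W * m)
  have g1 := hf s
  have g2 := hf (s + j)
  have g3 := hf (s + k)
  have g4 := hf (s + k + j)
  have r1 := hr s
  have r2 := hr (s + j)
  have r3 := hr (s + k)
  have r4 := hr (s + k + j)
  calc ‖f s‖ * ‖f (s + j)‖ * (‖f (s + k)‖ * ‖f (s + k + j)‖) ≤
      (κ * (1 + rho S (r + W * s))) * (κ * (1 + rho S (r + W * (s + j)))) *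
      ((κ * (1 + rho S (r + W * (s + k)))) * (κ * (1 + rho S (r + W * (s + k + j))))) := by
        gcongr
    _ = _ := by ring

theorem maj_four' {κ : ℝ} {S : Finset ℕ} {W : ℕ} {r : ℤ} {f : ℤ → ℂ} (hS : ∀ p ∈ S, p.Prime)
    (hκ : 0 ≤ κ) (hf : Maj κ S W r f) (j k s : ℤ) :
    ‖f s‖ * ‖f (s - j)‖ * (‖f (s + k)‖ * ‖f (s + k - j)‖) ≤ κ ^ 4 * nu S W r (-j) k s := by
  have := maj_four hS hκ hf (-j) k s
  rwa [← sub_eq_add_neg, ← sub_eq_add_neg] at this

/-- the truncated deviation of the pair weight -/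
noncomputable def dev (S : Finset ℕ) (W N : ℕ) (ep bb : Bool → ℤ) (x : ℤ) : ℝ :=
  if 0 ≤ x ∧ x < N then om S W ep bb x - 1 else 0

theorem dev_prod (S : Finset ℕ) (W N : ℕ) (ep bb : Bool → ℤ) (k l : ℤ) (g : ℤ → ℝ) :
    ∑ x ∈ Finset.Ico (0 : ℤ) N, (dev S W N ep bb x * dev S W N ep bb (x + k)) *
      (dev S W N ep bb (x + l) * dev S W N ep bb (x + l + k)) * g x =
    ∑ x ∈ Finset.Ico (max (max 0 (-k)) (max (-l) (-l - k)))
      (min (min (N : ℤ) (N - k)) (min (N - l) (N - l - k))),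
      (∏ u : Bool × Bool, (om S W ep bb (x + sh l k u) - 1)) * g x := by
  have h1 : Finset.Ico (max (max 0 (-k)) (max (-l) (-l - k)))
      (min (min (N : ℤ) (N - k)) (min (N - l) (N - l - k))) =
      (Finset.Ico (0 : ℤ) N).filter (fun x => (0 ≤ x + k ∧ x + k < N) ∧ (0 ≤ x + l ∧ x + l < N) ∧
        (0 ≤ x + l + k ∧ x + l + k < N)) := by
    ext x
    simp only [Finset.mem_filter, Finset.mem_Ico, max_le_iff, lt_min_iff]
    constructor
    · rintro ⟨⟨⟨a1, a2⟩, a3, a4⟩, ⟨b1, b2⟩, b3, b4⟩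
      refine ⟨⟨a1, b1⟩, ⟨by omega, by omega⟩, ⟨by omega, by omega⟩, by omega, by omega⟩
    · rintro ⟨⟨a1, b1⟩, ⟨a2, b2⟩, ⟨a3, b3⟩, a4, b4⟩
      refine ⟨⟨⟨a1, by omega⟩, by omega, by omega⟩, ⟨b1, by omega⟩, by omega, by omega⟩
  rw [h1, Finset.sum_filter]
  apply Finset.sum_congr rfl
  intro x hx
  rw [Finset.mem_Ico] at hx
  have e : (∏ u : Bool × Bool, (om S W ep bb (x + sh l k u) - 1)) =
      (om S W ep bb x - 1) * (om S W ep bb (x + k) - 1) *
        ((om S W ep bb (x + l) - 1) * (om S W ep bb (x + l + k) - 1)) := by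
    unfold sh
    rw [Fintype.prod_prod_type]
    simp only [Fintype.prod_bool, if_true, Bool.false_eq_true, if_false, add_zero, zero_add]
    rw [show x + (l + k) = x + l + k by ring]
    ring
  rw [e]
  unfold dev
  rw [if_pos (show 0 ≤ x ∧ x < N from hx)]
  by_cases c : (0 ≤ x + k ∧ x + k < N) ∧ (0 ≤ x + l ∧ x + l < N) ∧ (0 ≤ x + l + k ∧ x + l + k < N)
  · rw [if_pos c, if_pos c.1, if_pos c.2.1, if_pos c.2.2]
  · rw [if_neg c]
    by_cases c1 : 0 ≤ x + k ∧ x + k < N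
    · by_cases c2 : 0 ≤ x + l ∧ x + l < N
      · by_cases c3 : 0 ≤ x + l + k ∧ x + l + k < N
        · exact absurd ⟨c1, c2, c3⟩ c
        · rw [if_neg c3]
          ring
      · rw [if_neg c2]
        ring
    · rw [if_neg c1]
      ring

/-- the second factor -/
theorem fac2 : ∃ C : ℕ, 2 ≤ C ∧ ∀ (A w z W N : ℕ) (S : Finset ℕ), Stp C A w z W N S →
    ∀ (κ : ℝ) (ep bb : Bool → ℤ), 0 ≤ κ → (∀ c, ep c ≠ 0 ∧ |ep c| ≤ 2) → ∀ r1 r2 : ℤ,
    ∑ j ∈ Finset.Ico (-(2 * N : ℤ)) (2 * N), ∑ k ∈ Finset.Ico (-(N : ℤ)) N,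
        ∑ l ∈ Finset.Ico (-(N : ℤ)) N, ∑ s ∈ Finset.Ico (-(2 * N : ℤ)) (2 * N),
          (κ ^ 4 * nu S W r1 j k s) * (κ ^ 4 * nu S W r1 j k (s + 2 * l)) *
          |∑ x ∈ Finset.Ico (0 : ℤ) N, (dev S W N ep bb x * dev S W N ep bb (x + k)) *
            (dev S W N ep bb (x + l) * dev S W N ep bb (x + l + k)) *
            (κ ^ 4 * nu S W r2 (-j) k (2 * x - s))| ≤
      C * κ ^ 12 * (N : ℝ) ^ 5 * er C A w := by
  obtain ⟨C1, hC1, hc1⟩ := core
  obtain ⟨C2, hC2, hc2⟩ := quad0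
  obtain ⟨C3, hC3, hc3⟩ := quad
  refine ⟨C1 * (C2 + 144 * C3), by nlinarith, fun A w z W N S h κ ep bb hκ hep r1 r2 => ?_⟩
  have l1 : C1 ≤ C1 * (C2 + 144 * C3) := Nat.le_mul_of_pos_right _ (by omega)
  have l2 : C2 + 144 * C3 ≤ C1 * (C2 + 144 * C3) := Nat.le_mul_of_pos_left _ (by omega)
  have h1 := h.mono l1
  have h2 := h.mono (show C2 ≤ C1 * (C2 + 144 * C3) by omega)
  have h3 := h.mono (show C3 ≤ C1 * (C2 + 144 * C3) by omega)
  have hw1 : 1 ≤ w := h1.w_pos (by omega)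
  have hε1 : er C1 A w ≤ er (C1 * (C2 + 144 * C3)) A w := er_mono (by omega) l1 A hw1
  have hε3 : er C3 A w ≤ er (C1 * (C2 + 144 * C3)) A w := er_mono (by omega) (by omega) A hw1
  have e1 := er_nonneg C1 A w
  have e3 := er_nonneg C3 A w
  have hnu : ∀ r j k s, 0 ≤ nu S W r j k s := fun r j k s => nu_nonneg h.hS.prime W r j k s
  -- pointwise bound
  have pt : ∀ j k l s : ℤ, |∑ x ∈ Finset.Ico (0 : ℤ) N,
      (dev S W N ep bb x * dev S W N ep bb (x + k)) *
            (dev S W N ep bb (x + l) * dev S W N ep bb (x + l + k)) *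
            (κ ^ 4 * nu S W r2 (-j) k (2 * x - s))| ≤
      κ ^ 4 * (C1 * N * (er C1 A w + Dt S W ep bb r2 j k l s)) := by
    intro j k l s
    rw [dev_prod]
    have hD := Dt_nonneg S W ep bb r2 j k l s
    set a' := max (max 0 (-k)) (max (-l) (-l - k)) with ha'
    set b' := min (min (N : ℤ) (N - k)) (min (N - l) (N - l - k)) with hb'
    have e2 : ∑ x ∈ Finset.Ico a' b', (∏ u : Bool × Bool, (om S W ep bb (x + sh l k u) - 1)) *
        (κ ^ 4 * nu S W r2 (-j) k (2 * x - s)) = κ ^ 4 * ∑ x ∈ Finset.Ico a' b',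
        (∏ u : Bool × Bool, (om S W ep bb (x + sh l k u) - 1)) * nu S W r2 (-j) k (2 * x - s) := by
      rw [Finset.mul_sum]
      apply Finset.sum_congr rfl
      intro x _
      ring
    rw [e2, abs_mul, abs_of_nonneg (by positivity : 0 ≤ κ ^ 4)]
    apply mul_le_mul_of_nonneg_left _ (by positivity)
    rcases le_or_gt a' b' with hab | hab
    · apply hc1 A w z W N S h1 ep bb hep r2 j k l s a' b' hab
      have : (0 : ℤ) ≤ a' := (le_max_left _ _).trans (le_max_left _ _)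
      have : b' ≤ N := (min_le_left _ _).trans (min_le_left _ _)
      omega
    · rw [Finset.Ico_eq_empty (by omega), Finset.sum_empty, abs_zero]
      positivity
  have e4 : ∑ j ∈ Finset.Ico (-(2 * N : ℤ)) (2 * N), ∑ k ∈ Finset.Ico (-(N : ℤ)) N,
        ∑ l ∈ Finset.Ico (-(N : ℤ)) N, ∑ s ∈ Finset.Ico (-(2 * N : ℤ)) (2 * N),
          (κ ^ 4 * nu S W r1 j k s) * (κ ^ 4 * nu S W r1 j k (s + 2 * l)) *
          (κ ^ 4 * (C1 * N * (er C1 A w + Dt S W ep bb r2 j k l s))) =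
      κ ^ 12 * (C1 * N) * (er C1 A w * Qs S W N r1 (fun _ _ _ _ => 1) +
        Qs S W N r1 (fun j k l s => Dt S W ep bb r2 j k l s)) := by
    unfold Qs
    simp only [Finset.mul_sum, mul_add, ← Finset.sum_add_distrib]
    apply Finset.sum_congr rfl; intro j _
    apply Finset.sum_congr rfl; intro k _
    apply Finset.sum_congr rfl; intro l _
    apply Finset.sum_congr rfl; intro s _
    ring
  have e5 : Qs S W N r1 (fun j k l s => Dt S W ep bb r2 j k l s) ≤
      144 * ((C3 : ℝ) * (N : ℝ) ^ 4 * er C3 A w) := by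
    classical
    have e6 : Qs S W N r1 (fun j k l s => Dt S W ep bb r2 j k l s) =
        ∑ P : (Bool × Bool) ⊕ ((Bool × Bool) × Bool), ∑ Q : (Bool × Bool) ⊕ ((Bool × Bool) × Bool),
          Qs S W N r1 (fun j k l s => if crs P Q then
            Ers (9 / 10) S (disc (al W ep) (be W ep bb r2 j k l s) P Q) else 0) := by
      unfold Qs Dt
      simp only [Finset.mul_sum]
      have sw : ∀ (I : Finset ℤ) (f : ℤ → (Bool × Bool) ⊕ ((Bool × Bool) × Bool) →
          (Bool × Bool) ⊕ ((Bool × Bool) × Bool) → ℝ),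
          ∑ i ∈ I, ∑ P, ∑ Q, f i P Q = ∑ P, ∑ Q, ∑ i ∈ I, f i P Q := by
        intro I f
        rw [Finset.sum_comm]
        apply Finset.sum_congr rfl
        intro P _
        rw [Finset.sum_comm]
      simp only [sw]
    rw [e6]
    calc _ ≤ ∑ P : (Bool × Bool) ⊕ ((Bool × Bool) × Bool),
          ∑ Q : (Bool × Bool) ⊕ ((Bool × Bool) × Bool), ((C3 : ℝ) * (N : ℝ) ^ 4 * er C3 A w) := by
          apply Finset.sum_le_sum; intro P _
          apply Finset.sum_le_sum; intro Q _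
          by_cases hPQ : crs P Q
          · simp only [hPQ, if_true]
            exact hc3 A w z W N S h3 r1 _ (cross_ty h1 hC1 bb hep r2 P Q hPQ)
          · simp only [hPQ, if_false]
            unfold Qs
            simp only [mul_zero, Finset.sum_const_zero]
            positivity
      _ = _ := by
          simp only [Finset.sum_const, Finset.card_univ, Fintype.card_sum, Fintype.card_prod,
            Fintype.card_bool, nsmul_eq_mul]
          push_cast
          ring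
  have e7 := hc2 A w z W N S h2 r1
  calc _ ≤ ∑ j ∈ Finset.Ico (-(2 * N : ℤ)) (2 * N), ∑ k ∈ Finset.Ico (-(N : ℤ)) N,
        ∑ l ∈ Finset.Ico (-(N : ℤ)) N, ∑ s ∈ Finset.Ico (-(2 * N : ℤ)) (2 * N),
          (κ ^ 4 * nu S W r1 j k s) * (κ ^ 4 * nu S W r1 j k (s + 2 * l)) *
          (κ ^ 4 * (C1 * N * (er C1 A w + Dt S W ep bb r2 j k l s))) := by
        apply Finset.sum_le_sum; intro j _
        apply Finset.sum_le_sum; intro k _
        apply Finset.sum_le_sum; intro l _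
        apply Finset.sum_le_sum; intro s _
        apply mul_le_mul_of_nonneg_left (pt j k l s)
        have := hnu r1 j k s
        have := hnu r1 j k (s + 2 * l)
        positivity
    _ = _ := e4
    _ ≤ κ ^ 12 * (C1 * N) * (er C1 A w * ((C2 : ℝ) * (N : ℝ) ^ 4) +
        144 * ((C3 : ℝ) * (N : ℝ) ^ 4 * er C3 A w)) := by gcongr
    _ ≤ κ ^ 12 * (C1 * N) * (er (C1 * (C2 + 144 * C3)) A w * ((C2 : ℝ) * (N : ℝ) ^ 4) +
        144 * ((C3 : ℝ) * (N : ℝ) ^ 4 * er (C1 * (C2 + 144 * C3)) A w)) := by gcongr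
    _ = _ := by
        push_cast
        ring

/-- the first factor -/
theorem fac1 : ∃ C : ℕ, 2 ≤ C ∧ ∀ (A w z W N : ℕ) (S : Finset ℕ), Stp C A w z W N S →
    ∀ (κ : ℝ), 0 ≤ κ → ∀ r2 : ℤ,
    ∑ j ∈ Finset.Ico (-(2 * N : ℤ)) (2 * N), ∑ k ∈ Finset.Ico (-(N : ℤ)) N,
        ∑ t ∈ Finset.Ico (-(5 * N : ℤ)) (5 * N), κ ^ 4 * nu S W r2 (-j) k t ≤
      C * κ ^ 4 * (N : ℝ) ^ 3 := by
  obtain ⟨C1, hC1, hc1⟩ := nu_sum
  obtain ⟨C2, hC2, hc2⟩ := e0_two
  refine ⟨C1 * C2, by nlinarith, fun A w z W N S h κ hκ r2 => ?_⟩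
  have h1 := h.mono (show C1 ≤ C1 * C2 from Nat.le_mul_of_pos_right _ (by omega))
  have h2 := h.mono (show C2 ≤ C1 * C2 from Nat.le_mul_of_pos_left _ (by omega))
  calc _ ≤ ∑ j ∈ Finset.Ico (-(2 * N : ℤ)) (2 * N), ∑ k ∈ Finset.Ico (-(N : ℤ)) N,
        κ ^ 4 * (C1 * N * (1 + e0 S j k) ^ 2) := by
        apply Finset.sum_le_sum; intro j _
        apply Finset.sum_le_sum; intro k _
        rw [← Finset.mul_sum]
        apply mul_le_mul_of_nonneg_left _ (by positivity)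
        refine (hc1 A w z W N S h1 r2 (-j) k (-(5 * N)) (5 * N) (by omega) (by omega)).trans ?_
        rw [e0_neg]
        have := e0_nonneg S j k
        apply mul_le_mul_of_nonneg_left _ (by positivity)
        nlinarith
    _ = κ ^ 4 * (C1 * N) * ∑ j ∈ Finset.Ico (-(2 * N : ℤ)) (2 * N),
        ∑ k ∈ Finset.Ico (-(N : ℤ)) N, (1 + e0 S j k) ^ 2 := by
        simp only [Finset.mul_sum]
        apply Finset.sum_congr rfl; intro j _
        apply Finset.sum_congr rfl; intro k _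
        ring
    _ ≤ κ ^ 4 * (C1 * N) * (C2 * (N : ℝ) ^ 2) :=
        mul_le_mul_of_nonneg_left (hc2 A w z W N S h2) (by positivity)
    _ = _ := by
        push_cast
        ring

/-- Chunk TU3. Here `ω(x) = rho S (a1 x + b1) rho S (a2 x + b2) / SGp S (a1 b2 - a2 b1)`.
Let `a(x) = (ω(x) - 1) 1_{[0,N)}(x)`, `X = ∑_x a(x) |Γ(x)|^2`, `Γ` as in `tu2`. Expanding, with
`j = y' - y`, `g_j(y) = G(y) conj G(y+j)`:
`X = ∑_j ∑_{x,y} a(x) g_j(y) Δ_j f1(x+y) Δ_{-j} f2(x-y)`. Cauchy-Schwarz over `(j,y)`: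
`X^2 ≤ C N^2 Z`, `Z = ∑_{j,k} ∑_{x,y} a(x) a(x+k) Δ_kΔ_j f1(x+y) Δ_kΔ_{-j} f2(x-y)`
`= ∑_{j,k} ∑_{s,t} a_k(s+t) b(s) c(t)`, `s = x+y`, `t = x-y`, `a_k(2x) = a(x) a(x+k)` (0 at odd).
Two more Cauchy-Schwarz (first over `(j,k,t)` with weight `ν2`, then over `(j,k,s,s')` with weight
`ν1(s) ν1(s')`, `ν_i(t) = κ^4 ∏ (1 + ρ_i)` over the four shifts) give
`Z^4 ≤ C (κ^4 N^3)^2 (∑_{j,k,s,s'} ν1(s) ν1(s'))
        (∑_{j,k,s,s'} ν1(s) ν1(s') |∑_t ν2(t) a_k(s+t) a_k(s'+t)|^2)`.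
For fixed `j,k,s,s'` the sum over `t = s mod 2` is a sum of products of `4` single forms and `4`
pairs: `corr` shows that it is `≤ κ^4 N E(j,k,s,s')` (the main terms cancel because of the factors
`ω - 1`), `E` a combination of `er` and `Ers (9/10) S` of affine functions of `j,k,s,s'`. Finally
`∑ ν1(s) ν1(s') E^2 ≤ κ^8 er N^4`: `E^2` is at most a combination of `er` and of
`Ers (3/4) S (affine)` (`ers_sq_le`), and for each prime `p ∈ S`,
`∑_{j,k,s,s'} ν1(s) ν1(s') 1[p ∣ affine] ≤ C κ^8 N^4 p^(-1/2)` by `corrAP` if the affine function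
involves `s` or `s'`, by Cauchy-Schwarz and `corr0 4` if it involves `j, k` only. -/
theorem tu3 : ∃ C : ℕ, 1 ≤ C ∧ ∀ (A w z W N : ℕ) (S : Finset ℕ), C ≤ A → C ≤ w → 2 ≤ z →
    PSet w z S → IsW w W → z ^ (C * A) ≤ N → ∀ (r1 r2 : ℤ) (κ : ℝ) (f1 f2 G : ℤ → ℂ), 1 ≤ κ →
    Maj κ S W r1 f1 → SuppIn (-(2 * N)) (2 * N) f1 → Maj κ S W r2 f2 →
    SuppIn (-(2 * N)) (2 * N) f2 → (∀ y, ‖G y‖ ≤ 1) → SuppIn (-N) N G →
    ∀ (ε1 ε2 b1 b2 : ℤ), ε1 ≠ 0 → |ε1| ≤ 2 → ε2 ≠ 0 → |ε2| ≤ 2 →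
    |∑ x ∈ Finset.Ico (0 : ℤ) N,
      (rho S (ε1 * W * x + b1) * rho S (ε2 * W * x + b2) / SGp S (ε1 * W * b2 - ε2 * W * b1) - 1) *
      ‖∑ y ∈ Finset.Ico (-(N : ℤ)) N, G y * f1 (x + y) * f2 (x - y)‖ ^ 2| ≤
      C * κ ^ 4 * er C A w * N ^ 3 := by
  obtain ⟨C1, hC1, hc1⟩ := fac1
  obtain ⟨C2, hC2, hc2⟩ := fac2
  refine ⟨64 * C1 * C2, by nlinarith, fun A w z W N S hA hw hz hS hW hN r1 r2 κ f1 f2 G hκ
    hm1 hs1 hm2 hs2 hG hG' ε1 ε2 b1 b2 hε1 hε1' hε2 hε2' => ?_⟩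
  have h : Stp (64 * C1 * C2) A w z W N S := ⟨hA, hw, hz, hS, hW, hN⟩
  have l1 : C1 ≤ 64 * C1 * C2 := by nlinarith
  have l2 : C2 ≤ 64 * C1 * C2 := by nlinarith
  have l3 : 2 * (2 * C2) ≤ 64 * C1 * C2 := by nlinarith
  have hw1 : 1 ≤ w := h.w_pos (by nlinarith)
  have hκ0 : 0 ≤ κ := by linarith
  set ep : Bool → ℤ := fun c => if c then ε2 else ε1 with hep
  set bb : Bool → ℤ := fun c => if c then b2 else b1 with hbb
  have hepc : ∀ c, ep c ≠ 0 ∧ |ep c| ≤ 2 := by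
    intro c
    cases c
    · exact ⟨hε1, hε1'⟩
    · exact ⟨hε2, hε2'⟩
  have e1 : ∑ x ∈ Finset.Ico (0 : ℤ) N,
      (rho S (ε1 * W * x + b1) * rho S (ε2 * W * x + b2) / SGp S (ε1 * W * b2 - ε2 * W * b1) - 1) *
      ‖∑ y ∈ Finset.Ico (-(N : ℤ)) N, G y * f1 (x + y) * f2 (x - y)‖ ^ 2 =
      ∑ x ∈ Finset.Ico (0 : ℤ) N, dev S W N ep bb x *
      ‖∑ y ∈ Finset.Ico (-(N : ℤ)) N, G y * f1 (x + y) * f2 (x - y)‖ ^ 2 := by
    apply Finset.sum_congr rfl
    intro x hx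
    rw [Finset.mem_Ico] at hx
    unfold dev om
    rw [if_pos hx]
    simp [hep, hbb]
  have key := gvn N (dev S W N ep bb) (fun x hx => by
      unfold dev
      rw [if_neg]
      rwa [Finset.mem_Ico] at hx) f1 f2 G hs1 hs2 hG hG'
    (fun j k s => κ ^ 4 * nu S W r1 j k s) (fun j k t => κ ^ 4 * nu S W r2 (-j) k t)
    (fun j k s => maj_four hS.prime hκ0 hm1 j k s)
    (fun j k s => maj_four' hS.prime hκ0 hm2 j k s)
  rw [← e1] at key
  set X := ∑ x ∈ Finset.Ico (0 : ℤ) N,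
      (rho S (ε1 * W * x + b1) * rho S (ε2 * W * x + b2) / SGp S (ε1 * W * b2 - ε2 * W * b1) - 1) *
      ‖∑ y ∈ Finset.Ico (-(N : ℤ)) N, G y * f1 (x + y) * f2 (x - y)‖ ^ 2 with hX
  have F1 := hc1 A w z W N S (h.mono l1) κ hκ0 r2
  have F2 := hc2 A w z W N S (h.mono l2) κ ep bb hκ0 hepc r1 r2
  have hnu : ∀ r j k s, 0 ≤ nu S W r j k s := fun r j k s => nu_nonneg h.hS.prime W r j k s
  have her : er C2 A w ≤ er (64 * C1 * C2) A w ^ 4 := by
    calc er C2 A w ≤ er (2 * C2) A w ^ 2 := er_le_sq (by omega) A w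
      _ ≤ (er (2 * (2 * C2)) A w ^ 2) ^ 2 :=
        pow_le_pow_left₀ (er_nonneg _ _ _) (er_le_sq (by omega) A w) 2
      _ = er (2 * (2 * C2)) A w ^ 4 := by ring
      _ ≤ er (64 * C1 * C2) A w ^ 4 :=
        pow_le_pow_left₀ (er_nonneg _ _ _) (er_mono (by omega) l3 A hw1) 4
  set ε := er (64 * C1 * C2) A w with hε
  have hε0 : 0 ≤ ε := er_nonneg _ _ _
  have e0 := er_nonneg C2 A w
  apply (pow_le_pow_iff_left₀ (abs_nonneg X) (by positivity) four_ne_zero).mp
  have habs : |X| ^ 4 = X ^ 4 := by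
    rw [← abs_pow, abs_of_nonneg (by positivity)]
  rw [habs]
  have hCC : (64 : ℝ) * C1 * C2 ≤ ((64 * C1 * C2 : ℕ) : ℝ) ^ 4 := by
    have : (1 : ℝ) ≤ ((64 * C1 * C2 : ℕ) : ℝ) := by
      exact_mod_cast (by nlinarith : 1 ≤ 64 * C1 * C2)
    calc (64 : ℝ) * C1 * C2 = ((64 * C1 * C2 : ℕ) : ℝ) := by push_cast; ring
      _ = ((64 * C1 * C2 : ℕ) : ℝ) ^ 1 := (pow_one _).symm
      _ ≤ _ := pow_le_pow_right₀ this (by norm_num)
  calc X ^ 4 ≤ _ := key
    _ ≤ 64 * (N : ℝ) ^ 4 * (C1 * κ ^ 4 * (N : ℝ) ^ 3) * (C2 * κ ^ 12 * (N : ℝ) ^ 5 * er C2 A w) := by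
      apply mul_le_mul _ F2 _ (by positivity)
      · exact mul_le_mul_of_nonneg_left F1 (by positivity)
      · apply Finset.sum_nonneg; intro j _
        apply Finset.sum_nonneg; intro k _
        apply Finset.sum_nonneg; intro l _
        apply Finset.sum_nonneg; intro s _
        have := hnu r1 j k s
        have := hnu r1 j k (s + 2 * l)
        positivity
    _ = (64 * C1 * C2) * (κ ^ 16 * (N : ℝ) ^ 12) * er C2 A w := by ring
    _ ≤ ((64 * C1 * C2 : ℕ) : ℝ) ^ 4 * (κ ^ 16 * (N : ℝ) ^ 12) * ε ^ 4 := by gcongr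
    _ = _ := by ring

end Pool.Agent.Lib.H18GB
end

-- from Lib.H57T.Defs
section

/-!
# Project H57T (MP_f686a1_nt): Chen's theorem with Maynard-Tao tuples, uniformly in the shifts. Definitions

See `PROOF.md` in this folder. The shifts `h ∈ H` and the target shift `a` may be as large as `N/100`; the primes of the
weight do not divide the differences of the elements of `H ∪ {a}`.
-/

open Finset

namespace Pool.Agent.Lib.H57T

open Pool.Agent.Lib.H15P Pool.Agent.Lib.H92G Pool.Agent.Lib.H57M Pool.Agent.Lib.H57C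
open Pool.Agent.Lib.H59C (Sq lg XX gq VV PR zz yy Tri BX wB remd sift)

noncomputable section

/-! ## The transfer theorem -/

open Classical in
/-- The hypotheses of the transfer theorem. `P`: the primes of the weight, `H`: the shifts, `i`: the form which is left
out, `R`: the bad classes modulo the primes `≤ W`, `T`: the target classes modulo the primes in `P'`. -/
structure Hy {ι : Type} (s : Seq ι) (P H : Finset ℕ) (i : Option ℕ) (W p1 : ℕ)
    (R T : ℕ → Finset ℕ) (P' : Finset ℕ) (k b : ℕ) : Prop where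
  w0 : ∀ j ∈ s.S, 0 ≤ s.wt j
  X0 : 0 ≤ s.X
  al : ∀ q c c' : ℕ, c ≡ c' [MOD q] → (s.Al q c ↔ s.Al q c')
  nev : ∀ j ∈ s.S, s.wt j ≠ 0 → ∀ q : ℕ, q.Prime → (q ∈ P ∨ (q ≤ W ∧ q ≠ p1)) → s.Al q (s.x j)
  hd0 : ∀ q : ℕ, q.Prime → 0 ≤ s.hd q
  hd2 : ∀ q : ℕ, q.Prime → s.hd q ≤ 2 / q
  hdq : ∀ q : ℕ, q.Prime → W < q → |s.hd q - 1 / q| ≤ 2 / (q : ℝ) ^ 2
  Pp : ∀ p ∈ P, p.Prime ∧ W < p
  p1p : p1.Prime
  p1W : p1 ≤ W
  HD : ∀ p ∈ P, ∀ h ∈ H, ∀ h' ∈ H, h ≠ h' → ¬ h ≡ h' [MOD p]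
  iH : ∀ h, i = some h → h ∈ H
  Rr : ∀ q, R q ⊆ range q
  Rk : ∀ q ∈ Ps W p1, (R q).card ≤ k
  R1 : ∀ q ∈ Ps W p1, (((R q).filter (fun c => s.Al q c)).card : ℝ) * s.hd q ≤ 1
  P'p : ∀ q ∈ P', q.Prime ∧ W < q
  Tr : ∀ q ∈ P', T q ⊆ range q
  Tk : ∀ q ∈ P', (T q).card ≤ k
  TA : ∀ q ∈ P', ∀ t ∈ T q, s.Al q t
  TH : ∀ q ∈ P', ∀ t ∈ T q, ∀ h ∈ H, i ≠ some h → ¬ q ∣ t + h
  bad : (P.filter (fun p => ∃ h ∈ H, i ≠ some h ∧ ∃ c : ℕ, p ∣ c + h ∧ ¬ s.Al p c)).card ≤ b

/-- What is assumed about the weight (all shifts at most `n/100`, no prime of the weight divides a difference). -/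
structure Pre0 (B cF : ℕ) (θ : ℝ) {K : ℕ} (w : Par K) (H : Finset ℕ) (n p1 : ℕ) : Prop where
  cardH : H.card = K
  HN : ∀ h ∈ H, 100 * h ≤ n
  HD : ∀ p ∈ w.P, ∀ h ∈ H, ∀ h' ∈ H, h ≠ h' → ¬ h ≡ h' [MOD p]
  Wdef : w.W = ⌈Real.log n ^ B⌉₊
  PN : ∀ p ∈ w.P, (p : ℝ) ≤ (n : ℝ) ^ (1 / 100 : ℝ)
  p1p : p1.Prime
  p1W : p1 ≤ w.W
  exF : ExJ w.P (FC w H) (Real.log n ^ cF) 3 ((n : ℝ) ^ (2 * θ))

/-! ## The concrete situation: the target is `t + a` -/

/-- The bad classes modulo `q`: `q ∣ t + h` for some `h ∈ H`, or `q ∣ t + a`. -/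
def Rb (a : ℕ) (H : Finset ℕ) (q : ℕ) : Finset ℕ :=
  (range q).filter (fun c => (∃ h ∈ H, q ∣ c + h) ∨ q ∣ c + a)

/-- The target class modulo `q`. -/
def Tg (a q : ℕ) : Finset ℕ := (range q).filter (fun c => q ∣ c + a)

/-- The good primes in `(W, N]`: they divide no difference of different elements of `H ∪ {a}`. -/
def Pg (N W : ℕ) (H : Finset ℕ) (a : ℕ) : Finset ℕ :=
  (Ioc W N).filter (fun q => q.Prime ∧ (∀ h ∈ H, ¬ a ≡ h [MOD q]) ∧
    ∀ h ∈ H, ∀ h' ∈ H, h ≠ h' → ¬ h ≡ h' [MOD q])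

/-- The weight with the condition that no prime `≤ W`, `≠ p1`, divides `(t + a) ∏ (t + h)`. -/
def Fs {K : ℕ} (w : Par K) (H : Finset ℕ) (a p1 : ℕ) (i : Option ℕ) (t : ℕ) : ℝ :=
  FF w H i t * Sg (Ps w.W p1) (Rb a H) t

/-- Small primes, integers. -/
def Va (a W p1 : ℕ) (H : Finset ℕ) : ℝ := ∏ q ∈ Ps W p1, (1 - ((Rb a H q).card : ℝ) / q)

/-- Small primes, the sequences without the classes `0` (`t + h` prime, `t + a = q1 q2 q3`). -/
def Vb (a W p1 : ℕ) (H : Finset ℕ) : ℝ :=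
  Va a W p1 H * ∏ q ∈ Ps W p1, ((q : ℝ) / ((q : ℝ) - 1))

/-- The value of the switched sequence: congruent to `m q - a` modulo all `d ≤ N`. -/
def xv (N a : ℕ) (x : ℕ × ℕ) : ℕ := x.1 * x.2 + (N.factorial - 1) * a

/-- The total weight of the `t` with `t + h` prime. -/
def Xh {K : ℕ} (w : Par K) (H : Finset ℕ) (N a p1 h : ℕ) : ℝ :=
  XX (Ya N + h) (Yb N + h) * (AE w.P H (some h) (FC w H) * Vb a w.W p1 H)

/-- The total weight of the integers. -/
def Xi {K : ℕ} (w : Par K) (H : Finset ℕ) (N a p1 : ℕ) : ℝ :=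
  ((Yb N : ℝ) - Ya N) * (AE w.P H none (FC w H) * Va a w.W p1 H)

/-- The switched sequence. -/
def sC (N a M u v : ℕ) (α : ℕ → ℝ) : Seq (ℕ × ℕ) where
  S := BX M u v
  wt := wB α
  x := xv N a
  X := H59C.XB M u v α
  hd := gq
  Al := fun q c => ¬ q ∣ c + a

/-- The value of the target if `p = t + h`. -/
def tv (a h p : ℕ) : ℕ := p - h + a

/-- What is assumed about the parameters. -/
structure Pre (B cF : ℕ) (θ : ℝ) {K : ℕ} (w : Par K) (H : Finset ℕ) (N a p1 : ℕ) : Prop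
    extends Pre0 B cF θ w H N p1 where
  aN : 100 * a ≤ N
  aH : a ∉ H
  aD : ∀ p ∈ w.P, ∀ h ∈ H, ¬ a ≡ h [MOD p]
  even : ∀ h ∈ H, 2 ∣ a + h
  nf : ∀ q : ℕ, q.Prime → (Rb a H q).card < q

open Classical in
/-- Everything that is needed for the sieve. -/
structure Reg (B cF : ℕ) (θ G : ℝ) {K : ℕ} (w : Par K) (H : Finset ℕ) (N a p1 : ℕ) : Prop
    extends Pre B cF θ w H N a p1 where
  aen0 : 0 ≤ AE w.P H none (FC w H)
  aen : AE w.P H none (FC w H) ≤ 11 / 10
  aes : ∀ h ∈ H, 36 / 100 * (1 + w.n * w.c) ^ 2 ≤ AE w.P H (some h) (FC w H)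
  gain : G * Real.log N ≤ K * (1 + w.n * w.c) ^ 2 * Real.log w.W
  remB : ∀ h ∈ H, ∑ d ∈ Dv (Pg N w.W H a) (Lv N θ),
    |∑ p ∈ (Sq (Ya N + h) (Yb N + h)).filter (fun p => d ∣ tv a h p),
        lg p * Fs w H a p1 (some h) (p - h) -
      Xh w H N a p1 h / (Nat.totient d : ℝ)| ≤ N / Real.log N ^ 10
  remC : ∀ h ∈ H, ∀ (M u v : ℕ) (α : ℕ → ℝ), (∀ m, 0 ≤ α m ∧ α m ≤ 1) →
    (∀ m, α m ≠ 0 → ∀ r : ℕ, r.Prime → r ∣ m → (N : ℝ) ^ (1 / 10 : ℝ) ≤ r) →
    (N : ℝ) ^ (1 / 4 : ℝ) ≤ M → (N : ℝ) ^ (1 / 4 : ℝ) ≤ u → u ≤ v → M * v ≤ 8 * N → ∀ z : ℝ,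
    remd (BX M u v) (fun x => wB α x * Fs w H a p1 (some h) (xv N a x)) (fun x => xv N a x + h)
      (Pg N w.W H a) z (H59C.XB M u v α * (AE w.P H (some h) (FC w H) * Vb a w.W p1 H)) (Lv N θ) ≤
      N / Real.log N ^ 10
  remI : ∑ d ∈ Dv (Pg N w.W H a) (Lv N θ),
    |∑ t ∈ (Ioc (Ya N) (Yb N)).filter (fun t => d ∣ t + a), Fs w H a p1 none t -
      Xi w H N a p1 / (Nat.totient d : ℝ)| ≤ N / Real.log N ^ 10
  remJ : ∀ h ∈ H, ∑ d ∈ Dv (Pg N w.W H a) (Lv N θ),
    |∑ t ∈ (Ioc (Ya N) (Yb N)).filter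
        (fun t => p1 ∣ t + a ∧ ∀ q ∈ d.primeFactors, q ∣ t + a ∨ q ∣ t + h),
        Fs w H a p1 (some h) t -
      ((Yb N : ℝ) - Ya N) / p1 * (AE w.P H (some h) (FC w H) * Va a w.W p1 H) *
        ((2 : ℝ) ^ d.primeFactors.card / d)| ≤ N / Real.log N ^ 10
  cls : ∀ h ∈ H, ∀ r c : ℕ, (r.Prime ∨ ∀ p ∈ w.P, r.Coprime p) → 1 ≤ r →
    ∑ t ∈ (Ioc (Ya N) (Yb N)).filter (fun t => t ≡ c [MOD r]), FF w H (some h) t ≤
      Real.log N ^ B * (N / r) / Real.log N ^ 20 + (N : ℝ) ^ (1 / 20 : ℝ)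
  mom : ∑ t ∈ Icc 1 N, FF w H none t ^ 2 ≤ Real.log N ^ B * N

/-! ## Definitions for the weighted sieve -/

section

variable {K : ℕ} (w : Par K) (H : Finset ℕ) (N a p1 h : ℕ)

/-- The weight of the prime `p = t + h`. -/
def wh (p : ℕ) : ℝ := lg p * Fs w H a p1 (some h) (p - h)

/-- `V(z)` -/
def Vz (N W : ℕ) (H : Finset ℕ) (a : ℕ) : ℝ := VV (Pg N W H a) (zz N)

/-- The bad primes in `(W, N]`: they divide some difference of different elements of `H ∪ {a}`. -/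
def Bd (N W : ℕ) (H : Finset ℕ) (a : ℕ) : Finset ℕ :=
  (Ioc W N).filter (fun q => q.Prime ∧ ((∃ h ∈ H, a ≡ h [MOD q]) ∨
    ∃ h ∈ H, ∃ h' ∈ H, h ≠ h' ∧ h ≡ h' [MOD q]))

/-- The primes with weights. -/
def Qc (N W : ℕ) (H : Finset ℕ) (a : ℕ) : Finset ℕ :=
  (PR (zz N) (yy N)).filter (fun q => q ∈ Pg N W H a)

/-- The first sum. -/
def S1s : ℝ := sift (Sh N h) (wh w H a p1 h) (fun p => tv a h p) (Pg N w.W H a) (zz N)

/-- The second sum. -/
def S2s : ℝ := ∑ q ∈ Qc N w.W H a, sift ((Sh N h).filter (fun p => q ∣ tv a h p))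
  (wh w H a p1 h) (fun p => tv a h p) (Pg N w.W H a) (zz N)

open Classical in
/-- The third sum. -/
def S3s : ℝ := ∑ p ∈ (Sh N h).filter (fun p => Tri N (tv a h p)), wh w H a p1 h p

open Classical in
/-- Exceptional: `p1` divides `t + a`. -/
def E1s : ℝ := ∑ p ∈ (Sh N h).filter (fun p => p1 ∣ tv a h p ∧
  ∀ q ∈ Pg N w.W H a, (q : ℝ) < zz N → ¬ q ∣ tv a h p), wh w H a p1 h p

/-- Exceptional: a bad prime divides `t + a`. -/
def E2s : ℝ := ∑ q ∈ Bd N w.W H a, ∑ p ∈ (Sh N h).filter (fun p => q ∣ tv a h p),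
  wh w H a p1 h p

open Classical in
/-- Exceptional: squares. -/
def E3s : ℝ := ∑ p ∈ (Sh N h).filter
  (fun p => ∃ q : ℕ, q.Prime ∧ zz N ≤ q ∧ q ^ 2 ∣ tv a h p), wh w H a p1 h p

/-- The negative part. -/
def Ns : ℝ := sift (Ioc (Ya N) (Yb N)) (Fs w H a p1 none) (fun t => t + a) (Pg N w.W H a) (zz N)

/-- The whole weighted sum. -/
def Tt (g : ℕ) : ℝ :=
  ∑ h ∈ H, (S1s w H N a p1 h - 1 / 2 * S2s w H N a p1 h - 1 / 2 * S3s w H N a p1 h -
    E1s w H N a p1 h - E2s w H N a p1 h - E3s w H N a p1 h) - ((g : ℝ) - 1) * Real.log (2 * N) *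
    Ns w H N a p1

open Classical in
/-- The good `t` in the window. -/
def Gd (H : Finset ℕ) (N a g : ℕ) : Finset ℕ :=
  (Ioc (Ya N) (Yb N)).filter (fun t => g ≤ (H.filter (fun h => (t + h).Prime)).card ∧
    AP2 N (t + a))

end

theorem Pre.to0 {B cF : ℕ} {θ : ℝ} {K : ℕ} {w : Par K} {H : Finset ℕ} {N a p1 : ℕ}
    (h : Pre B cF θ w H N a p1) : Pre0 B cF θ w H N p1 := h.toPre0

theorem Va_eq (a W p1 : ℕ) (H : Finset ℕ) : Va a W p1 H = VaR (Ps W p1) (Rb a H) := rfl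

theorem Vb_eq (a W p1 : ℕ) (H : Finset ℕ) : Vb a W p1 H = VbR (Ps W p1) (Rb a H) := rfl


end

end Pool.Agent.Lib.H57T
end

-- from Lib.H18GB2.GVN2
section

/-!
# Project GB2: GVN2 (generalised von Neumann inequality, pure Cauchy-Schwarz)
-/

namespace Pool.Agent.Lib.H18GB

open Finset

/-- cut-off of a function of `(x, x', y, y')`, in the variables `j = y' - y`, `k = x' - x` -/
noncomputable def ecut (N : ℕ) (E : ℤ → ℤ → ℤ → ℤ → ℝ) (j k x y : ℤ) : ℝ :=
  if (0 ≤ x ∧ x < N) ∧ (0 ≤ x + k ∧ x + k < N) ∧ (0 ≤ y ∧ y < N) ∧ (0 ≤ y + j ∧ y + j < N) then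
    E x (x + k) y (y + j) else 0

private theorem gvn2_reindex {f : ℤ → ℝ} {I J : Finset ℤ} (e : ℤ ≃ ℤ) (hJ : ∀ m, m ∉ J → f m = 0)
    (hI : ∀ m ∈ J, e.symm m ∈ I) : ∑ i ∈ I, f (e i) = ∑ m ∈ J, f m := by
  have h1 : ∑ i ∈ I, f (e i) = ∑ m ∈ I.map e.toEmbedding, f m := by
    rw [Finset.sum_map]
    rfl
  rw [h1]
  symm
  apply Finset.sum_subset
  · intro m hm
    rw [Finset.mem_map]
    exact ⟨e.symm m, hI m hm, by simp⟩
  · intro m _ hm
    exact hJ m hm

private theorem gvn2_shift {f : ℤ → ℝ} {I J : Finset ℤ} (x : ℤ) (hJ : ∀ m, m ∉ J → f m = 0)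
    (hI : ∀ m ∈ J, m - x ∈ I) : ∑ i ∈ I, f (x + i) = ∑ m ∈ J, f m := by
  apply gvn2_reindex (f := f) (Equiv.addLeft x) hJ
  intro m hm
  have h := hI m hm
  simp only [Equiv.addLeft_symm_apply]
  rwa [neg_add_eq_sub]

private theorem gvn2_reflect {f : ℤ → ℝ} {I J : Finset ℤ} (x : ℤ) (hJ : ∀ m, m ∉ J → f m = 0)
    (hI : ∀ m ∈ J, x - m ∈ I) : ∑ i ∈ I, f (x - i) = ∑ m ∈ J, f m := by
  apply gvn2_reindex (f := f) (Equiv.subLeft x) hJ
  intro m hm
  have := hI m hm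
  simpa [Equiv.subLeft_symm_apply, add_comm, sub_eq_add_neg] using this

/-- replace the second variable of a double sum by a shift -/
private theorem gvn2_sh {N : ℕ} {L : ℤ} (hL : (N : ℤ) ≤ L) (x : ℤ) (hx : x ∈ Finset.Ico (0 : ℤ) N)
    (h : ℤ → ℝ) :
    ∑ x' ∈ Finset.Ico (0 : ℤ) N, h x' =
      ∑ k ∈ Finset.Ico (-L) L, if 0 ≤ x + k ∧ x + k < N then h (x + k) else 0 := by
  have h1 := gvn2_shift (f := fun m => if 0 ≤ m ∧ m < (N : ℤ) then h m else 0)
    (I := Finset.Ico (-L) L) (J := Finset.Ico (0 : ℤ) N) x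
    (fun m hm => by
      rw [Finset.mem_Ico] at hm
      rw [if_neg hm])
    (fun m hm => by
      rw [Finset.mem_Ico] at hm hx ⊢
      omega)
  rw [h1]
  apply Finset.sum_congr rfl
  intro m hm
  rw [Finset.mem_Ico] at hm
  rw [if_pos hm]

/-- Chunk GVN2. With `F1(s) = P0(s) P1(s+j) P2(s+k) P3(s+k+j)`,
`F2(t) = Q0(t) Q1(t-j) Q2(t+k) Q3(t+k-j)` the sum is
`∑_{j,k} ∑_{x,y} ecut(j,k,x,y) F1(x+y) F2(x-y) = ∑_{j,k,t} F2(t) ∑_x ecut(j,k,x,x-t) F1(2x-t)`.
Cauchy-Schwarz over `(j,k,t)` with weight `M2`; expand the square, `x' = x + l`, `s = 2x - t`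
(compare `gvnB`, `gvnD`, `gvn` in `TU3GvN.lean`). -/
theorem gvn2 (N : ℕ) (E : ℤ → ℤ → ℤ → ℤ → ℝ) (P Q : Fin 4 → ℤ → ℝ) (M1 M2 : ℤ → ℤ → ℤ → ℝ)
    (hP : ∀ i n, n ∉ Finset.Ico (-(2 * N : ℤ)) (2 * N) → P i n = 0)
    (hQ : ∀ i n, n ∉ Finset.Ico (-(2 * N : ℤ)) (2 * N) → Q i n = 0)
    (h1 : ∀ j k s, |P 0 s| * |P 1 (s + j)| * (|P 2 (s + k)| * |P 3 (s + k + j)|) ≤ M1 j k s)
    (h2 : ∀ j k t, |Q 0 t| * |Q 1 (t - j)| * (|Q 2 (t + k)| * |Q 3 (t + k - j)|) ≤ M2 j k t) :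
    (∑ x ∈ Finset.Ico (0 : ℤ) N, ∑ x' ∈ Finset.Ico (0 : ℤ) N, ∑ y ∈ Finset.Ico (0 : ℤ) N,
      ∑ y' ∈ Finset.Ico (0 : ℤ) N, E x x' y y' *
        ((P 0 (x + y) * Q 0 (x - y) * (P 1 (x + y') * Q 1 (x - y'))) *
          (P 2 (x' + y) * Q 2 (x' - y) * (P 3 (x' + y') * Q 3 (x' - y'))))) ^ 2 ≤
    (∑ j ∈ Finset.Ico (-(2 * N : ℤ)) (2 * N), ∑ k ∈ Finset.Ico (-(N : ℤ)) N,
      ∑ t ∈ Finset.Ico (-(5 * N : ℤ)) (5 * N), M2 j k t) *
    (∑ j ∈ Finset.Ico (-(2 * N : ℤ)) (2 * N), ∑ k ∈ Finset.Ico (-(N : ℤ)) N,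
      ∑ l ∈ Finset.Ico (-(N : ℤ)) N, ∑ s ∈ Finset.Ico (-(2 * N : ℤ)) (2 * N),
        M1 j k s * M1 j k (s + 2 * l) *
        |∑ x ∈ Finset.Ico (0 : ℤ) N, ecut N E j k x (s - x) * ecut N E j k (x + l) (s - x + l) *
          M2 j k (2 * x - s)|) := by
  set J := Finset.Ico (-(2 * N : ℤ)) (2 * N) with hJ
  set K := Finset.Ico (-(N : ℤ)) N with hK
  set T := Finset.Ico (-(5 * N : ℤ)) (5 * N) with hT
  set I := Finset.Ico (0 : ℤ) N with hI
  have hM2 : ∀ j k t, 0 ≤ M2 j k t := fun j k t =>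
    (mul_nonneg (mul_nonneg (abs_nonneg _) (abs_nonneg _))
      (mul_nonneg (abs_nonneg _) (abs_nonneg _))).trans (h2 j k t)
  set F1 : ℤ → ℤ → ℤ → ℝ := fun j k s => P 0 s * P 1 (s + j) * (P 2 (s + k) * P 3 (s + k + j))
    with hF1
  set F2 : ℤ → ℤ → ℤ → ℝ := fun j k t => Q 0 t * Q 1 (t - j) * (Q 2 (t + k) * Q 3 (t + k - j))
    with hF2
  have hF1b : ∀ j k s, |F1 j k s| ≤ M1 j k s := by
    intro j k s
    refine le_trans (le_of_eq ?_) (h1 j k s)
    simp only [hF1, abs_mul]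
  have hF2b : ∀ j k s, |F2 j k s| ≤ M2 j k s := by
    intro j k s
    refine le_trans (le_of_eq ?_) (h2 j k s)
    simp only [hF2, abs_mul]
  set Φ : ℤ → ℤ → ℤ → ℝ := fun j k t => ∑ x ∈ I, ecut N E j k x (x - t) * F1 j k (2 * x - t)
    with hΦ
  -- step 1: change of variables
  have s1 : (∑ x ∈ I, ∑ x' ∈ I, ∑ y ∈ I,
      ∑ y' ∈ I, E x x' y y' *
        ((P 0 (x + y) * Q 0 (x - y) * (P 1 (x + y') * Q 1 (x - y'))) *
          (P 2 (x' + y) * Q 2 (x' - y) * (P 3 (x' + y') * Q 3 (x' - y'))))) =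
      ∑ q ∈ J ×ˢ (K ×ˢ T), F2 q.1 q.2.1 q.2.2 * Φ q.1 q.2.1 q.2.2 := by
    calc _ = ∑ x ∈ I, ∑ k ∈ K, ∑ y ∈ I, ∑ j ∈ J,
          ecut N E j k x y * (F1 j k (x + y) * F2 j k (x - y)) := by
          apply Finset.sum_congr rfl
          intro x hx
          rw [hI, gvn2_sh (L := (N : ℤ)) le_rfl x hx]
          apply Finset.sum_congr rfl
          intro k _
          by_cases hk : 0 ≤ x + k ∧ x + k < (N : ℤ)
          · rw [if_pos hk]
            apply Finset.sum_congr rfl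
            intro y hy
            rw [gvn2_sh (L := 2 * (N : ℤ)) (by omega) y hy]
            apply Finset.sum_congr rfl
            intro j _
            by_cases hj : 0 ≤ y + j ∧ y + j < (N : ℤ)
            · have hx' := Finset.mem_Ico.1 hx
              have hy' := Finset.mem_Ico.1 hy
              rw [if_pos hj]
              unfold ecut
              rw [if_pos ⟨hx', hk, hy', hj⟩]
              simp only [hF1, hF2]
              rw [show x + (y + j) = x + y + j by ring, show x - (y + j) = x - y - j by ring,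
                show x + k + y = x + y + k by ring, show x + k - y = x - y + k by ring,
                show x + k + (y + j) = x + y + k + j by ring,
                show x + k - (y + j) = x - y + k - j by ring]
              ring
            · rw [if_neg hj]
              unfold ecut
              rw [if_neg (fun h => hj h.2.2.2)]
              ring
          · rw [if_neg hk]
            symm
            apply Finset.sum_eq_zero
            intro y _
            apply Finset.sum_eq_zero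
            intro j _
            unfold ecut
            rw [if_neg (fun h => hk h.2.1)]
            ring
      _ = ∑ j ∈ J, ∑ k ∈ K, ∑ x ∈ I, ∑ y ∈ I,
          ecut N E j k x y * (F1 j k (x + y) * F2 j k (x - y)) := by
          rw [Finset.sum_comm]
          rw [Finset.sum_comm (s := J)]
          apply Finset.sum_congr rfl
          intro k _
          rw [Finset.sum_comm (s := J)]
          apply Finset.sum_congr rfl
          intro x _
          rw [Finset.sum_comm]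
      _ = ∑ j ∈ J, ∑ k ∈ K, ∑ x ∈ I, ∑ t ∈ T,
          ecut N E j k x (x - t) * (F1 j k (2 * x - t) * F2 j k t) := by
          apply Finset.sum_congr rfl
          intro j _
          apply Finset.sum_congr rfl
          intro k _
          apply Finset.sum_congr rfl
          intro x hx
          have h3 := gvn2_reflect (f := fun y => ecut N E j k x y *
            (F1 j k (x + y) * F2 j k (x - y))) (I := T) (J := I) x
            (fun m hm => by
              unfold ecut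
              rw [if_neg, zero_mul]
              intro h
              exact hm (Finset.mem_Ico.2 h.2.2.1))
            (fun m hm => by
              rw [hI, Finset.mem_Ico] at hm hx
              rw [hT, Finset.mem_Ico]
              omega)
          rw [← h3]
          apply Finset.sum_congr rfl
          intro t _
          rw [show x + (x - t) = 2 * x - t by ring, show x - (x - t) = t by ring]
      _ = _ := by
          rw [Finset.sum_product]
          apply Finset.sum_congr rfl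
          intro j _
          rw [Finset.sum_product]
          apply Finset.sum_congr rfl
          intro k _
          rw [Finset.sum_comm]
          apply Finset.sum_congr rfl
          intro t _
          simp only [hΦ]
          rw [Finset.mul_sum]
          apply Finset.sum_congr rfl
          intro x _
          ring
  -- step 2: Cauchy-Schwarz
  have s2 : (∑ q ∈ J ×ˢ (K ×ˢ T), F2 q.1 q.2.1 q.2.2 * Φ q.1 q.2.1 q.2.2) ^ 2 ≤
      (∑ q ∈ J ×ˢ (K ×ˢ T), M2 q.1 q.2.1 q.2.2) *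
      ∑ q ∈ J ×ˢ (K ×ˢ T), M2 q.1 q.2.1 q.2.2 * Φ q.1 q.2.1 q.2.2 ^ 2 := by
    have a1 : |∑ q ∈ J ×ˢ (K ×ˢ T), F2 q.1 q.2.1 q.2.2 * Φ q.1 q.2.1 q.2.2| ≤
        ∑ q ∈ J ×ˢ (K ×ˢ T), M2 q.1 q.2.1 q.2.2 * |Φ q.1 q.2.1 q.2.2| := by
      refine (Finset.abs_sum_le_sum_abs _ _).trans (Finset.sum_le_sum fun q _ => ?_)
      rw [abs_mul]
      exact mul_le_mul_of_nonneg_right (hF2b _ _ _) (abs_nonneg _)
    have a2 : (∑ q ∈ J ×ˢ (K ×ˢ T), F2 q.1 q.2.1 q.2.2 * Φ q.1 q.2.1 q.2.2) ^ 2 ≤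
        (∑ q ∈ J ×ˢ (K ×ˢ T), M2 q.1 q.2.1 q.2.2 * |Φ q.1 q.2.1 q.2.2|) ^ 2 := by
      rw [← sq_abs (∑ q ∈ J ×ˢ (K ×ˢ T), F2 q.1 q.2.1 q.2.2 * Φ q.1 q.2.1 q.2.2)]
      exact pow_le_pow_left₀ (abs_nonneg _) a1 2
    refine a2.trans ?_
    apply Finset.sum_sq_le_sum_mul_sum_of_sq_le_mul
    · intro q _
      exact hM2 _ _ _
    · intro q _
      exact mul_nonneg (hM2 _ _ _) (sq_nonneg _)
    · intro q _
      apply le_of_eq
      rw [mul_pow, sq_abs]
      ring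
  -- step 3: expand the square
  have s3 : ∀ j k, ∑ t ∈ T, M2 j k t * Φ j k t ^ 2 ≤
      ∑ l ∈ K, ∑ s ∈ J, M1 j k s * M1 j k (s + 2 * l) *
        |∑ x ∈ I, ecut N E j k x (s - x) * ecut N E j k (x + l) (s - x + l) *
          M2 j k (2 * x - s)| := by
    intro j k
    have key : ∑ t ∈ T, M2 j k t * Φ j k t ^ 2 = ∑ l ∈ K, ∑ s ∈ J,
        (F1 j k s * F1 j k (s + 2 * l)) *
          ∑ x ∈ I, ecut N E j k x (s - x) * ecut N E j k (x + l) (s - x + l) *
            M2 j k (2 * x - s) := by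
      calc ∑ t ∈ T, M2 j k t * Φ j k t ^ 2 = ∑ t ∈ T, M2 j k t *
            ∑ x ∈ I, ∑ x' ∈ I, (ecut N E j k x (x - t) * F1 j k (2 * x - t)) *
              (ecut N E j k x' (x' - t) * F1 j k (2 * x' - t)) := by
            apply Finset.sum_congr rfl
            intro t _
            simp only [hΦ]
            rw [sq, Finset.sum_mul_sum]
        _ = ∑ t ∈ T, M2 j k t *
            ∑ x ∈ I, ∑ l ∈ K, (ecut N E j k x (x - t) * F1 j k (2 * x - t)) *
              (ecut N E j k (x + l) (x + l - t) * F1 j k (2 * (x + l) - t)) := by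
            apply Finset.sum_congr rfl
            intro t _
            congr 1
            apply Finset.sum_congr rfl
            intro x hx
            rw [hI, gvn2_sh (L := (N : ℤ)) le_rfl x hx]
            apply Finset.sum_congr rfl
            intro l _
            by_cases hl : 0 ≤ x + l ∧ x + l < (N : ℤ)
            · rw [if_pos hl]
            · rw [if_neg hl]
              have : ecut N E j k (x + l) (x + l - t) = 0 := by
                unfold ecut
                rw [if_neg (fun h => hl h.1)]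
              rw [this]
              ring
        _ = ∑ l ∈ K, ∑ x ∈ I, ∑ t ∈ T, M2 j k t *
            ((ecut N E j k x (x - t) * F1 j k (2 * x - t)) *
              (ecut N E j k (x + l) (x + l - t) * F1 j k (2 * (x + l) - t))) := by
            simp only [Finset.mul_sum]
            rw [Finset.sum_comm]
            rw [Finset.sum_comm (s := K)]
            apply Finset.sum_congr rfl
            intro x _
            rw [Finset.sum_comm]
        _ = ∑ l ∈ K, ∑ x ∈ I, ∑ s ∈ J, M2 j k (2 * x - s) *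
            ((ecut N E j k x (s - x) * F1 j k s) *
              (ecut N E j k (x + l) (s - x + l) * F1 j k (s + 2 * l))) := by
            apply Finset.sum_congr rfl
            intro l _
            apply Finset.sum_congr rfl
            intro x hx
            have h3 := gvn2_reflect (f := fun s => M2 j k (2 * x - s) *
              ((ecut N E j k x (s - x) * F1 j k s) *
              (ecut N E j k (x + l) (s - x + l) * F1 j k (s + 2 * l)))) (I := T) (J := J) (2 * x)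
              (fun m hm => by
                have : F1 j k m = 0 := by
                  simp only [hF1]
                  rw [hP 0 m hm]
                  ring
                rw [this]
                ring)
              (fun m hm => by
                rw [hI, Finset.mem_Ico] at hx
                rw [hJ, Finset.mem_Ico] at hm
                rw [hT, Finset.mem_Ico]
                omega)
            rw [← h3]
            apply Finset.sum_congr rfl
            intro t _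
            rw [show 2 * x - (2 * x - t) = t by ring, show 2 * x - t - x = x - t by ring,
              show x - t + l = x + l - t by ring, show 2 * (x + l) - t = 2 * x - t + 2 * l by ring]
        _ = _ := by
            apply Finset.sum_congr rfl
            intro l _
            rw [Finset.sum_comm]
            apply Finset.sum_congr rfl
            intro s _
            rw [Finset.mul_sum]
            apply Finset.sum_congr rfl
            intro x _
            ring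
    rw [key]
    apply Finset.sum_le_sum
    intro l _
    apply Finset.sum_le_sum
    intro s _
    refine (le_abs_self _).trans ?_
    rw [abs_mul, abs_mul]
    apply mul_le_mul_of_nonneg_right _ (abs_nonneg _)
    exact mul_le_mul (hF1b j k s) (hF1b _ _ _) (abs_nonneg _) ((abs_nonneg _).trans (hF1b _ _ _))
  rw [s1]
  refine s2.trans ?_
  have e1 : ∑ q ∈ J ×ˢ (K ×ˢ T), M2 q.1 q.2.1 q.2.2 =
      ∑ j ∈ J, ∑ k ∈ K, ∑ t ∈ T, M2 j k t := by
    rw [Finset.sum_product]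
    apply Finset.sum_congr rfl
    intro j _
    rw [Finset.sum_product]
  rw [e1]
  apply mul_le_mul_of_nonneg_left
  · rw [Finset.sum_product]
    apply Finset.sum_le_sum
    intro j _
    rw [Finset.sum_product]
    apply Finset.sum_le_sum
    intro k _
    exact s3 j k
  · exact Finset.sum_nonneg fun _ _ => Finset.sum_nonneg fun _ _ => Finset.sum_nonneg fun _ _ =>
      hM2 _ _ _

end Pool.Agent.Lib.H18GB
end

-- from Lib.H18Q.MB
section

/-!
# Project H18Q, chunk MB: the model along incompatible classes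
-/

open Finset

namespace Pool.Agent.Lib.H18Q

open Pool.Agent.Lib.H68T Pool.Agent.Lib.H18E


theorem mb_sum_zero (W : ℕ) (x : ℤ) (hW : 0 < W) (hx : ¬ IsCoprime x (W : ℤ)) :
    ∑ w ∈ W.divisors, GAM_F 1 x w = 0 := by
  have h1 : (ArithmeticFunction.zeta : ArithmeticFunction ℝ) * GAM_F 1 x = GAM_g 1 x := by
    unfold GAM_F
    rw [← mul_assoc, ArithmeticFunction.coe_zeta_mul_coe_moebius, one_mul]
  have h2 : ((ArithmeticFunction.zeta : ArithmeticFunction ℝ) * GAM_F 1 x) W = GAM_g 1 x W := by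
    rw [h1]
  rw [ArithmeticFunction.coe_zeta_mul_apply, GAM_g_apply _ _ _ hW.ne',
    if_neg (fun h => hx h.symm)] at h2
  exact h2

theorem mb_abs (x : ℤ) {w : ℕ} (hw : w ≠ 0) : |GAM_F 1 x w| ≤ 1 := by
  refine (GAM_F_abs 1 x w hw).trans ?_
  split_ifs with h
  · have h1 : 0 < w / Nat.gcd w x.natAbs :=
      Nat.div_pos (Nat.gcd_le_left _ (by omega)) (Nat.gcd_pos_of_pos_left _ (by omega))
    have h2 : (1 : ℝ) ≤ (Nat.totient (w / Nat.gcd w x.natAbs) : ℝ) := by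
      exact_mod_cast Nat.totient_pos.mpr h1
    rw [div_le_one (by linarith)]
    exact h2
  · norm_num

theorem mb_per (x : ℤ) {w W : ℕ} (hw : w ≠ 0) (hwW : w ∣ W) (c : ℕ) :
    GAM_F 1 (x + W * (c : ℕ)) w = GAM_F 1 x w := by
  refine XG1_eq _ _ (GAM_F_mult 1 _) (GAM_F_mult 1 x) hw fun p hp k hk => ?_
  have hpp := Nat.prime_of_mem_primeFactors hp
  have hpW : (p : ℤ) ∣ (W : ℤ) * (c : ℕ) :=
    Dvd.dvd.mul_right (Int.natCast_dvd_natCast.2 ((Nat.dvd_of_mem_primeFactors hp).trans hwW)) _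
  rcases Nat.lt_or_ge 1 k with hk1 | hk1
  · obtain ⟨j, hj⟩ := Nat.exists_eq_add_of_le (show 2 ≤ k by omega)
    rw [hj, add_comm 2 j, GAM_F_prime_pow _ _ _ _ hpp, GAM_F_prime_pow _ _ _ _ hpp]
  · have hk' : k = 1 := by omega
    rw [hk', pow_one, GAM_F_prime _ _ _ hpp, GAM_F_prime _ _ _ hpp]
    have h3 : (p : ℤ) ∣ x + W * (c : ℕ) ↔ (p : ℤ) ∣ x := (dvd_add_left hpW)
    simp only [h3]

/-- In a class modulo `W` not coprime to `W` the model `G` has only moduli `q > Q/W`: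
`G Q (x + W c) = ∑_{q ≤ Q, (q,W) = 1} μ(q)/φ(q) c_q(x + W c) S(q)`, `S(q) = ∑_{w ∣ W, w q ≤ Q} μ(w)/φ(w)
c_w(x)` (`w` squarefree; for squarefree `q0 ≤ Q` write `q0 = w q` with `w = gcd(q0, W)`... the part of
`q0` composed of primes of `W`; `c_w(x + Wc) = c_w(x)`); the full sum over squarefree `w ∣ W` is
`∏_{l ∣ W} (1 - c_l(x)/(l-1)) = 0` if some prime `l ∣ W` divides `x` (`c_l(x) = l - 1`), so `S(q) = 0` for
`q W ≤ Q`; and `|S(q)| ≤ ∑_{w ∣ W} 1 ≤ W` (`|c_w(x)| ≤ φ(w)`). Compare `ml_MM_eq` in `H18E/ML` (the coprime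
case). -/
theorem MB_expand (Q W : ℕ) (x : ℤ) (hW : 0 < W) (hx : ¬ IsCoprime x (W : ℤ)) :
    ∃ S : ℕ → ℝ, (∀ q, |S q| ≤ W) ∧ (∀ q, q * W ≤ Q → S q = 0) ∧ ∀ c : ℕ,
      G Q (x + W * (c : ℕ)) = ∑ q ∈ QW Q W, (ArithmeticFunction.moebius q : ℝ) /
        (Nat.totient q : ℝ) * cq q (x + W * (c : ℕ)) * S q := by
  refine ⟨fun q => ∑ w ∈ W.divisors.filter (fun w => w * q ≤ Q), GAM_F 1 x w, ?_, ?_, ?_⟩
  · intro q
    refine (abs_sum_le_sum_abs _ _).trans ?_
    calc ∑ w ∈ W.divisors.filter (fun w => w * q ≤ Q), |GAM_F 1 x w|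
        ≤ ∑ _w ∈ W.divisors.filter (fun w => w * q ≤ Q), (1 : ℝ) :=
          sum_le_sum fun w hw => mb_abs x (Nat.pos_of_mem_divisors (mem_filter.1 hw).1).ne'
      _ = ((W.divisors.filter (fun w => w * q ≤ Q)).card : ℝ) := by simp
      _ ≤ (W : ℝ) := by
          exact_mod_cast (card_filter_le _ _).trans (Nat.card_divisors_le_self W)
  · intro q hq
    simp only
    rw [filter_true_of_mem, mb_sum_zero W x hW hx]
    intro w hw
    have h1 : w ≤ W := Nat.divisor_le hw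
    calc w * q ≤ W * q := Nat.mul_le_mul_right _ h1
      _ = q * W := mul_comm _ _
      _ ≤ Q := hq
  · intro c
    have h1 : G Q (x + W * (c : ℕ)) = ∑ q ∈ Icc 1 Q, GAM_F 1 (x + W * (c : ℕ)) q := by
      unfold G
      exact Finset.sum_congr rfl fun q _ => (XG1_F1 _ q).symm
    rw [h1, XG1_split _ (GAM_F_mult 1 _) (fun n hn => XG1_F_nsq 1 _ hn) Q W hW]
    refine Finset.sum_congr rfl fun q _ => ?_
    rw [XG1_F1]
    congr 1
    refine Finset.sum_congr rfl fun w hw => ?_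
    rw [mem_filter] at hw
    exact mb_per x (Nat.pos_of_mem_divisors hw.1).ne' (Nat.mem_divisors.1 hw.1).1 c


theorem mb_rep (Q N r : ℕ) (z : ℤ) (β ε : ℝ) (hr : 0 < r) (hN : 1 ≤ N)
    (hz : 1 ≤ z ∨ z + r * N ≤ 0) (hβ1 : β ≤ 1) (hε : |ε| ≤ 1)
    (hε0 : ¬ IsCoprime z (r : ℤ) → ε = 0) :
    ∃ (U V : ℕ → ℕ → ℝ) (η : ℝ), |η| ≤ 1 ∧ (∀ q c, 0 ≤ U q c) ∧ (∀ q c, U q c ≤ r) ∧
      (∀ q c, 0 ≤ V q c) ∧ (∀ q c, V q c ≤ r) ∧
      (∀ q, Antitone (U q) ∨ Monotone (U q)) ∧ (∀ q, Antitone (V q) ∨ Monotone (V q)) ∧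
      (∀ c < N, MM Q r ε β (z + r * (c : ℕ)) = ml_S Q r z U c - η * ml_S Q r z V c) ∧
      (¬ IsCoprime z (r : ℤ) → ∀ q c, q * r ≤ Q → U q c - η * V q c = 0) := by
  have hr1 : (1 : ℝ) ≤ r := by exact_mod_cast hr
  have hφ : (1 : ℝ) ≤ Nat.totient r := by exact_mod_cast Nat.totient_pos.mpr hr
  have hD : (r : ℝ) / Nat.totient r ≤ r := div_le_self (by linarith) hφ
  by_cases hzc : IsCoprime z (r : ℤ)
  · refine ⟨fun q _ => TW Q r q, fun q c => ml_w N r z β c * TWr Q r r q, ε, hε,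
      fun q _ => TW_nonneg Q r q, fun q _ => (TW_le Q r q hr).trans hD,
      fun q c => mul_nonneg (ml_w_nonneg N r z β c) (TWr_nonneg Q r r q), ?_,
      fun q => Or.inl (fun _ _ _ => le_refl _), ?_, ?_, fun h => absurd hzc h⟩
    · intro q c
      have h1 := ml_w_le hN hr hz hβ1 c
      have h3 := TWr_nonneg Q r r q
      have h4 := TWr_le Q r r q hr dvd_rfl
      calc ml_w N r z β c * TWr Q r r q ≤ 1 * TWr Q r r q := mul_le_mul_of_nonneg_right h1 h3
        _ ≤ r := by rw [one_mul]; exact h4.trans hD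
    · intro q
      rcases ml_w_mono hN hr hz hβ1 with h | h
      · exact Or.inl (fun c c' hc => mul_le_mul_of_nonneg_right (h hc) (TWr_nonneg Q r r q))
      · exact Or.inr (fun c c' hc => mul_le_mul_of_nonneg_right (h hc) (TWr_nonneg Q r r q))
    · intro c hc
      exact ml_MM_eq Q N r r z c β ε hr dvd_rfl hzc hc
  · obtain ⟨S, hS1, hS2, hS3⟩ := MB_expand Q r z hr hzc
    refine ⟨fun q _ => max (S q) 0, fun q _ => max (-S q) 0, 1, by norm_num,
      fun q _ => le_max_right _ _, ?_, fun q _ => le_max_right _ _, ?_,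
      fun q => Or.inl (fun _ _ _ => le_refl _), fun q => Or.inl (fun _ _ _ => le_refl _), ?_, ?_⟩
    · intro q _
      exact max_le ((le_abs_self _).trans (hS1 q)) (by linarith)
    · intro q _
      exact max_le ((neg_le_abs _).trans (hS1 q)) (by linarith)
    · intro c _
      unfold MM ml_S
      rw [hε0 hzc, zero_mul, zero_mul, sub_zero, hS3 c, one_mul, ← sum_sub_distrib]
      refine sum_congr rfl fun q _ => ?_
      have h1 : max (S q) 0 - max (-S q) 0 = S q := by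
        rcases le_total 0 (S q) with h | h
        · rw [max_eq_left h, max_eq_right (by linarith)]; ring
        · rw [max_eq_right h, max_eq_left (by linarith)]; ring
      rw [← mul_sub, h1]
    · intro _ q _ hq
      simp only [hS2 q hq]
      simp

/-- **Incompatible classes.** If `x` or `y` is not coprime to `r` (and the corresponding sign is `0`),
the correlation of the models along `x + r c`, `y + r c` is small.

Proof. By symmetry let `x` be not coprime to `r`, `ε = 0`, so `MM Q r 0 β = G Q`. `MB_expand` for `x`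
with `W = r`. The other factor: if `y` is coprime to `r`, `ml_MM_eq` writes it as a sum over
`q ∈ QW Q r` with coefficients `A'(q, c) = TW Q r q - ε' w_c TWr Q r r q`, `0 ≤ w_c ≤ 1` monotone in
`c`; the two parts separately have the form required by `pair_gen` (`H18E/PG2`), with bound
`D = 2 r` (`0 ≤ TW, TWr ≤ (r/φ(r)) ∑_{w ∣ r} 1 ≤ r²`: take `D = r²`). If `y` is not coprime to `r`
(`ε' = 0`): `MB_expand` again. Split `S = S⁺ - S⁻` (nonnegative, constant in `c`, so monotone).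
`pair_gen` gives for each of the at most `4 · 2` products: main term `∑_q (μ/φ)² c_q(x-y) ∑_c A A'`,
supported on `q > Q/r ≥ √Q` (one factor is `S`), at most `N r · r² ∑_{q > Q/r, sqfree, (q,r)=1}
φ((q, x-y))/φ(q)² ≤ N r^3 C Q^(-1/4) Rk (x-y)` (`ss_tail` in `H18E/SS1`: `Q < q²`; `|c_q(D)| ≤
φ(q) φ(gcd)/φ(q)...`: for squarefree `q`, `|c_q(D)| = φ(gcd(q, D))`), error `2 r^4 Q^6`. -/
theorem noncompat : ∃ C : ℝ, 1 ≤ C ∧ ∀ (Q N r : ℕ) (x y : ℤ) (β ε ε' : ℝ), 0 < r →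
    r ^ 100 ≤ Q → 8 ≤ Q → ¬ (IsCoprime x (r : ℤ) ∧ IsCoprime y (r : ℤ)) →
    (¬ IsCoprime x (r : ℤ) → ε = 0) → (¬ IsCoprime y (r : ℤ) → ε' = 0) →
    (1 ≤ x ∨ x + r * N ≤ 0) → (1 ≤ y ∨ y + r * N ≤ 0) → x ≠ y → 1 / 2 ≤ β → β ≤ 1 →
    |ε| ≤ 1 → |ε'| ≤ 1 →
    |∑ c ∈ range N, MM Q r ε β (x + r * (c : ℕ)) * MM Q r ε' β (y + r * (c : ℕ))| ≤
      C * (r : ℝ) ^ 3 * N * (Q : ℝ) ^ (-(1 / 4) : ℝ) * Rk (x - y) + (Q : ℝ) ^ 9 := by
  obtain ⟨C2, hC2, htail⟩ := ss_tail
  refine ⟨4 * C2, by linarith, ?_⟩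
  intro Q N r x y β ε ε' hr hrQ hQ hnc hεx hεy hx hy hxy hβ hβ1 hε hε'
  have hQr : (8 : ℝ) ≤ Q := by exact_mod_cast hQ
  have hr1 : (1 : ℝ) ≤ r := by exact_mod_cast hr
  by_cases hN0 : N = 0
  · subst hN0
    simp only [range_zero, sum_empty, Nat.cast_zero, zero_mul, mul_zero, abs_zero, zero_add]
    positivity
  have hN : 1 ≤ N := by omega
  obtain ⟨U, V, η, hη, hU0, hUD, hV0, hVD, hUm, hVm, hMx, hZx⟩ :=
    mb_rep Q N r x β ε hr hN hx hβ1 hε hεx
  obtain ⟨U', V', η', hη', hU0', hUD', hV0', hVD', hUm', hVm', hMy, hZy⟩ :=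
    mb_rep Q N r y β ε' hr hN hy hβ1 hε' hεy
  set D : ℝ := (r : ℝ) with hD
  have hD0 : 0 ≤ D := by positivity
  set d : ℤ := x - y with hd
  have hd0 : d ≠ 0 := sub_ne_zero.mpr hxy
  set T : (ℕ → ℕ → ℝ) → (ℕ → ℕ → ℝ) → ℝ := fun A B => ∑ c ∈ range N,
    ml_S Q r x A c * ml_S Q r y B c with hT
  set Z : (ℕ → ℕ → ℝ) → (ℕ → ℕ → ℝ) → ℝ := fun A B =>
    ∑ q ∈ QW Q r, ((ArithmeticFunction.moebius q : ℝ) / (Nat.totient q : ℝ)) ^ 2 *
        cq q d * ∑ c ∈ range N, A q c * B q c with hZ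
  have h11 : |T U U' - Z U U'| ≤ 2 * D ^ 2 * (Q : ℝ) ^ 6 :=
    pair_gen Q N r hr x y U U' D hD0 hU0 hUD hU0' hUD' hUm hUm'
  have h12 : |T U V' - Z U V'| ≤ 2 * D ^ 2 * (Q : ℝ) ^ 6 :=
    pair_gen Q N r hr x y U V' D hD0 hU0 hUD hV0' hVD' hUm hVm'
  have h21 : |T V U' - Z V U'| ≤ 2 * D ^ 2 * (Q : ℝ) ^ 6 :=
    pair_gen Q N r hr x y V U' D hD0 hV0 hVD hU0' hUD' hVm hUm'
  have h22 : |T V V' - Z V V'| ≤ 2 * D ^ 2 * (Q : ℝ) ^ 6 :=
    pair_gen Q N r hr x y V V' D hD0 hV0 hVD hV0' hVD' hVm hVm'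
  have hexp : ∑ c ∈ range N, MM Q r ε β (x + r * (c : ℕ)) * MM Q r ε' β (y + r * (c : ℕ)) =
      T U U' - η' * T U V' - η * T V U' + η * η' * T V V' := by
    simp only [hT]
    rw [mul_sum, mul_sum, mul_sum, ← sum_sub_distrib, ← sum_sub_distrib, ← sum_add_distrib]
    apply sum_congr rfl
    intro c hc
    rw [hMx c (mem_range.mp hc), hMy c (mem_range.mp hc)]
    ring
  have herr : |(T U U' - η' * T U V' - η * T V U' + η * η' * T V V') -
      (Z U U' - η' * Z U V' - η * Z V U' + η * η' * Z V V')| ≤ 8 * D ^ 2 * (Q : ℝ) ^ 6 := by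
    have gen : ∀ (κ u v : ℝ), |κ| ≤ 1 → |u - v| ≤ 2 * D ^ 2 * (Q : ℝ) ^ 6 →
        |κ * (u - v)| ≤ 2 * D ^ 2 * (Q : ℝ) ^ 6 := by
      intro κ u v h1 h2
      rw [abs_mul]
      calc |κ| * |u - v| ≤ 1 * (2 * D ^ 2 * (Q : ℝ) ^ 6) :=
            mul_le_mul h1 h2 (abs_nonneg _) (by norm_num)
        _ = _ := one_mul _
    have e1 := gen 1 _ _ (by norm_num) h11
    have e2 := gen η' _ _ hη' h12
    have e3 := gen η _ _ hη h21
    have e4 := gen (η * η') _ _ (by
      rw [abs_mul]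
      exact mul_le_one₀ hη (abs_nonneg _) hη') h22
    have e5 : (T U U' - η' * T U V' - η * T V U' + η * η' * T V V') -
      (Z U U' - η' * Z U V' - η * Z V U' + η * η' * Z V V') =
      1 * (T U U' - Z U U') - η' * (T U V' - Z U V') - η * (T V U' - Z V U') +
        η * η' * (T V V' - Z V V') := by ring
    rw [e5]
    rw [abs_le] at e1 e2 e3 e4 ⊢
    constructor <;> linarith [e1.1, e1.2, e2.1, e2.2, e3.1, e3.2, e4.1, e4.2]
  have herr2 : 8 * D ^ 2 * (Q : ℝ) ^ 6 ≤ (Q : ℝ) ^ 9 := by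
    have h1 : D ^ 2 ≤ Q := by
      have := XCG_W_sq Q r hr hrQ
      rw [hD]
      exact_mod_cast this
    calc 8 * D ^ 2 * (Q : ℝ) ^ 6 ≤ Q * Q * (Q : ℝ) ^ 6 := by gcongr
      _ = (Q : ℝ) ^ 8 := by ring
      _ ≤ (Q : ℝ) ^ 9 := pow_le_pow_right₀ (by linarith) (by norm_num)
  set I : ℕ → ℝ := fun q => ∑ c ∈ range N, (U q c - η * V q c) * (U' q c - η' * V' q c) with hI
  have hmain : Z U U' - η' * Z U V' - η * Z V U' + η * η' * Z V V' =
      ∑ q ∈ QW Q r, ((ArithmeticFunction.moebius q : ℝ) / (Nat.totient q : ℝ)) ^ 2 *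
        cq q d * I q := by
    simp only [hZ, hI]
    rw [mul_sum, mul_sum, mul_sum, ← sum_sub_distrib, ← sum_sub_distrib, ← sum_add_distrib]
    apply sum_congr rfl
    intro q _
    have h1 : ∑ c ∈ range N, (U q c - η * V q c) * (U' q c - η' * V' q c) =
        ∑ c ∈ range N, U q c * U' q c - η' * ∑ c ∈ range N, U q c * V' q c -
          η * ∑ c ∈ range N, V q c * U' q c + η * η' * ∑ c ∈ range N, V q c * V' q c := by
      rw [mul_sum, mul_sum, mul_sum, ← sum_sub_distrib, ← sum_sub_distrib, ← sum_add_distrib]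
      apply sum_congr rfl
      intro c _
      ring
    rw [h1]
    ring
  have hIsmall : ∀ q : ℕ, q ^ 2 ≤ Q → I q = 0 := by
    intro q hq
    have hWq : q * r ≤ Q := by
      have h1 := XCG_W_sq Q r hr hrQ
      have h2 : (q * r) ^ 2 ≤ Q ^ 2 := by
        calc (q * r) ^ 2 = r ^ 2 * q ^ 2 := by ring
          _ ≤ Q * Q := Nat.mul_le_mul h1 hq
          _ = Q ^ 2 := by ring
      exact (Nat.pow_le_pow_iff_left (by norm_num)).mp h2
    simp only [hI]
    apply sum_eq_zero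
    intro c _
    by_cases hxc : IsCoprime x (r : ℤ)
    · rw [hZy (fun h => hnc ⟨hxc, h⟩) q c hWq, mul_zero]
    · rw [hZx hxc q c hWq, zero_mul]
  have hIbig : ∀ q : ℕ, |I q| ≤ N * (4 * D ^ 2) := by
    intro q
    simp only [hI]
    refine (abs_sum_le_sum_abs _ _).trans ?_
    calc ∑ c ∈ range N, |(U q c - η * V q c) * (U' q c - η' * V' q c)|
        ≤ ∑ _c ∈ range N, 4 * D ^ 2 := by
          apply sum_le_sum
          intro c _
          rw [abs_mul]
          have key : ∀ η u v : ℝ, |η| ≤ 1 → 0 ≤ u → u ≤ D → 0 ≤ v → v ≤ D →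
              |u - η * v| ≤ 2 * D := by
            intro η u v hη hu hu' hv hv'
            have h1 : |η * v| ≤ D := by
              rw [abs_mul, abs_of_nonneg hv]
              calc |η| * v ≤ 1 * D := mul_le_mul hη hv' hv (by norm_num)
                _ = D := one_mul _
            have h2 := abs_le.mp h1
            rw [abs_le]
            constructor <;> linarith
          have h1 := key _ _ _ hη (hU0 q c) (hUD q c) (hV0 q c) (hVD q c)
          have h2 := key _ _ _ hη' (hU0' q c) (hUD' q c) (hV0' q c) (hVD' q c)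
          calc |U q c - η * V q c| * |U' q c - η' * V' q c| ≤ (2 * D) * (2 * D) :=
                mul_le_mul h1 h2 (abs_nonneg _) (by positivity)
            _ = 4 * D ^ 2 := by ring
      _ = N * (4 * D ^ 2) := by rw [sum_const, card_range, nsmul_eq_mul]
  set q4 := (Q : ℝ) ^ (-(1 / 4) : ℝ) with hq4
  have hq40 : 0 ≤ q4 := by positivity
  have hRk : 1 ≤ Rk d := one_le_Rk d
  have hbound : |∑ q ∈ QW Q r, ((ArithmeticFunction.moebius q : ℝ) / (Nat.totient q : ℝ)) ^ 2 *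
        cq q d * I q| ≤ 4 * C2 * D ^ 3 * N * q4 * Rk d := by
    rw [← sum_filter_add_sum_filter_not (QW Q r) (fun q => q ^ 2 ≤ Q)]
    have p1 : ∑ q ∈ (QW Q r).filter (fun q => q ^ 2 ≤ Q),
        ((ArithmeticFunction.moebius q : ℝ) / (Nat.totient q : ℝ)) ^ 2 * cq q d * I q = 0 := by
      apply sum_eq_zero
      intro q hq
      rw [hIsmall q (mem_filter.mp hq).2, mul_zero]
    rw [p1, zero_add]
    refine (abs_sum_le_sum_abs _ _).trans ?_
    calc ∑ q ∈ (QW Q r).filter (fun q => ¬ q ^ 2 ≤ Q),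
          |((ArithmeticFunction.moebius q : ℝ) / (Nat.totient q : ℝ)) ^ 2 * cq q d * I q|
        ≤ ∑ q ∈ (QW Q r).filter (fun q => ¬ q ^ 2 ≤ Q),
          (if Squarefree q then (Nat.totient (Nat.gcd q d.natAbs) : ℝ) /
            (Nat.totient q : ℝ) ^ 2 else 0) * (N * (4 * D ^ 2)) := by
          apply sum_le_sum
          intro q _
          rw [abs_mul, abs_mul]
          have h2 : |((ArithmeticFunction.moebius q : ℝ) / (Nat.totient q : ℝ)) ^ 2| =
              ((ArithmeticFunction.moebius q : ℝ) / (Nat.totient q : ℝ)) ^ 2 :=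
            abs_of_nonneg (by positivity)
          rw [h2]
          exact mul_le_mul (XCG_cq_le q d) (hIbig q) (abs_nonneg _) (by
            split_ifs <;> positivity)
      _ = (∑ q ∈ ((QW Q r).filter (fun q => ¬ q ^ 2 ≤ Q)).filter Squarefree,
            (Nat.totient (Nat.gcd q d.natAbs) : ℝ) / (Nat.totient q : ℝ) ^ 2) *
              (N * (4 * D ^ 2)) := by
          rw [← sum_mul, sum_filter (s := (QW Q r).filter (fun q => ¬ q ^ 2 ≤ Q))]
      _ ≤ (C2 * q4 * Rk d) * (N * (4 * D ^ 2)) := by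
          apply mul_le_mul_of_nonneg_right _ (by positivity)
          apply htail Q d hd0 (by omega)
          intro q hq
          rw [mem_filter, mem_filter] at hq
          exact ⟨hq.2, not_le.mp hq.1.2⟩
      _ = 4 * C2 * D ^ 2 * N * q4 * Rk d := by ring
      _ ≤ 4 * C2 * D ^ 3 * N * q4 * Rk d := by
          have h7 : D ^ 2 ≤ D ^ 3 := pow_le_pow_right₀ hr1 (by norm_num)
          gcongr
  rw [hexp]
  rw [← hmain] at hbound
  have h8 := abs_le.mp herr
  have h9 := abs_le.mp hbound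
  rw [abs_le]
  constructor <;> linarith [h8.1, h8.2, h9.1, h9.2]

end Pool.Agent.Lib.H18Q
end
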