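import Pool.Agent.Lib.H1M.RV.M025
import Pool.Agent.Lib.H1M.RV.M051
import Pool.Agent.Lib.H1M.RV.M058

/-! Merged copies (to shorten the build) of Lib.H18E.PA, Lib.H57C.SN. -/

-- from Lib.H18E.PA
section

/-!
# Chunk PA: choice of the parameters
-/

open Finset Pool.Agent.Lib.H68T

namespace Pool.Agent.Lib.H18E

theorem PA_pow (b b' C D : ℝ) (hb' : 0 < b') (h : b' < b) :
    ∀ᶠ y : ℝ in Filter.atTop, C * y ^ b' + D ≤ y ^ b := by
  have h1 := tendsto_rpow_atTop (show 0 < b - b' by linarith)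
  filter_upwards [h1.eventually_ge_atTop (|C| + |D|), Filter.eventually_ge_atTop (1 : ℝ)] with y hy hy1
  have hy0 : 0 < y := by linarith
  have h2 : y ^ b = y ^ b' * y ^ (b - b') := by
    rw [← Real.rpow_add hy0]; congr 1; ring
  have h3 : 1 ≤ y ^ b' := Real.one_le_rpow hy1 hb'.le
  rw [h2]
  have h4 : y ^ b' * (|C| + |D|) ≤ y ^ b' * y ^ (b - b') :=
    mul_le_mul_of_nonneg_left hy (by linarith)
  have h5 : C * y ^ b' ≤ |C| * y ^ b' := mul_le_mul_of_nonneg_right (le_abs_self C) (by linarith)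
  have h6 : D ≤ |D| * y ^ b' := by
    have := abs_nonneg D
    have := le_abs_self D
    nlinarith
  nlinarith

theorem PA_log (b C D : ℝ) (hb : 0 < b) :
    ∀ᶠ y : ℝ in Filter.atTop, C * Real.log y + D ≤ y ^ b := by
  filter_upwards [PA_pow b (b / 2) (|C| * (2 / b)) D (by linarith) (by linarith),
    Filter.eventually_ge_atTop (1 : ℝ)] with y hy hy1
  have h1 := Real.log_le_rpow_div (by linarith : (0 : ℝ) ≤ y) (by linarith : 0 < b / 2)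
  have h2 : 0 ≤ Real.log y := Real.log_nonneg hy1
  have h3 : C * Real.log y ≤ |C| * Real.log y := mul_le_mul_of_nonneg_right (le_abs_self C) h2
  have h4 : |C| * Real.log y ≤ |C| * (y ^ (b / 2) / (b / 2)) :=
    mul_le_mul_of_nonneg_left h1 (abs_nonneg C)
  have h5 : |C| * (y ^ (b / 2) / (b / 2)) = |C| * (2 / b) * y ^ (b / 2) := by
    field_simp
  linarith




end Pool.Agent.Lib.H18E
end

-- from Lib.H57C.SN
section

/-!
# Chunk SN: the negative part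
-/

open Finset

namespace Pool.Agent.Lib.H57C

open Pool.Agent.Lib.H57M
open Pool.Agent.Lib.H59C (AA zz)

theorem sn_rem {ι : Type} (S : Finset ι) (w : ι → ℝ) (a : ι → ℕ) (P : Finset ℕ) (z X D : ℝ) (M : ℕ)
    (hM : ⌊D⌋₊ ≤ M) :
    Pool.Agent.Lib.H59C.remd S w a P z X D ≤
      ∑ d ∈ Dv P M, |∑ i ∈ S.filter (fun i => d ∣ a i), w i - X / (Nat.totient d : ℝ)| := by
  classical
  unfold Pool.Agent.Lib.H59C.remd Dv
  refine Finset.sum_le_sum_of_subset_of_nonneg ?_ fun d _ _ => abs_nonneg _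
  intro d hd
  rw [Finset.mem_filter, Finset.mem_Icc] at hd ⊢
  exact ⟨⟨hd.1.1, le_trans hd.1.2 hM⟩, hd.2.1, fun q hq => (hd.2.2 q hq).1⟩

theorem sn_large (Q0 : ℕ) (z0 : ℝ) : ∃ n0 : ℕ, ∀ N : ℕ, n0 ≤ N →
    1000 ≤ N ∧ z0 ≤ zz N ∧ ∀ θ : ℝ, θ ≤ 1 / 100 → ⌊zz N ^ 3 * Q0⌋₊ ≤ Lv N θ := by
  have h1 : ∀ᶠ x : ℝ in Filter.atTop, z0 ≤ x ^ (1 / 8 : ℝ) ∧ (Q0 : ℝ) ≤ x ^ (17 / 200 : ℝ) := by
    filter_upwards [(tendsto_rpow_atTop (show (0 : ℝ) < 1 / 8 by norm_num)).eventually_ge_atTop z0,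
      (tendsto_rpow_atTop (show (0 : ℝ) < 17 / 200 by norm_num)).eventually_ge_atTop (Q0 : ℝ)] with x h1 h2
    exact ⟨h1, h2⟩
  obtain ⟨n0, hn0⟩ := Filter.eventually_atTop.1
    ((tendsto_natCast_atTop_atTop (R := ℝ)).eventually h1)
  refine ⟨max n0 1000, fun N hN => ?_⟩
  have hN1 : 1000 ≤ N := le_trans (le_max_right _ _) hN
  obtain ⟨g1, g2⟩ := hn0 N (le_trans (le_max_left _ _) hN)
  have hNr : (1000 : ℝ) ≤ N := by exact_mod_cast hN1
  refine ⟨hN1, g1, fun θ hθ => ?_⟩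
  unfold Lv
  refine Nat.floor_le_floor ?_
  have h3 : zz N ^ 3 = (N : ℝ) ^ (3 / 8 : ℝ) := by
    unfold zz
    rw [← Real.rpow_natCast, ← Real.rpow_mul (by linarith)]
    norm_num
  rw [h3]
  calc (N : ℝ) ^ (3 / 8 : ℝ) * Q0 ≤ (N : ℝ) ^ (3 / 8 : ℝ) * (N : ℝ) ^ (17 / 200 : ℝ) :=
        mul_le_mul_of_nonneg_left g2 (by positivity)
    _ = (N : ℝ) ^ (3 / 8 + 17 / 200 : ℝ) := (Real.rpow_add (by linarith) _ _).symm
    _ ≤ (N : ℝ) ^ (1 / 2 - 4 * θ) := Real.rpow_le_rpow_of_exponent_le (by linarith) (by linarith)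

theorem sn_Fs {K : ℕ} (w : Par K) (H : Finset ℕ) (N p1 : ℕ) (i : Option ℕ) (t : ℕ) : 0 ≤ Fs w H N p1 i t := by
  unfold Fs FF Sg
  have hz : 0 < w.z := lt_of_lt_of_le one_pos w.z_bounds.1
  refine mul_nonneg (div_nonneg (sq_nonneg _) (pow_nonneg hz.le _)) ?_
  split_ifs <;> norm_num

/-- Proof. `jr 1` with `z = zz N`, `D = z^3` (`log D = 3 log z`): `sift ≤ Xi Vz (AA/3 + 1) + remd`, and `D Q0 = N^(3/8) Q0 ≤ Lv N θ` for `θ ≤ 1/100` and large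
`N`; the moduli of `remd` are in `Dv (Pg) (Lv)`: `remI`. `Xi ≤ (N/10 + 1) (11/10) Va` (`aen`). -/
theorem Ns_up (K B cF : ℕ) (θ G : ℝ) (hK : 1 ≤ K) (hB : 3 ≤ B) (hθ : 0 < θ) (hθ1 : θ ≤ 1 / 100) :
    ∃ n0 : ℕ, ∀ N : ℕ, n0 ≤ N →
    ∀ (w : Par K) (H : Finset ℕ) (p1 : ℕ), Reg B cF θ G w H N p1 →
    Ns w H N p1 ≤ N / 8 * (Va N w.W p1 H * Vz N w.W H * (AA / 3 + 1)) +
      N / Real.log N ^ 10 := by
  obtain ⟨Q0, hQ0, z0, hz0, hjr⟩ := Pool.Agent.Lib.H59C.jr 1 one_pos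
  obtain ⟨n1, hn1⟩ := sn_large Q0 z0
  obtain ⟨c, hc, n2, hn2⟩ := vz_low
  obtain ⟨n3, hn3⟩ := va_low K B hK
  refine ⟨max n1 (max n2 n3), fun N hN w H p1 hR => ?_⟩
  obtain ⟨g1, g2, g3⟩ := hn1 N (le_trans (le_max_left _ _) hN)
  have hNr : (1000 : ℝ) ≤ N := by exact_mod_cast g1
  have hL0 : 0 < Real.log N := Real.log_pos (by linarith)
  have hW4 : 4 ≤ w.W := by
    have := w.KW
    have h1 := w.Kpos
    nlinarith
  obtain ⟨z1, _⟩ := hn2 N (le_trans (le_trans (le_max_left _ _) (le_max_right _ _)) hN) w.W H (by omega)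
  obtain ⟨v1, _⟩ := hn3 N (le_trans (le_trans (le_max_right _ _) (le_max_right _ _)) hN) w.W p1 H
    hR.Wdef hR.cardH hR.nf
  have hva0 : 0 ≤ Va N w.W p1 H := le_trans (by positivity) v1
  have hvz0 : 0 ≤ Vz N w.W H := le_trans (by positivity) z1
  have hP : ∀ q ∈ Pg N w.W H, q.Prime ∧ 3 ≤ q := by
    intro q hq
    unfold Pg at hq
    rw [Finset.mem_filter, Finset.mem_Ioc] at hq
    exact ⟨hq.2.1, by omega⟩
  have hzz : 2 ≤ zz N := le_trans hz0 g2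
  have hlz : 0 < Real.log (zz N) := Real.log_pos (by linarith)
  have hD : Real.log (zz N ^ 3) = 3 * Real.log (zz N) := by
    rw [Real.log_pow]; push_cast; ring
  have hYab : (0 : ℝ) ≤ (Yb N : ℝ) - Ya N := by
    have : Ya N ≤ Yb N := by unfold Ya Yb; omega
    have : (Ya N : ℝ) ≤ Yb N := by exact_mod_cast this
    linarith
  have hYu : (Yb N : ℝ) - Ya N ≤ (N : ℝ) / 10 + 1 := by
    have h3 : 10 * Yb N ≤ N + 10 * Ya N + 10 := by unfold Ya Yb; omega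
    have h4 : 10 * (Yb N : ℝ) ≤ (N : ℝ) + 10 * (Ya N : ℝ) + 10 := by exact_mod_cast h3
    linarith
  have hXi0 : 0 ≤ Xi w H N p1 := by
    unfold Xi
    exact mul_nonneg hYab (mul_nonneg hR.aen0 hva0)
  have hXi : Xi w H N p1 ≤ N / 8 * Va N w.W p1 H := by
    unfold Xi
    calc ((Yb N : ℝ) - Ya N) * (AE w.P H none (FC w H) * Va N w.W p1 H) ≤
          ((N : ℝ) / 10 + 1) * (11 / 10 * Va N w.W p1 H) :=
          mul_le_mul hYu (mul_le_mul_of_nonneg_right hR.aen hva0) (mul_nonneg hR.aen0 hva0) (by linarith)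
      _ = (((N : ℝ) / 10 + 1) * (11 / 10)) * Va N w.W p1 H := by ring
      _ ≤ N / 8 * Va N w.W p1 H := by
          refine mul_le_mul_of_nonneg_right ?_ hva0
          linarith
  obtain ⟨hup, _⟩ := hjr (Pg N w.W H) hP (zz N) (zz N ^ 3) g2
    (by
      have : (1 : ℝ) ≤ zz N ^ 2 := one_le_pow₀ (by linarith)
      nlinarith)
    (Ioc (Ya N) (Yb N)) (Fs w H N p1 none) (fun t => N - t) (Xi w H N p1) hXi0
    (fun t _ => sn_Fs w H N p1 none t)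
  have hup := hup (by rw [hD])
  have hq : Real.log (zz N ^ 3) / Real.log (zz N) = 3 := by
    rw [hD]; field_simp
  rw [hq] at hup
  have hrem := le_trans (sn_rem (Ioc (Ya N) (Yb N)) (Fs w H N p1 none) (fun t => N - t) (Pg N w.W H) (zz N)
    (Xi w H N p1) (zz N ^ 3 * Q0) (Lv N θ) (g3 θ hθ1)) hR.remI
  have hAA := Pool.Agent.Lib.H59C.AA_pos
  have hmain : Xi w H N p1 * Vz N w.W H * (AA / 3 + 1) ≤
      N / 8 * (Va N w.W p1 H * Vz N w.W H * (AA / 3 + 1)) := by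
    have h1 : 0 ≤ Vz N w.W H * (AA / 3 + 1) := mul_nonneg hvz0 (by linarith)
    calc Xi w H N p1 * Vz N w.W H * (AA / 3 + 1) = Xi w H N p1 * (Vz N w.W H * (AA / 3 + 1)) := by ring
      _ ≤ N / 8 * Va N w.W p1 H * (Vz N w.W H * (AA / 3 + 1)) := mul_le_mul_of_nonneg_right hXi h1
      _ = _ := by ring
  unfold Ns
  calc _ ≤ Xi w H N p1 * Pool.Agent.Lib.H59C.VV (Pg N w.W H) (zz N) * (AA / 3 + 1) +
        Pool.Agent.Lib.H59C.remd (Ioc (Ya N) (Yb N)) (Fs w H N p1 none) (fun t => N - t) (Pg N w.W H) (zz N)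
          (Xi w H N p1) (zz N ^ 3 * Q0) := hup
    _ ≤ _ := add_le_add hmain hrem

end Pool.Agent.Lib.H57C
end
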