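import Pool.Agent.Lib.H1M.RV.M051
import Pool.Agent.Lib.H1M.RV.M068

/-! Merged copies (to shorten the build) of Lib.H57C.PW. -/

-- from Lib.H57C.PW
section

/-!
# Chunk PW: only good `t` contribute positively
-/

open Finset

namespace Pool.Agent.Lib.H57C

open Pool.Agent.Lib.H57M
open Pool.Agent.Lib.H59C (Sq lg zz yy QQ Tri)

theorem pw_big (B : ℕ) : ∃ n0 : ℕ, ∀ N : ℕ, n0 ≤ N → 1000 ≤ N ∧
    ∀ W : ℕ, W = ⌈Real.log N ^ B⌉₊ → 100 * W ≤ N ∧ (W : ℝ) < zz N := by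
  have h1 := (isLittleO_log_rpow_rpow_atTop (s := 1 / 8) (B : ℝ) (by norm_num)).bound
    (show (0 : ℝ) < 1 / 400 by norm_num)
  have h2 : ∀ᶠ x : ℝ in Filter.atTop, (400 : ℝ) ≤ x ^ (1 / 8 : ℝ) :=
    (tendsto_rpow_atTop (by norm_num : (0 : ℝ) < 1 / 8)).eventually_ge_atTop 400
  have h3 : ∀ᶠ n : ℕ in Filter.atTop, 1000 ≤ n ∧ (400 : ℝ) ≤ (n : ℝ) ^ (1 / 8 : ℝ) ∧
      ‖Real.log n ^ (B : ℝ)‖ ≤ 1 / 400 * ‖(n : ℝ) ^ (1 / 8 : ℝ)‖ :=
    (Filter.eventually_ge_atTop 1000).and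
      ((tendsto_natCast_atTop_atTop.eventually h2).and (tendsto_natCast_atTop_atTop.eventually h1))
  obtain ⟨n0, hn0⟩ := Filter.eventually_atTop.1 h3
  refine ⟨n0, fun N hN => ?_⟩
  obtain ⟨h4, h5, h6⟩ := hn0 N hN
  have h7 : (1000 : ℝ) ≤ N := by exact_mod_cast h4
  refine ⟨h4, fun W hW => ?_⟩
  rw [Real.norm_of_nonneg (by positivity : (0 : ℝ) ≤ (N : ℝ) ^ (1 / 8 : ℝ)),
    Real.rpow_natCast, Real.norm_eq_abs] at h6
  have h8 := (le_abs_self _).trans h6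
  have h9 : (W : ℝ) ≤ Real.log N ^ B + 1 := by
    rw [hW]
    exact (Nat.ceil_lt_add_one (pow_nonneg (Real.log_nonneg (by linarith)) _)).le
  have h10 : (N : ℝ) ^ (1 / 8 : ℝ) ≤ N := by
    calc (N : ℝ) ^ (1 / 8 : ℝ) ≤ (N : ℝ) ^ (1 : ℝ) :=
          Real.rpow_le_rpow_of_exponent_le (by linarith) (by norm_num)
      _ = N := Real.rpow_one _
  constructor
  · have h11 : (100 * W : ℝ) ≤ N := by linarith
    exact_mod_cast h11
  · unfold zz
    linarith

theorem pw_dist {N h t : ℕ} (ht : t ≤ N) : Nat.dist (N + h) (t + h) = N - t := by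
  rw [Nat.dist_add_add_right, Nat.dist_eq_sub_of_le_right ht]

theorem pw_Yb (N : ℕ) : Yb N ≤ N := by unfold Yb; omega

/-- One prime. `pointwise` (`H59C/CPW.lean`) with `N + h`. -/
theorem pw_one (K B : ℕ) : ∃ n0 : ℕ, ∀ N : ℕ, n0 ≤ N → ∀ (W p1 : ℕ) (H : Finset ℕ),
    W = ⌈Real.log N ^ B⌉₊ → (∀ h ∈ H, h ≤ W) → p1.Prime → (∀ h ∈ H, 2 ∣ N + h) →
    ∀ h ∈ H, ∀ p ∈ Sh N h, Sg (Ps W p1) (Rb N H) (p - h) ≠ 0 → ¬ p1 ∣ Nat.dist (N + h) p →
    (∀ q ∈ Bd N W H, ¬ q ∣ Nat.dist (N + h) p) →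
    (∀ q : ℕ, q.Prime → zz N ≤ q → ¬ q ^ 2 ∣ Nat.dist (N + h) p) →
    (∀ q ∈ Pg N W H, (q : ℝ) < zz N → ¬ q ∣ Nat.dist (N + h) p) →
    (0 : ℝ) < 1 - 1 / 2 * (((Qc N W H).filter (fun q => q ∣ Nat.dist (N + h) p)).card : ℝ) -
      1 / 2 * (open Classical in if Tri N (Nat.dist (N + h) p) then 1 else 0) →
    AP2 N (Nat.dist (N + h) p) := by
  obtain ⟨n1, hn1⟩ := Pool.Agent.Lib.H59C.pointwise
  obtain ⟨n2, hn2⟩ := pw_big B
  refine ⟨n1 + n2, fun N hN W p1 H hW hHW hp1 hev h hh p hp hSg hpd hbd hsq hro hbr => ?_⟩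
  obtain ⟨hN1, hN2⟩ := hn2 N (by omega)
  obtain ⟨hW1, hW2⟩ := hN2 W hW
  have hhW := hHW h hh
  have hh100 : 100 * h ≤ N := by omega
  obtain ⟨hwin, hlt⟩ := win_h N h hN1 hh100 (hev h hh)
  have hp' := hp
  unfold Sh at hp'
  have hp2 := Pool.Agent.Lib.H59C.mem_Sq.1 hp'
  obtain ⟨⟨hpa, hpb⟩, hpp⟩ := hp2
  have hYb := pw_Yb N
  have hph : p - h ≤ N := by omega
  have hhp : h ≤ p := by omega
  have hdist : Nat.dist (N + h) p = N - (p - h) := by
    have h1 := pw_dist (h := h) hph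
    rwa [Nat.sub_add_cancel hhp] at h1
  -- the primes `q > W`
  have hbig : ∀ q : ℕ, q.Prime → W < q → q ≤ N → q ∣ Nat.dist (N + h) p → q ∈ Pg N W H := by
    intro q hq hqW hqN hqd
    unfold Pg
    rw [Finset.mem_filter, Finset.mem_Ioc]
    refine ⟨⟨hqW, hqN⟩, hq, fun h' hh' hd => ?_⟩
    refine hbd q ?_ hqd
    unfold Bd
    rw [Finset.mem_filter, Finset.mem_Ioc]
    exact ⟨⟨hqW, hqN⟩, hq, h', hh', hd⟩
  have key := hn1 N (by omega) (N + h) (Ya N + h) (Yb N + h) p1 hwin p hp'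
    (not_dvd_h N h p hN1 hh100 hp) hpd hsq ?_ ?_
  · exact key
  · intro q hq hqz hqd
    rw [Pool.Agent.Lib.H59C.mem_PP] at hq
    obtain ⟨⟨hq3, hqN⟩, hqp, hqh, hq1⟩ := hq
    rcases Nat.lt_or_ge W q with hWq | hqW
    · exact hro q (hbig q hqp hWq hqN hqd) hqz hqd
    · unfold Sg at hSg
      rw [ne_eq, ite_eq_right_iff, Classical.not_imp] at hSg
      have h1 := hSg.1 q (by
        unfold Ps
        rw [Finset.mem_filter, Finset.mem_Icc]
        exact ⟨⟨by omega, hqW⟩, hqp, hq1⟩)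
      apply h1
      unfold Rb
      rw [Finset.mem_filter, Finset.mem_range]
      refine ⟨Nat.mod_lt _ hqp.pos, Or.inr ?_⟩
      have h2 : p - h ≡ N [MOD q] := (Nat.modEq_iff_dvd' hph).2 (by rwa [hdist] at hqd)
      exact (Nat.mod_modEq _ _).trans h2
  · have hsub : (QQ N (N + h) p1).filter (fun q => q ∣ Nat.dist (N + h) p) ⊆
        (Qc N W H).filter (fun q => q ∣ Nat.dist (N + h) p) := by
      intro q hq
      rw [Finset.mem_filter] at hq ⊢
      refine ⟨?_, hq.2⟩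
      have hq1 := hq.1
      unfold QQ at hq1
      rw [Finset.mem_filter] at hq1
      unfold Qc
      rw [Finset.mem_filter]
      refine ⟨hq1.1, ?_⟩
      have hq2 := Pool.Agent.Lib.H59C.mem_PR.1 hq1.1
      have hq3 := Pool.Agent.Lib.H59C.mem_PP.1 hq1.2
      refine hbig q hq2.1 ?_ hq3.1.2 hq.2
      have : (W : ℝ) < q := lt_of_lt_of_le hW2 hq2.2.1
      exact_mod_cast this
    have hc : (((QQ N (N + h) p1).filter (fun q => q ∣ Nat.dist (N + h) p)).card : ℝ) ≤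
        (((Qc N W H).filter (fun q => q ∣ Nat.dist (N + h) p)).card : ℝ) := by
      exact_mod_cast Finset.card_le_card hsub
    linarith

variable {K : ℕ} (w : Par K) (H : Finset ℕ) (N p1 : ℕ)

theorem pw_FF_nonneg (i : Option ℕ) (t : ℕ) : 0 ≤ FF w H i t := by
  unfold FF
  have hz : 0 ≤ w.z := by
    unfold Par.z
    have h1 : 0 ≤ ∑ i, Pool.Agent.Lib.H15P.ex (Pool.Agent.Lib.H15P.qq w.P K) (fun A => w.D i A ^ 2) :=
      Finset.sum_nonneg fun i _ =>
        Pool.Agent.Lib.H15P.ex_nonneg _ w.good.q0 w.good.q1 _ fun A => sq_nonneg _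
    linarith
  positivity

theorem pw_Sg (Q : Finset ℕ) (R : ℕ → Finset ℕ) (t : ℕ) : 0 ≤ Sg Q R t ∧ Sg Q R t ≤ 1 := by
  unfold Sg
  split_ifs <;> norm_num

theorem pw_Fs_nonneg (i : Option ℕ) (t : ℕ) : 0 ≤ Fs w H N p1 i t :=
  mul_nonneg (pw_FF_nonneg w H i t) (pw_Sg _ _ t).1

theorem pw_Fs_le (i : Option ℕ) (t : ℕ) : Fs w H N p1 i t ≤ FF w H i t := by
  unfold Fs
  have h1 := pw_FF_nonneg w H i t
  have h2 := (pw_Sg (Ps w.W p1) (Rb N H) t).2
  nlinarith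

/-- If `t + h` is a prime larger than the primes of the weight, the form `t + h` does not matter. -/
theorem pw_Fs_eq {h t : ℕ} (hp : (t + h).Prime) (hP : ∀ p ∈ w.P, p < t + h) :
    Fs w H N p1 (some h) t = Fs w H N p1 none t := by
  unfold Fs FF
  have h1 : cfg w.P H (some h) t = cfg w.P H none t := by
    funext h'
    unfold cfg
    by_cases h2 : h'.1 = h
    · have h3 : (some h : Option ℕ) = some h'.1 := by rw [h2]
      rw [if_pos h3, if_neg (by simp), h2]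
      symm
      unfold Pool.Agent.Lib.H15P.hit
      rw [Finset.filter_eq_empty_iff]
      intro p _ hd
      have h4 := hP p.1 p.2
      have h5 := (Nat.prime_dvd_prime_iff_eq (w.prime p.1 p.2) hp).1 hd
      omega
    · have h3 : ¬ ((some h : Option ℕ) = some h'.1) := by
        intro h4
        rw [Option.some.injEq] at h4
        exact h2 h4.symm
      rw [if_neg h3, if_neg (by simp)]
  rw [h1]

/-- The contribution of `t` for the shift `h`. -/
noncomputable def pw_u (h t : ℕ) : ℝ := if (t + h).Prime then lg (t + h) * Fs w H N p1 none t else 0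

theorem pw_lg (p : ℕ) : 0 ≤ lg p := Real.log_natCast_nonneg p

theorem pw_u_nonneg (h t : ℕ) : 0 ≤ pw_u w H N p1 h t := by
  unfold pw_u
  split_ifs
  · exact mul_nonneg (pw_lg _) (pw_Fs_nonneg w H N p1 none t)
  · exact le_rfl

open Classical in
/-- Reindexing. -/
theorem pw_sum (hP : ∀ t ∈ Ioc (Ya N) (Yb N), ∀ p ∈ w.P, p < t) (h : ℕ) (P : ℕ → Prop) :
    ∑ p ∈ (Sh N h).filter (fun p => P (Nat.dist (N + h) p)), wh w H N p1 h p =
      ∑ t ∈ Ioc (Ya N) (Yb N), pw_u w H N p1 h t * (if P (N - t) then 1 else 0) := by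
  have h1 : ∀ t ∈ Ioc (Ya N) (Yb N), pw_u w H N p1 h t * (if P (N - t) then 1 else 0) =
      if ((t + h).Prime ∧ P (N - t)) then wh w H N p1 h (t + h) else 0 := by
    intro t ht
    unfold pw_u wh
    by_cases h2 : (t + h).Prime
    · rw [if_pos h2, Nat.add_sub_cancel,
        pw_Fs_eq w H N p1 h2 (fun p hp => by have := hP t ht p hp; omega)]
      by_cases h3 : P (N - t)
      · rw [if_pos h3, if_pos ⟨h2, h3⟩, mul_one]
      · rw [if_neg h3, if_neg (fun h4 => h3 h4.2), mul_zero]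
    · rw [if_neg h2, if_neg (show ¬ ((t + h).Prime ∧ P (N - t)) from fun h4 => h2 h4.1), zero_mul]
  rw [Finset.sum_congr rfl h1, ← Finset.sum_filter]
  symm
  have hYb := pw_Yb N
  refine Finset.sum_bij (fun t _ => t + h) ?_ ?_ ?_ ?_
  · intro t ht
    rw [Finset.mem_filter, Finset.mem_Ioc] at ht
    rw [Finset.mem_filter]
    unfold Sh
    rw [Pool.Agent.Lib.H59C.mem_Sq]
    refine ⟨⟨⟨by omega, by omega⟩, ht.2.1⟩, ?_⟩
    rw [pw_dist (by omega)]
    exact ht.2.2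
  · intro a _ b _ hab
    simpa using hab
  · intro p hp
    rw [Finset.mem_filter] at hp
    unfold Sh at hp
    rw [Pool.Agent.Lib.H59C.mem_Sq] at hp
    have h2 : p - h + h = p := by omega
    refine ⟨p - h, ?_, h2⟩
    rw [Finset.mem_filter, Finset.mem_Ioc, h2]
    refine ⟨⟨by omega, by omega⟩, hp.1.2, ?_⟩
    have h3 := hp.2
    rwa [← h2, pw_dist (by omega : p - h ≤ N)] at h3
  · intro t _
    rfl

open Classical in
/-- Rough. -/
noncomputable def pw_R (w : Par K) (H : Finset ℕ) (N t : ℕ) : ℝ :=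
  if (∀ q ∈ Pg N w.W H, (q : ℝ) < zz N → ¬ q ∣ N - t) then 1 else 0

theorem pw_R01 (t : ℕ) : 0 ≤ pw_R w H N t ∧ pw_R w H N t ≤ 1 := by
  unfold pw_R
  split_ifs <;> norm_num

open Classical in
/-- The bracket. -/
noncomputable def pw_b (w : Par K) (H : Finset ℕ) (N p1 t : ℕ) : ℝ :=
  1 - 1 / 2 * (((Qc N w.W H).filter (fun q => q ∣ N - t)).card : ℝ) -
    1 / 2 * (if Tri N (N - t) then 1 else 0) - (if p1 ∣ N - t then 1 else 0) -
    (((Bd N w.W H).filter (fun q => q ∣ N - t)).card : ℝ) -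
    (if ∃ q : ℕ, q.Prime ∧ zz N ≤ q ∧ q ^ 2 ∣ N - t then 1 else 0)

open Classical in
theorem pw_S1 (hP : ∀ t ∈ Ioc (Ya N) (Yb N), ∀ p ∈ w.P, p < t) (h : ℕ) :
    S1s w H N p1 h = ∑ t ∈ Ioc (Ya N) (Yb N), pw_u w H N p1 h t * pw_R w H N t := by
  unfold S1s Pool.Agent.Lib.H59C.sift pw_R
  convert pw_sum w H N p1 hP h (fun a => ∀ q ∈ Pg N w.W H, (q : ℝ) < zz N → ¬ q ∣ a)

open Classical in
theorem pw_S2 (hP : ∀ t ∈ Ioc (Ya N) (Yb N), ∀ p ∈ w.P, p < t) (h : ℕ) :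
    S2s w H N p1 h = ∑ t ∈ Ioc (Ya N) (Yb N), pw_u w H N p1 h t *
      (pw_R w H N t * (((Qc N w.W H).filter (fun q => q ∣ N - t)).card : ℝ)) := by
  unfold S2s Pool.Agent.Lib.H59C.sift
  have h1 : ∀ q ∈ Qc N w.W H, ∑ i ∈ ((Sh N h).filter (fun p => q ∣ Nat.dist (N + h) p)).filter
      (fun i => ∀ q ∈ Pg N w.W H, (q : ℝ) < zz N → ¬ q ∣ Nat.dist (N + h) i), wh w H N p1 h i =
      ∑ t ∈ Ioc (Ya N) (Yb N), pw_u w H N p1 h t * (pw_R w H N t *
        (if q ∣ N - t then 1 else 0)) := by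
    intro q _
    rw [Finset.filter_filter]
    have h2 := pw_sum w H N p1 hP h
      (fun a => q ∣ a ∧ ∀ q ∈ Pg N w.W H, (q : ℝ) < zz N → ¬ q ∣ a)
    have h3 : ∀ t ∈ Ioc (Ya N) (Yb N), pw_u w H N p1 h t * (pw_R w H N t *
        (if q ∣ N - t then 1 else 0)) = pw_u w H N p1 h t *
        (if (q ∣ N - t ∧ ∀ q ∈ Pg N w.W H, (q : ℝ) < zz N → ¬ q ∣ N - t) then 1 else 0) := by
      intro t _
      congr 1
      unfold pw_R
      by_cases h4 : q ∣ N - t
      · by_cases h5 : ∀ q ∈ Pg N w.W H, (q : ℝ) < zz N → ¬ q ∣ N - t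
        · rw [if_pos h4, if_pos h5, if_pos ⟨h4, h5⟩, mul_one]
        · rw [if_pos h4, if_neg h5, if_neg (fun h6 => h5 h6.2), zero_mul]
      · rw [if_neg h4, if_neg (show ¬ (q ∣ N - t ∧ ∀ q ∈ Pg N w.W H, (q : ℝ) < zz N → ¬ q ∣ N - t)
          from fun h6 => h4 h6.1), mul_zero]
    rw [Finset.sum_congr rfl h3]
    convert h2
  rw [Finset.sum_congr rfl h1, Finset.sum_comm]
  refine Finset.sum_congr rfl fun t _ => ?_
  rw [← Finset.mul_sum, ← Finset.mul_sum, Finset.sum_boole]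

open Classical in
theorem pw_S3 (hP : ∀ t ∈ Ioc (Ya N) (Yb N), ∀ p ∈ w.P, p < t) (h : ℕ) :
    ∑ t ∈ Ioc (Ya N) (Yb N), pw_u w H N p1 h t *
      (pw_R w H N t * (if Tri N (N - t) then 1 else 0)) ≤ S3s w H N p1 h := by
  unfold S3s
  have h1 := pw_sum w H N p1 hP h (fun a => Tri N a)
  have h2 : ∑ p ∈ (Sh N h).filter (fun p => Tri N (Nat.dist (N + h) p)), wh w H N p1 h p =
      ∑ t ∈ Ioc (Ya N) (Yb N), pw_u w H N p1 h t * (if Tri N (N - t) then 1 else 0) := by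
    convert h1
  rw [h2]
  refine Finset.sum_le_sum fun t _ => ?_
  refine mul_le_mul_of_nonneg_left ?_ (pw_u_nonneg w H N p1 h t)
  have h3 := pw_R01 w H N t
  split_ifs <;> linarith

open Classical in
theorem pw_E1 (hP : ∀ t ∈ Ioc (Ya N) (Yb N), ∀ p ∈ w.P, p < t) (h : ℕ) :
    ∑ t ∈ Ioc (Ya N) (Yb N), pw_u w H N p1 h t *
      (pw_R w H N t * (if p1 ∣ N - t then 1 else 0)) = E1s w H N p1 h := by
  unfold E1s
  have h2 := pw_sum w H N p1 hP h
    (fun a => p1 ∣ a ∧ ∀ q ∈ Pg N w.W H, (q : ℝ) < zz N → ¬ q ∣ a)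
  have h3 : ∀ t ∈ Ioc (Ya N) (Yb N), pw_u w H N p1 h t * (pw_R w H N t *
      (if p1 ∣ N - t then 1 else 0)) = pw_u w H N p1 h t *
      (if (p1 ∣ N - t ∧ ∀ q ∈ Pg N w.W H, (q : ℝ) < zz N → ¬ q ∣ N - t) then 1 else 0) := by
    intro t _
    congr 1
    unfold pw_R
    by_cases h4 : p1 ∣ N - t
    · by_cases h5 : ∀ q ∈ Pg N w.W H, (q : ℝ) < zz N → ¬ q ∣ N - t
      · rw [if_pos h4, if_pos h5, if_pos ⟨h4, h5⟩, mul_one]
      · rw [if_pos h4, if_neg h5, if_neg (fun h6 => h5 h6.2), zero_mul]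
    · rw [if_neg h4, if_neg (show ¬ (p1 ∣ N - t ∧ ∀ q ∈ Pg N w.W H, (q : ℝ) < zz N → ¬ q ∣ N - t)
        from fun h6 => h4 h6.1), mul_zero]
  rw [Finset.sum_congr rfl h3]
  symm
  convert h2

open Classical in
theorem pw_E2 (hP : ∀ t ∈ Ioc (Ya N) (Yb N), ∀ p ∈ w.P, p < t) (h : ℕ) :
    ∑ t ∈ Ioc (Ya N) (Yb N), pw_u w H N p1 h t *
      (pw_R w H N t * (((Bd N w.W H).filter (fun q => q ∣ N - t)).card : ℝ)) ≤
      E2s w H N p1 h := by
  unfold E2s
  have h1 : ∀ q ∈ Bd N w.W H, ∑ p ∈ (Sh N h).filter (fun p => q ∣ Nat.dist (N + h) p),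
      wh w H N p1 h p =
      ∑ t ∈ Ioc (Ya N) (Yb N), pw_u w H N p1 h t * (if q ∣ N - t then 1 else 0) := by
    intro q _
    have h2 := pw_sum w H N p1 hP h (fun a => q ∣ a)
    convert h2
  rw [Finset.sum_congr rfl h1, Finset.sum_comm]
  refine Finset.sum_le_sum fun t _ => ?_
  rw [← Finset.mul_sum, Finset.sum_boole]
  refine mul_le_mul_of_nonneg_left ?_ (pw_u_nonneg w H N p1 h t)
  have h3 := pw_R01 w H N t
  have h4 : (0 : ℝ) ≤ (((Bd N w.W H).filter (fun q => q ∣ N - t)).card : ℝ) := Nat.cast_nonneg _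
  nlinarith

open Classical in
theorem pw_E3 (hP : ∀ t ∈ Ioc (Ya N) (Yb N), ∀ p ∈ w.P, p < t) (h : ℕ) :
    ∑ t ∈ Ioc (Ya N) (Yb N), pw_u w H N p1 h t *
      (pw_R w H N t * (if ∃ q : ℕ, q.Prime ∧ zz N ≤ q ∧ q ^ 2 ∣ N - t then 1 else 0)) ≤
      E3s w H N p1 h := by
  unfold E3s
  have h1 := pw_sum w H N p1 hP h (fun a => ∃ q : ℕ, q.Prime ∧ zz N ≤ q ∧ q ^ 2 ∣ a)
  rw [h1]
  refine Finset.sum_le_sum fun t _ => ?_
  refine mul_le_mul_of_nonneg_left ?_ (pw_u_nonneg w H N p1 h t)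
  have h3 := pw_R01 w H N t
  split_ifs <;> linarith

open Classical in
theorem pw_N : Ns w H N p1 = ∑ t ∈ Ioc (Ya N) (Yb N), pw_R w H N t * Fs w H N p1 none t := by
  unfold Ns Pool.Agent.Lib.H59C.sift pw_R
  rw [Finset.sum_filter]
  refine Finset.sum_congr rfl fun t _ => ?_
  split_ifs <;> simp

/-- The weighted sum as a sum over `t`. -/
theorem pw_T (hP : ∀ t ∈ Ioc (Ya N) (Yb N), ∀ p ∈ w.P, p < t) (g : ℕ) :
    Tt w H N p1 g ≤ ∑ t ∈ Ioc (Ya N) (Yb N), pw_R w H N t *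
      (pw_b w H N p1 t * ∑ h ∈ H, pw_u w H N p1 h t -
        ((g : ℝ) - 1) * Real.log (2 * N) * Fs w H N p1 none t) := by
  have h1 : ∀ h ∈ H, S1s w H N p1 h - 1 / 2 * S2s w H N p1 h - 1 / 2 * S3s w H N p1 h -
      E1s w H N p1 h - E2s w H N p1 h - E3s w H N p1 h ≤
      ∑ t ∈ Ioc (Ya N) (Yb N), pw_u w H N p1 h t * (pw_R w H N t * pw_b w H N p1 t) := by
    intro h _
    have h3 := pw_S3 w H N p1 hP h
    have h4 := pw_E1 w H N p1 hP h
    have h5 := pw_E2 w H N p1 hP h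
    have h6 := pw_E3 w H N p1 hP h
    rw [pw_S1 w H N p1 hP h, pw_S2 w H N p1 hP h]
    have h7 : ∑ t ∈ Ioc (Ya N) (Yb N), pw_u w H N p1 h t * (pw_R w H N t * pw_b w H N p1 t) =
        ∑ t ∈ Ioc (Ya N) (Yb N), pw_u w H N p1 h t * pw_R w H N t -
        1 / 2 * ∑ t ∈ Ioc (Ya N) (Yb N), pw_u w H N p1 h t *
          (pw_R w H N t * (((Qc N w.W H).filter (fun q => q ∣ N - t)).card : ℝ)) -
        1 / 2 * ∑ t ∈ Ioc (Ya N) (Yb N), pw_u w H N p1 h t *
          (pw_R w H N t * (open Classical in if Tri N (N - t) then 1 else 0)) -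
        ∑ t ∈ Ioc (Ya N) (Yb N), pw_u w H N p1 h t *
          (pw_R w H N t * (open Classical in if p1 ∣ N - t then 1 else 0)) -
        ∑ t ∈ Ioc (Ya N) (Yb N), pw_u w H N p1 h t *
          (pw_R w H N t * (((Bd N w.W H).filter (fun q => q ∣ N - t)).card : ℝ)) -
        ∑ t ∈ Ioc (Ya N) (Yb N), pw_u w H N p1 h t *
          (pw_R w H N t *
            (open Classical in if ∃ q : ℕ, q.Prime ∧ zz N ≤ q ∧ q ^ 2 ∣ N - t then 1 else 0)) := by
      rw [Finset.mul_sum, Finset.mul_sum, ← Finset.sum_sub_distrib, ← Finset.sum_sub_distrib,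
        ← Finset.sum_sub_distrib, ← Finset.sum_sub_distrib, ← Finset.sum_sub_distrib]
      refine Finset.sum_congr rfl fun t _ => ?_
      unfold pw_b
      ring
    rw [h7]
    linarith
  unfold Tt
  rw [pw_N]
  have h2 := Finset.sum_le_sum h1
  rw [Finset.sum_comm] at h2
  have h3 : ∑ t ∈ Ioc (Ya N) (Yb N), pw_R w H N t *
      (pw_b w H N p1 t * ∑ h ∈ H, pw_u w H N p1 h t -
        ((g : ℝ) - 1) * Real.log (2 * N) * Fs w H N p1 none t) =
      ∑ t ∈ Ioc (Ya N) (Yb N), ∑ h ∈ H,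
        pw_u w H N p1 h t * (pw_R w H N t * pw_b w H N p1 t) -
      ((g : ℝ) - 1) * Real.log (2 * N) *
        ∑ t ∈ Ioc (Ya N) (Yb N), pw_R w H N t * Fs w H N p1 none t := by
    rw [Finset.mul_sum, ← Finset.sum_sub_distrib]
    refine Finset.sum_congr rfl fun t _ => ?_
    rw [← Finset.sum_mul]
    ring
  rw [h3]
  linarith

/-- Only good `t` contribute positively. -/
theorem T_le (K B cF : ℕ) (θ G : ℝ) (hK : 1 ≤ K) (hB : 3 ≤ B) (g : ℕ) (hg : 1 ≤ g) :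
    ∃ n0 : ℕ, ∀ N : ℕ, n0 ≤ N →
    ∀ (w : Par K) (H : Finset ℕ) (p1 : ℕ), Reg B cF θ G w H N p1 →
    Tt w H N p1 g ≤ K * Real.log (2 * N) * ∑ t ∈ Gd H N g, FF w H none t := by
  classical
  obtain ⟨n1, hn1⟩ := pw_one K B
  obtain ⟨n2, hn2⟩ := pw_big B
  refine ⟨n1 + n2, fun N hN w H p1 hR => ?_⟩
  obtain ⟨hN1, hN2⟩ := hn2 N (by omega)
  obtain ⟨hW1, hW2⟩ := hN2 w.W hR.Wdef
  have hN1' : (1000 : ℝ) ≤ N := by exact_mod_cast hN1
  have hYb := pw_Yb N
  have hYa : N / 3 ≤ Ya N := by unfold Ya; omega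
  have hP : ∀ t ∈ Ioc (Ya N) (Yb N), ∀ p ∈ w.P, p < t := by
    intro t ht p hp
    rw [Finset.mem_Ioc] at ht
    have h1 := hR.PN p hp
    have h2 : (N : ℝ) ^ (1 / 100 : ℝ) ≤ (N : ℝ) ^ (1 / 2 : ℝ) :=
      Real.rpow_le_rpow_of_exponent_le (by linarith) (by norm_num)
    have h3 : (N : ℝ) ^ (1 / 2 : ℝ) ≤ N / 30 := by
      rw [← Real.sqrt_eq_rpow]
      rw [Real.sqrt_le_left (by positivity)]
      nlinarith
    have h4 : (30 * p : ℝ) ≤ N := by linarith
    have h5 : 30 * p ≤ N := by exact_mod_cast h4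
    omega
  refine (pw_T w H N p1 hP g).trans ?_
  have hlog : 0 ≤ Real.log (2 * N) := Real.log_nonneg (by linarith)
  have hg1 : (1 : ℝ) ≤ g := by exact_mod_cast hg
  have hKr : (1 : ℝ) ≤ K := by exact_mod_cast hK
  have hGd : Gd H N g ⊆ Ioc (Ya N) (Yb N) := by
    unfold Gd
    exact Finset.filter_subset _ _
  rw [Finset.mul_sum]
  have hsplit : ∑ t ∈ Gd H N g, (K : ℝ) * Real.log (2 * N) * FF w H none t =
      ∑ t ∈ Ioc (Ya N) (Yb N), if t ∈ Gd H N g then (K : ℝ) * Real.log (2 * N) * FF w H none t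
        else 0 := by
    rw [← Finset.sum_filter]
    refine Finset.sum_congr ?_ fun _ _ => rfl
    ext t
    rw [Finset.mem_filter]
    exact ⟨fun h => ⟨hGd h, h⟩, fun h => h.2⟩
  rw [hsplit]
  refine Finset.sum_le_sum fun t ht => ?_
  have ht' := Finset.mem_Ioc.1 ht
  have hA := pw_Fs_nonneg w H N p1 none t
  have hFF := pw_FF_nonneg w H none t
  have hrhs : (0 : ℝ) ≤ if t ∈ Gd H N g then (K : ℝ) * Real.log (2 * N) * FF w H none t else 0 := by
    split_ifs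
    · positivity
    · exact le_rfl
  -- trivial cases
  by_cases hrough : ∀ q ∈ Pg N w.W H, (q : ℝ) < zz N → ¬ q ∣ N - t
  swap
  · have h1 : pw_R w H N t = 0 := by unfold pw_R; rw [if_neg hrough]
    rw [h1, zero_mul]
    exact hrhs
  have h1 : pw_R w H N t = 1 := by unfold pw_R; rw [if_pos hrough]
  rw [h1, one_mul]
  have hu0 : 0 ≤ ∑ h ∈ H, pw_u w H N p1 h t :=
    Finset.sum_nonneg fun h _ => pw_u_nonneg w H N p1 h t
  rcases le_or_gt (pw_b w H N p1 t) 0 with hb | hb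
  · refine le_trans ?_ hrhs
    have h2 : pw_b w H N p1 t * ∑ h ∈ H, pw_u w H N p1 h t ≤ 0 :=
      mul_nonpos_of_nonpos_of_nonneg hb hu0
    have h3 : 0 ≤ ((g : ℝ) - 1) * Real.log (2 * N) * Fs w H N p1 none t :=
      mul_nonneg (mul_nonneg (by linarith) hlog) hA
    linarith
  -- the sum over the shifts
  have hcard : ∑ h ∈ H, pw_u w H N p1 h t ≤
      ((H.filter (fun h => (t + h).Prime)).card : ℝ) * Real.log (2 * N) * Fs w H N p1 none t := by
    have h2 : ∀ h ∈ H, pw_u w H N p1 h t ≤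
        (if (t + h).Prime then 1 else 0) * (Real.log (2 * N) * Fs w H N p1 none t) := by
      intro h hh
      unfold pw_u
      split_ifs with h3
      · rw [one_mul]
        refine mul_le_mul_of_nonneg_right ?_ hA
        unfold lg
        refine Real.log_le_log (by exact_mod_cast h3.pos) ?_
        have h4 := hR.HW h hh
        have h5 : t + h ≤ 2 * N := by omega
        exact_mod_cast h5
      · simp
    refine (Finset.sum_le_sum h2).trans (le_of_eq ?_)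
    rw [← Finset.sum_mul, Finset.sum_boole, mul_assoc]
  have hbR : pw_b w H N p1 t ≤ 1 := by
    unfold pw_b
    have e1 : (0 : ℝ) ≤ (((Qc N w.W H).filter (fun q => q ∣ N - t)).card : ℝ) := Nat.cast_nonneg _
    have e2 : (0 : ℝ) ≤ (((Bd N w.W H).filter (fun q => q ∣ N - t)).card : ℝ) := Nat.cast_nonneg _
    split_ifs <;> linarith
  by_cases hr : g ≤ (H.filter (fun h => (t + h).Prime)).card
  · -- `t` is good
    have hne : (H.filter (fun h => (t + h).Prime)).Nonempty := by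
      rw [← Finset.card_pos]
      omega
    by_cases hS : Sg (Ps w.W p1) (Rb N H) t = 0
    · have h2 : Fs w H N p1 none t = 0 := by unfold Fs; rw [hS, mul_zero]
      have h3 : ∑ h ∈ H, pw_u w H N p1 h t ≤ 0 := by
        refine hcard.trans (le_of_eq ?_)
        rw [h2, mul_zero]
      have h4 : pw_b w H N p1 t * ∑ h ∈ H, pw_u w H N p1 h t ≤ 0 :=
        mul_nonpos_of_nonneg_of_nonpos hb.le h3
      rw [h2, mul_zero]
      linarith
    obtain ⟨h, hh⟩ := hne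
    rw [Finset.mem_filter] at hh
    obtain ⟨hhH, hhp⟩ := hh
    have hhW := hR.HW h hhH
    have hd : Nat.dist (N + h) (t + h) = N - t := pw_dist (by omega)
    have hts : t + h - h = t := Nat.add_sub_cancel t h
    -- consequences of the positive bracket
    have e1 : (0 : ℝ) ≤ (((Qc N w.W H).filter (fun q => q ∣ N - t)).card : ℝ) := Nat.cast_nonneg _
    have e2 : (0 : ℝ) ≤ (((Bd N w.W H).filter (fun q => q ∣ N - t)).card : ℝ) := Nat.cast_nonneg _
    have e3 : (0 : ℝ) ≤ (if Tri N (N - t) then (1 : ℝ) else 0) := by split_ifs <;> norm_num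
    have e4 : (0 : ℝ) ≤ (if p1 ∣ N - t then (1 : ℝ) else 0) := by split_ifs <;> norm_num
    have e5 : (0 : ℝ) ≤ (if ∃ q : ℕ, q.Prime ∧ zz N ≤ q ∧ q ^ 2 ∣ N - t then (1 : ℝ) else 0) := by
      split_ifs <;> norm_num
    have hb' := hb
    unfold pw_b at hb'
    have f1 : ¬ p1 ∣ N - t := by
      intro h2
      rw [if_pos h2] at hb'
      linarith
    have f2 : ∀ q ∈ Bd N w.W H, ¬ q ∣ N - t := by
      intro q hq hqd
      have h2 : 1 ≤ ((Bd N w.W H).filter (fun q => q ∣ N - t)).card :=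
        Finset.card_pos.2 ⟨q, Finset.mem_filter.2 ⟨hq, hqd⟩⟩
      have h3 : (1 : ℝ) ≤ (((Bd N w.W H).filter (fun q => q ∣ N - t)).card : ℝ) := by
        exact_mod_cast h2
      linarith
    have f3 : ∀ q : ℕ, q.Prime → zz N ≤ q → ¬ q ^ 2 ∣ N - t := by
      intro q hq hqz hqd
      rw [if_pos (⟨q, hq, hqz, hqd⟩ : ∃ q : ℕ, q.Prime ∧ zz N ≤ q ∧ q ^ 2 ∣ N - t)] at hb'
      linarith
    have hAP : AP2 N (N - t) := by
      have h2 := hn1 N (by omega) w.W p1 H hR.Wdef hR.HW hR.p1p hR.even h hhH (t + h)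
        (by
          unfold Sh
          rw [Pool.Agent.Lib.H59C.mem_Sq]
          exact ⟨⟨by omega, by omega⟩, hhp⟩)
        (by rw [hts]; exact hS)
        (by rw [hd]; exact f1)
        (by rw [hd]; exact f2)
        (by rw [hd]; exact f3)
        (by rw [hd]; exact hrough)
        (by rw [hd]; linarith)
      rwa [hd] at h2
    have hin : t ∈ Gd H N g := by
      unfold Gd
      rw [Finset.mem_filter]
      exact ⟨ht, hr, hAP⟩
    rw [if_pos hin]
    have hc : ((H.filter (fun h => (t + h).Prime)).card : ℝ) ≤ K := by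
      have h2 := Finset.card_filter_le H (fun h => (t + h).Prime)
      rw [hR.cardH] at h2
      exact_mod_cast h2
    have h2 : pw_b w H N p1 t * ∑ h ∈ H, pw_u w H N p1 h t ≤ ∑ h ∈ H, pw_u w H N p1 h t := by
      nlinarith
    have h3 : 0 ≤ ((g : ℝ) - 1) * Real.log (2 * N) * Fs w H N p1 none t :=
      mul_nonneg (mul_nonneg (by linarith) hlog) hA
    have h4 : ((H.filter (fun h => (t + h).Prime)).card : ℝ) * Real.log (2 * N) *
        Fs w H N p1 none t ≤ K * Real.log (2 * N) * FF w H none t :=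
      mul_le_mul (mul_le_mul_of_nonneg_right hc hlog) (pw_Fs_le w H N p1 none t) hA
        (by positivity)
    linarith
  · -- fewer than `g` primes
    refine le_trans ?_ hrhs
    push Not at hr
    have hc : ((H.filter (fun h => (t + h).Prime)).card : ℝ) ≤ (g : ℝ) - 1 := by
      have h2 : (H.filter (fun h => (t + h).Prime)).card + 1 ≤ g := hr
      have h3 : (((H.filter (fun h => (t + h).Prime)).card + 1 : ℕ) : ℝ) ≤ g := by
        exact_mod_cast h2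
      rw [Nat.cast_add, Nat.cast_one] at h3
      linarith
    have h2 : pw_b w H N p1 t * ∑ h ∈ H, pw_u w H N p1 h t ≤ ∑ h ∈ H, pw_u w H N p1 h t := by
      nlinarith
    have h4 : ((H.filter (fun h => (t + h).Prime)).card : ℝ) * Real.log (2 * N) *
        Fs w H N p1 none t ≤ ((g : ℝ) - 1) * Real.log (2 * N) * Fs w H N p1 none t :=
      mul_le_mul_of_nonneg_right (mul_le_mul_of_nonneg_right hc hlog) hA
    linarith

end Pool.Agent.Lib.H57C
end
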