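import Pool.Agent.Lib.H1M.RV.M004

/-! Merged copies (to shorten the build) of Lib.H68T.VA. -/

-- from Lib.H68T.VA
section

/-!
# Chunk VA: Vaughan's bound for exponential sums over primes
-/

open Finset

namespace Pool.Agent.Lib.H68T

/-! ### Vaughan's identity -/

/-- The part of an arithmetic function supported on `n ≤ U`. -/
noncomputable def VAcut (f : ArithmeticFunction ℝ) (U : ℕ) : ArithmeticFunction ℝ :=
  ⟨fun n => if n ≤ U then f n else 0, by simp⟩

/-- The part of an arithmetic function supported on `n > U`. -/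
noncomputable def VArest (f : ArithmeticFunction ℝ) (U : ℕ) : ArithmeticFunction ℝ :=
  ⟨fun n => if n ≤ U then 0 else f n, by simp⟩

theorem VAcut_apply (f : ArithmeticFunction ℝ) (U n : ℕ) :
    VAcut f U n = if n ≤ U then f n else 0 := rfl

theorem VArest_apply (f : ArithmeticFunction ℝ) (U n : ℕ) :
    VArest f U n = if n ≤ U then 0 else f n := rfl

theorem VA_split (f : ArithmeticFunction ℝ) (U : ℕ) : VAcut f U + VArest f U = f := by
  ext n
  rw [ArithmeticFunction.add_apply, VAcut_apply, VArest_apply]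
  split_ifs <;> simp

theorem VA_identity (U : ℕ) :
    (ArithmeticFunction.vonMangoldt : ArithmeticFunction ℝ) =
      VAcut ArithmeticFunction.vonMangoldt U +
      VAcut ((ArithmeticFunction.moebius : ArithmeticFunction ℤ) : ArithmeticFunction ℝ) U *
        ArithmeticFunction.log -
      (VAcut ((ArithmeticFunction.moebius : ArithmeticFunction ℤ) : ArithmeticFunction ℝ) U *
        VAcut ArithmeticFunction.vonMangoldt U) *
        ((ArithmeticFunction.zeta : ArithmeticFunction ℕ) : ArithmeticFunction ℝ) +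
      VArest ((ArithmeticFunction.moebius : ArithmeticFunction ℤ) : ArithmeticFunction ℝ) U *
        (VArest ArithmeticFunction.vonMangoldt U *
          ((ArithmeticFunction.zeta : ArithmeticFunction ℕ) : ArithmeticFunction ℝ)) := by
  set Z : ArithmeticFunction ℝ := ((ArithmeticFunction.zeta : ArithmeticFunction ℕ) :
    ArithmeticFunction ℝ)
  set M : ArithmeticFunction ℝ := ((ArithmeticFunction.moebius : ArithmeticFunction ℤ) :
    ArithmeticFunction ℝ)
  have h1 : (ArithmeticFunction.vonMangoldt : ArithmeticFunction ℝ) * Z =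
      ArithmeticFunction.log := ArithmeticFunction.vonMangoldt_mul_zeta
  have h2 : M * Z = 1 := ArithmeticFunction.coe_moebius_mul_coe_zeta
  have hL := VA_split ArithmeticFunction.vonMangoldt U
  have hM := VA_split M U
  set L := (ArithmeticFunction.vonMangoldt : ArithmeticFunction ℝ)
  set L1 := VAcut L U
  set L2 := VArest L U
  set M1 := VAcut M U
  set M2 := VArest M U
  rw [← h1]
  have e1 : M1 * (L * Z) - M1 * L1 * Z + M2 * (L2 * Z) = (M1 + M2) * Z * L2 := by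
    rw [← hL]; ring
  have e2 : L1 + M1 * (L * Z) - M1 * L1 * Z + M2 * (L2 * Z) =
      L1 + (M1 * (L * Z) - M1 * L1 * Z + M2 * (L2 * Z)) := by ring
  rw [e2, e1, hM, h2, one_mul, hL]

/-! ### Convolution sums -/

theorem VA_conv (f g : ArithmeticFunction ℝ) (h : ℕ → ℂ) (N u v : ℕ) (hv : v ≤ N) :
    ∑ m ∈ Ico u v, (((f * g) m : ℝ) : ℂ) * h m =
      ∑ x ∈ Icc 1 N, ∑ y ∈ (Icc 1 N).filter (fun y => u ≤ x * y ∧ x * y < v),
        ((f x : ℝ) : ℂ) * ((g y : ℝ) : ℂ) * h (x * y) := by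
  have e1 : ∀ m ∈ Ico u v, (((f * g) m : ℝ) : ℂ) * h m =
      ∑ x ∈ m.divisorsAntidiagonal, ((f x.1 : ℝ) : ℂ) * ((g x.2 : ℝ) : ℂ) * h (x.1 * x.2) := by
    intro m _
    rw [ArithmeticFunction.mul_apply, Complex.ofReal_sum, Finset.sum_mul]
    refine Finset.sum_congr rfl fun x hx => ?_
    rw [Nat.mem_divisorsAntidiagonal] at hx
    rw [hx.1, Complex.ofReal_mul]
  rw [Finset.sum_congr rfl e1]
  rw [Finset.sum_sigma', Finset.sum_sigma']
  refine Finset.sum_bij' (fun p _ => (⟨p.2.1, p.2.2⟩ : Σ _ : ℕ, ℕ))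
    (fun p _ => (⟨p.1 * p.2, (p.1, p.2)⟩ : Σ _ : ℕ, ℕ × ℕ)) ?_ ?_ ?_ ?_ ?_
  · rintro ⟨m, x, y⟩ hp
    simp only [mem_sigma, mem_Ico, Nat.mem_divisorsAntidiagonal, mem_filter, mem_Icc] at hp ⊢
    obtain ⟨⟨hu, hv'⟩, hxy, hm⟩ := hp
    have hx : x ≠ 0 := by rintro rfl; simp at hxy; omega
    have hy : y ≠ 0 := by rintro rfl; simp at hxy; omega
    have hx1 : 1 ≤ x := Nat.one_le_iff_ne_zero.mpr hx
    have hy1 : 1 ≤ y := Nat.one_le_iff_ne_zero.mpr hy
    have h1 : x ≤ x * y := Nat.le_mul_of_pos_right x (by omega)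
    have h2 : y ≤ x * y := Nat.le_mul_of_pos_left y (by omega)
    refine ⟨⟨hx1, by omega⟩, ⟨hy1, by omega⟩, by omega, by omega⟩
  · rintro ⟨x, y⟩ hp
    simp only [mem_sigma, mem_Ico, Nat.mem_divisorsAntidiagonal, mem_filter, mem_Icc] at hp ⊢
    obtain ⟨⟨hx, _⟩, ⟨hy, _⟩, hu, hv'⟩ := hp
    refine ⟨⟨hu, hv'⟩, trivial, ?_⟩
    exact Nat.mul_ne_zero (by omega) (by omega)
  · rintro ⟨m, x, y⟩ hp
    simp only [mem_sigma, mem_Ico, Nat.mem_divisorsAntidiagonal] at hp
    obtain ⟨_, hxy, _⟩ := hp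
    subst hxy
    rfl
  · rintro ⟨x, y⟩ _
    rfl
  · rintro ⟨m, x, y⟩ _
    rfl

/-! ### The inner intervals -/

/-- Lower end of the inner interval. -/
noncomputable def VAlo (k u d : ℕ) : ℕ := max k ⌈(u : ℝ) / d⌉₊

/-- Upper end of the inner interval. -/
noncomputable def VAhi (k u v d : ℕ) : ℕ := max (VAlo k u d) ⌈(v : ℝ) / d⌉₊

theorem VA_mem (k u v N d y : ℕ) (hk : 1 ≤ k) (hd : 1 ≤ d) (hv : v ≤ N) :
    y ∈ ((Icc 1 N).filter (fun y => u ≤ d * y ∧ d * y < v)).filter (fun y => k ≤ y) ↔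
      y ∈ Ico (VAlo k u d) (VAhi k u v d) := by
  have hd0 : (0 : ℝ) < d := by exact_mod_cast hd
  have h1 : u ≤ d * y ↔ ⌈(u : ℝ) / d⌉₊ ≤ y := by
    rw [Nat.ceil_le, div_le_iff₀ hd0]
    constructor
    · intro h; have : (u : ℝ) ≤ ((d * y : ℕ) : ℝ) := by exact_mod_cast h
      push_cast at this; linarith
    · intro h; have : (u : ℝ) ≤ ((d * y : ℕ) : ℝ) := by push_cast; linarith
      exact_mod_cast this
  have h2 : d * y < v ↔ y < ⌈(v : ℝ) / d⌉₊ := by
    rw [Nat.lt_ceil, lt_div_iff₀ hd0]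
    constructor
    · intro h; have : ((d * y : ℕ) : ℝ) < v := by exact_mod_cast h
      push_cast at this; linarith
    · intro h; have : ((d * y : ℕ) : ℝ) < v := by push_cast; linarith
      exact_mod_cast this
  simp only [mem_filter, mem_Icc, mem_Ico, h1, VAlo, VAhi, max_le_iff, lt_max_iff]
  constructor
  · rintro ⟨⟨⟨hy1, hyN⟩, ha, hb⟩, hc⟩
    exact ⟨⟨hc, ha⟩, Or.inr (h2.mp hb)⟩
  · rintro ⟨⟨hc, ha⟩, hb⟩
    have hb' : y < ⌈(v : ℝ) / d⌉₊ := by
      rcases hb with hb | hb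
      · rcases hb with hb | hb <;> omega
      · exact hb
    have hb2 := h2.mpr hb'
    have : y ≤ d * y := Nat.le_mul_of_pos_left y (by omega)
    exact ⟨⟨⟨by omega, by omega⟩, ha, hb2⟩, hc⟩

theorem VA_len (k u v N d : ℕ) (hk : 1 ≤ k) (hv : v ≤ N) :
    (((VAhi k u v d : ℕ) : ℤ) - ((VAlo k u d : ℕ) : ℤ) : ℝ) ≤ (N : ℝ) / d + 1 := by
  have hlo : k ≤ VAlo k u d := le_max_left _ _
  have hN : (0 : ℝ) ≤ (N : ℝ) / d := by positivity
  have hvN : (v : ℝ) / d ≤ (N : ℝ) / d := by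
    apply div_le_div_of_nonneg_right _ (by positivity)
    exact_mod_cast hv
  have hc : ((⌈(v : ℝ) / d⌉₊ : ℕ) : ℝ) < (v : ℝ) / d + 1 := Nat.ceil_lt_add_one (by positivity)
  have hlo' : (1 : ℝ) ≤ (VAlo k u d : ℕ) := by exact_mod_cast hk.trans hlo
  rcases le_total (VAlo k u d) ⌈(v : ℝ) / d⌉₊ with h | h
  · have : VAhi k u v d = ⌈(v : ℝ) / d⌉₊ := max_eq_right h
    rw [this]; push_cast; linarith
  · have : VAhi k u v d = VAlo k u d := max_eq_left h
    rw [this]; push_cast; linarith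

theorem VA_inner (k u v N d : ℕ) (θ : ℝ) (hk : 1 ≤ k) (hd : 1 ≤ d) (hv : v ≤ N) :
    ∑ y ∈ ((Icc 1 N).filter (fun y => u ≤ d * y ∧ d * y < v)).filter (fun y => k ≤ y),
      e (((d * y : ℕ) : ℝ) * θ) =
    ∑ n ∈ Ico ((VAlo k u d : ℕ) : ℤ) ((VAhi k u v d : ℕ) : ℤ), e ((d : ℝ) * (n : ℝ) * θ) := by
  have e1 : ((Icc 1 N).filter (fun y => u ≤ d * y ∧ d * y < v)).filter (fun y => k ≤ y) =
      Ico (VAlo k u d) (VAhi k u v d) := by
    ext y; exact VA_mem k u v N d y hk hd hv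
  rw [e1]
  refine Finset.sum_nbij' (fun y : ℕ => (y : ℤ)) Int.toNat ?_ ?_ ?_ ?_ ?_
  · intro y hy
    rw [mem_Ico] at hy ⊢
    exact ⟨by exact_mod_cast hy.1, by exact_mod_cast hy.2⟩
  · intro n hn
    rw [mem_Ico] at hn ⊢
    omega
  · intro y _; simp
  · intro n hn
    rw [mem_Ico] at hn
    have : 0 ≤ n := le_trans (by positivity) hn.1
    exact Int.toNat_of_nonneg this
  · intro y _
    push_cast
    ring_nf

/-! ### Elementary estimates -/

theorem VA_norm_e (x : ℝ) : ‖e x‖ = 1 := by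
  unfold e
  have : (2 * Real.pi * x * Complex.I : ℂ) = ((2 * Real.pi * x : ℝ) : ℂ) * Complex.I := by
    push_cast; ring
  rw [this]
  exact Complex.norm_exp_ofReal_mul_I _

theorem VA_moeb_le (n : ℕ) :
    |((ArithmeticFunction.moebius : ArithmeticFunction ℤ) : ArithmeticFunction ℝ) n| ≤ 1 := by
  rw [ArithmeticFunction.intCoe_apply]
  have := ArithmeticFunction.abs_moebius_le_one (n := n)
  rw [← Int.cast_abs]
  exact_mod_cast this

theorem VA_cut_moeb_le (U n : ℕ) :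
    |VAcut ((ArithmeticFunction.moebius : ArithmeticFunction ℤ) : ArithmeticFunction ℝ) U n| ≤ 1 := by
  rw [VAcut_apply]
  split_ifs
  · exact VA_moeb_le n
  · simp

theorem VA_rest_moeb_le (U n : ℕ) :
    |VArest ((ArithmeticFunction.moebius : ArithmeticFunction ℤ) : ArithmeticFunction ℝ) U n| ≤ 1 := by
  rw [VArest_apply]
  split_ifs
  · simp
  · exact VA_moeb_le n

/-- The sum of `Λ` over the divisors in any set of divisors is at most the logarithm. -/
theorem VA_sum_vM (n : ℕ) : ∑ x ∈ n.divisorsAntidiagonal, ArithmeticFunction.vonMangoldt x.2 =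
    Real.log n := by
  have h : ((ArithmeticFunction.zeta : ArithmeticFunction ℕ) : ArithmeticFunction ℝ) *
      (ArithmeticFunction.vonMangoldt : ArithmeticFunction ℝ) = ArithmeticFunction.log := by
    rw [mul_comm]; exact ArithmeticFunction.vonMangoldt_mul_zeta
  have h2 := congrArg (fun f : ArithmeticFunction ℝ => f n) h
  simp only [ArithmeticFunction.mul_apply, ArithmeticFunction.log_apply] at h2
  rw [← h2]
  refine Finset.sum_congr rfl fun x hx => ?_
  have hx' := Nat.mem_divisorsAntidiagonal.mp hx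
  have : x.1 ≠ 0 := by rintro h0; rw [h0] at hx'; simp at hx'; omega
  rw [ArithmeticFunction.natCoe_apply, ArithmeticFunction.zeta_apply_ne this]
  simp

theorem VA_coef_le (U n : ℕ) :
    |(VAcut ((ArithmeticFunction.moebius : ArithmeticFunction ℤ) : ArithmeticFunction ℝ) U *
        VAcut ArithmeticFunction.vonMangoldt U) n| ≤ Real.log n := by
  rw [ArithmeticFunction.mul_apply, ← VA_sum_vM n]
  refine (Finset.abs_sum_le_sum_abs _ _).trans (Finset.sum_le_sum fun x _ => ?_)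
  rw [abs_mul]
  have h1 := VA_cut_moeb_le U x.1
  have h2 : |VAcut ArithmeticFunction.vonMangoldt U x.2| ≤ ArithmeticFunction.vonMangoldt x.2 := by
    rw [VAcut_apply]
    split_ifs
    · rw [abs_of_nonneg ArithmeticFunction.vonMangoldt_nonneg]
    · rw [abs_zero]; exact ArithmeticFunction.vonMangoldt_nonneg
  calc _ ≤ 1 * ArithmeticFunction.vonMangoldt x.2 := by
        apply mul_le_mul h1 h2 (abs_nonneg _) zero_le_one
    _ = _ := one_mul _

theorem VA_coef_supp (U n : ℕ) (hn : U * U < n) :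
    (VAcut ((ArithmeticFunction.moebius : ArithmeticFunction ℤ) : ArithmeticFunction ℝ) U *
        VAcut ArithmeticFunction.vonMangoldt U) n = 0 := by
  rw [ArithmeticFunction.mul_apply]
  refine Finset.sum_eq_zero fun x hx => ?_
  have hx' := Nat.mem_divisorsAntidiagonal.mp hx
  rw [VAcut_apply, VAcut_apply]
  split_ifs with h1 h2
  · exfalso
    have := Nat.mul_le_mul h1 h2
    omega
  · simp
  · simp
  · simp

theorem VA_beta (U n : ℕ) :
    |(VArest ArithmeticFunction.vonMangoldt U *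
          ((ArithmeticFunction.zeta : ArithmeticFunction ℕ) : ArithmeticFunction ℝ)) n| ≤
      Real.log n := by
  rw [mul_comm, ArithmeticFunction.mul_apply, ← VA_sum_vM n]
  refine (Finset.abs_sum_le_sum_abs _ _).trans (Finset.sum_le_sum fun x hx => ?_)
  have hx' := Nat.mem_divisorsAntidiagonal.mp hx
  have : x.1 ≠ 0 := by rintro h0; rw [h0] at hx'; simp at hx'; omega
  rw [ArithmeticFunction.natCoe_apply, ArithmeticFunction.zeta_apply_ne this, abs_mul]
  simp only [Nat.cast_one, abs_one, one_mul]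
  rw [VArest_apply]
  split_ifs
  · rw [abs_zero]; exact ArithmeticFunction.vonMangoldt_nonneg
  · rw [abs_of_nonneg ArithmeticFunction.vonMangoldt_nonneg]

theorem VA_beta_supp (U n : ℕ) (hn : n ≤ U) :
    (VArest ArithmeticFunction.vonMangoldt U *
          ((ArithmeticFunction.zeta : ArithmeticFunction ℕ) : ArithmeticFunction ℝ)) n = 0 := by
  rw [ArithmeticFunction.mul_apply]
  refine Finset.sum_eq_zero fun x hx => ?_
  have hx' := Nat.mem_divisorsAntidiagonal.mp hx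
  have h0 : x.2 ≠ 0 := by rintro h0; rw [h0] at hx'; simp at hx'; omega
  have : x.1 ≤ x.1 * x.2 := Nat.le_mul_of_pos_right _ (Nat.pos_of_ne_zero h0)
  rw [VArest_apply, if_pos (by omega), zero_mul]

/-! ### The four sums -/

theorem VA_S0 (U N u v : ℕ) (θ : ℝ) (hv : v ≤ N) :
    ‖∑ m ∈ Ico u v, ((VAcut ArithmeticFunction.vonMangoldt U m : ℝ) : ℂ) * e (m * θ)‖ ≤
      (U + 1) * Real.log N := by
  have hlog : 0 ≤ Real.log N := Real.log_natCast_nonneg N
  refine (norm_sum_le _ _).trans ?_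
  have e1 : ∀ m ∈ Ico u v,
      ‖((VAcut ArithmeticFunction.vonMangoldt U m : ℝ) : ℂ) * e (m * θ)‖ ≤
        if m ≤ U then Real.log N else 0 := by
    intro m hm
    rw [mem_Ico] at hm
    rw [norm_mul, VA_norm_e, mul_one, Complex.norm_real, Real.norm_eq_abs, VAcut_apply]
    split_ifs with h
    · rw [abs_of_nonneg ArithmeticFunction.vonMangoldt_nonneg]
      refine ArithmeticFunction.vonMangoldt_le_log.trans ?_
      rcases Nat.eq_zero_or_pos m with h0 | h0
      · rw [h0]; simpa using hlog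
      · exact Real.log_le_log (by exact_mod_cast h0) (by exact_mod_cast (by omega : m ≤ N))
    · simp
  refine (Finset.sum_le_sum e1).trans ?_
  rw [← Finset.sum_filter, Finset.sum_const, nsmul_eq_mul]
  refine mul_le_mul_of_nonneg_right ?_ hlog
  have : ((Ico u v).filter (fun m => m ≤ U)).card ≤ (range (U + 1)).card := by
    apply card_le_card
    intro m hm
    rw [mem_filter] at hm
    rw [mem_range]; omega
  rw [card_range] at this
  exact_mod_cast this

/-- The bound of `type_one` for the intervals `[lo, hi)`. -/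
theorem VA_typeI : ∃ C : ℝ, 0 < C ∧ ∀ (θ : ℝ) (q : ℕ) (a : ℤ), 1 ≤ q → IsCoprime a (q : ℤ) →
    |θ - a / q| ≤ 1 / (q : ℝ) ^ 2 → ∀ (N u v A k : ℕ), 2 ≤ N → q ≤ N → v ≤ N → A ≤ N → 1 ≤ k →
    ∑ d ∈ Icc 1 A, ‖∑ y ∈ ((Icc 1 N).filter (fun y => u ≤ d * y ∧ d * y < v)).filter
        (fun y => k ≤ y), e (((d * y : ℕ) : ℝ) * θ)‖ ≤
      C * ((N : ℝ) / q + A + q) * (Real.log N) ^ 2 := by
  obtain ⟨C, hC, hmain⟩ := type_one
  refine ⟨C, hC, fun θ q a hq hcop hθ N u v A k hN hqN hv hA hk => ?_⟩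
  have := hmain θ q a hq hcop hθ N A hN hqN hA (fun d => ((VAlo k u d : ℕ) : ℤ))
    (fun d => ((VAhi k u v d : ℕ) : ℤ)) (fun d => by exact_mod_cast le_max_left _ _)
    (fun d => by exact_mod_cast VA_len k u v N d hk hv)
  refine le_trans (le_of_eq ?_) this
  refine Finset.sum_congr rfl fun d hd => ?_
  rw [mem_Icc] at hd
  rw [VA_inner k u v N d θ hk hd.1 hv]

theorem VA_S2 : ∃ C : ℝ, 0 < C ∧ ∀ (θ : ℝ) (q : ℕ) (a : ℤ), 1 ≤ q → IsCoprime a (q : ℤ) →
    |θ - a / q| ≤ 1 / (q : ℝ) ^ 2 → ∀ (N u v U : ℕ), 2 ≤ N → q ≤ N → v ≤ N → U * U ≤ N →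
    ‖∑ m ∈ Ico u v, ((((VAcut ((ArithmeticFunction.moebius : ArithmeticFunction ℤ) :
        ArithmeticFunction ℝ) U * VAcut ArithmeticFunction.vonMangoldt U) *
        ((ArithmeticFunction.zeta : ArithmeticFunction ℕ) : ArithmeticFunction ℝ)) m : ℝ) : ℂ) *
        e (m * θ)‖ ≤
      C * ((N : ℝ) / q + (U * U : ℕ) + q) * (Real.log N) ^ 3 := by
  obtain ⟨C, hC, hmain⟩ := VA_typeI
  refine ⟨C, hC, fun θ q a hq hcop hθ N u v U hN hqN hv hU => ?_⟩
  have hlog : 0 ≤ Real.log N := Real.log_natCast_nonneg N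
  rw [VA_conv _ _ (fun m => e (m * θ)) N u v hv]
  set c := VAcut ((ArithmeticFunction.moebius : ArithmeticFunction ℤ) :
        ArithmeticFunction ℝ) U * VAcut ArithmeticFunction.vonMangoldt U with hc
  refine (norm_sum_le _ _).trans ?_
  have e1 : ∀ x ∈ Icc 1 N, ‖∑ y ∈ (Icc 1 N).filter (fun y => u ≤ x * y ∧ x * y < v),
        ((c x : ℝ) : ℂ) * ((((ArithmeticFunction.zeta : ArithmeticFunction ℕ) :
          ArithmeticFunction ℝ) y : ℝ) : ℂ) * e (((x * y : ℕ) : ℝ) * θ)‖ ≤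
      if x ≤ U * U then Real.log N * ‖∑ y ∈ ((Icc 1 N).filter (fun y => u ≤ x * y ∧ x * y < v)).filter
        (fun y => 1 ≤ y), e (((x * y : ℕ) : ℝ) * θ)‖ else 0 := by
    intro x hx
    rw [mem_Icc] at hx
    split_ifs with h
    · have e2 : ∑ y ∈ (Icc 1 N).filter (fun y => u ≤ x * y ∧ x * y < v),
        ((c x : ℝ) : ℂ) * ((((ArithmeticFunction.zeta : ArithmeticFunction ℕ) :
          ArithmeticFunction ℝ) y : ℝ) : ℂ) * e (((x * y : ℕ) : ℝ) * θ) =
          ((c x : ℝ) : ℂ) * ∑ y ∈ ((Icc 1 N).filter (fun y => u ≤ x * y ∧ x * y < v)).filter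
        (fun y => 1 ≤ y), e (((x * y : ℕ) : ℝ) * θ) := by
        rw [Finset.mul_sum]
        have e3 : ((Icc 1 N).filter (fun y => u ≤ x * y ∧ x * y < v)).filter
            (fun y => 1 ≤ y) = (Icc 1 N).filter (fun y => u ≤ x * y ∧ x * y < v) := by
          apply filter_true_of_mem
          intro y hy
          rw [mem_filter, mem_Icc] at hy
          exact hy.1.1
        rw [e3]
        refine Finset.sum_congr rfl fun y hy => ?_
        rw [mem_filter, mem_Icc] at hy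
        rw [ArithmeticFunction.natCoe_apply, ArithmeticFunction.zeta_apply_ne (by omega)]
        simp
      rw [e2, norm_mul, Complex.norm_real, Real.norm_eq_abs]
      refine mul_le_mul_of_nonneg_right ?_ (norm_nonneg _)
      refine (VA_coef_le U x).trans ?_
      exact Real.log_le_log (by exact_mod_cast (by omega : 0 < x)) (by exact_mod_cast hx.2)
    · have : c x = 0 := VA_coef_supp U x (by omega)
      rw [this]
      simp
  refine (Finset.sum_le_sum e1).trans ?_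
  rw [← Finset.sum_filter]
  have e4 : (Icc 1 N).filter (fun x => x ≤ U * U) = Icc 1 (U * U) := by
    ext x
    simp only [mem_filter, mem_Icc]
    constructor
    · rintro ⟨⟨h1, h2⟩, h3⟩; exact ⟨h1, h3⟩
    · rintro ⟨h1, h3⟩; exact ⟨⟨h1, by omega⟩, h3⟩
  rw [e4, ← Finset.mul_sum]
  have := hmain θ q a hq hcop hθ N u v (U * U) 1 hN hqN hv hU le_rfl
  calc _ ≤ Real.log N * (C * ((N : ℝ) / q + (U * U : ℕ) + q) * (Real.log N) ^ 2) :=
        mul_le_mul_of_nonneg_left this hlog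
    _ = _ := by ring

theorem VA_log_tele (N y : ℕ) (hy : 1 ≤ y) (hyN : y ≤ N) :
    Real.log y = ∑ k ∈ Icc 2 N, if k ≤ y then (Real.log k - Real.log ((k - 1 : ℕ) : ℝ)) else 0 := by
  rw [← Finset.sum_filter]
  have e1 : (Icc 2 N).filter (fun k => k ≤ y) = Ico 2 (y + 1) := by
    ext k
    simp only [mem_filter, mem_Icc, mem_Ico]
    omega
  rw [e1]
  have key : ∀ n : ℕ, ∑ k ∈ Ico 2 (n + 1 + 1), (Real.log k - Real.log ((k - 1 : ℕ) : ℝ)) =
      Real.log ((n + 1 : ℕ) : ℝ) := by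
    intro n
    induction n with
    | zero => simp
    | succ n ih =>
      rw [Finset.sum_Ico_succ_top (by omega), ih]
      have : n + 1 + 1 - 1 = n + 1 := by omega
      rw [this]
      ring
  obtain ⟨n, rfl⟩ : ∃ n, y = n + 1 := ⟨y - 1, by omega⟩
  exact (key n).symm

theorem VA_S1 : ∃ C : ℝ, 0 < C ∧ ∀ (θ : ℝ) (q : ℕ) (a : ℤ), 1 ≤ q → IsCoprime a (q : ℤ) →
    |θ - a / q| ≤ 1 / (q : ℝ) ^ 2 → ∀ (N u v U : ℕ), 2 ≤ N → q ≤ N → v ≤ N → U ≤ N →
    ‖∑ m ∈ Ico u v, (((VAcut ((ArithmeticFunction.moebius : ArithmeticFunction ℤ) :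
        ArithmeticFunction ℝ) U * ArithmeticFunction.log) m : ℝ) : ℂ) * e (m * θ)‖ ≤
      C * ((N : ℝ) / q + U + q) * (Real.log N) ^ 3 := by
  obtain ⟨C, hC, hmain⟩ := VA_typeI
  refine ⟨C, hC, fun θ q a hq hcop hθ N u v U hN hqN hv hU => ?_⟩
  have hlog : 0 ≤ Real.log N := Real.log_natCast_nonneg N
  rw [VA_conv _ _ (fun m => e (m * θ)) N u v hv]
  set w : ℕ → ℝ := fun k => Real.log k - Real.log ((k - 1 : ℕ) : ℝ) with hw
  have hw0 : ∀ k, 2 ≤ k → 0 ≤ w k := by
    intro k hk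
    rw [hw]
    simp only [sub_nonneg]
    refine Real.log_le_log ?_ ?_
    · exact_mod_cast (by omega : 0 < k - 1)
    · exact_mod_cast (by omega : k - 1 ≤ k)
  set E : ℕ → ℕ → ℂ := fun k x => ∑ y ∈ ((Icc 1 N).filter (fun y => u ≤ x * y ∧ x * y < v)).filter
        (fun y => k ≤ y), e (((x * y : ℕ) : ℝ) * θ) with hE
  have e1 : ∀ x ∈ Icc 1 N, ‖∑ y ∈ (Icc 1 N).filter (fun y => u ≤ x * y ∧ x * y < v),
        ((VAcut ((ArithmeticFunction.moebius : ArithmeticFunction ℤ) :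
        ArithmeticFunction ℝ) U x : ℝ) : ℂ) * ((ArithmeticFunction.log y : ℝ) : ℂ) *
          e (((x * y : ℕ) : ℝ) * θ)‖ ≤
      if x ≤ U then ∑ k ∈ Icc 2 N, w k * ‖E k x‖ else 0 := by
    intro x hx
    rw [mem_Icc] at hx
    have e2 : ∑ y ∈ (Icc 1 N).filter (fun y => u ≤ x * y ∧ x * y < v),
        ((VAcut ((ArithmeticFunction.moebius : ArithmeticFunction ℤ) :
        ArithmeticFunction ℝ) U x : ℝ) : ℂ) * ((ArithmeticFunction.log y : ℝ) : ℂ) *
          e (((x * y : ℕ) : ℝ) * θ) = ((VAcut ((ArithmeticFunction.moebius : ArithmeticFunction ℤ) :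
        ArithmeticFunction ℝ) U x : ℝ) : ℂ) * ∑ k ∈ Icc 2 N, (w k : ℂ) * E k x := by
      have e3 : ∑ k ∈ Icc 2 N, (w k : ℂ) * E k x =
          ∑ y ∈ (Icc 1 N).filter (fun y => u ≤ x * y ∧ x * y < v),
            ((ArithmeticFunction.log y : ℝ) : ℂ) * e (((x * y : ℕ) : ℝ) * θ) := by
        rw [hE]
        simp only [Finset.mul_sum]
        simp_rw [Finset.sum_filter (fun y => _ ≤ y)]
        rw [Finset.sum_comm]
        refine Finset.sum_congr rfl fun y hy => ?_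
        rw [mem_filter, mem_Icc] at hy
        rw [ArithmeticFunction.log_apply, VA_log_tele N y hy.1.1 hy.1.2, Complex.ofReal_sum,
          Finset.sum_mul]
        refine Finset.sum_congr rfl fun k _ => ?_
        split_ifs <;> simp [hw]
      rw [e3, Finset.mul_sum]
      refine Finset.sum_congr rfl fun y _ => ?_
      ring
    rw [e2, norm_mul, Complex.norm_real, Real.norm_eq_abs]
    split_ifs with h
    · have h2 : ‖∑ k ∈ Icc 2 N, (w k : ℂ) * E k x‖ ≤ ∑ k ∈ Icc 2 N, w k * ‖E k x‖ := by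
        refine (norm_sum_le _ _).trans (Finset.sum_le_sum fun k hk => ?_)
        rw [mem_Icc] at hk
        rw [norm_mul, Complex.norm_real, Real.norm_eq_abs, abs_of_nonneg (hw0 k hk.1)]
      calc _ ≤ 1 * ∑ k ∈ Icc 2 N, w k * ‖E k x‖ := by
            apply mul_le_mul (VA_cut_moeb_le U x) h2 (norm_nonneg _) zero_le_one
        _ = _ := one_mul _
    · rw [VAcut_apply, if_neg h]
      simp
  refine (norm_sum_le _ _).trans ((Finset.sum_le_sum e1).trans ?_)
  rw [← Finset.sum_filter]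
  have e4 : (Icc 1 N).filter (fun x => x ≤ U) = Icc 1 U := by
    ext x
    simp only [mem_filter, mem_Icc]
    constructor
    · rintro ⟨⟨h1, h2⟩, h3⟩; exact ⟨h1, h3⟩
    · rintro ⟨h1, h3⟩; exact ⟨⟨h1, by omega⟩, h3⟩
  rw [e4, Finset.sum_comm]
  have e5 : ∀ k ∈ Icc 2 N, ∑ x ∈ Icc 1 U, w k * ‖E k x‖ ≤
      w k * (C * ((N : ℝ) / q + U + q) * (Real.log N) ^ 2) := by
    intro k hk
    rw [mem_Icc] at hk
    rw [← Finset.mul_sum]
    exact mul_le_mul_of_nonneg_left
      (hmain θ q a hq hcop hθ N u v U k hN hqN hv hU (by omega)) (hw0 k hk.1)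
  refine (Finset.sum_le_sum e5).trans ?_
  rw [← Finset.sum_mul]
  have e6 : ∑ k ∈ Icc 2 N, w k = Real.log N := by
    rw [VA_log_tele N N (by omega) le_rfl]
    refine Finset.sum_congr rfl fun k hk => ?_
    rw [mem_Icc] at hk
    rw [if_pos hk.2]
  rw [e6]
  apply le_of_eq
  ring

/-! ### Type II -/

theorem VA_half_le_log (N : ℕ) (hN : 2 ≤ N) : 1 ≤ 2 * Real.log N := by
  have h1 : Real.log 2 ≤ Real.log N := Real.log_le_log (by norm_num) (by exact_mod_cast hN)
  have h2 := Real.log_two_gt_d9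
  linarith

/-- The arithmetic of one type II block. -/
theorem VA_arith (N q A B U : ℕ) (hN : 2 ≤ N) (hq : 1 ≤ q) (hqN : q ≤ N) (hAB : A * B ≤ N)
    (hU : (N : ℝ) ^ (2 / 5 : ℝ) ≤ U + 1) (hA : U + 1 < 2 * A) (hB : U < B) :
    (A : ℝ) * ((A : ℝ) / q + 1) * (B + q * Real.log (2 * q)) * B ≤
      12 * (Real.log N) ^ 2 * (((N : ℝ) / Real.sqrt q) ^ 2 + ((N : ℝ) ^ (4 / 5 : ℝ)) ^ 2 +
        (Real.sqrt (N * q)) ^ 2) := by
  have hl := VA_half_le_log N hN
  set l := Real.log N with hldef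
  have hN0 : (0 : ℝ) < N := by exact_mod_cast (by omega : 0 < N)
  have hq0 : (0 : ℝ) < q := by exact_mod_cast (by omega : 0 < q)
  have hA0 : (0 : ℝ) < A := by exact_mod_cast (by omega : 0 < A)
  have hB0 : (0 : ℝ) < B := by exact_mod_cast (by omega : 0 < B)
  have hP0 : 0 < (N : ℝ) ^ (2 / 5 : ℝ) := Real.rpow_pos_of_pos hN0 _
  set P := (N : ℝ) ^ (2 / 5 : ℝ) with hP
  set R := (N : ℝ) ^ (3 / 5 : ℝ) with hR
  have hR0 : 0 < R := Real.rpow_pos_of_pos hN0 _
  have hPR : P * R = N := by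
    rw [hP, hR, ← Real.rpow_add hN0]; norm_num
  have hab : (A : ℝ) * B ≤ N := by exact_mod_cast hAB
  have hA' : P ≤ 2 * A := by
    have : ((U + 1 : ℕ) : ℝ) ≤ ((2 * A : ℕ) : ℝ) := by exact_mod_cast hA.le
    push_cast at this; linarith
  have hB' : P ≤ B := by
    have : ((U + 1 : ℕ) : ℝ) ≤ (B : ℝ) := by exact_mod_cast hB
    push_cast at this; linarith
  have hAR : (A : ℝ) ≤ R := by
    have : P * A ≤ P * R := by rw [hPR]; nlinarith
    exact le_of_mul_le_mul_left this hP0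
  have hBR : (B : ℝ) ≤ 2 * R := by
    have : P * B ≤ P * (2 * R) := by nlinarith
    exact le_of_mul_le_mul_left this hP0
  have hL2 : Real.log (2 * q) ≤ 2 * l := by
    rw [Real.log_mul (by norm_num) hq0.ne']
    have h1 : Real.log 2 ≤ l := Real.log_le_log (by norm_num) (by exact_mod_cast hN)
    have h2 : Real.log q ≤ l := Real.log_le_log hq0 (by exact_mod_cast hqN)
    linarith
  have hL0 : 0 ≤ Real.log (2 * q) := by
    apply Real.log_nonneg
    have : (1 : ℝ) ≤ q := by exact_mod_cast hq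
    linarith
  set L2 := Real.log (2 * q) with hL2def
  have s1 : ((N : ℝ) / Real.sqrt q) ^ 2 = N * (N / q) := by
    rw [div_pow, Real.sq_sqrt hq0.le]; ring
  have s2 : ((N : ℝ) ^ (4 / 5 : ℝ)) ^ 2 = N * R := by
    rw [hR, ← Real.rpow_natCast, ← Real.rpow_mul hN0.le]
    have : (N : ℝ) * (N : ℝ) ^ (3 / 5 : ℝ) = (N : ℝ) ^ (1 : ℝ) * (N : ℝ) ^ (3 / 5 : ℝ) := by
      rw [Real.rpow_one]
    rw [this, ← Real.rpow_add hN0]; norm_num
  have s3 : (Real.sqrt (N * q)) ^ 2 = N * q := Real.sq_sqrt (by positivity)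
  rw [s1, s2, s3]
  have step1 : (A : ℝ) * ((A : ℝ) / q + 1) * (B + q * L2) * B =
      (A * B) * (A * B / q + A * L2 + B + q * L2) := by
    field_simp
    ring
  rw [step1]
  have hl0 : 0 < l := by linarith
  have t1 : (A : ℝ) * B / q ≤ N / q := by
    apply div_le_div_of_nonneg_right hab hq0.le
  have t2 : (A : ℝ) * L2 ≤ R * (2 * l) := mul_le_mul hAR hL2 hL0 hR0.le
  have t3 : (q : ℝ) * L2 ≤ q * (2 * l) := mul_le_mul_of_nonneg_left hL2 hq0.le
  have hnn : 0 ≤ (A : ℝ) * B / q + A * L2 + B + q * L2 := by positivity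
  have hNq : 0 ≤ (N : ℝ) / q := by positivity
  have k1 : 1 ≤ 4 * l ^ 2 := by nlinarith
  have k2 : 2 * l ≤ 4 * l ^ 2 := by nlinarith
  calc (A * B : ℝ) * (A * B / q + A * L2 + B + q * L2)
      ≤ N * (N / q + R * (2 * l) + 2 * R + q * (2 * l)) := by
        apply mul_le_mul hab _ hnn hN0.le
        linarith
    _ ≤ N * (12 * l ^ 2 * (N / q) + 12 * l ^ 2 * R + 12 * l ^ 2 * q) := by
        apply mul_le_mul_of_nonneg_left _ hN0.le
        have a1 : (N : ℝ) / q ≤ 12 * l ^ 2 * (N / q) := by nlinarith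
        have a2 : R * (2 * l) + 2 * R ≤ 12 * l ^ 2 * R := by nlinarith
        have a3 : (q : ℝ) * (2 * l) ≤ 12 * l ^ 2 * q := by nlinarith
        linarith
    _ = _ := by ring

theorem VA_block : ∃ C : ℝ, 0 < C ∧ ∀ (θ : ℝ) (q : ℕ) (a : ℤ), 1 ≤ q → IsCoprime a (q : ℤ) →
    |θ - a / q| ≤ 1 / (q : ℝ) ^ 2 → ∀ (N u v U A : ℕ), 2 ≤ N → q ≤ N → v ≤ N →
    (N : ℝ) ^ (2 / 5 : ℝ) ≤ U + 1 → 1 ≤ A → A ≤ N →
    ‖∑ x ∈ Ico A (2 * A), ∑ y ∈ (Icc 1 N).filter (fun y => u ≤ x * y ∧ x * y < v),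
      ((VArest ((ArithmeticFunction.moebius : ArithmeticFunction ℤ) :
        ArithmeticFunction ℝ) U x : ℝ) : ℂ) *
      (((VArest ArithmeticFunction.vonMangoldt U *
          ((ArithmeticFunction.zeta : ArithmeticFunction ℕ) : ArithmeticFunction ℝ)) y : ℝ) : ℂ) *
      e (((x * y : ℕ) : ℝ) * θ)‖ ≤
      C * ((N : ℝ) / Real.sqrt q + (N : ℝ) ^ (4 / 5 : ℝ) + Real.sqrt (N * q)) *
        (Real.log N) ^ 2 := by
  obtain ⟨C, hC, hmain⟩ := type_two
  refine ⟨Real.sqrt (12 * C), Real.sqrt_pos.mpr (by positivity),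
    fun θ q a hq hcop hθ N u v U A hN hqN hv hU hA hAN => ?_⟩
  have hlog : 0 ≤ Real.log N := Real.log_natCast_nonneg N
  set f : ℕ → ℂ := fun x => ((VArest ((ArithmeticFunction.moebius : ArithmeticFunction ℤ) :
        ArithmeticFunction ℝ) U x : ℝ) : ℂ) with hf
  set β : ℕ → ℂ := fun y => (((VArest ArithmeticFunction.vonMangoldt U *
          ((ArithmeticFunction.zeta : ArithmeticFunction ℕ) : ArithmeticFunction ℝ)) y : ℝ) : ℂ)
    with hβ
  have hRHS : 0 ≤ Real.sqrt (12 * C) * ((N : ℝ) / Real.sqrt q + (N : ℝ) ^ (4 / 5 : ℝ) +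
      Real.sqrt (N * q)) * (Real.log N) ^ 2 := by positivity
  set B := N / A with hB
  have hB1 : 1 ≤ B := by rw [hB]; exact Nat.div_pos hAN (by omega)
  have hAB : A * B ≤ N := Nat.mul_div_le N A
  have e1 : ∀ x ∈ Ico A (2 * A), ∑ y ∈ (Icc 1 N).filter (fun y => u ≤ x * y ∧ x * y < v),
      f x * β y * e (((x * y : ℕ) : ℝ) * θ) =
      ∑ y ∈ (Icc 1 B).filter (fun y => u ≤ x * y ∧ x * y < v), f x * β y * e (x * y * θ) := by
    intro x hx
    rw [mem_Ico] at hx
    have e2 : (Icc 1 N).filter (fun y => u ≤ x * y ∧ x * y < v) =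
        (Icc 1 B).filter (fun y => u ≤ x * y ∧ x * y < v) := by
      ext y
      simp only [mem_filter, mem_Icc]
      constructor
      · rintro ⟨⟨h1, _⟩, h3, h4⟩
        refine ⟨⟨h1, ?_⟩, h3, h4⟩
        rw [hB, Nat.le_div_iff_mul_le (by omega)]
        have : y * A ≤ x * y := by rw [mul_comm x y]; exact Nat.mul_le_mul_left y hx.1
        omega
      · rintro ⟨⟨h1, h2⟩, h3, h4⟩
        exact ⟨⟨h1, h2.trans (Nat.div_le_self N A)⟩, h3, h4⟩
    rw [e2]
    refine Finset.sum_congr rfl fun y _ => ?_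
    push_cast
    rfl
  rw [Finset.sum_congr rfl e1]
  by_cases hA' : 2 * A ≤ U + 1
  · have : ∑ x ∈ Ico A (2 * A), ∑ y ∈ (Icc 1 B).filter (fun y => u ≤ x * y ∧ x * y < v),
        f x * β y * e (x * y * θ) = 0 := by
      refine Finset.sum_eq_zero fun x hx => Finset.sum_eq_zero fun y _ => ?_
      rw [mem_Ico] at hx
      have : f x = 0 := by
        rw [hf]; simp only [VArest_apply]; rw [if_pos (by omega)]; simp
      rw [this, zero_mul, zero_mul]
    rw [this, norm_zero]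
    exact hRHS
  by_cases hB' : B ≤ U
  · have : ∑ x ∈ Ico A (2 * A), ∑ y ∈ (Icc 1 B).filter (fun y => u ≤ x * y ∧ x * y < v),
        f x * β y * e (x * y * θ) = 0 := by
      refine Finset.sum_eq_zero fun x hx => Finset.sum_eq_zero fun y hy => ?_
      rw [mem_filter, mem_Icc] at hy
      have : β y = 0 := by
        rw [hβ]; simp only; rw [VA_beta_supp U y (by omega)]; simp
      rw [this, mul_zero, zero_mul]
    rw [this, norm_zero]
    exact hRHS
  have h2 := hmain θ q a hq hcop hθ A B u v hA hB1 f β (fun n => by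
    rw [hf]; simp only; rw [Complex.norm_real, Real.norm_eq_abs]; exact VA_rest_moeb_le U n)
  have h3 : ∑ y ∈ Icc 1 B, ‖β y‖ ^ 2 ≤ B * (Real.log N) ^ 2 := by
    have : ∀ y ∈ Icc 1 B, ‖β y‖ ^ 2 ≤ (Real.log N) ^ 2 := by
      intro y hy
      rw [mem_Icc] at hy
      apply pow_le_pow_left₀ (norm_nonneg _)
      rw [hβ]; simp only
      rw [Complex.norm_real, Real.norm_eq_abs]
      refine (VA_beta U y).trans ?_
      refine Real.log_le_log (by exact_mod_cast (by omega : 0 < y)) ?_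
      exact_mod_cast hy.2.trans (Nat.div_le_self N A)
    refine (Finset.sum_le_sum this).trans ?_
    rw [Finset.sum_const, Nat.card_Icc, nsmul_eq_mul]
    simp
  have h4 := VA_arith N q A B U hN hq hqN hAB hU (by omega) (by omega)
  have hq0 : (0 : ℝ) < q := by exact_mod_cast (by omega : 0 < q)
  have hL0 : 0 ≤ Real.log (2 * q) := by
    apply Real.log_nonneg
    have : (1 : ℝ) ≤ q := by exact_mod_cast hq
    linarith
  set T := ‖∑ x ∈ Ico A (2 * A), ∑ y ∈ (Icc 1 B).filter (fun y => u ≤ x * y ∧ x * y < v),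
        f x * β y * e (x * y * θ)‖ with hT
  set a1 := (N : ℝ) / Real.sqrt q with ha1
  set b1 := (N : ℝ) ^ (4 / 5 : ℝ) with hb1
  set c1 := Real.sqrt (N * q) with hc1
  have ha0 : 0 ≤ a1 := by positivity
  have hb0 : 0 ≤ b1 := by positivity
  have hc0 : 0 ≤ c1 := by positivity
  have h5 : T ^ 2 ≤ (Real.sqrt (12 * C) * (a1 + b1 + c1) * (Real.log N) ^ 2) ^ 2 := by
    have hpos : 0 ≤ C * A * ((A : ℝ) / q + 1) * (B + q * Real.log (2 * q)) := by positivity
    calc T ^ 2 ≤ C * A * ((A : ℝ) / q + 1) * (B + q * Real.log (2 * q)) *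
          ∑ y ∈ Icc 1 B, ‖β y‖ ^ 2 := h2
      _ ≤ C * A * ((A : ℝ) / q + 1) * (B + q * Real.log (2 * q)) * (B * (Real.log N) ^ 2) :=
          mul_le_mul_of_nonneg_left h3 hpos
      _ = (C * (Real.log N) ^ 2) *
            ((A : ℝ) * ((A : ℝ) / q + 1) * (B + q * Real.log (2 * q)) * B) := by ring
      _ ≤ (C * (Real.log N) ^ 2) * (12 * (Real.log N) ^ 2 * (a1 ^ 2 + b1 ^ 2 + c1 ^ 2)) :=
          mul_le_mul_of_nonneg_left h4 (by positivity)
      _ = (12 * C) * (Real.log N) ^ 4 * (a1 ^ 2 + b1 ^ 2 + c1 ^ 2) := by ring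
      _ ≤ (12 * C) * (Real.log N) ^ 4 * (a1 + b1 + c1) ^ 2 := by
          apply mul_le_mul_of_nonneg_left _ (by positivity)
          nlinarith [mul_nonneg ha0 hb0, mul_nonneg ha0 hc0, mul_nonneg hb0 hc0]
      _ = _ := by
          rw [mul_pow, mul_pow, Real.sq_sqrt (by positivity)]
          ring
  exact (pow_le_pow_iff_left₀ (norm_nonneg _) hRHS (by norm_num)).mp h5

theorem VA_dyadic (F : ℕ → ℂ) (J : ℕ) :
    ∑ x ∈ Ico 1 (2 ^ J), F x = ∑ j ∈ range J, ∑ x ∈ Ico (2 ^ j) (2 * 2 ^ j), F x := by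
  induction J with
  | zero => simp
  | succ J ih =>
    rw [Finset.sum_range_succ, ← ih, pow_succ, mul_comm (2 ^ J) 2]
    rw [Finset.sum_Ico_consecutive _ Nat.one_le_two_pow (by omega)]

theorem VA_S3 : ∃ C : ℝ, 0 < C ∧ ∀ (θ : ℝ) (q : ℕ) (a : ℤ), 1 ≤ q → IsCoprime a (q : ℤ) →
    |θ - a / q| ≤ 1 / (q : ℝ) ^ 2 → ∀ (N u v U : ℕ), 2 ≤ N → q ≤ N → v ≤ N →
    (N : ℝ) ^ (2 / 5 : ℝ) ≤ U + 1 →
    ‖∑ m ∈ Ico u v, (((VArest ((ArithmeticFunction.moebius : ArithmeticFunction ℤ) :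
        ArithmeticFunction ℝ) U * (VArest ArithmeticFunction.vonMangoldt U *
          ((ArithmeticFunction.zeta : ArithmeticFunction ℕ) : ArithmeticFunction ℝ))) m : ℝ) : ℂ) *
        e (m * θ)‖ ≤
      C * ((N : ℝ) / Real.sqrt q + (N : ℝ) ^ (4 / 5 : ℝ) + Real.sqrt (N * q)) *
        (Real.log N) ^ 3 := by
  obtain ⟨C, hC, hmain⟩ := VA_block
  refine ⟨4 * C, by positivity, fun θ q a hq hcop hθ N u v U hN hqN hv hU => ?_⟩
  have hlog : 0 ≤ Real.log N := Real.log_natCast_nonneg N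
  rw [VA_conv _ _ (fun m => e (m * θ)) N u v hv]
  set T : ℕ → ℂ := fun x => ∑ y ∈ (Icc 1 N).filter (fun y => u ≤ x * y ∧ x * y < v),
      ((VArest ((ArithmeticFunction.moebius : ArithmeticFunction ℤ) :
        ArithmeticFunction ℝ) U x : ℝ) : ℂ) *
      (((VArest ArithmeticFunction.vonMangoldt U *
          ((ArithmeticFunction.zeta : ArithmeticFunction ℕ) : ArithmeticFunction ℝ)) y : ℝ) : ℂ) *
      e (((x * y : ℕ) : ℝ) * θ) with hT
  have hN2 : N < 2 ^ (Nat.log 2 N + 1) := Nat.lt_pow_succ_log_self (by norm_num) N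
  have e1 : ∑ x ∈ Icc 1 N, T x = ∑ x ∈ Ico 1 (2 ^ (Nat.log 2 N + 1)), T x := by
    refine Finset.sum_subset ?_ ?_
    · intro x hx
      rw [mem_Icc] at hx
      rw [mem_Ico]
      omega
    · intro x hx hx'
      rw [mem_Ico] at hx
      rw [mem_Icc] at hx'
      have : (Icc 1 N).filter (fun y => u ≤ x * y ∧ x * y < v) = ∅ := by
        rw [filter_eq_empty_iff]
        intro y hy
        rw [mem_Icc] at hy
        have : x ≤ x * y := Nat.le_mul_of_pos_right x (by omega)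
        omega
      rw [hT]
      simp only [this, Finset.sum_empty]
  have e0 : ∑ x ∈ Icc 1 N, ∑ y ∈ (Icc 1 N).filter (fun y => u ≤ x * y ∧ x * y < v),
      ((VArest ((ArithmeticFunction.moebius : ArithmeticFunction ℤ) :
        ArithmeticFunction ℝ) U x : ℝ) : ℂ) *
      (((VArest ArithmeticFunction.vonMangoldt U *
          ((ArithmeticFunction.zeta : ArithmeticFunction ℕ) : ArithmeticFunction ℝ)) y : ℝ) : ℂ) *
      e (((x * y : ℕ) : ℝ) * θ) = ∑ x ∈ Icc 1 N, T x := rfl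
  rw [e0, e1, VA_dyadic]
  refine (norm_sum_le _ _).trans ?_
  set K := C * ((N : ℝ) / Real.sqrt q + (N : ℝ) ^ (4 / 5 : ℝ) + Real.sqrt (N * q)) *
        (Real.log N) ^ 2 with hK
  have hK0 : 0 ≤ K := by positivity
  have e2 : ∀ j ∈ range (Nat.log 2 N + 1), ‖∑ x ∈ Ico (2 ^ j) (2 * 2 ^ j), T x‖ ≤ K := by
    intro j hj
    rw [mem_range] at hj
    refine hmain θ q a hq hcop hθ N u v U (2 ^ j) hN hqN hv hU Nat.one_le_two_pow ?_
    exact (Nat.pow_le_pow_right (by norm_num) (by omega)).trans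
      (Nat.pow_log_le_self 2 (by omega))
  refine (Finset.sum_le_sum e2).trans ?_
  rw [Finset.sum_const, card_range, nsmul_eq_mul]
  have hl := VA_half_le_log N hN
  have hlog2 : ((Nat.log 2 N : ℕ) : ℝ) * Real.log 2 ≤ Real.log N := by
    have h1 : 2 ^ (Nat.log 2 N) ≤ N := Nat.pow_log_le_self 2 (by omega)
    have h2 : Real.log ((2 : ℝ) ^ (Nat.log 2 N)) ≤ Real.log N := by
      apply Real.log_le_log (by positivity)
      exact_mod_cast h1
    rwa [Real.log_pow] at h2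
  have h2 := Real.log_two_gt_d9
  have hn0 : (0 : ℝ) ≤ (Nat.log 2 N : ℕ) := by positivity
  have hJ : ((Nat.log 2 N + 1 : ℕ) : ℝ) ≤ 4 * Real.log N := by
    push_cast
    nlinarith
  calc ((Nat.log 2 N + 1 : ℕ) : ℝ) * K ≤ 4 * Real.log N * K := mul_le_mul_of_nonneg_right hJ hK0
    _ = _ := by rw [hK]; ring

/-- **Vinogradov-Vaughan.** Any sum `∑_{m ∈ [u,v)} Λ(m) e(mθ)`, `v ≤ N`. -/
theorem vaughan : ∃ C : ℝ, 0 < C ∧ ∀ (θ : ℝ) (q : ℕ) (a : ℤ), 1 ≤ q → IsCoprime a (q : ℤ) →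
    |θ - a / q| ≤ 1 / (q : ℝ) ^ 2 → ∀ (N u v : ℕ), 2 ≤ N → q ≤ N → v ≤ N →
    ‖∑ m ∈ Ico u v, (ArithmeticFunction.vonMangoldt m : ℂ) * e (m * θ)‖ ≤
      C * ((N : ℝ) / Real.sqrt q + (N : ℝ) ^ (4 / 5 : ℝ) + Real.sqrt (N * q)) *
        (Real.log N) ^ 10 := by
  obtain ⟨C1, hC1, h1⟩ := VA_S1
  obtain ⟨C2, hC2, h2⟩ := VA_S2
  obtain ⟨C3, hC3, h3⟩ := VA_S3
  refine ⟨2 ^ 10 * (2 + C1 + C2 + C3), by positivity,
    fun θ q a hq hcop hθ N u v hN hqN hv => ?_⟩
  have hl := VA_half_le_log N hN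
  set l := Real.log N with hldef
  have hN0 : (0 : ℝ) < N := by exact_mod_cast (by omega : 0 < N)
  have hN1 : (1 : ℝ) ≤ N := by exact_mod_cast (by omega : 1 ≤ N)
  have hq0 : (0 : ℝ) < q := by exact_mod_cast (by omega : 0 < q)
  have hq1 : (1 : ℝ) ≤ q := by exact_mod_cast hq
  set P := (N : ℝ) ^ (2 / 5 : ℝ) with hP
  have hP0 : 0 < P := Real.rpow_pos_of_pos hN0 _
  have hP1 : 1 ≤ P := Real.one_le_rpow hN1 (by norm_num)
  set U := ⌊P⌋₊ with hU
  have hUP : (U : ℝ) ≤ P := Nat.floor_le hP0.le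
  have hPU : P ≤ U + 1 := (Nat.lt_floor_add_one P).le
  set a1 := (N : ℝ) / Real.sqrt q with ha1
  set b1 := (N : ℝ) ^ (4 / 5 : ℝ) with hb1
  set c1 := Real.sqrt (N * q) with hc1
  have ha0 : 0 ≤ a1 := by positivity
  have hb0 : 0 < b1 := Real.rpow_pos_of_pos hN0 _
  have hc0 : 0 ≤ c1 := by positivity
  have hPP : P * P = b1 := by
    rw [hP, hb1, ← Real.rpow_add hN0]; norm_num
  have hUU : (((U * U : ℕ)) : ℝ) ≤ b1 := by
    push_cast; rw [← hPP]; exact mul_le_mul hUP hUP (by positivity) hP0.le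
  have hb1N : b1 ≤ N := by
    calc b1 ≤ (N : ℝ) ^ (1 : ℝ) := Real.rpow_le_rpow_of_exponent_le hN1 (by norm_num)
      _ = N := Real.rpow_one _
  have hPb : P ≤ b1 := by rw [← hPP]; nlinarith
  have hUUN : U * U ≤ N := by exact_mod_cast hUU.trans hb1N
  have hUN : U ≤ N := by exact_mod_cast hUP.trans (hPb.trans hb1N)
  have hq' : (q : ℝ) ≤ c1 := by
    rw [hc1]
    apply Real.le_sqrt_of_sq_le
    have : (q : ℝ) ≤ N := by exact_mod_cast hqN
    nlinarith
  have hNq : (N : ℝ) / q ≤ a1 := by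
    rw [ha1]
    apply div_le_div_of_nonneg_left hN0.le (Real.sqrt_pos.mpr hq0)
    rw [Real.sqrt_le_left hq0.le]
    nlinarith
  have hS0 := VA_S0 U N u v θ hv
  have hS1 := h1 θ q a hq hcop hθ N u v U hN hqN hv hUN
  have hS2 := h2 θ q a hq hcop hθ N u v U hN hqN hv hUUN
  have hS3 := h3 θ q a hq hcop hθ N u v U hN hqN hv hPU
  set S := a1 + b1 + c1 with hS
  have hS0' : 0 ≤ S := by positivity
  have split : ∑ m ∈ Ico u v, (ArithmeticFunction.vonMangoldt m : ℂ) * e (m * θ) =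
      ∑ m ∈ Ico u v, ((VAcut ArithmeticFunction.vonMangoldt U m : ℝ) : ℂ) * e (m * θ) +
      ∑ m ∈ Ico u v, (((VAcut ((ArithmeticFunction.moebius : ArithmeticFunction ℤ) :
        ArithmeticFunction ℝ) U * ArithmeticFunction.log) m : ℝ) : ℂ) * e (m * θ) -
      ∑ m ∈ Ico u v, ((((VAcut ((ArithmeticFunction.moebius : ArithmeticFunction ℤ) :
        ArithmeticFunction ℝ) U * VAcut ArithmeticFunction.vonMangoldt U) *
        ((ArithmeticFunction.zeta : ArithmeticFunction ℕ) : ArithmeticFunction ℝ)) m : ℝ) : ℂ) *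
        e (m * θ) +
      ∑ m ∈ Ico u v, (((VArest ((ArithmeticFunction.moebius : ArithmeticFunction ℤ) :
        ArithmeticFunction ℝ) U * (VArest ArithmeticFunction.vonMangoldt U *
          ((ArithmeticFunction.zeta : ArithmeticFunction ℕ) : ArithmeticFunction ℝ))) m : ℝ) : ℂ) *
        e (m * θ) := by
    rw [← Finset.sum_add_distrib, ← Finset.sum_sub_distrib, ← Finset.sum_add_distrib]
    refine Finset.sum_congr rfl fun m _ => ?_
    have id2 : (ArithmeticFunction.vonMangoldt : ArithmeticFunction ℝ) +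
        (VAcut ((ArithmeticFunction.moebius : ArithmeticFunction ℤ) : ArithmeticFunction ℝ) U *
        VAcut ArithmeticFunction.vonMangoldt U) *
        ((ArithmeticFunction.zeta : ArithmeticFunction ℕ) : ArithmeticFunction ℝ) =
        VAcut ArithmeticFunction.vonMangoldt U +
      VAcut ((ArithmeticFunction.moebius : ArithmeticFunction ℤ) : ArithmeticFunction ℝ) U *
        ArithmeticFunction.log +
      VArest ((ArithmeticFunction.moebius : ArithmeticFunction ℤ) : ArithmeticFunction ℝ) U *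
        (VArest ArithmeticFunction.vonMangoldt U *
          ((ArithmeticFunction.zeta : ArithmeticFunction ℕ) : ArithmeticFunction ℝ)) := by
      linear_combination VA_identity U
    have := congrArg (fun f : ArithmeticFunction ℝ => ((f m : ℝ) : ℂ)) id2
    simp only [ArithmeticFunction.add_apply, Complex.ofReal_add] at this
    linear_combination e (m * θ) * this
  rw [split]
  have hl1 : l ≤ 2 ^ 10 * l ^ 10 := by
    have : (1 : ℝ) ≤ (2 * l) ^ 9 := one_le_pow₀ hl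
    nlinarith [this]
  have hl3 : l ^ 3 ≤ 2 ^ 10 * l ^ 10 := by
    have h7 : (1 : ℝ) ≤ (2 * l) ^ 7 := one_le_pow₀ hl
    have hl0 : 0 ≤ l ^ 3 := by positivity
    calc l ^ 3 = l ^ 3 * 1 := by ring
      _ ≤ l ^ 3 * (8 * (2 * l) ^ 7) := mul_le_mul_of_nonneg_left (by linarith) hl0
      _ = _ := by ring
  have b0 : (U + 1 : ℝ) * l ≤ 2 * S * (2 ^ 10 * l ^ 10) := by
    have : (U + 1 : ℝ) ≤ 2 * S := by linarith
    exact mul_le_mul this hl1 (by linarith) (by positivity)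
  have b1' : C1 * ((N : ℝ) / q + U + q) * l ^ 3 ≤ C1 * S * (2 ^ 10 * l ^ 10) := by
    apply mul_le_mul _ hl3 (by positivity) (by positivity)
    apply mul_le_mul_of_nonneg_left _ hC1.le
    linarith
  have b2' : C2 * ((N : ℝ) / q + (U * U : ℕ) + q) * l ^ 3 ≤ C2 * S * (2 ^ 10 * l ^ 10) := by
    apply mul_le_mul _ hl3 (by positivity) (by positivity)
    apply mul_le_mul_of_nonneg_left _ hC2.le
    linarith
  have b3' : C3 * S * l ^ 3 ≤ C3 * S * (2 ^ 10 * l ^ 10) :=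
    mul_le_mul_of_nonneg_left hl3 (by positivity)
  refine (norm_add_le _ _).trans ?_
  refine (add_le_add_left ((norm_sub_le _ _).trans (add_le_add_left (norm_add_le _ _) _)) _).trans ?_
  calc _ ≤ 2 * S * (2 ^ 10 * l ^ 10) + C1 * S * (2 ^ 10 * l ^ 10) + C2 * S * (2 ^ 10 * l ^ 10) +
        C3 * S * (2 ^ 10 * l ^ 10) := by
        apply add_le_add (add_le_add (add_le_add _ _) _) _
        · exact hS0.trans b0
        · exact hS1.trans b1'
        · exact hS2.trans b2'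
        · exact hS3.trans b3'
    _ = _ := by ring

end Pool.Agent.Lib.H68T
end
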