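import Pool.Agent.Lib.H1M.RV.M002
import Pool.Agent.Lib.H1M.RV.M010
import Pool.Agent.Lib.H1M.RV.M023
import Pool.Agent.Lib.H1M.RV.M025
import Pool.Agent.Lib.H1M.RV.M031
import Pool.Agent.Lib.H1M.RV.M038
import Pool.Agent.Lib.H1M.RV.M039
import Pool.Agent.Lib.H1M.RV.M046
import Pool.Agent.Lib.H1M.RV.M056
import Pool.Agent.Lib.H1M.RV.M082

/-! Merged copies (to shorten the build) of Lib.H68T.BA2, Lib.H18E.CP, Lib.H18E.XC, Lib.H18E.DG, Lib.H18E.DE, Lib.H18P.OX, Lib.H18P.OD. -/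

-- from Lib.H68T.BA2
section

/-!
# Chunk BA2; part of BA: primes in a class modulo `W`: mean and pair correlations
-/

open Finset

namespace Pool.Agent.Lib.H68T




theorem BA2_lp_bounds (m : ℤ) (Z : ℝ) (hm : 1 ≤ m) (hZ : (m : ℝ) ≤ Z) :
    0 ≤ lp m ∧ lp m ≤ Real.log Z := by
  have h1 : (1 : ℝ) ≤ m := by exact_mod_cast hm
  have h2 : 0 ≤ Real.log m := Real.log_nonneg h1
  have h3 : Real.log m ≤ Real.log Z := Real.log_le_log (by linarith) hZ
  unfold lp
  split_ifs
  · exact ⟨h2, h3⟩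
  · exact ⟨le_refl _, h2.trans h3⟩


end Pool.Agent.Lib.H68T
end

-- from Lib.H18E.CP
section

/-!
# Chunk CP: pairs of primes in two classes, lower bound
-/

open Finset Pool.Agent.Lib.H68T

namespace Pool.Agent.Lib.H18E

theorem cp_MM_neg (Q r : ℕ) (ε β : ℝ) (m : ℤ) : MM Q r ε β (-m) = MM Q r ε β m := by
  unfold MM
  have h1 : G Q (-m) = G Q m := by
    unfold G
    exact sum_congr rfl fun q _ => by rw [cq_neg]
  have h2 : Gam Q r (-m) = Gam Q r m := by
    unfold Gam
    refine sum_congr rfl fun q _ => ?_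
    refine sum_congr ?_ fun _ _ => rfl
    refine filter_congr fun d _ => ?_
    rw [IsCoprime.neg_right_iff]
  rw [h1, h2]
  push_cast
  rw [abs_neg]

theorem cp_MM_pos (Q r : ℕ) (ε β : ℝ) (m : ℤ) (hm : 0 < m) :
    MM Q r ε β m = Mod Q r ε β m := by
  unfold MM Pool.Agent.Lib.H68T.Mod
  rw [abs_of_pos (by exact_mod_cast hm)]






end Pool.Agent.Lib.H18E
end

-- from Lib.H18E.XC
section

open Finset Pool.Agent.Lib.H68T

namespace Pool.Agent.Lib.H18E

/-! ## Geometry -/

/-- the difference `y0 - x` resp. `x - y0` -/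
def xcD (σ : Bool) (x y0 : ℕ) : ℤ := if σ then (y0 : ℤ) - x else (x : ℤ) - y0

def xcu (r x y0 : ℕ) : ℕ := (x + y0) % r

def xcv (σ : Bool) (r x y0 : ℕ) : ℕ := (xcD σ x y0 % (r : ℤ)).toNat

def xcs (r y0 x j : ℕ) : ℕ := (x + y0) / r + j

def xct (σ : Bool) (H r y0 x j : ℕ) : ℕ :=
  (xcD σ x y0 / (r : ℤ) + (if σ then (j : ℤ) else -(j : ℤ) - ((H : ℤ) - 1))).toNat

/-- the range of `j` -/
def xcJ (σ : Bool) (n r H : ℕ) : Finset ℕ :=
  if σ then Ico (7 * n / (8 * r) + 1) (7 * n / (8 * r) + 1 + H) else Ico 1 (1 + H)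

theorem xcJ_card (σ : Bool) (n r H : ℕ) : (xcJ σ n r H).card = H := by
  unfold xcJ
  split_ifs <;> simp

theorem xcu_lt {r x y0 : ℕ} (hr : 0 < r) : xcu r x y0 < r := Nat.mod_lt _ hr

theorem xcv_eq {σ : Bool} {r x y0 : ℕ} (hr : 0 < r) :
    ((xcv σ r x y0 : ℕ) : ℤ) = xcD σ x y0 % (r : ℤ) := by
  unfold xcv
  exact Int.toNat_of_nonneg (Int.emod_nonneg _ (by omega))

theorem xcv_lt {σ : Bool} {r x y0 : ℕ} (hr : 0 < r) : xcv σ r x y0 < r := by
  have h1 := xcv_eq (σ := σ) (x := x) (y0 := y0) hr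
  have h2 : xcD σ x y0 % (r : ℤ) < r := Int.emod_lt_of_pos _ (by exact_mod_cast hr)
  omega

/-- the main geometric lemma -/
theorem xc_geom {n r x y0 j : ℕ} (hr : 0 < r) (hn : 100 * r ≤ n) (hx1 : 1 ≤ x) (hx : x ≤ n)
    (hy0 : y0 < r) {σ : Bool} (hσ : σ = true ↔ 2 * x ≤ n)
    (hj : j ∈ xcJ σ n r (n / (32 * r))) :
    xcs r y0 x j ∈ Ico (3 * n / (8 * r)) (4 * (3 * n / (8 * r)) - n / (32 * r)) ∧
    xct σ (n / (32 * r)) r y0 x j ∈ Ico (3 * n / (8 * r)) (4 * (3 * n / (8 * r)) - n / (32 * r)) ∧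
    ((xct σ (n / (32 * r)) r y0 x j : ℕ) : ℤ) = xcD σ x y0 / (r : ℤ) +
      (if σ then (j : ℤ) else -(j : ℤ) - (((n / (32 * r) : ℕ) : ℤ) - 1)) ∧
    ∀ c < n / (32 * r), 1 ≤ y0 + r * (j + c) ∧ y0 + r * (j + c) ≤ n := by
  have hr8 : 0 < 8 * r := by omega
  have hr32 : 0 < 32 * r := by omega
  set M := 3 * n / (8 * r) with hM
  set H := n / (32 * r) with hH
  set J0 := 7 * n / (8 * r) with hJ0
  have m1 : 8 * (r * M) ≤ 3 * n := by
    have := Nat.div_mul_le_self (3 * n) (8 * r)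
    rw [← hM] at this
    nlinarith
  have m2 : 3 * n < 8 * (r * M) + 8 * r := by
    have := Nat.lt_div_mul_add hr8 (a := 3 * n)
    rw [← hM] at this
    nlinarith
  have k1 : 32 * (r * H) ≤ n := by
    have := Nat.div_mul_le_self n (32 * r)
    rw [← hH] at this
    nlinarith
  have k2 : n < 32 * (r * H) + 32 * r := by
    have := Nat.lt_div_mul_add hr32 (a := n)
    rw [← hH] at this
    nlinarith
  have j1 : 8 * (r * J0) ≤ 7 * n := by
    have := Nat.div_mul_le_self (7 * n) (8 * r)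
    rw [← hJ0] at this
    nlinarith
  have j2 : 7 * n < 8 * (r * J0) + 8 * r := by
    have := Nat.lt_div_mul_add hr8 (a := 7 * n)
    rw [← hJ0] at this
    nlinarith
  have hH1 : 1 ≤ H := by
    rw [hH, Nat.le_div_iff_mul_le hr32]
    omega
  have hMr : r ≤ r * M := by
    have : 1 ≤ M := by
      rw [hM, Nat.le_div_iff_mul_le hr8]
      omega
    nlinarith
  have hrH : r ≤ r * H := by nlinarith
  have hHM : H ≤ 4 * M := by
    have : r * H ≤ r * (4 * M) := by nlinarith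
    exact Nat.le_of_mul_le_mul_left this hr
  have hrZ : (0 : ℤ) < r := by exact_mod_cast hr
  -- integer versions
  have M1 : 8 * ((r : ℤ) * M) ≤ 3 * n := by exact_mod_cast m1
  have M2 : 3 * (n : ℤ) < 8 * ((r : ℤ) * M) + 8 * r := by exact_mod_cast m2
  have K1 : 32 * ((r : ℤ) * H) ≤ n := by exact_mod_cast k1
  have K2 : (n : ℤ) < 32 * ((r : ℤ) * H) + 32 * r := by exact_mod_cast k2
  have J1 : 8 * ((r : ℤ) * J0) ≤ 7 * n := by exact_mod_cast j1
  have J2 : 7 * (n : ℤ) < 8 * ((r : ℤ) * J0) + 8 * r := by exact_mod_cast j2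
  have Hn : 100 * (r : ℤ) ≤ n := by exact_mod_cast hn
  have HH : (r : ℤ) ≤ r * H := by exact_mod_cast hrH
  have Hx1 : (1 : ℤ) ≤ x := by exact_mod_cast hx1
  have Hx : (x : ℤ) ≤ n := by exact_mod_cast hx
  have Hy : (y0 : ℤ) < r := by exact_mod_cast hy0
  have Hy0 : (0 : ℤ) ≤ y0 := Int.natCast_nonneg _
  have hsub : ((4 * M - H : ℕ) : ℤ) = 4 * M - H := by
    rw [Nat.cast_sub hHM]
    push_cast
    ring
  -- a criterion
  have crit : ∀ a : ℤ, ∀ l : ℤ, (M : ℤ) * r ≤ a + l * r → a + l * r < (4 * M - H) * r →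
      (M : ℤ) ≤ a / r + l ∧ a / r + l < 4 * M - H := by
    intro a l h1 h2
    constructor
    · have : (M : ℤ) - l ≤ a / r := by
        rw [Int.le_ediv_iff_mul_le hrZ]
        nlinarith
      linarith
    · have : a / r < 4 * (M : ℤ) - H - l := by
        rw [Int.ediv_lt_iff_lt_mul hrZ]
        nlinarith
      linarith
  have hs : ((xcs r y0 x j : ℕ) : ℤ) = ((x : ℤ) + y0) / r + j := by
    unfold xcs
    push_cast
    rfl
  cases σ with
  | true =>
    have h2x : 2 * (x : ℤ) ≤ n := by exact_mod_cast hσ.mp rfl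
    simp only [xcJ, if_true, mem_Ico] at hj
    have b1 : (r : ℤ) * J0 + r ≤ r * j := by
      have : r * (J0 + 1) ≤ r * j := Nat.mul_le_mul_left _ hj.1
      have h3 : ((r * (J0 + 1) : ℕ) : ℤ) ≤ ((r * j : ℕ) : ℤ) := by exact_mod_cast this
      push_cast at h3
      linarith
    have b2 : (r : ℤ) * j ≤ r * J0 + r * H := by
      have : r * j ≤ r * (J0 + H) := Nat.mul_le_mul_left _ (by omega)
      have h3 : ((r * j : ℕ) : ℤ) ≤ ((r * (J0 + H) : ℕ) : ℤ) := by exact_mod_cast this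
      push_cast at h3
      linarith
    obtain ⟨s1, s2⟩ := crit ((x : ℤ) + y0) j (by linarith) (by linarith)
    obtain ⟨t1, t2⟩ := crit ((y0 : ℤ) - x) j (by linarith) (by linarith)
    have ht : ((xct true H r y0 x j : ℕ) : ℤ) = ((y0 : ℤ) - x) / r + j := by
      unfold xct
      simp only [xcD, if_true]
      apply Int.toNat_of_nonneg
      have : (0 : ℤ) ≤ M := Int.natCast_nonneg _
      linarith
    refine ⟨?_, ?_, ?_, ?_⟩
    · rw [mem_Ico]
      constructor
      · zify; rw [hs]; exact s1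
      · zify; rw [hsub, hs]; exact s2
    · rw [mem_Ico]
      constructor
      · zify; rw [ht]; exact t1
      · zify; rw [hsub, ht]; exact t2
    · rw [ht]
      simp [xcD]
    · intro c hc
      have c1 : (r : ℤ) * c + r ≤ r * H := by
        have : r * (c + 1) ≤ r * H := Nat.mul_le_mul_left _ hc
        have h3 : ((r * (c + 1) : ℕ) : ℤ) ≤ ((r * H : ℕ) : ℤ) := by exact_mod_cast this
        push_cast at h3
        linarith
      have c0 : (0 : ℤ) ≤ (r : ℤ) * c := by positivity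
      constructor
      · zify
        linarith
      · zify
        linarith
  | false =>
    have h2x : (n : ℤ) < 2 * (x : ℤ) := by
      have : ¬ (2 * x ≤ n) := fun h => by simpa using hσ.mpr h
      exact_mod_cast not_le.mp this
    simp only [xcJ, Bool.false_eq_true, if_false, mem_Ico] at hj
    have b1 : (r : ℤ) ≤ r * j := by
      have : r * 1 ≤ r * j := Nat.mul_le_mul_left _ hj.1
      have h3 : ((r * 1 : ℕ) : ℤ) ≤ ((r * j : ℕ) : ℤ) := by exact_mod_cast this
      push_cast at h3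
      linarith
    have b2 : (r : ℤ) * j ≤ r * H := by
      have : r * j ≤ r * H := Nat.mul_le_mul_left _ (by omega)
      exact_mod_cast this
    obtain ⟨s1, s2⟩ := crit ((x : ℤ) + y0) j (by linarith) (by linarith)
    obtain ⟨t1, t2⟩ := crit ((x : ℤ) - y0) (-(j : ℤ) - ((H : ℤ) - 1)) (by linarith) (by linarith)
    have ht : ((xct false H r y0 x j : ℕ) : ℤ) =
        ((x : ℤ) - y0) / r + (-(j : ℤ) - ((H : ℤ) - 1)) := by
      unfold xct
      simp only [xcD, Bool.false_eq_true, if_false]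
      apply Int.toNat_of_nonneg
      have : (0 : ℤ) ≤ M := Int.natCast_nonneg _
      linarith
    refine ⟨?_, ?_, ?_, ?_⟩
    · rw [mem_Ico]
      constructor
      · zify; rw [hs]; exact s1
      · zify; rw [hsub, hs]; exact s2
    · rw [mem_Ico]
      constructor
      · zify; rw [ht]; exact t1
      · zify; rw [hsub, ht]; exact t2
    · rw [ht]
      simp [xcD]
    · intro c hc
      have c1 : (r : ℤ) * c + r ≤ r * H := by
        have : r * (c + 1) ≤ r * H := Nat.mul_le_mul_left _ hc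
        have h3 : ((r * (c + 1) : ℕ) : ℤ) ≤ ((r * H : ℕ) : ℤ) := by exact_mod_cast this
        push_cast at h3
        linarith
      have c0 : (0 : ℤ) ≤ (r : ℤ) * c := by positivity
      constructor
      · zify
        linarith
      · zify
        linarith

/-- `x + y = u + r (s + c)` -/
theorem xc_sum {r x y0 j c : ℕ} :
    xcu r x y0 + r * (xcs r y0 x j + c) = x + (y0 + r * (j + c)) := by
  unfold xcu xcs
  have := Nat.mod_add_div (x + y0) r
  nlinarith

/-- `|x - y| = v + r ix` -/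
theorem xc_diff {σ : Bool} {H r x y0 j c : ℕ} (hr : 0 < r) (hc : c < H)
    (ht : ((xct σ H r y0 x j : ℕ) : ℤ) = xcD σ x y0 / (r : ℤ) +
      (if σ then (j : ℤ) else -(j : ℤ) - ((H : ℤ) - 1))) :
    ((xcv σ r x y0 + r * ix H σ (xct σ H r y0 x j) c : ℕ) : ℤ) =
      if σ then ((y0 + r * (j + c) : ℕ) : ℤ) - x else (x : ℤ) - ((y0 + r * (j + c) : ℕ) : ℤ) := by
  have h1 := xcv_eq (σ := σ) (x := x) (y0 := y0) hr
  have h2 := Int.emod_add_mul_ediv (xcD σ x y0) r
  push_cast
  rw [h1]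
  cases σ with
  | true =>
    simp only [ix, cond_true, if_true] at ht ⊢
    push_cast
    rw [ht]
    simp only [xcD, if_true] at h2 ⊢
    linear_combination h2
  | false =>
    simp only [ix, cond_false, Bool.false_eq_true, if_false] at ht ⊢
    have h3 : ((H - 1 - c : ℕ) : ℤ) = (H : ℤ) - 1 - c := by omega
    push_cast
    rw [h3, ht]
    simp only [xcD, Bool.false_eq_true, if_false] at h2 ⊢
    linear_combination h2

/-- `dd = 2 x` -/
theorem xc_dd {σ : Bool} {H r x y0 j : ℕ} (hr : 0 < r) (hH : 1 ≤ H)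
    (ht : ((xct σ H r y0 x j : ℕ) : ℤ) = xcD σ x y0 / (r : ℤ) +
      (if σ then (j : ℤ) else -(j : ℤ) - ((H : ℤ) - 1))) :
    dd H r σ (xcu r x y0) (xcv σ r x y0) (xcs r y0 x j) (xct σ H r y0 x j) = 2 * (x : ℤ) := by
  have h1 := xcv_eq (σ := σ) (x := x) (y0 := y0) hr
  have h2 := Int.emod_add_mul_ediv (xcD σ x y0) r
  have h3 : ((xcu r x y0 : ℕ) : ℤ) + r * (xcs r y0 x j : ℕ) = (x : ℤ) + y0 + r * j := by
    have := xc_sum (r := r) (x := x) (y0 := y0) (j := j) (c := 0)
    have h4 : ((xcu r x y0 + r * (xcs r y0 x j + 0) : ℕ) : ℤ) =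
      ((x + (y0 + r * (j + 0)) : ℕ) : ℤ) := by exact_mod_cast this
    push_cast at h4
    linarith
  unfold dd
  rw [h1]
  cases σ with
  | true =>
    simp only [cond_true, if_true] at ht ⊢
    rw [ht]
    simp only [xcD, if_true] at h2 ⊢
    linear_combination h3 - h2
  | false =>
    simp only [cond_false, Bool.false_eq_true, if_false] at ht ⊢
    have h5 : ((H - 1 : ℕ) : ℤ) = (H : ℤ) - 1 := by omega
    rw [ht, h5]
    simp only [xcD, Bool.false_eq_true, if_false] at h2 ⊢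
    linear_combination h3 + h2

theorem xc_inj {σ : Bool} {n r y0 : ℕ} (hr : 0 < r) (hn : 100 * r ≤ n) (hy0 : y0 < r)
    {x j x' j' : ℕ} (hx : x ∈ Icc 1 n) (hx' : x' ∈ Icc 1 n) (hσ : σ = true ↔ 2 * x ≤ n)
    (hσ' : σ = true ↔ 2 * x' ≤ n) (hj : j ∈ xcJ σ n r (n / (32 * r)))
    (hj' : j' ∈ xcJ σ n r (n / (32 * r))) (hu : xcu r x y0 = xcu r x' y0)
    (hv : xcv σ r x y0 = xcv σ r x' y0) (hs : xcs r y0 x j = xcs r y0 x' j')
    (ht : xct σ (n / (32 * r)) r y0 x j = xct σ (n / (32 * r)) r y0 x' j') : x = x' ∧ j = j' := by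
  rw [mem_Icc] at hx hx'
  have hH : 1 ≤ n / (32 * r) := by
    rw [Nat.le_div_iff_mul_le (by omega)]
    omega
  obtain ⟨-, -, g1, -⟩ := xc_geom hr hn hx.1 hx.2 hy0 hσ hj
  obtain ⟨-, -, g2, -⟩ := xc_geom hr hn hx'.1 hx'.2 hy0 hσ' hj'
  have d1 := xc_dd hr hH g1
  have d2 := xc_dd hr hH g2
  rw [hu, hv, hs, ht, d2] at d1
  have hxx : x = x' := by omega
  subst hxx
  refine ⟨rfl, ?_⟩
  unfold xcs at hs
  omega

open Classical in
/-- the bad vertices for one choice of the classes -/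
noncomputable def xcP (σ : Bool) (n r y0 u v : ℕ) (e : ℕ → ℕ → ℝ) (θ : ℝ) : Finset ℕ :=
  (Icc 1 n).filter (fun x => (σ = true ↔ 2 * x ≤ n) ∧ xcu r x y0 = u ∧ xcv σ r x y0 = v ∧
    ∀ j ∈ xcJ σ n r (n / (32 * r)),
      θ < e (xcs r y0 x j) (xct σ (n / (32 * r)) r y0 x j))

theorem xc_bad {σ : Bool} {n r y0 u v : ℕ} (hr : 0 < r) (hn : 100 * r ≤ n) (hy0 : y0 < r)
    (e : ℕ → ℕ → ℝ) (V θ : ℝ) (hθ : 0 < θ)
    (he : ∑ s ∈ Ico (3 * n / (8 * r)) (4 * (3 * n / (8 * r)) - n / (32 * r)),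
      ∑ t ∈ Ico (3 * n / (8 * r)) (4 * (3 * n / (8 * r)) - n / (32 * r)), (e s t) ^ 2 ≤ V) :
    ((xcP σ n r y0 u v e θ).card : ℝ) * (n / (32 * r) : ℕ) * θ ^ 2 ≤ V := by
  classical
  refine bad_count _ e V θ hθ he (xcP σ n r y0 u v e θ) (fun _ => xcJ σ n r (n / (32 * r)))
    (n / (32 * r)) (fun x _ => (xcJ_card _ _ _ _).ge) (fun x j => xcs r y0 x j)
    (fun x j => xct σ (n / (32 * r)) r y0 x j) ?_ ?_ ?_
  · intro x hx j hj
    simp only [xcP, mem_filter, mem_Icc] at hx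
    obtain ⟨g1, g2, -, -⟩ := xc_geom hr hn hx.1.1 hx.1.2 hy0 hx.2.1 hj
    exact ⟨g1, g2⟩
  · intro x hx j hj x' hx' j' hj' h1 h2
    simp only [xcP, mem_filter] at hx hx'
    exact xc_inj hr hn hy0 hx.1 hx'.1 hx.2.1 hx'.2.1 hj hj' (hx.2.2.1.trans hx'.2.2.1.symm)
      (hx.2.2.2.1.trans hx'.2.2.2.1.symm) h1 h2
  · intro x hx j hj
    simp only [xcP, mem_filter] at hx
    exact hx.2.2.2.2 j hj






end Pool.Agent.Lib.H18E
end

-- from Lib.H18E.DG
section

/-!
# Chunk DG: degrees, good levels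
-/

open Finset Pool.Agent.Lib.H68T Pool.Agent.Lib.GoldbachGraph

namespace Pool.Agent.Lib.H18E

theorem DG_X (n r : ℕ) (hr : 0 < r) (hn : 8 * r ≤ n) :
    n ≤ 4 * (3 * n / (8 * r) * r) ∧ 3 * n / (8 * r) * r ≤ n := by
  have h1 := Nat.div_add_mod (3 * n) (8 * r)
  have h2 := Nat.mod_lt (3 * n) (show 8 * r > 0 by omega)
  set q := 3 * n / (8 * r) with hq
  have h3 : 8 * r * q = 8 * (q * r) := by ring
  rw [h3] at h1
  generalize q * r = w at h1 ⊢
  omega

theorem DG_Q (C : ℝ) (hC : 1 ≤ C) (Q : ℕ) (h : 240 * C ≤ Real.log Q) :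
    C * (Q : ℝ) ^ (-(1 / 20) : ℝ) ≤ 1 / 12 ∧ C * (Q : ℝ) ^ (-(1 / 8) : ℝ) ≤ 1 / 12 := by
  have hQ0 : (0 : ℝ) < Q := by
    by_contra h0
    have h' : (Q : ℝ) = 0 := le_antisymm (not_lt.1 h0) (Nat.cast_nonneg Q)
    rw [h', Real.log_zero] at h
    linarith
  have h20 : C * (Q : ℝ) ^ (-(1 / 20) : ℝ) ≤ 1 / 12 := by
    rw [Real.rpow_def_of_pos hQ0]
    have h1 : Real.exp (Real.log Q * -(1 / 20)) ≤ Real.exp (-(12 * C)) :=
      Real.exp_le_exp.2 (by linarith)
    have h2 : Real.exp (-(12 * C)) ≤ 1 / (12 * C) := by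
      rw [Real.exp_neg, ← one_div]
      apply one_div_le_one_div_of_le (by linarith)
      linarith [Real.add_one_le_exp (12 * C)]
    calc C * Real.exp (Real.log Q * -(1 / 20)) ≤ C * (1 / (12 * C)) :=
          mul_le_mul_of_nonneg_left (h1.trans h2) (by linarith)
      _ = 1 / 12 := by
          have : C ≠ 0 := by linarith
          field_simp
  refine ⟨h20, le_trans ?_ h20⟩
  apply mul_le_mul_of_nonneg_left _ (by linarith)
  apply Real.rpow_le_rpow_of_exponent_le _ (by norm_num)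
  by_contra h0
  have : Real.log Q ≤ 0 := Real.log_nonpos hQ0.le (not_le.1 h0).le
  linarith

theorem DG_SE (x : ℕ) : 1 ≤ SE x := by
  unfold SE
  apply Finset.one_le_prod
  intro p hp
  have h3 : (3 : ℝ) ≤ p := by
    have := (mem_filter.1 hp).2
    exact_mod_cast (by omega : 3 ≤ p)
  rw [le_div_iff₀ (by linarith)]
  linarith

theorem DG_log (n : ℕ) (hn : 2 ≤ n) :
    0 < Real.log (2 * n) ∧ (Real.log (2 * n)) ^ 2 ≤ 4 * (Real.log n) ^ 2 := by
  have h2 : (2 : ℝ) ≤ n := by exact_mod_cast hn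
  have h1 : Real.log (2 * n) ≤ 2 * Real.log n := by
    rw [Real.log_mul (by norm_num) (by linarith)]
    have := Real.log_le_log (by norm_num) h2
    linarith
  have h0 : 0 < Real.log (2 * n) := Real.log_pos (by linarith)
  refine ⟨h0, ?_⟩
  nlinarith


end Pool.Agent.Lib.H18E
end

-- from Lib.H18E.DE
section

/-!
# Chunk DE: degrees, exceptional levels
-/

open Finset Pool.Agent.Lib.H68T Pool.Agent.Lib.GoldbachGraph

namespace Pool.Agent.Lib.H18E

theorem DE_exp (x : ℝ) (h0 : 0 ≤ x) (h1 : x ≤ 1) : Real.exp (-x) ≤ 1 - x / 2 := by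
  have h2 : Real.exp (-x) ≤ 1 / (1 + x) := by
    rw [Real.exp_neg, ← one_div]
    apply one_div_le_one_div_of_le (by linarith)
    linarith [Real.add_one_le_exp x]
  refine h2.trans ?_
  rw [div_le_iff₀ (by linarith)]
  nlinarith




end Pool.Agent.Lib.H18E
end

-- from Lib.H18P.OX
section

/-!
# Project H18P (MP_443e5f_co): neighbours at the own scale

`H18E.x_class` with only those neighbours `Y` of `x` counted which satisfy `Y < x` if `2 x > n`
(the windows of `XC.lean` are of this kind).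
-/

open Finset Pool.Agent.Lib.H68T Pool.Agent.Lib.H18E

namespace Pool.Agent.Lib.H18P

/-- The number of neighbours of `x` in the class `y0` modulo `r`, only those below `x` if `2 x > n`. -/
noncomputable def ocdeg (n r x y0 : ℕ) : ℕ :=
  open Classical in ((Icc 1 n).filter (fun Y => Pool.Agent.Lib.GoldbachGraph.hadj x Y ∧ Y % r = y0 ∧
    (n < 2 * x → Y < x))).card

/-- the sum over `c` is at most the weighted number of neighbours in the class -/
theorem ox_cdeg {σ : Bool} {n r x y0 j : ℕ} (hr : 0 < r) (hn : 100 * r ≤ n) (hx : x ∈ Icc 1 n)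
    (hy0 : y0 < r) (hσ : σ = true ↔ 2 * x ≤ n) (hj : j ∈ xcJ σ n r (n / (32 * r))) :
    ∑ c ∈ range (n / (32 * r)), lp ((xcu r x y0 + r * (xcs r y0 x j + c) : ℕ) : ℤ) *
      lp ((xcv σ r x y0 + r * ix (n / (32 * r)) σ (xct σ (n / (32 * r)) r y0 x j) c : ℕ) : ℤ) ≤
      ocdeg n r x y0 * (Real.log (2 * n)) ^ 2 := by
  classical
  rw [mem_Icc] at hx
  obtain ⟨g1, g2, g3, g4⟩ := xc_geom hr hn hx.1 hx.2 hy0 hσ hj
  set H := n / (32 * r) with hH
  have hr8 : 0 < 8 * r := by omega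
  have hM3 : 3 ≤ r * (3 * n / (8 * r)) := by
    have h1 : 3 * n < (3 * n / (8 * r)) * (8 * r) + 8 * r := Nat.lt_div_mul_add hr8
    nlinarith
  rw [mem_Ico] at g1 g2
  have hlt : ∀ c < H, n < 2 * x → y0 + r * (j + c) < x := by
    intro c hc h2x
    have e2 := xc_diff (σ := σ) (x := x) (y0 := y0) (j := j) (c := c) hr hc g3
    have hbig' : 3 ≤ xcv σ r x y0 + r * ix H σ (xct σ H r y0 x j) c := by
      have h1 : 3 * n / (8 * r) ≤ ix H σ (xct σ H r y0 x j) c := by
        unfold ix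
        cases σ <;> simp <;> omega
      have : r * (3 * n / (8 * r)) ≤ r * ix H σ (xct σ H r y0 x j) c := Nat.mul_le_mul_left _ h1
      omega
    cases σ with
    | true =>
      have := hσ.1 rfl
      omega
    | false =>
      simp only [Bool.false_eq_true, if_false] at e2
      omega
  -- the set of the c with a nonzero term
  set Cs := (range H).filter (fun c => Pool.Agent.Lib.GoldbachGraph.hadj x (y0 + r * (j + c)))
    with hCs
  have hlog0 : 0 ≤ Real.log (2 * n) := Real.log_nonneg (by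
    have : (1 : ℝ) ≤ n := by exact_mod_cast hx.1.trans hx.2
    linarith)
  have hlp : ∀ k : ℕ, k ≤ 2 * n → lp (k : ℤ) ≤ Real.log (2 * n) := by
    intro k hk
    unfold Pool.Agent.Lib.H68T.lp
    split_ifs with h
    · have hk0 : 0 < k := by
        rw [Int.toNat_natCast] at h
        exact h.pos
      apply Real.log_le_log
      · exact_mod_cast hk0
      · exact_mod_cast hk
    · exact hlog0
  have hlp0 : ∀ k : ℕ, 0 ≤ lp (k : ℤ) := by
    intro k
    unfold Pool.Agent.Lib.H68T.lp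
    split_ifs with h
    · rw [Int.toNat_natCast] at h
      exact Real.log_nonneg (by exact_mod_cast h.one_lt.le)
    · exact le_rfl
  have hlpne : ∀ k : ℕ, lp (k : ℤ) ≠ 0 → k.Prime := by
    intro k hk
    unfold Pool.Agent.Lib.H68T.lp at hk
    by_contra h
    rw [if_neg (by rwa [Int.toNat_natCast])] at hk
    exact hk rfl
  have hterm : ∀ c ∈ range H, lp ((xcu r x y0 + r * (xcs r y0 x j + c) : ℕ) : ℤ) *
      lp ((xcv σ r x y0 + r * ix H σ (xct σ H r y0 x j) c : ℕ) : ℤ) ≤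
      if Pool.Agent.Lib.GoldbachGraph.hadj x (y0 + r * (j + c)) then (Real.log (2 * n)) ^ 2
        else 0 := by
    intro c hc
    rw [mem_range] at hc
    obtain ⟨y1, y2⟩ := g4 c hc
    have e1 := xc_sum (r := r) (x := x) (y0 := y0) (j := j) (c := c)
    have e2 := xc_diff (σ := σ) (x := x) (y0 := y0) (j := j) (c := c) hr hc g3
    set y := y0 + r * (j + c) with hy
    set m := xcu r x y0 + r * (xcs r y0 x j + c) with hm
    set m' := xcv σ r x y0 + r * ix H σ (xct σ H r y0 x j) c with hm'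
    have hm2 : m ≤ 2 * n := by omega
    have hdist : m' = Nat.dist x y := by
      rw [Nat.dist]
      cases σ with
      | true => simp only [if_true] at e2; omega
      | false => simp only [Bool.false_eq_true, if_false] at e2; omega
    have hm2' : m' ≤ 2 * n := by
      rw [hdist, Nat.dist]; omega
    have hbig : 3 ≤ m := by
      have : r * (3 * n / (8 * r)) ≤ r * (xcs r y0 x j + c) := Nat.mul_le_mul_left _ (by omega)
      omega
    have hbig' : 3 ≤ m' := by
      have h1 : 3 * n / (8 * r) ≤ ix H σ (xct σ H r y0 x j) c := by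
        unfold ix
        cases σ <;> simp <;> omega
      have : r * (3 * n / (8 * r)) ≤ r * ix H σ (xct σ H r y0 x j) c := Nat.mul_le_mul_left _ h1
      omega
    by_cases h0 : lp (m : ℤ) = 0
    · rw [h0, zero_mul]
      split_ifs <;> positivity
    by_cases h0' : lp (m' : ℤ) = 0
    · rw [h0', mul_zero]
      split_ifs <;> positivity
    have p1 := hlpne m h0
    have p2 := hlpne m' h0'
    rw [if_pos]
    · rw [pow_two]
      exact mul_le_mul (hlp m hm2) (hlp m' hm2') (hlp0 m') hlog0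
    · refine ⟨?_, ?_, ?_, ?_⟩
      · rw [← e1]; exact p1
      · rw [← e1]; exact p1.odd_of_ne_two (by omega)
      · rw [← hdist]; exact p2
      · rw [← hdist]; exact p2.odd_of_ne_two (by omega)
  refine (sum_le_sum hterm).trans ?_
  rw [← sum_filter, sum_const, nsmul_eq_mul]
  apply mul_le_mul_of_nonneg_right _ (by positivity)
  have : ((range H).filter (fun c => Pool.Agent.Lib.GoldbachGraph.hadj x (y0 + r * (j + c)))).card ≤
      ocdeg n r x y0 := by
    unfold ocdeg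
    apply card_le_card_of_injOn (fun c => y0 + r * (j + c))
    · intro c hc
      rw [mem_coe, mem_filter, mem_range] at hc
      rw [mem_coe, mem_filter, mem_Icc]
      refine ⟨g4 c hc.1, hc.2, ?_, fun h2x => hlt c hc.1 h2x⟩
      rw [Nat.add_mul_mod_self_left]
      exact Nat.mod_eq_of_lt hy0
    · intro c _ c' _ h
      simp only at h
      have : r * (j + c) = r * (j + c') := by omega
      have := Nat.eq_of_mul_eq_mul_left hr this
      omega
  exact_mod_cast this


end Pool.Agent.Lib.H18P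
end

-- from Lib.H18P.OD
section

/-!
# Project H18P (MP_443e5f_co): degrees at the own scale

`H18E.deg_good` and `H18E.deg_exc` (weak bound) for `ohdeg`.
-/

open Finset Pool.Agent.Lib.H68T Pool.Agent.Lib.H18E Pool.Agent.Lib.GoldbachGraph

namespace Pool.Agent.Lib.H18P

/-- The number of neighbours of `x` in `[1, n]`, only those below `x` if `2 x > n`. -/
noncomputable def ohdeg (n x : ℕ) : ℕ :=
  open Classical in ((Icc 1 n).filter (fun Y => hadj x Y ∧ (n < 2 * x → Y < x))).card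

theorem osum_cdeg (n r x : ℕ) (S : Finset ℕ) (_hS : S ⊆ compat r x) :
    ∑ y0 ∈ S, ocdeg n r x y0 ≤ ohdeg n x := by
  classical
  unfold ocdeg ohdeg
  rw [← Finset.card_biUnion]
  · apply card_le_card
    intro Y hY
    rw [mem_biUnion] at hY
    obtain ⟨y0, _, hY⟩ := hY
    rw [mem_filter] at hY ⊢
    exact ⟨hY.1, hY.2.1, hY.2.2.2⟩
  · intro a _ b _ hab
    rw [Function.onFun, Finset.disjoint_left]
    intro Y h1 h2
    rw [mem_filter] at h1 h2
    exact hab (h1.2.2.1.symm.trans h2.2.2.1)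



end Pool.Agent.Lib.H18P
end
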