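import Pool.Agent.Lib.H1M.RV.M049
import Pool.Agent.Lib.H1M.RV.M051
import Pool.Agent.Lib.H1M.RV.M053
import Pool.Agent.Lib.H1M.RV.M061
import Pool.Agent.Lib.H1M.RV.M065
import Pool.Agent.Lib.H1M.RV.M067
import Pool.Agent.Lib.H1M.RV.M068
import Pool.Agent.Lib.H1M.RV.M076
import Pool.Agent.Lib.H1M.RV.M087
import Pool.Agent.Lib.H1M.RV.M089

/-! Merged copies (to shorten the build) of Lib.H57T.PV, Lib.H57T.S3a, Lib.H59C.CW, Lib.H57T.PW, Lib.H57T.SN. -/

-- from Lib.H57T.PV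
section

/-!
# The pointwise inequality of the weighted sieve for a value `v`
-/

open Finset

namespace Pool.Agent.Lib.H57T

open Pool.Agent.Lib.H57C
open Pool.Agent.Lib.H59C (zz yy PR mem_PR Tri CPW_yy CPW_yy_le CPW_one_le_yy)

open Classical in
/-- Chen's weights for a value `v < 2 n` without prime factors `< z`, not divisible by squares of primes `≥ z`. -/
theorem pw_val (n : ℕ) (hn : 100 ≤ n) (a : ℕ) (Q : Finset ℕ) (ha1 : 1 < a) (ha2 : a < 2 * n)
    (hsq : ∀ q : ℕ, q.Prime → zz n ≤ q → ¬ q ^ 2 ∣ a)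
    (hsift : ∀ q : ℕ, q.Prime → (q : ℝ) < zz n → ¬ q ∣ a)
    (hQ : ∀ q ∈ PR (zz n) (yy n), q ∣ a → q ∈ Q)
    (hbr : 0 < 1 - 1 / 2 * ((Q.filter (fun q => q ∣ a)).card : ℝ) -
      1 / 2 * (if Tri n a then 1 else 0)) : AP2 n a := by
  have hn1 : (100 : ℝ) ≤ n := by exact_mod_cast hn
  have hz : ∀ q : ℕ, q.Prime → q ∣ a → zz n ≤ q := by
    intro q hq hqa
    refine le_of_not_gt fun h => ?_
    exact hsift q hq h hqa
  have hsqf : Squarefree a := by
    rw [Nat.squarefree_iff_prime_squarefree]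
    intro q hq hqa
    refine hsq q hq (hz q hq (dvd_trans (dvd_mul_right q q) hqa)) ?_
    rwa [pow_two]
  constructor
  · intro q hq hqa
    refine le_trans ?_ (hz q hq hqa)
    unfold zz
    exact Real.rpow_le_rpow_of_exponent_le (by linarith) (by norm_num)
  -- small and large prime factors
  set A := a.primeFactors.filter (fun q : ℕ => (q : ℝ) < yy n) with hA
  set B := a.primeFactors.filter (fun q : ℕ => ¬ (q : ℝ) < yy n) with hB
  have hprod : (∏ q ∈ A, q) * ∏ q ∈ B, q = a := by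
    rw [hA, hB, Finset.prod_filter_mul_prod_filter_not a.primeFactors (fun q : ℕ => (q : ℝ) < yy n)]
    exact Nat.prod_primeFactors_of_squarefree hsqf
  have hAm : ∀ q ∈ A, q.Prime ∧ q ∣ a ∧ (q : ℝ) < yy n := by
    intro q hq
    rw [hA, Finset.mem_filter, Nat.mem_primeFactors] at hq
    exact ⟨hq.1.1, hq.1.2.1, hq.2⟩
  have hBm : ∀ q ∈ B, q.Prime ∧ q ∣ a ∧ yy n ≤ q := by
    intro q hq
    rw [hB, Finset.mem_filter, Nat.mem_primeFactors] at hq
    exact ⟨hq.1.1, hq.1.2.1, not_lt.1 hq.2⟩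
  have hyn := CPW_yy_le n (by omega)
  have hy1 := CPW_one_le_yy n (by omega)
  have hAQ : A ⊆ Q.filter (fun q => q ∣ a) := by
    intro q hq
    obtain ⟨h1, h2, h3⟩ := hAm q hq
    rw [Finset.mem_filter]
    exact ⟨hQ q (mem_PR.2 ⟨h1, hz q h1 h2, h3⟩) h2, h2⟩
  have hAc : (A.card : ℝ) ≤ ((Q.filter (fun q => q ∣ a)).card : ℝ) := by
    exact_mod_cast Finset.card_le_card hAQ
  have hT0 : (0 : ℝ) ≤ (if Tri n a then 1 else 0) := by split_ifs <;> norm_num
  have hA2 : A.card < 2 := by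
    have h1 : (A.card : ℝ) < 2 := by linarith
    exact_mod_cast h1
  have hB3 : B.card < 3 := by
    by_contra hc
    push Not at hc
    have h1 : (2 * n : ℝ) ≤ ((∏ q ∈ B, q : ℕ) : ℝ) := by
      rw [← CPW_yy, Nat.cast_prod]
      calc yy n ^ 3 ≤ yy n ^ B.card := pow_le_pow_right₀ hy1 hc
        _ = ∏ q ∈ B, yy n := by rw [Finset.prod_const]
        _ ≤ ∏ q ∈ B, (q : ℝ) :=
          Finset.prod_le_prod (fun q _ => by linarith) fun q hq => (hBm q hq).2.2
    have h2 : ∏ q ∈ B, q ≤ a :=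
      Nat.le_of_dvd (by omega) ⟨∏ q ∈ A, q, by rw [mul_comm]; exact hprod.symm⟩
    have h3 : (2 * n : ℝ) ≤ (a : ℝ) := h1.trans (by exact_mod_cast h2)
    have h4 : 2 * n ≤ a := by exact_mod_cast h3
    omega
  have hAcase : A.card = 0 ∨ A.card = 1 := by omega
  have hBcase : B.card = 0 ∨ B.card = 1 ∨ B.card = 2 := by omega
  rcases hAcase with hA0 | hA1
  · rw [Finset.card_eq_zero] at hA0
    rw [hA0, Finset.prod_empty, one_mul] at hprod
    rcases hBcase with hB0 | hB1 | hB2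
    · rw [Finset.card_eq_zero] at hB0
      rw [hB0, Finset.prod_empty] at hprod
      omega
    · obtain ⟨q, hq⟩ := Finset.card_eq_one.1 hB1
      rw [hq, Finset.prod_singleton] at hprod
      left
      rw [← hprod]
      exact (hBm q (by rw [hq]; exact Finset.mem_singleton_self q)).1
    · obtain ⟨q, r, hqr, hq⟩ := Finset.card_eq_two.1 hB2
      rw [hq, Finset.prod_pair hqr] at hprod
      right
      refine ⟨q, r, (hBm q ?_).1, (hBm r ?_).1, hprod.symm⟩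
      · rw [hq]; simp
      · rw [hq]; simp
  · obtain ⟨s, hs⟩ := Finset.card_eq_one.1 hA1
    have hs' := hAm s (by rw [hs]; exact Finset.mem_singleton_self s)
    rw [hs, Finset.prod_singleton] at hprod
    rcases hBcase with hB0 | hB1 | hB2
    · rw [Finset.card_eq_zero] at hB0
      rw [hB0, Finset.prod_empty, mul_one] at hprod
      left
      rw [← hprod]
      exact hs'.1
    · obtain ⟨q, hq⟩ := Finset.card_eq_one.1 hB1
      rw [hq, Finset.prod_singleton] at hprod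
      right
      exact ⟨s, q, hs'.1, (hBm q (by rw [hq]; exact Finset.mem_singleton_self q)).1, hprod.symm⟩
    · exfalso
      obtain ⟨q, r, hqr, hq⟩ := Finset.card_eq_two.1 hB2
      rw [hq, Finset.prod_pair hqr] at hprod
      have hqB := hBm q (by rw [hq]; simp)
      have hrB := hBm r (by rw [hq]; simp)
      have hTri : Tri n a := by
        rcases le_total q r with h | h
        · exact ⟨s, q, r, hs'.1, hqB.1, hrB.1, hz s hs'.1 hs'.2.1, hs'.2.2, hqB.2.2, h, by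
            rw [mul_assoc]; exact hprod.symm⟩
        · exact ⟨s, r, q, hs'.1, hrB.1, hqB.1, hz s hs'.1 hs'.2.1, hs'.2.2, hrB.2.2, h, by
            rw [mul_assoc, mul_comm r q]; exact hprod.symm⟩
      rw [if_pos hTri] at hbr
      rw [hA1, Nat.cast_one] at hAc
      linarith

end Pool.Agent.Lib.H57T
end

-- from Lib.H57T.S3a
section

/-!
# Chunk S3a: covering by boxes, with weights
-/

open Finset

namespace Pool.Agent.Lib.H57T

open Pool.Agent.Lib.H57C


open Pool.Agent.Lib.H57M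
open Pool.Agent.Lib.H59C (Sq Win Tri lv Rel BX wB al)

open Classical in
/-- Proof. The proof of `cover` (`H59C/CCV.lean`) with the weights `Φ ≥ 0`: every `p` in the filter has `N' - p = q1 q2 q3 = x.1 x.2` for some `x` in a
box of `Rel`, `p = N' - x.1 x.2`, and `1 ≤ wB x/log (lv ..)`. Different `p` give different `x` (in the same box or not). -/
theorem cover' (δ : ℝ) (hδ : 0 < δ) (hδ1 : δ ≤ 1 / 100) : ∃ n0 : ℕ, ∀ n : ℕ, n0 ≤ n →
    ∀ y1 y2 : ℕ, Win n 2 (y1 + 2) (y2 + 2) → ∀ Φ : ℕ → ℝ, (∀ v, 0 ≤ Φ v) →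
    ∑ v ∈ (Ioc y1 y2).filter (fun v => Tri n v), Φ v ≤
      ∑ b ∈ Rel n 2 (y1 + 2) (y2 + 2) δ, 1 / Real.log (lv δ b.2) *
        ∑ x ∈ (BX (lv δ (b.1 + 1)) (lv δ b.2) (lv δ (b.2 + 1))).filter
          (fun x => y1 < x.1 * x.2 ∧ x.1 * x.2 ≤ y2),
          wB (al n δ b) x * Φ (x.1 * x.2) := by
  obtain ⟨n1, hn1⟩ := Pool.Agent.Lib.H59C.cdl_zz 4
  refine ⟨n1 + 1000, fun n hn y1 y2 hW Φ hΦ => ?_⟩
  have hN : (1000 : ℝ) ≤ n := by exact_mod_cast (by omega : 1000 ≤ n)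
  have hz4 := hn1 n (by omega)
  have hyz : Pool.Agent.Lib.H59C.zz n ≤ Pool.Agent.Lib.H59C.yy n := by
    unfold Pool.Agent.Lib.H59C.zz Pool.Agent.Lib.H59C.yy
    calc (n : ℝ) ^ (1 / 8 : ℝ) ≤ (n : ℝ) ^ (1 / 3 : ℝ) :=
          Real.rpow_le_rpow_of_exponent_le (by linarith) (by norm_num)
      _ ≤ (2 * n : ℝ) ^ (1 / 3 : ℝ) :=
          Real.rpow_le_rpow (by linarith) (by linarith) (by norm_num)
  obtain ⟨F, hF⟩ : ∃ F : ℕ × ℕ → Finset (ℕ × ℕ), F = fun b =>
    (BX (lv δ (b.1 + 1)) (lv δ b.2) (lv δ (b.2 + 1))).filter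
          (fun x => y1 < x.1 * x.2 ∧ x.1 * x.2 ≤ y2) := ⟨_, rfl⟩
  obtain ⟨t, ht⟩ : ∃ t : (_ : ℕ × ℕ) × (ℕ × ℕ) → ℝ, t = fun y =>
    1 / Real.log (lv δ y.1.2) * wB (al n δ y.1) y.2 := ⟨_, rfl⟩
  have ht0 : ∀ y, 0 ≤ t y := by
    intro y
    rw [ht]
    apply mul_nonneg
    · exact div_nonneg zero_le_one (Real.log_natCast_nonneg _)
    · apply mul_nonneg (Pool.Agent.Lib.H59C.ccv_al_nonneg _ _ _ _)
      unfold Pool.Agent.Lib.H59C.lg
      exact Real.log_natCast_nonneg _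
  -- the data of a prime
  have hdata : ∀ p ∈ (Ioc y1 y2).filter (fun p => Tri n p),
      ∃ y : (_ : ℕ × ℕ) × (ℕ × ℕ), y ∈ (Rel n 2 (y1 + 2) (y2 + 2) δ).sigma F ∧ y.2.1 * y.2.2 = p ∧ 1 ≤ t y := by
    intro p hp
    rw [mem_filter, mem_Ioc] at hp
    obtain ⟨⟨hp1, hp2⟩, q1, q2, q3, hq1, hq2, hq3, hz1, hy1, hy2, h23, hdist⟩ := hp
    have hdle : p ≤ 2 * n := by
      have := hW.le
      omega
    have hm2 : 2 ≤ q1 * q2 := by
      have := hq1.two_le
      have := hq2.two_le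
      nlinarith
    have hmle : q1 * q2 ≤ 2 * n := by
      have h1 : q1 * q2 * 1 ≤ q1 * q2 * q3 := Nat.mul_le_mul_left _ hq3.one_lt.le
      rw [mul_one] at h1
      omega
    have hqle : q3 ≤ 2 * n := by
      have h1 : 1 * q3 ≤ q1 * q2 * q3 := Nat.mul_le_mul_right _ (by omega)
      omega
    obtain ⟨i, hi1, hi2⟩ := Pool.Agent.Lib.H59C.ccv_index δ hδ (q1 * q2) hm2
    obtain ⟨j, hj1, hj2⟩ := Pool.Agent.Lib.H59C.ccv_index δ hδ q3 hq3.two_le
    have hal : al n δ (i, j) (q1 * q2) = 1 := by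
      unfold al
      rw [if_pos]
      exact ⟨hi1, q1, q2, hq1, hq2, hz1, hy1, hy2, h23.trans hj2, rfl⟩
    have hyq3 : Pool.Agent.Lib.H59C.yy n ≤ q3 := by
      have : (q2 : ℝ) ≤ q3 := by exact_mod_cast h23
      linarith
    have hRel : (i, j) ∈ Rel n 2 (y1 + 2) (y2 + 2) δ := by
      unfold Pool.Agent.Lib.H59C.Rel
      rw [mem_filter, mem_product, mem_range, mem_range]
      exact ⟨⟨Pool.Agent.Lib.H59C.ccv_index_le δ hδ hδ1 n _ i (by omega) hmle hi1,
        Pool.Agent.Lib.H59C.ccv_index_le δ hδ hδ1 n _ j (by omega) hqle hj1⟩,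
        q1 * q2, q3, p + 2, hi1, hi2, hj1, hj2, hq3, hal, hyq3, by omega, by omega, by unfold Nat.dist; omega⟩
    have hlv2 : 2 ≤ lv δ j := by
      have h1 : (q3 : ℝ) ≤ (1 + δ) ^ (j + 1) := by
        have h2 : (q3 : ℝ) ≤ (lv δ (j + 1) : ℝ) := by exact_mod_cast hj2
        have h3 : (lv δ (j + 1) : ℝ) ≤ (1 + δ) ^ (j + 1) := by
          unfold lv
          exact Nat.floor_le (by positivity)
        linarith
      have h2 : (3 : ℝ) ≤ (1 + δ) ^ j := by
        rw [pow_succ] at h1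
        have h3 : (4 : ℝ) ≤ (1 + δ) ^ j * (1 + δ) := by linarith
        have h4 : (0 : ℝ) < (1 + δ) ^ j := by positivity
        nlinarith
      unfold lv
      apply Nat.le_floor
      push_cast
      linarith
    refine ⟨⟨(i, j), (q1 * q2, q3)⟩, ?_, hdist.symm, ?_⟩
    · rw [mem_sigma]
      refine ⟨hRel, ?_⟩
      rw [hF]
      show (q1 * q2, q3) ∈ (BX (lv δ (i + 1)) (lv δ j) (lv δ (j + 1))).filter
          (fun x => y1 < x.1 * x.2 ∧ x.1 * x.2 ≤ y2)
      rw [mem_filter]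
      constructor
      · unfold BX
        rw [mem_product, mem_Icc, Pool.Agent.Lib.H59C.mem_Sq]
        exact ⟨⟨by show 1 ≤ q1 * q2; omega, hi2⟩, ⟨hj1, hj2⟩, hq3⟩
      · show y1 < q1 * q2 * q3 ∧ q1 * q2 * q3 ≤ y2
        rw [← hdist]
        exact ⟨hp1, hp2⟩
    · rw [ht]
      show 1 ≤ 1 / Real.log (lv δ j) * (al n δ (i, j) (q1 * q2) * Pool.Agent.Lib.H59C.lg q3)
      rw [hal, one_mul, one_div, ← div_eq_inv_mul]
      have h1 : (2 : ℝ) ≤ lv δ j := by exact_mod_cast hlv2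
      have h2 : 0 < Real.log (lv δ j) := Real.log_pos (by linarith)
      rw [le_div_iff₀ h2, one_mul]
      unfold Pool.Agent.Lib.H59C.lg
      apply Real.log_le_log (by linarith)
      exact_mod_cast hj1.le
  choose! f hf1 hf2 hf3 using hdata
  have hinj : Set.InjOn f ((Ioc y1 y2).filter (fun p => Tri n p)) := by
    intro p hp p' hp' heq
    have h1 := hf2 p hp
    have h2 := hf2 p' hp'
    rw [← h1, ← h2, heq]
  calc ∑ p ∈ (Ioc y1 y2).filter (fun p => Tri n p), Φ p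
      ≤ ∑ p ∈ (Ioc y1 y2).filter (fun p => Tri n p),
          t (f p) * Φ ((f p).2.1 * (f p).2.2) := by
        refine sum_le_sum fun p hp => ?_
        rw [hf2 p hp]
        exact le_mul_of_one_le_left (hΦ p) (hf3 p hp)
    _ = ∑ y ∈ ((Ioc y1 y2).filter (fun p => Tri n p)).image f,
          t y * Φ (y.2.1 * y.2.2) := by
        rw [sum_image hinj]
    _ ≤ ∑ y ∈ (Rel n 2 (y1 + 2) (y2 + 2) δ).sigma F, t y * Φ (y.2.1 * y.2.2) := by
        apply sum_le_sum_of_subset_of_nonneg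
        · intro y hy
          rw [mem_image] at hy
          obtain ⟨p, hp, rfl⟩ := hy
          exact hf1 p hp
        · intro y _ _
          exact mul_nonneg (ht0 y) (hΦ _)
    _ = ∑ b ∈ Rel n 2 (y1 + 2) (y2 + 2) δ, ∑ x ∈ F b, t ⟨b, x⟩ * Φ (x.1 * x.2) := by
        rw [sum_sigma]
    _ = _ := by
        apply sum_congr rfl
        intro b _
        rw [mul_sum, ht, hF]
        refine sum_congr rfl fun x _ => ?_
        exact mul_assoc _ _ _

end Pool.Agent.Lib.H57T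
end

-- from Lib.H59C.CW
section

/-!
# CW: Chen's theorem in a window
-/

open Finset

namespace Pool.Agent.Lib.H59C

theorem cw_log : 3 / 8 < 2 * Real.log 3 - Real.log 6 := by
  have h1 : 2 * Real.log 3 - Real.log 6 = Real.log (3 / 2) := by
    rw [show (6 : ℝ) = 2 * 3 by norm_num, Real.log_mul (by norm_num) (by norm_num),
      Real.log_div (by norm_num) (by norm_num)]
    ring
  rw [h1, Real.lt_log_iff_exp_lt (by norm_num)]
  have h2 : Real.exp (3 / 8) = Real.exp 1 ^ (3 / 8 : ℝ) := by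
    rw [Real.exp_one_rpow]
  have h3 : Real.exp (3 / 8) ^ 8 = Real.exp 1 ^ 3 := by
    rw [← Real.exp_nat_mul, ← Real.exp_nat_mul]
    congr 1
    norm_num
  by_contra hcon
  push Not at hcon
  have h4 : (3 / 2 : ℝ) ^ 8 ≤ Real.exp (3 / 8) ^ 8 := pow_le_pow_left₀ (by norm_num) hcon 8
  rw [h3] at h4
  have h5 := Real.exp_one_lt_d9
  have h6 : Real.exp 1 ^ 3 ≤ 2.7182818286 ^ 3 :=
    pow_le_pow_left₀ (Real.exp_pos 1).le h5.le 3
  norm_num at h4 h6
  linarith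

/-- **Chen's theorem** in a window.

Proof. `κ = (AA/8) (2 log 3 - log 6 - 3/8) = (AA/8) (log (3/2) - 3/8) > 0` (`AA_pos`, `log (3/2) > 2/5`). `S1_lower`,
`S2_upper`, `S3_upper` with `ε = κ/8`, `A'` the maximum of the three (`SWp_mono`), `sw_exists A' K0` (gives `p1`) with `K0`
large: the left side of `chen_sum` is `≥ (κ/2) XX VV ≥ (κ/2) c hl N n/log n` (`main_lower`), and the two last sums are
`≤ n^(9/10) + (C/K0) hl N n/log n ≤ (κ/4) c hl N n/log n`. -/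
theorem chen_window : ∃ c : ℝ, 0 < c ∧ ∃ n0 : ℕ, ∀ n : ℕ, n0 ≤ n → ∀ N y1 y2 : ℕ,
    Win n N y1 y2 → c * hl N * n / Real.log n ^ 2 ≤ (Good n N y1 y2).card := by
  classical
  have hAA := AA_pos
  obtain ⟨κ, hκ⟩ : ∃ κ : ℝ, κ = AA / 8 * (2 * Real.log 3 - Real.log 6 - 3 / 8) := ⟨_, rfl⟩
  have hκ0 : 0 < κ := by
    rw [hκ]
    have := cw_log
    exact mul_pos (by linarith) (by linarith)
  obtain ⟨A1, n1, h1⟩ := S1_lower (κ / 4) (by linarith)
  obtain ⟨A2, n2, h2⟩ := S2_upper (κ / 4) (by linarith)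
  obtain ⟨A3, n3, h3⟩ := S3_upper (κ / 4) (by linarith)
  obtain ⟨c, hc, n4, h4⟩ := main_lower
  obtain ⟨C, hC, n5, h5⟩ := bad_p1
  obtain ⟨n6, h6⟩ := bad_sq
  obtain ⟨n7, h7⟩ := chen_sum
  obtain ⟨K0, hK0⟩ := exists_nat_ge (8 * C / (κ * c))
  obtain ⟨n8, h8⟩ := sw_exists (A1 + A2 + A3) K0
  obtain ⟨n9, h9⟩ := cdl_log_pow 1 (8 / (κ * c)) (1 / 10) (by positivity) (by norm_num)
  refine ⟨κ * c / 4, by positivity, n1 + n2 + n3 + n4 + n5 + n6 + n7 + n8 + n9 + 3,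
    fun n hn N y1 y2 hW => ?_⟩
  have hN : (3 : ℝ) ≤ n := by exact_mod_cast (by omega : 3 ≤ n)
  have hL : 0 < Real.log n := Real.log_pos (by linarith)
  obtain ⟨p1, hp1, hpK, hp100, hSW⟩ := h8 n (by omega)
  have s1 := h1 n (by omega) p1 hp1 (SWp_mono (by omega) (by omega) hSW) N y1 y2 hW
  have s2 := h2 n (by omega) p1 hp1 (SWp_mono (by omega) (by omega) hSW) N y1 y2 hW
  have s3 := h3 n (by omega) p1 hp1 hp100 (SWp_mono (by omega) (by omega) hSW) N y1 y2 hW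
  obtain ⟨s4, -, -⟩ := h4 n (by omega) p1 N y1 y2 hW
  have s5 := h5 n (by omega) p1 hp1 hp100 N y1 y2 hW
  have s6 := h6 n (by omega) N y1 y2 hW
  have s7 := h7 n (by omega) N y1 y2 p1 hW
  have s9 := h9 n (by omega)
  have hhl := one_le_hl N
  obtain ⟨H, hH⟩ : ∃ H : ℝ, H = hl N * n / Real.log n := ⟨_, rfl⟩
  have hH0 : 0 < H := by rw [hH]; positivity
  obtain ⟨T, hT⟩ : ∃ T : ℝ, T = XX y1 y2 * VV (PP n N p1) (zz n) := ⟨_, rfl⟩
  rw [← hT] at s1 s2 s3 s4
  have hTH : c * H ≤ T := by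
    rw [hH]
    calc c * (hl N * n / Real.log n) = c * hl N * n / Real.log n := by ring
      _ ≤ T := s4
  -- the exceptional primes
  have e5 : C / p1 * (hl N * n / Real.log n) ≤ κ * c / 8 * H := by
    rw [← hH]
    apply mul_le_mul_of_nonneg_right _ hH0.le
    have hp0 : (0 : ℝ) < p1 := by exact_mod_cast hp1.pos
    rw [div_le_iff₀ hp0]
    have e : 8 * C / (κ * c) ≤ (p1 : ℝ) := hK0.trans (by exact_mod_cast hpK)
    rw [div_le_iff₀ (by positivity)] at e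
    linarith
  have e6 : (n : ℝ) ^ (9 / 10 : ℝ) ≤ κ * c / 8 * H := by
    rw [pow_one] at s9
    have e : (n : ℝ) / Real.log n ≤ H := by
      rw [hH]
      apply div_le_div_of_nonneg_right _ hL.le
      exact le_mul_of_one_le_left (by linarith) hhl
    have e' : (n : ℝ) ^ (9 / 10 : ℝ) ≤ κ * c / 8 * (n / Real.log n) := by
      have e1 : (n : ℝ) = (n : ℝ) ^ (9 / 10 : ℝ) * (n : ℝ) ^ (1 / 10 : ℝ) := by
        rw [← Real.rpow_add (by linarith)]
        norm_num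
      have e2 : (n : ℝ) ^ (9 / 10 : ℝ) * (8 / (κ * c) * Real.log n) ≤ n := by
        calc (n : ℝ) ^ (9 / 10 : ℝ) * (8 / (κ * c) * Real.log n)
            ≤ (n : ℝ) ^ (9 / 10 : ℝ) * (n : ℝ) ^ (1 / 10 : ℝ) :=
              mul_le_mul_of_nonneg_left s9 (by positivity)
          _ = n := e1.symm
      have e3 : (n : ℝ) ^ (9 / 10 : ℝ) =
          κ * c / 8 * (((n : ℝ) ^ (9 / 10 : ℝ) * (8 / (κ * c) * Real.log n)) / Real.log n) := by
        field_simp
      rw [e3]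
      apply mul_le_mul_of_nonneg_left _ (by positivity)
      exact div_le_div_of_nonneg_right e2 hL.le
    exact e'.trans (mul_le_mul_of_nonneg_left e (by positivity))
  -- the weighted sum
  have hlow : κ / 2 * T ≤ sift (Sq y1 y2) lg (fun p => Nat.dist N p) (PP n N p1) (zz n) -
      1 / 2 * ∑ q ∈ QQ n N p1, sift ((Sq y1 y2).filter (fun p => q ∣ Nat.dist N p)) lg
        (fun p => Nat.dist N p) (PP n N p1) (zz n) -
      1 / 2 * ∑ p ∈ (Sq y1 y2).filter (fun p => Tri n (Nat.dist N p)), lg p := by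
    have e1 : κ / 2 * T = T * (AA * Real.log 3 / 4 - κ / 4) -
        1 / 2 * (T * (AA / 4 * Real.log 6 + κ / 4)) - 1 / 2 * (T * (AA / 4 * (3 / 8) + κ / 4)) := by
      have : T * (AA * Real.log 3 / 4 - κ / 4) -
        1 / 2 * (T * (AA / 4 * Real.log 6 + κ / 4)) - 1 / 2 * (T * (AA / 4 * (3 / 8) + κ / 4)) =
        T * (AA / 8 * (2 * Real.log 3 - Real.log 6 - 3 / 8)) - T * (κ / 2) := by ring
      rw [this, ← hκ]
      ring
    rw [e1]
    linarith
  have hfin : κ * c / 4 * H ≤ Real.log n * ((Good n N y1 y2).card : ℝ) := by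
    have e1 : κ * c / 2 * H ≤ κ / 2 * T := by
      have := mul_le_mul_of_nonneg_left hTH (by linarith : 0 ≤ κ / 2)
      linarith
    have e2 := s7
    have e3 : κ * c / 2 * H ≤ Real.log n * ((Good n N y1 y2).card : ℝ) +
        κ * c / 8 * H + κ * c / 8 * H := by
      refine e1.trans (hlow.trans (e2.trans ?_))
      have := s6.trans e6
      have := s5.trans e5
      linarith
    linarith
  rw [hH] at hfin
  rw [div_le_iff₀ (by positivity)]
  calc κ * c / 4 * hl N * n = (κ * c / 4 * (hl N * n / Real.log n)) * Real.log n := by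
        field_simp
    _ ≤ (Real.log n * ((Good n N y1 y2).card : ℝ)) * Real.log n :=
        mul_le_mul_of_nonneg_right hfin hL.le
    _ = ((Good n N y1 y2).card : ℝ) * Real.log n ^ 2 := by ring

end Pool.Agent.Lib.H59C
end

-- from Lib.H57T.PW
section

/-!
# Chunk PW: only good `t` contribute positively
-/

open Finset

namespace Pool.Agent.Lib.H57T

open Pool.Agent.Lib.H57C


open Pool.Agent.Lib.H57M
open Pool.Agent.Lib.H59C (Sq lg zz yy QQ Tri)
/-- One `t`. -/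
theorem pw_one (K B : ℕ) : ∃ n0 : ℕ, ∀ N : ℕ, n0 ≤ N → ∀ (W p1 : ℕ) (H : Finset ℕ),
    W = ⌈Real.log N ^ B⌉₊ → ∀ a t : ℕ, 100 * a ≤ N → Ya N < t → t ≤ Yb N →
    Sg (Ps W p1) (Rb a H) t ≠ 0 → ¬ p1 ∣ t + a →
    (∀ q ∈ Bd N W H a, ¬ q ∣ t + a) →
    (∀ q : ℕ, q.Prime → zz N ≤ q → ¬ q ^ 2 ∣ t + a) →
    (∀ q ∈ Pg N W H a, (q : ℝ) < zz N → ¬ q ∣ t + a) →
    (0 : ℝ) < 1 - 1 / 2 * (((Qc N W H a).filter (fun q => q ∣ t + a)).card : ℝ) -
      1 / 2 * (open Classical in if Tri N (t + a) then 1 else 0) →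
    AP2 N (t + a) := by
  obtain ⟨n2, hn2⟩ := pw_big B
  refine ⟨n2 + 100, fun N hN W p1 H hW a t ha hta htb hSg hpd hbd hsq hro hbr => ?_⟩
  obtain ⟨hN1, hN2⟩ := hn2 N (by omega)
  obtain ⟨hW1, hW2⟩ := hN2 W hW
  have hzN : zz N ≤ N := by
    have hN1' : (1000 : ℝ) ≤ N := by exact_mod_cast hN1
    unfold zz
    calc (N : ℝ) ^ (1 / 8 : ℝ) ≤ (N : ℝ) ^ (1 : ℝ) :=
          Real.rpow_le_rpow_of_exponent_le (by linarith) (by norm_num)
      _ = N := Real.rpow_one _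
  -- the primes `q > W`
  have hbig : ∀ q : ℕ, q.Prime → W < q → q ≤ N → q ∣ t + a → q ∈ Pg N W H a := by
    intro q hq hqW hqN hqd
    rcases pg_or_bd (H := H) (a := a) hq hqW hqN with h | h
    · exact h
    · exact absurd hqd (hbd q h)
  refine pw_val N (by omega) (t + a) (Qc N W H a) ?_ ?_ hsq ?_ ?_ hbr
  · unfold Ya at hta
    omega
  · unfold Yb at htb
    omega
  · intro q hq hqz hqd
    rcases Nat.lt_or_ge W q with hWq | hqW
    · have hqN : q ≤ N := by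
        have h1 : (q : ℝ) ≤ N := by linarith
        exact_mod_cast h1
      exact hro q (hbig q hq hWq hqN hqd) hqz hqd
    · by_cases hq1 : q = p1
      · exact hpd (hq1 ▸ hqd)
      · unfold Sg at hSg
        rw [ne_eq, ite_eq_right_iff, Classical.not_imp] at hSg
        have h1 := hSg.1 q (by
          unfold Ps
          rw [Finset.mem_filter, Finset.mem_Icc]
          exact ⟨⟨hq.one_lt.le, hqW⟩, hq, hq1⟩)
        apply h1
        unfold Rb
        rw [Finset.mem_filter, Finset.mem_range]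
        exact ⟨Nat.mod_lt _ hq.pos, Or.inr (tg_mod.2 hqd)⟩
  · intro q hq hqd
    have hq2 := Pool.Agent.Lib.H59C.mem_PR.1 hq
    unfold Qc
    rw [Finset.mem_filter]
    refine ⟨hq, ?_⟩
    have hyN := Pool.Agent.Lib.H59C.CPW_yy_le N (by omega)
    refine hbig q hq2.1 ?_ ?_ hqd
    · have : (W : ℝ) < q := lt_of_lt_of_le hW2 hq2.2.1
      exact_mod_cast this
    · have : (q : ℝ) ≤ N := by linarith [hq2.2.2]
      exact_mod_cast this

variable {K : ℕ} (w : Par K) (H : Finset ℕ) (N a p1 : ℕ)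
theorem pw_Fs_nonneg (i : Option ℕ) (t : ℕ) : 0 ≤ Fs w H a p1 i t :=
  mul_nonneg (pw_FF_nonneg w H i t) (pw_Sg _ _ t).1

theorem pw_Fs_le (i : Option ℕ) (t : ℕ) : Fs w H a p1 i t ≤ FF w H i t := by
  unfold Fs
  have h1 := pw_FF_nonneg w H i t
  have h2 := (pw_Sg (Ps w.W p1) (Rb a H) t).2
  nlinarith

/-- If `t + h` is a prime larger than the primes of the weight, the form `t + h` does not matter. -/
theorem pw_Fs_eq {h t : ℕ} (hp : (t + h).Prime) (hP : ∀ p ∈ w.P, p < t + h) :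
    Fs w H a p1 (some h) t = Fs w H a p1 none t := by
  unfold Fs FF
  have h1 : cfg w.P H (some h) t = cfg w.P H none t := by
    funext h'
    unfold cfg
    by_cases h2 : h'.1 = h
    · have h3 : (some h : Option ℕ) = some h'.1 := by rw [h2]
      rw [if_pos h3, if_neg (by simp), h2]
      symm
      unfold Pool.Agent.Lib.H15P.hit
      rw [Finset.filter_eq_empty_iff]
      intro p _ hd
      have h4 := hP p.1 p.2
      have h5 := (Nat.prime_dvd_prime_iff_eq (w.prime p.1 p.2) hp).1 hd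
      omega
    · have h3 : ¬ ((some h : Option ℕ) = some h'.1) := by
        intro h4
        rw [Option.some.injEq] at h4
        exact h2 h4.symm
      rw [if_neg h3, if_neg (by simp)]
  rw [h1]

/-- The contribution of `t` for the shift `h`. -/
noncomputable def pw_u (h t : ℕ) : ℝ := if (t + h).Prime then lg (t + h) * Fs w H a p1 none t else 0

theorem pw_u_nonneg (h t : ℕ) : 0 ≤ pw_u w H a p1 h t := by
  unfold pw_u
  split_ifs
  · exact mul_nonneg (pw_lg _) (pw_Fs_nonneg w H a p1 none t)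
  · exact le_rfl

open Classical in
/-- Reindexing. -/
theorem pw_sum (hP : ∀ t ∈ Ioc (Ya N) (Yb N), ∀ p ∈ w.P, p < t) (h : ℕ) (P : ℕ → Prop) :
    ∑ p ∈ (Sh N h).filter (fun p => P (tv a h p)), wh w H a p1 h p =
      ∑ t ∈ Ioc (Ya N) (Yb N), pw_u w H a p1 h t * (if P (t + a) then 1 else 0) := by
  have h1 : ∀ t ∈ Ioc (Ya N) (Yb N), pw_u w H a p1 h t * (if P (t + a) then 1 else 0) =
      if ((t + h).Prime ∧ P (t + a)) then wh w H a p1 h (t + h) else 0 := by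
    intro t ht
    unfold pw_u wh
    by_cases h2 : (t + h).Prime
    · rw [if_pos h2, Nat.add_sub_cancel,
        pw_Fs_eq w H a p1 h2 (fun p hp => by have := hP t ht p hp; omega)]
      by_cases h3 : P (t + a)
      · rw [if_pos h3, if_pos ⟨h2, h3⟩, mul_one]
      · rw [if_neg h3, if_neg (fun h4 => h3 h4.2), mul_zero]
    · rw [if_neg h2, if_neg (show ¬ ((t + h).Prime ∧ P (t + a)) from fun h4 => h2 h4.1), zero_mul]
  rw [Finset.sum_congr rfl h1, ← Finset.sum_filter]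
  symm
  have hYb := pw_Yb N
  refine Finset.sum_bij (fun t _ => t + h) ?_ ?_ ?_ ?_
  · intro t ht
    rw [Finset.mem_filter, Finset.mem_Ioc] at ht
    rw [Finset.mem_filter]
    unfold Sh
    rw [Pool.Agent.Lib.H59C.mem_Sq]
    refine ⟨⟨⟨by omega, by omega⟩, ht.2.1⟩, ?_⟩
    unfold tv
    rw [Nat.add_sub_cancel]
    exact ht.2.2
  · intro t _ t' _ hab
    simpa using hab
  · intro p hp
    rw [Finset.mem_filter] at hp
    unfold Sh at hp
    rw [Pool.Agent.Lib.H59C.mem_Sq] at hp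
    have h2 : p - h + h = p := by omega
    refine ⟨p - h, ?_, h2⟩
    rw [Finset.mem_filter, Finset.mem_Ioc, h2]
    exact ⟨⟨by omega, by omega⟩, hp.1.2, hp.2⟩
  · intro t _
    rfl

open Classical in
/-- Rough. -/
noncomputable def pw_R (w : Par K) (H : Finset ℕ) (N a t : ℕ) : ℝ :=
  if (∀ q ∈ Pg N w.W H a, (q : ℝ) < zz N → ¬ q ∣ t + a) then 1 else 0

theorem pw_R01 (t : ℕ) : 0 ≤ pw_R w H N a t ∧ pw_R w H N a t ≤ 1 := by
  unfold pw_R
  split_ifs <;> norm_num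

open Classical in
/-- The bracket. -/
noncomputable def pw_b (w : Par K) (H : Finset ℕ) (N a p1 t : ℕ) : ℝ :=
  1 - 1 / 2 * (((Qc N w.W H a).filter (fun q => q ∣ t + a)).card : ℝ) -
    1 / 2 * (if Tri N (t + a) then 1 else 0) - (if p1 ∣ t + a then 1 else 0) -
    (((Bd N w.W H a).filter (fun q => q ∣ t + a)).card : ℝ) -
    (if ∃ q : ℕ, q.Prime ∧ zz N ≤ q ∧ q ^ 2 ∣ t + a then 1 else 0)

open Classical in
theorem pw_S1 (hP : ∀ t ∈ Ioc (Ya N) (Yb N), ∀ p ∈ w.P, p < t) (h : ℕ) :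
    S1s w H N a p1 h = ∑ t ∈ Ioc (Ya N) (Yb N), pw_u w H a p1 h t * pw_R w H N a t := by
  unfold S1s Pool.Agent.Lib.H59C.sift pw_R
  convert pw_sum w H N a p1 hP h (fun v => ∀ q ∈ Pg N w.W H a, (q : ℝ) < zz N → ¬ q ∣ v)

open Classical in
theorem pw_S2 (hP : ∀ t ∈ Ioc (Ya N) (Yb N), ∀ p ∈ w.P, p < t) (h : ℕ) :
    S2s w H N a p1 h = ∑ t ∈ Ioc (Ya N) (Yb N), pw_u w H a p1 h t *
      (pw_R w H N a t * (((Qc N w.W H a).filter (fun q => q ∣ t + a)).card : ℝ)) := by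
  unfold S2s Pool.Agent.Lib.H59C.sift
  have h1 : ∀ q ∈ Qc N w.W H a, ∑ i ∈ ((Sh N h).filter (fun p => q ∣ tv a h p)).filter
      (fun i => ∀ q ∈ Pg N w.W H a, (q : ℝ) < zz N → ¬ q ∣ tv a h i), wh w H a p1 h i =
      ∑ t ∈ Ioc (Ya N) (Yb N), pw_u w H a p1 h t * (pw_R w H N a t *
        (if q ∣ t + a then 1 else 0)) := by
    intro q _
    rw [Finset.filter_filter]
    have h2 := pw_sum w H N a p1 hP h
      (fun v => q ∣ v ∧ ∀ q ∈ Pg N w.W H a, (q : ℝ) < zz N → ¬ q ∣ v)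
    have h3 : ∀ t ∈ Ioc (Ya N) (Yb N), pw_u w H a p1 h t * (pw_R w H N a t *
        (if q ∣ t + a then 1 else 0)) = pw_u w H a p1 h t *
        (if (q ∣ t + a ∧ ∀ q ∈ Pg N w.W H a, (q : ℝ) < zz N → ¬ q ∣ t + a) then 1 else 0) := by
      intro t _
      congr 1
      unfold pw_R
      by_cases h4 : q ∣ t + a
      · by_cases h5 : ∀ q ∈ Pg N w.W H a, (q : ℝ) < zz N → ¬ q ∣ t + a
        · rw [if_pos h4, if_pos h5, if_pos ⟨h4, h5⟩, mul_one]
        · rw [if_pos h4, if_neg h5, if_neg (fun h6 => h5 h6.2), zero_mul]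
      · rw [if_neg h4, if_neg (show ¬ (q ∣ t + a ∧ ∀ q ∈ Pg N w.W H a, (q : ℝ) < zz N → ¬ q ∣ t + a)
          from fun h6 => h4 h6.1), mul_zero]
    rw [Finset.sum_congr rfl h3]
    convert h2
  rw [Finset.sum_congr rfl h1, Finset.sum_comm]
  refine Finset.sum_congr rfl fun t _ => ?_
  rw [← Finset.mul_sum, ← Finset.mul_sum, Finset.sum_boole]

open Classical in
theorem pw_S3 (hP : ∀ t ∈ Ioc (Ya N) (Yb N), ∀ p ∈ w.P, p < t) (h : ℕ) :
    ∑ t ∈ Ioc (Ya N) (Yb N), pw_u w H a p1 h t *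
      (pw_R w H N a t * (if Tri N (t + a) then 1 else 0)) ≤ S3s w H N a p1 h := by
  unfold S3s
  have h1 := pw_sum w H N a p1 hP h (fun v => Tri N v)
  have h2 : ∑ p ∈ (Sh N h).filter (fun p => Tri N (tv a h p)), wh w H a p1 h p =
      ∑ t ∈ Ioc (Ya N) (Yb N), pw_u w H a p1 h t * (if Tri N (t + a) then 1 else 0) := by
    convert h1
  rw [h2]
  refine Finset.sum_le_sum fun t _ => ?_
  refine mul_le_mul_of_nonneg_left ?_ (pw_u_nonneg w H a p1 h t)
  have h3 := pw_R01 w H N a t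
  split_ifs <;> linarith

open Classical in
theorem pw_E1 (hP : ∀ t ∈ Ioc (Ya N) (Yb N), ∀ p ∈ w.P, p < t) (h : ℕ) :
    ∑ t ∈ Ioc (Ya N) (Yb N), pw_u w H a p1 h t *
      (pw_R w H N a t * (if p1 ∣ t + a then 1 else 0)) = E1s w H N a p1 h := by
  unfold E1s
  have h2 := pw_sum w H N a p1 hP h
    (fun v => p1 ∣ v ∧ ∀ q ∈ Pg N w.W H a, (q : ℝ) < zz N → ¬ q ∣ v)
  have h3 : ∀ t ∈ Ioc (Ya N) (Yb N), pw_u w H a p1 h t * (pw_R w H N a t *
      (if p1 ∣ t + a then 1 else 0)) = pw_u w H a p1 h t *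
      (if (p1 ∣ t + a ∧ ∀ q ∈ Pg N w.W H a, (q : ℝ) < zz N → ¬ q ∣ t + a) then 1 else 0) := by
    intro t _
    congr 1
    unfold pw_R
    by_cases h4 : p1 ∣ t + a
    · by_cases h5 : ∀ q ∈ Pg N w.W H a, (q : ℝ) < zz N → ¬ q ∣ t + a
      · rw [if_pos h4, if_pos h5, if_pos ⟨h4, h5⟩, mul_one]
      · rw [if_pos h4, if_neg h5, if_neg (fun h6 => h5 h6.2), zero_mul]
    · rw [if_neg h4, if_neg (show ¬ (p1 ∣ t + a ∧ ∀ q ∈ Pg N w.W H a, (q : ℝ) < zz N → ¬ q ∣ t + a)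
        from fun h6 => h4 h6.1), mul_zero]
  rw [Finset.sum_congr rfl h3]
  symm
  convert h2

open Classical in
theorem pw_E2 (hP : ∀ t ∈ Ioc (Ya N) (Yb N), ∀ p ∈ w.P, p < t) (h : ℕ) :
    ∑ t ∈ Ioc (Ya N) (Yb N), pw_u w H a p1 h t *
      (pw_R w H N a t * (((Bd N w.W H a).filter (fun q => q ∣ t + a)).card : ℝ)) ≤
      E2s w H N a p1 h := by
  unfold E2s
  have h1 : ∀ q ∈ Bd N w.W H a, ∑ p ∈ (Sh N h).filter (fun p => q ∣ tv a h p),
      wh w H a p1 h p =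
      ∑ t ∈ Ioc (Ya N) (Yb N), pw_u w H a p1 h t * (if q ∣ t + a then 1 else 0) := by
    intro q _
    have h2 := pw_sum w H N a p1 hP h (fun v => q ∣ v)
    convert h2
  rw [Finset.sum_congr rfl h1, Finset.sum_comm]
  refine Finset.sum_le_sum fun t _ => ?_
  rw [← Finset.mul_sum, Finset.sum_boole]
  refine mul_le_mul_of_nonneg_left ?_ (pw_u_nonneg w H a p1 h t)
  have h3 := pw_R01 w H N a t
  have h4 : (0 : ℝ) ≤ (((Bd N w.W H a).filter (fun q => q ∣ t + a)).card : ℝ) := Nat.cast_nonneg _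
  nlinarith

open Classical in
theorem pw_E3 (hP : ∀ t ∈ Ioc (Ya N) (Yb N), ∀ p ∈ w.P, p < t) (h : ℕ) :
    ∑ t ∈ Ioc (Ya N) (Yb N), pw_u w H a p1 h t *
      (pw_R w H N a t * (if ∃ q : ℕ, q.Prime ∧ zz N ≤ q ∧ q ^ 2 ∣ t + a then 1 else 0)) ≤
      E3s w H N a p1 h := by
  unfold E3s
  have h1 := pw_sum w H N a p1 hP h (fun v => ∃ q : ℕ, q.Prime ∧ zz N ≤ q ∧ q ^ 2 ∣ v)
  rw [h1]
  refine Finset.sum_le_sum fun t _ => ?_
  refine mul_le_mul_of_nonneg_left ?_ (pw_u_nonneg w H a p1 h t)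
  have h3 := pw_R01 w H N a t
  split_ifs <;> linarith

open Classical in
theorem pw_N : Ns w H N a p1 = ∑ t ∈ Ioc (Ya N) (Yb N), pw_R w H N a t * Fs w H a p1 none t := by
  unfold Ns Pool.Agent.Lib.H59C.sift pw_R
  rw [Finset.sum_filter]
  refine Finset.sum_congr rfl fun t _ => ?_
  split_ifs <;> simp

/-- The weighted sum as a sum over `t`. -/
theorem pw_T (hP : ∀ t ∈ Ioc (Ya N) (Yb N), ∀ p ∈ w.P, p < t) (g : ℕ) :
    Tt w H N a p1 g ≤ ∑ t ∈ Ioc (Ya N) (Yb N), pw_R w H N a t *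
      (pw_b w H N a p1 t * ∑ h ∈ H, pw_u w H a p1 h t -
        ((g : ℝ) - 1) * Real.log (2 * N) * Fs w H a p1 none t) := by
  have h1 : ∀ h ∈ H, S1s w H N a p1 h - 1 / 2 * S2s w H N a p1 h - 1 / 2 * S3s w H N a p1 h -
      E1s w H N a p1 h - E2s w H N a p1 h - E3s w H N a p1 h ≤
      ∑ t ∈ Ioc (Ya N) (Yb N), pw_u w H a p1 h t * (pw_R w H N a t * pw_b w H N a p1 t) := by
    intro h _
    have h3 := pw_S3 w H N a p1 hP h
    have h4 := pw_E1 w H N a p1 hP h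
    have h5 := pw_E2 w H N a p1 hP h
    have h6 := pw_E3 w H N a p1 hP h
    rw [pw_S1 w H N a p1 hP h, pw_S2 w H N a p1 hP h]
    have h7 : ∑ t ∈ Ioc (Ya N) (Yb N), pw_u w H a p1 h t * (pw_R w H N a t * pw_b w H N a p1 t) =
        ∑ t ∈ Ioc (Ya N) (Yb N), pw_u w H a p1 h t * pw_R w H N a t -
        1 / 2 * ∑ t ∈ Ioc (Ya N) (Yb N), pw_u w H a p1 h t *
          (pw_R w H N a t * (((Qc N w.W H a).filter (fun q => q ∣ t + a)).card : ℝ)) -
        1 / 2 * ∑ t ∈ Ioc (Ya N) (Yb N), pw_u w H a p1 h t *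
          (pw_R w H N a t * (open Classical in if Tri N (t + a) then 1 else 0)) -
        ∑ t ∈ Ioc (Ya N) (Yb N), pw_u w H a p1 h t *
          (pw_R w H N a t * (open Classical in if p1 ∣ t + a then 1 else 0)) -
        ∑ t ∈ Ioc (Ya N) (Yb N), pw_u w H a p1 h t *
          (pw_R w H N a t * (((Bd N w.W H a).filter (fun q => q ∣ t + a)).card : ℝ)) -
        ∑ t ∈ Ioc (Ya N) (Yb N), pw_u w H a p1 h t *
          (pw_R w H N a t *
            (open Classical in if ∃ q : ℕ, q.Prime ∧ zz N ≤ q ∧ q ^ 2 ∣ t + a then 1 else 0)) := by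
      rw [Finset.mul_sum, Finset.mul_sum, ← Finset.sum_sub_distrib, ← Finset.sum_sub_distrib,
        ← Finset.sum_sub_distrib, ← Finset.sum_sub_distrib, ← Finset.sum_sub_distrib]
      refine Finset.sum_congr rfl fun t _ => ?_
      unfold pw_b
      ring
    rw [h7]
    linarith
  unfold Tt
  rw [pw_N]
  have h2 := Finset.sum_le_sum h1
  rw [Finset.sum_comm] at h2
  have h3 : ∑ t ∈ Ioc (Ya N) (Yb N), pw_R w H N a t *
      (pw_b w H N a p1 t * ∑ h ∈ H, pw_u w H a p1 h t -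
        ((g : ℝ) - 1) * Real.log (2 * N) * Fs w H a p1 none t) =
      ∑ t ∈ Ioc (Ya N) (Yb N), ∑ h ∈ H,
        pw_u w H a p1 h t * (pw_R w H N a t * pw_b w H N a p1 t) -
      ((g : ℝ) - 1) * Real.log (2 * N) *
        ∑ t ∈ Ioc (Ya N) (Yb N), pw_R w H N a t * Fs w H a p1 none t := by
    rw [Finset.mul_sum, ← Finset.sum_sub_distrib]
    refine Finset.sum_congr rfl fun t _ => ?_
    rw [← Finset.sum_mul]
    ring
  rw [h3]
  linarith

/-- Only good `t` contribute positively. -/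
theorem T_le (K B cF : ℕ) (θ G : ℝ) (hK : 1 ≤ K) (hB : 3 ≤ B) (g : ℕ) (hg : 1 ≤ g) :
    ∃ n0 : ℕ, ∀ N : ℕ, n0 ≤ N →
    ∀ (w : Par K) (H : Finset ℕ) (a p1 : ℕ), Reg B cF θ G w H N a p1 →
    Tt w H N a p1 g ≤ K * Real.log (2 * N) * ∑ t ∈ Gd H N a g, FF w H none t := by
  classical
  obtain ⟨n1, hn1⟩ := pw_one K B
  obtain ⟨n2, hn2⟩ := pw_big B
  refine ⟨n1 + n2, fun N hN w H a p1 hR => ?_⟩
  obtain ⟨hN1, hN2⟩ := hn2 N (by omega)
  obtain ⟨hW1, hW2⟩ := hN2 w.W hR.Wdef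
  have hN1' : (1000 : ℝ) ≤ N := by exact_mod_cast hN1
  have hYb := pw_Yb N
  have hYa : N / 3 ≤ Ya N := by unfold Ya; omega
  have hP : ∀ t ∈ Ioc (Ya N) (Yb N), ∀ p ∈ w.P, p < t := by
    intro t ht p hp
    rw [Finset.mem_Ioc] at ht
    have h1 := hR.PN p hp
    have h2 : (N : ℝ) ^ (1 / 100 : ℝ) ≤ (N : ℝ) ^ (1 / 2 : ℝ) :=
      Real.rpow_le_rpow_of_exponent_le (by linarith) (by norm_num)
    have h3 : (N : ℝ) ^ (1 / 2 : ℝ) ≤ N / 30 := by
      rw [← Real.sqrt_eq_rpow]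
      rw [Real.sqrt_le_left (by positivity)]
      nlinarith
    have h4 : (30 * p : ℝ) ≤ N := by linarith
    have h5 : 30 * p ≤ N := by exact_mod_cast h4
    omega
  refine (pw_T w H N a p1 hP g).trans ?_
  have hlog : 0 ≤ Real.log (2 * N) := Real.log_nonneg (by linarith)
  have hg1 : (1 : ℝ) ≤ g := by exact_mod_cast hg
  have hKr : (1 : ℝ) ≤ K := by exact_mod_cast hK
  have hGd : Gd H N a g ⊆ Ioc (Ya N) (Yb N) := by
    unfold Gd
    exact Finset.filter_subset _ _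
  rw [Finset.mul_sum]
  have hsplit : ∑ t ∈ Gd H N a g, (K : ℝ) * Real.log (2 * N) * FF w H none t =
      ∑ t ∈ Ioc (Ya N) (Yb N), if t ∈ Gd H N a g then (K : ℝ) * Real.log (2 * N) * FF w H none t
        else 0 := by
    rw [← Finset.sum_filter]
    refine Finset.sum_congr ?_ fun _ _ => rfl
    ext t
    rw [Finset.mem_filter]
    exact ⟨fun h => ⟨hGd h, h⟩, fun h => h.2⟩
  rw [hsplit]
  refine Finset.sum_le_sum fun t ht => ?_
  have ht' := Finset.mem_Ioc.1 ht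
  have hA := pw_Fs_nonneg w H a p1 none t
  have hFF := pw_FF_nonneg w H none t
  have hrhs : (0 : ℝ) ≤ if t ∈ Gd H N a g then (K : ℝ) * Real.log (2 * N) * FF w H none t else 0 := by
    split_ifs
    · positivity
    · exact le_rfl
  -- trivial cases
  by_cases hrough : ∀ q ∈ Pg N w.W H a, (q : ℝ) < zz N → ¬ q ∣ t + a
  swap
  · have h1 : pw_R w H N a t = 0 := by unfold pw_R; rw [if_neg hrough]
    rw [h1, zero_mul]
    exact hrhs
  have h1 : pw_R w H N a t = 1 := by unfold pw_R; rw [if_pos hrough]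
  rw [h1, one_mul]
  have hu0 : 0 ≤ ∑ h ∈ H, pw_u w H a p1 h t :=
    Finset.sum_nonneg fun h _ => pw_u_nonneg w H a p1 h t
  rcases le_or_gt (pw_b w H N a p1 t) 0 with hb | hb
  · refine le_trans ?_ hrhs
    have h2 : pw_b w H N a p1 t * ∑ h ∈ H, pw_u w H a p1 h t ≤ 0 :=
      mul_nonpos_of_nonpos_of_nonneg hb hu0
    have h3 : 0 ≤ ((g : ℝ) - 1) * Real.log (2 * N) * Fs w H a p1 none t :=
      mul_nonneg (mul_nonneg (by linarith) hlog) hA
    linarith
  -- the sum over the shifts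
  have hcard : ∑ h ∈ H, pw_u w H a p1 h t ≤
      ((H.filter (fun h => (t + h).Prime)).card : ℝ) * Real.log (2 * N) * Fs w H a p1 none t := by
    have h2 : ∀ h ∈ H, pw_u w H a p1 h t ≤
        (if (t + h).Prime then 1 else 0) * (Real.log (2 * N) * Fs w H a p1 none t) := by
      intro h hh
      unfold pw_u
      split_ifs with h3
      · rw [one_mul]
        refine mul_le_mul_of_nonneg_right ?_ hA
        unfold lg
        refine Real.log_le_log (by exact_mod_cast h3.pos) ?_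
        have h4 := hR.HN h hh
        have h5 : t + h ≤ 2 * N := by omega
        exact_mod_cast h5
      · simp
    refine (Finset.sum_le_sum h2).trans (le_of_eq ?_)
    rw [← Finset.sum_mul, Finset.sum_boole, mul_assoc]
  have hbR : pw_b w H N a p1 t ≤ 1 := by
    unfold pw_b
    have e1 : (0 : ℝ) ≤ (((Qc N w.W H a).filter (fun q => q ∣ t + a)).card : ℝ) := Nat.cast_nonneg _
    have e2 : (0 : ℝ) ≤ (((Bd N w.W H a).filter (fun q => q ∣ t + a)).card : ℝ) := Nat.cast_nonneg _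
    split_ifs <;> linarith
  by_cases hr : g ≤ (H.filter (fun h => (t + h).Prime)).card
  · -- `t` is good
    have hne : (H.filter (fun h => (t + h).Prime)).Nonempty := by
      rw [← Finset.card_pos]
      omega
    by_cases hS : Sg (Ps w.W p1) (Rb a H) t = 0
    · have h2 : Fs w H a p1 none t = 0 := by unfold Fs; rw [hS, mul_zero]
      have h3 : ∑ h ∈ H, pw_u w H a p1 h t ≤ 0 := by
        refine hcard.trans (le_of_eq ?_)
        rw [h2, mul_zero]
      have h4 : pw_b w H N a p1 t * ∑ h ∈ H, pw_u w H a p1 h t ≤ 0 :=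
        mul_nonpos_of_nonneg_of_nonpos hb.le h3
      rw [h2, mul_zero]
      linarith
    obtain ⟨h, hh⟩ := hne
    rw [Finset.mem_filter] at hh
    obtain ⟨hhH, hhp⟩ := hh
    -- consequences of the positive bracket
    have e1 : (0 : ℝ) ≤ (((Qc N w.W H a).filter (fun q => q ∣ t + a)).card : ℝ) := Nat.cast_nonneg _
    have e2 : (0 : ℝ) ≤ (((Bd N w.W H a).filter (fun q => q ∣ t + a)).card : ℝ) := Nat.cast_nonneg _
    have e3 : (0 : ℝ) ≤ (if Tri N (t + a) then (1 : ℝ) else 0) := by split_ifs <;> norm_num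
    have e4 : (0 : ℝ) ≤ (if p1 ∣ t + a then (1 : ℝ) else 0) := by split_ifs <;> norm_num
    have e5 : (0 : ℝ) ≤ (if ∃ q : ℕ, q.Prime ∧ zz N ≤ q ∧ q ^ 2 ∣ t + a then (1 : ℝ) else 0) := by
      split_ifs <;> norm_num
    have hb' := hb
    unfold pw_b at hb'
    have f1 : ¬ p1 ∣ t + a := by
      intro h2
      rw [if_pos h2] at hb'
      linarith
    have f2 : ∀ q ∈ Bd N w.W H a, ¬ q ∣ t + a := by
      intro q hq hqd
      have h2 : 1 ≤ ((Bd N w.W H a).filter (fun q => q ∣ t + a)).card :=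
        Finset.card_pos.2 ⟨q, Finset.mem_filter.2 ⟨hq, hqd⟩⟩
      have h3 : (1 : ℝ) ≤ (((Bd N w.W H a).filter (fun q => q ∣ t + a)).card : ℝ) := by
        exact_mod_cast h2
      linarith
    have f3 : ∀ q : ℕ, q.Prime → zz N ≤ q → ¬ q ^ 2 ∣ t + a := by
      intro q hq hqz hqd
      rw [if_pos (⟨q, hq, hqz, hqd⟩ : ∃ q : ℕ, q.Prime ∧ zz N ≤ q ∧ q ^ 2 ∣ t + a)] at hb'
      linarith
    have hAP : AP2 N (t + a) := hn1 N (by omega) w.W p1 H hR.Wdef a t hR.aN ht'.1 ht'.2 hS f1 f2 f3 hrough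
      (by linarith)
    have hin : t ∈ Gd H N a g := by
      unfold Gd
      rw [Finset.mem_filter]
      exact ⟨ht, hr, hAP⟩
    rw [if_pos hin]
    have hc : ((H.filter (fun h => (t + h).Prime)).card : ℝ) ≤ K := by
      have h2 := Finset.card_filter_le H (fun h => (t + h).Prime)
      rw [hR.cardH] at h2
      exact_mod_cast h2
    have h2 : pw_b w H N a p1 t * ∑ h ∈ H, pw_u w H a p1 h t ≤ ∑ h ∈ H, pw_u w H a p1 h t := by
      nlinarith
    have h3 : 0 ≤ ((g : ℝ) - 1) * Real.log (2 * N) * Fs w H a p1 none t :=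
      mul_nonneg (mul_nonneg (by linarith) hlog) hA
    have h4 : ((H.filter (fun h => (t + h).Prime)).card : ℝ) * Real.log (2 * N) *
        Fs w H a p1 none t ≤ K * Real.log (2 * N) * FF w H none t :=
      mul_le_mul (mul_le_mul_of_nonneg_right hc hlog) (pw_Fs_le w H a p1 none t) hA
        (by positivity)
    linarith
  · -- fewer than `g` primes
    refine le_trans ?_ hrhs
    push Not at hr
    have hc : ((H.filter (fun h => (t + h).Prime)).card : ℝ) ≤ (g : ℝ) - 1 := by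
      have h2 : (H.filter (fun h => (t + h).Prime)).card + 1 ≤ g := hr
      have h3 : (((H.filter (fun h => (t + h).Prime)).card + 1 : ℕ) : ℝ) ≤ g := by
        exact_mod_cast h2
      rw [Nat.cast_add, Nat.cast_one] at h3
      linarith
    have h2 : pw_b w H N a p1 t * ∑ h ∈ H, pw_u w H a p1 h t ≤ ∑ h ∈ H, pw_u w H a p1 h t := by
      nlinarith
    have h4 : ((H.filter (fun h => (t + h).Prime)).card : ℝ) * Real.log (2 * N) *
        Fs w H a p1 none t ≤ ((g : ℝ) - 1) * Real.log (2 * N) * Fs w H a p1 none t :=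
      mul_le_mul_of_nonneg_right (mul_le_mul_of_nonneg_right hc hlog) hA
    linarith

end Pool.Agent.Lib.H57T
end

-- from Lib.H57T.SN
section

/-!
# Chunk SN: the negative part
-/

open Finset

namespace Pool.Agent.Lib.H57T

open Pool.Agent.Lib.H57C


open Pool.Agent.Lib.H57M
open Pool.Agent.Lib.H59C (AA zz)
theorem sn_Fs {K : ℕ} (w : Par K) (H : Finset ℕ) (a p1 : ℕ) (i : Option ℕ) (t : ℕ) : 0 ≤ Fs w H a p1 i t := by
  unfold Fs FF Sg
  have hz : 0 < w.z := lt_of_lt_of_le one_pos w.z_bounds.1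
  refine mul_nonneg (div_nonneg (sq_nonneg _) (pow_nonneg hz.le _)) ?_
  split_ifs <;> norm_num

/-- Proof. `jr 1` with `z = zz N`, `D = z^3` (`log D = 3 log z`): `sift ≤ Xi Vz (AA/3 + 1) + remd`, and `D Q0 = N^(3/8) Q0 ≤ Lv N θ` for `θ ≤ 1/100` and large
`N`; the moduli of `remd` are in `Dv (Pg) (Lv)`: `remI`. `Xi ≤ (N/10 + 1) (11/10) Va` (`aen`). -/
theorem Ns_up (K B cF : ℕ) (θ G : ℝ) (hK : 1 ≤ K) (hB : 3 ≤ B) (hθ : 0 < θ) (hθ1 : θ ≤ 1 / 100) :
    ∃ n0 : ℕ, ∀ N : ℕ, n0 ≤ N →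
    ∀ (w : Par K) (H : Finset ℕ) (a p1 : ℕ), Reg B cF θ G w H N a p1 →
    Ns w H N a p1 ≤ N / 8 * (Va a w.W p1 H * Vz N w.W H a * (AA / 3 + 1)) +
      N / Real.log N ^ 10 := by
  obtain ⟨Q0, hQ0, z0, hz0, hjr⟩ := Pool.Agent.Lib.H59C.jr 1 one_pos
  obtain ⟨n1, hn1⟩ := sn_large Q0 z0
  obtain ⟨c, hc, n2, hn2⟩ := vz_low
  obtain ⟨n3, hn3⟩ := va_low K B
  refine ⟨max n1 (max n2 n3), fun N hN w H a p1 hR => ?_⟩
  obtain ⟨g1, g2, g3⟩ := hn1 N (le_trans (le_max_left _ _) hN)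
  have hNr : (1000 : ℝ) ≤ N := by exact_mod_cast g1
  have hL0 : 0 < Real.log N := Real.log_pos (by linarith)
  have hW4 : 4 ≤ w.W := by
    have := w.KW
    have h1 := w.Kpos
    nlinarith
  obtain ⟨z1, _⟩ := hn2 N (le_trans (le_trans (le_max_left _ _) (le_max_right _ _)) hN) a w.W H (by omega)
  obtain ⟨v1, _⟩ := hn3 N (le_trans (le_trans (le_max_right _ _) (le_max_right _ _)) hN) a w.W p1 H
    hR.Wdef hR.cardH hR.nf
  have hva0 : 0 ≤ Va a w.W p1 H := le_trans (by positivity) v1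
  have hvz0 : 0 ≤ Vz N w.W H a := le_trans (by positivity) z1
  have hP : ∀ q ∈ Pg N w.W H a, q.Prime ∧ 3 ≤ q := by
    intro q hq
    unfold Pg at hq
    rw [Finset.mem_filter, Finset.mem_Ioc] at hq
    exact ⟨hq.2.1, by omega⟩
  have hzz : 2 ≤ zz N := le_trans hz0 g2
  have hlz : 0 < Real.log (zz N) := Real.log_pos (by linarith)
  have hD : Real.log (zz N ^ 3) = 3 * Real.log (zz N) := by
    rw [Real.log_pow]; push_cast; ring
  have hYab : (0 : ℝ) ≤ (Yb N : ℝ) - Ya N := by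
    have : Ya N ≤ Yb N := by unfold Ya Yb; omega
    have : (Ya N : ℝ) ≤ Yb N := by exact_mod_cast this
    linarith
  have hYu : (Yb N : ℝ) - Ya N ≤ (N : ℝ) / 10 + 1 := by
    have h3 : 10 * Yb N ≤ N + 10 * Ya N + 10 := by unfold Ya Yb; omega
    have h4 : 10 * (Yb N : ℝ) ≤ (N : ℝ) + 10 * (Ya N : ℝ) + 10 := by exact_mod_cast h3
    linarith
  have hXi0 : 0 ≤ Xi w H N a p1 := by
    unfold Xi
    exact mul_nonneg hYab (mul_nonneg hR.aen0 hva0)
  have hXi : Xi w H N a p1 ≤ N / 8 * Va a w.W p1 H := by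
    unfold Xi
    calc ((Yb N : ℝ) - Ya N) * (AE w.P H none (FC w H) * Va a w.W p1 H) ≤
          ((N : ℝ) / 10 + 1) * (11 / 10 * Va a w.W p1 H) :=
          mul_le_mul hYu (mul_le_mul_of_nonneg_right hR.aen hva0) (mul_nonneg hR.aen0 hva0) (by linarith)
      _ = (((N : ℝ) / 10 + 1) * (11 / 10)) * Va a w.W p1 H := by ring
      _ ≤ N / 8 * Va a w.W p1 H := by
          refine mul_le_mul_of_nonneg_right ?_ hva0
          linarith
  obtain ⟨hup, _⟩ := hjr (Pg N w.W H a) hP (zz N) (zz N ^ 3) g2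
    (by
      have : (1 : ℝ) ≤ zz N ^ 2 := one_le_pow₀ (by linarith)
      nlinarith)
    (Ioc (Ya N) (Yb N)) (Fs w H a p1 none) (fun t => t + a) (Xi w H N a p1) hXi0
    (fun t _ => sn_Fs w H a p1 none t)
  have hup := hup (by rw [hD])
  have hq : Real.log (zz N ^ 3) / Real.log (zz N) = 3 := by
    rw [hD]; field_simp
  rw [hq] at hup
  have hrem := le_trans (sn_rem (Ioc (Ya N) (Yb N)) (Fs w H a p1 none) (fun t => t + a) (Pg N w.W H a) (zz N)
    (Xi w H N a p1) (zz N ^ 3 * Q0) (Lv N θ) (g3 θ hθ1)) hR.remI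
  have hAA := Pool.Agent.Lib.H59C.AA_pos
  have hmain : Xi w H N a p1 * Vz N w.W H a * (AA / 3 + 1) ≤
      N / 8 * (Va a w.W p1 H * Vz N w.W H a * (AA / 3 + 1)) := by
    have h1 : 0 ≤ Vz N w.W H a * (AA / 3 + 1) := mul_nonneg hvz0 (by linarith)
    calc Xi w H N a p1 * Vz N w.W H a * (AA / 3 + 1) = Xi w H N a p1 * (Vz N w.W H a * (AA / 3 + 1)) := by ring
      _ ≤ N / 8 * Va a w.W p1 H * (Vz N w.W H a * (AA / 3 + 1)) := mul_le_mul_of_nonneg_right hXi h1
      _ = _ := by ring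
  unfold Ns
  calc _ ≤ Xi w H N a p1 * Pool.Agent.Lib.H59C.VV (Pg N w.W H a) (zz N) * (AA / 3 + 1) +
        Pool.Agent.Lib.H59C.remd (Ioc (Ya N) (Yb N)) (Fs w H a p1 none) (fun t => t + a) (Pg N w.W H a) (zz N)
          (Xi w H N a p1) (zz N ^ 3 * Q0) := hup
    _ ≤ _ := add_le_add hmain hrem

end Pool.Agent.Lib.H57T
end
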