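import Pool.Agent.Lib.H1M.RV.M060
import Pool.Agent.Lib.H1M.RV.M089

/-! Merged copies (to shorten the build) of Lib.H57T.S2. -/

-- from Lib.H57T.S2
section

/-!
# Chunk S2: the second sum
-/

open Finset

namespace Pool.Agent.Lib.H57T

open Pool.Agent.Lib.H57C


open Pool.Agent.Lib.H57M
open Pool.Agent.Lib.H59C (AA zz yy gq PR)
open Pool.Agent.Lib.H59C (cdl_log_pow cdl_zz cdl_log log_zz cp2_int cp2_eta prime_int mem_PR jr AA_pos VV VP
  sift remd lg lg_nonneg XX XX_nonneg Sq)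
theorem s2_Fs {K : ℕ} (w : Par K) (H : Finset ℕ) (a p1 : ℕ) (i : Option ℕ) (t : ℕ) :
    0 ≤ Fs w H a p1 i t := by
  have hz : 0 ≤ w.z := by
    unfold Par.z
    have : 0 ≤ ∑ i, H15P.ex (H15P.qq w.P K) (fun A => w.D i A ^ 2) :=
      Finset.sum_nonneg fun i _ => H15P.ex_nonneg _ w.good.q0 w.good.q1 _ fun A => sq_nonneg _
    linarith
  unfold Fs FF Sg
  refine mul_nonneg (div_nonneg (sq_nonneg _) (pow_nonneg hz _)) ?_
  split_ifs <;> norm_num

theorem s2_Pg {N a W : ℕ} {H : Finset ℕ} (hW : 2 ≤ W) {q : ℕ} (hq : q ∈ Pg N W H a) :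
    q.Prime ∧ 3 ≤ q := by
  unfold Pg at hq
  rw [mem_filter, mem_Ioc] at hq
  exact ⟨hq.2.1, by omega⟩

/-- Proof. As `S2_upper` (`H59C/CS2.lean`), with `remB` instead of `rem_A`: for `q ∈ Qc` and `d ≤ Lv/q` composed of primes of `Pg`, `< z ≤ q`: `q ∣ a` and
`d ∣ a` iff `d q ∣ a`, `gq q/φ(d) = 1/φ(d q)`, the products `d q` are different members of `Dv (Pg) (Lv)` (see the second part of `rem_A` in `H59C/CR.lean`):
the sum over `q` of the remainders is at most `N/L^10`. `jr` with `D = Lv/q/Q0` (`log D ≤ 3 log z`, `z ≤ D` for `θ ≤ 1/100` and large `N`), weights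
`X gq q`. -/
theorem S2_up (ε : ℝ) (hε : 0 < ε) : ∃ θ0 : ℝ, 0 < θ0 ∧ ∀ θ : ℝ, 0 < θ → θ ≤ θ0 →
    ∀ (K B cF : ℕ) (G : ℝ), 1 ≤ K → 3 ≤ B → ∃ n0 : ℕ, ∀ N : ℕ, n0 ≤ N →
    ∀ (w : Par K) (H : Finset ℕ) (a p1 : ℕ), Reg B cF θ G w H N a p1 → ∀ h ∈ H,
    S2s w H N a p1 h ≤ Xh w H N a p1 h * Vz N w.W H a * (AA / 4 * Real.log 6 + ε) := by
  classical
  have hAA := AA_pos
  obtain ⟨Q0, hQ0, z0, hz0, hjr⟩ := jr (ε / 8) (by linarith)
  obtain ⟨θ0, hθ0, hps0⟩ := prime_S2' (ε / (4 * AA)) (by positivity)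
  refine ⟨min θ0 (1 / 500), lt_min hθ0 (by norm_num), fun θ hθ hθ1 K B cF G hK hB => ?_⟩
  have hθa : θ ≤ θ0 := le_trans hθ1 (min_le_left _ _)
  have hθb : θ ≤ 1 / 500 := le_trans hθ1 (min_le_right _ _)
  obtain ⟨n1, hmain⟩ := main_low K B cF hK θ G
  obtain ⟨n3, hn3⟩ := s2_lv θ hθ (by linarith) Q0 hQ0
  obtain ⟨n4, hn4⟩ := cdl_zz z0
  obtain ⟨n5, hn5⟩ := hps0 θ hθ hθa Q0 hQ0
  obtain ⟨n6, hn6⟩ := cdl_log (max 100 (4 / ε))
  refine ⟨n1 + n3 + n4 + n5 + n6 + 3, fun n hn w H a p1 hR h hh => ?_⟩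
  have hN : (3 : ℝ) ≤ n := by exact_mod_cast (by omega : 3 ≤ n)
  have hL : 0 < Real.log n := Real.log_pos (by linarith)
  have hLL := hn6 n (by omega)
  have hL100 : 100 ≤ Real.log n := le_trans (le_max_left _ _) hLL
  have hLε : 4 / ε ≤ Real.log n := le_trans (le_max_right _ _) hLL
  obtain ⟨hD1, hDl', hDu, hDp⟩ := hn3 n (by omega)
  have hDl : (1 / 2 - 1 / 100) * Real.log n ≤ Real.log ((Lv n θ : ℝ) / Q0) :=
    le_trans (mul_le_mul_of_nonneg_right (by linarith) hL.le) hDl'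
  have hzn := hn4 n (by omega)
  have hlz := log_zz n (by omega)
  obtain ⟨hm1, hX, -, -⟩ := hmain n (by omega) w H a p1 hR h hh
  obtain ⟨hps, hps2⟩ := hn5 n (by omega)
  have hzpos : 0 < zz n := by linarith
  have hlz0 : 0 < Real.log (zz n) := by rw [hlz]; linarith
  have hQ0' : (1 : ℝ) ≤ Q0 := by exact_mod_cast hQ0
  have hW2 : 2 ≤ w.W := by
    have h1 := w.KW
    have h2 := w.Kpos
    nlinarith
  have hPg : ∀ q ∈ Pg n w.W H a, q.Prime ∧ 3 ≤ q := fun q hq => s2_Pg hW2 hq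
  have hV : 0 ≤ Vz n w.W H a := by
    unfold Vz VV VP
    apply prod_nonneg
    intro q hq
    have h3 := (hPg q (mem_filter.mp hq).1).2
    have h3' : (3 : ℝ) ≤ q := by exact_mod_cast h3
    unfold gq
    rw [sub_nonneg, div_le_one (by linarith)]
    linarith
  have hVX : 0 ≤ Xh w H n a p1 h * Vz n w.W H a := mul_nonneg hX hV
  have hwn : ∀ p ∈ Sh n h, 0 ≤ wh w H a p1 h p := fun p _ =>
    mul_nonneg (lg_nonneg p) (s2_Fs w H a p1 _ _)
  -- the remainder
  have hQcp : ∀ q ∈ Qc n w.W H a, q.Prime ∧ zz n ≤ q ∧ q ∈ Pg n w.W H a := by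
    intro q hq
    unfold Qc at hq
    rw [mem_filter, mem_PR] at hq
    exact ⟨hq.1.1, hq.1.2.1, hq.2⟩
  have hr : ∑ q ∈ Qc n w.W H a, remd ((Sh n h).filter (fun p => q ∣ tv a h p))
      (wh w H a p1 h) (fun p => tv a h p) (Pg n w.W H a) (zz n)
      (Xh w H n a p1 h * gq q) ((Lv n θ : ℝ) / q) ≤ n / Real.log n ^ 10 :=
    (s2_rem (Sh n h) (wh w H a p1 h) (fun p => tv a h p) (Pg n w.W H a) (Qc n w.W H a) (zz n)
      (Xh w H n a p1 h) (Lv n θ) hQcp).trans (hR.remB h hh)
  have hsm : n / Real.log n ^ 10 ≤ ε / 4 * (Xh w H n a p1 h * Vz n w.W H a) := by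
    have h1 : (n : ℝ) / Real.log n ^ 10 ≤ ε / 4 * (n / Real.log n ^ 3) := by
      rw [div_le_iff₀ (by positivity)]
      have e1 : ε / 4 * (n / Real.log n ^ 3) * Real.log n ^ 10 = n * (ε / 4 * Real.log n ^ 7) := by
        field_simp
      rw [e1]
      have h2 : 1 ≤ ε / 4 * Real.log n ^ 7 := by
        rw [div_le_iff₀ hε] at hLε
        have h3 : Real.log n ≤ Real.log n ^ 7 := le_self_pow₀ (by linarith) (by norm_num)
        nlinarith
      nlinarith
    exact h1.trans (mul_le_mul_of_nonneg_left hm1 (by positivity))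
  -- the bound for one `q`
  have hone : ∀ q ∈ Qc n w.W H a, sift ((Sh n h).filter (fun p => q ∣ tv a h p))
        (wh w H a p1 h) (fun p => tv a h p) (Pg n w.W H a) (zz n) ≤
      Xh w H n a p1 h * Vz n w.W H a * (AA * (gq q * (Real.log (zz n) /
        Real.log ((Lv n θ : ℝ) / q / Q0))) + ε / 8 * gq q) +
      remd ((Sh n h).filter (fun p => q ∣ tv a h p)) (wh w H a p1 h)
        (fun p => tv a h p) (Pg n w.W H a) (zz n) (Xh w H n a p1 h * gq q)
        ((Lv n θ : ℝ) / q) := by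
    intro q hq
    have hq' : q ∈ PR (zz n) (yy n) ∧ q ∈ Pg n w.W H a := by
      unfold Qc at hq
      exact mem_filter.mp hq
    obtain ⟨hqp, hq1, hq2⟩ := mem_PR.mp hq'.1
    have hqpos : (0 : ℝ) < q := by linarith
    have hlq1 : Real.log (zz n) ≤ Real.log q := Real.log_le_log hzpos hq1
    have hyy : Real.log (yy n) = 1 / 3 * (Real.log 2 + Real.log n) := by
      unfold yy
      rw [Real.log_rpow (by linarith), Real.log_mul (by norm_num) (by linarith)]
    have hlq2 : Real.log q ≤ 1 / 3 * (Real.log 2 + Real.log n) := by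
      rw [← hyy]
      exact Real.log_le_log hqpos hq2.le
    have hlog2 : Real.log 2 ≤ 1 := by
      have := Real.log_two_lt_d9
      linarith
    have hDDpos : (0 : ℝ) < Lv n θ := by
      have : (1 : ℝ) ≤ Lv n θ := by exact_mod_cast hD1
      linarith
    obtain ⟨Dq, hDq⟩ : ∃ Dq : ℝ, Dq = (Lv n θ : ℝ) / q / Q0 := ⟨_, rfl⟩
    have hDqpos : 0 < Dq := by rw [hDq]; positivity
    have hDqlog : Real.log Dq = Real.log ((Lv n θ : ℝ) / Q0) - Real.log q := by
      rw [hDq, show (Lv n θ : ℝ) / q / Q0 = (Lv n θ : ℝ) / Q0 / q by ring,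
        Real.log_div hDp.ne' hqpos.ne']
    have h3z : Real.log Dq ≤ 3 * Real.log (zz n) := by
      rw [hDqlog]
      rw [hlz] at hlq1 ⊢
      linarith
    have hzD : zz n ≤ Dq := by
      rw [← Real.log_le_log_iff hzpos hDqpos, hDqlog, hlz]
      nlinarith
    obtain ⟨hup, -⟩ := hjr (Pg n w.W H a) hPg (zz n) Dq hzn hzD
      ((Sh n h).filter (fun p => q ∣ tv a h p)) (wh w H a p1 h)
      (fun p => tv a h p) (Xh w H n a p1 h * gq q) (by
        apply mul_nonneg hX
        unfold gq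
        have h3 := (hPg q hq'.2).2
        have h3' : (3 : ℝ) ≤ q := by exact_mod_cast h3
        apply div_nonneg zero_le_one
        linarith) (fun p hp => hwn p (mem_filter.mp hp).1)
    have hup := hup h3z
    have hDQ : Dq * (Q0 : ℝ) = (Lv n θ : ℝ) / q := by
      rw [hDq]
      field_simp
    rw [hDQ] at hup
    refine hup.trans (le_of_eq ?_)
    rw [← hDq]
    have hDlog0 : Real.log Dq ≠ 0 := by
      have : 0 < Real.log Dq := by
        rw [hDqlog]
        nlinarith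
      exact this.ne'
    unfold Vz
    congr 1
    field_simp
  unfold S2s
  calc ∑ q ∈ Qc n w.W H a, sift ((Sh n h).filter (fun p => q ∣ tv a h p))
        (wh w H a p1 h) (fun p => tv a h p) (Pg n w.W H a) (zz n)
      ≤ ∑ q ∈ Qc n w.W H a, (Xh w H n a p1 h * Vz n w.W H a * (AA * (gq q * (Real.log (zz n) /
        Real.log ((Lv n θ : ℝ) / q / Q0))) + ε / 8 * gq q) +
      remd ((Sh n h).filter (fun p => q ∣ tv a h p)) (wh w H a p1 h)
        (fun p => tv a h p) (Pg n w.W H a) (zz n) (Xh w H n a p1 h * gq q)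
        ((Lv n θ : ℝ) / q)) :=
        sum_le_sum hone
    _ = Xh w H n a p1 h * Vz n w.W H a * (AA * ∑ q ∈ Qc n w.W H a, gq q * (Real.log (zz n) /
        Real.log ((Lv n θ : ℝ) / q / Q0)) + ε / 8 * ∑ q ∈ Qc n w.W H a, gq q) +
        ∑ q ∈ Qc n w.W H a, remd ((Sh n h).filter (fun p => q ∣ tv a h p)) (wh w H a p1 h)
        (fun p => tv a h p) (Pg n w.W H a) (zz n) (Xh w H n a p1 h * gq q)
        ((Lv n θ : ℝ) / q) := by
        rw [sum_add_distrib, ← mul_sum, sum_add_distrib, ← mul_sum, ← mul_sum]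
    _ ≤ Xh w H n a p1 h * Vz n w.W H a * (AA * (1 / 4 * Real.log 6 + ε / (4 * AA)) + ε / 8 * 2) +
        n / Real.log n ^ 10 := by
        apply add_le_add _ hr
        apply mul_le_mul_of_nonneg_left _ hVX
        have hgq : ∀ q ∈ PR (zz n) (yy n), 0 ≤ gq q := by
          intro q hq
          have h2 := (mem_PR.mp hq).1.two_le
          have h2' : (2 : ℝ) ≤ q := by exact_mod_cast h2
          unfold gq
          apply div_nonneg zero_le_one
          linarith
        have hsub : Qc n w.W H a ⊆ PR (zz n) (yy n) := by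
          unfold Qc
          exact filter_subset _ _
        apply add_le_add
        · apply mul_le_mul_of_nonneg_left _ hAA.le
          refine le_trans (sum_le_sum_of_subset_of_nonneg hsub ?_) hps
          intro q hq _
          apply mul_nonneg (hgq q hq)
          apply div_nonneg hlz0.le
          obtain ⟨hqp, hq1, hq2⟩ := mem_PR.mp hq
          have hqpos : (0 : ℝ) < q := by linarith
          rw [show (Lv n θ : ℝ) / q / Q0 = (Lv n θ : ℝ) / Q0 / q by ring,
            Real.log_div hDp.ne' hqpos.ne']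
          have hyy : Real.log (yy n) = 1 / 3 * (Real.log 2 + Real.log n) := by
            unfold yy
            rw [Real.log_rpow (by linarith), Real.log_mul (by norm_num) (by linarith)]
          have hlq2 : Real.log q ≤ 1 / 3 * (Real.log 2 + Real.log n) := by
            rw [← hyy]
            exact Real.log_le_log hqpos hq2.le
          have hlog2 : Real.log 2 ≤ 1 := by
            have := Real.log_two_lt_d9
            linarith
          nlinarith
        · apply mul_le_mul_of_nonneg_left _ (by linarith)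
          exact le_trans (sum_le_sum_of_subset_of_nonneg hsub fun q hq _ => hgq q hq) hps2
    _ ≤ Xh w H n a p1 h * Vz n w.W H a * (AA * (1 / 4 * Real.log 6 + ε / (4 * AA)) + ε / 8 * 2) +
        ε / 4 * (Xh w H n a p1 h * Vz n w.W H a) := by
        linarith
    _ = Xh w H n a p1 h * Vz n w.W H a * (AA / 4 * Real.log 6 + 3 / 4 * ε) := by
        field_simp
        ring
    _ ≤ Xh w H n a p1 h * Vz n w.W H a * (AA / 4 * Real.log 6 + ε) := by
        apply mul_le_mul_of_nonneg_left _ hVX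
        linarith

end Pool.Agent.Lib.H57T
end
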