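import Pool.Agent.Lib.H1M.RV.M025
import Pool.Agent.Lib.H1M.RV.M041
import Pool.Agent.Lib.H1M.RV.M042
import Pool.Agent.Lib.H1M.RV.M048
import Pool.Agent.Lib.H1M.RV.M052

/-! Merged copies (to shorten the build) of Lib.H51D.DHC, Lib.H18Q.E2, Lib.H18Q.E6. -/

-- from Lib.H51D.DHC
section

/-!
# Chunk DHC: sums of `λ`
-/

open Finset

namespace Pool.Agent.Lib.H68T





/-- Partial summation from `hyperbola` (`H68X/XRH.lean`): with `M(u) = ∑_{n ≤ u} λ(n)`,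
`|M(u) - u L(1)| ≤ 4 r √u` (take real parts or norms; `lam_cast`),
`∑_{y < n ≤ N} λ(n)/n = M(N)/N - M(y)/(y+1) + ∑_{y < n < N} M(n)/(n(n+1))
≤ ‖L(1)‖ + 4r/√N + ‖L(1)‖ ∑_{y<n<N} 1/(n+1) + 4 r ∑_{n > y} n^(-3/2)`. -/
theorem lam_tail (r : ℕ) [NeZero r] (ψ : DirichletCharacter ℂ r) (hψ : ψ ≠ 1) (h2 : ψ ^ 2 = 1)
    (y N : ℕ) (hy : 1 ≤ y) (hyN : y ≤ N) :
    ∑ n ∈ Ioc y N, lam ψ n / n ≤
      ‖ψ.LFunction 1‖ * (2 + Real.log N) + 20 * r / Real.sqrt y := by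
  have hr : (0 : ℝ) ≤ r := Nat.cast_nonneg _
  have hL : 0 ≤ ‖ψ.LFunction 1‖ := norm_nonneg _
  set M : ℕ → ℝ := fun u => ∑ n ∈ Icc 1 u, lam ψ n with hM
  have hM0 : ∀ u, 0 ≤ M u := fun u => sum_nonneg fun n _ => lam_nonneg r ψ h2 n
  have hMs : ∀ u, M (u + 1) = M u + lam ψ (u + 1) := by
    intro u
    simp only [hM]
    rw [sum_Icc_succ_top (by omega)]
  have hMb : ∀ u, M u ≤ u * ‖ψ.LFunction 1‖ + 4 * r * Real.sqrt u := by
    intro u
    have h1 := hyperbola r ψ hψ u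
    have h3 : (∑ m ∈ Icc 1 u, ∑ d ∈ m.divisors, ψ (d : ZMod r)) = ((M u : ℝ) : ℂ) := by
      simp only [hM]
      push_cast
      exact sum_congr rfl fun m _ => (lam_cast r ψ h2 m).symm
    rw [h3] at h1
    have h4 : M u ≤ ‖((M u : ℝ) : ℂ)‖ := by
      rw [Complex.norm_real]
      exact Real.le_norm_self _
    have h5 : ‖((M u : ℝ) : ℂ)‖ ≤ ‖((M u : ℝ) : ℂ) - u * ψ.LFunction 1‖ +
        ‖(u : ℂ) * ψ.LFunction 1‖ := by
      have := norm_add_le (((M u : ℝ) : ℂ) - u * ψ.LFunction 1) ((u : ℂ) * ψ.LFunction 1)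
      rwa [sub_add_cancel] at this
    rw [norm_mul, Complex.norm_natCast] at h5
    linarith
  -- summation by parts
  have hab : ∀ K, y ≤ K → ∑ n ∈ Ioc y K, lam ψ n / n =
      M K / (K + 1) - M y / (y + 1) + ∑ n ∈ Ioc y K, M n / (n * (n + 1)) := by
    intro K hK
    induction K, hK using Nat.le_induction with
    | base => simp
    | succ K hK ih =>
      rw [sum_Ioc_succ_top (by omega), sum_Ioc_succ_top (by omega), ih, hMs K]
      have h1 : (0 : ℝ) < K + 1 := by positivity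
      have h2 : (0 : ℝ) < (K : ℝ) + 1 + 1 := by positivity
      push_cast
      field_simp
      ring
  have hsum : ∀ K, y ≤ K → ∑ n ∈ Ioc y K, M n / (n * (n + 1)) ≤
      ‖ψ.LFunction 1‖ * (Real.log (K + 1) - Real.log (y + 1)) +
        8 * r * (1 / Real.sqrt (y + 1) - 1 / Real.sqrt (K + 1)) := by
    intro K hK
    induction K, hK using Nat.le_induction with
    | base => simp
    | succ K hK ih =>
      rw [sum_Ioc_succ_top (by omega)]
      have hK1 : (0 : ℝ) < (K : ℝ) + 1 := by positivity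
      have hK2 : (0 : ℝ) < (K : ℝ) + 1 + 1 := by positivity
      have h1 := hMb (K + 1)
      have h2 : M (K + 1) / (((K + 1 : ℕ) : ℝ) * (((K + 1 : ℕ) : ℝ) + 1)) ≤
          ‖ψ.LFunction 1‖ * (1 / ((K : ℝ) + 1 + 1)) +
            4 * r * (1 / (Real.sqrt (K + 1) * ((K : ℝ) + 1 + 1))) := by
        rw [div_le_iff₀ (by positivity)]
        refine h1.trans (le_of_eq ?_)
        push_cast
        have h3 : 0 < Real.sqrt ((K : ℝ) + 1) := Real.sqrt_pos.2 hK1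
        have h4 : Real.sqrt ((K : ℝ) + 1) * Real.sqrt ((K : ℝ) + 1) = (K : ℝ) + 1 :=
          Real.mul_self_sqrt hK1.le
        field_simp
        linear_combination (4 * (r : ℝ)) * h4
      have h3 : 1 / ((K : ℝ) + 1 + 1) ≤ Real.log (K + 1 + 1) - Real.log (K + 1) := by
        have h4 := Real.one_sub_inv_le_log_of_pos (x := ((K : ℝ) + 1 + 1) / (K + 1)) (by positivity)
        rw [Real.log_div hK2.ne' hK1.ne'] at h4
        refine le_trans (le_of_eq ?_) h4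
        rw [inv_div]
        field_simp
        ring
      have h5 : 1 / (Real.sqrt ((K : ℝ) + 1) * ((K : ℝ) + 1 + 1)) ≤
          2 * (1 / Real.sqrt ((K : ℝ) + 1) - 1 / Real.sqrt ((K : ℝ) + 1 + 1)) := by
        have ha : 0 < Real.sqrt ((K : ℝ) + 1) := Real.sqrt_pos.2 hK1
        have hb : 0 < Real.sqrt ((K : ℝ) + 1 + 1) := Real.sqrt_pos.2 hK2
        have hab : Real.sqrt ((K : ℝ) + 1) ≤ Real.sqrt ((K : ℝ) + 1 + 1) :=
          Real.sqrt_le_sqrt (by linarith)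
        have ha2 : Real.sqrt ((K : ℝ) + 1) ^ 2 = (K : ℝ) + 1 := Real.sq_sqrt hK1.le
        have hb2 : Real.sqrt ((K : ℝ) + 1 + 1) ^ 2 = (K : ℝ) + 1 + 1 := Real.sq_sqrt hK2.le
        set a := Real.sqrt ((K : ℝ) + 1) with ha'
        set b := Real.sqrt ((K : ℝ) + 1 + 1) with hb'
        have h6 : 2 * (1 / a - 1 / b) = 2 * (b - a) / (a * b) := by
          field_simp
        rw [h6, ← hb2, div_le_div_iff₀ (by positivity) (by positivity)]
        have h7 : (b - a) * (b + a) = 1 := by nlinarith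
        have h8 : 1 ≤ 2 * (b - a) * b := by nlinarith
        have h9 : 0 < a * b := by positivity
        nlinarith [mul_le_mul_of_nonneg_left h8 h9.le]
      have h10 : (((K + 1 : ℕ) : ℝ)) = (K : ℝ) + 1 := by push_cast; ring
      rw [h10] at h2 ⊢
      have h11 := mul_le_mul_of_nonneg_left h3 hL
      have h12 := mul_le_mul_of_nonneg_left h5 (by positivity : (0 : ℝ) ≤ 4 * r)
      linarith
  rw [hab N hyN]
  have hN1 : 1 ≤ N := hy.trans hyN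
  have hN0 : (1 : ℝ) ≤ N := by exact_mod_cast hN1
  have hy0 : (1 : ℝ) ≤ y := by exact_mod_cast hy
  have hyN' : (y : ℝ) ≤ N := by exact_mod_cast hyN
  have hsy : 0 < Real.sqrt (y : ℝ) := Real.sqrt_pos.2 (by linarith)
  have hsN : 0 < Real.sqrt (N : ℝ) := Real.sqrt_pos.2 (by linarith)
  have hsyN : Real.sqrt (y : ℝ) ≤ Real.sqrt N := Real.sqrt_le_sqrt hyN'
  have k1 := hsum N hyN
  have k2 : M N / (N + 1) ≤ ‖ψ.LFunction 1‖ + 4 * r * (1 / Real.sqrt y) := by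
    rw [div_le_iff₀ (by positivity)]
    refine (hMb N).trans ?_
    have h3 : Real.sqrt N ≤ 1 / Real.sqrt y * (N + 1) := by
      rw [one_div, inv_mul_eq_div, le_div_iff₀ hsy]
      have h4 : Real.sqrt (N : ℝ) * Real.sqrt N = N := Real.mul_self_sqrt (by positivity)
      nlinarith
    have h5 := mul_le_mul_of_nonneg_left h3 (by positivity : (0 : ℝ) ≤ 4 * r)
    nlinarith
  have k3 : 0 ≤ M y / (y + 1) := div_nonneg (hM0 y) (by positivity)
  have k4 : Real.log (N + 1) - Real.log (y + 1) ≤ Real.log N := by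
    have h3 : Real.log (N + 1) ≤ Real.log (N * (y + 1)) :=
      Real.log_le_log (by positivity) (by nlinarith)
    rw [Real.log_mul (by positivity) (by positivity)] at h3
    linarith
  have k5 : 1 / Real.sqrt ((y : ℝ) + 1) - 1 / Real.sqrt ((N : ℝ) + 1) ≤ 1 / Real.sqrt y := by
    have h3 : 0 ≤ 1 / Real.sqrt ((N : ℝ) + 1) := by positivity
    have h4 : 1 / Real.sqrt ((y : ℝ) + 1) ≤ 1 / Real.sqrt y :=
      one_div_le_one_div_of_le hsy (Real.sqrt_le_sqrt (by linarith))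
    linarith
  have k6 := mul_le_mul_of_nonneg_left k4 hL
  have k7 := mul_le_mul_of_nonneg_left k5 (by positivity : (0 : ℝ) ≤ 8 * r)
  have k8 : 20 * (r : ℝ) / Real.sqrt y = 20 * r * (1 / Real.sqrt y) := by ring
  have k9 : 0 ≤ (r : ℝ) * (1 / Real.sqrt y) := by positivity
  rw [k8]
  nlinarith


end Pool.Agent.Lib.H68T
end

-- from Lib.H18Q.E2
section

/-!
# Project H18Q, chunk E2: few primes with `ψ(p) = 1`
-/

open Finset

namespace Pool.Agent.Lib.H18Q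

open Pool.Agent.Lib.H68T

/-- `(∑_{m ≤ x} λ(m)/m) (∑_{x < p ≤ y, ψ(p) = 1} 2/p) ≤ ∑_{x < n ≤ x y} λ(n)/n`.

Proof. For `m ≤ x < p`, `p` prime, `ψ(p) = 1`: `p ∤ m`, `λ(m p) = 2 λ(m)` (`λ` is multiplicative;
directly: the divisors of `m p` are `d`, `p d` for `d ∣ m`, and `ψ(p d) = ψ(d)`), `x < m p ≤ x y`,
and `(m, p) ↦ m p` is injective (`m p = m' p'`, `p ≠ p'` gives `p ∣ m' ≤ x < p`). `λ ≥ 0`
(`XRP_nonneg`, or `lam` lemmas in `H51D`). -/
theorem E2_product (r : ℕ) [NeZero r] (ψ : DirichletCharacter ℂ r) (h2 : ψ ^ 2 = 1) (x y : ℕ)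
    (hx : 1 ≤ x) :
    (∑ m ∈ Icc 1 x, lam ψ m / m) *
      (∑ p ∈ (Ioc x y).filter (fun p : ℕ => p.Prime ∧ ψ (p : ZMod r) = 1), 2 / (p : ℝ)) ≤
      ∑ n ∈ Ioc x (x * y), lam ψ n / n := by
  classical
  set P := (Ioc x y).filter (fun p : ℕ => p.Prime ∧ ψ (p : ZMod r) = 1) with hP
  have hPm : ∀ p ∈ P, x < p ∧ p ≤ y ∧ p.Prime ∧ ψ (p : ZMod r) = 1 := by
    intro p hp
    rw [hP, mem_filter, mem_Ioc] at hp
    exact ⟨hp.1.1, hp.1.2, hp.2.1, hp.2.2⟩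
  have hval : ∀ q ∈ Icc 1 x ×ˢ P, lam ψ q.1 / q.1 * (2 / (q.2 : ℝ)) = lam ψ (q.1 * q.2) / ((q.1 * q.2 : ℕ) : ℝ) := by
    rintro ⟨m, p⟩ hq
    rw [mem_product, mem_Icc] at hq
    obtain ⟨h1, h3, h4, h5⟩ := hPm p hq.2
    have hm1 := hq.1.1
    have hm2 := hq.1.2
    simp only at h1 h3 h4 h5 hm1 hm2 ⊢
    have hcop : m.Coprime p := by
      rw [Nat.coprime_comm, Nat.Prime.coprime_iff_not_dvd h4]
      intro hd
      have := Nat.le_of_dvd (by omega) hd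
      omega
    have hlp : lam ψ p = 2 := by
      have := dha_lam_pp r ψ h2 p 1 h4
      rw [pow_one, sum_range_succ, sum_range_one, h5] at this
      rw [this]
      norm_num
    have hmul : lam ψ (m * p) = lam ψ m * 2 := by
      rw [dha_lam ψ (m * p), (dha_lam_mult r ψ h2).map_mul_of_coprime hcop, ← dha_lam, ← dha_lam, hlp]
    rw [hmul]
    push_cast
    rw [mul_comm (m : ℝ) (p : ℝ)]
    have hm0 : (m : ℝ) ≠ 0 := by exact_mod_cast (by omega : m ≠ 0)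
    have hp0 : (p : ℝ) ≠ 0 := by exact_mod_cast h4.ne_zero
    field_simp
  have hinj : Set.InjOn (fun q : ℕ × ℕ => q.1 * q.2) (Icc 1 x ×ˢ P : Finset (ℕ × ℕ)) := by
    rintro ⟨m, p⟩ hq ⟨m', p'⟩ hq' h
    rw [mem_coe, mem_product, mem_Icc] at hq hq'
    obtain ⟨h1, h3, h4, h5⟩ := hPm p hq.2
    obtain ⟨h1', h3', h4', h5'⟩ := hPm p' hq'.2
    simp only at h h1 h1' hq hq' h4 h4'
    have hpp : p = p' := by
      have hd : p ∣ m' * p' := ⟨m, by rw [← h]; ring⟩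
      rcases h4.dvd_mul.1 hd with h6 | h6
      · have := Nat.le_of_dvd (by omega) h6
        omega
      · exact (Nat.prime_dvd_prime_iff_eq h4 h4').1 h6
    subst hpp
    have := Nat.eq_of_mul_eq_mul_right h4.pos h
    rw [this]
  rw [sum_mul_sum, ← sum_product', sum_congr rfl hval]
  have himg : ∑ q ∈ Icc 1 x ×ˢ P, lam ψ (q.1 * q.2) / ((q.1 * q.2 : ℕ) : ℝ) =
      ∑ n ∈ (Icc 1 x ×ˢ P).image (fun q : ℕ × ℕ => q.1 * q.2), lam ψ n / (n : ℝ) :=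
    (sum_image (f := fun n : ℕ => lam ψ n / (n : ℝ)) hinj).symm
  rw [himg]
  refine sum_le_sum_of_subset_of_nonneg ?_ fun n _ _ => div_nonneg (lam_nonneg r ψ h2 n) (Nat.cast_nonneg _)
  intro n hn
  rw [mem_image] at hn
  obtain ⟨⟨m, p⟩, hq, rfl⟩ := hn
  rw [mem_product, mem_Icc] at hq
  obtain ⟨h1, h3, h4, h5⟩ := hPm p hq.2
  simp only at h1 h3 hq ⊢
  rw [mem_Ioc]
  exact ⟨lt_of_lt_of_le h1 (Nat.le_mul_of_pos_left p (by omega)), Nat.mul_le_mul hq.1.2 h3⟩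

/-- **Few primes with `ψ(p) = 1`.** Let `β` be a real zero of `L(s, ψ)`, `3/4 ≤ β < 1`,
`η = 1 - β`, `(4000 r)² ≤ x ≤ y`. Then
`∑_{x < p ≤ y, ψ(p) = 1} 1/p ≤ η (2 + log (x y)) + 10 r/√x`.

Proof. `A = ∑_{m ≤ x} λ(m)/m ≥ 1` (term `m = 1`, `λ ≥ 0`), and `m^(-1) = m^(-β) m^(-η) ≥ m^(-β)
x^(-η)`, so by `E1_lower` `A ≥ x^(-η) ∑ λ(m) m^(-β) ≥ ‖L(1)‖/η - 2000 r x^(-1/2) ≥ ‖L(1)‖/η - 1/2`;
hence `A ≥ (2/3) ‖L(1)‖/η` (if `‖L(1)‖/η ≤ 3/2` from `A ≥ 1`, else from `t - 1/2 ≥ 2 t/3`). By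
`E2_product` and `lam_tail` (`H51D/DHC`; `y N` there is `x`, `x y`):
`2 A ∑ 1/p ≤ ‖L(1)‖ (2 + log (x y)) + 20 r/√x`. Divide by `2 A ≥ 2`, `2 A ≥ (4/3) ‖L(1)‖/η`. -/
theorem E2_primes (r : ℕ) [NeZero r] (ψ : DirichletCharacter ℂ r) (hψ : ψ ≠ 1) (h2 : ψ ^ 2 = 1)
    (β : ℝ) (hβ : 3 / 4 ≤ β) (hβ1 : β < 1) (h0 : ψ.LFunction (β : ℂ) = 0) (x y : ℕ)
    (hx : (4000 * r) ^ 2 ≤ x) (hxy : x ≤ y) :
    ∑ p ∈ (Ioc x y).filter (fun p : ℕ => p.Prime ∧ ψ (p : ZMod r) = 1), 1 / (p : ℝ) ≤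
      (1 - β) * (2 + Real.log (x * y : ℕ)) + 10 * r / Real.sqrt x := by
  have hr1 : (1 : ℝ) ≤ r := by exact_mod_cast Nat.one_le_iff_ne_zero.2 (NeZero.ne r)
  have hrn : 1 ≤ r := Nat.one_le_iff_ne_zero.2 (NeZero.ne r)
  have hx1 : 1 ≤ x := le_trans (Nat.one_le_pow _ _ (by omega)) hx
  have hxR : (0 : ℝ) < x := by exact_mod_cast hx1
  have hη : 0 < 1 - β := by linarith
  obtain ⟨η, hηd⟩ : ∃ η, η = 1 - β := ⟨_, rfl⟩
  obtain ⟨L1, hL1⟩ : ∃ L1, L1 = ‖ψ.LFunction 1‖ := ⟨_, rfl⟩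
  have hL0 : 0 ≤ L1 := by rw [hL1]; exact norm_nonneg _
  obtain ⟨A, hA⟩ : ∃ A, A = ∑ m ∈ Icc 1 x, lam ψ m / m := ⟨_, rfl⟩
  obtain ⟨S, hS⟩ : ∃ S, S = ∑ p ∈ (Ioc x y).filter (fun p : ℕ => p.Prime ∧ ψ (p : ZMod r) = 1), 1 / (p : ℝ) := ⟨_, rfl⟩
  have hS0 : 0 ≤ S := by
    rw [hS]
    exact sum_nonneg fun p _ => by positivity
  have h1 := E2_product r ψ h2 x y hx1
  have h2S : ∑ p ∈ (Ioc x y).filter (fun p : ℕ => p.Prime ∧ ψ (p : ZMod r) = 1), 2 / (p : ℝ) = 2 * S := by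
    rw [hS, mul_sum]
    exact sum_congr rfl fun p _ => by ring
  rw [h2S, ← hA] at h1
  have hxy1 : x ≤ x * y := Nat.le_mul_of_pos_right x (by omega)
  have h3 := lam_tail r ψ hψ h2 x (x * y) hx1 hxy1
  rw [← hL1] at h3
  have hA1 : 1 ≤ A := by
    have h4 : lam ψ 1 / ((1 : ℕ) : ℝ) ≤ A := by
      rw [hA]
      exact single_le_sum (f := fun m : ℕ => lam ψ m / (m : ℝ)) (fun m _ => div_nonneg (lam_nonneg r ψ h2 m) (Nat.cast_nonneg _))
        (mem_Icc.2 ⟨le_rfl, hx1⟩)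
    have h5 : lam ψ 1 = 1 := by
      unfold lam
      simp
    rw [h5] at h4
    simpa using h4
  have hsq : 4000 * (r : ℝ) ≤ Real.sqrt x := by
    apply Real.le_sqrt_of_sq_le
    exact_mod_cast hx
  have hAl : L1 / η - 1 / 2 ≤ A := by
    have h4 := E1_lower r ψ hψ h2 β hβ hβ1 h0 x hx1
    rw [← hL1, ← hηd] at h4
    have h5 : (x : ℝ) ^ (-η) * ∑ m ∈ Icc 1 x, lam ψ m * (m : ℝ) ^ (-β) ≤ A := by
      rw [hA, mul_sum]
      refine sum_le_sum fun m hm => ?_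
      rw [mem_Icc] at hm
      have hm0 : (0 : ℝ) < m := by exact_mod_cast (by omega : 0 < m)
      have hmx : (m : ℝ) ≤ x := by exact_mod_cast hm.2
      have h6 : (x : ℝ) ^ (-η) ≤ (m : ℝ) ^ (-η) :=
        Real.rpow_le_rpow_of_nonpos hm0 hmx (by rw [hηd]; linarith)
      have h7 : (m : ℝ) ^ (-η) * (m : ℝ) ^ (-β) = 1 / m := by
        rw [← Real.rpow_add hm0, hηd]
        have : -(1 - β) + -β = -1 := by ring
        rw [this, Real.rpow_neg_one, one_div]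
      calc (x : ℝ) ^ (-η) * (lam ψ m * (m : ℝ) ^ (-β)) ≤ (m : ℝ) ^ (-η) * (lam ψ m * (m : ℝ) ^ (-β)) :=
            mul_le_mul_of_nonneg_right h6 (mul_nonneg (lam_nonneg r ψ h2 m) (Real.rpow_nonneg hm0.le _))
        _ = lam ψ m * ((m : ℝ) ^ (-η) * (m : ℝ) ^ (-β)) := by ring
        _ = lam ψ m / m := by rw [h7]; ring
    have h6 := mul_le_mul_of_nonneg_left h4 (Real.rpow_nonneg hxR.le (-η))
    have h7 : (x : ℝ) ^ (-η) * (L1 * (x : ℝ) ^ η / η - 2000 * r * (x : ℝ) ^ (1 / 2 - β)) =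
        L1 / η - 2000 * r / Real.sqrt x := by
      have e1 : (x : ℝ) ^ (-η) * (x : ℝ) ^ η = 1 := by
        rw [← Real.rpow_add hxR, neg_add_cancel, Real.rpow_zero]
      have e2 : (x : ℝ) ^ (-η) * (x : ℝ) ^ (1 / 2 - β) = 1 / Real.sqrt x := by
        rw [← Real.rpow_add hxR, Real.sqrt_eq_rpow, one_div ((x : ℝ) ^ (1 / 2 : ℝ)), ← Real.rpow_neg hxR.le, hηd]
        congr 1
        ring
      calc (x : ℝ) ^ (-η) * (L1 * (x : ℝ) ^ η / η - 2000 * r * (x : ℝ) ^ (1 / 2 - β)) =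
          L1 * ((x : ℝ) ^ (-η) * (x : ℝ) ^ η) / η - 2000 * r * ((x : ℝ) ^ (-η) * (x : ℝ) ^ (1 / 2 - β)) := by ring
        _ = _ := by rw [e1, e2]; ring
    rw [h7] at h6
    have h8 : 2000 * r / Real.sqrt x ≤ 1 / 2 := by
      rw [div_le_iff₀ (by linarith)]
      linarith
    linarith
  have hη' : 0 < η := by rw [hηd]; exact hη
  have hLA : L1 ≤ 3 / 2 * η * A := by
    have h5 : L1 = L1 / η * η := by field_simp
    by_cases h6 : L1 / η ≤ 3 / 2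
    · rw [h5]
      nlinarith
    · push Not at h6
      rw [h5]
      nlinarith
  obtain ⟨l, hl⟩ : ∃ l, l = Real.log ((x * y : ℕ) : ℝ) := ⟨_, rfl⟩
  rw [← hl] at h3 ⊢
  rw [← hS, ← hηd]
  have hl0 : 0 ≤ l := by
    rw [hl]
    exact Real.log_natCast_nonneg _
  obtain ⟨z, hz⟩ : ∃ z, z = r / Real.sqrt x := ⟨_, rfl⟩
  have hz0 : 0 ≤ z := by
    rw [hz]
    positivity
  have e20 : 20 * r / Real.sqrt x = 20 * z := by rw [hz]; ring
  have e10 : 10 * r / Real.sqrt x = 10 * z := by rw [hz]; ring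
  rw [e20] at h3
  rw [e10]
  have h9 : A * (2 * S) ≤ 3 / 2 * η * A * (2 + l) + 20 * z :=
    (h1.trans h3).trans (add_le_add (mul_le_mul_of_nonneg_right hLA (by linarith)) le_rfl)
  have hA0 : 0 < A := by linarith
  by_contra hcon
  push Not at hcon
  have h10 : A * (2 * (η * (2 + l) + 10 * z)) < A * (2 * S) := by
    apply mul_lt_mul_of_pos_left _ hA0
    linarith
  have h11 : 20 * z ≤ A * (20 * z) := le_mul_of_one_le_left (by positivity) hA1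
  have h12 : 0 ≤ η * A * (2 + l) := by positivity
  nlinarith

end Pool.Agent.Lib.H18Q
end

-- from Lib.H18Q.E6
section

/-!
# Project H18Q, chunk E6: the detecting sum is small
-/

open Finset

namespace Pool.Agent.Lib.H18Q

open ArithmeticFunction Pool.Agent.Lib.H68T

/-- `|PP(c_E)| ≤ C K1 η log Q`, `η = 1 - β`, for `C3 κ ≤ K1 ≤ 2 C3 κ`.

Proof. Let `lam = κ/log Q`, `x = xlo K1 lam`, `y = yhi K1 lam`; `log x = (K1 - 1) log Q/(2^20 κ) ≥
100 log Q` if `C3 ≥ 2^28`, so `x ≥ Q^100`, all primes `n ∈ PI x y` are `> Q ≥ r` and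
`ψ(n) = ±1`. `|PP| ≤ ∑ log n Jk(n) |1 + ψ(n) n^(-η)|`. If `ψ(n) = -1`:
`1 - n^(-η) ≤ η log n ≤ η log y = 128 η K1/lam`, and `∑ log n Jk(n) ≤ C` (`Jk_sum`, `Λ n = log n`): at
most `C 128 η K1 log Q/κ ≤ C' η log Q` (`K1 ≤ 2 C3 κ`). If `ψ(n) = 1`: factor `≤ 2`,
`log n Jk(n) ≤ lam log y/n = 128 K1/n` (`Jk_le`), and by `E2_primes` (between `X0 = ⌈x⌉ - 1 ≥ Q^99`
and `Y0 = ⌊y⌋`) `∑ 1/n ≤ η (2 + log (X0 Y0)) + 10 r/√X0 ≤ η (2 + 256 K1/lam) + 10 Q^(-48)`, where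
`K1/lam ≤ 2 C3 log Q`, and `10 Q^(-48) ≤ Q^(-3) ≤ η` for `Q` large (`zero_elementary` in
`H68X/XSIE`: `η ≥ c/r² ≥ c/Q²`). Total `≤ 256 K1 (C'' η log Q)`. -/
theorem E6_small (C3 : ℝ) (hC3 : 2 ^ 28 ≤ C3) : ∃ C K : ℝ, 0 < C ∧ ∀ Q : ℕ, K ≤ Q →
    ∀ (r : ℕ) [NeZero r] (ψ : DirichletCharacter ℂ r), r ≤ Q → ψ ≠ 1 → ψ ^ 2 = 1 → ∀ β : ℝ,
    7 / 8 ≤ β → β < 1 → ψ.LFunction (β : ℂ) = 0 →
    ∀ (p : Σ r : ℕ, DirichletCharacter ℂ r) (κ v : ℝ), 1 ≤ κ →
    κ ≤ th0 * Real.log Q → ∀ K1 k : ℕ, C3 * κ ≤ K1 → (K1 : ℝ) ≤ 2 * C3 * κ →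
    ‖PP (cE r ψ β p) (κ / Real.log Q) k K1 v‖ ≤ C * K1 * ((1 - β) * Real.log Q) := by
  obtain ⟨CJ, hCJ, hJ⟩ := Jk_sum
  obtain ⟨c, hc, hel⟩ := H68T.zero_elementary
  refine ⟨128 * CJ + 256 * (3 + 512 * C3), max 3 (10 / c), by positivity, ?_⟩
  intro Q hQ r _ ψ hrQ hψ hψ2 β hβ hβ1 h0 p κ v hκ hκQ K1 k hK1 hK2
  have hQ3 : (3 : ℝ) ≤ Q := (le_max_left _ _).trans hQ
  have hQc : 10 / c ≤ (Q : ℝ) := (le_max_right _ _).trans hQ
  have hQ3' : 3 ≤ Q := by exact_mod_cast hQ3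
  have hQ0 : (0 : ℝ) < Q := by linarith
  have hlogQ : 1 ≤ Real.log Q := by
    rw [Real.le_log_iff_exp_le hQ0]
    exact (lt_trans Real.exp_one_lt_d9 (by norm_num)).le.trans hQ3
  obtain ⟨Lq, hLq⟩ : ∃ Lq, Lq = Real.log Q := ⟨_, rfl⟩
  rw [← hLq] at hlogQ hκQ ⊢
  have hLq0 : 0 < Lq := by linarith
  obtain ⟨lam, hlam⟩ : ∃ lam, lam = κ / Lq := ⟨_, rfl⟩
  rw [← hlam]
  have hlam0 : 0 < lam := by rw [hlam]; positivity
  have hlamth : lam ≤ th0 := by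
    rw [hlam, div_le_iff₀ hLq0]
    exact hκQ
  have hlam1 : lam ≤ 1 := hlamth.trans (by unfold th0; norm_num)
  have hil : 1 / lam ≤ Lq := by
    rw [hlam, one_div_div]
    exact div_le_self hLq0.le hκ
  obtain ⟨η, hη⟩ : ∃ η, η = 1 - β := ⟨_, rfl⟩
  rw [← hη]
  have hη0 : 0 < η := by rw [hη]; linarith
  have hK1r : 2 ^ 28 ≤ (K1 : ℝ) := hC3.trans ((le_mul_of_one_le_right (by linarith) hκ).trans hK1)
  have hK10 : (0 : ℝ) < K1 := by linarith
  obtain ⟨x, hx⟩ : ∃ x, x = xlo K1 lam := ⟨_, rfl⟩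
  obtain ⟨y, hy⟩ : ∃ y, y = yhi K1 lam := ⟨_, rfl⟩
  obtain ⟨Y, hY⟩ : ∃ Y, Y = 128 * K1 / lam := ⟨_, rfl⟩
  have hY0 : 0 < Y := by rw [hY]; positivity
  have hylog : Real.log y = Y := by rw [hy, yhi, Real.log_exp, hY]
  have hy0 : 0 < y := by rw [hy, yhi]; positivity
  have hx0 : 0 < x := by rw [hx, xlo]; positivity
  -- x is large
  have hlogx : 100 * Lq ≤ Real.log x := by
    rw [hx, xlo, Real.log_exp, le_div_iff₀ (by positivity), hlam]
    have h1 : 100 * Lq * (2 ^ 20 * (κ / Lq)) = 100 * 2 ^ 20 * κ := by field_simp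
    rw [h1]
    have h2 : 2 ^ 28 * κ ≤ K1 := (mul_le_mul_of_nonneg_right hC3 (by linarith)).trans hK1
    linarith only [h2, hκ]
  have hxQ : (Q : ℝ) ^ 100 ≤ x := by
    rw [← Real.log_le_log_iff (by positivity) hx0, Real.log_pow, ← hLq]
    exact_mod_cast hlogx
  have hxy : x ≤ y := by
    rw [hx, hy, xlo, yhi]
    apply Real.exp_le_exp.2
    rw [div_le_div_iff₀ (by positivity) hlam0]
    have h1 : (0 : ℝ) < K1 * lam := by positivity
    linarith only [h1, hlam0]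
  obtain ⟨X0, hX0⟩ : ∃ X0, X0 = ⌈x⌉₊ - 1 := ⟨_, rfl⟩
  obtain ⟨Y0, hY0'⟩ : ∃ Y0, Y0 = ⌊y⌋₊ := ⟨_, rfl⟩
  have hceil : 1 ≤ ⌈x⌉₊ := Nat.one_le_iff_ne_zero.2 (by rw [Ne, Nat.ceil_eq_zero, not_le]; exact hx0)
  have hX0r : x - 1 ≤ X0 := by
    have h1 := Nat.le_ceil x
    have h2 : ((X0 : ℕ) : ℝ) = (⌈x⌉₊ : ℝ) - 1 := by
      rw [hX0, Nat.cast_sub hceil, Nat.cast_one]
    rw [h2]
    linarith
  have hX0x : (X0 : ℝ) ≤ x := by
    have h1 := Nat.ceil_lt_add_one hx0.le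
    have h2 : ((X0 : ℕ) : ℝ) = (⌈x⌉₊ : ℝ) - 1 := by
      rw [hX0, Nat.cast_sub hceil, Nat.cast_one]
    rw [h2]
    linarith
  have hX0Y0 : X0 ≤ Y0 := by
    rw [hY0']
    exact Nat.le_floor (hX0x.trans hxy)
  have hQ99 : (Q : ℝ) ^ 99 ≤ X0 := by
    refine le_trans ?_ hX0r
    have h1 : (Q : ℝ) ^ 100 = Q ^ 99 * Q := pow_succ _ _
    have h2 : (1 : ℝ) ≤ (Q : ℝ) ^ 99 := one_le_pow₀ (by linarith)
    have h3 := mul_le_mul_of_nonneg_left hQ3 (by linarith only [h2] : (0 : ℝ) ≤ (Q : ℝ) ^ 99)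
    linarith only [h1, h2, h3, hxQ]
  have hr1 : (1 : ℝ) ≤ r := by
    have : 0 < r := Nat.pos_of_ne_zero (NeZero.ne r)
    exact_mod_cast this
  have hrQr : (r : ℝ) ≤ Q := by exact_mod_cast hrQ
  have hX0big : (4000 * r) ^ 2 ≤ X0 := by
    have h1 : ((4000 * r) ^ 2 : ℝ) ≤ (Q : ℝ) ^ 99 := by
      have h2 : ((4000 * r) ^ 2 : ℝ) ≤ 16000000 * (Q : ℝ) ^ 2 := by
        have h5 := pow_le_pow_left₀ (by linarith only [hr1] : (0 : ℝ) ≤ r) hrQr 2
        linarith only [h5, mul_pow (4000 : ℝ) r 2]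
      have h3 : (16000000 : ℝ) ≤ (Q : ℝ) ^ 97 :=
        le_trans (by norm_num) (pow_le_pow_left₀ (by norm_num) hQ3 97)
      have h4 : (Q : ℝ) ^ 99 = Q ^ 97 * Q ^ 2 := by rw [← pow_add]
      rw [h4]
      exact h2.trans (mul_le_mul_of_nonneg_right h3 (by positivity))
    exact_mod_cast h1.trans hQ99
  have hE2 := E2_primes r ψ hψ hψ2 β (by linarith) hβ1 h0 X0 Y0 hX0big hX0Y0
  rw [← hη] at hE2
  have hX0pos : (0 : ℝ) < X0 := lt_of_lt_of_le (by positivity) hQ99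
  have hY0pos : (0 : ℝ) < Y0 := lt_of_lt_of_le hX0pos (by exact_mod_cast hX0Y0)
  have hlogXY : Real.log ((X0 * Y0 : ℕ) : ℝ) ≤ 512 * C3 * Lq := by
    rw [Nat.cast_mul, Real.log_mul hX0pos.ne' hY0pos.ne']
    have h1 : Real.log X0 ≤ Y := by
      rw [← hylog]
      exact Real.log_le_log hX0pos (hX0x.trans hxy)
    have h2 : Real.log Y0 ≤ Y := by
      rw [← hylog]
      refine Real.log_le_log hY0pos ?_
      rw [hY0']
      exact Nat.floor_le hy0.le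
    have h3 : Y ≤ 256 * C3 * Lq := by
      rw [hY, hlam]
      have h4 : 128 * (K1 : ℝ) / (κ / Lq) = 128 * K1 * Lq / κ := by field_simp
      rw [h4, div_le_iff₀ (by linarith)]
      have h5 := mul_le_mul_of_nonneg_left hK2 (by positivity : 0 ≤ 128 * Lq)
      linarith only [h5]
    linarith only [h1, h2, h3]
  have hsq : 10 * r / Real.sqrt X0 ≤ η := by
    have h1 : (Q : ℝ) ^ 49 ≤ Real.sqrt X0 := by
      apply Real.le_sqrt_of_sq_le
      refine le_trans ?_ hQ99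
      rw [← pow_mul]
      exact pow_le_pow_right₀ (by linarith) (by norm_num)
    have h2 : 10 * (r : ℝ) / Real.sqrt X0 ≤ 10 * Q / (Q : ℝ) ^ 49 :=
      div_le_div₀ (by positivity) (by linarith) (by positivity) h1
    have h3 : 10 * (Q : ℝ) / (Q : ℝ) ^ 49 ≤ c / (Q : ℝ) ^ 2 := by
      rw [div_le_div_iff₀ (by positivity) (by positivity)]
      have h4 : 10 ≤ c * Q := by
        rw [div_le_iff₀ hc] at hQc
        linarith
      have h5 : (1 : ℝ) ≤ (Q : ℝ) ^ 45 := one_le_pow₀ (by linarith)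
      have h6 : c * (Q : ℝ) ^ 49 = (c * Q) * (Q ^ 45 * Q ^ 3) := by ring
      rw [h6]
      have h7 : 10 * (Q : ℝ) * Q ^ 2 = 10 * (1 * Q ^ 3) := by ring
      rw [h7]
      exact mul_le_mul h4 (mul_le_mul_of_nonneg_right h5 (by positivity)) (by positivity) (by positivity)
    have h4 : c / (Q : ℝ) ^ 2 ≤ c / (r : ℝ) ^ 2 :=
      div_le_div_of_nonneg_left hc.le (by positivity) (pow_le_pow_left₀ (by linarith) hrQr 2)
    have h5 := hel r ψ hψ hψ2 β hβ1 h0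
    rw [← hη] at h5
    linarith
  have hprimes : ∑ n ∈ (Ioc X0 Y0).filter (fun n : ℕ => n.Prime ∧ ψ (n : ZMod r) = 1), 1 / (n : ℝ) ≤
      (3 + 512 * C3) * (η * Lq) := by
    refine hE2.trans ?_
    have h1 : η * (2 + Real.log ((X0 * Y0 : ℕ) : ℝ)) ≤ η * (2 + 512 * C3 * Lq) :=
      mul_le_mul_of_nonneg_left (by linarith) hη0.le
    have h2 : η ≤ η * Lq := le_mul_of_one_le_right hη0.le hlogQ
    linarith only [h1, h2, hsq]
  -- members of the range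
  have hmem : ∀ n ∈ PI x y, n.Prime ∧ X0 < n ∧ n ≤ Y0 := by
    intro n hn
    rw [PI, Finset.mem_filter, Finset.mem_Icc] at hn
    refine ⟨hn.2, by omega, by rw [hY0']; exact hn.1.2⟩
  classical
  have hterm : ∀ n ∈ PI x y, ‖((Real.log n * Jk lam k n : ℝ) : ℂ) * cE r ψ β p n *
      (n : ℂ) ^ (-(v * Complex.I))‖ ≤ Λ n * Jk lam k n * (η * Y) +
        (if ψ (n : ZMod r) = 1 then 256 * K1 * (1 / (n : ℝ)) else 0) := by
    intro n hn
    obtain ⟨hnp, hn1, hn2⟩ := hmem n hn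
    have hnpos : 0 < n := hnp.pos
    have hn0 : (0 : ℝ) < n := by exact_mod_cast hnpos
    have hJn : 0 ≤ Jk lam k n := Jk_nonneg lam k n hlam0.le
    have hlogn : 0 ≤ Real.log n := Real.log_natCast_nonneg n
    have hlogY : Real.log n ≤ Y := by
      rw [← hylog]
      refine Real.log_le_log hn0 ?_
      have h1 : (n : ℝ) ≤ Y0 := by exact_mod_cast hn2
      refine h1.trans ?_
      rw [hY0']
      exact Nat.floor_le hy0.le
    rw [norm_mul, norm_mul, d0_norm n hnpos v, mul_one, Complex.norm_real, Real.norm_eq_abs,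
      abs_of_nonneg (mul_nonneg hlogn hJn), vonMangoldt_apply_prime hnp]
    have hcE : ‖cE r ψ β p n‖ ≤ ‖1 + ψ (n : ZMod r) * (((n : ℝ) ^ (β - 1) : ℝ) : ℂ)‖ := by
      unfold cE
      rw [norm_mul]
      exact mul_le_of_le_one_left (norm_nonneg _) (DirichletCharacter.norm_le_one _ _)
    have hrn : (r : ℝ) < n := by
      have h1 : (X0 : ℝ) < n := by exact_mod_cast hn1
      have h2 : (Q : ℝ) ≤ (Q : ℝ) ^ 99 := le_self_pow₀ (by linarith) (by norm_num)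
      linarith
    have hrn' : r < n := by exact_mod_cast hrn
    have hunit : IsUnit (n : ZMod r) := by
      rw [ZMod.isUnit_iff_coprime]
      refine (Nat.Prime.coprime_iff_not_dvd hnp).2 fun hd => ?_
      exact absurd (Nat.le_of_dvd (Nat.pos_of_ne_zero (NeZero.ne r)) hd) (by omega)
    have hψn : ψ (n : ZMod r) = 1 ∨ ψ (n : ZMod r) = -1 := by
      have h1 : ψ (n : ZMod r) ^ 2 = 1 := by
        rw [← MulChar.pow_apply' ψ two_ne_zero, hψ2, MulChar.one_apply hunit]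
      exact sq_eq_one_iff.1 h1
    have hpow : (n : ℝ) ^ (β - 1) = Real.exp (-(η * Real.log n)) := by
      rw [Real.rpow_def_of_pos hn0, hη]
      congr 1
      ring
    have hpow1 : (n : ℝ) ^ (β - 1) ≤ 1 := by
      rw [hpow]
      exact Real.exp_le_one_iff.2 (neg_nonpos.2 (mul_nonneg hη0.le hlogn))
    have hpow0 : 1 - η * Real.log n ≤ (n : ℝ) ^ (β - 1) := by
      rw [hpow]
      have := Real.add_one_le_exp (-(η * Real.log n))
      linarith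
    have hpow2 : 0 ≤ (n : ℝ) ^ (β - 1) := by positivity
    rcases hψn with h1 | h1
    · rw [if_pos h1]
      have h2 : ‖cE r ψ β p n‖ ≤ 2 := cE_norm r ψ β hβ1 p n
      have h3 := Jk_le lam k n hlam0
      have h4 : 0 ≤ Real.log n * Jk lam k n * (η * Y) := by positivity
      have h5 : Real.log n * Jk lam k n * ‖cE r ψ β p n‖ ≤ 256 * K1 * (1 / (n : ℝ)) := by
        calc Real.log n * Jk lam k n * ‖cE r ψ β p n‖ ≤ Real.log n * Jk lam k n * 2 :=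
              mul_le_mul_of_nonneg_left h2 (by positivity)
          _ ≤ Y * Jk lam k n * 2 :=
              mul_le_mul_of_nonneg_right (mul_le_mul_of_nonneg_right hlogY hJn) (by norm_num)
          _ ≤ Y * (lam / n) * 2 := by
              refine mul_le_mul_of_nonneg_right (mul_le_mul_of_nonneg_left ?_ hY0.le) (by norm_num)
              rw [le_div_iff₀ hn0]
              linarith
          _ = 256 * K1 * (1 / (n : ℝ)) := by
              rw [hY]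
              field_simp
              norm_num
      linarith
    · rw [if_neg (by rw [h1]; norm_num), add_zero, mul_assoc, mul_assoc]
      refine mul_le_mul_of_nonneg_left (mul_le_mul_of_nonneg_left (hcE.trans ?_) hJn) hlogn
      rw [h1]
      have h2 : (1 + -1 * (((n : ℝ) ^ (β - 1) : ℝ) : ℂ)) = ((1 - (n : ℝ) ^ (β - 1) : ℝ) : ℂ) := by
        push_cast
        ring
      rw [h2, Complex.norm_real, Real.norm_eq_abs, abs_of_nonneg (by linarith)]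
      have h3 : η * Real.log n ≤ η * Y := mul_le_mul_of_nonneg_left hlogY hη0.le
      linarith
  have hsum1 : ∑ n ∈ PI x y, Λ n * Jk lam k n * (η * Y) ≤ CJ * (η * Y) := by
    rw [← Finset.sum_mul]
    exact mul_le_mul_of_nonneg_right (hJ lam k _ hlam0 hlam1) (by positivity)
  have hsum2 : ∑ n ∈ PI x y, (if ψ (n : ZMod r) = 1 then 256 * K1 * (1 / (n : ℝ)) else 0) ≤
      256 * K1 * ((3 + 512 * C3) * (η * Lq)) := by
    rw [← Finset.sum_filter, ← Finset.mul_sum]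
    refine mul_le_mul_of_nonneg_left (le_trans ?_ hprimes) (by positivity)
    apply Finset.sum_le_sum_of_subset_of_nonneg
    · intro n hn
      rw [Finset.mem_filter] at hn ⊢
      obtain ⟨h1, h2, h3⟩ := hmem n hn.1
      rw [Finset.mem_Ioc]
      exact ⟨⟨h2, h3⟩, h1, hn.2⟩
    · intro n _ _
      positivity
  have hfin : ‖PP (cE r ψ β p) lam k K1 v‖ ≤ CJ * (η * Y) + 256 * K1 * ((3 + 512 * C3) * (η * Lq)) := by
    unfold PP
    rw [← hx, ← hy]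
    refine (norm_sum_le _ _).trans ((Finset.sum_le_sum hterm).trans ?_)
    rw [Finset.sum_add_distrib]
    linarith
  refine hfin.trans ?_
  have hYL : Y ≤ 128 * K1 * Lq := by
    rw [hY, mul_div_assoc, ← mul_one_div, ← mul_assoc]
    exact mul_le_mul_of_nonneg_left hil (by positivity)
  have h1 : CJ * (η * Y) ≤ CJ * (η * (128 * K1 * Lq)) :=
    mul_le_mul_of_nonneg_left (mul_le_mul_of_nonneg_left hYL hη0.le) hCJ.le
  refine (add_le_add h1 le_rfl).trans (le_of_eq ?_)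
  ring

end Pool.Agent.Lib.H18Q
end
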