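import Pool.Agent.Lib.H1M.RV.M015

/-! Merged copies (to shorten the build) of Lib.H18GB.CHR. -/

-- from Lib.H18GB.CHR
section

/-!
# Project GB: CHR
-/

namespace Pool.Agent.Lib.H18GB

open Finset Pool.Agent.Lib.Sieve
namespace CHRaux

lemma er_mono {C C' A w : ℕ} (hC : 1 ≤ C) (h : C ≤ C') (hw : 1 ≤ w) : er C A w ≤ er C' A w := by
  unfold er
  have h1 : (0:ℝ) < C := by exact_mod_cast hC
  have h2 : (C:ℝ) ≤ C' := by exact_mod_cast h
  have h3 : (1:ℝ) ≤ w := by exact_mod_cast hw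
  have hA : (0:ℝ) ≤ A := Nat.cast_nonneg _
  apply add_le_add
  · apply Real.rpow_le_rpow_of_exponent_le (by norm_num)
    rw [neg_div, neg_div, neg_le_neg_iff]
    exact div_le_div_of_nonneg_left hA h1 h2
  · apply Real.rpow_le_rpow_of_exponent_le h3
    rw [neg_div, neg_div, neg_le_neg_iff]
    exact div_le_div_of_nonneg_left zero_le_one h1 h2

lemma er_sq {C A w : ℕ} (hC : 1 ≤ C) : er C A w ≤ (er (2 * C) A w) ^ 2 := by
  unfold er
  have h1 : (0:ℝ) < C := by exact_mod_cast hC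
  have e1 : (2:ℝ) ^ (-(A:ℝ) / C) = ((2:ℝ) ^ (-(A:ℝ) / ((2 * C : ℕ) : ℝ))) ^ 2 := by
    rw [← Real.rpow_natCast, ← Real.rpow_mul (by norm_num)]
    congr 1
    push_cast
    field_simp
  have e2 : (w:ℝ) ^ (-(1:ℝ) / C) = ((w:ℝ) ^ (-(1:ℝ) / ((2 * C : ℕ) : ℝ))) ^ 2 := by
    rw [← Real.rpow_natCast, ← Real.rpow_mul (Nat.cast_nonneg _)]
    congr 1
    push_cast
    field_simp
  rw [e1, e2]
  have g1 : (0:ℝ) ≤ (2:ℝ) ^ (-(A:ℝ) / ((2 * C : ℕ) : ℝ)) := Real.rpow_nonneg (by norm_num) _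
  have g2 : (0:ℝ) ≤ (w:ℝ) ^ (-(1:ℝ) / ((2 * C : ℕ) : ℝ)) := Real.rpow_nonneg (Nat.cast_nonneg _) _
  nlinarith [mul_nonneg g1 g2]

lemma prod_Icc_inv (y : ℕ) (hy : 1 ≤ y) :
    ∏ n ∈ Finset.Icc 2 y, (1 - 1 / (n : ℝ)) = 1 / y := by
  induction y, hy using Nat.le_induction with
  | base => simp
  | succ k hk ih =>
    rw [Finset.prod_Icc_succ_top (by omega), ih]
    have : (0:ℝ) < k := by exact_mod_cast hk
    push_cast
    field_simp
    ring

lemma VV_ge (w y : ℕ) (hy : 1 ≤ y) : 1 / (y:ℝ) ≤ VV (sprimes w y) := by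
  rw [← prod_Icc_inv y hy]
  unfold VV
  have hsub : sprimes w y ⊆ Finset.Icc 2 y := by
    intro p hp
    obtain ⟨h1, h2, h3⟩ := mem_sprimes.mp hp
    exact Finset.mem_Icc.mpr ⟨h1.two_le, h3⟩
  have hf : ∀ n ∈ Finset.Icc 2 y, 0 ≤ (1 - 1 / (n : ℝ)) ∧ (1 - 1 / (n : ℝ)) ≤ 1 := by
    intro n hn
    have h2 : (2:ℝ) ≤ n := by exact_mod_cast (Finset.mem_Icc.mp hn).1
    constructor
    · rw [sub_nonneg, div_le_one (by linarith)]; linarith
    · have : 0 ≤ 1 / (n:ℝ) := by positivity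
      linarith
  rw [← Finset.prod_sdiff hsub]
  have h1 : ∏ n ∈ Finset.Icc 2 y \ sprimes w y, (1 - 1 / (n : ℝ)) ≤ 1 := by
    apply Finset.prod_le_one
    · intro n hn
      exact (hf n (Finset.mem_sdiff.mp hn).1).1
    · intro n hn
      exact (hf n (Finset.mem_sdiff.mp hn).1).2
  have h2 : 0 ≤ ∏ n ∈ sprimes w y, (1 - 1 / (n : ℝ)) :=
    Finset.prod_nonneg fun n hn => (hf n (hsub hn)).1
  calc _ ≤ 1 * ∏ n ∈ sprimes w y, (1 - 1 / (n : ℝ)) := mul_le_mul_of_nonneg_right h1 h2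
    _ = _ := one_mul _

lemma rgh_prime {w y b : ℕ} (hb : b.Prime) (hyb : y < b) : Rgh (sprimes w y) (b:ℤ) := by
  intro p hp h
  obtain ⟨h1, h2, h3⟩ := mem_sprimes.mp hp
  have := (Nat.prime_dvd_prime_iff_eq h1 hb).mp (Int.natCast_dvd_natCast.mp h)
  omega

lemma rho_of_rgh {S : Finset ℕ} {v : ℤ} (h : Rgh S v) : rho S v = (VV S)⁻¹ := by
  unfold rho
  rw [if_pos h]

/-- the index of `b` -/
def xx (W : ℕ) (b0 : ℤ) (b : ℕ) : ℤ := ((b:ℤ) - b0) / W

section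
variable {w W y B M : ℕ} {r b0 : ℤ} {P : Finset ℕ} {H : Finset ℤ}

lemma xx_eq (hc : Cfg w W y B M r b0 P H) {b : ℕ} (hb : b ∈ P) :
    (W:ℤ) * xx W b0 b + b0 = b := by
  have h := (hc.hP b hb).2.2.2
  unfold xx
  rw [Int.mul_ediv_cancel' h]
  ring

lemma xx_mem (hc : Cfg w W y B M r b0 P H) {b : ℕ} (hb : b ∈ P) :
    xx W b0 b ∈ Finset.Ico (((B / W : ℕ) : ℤ) - 1) (((B / W : ℕ) : ℤ) - 1 + ((B / W + 3 : ℕ) : ℤ)) := by
  obtain ⟨_, h1, h2, h3⟩ := hc.hP b hb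
  obtain ⟨g1, g2⟩ := hc.hb0
  have hW : (0:ℤ) < W := by exact_mod_cast hc.isW.1
  have he := xx_eq hc hb
  have h1' : (B:ℤ) ≤ b := by exact_mod_cast h1
  have h2' : (b:ℤ) ≤ 2 * B := by exact_mod_cast h2
  set q : ℤ := ((B / W : ℕ) : ℤ) with hq
  have hq1 : (W:ℤ) * q ≤ B := by
    rw [hq]; exact_mod_cast Nat.mul_div_le B W
  have hq2 : (B:ℤ) < W * (q + 1) := by
    rw [hq]; exact_mod_cast Nat.lt_mul_div_succ B (by exact_mod_cast hc.isW.1)
  rw [Finset.mem_Ico]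
  constructor
  · by_contra hcon
    push Not at hcon
    have : xx W b0 b ≤ q - 2 := by omega
    nlinarith
  · by_contra hcon
    push Not at hcon
    push_cast at hcon
    have : 2 * q + 2 ≤ xx W b0 b := by
      have : ((B / W : ℕ) : ℤ) = q := hq.symm
      omega
    nlinarith

lemma xx_inj (hc : Cfg w W y B M r b0 P H) : Set.InjOn (xx W b0) P := by
  intro a ha b hb hab
  have h1 := xx_eq hc ha
  have h2 := xx_eq hc hb
  rw [hab, h2] at h1
  exact_mod_cast h1.symm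

end

section
variable {w W y B M : ℕ} {r b0 : ℤ} {P : Finset ℕ} {H : Finset ℤ}

lemma rho_b (hc : Cfg w W y B M r b0 P H) (hyB : y < B) {b : ℕ} (hb : b ∈ P) :
    rho (sprimes w y) (b:ℤ) = (VV (sprimes w y))⁻¹ :=
  rho_of_rgh (rgh_prime (hc.hP b hb).1 (lt_of_lt_of_le hyB (hc.hP b hb).2.1))

lemma card_mul_le (hc : Cfg w W y B M r b0 P H) (hyB : y < B) :
    (P.card : ℝ) * (VV (sprimes w y))⁻¹ ≤
      ∑ x ∈ Finset.Ico (((B / W : ℕ) : ℤ) - 1) (((B / W : ℕ) : ℤ) - 1 + ((B / W + 3 : ℕ) : ℤ)),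
        rho (sprimes w y) (W * x + b0) := by
  have h0 : ∀ v, 0 ≤ rho (sprimes w y) v := rho_nonneg (pset_sprimes w y).prime
  calc (P.card : ℝ) * (VV (sprimes w y))⁻¹ = ∑ b ∈ P, rho (sprimes w y) (W * xx W b0 b + b0) := by
        rw [← nsmul_eq_mul, ← Finset.sum_const]
        apply Finset.sum_congr rfl
        intro b hb
        rw [xx_eq hc hb, rho_b hc hyB hb]
    _ = ∑ x ∈ P.image (xx W b0), rho (sprimes w y) (W * x + b0) := by
        rw [Finset.sum_image (xx_inj hc)]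
    _ ≤ _ := by
        apply Finset.sum_le_sum_of_subset_of_nonneg
        · intro x hx
          obtain ⟨b, hb, rfl⟩ := Finset.mem_image.mp hx
          exact xx_mem hc hb
        · intro x _ _
          exact h0 _

open Classical in
/-- number of `b ∈ P` with `b + W e' ∈ P` -/
noncomputable def NN (W : ℕ) (P : Finset ℕ) (e' : ℤ) : ℕ :=
  (P.filter fun b : ℕ => ∃ b' ∈ P, (b' : ℤ) = b + W * e').card

lemma NN_mul_le (hc : Cfg w W y B M r b0 P H) (hyB : y < B) (e' : ℤ) :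
    (NN W P e' : ℝ) * ((VV (sprimes w y))⁻¹) ^ 2 ≤
      ∑ x ∈ Finset.Ico (((B / W : ℕ) : ℤ) - 1) (((B / W : ℕ) : ℤ) - 1 + ((B / W + 3 : ℕ) : ℤ)),
        rho (sprimes w y) (W * x + b0) * rho (sprimes w y) (W * x + (b0 + W * e')) := by
  classical
  have h0 : ∀ v, 0 ≤ rho (sprimes w y) v := rho_nonneg (pset_sprimes w y).prime
  set Q := P.filter (fun b : ℕ => ∃ b' ∈ P, (b' : ℤ) = b + W * e') with hQ
  have hNN : NN W P e' = Q.card := by
    unfold NN
    congr!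
  have hsub : ∀ b ∈ Q, b ∈ P := fun b hb => (Finset.mem_filter.mp hb).1
  rw [hNN]
  calc (Q.card : ℝ) * ((VV (sprimes w y))⁻¹) ^ 2
      = ∑ b ∈ Q, rho (sprimes w y) (W * xx W b0 b + b0) *
          rho (sprimes w y) (W * xx W b0 b + (b0 + W * e')) := by
        rw [← nsmul_eq_mul, ← Finset.sum_const]
        apply Finset.sum_congr rfl
        intro b hb
        obtain ⟨hb1, b', hb', hbe⟩ := Finset.mem_filter.mp hb
        rw [← add_assoc, xx_eq hc hb1, rho_b hc hyB hb1, ← hbe, rho_b hc hyB hb', sq]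
    _ = ∑ x ∈ Q.image (xx W b0), rho (sprimes w y) (W * x + b0) *
          rho (sprimes w y) (W * x + (b0 + W * e')) := by
        rw [Finset.sum_image (fun a ha b hb hab => xx_inj hc (hsub a ha) (hsub b hb) hab)]
    _ ≤ _ := by
        apply Finset.sum_le_sum_of_subset_of_nonneg
        · intro x hx
          obtain ⟨b, hb, rfl⟩ := Finset.mem_image.mp hx
          exact xx_mem hc (hsub b hb)
        · intro x _ _
          exact mul_nonneg (h0 _) (h0 _)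

end

/-- `corr0 1` unfolded -/
lemma corr1 : ∃ C : ℕ, 1 ≤ C ∧ ∀ (A w z : ℕ) (S : Finset ℕ), C ≤ A → C ≤ w → 2 ≤ z →
    PSet w z S → ∀ (α β : ℤ), (∀ p ∈ S, ¬ (p : ℤ) ∣ α) → ∀ (a b : ℤ), a ≤ b →
    ∑ x ∈ Finset.Ico a b, rho S (α * x + β) ≤
      (b - a) * (1 + C * er C A w) + C * (z : ℝ) ^ (A + 1) := by
  obtain ⟨C, hC, h⟩ := corr0 1
  refine ⟨C, hC, ?_⟩
  intro A w z S h1 h2 h3 hS α β hα a b hab
  have := h A w z S h1 h2 h3 hS (fun _ => α) (fun _ => β) (fun p hp _ => hα p hp) a b hab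
  have hz : (∑ i : Fin 1, ∑ j ∈ Finset.univ.filter (fun j : Fin 1 => i ≠ j),
      Ers (9 / 10) S (disc (fun _ : Fin 1 => α) (fun _ => β) i j)) = 0 := by
    apply Finset.sum_eq_zero
    intro i _
    have : Finset.univ.filter (fun j : Fin 1 => i ≠ j) = ∅ := by
      ext j
      simp [Subsingleton.elim i j]
    rw [this, Finset.sum_empty]
  rw [hz] at this
  simp only [Fin.prod_univ_one, mul_zero, add_zero] at this
  have h5 := (abs_le.mp this).2
  linarith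

/-- `corr0 2` unfolded -/
lemma corr2 : ∃ C : ℕ, 1 ≤ C ∧ ∀ (A w z : ℕ) (S : Finset ℕ), C ≤ A → C ≤ w → 2 ≤ z →
    PSet w z S → ∀ (α β β' : ℤ), (∀ p ∈ S, ¬ (p : ℤ) ∣ α) → ∀ (a b : ℤ), a ≤ b →
    ∑ x ∈ Finset.Ico a b, rho S (α * x + β) * rho S (α * x + β') ≤
      (b - a) * (1 + C * er C A w + 2 * C * Ers (9 / 10) S (β' - β)) + C * (z : ℝ) ^ (A + 2) := by
  obtain ⟨C, hC, h⟩ := corr0 2
  refine ⟨C, hC, ?_⟩
  intro A w z S h1 h2 h3 hS α β β' hα a b hab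
  have := h A w z S h1 h2 h3 hS (fun _ => α) ![β, β'] (fun p hp _ => hα p hp) a b hab
  have hz : (∑ i : Fin 2, ∑ j ∈ Finset.univ.filter (fun j : Fin 2 => i ≠ j),
      Ers (9 / 10) S (disc (fun _ : Fin 2 => α) ![β, β'] i j)) = 2 * Ers (9 / 10) S (β' - β) := by
    rw [Fin.sum_univ_two]
    have e0 : Finset.univ.filter (fun j : Fin 2 => (0:Fin 2) ≠ j) = {1} := by decide
    have e1 : Finset.univ.filter (fun j : Fin 2 => (1:Fin 2) ≠ j) = {0} := by decide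
    rw [e0, e1, Finset.sum_singleton, Finset.sum_singleton]
    unfold disc
    have g1 : α * (![β, β'] (1 : Fin 2)) - α * (![β, β'] (0 : Fin 2)) = α * (β' - β) := by
      simp; ring
    have g2 : α * (![β, β'] (0 : Fin 2)) - α * (![β, β'] (1 : Fin 2)) = - (α * (β' - β)) := by
      simp; ring
    rw [g1, g2, ers_neg, ers_mul hS.prime (9 / 10) α (β' - β) hα]
    ring
  rw [hz] at this
  simp only [Fin.prod_univ_two, Matrix.cons_val_zero, Matrix.cons_val_one] at this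
  have h5 := (abs_le.mp this).2
  linarith

section
variable {w W y B M : ℕ} {r b0 : ℤ} {P : Finset ℕ} {H : Finset ℤ}

/-- the relation of the set `G` -/
def Gp (M B : ℕ) (H : Finset ℤ) (θ κ : ℤ → ℝ) (C1 : ℝ) (b : ℕ) (u : ℤ × ℤ) : Prop :=
  u.2 - u.1 * b ∈ H ∧ nr (b * (θ u.2 - θ (u.2 - u.1 * b)) - κ u.1) ≤ C1 * B / M

open Classical in
noncomputable def Gset (M B : ℕ) (P : Finset ℕ) (H : Finset ℤ) (θ κ : ℤ → ℝ) (C1 : ℝ) :
    Finset (ℕ × (ℤ × ℤ)) :=
  (P ×ˢ (Finset.Icc (-((M / B : ℕ) : ℤ)) ((M / B : ℕ) : ℤ) ×ˢ H)).filter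
    fun q => Gp M B H θ κ C1 q.1 q.2

lemma exists_best (M B : ℕ) (P : Finset ℕ) (H : Finset ℤ) (θ : ℤ → ℝ) (C1 X Y : ℝ) (hX : 0 < X)
    (hY : 0 < Y) (hR : X ≤ ((Rset M B P H θ C1).card : ℝ)) (hPH : (P.card : ℝ) * H.card ≤ Y) :
    ∃ κ : ℤ → ℝ, X / Y ≤ ((Gset M B P H θ κ C1).card : ℝ) := by
  classical
  by_contra hcon
  push Not at hcon
  set kap : ℕ × ℤ → ℤ → ℝ := fun v t => v.1 * (θ v.2 - θ (v.2 - t * v.1)) with hkap
  have h1 : (Rset M B P H θ C1).card ≤ ∑ v ∈ P ×ˢ H, (Gset M B P H θ (kap v) C1).card := by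
    rw [Finset.card_eq_sum_card_fiberwise (f := fun q => (q.1.2, q.2.2.2)) (t := P ×ˢ H)]
    · apply Finset.sum_le_sum
      intro v hv
      apply Finset.card_le_card_of_injOn (fun q => (q.1.1, (q.2.1, q.2.2.1)))
      · intro q hq
        rw [Finset.mem_coe, Finset.mem_filter] at hq
        obtain ⟨hq1, hq2⟩ := hq
        unfold Rset at hq1
        rw [Finset.mem_filter] at hq1
        obtain ⟨hm, h2, h3, h4⟩ := hq1
        simp only [Finset.mem_product] at hm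
        subst hq2
        rw [Finset.mem_coe]
        unfold Gset
        rw [Finset.mem_filter]
        refine ⟨?_, h2, ?_⟩
        · simp only [Finset.mem_product]
          exact ⟨hm.1.1, hm.2.1, hm.2.2.1⟩
        · exact h4
      · intro q hq q' hq' he
        rw [Finset.mem_coe, Finset.mem_filter] at hq hq'
        have e1 := hq.2.trans hq'.2.symm
        simp only [Prod.mk.injEq] at he e1
        ext <;> simp_all
    · intro q hq
      have hq' := Finset.mem_coe.mp hq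
      unfold Rset at hq'
      rw [Finset.mem_filter] at hq'
      have hm := hq'.1
      simp only [Finset.mem_product] at hm
      simp only [Finset.coe_product, Set.mem_prod, Finset.mem_coe]
      exact ⟨hm.1.2, hm.2.2.2⟩
  have h2 : ((Rset M B P H θ C1).card : ℝ) ≤
      ∑ v ∈ P ×ˢ H, ((Gset M B P H θ (kap v) C1).card : ℝ) := by exact_mod_cast h1
  have hne : (P ×ˢ H).Nonempty := by
    rw [Finset.nonempty_iff_ne_empty]
    intro h0
    rw [h0, Finset.sum_empty] at h2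
    linarith
  have h3 : ∑ v ∈ P ×ˢ H, ((Gset M B P H θ (kap v) C1).card : ℝ) < ∑ v ∈ P ×ˢ H, X / Y :=
    Finset.sum_lt_sum_of_nonempty hne fun v _ => hcon (kap v)
  rw [Finset.sum_const, Finset.card_product, nsmul_eq_mul] at h3
  push_cast at h3
  have h4 : (P.card : ℝ) * H.card * (X / Y) ≤ Y * (X / Y) :=
    mul_le_mul_of_nonneg_right hPH (by positivity)
  have h5 : Y * (X / Y) = X := by field_simp
  linarith

open Classical in
/-- the quadruples -/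
noncomputable def Qset (M B : ℕ) (P : Finset ℕ) (H : Finset ℤ) (θ κ : ℤ → ℝ) (C1 : ℝ) :
    Finset ((ℤ × ℤ) × (ℕ × ℕ)) :=
  ((Finset.Icc (-((M / B : ℕ) : ℤ)) ((M / B : ℕ) : ℤ) ×ˢ H) ×ˢ (P ×ˢ P)).filter
    fun q => Gp M B H θ κ C1 q.2.1 q.1 ∧ Gp M B H θ κ C1 q.2.2 q.1

lemma Gset_sq_le (M B : ℕ) (P : Finset ℕ) (H : Finset ℤ) (θ κ : ℤ → ℝ) (C1 : ℝ) :
    ((Gset M B P H θ κ C1).card : ℝ) ^ 2 ≤
      ((Finset.Icc (-((M / B : ℕ) : ℤ)) ((M / B : ℕ) : ℤ)).card * H.card : ℝ) *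
        ((Qset M B P H θ κ C1).card : ℝ) := by
  classical
  set T0 := (Finset.Icc (-((M / B : ℕ) : ℤ)) ((M / B : ℕ) : ℤ) ×ˢ H) with hT0
  set n : ℤ × ℤ → ℕ := fun u => (P.filter fun b => Gp M B H θ κ C1 b u).card with hn
  have h1 : (Gset M B P H θ κ C1).card = ∑ u ∈ T0, n u := by
    unfold Gset
    rw [Finset.card_filter, Finset.sum_product_right]
    apply Finset.sum_congr rfl
    intro u _
    rw [hn]
    simp only
    rw [Finset.card_filter]
  have h2 : (Qset M B P H θ κ C1).card = ∑ u ∈ T0, n u ^ 2 := by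
    unfold Qset
    rw [Finset.card_filter, Finset.sum_product]
    apply Finset.sum_congr rfl
    intro u _
    rw [← Finset.card_filter, sq, hn]
    simp only
    rw [← Finset.card_product, ← Finset.filter_product]
  rw [h1, h2]
  push_cast
  have := sq_sum_le_card_mul_sum_sq (s := T0) (f := fun u => (n u : ℝ))
  calc _ ≤ _ := this
    _ = _ := by rw [hT0, Finset.card_product]; push_cast; ring

lemma card_Q_le (hc : Cfg w W y B M r b0 P H) (hM : 0 < M) (θ κ : ℤ → ℝ) (C1 : ℝ)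
    (hC1 : 0 ≤ C1) :
    ((Qset M B P H θ κ C1).card : ℝ) ≤ H.card * (P.card : ℝ) ^ 2 +
      (Finset.Icc (-((M / B : ℕ) : ℤ)) ((M / B : ℕ) : ℤ)).card * H.card * P.card +
      ∑ q ∈ Tset W M B H, ((Bset W P q.2.2 (θ q.2.1 - θ (q.2.1 - q.1 * (W * q.2.2)))
        (-(W * q.2.2 * κ q.1)) (8 * C1 * B ^ 2 / M)).card : ℝ) := by
  classical
  set T := Finset.Icc (-((M / B : ℕ) : ℤ)) ((M / B : ℕ) : ℤ) with hT
  set Q := Qset M B P H θ κ C1 with hQ
  have hW : (0:ℤ) < W := by exact_mod_cast hc.isW.1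
  -- the main part
  have h2 : (Q.filter fun q => q.1.1 ≠ 0 ∧ q.2.1 ≠ q.2.2).card ≤
      ((Tset W M B H).sigma fun q => Bset W P q.2.2 (θ q.2.1 - θ (q.2.1 - q.1 * (W * q.2.2)))
        (-(W * q.2.2 * κ q.1)) (8 * C1 * B ^ 2 / M)).card := by
    apply Finset.card_le_card_of_injOn
      (fun q => ⟨(q.1.1, (q.1.2 - q.1.1 * q.2.1, xx W b0 q.2.2 - xx W b0 q.2.1)), q.2.1⟩)
    · rintro ⟨⟨t, h⟩, ⟨b, b'⟩⟩ hq
      rw [Finset.mem_coe, Finset.mem_filter] at hq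
      obtain ⟨hq1, ht0, hbb⟩ := hq
      rw [hQ] at hq1
      unfold Qset at hq1
      rw [Finset.mem_filter] at hq1
      obtain ⟨hm, ⟨hh1, hn1⟩, ⟨hh2, hn2⟩⟩ := hq1
      simp only [Finset.mem_product] at hm
      obtain ⟨⟨hmt, hmh⟩, hmb, hmb'⟩ := hm
      simp only at ht0 hbb hh1 hn1 hh2 hn2
      have e1 := xx_eq hc hmb
      have e2 := xx_eq hc hmb'
      have e3 : (W:ℤ) * (xx W b0 b' - xx W b0 b) = b' - b := by linear_combination e2 - e1
      have e3' : ((W:ℝ)) * ((xx W b0 b' - xx W b0 b : ℤ) : ℝ) = b' - b := by exact_mod_cast e3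
      have hB1 := (hc.hP b hmb).2
      have hB2 := (hc.hP b' hmb').2
      have r1 : (B:ℝ) ≤ b := by exact_mod_cast hB1.1
      have r2 : (b:ℝ) ≤ 2 * B := by exact_mod_cast hB1.2.1
      have r3 : (B:ℝ) ≤ b' := by exact_mod_cast hB2.1
      have r4 : (b':ℝ) ≤ 2 * B := by exact_mod_cast hB2.2.1
      rw [Finset.mem_coe, Finset.mem_sigma]
      simp only
      have e4 : h - t * b - t * (W * (xx W b0 b' - xx W b0 b)) = h - t * b' := by
        rw [e3]; ring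
      constructor
      · unfold Tset
        rw [Finset.mem_filter]
        refine ⟨?_, ht0, ?_, ?_⟩
        · simp only [Finset.mem_product]
          refine ⟨hmt, hh1, ?_⟩
          rw [Finset.mem_Icc]
          have hq2 : (B:ℤ) < W * (((B / W : ℕ) : ℤ) + 1) := by
            exact_mod_cast Nat.lt_mul_div_succ B (by exact_mod_cast hc.isW.1)
          set qq : ℤ := ((B / W : ℕ) : ℤ) with hqq
          have i1 : (B:ℤ) ≤ b := by exact_mod_cast hB1.1
          have i2 : (b:ℤ) ≤ 2 * B := by exact_mod_cast hB1.2.1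
          have i3 : (B:ℤ) ≤ b' := by exact_mod_cast hB2.1
          have i4 : (b':ℤ) ≤ 2 * B := by exact_mod_cast hB2.2.1
          constructor
          · by_contra hcon
            push Not at hcon
            have : xx W b0 b' - xx W b0 b ≤ -(qq + 1) := by omega
            nlinarith
          · by_contra hcon
            push Not at hcon
            have : qq + 1 ≤ xx W b0 b' - xx W b0 b := by omega
            nlinarith
        · simp only
          intro h0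
          rw [h0] at e3
          apply hbb
          have : (b:ℤ) = b' := by linarith
          exact_mod_cast this
        · simp only
          rw [e4]; exact hh2
      · unfold Bset
        rw [Finset.mem_filter]
        refine ⟨hmb, ⟨b', hmb', by rw [e3]; ring⟩, ?_⟩
        rw [e4, e3']
        set x1 : ℝ := b * (θ h - θ (h - t * b)) - κ t with hx1
        set x2 : ℝ := b' * (θ h - θ (h - t * b')) - κ t with hx2
        have e5 : (b:ℝ) * (b + (b' - b)) * (θ (h - t * b) - θ (h - t * b')) - -((b' - b) * κ t) =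
            b * x2 - b' * x1 := by
          rw [hx1, hx2]; ring
        rw [e5]
        have hn1' : |x1 - round x1| ≤ C1 * B / M := hn1
        have hn2' : |x2 - round x2| ≤ C1 * B / M := hn2
        have hle := nr_le_abs_sub (b * x2 - b' * x1) ((b:ℤ) * round x2 - (b':ℤ) * round x1)
        refine hle.trans ?_
        have e6 : (b:ℝ) * x2 - b' * x1 - (((b:ℤ) * round x2 - (b':ℤ) * round x1 : ℤ) : ℝ) =
            b * (x2 - round x2) - b' * (x1 - round x1) := by push_cast; ring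
        rw [e6]
        have hb0 : (0:ℝ) ≤ b := Nat.cast_nonneg _
        have hb0' : (0:ℝ) ≤ b' := Nat.cast_nonneg _
        have hMr : (0:ℝ) < M := by exact_mod_cast hM
        have hBr : (0:ℝ) ≤ B := Nat.cast_nonneg _
        calc |(b:ℝ) * (x2 - round x2) - b' * (x1 - round x1)|
            ≤ |(b:ℝ) * (x2 - round x2)| + |b' * (x1 - round x1)| := abs_sub _ _
          _ = b * |x2 - round x2| + b' * |x1 - round x1| := by
              rw [abs_mul, abs_mul, abs_of_nonneg hb0, abs_of_nonneg hb0']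
          _ ≤ (2 * B) * (C1 * B / M) + (2 * B) * (C1 * B / M) := by
              gcongr
          _ ≤ 8 * C1 * B ^ 2 / M := by
              have : (2 * (B:ℝ)) * (C1 * B / M) + (2 * B) * (C1 * B / M) = 4 * C1 * B ^ 2 / M := by
                ring
              rw [this]
              gcongr
              norm_num
    · rintro ⟨⟨t, h⟩, ⟨b, b'⟩⟩ hq ⟨⟨t1, h1⟩, ⟨b1, b1'⟩⟩ hq1 he
      rw [Finset.mem_coe, Finset.mem_filter] at hq hq1
      have hq := hq.1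
      have hq1 := hq1.1
      rw [hQ] at hq hq1
      unfold Qset at hq hq1
      rw [Finset.mem_filter] at hq hq1
      have hm := hq.1
      have hm1 := hq1.1
      simp only [Finset.mem_product] at hm hm1
      simp only [Sigma.mk.injEq, Prod.mk.injEq, heq_eq_eq] at he
      obtain ⟨⟨ht, hh, hx⟩, hb⟩ := he
      subst ht hb
      have hh' : h = h1 := by linarith
      subst hh'
      have hb' : b' = b1' := xx_inj hc hm.2.2 hm1.2.2 (by linarith)
      subst hb'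
      rfl
  rw [Finset.card_sigma] at h2
  have h3 : Q ⊆ ((({0} : Finset ℤ) ×ˢ H) ×ˢ (P ×ˢ P)) ∪
      (((T ×ˢ H) ×ˢ P).image (fun q => (q.1, (q.2, q.2)))) ∪
      (Q.filter fun q => q.1.1 ≠ 0 ∧ q.2.1 ≠ q.2.2) := by
    rintro ⟨⟨t, h⟩, ⟨b, b'⟩⟩ hq
    have hq1 := hq
    rw [hQ] at hq1
    unfold Qset at hq1
    rw [Finset.mem_filter] at hq1
    have hm := hq1.1
    simp only [Finset.mem_product] at hm
    by_cases ht : t = 0
    · apply Finset.mem_union_left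
      apply Finset.mem_union_left
      simp only [Finset.mem_product, Finset.mem_singleton]
      exact ⟨⟨ht, hm.1.2⟩, hm.2⟩
    · by_cases hb : b = b'
      · apply Finset.mem_union_left
        apply Finset.mem_union_right
        rw [Finset.mem_image]
        refine ⟨((t, h), b), ?_, ?_⟩
        · simp only [Finset.mem_product]
          exact ⟨hm.1, hm.2.1⟩
        · rw [hb]
      · apply Finset.mem_union_right
        rw [Finset.mem_filter]
        exact ⟨hq, ht, hb⟩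
  have h4 : Q.card ≤ H.card * P.card ^ 2 + T.card * H.card * P.card +
      ∑ q ∈ Tset W M B H, (Bset W P q.2.2 (θ q.2.1 - θ (q.2.1 - q.1 * (W * q.2.2)))
        (-(W * q.2.2 * κ q.1)) (8 * C1 * B ^ 2 / M)).card := by
    refine (Finset.card_le_card h3).trans ?_
    refine (Finset.card_union_le _ _).trans ?_
    refine add_le_add ?_ h2
    refine (Finset.card_union_le _ _).trans ?_
    refine add_le_add ?_ ?_
    · rw [Finset.card_product, Finset.card_product, Finset.card_product, Finset.card_singleton]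
      exact le_of_eq (by ring)
    · refine Finset.card_image_le.trans ?_
      rw [Finset.card_product, Finset.card_product]
  exact_mod_cast h4

end

section
variable {w W y B M : ℕ} {r b0 : ℤ} {P : Finset ℕ} {H : Finset ℤ}

lemma Bset_le_NN (W : ℕ) (P : Finset ℕ) (e' : ℤ) (Y γ ε0 : ℝ) :
    (Bset W P e' Y γ ε0).card ≤ NN W P e' := by
  classical
  unfold Bset NN
  apply Finset.card_le_card
  intro b hb
  rw [Finset.mem_filter] at hb ⊢
  exact ⟨hb.1, hb.2.1⟩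

lemma typ_mono {S : Finset ℕ} {W : ℕ} {b0 x0 : ℤ} {L : ℕ} {η η' : ℝ} {e' : ℤ} (h : η ≤ η')
    (ht : Typ S W b0 x0 L η e') : Typ S W b0 x0 L η' e' := by
  refine ⟨ht.1.trans h, ?_⟩
  intro a b h1 h2 h3 α β
  exact (ht.2 a b h1 h2 h3 α β).trans (mul_le_mul_of_nonneg_right h (Nat.cast_nonneg _))

lemma sum_atyp_ers (S : Finset ℕ) (L : ℕ) (e1 Ce Cg Cq : ℝ) (he1 : 0 < e1)
    (hCe : 0 ≤ Ce)
    (h1 : ∀ m : ℤ, Ers (9 / 10) S m ^ 2 ≤ Ce * Ers (3 / 4) S m)
    (h2 : ∑ m ∈ Finset.Ioo (-(L:ℤ)) L, Ers (3 / 4) S m ≤ Cg * (3 * L)) (bad : ℤ → Prop)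
    [DecidablePred bad] (h3 : (((Finset.Ioo (-(L:ℤ)) L).filter bad).card : ℝ) ≤ Cq * e1 ^ 2 * L) :
    ∑ m ∈ (Finset.Ioo (-(L:ℤ)) L).filter bad, Ers (9 / 10) S m ≤
      (3 * Ce * Cg + Cq) / 2 * e1 * L := by
  have h4 : ∀ m, Ers (9 / 10) S m ≤ e1 / 2 * (Ce * Ers (3 / 4) S m) + 1 / (2 * e1) := by
    intro m
    have := h1 m
    have h5 : Ers (9 / 10) S m ≤ e1 / 2 * Ers (9 / 10) S m ^ 2 + 1 / (2 * e1) := by
      have : e1 / 2 * Ers (9 / 10) S m ^ 2 + 1 / (2 * e1) - Ers (9 / 10) S m =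
          (e1 * Ers (9 / 10) S m - 1) ^ 2 / (2 * e1) := by
        field_simp
        ring
      have h6 : 0 ≤ (e1 * Ers (9 / 10) S m - 1) ^ 2 / (2 * e1) := by positivity
      linarith
    have h7 : e1 / 2 * Ers (9 / 10) S m ^ 2 ≤ e1 / 2 * (Ce * Ers (3 / 4) S m) :=
      mul_le_mul_of_nonneg_left this (by positivity)
    linarith
  calc ∑ m ∈ (Finset.Ioo (-(L:ℤ)) L).filter bad, Ers (9 / 10) S m
      ≤ ∑ m ∈ (Finset.Ioo (-(L:ℤ)) L).filter bad,
          (e1 / 2 * (Ce * Ers (3 / 4) S m) + 1 / (2 * e1)) := Finset.sum_le_sum fun m _ => h4 m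
    _ = e1 / 2 * (Ce * ∑ m ∈ (Finset.Ioo (-(L:ℤ)) L).filter bad, Ers (3 / 4) S m) +
          (((Finset.Ioo (-(L:ℤ)) L).filter bad).card : ℝ) * (1 / (2 * e1)) := by
        rw [Finset.sum_add_distrib, Finset.sum_const, nsmul_eq_mul, ← Finset.mul_sum,
          ← Finset.mul_sum]
    _ ≤ e1 / 2 * (Ce * (Cg * (3 * L))) + Cq * e1 ^ 2 * L * (1 / (2 * e1)) := by
        apply add_le_add
        · apply mul_le_mul_of_nonneg_left _ (by positivity)
          apply mul_le_mul_of_nonneg_left _ hCe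
          refine le_trans ?_ h2
          apply Finset.sum_le_sum_of_subset_of_nonneg (Finset.filter_subset _ _)
          intro m _ _
          exact Ers_nonneg _ _ _
        · exact mul_le_mul_of_nonneg_right h3 (by positivity)
    _ = (3 * Ce * Cg + Cq) / 2 * e1 * L := by
        field_simp

/-- purely numerical consequences of the hypotheses -/
structure Num (K A W y B M : ℕ) (c0 e1 Z V D R : ℝ) : Prop where
  hZK : (K:ℝ) ≤ Z
  hyZ : (y:ℝ) ≤ Z
  hZ : Z = (y:ℝ) ^ A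
  hc0 : 1 ≤ c0 ^ 2 * Z
  hV : 1 ≤ V * Z
  hD : D = (B:ℝ) / W
  hR : R = (M:ℝ) / B
  hDZ : Z ^ (K - 1) ≤ D
  hRZ : Z ^ K ≤ R
  hW0 : (0:ℝ) < W
  hB0 : (0:ℝ) < B
  hM0 : (0:ℝ) < M

lemma mkNum {K A : ℕ} {c0 : ℝ} (hc : Cfg w W y B M r b0 P H) (hK : 2 ≤ K) (hc0 : 0 < c0)
    (hc1 : c0 ≤ 1) (hKA : K ≤ A) (he : K * er K A w ≤ c0 ^ K) (hB : y ^ (K * A) ≤ B) :
    Num K A W y B M c0 (er K A w) ((y:ℝ) ^ A) (VV (sprimes w y)) ((B:ℝ) / W) ((M:ℝ) / B) := by
  have hy4 : 4 ≤ y := by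
    have := hc.Wy
    have h1 : 1 ≤ W ^ 4 := Nat.one_le_pow _ _ hc.isW.1
    omega
  have hy4r : (4:ℝ) ≤ y := by exact_mod_cast hy4
  have hA1 : 1 ≤ A := by omega
  have hWy : (W:ℝ) ≤ y := by
    have h1 : W ≤ W ^ 4 := Nat.le_self_pow (by norm_num) _
    have h2 := hc.Wy
    exact_mod_cast (by omega : W ≤ y)
  have hW0 : (0:ℝ) < W := by exact_mod_cast hc.isW.1
  have hyZ : (y:ℝ) ≤ (y:ℝ) ^ A := by
    calc (y:ℝ) = (y:ℝ) ^ 1 := (pow_one _).symm
      _ ≤ (y:ℝ) ^ A := pow_le_pow_right₀ (by linarith) hA1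
  have hBr : ((y:ℝ) ^ A) ^ K ≤ B := by
    rw [← pow_mul, mul_comm A K]
    exact_mod_cast hB
  have hZ1 : (1:ℝ) ≤ (y:ℝ) ^ A := by linarith
  have hB0 : (0:ℝ) < B := lt_of_lt_of_le (by positivity) hBr
  have hBM : (100:ℝ) * B ^ 2 ≤ M := by exact_mod_cast hc.BM
  have hM0 : (0:ℝ) < M := lt_of_lt_of_le (by positivity) hBM
  refine ⟨?_, hyZ, rfl, ?_, ?_, rfl, rfl, ?_, ?_, hW0, hB0, hM0⟩
  · have h1 : (K:ℝ) ≤ A := by exact_mod_cast hKA
    have h2 : (A:ℝ) ≤ (2:ℝ) ^ A := by exact_mod_cast (Nat.lt_two_pow_self (n := A)).le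
    have h3 : (2:ℝ) ^ A ≤ (y:ℝ) ^ A := pow_le_pow_left₀ (by norm_num) (by linarith) _
    linarith
  · have h1 : c0 ^ K ≤ c0 ^ 2 := pow_le_pow_of_le_one hc0.le hc1 hK
    have h2 : (2:ℝ) ^ (-(A:ℝ) / K) ≤ er K A w := by
      unfold er
      have : 0 ≤ (w:ℝ) ^ (-(1:ℝ) / K) := Real.rpow_nonneg (Nat.cast_nonneg _) _
      linarith
    have hKr : (2:ℝ) ≤ K := by exact_mod_cast hK
    have h3 : (2:ℝ) ^ (-(A:ℝ)) ≤ (2:ℝ) ^ (-(A:ℝ) / K) := by
      apply Real.rpow_le_rpow_of_exponent_le (by norm_num)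
      rw [neg_div, neg_le_neg_iff]
      exact div_le_self (Nat.cast_nonneg _) (by linarith)
    have h4 : (2:ℝ) ^ (-(A:ℝ)) = ((2:ℝ) ^ A)⁻¹ := by
      rw [Real.rpow_neg (by norm_num), Real.rpow_natCast]
    have h5 : ((2:ℝ) ^ A)⁻¹ ≤ c0 ^ 2 := by
      have h6 : 0 ≤ er K A w := er_nonneg _ _ _
      have h7 : er K A w ≤ K * er K A w := by nlinarith
      linarith
    have h8 : (2:ℝ) ^ A ≤ (y:ℝ) ^ A := pow_le_pow_left₀ (by norm_num) (by linarith) _
    have h9 : (0:ℝ) < (2:ℝ) ^ A := by positivity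
    calc (1:ℝ) = ((2:ℝ) ^ A)⁻¹ * (2:ℝ) ^ A := by field_simp
      _ ≤ c0 ^ 2 * (y:ℝ) ^ A := mul_le_mul h5 h8 h9.le (by positivity)
  · have h1 := VV_ge w y (by omega)
    have h2 : (0:ℝ) < y := by linarith
    calc (1:ℝ) = 1 / y * y := by field_simp
      _ ≤ VV (sprimes w y) * (y:ℝ) ^ A :=
        mul_le_mul h1 hyZ h2.le (VV_pos (pset_sprimes w y).prime).le
  · rw [le_div_iff₀ hW0]
    calc ((y:ℝ) ^ A) ^ (K - 1) * W ≤ ((y:ℝ) ^ A) ^ (K - 1) * (y:ℝ) ^ A :=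
          mul_le_mul_of_nonneg_left (by linarith) (by positivity)
      _ = ((y:ℝ) ^ A) ^ K := by
          rw [← pow_succ]; congr 1; omega
      _ ≤ B := hBr
  · rw [le_div_iff₀ hB0]
    have h1 : (B:ℝ) * B ≤ M := by nlinarith [sq_nonneg (B:ℝ)]
    calc ((y:ℝ) ^ A) ^ K * B ≤ B * B := mul_le_mul_of_nonneg_right hBr hB0.le
      _ ≤ M := h1

end

section
variable {w W y B M : ℕ} {r b0 : ℤ} {P : Finset ℕ} {H : Finset ℤ}

/-- all bounds on counts -/
structure Cnt (w W y B M : ℕ) (b0 : ℤ) (P : Finset ℕ) (H : Finset ℤ) (Cb Xc : ℝ) (η V D R e1 : ℝ)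
    (b1 : ℤ) (L : ℕ) : Prop where
  hP : (P.card : ℝ) ≤ 3 * (V * D)
  hH : (H.card : ℝ) ≤ 2 * M
  hT : ((Finset.Icc (-((M / B : ℕ) : ℤ)) ((M / B : ℕ) : ℤ)).card : ℝ) ≤ 3 * R
  hE : ((Finset.Icc (-((B / W : ℕ) : ℤ)) ((B / W : ℕ) : ℤ)).card : ℝ) ≤ 3 * D
  hN : ∀ e' : ℤ, Typ (sprimes w y) W b0 b1 L η e' → (NN W P e' : ℝ) ≤ Cb * (V ^ 2 * D)
  hA : ∀ s : Finset ℤ, s ⊆ Finset.Icc (-((B / W : ℕ) : ℤ)) ((B / W : ℕ) : ℤ) →
    (∀ e' ∈ s, ¬ Typ (sprimes w y) W b0 b1 L η e') →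
    ∑ e' ∈ s, (NN W P e' : ℝ) ≤ Xc * (e1 * (V ^ 2 * D ^ 2))

open Classical in
lemma final_step {K A : ℕ} {c0 C1 : ℝ} {Z V D R : ℝ} {Cb Xc η : ℝ} {b1 : ℤ} {L : ℕ} {θ : ℤ → ℝ}
    {e1 : ℝ}
    (hc : Cfg w W y B M r b0 P H) (hC1 : 0 ≤ C1) (hc0 : 0 < c0) (hc1 : c0 ≤ 1) (hK : 31104 ≤ K)
    (hn : Num K A W y B M c0 e1 Z V D R) (hV0 : 0 < V) (hCb : 1 ≤ Cb)
    (hcnt : Cnt w W y B M b0 P H Cb Xc η V D R e1 b1 L)
    (hXc : 5184 * Xc * e1 ≤ c0 ^ 2) (hKb : 1728 * Cb ≤ K)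
    (hR : c0 * (V * D) ^ 2 * R * M ^ 2 ≤ ((Rset M B P H θ C1).card : ℝ)) :
    ∃ κt : ℤ → ℝ, c0 ^ K / K * (D * R * M) ≤ (((Tset W M B H).filter fun q : ℤ × (ℤ × ℤ) =>
      Typ (sprimes w y) W b0 b1 L η q.2.2 ∧
      c0 ^ K / K * (V ^ 2 * D) ≤
        (Bset W P q.2.2 (θ q.2.1 - θ (q.2.1 - q.1 * (W * q.2.2))) (-(W * q.2.2 * κt q.1))
          (8 * C1 * B ^ 2 / M)).card).card : ℝ) := by
  classical
  obtain ⟨hZK, hyZ, hZ, hc0Z, hVZ, hD, hRR, hDZ, hRZ, hW0, hB0, hM0⟩ := hn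
  have hKr : (31104:ℝ) ≤ K := by exact_mod_cast hK
  have hZbig : (31104:ℝ) ≤ Z := hKr.trans hZK
  have hZ1 : (1:ℝ) ≤ Z := by linarith
  have hZ0 : (0:ℝ) < Z := by linarith
  have hDbig : Z ^ 3 ≤ D := by
    refine le_trans ?_ hDZ
    exact pow_le_pow_right₀ hZ1 (by omega)
  have hRbig : Z ^ 3 ≤ R := by
    refine le_trans ?_ hRZ
    exact pow_le_pow_right₀ hZ1 (by omega)
  have hD0 : 0 < D := lt_of_lt_of_le (by positivity) hDbig
  have hR0 : 0 < R := lt_of_lt_of_le (by positivity) hRbig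
  have hY0 : 0 < 6 * (V * D) * M := by positivity
  have hPH : (P.card : ℝ) * H.card ≤ 6 * (V * D) * M := by
    calc (P.card : ℝ) * H.card ≤ (3 * (V * D)) * (2 * M) :=
          mul_le_mul hcnt.hP hcnt.hH (Nat.cast_nonneg _) (by positivity)
      _ = _ := by ring
  obtain ⟨κ, hκ⟩ := exists_best M B P H θ C1 _ _ (by positivity) hY0 hR hPH
  refine ⟨κ, ?_⟩
  set g : ℝ := ((Gset M B P H θ κ C1).card : ℝ) with hg
  have hκ' : c0 / 6 * (V * D) * R * M ≤ g := by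
    refine le_trans (le_of_eq ?_) hκ
    field_simp
  set Qc : ℝ := ((Qset M B P H θ κ C1).card : ℝ) with hQc
  have hQ0 : 0 ≤ Qc := Nat.cast_nonneg _
  have h1 : (c0 / 6 * (V * D) * R * M) ^ 2 ≤ (3 * R * (2 * M)) * Qc := by
    have h2 := Gset_sq_le M B P H θ κ C1
    have h3 : (c0 / 6 * (V * D) * R * M) ^ 2 ≤ g ^ 2 :=
      pow_le_pow_left₀ (by positivity) hκ' 2
    refine h3.trans (h2.trans ?_)
    apply mul_le_mul_of_nonneg_right _ hQ0
    exact mul_le_mul hcnt.hT hcnt.hH (Nat.cast_nonneg _) (by positivity)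
  -- the basic quantity
  set U : ℝ := V ^ 2 * D ^ 2 * R * M with hU
  have hU0 : 0 < U := by rw [hU]; positivity
  have h2 : c0 ^ 2 / 216 * U ≤ Qc := by
    have h3 : (c0 / 6 * (V * D) * R * M) ^ 2 = (3 * R * (2 * M)) * (c0 ^ 2 / 216 * U) := by
      rw [hU]; ring
    rw [h3] at h1
    exact le_of_mul_le_mul_left h1 (by positivity)
  have h3 := card_Q_le hc (by exact_mod_cast hM0) θ κ C1 hC1
  set Sg : ℝ := ∑ q ∈ Tset W M B H, ((Bset W P q.2.2 (θ q.2.1 - θ (q.2.1 - q.1 * (W * q.2.2)))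
        (-(W * q.2.2 * κ q.1)) (8 * C1 * B ^ 2 / M)).card : ℝ) with hSg
  have hc00 : 0 < c0 ^ 2 := by positivity
  have h4 : (H.card : ℝ) * (P.card : ℝ) ^ 2 ≤ c0 ^ 2 / 864 * U := by
    have h5 : (H.card : ℝ) * (P.card : ℝ) ^ 2 ≤ (2 * M) * (3 * (V * D)) ^ 2 := by
      apply mul_le_mul hcnt.hH _ (by positivity) (by positivity)
      exact pow_le_pow_left₀ (Nat.cast_nonneg _) hcnt.hP 2
    refine h5.trans ?_
    have h6 : 15552 ≤ c0 ^ 2 * R := by
      calc (15552:ℝ) ≤ 1 * Z ^ 2 := by nlinarith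
        _ ≤ (c0 ^ 2 * Z) * Z ^ 2 := by gcongr
        _ = c0 ^ 2 * Z ^ 3 := by ring
        _ ≤ c0 ^ 2 * R := by gcongr
    have h7 : (2 * (M:ℝ)) * (3 * (V * D)) ^ 2 = 18 * (V ^ 2 * D ^ 2 * M) := by ring
    have h8 : c0 ^ 2 / 864 * U = (c0 ^ 2 * R) / 864 * (V ^ 2 * D ^ 2 * M) := by rw [hU]; ring
    rw [h7, h8]
    apply mul_le_mul_of_nonneg_right _ (by positivity)
    linarith
  have h5 : ((Finset.Icc (-((M / B : ℕ) : ℤ)) ((M / B : ℕ) : ℤ)).card : ℝ) * H.card * P.card ≤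
      c0 ^ 2 / 864 * U := by
    have h5 : ((Finset.Icc (-((M / B : ℕ) : ℤ)) ((M / B : ℕ) : ℤ)).card : ℝ) * H.card * P.card ≤
        (3 * R) * (2 * M) * (3 * (V * D)) := by
      apply mul_le_mul _ hcnt.hP (Nat.cast_nonneg _) (by positivity)
      exact mul_le_mul hcnt.hT hcnt.hH (Nat.cast_nonneg _) (by positivity)
    refine h5.trans ?_
    have h6 : 15552 ≤ c0 ^ 2 * (V * D) := by
      calc (15552:ℝ) ≤ 1 * 1 * Z := by linarith
        _ ≤ (c0 ^ 2 * Z) * (V * Z) * Z := by gcongr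
        _ = c0 ^ 2 * (V * Z ^ 3) := by ring
        _ ≤ c0 ^ 2 * (V * D) := by gcongr
    have h7 : (3 * R) * (2 * M) * (3 * (V * D)) = 18 * (R * M * (V * D)) := by ring
    have h8 : c0 ^ 2 / 864 * U = (c0 ^ 2 * (V * D)) / 864 * (R * M * (V * D)) := by rw [hU]; ring
    rw [h7, h8]
    apply mul_le_mul_of_nonneg_right _ (by positivity)
    linarith
  have h6 : c0 ^ 2 / 432 * U ≤ Sg := by
    have : c0 ^ 2 / 216 * U = c0 ^ 2 / 432 * U + c0 ^ 2 / 864 * U + c0 ^ 2 / 864 * U := by ring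
    linarith
  -- split into typical and atypical
  set T := Finset.Icc (-((M / B : ℕ) : ℤ)) ((M / B : ℕ) : ℤ) with hT
  set E := Finset.Icc (-((B / W : ℕ) : ℤ)) ((B / W : ℕ) : ℤ) with hE
  set bs : ℤ × (ℤ × ℤ) → ℕ := fun q =>
    (Bset W P q.2.2 (θ q.2.1 - θ (q.2.1 - q.1 * (W * q.2.2)))
        (-(W * q.2.2 * κ q.1)) (8 * C1 * B ^ 2 / M)).card with hbs
  have hsub : Tset W M B H ⊆ T ×ˢ (H ×ˢ E) := by
    unfold Tset
    exact Finset.filter_subset _ _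
  have hat : ∑ q ∈ (Tset W M B H).filter (fun q => ¬ Typ (sprimes w y) W b0 b1 L η q.2.2),
      (bs q : ℝ) ≤ c0 ^ 2 / 864 * U := by
    have g1 : ∑ q ∈ (Tset W M B H).filter (fun q => ¬ Typ (sprimes w y) W b0 b1 L η q.2.2),
        (bs q : ℝ) ≤
        ∑ q ∈ T ×ˢ (H ×ˢ E.filter (fun e' => ¬ Typ (sprimes w y) W b0 b1 L η e')),
          (NN W P q.2.2 : ℝ) := by
      calc _ ≤ ∑ q ∈ (Tset W M B H).filter (fun q => ¬ Typ (sprimes w y) W b0 b1 L η q.2.2),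
            (NN W P q.2.2 : ℝ) := by
            apply Finset.sum_le_sum
            intro q _
            exact_mod_cast Bset_le_NN W P q.2.2 _ _ _
        _ ≤ _ := by
            apply Finset.sum_le_sum_of_subset_of_nonneg
            · intro q hq
              rw [Finset.mem_filter] at hq
              have := hsub hq.1
              simp only [Finset.mem_product, Finset.mem_filter] at this ⊢
              exact ⟨this.1, this.2.1, this.2.2, hq.2⟩
            · intro q _ _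
              exact Nat.cast_nonneg _
    refine g1.trans ?_
    rw [Finset.sum_product]
    simp only [Finset.sum_product]
    rw [Finset.sum_const, Finset.sum_const, nsmul_eq_mul, nsmul_eq_mul]
    have g2 := hcnt.hA (E.filter (fun e' => ¬ Typ (sprimes w y) W b0 b1 L η e'))
      (Finset.filter_subset _ _) (fun e' he' => (Finset.mem_filter.mp he').2)
    have g3 : (0:ℝ) ≤ ∑ e' ∈ E.filter (fun e' => ¬ Typ (sprimes w y) W b0 b1 L η e'),
        (NN W P e' : ℝ) := Finset.sum_nonneg fun _ _ => Nat.cast_nonneg _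
    calc _ ≤ (3 * R) * ((2 * M) * (Xc * (e1 * (V ^ 2 * D ^ 2)))) := by
          apply mul_le_mul hcnt.hT _ (mul_nonneg (Nat.cast_nonneg _) g3) (by positivity)
          exact mul_le_mul hcnt.hH g2 g3 (by positivity)
      _ = 6 * (Xc * e1) * U := by rw [hU]; ring
      _ ≤ c0 ^ 2 / 864 * U := by
          apply mul_le_mul_of_nonneg_right _ hU0.le
          linarith
  have hty : c0 ^ 2 / 864 * U ≤
      ∑ q ∈ (Tset W M B H).filter (fun q => Typ (sprimes w y) W b0 b1 L η q.2.2), (bs q : ℝ) := by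
    have g1 := Finset.sum_filter_add_sum_filter_not (Tset W M B H)
      (fun q => Typ (sprimes w y) W b0 b1 L η q.2.2) (fun q => (bs q : ℝ))
    have g2 : Sg = ∑ q ∈ Tset W M B H, (bs q : ℝ) := rfl
    have : c0 ^ 2 / 432 * U = c0 ^ 2 / 864 * U + c0 ^ 2 / 864 * U := by ring
    linarith
  set δ : ℝ := c0 ^ K / K with hδ
  have hδ0 : 0 ≤ δ := by rw [hδ]; positivity
  have hδ1 : K * δ ≤ c0 ^ 2 := by
    have : K * δ = c0 ^ K := by rw [hδ]; field_simp
    rw [this]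
    exact pow_le_pow_of_le_one hc0.le hc1 (by omega)
  set G := (Tset W M B H).filter (fun q => Typ (sprimes w y) W b0 b1 L η q.2.2 ∧
      δ * (V ^ 2 * D) ≤ (bs q : ℝ)) with hG
  have hsplit : ∑ q ∈ (Tset W M B H).filter (fun q => Typ (sprimes w y) W b0 b1 L η q.2.2),
      (bs q : ℝ) ≤ (G.card : ℝ) * (Cb * (V ^ 2 * D)) +
        ((Tset W M B H).card : ℝ) * (δ * (V ^ 2 * D)) := by
    rw [← Finset.sum_filter_add_sum_filter_not
      ((Tset W M B H).filter (fun q => Typ (sprimes w y) W b0 b1 L η q.2.2))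
      (fun q => δ * (V ^ 2 * D) ≤ (bs q : ℝ))]
    apply add_le_add
    · rw [Finset.filter_filter, ← nsmul_eq_mul, ← Finset.sum_const]
      apply Finset.sum_le_sum
      intro q hq
      rw [Finset.mem_filter] at hq
      exact (by exact_mod_cast Bset_le_NN W P q.2.2 _ _ _ : (bs q : ℝ) ≤ NN W P q.2.2).trans
        (hcnt.hN _ hq.2.1)
    · rw [Finset.filter_filter]
      calc _ ≤ ∑ q ∈ (Tset W M B H).filter (fun q => Typ (sprimes w y) W b0 b1 L η q.2.2 ∧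
              ¬ δ * (V ^ 2 * D) ≤ (bs q : ℝ)), δ * (V ^ 2 * D) := by
            apply Finset.sum_le_sum
            intro q hq
            rw [Finset.mem_filter] at hq
            exact (not_le.mp hq.2.2).le
        _ = (((Tset W M B H).filter (fun q => Typ (sprimes w y) W b0 b1 L η q.2.2 ∧
              ¬ δ * (V ^ 2 * D) ≤ (bs q : ℝ))).card : ℝ) * (δ * (V ^ 2 * D)) := by
            rw [Finset.sum_const, nsmul_eq_mul]
        _ ≤ _ := by
            apply mul_le_mul_of_nonneg_right _ (by positivity)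
            exact_mod_cast Finset.card_filter_le _ _
  have hTc : ((Tset W M B H).card : ℝ) ≤ 18 * (R * M * D) := by
    have g1 : (Tset W M B H).card ≤ T.card * (H.card * E.card) := by
      refine (Finset.card_le_card hsub).trans ?_
      rw [Finset.card_product, Finset.card_product]
    have g2 : ((Tset W M B H).card : ℝ) ≤ (T.card : ℝ) * (H.card * E.card) := by exact_mod_cast g1
    refine g2.trans ?_
    calc (T.card : ℝ) * (H.card * E.card) ≤ (3 * R) * ((2 * M) * (3 * D)) := by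
          apply mul_le_mul hcnt.hT _ (by positivity) (by positivity)
          exact mul_le_mul hcnt.hH hcnt.hE (Nat.cast_nonneg _) (by positivity)
      _ = _ := by ring
  have hTc2 : ((Tset W M B H).card : ℝ) * (δ * (V ^ 2 * D)) ≤ c0 ^ 2 / 1728 * U := by
    calc ((Tset W M B H).card : ℝ) * (δ * (V ^ 2 * D)) ≤ 18 * (R * M * D) * (δ * (V ^ 2 * D)) :=
          mul_le_mul_of_nonneg_right hTc (by positivity)
      _ = 18 * δ * U := by rw [hU]; ring
      _ ≤ c0 ^ 2 / 1728 * U := by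
          apply mul_le_mul_of_nonneg_right _ hU0.le
          have : 31104 * δ ≤ K * δ := mul_le_mul_of_nonneg_right hKr hδ0
          linarith
  have hfin : c0 ^ 2 / 1728 * U ≤ (G.card : ℝ) * (Cb * (V ^ 2 * D)) := by
    have : c0 ^ 2 / 864 * U = c0 ^ 2 / 1728 * U + c0 ^ 2 / 1728 * U := by ring
    linarith
  have hfin2 : c0 ^ 2 / 1728 * (D * R * M) ≤ (G.card : ℝ) * Cb := by
    have g1 : c0 ^ 2 / 1728 * U = c0 ^ 2 / 1728 * (D * R * M) * (V ^ 2 * D) := by rw [hU]; ring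
    have g2 : (G.card : ℝ) * (Cb * (V ^ 2 * D)) = (G.card : ℝ) * Cb * (V ^ 2 * D) := by ring
    rw [g1, g2] at hfin
    exact le_of_mul_le_mul_right hfin (by positivity)
  have hfin3 : δ * (D * R * M) * Cb ≤ (G.card : ℝ) * Cb := by
    refine le_trans ?_ hfin2
    have g1 : δ * (D * R * M) * Cb = (δ * Cb) * (D * R * M) := by ring
    rw [g1]
    apply mul_le_mul_of_nonneg_right _ (by positivity)
    have : 1728 * Cb * δ ≤ K * δ := mul_le_mul_of_nonneg_right hKb hδ0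
    linarith
  exact le_of_mul_le_mul_right hfin3 (by linarith)

end

section
variable {w W y B M : ℕ} {r b0 : ℤ} {P : Finset ℕ} {H : Finset ℤ}

lemma hDL (hW : 0 < W) : (B:ℝ) / W ≤ ((B / W + 3 : ℕ) : ℝ) ∧
    ((B / W + 3 : ℕ) : ℝ) ≤ (B:ℝ) / W + 3 ∧ ((B / W : ℕ) : ℝ) ≤ (B:ℝ) / W := by
  have hW' : (0:ℝ) < W := by exact_mod_cast hW
  have h1 : ((B / W : ℕ) : ℝ) ≤ (B:ℝ) / W := Nat.cast_div_le
  have h2 : B < W * (B / W + 1) := Nat.lt_mul_div_succ B hW
  have h3 : (B:ℝ) < W * (((B / W : ℕ) : ℝ) + 1) := by exact_mod_cast h2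
  have h4 : (B:ℝ) / W < ((B / W : ℕ) : ℝ) + 1 := by
    rw [div_lt_iff₀ hW']; linarith
  push_cast
  refine ⟨by linarith, by linarith, h1⟩

lemma card_Icc_symm (q : ℕ) : ((Finset.Icc (-(q : ℤ)) (q : ℤ)).card : ℝ) = 2 * q + 1 := by
  rw [Int.card_Icc]
  have : ((q:ℤ) + 1 - -(q:ℤ)).toNat = 2 * q + 1 := by omega
  rw [this]; push_cast; ring

open Classical in
lemma mkCnt {K A Ca Cb Cq : ℕ} {Ce Cg c0 e1 Z V D R : ℝ} (hc : Cfg w W y B M r b0 P H)
    (hn : Num K A W y B M c0 e1 Z V D R) (hK : 31104 ≤ K) (hc1 : c0 ≤ 1) (hc0 : 0 < c0)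
    (hCe : 1 ≤ Ce) (hCg : 1 ≤ Cg) (he1 : 0 < e1) (hKe : K * e1 ≤ c0 ^ K)
    (hCaK : Ca ≤ K) (hCbK : Cb ≤ K) (hCqK : 2 * Cq + 1 ≤ K) (hCq1 : 1 ≤ Cq)
    (hV : V = VV (sprimes w y)) (hV0 : 0 < V)
    (ea eb eq : ℝ) (hea : ea ≤ e1) (heb : eb ≤ e1) (heq : eq ≤ e1 ^ 2)
    (hcorr1 : ∀ (α β : ℤ), (∀ p ∈ sprimes w y, ¬ (p : ℤ) ∣ α) → ∀ (a b : ℤ), a ≤ b →
      ∑ x ∈ Finset.Ico a b, rho (sprimes w y) (α * x + β) ≤
      (b - a) * (1 + Ca * ea) + Ca * (y : ℝ) ^ (A + 1))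
    (hcorr2 : ∀ (α β β' : ℤ), (∀ p ∈ sprimes w y, ¬ (p : ℤ) ∣ α) → ∀ (a b : ℤ), a ≤ b →
      ∑ x ∈ Finset.Ico a b, rho (sprimes w y) (α * x + β) * rho (sprimes w y) (α * x + β') ≤
      (b - a) * (1 + Cb * eb + 2 * Cb * Ers (9 / 10) (sprimes w y) (β' - β)) +
        Cb * (y : ℝ) ^ (A + 2))
    (hqt : y ^ (Cq * A) ≤ B / W + 3 →
      (((Finset.Ioo (-((B / W + 3 : ℕ) : ℤ)) ((B / W + 3 : ℕ) : ℤ)).filter
      fun e' => ¬ Typ (sprimes w y) W b0 (((B / W : ℕ) : ℤ) - 1) (B / W + 3) (Cq * eq) e').card : ℝ)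
        ≤ Cq * eq * ((B / W + 3 : ℕ) : ℝ))
    (hers1 : ∀ m : ℤ, Ers (9 / 10) (sprimes w y) m ^ 2 ≤ Ce * Ers (3 / 4) (sprimes w y) m)
    (hers2 : ∑ m ∈ Finset.Ioo (-((B / W + 3 : ℕ) : ℤ)) ((B / W + 3 : ℕ) : ℤ),
      Ers (3 / 4) (sprimes w y) m ≤ Cg * (2 * ((B / W + 3 : ℕ) : ℝ) + y)) :
    Cnt w W y B M b0 P H (2 * (3 + 2 * Cb)) (4 * (3 * Cq + Cb * (3 * Ce * Cg + Cq)))
      (K * e1) V D R e1 (((B / W : ℕ) : ℤ) - 1) (B / W + 3) := by
  obtain ⟨hZK, hyZ, hZ, hc0Z, hVZ, hD, hRR, hDZ, hRZ, hW0, hB0, hM0⟩ := hn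
  have hKr : (31104:ℝ) ≤ K := by exact_mod_cast hK
  have hZbig : (31104:ℝ) ≤ Z := hKr.trans hZK
  have hZ1 : (1:ℝ) ≤ Z := by linarith
  have hZ0 : (0:ℝ) < Z := by linarith
  have hDbig : Z ^ 5 ≤ D := by
    refine le_trans ?_ hDZ
    exact pow_le_pow_right₀ hZ1 (by omega)
  have hRbig : Z ^ 5 ≤ R := by
    refine le_trans ?_ hRZ
    exact pow_le_pow_right₀ hZ1 (by omega)
  have hZ5 : (6:ℝ) + Z ^ 4 ≤ Z ^ 5 := by
    have : (1:ℝ) ≤ Z ^ 4 := one_le_pow₀ hZ1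
    nlinarith
  obtain ⟨hL1, hL2, hL3⟩ := hDL (B := B) hc.isW.1
  rw [← hD] at hL1 hL2 hL3
  set L : ℕ := B / W + 3 with hL
  have hLr2 : (L:ℝ) ≤ 2 * D := by
    have : (0:ℝ) ≤ Z ^ 4 := by positivity
    linarith
  have hD0 : 0 < D := lt_of_lt_of_le (by positivity) hDbig
  have hL0 : (0:ℝ) < L := lt_of_lt_of_le hD0 hL1
  have hcK : c0 ^ K ≤ 1 := pow_le_one₀ hc0.le hc1
  have hCaZ : (Ca:ℝ) ≤ Z := (by exact_mod_cast hCaK : (Ca:ℝ) ≤ K).trans hZK
  have hCbZ : (Cb:ℝ) ≤ Z := (by exact_mod_cast hCbK : (Cb:ℝ) ≤ K).trans hZK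
  have hCa0 : (0:ℝ) ≤ Ca := Nat.cast_nonneg _
  have hCb0 : (0:ℝ) ≤ Cb := Nat.cast_nonneg _
  have hCq0 : (0:ℝ) ≤ Cq := Nat.cast_nonneg _
  have hy0 : (0:ℝ) ≤ y := Nat.cast_nonneg _
  have hae : Ca * ea ≤ 1 := by
    calc Ca * ea ≤ Ca * e1 := mul_le_mul_of_nonneg_left hea hCa0
      _ ≤ K * e1 := mul_le_mul_of_nonneg_right (by exact_mod_cast hCaK) he1.le
      _ ≤ 1 := hKe.trans hcK
  have hbe : Cb * eb ≤ 1 := by
    calc Cb * eb ≤ Cb * e1 := mul_le_mul_of_nonneg_left heb hCb0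
      _ ≤ K * e1 := mul_le_mul_of_nonneg_right (by exact_mod_cast hCbK) he1.le
      _ ≤ 1 := hKe.trans hcK
  have he11 : e1 ≤ 1 := by
    have : e1 ≤ K * e1 := by nlinarith
    linarith
  have hya1 : Ca * (y:ℝ) ^ (A + 1) ≤ Z ^ 4 := by
    calc Ca * (y:ℝ) ^ (A + 1) = Ca * (Z * y) := by rw [pow_succ, hZ]
      _ ≤ Z * (Z * Z) := by gcongr
      _ = Z ^ 3 := by ring
      _ ≤ Z ^ 4 := pow_le_pow_right₀ hZ1 (by norm_num)
  have hyb1 : Cb * (y:ℝ) ^ (A + 2) ≤ D := by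
    calc Cb * (y:ℝ) ^ (A + 2) = Cb * (Z * y ^ 2) := by rw [pow_add, hZ]
      _ ≤ Z * (Z * Z ^ 2) := by gcongr
      _ = Z ^ 4 := by ring
      _ ≤ Z ^ 5 := pow_le_pow_right₀ hZ1 (by norm_num)
      _ ≤ D := hDbig
  have hZ14 : Z ≤ Z ^ 4 := le_self_pow₀ hZ1 (by norm_num)
  have hyD : (y:ℝ) < D := by linarith
  have hyB : y < B := by
    have h1 : (y:ℝ) < B := by
      have h2 : D ≤ B := by
        rw [hD]
        exact div_le_self hB0.le (by exact_mod_cast hc.isW.1)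
      linarith
    exact_mod_cast h1
  have hWnd := hc.isW.not_dvd (pset_sprimes w y)
  have hVi : 0 < V⁻¹ := inv_pos.mpr hV0
  set x0 : ℤ := ((B / W : ℕ) : ℤ) - 1 with hx0
  have hint : x0 ≤ x0 + (L:ℤ) := le_add_of_nonneg_right (Int.natCast_nonneg _)
  have hintr : (((x0 + (L:ℤ) : ℤ) : ℝ) - x0) = L := by push_cast; ring
  have hNN : ∀ e' : ℤ, (NN W P e' : ℝ) ≤
      V ^ 2 * (L * (3 + 2 * Cb * Ers (9 / 10) (sprimes w y) e')) := by
    intro e'
    have h1 := NN_mul_le hc hyB e'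
    rw [← hV] at h1
    have h2 := hcorr2 W b0 (b0 + W * e') hWnd x0 (x0 + L) hint
    rw [hintr] at h2
    have h3 : b0 + (W:ℤ) * e' - b0 = W * e' := by ring
    rw [h3, ers_mul (pset_sprimes w y).prime _ _ _ hWnd] at h2
    have h4 := h1.trans h2
    have hE0 := Ers_nonneg (9 / 10) (sprimes w y) e'
    have h5 : (L:ℝ) * (1 + Cb * eb + 2 * Cb * Ers (9 / 10) (sprimes w y) e') +
        Cb * (y:ℝ) ^ (A + 2) ≤ L * (3 + 2 * Cb * Ers (9 / 10) (sprimes w y) e') := by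
      have h8 : (L:ℝ) * (Cb * eb) ≤ L * 1 := mul_le_mul_of_nonneg_left hbe hL0.le
      have h9 : (L:ℝ) * (1 + Cb * eb + 2 * Cb * Ers (9 / 10) (sprimes w y) e') =
        L + L * (Cb * eb) + L * (2 * Cb * Ers (9 / 10) (sprimes w y) e') := by ring
      have h10 : (L:ℝ) * (3 + 2 * Cb * Ers (9 / 10) (sprimes w y) e') =
        3 * L + L * (2 * Cb * Ers (9 / 10) (sprimes w y) e') := by ring
      linarith
    have h6 := h4.trans h5
    have h7 : (NN W P e' : ℝ) = V ^ 2 * ((NN W P e' : ℝ) * (V⁻¹) ^ 2) := by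
      field_simp
    rw [h7]
    exact mul_le_mul_of_nonneg_left h6 (by positivity)
  refine ⟨?_, ?_, ?_, ?_, ?_, ?_⟩
  · have h1 := card_mul_le hc hyB
    rw [← hV] at h1
    have h2 := hcorr1 W b0 hWnd x0 (x0 + L) hint
    rw [hintr] at h2
    have h3 := h1.trans h2
    have h5 : (L:ℝ) * (1 + Ca * ea) + Ca * (y:ℝ) ^ (A + 1) ≤ 3 * D := by
      have h6 : (L:ℝ) * (Ca * ea) ≤ L * 1 := mul_le_mul_of_nonneg_left hae hL0.le
      have h7 : (L:ℝ) * (1 + Ca * ea) = L + L * (Ca * ea) := by ring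
      linarith
    have h6 := h3.trans h5
    have h7 : (P.card : ℝ) = V * ((P.card : ℝ) * V⁻¹) := by field_simp
    rw [h7]
    calc V * ((P.card : ℝ) * V⁻¹) ≤ V * (3 * D) := mul_le_mul_of_nonneg_left h6 hV0.le
      _ = _ := by ring
  · have h1 : H.card ≤ (Finset.Ioo (-(M:ℤ)) M).card := Finset.card_le_card hc.hH
    rw [Int.card_Ioo] at h1
    have h2 : H.card ≤ 2 * M := by omega
    exact_mod_cast h2
  · rw [card_Icc_symm]
    have h1 : ((M / B : ℕ) : ℝ) ≤ (M:ℝ) / B := Nat.cast_div_le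
    rw [← hRR] at h1
    have : (1:ℝ) ≤ R := by linarith
    linarith
  · rw [card_Icc_symm]
    have : (1:ℝ) ≤ D := by linarith
    linarith
  · intro e' ht
    refine (hNN e').trans ?_
    have h1 := ht.1
    have h2 : K * e1 ≤ 1 := hKe.trans hcK
    have h3 : (L:ℝ) * (3 + 2 * Cb * Ers (9 / 10) (sprimes w y) e') ≤ (2 * D) * (3 + 2 * Cb) := by
      apply mul_le_mul hLr2 _ (by have := Ers_nonneg (9 / 10) (sprimes w y) e'; positivity)
        (by positivity)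
      have : 2 * (Cb:ℝ) * Ers (9 / 10) (sprimes w y) e' ≤ 2 * Cb * 1 :=
        mul_le_mul_of_nonneg_left (h1.trans h2) (by positivity)
      linarith
    calc V ^ 2 * (L * (3 + 2 * Cb * Ers (9 / 10) (sprimes w y) e'))
        ≤ V ^ 2 * ((2 * D) * (3 + 2 * Cb)) := mul_le_mul_of_nonneg_left h3 (by positivity)
      _ = _ := by ring
  · intro s hs hbad
    have hq : y ^ (Cq * A) ≤ L := by
      have h1 : (y:ℝ) ^ (Cq * A) ≤ L := by
        calc (y:ℝ) ^ (Cq * A) = Z ^ Cq := by rw [hZ, ← pow_mul, mul_comm]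
          _ ≤ Z ^ (K - 1) := pow_le_pow_right₀ hZ1 (by omega)
          _ ≤ D := hDZ
          _ ≤ L := hL1
      exact_mod_cast h1
    have h1 := hqt hq
    set bad : ℤ → Prop := fun e' => ¬ Typ (sprimes w y) W b0 x0 L (K * e1) e' with hbd
    have hE1 : Finset.Icc (-((B / W : ℕ) : ℤ)) ((B / W : ℕ) : ℤ) ⊆
        Finset.Ioo (-(L : ℤ)) (L : ℤ) := by
      intro m hm
      rw [Finset.mem_Icc] at hm
      rw [Finset.mem_Ioo, hL]
      push_cast
      constructor <;> omega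
    have hs2 : s ⊆ (Finset.Ioo (-(L : ℤ)) (L : ℤ)).filter bad := by
      intro m hm
      rw [Finset.mem_filter]
      exact ⟨hE1 (hs hm), hbad m hm⟩
    have hbc : (((Finset.Ioo (-(L : ℤ)) (L : ℤ)).filter bad).card : ℝ) ≤ Cq * e1 ^ 2 * L := by
      refine le_trans ?_ (h1.trans ?_)
      · have : ((Finset.Ioo (-(L : ℤ)) (L : ℤ)).filter bad) ⊆
            ((Finset.Ioo (-(L : ℤ)) (L : ℤ)).filter
              fun e' => ¬ Typ (sprimes w y) W b0 x0 L (Cq * eq) e') := by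
          intro m hm
          rw [Finset.mem_filter] at hm ⊢
          refine ⟨hm.1, fun ht => hm.2 (typ_mono ?_ ht)⟩
          have h2 : (Cq:ℝ) ≤ K := by exact_mod_cast (by omega : Cq ≤ K)
          calc Cq * eq ≤ Cq * e1 ^ 2 := mul_le_mul_of_nonneg_left heq hCq0
            _ ≤ Cq * e1 := by
                apply mul_le_mul_of_nonneg_left _ hCq0
                nlinarith
            _ ≤ K * e1 := mul_le_mul_of_nonneg_right h2 he1.le
        exact_mod_cast Finset.card_le_card this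
      · apply mul_le_mul_of_nonneg_right _ hL0.le
        exact mul_le_mul_of_nonneg_left heq hCq0
    have h2 : ∑ m ∈ Finset.Ioo (-(L:ℤ)) L, Ers (3 / 4) (sprimes w y) m ≤ Cg * (3 * L) := by
      refine hers2.trans ?_
      apply mul_le_mul_of_nonneg_left _ (by linarith)
      linarith
    have h3 := sum_atyp_ers (sprimes w y) L e1 Ce Cg Cq he1 (by linarith) hers1 h2
      bad hbc
    calc ∑ e' ∈ s, (NN W P e' : ℝ) ≤
          ∑ e' ∈ s, V ^ 2 * (L * (3 + 2 * Cb * Ers (9 / 10) (sprimes w y) e')) :=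
          Finset.sum_le_sum fun e' _ => hNN e'
      _ ≤ ∑ e' ∈ (Finset.Ioo (-(L : ℤ)) (L : ℤ)).filter bad,
          V ^ 2 * (L * (3 + 2 * Cb * Ers (9 / 10) (sprimes w y) e')) := by
          apply Finset.sum_le_sum_of_subset_of_nonneg hs2
          intro m _ _
          have := Ers_nonneg (9 / 10) (sprimes w y) m
          positivity
      _ = V ^ 2 * L * (3 * (((Finset.Ioo (-(L : ℤ)) (L : ℤ)).filter bad).card : ℝ) +
          2 * Cb * ∑ m ∈ (Finset.Ioo (-(L : ℤ)) (L : ℤ)).filter bad,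
            Ers (9 / 10) (sprimes w y) m) := by
          have : ∀ m : ℤ, V ^ 2 * (L * (3 + 2 * Cb * Ers (9 / 10) (sprimes w y) m)) =
              V ^ 2 * L * 3 + (V ^ 2 * L * (2 * Cb)) * Ers (9 / 10) (sprimes w y) m := by
            intro m; ring
          rw [Finset.sum_congr rfl (fun m _ => this m), Finset.sum_add_distrib, Finset.sum_const,
            nsmul_eq_mul, ← Finset.mul_sum]
          ring
      _ ≤ V ^ 2 * L * (3 * (Cq * e1 * L) + 2 * Cb * ((3 * Ce * Cg + Cq) / 2 * e1 * L)) := by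
          apply mul_le_mul_of_nonneg_left _ (by positivity)
          apply add_le_add
          · apply mul_le_mul_of_nonneg_left _ (by norm_num)
            refine hbc.trans ?_
            apply mul_le_mul_of_nonneg_right _ hL0.le
            apply mul_le_mul_of_nonneg_left _ hCq0
            nlinarith
          · exact mul_le_mul_of_nonneg_left h3 (by positivity)
      _ = (3 * Cq + Cb * (3 * Ce * Cg + Cq)) * (e1 * (V ^ 2 * L ^ 2)) := by ring
      _ ≤ (3 * Cq + Cb * (3 * Ce * Cg + Cq)) * (e1 * (V ^ 2 * (2 * D) ^ 2)) := by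
          gcongr
      _ = _ := by ring

end

end CHRaux

open CHRaux

open Classical in
/-- Chunk CHR (cherries). Write `V = VV S`. `|P| ≤ 3 V B / W` (`corr0 1`), `|H| ≤ 2 M`. Fix the best
`(c, h2)` and put `κ_t = c (θ h2 - θ (h2 - c t))`: the set `G` of `(b, t, h)` with
`h, h - t b ∈ H`, `nr (b (θ h - θ (h - t b)) - κ_t) ≤ C1 B / M` has `≥ c1 (V B / W) (M / B) M`
elements. Cauchy-Schwarz over `(t, h)`: `≥ c1' (V B / W)^2 (M / B) M` quadruples `(t, h, b, b')`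
with `(b, t, h), (b', t, h) ∈ G`; remove `b = b'` and `t = 0` (few: `V B / W` and `M / B` are large).
Multiply the relation for `b` by `b'`, the one for `b'` by `b`, subtract: with `h1 = h - t b`,
`e' = (b' - b) / W`: `nr (b b' (θ h1 - θ (h1 - t W e')) + W e' κ_t) ≤ 8 C1 B^2 / M`, and
`h1, h1 - t W e' ∈ H`. For each `(t, h1, e')` the number of such `b` is at most
`V^2 ∑_x ρ(b0+Wx) ρ(b0+W(x+e')) ≤ V^2 (B/W) (3 + C Ers e')` (`corr0 2`); triples with atypical `e'`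
contribute little by `qt` (Cauchy-Schwarz and `ers_pow_le`), so many triples with typical `e'`
have at least `c2 V^2 B / W` such `b`. -/
theorem chr : ∃ K : ℕ, 1 ≤ K ∧ ∀ (c0 C1 : ℝ) (A w W y B M : ℕ) (r b0 : ℤ) (P : Finset ℕ)
    (H : Finset ℤ) (θ : ℤ → ℝ), 0 < c0 → c0 ≤ 1 → 1 ≤ C1 → K ≤ A → K ≤ w → K * er K A w ≤ c0 ^ K →
    Cfg w W y B M r b0 P H → y ^ (K * A) ≤ B →
    c0 * (VV (sprimes w y) * B / W) ^ 2 * (M / B) * M ^ 2 ≤ ((Rset M B P H θ C1).card : ℝ) →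
    ∃ κt : ℤ → ℝ, c0 ^ K / K * M ^ 2 / W ≤ (((Tset W M B H).filter fun q =>
      Typ (sprimes w y) W b0 ((B / W : ℕ) - 1) (B / W + 3) (K * er K A w) q.2.2 ∧
      c0 ^ K / K * VV (sprimes w y) ^ 2 * B / W ≤
        (Bset W P q.2.2 (θ q.2.1 - θ (q.2.1 - q.1 * (W * q.2.2))) (-(W * q.2.2 * κt q.1))
          (8 * C1 * B ^ 2 / M)).card).card : ℝ) := by
  obtain ⟨Ca, hCa1, hcorr1⟩ := corr1
  obtain ⟨Cb, hCb1, hcorr2⟩ := corr2
  obtain ⟨Cq, hCq1, hqt⟩ := qt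
  obtain ⟨Ce, hCe1, hers1⟩ := ers_sq_le
  obtain ⟨Cg, hCg1, hers2⟩ := ers_avg (3 / 4) (by norm_num) (by norm_num)
  set Xc : ℝ := 4 * (3 * Cq + Cb * (3 * Ce * Cg + Cq)) with hXc
  set K : ℕ := 31104 + Ca + 1728 * (2 * (3 + 2 * Cb)) + (2 * Cq + 1) + ⌈5184 * Xc⌉₊ with hKdef
  refine ⟨K, by omega, ?_⟩
  intro c0 C1 A w W y B M r b0 P H θ hc0 hc1 hC1 hKA hKw hKe hc hyB hR
  have hy4 : 4 ≤ y := by
    have := hc.Wy
    have h1 : 1 ≤ W ^ 4 := Nat.one_le_pow _ _ hc.isW.1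
    omega
  have hw1 : 1 ≤ w := by omega
  have he0 : 0 < er K A w := by
    unfold er
    have h1 : (0:ℝ) < (2:ℝ) ^ (-(A:ℝ) / K) := Real.rpow_pos_of_pos (by norm_num) _
    have h2 : (0:ℝ) ≤ (w:ℝ) ^ (-(1:ℝ) / K) := Real.rpow_nonneg (Nat.cast_nonneg _) _
    linarith
  have hn := mkNum hc (by omega) hc0 hc1 hKA hKe hyB
  have hV0 : 0 < VV (sprimes w y) := VV_pos (pset_sprimes w y).prime
  have hps := pset_sprimes w y
  have hcnt := mkCnt (Ca := Ca) (Cb := Cb) (Cq := Cq) (Ce := Ce) (Cg := Cg) hc hn (by omega) hc1 hc0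
    hCe1 hCg1 he0 hKe (by omega) (by omega) (by omega) hCq1 rfl hV0
    (er Ca A w) (er Cb A w) (er Cq A w) (er_mono hCa1 (by omega) hw1) (er_mono hCb1 (by omega) hw1)
    ((er_sq hCq1).trans (pow_le_pow_left₀ (er_nonneg _ _ _) (er_mono (by omega) (by omega) hw1) 2))
    (hcorr1 A w y _ (by omega) (by omega) (by omega) hps)
    (hcorr2 A w y _ (by omega) (by omega) (by omega) hps)
    (fun h => hqt A w y W (B / W + 3) _ (by omega) (by omega) (by omega) hps hc.isW h b0 _)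
    (fun m => hers1 w y _ m hps) ?_
  · have hXc0 : 5184 * Xc ≤ K := by
      have h1 := Nat.le_ceil (5184 * Xc)
      have h2 : ((⌈5184 * Xc⌉₊ : ℕ) : ℝ) ≤ K := by exact_mod_cast (by omega : ⌈5184 * Xc⌉₊ ≤ K)
      linarith
    have hfin := final_step (Cb := 2 * (3 + 2 * (Cb:ℝ))) (Xc := Xc) (θ := θ) (C1 := C1) hc
      (by linarith) hc0 hc1 (by omega) hn hV0
      (by have : (0:ℝ) ≤ Cb := Nat.cast_nonneg _; linarith) hcnt ?_ ?_ ?_
    · obtain ⟨κ, hκ⟩ := hfin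
      refine ⟨κ, ?_⟩
      have e1 : c0 ^ K / K * M ^ 2 / W = c0 ^ K / K * ((B:ℝ) / W * ((M:ℝ) / B) * M) := by
        have := hn.hB0
        have := hn.hW0
        field_simp
      have e2 : c0 ^ K / K * VV (sprimes w y) ^ 2 * B / W =
          c0 ^ K / K * (VV (sprimes w y) ^ 2 * ((B:ℝ) / W)) := by ring
      rw [e1, e2]
      exact hκ
    · have h1 : 5184 * Xc * er K A w ≤ K * er K A w := mul_le_mul_of_nonneg_right hXc0 he0.le
      have h2 : c0 ^ K ≤ c0 ^ 2 := pow_le_pow_of_le_one hc0.le hc1 (by omega)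
      linarith
    · have : 1728 * (2 * (3 + 2 * Cb)) ≤ K := by omega
      exact_mod_cast this
    · refine le_trans (le_of_eq ?_) hR
      ring
  · generalize hL : B / W + 3 = L
    have hL1 : 1 ≤ L := by
      rw [← hL]
      exact le_trans (by norm_num : 1 ≤ 3) (Nat.le_add_left 3 _)
    have hL1z : (1:ℤ) ≤ (L:ℤ) := by exact_mod_cast hL1
    have h1 := hers2 w y _ hw1 hps 1 0 (by
      intro p hp h
      have h2 := (hps p hp).1.two_le
      have := Int.le_of_dvd (by norm_num) h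
      omega) (-(L : ℤ) + 1) (L : ℤ) (by omega)
    have e1 : Finset.Ioo (-(L : ℤ)) (L : ℤ) = Finset.Ico (-(L : ℤ) + 1) (L : ℤ) := by
      ext m
      rw [Finset.mem_Ioo, Finset.mem_Ico]
      constructor <;> intro h <;> omega
    rw [e1]
    simp only [one_mul, add_zero] at h1
    refine h1.trans ?_
    apply mul_le_mul_of_nonneg_left _ (by linarith)
    have h2 : (w:ℝ) ^ (-(3 / 4 : ℝ)) ≤ 1 :=
      Real.rpow_le_one_of_one_le_of_nonpos (by exact_mod_cast hw1) (by norm_num)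
    have h3 : (0:ℝ) ≤ (w:ℝ) ^ (-(3 / 4 : ℝ)) := Real.rpow_nonneg (Nat.cast_nonneg _) _
    have hL1r : (1:ℝ) ≤ L := by exact_mod_cast hL1
    have e2 : ((L:ℤ):ℝ) - ((-(L:ℤ) + 1 : ℤ) : ℝ) = 2 * L - 1 := by push_cast; ring
    rw [e2]
    have h5 : (2 * (L:ℝ) - 1) * (w:ℝ) ^ (-(3 / 4 : ℝ)) ≤ (2 * (L:ℝ) - 1) * 1 :=
      mul_le_mul_of_nonneg_left h2 (by linarith)
    linarith

end Pool.Agent.Lib.H18GB
end
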