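import Pool.Agent.Lib.H1M.RV.M010
import Pool.Agent.Lib.H1M.RV.M015
import Pool.Agent.Lib.H1M.RV.M019

/-! Merged copies (to shorten the build) of Lib.H18GB.QC. -/

-- from Lib.H18GB.QC
section

/-!
# Project GB: QC
-/

namespace Pool.Agent.Lib.H18GB

open Finset Pool.Agent.Lib.Sieve

/-! ### Auxiliary lemmas for QC -/

private theorem qc_nr_add_int (x : ℝ) (n : ℤ) : nr (x + n) = nr x := by
  unfold nr
  rw [round_add_intCast]
  push_cast
  congr 1
  ring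

private theorem qc_card_le {α β : Type*} [DecidableEq β] (s : Finset α) (f : α → β) (n : ℝ)
    (hn : ∀ a ∈ s.image f, ((s.filter (fun x => f x = a)).card : ℝ) ≤ n) :
    (s.card : ℝ) ≤ (s.image f).card * n := by
  rw [Finset.card_eq_sum_card_image f s]
  push_cast
  calc _ ≤ ∑ _a ∈ s.image f, n := Finset.sum_le_sum hn
    _ = _ := by rw [Finset.sum_const, nsmul_eq_mul]

/-- a set of integers of diameter `≤ D` has at most `D + 1` elements -/
private theorem qc_card_diam (s : Finset ℤ) (D : ℝ) (hD : 0 ≤ D)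
    (h : ∀ a ∈ s, ∀ b ∈ s, |(a : ℝ) - b| ≤ D) : (s.card : ℝ) ≤ D + 1 := by
  rcases s.eq_empty_or_nonempty with rfl | hs
  · simp; linarith
  · have h1 : s ⊆ Finset.Icc (s.min' hs) (s.max' hs) := fun x hx =>
      Finset.mem_Icc.2 ⟨s.min'_le x hx, s.le_max' x hx⟩
    have h2 := Finset.card_le_card h1
    rw [Int.card_Icc] at h2
    have h3 := h _ (s.max'_mem hs) _ (s.min'_mem hs)
    have h4 : s.min' hs ≤ s.max' hs := s.min'_le _ (s.max'_mem hs)
    have h5 : (((s.max' hs + 1 - s.min' hs).toNat : ℤ) : ℝ) = (s.max' hs : ℝ) + 1 - s.min' hs := by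
      rw [Int.toNat_of_nonneg (by linarith)]
      push_cast; ring
    have h6 : (s.card : ℝ) ≤ (((s.max' hs + 1 - s.min' hs).toNat : ℤ) : ℝ) := by
      rw [Int.cast_natCast]
      exact_mod_cast h2
    rw [h5] at h6
    have h7 := le_abs_self ((s.max' hs : ℝ) - s.min' hs)
    linarith

private theorem qc_rough {w y b : ℕ} (hb : b.Prime) (hy : y < b) : Rgh (sprimes w y) (b : ℤ) := by
  intro p hp hd
  obtain ⟨h1, _, h3⟩ := (pset_sprimes w y) p hp
  have h4 : p ∣ b := Int.natCast_dvd_natCast.mp hd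
  rcases (Nat.dvd_prime hb).1 h4 with h5 | h5
  · exact h1.one_lt.ne' h5
  · omega

private theorem qc_rho {S : Finset ℕ} {v : ℤ} (h : Rgh S v) : rho S v = (VV S)⁻¹ := by
  unfold rho; rw [if_pos h]

/-- counting rough pairs in a progression -/
private theorem qc_count {Cc : ℕ}
    (hcorr : ∀ (A w z : ℕ) (S : Finset ℕ), Cc ≤ A → Cc ≤ w → 2 ≤ z →
    PSet w z S → ∀ (α β : Fin 2 → ℤ), (∀ p ∈ S, ∀ i, ¬ (p : ℤ) ∣ α i) →
    ∀ (a b : ℤ), a ≤ b →
    |∑ x ∈ Finset.Ico a b, ∏ i : Fin 2, rho S (α i * x + β i) - (b - a)| ≤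
      (b - a) * (Cc * er Cc A w +
        Cc * (Ers (9 / 10) S (disc α β 0 1) + Ers (9 / 10) S (disc α β 1 0)))
        + Cc * (z : ℝ) ^ (A + 2))
    {A w W y q : ℕ} (hA : Cc ≤ A) (hw : Cc ≤ w) (hw1 : 1 ≤ w) (hy : 2 ≤ y) (hW : IsW w W) (hq : 1 ≤ q)
    (hqw : q ≤ w) {e' c : ℤ} {η : ℝ} (he : Ers (9 / 10) (sprimes w y) e' ≤ η) (hη : η ≤ 1)
    (F : Finset ℤ) (hF : ∀ x ∈ F, Rgh (sprimes w y) ((q * W ^ 2 : ℕ) * x + c) ∧
      Rgh (sprimes w y) ((q * W ^ 2 : ℕ) * x + (c + W * e'))) {l : ℝ} (hl : 0 ≤ l)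
    (hd : ∀ a ∈ F, ∀ b ∈ F, |(a : ℝ) - b| ≤ l) :
    (F.card : ℝ) ≤ VV (sprimes w y) ^ 2 * ((l + 1) * (1 + 4 * Cc) + Cc * (y : ℝ) ^ (A + 2)) := by
  classical
  set S := sprimes w y with hS
  have hPS : PSet w y S := pset_sprimes w y
  have hV := VV_pos hPS.prime
  rcases F.eq_empty_or_nonempty with rfl | hne
  · simp only [Finset.card_empty, Nat.cast_zero]
    positivity
  · have hmm : F.min' hne ≤ F.max' hne := F.min'_le _ (F.max'_mem hne)
    have hsub : F ⊆ Finset.Ico (F.min' hne) (F.max' hne + 1) := fun x hx =>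
      Finset.mem_Ico.2 ⟨F.min'_le x hx, Int.lt_add_one_iff.2 (F.le_max' x hx)⟩
    have hlen : ((F.max' hne + 1 : ℤ) : ℝ) - (F.min' hne : ℤ) ≤ l + 1 := by
      have h3 := hd _ (F.max'_mem hne) _ (F.min'_mem hne)
      have h7 := le_abs_self ((F.max' hne : ℝ) - F.min' hne)
      push_cast
      linarith
    have hlen0 : 0 ≤ ((F.max' hne + 1 : ℤ) : ℝ) - (F.min' hne : ℤ) := by
      have : (F.min' hne : ℝ) ≤ F.max' hne := by exact_mod_cast hmm
      push_cast; linarith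
    have hpq : ∀ p ∈ S, ¬ (p : ℤ) ∣ ((q * W ^ 2 : ℕ) : ℤ) := by
      intro p hp hdv
      obtain ⟨h1, h2, -⟩ := hPS p hp
      have h3 : p ∣ q * W ^ 2 := Int.natCast_dvd_natCast.mp hdv
      rcases (Nat.Prime.dvd_mul h1).1 h3 with h4 | h4
      · have := Nat.le_of_dvd hq h4
        omega
      · have := (hW.2 p h1).1 (h1.dvd_of_dvd_pow h4)
        omega
    have hE : ∀ m : ℤ, (∀ p ∈ S, (p : ℤ) ∣ m → (p : ℤ) ∣ e') → Ers (9 / 10) S m ≤ η := by
      intro m hm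
      refine le_trans ?_ he
      unfold Ers
      refine Finset.sum_le_sum_of_subset_of_nonneg ?_ fun _ _ _ => Real.rpow_nonneg (Nat.cast_nonneg _) _
      intro p hp
      rw [Finset.mem_filter] at hp ⊢
      exact ⟨hp.1, hm p hp.1 hp.2⟩
    have hdvd : ∀ p ∈ S, ∀ m : ℤ, (p : ℤ) ∣ ((q * W ^ 2 : ℕ) : ℤ) * (W * m) → (p : ℤ) ∣ m := by
      intro p hp m hdv
      have hpp : Prime (p : ℤ) := Nat.prime_iff_prime_int.mp (hPS p hp).1
      rcases hpp.dvd_or_dvd hdv with h4 | h4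
      · exact absurd h4 (hpq p hp)
      · rcases hpp.dvd_or_dvd h4 with h5 | h5
        · exact absurd h5 (hW.not_dvd hPS p hp)
        · exact h5
    have hmain := hcorr A w y S hA hw hy hPS (fun _ => ((q * W ^ 2 : ℕ) : ℤ)) ![c, c + W * e']
      (fun p hp _ => hpq p hp) (F.min' hne) (F.max' hne + 1) (by linarith)
    have h01 : Ers (9 / 10) S (disc (fun _ : Fin 2 => ((q * W ^ 2 : ℕ) : ℤ)) ![c, c + W * e'] 0 1) ≤ η := by
      apply hE
      intro p hp hdv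
      apply hdvd p hp
      have : disc (fun _ : Fin 2 => ((q * W ^ 2 : ℕ) : ℤ)) ![c, c + W * e'] 0 1 =
          ((q * W ^ 2 : ℕ) : ℤ) * (W * e') := by
        simp only [disc, Matrix.cons_val_zero, Matrix.cons_val_one]
        ring
      rwa [this] at hdv
    have h10 : Ers (9 / 10) S (disc (fun _ : Fin 2 => ((q * W ^ 2 : ℕ) : ℤ)) ![c, c + W * e'] 1 0) ≤ η := by
      apply hE
      intro p hp hdv
      apply hdvd p hp
      have : disc (fun _ : Fin 2 => ((q * W ^ 2 : ℕ) : ℤ)) ![c, c + W * e'] 1 0 =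
          -(((q * W ^ 2 : ℕ) : ℤ) * (W * e')) := by
        simp only [disc, Matrix.cons_val_zero, Matrix.cons_val_one]
        ring
      rw [this, dvd_neg] at hdv
      exact hdv
    have her : er Cc A w ≤ 2 := by
      unfold er
      have h1 : (2 : ℝ) ^ (-(A : ℝ) / Cc) ≤ 1 := by
        apply Real.rpow_le_one_of_one_le_of_nonpos (by norm_num)
        exact div_nonpos_of_nonpos_of_nonneg (by simp) (Nat.cast_nonneg _)
      have h2 : (w : ℝ) ^ (-(1 : ℝ) / Cc) ≤ 1 := by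
        apply Real.rpow_le_one_of_one_le_of_nonpos (by exact_mod_cast hw1)
        exact div_nonpos_of_nonpos_of_nonneg (by norm_num) (Nat.cast_nonneg _)
      linarith
    have hup := (abs_le.1 hmain).2
    have hlow : (F.card : ℝ) * ((VV S)⁻¹) ^ 2 ≤
        ∑ x ∈ Finset.Ico (F.min' hne) (F.max' hne + 1),
          ∏ i : Fin 2, rho S (((q * W ^ 2 : ℕ) : ℤ) * x + ![c, c + W * e'] i) := by
      calc (F.card : ℝ) * ((VV S)⁻¹) ^ 2 = ∑ _x ∈ F, ((VV S)⁻¹) ^ 2 := by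
            rw [Finset.sum_const, nsmul_eq_mul]
        _ = ∑ x ∈ F, ∏ i : Fin 2, rho S (((q * W ^ 2 : ℕ) : ℤ) * x + ![c, c + W * e'] i) := by
            refine Finset.sum_congr rfl fun x hx => ?_
            rw [Fin.prod_univ_two]
            simp only [Matrix.cons_val_zero, Matrix.cons_val_one]
            rw [qc_rho (hF x hx).1, qc_rho (hF x hx).2, sq]
        _ ≤ _ := by
            refine Finset.sum_le_sum_of_subset_of_nonneg hsub fun x _ _ => ?_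
            exact Finset.prod_nonneg fun i _ => rho_nonneg hPS.prime _
    have hCc : (0 : ℝ) ≤ Cc := Nat.cast_nonneg _
    have hη0 : 0 ≤ η := le_trans (Ers_nonneg _ _ _) he
    have hbound : (F.card : ℝ) * ((VV S)⁻¹) ^ 2 ≤ (l + 1) * (1 + 4 * Cc) + Cc * (y : ℝ) ^ (A + 2) := by
      have h1 : (Cc : ℝ) * er Cc A w + Cc * (Ers (9 / 10) S (disc (fun _ : Fin 2 => ((q * W ^ 2 : ℕ) : ℤ))
          ![c, c + W * e'] 0 1) + Ers (9 / 10) S (disc (fun _ : Fin 2 => ((q * W ^ 2 : ℕ) : ℤ))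
          ![c, c + W * e'] 1 0)) ≤ 4 * Cc := by
        have := mul_le_mul_of_nonneg_left her hCc
        have := mul_le_mul_of_nonneg_left (add_le_add (h01.trans hη) (h10.trans hη)) hCc
        linarith
      have h2 := mul_le_mul_of_nonneg_left h1 hlen0
      have h3 : (((F.max' hne + 1 : ℤ) : ℝ) - (F.min' hne : ℤ)) * (1 + 4 * Cc) ≤ (l + 1) * (1 + 4 * Cc) :=
        mul_le_mul_of_nonneg_right hlen (by positivity)
      linarith
    have h9 : (F.card : ℝ) = VV S ^ 2 * ((F.card : ℝ) * ((VV S)⁻¹) ^ 2) := by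
      field_simp
    rw [h9]
    exact mul_le_mul_of_nonneg_left hbound (by positivity)

/-- the exponential sum over the whole interval is large -/
private theorem qc_exp {w W y B : ℕ} {b0 e' : ℤ} {η δ γ Y : ℝ} {X : Finset ℤ}
    (hW : 1 ≤ W) (hBW : 4 * W ≤ B) (hδ : 0 < δ) (hδ1 : δ ≤ 1) (hη : 200 * η ≤ δ)
    (hT : Typ (sprimes w y) W b0 ((B / W : ℕ) - 1) (B / W + 3) η e')
    (hX : ∀ x ∈ X, x ∈ Finset.Ico (((B / W : ℕ) : ℤ) - 1) (2 * ((B / W : ℕ) : ℤ) + 2) ∧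
      Rgh (sprimes w y) (b0 + W * x) ∧ Rgh (sprimes w y) (b0 + W * (x + e')) ∧
      nr (((b0 : ℝ) + W * x) * ((b0 : ℝ) + W * x + W * e') * Y - γ) ≤ 1 / (8 * (⌈24 / δ⌉₊ : ℝ)))
    (hcard : δ * VV (sprimes w y) ^ 2 * B / W ≤ X.card) :
    ∃ k : ℕ, 1 ≤ k ∧ k < ⌈24 / δ⌉₊ ∧
      ((B : ℝ) / W) / (2 * (⌈24 / δ⌉₊ : ℝ)) ≤ ‖∑ x ∈ Finset.Ico (((B / W : ℕ) : ℤ) - 1) (2 * ((B / W : ℕ) : ℤ) + 2),
        e ((k * (W ^ 2 * Y)) * x ^ 2 + (k * (W * (2 * b0 + W * e') * Y)) * x)‖ := by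
  classical
  set S := sprimes w y with hS
  set X0 : ℕ := B / W with hX0
  set K' : ℕ := ⌈24 / δ⌉₊ with hK'
  have hPS : PSet w y S := pset_sprimes w y
  have hV := VV_pos hPS.prime
  have hWr : (1 : ℝ) ≤ W := by exact_mod_cast hW
  have hWpos : (0 : ℝ) < W := by linarith
  have hBWr : 4 * (W : ℝ) ≤ B := by exact_mod_cast hBW
  have hK1 : 24 / δ ≤ K' := Nat.le_ceil _
  have hK2 : (K' : ℝ) ≤ 25 / δ := by
    have h1 : (K' : ℝ) < 24 / δ + 1 := Nat.ceil_lt_add_one (by positivity)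
    have h2 : 1 ≤ 1 / δ := by rw [le_div_iff₀ hδ]; linarith
    have h3 : 25 / δ = 24 / δ + 1 / δ := by ring
    linarith
  have hK24 : (24 : ℝ) ≤ K' := by
    have : 24 ≤ 24 / δ := by rw [le_div_iff₀ hδ]; linarith
    linarith
  have hKpos : (0 : ℝ) < K' := by linarith
  have hη0 : 0 ≤ η := le_trans (Ers_nonneg _ _ _) hT.1
  set I := Finset.Ico (((X0 : ℕ) : ℤ) - 1) (2 * ((X0 : ℕ) : ℤ) + 2) with hI
  set Tf : ℝ := (B : ℝ) / W with hTf
  have hTf4 : 4 ≤ Tf := by rw [hTf, le_div_iff₀ hWpos]; exact hBWr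
  have hX0le : (X0 : ℝ) ≤ Tf := by
    rw [hX0, hTf]; exact Nat.cast_div_le
  set L : ℕ := X0 + 3 with hL
  have hLT : (L : ℝ) ≤ 2 * Tf := by
    rw [hL]; push_cast; linarith
  have hT2 := hT.2
  have hIL : (((X0 : ℕ) : ℤ) - 1) + (L : ℕ) = 2 * ((X0 : ℕ) : ℤ) + 2 := by
    rw [hL]; push_cast; ring
  have hTyp : ∀ α β : ℝ, ‖∑ x ∈ I, ((rho S (b0 + W * x) * rho S (b0 + W * (x + e')) - 1 : ℝ) : ℂ) *
      e (α * x ^ 2 + β * x)‖ ≤ η * L := by
    intro α β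
    exact hT2 _ _ le_rfl (by have : (0:ℤ) ≤ (X0 : ℤ) := Int.natCast_nonneg _; linarith) hIL.ge α β
  set ω : ℤ → ℝ := fun x => rho S (b0 + W * x) * rho S (b0 + W * (x + e')) with hω
  have hω0 : ∀ x, 0 ≤ ω x := fun x => mul_nonneg (rho_nonneg hPS.prime _) (rho_nonneg hPS.prime _)
  have hIcard : ((I.card : ℕ) : ℝ) = L := by
    rw [hI, Int.card_Ico]
    have h0 : ∀ n : ℕ, (2 * (n : ℤ) + 2 - ((n : ℤ) - 1)).toNat = n + 3 := by intro n; omega
    rw [h0 X0]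
  have htot : ∑ x ∈ I, ω x ≤ 3 * Tf := by
    have h1 := hTyp 0 0
    simp only [zero_mul, add_zero, e_zero, mul_one] at h1
    rw [← Complex.ofReal_sum, Complex.norm_real, Real.norm_eq_abs] at h1
    have h2 := (abs_le.1 h1).2
    rw [Finset.sum_sub_distrib, Finset.sum_const, nsmul_eq_mul, mul_one, hIcard] at h2
    have h3 : η * L ≤ 1 / 200 * L := mul_le_mul_of_nonneg_right (by linarith) (Nat.cast_nonneg _)
    have h4 : ∑ x ∈ I, ω x ≤ L + η * L := by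
      simp only [hω]; linarith
    have h5 : (L : ℝ) = X0 + 3 := by rw [hL]; push_cast; ring
    linarith
  set φ : ℤ → ℝ := fun x => ((b0 : ℝ) + W * x) * ((b0 : ℝ) + W * x + W * e') * Y with hφ
  have hconc : δ * Tf ≤ ∑ x ∈ I.filter (fun x => nr (φ x - γ) ≤ 1 / (8 * (K' : ℝ))), ω x := by
    have h1 : X ⊆ I.filter (fun x => nr (φ x - γ) ≤ 1 / (8 * (K' : ℝ))) := by
      intro x hx
      rw [Finset.mem_filter]
      exact ⟨(hX x hx).1, (hX x hx).2.2.2⟩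
    calc δ * Tf = (δ * VV S ^ 2 * B / W) * ((VV S)⁻¹) ^ 2 := by
          rw [hTf]; field_simp
      _ ≤ X.card * ((VV S)⁻¹) ^ 2 := mul_le_mul_of_nonneg_right hcard (by positivity)
      _ = ∑ _x ∈ X, ((VV S)⁻¹) ^ 2 := by rw [Finset.sum_const, nsmul_eq_mul]
      _ = ∑ x ∈ X, ω x := by
          refine Finset.sum_congr rfl fun x hx => ?_
          simp only [hω]
          rw [qc_rho (hX x hx).2.1, qc_rho (hX x hx).2.2.1, sq]
      _ ≤ _ := Finset.sum_le_sum_of_subset_of_nonneg h1 fun x _ _ => hω0 x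
  obtain ⟨k, hk1, hk2, hk3⟩ := fej I ω φ γ Tf δ (fun x _ => hω0 x) (by linarith) hδ hδ1 K'
    (by rw [div_le_iff₀ hδ] at hK1; linarith) htot hconc
  refine ⟨k, hk1, hk2, ?_⟩
  set α : ℝ := k * (W ^ 2 * Y) with hα
  set β : ℝ := k * (W * (2 * b0 + W * e') * Y) with hβ
  set c0 : ℝ := k * (b0 * (b0 + W * e') * Y) with hc0
  have hsplit : ∀ x : ℤ, e (k * φ x) = e c0 * e (α * x ^ 2 + β * x) := by
    intro x
    rw [← e_add]
    congr 1
    simp only [hφ, hα, hβ, hc0]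
    ring
  have h1 : ‖∑ x ∈ I, (ω x : ℂ) * e (k * φ x)‖ = ‖∑ x ∈ I, (ω x : ℂ) * e (α * x ^ 2 + β * x)‖ := by
    have : ∑ x ∈ I, (ω x : ℂ) * e (k * φ x) = e c0 * ∑ x ∈ I, (ω x : ℂ) * e (α * x ^ 2 + β * x) := by
      rw [Finset.mul_sum]
      refine Finset.sum_congr rfl fun x _ => ?_
      rw [hsplit]; ring
    rw [this, norm_mul, norm_e, one_mul]
  rw [h1] at hk3
  have h2 : ∑ x ∈ I, (ω x : ℂ) * e (α * x ^ 2 + β * x) =
      ∑ x ∈ I, ((rho S (b0 + W * x) * rho S (b0 + W * (x + e')) - 1 : ℝ) : ℂ) * e (α * x ^ 2 + β * x) +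
      ∑ x ∈ I, e (α * x ^ 2 + β * x) := by
    rw [← Finset.sum_add_distrib]
    refine Finset.sum_congr rfl fun x _ => ?_
    simp only [hω]
    push_cast; ring
  have h3 : Tf / K' ≤ η * L + ‖∑ x ∈ I, e (α * x ^ 2 + β * x)‖ := by
    refine hk3.trans ?_
    rw [h2]
    exact (norm_add_le _ _).trans (add_le_add_left (hTyp α β) _)
  have h4 : η * L ≤ Tf / (2 * K') := by
    have h5 : η * L ≤ δ / 200 * (2 * Tf) := mul_le_mul (by linarith) hLT (Nat.cast_nonneg _) (by positivity)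
    have h6 : δ * K' ≤ 25 := by
      have := mul_le_mul_of_nonneg_left hK2 hδ.le
      rwa [mul_div_cancel₀ _ hδ.ne'] at this
    have h7 : δ / 200 * (2 * Tf) ≤ Tf / (2 * K') := by
      rw [le_div_iff₀ (by positivity)]
      have : δ / 200 * (2 * Tf) * (2 * K') = (δ * K') * (Tf / 50) := by ring
      rw [this]
      have : (δ * K') * (Tf / 50) ≤ 25 * (Tf / 50) := mul_le_mul_of_nonneg_right h6 (by positivity)
      linarith
    linarith
  have h8 : Tf / K' = Tf / (2 * K') + Tf / (2 * K') := by field_simp; ring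
  linarith

/-- one class: few elements if `β0` is not small -/
private theorem qc_class {Cc : ℕ}
    (hcorr : ∀ (A w z : ℕ) (S : Finset ℕ), Cc ≤ A → Cc ≤ w → 2 ≤ z →
    PSet w z S → ∀ (α β : Fin 2 → ℤ), (∀ p ∈ S, ∀ i, ¬ (p : ℤ) ∣ α i) →
    ∀ (a b : ℤ), a ≤ b →
    |∑ x ∈ Finset.Ico a b, ∏ i : Fin 2, rho S (α i * x + β i) - (b - a)| ≤
      (b - a) * (Cc * er Cc A w +
        Cc * (Ers (9 / 10) S (disc α β 0 1) + Ers (9 / 10) S (disc α β 1 0)))
        + Cc * (z : ℝ) ^ (A + 2))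
    {A w W y q Qw B M T : ℕ} (hA : Cc ≤ A) (hw : Cc ≤ w) (hw1 : 1 ≤ w) (hy : 2 ≤ y) (hW : IsW w W)
    (hq : 1 ≤ q) (hqw : q ≤ w) (hB : 1 ≤ B) (hM : 1 ≤ M) (hT1 : 1 ≤ T) {e' c b0 m : ℤ} {η C1 : ℝ}
    (hC1 : 1 ≤ C1)
    (he : Ers (9 / 10) (sprimes w y) e' ≤ η) (hη : η ≤ 1) {Y γ β0 : ℝ}
    (hY : Y = m / (q * (W : ℝ) ^ 2) + β0) (hβ0 : |β0| ≤ Qw / (B : ℝ) ^ 2) (hβ1 : (T : ℝ) / M < |β0|)
    (hε : C1 * B ^ 2 / M ≤ 1 / 8)
    (X : Finset ℤ)
    (hX : ∀ x ∈ X, x % ((q * W : ℕ) : ℤ) = c ∧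
      Rgh (sprimes w y) (b0 + W * x) ∧ Rgh (sprimes w y) (b0 + W * (x + e')) ∧
      ((B : ℝ) ≤ (b0 : ℝ) + W * x ∧ (b0 : ℝ) + W * x ≤ 2 * B) ∧
      ((B : ℝ) ≤ (b0 : ℝ) + W * x + W * e' ∧ (b0 : ℝ) + W * x + W * e' ≤ 2 * B) ∧
      nr (((b0 : ℝ) + W * x) * ((b0 : ℝ) + W * x + W * e') * Y - γ) ≤ C1 * B ^ 2 / M) :
    (X.card : ℝ) ≤ (4 * Qw + 2) * (VV (sprimes w y) ^ 2 *
      ((C1 * B / (T * (q * (W : ℝ) ^ 2)) + 1) * (1 + 4 * Cc) + Cc * (y : ℝ) ^ (A + 2))) := by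
  classical
  have hWr : (1 : ℝ) ≤ W := by exact_mod_cast hW.1
  have hWpos : (0 : ℝ) < W := by linarith
  have hqr : (1 : ℝ) ≤ q := by exact_mod_cast hq
  have hqpos : (0 : ℝ) < q := by linarith
  have hBr : (1 : ℝ) ≤ B := by exact_mod_cast hB
  have hBpos : (0 : ℝ) < B := by linarith
  have hMpos : (0 : ℝ) < M := by exact_mod_cast hM
  have hTpos : (0 : ℝ) < T := by exact_mod_cast hT1
  have hβpos : 0 < |β0| := lt_trans (by positivity) hβ1
  have hN : ((q * W : ℕ) : ℤ) ≠ 0 := by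
    have := Nat.mul_pos hq hW.1
    exact_mod_cast this.ne'
  set bx : ℤ → ℝ := fun x => (b0 : ℝ) + W * x with hbx
  set f : ℤ → ℝ := fun x => bx x * (bx x + W * e') * β0 with hf
  set bc : ℝ := (b0 : ℝ) + W * c with hbc
  set γ' : ℝ := γ - bc * (bc + W * e') * (m / (q * (W : ℝ) ^ 2)) with hγ'
  -- the reduced relation
  have hred : ∀ x ∈ X, nr (f x - γ') ≤ C1 * B ^ 2 / M := by
    intro x hx
    obtain ⟨hxc, _, _, _, _, hnr⟩ := hX x hx
    have h1 := Int.mul_ediv_add_emod x ((q * W : ℕ) : ℤ)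
    rw [hxc] at h1
    set x' := x / ((q * W : ℕ) : ℤ) with hx'
    have h2 : (x : ℝ) = c + q * W * x' := by
      have : ((((q * W : ℕ) : ℤ) * x' + c : ℤ) : ℝ) = (x : ℝ) := by rw [h1]
      push_cast at this
      linarith
    have h3 : bx x = bc + q * W ^ 2 * x' := by
      simp only [hbx, hbc]; rw [h2]; ring
    have h4 : bx x * (bx x + W * e') * Y - γ =
        (f x - γ') + ((x' * (2 * (b0 + W * c) + W * e' + q * W ^ 2 * x') * m : ℤ) : ℝ) := by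
      have h5 : ((x' * (2 * (b0 + W * c) + W * e' + q * W ^ 2 * x') * m : ℤ) : ℝ) =
          x' * (2 * bc + W * e' + q * W ^ 2 * x') * m := by
        push_cast; rw [hbc]
      rw [h5]
      simp only [hf, hγ', hY]
      rw [h3]
      field_simp
      ring
    have h6 : nr (bx x * (bx x + W * e') * Y - γ) ≤ C1 * B ^ 2 / M := hnr
    rw [h4, qc_nr_add_int] at h6
    exact h6
  set j : ℤ → ℤ := fun x => round (f x - γ') with hj
  have hjd : ∀ x ∈ X, |f x - γ' - j x| ≤ C1 * B ^ 2 / M := hred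
  have hdiff : ∀ x x' : ℤ, f x - f x' = β0 * ((bx x - bx x') * (bx x + bx x' + W * e')) := by
    intro x x'
    simp only [hf]; ring
  have hrange : ∀ x ∈ X, ∀ x' ∈ X, 2 * (B : ℝ) ≤ bx x + bx x' + W * e' ∧
      bx x + bx x' + W * e' ≤ 4 * B := by
    intro x hx x' hx'
    obtain ⟨_, _, _, h1, _, _⟩ := hX x hx
    obtain ⟨_, _, _, _, h2, _⟩ := hX x' hx'
    simp only [hbx]
    constructor <;> linarith [h1.1, h1.2, h2.1, h2.2]
  have hbxd : ∀ x ∈ X, ∀ x' ∈ X, |bx x - bx x'| ≤ B := by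
    intro x hx x' hx'
    obtain ⟨_, _, _, h1, _, _⟩ := hX x hx
    obtain ⟨_, _, _, h2, _, _⟩ := hX x' hx'
    simp only [hbx]
    rw [abs_le]
    constructor <;> linarith [h1.1, h1.2, h2.1, h2.2]
  -- number of values of `j`
  have hjcard : ((X.image j).card : ℝ) ≤ 4 * Qw + 2 := by
    have := qc_card_diam (X.image j) (4 * Qw + 1) (by positivity) ?_
    · linarith
    · intro a ha b hb
      obtain ⟨x, hx, rfl⟩ := Finset.mem_image.1 ha
      obtain ⟨x', hx', rfl⟩ := Finset.mem_image.1 hb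
      have h1 := hjd x hx
      have h2 := hjd x' hx'
      have h3 : |f x - f x'| ≤ 4 * Qw := by
        rw [hdiff, abs_mul, abs_mul, abs_of_pos (by linarith [(hrange x hx x' hx').1] : 0 < bx x + bx x' + W * e')]
        calc |β0| * (|bx x - bx x'| * (bx x + bx x' + W * e'))
            ≤ (Qw / (B : ℝ) ^ 2) * (B * (4 * B)) := by
              apply mul_le_mul hβ0 _ (mul_nonneg (abs_nonneg _) (by linarith [(hrange x hx x' hx').1]))
                (by positivity)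
              exact mul_le_mul (hbxd x hx x' hx') (hrange x hx x' hx').2
                (by linarith [(hrange x hx x' hx').1]) hBpos.le
          _ = 4 * Qw := by field_simp
      have h4 : (j x : ℝ) - j x' = (f x - f x') - (f x - γ' - j x) + (f x' - γ' - j x') := by ring
      rw [h4]
      calc |(f x - f x') - (f x - γ' - j x) + (f x' - γ' - j x')|
          ≤ |(f x - f x') - (f x - γ' - j x)| + |f x' - γ' - j x'| := abs_add_le _ _
        _ ≤ |f x - f x'| + |f x - γ' - j x| + |f x' - γ' - j x'| := by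
            gcongr
            exact abs_sub _ _
        _ ≤ 4 * Qw + 1 := by linarith
  have hV := VV_pos (pset_sprimes w y).prime
  -- one value of `j`
  have hfib : ∀ a ∈ X.image j, ((X.filter (fun x => j x = a)).card : ℝ) ≤ VV (sprimes w y) ^ 2 *
      ((C1 * B / (T * (q * (W : ℝ) ^ 2)) + 1) * (1 + 4 * Cc) + Cc * (y : ℝ) ^ (A + 2)) := by
    intro a _
    set F := (X.filter (fun x => j x = a)).image (fun x => x / ((q * W : ℕ) : ℤ)) with hF
    have hFx : ∀ x ∈ X, x = ((q * W : ℕ) : ℤ) * (x / ((q * W : ℕ) : ℤ)) + c := by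
      intro x hx
      have h1 := Int.mul_ediv_add_emod x ((q * W : ℕ) : ℤ)
      rw [(hX x hx).1] at h1
      exact h1.symm
    have hcardF : F.card = (X.filter (fun x => j x = a)).card := by
      apply Finset.card_image_of_injOn
      intro x hx x' hx' hxx
      have h1 := hFx x (Finset.mem_filter.1 hx).1
      have h2 := hFx x' (Finset.mem_filter.1 hx').1
      have hxx' : x / ((q * W : ℕ) : ℤ) = x' / ((q * W : ℕ) : ℤ) := hxx
      rw [h1, h2, hxx']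
    rw [← hcardF]
    refine qc_count hcorr hA hw hw1 hy hW hq hqw (c := b0 + W * c) he hη F ?_
      (by have : (0 : ℝ) ≤ C1 := by linarith
          positivity) ?_
    · intro x' hx'
      obtain ⟨x, hx, rfl⟩ := Finset.mem_image.1 hx'
      have hxX := (Finset.mem_filter.1 hx).1
      obtain ⟨_, h1, h2, _⟩ := hX x hxX
      have h3 := hFx x hxX
      set x1 := x / ((q * W : ℕ) : ℤ) with hx1
      constructor
      · have : ((q * W ^ 2 : ℕ) : ℤ) * x1 + (b0 + W * c) = b0 + W * x := by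
          rw [h3]; push_cast; ring
        rw [this]; exact h1
      · have : ((q * W ^ 2 : ℕ) : ℤ) * x1 + (b0 + W * c + W * e') = b0 + W * (x + e') := by
          rw [h3]; push_cast; ring
        rw [this]; exact h2
    · intro a1 ha1 a2 ha2
      obtain ⟨x, hx, rfl⟩ := Finset.mem_image.1 ha1
      obtain ⟨x', hx', rfl⟩ := Finset.mem_image.1 ha2
      obtain ⟨hxX, hxj⟩ := Finset.mem_filter.1 hx
      obtain ⟨hxX', hxj'⟩ := Finset.mem_filter.1 hx'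
      have h1 := hjd x hxX
      have h2 := hjd x' hxX'
      rw [hxj] at h1
      rw [hxj'] at h2
      have h3 : |f x - f x'| ≤ 2 * (C1 * B ^ 2 / M) := by
        have h4 : f x - f x' = (f x - γ' - a) - (f x' - γ' - a) := by ring
        rw [h4]
        exact (abs_sub _ _).trans (by linarith)
      have h5 := (hrange x hxX x' hxX').1
      rw [hdiff, abs_mul, abs_mul, abs_of_pos (by linarith : 0 < bx x + bx x' + W * e')] at h3
      have h6 : |β0| * (|bx x - bx x'| * (2 * B)) ≤ 2 * (C1 * B ^ 2 / M) := by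
        refine le_trans ?_ h3
        gcongr
      have h7 : (T : ℝ) / M * (|bx x - bx x'| * (2 * B)) ≤ 2 * (C1 * B ^ 2 / M) := by
        refine le_trans ?_ h6
        gcongr
      have h8 : |bx x - bx x'| ≤ C1 * B / T := by
        rw [le_div_iff₀ hTpos]
        have h9 : (T : ℝ) / M * (|bx x - bx x'| * (2 * B)) = (|bx x - bx x'| * T) * (2 * B / M) := by
          field_simp
        have h10 : 2 * (C1 * B ^ 2 / M) = (C1 * B) * (2 * B / M) := by
          field_simp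
        rw [h9, h10] at h7
        exact le_of_mul_le_mul_right h7 (by positivity)
      have h11 := hFx x hxX
      have h12 := hFx x' hxX'
      set x1 := x / ((q * W : ℕ) : ℤ) with hx1
      set x2 := x' / ((q * W : ℕ) : ℤ) with hx2
      have h13 : bx x - bx x' = (q * (W : ℝ) ^ 2) * ((x1 : ℝ) - x2) := by
        simp only [hbx]
        rw [h11, h12]
        push_cast; ring
      rw [h13, abs_mul, abs_of_pos (by positivity : 0 < (q * (W : ℝ) ^ 2))] at h8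
      show |(x1 : ℝ) - x2| ≤ C1 * B / (T * (q * (W : ℝ) ^ 2))
      rw [le_div_iff₀ (by positivity)]
      rw [le_div_iff₀ hTpos] at h8
      linarith
  refine (qc_card_le X j _ hfib).trans ?_
  exact mul_le_mul_of_nonneg_right hjcard (by positivity)

/-- Chunk QC (quadratic concentration). Write `b = b0 + W x`, `φ(x) = b (b + W e') Y`: a quadratic
with leading coefficient `W^2 Y`. The weights `ω(x) = ρ(b0+Wx) ρ(b0+W(x+e'))` have total
`≤ 3 B / W` (typical `e'`) and `≥ δ B / W` of the weight has `nr (φ(x) - γ) ≤ C1 B^2 / M`, which is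
`≤ 1 / (8 K')`, `K' = ⌈24/δ⌉`; by `fej` some `1 ≤ k < K'` has `|∑ ω(x) e(k φ(x))| ≥ B / (K' W)`, and
since `e'` is typical `|∑_x e(k φ(x))| ≥ B / (2 K' W)`; by `weyl`, `nr (q k W^2 Y) ≤ C W^2 / B^2`.
So `Y = m / (q' W^2) + β0`, `q' ≤ C`, `|β0| ≤ C / B^2`. Pigeonhole over the `≤ q' W` classes of `b`
mod `q' W^2` (with `b = b0 mod W`): in some class there are `≥ δ V^2 (B/W) / (q' W)` of the `b`'s, and
for them `b (b + W e') m / (q' W^2) mod 1` is constant, so `b (b + W e') β0` is within `C1 B^2 / M`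
of `γ'` mod 1. The function `b ↦ b (b + W e') β0` is monotone on the relevant range (`b`,
`b + W e' ∈ [B, 2B]`) with derivative between `2 B |β0|` and `4 B |β0|`, total variation `≤ 4 C`. So
these `b` lie in at most `4 C + 2` intervals of length `≤ C1 B / (M |β0|)`; if `|β0| > T / M` this is
`≤ (C1 / T) B`, and by `corr0 2` (for `b = b1 + q' W^2 x'`; `q' ≤ w`) they number at most
`(4C+2) V^2 ((C1/T) B / (q' W^2) * 4 + y^(2A))`, a contradiction for `T` large. Finally replace `q'`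
by `Q = Q'!`. -/
theorem qc : ∃ K : ℕ, 1 ≤ K ∧ ∀ (δ C1 : ℝ) (A : ℕ), 0 < δ → δ ≤ 1 → 1 ≤ C1 → K ≤ A →
    ∃ Q T w0 : ℕ, 1 ≤ Q ∧
    ∀ (w W : ℕ), w0 ≤ w → IsW w W → ∃ y0 : ℕ, ∀ (y B M : ℕ) (r b0 : ℤ) (P : Finset ℕ)
    (H : Finset ℤ), y0 ≤ y → Cfg w W y B M r b0 P H → y ^ (K * A) ≤ B → T * B ^ 2 ≤ M →
    ∀ (η : ℝ) (e' : ℤ), K * η ≤ δ ^ K → |e'| ≤ (B / W : ℕ) → e' ≠ 0 →
    Typ (sprimes w y) W b0 ((B / W : ℕ) - 1) (B / W + 3) η e' →
    ∀ Y γ : ℝ, δ * VV (sprimes w y) ^ 2 * B / W ≤ (Bset W P e' Y γ (C1 * B ^ 2 / M)).card →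
    Near Q W T M Y := by
  classical
  obtain ⟨Cc, hCc1, hcorr0⟩ := corr0 2
  have hcorr : ∀ (A w z : ℕ) (S : Finset ℕ), Cc ≤ A → Cc ≤ w → 2 ≤ z →
    PSet w z S → ∀ (α β : Fin 2 → ℤ), (∀ p ∈ S, ∀ i, ¬ (p : ℤ) ∣ α i) →
    ∀ (a b : ℤ), a ≤ b →
    |∑ x ∈ Finset.Ico a b, ∏ i : Fin 2, rho S (α i * x + β i) - (b - a)| ≤
      (b - a) * (Cc * er Cc A w +
        Cc * (Ers (9 / 10) S (disc α β 0 1) + Ers (9 / 10) S (disc α β 1 0)))
        + Cc * (z : ℝ) ^ (A + 2) := by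
    intro A w z S h1 h2 h3 h4 α β h5 a b h6
    have := hcorr0 A w z S h1 h2 h3 h4 α β h5 a b h6
    simp only [Finset.sum_filter, Fin.sum_univ_two] at this
    simpa using this
  refine ⟨Cc + 200, by omega, ?_⟩
  intro δ C1 A hδ hδ1 hC1 hA
  set K' : ℕ := ⌈24 / δ⌉₊ with hK'
  have hK1 : 24 / δ ≤ K' := Nat.le_ceil _
  have hK24 : (24 : ℝ) ≤ K' := by
    have : 24 ≤ 24 / δ := by rw [le_div_iff₀ hδ]; linarith
    linarith
  have hKpos : (0 : ℝ) < K' := by linarith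
  have hK'1 : 1 ≤ K' := by
    have : (1 : ℝ) ≤ K' := by linarith
    exact_mod_cast this
  obtain ⟨Qw, hQw1, hweyl⟩ := weyl (1 / (4 * K')) (by positivity)
    (by rw [div_le_one (by positivity)]; linarith)
  set Q0 : ℕ := Qw * K' with hQ0
  set T : ℕ := ⌈8 * K' * C1⌉₊ + ⌈2 * (4 * Qw + 2) * C1 * (1 + 4 * Cc) / δ⌉₊ + 1 with hTdef
  have hT1 : 1 ≤ T := by omega
  have hTa : 8 * K' * C1 ≤ T := by
    have := Nat.le_ceil (8 * K' * C1)
    rw [hTdef]; push_cast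
    have h2 : (0 : ℝ) ≤ (⌈2 * (4 * (Qw : ℝ) + 2) * C1 * (1 + 4 * Cc) / δ⌉₊ : ℝ) := Nat.cast_nonneg _
    linarith
  have hTb : 2 * (4 * Qw + 2) * C1 * (1 + 4 * Cc) / δ ≤ T := by
    have := Nat.le_ceil (2 * (4 * (Qw : ℝ) + 2) * C1 * (1 + 4 * Cc) / δ)
    rw [hTdef]; push_cast
    have h2 : (0 : ℝ) ≤ (⌈8 * (K' : ℝ) * C1⌉₊ : ℝ) := Nat.cast_nonneg _
    linarith
  refine ⟨Q0.factorial, T, Cc + Q0 + 1, Nat.one_le_iff_ne_zero.2 (Nat.factorial_ne_zero _), ?_⟩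
  intro w W hw hW
  have hW1 : 1 ≤ W := hW.1
  have hWr : (1 : ℝ) ≤ W := by exact_mod_cast hW1
  have hWpos : (0 : ℝ) < W := by linarith
  refine ⟨Qw * W + ⌈2 * (4 * Qw + 2) * Q0 * (1 + 5 * Cc) * W ^ 2 / δ⌉₊ + 2, ?_⟩
  intro y B M r b0 P H hy hcfg hyB hTM η e' hη he1 he0 hTyp Y γ hcard
  have hy2 : 2 ≤ y := by omega
  have hyr : (2 : ℝ) ≤ y := by exact_mod_cast hy2
  have hyQ : Qw * W ≤ y := by omega
  have hyc : 2 * (4 * Qw + 2) * Q0 * (1 + 5 * Cc) * (W : ℝ) ^ 2 / δ < y := by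
    have h1 := Nat.le_ceil (2 * (4 * (Qw : ℝ) + 2) * Q0 * (1 + 5 * Cc) * W ^ 2 / δ)
    have h2 : ((⌈2 * (4 * (Qw : ℝ) + 2) * Q0 * (1 + 5 * Cc) * (W : ℝ) ^ 2 / δ⌉₊ + 2 : ℕ) : ℝ) ≤ y := by
      exact_mod_cast (by omega : ⌈2 * (4 * (Qw : ℝ) + 2) * Q0 * (1 + 5 * Cc) * (W : ℝ) ^ 2 / δ⌉₊ + 2 ≤ y)
    push_cast at h2
    linarith
  have hA1 : 1 ≤ A := by omega
  have hexp : A + 3 ≤ (Cc + 200) * A := by
    calc A + 3 ≤ 200 * A := by omega
      _ ≤ (Cc + 200) * A := Nat.mul_le_mul_right _ (by omega)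
  have hyA : y ^ (A + 3) ≤ B := (Nat.pow_le_pow_right (by omega) hexp).trans hyB
  have hyB2 : y < B := by
    calc y < y ^ 2 := by
          rw [sq]; exact lt_mul_of_one_lt_right (by omega) (by omega)
      _ ≤ y ^ (A + 3) := Nat.pow_le_pow_right (by omega) (by omega)
      _ ≤ B := hyA
  have hW4 : 4 * W ≤ y := by
    have h1 := hcfg.Wy
    have h2 : W ≤ W ^ 4 := Nat.le_self_pow (by norm_num) W
    omega
  have hB1 : 1 ≤ B := by omega
  have hBr : (1 : ℝ) ≤ B := by exact_mod_cast hB1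
  have hBpos : (0 : ℝ) < B := by linarith
  have hM1 : 1 ≤ M := by
    have h1 := hcfg.BM
    have : 1 ≤ B ^ 2 := Nat.one_le_pow _ _ hB1
    omega
  have hMpos : (0 : ℝ) < M := by exact_mod_cast hM1
  have hTMr : (T : ℝ) * B ^ 2 ≤ M := by exact_mod_cast hTM
  have hTpos : (0 : ℝ) < T := by exact_mod_cast hT1
  have hε : C1 * B ^ 2 / M ≤ 1 / (8 * K') := by
    rw [div_le_div_iff₀ hMpos (by positivity)]
    calc C1 * (B : ℝ) ^ 2 * (8 * (K' : ℝ)) = (8 * K' * C1) * (B : ℝ) ^ 2 := by ring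
      _ ≤ (T : ℝ) * (B : ℝ) ^ 2 := mul_le_mul_of_nonneg_right hTa (by positivity)
      _ ≤ 1 * (M : ℝ) := by linarith
  have hε8 : C1 * B ^ 2 / M ≤ 1 / 8 := by
    refine hε.trans ?_
    apply one_div_le_one_div_of_le (by norm_num)
    linarith
  have hη0 : 0 ≤ η := le_trans (Ers_nonneg _ _ _) hTyp.1
  have hη2 : 200 * η ≤ δ := by
    have h1 : δ ^ (Cc + 200) ≤ δ := by
      calc δ ^ (Cc + 200) ≤ δ ^ 1 := pow_le_pow_of_le_one hδ.le hδ1 (by omega)
        _ = δ := pow_one δ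
    have h2 : (200 : ℝ) * η ≤ ((Cc + 200 : ℕ) : ℝ) * η := by
      apply mul_le_mul_of_nonneg_right _ hη0
      push_cast
      have : (0 : ℝ) ≤ Cc := Nat.cast_nonneg _
      linarith
    linarith
  have hη1 : η ≤ 1 := by linarith
  -- the set `X`
  set S := sprimes w y with hS
  have hV := VV_pos (pset_sprimes w y).prime
  set ε0 : ℝ := C1 * B ^ 2 / M with hε0
  set X : Finset ℤ := (Bset W P e' Y γ ε0).image (fun b : ℕ => ((b : ℤ) - b0) / W) with hXdef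
  have hbx : ∀ b ∈ Bset W P e' Y γ ε0, (b : ℤ) = b0 + W * (((b : ℤ) - b0) / W) := by
    intro b hb
    unfold Bset at hb
    rw [Finset.mem_filter] at hb
    have h1 := (hcfg.hP b hb.1).2.2.2
    rw [Int.mul_ediv_cancel' h1]; ring
  have hXcard : X.card = (Bset W P e' Y γ ε0).card := by
    apply Finset.card_image_of_injOn
    intro b hb b' hb' hbb
    have h1 := hbx b hb
    have h2 := hbx b' hb'
    have hbb' : ((b : ℤ) - b0) / W = ((b' : ℤ) - b0) / W := hbb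
    rw [hbb'] at h1
    exact_mod_cast h1.trans h2.symm
  have hXfacts : ∀ x ∈ X, x ∈ Finset.Ico (((B / W : ℕ) : ℤ) - 1) (2 * ((B / W : ℕ) : ℤ) + 2) ∧
      Rgh S (b0 + W * x) ∧ Rgh S (b0 + W * (x + e')) ∧
      ((B : ℝ) ≤ (b0 : ℝ) + W * x ∧ (b0 : ℝ) + W * x ≤ 2 * B) ∧
      ((B : ℝ) ≤ (b0 : ℝ) + W * x + W * e' ∧ (b0 : ℝ) + W * x + W * e' ≤ 2 * B) ∧
      nr (((b0 : ℝ) + W * x) * ((b0 : ℝ) + W * x + W * e') * Y - γ) ≤ ε0 := by
    intro x hx
    obtain ⟨b, hb, rfl⟩ := Finset.mem_image.1 hx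
    have h1 := hbx b hb
    unfold Bset at hb
    rw [Finset.mem_filter] at hb
    obtain ⟨hbP, ⟨b', hb'P, hb'⟩, hnr⟩ := hb
    obtain ⟨hpr, hBb, hb2B, _⟩ := hcfg.hP b hbP
    obtain ⟨hpr', hBb', hb2B', _⟩ := hcfg.hP b' hb'P
    set x := ((b : ℤ) - b0) / W with hxdef
    have h2 : (b : ℝ) = (b0 : ℝ) + W * x := by exact_mod_cast congrArg (Int.cast : ℤ → ℝ) h1
    have h3 : (b' : ℝ) = (b0 : ℝ) + W * x + W * e' := by
      rw [← h2]; exact_mod_cast congrArg (Int.cast : ℤ → ℝ) hb'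
    refine ⟨?_, ?_, ?_, ?_, ?_, ?_⟩
    · have hdm := Nat.div_add_mod B W
      have hml := Nat.mod_lt B hW1
      have hb0 := hcfg.hb0
      have hBb1 : (B : ℤ) ≤ b0 + W * x := by rw [← h1]; exact_mod_cast hBb
      have hBb2 : b0 + W * x ≤ 2 * (B : ℤ) := by rw [← h1]; exact_mod_cast hb2B
      have hdm' : (W : ℤ) * ((B / W : ℕ) : ℤ) + ((B % W : ℕ) : ℤ) = B := by exact_mod_cast hdm
      have hml' : ((B % W : ℕ) : ℤ) < W := by exact_mod_cast hml
      have hml0 : (0 : ℤ) ≤ ((B % W : ℕ) : ℤ) := Int.natCast_nonneg _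
      have hWz : (0 : ℤ) < W := by exact_mod_cast hW1
      rw [Finset.mem_Ico]
      constructor
      · by_contra hcon
        push Not at hcon
        have h4 : x ≤ ((B / W : ℕ) : ℤ) - 2 := by omega
        have h5 : (W : ℤ) * x ≤ W * (((B / W : ℕ) : ℤ) - 2) := mul_le_mul_of_nonneg_left h4 hWz.le
        rw [mul_sub] at h5
        linarith [hb0.2]
      · by_contra hcon
        push Not at hcon
        have h5 : (W : ℤ) * (2 * ((B / W : ℕ) : ℤ) + 2) ≤ W * x := mul_le_mul_of_nonneg_left hcon hWz.le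
        have h6 : (W : ℤ) * (2 * ((B / W : ℕ) : ℤ) + 2) = 2 * (W * ((B / W : ℕ) : ℤ)) + 2 * W := by ring
        rw [h6] at h5
        linarith [hb0.1]
    · rw [← h1]; exact qc_rough hpr (by omega)
    · have : b0 + W * (x + e') = (b' : ℤ) := by rw [hb', h1]; ring
      rw [this]; exact qc_rough hpr' (by omega)
    · rw [← h2]
      exact ⟨by exact_mod_cast hBb, by exact_mod_cast hb2B⟩
    · rw [← h3]
      exact ⟨by exact_mod_cast hBb', by exact_mod_cast hb2B'⟩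
    · rw [← h2]; exact hnr
  have hcardX : δ * VV S ^ 2 * B / W ≤ X.card := by
    rw [hXcard]; exact hcard
  obtain ⟨k, hk1, hk2, hk3⟩ := qc_exp (γ := γ) (Y := Y) (X := X) hW1 (by omega) hδ hδ1 hη2 hTyp
    (fun x hx => ⟨(hXfacts x hx).1, (hXfacts x hx).2.1, (hXfacts x hx).2.2.1,
      (hXfacts x hx).2.2.2.2.2.trans hε⟩) hcardX
  -- Weyl
  have hTf4 : 4 ≤ (B : ℝ) / W := by
    rw [le_div_iff₀ hWpos]; exact_mod_cast (by omega : 4 * W ≤ B)
  have hX0le : ((B / W : ℕ) : ℝ) ≤ (B : ℝ) / W := Nat.cast_div_le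
  have hX0ge : (B : ℝ) / W ≤ ((B / W : ℕ) : ℝ) + 1 := by
    rw [div_le_iff₀ hWpos]
    have hdm := Nat.div_add_mod B W
    have hml := Nat.mod_lt B hW1
    have h1 : ((W * (B / W) + B % W : ℕ) : ℝ) = B := by rw [hdm]
    have h2 : ((B % W : ℕ) : ℝ) ≤ W := by exact_mod_cast hml.le
    push_cast at h1
    linarith
  have hQL : Qw ≤ B / W + 3 := by
    have h1 : Qw ≤ B / W := by
      rw [Nat.le_div_iff_mul_le hW1]; omega
    omega
  have hLle : ((B / W + 3 : ℕ) : ℝ) ≤ 2 * ((B : ℝ) / W) := by push_cast; linarith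
  have hLge : (B : ℝ) / W ≤ ((B / W + 3 : ℕ) : ℝ) := by push_cast; linarith
  obtain ⟨q, hq1, hq2, hq3⟩ := hweyl (B / W + 3) hQL (((B / W : ℕ) : ℤ) - 1)
    (2 * ((B / W : ℕ) : ℤ) + 2) (by have : (0:ℤ) ≤ ((B / W : ℕ) : ℤ) := Int.natCast_nonneg _; linarith)
    (by push_cast; linarith) (k * (W ^ 2 * Y)) (k * (W * (2 * b0 + W * e') * Y)) (by
      refine le_trans ?_ hk3
      calc 1 / (4 * (K' : ℝ)) * ((B / W + 3 : ℕ) : ℝ) ≤ 1 / (4 * (K' : ℝ)) * (2 * ((B : ℝ) / W)) := by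
            gcongr
        _ = ((B : ℝ) / W) / (2 * K') := by field_simp; norm_num)
  set q' : ℕ := q * k with hq'
  have hq'1 : 1 ≤ q' := Nat.one_le_iff_ne_zero.2 (Nat.mul_ne_zero (by omega) (by omega))
  have hq'Q : q' ≤ Q0 := Nat.mul_le_mul hq2 hk2.le
  have hq'r : (1 : ℝ) ≤ q' := by exact_mod_cast hq'1
  have hq'pos : (0 : ℝ) < q' := by linarith
  set m : ℤ := round (q * (k * ((W : ℝ) ^ 2 * Y))) with hm
  set β0 : ℝ := Y - m / (q' * (W : ℝ) ^ 2) with hβ0def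
  have hβ0 : |β0| ≤ Qw / (B : ℝ) ^ 2 := by
    have h1 : |q * (k * ((W : ℝ) ^ 2 * Y)) - m| ≤ Qw / ((B / W + 3 : ℕ) : ℝ) ^ 2 := hq3
    have h2 : q * (k * ((W : ℝ) ^ 2 * Y)) - m = (q' * (W : ℝ) ^ 2) * β0 := by
      rw [hβ0def, hq']; push_cast; field_simp
    rw [h2, abs_mul, abs_of_pos (by positivity : 0 < (q' * (W : ℝ) ^ 2))] at h1
    have h3 : Qw / ((B / W + 3 : ℕ) : ℝ) ^ 2 ≤ Qw / ((B : ℝ) / W) ^ 2 := by
      gcongr
    have h4 : (W : ℝ) ^ 2 * |β0| ≤ (q' * (W : ℝ) ^ 2) * |β0| := by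
      apply mul_le_mul_of_nonneg_right _ (abs_nonneg _)
      exact le_mul_of_one_le_left (by positivity) hq'r
    have h5 : (W : ℝ) ^ 2 * |β0| ≤ Qw / ((B : ℝ) / W) ^ 2 := by linarith
    have h6 : Qw / ((B : ℝ) / W) ^ 2 = (W : ℝ) ^ 2 * (Qw / (B : ℝ) ^ 2) := by field_simp
    rw [h6] at h5
    exact le_of_mul_le_mul_left h5 (by positivity)
  have hYeq : Y = m / (q' * (W : ℝ) ^ 2) + β0 := by rw [hβ0def]; ring
  -- `β0` is small
  have hsmall : |β0| ≤ T / M := by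
    by_contra hcon
    push Not at hcon
    set bd : ℝ := (4 * Qw + 2) * (VV S ^ 2 *
      ((C1 * B / (T * (q' * (W : ℝ) ^ 2)) + 1) * (1 + 4 * Cc) + Cc * (y : ℝ) ^ (A + 2))) with hbd
    have hbd0 : 0 ≤ bd := by
      have : (0 : ℝ) ≤ C1 := by linarith
      positivity
    have hfib : ∀ c ∈ X.image (fun x => x % ((q' * W : ℕ) : ℤ)),
        ((X.filter (fun x => x % ((q' * W : ℕ) : ℤ) = c)).card : ℝ) ≤ bd := by
      intro c _
      refine qc_class (M := M) hcorr (by omega) (by omega) (by omega) hy2 hW hq'1 (by omega) hB1 hM1 hT1 hC1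
        hTyp.1 hη1 (b0 := b0) (c := c) (γ := γ) hYeq hβ0 hcon hε8 _ ?_
      intro x hx
      rw [Finset.mem_filter] at hx
      obtain ⟨_, h2, h3, h4, h5, h6⟩ := hXfacts x hx.1
      exact ⟨hx.2, h2, h3, h4, h5, h6⟩
    have h1 := qc_card_le X (fun x => x % ((q' * W : ℕ) : ℤ)) bd hfib
    have h2 : ((X.image (fun x => x % ((q' * W : ℕ) : ℤ))).card : ℝ) ≤ q' * W := by
      have h3 : X.image (fun x => x % ((q' * W : ℕ) : ℤ)) ⊆ Finset.Ico 0 ((q' * W : ℕ) : ℤ) := by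
        intro c hc
        obtain ⟨x, _, rfl⟩ := Finset.mem_image.1 hc
        have hpos : (0 : ℤ) < ((q' * W : ℕ) : ℤ) := by
          exact_mod_cast Nat.mul_pos hq'1 hW1
        exact Finset.mem_Ico.2 ⟨Int.emod_nonneg _ hpos.ne', Int.emod_lt_of_pos _ hpos⟩
      have h4 := Finset.card_le_card h3
      rw [Int.card_Ico, sub_zero, Int.toNat_natCast] at h4
      calc ((X.image (fun x => x % ((q' * W : ℕ) : ℤ))).card : ℝ) ≤ ((q' * W : ℕ) : ℝ) := by
            exact_mod_cast h4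
        _ = q' * W := by push_cast; ring
    have h3 : δ * VV S ^ 2 * B / W ≤ (q' * W) * bd :=
      hcardX.trans (h1.trans (mul_le_mul_of_nonneg_right h2 hbd0))
    -- divide by `V^2`
    have hV2 : 0 < VV S ^ 2 := by positivity
    have h4 : δ * B / W ≤ (q' * W) * ((4 * Qw + 2) *
        ((C1 * B / (T * (q' * (W : ℝ) ^ 2)) + 1) * (1 + 4 * Cc) + Cc * (y : ℝ) ^ (A + 2))) := by
      have h5 : δ * VV S ^ 2 * B / W = VV S ^ 2 * (δ * B / W) := by ring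
      have h6 : (q' * W) * bd = VV S ^ 2 * ((q' * W) * ((4 * Qw + 2) *
        ((C1 * B / (T * (q' * (W : ℝ) ^ 2)) + 1) * (1 + 4 * Cc) + Cc * (y : ℝ) ^ (A + 2)))) := by
        rw [hbd]; ring
      rw [h5, h6] at h3
      exact le_of_mul_le_mul_left h3 hV2
    have h5 : (q' * W) * ((4 * Qw + 2) *
        ((C1 * B / (T * (q' * (W : ℝ) ^ 2)) + 1) * (1 + 4 * Cc) + Cc * (y : ℝ) ^ (A + 2))) =
        ((4 * Qw + 2) * C1 * (1 + 4 * Cc) / T) * (B / W) +
        (4 * Qw + 2) * (q' * W) * ((1 + 4 * Cc) + Cc * (y : ℝ) ^ (A + 2)) := by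
      field_simp
      ring
    rw [h5] at h4
    have h6 : (4 * Qw + 2) * C1 * (1 + 4 * Cc) / T ≤ δ / 2 := by
      rw [div_le_iff₀ hTpos]
      rw [div_le_iff₀ hδ] at hTb
      linarith
    have h7 : ((4 * Qw + 2) * C1 * (1 + 4 * Cc) / T) * ((B : ℝ) / W) ≤ δ / 2 * (B / W) :=
      mul_le_mul_of_nonneg_right h6 (by positivity)
    have hyA1 : (1 : ℝ) ≤ (y : ℝ) ^ (A + 2) := one_le_pow₀ (by linarith)
    have hCc0 : (0 : ℝ) ≤ Cc := Nat.cast_nonneg _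
    have hQw0 : (0 : ℝ) ≤ Qw := Nat.cast_nonneg _
    have h8 : (1 + 4 * Cc) + Cc * (y : ℝ) ^ (A + 2) ≤ (1 + 5 * Cc) * (y : ℝ) ^ (A + 2) := by
      have h81 := mul_nonneg (by linarith : (0 : ℝ) ≤ 1 + 4 * Cc) (sub_nonneg.2 hyA1)
      have h82 : (1 + 5 * Cc) * (y : ℝ) ^ (A + 2) = (1 + 4 * Cc) * ((y : ℝ) ^ (A + 2) - 1) +
          ((1 + 4 * Cc) + Cc * (y : ℝ) ^ (A + 2)) := by ring
      rw [h82]; linarith
    have h9 : (4 * Qw + 2) * (q' * W) * ((1 + 4 * Cc) + Cc * (y : ℝ) ^ (A + 2)) ≤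
        (4 * Qw + 2) * (Q0 * W) * ((1 + 5 * Cc) * (y : ℝ) ^ (A + 2)) := by
      have : (q' : ℝ) ≤ Q0 := by exact_mod_cast hq'Q
      gcongr
    have h10 : δ / 2 * ((B : ℝ) / W) ≤ (4 * Qw + 2) * (Q0 * W) * ((1 + 5 * Cc) * (y : ℝ) ^ (A + 2)) := by
      have h11 : δ * B / W = δ / 2 * ((B : ℝ) / W) + δ / 2 * ((B : ℝ) / W) := by ring
      rw [h11] at h4
      linarith
    have h11 : (y : ℝ) ^ (A + 2) * y ≤ B := by
      have : (y : ℝ) ^ (A + 3) ≤ B := by exact_mod_cast hyA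
      calc (y : ℝ) ^ (A + 2) * y = (y : ℝ) ^ (A + 3) := by ring
        _ ≤ B := this
    have h12 : δ / 2 * (((y : ℝ) ^ (A + 2) * y) / W) ≤
        (4 * Qw + 2) * (Q0 * W) * ((1 + 5 * Cc) * (y : ℝ) ^ (A + 2)) := by
      refine le_trans ?_ h10
      gcongr
    have h13 : δ / 2 * (((y : ℝ) ^ (A + 2) * y) / W) = (y : ℝ) ^ (A + 2) * (δ / 2 * y / W) := by ring
    have h14 : (4 * Qw + 2) * (Q0 * W) * ((1 + 5 * Cc) * (y : ℝ) ^ (A + 2)) =
        (y : ℝ) ^ (A + 2) * ((4 * Qw + 2) * (Q0 * W) * (1 + 5 * Cc)) := by ring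
    rw [h13, h14] at h12
    have h15 := le_of_mul_le_mul_left h12 (by linarith)
    rw [div_le_iff₀ hWpos] at h15
    rw [div_lt_iff₀ hδ] at hyc
    have h16 : (4 * Qw + 2) * (Q0 * W) * (1 + 5 * Cc) * (W : ℝ) =
        2 * (4 * Qw + 2) * Q0 * (1 + 5 * Cc) * (W : ℝ) ^ 2 / 2 := by ring
    rw [h16] at h15
    linarith
  -- conclusion
  have hdvd : q' ∣ Q0.factorial := Nat.dvd_factorial hq'1 hq'Q
  obtain ⟨t, ht⟩ := hdvd
  have ht0 : (t : ℝ) ≠ 0 := by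
    intro h
    have h1 : t = 0 := by exact_mod_cast h
    rw [h1, mul_zero] at ht
    exact Nat.factorial_ne_zero _ ht
  refine ⟨m * t, ?_⟩
  have h1 : ((m * t : ℤ) : ℝ) / ((Q0.factorial : ℝ) * (W : ℝ) ^ 2) = m / (q' * (W : ℝ) ^ 2) := by
    rw [ht]; push_cast; field_simp
  rw [h1]
  exact hsmall

end Pool.Agent.Lib.H18GB
end
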