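import Pool.Agent.Lib.H1M.RV.M026

/-! Merged copies (to shorten the build) of Lib.H18GB.STR. -/

-- from Lib.H18GB.STR
section

/-!
# Chunk STR: the step (R)

Write `S = sprimes w y`, `ρ = rho S`, `V = VV S`. Let `0 ≤ a0 < W`, `a0 b0 = r mod W`. For `b ∈ P`,
`b ∣ r + W n` iff `r + W n = b (a0 + W a')` for an integer `a'`, i.e. `n = n_b(a') := κ_b + b a'`,
`W κ_b = b a0 - r`. So, with `Z(a') = ∑_{b ∈ P, n_b(a') ∈ [0,M)} ∑_{h ∈ H} c_h g(n_b(a') + h)
e(θ_h n_b(a'))`, the sum is `X = ∑_{a'} β(a0 + W a') Z(a')`, `|β| ≤ V ρ`, `a'` in an interval of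
length `≤ 3 M / B`. Cauchy-Schwarz: `|X|^2 ≤ V^2 (6 M / B) ∑ ρ(a0+Wa') |Z(a')|^2`.
Expand `|Z|^2` over `b, c ∈ P` and use `m = n_b(a') + h1`, `m' = n_c(a') + h2` instead of
`h1, h2`; Cauchy-Schwarz over `(b, c, m, m')` with weights `ν(m) ν(m')`, `ν = κ (1 + ρ)`,
`∑ ν ≤ 3 κ M`, `|P| ≤ 3 V B / W`; expand the square: `a'' = a' + t`, and for `a''` the shifts are
`h1 - b t`, `h2 - c t`. One gets
`Y := ∑_{b,c,t,h1,h2} 1[h1, h1-bt, h2, h2-ct ∈ H] |∑_{a' ∈ J} w(a') e(ξ a')| ≥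
  (δ^4 / (3000 κ^2)) V^2 M^4 / W^2`, `ξ = b (θ_{h1} - θ_{h1-bt}) - c (θ_{h2} - θ_{h2-ct})`,
`w(a') = κ^2 ρ(a0+Wa') ρ(a0+W(a'+t)) (1+ρ(F)) (1+ρ(F'))`, `J` an interval of length `≤ 3M/B`,
`F = r + W (h1 + n_b(a')) = b (a0 + W a') + W h1`, `F' = c (a0 + W a') + W h2`.
Replace `w` by `4 κ^2`: `∑ |∑_{a' ∈ J} (w/κ^2 - 4)(a') e(ξ a')| ≤ (#)^{1/2} (∑ |.|^2)^{1/2}` and
`|∑_{a'} q(a') e(ξ a')|^2 ≤ ∑_k |∑_{a'} q(a') q(a'+k)|`, which is a correlation of at most `8` forms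
(`corr0`), whose discriminants are `W^2` times `k, t, t ± k`, `b (i t + j k) + h1`, `... h2`,
`b c (..) + c h1 - b h2`: all affine in `t, k, h1, h2` with coefficient `1`, `b` or `c` (coprime to
`p ∈ S` as `b, c > y`). Average over `t, k, h1, h2` (`ers_avg`): the replacement costs
`≤ C κ^2 er * V^2 M^4 / W^2`. Then `|∑_{J} e(ξ a')| ≤ min (3M/B + 1) (1/(2 nr ξ))` (`geo`): tuples
with `nr ξ > C1 B / M` contribute little, and the others number
`≥ ((δ/κ)^K / K) (V B / W)^2 (M / B) M^2`.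
-/

namespace Pool.Agent.Lib.H18GB

open Finset Pool.Agent.Lib.Sieve

theorem str_num {P m M u1 u2 : ℝ} (hP : 0 ≤ P) (hM : 0 ≤ M) (h1 : 0 ≤ u1) (h2 : 0 ≤ u2)
    (e1 : u1 ≤ 3 * m) (e2 : u2 ≤ 2 * M) :
    P * (P * (u1 * (u2 * u2))) ≤ 12 * P ^ 2 * m * M ^ 2 := by
  have h3 : u2 * u2 ≤ (2 * M) * (2 * M) := mul_le_mul e2 e2 h2 (by positivity)
  have h4 : u1 * (u2 * u2) ≤ (3 * m) * ((2 * M) * (2 * M)) :=
    mul_le_mul e1 h3 (mul_nonneg h2 h2) (le_trans h1 e1)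
  have h5 : P * (P * (u1 * (u2 * u2))) ≤ P * (P * ((3 * m) * ((2 * M) * (2 * M)))) := by gcongr
  refine le_trans h5 (le_of_eq ?_)
  ring

theorem str_n1 {a b : ℝ} (ha : 0 ≤ a) (hb : 0 ≤ b) : a * a + b * b ≤ (a + b) ^ 2 := by
  nlinarith [mul_nonneg ha hb]

theorem str_n2 {k : ℝ} (hk : 1 ≤ k) : 12 * k ≤ (12 * k) ^ 2 := by nlinarith

theorem str_n3 {C1 B M n : ℝ} (h : C1 * B < n * M) : 2 * C1 * B ≤ M * (2 * n) := by nlinarith

theorem str_n4 {K C1 ε : ℝ} (h : K ≤ C1 * ε) : 216 * K ≤ 216 * ε * C1 := by nlinarith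

theorem str_n5 {K ε : ℝ} (h0 : 0 ≤ ε) (h : 1200000 ≤ K) : 216 * ε * 5184 ≤ ε * K := by
  nlinarith

theorem str_n6 {K k ε : ℝ} (hk : 0 ≤ k) (h0 : 0 ≤ ε) (h : 600000 * k ≤ K) :
    108 * k * ε * 5184 ≤ ε * K := by
  nlinarith [mul_le_mul_of_nonneg_right h h0, mul_nonneg hk h0]

theorem str_n7 {K d ε : ℝ} (hd : d ≤ ε) (h0 : 0 ≤ ε) (h : 1200000 ≤ K) :
    d * 20736 ≤ ε * K := by
  nlinarith

/-- upper bound for one form -/
theorem str_one : ∃ K : ℕ, 1 ≤ K ∧ ∀ (A w z : ℕ) (S : Finset ℕ), K ≤ A → K ≤ w → w ≤ z →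
    K * er K A w ≤ 1 → PSet w z S → ∀ α β : ℤ, Cop S α → ∀ a b : ℤ, a ≤ b →
    (z : ℤ) ^ (A + 3) ≤ b - a →
    ∑ x ∈ Finset.Ico a b, rho S (α * x + β) ≤ 2 * ((b : ℝ) - a) := by
  obtain ⟨C, hC1, hC⟩ := corr0 1
  refine ⟨2 * C, by omega, ?_⟩
  intro A w z S hA hw hwz hK hS α β hα a b hab hz
  have h := hC A w z S (by omega) (by omega) (by omega) hS (fun _ => α) (fun _ => β)
    (fun p hp _ => hα p hp) a b hab
  have h0 : ∑ i : Fin 1, ∑ j ∈ Finset.univ.filter (fun j => i ≠ j),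
      Ers (9 / 10) S (disc (fun _ => α) (fun _ => β) i j) = 0 := by
    refine Finset.sum_eq_zero fun i _ => ?_
    have : Finset.univ.filter (fun j : Fin 1 => i ≠ j) = ∅ := by
      ext j; simp [Subsingleton.elim i j]
    rw [this, Finset.sum_empty]
  rw [h0, mul_zero, add_zero] at h
  simp only [Finset.univ_unique, Fin.default_eq_zero, Finset.prod_singleton] at h
  have h1 : (C : ℝ) * er C A w ≤ 1 / 2 := by
    have h2 : er C A w ≤ er (2 * C) A w := str_er_mono hC1 (by omega) (by omega)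
    have h3 : (C : ℝ) * er C A w ≤ C * er (2 * C) A w :=
      mul_le_mul_of_nonneg_left h2 (Nat.cast_nonneg _)
    push_cast at hK
    linarith
  have h2 : (C : ℝ) * (z : ℝ) ^ (A + 1) ≤ 1 / 2 * ((b : ℝ) - a) := by
    have h3 : 2 * C * z ^ (A + 1) ≤ z ^ (A + 3) := by
      calc 2 * C * z ^ (A + 1) ≤ z * z * z ^ (A + 1) := by
            apply Nat.mul_le_mul_right
            apply Nat.mul_le_mul <;> omega
        _ = z ^ (A + 3) := by ring
    have h4 : (2 * (C : ℤ) * z ^ (A + 1)) ≤ b - a := le_trans (by exact_mod_cast h3) hz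
    have h5 : (2 * (C : ℝ) * z ^ (A + 1)) ≤ (b : ℝ) - a := by exact_mod_cast h4
    linarith
  have hba : (0 : ℝ) ≤ (b : ℝ) - a := by
    have : (a : ℝ) ≤ b := by exact_mod_cast hab
    linarith
  have h3 : ((b : ℝ) - a) * (C * er C A w) ≤ ((b : ℝ) - a) * (1 / 2) :=
    mul_le_mul_of_nonneg_left h1 hba
  have h4 := (abs_le.mp h).2
  linarith

/-- upper bound for the number of elements of `P` -/
theorem str_P {A w z W B : ℕ} {S : Finset ℕ} (hS : PSet w z S) (hW : 0 < W)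
    (hone : ∀ β : ℤ, ∀ a b : ℤ, a ≤ b → (z : ℤ) ^ (A + 3) ≤ b - a →
      ∑ x ∈ Finset.Ico a b, rho S (W * x + β) ≤ 2 * ((b : ℝ) - a))
    {b0 : ℤ} (hb0 : 0 ≤ b0 ∧ b0 < W) {P : Finset ℕ} (hzB : z < B)
    (hP : ∀ b ∈ P, b.Prime ∧ B ≤ b ∧ b ≤ 2 * B ∧ (W : ℤ) ∣ (b : ℤ) - b0)
    (hlen : z ^ (A + 3) ≤ B / W) (h4 : 4 ≤ B / W) :
    (P.card : ℝ) ≤ 3 * VV S * B / W := by
  have hVp : 0 < VV S := VV_pos hS.prime
  have hW' : (0 : ℤ) < W := by exact_mod_cast hW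
  set x0 : ℤ := ((B / W : ℕ) : ℤ) with hx0
  set x1 : ℤ := ((2 * B / W : ℕ) : ℤ) + 1 with hx1
  have hlt : 2 * (B / W) ≤ 2 * B / W := by
    rw [Nat.le_div_iff_mul_le hW]
    have := Nat.div_mul_le_self B W
    nlinarith
  have hrough : ∀ b ∈ P, rho S (b : ℤ) = (VV S)⁻¹ := by
    intro b hb
    obtain ⟨hp, h1, h2, -⟩ := hP b hb
    unfold rho
    rw [if_pos]
    intro p hpS hd
    obtain ⟨g1, g2, g3⟩ := hS p hpS
    have := (Nat.prime_dvd_prime_iff_eq g1 hp).mp (Int.natCast_dvd_natCast.mp hd)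
    omega
  have h1 : ∑ b ∈ P, rho S (b : ℤ) ≤ ∑ x ∈ Finset.Ico x0 x1, rho S (W * x + b0) := by
    have hinj : Set.InjOn (fun b : ℕ => ((b : ℤ) - b0) / W) P := by
      intro b hb c hc h
      obtain ⟨u, hu⟩ := (hP b hb).2.2.2
      obtain ⟨v, hv⟩ := (hP c hc).2.2.2
      simp only at h
      rw [hu, hv, Int.mul_ediv_cancel_left _ hW'.ne', Int.mul_ediv_cancel_left _ hW'.ne'] at h
      have : (b : ℤ) = c := by rw [h] at hu; linarith
      exact_mod_cast this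
    have h2 : ∑ b ∈ P, rho S (b : ℤ) =
        ∑ x ∈ P.image (fun b : ℕ => ((b : ℤ) - b0) / W), rho S (W * x + b0) := by
      rw [Finset.sum_image hinj]
      refine Finset.sum_congr rfl fun b hb => ?_
      obtain ⟨u, hu⟩ := (hP b hb).2.2.2
      rw [hu, Int.mul_ediv_cancel_left _ hW'.ne']
      congr 1
      linarith
    rw [h2]
    apply Finset.sum_le_sum_of_subset_of_nonneg
    · intro x hx
      rw [Finset.mem_image] at hx
      obtain ⟨b, hb, rfl⟩ := hx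
      obtain ⟨hp, g1, g2, u, hu⟩ := hP b hb
      rw [hu, Int.mul_ediv_cancel_left _ hW'.ne', Finset.mem_Ico]
      have e1 : (W : ℤ) * u = b - b0 := hu.symm
      have g1' : (B : ℤ) ≤ b := by exact_mod_cast g1
      have g2' : (b : ℤ) ≤ 2 * B := by exact_mod_cast g2
      constructor
      · rw [hx0]
        have h5 : (W : ℤ) * ((B / W : ℕ) : ℤ) ≤ B := by exact_mod_cast Nat.mul_div_le B W
        have h6 : (W : ℤ) * ((B / W : ℕ) : ℤ) < W * (u + 1) := by linarith [hb0.2]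
        have := lt_of_mul_lt_mul_left h6 hW'.le
        omega
      · rw [hx1]
        have h5 : u * W ≤ 2 * B := by linarith [hb0.1, mul_comm u (W : ℤ)]
        have h6 := (Int.le_ediv_iff_mul_le hW').mpr h5
        push_cast
        omega
    · intro x _ _
      exact rho_nonneg hS.prime _
  rw [Finset.sum_congr rfl hrough, Finset.sum_const, nsmul_eq_mul] at h1
  have h2 := hone b0 x0 x1 (by omega) (by
    have : z ^ (A + 3) ≤ 2 * B / W + 1 - B / W := by omega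
    have h3 : ((z ^ (A + 3) : ℕ) : ℤ) ≤ ((2 * B / W + 1 - B / W : ℕ) : ℤ) := by exact_mod_cast this
    push_cast at h3
    rw [hx0, hx1]
    omega)
  have h3 : ((x1 : ℝ) - x0) ≤ 3 / 2 * (B / W) := by
    have hWr : (0 : ℝ) < W := by exact_mod_cast hW
    have e1 : ((2 * B / W : ℕ) : ℝ) ≤ 2 * B / W := by
      have := @Nat.cast_div_le ℝ _ _ _ (2 * B) W
      push_cast at this
      exact this
    have e2 : (B : ℝ) / W < ((B / W : ℕ) : ℝ) + 1 := by
      rw [div_lt_iff₀ hWr]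
      have := Nat.lt_div_mul_add (a := B) hW
      have h5 : ((B : ℕ) : ℝ) < ((B / W * W + W : ℕ) : ℝ) := by exact_mod_cast this
      push_cast at h5
      linarith
    have e3 : (4 : ℝ) ≤ B / W := by
      have : (4 : ℝ) ≤ ((B / W : ℕ) : ℝ) := by exact_mod_cast h4
      exact le_trans this Nat.cast_div_le
    rw [hx0, hx1, Int.cast_add, Int.cast_natCast, Int.cast_natCast, Int.cast_one]
    have e4 : (2 : ℝ) * B / W = 2 * (B / W) := by ring
    rw [e4] at e1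
    linarith
  have h4 : (P.card : ℝ) * (VV S)⁻¹ ≤ 3 * (B / W) := by linarith
  have h5 : (P.card : ℝ) = (P.card : ℝ) * (VV S)⁻¹ * VV S := by field_simp
  rw [h5]
  calc (P.card : ℝ) * (VV S)⁻¹ * VV S ≤ 3 * (B / W) * VV S :=
        mul_le_mul_of_nonneg_right h4 hVp.le
    _ = 3 * VV S * B / W := by ring

theorem str : ∃ K : ℕ, 1 ≤ K ∧ ∀ (δ κ : ℝ) (A w W y B M : ℕ) (r b0 : ℤ) (P : Finset ℕ)
    (H : Finset ℤ), 0 < δ → δ ≤ 1 → 1 ≤ κ → K ≤ A → K ≤ w → K * er K A w ≤ (δ / κ) ^ K →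
    Cfg w W y B M r b0 P H → y ^ (K * A) ≤ B →
    ∀ (β g c : ℤ → ℂ) (θ : ℤ → ℝ), BetaOK (sprimes w y) β → Maj κ (sprimes w y) W r g →
    SuppIn 0 M g → (∀ h, ‖c h‖ ≤ 1) →
    δ * VV (sprimes w y) ^ 2 * M ^ 2 / W ≤
      ‖∑ h ∈ H, c h * ∑ n ∈ Finset.Ico (0 : ℤ) M, fII W r P β n * g (n + h) * e (θ h * n)‖ →
    (δ / κ) ^ K / K * (VV (sprimes w y) * B / W) ^ 2 * (M / B) * M ^ 2 ≤
      ((Rset M B P H θ (K * (κ / δ) ^ K)).card : ℝ) := by
  obtain ⟨K1, hK11, hK1⟩ := str_one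
  obtain ⟨K2, hK21, hK2⟩ := str_Q
  obtain ⟨K, hK⟩ : ∃ K : ℕ, K = K1 + 600000 * K2 + 1200000 := ⟨_, rfl⟩
  refine ⟨K, by omega, ?_⟩
  intro δ κ A w W y B M r b0 P H hδ hδ1 hκ hA hw hKer hcfg hyB β g c θ hβ hg hgs hc hX
  obtain ⟨hisW, hr, hrcop, hb0, hb0cop, hWy, hwy, hBM, hP, hH⟩ := hcfg
  set S := sprimes w y with hS
  have hSP : PSet w y S := pset_sprimes w y
  have hSp := hSP.prime
  set V := VV S with hV
  have hVp : 0 < V := VV_pos hSp
  have hWp : 0 < W := hisW.1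
  have hW1 : 1 ≤ W := hWp
  have hKp : (0 : ℝ) < K := by exact_mod_cast (by omega : 0 < K)
  have hKbig : (1200000 : ℝ) ≤ K := by exact_mod_cast (by omega : 1200000 ≤ K)
  have hKbig2 : (600000 : ℝ) * K2 ≤ K := by exact_mod_cast (by omega : 600000 * K2 ≤ K)
  have hw1 : 1 ≤ w := by omega
  have hy2 : 2 ≤ y := by omega
  have hWW : W ≤ W ^ 4 := Nat.le_self_pow (by norm_num) W
  have hWy' : W ≤ y := by omega
  -- sizes
  have hyB' : y ^ (A + 20) ≤ B := by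
    refine le_trans (Nat.pow_le_pow_right (by omega) ?_) hyB
    calc A + 20 ≤ 21 * A := by omega
      _ ≤ K * A := Nat.mul_le_mul_right _ (by omega)
  have hB0 : 0 < B := lt_of_lt_of_le (pow_pos (by omega) _) hyB'
  have hyltB : y < B := by
    refine lt_of_lt_of_le ?_ hyB'
    calc y = y ^ 1 := (pow_one y).symm
      _ < y ^ (A + 20) := Nat.pow_lt_pow_right (by omega) (by omega)
  have hBm : B ≤ M / B := by
    rw [Nat.le_div_iff_mul_le hB0, ← sq]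
    omega
  have hym : y ^ (A + 10) ≤ M / B :=
    le_trans (le_trans (Nat.pow_le_pow_right (by omega) (by omega)) hyB') hBm
  have hBW : y ^ (A + 3) ≤ B / W := by
    rw [Nat.le_div_iff_mul_le hWp]
    calc y ^ (A + 3) * W ≤ y ^ (A + 3) * y := Nat.mul_le_mul_left _ hWy'
      _ = y ^ (A + 4) := by ring
      _ ≤ y ^ (A + 20) := Nat.pow_le_pow_right (by omega) (by omega)
      _ ≤ B := hyB'
  have hBW4 : 4 ≤ B / W := by
    refine le_trans ?_ hBW
    calc 4 = 2 ^ 2 := by norm_num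
      _ ≤ y ^ 2 := Nat.pow_le_pow_left hy2 2
      _ ≤ y ^ (A + 3) := Nat.pow_le_pow_right (by omega) (by omega)
  set m := M / B with hm
  have hmM : m ≤ M := Nat.div_le_self _ _
  have hm100 : 100 ≤ m := by
    refine le_trans ?_ hBm
    refine le_trans ?_ hyB'
    calc 100 ≤ 2 ^ 20 := by norm_num
      _ ≤ y ^ 20 := Nat.pow_le_pow_left hy2 20
      _ ≤ y ^ (A + 20) := Nat.pow_le_pow_right (by omega) (by omega)
  -- `a0`
  obtain ⟨u, v, huv⟩ := hb0cop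
  set a0 : ℤ := (r * u) % W with ha0
  have hW' : (0 : ℤ) < W := by exact_mod_cast hWp
  have ha0r : 0 ≤ a0 ∧ a0 < W := ⟨Int.emod_nonneg _ hW'.ne', Int.emod_lt_of_pos _ hW'⟩
  have ha0d : (W : ℤ) ∣ b0 * a0 - r := by
    have h1 : (W : ℤ) ∣ r * u - a0 := by
      rw [ha0]; exact Int.dvd_self_sub_emod
    obtain ⟨x, hx⟩ := h1
    refine ⟨-(b0 * x) - r * v, ?_⟩
    have : a0 = r * u - W * x := by linarith
    rw [this]
    linear_combination r * huv
  have hBok : ∀ b ∈ P, Bok W r a0 B b := by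
    intro b hb
    obtain ⟨hp, h1, h2, h3⟩ := hP b hb
    refine ⟨?_, h1, h2, ?_⟩
    · have : (b : ℤ) * a0 - r = (b - b0) * a0 + (b0 * a0 - r) := by ring
      rw [this]
      exact dvd_add (Dvd.dvd.mul_right h3 _) ha0d
    · rw [Int.isCoprime_iff_gcd_eq_one]
      have h4 : Nat.Coprime b W := by
        rw [Nat.Prime.coprime_iff_not_dvd hp]
        intro h5
        have := Nat.le_of_dvd hWp h5
        omega
      exact_mod_cast h4
  have hCW : Cop S W := hisW.not_dvd hSP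
  have hCP : ∀ b ∈ P, Cop S b := by
    intro b hb p hp hd
    obtain ⟨g1, g2, g3⟩ := hSP p hp
    have := (Nat.prime_dvd_prime_iff_eq g1 (hP b hb).1).mp (Int.natCast_dvd_natCast.mp hd)
    have := (hP b hb).2.1
    omega
  -- the errors
  set ε : ℝ := (δ / κ) ^ 4 with hε
  have hκ0 : 0 < κ := by linarith
  have hδκ0 : 0 < δ / κ := div_pos hδ hκ0
  have hδκ1 : δ / κ ≤ 1 := by rw [div_le_one hκ0]; linarith
  have hε0 : 0 < ε := pow_pos hδκ0 4
  have hε1 : ε ≤ 1 := pow_le_one₀ hδκ0.le hδκ1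
  have hKe : (δ / κ) ^ K ≤ ε := pow_le_pow_of_le_one hδκ0.le hδκ1 (by omega)
  have herK : er K A w ≤ ε / K := by
    rw [le_div_iff₀ hKp]
    linarith [mul_comm (K : ℝ) (er K A w)]
  have herK0 := er_nonneg K A w
  have hK1er : (K1 : ℝ) * er K1 A w ≤ 1 := by
    have h1 : er K1 A w ≤ er K A w := str_er_mono hK11 (by omega) hw1
    have h2 : (K1 : ℝ) ≤ K := by exact_mod_cast (by omega : K1 ≤ K)
    calc (K1 : ℝ) * er K1 A w ≤ K * er K A w := by gcongr; exact er_nonneg _ _ _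
      _ ≤ (δ / κ) ^ K := hKer
      _ ≤ 1 := pow_le_one₀ hδκ0.le hδκ1
  have herK2 : er K2 A w ≤ (er K A w) ^ 2 := by
    have h1 : er K2 A w ≤ (2 : ℝ) ^ (-(A : ℝ) / K) * (2 : ℝ) ^ (-(A : ℝ) / K) +
        (w : ℝ) ^ (-(1 : ℝ) / K) * (w : ℝ) ^ (-(1 : ℝ) / K) := by
      have hwp : (0 : ℝ) < w := by exact_mod_cast hw1
      have hw1' : (1 : ℝ) ≤ w := by exact_mod_cast hw1
      have hK2p : (0 : ℝ) < K2 := by exact_mod_cast (by omega : 0 < K2)
      have h2K : (2 : ℝ) * K2 ≤ K := by linarith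
      rw [← Real.rpow_add (by norm_num), ← Real.rpow_add hwp]
      unfold er
      have h3 : ∀ x : ℝ, 0 ≤ x → -x / K2 ≤ -x / K + -x / K := by
        intro x hx
        have h4 : x / K ≤ x / (2 * K2) := div_le_div_of_nonneg_left hx (by positivity) h2K
        have h5 : x / (2 * (K2 : ℝ)) = x / K2 / 2 := by field_simp
        rw [h5] at h4
        rw [neg_div, neg_div]
        linarith
      apply add_le_add
      · exact Real.rpow_le_rpow_of_exponent_le (by norm_num) (h3 _ (Nat.cast_nonneg _))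
      · exact Real.rpow_le_rpow_of_exponent_le hw1' (h3 _ zero_le_one)
    refine le_trans h1 ?_
    unfold er
    have g1 : (0 : ℝ) ≤ (2 : ℝ) ^ (-(A : ℝ) / K) := Real.rpow_nonneg (by norm_num) _
    have g2 : (0 : ℝ) ≤ (w : ℝ) ^ (-(1 : ℝ) / K) := Real.rpow_nonneg (Nat.cast_nonneg _) _
    exact str_n1 g1 g2
  -- one form sums
  have hone : ∀ β' : ℤ, ∀ a b : ℤ, a ≤ b → (y : ℤ) ^ (A + 3) ≤ b - a →
      ∑ x ∈ Finset.Ico a b, rho S (W * x + β') ≤ 2 * ((b : ℝ) - a) := fun β' a b hab hl =>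
    hK1 A w y S (by omega) (by omega) hwy hK1er hSP W β' hCW a b hab hl
  have hP3 : (P.card : ℝ) ≤ 3 * V * B / W :=
    str_P hSP hWp hone hb0 hyltB hP hBW hBW4
  have hyA3 : y ^ (A + 3) ≤ m := le_trans (Nat.pow_le_pow_right (by omega) (by omega)) hym
  have hs1 : ∑ a ∈ Finset.Ico (-2 : ℤ) ((m : ℕ) + 1), rho S (a0 + W * a) ≤ 4 * m := by
    have h1 := hone a0 (-2) ((m : ℕ) + 1) (by omega) (by
      have : ((y ^ (A + 3) : ℕ) : ℤ) ≤ (m : ℤ) := by exact_mod_cast hyA3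
      push_cast at this
      omega)
    have h2 : ∀ a : ℤ, a0 + W * a = W * a + a0 := fun a => add_comm _ _
    simp only [h2]
    refine le_trans h1 ?_
    push_cast
    have : (100 : ℝ) ≤ m := by exact_mod_cast hm100
    linarith
  have hs2 : ∑ n ∈ Finset.Ico (0 : ℤ) M, κ * (1 + rho S (r + W * n)) ≤ 3 * κ * M := by
    have h1 := hone r 0 M (by omega) (by
      have : ((y ^ (A + 3) : ℕ) : ℤ) ≤ (M : ℤ) := by exact_mod_cast le_trans hyA3 hmM
      push_cast at this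
      omega)
    have h2 : ∀ a : ℤ, r + W * a = W * a + r := fun a => add_comm _ _
    simp only [h2]
    rw [← Finset.mul_sum, Finset.sum_add_distrib, Finset.sum_const, Int.card_Ico, nsmul_eq_mul]
    have h3 : (((M : ℤ) - 0).toNat : ℝ) = M := by simp
    rw [h3]
    push_cast at h1
    have : κ * ((M : ℝ) * 1 + ∑ x ∈ Finset.Ico (0 : ℤ) M, rho S (W * x + r)) ≤ κ * (3 * M) := by
      apply mul_le_mul_of_nonneg_left _ hκ0.le
      linarith
    linarith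
  have hs2' : ∑ p ∈ P ×ˢ Finset.Ico (0 : ℤ) M, κ * (1 + rho S (r + W * p.2)) ≤
      P.card * (3 * κ * M) := by
    rw [Finset.sum_product]
    simp only
    rw [Finset.sum_const, nsmul_eq_mul]
    exact mul_le_mul_of_nonneg_left hs2 (Nat.cast_nonneg _)
  -- Cauchy-Schwarz
  rw [str_X hWp hB0 hr ha0r hBok β g c θ hgs] at hX
  rw [← hm] at hX
  have hβ' : ∀ a : ℤ, ‖β (a0 + W * a)‖ ≤ V * rho S (a0 + W * a) := by
    intro a
    obtain ⟨h1, h2⟩ := hβ (a0 + W * a)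
    by_cases h : Rgh S (a0 + W * a)
    · unfold rho
      rw [if_pos h, ← hV, mul_inv_cancel₀ hVp.ne']
      exact h1
    · rw [h2 h, norm_zero]
      exact mul_nonneg hVp.le (rho_nonneg hSp _)
  have hcs := str_abs (Finset.Ico (-2 : ℤ) ((m : ℕ) + 1)) (P ×ˢ Finset.Ico (0 : ℤ) M)
    (fun a => rho S (a0 + W * a)) V (fun a => rho_nonneg hSp _) (fun a => β (a0 + W * a)) hβ'
    (fun p => g p.2) (fun p => κ * (1 + rho S (r + W * p.2))) (fun p => hg p.2)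
    (Uf W r a0 M H c θ)
  have hY := str_Y (S := S) (M := M) (H := H) hWp hB0 hr ha0r hBok c hc θ κ
  rw [← hm] at hY
  -- splitting
  set Y1 := ∑ q ∈ Tf M B P H,
      ‖∑ a ∈ Jf W r a0 M B q, ((omf S W a0 q a : ℝ) : ℂ) * e (xif θ q * a)‖ with hY1
  set Sg1 := ∑ q ∈ Tf M B P H, ‖∑ a ∈ Jf W r a0 M B q, e (xif θ q * a)‖ with hSg1
  set Sg2 := ∑ q ∈ Tf M B P H,
      ‖∑ a ∈ Jf W r a0 M B q, ((omf S W a0 q a - 4 : ℝ) : ℂ) * e (xif θ q * a)‖ with hSg2
  have hsplit : Y1 ≤ 4 * Sg1 + Sg2 := by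
    rw [hY1, hSg1, hSg2, Finset.mul_sum, ← Finset.sum_add_distrib]
    refine Finset.sum_le_sum fun q _ => ?_
    have : ∑ a ∈ Jf W r a0 M B q, ((omf S W a0 q a : ℝ) : ℂ) * e (xif θ q * a) =
        4 * ∑ a ∈ Jf W r a0 M B q, e (xif θ q * a) +
        ∑ a ∈ Jf W r a0 M B q, ((omf S W a0 q a - 4 : ℝ) : ℂ) * e (xif θ q * a) := by
      rw [Finset.mul_sum, ← Finset.sum_add_distrib]
      refine Finset.sum_congr rfl fun a _ => ?_
      push_cast
      ring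
    rw [this]
    refine le_trans (norm_add_le _ _) ?_
    rw [norm_mul]
    simp
  -- number of tuples
  have hm100' : (100 : ℝ) ≤ m := by exact_mod_cast hm100
  have hMp : (100 : ℝ) ≤ M := by exact_mod_cast le_trans hm100 hmM
  have hTc : ((Tf M B P H).card : ℝ) ≤ 12 * (P.card : ℝ) ^ 2 * m * (M : ℝ) ^ 2 := by
    have h1 := Tf_sum_le (M := M) (B := B) (P := P) hH (fun _ => (1 : ℝ)) (fun _ => zero_le_one)
    simp only [Finset.sum_const, nsmul_eq_mul, mul_one, Int.card_Ico] at h1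
    rw [← hm] at h1
    refine le_trans h1 ?_
    have e1 : (((m : ℤ) + 1 - -(m : ℤ)).toNat : ℝ) ≤ 3 * m := by
      have : ((m : ℤ) + 1 - -(m : ℤ)).toNat ≤ 3 * m := by omega
      exact_mod_cast this
    have e2 : (((M : ℤ) - (-(M : ℤ) + 1)).toNat : ℝ) ≤ 2 * M := by
      have : ((M : ℤ) - (-(M : ℤ) + 1)).toNat ≤ 2 * M := by omega
      exact_mod_cast this
    exact str_num (Nat.cast_nonneg _) (Nat.cast_nonneg _) (Nat.cast_nonneg _) (Nat.cast_nonneg _) e1 e2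
  have hSg2b : Sg2 ≤ 12 * K2 * ε / K * ((P.card : ℝ) ^ 2 * (m : ℝ) ^ 2 * (M : ℝ) ^ 2) := by
    have h1 := hK2 A w y W B M S r a0 P H θ (by omega) (by omega) hwy hSP hCW hCP hH hB0 hym
    rw [← hm] at h1
    have h2 := str_cs (Tf M B P H) (fun _ => 1) (fun q =>
      ‖∑ a ∈ Jf W r a0 M B q, ((omf S W a0 q a - 4 : ℝ) : ℂ) * e (xif θ q * a)‖)
      (fun _ _ => zero_le_one)
    simp only [one_mul, Finset.sum_const, nsmul_eq_mul, mul_one] at h2
    rw [← hSg2] at h2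
    have h3 : Sg2 ^ 2 ≤ (12 * (P.card : ℝ) ^ 2 * m * (M : ℝ) ^ 2) *
        (K2 * er K2 A w * (P.card : ℝ) ^ 2 * (m : ℝ) ^ 3 * (M : ℝ) ^ 2) := by
      refine le_trans h2 (mul_le_mul hTc h1 ?_ (by positivity))
      exact Finset.sum_nonneg fun _ _ => sq_nonneg _
    have h4 : er K2 A w ≤ (ε / K) ^ 2 :=
      le_trans herK2 (pow_le_pow_left₀ herK0 herK 2)
    have hK2r : (1 : ℝ) ≤ K2 := by exact_mod_cast hK21
    have h5 : Sg2 ^ 2 ≤ (12 * K2 * ε / K * ((P.card : ℝ) ^ 2 * (m : ℝ) ^ 2 * (M : ℝ) ^ 2)) ^ 2 := by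
      refine le_trans h3 ?_
      calc _ = 12 * K2 * er K2 A w * ((P.card : ℝ) ^ 2 * (m : ℝ) ^ 2 * (M : ℝ) ^ 2) ^ 2 := by ring
        _ ≤ 12 * K2 * (ε / K) ^ 2 * ((P.card : ℝ) ^ 2 * (m : ℝ) ^ 2 * (M : ℝ) ^ 2) ^ 2 := by
            gcongr
        _ ≤ (12 * K2) ^ 2 * (ε / K) ^ 2 * ((P.card : ℝ) ^ 2 * (m : ℝ) ^ 2 * (M : ℝ) ^ 2) ^ 2 := by
            have : (12 : ℝ) * K2 ≤ (12 * K2) ^ 2 := str_n2 hK2r
            gcongr
        _ = _ := by ring
    exact le_of_sq_le_sq h5 (by positivity)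
  -- the sum without weights
  set C1 : ℝ := K * (κ / δ) ^ K with hC1
  have hκδ : 1 ≤ κ / δ := by rw [le_div_iff₀ hδ]; linarith
  have hC1b : (K : ℝ) / ε ≤ C1 := by
    rw [hC1, div_eq_mul_inv]
    apply mul_le_mul_of_nonneg_left _ hKp.le
    rw [hε, ← inv_pow, inv_div]
    exact pow_le_pow_right₀ hκδ (by omega)
  have hC1p : 0 < C1 := lt_of_lt_of_le (by positivity) hC1b
  have hR : Rset M B P H θ C1 = (Tf M B P H).filter (fun q => xif θ q ≤ xif θ q ∧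
      nr (xif θ q) ≤ C1 * B / M) := by
    ext q
    simp only [Rset, Tf, xif, Finset.mem_filter, le_refl, true_and]
    tauto
  have hBp : (0 : ℝ) < B := by exact_mod_cast hB0
  have hMp0 : (0 : ℝ) < M := by linarith
  set R : ℝ := ((Rset M B P H θ C1).card : ℝ) with hRd
  have hSg1b : Sg1 ≤ 2 * m * R + 6 * (P.card : ℝ) ^ 2 * m * (M : ℝ) ^ 3 / (C1 * B) := by
    have h1 : ∀ q ∈ Tf M B P H, ‖∑ a ∈ Jf W r a0 M B q, e (xif θ q * a)‖ ≤
        (if q ∈ Rset M B P H θ C1 then 2 * (m : ℝ) else 0) + M / (2 * C1 * B) := by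
      intro q hq
      have hpos : (0 : ℝ) < M / (2 * C1 * B) := by positivity
      by_cases hqR : q ∈ Rset M B P H θ C1
      · rw [if_pos hqR]
        have h2 : ‖∑ a ∈ Jf W r a0 M B q, e (xif θ q * a)‖ ≤ 2 * m := by
          refine le_trans (norm_sum_le _ _) ?_
          simp only [norm_e, Finset.sum_const, nsmul_eq_mul, mul_one]
          have h3 := Finset.card_le_card (Jf_sub W r a0 M B q)
          rw [Int.card_Ico, ← hm] at h3
          have h4 : (Jf W r a0 M B q).card ≤ 2 * m := by omega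
          exact_mod_cast h4
        linarith
      · rw [if_neg hqR, zero_add]
        have h2 : C1 * B / M < nr (xif θ q) := by
          by_contra h
          apply hqR
          rw [hR, Finset.mem_filter]
          exact ⟨hq, le_rfl, not_lt.mp h⟩
        obtain ⟨a, b, hab, hJ⟩ := str_conn _ (Jf_conn W r a0 M B q)
        have h3 := geo a b hab (xif θ q)
        rw [← hJ] at h3
        have h4 : 0 < C1 * B / M := by positivity
        have h5 : 0 < 2 * nr (xif θ q) := by linarith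
        rw [← le_div_iff₀ h5] at h3
        refine le_trans h3 ?_
        rw [div_le_div_iff₀ h5 (by positivity), one_mul]
        have h6 := mul_lt_mul_of_pos_right h2 hMp0
        rw [div_mul_cancel₀ _ hMp0.ne'] at h6
        exact str_n3 h6
    refine le_trans (Finset.sum_le_sum h1) ?_
    rw [Finset.sum_add_distrib, Finset.sum_const, nsmul_eq_mul, ← Finset.sum_filter,
      Finset.sum_const, nsmul_eq_mul]
    apply add_le_add
    · have h2 : ((Tf M B P H).filter (fun q => q ∈ Rset M B P H θ C1)).card ≤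
          (Rset M B P H θ C1).card := by
        apply Finset.card_le_card
        intro q hq
        exact (Finset.mem_filter.mp hq).2
      have h3 : (((Tf M B P H).filter (fun q => q ∈ Rset M B P H θ C1)).card : ℝ) ≤ R := by
        rw [hRd]; exact_mod_cast h2
      have := mul_le_mul_of_nonneg_right h3 (by positivity : (0 : ℝ) ≤ 2 * m)
      linarith
    · calc ((Tf M B P H).card : ℝ) * (M / (2 * C1 * B)) ≤
          (12 * (P.card : ℝ) ^ 2 * m * (M : ℝ) ^ 2) * (M / (2 * C1 * B)) := by gcongr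
        _ = _ := by field_simp; ring
  -- conclusion
  set X := ‖∑ a ∈ Finset.Ico (-2 : ℤ) ((m : ℕ) + 1), β (a0 + W * a) *
        ∑ p ∈ P ×ˢ Finset.Ico (0 : ℤ) M, g p.2 * Uf W r a0 M H c θ p a‖ with hXd
  have hWr : (0 : ℝ) < W := by exact_mod_cast hWp
  have hR0 : 0 ≤ R := Nat.cast_nonneg _
  set x : ℝ := (M : ℝ) / B with hx
  have hx0 : 0 < x := by positivity
  have hmx : (m : ℝ) ≤ x := Nat.cast_div_le
  set p : ℝ := 3 * V * B / W with hp
  have hp0 : 0 < p := by positivity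
  have hX4 : X ^ 4 ≤ V ^ 4 * (4 * x) ^ 2 * (p * (3 * κ * M)) ^ 2 * (κ ^ 2 *
      (4 * (2 * x * R + 6 * p ^ 2 * x * (M : ℝ) ^ 3 / (C1 * B)) +
        12 * K2 * ε / K * (p ^ 2 * x ^ 2 * (M : ℝ) ^ 2))) := by
    refine le_trans hcs ?_
    have hY10 : 0 ≤ Y1 := Finset.sum_nonneg fun _ _ => norm_nonneg _
    have h1 : κ ^ 2 * Y1 ≤ κ ^ 2 *
      (4 * (2 * x * R + 6 * p ^ 2 * x * (M : ℝ) ^ 3 / (C1 * B)) +
        12 * K2 * ε / K * (p ^ 2 * x ^ 2 * (M : ℝ) ^ 2)) := by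
      apply mul_le_mul_of_nonneg_left _ (sq_nonneg _)
      refine le_trans hsplit ?_
      apply add_le_add
      · apply mul_le_mul_of_nonneg_left _ (by norm_num)
        refine le_trans hSg1b ?_
        gcongr
      · refine le_trans hSg2b ?_
        gcongr
    have h2 := le_trans hY h1
    have hrs : 0 ≤ ∑ a ∈ Finset.Ico (-2 : ℤ) ((m : ℕ) + 1), rho S (a0 + W * a) :=
      Finset.sum_nonneg fun _ _ => rho_nonneg hSp _
    have hns : 0 ≤ ∑ p ∈ P ×ˢ Finset.Ico (0 : ℤ) M, κ * (1 + rho S (r + W * p.2)) :=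
      Finset.sum_nonneg fun q _ => mul_nonneg hκ0.le (by
        have := rho_nonneg hSp (r + W * q.2)
        linarith)
    have h3 : ∑ a ∈ Finset.Ico (-2 : ℤ) ((m : ℕ) + 1), rho S (a0 + W * a) ≤ 4 * x := by
      linarith
    have h4 : ∑ p ∈ P ×ˢ Finset.Ico (0 : ℤ) M, κ * (1 + rho S (r + W * p.2)) ≤
        p * (3 * κ * M) := by
      refine le_trans hs2' ?_
      gcongr
    apply mul_le_mul _ h2 _ (by positivity)
    · gcongr
    · refine Finset.sum_nonneg fun q _ => Finset.sum_nonneg fun q' _ => ?_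
      have g1 := rho_nonneg hSp (r + W * q.2)
      have g2 := rho_nonneg hSp (r + W * q'.2)
      positivity
  have hXl : (δ * V ^ 2 * (M : ℝ) ^ 2 / W) ^ 4 ≤ X ^ 4 :=
    pow_le_pow_left₀ (by positivity) hX 4
  set N : ℝ := V ^ 2 * (M : ℝ) ^ 4 / (W : ℝ) ^ 2 with hN
  have hN0 : 0 < N := by positivity
  have hkey : δ ^ 4 * N ≤ κ ^ 4 * (1296 * (8 * x * R + 216 / C1 * N + 108 * K2 * ε / K * N)) := by
    have h1 := le_trans hXl hX4
    have e1 : (δ * V ^ 2 * (M : ℝ) ^ 2 / W) ^ 4 =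
        (V ^ 6 * (M : ℝ) ^ 4 / (W : ℝ) ^ 2) * (δ ^ 4 * N) := by
      rw [hN]; field_simp
    have e2 : V ^ 4 * (4 * x) ^ 2 * (p * (3 * κ * M)) ^ 2 * (κ ^ 2 *
      (4 * (2 * x * R + 6 * p ^ 2 * x * (M : ℝ) ^ 3 / (C1 * B)) +
        12 * K2 * ε / K * (p ^ 2 * x ^ 2 * (M : ℝ) ^ 2))) =
        (V ^ 6 * (M : ℝ) ^ 4 / (W : ℝ) ^ 2) *
        (κ ^ 4 * (1296 * (8 * x * R + 216 / C1 * N + 108 * K2 * ε / K * N))) := by
      rw [hN, hp, hx]; field_simp; ring
    rw [e1, e2] at h1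
    exact le_of_mul_le_mul_left h1 (by positivity)
  have hkey2 : ε * N ≤ 1296 * (8 * x * R + 216 / C1 * N + 108 * K2 * ε / K * N) := by
    have e1 : δ ^ 4 * N = κ ^ 4 * (ε * N) := by rw [hε]; field_simp
    rw [e1] at hkey
    exact le_of_mul_le_mul_left hkey (by positivity)
  have hg1 : 1296 * (216 / C1 * N) ≤ ε / 4 * N := by
    have h1 : 216 / C1 ≤ 216 * ε / K := by
      rw [div_le_div_iff₀ hC1p hKp]
      rw [div_le_iff₀ hε0] at hC1b
      exact str_n4 hC1b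
    have h2 : 216 * ε / K ≤ ε / 5184 := by
      rw [div_le_div_iff₀ hKp (by norm_num)]
      exact str_n5 hε0.le hKbig
    have h3 : 216 / C1 * N ≤ ε / 5184 * N := mul_le_mul_of_nonneg_right (le_trans h1 h2) hN0.le
    linarith
  have hg2 : 1296 * (108 * K2 * ε / K * N) ≤ ε / 4 * N := by
    have h2 : 108 * K2 * ε / K ≤ ε / 5184 := by
      rw [div_le_div_iff₀ hKp (by norm_num)]
      exact str_n6 (Nat.cast_nonneg _) hε0.le hKbig2
    have h3 : 108 * K2 * ε / K * N ≤ ε / 5184 * N := mul_le_mul_of_nonneg_right h2 hN0.le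
    linarith
  have hfin : ε * N ≤ 20736 * (x * R) := by linarith
  have hlast : (δ / κ) ^ K / K * (V * B / W) ^ 2 * ((M : ℝ) / B) * (M : ℝ) ^ 2 =
      (δ / κ) ^ K / K * (N / x) := by
    rw [hN, hx]; field_simp
  rw [hlast]
  have h1 : (δ / κ) ^ K / K ≤ ε / 20736 := by
    rw [div_le_div_iff₀ hKp (by norm_num)]
    exact str_n7 hKe hε0.le hKbig
  calc (δ / κ) ^ K / K * (N / x) ≤ ε / 20736 * (N / x) :=
        mul_le_mul_of_nonneg_right h1 (by positivity)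
    _ = ε * N / (20736 * x) := by field_simp
    _ ≤ R := by
        rw [div_le_iff₀ (by positivity)]
        linarith

end Pool.Agent.Lib.H18GB
end
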