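import Pool.Agent.Lib.H1M.RV.M007
import Pool.Agent.Lib.H1M.RV.M008
import Pool.Agent.Lib.H1M.RV.M016
import Pool.Agent.Lib.H1M.RV.M029

/-! Merged copies (to shorten the build) of Lib.H18GB.Tools4, Lib.H18GB.C1A. -/

-- from Lib.H18GB.Tools4
section

/-!
# Project GB: tools for parallelograms (four shifts `0, k, j, j + k`)
-/

namespace Pool.Agent.Lib.H18GB

open Finset Pool.Agent.Lib.Sieve

theorem ShE_four_le (S : Finset ℕ) (k j : ℤ) : ShE S ![0, k, j, j + k] ≤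
    4 * (Ers (9 / 10) S k + Ers (9 / 10) S j + Ers (9 / 10) S (j + k) + Ers (9 / 10) S (j - k)) := by
  have h1 := Ers_nonneg (9 / 10) S k
  have h2 := Ers_nonneg (9 / 10) S j
  have h3 := Ers_nonneg (9 / 10) S (j + k)
  have h4 := Ers_nonneg (9 / 10) S (j - k)
  have e1 : Ers (9 / 10) S (0 - k) = Ers (9 / 10) S k := by rw [zero_sub, ers_neg]
  have e2 : Ers (9 / 10) S (0 - j) = Ers (9 / 10) S j := by rw [zero_sub, ers_neg]
  have e3 : Ers (9 / 10) S (0 - (j + k)) = Ers (9 / 10) S (j + k) := by rw [zero_sub, ers_neg]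
  have e4 : Ers (9 / 10) S (k - j) = Ers (9 / 10) S (j - k) := by rw [← ers_neg, neg_sub]
  have e5 : Ers (9 / 10) S (k - (j + k)) = Ers (9 / 10) S j := by
    rw [← ers_neg]; congr 1; ring
  have e6 : Ers (9 / 10) S (j - (j + k)) = Ers (9 / 10) S k := by
    rw [← ers_neg]; congr 1; ring
  have e7 : Ers (9 / 10) S (j + k - k) = Ers (9 / 10) S j := by congr 1; ring
  have e8 : Ers (9 / 10) S (j + k - j) = Ers (9 / 10) S k := by congr 1; ring
  have hfil : ∀ i : Fin 4, ∑ l ∈ Finset.univ.filter (fun l => i ≠ l),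
      Ers (9 / 10) S (![0, k, j, j + k] l - ![0, k, j, j + k] i) =
      ∑ l : Fin 4, if i ≠ l then Ers (9 / 10) S (![0, k, j, j + k] l - ![0, k, j, j + k] i)
        else 0 := fun i => Finset.sum_filter _ _
  unfold ShE
  simp only [hfil, Fin.sum_univ_four]
  have d01 : (0 : Fin 4) ≠ 1 := by decide
  have d02 : (0 : Fin 4) ≠ 2 := by decide
  have d03 : (0 : Fin 4) ≠ 3 := by decide
  have d12 : (1 : Fin 4) ≠ 2 := by decide
  have d13 : (1 : Fin 4) ≠ 3 := by decide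
  have d23 : (2 : Fin 4) ≠ 3 := by decide
  simp only [ne_eq, not_true_eq_false, if_false, d01, d02, d03, d12, d13, d23, d01.symm, d02.symm,
    d03.symm, d12.symm, d13.symm, d23.symm, not_false_eq_true, if_true, Matrix.cons_val_zero,
    Matrix.cons_val_one, Matrix.cons_val]
  rw [e1, e2, e3, e4, e5, e6, e7, e8, sub_zero, sub_zero, sub_zero]
  linarith

/-- the averaged quantity -/
noncomputable def QE (S : Finset ℕ) (k j : ℤ) : ℝ :=
  Ers (9 / 20) S k + Ers (9 / 20) S j + Ers (9 / 20) S (j + k) + Ers (9 / 20) S (j - k)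

theorem QE_nonneg (S : Finset ℕ) (k j : ℤ) : 0 ≤ QE S k j :=
  add_nonneg (add_nonneg (add_nonneg (Ers_nonneg _ _ _) (Ers_nonneg _ _ _)) (Ers_nonneg _ _ _))
    (Ers_nonneg _ _ _)

/-- powers of the error of four shifts are bounded by `QE` -/
theorem ShE_four_pow : ∃ C : ℕ, 1 ≤ C ∧ ∀ (w z : ℕ) (S : Finset ℕ), PSet w z S → ∀ k j : ℤ,
    ShE S ![0, k, j, j + k] ≤ C * QE S k j ∧ ShE S ![0, k, j, j + k] ^ 2 ≤ C * QE S k j := by
  obtain ⟨C, hC1, hC⟩ := ers_pow_le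
  refine ⟨⌈C⌉₊ * 64 + 4, by omega, ?_⟩
  intro w z S hS k j
  have h0 := ShE_four_le S k j
  have hn := ShE_nonneg S ![0, k, j, j + k]
  have hCc : C ≤ ⌈C⌉₊ := Nat.le_ceil C
  have hQ := QE_nonneg S k j
  have a1 := Ers_nonneg (9 / 10) S k
  have a2 := Ers_nonneg (9 / 10) S j
  have a3 := Ers_nonneg (9 / 10) S (j + k)
  have a4 := Ers_nonneg (9 / 10) S (j - k)
  have b1 := ers_le_920 hS k
  have b2 := ers_le_920 hS j
  have b3 := ers_le_920 hS (j + k)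
  have b4 := ers_le_920 hS (j - k)
  have c1 := hC w z S k 2 hS (by norm_num) (by norm_num)
  have c2 := hC w z S j 2 hS (by norm_num) (by norm_num)
  have c3 := hC w z S (j + k) 2 hS (by norm_num) (by norm_num)
  have c4 := hC w z S (j - k) 2 hS (by norm_num) (by norm_num)
  set x1 := Ers (9 / 10) S k
  set x2 := Ers (9 / 10) S j
  set x3 := Ers (9 / 10) S (j + k)
  set x4 := Ers (9 / 10) S (j - k)
  have hQe : QE S k j = Ers (9 / 20) S k + Ers (9 / 20) S j + Ers (9 / 20) S (j + k) +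
    Ers (9 / 20) S (j - k) := rfl
  constructor
  · push_cast
    have h2 : 4 * (x1 + x2 + x3 + x4) ≤ 4 * QE S k j := by rw [hQe]; linarith
    have h3 : 0 ≤ (⌈C⌉₊ : ℝ) * 64 * QE S k j := by positivity
    nlinarith
  · push_cast
    have h2 : ShE S ![0, k, j, j + k] ^ 2 ≤ (4 * (x1 + x2 + x3 + x4)) ^ 2 :=
      pow_le_pow_left₀ hn h0 2
    have h3 : (4 * (x1 + x2 + x3 + x4)) ^ 2 ≤ 64 * (x1 ^ 2 + x2 ^ 2 + x3 ^ 2 + x4 ^ 2) := by
      nlinarith [sq_nonneg (x1 - x2), sq_nonneg (x1 - x3), sq_nonneg (x1 - x4), sq_nonneg (x2 - x3),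
        sq_nonneg (x2 - x4), sq_nonneg (x3 - x4)]
    have h4 : x1 ^ 2 + x2 ^ 2 + x3 ^ 2 + x4 ^ 2 ≤ C * QE S k j := by rw [hQe]; linarith
    have h5 : C * QE S k j ≤ ⌈C⌉₊ * QE S k j := mul_le_mul_of_nonneg_right hCc hQ
    nlinarith

theorem prime_not_dvd_one {w z : ℕ} {S : Finset ℕ} (hS : PSet w z S) : ∀ p ∈ S, ¬ (p : ℤ) ∣ 1 := by
  intro p hp h
  have hpp := (hS p hp).1
  have := Int.natCast_dvd_natCast.mp (by simpa using h : (p : ℤ) ∣ ((1 : ℕ) : ℤ))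
  exact hpp.one_lt.ne' (Nat.dvd_one.mp this)

/-- average of `QE` -/
theorem QE_avg : ∃ C : ℕ, 1 ≤ C ∧ ∀ (A w z M : ℕ) (S : Finset ℕ), C ≤ A → C ≤ w → 2 ≤ z →
    PSet w z S → z ^ (C * A) ≤ M →
    ∑ k ∈ Finset.Ioo (-(M : ℤ)) M, ∑ j ∈ Finset.Ioo (-(M : ℤ)) M, QE S k j ≤
      C * M ^ 2 * er C A w := by
  obtain ⟨C, hC1, hC⟩ := ers_avg'
  refine ⟨8 * C, by omega, ?_⟩
  intro A w z M S hA hw hz hS hM
  have hw1 : 1 ≤ w := by omega
  have hM' : z ^ (C * A) ≤ M :=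
    (Nat.pow_le_pow_right (by omega) (Nat.mul_le_mul_right A (by omega))).trans hM
  have hav := fun β : ℤ => hC A w z M S (by omega) (by omega) hz hS hM' 1 β (prime_not_dvd_one hS)
  simp only [one_mul] at hav
  have h0 := hav 0
  simp only [add_zero] at h0
  set K := Finset.Ioo (-(M : ℤ)) M with hK
  have hcard := card_Ioo_le M
  rw [← hK] at hcard
  have her := er_nonneg C A w
  have hX : (0 : ℝ) ≤ C * M * er C A w := by positivity
  have key : ∀ f : ℤ → ℝ, (∀ k ∈ K, f k ≤ C * M * er C A w) →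
      ∑ k ∈ K, f k ≤ 2 * M * (C * M * er C A w) := by
    intro f hf
    calc ∑ k ∈ K, f k ≤ ∑ _k ∈ K, C * M * er C A w := Finset.sum_le_sum hf
      _ = K.card * (C * M * er C A w) := by rw [Finset.sum_const, nsmul_eq_mul]
      _ ≤ 2 * M * (C * M * er C A w) := mul_le_mul_of_nonneg_right hcard hX
  have h1 : ∑ k ∈ K, ∑ _j ∈ K, Ers (9 / 20) S k ≤ 2 * M * (C * M * er C A w) := by
    rw [Finset.sum_comm]
    exact key _ fun _ _ => h0
  have h2 : ∑ _k ∈ K, ∑ j ∈ K, Ers (9 / 20) S j ≤ 2 * M * (C * M * er C A w) :=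
    key _ fun _ _ => h0
  have h3 : ∑ k ∈ K, ∑ j ∈ K, Ers (9 / 20) S (j + k) ≤ 2 * M * (C * M * er C A w) :=
    key _ fun k _ => hav k
  have h4 : ∑ k ∈ K, ∑ j ∈ K, Ers (9 / 20) S (j - k) ≤ 2 * M * (C * M * er C A w) :=
    key _ fun k _ => by simpa [sub_eq_add_neg] using hav (-k)
  have h5 : ∑ k ∈ K, ∑ j ∈ K, QE S k j = ∑ k ∈ K, ∑ _j ∈ K, Ers (9 / 20) S k +
      ∑ _k ∈ K, ∑ j ∈ K, Ers (9 / 20) S j + ∑ k ∈ K, ∑ j ∈ K, Ers (9 / 20) S (j + k) +
      ∑ k ∈ K, ∑ j ∈ K, Ers (9 / 20) S (j - k) := by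
    unfold QE
    simp only [Finset.sum_add_distrib]
  have h6 : er C A w ≤ er (8 * C) A w := tls_er_mono hC1 (by omega) hw1
  rw [h5]
  calc _ ≤ 4 * (2 * M * (C * M * er C A w)) := by linarith
    _ = ((8 * C : ℕ) : ℝ) * M ^ 2 * er C A w := by push_cast; ring
    _ ≤ ((8 * C : ℕ) : ℝ) * M ^ 2 * er (8 * C) A w := by gcongr

/-- parallelogram correlations of `rho - 1` -/
theorem par_m1 : ∃ C : ℕ, 1 ≤ C ∧ ∀ (A w z W M : ℕ) (S : Finset ℕ),
    C ≤ A → C ≤ w → 2 ≤ z → PSet w z S → IsW w W → z ^ (C * A) ≤ M →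
    ∀ (r k j : ℤ),
    |∑ x ∈ Finset.Ico (0 : ℤ) M, rm1 S W r M x * rm1 S W r M (x + k) *
      (rm1 S W r M (x + j) * rm1 S W r M (x + j + k))| ≤
      C * M * (er C A w + ShE S ![0, k, j, j + k]) := by
  obtain ⟨C, hC1, hC⟩ := corr_m1 4 (by norm_num)
  refine ⟨C, hC1, ?_⟩
  intro A w z W M S hA hw hz hS hW hM r k j
  have h := hC A w z W M M S hA hw hz hS hW hM le_rfl r ![0, k, j, j + k]
  refine le_of_eq_of_le ?_ h
  congr 1
  apply Finset.sum_congr rfl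
  intro x _
  rw [Fin.prod_univ_four]
  simp only [Matrix.cons_val_zero, Matrix.cons_val_one, Matrix.cons_val, add_zero]
  rw [← add_assoc x j k]
  ring

/-- parallelogram correlations of functions dominated by `1 + rho` -/
theorem par_p1 : ∃ C : ℕ, 1 ≤ C ∧ ∀ (A w z W M : ℕ) (S : Finset ℕ),
    C ≤ A → C ≤ w → 2 ≤ z → PSet w z S → IsW w W → z ^ (C * A) ≤ M →
    ∀ (r : ℤ) (κ : ℝ) (g : ℤ → ℂ), 0 ≤ κ → Maj κ S W r g → ∀ (k j : ℤ),
    ∑ x ∈ Finset.Ico (0 : ℤ) M, ‖g x‖ * ‖g (x + k)‖ * (‖g (x + j)‖ * ‖g (x + j + k)‖) ≤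
      C * κ ^ 4 * M * (1 + ShE S ![0, k, j, j + k]) := by
  obtain ⟨C, hC1, hC⟩ := corr_p1 4
  refine ⟨C, hC1, ?_⟩
  intro A w z W M S hA hw hz hS hW hM r κ g hκ hg k j
  have h := hC A w z W M M S hA hw hz hS hW hM le_rfl r ![0, k, j, j + k] 0
  rw [zero_add] at h
  have hρ : ∀ n : ℤ, 0 ≤ 1 + rho S (r + W * n) := fun n => by
    have := rho_nonneg hS.prime (r + W * n); linarith
  calc ∑ x ∈ Finset.Ico (0 : ℤ) M, ‖g x‖ * ‖g (x + k)‖ * (‖g (x + j)‖ * ‖g (x + j + k)‖)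
      ≤ ∑ x ∈ Finset.Ico (0 : ℤ) M, κ ^ 4 *
          ∏ i, (1 + rho S (r + W * (x + ![0, k, j, j + k] i))) := by
        apply Finset.sum_le_sum
        intro x _
        rw [Fin.prod_univ_four]
        simp only [Matrix.cons_val_zero, Matrix.cons_val_one, Matrix.cons_val, add_zero]
        rw [← add_assoc x j k]
        calc ‖g x‖ * ‖g (x + k)‖ * (‖g (x + j)‖ * ‖g (x + j + k)‖)
            ≤ (κ * (1 + rho S (r + W * x))) * (κ * (1 + rho S (r + W * (x + k)))) *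
              ((κ * (1 + rho S (r + W * (x + j)))) * (κ * (1 + rho S (r + W * (x + j + k))))) := by
              have i1 := hg x
              have i2 := hg (x + k)
              have i3 := hg (x + j)
              have i4 := hg (x + j + k)
              have j1 := mul_nonneg hκ (hρ x)
              have j3 := mul_nonneg hκ (hρ (x + j))
              exact mul_le_mul (mul_le_mul i1 i2 (norm_nonneg _) j1)
                (mul_le_mul i3 i4 (norm_nonneg _) j3) (by positivity)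
                (mul_nonneg j1 (mul_nonneg hκ (hρ (x + k))))
          _ = _ := by ring
    _ = κ ^ 4 * ∑ x ∈ Finset.Ico (0 : ℤ) M,
          ∏ i, (1 + rho S (r + W * (x + ![0, k, j, j + k] i))) := by rw [Finset.mul_sum]
    _ ≤ κ ^ 4 * (C * M * (1 + ShE S ![0, k, j, j + k])) := by gcongr
    _ = _ := by ring

end Pool.Agent.Lib.H18GB
end

-- from Lib.H18GB.C1A
section

/-!
# Project GB: C1A

Throughout `S` is a set of primes in `(w, z]`, `IsW w W`, and all intervals have length at least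
`z ^ (C A)`; errors are `er C A w = 2^(-A/C) + w^(-1/C)`, and powers `er^(1/2)` etc. are absorbed
by increasing `C`. All sums of products of `rho`'s come from `corr0` / `corr`: the error terms are
`Ers (9/10) S (discriminant)` with discriminants affine in the averaged variables, with coefficient
`± W^i * (1, 2 or 3)` or a prime `> z`; use `ers_mul`, `ers_pow_le`, `ers_avg`.
The error term `z^(A+k)` is `≤ er * (length)` when `z ^ (C A) ≤ length`.
-/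

namespace Pool.Agent.Lib.H18GB

open Finset Pool.Agent.Lib.Sieve

/-- reflection of a sum -/
theorem c1a_sum_reflect {E : Type*} [AddCommMonoid E] {f : ℤ → E} {a b : ℤ}
    (hf : ∀ n, n ∉ Finset.Ico a b → f n = 0) (m : ℤ) (T : Finset ℤ)
    (hT : ∀ k, m - k ∈ Finset.Ico a b → k ∈ T) :
    ∑ k ∈ T, f (m - k) = ∑ n ∈ Finset.Ico a b, f n := by
  classical
  have h1 : ∑ n ∈ T, f (m - n) = ∑ n ∈ T.map (Equiv.subLeft m).toEmbedding, f n := by
    rw [Finset.sum_map]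
    rfl
  rw [h1]
  symm
  apply Finset.sum_subset
  · intro n hn
    rw [Finset.mem_map]
    refine ⟨m - n, hT _ (by simpa using hn), by simp⟩
  · intro n _ hn
    exact hf n hn

theorem weighted_cs {ι : Type*} (s : Finset ι) (v x : ι → ℝ) (hv : ∀ i ∈ s, 0 ≤ v i) :
    (∑ i ∈ s, v i * x i) ^ 2 ≤ (∑ i ∈ s, v i) * ∑ i ∈ s, v i * x i ^ 2 := by
  have h := Finset.sum_mul_sq_le_sq_mul_sq s (fun i => Real.sqrt (v i))
    (fun i => Real.sqrt (v i) * x i)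
  have e1 : ∑ i ∈ s, Real.sqrt (v i) * (Real.sqrt (v i) * x i) = ∑ i ∈ s, v i * x i := by
    apply Finset.sum_congr rfl
    intro i hi
    rw [← mul_assoc, Real.mul_self_sqrt (hv i hi)]
  have e2 : ∑ i ∈ s, Real.sqrt (v i) ^ 2 = ∑ i ∈ s, v i := by
    apply Finset.sum_congr rfl
    intro i hi
    rw [Real.sq_sqrt (hv i hi)]
  have e3 : ∑ i ∈ s, (Real.sqrt (v i) * x i) ^ 2 = ∑ i ∈ s, v i * x i ^ 2 := by
    apply Finset.sum_congr rfl
    intro i hi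
    rw [mul_pow, Real.sq_sqrt (hv i hi)]
  rw [e1, e2, e3] at h
  exact h

/-- step (1): the sum is `∑ g Φ` -/
theorem c1a_phi (M : ℕ) (f g c : ℤ → ℂ) (hf : ∀ n, n ∉ Finset.Ico (0 : ℤ) M → f n = 0)
    (hg : ∀ n, n ∉ Finset.Ico (0 : ℤ) M → g n = 0) :
    ∑ h ∈ Finset.Ioo (-(M : ℤ)) M, c h * ∑ n ∈ Finset.Ico (0 : ℤ) M, f n * g (n + h) =
      ∑ m ∈ Finset.Ico (0 : ℤ) M, g m * ∑ k ∈ Finset.Ioo (-(M : ℤ)) M, c k * f (m - k) := by
  simp only [Finset.mul_sum]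
  rw [Finset.sum_comm (s := Finset.Ico (0 : ℤ) M)]
  apply Finset.sum_congr rfl
  intro h hh
  have h1 := sum_shift (f := fun m => g m * (c h * f (m - h))) (a := 0) (b := M)
    (by intro m hm; simp [hg m hm]) h (Finset.Ioo (-(2 * M : ℤ)) (2 * M)) (by
      intro n hn
      simp only [Finset.mem_Ico, Finset.mem_Ioo] at hn hh ⊢
      omega)
  rw [← h1]
  apply Finset.sum_subset_zero_on_sdiff
  · intro n hn
    simp only [Finset.mem_Ico, Finset.mem_Ioo] at hn ⊢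
    omega
  · intro n hn
    rw [Finset.mem_sdiff] at hn
    simp [hf n hn.2]
  · intro n _
    simp only [add_sub_cancel_right]
    ring

/-- step (5): mean square of `Φ` -/
theorem c1a_meansq (M : ℕ) (f c : ℤ → ℂ) (hf : ∀ n, n ∉ Finset.Ico (0 : ℤ) M → f n = 0)
    (hc : ∀ h, ‖c h‖ ≤ 1) (m : ℝ)
    (hm : ∀ θ : ℝ, ‖∑ n ∈ Finset.Ico (0 : ℤ) M, f n * e (θ * n)‖ ≤ m) :
    ∑ x ∈ Finset.Ico (0 : ℤ) M, ‖∑ k ∈ Finset.Ioo (-(M : ℤ)) M, c k * f (x - k)‖ ^ 2 ≤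
      m ^ 2 * (2 * M) := by
  set P : ℤ → ℂ := fun s => if s ∈ Finset.Ioo (-(M : ℤ)) M then c (-s) else 0 with hP
  have hPs : ∀ n, n ∉ Finset.Ioo (-(M : ℤ)) M → P n = 0 := by
    intro n hn; simp only [hP, if_neg hn]
  have hfs : ∀ n, n ∉ Finset.Ioo (-(M : ℤ)) M → f n = 0 := by
    intro n hn
    apply hf
    simp only [Finset.mem_Ico, Finset.mem_Ioo] at hn ⊢
    omega
  have hsub : Finset.Ico (0 : ℤ) M ⊆ Finset.Ioo (-(M : ℤ)) M := by
    intro n hn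
    simp only [Finset.mem_Ico, Finset.mem_Ioo] at hn ⊢
    omega
  have hm' : ∀ θ : ℝ, ‖∑ s ∈ Finset.Ioo (-(M : ℤ)) M, f s * e (θ * s)‖ ≤ m := by
    intro θ
    have : ∑ s ∈ Finset.Ioo (-(M : ℤ)) M, f s * e (θ * s) =
        ∑ n ∈ Finset.Ico (0 : ℤ) M, f n * e (θ * n) := by
      symm
      apply Finset.sum_subset hsub
      intro n _ hn
      rw [hf n hn, zero_mul]
    rw [this]
    exact hm θ
  have hp := pars M P f hPs hfs m hm'
  have hPn : ∑ s ∈ Finset.Ioo (-(M : ℤ)) M, ‖P s‖ ^ 2 ≤ 2 * M := by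
    calc ∑ s ∈ Finset.Ioo (-(M : ℤ)) M, ‖P s‖ ^ 2 ≤ ∑ _s ∈ Finset.Ioo (-(M : ℤ)) M, (1 : ℝ) := by
          apply Finset.sum_le_sum
          intro s hs
          simp only [hP, if_pos hs]
          exact pow_le_one₀ (norm_nonneg _) (hc _)
      _ = ((Finset.Ioo (-(M : ℤ)) M).card : ℝ) := by simp
      _ ≤ 2 * M := card_Ioo_le M
  have hΦ : ∀ x ∈ Finset.Ico (0 : ℤ) M, ∑ k ∈ Finset.Ioo (-(M : ℤ)) M, c k * f (x - k) =
      ∑ s ∈ Finset.Ioo (-(M : ℤ)) M, P (s + -x) * f s := by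
    intro x hx
    have h1 := c1a_sum_reflect (f := fun n => c (x - n) * f n) (a := 0) (b := M)
      (by intro n hn; simp [hf n hn]) x (Finset.Ioo (-(M : ℤ)) M) (by
        intro k hk
        simp only [Finset.mem_Ico, Finset.mem_Ioo] at hk hx ⊢
        omega)
    simp only [sub_sub_cancel] at h1
    rw [h1]
    apply Finset.sum_subset_zero_on_sdiff hsub
    · intro n hn
      rw [Finset.mem_sdiff] at hn
      rw [hf n hn.2, mul_zero]
    · intro n hn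
      have : n + -x ∈ Finset.Ioo (-(M : ℤ)) M := by
        simp only [Finset.mem_Ico, Finset.mem_Ioo] at hn hx ⊢
        omega
      simp only [hP, if_pos this]
      congr 2
      ring
  calc ∑ x ∈ Finset.Ico (0 : ℤ) M, ‖∑ k ∈ Finset.Ioo (-(M : ℤ)) M, c k * f (x - k)‖ ^ 2
      = ∑ x ∈ Finset.Ico (0 : ℤ) M, ‖∑ s ∈ Finset.Ioo (-(M : ℤ)) M, P (s + -x) * f s‖ ^ 2 :=
        Finset.sum_congr rfl fun x hx => by rw [hΦ x hx]
    _ = ∑ t ∈ (Finset.Ico (0 : ℤ) M).map (Equiv.neg ℤ).toEmbedding,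
          ‖∑ s ∈ Finset.Ioo (-(M : ℤ)) M, P (s + t) * f s‖ ^ 2 := by
        rw [Finset.sum_map]
        rfl
    _ ≤ ∑ t ∈ Finset.Ioo (-(2 * M : ℤ)) (2 * M),
          ‖∑ s ∈ Finset.Ioo (-(M : ℤ)) M, P (s + t) * f s‖ ^ 2 := by
        apply Finset.sum_le_sum_of_subset_of_nonneg
        · intro t ht
          rw [Finset.mem_map] at ht
          obtain ⟨x, hx, rfl⟩ := ht
          simp only [Finset.mem_Ico] at hx
          simp only [Equiv.coe_toEmbedding, Equiv.neg_apply, Finset.mem_Ioo]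
          omega
        · intro _ _ _; positivity
    _ ≤ m ^ 2 * ∑ s ∈ Finset.Ioo (-(M : ℤ)) M, ‖P s‖ ^ 2 := hp
    _ ≤ m ^ 2 * (2 * M) := mul_le_mul_of_nonneg_left hPn (by positivity)

/-- step (7): the second moment of `T` -/
theorem c1a_T (M : ℕ) (f : ℤ → ℂ) (F : ℤ → ℝ) (hf : ∀ n, n ∉ Finset.Ico (0 : ℤ) M → f n = 0)
    (hF : ∀ n, n ∉ Finset.Ico (0 : ℤ) M → F n = 0) :
    ((∑ k ∈ Finset.Ioo (-(M : ℤ)) M, ∑ k' ∈ Finset.Ioo (-(M : ℤ)) M,
      ‖∑ x ∈ Finset.Ico (0 : ℤ) M, (F x : ℂ) * (f (x - k) * (starRingEnd ℂ) (f (x - k')))‖ ^ 2 :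
        ℝ) : ℂ) =
      ((∑ d ∈ Finset.Ioo (-(M : ℤ)) M, (∑ x ∈ Finset.Ico (0 : ℤ) M, F x * F (x + d)) *
        ‖∑ n ∈ Finset.Ico (0 : ℤ) M, f n * (starRingEnd ℂ) (f (n + d))‖ ^ 2 : ℝ) : ℂ) := by
  set I := Finset.Ico (0 : ℤ) M with hI
  set K := Finset.Ioo (-(M : ℤ)) M with hK
  set A : ℤ → ℂ := fun d => ∑ n ∈ I, f n * (starRingEnd ℂ) (f (n + d)) with hA
  have hsq : ∀ v : ℂ, ((‖v‖ : ℝ) : ℂ) ^ 2 = v * (starRingEnd ℂ) v := by
    intro v
    rw [Complex.mul_conj, Complex.normSq_eq_norm_sq]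
    push_cast
    rfl
  have hAk : ∀ x ∈ I, ∀ y ∈ I, ∑ k ∈ K, f (x - k) * (starRingEnd ℂ) (f (y - k)) = A (y - x) := by
    intro x hx y _
    have h1 := c1a_sum_reflect (f := fun n => f n * (starRingEnd ℂ) (f (n + (y - x)))) (a := 0) (b := M)
      (by intro n hn; simp [hf n hn]) x K (by
        intro k hk
        simp only [hI, hK, Finset.mem_Ico, Finset.mem_Ioo] at hk hx ⊢
        omega)
    rw [hA]
    simp only
    rw [← h1]
    apply Finset.sum_congr rfl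
    intro k _
    congr 3
    ring
  have hL : ∀ k k' : ℤ, ((‖∑ x ∈ I, (F x : ℂ) * (f (x - k) * (starRingEnd ℂ) (f (x - k')))‖ : ℝ) : ℂ)
      ^ 2 = ∑ x ∈ I, ∑ y ∈ I, (F x * F y : ℂ) * ((f (x - k) * (starRingEnd ℂ) (f (y - k))) *
        (starRingEnd ℂ) (f (x - k') * (starRingEnd ℂ) (f (y - k')))) := by
    intro k k'
    rw [hsq, map_sum, Finset.sum_mul_sum]
    apply Finset.sum_congr rfl
    intro x _
    apply Finset.sum_congr rfl
    intro y _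
    simp only [map_mul, Complex.conj_ofReal, Complex.conj_conj]
    ring
  push_cast
  simp only [hL]
  -- exchange the order of summation
  have h2 : ∑ k ∈ K, ∑ k' ∈ K, ∑ x ∈ I, ∑ y ∈ I, (F x * F y : ℂ) *
      ((f (x - k) * (starRingEnd ℂ) (f (y - k))) *
        (starRingEnd ℂ) (f (x - k') * (starRingEnd ℂ) (f (y - k')))) =
      ∑ x ∈ I, ∑ y ∈ I, (F x * F y : ℂ) * (A (y - x) * (starRingEnd ℂ) (A (y - x))) := by
    calc _ = ∑ k ∈ K, ∑ x ∈ I, ∑ k' ∈ K, ∑ y ∈ I, (F x * F y : ℂ) *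
          ((f (x - k) * (starRingEnd ℂ) (f (y - k))) *
          (starRingEnd ℂ) (f (x - k') * (starRingEnd ℂ) (f (y - k')))) :=
          Finset.sum_congr rfl fun k _ => Finset.sum_comm
      _ = ∑ x ∈ I, ∑ k ∈ K, ∑ k' ∈ K, ∑ y ∈ I, (F x * F y : ℂ) *
          ((f (x - k) * (starRingEnd ℂ) (f (y - k))) *
          (starRingEnd ℂ) (f (x - k') * (starRingEnd ℂ) (f (y - k')))) := Finset.sum_comm
      _ = ∑ x ∈ I, ∑ k ∈ K, ∑ y ∈ I, ∑ k' ∈ K, (F x * F y : ℂ) *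
          ((f (x - k) * (starRingEnd ℂ) (f (y - k))) *
          (starRingEnd ℂ) (f (x - k') * (starRingEnd ℂ) (f (y - k')))) :=
          Finset.sum_congr rfl fun x _ => Finset.sum_congr rfl fun k _ => Finset.sum_comm
      _ = ∑ x ∈ I, ∑ y ∈ I, ∑ k ∈ K, ∑ k' ∈ K, (F x * F y : ℂ) *
          ((f (x - k) * (starRingEnd ℂ) (f (y - k))) *
          (starRingEnd ℂ) (f (x - k') * (starRingEnd ℂ) (f (y - k')))) :=
          Finset.sum_congr rfl fun x _ => Finset.sum_comm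
      _ = _ := by
          apply Finset.sum_congr rfl
          intro x hx
          apply Finset.sum_congr rfl
          intro y hy
          rw [← hAk x hx y hy, map_sum, Finset.sum_mul_sum, Finset.mul_sum]
          apply Finset.sum_congr rfl
          intro k _
          rw [Finset.mul_sum]
  rw [h2]
  -- now the shift `y = x + d`
  have h3 : ∀ x ∈ I, ∑ y ∈ I, (F x * F y : ℂ) * (A (y - x) * (starRingEnd ℂ) (A (y - x))) =
      ∑ d ∈ K, (F x * F (x + d) : ℂ) * (A d * (starRingEnd ℂ) (A d)) := by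
    intro x hx
    have h4 := sum_shift (f := fun y : ℤ => (F x * F y : ℂ) *
      (A (y - x) * (starRingEnd ℂ) (A (y - x)))) (a := 0) (b := M)
      (by intro y hy; simp [hF y hy]) x K (by
        intro d hd
        simp only [hI, hK, Finset.mem_Ico, Finset.mem_Ioo] at hd hx ⊢
        omega)
    rw [← h4]
    apply Finset.sum_congr rfl
    intro d _
    rw [add_sub_cancel_right, add_comm d x]
  rw [Finset.sum_congr rfl h3, Finset.sum_comm]
  apply Finset.sum_congr rfl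
  intro d _
  rw [hsq, ← Finset.sum_mul]

theorem ShE_one (S : Finset ℕ) (s : Fin 1 → ℤ) : ShE S s = 0 := by
  unfold ShE
  have h1 : (Finset.univ.filter (fun j : Fin 1 => (0 : Fin 1) ≠ j)) = ∅ := by decide
  rw [Fin.sum_univ_one, h1, Finset.sum_empty]

/-- Chunk C1A. Put `Φ(m) = ∑_n f(n) c(m - n)`; the sum is `∑_m g(m) Φ(m)`.
`|∑ g Φ|^2 ≤ (∑ κ(1+ρ)) (∑ κ (1+ρ) |Φ|^2)`, `1 + ρ = 2 + (ρ - 1)`,
`∑ |Φ|^2 ≤ m^2 * 2M` (Parseval, `pars`), and
`|∑_m (ρ-1)(m) |Φ(m)|^2| = |∑_{k,k'} c(k) conj c(k') ∑_m (ρ-1)(m) f(m-k) conj f(m-k')|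
 ≤ 2M (∑_{k,k'} |...|^2)^{1/2} = 2M (∑_d D(d) |A(d)|^2)^{1/2}`,
`D(d) = ∑_m (ρ-1)(m)(ρ-1)(m+d)`, `A(d) = ∑_n f(n) conj f(n+d)`, `|A(d)| ≤ κ^2 M (4 + E(d))`,
`|D(d)| ≤ M E(d)` by `corr0 2`. -/
theorem c1a : ∃ C : ℕ, 1 ≤ C ∧ ∀ (A w z W M : ℕ) (S : Finset ℕ), C ≤ A → C ≤ w → 2 ≤ z →
    PSet w z S → IsW w W → z ^ (C * A) ≤ M → ∀ (r1 r2 : ℤ) (κ : ℝ) (f g : ℤ → ℂ), 1 ≤ κ →
    Maj κ S W r1 f → SuppIn 0 M f → Maj κ S W r2 g → SuppIn 0 M g →
    ∀ (c : ℤ → ℂ), (∀ h, ‖c h‖ ≤ 1) → ∀ m : ℝ,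
    (∀ θ : ℝ, ‖∑ n ∈ Finset.Ico (0 : ℤ) M, f n * e (θ * n)‖ ≤ m) →
    ‖∑ h ∈ Finset.Ioo (-(M : ℤ)) M, c h * ∑ n ∈ Finset.Ico (0 : ℤ) M, f n * g (n + h)‖ ^ 2 ≤
      C * κ ^ 2 * m ^ 2 * M ^ 2 + C * κ ^ 4 * er C A w * M ^ 4 := by
  obtain ⟨C1, hC11, hC1⟩ := corr_m1 2 (by norm_num)
  obtain ⟨C2, hC21, hC2⟩ := corr_p1 2
  obtain ⟨C0, hC01, hC0⟩ := corr_p1 1
  obtain ⟨C3r, hC31r, hC3⟩ := ers_pow_le
  obtain ⟨C4, hC41, hC4⟩ := ers_avg'
  set C3 := ⌈C3r⌉₊ with hC3d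
  have hC3le : C3r ≤ C3 := Nat.le_ceil _
  have hC31 : (1 : ℝ) ≤ C3 := hC31r.trans hC3le
  -- the constant of the second moment of `T`
  set C6 := 4 * (C1 * C2 ^ 2 * (2 + 40 * C3 * C4)) + (C1 + C2 + C0 + C4) with hC6
  have hb1 : C1 ≤ C6 := by rw [hC6]; exact le_add_left (by omega)
  have hb2 : C2 ≤ C6 := by rw [hC6]; exact le_add_left (by omega)
  have hb0 : C0 ≤ C6 := by rw [hC6]; exact le_add_left (by omega)
  have hb4 : C4 ≤ C6 := by rw [hC6]; exact le_add_left (by omega)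
  have hb6 : 1 ≤ C6 := hC11.trans hb1
  refine ⟨4 * C0 * C6 + 2 * C6, by nlinarith, ?_⟩
  intro A w z W M S hA hw hz hS hW hM r1 r2 κ f g hκ hf hfs hg hgs c hc m hm
  set C' := 4 * C0 * C6 + 2 * C6 with hC'
  have hb' : 2 * C6 ≤ C' := by rw [hC']; exact Nat.le_add_left _ _
  have hb0' : 4 * C0 ≤ C' := by
    rw [hC']
    calc 4 * C0 = 4 * C0 * 1 := by ring
      _ ≤ 4 * C0 * C6 := Nat.mul_le_mul_left _ hb6
      _ ≤ _ := Nat.le_add_right _ _
  have hw1 : 1 ≤ w := by omega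
  have hzM : ∀ c, c ≤ C6 → z ^ (c * A) ≤ M := fun c hc =>
    (Nat.pow_le_pow_right (by omega) (Nat.mul_le_mul_right A (by omega))).trans hM
  have hκ0 : 0 ≤ κ := by linarith
  have hMn : (0 : ℝ) ≤ M := by positivity
  set I := Finset.Ico (0 : ℤ) M with hI
  set K := Finset.Ioo (-(M : ℤ)) M with hK
  set F : ℤ → ℝ := rm1 S W r2 M with hF
  have hF0 : ∀ n, n ∉ I → F n = 0 := by
    intro n hn
    exact if_neg hn
  set Φ : ℤ → ℂ := fun x => ∑ k ∈ K, c k * f (x - k) with hΦ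
  have hX := c1a_phi M f g c hfs hgs
  rw [hX]
  have hρ : ∀ n : ℤ, 0 ≤ 1 + rho S (r2 + W * n) := fun n => by
    have := rho_nonneg hS.prime (r2 + W * n); linarith
  -- Cauchy-Schwarz
  have h1 : ‖∑ x ∈ I, g x * Φ x‖ ^ 2 ≤ κ ^ 2 * ((∑ x ∈ I, (1 + rho S (r2 + W * x))) *
      ∑ x ∈ I, (1 + rho S (r2 + W * x)) * ‖Φ x‖ ^ 2) := by
    have h2 : ‖∑ x ∈ I, g x * Φ x‖ ≤ κ * ∑ x ∈ I, (1 + rho S (r2 + W * x)) * ‖Φ x‖ := by
      rw [Finset.mul_sum]
      refine (norm_sum_le _ _).trans (Finset.sum_le_sum fun x _ => ?_)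
      rw [norm_mul, ← mul_assoc]
      exact mul_le_mul_of_nonneg_right (hg x) (norm_nonneg _)
    calc ‖∑ x ∈ I, g x * Φ x‖ ^ 2 ≤ (κ * ∑ x ∈ I, (1 + rho S (r2 + W * x)) * ‖Φ x‖) ^ 2 :=
          pow_le_pow_left₀ (norm_nonneg _) h2 2
      _ = κ ^ 2 * (∑ x ∈ I, (1 + rho S (r2 + W * x)) * ‖Φ x‖) ^ 2 := by ring
      _ ≤ _ := mul_le_mul_of_nonneg_left
          (weighted_cs I (fun x => 1 + rho S (r2 + W * x)) (fun x => ‖Φ x‖) fun x _ => hρ x)
          (by positivity)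
  -- the first factor
  have h3 : ∑ x ∈ I, (1 + rho S (r2 + W * x)) ≤ C0 * M := by
    have h := hC0 A w z W M M S (by omega) (by omega) hz hS hW (hzM _ hb0) le_rfl r2 ![0] 0
    rw [ShE_one, add_zero, mul_one, zero_add] at h
    refine le_of_eq_of_le ?_ h
    apply Finset.sum_congr rfl
    intro x _
    rw [Fin.prod_univ_one]
    simp
  -- the mean square of `Φ`
  have h4 := c1a_meansq M f c hfs hc m hm
  -- the twisted mean square
  set T : ℤ → ℤ → ℂ := fun k k' => ∑ x ∈ I, (F x : ℂ) * (f (x - k) * (starRingEnd ℂ) (f (x - k')))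
    with hT
  have h5 : |∑ x ∈ I, F x * ‖Φ x‖ ^ 2| ≤ ∑ k ∈ K, ∑ k' ∈ K, ‖T k k'‖ := by
    have e1 : ((∑ x ∈ I, F x * ‖Φ x‖ ^ 2 : ℝ) : ℂ) =
        ∑ k ∈ K, ∑ k' ∈ K, c k * (starRingEnd ℂ) (c k') * T k k' := by
      push_cast
      have : ∀ x ∈ I, (F x : ℂ) * ((‖Φ x‖ : ℝ) : ℂ) ^ 2 = ∑ k ∈ K, ∑ k' ∈ K,
          c k * (starRingEnd ℂ) (c k') * ((F x : ℂ) * (f (x - k) * (starRingEnd ℂ) (f (x - k')))) := by
        intro x _
        have hsq : ((‖Φ x‖ : ℝ) : ℂ) ^ 2 = Φ x * (starRingEnd ℂ) (Φ x) := by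
          rw [Complex.mul_conj, Complex.normSq_eq_norm_sq]
          push_cast
          rfl
        rw [hsq, hΦ]
        simp only
        rw [map_sum, Finset.sum_mul_sum, Finset.mul_sum]
        apply Finset.sum_congr rfl
        intro k _
        rw [Finset.mul_sum]
        apply Finset.sum_congr rfl
        intro k' _
        rw [map_mul]
        ring
      rw [Finset.sum_congr rfl this, Finset.sum_comm]
      apply Finset.sum_congr rfl
      intro k _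
      rw [Finset.sum_comm]
      apply Finset.sum_congr rfl
      intro k' _
      rw [hT, Finset.mul_sum]
    have e2 : |∑ x ∈ I, F x * ‖Φ x‖ ^ 2| = ‖((∑ x ∈ I, F x * ‖Φ x‖ ^ 2 : ℝ) : ℂ)‖ := by
      rw [Complex.norm_real, Real.norm_eq_abs]
    rw [e2, e1]
    refine (norm_sum_le _ _).trans (Finset.sum_le_sum fun k _ => ?_)
    refine (norm_sum_le _ _).trans (Finset.sum_le_sum fun k' _ => ?_)
    rw [norm_mul, norm_mul, RCLike.norm_conj]
    calc ‖c k‖ * ‖c k'‖ * ‖T k k'‖ ≤ 1 * 1 * ‖T k k'‖ := by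
          gcongr
          · exact hc k
          · exact hc k'
      _ = ‖T k k'‖ := by ring
  have hcard := card_Ioo_le M
  rw [← hK] at hcard
  have h6 : (∑ k ∈ K, ∑ k' ∈ K, ‖T k k'‖) ^ 2 ≤
      (2 * M) ^ 2 * ∑ k ∈ K, ∑ k' ∈ K, ‖T k k'‖ ^ 2 := by
    rw [← Finset.sum_product', ← Finset.sum_product']
    have := sq_sum_le_card_mul_sum_sq (s := K ×ˢ K) (f := fun x : ℤ × ℤ => ‖T x.1 x.2‖)
    have hc' : ((K ×ˢ K).card : ℝ) ≤ (2 * M) ^ 2 := by
      rw [Finset.card_product]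
      push_cast
      rw [sq]
      exact mul_le_mul hcard hcard (by positivity) (by positivity)
    exact this.trans (mul_le_mul_of_nonneg_right hc' (Finset.sum_nonneg fun _ _ => by positivity))
  have h7 : ∑ k ∈ K, ∑ k' ∈ K, ‖T k k'‖ ^ 2 = ∑ d ∈ K, (∑ x ∈ I, F x * F (x + d)) *
        ‖∑ n ∈ I, f n * (starRingEnd ℂ) (f (n + d))‖ ^ 2 := by
    have := c1a_T M f F hfs hF0
    exact_mod_cast this
  -- the two correlations
  have hern := er_nonneg C1 A w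
  have herle : er C1 A w ≤ 2 := tls_er_le_two hw1
  have her16 : er C1 A w ≤ er C6 A w := tls_er_mono hC11 hb1 hw1
  have her46 : er C4 A w ≤ er C6 A w := tls_er_mono hC41 hb4 hw1
  have hern6 := er_nonneg C6 A w
  have hD : ∀ d : ℤ, |∑ x ∈ I, F x * F (x + d)| ≤ C1 * M * (er C1 A w + 2 * Ers (9 / 10) S d) := by
    intro d
    have h := hC1 A w z W M M S (by omega) (by omega) hz hS hW (hzM _ hb1) le_rfl r2 ![0, d]
    rw [ShE_two] at h
    refine le_of_eq_of_le ?_ h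
    congr 1
    apply Finset.sum_congr rfl
    intro x _
    rw [Fin.prod_univ_two]
    simp [hF]
  have hAd : ∀ d : ℤ, ‖∑ n ∈ I, f n * (starRingEnd ℂ) (f (n + d))‖ ≤
      C2 * κ ^ 2 * M * (1 + 2 * Ers (9 / 10) S d) := by
    intro d
    have h := hC2 A w z W M M S (by omega) (by omega) hz hS hW (hzM _ hb2) le_rfl r1 ![0, d] 0
    rw [ShE_two, zero_add] at h
    have hρ1 : ∀ n : ℤ, 0 ≤ 1 + rho S (r1 + W * n) := fun n => by
      have := rho_nonneg hS.prime (r1 + W * n); linarith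
    calc ‖∑ n ∈ I, f n * (starRingEnd ℂ) (f (n + d))‖
        ≤ ∑ n ∈ I, κ ^ 2 * ∏ i, (1 + rho S (r1 + W * (n + ![0, d] i))) := by
          refine (norm_sum_le _ _).trans (Finset.sum_le_sum fun n _ => ?_)
          rw [norm_mul, RCLike.norm_conj, Fin.prod_univ_two]
          simp only [Matrix.cons_val_zero, Matrix.cons_val_one, add_zero]
          calc ‖f n‖ * ‖f (n + d)‖ ≤ (κ * (1 + rho S (r1 + W * n))) *
                (κ * (1 + rho S (r1 + W * (n + d)))) :=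
                mul_le_mul (hf n) (hf (n + d)) (norm_nonneg _) (mul_nonneg hκ0 (hρ1 n))
            _ = _ := by ring
      _ = κ ^ 2 * ∑ n ∈ I, ∏ i, (1 + rho S (r1 + W * (n + ![0, d] i))) := by rw [Finset.mul_sum]
      _ ≤ κ ^ 2 * (C2 * M * (1 + 2 * Ers (9 / 10) S d)) := by gcongr
      _ = _ := by ring
  have h8 : ∑ k ∈ K, ∑ k' ∈ K, ‖T k k'‖ ^ 2 ≤
      (C1 * C2 ^ 2 * κ ^ 4 * M ^ 3) * ((2 + 40 * C3 * C4) * M * er C6 A w) := by
    rw [h7]
    have hterm : ∀ d ∈ K, (∑ x ∈ I, F x * F (x + d)) *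
        ‖∑ n ∈ I, f n * (starRingEnd ℂ) (f (n + d))‖ ^ 2 ≤
        (C1 * C2 ^ 2 * κ ^ 4 * M ^ 3) * (er C6 A w + 40 * C3 * Ers (9 / 20) S d) := by
      intro d _
      have hE := Ers_nonneg (9 / 10) S d
      have hTn := Ers_nonneg (9 / 20) S d
      have p2 := hC3 w z S d 2 hS (by norm_num) (by norm_num)
      have p3 := hC3 w z S d 3 hS (by norm_num) (by norm_num)
      have p1 := ers_le_920 hS d
      have hm1 : Ers (9 / 20) S d ≤ C3 * Ers (9 / 20) S d := by nlinarith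
      have hm2 : C3r * Ers (9 / 20) S d ≤ C3 * Ers (9 / 20) S d :=
        mul_le_mul_of_nonneg_right hC3le hTn
      set E := Ers (9 / 10) S d
      set TT := Ers (9 / 20) S d
      have q : (er C1 A w + 2 * E) * (1 + 2 * E) ^ 2 ≤ er C6 A w + 40 * C3 * TT := by
        have e1 : (er C1 A w + 2 * E) * (1 + 2 * E) ^ 2 = er C1 A w + (4 * er C1 A w + 2) * E +
            (4 * er C1 A w + 8) * E ^ 2 + 8 * E ^ 3 := by ring
        rw [e1]
        have t1 : (4 * er C1 A w + 2) * E ≤ 10 * (C3 * TT) :=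
          mul_le_mul (by linarith) (by linarith) hE (by norm_num)
        have t2 : (4 * er C1 A w + 8) * E ^ 2 ≤ 16 * (C3 * TT) :=
          mul_le_mul (by linarith) (by linarith) (by positivity) (by norm_num)
        have t3 : 8 * E ^ 3 ≤ 8 * (C3 * TT) := by linarith
        have t4 : 0 ≤ C3 * TT := by positivity
        linarith
      calc (∑ x ∈ I, F x * F (x + d)) * ‖∑ n ∈ I, f n * (starRingEnd ℂ) (f (n + d))‖ ^ 2
          ≤ |∑ x ∈ I, F x * F (x + d)| * ‖∑ n ∈ I, f n * (starRingEnd ℂ) (f (n + d))‖ ^ 2 :=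
            mul_le_mul_of_nonneg_right (le_abs_self _) (by positivity)
        _ ≤ (C1 * M * (er C1 A w + 2 * E)) * (C2 * κ ^ 2 * M * (1 + 2 * E)) ^ 2 :=
            mul_le_mul (hD d) (pow_le_pow_left₀ (norm_nonneg _) (hAd d) 2) (by positivity)
              (by positivity)
        _ = (C1 * C2 ^ 2 * κ ^ 4 * M ^ 3) * ((er C1 A w + 2 * E) * (1 + 2 * E) ^ 2) := by ring
        _ ≤ _ := mul_le_mul_of_nonneg_left q (by positivity)
    refine (Finset.sum_le_sum hterm).trans ?_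
    rw [← Finset.mul_sum, Finset.sum_add_distrib, Finset.sum_const, nsmul_eq_mul, ← Finset.mul_sum]
    apply mul_le_mul_of_nonneg_left _ (by positivity)
    have hav := hC4 A w z M S (by omega) (by omega) hz hS (hzM _ hb4) 1 0 (prime_not_dvd_one hS)
    simp only [one_mul, add_zero] at hav
    calc (K.card : ℝ) * er C6 A w + 40 * C3 * ∑ d ∈ K, Ers (9 / 20) S d
        ≤ (2 * M) * er C6 A w + 40 * C3 * (C4 * M * er C6 A w) := by
          apply add_le_add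
          · exact mul_le_mul_of_nonneg_right hcard hern6
          · apply mul_le_mul_of_nonneg_left _ (by positivity)
            exact hav.trans (mul_le_mul_of_nonneg_left her46 (by positivity))
      _ = (2 + 40 * C3 * C4) * M * er C6 A w := by ring
  have hC6r : 4 * (C1 * C2 ^ 2 * (2 + 40 * C3 * C4)) ≤ (C6 : ℝ) := by
    rw [hC6]; push_cast
    have : (0 : ℝ) ≤ C1 + C2 + C0 + C4 := by positivity
    linarith
  have hC6one : (1 : ℝ) ≤ C6 := by exact_mod_cast hb6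
  have h9 : (∑ k ∈ K, ∑ k' ∈ K, ‖T k k'‖) ^ 2 ≤ C6 * (κ ^ 2 * M ^ 3) ^ 2 * er C6 A w := by
    calc (∑ k ∈ K, ∑ k' ∈ K, ‖T k k'‖) ^ 2 ≤ (2 * M) ^ 2 *
          ((C1 * C2 ^ 2 * κ ^ 4 * M ^ 3) * ((2 + 40 * C3 * C4) * M * er C6 A w)) :=
          h6.trans (mul_le_mul_of_nonneg_left h8 (by positivity))
      _ = (4 * (C1 * C2 ^ 2 * (2 + 40 * C3 * C4))) * ((κ ^ 2 * M ^ 3) ^ 2 * er C6 A w) := by ring
      _ ≤ C6 * ((κ ^ 2 * M ^ 3) ^ 2 * er C6 A w) :=
          mul_le_mul_of_nonneg_right hC6r (by positivity)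
      _ = _ := by ring
  have h10 : ∑ k ∈ K, ∑ k' ∈ K, ‖T k k'‖ ≤ C6 * (κ ^ 2 * M ^ 3) * er (2 * C6) A w :=
    sq_finish (Finset.sum_nonneg fun _ _ => Finset.sum_nonneg fun _ _ => norm_nonneg _) hC6one
      (by positivity) h9
  -- assembly
  have h11 : ∑ x ∈ I, (1 + rho S (r2 + W * x)) * ‖Φ x‖ ^ 2 ≤
      2 * (m ^ 2 * (2 * M)) + C6 * (κ ^ 2 * M ^ 3) * er (2 * C6) A w := by
    have e1 : ∑ x ∈ I, (1 + rho S (r2 + W * x)) * ‖Φ x‖ ^ 2 =
        2 * ∑ x ∈ I, ‖Φ x‖ ^ 2 + ∑ x ∈ I, F x * ‖Φ x‖ ^ 2 := by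
      rw [Finset.mul_sum, ← Finset.sum_add_distrib]
      apply Finset.sum_congr rfl
      intro x hx
      simp only [hF, rm1]
      rw [if_pos hx]
      ring
    rw [e1]
    have := (le_abs_self _).trans (h5.trans h10)
    linarith
  have hern' := er_nonneg C' A w
  have her6' : er (2 * C6) A w ≤ er C' A w := tls_er_mono (by omega) hb' hw1
  have hΦn : 0 ≤ ∑ x ∈ I, (1 + rho S (r2 + W * x)) * ‖Φ x‖ ^ 2 :=
    Finset.sum_nonneg fun x _ => mul_nonneg (hρ x) (by positivity)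
  have hC'r : (C' : ℝ) = 4 * C0 * C6 + 2 * C6 := by rw [hC']; push_cast; ring
  have hb0r : 4 * (C0 : ℝ) ≤ C' := by exact_mod_cast hb0'
  have hb6r : (C0 : ℝ) * C6 ≤ C' := by
    rw [hC'r]
    have : (0 : ℝ) ≤ C0 * C6 := by positivity
    have : (0 : ℝ) ≤ C6 := by positivity
    linarith
  calc ‖∑ x ∈ I, g x * Φ x‖ ^ 2
      ≤ κ ^ 2 * ((C0 * M) * (2 * (m ^ 2 * (2 * M)) + C6 * (κ ^ 2 * M ^ 3) * er (2 * C6) A w)) := by
        refine h1.trans (mul_le_mul_of_nonneg_left ?_ (by positivity))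
        exact mul_le_mul h3 h11 hΦn (by positivity)
    _ = (4 * C0) * (κ ^ 2 * m ^ 2 * M ^ 2) + (C0 * C6) * (κ ^ 4 * er (2 * C6) A w * M ^ 4) := by
        ring
    _ ≤ C' * (κ ^ 2 * m ^ 2 * M ^ 2) + C' * (κ ^ 4 * er C' A w * M ^ 4) := by
        apply add_le_add
        · exact mul_le_mul_of_nonneg_right hb0r (by positivity)
        · apply mul_le_mul hb6r _ (mul_nonneg (mul_nonneg (by positivity) (er_nonneg _ _ _))
            (by positivity)) (by positivity)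
          gcongr
    _ = C' * κ ^ 2 * m ^ 2 * M ^ 2 + C' * κ ^ 4 * er C' A w * M ^ 4 := by ring

end Pool.Agent.Lib.H18GB
end
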