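import Pool.Agent.Lib.H1M.RV.M007
import Pool.Agent.Lib.H1M.RV.M008
import Pool.Agent.Lib.H1M.RV.M024
import Pool.Agent.Lib.H1M.RV.M028
import Pool.Agent.Lib.H1M.RV.M034
import Pool.Agent.Lib.H1M.RV.M035
import Pool.Agent.Lib.H1M.RV.M040
import Pool.Agent.Lib.H1M.RV.M048
import Pool.Agent.Lib.H1M.RV.M050
import Pool.Agent.Lib.H1M.RV.M064
import Pool.Agent.Lib.H1M.RV.M072

/-! Merged copies (to shorten the build) of Lib.H18GB.SR, Lib.H18Q.E5, Lib.H18GB.ST, Lib.H18GB.UAux2, Lib.H18GB.UAux3. -/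

-- from Lib.H18GB.SR
section

/-!
# Project GB: SR

Throughout `S` is a set of primes in `(w, z]`, `IsW w W`, and all intervals have length at least
`z ^ (C A)`; errors are `er C A w = 2^(-A/C) + w^(-1/C)`, and powers `er^(1/2)` etc. are absorbed
by increasing `C`. All sums of products of `rho`'s come from `corr0` / `corr`: the error terms are
`Ers (9/10) S (discriminant)` with discriminants affine in the averaged variables, with coefficient
`± W^i * (1, 2 or 3)` or a prime `> z`; use `ers_mul`, `ers_pow_le`, `ers_avg`.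
The error term `z^(A+k)` is `≤ er * (length)` when `z ^ (C A) ≤ length`.
-/

namespace Pool.Agent.Lib.H18GB

open Finset Pool.Agent.Lib.Sieve

theorem norm_sq_sum_le {ι : Type*} (s : Finset ι) (f : ι → ℂ) :
    ‖∑ i ∈ s, f i‖ ^ 2 ≤ s.card * ∑ i ∈ s, ‖f i‖ ^ 2 := by
  calc ‖∑ i ∈ s, f i‖ ^ 2 ≤ (∑ i ∈ s, ‖f i‖) ^ 2 :=
        pow_le_pow_left₀ (norm_nonneg _) (norm_sum_le _ _) 2
    _ ≤ s.card * ∑ i ∈ s, ‖f i‖ ^ 2 := sq_sum_le_card_mul_sum_sq

/-- The Cauchy-Schwarz part of `sr`. -/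
theorem sr_cs (M : ℕ) (F g : ℤ → ℂ) (hF : ∀ n, n ∉ Finset.Ico (0 : ℤ) M → F n = 0)
    (hg : ∀ n, n ∉ Finset.Ico (0 : ℤ) M → g n = 0) (H : Finset ℤ)
    (hH : H ⊆ Finset.Ioo (-(M : ℤ)) M) (c : ℤ → ℂ) (θ : ℤ → ℝ) (hc : ∀ h, ‖c h‖ ≤ 1) :
    (‖∑ h ∈ H, c h * ∑ n ∈ Finset.Ico (0 : ℤ) M, F n * g (n + h) * e (θ h * n)‖ ^ 2) ^ 2 ≤
      16 * M ^ 4 * ∑ k ∈ Finset.Ioo (-(M : ℤ)) M, ∑ j ∈ Finset.Ioo (-(M : ℤ)) M,
        ‖∑ n ∈ Finset.Ico (0 : ℤ) M, (F n * (starRingEnd ℂ) (F (n + k))) *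
          (starRingEnd ℂ) (F (n + j) * (starRingEnd ℂ) (F (n + j + k)))‖ *
        ‖∑ n ∈ Finset.Ico (0 : ℤ) M, (g n * (starRingEnd ℂ) (g (n + k))) *
          (starRingEnd ℂ) (g (n + j) * (starRingEnd ℂ) (g (n + j + k)))‖ := by
  set K := Finset.Ioo (-(M : ℤ)) M with hK
  set I := Finset.Ico (0 : ℤ) M with hI
  have hMn : (0 : ℝ) ≤ M := by positivity
  have hcardK : (K.card : ℝ) ≤ 2 * M := card_Ioo_le M
  have hcardH : (H.card : ℝ) ≤ 2 * M :=
    le_trans (by exact_mod_cast Finset.card_le_card hH) hcardK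
  -- first Cauchy-Schwarz
  have h1 : ‖∑ h ∈ H, c h * ∑ n ∈ I, F n * g (n + h) * e (θ h * n)‖ ^ 2 ≤
      2 * M * ∑ h ∈ H, ‖∑ n ∈ I, F n * g (n + h) * e (θ h * n)‖ ^ 2 := by
    refine (norm_sq_sum_le _ _).trans ?_
    refine mul_le_mul hcardH ?_ (Finset.sum_nonneg fun _ _ => by positivity) (by positivity)
    apply Finset.sum_le_sum
    intro h _
    rw [norm_mul]
    apply pow_le_pow_left₀ (by positivity)
    calc ‖c h‖ * ‖∑ n ∈ I, F n * g (n + h) * e (θ h * n)‖ ≤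
        1 * ‖∑ n ∈ I, F n * g (n + h) * e (θ h * n)‖ := by gcongr; exact hc h
      _ = _ := one_mul _
  -- opening the square
  set B : ℤ → ℤ → ℂ := fun h k => ∑ n ∈ I, (F n * (starRingEnd ℂ) (F (n + k))) *
    (g (n + h) * (starRingEnd ℂ) (g (n + h + k))) with hB
  have h2 : ∀ h : ℤ, ‖∑ n ∈ I, F n * g (n + h) * e (θ h * n)‖ ^ 2 ≤ ∑ k ∈ K, ‖B h k‖ := by
    intro h
    have hexp := normsq_expand (L := M) (a := fun n => F n * g (n + h) * e (θ h * n))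
      (by intro n hn; simp only [hF n hn]; simp)
    have h3 : ‖(((‖∑ n ∈ I, F n * g (n + h) * e (θ h * n)‖ ^ 2 : ℝ)) : ℂ)‖ =
        ‖∑ n ∈ I, F n * g (n + h) * e (θ h * n)‖ ^ 2 := by
      rw [Complex.norm_real, Real.norm_of_nonneg (by positivity)]
    rw [← h3, hexp]
    refine (norm_sum_le _ _).trans (Finset.sum_le_sum fun k _ => ?_)
    have h4 : ∑ n ∈ I, F n * g (n + h) * e (θ h * n) *
        (starRingEnd ℂ) (F (n + k) * g (n + k + h) * e (θ h * ((n + k : ℤ) : ℝ))) =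
        B h k * e (-(θ h * k)) := by
      rw [hB, Finset.sum_mul]
      apply Finset.sum_congr rfl
      intro n _
      rw [map_mul, map_mul, ← e_neg]
      have : e (θ h * n) * e (-(θ h * ((n + k : ℤ) : ℝ))) = e (-(θ h * k)) := by
        rw [← e_add]
        congr 1
        push_cast
        ring
      rw [← this, add_right_comm n h k]
      ring
    rw [h4, norm_mul, norm_e, mul_one]
  have h5 : ∑ h ∈ H, ‖∑ n ∈ I, F n * g (n + h) * e (θ h * n)‖ ^ 2 ≤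
      ∑ h ∈ K, ∑ k ∈ K, ‖B h k‖ :=
    (Finset.sum_le_sum fun h _ => h2 h).trans
      (Finset.sum_le_sum_of_subset_of_nonneg hH fun _ _ _ =>
        Finset.sum_nonneg fun _ _ => norm_nonneg _)
  -- second Cauchy-Schwarz
  have h6 : (∑ h ∈ K, ∑ k ∈ K, ‖B h k‖) ^ 2 ≤ (2 * M) ^ 2 * ∑ k ∈ K, ∑ h ∈ K, ‖B h k‖ ^ 2 := by
    rw [← Finset.sum_product', Finset.sum_comm, ← Finset.sum_product']
    have := sq_sum_le_card_mul_sum_sq (s := K ×ˢ K) (f := fun x : ℤ × ℤ => ‖B x.1 x.2‖)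
    have hc' : ((K ×ˢ K).card : ℝ) ≤ (2 * M) ^ 2 := by
      rw [Finset.card_product]
      push_cast
      rw [sq]
      exact mul_le_mul hcardK hcardK (by positivity) (by positivity)
    exact this.trans (mul_le_mul_of_nonneg_right hc' (Finset.sum_nonneg fun _ _ => by positivity))
  have h7 : ∀ k : ℤ, ∑ h ∈ K, ‖B h k‖ ^ 2 ≤ ∑ j ∈ K,
      ‖∑ n ∈ I, (F n * (starRingEnd ℂ) (F (n + k))) *
          (starRingEnd ℂ) (F (n + j) * (starRingEnd ℂ) (F (n + j + k)))‖ *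
        ‖∑ n ∈ I, (g n * (starRingEnd ℂ) (g (n + k))) *
          (starRingEnd ℂ) (g (n + j) * (starRingEnd ℂ) (g (n + j + k)))‖ := by
    intro k
    have hcc := cross_corr (L := M) (P := fun n => F n * (starRingEnd ℂ) (F (n + k)))
      (Q := fun n => g n * (starRingEnd ℂ) (g (n + k)))
      (by intro n hn; simp only [hF n hn]; simp) (by intro n hn; simp only [hg n hn]; simp)
    have h8 : ∑ h ∈ K, ‖B h k‖ ^ 2 = ‖((∑ h ∈ K, ‖B h k‖ ^ 2 : ℝ) : ℂ)‖ := by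
      rw [Complex.norm_real, Real.norm_of_nonneg (Finset.sum_nonneg fun _ _ => by positivity)]
    rw [h8]
    have h9 : ((∑ h ∈ K, ‖B h k‖ ^ 2 : ℝ) : ℂ) = _ := hcc
    rw [h9]
    refine (norm_sum_le _ _).trans (Finset.sum_le_sum fun j _ => ?_)
    rw [norm_mul]
  calc (‖∑ h ∈ H, c h * ∑ n ∈ I, F n * g (n + h) * e (θ h * n)‖ ^ 2) ^ 2
      ≤ (2 * M * ∑ h ∈ K, ∑ k ∈ K, ‖B h k‖) ^ 2 := by
        apply pow_le_pow_left₀ (by positivity)
        exact h1.trans (mul_le_mul_of_nonneg_left h5 (by positivity))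
    _ = (2 * M) ^ 2 * (∑ h ∈ K, ∑ k ∈ K, ‖B h k‖) ^ 2 := by ring
    _ ≤ (2 * M) ^ 2 * ((2 * M) ^ 2 * ∑ k ∈ K, ∑ h ∈ K, ‖B h k‖ ^ 2) := by gcongr
    _ = 16 * M ^ 4 * ∑ k ∈ K, ∑ h ∈ K, ‖B h k‖ ^ 2 := by ring
    _ ≤ _ := by
        apply mul_le_mul_of_nonneg_left _ (by positivity)
        exact Finset.sum_le_sum fun k _ => h7 k

/-- Chunk SR. Write `F = (ρ(r1 + W ·) - 1) 1_{[0,M)}`, `X` the sum. Cauchy-Schwarz over `h ∈ H`:
`|X|^2 ≤ 2M ∑_{h ∈ H} |∑_n F(n) g(n+h) e(θ_h n)|^2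
  = 2M ∑_{h ∈ H, |k| < M} e(-θ_h k) ∑_n F(n) F(n+k) g(n+h) conj g(n+k+h)`,
Cauchy-Schwarz over `(h,k)` and extension of the sum to all integers `h`:
`|X|^4 ≤ C M^4 ∑_{k,j} |D_F(k,j)| |D_g(k,j)|`, `D_F(k,j) = ∑_n F(n)F(n+k)F(n+j)F(n+j+k)` (with
conjugates for `g`). By `corr0 4` (expanding), `|D_F(k,j)| ≤ M E(k,j)`,
`|D_g(k,j)| ≤ κ^4 M (16 + E(k,j))`, `E` = combination of `er` and of `Ers (9/10) S` at `k, j, j+k,
j-k`; average over `(k,j)` using `ers_pow_le`, `ers_avg`. -/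
theorem sr : ∃ C : ℕ, 1 ≤ C ∧ ∀ (A w z W M : ℕ) (S : Finset ℕ), C ≤ A → C ≤ w → 2 ≤ z →
    PSet w z S → IsW w W → z ^ (C * A) ≤ M → ∀ (r1 r2 : ℤ) (κ : ℝ) (g : ℤ → ℂ), 1 ≤ κ →
    Maj κ S W r2 g → SuppIn 0 M g → ∀ (H : Finset ℤ), H ⊆ Finset.Ioo (-(M : ℤ)) M →
    ∀ (c : ℤ → ℂ) (θ : ℤ → ℝ), (∀ h, ‖c h‖ ≤ 1) →
    ‖∑ h ∈ H, c h * ∑ n ∈ Finset.Ico (0 : ℤ) M,
      ((rho S (r1 + W * n) - 1 : ℝ) : ℂ) * g (n + h) * e (θ h * n)‖ ≤ C * κ * er C A w * M ^ 2 := by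
  obtain ⟨C1, hC11, hC1⟩ := par_m1
  obtain ⟨C2, hC21, hC2⟩ := par_p1
  obtain ⟨C3, hC31, hC3⟩ := ShE_four_pow
  obtain ⟨C4, hC41, hC4⟩ := QE_avg
  set C5 := 16 * C1 * C2 * (4 + 4 * C3 * C4) + (C1 + C2 + C4) with hC5
  have hb1 : C1 ≤ C5 := by rw [hC5]; exact le_add_left (by omega)
  have hb2 : C2 ≤ C5 := by rw [hC5]; exact le_add_left (by omega)
  have hb4 : C4 ≤ C5 := by rw [hC5]; exact le_add_left (by omega)
  have hb5 : 1 ≤ C5 := hC11.trans hb1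
  refine ⟨2 * (2 * C5), by omega, ?_⟩
  intro A w z W M S hA hw hz hS hW hM r1 r2 κ g hκ hg hgs H hH c θ hc
  have hw1 : 1 ≤ w := by omega
  have hzM : ∀ c, c ≤ 2 * (2 * C5) → z ^ (c * A) ≤ M := fun c hc =>
    (Nat.pow_le_pow_right (by omega) (Nat.mul_le_mul_right A hc)).trans hM
  set F : ℤ → ℂ := fun n => ((rm1 S W r1 M n : ℝ) : ℂ) with hF
  have hF0 : ∀ n, n ∉ Finset.Ico (0 : ℤ) M → F n = 0 := by
    intro n hn
    simp only [hF, rm1, if_neg hn]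
    simp
  have hX : ∑ h ∈ H, c h * ∑ n ∈ Finset.Ico (0 : ℤ) M,
      ((rho S (r1 + W * n) - 1 : ℝ) : ℂ) * g (n + h) * e (θ h * n) =
      ∑ h ∈ H, c h * ∑ n ∈ Finset.Ico (0 : ℤ) M, F n * g (n + h) * e (θ h * n) := by
    apply Finset.sum_congr rfl
    intro h _
    congr 1
    apply Finset.sum_congr rfl
    intro n hn
    simp only [hF, rm1, if_pos hn]
  rw [hX]
  have hcs := sr_cs M F g hF0 hgs H hH c θ hc
  set X := ‖∑ h ∈ H, c h * ∑ n ∈ Finset.Ico (0 : ℤ) M, F n * g (n + h) * e (θ h * n)‖ with hXdef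
  set K := Finset.Ioo (-(M : ℤ)) M with hK
  have hκ0 : 0 ≤ κ := by linarith
  have hMn : (0 : ℝ) ≤ M := by positivity
  have her5 : er C1 A w ≤ er C5 A w := tls_er_mono hC11 hb1 hw1
  have her45 : er C4 A w ≤ er C5 A w := tls_er_mono hC41 hb4 hw1
  have herle : er C1 A w ≤ 2 := tls_er_le_two hw1
  have hern := er_nonneg C1 A w
  have hern5 := er_nonneg C5 A w
  -- the two correlations
  have hDF : ∀ k j : ℤ, ‖∑ n ∈ Finset.Ico (0 : ℤ) M, (F n * (starRingEnd ℂ) (F (n + k))) *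
      (starRingEnd ℂ) (F (n + j) * (starRingEnd ℂ) (F (n + j + k)))‖ ≤
      C1 * M * (er C1 A w + ShE S ![0, k, j, j + k]) := by
    intro k j
    have h := hC1 A w z W M S (by omega) (by omega) hz hS hW (hzM _ (by omega)) r1 k j
    have e1 : ∑ n ∈ Finset.Ico (0 : ℤ) M, (F n * (starRingEnd ℂ) (F (n + k))) *
        (starRingEnd ℂ) (F (n + j) * (starRingEnd ℂ) (F (n + j + k))) =
        ((∑ x ∈ Finset.Ico (0 : ℤ) M, rm1 S W r1 M x * rm1 S W r1 M (x + k) *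
      (rm1 S W r1 M (x + j) * rm1 S W r1 M (x + j + k)) : ℝ) : ℂ) := by
      push_cast
      apply Finset.sum_congr rfl
      intro n _
      simp only [hF, map_mul, Complex.conj_ofReal]
    rw [e1, Complex.norm_real, Real.norm_eq_abs]
    exact h
  have hDG : ∀ k j : ℤ, ‖∑ n ∈ Finset.Ico (0 : ℤ) M, (g n * (starRingEnd ℂ) (g (n + k))) *
      (starRingEnd ℂ) (g (n + j) * (starRingEnd ℂ) (g (n + j + k)))‖ ≤
      C2 * κ ^ 4 * M * (1 + ShE S ![0, k, j, j + k]) := by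
    intro k j
    have h := hC2 A w z W M S (by omega) (by omega) hz hS hW (hzM _ (by omega)) r2 κ g hκ0 hg k j
    refine ((norm_sum_le _ _).trans (le_of_eq ?_)).trans h
    apply Finset.sum_congr rfl
    intro n _
    simp only [norm_mul, RCLike.norm_conj]
  -- product and average
  have hprod : ∀ k j : ℤ, ‖∑ n ∈ Finset.Ico (0 : ℤ) M, (F n * (starRingEnd ℂ) (F (n + k))) *
      (starRingEnd ℂ) (F (n + j) * (starRingEnd ℂ) (F (n + j + k)))‖ *
      ‖∑ n ∈ Finset.Ico (0 : ℤ) M, (g n * (starRingEnd ℂ) (g (n + k))) *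
      (starRingEnd ℂ) (g (n + j) * (starRingEnd ℂ) (g (n + j + k)))‖ ≤
      (C1 * C2 * κ ^ 4 * M ^ 2) * (er C5 A w + 4 * C3 * QE S k j) := by
    intro k j
    obtain ⟨q1, q2⟩ := hC3 w z S hS k j
    have hn := ShE_nonneg S ![0, k, j, j + k]
    have hQ := QE_nonneg S k j
    calc _ ≤ (C1 * M * (er C1 A w + ShE S ![0, k, j, j + k])) *
          (C2 * κ ^ 4 * M * (1 + ShE S ![0, k, j, j + k])) :=
          mul_le_mul (hDF k j) (hDG k j) (norm_nonneg _) (by positivity)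
      _ = (C1 * C2 * κ ^ 4 * M ^ 2) * (er C1 A w + (1 + er C1 A w) * ShE S ![0, k, j, j + k] +
          ShE S ![0, k, j, j + k] ^ 2) := by ring
      _ ≤ (C1 * C2 * κ ^ 4 * M ^ 2) * (er C5 A w + 4 * C3 * QE S k j) := by
          apply mul_le_mul_of_nonneg_left _ (by positivity)
          have : (1 + er C1 A w) * ShE S ![0, k, j, j + k] ≤ 3 * (C3 * QE S k j) :=
            mul_le_mul (by linarith) q1 hn (by norm_num)
          linarith
  have hcard := card_Ioo_le M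
  rw [← hK] at hcard
  have hsum : ∑ k ∈ K, ∑ j ∈ K, ‖∑ n ∈ Finset.Ico (0 : ℤ) M, (F n * (starRingEnd ℂ) (F (n + k))) *
      (starRingEnd ℂ) (F (n + j) * (starRingEnd ℂ) (F (n + j + k)))‖ *
      ‖∑ n ∈ Finset.Ico (0 : ℤ) M, (g n * (starRingEnd ℂ) (g (n + k))) *
      (starRingEnd ℂ) (g (n + j) * (starRingEnd ℂ) (g (n + j + k)))‖ ≤
      (C1 * C2 * κ ^ 4 * M ^ 2) * ((4 + 4 * C3 * C4) * M ^ 2 * er C5 A w) := by
    calc _ ≤ ∑ k ∈ K, ∑ j ∈ K, (C1 * C2 * κ ^ 4 * M ^ 2) * (er C5 A w + 4 * C3 * QE S k j) :=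
          Finset.sum_le_sum fun k _ => Finset.sum_le_sum fun j _ => hprod k j
      _ = (C1 * C2 * κ ^ 4 * M ^ 2) * ((K.card * K.card) * er C5 A w +
          4 * C3 * ∑ k ∈ K, ∑ j ∈ K, QE S k j) := by
          simp only [← Finset.mul_sum, Finset.sum_add_distrib, Finset.sum_const, nsmul_eq_mul]
          ring
      _ ≤ (C1 * C2 * κ ^ 4 * M ^ 2) * (((2 * M) * (2 * M)) * er C5 A w +
          4 * C3 * (C4 * M ^ 2 * er C5 A w)) := by
          apply mul_le_mul_of_nonneg_left _ (by positivity)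
          apply add_le_add
          · exact mul_le_mul_of_nonneg_right
              (mul_le_mul hcard hcard (by positivity) (by positivity)) hern5
          · apply mul_le_mul_of_nonneg_left _ (by positivity)
            exact (hC4 A w z M S (by omega) (by omega) hz hS (hzM _ (by omega))).trans
              (mul_le_mul_of_nonneg_left her45 (by positivity))
      _ = _ := by ring
  have hC5r : 16 * C1 * C2 * (4 + 4 * C3 * C4) ≤ (C5 : ℝ) := by
    rw [hC5]; push_cast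
    have : (0 : ℝ) ≤ C1 + C2 + C4 := by positivity
    linarith
  have hC51 : (1 : ℝ) ≤ C5 := by exact_mod_cast hb5
  have h4 : (X ^ 2) ^ 2 ≤ C5 * (κ ^ 2 * M ^ 4) ^ 2 * er C5 A w := by
    calc (X ^ 2) ^ 2 ≤ 16 * M ^ 4 * ((C1 * C2 * κ ^ 4 * M ^ 2) *
          ((4 + 4 * C3 * C4) * M ^ 2 * er C5 A w)) :=
          hcs.trans (mul_le_mul_of_nonneg_left hsum (by positivity))
      _ = (16 * C1 * C2 * (4 + 4 * C3 * C4)) * ((κ ^ 2 * M ^ 4) ^ 2 * er C5 A w) := by ring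
      _ ≤ C5 * ((κ ^ 2 * M ^ 4) ^ 2 * er C5 A w) :=
          mul_le_mul_of_nonneg_right hC5r (by positivity)
      _ = _ := by ring
  have h2 : X ^ 2 ≤ C5 * (κ ^ 2 * M ^ 4) * er (2 * C5) A w :=
    sq_finish (by positivity) hC51 (by positivity) h4
  have h3 : X ^ 2 ≤ C5 * (κ * M ^ 2) ^ 2 * er (2 * C5) A w := by
    refine h2.trans (le_of_eq ?_)
    ring
  have h1 : X ≤ C5 * (κ * M ^ 2) * er (2 * (2 * C5)) A w :=
    sq_finish (norm_nonneg _) hC51 (by positivity) h3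
  refine h1.trans ?_
  have hfin := er_nonneg (2 * (2 * C5)) A w
  push_cast
  have : 0 ≤ κ * M ^ 2 * er (2 * (2 * C5)) A w := by positivity
  nlinarith

end Pool.Agent.Lib.H18GB
end

-- from Lib.H18Q.E5
section

/-!
# Project H18Q, chunk E5: detection of zeros by `χ(n) (1 + ψ(n) n^(-η))`
-/

open Finset

namespace Pool.Agent.Lib.H18Q

open ArithmeticFunction Pool.Agent.Lib.H68T

theorem E5_analytic (c : ℕ → ℂ) (hc : ∀ n, ‖c n‖ ≤ 2) (s₀ : ℂ) (h : 1 < s₀.re) :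
    AnalyticAt ℂ (LSeries (fun n => (Λ n : ℂ) * c n)) s₀ := by
  apply LSeries_analyticOnNhd (fun n => (Λ n : ℂ) * c n) s₀
  have h2 : ((1 : ℝ) : EReal) < (s₀.re : EReal) := by exact_mod_cast h
  exact lt_of_le_of_lt (d0_abs c hc) h2

theorem E5_series (c : ℕ → ℂ) (hc : ∀ n, ‖c n‖ ≤ 2) (F : ℂ → ℂ) (b : Prop) [Decidable b]
    (hF : ∀ s : ℂ, 1 < s.re → logDeriv F s = -LSeries (fun n => (Λ n : ℂ) * c n) s +
        (if b then 1 / (s - 1) else 0)) (lam : ℝ)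
    (hlam : 0 < lam) (k : ℕ) (v : ℝ) :
    ‖(lam : ℂ) ^ (k + 1) * (iteratedDeriv k (logDeriv F) (1 + lam + v * Complex.I) /
      (k.factorial : ℂ))‖ ≤
    ‖∑' n : ℕ, ((Λ n * Jk lam k n : ℝ) : ℂ) * c n *
      (n : ℂ) ^ (-(v * Complex.I))‖ +
      (if b then ‖(lam : ℂ) / (lam + v * Complex.I)‖ ^ (k + 1) else 0) := by
  have hre := D1_re lam v hlam
  have hser := D0_series c hc lam hlam k v
  have hnser : ‖(lam : ℂ) ^ (k + 1) * (iteratedDeriv k (LSeries (fun n => (Λ n : ℂ) * c n))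
      (1 + lam + v * Complex.I) / (k.factorial : ℂ))‖ =
      ‖∑' n : ℕ, ((Λ n * Jk lam k n : ℝ) : ℂ) * c n *
        (n : ℂ) ^ (-(v * Complex.I))‖ := by
    rw [hser, norm_mul, norm_pow, norm_neg, norm_one, one_pow, one_mul]
  by_cases hb : b
  · rw [if_pos hb]
    have hev : logDeriv F =ᶠ[nhds ((1 : ℂ) + lam + v * Complex.I)]
        fun s => 1 / (s - 1) - LSeries (fun n => (Λ n : ℂ) * c n) s := by
      filter_upwards [D1_near _ hre] with s hs
      rw [hF s hs, if_pos hb]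
      ring
    have hd := (hev.iteratedDeriv k).eq_of_nhds
    have hne : ((1 : ℂ) + lam + v * Complex.I) - 1 ≠ 0 := by
      intro h0
      have := congrArg Complex.re h0
      simp at this
      exact hlam.ne' this
    have hA1 : ContDiffAt ℂ k (fun s : ℂ => 1 / (s - 1)) ((1 : ℂ) + lam + v * Complex.I) := by
      apply ContDiffAt.div contDiffAt_const
      · exact contDiffAt_id.sub contDiffAt_const
      · exact hne
    have hA2 : ContDiffAt ℂ k (LSeries (fun n => (Λ n : ℂ) * c n))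
        ((1 : ℂ) + lam + v * Complex.I) := (E5_analytic c hc _ hre).contDiffAt
    rw [hd, iteratedDeriv_fun_sub hA1 hA2, D1_inv, sub_div, mul_sub]
    have hk : (k.factorial : ℂ) ≠ 0 := by exact_mod_cast k.factorial_ne_zero
    have h3 : (lam : ℂ) ^ (k + 1) * ((-1) ^ k * (k.factorial : ℂ) *
        (1 / ((1 : ℂ) + lam + v * Complex.I - 1) ^ (k + 1)) / (k.factorial : ℂ)) =
        (-1) ^ k * ((lam : ℂ) / (lam + v * Complex.I)) ^ (k + 1) := by
      have h4 : (1 : ℂ) + lam + v * Complex.I - 1 = lam + v * Complex.I := by ring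
      rw [h4] at hne ⊢
      rw [div_pow]
      field_simp
    rw [h3]
    refine (norm_sub_le _ _).trans ?_
    rw [hnser, norm_mul, norm_pow, norm_neg, norm_one, one_pow, one_mul, norm_pow]
    linarith
  · rw [if_neg hb, add_zero]
    have hev : logDeriv F =ᶠ[nhds ((1 : ℂ) + lam + v * Complex.I)]
        fun s => -LSeries (fun n => (Λ n : ℂ) * c n) s := by
      filter_upwards [D1_near _ hre] with s hs
      rw [hF s hs, if_neg hb, add_zero]
    have hd := (hev.iteratedDeriv k).eq_of_nhds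
    rw [hd, iteratedDeriv_fun_neg, neg_div, mul_neg, norm_neg, hnser]

/-- Detection. Proof: as `detect_primes` in chunk `D1`, with `F` of `E4_data` and `c = cE r ψ β p`:
`detect` for `F` (`T = Q^10`, `|v| ≤ Q^9`), `logDeriv F` near `s₀` from `E4_data` (open set
`Re s > 1`), `D0_series`, `D0_trunc`; the pole of `p0` contributes at most `(2 lam)^K1` as
`|v| ≥ 1/2`. -/
theorem E5_detect : ∃ C3 K : ℝ, 1 ≤ C3 ∧ ∀ Q : ℕ, K ≤ Q → ∀ (r : ℕ) [NeZero r]
    (ψ : DirichletCharacter ℂ r), r ≤ Q → ψ.IsPrimitive → ψ ≠ 1 → ψ ^ 2 = 1 → ∀ β : ℝ,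
    7 / 8 ≤ β → β < 1 → ψ.LFunction (β : ℂ) = 0 → ∀ p ∈ PC Q, ∀ κ v : ℝ, 1 ≤ κ →
    κ ≤ th0 * Real.log Q → |v| ≤ (Q : ℝ) ^ 9 → (p = p0 → 1 / 2 ≤ |v|) → ∀ K1 : ℕ,
    C3 * κ ≤ K1 →
    (∃ ρ : ℂ, Lx r ψ β p ρ = 0 ∧ 1 - κ / Real.log Q ≤ ρ.re ∧ |ρ.im - v| ≤ κ / Real.log Q) →
    ∃ k : ℕ, K1 ≤ k + 1 ∧ k + 1 < 2 * K1 ∧ 1 / 4 * (1 / 4096 : ℝ) ^ K1 ≤
      ‖PP (cE r ψ β p) (κ / Real.log Q) k K1 v‖ := by
  classical
  obtain ⟨C0, K, hC0, hL⟩ := E4_data
  obtain ⟨C3, hC3, hdet⟩ := detect C0 hC0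
  obtain ⟨C3', hC3', htr⟩ := D0_trunc
  refine ⟨max C3 C3', K, hC3.trans (le_max_left _ _), ?_⟩
  intro Q hQ r hr0 ψ hrQ hψp hψ1 hψ2 β hβ hβ1 hβ0 p hp κ v hκ hκ2 hv hp0v K1 hK1 hρ
  obtain ⟨F, hFL, hFz, hFs⟩ := hL Q hQ r ψ hrQ hψp hψ1 hψ2 β hβ hβ1 hβ0 p hp
  have hth : (0 : ℝ) < th0 := by unfold th0; positivity
  have hlog : 0 < Real.log Q := by
    by_contra hcon
    push Not at hcon
    have : th0 * Real.log Q ≤ 0 := mul_nonpos_of_nonneg_of_nonpos hth.le hcon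
    linarith
  have hQ1 : (1 : ℝ) ≤ Q := by
    by_contra hcon
    push Not at hcon
    have h0 : Real.log (Q : ℝ) ≤ 0 := Real.log_nonpos (Nat.cast_nonneg Q) hcon.le
    linarith
  have hlam : 0 < κ / Real.log Q := by positivity
  have hlamth : κ / Real.log Q ≤ th0 := by
    rw [div_le_iff₀ hlog]
    exact hκ2
  have hv10 : |v| ≤ (Q : ℝ) ^ 10 :=
    hv.trans (pow_le_pow_right₀ hQ1 (by norm_num))
  have hκ0 : 0 < κ := by linarith
  have hK1a : C3 * κ ≤ K1 := (mul_le_mul_of_nonneg_right (le_max_left _ _) hκ0.le).trans hK1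
  have hK1b : C3' * κ ≤ K1 := (mul_le_mul_of_nonneg_right (le_max_right _ _) hκ0.le).trans hK1
  have hK1c : C3' ≤ K1 := by
    refine le_trans ?_ hK1b
    nlinarith
  have hK1d : 1 ≤ K1 := by
    have : (1 : ℝ) ≤ K1 := hC3'.trans hK1c
    exact_mod_cast this
  have hρ' : ∃ ρ : ℂ, F ρ = 0 ∧ 1 - κ / Real.log Q ≤ ρ.re ∧ |ρ.im - v| ≤ κ / Real.log Q := by
    obtain ⟨ρ, h1, h2, h3⟩ := hρ
    exact ⟨ρ, hFz ρ h1, h2, h3⟩
  obtain ⟨e, he1, he2, he3⟩ := hdet (Real.log Q) ((Q : ℝ) ^ 10) F hFL κ v hκ hκ2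
    hv10 K1 hK1a hρ'
  obtain ⟨k, rfl⟩ : ∃ k, e = k + 1 := ⟨e - 1, by omega⟩
  refine ⟨k, he1, he2, ?_⟩
  rw [Nat.add_sub_cancel] at he3
  have hser := E5_series (cE r ψ β p) (cE_norm r ψ β hβ1 p) F (p = p0) (fun s hs => by
    rw [hFs s hs]) (κ / Real.log Q) hlam k v
  have htr2 := htr (cE r ψ β p) (cE_norm r ψ β hβ1 p) (κ / Real.log Q) v k K1 hlam
    hlamth hK1c he1 he2
  have h4096 : (0 : ℝ) < (1 / 4096 : ℝ) ^ K1 := by positivity
  have hterm : (if p = p0 then ‖((κ / Real.log Q : ℝ) : ℂ) /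
      (((κ / Real.log Q : ℝ) : ℂ) + v * Complex.I)‖ ^ (k + 1) else 0) ≤
      1 / 8 * (1 / 4096 : ℝ) ^ K1 := by
    split_ifs with hp0
    · have hv2 := hp0v hp0
      set lam := κ / Real.log Q with hlamdef
      have h1 : ‖(lam : ℂ) / ((lam : ℂ) + v * Complex.I)‖ ≤ 2 * th0 := by
        rw [norm_div, Complex.norm_real, Real.norm_of_nonneg hlam.le]
        have h2 : |v| ≤ ‖(lam : ℂ) + v * Complex.I‖ := by
          have := Complex.abs_im_le_norm ((lam : ℂ) + v * Complex.I)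
          simpa using this
        have h3 : 1 / 2 ≤ ‖(lam : ℂ) + v * Complex.I‖ := hv2.trans h2
        rw [div_le_iff₀ (by linarith)]
        nlinarith
      have h2 : ‖(lam : ℂ) / ((lam : ℂ) + v * Complex.I)‖ ^ (k + 1) ≤ (2 * th0) ^ (k + 1) :=
        pow_le_pow_left₀ (norm_nonneg _) h1 _
      have h3 : (2 * th0) ^ (k + 1) ≤ (2 * th0) ^ K1 :=
        pow_le_pow_of_le_one (by positivity) (by unfold th0; norm_num) he1
      have h4 : (2 * th0) ^ K1 = (2 * th0 * 4096) ^ K1 * (1 / 4096) ^ K1 := by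
        rw [← mul_pow]
        congr 1
        ring
      have h5 : (2 * th0 * 4096) ^ K1 ≤ (2 * th0 * 4096) ^ 1 :=
        pow_le_pow_of_le_one (by positivity) (by unfold th0; norm_num) hK1d
      have h6 : (2 * th0 * 4096) ^ 1 ≤ 1 / 8 := by
        unfold th0
        norm_num
      calc _ ≤ (2 * th0) ^ K1 := h2.trans h3
        _ = (2 * th0 * 4096) ^ K1 * (1 / 4096) ^ K1 := h4
        _ ≤ _ := mul_le_mul_of_nonneg_right (h5.trans h6) h4096.le
    · positivity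
  have hA : 1 / 2 * (1 / 4096 : ℝ) ^ K1 ≤
      ‖∑' n : ℕ, ((Λ n * Jk (κ / Real.log Q) k n : ℝ) : ℂ) * cE r ψ β p n *
        (n : ℂ) ^ (-(v * Complex.I))‖ + 1 / 8 * (1 / 4096 : ℝ) ^ K1 := by
    refine (he3.trans hser).trans ?_
    exact add_le_add le_rfl hterm
  have hB := norm_sub_norm_le (∑' n : ℕ, ((Λ n * Jk (κ / Real.log Q) k n : ℝ) : ℂ) *
    cE r ψ β p n * (n : ℂ) ^ (-(v * Complex.I)))
    (PP (cE r ψ β p) (κ / Real.log Q) k K1 v)
  have hC := hB.trans htr2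
  linarith

end Pool.Agent.Lib.H18Q
end

-- from Lib.H18GB.ST
section

/-!
# The Type II structural theorem (assembly of STR, CHR, QC, GC)
-/

namespace Pool.Agent.Lib.H18GB

open Finset Pool.Agent.Lib.Sieve

/-- the part `2^(-A/C)` of `er` -/
theorem st_two {K C A a b : ℕ} {ρ : ℝ} (hρ0 : 0 < ρ) (hρ1 : ρ ≤ 1) (hC : 1 ≤ C) (hCK : C ≤ K)
    (ha : a ≤ K) (hb : b ≤ K) (hb0 : 1 ≤ b) (h : K * (2 : ℝ) ^ (-(A : ℝ) / K) ≤ ρ ^ K) :
    (2 : ℝ) ^ (-(A : ℝ) / C) ≤ ρ ^ a / b := by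
  have hCr : (0 : ℝ) < C := by exact_mod_cast hC
  have hKr : (0 : ℝ) < K := by exact_mod_cast (lt_of_lt_of_le hC hCK)
  have hbr : (0 : ℝ) < b := by exact_mod_cast hb0
  have hCK' : (C : ℝ) ≤ K := by exact_mod_cast hCK
  have hbK : (b : ℝ) ≤ K := by exact_mod_cast hb
  have h1 : (2 : ℝ) ^ (-(A : ℝ) / C) ≤ (2 : ℝ) ^ (-(A : ℝ) / K) := by
    apply Real.rpow_le_rpow_of_exponent_le (by norm_num)
    rw [neg_div, neg_div, neg_le_neg_iff]
    exact div_le_div_of_nonneg_left (Nat.cast_nonneg _) hCr hCK'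
  have h2 : (2 : ℝ) ^ (-(A : ℝ) / K) ≤ ρ ^ K / K := by
    rw [le_div_iff₀ hKr]
    linarith
  have h3 : ρ ^ K ≤ ρ ^ a := pow_le_pow_of_le_one hρ0.le hρ1 ha
  have h4 : ρ ^ K / K ≤ ρ ^ a / b := div_le_div₀ (by positivity) h3 hbr hbK
  linarith

/-- the part `w^(-1/C)` of `er` -/
theorem st_w (K : ℕ) (hK : 1 ≤ K) (η : ℝ) (hη : 0 < η) : ∃ w0 : ℕ, ∀ w : ℕ, w0 ≤ w →
    (w : ℝ) ^ (-(1 : ℝ) / K) ≤ η := by
  have hK' : (0 : ℝ) < K := by exact_mod_cast hK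
  have h := (tendsto_rpow_neg_atTop (y := (1 : ℝ) / K) (by positivity)).comp
    (tendsto_natCast_atTop_atTop (R := ℝ))
  have h1 := (h.eventually (Iio_mem_nhds hη))
  obtain ⟨A0, hA0⟩ := Filter.eventually_atTop.mp h1
  refine ⟨A0, fun A hA => ?_⟩
  have h2 := hA0 A hA
  simp only [Function.comp] at h2
  rw [neg_div]
  exact h2.le

open Classical in
/-- If the Type II sum is a positive proportion of its trivial bound, then a positive proportion of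
the pairs of `H` congruent mod `W` have `θ h - θ h'` near `(1/(Q W^2)) ℤ`. -/
theorem st : ∃ K : ℕ, 1 ≤ K ∧ ∀ (δ κ : ℝ) (A : ℕ), 0 < δ → δ ≤ 1 → 1 ≤ κ → K ≤ A →
    K * (2 : ℝ) ^ (-(A : ℝ) / K) ≤ (δ / κ) ^ K →
    ∃ (c : ℝ) (Q T w0 : ℕ), 0 < c ∧ 1 ≤ Q ∧ ∀ (w W : ℕ), w0 ≤ w → IsW w W →
    ∃ y0 : ℕ, ∀ (y B M : ℕ) (r b0 : ℤ) (P : Finset ℕ) (H : Finset ℤ), y0 ≤ y →
    Cfg w W y B M r b0 P H → y ^ (K * A) ≤ B → T * B ^ 2 ≤ M →
    ∀ (β g c' : ℤ → ℂ) (θ : ℤ → ℝ), BetaOK (sprimes w y) β → Maj κ (sprimes w y) W r g →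
    SuppIn 0 M g → (∀ h, ‖c' h‖ ≤ 1) →
    δ * VV (sprimes w y) ^ 2 * M ^ 2 / W ≤
      ‖∑ h ∈ H, c' h * ∑ n ∈ Finset.Ico (0 : ℤ) M, fII W r P β n * g (n + h) * e (θ h * n)‖ →
    c * M ^ 2 / W ≤ (((H ×ˢ H).filter fun q =>
      (W : ℤ) ∣ q.1 - q.2 ∧ Near Q W T M (θ q.1 - θ q.2)).card : ℝ) := by
  obtain ⟨K1, hK1, hstr⟩ := str
  obtain ⟨K2, hK2, hchr⟩ := chr
  obtain ⟨K3, hK3, hqc⟩ := qc
  set a1 := K1 with ha1
  set b1 := 2 * K1 with hb1
  set a2 := K1 * K2 with ha2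
  set b2 := 2 * K2 * K1 ^ K2 with hb2
  set a3 := K1 * K2 * K3 with ha3
  set b3 := 2 * (K3 * K2) * (K1 ^ K2 * K2) ^ K3 with hb3
  have hb1' : 1 ≤ b1 := by omega
  have hb2' : 1 ≤ b2 := by
    have : 0 < K1 ^ K2 := by positivity
    have : 0 < 2 * K2 * K1 ^ K2 := by positivity
    omega
  have hb3' : 1 ≤ b3 := by
    have : 0 < 2 * (K3 * K2) * (K1 ^ K2 * K2) ^ K3 := by positivity
    omega
  refine ⟨K1 + K2 + K3 + a2 + a3 + b1 + b2 + b3, by omega, ?_⟩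
  set K := K1 + K2 + K3 + a2 + a3 + b1 + b2 + b3 with hK
  intro δ κ A hδ0 hδ1 hκ hKA hKer
  have hκ0 : 0 < κ := by linarith
  set ρ := δ / κ with hρ
  have hρ0 : 0 < ρ := by positivity
  have hρ1 : ρ ≤ 1 := by
    rw [hρ, div_le_one hκ0]
    linarith
  have hK1r : (1 : ℝ) ≤ K1 := by exact_mod_cast hK1
  have hK2r : (1 : ℝ) ≤ K2 := by exact_mod_cast hK2
  have hK3r : (1 : ℝ) ≤ K3 := by exact_mod_cast hK3
  set c0 : ℝ := ρ ^ K1 / K1 with hc0
  have hc00 : 0 < c0 := by positivity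
  have hc01 : c0 ≤ 1 := by
    rw [hc0, div_le_one (by linarith)]
    exact (pow_le_one₀ hρ0.le hρ1).trans hK1r
  set C1 : ℝ := K1 * (κ / δ) ^ K1 with hC1
  have hC11 : 1 ≤ C1 := by
    have : 1 ≤ κ / δ := by
      rw [le_div_iff₀ hδ0]
      linarith
    have := one_le_pow₀ this (n := K1)
    rw [hC1]
    nlinarith
  set δ' : ℝ := c0 ^ K2 / K2 with hδ'
  have hδ'0 : 0 < δ' := by positivity
  have hδ'1 : δ' ≤ 1 := by
    rw [hδ', div_le_one (by linarith)]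
    exact (pow_le_one₀ hc00.le hc01).trans hK2r
  obtain ⟨Q, T, w3, hQ, hqc'⟩ := hqc δ' (8 * C1) A hδ'0 hδ'1 (by linarith) (by omega)
  obtain ⟨c', hc', hgc⟩ := gc δ' hδ'0
  -- choice of `w`
  obtain ⟨w4, hw4⟩ := st_w K1 hK1 (ρ ^ K1 / b1) (by positivity)
  obtain ⟨w5, hw5⟩ := st_w K2 hK2 (ρ ^ a2 / b2) (by positivity)
  obtain ⟨w6, hw6⟩ := st_w K2 hK2 (ρ ^ a3 / b3) (by positivity)
  refine ⟨c', Q, 2 * T, w3 + w4 + w5 + w6 + K, hc', hQ, ?_⟩
  intro w W hw hW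
  obtain ⟨y0, hy0⟩ := hqc' w W (by omega) hW
  refine ⟨y0, ?_⟩
  intro y B M r b0 P H hy hcfg hyB hTM β g cc θ hβ hg hgs hcc hbig
  have hW1 : 1 ≤ W := hW.1
  have hy1 : 1 ≤ y := by
    have := hcfg.Wy
    have : 0 < W ^ 4 := by positivity
    omega
  have hpow : ∀ Ki, Ki ≤ K → y ^ (Ki * A) ≤ B := fun Ki hKi =>
    (Nat.pow_le_pow_right hy1 (Nat.mul_le_mul_right A hKi)).trans hyB
  -- the errors
  have e1 : K1 * er K1 A w ≤ ρ ^ K1 := by
    have h1 := st_two (a := a1) (b := b1) hρ0 hρ1 hK1 (by omega : K1 ≤ K) (by omega) (by omega)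
      hb1' hKer
    have h2 := hw4 w (by omega)
    unfold er
    have h3 : (2 : ℝ) ^ (-(A : ℝ) / K1) + (w : ℝ) ^ (-(1 : ℝ) / K1) ≤ ρ ^ K1 / K1 := by
      have : ρ ^ K1 / K1 = ρ ^ K1 / (b1 : ℕ) + ρ ^ K1 / (b1 : ℕ) := by
        rw [hb1]
        push_cast
        field_simp
        ring
      rw [this]
      exact add_le_add h1 h2
    rw [le_div_iff₀ (by linarith)] at h3
    linarith
  have e2 : K2 * er K2 A w ≤ c0 ^ K2 := by
    have h1 := st_two (a := a2) (b := b2) hρ0 hρ1 hK2 (by omega : K2 ≤ K) (by omega) (by omega)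
      hb2' hKer
    have h2 := hw5 w (by omega)
    unfold er
    have h3 : (2 : ℝ) ^ (-(A : ℝ) / K2) + (w : ℝ) ^ (-(1 : ℝ) / K2) ≤ c0 ^ K2 / K2 := by
      have : c0 ^ K2 / K2 = ρ ^ a2 / (b2 : ℕ) + ρ ^ a2 / (b2 : ℕ) := by
        rw [hb2, hc0, ha2, div_pow, ← pow_mul]
        push_cast
        field_simp
        ring
      rw [this]
      exact add_le_add h1 h2
    rw [le_div_iff₀ (by linarith)] at h3
    linarith
  have e3 : K3 * (K2 * er K2 A w) ≤ δ' ^ K3 := by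
    have h1 := st_two (a := a3) (b := b3) hρ0 hρ1 hK2 (by omega : K2 ≤ K) (by omega) (by omega)
      hb3' hKer
    have h2 := hw6 w (by omega)
    unfold er
    have h3 : (2 : ℝ) ^ (-(A : ℝ) / K2) + (w : ℝ) ^ (-(1 : ℝ) / K2) ≤ δ' ^ K3 / (K3 * K2) := by
      have : δ' ^ K3 / (K3 * K2) = ρ ^ a3 / (b3 : ℕ) + ρ ^ a3 / (b3 : ℕ) := by
        rw [hb3, hδ', hc0, ha3, div_pow, div_pow, div_pow, ← pow_mul, ← pow_mul, ← pow_mul]
        push_cast
        rw [mul_pow, ← pow_mul, ← mul_assoc]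
        field_simp
        ring
      rw [this]
      exact add_le_add h1 h2
    rw [le_div_iff₀ (by positivity)] at h3
    linarith
  -- STR
  have s1 := hstr δ κ A w W y B M r b0 P H hδ0 hδ1 hκ (by omega) (by omega) e1 hcfg
    (hpow K1 (by omega)) β g cc θ hβ hg hgs hcc hbig
  -- CHR
  obtain ⟨κt, s2⟩ := hchr c0 C1 A w W y B M r b0 P H θ hc00 hc01 hC11 (by omega) (by omega) e2 hcfg
    (hpow K2 (by omega)) s1
  -- QC
  have hTM' : T * B ^ 2 ≤ M := by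
    have : T * B ^ 2 ≤ 2 * T * B ^ 2 := Nat.mul_le_mul_right _ (by omega)
    omega
  have s3 : (((Tset W M B H).filter fun q =>
      Typ (sprimes w y) W b0 ((B / W : ℕ) - 1) (B / W + 3) (K2 * er K2 A w) q.2.2 ∧
      c0 ^ K2 / K2 * VV (sprimes w y) ^ 2 * B / W ≤
        (Bset W P q.2.2 (θ q.2.1 - θ (q.2.1 - q.1 * (W * q.2.2))) (-(W * q.2.2 * κt q.1))
          (8 * C1 * B ^ 2 / M)).card)) ⊆
      (Tset W M B H).filter fun q => Near Q W T M (θ q.2.1 - θ (q.2.1 - q.1 * (W * q.2.2))) := by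
    intro q hq
    rw [Finset.mem_filter] at hq ⊢
    obtain ⟨hqT, hqTyp, hqB⟩ := hq
    refine ⟨hqT, ?_⟩
    unfold Tset at hqT
    rw [Finset.mem_filter, Finset.mem_product, Finset.mem_product, Finset.mem_Icc,
      Finset.mem_Icc] at hqT
    obtain ⟨⟨_, _, hq1, hq2⟩, _, hq3, _⟩ := hqT
    exact hy0 y B M r b0 P H hy hcfg (hpow K3 (by omega)) hTM' (K2 * er K2 A w) q.2.2 e3
      (abs_le.mpr ⟨hq1, hq2⟩) hq3 hqTyp _ _ hqB
  have s4 : δ' * M ^ 2 / W ≤ (((Tset W M B H).filter fun q =>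
      Near Q W T M (θ q.2.1 - θ (q.2.1 - q.1 * (W * q.2.2)))).card : ℝ) := by
    refine s2.trans ?_
    exact_mod_cast Finset.card_le_card s3
  -- GC
  have hWB : W ≤ B := by
    have h1 : W ≤ W ^ 4 := Nat.le_self_pow (by norm_num) W
    have h2 := hcfg.Wy
    have h3 : y ≤ y ^ (K * A) := Nat.le_self_pow (by
      have : 0 < K * A := Nat.mul_pos (by omega) (by omega)
      omega) y
    omega
  have hBM : B ^ 2 ≤ M := by
    have := hcfg.BM
    omega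
  exact hgc W B M Q T hW1 hWB hBM hQ H θ hcfg.hH s4

end Pool.Agent.Lib.H18GB
end

-- from Lib.H18GB.UAux2
section

/-!
# Project GB: auxiliary lemmas for the assembly of U, second part
-/

namespace Pool.Agent.Lib.H18GB

open Finset Filter Pool.Agent.Lib.Sieve

theorem rt_le_self {s : ℕ} (hs : 1 ≤ s) (M : ℕ) : rt s M ≤ M := by
  rcases Nat.eq_zero_or_pos (rt s M) with h | h
  · omega
  · calc rt s M = rt s M ^ 1 := (pow_one _).symm
      _ ≤ rt s M ^ s := Nat.pow_le_pow_right h hs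
      _ ≤ M := rt_pow_le hs M

/-- `φ(W)/W * VV * log M ≤ C s` -/
theorem kap_bound : ∃ C : ℝ, 1 ≤ C ∧ ∀ s : ℕ, 1 ≤ s → ∀ w W : ℕ, IsW w W → ∃ M0 : ℕ, ∀ M : ℕ,
    M0 ≤ M → (Nat.totient W / W : ℝ) * VV (sprimes w (rt s M)) * Real.log M ≤ C * s := by
  obtain ⟨C, hC, h⟩ := majo
  refine ⟨C, hC, fun s hs w W hW => ?_⟩
  obtain ⟨M0, hM0⟩ := h s hs w W hW
  refine ⟨max M0 1, fun M hM => ?_⟩
  have hM1 : 1 ≤ M := le_trans (le_max_right _ _) hM
  obtain ⟨p, hp, hMp, hp2⟩ := Nat.exists_prime_lt_and_le_two_mul M (by omega)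
  have hW1 : (1 : ℤ) ≤ W := by exact_mod_cast hW.1
  have hle : |(p : ℤ)| ≤ 5 * W * M := by
    rw [abs_of_nonneg (by positivity)]
    have : (p : ℤ) ≤ 2 * M := by exact_mod_cast hp2
    nlinarith [hM1]
  have hlt : (rt s M : ℤ) < |(p : ℤ)| := by
    rw [abs_of_nonneg (by positivity)]
    exact_mod_cast (rt_le_self hs M).trans_lt hMp
  have key := hM0 M (le_trans (le_max_left _ _) hM) p hle hlt
  have hS := pset_sprimes w (rt s M)
  have hr : Rgh (sprimes w (rt s M)) (p : ℤ) := by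
    intro q hq hd
    obtain ⟨h1, h2, h3⟩ := hS q hq
    have := (Nat.prime_dvd_prime_iff_eq h1 hp).mp (Int.natCast_dvd_natCast.mp hd)
    have := rt_le_self hs M
    omega
  have hV := VV_pos hS.prime
  rw [lamv, if_pos (by simpa using hp), rho, if_pos hr] at key
  simp only [Int.natAbs_natCast] at key
  have hlog : Real.log M ≤ Real.log p :=
    Real.log_le_log (by exact_mod_cast hM1) (by exact_mod_cast hMp.le)
  have h0 : (0 : ℝ) ≤ (Nat.totient W / W : ℝ) := by positivity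
  calc (Nat.totient W / W : ℝ) * VV (sprimes w (rt s M)) * Real.log M
      ≤ (Nat.totient W / W : ℝ) * VV (sprimes w (rt s M)) * Real.log p := by gcongr
    _ = ((Nat.totient W / W : ℝ) * Real.log p) * VV (sprimes w (rt s M)) := by ring
    _ ≤ (C * s * (VV (sprimes w (rt s M)))⁻¹) * VV (sprimes w (rt s M)) := by gcongr
    _ = C * s := by field_simp

/-- truncated `uc` -/
noncomputable def ug (W : ℕ) (r : ℤ) (M z : ℕ) (n : ℤ) : ℂ :=
  if (z : ℤ) < |r + W * n| then uc W r M n else 0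

theorem ug_supp (W : ℕ) (r : ℤ) (M z : ℕ) : SuppIn 0 M (ug W r M z) := by
  intro n hn
  unfold ug uc
  rw [Finset.mem_Ico] at hn
  split_ifs <;> simp_all

theorem norm_ug_le (W : ℕ) (r : ℤ) (M z : ℕ) (n : ℤ) : ‖ug W r M z n‖ ≤ ‖uc W r M n‖ := by
  unfold ug
  split_ifs <;> simp

theorem abs_uu_le_log {W : ℕ} (hW : 0 < W) {r n : ℤ} {z : ℕ} (h : |r + W * n| ≤ z) :
    |uu W r n| ≤ 1 + z := by
  unfold uu lam lamv
  split_ifs with hp
  · have h1 : (r + W * n).natAbs ≤ z := by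
      zify
      exact h
    have h2 : Real.log (r + W * n).natAbs ≤ z := by
      calc Real.log (r + W * n).natAbs ≤ (r + W * n).natAbs - 1 :=
            Real.log_le_sub_one_of_pos (by exact_mod_cast hp.pos)
        _ ≤ z := by
            have : ((r + W * n).natAbs : ℝ) ≤ z := by exact_mod_cast h1
            linarith
    have h3 : 0 ≤ Real.log (r + W * n).natAbs :=
      Real.log_nonneg (by exact_mod_cast hp.one_lt.le)
    have h4 : (Nat.totient W / W : ℝ) ≤ 1 := by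
      rw [div_le_one (by exact_mod_cast hW)]
      exact_mod_cast Nat.totient_le W
    have h5 : (0 : ℝ) ≤ (Nat.totient W / W : ℝ) := by positivity
    rw [abs_le]
    constructor
    · nlinarith [mul_nonneg h5 h3, (Nat.cast_nonneg z : (0 : ℝ) ≤ z)]
    · nlinarith [mul_nonneg h5 h3, (Nat.cast_nonneg z : (0 : ℝ) ≤ z)]
  · simp

theorem card_small_le {W : ℕ} (hW : 0 < W) (r : ℤ) (M z : ℕ) :
    (((Finset.Ico (0 : ℤ) M).filter fun n => |r + W * n| ≤ z).card : ℝ) ≤ 2 * z + 1 := by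
  have hinj : Set.InjOn (fun n : ℤ => r + W * n)
      ((Finset.Ico (0 : ℤ) M).filter fun n => |r + W * n| ≤ z) := by
    intro a _ b _ hab
    have : (W : ℤ) * a = W * b := by simpa using hab
    exact mul_left_cancel₀ (by exact_mod_cast hW.ne') this
  have h1 := Finset.card_image_of_injOn hinj
  rw [← h1]
  have h2 : (((Finset.Ico (0 : ℤ) M).filter fun n => |r + W * n| ≤ z).image
      fun n : ℤ => r + W * n) ⊆ Finset.Icc (-(z : ℤ)) z := by
    intro v hv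
    obtain ⟨n, hn, rfl⟩ := Finset.mem_image.mp hv
    rw [Finset.mem_Icc]
    exact abs_le.mp (Finset.mem_filter.mp hn).2
  have h3 := Finset.card_le_card h2
  rw [Int.card_Icc] at h3
  have h4 : ((z : ℤ) + 1 - -(z : ℤ)).toNat = 2 * z + 1 := by omega
  rw [h4] at h3
  exact_mod_cast h3

theorem sum_trunc_le {W : ℕ} (hW : 0 < W) (r : ℤ) (M z : ℕ) :
    ∑ n ∈ Finset.Ico (0 : ℤ) M, ‖uc W r M n - ug W r M z n‖ ≤ (2 * z + 1) * (1 + z) := by
  have h1 : ∀ n ∈ Finset.Ico (0 : ℤ) M, ‖uc W r M n - ug W r M z n‖ ≤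
      if |r + W * n| ≤ z then (1 + z : ℝ) else 0 := by
    intro n hn
    unfold ug
    split_ifs with h2 h3 h3
    · omega
    · simp
    · rw [sub_zero, uc, if_pos (Finset.mem_Ico.mp hn), Complex.norm_real]
      exact abs_uu_le_log hW h3
    · omega
  refine (Finset.sum_le_sum h1).trans ?_
  rw [← Finset.sum_filter, Finset.sum_const, nsmul_eq_mul]
  exact mul_le_mul_of_nonneg_right (card_small_le hW r M z) (by positivity)

theorem norm_uc_sum (W : ℕ) (r : ℤ) (M : ℕ) :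
    ∑ n ∈ Finset.Ico (0 : ℤ) M, ‖uc W r M n‖ = ∑ n ∈ Finset.Ico (0 : ℤ) M, |uu W r n| := by
  refine Finset.sum_congr rfl fun n hn => ?_
  rw [uc, if_pos (Finset.mem_Ico.mp hn), Complex.norm_real, Real.norm_eq_abs]

/-- majorant of the truncated function -/
theorem ug_maj {W w : ℕ} {r : ℤ} {M z y : ℕ} {κ : ℝ} (hκ : 1 ≤ κ) (hr : |r| < 2 * W)
    (hM : 2 ≤ M) (hyz : y ≤ z)
    (h : ∀ v : ℤ, |v| ≤ 5 * W * M → (y : ℤ) < |v| → lamv W v ≤ κ * rho (sprimes w y) v) :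
    Maj κ (sprimes w y) W r (ug W r M z) := by
  intro n
  have h0 := rho_nonneg (pset_sprimes w y).prime (r + W * n)
  unfold ug uc
  split_ifs with h1 h2
  · rw [Complex.norm_real, Real.norm_eq_abs]
    have hv : |r + W * n| ≤ 5 * W * M := by
      have h3 := abs_add_le r (W * n)
      rw [abs_mul, abs_of_nonneg (by positivity : (0 : ℤ) ≤ W), abs_of_nonneg h2.1] at h3
      have h4 : (W : ℤ) * n ≤ W * M := mul_le_mul_of_nonneg_left h2.2.le (by positivity)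
      have h5 : (2 : ℤ) * W ≤ M * W := mul_le_mul_of_nonneg_right (by exact_mod_cast hM) (by positivity)
      nlinarith
    have h6 := h _ hv (lt_of_le_of_lt (by exact_mod_cast hyz) h1)
    have h7 : 0 ≤ lamv W (r + W * n) := by
      unfold lamv
      split_ifs with hp
      · exact mul_nonneg (by positivity) (Real.log_nonneg (by exact_mod_cast hp.one_lt.le))
      · exact le_rfl
    unfold uu lam
    rw [abs_le]
    constructor <;> nlinarith
  · rw [norm_zero]; nlinarith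
  · rw [norm_zero]; nlinarith

/-- interval sums of `uc` from prefix sums of `uu` -/
theorem shift_sum_le {W : ℕ} {r : ℤ} {M : ℕ} {b : ℝ}
    (hv : ∀ θ : ℝ, ∀ M' : ℤ, 0 ≤ M' → M' ≤ M →
      ‖∑ n ∈ Finset.Ico (0 : ℤ) M', (uu W r n : ℂ) * e (θ * n)‖ ≤ b)
    (h : ℤ) (hh : h ∈ Finset.Ioo (-(M : ℤ)) M) (θ : ℝ) :
    ‖∑ n ∈ Finset.Ico (0 : ℤ) M, uc W r M (n + h) * e (θ * n)‖ ≤ 2 * b := by
  rw [Finset.mem_Ioo] at hh
  have hb : 0 ≤ b := (norm_nonneg _).trans (hv 0 0 le_rfl (by positivity))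
  -- reindex
  have h1 : ∑ n ∈ Finset.Ico (0 : ℤ) M, uc W r M (n + h) * e (θ * n) =
      e (-(θ * h)) * ∑ m ∈ Finset.Ico (max 0 h) (min (M : ℤ) (M + h)),
        (uu W r m : ℂ) * e (θ * m) := by
    have h2 : ∑ n ∈ Finset.Ico (0 : ℤ) M, uc W r M (n + h) * e (θ * n) =
        ∑ m ∈ Finset.Ico (0 + h) (M + h), uc W r M m * e (θ * (m - h)) := by
      rw [← Finset.map_add_right_Ico, Finset.sum_map]
      refine Finset.sum_congr rfl fun n _ => ?_
      simp only [addRightEmbedding_apply]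
      congr 2
      push_cast
      ring
    rw [h2, Finset.mul_sum]
    have h3 : Finset.Ico (max 0 h) (min (M : ℤ) (M + h)) ⊆ Finset.Ico (0 + h) (M + h) := by
      intro m hm
      rw [Finset.mem_Ico] at hm ⊢
      omega
    rw [← Finset.sum_subset h3]
    · refine Finset.sum_congr rfl fun m hm => ?_
      rw [Finset.mem_Ico] at hm
      rw [uc, if_pos (by omega)]
      have : θ * ((m : ℝ) - h) = -(θ * h) + θ * m := by ring
      rw [this, e_add]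
      ring
    · intro m hm hm2
      rw [Finset.mem_Ico] at hm hm2
      rw [uc, if_neg (by omega), zero_mul]
  rw [h1, norm_mul, norm_e, one_mul]
  have h4 : ∑ m ∈ Finset.Ico (max 0 h) (min (M : ℤ) (M + h)), (uu W r m : ℂ) * e (θ * m) =
      ∑ m ∈ Finset.Ico 0 (min (M : ℤ) (M + h)), (uu W r m : ℂ) * e (θ * m) -
      ∑ m ∈ Finset.Ico 0 (max 0 h), (uu W r m : ℂ) * e (θ * m) := by
    rw [eq_sub_iff_add_eq, add_comm, ← Finset.sum_union
      (Finset.Ico_disjoint_Ico_consecutive _ _ _),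
      Finset.Ico_union_Ico_eq_Ico (by omega) (by omega)]
  rw [h4]
  refine (norm_sub_le _ _).trans ?_
  have h5 := hv θ (min (M : ℤ) (M + h)) (by omega) (by omega)
  have h6 := hv θ (max 0 h) (by omega) (by omega)
  linarith

end Pool.Agent.Lib.H18GB
end

-- from Lib.H18GB.UAux3
section

/-!
# Project GB: auxiliary lemmas for the assembly of U, third part
-/

namespace Pool.Agent.Lib.H18GB

open Finset Filter Pool.Agent.Lib.Sieve

theorem two_rpow_eq (A K : ℕ) : (2 : ℝ) ^ (-(A : ℝ) / K) = ((2 : ℝ) ^ (-(1 : ℝ) / K)) ^ A := by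
  rw [← Real.rpow_natCast, ← Real.rpow_mul (by norm_num)]
  congr 1
  ring

/-- exponentials beat polynomials -/
theorem exp_beats (K k : ℕ) (hK : 1 ≤ K) {a : ℝ} (ha : 0 < a) :
    ∃ A0 : ℕ, ∀ A : ℕ, A0 ≤ A → (A : ℝ) ^ k * (2 : ℝ) ^ (-(A : ℝ) / K) ≤ a := by
  have hr : |(2 : ℝ) ^ (-(1 : ℝ) / K)| < 1 := by
    rw [abs_of_pos (Real.rpow_pos_of_pos (by norm_num) _)]
    apply Real.rpow_lt_one_of_one_lt_of_neg (by norm_num)
    have : (0 : ℝ) < K := by exact_mod_cast hK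
    exact div_neg_of_neg_of_pos (by norm_num) this
  have h := tendsto_pow_const_mul_const_pow_of_abs_lt_one k hr
  have h2 := (h.eventually (gt_mem_nhds ha))
  obtain ⟨A0, hA0⟩ := eventually_atTop.mp h2
  refine ⟨A0, fun A hA => ?_⟩
  rw [two_rpow_eq]
  exact (hA0 A hA).le

theorem er_le {C A w : ℕ} (hw : 2 ^ A ≤ w) : er C A w ≤ 2 * (2 : ℝ) ^ (-(A : ℝ) / C) := by
  unfold er
  have h1 : (w : ℝ) ^ (-(1 : ℝ) / C) ≤ ((2 : ℝ) ^ A) ^ (-(1 : ℝ) / C) := by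
    apply Real.rpow_le_rpow_of_nonpos (by positivity)
    · exact_mod_cast hw
    · exact div_nonpos_of_nonpos_of_nonneg (by norm_num) (Nat.cast_nonneg _)
  have h2 : ((2 : ℝ) ^ A) ^ (-(1 : ℝ) / C) = (2 : ℝ) ^ (-(A : ℝ) / C) := by
    rw [← Real.rpow_natCast, ← Real.rpow_mul (by norm_num)]
    congr 1
    ring
  rw [h2] at h1
  linarith

theorem fII_split (W : ℕ) (hW : 0 < W) (r : ℤ) (P : Finset ℕ) (β : ℤ → ℂ) (n : ℤ) :
    fII W r P β n = ∑ b0 ∈ Finset.range W, fII W r (P.filter fun b => b % W = b0) β n := by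
  unfold fII
  rw [← Finset.sum_fiberwise_of_maps_to (t := Finset.range W) (g := fun b : ℕ => b % W)
    (fun b _ => Finset.mem_range.mpr (Nat.mod_lt _ hW))]
  refine Finset.sum_congr rfl fun b0 _ => ?_
  rw [Finset.filter_filter, Finset.filter_filter]
  refine Finset.sum_congr ?_ fun _ _ => rfl
  ext b
  simp only [Finset.mem_filter]
  tauto

theorem fII_empty (W : ℕ) (r : ℤ) (β : ℤ → ℂ) (n : ℤ) : fII W r ∅ β n = 0 := by
  simp [fII]

/-- primes larger than `w` fall in classes coprime to `W` -/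
theorem filter_mod_empty {w W z j b0 : ℕ} (hW : IsW w W) (hwz : w ≤ z)
    (hb0 : ¬ W.Coprime b0) : (Pj z j).filter (fun b => b % W = b0) = ∅ := by
  rw [Finset.filter_eq_empty_iff]
  intro b hb hmod
  unfold Pj at hb
  rw [Finset.mem_filter, Finset.mem_Ioc] at hb
  obtain ⟨⟨h1, -⟩, hp⟩ := hb
  apply hb0
  have hcop : Nat.Coprime W b := by
    rw [Nat.coprime_comm, hp.coprime_iff_not_dvd]
    intro hd
    have h2 := (hW.2 b hp).mp hd
    have h3 : z ≤ z * 2 ^ j := Nat.le_mul_of_pos_right _ (by positivity)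
    omega
  rw [← hmod]
  unfold Nat.Coprime at *
  rw [← hcop, Nat.gcd_comm W (b % W), Nat.gcd_comm W b]
  conv_rhs => rw [Nat.gcd_comm, Nat.gcd_rec]

/-- the Type II part, bounded by the individual classes -/
theorem typeII_sum_le {w W z J : ℕ} {r : ℤ} {M : ℕ} {H : Finset ℤ} {c : ℤ → ℂ} {θ : ℤ → ℝ}
    {g : ℤ → ℂ} {b : ℝ} (hW : IsW w W) (hwz : w ≤ z)
    (h : ∀ j < J, ∀ b0 : ℕ, b0 < W → W.Coprime b0 →
      ‖Sfg M H c θ (fII W r ((Pj z j).filter fun b => b % W = b0) (βj z j)) g‖ ≤ b) :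
    ‖Sfg M H c θ (fun n => ∑ j ∈ Finset.range J, fII W r (Pj z j) (βj z j) n) g‖ ≤
      J * (Nat.totient W * b) := by
  rw [Sfg_sum]
  refine (norm_sum_le _ _).trans ?_
  have h1 : ∀ j ∈ Finset.range J, ‖Sfg M H c θ (fII W r (Pj z j) (βj z j)) g‖ ≤
      Nat.totient W * b := by
    intro j hj
    have h2 : Sfg M H c θ (fII W r (Pj z j) (βj z j)) g =
        ∑ b0 ∈ Finset.range W,
          Sfg M H c θ (fII W r ((Pj z j).filter fun b => b % W = b0) (βj z j)) g := by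
      rw [← Sfg_sum]
      exact Sfg_congr fun n _ => fII_split W hW.1 r _ _ n
    rw [h2]
    have h3 : ∑ b0 ∈ Finset.range W,
          Sfg M H c θ (fII W r ((Pj z j).filter fun b => b % W = b0) (βj z j)) g =
        ∑ b0 ∈ (Finset.range W).filter (fun b0 => W.Coprime b0),
          Sfg M H c θ (fII W r ((Pj z j).filter fun b => b % W = b0) (βj z j)) g := by
      symm
      apply Finset.sum_filter_of_ne
      intro b0 _ hne
      by_contra hcop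
      apply hne
      rw [filter_mod_empty hW hwz hcop]
      unfold Sfg
      simp [fII_empty]
    rw [h3]
    refine (norm_sum_le _ _).trans ?_
    refine (Finset.sum_le_card_nsmul _ _ b fun b0 hb0 => ?_).trans ?_
    · rw [Finset.mem_filter, Finset.mem_range] at hb0
      exact h j (Finset.mem_range.mp hj) b0 hb0.1 hb0.2
    · rw [nsmul_eq_mul, ← Nat.totient_eq_card_coprime]
  refine (Finset.sum_le_card_nsmul _ _ _ h1).trans ?_
  rw [nsmul_eq_mul, Finset.card_range]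

end Pool.Agent.Lib.H18GB
end
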