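import Pool.Agent.Lib.H1M.RV.M002
import Pool.Agent.Lib.H1M.RV.M038
import Pool.Agent.Lib.H1M.RV.M041
import Pool.Agent.Lib.H1M.RV.M072

/-! Merged copies (to shorten the build) of Lib.H18Q.PA, Lib.H18Q.PB3, Lib.H18Q.PG2. -/

-- from Lib.H18Q.PA
section

/-!
# Project H18Q, chunk PA: the weighted series and the zeros
-/

open Finset

namespace Pool.Agent.Lib.H18Q

open ArithmeticFunction Pool.Agent.Lib.H68T

theorem pa_summable (c : ℕ → ℂ) (hc : ∀ n, ‖c n‖ ≤ 1) {s : ℂ} (hs : 1 < s.re) :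
    LSeriesSummable (fun n => (Λ n : ℂ) * c n) s := by
  have h1 : LSeriesSummable (fun n => (Λ n : ℂ)) s :=
    ArithmeticFunction.LSeriesSummable_vonMangoldt hs
  refine Summable.of_norm_bounded (g := fun n => ‖LSeries.term (fun n => (Λ n : ℂ)) s n‖) h1.norm ?_
  intro n
  rcases eq_or_ne n 0 with rfl | hn
  · simp [LSeries.term_zero]
  · rw [LSeries.term_of_ne_zero hn, LSeries.term_of_ne_zero hn, norm_div, norm_div, norm_mul]
    apply div_le_div_of_nonneg_right _ (norm_nonneg _)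
    exact mul_le_of_le_one_right (norm_nonneg _) (hc n)

theorem pa_analytic (c : ℕ → ℂ) (hc : ∀ n, ‖c n‖ ≤ 1) {s : ℂ} (hs : 1 < s.re) :
    AnalyticAt ℂ (LSeries (fun n => (Λ n : ℂ) * c n)) s := by
  apply LSeries_analyticOnNhd
  have h1 : LSeries.abscissaOfAbsConv (fun n => (Λ n : ℂ) * c n) ≤ (1 : ℝ) := by
    apply LSeries.abscissaOfAbsConv_le_of_forall_lt_LSeriesSummable
    intro y hy
    apply pa_summable c hc
    simpa using hy
  exact lt_of_le_of_lt h1 (EReal.coe_lt_coe_iff.mpr hs)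

theorem pa_iter (ε b s₀ : ℂ) (k : ℕ) :
    iteratedDeriv k (fun s : ℂ => ε / (s - b)) s₀ =
      ε * ((-1) ^ k * (k.factorial : ℂ) * (1 / (s₀ - b)) ^ (k + 1)) := by
  have h1 : (fun s : ℂ => ε / (s - b)) = fun s : ℂ => ε * (1 * s - b)⁻¹ := by
    funext s
    rw [one_mul, div_eq_mul_inv]
  rw [h1, iteratedDeriv_const_mul_field, iteratedDeriv_eq_iterate, iter_deriv_inv_linear_sub]
  simp only [one_pow, mul_one, one_mul]
  have h2 : (-1 - (k : ℤ)) = -((k + 1 : ℕ) : ℤ) := by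
    push_cast
    ring
  rw [h2, zpow_neg, zpow_natCast, one_div, inv_pow]

theorem pa_div (a w : ℂ) (k : ℕ) : (a / w) ^ k = a ^ k * (1 / w) ^ k := by
  rw [← mul_pow, mul_one_div]

/-- Proof: `landau_k` at `s₀ = 1 + 1/64 + iv`, `R = 1/2`, `M = C0 ℓ` (`LDat.growth` with
`lam = 1/64 ≥ 1/ℓ`), times `(1/64)^(k+1)`: error `2 A (C0 ℓ + 1) 8^k 64^(-k-1) ≤ C ℓ 8^(-k)`. Near
`s₀`, `logDeriv f = -LSeries (Λ c) + ε/(s - b)`, whose `k`-th derivative at `s₀` times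
`(1/64)^(k+1)/k!` is `-(-1)^k Pk c k v + (-1)^k ε Mk b k v` (`D0_series` with `lam = 1/64`;
`s₀ - b = 1/64 + 1 - b + iv`). Multiply by `(-1)^(k+1)`. -/
theorem PA_formula (C0 : ℝ) (h0 : 1 ≤ C0) : ∃ C : ℝ, 0 < C ∧ ∀ (ℓ T : ℝ) (f : ℂ → ℂ)
    (c : ℕ → ℂ) (ε b : ℝ), 64 ≤ ℓ → LDat C0 ℓ T f → (∀ n, ‖c n‖ ≤ 1) → b ≤ 1 →
    (∀ s : ℂ, 1 < s.re → logDeriv f s = -LSeries (fun n => (Λ n : ℂ) * c n) s + ε / (s - b)) →
    ∀ v : ℝ, |v| ≤ T → ∀ k : ℕ,
    ‖Pk c k v - ε * Mk b k v + ∑ ρ ∈ ZD f (1 + (1 / 64 : ℝ) + v * Complex.I) (1 / 4),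
      (od f ρ : ℂ) * (((1 / 64 : ℝ) : ℂ) / (1 + (1 / 64 : ℝ) + v * Complex.I - ρ)) ^ (k + 1)‖ ≤
      C * ℓ * (1 / 8) ^ k := by
  obtain ⟨A, hA, H⟩ := landau_k
  refine ⟨A * (C0 + 1), by positivity, ?_⟩
  intro ℓ T f c ε b hℓ hf hc hb hld v hv k
  have hℓ0 : 0 < ℓ := by linarith
  set a : ℂ := ((1 / 64 : ℝ) : ℂ) with ha
  have hanorm : ‖a‖ = 1 / 64 := by
    rw [ha, Complex.norm_real, Real.norm_eq_abs, abs_of_pos (by norm_num)]
  set s₀ : ℂ := 1 + a + v * Complex.I with hs₀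
  have hre : s₀.re = 1 + 1 / 64 := by
    rw [hs₀, ha]
    simp
  have hs₀1 : 1 < s₀.re := by rw [hre]; norm_num
  have hlam : 1 / ℓ ≤ (1 / 64 : ℝ) := one_div_le_one_div_of_le (by norm_num) hℓ
  have hf0 : f s₀ ≠ 0 := by
    intro h
    have := hf.zre _ h
    linarith
  have hgr := hf.growth (1 / 64) v hlam (by norm_num) hv
  have h1 := H f s₀ (1 / 2) (C0 * ℓ) (by norm_num) (by positivity) hf.diff hf0 hgr k
  have hR : (1 / 2 : ℝ) / 2 = 1 / 4 := by norm_num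
  rw [hR] at h1
  -- the derivatives
  have h2 : iteratedDeriv k (logDeriv f) s₀ =
      -iteratedDeriv k (LSeries (fun n => (Λ n : ℂ) * c n)) s₀ +
        ε * ((-1) ^ k * (k.factorial : ℂ) * (1 / (s₀ - b)) ^ (k + 1)) := by
    have hopen : IsOpen {s : ℂ | 1 < s.re} := isOpen_lt continuous_const Complex.continuous_re
    have hev : logDeriv f =ᶠ[nhds s₀]
        (fun s => -LSeries (fun n => (Λ n : ℂ) * c n) s + ε / (s - b)) := by
      filter_upwards [hopen.mem_nhds hs₀1] with s hs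
      exact hld s hs
    rw [(hev.iteratedDeriv k).eq_of_nhds]
    have hc1 : ContDiffAt ℂ k (fun s => -LSeries (fun n => (Λ n : ℂ) * c n) s) s₀ :=
      ((pa_analytic c hc hs₀1).neg).contDiffAt
    have hsb : s₀ - b ≠ 0 := by
      intro h
      have h3 := congrArg Complex.re h
      rw [Complex.sub_re, Complex.ofReal_re, hre, Complex.zero_re] at h3
      linarith
    have hc2 : ContDiffAt ℂ k (fun s : ℂ => (ε : ℂ) / (s - b)) s₀ := by
      apply AnalyticAt.contDiffAt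
      exact analyticAt_const.div (analyticAt_id.sub analyticAt_const) hsb
    rw [iteratedDeriv_fun_add hc1 hc2, iteratedDeriv_fun_neg, pa_iter]
  have h3 := D0_series c (fun n => (hc n).trans (by norm_num)) (1 / 64) (by norm_num) k v
  rw [← ha, ← hs₀] at h3
  have hk : (k.factorial : ℂ) ≠ 0 := Nat.cast_ne_zero.mpr (Nat.factorial_ne_zero k)
  have hM : Mk b k v = (a / (s₀ - b)) ^ (k + 1) := by
    unfold Mk
    rw [← ha]
    have : ((1 / 64 + 1 - b : ℝ) : ℂ) + v * Complex.I = s₀ - b := by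
      rw [hs₀, ha]
      push_cast
      ring
    rw [this]
  have hP : a ^ (k + 1) * (iteratedDeriv k (LSeries (fun n => (Λ n : ℂ) * c n)) s₀ /
      (k.factorial : ℂ)) = (-1) ^ k * Pk c k v := h3
  have h4 : a ^ (k + 1) * (iteratedDeriv k (logDeriv f) s₀ / (k.factorial : ℂ)) =
      -((-1) ^ k * Pk c k v) + (-1) ^ k * (ε * Mk b k v) := by
    rw [h2, hM, ← hP, pa_div a (s₀ - b)]
    generalize (1 / (s₀ - (b : ℂ))) ^ (k + 1) = X
    field_simp
  have hsq : ((-1 : ℂ) ^ k) * (-1) ^ k = 1 := by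
    rw [← mul_pow]
    norm_num
  have h5 : Pk c k v - ε * Mk b k v + ∑ ρ ∈ ZD f s₀ (1 / 4),
      (od f ρ : ℂ) * (a / (s₀ - ρ)) ^ (k + 1) =
      -((-1) ^ k * (a ^ (k + 1) * (iteratedDeriv k (logDeriv f) s₀ / (k.factorial : ℂ) -
        (-1) ^ k * ∑ ρ ∈ ZD f s₀ (1 / 4), (od f ρ : ℂ) * (1 / (s₀ - ρ)) ^ (k + 1)))) := by
    rw [mul_sub, h4]
    have h6 : a ^ (k + 1) * ((-1) ^ k * ∑ ρ ∈ ZD f s₀ (1 / 4),
        (od f ρ : ℂ) * (1 / (s₀ - ρ)) ^ (k + 1)) =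
        (-1) ^ k * ∑ ρ ∈ ZD f s₀ (1 / 4), (od f ρ : ℂ) * (a / (s₀ - ρ)) ^ (k + 1) := by
      rw [mul_left_comm, mul_sum]
      congr 1
      apply sum_congr rfl
      intro ρ _
      rw [pa_div a (s₀ - ρ)]
      ring
    rw [h6]
    linear_combination (-(Pk c k v) + ε * Mk b k v - ∑ ρ ∈ ZD f s₀ (1 / 4),
      (od f ρ : ℂ) * (a / (s₀ - ρ)) ^ (k + 1)) * hsq
  rw [h5, norm_neg, norm_mul, norm_pow, norm_neg, norm_one, one_pow, one_mul, norm_mul, norm_pow,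
    hanorm]
  have h7 : (1 / 64 : ℝ) ^ (k + 1) * (A * (C0 * ℓ + 1) / (1 / 2) * (4 / (1 / 2)) ^ k) =
      A * (C0 * ℓ + 1) / 32 * (1 / 8) ^ k := by
    rw [pow_succ]
    have : (1 / 64 : ℝ) ^ k * (4 / (1 / 2)) ^ k = (1 / 8) ^ k := by
      rw [← mul_pow]
      norm_num
    linear_combination (A * (C0 * ℓ + 1) / (1 / 2) / 64) * this
  calc (1 / 64 : ℝ) ^ (k + 1) * _ ≤
        (1 / 64 : ℝ) ^ (k + 1) * (A * (C0 * ℓ + 1) / (1 / 2) * (4 / (1 / 2)) ^ k) :=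
        mul_le_mul_of_nonneg_left h1 (by positivity)
    _ = A * (C0 * ℓ + 1) / 32 * (1 / 8) ^ k := h7
    _ ≤ A * (C0 + 1) * ℓ * (1 / 8) ^ k := by
        apply mul_le_mul_of_nonneg_right _ (by positivity)
        rw [div_le_iff₀ (by norm_num)]
        nlinarith [mul_pos hA hℓ0, mul_nonneg hA.le (by linarith : (0 : ℝ) ≤ ℓ - 1),
          mul_pos (mul_pos hA hℓ0) (by linarith : (0 : ℝ) < C0)]

theorem pa_term_le (c : ℕ → ℂ) (hc : ∀ n, ‖c n‖ ≤ 1) (k : ℕ) (v : ℝ) (n : ℕ) :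
    ‖((Λ n * Jk (1 / 64) k n : ℝ) : ℂ) * c n * (n : ℂ) ^ (-(v * Complex.I))‖ ≤
      Λ n * Jk (1 / 64) k n := by
  have h0 : 0 ≤ Λ n * Jk (1 / 64) k n :=
    mul_nonneg ArithmeticFunction.vonMangoldt_nonneg (Jk_nonneg _ k n (by norm_num))
  rcases eq_or_ne n 0 with rfl | hn
  · simp
  · have h1 : ‖(n : ℂ) ^ (-(v * Complex.I))‖ = 1 := by
      rw [Complex.norm_natCast_cpow_of_pos (Nat.pos_of_ne_zero hn)]
      simp
    rw [norm_mul, norm_mul, h1, mul_one, Complex.norm_real, Real.norm_eq_abs, abs_of_nonneg h0]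
    exact mul_le_of_le_one_right h0 (hc n)

/-- Bounds and continuity: `|Pk| ≤ C` (`Jk_sum`, `Jk_summable`), `|Mk| ≤ 1` for `b ≤ 1`, both
continuous in `v`. -/
theorem PA_bounds : ∃ C : ℝ, 1 ≤ C ∧ ∀ (c : ℕ → ℂ), (∀ n, ‖c n‖ ≤ 1) → ∀ (k : ℕ) (v : ℝ),
    ‖Pk c k v‖ ≤ C := by
  obtain ⟨C, hC, h⟩ := Jk_sum
  refine ⟨max C 1, le_max_right _ _, ?_⟩
  intro c hc k v
  have hs := Jk_summable (1 / 64) k (by norm_num) (by norm_num)
  unfold Pk
  refine (tsum_of_norm_bounded hs.hasSum (pa_term_le c hc k v)).trans ?_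
  refine le_trans ?_ (le_max_left _ _)
  exact hs.tsum_le_of_sum_le fun s => h (1 / 64) k s (by norm_num) (by norm_num)

theorem Pk_continuous (c : ℕ → ℂ) (hc : ∀ n, ‖c n‖ ≤ 1) (k : ℕ) : Continuous (Pk c k) := by
  have hs := Jk_summable (1 / 64) k (by norm_num) (by norm_num)
  unfold Pk
  refine continuous_tsum ?_ hs fun n v => pa_term_le c hc k v n
  intro n
  rcases eq_or_ne n 0 with rfl | hn
  · have : (fun v : ℝ => ((Λ 0 * Jk (1 / 64) k 0 : ℝ) : ℂ) * c 0 *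
        ((0 : ℕ) : ℂ) ^ (-(v * Complex.I))) = fun _ => 0 := by
      funext v
      simp
    rw [this]
    exact continuous_const
  · apply continuous_const.mul
    have hn0 : (n : ℂ) ≠ 0 := Nat.cast_ne_zero.mpr hn
    exact Continuous.const_cpow (by fun_prop) (Or.inl hn0)

theorem pa_re (b v : ℝ) : (((1 / 64 + 1 - b : ℝ) : ℂ) + v * Complex.I).re = 1 / 64 + 1 - b := by
  simp

theorem Mk_norm (b : ℝ) (hb : b ≤ 1) (k : ℕ) (v : ℝ) : ‖Mk b k v‖ ≤ 1 := by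
  unfold Mk
  rw [norm_pow]
  apply pow_le_one₀ (norm_nonneg _)
  rw [norm_div]
  have h1 : ‖((1 / 64 : ℝ) : ℂ)‖ = 1 / 64 := by
    rw [Complex.norm_real, Real.norm_eq_abs, abs_of_pos (by norm_num)]
  have h2 : (1 / 64 : ℝ) ≤ ‖((1 / 64 + 1 - b : ℝ) : ℂ) + v * Complex.I‖ := by
    have h3 := Complex.re_le_norm (((1 / 64 + 1 - b : ℝ) : ℂ) + v * Complex.I)
    rw [pa_re] at h3
    linarith
  rw [h1]
  exact div_le_one_of_le₀ h2 (norm_nonneg _)

theorem Mk_continuous (b : ℝ) (hb : b ≤ 1) (k : ℕ) : Continuous (Mk b k) := by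
  unfold Mk
  apply Continuous.pow
  apply Continuous.div continuous_const (by fun_prop)
  intro v h
  have h1 := congrArg Complex.re h
  rw [pa_re, Complex.zero_re] at h1
  linarith

end Pool.Agent.Lib.H18Q
end

-- from Lib.H18Q.PB3
section

/-!
# Project H18Q, chunk PB3: the bump as a superposition of Gamma densities
-/

open Finset MeasureTheory

namespace Pool.Agent.Lib.H18Q

open ArithmeticFunction Pool.Agent.Lib.H68T

/-- Proof: `fourier_inv3` for the functions of `PB2_quot` (`b - a = 6`). -/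
theorem PB3_repr : ∃ C K : ℝ, 1 ≤ C ∧ ∀ X : ℕ, K ≤ X → ∃ kh : ℝ → ℂ, Continuous kh ∧
    (∀ ξ, ‖kh ξ‖ ≤ C * Real.sqrt (Real.log X) / (1 + |ξ|) ^ 3) ∧
    ∀ u : ℝ, 0 < u → (w (u - Real.log X) : ℂ) =
      (Wd (kX X) u : ℂ) * ∫ ξ : ℝ, kh ξ * Complex.exp (u * ξ * Complex.I) := by
  obtain ⟨C, K, hC, h⟩ := PB2_quot
  refine ⟨max 1 (12 * C), K, le_max_left _ _, ?_⟩
  intro X hX
  obtain ⟨f, f1, f2, f3, h0, h1, h2, hc, hz, hb, hw⟩ := h X hX
  obtain ⟨g, hgc, hgb, hgf⟩ := fourier_inv3 f f1 f2 f3 (Real.log X - 2) (Real.log X + 4)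
    (C * Real.sqrt (Real.log X)) (by linarith) (by positivity) h0 h1 h2 hc
    (fun y hy => (hz y hy).1) (fun y hy => (hz y hy).2.1) (fun y hy => (hz y hy).2.2.1)
    (fun y hy => (hz y hy).2.2.2) (fun y => (hb y).1) (fun y => (hb y).2)
  refine ⟨g, hgc, ?_, ?_⟩
  · intro ξ
    refine (hgb ξ).trans ?_
    apply div_le_div_of_nonneg_right _ (by positivity)
    have h3 : 12 * C ≤ max 1 (12 * C) := le_max_right _ _
    have h4 := mul_le_mul_of_nonneg_right h3 (Real.sqrt_nonneg (Real.log X))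
    linarith
  · intro u hu
    rw [← hgf u, hw u hu]
    push_cast
    ring

/-- Integrability of the Gamma densities. -/
theorem pb3_intOn (k : ℕ) (b : ℝ) (hb : 0 < b) :
    IntegrableOn (fun u : ℝ => u ^ k * Real.exp (-(b * u))) (Set.Ioi 0) := by
  have h := integrableOn_rpow_mul_exp_neg_mul_rpow (p := 1) (s := (k : ℝ)) (b := b)
    (by have : (0 : ℝ) ≤ k := Nat.cast_nonneg k
        linarith) one_pos hb
  refine h.congr_fun ?_ measurableSet_Ioi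
  intro x _
  simp only [Real.rpow_natCast, Real.rpow_one, neg_mul]

theorem pb3_norm (k : ℕ) (z : ℂ) (u : ℝ) (hu : 0 ≤ u) :
    ‖(u : ℂ) ^ k * Complex.exp (-(z * u))‖ = u ^ k * Real.exp (-(z.re * u)) := by
  rw [norm_mul, norm_pow, Complex.norm_real, Real.norm_of_nonneg hu, Complex.norm_exp]
  congr 2
  simp

theorem pb3_intOnC (k : ℕ) (z : ℂ) (hz : 0 < z.re) :
    IntegrableOn (fun u : ℝ => (u : ℂ) ^ k * Complex.exp (-(z * u))) (Set.Ioi 0) := by
  refine Integrable.mono' (pb3_intOn k z.re hz) ?_ ?_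
  · apply Continuous.aestronglyMeasurable
    fun_prop
  · refine (ae_restrict_iff' measurableSet_Ioi).mpr (Filter.Eventually.of_forall ?_)
    intro u hu
    rw [pb3_norm k z u (le_of_lt hu)]

/-- The Gamma integral with complex parameter. -/
theorem pb3_gamma (k : ℕ) (z : ℂ) (hz : 0 < z.re) :
    ∫ u in Set.Ioi (0 : ℝ), (u : ℂ) ^ k * Complex.exp (-(z * u)) =
      (k.factorial : ℂ) / z ^ (k + 1) := by
  have hz0 : z ≠ 0 := by
    intro h
    rw [h] at hz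
    simp at hz
  have htend : ∀ k : ℕ, Filter.Tendsto (fun u : ℝ => (u : ℂ) ^ k * Complex.exp (-(z * u)))
      Filter.atTop (nhds 0) := by
    intro k
    rw [tendsto_zero_iff_norm_tendsto_zero]
    have h1 : Filter.Tendsto (fun u : ℝ => u ^ k * Real.exp (-(z.re * u)))
        Filter.atTop (nhds 0) := by
      have := tendsto_rpow_mul_exp_neg_mul_atTop_nhds_zero (k : ℝ) z.re hz
      simpa [Real.rpow_natCast, neg_mul] using this
    refine h1.congr' ?_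
    filter_upwards [Filter.eventually_ge_atTop 0] with u hu
    rw [pb3_norm k z u hu]
  induction k with
  | zero =>
    have h1 := integral_Ioi_of_hasDerivAt_of_tendsto' (a := (0 : ℝ))
      (f := fun u : ℝ => -(Complex.exp (-(z * u)) / z))
      (f' := fun u : ℝ => (u : ℂ) ^ 0 * Complex.exp (-(z * u))) (m := 0)
      (fun u _ => by
        have h2 : HasDerivAt (fun u : ℝ => -(z * (u : ℂ))) (-(z * 1)) u :=
          ((Complex.ofRealCLM.hasDerivAt (x := u)).const_mul z).neg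
        have h3 := ((h2.cexp).div_const z).neg
        convert! h3 using 1
        field_simp) (pb3_intOnC 0 z hz) (by
        have := ((htend 0).div_const z).neg
        simpa using this)
    rw [h1]
    simp
  | succ k ih =>
    have h1 := integral_Ioi_of_hasDerivAt_of_tendsto' (a := (0 : ℝ))
      (f := fun u : ℝ => -((u : ℂ) ^ (k + 1) * Complex.exp (-(z * u)) / z))
      (f' := fun u : ℝ => (u : ℂ) ^ (k + 1) * Complex.exp (-(z * u)) -
        ((k : ℂ) + 1) / z * ((u : ℂ) ^ k * Complex.exp (-(z * u)))) (m := 0)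
      (fun u _ => by
        have h0 : HasDerivAt (fun u : ℝ => (u : ℂ)) 1 u := Complex.ofRealCLM.hasDerivAt (x := u)
        have h2 : HasDerivAt (fun u : ℝ => -(z * (u : ℂ))) (-(z * 1)) u :=
          (h0.const_mul z).neg
        have h4 := h0.pow (k + 1)
        have h3 := ((h4.mul h2.cexp).div_const z).neg
        convert! h3 using 1
        field_simp
        push_cast
        simp
        ring) ((pb3_intOnC (k + 1) z hz).sub ((pb3_intOnC k z hz).const_mul _)) (by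
        have := ((htend (k + 1)).div_const z).neg
        simpa using this)
    rw [integral_sub (pb3_intOnC (k + 1) z hz) ((pb3_intOnC k z hz).const_mul _),
      integral_const_mul, ih] at h1
    have h5 : ∫ u in Set.Ioi (0 : ℝ), (u : ℂ) ^ (k + 1) * Complex.exp (-(z * u)) =
        ((k : ℂ) + 1) / z * ((k.factorial : ℂ) / z ^ (k + 1)) := by
      have h6 : (0 : ℂ) - -(((0 : ℝ) : ℂ) ^ (k + 1) * Complex.exp (-(z * ((0 : ℝ) : ℂ))) / z) = 0 := by
        simp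
      rw [h6] at h1
      linear_combination h1
    rw [h5, Nat.factorial_succ]
    push_cast
    field_simp
    ring

/-- Integrability of `kh`. -/
theorem pb3_kh_int (kh : ℝ → ℂ) (B : ℝ) (hkc : Continuous kh)
    (hkb : ∀ ξ, ‖kh ξ‖ ≤ B / (1 + |ξ|) ^ 3) : Integrable kh := by
  have hB : 0 ≤ B := by
    have := (norm_nonneg _).trans (hkb 0)
    simpa using this
  have h1 : Integrable (fun ξ : ℝ => B * (1 + ξ ^ 2)⁻¹) := integrable_inv_one_add_sq.const_mul B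
  refine Integrable.mono' h1 hkc.aestronglyMeasurable ?_
  refine Filter.Eventually.of_forall ?_
  intro ξ
  refine (hkb ξ).trans ?_
  rw [div_eq_mul_inv]
  apply mul_le_mul_of_nonneg_left _ hB
  apply inv_anti₀ (by positivity)
  have h2 : 0 ≤ |ξ| := abs_nonneg ξ
  have h3 : ξ ^ 2 = |ξ| ^ 2 := (sq_abs ξ).symm
  rw [h3]
  nlinarith [pow_nonneg h2 3, pow_nonneg h2 2]

theorem pb3_Jk_eq (k n : ℕ) (hn : 1 ≤ n) : Jk (1 / 64) k n = Wd k (Real.log n) / n := by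
  have hn0 : (0 : ℝ) < n := by exact_mod_cast hn
  unfold Jk Wd
  have h1 : (n : ℝ) ^ (-1 - 1 / 64 : ℝ) = Real.exp (-(Real.log n / 64)) / n := by
    rw [Real.rpow_sub hn0, Real.rpow_neg_one, Real.rpow_def_of_pos hn0, Real.exp_neg]
    rw [show Real.log n * (1 / 64) = Real.log n / 64 by ring]
    field_simp
  rw [h1]
  ring


theorem pb3_v_zero (X m : ℕ) (hX : 1 ≤ X) (hm : 60 * X < m) : v X m = 0 := by
  unfold v w
  have hX0 : (0 : ℝ) < X := by exact_mod_cast hX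
  have h60 : (60 : ℝ) ≤ (m : ℝ) / X := by
    rw [le_div_iff₀ hX0]
    exact_mod_cast hm.le
  have h4 : (4 : ℝ) ≤ Real.log ((m : ℝ) / X) := by
    rw [Real.le_log_iff_exp_le (by linarith)]
    refine le_trans ?_ h60
    have h1 : Real.exp 4 = Real.exp 1 ^ 4 := by
      rw [← Real.exp_nat_mul]
      norm_num
    rw [h1]
    have h2 := Real.exp_one_lt_d9
    have h3 := Real.exp_pos 1
    calc Real.exp 1 ^ 4 ≤ 2.7182818286 ^ 4 := by gcongr
      _ ≤ 60 := by norm_num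
  have h5 : Real.smoothTransition (4 - Real.log ((m : ℝ) / X)) = 0 :=
    Real.smoothTransition.zero_of_nonpos (by linarith)
  rw [h5, mul_zero]

/-- `FL(t) = ∫ kh(ξ) Pk(t - ξ) dξ`.

Proof. `Jk (1/64) k n = Wd k (log n)/n` for `n ≥ 1`. Interchange sum and integral (`∑ Λ Jk < ∞`,
`kh` integrable by the bound): for `n ≥ 2` (`Λ 0 = Λ 1 = 0`),
`∫ kh(ξ) n^(-i(t-ξ)) dξ = n^(-it) ∫ kh(ξ) e^(i ξ log n) dξ`, and times `Wd k (log n)` this is
`n^(-it) w(log n - log X)`. `FL` has the terms `1 ≤ m ≤ 60 X`, `v X m = w(log (m/X))`, and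
`w = 0` for `m > 60 X` (`log 60 > 4`). -/
theorem PB3_FL (X : ℕ) (hX : 1 ≤ X) (kh : ℝ → ℂ) (B : ℝ) (hkc : Continuous kh)
    (hkb : ∀ ξ, ‖kh ξ‖ ≤ B / (1 + |ξ|) ^ 3)
    (hk : ∀ u : ℝ, 0 < u → (w (u - Real.log X) : ℂ) =
      (Wd (kX X) u : ℂ) * ∫ ξ : ℝ, kh ξ * Complex.exp (u * ξ * Complex.I))
    (p : Σ r : ℕ, DirichletCharacter ℂ r) (t : ℝ) :
    FL X p t = ∫ ξ : ℝ, kh ξ * Pk (fun n => p.2 (n : ZMod p.1)) (kX X) (t - ξ) := by
  have hint := pb3_kh_int kh B hkc hkb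
  have hX0 : (0 : ℝ) < X := by exact_mod_cast hX
  set k := kX X with hkdef
  set F : ℕ → ℝ → ℂ := fun n ξ => kh ξ *
    (((ArithmeticFunction.vonMangoldt n * Jk (1 / 64) k n : ℝ) : ℂ) * p.2 (n : ZMod p.1) *
      (n : ℂ) ^ (-(((t - ξ : ℝ) : ℂ) * Complex.I))) with hF
  -- the exponential form
  have hexp : ∀ n : ℕ, 1 ≤ n → ∀ ξ : ℝ, (n : ℂ) ^ (-(((t - ξ : ℝ) : ℂ) * Complex.I)) =
      (n : ℂ) ^ (-((t : ℂ) * Complex.I)) *
        Complex.exp ((Real.log n : ℝ) * ξ * Complex.I) := by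
    intro n hn ξ
    have hn0 : (n : ℂ) ≠ 0 := by
      have : n ≠ 0 := by omega
      exact_mod_cast this
    rw [show (-(((t - ξ : ℝ) : ℂ) * Complex.I)) = -((t : ℂ) * Complex.I) + (ξ : ℂ) * Complex.I by
      push_cast; ring, Complex.cpow_add _ _ hn0]
    congr 1
    rw [Complex.cpow_def_of_ne_zero hn0, Complex.natCast_log]
    congr 1
    ring
  have hnF : ∀ n : ℕ, ∀ ξ : ℝ, ‖F n ξ‖ ≤ (ArithmeticFunction.vonMangoldt n * Jk (1 / 64) k n) *
      ‖kh ξ‖ := by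
    intro n ξ
    have hJ : 0 ≤ ArithmeticFunction.vonMangoldt n * Jk (1 / 64) k n :=
      mul_nonneg ArithmeticFunction.vonMangoldt_nonneg (Jk_nonneg _ _ _ (by norm_num))
    rw [hF]
    simp only [norm_mul]
    rw [Complex.norm_real, Real.norm_of_nonneg hJ, mul_comm (‖kh ξ‖)]
    apply mul_le_mul_of_nonneg_right _ (norm_nonneg _)
    rcases Nat.eq_zero_or_pos n with h0 | hn
    · subst h0
      simp
    · have h1 : ‖(n : ℂ) ^ (-(((t - ξ : ℝ) : ℂ) * Complex.I))‖ = 1 := by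
        rw [Complex.norm_natCast_cpow_of_pos hn]
        simp
      rw [h1, mul_one]
      calc _ ≤ (ArithmeticFunction.vonMangoldt n * Jk (1 / 64) k n) * 1 :=
            mul_le_mul_of_nonneg_left (p.2.norm_le_one _) hJ
        _ = _ := mul_one _
  have hcF : ∀ n : ℕ, Continuous (F n) := by
    intro n
    rcases Nat.eq_zero_or_pos n with h0 | hn
    · subst h0
      have : F 0 = fun _ => 0 := by
        funext ξ
        rw [hF]
        simp
      rw [this]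
      exact continuous_const
    · have : F n = fun ξ => kh ξ *
        (((ArithmeticFunction.vonMangoldt n * Jk (1 / 64) k n : ℝ) : ℂ) * p.2 (n : ZMod p.1) *
        ((n : ℂ) ^ (-((t : ℂ) * Complex.I)) *
        Complex.exp ((Real.log n : ℝ) * ξ * Complex.I))) := by
        funext ξ
        rw [hF]
        simp only
        rw [hexp n hn ξ]
      rw [this]
      fun_prop
  have hiF : ∀ n : ℕ, Integrable (F n) := by
    intro n
    refine Integrable.mono' (hint.norm.const_mul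
      (ArithmeticFunction.vonMangoldt n * Jk (1 / 64) k n)) (hcF n).aestronglyMeasurable ?_
    exact Filter.Eventually.of_forall fun ξ => hnF n ξ
  have hsF : Summable fun n : ℕ => ∫ ξ, ‖F n ξ‖ := by
    have hs := (Jk_summable (1 / 64) k (by norm_num) (by norm_num)).mul_right (∫ ξ, ‖kh ξ‖)
    refine Summable.of_nonneg_of_le (fun n => integral_nonneg fun ξ => norm_nonneg _) ?_ hs
    intro n
    rw [← integral_const_mul]
    exact integral_mono (hiF n).norm (hint.norm.const_mul _) (fun ξ => hnF n ξ)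
  have hsw := integral_tsum_of_summable_integral_norm hiF hsF
  have hrhs : (∫ ξ : ℝ, kh ξ * Pk (fun n => p.2 (n : ZMod p.1)) k (t - ξ)) =
      ∫ ξ : ℝ, ∑' n : ℕ, F n ξ := by
    apply integral_congr_ae
    refine Filter.Eventually.of_forall ?_
    intro ξ
    simp only [hF, Pk]
    rw [tsum_mul_left]
  rw [hrhs, ← hsw]
  have hterm : ∀ n : ℕ, 1 ≤ n → ∫ ξ, F n ξ =
      ((ArithmeticFunction.vonMangoldt n : ℂ) * p.2 (n : ZMod p.1)) * (v X n : ℂ) *
        (n : ℂ) ^ (-(1 + t * Complex.I)) := by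
    intro n hn
    have hn0 : (n : ℂ) ≠ 0 := by
      have : n ≠ 0 := by omega
      exact_mod_cast this
    have hnr : (0 : ℝ) < n := by exact_mod_cast hn
    rcases Nat.lt_or_ge 1 n with h2 | h2
    · have hlog : 0 < Real.log n := Real.log_pos (by exact_mod_cast h2)
      have h3 : ∫ ξ, F n ξ = (((ArithmeticFunction.vonMangoldt n * Jk (1 / 64) k n : ℝ) : ℂ) *
          p.2 (n : ZMod p.1) * (n : ℂ) ^ (-((t : ℂ) * Complex.I))) *
          ∫ ξ : ℝ, kh ξ * Complex.exp ((Real.log n : ℝ) * ξ * Complex.I) := by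
        rw [← integral_const_mul]
        apply integral_congr_ae
        refine Filter.Eventually.of_forall ?_
        intro ξ
        simp only [hF]
        rw [hexp n hn ξ]
        ring
      have h4 := hk (Real.log n) hlog
      have h5 : (v X n : ℂ) = (w (Real.log n - Real.log X) : ℂ) := by
        unfold v
        rw [Real.log_div hnr.ne' hX0.ne']
      rw [h3, h5, h4, pb3_Jk_eq k n hn]
      have h6 : (n : ℂ) ^ (-(1 + (t : ℂ) * Complex.I)) =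
          (n : ℂ)⁻¹ * (n : ℂ) ^ (-((t : ℂ) * Complex.I)) := by
        rw [show (-(1 + (t : ℂ) * Complex.I)) = -1 + -((t : ℂ) * Complex.I) by ring,
          Complex.cpow_add _ _ hn0, Complex.cpow_neg_one]
      rw [h6]
      push_cast
      ring
    · have h1 : n = 1 := by omega
      subst h1
      have : ∀ ξ, F 1 ξ = 0 := by
        intro ξ
        simp [hF]
      simp [this]
  have hterm0 : ∫ ξ, F 0 ξ = 0 := by
    have : ∀ ξ, F 0 ξ = 0 := by
      intro ξ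
      simp [hF]
    simp [this]
  rw [tsum_eq_sum (s := Icc 1 (60 * X))]
  · unfold FL FF
    apply Finset.sum_congr rfl
    intro n hn
    rw [hterm n (Finset.mem_Icc.mp hn).1]
  · intro n hn
    rcases Nat.eq_zero_or_pos n with h0 | hn1
    · subst h0
      exact hterm0
    · have h2 : 60 * X < n := by
        by_contra h
        exact hn (Finset.mem_Icc.mpr ⟨hn1, by omega⟩)
      rw [hterm n hn1, pb3_v_zero X n hX h2]
      simp

/-- The Gamma integral for `Mk`. -/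
theorem pb3_Mk (b : ℝ) (hb : b ≤ 1) (k : ℕ) (v : ℝ) :
    Mk b k v = ∫ u in Set.Ioi (0 : ℝ), (Wd k u : ℂ) *
      Complex.exp (-(((1 - b : ℝ) + v * Complex.I) * u)) := by
  have hz : 0 < ((1 / 64 + 1 - b : ℝ) + v * Complex.I : ℂ).re := by
    simp
    linarith
  have h1 := pb3_gamma k _ hz
  have h2 : (∫ u in Set.Ioi (0 : ℝ), (Wd k u : ℂ) *
      Complex.exp (-(((1 - b : ℝ) + v * Complex.I) * u))) =
      ((1 / 64 : ℂ) ^ (k + 1) / (k.factorial : ℂ)) * ∫ u in Set.Ioi (0 : ℝ), (u : ℂ) ^ k *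
        Complex.exp (-(((1 / 64 + 1 - b : ℝ) + v * Complex.I : ℂ) * u)) := by
    rw [← integral_const_mul]
    apply integral_congr_ae
    refine Filter.Eventually.of_forall ?_
    intro u
    simp only [Wd]
    push_cast
    rw [show (-((1 / 64 + 1 - (b : ℂ) + v * Complex.I) * u)) =
      -((u : ℂ) / 64) + -((1 - (b : ℂ) + v * Complex.I) * u) by ring, Complex.exp_add]
    ring
  rw [h2, h1]
  unfold Mk
  have hk : (k.factorial : ℂ) ≠ 0 := by exact_mod_cast k.factorial_ne_zero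
  have hz0 : ((1 / 64 + 1 - b : ℝ) + v * Complex.I : ℂ) ≠ 0 := by
    intro h
    rw [h] at hz
    simp at hz
  rw [div_pow]
  push_cast
  push_cast at hz0
  field_simp

/-- `Mb(t) = ∫ kh(ξ) Mk(t - ξ) dξ` for `b ≤ 1`.

Proof. `Mk b k v = ∫_0^∞ Wd k u e^(-(1-b+iv) u) du` (Gamma integral,
`Complex.integral_cpow_mul_exp_neg_mul_Ioi` with exponent `k + 1`, `Γ(k+1) = k!`). Fubini
(`|Wd k u e^(..)| ≤ Wd k u`, `∫ Wd = 1`, `kh` integrable), and
`Wd k u ∫ kh(ξ) e^(iξu) dξ = w(u - log X)` for `u > 0`; for `u ≤ 0` the integrand of `Mb` vanishes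
(`log X ≥ 2`: `hX`). -/
theorem PB3_Mb (X : ℕ) (hX : 8 ≤ X) (kh : ℝ → ℂ) (B : ℝ) (hkc : Continuous kh)
    (hkb : ∀ ξ, ‖kh ξ‖ ≤ B / (1 + |ξ|) ^ 3)
    (hk : ∀ u : ℝ, 0 < u → (w (u - Real.log X) : ℂ) =
      (Wd (kX X) u : ℂ) * ∫ ξ : ℝ, kh ξ * Complex.exp (u * ξ * Complex.I))
    (b : ℝ) (hb : b ≤ 1) (t : ℝ) :
    Mb X b t = ∫ ξ : ℝ, kh ξ * Mk b (kX X) (t - ξ) := by
  have hint := pb3_kh_int kh B hkc hkb
  set k := kX X with hkdef
  have hlogX : 2 < Real.log X := by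
    rw [Real.lt_log_iff_exp_lt (by positivity)]
    have h1 : Real.exp 2 = Real.exp 1 ^ 2 := by
      rw [← Real.exp_nat_mul]
      norm_num
    rw [h1]
    have h2 := Real.exp_one_lt_d9
    have h3 := Real.exp_pos 1
    have h4 : (8 : ℝ) ≤ X := by exact_mod_cast hX
    calc Real.exp 1 ^ 2 ≤ 2.7182818286 ^ 2 := by gcongr
      _ < 8 := by norm_num
      _ ≤ X := h4
  -- the left side is an integral over the positive half line
  have hL : Mb X b t = ∫ u in Set.Ioi (0 : ℝ), (w (u - Real.log X) : ℂ) *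
      Complex.exp (-((1 - b : ℝ) + t * Complex.I) * u) := by
    unfold Mb
    symm
    apply setIntegral_eq_integral_of_forall_compl_eq_zero
    intro u hu
    have hu' : u ≤ 0 := by simpa using hu
    have h0 : w (u - Real.log X) = 0 := by
      unfold w
      rw [Real.smoothTransition.zero_of_nonpos (by linarith : u - Real.log X + 2 ≤ 0), zero_mul]
    rw [h0]
    simp
  rw [hL]
  set G : ℝ → ℝ → ℂ := fun u ξ => ((Wd k u : ℂ) *
      Complex.exp (-(((1 - b : ℝ) + t * Complex.I) * u))) * kh ξ *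
      Complex.exp (u * ξ * Complex.I) with hG
  have h1 : (∫ u in Set.Ioi (0 : ℝ), (w (u - Real.log X) : ℂ) *
      Complex.exp (-((1 - b : ℝ) + t * Complex.I) * u)) =
      ∫ u in Set.Ioi (0 : ℝ), ∫ ξ : ℝ, G u ξ := by
    apply setIntegral_congr_fun measurableSet_Ioi
    intro u hu
    simp only [hG]
    rw [hk u hu]
    have : (fun ξ : ℝ => ((Wd k u : ℂ) *
      Complex.exp (-(((1 - b : ℝ) + t * Complex.I) * u))) * kh ξ *
      Complex.exp (u * ξ * Complex.I)) = fun ξ : ℝ => ((Wd k u : ℂ) *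
      Complex.exp (-(((1 - b : ℝ) + t * Complex.I) * u))) * (kh ξ *
      Complex.exp (u * ξ * Complex.I)) := by
      funext ξ
      ring
    rw [this, integral_const_mul, neg_mul]
    ring
  rw [h1]
  have hWint : Integrable (fun u : ℝ => (Wd k u : ℂ) *
      Complex.exp (-(((1 - b : ℝ) + t * Complex.I) * u))) (volume.restrict (Set.Ioi 0)) := by
    have hz : 0 < ((1 / 64 + 1 - b : ℝ) + t * Complex.I : ℂ).re := by
      simp
      linarith
    have h2 := (pb3_intOnC k _ hz).const_mul ((1 / 64 : ℂ) ^ (k + 1) / (k.factorial : ℂ))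
    refine h2.congr (Filter.Eventually.of_forall ?_)
    intro u
    simp only [Wd]
    push_cast
    rw [show (-((1 / 64 + 1 - (b : ℂ) + t * Complex.I) * u)) =
      -((u : ℂ) / 64) + -((1 - (b : ℂ) + t * Complex.I) * u) by ring, Complex.exp_add]
    ring
  have hGint : Integrable (Function.uncurry G) ((volume.restrict (Set.Ioi 0)).prod volume) := by
    have h3 := hWint.mul_prod hint
    refine Integrable.mono h3 ?_ ?_
    · have h4 : AEStronglyMeasurable (fun z : ℝ × ℝ => Complex.exp (z.1 * z.2 * Complex.I))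
          ((volume.restrict (Set.Ioi 0)).prod volume) := by
        apply Continuous.aestronglyMeasurable
        fun_prop
      exact h3.1.mul h4
    · refine Filter.Eventually.of_forall ?_
      intro z
      simp only [hG, Function.uncurry]
      rw [norm_mul _ (Complex.exp (z.1 * z.2 * Complex.I))]
      have h5 : ‖Complex.exp ((z.1 : ℂ) * z.2 * Complex.I)‖ = 1 := by
        rw [← Complex.ofReal_mul]
        exact Complex.norm_exp_ofReal_mul_I _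
      rw [h5, mul_one]
  rw [integral_integral_swap hGint]
  apply integral_congr_ae
  refine Filter.Eventually.of_forall ?_
  intro ξ
  simp only
  rw [pb3_Mk b hb, ← integral_const_mul]
  apply setIntegral_congr_fun measurableSet_Ioi
  intro u _
  simp only [hG]
  rw [show (-(((1 - b : ℝ) + ((t - ξ : ℝ) : ℂ) * Complex.I) * (u : ℂ))) =
    -(((1 - b : ℝ) + (t : ℂ) * Complex.I) * u) + (u * ξ * Complex.I) by push_cast; ring,
    Complex.exp_add]
  ring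

end Pool.Agent.Lib.H18Q
end

-- from Lib.H18Q.PG2
section

/-!
# Project H18Q, chunk PG2: L1 norms for a family
-/

open Finset

namespace Pool.Agent.Lib.H18Q

open ArithmeticFunction Pool.Agent.Lib.H68T

theorem pg2_ratio_cont (ρ : ℂ) (hρ : ρ.re ≤ 1) (k : ℕ) : Continuous fun v : ℝ =>
    ‖((1 / 64 : ℝ) : ℂ) / (1 + (1 / 64 : ℝ) + v * Complex.I - ρ)‖ ^ (k + 1) := by
  refine Continuous.pow (Continuous.norm ?_) _
  refine Continuous.div continuous_const (by fun_prop) fun v h => ?_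
  have := congrArg Complex.re h
  simp at this
  linarith

/-- The mean of `Pk - ε Mk` over `|v| ≤ Q^8 - 1` for one member of the family.

Proof: `PA_formula` (`ℓ = log Q`, `T = Q^10`), `PC1_point`, and `PC1_one` for each zero of
`ZR f (7/8) (Q^8)` (`Re ρ ≤ 1`, `mem_ZR`); the errors `C log Q (1/8)^k`, `C log Q (1/9)^k` over a
range of length `≤ 2 Q^8`. -/
theorem PG2_one (C0 : ℝ) (h0 : 1 ≤ C0) : ∃ C : ℝ, 1 ≤ C ∧ ∀ (Q : ℕ) (f : ℂ → ℂ)
    (c : ℕ → ℂ) (ε b : ℝ), 64 ≤ Real.log Q → LDat C0 (Real.log Q) ((Q : ℝ) ^ 10) f →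
    (∀ n, ‖c n‖ ≤ 1) → b ≤ 1 →
    (∀ s : ℂ, 1 < s.re → logDeriv f s = -LSeries (fun n => (Λ n : ℂ) * c n) s + ε / (s - b)) →
    ∀ k : ℕ, 1 ≤ k →
    ∫ v in (-((Q : ℝ) ^ 8 - 1))..((Q : ℝ) ^ 8 - 1), ‖Pk c k v - ε * Mk b k v‖ ≤
      C / Real.sqrt (k + 1) * (∑ ρ ∈ ZR f (1 - 1 / 8) ((Q : ℝ) ^ 8), (od f ρ : ℝ) *
        (1 / (1 + 64 * (1 - ρ.re))) ^ k) + C * (Q : ℝ) ^ 8 * Real.log Q * (1 / 8) ^ k := by
  obtain ⟨C1, hC1, hA⟩ := PA_formula C0 h0
  obtain ⟨C2, hC2, hP⟩ := PC1_point C0 h0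
  obtain ⟨C3, hC3, hO⟩ := PC1_one
  refine ⟨1 + C3 + 2 * (C1 + C2), by linarith, ?_⟩
  intro Q f c ε b hQ hf hc hb hld k hk
  have hQ0 : (0 : ℝ) < Q := by
    rcases Nat.eq_zero_or_pos Q with h | h
    · rw [h] at hQ
      norm_num at hQ
    · exact_mod_cast h
  have hQ1 : (1 : ℝ) ≤ Q := by
    by_contra hcon
    have := Real.log_nonpos hQ0.le (not_le.1 hcon).le
    linarith
  have hQ8 : (1 : ℝ) ≤ (Q : ℝ) ^ 8 := one_le_pow₀ hQ1
  set R : ℝ := (Q : ℝ) ^ 8 - 1 with hR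
  have hR0 : 0 ≤ R := by linarith
  have hne : ∃ c, f c ≠ 0 := ⟨2, fun h => by
    have := hf.zre 2 h
    norm_num at this⟩
  set Z := ZR f (1 - 1 / 8) ((Q : ℝ) ^ 8) with hZ
  have hZ1 : ∀ ρ ∈ Z, ρ.re ≤ 1 := fun ρ hρ => ((mem_ZR hf.diff hne).1 hρ).2.2.1
  set L := Real.log Q with hL
  have hQ10 : R ≤ (Q : ℝ) ^ 10 := by
    have : (Q : ℝ) ^ 8 ≤ (Q : ℝ) ^ 10 := pow_le_pow_right₀ hQ1 (by norm_num)
    linarith
  have hpt : ∀ v ∈ Set.Icc (-R) R, ‖Pk c k v - ε * Mk b k v‖ ≤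
      (∑ ρ ∈ Z, (od f ρ : ℝ) *
        ‖((1 / 64 : ℝ) : ℂ) / (1 + (1 / 64 : ℝ) + v * Complex.I - ρ)‖ ^ (k + 1)) +
      (C1 + C2) * L * (1 / 8) ^ k := by
    intro v hv
    have hv' : |v| ≤ R := abs_le.2 ⟨hv.1, hv.2⟩
    have h1 := hA L ((Q : ℝ) ^ 10) f c ε b hQ hf hc hb hld v (hv'.trans hQ10) k
    have h2 := hP Q f hQ hf v k hv'
    rw [← hZ, ← hL] at h2
    have h3 : (1 / 9 : ℝ) ^ k ≤ (1 / 8) ^ k := pow_le_pow_left₀ (by norm_num) (by norm_num) k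
    have h4 : C2 * L * (1 / 9) ^ k ≤ C2 * L * (1 / 8) ^ k :=
      mul_le_mul_of_nonneg_left h3 (mul_nonneg hC2.le (by linarith))
    have h5 : ‖Pk c k v - ε * Mk b k v‖ ≤
        ‖Pk c k v - ε * Mk b k v + ∑ ρ ∈ ZD f (1 + (1 / 64 : ℝ) + v * Complex.I) (1 / 4),
          (od f ρ : ℂ) * (((1 / 64 : ℝ) : ℂ) / (1 + (1 / 64 : ℝ) + v * Complex.I - ρ)) ^ (k + 1)‖ +
        ‖∑ ρ ∈ ZD f (1 + (1 / 64 : ℝ) + v * Complex.I) (1 / 4),
          (od f ρ : ℂ) * (((1 / 64 : ℝ) : ℂ) / (1 + (1 / 64 : ℝ) + v * Complex.I - ρ)) ^ (k + 1)‖ := by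
      set A := Pk c k v - ε * Mk b k v
      set B := ∑ ρ ∈ ZD f (1 + (1 / 64 : ℝ) + v * Complex.I) (1 / 4),
          (od f ρ : ℂ) * (((1 / 64 : ℝ) : ℂ) / (1 + (1 / 64 : ℝ) + v * Complex.I - ρ)) ^ (k + 1)
      calc ‖A‖ = ‖(A + B) - B‖ := by rw [add_sub_cancel_right]
        _ ≤ ‖A + B‖ + ‖B‖ := norm_sub_le _ _
    have h6 : (C1 + C2) * L * (1 / 8) ^ k = C1 * L * (1 / 8) ^ k + C2 * L * (1 / 8) ^ k := by ring
    rw [h6]
    linarith
  have hc1 : Continuous fun v : ℝ => ‖Pk c k v - ε * Mk b k v‖ :=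
    ((Pk_continuous c hc k).sub (continuous_const.mul (Mk_continuous b hb k))).norm
  have hc2 : ∀ ρ ∈ Z, Continuous fun v : ℝ => (od f ρ : ℝ) *
      ‖((1 / 64 : ℝ) : ℂ) / (1 + (1 / 64 : ℝ) + v * Complex.I - ρ)‖ ^ (k + 1) :=
    fun ρ hρ => continuous_const.mul (pg2_ratio_cont ρ (hZ1 ρ hρ) k)
  have hc3 : Continuous fun v : ℝ => ∑ ρ ∈ Z, (od f ρ : ℝ) *
      ‖((1 / 64 : ℝ) : ℂ) / (1 + (1 / 64 : ℝ) + v * Complex.I - ρ)‖ ^ (k + 1) :=
    continuous_finsetSum _ hc2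
  have hc4 : Continuous fun v : ℝ => (∑ ρ ∈ Z, (od f ρ : ℝ) *
      ‖((1 / 64 : ℝ) : ℂ) / (1 + (1 / 64 : ℝ) + v * Complex.I - ρ)‖ ^ (k + 1)) +
        (C1 + C2) * L * (1 / 8) ^ k := hc3.add continuous_const
  have hint := intervalIntegral.integral_mono_on (μ := MeasureTheory.volume) (by linarith : -R ≤ R)
    (hc1.intervalIntegrable _ _) (hc4.intervalIntegrable _ _) hpt
  refine hint.trans ?_
  rw [intervalIntegral.integral_add (hc3.intervalIntegrable _ _) (continuous_const.intervalIntegrable _ _),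
    intervalIntegral.integral_finsetSum fun ρ hρ => (hc2 ρ hρ).intervalIntegrable _ _,
    intervalIntegral.integral_const]
  have hsq : 0 < Real.sqrt (k + 1) := Real.sqrt_pos.2 (by positivity)
  have h1 : ∑ ρ ∈ Z, ∫ v in (-R)..R, (od f ρ : ℝ) *
      ‖((1 / 64 : ℝ) : ℂ) / (1 + (1 / 64 : ℝ) + v * Complex.I - ρ)‖ ^ (k + 1) ≤
      C3 / Real.sqrt (k + 1) * ∑ ρ ∈ Z, (od f ρ : ℝ) * (1 / (1 + 64 * (1 - ρ.re))) ^ k := by
    rw [Finset.mul_sum]
    refine Finset.sum_le_sum fun ρ hρ => ?_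
    rw [intervalIntegral.integral_const_mul]
    calc (od f ρ : ℝ) * ∫ v in (-R)..R,
          ‖((1 / 64 : ℝ) : ℂ) / (1 + (1 / 64 : ℝ) + v * Complex.I - ρ)‖ ^ (k + 1)
        ≤ (od f ρ : ℝ) * (C3 / Real.sqrt (k + 1) * (1 / (1 + 64 * (1 - ρ.re))) ^ k) :=
          mul_le_mul_of_nonneg_left (hO k ρ (-R) R hk (hZ1 ρ hρ) (by linarith)) (Nat.cast_nonneg _)
      _ = _ := by ring
  have hsum0 : 0 ≤ ∑ ρ ∈ Z, (od f ρ : ℝ) * (1 / (1 + 64 * (1 - ρ.re))) ^ k := by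
    refine Finset.sum_nonneg fun ρ hρ => mul_nonneg (Nat.cast_nonneg _) (pow_nonneg ?_ _)
    have := hZ1 ρ hρ
    apply div_nonneg zero_le_one
    linarith
  have h2 : C3 / Real.sqrt (k + 1) * ∑ ρ ∈ Z, (od f ρ : ℝ) * (1 / (1 + 64 * (1 - ρ.re))) ^ k ≤
      (1 + C3 + 2 * (C1 + C2)) / Real.sqrt (k + 1) *
        ∑ ρ ∈ Z, (od f ρ : ℝ) * (1 / (1 + 64 * (1 - ρ.re))) ^ k := by
    apply mul_le_mul_of_nonneg_right _ hsum0
    apply div_le_div_of_nonneg_right _ hsq.le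
    linarith
  have h3 : (R - -R) • ((C1 + C2) * L * (1 / 8) ^ k) ≤
      (1 + C3 + 2 * (C1 + C2)) * (Q : ℝ) ^ 8 * L * (1 / 8) ^ k := by
    rw [smul_eq_mul]
    have e1 : (R - -R) * ((C1 + C2) * L * (1 / 8) ^ k) = (2 * (C1 + C2)) * R * (L * (1 / 8) ^ k) := by
      ring
    have e2 : (1 + C3 + 2 * (C1 + C2)) * (Q : ℝ) ^ 8 * L * (1 / 8) ^ k =
        (1 + C3 + 2 * (C1 + C2)) * (Q : ℝ) ^ 8 * (L * (1 / 8) ^ k) := by ring
    rw [e1, e2]
    apply mul_le_mul_of_nonneg_right _ (mul_nonneg (by linarith) (by positivity))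
    apply mul_le_mul (by linarith) (by linarith) hR0 (by positivity)
  linarith

theorem pg2_kX {K : ℝ} {Q X : ℕ} (hK : 128 ≤ K) (h : RegP K Q X) :
    1 ≤ kX X ∧ Real.log X / 64 - 1 ≤ kX X ∧ Real.log X / 64 ≤ (kX X : ℝ) + 1 := by
  have h1 := h.logX_ge (by linarith)
  have h2 := Real.add_one_le_exp K
  have h3 : (1 : ℝ) ≤ Real.log X / 64 := by linarith
  unfold kX
  have h4 := Nat.lt_floor_add_one (Real.log X / 64)
  refine ⟨Nat.le_floor (by exact_mod_cast h3), by linarith, h4.le⟩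

/-- the first error -/
theorem pg2_err1 {K : ℝ} {Q X : ℕ} (hK : 1280 ≤ K) (h : RegP K Q X) :
    (Q : ℝ) ^ 2 * (Real.sqrt (Real.log X) * ((Q : ℝ) ^ 8 * Real.log Q * (1 / 8) ^ kX X)) ≤
      640 * (Q : ℝ) ^ (-7 : ℝ) * (1 / Q) := by
  have hK1 : 1 ≤ K := by linarith
  obtain ⟨hk1, hk2, hk3⟩ := pg2_kX (by linarith) h
  have hX1 := h.logX_ge_one (by linarith)
  have hQ : (0 : ℝ) < Q := by exact_mod_cast h.Q_pos hK1
  have hlQ : 0 < Real.log Q := by linarith [h.logQ_ge hK1]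
  have hlQ2 : Real.log Q ≤ Q := by
    have := Real.log_le_sub_one_of_pos hQ
    linarith
  have hlog8 : (2 : ℝ) ≤ Real.log 8 := by
    rw [show (8 : ℝ) = 2 ^ 3 by norm_num, Real.log_pow]
    have := Real.log_two_gt_d9
    push_cast
    linarith
  have h8 : (1 / 8 : ℝ) ^ kX X ≤ Real.exp (2 - Real.log X / 32) := by
    have e1 : (1 / 8 : ℝ) ^ kX X = Real.exp (-(kX X * Real.log 8)) := by
      rw [Real.exp_neg, mul_comm, Real.exp_mul, Real.exp_log (by norm_num), Real.rpow_natCast,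
        one_div, inv_pow]
    rw [e1]
    apply Real.exp_le_exp.2
    have : (kX X : ℝ) * 2 ≤ kX X * Real.log 8 := mul_le_mul_of_nonneg_left hlog8 (Nat.cast_nonneg _)
    linarith
  have he2 : Real.exp 2 ≤ 10 := by
    have : Real.exp 2 = Real.exp 1 * Real.exp 1 := by rw [← Real.exp_add]; norm_num
    rw [this]
    have h1 := Real.exp_one_lt_d9
    have h2 := Real.exp_pos 1
    nlinarith
  have hsqrt : Real.sqrt (Real.log X) ≤ 64 * Real.exp (Real.log X / 64) := by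
    have h1 : Real.sqrt (Real.log X) ≤ Real.log X := by
      rw [Real.sqrt_le_left (by linarith)]
      nlinarith
    have h2 := Real.add_one_le_exp (Real.log X / 64)
    linarith
  have hX2 : Real.exp (-(Real.log X / 64)) ≤ (Q : ℝ) ^ (-20 : ℝ) := by
    rw [Real.rpow_def_of_pos hQ]
    apply Real.exp_le_exp.2
    have h1 := h.logQ_le hK1
    have h2 : 1280 * Real.log Q ≤ K * Real.log Q := mul_le_mul_of_nonneg_right hK hlQ.le
    linarith
  have hprod : Real.sqrt (Real.log X) * (1 / 8) ^ kX X ≤ 640 * (Q : ℝ) ^ (-20 : ℝ) := by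
    calc Real.sqrt (Real.log X) * (1 / 8) ^ kX X ≤
        (64 * Real.exp (Real.log X / 64)) * Real.exp (2 - Real.log X / 32) :=
          mul_le_mul hsqrt h8 (by positivity) (by positivity)
      _ = 64 * Real.exp 2 * Real.exp (-(Real.log X / 64)) := by
          rw [mul_assoc, mul_assoc, ← Real.exp_add, ← Real.exp_add]
          congr 2
          ring
      _ ≤ 64 * 10 * (Q : ℝ) ^ (-20 : ℝ) := by
          apply mul_le_mul _ hX2 (by positivity) (by norm_num)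
          linarith
      _ = _ := by ring
  have hQpow : (Q : ℝ) ^ (-20 : ℝ) = (Q : ℝ) ^ (-7 : ℝ) * (1 / Q) * (1 / Q ^ 12) := by
    rw [Real.rpow_neg hQ.le, Real.rpow_neg hQ.le]
    have e1 : (Q : ℝ) ^ (20 : ℝ) = (Q : ℝ) ^ 20 := by exact_mod_cast Real.rpow_natCast (Q : ℝ) 20
    have e2 : (Q : ℝ) ^ (7 : ℝ) = (Q : ℝ) ^ 7 := by exact_mod_cast Real.rpow_natCast (Q : ℝ) 7
    rw [e1, e2]
    field_simp
  calc (Q : ℝ) ^ 2 * (Real.sqrt (Real.log X) * ((Q : ℝ) ^ 8 * Real.log Q * (1 / 8) ^ kX X))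
      = ((Q : ℝ) ^ 10 * Real.log Q) * (Real.sqrt (Real.log X) * (1 / 8) ^ kX X) := by ring
    _ ≤ ((Q : ℝ) ^ 10 * Q) * (640 * (Q : ℝ) ^ (-20 : ℝ)) := by
        apply mul_le_mul _ hprod (by positivity) (by positivity)
        exact mul_le_mul_of_nonneg_left hlQ2 (by positivity)
    _ = 640 * (Q : ℝ) ^ (-7 : ℝ) * (1 / Q) * (Q ^ 11 / Q ^ 12) := by
        rw [hQpow]
        ring
    _ ≤ 640 * (Q : ℝ) ^ (-7 : ℝ) * (1 / Q) * 1 := by
        apply mul_le_mul_of_nonneg_left _ (by positivity)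
        rw [div_le_one (by positivity)]
        have hQ1 : (1 : ℝ) ≤ Q := by linarith [h.Q_ge hK1]
        exact pow_le_pow_right₀ hQ1 (by norm_num)
    _ = _ := by ring

/-- the second error -/
theorem pg2_err2 {Q : ℕ} (hQ : (4 : ℝ) ≤ Q) {B M : ℝ} (hB : 0 ≤ B) (hM : 0 ≤ M) :
    (Q : ℝ) ^ 2 * (2 * (Q : ℝ) ^ 7 * B * M / ((Q : ℝ) ^ 8 - 1 - (Q : ℝ) ^ 7) ^ 2) ≤
      8 * (B * M) * (Q : ℝ) ^ (-7 : ℝ) := by
  have hQ0 : (0 : ℝ) < Q := by linarith
  have h7 : (4 : ℝ) ^ 7 ≤ (Q : ℝ) ^ 7 := pow_le_pow_left₀ (by norm_num) hQ 7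
  have h1 : (Q : ℝ) ^ 8 / 2 ≤ (Q : ℝ) ^ 8 - 1 - (Q : ℝ) ^ 7 := by
    have : (Q : ℝ) ^ 8 = (Q : ℝ) ^ 7 * Q := by ring
    rw [this]
    nlinarith
  have h2 : ((Q : ℝ) ^ 8 / 2) ^ 2 ≤ ((Q : ℝ) ^ 8 - 1 - (Q : ℝ) ^ 7) ^ 2 :=
    pow_le_pow_left₀ (by positivity) h1 2
  have h3 : 2 * (Q : ℝ) ^ 7 * B * M / ((Q : ℝ) ^ 8 - 1 - (Q : ℝ) ^ 7) ^ 2 ≤
      2 * (Q : ℝ) ^ 7 * B * M / ((Q : ℝ) ^ 8 / 2) ^ 2 :=
    div_le_div_of_nonneg_left (by positivity) (by positivity) h2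
  refine (mul_le_mul_of_nonneg_left h3 (by positivity)).trans (le_of_eq ?_)
  have e2 : (Q : ℝ) ^ (7 : ℝ) = (Q : ℝ) ^ 7 := by exact_mod_cast Real.rpow_natCast (Q : ℝ) 7
  rw [Real.rpow_neg hQ0.le, e2]
  field_simp
  ring

/-- **L1 norms for a family.** Proof. For each `p`: `FL - ε Mb = ∫ kh(ξ) (Pk - ε Mk)(t - ξ) dξ`
(`PB3_repr`, `PB3_FL`, `PB3_Mb`; linearity, both integrable); `PG1_conv` with `S = Q^7`,
`R = Q^8 - 1`, `B = C √(log X)`, `M = C + 1` (`PA_bounds`, `Mk_norm`, `|ε| ≤ 1`; `Pk_continuous`,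
`Mk_continuous`); `PG2_one` with `k = kX X`. `√(log X)/√(k+1) ≤ 8` (`k + 1 ≥ log X/64`). Sum over
`p ∈ PC Q` (`card_PC_le`: at most `Q²`). The remaining errors are, for `K` large,
`Q² · C √(log X) · Q^8 log Q (1/8)^k` with `k ≥ (K/100) log Q`, `(1/8)^k ≤ Q^(-K/50)`, and
`Q² · 2 Q^7 C √(log X) M/(Q^8/2)² ≤ C' √(log X) Q^(-7)`, `log X ≤ Q^(1/K)` (`regp_log_le` in `R0`);
together `≤ Q^(-6)`. -/
theorem L1_family (C0 : ℝ) (h0 : 1 ≤ C0) : ∃ C K : ℝ, 1 ≤ C ∧ 1 ≤ K ∧ ∀ Q X : ℕ, RegP K Q X →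
    ∀ (g : (Σ r : ℕ, DirichletCharacter ℂ r) → ℂ → ℂ)
      (ε b : (Σ r : ℕ, DirichletCharacter ℂ r) → ℝ), Fam C0 Q g →
    (∀ p ∈ PC Q, |ε p| ≤ 1 ∧ b p ≤ 1 ∧ ∀ s : ℂ, 1 < s.re → logDeriv (g p) s =
      -LSeries (fun n => (Λ n : ℂ) * p.2 (n : ZMod p.1)) s + ε p / (s - b p)) →
    ∑ p ∈ PC Q, ∫ t in (-(Q : ℝ) ^ 7)..((Q : ℝ) ^ 7), ‖FL X p t - ε p * Mb X (b p) t‖ ≤
      C * (∑ p ∈ PC Q, ∑ ρ ∈ ZR (g p) (1 - 1 / 8) ((Q : ℝ) ^ 8), (od (g p) ρ : ℝ) *
        (1 / (1 + 64 * (1 - ρ.re))) ^ kX X) + (Q : ℝ) ^ (-6 : ℝ) := by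
  obtain ⟨CA, hCA, hPA⟩ := PA_bounds
  obtain ⟨CB, KB, hCB, hPB⟩ := PB3_repr
  obtain ⟨CG, hCG, hPG⟩ := PG2_one C0 h0
  obtain ⟨K1, hK1, hlog⟩ := regp_log_le (16 * (CB * (CA + 1))) (1 / 2) 1 one_pos
  refine ⟨8 * CB * CG, max (max KB K1) (max 1280 (1280 * (CB * CG))), by nlinarith,
    le_trans (by norm_num) ((le_max_left _ _).trans (le_max_right _ _)), ?_⟩
  intro Q X hreg g ε b hfam hmain
  set K := max (max KB K1) (max 1280 (1280 * (CB * CG))) with hKdef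
  have hKB : KB ≤ K := (le_max_left _ _).trans (le_max_left _ _)
  have hKK1 : K1 ≤ K := (le_max_right _ _).trans (le_max_left _ _)
  have hK1280 : 1280 ≤ K := (le_max_left _ _).trans (le_max_right _ _)
  have hKC : 1280 * (CB * CG) ≤ K := (le_max_right _ _).trans (le_max_right _ _)
  have hK0 : 0 ≤ K := by linarith
  obtain ⟨hk1, hk2, hk3⟩ := pg2_kX (by linarith) hreg
  have hQK := hreg.Q_ge (by linarith)
  have hQ4 : (4 : ℝ) ≤ Q := by linarith
  have hQ0 : (0 : ℝ) < Q := by linarith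
  have hlogQ := hreg.logQ_ge (by linarith)
  have hXK := hreg.X_ge (by linarith)
  have hX8 : 8 ≤ X := by
    have : (8 : ℝ) ≤ X := by linarith
    exact_mod_cast this
  have hlX := hreg.logX_ge_one (by linarith)
  obtain ⟨kh, hkc, hkb, hkr⟩ := hPB X (hKB.trans hXK)
  set B := CB * Real.sqrt (Real.log X) with hBdef
  have hB0 : 0 ≤ B := by positivity
  have hkint : MeasureTheory.Integrable fun ξ : ℝ => 1 / (1 + |ξ|) ^ 3 := PG1_kernel.1
  have hintD : ∀ D : ℝ → ℂ, Continuous D → ∀ M : ℝ, (∀ v, ‖D v‖ ≤ M) → ∀ t : ℝ,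
      MeasureTheory.Integrable fun ξ : ℝ => kh ξ * D (t - ξ) := by
    intro D hD M hM t
    refine MeasureTheory.Integrable.mono' (hkint.const_mul (B * M))
      (hkc.mul (hD.comp (continuous_const.sub continuous_id))).aestronglyMeasurable ?_
    refine Filter.Eventually.of_forall fun ξ => ?_
    rw [norm_mul]
    calc ‖kh ξ‖ * ‖D (t - ξ)‖ ≤ (B / (1 + |ξ|) ^ 3) * M :=
          mul_le_mul (hkb ξ) (hM _) (norm_nonneg _) (by positivity)
      _ = B * M * (1 / (1 + |ξ|) ^ 3) := by ring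
  have hone : ∀ p ∈ PC Q, ∫ t in (-(Q : ℝ) ^ 7)..((Q : ℝ) ^ 7), ‖FL X p t - ε p * Mb X (b p) t‖ ≤
      8 * CB * CG * (∑ ρ ∈ ZR (g p) (1 - 1 / 8) ((Q : ℝ) ^ 8), (od (g p) ρ : ℝ) *
        (1 / (1 + 64 * (1 - ρ.re))) ^ kX X) +
      (CB * CG * (Real.sqrt (Real.log X) * ((Q : ℝ) ^ 8 * Real.log Q * (1 / 8) ^ kX X)) +
        2 * (Q : ℝ) ^ 7 * B * (CA + 1) / ((Q : ℝ) ^ 8 - 1 - (Q : ℝ) ^ 7) ^ 2) := by
    intro p hp
    obtain ⟨hε, hb, hld⟩ := hmain p hp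
    have hc : ∀ n : ℕ, ‖p.2 (n : ZMod p.1)‖ ≤ 1 := fun n => DirichletCharacter.norm_le_one p.2 _
    have hPc := Pk_continuous (fun n => p.2 (n : ZMod p.1)) hc (kX X)
    have hMc := Mk_continuous (b p) hb (kX X)
    have hPb := hPA (fun n => p.2 (n : ZMod p.1)) hc (kX X)
    have hMb := Mk_norm (b p) hb (kX X)
    set D : ℝ → ℂ := fun v => Pk (fun n => p.2 (n : ZMod p.1)) (kX X) v - ε p * Mk (b p) (kX X) v with hD
    have hDc : Continuous D := hPc.sub (continuous_const.mul hMc)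
    have hDb : ∀ v, ‖D v‖ ≤ CA + 1 := by
      intro v
      refine (norm_sub_le _ _).trans (add_le_add (hPb v) ?_)
      rw [norm_mul, Complex.norm_real, Real.norm_eq_abs]
      calc |ε p| * ‖Mk (b p) (kX X) v‖ ≤ 1 * 1 := mul_le_mul hε (hMb v) (norm_nonneg _) zero_le_one
        _ = 1 := one_mul 1
    have hrep : ∀ t : ℝ, FL X p t - ε p * Mb X (b p) t = ∫ ξ : ℝ, kh ξ * D (t - ξ) := by
      intro t
      rw [PB3_FL X (by omega) kh B hkc hkb hkr p t, PB3_Mb X hX8 kh B hkc hkb hkr (b p) hb t,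
        ← MeasureTheory.integral_const_mul, ← MeasureTheory.integral_sub]
      · refine MeasureTheory.integral_congr_ae (Filter.Eventually.of_forall fun ξ => ?_)
        simp only [hD]
        ring
      · exact hintD _ hPc CA hPb t
      · exact (hintD _ hMc 1 hMb t).const_mul _
    have h1 := PG1_conv kh D B (CA + 1) ((Q : ℝ) ^ 7) ((Q : ℝ) ^ 8 - 1) hB0 (by linarith) (by positivity)
      (by
        have h7 : (4 : ℝ) ^ 7 ≤ (Q : ℝ) ^ 7 := pow_le_pow_left₀ (by norm_num) hQ4 7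
        have : (Q : ℝ) ^ 8 = (Q : ℝ) ^ 7 * Q := by ring
        rw [this]
        nlinarith) hkc hkb hDc hDb
    simp only [← hrep] at h1
    have h2 := hPG Q (g p) (fun n => p.2 (n : ZMod p.1)) (ε p) (b p) (by linarith) (hfam.dat p hp)
      hc hb hld (kX X) hk1
    refine h1.trans ?_
    have hsq : 0 < Real.sqrt (kX X + 1) := Real.sqrt_pos.2 (by positivity)
    have h3 : Real.sqrt (Real.log X) ≤ 8 * Real.sqrt (kX X + 1) := by
      rw [Real.sqrt_le_left (by positivity), mul_pow, Real.sq_sqrt (by positivity)]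
      linarith
    set Sg := ∑ ρ ∈ ZR (g p) (1 - 1 / 8) ((Q : ℝ) ^ 8), (od (g p) ρ : ℝ) *
        (1 / (1 + 64 * (1 - ρ.re))) ^ kX X with hSg
    have hSg0 : 0 ≤ Sg := by
      have hne : ∃ c, g p c ≠ 0 := ⟨2, fun h => by
        have := (hfam.dat p hp).zre 2 h
        norm_num at this⟩
      refine Finset.sum_nonneg fun ρ hρ => mul_nonneg (Nat.cast_nonneg _) (pow_nonneg ?_ _)
      have := ((mem_ZR (hfam.dat p hp).diff hne).1 hρ).2.2.1
      apply div_nonneg zero_le_one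
      linarith
    have h4 : B * (CG / Real.sqrt (kX X + 1) * Sg) ≤ 8 * CB * CG * Sg := by
      have e1 : B * (CG / Real.sqrt (kX X + 1) * Sg) =
          (CB * CG) * (Real.sqrt (Real.log X) / Real.sqrt (kX X + 1)) * Sg := by
        rw [hBdef]
        ring
      rw [e1]
      have h5 : Real.sqrt (Real.log X) / Real.sqrt (kX X + 1) ≤ 8 := by
        rw [div_le_iff₀ hsq]
        exact h3
      have h6 : (CB * CG) * (Real.sqrt (Real.log X) / Real.sqrt (kX X + 1)) ≤ (CB * CG) * 8 :=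
        mul_le_mul_of_nonneg_left h5 (by positivity)
      have h7 := mul_le_mul_of_nonneg_right h6 hSg0
      linarith
    have h5 := mul_le_mul_of_nonneg_left h2 hB0
    have e2 : B * (CG / Real.sqrt (kX X + 1) * Sg + CG * (Q : ℝ) ^ 8 * Real.log Q * (1 / 8) ^ kX X) =
        B * (CG / Real.sqrt (kX X + 1) * Sg) +
          CB * CG * (Real.sqrt (Real.log X) * ((Q : ℝ) ^ 8 * Real.log Q * (1 / 8) ^ kX X)) := by
      rw [hBdef]
      ring
    rw [e2] at h5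
    linarith
  refine (Finset.sum_le_sum hone).trans ?_
  rw [Finset.sum_add_distrib, ← Finset.mul_sum, Finset.sum_const, nsmul_eq_mul]
  have hcard : ((PC Q).card : ℝ) ≤ (Q : ℝ) ^ 2 := by exact_mod_cast card_PC_le Q
  set E1 := Real.sqrt (Real.log X) * ((Q : ℝ) ^ 8 * Real.log Q * (1 / 8) ^ kX X) with hE1
  set E2 := 2 * (Q : ℝ) ^ 7 * B * (CA + 1) / ((Q : ℝ) ^ 8 - 1 - (Q : ℝ) ^ 7) ^ 2 with hE2
  have hE10 : 0 ≤ E1 := by
    have : 0 ≤ Real.log Q := by linarith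
    positivity
  have hE20 : 0 ≤ E2 := by positivity
  have he1 : (Q : ℝ) ^ 2 * E1 ≤ 640 * (Q : ℝ) ^ (-7 : ℝ) * (1 / Q) := pg2_err1 hK1280 hreg
  have he2 : (Q : ℝ) ^ 2 * E2 ≤ 8 * (B * (CA + 1)) * (Q : ℝ) ^ (-7 : ℝ) :=
    pg2_err2 hQ4 hB0 (by linarith)
  have hQ76 : (Q : ℝ) ^ (-7 : ℝ) * Q = (Q : ℝ) ^ (-6 : ℝ) := by
    rw [← Real.rpow_add_one hQ0.ne']
    norm_num
  have hp7 : 0 < (Q : ℝ) ^ (-7 : ℝ) := by positivity
  have hf1 : (Q : ℝ) ^ 2 * (CB * CG * E1) ≤ (Q : ℝ) ^ (-6 : ℝ) / 2 := by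
    have hCC : 0 ≤ CB * CG := by positivity
    calc (Q : ℝ) ^ 2 * (CB * CG * E1) = (CB * CG) * ((Q : ℝ) ^ 2 * E1) := by ring
      _ ≤ (CB * CG) * (640 * (Q : ℝ) ^ (-7 : ℝ) * (1 / Q)) := mul_le_mul_of_nonneg_left he1 hCC
      _ = (640 * (CB * CG) * (1 / Q)) * (Q : ℝ) ^ (-7 : ℝ) := by ring
      _ ≤ (Q / 2) * (Q : ℝ) ^ (-7 : ℝ) := by
          apply mul_le_mul_of_nonneg_right _ hp7.le
          have h1 : 1 / (Q : ℝ) ≤ 1 := by
            rw [div_le_one hQ0]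
            linarith
          have h2 : 640 * (CB * CG) * (1 / Q) ≤ 640 * (CB * CG) * 1 :=
            mul_le_mul_of_nonneg_left h1 (by positivity)
          linarith
      _ = (Q : ℝ) ^ (-6 : ℝ) / 2 := by
          rw [← hQ76]
          ring
  have hf2 : (Q : ℝ) ^ 2 * E2 ≤ (Q : ℝ) ^ (-6 : ℝ) / 2 := by
    refine he2.trans ?_
    have h1 := hlog Q X (hreg.mono hK0 hKK1)
    rw [Real.rpow_one, ← Real.sqrt_eq_rpow] at h1
    have h2 : 8 * (B * (CA + 1)) ≤ Q / 2 := by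
      rw [hBdef]
      linarith
    calc 8 * (B * (CA + 1)) * (Q : ℝ) ^ (-7 : ℝ) ≤ (Q / 2) * (Q : ℝ) ^ (-7 : ℝ) :=
          mul_le_mul_of_nonneg_right h2 hp7.le
      _ = (Q : ℝ) ^ (-6 : ℝ) / 2 := by
          rw [← hQ76]
          ring
  have hf3 : ((PC Q).card : ℝ) * (CB * CG * E1 + E2) ≤ (Q : ℝ) ^ 2 * (CB * CG * E1 + E2) :=
    mul_le_mul_of_nonneg_right hcard (by positivity)
  have e3 : (Q : ℝ) ^ 2 * (CB * CG * E1 + E2) = (Q : ℝ) ^ 2 * (CB * CG * E1) + (Q : ℝ) ^ 2 * E2 := by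
    ring
  linarith

end Pool.Agent.Lib.H18Q
end
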