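import Pool.Agent.Lib.H1M.RV.M033
import Pool.Agent.Lib.H1M.RV.M038
import Pool.Agent.Lib.H1M.RV.M049
import Pool.Agent.Lib.H1M.RV.M056
import Pool.Agent.Lib.H1M.RV.M085
import Pool.Agent.Lib.H1M.RV.M086

/-! Merged copies (to shorten the build) of Lib.H18Q.QP, Lib.H18Q.VA, Lib.H18Q.DG2. -/

-- from Lib.H18Q.QP
section

/-!
# Project H18Q, chunk QP: lower bound for the prime pairs in a window (no classes)
-/

open Finset

namespace Pool.Agent.Lib.H18Q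

open Pool.Agent.Lib.H68T Pool.Agent.Lib.H18E

/-- the bound for a sum over the components -/
theorem qp_SG_le {Q : ℕ} (hQ : 1 ≤ Q) (b : (Σ r : ℕ, DirichletCharacter ℂ r) → ℂ)
    (bb : (Σ r : ℕ, DirichletCharacter ℂ r) → ℝ) (hb : ∀ p ∈ PC Q, ‖b p‖ ≤ bb p) (m : ℤ) :
    ‖SG Q b m‖ ≤ 100 * (1 + Real.log Q) ^ 3 * dQ Q m * ∑ p ∈ PC Q, bb p := by
  unfold SG
  rw [Finset.mul_sum]
  refine (norm_sum_le _ _).trans (Finset.sum_le_sum fun p hp => ?_)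
  have h1 := mem_PC.1 hp
  have h2 := abs_Gam_le Q p.1 h1.1 h1.2.1 m
  rw [norm_mul, norm_mul, Complex.norm_real, Real.norm_eq_abs, Complex.norm_conj]
  have h3 : ‖p.2 (m : ZMod p.1)‖ ≤ 1 := DirichletCharacter.norm_le_one p.2 _
  have h0 : 0 ≤ 100 * (1 + Real.log Q) ^ 3 * dQ Q m := (abs_nonneg _).trans h2
  calc |Gam Q p.1 m| * ‖p.2 (m : ZMod p.1)‖ * ‖b p‖
      ≤ (100 * (1 + Real.log Q) ^ 3 * dQ Q m * 1) * bb p := by
        apply mul_le_mul _ (hb p hp) (norm_nonneg _) (by rw [mul_one]; exact h0)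
        exact mul_le_mul h2 h3 (norm_nonneg _) h0
    _ = _ := by rw [mul_one]

theorem qp_regime {K : ℝ} {Q M : ℕ} (hK : 20736 ≤ K) (h : RegP K Q M) :
    20736 ≤ (Q : ℝ) ∧ 1 + Real.log Q ≤ Real.log M ∧ 1 ≤ Real.log M ∧ (Q : ℝ) ^ 20 ≤ M ∧ 0 < M ∧
      0 ≤ Real.log Q := by
  have hK1 : 1 ≤ K := by linarith
  have hQK := h.Q_ge hK1
  have hlQ := h.logQ_ge hK1
  have hlQ0 : 0 ≤ Real.log Q := by linarith
  have h1 := h.logQ_le hK1
  have hM0 := h.X_pos (by linarith)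
  have hM0' : (0 : ℝ) < M := by exact_mod_cast hM0
  have hQ0 : (0 : ℝ) < Q := by linarith
  refine ⟨by linarith, by nlinarith, h.logX_ge_one (by linarith), ?_, hM0, hlQ0⟩
  rw [← Real.log_le_log_iff (by positivity) hM0', Real.log_pow]
  have h2 : 20 * Real.log Q ≤ K * Real.log Q := mul_le_mul_of_nonneg_right (by linarith) hlQ0
  push_cast
  linarith

/-- Crude size of `Lk` in mean square on `[M, 4M]`.

Proof. `Lk - mo = SG (e m) m`, `mo = SG (μ m) m`, so `|Lk(m)| ≤ ∑_p |Gam| (mb p + eb p) ≤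
(2 + E) 100 (1 + log Q)^3 dQ Q m` (`abs_Gam_le`), and `∑_{m ∈ [M, 4M]} dQ(m)² ≤ C M (1 + log Q)^3 + C Q²`
(`dQ² = ∑_{d,d' ≤ Q} 1[lcm ∣ m]`, `∑ 1/lcm(d,d') ≤ (1 + log Q)^3`; compare `XBA1_moment` in `H68X/XBA1`,
or use the second moment lemma used in `H18E/CP`). Total at most `M Q^(1/100)` for `K` large. -/
theorem QP_Lk : ∃ K : ℝ, 1 ≤ K ∧ ∀ (Q M : ℕ) (E : ℝ) (mo : ℤ → ℝ), RegP K Q M → 0 ≤ E → E ≤ 2 →
    Lev Q M E mo →
    ∑ l ∈ Icc M (4 * M), Lk Q (M / Q ^ 2) (l : ℤ) ^ 2 ≤ M * (Q : ℝ) ^ (1 / 100 : ℝ) ∧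
    ∑ l ∈ Icc M (4 * M), lp (l : ℤ) ^ 2 ≤ M * (Q : ℝ) ^ (1 / 100 : ℝ) := by
  obtain ⟨K1, hK1, h1⟩ := regp_log_le 800000 9 (1 / 100) (by norm_num)
  refine ⟨max K1 20736, hK1.trans (le_max_left _ _), ?_⟩
  intro Q M E mo hreg hE hE2 hLev
  have hK0 : 0 ≤ max K1 20736 := by linarith [le_max_left K1 20736]
  obtain ⟨hQ, hlQM, hlM, hQM, hM0, hlQ0⟩ := qp_regime (le_max_right _ _) hreg
  have hlog := h1 Q M (hreg.mono hK0 (le_max_left _ _))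
  have e9 : (Real.log M) ^ (9 : ℝ) = (Real.log M) ^ 9 := by
    rw [← Real.rpow_natCast]; norm_num
  rw [e9] at hlog
  have hQ1 : 1 ≤ Q := by exact_mod_cast (by linarith : (1 : ℝ) ≤ Q)
  have hQ1' : (1 : ℝ) ≤ Q := by linarith
  have hM1 : (1 : ℝ) ≤ M := by exact_mod_cast hM0
  obtain ⟨ℓ, hℓ⟩ : ∃ ℓ, ℓ = Real.log M := ⟨_, rfl⟩
  rw [← hℓ] at hlog hlM hlQM
  have hcard : ((Icc M (4 * M)).card : ℝ) ≤ 4 * M := by
    rw [Nat.card_Icc]
    have : 4 * M + 1 - M ≤ 4 * M := by omega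
    exact_mod_cast this
  constructor
  · obtain ⟨μ, e, mb, eb, hbd, hmb, heb, hm⟩ := hLev
    have hL : ∀ l ∈ Icc M (4 * M), Lk Q (M / Q ^ 2) (l : ℤ) ^ 2 ≤ 160000 * ℓ ^ 6 * dQ Q (l : ℤ) ^ 2 := by
      intro l hl
      rw [mem_Icc] at hl
      obtain ⟨g1, g2, g3⟩ := hm (l : ℤ) (by exact_mod_cast hl.1) (by exact_mod_cast hl.2)
      have g4 : ((Lk Q (M / Q ^ 2) (l : ℤ) : ℝ) : ℂ) = SG Q (μ l) l + SG Q (e l) l := by
        rw [← g1, ← g2]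
        push_cast
        ring
      have g5 := qp_SG_le hQ1 (μ l) mb (fun p hp => (g3 p hp).1) l
      have g6 := qp_SG_le hQ1 (e l) eb (fun p hp => (g3 p hp).2.1) l
      have hd0 : 0 ≤ dQ Q (l : ℤ) := by unfold dQ; positivity
      have hA0 : 0 ≤ 100 * (1 + Real.log Q) ^ 3 * dQ Q (l : ℤ) := by positivity
      have g7 : |Lk Q (M / Q ^ 2) (l : ℤ)| ≤ 400 * ℓ ^ 3 * dQ Q (l : ℤ) := by
        rw [← Real.norm_eq_abs, ← Complex.norm_real, g4]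
        refine (norm_add_le _ _).trans ?_
        have g8 : 100 * (1 + Real.log Q) ^ 3 * dQ Q (l : ℤ) * ∑ p ∈ PC Q, mb p ≤
            100 * (1 + Real.log Q) ^ 3 * dQ Q (l : ℤ) * 2 := mul_le_mul_of_nonneg_left hmb hA0
        have g9 : 100 * (1 + Real.log Q) ^ 3 * dQ Q (l : ℤ) * ∑ p ∈ PC Q, eb p ≤
            100 * (1 + Real.log Q) ^ 3 * dQ Q (l : ℤ) * 2 :=
          mul_le_mul_of_nonneg_left (heb.trans hE2) hA0
        have g10 : (1 + Real.log Q) ^ 3 ≤ ℓ ^ 3 := pow_le_pow_left₀ (by linarith) hlQM 3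
        have g11 : 400 * (1 + Real.log Q) ^ 3 * dQ Q (l : ℤ) ≤ 400 * ℓ ^ 3 * dQ Q (l : ℤ) := by
          apply mul_le_mul_of_nonneg_right _ hd0
          linarith
        linarith
      rw [← sq_abs]
      calc |Lk Q (M / Q ^ 2) (l : ℤ)| ^ 2 ≤ (400 * ℓ ^ 3 * dQ Q (l : ℤ)) ^ 2 :=
            pow_le_pow_left₀ (abs_nonneg _) g7 2
        _ = _ := by ring
    refine (Finset.sum_le_sum hL).trans ?_
    rw [← Finset.mul_sum]
    have hmom := dQ_moment Q (3 * M + 1) 1 0 M one_pos (Nat.coprime_one_right 0)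
    have hmom' : ∑ l ∈ Icc M (4 * M), dQ Q (l : ℤ) ^ 2 ≤ 5 * M * ℓ ^ 3 := by
      have e1 : ∑ l ∈ Icc M (4 * M), dQ Q (l : ℤ) ^ 2 =
          ∑ c ∈ range (3 * M + 1), (dQ Q (((0 : ℕ) : ℤ) + (1 : ℕ) * ((M + c : ℕ) : ℤ))) ^ 2 := by
        rw [← Finset.Ico_add_one_right_eq_Icc, Finset.sum_Ico_eq_sum_range]
        have e2 : 4 * M + 1 - M = 3 * M + 1 := by omega
        rw [e2]
        refine Finset.sum_congr rfl fun c _ => ?_
        congr 2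
        push_cast
        ring
      rw [e1]
      refine hmom.trans ?_
      have g10 : (1 + Real.log Q) ^ 3 ≤ ℓ ^ 3 := pow_le_pow_left₀ (by linarith) hlQM 3
      have g11 : (1 : ℝ) ≤ ℓ ^ 3 := one_le_pow₀ hlM
      have g12 : (Q : ℝ) ^ 2 ≤ M := (pow_le_pow_right₀ hQ1' (by norm_num)).trans hQM
      have g13 : ((3 * M + 1 : ℕ) : ℝ) ≤ 4 * M := by push_cast; linarith
      have g14 : ((3 * M + 1 : ℕ) : ℝ) * (1 + Real.log Q) ^ 3 ≤ (4 * M) * ℓ ^ 3 :=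
        mul_le_mul g13 g10 (by positivity) (by positivity)
      have g15 : (M : ℝ) * 1 ≤ M * ℓ ^ 3 := mul_le_mul_of_nonneg_left g11 (by linarith)
      linarith
    calc 160000 * ℓ ^ 6 * ∑ l ∈ Icc M (4 * M), dQ Q (l : ℤ) ^ 2
        ≤ 160000 * ℓ ^ 6 * (5 * M * ℓ ^ 3) := mul_le_mul_of_nonneg_left hmom' (by positivity)
      _ = M * (800000 * ℓ ^ 9) := by ring
      _ ≤ M * (Q : ℝ) ^ (1 / 100 : ℝ) := mul_le_mul_of_nonneg_left hlog (by linarith)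
  · have hL : ∀ l ∈ Icc M (4 * M), lp (l : ℤ) ^ 2 ≤ (5 * ℓ) ^ 2 := by
      intro l hl
      rw [mem_Icc] at hl
      have g1 : (1 : ℤ) ≤ (l : ℤ) := by exact_mod_cast (by omega : 1 ≤ l)
      have g2 : ((l : ℤ) : ℝ) ≤ 4 * M := by exact_mod_cast hl.2
      obtain ⟨g3, g4⟩ := BA2_lp_bounds (l : ℤ) (4 * M) g1 g2
      apply pow_le_pow_left₀ g3
      refine g4.trans ?_
      rw [Real.log_mul (by norm_num) (by positivity), ← hℓ]
      have : Real.log 4 ≤ 4 := by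
        have := Real.log_le_sub_one_of_pos (show (0 : ℝ) < 4 by norm_num)
        linarith
      linarith
    refine (Finset.sum_le_sum hL).trans ?_
    rw [Finset.sum_const, nsmul_eq_mul]
    have g5 : ℓ ^ 2 ≤ ℓ ^ 9 := pow_le_pow_right₀ hlM (by norm_num)
    calc ((Icc M (4 * M)).card : ℝ) * (5 * ℓ) ^ 2 ≤ (4 * M) * (5 * ℓ) ^ 2 :=
          mul_le_mul_of_nonneg_right hcard (by positivity)
      _ = M * (100 * ℓ ^ 2) := by ring
      _ ≤ M * (Q : ℝ) ^ (1 / 100 : ℝ) := by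
          apply mul_le_mul_of_nonneg_left _ (by linarith)
          have : 0 ≤ ℓ ^ 9 := by positivity
          linarith

theorem qp_Gp_nonneg (W : ℕ) (D : ℤ) : 0 ≤ Gp W D := by
  unfold Gp
  refine Finset.prod_nonneg fun p hp => ?_
  have h1 := (Nat.prime_of_mem_primeFactors (mem_filter.1 hp).1).two_le
  have h2 : (2 : ℝ) ≤ p := by exact_mod_cast h1
  have h3 : 0 ≤ 1 / ((p : ℝ) - 1) := div_nonneg zero_le_one (by linarith)
  linarith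

/-- one of the three products -/
theorem qp_prod {C : ℝ} (hcorr : ∀ (Q H : ℕ) (s t τ D : ℤ)
    (b b' : ℕ → (Σ r : ℕ, DirichletCharacter ℂ r) → ℂ)
    (be be' : (Σ r : ℕ, DirichletCharacter ℂ r) → ℝ) (Λ : ℝ), (τ = 1 ∨ τ = -1) →
    D = s - τ * t → D ≠ 0 → (2 : ℤ) ∣ D → 0 ≤ Λ →
    (∀ p ∈ PC Q, 0 ≤ be p ∧ be p ≤ 2 ∧ 0 ≤ be' p ∧ be' p ≤ 2 ∧
      (∀ c < H, ‖b c p‖ ≤ be p ∧ ‖b' c p‖ ≤ be' p) ∧
      ∀ c, c + 1 < H → ‖b (c + 1) p - b c p‖ ≤ Λ ∧ ‖b' (c + 1) p - b' c p‖ ≤ Λ) →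
    ‖∑ c ∈ range H, SG Q (b c) (s + (c : ℤ)) * SG Q (b' c) (t + τ * (c : ℤ))‖ ≤
      C * (∑ p ∈ PC Q, be p) * (∑ p ∈ PC Q, be' p) * Pool.Agent.Lib.H18E.Gp 1 D * H +
        4 * (Q : ℝ) ^ 10 * (1 + H * Λ)) (hC : 0 ≤ C) (Q M H : ℕ) (hM : 0 < M)
    (x y : ℤ → ℝ) (X Y : ℤ → (Σ r : ℕ, DirichletCharacter ℂ r) → ℂ)
    (xb yb : (Σ r : ℕ, DirichletCharacter ℂ r) → ℝ)
    (hb : ∀ p ∈ PC Q, 0 ≤ xb p ∧ xb p ≤ 2 ∧ 0 ≤ yb p ∧ yb p ≤ 2)
    (hm : ∀ m : ℤ, (M : ℤ) ≤ m → m ≤ 4 * M →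
      (x m : ℂ) = SG Q (X m) m ∧ (y m : ℂ) = SG Q (Y m) m ∧
      ∀ p ∈ PC Q, ‖X m p‖ ≤ xb p ∧ ‖Y m p‖ ≤ yb p ∧
        ‖X (m + 1) p - X m p‖ ≤ (Q : ℝ) ^ 3 / M ∧ ‖Y (m + 1) p - Y m p‖ ≤ (Q : ℝ) ^ 3 / M)
    (σ : Bool) (s t : ℕ) (hs : s ∈ Ico M (4 * M - H)) (ht : t ∈ Ico M (4 * M - H))
    (hD0 : dd H 1 σ 0 0 s t ≠ 0) (hD2 : (2 : ℤ) ∣ dd H 1 σ 0 0 s t) :
    |∑ c ∈ range H, x ((s + c : ℕ) : ℤ) * y ((ix H σ t c : ℕ) : ℤ)| ≤
      C * (∑ p ∈ PC Q, xb p) * (∑ p ∈ PC Q, yb p) * Gp 1 (dd H 1 σ 0 0 s t) * H +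
        4 * (Q : ℝ) ^ 10 * (1 + H * ((Q : ℝ) ^ 3 / M)) := by
  rw [mem_Ico] at hs ht
  obtain ⟨τ, hτd⟩ : ∃ τ : ℤ, τ = bif σ then 1 else -1 := ⟨_, rfl⟩
  obtain ⟨t0, ht0⟩ : ∃ t0 : ℤ, t0 = bif σ then (t : ℤ) else (t : ℤ) + (H - 1 : ℕ) := ⟨_, rfl⟩
  have hτ : τ = 1 ∨ τ = -1 := by
    cases σ <;> simp [hτd]
  have hix : ∀ c : ℕ, c < H → t0 + τ * (c : ℤ) = ((ix H σ t c : ℕ) : ℤ) := by
    intro c hc
    cases σ
    · rw [hτd, ht0]
      simp only [cond_false, ix]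
      push_cast
      omega
    · rw [hτd, ht0]
      simp only [cond_true, ix]
      push_cast
      ring
  have hDD : dd H 1 σ 0 0 s t = (s : ℤ) - τ * t0 := by
    cases σ
    · rw [hτd, ht0]
      simp only [cond_false, dd]
      push_cast
      ring
    · rw [hτd, ht0]
      simp only [cond_true, dd]
      push_cast
      ring
  have hixr : ∀ c : ℕ, c < H → (M : ℤ) ≤ ((ix H σ t c : ℕ) : ℤ) ∧ ((ix H σ t c : ℕ) : ℤ) ≤ 4 * M := by
    intro c hc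
    have h1 : M ≤ ix H σ t c ∧ ix H σ t c ≤ 4 * M := by
      cases σ
      · simp only [cond_false, ix]
        omega
      · simp only [cond_true, ix]
        omega
    exact ⟨by exact_mod_cast h1.1, by exact_mod_cast h1.2⟩
  have hsr : ∀ c : ℕ, c < H → (M : ℤ) ≤ (s : ℤ) + c ∧ (s : ℤ) + c ≤ 4 * M := by
    intro c hc
    omega
  have h1 := hcorr Q H (s : ℤ) t0 τ (dd H 1 σ 0 0 s t) (fun c p => X ((s : ℤ) + c) p)
    (fun c p => Y ((ix H σ t c : ℕ) : ℤ) p) xb yb ((Q : ℝ) ^ 3 / M) hτ hDD hD0 hD2 (by positivity) (by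
      intro p hp
      obtain ⟨b1, b2, b3, b4⟩ := hb p hp
      refine ⟨b1, b2, b3, b4, ?_, ?_⟩
      · intro c hc
        exact ⟨((hm _ (hsr c hc).1 (hsr c hc).2).2.2 p hp).1,
          ((hm _ (hixr c hc).1 (hixr c hc).2).2.2 p hp).2.1⟩
      · intro c hc
        refine ⟨?_, ?_⟩
        · have h2 := ((hm _ (hsr c (by omega)).1 (hsr c (by omega)).2).2.2 p hp).2.2.1
          have e1 : (s : ℤ) + ((c + 1 : ℕ) : ℤ) = (s : ℤ) + c + 1 := by push_cast; ring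
          simp only [e1]
          exact h2
        · cases σ
          · have h2 := ((hm _ (hixr (c + 1) hc).1 (hixr (c + 1) hc).2).2.2 p hp).2.2.2
            have e1 : ((ix H false t (c + 1) : ℕ) : ℤ) + 1 = ((ix H false t c : ℕ) : ℤ) := by
              simp only [ix, cond_false]
              omega
            rw [e1, norm_sub_rev] at h2
            exact h2
          · have h2 := ((hm _ (hixr c (by omega)).1 (hixr c (by omega)).2).2.2 p hp).2.2.2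
            have e1 : ((ix H true t c : ℕ) : ℤ) + 1 = ((ix H true t (c + 1) : ℕ) : ℤ) := by
              simp only [ix, cond_true]
              omega
            rw [e1] at h2
            exact h2)
  have h2 : ((∑ c ∈ range H, x ((s + c : ℕ) : ℤ) * y ((ix H σ t c : ℕ) : ℤ) : ℝ) : ℂ) =
      ∑ c ∈ range H, SG Q (X ((s : ℤ) + c)) ((s : ℤ) + (c : ℤ)) *
        SG Q (Y ((ix H σ t c : ℕ) : ℤ)) (t0 + τ * (c : ℤ)) := by
    rw [Complex.ofReal_sum]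
    refine Finset.sum_congr rfl fun c hc => ?_
    rw [mem_range] at hc
    rw [hix c hc, ← (hm _ (hsr c hc).1 (hsr c hc).2).1, ← (hm _ (hixr c hc).1 (hixr c hc).2).2.1]
    push_cast
    rfl
  rw [← Real.norm_eq_abs, ← Complex.norm_real, h2]
  exact h1

/-- From the projections to the model. Proof. `Lk = mo + err`, `mo(m) = SG Q (μ m) m`,
`err(m) = SG Q (e m) m`. `m_c = s + c`, `m'_c = ix H σ t c = t + c` (`σ = true`: `τ = 1`,
`t0 = t`) or `t + (H - 1 - c)` (`σ = false`: `τ = -1`, `t0 = t + H - 1`), all in `[M, 4M]`;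
`D = dd H 1 σ 0 0 s t = s - τ t0`. `corr_main` for the three products `(μ, e)`, `(e, μ)`, `(e, e)` with
`Λ = Q^3/M`: total at most `C (2 E + 2 E + E²) Gp 1 D H + 12 Q^10 (1 + H Q^3/M) ≤ 6 C E Gp 1 D H + H/Q`
(`E ≤ 2`; `H ≤ M ≤ 64 H`, `M ≥ Q^20`). -/
theorem QP_model : ∃ K C : ℝ, 1 ≤ K ∧ 1 ≤ C ∧ ∀ (Q M H : ℕ) (E : ℝ) (mo : ℤ → ℝ), RegP K Q M →
    0 ≤ E → E ≤ 2 → Lev Q M E mo → H ≤ M → M ≤ 64 * H → 1 ≤ H →
    ∀ (σ : Bool), ∀ s ∈ Ico M (4 * M - H), ∀ t ∈ Ico M (4 * M - H),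
      dd H 1 σ 0 0 s t ≠ 0 → (2 : ℤ) ∣ dd H 1 σ 0 0 s t →
      ∑ c ∈ range H, mo ((s + c : ℕ) : ℤ) * mo ((ix H σ t c : ℕ) : ℤ) -
        C * E * Gp 1 (dd H 1 σ 0 0 s t) * H - H / Q ≤
      ∑ c ∈ range H, Lk Q (M / Q ^ 2) ((s + c : ℕ) : ℤ) *
        Lk Q (M / Q ^ 2) ((ix H σ t c : ℕ) : ℤ) := by
  obtain ⟨C, hC, hcorr⟩ := corr_main
  refine ⟨20736, 6 * C, by norm_num, by linarith, ?_⟩
  intro Q M H E mo hreg hE hE2 hLev hHM hMH hH σ s hs t ht hD0 hD2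
  obtain ⟨hQ, hlQM, hlM, hQM, hM0, hlQ0⟩ := qp_regime le_rfl hreg
  obtain ⟨μ, e, mb, eb, hbd, hmb, heb, hm⟩ := hLev
  have hQ0 : (0 : ℝ) < Q := by linarith
  have hQ1 : (1 : ℝ) ≤ Q := by linarith
  have hMr : (0 : ℝ) < M := by exact_mod_cast hM0
  have hHr : (1 : ℝ) ≤ H := by exact_mod_cast hH
  have hHMr : (H : ℝ) ≤ M := by exact_mod_cast hHM
  have hMHr : (M : ℝ) ≤ 64 * H := by exact_mod_cast hMH
  have hmb0 : 0 ≤ ∑ p ∈ PC Q, mb p := Finset.sum_nonneg fun p hp => (hbd p hp).1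
  have heb0 : 0 ≤ ∑ p ∈ PC Q, eb p := Finset.sum_nonneg fun p hp => (hbd p hp).2.2.1
  obtain ⟨er, her⟩ : ∃ er : ℤ → ℝ, er = fun m => Lk Q (M / Q ^ 2) m - mo m := ⟨_, rfl⟩
  obtain ⟨D, hDd⟩ : ∃ D, D = dd H 1 σ 0 0 s t := ⟨_, rfl⟩
  have hG := qp_Gp_nonneg 1 D
  have t1 := qp_prod hcorr (by linarith) Q M H hM0 mo er μ e mb eb hbd
    (fun m h1 h2 => ⟨(hm m h1 h2).1, by rw [her]; exact (hm m h1 h2).2.1, (hm m h1 h2).2.2⟩)
    σ s t hs ht hD0 hD2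
  have t2 := qp_prod hcorr (by linarith) Q M H hM0 er mo e μ eb mb
    (fun p hp => ⟨(hbd p hp).2.2.1, (hbd p hp).2.2.2, (hbd p hp).1, (hbd p hp).2.1⟩)
    (fun m h1 h2 => ⟨by rw [her]; exact (hm m h1 h2).2.1, (hm m h1 h2).1, fun p hp =>
      ⟨((hm m h1 h2).2.2 p hp).2.1, ((hm m h1 h2).2.2 p hp).1, ((hm m h1 h2).2.2 p hp).2.2.2,
        ((hm m h1 h2).2.2 p hp).2.2.1⟩⟩)
    σ s t hs ht hD0 hD2
  have t3 := qp_prod hcorr (by linarith) Q M H hM0 er er e e eb eb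
    (fun p hp => ⟨(hbd p hp).2.2.1, (hbd p hp).2.2.2, (hbd p hp).2.2.1, (hbd p hp).2.2.2⟩)
    (fun m h1 h2 => ⟨by rw [her]; exact (hm m h1 h2).2.1, by rw [her]; exact (hm m h1 h2).2.1,
      fun p hp => ⟨((hm m h1 h2).2.2 p hp).2.1, ((hm m h1 h2).2.2 p hp).2.1,
        ((hm m h1 h2).2.2 p hp).2.2.2, ((hm m h1 h2).2.2 p hp).2.2.2⟩⟩)
    σ s t hs ht hD0 hD2
  rw [← hDd] at t1 t2 t3 ⊢
  have hGH : 0 ≤ Gp 1 D * H := mul_nonneg hG (by linarith)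
  have u1 : C * (∑ p ∈ PC Q, mb p) * (∑ p ∈ PC Q, eb p) * Gp 1 D * H ≤ 2 * C * E * (Gp 1 D * H) := by
    rw [mul_assoc _ (Gp 1 D) (H : ℝ)]
    apply mul_le_mul_of_nonneg_right _ hGH
    calc C * (∑ p ∈ PC Q, mb p) * (∑ p ∈ PC Q, eb p) ≤ C * 2 * E := by
          apply mul_le_mul _ heb heb0 (by linarith)
          exact mul_le_mul_of_nonneg_left hmb (by linarith)
      _ = _ := by ring
  have u2 : C * (∑ p ∈ PC Q, eb p) * (∑ p ∈ PC Q, mb p) * Gp 1 D * H ≤ 2 * C * E * (Gp 1 D * H) := by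
    have : C * (∑ p ∈ PC Q, eb p) * (∑ p ∈ PC Q, mb p) * Gp 1 D * H =
        C * (∑ p ∈ PC Q, mb p) * (∑ p ∈ PC Q, eb p) * Gp 1 D * H := by ring
    rw [this]
    exact u1
  have u3 : C * (∑ p ∈ PC Q, eb p) * (∑ p ∈ PC Q, eb p) * Gp 1 D * H ≤ 2 * C * E * (Gp 1 D * H) := by
    rw [mul_assoc _ (Gp 1 D) (H : ℝ)]
    apply mul_le_mul_of_nonneg_right _ hGH
    calc C * (∑ p ∈ PC Q, eb p) * (∑ p ∈ PC Q, eb p) ≤ C * 2 * E := by
          apply mul_le_mul _ heb heb0 (by linarith)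
          exact mul_le_mul_of_nonneg_left (heb.trans hE2) (by linarith)
      _ = _ := by ring
  have u4 : 12 * (Q : ℝ) ^ 10 * (1 + H * ((Q : ℝ) ^ 3 / M)) ≤ H / Q := by
    have v1 : (H : ℝ) * ((Q : ℝ) ^ 3 / M) ≤ (Q : ℝ) ^ 3 := by
      rw [mul_div_assoc', div_le_iff₀ hMr]
      calc (H : ℝ) * (Q : ℝ) ^ 3 ≤ M * (Q : ℝ) ^ 3 := mul_le_mul_of_nonneg_right hHMr (by positivity)
        _ = _ := by ring
    have v2 : (1 : ℝ) ≤ (Q : ℝ) ^ 3 := one_le_pow₀ hQ1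
    have v3 : 12 * (Q : ℝ) ^ 10 * (1 + H * ((Q : ℝ) ^ 3 / M)) ≤ 12 * (Q : ℝ) ^ 10 * (2 * (Q : ℝ) ^ 3) := by
      apply mul_le_mul_of_nonneg_left _ (by positivity)
      linarith
    refine v3.trans ?_
    rw [le_div_iff₀ hQ0]
    have v4 : (Q : ℝ) ^ 20 = (Q : ℝ) ^ 14 * (Q : ℝ) ^ 6 := by ring
    have v5 : (20736 : ℝ) ≤ (Q : ℝ) ^ 6 := by
      calc (20736 : ℝ) ≤ Q := hQ
        _ = (Q : ℝ) ^ 1 := (pow_one _).symm
        _ ≤ (Q : ℝ) ^ 6 := pow_le_pow_right₀ hQ1 (by norm_num)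
    have v6 : (Q : ℝ) ^ 14 * 20736 ≤ 64 * H := by
      calc (Q : ℝ) ^ 14 * 20736 ≤ (Q : ℝ) ^ 14 * (Q : ℝ) ^ 6 :=
            mul_le_mul_of_nonneg_left v5 (by positivity)
        _ = (Q : ℝ) ^ 20 := v4.symm
        _ ≤ M := hQM
        _ ≤ 64 * H := hMHr
    have v7 : 12 * (Q : ℝ) ^ 10 * (2 * (Q : ℝ) ^ 3) * Q = 24 * (Q : ℝ) ^ 14 := by ring
    rw [v7]
    have : 0 ≤ (Q : ℝ) ^ 14 := by positivity
    linarith
  have hsplit : ∑ c ∈ range H, Lk Q (M / Q ^ 2) ((s + c : ℕ) : ℤ) *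
        Lk Q (M / Q ^ 2) ((ix H σ t c : ℕ) : ℤ) =
      ∑ c ∈ range H, mo ((s + c : ℕ) : ℤ) * mo ((ix H σ t c : ℕ) : ℤ) +
      ∑ c ∈ range H, mo ((s + c : ℕ) : ℤ) * er ((ix H σ t c : ℕ) : ℤ) +
      ∑ c ∈ range H, er ((s + c : ℕ) : ℤ) * mo ((ix H σ t c : ℕ) : ℤ) +
      ∑ c ∈ range H, er ((s + c : ℕ) : ℤ) * er ((ix H σ t c : ℕ) : ℤ) := by
    rw [← Finset.sum_add_distrib, ← Finset.sum_add_distrib, ← Finset.sum_add_distrib]
    refine Finset.sum_congr rfl fun c _ => ?_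
    rw [her]
    ring
  rw [hsplit]
  have w1 := (abs_le.1 t1).1
  have w2 := (abs_le.1 t2).1
  have w3 := (abs_le.1 t3).1
  have e1 : 6 * C * E * Gp 1 D * H = 6 * C * E * (Gp 1 D * H) := by ring
  rw [e1]
  linarith

/-- exponential sums over windows -/
theorem qp_fourier : ∃ K : ℝ, 1 ≤ K ∧ ∀ Q M H : ℕ, RegP K Q M → H ≤ M → ∀ s ∈ Ico M (4 * M - H),
    ∀ θ : ℝ, ‖∑ c ∈ range H, ((lp ((s + c : ℕ) : ℤ) - Lk Q (M / Q ^ 2) ((s + c : ℕ) : ℤ) : ℝ) : ℂ) *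
      e (c * θ)‖ ≤ M * (Q : ℝ) ^ (-(1 / 4) : ℝ) := by
  obtain ⟨K, hK⟩ := fourier_smallP
  refine ⟨max 1 K, le_max_left _ _, fun Q M H hreg hHM s hs θ => ?_⟩
  rw [mem_Ico] at hs
  have hreg' : RegP K Q M := hreg.mono (le_trans zero_le_one (le_max_left _ _)) (le_max_right _ _)
  have h1 := hK Q M hreg' θ (s : ℤ) ((s : ℤ) + H) (by omega) (by omega)
  have h2 : ∑ m ∈ Ico (s : ℤ) ((s : ℤ) + H), ((lp m - Lk Q (M / Q ^ 2) m : ℝ) : ℂ) * e (m * θ) =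
      e (s * θ) * ∑ c ∈ range H, ((lp ((s + c : ℕ) : ℤ) - Lk Q (M / Q ^ 2) ((s + c : ℕ) : ℤ) : ℝ) : ℂ) *
        e (c * θ) := by
    rw [Finset.mul_sum]
    symm
    refine Finset.sum_bij (fun c _ => ((s + c : ℕ) : ℤ)) ?_ ?_ ?_ ?_
    · intro c hc
      rw [mem_range] at hc
      rw [mem_Ico]
      push_cast
      omega
    · intro c _ c' _ h
      push_cast at h
      omega
    · intro m hm
      rw [mem_Ico] at hm
      refine ⟨(m - s).toNat, ?_, ?_⟩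
      · rw [mem_range]
        omega
      · push_cast
        omega
    · intro c _
      have e1 : e (((s + c : ℕ) : ℤ) * θ) = e (s * θ) * e (c * θ) := by
        unfold Pool.Agent.Lib.H68T.e
        rw [← Complex.exp_add]
        congr 1
        push_cast
        ring
      rw [e1]
      ring
  rw [h2, norm_mul] at h1
  have h3 : ‖e ((s : ℝ) * θ)‖ = 1 := by
    unfold Pool.Agent.Lib.H68T.e
    have e1 : (2 * Real.pi * ((s * θ : ℝ) : ℂ) * Complex.I) = ((2 * Real.pi * (s * θ) : ℝ) : ℂ) * Complex.I := by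
      push_cast
      ring
    rw [e1, Complex.norm_exp_ofReal_mul_I]
  rw [h3, one_mul] at h1
  exact h1

/-- **Pairs.** Proof (as `class_pair` in `H18E/CP` with `r = 1`, `u = v = 0`). With
`w = lp - Lk`: `lp lp' = Lk Lk' + w lp' + Lk w'`. `fourier_smallP`: `‖∑_{c < H} w(s + c) e(c θ)‖ ≤
M Q^(-1/4)` (`∑_{m ∈ [s, s+H)} w(m) e(m θ)` up to the factor `e(-sθ)`). `corr_sq` for
`∑_c w(s + c) lp(ix H σ t c)` and `corr_sq'` for `∑_c Lk(s + c) w(ix H σ t c)` with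
`S = Ico M (4M-H)`, `D = M Q^(-1/4)`, `[a, b) = [M, 4M-H)`: the sums over `s, t` of the squares are at
most `3 M (M² Q^(-1/2)) (M Q^(1/100))/... ≤ M^4`-free: precisely `S.card D² ∑ v² ≤ 3 M · M² Q^(-1/2) ·
M Q^(1/100)` (`QP_Lk`). Put `M e(s,t) = |∑ w lp'| + |∑ Lk w'|`: `∑ e² ≤ 2 · 2 · 3 M² Q^(-1/2 + 1/100) ≤
M² Q^(-1/5)`. -/
theorem pair_low : ∃ K C : ℝ, 1 ≤ K ∧ 1 ≤ C ∧ ∀ (Q M H : ℕ) (E : ℝ) (mo : ℤ → ℝ), RegP K Q M →
    0 ≤ E → E ≤ 2 → Lev Q M E mo → H ≤ M → M ≤ 64 * H → 1 ≤ H → ∀ (σ : Bool),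
    ∃ e : ℕ → ℕ → ℝ, (∀ s t, 0 ≤ e s t) ∧
      ∑ s ∈ Ico M (4 * M - H), ∑ t ∈ Ico M (4 * M - H), (e s t) ^ 2 ≤
        (M : ℝ) ^ 2 * (Q : ℝ) ^ (-(1 / 5) : ℝ) ∧
      ∀ s ∈ Ico M (4 * M - H), ∀ t ∈ Ico M (4 * M - H), dd H 1 σ 0 0 s t ≠ 0 →
        (2 : ℤ) ∣ dd H 1 σ 0 0 s t →
        ∑ c ∈ range H, mo ((s + c : ℕ) : ℤ) * mo ((ix H σ t c : ℕ) : ℤ) -
          C * E * Gp 1 (dd H 1 σ 0 0 s t) * H - H / Q - M * e s t ≤
        ∑ c ∈ range H, lp ((s + c : ℕ) : ℤ) * lp ((ix H σ t c : ℕ) : ℤ) := by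
  obtain ⟨K1, hK1, hF⟩ := qp_fourier
  obtain ⟨K2, hK2, hS⟩ := QP_Lk
  obtain ⟨K3, C, hK3, hC, hmod⟩ := QP_model
  refine ⟨max (max K1 K2) (max K3 20736), C, hK1.trans ((le_max_left _ _).trans (le_max_left _ _)), hC, ?_⟩
  intro Q M H E mo hreg hE hE2 hLev hHM hMH hH σ
  obtain ⟨K, hKd⟩ : ∃ K, K = max (max K1 K2) (max K3 20736) := ⟨_, rfl⟩
  rw [← hKd] at hreg
  have k1 : K1 ≤ K := by rw [hKd]; exact (le_max_left _ _).trans (le_max_left _ _)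
  have k2 : K2 ≤ K := by rw [hKd]; exact (le_max_right _ _).trans (le_max_left _ _)
  have k3 : K3 ≤ K := by rw [hKd]; exact (le_max_left _ _).trans (le_max_right _ _)
  have k4 : 20736 ≤ K := by rw [hKd]; exact (le_max_right _ _).trans (le_max_right _ _)
  clear hKd
  have hK0 : 0 ≤ K := by linarith
  obtain ⟨hQ, hlQM, hlM, hQM, hM0, hlQ0⟩ := qp_regime k4 hreg
  have hQ0 : (0 : ℝ) < Q := by linarith
  have hQ1 : (1 : ℝ) ≤ Q := by linarith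
  have hMr : (0 : ℝ) < M := by exact_mod_cast hM0
  have hD := hF Q M H (hreg.mono hK0 k1) hHM
  obtain ⟨hLk, hlp⟩ := hS Q M E mo (hreg.mono hK0 k2) hE hE2 hLev
  obtain ⟨wf, hwf⟩ : ∃ wf : ℕ → ℝ, wf = fun l : ℕ => lp (l : ℤ) - Lk Q (M / Q ^ 2) (l : ℤ) := ⟨_, rfl⟩
  obtain ⟨vf, hvf⟩ : ∃ vf : ℕ → ℝ, vf = fun l : ℕ => lp (l : ℤ) := ⟨_, rfl⟩
  obtain ⟨uf, huf⟩ : ∃ uf : ℕ → ℝ, uf = fun l : ℕ => Lk Q (M / Q ^ 2) (l : ℤ) := ⟨_, rfl⟩
  obtain ⟨D, hDd⟩ : ∃ D : ℝ, D = M * (Q : ℝ) ^ (-(1 / 4) : ℝ) := ⟨_, rfl⟩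
  have hDw : ∀ s ∈ Ico M (4 * M - H), ∀ θ : ℝ,
      ‖∑ c ∈ range H, (wf (s + c) : ℂ) * e (c * θ)‖ ≤ D := by
    intro s hs θ
    rw [hwf, hDd]
    exact hD s hs θ
  refine ⟨fun s t => (|∑ c ∈ range H, wf (s + c) * vf (ix H σ t c)| +
      |∑ c ∈ range H, uf (s + c) * wf (ix H σ t c)|) / M, ?_, ?_, ?_⟩
  · intro s t
    positivity
  · have hIcard : ((Ico M (4 * M - H)).card : ℝ) ≤ 3 * M := by
      rw [Nat.card_Ico]
      have : 4 * M - H - M ≤ 3 * M := by omega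
      exact_mod_cast this
    have hend : 4 * M - H + H = 4 * M := by omega
    have h1 := corr_sq H M (4 * M - H) σ wf vf D (Ico M (4 * M - H)) hDw
    have h2 := corr_sq' H M (4 * M - H) σ uf wf D (Ico M (4 * M - H)) hDw
    rw [hend] at h1 h2
    have hsub : Ico M (4 * M) ⊆ Icc M (4 * M) := Finset.Ico_subset_Icc_self
    have hv : ∑ l ∈ Ico M (4 * M), vf l ^ 2 ≤ M * (Q : ℝ) ^ (1 / 100 : ℝ) := by
      rw [hvf]
      exact (Finset.sum_le_sum_of_subset_of_nonneg hsub fun _ _ _ => sq_nonneg _).trans hlp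
    have hu : ∑ l ∈ Ico M (4 * M), uf l ^ 2 ≤ M * (Q : ℝ) ^ (1 / 100 : ℝ) := by
      rw [huf]
      exact (Finset.sum_le_sum_of_subset_of_nonneg hsub fun _ _ _ => sq_nonneg _).trans hLk
    have hb1 : ((Ico M (4 * M - H)).card : ℝ) * (D ^ 2 * ∑ l ∈ Ico M (4 * M), vf l ^ 2) ≤
        3 * M * (D ^ 2 * (M * (Q : ℝ) ^ (1 / 100 : ℝ))) := by
      apply mul_le_mul hIcard _ (by positivity) (by positivity)
      exact mul_le_mul_of_nonneg_left hv (by positivity)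
    have hb2 : ((Ico M (4 * M - H)).card : ℝ) * (D ^ 2 * ∑ l ∈ Ico M (4 * M), uf l ^ 2) ≤
        3 * M * (D ^ 2 * (M * (Q : ℝ) ^ (1 / 100 : ℝ))) := by
      apply mul_le_mul hIcard _ (by positivity) (by positivity)
      exact mul_le_mul_of_nonneg_left hu (by positivity)
    have h3 : ∑ s ∈ Ico M (4 * M - H), ∑ t ∈ Ico M (4 * M - H),
        ((|∑ c ∈ range H, wf (s + c) * vf (ix H σ t c)| +
          |∑ c ∈ range H, uf (s + c) * wf (ix H σ t c)|) / M) ^ 2 ≤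
        2 / (M : ℝ) ^ 2 * (∑ s ∈ Ico M (4 * M - H), ∑ t ∈ Ico M (4 * M - H),
          (∑ c ∈ range H, wf (s + c) * vf (ix H σ t c)) ^ 2 +
          ∑ s ∈ Ico M (4 * M - H), ∑ t ∈ Ico M (4 * M - H),
            (∑ c ∈ range H, uf (s + c) * wf (ix H σ t c)) ^ 2) := by
      have h4 : ∀ s ∈ Ico M (4 * M - H), ∀ t ∈ Ico M (4 * M - H),
          ((|∑ c ∈ range H, wf (s + c) * vf (ix H σ t c)| +
            |∑ c ∈ range H, uf (s + c) * wf (ix H σ t c)|) / M) ^ 2 ≤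
          2 / (M : ℝ) ^ 2 * ((∑ c ∈ range H, wf (s + c) * vf (ix H σ t c)) ^ 2 +
            (∑ c ∈ range H, uf (s + c) * wf (ix H σ t c)) ^ 2) := by
        intro s _ t _
        rw [← sq_abs (∑ c ∈ range H, wf (s + c) * vf (ix H σ t c)),
          ← sq_abs (∑ c ∈ range H, uf (s + c) * wf (ix H σ t c))]
        rw [div_pow, div_mul_eq_mul_div]
        apply div_le_div_of_nonneg_right _ (by positivity)
        nlinarith [sq_nonneg (|∑ c ∈ range H, wf (s + c) * vf (ix H σ t c)| -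
          |∑ c ∈ range H, uf (s + c) * wf (ix H σ t c)|)]
      refine (sum_le_sum fun s hs => sum_le_sum fun t ht => h4 s hs t ht).trans (le_of_eq ?_)
      simp only [← mul_sum, sum_add_distrib]
    refine h3.trans ?_
    have hDsq : D ^ 2 = (M : ℝ) ^ 2 * (Q : ℝ) ^ (-(1 / 2) : ℝ) := by
      have e1 : ((Q : ℝ) ^ (-(1 / 4) : ℝ)) ^ 2 = (Q : ℝ) ^ (-(1 / 2) : ℝ) := by
        rw [← Real.rpow_natCast, ← Real.rpow_mul hQ0.le]
        norm_num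
      rw [hDd, mul_pow, e1]
    have h5 : 2 / (M : ℝ) ^ 2 * (∑ s ∈ Ico M (4 * M - H), ∑ t ∈ Ico M (4 * M - H),
          (∑ c ∈ range H, wf (s + c) * vf (ix H σ t c)) ^ 2 +
          ∑ s ∈ Ico M (4 * M - H), ∑ t ∈ Ico M (4 * M - H),
            (∑ c ∈ range H, uf (s + c) * wf (ix H σ t c)) ^ 2) ≤
        2 / (M : ℝ) ^ 2 * (3 * M * (D ^ 2 * (M * (Q : ℝ) ^ (1 / 100 : ℝ))) +
          3 * M * (D ^ 2 * (M * (Q : ℝ) ^ (1 / 100 : ℝ)))) := by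
      apply mul_le_mul_of_nonneg_left _ (by positivity)
      exact add_le_add (h1.trans hb1) (h2.trans hb2)
    refine h5.trans ?_
    rw [hDsq]
    have e2 : 2 / (M : ℝ) ^ 2 * (3 * M * ((M : ℝ) ^ 2 * (Q : ℝ) ^ (-(1 / 2) : ℝ) *
          (M * (Q : ℝ) ^ (1 / 100 : ℝ))) + 3 * M * ((M : ℝ) ^ 2 * (Q : ℝ) ^ (-(1 / 2) : ℝ) *
          (M * (Q : ℝ) ^ (1 / 100 : ℝ)))) =
        (M : ℝ) ^ 2 * (12 * ((Q : ℝ) ^ (-(1 / 2) : ℝ) * (Q : ℝ) ^ (1 / 100 : ℝ))) := by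
      field_simp
      ring
    rw [e2]
    apply mul_le_mul_of_nonneg_left _ (by positivity)
    have h12 : (12 : ℝ) ≤ (Q : ℝ) ^ (1 / 4 : ℝ) := by
      have h6 : (12 : ℝ) = ((20736 : ℝ)) ^ (1 / 4 : ℝ) := by
        rw [show (20736 : ℝ) = 12 ^ (4 : ℝ) by norm_num, ← Real.rpow_mul (by norm_num)]
        norm_num
      rw [h6]
      exact Real.rpow_le_rpow (by norm_num) hQ (by norm_num)
    calc 12 * ((Q : ℝ) ^ (-(1 / 2) : ℝ) * (Q : ℝ) ^ (1 / 100 : ℝ)) ≤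
        (Q : ℝ) ^ (1 / 4 : ℝ) * ((Q : ℝ) ^ (-(1 / 2) : ℝ) * (Q : ℝ) ^ (1 / 100 : ℝ)) :=
          mul_le_mul_of_nonneg_right h12 (by positivity)
      _ = (Q : ℝ) ^ (1 / 4 + (-(1 / 2) + 1 / 100) : ℝ) := by
          rw [Real.rpow_add hQ0, Real.rpow_add hQ0]
      _ ≤ (Q : ℝ) ^ (-(1 / 5) : ℝ) := Real.rpow_le_rpow_of_exponent_le hQ1 (by norm_num)
  · intro s hs t ht hD0 hD2
    have h1 := hmod Q M H E mo (hreg.mono hK0 k3) hE hE2 hLev hHM hMH hH σ s hs t ht hD0 hD2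
    beta_reduce
    have e1 : (M : ℝ) * ((|∑ c ∈ range H, wf (s + c) * vf (ix H σ t c)| +
      |∑ c ∈ range H, uf (s + c) * wf (ix H σ t c)|) / M) =
      |∑ c ∈ range H, wf (s + c) * vf (ix H σ t c)| +
        |∑ c ∈ range H, uf (s + c) * wf (ix H σ t c)| := by field_simp
    rw [e1]
    have esum : ∑ c ∈ range H, lp ((s + c : ℕ) : ℤ) * lp ((ix H σ t c : ℕ) : ℤ) =
        ∑ c ∈ range H, Lk Q (M / Q ^ 2) ((s + c : ℕ) : ℤ) * Lk Q (M / Q ^ 2) ((ix H σ t c : ℕ) : ℤ) +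
        ∑ c ∈ range H, uf (s + c) * wf (ix H σ t c) +
        ∑ c ∈ range H, wf (s + c) * vf (ix H σ t c) := by
      simp only [← sum_add_distrib]
      refine sum_congr rfl fun c _ => ?_
      rw [huf, hwf, hvf]
      ring
    rw [esum]
    have q1 := neg_abs_le (∑ c ∈ range H, wf (s + c) * vf (ix H σ t c))
    have q2 := neg_abs_le (∑ c ∈ range H, uf (s + c) * wf (ix H σ t c))
    linarith

end Pool.Agent.Lib.H18Q
end

-- from Lib.H18Q.VA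
section

/-!
# Project H18Q, chunk VA: from pairs to vertices
-/

open Finset

namespace Pool.Agent.Lib.H18Q

open Pool.Agent.Lib.H68T Pool.Agent.Lib.H18E Pool.Agent.Lib.H18P

/-- PORT of the lemma `reg_shift` (`H18E/ST.lean`) to `RegP`. -/
theorem regp_shift : ∃ K0 : ℝ, 0 ≤ K0 ∧ ∀ K : ℝ, 0 ≤ K → ∀ Q n X : ℕ, RegP (2 * K + K0) Q n →
    n ≤ 4 * X → X ≤ n → RegP K Q X := by
  refine ⟨4, by norm_num, fun K hK Q n X hR h4 hXn => ?_⟩
  have hKp : (0 : ℝ) < 2 * K + 4 := by linarith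
  obtain ⟨h1, h2, h3⟩ := hR
  have hln := (show RegP (2 * K + 4) Q n from ⟨h1, h2, h3⟩).logX_ge hKp
  have hn0 : 0 < n := (show RegP (2 * K + 4) Q n from ⟨h1, h2, h3⟩).X_pos hKp
  have hX0 : 0 < X := by omega
  have hX0R : (0 : ℝ) < X := by exact_mod_cast hX0
  have hn0R : (0 : ℝ) < n := by exact_mod_cast hn0
  have hexp4 : (4 : ℝ) ≤ Real.exp (2 * K + 4) := by
    have := Real.add_one_le_exp (2 * K + 4)
    linarith
  set l := Real.log n with hl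
  set x := Real.log X with hx
  have hl4 : 4 ≤ l := by linarith
  have hxl : x ≤ l := Real.log_le_log hX0R (by exact_mod_cast hXn)
  have hlx : l ≤ 2 * x := by
    have h5 : Real.log n ≤ Real.log (4 * X) := Real.log_le_log hn0R (by exact_mod_cast h4)
    rw [Real.log_mul (by norm_num) hX0R.ne'] at h5
    have h6 : Real.log 4 ≤ 2 := by
      have : Real.log 4 = 2 * Real.log 2 := by
        rw [show (4 : ℝ) = 2 ^ 2 by norm_num, Real.log_pow]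
        norm_num
      rw [this]
      linarith [Real.log_two_lt_d9]
    linarith
  have hx0 : 0 < x := by linarith
  have hllx : Real.log x ≤ Real.log l := Real.log_le_log hx0 hxl
  have hllx' : Real.log l ≤ Real.log x + 1 := by
    have h5 : Real.log l ≤ Real.log (2 * x) := Real.log_le_log (by linarith) hlx
    rw [Real.log_mul (by norm_num) hx0.ne'] at h5
    linarith [Real.log_two_lt_d9]
  have hlogQ0 : 0 ≤ Real.log Q := by
    have : 0 ≤ (2 * K + 4) * Real.log l := mul_nonneg hKp.le (by linarith)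
    linarith
  refine ⟨by linarith, ?_, ?_⟩
  · have h5 : K * Real.log x ≤ (2 * K + 4) * Real.log l := by
      have h6 : 0 ≤ Real.log l := by linarith
      calc K * Real.log x ≤ K * Real.log l := mul_le_mul_of_nonneg_left hllx hK
        _ ≤ (2 * K + 4) * Real.log l := mul_le_mul_of_nonneg_right (by linarith) h6
    linarith
  · have h8 : 2 * (K * Real.log Q) ≤ l := by
      calc 2 * (K * Real.log Q) ≤ (2 * K + 4) * Real.log Q := by nlinarith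
        _ ≤ l := h3
    linarith

/-- **Vertices.** `H = n/32`, `M = 3n/8`; `s = xcs 1 0 x j`, `t = xct σ H 1 0 x j` as in `H18E/XC` with
`r = 1`, `y0 = 0`.

Proof: the proof of `x_class` (`H18E/XC.lean`) with `r = 1`, `y0 = 0` and `pair_low` in place of
`class_pair`: `B` is the set of the `x` with `Rk (2x) > Q^(1/8)` (`rk_mean`) or, for the `σ` of `x`, all
`j ∈ xcJ σ n 1 H` have `e(s,t) > Q^(-1/20)` (`xc_bad`); for `x ∉ B` take `j` with `e ≤ Q^(-1/20)`.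
`xc_geom`, `xc_dd` (`dd = 2x`), `ox_cdeg` (file `H18P/OX`, with `xcu 1 x 0 = 0`, `xcv σ 1 x 0 = 0`:
residues modulo `1`; `1 * n = n`), and `ocdeg n 1 x 0 ≤ ohdeg n x` (`osum_cdeg` with `S = {0}`,
`compat 1 x = {0}`, or directly). `M e ≤ 64 H Q^(-1/20)`. -/
theorem vert_low : ∃ K C : ℝ, 1 ≤ K ∧ 1 ≤ C ∧ ∀ (n Q : ℕ) (E : ℝ) (mo : ℤ → ℝ), RegP K Q n →
    0 ≤ E → E ≤ 2 → Lev Q (3 * n / 8) E mo →
    ∃ B : Finset ℕ, B ⊆ Icc 1 n ∧ (B.card : ℝ) ≤ n * (Q : ℝ) ^ (-(1 / 20) : ℝ) ∧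
      ∀ x ∈ Icc 1 n, x ∉ B → Rk (2 * (x : ℤ)) ≤ (Q : ℝ) ^ (1 / 8 : ℝ) ∧
        ∃ (σ : Bool) (j : ℕ), (σ = true ↔ 2 * x ≤ n) ∧ j ∈ xcJ σ n 1 (n / 32) ∧
        ∑ c ∈ range (n / 32), mo ((xcs 1 0 x j + c : ℕ) : ℤ) *
            mo ((ix (n / 32) σ (xct σ (n / 32) 1 0 x j) c : ℕ) : ℤ) -
          C * (E * Gp 1 (2 * (x : ℤ)) + (Q : ℝ) ^ (-(1 / 20) : ℝ)) * (n / 32 : ℕ) ≤
        ohdeg n x * (Real.log (2 * n)) ^ 2 := by
  classical
  obtain ⟨K1, C1, hK1, hC1, hcp⟩ := pair_low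
  obtain ⟨Cr, hCr, hrk⟩ := rk_mean
  obtain ⟨K0, hK0, hsh⟩ := regp_shift
  obtain ⟨K2, hK2, hreg2⟩ := regp_log_le 96 0 (1 / 20) (by norm_num)
  obtain ⟨K3, hK3, hreg3⟩ := regp_log_le (2 * Cr) 0 (3 / 40) (by norm_num)
  refine ⟨2 * K1 + K0 + K2 + K3 + 100, C1 + 65, by linarith, by linarith, ?_⟩
  intro n Q E mo hR hE0 hE2 hL
  have hKpos : (0 : ℝ) ≤ 2 * K1 + K0 + K2 + K3 + 100 := by linarith
  have hR1 : RegP (2 * K1 + K0) Q n := hR.mono hKpos (by linarith)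
  have hR2 : RegP K2 Q n := hR.mono hKpos (by linarith)
  have hR3 : RegP K3 Q n := hR.mono hKpos (by linarith)
  have hR100 : RegP 100 Q n := hR.mono hKpos (by linarith)
  have hQ100 : (100 : ℝ) ≤ Q := hR100.Q_ge (by norm_num)
  have hQ0 : (0 : ℝ) < Q := by linarith
  have hQ1 : (1 : ℝ) ≤ Q := by linarith
  have hlogQ : 0 < Real.log Q := Real.log_pos (by linarith)
  have hn0 : 0 < n := hR100.X_pos (by norm_num)
  have hn0R : (0 : ℝ) < n := by exact_mod_cast hn0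
  have hn100' : 100 ≤ n := by
    have := hR100.X_ge (by norm_num)
    exact_mod_cast this
  have hn100 : 100 * 1 ≤ n := by omega
  set M := 3 * n / 8 with hM
  set H := n / 32 with hH
  have hH1 : 1 ≤ H := by omega
  have hHM : H ≤ M := by omega
  have hMH : M ≤ 64 * H := by omega
  have hX4 : n ≤ 4 * M := by omega
  have hXn : M ≤ n := by omega
  have hRX : RegP K1 Q M := hsh K1 (by linarith) Q n M hR1 hX4 hXn
  -- real versions
  have hHR : (1 : ℝ) ≤ H := by exact_mod_cast hH1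
  have hMn : (M : ℝ) * 8 ≤ 3 * n := by
    have : M * 8 ≤ 3 * n := by omega
    exact_mod_cast this
  have hMHR : (M : ℝ) ≤ 64 * H := by exact_mod_cast hMH
  -- the choice of the functions e
  set θ : ℝ := (Q : ℝ) ^ (-(1 / 20) : ℝ) with hθ
  have hθ0 : 0 < θ := Real.rpow_pos_of_pos hQ0 _
  set V : ℝ := (M : ℝ) ^ 2 * (Q : ℝ) ^ (-(1 / 5) : ℝ) with hV
  have hEx := fun σ : Bool => hcp Q M H E mo hRX hE0 hE2 hL hHM hMH hH1 σ
  choose Er hEr using hEx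
  -- the exceptional set
  set B1 := (Icc 1 n).filter (fun x : ℕ => (Q : ℝ) ^ (1 / 8 : ℝ) < Rk (2 * (x : ℤ))) with hB1
  set P : Bool → Finset ℕ := fun q => xcP q n 1 0 0 0 (Er q) θ with hP
  have hPsub : ∀ q, P q ⊆ Icc 1 n := by
    intro q a ha
    simp only [hP] at ha
    unfold xcP at ha
    simp only [mem_filter] at ha
    exact ha.1
  refine ⟨B1 ∪ (P true ∪ P false), ?_, ?_, ?_⟩
  · exact union_subset (filter_subset _ _) (union_subset (hPsub _) (hPsub _))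
  · -- counting
    have c1 : (B1.card : ℝ) ≤ 1 / 2 * (n * (Q : ℝ) ^ (-(1 / 20) : ℝ)) := by
      have h1 : (B1.card : ℝ) * (Q : ℝ) ^ (1 / 8 : ℝ) ≤ Cr * n := by
        refine le_trans ?_ (hrk n)
        calc (B1.card : ℝ) * (Q : ℝ) ^ (1 / 8 : ℝ) = ∑ x ∈ B1, (Q : ℝ) ^ (1 / 8 : ℝ) := by
              rw [sum_const, nsmul_eq_mul]
          _ ≤ ∑ x ∈ B1, Rk (2 * (x : ℤ)) := sum_le_sum fun x hx => (mem_filter.mp hx).2.le
          _ ≤ ∑ x ∈ Icc 1 n, Rk (2 * (x : ℤ)) :=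
              sum_le_sum_of_subset_of_nonneg (filter_subset _ _) fun x _ _ =>
                zero_le_one.trans (one_le_Rk _)
      have h2 := hreg3 Q n hR3
      rw [Real.rpow_zero, mul_one] at h2
      have h3 : (Q : ℝ) ^ (1 / 8 : ℝ) * (Q : ℝ) ^ (-(1 / 20) : ℝ) = (Q : ℝ) ^ (3 / 40 : ℝ) := by
        rw [← Real.rpow_add hQ0]
        norm_num
      have h4 : 0 < (Q : ℝ) ^ (1 / 8 : ℝ) := Real.rpow_pos_of_pos hQ0 _
      rw [← mul_le_mul_iff_left₀ h4]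
      calc (B1.card : ℝ) * (Q : ℝ) ^ (1 / 8 : ℝ) ≤ Cr * n := h1
        _ ≤ (1 / 2 * (Q : ℝ) ^ (3 / 40 : ℝ)) * n := by
            apply mul_le_mul_of_nonneg_right _ hn0R.le
            linarith
        _ = 1 / 2 * (n * (Q : ℝ) ^ (-(1 / 20) : ℝ)) * (Q : ℝ) ^ (1 / 8 : ℝ) := by
            rw [← h3]; ring
    have c2 : ∀ q, ((P q).card : ℝ) ≤ 24 * n * (Q : ℝ) ^ (-(1 / 10) : ℝ) := by
      intro q
      obtain ⟨-, e2, -⟩ := hEr q
      have h1 := xc_bad (σ := q) (u := 0) (v := 0) one_pos hn100 one_pos (Er q) V θ hθ0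
        (by simpa only [mul_one] using e2)
      simp only [mul_one] at h1
      set p := ((xcP q n 1 0 0 0 (Er q) θ).card : ℝ) with hp
      have h2 : θ ^ 2 = (Q : ℝ) ^ (-(1 / 10) : ℝ) := by
        rw [hθ, ← Real.rpow_natCast, ← Real.rpow_mul hQ0.le]
        norm_num
      have h3 : (Q : ℝ) ^ (-(1 / 5) : ℝ) =
          (Q : ℝ) ^ (-(1 / 10) : ℝ) * (Q : ℝ) ^ (-(1 / 10) : ℝ) := by
        rw [← Real.rpow_add hQ0]
        norm_num
      have h4 : 0 < (Q : ℝ) ^ (-(1 / 10) : ℝ) := Real.rpow_pos_of_pos hQ0 _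
      rw [h2, hV, h3, ← mul_assoc, mul_le_mul_iff_left₀ h4] at h1
      -- p * H ≤ M ^ 2 * Q ^ (-1/10)
      have h5 : (M : ℝ) ^ 2 ≤ 24 * n * H := by
        have h6 : (M : ℝ) ≤ 3 * n / 8 := by linarith
        calc (M : ℝ) ^ 2 = M * M := by ring
          _ ≤ (3 * n / 8) * (64 * H) :=
              mul_le_mul h6 hMHR (Nat.cast_nonneg _) (by positivity)
          _ = 24 * n * H := by ring
      have h7 : p * H ≤ (24 * n * (Q : ℝ) ^ (-(1 / 10) : ℝ)) * H := by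
        calc p * H ≤ (M : ℝ) ^ 2 * (Q : ℝ) ^ (-(1 / 10) : ℝ) := h1
          _ ≤ (24 * n * H) * (Q : ℝ) ^ (-(1 / 10) : ℝ) :=
              mul_le_mul_of_nonneg_right h5 h4.le
          _ = _ := by ring
      exact le_of_mul_le_mul_right h7 (by linarith)
    have c3 : ((P true ∪ P false).card : ℝ) ≤ 1 / 2 * (n * (Q : ℝ) ^ (-(1 / 20) : ℝ)) := by
      have h1 : ((P true ∪ P false).card : ℝ) ≤ (P true).card + (P false).card := by
        exact_mod_cast card_union_le _ _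
      have h6 := hreg2 Q n hR2
      rw [Real.rpow_zero, mul_one] at h6
      have h7 : (Q : ℝ) ^ (-(1 / 10) : ℝ) * (Q : ℝ) ^ (1 / 20 : ℝ) =
          (Q : ℝ) ^ (-(1 / 20) : ℝ) := by
        rw [← Real.rpow_add hQ0]
        norm_num
      have h8 : 0 < (Q : ℝ) ^ (-(1 / 10) : ℝ) := Real.rpow_pos_of_pos hQ0 _
      have ct := c2 true
      have cf := c2 false
      calc ((P true ∪ P false).card : ℝ) ≤ 48 * (n * (Q : ℝ) ^ (-(1 / 10) : ℝ)) := by linarith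
        _ ≤ (1 / 2 * (Q : ℝ) ^ (1 / 20 : ℝ)) * (n * (Q : ℝ) ^ (-(1 / 10) : ℝ)) := by
            apply mul_le_mul_of_nonneg_right _ (by positivity)
            linarith
        _ = 1 / 2 * (n * (Q : ℝ) ^ (-(1 / 20) : ℝ)) := by
            rw [← h7]; ring
    have c4 : ((B1 ∪ (P true ∪ P false)).card : ℝ) ≤ B1.card + (P true ∪ P false).card := by
      exact_mod_cast card_union_le _ _
    linarith
  · -- the main estimate
    intro x hx hxB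
    rw [mem_union, mem_union, not_or, not_or] at hxB
    obtain ⟨hxB1, hxt, hxf⟩ := hxB
    have hx' := mem_Icc.mp hx
    have hRk : Rk (2 * (x : ℤ)) ≤ (Q : ℝ) ^ (1 / 8 : ℝ) := by
      by_contra h
      exact hxB1 (mem_filter.mpr ⟨hx, not_le.mp h⟩)
    refine ⟨hRk, ?_⟩
    obtain ⟨σ, hσ⟩ : ∃ σ : Bool, (σ = true ↔ 2 * x ≤ n) := ⟨decide (2 * x ≤ n), by simp⟩
    have hxP : x ∉ P σ := by
      cases σ
      · exact hxf
      · exact hxt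
    have hu : xcu 1 x 0 = 0 := Nat.lt_one_iff.mp (xcu_lt one_pos)
    have hv : xcv σ 1 x 0 = 0 := Nat.lt_one_iff.mp (xcv_lt one_pos)
    obtain ⟨e1, e2, e3⟩ := hEr σ
    obtain ⟨j, hj, hje⟩ : ∃ j ∈ xcJ σ n 1 H,
        Er σ (xcs 1 0 x j) (xct σ H 1 0 x j) ≤ θ := by
      by_contra hcon
      push Not at hcon
      apply hxP
      simp only [hP]
      unfold xcP
      simp only [mem_filter]
      refine ⟨hx, hσ, hu, hv, ?_⟩
      simpa only [mul_one] using hcon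
    refine ⟨σ, j, hσ, hj, ?_⟩
    have hj1 : j ∈ xcJ σ n 1 (n / (32 * 1)) := by simpa only [mul_one] using hj
    have hg := xc_geom one_pos hn100 hx'.1 hx'.2 one_pos hσ hj1
    have hdd := xc_dd (σ := σ) (j := j) one_pos hH1
      (by simpa only [mul_one] using hg.2.2.1)
    rw [hu, hv] at hdd
    have hg1 := hg.1
    have hg2 := hg.2.1
    simp only [mul_one] at hg1 hg2
    have main := e3 (xcs 1 0 x j) hg1 (xct σ H 1 0 x j) hg2 (by rw [hdd]; omega)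
      (by rw [hdd]; exact Dvd.intro _ rfl)
    rw [hdd] at main
    have hcd := ox_cdeg (σ := σ) one_pos hn100 hx one_pos hσ hj1
    rw [hu, hv] at hcd
    simp only [mul_one, one_mul, zero_add] at hcd
    have hc1 : compat 1 x = {0} := by
      ext y
      simp only [compat, mem_filter, mem_range, mem_singleton, Nat.cast_one]
      constructor
      · intro h; omega
      · rintro rfl
        exact ⟨by norm_num, isCoprime_one_right, isCoprime_one_right⟩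
    have hdg : ocdeg n 1 x 0 ≤ ohdeg n x := by
      have := osum_cdeg n 1 x {0} (by rw [hc1])
      simpa using this
    have hdgR : (ocdeg n 1 x 0 : ℝ) * (Real.log (2 * n)) ^ 2 ≤
        ohdeg n x * (Real.log (2 * n)) ^ 2 := by
      apply mul_le_mul_of_nonneg_right _ (by positivity)
      exact_mod_cast hdg
    have hGp := one_le_Gp 1 (2 * (x : ℤ))
    have a3 : (M : ℝ) * Er σ (xcs 1 0 x j) (xct σ H 1 0 x j) ≤ 64 * H * θ :=
      mul_le_mul hMHR hje (e1 _ _) (by positivity)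
    have a4 : (H : ℝ) / Q ≤ H * θ := by
      rw [div_eq_mul_inv]
      apply mul_le_mul_of_nonneg_left _ (by positivity)
      rw [hθ, ← Real.rpow_neg_one]
      exact Real.rpow_le_rpow_of_exponent_le hQ1 (by norm_num)
    have a5 : 0 ≤ E * Gp 1 (2 * (x : ℤ)) * H := by positivity
    have a6 : 0 ≤ C1 * (H * θ) := by positivity
    have a7 : (C1 + 65) * (E * Gp 1 (2 * (x : ℤ)) + θ) * H =
        C1 * E * Gp 1 (2 * (x : ℤ)) * H + 65 * (E * Gp 1 (2 * (x : ℤ)) * H) + C1 * (H * θ) +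
          H * θ + 64 * H * θ := by ring
    rw [a7]
    linarith

end Pool.Agent.Lib.H18Q
end

-- from Lib.H18Q.DG2
section

/-!
# Project H18Q, chunk DG2: degrees at a good level
-/

open Finset

namespace Pool.Agent.Lib.H18Q

open Pool.Agent.Lib.H68T Pool.Agent.Lib.H18E Pool.Agent.Lib.H18P

/-- `Gp 1 (2x) ≤ 2 SE x`: `Gp 1 (2x) = ∏_{p ∣ 2x} p/(p-1) = 2 ∏_{p ∣ x, p > 2} p/(p-1)`, and
`p/(p-1) ≤ (p-1)/(p-2)`. -/
theorem Gp_le_SE (x : ℕ) (hx : 0 < x) : Gp 1 (2 * (x : ℤ)) ≤ 2 * SE x := by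
  have hab : (2 * (x : ℤ)).natAbs = 2 * x := by omega
  have h1 : (2 * x).primeFactors.filter (fun p => ¬ p ∣ 1) =
      insert 2 (x.primeFactors.filter (fun p => 2 < p)) := by
    ext p
    simp only [mem_filter, mem_insert, Nat.mem_primeFactors]
    constructor
    · rintro ⟨⟨hp, hd, _⟩, _⟩
      rcases eq_or_ne p 2 with h | h
      · exact Or.inl h
      · right
        refine ⟨⟨hp, ?_, hx.ne'⟩, lt_of_le_of_ne hp.two_le (Ne.symm h)⟩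
        rcases (Nat.Prime.dvd_mul hp).1 hd with h2 | h2
        · exact absurd ((Nat.prime_dvd_prime_iff_eq hp Nat.prime_two).1 h2) h
        · exact h2
    · rintro (rfl | ⟨⟨hp, hd, _⟩, h2⟩)
      · exact ⟨⟨Nat.prime_two, Dvd.intro x rfl, by omega⟩, by norm_num⟩
      · exact ⟨⟨hp, hd.mul_left 2, by omega⟩, by
          rw [Nat.dvd_one]
          omega⟩
  have h2 : (2 : ℕ) ∉ x.primeFactors.filter (fun p => 2 < p) := by
    simp
  unfold Gp SE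
  rw [hab, h1, prod_insert h2]
  have h3 : (1 : ℝ) + 1 / (((2 : ℕ) : ℝ) - 1) = 2 := by norm_num
  rw [h3]
  apply mul_le_mul_of_nonneg_left _ (by norm_num)
  apply prod_le_prod
  · intro p hp
    have h4 : (3 : ℝ) ≤ p := by
      have := (mem_filter.1 hp).2
      exact_mod_cast (by omega : 3 ≤ p)
    have : 0 ≤ 1 / ((p : ℝ) - 1) := by
      apply div_nonneg zero_le_one
      linarith
    linarith
  · intro p hp
    have h4 : (3 : ℝ) ≤ p := by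
      have := (mem_filter.1 hp).2
      exact_mod_cast (by omega : 3 ≤ p)
    have h5 : (p : ℝ) - 1 ≠ 0 := by linarith
    have h6 : (0 : ℝ) < p - 1 := by linarith
    have h7 : (0 : ℝ) < p - 2 := by linarith
    have h8 : 1 + 1 / ((p : ℝ) - 1) = p / (p - 1) := by
      field_simp
      ring
    rw [h8, div_le_div_iff₀ h6 h7]
    nlinarith

/-- `SE x ≤ 2 Gp 1 (2x)`: `(p-1)/(p-2) = (p/(p-1)) (1 - 1/(p-1)²)^(-1)`, and the product of
`1 - 1/(p-1)²` over odd primes is at least `1/2` (`CC_half` in `H18E/CC`); moreover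
`Gp 1 (2x) ≥ 2 ∏_{p ∣ x, p > 2} p/(p-1)`. -/
theorem SE_le_Gp (x : ℕ) (hx : 0 < x) : SE x ≤ 2 * Gp 1 (2 * (x : ℤ)) := by
  have hc1 : compat 1 x = {0} := by
    ext y
    simp only [compat, mem_filter, mem_range, mem_singleton, Nat.cast_one]
    constructor
    · intro h; omega
    · rintro rfl
      exact ⟨by norm_num, isCoprime_one_right, isCoprime_one_right⟩
  have hgp := compat_gp 1 x one_pos hx
  rw [hc1] at hgp
  simp only [card_singleton, Nat.cast_one, Nat.totient_one, one_pow, div_one, one_mul] at hgp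
  linarith

/-- The main term at a good level: `model_low` (`H18E/ML`) with `W = r = 1`, `ε = ε' = 0`, `β = 1`
(`MM Q 1 0 1 = G Q`), along `m_c` and `± m'_c` as in chunk `MC`. -/
theorem main_goodlev : ∃ C : ℝ, 1 ≤ C ∧ ∀ (n Q x : ℕ) (σ : Bool) (j : ℕ), 8 ≤ Q → Q ^ 2 ≤ n →
    x ∈ Icc 1 n → (σ = true ↔ 2 * x ≤ n) → j ∈ xcJ σ n 1 (n / 32) →
    (n / 32 : ℕ) * (1 / 2 * Gp 1 (2 * (x : ℤ)) - C * (Q : ℝ) ^ (-(1 / 4) : ℝ) * Rk (2 * (x : ℤ))) -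
      (Q : ℝ) ^ 9 ≤
    ∑ c ∈ range (n / 32), G Q ((xcs 1 0 x j + c : ℕ) : ℤ) *
      G Q ((ix (n / 32) σ (xct σ (n / 32) 1 0 x j) c : ℕ) : ℤ) := by
  obtain ⟨C, hC, hml⟩ := model_low
  refine ⟨C, hC, ?_⟩
  intro n Q x σ j hQ hn hx hσ hj
  rw [mem_Icc] at hx
  have hn64 : 64 ≤ n := le_trans (by nlinarith) hn
  obtain ⟨H, hH⟩ : ∃ H, H = n / 32 := ⟨_, rfl⟩
  have hH1 : 1 ≤ H := by omega
  rw [← hH] at hj ⊢
  have hG : ∀ m : ℤ, G Q (-m) = G Q m := fun m => by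
    have h1 := cp_MM_neg Q 1 0 1 m
    unfold MM at h1
    simpa using h1
  have hMM : ∀ m : ℤ, MM Q 1 0 1 m = G Q m := fun m => by
    unfold MM
    simp
  have hcase : (1 ≤ (j : ℤ) - x ∨ (j : ℤ) - x + ((1 : ℕ) : ℤ) * H ≤ 0) ∧ ∀ c < H,
      G Q ((ix H σ (xct σ H 1 0 x j) c : ℕ) : ℤ) = G Q ((j : ℤ) - x + c) := by
    cases σ with
    | true =>
      have h1 : 2 * x ≤ n := hσ.1 rfl
      simp only [xcJ, if_true, mem_Ico] at hj
      refine ⟨Or.inl (by omega), fun c _ => ?_⟩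
      congr 1
      simp only [ix, cond_true, xct, xcD, if_true, Nat.cast_zero, Nat.cast_one, Int.ediv_one]
      omega
    | false =>
      have h1 : ¬ 2 * x ≤ n := fun h => by simpa using hσ.2 h
      simp only [xcJ, Bool.false_eq_true, if_false, mem_Ico] at hj
      refine ⟨Or.inr (by push_cast; omega), fun c hc => ?_⟩
      rw [← hG]
      congr 1
      simp only [ix, cond_false, xct, xcD, Bool.false_eq_true, if_false, Nat.cast_zero,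
        Nat.cast_one, Int.ediv_one]
      omega
  have hm := hml Q H 1 1 ((x : ℤ) + j) ((j : ℤ) - x) 1 0 0 one_pos (by simpa using (by omega : 1 ≤ Q))
    hQ (dvd_refl 1) isCoprime_one_right isCoprime_one_right (by omega) hcase.1 (by omega)
    (Or.inr ⟨x, by ring⟩) (by norm_num) le_rfl (by norm_num) (by norm_num)
  have e1 : (x : ℤ) + j - ((j : ℤ) - x) = 2 * x := by ring
  rw [e1] at hm
  simp only [hMM, Nat.cast_one, Nat.totient_one, div_one, one_pow, one_mul, zero_mul, sub_zero,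
    mul_one, sum_const, card_range, nsmul_eq_mul] at hm
  refine le_trans (le_of_eq (by ring)) (hm.trans (le_of_eq ?_))
  refine sum_congr rfl fun c hc => ?_
  rw [hcase.2 c (mem_range.1 hc)]
  congr 2
  unfold xcs
  rw [Nat.div_one]
  push_cast
  ring

/-- **Degrees at a good level.** Proof. `vert_low` with `mo = G Q`, `E = e0 = 1/(8 C)` (`C` of
`vert_low`; `lev_good` at `X = 3n/8`, `regp_shift`); `main_goodlev`; `Rk ≤ Q^(1/8)`:
`ohdeg (log 2n)² ≥ H (1/2 Gp - 1/8 Gp - C Q^(-1/8) - C Q^(-1/20)) - Q^9 ≥ H Gp/4` (`Gp ≥ 1`, `K` large,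
`H ≥ n/64 ≥ Q^20`), and `Gp ≥ SE/2`, `(log 2n)² ≤ 4 (log n)²`. -/
theorem deg_goodlev (c : ℝ) (hc : 0 < c) : ∃ K c0 : ℝ, 1 ≤ K ∧ 0 < c0 ∧ ∀ n Q : ℕ, RegP K Q n →
    Good c Q → ∃ B : Finset ℕ, B ⊆ Icc 1 n ∧ (B.card : ℝ) ≤ n * (Q : ℝ) ^ (-(1 / 20) : ℝ) ∧
      ∀ x ∈ Icc 1 n, x ∉ B → c0 * SE x * n / (Real.log n) ^ 2 ≤ ohdeg n x := by
  obtain ⟨K1, C1, hK1, hC1, hvert⟩ := vert_low
  obtain ⟨C2, hC2, hmain⟩ := main_goodlev
  obtain ⟨e0, he0⟩ : ∃ e0 : ℝ, e0 = 1 / (8 * C1) := ⟨_, rfl⟩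
  have he0p : 0 < e0 := by rw [he0]; positivity
  have he01 : e0 ≤ 1 := by
    rw [he0, div_le_one (by linarith)]
    linarith
  obtain ⟨K3, hK3, hlev⟩ := lev_good c e0 hc he0p he01
  obtain ⟨K0, hK0, hsh⟩ := regp_shift
  refine ⟨K1 + 2 * K3 + K0 + 240 * (C1 + C2) + 100, 1 / 3072, by linarith, by norm_num, ?_⟩
  intro n Q hR hG
  have hKpos : (0 : ℝ) ≤ K1 + 2 * K3 + K0 + 240 * (C1 + C2) + 100 := by linarith
  have hR1 : RegP K1 Q n := hR.mono hKpos (by linarith)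
  have hR2 : RegP (2 * K3 + K0) Q n := hR.mono hKpos (by linarith)
  have hR100 : RegP 100 Q n := hR.mono hKpos (by linarith)
  have hn100 : (100 : ℝ) ≤ n := hR100.X_ge (by norm_num)
  have hn8 : 100 ≤ n := by exact_mod_cast hn100
  have hL100 : 100 ≤ Real.log n := by
    have h1 := hR100.logX_ge (by norm_num)
    have h2 := Real.add_one_le_exp (100 : ℝ)
    linarith
  have hQ100 : (100 : ℝ) ≤ Q := hR100.Q_ge (by norm_num)
  have hQ8 : 8 ≤ Q := by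
    have : (8 : ℝ) ≤ Q := by linarith
    exact_mod_cast this
  have hQ0 : (0 : ℝ) < Q := by linarith
  have hn0 : (0 : ℝ) < n := by linarith
  have hQn : (Q : ℝ) ^ 100 ≤ n := by
    have h1 := hR100.logQ_le (by norm_num)
    have h2 : Real.log ((Q : ℝ) ^ 100) ≤ Real.log n := by
      rw [Real.log_pow]
      exact_mod_cast h1
    exact (Real.log_le_log_iff (by positivity) hn0).1 h2
  have hQ2n : Q ^ 2 ≤ n := by
    have h1 : (Q : ℝ) ^ 2 ≤ (Q : ℝ) ^ 100 := pow_le_pow_right₀ (by linarith) (by norm_num)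
    have h2 : ((Q ^ 2 : ℕ) : ℝ) ≤ n := by
      push_cast
      linarith
    exact_mod_cast h2
  have hX := DG_X n 1 one_pos (by omega)
  have hX' : 3 * n / (8 * 1) * 1 = 3 * n / 8 := by omega
  rw [hX'] at hX
  have hR3 : RegP K3 Q (3 * n / 8) := hsh K3 (by linarith) Q n _ hR2 hX.1 hX.2
  have hLev := hlev Q _ hR3 hG
  obtain ⟨B, hB1, hB2, hB3⟩ := hvert n Q e0 (fun m => G Q m) hR1 he0p.le (by linarith) hLev
  have hlogQ : 240 * (C1 + C2) ≤ Real.log Q := by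
    have := hR.logQ_ge (by linarith)
    linarith
  obtain ⟨hq20, _⟩ := DG_Q C1 hC1 Q (by linarith)
  obtain ⟨_, hq8⟩ := DG_Q C2 hC2 Q (by linarith)
  refine ⟨B, hB1, hB2, ?_⟩
  intro x hx hxB
  obtain ⟨hRk, σ, j, hσ, hj, hlow⟩ := hB3 x hx hxB
  have hm := hmain n Q x σ j hQ8 hQ2n hx hσ hj
  have hx1 : 0 < x := (mem_Icc.1 hx).1
  have hSE := SE_le_Gp x hx1
  have hgp1 := one_le_Gp 1 (2 * (x : ℤ))
  obtain ⟨gp, hgp⟩ : ∃ gp, gp = Gp 1 (2 * (x : ℤ)) := ⟨_, rfl⟩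
  rw [← hgp] at hm hlow hSE hgp1
  obtain ⟨H, hH⟩ : ∃ H : ℝ, H = ((n / 32 : ℕ) : ℝ) := ⟨_, rfl⟩
  rw [← hH] at hm hlow
  have hH0 : (n : ℝ) / 64 ≤ H := by
    have h1 : n ≤ 64 * (n / 32) := by omega
    have h2 : (n : ℝ) ≤ 64 * ((n / 32 : ℕ) : ℝ) := by exact_mod_cast h1
    rw [hH]
    linarith
  have hHpos : 0 < H := by
    have : (0 : ℝ) < n / 64 := by positivity
    linarith
  have hQ9 : (Q : ℝ) ^ 9 ≤ H / 24 := by
    have h1 : (Q : ℝ) ^ 100 = (Q : ℝ) ^ 9 * (Q : ℝ) ^ 91 := by ring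
    have h2 : (Q : ℝ) ^ 2 ≤ (Q : ℝ) ^ 91 := pow_le_pow_right₀ (by linarith) (by norm_num)
    have h3 : (10000 : ℝ) ≤ (Q : ℝ) ^ 2 := by nlinarith
    have h4 : (Q : ℝ) ^ 9 * 10000 ≤ (Q : ℝ) ^ 9 * (Q : ℝ) ^ 91 :=
      mul_le_mul_of_nonneg_left (h3.trans h2) (by positivity)
    rw [← h1] at h4
    linarith
  have hc2 : C2 * (Q : ℝ) ^ (-(1 / 4) : ℝ) * Rk (2 * (x : ℤ)) ≤ 1 / 12 := by
    have h1 : (Q : ℝ) ^ (-(1 / 4) : ℝ) * (Q : ℝ) ^ (1 / 8 : ℝ) = (Q : ℝ) ^ (-(1 / 8) : ℝ) := by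
      rw [← Real.rpow_add hQ0]
      norm_num
    calc C2 * (Q : ℝ) ^ (-(1 / 4) : ℝ) * Rk (2 * (x : ℤ))
        ≤ C2 * (Q : ℝ) ^ (-(1 / 4) : ℝ) * (Q : ℝ) ^ (1 / 8 : ℝ) :=
          mul_le_mul_of_nonneg_left hRk (by positivity)
      _ = C2 * (Q : ℝ) ^ (-(1 / 8) : ℝ) := by rw [mul_assoc, h1]
      _ ≤ 1 / 12 := hq8
  have hc1 : C1 * (e0 * gp + (Q : ℝ) ^ (-(1 / 20) : ℝ)) ≤ gp / 8 + 1 / 12 := by
    have h1 : C1 * e0 = 1 / 8 := by
      rw [he0]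
      have : C1 ≠ 0 := by linarith
      field_simp
    calc C1 * (e0 * gp + (Q : ℝ) ^ (-(1 / 20) : ℝ))
        = C1 * e0 * gp + C1 * (Q : ℝ) ^ (-(1 / 20) : ℝ) := by ring
      _ ≤ 1 / 8 * gp + 1 / 12 := by
          rw [h1]
          linarith
      _ = gp / 8 + 1 / 12 := by ring
  have hA : H * (gp / 6) ≤ ohdeg n x * (Real.log (2 * n)) ^ 2 := by
    have h1 := mul_le_mul_of_nonneg_right hc1 hHpos.le
    have h2 := mul_le_mul_of_nonneg_left hc2 hHpos.le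
    have h3 : H * (1 / 2 * gp - C2 * (Q : ℝ) ^ (-(1 / 4) : ℝ) * Rk (2 * (x : ℤ))) =
      H * gp / 2 - H * (C2 * (Q : ℝ) ^ (-(1 / 4) : ℝ) * Rk (2 * (x : ℤ))) := by ring
    rw [h3] at hm
    have h4 : H * 1 ≤ H * gp := mul_le_mul_of_nonneg_left hgp1 hHpos.le
    linarith
  have hB : H * (gp / 6) ≥ n / 64 * (SE x / 12) := by
    have h1 : SE x / 12 ≤ gp / 6 := by linarith
    have h2 : 0 ≤ gp / 6 := by linarith
    calc (n : ℝ) / 64 * (SE x / 12) ≤ n / 64 * (gp / 6) :=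
          mul_le_mul_of_nonneg_left h1 (by positivity)
      _ ≤ H * (gp / 6) := mul_le_mul_of_nonneg_right hH0 h2
  obtain ⟨hl0, hl2⟩ := DG_log n (by omega)
  have hL0 : 0 < Real.log n := by linarith
  rw [div_le_iff₀ (by positivity)]
  have h5 : (ohdeg n x : ℝ) * (Real.log (2 * n)) ^ 2 ≤ ohdeg n x * (4 * (Real.log n) ^ 2) :=
    mul_le_mul_of_nonneg_left hl2 (Nat.cast_nonneg _)
  nlinarith

end Pool.Agent.Lib.H18Q
end
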