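import Pool.Agent.Lib.H1M.RV.M065

/-! Merged copies (to shorten the build) of Lib.H18GB2.Core2. -/

-- from Lib.H18GB2.Core2
section

/-!
# Project GB2: CORE2 (weights, and the correlation with eight shifted weights)
-/

namespace Pool.Agent.Lib.H18GB

open Finset Pool.Agent.Lib.Sieve

/-- a weight: single forms indexed by `ι`, pairs of forms indexed by `υ`; the forms are
`e i * W * x + b i` -/
structure GW (ι υ : Type) where
  e : ι ⊕ (υ × Bool) → ℤ
  b : ι ⊕ (υ × Bool) → ℤ

/-- value of the weight -/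
noncomputable def GW.val {ι υ : Type} [Fintype ι] [Fintype υ] (g : GW ι υ) (S : Finset ℕ) (W : ℕ)
    (x : ℤ) : ℝ :=
  (∏ i : ι, rho S (g.e (.inl i) * W * x + g.b (.inl i))) *
  ∏ u : υ, (rho S (g.e (.inr (u, false)) * W * x + g.b (.inr (u, false))) *
    rho S (g.e (.inr (u, true)) * W * x + g.b (.inr (u, true))) /
    SGp S (g.e (.inr (u, false)) * W * g.b (.inr (u, true)) -
      g.e (.inr (u, true)) * W * g.b (.inr (u, false))))

/-- coefficients in `{± 1, ± 2}`, and different groups are almost independent -/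
def GW.ok {ι υ : Type} (g : GW ι υ) (S : Finset ℕ) (W : ℕ) (η : ℝ) : Prop :=
  (∀ i, g.e i ≠ 0 ∧ |g.e i| ≤ 2) ∧
  ∀ i j, crs i j → Ers (9 / 10) S (g.e i * W * g.b j - g.e j * W * g.b i) ≤ η

/-- the deviation of the product of the weights -/
noncomputable def gdev {ι υ ι' υ' : Type} [Fintype ι] [Fintype υ] [Fintype ι'] [Fintype υ']
    (g : GW ι υ) (g' : GW ι' υ') (S : Finset ℕ) (W : ℕ) (x x' y y' : ℤ) : ℝ :=
  g.val S W x * g.val S W x' * g'.val S W y * g'.val S W y' - 1

/-! ## the forms and their discriminants -/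

/-- the forms: the four forms of `nu`, and in each of the four copies the forms of `g` and `g'` -/
abbrev C2F (ι υ ι' υ' : Type) : Type :=
  (Bool × Bool) ⊕ ((Bool × Bool) × ((ι ⊕ (υ × Bool)) ⊕ (ι' ⊕ (υ' × Bool))))

/-- index type of the single forms -/
abbrev C2I (ι ι' : Type) : Type := (Bool × Bool) ⊕ ((Bool × Bool) × (ι ⊕ ι'))

/-- index type of the pairs -/
abbrev C2U (υ υ' : Type) : Type := (Bool × Bool) × (υ ⊕ υ')

variable {ι υ ι' υ' : Type}

/-- coefficients -/
def core2_al (g : GW ι υ) (g' : GW ι' υ') (W : ℕ) : C2F ι υ ι' υ' → ℤ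
  | .inl _ => 2 * W
  | .inr (_, .inl q) => g.e q * W
  | .inr (_, .inr q) => -(g'.e q * W)

/-- constant terms -/
def core2_be (g : GW ι υ) (g' : GW ι' υ') (W : ℕ) (r j k l s : ℤ) : C2F ι υ ι' υ' → ℤ
  | .inl i => r + W * (sh (-j) k i - s)
  | .inr (u, .inl q) => g.e q * W * sh l k u + g.b q
  | .inr (u, .inr q) => g'.e q * W * (s + sh l j u) + g'.b q

/-- two forms of the same weight in the same copy -/
def core2_same : C2F ι υ ι' υ' → C2F ι υ ι' υ' → Prop
  | .inr (u, .inl _), .inr (u', .inl _) => u = u'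
  | .inr (u, .inr _), .inr (u', .inr _) => u = u'
  | _, _ => False

theorem core2_ty1 {S : Finset ℕ} {Δ : ℤ → ℤ → ℤ → ℤ → ℤ} {a : ℤ} {β : ℤ → ℤ → ℤ}
    (ha : ∀ p ∈ S, ¬ (p : ℤ) ∣ a) (h : ∀ j k l s, Δ j k l s = a * s + β j k) :
    Ty S (fun j k l s => Ers (9 / 10) S (Δ j k l s)) := by
  left
  exact ⟨a, ha, β, fun j k l s => le_of_eq (congrArg (Ers (9 / 10) S) (h j k l s))⟩

theorem core2_ty2 {S : Finset ℕ} (hS : ∀ p ∈ S, p.Prime) (u2 : ∀ p ∈ S, ¬ (p : ℤ) ∣ 2)
    {Δ : ℤ → ℤ → ℤ → ℤ → ℤ} {b : ℤ} {β : ℤ → ℤ → ℤ → ℤ}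
    (hb : ∀ p ∈ S, ¬ (p : ℤ) ∣ b) (h : ∀ j k l s, Δ j k l s = b * l + β j k s) :
    Ty S (fun j k l s => Ers (9 / 10) S (Δ j k l s)) := by
  right; left
  refine ⟨b, hb, fun j k s => -b * s + 2 * β j k s, fun j k l s => le_of_eq ?_⟩
  refine (ers_mul hS (9 / 10) 2 _ u2).symm.trans ?_
  refine congrArg (Ers (9 / 10) S) ?_
  rw [h]
  ring

theorem core2_ty3 {S : Finset ℕ} {Δ : ℤ → ℤ → ℤ → ℤ → ℤ} {c : ℤ → ℤ → ℤ}
    (hc : AffU S c) (h : ∀ j k l s, Δ j k l s = c j k) :
    Ty S (fun j k l s => Ers (9 / 10) S (Δ j k l s)) := by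
  right; right
  exact ⟨c, hc, fun j k l s => le_of_eq (congrArg (Ers (9 / 10) S) (h j k l s))⟩

theorem core2_ty_swap {S : Finset ℕ} {g : GW ι υ} {g' : GW ι' υ'} {W : ℕ} {r : ℤ}
    {X Y : C2F ι υ ι' υ'} (h : Ty S (fun j k l s =>
      Ers (9 / 10) S (disc (core2_al g g' W) (core2_be g g' W r j k l s) Y X))) :
    Ty S (fun j k l s =>
      Ers (9 / 10) S (disc (core2_al g g' W) (core2_be g g' W r j k l s) X Y)) := by
  have e1 : (fun j k l s : ℤ => Ers (9 / 10) S
      (disc (core2_al g g' W) (core2_be g g' W r j k l s) X Y)) =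
      (fun j k l s => Ers (9 / 10) S
      (disc (core2_al g g' W) (core2_be g g' W r j k l s) Y X)) := by
    funext j k l s
    rw [disc_swap, ers_neg]
  rw [e1]
  exact h

theorem core2_ty {C A w z W N : ℕ} {S : Finset ℕ} (h : Stp C A w z W N S) (hC : 2 ≤ C)
    {g : GW ι υ} {g' : GW ι' υ'} (hg : ∀ i, g.e i ≠ 0 ∧ |g.e i| ≤ 2)
    (hg' : ∀ i, g'.e i ≠ 0 ∧ |g'.e i| ≤ 2) (r : ℤ)
    (X Y : C2F ι υ ι' υ') (hXY : X ≠ Y) (hs : ¬ core2_same X Y) :
    Ty S (fun j k l s =>
      Ers (9 / 10) S (disc (core2_al g g' W) (core2_be g g' W r j k l s) X Y)) := by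
  have uW := h.unitW
  have u2 : ∀ p ∈ S, ¬ (p : ℤ) ∣ 2 := h.unit_small hC (by norm_num) (by norm_num)
  have ue : ∀ c, ∀ p ∈ S, ¬ (p : ℤ) ∣ g.e c := fun c => h.unit_small hC (hg c).1 (hg c).2
  have ue' : ∀ c, ∀ p ∈ S, ¬ (p : ℤ) ∣ g'.e c := fun c => h.unit_small hC (hg' c).1 (hg' c).2
  have uWW := unit_mul h.hS uW uW
  have nug : ∀ (i : Bool × Bool) (u : Bool × Bool) (q : ι ⊕ (υ × Bool)),
      Ty S (fun j k l s => Ers (9 / 10) S (disc (core2_al g g' W) (core2_be g g' W r j k l s)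
        (.inl i) (.inr (u, .inl q)))) := by
    intro i u q
    obtain ⟨u1, u3⟩ := u
    cases u1
    · refine core2_ty1 (unit_mul h.hS (ue q) uWW)
        (β := fun j k => 2 * W * (g.e q * W * (bz u3 * k) + g.b q) -
          g.e q * W * (r + W * sh (-j) k i)) fun j k l s => ?_
      simp only [disc, core2_al, core2_be, sh_eq l k (false, u3)]
      simp only [bz, Bool.false_eq_true, if_false]
      ring
    · refine core2_ty2 h.hS.prime u2 (unit_mul h.hS (unit_mul h.hS u2 (ue q)) uWW)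
        (β := fun j k s => g.e q * (W * W) * s + (2 * W * (g.e q * W * (bz u3 * k) + g.b q) -
          g.e q * W * (r + W * sh (-j) k i))) fun j k l s => ?_
      simp only [disc, core2_al, core2_be, sh_eq l k (true, u3)]
      simp only [bz, if_true]
      ring
  have nug' : ∀ (i : Bool × Bool) (u : Bool × Bool) (q : ι' ⊕ (υ' × Bool)),
      Ty S (fun j k l s => Ers (9 / 10) S (disc (core2_al g g' W) (core2_be g g' W r j k l s)
        (.inl i) (.inr (u, .inr q)))) := by
    intro i u q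
    obtain ⟨u1, u3⟩ := u
    cases u1
    · refine core2_ty1 (unit_mul h.hS (ue' q) uWW)
        (β := fun j k => 2 * W * (g'.e q * W * (bz u3 * j) + g'.b q) +
          g'.e q * W * (r + W * sh (-j) k i)) fun j k l s => ?_
      simp only [disc, core2_al, core2_be, sh_eq l j (false, u3)]
      simp only [bz, Bool.false_eq_true, if_false]
      ring
    · refine core2_ty2 h.hS.prime u2 (unit_mul h.hS (unit_mul h.hS u2 (ue' q)) uWW)
        (β := fun j k s => g'.e q * (W * W) * s + (2 * W * (g'.e q * W * (bz u3 * j) + g'.b q) +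
          g'.e q * W * (r + W * sh (-j) k i))) fun j k l s => ?_
      simp only [disc, core2_al, core2_be, sh_eq l j (true, u3)]
      simp only [bz, if_true]
      ring
  have gg' : ∀ (u : Bool × Bool) (q : ι ⊕ (υ × Bool)) (u' : Bool × Bool) (q' : ι' ⊕ (υ' × Bool)),
      Ty S (fun j k l s => Ers (9 / 10) S (disc (core2_al g g' W) (core2_be g g' W r j k l s)
        (.inr (u, .inl q)) (.inr (u', .inr q')))) := by
    intro u q u' q'
    have uee := unit_mul h.hS (unit_mul h.hS (ue q) (ue' q')) uWW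
    have key : ∀ j k l s, disc (core2_al g g' W) (core2_be g g' W r j k l s)
        (.inr (u, .inl q)) (.inr (u', .inr q')) =
        (g.e q * g'.e q' * (W * W)) * ((bz u'.1 + bz u.1) * l) +
        ((g.e q * g'.e q' * (W * W)) * s + ((g.e q * g'.e q' * (W * W)) *
          (bz u'.2 * j + bz u.2 * k) + W * (g.e q * g'.b q' + g'.e q' * g.b q))) := by
      intro j k l s
      simp only [disc, core2_al, core2_be, sh_eq]
      ring
    rcases Bool.eq_false_or_eq_true u.1 with h1 | h1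
    · rcases Bool.eq_false_or_eq_true u'.1 with h2 | h2
      · refine core2_ty2 h.hS.prime u2 (unit_mul h.hS u2 uee) (β := fun j k s =>
          (g.e q * g'.e q' * (W * W)) * s + ((g.e q * g'.e q' * (W * W)) *
          (bz u'.2 * j + bz u.2 * k) + W * (g.e q * g'.b q' + g'.e q' * g.b q)))
          fun j k l s => ?_
        rw [key, h1, h2]
        simp only [bz, if_true]
        ring
      · refine core2_ty2 h.hS.prime u2 uee (β := fun j k s =>
          (g.e q * g'.e q' * (W * W)) * s + ((g.e q * g'.e q' * (W * W)) *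
          (bz u'.2 * j + bz u.2 * k) + W * (g.e q * g'.b q' + g'.e q' * g.b q)))
          fun j k l s => ?_
        rw [key, h1, h2]
        simp only [bz, if_true, Bool.false_eq_true, if_false]
        ring
    · rcases Bool.eq_false_or_eq_true u'.1 with h2 | h2
      · refine core2_ty2 h.hS.prime u2 uee (β := fun j k s =>
          (g.e q * g'.e q' * (W * W)) * s + ((g.e q * g'.e q' * (W * W)) *
          (bz u'.2 * j + bz u.2 * k) + W * (g.e q * g'.b q' + g'.e q' * g.b q)))
          fun j k l s => ?_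
        rw [key, h1, h2]
        simp only [bz, if_true, Bool.false_eq_true, if_false]
        ring
      · refine core2_ty1 uee (β := fun j k => ((g.e q * g'.e q' * (W * W)) *
          (bz u'.2 * j + bz u.2 * k) + W * (g.e q * g'.b q' + g'.e q' * g.b q)))
          fun j k l s => ?_
        rw [key, h1, h2]
        simp only [bz, Bool.false_eq_true, if_false]
        ring
  rcases X with i | ⟨u, q | q⟩
  · rcases Y with i' | ⟨u', q' | q'⟩
    · -- single / single
      have hne : i ≠ i' := fun h1 => hXY (by rw [h1])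
      refine core2_ty3 (c := fun j k => 2 * (W * W) * ((bz i'.1 - bz i.1) * (-j) +
        (bz i'.2 - bz i.2) * k)) ?_ fun j k l s => ?_
      · by_cases h2 : i.2 = i'.2
        · have h1 : i.1 ≠ i'.1 := fun h1 => hne (Prod.ext h1 h2)
          right
          refine ⟨2 * (W * W) * (-(bz i'.1 - bz i.1)), unit_mul h.hS (unit_mul h.hS
            u2 uWW) (unit_neg (unit_bz h.hS h1)),
            fun k => 2 * (W * W) * ((bz i'.2 - bz i.2) * k), fun j k => by ring⟩
        · left
          refine ⟨2 * (W * W) * (bz i'.2 - bz i.2), unit_mul h.hS (unit_mul h.hS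
            u2 uWW) (unit_bz h.hS h2),
            fun j => 2 * (W * W) * ((bz i'.1 - bz i.1) * (-j)), fun j k => by ring⟩
      · simp only [disc, core2_al, core2_be, sh_eq]
        ring
    · exact nug i u' q'
    · exact nug' i u' q'
  · rcases Y with i' | ⟨u', q' | q'⟩
    · exact core2_ty_swap (nug i' u q)
    · -- g / g
      have hne : u ≠ u' := fun h1 => hs h1
      by_cases h1 : u.1 = u'.1
      · have h2 : u.2 ≠ u'.2 := fun h2 => hne (Prod.ext h1 h2)
        refine core2_ty3 (c := fun _ k => g.e q * g.e q' * (W * W) * (bz u'.2 - bz u.2) * k +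
          W * (g.e q * g.b q' - g.e q' * g.b q)) (Or.inl ⟨_, unit_mul h.hS (unit_mul h.hS
            (unit_mul h.hS (ue q) (ue q')) uWW) (unit_bz h.hS h2),
            fun _ => W * (g.e q * g.b q' - g.e q' * g.b q), fun j k => rfl⟩) fun j k l s => ?_
        simp only [disc, core2_al, core2_be, sh_eq, h1]
        ring
      · refine core2_ty2 h.hS.prime u2 (unit_mul h.hS (unit_mul h.hS
          (unit_mul h.hS (ue q) (ue q')) uWW) (unit_bz h.hS h1)) (β := fun j k s =>
          g.e q * g.e q' * (W * W) * (bz u'.2 - bz u.2) * k +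
          W * (g.e q * g.b q' - g.e q' * g.b q)) fun j k l s => ?_
        simp only [disc, core2_al, core2_be, sh_eq]
        ring
    · exact gg' u q u' q'
  · rcases Y with i' | ⟨u', q' | q'⟩
    · exact core2_ty_swap (nug' i' u q)
    · exact core2_ty_swap (gg' u' q' u q)
    · -- g' / g'
      have hne : u ≠ u' := fun h1 => hs h1
      by_cases h1 : u.1 = u'.1
      · have h2 : u.2 ≠ u'.2 := fun h2 => hne (Prod.ext h1 h2)
        refine core2_ty3 (c := fun j _ => g'.e q * g'.e q' * (W * W) * (-(bz u'.2 - bz u.2)) * j -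
          W * (g'.e q * g'.b q' - g'.e q' * g'.b q)) (Or.inr ⟨_, unit_mul h.hS (unit_mul h.hS
            (unit_mul h.hS (ue' q) (ue' q')) uWW) (unit_neg (unit_bz h.hS h2)),
            fun _ => - (W * (g'.e q * g'.b q' - g'.e q' * g'.b q)), fun j k => by ring⟩)
            fun j k l s => ?_
        simp only [disc, core2_al, core2_be, sh_eq, h1]
        ring
      · refine core2_ty2 h.hS.prime u2 (unit_mul h.hS (unit_mul h.hS
          (unit_mul h.hS (ue' q) (ue' q')) uWW) (unit_neg (unit_bz h.hS h1))) (β := fun j k s =>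
          -(g'.e q * g'.e q' * (W * W) * (bz u'.2 - bz u.2) * j +
          W * (g'.e q * g'.b q' - g'.e q' * g'.b q))) fun j k l s => ?_
        simp only [disc, core2_al, core2_be, sh_eq]
        ring

/-- the numbering of the forms used by `corr_sub` -/
def core2_nm : C2I ι ι' ⊕ (C2U υ υ' × Bool) → C2F ι υ ι' υ'
  | .inl (.inl i) => .inl i
  | .inl (.inr (u, .inl a)) => .inr (u, .inl (.inl a))
  | .inl (.inr (u, .inr a)) => .inr (u, .inr (.inl a))
  | .inr ((u, .inl t), c) => .inr (u, .inl (.inr (t, c)))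
  | .inr ((u, .inr t), c) => .inr (u, .inr (.inr (t, c)))

theorem core2_nm_ne {P Q : C2I ι ι' ⊕ (C2U υ υ' × Bool)} (h : crs P Q) :
    core2_nm P ≠ core2_nm Q := by
  intro h1
  apply h.1
  rcases P with (i | ⟨u, a | a⟩) | ⟨⟨u, a | a⟩, c⟩ <;>
  rcases Q with (i' | ⟨u', a' | a'⟩) | ⟨⟨u', a' | a'⟩, c'⟩ <;>
  simp [core2_nm] at h1 ⊢ <;> grind

theorem core2_crs_l {P Q : C2I ι ι' ⊕ (C2U υ υ' × Bool)} (h : crs P Q) {u : Bool × Bool}
    {q q' : ι ⊕ (υ × Bool)} (h1 : (core2_nm P : C2F ι υ ι' υ') = .inr (u, .inl q))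
    (h2 : (core2_nm Q : C2F ι υ ι' υ') = .inr (u, .inl q')) : crs q q' := by
  rcases P with (i | ⟨u, a | a⟩) | ⟨⟨u, a | a⟩, c⟩ <;>
  rcases Q with (i' | ⟨u', a' | a'⟩) | ⟨⟨u', a' | a'⟩, c'⟩ <;>
  simp [core2_nm] at h1 h2 <;>
  obtain ⟨h1, rfl⟩ := h1 <;> obtain ⟨h2, rfl⟩ := h2 <;>
  simp [crs] at h ⊢ <;> grind

theorem core2_crs_r {P Q : C2I ι ι' ⊕ (C2U υ υ' × Bool)} (h : crs P Q) {u : Bool × Bool}
    {q q' : ι' ⊕ (υ' × Bool)} (h1 : (core2_nm P : C2F ι υ ι' υ') = .inr (u, .inr q))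
    (h2 : (core2_nm Q : C2F ι υ ι' υ') = .inr (u, .inr q')) : crs q q' := by
  rcases P with (i | ⟨u, a | a⟩) | ⟨⟨u, a | a⟩, c⟩ <;>
  rcases Q with (i' | ⟨u', a' | a'⟩) | ⟨⟨u', a' | a'⟩, c'⟩ <;>
  simp [core2_nm] at h1 h2 <;>
  obtain ⟨h1, rfl⟩ := h1 <;> obtain ⟨h2, rfl⟩ := h2 <;>
  simp [crs] at h ⊢ <;> grind

theorem core2_same_cases {X Y : C2F ι υ ι' υ'} (h : core2_same X Y) :
    (∃ u q q', X = .inr (u, .inl q) ∧ Y = .inr (u, .inl q')) ∨
    (∃ u q q', X = .inr (u, .inr q) ∧ Y = .inr (u, .inr q')) := by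
  rcases X with i | ⟨u, q | q⟩ <;> rcases Y with i' | ⟨u', q' | q'⟩ <;>
  simp only [core2_same] at h
  · subst h
    exact Or.inl ⟨_, _, _, rfl, rfl⟩
  · subst h
    exact Or.inr ⟨_, _, _, rfl, rfl⟩

theorem core2_same_le {S : Finset ℕ} {W : ℕ} {η : ℝ} {g : GW ι υ} {g' : GW ι' υ'}
    (hg : g.ok S W η) (hg' : g'.ok S W η) (r j k l s : ℤ)
    {P Q : C2I ι ι' ⊕ (C2U υ υ' × Bool)} (h : crs P Q)
    (hs : core2_same (core2_nm P : C2F ι υ ι' υ') (core2_nm Q)) :
    Ers (9 / 10) S (disc (core2_al g g' W) (core2_be g g' W r j k l s)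
      (core2_nm P) (core2_nm Q)) ≤ η := by
  rcases core2_same_cases hs with ⟨u, q, q', h1, h2⟩ | ⟨u, q, q', h1, h2⟩
  · have hq := core2_crs_l h h1 h2
    rw [h1, h2]
    refine le_trans (le_of_eq (congrArg (Ers (9 / 10) S) ?_)) (hg.2 q q' hq)
    simp only [disc, core2_al, core2_be]
    ring
  · have hq := core2_crs_r h h1 h2
    rw [h1, h2, ← ers_neg]
    refine le_trans (le_of_eq (congrArg (Ers (9 / 10) S) ?_)) (hg'.2 q q' hq)
    simp only [disc, core2_al, core2_be]
    ring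

/-! ## the main terms -/

/-- error from different copies -/
noncomputable def core2_D [Fintype ι] [Fintype υ] [Fintype ι'] [Fintype υ'] (g : GW ι υ)
    (g' : GW ι' υ') (S : Finset ℕ) (W : ℕ) (r j k l s : ℤ) : ℝ :=
  ∑ P : C2I ι ι' ⊕ (C2U υ υ' × Bool), ∑ Q : C2I ι ι' ⊕ (C2U υ υ' × Bool),
    open Classical in
    if crs P Q ∧ ¬ core2_same (core2_nm P : C2F ι υ ι' υ') (core2_nm Q) then
      Ers (9 / 10) S (disc (core2_al g g' W) (core2_be g g' W r j k l s)
        (core2_nm P) (core2_nm Q)) else 0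

theorem core2_D_nonneg [Fintype ι] [Fintype υ] [Fintype ι'] [Fintype υ'] (g : GW ι υ)
    (g' : GW ι' υ') (S : Finset ℕ) (W : ℕ) (r j k l s : ℤ) :
    0 ≤ core2_D g g' S W r j k l s :=
  Finset.sum_nonneg fun _ _ => Finset.sum_nonneg fun _ _ => by
    split_ifs
    · exact Ers_nonneg _ _ _
    · exact le_rfl

theorem core2_SGp_neg (S : Finset ℕ) (d : ℤ) : SGp S (-d) = SGp S d := by
  unfold SGp
  simp only [dvd_neg]

theorem core2_val [Fintype ι] [Fintype υ] [Fintype ι'] [Fintype υ'] (g : GW ι υ)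
    (g' : GW ι' υ') (S : Finset ℕ) (W : ℕ) (r j k l s x : ℤ) (u : Bool × Bool) :
    g.val S W (x + sh l k u) * g'.val S W (s - x + sh l j u) =
    (∏ a : ι ⊕ ι', rho S (core2_al g g' W (core2_nm (.inl (.inr (u, a)))) * x +
      core2_be g g' W r j k l s (core2_nm (.inl (.inr (u, a)))))) *
    ∏ t : υ ⊕ υ', (rho S (core2_al g g' W (core2_nm (.inr ((u, t), false))) * x +
      core2_be g g' W r j k l s (core2_nm (.inr ((u, t), false)))) *
      rho S (core2_al g g' W (core2_nm (.inr ((u, t), true))) * x +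
      core2_be g g' W r j k l s (core2_nm (.inr ((u, t), true)))) /
      SGp S (disc (core2_al g g' W) (core2_be g g' W r j k l s)
        (core2_nm (.inr ((u, t), false))) (core2_nm (.inr ((u, t), true))))) := by
  have e1 : ∀ q, g.e q * W * (x + sh l k u) + g.b q =
      core2_al g g' W (.inr (u, .inl q)) * x + core2_be g g' W r j k l s (.inr (u, .inl q)) := by
    intro q
    simp only [core2_al, core2_be]
    ring
  have e2 : ∀ q, g'.e q * W * (s - x + sh l j u) + g'.b q =
      core2_al g g' W (.inr (u, .inr q)) * x + core2_be g g' W r j k l s (.inr (u, .inr q)) := by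
    intro q
    simp only [core2_al, core2_be]
    ring
  have e3 : ∀ t, SGp S (g.e (.inr (t, false)) * W * g.b (.inr (t, true)) -
      g.e (.inr (t, true)) * W * g.b (.inr (t, false))) =
      SGp S (disc (core2_al g g' W) (core2_be g g' W r j k l s)
        (.inr (u, .inl (.inr (t, false)))) (.inr (u, .inl (.inr (t, true))))) := by
    intro t
    refine congrArg (SGp S) ?_
    simp only [disc, core2_al, core2_be]
    ring
  have e4 : ∀ t, SGp S (g'.e (.inr (t, false)) * W * g'.b (.inr (t, true)) -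
      g'.e (.inr (t, true)) * W * g'.b (.inr (t, false))) =
      SGp S (disc (core2_al g g' W) (core2_be g g' W r j k l s)
        (.inr (u, .inr (.inr (t, false)))) (.inr (u, .inr (.inr (t, true))))) := by
    intro t
    rw [← core2_SGp_neg]
    refine congrArg (SGp S) ?_
    simp only [disc, core2_al, core2_be]
    ring
  rw [Fintype.prod_sum_type, Fintype.prod_sum_type]
  unfold GW.val
  simp only [e1, e2, e3, e4]
  change _ = (∏ a, _) * (∏ a, _) * ((∏ a, _) * (∏ a, _))
  simp only [core2_nm]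
  ring

theorem core2_nu (g : GW ι υ) (g' : GW ι' υ') (S : Finset ℕ) (W : ℕ) (r j k l s x : ℤ) :
    nu S W r (-j) k (2 * x - s) =
    ∑ T ∈ (Finset.univ : Finset (Bool × Bool)).powerset,
      ∏ i ∈ T, rho S (core2_al g g' W (core2_nm (.inl (.inl i) : C2I ι ι' ⊕ (C2U υ υ' × Bool))) * x
        + core2_be g g' W r j k l s (core2_nm (.inl (.inl i)))) := by
  unfold nu
  rw [Finset.prod_one_add]
  apply Finset.sum_congr rfl
  intro T _
  apply Finset.prod_congr rfl
  intro i _
  congr 1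
  simp only [core2_al, core2_be, core2_nm]
  ring

/-- the product of the two copies -/
noncomputable def core2_P [Fintype ι] [Fintype υ] [Fintype ι'] [Fintype υ'] (g : GW ι υ)
    (g' : GW ι' υ') (S : Finset ℕ) (W : ℕ) (j k l s x : ℤ) (b : Bool) : ℝ :=
  ∏ c : Bool, g.val S W (x + sh l k (b, c)) * g'.val S W (s - x + sh l j (b, c))

theorem core2_prod [Fintype ι] [Fintype υ] [Fintype ι'] [Fintype υ'] (g : GW ι υ)
    (g' : GW ι' υ') (S : Finset ℕ) (W : ℕ) (r j k l s x : ℤ) (T : Finset (Bool × Bool))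
    (B : Finset Bool) :
    (∏ i ∈ T, rho S (core2_al g g' W (core2_nm (.inl (.inl i) : C2I ι ι' ⊕ (C2U υ υ' × Bool))) * x
        + core2_be g g' W r j k l s (core2_nm (.inl (.inl i))))) *
      (∏ b ∈ B, core2_P g g' S W j k l s x b) =
    (∏ i ∈ T.disjSum ((B ×ˢ (Finset.univ : Finset Bool)) ×ˢ (Finset.univ : Finset (ι ⊕ ι'))),
      rho S (core2_al g g' W (core2_nm (.inl i)) * x +
        core2_be g g' W r j k l s (core2_nm (.inl i)))) *
    (∏ t ∈ (B ×ˢ (Finset.univ : Finset Bool)) ×ˢ (Finset.univ : Finset (υ ⊕ υ')),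
      rho S (core2_al g g' W (core2_nm (.inr (t, false))) * x +
        core2_be g g' W r j k l s (core2_nm (.inr (t, false)))) *
      rho S (core2_al g g' W (core2_nm (.inr (t, true))) * x +
        core2_be g g' W r j k l s (core2_nm (.inr (t, true)))) /
      SGp S (disc (core2_al g g' W) (core2_be g g' W r j k l s)
        (core2_nm (.inr (t, false))) (core2_nm (.inr (t, true))))) := by
  rw [Finset.prod_disjSum, mul_assoc]
  congr 1
  unfold core2_P
  rw [← Finset.prod_product']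
  rw [Finset.prod_product (B ×ˢ (Finset.univ : Finset Bool)) (Finset.univ : Finset (ι ⊕ ι')),
    Finset.prod_product (B ×ˢ (Finset.univ : Finset Bool)) (Finset.univ : Finset (υ ⊕ υ')),
    ← Finset.prod_mul_distrib]
  apply Finset.prod_congr rfl
  intro u _
  exact core2_val g g' S W r j k l s x u

theorem core2_crs_sum [Fintype ι] [Fintype υ] [Fintype ι'] [Fintype υ'] {S : Finset ℕ} {W : ℕ}
    {η : ℝ} (hη : 0 ≤ η) {g : GW ι υ} {g' : GW ι' υ'} (hg : g.ok S W η) (hg' : g'.ok S W η)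
    (r j k l s : ℤ) :
    (∑ P : C2I ι ι' ⊕ (C2U υ υ' × Bool), ∑ Q : C2I ι ι' ⊕ (C2U υ υ' × Bool),
      open Classical in
      if crs P Q then Ers (9 / 10) S (disc (core2_al g g' W) (core2_be g g' W r j k l s)
        (core2_nm P) (core2_nm Q)) else 0) ≤ core2_D g g' S W r j k l s +
      (Fintype.card (C2I ι ι' ⊕ (C2U υ υ' × Bool)) : ℝ) ^ 2 * η := by
  classical
  have e1 : (Fintype.card (C2I ι ι' ⊕ (C2U υ υ' × Bool)) : ℝ) ^ 2 * η =
      ∑ P : C2I ι ι' ⊕ (C2U υ υ' × Bool), ∑ Q : C2I ι ι' ⊕ (C2U υ υ' × Bool), η := by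
    rw [Finset.sum_const, Finset.sum_const, Finset.card_univ, nsmul_eq_mul, nsmul_eq_mul]
    ring
  rw [e1]
  unfold core2_D
  rw [← Finset.sum_add_distrib]
  apply Finset.sum_le_sum
  intro P _
  rw [← Finset.sum_add_distrib]
  apply Finset.sum_le_sum
  intro Q _
  by_cases h1 : crs P Q
  · by_cases h2 : core2_same (core2_nm P : C2F ι υ ι' υ') (core2_nm Q)
    · rw [if_pos h1, if_neg (fun h => h.2 h2), zero_add]
      exact core2_same_le hg hg' r j k l s h1 h2
    · rw [if_pos h1, if_pos ⟨h1, h2⟩]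
      linarith
  · rw [if_neg h1, if_neg (fun h => h1 h.1), zero_add]
    exact hη

theorem core2_fix (ι υ ι' υ' : Type) [Fintype ι] [Fintype υ] [Fintype ι'] [Fintype υ'] :
    ∃ C : ℕ, 2 ≤ C ∧ ∀ (A w z W N : ℕ) (S : Finset ℕ), Stp C A w z W N S →
    ∀ (g : GW ι υ) (g' : GW ι' υ') (η : ℝ), 0 ≤ η → g.ok S W η → g'.ok S W η →
    ∀ r j k l s a b : ℤ, a ≤ b → b - a ≤ N →
      |∑ x ∈ Finset.Ico a b, (∏ c : Bool, (core2_P g g' S W j k l s x c - 1)) *
        nu S W r (-j) k (2 * x - s)| ≤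
        C * N * (er C A w + η + core2_D g g' S W r j k l s) := by
  classical
  obtain ⟨C0, hC0, hc⟩ := corr_sub (C2I ι ι') (C2U υ υ')
  set M : ℕ := Fintype.card (C2I ι ι' ⊕ (C2U υ υ' × Bool)) with hM
  set K : ℕ := Fintype.card (C2I ι ι') + 2 * Fintype.card (C2U υ υ') with hK
  set C : ℕ := 128 * C0 * (M ^ 2 + 1) * (K + 2) with hC
  have l0 : 128 * C0 * (M ^ 2 + 1) ≤ C := Nat.le_mul_of_pos_right _ (by omega)
  have l1 : 128 * C0 ≤ C := (Nat.le_mul_of_pos_right _ (by positivity)).trans l0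
  have l2 : K + 2 ≤ C := Nat.le_mul_of_pos_left _ (by positivity)
  refine ⟨C, by omega, fun A w z W N S h g g' η hη hg hg' r j k l s a b hab hN => ?_⟩
  have hs := h.mono (show C0 ≤ C by omega)
  have hw1 : 1 ≤ w := h.w_pos (by omega)
  have hC0' : (1 : ℝ) ≤ C0 := by exact_mod_cast hC0
  have hN' : (b : ℝ) - a ≤ N := by exact_mod_cast hN
  have hab' : (0 : ℝ) ≤ (b : ℝ) - a := by
    have : (a : ℝ) ≤ b := by exact_mod_cast hab
    linarith
  have hN0 : (0 : ℝ) ≤ N := Nat.cast_nonneg _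
  have u2 : ∀ p ∈ S, ¬ (p : ℤ) ∣ 2 := h.unit_small (by omega) (by norm_num) (by norm_num)
  have ue : ∀ c, ∀ p ∈ S, ¬ (p : ℤ) ∣ g.e c :=
    fun c => h.unit_small (by omega) (hg.1 c).1 (hg.1 c).2
  have ue' : ∀ c, ∀ p ∈ S, ¬ (p : ℤ) ∣ g'.e c :=
    fun c => h.unit_small (by omega) (hg'.1 c).1 (hg'.1 c).2
  set al' : C2I ι ι' ⊕ (C2U υ υ' × Bool) → ℤ := fun P => core2_al g g' W (core2_nm P) with hal
  set be' : C2I ι ι' ⊕ (C2U υ υ' × Bool) → ℤ :=
    fun P => core2_be g g' W r j k l s (core2_nm P) with hbe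
  have hα : ∀ p ∈ S, ∀ P, ¬ (p : ℤ) ∣ al' P := by
    intro p hp P
    have hX : ∀ X : C2F ι υ ι' υ', ¬ (p : ℤ) ∣ core2_al g g' W X := by
      intro X
      rcases X with i | ⟨u, q | q⟩
      · exact unit_mul h.hS u2 h.unitW p hp
      · exact unit_mul h.hS (ue q) h.unitW p hp
      · exact unit_neg (unit_mul h.hS (ue' q) h.unitW) p hp
    exact hX _
  have hD := core2_D_nonneg g g' S W r j k l s
  have hε0 := er_nonneg C0 A w
  have hε : er C0 A w ≤ er C A w := er_mono hC0 (by omega) A hw1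
  have hDs := core2_crs_sum hη hg hg' r j k l s
  rw [← hM] at hDs
  set D := core2_D g g' S W r j k l s with hDdef
  set F : Finset (Bool × Bool) → ℤ → ℝ := fun T x => ∏ i ∈ T, rho S (core2_al g g' W
      (core2_nm (.inl (.inl i) : C2I ι ι' ⊕ (C2U υ υ' × Bool))) * x
        + core2_be g g' W r j k l s (core2_nm (.inl (.inl i)))) with hF
  set Sg : Finset (Bool × Bool) → Finset Bool → ℝ := fun T B =>
    ∑ x ∈ Finset.Ico a b, F T x * ∏ b ∈ B, core2_P g g' S W j k l s x b with hSg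
  have key : ∀ T B, |Sg T B - (b - a)| ≤ 2 * C0 * (M ^ 2 + 1) * N * (er C0 A w + η + D) := by
    intro T B
    have h1 := hc A w z S hs.hA hs.hw h.hz h.hS al' be' hα
      (T.disjSum ((B ×ˢ (Finset.univ : Finset Bool)) ×ˢ (Finset.univ : Finset (ι ⊕ ι'))))
      ((B ×ˢ (Finset.univ : Finset Bool)) ×ˢ (Finset.univ : Finset (υ ⊕ υ'))) a b hab
    have hz : (z : ℝ) ^ (A + Fintype.card (C2I ι ι') + 2 * Fintype.card (C2U υ υ')) ≤
        er C0 A w * N := by
      rw [add_assoc]
      exact h.zpow hC0 l2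
    have e1 : Sg T B = ∑ x ∈ Finset.Ico a b,
        (∏ i ∈ T.disjSum ((B ×ˢ (Finset.univ : Finset Bool)) ×ˢ (Finset.univ : Finset (ι ⊕ ι'))),
          rho S (al' (.inl i) * x + be' (.inl i))) *
        (∏ t ∈ (B ×ˢ (Finset.univ : Finset Bool)) ×ˢ (Finset.univ : Finset (υ ⊕ υ')),
          rho S (al' (.inr (t, false)) * x + be' (.inr (t, false))) *
          rho S (al' (.inr (t, true)) * x + be' (.inr (t, true))) /
          SGp S (disc al' be' (.inr (t, false)) (.inr (t, true)))) := by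
      simp only [hSg, hF]
      apply Finset.sum_congr rfl
      intro x _
      exact core2_prod g g' S W r j k l s x T B
    rw [← e1] at h1
    refine h1.trans ?_
    have hM0 : (0 : ℝ) ≤ (M : ℝ) ^ 2 := by positivity
    calc _ ≤ (N : ℝ) * (C0 * er C0 A w + C0 * (D + (M : ℝ) ^ 2 * η)) + C0 * (er C0 A w * N) := by
          apply add_le_add
          · apply mul_le_mul hN' _ _ hN0
            · apply add_le_add le_rfl
              exact mul_le_mul_of_nonneg_left hDs (by linarith)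
            · apply add_nonneg (by positivity)
              apply mul_nonneg (by linarith)
              apply Finset.sum_nonneg; intro P _
              apply Finset.sum_nonneg; intro Q _
              split_ifs
              · exact Ers_nonneg _ _ _
              · exact le_rfl
          · exact mul_le_mul_of_nonneg_left hz (by positivity)
      _ ≤ _ := by
          have g1 : 0 ≤ C0 * N * D := by positivity
          have g2 : 0 ≤ C0 * N * er C0 A w := by positivity
          have g3 : 0 ≤ C0 * N * η := by positivity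
          have g4 : 0 ≤ (M : ℝ) ^ 2 * (C0 * N * D) := by positivity
          have g5 : 0 ≤ (M : ℝ) ^ 2 * (C0 * N * er C0 A w) := by positivity
          have g6 : 0 ≤ (M : ℝ) ^ 2 * (C0 * N * η) := by positivity
          nlinarith
  have e1 : ∑ x ∈ Finset.Ico a b, (∏ c : Bool, (core2_P g g' S W j k l s x c - 1)) *
      nu S W r (-j) k (2 * x - s) = ∑ B ∈ (Finset.univ : Finset Bool).powerset,
        (∏ u ∈ Finset.univ \ B, (-1 : ℝ)) *
        ∑ T ∈ (Finset.univ : Finset (Bool × Bool)).powerset, Sg T B := by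
    have e5 : ∀ x, (∏ c : Bool, (core2_P g g' S W j k l s x c - 1)) =
        ∑ B ∈ (Finset.univ : Finset Bool).powerset,
          (∏ b ∈ B, core2_P g g' S W j k l s x b) * ∏ u ∈ Finset.univ \ B, (-1 : ℝ) := by
      intro x
      rw [← Finset.prod_add]
      rfl
    simp only [e5, core2_nu g g' S W r j k l s, hSg, hF]
    simp only [Finset.sum_mul_sum]
    rw [Finset.sum_comm]
    apply Finset.sum_congr rfl
    intro U _
    rw [Finset.sum_comm, Finset.mul_sum]
    apply Finset.sum_congr rfl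
    intro T _
    rw [Finset.mul_sum]
    apply Finset.sum_congr rfl
    intro x _
    ring
  have e2 : ∑ B ∈ (Finset.univ : Finset Bool).powerset,
      (∏ u ∈ Finset.univ \ B, (-1 : ℝ)) = 0 := by
    have := Finset.prod_add (fun _ : Bool => (1 : ℝ)) (fun _ => (-1 : ℝ)) Finset.univ
    simp only [Finset.prod_const_one, one_mul, add_neg_cancel, Finset.prod_const] at this
    simp only [Finset.prod_const]
    rw [← this]
    simp
  have e3 : ∑ B ∈ (Finset.univ : Finset Bool).powerset,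
        (∏ u ∈ Finset.univ \ B, (-1 : ℝ)) *
        ∑ T ∈ (Finset.univ : Finset (Bool × Bool)).powerset, Sg T B =
      ∑ B ∈ (Finset.univ : Finset Bool).powerset,
        (∏ u ∈ Finset.univ \ B, (-1 : ℝ)) *
        ∑ T ∈ (Finset.univ : Finset (Bool × Bool)).powerset, (Sg T B - (b - a)) := by
    have e4 : ∀ B, ∑ T ∈ (Finset.univ : Finset (Bool × Bool)).powerset,
        (Sg T B - ((b : ℝ) - a)) = ∑ T ∈ (Finset.univ : Finset (Bool × Bool)).powerset,
        Sg T B - 16 * ((b : ℝ) - a) := by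
      intro B
      rw [Finset.sum_sub_distrib, Finset.sum_const, Finset.card_powerset, Finset.card_univ]
      simp only [Fintype.card_prod, Fintype.card_bool, nsmul_eq_mul]
      push_cast
      ring
    simp only [e4]
    simp only [mul_sub (∏ u ∈ Finset.univ \ _, (-1 : ℝ)), Finset.sum_sub_distrib]
    rw [← Finset.sum_mul, e2]
    ring
  rw [e1, e3]
  set R : ℝ := 2 * C0 * (M ^ 2 + 1) * N * (er C0 A w + η + D) with hR
  calc |∑ B ∈ (Finset.univ : Finset Bool).powerset,
        (∏ u ∈ Finset.univ \ B, (-1 : ℝ)) *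
        ∑ T ∈ (Finset.univ : Finset (Bool × Bool)).powerset, (Sg T B - (b - a))|
      ≤ ∑ B ∈ (Finset.univ : Finset Bool).powerset,
        ∑ T ∈ (Finset.univ : Finset (Bool × Bool)).powerset, |Sg T B - (b - a)| := by
        refine (Finset.abs_sum_le_sum_abs _ _).trans (Finset.sum_le_sum fun B _ => ?_)
        rw [abs_mul, Finset.abs_prod]
        simp only [abs_neg, abs_one, Finset.prod_const_one, one_mul]
        exact Finset.abs_sum_le_sum_abs _ _
    _ ≤ ∑ B ∈ (Finset.univ : Finset Bool).powerset, 16 * R :=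
        Finset.sum_le_sum fun B _ => sum_powerset_le fun T => key T B
    _ = 64 * R := by
        rw [Finset.sum_const, Finset.card_powerset, Finset.card_univ, Fintype.card_bool,
          nsmul_eq_mul]
        push_cast
        ring
    _ = ((128 * C0 * (M ^ 2 + 1) : ℕ) : ℝ) * N * (er C0 A w + η + D) := by
        rw [hR]
        push_cast
        ring
    _ ≤ C * N * (er C A w + η + D) := by
        have : ((128 * C0 * (M ^ 2 + 1) : ℕ) : ℝ) ≤ C := by exact_mod_cast l0
        gcongr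

theorem core2_D_ty {C A w z W N : ℕ} {S : Finset ℕ} (h : Stp C A w z W N S) (hC : 2 ≤ C)
    [Fintype ι] [Fintype υ] [Fintype ι'] [Fintype υ']
    {g : GW ι υ} {g' : GW ι' υ'} (hg : ∀ i, g.e i ≠ 0 ∧ |g.e i| ≤ 2)
    (hg' : ∀ i, g'.e i ≠ 0 ∧ |g'.e i| ≤ 2) (r r' : ℤ) {B : ℝ}
    (hB : ∀ Φ, Ty S Φ → Qs S W N r' Φ ≤ B) (hB0 : 0 ≤ B) :
    Qs S W N r' (core2_D g g' S W r) ≤
      (Fintype.card (C2I ι ι' ⊕ (C2U υ υ' × Bool)) : ℝ) ^ 2 * B := by
  classical
  have e6 : Qs S W N r' (core2_D g g' S W r) =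
      ∑ P : C2I ι ι' ⊕ (C2U υ υ' × Bool), ∑ Q : C2I ι ι' ⊕ (C2U υ υ' × Bool),
        Qs S W N r' (fun j k l s =>
          if crs P Q ∧ ¬ core2_same (core2_nm P : C2F ι υ ι' υ') (core2_nm Q) then
          Ers (9 / 10) S (disc (core2_al g g' W) (core2_be g g' W r j k l s)
            (core2_nm P) (core2_nm Q)) else 0) := by
    unfold Qs core2_D
    simp only [Finset.mul_sum]
    have sw : ∀ (I : Finset ℤ) (f : ℤ → (C2I ι ι' ⊕ (C2U υ υ' × Bool)) →
        (C2I ι ι' ⊕ (C2U υ υ' × Bool)) → ℝ),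
        ∑ i ∈ I, ∑ P, ∑ Q, f i P Q = ∑ P, ∑ Q, ∑ i ∈ I, f i P Q := by
      intro I f
      rw [Finset.sum_comm]
      apply Finset.sum_congr rfl
      intro P _
      rw [Finset.sum_comm]
    simp only [sw]
  rw [e6]
  calc _ ≤ ∑ P : C2I ι ι' ⊕ (C2U υ υ' × Bool), ∑ Q : C2I ι ι' ⊕ (C2U υ υ' × Bool), B := by
        apply Finset.sum_le_sum; intro P _
        apply Finset.sum_le_sum; intro Q _
        by_cases hPQ : crs P Q ∧ ¬ core2_same (core2_nm P : C2F ι υ ι' υ') (core2_nm Q)
        · simp only [hPQ, not_false_eq_true, and_self, if_true]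
          exact hB _ (core2_ty h hC hg hg' r _ _ (core2_nm_ne hPQ.1) hPQ.2)
        · simp only [hPQ, if_false]
          unfold Qs
          simp only [mul_zero, Finset.sum_const_zero]
          exact hB0
    _ = _ := by
        rw [Finset.sum_const, Finset.sum_const, Finset.card_univ, nsmul_eq_mul, nsmul_eq_mul]
        ring

/-- the cut-offs restrict `x` to an interval -/
theorem core2_cut [Fintype ι] [Fintype υ] [Fintype ι'] [Fintype υ'] (g : GW ι υ)
    (g' : GW ι' υ') (S : Finset ℕ) (W N : ℕ) (r j k l s : ℤ) :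
    ∃ a b : ℤ, (a ≤ b → b - a ≤ N) ∧
      ∑ x ∈ Finset.Ico (0 : ℤ) N, ecut N (gdev g g' S W) j k x (s - x) *
        ecut N (gdev g g' S W) j k (x + l) (s - x + l) * nu S W r (-j) k (2 * x - s) =
      ∑ x ∈ Finset.Ico a b, (∏ c : Bool, (core2_P g g' S W j k l s x c - 1)) *
        nu S W r (-j) k (2 * x - s) := by
  classical
  obtain ⟨a, ha⟩ : ∃ a : ℤ, a = max (max (max 0 (-k)) (max (-l) (-l - k)))
    (max (max (s - N + 1) (s + j - N + 1)) (max (s + l - N + 1) (s + l + j - N + 1))) := ⟨_, rfl⟩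
  obtain ⟨b, hb⟩ : ∃ b : ℤ, b = min (min (min (N : ℤ) (N - k)) (min (N - l) (N - l - k)))
    (min (min (s + 1) (s + j + 1)) (min (s + l + 1) (s + l + j + 1))) := ⟨_, rfl⟩
  refine ⟨a, b, fun _ => by omega, ?_⟩
  have hsub : Finset.Ico a b ⊆ Finset.Ico (0 : ℤ) N := by
    intro x hx
    rw [Finset.mem_Ico] at hx ⊢
    omega
  symm
  apply Finset.sum_subset_zero_on_sdiff hsub
  · intro x hx
    rw [Finset.mem_sdiff, Finset.mem_Ico, Finset.mem_Ico] at hx
    obtain ⟨hx1, hx2⟩ := hx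
    by_cases h1 : (0 ≤ x ∧ x < N) ∧ (0 ≤ x + k ∧ x + k < N) ∧ (0 ≤ s - x ∧ s - x < N) ∧
        (0 ≤ s - x + j ∧ s - x + j < N)
    · by_cases h2 : (0 ≤ x + l ∧ x + l < N) ∧ (0 ≤ x + l + k ∧ x + l + k < N) ∧
          (0 ≤ s - x + l ∧ s - x + l < N) ∧ (0 ≤ s - x + l + j ∧ s - x + l + j < N)
      · exfalso
        apply hx2
        omega
      · have : ecut N (gdev g g' S W) j k (x + l) (s - x + l) = 0 := by
          unfold ecut
          rw [if_neg h2]
        rw [this, mul_zero, zero_mul]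
    · have : ecut N (gdev g g' S W) j k x (s - x) = 0 := by
        unfold ecut
        rw [if_neg h1]
      rw [this, zero_mul, zero_mul]
  · intro x hx
    rw [Finset.mem_Ico] at hx
    have h1 : (0 ≤ x ∧ x < N) ∧ (0 ≤ x + k ∧ x + k < N) ∧ (0 ≤ s - x ∧ s - x < N) ∧
        (0 ≤ s - x + j ∧ s - x + j < N) := by omega
    have h2 : (0 ≤ x + l ∧ x + l < N) ∧ (0 ≤ x + l + k ∧ x + l + k < N) ∧
          (0 ≤ s - x + l ∧ s - x + l < N) ∧ (0 ≤ s - x + l + j ∧ s - x + l + j < N) := by omega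
    unfold ecut
    rw [if_pos h1, if_pos h2]
    congr 1
    unfold core2_P gdev
    simp only [Fintype.prod_bool, sh, if_true, Bool.false_eq_true, if_false, add_zero, zero_add]
    rw [← add_assoc x l k, ← add_assoc (s - x) l j]
    ring

/-- Chunk CORE2. This generalises `cross_ty`, `Dt`, `core` in `TU3Cor.lean` (same tools: `corr_sub`,
`Ty`, `quad`). For fixed `j, k, l, s` the cut-offs restrict `x` to an interval of length `≤ N`. Expand
the product of the two deviations and of `nu`: up to sign a sum of `4 * 16` products of `rho`'s in the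
variable `x`, over the families
* the four forms of `nu`: `2 W x + (r + W (- s + sh (-j) k i))`;
* `g` at the four points `x + sh l k u`, `g'` at the four points `s - x + sh l j u`
  (the forms `- e W x + (e W (s + sh l j u) + b)`);
all main terms are the length of the interval, and cancel. The crossing discriminants are
* within the same copy of `g` or `g'`: constant, `Ers ≤ η` (`GW.ok`; the shift does not change the
  discriminant `e i * W * b j - e j * W * b i`);
* all the others are of type `Ty` (affine in `s`, or in `s + 2 l` (for `s + l` multiply by `2`, which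
  is a unit: the second alternative of `Ty` allows a `β` depending on `s`), or in `j, k`).
`D` is the sum of these (finitely many) `Ers`, and `quad` bounds `Qs` of it. -/
theorem core2 (ι υ ι' υ' : Type) [Fintype ι] [Fintype υ] [Fintype ι'] [Fintype υ'] :
    ∃ C : ℕ, 2 ≤ C ∧ ∀ (A w z W N : ℕ) (S : Finset ℕ), Stp C A w z W N S →
    ∀ (g : GW ι υ) (g' : GW ι' υ') (η : ℝ), 0 ≤ η → g.ok S W η → g'.ok S W η → ∀ r : ℤ,
    ∃ D : ℤ → ℤ → ℤ → ℤ → ℝ, (∀ j k l s, 0 ≤ D j k l s) ∧
    (∀ r' : ℤ, Qs S W N r' D ≤ C * N ^ 4 * er C A w) ∧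
    ∀ j k l s : ℤ,
      |∑ x ∈ Finset.Ico (0 : ℤ) N, ecut N (gdev g g' S W) j k x (s - x) *
        ecut N (gdev g g' S W) j k (x + l) (s - x + l) * nu S W r (-j) k (2 * x - s)| ≤
        C * N * (er C A w + η + D j k l s) := by
  obtain ⟨C1, hC1, hc1⟩ := core2_fix ι υ ι' υ'
  obtain ⟨C2, hC2, hc2⟩ := quad
  set M : ℕ := Fintype.card (C2I ι ι' ⊕ (C2U υ υ' × Bool)) with hM
  set C : ℕ := C1 + C2 * (M ^ 2 + 1) with hC
  have l2 : C2 ≤ C2 * (M ^ 2 + 1) := Nat.le_mul_of_pos_right _ (by positivity)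
  refine ⟨C, by omega, fun A w z W N S h g g' η hη hg hg' r => ?_⟩
  have h1 := h.mono (show C1 ≤ C by omega)
  have h2 := h.mono (show C2 ≤ C by omega)
  have hw1 : 1 ≤ w := h.w_pos (by omega)
  have hε1 : er C1 A w ≤ er C A w := er_mono (by omega) (by omega) A hw1
  have hε2 : er C2 A w ≤ er C A w := er_mono (by omega) (by omega) A hw1
  have e1 := er_nonneg C1 A w
  have e2 := er_nonneg C2 A w
  refine ⟨core2_D g g' S W r, core2_D_nonneg g g' S W r, fun r' => ?_, fun j k l s => ?_⟩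
  · refine (core2_D_ty h2 hC2 hg.1 hg'.1 r r' (fun Φ hΦ => hc2 A w z W N S h2 r' Φ hΦ)
      (by positivity)).trans ?_
    rw [← hM]
    have l3 : (M : ℝ) ^ 2 * C2 ≤ C := by
      have : M ^ 2 * C2 ≤ C := by
        rw [hC]
        nlinarith
      exact_mod_cast this
    calc (M : ℝ) ^ 2 * (C2 * (N : ℝ) ^ 4 * er C2 A w) =
        ((M : ℝ) ^ 2 * C2) * (N : ℝ) ^ 4 * er C2 A w := by ring
      _ ≤ C * (N : ℝ) ^ 4 * er C A w := by gcongr
  · obtain ⟨a, b, hab, he⟩ := core2_cut g g' S W N r j k l s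
    have hD := core2_D_nonneg g g' S W r j k l s
    rw [he]
    rcases le_or_gt a b with hle | hlt
    · refine (hc1 A w z W N S h1 g g' η hη hg hg' r j k l s a b hle (hab hle)).trans ?_
      have : (C1 : ℝ) ≤ C := by exact_mod_cast (show C1 ≤ C by omega)
      gcongr
    · rw [Finset.Ico_eq_empty (by omega), Finset.sum_empty, abs_zero]
      have := er_nonneg C A w
      positivity

end Pool.Agent.Lib.H18GB
end
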