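import Pool.Agent.Lib.H1M.RV.M008
import Pool.Agent.Lib.H1M.RV.M021
import Pool.Agent.Lib.H1M.RV.M031
import Pool.Agent.Lib.H1M.RV.M051
import Pool.Agent.Lib.H1M.RV.M053
import Pool.Agent.Lib.H1M.RV.M062

/-! Merged copies (to shorten the build) of Lib.H57C.V1, Lib.H57C.V2, Lib.H57C.V3, Lib.H57C.V4. -/

-- from Lib.H57C.V1
section

/-!
# Chunk V1: Bombieri-Vinogradov, all classes at once, with weights
-/

open Finset

namespace Pool.Agent.Lib.H57C

open Pool.Agent.Lib.Sieve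

/-- weighted harmonic sum of a product over prime factors -/
theorem V1_sum (h : ℕ → ℝ) (h0 : ∀ p, 0 ≤ h p) (N : ℕ) :
    ∑ m ∈ Icc 1 N, (∏ p ∈ m.primeFactors, (1 + h p)) / (m : ℝ)
      ≤ (∑ k ∈ Icc 1 N, 1 / (k : ℝ)) * ∏ p ∈ primesUpTo N, (1 + h p / p) := by
  have hD0 : ∀ D : Finset ℕ, 0 ≤ ∏ p ∈ D, h p := fun D => Finset.prod_nonneg fun p _ => h0 p
  have h1 : ∀ m ∈ Finset.Icc 1 N, (∏ p ∈ m.primeFactors, (1 + h p)) / (m : ℝ)
      ≤ ∑ D ∈ (primesUpTo N).powerset, if (∏ p ∈ D, p) ∣ m then (∏ p ∈ D, h p) / (m : ℝ) else 0 := by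
    intro m hm
    rw [Finset.mem_Icc] at hm
    rw [Finset.prod_one_add, ← Finset.sum_filter, Finset.sum_div]
    apply Finset.sum_le_sum_of_subset_of_nonneg
    · intro D hD
      rw [Finset.mem_powerset] at hD
      rw [Finset.mem_filter, Finset.mem_powerset]
      refine ⟨fun p hp => ?_, ?_⟩
      · have hpm := Nat.mem_primeFactors.mp (hD hp)
        rw [mem_primesUpTo]
        exact ⟨hpm.1, (Nat.le_of_dvd (by omega) hpm.2.1).trans hm.2⟩
      · exact (Finset.prod_dvd_prod_of_subset _ _ _ hD).trans (Nat.prod_primeFactors_dvd m)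
    · intro D _ _
      exact div_nonneg (hD0 D) (Nat.cast_nonneg _)
  refine (Finset.sum_le_sum h1).trans ?_
  rw [Finset.sum_comm, Finset.prod_one_add, Finset.mul_sum]
  refine Finset.sum_le_sum fun D hD => ?_
  rw [Finset.mem_powerset] at hD
  rw [← Finset.sum_filter]
  set d := ∏ p ∈ D, p with hd
  have hdpos : 0 < d := Finset.prod_pos fun p hp => (mem_primesUpTo.mp (hD hp)).1.pos
  rw [Finset.prod_div_distrib]
  have hdr : (∏ p ∈ D, (p : ℝ)) = d := by
    rw [hd]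
    push_cast
    rfl
  rw [hdr]
  have h2 : ∑ a ∈ (Icc 1 N).filter (fun m => d ∣ m), (∏ p ∈ D, h p) / (a : ℝ) ≤
      ∑ k ∈ Icc 1 N, (∏ p ∈ D, h p) / ((d * k : ℕ) : ℝ) := by
    have h3 : (Icc 1 N).filter (fun m => d ∣ m) ⊆ (Icc 1 N).image (fun k => d * k) := by
      intro m hm
      rw [mem_filter, mem_Icc] at hm
      obtain ⟨k, rfl⟩ := hm.2
      rw [mem_image]
      refine ⟨k, ?_, rfl⟩
      rw [mem_Icc]
      constructor
      · by_contra h
        have : k = 0 := by omega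
        rw [this] at hm
        omega
      · exact (Nat.le_mul_of_pos_left k hdpos).trans hm.1.2
    refine (sum_le_sum_of_subset_of_nonneg h3 fun i _ _ => div_nonneg (hD0 D)
      (Nat.cast_nonneg _)).trans ?_
    rw [sum_image]
    intro a _ b _ hab
    exact Nat.eq_of_mul_eq_mul_left hdpos hab
  refine h2.trans (le_of_eq ?_)
  rw [sum_mul]
  apply sum_congr rfl
  intro k _
  push_cast
  rw [div_mul_div_comm, one_mul, mul_comm (k : ℝ)]

/-- the weights on average -/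
theorem V1_w (E n : ℕ) (hn : 2 ≤ n) : ∑ d ∈ Icc 1 n, (E : ℝ) ^ d.primeFactors.card /
    (Nat.totient d : ℝ) ≤ (1 + Real.log n) * (500 * Real.log n) ^ (2 * E) := by
  have h1 : ∀ d ∈ Icc 1 n, (E : ℝ) ^ d.primeFactors.card / (Nat.totient d : ℝ) ≤
      (∏ p ∈ d.primeFactors, (1 + (fun _ => 2 * (E : ℝ)) p)) / (d : ℝ) := by
    intro d hd
    rw [mem_Icc] at hd
    have hd0 : (0 : ℝ) < d := by exact_mod_cast hd.1
    have hphi : (0 : ℝ) < Nat.totient d := by exact_mod_cast Nat.totient_pos.2 (by omega)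
    have h2 : (Nat.totient d : ℝ) * ∏ p ∈ d.primeFactors, (p : ℝ) =
        d * ∏ p ∈ d.primeFactors, ((p : ℝ) - 1) := by
      have h3 := Nat.totient_mul_prod_primeFactors d
      have h4 : ((d.totient * ∏ p ∈ d.primeFactors, p : ℕ) : ℝ) =
        ((d * ∏ p ∈ d.primeFactors, (p - 1) : ℕ) : ℝ) := by rw [h3]
      push_cast at h4
      rw [h4]
      congr 1
      apply prod_congr rfl
      intro p hp
      have := (Nat.prime_of_mem_primeFactors hp).one_le
      push_cast [Nat.cast_sub this]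
      ring
    rw [div_le_div_iff₀ hphi hd0]
    have h5 : 0 < ∏ p ∈ d.primeFactors, ((p : ℝ) - 1) := by
      apply prod_pos
      intro p hp
      have : (1 : ℝ) < p := by exact_mod_cast (Nat.prime_of_mem_primeFactors hp).one_lt
      linarith
    have h6 : (E : ℝ) ^ d.primeFactors.card * ∏ p ∈ d.primeFactors, (p : ℝ) ≤
        (∏ p ∈ d.primeFactors, (1 + 2 * (E : ℝ))) * ∏ p ∈ d.primeFactors, ((p : ℝ) - 1) := by
      rw [← prod_const, ← prod_mul_distrib, ← prod_mul_distrib]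
      apply prod_le_prod
      · intro p _
        positivity
      · intro p hp
        have h2 : (2 : ℝ) ≤ p := by exact_mod_cast (Nat.prime_of_mem_primeFactors hp).two_le
        have hE : (0 : ℝ) ≤ E := Nat.cast_nonneg _
        nlinarith
    have h7 : (E : ℝ) ^ d.primeFactors.card * d * ∏ p ∈ d.primeFactors, ((p : ℝ) - 1) ≤
        (∏ p ∈ d.primeFactors, (1 + 2 * (E : ℝ))) * (Nat.totient d : ℝ) *
          ∏ p ∈ d.primeFactors, ((p : ℝ) - 1) := by
      calc (E : ℝ) ^ d.primeFactors.card * d * ∏ p ∈ d.primeFactors, ((p : ℝ) - 1) =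
          (E : ℝ) ^ d.primeFactors.card * (Nat.totient d * ∏ p ∈ d.primeFactors, (p : ℝ)) := by
            rw [h2]; ring
        _ = (Nat.totient d : ℝ) * ((E : ℝ) ^ d.primeFactors.card *
            ∏ p ∈ d.primeFactors, (p : ℝ)) := by ring
        _ ≤ (Nat.totient d : ℝ) * ((∏ p ∈ d.primeFactors, (1 + 2 * (E : ℝ))) *
            ∏ p ∈ d.primeFactors, ((p : ℝ) - 1)) := mul_le_mul_of_nonneg_left h6 hphi.le
        _ = _ := by ring
    exact le_of_mul_le_mul_right h7 h5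
  refine (sum_le_sum h1).trans ((V1_sum (fun _ => 2 * (E : ℝ)) (fun _ => by positivity) n).trans ?_)
  have h8 : ∑ k ∈ Icc 1 n, 1 / (k : ℝ) ≤ 1 + Real.log n := by
    have := harmonic_le_one_add_log n
    have h9 : ((harmonic n : ℚ) : ℝ) = ∑ k ∈ Icc 1 n, 1 / (k : ℝ) := by
      rw [harmonic_eq_sum_Icc]
      push_cast
      simp
    rw [← h9]
    exact this
  have h10 : ∏ p ∈ primesUpTo n, (1 + 2 * (E : ℝ) / p) ≤ (500 * Real.log n) ^ (2 * E) := by
    calc ∏ p ∈ primesUpTo n, (1 + 2 * (E : ℝ) / p) ≤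
        ∏ p ∈ primesUpTo n, ((1 - 1 / (p : ℝ))⁻¹) ^ (2 * E) := by
          apply prod_le_prod
          · intro p _
            positivity
          · intro p hp
            have hp1 : (1 : ℝ) < p := by exact_mod_cast (mem_primesUpTo.mp hp).1.one_lt
            have h11 : 1 + 1 / (p : ℝ) ≤ (1 - 1 / (p : ℝ))⁻¹ := by
              have h12 : 0 < 1 - 1 / (p : ℝ) := by
                rw [sub_pos, div_lt_one (by linarith)]
                exact hp1
              rw [le_inv_comm₀ (by positivity) h12, ← one_div, le_div_iff₀ (by positivity)]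
              have : 0 < 1 / (p : ℝ) := by positivity
              nlinarith
            refine le_trans ?_ (pow_le_pow_left₀ (by positivity) h11 _)
            have h13 := one_add_mul_le_pow (a := 1 / (p : ℝ)) (by
              have : 0 < 1 / (p : ℝ) := by positivity
              linarith) (2 * E)
            push_cast at h13
            calc 1 + 2 * (E : ℝ) / p = 1 + 2 * (E : ℝ) * (1 / p) := by ring
              _ ≤ _ := h13
      _ = (∏ p ∈ primesUpTo n, (1 - 1 / (p : ℝ))⁻¹) ^ (2 * E) := prod_pow _ _ _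
      _ ≤ (500 * Real.log n) ^ (2 * E) := by
          apply pow_le_pow_left₀
          · apply prod_nonneg
            intro p hp
            have hp1 : (1 : ℝ) < p := by exact_mod_cast (mem_primesUpTo.mp hp).1.one_lt
            have h12 : 0 < 1 - 1 / (p : ℝ) := by
              rw [sub_pos, div_lt_one (by linarith)]
              exact hp1
            positivity
          · exact Helper57.prod_one_sub_inv_inv_le n hn
  have h14 : 0 ≤ Real.log n := Real.log_natCast_nonneg n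
  exact mul_le_mul h8 h10 (prod_nonneg fun _ _ => by positivity) (by positivity)


/-- Cauchy-Schwarz -/
theorem V1_cs (E n : ℕ) (hn : 2 ≤ n) (S : Finset ℕ) (hS : S ⊆ Icc 1 n) (rr : ℕ → ℝ)
    (h0 : ∀ d, 0 ≤ rr d) (R0 R1 : ℝ) (hR0 : 0 ≤ R0) (h1 : ∑ d ∈ S, rr d ≤ R1)
    (h2 : ∀ d ∈ S, rr d ≤ R0 * (1 / (Nat.totient d : ℝ))) :
    (∑ d ∈ S, (E : ℝ) ^ d.primeFactors.card * rr d) ^ 2 ≤
      R0 * ((1 + Real.log n) * (500 * Real.log n) ^ (2 * E ^ 2)) * R1 := by
  have hcs := sum_mul_sq_le_sq_mul_sq S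
    (fun d => (E : ℝ) ^ d.primeFactors.card * Real.sqrt (rr d)) (fun d => Real.sqrt (rr d))
  have e1 : ∑ d ∈ S, (E : ℝ) ^ d.primeFactors.card * rr d =
      ∑ d ∈ S, (E : ℝ) ^ d.primeFactors.card * Real.sqrt (rr d) * Real.sqrt (rr d) := by
    apply sum_congr rfl
    intro d _
    rw [mul_assoc, Real.mul_self_sqrt (h0 d)]
  have e2 : ∑ d ∈ S, ((E : ℝ) ^ d.primeFactors.card * Real.sqrt (rr d)) ^ 2 ≤
      R0 * ((1 + Real.log n) * (500 * Real.log n) ^ (2 * E ^ 2)) := by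
    calc ∑ d ∈ S, ((E : ℝ) ^ d.primeFactors.card * Real.sqrt (rr d)) ^ 2
        ≤ ∑ d ∈ S, R0 * (((E ^ 2 : ℕ) : ℝ) ^ d.primeFactors.card / (Nat.totient d : ℝ)) := by
          apply sum_le_sum
          intro d hd
          rw [mul_pow, Real.sq_sqrt (h0 d), ← pow_mul, mul_comm d.primeFactors.card 2, pow_mul]
          push_cast
          calc ((E : ℝ) ^ 2) ^ d.primeFactors.card * rr d ≤
              ((E : ℝ) ^ 2) ^ d.primeFactors.card * (R0 * (1 / (Nat.totient d : ℝ))) :=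
                mul_le_mul_of_nonneg_left (h2 d hd) (by positivity)
            _ = _ := by ring
      _ = R0 * ∑ d ∈ S, (((E ^ 2 : ℕ) : ℝ) ^ d.primeFactors.card / (Nat.totient d : ℝ)) := by
          rw [mul_sum]
      _ ≤ R0 * ∑ d ∈ Icc 1 n, (((E ^ 2 : ℕ) : ℝ) ^ d.primeFactors.card / (Nat.totient d : ℝ)) := by
          apply mul_le_mul_of_nonneg_left _ hR0
          exact sum_le_sum_of_subset_of_nonneg hS fun _ _ _ => by positivity
      _ ≤ _ := mul_le_mul_of_nonneg_left (V1_w (E ^ 2) n hn) hR0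
  have e3 : ∑ d ∈ S, Real.sqrt (rr d) ^ 2 ≤ R1 := by
    refine le_trans (le_of_eq ?_) h1
    exact sum_congr rfl fun d _ => Real.sq_sqrt (h0 d)
  rw [e1]
  have hl : 0 ≤ Real.log n := Real.log_natCast_nonneg n
  exact hcs.trans (mul_le_mul e2 e3 (sum_nonneg fun _ _ => by positivity) (by positivity))

theorem V1_ev : ∃ n0 : ℕ, 8 ≤ n0 ∧ ∀ n : ℕ, n0 ≤ n → 500 ≤ Real.log n := by
  have h := (Real.tendsto_log_atTop.comp tendsto_natCast_atTop_atTop).eventually_ge_atTop 500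
  rw [Filter.eventually_atTop] at h
  obtain ⟨n0, h⟩ := h
  exact ⟨max n0 8, le_max_right _ _, fun n hn => h n ((le_max_left _ _).trans hn)⟩

/-- numerical conclusion -/
theorem V1_num (A E : ℕ) (n L X : ℝ) (hn : 0 ≤ n) (hL : 500 ≤ L)
    (h : X ^ 2 ≤ 100 * n * L * ((1 + L) * (500 * L) ^ (2 * E ^ 2)) *
      (n / L ^ (2 * A + 4 * E ^ 2 + 10))) : X ≤ n / L ^ A := by
  have hL0 : 0 < L := by linarith
  have hL1 : 1 ≤ L := by linarith
  have h1 : (1 + L) * (500 * L) ^ (2 * E ^ 2) ≤ L ^ 2 * (L ^ 2) ^ (2 * E ^ 2) := by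
    apply mul_le_mul _ _ (by positivity) (by positivity)
    · nlinarith
    · apply pow_le_pow_left₀ (by positivity)
      nlinarith
  have h2 : 100 * n * L * (L ^ 2 * (L ^ 2) ^ (2 * E ^ 2)) * (n / L ^ (2 * A + 4 * E ^ 2 + 10)) ≤
      (n / L ^ A) ^ 2 := by
    have e1 : L ^ (2 * A + 4 * E ^ 2 + 10) = (L ^ A) ^ 2 * ((L ^ 2) ^ (2 * E ^ 2) * L ^ 10) := by
      rw [← pow_mul, ← pow_mul, ← pow_add, ← pow_add]
      congr 1
      ring
    rw [e1, div_pow]
    have e2 : 100 * n * L * (L ^ 2 * (L ^ 2) ^ (2 * E ^ 2)) *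
        (n / ((L ^ A) ^ 2 * ((L ^ 2) ^ (2 * E ^ 2) * L ^ 10))) =
        n ^ 2 / (L ^ A) ^ 2 * (100 / L ^ 7) := by
      field_simp
    rw [e2]
    have e3 : 100 / L ^ 7 ≤ 1 := by
      rw [div_le_one (by positivity)]
      calc (100 : ℝ) ≤ L ^ 1 := by rw [pow_one]; linarith
        _ ≤ L ^ 7 := pow_le_pow_right₀ hL1 (by norm_num)
    calc n ^ 2 / (L ^ A) ^ 2 * (100 / L ^ 7) ≤ n ^ 2 / (L ^ A) ^ 2 * 1 :=
          mul_le_mul_of_nonneg_left e3 (by positivity)
      _ = _ := mul_one _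
  have h3 : X ^ 2 ≤ (n / L ^ A) ^ 2 := by
    refine h.trans (le_trans ?_ h2)
    apply mul_le_mul_of_nonneg_right _ (by positivity)
    exact mul_le_mul_of_nonneg_left h1 (by positivity)
  exact le_of_sq_le_sq h3 (by positivity)


open Pool.Agent.Lib.H59C

/-- a worst residue class -/
theorem V1_max (d : ℕ) (hd : 1 ≤ d) (f : ℕ → ℝ) (hf : ∀ a, f (a % d) = f a) :
    ∃ a0 : ℕ, a0.Coprime d ∧ ∀ a : ℕ, a.Coprime d → f a ≤ f a0 := by
  have hne : ((range d).filter (fun a => a.Coprime d)).Nonempty := by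
    rcases Nat.lt_or_ge 1 d with h | h
    · exact ⟨1, mem_filter.2 ⟨mem_range.2 h, Nat.coprime_one_left d⟩⟩
    · have : d = 1 := by omega
      subst this
      exact ⟨0, mem_filter.2 ⟨mem_range.2 (by omega), Nat.coprime_one_right 0⟩⟩
  obtain ⟨a0, ha0, h⟩ := exists_max_image _ f hne
  rw [mem_filter] at ha0
  refine ⟨a0, ha0.2, fun a ha => ?_⟩
  rw [← hf a]
  apply h
  rw [mem_filter, mem_range]
  refine ⟨Nat.mod_lt _ hd, ?_⟩
  unfold Nat.Coprime at ha ⊢
  rw [← Nat.gcd_rec, Nat.gcd_comm]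
  exact ha

/-- Proof. Put `r0(y, d) = sup over a < d, (a, d) = 1, of |thp y d a - th y/φ(d)|` (`Finset.sup'` or `exists_max_image` over the
nonempty set `{a ∈ range d : a.Coprime d}`; both sides only depend on `a` mod `d`), attained at `a(y, d)`, and
`rr d = r0(y, d)` for `d ≥ 1`. By `bvf A1` with `A1 = 2 A + 2 c + 10`: `∑_{d ≤ DD n B, p1 ∤ d} rr d ≤ n/L^A1`. Trivially (`bv2_triv`)
`rr d ≤ 2 y log y/φ(d) + log y ≤ 100 n L (1/φ(d) + 1/d) ≤ 200 n L/φ(d)` (`d ≤ √n`). By Cauchy-Schwarz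
`∑ E^ω(d) rr d ≤ (∑ E^(2ω(d)) rr d)^(1/2) (∑ rr d)^(1/2) ≤ (200 n L ∑_{d ≤ n} (E^2)^ω(d)/φ(d))^(1/2) (n/L^A1)^(1/2)`, and
`∑_{d ≤ n} (E^2)^ω(d)/φ(d) ≤ ∏_{q ≤ n} (1 + E^2/(q-1) · (1 + 1/q + 1/q^2 + ..)) ≤ exp (4 E^2 ∑_{q ≤ n} 1/q) ≤ L^c` for large `n`
(`c` depends on `E`; `mertens` in `H59C/MER0.lean`, or `Sieve.sum_prod_primeFactors_le`). -/
theorem bvw (A E : ℕ) : ∃ A' B n0 : ℕ, ∀ n : ℕ, n0 ≤ n → ∀ p1 : ℕ, SWp A' n p1 →
    ∀ y : ℕ, y ≤ 8 * n → ∃ rr : ℕ → ℝ, (∀ d, 0 ≤ rr d) ∧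
      (∀ d, 1 ≤ d → d ≤ DD n B → ¬ p1 ∣ d → ∀ a : ℕ, a.Coprime d →
        |thp y d a - th y / (Nat.totient d : ℝ)| ≤ rr d) ∧
      ∑ d ∈ (Icc 1 (DD n B)).filter (fun d => ¬ p1 ∣ d),
        (E : ℝ) ^ d.primeFactors.card * rr d ≤ n / Real.log n ^ A := by
  obtain ⟨A', B, n0, hbv⟩ := bvf (2 * A + 4 * E ^ 2 + 10)
  obtain ⟨n1, hn1, hlog⟩ := V1_ev
  refine ⟨A', B, max n0 n1, fun n hn p1 hSW y hy => ?_⟩
  have hn8 : 8 ≤ n := hn1.trans ((le_max_right _ _).trans hn)
  have hL := hlog n ((le_max_right _ _).trans hn)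
  have hnR : (8 : ℝ) ≤ n := by exact_mod_cast hn8
  have hmod : ∀ d a : ℕ, thp y d (a % d) = thp y d a := by
    intro d a
    unfold thp
    congr 1
    apply filter_congr
    intro q _
    rw [Nat.ModEq, Nat.ModEq, Nat.mod_mod]
  have hex : ∀ d : ℕ, 1 ≤ d → ∃ a0 : ℕ, a0.Coprime d ∧ ∀ a : ℕ, a.Coprime d →
      |thp y d a - th y / (Nat.totient d : ℝ)| ≤ |thp y d a0 - th y / (Nat.totient d : ℝ)| :=
    fun d hd => V1_max d hd (fun a => |thp y d a - th y / (Nat.totient d : ℝ)|)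
      (fun a => by simp only [hmod])
  choose! a ha hmax using hex
  refine ⟨fun d => |thp y d (a d) - th y / (Nat.totient d : ℝ)|, fun _ => abs_nonneg _,
    fun d hd _ _ b hb => hmax d hd b hb, ?_⟩
  have hDn : DD n B ≤ n := by
    unfold DD
    have h1 : Real.sqrt n / Real.log n ^ B ≤ n := by
      refine (div_le_self (Real.sqrt_nonneg _) (one_le_pow₀ (by linarith))).trans ?_
      rw [Real.sqrt_le_left (by linarith)]
      nlinarith
    exact_mod_cast (Nat.floor_le (by positivity)).trans h1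
  have hsub : (Icc 1 (DD n B)).filter (fun d => ¬ p1 ∣ d) ⊆ Icc 1 n := by
    intro d hd
    rw [mem_filter, mem_Icc] at hd
    rw [mem_Icc]
    exact ⟨hd.1.1, hd.1.2.trans hDn⟩
  have hb1 : ∑ d ∈ (Icc 1 (DD n B)).filter (fun d => ¬ p1 ∣ d),
      |thp y d (a d) - th y / (Nat.totient d : ℝ)| ≤
      n / Real.log n ^ (2 * A + 4 * E ^ 2 + 10) := by
    have h1 := hbv n ((le_max_left _ _).trans hn) p1 hSW a y hy
    have h2 : (Icc 1 (DD n B)).filter (fun d => (a d).Coprime d ∧ ¬ p1 ∣ d) =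
        (Icc 1 (DD n B)).filter (fun d => ¬ p1 ∣ d) := by
      apply filter_congr
      intro d hd
      rw [mem_Icc] at hd
      exact ⟨fun h => h.2, fun h => ⟨ha d hd.1, h⟩⟩
    rwa [h2] at h1
  have hb2 : ∀ d ∈ (Icc 1 (DD n B)).filter (fun d => ¬ p1 ∣ d),
      |thp y d (a d) - th y / (Nat.totient d : ℝ)| ≤
      100 * n * Real.log n * (1 / (Nat.totient d : ℝ)) := by
    intro d hd
    have hd' := mem_Icc.1 (hsub hd)
    refine (bv2_triv y d (a d) hd'.1).trans ?_
    have hphi : (0 : ℝ) < Nat.totient d := by exact_mod_cast Nat.totient_pos.2 (by omega)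
    have hphi2 : (Nat.totient d : ℝ) ≤ n := by exact_mod_cast (Nat.totient_le d).trans hd'.2
    have hly : Real.log y ≤ 2 * Real.log n := by
      rcases Nat.eq_zero_or_pos y with h | h
      · rw [h]; simp; linarith
      · have h1 : Real.log y ≤ Real.log (8 * n) := Real.log_le_log (by exact_mod_cast h)
          (by exact_mod_cast hy)
        rw [Real.log_mul (by norm_num) (by positivity)] at h1
        have h2 : Real.log 8 ≤ Real.log n := Real.log_le_log (by norm_num) hnR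
        linarith
    have hy' : (y : ℝ) ≤ 8 * n := by exact_mod_cast hy
    have hly0 : 0 ≤ Real.log y := Real.log_natCast_nonneg y
    have h1 : (y : ℝ) * Real.log y ≤ 8 * n * (2 * Real.log n) :=
      mul_le_mul hy' hly hly0 (by positivity)
    have h2 : 2 * ((y : ℝ) * Real.log y) * (1 / (Nat.totient d : ℝ)) ≤
        2 * (8 * n * (2 * Real.log n)) * (1 / (Nat.totient d : ℝ)) :=
      mul_le_mul_of_nonneg_right (by linarith) (by positivity)
    have h3 : Real.log y ≤ 2 * Real.log n * n * (1 / (Nat.totient d : ℝ)) := by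
      rw [mul_assoc, mul_one_div]
      have h4 : 1 ≤ (n : ℝ) / Nat.totient d := by
        rw [le_div_iff₀ hphi]; linarith
      have h5 : 0 ≤ 2 * Real.log n := by linarith
      nlinarith
    have h6 : 0 < (n : ℝ) * Real.log n * (1 / (Nat.totient d : ℝ)) := by
      have : 0 < Real.log n := by linarith
      positivity
    calc 2 * ((y : ℝ) * Real.log y) * (1 / (Nat.totient d : ℝ)) + Real.log y
        ≤ 2 * (8 * n * (2 * Real.log n)) * (1 / (Nat.totient d : ℝ)) +
          2 * Real.log n * n * (1 / (Nat.totient d : ℝ)) := add_le_add h2 h3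
      _ = 34 * ((n : ℝ) * Real.log n * (1 / (Nat.totient d : ℝ))) := by ring
      _ ≤ 100 * ((n : ℝ) * Real.log n * (1 / (Nat.totient d : ℝ))) := by linarith
      _ = _ := by ring
  have hcs := V1_cs E n (by omega) _ hsub
    (fun d => |thp y d (a d) - th y / (Nat.totient d : ℝ)|) (fun _ => abs_nonneg _)
    (100 * n * Real.log n) _ (by
      have : 0 ≤ Real.log n := by linarith
      positivity) hb1 hb2
  exact V1_num A E n (Real.log n) _ (by linarith) hL hcs

end Pool.Agent.Lib.H57C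
end

-- from Lib.H57C.V2
section

/-!
# Chunk V2: the bilinear Bombieri-Vinogradov theorem, all classes at once, with weights
-/

open Finset

namespace Pool.Agent.Lib.H57C

open Pool.Agent.Lib.H59C

/-- solutions of a linear congruence -/
theorem V2_one (d a m y : ℕ) (hd : 1 ≤ d) (ha : a.Coprime d) :
    (((Icc 1 y).filter (fun q => m * q ≡ a [MOD d])).card : ℝ) ≤ y / d + 1 := by
  rcases ((Icc 1 y).filter (fun q => m * q ≡ a [MOD d])).eq_empty_or_nonempty with h | ⟨q0, h⟩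
  · rw [h, card_empty]
    push_cast
    positivity
  · rw [mem_filter] at h
    have h1 : (m * q0).Coprime d := by
      rw [Nat.Coprime, h.2.gcd_eq]
      exact ha
    have h2 : d.Coprime m := (Nat.Coprime.coprime_mul_right h1).symm
    refine le_trans ?_ (bv2_card y d q0 hd)
    have h3 : ((Icc 1 y).filter (fun q => m * q ≡ a [MOD d])).card ≤
        ((Icc 1 y).filter (fun q => q ≡ q0 [MOD d])).card := by
      apply card_le_card
      apply monotone_filter_right
      intro q _ hq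
      exact Nat.ModEq.cancel_left_of_coprime h2 (hq.trans h.2.symm)
    exact_mod_cast h3

/-- the number of pairs -/
theorem V2_count (n d a M v : ℕ) (hd : 1 ≤ d) (hdn : (d : ℝ) ≤ Real.sqrt n) (ha : a.Coprime d)
    (hMv : M * v ≤ 8 * n) :
    ∑ m ∈ Icc 1 M, (((Icc 1 v).filter (fun q => m * q ≡ a [MOD d])).card : ℝ) ≤ 11 * n / d := by
  have hd0 : (0 : ℝ) < d := by exact_mod_cast hd
  have h1 : ∑ m ∈ Icc 1 M, (((Icc 1 v).filter (fun q => m * q ≡ a [MOD d])).card : ℝ) ≤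
      M * (v / d + 1) := by
    refine (sum_le_sum fun m _ => V2_one d a m v hd ha).trans ?_
    rw [sum_const, nsmul_eq_mul, Nat.card_Icc]
    simp
  have h2 : ∑ m ∈ Icc 1 M, (((Icc 1 v).filter (fun q => m * q ≡ a [MOD d])).card : ℝ) ≤
      v * (M / d + 1) := by
    have e1 : ∑ m ∈ Icc 1 M, (((Icc 1 v).filter (fun q => m * q ≡ a [MOD d])).card : ℝ) =
        ∑ q ∈ Icc 1 v, (((Icc 1 M).filter (fun m => q * m ≡ a [MOD d])).card : ℝ) := by
      simp only [card_filter, Nat.cast_sum]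
      rw [sum_comm]
      apply sum_congr rfl
      intro q _
      apply sum_congr rfl
      intro m _
      rw [mul_comm m q]
    rw [e1]
    refine (sum_le_sum fun q _ => V2_one d a q M hd ha).trans ?_
    rw [sum_const, nsmul_eq_mul, Nat.card_Icc]
    simp
  obtain ⟨c, hc⟩ : ∃ c : ℝ, c = ∑ m ∈ Icc 1 M,
    (((Icc 1 v).filter (fun q => m * q ≡ a [MOD d])).card : ℝ) := ⟨_, rfl⟩
  rw [← hc] at h1 h2 ⊢
  have hM0 : (0 : ℝ) ≤ M := Nat.cast_nonneg _
  have hv0 : (0 : ℝ) ≤ v := Nat.cast_nonneg _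
  have hMvR : (M : ℝ) * v ≤ 8 * n := by exact_mod_cast hMv
  have h3 : c - M * v / d ≤ M := by
    have : (M : ℝ) * (v / d + 1) = M * v / d + M := by ring
    linarith
  have h4 : c - M * v / d ≤ v := by
    have : (v : ℝ) * (M / d + 1) = M * v / d + v := by ring
    linarith
  have hs := Real.sqrt_nonneg n
  have hss : Real.sqrt n * Real.sqrt n = n := Real.mul_self_sqrt (Nat.cast_nonneg _)
  have h5 : c - M * v / d ≤ 3 * Real.sqrt n := by
    rcases le_or_gt (c - M * v / d) 0 with h | h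
    · linarith
    · by_contra h6
      push Not at h6
      have h7 : (3 * Real.sqrt n) * (3 * Real.sqrt n) < M * v :=
        mul_lt_mul'' (h6.trans_le h3) (h6.trans_le h4) (by positivity) (by positivity)
      have h8 : (0 : ℝ) ≤ n := Nat.cast_nonneg _
      nlinarith
  have h6 : Real.sqrt n ≤ n / d := by
    rw [le_div_iff₀ hd0]
    nlinarith
  have h7 : (M : ℝ) * v / d ≤ 8 * n / d := div_le_div_of_nonneg_right hMvR hd0.le
  have h8 : 11 * (n : ℝ) / d = 8 * n / d + 3 * (n / d) := by ring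
  linarith

/-- the difference -/
noncomputable def V2_f (M u v d : ℕ) (α : ℕ → ℝ) (a : ℕ) : ℝ :=
  |∑ m ∈ Icc 1 M, α m * ∑ q ∈ (Ioc u v).filter (fun q => q.Prime ∧ m * q ≡ a [MOD d]),
      Real.log q -
    1 / (Nat.totient d : ℝ) * ((∑ m ∈ (Icc 1 M).filter (fun m => m.Coprime d), α m) *
      ∑ q ∈ (Ioc u v).filter (fun q => q.Prime ∧ q.Coprime d), Real.log q)|

theorem V2_mod (M u v d : ℕ) (α : ℕ → ℝ) (a : ℕ) : V2_f M u v d α (a % d) = V2_f M u v d α a := by
  unfold V2_f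
  have h : ∀ m, (Ioc u v).filter (fun q => q.Prime ∧ m * q ≡ a % d [MOD d]) =
      (Ioc u v).filter (fun q => q.Prime ∧ m * q ≡ a [MOD d]) := by
    intro m
    apply filter_congr
    intro q _
    rw [Nat.ModEq, Nat.ModEq, Nat.mod_mod]
  simp only [h]

theorem V2_triv (n M u v d : ℕ) (α : ℕ → ℝ) (a : ℕ) (hn : 8 ≤ n) (hL : 500 ≤ Real.log n)
    (hα : ∀ m, |α m| ≤ 1) (hM : 1 ≤ M) (hv : 1 ≤ v) (hMv : M * v ≤ 8 * n) (hd : 1 ≤ d)
    (hdn : (d : ℝ) ≤ Real.sqrt n) (ha : a.Coprime d) :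
    V2_f M u v d α a ≤ 100 * n * Real.log n * (1 / (Nat.totient d : ℝ)) := by
  have hnR : (8 : ℝ) ≤ n := by exact_mod_cast hn
  have hd0 : (0 : ℝ) < d := by exact_mod_cast hd
  have hphi : (0 : ℝ) < Nat.totient d := by exact_mod_cast Nat.totient_pos.2 (by omega)
  have hphi2 : (Nat.totient d : ℝ) ≤ d := by exact_mod_cast Nat.totient_le d
  have hvn : v ≤ 8 * n := (Nat.le_mul_of_pos_left v hM).trans hMv
  have hlv : Real.log v ≤ 2 * Real.log n := by
    have h1 : Real.log v ≤ Real.log (8 * n) := Real.log_le_log (by exact_mod_cast hv)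
      (by exact_mod_cast hvn)
    rw [Real.log_mul (by norm_num) (by positivity)] at h1
    have h2 : Real.log 8 ≤ Real.log n := Real.log_le_log (by norm_num) hnR
    linarith
  have hlv0 : 0 ≤ Real.log v := Real.log_natCast_nonneg v
  have hMvR : (M : ℝ) * v ≤ 8 * n := by exact_mod_cast hMv
  have hlq : ∀ q ∈ Ioc u v, 0 ≤ Real.log q ∧ Real.log q ≤ Real.log v := by
    intro q hq
    rw [mem_Ioc] at hq
    refine ⟨Real.log_natCast_nonneg q, ?_⟩
    apply Real.log_le_log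
    · have : 0 < q := by omega
      exact_mod_cast this
    · exact_mod_cast hq.2
  -- first sum
  have h1 : |∑ m ∈ Icc 1 M, α m * ∑ q ∈ (Ioc u v).filter (fun q => q.Prime ∧ m * q ≡ a [MOD d]),
      Real.log q| ≤ Real.log v * (11 * n / d) := by
    refine (abs_sum_le_sum_abs _ _).trans ?_
    refine le_trans ?_ (mul_le_mul_of_nonneg_left (V2_count n d a M v hd hdn ha hMv) hlv0)
    rw [mul_sum]
    apply sum_le_sum
    intro m _
    rw [abs_mul]
    have h2 : |∑ q ∈ (Ioc u v).filter (fun q => q.Prime ∧ m * q ≡ a [MOD d]), Real.log q| ≤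
        Real.log v * (((Icc 1 v).filter (fun q => m * q ≡ a [MOD d])).card : ℝ) := by
      rw [abs_of_nonneg (sum_nonneg fun q hq => (hlq q (mem_filter.1 hq).1).1)]
      refine (sum_le_sum fun q hq => (hlq q (mem_filter.1 hq).1).2).trans ?_
      rw [sum_const, nsmul_eq_mul, mul_comm]
      apply mul_le_mul_of_nonneg_left _ hlv0
      have h3 : ((Ioc u v).filter (fun q => q.Prime ∧ m * q ≡ a [MOD d])).card ≤
          ((Icc 1 v).filter (fun q => m * q ≡ a [MOD d])).card := by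
        apply card_le_card
        intro q hq
        rw [mem_filter, mem_Ioc] at hq
        rw [mem_filter, mem_Icc]
        exact ⟨⟨by omega, hq.1.2⟩, hq.2.2⟩
      exact_mod_cast h3
    calc |α m| * |∑ q ∈ (Ioc u v).filter (fun q => q.Prime ∧ m * q ≡ a [MOD d]), Real.log q|
        ≤ 1 * (Real.log v * (((Icc 1 v).filter (fun q => m * q ≡ a [MOD d])).card : ℝ)) :=
          mul_le_mul (hα m) h2 (abs_nonneg _) (by norm_num)
      _ = _ := one_mul _
  -- main term
  have h2 : |1 / (Nat.totient d : ℝ) * ((∑ m ∈ (Icc 1 M).filter (fun m => m.Coprime d), α m) *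
      ∑ q ∈ (Ioc u v).filter (fun q => q.Prime ∧ q.Coprime d), Real.log q)| ≤
      1 / (Nat.totient d : ℝ) * (M * (v * Real.log v)) := by
    rw [abs_mul, abs_mul, abs_of_nonneg (by positivity : (0 : ℝ) ≤ 1 / (Nat.totient d : ℝ))]
    apply mul_le_mul_of_nonneg_left _ (by positivity)
    apply mul_le_mul _ _ (abs_nonneg _) (Nat.cast_nonneg _)
    · refine (abs_sum_le_sum_abs _ _).trans ((sum_le_sum fun m _ => hα m).trans ?_)
      rw [sum_const, nsmul_eq_mul, mul_one]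
      have h3 : ((Icc 1 M).filter (fun m => m.Coprime d)).card ≤ M := by
        refine (card_filter_le _ _).trans ?_
        rw [Nat.card_Icc]
        omega
      exact_mod_cast h3
    · rw [abs_of_nonneg (sum_nonneg fun q hq => (hlq q (mem_filter.1 hq).1).1)]
      refine (sum_le_sum fun q hq => (hlq q (mem_filter.1 hq).1).2).trans ?_
      rw [sum_const, nsmul_eq_mul]
      apply mul_le_mul_of_nonneg_right _ hlv0
      have h3 : ((Ioc u v).filter (fun q => q.Prime ∧ q.Coprime d)).card ≤ v := by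
        refine (card_filter_le _ _).trans ?_
        rw [Nat.card_Ioc]
        omega
      exact_mod_cast h3
  unfold V2_f
  refine (abs_sub _ _).trans ((add_le_add h1 h2).trans ?_)
  have h3 : Real.log v * (11 * n / d) ≤ 22 * (n * Real.log n * (1 / (Nat.totient d : ℝ))) := by
    have h4 : 11 * (n : ℝ) / d ≤ 11 * n / Nat.totient d :=
      div_le_div_of_nonneg_left (by positivity) hphi hphi2
    calc Real.log v * (11 * n / d) ≤ (2 * Real.log n) * (11 * n / Nat.totient d) :=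
          mul_le_mul hlv h4 (by positivity) (by linarith)
      _ = _ := by ring
  have h4 : 1 / (Nat.totient d : ℝ) * (M * (v * Real.log v)) ≤
      16 * (n * Real.log n * (1 / (Nat.totient d : ℝ))) := by
    have h5 : (M : ℝ) * (v * Real.log v) ≤ 8 * n * (2 * Real.log n) := by
      rw [← mul_assoc]
      exact mul_le_mul hMvR hlv hlv0 (by positivity)
    calc 1 / (Nat.totient d : ℝ) * (M * (v * Real.log v)) ≤
        1 / (Nat.totient d : ℝ) * (8 * n * (2 * Real.log n)) :=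
          mul_le_mul_of_nonneg_left h5 (by positivity)
      _ = _ := by ring
  have h5 : 0 ≤ (n : ℝ) * Real.log n * (1 / (Nat.totient d : ℝ)) := by
    have : 0 < Real.log n := by linarith
    positivity
  linarith

/-- Proof. As for `bvw` (file V1, not imported), from `bv_bilf`: `rr d` = the maximum of the left side over the classes `a < d` prime
to `d`. Trivial bound: the number of pairs `(m, q)`, `m ≤ M`, `u < q ≤ v`, `m q ≡ a mod d`, weighted with `log q ≤ 2 L`, is at most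
`2 L ∑_{k ≤ 8 n, k ≡ a (d)} τ(k)`; to avoid the divisor function: for every `m` prime to `d` the `q ≤ v` with `m q ≡ a` are in one
class mod `d`, at most `v/d + 1` of them, and for every `q` prime to `d` at most `M/d + 1` of the `m`
(if `m` is not prime to `d` there is no solution, as `a` is prime to `d`). So the count is `≤ min (M (v/d + 1), v (M/d + 1))
≤ M v/d + min (M, v) ≤ 8 n/d + √(8 n)`, and `d ≤ √n`: at most `12 n/d`. The main term is `≤ M v log v/φ(d)`. So
`rr d ≤ 100 n L/φ(d)`. Cauchy-Schwarz as in V1. -/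
theorem bilw (A E : ℕ) : ∃ A' B n0 : ℕ, ∀ n : ℕ, n0 ≤ n → ∀ p1 : ℕ, SWp A' n p1 →
    ∀ (M u v : ℕ) (α : ℕ → ℝ), (∀ m, |α m| ≤ 1) → (n : ℝ) ^ (1 / 4 : ℝ) ≤ M →
    (n : ℝ) ^ (1 / 4 : ℝ) ≤ v → u ≤ v → M * v ≤ 8 * n → ∃ rr : ℕ → ℝ, (∀ d, 0 ≤ rr d) ∧
      (∀ d, 1 ≤ d → d ≤ DD n B → ¬ p1 ∣ d → ∀ a : ℕ, a.Coprime d →
        |∑ m ∈ Icc 1 M, α m * ∑ q ∈ (Ioc u v).filter (fun q => q.Prime ∧ m * q ≡ a [MOD d]),
            Real.log q -
          1 / (Nat.totient d : ℝ) * ((∑ m ∈ (Icc 1 M).filter (fun m => m.Coprime d), α m) *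
            ∑ q ∈ (Ioc u v).filter (fun q => q.Prime ∧ q.Coprime d), Real.log q)| ≤ rr d) ∧
      ∑ d ∈ (Icc 1 (DD n B)).filter (fun d => ¬ p1 ∣ d),
        (E : ℝ) ^ d.primeFactors.card * rr d ≤ n / Real.log n ^ A := by
  obtain ⟨A', B, n0, hbv⟩ := bv_bilf (2 * A + 4 * E ^ 2 + 10)
  obtain ⟨n1, hn1, hlog⟩ := V1_ev
  refine ⟨A', B, max n0 n1, fun n hn p1 hSW M u v α hα hM hv huv hMv => ?_⟩
  have hn8 : 8 ≤ n := hn1.trans ((le_max_right _ _).trans hn)
  have hL := hlog n ((le_max_right _ _).trans hn)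
  have hnR : (8 : ℝ) ≤ n := by exact_mod_cast hn8
  have hn4 : (1 : ℝ) ≤ (n : ℝ) ^ (1 / 4 : ℝ) := Real.one_le_rpow (by linarith) (by norm_num)
  have hM1 : 1 ≤ M := by exact_mod_cast hn4.trans hM
  have hv1 : 1 ≤ v := by exact_mod_cast hn4.trans hv
  have hex : ∀ d : ℕ, 1 ≤ d → ∃ a0 : ℕ, a0.Coprime d ∧ ∀ a : ℕ, a.Coprime d →
      V2_f M u v d α a ≤ V2_f M u v d α a0 :=
    fun d hd => V1_max d hd (V2_f M u v d α) (V2_mod M u v d α)
  choose! a ha hmax using hex
  refine ⟨fun d => V2_f M u v d α (a d), fun _ => abs_nonneg _,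
    fun d hd _ _ b hb => hmax d hd b hb, ?_⟩
  have hDs : (DD n B : ℝ) ≤ Real.sqrt n := by
    unfold DD
    refine (Nat.floor_le (by positivity)).trans ?_
    exact div_le_self (Real.sqrt_nonneg _) (one_le_pow₀ (by linarith))
  have hDn : DD n B ≤ n := by
    have h1 : Real.sqrt n ≤ n := by
      rw [Real.sqrt_le_left (by linarith)]
      nlinarith
    exact_mod_cast hDs.trans h1
  have hsub : (Icc 1 (DD n B)).filter (fun d => ¬ p1 ∣ d) ⊆ Icc 1 n := by
    intro d hd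
    rw [mem_filter, mem_Icc] at hd
    rw [mem_Icc]
    exact ⟨hd.1.1, hd.1.2.trans hDn⟩
  have hb1 : ∑ d ∈ (Icc 1 (DD n B)).filter (fun d => ¬ p1 ∣ d), V2_f M u v d α (a d) ≤
      n / Real.log n ^ (2 * A + 4 * E ^ 2 + 10) := by
    have h1 := hbv n ((le_max_left _ _).trans hn) p1 hSW a M u v α hα hM hv huv hMv
    have h2 : (Icc 1 (DD n B)).filter (fun d => (a d).Coprime d ∧ ¬ p1 ∣ d) =
        (Icc 1 (DD n B)).filter (fun d => ¬ p1 ∣ d) := by
      apply filter_congr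
      intro d hd
      rw [mem_Icc] at hd
      exact ⟨fun h => h.2, fun h => ⟨ha d hd.1, h⟩⟩
    rwa [h2] at h1
  have hb2 : ∀ d ∈ (Icc 1 (DD n B)).filter (fun d => ¬ p1 ∣ d),
      V2_f M u v d α (a d) ≤ 100 * n * Real.log n * (1 / (Nat.totient d : ℝ)) := by
    intro d hd
    have hd' := mem_Icc.1 (hsub hd)
    rw [mem_filter, mem_Icc] at hd
    have hdn : (d : ℝ) ≤ Real.sqrt n := le_trans (by exact_mod_cast hd.1.2) hDs
    exact V2_triv n M u v d α (a d) hn8 hL hα hM1 hv1 hMv hd'.1 hdn (ha d hd'.1)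
  have hcs := V1_cs E n (by omega) _ hsub
    (fun d => V2_f M u v d α (a d)) (fun _ => abs_nonneg _)
    (100 * n * Real.log n) _ (by
      have : 0 ≤ Real.log n := by linarith
      positivity) hb1 hb2
  exact V1_num A E n (Real.log n) _ (by linarith) hL hcs

end Pool.Agent.Lib.H57C
end

-- from Lib.H57C.V3
section

/-!
# Chunk V3: level of distribution of the `t` with `t + h` prime
-/

open Finset

namespace Pool.Agent.Lib.H57C

open Pool.Agent.Lib.H59C

/-- the product of `1/(q-1)` -/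
theorem V3_gq (m : ℕ) (hm : Squarefree m) :
    ∏ q ∈ m.primeFactors, gq q = 1 / (Nat.totient m : ℝ) := by
  have h1 : Nat.totient m = ∏ q ∈ m.primeFactors, (q - 1) := by
    have h2 := Nat.totient_mul_prod_primeFactors m
    rw [Nat.prod_primeFactors_of_squarefree hm, mul_comm] at h2
    exact Nat.eq_of_mul_eq_mul_left (Nat.pos_of_ne_zero hm.ne_zero) h2
  rw [h1]
  push_cast
  rw [one_div, ← prod_inv_distrib]
  apply prod_congr rfl
  intro q hq
  have h3 := (Nat.prime_of_mem_primeFactors hq).one_le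
  unfold gq
  rw [one_div, Nat.cast_sub h3, Nat.cast_one]

theorem V3_coprime (a m : ℕ) (hm : m ≠ 0) (h : ∀ q ∈ m.primeFactors, ¬ q ∣ a) : a.Coprime m := by
  by_contra hc
  obtain ⟨q, hq, ha, hqm⟩ := Nat.Prime.not_coprime_iff_dvd.1 hc
  exact h q (Nat.mem_primeFactors.2 ⟨hq, hqm, hm⟩) ha

theorem V3_sum (m h y1 y2 c : ℕ) (hy : h ≤ y1) (h12 : y1 ≤ y2) :
    ∑ p ∈ (Sq y1 y2).filter (fun p => p - h ≡ c [MOD m]), lg p =
      thp y2 m (c + h) - thp y1 m (c + h) := by
  have h0 : ∀ p ∈ Ioc y1 y2, (p - h ≡ c [MOD m] ↔ p ≡ c + h [MOD m]) := by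
    intro p hp
    rw [mem_Ioc] at hp
    have h3 : p - h + h = p := by omega
    constructor
    · intro h1
      have h2 := Nat.ModEq.add_right h h1
      rwa [h3] at h2
    · intro h1
      rw [← h3] at h1
      exact Nat.ModEq.add_right_cancel' h h1
  unfold thp Sq lg
  rw [filter_filter]
  have h1 : (Icc 1 y2).filter (fun q => q.Prime ∧ q ≡ c + h [MOD m]) =
      (Icc 1 y1).filter (fun q => q.Prime ∧ q ≡ c + h [MOD m]) ∪
        (Ioc y1 y2).filter (fun q => q.Prime ∧ q ≡ c + h [MOD m]) := by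
    ext q
    simp only [mem_filter, mem_Icc, mem_union, mem_Ioc]
    constructor
    · rintro ⟨⟨h1, h2⟩, h3⟩
      rcases le_or_gt q y1 with h4 | h4
      · left; exact ⟨⟨h1, h4⟩, h3⟩
      · right; exact ⟨⟨h4, h2⟩, h3⟩
    · rintro (⟨⟨h1, h2⟩, h3⟩ | ⟨⟨h1, h2⟩, h3⟩)
      · exact ⟨⟨h1, by omega⟩, h3⟩
      · exact ⟨⟨by omega, h2⟩, h3⟩
  have h2 : Disjoint ((Icc 1 y1).filter (fun q => q.Prime ∧ q ≡ c + h [MOD m]))
      ((Ioc y1 y2).filter (fun q => q.Prime ∧ q ≡ c + h [MOD m])) := by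
    rw [Finset.disjoint_left]
    intro q hq hq'
    simp only [mem_filter, mem_Icc, mem_Ioc] at hq hq'
    omega
  rw [h1, sum_union h2]
  have h3 : (Ioc y1 y2).filter (fun a => a.Prime ∧ a - h ≡ c [MOD m]) =
      (Ioc y1 y2).filter (fun q => q.Prime ∧ q ≡ c + h [MOD m]) := by
    apply filter_congr
    intro p hp
    rw [h0 p hp]
  rw [h3]
  ring

/-- Proof. `bvw (A + 1) E` at `y2` and at `y1`, `rr = rr_2 + rr_1`. For `m` squarefree and a class `c` with `¬ q ∣ c + h` for all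
`q ∣ m`: `(c + h).Coprime m`; for a prime `p ∈ (y1, y2]`, `p ≥ h`: `p - h ≡ c` iff `p ≡ c + h [MOD m]`, so the sum is
`thp y2 m (c + h) - thp y1 m (c + h)`, `XX y1 y2 = th y2 - th y1` (`XX_eq`), and `∏_{q ∣ m} gq q = 1/φ(m)` (`m` squarefree,
`Nat.totient_eq_prod_factorization` or `Nat.prod_primeFactors_of_squarefree`). `2 n/L^(A+1) ≤ n/L^A`. -/
theorem lvlB (A E : ℕ) : ∃ A' B n0 : ℕ, ∀ n : ℕ, n0 ≤ n → ∀ p1 : ℕ, SWp A' n p1 →
    ∀ h y1 y2 : ℕ, h ≤ y1 → y1 ≤ y2 → y2 ≤ 2 * n →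
      Lvl (sB h y1 y2) p1 (DD n B) E (n / Real.log n ^ A) := by
  obtain ⟨A', B, n0, hbv⟩ := bvw (A + 1) E
  obtain ⟨n1, hn1, hlog⟩ := V1_ev
  refine ⟨A', B, max n0 n1, fun n hn p1 hSW h y1 y2 hy h12 hy2 => ?_⟩
  have hL := hlog n ((le_max_right _ _).trans hn)
  obtain ⟨r1, h01, hr1, hs1⟩ := hbv n ((le_max_left _ _).trans hn) p1 hSW y1 (by omega)
  obtain ⟨r2, h02, hr2, hs2⟩ := hbv n ((le_max_left _ _).trans hn) p1 hSW y2 (by omega)
  refine ⟨fun d => r1 d + r2 d, fun d => add_nonneg (h01 d) (h02 d), ?_, ?_⟩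
  · intro m hm hmD hp1 c hc
    have hm1 : 1 ≤ m := Nat.pos_of_ne_zero hm.ne_zero
    have hcop : (c + h).Coprime m := V3_coprime _ _ hm.ne_zero hc
    have e1 := hr1 m hm1 hmD hp1 _ hcop
    have e2 := hr2 m hm1 hmD hp1 _ hcop
    have e3 : ∑ i ∈ (sB h y1 y2).S.filter (fun i => (sB h y1 y2).x i ≡ c [MOD m]),
        (sB h y1 y2).wt i - (sB h y1 y2).X * ∏ q ∈ m.primeFactors, (sB h y1 y2).hd q =
        (thp y2 m (c + h) - th y2 / (Nat.totient m : ℝ)) -
          (thp y1 m (c + h) - th y1 / (Nat.totient m : ℝ)) := by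
      change ∑ p ∈ (Sq y1 y2).filter (fun p => p - h ≡ c [MOD m]), lg p -
        XX y1 y2 * ∏ q ∈ m.primeFactors, gq q = _
      rw [V3_sum m h y1 y2 c hy h12, V3_gq m hm, XX_eq h12]
      ring
    rw [e3]
    refine (abs_sub _ _).trans ((add_le_add e2 e1).trans ?_)
    rw [add_comm]
  · have e1 : ∑ m ∈ (Icc 1 (DD n B)).filter (fun m => Squarefree m ∧ ¬ p1 ∣ m),
        (E : ℝ) ^ m.primeFactors.card * (r1 m + r2 m) ≤
        ∑ m ∈ (Icc 1 (DD n B)).filter (fun m => ¬ p1 ∣ m),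
          (E : ℝ) ^ m.primeFactors.card * (r1 m + r2 m) := by
      apply sum_le_sum_of_subset_of_nonneg
      · exact monotone_filter_right _ fun m _ hm => hm.2
      · intro m _ _
        have := h01 m
        have := h02 m
        positivity
    refine e1.trans ?_
    simp only [mul_add]
    rw [sum_add_distrib]
    refine (add_le_add hs1 hs2).trans ?_
    have hL0 : 0 < Real.log n := by linarith
    have e2 : (n : ℝ) / Real.log n ^ (A + 1) + n / Real.log n ^ (A + 1) =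
        n / Real.log n ^ A * (2 / Real.log n) := by
      rw [pow_succ]
      field_simp
      ring
    rw [e2]
    have e3 : 2 / Real.log n ≤ 1 := by
      rw [div_le_one hL0]
      linarith
    calc (n : ℝ) / Real.log n ^ A * (2 / Real.log n) ≤ n / Real.log n ^ A * 1 :=
          mul_le_mul_of_nonneg_left e3 (by positivity)
      _ = _ := mul_one _

end Pool.Agent.Lib.H57C
end

-- from Lib.H57C.V4
section

/-!
# Chunk V4: level of distribution of the switched sequence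
-/

open Finset

namespace Pool.Agent.Lib.H57C

open Pool.Agent.Lib.H59C

theorem V4_cast (n m : ℕ) (hm1 : 1 ≤ m) (hmn : m ≤ n) : ((n.factorial - 1 : ℕ) : ZMod m) = -1 := by
  have h1 : ((n.factorial : ℕ) : ZMod m) = 0 :=
    (ZMod.natCast_eq_zero_iff _ _).2 (Nat.dvd_factorial hm1 hmn)
  rw [Nat.cast_sub (Nat.factorial_pos n), h1]
  simp

theorem V4_iff (n m : ℕ) (hm1 : 1 ≤ m) (hmn : m ≤ n) (x : ℕ × ℕ) (c : ℕ) :
    xv n x ≡ c [MOD m] ↔ x.1 * x.2 ≡ n + (n.factorial - 1) * c [MOD m] := by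
  rw [← ZMod.natCast_eq_natCast_iff, ← ZMod.natCast_eq_natCast_iff]
  unfold xv
  rw [Nat.cast_add, Nat.cast_mul (n.factorial - 1), Nat.cast_add, Nat.cast_mul (n.factorial - 1),
    V4_cast n m hm1 hmn]
  constructor
  · intro h
    linear_combination -h
  · intro h
    linear_combination -h

theorem V4_cop (n m c : ℕ) (hm : Squarefree m) (hmn : m ≤ n)
    (hc : ∀ q ∈ m.primeFactors, ¬ c ≡ n [MOD q]) : (n + (n.factorial - 1) * c).Coprime m := by
  refine V3_coprime _ _ hm.ne_zero ?_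
  intro q hq hd
  apply hc q hq
  have hq' := Nat.mem_primeFactors.1 hq
  have hqn : q ≤ n := (Nat.le_of_dvd (Nat.pos_of_ne_zero hm.ne_zero) hq'.2.1).trans hmn
  have h1 := (ZMod.natCast_eq_zero_iff _ _).2 hd
  rw [Nat.cast_add, Nat.cast_mul, V4_cast n q hq'.1.one_le hqn] at h1
  rw [← ZMod.natCast_eq_natCast_iff]
  linear_combination -h1

open Classical in
theorem V4_S (n M u v m c a : ℕ) (α : ℕ → ℝ)
    (h : ∀ x : ℕ × ℕ, xv n x ≡ c [MOD m] ↔ x.1 * x.2 ≡ a [MOD m]) :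
    ∑ x ∈ (BX M u v).filter (fun x => xv n x ≡ c [MOD m]), wB α x =
      ∑ k ∈ Icc 1 M, α k * ∑ q ∈ (Ioc u v).filter (fun q => q.Prime ∧ k * q ≡ a [MOD m]),
        Real.log q := by
  unfold BX
  rw [sum_filter, sum_product]
  refine sum_congr rfl fun k _ => ?_
  unfold Sq wB lg
  rw [mul_sum, ← filter_filter, sum_filter (s := (Ioc u v).filter Nat.Prime)]
  refine sum_congr rfl fun q _ => ?_
  by_cases hq : k * q ≡ a [MOD m]
  · rw [if_pos hq, if_pos ((h (k, q)).2 hq)]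
  · rw [if_neg hq, if_neg (fun h' => hq ((h (k, q)).1 h'))]

/-- Proof. `bilw (A + 1) E`. Let `m ≤ DD n B` be squarefree (so `m ≤ n`, `m ∣ n!`), `c` a class with `¬ c ≡ n [MOD q]` for all
`q ∣ m`. `xv n x = n + (n! - 1) x1 x2 ≡ c` mod `m` iff `x1 x2 ≡ a`, `a = n + (n! - 1) c` (both sides times `-1 ≡ n! - 1`), and `a` is prime
to `m` (`a ≡ n - c`). So the sum over the class is the sum of `bilw` (`CBR_S`-like), and the main terms
`XB M u v α/φ(m)` and `(1/φ(m)) (∑_{(m',m)=1} α)(∑_{(q,m)=1} log q)` differ by at most `(1/φ(m)) 40 (log n)^2 n^(9/10)`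
(`CBR_A`, `CBR_Q`, `CBR_main`, `CBR_num` in `H59C/CBR.lean`, with `y = n^(1/10)`). So `rr m = rr_bil m + 40 L^2 n^(9/10)/φ(m)`,
and `∑_{m ≤ n} E^ω(m)/φ(m) ≤ n^(1/100)` for large `n` (as in V1, or `E^ω(m) ≤ C m^(1/1000)`). -/
theorem lvlC (A E : ℕ) : ∃ A' B n0 : ℕ, ∀ n : ℕ, n0 ≤ n → ∀ p1 : ℕ, p1.Prime → SWp A' n p1 →
    ∀ (M u v : ℕ) (α : ℕ → ℝ), (∀ m, 0 ≤ α m ∧ α m ≤ 1) →
    (∀ m, α m ≠ 0 → ∀ r : ℕ, r.Prime → r ∣ m → (n : ℝ) ^ (1 / 10 : ℝ) ≤ r) →
    (n : ℝ) ^ (1 / 4 : ℝ) ≤ M → (n : ℝ) ^ (1 / 4 : ℝ) ≤ v → u ≤ v → M * v ≤ 8 * n →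
      Lvl (sC n M u v α) p1 (DD n B) E (n / Real.log n ^ A) := by
  obtain ⟨A', B, n1, hbil⟩ := bilw (A + 1) E
  obtain ⟨n2, hn2⟩ := bv2_large 500 (A + 4 * E + 6)
  refine ⟨A', B, max n1 (max n2 8), fun n hn p1 hp1 hSW M u v α hα hαr hM hv huv hMv => ?_⟩
  have hn1' : n1 ≤ n := (le_max_left _ _).trans hn
  have hn2' : n2 ≤ n := ((le_max_left _ _).trans (le_max_right _ _)).trans hn
  have hn8 : 8 ≤ n := ((le_max_right _ _).trans (le_max_right _ _)).trans hn
  obtain ⟨hL, hLn⟩ := hn2 n hn2'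
  have hn1 : (1 : ℝ) ≤ n := by
    have : 1 ≤ n := by omega
    exact_mod_cast this
  have hn0 : (0 : ℝ) < n := by linarith
  obtain ⟨rb, hrb0, hrb, hrbs⟩ := hbil n hn1' p1 hSW M u v α (fun m => by
    rw [abs_of_nonneg (hα m).1]; exact (hα m).2) hM hv huv hMv
  set D := DD n B with hD
  set L := Real.log n with hLdef
  have hL0 : 0 < L := by linarith
  have hDn : D ≤ n := by
    have h1 : (D : ℝ) ≤ Real.sqrt n / L ^ B := by
      rw [hD]
      unfold DD
      exact Nat.floor_le (by positivity)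
    have h2 : Real.sqrt n / L ^ B ≤ Real.sqrt n :=
      div_le_self (Real.sqrt_nonneg _) (one_le_pow₀ (by linarith))
    have h3 : Real.sqrt n ≤ n := by
      rw [Real.sqrt_le_left (by linarith)]
      nlinarith
    have h4 : (D : ℝ) ≤ n := by linarith
    exact_mod_cast h4
  set W : ℝ := 40 * L ^ 2 * ((n : ℝ) / (n : ℝ) ^ (1 / 10 : ℝ)) with hW
  have hW0 : 0 ≤ W := by positivity
  refine ⟨fun m => rb m + 1 / (Nat.totient m : ℝ) * W, fun m => add_nonneg (hrb0 m)
    (by positivity), ?_, ?_⟩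
  · intro m hm hmD hpm c hc
    have hd1 : 1 ≤ m := Nat.pos_of_ne_zero hm.ne_zero
    have hmn : m ≤ n := hmD.trans hDn
    obtain ⟨a, ha⟩ : ∃ a : ℕ, a = n + (n.factorial - 1) * c := ⟨_, rfl⟩
    have ha1 : ∀ x : ℕ × ℕ, xv n x ≡ c [MOD m] ↔ x.1 * x.2 ≡ a [MOD m] := by
      intro x
      rw [ha]
      exact V4_iff n m hd1 hmn x c
    have hcop : a.Coprime m := by
      rw [ha]
      exact V4_cop n m c hm hmn hc
    have hb := hrb m hd1 hmD hpm a hcop
    have hph : (0 : ℝ) < Nat.totient m := by exact_mod_cast Nat.totient_pos.2 hd1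
    have hAd0 : 0 ≤ ∑ k ∈ (Icc 1 M).filter (fun k => k.Coprime m), α k :=
      sum_nonneg fun k _ => (hα k).1
    have hAdM : ∑ k ∈ (Icc 1 M).filter (fun k => k.Coprime m), α k ≤ M := by
      refine (sum_le_sum fun k _ => (hα k).2).trans ?_
      rw [sum_const, nsmul_eq_mul, mul_one]
      have : ((Icc 1 M).filter (fun k => k.Coprime m)).card ≤ M := by
        refine (card_filter_le _ _).trans ?_
        simp
      exact_mod_cast this
    have hAA : 0 ≤ ∑ k ∈ Icc 1 M, α k - ∑ k ∈ (Icc 1 M).filter (fun k => k.Coprime m), α k := by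
      rw [sub_nonneg]
      exact sum_le_sum_of_subset_of_nonneg (filter_subset _ _) fun k _ _ => (hα k).1
    have hAA' := CBR_A M m hd1 α hα ((n : ℝ) ^ (1 / 10 : ℝ)) (Real.rpow_pos_of_pos hn0 _) hαr
    obtain ⟨hQ1, hQ2⟩ := CBR_Q u v m hd1
    have hmain := CBR_main hAA (by convert hAA' using 2) (CBR_XX_nonneg u v)
      (by convert hQ1 using 2) (by convert hQ2 using 2) hAd0 hAdM
    have hnum := CBR_num hn8 (by linarith) hd1 hmn hv hMv u huv
    have hm2 := hmain.trans hnum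
    have hS : ∑ x ∈ (sC n M u v α).S.filter (fun x => (sC n M u v α).x x ≡ c [MOD m]),
        (sC n M u v α).wt x = ∑ k ∈ Icc 1 M, α k *
          ∑ q ∈ (Ioc u v).filter (fun q => q.Prime ∧ k * q ≡ a [MOD m]), Real.log q := by
      have h := V4_S n M u v m c a α ha1
      change ∑ x ∈ (BX M u v).filter (fun x => xv n x ≡ c [MOD m]), wB α x = _
      convert h using 2
    have hprod : (sC n M u v α).X * ∏ q ∈ m.primeFactors, (sC n M u v α).hd q =
        H59C.XB M u v α / (Nat.totient m : ℝ) := by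
      change H59C.XB M u v α * ∏ q ∈ m.primeFactors, gq q = _
      rw [V3_gq m hm]
      ring
    rw [hS, hprod]
    set S := ∑ k ∈ Icc 1 M, α k *
      ∑ q ∈ (Ioc u v).filter (fun q => q.Prime ∧ k * q ≡ a [MOD m]), Real.log q with hSd
    set Ad := ∑ k ∈ (Icc 1 M).filter (fun k => k.Coprime m), α k with hAdd
    set Qd := ∑ q ∈ (Ioc u v).filter (fun q => q.Prime ∧ q.Coprime m), Real.log q with hQdd
    have e : S - H59C.XB M u v α / (Nat.totient m : ℝ) =
        (S - 1 / (Nat.totient m : ℝ) * (Ad * Qd)) -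
        1 / (Nat.totient m : ℝ) * ((∑ k ∈ Icc 1 M, α k) * XX u v - Ad * Qd) := by
      unfold H59C.XB
      ring
    rw [e]
    refine (abs_sub _ _).trans ?_
    apply add_le_add
    · exact hb
    · rw [abs_mul, abs_of_nonneg (by positivity : (0 : ℝ) ≤ 1 / (Nat.totient m : ℝ))]
      exact mul_le_mul_of_nonneg_left hm2 (by positivity)
  · have e1 : ∑ m ∈ (Icc 1 D).filter (fun m => Squarefree m ∧ ¬ p1 ∣ m),
        (E : ℝ) ^ m.primeFactors.card * (rb m + 1 / (Nat.totient m : ℝ) * W) ≤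
        ∑ m ∈ (Icc 1 D).filter (fun m => ¬ p1 ∣ m),
          (E : ℝ) ^ m.primeFactors.card * (rb m + 1 / (Nat.totient m : ℝ) * W) := by
      apply sum_le_sum_of_subset_of_nonneg
      · exact monotone_filter_right _ fun m _ hm => hm.2
      · intro m _ _
        have := hrb0 m
        positivity
    refine e1.trans ?_
    simp only [mul_add]
    rw [sum_add_distrib]
    have e2 : ∑ m ∈ (Icc 1 D).filter (fun m => ¬ p1 ∣ m),
        (E : ℝ) ^ m.primeFactors.card * (1 / (Nat.totient m : ℝ) * W) ≤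
        ((1 + L) * (500 * L) ^ (2 * E)) * W := by
      have h1 : ∀ m ∈ (Icc 1 D).filter (fun m => ¬ p1 ∣ m),
          (E : ℝ) ^ m.primeFactors.card * (1 / (Nat.totient m : ℝ) * W) =
          (E : ℝ) ^ m.primeFactors.card / (Nat.totient m : ℝ) * W := by
        intro m _
        ring
      rw [sum_congr rfl h1, ← sum_mul]
      apply mul_le_mul_of_nonneg_right _ hW0
      refine le_trans ?_ (V1_w E n (by omega))
      apply sum_le_sum_of_subset_of_nonneg
      · intro m hm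
        rw [mem_filter, mem_Icc] at hm
        rw [mem_Icc]
        exact ⟨hm.1.1, hm.1.2.trans hDn⟩
      · intro m _ _
        positivity
    refine (add_le_add hrbs e2).trans ?_
    have h3 : ((1 + L) * (500 * L) ^ (2 * E)) * W ≤ n / L ^ (A + 1) := by
      have hy0 : (0 : ℝ) < (n : ℝ) ^ (1 / 10 : ℝ) := Real.rpow_pos_of_pos hn0 _
      have h4 : (n : ℝ) ^ (1 / 20 : ℝ) ≤ (n : ℝ) ^ (1 / 10 : ℝ) :=
        Real.rpow_le_rpow_of_exponent_le hn1 (by norm_num)
      have h5 : ((1 + L) * (500 * L) ^ (2 * E)) * (40 * L ^ 2) * L ^ (A + 1) ≤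
          (n : ℝ) ^ (1 / 10 : ℝ) := by
        have h6 : (1 + L) * (500 * L) ^ (2 * E) ≤ L ^ 2 * (L ^ 2) ^ (2 * E) := by
          apply mul_le_mul _ _ (by positivity) (by positivity)
          · nlinarith
          · apply pow_le_pow_left₀ (by positivity)
            nlinarith
        calc ((1 + L) * (500 * L) ^ (2 * E)) * (40 * L ^ 2) * L ^ (A + 1)
            ≤ (L ^ 2 * (L ^ 2) ^ (2 * E)) * (L * L ^ 2) * L ^ (A + 1) := by
              apply mul_le_mul_of_nonneg_right _ (by positivity)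
              apply mul_le_mul h6 _ (by positivity) (by positivity)
              apply mul_le_mul_of_nonneg_right _ (by positivity)
              linarith
          _ = 1 * L ^ (A + 4 * E + 6) := by
              rw [← pow_mul]
              ring
          _ ≤ 500 * L ^ (A + 4 * E + 6) :=
              mul_le_mul_of_nonneg_right (by norm_num) (by positivity)
          _ ≤ _ := hLn.trans h4
      rw [hW, le_div_iff₀ (by positivity)]
      calc (1 + L) * (500 * L) ^ (2 * E) * (40 * L ^ 2 * ((n : ℝ) / (n : ℝ) ^ (1 / 10 : ℝ))) *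
            L ^ (A + 1) = (((1 + L) * (500 * L) ^ (2 * E)) * (40 * L ^ 2) * L ^ (A + 1)) *
              ((n : ℝ) / (n : ℝ) ^ (1 / 10 : ℝ)) := by ring
        _ ≤ (n : ℝ) ^ (1 / 10 : ℝ) * ((n : ℝ) / (n : ℝ) ^ (1 / 10 : ℝ)) :=
            mul_le_mul_of_nonneg_right h5 (by positivity)
        _ = n := by rw [mul_comm, div_mul_cancel₀ _ hy0.ne']
    have e2' : (n : ℝ) / L ^ (A + 1) + n / L ^ (A + 1) = n / L ^ A * (2 / L) := by
      rw [pow_succ]
      field_simp
      ring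
    have e3 : 2 / L ≤ 1 := by
      rw [div_le_one hL0]
      linarith
    calc (n : ℝ) / L ^ (A + 1) + ((1 + L) * (500 * L) ^ (2 * E)) * W ≤
          (n : ℝ) / L ^ (A + 1) + n / L ^ (A + 1) := by linarith
      _ = n / L ^ A * (2 / L) := e2'
      _ ≤ n / L ^ A * 1 := mul_le_mul_of_nonneg_left e3 (by positivity)
      _ = _ := mul_one _

end Pool.Agent.Lib.H57C
end
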