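import Pool.Agent.Lib.H1M.RV.M056

/-! Merged copies (to shorten the build) of Lib.H57C.X2. -/

-- from Lib.H57C.X2
section

/-!
# Chunk X2: construction of the weight, with expansions
-/

open Finset

namespace Pool.Agent.Lib.H57C

open Pool.Agent.Lib.H15P Pool.Agent.Lib.H92G Pool.Agent.Lib.H57M

theorem X2_const_mul {P : Finset ℕ} {G : Finset {p // p ∈ P} → ℝ} {C D c : ℝ}
    (h : Ex1 P G C D) (hc : 0 ≤ c) : Ex1 P (fun A => c * G A) (C * c) D := by
  obtain ⟨g, h1, h2, h3⟩ := h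
  refine ⟨fun T => c * g T, fun A => ?_, fun T => ?_, fun T hT => h3 T ?_⟩
  · show c * G A = _
    rw [h1 A, Finset.mul_sum]
  · rw [abs_mul, abs_of_nonneg hc, mul_comm]
    exact mul_le_mul_of_nonneg_right (h2 T) hc
  · intro h0
    apply hT
    show c * g T = 0
    rw [h0, mul_zero]

theorem X2_prod (f : ℕ → ℝ) {m n : ℕ} (h : m = n) : ∏ i : Fin m, f i = ∏ i : Fin n, f i := by
  subst h
  rfl

theorem X2_mono {P : Finset ℕ} {G : Finset {p // p ∈ P} → ℝ} {C C' D : ℝ}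
    (h : Ex1 P G C D) (hC : C ≤ C') : Ex1 P G C' D := by
  obtain ⟨g, h1, h2, h3⟩ := h
  exact ⟨g, h1, fun T => (h2 T).trans hC, h3⟩

theorem X2_core (n W r0 : ℕ) (T c lv : ℝ) (hKW : 4 * (4000 ^ n) ^ 2 ≤ W)
    (hr0 : ∀ c S : ℕ, ∑ s ∈ Ioc (2 * (r0 + c)) S, (16 * sig) ^ s / (s.factorial : ℝ)
      ≤ (1 / 4) ^ (c + 1))
    (hT1 : Real.log W ≤ T / 4000 ^ n) (hT2 : 2 ≤ T / 4000 ^ n) (hc0 : 0 ≤ c)
    (hlog : 0 < Real.log W)
    (hc : c ^ 2 * (8000 * 4000 ^ n * Real.log W) = T) (hlv1 : 1 ≤ lv)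
    (hlv : 3 * ((n : ℝ) * (4000 ^ n : ℕ) + 1) ^ (∑ i : Fin n, R1_m i) *
      ∏ i : Fin n, ((1 + 4 * c) * Real.exp (12 * ((r0 : ℝ) + 1) * (T / 4000 ^ (i : ℕ)))) ^
        R1_m i ≤ lv) :
    ∃ w : Par (4000 ^ n), w.n = n ∧ w.W = W ∧ w.P = PP W T ∧ w.Dt = 32 * Real.exp (4 * sig) ∧
      w.lv = lv ∧ w.h = 144 * (c ^ 2 + c ^ 4) ∧ w.c = c ∧
      (∀ i : Fin w.n, w.m i = R1_m i) ∧ ∀ i : Fin w.n, Ex1 w.P (w.D i) (2 * c)
        (Real.exp (12 * ((r0 : ℝ) + 1) * (T / 4000 ^ (i : ℕ)))) := by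
  have hK1 : 1 ≤ 4000 ^ n := Nat.one_le_pow _ _ (by norm_num)
  have hW2 : 2 ≤ W := by nlinarith
  have hT := mk1_Tpos hT2
  have h4n : (1 : ℝ) ≤ 4000 ^ n := one_le_pow₀ (by norm_num)
  have hTpos : 0 < T := by linarith
  have hBl := blocks_ok W (4000 ^ n) n r0 T hW2 hK1 hKW hr0 hT1 hT2
  set K := 4000 ^ n with hK
  set P := PP W T with hP
  set N := Nat.log 4000 ⌊2 * T⌋₊ + 1 with hN
  set q := qq P K with hq
  set blk : {p // p ∈ P} → ℕ := fun i => bk 4000 T i.1 with hblk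
  have hprime : ∀ p ∈ P, p.Prime := mk2_prime W T
  have hNb : ∀ p ∈ PP W T, bk 4000 T p < N := fun p hp => bk_lt 4000 W T hTpos.le p hp
  have hp0 : ∀ i, i ≤ n → ∏ b ∈ Ico i N, p0 q blk b ≤ 1000 * Real.log W * 4000 ^ i / T := by
    intro i hi
    have h1 := prod_p0_le 4000 W K T (by norm_num) hW2 hK1 hKW i N hNb
      (hT1.trans (mk1_div_le hT2 hi)) (hT2.trans (mk1_div_le hT2 hi))
    push_cast at h1
    exact h1
  have hp0nn : ∀ i, 0 ≤ ∏ b ∈ Ico i N, p0 q blk b := fun i =>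
    Finset.prod_nonneg fun b _ => bh4_p0_nonneg hBl b
  have hp01 : ∀ i, ∏ b ∈ Ico i N, p0 q blk b ≤ 1 := fun i =>
    Finset.prod_le_one (fun b _ => bh4_p0_nonneg hBl b) (fun b _ => bh4_p0_le_one hBl b)
  have hXB : ∀ i, ∏ b ∈ Ico i N, (1 + XB (fun i : {p // p ∈ P} => i.1) blk b) ^ (2 * (r0 + (b - i)))
      ≤ Real.exp (12 * ((r0 : ℝ) + 1) * (T / 4000 ^ i)) := by
    intro i
    have h1 := prod_XB_le 4000 W T (by norm_num) hTpos.le r0 i N
    push_cast at h1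
    exact h1
  set KD : Fin n → ℝ := fun i => (1 + 4 * c) *
    Real.exp (12 * ((r0 : ℝ) + 1) * (T / 4000 ^ (i : ℕ))) with hKD
  have hKD1 : ∀ i, 1 ≤ KD i := by
    intro i
    have h1 : 1 ≤ Real.exp (12 * ((r0 : ℝ) + 1) * (T / 4000 ^ (i : ℕ))) := by
      apply Real.one_le_exp
      positivity
    show 1 ≤ (1 + 4 * c) * Real.exp (12 * ((r0 : ℝ) + 1) * (T / 4000 ^ (i : ℕ)))
    nlinarith
  set D : Fin n → Finset {p // p ∈ P} → ℝ := fun i A => c * DB q blk r0 N i A with hD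
  have hlevD : ∀ i : Fin n, LevS P (D i) (KD i) := by
    intro i M b
    have h1 := tau_le q blk sig r0 n N hBl i i.2
    have h2 := levS_DB P hprime q blk r0 N i (lt_of_lt_of_le i.2 hBl.nN) h1.1 h1.2
    have h3 := mk2_LevS_mono h2 (mul_le_mul_of_nonneg_left (hXB i) (by norm_num))
    have h4 := (h3 M b).const_mul c
    refine Lev.mono _ _ _ h4 ?_
    rw [abs_of_nonneg hc0]
    have h5 : 0 < Real.exp (12 * ((r0 : ℝ) + 1) * (T / 4000 ^ (i : ℕ))) := Real.exp_pos _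
    show c * (4 * Real.exp (12 * ((r0 : ℝ) + 1) * (T / 4000 ^ (i : ℕ)))) ≤
      (1 + 4 * c) * Real.exp (12 * ((r0 : ℝ) + 1) * (T / 4000 ^ (i : ℕ)))
    nlinarith
  have hgood := good_DB q blk sig r0 n N hBl
  have hs0 : ∀ i : Fin n, (0 : ℝ) ≤ 4000 ^ ((i : ℕ) + 1) / (2 * 4000 ^ n) := fun i => by positivity
  have hkey : ∀ i : Fin n, c ^ 2 * (4 * ∏ b ∈ Ico ((i : ℕ) + 1) N, p0 q blk b) ≤
      4000 ^ ((i : ℕ) + 1) / (2 * 4000 ^ n) := by
    intro i
    have h1 := hp0 ((i : ℕ) + 1) i.2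
    have h2 : 0 ≤ c ^ 2 := sq_nonneg c
    calc c ^ 2 * (4 * ∏ b ∈ Ico ((i : ℕ) + 1) N, p0 q blk b)
        ≤ c ^ 2 * (4 * (1000 * Real.log W * 4000 ^ ((i : ℕ) + 1) / T)) := by gcongr
      _ = 4000 ^ ((i : ℕ) + 1) / (2 * 4000 ^ n) *
          ((c ^ 2 * (8000 * 4000 ^ n * Real.log W)) / T) := by
          have h4 : (4000 : ℝ) ^ n ≠ 0 := by positivity
          field_simp
          ring
      _ = _ := by rw [hc, div_self hTpos.ne', mul_one]
  have hcast : ((K : ℕ) : ℝ) = 4000 ^ n := by rw [hK]; push_cast; ring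
  refine ⟨{ P := P, W := W, n := n, D := D, m := fun i => R1_m i,
            R := fun i => (i : ℕ) + 2, s := fun i => 4000 ^ ((i : ℕ) + 1) / (2 * 4000 ^ n),
            c := c, h := 144 * (c ^ 2 + c ^ 4), Dt := 32 * Real.exp (4 * sig), lv := lv
            prime := hprime
            big := mk1_big W T
            Kpos := hK1
            KW := hKW
            c0 := hc0
            good := ?_
            h0 := by positivity
            emp := ?_
            s0 := hs0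
            hs := R1_sum_s n
            hm := ?_
            hR := R1_sum_exp n
            Dt1 := ?_
            tilt := ?_
            lv1 := hlv1
            lev := ?_ }, rfl, rfl, rfl, rfl, rfl, rfl, rfl, fun _ => rfl, ?_⟩
  · refine ⟨hgood.q0, hgood.q1, ?_, ?_, ?_, ?_⟩
    · intro _ i
      show ex q (fun A => c * DB q blk r0 N i A) = 0
      rw [ex_const_mul, hgood.mean i, mul_zero]
    · intro _ i i' hii
      show ex q (fun A => (c * DB q blk r0 N i A) * (c * DB q blk r0 N i' A)) = 0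
      have h1 : (fun A => (c * DB q blk r0 N i A) * (c * DB q blk r0 N i' A)) =
          fun A => c ^ 2 * (DB q blk r0 N i A * DB q blk r0 N i' A) := by
        funext A
        ring
      rw [h1, ex_const_mul, hgood.orth i i' hii, mul_zero]
    · intro _ i
      show ex q (fun A => (c * DB q blk r0 N i A) ^ 2) ≤ 144 * (c ^ 2 + c ^ 4)
      have h1 : (fun A => (c * DB q blk r0 N i A) ^ 2) =
          fun A => c ^ 2 * (DB q blk r0 N i A ^ 2) := by
        funext A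
        ring
      rw [h1, ex_const_mul]
      have h2 := hgood.sq i
      have h3 := hp01 n
      have h4 : ex q (fun A => DB q blk r0 N i A ^ 2) ≤ 144 := by linarith
      have h5 : 0 ≤ c ^ 2 := sq_nonneg c
      have h6 : 0 ≤ c ^ 4 := by positivity
      nlinarith
    · intro _ i
      show ex q (fun A => (c * DB q blk r0 N i A) ^ 4) ≤ 144 * (c ^ 2 + c ^ 4)
      have h1 : (fun A => (c * DB q blk r0 N i A) ^ 4) =
          fun A => c ^ 4 * (DB q blk r0 N i A ^ 4) := by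
        funext A
        ring
      rw [h1, ex_const_mul]
      have h2 := hgood.fourth i
      have h3 := hp01 n
      have h4 : ex q (fun A => DB q blk r0 N i A ^ 4) ≤ 144 := by linarith
      have h5 : 0 ≤ c ^ 2 := sq_nonneg c
      have h6 : 0 ≤ c ^ 4 := by positivity
      nlinarith
  · intro i
    show c * DB q blk r0 N i ∅ = c
    rw [hgood.empty i, mul_one]
  · intro i
    show 2 * (((K : ℕ) : ℝ) * (4000 ^ ((i : ℕ) + 1) / (2 * 4000 ^ n))) + ((i : ℕ) + 2) ≤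
      ((R1_m i : ℕ) : ℝ)
    rw [hcast]
    unfold R1_m
    push_cast
    have h4 : (4000 : ℝ) ^ n ≠ 0 := by positivity
    have : 2 * ((4000 : ℝ) ^ n * (4000 ^ ((i : ℕ) + 1) / (2 * 4000 ^ n))) =
        4000 ^ ((i : ℕ) + 1) := by
      field_simp
    rw [this]
    linarith
  · show (1 : ℝ) ≤ 32 * Real.exp (4 * sig)
    have h1 : 0 ≤ sig := by
      unfold sig
      have : 0 ≤ Real.log (1000 * ((4000 : ℕ) : ℝ)) := by
        apply Real.log_nonneg
        push_cast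
        norm_num
      linarith
    have h2 : 1 ≤ Real.exp (4 * sig) := Real.one_le_exp (by positivity)
    linarith
  · intro i T'
    show ex q (fun A => (c * DB q blk r0 N i A) ^ 2 * (if T' ⊆ A then 1 else 0)) ≤
      (32 * Real.exp (4 * sig)) ^ T'.card * (∏ p ∈ T', q p) *
        (4000 ^ ((i : ℕ) + 1) / (2 * 4000 ^ n))
    have h1 : (fun A => (c * DB q blk r0 N i A) ^ 2 * (if T' ⊆ A then (1 : ℝ) else 0)) =
        fun A => c ^ 2 * (DB q blk r0 N i A ^ 2 * (if T' ⊆ A then 1 else 0)) := by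
      funext A
      ring
    rw [h1, ex_const_mul]
    have h2 := ex_DB_tilt q blk sig r0 n N hBl i i.2 T'
    have h3 : 0 ≤ c ^ 2 := sq_nonneg c
    have h4 : 0 ≤ ∏ p ∈ T', q p := Finset.prod_nonneg fun p _ => hgood.q0 p
    have h5 : 0 < Real.exp (4 * sig) := Real.exp_pos _
    calc c ^ 2 * ex q (fun A => DB q blk r0 N i A ^ 2 * (if T' ⊆ A then 1 else 0))
        ≤ c ^ 2 * ((32 * Real.exp (4 * sig)) ^ T'.card * (∏ p ∈ T', q p) *
          (4 * ∏ b ∈ Ico ((i : ℕ) + 1) N, p0 q blk b)) := mul_le_mul_of_nonneg_left h2 h3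
      _ = (32 * Real.exp (4 * sig)) ^ T'.card * (∏ p ∈ T', q p) *
          (c ^ 2 * (4 * ∏ b ∈ Ico ((i : ℕ) + 1) N, p0 q blk b)) := by ring
      _ ≤ _ := mul_le_mul_of_nonneg_left (hkey i) (by positivity)
  · intro J _ _ M b hJ
    have h1 := lev_LW P hprime (fun _ : J => D) KD hKD1 (fun _ i => hlevD i) (fun i => R1_m i)
      univ M b (fun _ => 1) 1 (by norm_num) (fun _ => by norm_num)
    refine Lev.mono _ _ _ h1 ?_
    rw [one_mul, Fintype.card_fin, hJ]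
    exact hlv
  · intro i
    have h1 := tau_le q blk sig r0 n N hBl i i.2
    have h2 := ex1_DB P hprime q blk r0 N i (lt_of_lt_of_le i.2 hBl.nN) h1.1 h1.2 _ (hXB i)
    exact X2_const_mul h2 hc0

/-- Proof. Copy of the proofs of `R1_core` and `mkPar` (`H57M/R1.lean`), with the additional conclusions. With the notation of
these proofs: `w.D i = c DB (qq P K) blk r0 N i`, so by `ex1_DB` (`tau_le`, `hBl.nN`) `w.D i` has an expansion with
coefficients at most `2 c ≤ 2 L` (multiply by the constant `c ≥ 0`) and products of primes at most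
`lvs i = exp (12 (r0 + 1) T/4000^i) ≥ 1` (this is `hXB i`). `∏_i (lvs i)^(m i) = exp (∑ m_i 12 (r0+1) T/4000^i) ≤ exp (θ L/2)`
(`R1_sum_m`, as in `hlvb`). `w.c ≤ L`: `c^2 ≤ L/8000` (`hcL`) and `L ≥ 1`. -/
theorem mkPar2 : ∃ κ0 Dt : ℝ, 0 < κ0 ∧ κ0 ≤ 1 / 100 ∧ 1 ≤ Dt ∧ ∀ n : ℕ, 1 ≤ n → ∀ θ : ℝ,
    0 < θ → θ ≤ 1 → ∃ L0 : ℝ, ∀ L : ℝ, L0 ≤ L → ∀ W : ℕ, 4 * (4000 ^ n) ^ 2 ≤ W →
    Real.log W ≤ Real.sqrt L → ∃ w : Par (4000 ^ n), w.n = n ∧ w.W = W ∧
      w.P = PP W (κ0 * θ * L / n) ∧ w.Dt = Dt ∧ w.lv ≤ Real.exp (θ * L) ∧ w.h ≤ L ^ 3 ∧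
      κ0 * θ * n * L / (8000 * Real.log W) ≤ 4000 ^ n * (1 + n * w.c) ^ 2 ∧ w.c ≤ L ∧
      ∃ lvs : Fin w.n → ℝ, (∀ i, 1 ≤ lvs i) ∧ (∀ i, Ex1 w.P (w.D i) (2 * L) (lvs i)) ∧
        ∏ i, lvs i ^ w.m i ≤ Real.exp (θ * L) := by
  have hsig : 0 ≤ sig := by
    unfold sig
    have : 0 ≤ Real.log (1000 * ((4000 : ℕ) : ℝ)) := by
      apply Real.log_nonneg
      push_cast
      norm_num
    linarith
  obtain ⟨r0, hr0⟩ := exists_r0 sig hsig
  have hr1 : (0 : ℝ) < (r0 : ℝ) + 1 := by positivity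
  refine ⟨1 / (24 * 4004 * ((r0 : ℝ) + 1)), 32 * Real.exp (4 * sig), by positivity, ?_, ?_, ?_⟩
  · rw [div_le_div_iff₀ (by positivity) (by norm_num)]
    have : (0 : ℝ) ≤ r0 := Nat.cast_nonneg r0
    linarith
  · have h2 : 1 ≤ Real.exp (4 * sig) := Real.one_le_exp (by positivity)
    linarith
  set κ0 : ℝ := 1 / (24 * 4004 * ((r0 : ℝ) + 1)) with hκ0
  have hκpos : 0 < κ0 := by positivity
  have hκle : κ0 ≤ 1 / 100 := by
    rw [hκ0, div_le_div_iff₀ (by positivity) (by norm_num)]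
    have : (0 : ℝ) ≤ r0 := Nat.cast_nonneg r0
    linarith
  intro n hn θ hθ hθ1
  have hn0 : (0 : ℝ) < n := by exact_mod_cast hn
  have hn1 : (1 : ℝ) ≤ n := by exact_mod_cast hn
  have h4n : (0 : ℝ) < 4000 ^ n := by positivity
  set Sm := ∑ i : Fin n, R1_m i with hSm
  set A : ℝ := 3 * ((n : ℝ) * (4000 ^ n : ℕ) + 1) ^ Sm with hA
  have hA0 : 0 < A := by positivity
  -- growth
  have hgrow : ∀ᶠ L : ℝ in Filter.atTop, A * L ^ Sm ≤ Real.exp (θ / 2 * L) := by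
    have h1 := (isLittleO_pow_exp_pos_mul_atTop (k := Sm) (show 0 < θ / 2 by positivity)).bound
      (show (0 : ℝ) < 1 / A by positivity)
    filter_upwards [h1, Filter.eventually_ge_atTop 0] with L hL hL0
    rw [Real.norm_of_nonneg (by positivity), Real.norm_of_nonneg (Real.exp_pos _).le] at hL
    calc A * L ^ Sm ≤ A * (1 / A * Real.exp (θ / 2 * L)) := by gcongr
      _ = _ := by field_simp
  obtain ⟨L1, hL1⟩ := Filter.eventually_atTop.1 hgrow
  set β : ℝ := κ0 * θ / (n * 4000 ^ n) with hβ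
  have hβ0 : 0 < β := by positivity
  refine ⟨max L1 (max 100 (max (2 / β) ((1 / β) ^ 2))), fun L hL W hKW hlogW => ?_⟩
  have hLL1 : L1 ≤ L := (le_max_left _ _).trans hL
  have hL100 : 100 ≤ L := ((le_max_left _ _).trans (le_max_right _ _)).trans hL
  have hLb : 2 / β ≤ L :=
    (((le_max_left _ _).trans (le_max_right _ _)).trans (le_max_right _ _)).trans hL
  have hLb2 : (1 / β) ^ 2 ≤ L :=
    (((le_max_right _ _).trans (le_max_right _ _)).trans (le_max_right _ _)).trans hL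
  have hLpos : 0 < L := by linarith
  set T : ℝ := κ0 * θ * L / n with hT
  have hTβ : T / 4000 ^ n = β * L := by
    rw [hT, hβ]
    field_simp
  have hT2 : 2 ≤ T / 4000 ^ n := by
    rw [hTβ]
    rw [div_le_iff₀ hβ0] at hLb
    linarith
  have hT1 : Real.log W ≤ T / 4000 ^ n := by
    rw [hTβ]
    refine hlogW.trans ?_
    have h1 : 1 / β ≤ Real.sqrt L := Real.le_sqrt_of_sq_le hLb2
    have h2 : Real.sqrt L * Real.sqrt L = L := Real.mul_self_sqrt hLpos.le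
    have h3 : 1 ≤ β * Real.sqrt L := by
      rw [div_le_iff₀ hβ0] at h1
      linarith
    have h4 : 0 ≤ Real.sqrt L := Real.sqrt_nonneg L
    calc Real.sqrt L = 1 * Real.sqrt L := (one_mul _).symm
      _ ≤ (β * Real.sqrt L) * Real.sqrt L := mul_le_mul_of_nonneg_right h3 h4
      _ = β * L := by rw [mul_assoc, h2]
  have hW64 : 64 ≤ W := by
    have h1 : 4000 ≤ 4000 ^ n := by
      calc 4000 = 4000 ^ 1 := (pow_one _).symm
        _ ≤ 4000 ^ n := Nat.pow_le_pow_right (by norm_num) hn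
    nlinarith
  have hlog1 : 1 ≤ Real.log W := by
    have h1 : (64 : ℝ) ≤ W := by exact_mod_cast hW64
    rw [Real.le_log_iff_exp_le (by linarith)]
    linarith [Real.exp_one_lt_d9]
  have hTpos : 0 < T := by positivity
  set c : ℝ := Real.sqrt (T / (8000 * 4000 ^ n * Real.log W)) with hc
  have hden : 0 < 8000 * 4000 ^ n * Real.log W := by positivity
  have hc2 : c ^ 2 = T / (8000 * 4000 ^ n * Real.log W) := Real.sq_sqrt (by positivity)
  have hc0 : 0 ≤ c := Real.sqrt_nonneg _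
  have hTL : T ≤ L := by
    rw [hT, div_le_iff₀ hn0]
    have h1 : κ0 * θ ≤ 1 := by nlinarith
    nlinarith
  have hcL : c ^ 2 ≤ L / 8000 := by
    rw [hc2]
    have h1 : (1 : ℝ) ≤ 4000 ^ n := one_le_pow₀ (by norm_num)
    have h2 : 8000 ≤ 8000 * 4000 ^ n * Real.log W := by nlinarith
    exact div_le_div₀ hLpos.le hTL (by norm_num) h2
  have hlvb : 3 * ((n : ℝ) * (4000 ^ n : ℕ) + 1) ^ (∑ i : Fin n, R1_m i) *
      ∏ i : Fin n, ((1 + 4 * c) * Real.exp (12 * ((r0 : ℝ) + 1) * (T / 4000 ^ (i : ℕ)))) ^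
        R1_m i ≤ Real.exp (θ * L) := by
    have e1 : ∏ i : Fin n, ((1 + 4 * c) * Real.exp (12 * ((r0 : ℝ) + 1) * (T / 4000 ^ (i : ℕ)))) ^
        R1_m i = (1 + 4 * c) ^ Sm *
          Real.exp (∑ i : Fin n, (R1_m i : ℝ) * (12 * ((r0 : ℝ) + 1) * T / 4000 ^ (i : ℕ))) := by
      rw [Real.exp_sum, ← Finset.prod_pow_eq_pow_sum, ← Finset.prod_mul_distrib]
      refine Finset.prod_congr rfl fun i _ => ?_
      rw [mul_pow, ← Real.exp_nat_mul]
      congr 2
      ring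
    rw [e1]
    have h1 := R1_sum_m n (12 * ((r0 : ℝ) + 1) * T) (by positivity)
    have h2 : 4004 * n * (12 * ((r0 : ℝ) + 1) * T) = θ / 2 * L := by
      rw [hT, hκ0]
      field_simp
      ring
    rw [h2] at h1
    have h3 : 1 + 4 * c ≤ L := by nlinarith
    have h4 : (1 + 4 * c) ^ Sm ≤ L ^ Sm := pow_le_pow_left₀ (by positivity) h3 _
    have h5 := hL1 L hLL1
    calc A * ((1 + 4 * c) ^ Sm * Real.exp (∑ i : Fin n,
          (R1_m i : ℝ) * (12 * ((r0 : ℝ) + 1) * T / 4000 ^ (i : ℕ))))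
        ≤ A * (L ^ Sm * Real.exp (θ / 2 * L)) := by
          have := Real.exp_le_exp.2 h1
          gcongr
      _ = (A * L ^ Sm) * Real.exp (θ / 2 * L) := by ring
      _ ≤ Real.exp (θ / 2 * L) * Real.exp (θ / 2 * L) := by gcongr
      _ = Real.exp (θ * L) := by
          rw [← Real.exp_add]
          congr 1
          ring
  obtain ⟨w, w1, w2, w3, w4, w5, w6, w7, w8, w9⟩ := X2_core n W r0 T c (Real.exp (θ * L)) hKW hr0 hT1 hT2
    hc0 (by linarith) (by rw [hc2]; field_simp) (Real.one_le_exp (by positivity)) hlvb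
  have hcL' : c ≤ L := by
    refine le_of_not_gt fun hcon => ?_
    have h1 : L * L ≤ c * c := mul_le_mul hcon.le hcon.le hLpos.le hc0
    have h2 : c ^ 2 = c * c := sq c
    have h3 : 100 * L ≤ L * L := mul_le_mul_of_nonneg_right hL100 hLpos.le
    linarith
  refine ⟨w, w1, w2, w3, w4, w5.le, ?_, ?_, w7.le.trans hcL',
    fun i => Real.exp (12 * ((r0 : ℝ) + 1) * (T / 4000 ^ (i : ℕ))),
    fun i => Real.one_le_exp (by positivity),
    fun i => X2_mono (w9 i) (by linarith), ?_⟩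
  · rw [w6]
    have h1 : c ^ 4 = c ^ 2 * c ^ 2 := by ring
    have h2 : 0 ≤ c ^ 2 := sq_nonneg c
    rw [h1]
    nlinarith [mul_le_mul hcL hcL h2 (by positivity : (0 : ℝ) ≤ L / 8000), mul_pos hLpos hLpos,
      mul_pos (mul_pos hLpos hLpos) hLpos]
  · rw [w7]
    have h1 : (n : ℝ) ^ 2 * c ^ 2 ≤ (1 + n * c) ^ 2 := by
      have : 0 ≤ (n : ℝ) * c := by positivity
      nlinarith
    calc κ0 * θ * n * L / (8000 * Real.log W) = 4000 ^ n * ((n : ℝ) ^ 2 * c ^ 2) := by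
          rw [hc2, hT]
          field_simp
      _ ≤ 4000 ^ n * (1 + n * c) ^ 2 := by gcongr
  · have e1 : ∏ i : Fin w.n, Real.exp (12 * ((r0 : ℝ) + 1) * (T / 4000 ^ (i : ℕ))) ^ w.m i =
        ∏ i : Fin n, Real.exp (12 * ((r0 : ℝ) + 1) * (T / 4000 ^ (i : ℕ))) ^ R1_m i := by
      exact (Finset.prod_congr rfl fun i _ => by rw [w8 i]).trans
        (X2_prod (fun i => Real.exp (12 * ((r0 : ℝ) + 1) * (T / 4000 ^ i)) ^ R1_m i) w1)
    rw [e1]
    have e2 : ∏ i : Fin n, Real.exp (12 * ((r0 : ℝ) + 1) * (T / 4000 ^ (i : ℕ))) ^ R1_m i =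
        Real.exp (∑ i : Fin n, (R1_m i : ℝ) * (12 * ((r0 : ℝ) + 1) * T / 4000 ^ (i : ℕ))) := by
      rw [Real.exp_sum]
      refine Finset.prod_congr rfl fun i _ => ?_
      rw [← Real.exp_nat_mul]
      congr 1
      ring
    rw [e2]
    have h1 := R1_sum_m n (12 * ((r0 : ℝ) + 1) * T) (by positivity)
    have h2 : 4004 * n * (12 * ((r0 : ℝ) + 1) * T) = θ / 2 * L := by
      rw [hT, hκ0]
      field_simp
      ring
    rw [h2] at h1
    apply Real.exp_le_exp.2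
    nlinarith

end Pool.Agent.Lib.H57C
end
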