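import Pool.Agent.Lib.H1M.RV.M001
import Pool.Agent.Lib.H1M.RV.M010
import Pool.Agent.Lib.H1M.RV.M020
import Pool.Agent.Lib.H1M.RV.M029
import Pool.Agent.Lib.H1M.RV.M049
import Pool.Agent.Lib.H1M.RV.M051
import Pool.Agent.Lib.H1M.RV.M057
import Pool.Agent.Lib.H1M.RV.M058
import Pool.Agent.Lib.H1M.RV.M065
import Pool.Agent.Lib.H1M.RV.M068
import Pool.Agent.Lib.H1M.RV.M070

/-! Merged copies (to shorten the build) of Lib.H57M.B9, Lib.H57C.A1, Lib.H57T.A1, Lib.H57T.M3, Lib.H57T.V4, Lib.H57T.RM. -/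

-- from Lib.H57M.B9
section

/-!
# Chunk B9: the weight summed over the primes of one form: lower bound
-/

open Finset

namespace Pool.Agent.Lib.H57M

open Pool.Agent.Lib.H15P Pool.Agent.Lib.H92G

variable {K : ℕ} {J : Type} [Fintype J] [DecidableEq J]



/-- The main term. -/
theorem B9_main (w : Par K) (hJ : Fintype.card J = K) (M : ℕ) (b : J → ℕ)
    (hF : Forms w.P w.W K M b) (j0 : J)
    (n1 : 400 * (K : ℝ) ^ 2 ≤ w.W)
    (n2 : (((∏ p ∈ w.P, p : ℕ) : ℝ) / ((∏ p ∈ w.P, p).totient : ℝ)) *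
      (8 * (K : ℝ) ^ 2 * w.CL * w.Dt ^ 2 / w.W) ≤ 1 / 100) :
    36 / 100 * (w.z ^ K * (1 + w.n * w.c) ^ 2) ≤
      EU w.P M (b j0) (fun t => w.L (fun j => hit w.P (b j + M * t)) ^ 2) := by
  classical
  have hK1 : (1 : ℝ) ≤ K := by exact_mod_cast w.Kpos
  have hW : (0 : ℝ) < w.W := by nlinarith
  obtain ⟨hz1, hz2⟩ := w.z_bounds
  have h1 := EU_ge2 w.P w.W K M b hF (fun S => w.L S ^ 2) (fun S => sq_nonneg _) j0
  have h2 := w.EX_loss (J := J) hJ
  set RQ : ℝ := ((∏ p ∈ w.P, p : ℕ) : ℝ) / ((∏ p ∈ w.P, p).totient : ℝ) with hRQ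
  have hRQ0 : 0 ≤ RQ := by positivity
  set E1 := EX (qq w.P K) (fun S : J → Finset {p // p ∈ w.P} =>
    w.L S ^ 2 * (if S j0 = ∅ then 1 else 0)) with hE1
  set EL := EX (qq w.P K) (fun S : J → Finset {p // p ∈ w.P} =>
    w.L S ^ 2 * loss w.P K S) with hEL
  set ZZ := ZG (qq w.P K) (fun _ : J => w.D) (univ.erase j0) with hZZ
  set Pi := ∏ i, (1 - qq w.P K i) with hPi
  have h3 := EX_prime_ge (qq w.P K) (fun _ : J => w.D) w.h (w.goodJ J) w.m univ w.R
    (by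
      intro i
      have e1 : ∑ j ∈ (univ : Finset J), GJ (qq w.P K) (fun _ : J => w.D) j (some i) =
          K * ex (qq w.P K) (fun A => w.D i A ^ 2) := by
        unfold GJ
        rw [Finset.sum_const, Finset.card_univ, hJ, nsmul_eq_mul]
      rw [e1]
      have e2 := (B8_sq w i).2
      have e3 := mul_le_mul_of_nonneg_left e2 (by linarith : (0 : ℝ) ≤ K)
      linarith [w.hm i]) j0 (Finset.mem_univ _)
    (by
      intro i
      show 0 ≤ w.D i ∅
      rw [w.emp i]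
      exact w.c0)
  have h4 : ∑ i, w.D i ∅ = w.n * w.c := by
    rw [Finset.sum_congr rfl fun i _ => w.emp i, Finset.sum_const, Finset.card_univ,
      Fintype.card_fin, nsmul_eq_mul]
  have h3' : (1 + w.n * w.c) ^ 2 * (1 - ∑ i, Real.exp (-w.R i)) * ZZ * Pi ≤ E1 := by
    rw [← h4]
    exact h3
  have hZ : w.z ^ K = w.z * ZZ := by
    rw [← B8_ZG (J := J) w hJ]
    unfold ZG at hZZ ⊢
    rw [hZZ, ← Finset.mul_prod_erase univ _ (Finset.mem_univ j0)]
    rfl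
  have hzK : 1 ≤ w.z ^ K := one_le_pow₀ hz1
  have hZZ0 : w.z ^ K / 2 ≤ ZZ := by
    have : 0 ≤ ZZ := by
      by_contra hc
      push Not at hc
      nlinarith
    nlinarith
  have hV : 1 ≤ (1 + w.n * w.c) ^ 2 := by
    have : 0 ≤ (w.n : ℝ) * w.c := mul_nonneg (Nat.cast_nonneg _) w.c0
    nlinarith
  have hP := p_empty_ge w.P w.W K w.prime w.Kpos w.KW w.big
  have hKW2 : 2 * (K : ℝ) / w.W ≤ 1 / 200 := by
    rw [div_le_iff₀ hW]
    nlinarith
  have hKW1 : (K : ℝ) ^ 2 / w.W ≤ 1 / 400 := by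
    rw [div_le_iff₀ hW]
    nlinarith
  have hR := w.hR
  set V := (1 + (w.n : ℝ) * w.c) ^ 2 with hVd
  have hVZ : 0 ≤ V * ZZ := mul_nonneg (by linarith) (by linarith)
  have hPi0 : 0 ≤ RQ * Pi := by linarith
  have h5 : V * (3 / 4) * ZZ * (199 / 200) ≤ RQ * E1 := by
    calc V * (3 / 4) * ZZ * (199 / 200) ≤ V * (3 / 4) * ZZ * (RQ * Pi) := by
          apply mul_le_mul_of_nonneg_left _ (by nlinarith)
          linarith
      _ ≤ V * (1 - ∑ i, Real.exp (-w.R i)) * ZZ * (RQ * Pi) := by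
          apply mul_le_mul_of_nonneg_right _ hPi0
          have := mul_le_mul_of_nonneg_left
            (show (3 / 4 : ℝ) ≤ 1 - ∑ i, Real.exp (-w.R i) by linarith) hVZ
          linarith
      _ = RQ * (V * (1 - ∑ i, Real.exp (-w.R i)) * ZZ * Pi) := by ring
      _ ≤ RQ * E1 := mul_le_mul_of_nonneg_left h3' hRQ0
  have h6 : RQ * EL ≤ 1 / 100 := (mul_le_mul_of_nonneg_left h2 hRQ0).trans n2
  have h7 : 399 / 400 * (RQ * E1) ≤ (1 - (K : ℝ) ^ 2 / w.W) * (RQ * E1) := by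
    apply mul_le_mul_of_nonneg_right _ ((by nlinarith : (0 : ℝ) ≤ V * (3 / 4) * ZZ * (199 / 200)).trans h5)
    linarith
  have h8 : V * (w.z ^ K / 2) ≤ V * ZZ := mul_le_mul_of_nonneg_left hZZ0 (by linarith)
  have h9 : 1 ≤ V * w.z ^ K := one_le_mul_of_one_le_of_one_le hV hzK
  refine le_trans ?_ h1
  have h10 : RQ * ((1 - (K : ℝ) ^ 2 / w.W) * E1 - EL) =
      (1 - (K : ℝ) ^ 2 / w.W) * (RQ * E1) - RQ * EL := by ring
  rw [h10]
  nlinarith


end Pool.Agent.Lib.H57M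
end

-- from Lib.H57C.A1
section

/-!
# Chunk A1: the mean values of the weight
-/

open Finset

namespace Pool.Agent.Lib.H57C

open Pool.Agent.Lib.H15P Pool.Agent.Lib.H92G Pool.Agent.Lib.H57M

theorem a1_forms {K : ℕ} (w : Par K) (H : Finset ℕ) (hH : H.card = K) (HW : ∀ h ∈ H, h ≤ w.W) :
    Forms w.P w.W K 1 (fun h : {h // h ∈ H} => h.1) := by
  refine ⟨w.prime, w.big, ?_, ?_, w.Kpos, ?_, w.KW⟩
  · intro p hp h
    exact (w.prime p hp).one_lt.ne' (Nat.dvd_one.1 h)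
  · intro p hp j j' hne hm
    apply hne
    apply Subtype.ext
    have h1 := HW j.1 j.2
    have h2 := HW j'.1 j'.2
    have h3 := w.big p hp
    have h5 : j.1 % p = j.1 := Nat.mod_eq_of_lt (by omega)
    have h6 : j'.1 % p = j'.1 := Nat.mod_eq_of_lt (by omega)
    unfold Nat.ModEq at hm
    omega
  · rw [Fintype.card_coe, hH]

/-- Proof. `Forms w.P w.W K 1 (fun h => h.1)` as in `Sc.forms` (`H57M/Sc.lean`). `EP_le` (`H15P`), `EX_LG_sq_le`, `B8_ZG`, `B8_exp`: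
`EP (L^2) ≤ (11/10) z^K`; divide by `z^K ≥ 1`. -/
theorem ae_none {K : ℕ} (w : Par K) (H : Finset ℕ) (hH : H.card = K) (HW : ∀ h ∈ H, h ≤ w.W)
    (hKW : 400 * K ^ 2 ≤ w.W) :
    0 ≤ AE w.P H none (FC w H) ∧ AE w.P H none (FC w H) ≤ 11 / 10 := by
  classical
  have hJ : Fintype.card {h // h ∈ H} = K := by rw [Fintype.card_coe, hH]
  have hz := w.z_bounds.1
  have hzK : 0 < w.z ^ K := pow_pos (by linarith) K
  have h0 : ∀ S, 0 ≤ FC w H S := fun S => div_nonneg (sq_nonneg _) hzK.le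
  constructor
  · unfold AE EP
    exact div_nonneg (Finset.sum_nonneg fun t _ => h0 _) (Nat.cast_nonneg _)
  · have h1 := EP_le w.P w.W K 1 (fun h : {h // h ∈ H} => h.1) (a1_forms w H hH HW) (FC w H) h0
    have h2 : EX (qq w.P K) (FC w H) ≤ 1 := by
      have e : EX (qq w.P K) (FC w H) = EX (qq w.P K) (fun S : {h // h ∈ H} → Finset {p // p ∈ w.P} =>
          w.L S ^ 2) / w.z ^ K := by
        unfold EX FC
        rw [Finset.sum_div]
        exact Finset.sum_congr rfl fun S _ => by ring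
      rw [e, div_le_one hzK, ← B8_ZG (J := {h // h ∈ H}) w hJ]
      exact EX_LG_sq_le _ _ _ (w.goodJ _) w.m univ
    have h3 := B8_exp w (by omega)
    refine h1.trans ?_
    calc Real.exp (2 * (K : ℝ) ^ 2 / w.W) * EX (qq w.P K) (FC w H)
        ≤ Real.exp (2 * (K : ℝ) ^ 2 / w.W) * 1 :=
          mul_le_mul_of_nonneg_left h2 (Real.exp_pos _).le
      _ ≤ 11 / 10 := by rw [mul_one]; exact h3

/-- Proof. `B9_main` with `M = 1`, `b h = h`, `j0 = ⟨h, _⟩`; for `t` with `h + t` prime to `∏ P` the set `hit P (t + h)` is empty, so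
`cfg P H (some h) t = fun j => hit P (j + 1 * t)`; divide by `z^K > 0`. -/
theorem ae_some {K : ℕ} (w : Par K) (H : Finset ℕ) (hH : H.card = K) (HW : ∀ h ∈ H, h ≤ w.W)
    (hKW : 400 * (K : ℝ) ^ 2 ≤ w.W) (h : ℕ) (hh : h ∈ H)
    (n2 : (((∏ p ∈ w.P, p : ℕ) : ℝ) / ((∏ p ∈ w.P, p).totient : ℝ)) *
      (8 * (K : ℝ) ^ 2 * w.CL * w.Dt ^ 2 / w.W) ≤ 1 / 100) :
    36 / 100 * (1 + w.n * w.c) ^ 2 ≤ AE w.P H (some h) (FC w H) := by
  classical
  have hJ : Fintype.card {h // h ∈ H} = K := by rw [Fintype.card_coe, hH]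
  have hz := w.z_bounds.1
  have hzK : 0 < w.z ^ K := pow_pos (by linarith) K
  have h1 := B9_main w hJ 1 (fun h : {h // h ∈ H} => h.1) (a1_forms w H hH HW) ⟨h, hh⟩ hKW n2
  have h2 : AE w.P H (some h) (FC w H) =
      EU w.P 1 h (fun t => w.L (fun j : {h // h ∈ H} => hit w.P (j.1 + 1 * t)) ^ 2) / w.z ^ K := by
    change EU w.P 1 h (fun t => FC w H (cfg w.P H (some h) t)) = _
    unfold EU FC
    simp only [Finset.sum_div]
    apply Finset.sum_congr rfl
    intro t ht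
    rw [Finset.mem_filter] at ht
    have e : cfg w.P H (some h) t = fun j : {h // h ∈ H} => hit w.P (j.1 + 1 * t) := by
      funext j
      unfold cfg
      by_cases hj : h = j.1
      · rw [if_pos (by rw [hj])]
        symm
        unfold hit
        rw [Finset.filter_eq_empty_iff]
        intro p _ hp
        rw [← hj] at hp
        have h3 : p.1 ∣ ∏ p ∈ w.P, p := Finset.dvd_prod_of_mem (fun p => p) p.2
        have h4 := Nat.dvd_gcd hp h3
        rw [Nat.Coprime] at ht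
        rw [ht.2] at h4
        exact (w.prime p.1 p.2).one_lt.ne' (Nat.dvd_one.1 h4)
      · rw [if_neg (by rw [Option.some_inj]; exact hj), one_mul, add_comm t]
    rw [e]
    ring
  rw [h2, le_div_iff₀ hzK]
  calc 36 / 100 * (1 + (w.n : ℝ) * w.c) ^ 2 * w.z ^ K
      = 36 / 100 * (w.z ^ K * (1 + w.n * w.c) ^ 2) := by ring
    _ ≤ _ := h1

end Pool.Agent.Lib.H57C
end

-- from Lib.H57T.A1
section

/-!
# Chunk A1: the mean values of the weight
-/

open Finset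

namespace Pool.Agent.Lib.H57T

open Pool.Agent.Lib.H57C


open Pool.Agent.Lib.H15P hiding cfg
open Pool.Agent.Lib.H92G Pool.Agent.Lib.H57M

theorem a1_forms {K : ℕ} (w : Par K) (H : Finset ℕ) (hH : H.card = K) (HD : ∀ p ∈ w.P, ∀ h ∈ H, ∀ h' ∈ H, h ≠ h' → ¬ h ≡ h' [MOD p]) :
    Forms w.P w.W K 1 (fun h : {h // h ∈ H} => h.1) := by
  refine ⟨w.prime, w.big, ?_, ?_, w.Kpos, ?_, w.KW⟩
  · intro p hp h
    exact (w.prime p hp).one_lt.ne' (Nat.dvd_one.1 h)
  · intro p hp j j' hne hm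
    exact HD p hp j.1 j.2 j'.1 j'.2 (fun h1 => hne (Subtype.ext h1)) hm
  · rw [Fintype.card_coe, hH]

/-- Proof. `Forms w.P w.W K 1 (fun h => h.1)` as in `Sc.forms` (`H57M/Sc.lean`). `EP_le` (`H15P`), `EX_LG_sq_le`, `B8_ZG`, `B8_exp`:
`EP (L^2) ≤ (11/10) z^K`; divide by `z^K ≥ 1`. -/
theorem ae_none {K : ℕ} (w : Par K) (H : Finset ℕ) (hH : H.card = K) (HD : ∀ p ∈ w.P, ∀ h ∈ H, ∀ h' ∈ H, h ≠ h' → ¬ h ≡ h' [MOD p])
    (hKW : 400 * K ^ 2 ≤ w.W) :
    0 ≤ AE w.P H none (FC w H) ∧ AE w.P H none (FC w H) ≤ 11 / 10 := by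
  classical
  have hJ : Fintype.card {h // h ∈ H} = K := by rw [Fintype.card_coe, hH]
  have hz := w.z_bounds.1
  have hzK : 0 < w.z ^ K := pow_pos (by linarith) K
  have h0 : ∀ S, 0 ≤ FC w H S := fun S => div_nonneg (sq_nonneg _) hzK.le
  constructor
  · unfold AE EP
    exact div_nonneg (Finset.sum_nonneg fun t _ => h0 _) (Nat.cast_nonneg _)
  · have h1 := EP_le w.P w.W K 1 (fun h : {h // h ∈ H} => h.1) (a1_forms w H hH HD) (FC w H) h0
    have h2 : EX (qq w.P K) (FC w H) ≤ 1 := by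
      have e : EX (qq w.P K) (FC w H) = EX (qq w.P K) (fun S : {h // h ∈ H} → Finset {p // p ∈ w.P} =>
          w.L S ^ 2) / w.z ^ K := by
        unfold EX FC
        rw [Finset.sum_div]
        exact Finset.sum_congr rfl fun S _ => by ring
      rw [e, div_le_one hzK, ← B8_ZG (J := {h // h ∈ H}) w hJ]
      exact EX_LG_sq_le _ _ _ (w.goodJ _) w.m univ
    have h3 := B8_exp w (by omega)
    refine h1.trans ?_
    calc Real.exp (2 * (K : ℝ) ^ 2 / w.W) * EX (qq w.P K) (FC w H)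
        ≤ Real.exp (2 * (K : ℝ) ^ 2 / w.W) * 1 :=
          mul_le_mul_of_nonneg_left h2 (Real.exp_pos _).le
      _ ≤ 11 / 10 := by rw [mul_one]; exact h3

/-- Proof. `B9_main` with `M = 1`, `b h = h`, `j0 = ⟨h, _⟩`; for `t` with `h + t` prime to `∏ P` the set `hit P (t + h)` is empty, so
`cfg P H (some h) t = fun j => hit P (j + 1 * t)`; divide by `z^K > 0`. -/
theorem ae_some {K : ℕ} (w : Par K) (H : Finset ℕ) (hH : H.card = K) (HD : ∀ p ∈ w.P, ∀ h ∈ H, ∀ h' ∈ H, h ≠ h' → ¬ h ≡ h' [MOD p])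
    (hKW : 400 * (K : ℝ) ^ 2 ≤ w.W) (h : ℕ) (hh : h ∈ H)
    (n2 : (((∏ p ∈ w.P, p : ℕ) : ℝ) / ((∏ p ∈ w.P, p).totient : ℝ)) *
      (8 * (K : ℝ) ^ 2 * w.CL * w.Dt ^ 2 / w.W) ≤ 1 / 100) :
    36 / 100 * (1 + w.n * w.c) ^ 2 ≤ AE w.P H (some h) (FC w H) := by
  classical
  have hJ : Fintype.card {h // h ∈ H} = K := by rw [Fintype.card_coe, hH]
  have hz := w.z_bounds.1
  have hzK : 0 < w.z ^ K := pow_pos (by linarith) K
  have h1 := B9_main w hJ 1 (fun h : {h // h ∈ H} => h.1) (a1_forms w H hH HD) ⟨h, hh⟩ hKW n2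
  have h2 : AE w.P H (some h) (FC w H) =
      EU w.P 1 h (fun t => w.L (fun j : {h // h ∈ H} => hit w.P (j.1 + 1 * t)) ^ 2) / w.z ^ K := by
    change EU w.P 1 h (fun t => FC w H (cfg w.P H (some h) t)) = _
    unfold EU FC
    simp only [Finset.sum_div]
    apply Finset.sum_congr rfl
    intro t ht
    rw [Finset.mem_filter] at ht
    have e : cfg w.P H (some h) t = fun j : {h // h ∈ H} => hit w.P (j.1 + 1 * t) := by
      funext j
      unfold cfg
      by_cases hj : h = j.1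
      · rw [if_pos (by rw [hj])]
        symm
        unfold hit
        rw [Finset.filter_eq_empty_iff]
        intro p _ hp
        rw [← hj] at hp
        have h3 : p.1 ∣ ∏ p ∈ w.P, p := Finset.dvd_prod_of_mem (fun p => p) p.2
        have h4 := Nat.dvd_gcd hp h3
        rw [Nat.Coprime] at ht
        rw [ht.2] at h4
        exact (w.prime p.1 p.2).one_lt.ne' (Nat.dvd_one.1 h4)
      · rw [if_neg (by rw [Option.some_inj]; exact hj), one_mul, add_comm t]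
    rw [e]
    ring
  rw [h2, le_div_iff₀ hzK]
  calc 36 / 100 * (1 + (w.n : ℝ) * w.c) ^ 2 * w.z ^ K
      = 36 / 100 * (w.z ^ K * (1 + w.n * w.c) ^ 2) := by ring
    _ ≤ _ := h1

end Pool.Agent.Lib.H57T
end

-- from Lib.H57T.M3
section

/-!
# Chunk M3: the main terms
-/

open Finset

namespace Pool.Agent.Lib.H57T

open Pool.Agent.Lib.H57C


open Pool.Agent.Lib.H15P hiding cfg
open Pool.Agent.Lib.H92G Pool.Agent.Lib.H57M
/-- One form: one class. -/
theorem m3_card1 {P H : Finset ℕ} (i : Option ℕ) (U : Fam P H) (q : ℕ) (hq : q.Prime)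
    (hH : ∀ h ∈ H, ∀ h' ∈ H, h ≠ h' → ¬ h ≡ h' [MOD q]) (iH : ∀ h, i = some h → h ∈ H) (h : {h // h ∈ H})
    (hU : ∃ p ∈ U h, p.1 = q) (hu : ∀ h' : {h // h ∈ H}, (∃ p ∈ U h', p.1 = q) → h' = h)
    (hi : i ≠ some h.1) : (m3_A i U q).card = 1 := by
  classical
  have he : m3_A i U q = (range q).filter (fun c => q ∣ c + h.1) := by
    ext c
    rw [m3_mem_A, mem_filter, mem_range]
    constructor
    · rintro ⟨h1, -, h3⟩
      exact ⟨h1, (h3 h hU).2⟩
    · rintro ⟨h1, h2⟩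
      refine ⟨h1, ?_, ?_⟩
      · intro h0 h5 h6
        rw [add_comm] at h6
        refine hH h0 (iH h0 h5) h.1 h.2 (fun h7 => hi (by rw [h5, h7])) ?_
        have h8 : c + h0 ≡ c + h.1 [MOD q] :=
          ((Nat.modEq_zero_iff_dvd).2 h6).trans ((Nat.modEq_zero_iff_dvd).2 h2).symm
        exact Nat.ModEq.add_left_cancel' _ h8
      · intro h' h8
        have := hu h' h8
        subst this
        exact ⟨hi, h2⟩
  rw [he]
  exact m1_one q h.1 hq.pos

/-- The local factor. -/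
theorem m3_local {P H : Finset ℕ} (i : Option ℕ) (W : ℕ) (hP : ∀ p ∈ P, p.Prime ∧ W < p)
    (HD : ∀ p ∈ P, ∀ h ∈ H, ∀ h' ∈ H, h ≠ h' → ¬ h ≡ h' [MOD p]) (iH : ∀ h, i = some h → h ∈ H) (U : Fam P H) (hok : okA P H i U)
    (q : ℕ) (hq : q ∈ P) :
    ((m3_A i U q).card : ℝ) / (m3_n i q : ℝ) =
      ∏ h : {h // h ∈ H}, (if (⟨q, hq⟩ : {p // p ∈ P}) ∈ U h then hdr i q else 1) := by
  classical
  have hqp := (hP q hq).1
  have hH := HD q hq
  have hn : (m3_n i q : ℝ) ≠ 0 := by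
    unfold m3_n
    split_ifs
    · exact_mod_cast hqp.pos.ne'
    · have := hqp.one_lt
      have h2 : q - 1 ≠ 0 := by omega
      exact_mod_cast h2
  have hhd : hdr i q = 1 / (m3_n i q : ℝ) := by
    unfold hdr m3_n
    split_ifs
    · rfl
    · rw [Nat.cast_sub hqp.one_lt.le, Nat.cast_one]
  have hex : ∀ h : {h // h ∈ H}, (∃ p ∈ U h, p.1 = q) ↔ (⟨q, hq⟩ : {p // p ∈ P}) ∈ U h := by
    intro h
    constructor
    · rintro ⟨p, hp, h2⟩
      have : p = ⟨q, hq⟩ := Subtype.ext h2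
      rw [← this]
      exact hp
    · intro h2
      exact ⟨_, h2, rfl⟩
  by_cases hall : ∀ h : {h // h ∈ H}, ¬ ∃ p ∈ U h, p.1 = q
  · rw [m3_card0 i U q hqp hall, div_self hn]
    symm
    apply prod_eq_one
    intro h _
    rw [if_neg]
    rw [← hex]
    exact hall h
  · push Not at hall
    obtain ⟨h, hh⟩ := hall
    have hu : ∀ h' : {h // h ∈ H}, (∃ p ∈ U h', p.1 = q) → h' = h := by
      intro h' hh'
      by_contra hne
      have hd := hok.2 h' h hne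
      rw [hex] at hh hh'
      exact (Finset.disjoint_left.1 hd) hh' hh
    have hi : i ≠ some h.1 := by
      intro h5
      have := hok.1 h h5
      rw [hex, this] at hh
      exact absurd hh (by simp)
    rw [m3_card1 i U q hqp hH iH h hh hu hi, Nat.cast_one, ← hhd]
    rw [prod_eq_single h]
    · rw [if_pos ((hex h).1 hh)]
    · intro h' _ hne
      rw [if_neg]
      intro h6
      exact hne (hu h' ((hex h').2 h6))
    · intro h7
      exact absurd (mem_univ _) h7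

/-- The bad families. -/
theorem m3_zero {P H : Finset ℕ} (i : Option ℕ) (W : ℕ) (hP : ∀ p ∈ P, p.Prime ∧ W < p)
    (HD : ∀ p ∈ P, ∀ h ∈ H, ∀ h' ∈ H, h ≠ h' → ¬ h ≡ h' [MOD p]) (U : Fam P H) (hok : ¬ okA P H i U) :
    ∏ q ∈ P, (m3_A i U q).card = 0 := by
  classical
  unfold okA at hok
  rw [not_and_or] at hok
  rcases hok with hok | hok
  · push Not at hok
    obtain ⟨h, h1, h2⟩ := hok
    obtain ⟨p, hp⟩ := h2
    refine prod_eq_zero p.2 ?_
    rw [card_eq_zero, eq_empty_iff_forall_notMem]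
    intro c hc
    rw [m3_mem_A] at hc
    exact (hc.2.2 h ⟨p, hp, rfl⟩).1 h1
  · push Not at hok
    obtain ⟨h, h', hne, hd⟩ := hok
    rw [Finset.not_disjoint_iff] at hd
    obtain ⟨p, hp, hp'⟩ := hd
    refine prod_eq_zero p.2 ?_
    rw [card_eq_zero, eq_empty_iff_forall_notMem]
    intro c hc
    rw [m3_mem_A] at hc
    have h1 := (hc.2.2 h ⟨p, hp, rfl⟩).2
    have h2 := (hc.2.2 h' ⟨p, hp', rfl⟩).2
    have h3 := hP p.1 p.2
    refine HD p.1 p.2 h.1 h.2 h'.1 h'.2 (fun h7 => hne (Subtype.ext h7)) ?_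
    have h8 : c + h.1 ≡ c + h'.1 [MOD p.1] :=
      ((Nat.modEq_zero_iff_dvd).2 h1).trans ((Nat.modEq_zero_iff_dvd).2 h2).symm
    exact Nat.ModEq.add_left_cancel' _ h8

/-- The density of a family. -/
theorem m3_dens {P H : Finset ℕ} (i : Option ℕ) (W : ℕ) (hP : ∀ p ∈ P, p.Prime ∧ W < p)
    (HD : ∀ p ∈ P, ∀ h ∈ H, ∀ h' ∈ H, h ≠ h' → ¬ h ≡ h' [MOD p]) (iH : ∀ h, i = some h → h ∈ H) (U : Fam P H) :
    (((∏ q ∈ P, (m3_A i U q).card : ℕ)) : ℝ) / (∏ q ∈ P, (m3_n i q : ℝ)) =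
      (open Classical in if okA P H i U ∧ okB P H (fun _ _ => True) 1 U then fpr (hdr i) U else 0) := by
  classical
  by_cases hok : okA P H i U
  · have hB : okB P H (fun _ _ => True) 1 U := by
      refine ⟨?_, ?_⟩
      · intro h p _ hd
        exact (hP p.1 p.2).1.one_lt.ne' (Nat.dvd_one.1 hd)
      · intro h p _ c _
        trivial
    rw [if_pos ⟨hok, hB⟩, Nat.cast_prod, ← prod_div_distrib]
    have h1 : ∀ q : {p // p ∈ P}, ((m3_A i U q.1).card : ℝ) / (m3_n i q.1 : ℝ) =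
        ∏ h : {h // h ∈ H}, (if q ∈ U h then hdr i q.1 else 1) :=
      fun q => m3_local i W hP HD iH U hok q.1 q.2
    rw [← prod_attach P (fun q => ((m3_A i U q).card : ℝ) / (m3_n i q : ℝ))]
    rw [show (P.attach : Finset {p // p ∈ P}) = univ from rfl, prod_congr rfl (fun q _ => h1 q),
      prod_comm]
    unfold fpr
    refine prod_congr rfl (fun h _ => ?_)
    rw [prod_ite_mem, univ_inter]
  · rw [if_neg (fun h => hok h.1), m3_zero i W hP HD U hok]
    simp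

/-- The reference mean value as a sum over families. -/
theorem ae_sum (P H : Finset ℕ) (i : Option ℕ) (W : ℕ) (hP : ∀ p ∈ P, p.Prime ∧ W < p)
    (HD : ∀ p ∈ P, ∀ h ∈ H, ∀ h' ∈ H, h ≠ h' → ¬ h ≡ h' [MOD p]) (iH : ∀ h, i = some h → h ∈ H)
    (F : Fam P H → ℝ) (c : Fam P H → ℝ)
    (hc : ∀ S, F S = ∑ U : Fam P H, if ∀ j, U j ⊆ S j then c U else 0) :
    AE P H i F = Am P H i (fun _ _ => True) (hdr i) 1 c := by
  classical
  have hPp : ∀ p ∈ P, p.Prime := fun p hp => (hP p hp).1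
  have hN : AE P H i F = (∑ t ∈ (range (∏ p ∈ P, p)).filter (fun t => ∀ h0, i = some h0 →
      (h0 + 1 * t).Coprime (∏ p ∈ P, p)), F (cfg P H i t)) / (∏ q ∈ P, (m3_n i q : ℝ)) := by
    cases i with
    | none =>
      unfold AE EP m3_n
      simp only [if_true, Nat.cast_prod]
      congr 1
      refine sum_congr ?_ ?_
      · ext t
        simp
      · intro t _
        congr 1
        funext h
        unfold cfg
        rw [if_neg (by simp), one_mul, add_comm]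
    | some h0 =>
      unfold AE EU m3_n
      simp only [reduceCtorEq, if_false]
      congr 1
      · refine sum_congr ?_ (fun _ _ => rfl)
        ext t
        simp
      · have h3 := Nat.totient_mul_prod_primeFactors (∏ p ∈ P, p)
        rw [m3_Pf P hPp] at h3
        have h4 : 0 < ∏ p ∈ P, p := Finset.prod_pos (fun p hp => (hPp p hp).pos)
        have h5 : (∏ p ∈ P, p).totient = ∏ p ∈ P, (p - 1) := by
          rw [mul_comm] at h3
          exact Nat.eq_of_mul_eq_mul_left h4 h3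
        rw [h5, Nat.cast_prod]
  rw [hN]
  unfold Am
  simp only [hc]
  rw [sum_comm, sum_div]
  refine sum_congr rfl (fun U _ => ?_)
  rw [← sum_filter, filter_filter, sum_const, m3_count P H i hPp U, nsmul_eq_mul]
  have h2 := m3_dens i W hP HD iH U
  rw [mul_comm, mul_div_assoc, h2]
  split_ifs
  · rfl
  · rw [mul_zero]

end Pool.Agent.Lib.H57T
end

-- from Lib.H57T.V4
section

/-!
# Chunk V4: level of distribution of the switched sequence
-/

open Finset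

namespace Pool.Agent.Lib.H57T

open Pool.Agent.Lib.H57C


open Pool.Agent.Lib.H59C
theorem V4_iff (n a0 m : ℕ) (hm1 : 1 ≤ m) (hmn : m ≤ n) (x : ℕ × ℕ) (c : ℕ) :
    xv n a0 x ≡ c [MOD m] ↔ x.1 * x.2 ≡ c + a0 [MOD m] := by
  rw [← ZMod.natCast_eq_natCast_iff, ← ZMod.natCast_eq_natCast_iff]
  unfold xv
  rw [Nat.cast_add, Nat.cast_mul (n.factorial - 1), V4_cast n m hm1 hmn, Nat.cast_add c]
  constructor
  · intro h
    linear_combination h
  · intro h
    linear_combination h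

open Classical in
theorem V4_S (n a0 M u v m c a : ℕ) (α : ℕ → ℝ)
    (h : ∀ x : ℕ × ℕ, xv n a0 x ≡ c [MOD m] ↔ x.1 * x.2 ≡ a [MOD m]) :
    ∑ x ∈ (BX M u v).filter (fun x => xv n a0 x ≡ c [MOD m]), wB α x =
      ∑ k ∈ Icc 1 M, α k * ∑ q ∈ (Ioc u v).filter (fun q => q.Prime ∧ k * q ≡ a [MOD m]),
        Real.log q := by
  unfold BX
  rw [sum_filter, sum_product]
  refine sum_congr rfl fun k _ => ?_
  unfold Sq wB lg
  rw [mul_sum, ← filter_filter, sum_filter (s := (Ioc u v).filter Nat.Prime)]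
  refine sum_congr rfl fun q _ => ?_
  by_cases hq : k * q ≡ a [MOD m]
  · rw [if_pos hq, if_pos ((h (k, q)).2 hq)]
  · rw [if_neg hq, if_neg (fun h' => hq ((h (k, q)).1 h'))]

/-- Proof. `bilw (A + 1) E`. Let `m ≤ DD n B` be squarefree (so `m ≤ n`, `m ∣ n!`), `c` a class with `¬ c ≡ n [MOD q]` for all
`q ∣ m`. `xv n x = n + (n! - 1) x1 x2 ≡ c` mod `m` iff `x1 x2 ≡ a`, `a = n + (n! - 1) c` (both sides times `-1 ≡ n! - 1`), and `a` is prime
to `m` (`a ≡ n - c`). So the sum over the class is the sum of `bilw` (`CBR_S`-like), and the main terms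
`XB M u v α/φ(m)` and `(1/φ(m)) (∑_{(m',m)=1} α)(∑_{(q,m)=1} log q)` differ by at most `(1/φ(m)) 40 (log n)^2 n^(9/10)`
(`CBR_A`, `CBR_Q`, `CBR_main`, `CBR_num` in `H59C/CBR.lean`, with `y = n^(1/10)`). So `rr m = rr_bil m + 40 L^2 n^(9/10)/φ(m)`,
and `∑_{m ≤ n} E^ω(m)/φ(m) ≤ n^(1/100)` for large `n` (as in V1, or `E^ω(m) ≤ C m^(1/1000)`). -/
theorem lvlC (A E : ℕ) : ∃ A' B n0 : ℕ, ∀ n : ℕ, n0 ≤ n → ∀ p1 : ℕ, p1.Prime → SWp A' n p1 →
    ∀ (a0 M u v : ℕ) (α : ℕ → ℝ), (∀ m, 0 ≤ α m ∧ α m ≤ 1) →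
    (∀ m, α m ≠ 0 → ∀ r : ℕ, r.Prime → r ∣ m → (n : ℝ) ^ (1 / 10 : ℝ) ≤ r) →
    (n : ℝ) ^ (1 / 4 : ℝ) ≤ M → (n : ℝ) ^ (1 / 4 : ℝ) ≤ v → u ≤ v → M * v ≤ 8 * n →
      Lvl (sC n a0 M u v α) p1 (DD n B) E (n / Real.log n ^ A) := by
  obtain ⟨A', B, n1, hbil⟩ := bilw (A + 1) E
  obtain ⟨n2, hn2⟩ := bv2_large 500 (A + 4 * E + 6)
  refine ⟨A', B, max n1 (max n2 8), fun n hn p1 hp1 hSW a0 M u v α hα hαr hM hv huv hMv => ?_⟩
  have hn1' : n1 ≤ n := (le_max_left _ _).trans hn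
  have hn2' : n2 ≤ n := ((le_max_left _ _).trans (le_max_right _ _)).trans hn
  have hn8 : 8 ≤ n := ((le_max_right _ _).trans (le_max_right _ _)).trans hn
  obtain ⟨hL, hLn⟩ := hn2 n hn2'
  have hn1 : (1 : ℝ) ≤ n := by
    have : 1 ≤ n := by omega
    exact_mod_cast this
  have hn0 : (0 : ℝ) < n := by linarith
  obtain ⟨rb, hrb0, hrb, hrbs⟩ := hbil n hn1' p1 hSW M u v α (fun m => by
    rw [abs_of_nonneg (hα m).1]; exact (hα m).2) hM hv huv hMv
  set D := DD n B with hD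
  set L := Real.log n with hLdef
  have hL0 : 0 < L := by linarith
  have hDn : D ≤ n := by
    have h1 : (D : ℝ) ≤ Real.sqrt n / L ^ B := by
      rw [hD]
      unfold DD
      exact Nat.floor_le (by positivity)
    have h2 : Real.sqrt n / L ^ B ≤ Real.sqrt n :=
      div_le_self (Real.sqrt_nonneg _) (one_le_pow₀ (by linarith))
    have h3 : Real.sqrt n ≤ n := by
      rw [Real.sqrt_le_left (by linarith)]
      nlinarith
    have h4 : (D : ℝ) ≤ n := by linarith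
    exact_mod_cast h4
  set W : ℝ := 40 * L ^ 2 * ((n : ℝ) / (n : ℝ) ^ (1 / 10 : ℝ)) with hW
  have hW0 : 0 ≤ W := by positivity
  refine ⟨fun m => rb m + 1 / (Nat.totient m : ℝ) * W, fun m => add_nonneg (hrb0 m)
    (by positivity), ?_, ?_⟩
  · intro m hm hmD hpm c hc
    have hd1 : 1 ≤ m := Nat.pos_of_ne_zero hm.ne_zero
    have hmn : m ≤ n := hmD.trans hDn
    obtain ⟨a, ha⟩ : ∃ a : ℕ, a = c + a0 := ⟨_, rfl⟩
    have ha1 : ∀ x : ℕ × ℕ, xv n a0 x ≡ c [MOD m] ↔ x.1 * x.2 ≡ a [MOD m] := by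
      intro x
      rw [ha]
      exact V4_iff n a0 m hd1 hmn x c
    have hcop : a.Coprime m := by
      rw [ha]
      exact V3_coprime _ _ hm.ne_zero hc
    have hb := hrb m hd1 hmD hpm a hcop
    have hph : (0 : ℝ) < Nat.totient m := by exact_mod_cast Nat.totient_pos.2 hd1
    have hAd0 : 0 ≤ ∑ k ∈ (Icc 1 M).filter (fun k => k.Coprime m), α k :=
      sum_nonneg fun k _ => (hα k).1
    have hAdM : ∑ k ∈ (Icc 1 M).filter (fun k => k.Coprime m), α k ≤ M := by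
      refine (sum_le_sum fun k _ => (hα k).2).trans ?_
      rw [sum_const, nsmul_eq_mul, mul_one]
      have : ((Icc 1 M).filter (fun k => k.Coprime m)).card ≤ M := by
        refine (card_filter_le _ _).trans ?_
        simp
      exact_mod_cast this
    have hAA : 0 ≤ ∑ k ∈ Icc 1 M, α k - ∑ k ∈ (Icc 1 M).filter (fun k => k.Coprime m), α k := by
      rw [sub_nonneg]
      exact sum_le_sum_of_subset_of_nonneg (filter_subset _ _) fun k _ _ => (hα k).1
    have hAA' := CBR_A M m hd1 α hα ((n : ℝ) ^ (1 / 10 : ℝ)) (Real.rpow_pos_of_pos hn0 _) hαr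
    obtain ⟨hQ1, hQ2⟩ := CBR_Q u v m hd1
    have hmain := CBR_main hAA (by convert hAA' using 2) (CBR_XX_nonneg u v)
      (by convert hQ1 using 2) (by convert hQ2 using 2) hAd0 hAdM
    have hnum := CBR_num hn8 (by linarith) hd1 hmn hv hMv u huv
    have hm2 := hmain.trans hnum
    have hS : ∑ x ∈ (sC n a0 M u v α).S.filter (fun x => (sC n a0 M u v α).x x ≡ c [MOD m]),
        (sC n a0 M u v α).wt x = ∑ k ∈ Icc 1 M, α k *
          ∑ q ∈ (Ioc u v).filter (fun q => q.Prime ∧ k * q ≡ a [MOD m]), Real.log q := by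
      have h := V4_S n a0 M u v m c a α ha1
      change ∑ x ∈ (BX M u v).filter (fun x => xv n a0 x ≡ c [MOD m]), wB α x = _
      convert h using 2
    have hprod : (sC n a0 M u v α).X * ∏ q ∈ m.primeFactors, (sC n a0 M u v α).hd q =
        H59C.XB M u v α / (Nat.totient m : ℝ) := by
      change H59C.XB M u v α * ∏ q ∈ m.primeFactors, gq q = _
      rw [V3_gq m hm]
      ring
    rw [hS, hprod]
    set S := ∑ k ∈ Icc 1 M, α k *
      ∑ q ∈ (Ioc u v).filter (fun q => q.Prime ∧ k * q ≡ a [MOD m]), Real.log q with hSd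
    set Ad := ∑ k ∈ (Icc 1 M).filter (fun k => k.Coprime m), α k with hAdd
    set Qd := ∑ q ∈ (Ioc u v).filter (fun q => q.Prime ∧ q.Coprime m), Real.log q with hQdd
    have e : S - H59C.XB M u v α / (Nat.totient m : ℝ) =
        (S - 1 / (Nat.totient m : ℝ) * (Ad * Qd)) -
        1 / (Nat.totient m : ℝ) * ((∑ k ∈ Icc 1 M, α k) * XX u v - Ad * Qd) := by
      unfold H59C.XB
      ring
    rw [e]
    refine (abs_sub _ _).trans ?_
    apply add_le_add
    · exact hb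
    · rw [abs_mul, abs_of_nonneg (by positivity : (0 : ℝ) ≤ 1 / (Nat.totient m : ℝ))]
      exact mul_le_mul_of_nonneg_left hm2 (by positivity)
  · have e1 : ∑ m ∈ (Icc 1 D).filter (fun m => Squarefree m ∧ ¬ p1 ∣ m),
        (E : ℝ) ^ m.primeFactors.card * (rb m + 1 / (Nat.totient m : ℝ) * W) ≤
        ∑ m ∈ (Icc 1 D).filter (fun m => ¬ p1 ∣ m),
          (E : ℝ) ^ m.primeFactors.card * (rb m + 1 / (Nat.totient m : ℝ) * W) := by
      apply sum_le_sum_of_subset_of_nonneg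
      · exact monotone_filter_right _ fun m _ hm => hm.2
      · intro m _ _
        have := hrb0 m
        positivity
    refine e1.trans ?_
    simp only [mul_add]
    rw [sum_add_distrib]
    have e2 : ∑ m ∈ (Icc 1 D).filter (fun m => ¬ p1 ∣ m),
        (E : ℝ) ^ m.primeFactors.card * (1 / (Nat.totient m : ℝ) * W) ≤
        ((1 + L) * (500 * L) ^ (2 * E)) * W := by
      have h1 : ∀ m ∈ (Icc 1 D).filter (fun m => ¬ p1 ∣ m),
          (E : ℝ) ^ m.primeFactors.card * (1 / (Nat.totient m : ℝ) * W) =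
          (E : ℝ) ^ m.primeFactors.card / (Nat.totient m : ℝ) * W := by
        intro m _
        ring
      rw [sum_congr rfl h1, ← sum_mul]
      apply mul_le_mul_of_nonneg_right _ hW0
      refine le_trans ?_ (V1_w E n (by omega))
      apply sum_le_sum_of_subset_of_nonneg
      · intro m hm
        rw [mem_filter, mem_Icc] at hm
        rw [mem_Icc]
        exact ⟨hm.1.1, hm.1.2.trans hDn⟩
      · intro m _ _
        positivity
    refine (add_le_add hrbs e2).trans ?_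
    have h3 : ((1 + L) * (500 * L) ^ (2 * E)) * W ≤ n / L ^ (A + 1) := by
      have hy0 : (0 : ℝ) < (n : ℝ) ^ (1 / 10 : ℝ) := Real.rpow_pos_of_pos hn0 _
      have h4 : (n : ℝ) ^ (1 / 20 : ℝ) ≤ (n : ℝ) ^ (1 / 10 : ℝ) :=
        Real.rpow_le_rpow_of_exponent_le hn1 (by norm_num)
      have h5 : ((1 + L) * (500 * L) ^ (2 * E)) * (40 * L ^ 2) * L ^ (A + 1) ≤
          (n : ℝ) ^ (1 / 10 : ℝ) := by
        have h6 : (1 + L) * (500 * L) ^ (2 * E) ≤ L ^ 2 * (L ^ 2) ^ (2 * E) := by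
          apply mul_le_mul _ _ (by positivity) (by positivity)
          · nlinarith
          · apply pow_le_pow_left₀ (by positivity)
            nlinarith
        calc ((1 + L) * (500 * L) ^ (2 * E)) * (40 * L ^ 2) * L ^ (A + 1)
            ≤ (L ^ 2 * (L ^ 2) ^ (2 * E)) * (L * L ^ 2) * L ^ (A + 1) := by
              apply mul_le_mul_of_nonneg_right _ (by positivity)
              apply mul_le_mul h6 _ (by positivity) (by positivity)
              apply mul_le_mul_of_nonneg_right _ (by positivity)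
              linarith
          _ = 1 * L ^ (A + 4 * E + 6) := by
              rw [← pow_mul]
              ring
          _ ≤ 500 * L ^ (A + 4 * E + 6) :=
              mul_le_mul_of_nonneg_right (by norm_num) (by positivity)
          _ ≤ _ := hLn.trans h4
      rw [hW, le_div_iff₀ (by positivity)]
      calc (1 + L) * (500 * L) ^ (2 * E) * (40 * L ^ 2 * ((n : ℝ) / (n : ℝ) ^ (1 / 10 : ℝ))) *
            L ^ (A + 1) = (((1 + L) * (500 * L) ^ (2 * E)) * (40 * L ^ 2) * L ^ (A + 1)) *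
              ((n : ℝ) / (n : ℝ) ^ (1 / 10 : ℝ)) := by ring
        _ ≤ (n : ℝ) ^ (1 / 10 : ℝ) * ((n : ℝ) / (n : ℝ) ^ (1 / 10 : ℝ)) :=
            mul_le_mul_of_nonneg_right h5 (by positivity)
        _ = n := by rw [mul_comm, div_mul_cancel₀ _ hy0.ne']
    have e2' : (n : ℝ) / L ^ (A + 1) + n / L ^ (A + 1) = n / L ^ A * (2 / L) := by
      rw [pow_succ]
      field_simp
      ring
    have e3 : 2 / L ≤ 1 := by
      rw [div_le_one hL0]
      linarith
    calc (n : ℝ) / L ^ (A + 1) + ((1 + L) * (500 * L) ^ (2 * E)) * W ≤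
          (n : ℝ) / L ^ (A + 1) + n / L ^ (A + 1) := by linarith
      _ = n / L ^ A * (2 / L) := e2'
      _ ≤ n / L ^ A * 1 := mul_le_mul_of_nonneg_left e3 (by positivity)
      _ = _ := mul_one _

end Pool.Agent.Lib.H57T
end

-- from Lib.H57T.RM
section

/-!
# Chunk RM: classes and second moment
-/

open Finset

namespace Pool.Agent.Lib.H57T

open Pool.Agent.Lib.H57C


open Pool.Agent.Lib.H57M
theorem rm_fam {P H : Finset ℕ} {W : ℕ} (hP : ∀ p ∈ P, p.Prime ∧ W < p) (HD : ∀ p ∈ P, ∀ h ∈ H, ∀ h' ∈ H, h ≠ h' → ¬ h ≡ h' [MOD p])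
    (i : Option ℕ) (U : Fam P H) (r c a b : ℕ) (hr : 1 ≤ r) (hab : a ≤ b) :
    (((Ioc a b).filter (fun t => t ≡ c [MOD r] ∧ ∀ j, U j ⊆ cfg P H i t j)).card : ℝ) ≤
      ((b : ℝ) - a) / r * fpr (fun p => (if p ∣ r then (p : ℝ) else 1) / p) U + 1 := by
  classical
  have hba : (0 : ℝ) ≤ (b : ℝ) - a := by
    have : (a : ℝ) ≤ b := by exact_mod_cast hab
    linarith
  rw [m4_fpr]
  have hsub : ∀ t, (∀ j, U j ⊆ cfg P H i t j) → ∀ x ∈ (univ : Finset {h // h ∈ H}).sigma U,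
      x.2.1 ∣ t + x.1.1 := by
    intro t ht x hx
    have h1 := ht x.1 (mem_sigma.1 hx).2
    unfold cfg at h1
    split_ifs at h1 with h2
    · exact absurd h1 (by simp)
    · exact (mem_filter.1 h1).2
  by_cases hinj : ∀ x ∈ (univ : Finset {h // h ∈ H}).sigma U, ∀ y ∈ (univ : Finset {h // h ∈ H}).sigma U,
      x.2.1 = y.2.1 → x = y
  · refine rm_count ((univ : Finset {h // h ∈ H}).sigma U) (fun x => x.2.1) (fun x => x.1.1)
      (fun x _ => (hP _ x.2.2).1) hinj r c a b hr hab _ ?_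
    intro t ht
    rw [mem_filter] at ht
    exact ⟨ht.1, ht.2.1, hsub t ht.2.2⟩
  · push Not at hinj
    obtain ⟨x, hx, y, hy, hxy, hne⟩ := hinj
    have he : (Ioc a b).filter (fun t => t ≡ c [MOD r] ∧ ∀ j, U j ⊆ cfg P H i t j) = ∅ := by
      rw [filter_eq_empty_iff]
      rintro t - ⟨-, ht⟩
      have h1 := hsub t ht x hx
      have h2 := hsub t ht y hy
      rw [← hxy] at h2
      apply hne
      have hpx := (hP _ x.2.2)
      have h3 : x.1.1 ≡ y.1.1 [MOD x.2.1] := by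
        have e1 : t + x.1.1 ≡ t + y.1.1 [MOD x.2.1] := by
          rw [Nat.ModEq, Nat.mod_eq_zero_of_dvd h1, Nat.mod_eq_zero_of_dvd h2]
        exact Nat.ModEq.add_left_cancel' _ e1
      have h4 : x.1.1 = y.1.1 := by
        by_contra h7
        exact HD x.2.1 x.2.2 x.1.1 x.1.2 y.1.1 y.1.2 h7 h3
      have h5 : x.1 = y.1 := Subtype.ext h4
      have h6 : x.2 = y.2 := Subtype.ext hxy
      cases x
      cases y
      simp only at h5 h6
      rw [h5, h6]
    rw [he, card_empty, Nat.cast_zero]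
    have : 0 ≤ ∏ x ∈ (univ : Finset {h // h ∈ H}).sigma U,
        ((if x.2.1 ∣ r then (x.2.1 : ℝ) else 1) / x.2.1) :=
      prod_nonneg fun x hx => by split_ifs <;> positivity
    positivity

theorem rm_total {P H : Finset ℕ} {W K : ℕ} (hK : H.card = K) (hP : ∀ p ∈ P, p.Prime ∧ W < p)
    (HD : ∀ p ∈ P, ∀ h ∈ H, ∀ h' ∈ H, h ≠ h' → ¬ h ≡ h' [MOD p]) (i : Option ℕ) (F c : Fam P H → ℝ)
    (hF : ∀ S, F S = ∑ U : Fam P H, if ∀ j, U j ⊆ S j then c U else 0) (CF D : ℝ) (hCF : 0 ≤ CF)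
    (hD0 : 0 ≤ D) (hc : ∀ U : Fam P H, |c U| ≤ CF * (3 : ℝ) ^ (∑ h, (U h).card))
    (hD : ∀ U, c U ≠ 0 → ∏ h, ∏ p ∈ U h, (p.1 : ℝ) ≤ D) (r c0 a b : ℕ) (hr : 1 ≤ r) (hab : a ≤ b)
    (M0 : ℝ) (hM : ∏ p ∈ P, (1 + 3 / (p : ℝ)) ^ K ≤ M0)
    (h1 : ∀ p ∈ P, ∀ q ∈ P, p ∣ r → q ∣ r → p = q) :
    ∑ t ∈ (Ioc a b).filter (fun t => t ≡ c0 [MOD r]), F (cfg P H i t) ≤
      CF * M0 * (4 ^ K * (((b : ℝ) - a) / r) + D) := by
  classical
  have hPp : ∀ p ∈ P, p.Prime := fun p hp => (hP p hp).1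
  have hba : (0 : ℝ) ≤ (b : ℝ) - a := by
    have : (a : ℝ) ≤ b := by exact_mod_cast hab
    linarith
  have hr' : (0 : ℝ) < r := by exact_mod_cast hr
  have hM0 : 0 ≤ M0 := (prod_nonneg fun p _ => by positivity).trans hM
  have e1 : ∑ t ∈ (Ioc a b).filter (fun t => t ≡ c0 [MOD r]), F (cfg P H i t) =
      ∑ U : Fam P H, c U *
        (((Ioc a b).filter (fun t => t ≡ c0 [MOD r] ∧ ∀ j, U j ⊆ cfg P H i t j)).card : ℝ) := by
    simp only [hF]
    rw [sum_comm]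
    refine sum_congr rfl fun U _ => ?_
    rw [← sum_filter, filter_filter, sum_const, nsmul_eq_mul, mul_comm]
  rw [e1]
  have e2 : ∀ U : Fam P H, c U *
      (((Ioc a b).filter (fun t => t ≡ c0 [MOD r] ∧ ∀ j, U j ⊆ cfg P H i t j)).card : ℝ) ≤
      CF * (((b : ℝ) - a) / r) * (∏ h, ∏ p ∈ U h, (3 * ((if p.1 ∣ r then (p.1 : ℝ) else 1) / p.1))) +
        CF * D * (∏ h, ∏ p ∈ U h, (3 * (1 / (p.1 : ℝ)))) := by
    intro U
    have hf := rm_fam hP HD i U r c0 a b hr hab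
    have p1 : (3 : ℝ) ^ (∑ h, (U h).card) * fpr (fun p => (if p ∣ r then (p : ℝ) else 1) / p) U =
        ∏ h, ∏ p ∈ U h, (3 * ((if p.1 ∣ r then (p.1 : ℝ) else 1) / p.1)) := m4_pow 3 _ U
    have p2 : (3 : ℝ) ^ (∑ h, (U h).card) * fpr (fun p => 1 / (p : ℝ)) U =
        ∏ h, ∏ p ∈ U h, (3 * (1 / (p.1 : ℝ))) := m4_pow 3 _ U
    rw [← p1, ← p2]
    have n1 : 0 ≤ fpr (fun p => (if p ∣ r then (p : ℝ) else 1) / p) U := by
      unfold fpr
      exact prod_nonneg fun h _ => prod_nonneg fun p _ => by dsimp only; split_ifs <;> positivity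
    have n2 : 0 ≤ fpr (fun p => 1 / (p : ℝ)) U := by
      unfold fpr
      exact prod_nonneg fun h _ => prod_nonneg fun p _ => by positivity
    have n3 : (0 : ℝ) ≤ (3 : ℝ) ^ (∑ h, (U h).card) := by positivity
    by_cases hcU : c U = 0
    · rw [hcU, zero_mul]
      positivity
    · have hDU := hD U hcU
      have hpos : 0 < ∏ h, ∏ p ∈ U h, (p.1 : ℝ) := prod_pos fun h _ => prod_pos fun p _ => by
        exact_mod_cast (hPp p.1 p.2).pos
      have h2 : fpr (fun p => 1 / (p : ℝ)) U = 1 / ∏ h, ∏ p ∈ U h, (p.1 : ℝ) := by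
        unfold fpr
        simp only [one_div, prod_inv_distrib]
      have h3 : 1 ≤ D * fpr (fun p => 1 / (p : ℝ)) U := by
        rw [h2, mul_one_div, le_div_iff₀ hpos, one_mul]
        exact hDU
      calc c U * (((Ioc a b).filter (fun t => t ≡ c0 [MOD r] ∧ ∀ j, U j ⊆ cfg P H i t j)).card : ℝ)
          ≤ |c U| * (((Ioc a b).filter (fun t => t ≡ c0 [MOD r] ∧ ∀ j, U j ⊆ cfg P H i t j)).card : ℝ) :=
            mul_le_mul_of_nonneg_right (le_abs_self _) (Nat.cast_nonneg _)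
        _ ≤ (CF * (3 : ℝ) ^ (∑ h, (U h).card)) *
            (((b : ℝ) - a) / r * fpr (fun p => (if p ∣ r then (p : ℝ) else 1) / p) U +
              D * fpr (fun p => 1 / (p : ℝ)) U) :=
            mul_le_mul (hc U) (hf.trans (by linarith)) (Nat.cast_nonneg _) (by positivity)
        _ = _ := by ring
  refine (sum_le_sum fun U _ => e2 U).trans ?_
  rw [sum_add_distrib, ← mul_sum, ← mul_sum]
  have s1 : ∑ U : Fam P H, ∏ h, ∏ p ∈ U h, (3 * ((if p.1 ∣ r then (p.1 : ℝ) else 1) / p.1)) ≤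
      4 ^ K * M0 := by
    rw [m4_fam (fun p : {p // p ∈ P} => 3 * ((if p.1 ∣ r then (p.1 : ℝ) else 1) / p.1)),
      m4_all hK (fun p => 1 + 3 * ((if p ∣ r then (p : ℝ) else 1) / p))]
    exact (rm_one hPp K r h1).trans (mul_le_mul_of_nonneg_left hM (by positivity))
  have s2 : ∑ U : Fam P H, ∏ h, ∏ p ∈ U h, (3 * (1 / (p.1 : ℝ))) ≤ M0 := by
    rw [m4_fam (fun p : {p // p ∈ P} => 3 * (1 / (p.1 : ℝ))),
      m4_all hK (fun p => 1 + 3 * (1 / (p : ℝ)))]
    refine le_trans (le_of_eq ?_) hM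
    refine prod_congr rfl fun p _ => ?_
    ring
  have t1 : 0 ≤ CF * (((b : ℝ) - a) / r) := by positivity
  have t2 : 0 ≤ CF * D := by positivity
  calc CF * (((b : ℝ) - a) / r) * ∑ U : Fam P H, ∏ h, ∏ p ∈ U h,
        (3 * ((if p.1 ∣ r then (p.1 : ℝ) else 1) / p.1)) +
        CF * D * ∑ U : Fam P H, ∏ h, ∏ p ∈ U h, (3 * (1 / (p.1 : ℝ)))
      ≤ CF * (((b : ℝ) - a) / r) * (4 ^ K * M0) + CF * D * M0 :=
        add_le_add (mul_le_mul_of_nonneg_left s1 t1) (mul_le_mul_of_nonneg_left s2 t2)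
    _ = _ := by ring

/-- Upper bound for the weight in one residue class.

Proof. `FF (some h) t = ∑_U c U 1[U ⊆ cfg t]`, `|c U| ≤ L^cF 3^|U|`, `fp U ≤ N^(2θ)`. Only the families with pairwise disjoint sets count (as in `m1_zero`).
For such `U` the number of the `t ∈ (Ya, Yb]` with `t ≡ c [MOD r]` and `p ∣ t + h'` for all `p ∈ U_h'` is at most `N/lcm(r, fp U) + 1`
(one class modulo the lcm, or none), and `gcd(r, fp U)` is at most the product of the `p` in the `U_h'` which divide `r` (at most one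
prime of `P` divides `r`). With `1 ≤ N^(2θ)/fp U` the sums over the families are products (`rm_total`), and
`∏ (1 + 3/p)^K ≤ (500 L/log 2)^(3K)`. -/
theorem rcls (K cF A0 : ℕ) (hK : 1 ≤ K) : ∃ B0 : ℕ, ∀ B : ℕ, B0 ≤ B → ∀ θ : ℝ, 0 < θ →
    θ ≤ 1 / 100 → ∃ n0 : ℕ, ∀ N : ℕ, n0 ≤ N → ∀ (w : Par K) (H : Finset ℕ) (p1 : ℕ),
    Pre0 B cF θ w H N p1 → ∀ h ∈ H, ∀ r c : ℕ,
    ((∃ q : ℕ, q.Prime ∧ (r = q ∨ r = q ^ 2)) ∨ ∀ p ∈ w.P, r.Coprime p) → 1 ≤ r →
    ∑ t ∈ (Ioc (Ya N) (Yb N)).filter (fun t => t ≡ c [MOD r]), FF w H (some h) t ≤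
      Real.log N ^ B * (N / r) / Real.log N ^ A0 + (N : ℝ) ^ (1 / 20 : ℝ) := by
  refine ⟨cF + 3 * K + A0 + 10, fun B hB θ hθ0 hθ => ?_⟩
  obtain ⟨n0, hn0⟩ := rm_large (max 1 ((500 / Real.log 2) ^ (3 * K) * 4 ^ K)) (cF + 3 * K + 1)
  refine ⟨n0, fun N hN w H p1 hpre h hh r c hr1 hr => ?_⟩
  obtain ⟨h2N, hL, hlog⟩ := hn0 N hN
  have hL1 : 1 ≤ Real.log N := (le_max_left _ _).trans hL
  have hLC := (le_max_right _ _).trans hL
  have hN1 : (1 : ℝ) ≤ N := by exact_mod_cast (by omega : 1 ≤ N)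
  have hN0 : (0 : ℝ) < N := by linarith
  have hP : ∀ p ∈ w.P, p.Prime ∧ w.W < p := fun p hp => ⟨w.prime p hp, w.big p hp⟩
  have hW2 : 2 ≤ w.W := by
    have h1 := w.KW
    have h2 : 1 ≤ K ^ 2 := Nat.one_le_pow _ _ hK
    omega
  have hPN : ∀ p ∈ w.P, p ≤ N := by
    intro p hp
    have h1 := hpre.PN p hp
    have h2 : (N : ℝ) ^ (1 / 100 : ℝ) ≤ (N : ℝ) ^ (1 : ℝ) :=
      Real.rpow_le_rpow_of_exponent_le hN1 (by norm_num)
    rw [Real.rpow_one] at h2
    exact_mod_cast h1.trans h2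
  have hM := rm_mert K hP hW2 hPN h2N
  obtain ⟨cU, hF, hc, hD⟩ := hpre.exF
  have hone : ∀ p ∈ w.P, ∀ q ∈ w.P, p ∣ r → q ∣ r → p = q := by
    intro p hp q hq hpr hqr
    have hpp := (hP p hp).1
    have hqp := (hP q hq).1
    rcases hr1 with ⟨q0, hq0, hr0⟩ | hr0
    · have key : ∀ x : ℕ, x.Prime → x ∣ r → x = q0 := by
        intro x hx hxr
        rcases hr0 with h1 | h1
        · rw [h1] at hxr
          exact (Nat.prime_dvd_prime_iff_eq hx hq0).1 hxr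
        · rw [h1] at hxr
          exact (Nat.prime_dvd_prime_iff_eq hx hq0).1 (hx.dvd_of_dvd_pow hxr)
      rw [key p hpp hpr, key q hqp hqr]
    · exfalso
      have h1 := hr0 p hp
      have h2 := Nat.Coprime.eq_one_of_dvd h1.symm hpr
      exact hpp.one_lt.ne' h2
  have hYab : Ya N ≤ Yb N := by
    unfold Ya Yb
    exact Nat.div_le_div_right (by omega)
  have hYb : (Yb N : ℝ) ≤ N := by
    have : Yb N ≤ N := by
      unfold Yb
      omega
    exact_mod_cast this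
  have hYa : (0 : ℝ) ≤ (Ya N : ℝ) := Nat.cast_nonneg _
  have hr' : (0 : ℝ) < r := by exact_mod_cast hr
  have htot := rm_total hpre.cardH hP hpre.HD (some h) (FC w H) cU hF (Real.log N ^ cF)
    ((N : ℝ) ^ (2 * θ)) (by positivity) (by positivity) (fun U => by exact_mod_cast hc U) hD r c
    (Ya N) (Yb N) hr hYab _ hM hone
  have hlog2 : 0 < Real.log 2 := Real.log_pos (by norm_num)
  have e1 : (500 * (Real.log N / Real.log 2)) ^ (3 * K) =
      (500 / Real.log 2) ^ (3 * K) * Real.log N ^ (3 * K) := by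
    rw [← mul_pow]
    congr 1
    ring
  rw [e1] at htot
  have hC1 : (1 : ℝ) ≤ 4 ^ K := one_le_pow₀ (by norm_num)
  have hC2 : 0 ≤ (500 / Real.log 2) ^ (3 * K) := by positivity
  have hC3 : (500 / Real.log 2) ^ (3 * K) ≤ Real.log N := by
    refine le_trans ?_ hLC
    exact le_mul_of_one_le_right hC2 hC1
  have b1 : Real.log N ^ cF * ((500 / Real.log 2) ^ (3 * K) * Real.log N ^ (3 * K)) *
      (4 ^ K * (((Yb N : ℝ) - Ya N) / r)) ≤ Real.log N ^ B * (N / r) / Real.log N ^ A0 := by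
    have s1 : ((Yb N : ℝ) - Ya N) / r ≤ N / r := by
      gcongr
      linarith
    have s2 : Real.log N ^ (cF + 3 * K + 1 + A0) ≤ Real.log N ^ B :=
      pow_le_pow_right₀ hL1 (by omega)
    rw [le_div_iff₀ (by positivity)]
    calc Real.log N ^ cF * ((500 / Real.log 2) ^ (3 * K) * Real.log N ^ (3 * K)) *
          (4 ^ K * (((Yb N : ℝ) - Ya N) / r)) * Real.log N ^ A0
        ≤ Real.log N ^ cF * ((500 / Real.log 2) ^ (3 * K) * Real.log N ^ (3 * K)) *
          (4 ^ K * (N / r)) * Real.log N ^ A0 := by gcongr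
      _ = (Real.log N ^ cF * Real.log N ^ (3 * K) * Real.log N ^ A0 * (N / r)) *
          ((500 / Real.log 2) ^ (3 * K) * 4 ^ K) := by ring
      _ ≤ (Real.log N ^ cF * Real.log N ^ (3 * K) * Real.log N ^ A0 * (N / r)) * Real.log N :=
          mul_le_mul_of_nonneg_left hLC (by positivity)
      _ = Real.log N ^ (cF + 3 * K + 1 + A0) * (N / r) := by ring
      _ ≤ Real.log N ^ B * (N / r) := mul_le_mul_of_nonneg_right s2 (by positivity)
  have b2 : Real.log N ^ cF * ((500 / Real.log 2) ^ (3 * K) * Real.log N ^ (3 * K)) *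
      (N : ℝ) ^ (2 * θ) ≤ (N : ℝ) ^ (1 / 20 : ℝ) := by
    have s1 : (N : ℝ) ^ (2 * θ) ≤ (N : ℝ) ^ (1 / 50 : ℝ) :=
      Real.rpow_le_rpow_of_exponent_le hN1 (by linarith)
    calc Real.log N ^ cF * ((500 / Real.log 2) ^ (3 * K) * Real.log N ^ (3 * K)) * (N : ℝ) ^ (2 * θ)
        ≤ Real.log N ^ cF * (Real.log N * Real.log N ^ (3 * K)) * (N : ℝ) ^ (1 / 50 : ℝ) := by gcongr
      _ = Real.log N ^ (cF + 3 * K + 1) * (N : ℝ) ^ (1 / 50 : ℝ) := by ring
      _ ≤ (N : ℝ) ^ (3 / 100 : ℝ) * (N : ℝ) ^ (1 / 50 : ℝ) :=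
          mul_le_mul_of_nonneg_right hlog (by positivity)
      _ = (N : ℝ) ^ (1 / 20 : ℝ) := by
          rw [← Real.rpow_add hN0]
          norm_num
  calc ∑ t ∈ (Ioc (Ya N) (Yb N)).filter (fun t => t ≡ c [MOD r]), FF w H (some h) t
      ≤ Real.log N ^ cF * ((500 / Real.log 2) ^ (3 * K) * Real.log N ^ (3 * K)) *
        (4 ^ K * (((Yb N : ℝ) - Ya N) / r) + (N : ℝ) ^ (2 * θ)) := htot
    _ = Real.log N ^ cF * ((500 / Real.log 2) ^ (3 * K) * Real.log N ^ (3 * K)) *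
        (4 ^ K * (((Yb N : ℝ) - Ya N) / r)) +
        Real.log N ^ cF * ((500 / Real.log 2) ^ (3 * K) * Real.log N ^ (3 * K)) *
        (N : ℝ) ^ (2 * θ) := by ring
    _ ≤ _ := add_le_add b1 b2

/-- Proof. `Par.four_le` with `M = 1`, `b h = h`, `Y = N + 1`; `z ≥ 1`; `w.h ≤ L^3`, `w.lv ≤ N^θ`:
`∑ L^4 ≤ 2 ((n+1)^4 (1 + L^3))^K (N + 1) + 2 N^(4θ) ≤ L^B N` if `B ≥ 4 K + 10` and `N` is large. -/
theorem rmom (K m : ℕ) (hK : 1 ≤ K) : ∃ B0 : ℕ, ∀ B : ℕ, B0 ≤ B → ∀ θ : ℝ, 0 < θ →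
    θ ≤ 1 / 100 → ∃ n0 : ℕ, ∀ N : ℕ, n0 ≤ N → ∀ (w : Par K) (H : Finset ℕ), w.n = m →
    w.h ≤ Real.log N ^ 3 → w.lv ≤ (N : ℝ) ^ θ → H.card = K → (∀ p ∈ w.P, ∀ h ∈ H, ∀ h' ∈ H, h ≠ h' → ¬ h ≡ h' [MOD p]) →
    200 * K ^ 2 ≤ w.W →
    ∑ t ∈ Icc 1 N, FF w H none t ^ 2 ≤ Real.log N ^ B * N := by
  refine ⟨4 * K + 10, fun B hB θ hθ0 hθ => ?_⟩
  obtain ⟨n0, hn0⟩ := rm_large (max 2 (2 * ((m : ℝ) + 1) ^ 4)) 1
  refine ⟨n0, fun N hN w H hm hh hlv hH hW h200 => ?_⟩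
  obtain ⟨h2N, hL, -⟩ := hn0 N hN
  have hL2 : 2 ≤ Real.log N := (le_max_left _ _).trans hL
  have hLC := (le_max_right _ _).trans hL
  have hL1 : 1 ≤ Real.log N := by linarith
  have hN1 : (1 : ℝ) ≤ N := by exact_mod_cast (by omega : 1 ≤ N)
  have hN0 : (0 : ℝ) < N := by linarith
  have h4 := w.four_le (J := {h // h ∈ H}) (by rw [Fintype.card_coe, hH]) 1 (fun h => h.1)
    (a1_forms w H hH hW) h200 (N + 1)
  have hz := w.z_bounds
  have hzK : 1 ≤ w.z ^ K := one_le_pow₀ hz.1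
  have s1 : ∑ t ∈ Icc 1 N, FF w H none t ^ 2 ≤
      ∑ t ∈ range (N + 1), w.L (fun j : {h // h ∈ H} => H15P.hit w.P (j.1 + 1 * t)) ^ 4 := by
    have hsub : Icc 1 N ⊆ range (N + 1) := by
      intro t ht
      rw [mem_Icc] at ht
      rw [mem_range]
      omega
    refine le_trans (sum_le_sum fun t _ => ?_) (sum_le_sum_of_subset_of_nonneg hsub
      (f := fun t => w.L (fun j : {h // h ∈ H} => H15P.hit w.P (j.1 + 1 * t)) ^ 4)
      (fun t _ _ => by positivity))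
    have e : cfg w.P H none t = fun j : {h // h ∈ H} => H15P.hit w.P (j.1 + 1 * t) := by
      funext j
      unfold cfg
      rw [if_neg (by simp), one_mul, add_comm]
    unfold FF
    rw [e, div_pow, ← pow_mul, show 2 * 2 = 4 from rfl]
    exact div_le_self (by positivity) (one_le_pow₀ hzK)
  have s2 : (((w.n : ℝ) + 1) ^ 4 * (1 + w.h)) ^ K ≤ Real.log N ^ (4 * K) := by
    rw [pow_mul]
    have h1 : 0 ≤ w.h := w.h0
    refine pow_le_pow_left₀ (by positivity) ?_ K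
    have h2 : 1 + w.h ≤ 2 * Real.log N ^ 3 := by
      have : 1 ≤ Real.log N ^ 3 := one_le_pow₀ hL1
      linarith
    calc ((w.n : ℝ) + 1) ^ 4 * (1 + w.h) ≤ ((w.n : ℝ) + 1) ^ 4 * (2 * Real.log N ^ 3) :=
          mul_le_mul_of_nonneg_left h2 (by positivity)
      _ = (2 * ((w.n : ℝ) + 1) ^ 4) * Real.log N ^ 3 := by ring
      _ ≤ Real.log N * Real.log N ^ 3 := by
          rw [hm]
          exact mul_le_mul_of_nonneg_right hLC (by positivity)
      _ = Real.log N ^ 4 := by ring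
  have s3 : w.lv ^ 4 ≤ N := by
    have h1 : (0 : ℝ) ≤ w.lv := by
      have := w.lv1
      linarith
    calc w.lv ^ 4 ≤ ((N : ℝ) ^ θ) ^ 4 := pow_le_pow_left₀ h1 hlv 4
      _ = (N : ℝ) ^ (θ * (4 : ℕ)) := by rw [Real.rpow_mul hN0.le, Real.rpow_natCast]
      _ ≤ (N : ℝ) ^ (1 : ℝ) := Real.rpow_le_rpow_of_exponent_le hN1 (by push_cast; linarith)
      _ = N := Real.rpow_one _
  have s4 : Real.log N ^ (4 * K + 3) ≤ Real.log N ^ B := pow_le_pow_right₀ hL1 (by omega)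
  have s5 : (8 : ℝ) ≤ Real.log N ^ 3 := by
    calc (8 : ℝ) = 2 ^ 3 := by norm_num
      _ ≤ Real.log N ^ 3 := pow_le_pow_left₀ (by norm_num) hL2 3
  have s6 : (1 : ℝ) ≤ Real.log N ^ (4 * K) := one_le_pow₀ hL1
  calc ∑ t ∈ Icc 1 N, FF w H none t ^ 2
      ≤ 2 * (((w.n : ℝ) + 1) ^ 4 * (1 + w.h)) ^ K * ((N + 1 : ℕ) : ℝ) + 2 * w.lv ^ 4 := s1.trans h4
    _ ≤ 2 * Real.log N ^ (4 * K) * (2 * N) + 2 * N := by
        refine add_le_add ?_ (by linarith)
        have : ((N + 1 : ℕ) : ℝ) ≤ 2 * N := by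
          push_cast
          linarith
        gcongr
    _ ≤ 8 * (Real.log N ^ (4 * K) * N) := by
        have h1 : (N : ℝ) ≤ Real.log N ^ (4 * K) * N := le_mul_of_one_le_left hN0.le s6
        linarith
    _ ≤ Real.log N ^ 3 * (Real.log N ^ (4 * K) * N) := mul_le_mul_of_nonneg_right s5 (by positivity)
    _ = Real.log N ^ (4 * K + 3) * N := by ring
    _ ≤ Real.log N ^ B * N := mul_le_mul_of_nonneg_right s4 hN0.le

end Pool.Agent.Lib.H57T
end
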