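import Mathlib
import Pool.Agent.Lib.H1M.RV.M001
import Pool.Agent.Lib.H1M.RV.M008
import Pool.Agent.Lib.H1M.RV.M010
import Pool.Agent.Lib.H1M.RV.M029
import Pool.Agent.Lib.H1M.RV.M031
import Pool.Agent.Lib.H1M.RV.M037
import Pool.Agent.Lib.H1M.RV.M042
import Pool.Agent.Lib.H1M.RV.M046
import Pool.Agent.Lib.H1M.RV.M051
import Pool.Agent.Lib.H1M.RV.M058
import Pool.Agent.Lib.H1M.RV.M060
import Pool.Agent.Lib.H1M.RV.M068
import Pool.Agent.Lib.H1M.RV.M069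
import Pool.Agent.Lib.H1M.RV.M070
import Pool.Agent.Lib.H1M.RV.M075
import Pool.Agent.Lib.H1M.RV.M077
import Pool.Agent.Lib.H1M.RV.M087

/-! Merged copies (to shorten the build) of Lib.H57C.RB, Lib.H57C.RI, Lib.H57C.RJ, Lib.H57C.RC, Lib.H57C.REG, Lib.H57C.S1. -/

-- from Lib.H57C.RB
section

/-!
# Chunk RB: the remainder terms for the sequence `t + h` prime
-/

open Finset

namespace Pool.Agent.Lib.H57C

open Pool.Agent.Lib.H57M

theorem RB_ev (k : ℕ) (s C : ℝ) (hs : 0 < s) (hC : 0 < C) : ∃ n0 : ℕ, ∀ N : ℕ, n0 ≤ N →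
    C * Real.log N ^ k ≤ (N : ℝ) ^ s := by
  have h1 : ∀ᶠ x : ℝ in Filter.atTop, C * Real.log x ^ k ≤ x ^ s := by
    have e1 := (isLittleO_log_rpow_rpow_atTop (k : ℝ) hs).def (show (0 : ℝ) < 1 / C by positivity)
    filter_upwards [e1, Filter.eventually_ge_atTop (1 : ℝ)] with x hx1 hx2
    have hl : 0 ≤ Real.log x := Real.log_nonneg hx2
    rw [Real.rpow_natCast, Real.norm_eq_abs, Real.norm_eq_abs, abs_of_nonneg (pow_nonneg hl _),
      abs_of_nonneg (Real.rpow_nonneg (by linarith) _)] at hx1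
    calc C * Real.log x ^ k ≤ C * (1 / C * x ^ s) := mul_le_mul_of_nonneg_left hx1 hC.le
      _ = x ^ s := by
          field_simp
  obtain ⟨n0, hn0⟩ := Filter.eventually_atTop.1
    ((tendsto_natCast_atTop_atTop (R := ℝ)).eventually h1)
  exact ⟨n0, hn0⟩

theorem RB_DD (B : ℕ) (θ : ℝ) (hθ : 0 < θ) (hθ1 : θ ≤ 1 / 100) : ∃ n0 : ℕ, ∀ n : ℕ, n0 ≤ n →
    (n : ℝ) ^ (1 / 2 - θ) ≤ (H59C.DD n B : ℕ) := by
  obtain ⟨n0, hn0⟩ := RB_ev B θ 2 hθ (by norm_num)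
  refine ⟨max n0 3, fun n hn => ?_⟩
  have h1 := hn0 n (le_trans (le_max_left _ _) hn)
  have hn3 : 3 ≤ n := le_trans (le_max_right _ _) hn
  have hnr : (3 : ℝ) ≤ n := by exact_mod_cast hn3
  have hL : 0 < Real.log n := Real.log_pos (by linarith)
  unfold H59C.DD
  have h2 : (n : ℝ) ^ (1 / 2 - θ) + 1 ≤ Real.sqrt n / Real.log n ^ B := by
    rw [le_div_iff₀ (by positivity)]
    have h3 : 1 ≤ (n : ℝ) ^ (1 / 2 - θ) := Real.one_le_rpow (by linarith) (by linarith)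
    have h4 : (n : ℝ) ^ (1 / 2 - θ) * (n : ℝ) ^ θ = Real.sqrt n := by
      rw [Real.sqrt_eq_rpow, ← Real.rpow_add (by linarith)]
      congr 1
      ring
    calc ((n : ℝ) ^ (1 / 2 - θ) + 1) * Real.log n ^ B
        ≤ ((n : ℝ) ^ (1 / 2 - θ) * 2) * Real.log n ^ B := by
          apply mul_le_mul_of_nonneg_right _ (by positivity)
          linarith
      _ = (n : ℝ) ^ (1 / 2 - θ) * (2 * Real.log n ^ B) := by ring
      _ ≤ (n : ℝ) ^ (1 / 2 - θ) * (n : ℝ) ^ θ := mul_le_mul_of_nonneg_left h1 (by linarith)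
      _ = Real.sqrt n := h4
  have h5 := Nat.lt_floor_add_one (Real.sqrt n / Real.log n ^ B)
  linarith

theorem RB_FC {K : ℕ} (w : Par K) (H : Finset ℕ) (S : {h // h ∈ H} → Finset {p // p ∈ w.P}) :
    0 ≤ FC w H S := by
  have hz : 0 ≤ w.z := by
    unfold Par.z
    have : 0 ≤ ∑ i, H15P.ex (H15P.qq w.P K) (fun A => w.D i A ^ 2) :=
      Finset.sum_nonneg fun i _ => H15P.ex_nonneg _ w.good.q0 w.good.q1 _ fun A => sq_nonneg _
    linarith
  unfold FC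
  exact div_nonneg (sq_nonneg _) (pow_nonneg hz _)

theorem RB_gq0 (q : ℕ) (hq : q.Prime) : 0 ≤ H59C.gq q := by
  have h2 : (2 : ℝ) ≤ q := by exact_mod_cast hq.two_le
  unfold H59C.gq
  exact div_nonneg zero_le_one (by linarith)

theorem RB_gq2 (q : ℕ) (hq : q.Prime) : H59C.gq q ≤ 2 / q := by
  have h2 : (2 : ℝ) ≤ q := by exact_mod_cast hq.two_le
  unfold H59C.gq
  rw [div_le_div_iff₀ (by linarith) (by linarith)]
  linarith

theorem RB_gqq (q : ℕ) (hq : q.Prime) : |H59C.gq q - 1 / q| ≤ 2 / (q : ℝ) ^ 2 := by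
  have h2 : (2 : ℝ) ≤ q := by exact_mod_cast hq.two_le
  have h3 : (q : ℝ) - 1 ≠ 0 := by linarith
  have h4 : (q : ℝ) ≠ 0 := by linarith
  have h1 : H59C.gq q - 1 / q = 1 / (((q : ℝ) - 1) * q) := by
    unfold H59C.gq
    field_simp
    ring
  have h5 : 0 < ((q : ℝ) - 1) * q := mul_pos (by linarith) (by linarith)
  rw [h1, abs_of_nonneg (by positivity), div_le_div_iff₀ h5 (by positivity)]
  nlinarith

theorem RB_XX (n y1 y2 : ℕ) (h2 : y2 ≤ n) (hL : 1 ≤ Real.log n) :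
    H59C.XX y1 y2 ≤ n * Real.log n ^ 2 := by
  unfold H59C.XX
  have h1 : ∀ p ∈ H59C.Sq y1 y2, H59C.lg p ≤ Real.log n := by
    intro p hp
    rw [Pool.Agent.Lib.H59C.mem_Sq] at hp
    unfold H59C.lg
    apply Real.log_le_log (by exact_mod_cast hp.2.pos)
    exact_mod_cast (by omega : p ≤ n)
  have h3 := Finset.sum_le_card_nsmul _ _ _ h1
  rw [nsmul_eq_mul] at h3
  have h4 : ((H59C.Sq y1 y2).card : ℝ) ≤ n := by
    have h5 : (H59C.Sq y1 y2).card ≤ n := by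
      unfold H59C.Sq
      refine le_trans (card_filter_le _ _) ?_
      rw [Nat.card_Ioc]
      omega
    exact_mod_cast h5
  refine le_trans h3 ?_
  have h6 : Real.log n ≤ Real.log n ^ 2 := by nlinarith
  exact mul_le_mul h4 h6 (by linarith) (Nat.cast_nonneg _)

theorem RB_large (B : ℕ) : ∃ n0 : ℕ, ∀ N : ℕ, n0 ≤ N →
    1000 ≤ N ∧ 1 ≤ Real.log N ∧ 100 * (Real.log N ^ B + 1) ≤ (N : ℝ) ∧
      10 * (N : ℝ) ^ (1 / 100 : ℝ) ≤ N := by
  have h1 : ∀ᶠ x : ℝ in Filter.atTop, 1 ≤ Real.log x ∧ 100 * (Real.log x ^ B + 1) ≤ x := by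
    have e1 := (Real.isLittleO_pow_log_id_atTop (n := B)).def (show (0 : ℝ) < 1 / 200 by norm_num)
    filter_upwards [e1, Filter.eventually_ge_atTop (200 : ℝ),
      Real.tendsto_log_atTop.eventually_ge_atTop 1] with x hx1 hx2 hx3
    refine ⟨hx3, ?_⟩
    rw [Real.norm_eq_abs, Real.norm_eq_abs, abs_of_nonneg (pow_nonneg (by linarith) _), id, abs_of_nonneg (by linarith)] at hx1
    linarith
  obtain ⟨n0, hn0⟩ := Filter.eventually_atTop.1
    ((tendsto_natCast_atTop_atTop (R := ℝ)).eventually h1)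
  refine ⟨max n0 1000, fun N hN => ?_⟩
  obtain ⟨a1, a2⟩ := hn0 N (le_trans (le_max_left _ _) hN)
  have a3 : 1000 ≤ N := le_trans (le_max_right _ _) hN
  have a4 : (1000 : ℝ) ≤ N := by exact_mod_cast a3
  refine ⟨a3, a1, a2, ?_⟩
  have h2 : (N : ℝ) ^ (1 / 100 : ℝ) ≤ (N : ℝ) ^ (1 / 2 : ℝ) :=
    Real.rpow_le_rpow_of_exponent_le (by linarith) (by norm_num)
  have h3 : 10 ≤ (N : ℝ) ^ (1 / 2 : ℝ) := by
    rw [← Real.sqrt_eq_rpow]
    apply Real.le_sqrt_of_sq_le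
    linarith
  have h4 : (N : ℝ) ^ (1 / 2 : ℝ) * (N : ℝ) ^ (1 / 2 : ℝ) = N := by
    rw [← Real.rpow_add (by linarith)]
    norm_num
  nlinarith

/-- The hypotheses of the transfer theorem. -/
theorem RB_Hy (B cF K k : ℕ) (θ : ℝ) (n : ℕ) (w : Par K) (H : Finset ℕ) (p1 : ℕ)
    (R T : ℕ → Finset ℕ) (P' : Finset ℕ) (hP : Pre0 B cF θ w H n p1)
    (hT : HRT K k w.W p1 H R T P') (h : ℕ) (hh : h ∈ H) (hn : 1000 ≤ n)
    (hl : 100 * (Real.log n ^ B + 1) ≤ (n : ℝ)) (hL : 1 ≤ Real.log n)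
    (hr : 10 * (n : ℝ) ^ (1 / 100 : ℝ) ≤ n) :
    Hy (sB h (Ya n + h) (Yb n + h)) w.P H (some h) w.W p1 R T P' (K + k) 0 := by
  have hW : 100 * w.W ≤ n := by
    have h1 : (w.W : ℝ) ≤ Real.log n ^ B + 1 := by
      rw [hP.Wdef]
      exact (Nat.ceil_lt_add_one (by positivity)).le
    have h3 : (100 * w.W : ℝ) ≤ n := by linarith
    exact_mod_cast h3
  have hPs : ∀ q ∈ Ps w.W p1, q.Prime := fun q hq => a2_Ps hq
  refine ⟨?_, ?_, ?_, ?_, RB_gq0, RB_gq2, fun q hq _ => RB_gqq q hq,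
    fun p hp => ⟨w.prime p hp, w.big p hp⟩, hP.p1p, hP.p1W, hP.HW, ?_, hT.Rr, hT.Rk, ?_,
    hT.P'p, hT.Tr, ?_, ?_, ?_, ?_⟩
  · intro j _
    show 0 ≤ H59C.lg j
    unfold H59C.lg
    exact Real.log_natCast_nonneg _
  · show 0 ≤ H59C.XX (Ya n + h) (Yb n + h)
    unfold H59C.XX H59C.lg
    exact sum_nonneg fun p _ => Real.log_natCast_nonneg _
  · intro q c c' hc
    show ¬ q ∣ c + h ↔ ¬ q ∣ c' + h
    have h1 : c + h ≡ c' + h [MOD q] := hc.add_right h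
    rw [h1.dvd_iff (dvd_refl q)]
  · intro j hj _ q hq hqq
    show ¬ q ∣ j - h + h
    have hj' : j ∈ H59C.Sq (Ya n + h) (Yb n + h) := hj
    rw [Pool.Agent.Lib.H59C.mem_Sq] at hj'
    obtain ⟨⟨h1, h2⟩, h3⟩ := hj'
    rw [Nat.sub_add_cancel (by omega)]
    intro hd
    have h4 : q = j := (Nat.prime_dvd_prime_iff_eq hq h3).1 hd
    have h5 : 10 * q ≤ n := by
      rcases hqq with hqq | hqq
      · have h6 := hP.PN q hqq
        have h7 : (10 * q : ℝ) ≤ n := by linarith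
        exact_mod_cast h7
      · omega
    unfold Ya at h1
    omega
  · intro h' hh'
    rw [Option.some.injEq] at hh'
    rw [← hh']
    exact hh
  · classical
    intro q hq
    have hqp := hPs q hq
    have h0 : ∀ S : Finset ℕ, S ⊆ R q → (S.card : ℝ) * H59C.gq q ≤ 1 := by
      intro S hS
      have h1 : S.card + 1 ≤ q := by
        have h2 := hT.Rq q hq
        have h3 := card_le_card hS
        omega
      have h2 : (S.card : ℝ) + 1 ≤ q := by exact_mod_cast h1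
      have h3 : (2 : ℝ) ≤ q := by exact_mod_cast hqp.two_le
      unfold H59C.gq
      rw [mul_one_div, div_le_one (by linarith)]
      linarith
    exact h0 _ (filter_subset _ _)
  · intro q hq
    have := hT.Tk q hq
    omega
  · intro q hq t ht
    exact hT.TH q hq t ht h hh
  · intro q hq t ht h' hh' _
    exact hT.TH q hq t ht h' hh'
  · classical
    rw [Nat.le_zero, card_eq_zero]
    refine Finset.eq_empty_of_forall_notMem fun p hpf => ?_
    rw [mem_filter] at hpf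
    obtain ⟨hp, h', hh', hne, c, hc1, hc2⟩ := hpf
    have hc3 : p ∣ c + h := by
      by_contra hcon
      exact hc2 hcon
    have hpW := w.big p hp
    have hW1 := hP.HW h hh
    have hW2 := hP.HW h' hh'
    have hne' : h ≠ h' := fun he => hne (by rw [he])
    rcases Nat.lt_or_ge h h' with hlt | hge
    · have h5 : p ∣ (c + h') - (c + h) := Nat.dvd_sub hc1 hc3
      have h6 := Nat.le_of_dvd (by omega) h5
      omega
    · have h5 : p ∣ (c + h) - (c + h') := Nat.dvd_sub hc3 hc1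
      have h6 := Nat.le_of_dvd (by omega) h5
      omega

/-- Proof. `mta` with `k` replaced by `K + k`, for the sequence `sB h (Ya n + h) (Yb n + h)`, `i = some h`, `P = w.P`, `F = FC w H`,
`b = 0`, `hr = gq`, `D = DD n B1` from `lvlB A (3 K + 2 (K + k))` (`n^(1/2 - θ) ≤ DD n B1` for large `n`). `A'` is the one of `lvlB`. The hypotheses `Hy`:
* `nev`: `t = p - h`, `t + h = p > Ya n` prime, and the primes of `w.P` and those `≤ W` are `≤ n^(1/100) < p` (`Pre0.PN`, `Wdef`).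
* `hd = gq`: `1/(q-1) - 1/q = 1/(q(q-1)) ≤ 2/q^2`.
* `R1`: `#R < q` and the class `-h` (which is in `R q` by `RH`) is not allowed: `#.. ≤ q - 1` (even `q - 2`), `gq q = 1/(q-1)`.
* `TA`, `TH`: `HRT.TH`. `bad`: empty (`p ∣ c + h'`, `p ∣ c + h`, `h ≠ h'`, `|h - h'| ≤ W < p`).
`FC w H (cfg ..) = FF`; `VS = VbR` (`vs_BR`); `0 ≤ XX ≤ n log^2 n`. -/
theorem rBR (K k cF A0 : ℕ) (hK : 1 ≤ K) (hk : 1 ≤ k) : ∃ A' B0 : ℕ, ∀ B : ℕ, B0 ≤ B → ∀ θ : ℝ,
    0 < θ → θ ≤ 1 / 100 → ∃ n0 : ℕ, ∀ n : ℕ, n0 ≤ n → ∀ (w : Par K) (H : Finset ℕ) (p1 : ℕ)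
    (R T : ℕ → Finset ℕ) (P' : Finset ℕ), Pre0 B cF θ w H n p1 → HRT K k w.W p1 H R T P' →
    H59C.SWp A' n p1 → ∀ h ∈ H, ∑ d ∈ Dv P' (Lv n θ),
    |∑ p ∈ (H59C.Sq (Ya n + h) (Yb n + h)).filter (fun p => inT T d (p - h)),
        H59C.lg p * (FF w H (some h) (p - h) * Sg (Ps w.W p1) R (p - h)) -
      H59C.XX (Ya n + h) (Yb n + h) * (AE w.P H (some h) (FC w H) * VbR (Ps w.W p1) R) *
        ∏ q ∈ d.primeFactors, (((T q).card : ℝ) * H59C.gq q)| ≤ n / Real.log n ^ A0 := by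
  obtain ⟨A, B0, hm⟩ := mta K (K + k) cF A0 hK (by omega)
  obtain ⟨A', B1, n1, hl⟩ := lvlB A (K * 3 + 2 * (K + k))
  refine ⟨A', B0, fun B hB θ hθ hθ1 => ?_⟩
  obtain ⟨n2, hm2⟩ := hm B hB θ hθ hθ1
  obtain ⟨n3, hn3⟩ := RB_DD B1 θ hθ hθ1
  obtain ⟨n4, hn4⟩ := RB_large B
  refine ⟨max (max n1 n2) (max n3 n4), fun n hn w H p1 R T P' hP hT hSW h hh => ?_⟩
  have hN1 : n1 ≤ n := le_trans (le_trans (le_max_left _ _) (le_max_left _ _)) hn
  have hN2 : n2 ≤ n := le_trans (le_trans (le_max_right _ _) (le_max_left _ _)) hn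
  have hN3 : n3 ≤ n := le_trans (le_trans (le_max_left _ _) (le_max_right _ _)) hn
  have hN4 : n4 ≤ n := le_trans (le_trans (le_max_right _ _) (le_max_right _ _)) hn
  obtain ⟨g1, g2, g3, g4⟩ := hn4 n hN4
  have hnr : (1000 : ℝ) ≤ n := by exact_mod_cast g1
  have hHy := RB_Hy B cF K k θ n w H p1 R T P' hP hT h hh g1 g3 g2 g4
  have hW : 100 * w.W ≤ n := by
    have h1 : (w.W : ℝ) ≤ Real.log n ^ B + 1 := by
      rw [hP.Wdef]
      exact (Nat.ceil_lt_add_one (by positivity)).le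
    have h3 : (100 * w.W : ℝ) ≤ n := by linarith
    exact_mod_cast h3
  have hhW := hP.HW h hh
  have hYn : Yb n + h ≤ n := by
    unfold Yb
    omega
  have hYY : Ya n ≤ Yb n := by
    unfold Ya Yb
    omega
  have hlvl := hl n hN1 p1 hSW h (Ya n + h) (Yb n + h) (by omega) (by omega) (by omega)
  have hPn : ∀ p ∈ w.P, p ≤ n := by
    intro p hp
    have h1 := hP.PN p hp
    have h2 : (p : ℝ) ≤ n := by
      have h3 : 0 ≤ (n : ℝ) ^ (1 / 100 : ℝ) := Real.rpow_nonneg (by linarith) _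
      linarith
    exact_mod_cast h2
  have hX : (sB h (Ya n + h) (Yb n + h)).X ≤ n * Real.log n ^ 2 := RB_XX n _ _ hYn g2
  have hb : ((0 : ℕ) : ℝ) ≤ Real.log n ^ 2 := by
    rw [Nat.cast_zero]
    exact sq_nonneg _
  have key := hm2 n hN2 (sB h (Ya n + h) (Yb n + h)) w.P H (some h) w.W p1 R T P' 0 H59C.gq
    (FC w H) (H59C.DD n B1) hHy RB_gq0 RB_gq2 (fun q hq _ => RB_gqq q hq) hP.cardH hP.Wdef hPn hX hb
    (RB_FC w H) hP.exF (hn3 n hN3) hlvl
  have hVS : VS (Ps w.W p1) R H59C.gq (fun q c => ¬ q ∣ c + h) = VbR (Ps w.W p1) R :=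
    vs_BR _ R h (fun q hq => a2_Ps hq) (fun q _ => hT.Rr q) (fun q hq => hT.RH q hq h hh)
  rw [← hVS]
  exact key

/-- Proof. `rBR` with `k = 1`, `A0 = 10`, `R = Rb N H`, `T q = {N % q}`, `P' = Pg N w.W H` (`pre_hrt`, `Pre.to0`). `inT T d (p - h)` iff `d ∣ N - (p - h) =
Nat.dist (N + h) p` (`inT_iff`; `h ≤ p ≤ N + h`), `∏ gq = 1/φ(d)` (`prod_gq`). -/
theorem rB (K cF : ℕ) (hK : 1 ≤ K) : ∃ A' B0 : ℕ, ∀ B : ℕ, B0 ≤ B → ∀ θ : ℝ, 0 < θ →
    θ ≤ 1 / 100 → ∃ n0 : ℕ, ∀ N : ℕ, n0 ≤ N → ∀ (w : Par K) (H : Finset ℕ) (p1 : ℕ),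
    Pre B cF θ w H N p1 → H59C.SWp A' N p1 → ∀ h ∈ H, ∑ d ∈ Dv (Pg N w.W H) (Lv N θ),
    |∑ p ∈ (H59C.Sq (Ya N + h) (Yb N + h)).filter (fun p => d ∣ Nat.dist (N + h) p),
        H59C.lg p * Fs w H N p1 (some h) (p - h) -
      Xh w H N p1 h / (Nat.totient d : ℝ)| ≤ N / Real.log N ^ 10 := by
  obtain ⟨A', B0, hm⟩ := rBR K 1 cF 10 hK (le_refl 1)
  refine ⟨A', B0, fun B hB θ hθ hθ1 => ?_⟩
  obtain ⟨n0, hn0⟩ := hm B hB θ hθ hθ1
  refine ⟨n0, fun N hN w H p1 hP hSW h hh => ?_⟩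
  have key := hn0 N hN w H p1 (Rb N H) (fun q => {N % q}) (Pg N w.W H) hP.to0
    (pre_hrt B cF θ w H N p1 hP) hSW h hh
  refine le_trans (le_of_eq ?_) key
  refine sum_congr rfl fun d hd => ?_
  have hsq : Squarefree d := by
    unfold Dv at hd
    exact (mem_filter.1 hd).2.1
  have hYb : Yb N ≤ N := by
    unfold Yb
    omega
  have hf : (H59C.Sq (Ya N + h) (Yb N + h)).filter (fun p => d ∣ Nat.dist (N + h) p) =
      (H59C.Sq (Ya N + h) (Yb N + h)).filter (fun p => inT (fun q => {N % q}) d (p - h)) := by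
    refine filter_congr fun p hp => ?_
    rw [Pool.Agent.Lib.H59C.mem_Sq] at hp
    rw [inT_iff N d (p - h) hsq (by omega)]
    have h1 : Nat.dist (N + h) p = N - (p - h) := by
      unfold Nat.dist
      omega
    rw [h1]
  have hg : ∏ q ∈ d.primeFactors, (((({N % q} : Finset ℕ)).card : ℝ) * H59C.gq q) =
      1 / (Nat.totient d : ℝ) := by
    rw [← prod_gq d hsq]
    refine prod_congr rfl fun q _ => ?_
    rw [card_singleton, Nat.cast_one, one_mul]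
  rw [hf, hg, mul_one_div]
  rfl

end Pool.Agent.Lib.H57C
end

-- from Lib.H57C.RI
section

/-!
# Chunk RI: the remainder terms for the integers
-/

open Finset

namespace Pool.Agent.Lib.H57C

open Pool.Agent.Lib.H57M

theorem ri_Ps {W p1 q : ℕ} (hq : q ∈ Ps W p1) : q.Prime ∧ q ≤ W ∧ q ≠ p1 := by
  unfold Ps at hq
  rw [mem_filter, mem_Icc] at hq
  exact ⟨hq.2.1, hq.1.2, hq.2.2⟩

theorem ri_FC {K : ℕ} (w : Par K) (H : Finset ℕ) (S : {h // h ∈ H} → Finset {p // p ∈ w.P}) :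
    0 ≤ FC w H S := by
  unfold FC
  have := w.z_bounds.1
  positivity

/-- The hypotheses for the integers. -/
theorem ri_hy {B cF : ℕ} {θ : ℝ} {K k : ℕ} {w : Par K} {H : Finset ℕ} {n p1 : ℕ}
    {R T : ℕ → Finset ℕ} {P' : Finset ℕ} (h0 : Pre0 B cF θ w H n p1)
    (h1 : HRT K k w.W p1 H R T P') (N r y1 y2 : ℕ) (hy : y1 ≤ y2) (i : Option ℕ)
    (hi : ∀ h, i = some h → h ∈ H) (T' : ℕ → Finset ℕ) (k' : ℕ) (hk : K + k ≤ k')
    (Tr : ∀ q ∈ P', T' q ⊆ range q) (Tk : ∀ q ∈ P', (T' q).card ≤ k')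
    (TH : ∀ q ∈ P', ∀ t ∈ T' q, ∀ h ∈ H, i ≠ some h → ¬ q ∣ t + h) :
    Hy (sI N r y1 y2) w.P H i w.W p1 R T' P' k' 0 where
  w0 := fun j _ => zero_le_one
  X0 := by
    have : (y1 : ℝ) ≤ y2 := by exact_mod_cast hy
    have h2 : (0 : ℝ) ≤ (y2 : ℝ) - y1 := by linarith
    exact div_nonneg h2 (Nat.cast_nonneg r)
  al := fun q c c' _ => Iff.rfl
  nev := fun j _ _ q _ _ => trivial
  hd0 := fun q _ => by
    show (0 : ℝ) ≤ 1 / (q : ℝ)
    positivity
  hd2 := fun q _ => by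
    show 1 / (q : ℝ) ≤ 2 / (q : ℝ)
    gcongr
    norm_num
  hdq := fun q _ _ => by
    show |1 / (q : ℝ) - 1 / (q : ℝ)| ≤ 2 / (q : ℝ) ^ 2
    rw [sub_self, abs_zero]
    positivity
  Pp := fun p hp => ⟨w.prime p hp, w.big p hp⟩
  p1p := h0.p1p
  p1W := h0.p1W
  HW := h0.HW
  iH := hi
  Rr := h1.Rr
  Rk := fun q hq => (h1.Rk q hq).trans hk
  R1 := fun q hq => by
    classical
    have h2 : (((R q).filter (fun c => (sI N r y1 y2).Al q c)).card : ℝ) ≤ q := by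
      have h3 : ((R q).filter (fun c => (sI N r y1 y2).Al q c)).card ≤ q :=
        (card_filter_le _ _).trans (h1.Rq q hq).le
      exact_mod_cast h3
    have hq0 : (0 : ℝ) < q := by exact_mod_cast (ri_Ps hq).1.pos
    show _ * (1 / (q : ℝ)) ≤ 1
    rw [mul_one_div, div_le_one hq0]
    exact h2
  P'p := h1.P'p
  Tr := Tr
  Tk := Tk
  TA := fun q _ t _ => trivial
  TH := TH
  bad := by
    classical
    rw [Nat.le_zero, card_eq_zero, filter_eq_empty_iff]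
    rintro p _ ⟨h, _, _, c, _, hn⟩
    exact hn trivial

theorem ri_Ya (n : ℕ) : Ya n ≤ Yb n := by
  unfold Ya Yb
  omega

theorem ri_Yb (n : ℕ) : Yb n ≤ n := by
  unfold Yb
  omega

/-- The total weight. -/
theorem ri_X (n N r : ℕ) (hr : 1 ≤ r) (hn : 3 ≤ n) :
    (sI N r (Ya n) (Yb n)).X ≤ n * Real.log n ^ 2 := by
  show ((Yb n : ℝ) - Ya n) / r ≤ _
  have h1 : ((Yb n : ℝ) - Ya n) ≤ n := by
    have h2 : (Yb n : ℝ) ≤ n := by exact_mod_cast ri_Yb n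
    have h3 : (0 : ℝ) ≤ Ya n := Nat.cast_nonneg _
    linarith
  have h2 : (1 : ℝ) ≤ r := by exact_mod_cast hr
  have hn0 : (0 : ℝ) ≤ n := Nat.cast_nonneg n
  have h3 : (1 : ℝ) ≤ Real.log n := by
    rw [Real.le_log_iff_exp_le (by positivity)]
    have h4 : (3 : ℝ) ≤ n := by exact_mod_cast hn
    linarith [Real.exp_one_lt_d9]
  calc ((Yb n : ℝ) - Ya n) / r ≤ n / r := by gcongr
    _ ≤ n / 1 := by gcongr
    _ = n * 1 ^ 2 := by ring
    _ ≤ n * Real.log n ^ 2 := by gcongr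

/-- The level. -/
theorem ri_lev (θ : ℝ) (hθ : 0 < θ) : ∃ n0 : ℕ, ∀ n : ℕ, n0 ≤ n →
    (n : ℝ) ^ (1 / 2 - θ) ≤ (⌊Real.sqrt n⌋₊ : ℕ) := by
  have h1 : Filter.Tendsto (fun n : ℕ => (n : ℝ) ^ θ) Filter.atTop Filter.atTop :=
    (tendsto_rpow_atTop hθ).comp tendsto_natCast_atTop_atTop
  obtain ⟨n0, hn0⟩ := Filter.eventually_atTop.1 (h1.eventually_ge_atTop 2)
  refine ⟨max n0 4, fun n hn => ?_⟩
  have h2 := hn0 n ((le_max_left _ _).trans hn)
  have h3 : 4 ≤ n := (le_max_right _ _).trans hn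
  have h3' : (4 : ℝ) ≤ n := by exact_mod_cast h3
  have hn0' : (0 : ℝ) < n := by linarith
  have h4 : Real.sqrt n < ⌊Real.sqrt n⌋₊ + 1 := Nat.lt_floor_add_one _
  have h5 : (2 : ℝ) ≤ Real.sqrt n := by
    rw [show (2 : ℝ) = Real.sqrt 4 by rw [show (4 : ℝ) = 2 ^ 2 by norm_num]; simp]
    exact Real.sqrt_le_sqrt h3'
  have h6 : (n : ℝ) ^ (1 / 2 - θ) * (n : ℝ) ^ θ = Real.sqrt n := by
    rw [← Real.rpow_add hn0', Real.sqrt_eq_rpow]
    congr 1
    ring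
  have h7 : 0 ≤ (n : ℝ) ^ (1 / 2 - θ) := by positivity
  nlinarith

/-- Proof. `mta` with `k` replaced by `K + k`, for the sequence `sI 0 1 (Ya n) (Yb n)` (`lvlI`, `D = ⌊√n⌋₊ ≥ n^(1/2 - θ)`), `i = none`, `b = 0`.
All classes are allowed. `TH`: `HRT.TH`. `R1`: `#R ≤ q`, `hd = 1/q`. `VS = VaR` (`vs_IR`), the condition `t ≡ 0 [MOD 1]` is empty. -/
theorem rIR (K k cF A0 : ℕ) (hK : 1 ≤ K) (hk : 1 ≤ k) : ∃ B0 : ℕ, ∀ B : ℕ, B0 ≤ B → ∀ θ : ℝ,
    0 < θ → θ ≤ 1 / 100 → ∃ n0 : ℕ, ∀ n : ℕ, n0 ≤ n → ∀ (w : Par K) (H : Finset ℕ) (p1 : ℕ)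
    (R T : ℕ → Finset ℕ) (P' : Finset ℕ), Pre0 B cF θ w H n p1 → HRT K k w.W p1 H R T P' →
    ∀ hr : ℕ → ℝ, (∀ q : ℕ, q.Prime → 0 ≤ hr q) → (∀ q : ℕ, q.Prime → hr q ≤ 2 / q) →
    (∀ q : ℕ, q.Prime → w.W < q → |hr q - 1 / q| ≤ 2 / (q : ℝ) ^ 2) →
    ∑ d ∈ Dv P' (Lv n θ),
    |∑ t ∈ (Ioc (Ya n) (Yb n)).filter (fun t => inT T d t),
        FF w H none t * Sg (Ps w.W p1) R t -
      ((Yb n : ℝ) - Ya n) * (AE w.P H none (FC w H) * VaR (Ps w.W p1) R) *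
        ∏ q ∈ d.primeFactors, (((T q).card : ℝ) * hr q)| ≤ n / Real.log n ^ A0 := by
  obtain ⟨A, B0, hB0⟩ := mta K (K + k) cF A0 hK (by omega)
  refine ⟨B0, fun B hB θ hθ hθ' => ?_⟩
  obtain ⟨n1, hn1⟩ := hB0 B hB θ hθ hθ'
  obtain ⟨n2, hn2⟩ := lvlI A (K * 3 + 2 * (K + k))
  obtain ⟨n3, hn3⟩ := ri_lev θ hθ
  refine ⟨max (max n1 n2) (max n3 3), fun n hn w H p1 R T P' h0 h1 hr hr0 hr2 hrq => ?_⟩
  have hn1' : n1 ≤ n := ((le_max_left _ _).trans (le_max_left _ _)).trans hn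
  have hn2' : n2 ≤ n := ((le_max_right _ _).trans (le_max_left _ _)).trans hn
  have hn3' : n3 ≤ n := ((le_max_left _ _).trans (le_max_right _ _)).trans hn
  have hn4' : 3 ≤ n := ((le_max_right _ _).trans (le_max_right _ _)).trans hn
  have hn0 : (1 : ℝ) ≤ n := by
    have : 1 ≤ n := by omega
    exact_mod_cast this
  have hHy := ri_hy h0 h1 0 1 (Ya n) (Yb n) (ri_Ya n) none (by simp) T (K + k) le_rfl h1.Tr
    (fun q hq => (h1.Tk q hq).trans (by omega)) (fun q hq t ht h hh _ => h1.TH q hq t ht h hh)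
  have key := hn1 n hn1' (sI 0 1 (Ya n) (Yb n)) w.P H none w.W p1 R T P' 0 hr (FC w H)
    ⌊Real.sqrt n⌋₊ hHy hr0 hr2 hrq h0.cardH h0.Wdef
    (fun p hp => by
      have h2 := h0.PN p hp
      have h3 : (n : ℝ) ^ (1 / 100 : ℝ) ≤ (n : ℝ) ^ (1 : ℝ) :=
        Real.rpow_le_rpow_of_exponent_le hn0 (by norm_num)
      rw [Real.rpow_one] at h3
      exact_mod_cast h2.trans h3)
    (ri_X n 0 1 le_rfl hn4') (by push_cast; positivity) (ri_FC w H) h0.exF (hn3 n hn3')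
    (hn2 n hn2' p1 0 1 (Ya n) (Yb n) h0.p1p (Or.inl rfl) (ri_Ya n))
  refine le_trans (le_of_eq ?_) key
  refine sum_congr rfl fun d _ => ?_
  have e1 : (sI 0 1 (Ya n) (Yb n)).S = Ioc (Ya n) (Yb n) := by
    show (Ioc (Ya n) (Yb n)).filter (fun t => t ≡ 0 [MOD 1]) = _
    rw [filter_true_of_mem]
    intro t _
    exact Nat.modEq_one
  have e2 : VS (Ps w.W p1) R (sI 0 1 (Ya n) (Yb n)).hd (sI 0 1 (Ya n) (Yb n)).Al =
      VaR (Ps w.W p1) R := vs_IR _ _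
  rw [e1, e2]
  congr 1
  congr 1
  · refine sum_congr rfl fun t _ => ?_
    show _ = 1 * _
    rw [one_mul]
    rfl
  · congr 2
    show _ = ((Yb n : ℝ) - Ya n) / ((1 : ℕ) : ℝ)
    rw [Nat.cast_one, div_one]

/-- Proof. `rIR` with `k = 1`, `A0 = 10`, `R = Rb N H`, `T q = {N % q}`, `P' = Pg N w.W H`, `hr = gq` (`pre_hrt`, `Pre.to0`, `inT_iff`, `prod_gq`). -/
theorem rI (K cF : ℕ) (hK : 1 ≤ K) : ∃ B0 : ℕ, ∀ B : ℕ, B0 ≤ B → ∀ θ : ℝ, 0 < θ →
    θ ≤ 1 / 100 → ∃ n0 : ℕ, ∀ N : ℕ, n0 ≤ N → ∀ (w : Par K) (H : Finset ℕ) (p1 : ℕ),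
    Pre B cF θ w H N p1 → ∑ d ∈ Dv (Pg N w.W H) (Lv N θ),
    |∑ t ∈ (Ioc (Ya N) (Yb N)).filter (fun t => d ∣ N - t), Fs w H N p1 none t -
      Xi w H N p1 / (Nat.totient d : ℝ)| ≤ N / Real.log N ^ 10 := by
  obtain ⟨B0, hB0⟩ := rIR K 1 cF 10 hK le_rfl
  refine ⟨B0, fun B hB θ hθ hθ' => ?_⟩
  obtain ⟨n0, hn0⟩ := hB0 B hB θ hθ hθ'
  refine ⟨n0, fun N hN w H p1 hp => ?_⟩
  have h1 := hn0 N hN w H p1 (Rb N H) (fun q => {N % q}) (Pg N w.W H) hp.to0
    (pre_hrt B cF θ w H N p1 hp) H59C.gq ?_ ?_ ?_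
  · refine le_trans (le_of_eq ?_) h1
    refine sum_congr rfl fun d hd => ?_
    have hsq : Squarefree d := by
      unfold Dv at hd
      exact (mem_filter.1 hd).2.1
    have e1 : (Ioc (Ya N) (Yb N)).filter (fun t => d ∣ N - t) =
        (Ioc (Ya N) (Yb N)).filter (fun t => inT (fun q => {N % q}) d t) := by
      refine filter_congr fun t ht => ?_
      rw [mem_Ioc] at ht
      exact (inT_iff N d t hsq (ht.2.trans (ri_Yb N))).symm
    rw [e1]
    congr 1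
    congr 1
    have e2 : ∏ q ∈ d.primeFactors, (((({N % q} : Finset ℕ).card : ℕ) : ℝ) * H59C.gq q) =
        1 / (Nat.totient d : ℝ) := by
      rw [← prod_gq d hsq]
      refine prod_congr rfl fun q _ => ?_
      rw [card_singleton, Nat.cast_one, one_mul]
    rw [e2, mul_one_div]
    rfl
  · intro q hq
    unfold H59C.gq
    have : (2 : ℝ) ≤ q := by exact_mod_cast hq.two_le
    have h2 : (0 : ℝ) ≤ (q : ℝ) - 1 := by linarith
    positivity
  · intro q hq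
    unfold H59C.gq
    have : (2 : ℝ) ≤ q := by exact_mod_cast hq.two_le
    rw [div_le_div_iff₀ (by linarith) (by linarith)]
    linarith
  · intro q hq _
    unfold H59C.gq
    have h2 : (2 : ℝ) ≤ q := by exact_mod_cast hq.two_le
    have h3 : 1 / ((q : ℝ) - 1) - 1 / q = 1 / (((q : ℝ) - 1) * q) := by
      have : (q : ℝ) - 1 ≠ 0 := by linarith
      have : (q : ℝ) ≠ 0 := by linarith
      field_simp
      ring
    have h4 : (0 : ℝ) < ((q : ℝ) - 1) * q := by nlinarith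
    rw [h3, abs_of_nonneg (by positivity), div_le_div_iff₀ h4 (by positivity)]
    nlinarith

end Pool.Agent.Lib.H57C
end

-- from Lib.H57C.RJ
section

/-!
# Chunk RJ: the remainder terms for the integers in one class modulo `p1`, with the additional class `-h`
-/

open Finset

namespace Pool.Agent.Lib.H57C

open Pool.Agent.Lib.H57M

theorem rj_cls {q c h : ℕ} (hq : 0 < q) (hc : c < q) : q ∣ c + h ↔ c = (q - h % q) % q := by
  constructor
  · intro hd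
    exact (RA_res hc hd).symm
  · intro h2
    have h3 : (q - h % q) % q ≡ q - h % q [MOD q] := Nat.mod_modEq _ _
    have h4 : h % q ≡ h [MOD q] := Nat.mod_modEq _ _
    have h5 : (q - h % q) % q + h % q ≡ (q - h % q) + h % q [MOD q] := h3.add_right _
    have h6 : (q - h % q) % q + h ≡ (q - h % q) % q + h % q [MOD q] := (h4.symm).add_left _
    have h7 : (q - h % q) + h % q = q := Nat.sub_add_cancel (Nat.mod_lt _ hq).le
    rw [h7] at h5
    have h8 : c + h ≡ q [MOD q] := by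
      rw [h2]
      exact h6.trans h5
    exact (Nat.modEq_zero_iff_dvd.1 (h8.trans (Nat.modEq_zero_iff_dvd.2 (dvd_refl q))))

theorem rj_card {K k W p1 : ℕ} {H : Finset ℕ} {R T : ℕ → Finset ℕ} {P' : Finset ℕ}
    (h1 : HRT K k W p1 H R T P') {h q : ℕ} (hh : h ∈ H) (hq : q ∈ P') :
    (Tp T h q).card = (T q).card + 1 := by
  classical
  have hq0 := (h1.P'p q hq).1.pos
  have hlt : (q - h % q) % q < q := Nat.mod_lt _ hq0
  have h2 : Tp T h q = insert ((q - h % q) % q) (T q) := by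
    unfold Tp
    ext c
    rw [mem_filter, mem_range, mem_insert]
    constructor
    · rintro ⟨hc, h3 | h3⟩
      · exact Or.inr h3
      · exact Or.inl ((rj_cls hq0 hc).1 h3)
    · rintro (h3 | h3)
      · rw [h3]
        exact ⟨hlt, Or.inr ((rj_cls hq0 hlt).2 rfl)⟩
      · have h4 := h1.Tr q hq h3
        rw [mem_range] at h4
        exact ⟨h4, Or.inl h3⟩
  rw [h2, card_insert_of_notMem]
  intro hmem
  exact h1.TH q hq _ hmem h hh ((rj_cls hq0 hlt).2 rfl)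

/-- Proof. `mta` with `k` replaced by `K + k + 1`, for the sequence `sI c0 p1 (Ya n) (Yb n)` (`lvlI`), `i = some h`, the target classes
`Tp T h q` (exactly `#T q + 1` elements for `q ∈ P'`, since the class `-h` is not in `T q` by `TH`), `b = 0`, `hr q = 1/q`.
`Hy.TH`: for `h' ≠ h`: `HRT.TH`, and `q ∤ h - h'` as `|h - h'| ≤ W < q`. `VS = VaR`. -/
theorem rJR (K k cF A0 : ℕ) (hK : 1 ≤ K) (hk : 1 ≤ k) : ∃ B0 : ℕ, ∀ B : ℕ, B0 ≤ B → ∀ θ : ℝ,
    0 < θ → θ ≤ 1 / 100 → ∃ n0 : ℕ, ∀ n : ℕ, n0 ≤ n → ∀ (w : Par K) (H : Finset ℕ) (p1 : ℕ)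
    (R T : ℕ → Finset ℕ) (P' : Finset ℕ), Pre0 B cF θ w H n p1 → HRT K k w.W p1 H R T P' →
    ∀ h ∈ H, ∀ c0 : ℕ, ∑ d ∈ Dv P' (Lv n θ),
    |∑ t ∈ (Ioc (Ya n) (Yb n)).filter (fun t => t ≡ c0 [MOD p1] ∧ inT (Tp T h) d t),
        FF w H (some h) t * Sg (Ps w.W p1) R t -
      ((Yb n : ℝ) - Ya n) / p1 * (AE w.P H (some h) (FC w H) * VaR (Ps w.W p1) R) *
        ∏ q ∈ d.primeFactors, ((((T q).card : ℝ) + 1) * (1 / (q : ℝ)))| ≤
      n / Real.log n ^ A0 := by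
  obtain ⟨A, B0, hB0⟩ := mta K (K + k + 1) cF A0 hK (by omega)
  refine ⟨B0, fun B hB θ hθ hθ' => ?_⟩
  obtain ⟨n1, hn1⟩ := hB0 B hB θ hθ hθ'
  obtain ⟨n2, hn2⟩ := lvlI A (K * 3 + 2 * (K + k + 1))
  obtain ⟨n3, hn3⟩ := ri_lev θ hθ
  refine ⟨max (max n1 n2) (max n3 3), fun n hn w H p1 R T P' h0 h1 h hh c0 => ?_⟩
  have hn1' : n1 ≤ n := ((le_max_left _ _).trans (le_max_left _ _)).trans hn
  have hn2' : n2 ≤ n := ((le_max_right _ _).trans (le_max_left _ _)).trans hn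
  have hn3' : n3 ≤ n := ((le_max_left _ _).trans (le_max_right _ _)).trans hn
  have hn4' : 3 ≤ n := ((le_max_right _ _).trans (le_max_right _ _)).trans hn
  have hn0 : (1 : ℝ) ≤ n := by
    have : 1 ≤ n := by omega
    exact_mod_cast this
  have hHy := ri_hy h0 h1 c0 p1 (Ya n) (Yb n) (ri_Ya n) (some h)
    (fun h' hh' => by rw [Option.some.injEq] at hh'; rw [← hh']; exact hh) (Tp T h) (K + k + 1)
    (by omega) (fun q _ => filter_subset _ _)
    (fun q hq => by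
      rw [rj_card h1 hh hq]
      have := h1.Tk q hq
      omega)
    (fun q hq t ht h' hh' hne hd => by
      unfold Tp at ht
      rw [mem_filter, mem_range] at ht
      obtain ⟨htq, h3 | h3⟩ := ht
      · exact h1.TH q hq t h3 h' hh' hd
      · have hW := (h1.P'p q hq).2
        have b1 := h0.HW h hh
        have b2 := h0.HW h' hh'
        apply hne
        congr 1
        rcases le_total h h' with hle | hle
        · have h4 : q ∣ h' - h := by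
            have := Nat.dvd_sub hd h3
            rwa [Nat.add_sub_add_left] at this
          have := Nat.eq_zero_of_dvd_of_lt h4 (by omega)
          omega
        · have h4 : q ∣ h - h' := by
            have := Nat.dvd_sub h3 hd
            rwa [Nat.add_sub_add_left] at this
          have := Nat.eq_zero_of_dvd_of_lt h4 (by omega)
          omega)
  have key := hn1 n hn1' (sI c0 p1 (Ya n) (Yb n)) w.P H (some h) w.W p1 R (Tp T h) P' 0
    (fun q => 1 / (q : ℝ)) (FC w H) ⌊Real.sqrt n⌋₊ hHy (fun q _ => by positivity)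
    (fun q _ => by
      show 1 / (q : ℝ) ≤ 2 / (q : ℝ)
      gcongr
      norm_num)
    (fun q _ _ => by
      show |1 / (q : ℝ) - 1 / (q : ℝ)| ≤ 2 / (q : ℝ) ^ 2
      rw [sub_self, abs_zero]
      positivity) h0.cardH h0.Wdef
    (fun p hp => by
      have h2 := h0.PN p hp
      have h3 : (n : ℝ) ^ (1 / 100 : ℝ) ≤ (n : ℝ) ^ (1 : ℝ) :=
        Real.rpow_le_rpow_of_exponent_le hn0 (by norm_num)
      rw [Real.rpow_one] at h3
      exact_mod_cast h2.trans h3)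
    (ri_X n c0 p1 h0.p1p.one_le hn4') (by push_cast; positivity) (ri_FC w H) h0.exF (hn3 n hn3')
    (hn2 n hn2' p1 c0 p1 (Ya n) (Yb n) h0.p1p (Or.inr rfl) (ri_Ya n))
  refine le_trans (le_of_eq ?_) key
  refine sum_congr rfl fun d hd => ?_
  have e1 : (Ioc (Ya n) (Yb n)).filter (fun t => t ≡ c0 [MOD p1] ∧ inT (Tp T h) d t) =
      (sI c0 p1 (Ya n) (Yb n)).S.filter (fun j => inT (Tp T h) d
        ((sI c0 p1 (Ya n) (Yb n)).x j)) := by
    show _ = ((Ioc (Ya n) (Yb n)).filter (fun t => t ≡ c0 [MOD p1])).filter _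
    rw [filter_filter]
    rfl
  have e2 : VS (Ps w.W p1) R (sI c0 p1 (Ya n) (Yb n)).hd (sI c0 p1 (Ya n) (Yb n)).Al =
      VaR (Ps w.W p1) R := vs_IR _ _
  rw [e1, e2]
  congr 1
  congr 1
  · refine sum_congr rfl fun t _ => ?_
    show _ = 1 * _
    rw [one_mul]
    rfl
  · congr 1
    refine prod_congr rfl fun q hq => ?_
    have hqP : q ∈ P' := by
      unfold Dv at hd
      exact (mem_filter.1 hd).2.2 q hq
    rw [rj_card h1 hh hqP, Nat.cast_add, Nat.cast_one]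

/-- Proof. `rJR` with `k = 1`, `A0 = 10`, `R = Rb N H`, `T q = {N % q}`, `P' = Pg N w.W H`, `c0 = N` (`pre_hrt`, `Pre.to0`). `inT (Tp T h) d t` iff
`∀ q ∈ d.primeFactors, q ∣ N - t ∨ q ∣ t + h` (`t ≤ N`). `∏_{q ∣ d} (2/q) = 2^ω(d)/d`. -/
theorem rJ (K cF : ℕ) (hK : 1 ≤ K) : ∃ B0 : ℕ, ∀ B : ℕ, B0 ≤ B → ∀ θ : ℝ, 0 < θ →
    θ ≤ 1 / 100 → ∃ n0 : ℕ, ∀ N : ℕ, n0 ≤ N → ∀ (w : Par K) (H : Finset ℕ) (p1 : ℕ),
    Pre B cF θ w H N p1 → ∀ h ∈ H, ∑ d ∈ Dv (Pg N w.W H) (Lv N θ),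
    |∑ t ∈ (Ioc (Ya N) (Yb N)).filter
        (fun t => t ≡ N [MOD p1] ∧ ∀ q ∈ d.primeFactors, q ∣ N - t ∨ q ∣ t + h),
        Fs w H N p1 (some h) t -
      ((Yb N : ℝ) - Ya N) / p1 * (AE w.P H (some h) (FC w H) * Va N w.W p1 H) *
        ((2 : ℝ) ^ d.primeFactors.card / d)| ≤ N / Real.log N ^ 10 := by
  obtain ⟨B0, hB0⟩ := rJR K 1 cF 10 hK le_rfl
  refine ⟨B0, fun B hB θ hθ hθ' => ?_⟩
  obtain ⟨n0, hn0⟩ := hB0 B hB θ hθ hθ'
  refine ⟨n0, fun N hN w H p1 hp h hh => ?_⟩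
  have h1 := hn0 N hN w H p1 (Rb N H) (fun q => {N % q}) (Pg N w.W H) hp.to0
    (pre_hrt B cF θ w H N p1 hp) h hh N
  refine le_trans (le_of_eq ?_) h1
  refine sum_congr rfl fun d hd => ?_
  have hsq : Squarefree d := by
    unfold Dv at hd
    exact (mem_filter.1 hd).2.1
  have e1 : (Ioc (Ya N) (Yb N)).filter
        (fun t => t ≡ N [MOD p1] ∧ ∀ q ∈ d.primeFactors, q ∣ N - t ∨ q ∣ t + h) =
      (Ioc (Ya N) (Yb N)).filter
        (fun t => t ≡ N [MOD p1] ∧ inT (Tp (fun q => {N % q}) h) d t) := by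
    refine filter_congr fun t ht => ?_
    rw [mem_Ioc] at ht
    have htN : t ≤ N := ht.2.trans (ri_Yb N)
    refine and_congr Iff.rfl ?_
    unfold inT Tp
    refine forall_congr' fun q => forall_congr' fun hq => ?_
    have hq0 : 0 < q := (Nat.prime_of_mem_primeFactors hq).pos
    rw [mem_filter, mem_range, mem_singleton]
    have a1 : t % q = N % q ↔ q ∣ N - t := Nat.modEq_iff_dvd' htN
    have a2 : q ∣ t % q + h ↔ q ∣ t + h := by
      have : t + h = (t % q + h) + q * (t / q) := by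
        have := Nat.mod_add_div t q
        omega
      rw [this]
      exact (Nat.dvd_add_left (Dvd.intro _ rfl)).symm
    rw [a1, a2]
    constructor
    · intro h3
      exact ⟨Nat.mod_lt _ hq0, h3⟩
    · intro h3
      exact h3.2
  rw [e1]
  congr 1
  congr 1
  have e2 : ∏ q ∈ d.primeFactors, (((((({N % q} : Finset ℕ).card : ℕ) : ℝ)) + 1) *
      (1 / (q : ℝ))) = (2 : ℝ) ^ d.primeFactors.card / d := by
    have e3 : ∀ q ∈ d.primeFactors, ((((({N % q} : Finset ℕ).card : ℕ) : ℝ)) + 1) *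
      (1 / (q : ℝ)) = 2 / (q : ℝ) := by
      intro q _
      rw [card_singleton, Nat.cast_one]
      ring
    rw [prod_congr rfl e3, prod_div_distrib, prod_const]
    congr 1
    have h4 := Nat.prod_primeFactors_of_squarefree hsq
    have h5 : ((∏ q ∈ d.primeFactors, q : ℕ) : ℝ) = (d : ℝ) := by rw [h4]
    rw [← h5]
    push_cast
    rfl
  rw [e2]
  rfl

end Pool.Agent.Lib.H57C
end

-- from Lib.H57C.RC
section

/-!
# Chunk RC: the remainder terms for the switched sequence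
-/

open Finset

namespace Pool.Agent.Lib.H57C

open Pool.Agent.Lib.H57M

/-- The target class `-h`. -/
def rc_T (h q : ℕ) : Finset ℕ := (range q).filter (fun c => q ∣ c + h)

theorem rc_mod {q h t : ℕ} : q ∣ t % q + h ↔ q ∣ t + h := by
  rw [Nat.dvd_iff_mod_eq_zero, Nat.dvd_iff_mod_eq_zero, Nat.add_mod t h, Nat.add_mod (t % q) h, Nat.mod_mod]

theorem rc_T_mem {h q t : ℕ} (hq : 0 < q) : t % q ∈ rc_T h q ↔ q ∣ t + h := by
  unfold rc_T
  rw [mem_filter, mem_range, rc_mod]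
  exact ⟨fun h => h.2, fun h => ⟨Nat.mod_lt _ hq, h⟩⟩

theorem rc_T_card {h q : ℕ} (hq : 0 < q) : (rc_T h q).card = 1 := by
  rw [Finset.card_eq_one]
  refine ⟨(q - h % q) % q, ?_⟩
  ext c
  unfold rc_T
  rw [mem_filter, mem_range, mem_singleton]
  constructor
  · rintro ⟨h1, h2⟩
    exact (a2_cls hq h1).1 h2
  · intro h1
    have hlt : c < q := by rw [h1]; exact Nat.mod_lt _ hq
    exact ⟨hlt, (a2_cls hq hlt).2 h1⟩

theorem rc_inT (d t h : ℕ) (hd : Squarefree d) : inT (rc_T h) d t ↔ d ∣ t + h := by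
  unfold inT
  constructor
  · intro h1
    rw [← Nat.prod_primeFactors_of_squarefree hd]
    refine Finset.prod_primes_dvd _ (fun p hp => (Nat.prime_of_mem_primeFactors hp).prime) fun p hp => ?_
    exact (rc_T_mem (Nat.prime_of_mem_primeFactors hp).pos).1 (h1 p hp)
  · intro h1 q hq
    exact (rc_T_mem (Nat.prime_of_mem_primeFactors hq).pos).2 ((Nat.dvd_of_mem_primeFactors hq).trans h1)

/-- the density `1/(q-1)` -/
theorem rc_gq (q : ℕ) (hq : q.Prime) : 0 ≤ H59C.gq q ∧ H59C.gq q ≤ 2 / q ∧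
    |H59C.gq q - 1 / q| ≤ 2 / (q : ℝ) ^ 2 := by
  have hq2 : (2 : ℝ) ≤ q := by exact_mod_cast hq.two_le
  have h1 : (0 : ℝ) < (q : ℝ) - 1 := by linarith
  have h0 : (0 : ℝ) < q := by linarith
  unfold H59C.gq
  refine ⟨by positivity, ?_, ?_⟩
  · rw [div_le_div_iff₀ h1 h0]; linarith
  · have h2 : 1 / ((q : ℝ) - 1) - 1 / q = 1 / (((q : ℝ) - 1) * q) := by
      field_simp
      ring
    rw [h2, abs_of_nonneg (by positivity), div_le_div_iff₀ (by positivity) (by positivity)]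
    nlinarith

/-- sizes for large `N` -/
theorem rc_large (K B B1 : ℕ) (θ : ℝ) (hθ : 0 < θ) (hθ1 : θ ≤ 1 / 100) : ∃ n0 : ℕ, ∀ N : ℕ, n0 ≤ N →
    2 ≤ N ∧ 8 * (N : ℝ) * Real.log (8 * N) ≤ N * Real.log N ^ 2 ∧
    (K : ℝ) * (Real.log (2 * N) / Real.log 2) ≤ Real.log N ^ 2 ∧
    (N : ℝ) ^ (1 / 2 - θ) ≤ (H59C.DD N B1 : ℕ) ∧ (⌈Real.log N ^ B⌉₊ : ℝ) < (N : ℝ) ^ (1 / 10 : ℝ) := by
  have hev : ∀ᶠ x : ℝ in Filter.atTop, 2 ≤ x ∧ 8 * x * Real.log (8 * x) ≤ x * Real.log x ^ 2 ∧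
      (K : ℝ) * (Real.log (2 * x) / Real.log 2) ≤ Real.log x ^ 2 ∧
      x ^ (1 / 2 - θ) + 1 ≤ Real.sqrt x / Real.log x ^ B1 ∧ Real.log x ^ B + 1 < x ^ (1 / 10 : ℝ) := by
    have hlog : Filter.Tendsto Real.log Filter.atTop Filter.atTop := Real.tendsto_log_atTop
    have e1 : ∀ᶠ x : ℝ in Filter.atTop, 16 ≤ Real.log x := hlog.eventually_ge_atTop 16
    have e2 : ∀ᶠ x : ℝ in Filter.atTop, 2 * (K : ℝ) / Real.log 2 ≤ Real.log x := hlog.eventually_ge_atTop _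
    have e3 := (isLittleO_log_rpow_rpow_atTop (s := θ / 2) (B1 : ℝ) (by positivity)).def
      (show (0 : ℝ) < 1 by norm_num)
    have e4 := (isLittleO_log_rpow_rpow_atTop (s := (1 / 10 : ℝ)) (B : ℝ) (by norm_num)).def
      (show (0 : ℝ) < 1 / 2 by norm_num)
    have e5 : ∀ᶠ x : ℝ in Filter.atTop, (2 : ℝ) ≤ x ^ (θ / 2) :=
      (tendsto_rpow_atTop (by positivity)).eventually_ge_atTop 2
    have e6 : ∀ᶠ x : ℝ in Filter.atTop, (4 : ℝ) ≤ x ^ (1 / 10 : ℝ) :=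
      (tendsto_rpow_atTop (by norm_num)).eventually_ge_atTop 4
    filter_upwards [e1, e2, e3, e4, e5, e6, Filter.eventually_ge_atTop (8 : ℝ)] with x h1 h2 h3 h4 h5 h6 h7
    have hx0 : 0 < x := by linarith
    have hl0 : 0 < Real.log x := by linarith
    have hl2 : 0 < Real.log 2 := Real.log_pos (by norm_num)
    refine ⟨by linarith, ?_, ?_, ?_, ?_⟩
    · have h8 : Real.log (8 * x) ≤ 2 * Real.log x := by
        rw [Real.log_mul (by norm_num) hx0.ne']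
        have := Real.log_le_log (by norm_num) h7
        linarith
      have h9 : 8 * Real.log (8 * x) ≤ Real.log x ^ 2 := by nlinarith
      have := mul_le_mul_of_nonneg_left h9 hx0.le
      linarith
    · have h8 : Real.log (2 * x) ≤ 2 * Real.log x := by
        rw [Real.log_mul (by norm_num) hx0.ne']
        have := Real.log_le_log (by norm_num) (show (2 : ℝ) ≤ x by linarith)
        linarith
      have h9 : (K : ℝ) * (Real.log (2 * x) / Real.log 2) ≤ (2 * (K : ℝ) / Real.log 2) * Real.log x := by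
        have h10 : (K : ℝ) * (Real.log (2 * x) / Real.log 2) ≤ K * (2 * Real.log x / Real.log 2) :=
          mul_le_mul_of_nonneg_left (div_le_div_of_nonneg_right h8 hl2.le) (Nat.cast_nonneg K)
        refine h10.trans (le_of_eq ?_)
        ring
      refine h9.trans ?_
      have := mul_le_mul_of_nonneg_right h2 hl0.le
      rw [sq]
      exact this
    · rw [Real.norm_eq_abs, Real.norm_eq_abs, Real.rpow_natCast, abs_of_nonneg (by positivity),
        abs_of_nonneg (by positivity), one_mul] at h3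
      rw [le_div_iff₀ (by positivity)]
      have hs : Real.sqrt x = x ^ (1 / 2 - θ) * x ^ (θ / 2) * x ^ (θ / 2) := by
        rw [Real.sqrt_eq_rpow, ← Real.rpow_add hx0, ← Real.rpow_add hx0]
        congr 1
        ring
      have h8 : (x ^ (1 / 2 - θ) + 1) ≤ x ^ (1 / 2 - θ) * x ^ (θ / 2) := by
        have h9 : 1 ≤ x ^ (1 / 2 - θ) := Real.one_le_rpow (by linarith) (by linarith)
        nlinarith
      rw [hs]
      exact mul_le_mul h8 h3 (by positivity) (by positivity)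
    · rw [Real.norm_eq_abs, Real.norm_eq_abs, Real.rpow_natCast, abs_of_nonneg (by positivity),
        abs_of_nonneg (by positivity)] at h4
      linarith
  obtain ⟨n0, hn0⟩ := Filter.eventually_atTop.1 (tendsto_natCast_atTop_atTop.eventually hev)
  refine ⟨n0, fun N hN => ?_⟩
  obtain ⟨h1, h2, h3, h4, h5⟩ := hn0 N hN
  refine ⟨by exact_mod_cast h1, h2, h3, ?_, ?_⟩
  · unfold H59C.DD
    have := Nat.lt_floor_add_one (Real.sqrt N / Real.log N ^ B1)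
    linarith
  · have := Nat.ceil_lt_add_one (show 0 ≤ Real.log N ^ B by
      have : (1 : ℝ) ≤ N := by linarith
      have := Real.log_nonneg this
      positivity)
    linarith

/-- number of prime factors -/
theorem rc_omega (n : ℕ) (hn : n ≠ 0) : (n.primeFactors.card : ℝ) ≤ Real.log n / Real.log 2 := by
  have hl2 : 0 < Real.log 2 := Real.log_pos (by norm_num)
  rw [le_div_iff₀ hl2]
  have h1 : 2 ^ n.primeFactors.card ≤ n := by
    calc 2 ^ n.primeFactors.card = ∏ _p ∈ n.primeFactors, 2 := by rw [Finset.prod_const]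
      _ ≤ ∏ p ∈ n.primeFactors, p :=
          Finset.prod_le_prod' fun p hp => (Nat.prime_of_mem_primeFactors hp).two_le
      _ ≤ n := Nat.le_of_dvd (Nat.pos_of_ne_zero hn) (Nat.prod_primeFactors_dvd n)
  have h2 : ((2 : ℝ)) ^ n.primeFactors.card ≤ n := by exact_mod_cast h1
  have h3 := Real.log_le_log (by positivity) h2
  rwa [Real.log_pow] at h3

theorem rc_bad (N K : ℕ) (P H : Finset ℕ) (Q : ℕ → Prop) [DecidablePred Q] (hP : ∀ p ∈ P, p.Prime) (hH : H.card = K)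
    (hN : 1 ≤ N) (hHN : ∀ h ∈ H, h ≤ N) (hQ : ∀ p ∈ P, Q p → ∃ h ∈ H, p ∣ N + h) :
    ((P.filter Q).card : ℝ) ≤ (K : ℝ) * (Real.log (2 * N) / Real.log 2) := by
  have hl2 : 0 < Real.log 2 := Real.log_pos (by norm_num)
  have hsub : P.filter Q ⊆ H.biUnion (fun h => (N + h).primeFactors) := by
    intro p hp
    rw [mem_filter] at hp
    obtain ⟨h, hh, hd⟩ := hQ p hp.1 hp.2
    rw [mem_biUnion]
    exact ⟨h, hh, Nat.mem_primeFactors.2 ⟨hP p hp.1, hd, by omega⟩⟩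
  have h1 : ((P.filter Q).card : ℝ) ≤ ∑ h ∈ H, ((N + h).primeFactors.card : ℝ) := by
    exact_mod_cast (Finset.card_le_card hsub).trans Finset.card_biUnion_le
  refine h1.trans ?_
  have hN1 : (1 : ℝ) ≤ N := by exact_mod_cast hN
  calc ∑ h ∈ H, ((N + h).primeFactors.card : ℝ) ≤ ∑ _h ∈ H, Real.log (2 * N) / Real.log 2 := by
        refine Finset.sum_le_sum fun h hh => (rc_omega (N + h) (by omega)).trans ?_
        refine div_le_div_of_nonneg_right (Real.log_le_log (by positivity) ?_) hl2.le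
        have : (h : ℝ) ≤ N := by exact_mod_cast hHN h hh
        push_cast
        linarith
    _ = (K : ℝ) * (Real.log (2 * N) / Real.log 2) := by rw [Finset.sum_const, nsmul_eq_mul, hH]

theorem rc_XB (N M u v : ℕ) (α : ℕ → ℝ) (hα : ∀ m, 0 ≤ α m ∧ α m ≤ 1) (hM : 1 ≤ M) (huv : u ≤ v) (hv : 1 ≤ v)
    (hMv : M * v ≤ 8 * N) : 0 ≤ H59C.XB M u v α ∧ H59C.XB M u v α ≤ 8 * (N : ℝ) * Real.log (8 * N) := by
  have hx0 := H59C.CBR_XX_nonneg u v
  have hx1 := H59C.CBR_XX_le u v huv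
  have hs0 : 0 ≤ ∑ m ∈ Icc 1 M, α m := Finset.sum_nonneg fun m _ => (hα m).1
  have hs1 : ∑ m ∈ Icc 1 M, α m ≤ M := by
    calc ∑ m ∈ Icc 1 M, α m ≤ ∑ _m ∈ Icc 1 M, (1 : ℝ) := Finset.sum_le_sum fun m _ => (hα m).2
      _ = M := by simp
  have hv1 : (1 : ℝ) ≤ v := by exact_mod_cast hv
  have hM1 : (1 : ℝ) ≤ M := by exact_mod_cast hM
  have hMv' : (M : ℝ) * v ≤ 8 * N := by exact_mod_cast hMv
  have hlv : 0 ≤ Real.log v := Real.log_nonneg hv1
  have hv8 : (v : ℝ) ≤ 8 * N := by nlinarith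
  have hl : Real.log v ≤ Real.log (8 * N) := Real.log_le_log (by linarith) hv8
  unfold H59C.XB
  refine ⟨mul_nonneg hs0 hx0, ?_⟩
  calc (∑ m ∈ Icc 1 M, α m) * H59C.XX u v ≤ (M : ℝ) * (v * Real.log v) :=
        mul_le_mul hs1 hx1 hx0 (by linarith)
    _ = (M * v) * Real.log v := by ring
    _ ≤ (8 * N) * Real.log (8 * N) := mul_le_mul hMv' hl hlv (by positivity)

theorem rc_nev {N M u v q : ℕ} {α : ℕ → ℝ} {x : ℕ × ℕ} (hx : x ∈ H59C.BX M u v)
    (hw : H59C.wB α x ≠ 0) (hα : ∀ m, α m ≠ 0 → ∀ r : ℕ, r.Prime → r ∣ m → (N : ℝ) ^ (1 / 10 : ℝ) ≤ r)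
    (hu : (N : ℝ) ^ (1 / 4 : ℝ) ≤ u) (hN : 2 ≤ N) (hq : q.Prime) (hqN : (q : ℝ) < (N : ℝ) ^ (1 / 10 : ℝ)) :
    ¬ xv N x ≡ N [MOD q] := by
  intro hc
  have hN1 : (1 : ℝ) ≤ N := by exact_mod_cast (by omega : 1 ≤ N)
  have hqN' : (q : ℝ) ≤ N := hqN.le.trans (by
    calc (N : ℝ) ^ (1 / 10 : ℝ) ≤ (N : ℝ) ^ (1 : ℝ) := Real.rpow_le_rpow_of_exponent_le hN1 (by norm_num)
      _ = N := Real.rpow_one _)
  have hqN2 : q ≤ N := by exact_mod_cast hqN'
  have hfac : q ∣ N.factorial := Nat.dvd_factorial hq.pos hqN2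
  have hfp : 0 < N.factorial := Nat.factorial_pos N
  have h1 : q ∣ (N.factorial - 1) * (x.1 * x.2) := by
    have h2 := (Nat.modEq_iff_dvd' (show N ≤ xv N x by unfold xv; omega)).1 hc.symm
    unfold xv at h2
    rwa [Nat.add_sub_cancel_left] at h2
  have h3 : ¬ q ∣ N.factorial - 1 := by
    intro h4
    have h5 : q ∣ 1 := by
      have h6 := Nat.dvd_sub hfac h4
      have h7 : N.factorial - (N.factorial - 1) = 1 := by omega
      rwa [h7] at h6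
    exact hq.one_lt.ne' (Nat.dvd_one.1 h5)
  have h4 : q ∣ x.1 * x.2 := (hq.dvd_mul.1 h1).resolve_left h3
  have hα0 : α x.1 ≠ 0 := by
    intro h5
    apply hw
    unfold H59C.wB
    rw [h5, zero_mul]
  unfold H59C.BX at hx
  rw [mem_product, H59C.mem_Sq] at hx
  rcases hq.dvd_mul.1 h4 with h5 | h5
  · exact absurd (hα _ hα0 q hq h5) (not_le.2 hqN)
  · have h6 : q = x.2 := (Nat.prime_dvd_prime_iff_eq hq hx.2.2).1 h5
    have h7 : u < q := by rw [h6]; exact hx.2.1.1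
    have h8 : (u : ℝ) < q := by exact_mod_cast h7
    have h9 : (N : ℝ) ^ (1 / 10 : ℝ) ≤ (N : ℝ) ^ (1 / 4 : ℝ) :=
      Real.rpow_le_rpow_of_exponent_le hN1 (by norm_num)
    linarith

open Classical in
/-- Proof. `mta` with `k = K + 2`, `A0 = 10`, for the sequence `sC N M u v α` (with `lvlC`), `i = some h`, `P = w.P`, `F = FC w H`, `R = Rb N H`,
`T q = {c < q : q ∣ c + h}` (one element), `P' = Pg N W H`, `hr = gq`, `b` = the number of primes `> W` dividing some `N + h'`: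
at most `K log (2N)/log 2 ≤ log^2 N`. The hypotheses `Hy`:
* `nev`: if `xv N x ≡ N [MOD q]`, `q ≤ N^(1/100)` a prime (`q ∣ N!`), then `q ∣ x1 x2`; `wt ≠ 0` implies `α x1 ≠ 0`, so the prime factors of `x1` are
  `≥ N^(1/10)`, and `x2` is a prime `> u ≥ N^(1/4)`: impossible.
* `TA`: `q ∣ t + h` and `t ≡ N` imply `q ∣ N + h`. `TH`: `q ∣ t + h`, `q ∣ t + h'`, `|h - h'| ≤ W < q`.
* `R1`: the class of `N` is not allowed, so `#.. ≤ q - 1`... (`#Rb < q`).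
* `XB ≤ 8 N log (8 N) ≤ N log^2 N`, `XB ≥ 0`.
`remd` has the additional condition `q < z` and `d ≤ Lv N θ` (floor of a cast), a subset of `Dv` (`sum_le_sum_of_subset_of_nonneg`);
`d ∣ xv N x + h` iff `inT T d (xv N x)` for squarefree `d`; `VS = Vb` (`vs_C`). -/
theorem rC (K cF : ℕ) (hK : 1 ≤ K) : ∃ A' B0 : ℕ, ∀ B : ℕ, B0 ≤ B → ∀ θ : ℝ, 0 < θ →
    θ ≤ 1 / 100 → ∃ n0 : ℕ, ∀ N : ℕ, n0 ≤ N → ∀ (w : Par K) (H : Finset ℕ) (p1 : ℕ),
    Pre B cF θ w H N p1 → H59C.SWp A' N p1 → ∀ h ∈ H, ∀ (M u v : ℕ) (α : ℕ → ℝ),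
    (∀ m, 0 ≤ α m ∧ α m ≤ 1) →
    (∀ m, α m ≠ 0 → ∀ r : ℕ, r.Prime → r ∣ m → (N : ℝ) ^ (1 / 10 : ℝ) ≤ r) →
    (N : ℝ) ^ (1 / 4 : ℝ) ≤ M → (N : ℝ) ^ (1 / 4 : ℝ) ≤ u → u ≤ v → M * v ≤ 8 * N → ∀ z : ℝ,
    H59C.remd (H59C.BX M u v) (fun x => H59C.wB α x * Fs w H N p1 (some h) (xv N x))
      (fun x => xv N x + h) (Pg N w.W H) z
      (H59C.XB M u v α * (AE w.P H (some h) (FC w H) * Vb N w.W p1 H)) (Lv N θ) ≤
      N / Real.log N ^ 10 := by
  obtain ⟨A, B0, hm⟩ := mta K (K + 2) cF 10 hK (by omega)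
  obtain ⟨A', B1, nC, hC⟩ := lvlC A (K * 3 + 2 * (K + 2))
  refine ⟨A', B0, fun B hB θ hθ hθ1 => ?_⟩
  obtain ⟨nM, hM⟩ := hm B hB θ hθ hθ1
  obtain ⟨nL, hL⟩ := rc_large K B B1 θ hθ hθ1
  refine ⟨max nC (max nM nL), fun N hN w H p1 hpre hSW h hh M u v α hα hα2 hMN hu huv hMv z => ?_⟩
  have hNC : nC ≤ N := le_trans (le_max_left _ _) hN
  have hNM : nM ≤ N := le_trans (le_trans (le_max_left _ _) (le_max_right _ _)) hN
  have hNL : nL ≤ N := le_trans (le_trans (le_max_right _ _) (le_max_right _ _)) hN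
  obtain ⟨hN2, hX, hbb, hD, hW10⟩ := hL N hNL
  have hN1 : (1 : ℝ) ≤ N := by exact_mod_cast (by omega : 1 ≤ N)
  have huv' : (u : ℝ) ≤ v := by exact_mod_cast huv
  have hv4 : (N : ℝ) ^ (1 / 4 : ℝ) ≤ v := hu.trans huv'
  have h14 : 1 ≤ (N : ℝ) ^ (1 / 4 : ℝ) := Real.one_le_rpow hN1 (by norm_num)
  have hM1 : 1 ≤ M := by exact_mod_cast h14.trans hMN
  have hv1 : 1 ≤ v := by exact_mod_cast h14.trans hv4
  obtain ⟨hX0, hX1⟩ := rc_XB N M u v α hα hM1 huv hv1 hMv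
  have hWr : (w.W : ℝ) < (N : ℝ) ^ (1 / 10 : ℝ) := by rw [hpre.Wdef]; exact hW10
  have h10N : (N : ℝ) ^ (1 / 10 : ℝ) ≤ N := by
    calc (N : ℝ) ^ (1 / 10 : ℝ) ≤ (N : ℝ) ^ (1 : ℝ) := Real.rpow_le_rpow_of_exponent_le hN1 (by norm_num)
      _ = N := Real.rpow_one _
  have hWN : w.W ≤ N := by exact_mod_cast (hWr.le.trans h10N)
  have hPN : ∀ p ∈ w.P, (p : ℝ) < (N : ℝ) ^ (1 / 10 : ℝ) := by
    intro p hp
    refine (hpre.PN p hp).trans_lt ?_
    exact Real.rpow_lt_rpow_of_exponent_lt (by exact_mod_cast (by omega : 1 < N)) (by norm_num)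
  have hHN : ∀ h ∈ H, h ≤ N := fun h hh => (hpre.HW h hh).trans hWN
  have hPg : ∀ q ∈ Pg N w.W H, q.Prime ∧ w.W < q ∧ ∀ h ∈ H, ¬ q ∣ N + h := by
    intro q hq
    unfold Pg at hq
    rw [mem_filter, mem_Ioc] at hq
    exact ⟨hq.2.1, hq.1.1, hq.2.2⟩
  have hPs : ∀ q ∈ Ps w.W p1, q.Prime := fun q hq => a2_Ps hq
  obtain ⟨b, hbdef⟩ : ∃ b : ℕ, b = (w.P.filter (fun p => ∃ h' ∈ H, some h ≠ some h' ∧
      ∃ c : ℕ, p ∣ c + h' ∧ ¬ (sC N M u v α).Al p c)).card := ⟨_, rfl⟩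
  have hb2 : (b : ℝ) ≤ Real.log N ^ 2 := by
    rw [hbdef]
    refine (rc_bad N K w.P H _ w.prime hpre.cardH (by omega) hHN ?_).trans hbb
    rintro p _ ⟨h', hh', _, c, hc1, hc2⟩
    refine ⟨h', hh', ?_⟩
    have hc3 : c ≡ N [MOD p] := not_not.1 hc2
    exact (Nat.ModEq.dvd_iff (hc3.add_right h') dvd_rfl).1 hc1
  have hy : Hy (sC N M u v α) w.P H (some h) w.W p1 (Rb N H) (rc_T h) (Pg N w.W H) (K + 2) b := by
    refine ⟨?_, hX0, ?_, ?_, fun q hq => (rc_gq q hq).1, fun q hq => (rc_gq q hq).2.1,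
      fun q hq _ => (rc_gq q hq).2.2, fun p hp => ⟨w.prime p hp, w.big p hp⟩, hpre.p1p, hpre.p1W,
      hpre.HW, ?_, fun q => a2_Rb, ?_, ?_, fun q hq => ⟨(hPg q hq).1, (hPg q hq).2.1⟩, ?_, ?_, ?_, ?_, ?_⟩
    · rintro ⟨x1, x2⟩ _
      exact mul_nonneg (hα x1).1 (Real.log_natCast_nonneg x2)
    · intro q c c' hcc
      exact not_congr ⟨fun h1 => hcc.symm.trans h1, fun h1 => hcc.trans h1⟩
    · intro x hx hwx q hq hq2
      refine rc_nev hx hwx hα2 hu hN2 hq ?_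
      rcases hq2 with h1 | ⟨h1, _⟩
      · exact hPN q h1
      · exact lt_of_le_of_lt (by exact_mod_cast h1) hWr
    · intro h' hh'
      exact Option.some_injective _ hh' ▸ hh
    · intro q hq
      have h1 := rb_card N H q (hPs q hq)
      rw [hpre.cardH] at h1
      omega
    · intro q hq
      have hqp := hPs q hq
      have hq2 : (2 : ℝ) ≤ q := by exact_mod_cast hqp.two_le
      have h1 : ((Rb N H q).filter (fun c => (sC N M u v α).Al q c)).card ≤ q - 1 := by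
        have h2 := hpre.nf q hqp
        have h3 := Finset.card_filter_le (Rb N H q) (fun c => (sC N M u v α).Al q c)
        omega
      have h4 : (((Rb N H q).filter (fun c => (sC N M u v α).Al q c)).card : ℝ) ≤ (q : ℝ) - 1 := by
        have h5 : (((Rb N H q).filter (fun c => (sC N M u v α).Al q c)).card : ℝ) ≤ ((q - 1 : ℕ) : ℝ) := by
          exact_mod_cast h1
        rwa [Nat.cast_sub hqp.one_le, Nat.cast_one] at h5
      have h5 : (sC N M u v α).hd q = 1 / ((q : ℝ) - 1) := rfl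
      rw [h5, mul_one_div, div_le_one (by linarith)]
      exact h4
    · intro q hq
      exact Finset.filter_subset _ _
    · intro q hq
      rw [rc_T_card (hPg q hq).1.pos]
      omega
    · intro q hq t ht htN
      unfold rc_T at ht
      rw [mem_filter] at ht
      exact (hPg q hq).2.2 h hh ((Nat.ModEq.dvd_iff (htN.add_right h) dvd_rfl).1 ht.2)
    · intro q hq t ht h' hh' hne hd
      unfold rc_T at ht
      rw [mem_filter] at ht
      have hne' : h ≠ h' := fun h1 => hne (by rw [h1])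
      have h1 : t + h ≡ t + h' [MOD q] := by
        rw [Nat.modEq_iff_dvd]
        exact dvd_sub (Int.natCast_dvd_natCast.2 hd) (Int.natCast_dvd_natCast.2 ht.2)
      have h2 : h ≡ h' [MOD q] := Nat.ModEq.add_left_cancel' t h1
      have hW1 := hpre.HW h hh
      have hW2 := hpre.HW h' hh'
      have hWq := (hPg q hq).2.1
      exact hne' (Nat.ModEq.eq_of_lt_of_lt h2 (by omega) (by omega))
    · exact le_of_eq hbdef.symm
  have hz : 0 ≤ w.z := by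
    unfold Par.z
    have : 0 ≤ ∑ i, H15P.ex (H15P.qq w.P K) (fun A => w.D i A ^ 2) :=
      Finset.sum_nonneg fun i _ => H15P.ex_nonneg _ w.good.q0 w.good.q1 _ fun A => sq_nonneg _
    linarith
  have hF0 : ∀ S, 0 ≤ FC w H S := by
    intro S
    unfold FC
    exact div_nonneg (sq_nonneg _) (pow_nonneg hz _)
  have hlvl := hC N hNC p1 hpre.p1p hSW M u v α hα hα2 hMN hv4 huv hMv
  have hmain := hM N hNM (sC N M u v α) w.P H (some h) w.W p1 (Rb N H) (rc_T h) (Pg N w.W H) b H59C.gq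
    (FC w H) (H59C.DD N B1) hy (fun q hq => (rc_gq q hq).1) (fun q hq => (rc_gq q hq).2.1)
    (fun q hq _ => (rc_gq q hq).2.2) hpre.cardH hpre.Wdef
    (fun p hp => by exact_mod_cast ((hPN p hp).le.trans h10N)) (hX1.trans hX) hb2 hF0 hpre.exF hD hlvl
  refine le_trans ?_ hmain
  have hVS : VS (Ps w.W p1) (Rb N H) (sC N M u v α).hd (sC N M u v α).Al = Vb N w.W p1 H := vs_C N w.W p1 H
  rw [hVS]
  unfold H59C.remd Dv
  rw [Nat.floor_natCast]
  refine (Finset.sum_le_sum fun d hd => le_of_eq ?_).trans (Finset.sum_le_sum_of_subset_of_nonneg ?_ fun d _ _ => abs_nonneg _)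
  · rw [mem_filter] at hd
    have hsq := hd.2.1
    have h1 : ∏ q ∈ d.primeFactors, (((rc_T h q).card : ℝ) * H59C.gq q) = 1 / (Nat.totient d : ℝ) := by
      rw [← prod_gq d hsq]
      refine Finset.prod_congr rfl fun q hq => ?_
      rw [rc_T_card (Nat.prime_of_mem_primeFactors hq).pos]
      push_cast
      ring
    rw [h1]
    congr 1
    have h2 : (H59C.BX M u v).filter (fun x => d ∣ xv N x + h) =
        (sC N M u v α).S.filter (fun j => inT (rc_T h) d ((sC N M u v α).x j)) := by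
      refine Finset.filter_congr fun x _ => ?_
      exact (rc_inT d (xv N x) h hsq).symm
    have h3 : ∑ x ∈ (H59C.BX M u v).filter (fun x => d ∣ xv N x + h),
        H59C.wB α x * Fs w H N p1 (some h) (xv N x) =
        ∑ j ∈ (sC N M u v α).S.filter (fun j => inT (rc_T h) d ((sC N M u v α).x j)),
          (sC N M u v α).wt j * (FC w H (cfg w.P H (some h) ((sC N M u v α).x j)) *
            Sg (Ps w.W p1) (Rb N H) ((sC N M u v α).x j)) := by
      rw [h2]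
      rfl
    have h4 : H59C.XB M u v α * (AE w.P H (some h) (FC w H) * Vb N w.W p1 H) / (Nat.totient d : ℝ) =
        (sC N M u v α).X * (AE w.P H (some h) (FC w H) * Vb N w.W p1 H) * (1 / (Nat.totient d : ℝ)) := by
      rw [mul_one_div]
      rfl
    rw [← h4, ← h3]
  · intro d hd
    rw [mem_filter] at hd ⊢
    exact ⟨hd.1, hd.2.1, fun q hq => (hd.2.2 q hq).1⟩

end Pool.Agent.Lib.H57C
end

-- from Lib.H57C.REG
section

/-!
# Chunk REG: everything that is needed for the sieve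
-/

open Finset

namespace Pool.Agent.Lib.H57C

open Pool.Agent.Lib.H57M

/-- The ratio `Q/φ(Q)` for a set of primes `≤ n` is at most a constant times `log n`. -/
theorem reg_ratio (C : ℝ) (hQt : ∀ (W : ℕ) (T : ℝ), 1 ≤ T →
    ((∏ p ∈ H15P.PP W T, p : ℕ) : ℝ) / ((∏ p ∈ H15P.PP W T, p).totient : ℝ) ≤ C * T)
    (P : Finset ℕ) (hP : ∀ p ∈ P, p.Prime) (n : ℕ) (hn : ∀ p ∈ P, p ≤ n) (hn0 : 1 ≤ Real.log n) :
    ((∏ p ∈ P, p : ℕ) : ℝ) / ((∏ p ∈ P, p).totient : ℝ) ≤ C * Real.log n := by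
  have hn1 : (0 : ℝ) < n := by
    by_contra h
    have h1 : (n : ℝ) = 0 := le_antisymm (not_lt.mp h) (Nat.cast_nonneg _)
    rw [h1, Real.log_zero] at hn0
    linarith
  have hp : ∀ p ∈ H15P.PP 0 (Real.log n), p.Prime := fun p h => (mem_filter.1 h).2
  refine le_trans ?_ (hQt 0 (Real.log n) hn0)
  rw [H92G.e6_ratio _ hP, H92G.e6_ratio _ hp]
  have hsub : P ⊆ H15P.PP 0 (Real.log n) := by
    intro p hpP
    unfold H15P.PP
    rw [Real.exp_log hn1, Nat.floor_natCast, mem_filter, mem_Ioc]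
    exact ⟨⟨(hP p hpP).pos, hn p hpP⟩, hP p hpP⟩
  have h1 : ∀ p : ℕ, p.Prime → (1 : ℝ) ≤ (1 - 1 / (p : ℝ))⁻¹ := by
    intro p hp
    have h2 : (2 : ℝ) ≤ p := by exact_mod_cast hp.two_le
    have h3 : (0 : ℝ) < 1 / (p : ℝ) := by positivity
    have h4 : 1 / (p : ℝ) ≤ 1 / 2 := one_div_le_one_div_of_le (by norm_num) h2
    rw [one_le_inv₀ (by linarith)]
    linarith
  rw [← Finset.prod_sdiff hsub]
  refine le_mul_of_one_le_left (Finset.prod_nonneg fun p hpP =>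
    le_trans zero_le_one (h1 p (hP p hpP))) ?_
  have h5 := Finset.prod_le_prod (s := H15P.PP 0 (Real.log n) \ P) (f := fun _ => (1 : ℝ))
    (g := fun p : ℕ => (1 - 1 / (p : ℝ))⁻¹) (fun _ _ => zero_le_one)
    fun p hpP => h1 p (hp p (mem_sdiff.mp hpP).1)
  rwa [Finset.prod_const_one] at h5

/-- Proof. `wt_exists θ G` gives `m`, `cF`, `Dt`; `K = 4000^m`. `rB`, `rC`, `rI`, `rJ`, `rcls` (with `A0 = 20`), `rmom` give `A'` (maximum of two, `SWp_mono`) and `B0`;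
`B ≥ B0`, `B ≥ A' + 2`, `B ≥ 3`. For `H` given and `N` large (also in terms of `H` and `K0`): `w` from `wt_exists`, `p1` from `sw2 A' K0`:
`p1 ≤ L^(A'+1) ≤ L^B ≤ W`; `h ≤ W` for all `h ∈ H`. `aen`: `ae_none`. `aes`: `ae_some`, with `Q/φ(Q) ≤ CQ max(1, κ0 θ L) ≤ C L`
(`Q_div_totient_le`, `H92G`; or `∏_{p ≤ N} p/(p-1) ≤ C L`), `CL = (2(m+1))^K`, `Dt` constants, `W ≥ L^3`: `n2` holds for large `N`. -/
theorem reg_exists (θ G : ℝ) (hθ : 0 < θ) (hθ1 : θ ≤ 1 / 100) (hG : 0 < G) :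
    ∃ m : ℕ, 1 ≤ m ∧ ∃ cF B : ℕ, 3 ≤ B ∧ ∀ K0 : ℕ, ∀ H : Finset ℕ, H.card = 4000 ^ m →
      ∃ n0 : ℕ, ∀ N : ℕ, n0 ≤ N → (∀ h ∈ H, 2 ∣ N + h) →
        (∀ q : ℕ, q.Prime → (Rb N H q).card < q) →
        ∃ (w : Par (4000 ^ m)) (p1 : ℕ), K0 ≤ p1 ∧ Reg B cF θ G w H N p1 := by
  classical
  obtain ⟨m, hm, cF, Dt, hwt⟩ := wt_exists θ G hθ hθ1 hG
  have hK1 : 1 ≤ 4000 ^ m := Nat.one_le_pow _ _ (by norm_num)
  obtain ⟨AB, BB, hB⟩ := rB (4000 ^ m) cF hK1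
  obtain ⟨AC, BC, hC⟩ := rC (4000 ^ m) cF hK1
  obtain ⟨BI, hI⟩ := rI (4000 ^ m) cF hK1
  obtain ⟨BJ, hJ⟩ := rJ (4000 ^ m) cF hK1
  obtain ⟨BM, hM⟩ := rcls (4000 ^ m) cF 20 hK1
  obtain ⟨BS, hS⟩ := rmom (4000 ^ m) m hK1
  obtain ⟨CM, hCM, hQt⟩ := H92G.Q_div_totient_le
  obtain ⟨B, hBdef⟩ : ∃ B : ℕ, B = AB + AC + BB + BC + BI + BJ + BM + BS + 3 := ⟨_, rfl⟩
  refine ⟨m, hm, cF, B, by omega, fun K0 H hH => ?_⟩
  obtain ⟨n1, h1⟩ := hwt B (by omega)
  obtain ⟨n2, h2⟩ := sw2 (AB + AC) K0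
  obtain ⟨n3, h3⟩ := hB B (by omega) θ hθ hθ1
  obtain ⟨n4, h4⟩ := hC B (by omega) θ hθ hθ1
  obtain ⟨n5, h5⟩ := hI B (by omega) θ hθ hθ1
  obtain ⟨n6, h6⟩ := hJ B (by omega) θ hθ hθ1
  obtain ⟨n7, h7⟩ := hM B (by omega) θ hθ hθ1
  obtain ⟨n8, h8⟩ := hS B (by omega) θ hθ hθ1
  obtain ⟨X, hX⟩ : ∃ X : ℝ, X = 8 * ((4000 ^ m : ℕ) : ℝ) ^ 2 *
    (2 * ((m : ℝ) + 1)) ^ (4000 ^ m) * Dt ^ 2 := ⟨_, rfl⟩
  have hX0 : 0 ≤ X := by rw [hX]; positivity
  obtain ⟨n9, h9⟩ := H59C.cdl_log (1 + (∑ h ∈ H, h : ℕ) + 400 * ((4000 ^ m : ℕ) : ℝ) ^ 2 +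
    100 * (CM * X))
  refine ⟨n1 + n2 + n3 + n4 + n5 + n6 + n7 + n8 + n9 + 3, fun N hN he hnf => ?_⟩
  have hLL := h9 N (by omega)
  have hs0 : (0 : ℝ) ≤ ((∑ h ∈ H, h : ℕ) : ℝ) := Nat.cast_nonneg _
  have hk0 : (0 : ℝ) ≤ 400 * ((4000 ^ m : ℕ) : ℝ) ^ 2 := by positivity
  have hc0 : 0 ≤ 100 * (CM * X) := by positivity
  have hL1 : 1 ≤ Real.log N := by linarith
  have hL0 : 0 < Real.log N := by linarith
  obtain ⟨w, w1, w2, w3, w4, w5, w6, w7, w8⟩ := h1 N (by omega)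
  obtain ⟨p1, q1, q2, q3, q4⟩ := h2 N (by omega)
  have hLB : Real.log N ^ B ≤ w.W := by
    rw [w2]; exact Nat.le_ceil _
  have hLW : Real.log N ≤ w.W := le_trans (le_self_pow₀ hL1 (by omega)) hLB
  have hL3 : Real.log N ^ 3 ≤ w.W := le_trans (pow_le_pow_right₀ hL1 (by omega)) hLB
  have hHW : ∀ h ∈ H, h ≤ w.W := by
    intro h hh
    have a1 : h ≤ ∑ h ∈ H, h := Finset.single_le_sum (f := fun h => h) (fun _ _ => Nat.zero_le _) hh
    have a2 : (h : ℝ) ≤ ((∑ h ∈ H, h : ℕ) : ℝ) := by exact_mod_cast a1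
    have a3 : (h : ℝ) ≤ w.W := by linarith
    exact_mod_cast a3
  have hKW : 400 * ((4000 ^ m : ℕ) : ℝ) ^ 2 ≤ w.W := by linarith
  have hKW' : 400 * (4000 ^ m) ^ 2 ≤ w.W := by
    have : ((400 * (4000 ^ m) ^ 2 : ℕ) : ℝ) ≤ w.W := by
      push_cast
      push_cast at hKW
      exact hKW
    exact_mod_cast this
  have hp1W : p1 ≤ w.W := by
    have a1 : (p1 : ℝ) ≤ w.W := by
      calc (p1 : ℝ) ≤ Real.log N ^ (AB + AC + 1) := q3
        _ ≤ Real.log N ^ B := pow_le_pow_right₀ hL1 (by omega)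
        _ ≤ w.W := hLB
    exact_mod_cast a1
  have hpre : Pre B cF θ w H N p1 := ⟨hH, hHW, w2, w6, q1, hp1W, he, hnf, w8 H hH⟩
  have hpre0 := hpre.to0
  have hSB : H59C.SWp AB N p1 := H59C.SWp_mono (by omega) (by omega) q4
  have hSC : H59C.SWp AC N p1 := H59C.SWp_mono (by omega) (by omega) q4
  have hW0 : (0 : ℝ) < w.W := by linarith
  have hn1' : (1 : ℝ) ≤ N := by exact_mod_cast (by omega : 1 ≤ N)
  have hratio := reg_ratio CM hQt w.P w.prime N (fun p hp => by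
    have a1 := w6 p hp
    have a2 : (N : ℝ) ^ (1 / 100 : ℝ) ≤ N := by
      calc (N : ℝ) ^ (1 / 100 : ℝ) ≤ (N : ℝ) ^ (1 : ℝ) :=
            Real.rpow_le_rpow_of_exponent_le hn1' (by norm_num)
        _ = N := Real.rpow_one _
    exact_mod_cast a1.trans a2) hL1
  have hn2 : (((∏ p ∈ w.P, p : ℕ) : ℝ) / ((∏ p ∈ w.P, p).totient : ℝ)) *
      (8 * ((4000 ^ m : ℕ) : ℝ) ^ 2 * w.CL * w.Dt ^ 2 / w.W) ≤ 1 / 100 := by
    have e1 : 8 * ((4000 ^ m : ℕ) : ℝ) ^ 2 * w.CL * w.Dt ^ 2 = X := by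
      unfold Par.CL
      rw [w1, w3, hX]
    rw [e1]
    calc (((∏ p ∈ w.P, p : ℕ) : ℝ) / ((∏ p ∈ w.P, p).totient : ℝ)) * (X / w.W)
        ≤ (CM * Real.log N) * (X / w.W) :=
          mul_le_mul_of_nonneg_right hratio (by positivity)
      _ ≤ (CM * Real.log N) * (X / Real.log N ^ 3) := by
          refine mul_le_mul_of_nonneg_left ?_ (by positivity)
          exact div_le_div_of_nonneg_left hX0 (by positivity) hL3
      _ = (CM * X) / Real.log N ^ 2 := by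
          field_simp
      _ ≤ 1 / 100 := by
          rw [div_le_iff₀ (by positivity)]
          have : Real.log N ≤ Real.log N ^ 2 := le_self_pow₀ hL1 (by norm_num)
          nlinarith
  obtain ⟨a1, a2⟩ := ae_none w H hH hHW hKW'
  refine ⟨w, p1, q2, { hpre with
    aen0 := a1
    aen := a2
    aes := fun h hh => ae_some w H hH hHW hKW h hh hn2
    gain := w7
    remB := fun h hh => h3 N (by omega) w H p1 hpre hSB h hh
    remC := fun h hh M u v α => h4 N (by omega) w H p1 hpre hSC h hh M u v α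
    remI := h5 N (by omega) w H p1 hpre
    remJ := fun h hh => h6 N (by omega) w H p1 hpre h hh
    cls := fun h hh r c hr hr1 => h7 N (by omega) w H p1 hpre0 h hh r c
      (hr.imp (fun hr => ⟨r, hr, Or.inl rfl⟩) id) hr1
    mom := h8 N (by omega) w H w1 w4 w5 hH hHW (by omega) }⟩

end Pool.Agent.Lib.H57C
end

-- from Lib.H57C.S1
section

/-!
# Chunk S1: the first sum
-/

open Finset

namespace Pool.Agent.Lib.H57C

open Pool.Agent.Lib.H57M
open Pool.Agent.Lib.H59C (AA zz)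

/-- Proof. As `S1_lower` (`H59C/CS1.lean`): `jr (ε/4)` gives `Q0, z0`, `D = Lv N θ/Q0`, `z = zz N = N^(1/8)`, `s = log D/log z`:
`s ≤ 4` and `s ≥ 4 - 32 θ - o(1)`. Choose `θ0` such that `AA log (s - 1)/s ≥ AA (log 3)/4 - ε/4` for `|s - 4| ≤ 33 θ0` (continuity at `4`), `θ0 ≤ 1/100`.
The remainder `remd .. ≤` the sum in `remB` (a subset of the moduli), `≤ N/L^10 ≤ (ε/4) Xh Vz` for large `N` by `main_low`. -/
theorem S1_low (ε : ℝ) (hε : 0 < ε) : ∃ θ0 : ℝ, 0 < θ0 ∧ ∀ θ : ℝ, 0 < θ → θ ≤ θ0 →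
    ∀ (K B cF : ℕ) (G : ℝ), 1 ≤ K → 3 ≤ B → ∃ n0 : ℕ, ∀ N : ℕ, n0 ≤ N →
    ∀ (w : Par K) (H : Finset ℕ) (p1 : ℕ), Reg B cF θ G w H N p1 → ∀ h ∈ H,
    Xh w H N p1 h * Vz N w.W H * (AA * Real.log 3 / 4 - ε) ≤ S1s w H N p1 h := by
  classical
  obtain ⟨Q0, hQ0, z0, hz0, hjr⟩ := H59C.jr (ε / 4) (by linarith)
  have hcont : ContinuousAt (fun s : ℝ => AA * Real.log (s - 1) / s) 4 := by
    apply ContinuousAt.div
    · apply ContinuousAt.mul continuousAt_const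
      apply ContinuousAt.log
      · fun_prop
      · norm_num
    · fun_prop
    · norm_num
  obtain ⟨δ, hδ, hcδ⟩ := Metric.continuousAt_iff.mp hcont (ε / 4) (by linarith)
  obtain ⟨η, hη⟩ : ∃ η : ℝ, η = min (δ / 16) (1 / 20) := ⟨_, rfl⟩
  have hη0 : 0 < η := by rw [hη]; exact lt_min (by linarith) (by norm_num)
  have hη1 : η ≤ δ / 16 := by rw [hη]; exact min_le_left _ _
  have hη2 : η ≤ 1 / 20 := by rw [hη]; exact min_le_right _ _
  refine ⟨η / 5, by linarith, fun θ hθ hθη K B cF G hK hB => ?_⟩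
  obtain ⟨n1, hmain⟩ := main_low K B cF hK θ G
  obtain ⟨n3, hn3⟩ := s2_lv θ hθ (by linarith) Q0 hQ0
  obtain ⟨n4, hn4⟩ := H59C.cdl_zz z0
  obtain ⟨n5, hn5⟩ := H59C.cdl_log (max 1 (4 / ε))
  refine ⟨n1 + n3 + n4 + n5 + 3, fun N hn w H p1 hR h hh => ?_⟩
  have hN : (3 : ℝ) ≤ N := by exact_mod_cast (by omega : 3 ≤ N)
  have hL : 0 < Real.log N := Real.log_pos (by linarith)
  obtain ⟨hD1, hDl', hDu, hDp⟩ := hn3 N (by omega)
  have hzn := hn4 N (by omega)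
  have hLn := hn5 N (by omega)
  have hL1 : 1 ≤ Real.log N := le_trans (le_max_left _ _) hLn
  have hL4 : 4 / ε ≤ Real.log N := le_trans (le_max_right _ _) hLn
  have hlz := H59C.log_zz N (by omega)
  obtain ⟨hXV, hX0, -, -⟩ := hmain N (by omega) w H p1 hR h hh
  have hW4 : 2 ≤ w.W := by
    have := w.KW
    have h1 := w.Kpos
    nlinarith
  have hzpos : 0 < zz N := by linarith
  obtain ⟨D, hD⟩ : ∃ D : ℝ, D = (Lv N θ : ℝ) / Q0 := ⟨_, rfl⟩
  rw [← hD] at hDl' hDu hDp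
  have hDl : (1 / 2 - η) * Real.log N ≤ Real.log D :=
    le_trans (mul_le_mul_of_nonneg_right (by linarith) hL.le) hDl'
  have hlz0 : 0 < Real.log (zz N) := by rw [hlz]; linarith
  have h2z : 2 * Real.log (zz N) ≤ Real.log D := by
    rw [hlz]
    have : (3 / 8 : ℝ) * Real.log N ≤ (1 / 2 - η) * Real.log N := by
      apply mul_le_mul_of_nonneg_right (by linarith) hL.le
    linarith
  have h4z : Real.log D ≤ 4 * Real.log (zz N) := by
    rw [hlz]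
    linarith
  have hzD : zz N ≤ D := by
    rw [← Real.log_le_log_iff hzpos hDp]
    linarith
  obtain ⟨-, hlow⟩ := hjr (Pg N w.W H) (fun q hq => s2_Pg hW4 hq) (zz N) D hzn hzD (Sh N h)
    (wh w H N p1 h) (fun p => Nat.dist (N + h) p) (Xh w H N p1 h) hX0
    (fun p _ => mul_nonneg (H59C.lg_nonneg p) (s2_Fs w H N p1 _ _))
  have hlow := hlow h2z h4z
  have hDQ : D * (Q0 : ℝ) = (Lv N θ : ℝ) := by
    rw [hD]
    have : (Q0 : ℝ) ≠ 0 := by
      have : (1 : ℝ) ≤ Q0 := by exact_mod_cast hQ0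
      linarith
    field_simp
  rw [hDQ] at hlow
  have hrem : H59C.remd (Sh N h) (wh w H N p1 h) (fun p => Nat.dist (N + h) p) (Pg N w.W H) (zz N)
      (Xh w H N p1 h) (Lv N θ) ≤ N / Real.log N ^ 10 := by
    refine le_trans ?_ (hR.remB h hh)
    unfold H59C.remd
    rw [Nat.floor_natCast]
    refine sum_le_sum_of_subset_of_nonneg ?_ fun d _ _ => abs_nonneg _
    intro d hd
    unfold Dv
    rw [mem_filter] at hd ⊢
    exact ⟨hd.1, hd.2.1, fun q hq => (hd.2.2 q hq).1⟩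
  have hsm : N / Real.log N ^ 10 ≤ ε / 4 * (Xh w H N p1 h * Vz N w.W H) := by
    have e1 : (N : ℝ) / Real.log N ^ 10 = N / Real.log N ^ 3 * (1 / Real.log N ^ 7) := by
      field_simp
    have e2 : 1 / Real.log N ^ 7 ≤ ε / 4 := by
      rw [div_le_iff₀ (by positivity)]
      rw [div_le_iff₀ hε] at hL4
      have e3 : Real.log N ≤ Real.log N ^ 7 := le_self_pow₀ hL1 (by norm_num)
      nlinarith
    rw [e1, mul_comm]
    exact mul_le_mul e2 hXV (by positivity) (by positivity)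
  obtain ⟨s, hs⟩ : ∃ s : ℝ, s = Real.log D / Real.log (zz N) := ⟨_, rfl⟩
  rw [← hs] at hlow
  have hs4 : s ≤ 4 := by
    rw [hs, div_le_iff₀ hlz0]
    linarith
  have hsl : 4 - 8 * η ≤ s := by
    rw [hs, le_div_iff₀ hlz0, hlz]
    have : (4 - 8 * η) * (1 / 8 * Real.log N) = (1 / 2 - η) * Real.log N := by ring
    linarith
  have hdist : dist s 4 < δ := by
    rw [Real.dist_eq, abs_lt]
    constructor <;> linarith
  have hclose := hcδ hdist
  rw [Real.dist_eq, abs_lt] at hclose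
  have hmain2 : AA * Real.log 3 / 4 - ε / 4 ≤ AA * Real.log (s - 1) / s := by
    have h31 : (4 : ℝ) - 1 = 3 := by norm_num
    have := hclose.1
    rw [h31] at this
    linarith
  have hVX : 0 ≤ Xh w H N p1 h * Vz N w.W H := by
    have h0 : 0 ≤ (N : ℝ) / Real.log N ^ 3 := by positivity
    exact h0.trans hXV
  have hA : Xh w H N p1 h * Vz N w.W H * (AA * Real.log 3 / 4 - ε / 2) ≤
      Xh w H N p1 h * Vz N w.W H * (AA * Real.log (s - 1) / s - ε / 4) := by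
    apply mul_le_mul_of_nonneg_left _ hVX
    linarith
  have hlow2 : Xh w H N p1 h * Vz N w.W H * (AA * Real.log (s - 1) / s - ε / 4) -
      H59C.remd (Sh N h) (wh w H N p1 h) (fun p => Nat.dist (N + h) p) (Pg N w.W H) (zz N)
      (Xh w H N p1 h) (Lv N θ) ≤ S1s w H N p1 h := hlow
  have e1 : Xh w H N p1 h * Vz N w.W H * (AA * Real.log 3 / 4 - ε) =
      Xh w H N p1 h * Vz N w.W H * (AA * Real.log 3 / 4 - ε / 2) -
        ε / 2 * (Xh w H N p1 h * Vz N w.W H) := by ring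
  have e2 : 0 ≤ ε / 4 * (Xh w H N p1 h * Vz N w.W H) := by positivity
  rw [e1]
  linarith

end Pool.Agent.Lib.H57C
end
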