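import Pool.Agent.Lib.H1M.RV.M051
import Pool.Agent.Lib.H1M.RV.M060
import Pool.Agent.Lib.H1M.RV.M061
import Pool.Agent.Lib.H1M.RV.M065
import Pool.Agent.Lib.H1M.RV.M071
import Pool.Agent.Lib.H1M.RV.M073
import Pool.Agent.Lib.H1M.RV.M087
import Pool.Agent.Lib.H1M.RV.M089
import Pool.Agent.Lib.H1M.RV.M091
import Pool.Agent.Lib.H1M.RV.M094

/-! Merged copies (to shorten the build) of Lib.H18GB2.BX2, Lib.H57T.S1, Lib.H57C.E2, Lib.H57C.S3. -/

-- from Lib.H18GB2.BX2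
section

/-!
# Project GB2: BX2 (removal of the weights from the box sums)
-/

namespace Pool.Agent.Lib.H18GB

open Finset Pool.Agent.Lib.Sieve

theorem bx2_maj {κ : ℝ} {S : Finset ℕ} {W : ℕ} {r : ℤ} (hS : ∀ p ∈ S, p.Prime) (hκ : 0 ≤ κ)
    {P : Fin 4 → ℤ → ℝ} (hP : ∀ i n, |P i n| ≤ κ * (1 + rho S (r + W * n))) (j k s : ℤ) :
    |P 0 s| * |P 1 (s + j)| * (|P 2 (s + k)| * |P 3 (s + k + j)|) ≤ κ ^ 4 * nu S W r j k s := by
  rw [nu_expand]
  have hr := fun m => rho_nonneg hS (r + W * m)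
  have g1 := hP 0 s
  have g2 := hP 1 (s + j)
  have g3 := hP 2 (s + k)
  have g4 := hP 3 (s + k + j)
  have r1 := hr s
  have r2 := hr (s + j)
  have r3 := hr (s + k)
  have r4 := hr (s + k + j)
  calc |P 0 s| * |P 1 (s + j)| * (|P 2 (s + k)| * |P 3 (s + k + j)|)
      ≤ (κ * (1 + rho S (r + W * s))) * (κ * (1 + rho S (r + W * (s + j)))) *
        ((κ * (1 + rho S (r + W * (s + k)))) * (κ * (1 + rho S (r + W * (s + k + j))))) := by
        gcongr
    _ = _ := by ring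

/-- Chunk BX2. `gvn2` with `M1 j k s = κ^4 nu S W r1 j k s`, `M2 j k t = κ^4 nu S W r2 (-j) k t`,
`core2`, `fac1` (for `∑ M2`), `quad0`. -/
theorem bx2 (ι υ ι' υ' : Type) [Fintype ι] [Fintype υ] [Fintype ι'] [Fintype υ'] :
    ∃ C : ℕ, 2 ≤ C ∧ ∀ (A w z W N : ℕ) (S : Finset ℕ), Stp C A w z W N S →
    ∀ (g : GW ι υ) (g' : GW ι' υ') (η : ℝ), 0 ≤ η → η ≤ 1 → g.ok S W η → g'.ok S W η →
    ∀ (r1 r2 : ℤ) (κ : ℝ) (P Q : Fin 4 → ℤ → ℝ), 1 ≤ κ →
    (∀ i n, |P i n| ≤ κ * (1 + rho S (r1 + W * n))) →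
    (∀ i n, |Q i n| ≤ κ * (1 + rho S (r2 + W * n))) →
    (∀ i n, n ∉ Finset.Ico (-(2 * N : ℤ)) (2 * N) → P i n = 0) →
    (∀ i n, n ∉ Finset.Ico (-(2 * N : ℤ)) (2 * N) → Q i n = 0) →
    (∑ x ∈ Finset.Ico (0 : ℤ) N, ∑ x' ∈ Finset.Ico (0 : ℤ) N, ∑ y ∈ Finset.Ico (0 : ℤ) N,
      ∑ y' ∈ Finset.Ico (0 : ℤ) N, gdev g g' S W x x' y y' *
        ((P 0 (x + y) * Q 0 (x - y) * (P 1 (x + y') * Q 1 (x - y'))) *
          (P 2 (x' + y) * Q 2 (x' - y) * (P 3 (x' + y') * Q 3 (x' - y'))))) ^ 2 ≤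
      C * κ ^ 16 * (er C A w + η) * N ^ 8 := by
  obtain ⟨C0, hC0, hc0⟩ := core2 ι υ ι' υ'
  obtain ⟨C1, hC1, hc1⟩ := fac1
  obtain ⟨C2, hC2, hc2⟩ := quad0
  refine ⟨C0 + C1 + C2 + C0 * C1 * (C2 + C0), by omega, fun A w z W N S h g g' η hη hη1 hg hg' r1 r2
    κ P Q hκ hP hQ hP0 hQ0 => ?_⟩
  set C : ℕ := C0 + C1 + C2 + C0 * C1 * (C2 + C0) with hC
  have h0 := h.mono (show C0 ≤ C by omega)
  have h1 := h.mono (show C1 ≤ C by omega)
  have h2 := h.mono (show C2 ≤ C by omega)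
  have hw1 : 1 ≤ w := h.w_pos (by omega)
  have hκ0 : 0 ≤ κ := by linarith
  obtain ⟨D, hD0, hD1, hD2⟩ := hc0 A w z W N S h0 g g' η hη hg hg' r2
  have hnu : ∀ r j k s, 0 ≤ nu S W r j k s := fun r j k s => nu_nonneg h.hS.prime W r j k s
  have key := gvn2 N (gdev g g' S W) P Q (fun j k s => κ ^ 4 * nu S W r1 j k s)
    (fun j k t => κ ^ 4 * nu S W r2 (-j) k t) hP0 hQ0
    (fun j k s => bx2_maj h.hS.prime hκ0 hP j k s)
    (fun j k t => by
      have := bx2_maj h.hS.prime hκ0 hQ (-j) k t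
      rwa [← sub_eq_add_neg, ← sub_eq_add_neg] at this)
  have F1 := hc1 A w z W N S h1 κ hκ0 r2
  have hε0 := er_nonneg C0 A w
  have hN0 : (0 : ℝ) ≤ N := Nat.cast_nonneg _
  have F2 : ∑ j ∈ Finset.Ico (-(2 * N : ℤ)) (2 * N), ∑ k ∈ Finset.Ico (-(N : ℤ)) N,
      ∑ l ∈ Finset.Ico (-(N : ℤ)) N, ∑ s ∈ Finset.Ico (-(2 * N : ℤ)) (2 * N),
        (κ ^ 4 * nu S W r1 j k s) * (κ ^ 4 * nu S W r1 j k (s + 2 * l)) *
        |∑ x ∈ Finset.Ico (0 : ℤ) N, ecut N (gdev g g' S W) j k x (s - x) *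
          ecut N (gdev g g' S W) j k (x + l) (s - x + l) * (κ ^ 4 * nu S W r2 (-j) k (2 * x - s))| ≤
      κ ^ 12 * (C0 * N) * ((er C0 A w + η) * (C2 * N ^ 4) + C0 * N ^ 4 * er C0 A w) := by
    have e1 : ∀ j k l s : ℤ, |∑ x ∈ Finset.Ico (0 : ℤ) N, ecut N (gdev g g' S W) j k x (s - x) *
          ecut N (gdev g g' S W) j k (x + l) (s - x + l) * (κ ^ 4 * nu S W r2 (-j) k (2 * x - s))| ≤
        κ ^ 4 * (C0 * N * (er C0 A w + η + D j k l s)) := by
      intro j k l s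
      have e2 : ∑ x ∈ Finset.Ico (0 : ℤ) N, ecut N (gdev g g' S W) j k x (s - x) *
          ecut N (gdev g g' S W) j k (x + l) (s - x + l) * (κ ^ 4 * nu S W r2 (-j) k (2 * x - s)) =
          κ ^ 4 * ∑ x ∈ Finset.Ico (0 : ℤ) N, ecut N (gdev g g' S W) j k x (s - x) *
          ecut N (gdev g g' S W) j k (x + l) (s - x + l) * nu S W r2 (-j) k (2 * x - s) := by
        rw [Finset.mul_sum]
        apply Finset.sum_congr rfl
        intro x _
        ring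
      rw [e2, abs_mul, abs_of_nonneg (by positivity : (0 : ℝ) ≤ κ ^ 4)]
      exact mul_le_mul_of_nonneg_left (hD2 j k l s) (by positivity)
    calc _ ≤ ∑ j ∈ Finset.Ico (-(2 * N : ℤ)) (2 * N), ∑ k ∈ Finset.Ico (-(N : ℤ)) N,
          ∑ l ∈ Finset.Ico (-(N : ℤ)) N, ∑ s ∈ Finset.Ico (-(2 * N : ℤ)) (2 * N),
          (κ ^ 12 * (C0 * N)) * ((er C0 A w + η) * (nu S W r1 j k s * nu S W r1 j k (s + 2 * l) * 1) +
            nu S W r1 j k s * nu S W r1 j k (s + 2 * l) * D j k l s) := by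
          apply Finset.sum_le_sum; intro j _
          apply Finset.sum_le_sum; intro k _
          apply Finset.sum_le_sum; intro l _
          apply Finset.sum_le_sum; intro s _
          have n1 := hnu r1 j k s
          have n2 := hnu r1 j k (s + 2 * l)
          calc _ ≤ (κ ^ 4 * nu S W r1 j k s) * (κ ^ 4 * nu S W r1 j k (s + 2 * l)) *
                (κ ^ 4 * (C0 * N * (er C0 A w + η + D j k l s))) :=
                mul_le_mul_of_nonneg_left (e1 j k l s) (by positivity)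
            _ = _ := by ring
      _ = κ ^ 12 * (C0 * N) * ((er C0 A w + η) * Qs S W N r1 (fun _ _ _ _ => 1) +
          Qs S W N r1 D) := by
          unfold Qs
          simp only [Finset.mul_sum, mul_add, Finset.sum_add_distrib]
      _ ≤ _ := by
          have q1 := hc2 A w z W N S h2 r1
          have q2 := hD1 r1
          gcongr
  refine key.trans ((mul_le_mul F1 F2 ?_ (by positivity)).trans ?_)
  · apply Finset.sum_nonneg; intro j _
    apply Finset.sum_nonneg; intro k _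
    apply Finset.sum_nonneg; intro l _
    apply Finset.sum_nonneg; intro s _
    have n1 := hnu r1 j k s
    have n2 := hnu r1 j k (s + 2 * l)
    positivity
  · have her : er C0 A w ≤ er C A w := er_mono (by omega) (by omega) A hw1
    have hCr : (C0 * C1 * (C2 + C0) : ℝ) ≤ C := by
      have : C0 * C1 * (C2 + C0) ≤ C := by omega
      exact_mod_cast this
    calc (C1 * κ ^ 4 * (N : ℝ) ^ 3) * (κ ^ 12 * (C0 * N) *
          ((er C0 A w + η) * (C2 * N ^ 4) + C0 * N ^ 4 * er C0 A w))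
        ≤ (C1 * κ ^ 4 * (N : ℝ) ^ 3) * (κ ^ 12 * (C0 * N) *
          ((er C0 A w + η) * (C2 * N ^ 4) + C0 * N ^ 4 * (er C0 A w + η))) := by
          gcongr
          linarith
      _ = (C0 * C1 * (C2 + C0) : ℝ) * κ ^ 16 * (er C0 A w + η) * N ^ 8 := by ring
      _ ≤ C * κ ^ 16 * (er C A w + η) * N ^ 8 := by gcongr

end Pool.Agent.Lib.H18GB
end

-- from Lib.H57T.S1
section

/-!
# Chunk S1: the first sum
-/

open Finset

namespace Pool.Agent.Lib.H57T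

open Pool.Agent.Lib.H57C


open Pool.Agent.Lib.H57M
open Pool.Agent.Lib.H59C (AA zz)

/-- Proof. As `S1_lower` (`H59C/CS1.lean`): `jr (ε/4)` gives `Q0, z0`, `D = Lv N θ/Q0`, `z = zz N = N^(1/8)`, `s = log D/log z`:
`s ≤ 4` and `s ≥ 4 - 32 θ - o(1)`. Choose `θ0` such that `AA log (s - 1)/s ≥ AA (log 3)/4 - ε/4` for `|s - 4| ≤ 33 θ0` (continuity at `4`), `θ0 ≤ 1/100`.
The remainder `remd .. ≤` the sum in `remB` (a subset of the moduli), `≤ N/L^10 ≤ (ε/4) Xh Vz` for large `N` by `main_low`. -/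
theorem S1_low (ε : ℝ) (hε : 0 < ε) : ∃ θ0 : ℝ, 0 < θ0 ∧ ∀ θ : ℝ, 0 < θ → θ ≤ θ0 →
    ∀ (K B cF : ℕ) (G : ℝ), 1 ≤ K → 3 ≤ B → ∃ n0 : ℕ, ∀ N : ℕ, n0 ≤ N →
    ∀ (w : Par K) (H : Finset ℕ) (a p1 : ℕ), Reg B cF θ G w H N a p1 → ∀ h ∈ H,
    Xh w H N a p1 h * Vz N w.W H a * (AA * Real.log 3 / 4 - ε) ≤ S1s w H N a p1 h := by
  classical
  obtain ⟨Q0, hQ0, z0, hz0, hjr⟩ := H59C.jr (ε / 4) (by linarith)
  have hcont : ContinuousAt (fun s : ℝ => AA * Real.log (s - 1) / s) 4 := by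
    apply ContinuousAt.div
    · apply ContinuousAt.mul continuousAt_const
      apply ContinuousAt.log
      · fun_prop
      · norm_num
    · fun_prop
    · norm_num
  obtain ⟨δ, hδ, hcδ⟩ := Metric.continuousAt_iff.mp hcont (ε / 4) (by linarith)
  obtain ⟨η, hη⟩ : ∃ η : ℝ, η = min (δ / 16) (1 / 20) := ⟨_, rfl⟩
  have hη0 : 0 < η := by rw [hη]; exact lt_min (by linarith) (by norm_num)
  have hη1 : η ≤ δ / 16 := by rw [hη]; exact min_le_left _ _
  have hη2 : η ≤ 1 / 20 := by rw [hη]; exact min_le_right _ _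
  refine ⟨η / 5, by linarith, fun θ hθ hθη K B cF G hK hB => ?_⟩
  obtain ⟨n1, hmain⟩ := main_low K B cF hK θ G
  obtain ⟨n3, hn3⟩ := s2_lv θ hθ (by linarith) Q0 hQ0
  obtain ⟨n4, hn4⟩ := H59C.cdl_zz z0
  obtain ⟨n5, hn5⟩ := H59C.cdl_log (max 1 (4 / ε))
  refine ⟨n1 + n3 + n4 + n5 + 3, fun N hn w H a p1 hR h hh => ?_⟩
  have hN : (3 : ℝ) ≤ N := by exact_mod_cast (by omega : 3 ≤ N)
  have hL : 0 < Real.log N := Real.log_pos (by linarith)
  obtain ⟨hD1, hDl', hDu, hDp⟩ := hn3 N (by omega)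
  have hzn := hn4 N (by omega)
  have hLn := hn5 N (by omega)
  have hL1 : 1 ≤ Real.log N := le_trans (le_max_left _ _) hLn
  have hL4 : 4 / ε ≤ Real.log N := le_trans (le_max_right _ _) hLn
  have hlz := H59C.log_zz N (by omega)
  obtain ⟨hXV, hX0, -, -⟩ := hmain N (by omega) w H a p1 hR h hh
  have hW4 : 2 ≤ w.W := by
    have := w.KW
    have h1 := w.Kpos
    nlinarith
  have hzpos : 0 < zz N := by linarith
  obtain ⟨D, hD⟩ : ∃ D : ℝ, D = (Lv N θ : ℝ) / Q0 := ⟨_, rfl⟩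
  rw [← hD] at hDl' hDu hDp
  have hDl : (1 / 2 - η) * Real.log N ≤ Real.log D :=
    le_trans (mul_le_mul_of_nonneg_right (by linarith) hL.le) hDl'
  have hlz0 : 0 < Real.log (zz N) := by rw [hlz]; linarith
  have h2z : 2 * Real.log (zz N) ≤ Real.log D := by
    rw [hlz]
    have : (3 / 8 : ℝ) * Real.log N ≤ (1 / 2 - η) * Real.log N := by
      apply mul_le_mul_of_nonneg_right (by linarith) hL.le
    linarith
  have h4z : Real.log D ≤ 4 * Real.log (zz N) := by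
    rw [hlz]
    linarith
  have hzD : zz N ≤ D := by
    rw [← Real.log_le_log_iff hzpos hDp]
    linarith
  obtain ⟨-, hlow⟩ := hjr (Pg N w.W H a) (fun q hq => s2_Pg hW4 hq) (zz N) D hzn hzD (Sh N h)
    (wh w H a p1 h) (fun p => tv a h p) (Xh w H N a p1 h) hX0
    (fun p _ => mul_nonneg (H59C.lg_nonneg p) (s2_Fs w H a p1 _ _))
  have hlow := hlow h2z h4z
  have hDQ : D * (Q0 : ℝ) = (Lv N θ : ℝ) := by
    rw [hD]
    have : (Q0 : ℝ) ≠ 0 := by
      have : (1 : ℝ) ≤ Q0 := by exact_mod_cast hQ0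
      linarith
    field_simp
  rw [hDQ] at hlow
  have hrem : H59C.remd (Sh N h) (wh w H a p1 h) (fun p => tv a h p) (Pg N w.W H a) (zz N)
      (Xh w H N a p1 h) (Lv N θ) ≤ N / Real.log N ^ 10 := by
    refine le_trans ?_ (hR.remB h hh)
    unfold H59C.remd
    rw [Nat.floor_natCast]
    refine sum_le_sum_of_subset_of_nonneg ?_ fun d _ _ => abs_nonneg _
    intro d hd
    unfold Dv
    rw [mem_filter] at hd ⊢
    exact ⟨hd.1, hd.2.1, fun q hq => (hd.2.2 q hq).1⟩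
  have hsm : N / Real.log N ^ 10 ≤ ε / 4 * (Xh w H N a p1 h * Vz N w.W H a) := by
    have e1 : (N : ℝ) / Real.log N ^ 10 = N / Real.log N ^ 3 * (1 / Real.log N ^ 7) := by
      field_simp
    have e2 : 1 / Real.log N ^ 7 ≤ ε / 4 := by
      rw [div_le_iff₀ (by positivity)]
      rw [div_le_iff₀ hε] at hL4
      have e3 : Real.log N ≤ Real.log N ^ 7 := le_self_pow₀ hL1 (by norm_num)
      nlinarith
    rw [e1, mul_comm]
    exact mul_le_mul e2 hXV (by positivity) (by positivity)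
  obtain ⟨s, hs⟩ : ∃ s : ℝ, s = Real.log D / Real.log (zz N) := ⟨_, rfl⟩
  rw [← hs] at hlow
  have hs4 : s ≤ 4 := by
    rw [hs, div_le_iff₀ hlz0]
    linarith
  have hsl : 4 - 8 * η ≤ s := by
    rw [hs, le_div_iff₀ hlz0, hlz]
    have : (4 - 8 * η) * (1 / 8 * Real.log N) = (1 / 2 - η) * Real.log N := by ring
    linarith
  have hdist : dist s 4 < δ := by
    rw [Real.dist_eq, abs_lt]
    constructor <;> linarith
  have hclose := hcδ hdist
  rw [Real.dist_eq, abs_lt] at hclose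
  have hmain2 : AA * Real.log 3 / 4 - ε / 4 ≤ AA * Real.log (s - 1) / s := by
    have h31 : (4 : ℝ) - 1 = 3 := by norm_num
    have := hclose.1
    rw [h31] at this
    linarith
  have hVX : 0 ≤ Xh w H N a p1 h * Vz N w.W H a := by
    have h0 : 0 ≤ (N : ℝ) / Real.log N ^ 3 := by positivity
    exact h0.trans hXV
  have hA : Xh w H N a p1 h * Vz N w.W H a * (AA * Real.log 3 / 4 - ε / 2) ≤
      Xh w H N a p1 h * Vz N w.W H a * (AA * Real.log (s - 1) / s - ε / 4) := by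
    apply mul_le_mul_of_nonneg_left _ hVX
    linarith
  have hlow2 : Xh w H N a p1 h * Vz N w.W H a * (AA * Real.log (s - 1) / s - ε / 4) -
      H59C.remd (Sh N h) (wh w H a p1 h) (fun p => tv a h p) (Pg N w.W H a) (zz N)
      (Xh w H N a p1 h) (Lv N θ) ≤ S1s w H N a p1 h := hlow
  have e1 : Xh w H N a p1 h * Vz N w.W H a * (AA * Real.log 3 / 4 - ε) =
      Xh w H N a p1 h * Vz N w.W H a * (AA * Real.log 3 / 4 - ε / 2) -
        ε / 2 * (Xh w H N a p1 h * Vz N w.W H a) := by ring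
  have e2 : 0 ≤ ε / 4 * (Xh w H N a p1 h * Vz N w.W H a) := by positivity
  rw [e1]
  linarith

end Pool.Agent.Lib.H57T
end

-- from Lib.H57C.E2
section

/-!
# Chunk E2: bad primes and squares
-/

open Finset

namespace Pool.Agent.Lib.H57C

open Pool.Agent.Lib.H57M
open Pool.Agent.Lib.H59C (AA zz XX)

theorem E2_FF {K : ℕ} (w : Par K) (H : Finset ℕ) (i : Option ℕ) (t : ℕ) : 0 ≤ FF w H i t := by
  have hz : 0 ≤ w.z := by
    unfold Par.z
    have : 0 ≤ ∑ i, H15P.ex (H15P.qq w.P K) (fun A => w.D i A ^ 2) :=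
      Finset.sum_nonneg fun i _ => H15P.ex_nonneg _ w.good.q0 w.good.q1 _ fun A => sq_nonneg _
    linarith
  unfold FF
  exact div_nonneg (sq_nonneg _) (pow_nonneg hz _)

theorem E2_Fs {K : ℕ} (w : Par K) (H : Finset ℕ) (N p1 : ℕ) (i : Option ℕ) (t : ℕ) :
    0 ≤ Fs w H N p1 i t ∧ Fs w H N p1 i t ≤ FF w H i t := by
  have h0 := E2_FF w H i t
  unfold Fs Sg
  split_ifs
  · rw [mul_one]
    exact ⟨h0, le_refl _⟩
  · rw [mul_zero]
    exact ⟨le_refl _, h0⟩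

theorem E2_ev (k : ℕ) (s C : ℝ) (hs : 0 < s) (hC : 0 < C) : ∃ n0 : ℕ, ∀ N : ℕ, n0 ≤ N →
    C * Real.log N ^ k ≤ (N : ℝ) ^ s := by
  have h1 : ∀ᶠ x : ℝ in Filter.atTop, C * Real.log x ^ k ≤ x ^ s := by
    have e1 := (isLittleO_log_rpow_rpow_atTop (k : ℝ) hs).def (show (0 : ℝ) < 1 / C by positivity)
    filter_upwards [e1, Filter.eventually_ge_atTop (1 : ℝ)] with x hx1 hx2
    have hl : 0 ≤ Real.log x := Real.log_nonneg hx2
    rw [Real.rpow_natCast, Real.norm_eq_abs, Real.norm_eq_abs, abs_of_nonneg (pow_nonneg hl _),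
      abs_of_nonneg (Real.rpow_nonneg (by linarith) _)] at hx1
    calc C * Real.log x ^ k ≤ C * (1 / C * x ^ s) := mul_le_mul_of_nonneg_left hx1 hC.le
      _ = x ^ s := by
          field_simp
  obtain ⟨n0, hn0⟩ := Filter.eventually_atTop.1
    ((tendsto_natCast_atTop_atTop (R := ℝ)).eventually h1)
  exact ⟨n0, hn0⟩

theorem E2_one (K B cF : ℕ) (θ G : ℝ) (N : ℕ) (w : Par K) (H : Finset ℕ) (p1 : ℕ)
    (hR : Reg B cF θ G w H N p1) (h : ℕ) (hh : h ∈ H) (hN : 1000 ≤ N) (hhN : 100 * h ≤ N)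
    (r : ℕ) (hr : r.Prime ∨ ∀ p ∈ w.P, r.Coprime p) (hr1 : 1 ≤ r) :
    ∑ p ∈ (Sh N h).filter (fun p => r ∣ Nat.dist (N + h) p), wh w H N p1 h p ≤
      Real.log N * (Real.log N ^ B * (N / r) / Real.log N ^ 20 + (N : ℝ) ^ (1 / 20 : ℝ)) := by
  have hL : 0 ≤ Real.log N := Real.log_natCast_nonneg _
  have key : ∀ p ∈ (Sh N h).filter (fun p => r ∣ Nat.dist (N + h) p),
      (p - h ∈ (Ioc (Ya N) (Yb N)).filter (fun t => t ≡ N [MOD r]) ∧ h < p) ∧
      wh w H N p1 h p ≤ Real.log N * FF w H (some h) (p - h) := by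
    intro p hp
    unfold Sh at hp
    rw [mem_filter, Pool.Agent.Lib.H59C.mem_Sq] at hp
    obtain ⟨⟨⟨h1, h2⟩, h3⟩, h4⟩ := hp
    have h5 : Yb N < N := by unfold Yb; omega
    have h6 : Yb N + h ≤ N := by unfold Yb; omega
    refine ⟨⟨?_, by omega⟩, ?_⟩
    · rw [mem_filter, mem_Ioc]
      refine ⟨⟨by omega, by omega⟩, ?_⟩
      rw [Nat.modEq_iff_dvd' (by omega)]
      have h7 : Nat.dist (N + h) p = N - (p - h) := by
        unfold Nat.dist
        omega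
      rw [h7] at h4
      exact h4
    · unfold wh
      have h7 : Pool.Agent.Lib.H59C.lg p ≤ Real.log N := by
        unfold Pool.Agent.Lib.H59C.lg
        apply Real.log_le_log (by exact_mod_cast h3.pos)
        exact_mod_cast (by omega : p ≤ N)
      exact mul_le_mul h7 (E2_Fs w H N p1 (some h) (p - h)).2 (E2_Fs w H N p1 (some h) (p - h)).1 hL
  have hinj : Set.InjOn (fun p => p - h) ((Sh N h).filter (fun p => r ∣ Nat.dist (N + h) p)) := by
    intro p hp p' hp' heq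
    have h1 := (key p hp).1.2
    have h2 := (key p' hp').1.2
    simp only at heq
    omega
  calc ∑ p ∈ (Sh N h).filter (fun p => r ∣ Nat.dist (N + h) p), wh w H N p1 h p
      ≤ ∑ p ∈ (Sh N h).filter (fun p => r ∣ Nat.dist (N + h) p),
          Real.log N * FF w H (some h) (p - h) := sum_le_sum fun p hp => (key p hp).2
    _ = ∑ t ∈ ((Sh N h).filter (fun p => r ∣ Nat.dist (N + h) p)).image (fun p => p - h),
          Real.log N * FF w H (some h) t := by rw [sum_image hinj]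
    _ ≤ ∑ t ∈ (Ioc (Ya N) (Yb N)).filter (fun t => t ≡ N [MOD r]),
          Real.log N * FF w H (some h) t := by
        apply sum_le_sum_of_subset_of_nonneg
        · intro t ht
          rw [mem_image] at ht
          obtain ⟨p, hp, rfl⟩ := ht
          exact (key p hp).1.1
        · intro t _ _
          exact mul_nonneg hL (E2_FF w H _ t)
    _ = Real.log N * ∑ t ∈ (Ioc (Ya N) (Yb N)).filter (fun t => t ≡ N [MOD r]),
          FF w H (some h) t := by rw [mul_sum]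
    _ ≤ _ := mul_le_mul_of_nonneg_left (hR.cls h hh r N hr hr1) hL

theorem E2_h100 (K B cF : ℕ) (θ G : ℝ) (N : ℕ) (w : Par K) (H : Finset ℕ) (p1 : ℕ)
    (hR : Reg B cF θ G w H N p1) (h : ℕ) (hh : h ∈ H) (hl : 100 * (Real.log N ^ B + 1) ≤ (N : ℝ))
    (hL : 0 ≤ Real.log N) : 100 * h ≤ N := by
  have h1 : (w.W : ℝ) ≤ Real.log N ^ B + 1 := by
    rw [hR.Wdef]
    exact (Nat.ceil_lt_add_one (by positivity)).le
  have h2 : (h : ℝ) ≤ w.W := by exact_mod_cast hR.HW h hh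
  have h3 : (100 * h : ℝ) ≤ N := by linarith
  exact_mod_cast h3

/-- Proof. `lg p ≤ log N`, `Fs ≤ FF`, `t = p - h ∈ (Ya, Yb]`, `q ∣ Nat.dist (N + h) p = N - t` iff `t ≡ N [MOD q]`. `Reg.cls` with `r = q` (a prime `> W ≥ L^B`):
the sum over one `q` is at most `L (N/L^20 + N^(1/20))`; `#Bd ≤ L^2` (`bd_card`). -/
theorem E2_up (K B cF : ℕ) (θ G : ℝ) (hK : 1 ≤ K) (hB : 3 ≤ B) : ∃ n0 : ℕ, ∀ N : ℕ, n0 ≤ N →
    ∀ (w : Par K) (H : Finset ℕ) (p1 : ℕ), Reg B cF θ G w H N p1 → ∀ h ∈ H,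
    E2s w H N p1 h ≤ N / Real.log N ^ 9 := by
  obtain ⟨n1, hn1⟩ := s0_large B (1 / 2) (by norm_num)
  obtain ⟨n2, hn2⟩ := bd_card K
  obtain ⟨n3, hn3⟩ := E2_ev 12 (19 / 20) 2 (by norm_num) (by norm_num)
  refine ⟨max n1 (max n2 n3), fun N hN w H p1 hR h hh => ?_⟩
  have hN1 : n1 ≤ N := le_trans (le_max_left _ _) hN
  have hN2 : n2 ≤ N := le_trans (le_trans (le_max_left _ _) (le_max_right _ _)) hN
  have hN3 : n3 ≤ N := le_trans (le_trans (le_max_right _ _) (le_max_right _ _)) hN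
  obtain ⟨g1, g2, g3, g4⟩ := hn1 N hN1
  have hNr : (1000 : ℝ) ≤ N := by exact_mod_cast g1
  have hL2 : 2 ≤ Real.log N := by linarith
  have hL0 : 0 < Real.log N := by linarith
  have hhN := E2_h100 K B cF θ G N w H p1 hR h hh g4 hL0.le
  have hH : ∀ h' ∈ H, h' ≤ N := by
    intro h' hh'
    have := E2_h100 K B cF θ G N w H p1 hR h' hh' g4 hL0.le
    omega
  have hcard := hn2 N hN2 w.W H hR.cardH hH
  have hev := hn3 N hN3
  have hpw : 0 ≤ (N : ℝ) ^ (1 / 20 : ℝ) := Real.rpow_nonneg (by linarith) _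
  unfold E2s
  have hb : ∀ q ∈ Bd N w.W H, ∑ p ∈ (Sh N h).filter (fun p => q ∣ Nat.dist (N + h) p),
      wh w H N p1 h p ≤ Real.log N * (N / Real.log N ^ 20 + (N : ℝ) ^ (1 / 20 : ℝ)) := by
    intro q hq
    unfold Bd at hq
    rw [mem_filter, mem_Ioc] at hq
    obtain ⟨⟨hq1, hq2⟩, hq3, _⟩ := hq
    refine le_trans (E2_one K B cF θ G N w H p1 hR h hh g1 hhN q (Or.inl hq3) hq3.one_lt.le) ?_
    apply mul_le_mul_of_nonneg_left _ hL0.le
    have hq0 : (0 : ℝ) < q := by exact_mod_cast hq3.pos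
    have h1 : Real.log N ^ B ≤ q := by
      have h2 : Real.log N ^ B ≤ w.W := by
        rw [hR.Wdef]
        exact Nat.le_ceil _
      have h3 : (w.W : ℝ) ≤ q := by exact_mod_cast hq1.le
      linarith
    have h2 : Real.log N ^ B * (N / q) ≤ N := by
      rw [mul_div_assoc', div_le_iff₀ hq0, mul_comm]
      exact mul_le_mul_of_nonneg_left h1 (by linarith)
    have h3 : Real.log N ^ B * (N / q) / Real.log N ^ 20 ≤ N / Real.log N ^ 20 :=
      div_le_div_of_nonneg_right h2 (by positivity)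
    linarith
  have hs := Finset.sum_le_card_nsmul _ _ _ hb
  rw [nsmul_eq_mul] at hs
  refine le_trans hs ?_
  refine le_trans (mul_le_mul_of_nonneg_right hcard (by positivity)) ?_
  have e1 : Real.log N ^ 2 * (Real.log N * (N / Real.log N ^ 20 + (N : ℝ) ^ (1 / 20 : ℝ))) =
      (N : ℝ) / Real.log N ^ 9 * (1 / Real.log N ^ 8) + Real.log N ^ 3 * (N : ℝ) ^ (1 / 20 : ℝ) := by
    field_simp
  have e2 : (1 : ℝ) / Real.log N ^ 8 ≤ 1 / 2 := by
    apply one_div_le_one_div_of_le (by norm_num)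
    calc (2 : ℝ) ≤ 2 ^ 8 := by norm_num
      _ ≤ Real.log N ^ 8 := pow_le_pow_left₀ (by norm_num) hL2 8
  have e3 : Real.log N ^ 3 * (N : ℝ) ^ (1 / 20 : ℝ) ≤ (N : ℝ) / Real.log N ^ 9 * (1 / 2) := by
    rw [div_mul_eq_mul_div, le_div_iff₀ (by positivity)]
    have e4 : (N : ℝ) ^ (19 / 20 : ℝ) * (N : ℝ) ^ (1 / 20 : ℝ) = N := by
      rw [← Real.rpow_add (by linarith)]
      norm_num
    calc Real.log N ^ 3 * (N : ℝ) ^ (1 / 20 : ℝ) * Real.log N ^ 9
        = 2 * Real.log N ^ 12 * (N : ℝ) ^ (1 / 20 : ℝ) * (1 / 2) := by ring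
      _ ≤ (N : ℝ) ^ (19 / 20 : ℝ) * (N : ℝ) ^ (1 / 20 : ℝ) * (1 / 2) := by
          apply mul_le_mul_of_nonneg_right _ (by norm_num)
          exact mul_le_mul_of_nonneg_right hev hpw
      _ = N * (1 / 2) := by rw [e4]
  rw [e1]
  have e5 : (N : ℝ) / Real.log N ^ 9 * (1 / Real.log N ^ 8) ≤ (N : ℝ) / Real.log N ^ 9 * (1 / 2) :=
    mul_le_mul_of_nonneg_left e2 (by positivity)
  linarith

/-- Proof. Union bound over the primes `q ∈ [zz N, √(N)]` (`q^2 ∣ N - t > 0`); `Reg.cls` with `r = q^2` (prime to all `p ∈ w.P`, `p ≤ N^(1/100) < q`):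
at most `L (L^B N/q^2 + N^(1/20))` each; `∑_{q ≥ z} 1/q^2 ≤ 2/z`, `√N N^(1/20) ≤ N^(3/5)`; `N^(7/8) L^(B+1)` is small. -/
theorem E3_up (K B cF : ℕ) (θ G : ℝ) (hK : 1 ≤ K) (hB : 3 ≤ B) : ∃ n0 : ℕ, ∀ N : ℕ, n0 ≤ N →
    ∀ (w : Par K) (H : Finset ℕ) (p1 : ℕ), Reg B cF θ G w H N p1 → ∀ h ∈ H,
    E3s w H N p1 h ≤ N / Real.log N ^ 9 := by
  obtain ⟨n1, hn1⟩ := s0_large B (1 / 2) (by norm_num)
  obtain ⟨n2, hn2⟩ := E2_ev (B + 10) (1 / 8) 4 (by norm_num) (by norm_num)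
  obtain ⟨n3, hn3⟩ := E2_ev 10 (9 / 20) 2 (by norm_num) (by norm_num)
  refine ⟨max n1 (max n2 n3), fun N hN w H p1 hR h hh => ?_⟩
  have hN1 : n1 ≤ N := le_trans (le_max_left _ _) hN
  have hN2 : n2 ≤ N := le_trans (le_trans (le_max_left _ _) (le_max_right _ _)) hN
  have hN3 : n3 ≤ N := le_trans (le_trans (le_max_right _ _) (le_max_right _ _)) hN
  obtain ⟨g1, g2, g3, g4⟩ := hn1 N hN1
  have hNr : (1000 : ℝ) ≤ N := by exact_mod_cast g1
  have hL2 : 2 ≤ Real.log N := by linarith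
  have hL0 : 0 < Real.log N := by linarith
  have hhN := E2_h100 K B cF θ G N w H p1 hR h hh g4 hL0.le
  have hev2 := hn2 N hN2
  have hev3 := hn3 N hN3
  have hpw : 0 ≤ (N : ℝ) ^ (1 / 20 : ℝ) := Real.rpow_nonneg (by linarith) _
  have hz1 : 1 ≤ zz N := by
    unfold zz
    exact Real.one_le_rpow (by linarith) (by norm_num)
  have hw0 : ∀ p, 0 ≤ wh w H N p1 h p := by
    intro p
    unfold wh
    refine mul_nonneg ?_ (E2_Fs w H N p1 (some h) (p - h)).1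
    unfold Pool.Agent.Lib.H59C.lg
    exact Real.log_natCast_nonneg _
  obtain ⟨k, hk⟩ : ∃ k, ⌈zz N⌉₊ = k + 1 := by
    have h1 : 0 < ⌈zz N⌉₊ := Nat.ceil_pos.2 (by linarith)
    exact ⟨⌈zz N⌉₊ - 1, by omega⟩
  obtain ⟨Qs, hQs⟩ : ∃ Qs : Finset ℕ, Qs = (Ioo k (Nat.sqrt N + 1)).filter Nat.Prime := ⟨_, rfl⟩
  have hQ : ∀ q ∈ Qs, q.Prime ∧ zz N ≤ q := by
    intro q hq
    rw [hQs, mem_filter, mem_Ioo] at hq
    refine ⟨hq.2, ?_⟩
    have h1 : ⌈zz N⌉₊ ≤ q := by omega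
    exact Nat.ceil_le.1 h1
  have hstep : E3s w H N p1 h ≤ ∑ q ∈ Qs, ∑ p ∈ (Sh N h).filter
      (fun p => q ^ 2 ∣ Nat.dist (N + h) p), wh w H N p1 h p := by
    unfold E3s
    rw [sum_filter]
    have h1 : ∀ q, ∑ p ∈ (Sh N h).filter (fun p => q ^ 2 ∣ Nat.dist (N + h) p),
        wh w H N p1 h p = ∑ p ∈ Sh N h, if q ^ 2 ∣ Nat.dist (N + h) p then wh w H N p1 h p else 0 :=
      fun q => sum_filter _ _
    rw [sum_congr rfl fun q _ => h1 q, sum_comm]
    apply sum_le_sum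
    intro p hp
    have h0 : ∀ q ∈ Qs, 0 ≤ (if q ^ 2 ∣ Nat.dist (N + h) p then wh w H N p1 h p else 0) := by
      intro q _
      split_ifs
      · exact hw0 p
      · exact le_refl _
    split_ifs with hc
    · obtain ⟨q, hq1, hq2, hq3⟩ := hc
      have hpp := hp
      unfold Sh at hpp
      rw [Pool.Agent.Lib.H59C.mem_Sq] at hpp
      have h5 : Yb N < N := by unfold Yb; omega
      have hd0 : 0 < Nat.dist (N + h) p := by
        unfold Nat.dist
        omega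
      have hdN : Nat.dist (N + h) p ≤ N := by
        unfold Nat.dist
        omega
      have hqN : q ^ 2 ≤ N := (Nat.le_of_dvd hd0 hq3).trans hdN
      have hqm : q ∈ Qs := by
        rw [hQs, mem_filter, mem_Ioo]
        refine ⟨⟨?_, ?_⟩, hq1⟩
        · have h1 : ⌈zz N⌉₊ ≤ q := Nat.ceil_le.2 hq2
          omega
        · have h1 : q ≤ Nat.sqrt N := Nat.le_sqrt'.2 hqN
          omega
      have h2 := Finset.single_le_sum h0 hqm
      rw [if_pos hq3] at h2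
      exact h2
    · exact sum_nonneg h0
  refine le_trans hstep ?_
  have hb : ∀ q ∈ Qs, ∑ p ∈ (Sh N h).filter (fun p => q ^ 2 ∣ Nat.dist (N + h) p),
      wh w H N p1 h p ≤ Real.log N ^ (B + 1) * N * ((q : ℝ) ^ 2)⁻¹ +
        Real.log N * (N : ℝ) ^ (1 / 20 : ℝ) := by
    intro q hq
    obtain ⟨hq1, hq2⟩ := hQ q hq
    have hcop : ∀ p ∈ w.P, (q ^ 2).Coprime p := by
      intro p hp
      have hpp := w.prime p hp
      apply Nat.Coprime.pow_left 2
      rw [Nat.coprime_primes hq1 hpp]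
      intro he
      have h1 := hR.PN p hp
      rw [← he] at h1
      have h2 : (N : ℝ) ^ (1 / 100 : ℝ) < (N : ℝ) ^ (1 / 8 : ℝ) :=
        Real.rpow_lt_rpow_of_exponent_lt (by linarith) (by norm_num)
      unfold zz at hq2
      linarith
    have hq0 : (0 : ℝ) < q := by exact_mod_cast hq1.pos
    refine le_trans (E2_one K B cF θ G N w H p1 hR h hh g1 hhN (q ^ 2) (Or.inr hcop)
      (Nat.one_le_pow _ _ hq1.pos)) ?_
    rw [mul_add]
    have h1 : (1 : ℝ) ≤ Real.log N ^ 20 := one_le_pow₀ (by linarith)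
    have h2 : Real.log N ^ B * ((N : ℝ) / ((q ^ 2 : ℕ) : ℝ)) / Real.log N ^ 20 ≤
        Real.log N ^ B * ((N : ℝ) / ((q ^ 2 : ℕ) : ℝ)) :=
      div_le_self (by positivity) h1
    have h3 : Real.log N * (Real.log N ^ B * ((N : ℝ) / ((q ^ 2 : ℕ) : ℝ))) =
        Real.log N ^ (B + 1) * N * ((q : ℝ) ^ 2)⁻¹ := by
      push_cast
      rw [div_eq_mul_inv]
      ring
    have h4 := mul_le_mul_of_nonneg_left h2 hL0.le
    rw [h3] at h4
    linarith
  refine le_trans (sum_le_sum hb) ?_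
  rw [sum_add_distrib, ← mul_sum, sum_const, nsmul_eq_mul]
  have s1 : ∑ q ∈ Qs, ((q : ℝ) ^ 2)⁻¹ ≤ 2 / zz N := by
    have h1 : ∑ q ∈ Qs, ((q : ℝ) ^ 2)⁻¹ ≤ ∑ q ∈ Ioo k (Nat.sqrt N + 1), ((q : ℝ) ^ 2)⁻¹ := by
      apply sum_le_sum_of_subset_of_nonneg
      · rw [hQs]
        exact filter_subset _ _
      · intro q _ _
        positivity
    refine le_trans h1 (le_trans (sum_Ioo_inv_sq_le k _) ?_)
    apply div_le_div_of_nonneg_left (by norm_num) (by linarith)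
    have h2 : (⌈zz N⌉₊ : ℝ) = (k : ℝ) + 1 := by
      rw [hk]
      push_cast
      rfl
    rw [← h2]
    exact Nat.le_ceil _
  have s2 : (Qs.card : ℝ) ≤ (N : ℝ) ^ (1 / 2 : ℝ) := by
    have h1 : Qs.card ≤ Nat.sqrt N := by
      rw [hQs]
      refine le_trans (card_filter_le _ _) ?_
      rw [Nat.card_Ioo]
      omega
    have h2 : ((Nat.sqrt N : ℕ) : ℝ) ≤ Real.sqrt N := Real.nat_sqrt_le_real_sqrt
    have h3 : (Qs.card : ℝ) ≤ (Nat.sqrt N : ℕ) := by exact_mod_cast h1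
    rw [← Real.sqrt_eq_rpow]
    linarith
  have t1 : Real.log N ^ (B + 1) * N * ∑ q ∈ Qs, ((q : ℝ) ^ 2)⁻¹ ≤
      (N : ℝ) / Real.log N ^ 9 * (1 / 2) := by
    have hz0 : 0 < zz N := by linarith
    calc Real.log N ^ (B + 1) * N * ∑ q ∈ Qs, ((q : ℝ) ^ 2)⁻¹
        ≤ Real.log N ^ (B + 1) * N * (2 / zz N) := mul_le_mul_of_nonneg_left s1 (by positivity)
      _ ≤ (N : ℝ) / Real.log N ^ 9 * (1 / 2) := by
          rw [mul_div_assoc', div_mul_eq_mul_div, div_le_div_iff₀ hz0 (by positivity)]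
          calc Real.log N ^ (B + 1) * N * 2 * Real.log N ^ 9
              = 4 * Real.log N ^ (B + 10) * (N * (1 / 2)) := by ring
            _ ≤ (N : ℝ) ^ (1 / 8 : ℝ) * (N * (1 / 2)) :=
                mul_le_mul_of_nonneg_right hev2 (by positivity)
            _ = (N : ℝ) * (1 / 2) * zz N := by
                unfold zz
                ring
  have t2 : (Qs.card : ℝ) * (Real.log N * (N : ℝ) ^ (1 / 20 : ℝ)) ≤
      (N : ℝ) / Real.log N ^ 9 * (1 / 2) := by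
    refine le_trans (mul_le_mul_of_nonneg_right s2 (by positivity)) ?_
    rw [div_mul_eq_mul_div, le_div_iff₀ (by positivity)]
    have e4 : (N : ℝ) ^ (1 / 2 : ℝ) * (N : ℝ) ^ (1 / 20 : ℝ) * (N : ℝ) ^ (9 / 20 : ℝ) = N := by
      rw [← Real.rpow_add (by linarith), ← Real.rpow_add (by linarith)]
      norm_num
    calc (N : ℝ) ^ (1 / 2 : ℝ) * (Real.log N * (N : ℝ) ^ (1 / 20 : ℝ)) * Real.log N ^ 9
        = (N : ℝ) ^ (1 / 2 : ℝ) * (N : ℝ) ^ (1 / 20 : ℝ) * (2 * Real.log N ^ 10) * (1 / 2) := by ring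
      _ ≤ (N : ℝ) ^ (1 / 2 : ℝ) * (N : ℝ) ^ (1 / 20 : ℝ) * (N : ℝ) ^ (9 / 20 : ℝ) * (1 / 2) := by
          apply mul_le_mul_of_nonneg_right _ (by norm_num)
          exact mul_le_mul_of_nonneg_left hev3 (by positivity)
      _ = N * (1 / 2) := by rw [e4]
  linarith

end Pool.Agent.Lib.H57C
end

-- from Lib.H57C.S3
section

/-!
# Chunk S3: the third sum (switching)
-/

open Finset

namespace Pool.Agent.Lib.H57C

open Pool.Agent.Lib.H57M
open Pool.Agent.Lib.H59C (AA zz)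

/-- Proof. As `S3_upper` (`H59C/CS3.lean`): `lg p ≤ log N` (`p ≤ Yb N + h ≤ N`), `cover'` with `N' = N + h` and `Φ p = Fs (some h) (p - h) ≥ 0`, `box_sieve'` for every relevant box
(`rel_par`: the conditions `N^(1/4) ≤ M, u, v`; `al` as `α`), `1/log (lv j) ≤ 4/log N`, `count_boxes` and `triple_sum`, `XX_bounds`, `win_h`; the remainder is
`(number of boxes) 4 N/L^10 ≤ (ε/2) Xh Vz` by `main_low`. -/
theorem S3_up (ε : ℝ) (hε : 0 < ε) : ∃ θ0 : ℝ, 0 < θ0 ∧ ∀ θ : ℝ, 0 < θ → θ ≤ θ0 →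
    ∀ (K B cF : ℕ) (G : ℝ), 1 ≤ K → 3 ≤ B → ∃ n0 : ℕ, ∀ N : ℕ, n0 ≤ N →
    ∀ (w : Par K) (H : Finset ℕ) (p1 : ℕ), Reg B cF θ G w H N p1 → ∀ h ∈ H,
    S3s w H N p1 h ≤ Xh w H N p1 h * Vz N w.W H * (AA / 4 * (3 / 8) + ε) := by
  classical
  have hAA : 0 < AA := H59C.AA_pos
  obtain ⟨θ0, hθ0, hbox0⟩ := box_sieve' ε hε
  refine ⟨θ0, hθ0, fun θ hθ hθ1 K B cF G hK hB => ?_⟩
  obtain ⟨n1, hbox⟩ := hbox0 θ hθ hθ1 K B cF G hK hB
  obtain ⟨δ, hδ, hδ1, n2, hcount⟩ := H59C.count_boxes (1 / 1000) (by norm_num)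
  obtain ⟨n3, hcov⟩ := cover' δ hδ hδ1
  obtain ⟨n4, hpar⟩ := H59C.rel_par δ hδ hδ1
  obtain ⟨n5, htri⟩ := H59C.triple_sum
  obtain ⟨n6, hXXb⟩ := H59C.XX_bounds (1 / 1000) (by norm_num)
  obtain ⟨n7, hmain⟩ := main_low K B cF hK θ G
  obtain ⟨n8, hn8⟩ := s0_large B 1 one_pos
  obtain ⟨n9, hn9⟩ := H59C.cdl_log (max 1 (200 / (δ ^ 2 * ε)))
  refine ⟨n1 + n2 + n3 + n4 + n5 + n6 + n7 + n8 + n9 + 3, fun n hn w H p1 hR h hh => ?_⟩
  obtain ⟨g1, hL1, -, g4⟩ := hn8 n (by omega)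
  have hN : (3 : ℝ) ≤ n := by exact_mod_cast (by omega : 3 ≤ n)
  have hL : 0 < Real.log n := by linarith
  have hh100 : 100 * h ≤ n := by
    have h1 : (w.W : ℝ) ≤ Real.log n ^ B + 1 := by
      rw [hR.Wdef]
      exact (Nat.ceil_lt_add_one (by positivity)).le
    have h2 : (h : ℝ) ≤ w.W := by exact_mod_cast hR.HW h hh
    have h3 : (100 * h : ℝ) ≤ n := by linarith
    exact_mod_cast h3
  obtain ⟨hW, hlt⟩ := win_h n h g1 hh100 (hR.even h hh)
  have hLn := hn9 n (by omega)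
  have hL9 : 200 / (δ ^ 2 * ε) ≤ Real.log n := le_trans (le_max_right _ _) hLn
  obtain ⟨Φ, hΦ⟩ : ∃ Φ : ℕ → ℝ, Φ = fun p => Fs w H n p1 (some h) (p - h) := ⟨_, rfl⟩
  have hΦ0 : ∀ p, 0 ≤ Φ p := fun p => by
    rw [hΦ]
    exact s2_Fs w H n p1 _ _
  have hcount := hcount n (by omega) (n + h) (Ya n + h) (Yb n + h) hW
  have hcov := hcov n (by omega) (n + h) (Ya n + h) (Yb n + h) hW hlt Φ hΦ0
  obtain ⟨hp1', hp2, hp3⟩ := hpar n (by omega) (n + h) (Ya n + h) (Yb n + h) hW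
  have htri := htri n (by omega)
  obtain ⟨hX1, hX2⟩ := hXXb n (by omega) (n + h) (Ya n + h) (Yb n + h) hW
  obtain ⟨hXV, hXh0, hXX, -⟩ := hmain n (by omega) w H p1 hR h hh
  obtain ⟨X, hX⟩ : ∃ X : ℝ, X = H59C.XX (Ya n + h) (Yb n + h) := ⟨_, rfl⟩
  obtain ⟨A, hA⟩ : ∃ A : ℝ, A = AE w.P H (some h) (FC w H) * Vb n w.W p1 H := ⟨_, rfl⟩
  obtain ⟨V, hV⟩ : ∃ V : ℝ, V = Vz n w.W H := ⟨_, rfl⟩
  have hXh : Xh w H n p1 h = X * A := by
    rw [hX, hA]
    rfl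
  rw [hXh, ← hV] at hXV
  rw [hXh] at hXh0
  rw [hXh, ← hV]
  rw [← hX] at hXX hX1 hX2
  have hX0 : 0 < X := by
    refine lt_of_lt_of_le ?_ hXX
    positivity
  have hA0 : 0 ≤ A := by
    by_contra hc
    push Not at hc
    have := mul_neg_of_pos_of_neg hX0 hc
    linarith
  have hV0 : 0 ≤ V := by
    by_contra hc
    push Not at hc
    have h1 : (X * A) * V ≤ 0 := mul_nonpos_of_nonneg_of_nonpos hXh0 hc.le
    have h2 : 0 < (n : ℝ) / Real.log n ^ 3 := by positivity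
    linarith
  have hyy : (0 : ℝ) ≤ ((Yb n + h : ℕ) : ℝ) - ((Ya n + h : ℕ) : ℝ) := by
    have : ((Ya n + h : ℕ) : ℝ) ≤ ((Yb n + h : ℕ) : ℝ) := by exact_mod_cast hW.lt.le
    linarith
  -- weights
  have hstep1 : S3s w H n p1 h ≤ Real.log n *
      ∑ p ∈ (H59C.Sq (Ya n + h) (Yb n + h)).filter (fun p => H59C.Tri n (Nat.dist (n + h) p)), Φ p := by
    unfold S3s Sh
    rw [mul_sum]
    apply sum_le_sum
    intro p hp
    rw [mem_filter, H59C.mem_Sq] at hp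
    unfold wh
    rw [hΦ]
    refine mul_le_mul_of_nonneg_right ?_ (s2_Fs w H n p1 _ _)
    unfold H59C.lg
    apply Real.log_le_log
    · exact_mod_cast hp.1.2.pos
    · exact_mod_cast le_trans hp.1.1.2 hW.le
  -- the logarithms of the box ends
  have hlv : ∀ b ∈ H59C.Rel n (n + h) (Ya n + h) (Yb n + h) δ, 0 ≤ 1 / Real.log (H59C.lv δ b.2) ∧
      1 / Real.log (H59C.lv δ b.2) ≤ 4 / Real.log n := by
    intro b hb
    have h1 := (hp1' b hb).2.2.1
    have h2 : 1 / 4 * Real.log n ≤ Real.log (H59C.lv δ b.2) := by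
      have h3 := Real.log_le_log (by positivity) h1
      rwa [Real.log_rpow (by linarith)] at h3
    have h4 : 0 < Real.log (H59C.lv δ b.2) := by linarith
    refine ⟨by positivity, ?_⟩
    rw [div_le_div_iff₀ h4 hL]
    linarith
  -- one box
  have hone : ∀ b ∈ H59C.Rel n (n + h) (Ya n + h) (Yb n + h) δ, 1 / Real.log (H59C.lv δ b.2) *
      ∑ x ∈ (H59C.BX (H59C.lv δ (b.1 + 1)) (H59C.lv δ b.2) (H59C.lv δ (b.2 + 1))).filter
        (fun x => x.1 * x.2 < n + h ∧ (n + h - x.1 * x.2).Prime ∧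
            (n : ℝ) ^ (1 / 6 : ℝ) ≤ (n + h - x.1 * x.2 : ℕ)),
          H59C.wB (H59C.al n δ b) x * Φ (n + h - x.1 * x.2) ≤
      A * V * (AA / 4 + ε) * (1 / Real.log (H59C.lv δ b.2) *
        H59C.XB (H59C.lv δ (b.1 + 1)) (H59C.lv δ b.2) (H59C.lv δ (b.2 + 1)) (H59C.al n δ b)) +
      4 / Real.log n * (n / Real.log n ^ 10) := by
    intro b hb
    obtain ⟨h1, h2, h3, h4, h5⟩ := hp1' b hb
    have h6 := hbox n (by omega) w H p1 hR h hh (H59C.lv δ (b.1 + 1)) (H59C.lv δ b.2)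
      (H59C.lv δ (b.2 + 1)) (H59C.al n δ b) (fun m => ⟨(hp3 b m).1, (hp3 b m).2.1⟩)
      (fun m => (hp3 b m).2.2) h1 h3 h4 h5
    rw [← hV, ← hA] at h6
    obtain ⟨h7, h8⟩ := hlv b hb
    have h9 := mul_le_mul_of_nonneg_left h6 h7
    rw [hΦ]
    refine h9.trans ?_
    rw [mul_add]
    apply add_le_add
    · apply le_of_eq
      ring
    · exact mul_le_mul_of_nonneg_right h8 (by positivity)
  -- sum over the boxes
  obtain ⟨SB, hSB⟩ : ∃ SB : ℝ, SB = ∑ b ∈ H59C.Rel n (n + h) (Ya n + h) (Yb n + h) δ,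
      1 / Real.log (H59C.lv δ b.2) *
        H59C.XB (H59C.lv δ (b.1 + 1)) (H59C.lv δ b.2) (H59C.lv δ (b.2 + 1)) (H59C.al n δ b) := ⟨_, rfl⟩
  obtain ⟨R, hRr⟩ : ∃ R : ℝ, R = ((H59C.Rel n (n + h) (Ya n + h) (Yb n + h) δ).card : ℝ) := ⟨_, rfl⟩
  have hsum : ∑ p ∈ (H59C.Sq (Ya n + h) (Yb n + h)).filter
        (fun p => H59C.Tri n (Nat.dist (n + h) p)), Φ p ≤
      A * V * (AA / 4 + ε) * SB + R * (4 / Real.log n * (n / Real.log n ^ 10)) := by
    refine hcov.trans ((sum_le_sum hone).trans (le_of_eq ?_))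
    rw [sum_add_distrib, ← mul_sum, sum_const, nsmul_eq_mul, hSB, hRr]
  rw [← hSB] at hcount
  rw [← hRr] at hp2
  have hmainb : Real.log n * (A * V * (AA / 4 + ε) * SB) ≤
      X * A * V * (AA / 4 * (3 / 8) + 3 / 8 * ε) := by
    have h1 : Real.log n * SB ≤ 3 / 8 * X := by
      have h2 := mul_le_mul_of_nonneg_left hcount hL.le
      refine h2.trans ?_
      calc Real.log n * ((1 + 1 / 1000) * (((Yb n + h : ℕ) : ℝ) - ((Ya n + h : ℕ) : ℝ)) *
            ∑ q1 ∈ H59C.PR (zz n) (H59C.yy n),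
            ∑ q2 ∈ (H59C.PR (H59C.yy n) n).filter (fun q2 => q1 * q2 ^ 2 ≤ 3 * n),
              1 / ((q1 : ℝ) * q2 * Real.log (n / (20 * q1 * q2))))
          = (1 + 1 / 1000) * (((Yb n + h : ℕ) : ℝ) - ((Ya n + h : ℕ) : ℝ)) *
            (Real.log n * ∑ q1 ∈ H59C.PR (zz n) (H59C.yy n),
            ∑ q2 ∈ (H59C.PR (H59C.yy n) n).filter (fun q2 => q1 * q2 ^ 2 ≤ 3 * n),
              1 / ((q1 : ℝ) * q2 * Real.log (n / (20 * q1 * q2)))) := by ring
        _ ≤ (1 + 1 / 1000) * (((Yb n + h : ℕ) : ℝ) - ((Ya n + h : ℕ) : ℝ)) * (373 / 1000) := by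
            apply mul_le_mul_of_nonneg_left htri
            positivity
        _ ≤ 3 / 8 * X := by linarith
    calc Real.log n * (A * V * (AA / 4 + ε) * SB)
        = A * V * (AA / 4 + ε) * (Real.log n * SB) := by ring
      _ ≤ A * V * (AA / 4 + ε) * (3 / 8 * X) := by
          apply mul_le_mul_of_nonneg_left h1
          positivity
      _ = X * A * V * (AA / 4 * (3 / 8) + 3 / 8 * ε) := by ring
  have hrest : Real.log n * (R * (4 / Real.log n * (n / Real.log n ^ 10))) ≤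
      ε / 2 * (X * A * V) := by
    have h1 : Real.log n * (R * (4 / Real.log n * (n / Real.log n ^ 10))) =
        R * (4 * (n / Real.log n ^ 10)) := by
      field_simp
    rw [h1]
    calc R * (4 * (n / Real.log n ^ 10))
        ≤ (25 * Real.log n ^ 2 / δ ^ 2) * (4 * (n / Real.log n ^ 10)) := by
          apply mul_le_mul_of_nonneg_right hp2
          positivity
      _ = 100 / δ ^ 2 * (1 / Real.log n ^ 5) * (n / Real.log n ^ 3) := by
          field_simp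
          ring
      _ ≤ ε / 2 * (n / Real.log n ^ 3) := by
          apply mul_le_mul_of_nonneg_right _ (by positivity)
          rw [mul_one_div, div_div, div_le_iff₀ (by positivity)]
          rw [div_le_iff₀ (by positivity)] at hL9
          have h2 : Real.log n ≤ Real.log n ^ 5 := le_self_pow₀ hL1 (by norm_num)
          have h3 : Real.log n * (δ ^ 2 * ε) ≤ Real.log n ^ 5 * (δ ^ 2 * ε) :=
            mul_le_mul_of_nonneg_right h2 (by positivity)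
          nlinarith
      _ ≤ ε / 2 * (X * A * V) := by
          apply mul_le_mul_of_nonneg_left hXV (by positivity)
  calc S3s w H n p1 h ≤ Real.log n * ∑ p ∈ (H59C.Sq (Ya n + h) (Yb n + h)).filter
        (fun p => H59C.Tri n (Nat.dist (n + h) p)), Φ p := hstep1
    _ ≤ Real.log n * (A * V * (AA / 4 + ε) * SB + R * (4 / Real.log n * (n / Real.log n ^ 10))) :=
        mul_le_mul_of_nonneg_left hsum hL.le
    _ ≤ X * A * V * (AA / 4 * (3 / 8) + 3 / 8 * ε) + ε / 2 * (X * A * V) := by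
        rw [mul_add]
        exact add_le_add hmainb hrest
    _ ≤ X * A * V * (AA / 4 * (3 / 8) + ε) := by
        have : 0 ≤ ε / 8 * (X * A * V) := by positivity
        linarith

end Pool.Agent.Lib.H57C
end
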