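import Pool.Agent.Lib.H1M.RV.M060
import Pool.Agent.Lib.H1M.RV.M067
import Pool.Agent.Lib.H1M.RV.M076
import Pool.Agent.Lib.H1M.RV.M078
import Pool.Agent.Lib.H1M.RV.M091
import Pool.Agent.Lib.H1M.RV.M093
import Pool.Agent.Lib.H1M.RV.M098

/-! Merged copies (to shorten the build) of Lib.H57C.FIN. -/

-- from Lib.H57C.FIN
section

/-!
# Chunk FIN: Chen's theorem with Maynard-Tao tuples
-/

open Finset

namespace Pool.Agent.Lib.H57C

open Pool.Agent.Lib.H57M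
open Pool.Agent.Lib.H59C (AA zz)

/-- The final inequality (pure algebra). -/
theorem fin_alg (κ A L n V Z S kk G g U T : ℝ) (hκ : 0 < κ) (hL : 1 ≤ L) (hL2 : 16 ≤ 3 * κ * L)
    (hL3 : 4 * g ≤ L) (hL4 : 2 ≤ L) (hn : 0 < n) (hV : 0 ≤ V) (hZ : 0 ≤ Z) (hg : 1 ≤ g) (hA : 0 < A)
    (hk : 1 ≤ kk)
    (hG : G = g * (A / 3 + 1) * (2000 / (9 * κ)))
    (hT : kk * (n / L ^ 4) + κ / 4 * S - (g - 1) * (2 * L) * U ≤ T)
    (hS : 9 / 2000 * (G * L) * (n * V * Z) ≤ S)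
    (hU : U ≤ n / 8 * (V * Z * (A / 3 + 1)) + n / L ^ 10) :
    n / L ^ 5 ≤ T := by
  have hL0 : 0 < L := by linarith
  have h1 : κ / 4 * (9 / 2000 * (G * L) * (n * V * Z)) =
      g * (2 * L) * (n / 8 * (V * Z * (A / 3 + 1))) := by
    rw [hG]
    field_simp
    ring
  have h2 : κ / 4 * (9 / 2000 * (G * L) * (n * V * Z)) ≤ κ / 4 * S :=
    mul_le_mul_of_nonneg_left hS (by linarith)
  have h3 : (g - 1) * (2 * L) * U ≤
      (g - 1) * (2 * L) * (n / 8 * (V * Z * (A / 3 + 1)) + n / L ^ 10) :=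
    mul_le_mul_of_nonneg_left hU (by
      have : 0 ≤ g - 1 := by linarith
      positivity)
  have h4 : (g - 1) * (2 * L) * (n / 8 * (V * Z * (A / 3 + 1)) + n / L ^ 10) ≤
      g * (2 * L) * (n / 8 * (V * Z * (A / 3 + 1)) + n / L ^ 10) := by
    have : 0 ≤ (2 * L) * (n / 8 * (V * Z * (A / 3 + 1)) + n / L ^ 10) := by positivity
    nlinarith
  have h5 : g * (2 * L) * (n / 8 * (V * Z * (A / 3 + 1)) + n / L ^ 10) =
      g * (2 * L) * (n / 8 * (V * Z * (A / 3 + 1))) + 2 * g * (n / L ^ 9) := by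
    field_simp
  have h6 : 2 * g * (n / L ^ 9) ≤ 1 / 2 * (n / L ^ 4) := by
    have h7 : 2 * g * (n / L ^ 9) = (2 * g / L ^ 5) * (n / L ^ 4) := by
      field_simp
    rw [h7]
    refine mul_le_mul_of_nonneg_right ?_ (by positivity)
    rw [div_le_iff₀ (by positivity)]
    have h8 : L ≤ L ^ 5 := le_self_pow₀ hL (by norm_num)
    linarith
  have h7 : n / L ^ 5 ≤ 1 / 2 * (n / L ^ 4) := by
    have h8 : n / L ^ 5 = 1 / L * (n / L ^ 4) := by
      field_simp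
    rw [h8]
    refine mul_le_mul_of_nonneg_right ?_ (by positivity)
    exact one_div_le_one_div_of_le (by norm_num) hL4
  have h8 : n / L ^ 4 ≤ kk * (n / L ^ 4) := le_mul_of_one_le_left (by positivity) hk
  linarith

/-- Lower bound for the weighted sum.

Proof. `κ = (AA/8)(2 log 3 - log 6 - 3/8) > 0` (`cw_log` in `H59C/CW.lean`, `AA_pos`); `S1_low (κ/8)`, `S2_up (κ/8)`, `S3_up (κ/8)` give `θ0`; `θ = min` of these and `1/100`. `C` from
`E1_up`; `K0 ≥ 8 C/κ`, so `E1s ≤ (κ/8) Xh Vz + N/L^9`. `E2_up`, `E3_up`. So for every `h ∈ H`: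
`S1 - S2/2 - S3/2 - E1 - E2 - E3 ≥ (κ/2) Xh Vz - 3 N/L^9 ≥ (κ/4) Xh Vz + N/L^4` for large `N` (`main_low`: `Xh Vz ≥ N/L^3`). And
`Xh ≥ (N/20) (36/100) (1 + n c)^2 (log W/4) Va` (`aes`, `vb_ge`), so the sum over the `K` elements of `H` is `≥ K (1 + n c)^2 log W (κ/4) (9/2000)/1 N Va Vz + N/L^4 ≥
(κ/4) (9/2000) G L N Va Vz + N/L^4` (`gain`). The negative part is at most `(g - 1) 2 L ((N/8) Va Vz (AA/3 + 1) + N/L^10)` (`Ns_up`). So `G = C' g` with a large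
constant `C'` (only depending on `AA`, `κ`) gives `Tt ≥ N/L^4 - 2 g N/L^9 ≥ N/L^5`. -/
theorem T_ge (g : ℕ) (hg : 1 ≤ g) : ∃ θ G : ℝ, 0 < θ ∧ θ ≤ 1 / 100 ∧ 0 < G ∧ ∃ K0 : ℕ,
    ∀ (K B cF : ℕ), 1 ≤ K → 3 ≤ B → ∃ n0 : ℕ, ∀ N : ℕ, n0 ≤ N →
    ∀ (w : Par K) (H : Finset ℕ) (p1 : ℕ), K0 ≤ p1 → Reg B cF θ G w H N p1 →
    N / Real.log N ^ 5 ≤ Tt w H N p1 g := by
  classical
  have hAA := H59C.AA_pos
  obtain ⟨κ, hκ⟩ : ∃ κ : ℝ, κ = AA / 8 * (2 * Real.log 3 - Real.log 6 - 3 / 8) := ⟨_, rfl⟩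
  have hκ0 : 0 < κ := by
    rw [hκ]
    have := H59C.cw_log
    exact mul_pos (by linarith) (by linarith)
  obtain ⟨t1, ht1, h1⟩ := S1_low (κ / 8) (by linarith)
  obtain ⟨t2, ht2, h2⟩ := S2_up (κ / 8) (by linarith)
  obtain ⟨t3, ht3, h3⟩ := S3_up (κ / 8) (by linarith)
  obtain ⟨C, hC, h4⟩ := E1_up
  obtain ⟨θ, hθ⟩ : ∃ θ : ℝ, θ = min (min t1 t2) (min t3 (1 / 100)) := ⟨_, rfl⟩
  have hθ0 : 0 < θ := by
    rw [hθ]
    exact lt_min (lt_min ht1 ht2) (lt_min ht3 (by norm_num))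
  have hθ1 : θ ≤ t1 := by rw [hθ]; exact (min_le_left _ _).trans (min_le_left _ _)
  have hθ2 : θ ≤ t2 := by rw [hθ]; exact (min_le_left _ _).trans (min_le_right _ _)
  have hθ3 : θ ≤ t3 := by rw [hθ]; exact (min_le_right _ _).trans (min_le_left _ _)
  have hθ4 : θ ≤ 1 / 100 := by rw [hθ]; exact (min_le_right _ _).trans (min_le_right _ _)
  have hg1 : (1 : ℝ) ≤ g := by exact_mod_cast hg
  obtain ⟨G, hG⟩ : ∃ G : ℝ, G = g * (AA / 3 + 1) * (2000 / (9 * κ)) := ⟨_, rfl⟩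
  have hG0 : 0 < G := by
    rw [hG]
    positivity
  refine ⟨θ, G, hθ0, hθ4, hG0, ⌈8 * C / κ⌉₊ + 1, fun K B cF hK hB => ?_⟩
  obtain ⟨n1, h1⟩ := h1 θ hθ0 hθ1 K B cF G hK hB
  obtain ⟨n2, h2⟩ := h2 θ hθ0 hθ2 K B cF G hK hB
  obtain ⟨n3, h3⟩ := h3 θ hθ0 hθ3 K B cF G hK hB
  obtain ⟨n4, h4⟩ := h4 θ hθ0 hθ4 K B cF G hK hB
  obtain ⟨n5, h5⟩ := E2_up K B cF θ G hK hB
  obtain ⟨n6, h6⟩ := E3_up K B cF θ G hK hB
  obtain ⟨n7, h7⟩ := Ns_up K B cF θ G hK hB hθ0 hθ4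
  obtain ⟨n8, h8⟩ := main_low K B cF hK θ G
  obtain ⟨cv, hcv, n9, h9⟩ := vz_low
  obtain ⟨n10, h10⟩ := va_low K B hK
  obtain ⟨n11, h11⟩ := H59C.cdl_log (16 / (3 * κ) + 4 * g + 2)
  refine ⟨n1 + n2 + n3 + n4 + n5 + n6 + n7 + n8 + n9 + n10 + n11 + 3,
    fun N hN w H p1 hp1 hR => ?_⟩
  obtain ⟨L, hL⟩ : ∃ L : ℝ, L = Real.log N := ⟨_, rfl⟩
  have hLb := h11 N (by omega)
  rw [← hL] at hLb
  have hk3 : 0 < 16 / (3 * κ) := by positivity
  have hL2 : 2 ≤ L := by linarith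
  have hL1 : 1 ≤ L := by linarith
  have hL0 : 0 < L := by linarith
  have hLk : 16 ≤ 3 * κ * L := by
    have h : 16 / (3 * κ) ≤ L := by linarith
    rw [div_le_iff₀ (by linarith)] at h
    linarith
  have hLg : 4 * (g : ℝ) ≤ L := by linarith
  have hN0 : (0 : ℝ) < N := by exact_mod_cast (by omega : 0 < N)
  have hp1' : C / p1 ≤ κ / 8 := by
    have a1 : 8 * C / κ ≤ p1 := by
      refine (Nat.le_ceil _).trans ?_
      exact_mod_cast (by omega : ⌈8 * C / κ⌉₊ ≤ p1)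
    have a2 : (0 : ℝ) < p1 := by exact_mod_cast hR.p1p.pos
    rw [div_le_iff₀ a2]
    rw [div_le_iff₀ hκ0] at a1
    linarith
  have hW2 : 2 ≤ w.W := by
    have := w.KW
    have h1 := w.Kpos
    nlinarith
  obtain ⟨hz1, hz2⟩ := h9 N (by omega) w.W H hW2
  obtain ⟨Z, hZ⟩ : ∃ Z : ℝ, Z = Vz N w.W H := ⟨_, rfl⟩
  obtain ⟨V, hV⟩ : ∃ V : ℝ, V = Va N w.W p1 H := ⟨_, rfl⟩
  have hZ0 : 0 ≤ Z := by
    rw [hZ]
    refine le_trans ?_ hz1
    rw [← hL]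
    positivity
  have hV0 : 0 ≤ V := by
    rw [hV]
    refine le_trans ?_ (h10 N (by omega) w.W p1 H hR.Wdef hR.cardH hR.nf).1
    rw [← hL]
    positivity
  obtain ⟨q, hq⟩ : ∃ q : ℝ, q = (1 + w.n * w.c) ^ 2 := ⟨_, rfl⟩
  have hq0 : 0 ≤ q := by rw [hq]; positivity
  have hlogW : 0 ≤ Real.log w.W := Real.log_nonneg (by exact_mod_cast (by omega : 1 ≤ w.W))
  -- one `h`
  have hone : ∀ h ∈ H, N / L ^ 4 + κ / 4 * (9 / 2000 * (q * Real.log w.W) * (N * V * Z)) ≤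
      S1s w H N p1 h - 1 / 2 * S2s w H N p1 h - 1 / 2 * S3s w H N p1 h -
      E1s w H N p1 h - E2s w H N p1 h - E3s w H N p1 h := by
    intro h hh
    have b1 := h1 N (by omega) w H p1 hR h hh
    have b2 := h2 N (by omega) w H p1 hR h hh
    have b3 := h3 N (by omega) w H p1 hR h hh
    have b4 := h4 N (by omega) w H p1 hR h hh
    have b5 := h5 N (by omega) w H p1 hR h hh
    have b6 := h6 N (by omega) w H p1 hR h hh
    obtain ⟨b8, b9, b10, b11⟩ := h8 N (by omega) w H p1 hR h hh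
    rw [← hL] at b4 b5 b6 b8
    rw [← hZ] at b1 b2 b3 b4 b8
    obtain ⟨X, hX⟩ : ∃ X : ℝ, X = Xh w H N p1 h * Z := ⟨_, rfl⟩
    rw [← hX] at b1 b2 b3 b4 b8
    have hX0 : 0 ≤ X := by rw [hX]; exact mul_nonneg b9 hZ0
    have c1 : C / p1 * X ≤ κ / 8 * X := mul_le_mul_of_nonneg_right hp1' hX0
    have c2 : X * (AA * Real.log 3 / 4 - κ / 8) - 1 / 2 * (X * (AA / 4 * Real.log 6 + κ / 8)) -
        1 / 2 * (X * (AA / 4 * (3 / 8) + κ / 8)) = X * (κ - 2 * (κ / 8)) := by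
      rw [hκ]
      ring
    have c3 : 5 / 8 * κ * X - 3 * (N / L ^ 9) ≤
        S1s w H N p1 h - 1 / 2 * S2s w H N p1 h - 1 / 2 * S3s w H N p1 h -
      E1s w H N p1 h - E2s w H N p1 h - E3s w H N p1 h := by
      have e1 : X * (κ - 2 * (κ / 8)) = 5 / 8 * κ * X + κ / 8 * X := by ring
      linarith
    have c4 : 9 / 2000 * (q * Real.log w.W) * (N * V * Z) ≤ X := by
      rw [hX]
      have d1 : 9 / 2000 * (q * Real.log w.W) * (N * V) ≤ Xh w H N p1 h := by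
        unfold Xh
        have d2 : 36 / 100 * q ≤ AE w.P H (some h) (FC w H) := by
          rw [hq]
          exact hR.aes h hh
        have d3 : Real.log w.W / 4 * V ≤ Vb N w.W p1 H := by
          rw [hV]
          rw [hV] at hV0
          exact (vb_ge N w.W p1 H hW2 hR.p1p hV0).1
        have d4 : 36 / 100 * q * (Real.log w.W / 4 * V) ≤
            AE w.P H (some h) (FC w H) * Vb N w.W p1 H :=
          mul_le_mul d2 d3 (by positivity) (le_trans (by positivity) d2)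
        have d5 : (N : ℝ) / 20 * (36 / 100 * q * (Real.log w.W / 4 * V)) ≤
            H59C.XX (Ya N + h) (Yb N + h) * (AE w.P H (some h) (FC w H) * Vb N w.W p1 H) :=
          mul_le_mul b10 d4 (by positivity) (le_trans (by positivity) b10)
        refine le_trans (le_of_eq ?_) d5
        ring
      calc 9 / 2000 * (q * Real.log w.W) * (N * V * Z) =
          (9 / 2000 * (q * Real.log w.W) * (N * V)) * Z := by ring
        _ ≤ Xh w H N p1 h * Z := mul_le_mul_of_nonneg_right d1 hZ0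
    have c5 : κ / 4 * (9 / 2000 * (q * Real.log w.W) * (N * V * Z)) ≤ κ / 4 * X :=
      mul_le_mul_of_nonneg_left c4 (by linarith)
    have c6 : N / L ^ 4 + 3 * (N / L ^ 9) ≤ 3 / 8 * κ * X := by
      have d1 : 3 / 8 * κ * (N / L ^ 3) ≤ 3 / 8 * κ * X :=
        mul_le_mul_of_nonneg_left b8 (by positivity)
      have d2 : 2 * (N / L ^ 4) ≤ 3 / 8 * κ * (N / L ^ 3) := by
        have e1 : 3 / 8 * κ * (N / L ^ 3) = (3 / 8 * κ * L) * (N / L ^ 4) := by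
          field_simp
        rw [e1]
        refine mul_le_mul_of_nonneg_right ?_ (by positivity)
        linarith
      have d3 : 3 * (N / L ^ 9) ≤ N / L ^ 4 := by
        have e1 : 3 * (N / L ^ 9) = (3 / L ^ 5) * (N / L ^ 4) := by
          field_simp
        rw [e1]
        refine mul_le_of_le_one_left (by positivity) ?_
        rw [div_le_one (by positivity)]
        have e2 : (2 : ℝ) ^ 5 ≤ L ^ 5 := pow_le_pow_left₀ (by norm_num) hL2 5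
        linarith
      linarith
    have c7 : 5 / 8 * κ * X = κ / 4 * X + 3 / 8 * κ * X := by ring
    linarith
  have hsum := Finset.sum_le_sum hone
  rw [Finset.sum_const, hR.cardH, nsmul_eq_mul] at hsum
  have hNs := h7 N (by omega) w H p1 hR
  rw [← hL, ← hZ, ← hV] at hNs
  obtain ⟨U, hU⟩ : ∃ U : ℝ, U = N / 8 * (V * Z * (AA / 3 + 1)) + N / L ^ 10 := ⟨_, rfl⟩
  rw [← hU] at hNs
  have hU0 : 0 ≤ U := by rw [hU]; positivity
  have hlog2 : Real.log (2 * N) ≤ 2 * L := by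
    rw [Real.log_mul (by norm_num) hN0.ne', ← hL]
    have := Real.log_two_lt_d9
    linarith
  have hlog20 : 0 ≤ Real.log (2 * N) := by
    rw [Real.log_mul (by norm_num) hN0.ne', ← hL]
    have := Real.log_two_gt_d9
    linarith
  have hneg : ((g : ℝ) - 1) * Real.log (2 * N) * Ns w H N p1 ≤ ((g : ℝ) - 1) * (2 * L) * U := by
    have hg0 : 0 ≤ (g : ℝ) - 1 := by linarith
    calc ((g : ℝ) - 1) * Real.log (2 * N) * Ns w H N p1 ≤ ((g : ℝ) - 1) * Real.log (2 * N) * U :=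
          mul_le_mul_of_nonneg_left hNs (mul_nonneg hg0 hlog20)
      _ ≤ ((g : ℝ) - 1) * (2 * L) * U :=
          mul_le_mul_of_nonneg_right (mul_le_mul_of_nonneg_left hlog2 hg0) hU0
  have hgain := hR.gain
  rw [← hL, ← hq] at hgain
  rw [← hL]
  refine fin_alg κ AA L N V Z (K * (9 / 2000 * (q * Real.log w.W) * (N * V * Z))) K G g U
    (Tt w H N p1 g) hκ0 hL1 hLk hLg hL2 hN0 hV0 hZ0 hg1 hAA (by exact_mod_cast hK) hG ?_ ?_
    (le_of_eq hU)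
  · unfold Tt
    have e1 : (K : ℝ) * (N / L ^ 4 + κ / 4 * (9 / 2000 * (q * Real.log w.W) * (N * V * Z))) =
        K * (N / L ^ 4) + κ / 4 * (K * (9 / 2000 * (q * Real.log w.W) * (N * V * Z))) := by ring
    linarith
  · have e1 : (K : ℝ) * (9 / 2000 * (q * Real.log w.W) * (N * V * Z)) =
        9 / 2000 * (K * q * Real.log w.W) * (N * V * Z) := by ring
    rw [e1]
    refine mul_le_mul_of_nonneg_right ?_ (by positivity)
    linarith

/-- Proof. `T_ge`, `reg_exists`, `T_le`: `N/L^5 ≤ K log (2N) ∑_{Gd} FF`, Cauchy-Schwarz and `mom`: `(∑_{Gd} FF)^2 ≤ #Gd L^B N`; so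
`#Gd ≥ N/(L^(10) K^2 (2L)^2 L^B) ≥ N/L^(B + 13)`. -/
theorem gd_card (g : ℕ) (hg : 1 ≤ g) : ∃ K B : ℕ, 1 ≤ K ∧ ∀ H : Finset ℕ, H.card = K →
    ∃ n0 : ℕ, ∀ N : ℕ, n0 ≤ N → (∀ h ∈ H, 2 ∣ N + h) →
    (∀ q : ℕ, q.Prime → (Rb N H q).card < q) → N / Real.log N ^ B ≤ ((Gd H N g).card : ℝ) := by
  classical
  obtain ⟨θ, G, hθ0, hθ1, hG0, K0, hT⟩ := T_ge g hg
  obtain ⟨m, hm, cF, B, hB, hreg⟩ := reg_exists θ G hθ0 hθ1 hG0
  obtain ⟨K, hKdef⟩ : ∃ K : ℕ, K = 4000 ^ m := ⟨_, rfl⟩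
  have hK1 : 1 ≤ K := by rw [hKdef]; exact Nat.one_le_pow _ _ (by norm_num)
  rw [← hKdef] at hreg
  obtain ⟨n1, h1⟩ := hT K B cF hK1 hB
  obtain ⟨n2, h2⟩ := T_le K B cF θ G hK1 hB g hg
  obtain ⟨n3, h3⟩ := H59C.cdl_log (4 * (K : ℝ) ^ 2 + 2)
  refine ⟨K, B + 13, hK1, fun H hH => ?_⟩
  obtain ⟨n4, h4⟩ := hreg K0 H hH
  refine ⟨n1 + n2 + n3 + n4 + 3, fun N hN he hnf => ?_⟩
  obtain ⟨w, p1, hp1, hR⟩ := h4 N (by omega) he hnf
  have g1 := h1 N (by omega) w H p1 hp1 hR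
  have g2 := h2 N (by omega) w H p1 hR
  have g3 := h3 N (by omega)
  obtain ⟨L, hL⟩ : ∃ L : ℝ, L = Real.log N := ⟨_, rfl⟩
  rw [← hL] at g1 g3 ⊢
  have hK1' : (1 : ℝ) ≤ K := by exact_mod_cast hK1
  have hL2 : 2 ≤ L := by nlinarith
  have hL0 : 0 < L := by linarith
  have hN0 : (0 : ℝ) < N := by exact_mod_cast (by omega : 0 < N)
  have hlog2 : Real.log (2 * N) ≤ 2 * L := by
    rw [Real.log_mul (by norm_num) hN0.ne', ← hL]
    have := Real.log_two_lt_d9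
    linarith
  obtain ⟨S, hS⟩ : ∃ S : ℝ, S = ∑ t ∈ Gd H N g, FF w H none t := ⟨_, rfl⟩
  rw [← hS] at g2
  have hS0 : 0 ≤ S := by
    rw [hS]
    exact Finset.sum_nonneg fun t _ => E2_FF w H none t
  have g4 : N / L ^ 5 ≤ K * (2 * L) * S := by
    refine g1.trans (g2.trans ?_)
    exact mul_le_mul_of_nonneg_right (mul_le_mul_of_nonneg_left hlog2 (by linarith)) hS0
  have g5 : S ^ 2 ≤ ((Gd H N g).card : ℝ) * (L ^ B * N) := by
    have c1 := Finset.sum_mul_sq_le_sq_mul_sq (Gd H N g) (fun _ => (1 : ℝ)) (fun t => FF w H none t)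
    simp only [one_mul, one_pow, Finset.sum_const, nsmul_eq_mul, mul_one] at c1
    rw [← hS] at c1
    refine c1.trans (mul_le_mul_of_nonneg_left ?_ (Nat.cast_nonneg _))
    have c2 := hR.mom
    rw [← hL] at c2
    refine le_trans ?_ c2
    refine Finset.sum_le_sum_of_subset_of_nonneg ?_ fun t _ _ => sq_nonneg _
    intro t ht
    unfold Gd at ht
    rw [Finset.mem_filter, Finset.mem_Ioc] at ht
    rw [Finset.mem_Icc]
    have h1 := ht.1.2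
    unfold Yb at h1
    omega
  -- `N ≤ #Gd L^(B+13)`
  obtain ⟨c, hc⟩ : ∃ c : ℝ, c = ((Gd H N g).card : ℝ) := ⟨_, rfl⟩
  rw [← hc] at g5 ⊢
  have hc0 : 0 ≤ c := by rw [hc]; exact Nat.cast_nonneg _
  have g6 : (N : ℝ) ≤ K * (2 * L ^ 6) * S := by
    rw [div_le_iff₀ (by positivity)] at g4
    calc (N : ℝ) ≤ K * (2 * L) * S * L ^ 5 := g4
      _ = K * (2 * L ^ 6) * S := by ring
  have g7 : (N : ℝ) ^ 2 ≤ (4 * K ^ 2 * L ^ 12) * (c * (L ^ B * N)) := by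
    calc (N : ℝ) ^ 2 ≤ (K * (2 * L ^ 6) * S) ^ 2 := pow_le_pow_left₀ hN0.le g6 2
      _ = (4 * K ^ 2 * L ^ 12) * S ^ 2 := by ring
      _ ≤ (4 * K ^ 2 * L ^ 12) * (c * (L ^ B * N)) := mul_le_mul_of_nonneg_left g5 (by positivity)
  have g8 : (N : ℝ) ≤ (4 * K ^ 2 * L ^ 12) * (c * L ^ B) := by
    have e1 : (4 * (K : ℝ) ^ 2 * L ^ 12) * (c * (L ^ B * N)) = ((4 * K ^ 2 * L ^ 12) * (c * L ^ B)) * N := by
      ring
    rw [e1, sq] at g7
    exact le_of_mul_le_mul_right g7 hN0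
  rw [div_le_iff₀ (by positivity)]
  calc (N : ℝ) ≤ (4 * K ^ 2 * L ^ 12) * (c * L ^ B) := g8
    _ ≤ (L * L ^ 12) * (c * L ^ B) := by
        refine mul_le_mul_of_nonneg_right ?_ (by positivity)
        refine mul_le_mul_of_nonneg_right ?_ (by positivity)
        linarith
    _ = c * L ^ (B + 13) := by ring

end Pool.Agent.Lib.H57C
end
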