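import Pool.Agent.Lib.H1M.RV.M065
import Pool.Agent.Lib.H1M.RV.M071
import Pool.Agent.Lib.H1M.RV.M089
import Pool.Agent.Lib.H1M.RV.M094

/-! Merged copies (to shorten the build) of Lib.H57T.Zd, Lib.H57T.S3b. -/

-- from Lib.H57T.Zd
section

/-!
# The primes dividing a difference
-/

open Finset

namespace Pool.Agent.Lib.H57T

open Pool.Agent.Lib.H57C

theorem s3b_dist {q x y : ℕ} (h : x ≡ y [MOD q]) : q ∣ Nat.dist x y := by
  rcases le_total x y with h1 | h1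
  · rw [Nat.dist_eq_sub_of_le h1]
    exact (Nat.modEq_iff_dvd' h1).1 h
  · rw [Nat.dist_comm, Nat.dist_eq_sub_of_le h1]
    exact (Nat.modEq_iff_dvd' h1).1 h.symm

/-- The primes dividing a difference of different elements of `H ∪ {a}`. -/
def Zd (H : Finset ℕ) (a : ℕ) : Finset ℕ :=
  H.biUnion (fun h => (Nat.dist a h).primeFactors) ∪
    (H ×ˢ H).biUnion (fun x => (Nat.dist x.1 x.2).primeFactors)

theorem zd_mem_a {H : Finset ℕ} {a q h : ℕ} (haH : a ∉ H) (hq : q.Prime) (hh : h ∈ H)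
    (hm : a ≡ h [MOD q]) : q ∈ Zd H a := by
  unfold Zd
  rw [Finset.mem_union, Finset.mem_biUnion]
  left
  have hne : a ≠ h := fun e => haH (e ▸ hh)
  exact ⟨h, hh, Nat.mem_primeFactors.2 ⟨hq, s3b_dist hm, fun e => hne (Nat.eq_of_dist_eq_zero e)⟩⟩

theorem zd_mem_h {H : Finset ℕ} {a q h h' : ℕ} (hq : q.Prime) (hh : h ∈ H) (hh' : h' ∈ H)
    (hne : h ≠ h') (hm : h ≡ h' [MOD q]) : q ∈ Zd H a := by
  unfold Zd
  rw [Finset.mem_union, Finset.mem_biUnion, Finset.mem_biUnion]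
  right
  exact ⟨(h, h'), Finset.mem_product.2 ⟨hh, hh'⟩,
    Nat.mem_primeFactors.2 ⟨hq, s3b_dist hm, fun e => hne (Nat.eq_of_dist_eq_zero e)⟩⟩

/-- Every difference is at most `N` and has at most `2 log N` prime factors. -/
theorem zd_card (K : ℕ) : ∃ n0 : ℕ, ∀ N : ℕ, n0 ≤ N → ∀ (a : ℕ) (H : Finset ℕ), H.card = K →
    (∀ h ∈ H, h ≤ N) → a ≤ N → ((Zd H a).card : ℝ) ≤ Real.log N ^ 2 := by
  obtain ⟨n0, hn0⟩ := Pool.Agent.Lib.H59C.cdl_log (4 * (K + K ^ 2) + 1)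
  refine ⟨n0 + 2, fun N hN a H hK hH ha => ?_⟩
  have hL := hn0 N (by omega)
  have hN2 : (2 : ℝ) ≤ N := by exact_mod_cast (show 2 ≤ N by omega)
  have hone : ∀ m : ℕ, m ≤ N → ((m.primeFactors.card : ℕ) : ℝ) ≤ 4 * Real.log N := by
    intro m hm
    have hlog : 0 ≤ Real.log N := Real.log_nonneg (by linarith)
    rcases Nat.eq_zero_or_pos m with h0 | h0
    · rw [h0, Nat.primeFactors_zero]
      simpa using hlog
    · refine (s3b_card m h0).trans ?_
      have h4 := Real.log_le_log (by exact_mod_cast h0) (show (m : ℝ) ≤ N by exact_mod_cast hm)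
      linarith
  have hdist : ∀ x y : ℕ, x ≤ N → y ≤ N → Nat.dist x y ≤ N := by
    intro x y hx hy
    unfold Nat.dist
    omega
  have h1 : ((Zd H a).card : ℝ) ≤ ∑ h ∈ H, (((Nat.dist a h).primeFactors.card : ℕ) : ℝ) +
      ∑ x ∈ H ×ˢ H, (((Nat.dist x.1 x.2).primeFactors.card : ℕ) : ℝ) := by
    have h2 := (Finset.card_union_le _ _).trans
      (Nat.add_le_add (Finset.card_biUnion_le (s := H) (t := fun h => (Nat.dist a h).primeFactors))
        (Finset.card_biUnion_le (s := H ×ˢ H) (t := fun x => (Nat.dist x.1 x.2).primeFactors)))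
    unfold Zd
    exact_mod_cast h2
  have h2 : ∑ h ∈ H, (((Nat.dist a h).primeFactors.card : ℕ) : ℝ) ≤ ∑ h ∈ H, 4 * Real.log N :=
    Finset.sum_le_sum fun h hh => hone _ (hdist _ _ ha (hH h hh))
  have h2' : ∑ x ∈ H ×ˢ H, (((Nat.dist x.1 x.2).primeFactors.card : ℕ) : ℝ) ≤ ∑ x ∈ H ×ˢ H, 4 * Real.log N :=
    Finset.sum_le_sum fun x hx => hone _
      (hdist _ _ (hH _ (Finset.mem_product.1 hx).1) (hH _ (Finset.mem_product.1 hx).2))
  have h3 : ∑ h ∈ H, 4 * Real.log N = K * (4 * Real.log N) := by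
    rw [Finset.sum_const, hK, nsmul_eq_mul]
  have h3' : ∑ x ∈ H ×ˢ H, 4 * Real.log N = (K : ℝ) ^ 2 * (4 * Real.log N) := by
    rw [Finset.sum_const, Finset.card_product, hK, nsmul_eq_mul]
    push_cast
    ring
  have h4 : (0 : ℝ) ≤ K := Nat.cast_nonneg K
  have h5 : 0 ≤ Real.log N := Real.log_nonneg (by linarith)
  have h6 : ((Zd H a).card : ℝ) ≤ (4 * (K + K ^ 2)) * Real.log N := by
    rw [h3] at h2
    rw [h3'] at h2'
    linarith
  refine h6.trans ?_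
  have h7 := mul_le_mul_of_nonneg_right (show 4 * ((K : ℝ) + (K : ℝ) ^ 2) ≤ Real.log N by linarith) h5
  linarith [sq (Real.log N)]

/-- The number of bad primes. -/
theorem bd_card (K : ℕ) : ∃ n0 : ℕ, ∀ N : ℕ, n0 ≤ N → ∀ (a W : ℕ) (H : Finset ℕ), H.card = K →
    (∀ h ∈ H, h ≤ N) → a ≤ N → a ∉ H → ((Bd N W H a).card : ℝ) ≤ Real.log N ^ 2 := by
  obtain ⟨n0, hn0⟩ := zd_card K
  refine ⟨n0, fun N hN a W H hK hH ha haH => le_trans ?_ (hn0 N hN a H hK hH ha)⟩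
  have hsub : Bd N W H a ⊆ Zd H a := by
    intro q hq
    unfold Bd at hq
    rw [Finset.mem_filter] at hq
    obtain ⟨_, hq1, hq2⟩ := hq
    rcases hq2 with ⟨h, hh, hm⟩ | ⟨h, hh, h', hh', hne, hm⟩
    · exact zd_mem_a haH hq1 hh hm
    · exact zd_mem_h hq1 hh hh' hne hm
  exact_mod_cast Finset.card_le_card hsub

end Pool.Agent.Lib.H57T
end

-- from Lib.H57T.S3b
section

/-!
# Chunk S3b: the sieve in a box
-/

open Finset

namespace Pool.Agent.Lib.H57T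

open Pool.Agent.Lib.H57C


open Pool.Agent.Lib.H57M
open Pool.Agent.Lib.H59C (AA zz BX wB VV)
theorem s3b_Fs0 {K : ℕ} (w : Par K) (H : Finset ℕ) (a p1 : ℕ) (i : Option ℕ) (t : ℕ) :
    0 ≤ Fs w H a p1 i t := by
  unfold Fs Sg
  refine mul_nonneg (s3b_FF w H i t) ?_
  split_ifs
  · exact zero_le_one
  · exact le_rfl

/-- Periodicity. -/
theorem s3b_Fs {K : ℕ} (w : Par K) (H : Finset ℕ) (N a p1 : ℕ) (i : Option ℕ) (t t' : ℕ)
    (hP : ∀ p ∈ w.P, p ≤ N) (hW : w.W ≤ N)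
    (ht : ∀ q : ℕ, 1 ≤ q → q ≤ N → t ≡ t' [MOD q]) :
    Fs w H a p1 i t = Fs w H a p1 i t' := by
  have h1 : cfg w.P H i t = cfg w.P H i t' := by
    funext h
    unfold cfg
    split_ifs
    · rfl
    · unfold Pool.Agent.Lib.H15P.hit
      ext p
      rw [Finset.mem_filter, Finset.mem_filter]
      have h2 : t + h.1 ≡ t' + h.1 [MOD p.1] :=
        (ht p.1 (w.prime p.1 p.2).one_lt.le (hP p.1 p.2)).add_right _
      rw [h2.dvd_iff dvd_rfl]
  have h2 : Sg (Ps w.W p1) (Rb a H) t = Sg (Ps w.W p1) (Rb a H) t' := by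
    unfold Sg
    have h3 : (∀ q ∈ Ps w.W p1, t % q ∉ Rb a H q) ↔ (∀ q ∈ Ps w.W p1, t' % q ∉ Rb a H q) := by
      refine forall₂_congr fun q hq => ?_
      unfold Ps at hq
      rw [Finset.mem_filter, Finset.mem_Icc] at hq
      have h4 : t % q = t' % q := ht q hq.1.1 (hq.1.2.trans hW)
      rw [h4]
    rw [if_congr h3 rfl rfl]
  unfold Fs FF
  rw [h1, h2]

theorem s3b_xv (N a : ℕ) (x : ℕ × ℕ) (hx : a ≤ x.1 * x.2) (q : ℕ) (h1 : 1 ≤ q) (h2 : q ≤ N) :
    xv N a x ≡ x.1 * x.2 - a [MOD q] := by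
  have h3 : q ∣ N.factorial := Nat.dvd_factorial h1 h2
  have h4 : 1 ≤ N.factorial := N.factorial_pos
  have h5 : xv N a x + a = x.1 * x.2 + N.factorial * a := by
    unfold xv
    obtain ⟨m, hm⟩ : ∃ m, N.factorial = m + 1 := ⟨N.factorial - 1, by omega⟩
    rw [hm]
    have : m + 1 - 1 = m := by omega
    rw [this]
    ring
  have h6 : xv N a x + a ≡ (x.1 * x.2 - a) + a [MOD q] := by
    rw [h5, Nat.sub_add_cancel hx]
    have h7 : N.factorial * a ≡ 0 [MOD q] :=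
      (Nat.modEq_zero_iff_dvd).2 (h3.mul_right _)
    simpa using h7.add_left (x.1 * x.2)
  exact Nat.ModEq.add_right_cancel' _ h6

theorem s3b_Pg {N a W : ℕ} {H : Finset ℕ} (hW : 2 ≤ W) : ∀ q ∈ Pg N W H a, q.Prime ∧ 3 ≤ q := by
  intro q hq
  unfold Pg at hq
  rw [Finset.mem_filter, Finset.mem_Ioc] at hq
  exact ⟨hq.2.1, by omega⟩

open Classical in
/-- Proof. As `box_sieve` (`H59C/CBS.lean`). `jr (ε/8)`, `z' = N^(1/6)`, `D = Lv N θ/Q0`: `log D ≤ 3 log z'`, `z' ≤ D`, and `log z'/log D → (1/6)/(1/2 - 4θ)`, so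
for small `θ` the bound is `XB.. VV(z') (AA/3 + ε/4)`. If `p = N + h - x.1 x.2` is a prime `≥ N^(1/6)` then no `q ∈ Pg`, `q < z'`, divides `xv N a x + h`
(`xv N a x + h ≡ N + h - x.1 x.2` modulo `q`, since `q ≤ N` divides `N!`). So the left side is at most `sift` of `BX` with the weights `wB α x Fs(xv N a x)`.
`remC`: remainder `≤ N/L^10`. `ratio_VV'` with `Z = Bd N W H a` (`bd_card`), `z = zz N`: `VV(z') ≤ (1 + η) (3/4) VV(z)`. Here `Fs` at `N - x.1 x.2`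
equals `Fs` at `xv N a x`: both arguments are congruent modulo all primes `≤ N` (`cfg` and `Sg` only depend on the residues modulo the primes of
`w.P` and the primes `≤ W`); `x.1 x.2 ≤ N` as `N^(1/6) > h`. -/
theorem box_sieve' (ε : ℝ) (hε : 0 < ε) : ∃ θ0 : ℝ, 0 < θ0 ∧ ∀ θ : ℝ, 0 < θ → θ ≤ θ0 →
    ∀ (K B cF : ℕ) (G : ℝ), 1 ≤ K → 3 ≤ B → ∃ n0 : ℕ, ∀ N : ℕ, n0 ≤ N →
    ∀ (w : Par K) (H : Finset ℕ) (a p1 : ℕ), Reg B cF θ G w H N a p1 → ∀ h ∈ H,
    ∀ (M u v : ℕ) (α : ℕ → ℝ), (∀ m, 0 ≤ α m ∧ α m ≤ 1) →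
    (∀ m, α m ≠ 0 → ∀ r : ℕ, r.Prime → r ∣ m → (N : ℝ) ^ (1 / 10 : ℝ) ≤ r) →
    (N : ℝ) ^ (1 / 4 : ℝ) ≤ M → (N : ℝ) ^ (1 / 4 : ℝ) ≤ u → u ≤ v → M * v ≤ 8 * N →
    ∑ x ∈ (BX M u v).filter (fun x => a ≤ x.1 * x.2 ∧ (x.1 * x.2 - a + h).Prime ∧
        (N : ℝ) ^ (1 / 6 : ℝ) ≤ (x.1 * x.2 - a + h : ℕ)),
      wB α x * Fs w H a p1 (some h) (x.1 * x.2 - a) ≤
      H59C.XB M u v α * (AE w.P H (some h) (FC w H) * Vb a w.W p1 H) * Vz N w.W H a *
        (AA / 4 + ε) + N / Real.log N ^ 10 := by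
  have hAA := Pool.Agent.Lib.H59C.AA_pos
  obtain ⟨Q0, hQ0, z0, hz0, hjr⟩ := Pool.Agent.Lib.H59C.jr (ε / 8) (by linarith)
  obtain ⟨ρ, hρ⟩ : ∃ ρ : ℝ, ρ = min (1 / 8) (ε / (8 * AA)) := ⟨_, rfl⟩
  have hρ0 : 0 < ρ := by rw [hρ]; exact lt_min (by norm_num) (by positivity)
  have hρ1 : ρ ≤ 1 / 8 := by rw [hρ]; exact min_le_left _ _
  have hρ2 : AA * ρ ≤ ε / 8 := by
    have h : ρ ≤ ε / (8 * AA) := by rw [hρ]; exact min_le_right _ _
    calc AA * ρ ≤ AA * (ε / (8 * AA)) := mul_le_mul_of_nonneg_left h hAA.le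
      _ = ε / 8 := by field_simp
  refine ⟨ρ / 64, by linarith, fun θ hθ0 hθρ K B cF G hK hB => ?_⟩
  obtain ⟨n2, hn2⟩ := ratio_VV' ρ hρ0
  obtain ⟨n3, hn3⟩ := s3b_lv Q0 hQ0 θ (ρ / 8) hθ0 (by linarith) (by linarith)
  obtain ⟨n4, hn4⟩ := Pool.Agent.Lib.H59C.cdl_zz z0
  obtain ⟨n5, hn5⟩ := s3b_W B
  obtain ⟨n6, hn6⟩ := bd_card K
  refine ⟨n2 + n3 + n4 + n5 + n6 + 3, fun N hN w H a p1 hR h hh M u v α hα hαr hM hu huv hMv => ?_⟩
  have hN3 : (3 : ℝ) ≤ N := by exact_mod_cast (by omega : 3 ≤ N)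
  have hL : 0 < Real.log N := Real.log_pos (by linarith)
  obtain ⟨hDl, hDu, hDp⟩ := hn3 N (by omega)
  have hzn := hn4 N (by omega)
  have hWz : (w.W : ℝ) < zz N := by
    rw [hR.Wdef]
    exact hn5 N (by omega)
  have hlz := Pool.Agent.Lib.H59C.log_zz N (by omega)
  have hzpos : 0 < zz N := by linarith
  have hlz0 : 0 < Real.log (zz N) := by rw [hlz]; linarith
  obtain ⟨z', hz'⟩ : ∃ z' : ℝ, z' = (N : ℝ) ^ (1 / 6 : ℝ) := ⟨_, rfl⟩
  have hlz' : Real.log z' = 1 / 6 * Real.log N := by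
    rw [hz', Real.log_rpow (by linarith)]
  have hz'pos : 0 < z' := by rw [hz']; positivity
  have hzz' : zz N ≤ z' := by
    rw [← Real.log_le_log_iff hzpos hz'pos, hlz, hlz']
    linarith
  have hz'n : z' ≤ N := by
    rw [← Real.log_le_log_iff hz'pos (by linarith), hlz']
    linarith
  have hW2 : 2 ≤ w.W := by
    have := w.KW
    have h1 := w.Kpos
    nlinarith
  have hWN : w.W ≤ N := by
    have h1 : (w.W : ℝ) ≤ N := by linarith
    exact_mod_cast h1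
  have hPg := s3b_Pg (N := N) (a := a) (H := H) hW2
  have hPN : ∀ p ∈ w.P, p ≤ N := by
    intro p hp
    have h1 : (p : ℝ) ≤ N := by
      refine (hR.PN p hp).trans ?_
      calc (N : ℝ) ^ (1 / 100 : ℝ) ≤ (N : ℝ) ^ (1 : ℝ) :=
            Real.rpow_le_rpow_of_exponent_le (by linarith) (by norm_num)
        _ = N := Real.rpow_one _
    exact_mod_cast h1
  have hwB : ∀ x, 0 ≤ wB α x := fun x =>
    mul_nonneg (hα _).1 (Pool.Agent.Lib.H59C.lg_nonneg _)
  have hF0 : ∀ x, 0 ≤ wB α x * Fs w H a p1 (some h) (xv N a x) := fun x =>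
    mul_nonneg (hwB x) (s3b_Fs0 _ _ _ _ _ _)
  have hXB : 0 ≤ H59C.XB M u v α := by
    unfold H59C.XB
    exact mul_nonneg (sum_nonneg fun m _ => (hα m).1) (Pool.Agent.Lib.H59C.XX_nonneg _ _)
  have hAE : 0 ≤ AE w.P H (some h) (FC w H) := by
    refine le_trans ?_ (hR.aes h hh)
    positivity
  have hVa : 0 ≤ Va a w.W p1 H := by
    unfold Va
    refine prod_nonneg fun q hq => ?_
    have hq' : q.Prime := by
      unfold Ps at hq
      exact (mem_filter.1 hq).2.1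
    have h1 := hR.nf q hq'
    have h2 : ((Rb a H q).card : ℝ) ≤ q := by exact_mod_cast h1.le
    have h3 : (0 : ℝ) < q := by exact_mod_cast hq'.pos
    rw [sub_nonneg, div_le_one h3]
    exact h2
  have hVb : 0 ≤ Vb a w.W p1 H := by
    unfold Vb
    refine mul_nonneg hVa (prod_nonneg fun q hq => ?_)
    have hq' : q.Prime := by
      unfold Ps at hq
      exact (mem_filter.1 hq).2.1
    have h3 : (2 : ℝ) ≤ q := by exact_mod_cast hq'.two_le
    exact div_nonneg (by linarith) (by linarith)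
  obtain ⟨X, hX⟩ : ∃ X : ℝ, X = H59C.XB M u v α * (AE w.P H (some h) (FC w H) * Vb a w.W p1 H) :=
    ⟨_, rfl⟩
  have hX0 : 0 ≤ X := by
    rw [hX]
    exact mul_nonneg hXB (mul_nonneg hAE hVb)
  have hV : ∀ z : ℝ, 0 ≤ VV (Pg N w.W H a) z := by
    intro z
    unfold VV H59C.VP
    apply prod_nonneg
    intro q hq
    have h3 := (hPg q (mem_filter.mp hq).1).2
    have h3' : (3 : ℝ) ≤ q := by exact_mod_cast h3
    unfold H59C.gq
    rw [sub_nonneg, div_le_one (by linarith)]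
    linarith
  -- the level
  obtain ⟨D, hD⟩ : ∃ D : ℝ, D = (Lv N θ : ℝ) / Q0 := ⟨_, rfl⟩
  rw [← hD] at hDl hDu hDp
  have hQ0' : (1 : ℝ) ≤ Q0 := by exact_mod_cast hQ0
  have hDQ : D * (Q0 : ℝ) = (Lv N θ : ℝ) := by
    rw [hD]
    field_simp
  have h3z : Real.log D ≤ 3 * Real.log z' := by
    rw [hlz']
    linarith
  have hz'D : z' ≤ D := by
    rw [← Real.log_le_log_iff hz'pos hDp, hlz']
    have : (1 / 6 : ℝ) * Real.log N ≤ (1 / 2 - ρ / 8) * Real.log N :=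
      mul_le_mul_of_nonneg_right (by linarith) hL.le
    linarith
  obtain ⟨hup, -⟩ := hjr (Pg N w.W H a) hPg z' D (by linarith) hz'D
    (BX M u v) (fun x => wB α x * Fs w H a p1 (some h) (xv N a x)) (fun x => xv N a x + h) X hX0
    (fun x _ => hF0 x)
  have hup := hup h3z
  rw [hDQ] at hup
  have hr := hR.remC h hh M u v α hα hαr hM hu huv hMv z'
  rw [← hX] at hr
  -- the left side is at most the sifted sum
  have hleft : ∑ x ∈ (BX M u v).filter (fun x => a ≤ x.1 * x.2 ∧ (x.1 * x.2 - a + h).Prime ∧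
        (N : ℝ) ^ (1 / 6 : ℝ) ≤ (x.1 * x.2 - a + h : ℕ)),
      wB α x * Fs w H a p1 (some h) (x.1 * x.2 - a) ≤
      H59C.sift (BX M u v) (fun x => wB α x * Fs w H a p1 (some h) (xv N a x))
        (fun x => xv N a x + h) (Pg N w.W H a) z' := by
    have heq : ∑ x ∈ (BX M u v).filter (fun x => a ≤ x.1 * x.2 ∧ (x.1 * x.2 - a + h).Prime ∧
        (N : ℝ) ^ (1 / 6 : ℝ) ≤ (x.1 * x.2 - a + h : ℕ)),
        wB α x * Fs w H a p1 (some h) (x.1 * x.2 - a) =
        ∑ x ∈ (BX M u v).filter (fun x => a ≤ x.1 * x.2 ∧ (x.1 * x.2 - a + h).Prime ∧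
        (N : ℝ) ^ (1 / 6 : ℝ) ≤ (x.1 * x.2 - a + h : ℕ)),
        wB α x * Fs w H a p1 (some h) (xv N a x) := by
      refine sum_congr rfl fun x hx => ?_
      rw [mem_filter] at hx
      rw [s3b_Fs w H N a p1 (some h) (x.1 * x.2 - a) (xv N a x) hPN hWN
        fun q hq1 hq2 => (s3b_xv N a x hx.2.1 q hq1 hq2).symm]
    rw [heq]
    unfold H59C.sift
    apply sum_le_sum_of_subset_of_nonneg
    · intro x hx
      rw [mem_filter] at hx ⊢
      refine ⟨hx.1, ?_⟩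
      intro q hq hqz hdvd
      have hqN : q ≤ N := by
        unfold Pg at hq
        exact (mem_Ioc.1 (mem_filter.1 hq).1).2
      have h2 := (s3b_xv N a x hx.2.1 q (hPg q hq).1.one_lt.le hqN).add_right h
      have h3 : q ∣ x.1 * x.2 - a + h := (h2.dvd_iff dvd_rfl).1 hdvd
      have h5 := (Nat.prime_dvd_prime_iff_eq (hPg q hq).1 hx.2.2.1).mp h3
      have h6 := hx.2.2.2
      rw [← hz', ← h5] at h6
      linarith
    · intro x _ _
      exact hF0 x
  have hbd := hn6 N (by omega) a w.W H hR.cardH (fun h' hh' => by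
    have := hR.HN h' hh'
    omega) (by
    have := hR.aN
    omega) hR.aH
  have hratio := hn2 N (by omega) (Pg N w.W H a) (Bd N w.W H a) (zz N) z' hbd (by
      unfold zz
      apply Real.rpow_le_rpow_of_exponent_le (by linarith) (by norm_num)) hzz' hz'n
    hPg (by
      intro q hq hzq hqz'
      have h1 : w.W < q := by
        have h2 : (w.W : ℝ) < q := by linarith
        exact_mod_cast h2
      have h2 : q ≤ N := by
        have h3 : (q : ℝ) ≤ N := by linarith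
        exact_mod_cast h3
      exact pg_or_bd hq h1 h2)
  -- final computation
  have hlD0 : 0 < Real.log D := by
    have : 0 < (1 / 2 - ρ / 8) * Real.log N := mul_pos (by linarith) hL
    linarith
  have hq34 : Real.log (zz N) / Real.log z' = 3 / 4 := by
    rw [hlz, hlz']
    field_simp
    norm_num
  rw [hq34] at hratio
  have hs : Real.log z' / Real.log D ≤ 1 / 3 * (1 + ρ) := by
    rw [div_le_iff₀ hlD0, hlz']
    have h1 : (1 / 2 - ρ / 8) * Real.log N * (1 / 3 * (1 + ρ)) ≤ Real.log D * (1 / 3 * (1 + ρ)) :=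
      mul_le_mul_of_nonneg_right hDl (by positivity)
    have h2 : 1 / 6 * Real.log N ≤ (1 / 2 - ρ / 8) * Real.log N * (1 / 3 * (1 + ρ)) := by
      have h3 : 1 / 6 ≤ (1 / 2 - ρ / 8) * (1 / 3 * (1 + ρ)) := by nlinarith
      calc 1 / 6 * Real.log N ≤ ((1 / 2 - ρ / 8) * (1 / 3 * (1 + ρ))) * Real.log N :=
            mul_le_mul_of_nonneg_right h3 hL.le
        _ = (1 / 2 - ρ / 8) * Real.log N * (1 / 3 * (1 + ρ)) := by ring
    linarith
  have hfac : AA / (Real.log D / Real.log z') + ε / 8 ≤ AA / 3 * (1 + ρ) + ε / 8 := by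
    have h1 : AA / (Real.log D / Real.log z') = AA * (Real.log z' / Real.log D) := by
      rw [div_div_eq_mul_div, mul_div_assoc]
    rw [h1]
    have := mul_le_mul_of_nonneg_left hs hAA.le
    linarith
  have hvz : Vz N w.W H a = VV (Pg N w.W H a) (zz N) := rfl
  rw [hvz, ← hX]
  calc ∑ x ∈ (BX M u v).filter (fun x => a ≤ x.1 * x.2 ∧ (x.1 * x.2 - a + h).Prime ∧
        (N : ℝ) ^ (1 / 6 : ℝ) ≤ (x.1 * x.2 - a + h : ℕ)),
      wB α x * Fs w H a p1 (some h) (x.1 * x.2 - a)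
      ≤ X * VV (Pg N w.W H a) z' * (AA / (Real.log D / Real.log z') + ε / 8) +
        H59C.remd (BX M u v) (fun x => wB α x * Fs w H a p1 (some h) (xv N a x))
          (fun x => xv N a x + h) (Pg N w.W H a) z' X (Lv N θ) := hleft.trans hup
    _ ≤ X * VV (Pg N w.W H a) z' * (AA / 3 * (1 + ρ) + ε / 8) + N / Real.log N ^ 10 := by
        apply add_le_add _ hr
        exact mul_le_mul_of_nonneg_left hfac (mul_nonneg hX0 (hV _))
    _ ≤ X * ((1 + ρ) * (3 / 4) * VV (Pg N w.W H a) (zz N)) * (AA / 3 * (1 + ρ) + ε / 8) +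
        N / Real.log N ^ 10 := by
        have h1 : X * VV (Pg N w.W H a) z' ≤
            X * ((1 + ρ) * (3 / 4) * VV (Pg N w.W H a) (zz N)) :=
          mul_le_mul_of_nonneg_left hratio hX0
        have h2 := mul_le_mul_of_nonneg_right h1
          (by positivity : 0 ≤ AA / 3 * (1 + ρ) + ε / 8)
        linarith
    _ = X * VV (Pg N w.W H a) (zz N) * ((1 + ρ) * (3 / 4) * (AA / 3 * (1 + ρ) + ε / 8)) +
        N / Real.log N ^ 10 := by ring
    _ ≤ X * VV (Pg N w.W H a) (zz N) * (AA / 4 + ε) + N / Real.log N ^ 10 := by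
        have h1 : (1 + ρ) * (3 / 4) * (AA / 3 * (1 + ρ) + ε / 8) ≤ AA / 4 + ε := by
          have e1 : (1 + ρ) * (3 / 4) * (AA / 3 * (1 + ρ) + ε / 8) =
              AA / 4 + AA * ρ * (1 / 2 + ρ / 4) + (1 + ρ) * (3 / 4) * (ε / 8) := by ring
          rw [e1]
          have e2 : AA * ρ * (1 / 2 + ρ / 4) ≤ ε / 8 * 1 := by
            apply mul_le_mul hρ2 (by linarith) (by positivity) (by linarith)
          have e3 : (1 + ρ) * (3 / 4) * (ε / 8) ≤ 1 * (ε / 8) := by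
            apply mul_le_mul_of_nonneg_right _ (by linarith)
            linarith
          linarith
        have h2 := mul_le_mul_of_nonneg_left h1 (mul_nonneg hX0 (hV (zz N)))
        linarith

end Pool.Agent.Lib.H57T
end
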