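import Pool.Agent.Lib.H1M.RV.M011
import Pool.Agent.Lib.H1M.RV.M046
import Pool.Agent.Lib.H1M.RV.M066
import Pool.Agent.Lib.H1M.RV.M075

/-! Merged copies (to shorten the build) of Lib.H57T.ZW. -/

-- from Lib.H57T.ZW
section

/-!
# Chunk ZW: the weight with removed primes

The construction of the weight (`H15P`, `H57C/X2.lean`) with the primes in a small set `Z` removed. The only new point is the
Mertens product (`mertensZ`): for large `W` the product over the primes in `(a, b]` outside `Z` is still at most `500 log a/log b`.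
-/

open Finset

namespace Pool.Agent.Lib.H57T

open Pool.Agent.Lib.H57C
open Pool.Agent.Lib.H15P hiding cfg
open Pool.Agent.Lib.H92G Pool.Agent.Lib.H57M

/-- The Mertens product without the primes in `Z`. -/
def MZ (W : ℕ) (Z : Finset ℕ) : Prop := ∀ a b : ℕ, W ≤ a → a ≤ b →
  ∏ p ∈ (Ioc a b).filter (fun p => p.Prime ∧ p ∉ Z), (1 - 1 / (p : ℝ)) ≤ 500 * (Real.log a / Real.log b)

/-- Proof. `H59C.mertens`; `1 - x ≤ exp (-x)`; the sum over the primes of `Z` is at most `#Z/W ≤ 1`. -/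
theorem mertensZ : ∃ W0 : ℕ, ∀ W : ℕ, W0 ≤ W → ∀ Z : Finset ℕ, (Z.card : ℝ) ≤ W → MZ W Z := by
  classical
  obtain ⟨C, hC, hmer⟩ := Pool.Agent.Lib.H59C.mertens
  refine ⟨⌈Real.exp C⌉₊ + 3, fun W hW Z hZ a b ha hab => ?_⟩
  have hW3 : (3 : ℝ) ≤ W := by exact_mod_cast (by omega : 3 ≤ W)
  have hWe : Real.exp C ≤ W := by
    refine (Nat.le_ceil _).trans ?_
    exact_mod_cast (by omega : ⌈Real.exp C⌉₊ ≤ W)
  have har : (W : ℝ) ≤ a := by exact_mod_cast ha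
  have habr : (a : ℝ) ≤ b := by exact_mod_cast hab
  have hla : 0 < Real.log a := Real.log_pos (by linarith)
  have hlb : 0 < Real.log b := Real.log_pos (by linarith)
  have hla1 : 0 < Real.log ((a : ℝ) + 1) := Real.log_pos (by linarith)
  have hlb1 : 0 < Real.log ((b : ℝ) + 1) := Real.log_pos (by linarith)
  have hCl : C / Real.log ((a : ℝ) + 1) ≤ 1 := by
    rw [div_le_one hla1, Real.le_log_iff_exp_le (by linarith)]
    linarith
  have h2a : Real.log ((a : ℝ) + 1) ≤ 2 * Real.log a := by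
    have h1 : (a : ℝ) + 1 ≤ (a : ℝ) ^ 2 := by nlinarith
    have h2 := Real.log_le_log (by linarith) h1
    rw [Real.log_pow] at h2
    exact_mod_cast h2
  set S := (Ioc a b).filter (fun p => p.Prime ∧ p ∉ Z) with hS
  have h1 : ∏ p ∈ S, (1 - 1 / (p : ℝ)) ≤ Real.exp (-∑ p ∈ S, 1 / (p : ℝ)) := by
    rw [← Finset.sum_neg_distrib, Real.exp_sum]
    refine Finset.prod_le_prod (fun p hp => ?_) fun p hp => Real.one_sub_le_exp_neg _
    rw [hS, Finset.mem_filter] at hp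
    exact (NT1_pos p hp.2.1).le
  have hsub : Pool.Agent.Lib.H59C.PR ((a : ℝ) + 1) ((b : ℝ) + 1) ⊆ S ∪ (Ioc a b).filter (fun p => p ∈ Z) := by
    intro p hp
    rw [Pool.Agent.Lib.H59C.mem_PR] at hp
    obtain ⟨hp1, hp2, hp3⟩ := hp
    have e1 : a + 1 ≤ p := by
      have : ((a + 1 : ℕ) : ℝ) ≤ p := by push_cast; exact hp2
      exact_mod_cast this
    have e2 : p < b + 1 := by
      have : (p : ℝ) < ((b + 1 : ℕ) : ℝ) := by push_cast; exact hp3
      exact_mod_cast this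
    rw [Finset.mem_union, hS, Finset.mem_filter, Finset.mem_filter, Finset.mem_Ioc]
    by_cases hz : p ∈ Z
    · exact Or.inr ⟨⟨by omega, by omega⟩, hz⟩
    · exact Or.inl ⟨⟨by omega, by omega⟩, hp1, hz⟩
  have hZs : ∑ p ∈ (Ioc a b).filter (fun p => p ∈ Z), 1 / (p : ℝ) ≤ 1 := by
    have e1 : ∀ p ∈ (Ioc a b).filter (fun p => p ∈ Z), 1 / (p : ℝ) ≤ 1 / (W : ℝ) := by
      intro p hp
      rw [Finset.mem_filter, Finset.mem_Ioc] at hp
      refine one_div_le_one_div_of_le (by linarith) ?_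
      exact_mod_cast (by omega : W ≤ p)
    have e2 := Finset.sum_le_card_nsmul _ _ _ e1
    rw [nsmul_eq_mul] at e2
    have e3 : ((Ioc a b).filter (fun p => p ∈ Z)).card ≤ Z.card := by
      refine Finset.card_le_card fun p hp => ?_
      exact (Finset.mem_filter.1 hp).2
    have e4 : (((Ioc a b).filter (fun p => p ∈ Z)).card : ℝ) ≤ W := by
      refine le_trans ?_ hZ
      exact_mod_cast e3
    refine e2.trans ?_
    rw [mul_one_div, div_le_one (by linarith)]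
    exact e4
  have hsum : ∑ p ∈ Pool.Agent.Lib.H59C.PR ((a : ℝ) + 1) ((b : ℝ) + 1), 1 / (p : ℝ) ≤
      ∑ p ∈ S, 1 / (p : ℝ) + 1 := by
    refine (Finset.sum_le_sum_of_subset_of_nonneg hsub fun q _ _ => by positivity).trans ?_
    have h3 := Finset.sum_union_inter (s₁ := S) (s₂ := (Ioc a b).filter (fun p => p ∈ Z))
      (f := fun q : ℕ => 1 / (q : ℝ))
    have h4 : 0 ≤ ∑ q ∈ S ∩ (Ioc a b).filter (fun p => p ∈ Z), 1 / (q : ℝ) :=
      Finset.sum_nonneg fun q _ => by positivity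
    linarith
  have hm := (abs_le.1 (hmer ((a : ℝ) + 1) ((b : ℝ) + 1) (by linarith) (by linarith))).1
  have h5 : -∑ p ∈ S, 1 / (p : ℝ) ≤
      Real.log (Real.log ((a : ℝ) + 1)) - Real.log (Real.log ((b : ℝ) + 1)) + (1 + 1) := by linarith
  refine (h1.trans (Real.exp_le_exp.2 h5)).trans ?_
  rw [Real.exp_add, Real.exp_sub, Real.exp_log hla1, Real.exp_log hlb1, Real.exp_add]
  have he : Real.exp 1 * Real.exp 1 ≤ 9 := by
    have := Real.exp_one_lt_d9
    have h0 := Real.exp_pos 1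
    nlinarith
  have hlbb : Real.log b ≤ Real.log ((b : ℝ) + 1) := Real.log_le_log (by linarith) (by linarith)
  have h6 : Real.log ((a : ℝ) + 1) / Real.log ((b : ℝ) + 1) ≤ 2 * Real.log a / Real.log b :=
    div_le_div₀ (by positivity) h2a hlb hlbb
  calc Real.log ((a : ℝ) + 1) / Real.log ((b : ℝ) + 1) * (Real.exp 1 * Real.exp 1)
      ≤ 2 * Real.log a / Real.log b * 9 := mul_le_mul h6 he (by positivity) (by positivity)
    _ = 18 * (Real.log a / Real.log b) := by ring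
    _ ≤ 500 * (Real.log a / Real.log b) := mul_le_mul_of_nonneg_right (by norm_num) (by positivity)

/-- The primes `p` with `W < p`, `log p ≤ T`, which are not in `Z`. -/
noncomputable def PZ (W : ℕ) (T : ℝ) (Z : Finset ℕ) : Finset ℕ := (PP W T).filter (fun p => p ∉ Z)

theorem PZ_sub {W : ℕ} {T : ℝ} {Z : Finset ℕ} {p : ℕ} (hp : p ∈ PZ W T Z) : p ∈ PP W T :=
  (Finset.mem_filter.1 hp).1

theorem pz_prime (W : ℕ) (T : ℝ) (Z : Finset ℕ) : ∀ p ∈ PZ W T Z, p.Prime := fun p hp =>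
  mk2_prime W T p (PZ_sub hp)

theorem pz_big (W : ℕ) (T : ℝ) (Z : Finset ℕ) : ∀ p ∈ PZ W T Z, W < p := fun p hp =>
  mk1_big W T p (PZ_sub hp)

section

variable (κ W K : ℕ) (T : ℝ) (Z : Finset ℕ)

theorem pz_mem (p : ℕ) (hp : p ∈ PZ W T Z) : p.Prime ∧ W < p ∧ Real.log p ≤ T :=
  NT2_mem W T p (PZ_sub hp)

/-- If the block is empty the left side is `1`. Otherwise it has a prime `≥ 2`, all its primes are
`≤ y = exp (T/κ^b)`, `y ≥ 2`, and `1 + Σ_{m ≤ y} m ≤ y^3`. -/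
theorem XB_leZ (hκ : 2 ≤ κ) (hT : 0 ≤ T) (b : ℕ) :
    1 + XB (fun i : {p // p ∈ PZ W T Z} => i.1) (fun i => bk κ T i.1) b
      ≤ Real.exp (3 * (T / κ ^ b)) := by
  set y : ℝ := Real.exp (T / (κ : ℝ) ^ b) with hy
  have hy1 : 1 ≤ y := Real.one_le_exp (by positivity)
  have hy3 : Real.exp (3 * (T / (κ : ℝ) ^ b)) = y ^ 3 := by
    rw [hy, ← Real.exp_nat_mul]
    push_cast
    rfl
  rw [hy3]
  unfold XB
  rcases (univ.filter (fun i : {p // p ∈ PZ W T Z} => bk κ T i.1 = b)).eq_empty_or_nonempty with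
    h | ⟨i0, hi0⟩
  · rw [h, sum_empty, add_zero]
    exact one_le_pow₀ hy1
  · have hle : ∀ i ∈ univ.filter (fun i : {p // p ∈ PZ W T Z} => bk κ T i.1 = b),
        (i.1 : ℝ) ≤ y := by
      intro i hi
      obtain ⟨h1, h2, h3⟩ := pz_mem W T Z i.1 i.2
      have h4 := NT2_log_le κ T hκ i.1 h1 h3
      rw [(mem_filter.1 hi).2] at h4
      rw [hy]
      exact (Real.log_le_iff_le_exp (by exact_mod_cast h1.pos)).1 h4
    have hy2 : 2 ≤ y := by
      have h1 := hle i0 hi0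
      have h2 : (2 : ℝ) ≤ i0.1 := by exact_mod_cast (pz_mem W T Z i0.1 i0.2).1.two_le
      linarith
    have hsum : ∑ i ∈ univ.filter (fun i : {p // p ∈ PZ W T Z} => bk κ T i.1 = b), (i.1 : ℝ) ≤
        ∑ m ∈ range (⌊y⌋₊ + 1), (m : ℝ) := by
      have e1 : ∑ i ∈ univ.filter (fun i : {p // p ∈ PZ W T Z} => bk κ T i.1 = b), (i.1 : ℝ) =
          ∑ m ∈ (univ.filter (fun i : {p // p ∈ PZ W T Z} => bk κ T i.1 = b)).map
            (Function.Embedding.subtype _), (m : ℝ) := by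
        rw [sum_map]
        rfl
      rw [e1]
      refine sum_le_sum_of_subset_of_nonneg ?_ fun _ _ _ => Nat.cast_nonneg _
      intro m hm
      rw [mem_map] at hm
      obtain ⟨i, hi, rfl⟩ := hm
      rw [mem_range]
      exact Nat.lt_succ_of_le (Nat.le_floor (hle i hi))
    have hgauss : ∀ n : ℕ, ∑ m ∈ range (n + 1), (m : ℝ) = (n : ℝ) * (n + 1) / 2 := by
      intro n
      induction n with
      | zero => simp
      | succ n ih =>
        rw [sum_range_succ, ih]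
        push_cast
        ring
    rw [hgauss] at hsum
    have hfl : ((⌊y⌋₊ : ℕ) : ℝ) ≤ y := Nat.floor_le (by linarith)
    have hfl0 : (0 : ℝ) ≤ (⌊y⌋₊ : ℕ) := Nat.cast_nonneg _
    have h5 : ((⌊y⌋₊ : ℕ) : ℝ) * ((⌊y⌋₊ : ℕ) + 1) ≤ y * (y + 1) :=
      mul_le_mul hfl (by linarith) (by positivity) (by linarith)
    have h6 : 1 + y * (y + 1) / 2 ≤ y ^ 3 := by nlinarith [mul_nonneg (by linarith : 0 ≤ y - 2) (sq_nonneg y)]
    linarith

/-- `Σ_{b ≥ i} 2 (r0 + b - i) 3 T/κ^b ≤ 6 (T/κ^i) Σ_c (r0 + c) 2^-c ≤ 12 (r0 + 1) T/κ^i`. -/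
theorem prod_XB_leZ (hκ : 2 ≤ κ) (hT : 0 ≤ T) (r0 i N : ℕ) :
    ∏ b ∈ Ico i N,
        (1 + XB (fun i : {p // p ∈ PZ W T Z} => i.1) (fun i => bk κ T i.1) b) ^ (2 * (r0 + (b - i)))
      ≤ Real.exp (12 * ((r0 : ℝ) + 1) * (T / κ ^ i)) := by
  have hκ2 : (2 : ℝ) ≤ κ := by exact_mod_cast hκ
  set U : ℝ := T / (κ : ℝ) ^ i with hU
  have hU0 : 0 ≤ U := by positivity
  rw [prod_Ico_eq_prod_range]
  have hterm : ∀ c ∈ range (N - i),
      (1 + XB (fun i : {p // p ∈ PZ W T Z} => i.1) (fun i => bk κ T i.1) (i + c)) ^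
        (2 * (r0 + (i + c - i))) ≤ Real.exp (6 * U * (((r0 : ℝ) + c) / 2 ^ c)) := by
    intro c _
    have hXB0 : 0 ≤ XB (fun i : {p // p ∈ PZ W T Z} => i.1) (fun i => bk κ T i.1) (i + c) := by
      unfold XB
      exact sum_nonneg fun _ _ => Nat.cast_nonneg _
    have h1 := pow_le_pow_left₀ (by linarith) (XB_leZ κ W T Z hκ hT (i + c)) (2 * (r0 + (i + c - i)))
    refine h1.trans ?_
    rw [← Real.exp_nat_mul]
    refine Real.exp_le_exp.2 ?_
    have h2 : i + c - i = c := by omega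
    rw [h2]
    push_cast
    have h3 : T / (κ : ℝ) ^ (i + c) = U / (κ : ℝ) ^ c := by
      rw [hU, pow_add, div_div]
    rw [h3]
    have h4 : U / (κ : ℝ) ^ c ≤ U / 2 ^ c :=
      div_le_div_of_nonneg_left hU0 (by positivity) (pow_le_pow_left₀ (by norm_num) hκ2 c)
    have h5 : 2 * ((r0 : ℝ) + c) * (3 * (U / (κ : ℝ) ^ c)) ≤
        2 * ((r0 : ℝ) + c) * (3 * (U / 2 ^ c)) :=
      mul_le_mul_of_nonneg_left (by linarith) (by positivity)
    refine h5.trans (le_of_eq ?_)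
    ring
  refine (prod_le_prod (fun c _ => ?_) hterm).trans ?_
  · have hXB0 : 0 ≤ XB (fun i : {p // p ∈ PZ W T Z} => i.1) (fun i => bk κ T i.1) (i + c) := by
      unfold XB
      exact sum_nonneg fun _ _ => Nat.cast_nonneg _
    exact pow_nonneg (by linarith) _
  · rw [← Real.exp_sum, ← mul_sum]
    refine Real.exp_le_exp.2 ?_
    have hS : ∀ n : ℕ, ∑ c ∈ range n, ((r0 : ℝ) + c) / 2 ^ c =
        2 * ((r0 : ℝ) + 1) - 2 * ((r0 : ℝ) + n + 1) / 2 ^ n := by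
      intro n
      induction n with
      | zero => simp
      | succ n ih =>
        rw [sum_range_succ, ih, pow_succ]
        push_cast
        field_simp
        ring
    rw [hS]
    have h6 : 0 ≤ 2 * ((r0 : ℝ) + (N - i : ℕ) + 1) / 2 ^ (N - i) := by positivity
    have h7 := mul_nonneg hU0 h6
    nlinarith

/-- `qq/(1 - qq) = (1/p + 2K/p^2)/(1 - 1/p) ≤ 4/p`. In a block the logarithms of two primes differ
at most by the factor `κ`; with `a` = the smallest and `b` = the largest prime of the block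
`Σ 1/p ≤ 1/a + log (500 κ) ≤ log (1000 κ)`. -/
theorem block_sum_leZ (hκ : 2 ≤ κ) (hW : 2 ≤ W) (hK : 1 ≤ K) (hKW : 4 * K ^ 2 ≤ W)
    (hT : 0 ≤ T) (b : ℕ) :
    ∑ i ∈ univ.filter (fun i : {p // p ∈ PZ W T Z} => bk κ T i.1 = b),
        qq (PZ W T Z) K i / (1 - qq (PZ W T Z) K i) ≤ 4 * Real.log (1000 * κ) := by
  have hκ2 : (2 : ℝ) ≤ κ := by exact_mod_cast hκ
  have h1 : ∑ i ∈ univ.filter (fun i : {p // p ∈ PZ W T Z} => bk κ T i.1 = b),
        qq (PZ W T Z) K i / (1 - qq (PZ W T Z) K i) ≤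
      ∑ i ∈ univ.filter (fun i : {p // p ∈ PZ W T Z} => bk κ T i.1 = b), 4 * (1 / (i.1 : ℝ)) := by
    refine sum_le_sum fun i _ => ?_
    obtain ⟨h1, h2, -⟩ := pz_mem W T Z i.1 i.2
    exact (NT1_frac W K hK hKW i.1 h1 h2).1
  refine h1.trans ?_
  rw [← mul_sum]
  refine mul_le_mul_of_nonneg_left ?_ (by norm_num)
  have h2 : ∑ i ∈ univ.filter (fun i : {p // p ∈ PZ W T Z} => bk κ T i.1 = b), 1 / (i.1 : ℝ) =
      ∑ p ∈ (PZ W T Z).filter (fun p => bk κ T p = b), 1 / (p : ℝ) := by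
    rw [sum_filter, sum_filter]
    exact Finset.sum_coe_sort (PZ W T Z) (fun p => if bk κ T p = b then 1 / (p : ℝ) else 0)
  rw [h2]
  set B := (PZ W T Z).filter (fun p => bk κ T p = b) with hB
  have hmem : ∀ p ∈ B, p.Prime ∧ W < p ∧ Real.log p ≤ T ∧ bk κ T p = b := by
    intro p hp
    rw [hB, mem_filter] at hp
    obtain ⟨h1, h2, h3⟩ := pz_mem W T Z p hp.1
    exact ⟨h1, h2, h3, hp.2⟩
  rcases B.eq_empty_or_nonempty with h | h
  · rw [h, sum_empty]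
    exact Real.log_nonneg (by linarith)
  · set a := B.min' h with ha
    set c := B.max' h with hc
    obtain ⟨a1, a2, a3, a4⟩ := hmem a (B.min'_mem h)
    obtain ⟨c1, c2, c3, c4⟩ := hmem c (B.max'_mem h)
    have hac : a ≤ c := B.min'_le_max' h
    have ha2 : 2 ≤ a := a1.two_le
    have hloga : 0 < Real.log a := Real.log_pos (by exact_mod_cast (by omega : 1 < a))
    have hlogc : 0 < Real.log c := Real.log_pos (by exact_mod_cast (by omega : 1 < c))
    have hsa := (bk_spec κ T hκ a a1 a3).2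
    have hsc := (bk_spec κ T hκ c c1 c3).1
    rw [a4, div_lt_iff₀ hloga] at hsa
    rw [c4, le_div_iff₀ hlogc] at hsc
    have hratio : Real.log c / Real.log a ≤ κ := by
      rw [div_le_iff₀ hloga]
      have h3 : (κ : ℝ) ^ b * Real.log c ≤ (κ : ℝ) ^ b * (κ * Real.log a) := by
        rw [pow_succ] at hsa
        linarith
      exact le_of_mul_le_mul_left h3 (by positivity)
    have hsub : B ⊆ insert a ((Ioc a c).filter Nat.Prime) := by
      intro p hp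
      rw [mem_insert, mem_filter, mem_Ioc]
      have h3 := B.min'_le p hp
      have h4 := B.le_max' p hp
      rcases eq_or_lt_of_le h3 with h5 | h5
      · exact Or.inl h5.symm
      · exact Or.inr ⟨⟨h5, h4⟩, (hmem p hp).1⟩
    have h3 : ∑ p ∈ B, 1 / (p : ℝ) ≤ 1 / (a : ℝ) + ∑ p ∈ (Ioc a c).filter Nat.Prime, 1 / (p : ℝ) := by
      refine (sum_le_sum_of_subset_of_nonneg hsub fun _ _ _ => by positivity).trans (le_of_eq ?_)
      rw [sum_insert]
      rw [mem_filter, mem_Ioc]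
      omega
    have h4 := mertens_sum_le a c ha2 hac
    have h5 : Real.log (500 * (Real.log c / Real.log a)) ≤ Real.log (500 * κ) :=
      Real.log_le_log (by positivity) (by linarith)
    have h6 : Real.log (1000 * (κ : ℝ)) = Real.log 2 + Real.log (500 * κ) := by
      rw [← Real.log_mul (by norm_num) (by positivity)]
      congr 1
      ring
    have h7 : 1 / (a : ℝ) ≤ 1 / 2 := one_div_le_one_div_of_le (by norm_num) (by exact_mod_cast ha2)
    have h8 := Real.log_two_gt_d9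
    rw [h6]
    linarith

/-- The block consists of all primes in `(⌊exp (T/κ^(b+1))⌋, ⌊exp (T/κ^b)⌋]`, because
`W ≤ exp (T/κ^(b+1))`; `1 - qq ≤ 1 - 1/p`, `mertens_prod_le`, and
`log ⌊exp y⌋ ≥ y - log 2 ≥ y/2` for `y ≥ 2`. -/
theorem p0_leZ (hMZ : MZ W Z) (hκ : 2 ≤ κ) (hW : 2 ≤ W) (hK : 1 ≤ K) (hKW : 4 * K ^ 2 ≤ W) (b : ℕ)
    (hT : Real.log W ≤ T / κ ^ (b + 1)) (hT2 : 2 ≤ T / κ ^ b) :
    p0 (qq (PZ W T Z) K) (fun i => bk κ T i.1) b ≤ 1000 / κ := by
  have hκ2 : (2 : ℝ) ≤ κ := by exact_mod_cast hκ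
  have hκ0 : (0 : ℝ) < κ := by linarith
  have hκb : (0 : ℝ) < (κ : ℝ) ^ b := by positivity
  have hT0 : 0 < T := by
    rw [le_div_iff₀ hκb] at hT2
    linarith
  have hTb : T / (κ : ℝ) ^ b ≤ T :=
    div_le_self hT0.le (one_le_pow₀ (by linarith))
  set y : ℝ := T / (κ : ℝ) ^ b with hy
  set y' : ℝ := T / (κ : ℝ) ^ (b + 1) with hy'
  have hyy : y' = y / κ := by rw [hy, hy', pow_succ, div_div]
  have hW2 : (2 : ℝ) ≤ W := by exact_mod_cast hW
  have hWexp : (W : ℝ) ≤ Real.exp y' := (Real.log_le_iff_le_exp (by linarith)).1 hT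
  have hWa : W ≤ ⌊Real.exp y'⌋₊ := Nat.le_floor hWexp
  have hy'y : y' ≤ y := by
    rw [hyy]
    exact div_le_self (by linarith) (by linarith)
  have hac : ⌊Real.exp y'⌋₊ ≤ ⌊Real.exp y⌋₊ := Nat.floor_le_floor (Real.exp_le_exp.2 hy'y)
  have hm := hMZ ⌊Real.exp y'⌋₊ ⌊Real.exp y⌋₊ hWa hac
  obtain ⟨f1, f2, f3⟩ := NT1_floor y hT2
  have hloga : Real.log (⌊Real.exp y'⌋₊ : ℕ) ≤ y' := by
    have h1 : (2 : ℝ) ≤ (⌊Real.exp y'⌋₊ : ℕ) := by exact_mod_cast hW.trans hWa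
    rw [Real.log_le_iff_le_exp (by linarith)]
    exact Nat.floor_le (Real.exp_pos _).le
  have h5 : 500 * (Real.log (⌊Real.exp y'⌋₊ : ℕ) / Real.log (⌊Real.exp y⌋₊ : ℕ)) ≤ 1000 / κ := by
    have h6 : Real.log (⌊Real.exp y'⌋₊ : ℕ) / Real.log (⌊Real.exp y⌋₊ : ℕ) ≤ y' / (y / 2) :=
      div_le_div₀ (by rw [hyy]; positivity) hloga (by linarith) f1
    have h7 : y' / (y / 2) = 2 / κ := by
      rw [hyy]
      have : y ≠ 0 := by linarith
      field_simp
    rw [h7] at h6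
    calc _ ≤ 500 * (2 / (κ : ℝ)) := by linarith
      _ = _ := by ring
  refine le_trans ?_ (hm.trans h5)
  unfold p0
  have h8 := NT1_prod_coe (PZ W T Z) (fun p => 1 - (1 / (p : ℝ) + 2 * K / (p : ℝ) ^ 2) /
    (1 + 2 * K / (p : ℝ) ^ 2)) (fun p => bk κ T p = b)
  refine (le_of_eq h8).trans (NT1_mono _ _ ?_ _ _ ?_ ?_ ?_)
  · intro p hp
    rw [mem_filter, mem_Ioc] at hp
    obtain ⟨⟨g1, g2⟩, g3, g4⟩ := hp
    have hlogp : 0 < Real.log p := Real.log_pos (by exact_mod_cast g3.one_lt)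
    have e1 : y' < Real.log p := by
      rw [Real.lt_log_iff_exp_lt (by exact_mod_cast g3.pos)]
      exact (Nat.floor_lt (Real.exp_pos _).le).1 g1
    have e2 : Real.log p ≤ y := by
      rw [Real.log_le_iff_le_exp (by exact_mod_cast g3.pos)]
      exact (Nat.le_floor_iff (Real.exp_pos _).le).1 g2
    rw [mem_filter]
    constructor
    · unfold PZ PP
      rw [mem_filter, mem_filter, mem_Ioc]
      refine ⟨⟨⟨by omega, Nat.le_floor ?_⟩, g3⟩, g4⟩
      rw [← Real.log_le_iff_le_exp (by exact_mod_cast g3.pos)]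
      linarith
    · refine NT1_bk κ T hκ p b ?_ ?_
      · rw [le_div_iff₀ hlogp]
        rw [hy, le_div_iff₀ hκb] at e2
        linarith
      · rw [div_lt_iff₀ hlogp]
        rw [hy', div_lt_iff₀ (by positivity)] at e1
        linarith
  · intro p hp
    obtain ⟨h1, h2, -⟩ := pz_mem W T Z p (mem_filter.1 hp).1
    exact (NT1_frac W K hK hKW p h1 h2).2.2
  · intro p hp
    obtain ⟨h1, h2, -⟩ := pz_mem W T Z p (mem_filter.1 hp).1
    exact (NT1_frac W K hK hKW p h1 h2).2.1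
  · intro p _
    have : 0 ≤ 1 / (p : ℝ) := by positivity
    linarith

/-- The blocks `i, .., N - 1` contain all primes in `(W, ⌊exp (T/κ^i)⌋]`. -/
theorem prod_p0_leZ (hMZ : MZ W Z) (hκ : 2 ≤ κ) (hW : 2 ≤ W) (hK : 1 ≤ K) (hKW : 4 * K ^ 2 ≤ W) (i N : ℕ)
    (hN : ∀ p ∈ PZ W T Z, bk κ T p < N)
    (hT : Real.log W ≤ T / κ ^ i) (hT2 : 2 ≤ T / κ ^ i) :
    ∏ b ∈ Ico i N, p0 (qq (PZ W T Z) K) (fun i => bk κ T i.1) b
      ≤ 1000 * Real.log W * κ ^ i / T := by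
  have hκ2 : (2 : ℝ) ≤ κ := by exact_mod_cast hκ
  have hκ0 : (0 : ℝ) < κ := by linarith
  have hκb : (0 : ℝ) < (κ : ℝ) ^ i := by positivity
  have hT0 : 0 < T := by
    rw [le_div_iff₀ hκb] at hT2
    linarith
  have hTb : T / (κ : ℝ) ^ i ≤ T :=
    div_le_self hT0.le (one_le_pow₀ (by linarith))
  set y : ℝ := T / (κ : ℝ) ^ i with hy
  have hW2 : (2 : ℝ) ≤ W := by exact_mod_cast hW
  have hWexp : (W : ℝ) ≤ Real.exp y := (Real.log_le_iff_le_exp (by linarith)).1 hT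
  have hWa : W ≤ ⌊Real.exp y⌋₊ := Nat.le_floor hWexp
  have hm := hMZ W ⌊Real.exp y⌋₊ le_rfl hWa
  obtain ⟨f1, f2, f3⟩ := NT1_floor y hT2
  have hlogW : 0 < Real.log W := Real.log_pos (by linarith)
  have h5 : 500 * (Real.log W / Real.log (⌊Real.exp y⌋₊ : ℕ)) ≤
      1000 * Real.log W * (κ : ℝ) ^ i / T := by
    have h6 : Real.log W / Real.log (⌊Real.exp y⌋₊ : ℕ) ≤ Real.log W / (y / 2) :=
      div_le_div_of_nonneg_left hlogW.le (by linarith) f1
    have h7 : 500 * (Real.log W / (y / 2)) = 1000 * Real.log W * (κ : ℝ) ^ i / T := by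
      rw [hy]
      field_simp
      ring
    linarith
  refine le_trans ?_ (hm.trans h5)
  have h8 : ∀ b, p0 (qq (PZ W T Z) K) (fun i => bk κ T i.1) b =
      ∏ p ∈ (PZ W T Z).filter (fun p => bk κ T p = b),
        (1 - (1 / (p : ℝ) + 2 * K / (p : ℝ) ^ 2) / (1 + 2 * K / (p : ℝ) ^ 2)) := fun b =>
    NT1_prod_coe (PZ W T Z) (fun p => 1 - (1 / (p : ℝ) + 2 * K / (p : ℝ) ^ 2) /
    (1 + 2 * K / (p : ℝ) ^ 2)) (fun p => bk κ T p = b)
  simp only [h8]
  have h9 : ∏ b ∈ Ico i N, ∏ p ∈ (PZ W T Z).filter (fun p => bk κ T p = b),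
        (1 - (1 / (p : ℝ) + 2 * K / (p : ℝ) ^ 2) / (1 + 2 * K / (p : ℝ) ^ 2)) =
      ∏ p ∈ (PZ W T Z).filter (fun p => bk κ T p ∈ Ico i N),
        (1 - (1 / (p : ℝ) + 2 * K / (p : ℝ) ^ 2) / (1 + 2 * K / (p : ℝ) ^ 2)) := by
    rw [← prod_fiberwise_of_maps_to (s := (PZ W T Z).filter (fun p => bk κ T p ∈ Ico i N))
      (t := Ico i N) (g := bk κ T) (fun p hp => (mem_filter.1 hp).2)]
    refine prod_congr rfl fun b hb => ?_
    rw [filter_filter]
    refine prod_congr ?_ fun _ _ => rfl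
    ext p
    rw [mem_filter, mem_filter]
    constructor
    · rintro ⟨g1, g2⟩
      exact ⟨g1, by rw [g2]; exact hb, g2⟩
    · rintro ⟨g1, -, g2⟩
      exact ⟨g1, g2⟩
  rw [h9]
  refine NT1_mono _ _ ?_ _ _ ?_ ?_ ?_
  · intro p hp
    rw [mem_filter, mem_Ioc] at hp
    obtain ⟨⟨g1, g2⟩, g3, g4⟩ := hp
    have hlogp : 0 < Real.log p := Real.log_pos (by exact_mod_cast g3.one_lt)
    have e2 : Real.log p ≤ y := by
      rw [Real.log_le_iff_le_exp (by exact_mod_cast g3.pos)]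
      exact (Nat.le_floor_iff (Real.exp_pos _).le).1 g2
    have hpP : p ∈ PZ W T Z := by
      unfold PZ PP
      rw [mem_filter, mem_filter, mem_Ioc]
      refine ⟨⟨⟨by omega, Nat.le_floor ?_⟩, g3⟩, g4⟩
      rw [← Real.log_le_iff_le_exp (by exact_mod_cast g3.pos)]
      linarith
    rw [mem_filter, mem_Ico]
    refine ⟨hpP, ?_, hN p hpP⟩
    have e3 := (bk_spec κ T hκ p g3 (by linarith)).2
    have e4 : (κ : ℝ) ^ i ≤ T / Real.log p := by
      rw [le_div_iff₀ hlogp]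
      rw [hy, le_div_iff₀ hκb] at e2
      linarith
    have e5 : (κ : ℝ) ^ i < (κ : ℝ) ^ (bk κ T p + 1) := lt_of_le_of_lt e4 e3
    have e6 := (pow_lt_pow_iff_right₀ (by linarith : (1 : ℝ) < κ)).1 e5
    omega
  · intro p hp
    obtain ⟨h1, h2, -⟩ := pz_mem W T Z p (mem_filter.1 hp).1
    exact (NT1_frac W K hK hKW p h1 h2).2.2
  · intro p hp
    obtain ⟨h1, h2, -⟩ := pz_mem W T Z p (mem_filter.1 hp).1
    exact (NT1_frac W K hK hKW p h1 h2).2.1
  · intro p _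
    have : 0 ≤ 1 / (p : ℝ) := by positivity
    linarith

end

/-- Chunk MK1. `block_sum_le`, `p0_le` (`1000/4000 = 1/4`; for `b < n`:
`T/κ^(b+1) ≥ T/κ^n`), `qq ≤ 2/p ≤ 1/2`, and `4000^n ≤ T/2` gives `n ≤ N`. -/
theorem blocks_okZ (W K n r0 : ℕ) (T : ℝ) (Z : Finset ℕ) (hMZ : MZ W Z) (hW : 2 ≤ W) (hK : 1 ≤ K) (hKW : 4 * K ^ 2 ≤ W)
    (hr0 : ∀ c S : ℕ, ∑ s ∈ Ioc (2 * (r0 + c)) S, (16 * sig) ^ s / (s.factorial : ℝ)
      ≤ (1 / 4) ^ (c + 1))
    (hT1 : Real.log W ≤ T / 4000 ^ n) (hT2 : 2 ≤ T / 4000 ^ n) :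
    Blocks (qq (PZ W T Z) K) (fun i => bk 4000 T i.1) sig r0 n (Nat.log 4000 ⌊2 * T⌋₊ + 1) := by
  have hT := mk1_Tpos hT2
  have h4 : (0 : ℝ) < 4000 ^ n := by positivity
  refine ⟨fun i => qq_nonneg _ _ i, ?_, ?_, hr0, ?_, ?_⟩
  · intro i
    have h1 := qq_le (PZ W T Z) W K hK hKW (pz_big W T Z) i
    refine h1.trans ?_
    have h2 := pz_big W T Z i.1 i.2
    have h3 : 4 ≤ W := by nlinarith
    have h5 : (4 : ℝ) ≤ (i.1 : ℝ) := by
      have : 4 ≤ i.1 := by omega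
      exact_mod_cast this
    rw [div_le_iff₀ (by linarith)]
    linarith
  · intro b
    exact block_sum_leZ 4000 W K T Z (by norm_num) hW hK hKW (by linarith) b
  · have h1 : (4000 : ℕ) ^ n ≤ ⌊2 * T⌋₊ := by
      apply Nat.le_floor
      push_cast
      linarith
    have h2 : n ≤ Nat.log 4000 ⌊2 * T⌋₊ := Nat.le_log_of_pow_le (by norm_num) h1
    omega
  · intro b hb
    have h1 := p0_leZ 4000 W K T Z hMZ (by norm_num) hW hK hKW b
      (hT1.trans (mk1_div_le hT2 (by omega))) (hT2.trans (mk1_div_le hT2 (by omega)))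
    refine h1.trans ?_
    norm_num

theorem X2_coreZ (n W r0 : ℕ) (T c lv : ℝ) (Z : Finset ℕ) (hMZ : MZ W Z) (hKW : 4 * (4000 ^ n) ^ 2 ≤ W)
    (hr0 : ∀ c S : ℕ, ∑ s ∈ Ioc (2 * (r0 + c)) S, (16 * sig) ^ s / (s.factorial : ℝ)
      ≤ (1 / 4) ^ (c + 1))
    (hT1 : Real.log W ≤ T / 4000 ^ n) (hT2 : 2 ≤ T / 4000 ^ n) (hc0 : 0 ≤ c)
    (hlog : 0 < Real.log W)
    (hc : c ^ 2 * (8000 * 4000 ^ n * Real.log W) = T) (hlv1 : 1 ≤ lv)
    (hlv : 3 * ((n : ℝ) * (4000 ^ n : ℕ) + 1) ^ (∑ i : Fin n, R1_m i) *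
      ∏ i : Fin n, ((1 + 4 * c) * Real.exp (12 * ((r0 : ℝ) + 1) * (T / 4000 ^ (i : ℕ)))) ^
        R1_m i ≤ lv) :
    ∃ w : Par (4000 ^ n), w.n = n ∧ w.W = W ∧ w.P = PZ W T Z ∧ w.Dt = 32 * Real.exp (4 * sig) ∧
      w.lv = lv ∧ w.h = 144 * (c ^ 2 + c ^ 4) ∧ w.c = c ∧
      (∀ i : Fin w.n, w.m i = R1_m i) ∧ ∀ i : Fin w.n, Ex1 w.P (w.D i) (2 * c)
        (Real.exp (12 * ((r0 : ℝ) + 1) * (T / 4000 ^ (i : ℕ)))) := by
  have hK1 : 1 ≤ 4000 ^ n := Nat.one_le_pow _ _ (by norm_num)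
  have hW2 : 2 ≤ W := by nlinarith
  have hT := mk1_Tpos hT2
  have h4n : (1 : ℝ) ≤ 4000 ^ n := one_le_pow₀ (by norm_num)
  have hTpos : 0 < T := by linarith
  have hBl := blocks_okZ W (4000 ^ n) n r0 T Z hMZ hW2 hK1 hKW hr0 hT1 hT2
  set K := 4000 ^ n with hK
  set P := PZ W T Z with hP
  set N := Nat.log 4000 ⌊2 * T⌋₊ + 1 with hN
  set q := qq P K with hq
  set blk : {p // p ∈ P} → ℕ := fun i => bk 4000 T i.1 with hblk
  have hprime : ∀ p ∈ P, p.Prime := pz_prime W T Z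
  have hNb : ∀ p ∈ PZ W T Z, bk 4000 T p < N := fun p hp => bk_lt 4000 W T hTpos.le p (PZ_sub hp)
  have hp0 : ∀ i, i ≤ n → ∏ b ∈ Ico i N, p0 q blk b ≤ 1000 * Real.log W * 4000 ^ i / T := by
    intro i hi
    have h1 := prod_p0_leZ 4000 W K T Z hMZ (by norm_num) hW2 hK1 hKW i N hNb
      (hT1.trans (mk1_div_le hT2 hi)) (hT2.trans (mk1_div_le hT2 hi))
    push_cast at h1
    exact h1
  have hp0nn : ∀ i, 0 ≤ ∏ b ∈ Ico i N, p0 q blk b := fun i =>
    Finset.prod_nonneg fun b _ => bh4_p0_nonneg hBl b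
  have hp01 : ∀ i, ∏ b ∈ Ico i N, p0 q blk b ≤ 1 := fun i =>
    Finset.prod_le_one (fun b _ => bh4_p0_nonneg hBl b) (fun b _ => bh4_p0_le_one hBl b)
  have hXB : ∀ i, ∏ b ∈ Ico i N, (1 + XB (fun i : {p // p ∈ P} => i.1) blk b) ^ (2 * (r0 + (b - i)))
      ≤ Real.exp (12 * ((r0 : ℝ) + 1) * (T / 4000 ^ i)) := by
    intro i
    have h1 := prod_XB_leZ 4000 W T Z (by norm_num) hTpos.le r0 i N
    push_cast at h1
    exact h1
  set KD : Fin n → ℝ := fun i => (1 + 4 * c) *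
    Real.exp (12 * ((r0 : ℝ) + 1) * (T / 4000 ^ (i : ℕ))) with hKD
  have hKD1 : ∀ i, 1 ≤ KD i := by
    intro i
    have h1 : 1 ≤ Real.exp (12 * ((r0 : ℝ) + 1) * (T / 4000 ^ (i : ℕ))) := by
      apply Real.one_le_exp
      positivity
    show 1 ≤ (1 + 4 * c) * Real.exp (12 * ((r0 : ℝ) + 1) * (T / 4000 ^ (i : ℕ)))
    nlinarith
  set D : Fin n → Finset {p // p ∈ P} → ℝ := fun i A => c * DB q blk r0 N i A with hD
  have hlevD : ∀ i : Fin n, LevS P (D i) (KD i) := by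
    intro i M b
    have h1 := tau_le q blk sig r0 n N hBl i i.2
    have h2 := levS_DB P hprime q blk r0 N i (lt_of_lt_of_le i.2 hBl.nN) h1.1 h1.2
    have h3 := mk2_LevS_mono h2 (mul_le_mul_of_nonneg_left (hXB i) (by norm_num))
    have h4 := (h3 M b).const_mul c
    refine Lev.mono _ _ _ h4 ?_
    rw [abs_of_nonneg hc0]
    have h5 : 0 < Real.exp (12 * ((r0 : ℝ) + 1) * (T / 4000 ^ (i : ℕ))) := Real.exp_pos _
    show c * (4 * Real.exp (12 * ((r0 : ℝ) + 1) * (T / 4000 ^ (i : ℕ)))) ≤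
      (1 + 4 * c) * Real.exp (12 * ((r0 : ℝ) + 1) * (T / 4000 ^ (i : ℕ)))
    nlinarith
  have hgood := good_DB q blk sig r0 n N hBl
  have hs0 : ∀ i : Fin n, (0 : ℝ) ≤ 4000 ^ ((i : ℕ) + 1) / (2 * 4000 ^ n) := fun i => by positivity
  have hkey : ∀ i : Fin n, c ^ 2 * (4 * ∏ b ∈ Ico ((i : ℕ) + 1) N, p0 q blk b) ≤
      4000 ^ ((i : ℕ) + 1) / (2 * 4000 ^ n) := by
    intro i
    have h1 := hp0 ((i : ℕ) + 1) i.2
    have h2 : 0 ≤ c ^ 2 := sq_nonneg c
    calc c ^ 2 * (4 * ∏ b ∈ Ico ((i : ℕ) + 1) N, p0 q blk b)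
        ≤ c ^ 2 * (4 * (1000 * Real.log W * 4000 ^ ((i : ℕ) + 1) / T)) := by gcongr
      _ = 4000 ^ ((i : ℕ) + 1) / (2 * 4000 ^ n) *
          ((c ^ 2 * (8000 * 4000 ^ n * Real.log W)) / T) := by
          have h4 : (4000 : ℝ) ^ n ≠ 0 := by positivity
          field_simp
          ring
      _ = _ := by rw [hc, div_self hTpos.ne', mul_one]
  have hcast : ((K : ℕ) : ℝ) = 4000 ^ n := by rw [hK]; push_cast; ring
  refine ⟨{ P := P, W := W, n := n, D := D, m := fun i => R1_m i,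
            R := fun i => (i : ℕ) + 2, s := fun i => 4000 ^ ((i : ℕ) + 1) / (2 * 4000 ^ n),
            c := c, h := 144 * (c ^ 2 + c ^ 4), Dt := 32 * Real.exp (4 * sig), lv := lv
            prime := hprime
            big := pz_big W T Z
            Kpos := hK1
            KW := hKW
            c0 := hc0
            good := ?_
            h0 := by positivity
            emp := ?_
            s0 := hs0
            hs := R1_sum_s n
            hm := ?_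
            hR := R1_sum_exp n
            Dt1 := ?_
            tilt := ?_
            lv1 := hlv1
            lev := ?_ }, rfl, rfl, rfl, rfl, rfl, rfl, rfl, fun _ => rfl, ?_⟩
  · refine ⟨hgood.q0, hgood.q1, ?_, ?_, ?_, ?_⟩
    · intro _ i
      show ex q (fun A => c * DB q blk r0 N i A) = 0
      rw [ex_const_mul, hgood.mean i, mul_zero]
    · intro _ i i' hii
      show ex q (fun A => (c * DB q blk r0 N i A) * (c * DB q blk r0 N i' A)) = 0
      have h1 : (fun A => (c * DB q blk r0 N i A) * (c * DB q blk r0 N i' A)) =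
          fun A => c ^ 2 * (DB q blk r0 N i A * DB q blk r0 N i' A) := by
        funext A
        ring
      rw [h1, ex_const_mul, hgood.orth i i' hii, mul_zero]
    · intro _ i
      show ex q (fun A => (c * DB q blk r0 N i A) ^ 2) ≤ 144 * (c ^ 2 + c ^ 4)
      have h1 : (fun A => (c * DB q blk r0 N i A) ^ 2) =
          fun A => c ^ 2 * (DB q blk r0 N i A ^ 2) := by
        funext A
        ring
      rw [h1, ex_const_mul]
      have h2 := hgood.sq i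
      have h3 := hp01 n
      have h4 : ex q (fun A => DB q blk r0 N i A ^ 2) ≤ 144 := by linarith
      have h5 : 0 ≤ c ^ 2 := sq_nonneg c
      have h6 : 0 ≤ c ^ 4 := by positivity
      nlinarith
    · intro _ i
      show ex q (fun A => (c * DB q blk r0 N i A) ^ 4) ≤ 144 * (c ^ 2 + c ^ 4)
      have h1 : (fun A => (c * DB q blk r0 N i A) ^ 4) =
          fun A => c ^ 4 * (DB q blk r0 N i A ^ 4) := by
        funext A
        ring
      rw [h1, ex_const_mul]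
      have h2 := hgood.fourth i
      have h3 := hp01 n
      have h4 : ex q (fun A => DB q blk r0 N i A ^ 4) ≤ 144 := by linarith
      have h5 : 0 ≤ c ^ 2 := sq_nonneg c
      have h6 : 0 ≤ c ^ 4 := by positivity
      nlinarith
  · intro i
    show c * DB q blk r0 N i ∅ = c
    rw [hgood.empty i, mul_one]
  · intro i
    show 2 * (((K : ℕ) : ℝ) * (4000 ^ ((i : ℕ) + 1) / (2 * 4000 ^ n))) + ((i : ℕ) + 2) ≤
      ((R1_m i : ℕ) : ℝ)
    rw [hcast]
    unfold R1_m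
    push_cast
    have h4 : (4000 : ℝ) ^ n ≠ 0 := by positivity
    have : 2 * ((4000 : ℝ) ^ n * (4000 ^ ((i : ℕ) + 1) / (2 * 4000 ^ n))) =
        4000 ^ ((i : ℕ) + 1) := by
      field_simp
    rw [this]
    linarith
  · show (1 : ℝ) ≤ 32 * Real.exp (4 * sig)
    have h1 : 0 ≤ sig := by
      unfold sig
      have : 0 ≤ Real.log (1000 * ((4000 : ℕ) : ℝ)) := by
        apply Real.log_nonneg
        push_cast
        norm_num
      linarith
    have h2 : 1 ≤ Real.exp (4 * sig) := Real.one_le_exp (by positivity)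
    linarith
  · intro i T'
    show ex q (fun A => (c * DB q blk r0 N i A) ^ 2 * (if T' ⊆ A then 1 else 0)) ≤
      (32 * Real.exp (4 * sig)) ^ T'.card * (∏ p ∈ T', q p) *
        (4000 ^ ((i : ℕ) + 1) / (2 * 4000 ^ n))
    have h1 : (fun A => (c * DB q blk r0 N i A) ^ 2 * (if T' ⊆ A then (1 : ℝ) else 0)) =
        fun A => c ^ 2 * (DB q blk r0 N i A ^ 2 * (if T' ⊆ A then 1 else 0)) := by
      funext A
      ring
    rw [h1, ex_const_mul]
    have h2 := ex_DB_tilt q blk sig r0 n N hBl i i.2 T'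
    have h3 : 0 ≤ c ^ 2 := sq_nonneg c
    have h4 : 0 ≤ ∏ p ∈ T', q p := Finset.prod_nonneg fun p _ => hgood.q0 p
    have h5 : 0 < Real.exp (4 * sig) := Real.exp_pos _
    calc c ^ 2 * ex q (fun A => DB q blk r0 N i A ^ 2 * (if T' ⊆ A then 1 else 0))
        ≤ c ^ 2 * ((32 * Real.exp (4 * sig)) ^ T'.card * (∏ p ∈ T', q p) *
          (4 * ∏ b ∈ Ico ((i : ℕ) + 1) N, p0 q blk b)) := mul_le_mul_of_nonneg_left h2 h3
      _ = (32 * Real.exp (4 * sig)) ^ T'.card * (∏ p ∈ T', q p) *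
          (c ^ 2 * (4 * ∏ b ∈ Ico ((i : ℕ) + 1) N, p0 q blk b)) := by ring
      _ ≤ _ := mul_le_mul_of_nonneg_left (hkey i) (by positivity)
  · intro J _ _ M b hJ
    have h1 := lev_LW P hprime (fun _ : J => D) KD hKD1 (fun _ i => hlevD i) (fun i => R1_m i)
      univ M b (fun _ => 1) 1 (by norm_num) (fun _ => by norm_num)
    refine Lev.mono _ _ _ h1 ?_
    rw [one_mul, Fintype.card_fin, hJ]
    exact hlv
  · intro i
    have h1 := tau_le q blk sig r0 n N hBl i i.2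
    have h2 := ex1_DB P hprime q blk r0 N i (lt_of_lt_of_le i.2 hBl.nN) h1.1 h1.2 _ (hXB i)
    exact X2_const_mul h2 hc0

/-- Proof. Copy of the proofs of `R1_core` and `mkPar` (`H57M/R1.lean`), with the additional conclusions. With the notation of
these proofs: `w.D i = c DB (qq P K) blk r0 N i`, so by `ex1_DB` (`tau_le`, `hBl.nN`) `w.D i` has an expansion with
coefficients at most `2 c ≤ 2 L` (multiply by the constant `c ≥ 0`) and products of primes at most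
`lvs i = exp (12 (r0 + 1) T/4000^i) ≥ 1` (this is `hXB i`). `∏_i (lvs i)^(m i) = exp (∑ m_i 12 (r0+1) T/4000^i) ≤ exp (θ L/2)`
(`R1_sum_m`, as in `hlvb`). `w.c ≤ L`: `c^2 ≤ L/8000` (`hcL`) and `L ≥ 1`. -/
theorem mkPar2Z : ∃ κ0 Dt : ℝ, 0 < κ0 ∧ κ0 ≤ 1 / 100 ∧ 1 ≤ Dt ∧ ∀ n : ℕ, 1 ≤ n → ∀ θ : ℝ,
    0 < θ → θ ≤ 1 → ∃ L0 : ℝ, ∀ L : ℝ, L0 ≤ L → ∀ W : ℕ, 4 * (4000 ^ n) ^ 2 ≤ W →
    Real.log W ≤ Real.sqrt L → ∀ Z : Finset ℕ, MZ W Z → ∃ w : Par (4000 ^ n), w.n = n ∧ w.W = W ∧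
      w.P = PZ W (κ0 * θ * L / n) Z ∧ w.Dt = Dt ∧ w.lv ≤ Real.exp (θ * L) ∧ w.h ≤ L ^ 3 ∧
      κ0 * θ * n * L / (8000 * Real.log W) ≤ 4000 ^ n * (1 + n * w.c) ^ 2 ∧ w.c ≤ L ∧
      ∃ lvs : Fin w.n → ℝ, (∀ i, 1 ≤ lvs i) ∧ (∀ i, Ex1 w.P (w.D i) (2 * L) (lvs i)) ∧
        ∏ i, lvs i ^ w.m i ≤ Real.exp (θ * L) := by
  have hsig : 0 ≤ sig := by
    unfold sig
    have : 0 ≤ Real.log (1000 * ((4000 : ℕ) : ℝ)) := by
      apply Real.log_nonneg
      push_cast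
      norm_num
    linarith
  obtain ⟨r0, hr0⟩ := exists_r0 sig hsig
  have hr1 : (0 : ℝ) < (r0 : ℝ) + 1 := by positivity
  refine ⟨1 / (24 * 4004 * ((r0 : ℝ) + 1)), 32 * Real.exp (4 * sig), by positivity, ?_, ?_, ?_⟩
  · rw [div_le_div_iff₀ (by positivity) (by norm_num)]
    have : (0 : ℝ) ≤ r0 := Nat.cast_nonneg r0
    linarith
  · have h2 : 1 ≤ Real.exp (4 * sig) := Real.one_le_exp (by positivity)
    linarith
  set κ0 : ℝ := 1 / (24 * 4004 * ((r0 : ℝ) + 1)) with hκ0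
  have hκpos : 0 < κ0 := by positivity
  have hκle : κ0 ≤ 1 / 100 := by
    rw [hκ0, div_le_div_iff₀ (by positivity) (by norm_num)]
    have : (0 : ℝ) ≤ r0 := Nat.cast_nonneg r0
    linarith
  intro n hn θ hθ hθ1
  have hn0 : (0 : ℝ) < n := by exact_mod_cast hn
  have hn1 : (1 : ℝ) ≤ n := by exact_mod_cast hn
  have h4n : (0 : ℝ) < 4000 ^ n := by positivity
  set Sm := ∑ i : Fin n, R1_m i with hSm
  set A : ℝ := 3 * ((n : ℝ) * (4000 ^ n : ℕ) + 1) ^ Sm with hA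
  have hA0 : 0 < A := by positivity
  -- growth
  have hgrow : ∀ᶠ L : ℝ in Filter.atTop, A * L ^ Sm ≤ Real.exp (θ / 2 * L) := by
    have h1 := (isLittleO_pow_exp_pos_mul_atTop (k := Sm) (show 0 < θ / 2 by positivity)).bound
      (show (0 : ℝ) < 1 / A by positivity)
    filter_upwards [h1, Filter.eventually_ge_atTop 0] with L hL hL0
    rw [Real.norm_of_nonneg (by positivity), Real.norm_of_nonneg (Real.exp_pos _).le] at hL
    calc A * L ^ Sm ≤ A * (1 / A * Real.exp (θ / 2 * L)) := by gcongr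
      _ = _ := by field_simp
  obtain ⟨L1, hL1⟩ := Filter.eventually_atTop.1 hgrow
  set β : ℝ := κ0 * θ / (n * 4000 ^ n) with hβ
  have hβ0 : 0 < β := by positivity
  refine ⟨max L1 (max 100 (max (2 / β) ((1 / β) ^ 2))), fun L hL W hKW hlogW Z hMZ => ?_⟩
  have hLL1 : L1 ≤ L := (le_max_left _ _).trans hL
  have hL100 : 100 ≤ L := ((le_max_left _ _).trans (le_max_right _ _)).trans hL
  have hLb : 2 / β ≤ L :=
    (((le_max_left _ _).trans (le_max_right _ _)).trans (le_max_right _ _)).trans hL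
  have hLb2 : (1 / β) ^ 2 ≤ L :=
    (((le_max_right _ _).trans (le_max_right _ _)).trans (le_max_right _ _)).trans hL
  have hLpos : 0 < L := by linarith
  set T : ℝ := κ0 * θ * L / n with hT
  have hTβ : T / 4000 ^ n = β * L := by
    rw [hT, hβ]
    field_simp
  have hT2 : 2 ≤ T / 4000 ^ n := by
    rw [hTβ]
    rw [div_le_iff₀ hβ0] at hLb
    linarith
  have hT1 : Real.log W ≤ T / 4000 ^ n := by
    rw [hTβ]
    refine hlogW.trans ?_
    have h1 : 1 / β ≤ Real.sqrt L := Real.le_sqrt_of_sq_le hLb2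
    have h2 : Real.sqrt L * Real.sqrt L = L := Real.mul_self_sqrt hLpos.le
    have h3 : 1 ≤ β * Real.sqrt L := by
      rw [div_le_iff₀ hβ0] at h1
      linarith
    have h4 : 0 ≤ Real.sqrt L := Real.sqrt_nonneg L
    calc Real.sqrt L = 1 * Real.sqrt L := (one_mul _).symm
      _ ≤ (β * Real.sqrt L) * Real.sqrt L := mul_le_mul_of_nonneg_right h3 h4
      _ = β * L := by rw [mul_assoc, h2]
  have hW64 : 64 ≤ W := by
    have h1 : 4000 ≤ 4000 ^ n := by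
      calc 4000 = 4000 ^ 1 := (pow_one _).symm
        _ ≤ 4000 ^ n := Nat.pow_le_pow_right (by norm_num) hn
    nlinarith
  have hlog1 : 1 ≤ Real.log W := by
    have h1 : (64 : ℝ) ≤ W := by exact_mod_cast hW64
    rw [Real.le_log_iff_exp_le (by linarith)]
    linarith [Real.exp_one_lt_d9]
  have hTpos : 0 < T := by positivity
  set c : ℝ := Real.sqrt (T / (8000 * 4000 ^ n * Real.log W)) with hc
  have hden : 0 < 8000 * 4000 ^ n * Real.log W := by positivity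
  have hc2 : c ^ 2 = T / (8000 * 4000 ^ n * Real.log W) := Real.sq_sqrt (by positivity)
  have hc0 : 0 ≤ c := Real.sqrt_nonneg _
  have hTL : T ≤ L := by
    rw [hT, div_le_iff₀ hn0]
    have h1 : κ0 * θ ≤ 1 := by nlinarith
    nlinarith
  have hcL : c ^ 2 ≤ L / 8000 := by
    rw [hc2]
    have h1 : (1 : ℝ) ≤ 4000 ^ n := one_le_pow₀ (by norm_num)
    have h2 : 8000 ≤ 8000 * 4000 ^ n * Real.log W := by nlinarith
    exact div_le_div₀ hLpos.le hTL (by norm_num) h2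
  have hlvb : 3 * ((n : ℝ) * (4000 ^ n : ℕ) + 1) ^ (∑ i : Fin n, R1_m i) *
      ∏ i : Fin n, ((1 + 4 * c) * Real.exp (12 * ((r0 : ℝ) + 1) * (T / 4000 ^ (i : ℕ)))) ^
        R1_m i ≤ Real.exp (θ * L) := by
    have e1 : ∏ i : Fin n, ((1 + 4 * c) * Real.exp (12 * ((r0 : ℝ) + 1) * (T / 4000 ^ (i : ℕ)))) ^
        R1_m i = (1 + 4 * c) ^ Sm *
          Real.exp (∑ i : Fin n, (R1_m i : ℝ) * (12 * ((r0 : ℝ) + 1) * T / 4000 ^ (i : ℕ))) := by
      rw [Real.exp_sum, ← Finset.prod_pow_eq_pow_sum, ← Finset.prod_mul_distrib]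
      refine Finset.prod_congr rfl fun i _ => ?_
      rw [mul_pow, ← Real.exp_nat_mul]
      congr 2
      ring
    rw [e1]
    have h1 := R1_sum_m n (12 * ((r0 : ℝ) + 1) * T) (by positivity)
    have h2 : 4004 * n * (12 * ((r0 : ℝ) + 1) * T) = θ / 2 * L := by
      rw [hT, hκ0]
      field_simp
      ring
    rw [h2] at h1
    have h3 : 1 + 4 * c ≤ L := by nlinarith
    have h4 : (1 + 4 * c) ^ Sm ≤ L ^ Sm := pow_le_pow_left₀ (by positivity) h3 _
    have h5 := hL1 L hLL1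
    calc A * ((1 + 4 * c) ^ Sm * Real.exp (∑ i : Fin n,
          (R1_m i : ℝ) * (12 * ((r0 : ℝ) + 1) * T / 4000 ^ (i : ℕ))))
        ≤ A * (L ^ Sm * Real.exp (θ / 2 * L)) := by
          have := Real.exp_le_exp.2 h1
          gcongr
      _ = (A * L ^ Sm) * Real.exp (θ / 2 * L) := by ring
      _ ≤ Real.exp (θ / 2 * L) * Real.exp (θ / 2 * L) := by gcongr
      _ = Real.exp (θ * L) := by
          rw [← Real.exp_add]
          congr 1
          ring
  obtain ⟨w, w1, w2, w3, w4, w5, w6, w7, w8, w9⟩ := X2_coreZ n W r0 T c (Real.exp (θ * L)) Z hMZ hKW hr0 hT1 hT2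
    hc0 (by linarith) (by rw [hc2]; field_simp) (Real.one_le_exp (by positivity)) hlvb
  have hcL' : c ≤ L := by
    refine le_of_not_gt fun hcon => ?_
    have h1 : L * L ≤ c * c := mul_le_mul hcon.le hcon.le hLpos.le hc0
    have h2 : c ^ 2 = c * c := sq c
    have h3 : 100 * L ≤ L * L := mul_le_mul_of_nonneg_right hL100 hLpos.le
    linarith
  refine ⟨w, w1, w2, w3, w4, w5.le, ?_, ?_, w7.le.trans hcL',
    fun i => Real.exp (12 * ((r0 : ℝ) + 1) * (T / 4000 ^ (i : ℕ))),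
    fun i => Real.one_le_exp (by positivity),
    fun i => X2_mono (w9 i) (by linarith), ?_⟩
  · rw [w6]
    have h1 : c ^ 4 = c ^ 2 * c ^ 2 := by ring
    have h2 : 0 ≤ c ^ 2 := sq_nonneg c
    rw [h1]
    nlinarith [mul_le_mul hcL hcL h2 (by positivity : (0 : ℝ) ≤ L / 8000), mul_pos hLpos hLpos,
      mul_pos (mul_pos hLpos hLpos) hLpos]
  · rw [w7]
    have h1 : (n : ℝ) ^ 2 * c ^ 2 ≤ (1 + n * c) ^ 2 := by
      have : 0 ≤ (n : ℝ) * c := by positivity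
      nlinarith
    calc κ0 * θ * n * L / (8000 * Real.log W) = 4000 ^ n * ((n : ℝ) ^ 2 * c ^ 2) := by
          rw [hc2, hT]
          field_simp
      _ ≤ 4000 ^ n * (1 + n * c) ^ 2 := by gcongr
  · have e1 : ∏ i : Fin w.n, Real.exp (12 * ((r0 : ℝ) + 1) * (T / 4000 ^ (i : ℕ))) ^ w.m i =
        ∏ i : Fin n, Real.exp (12 * ((r0 : ℝ) + 1) * (T / 4000 ^ (i : ℕ))) ^ R1_m i := by
      exact (Finset.prod_congr rfl fun i _ => by rw [w8 i]).trans
        (X2_prod (fun i => Real.exp (12 * ((r0 : ℝ) + 1) * (T / 4000 ^ i)) ^ R1_m i) w1)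
    rw [e1]
    have e2 : ∏ i : Fin n, Real.exp (12 * ((r0 : ℝ) + 1) * (T / 4000 ^ (i : ℕ))) ^ R1_m i =
        Real.exp (∑ i : Fin n, (R1_m i : ℝ) * (12 * ((r0 : ℝ) + 1) * T / 4000 ^ (i : ℕ))) := by
      rw [Real.exp_sum]
      refine Finset.prod_congr rfl fun i _ => ?_
      rw [← Real.exp_nat_mul]
      congr 1
      ring
    rw [e2]
    have h1 := R1_sum_m n (12 * ((r0 : ℝ) + 1) * T) (by positivity)
    have h2 : 4004 * n * (12 * ((r0 : ℝ) + 1) * T) = θ / 2 * L := by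
      rw [hT, hκ0]
      field_simp
      ring
    rw [h2] at h1
    apply Real.exp_le_exp.2
    nlinarith

/-- Proof. `mkPar2` with `L = log N`, `W = ⌈L^B⌉₊` (`log W ≤ (B + 1) log L ≤ √L` and `4 (4000^n)^2 ≤ W` for large `N`; `1 ≤ B`).
* `P = PP W (κ0 θ L/n)`: all primes are at most `exp (κ0 θ L/n) ≤ N^(1/100)` (`κ0 ≤ 1/100`, `θ ≤ 1`).
* gain: `κ0 θ n L/(8000 log W) ≤ 4000^n (1 + n c)^2`; choose `n = m ≥ 8000 G/(κ0 θ)`: then `G L/log W ≤ ..`, multiply by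
  `log W > 0`.
* `FC w H S = L(S)^2/z^K`: `exJ_L` with `C = 2 L` gives the constant `((n+1) 2 L)^K ≤ L^(2K)` for `2 (n + 1) ≤ L`, and the
  level `exp (θ L) = N^θ`; `exJ_sq` with `a = 1/z^K ≤ 1` (`Par.z_bounds`) gives `L^(4K)` and `N^(2θ)`. -/
theorem wt_existsZ (θ : ℝ) (hθ : 0 < θ) (hθ1 : θ ≤ 1 / 100) :
    ∃ C1 : ℝ, 0 < C1 ∧ ∀ G : ℝ, 0 < G → ∃ m : ℕ, 1 ≤ m ∧ (m : ℝ) ≤ C1 * (G + 1) ∧ ∃ cF : ℕ, ∃ Dt : ℝ, ∀ B : ℕ, 2 ≤ B → ∃ n0 : ℕ, ∀ N : ℕ, n0 ≤ N →
      ∀ Z : Finset ℕ, (Z.card : ℝ) ≤ Real.log N ^ 2 →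
      ∃ w : Par (4000 ^ m), w.n = m ∧ w.W = ⌈Real.log N ^ B⌉₊ ∧ w.Dt = Dt ∧
        w.h ≤ Real.log N ^ 3 ∧ w.lv ≤ (N : ℝ) ^ θ ∧
        (∀ p ∈ w.P, (p : ℝ) ≤ (N : ℝ) ^ (1 / 100 : ℝ) ∧ p ∉ Z) ∧
        G * Real.log N ≤ (4000 ^ m : ℕ) * (1 + w.n * w.c) ^ 2 * Real.log w.W ∧
        ∀ H : Finset ℕ, H.card = 4000 ^ m →
          ExJ w.P (FC w H) (Real.log N ^ cF) 3 ((N : ℝ) ^ (2 * θ)) := by
  obtain ⟨κ0, Dt, hκ, hκ1, hDt, hmk⟩ := mkPar2Z
  obtain ⟨W0, hW0⟩ := mertensZ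
  refine ⟨8000 / (κ0 * θ) + 2, by positivity, fun G hG => ?_⟩
  set m : ℕ := ⌈8000 * G / (κ0 * θ)⌉₊ + 1 with hm
  have hmC : (m : ℝ) ≤ (8000 / (κ0 * θ) + 2) * (G + 1) := by
    have h1 : (⌈8000 * G / (κ0 * θ)⌉₊ : ℝ) ≤ 8000 * G / (κ0 * θ) + 1 :=
      (Nat.ceil_lt_add_one (by positivity)).le
    have h2 : (m : ℝ) = ⌈8000 * G / (κ0 * θ)⌉₊ + 1 := by rw [hm]; push_cast; ring
    have h3 : 8000 * G / (κ0 * θ) = 8000 / (κ0 * θ) * G := by ring
    have h4 : 0 < 8000 / (κ0 * θ) := by positivity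
    rw [h2]
    nlinarith
  have hm1 : 1 ≤ m := by omega
  have hmG : 8000 * G ≤ κ0 * θ * m := by
    have h1 : 8000 * G / (κ0 * θ) ≤ ⌈8000 * G / (κ0 * θ)⌉₊ := Nat.le_ceil _
    have h2 : (m : ℝ) = ⌈8000 * G / (κ0 * θ)⌉₊ + 1 := by rw [hm]; push_cast; ring
    have h3 : 8000 * G / (κ0 * θ) ≤ m := by linarith
    rw [div_le_iff₀ (by positivity)] at h3
    linarith
  obtain ⟨L0, hL0⟩ := hmk m hm1 θ hθ (by linarith)
  refine ⟨m, hm1, hmC, 4 * 4000 ^ m, Dt, fun B hB => ?_⟩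
  obtain ⟨n0, hn0⟩ := x5_large B (max (max L0 W0) (max (4 * (4000 ^ m : ℝ) ^ 2) (2 * (m + 1))))
  refine ⟨n0, fun N hN Z hZ => ?_⟩
  obtain ⟨hN3, hLm, hLL⟩ := hn0 N hN
  set L := Real.log N with hL
  have hLL0 : L0 ≤ L := le_trans (le_trans (le_max_left _ _) (le_max_left _ _)) hLm
  have hLW0 : (W0 : ℝ) ≤ L := le_trans (le_trans (le_max_right _ _) (le_max_left _ _)) hLm
  have hLW : 4 * (4000 ^ m : ℝ) ^ 2 ≤ L :=
    le_trans (le_trans (le_max_left _ _) (le_max_right _ _)) hLm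
  have hLmm : 2 * ((m : ℝ) + 1) ≤ L :=
    le_trans (le_trans (le_max_right _ _) (le_max_right _ _)) hLm
  have hm0 : (1 : ℝ) ≤ m := by exact_mod_cast hm1
  have hL4 : 4 ≤ L := by linarith
  have hLpos : 0 < L := by linarith
  have hN0 : (0 : ℝ) < N := by exact_mod_cast (by omega : 0 < N)
  have hLB : L ≤ L ^ B := by
    calc L = L ^ 1 := (pow_one _).symm
      _ ≤ L ^ B := pow_le_pow_right₀ (by linarith) (by omega)
  set W := ⌈L ^ B⌉₊ with hW
  have hWle : L ^ B ≤ (W : ℝ) := Nat.le_ceil _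
  have hWup : (W : ℝ) ≤ L ^ (B + 1) := by
    have h1 : (W : ℝ) < L ^ B + 1 := Nat.ceil_lt_add_one (by positivity)
    have h2 : 1 ≤ L ^ B := one_le_pow₀ (by linarith)
    have h3 : L ^ (B + 1) = L ^ B * L := pow_succ _ _
    nlinarith
  have hW1 : (1 : ℝ) < W := by linarith
  have hlogW0 : 0 < Real.log W := Real.log_pos hW1
  have hlogW : Real.log W ≤ Real.sqrt L := by
    have h1 : Real.log W ≤ Real.log (L ^ (B + 1)) := Real.log_le_log (by linarith) hWup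
    rw [Real.log_pow] at h1
    push_cast at h1
    exact h1.trans hLL
  have hW4 : 4 * (4000 ^ m) ^ 2 ≤ W := by
    have h1 : ((4 * (4000 ^ m) ^ 2 : ℕ) : ℝ) ≤ W := by
      push_cast
      linarith
    exact_mod_cast h1
  obtain ⟨w, hwn, hwW, hwP, hwD, hwlv, hwh, hwg, hwc, lvs, hl1, hl2, hl3⟩ := hL0 L hLL0 W hW4 hlogW Z
    (hW0 W (by
      have h1 : (W0 : ℝ) ≤ W := by linarith
      exact_mod_cast h1) Z (by
      have h1 : L ^ 2 ≤ L ^ B := pow_le_pow_right₀ (by linarith) hB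
      linarith))
  have hexpL : ∀ x : ℝ, Real.exp (x * L) = (N : ℝ) ^ x := by
    intro x
    rw [Real.rpow_def_of_pos hN0, mul_comm]
  refine ⟨w, hwn, hwW, hwD, hwh, ?_, ?_, ?_, ?_⟩
  · rw [← hexpL]; exact hwlv
  · intro p hp
    rw [hwP] at hp
    have h1 : (p : ℝ) ≤ Real.exp (κ0 * θ * L / m) := by
      unfold PZ PP at hp
      rw [mem_filter, mem_filter, mem_Ioc] at hp
      exact (Nat.le_floor_iff (Real.exp_pos _).le).mp hp.1.1.2
    refine ⟨h1.trans ?_, (mem_filter.1 hp).2⟩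
    rw [← hexpL]
    apply Real.exp_le_exp.mpr
    rw [div_le_iff₀ (by linarith)]
    have h2 : κ0 * θ ≤ 1 / 100 := by nlinarith
    have h3 : κ0 * θ * L ≤ 1 / 100 * L := mul_le_mul_of_nonneg_right h2 hLpos.le
    have h4 : 1 / 100 * L ≤ 1 / 100 * L * m := by nlinarith
    linarith
  · rw [hwW, hwn]
    push_cast
    have h1 : G * L ≤ κ0 * θ * m * L / (8000 * Real.log W) * Real.log W := by
      have h2 : κ0 * θ * m * L / (8000 * Real.log W) * Real.log W = κ0 * θ * m / 8000 * L := by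
        field_simp
      rw [h2]
      apply mul_le_mul_of_nonneg_right _ hLpos.le
      linarith
    exact h1.trans (mul_le_mul_of_nonneg_right hwg hlogW0.le)
  · intro H hH
    have hJ : Fintype.card {h // h ∈ H} = 4000 ^ m := by rw [Fintype.card_coe, hH]
    have e1 := exJ_L w (2 * L) (by linarith) lvs hl1 hl2 {h // h ∈ H} hJ
    obtain ⟨hz1, hz2⟩ := w.z_bounds
    have hzK : 1 ≤ w.z ^ (4000 ^ m) := one_le_pow₀ hz1
    have hD0 : 0 ≤ ∏ i, lvs i ^ w.m i :=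
      prod_nonneg fun i _ => pow_nonneg (zero_le_one.trans (hl1 i)) _
    have e2 := exJ_sq w.P w.prime _ _ _ (by positivity) hD0 e1 (1 / w.z ^ (4000 ^ m))
      (by positivity) (by rw [div_le_one (by positivity)]; exact hzK)
    have e3 : (fun S => 1 / w.z ^ (4000 ^ m) * w.L S ^ 2) = FC w H := by
      funext S
      unfold FC
      ring
    rw [e3] at e2
    refine x5_mono e2 ?_ ?_
    · rw [hwn]
      have h1 : ((m : ℝ) + 1) * (2 * L) ≤ L ^ 2 := by nlinarith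
      calc ((((m : ℝ) + 1) * (2 * L)) ^ (4000 ^ m)) ^ 2 ≤ ((L ^ 2) ^ (4000 ^ m)) ^ 2 := by
            apply pow_le_pow_left₀ (by positivity)
            exact pow_le_pow_left₀ (by positivity) h1 _
        _ = L ^ (4 * 4000 ^ m) := by
            rw [← pow_mul, ← pow_mul]
            congr 1
            ring
    · calc (∏ i, lvs i ^ w.m i) ^ 2 ≤ Real.exp (θ * L) ^ 2 := pow_le_pow_left₀ hD0 hl3 2
        _ = (N : ℝ) ^ (2 * θ) := by
            rw [← Real.exp_nat_mul, ← hexpL]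
            congr 1
            push_cast
            ring

end Pool.Agent.Lib.H57T
end
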