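import Pool.Agent.Lib.H1M.RV.M057
import Pool.Agent.Lib.H1M.RV.M065

/-! Merged copies (to shorten the build) of Lib.H57T.M1. -/

-- from Lib.H57T.M1
section

/-!
# Chunk M1: one family `U`, one set `V`, one modulus `d`
-/

open Finset

namespace Pool.Agent.Lib.H57T

open Pool.Agent.Lib.H57C


open Pool.Agent.Lib.H15P hiding cfg
open Pool.Agent.Lib.H92G Pool.Agent.Lib.H57M

variable {ι : Type} {s : Seq ι} {P H : Finset ℕ} {i : Option ℕ} {W p1 : ℕ} {R T : ℕ → Finset ℕ}
  {P' : Finset ℕ} {k b : ℕ}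
theorem m1_ok (hy : Hy s P H i W p1 R T P' k b) (U : Fam P H) (V : Finset ℕ) (d : ℕ)
    (hA : okA P H i U) (hO : okB P H s.Al d U) (hV : V ⊆ Ps W p1) (hd : Squarefree d)
    (hdP : ∀ q ∈ d.primeFactors, q ∈ P') : m2_ok W p1 P' (d, V, U) :=
  ⟨hd, hdP, hV, hA.2, hO.1⟩

open Classical in
/-- Proof. `m = fp U * (∏ V) * d` is squarefree: the `U_h` are disjoint sets of primes of `P` not dividing `d`, the primes in `V` are
`≤ W` and `≠ p1`, those of `P` and `P'` are `> W`. Apply `class_sum` to `m` and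
`A q = {c < q : q ∣ c + h}` (one element) if `q ∈ U h`, `A q = (R q).filter Al` if `q ∈ V`, `A q = T q` if `q ∣ d`.
For `j` with `wt j ≠ 0`: `x j % q ∈ R q` iff `x j % q ∈ (R q).filter Al` (`nev`, `al`), `U h ⊆ cfg P H i (x j) h` iff `q ∣ x j + h` for all
`q ∈ U h` (for `i = some h` the set `U h` is empty). The number of classes is at most `k^|V| k^ω(d)` (`Rk`, `Tk`). -/
theorem m1 (hy : Hy s P H i W p1 R T P' k b) (B : ℝ) (hB0 : 0 ≤ B) (U : Fam P H) (V : Finset ℕ) (d : ℕ)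
    (hA : okA P H i U) (hO : okB P H s.Al d U) (hV : V ⊆ Ps W p1) (hd : Squarefree d)
    (hdP : ∀ q ∈ d.primeFactors, q ∈ P')
    (hB : ∀ c : ℕ, (∀ q ∈ (fp U * (∏ q ∈ V, q) * d).primeFactors, s.Al q c) →
      |∑ i ∈ s.S.filter (fun i => s.x i ≡ c [MOD fp U * (∏ q ∈ V, q) * d]), s.wt i -
        s.X * ∏ q ∈ (fp U * (∏ q ∈ V, q) * d).primeFactors, s.hd q| ≤ B) :
    |su s P H i R T U V d - s.X * (fpr s.hd U *
        (∏ q ∈ V, (((R q).filter (fun c => s.Al q c)).card : ℝ) * s.hd q) *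
        ∏ q ∈ d.primeFactors, (((T q).card : ℝ) * s.hd q))| ≤
      (k : ℝ) ^ V.card * (k : ℝ) ^ d.primeFactors.card * B := by
  have ok := m1_ok hy U V d hA hO hV hd hdP
  have hm : Squarefree (fp U * (∏ q ∈ V, q) * d) := (m2_p1 hy.Pp hy.P'p hy.p1p hy.p1W ok).1
  have hpf : (fp U * (∏ q ∈ V, q) * d).primeFactors = m2_UU U ∪ V ∪ d.primeFactors :=
    m2_pf hy.Pp hy.P'p ok
  have dis1 : Disjoint (m2_UU U) V := m2_VU hy.Pp ok
  have dis2 : Disjoint (m2_UU U ∪ V) d.primeFactors := m2_UVd hy.Pp hy.P'p ok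
  obtain ⟨A, aV, ad, aU⟩ := m1_A s R T U V d dis1 dis2 hA.2
  generalize fp U * (∏ q ∈ V, q) * d = m at hm hpf hB
  have cases3 : ∀ q ∈ m.primeFactors, (q ∈ V) ∨ (q ∈ d.primeFactors) ∨
      ∃ (h : {h // h ∈ H}) (p : {p // p ∈ P}), p ∈ U h ∧ p.1 = q := fun q hq => by
    rw [hpf] at hq
    rcases Finset.mem_union.1 hq with hq | hq
    · rcases Finset.mem_union.1 hq with hq | hq
      · obtain ⟨g, hqP, hq'⟩ := (m2_mem_UU _ _).1 hq
        exact Or.inr (Or.inr ⟨g, ⟨q, hqP⟩, hq', rfl⟩)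
      · exact Or.inl hq
    · exact Or.inr (Or.inl hq)
  have memV : ∀ q ∈ V, q ∈ m.primeFactors := fun q hq => by rw [hpf]; simp [hq]
  have memd : ∀ q ∈ d.primeFactors, q ∈ m.primeFactors := fun q hq => by
    rw [hpf]; exact Finset.mem_union_right _ hq
  have memU : ∀ (h : {h // h ∈ H}) (p : {p // p ∈ P}), p ∈ U h → p.1 ∈ m.primeFactors :=
    fun h p hp => by
      rw [hpf]
      exact Finset.mem_union_left _ (Finset.mem_union_left _ ((m2_mem_UU _ _).2 ⟨h, p.2, hp⟩))
  have key := class_sum s hy.al m hm B hB A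
    (fun q hq => by
      rcases cases3 q hq with h | h | ⟨h, p, hp, rfl⟩
      · rw [aV q h]; exact (Finset.filter_subset _ _).trans (hy.Rr q)
      · rw [ad q h]; exact hy.Tr q (hdP q h)
      · rw [aU h p hp]; exact Finset.filter_subset _ _)
    (fun q hq c hc => by
      rcases cases3 q hq with h | h | ⟨h, p, hp, rfl⟩
      · rw [aV q h] at hc; exact (Finset.mem_filter.1 hc).2
      · rw [ad q h] at hc; exact hy.TA q (hdP q h) c hc
      · rw [aU h p hp] at hc
        exact hO.2 h p hp c (Finset.mem_filter.1 hc).2)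
  -- the sum
  have e1 : su s P H i R T U V d =
      ∑ j ∈ s.S.filter (fun j => ∀ q ∈ m.primeFactors, s.x j % q ∈ A q), s.wt j := by
    unfold su
    rw [Finset.sum_filter, Finset.sum_filter]
    refine Finset.sum_congr rfl fun j hj => ?_
    by_cases hw : s.wt j = 0
    · simp [hw]
    have hnev := hy.nev j hj hw
    have hiff : (∀ q ∈ m.primeFactors, s.x j % q ∈ A q) ↔
        (inT T d (s.x j) ∧ (∀ h, U h ⊆ cfg P H i (s.x j) h) ∧ ∀ q ∈ V, s.x j % q ∈ R q) := by
      constructor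
      · intro h
        refine ⟨fun q hq => ?_, fun g p hp => ?_, fun q hq => ?_⟩
        · have := h q (memd q hq)
          rwa [ad q hq] at this
        · have h1 := h p.1 (memU g p hp)
          rw [aU g p hp, Finset.mem_filter] at h1
          have hi : i ≠ some g.1 := fun hi => by
            rw [hA.1 g hi] at hp
            simp at hp
          unfold cfg
          rw [if_neg hi]
          unfold hit
          rw [Finset.mem_filter]
          refine ⟨Finset.mem_univ _, ?_⟩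
          have h2 : s.x j + g.1 ≡ s.x j % p.1 + g.1 [MOD p.1] :=
            Nat.ModEq.add_right _ (Nat.mod_modEq _ _).symm
          exact (Nat.ModEq.dvd_iff h2 dvd_rfl).2 h1.2
        · have := h q (memV q hq)
          rw [aV q hq] at this
          exact (Finset.mem_filter.1 this).1
      · rintro ⟨h1, h2, h3⟩ q hq
        rcases cases3 q hq with h | h | ⟨g, p, hp, rfl⟩
        · rw [aV q h, Finset.mem_filter]
          refine ⟨h3 q h, ?_⟩
          have h5 := hV h
          simp only [Ps, Finset.mem_filter, Finset.mem_Icc] at h5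
          rw [hy.al q _ _ (Nat.mod_modEq _ _)]
          exact hnev q h5.2.1 (Or.inr ⟨h5.1.2, h5.2.2⟩)
        · rw [ad q h]; exact h1 q h
        · rw [aU g p hp, Finset.mem_filter, Finset.mem_range]
          refine ⟨Nat.mod_lt _ (hy.Pp p.1 p.2).1.pos, ?_⟩
          have hi : i ≠ some g.1 := fun hi => by
            rw [hA.1 g hi] at hp
            simp at hp
          have h4 := h2 g hp
          unfold cfg at h4
          rw [if_neg hi] at h4
          unfold hit at h4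
          rw [Finset.mem_filter] at h4
          have h5 : s.x j + g.1 ≡ s.x j % p.1 + g.1 [MOD p.1] :=
            Nat.ModEq.add_right _ (Nat.mod_modEq _ _).symm
          exact (Nat.ModEq.dvd_iff h5 dvd_rfl).1 h4.2
    by_cases hc : ∀ q ∈ m.primeFactors, s.x j % q ∈ A q
    · rw [if_pos hc]
      obtain ⟨h1, h2, h3⟩ := hiff.1 hc
      rw [if_pos h1, if_pos h2, Finset.prod_congr rfl fun q hq => if_pos (h3 q hq)]
      simp
    · rw [if_neg hc]
      by_cases h1 : inT T d (s.x j)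
      · rw [if_pos h1]
        by_cases h2 : ∀ h, U h ⊆ cfg P H i (s.x j) h
        · have h3 : ∃ q ∈ V, ¬ s.x j % q ∈ R q := by
            by_contra h4
            push Not at h4
            exact hc (hiff.2 ⟨h1, h2, h4⟩)
          obtain ⟨q, hq, h4⟩ := h3
          rw [Finset.prod_eq_zero hq (if_neg h4)]
          simp
        · rw [if_neg h2]
          simp
      · rw [if_neg h1]
  have e2 : ∏ q ∈ m.primeFactors, (((A q).card : ℝ) * s.hd q) = fpr s.hd U *
        (∏ q ∈ V, (((R q).filter (fun c => s.Al q c)).card : ℝ) * s.hd q) *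
        ∏ q ∈ d.primeFactors, (((T q).card : ℝ) * s.hd q) := by
    rw [hpf, Finset.prod_union dis2, Finset.prod_union dis1, m2_prod_UU U hA.2]
    congr 1
    · congr 1
      · unfold fpr
        refine Finset.prod_congr rfl fun h _ => Finset.prod_congr rfl fun p hp => ?_
        rw [aU h p hp, m1_one p.1 h.1 (hy.Pp p.1 p.2).1.pos, Nat.cast_one, one_mul]
      · exact Finset.prod_congr rfl fun q hq => by rw [aV q hq]
    · exact Finset.prod_congr rfl fun q hq => by rw [ad q hq]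
  have e3 : ∏ q ∈ m.primeFactors, ((A q).card : ℝ) ≤ (k : ℝ) ^ V.card * (k : ℝ) ^ d.primeFactors.card := by
    rw [hpf, Finset.prod_union dis2, Finset.prod_union dis1, m2_prod_UU U hA.2]
    have h1 : ∏ h, ∏ p ∈ U h, ((A p.1).card : ℝ) = 1 := by
      refine Finset.prod_eq_one fun h _ => Finset.prod_eq_one fun p hp => ?_
      rw [aU h p hp, m1_one p.1 h.1 (hy.Pp p.1 p.2).1.pos, Nat.cast_one]
    rw [h1, one_mul]
    have h2 : ∏ q ∈ V, ((A q).card : ℝ) ≤ (k : ℝ) ^ V.card := by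
      rw [← Finset.prod_const]
      refine Finset.prod_le_prod (fun q _ => Nat.cast_nonneg _) fun q hq => ?_
      rw [aV q hq]
      exact_mod_cast (Finset.card_filter_le _ _).trans (hy.Rk q (hV hq))
    have h3 : ∏ q ∈ d.primeFactors, ((A q).card : ℝ) ≤ (k : ℝ) ^ d.primeFactors.card := by
      rw [← Finset.prod_const]
      refine Finset.prod_le_prod (fun q _ => Nat.cast_nonneg _) fun q hq => ?_
      rw [ad q hq]
      exact_mod_cast hy.Tk q (hdP q hq)
    have h4 : (0 : ℝ) ≤ ∏ q ∈ d.primeFactors, ((A q).card : ℝ) :=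
      Finset.prod_nonneg fun q _ => Nat.cast_nonneg _
    exact mul_le_mul h2 h3 h4 (pow_nonneg (Nat.cast_nonneg _) _)
  rw [← e1, e2] at key
  exact key.trans (mul_le_mul_of_nonneg_right e3 hB0)

/-- The modulus is squarefree and not divisible by `p1`. -/
theorem m1_sqf (hy : Hy s P H i W p1 R T P' k b) (U : Fam P H) (V : Finset ℕ) (d : ℕ)
    (hA : okA P H i U) (hO : okB P H s.Al d U) (hV : V ⊆ Ps W p1) (hd : Squarefree d)
    (hdP : ∀ q ∈ d.primeFactors, q ∈ P') :
    Squarefree (fp U * (∏ q ∈ V, q) * d) ∧ ¬ p1 ∣ fp U * (∏ q ∈ V, q) * d :=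
  m2_p1 hy.Pp hy.P'p hy.p1p hy.p1W (m1_ok hy U V d hA hO hV hd hdP)

/-- Proof. If `U` is not ok every term is `0`: if `i = some h` and `U h ≠ ∅` then `U h ⊆ ∅` is false. If `p ∈ U h ∩ U h'`, `h ≠ h'`, and
`p ∣ x j + h`, `p ∣ x j + h'` then `p ∣ h - h'`, `|h - h'| ≤ W < p`: impossible. If `p ∈ U h`, `p ∣ d` (so `p ∈ P'`), `p ∣ x j + h` and
`x j % p ∈ T p`: contradiction to `TH` (if `i = some h` then `U h ≠ ∅`, first case). If `p ∈ U h`, `p ∣ x j + h` and some class `c`, `p ∣ c + h`,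
is not allowed: `c ≡ x j [MOD p]`, contradiction to `nev` (if `wt j ≠ 0`). -/
theorem m1_zero (hy : Hy s P H i W p1 R T P' k b) (U : Fam P H) (V : Finset ℕ) (d : ℕ)
    (hd : Squarefree d) (hdP : ∀ q ∈ d.primeFactors, q ∈ P')
    (hn : ¬ (okA P H i U ∧ okB P H s.Al d U)) : su s P H i R T U V d = 0 := by
  unfold su
  refine Finset.sum_eq_zero fun j hj => ?_
  rw [Finset.mem_filter] at hj
  by_cases hw : s.wt j = 0
  · simp [hw]
  have hnev := hy.nev j hj.1 hw
  by_cases h2 : ∀ h, U h ⊆ cfg P H i (s.x j) h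
  swap
  · rw [if_neg h2]; simp
  exfalso
  have hi : ∀ (g : {h // h ∈ H}) (p : {p // p ∈ P}), p ∈ U g → i ≠ some g.1 ∧ p.1 ∣ s.x j + g.1 := by
    intro g p hp
    have h3 := h2 g hp
    unfold cfg at h3
    by_cases h4 : i = some g.1
    · rw [if_pos h4] at h3
      simp at h3
    · rw [if_neg h4] at h3
      unfold hit at h3
      rw [Finset.mem_filter] at h3
      exact ⟨h4, h3.2⟩
  apply hn
  refine ⟨⟨fun g hg => ?_, fun g g' hne => ?_⟩, fun g p hp hpd => ?_, fun g p hp c hc => ?_⟩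
  · rw [Finset.eq_empty_iff_forall_notMem]
    intro p hp
    exact (hi g p hp).1 hg
  · rw [Finset.disjoint_left]
    intro p hp hp'
    have h3 := (hi g p hp).2
    have h4 := (hi g' p hp').2
    have h5 : g.1 ≡ g'.1 [MOD p.1] := by
      have h6 : s.x j + g.1 ≡ s.x j + g'.1 [MOD p.1] :=
        ((Nat.modEq_zero_iff_dvd).2 h3).trans ((Nat.modEq_zero_iff_dvd).2 h4).symm
      exact Nat.ModEq.add_left_cancel' _ h6
    exact hy.HD p.1 p.2 g.1 g.2 g'.1 g'.2 (fun h7 => hne (Subtype.ext h7)) h5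
  · obtain ⟨h3, h4⟩ := hi g p hp
    have hpp : p.1 ∈ d.primeFactors := Nat.mem_primeFactors.2 ⟨(hy.Pp p.1 p.2).1, hpd, hd.ne_zero⟩
    have h5 := hj.2 p.1 hpp
    refine hy.TH p.1 (hdP p.1 hpp) _ h5 g.1 g.2 h3 ?_
    have h6 : s.x j + g.1 ≡ s.x j % p.1 + g.1 [MOD p.1] :=
      Nat.ModEq.add_right _ (Nat.mod_modEq _ _).symm
    exact (Nat.ModEq.dvd_iff h6 dvd_rfl).1 h4
  · obtain ⟨h3, h4⟩ := hi g p hp
    have h5 : s.x j ≡ c [MOD p.1] := by
      have h6 : s.x j + g.1 ≡ c + g.1 [MOD p.1] :=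
        ((Nat.modEq_zero_iff_dvd).2 h4).trans ((Nat.modEq_zero_iff_dvd).2 hc).symm
      exact Nat.ModEq.add_right_cancel' _ h6
    rw [← hy.al p.1 _ _ h5]
    exact hnev p.1 (hy.Pp p.1 p.2).1 (Or.inl p.2)

end Pool.Agent.Lib.H57T
end
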