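import Pool.Agent.Lib.H1M.RV.M069
import Pool.Agent.Lib.H1M.RV.M074
import Pool.Agent.Lib.H1M.RV.M077
import Pool.Agent.Lib.H1M.RV.M089
import Pool.Agent.Lib.H1M.RV.M091

/-! Merged copies (to shorten the build) of Lib.H57T.M5, Lib.H57T.M6, Lib.H57T.RB, Lib.H57T.RC, Lib.H57T.RI, Lib.H57T.RJ. -/

-- from Lib.H57T.M5
section

/-!
# Chunk M5: the transfer theorem
-/

open Finset

namespace Pool.Agent.Lib.H57T

open Pool.Agent.Lib.H57C


open Pool.Agent.Lib.H15P hiding cfg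
open Pool.Agent.Lib.H92G Pool.Agent.Lib.H57M
open Classical in
theorem m5_err {ι : Type} (s : Seq ι) (P H : Finset ℕ) (i : Option ℕ) (W p1 : ℕ) (R T : ℕ → Finset ℕ)
    (P' : Finset ℕ) (k b E r D D1 : ℕ) (hy : Hy s P H i W p1 R T P' k b)
    (c : Fam P H → ℝ) (CF DF : ℝ) (CF0 : 0 ≤ CF) (DF0 : 0 ≤ DF)
    (hc2 : ∀ U, |c U| ≤ CF * (E : ℝ) ^ (∑ j, (U j).card))
    (hc3 : ∀ U, c U ≠ 0 → (∏ j, ∏ p ∈ U j, (p.1 : ℝ)) ≤ DF)
    (hD : DF * (W : ℝ) ^ (r + 1) * D1 ≤ D) (rr : ℕ → ℝ) (rr0 : ∀ m, 0 ≤ rr m)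
    (hrr : ∀ m, Squarefree m → m ≤ D → ¬ p1 ∣ m → ∀ c : ℕ, (∀ q ∈ m.primeFactors, s.Al q c) →
      |∑ i ∈ s.S.filter (fun i => s.x i ≡ c [MOD m]), s.wt i -
        s.X * ∏ q ∈ m.primeFactors, s.hd q| ≤ rr m)
    (a : Finset ℕ → ℝ) (ha : ∀ V, |a V| ≤ 1) (ha0 : ∀ V, r + 1 < V.card → a V = 0)
    (d : ℕ) (hd : d ∈ Dv P' D1) :
    |∑ V ∈ (Ps W p1).powerset, ∑ U : Fam P H, a V * c U * su s P H i R T U V d -
      s.X * (∏ q ∈ d.primeFactors, (((T q).card : ℝ) * s.hd q)) * Am P H i s.Al s.hd d c *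
        Sieve.poly a (fun q => (((R q).filter (fun c => s.Al q c)).card : ℝ) * s.hd q) (Ps W p1)| ≤
      CF * m5_R P H W p1 k E r DF rr d := by
  have hW : 1 ≤ W := le_trans hy.p1p.one_lt.le hy.p1W
  unfold Dv at hd
  rw [mem_filter, mem_Icc] at hd
  obtain ⟨⟨hd1, hd2⟩, hdsq, hdP⟩ := hd
  set hT : ℝ := ∏ q ∈ d.primeFactors, (((T q).card : ℝ) * s.hd q) with hhT
  have e1 : s.X * hT * Am P H i s.Al s.hd d c *
        Sieve.poly a (fun q => (((R q).filter (fun c => s.Al q c)).card : ℝ) * s.hd q) (Ps W p1) =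
      ∑ V ∈ (Ps W p1).powerset, ∑ U : Fam P H, a V *
        (if okA P H i U ∧ okB P H s.Al d U then c U * fpr s.hd U else 0) *
        (s.X * (∏ q ∈ V, (((R q).filter (fun c => s.Al q c)).card : ℝ) * s.hd q) * hT) := by
    unfold Sieve.poly Am
    rw [Finset.mul_sum]
    refine Finset.sum_congr rfl fun V _ => ?_
    rw [← Finset.sum_mul, ← Finset.mul_sum]
    ring
  rw [e1, ← Finset.sum_sub_distrib]
  have e2 : CF * m5_R P H W p1 k E r DF rr d = ∑ V ∈ (Ps W p1).powerset, ∑ U : Fam P H,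
      (if V.card ≤ r + 1 then (if (∀ h h', h ≠ h' → Disjoint (U h) (U h')) ∧
          (∀ h, ∀ p ∈ U h, ¬ p.1 ∣ d) ∧ (fp U : ℝ) ≤ DF then
        CF * ((E : ℝ) ^ (∑ h, (U h).card) * ((k : ℝ) ^ V.card * (k : ℝ) ^ d.primeFactors.card) *
          rr (fp U * (∏ q ∈ V, q) * d)) else 0) else 0) := by
    unfold m5_R
    rw [Finset.mul_sum, Finset.sum_filter]
    refine Finset.sum_congr rfl fun V _ => ?_
    by_cases hV : V.card ≤ r + 1
    · rw [if_pos hV, Finset.mul_sum]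
      refine Finset.sum_congr rfl fun U _ => ?_
      rw [if_pos hV]
      split_ifs
      · rfl
      · ring
    · rw [if_neg hV]
      symm
      refine Finset.sum_eq_zero fun U _ => if_neg hV
  rw [e2]
  refine (Finset.abs_sum_le_sum_abs _ _).trans (Finset.sum_le_sum fun V hV => ?_)
  rw [← Finset.sum_sub_distrib]
  refine (Finset.abs_sum_le_sum_abs _ _).trans (Finset.sum_le_sum fun U _ => ?_)
  have hV' := Finset.mem_powerset.mp hV
  have hnn : 0 ≤ CF * ((E : ℝ) ^ (∑ h, (U h).card) * ((k : ℝ) ^ V.card *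
      (k : ℝ) ^ d.primeFactors.card) * rr (fp U * (∏ q ∈ V, q) * d)) :=
    mul_nonneg CF0 (mul_nonneg (by positivity) (rr0 _))
  by_cases hVc : V.card ≤ r + 1
  swap
  · rw [if_neg hVc, ha0 V (by omega)]
    simp
  rw [if_pos hVc]
  by_cases hok : okA P H i U ∧ okB P H s.Al d U
  swap
  · rw [if_neg hok, m1_zero hy U V d hdsq hdP hok]
    have : |a V * c U * 0 - a V * 0 * (s.X * (∏ q ∈ V,
        (((R q).filter (fun c => s.Al q c)).card : ℝ) * s.hd q) * hT)| = 0 := by simp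
    rw [this]
    split_ifs
    · exact hnn
    · exact le_rfl
  rw [if_pos hok]
  by_cases hcU : c U = 0
  · rw [hcU]
    have : |a V * 0 * su s P H i R T U V d - a V * (0 * fpr s.hd U) * (s.X * (∏ q ∈ V,
        (((R q).filter (fun c => s.Al q c)).card : ℝ) * s.hd q) * hT)| = 0 := by simp
    rw [this]
    split_ifs
    · exact hnn
    · exact le_rfl
  have hfp : (fp U : ℝ) ≤ DF := by
    have := hc3 U hcU
    unfold fp
    push_cast
    exact this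
  rw [if_pos ⟨hok.1.2, hok.2.1, hfp⟩]
  have hm := m1_sqf hy U V d hok.1 hok.2 hV' hdsq hdP
  have hmD : fp U * (∏ q ∈ V, q) * d ≤ D := by
    have h1 := m5_prodV W p1 r V hV' hW hVc
    have h2 : ((fp U * (∏ q ∈ V, q) * d : ℕ) : ℝ) ≤ DF * (W : ℝ) ^ (r + 1) * D1 := by
      rw [Nat.cast_mul, Nat.cast_mul]
      have h3 : ((∏ q ∈ V, q : ℕ) : ℝ) ≤ (W : ℝ) ^ (r + 1) := by exact_mod_cast h1
      have h4 : (d : ℝ) ≤ D1 := by exact_mod_cast hd2
      refine mul_le_mul (mul_le_mul hfp h3 (Nat.cast_nonneg _) DF0) h4 (Nat.cast_nonneg _) ?_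
      positivity
    exact_mod_cast h2.trans hD
  have key := m1 hy (rr (fp U * (∏ q ∈ V, q) * d)) (rr0 _) U V d hok.1 hok.2 hV' hdsq hdP
    (hrr _ hm.1 hmD hm.2)
  have e3 : a V * c U * su s P H i R T U V d - a V * (c U * fpr s.hd U) * (s.X * (∏ q ∈ V,
        (((R q).filter (fun c => s.Al q c)).card : ℝ) * s.hd q) * hT) =
      a V * (c U * (su s P H i R T U V d - s.X * (fpr s.hd U *
        (∏ q ∈ V, (((R q).filter (fun c => s.Al q c)).card : ℝ) * s.hd q) * hT))) := by ring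
  rw [e3, abs_mul, abs_mul]
  calc |a V| * (|c U| * |su s P H i R T U V d - s.X * (fpr s.hd U *
        (∏ q ∈ V, (((R q).filter (fun c => s.Al q c)).card : ℝ) * s.hd q) * hT)|)
      ≤ 1 * ((CF * (E : ℝ) ^ (∑ j, (U j).card)) * ((k : ℝ) ^ V.card * (k : ℝ) ^ d.primeFactors.card *
        rr (fp U * (∏ q ∈ V, q) * d))) := by
        refine mul_le_mul (ha V) (mul_le_mul (hc2 U) key (abs_nonneg _) ?_) ?_ zero_le_one
        · positivity
        · positivity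
    _ = _ := by ring

/-- **Transfer theorem.** Proof. Let `c` be the coefficients of `F` (`ExJ`), `rr` the function of `Lvl`. Fix `d ∈ Dv P' D1`.
For `t = x j` put `f q = 1[t % q ∈ R q]`: `Sg t = ∏_{q ∈ Ps} (1 - f q)`, and by `Sieve.le_polyT_of_even`, `Sieve.polyT_le_of_even` (`r` even)
`poly (cT r) f - poly (cE (r+1)) f ≤ Sg t ≤ poly (cT r) f` (`poly c f Q = ∑_{V ⊆ Q} c V ∏_{q ∈ V} f q`, check the definition in
`Lib/Sieve/Combi.lean`). Multiply with `wt j F(cfg) 1[inT] ≥ 0` and sum over `j`: with `su` (file M1) the sum is between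
`∑_U ∑_V c U (cT r V - cE (r+1) V) su U V d` and `∑_U ∑_V c U cT r V su U V d`. By `m1_zero`, `m1` (with `B = rr (fp U ∏V d)`; `c U ≠ 0` implies
`fp U ≤ DF`, `|V| ≤ r + 1`, so `fp U ∏V d ≤ DF W^(r+1) D1 ≤ D`) these are `X Am_d hT(d) poly (..) ρ` up to
`∑_U ∑_{|V| ≤ r+1} |c U| k^|V| k^ω(d) rr(..)`, where `ρ q = #(R q).filter Al · hd q ∈ [0, 1]`, `hT(d) = ∏_{q ∣ d} #T q hd q`. Again by Bonferroni
both `poly` are within `poly (cE (r+1)) ρ ≤ τ0` of `∏ (1 - ρ q) = VS`. Summed over `d` (`m2`, `|c U| ≤ CF E^|U|`) the remainder terms give at most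
`2 CF Err`; the `τ0` terms `X CF Pi0 τ0 ∑_d (2k)^ω(d)/d`. Then replace `Am_d` by `AE` (`am_bound`, `ae_sum`, `0 ≤ VS ≤ 1`) and `hT(d)` by
`∏ #T q hr q`: `|∏ #T hd - ∏ #T hr| ≤ k^ω(d) ω(d) (2/W) ∏_{q ∣ d} (2/q)` (`|hd q - hr q| ≤ 4/q^2`), `|AE| ≤ CF Pi0`; use `ω ≤ 2^ω`,
`(b + ω) ≤ (b + 1) 2^ω`. Everything is at most `X CF Pi0 G0 (τ0 + 100 K E (b + 1)/W)`. -/
theorem mt {ι : Type} (s : Seq ι) (P H : Finset ℕ) (i : Option ℕ) (W p1 : ℕ) (R T : ℕ → Finset ℕ)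
    (P' : Finset ℕ) (k b K E r D D1 : ℕ) (hy : Hy s P H i W p1 R T P' k b) (hr : ℕ → ℝ)
    (hr0 : ∀ q : ℕ, q.Prime → 0 ≤ hr q) (hr2 : ∀ q : ℕ, q.Prime → hr q ≤ 2 / q)
    (hrq : ∀ q : ℕ, q.Prime → W < q → |hr q - 1 / q| ≤ 2 / (q : ℝ) ^ 2)
    (hK : H.card = K) (K1 : 1 ≤ K) (E1 : 1 ≤ E) (k1 : 1 ≤ k) (hre : Even r)
    (F : Fam P H → ℝ) (F0 : ∀ S, 0 ≤ F S) (CF DF : ℝ) (CF0 : 0 ≤ CF) (DF0 : 0 ≤ DF)
    (hF : ExJ P F CF E DF) (hD : DF * (W : ℝ) ^ (r + 1) * D1 ≤ D) (Err : ℝ)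
    (hL : Lvl s p1 D (K * E + 2 * k) Err) (Pi0 G0 τ0 : ℝ)
    (hPi : ∏ p ∈ P, (1 + 4 * (E : ℝ) / p) ^ K ≤ Pi0)
    (hG : ∑ d ∈ (Icc 1 D1).filter Squarefree, (8 * (k : ℝ)) ^ d.primeFactors.card / d ≤ G0)
    (hτ : Sieve.poly (Sieve.cE (r + 1)) (fun q : ℕ => 2 * (k : ℝ) / q) (Ps W p1) ≤ τ0) :
    ∑ d ∈ Dv P' D1,
      |∑ j ∈ s.S.filter (fun j => inT T d (s.x j)),
          s.wt j * (F (cfg P H i (s.x j)) * Sg (Ps W p1) R (s.x j)) -
        s.X * (AE P H i F * VS (Ps W p1) R s.hd s.Al) *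
          ∏ q ∈ d.primeFactors, (((T q).card : ℝ) * hr q)| ≤
      CF * (2 * Err + s.X * (Pi0 * G0 * (τ0 + 100 * K * E * (b + 1) / W))) := by
  classical
  obtain ⟨c, hc1, hc2, hc3⟩ := hF
  obtain ⟨rr, rr0, hrr, hrS⟩ := hL
  have hW : 1 ≤ W := le_trans hy.p1p.one_lt.le hy.p1W
  have hWr : (1 : ℝ) ≤ W := by exact_mod_cast hW
  have hWpos : (0 : ℝ) < W := by linarith
  have hk0 : (0 : ℝ) ≤ k := Nat.cast_nonneg _
  have hAE := ae_sum P H i W hy.Pp hy.HD hy.iH F c hc1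
  have hAE1 : |AE P H i F| ≤ CF * Pi0 := by
    rw [hAE]
    exact (am_bound P H i W K E 0 (fun _ _ => True) (hdr i) c CF Pi0 CF0 E1 hK K1 hy.Pp hW
      (m5_hdr0 i) (m5_hdr2 i) (m5_hdrq i W) hc2 hPi (by simp) 1 le_rfl).1
  have hCP : 0 ≤ CF * Pi0 := le_trans (abs_nonneg _) hAE1
  set ρ : ℕ → ℝ := fun q => (((R q).filter (fun c => s.Al q c)).card : ℝ) * s.hd q with hρ
  have hQp : ∀ q ∈ Ps W p1, q.Prime := fun q hq => (mem_filter.mp hq).2.1
  have hρ0 : ∀ q ∈ Ps W p1, 0 ≤ ρ q := fun q hq =>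
    mul_nonneg (Nat.cast_nonneg _) (hy.hd0 q (hQp q hq))
  have hρ1 : ∀ q ∈ Ps W p1, ρ q ≤ 1 := fun q hq => hy.R1 q hq
  have hρ2 : ∀ q ∈ Ps W p1, ρ q ≤ 2 * (k : ℝ) / q := by
    intro q hq
    have h1 : (((R q).filter (fun c => s.Al q c)).card : ℝ) ≤ k := by
      exact_mod_cast (Finset.card_filter_le _ _).trans (hy.Rk q hq)
    calc ρ q ≤ k * (2 / q) := mul_le_mul h1 (hy.hd2 q (hQp q hq)) (hy.hd0 q (hQp q hq)) hk0
      _ = 2 * (k : ℝ) / q := by ring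
  have hτ1 : Sieve.poly (Sieve.cE (r + 1)) ρ (Ps W p1) ≤ τ0 :=
    (m5_polymono (r + 1) ρ _ (Ps W p1) hρ0 hρ2).trans hτ
  have hτn : 0 ≤ Sieve.poly (Sieve.cE (r + 1)) ρ (Ps W p1) := by
    refine Sieve.poly_nonneg (fun V => ?_) hρ0
    unfold Sieve.cE
    split_ifs <;> norm_num
  have τ00 : 0 ≤ τ0 := hτn.trans hτ1
  have hVS : VS (Ps W p1) R s.hd s.Al = ∏ q ∈ Ps W p1, (1 - ρ q) := rfl
  have hV1 : VS (Ps W p1) R s.hd s.Al ≤ Sieve.poly (Sieve.cT r) ρ (Ps W p1) := by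
    rw [hVS]; exact Sieve.le_polyT_of_even hρ0 hρ1 hre
  have hV2 : Sieve.poly (Sieve.cT r) ρ (Ps W p1) ≤
      VS (Ps W p1) R s.hd s.Al + Sieve.poly (Sieve.cE (r + 1)) ρ (Ps W p1) := by
    rw [hVS]; exact Sieve.polyT_le_of_even hρ0 hρ1 hre
  have hV0 : 0 ≤ VS (Ps W p1) R s.hd s.Al := by
    rw [hVS]; exact Finset.prod_nonneg fun q hq => by linarith [hρ1 q hq]
  have hVle : VS (Ps W p1) R s.hd s.Al ≤ 1 := by
    rw [hVS]
    exact Finset.prod_le_one (fun q hq => by linarith [hρ1 q hq]) fun q hq => by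
      linarith [hρ0 q hq]
  set VV := VS (Ps W p1) R s.hd s.Al with hVV
  have hX0 := hy.X0
  have hper : ∀ d ∈ Dv P' D1,
      |∑ j ∈ s.S.filter (fun j => inT T d (s.x j)),
          s.wt j * (F (cfg P H i (s.x j)) * Sg (Ps W p1) R (s.x j)) -
        s.X * (AE P H i F * VV) * ∏ q ∈ d.primeFactors, (((T q).card : ℝ) * hr q)| ≤
      CF * m5_R P H W p1 k E r DF rr d + s.X * (CF * Pi0) *
        (((8 * (k : ℝ)) ^ d.primeFactors.card / d) * (τ0 + 100 * K * E * (b + 1) / W)) := by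
    intro d hd
    have hd' := hd
    unfold Dv at hd'
    rw [mem_filter, mem_Icc] at hd'
    obtain ⟨⟨hd1, hd2⟩, hdsq, hdP⟩ := hd'
    have hd1r : (0 : ℝ) < d := by exact_mod_cast hd1
    set hT : ℝ := ∏ q ∈ d.primeFactors, (((T q).card : ℝ) * s.hd q) with hhT
    set hTr : ℝ := ∏ q ∈ d.primeFactors, (((T q).card : ℝ) * hr q) with hhTr
    set A : ℝ := Am P H i s.Al s.hd d c with hA
    -- upper and lower bound
    have b1 := m5_err s P H i W p1 R T P' k b E r D D1 hy c CF DF CF0 DF0 hc2 hc3 hD rr rr0 hrr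
      (Sieve.cT r) (fun V => (m5_ab r V).1) (fun V hV => (m5_ab0 r V hV).1) d hd
    have b2 := m5_err s P H i W p1 R T P' k b E r D D1 hy c CF DF CF0 DF0 hc2 hc3 hD rr rr0 hrr
      (fun V => Sieve.cT r V - Sieve.cE (r + 1) V) (fun V => (m5_ab r V).2)
      (fun V hV => (m5_ab0 r V hV).2) d hd
    rw [← m5_expand s P H i R T (Ps W p1) F c hc1 (Sieve.cT r) d] at b1
    rw [← m5_expand s P H i R T (Ps W p1) F c hc1 _ d] at b2
    rw [m5_polysub] at b2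
    have u1 : ∑ j ∈ s.S.filter (fun j => inT T d (s.x j)),
          s.wt j * (F (cfg P H i (s.x j)) * Sg (Ps W p1) R (s.x j)) ≤
        ∑ j ∈ s.S.filter (fun j => inT T d (s.x j)), s.wt j * (F (cfg P H i (s.x j)) *
      Sieve.poly (Sieve.cT r) (fun q => if s.x j % q ∈ R q then (1 : ℝ) else 0) (Ps W p1)) := by
      refine Finset.sum_le_sum fun j hj => ?_
      refine mul_le_mul_of_nonneg_left (mul_le_mul_of_nonneg_left ?_ (F0 _))
        (hy.w0 j (mem_filter.mp hj).1)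
      rw [m5_sg]
      refine Sieve.le_polyT_of_even (fun q _ => ?_) (fun q _ => ?_) hre
      · split_ifs <;> norm_num
      · split_ifs <;> norm_num
    have u2 : ∑ j ∈ s.S.filter (fun j => inT T d (s.x j)), s.wt j * (F (cfg P H i (s.x j)) *
      Sieve.poly (fun V => Sieve.cT r V - Sieve.cE (r + 1) V)
        (fun q => if s.x j % q ∈ R q then (1 : ℝ) else 0) (Ps W p1)) ≤
        ∑ j ∈ s.S.filter (fun j => inT T d (s.x j)),
          s.wt j * (F (cfg P H i (s.x j)) * Sg (Ps W p1) R (s.x j)) := by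
      refine Finset.sum_le_sum fun j hj => ?_
      refine mul_le_mul_of_nonneg_left (mul_le_mul_of_nonneg_left ?_ (F0 _))
        (hy.w0 j (mem_filter.mp hj).1)
      rw [m5_sg, m5_polysub]
      have := Sieve.polyT_le_of_even (f := fun q => if s.x j % q ∈ R q then (1 : ℝ) else 0)
        (Q := Ps W p1) (fun q _ => by split_ifs <;> norm_num)
        (fun q _ => by split_ifs <;> norm_num) hre
      linarith
    set Z : ℝ := ∑ j ∈ s.S.filter (fun j => inT T d (s.x j)),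
          s.wt j * (F (cfg P H i (s.x j)) * Sg (Ps W p1) R (s.x j)) with hZ
    set RD : ℝ := CF * m5_R P H W p1 k E r DF rr d with hRD
    -- bounds for the products
    have hM : ∀ q ∈ d.primeFactors, 0 ≤ ((T q).card : ℝ) * s.hd q ∧
        ((T q).card : ℝ) * s.hd q ≤ 2 * (k : ℝ) / q ∧ 0 ≤ ((T q).card : ℝ) * hr q ∧
        ((T q).card : ℝ) * hr q ≤ 2 * (k : ℝ) / q ∧
        |((T q).card : ℝ) * s.hd q - ((T q).card : ℝ) * hr q| ≤ (2 / W) * (2 * (k : ℝ) / q) := by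
      intro q hq
      have hqp := Nat.prime_of_mem_primeFactors hq
      have hqP := hdP q hq
      have hTk : ((T q).card : ℝ) ≤ k := by exact_mod_cast hy.Tk q hqP
      have hWq : W < q := (hy.P'p q hqP).2
      have hWq' : (W : ℝ) ≤ q := by exact_mod_cast hWq.le
      have hq0 : (0 : ℝ) < q := by linarith
      refine ⟨mul_nonneg (Nat.cast_nonneg _) (hy.hd0 q hqp), ?_,
        mul_nonneg (Nat.cast_nonneg _) (hr0 q hqp), ?_, ?_⟩
      · calc ((T q).card : ℝ) * s.hd q ≤ k * (2 / q) :=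
              mul_le_mul hTk (hy.hd2 q hqp) (hy.hd0 q hqp) hk0
          _ = 2 * (k : ℝ) / q := by ring
      · calc ((T q).card : ℝ) * hr q ≤ k * (2 / q) :=
              mul_le_mul hTk (hr2 q hqp) (hr0 q hqp) hk0
          _ = 2 * (k : ℝ) / q := by ring
      · rw [← mul_sub, abs_mul, abs_of_nonneg (Nat.cast_nonneg _)]
        have h1 : |s.hd q - hr q| ≤ 4 / (q : ℝ) ^ 2 := by
          have e : s.hd q - hr q = (s.hd q - 1 / q) - (hr q - 1 / q) := by ring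
          rw [e]
          refine (abs_sub _ _).trans ?_
          have := hy.hdq q hqp hWq
          have := hrq q hqp hWq
          have e4 : (4 : ℝ) / (q : ℝ) ^ 2 = 2 / (q : ℝ) ^ 2 + 2 / (q : ℝ) ^ 2 := by ring
          rw [e4]
          linarith
        calc ((T q).card : ℝ) * |s.hd q - hr q| ≤ k * (4 / (q : ℝ) ^ 2) :=
              mul_le_mul hTk h1 (abs_nonneg _) hk0
          _ = (2 / q) * (2 * (k : ℝ) / q) := by
              field_simp
              ring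
          _ ≤ (2 / W) * (2 * (k : ℝ) / q) := by
              refine mul_le_mul_of_nonneg_right ?_ (by positivity)
              exact div_le_div_of_nonneg_left (by norm_num) hWpos hWq'
    have hprod := m5_prodq d hdsq (2 * (k : ℝ))
    have hTn : 0 ≤ hT := Finset.prod_nonneg fun q hq => (hM q hq).1
    have hTle : hT ≤ (2 * (k : ℝ)) ^ d.primeFactors.card / d := by
      rw [← hprod]
      exact Finset.prod_le_prod (fun q hq => (hM q hq).1) fun q hq => (hM q hq).2.1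
    have htel : |hT - hTr| ≤ d.primeFactors.card * (2 / W) *
        ((2 * (k : ℝ)) ^ d.primeFactors.card / d) := by
      rw [← hprod]
      refine (m5_tel d.primeFactors _ _ (fun q => 2 * (k : ℝ) / q) (2 / W) (by positivity)
        (fun q hq => ?_) (fun q hq => ?_) fun q hq => (hM q hq).2.2.2.2).1
      · rw [abs_of_nonneg (hM q hq).1]; exact (hM q hq).2.1
      · rw [abs_of_nonneg (hM q hq).2.2.1]; exact (hM q hq).2.2.2.1
    have hAm := am_bound P H i W K E b s.Al s.hd c CF Pi0 CF0 E1 hK K1 hy.Pp hW hy.hd0 hy.hd2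
      hy.hdq hc2 hPi hy.bad d hd1
    rw [← hAE, ← hA] at hAm
    obtain ⟨hA1, hA2⟩ := hAm
    -- main comparison
    have c1 : |Z - s.X * hT * A * VV| ≤ RD + s.X * hT * (CF * Pi0) * τ0 := by
      have hXT : 0 ≤ s.X * hT := mul_nonneg hX0 hTn
      have g1 : |s.X * hT * A * (Sieve.poly (Sieve.cT r) ρ (Ps W p1) - VV)| ≤
          s.X * hT * (CF * Pi0) * τ0 := by
        rw [abs_mul, abs_mul, abs_of_nonneg hXT]
        refine mul_le_mul (mul_le_mul_of_nonneg_left hA1 hXT) ?_ (abs_nonneg _)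
          (mul_nonneg hXT hCP)
        rw [abs_le]
        constructor <;> linarith
      have g2 : |s.X * hT * A * (Sieve.poly (Sieve.cT r) ρ (Ps W p1) -
          Sieve.poly (Sieve.cE (r + 1)) ρ (Ps W p1) - VV)| ≤
          s.X * hT * (CF * Pi0) * τ0 := by
        rw [abs_mul, abs_mul, abs_of_nonneg hXT]
        refine mul_le_mul (mul_le_mul_of_nonneg_left hA1 hXT) ?_ (abs_nonneg _)
          (mul_nonneg hXT hCP)
        rw [abs_le]
        constructor <;> linarith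
      rw [abs_le] at b1 b2 g1 g2 ⊢
      constructor
      · have e : s.X * hT * A * (Sieve.poly (Sieve.cT r) ρ (Ps W p1) -
          Sieve.poly (Sieve.cE (r + 1)) ρ (Ps W p1) - VV) = s.X * hT * A *
            (Sieve.poly (Sieve.cT r) ρ (Ps W p1) - Sieve.poly (Sieve.cE (r + 1)) ρ (Ps W p1)) -
            s.X * hT * A * VV := by ring
        rw [e] at g2
        linarith [b2.1, g2.1, u2]
      · have e : s.X * hT * A * (Sieve.poly (Sieve.cT r) ρ (Ps W p1) - VV) =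
          s.X * hT * A * Sieve.poly (Sieve.cT r) ρ (Ps W p1) - s.X * hT * A * VV := by ring
        rw [e] at g1
        linarith [b1.2, g1.2, u1]
    have c2 : |s.X * hT * A * VV - s.X * (AE P H i F * VV) * hTr| ≤
        s.X * ((CF * Pi0 * ((2 * K * E * (b + d.primeFactors.card) + 2) / W)) * hT +
          (CF * Pi0) * |hT - hTr|) := by
      have e : s.X * hT * A * VV - s.X * (AE P H i F * VV) * hTr =
          s.X * VV * ((A - AE P H i F) * hT + AE P H i F * (hT - hTr)) := by ring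
      rw [e, abs_mul, abs_of_nonneg (mul_nonneg hX0 hV0)]
      have g3 : |(A - AE P H i F) * hT + AE P H i F * (hT - hTr)| ≤
          (CF * Pi0 * ((2 * K * E * (b + d.primeFactors.card) + 2) / W)) * hT +
          (CF * Pi0) * |hT - hTr| := by
        refine (abs_add_le _ _).trans ?_
        rw [abs_mul, abs_mul, abs_of_nonneg hTn]
        exact add_le_add (mul_le_mul_of_nonneg_right hA2 hTn)
          (mul_le_mul_of_nonneg_right hAE1 (abs_nonneg _))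
      have g4 : s.X * VV ≤ s.X := by
        calc s.X * VV ≤ s.X * 1 := mul_le_mul_of_nonneg_left hVle hX0
          _ = s.X := mul_one _
      exact mul_le_mul g4 g3 (abs_nonneg _) hX0
    have hnum := m5_num K E k b d.primeFactors.card (W : ℝ) τ0 (d : ℝ) hWpos τ00 K1 E1 hd1r
    have c3 : s.X * hT * (CF * Pi0) * τ0 + s.X * ((CF * Pi0 *
        ((2 * K * E * (b + d.primeFactors.card) + 2) / W)) * hT + (CF * Pi0) * |hT - hTr|) ≤
        s.X * (CF * Pi0) *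
        (((8 * (k : ℝ)) ^ d.primeFactors.card / d) * (τ0 + 100 * K * E * (b + 1) / W)) := by
      have g5 : hT * τ0 + ((2 * K * E * (b + d.primeFactors.card) + 2) / W) * hT + |hT - hTr| ≤
          ((2 * (k : ℝ)) ^ d.primeFactors.card / d) * τ0 +
          ((2 * K * E * (b + d.primeFactors.card) + 2) / W) *
            ((2 * (k : ℝ)) ^ d.primeFactors.card / d) +
          d.primeFactors.card * (2 / W) * ((2 * (k : ℝ)) ^ d.primeFactors.card / d) := by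
        refine add_le_add (add_le_add (mul_le_mul_of_nonneg_right hTle τ00)
          (mul_le_mul_of_nonneg_left hTle ?_)) htel
        positivity
      calc _ = s.X * (CF * Pi0) * (hT * τ0 + ((2 * K * E * (b + d.primeFactors.card) + 2) / W) * hT +
            |hT - hTr|) := by ring
        _ ≤ _ := mul_le_mul_of_nonneg_left (g5.trans hnum) (mul_nonneg hX0 hCP)
    calc |Z - s.X * (AE P H i F * VV) * hTr|
        ≤ |Z - s.X * hT * A * VV| + |s.X * hT * A * VV - s.X * (AE P H i F * VV) * hTr| :=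
          abs_sub_le _ _ _
      _ ≤ (RD + s.X * hT * (CF * Pi0) * τ0) + s.X * ((CF * Pi0 *
        ((2 * K * E * (b + d.primeFactors.card) + 2) / W)) * hT + (CF * Pi0) * |hT - hTr|) :=
          add_le_add c1 c2
      _ ≤ _ := by linarith
  -- sum over `d`
  refine (Finset.sum_le_sum hper).trans ?_
  rw [Finset.sum_add_distrib, ← Finset.mul_sum, ← Finset.mul_sum, ← Finset.sum_mul]
  have s1 : ∑ d ∈ Dv P' D1, m5_R P H W p1 k E r DF rr d ≤ Err := by
    have := m2 P H W p1 k E D D1 r K P' DF rr rr0 hy.Pp hy.p1p hy.p1W hy.P'p hK hW hD DF0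
    refine le_trans (le_of_eq ?_) (this.trans hrS)
    rfl
  have s1n : 0 ≤ ∑ d ∈ Dv P' D1, m5_R P H W p1 k E r DF rr d := by
    refine Finset.sum_nonneg fun d _ => ?_
    unfold m5_R
    refine Finset.sum_nonneg fun V _ => Finset.sum_nonneg fun U _ => ?_
    split_ifs
    · exact mul_nonneg (by positivity) (rr0 _)
    · exact le_rfl
  have s2 : ∑ d ∈ Dv P' D1, (8 * (k : ℝ)) ^ d.primeFactors.card / d ≤ G0 := by
    refine le_trans (Finset.sum_le_sum_of_subset_of_nonneg ?_ fun d _ _ => by positivity) hG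
    intro d hd
    unfold Dv at hd
    rw [mem_filter] at hd ⊢
    exact ⟨hd.1, hd.2.1⟩
  have s3 : 0 ≤ τ0 + 100 * K * E * (b + 1) / W := by positivity
  have s4 : CF * ∑ d ∈ Dv P' D1, m5_R P H W p1 k E r DF rr d ≤ CF * (2 * Err) :=
    mul_le_mul_of_nonneg_left (by linarith) CF0
  have s5 : s.X * (CF * Pi0) * ((∑ d ∈ Dv P' D1, (8 * (k : ℝ)) ^ d.primeFactors.card / d) *
      (τ0 + 100 * K * E * (b + 1) / W)) ≤ s.X * (CF * Pi0) * (G0 * (τ0 + 100 * K * E * (b + 1) / W)) :=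
    mul_le_mul_of_nonneg_left (mul_le_mul_of_nonneg_right s2 s3) (mul_nonneg hX0 hCP)
  calc _ ≤ CF * (2 * Err) + s.X * (CF * Pi0) * (G0 * (τ0 + 100 * K * E * (b + 1) / W)) :=
        add_le_add s4 s5
    _ = _ := by ring

end Pool.Agent.Lib.H57T
end

-- from Lib.H57T.M6
section

/-!
# Chunk M6: the transfer theorem, asymptotic form
-/

open Finset

namespace Pool.Agent.Lib.H57T

open Pool.Agent.Lib.H57C


open Pool.Agent.Lib.H15P hiding cfg
open Pool.Agent.Lib.H92G Pool.Agent.Lib.H57M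
theorem mta (K k cF A0 : ℕ) (hK : 1 ≤ K) (hk : 1 ≤ k) : ∃ A B0 : ℕ, ∀ B : ℕ, B0 ≤ B →
    ∀ θ : ℝ, 0 < θ → θ ≤ 1 / 100 → ∃ n0 : ℕ, ∀ n : ℕ, n0 ≤ n →
    ∀ {ι : Type} (s : Seq ι) (P H : Finset ℕ) (i : Option ℕ) (W p1 : ℕ) (R T : ℕ → Finset ℕ)
    (P' : Finset ℕ) (b : ℕ) (hr : ℕ → ℝ) (F : Fam P H → ℝ) (D : ℕ),
    Hy s P H i W p1 R T P' k b → (∀ q : ℕ, q.Prime → 0 ≤ hr q) →
    (∀ q : ℕ, q.Prime → hr q ≤ 2 / q) →
    (∀ q : ℕ, q.Prime → W < q → |hr q - 1 / q| ≤ 2 / (q : ℝ) ^ 2) →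
    H.card = K → W = ⌈Real.log n ^ B⌉₊ → (∀ p ∈ P, p ≤ n) → s.X ≤ n * Real.log n ^ 2 →
    (b : ℝ) ≤ Real.log n ^ 2 → (∀ S, 0 ≤ F S) →
    ExJ P F (Real.log n ^ cF) 3 ((n : ℝ) ^ (2 * θ)) → (n : ℝ) ^ (1 / 2 - θ) ≤ D →
    Lvl s p1 D (K * 3 + 2 * k) (n / Real.log n ^ A) →
    ∑ d ∈ Dv P' (Lv n θ),
      |∑ j ∈ s.S.filter (fun j => inT T d (s.x j)),
          s.wt j * (F (cfg P H i (s.x j)) * Sg (Ps W p1) R (s.x j)) -
        s.X * (AE P H i F * VS (Ps W p1) R s.hd s.Al) *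
          ∏ q ∈ d.primeFactors, (((T q).card : ℝ) * hr q)| ≤ n / Real.log n ^ A0 := by
  obtain ⟨C, hC, hCh⟩ := m6_inv
  set M : ℕ := A0 + cF + 12 * K + 8 * k + 6 with hM
  refine ⟨A0 + cF + 1, A0 + cF + 12 * K + 8 * k + 8, fun B hB θ hθ hθ1 => ?_⟩
  obtain ⟨L0, hL0⟩ := m6_L K k M B C θ hθ
  refine ⟨⌈Real.exp (max L0 6)⌉₊, fun n hn ι s P H i W p1 R T P' b hr F D hy hr0 hr2 hrq hKc hW
    hPn hX hb F0 hF hD hLv => ?_⟩
  have hn1 : Real.exp (max L0 6) ≤ n := (Nat.le_ceil _).trans (by exact_mod_cast hn)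
  have hn0 : (0 : ℝ) < n := lt_of_lt_of_le (Real.exp_pos _) hn1
  have hLL : max L0 6 ≤ Real.log n := (Real.le_log_iff_exp_le hn0).2 hn1
  obtain ⟨a1, a2, a3, a4, a5, a6⟩ := hL0 (Real.log n) ((le_max_left _ _).trans hLL)
  set L := Real.log n with hLdef
  have hLp : 0 < L := by linarith
  have hL1 : 1 ≤ L := by linarith
  have hnL : (n : ℝ) = Real.exp L := (Real.exp_log hn0).symm
  have hn2 : (2 : ℝ) ≤ n := by
    rw [hnL]
    have := Real.add_one_le_exp L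
    linarith
  have hlL : 0 ≤ Real.log L := Real.log_nonneg hL1
  have hWr : (W : ℝ) ≤ 2 * L ^ B ∧ L ^ B ≤ W := by
    rw [hW]
    have h1 := Nat.ceil_lt_add_one (a := L ^ B) (by positivity)
    have h2 : 1 ≤ L ^ B := one_le_pow₀ hL1
    exact ⟨by linarith, Nat.le_ceil _⟩
  have hW2 : (2 : ℝ) ≤ W := by
    have h3 : L ^ 1 ≤ L ^ B := pow_le_pow_right₀ hL1 (by omega)
    rw [pow_one] at h3
    linarith [hWr.2]
  have hlW : Real.log W ≤ B * Real.log L + Real.log 2 := by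
    have h3 := Real.log_le_log (by linarith) hWr.1
    rw [Real.log_mul (by norm_num) (by positivity), Real.log_pow] at h3
    linarith
  have hl2L : Real.log 2 ≤ Real.log L := Real.log_le_log (by norm_num) (by linarith)
  have hlW' : Real.log W ≤ ((B : ℝ) + 1) * Real.log L := by linarith
  have hlW0 : 0 < Real.log W := Real.log_pos (by linarith)
  -- the parameter `r`
  set r : ℕ := 2 * ⌈(M : ℝ) * Real.log L⌉₊ with hrd
  have hre : Even r := ⟨⌈(M : ℝ) * Real.log L⌉₊, by rw [hrd]; ring⟩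
  have hrlo : 2 * (M : ℝ) * Real.log L ≤ r := by
    rw [hrd]
    push_cast
    have := Nat.le_ceil ((M : ℝ) * Real.log L)
    linarith
  have hrhi : (r : ℝ) + 1 ≤ 2 * (M : ℝ) * Real.log L + 3 := by
    rw [hrd]
    push_cast
    have := Nat.ceil_lt_add_one (a := (M : ℝ) * Real.log L) (by positivity)
    linarith
  -- the products
  have hPi : ∏ p ∈ P, (1 + 4 * ((3 : ℕ) : ℝ) / p) ^ K ≤ L ^ (12 * K + 1) := by
    have h1 : ∏ p ∈ P, (1 + 4 * ((3 : ℕ) : ℝ) / p) ^ K ≤ Real.exp (∑ q ∈ P, ((12 * K : ℕ) : ℝ) / (q : ℝ)) := by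
      rw [Real.exp_sum]
      refine prod_le_prod (fun q _ => by positivity) (fun q _ => ?_)
      have h2 := Real.add_one_le_exp (4 * ((3 : ℕ) : ℝ) / q)
      calc (1 + 4 * ((3 : ℕ) : ℝ) / q) ^ K ≤ Real.exp (4 * ((3 : ℕ) : ℝ) / q) ^ K :=
            pow_le_pow_left₀ (by positivity) (by linarith) _
        _ = Real.exp (((12 * K : ℕ) : ℝ) / (q : ℝ)) := by
            rw [← Real.exp_nat_mul]
            congr 1
            push_cast
            ring
    refine h1.trans ((m6_prod C hCh (12 * K) n hn2 P (fun q hq => ⟨(hy.Pp q hq).1, by exact_mod_cast hPn q hq⟩)).trans ?_)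
    rw [pow_succ, mul_comm (L ^ (12 * K)) L]
    exact mul_le_mul_of_nonneg_right a3 (by positivity)
  have hD1n : (Lv n θ : ℝ) ≤ (n : ℝ) ^ (1 / 2 - 4 * θ) := by
    unfold Lv
    exact Nat.floor_le (by positivity)
  have hn1' : (1 : ℝ) ≤ n := by linarith
  have hLvn : (Lv n θ : ℝ) ≤ n := by
    refine hD1n.trans ?_
    calc (n : ℝ) ^ (1 / 2 - 4 * θ) ≤ (n : ℝ) ^ (1 : ℝ) :=
          Real.rpow_le_rpow_of_exponent_le hn1' (by linarith)
      _ = n := Real.rpow_one _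
  have hG : ∑ d ∈ (Icc 1 (Lv n θ)).filter Squarefree, (8 * (k : ℝ)) ^ d.primeFactors.card / d ≤
      L ^ (8 * k + 1) := by
    refine (m6_sqf (Lv n θ) (8 * (k : ℝ)) (by positivity)).trans ?_
    have h1 := m6_prod C hCh (8 * k) n hn2 ((Icc 1 (Lv n θ)).filter Nat.Prime) (fun q hq => by
      rw [mem_filter, mem_Icc] at hq
      refine ⟨hq.2, ?_⟩
      have : (q : ℝ) ≤ (Lv n θ : ℝ) := by exact_mod_cast hq.1.2
      linarith)
    push_cast at h1 a4
    refine h1.trans ?_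
    rw [pow_succ, mul_comm (L ^ (8 * k)) L]
    exact mul_le_mul_of_nonneg_right a4 (by positivity)
  have hτ : Sieve.poly (Sieve.cE (r + 1)) (fun q : ℕ => 2 * (k : ℝ) / q) (Ps W p1) ≤
      L / L ^ (2 * M) := by
    have h1 := Sieve.rankinE (f := fun q : ℕ => 2 * (k : ℝ) / q) (Q := Ps W p1)
      (fun p _ => by positivity) (r + 1) (l := Real.exp 1) (Real.exp_pos _).le
    have h2 : ∏ p ∈ Ps W p1, (1 + Real.exp 1 * (2 * (k : ℝ) / p)) ≤
        Real.exp (∑ q ∈ Ps W p1, ((6 * k : ℕ) : ℝ) / (q : ℝ)) := by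
      rw [Real.exp_sum]
      refine prod_le_prod (fun q _ => by positivity) (fun q _ => ?_)
      have h3 := Real.add_one_le_exp (((6 * k : ℕ) : ℝ) / (q : ℝ))
      refine le_trans ?_ h3
      have h4 : Real.exp 1 * (2 * (k : ℝ) / q) ≤ ((6 * k : ℕ) : ℝ) / (q : ℝ) := by
        have h5 : Real.exp 1 ≤ 3 := by
          have := Real.exp_one_lt_d9
          linarith
        calc Real.exp 1 * (2 * (k : ℝ) / q) ≤ 3 * (2 * (k : ℝ) / q) :=
              mul_le_mul_of_nonneg_right h5 (by positivity)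
          _ = ((6 * k : ℕ) : ℝ) / (q : ℝ) := by
              push_cast
              ring
      linarith
    have h3 := m6_prod C hCh (6 * k) W hW2 (Ps W p1) (fun q hq => by
      unfold Ps at hq
      rw [mem_filter, mem_Icc] at hq
      exact ⟨hq.2.1, by exact_mod_cast hq.1.2⟩)
    have h4 : Real.exp ((6 * k : ℕ) * C) * Real.log W ^ (6 * k) ≤ L := by
      refine le_trans ?_ a5
      refine mul_le_mul_of_nonneg_left ?_ (Real.exp_pos _).le
      exact pow_le_pow_left₀ hlW0.le hlW' _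
    have h5 : Real.exp 1 ^ (r + 1) * Sieve.poly (Sieve.cE (r + 1)) (fun q : ℕ => 2 * (k : ℝ) / q)
        (Ps W p1) ≤ L := h1.trans (h2.trans (h3.trans h4))
    have h6 : L ^ (2 * M) ≤ Real.exp 1 ^ (r + 1) := by
      rw [← Real.exp_nat_mul, mul_one]
      calc L ^ (2 * M) = Real.exp ((2 * M : ℕ) * Real.log L) := by
            rw [Real.exp_nat_mul, Real.exp_log hLp]
        _ ≤ Real.exp ((r + 1 : ℕ) : ℝ) := by
            apply Real.exp_le_exp.2
            push_cast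
            linarith
    have h7 : 0 ≤ Sieve.poly (Sieve.cE (r + 1)) (fun q : ℕ => 2 * (k : ℝ) / q) (Ps W p1) := by
      apply Sieve.poly_nonneg
      · intro D
        unfold Sieve.cE
        split_ifs <;> norm_num
      · intro p _
        positivity
    rw [le_div_iff₀ (by positivity), mul_comm]
    exact (mul_le_mul_of_nonneg_right h6 h7).trans h5
  -- the level
  have hWn : (W : ℝ) ^ (r + 1) ≤ (n : ℝ) ^ θ := by
    have h1 : (W : ℝ) ^ (r + 1) = Real.exp ((r + 1 : ℕ) * Real.log W) := by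
      rw [Real.exp_nat_mul, Real.exp_log (by linarith)]
    rw [h1, Real.rpow_def_of_pos hn0]
    apply Real.exp_le_exp.2
    rw [← hLdef]
    push_cast
    calc ((r : ℝ) + 1) * Real.log W ≤ (2 * (M : ℝ) * Real.log L + 3) * (B * Real.log L + Real.log 2) :=
          mul_le_mul hrhi hlW hlW0.le (by positivity)
      _ = (B * Real.log L + Real.log 2) * (2 * M * Real.log L + 3) := by ring
      _ ≤ θ * L := a6
      _ = L * θ := by ring
  have hDD : (n : ℝ) ^ (2 * θ) * (W : ℝ) ^ (r + 1) * (Lv n θ : ℕ) ≤ D := by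
    refine le_trans ?_ hD
    calc (n : ℝ) ^ (2 * θ) * (W : ℝ) ^ (r + 1) * (Lv n θ : ℕ)
        ≤ (n : ℝ) ^ (2 * θ) * (n : ℝ) ^ θ * (n : ℝ) ^ (1 / 2 - 4 * θ) := by
          apply mul_le_mul _ hD1n (Nat.cast_nonneg _) (by positivity)
          exact mul_le_mul_of_nonneg_left hWn (by positivity)
      _ = (n : ℝ) ^ (1 / 2 - θ) := by
          rw [← Real.rpow_add hn0, ← Real.rpow_add hn0]
          congr 1
          ring
  have hmt := mt s P H i W p1 R T P' k b K 3 r D (Lv n θ) hy hr hr0 hr2 hrq hKc hK (by norm_num) hk hre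
    F F0 (L ^ cF) ((n : ℝ) ^ (2 * θ)) (by positivity) (by positivity) hF hDD
    (n / L ^ (A0 + cF + 1)) hLv (L ^ (12 * K + 1)) (L ^ (8 * k + 1)) (L / L ^ (2 * M)) hPi hG hτ
  refine hmt.trans ?_
  have hfin := m6_final K k cF A0 B L n s.X b W a1 a2 (Nat.cast_nonneg _) hy.X0 (Nat.cast_nonneg _)
    hX hb hWr.2 hB
  rw [← hM] at hfin
  push_cast at hfin ⊢
  exact hfin

end Pool.Agent.Lib.H57T
end

-- from Lib.H57T.RB
section

/-!
# Chunk RB: the remainder terms for the sequence `t + h` prime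
-/

open Finset

namespace Pool.Agent.Lib.H57T

open Pool.Agent.Lib.H57C


open Pool.Agent.Lib.H57M
/-- The hypotheses of the transfer theorem. -/
theorem RB_Hy (B cF K k : ℕ) (θ : ℝ) (n : ℕ) (w : Par K) (H : Finset ℕ) (p1 : ℕ)
    (R T : ℕ → Finset ℕ) (P' : Finset ℕ) (hP : Pre0 B cF θ w H n p1)
    (hT : HRT K k w.W p1 H R T P') (h : ℕ) (hh : h ∈ H) (hn : 1000 ≤ n)
    (hl : 100 * (Real.log n ^ B + 1) ≤ (n : ℝ)) (hL : 1 ≤ Real.log n)
    (hr : 10 * (n : ℝ) ^ (1 / 100 : ℝ) ≤ n) :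
    Hy (sB h (Ya n + h) (Yb n + h)) w.P H (some h) w.W p1 R T P' (K + k) 0 := by
  have hW : 100 * w.W ≤ n := by
    have h1 : (w.W : ℝ) ≤ Real.log n ^ B + 1 := by
      rw [hP.Wdef]
      exact (Nat.ceil_lt_add_one (by positivity)).le
    have h3 : (100 * w.W : ℝ) ≤ n := by linarith
    exact_mod_cast h3
  have hPs : ∀ q ∈ Ps w.W p1, q.Prime := fun q hq => a2_Ps hq
  refine ⟨?_, ?_, ?_, ?_, RB_gq0, RB_gq2, fun q hq _ => RB_gqq q hq,
    fun p hp => ⟨w.prime p hp, w.big p hp⟩, hP.p1p, hP.p1W, hP.HD, ?_, hT.Rr, hT.Rk, ?_,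
    hT.P'p, hT.Tr, ?_, ?_, ?_, ?_⟩
  · intro j _
    show 0 ≤ H59C.lg j
    unfold H59C.lg
    exact Real.log_natCast_nonneg _
  · show 0 ≤ H59C.XX (Ya n + h) (Yb n + h)
    unfold H59C.XX H59C.lg
    exact sum_nonneg fun p _ => Real.log_natCast_nonneg _
  · intro q c c' hc
    show ¬ q ∣ c + h ↔ ¬ q ∣ c' + h
    have h1 : c + h ≡ c' + h [MOD q] := hc.add_right h
    rw [h1.dvd_iff (dvd_refl q)]
  · intro j hj _ q hq hqq
    show ¬ q ∣ j - h + h
    have hj' : j ∈ H59C.Sq (Ya n + h) (Yb n + h) := hj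
    rw [Pool.Agent.Lib.H59C.mem_Sq] at hj'
    obtain ⟨⟨h1, h2⟩, h3⟩ := hj'
    rw [Nat.sub_add_cancel (by omega)]
    intro hd
    have h4 : q = j := (Nat.prime_dvd_prime_iff_eq hq h3).1 hd
    have h5 : 10 * q ≤ n := by
      rcases hqq with hqq | hqq
      · have h6 := hP.PN q hqq
        have h7 : (10 * q : ℝ) ≤ n := by linarith
        exact_mod_cast h7
      · omega
    unfold Ya at h1
    omega
  · intro h' hh'
    rw [Option.some.injEq] at hh'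
    rw [← hh']
    exact hh
  · classical
    intro q hq
    have hqp := hPs q hq
    have h0 : ∀ S : Finset ℕ, S ⊆ R q → (S.card : ℝ) * H59C.gq q ≤ 1 := by
      intro S hS
      have h1 : S.card + 1 ≤ q := by
        have h2 := hT.Rq q hq
        have h3 := card_le_card hS
        omega
      have h2 : (S.card : ℝ) + 1 ≤ q := by exact_mod_cast h1
      have h3 : (2 : ℝ) ≤ q := by exact_mod_cast hqp.two_le
      unfold H59C.gq
      rw [mul_one_div, div_le_one (by linarith)]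
      linarith
    exact h0 _ (filter_subset _ _)
  · intro q hq
    have := hT.Tk q hq
    omega
  · intro q hq t ht
    exact hT.TH q hq t ht h hh
  · intro q hq t ht h' hh' _
    exact hT.TH q hq t ht h' hh'
  · classical
    rw [Nat.le_zero, card_eq_zero]
    refine Finset.eq_empty_of_forall_notMem fun p hpf => ?_
    rw [mem_filter] at hpf
    obtain ⟨hp, h', hh', hne, c, hc1, hc2⟩ := hpf
    have hc3 : p ∣ c + h := by
      by_contra hcon
      exact hc2 hcon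
    have hne' : h ≠ h' := fun he => hne (by rw [he])
    exact hP.HD p hp h hh h' hh' hne' (tg_ne hc3 hc1)

/-- Proof. `mta` with `k` replaced by `K + k`, for the sequence `sB h (Ya n + h) (Yb n + h)`, `i = some h`, `P = w.P`, `F = FC w H`,
`b = 0`, `hr = gq`, `D = DD n B1` from `lvlB A (3 K + 2 (K + k))` (`n^(1/2 - θ) ≤ DD n B1` for large `n`). `A'` is the one of `lvlB`. The hypotheses `Hy`:
* `nev`: `t = p - h`, `t + h = p > Ya n` prime, and the primes of `w.P` and those `≤ W` are `≤ n^(1/100) < p` (`Pre0.PN`, `Wdef`).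
* `hd = gq`: `1/(q-1) - 1/q = 1/(q(q-1)) ≤ 2/q^2`.
* `R1`: `#R < q` and the class `-h` (which is in `R q` by `RH`) is not allowed: `#.. ≤ q - 1` (even `q - 2`), `gq q = 1/(q-1)`.
* `TA`, `TH`: `HRT.TH`. `bad`: empty (`p ∣ c + h'`, `p ∣ c + h`, `h ≠ h'`, `|h - h'| ≤ W < p`).
`FC w H (cfg ..) = FF`; `VS = VbR` (`vs_BR`); `0 ≤ XX ≤ n log^2 n`. -/
theorem rBR (K k cF A0 : ℕ) (hK : 1 ≤ K) (hk : 1 ≤ k) : ∃ A' B0 : ℕ, ∀ B : ℕ, B0 ≤ B → ∀ θ : ℝ,
    0 < θ → θ ≤ 1 / 100 → ∃ n0 : ℕ, ∀ n : ℕ, n0 ≤ n → ∀ (w : Par K) (H : Finset ℕ) (p1 : ℕ)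
    (R T : ℕ → Finset ℕ) (P' : Finset ℕ), Pre0 B cF θ w H n p1 → HRT K k w.W p1 H R T P' →
    H59C.SWp A' n p1 → ∀ h ∈ H, ∑ d ∈ Dv P' (Lv n θ),
    |∑ p ∈ (H59C.Sq (Ya n + h) (Yb n + h)).filter (fun p => inT T d (p - h)),
        H59C.lg p * (FF w H (some h) (p - h) * Sg (Ps w.W p1) R (p - h)) -
      H59C.XX (Ya n + h) (Yb n + h) * (AE w.P H (some h) (FC w H) * VbR (Ps w.W p1) R) *
        ∏ q ∈ d.primeFactors, (((T q).card : ℝ) * H59C.gq q)| ≤ n / Real.log n ^ A0 := by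
  obtain ⟨A, B0, hm⟩ := mta K (K + k) cF A0 hK (by omega)
  obtain ⟨A', B1, n1, hl⟩ := lvlB A (K * 3 + 2 * (K + k))
  refine ⟨A', B0, fun B hB θ hθ hθ1 => ?_⟩
  obtain ⟨n2, hm2⟩ := hm B hB θ hθ hθ1
  obtain ⟨n3, hn3⟩ := RB_DD B1 θ hθ hθ1
  obtain ⟨n4, hn4⟩ := RB_large B
  refine ⟨max (max n1 n2) (max n3 n4), fun n hn w H p1 R T P' hP hT hSW h hh => ?_⟩
  have hN1 : n1 ≤ n := le_trans (le_trans (le_max_left _ _) (le_max_left _ _)) hn
  have hN2 : n2 ≤ n := le_trans (le_trans (le_max_right _ _) (le_max_left _ _)) hn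
  have hN3 : n3 ≤ n := le_trans (le_trans (le_max_left _ _) (le_max_right _ _)) hn
  have hN4 : n4 ≤ n := le_trans (le_trans (le_max_right _ _) (le_max_right _ _)) hn
  obtain ⟨g1, g2, g3, g4⟩ := hn4 n hN4
  have hnr : (1000 : ℝ) ≤ n := by exact_mod_cast g1
  have hHy := RB_Hy B cF K k θ n w H p1 R T P' hP hT h hh g1 g3 g2 g4
  have hhW := hP.HN h hh
  have hYn : Yb n + h ≤ n := by
    unfold Yb
    omega
  have hYY : Ya n ≤ Yb n := by
    unfold Ya Yb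
    omega
  have hlvl := hl n hN1 p1 hSW h (Ya n + h) (Yb n + h) (by omega) (by omega) (by omega)
  have hPn : ∀ p ∈ w.P, p ≤ n := by
    intro p hp
    have h1 := hP.PN p hp
    have h2 : (p : ℝ) ≤ n := by
      have h3 : 0 ≤ (n : ℝ) ^ (1 / 100 : ℝ) := Real.rpow_nonneg (by linarith) _
      linarith
    exact_mod_cast h2
  have hX : (sB h (Ya n + h) (Yb n + h)).X ≤ n * Real.log n ^ 2 := RB_XX n _ _ hYn g2
  have hb : ((0 : ℕ) : ℝ) ≤ Real.log n ^ 2 := by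
    rw [Nat.cast_zero]
    exact sq_nonneg _
  have key := hm2 n hN2 (sB h (Ya n + h) (Yb n + h)) w.P H (some h) w.W p1 R T P' 0 H59C.gq
    (FC w H) (H59C.DD n B1) hHy RB_gq0 RB_gq2 (fun q hq _ => RB_gqq q hq) hP.cardH hP.Wdef hPn hX hb
    (RB_FC w H) hP.exF (hn3 n hN3) hlvl
  have hVS : VS (Ps w.W p1) R H59C.gq (fun q c => ¬ q ∣ c + h) = VbR (Ps w.W p1) R :=
    vs_BR _ R h (fun q hq => a2_Ps hq) (fun q _ => hT.Rr q) (fun q hq => hT.RH q hq h hh)
  rw [← hVS]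
  exact key

/-- Proof. `rBR` with `k = 1`, `A0 = 10`, `R = Rb N H`, `T q = {N % q}`, `P' = Pg N w.W H` (`pre_hrt`, `Pre.to0`). `inT T d (p - h)` iff `d ∣ N - (p - h) =
Nat.dist (N + h) p` (`inT_iff`; `h ≤ p ≤ N + h`), `∏ gq = 1/φ(d)` (`prod_gq`). -/
theorem rB (K cF : ℕ) (hK : 1 ≤ K) : ∃ A' B0 : ℕ, ∀ B : ℕ, B0 ≤ B → ∀ θ : ℝ, 0 < θ →
    θ ≤ 1 / 100 → ∃ n0 : ℕ, ∀ N : ℕ, n0 ≤ N → ∀ (w : Par K) (H : Finset ℕ) (a p1 : ℕ),
    Pre B cF θ w H N a p1 → H59C.SWp A' N p1 → ∀ h ∈ H, ∑ d ∈ Dv (Pg N w.W H a) (Lv N θ),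
    |∑ p ∈ (H59C.Sq (Ya N + h) (Yb N + h)).filter (fun p => d ∣ tv a h p),
        H59C.lg p * Fs w H a p1 (some h) (p - h) -
      Xh w H N a p1 h / (Nat.totient d : ℝ)| ≤ N / Real.log N ^ 10 := by
  obtain ⟨A', B0, hm⟩ := rBR K 1 cF 10 hK (le_refl 1)
  refine ⟨A', B0, fun B hB θ hθ hθ1 => ?_⟩
  obtain ⟨n0, hn0⟩ := hm B hB θ hθ hθ1
  refine ⟨n0, fun N hN w H a p1 hP hSW h hh => ?_⟩
  have key := hn0 N hN w H p1 (Rb a H) (Tg a) (Pg N w.W H a) hP.to0
    (pre_hrt B cF θ w H N a p1 hP) hSW h hh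
  refine le_trans (le_of_eq ?_) key
  refine sum_congr rfl fun d hd => ?_
  have hsq : Squarefree d := by
    unfold Dv at hd
    exact (mem_filter.1 hd).2.1
  have hYb : Yb N ≤ N := by
    unfold Yb
    omega
  have hf : (H59C.Sq (Ya N + h) (Yb N + h)).filter (fun p => d ∣ tv a h p) =
      (H59C.Sq (Ya N + h) (Yb N + h)).filter (fun p => inT (Tg a) d (p - h)) := by
    refine filter_congr fun p hp => ?_
    rw [tg_inT d (p - h) a hsq]
    rfl
  have hg : ∏ q ∈ d.primeFactors, (((Tg a q).card : ℝ) * H59C.gq q) =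
      1 / (Nat.totient d : ℝ) := by
    rw [← prod_gq d hsq]
    refine prod_congr rfl fun q hq => ?_
    rw [tg_card (Nat.prime_of_mem_primeFactors hq).pos, Nat.cast_one, one_mul]
  rw [hf, hg, mul_one_div]
  rfl

end Pool.Agent.Lib.H57T
end

-- from Lib.H57T.RC
section

/-!
# Chunk RC: the remainder terms for the switched sequence
-/

open Finset

namespace Pool.Agent.Lib.H57T

open Pool.Agent.Lib.H57C


open Pool.Agent.Lib.H57M
theorem rc_nev {N a M u v q : ℕ} {α : ℕ → ℝ} {x : ℕ × ℕ} (hx : x ∈ H59C.BX M u v)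
    (hw : H59C.wB α x ≠ 0) (hα : ∀ m, α m ≠ 0 → ∀ r : ℕ, r.Prime → r ∣ m → (N : ℝ) ^ (1 / 10 : ℝ) ≤ r)
    (hu : (N : ℝ) ^ (1 / 4 : ℝ) ≤ u) (hN : 2 ≤ N) (hq : q.Prime) (hqN : (q : ℝ) < (N : ℝ) ^ (1 / 10 : ℝ)) :
    ¬ q ∣ xv N a x + a := by
  intro hc
  have hN1 : (1 : ℝ) ≤ N := by exact_mod_cast (by omega : 1 ≤ N)
  have hqN' : (q : ℝ) ≤ N := hqN.le.trans (by
    calc (N : ℝ) ^ (1 / 10 : ℝ) ≤ (N : ℝ) ^ (1 : ℝ) := Real.rpow_le_rpow_of_exponent_le hN1 (by norm_num)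
      _ = N := Real.rpow_one _)
  have hqN2 : q ≤ N := by exact_mod_cast hqN'
  have hfac : q ∣ N.factorial := Nat.dvd_factorial hq.pos hqN2
  have hfp : 0 < N.factorial := Nat.factorial_pos N
  have h4 : q ∣ x.1 * x.2 := by
    have h1 : xv N a x + a = x.1 * x.2 + N.factorial * a := by
      unfold xv
      have h2 : N.factorial - 1 + 1 = N.factorial := Nat.sub_add_cancel (Nat.factorial_pos N)
      calc x.1 * x.2 + (N.factorial - 1) * a + a = x.1 * x.2 + (N.factorial - 1 + 1) * a := by ring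
        _ = x.1 * x.2 + N.factorial * a := by rw [h2]
    rw [h1] at hc
    exact (Nat.dvd_add_left (hfac.mul_right a)).1 hc
  have hα0 : α x.1 ≠ 0 := by
    intro h5
    apply hw
    unfold H59C.wB
    rw [h5, zero_mul]
  unfold H59C.BX at hx
  rw [mem_product, H59C.mem_Sq] at hx
  rcases hq.dvd_mul.1 h4 with h5 | h5
  · exact absurd (hα _ hα0 q hq h5) (not_le.2 hqN)
  · have h6 : q = x.2 := (Nat.prime_dvd_prime_iff_eq hq hx.2.2).1 h5
    have h7 : u < q := by rw [h6]; exact hx.2.1.1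
    have h8 : (u : ℝ) < q := by exact_mod_cast h7
    have h9 : (N : ℝ) ^ (1 / 10 : ℝ) ≤ (N : ℝ) ^ (1 / 4 : ℝ) :=
      Real.rpow_le_rpow_of_exponent_le hN1 (by norm_num)
    linarith

open Classical in
/-- Proof. `mta` with `k = K + 2`, `A0 = 10`, for the sequence `sC N a M u v α` (with `lvlC`), `i = some h`, `P = w.P`, `F = FC w H`, `R = Rb a H`,
`T q = {c < q : q ∣ c + h}` (one element), `P' = Pg N W H`, `hr = gq`, `b` = the number of primes `> W` dividing some `N + h'`: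
at most `K log (2N)/log 2 ≤ log^2 N`. The hypotheses `Hy`:
* `nev`: if `xv N a x ≡ N [MOD q]`, `q ≤ N^(1/100)` a prime (`q ∣ N!`), then `q ∣ x1 x2`; `wt ≠ 0` implies `α x1 ≠ 0`, so the prime factors of `x1` are
  `≥ N^(1/10)`, and `x2` is a prime `> u ≥ N^(1/4)`: impossible.
* `TA`: `q ∣ t + h` and `t ≡ N` imply `q ∣ N + h`. `TH`: `q ∣ t + h`, `q ∣ t + h'`, `|h - h'| ≤ W < q`.
* `R1`: the class of `N` is not allowed, so `#.. ≤ q - 1`... (`#Rb < q`).
* `XB ≤ 8 N log (8 N) ≤ N log^2 N`, `XB ≥ 0`.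
`remd` has the additional condition `q < z` and `d ≤ Lv N θ` (floor of a cast), a subset of `Dv` (`sum_le_sum_of_subset_of_nonneg`);
`d ∣ xv N a x + h` iff `inT T d (xv N a x)` for squarefree `d`; `VS = Vb` (`vs_C`). -/
theorem rC (K cF : ℕ) (hK : 1 ≤ K) : ∃ A' B0 : ℕ, ∀ B : ℕ, B0 ≤ B → ∀ θ : ℝ, 0 < θ →
    θ ≤ 1 / 100 → ∃ n0 : ℕ, ∀ N : ℕ, n0 ≤ N → ∀ (w : Par K) (H : Finset ℕ) (a p1 : ℕ),
    Pre B cF θ w H N a p1 → H59C.SWp A' N p1 → ∀ h ∈ H, ∀ (M u v : ℕ) (α : ℕ → ℝ),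
    (∀ m, 0 ≤ α m ∧ α m ≤ 1) →
    (∀ m, α m ≠ 0 → ∀ r : ℕ, r.Prime → r ∣ m → (N : ℝ) ^ (1 / 10 : ℝ) ≤ r) →
    (N : ℝ) ^ (1 / 4 : ℝ) ≤ M → (N : ℝ) ^ (1 / 4 : ℝ) ≤ u → u ≤ v → M * v ≤ 8 * N → ∀ z : ℝ,
    H59C.remd (H59C.BX M u v) (fun x => H59C.wB α x * Fs w H a p1 (some h) (xv N a x))
      (fun x => xv N a x + h) (Pg N w.W H a) z
      (H59C.XB M u v α * (AE w.P H (some h) (FC w H) * Vb a w.W p1 H)) (Lv N θ) ≤
      N / Real.log N ^ 10 := by
  obtain ⟨A, B0, hm⟩ := mta K (K + 2) cF 10 hK (by omega)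
  obtain ⟨A', B1, nC, hC⟩ := lvlC A (K * 3 + 2 * (K + 2))
  refine ⟨A', B0, fun B hB θ hθ hθ1 => ?_⟩
  obtain ⟨nM, hM⟩ := hm B hB θ hθ hθ1
  obtain ⟨nL, hL⟩ := rc_large K B B1 θ hθ hθ1
  refine ⟨max nC (max nM nL), fun N hN w H a p1 hpre hSW h hh M u v α hα hα2 hMN hu huv hMv z => ?_⟩
  have hNC : nC ≤ N := le_trans (le_max_left _ _) hN
  have hNM : nM ≤ N := le_trans (le_trans (le_max_left _ _) (le_max_right _ _)) hN
  have hNL : nL ≤ N := le_trans (le_trans (le_max_right _ _) (le_max_right _ _)) hN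
  obtain ⟨hN2, hX, hbb, hD, hW10⟩ := hL N hNL
  have hN1 : (1 : ℝ) ≤ N := by exact_mod_cast (by omega : 1 ≤ N)
  have huv' : (u : ℝ) ≤ v := by exact_mod_cast huv
  have hv4 : (N : ℝ) ^ (1 / 4 : ℝ) ≤ v := hu.trans huv'
  have h14 : 1 ≤ (N : ℝ) ^ (1 / 4 : ℝ) := Real.one_le_rpow hN1 (by norm_num)
  have hM1 : 1 ≤ M := by exact_mod_cast h14.trans hMN
  have hv1 : 1 ≤ v := by exact_mod_cast h14.trans hv4
  obtain ⟨hX0, hX1⟩ := rc_XB N M u v α hα hM1 huv hv1 hMv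
  have hWr : (w.W : ℝ) < (N : ℝ) ^ (1 / 10 : ℝ) := by rw [hpre.Wdef]; exact hW10
  have h10N : (N : ℝ) ^ (1 / 10 : ℝ) ≤ N := by
    calc (N : ℝ) ^ (1 / 10 : ℝ) ≤ (N : ℝ) ^ (1 : ℝ) := Real.rpow_le_rpow_of_exponent_le hN1 (by norm_num)
      _ = N := Real.rpow_one _
  have hWN : w.W ≤ N := by exact_mod_cast (hWr.le.trans h10N)
  have hPN : ∀ p ∈ w.P, (p : ℝ) < (N : ℝ) ^ (1 / 10 : ℝ) := by
    intro p hp
    refine (hpre.PN p hp).trans_lt ?_
    exact Real.rpow_lt_rpow_of_exponent_lt (by exact_mod_cast (by omega : 1 < N)) (by norm_num)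
  have hPg : ∀ q ∈ Pg N w.W H a, q.Prime ∧ w.W < q ∧ ∀ h ∈ H, ¬ a ≡ h [MOD q] := fun q hq =>
    ⟨(pg_spec hq).1, (pg_spec hq).2.1, (pg_spec hq).2.2.2.1⟩
  have hPs : ∀ q ∈ Ps w.W p1, q.Prime := fun q hq => a2_Ps hq
  obtain ⟨b, hbdef⟩ : ∃ b : ℕ, b = (w.P.filter (fun p => ∃ h' ∈ H, some h ≠ some h' ∧
      ∃ c : ℕ, p ∣ c + h' ∧ ¬ (sC N a M u v α).Al p c)).card := ⟨_, rfl⟩
  have hb2 : (b : ℝ) ≤ Real.log N ^ 2 := by
    have hb0 : b = 0 := by
      rw [hbdef, card_eq_zero, filter_eq_empty_iff]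
      rintro p hp ⟨h', hh', _, c, hc1, hc2⟩
      exact hpre.aD p hp h' hh' (tg_ne (not_not.1 hc2) hc1)
    rw [hb0, Nat.cast_zero]
    exact sq_nonneg _
  have hy : Hy (sC N a M u v α) w.P H (some h) w.W p1 (Rb a H) (Tg h) (Pg N w.W H a) (K + 2) b := by
    refine ⟨?_, hX0, ?_, ?_, fun q hq => (rc_gq q hq).1, fun q hq => (rc_gq q hq).2.1,
      fun q hq _ => (rc_gq q hq).2.2, fun p hp => ⟨w.prime p hp, w.big p hp⟩, hpre.p1p, hpre.p1W,
      hpre.HD, ?_, fun q => rb_sub, ?_, ?_, fun q hq => ⟨(hPg q hq).1, (hPg q hq).2.1⟩, ?_, ?_, ?_, ?_, ?_⟩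
    · rintro ⟨x1, x2⟩ _
      exact mul_nonneg (hα x1).1 (Real.log_natCast_nonneg x2)
    · intro q c c' hcc
      have h1 : c + a ≡ c' + a [MOD q] := hcc.add_right a
      exact not_congr (h1.dvd_iff (dvd_refl q))
    · intro x hx hwx q hq hq2
      refine rc_nev hx hwx hα2 hu hN2 hq ?_
      rcases hq2 with h1 | ⟨h1, _⟩
      · exact hPN q h1
      · exact lt_of_le_of_lt (by exact_mod_cast h1) hWr
    · intro h' hh'
      exact Option.some_injective _ hh' ▸ hh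
    · intro q hq
      have h1 := rb_card a H q
      rw [hpre.cardH] at h1
      omega
    · intro q hq
      have hqp := hPs q hq
      have hq2 : (2 : ℝ) ≤ q := by exact_mod_cast hqp.two_le
      have h1 : ((Rb a H q).filter (fun c => (sC N a M u v α).Al q c)).card ≤ q - 1 := by
        have h2 := hpre.nf q hqp
        have h3 := Finset.card_filter_le (Rb a H q) (fun c => (sC N a M u v α).Al q c)
        omega
      have h4 : (((Rb a H q).filter (fun c => (sC N a M u v α).Al q c)).card : ℝ) ≤ (q : ℝ) - 1 := by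
        have h5 : (((Rb a H q).filter (fun c => (sC N a M u v α).Al q c)).card : ℝ) ≤ ((q - 1 : ℕ) : ℝ) := by
          exact_mod_cast h1
        rwa [Nat.cast_sub hqp.one_le, Nat.cast_one] at h5
      have h5 : (sC N a M u v α).hd q = 1 / ((q : ℝ) - 1) := rfl
      rw [h5, mul_one_div, div_le_one (by linarith)]
      exact h4
    · intro q hq
      exact Finset.filter_subset _ _
    · intro q hq
      rw [tg_card (hPg q hq).1.pos]
      omega
    · intro q hq t ht htN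
      unfold Tg at ht
      rw [mem_filter] at ht
      exact (hPg q hq).2.2 h hh (tg_ne htN ht.2)
    · intro q hq t ht h' hh' hne hd
      unfold Tg at ht
      rw [mem_filter] at ht
      have hne' : h ≠ h' := fun h1 => hne (by rw [h1])
      exact (pg_spec hq).2.2.2.2 h hh h' hh' hne' (tg_ne ht.2 hd)
    · exact le_of_eq hbdef.symm
  have hz : 0 ≤ w.z := by
    unfold Par.z
    have : 0 ≤ ∑ i, H15P.ex (H15P.qq w.P K) (fun A => w.D i A ^ 2) :=
      Finset.sum_nonneg fun i _ => H15P.ex_nonneg _ w.good.q0 w.good.q1 _ fun A => sq_nonneg _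
    linarith
  have hF0 : ∀ S, 0 ≤ FC w H S := by
    intro S
    unfold FC
    exact div_nonneg (sq_nonneg _) (pow_nonneg hz _)
  have hlvl := hC N hNC p1 hpre.p1p hSW a M u v α hα hα2 hMN hv4 huv hMv
  have hmain := hM N hNM (sC N a M u v α) w.P H (some h) w.W p1 (Rb a H) (Tg h) (Pg N w.W H a) b H59C.gq
    (FC w H) (H59C.DD N B1) hy (fun q hq => (rc_gq q hq).1) (fun q hq => (rc_gq q hq).2.1)
    (fun q hq _ => (rc_gq q hq).2.2) hpre.cardH hpre.Wdef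
    (fun p hp => by exact_mod_cast ((hPN p hp).le.trans h10N)) (hX1.trans hX) hb2 hF0 hpre.exF hD hlvl
  refine le_trans ?_ hmain
  have hVS : VS (Ps w.W p1) (Rb a H) (sC N a M u v α).hd (sC N a M u v α).Al = Vb a w.W p1 H := vs_C a w.W p1 H
  rw [hVS]
  unfold H59C.remd Dv
  rw [Nat.floor_natCast]
  refine (Finset.sum_le_sum fun d hd => le_of_eq ?_).trans (Finset.sum_le_sum_of_subset_of_nonneg ?_ fun d _ _ => abs_nonneg _)
  · rw [mem_filter] at hd
    have hsq := hd.2.1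
    have h1 : ∏ q ∈ d.primeFactors, (((Tg h q).card : ℝ) * H59C.gq q) = 1 / (Nat.totient d : ℝ) := by
      rw [← prod_gq d hsq]
      refine Finset.prod_congr rfl fun q hq => ?_
      rw [tg_card (Nat.prime_of_mem_primeFactors hq).pos]
      push_cast
      ring
    rw [h1]
    congr 1
    have h2 : (H59C.BX M u v).filter (fun x => d ∣ xv N a x + h) =
        (sC N a M u v α).S.filter (fun j => inT (Tg h) d ((sC N a M u v α).x j)) := by
      refine Finset.filter_congr fun x _ => ?_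
      exact (tg_inT d (xv N a x) h hsq).symm
    have h3 : ∑ x ∈ (H59C.BX M u v).filter (fun x => d ∣ xv N a x + h),
        H59C.wB α x * Fs w H a p1 (some h) (xv N a x) =
        ∑ j ∈ (sC N a M u v α).S.filter (fun j => inT (Tg h) d ((sC N a M u v α).x j)),
          (sC N a M u v α).wt j * (FC w H (cfg w.P H (some h) ((sC N a M u v α).x j)) *
            Sg (Ps w.W p1) (Rb a H) ((sC N a M u v α).x j)) := by
      rw [h2]
      rfl
    have h4 : H59C.XB M u v α * (AE w.P H (some h) (FC w H) * Vb a w.W p1 H) / (Nat.totient d : ℝ) =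
        (sC N a M u v α).X * (AE w.P H (some h) (FC w H) * Vb a w.W p1 H) * (1 / (Nat.totient d : ℝ)) := by
      rw [mul_one_div]
      rfl
    rw [← h4, ← h3]
  · intro d hd
    rw [mem_filter] at hd ⊢
    exact ⟨hd.1, hd.2.1, fun q hq => (hd.2.2 q hq).1⟩

end Pool.Agent.Lib.H57T
end

-- from Lib.H57T.RI
section

/-!
# Chunk RI: the remainder terms for the integers
-/

open Finset

namespace Pool.Agent.Lib.H57T

open Pool.Agent.Lib.H57C


open Pool.Agent.Lib.H57M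
/-- The hypotheses for the integers. -/
theorem ri_hy {B cF : ℕ} {θ : ℝ} {K k : ℕ} {w : Par K} {H : Finset ℕ} {n p1 : ℕ}
    {R T : ℕ → Finset ℕ} {P' : Finset ℕ} (h0 : Pre0 B cF θ w H n p1)
    (h1 : HRT K k w.W p1 H R T P') (N r y1 y2 : ℕ) (hy : y1 ≤ y2) (i : Option ℕ)
    (hi : ∀ h, i = some h → h ∈ H) (T' : ℕ → Finset ℕ) (k' : ℕ) (hk : K + k ≤ k')
    (Tr : ∀ q ∈ P', T' q ⊆ range q) (Tk : ∀ q ∈ P', (T' q).card ≤ k')
    (TH : ∀ q ∈ P', ∀ t ∈ T' q, ∀ h ∈ H, i ≠ some h → ¬ q ∣ t + h) :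
    Hy (sI N r y1 y2) w.P H i w.W p1 R T' P' k' 0 where
  w0 := fun j _ => zero_le_one
  X0 := by
    have : (y1 : ℝ) ≤ y2 := by exact_mod_cast hy
    have h2 : (0 : ℝ) ≤ (y2 : ℝ) - y1 := by linarith
    exact div_nonneg h2 (Nat.cast_nonneg r)
  al := fun q c c' _ => Iff.rfl
  nev := fun j _ _ q _ _ => trivial
  hd0 := fun q _ => by
    show (0 : ℝ) ≤ 1 / (q : ℝ)
    positivity
  hd2 := fun q _ => by
    show 1 / (q : ℝ) ≤ 2 / (q : ℝ)
    gcongr
    norm_num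
  hdq := fun q _ _ => by
    show |1 / (q : ℝ) - 1 / (q : ℝ)| ≤ 2 / (q : ℝ) ^ 2
    rw [sub_self, abs_zero]
    positivity
  Pp := fun p hp => ⟨w.prime p hp, w.big p hp⟩
  p1p := h0.p1p
  p1W := h0.p1W
  HD := h0.HD
  iH := hi
  Rr := h1.Rr
  Rk := fun q hq => (h1.Rk q hq).trans hk
  R1 := fun q hq => by
    classical
    have h2 : (((R q).filter (fun c => (sI N r y1 y2).Al q c)).card : ℝ) ≤ q := by
      have h3 : ((R q).filter (fun c => (sI N r y1 y2).Al q c)).card ≤ q :=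
        (card_filter_le _ _).trans (h1.Rq q hq).le
      exact_mod_cast h3
    have hq0 : (0 : ℝ) < q := by exact_mod_cast (ri_Ps hq).1.pos
    show _ * (1 / (q : ℝ)) ≤ 1
    rw [mul_one_div, div_le_one hq0]
    exact h2
  P'p := h1.P'p
  Tr := Tr
  Tk := Tk
  TA := fun q _ t _ => trivial
  TH := TH
  bad := by
    classical
    rw [Nat.le_zero, card_eq_zero, filter_eq_empty_iff]
    rintro p _ ⟨h, _, _, c, _, hn⟩
    exact hn trivial

/-- Proof. `mta` with `k` replaced by `K + k`, for the sequence `sI 0 1 (Ya n) (Yb n)` (`lvlI`, `D = ⌊√n⌋₊ ≥ n^(1/2 - θ)`), `i = none`, `b = 0`.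
All classes are allowed. `TH`: `HRT.TH`. `R1`: `#R ≤ q`, `hd = 1/q`. `VS = VaR` (`vs_IR`), the condition `t ≡ 0 [MOD 1]` is empty. -/
theorem rIR (K k cF A0 : ℕ) (hK : 1 ≤ K) (hk : 1 ≤ k) : ∃ B0 : ℕ, ∀ B : ℕ, B0 ≤ B → ∀ θ : ℝ,
    0 < θ → θ ≤ 1 / 100 → ∃ n0 : ℕ, ∀ n : ℕ, n0 ≤ n → ∀ (w : Par K) (H : Finset ℕ) (p1 : ℕ)
    (R T : ℕ → Finset ℕ) (P' : Finset ℕ), Pre0 B cF θ w H n p1 → HRT K k w.W p1 H R T P' →
    ∀ hr : ℕ → ℝ, (∀ q : ℕ, q.Prime → 0 ≤ hr q) → (∀ q : ℕ, q.Prime → hr q ≤ 2 / q) →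
    (∀ q : ℕ, q.Prime → w.W < q → |hr q - 1 / q| ≤ 2 / (q : ℝ) ^ 2) →
    ∑ d ∈ Dv P' (Lv n θ),
    |∑ t ∈ (Ioc (Ya n) (Yb n)).filter (fun t => inT T d t),
        FF w H none t * Sg (Ps w.W p1) R t -
      ((Yb n : ℝ) - Ya n) * (AE w.P H none (FC w H) * VaR (Ps w.W p1) R) *
        ∏ q ∈ d.primeFactors, (((T q).card : ℝ) * hr q)| ≤ n / Real.log n ^ A0 := by
  obtain ⟨A, B0, hB0⟩ := mta K (K + k) cF A0 hK (by omega)
  refine ⟨B0, fun B hB θ hθ hθ' => ?_⟩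
  obtain ⟨n1, hn1⟩ := hB0 B hB θ hθ hθ'
  obtain ⟨n2, hn2⟩ := lvlI A (K * 3 + 2 * (K + k))
  obtain ⟨n3, hn3⟩ := ri_lev θ hθ
  refine ⟨max (max n1 n2) (max n3 3), fun n hn w H p1 R T P' h0 h1 hr hr0 hr2 hrq => ?_⟩
  have hn1' : n1 ≤ n := ((le_max_left _ _).trans (le_max_left _ _)).trans hn
  have hn2' : n2 ≤ n := ((le_max_right _ _).trans (le_max_left _ _)).trans hn
  have hn3' : n3 ≤ n := ((le_max_left _ _).trans (le_max_right _ _)).trans hn
  have hn4' : 3 ≤ n := ((le_max_right _ _).trans (le_max_right _ _)).trans hn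
  have hn0 : (1 : ℝ) ≤ n := by
    have : 1 ≤ n := by omega
    exact_mod_cast this
  have hHy := ri_hy h0 h1 0 1 (Ya n) (Yb n) (ri_Ya n) none (by simp) T (K + k) le_rfl h1.Tr
    (fun q hq => (h1.Tk q hq).trans (by omega)) (fun q hq t ht h hh _ => h1.TH q hq t ht h hh)
  have key := hn1 n hn1' (sI 0 1 (Ya n) (Yb n)) w.P H none w.W p1 R T P' 0 hr (FC w H)
    ⌊Real.sqrt n⌋₊ hHy hr0 hr2 hrq h0.cardH h0.Wdef
    (fun p hp => by
      have h2 := h0.PN p hp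
      have h3 : (n : ℝ) ^ (1 / 100 : ℝ) ≤ (n : ℝ) ^ (1 : ℝ) :=
        Real.rpow_le_rpow_of_exponent_le hn0 (by norm_num)
      rw [Real.rpow_one] at h3
      exact_mod_cast h2.trans h3)
    (ri_X n 0 1 le_rfl hn4') (by push_cast; positivity) (ri_FC w H) h0.exF (hn3 n hn3')
    (hn2 n hn2' p1 0 1 (Ya n) (Yb n) h0.p1p (Or.inl rfl) (ri_Ya n))
  refine le_trans (le_of_eq ?_) key
  refine sum_congr rfl fun d _ => ?_
  have e1 : (sI 0 1 (Ya n) (Yb n)).S = Ioc (Ya n) (Yb n) := by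
    show (Ioc (Ya n) (Yb n)).filter (fun t => t ≡ 0 [MOD 1]) = _
    rw [filter_true_of_mem]
    intro t _
    exact Nat.modEq_one
  have e2 : VS (Ps w.W p1) R (sI 0 1 (Ya n) (Yb n)).hd (sI 0 1 (Ya n) (Yb n)).Al =
      VaR (Ps w.W p1) R := vs_IR _ _
  rw [e1, e2]
  congr 1
  congr 1
  · refine sum_congr rfl fun t _ => ?_
    show _ = 1 * _
    rw [one_mul]
    rfl
  · congr 2
    show _ = ((Yb n : ℝ) - Ya n) / ((1 : ℕ) : ℝ)
    rw [Nat.cast_one, div_one]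

/-- Proof. `rIR` with `k = 1`, `A0 = 10`, `R = Rb N H`, `T q = {N % q}`, `P' = Pg N w.W H`, `hr = gq` (`pre_hrt`, `Pre.to0`, `inT_iff`, `prod_gq`). -/
theorem rI (K cF : ℕ) (hK : 1 ≤ K) : ∃ B0 : ℕ, ∀ B : ℕ, B0 ≤ B → ∀ θ : ℝ, 0 < θ →
    θ ≤ 1 / 100 → ∃ n0 : ℕ, ∀ N : ℕ, n0 ≤ N → ∀ (w : Par K) (H : Finset ℕ) (a p1 : ℕ),
    Pre B cF θ w H N a p1 → ∑ d ∈ Dv (Pg N w.W H a) (Lv N θ),
    |∑ t ∈ (Ioc (Ya N) (Yb N)).filter (fun t => d ∣ t + a), Fs w H a p1 none t -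
      Xi w H N a p1 / (Nat.totient d : ℝ)| ≤ N / Real.log N ^ 10 := by
  obtain ⟨B0, hB0⟩ := rIR K 1 cF 10 hK le_rfl
  refine ⟨B0, fun B hB θ hθ hθ' => ?_⟩
  obtain ⟨n0, hn0⟩ := hB0 B hB θ hθ hθ'
  refine ⟨n0, fun N hN w H a p1 hp => ?_⟩
  have h1 := hn0 N hN w H p1 (Rb a H) (Tg a) (Pg N w.W H a) hp.to0
    (pre_hrt B cF θ w H N a p1 hp) H59C.gq ?_ ?_ ?_
  · refine le_trans (le_of_eq ?_) h1
    refine sum_congr rfl fun d hd => ?_
    have hsq : Squarefree d := by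
      unfold Dv at hd
      exact (mem_filter.1 hd).2.1
    have e1 : (Ioc (Ya N) (Yb N)).filter (fun t => d ∣ t + a) =
        (Ioc (Ya N) (Yb N)).filter (fun t => inT (Tg a) d t) := by
      refine filter_congr fun t ht => ?_
      exact (tg_inT d t a hsq).symm
    rw [e1]
    congr 1
    congr 1
    have e2 : ∏ q ∈ d.primeFactors, (((Tg a q).card : ℝ) * H59C.gq q) =
        1 / (Nat.totient d : ℝ) := by
      rw [← prod_gq d hsq]
      refine prod_congr rfl fun q hq => ?_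
      rw [tg_card (Nat.prime_of_mem_primeFactors hq).pos, Nat.cast_one, one_mul]
    rw [e2, mul_one_div]
    rfl
  · intro q hq
    unfold H59C.gq
    have : (2 : ℝ) ≤ q := by exact_mod_cast hq.two_le
    have h2 : (0 : ℝ) ≤ (q : ℝ) - 1 := by linarith
    positivity
  · intro q hq
    unfold H59C.gq
    have : (2 : ℝ) ≤ q := by exact_mod_cast hq.two_le
    rw [div_le_div_iff₀ (by linarith) (by linarith)]
    linarith
  · intro q hq _
    unfold H59C.gq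
    have h2 : (2 : ℝ) ≤ q := by exact_mod_cast hq.two_le
    have h3 : 1 / ((q : ℝ) - 1) - 1 / q = 1 / (((q : ℝ) - 1) * q) := by
      have : (q : ℝ) - 1 ≠ 0 := by linarith
      have : (q : ℝ) ≠ 0 := by linarith
      field_simp
      ring
    have h4 : (0 : ℝ) < ((q : ℝ) - 1) * q := by nlinarith
    rw [h3, abs_of_nonneg (by positivity), div_le_div_iff₀ h4 (by positivity)]
    nlinarith

end Pool.Agent.Lib.H57T
end

-- from Lib.H57T.RJ
section

/-!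
# Chunk RJ: the remainder terms for the integers in one class modulo `p1`, with the additional class `-h`
-/

open Finset

namespace Pool.Agent.Lib.H57T

open Pool.Agent.Lib.H57C


open Pool.Agent.Lib.H57M
/-- Proof. `mta` with `k` replaced by `K + k + 1`, for the sequence `sI c0 p1 (Ya n) (Yb n)` (`lvlI`), `i = some h`, the target classes
`Tp T h q` (exactly `#T q + 1` elements for `q ∈ P'`, since the class `-h` is not in `T q` by `TH`), `b = 0`, `hr q = 1/q`.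
`Hy.TH`: for `h' ≠ h`: `HRT.TH`, and `q ∤ h - h'` as `|h - h'| ≤ W < q`. `VS = VaR`. -/
theorem rJR (K k cF A0 : ℕ) (hK : 1 ≤ K) (hk : 1 ≤ k) : ∃ B0 : ℕ, ∀ B : ℕ, B0 ≤ B → ∀ θ : ℝ,
    0 < θ → θ ≤ 1 / 100 → ∃ n0 : ℕ, ∀ n : ℕ, n0 ≤ n → ∀ (w : Par K) (H : Finset ℕ) (p1 : ℕ)
    (R T : ℕ → Finset ℕ) (P' : Finset ℕ), Pre0 B cF θ w H n p1 → HRT K k w.W p1 H R T P' →
    (∀ q ∈ P', ∀ h ∈ H, ∀ h' ∈ H, h ≠ h' → ¬ h ≡ h' [MOD q]) → ∀ h ∈ H, ∀ c0 : ℕ, ∑ d ∈ Dv P' (Lv n θ),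
    |∑ t ∈ (Ioc (Ya n) (Yb n)).filter (fun t => t ≡ c0 [MOD p1] ∧ inT (Tp T h) d t),
        FF w H (some h) t * Sg (Ps w.W p1) R t -
      ((Yb n : ℝ) - Ya n) / p1 * (AE w.P H (some h) (FC w H) * VaR (Ps w.W p1) R) *
        ∏ q ∈ d.primeFactors, ((((T q).card : ℝ) + 1) * (1 / (q : ℝ)))| ≤
      n / Real.log n ^ A0 := by
  obtain ⟨A, B0, hB0⟩ := mta K (K + k + 1) cF A0 hK (by omega)
  refine ⟨B0, fun B hB θ hθ hθ' => ?_⟩
  obtain ⟨n1, hn1⟩ := hB0 B hB θ hθ hθ'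
  obtain ⟨n2, hn2⟩ := lvlI A (K * 3 + 2 * (K + k + 1))
  obtain ⟨n3, hn3⟩ := ri_lev θ hθ
  refine ⟨max (max n1 n2) (max n3 3), fun n hn w H p1 R T P' h0 h1 hPD h hh c0 => ?_⟩
  have hn1' : n1 ≤ n := ((le_max_left _ _).trans (le_max_left _ _)).trans hn
  have hn2' : n2 ≤ n := ((le_max_right _ _).trans (le_max_left _ _)).trans hn
  have hn3' : n3 ≤ n := ((le_max_left _ _).trans (le_max_right _ _)).trans hn
  have hn4' : 3 ≤ n := ((le_max_right _ _).trans (le_max_right _ _)).trans hn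
  have hn0 : (1 : ℝ) ≤ n := by
    have : 1 ≤ n := by omega
    exact_mod_cast this
  have hHy := ri_hy h0 h1 c0 p1 (Ya n) (Yb n) (ri_Ya n) (some h)
    (fun h' hh' => by rw [Option.some.injEq] at hh'; rw [← hh']; exact hh) (Tp T h) (K + k + 1)
    (by omega) (fun q _ => filter_subset _ _)
    (fun q hq => by
      rw [rj_card h1 hh hq]
      have := h1.Tk q hq
      omega)
    (fun q hq t ht h' hh' hne hd => by
      unfold Tp at ht
      rw [mem_filter, mem_range] at ht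
      obtain ⟨htq, h3 | h3⟩ := ht
      · exact h1.TH q hq t h3 h' hh' hd
      · exact hPD q hq h hh h' hh' (fun h4 => hne (by rw [h4])) (tg_ne h3 hd))
  have key := hn1 n hn1' (sI c0 p1 (Ya n) (Yb n)) w.P H (some h) w.W p1 R (Tp T h) P' 0
    (fun q => 1 / (q : ℝ)) (FC w H) ⌊Real.sqrt n⌋₊ hHy (fun q _ => by positivity)
    (fun q _ => by
      show 1 / (q : ℝ) ≤ 2 / (q : ℝ)
      gcongr
      norm_num)
    (fun q _ _ => by
      show |1 / (q : ℝ) - 1 / (q : ℝ)| ≤ 2 / (q : ℝ) ^ 2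
      rw [sub_self, abs_zero]
      positivity) h0.cardH h0.Wdef
    (fun p hp => by
      have h2 := h0.PN p hp
      have h3 : (n : ℝ) ^ (1 / 100 : ℝ) ≤ (n : ℝ) ^ (1 : ℝ) :=
        Real.rpow_le_rpow_of_exponent_le hn0 (by norm_num)
      rw [Real.rpow_one] at h3
      exact_mod_cast h2.trans h3)
    (ri_X n c0 p1 h0.p1p.one_le hn4') (by push_cast; positivity) (ri_FC w H) h0.exF (hn3 n hn3')
    (hn2 n hn2' p1 c0 p1 (Ya n) (Yb n) h0.p1p (Or.inr rfl) (ri_Ya n))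
  refine le_trans (le_of_eq ?_) key
  refine sum_congr rfl fun d hd => ?_
  have e1 : (Ioc (Ya n) (Yb n)).filter (fun t => t ≡ c0 [MOD p1] ∧ inT (Tp T h) d t) =
      (sI c0 p1 (Ya n) (Yb n)).S.filter (fun j => inT (Tp T h) d
        ((sI c0 p1 (Ya n) (Yb n)).x j)) := by
    show _ = ((Ioc (Ya n) (Yb n)).filter (fun t => t ≡ c0 [MOD p1])).filter _
    rw [filter_filter]
    rfl
  have e2 : VS (Ps w.W p1) R (sI c0 p1 (Ya n) (Yb n)).hd (sI c0 p1 (Ya n) (Yb n)).Al =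
      VaR (Ps w.W p1) R := vs_IR _ _
  rw [e1, e2]
  congr 1
  congr 1
  · refine sum_congr rfl fun t _ => ?_
    show _ = 1 * _
    rw [one_mul]
    rfl
  · congr 1
    refine prod_congr rfl fun q hq => ?_
    have hqP : q ∈ P' := by
      unfold Dv at hd
      exact (mem_filter.1 hd).2.2 q hq
    rw [rj_card h1 hh hqP, Nat.cast_add, Nat.cast_one]

/-- Proof. `rJR` with `k = 1`, `A0 = 10`, `R = Rb N H`, `T q = {N % q}`, `P' = Pg N w.W H`, `c0 = N` (`pre_hrt`, `Pre.to0`). `inT (Tp T h) d t` iff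
`∀ q ∈ d.primeFactors, q ∣ N - t ∨ q ∣ t + h` (`t ≤ N`). `∏_{q ∣ d} (2/q) = 2^ω(d)/d`. -/
theorem rJ (K cF : ℕ) (hK : 1 ≤ K) : ∃ B0 : ℕ, ∀ B : ℕ, B0 ≤ B → ∀ θ : ℝ, 0 < θ →
    θ ≤ 1 / 100 → ∃ n0 : ℕ, ∀ N : ℕ, n0 ≤ N → ∀ (w : Par K) (H : Finset ℕ) (a p1 : ℕ),
    Pre B cF θ w H N a p1 → ∀ h ∈ H, ∑ d ∈ Dv (Pg N w.W H a) (Lv N θ),
    |∑ t ∈ (Ioc (Ya N) (Yb N)).filter
        (fun t => p1 ∣ t + a ∧ ∀ q ∈ d.primeFactors, q ∣ t + a ∨ q ∣ t + h),
        Fs w H a p1 (some h) t -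
      ((Yb N : ℝ) - Ya N) / p1 * (AE w.P H (some h) (FC w H) * Va a w.W p1 H) *
        ((2 : ℝ) ^ d.primeFactors.card / d)| ≤ N / Real.log N ^ 10 := by
  obtain ⟨B0, hB0⟩ := rJR K 1 cF 10 hK le_rfl
  refine ⟨B0, fun B hB θ hθ hθ' => ?_⟩
  obtain ⟨n0, hn0⟩ := hB0 B hB θ hθ hθ'
  refine ⟨n0, fun N hN w H a p1 hp h hh => ?_⟩
  have h1 := hn0 N hN w H p1 (Rb a H) (Tg a) (Pg N w.W H a) hp.to0
    (pre_hrt B cF θ w H N a p1 hp) (fun q hq => (pg_spec hq).2.2.2.2) h hh ((p1 - 1) * a)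
  refine le_trans (le_of_eq ?_) h1
  refine sum_congr rfl fun d hd => ?_
  have hsq : Squarefree d := by
    unfold Dv at hd
    exact (mem_filter.1 hd).2.1
  have e1 : (Ioc (Ya N) (Yb N)).filter
        (fun t => p1 ∣ t + a ∧ ∀ q ∈ d.primeFactors, q ∣ t + a ∨ q ∣ t + h) =
      (Ioc (Ya N) (Yb N)).filter
        (fun t => t ≡ (p1 - 1) * a [MOD p1] ∧ inT (Tp (Tg a) h) d t) := by
    refine filter_congr fun t ht => ?_
    have hp0 : (p1 - 1) * a + a = p1 * a := by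
      have h2 : p1 - 1 + 1 = p1 := Nat.sub_add_cancel hp.p1p.one_le
      calc (p1 - 1) * a + a = (p1 - 1 + 1) * a := by ring
        _ = p1 * a := by rw [h2]
    have hcl : p1 ∣ t + a ↔ t ≡ (p1 - 1) * a [MOD p1] := by
      constructor
      · intro h3
        have h4 : p1 ∣ (p1 - 1) * a + a := by rw [hp0]; exact Dvd.intro _ rfl
        exact Nat.ModEq.add_right_cancel' a
          (((Nat.modEq_zero_iff_dvd).2 h3).trans ((Nat.modEq_zero_iff_dvd).2 h4).symm)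
      · intro h3
        have h4 := h3.add_right a
        rw [hp0] at h4
        exact (h4.dvd_iff dvd_rfl).2 (Dvd.intro _ rfl)
    refine and_congr hcl ?_
    unfold inT Tp
    refine forall_congr' fun q => forall_congr' fun hq => ?_
    have hq0 : 0 < q := (Nat.prime_of_mem_primeFactors hq).pos
    rw [mem_filter, mem_range]
    have a1 : t % q ∈ Tg a q ↔ q ∣ t + a := tg_mem hq0
    have a2 : q ∣ t % q + h ↔ q ∣ t + h := by
      have : t + h = (t % q + h) + q * (t / q) := by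
        have := Nat.mod_add_div t q
        omega
      rw [this]
      exact (Nat.dvd_add_left (Dvd.intro _ rfl)).symm
    rw [a1, a2]
    constructor
    · intro h3
      exact ⟨Nat.mod_lt _ hq0, h3⟩
    · intro h3
      exact h3.2
  rw [e1]
  congr 1
  congr 1
  have e2 : ∏ q ∈ d.primeFactors, ((((Tg a q).card : ℝ) + 1) *
      (1 / (q : ℝ))) = (2 : ℝ) ^ d.primeFactors.card / d := by
    have e3 : ∀ q ∈ d.primeFactors, (((Tg a q).card : ℝ) + 1) *
      (1 / (q : ℝ)) = 2 / (q : ℝ) := by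
      intro q hq
      rw [tg_card (Nat.prime_of_mem_primeFactors hq).pos, Nat.cast_one]
      ring
    rw [prod_congr rfl e3, prod_div_distrib, prod_const]
    congr 1
    have h4 := Nat.prod_primeFactors_of_squarefree hsq
    have h5 : ((∏ q ∈ d.primeFactors, q : ℕ) : ℝ) = (d : ℝ) := by rw [h4]
    rw [← h5]
    push_cast
    rfl
  rw [e2]
  rfl

end Pool.Agent.Lib.H57T
end
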