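import Pool.Agent.Lib.H1M.RV.M077
import Pool.Agent.Lib.H1M.RV.M083
import Pool.Agent.Lib.H1M.RV.M089
import Pool.Agent.Lib.H1M.RV.M091
import Pool.Agent.Lib.H1M.RV.M093
import Pool.Agent.Lib.H1M.RV.M094
import Pool.Agent.Lib.H1M.RV.M096
import Pool.Agent.Lib.H1M.RV.M098
import Pool.Agent.Lib.H1M.RV.M099

/-! Merged copies (to shorten the build) of Lib.H57T.E2, Lib.H57T.REG, Lib.H57T.S3. -/

-- from Lib.H57T.E2
section

/-!
# Chunk E2: bad primes and squares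
-/

open Finset

namespace Pool.Agent.Lib.H57T

open Pool.Agent.Lib.H57C


open Pool.Agent.Lib.H57M
open Pool.Agent.Lib.H59C (AA zz XX)
theorem E2_Fs {K : ℕ} (w : Par K) (H : Finset ℕ) (a p1 : ℕ) (i : Option ℕ) (t : ℕ) :
    0 ≤ Fs w H a p1 i t ∧ Fs w H a p1 i t ≤ FF w H i t := by
  have h0 := E2_FF w H i t
  unfold Fs Sg
  split_ifs
  · rw [mul_one]
    exact ⟨h0, le_refl _⟩
  · rw [mul_zero]
    exact ⟨le_refl _, h0⟩

theorem e2_cls {r a t : ℕ} (hr : 1 ≤ r) (h : r ∣ t + a) : t ≡ a * (r - 1) [MOD r] := by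
  have h1 : a * (r - 1) + a = a * r := by
    obtain ⟨m, rfl⟩ : ∃ m, r = m + 1 := ⟨r - 1, by omega⟩
    rw [Nat.add_sub_cancel]
    ring
  have h2 : t + a ≡ a * (r - 1) + a [MOD r] := by
    rw [h1]
    exact ((Nat.modEq_zero_iff_dvd).2 h).trans ((Nat.modEq_zero_iff_dvd).2 (dvd_mul_left r a)).symm
  exact Nat.ModEq.add_right_cancel' _ h2

theorem E2_one (K B cF : ℕ) (θ G : ℝ) (N : ℕ) (w : Par K) (H : Finset ℕ) (a p1 : ℕ)
    (hR : Reg B cF θ G w H N a p1) (h : ℕ) (hh : h ∈ H) (hN : 1000 ≤ N) (hhN : 100 * h ≤ N)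
    (r : ℕ) (hr : r.Prime ∨ ∀ p ∈ w.P, r.Coprime p) (hr1 : 1 ≤ r) :
    ∑ p ∈ (Sh N h).filter (fun p => r ∣ tv a h p), wh w H a p1 h p ≤
      Real.log N * (Real.log N ^ B * (N / r) / Real.log N ^ 20 + (N : ℝ) ^ (1 / 20 : ℝ)) := by
  have hL : 0 ≤ Real.log N := Real.log_natCast_nonneg _
  have key : ∀ p ∈ (Sh N h).filter (fun p => r ∣ tv a h p),
      (p - h ∈ (Ioc (Ya N) (Yb N)).filter (fun t => t ≡ a * (r - 1) [MOD r]) ∧ h < p) ∧
      wh w H a p1 h p ≤ Real.log N * FF w H (some h) (p - h) := by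
    intro p hp
    unfold Sh at hp
    rw [mem_filter, Pool.Agent.Lib.H59C.mem_Sq] at hp
    obtain ⟨⟨⟨h1, h2⟩, h3⟩, h4⟩ := hp
    have h5 : Yb N < N := by unfold Yb; omega
    have h6 : Yb N + h ≤ N := by unfold Yb; omega
    refine ⟨⟨?_, by omega⟩, ?_⟩
    · rw [mem_filter, mem_Ioc]
      exact ⟨⟨by omega, by omega⟩, e2_cls hr1 h4⟩
    · unfold wh
      have h7 : Pool.Agent.Lib.H59C.lg p ≤ Real.log N := by
        unfold Pool.Agent.Lib.H59C.lg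
        apply Real.log_le_log (by exact_mod_cast h3.pos)
        exact_mod_cast (by omega : p ≤ N)
      exact mul_le_mul h7 (E2_Fs w H a p1 (some h) (p - h)).2 (E2_Fs w H a p1 (some h) (p - h)).1 hL
  have hinj : Set.InjOn (fun p => p - h) ((Sh N h).filter (fun p => r ∣ tv a h p)) := by
    intro p hp p' hp' heq
    have h1 := (key p hp).1.2
    have h2 := (key p' hp').1.2
    simp only at heq
    omega
  calc ∑ p ∈ (Sh N h).filter (fun p => r ∣ tv a h p), wh w H a p1 h p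
      ≤ ∑ p ∈ (Sh N h).filter (fun p => r ∣ tv a h p),
          Real.log N * FF w H (some h) (p - h) := sum_le_sum fun p hp => (key p hp).2
    _ = ∑ t ∈ ((Sh N h).filter (fun p => r ∣ tv a h p)).image (fun p => p - h),
          Real.log N * FF w H (some h) t := by rw [sum_image hinj]
    _ ≤ ∑ t ∈ (Ioc (Ya N) (Yb N)).filter (fun t => t ≡ a * (r - 1) [MOD r]),
          Real.log N * FF w H (some h) t := by
        apply sum_le_sum_of_subset_of_nonneg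
        · intro t ht
          rw [mem_image] at ht
          obtain ⟨p, hp, rfl⟩ := ht
          exact (key p hp).1.1
        · intro t _ _
          exact mul_nonneg hL (E2_FF w H _ t)
    _ = Real.log N * ∑ t ∈ (Ioc (Ya N) (Yb N)).filter (fun t => t ≡ a * (r - 1) [MOD r]),
          FF w H (some h) t := by rw [mul_sum]
    _ ≤ _ := mul_le_mul_of_nonneg_left (hR.cls h hh r (a * (r - 1)) hr hr1) hL

/-- Proof. `lg p ≤ log N`, `Fs ≤ FF`, `t = p - h ∈ (Ya, Yb]`, `q ∣ tv a h p = N - t` iff `t ≡ N [MOD q]`. `Reg.cls` with `r = q` (a prime `> W ≥ L^B`):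
the sum over one `q` is at most `L (N/L^20 + N^(1/20))`; `#Bd ≤ L^2` (`bd_card`). -/
theorem E2_up (K B cF : ℕ) (θ G : ℝ) (hK : 1 ≤ K) (hB : 3 ≤ B) : ∃ n0 : ℕ, ∀ N : ℕ, n0 ≤ N →
    ∀ (w : Par K) (H : Finset ℕ) (a p1 : ℕ), Reg B cF θ G w H N a p1 → ∀ h ∈ H,
    E2s w H N a p1 h ≤ N / Real.log N ^ 9 := by
  obtain ⟨n1, hn1⟩ := s0_large B (1 / 2) (by norm_num)
  obtain ⟨n2, hn2⟩ := bd_card K
  obtain ⟨n3, hn3⟩ := E2_ev 12 (19 / 20) 2 (by norm_num) (by norm_num)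
  refine ⟨max n1 (max n2 n3), fun N hN w H a p1 hR h hh => ?_⟩
  have hN1 : n1 ≤ N := le_trans (le_max_left _ _) hN
  have hN2 : n2 ≤ N := le_trans (le_trans (le_max_left _ _) (le_max_right _ _)) hN
  have hN3 : n3 ≤ N := le_trans (le_trans (le_max_right _ _) (le_max_right _ _)) hN
  obtain ⟨g1, g2, g3, g4⟩ := hn1 N hN1
  have hNr : (1000 : ℝ) ≤ N := by exact_mod_cast g1
  have hL2 : 2 ≤ Real.log N := by linarith
  have hL0 : 0 < Real.log N := by linarith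
  have hhN : 100 * h ≤ N := hR.HN h hh
  have hH : ∀ h' ∈ H, h' ≤ N := by
    intro h' hh'
    have := hR.HN h' hh'
    omega
  have hcard := hn2 N hN2 a w.W H hR.cardH hH (by
    have := hR.aN
    omega) hR.aH
  have hev := hn3 N hN3
  have hpw : 0 ≤ (N : ℝ) ^ (1 / 20 : ℝ) := Real.rpow_nonneg (by linarith) _
  unfold E2s
  have hb : ∀ q ∈ Bd N w.W H a, ∑ p ∈ (Sh N h).filter (fun p => q ∣ tv a h p),
      wh w H a p1 h p ≤ Real.log N * (N / Real.log N ^ 20 + (N : ℝ) ^ (1 / 20 : ℝ)) := by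
    intro q hq
    unfold Bd at hq
    rw [mem_filter, mem_Ioc] at hq
    obtain ⟨⟨hq1, hq2⟩, hq3, _⟩ := hq
    refine le_trans (E2_one K B cF θ G N w H a p1 hR h hh g1 hhN q (Or.inl hq3) hq3.one_lt.le) ?_
    apply mul_le_mul_of_nonneg_left _ hL0.le
    have hq0 : (0 : ℝ) < q := by exact_mod_cast hq3.pos
    have h1 : Real.log N ^ B ≤ q := by
      have h2 : Real.log N ^ B ≤ w.W := by
        rw [hR.Wdef]
        exact Nat.le_ceil _
      have h3 : (w.W : ℝ) ≤ q := by exact_mod_cast hq1.le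
      linarith
    have h2 : Real.log N ^ B * (N / q) ≤ N := by
      rw [mul_div_assoc', div_le_iff₀ hq0, mul_comm]
      exact mul_le_mul_of_nonneg_left h1 (by linarith)
    have h3 : Real.log N ^ B * (N / q) / Real.log N ^ 20 ≤ N / Real.log N ^ 20 :=
      div_le_div_of_nonneg_right h2 (by positivity)
    linarith
  have hs := Finset.sum_le_card_nsmul _ _ _ hb
  rw [nsmul_eq_mul] at hs
  refine le_trans hs ?_
  refine le_trans (mul_le_mul_of_nonneg_right hcard (by positivity)) ?_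
  have e1 : Real.log N ^ 2 * (Real.log N * (N / Real.log N ^ 20 + (N : ℝ) ^ (1 / 20 : ℝ))) =
      (N : ℝ) / Real.log N ^ 9 * (1 / Real.log N ^ 8) + Real.log N ^ 3 * (N : ℝ) ^ (1 / 20 : ℝ) := by
    field_simp
  have e2 : (1 : ℝ) / Real.log N ^ 8 ≤ 1 / 2 := by
    apply one_div_le_one_div_of_le (by norm_num)
    calc (2 : ℝ) ≤ 2 ^ 8 := by norm_num
      _ ≤ Real.log N ^ 8 := pow_le_pow_left₀ (by norm_num) hL2 8
  have e3 : Real.log N ^ 3 * (N : ℝ) ^ (1 / 20 : ℝ) ≤ (N : ℝ) / Real.log N ^ 9 * (1 / 2) := by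
    rw [div_mul_eq_mul_div, le_div_iff₀ (by positivity)]
    have e4 : (N : ℝ) ^ (19 / 20 : ℝ) * (N : ℝ) ^ (1 / 20 : ℝ) = N := by
      rw [← Real.rpow_add (by linarith)]
      norm_num
    calc Real.log N ^ 3 * (N : ℝ) ^ (1 / 20 : ℝ) * Real.log N ^ 9
        = 2 * Real.log N ^ 12 * (N : ℝ) ^ (1 / 20 : ℝ) * (1 / 2) := by ring
      _ ≤ (N : ℝ) ^ (19 / 20 : ℝ) * (N : ℝ) ^ (1 / 20 : ℝ) * (1 / 2) := by
          apply mul_le_mul_of_nonneg_right _ (by norm_num)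
          exact mul_le_mul_of_nonneg_right hev hpw
      _ = N * (1 / 2) := by rw [e4]
  rw [e1]
  have e5 : (N : ℝ) / Real.log N ^ 9 * (1 / Real.log N ^ 8) ≤ (N : ℝ) / Real.log N ^ 9 * (1 / 2) :=
    mul_le_mul_of_nonneg_left e2 (by positivity)
  linarith

/-- Proof. Union bound over the primes `q ∈ [zz N, √(N)]` (`q^2 ∣ N - t > 0`); `Reg.cls` with `r = q^2` (prime to all `p ∈ w.P`, `p ≤ N^(1/100) < q`):
at most `L (L^B N/q^2 + N^(1/20))` each; `∑_{q ≥ z} 1/q^2 ≤ 2/z`, `√N N^(1/20) ≤ N^(3/5)`; `N^(7/8) L^(B+1)` is small. -/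
theorem E3_up (K B cF : ℕ) (θ G : ℝ) (hK : 1 ≤ K) (hB : 3 ≤ B) : ∃ n0 : ℕ, ∀ N : ℕ, n0 ≤ N →
    ∀ (w : Par K) (H : Finset ℕ) (a p1 : ℕ), Reg B cF θ G w H N a p1 → ∀ h ∈ H,
    E3s w H N a p1 h ≤ N / Real.log N ^ 9 := by
  obtain ⟨n1, hn1⟩ := s0_large B (1 / 2) (by norm_num)
  obtain ⟨n2, hn2⟩ := E2_ev (B + 10) (1 / 8) 4 (by norm_num) (by norm_num)
  obtain ⟨n3, hn3⟩ := E2_ev 10 (9 / 20) 2 (by norm_num) (by norm_num)
  refine ⟨max n1 (max n2 n3), fun N hN w H a p1 hR h hh => ?_⟩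
  have hN1 : n1 ≤ N := le_trans (le_max_left _ _) hN
  have hN2 : n2 ≤ N := le_trans (le_trans (le_max_left _ _) (le_max_right _ _)) hN
  have hN3 : n3 ≤ N := le_trans (le_trans (le_max_right _ _) (le_max_right _ _)) hN
  obtain ⟨g1, g2, g3, g4⟩ := hn1 N hN1
  have hNr : (1000 : ℝ) ≤ N := by exact_mod_cast g1
  have hL2 : 2 ≤ Real.log N := by linarith
  have hL0 : 0 < Real.log N := by linarith
  have hhN : 100 * h ≤ N := hR.HN h hh
  have hev2 := hn2 N hN2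
  have hev3 := hn3 N hN3
  have hpw : 0 ≤ (N : ℝ) ^ (1 / 20 : ℝ) := Real.rpow_nonneg (by linarith) _
  have hz1 : 1 ≤ zz N := by
    unfold zz
    exact Real.one_le_rpow (by linarith) (by norm_num)
  have hw0 : ∀ p, 0 ≤ wh w H a p1 h p := by
    intro p
    unfold wh
    refine mul_nonneg ?_ (E2_Fs w H a p1 (some h) (p - h)).1
    unfold Pool.Agent.Lib.H59C.lg
    exact Real.log_natCast_nonneg _
  obtain ⟨k, hk⟩ : ∃ k, ⌈zz N⌉₊ = k + 1 := by
    have h1 : 0 < ⌈zz N⌉₊ := Nat.ceil_pos.2 (by linarith)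
    exact ⟨⌈zz N⌉₊ - 1, by omega⟩
  obtain ⟨Qs, hQs⟩ : ∃ Qs : Finset ℕ, Qs = (Ioo k (Nat.sqrt N + 1)).filter Nat.Prime := ⟨_, rfl⟩
  have hQ : ∀ q ∈ Qs, q.Prime ∧ zz N ≤ q := by
    intro q hq
    rw [hQs, mem_filter, mem_Ioo] at hq
    refine ⟨hq.2, ?_⟩
    have h1 : ⌈zz N⌉₊ ≤ q := by omega
    exact Nat.ceil_le.1 h1
  have hstep : E3s w H N a p1 h ≤ ∑ q ∈ Qs, ∑ p ∈ (Sh N h).filter
      (fun p => q ^ 2 ∣ tv a h p), wh w H a p1 h p := by
    unfold E3s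
    rw [sum_filter]
    have h1 : ∀ q, ∑ p ∈ (Sh N h).filter (fun p => q ^ 2 ∣ tv a h p),
        wh w H a p1 h p = ∑ p ∈ Sh N h, if q ^ 2 ∣ tv a h p then wh w H a p1 h p else 0 :=
      fun q => sum_filter _ _
    rw [sum_congr rfl fun q _ => h1 q, sum_comm]
    apply sum_le_sum
    intro p hp
    have h0 : ∀ q ∈ Qs, 0 ≤ (if q ^ 2 ∣ tv a h p then wh w H a p1 h p else 0) := by
      intro q _
      split_ifs
      · exact hw0 p
      · exact le_refl _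
    split_ifs with hc
    · obtain ⟨q, hq1, hq2, hq3⟩ := hc
      have hpp := hp
      unfold Sh at hpp
      rw [Pool.Agent.Lib.H59C.mem_Sq] at hpp
      have h5 : Yb N < N := by unfold Yb; omega
      have ha100 : 100 * a ≤ N := hR.aN
      have hd0 : 0 < tv a h p := by
        unfold tv
        omega
      have hdN : tv a h p ≤ N := by
        unfold tv Yb at *
        omega
      have hqN : q ^ 2 ≤ N := (Nat.le_of_dvd hd0 hq3).trans hdN
      have hqm : q ∈ Qs := by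
        rw [hQs, mem_filter, mem_Ioo]
        refine ⟨⟨?_, ?_⟩, hq1⟩
        · have h1 : ⌈zz N⌉₊ ≤ q := Nat.ceil_le.2 hq2
          omega
        · have h1 : q ≤ Nat.sqrt N := Nat.le_sqrt'.2 hqN
          omega
      have h2 := Finset.single_le_sum h0 hqm
      rw [if_pos hq3] at h2
      exact h2
    · exact sum_nonneg h0
  refine le_trans hstep ?_
  have hb : ∀ q ∈ Qs, ∑ p ∈ (Sh N h).filter (fun p => q ^ 2 ∣ tv a h p),
      wh w H a p1 h p ≤ Real.log N ^ (B + 1) * N * ((q : ℝ) ^ 2)⁻¹ +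
        Real.log N * (N : ℝ) ^ (1 / 20 : ℝ) := by
    intro q hq
    obtain ⟨hq1, hq2⟩ := hQ q hq
    have hcop : ∀ p ∈ w.P, (q ^ 2).Coprime p := by
      intro p hp
      have hpp := w.prime p hp
      apply Nat.Coprime.pow_left 2
      rw [Nat.coprime_primes hq1 hpp]
      intro he
      have h1 := hR.PN p hp
      rw [← he] at h1
      have h2 : (N : ℝ) ^ (1 / 100 : ℝ) < (N : ℝ) ^ (1 / 8 : ℝ) :=
        Real.rpow_lt_rpow_of_exponent_lt (by linarith) (by norm_num)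
      unfold zz at hq2
      linarith
    have hq0 : (0 : ℝ) < q := by exact_mod_cast hq1.pos
    refine le_trans (E2_one K B cF θ G N w H a p1 hR h hh g1 hhN (q ^ 2) (Or.inr hcop)
      (Nat.one_le_pow _ _ hq1.pos)) ?_
    rw [mul_add]
    have h1 : (1 : ℝ) ≤ Real.log N ^ 20 := one_le_pow₀ (by linarith)
    have h2 : Real.log N ^ B * ((N : ℝ) / ((q ^ 2 : ℕ) : ℝ)) / Real.log N ^ 20 ≤
        Real.log N ^ B * ((N : ℝ) / ((q ^ 2 : ℕ) : ℝ)) :=
      div_le_self (by positivity) h1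
    have h3 : Real.log N * (Real.log N ^ B * ((N : ℝ) / ((q ^ 2 : ℕ) : ℝ))) =
        Real.log N ^ (B + 1) * N * ((q : ℝ) ^ 2)⁻¹ := by
      push_cast
      rw [div_eq_mul_inv]
      ring
    have h4 := mul_le_mul_of_nonneg_left h2 hL0.le
    rw [h3] at h4
    linarith
  refine le_trans (sum_le_sum hb) ?_
  rw [sum_add_distrib, ← mul_sum, sum_const, nsmul_eq_mul]
  have s1 : ∑ q ∈ Qs, ((q : ℝ) ^ 2)⁻¹ ≤ 2 / zz N := by
    have h1 : ∑ q ∈ Qs, ((q : ℝ) ^ 2)⁻¹ ≤ ∑ q ∈ Ioo k (Nat.sqrt N + 1), ((q : ℝ) ^ 2)⁻¹ := by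
      apply sum_le_sum_of_subset_of_nonneg
      · rw [hQs]
        exact filter_subset _ _
      · intro q _ _
        positivity
    refine le_trans h1 (le_trans (sum_Ioo_inv_sq_le k _) ?_)
    apply div_le_div_of_nonneg_left (by norm_num) (by linarith)
    have h2 : (⌈zz N⌉₊ : ℝ) = (k : ℝ) + 1 := by
      rw [hk]
      push_cast
      rfl
    rw [← h2]
    exact Nat.le_ceil _
  have s2 : (Qs.card : ℝ) ≤ (N : ℝ) ^ (1 / 2 : ℝ) := by
    have h1 : Qs.card ≤ Nat.sqrt N := by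
      rw [hQs]
      refine le_trans (card_filter_le _ _) ?_
      rw [Nat.card_Ioo]
      omega
    have h2 : ((Nat.sqrt N : ℕ) : ℝ) ≤ Real.sqrt N := Real.nat_sqrt_le_real_sqrt
    have h3 : (Qs.card : ℝ) ≤ (Nat.sqrt N : ℕ) := by exact_mod_cast h1
    rw [← Real.sqrt_eq_rpow]
    linarith
  have t1 : Real.log N ^ (B + 1) * N * ∑ q ∈ Qs, ((q : ℝ) ^ 2)⁻¹ ≤
      (N : ℝ) / Real.log N ^ 9 * (1 / 2) := by
    have hz0 : 0 < zz N := by linarith
    calc Real.log N ^ (B + 1) * N * ∑ q ∈ Qs, ((q : ℝ) ^ 2)⁻¹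
        ≤ Real.log N ^ (B + 1) * N * (2 / zz N) := mul_le_mul_of_nonneg_left s1 (by positivity)
      _ ≤ (N : ℝ) / Real.log N ^ 9 * (1 / 2) := by
          rw [mul_div_assoc', div_mul_eq_mul_div, div_le_div_iff₀ hz0 (by positivity)]
          calc Real.log N ^ (B + 1) * N * 2 * Real.log N ^ 9
              = 4 * Real.log N ^ (B + 10) * (N * (1 / 2)) := by ring
            _ ≤ (N : ℝ) ^ (1 / 8 : ℝ) * (N * (1 / 2)) :=
                mul_le_mul_of_nonneg_right hev2 (by positivity)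
            _ = (N : ℝ) * (1 / 2) * zz N := by
                unfold zz
                ring
  have t2 : (Qs.card : ℝ) * (Real.log N * (N : ℝ) ^ (1 / 20 : ℝ)) ≤
      (N : ℝ) / Real.log N ^ 9 * (1 / 2) := by
    refine le_trans (mul_le_mul_of_nonneg_right s2 (by positivity)) ?_
    rw [div_mul_eq_mul_div, le_div_iff₀ (by positivity)]
    have e4 : (N : ℝ) ^ (1 / 2 : ℝ) * (N : ℝ) ^ (1 / 20 : ℝ) * (N : ℝ) ^ (9 / 20 : ℝ) = N := by
      rw [← Real.rpow_add (by linarith), ← Real.rpow_add (by linarith)]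
      norm_num
    calc (N : ℝ) ^ (1 / 2 : ℝ) * (Real.log N * (N : ℝ) ^ (1 / 20 : ℝ)) * Real.log N ^ 9
        = (N : ℝ) ^ (1 / 2 : ℝ) * (N : ℝ) ^ (1 / 20 : ℝ) * (2 * Real.log N ^ 10) * (1 / 2) := by ring
      _ ≤ (N : ℝ) ^ (1 / 2 : ℝ) * (N : ℝ) ^ (1 / 20 : ℝ) * (N : ℝ) ^ (9 / 20 : ℝ) * (1 / 2) := by
          apply mul_le_mul_of_nonneg_right _ (by norm_num)
          exact mul_le_mul_of_nonneg_left hev3 (by positivity)
      _ = N * (1 / 2) := by rw [e4]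
  linarith

end Pool.Agent.Lib.H57T
end

-- from Lib.H57T.REG
section

/-!
# Chunk REG: everything that is needed for the sieve
-/

open Finset

namespace Pool.Agent.Lib.H57T

open Pool.Agent.Lib.H57C


open Pool.Agent.Lib.H57M
/-- Proof. `wt_exists θ G` gives `m`, `cF`, `Dt`; `K = 4000^m`. `rB`, `rC`, `rI`, `rJ`, `rcls` (with `A0 = 20`), `rmom` give `A'` (maximum of two, `SWp_mono`) and `B0`;
`B ≥ B0`, `B ≥ A' + 2`, `B ≥ 3`. For `H` given and `N` large (also in terms of `H` and `K0`): `w` from `wt_exists`, `p1` from `sw2 A' K0`: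
`p1 ≤ L^(A'+1) ≤ L^B ≤ W`; `h ≤ W` for all `h ∈ H`. `aen`: `ae_none`. `aes`: `ae_some`, with `Q/φ(Q) ≤ CQ max(1, κ0 θ L) ≤ C L`
(`Q_div_totient_le`, `H92G`; or `∏_{p ≤ N} p/(p-1) ≤ C L`), `CL = (2(m+1))^K`, `Dt` constants, `W ≥ L^3`: `n2` holds for large `N`. -/
theorem reg_exists (θ : ℝ) (hθ : 0 < θ) (hθ1 : θ ≤ 1 / 100) :
    ∃ C1 : ℝ, 0 < C1 ∧ ∀ G : ℝ, 0 < G → ∃ m : ℕ, 1 ≤ m ∧ (m : ℝ) ≤ C1 * (G + 1) ∧ ∃ cF B : ℕ, 3 ≤ B ∧ ∀ K0 : ℕ,
      ∃ n0 : ℕ, ∀ N : ℕ, n0 ≤ N → ∀ H : Finset ℕ, H.card = 4000 ^ m → ∀ a : ℕ,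
        (∀ h ∈ H, 100 * h ≤ N) → 100 * a ≤ N → a ∉ H → (∀ h ∈ H, 2 ∣ a + h) →
        (∀ q : ℕ, q.Prime → (Rb a H q).card < q) →
        ∃ (w : Par (4000 ^ m)) (p1 : ℕ), K0 ≤ p1 ∧ Reg B cF θ G w H N a p1 := by
  classical
  obtain ⟨C1, hC1, hwt0⟩ := wt_existsZ θ hθ hθ1
  refine ⟨C1, hC1, fun G hG => ?_⟩
  obtain ⟨m, hm, hmC, cF, Dt, hwt⟩ := hwt0 G hG
  have hK1 : 1 ≤ 4000 ^ m := Nat.one_le_pow _ _ (by norm_num)
  obtain ⟨AB, BB, hB⟩ := rB (4000 ^ m) cF hK1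
  obtain ⟨AC, BC, hC⟩ := rC (4000 ^ m) cF hK1
  obtain ⟨BI, hI⟩ := rI (4000 ^ m) cF hK1
  obtain ⟨BJ, hJ⟩ := rJ (4000 ^ m) cF hK1
  obtain ⟨BM, hM⟩ := rcls (4000 ^ m) cF 20 hK1
  obtain ⟨BS, hS⟩ := rmom (4000 ^ m) m hK1
  obtain ⟨CM, hCM, hQt⟩ := H92G.Q_div_totient_le
  obtain ⟨B, hBdef⟩ : ∃ B : ℕ, B = AB + AC + BB + BC + BI + BJ + BM + BS + 3 := ⟨_, rfl⟩
  refine ⟨m, hm, hmC, cF, B, by omega, fun K0 => ?_⟩
  obtain ⟨n1, h1⟩ := hwt B (by omega)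
  obtain ⟨n2, h2⟩ := sw2 (AB + AC) K0
  obtain ⟨n3, h3⟩ := hB B (by omega) θ hθ hθ1
  obtain ⟨n4, h4⟩ := hC B (by omega) θ hθ hθ1
  obtain ⟨n5, h5⟩ := hI B (by omega) θ hθ hθ1
  obtain ⟨n6, h6⟩ := hJ B (by omega) θ hθ hθ1
  obtain ⟨n7, h7⟩ := hM B (by omega) θ hθ hθ1
  obtain ⟨n8, h8⟩ := hS B (by omega) θ hθ hθ1
  obtain ⟨X, hX⟩ : ∃ X : ℝ, X = 8 * ((4000 ^ m : ℕ) : ℝ) ^ 2 *
    (2 * ((m : ℝ) + 1)) ^ (4000 ^ m) * Dt ^ 2 := ⟨_, rfl⟩
  have hX0 : 0 ≤ X := by rw [hX]; positivity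
  obtain ⟨n9, h9⟩ := H59C.cdl_log (1 + 400 * ((4000 ^ m : ℕ) : ℝ) ^ 2 + 100 * (CM * X))
  obtain ⟨n10, h10⟩ := zd_card (4000 ^ m)
  refine ⟨n1 + n2 + n3 + n4 + n5 + n6 + n7 + n8 + n9 + n10 + 3, fun N hN H hH a hHN haN haH he hnf => ?_⟩
  have hLL := h9 N (by omega)
  have hk0 : (0 : ℝ) ≤ 400 * ((4000 ^ m : ℕ) : ℝ) ^ 2 := by positivity
  have hc0 : 0 ≤ 100 * (CM * X) := by positivity
  have hL1 : 1 ≤ Real.log N := by linarith
  have hL0 : 0 < Real.log N := by linarith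
  have hHN' : ∀ h ∈ H, h ≤ N := fun h hh => by
    have := hHN h hh
    omega
  obtain ⟨w, w1, w2, w3, w4, w5, w6', w7, w8⟩ := h1 N (by omega) (Zd H a)
    (h10 N (by omega) a H hH hHN' (by omega))
  have w6 : ∀ p ∈ w.P, (p : ℝ) ≤ (N : ℝ) ^ (1 / 100 : ℝ) := fun p hp => (w6' p hp).1
  have hHD : ∀ p ∈ w.P, ∀ h ∈ H, ∀ h' ∈ H, h ≠ h' → ¬ h ≡ h' [MOD p] :=
    fun p hp h hh h' hh' hne hm => (w6' p hp).2 (zd_mem_h (w.prime p hp) hh hh' hne hm)
  have haD : ∀ p ∈ w.P, ∀ h ∈ H, ¬ a ≡ h [MOD p] :=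
    fun p hp h hh hm => (w6' p hp).2 (zd_mem_a haH (w.prime p hp) hh hm)
  obtain ⟨p1, q1, q2, q3, q4⟩ := h2 N (by omega)
  have hLB : Real.log N ^ B ≤ w.W := by
    rw [w2]; exact Nat.le_ceil _
  have hLW : Real.log N ≤ w.W := le_trans (le_self_pow₀ hL1 (by omega)) hLB
  have hL3 : Real.log N ^ 3 ≤ w.W := le_trans (pow_le_pow_right₀ hL1 (by omega)) hLB
  have hKW : 400 * ((4000 ^ m : ℕ) : ℝ) ^ 2 ≤ w.W := by linarith
  have hKW' : 400 * (4000 ^ m) ^ 2 ≤ w.W := by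
    have : ((400 * (4000 ^ m) ^ 2 : ℕ) : ℝ) ≤ w.W := by
      push_cast
      push_cast at hKW
      exact hKW
    exact_mod_cast this
  have hp1W : p1 ≤ w.W := by
    have a1 : (p1 : ℝ) ≤ w.W := by
      calc (p1 : ℝ) ≤ Real.log N ^ (AB + AC + 1) := q3
        _ ≤ Real.log N ^ B := pow_le_pow_right₀ hL1 (by omega)
        _ ≤ w.W := hLB
    exact_mod_cast a1
  have hpre : Pre B cF θ w H N a p1 := ⟨⟨hH, hHN, hHD, w2, w6, q1, hp1W, w8 H hH⟩, haN, haH, haD, he, hnf⟩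
  have hpre0 := hpre.to0
  have hSB : H59C.SWp AB N p1 := H59C.SWp_mono (by omega) (by omega) q4
  have hSC : H59C.SWp AC N p1 := H59C.SWp_mono (by omega) (by omega) q4
  have hW0 : (0 : ℝ) < w.W := by linarith
  have hn1' : (1 : ℝ) ≤ N := by exact_mod_cast (by omega : 1 ≤ N)
  have hratio := reg_ratio CM hQt w.P w.prime N (fun p hp => by
    have a1 := w6 p hp
    have a2 : (N : ℝ) ^ (1 / 100 : ℝ) ≤ N := by
      calc (N : ℝ) ^ (1 / 100 : ℝ) ≤ (N : ℝ) ^ (1 : ℝ) :=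
            Real.rpow_le_rpow_of_exponent_le hn1' (by norm_num)
        _ = N := Real.rpow_one _
    exact_mod_cast a1.trans a2) hL1
  have hn2 : (((∏ p ∈ w.P, p : ℕ) : ℝ) / ((∏ p ∈ w.P, p).totient : ℝ)) *
      (8 * ((4000 ^ m : ℕ) : ℝ) ^ 2 * w.CL * w.Dt ^ 2 / w.W) ≤ 1 / 100 := by
    have e1 : 8 * ((4000 ^ m : ℕ) : ℝ) ^ 2 * w.CL * w.Dt ^ 2 = X := by
      unfold Par.CL
      rw [w1, w3, hX]
    rw [e1]
    calc (((∏ p ∈ w.P, p : ℕ) : ℝ) / ((∏ p ∈ w.P, p).totient : ℝ)) * (X / w.W)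
        ≤ (CM * Real.log N) * (X / w.W) :=
          mul_le_mul_of_nonneg_right hratio (by positivity)
      _ ≤ (CM * Real.log N) * (X / Real.log N ^ 3) := by
          refine mul_le_mul_of_nonneg_left ?_ (by positivity)
          exact div_le_div_of_nonneg_left hX0 (by positivity) hL3
      _ = (CM * X) / Real.log N ^ 2 := by
          field_simp
      _ ≤ 1 / 100 := by
          rw [div_le_iff₀ (by positivity)]
          have : Real.log N ≤ Real.log N ^ 2 := le_self_pow₀ hL1 (by norm_num)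
          nlinarith
  obtain ⟨a1, a2⟩ := ae_none w H hH hHD hKW'
  refine ⟨w, p1, q2, { hpre with
    aen0 := a1
    aen := a2
    aes := fun h hh => ae_some w H hH hHD hKW h hh hn2
    gain := w7
    remB := fun h hh => h3 N (by omega) w H a p1 hpre hSB h hh
    remC := fun h hh M u v α => h4 N (by omega) w H a p1 hpre hSC h hh M u v α
    remI := h5 N (by omega) w H a p1 hpre
    remJ := fun h hh => h6 N (by omega) w H a p1 hpre h hh
    cls := fun h hh r c hr hr1 => h7 N (by omega) w H p1 hpre0 h hh r c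
      (hr.imp (fun hr => ⟨r, hr, Or.inl rfl⟩) id) hr1
    mom := h8 N (by omega) w H w1 w4 w5 hH hHD (by omega) }⟩

end Pool.Agent.Lib.H57T
end

-- from Lib.H57T.S3
section

/-!
# Chunk S3: the third sum (switching)
-/

open Finset

namespace Pool.Agent.Lib.H57T

open Pool.Agent.Lib.H57C


open Pool.Agent.Lib.H57M
open Pool.Agent.Lib.H59C (AA zz)

theorem s3_pow (n : ℕ) (hn : 1000 ≤ n) : (n : ℝ) ^ (1 / 6 : ℝ) ≤ n / 16 := by
  have hN : (1000 : ℝ) ≤ n := by exact_mod_cast hn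
  have h2 : (n : ℝ) ^ (1 / 6 : ℝ) ≤ (n : ℝ) ^ (1 / 2 : ℝ) :=
    Real.rpow_le_rpow_of_exponent_le (by linarith) (by norm_num)
  have h3 : 16 ≤ (n : ℝ) ^ (1 / 2 : ℝ) := by
    rw [← Real.sqrt_eq_rpow]
    apply Real.le_sqrt_of_sq_le
    linarith
  have h4 : (n : ℝ) ^ (1 / 2 : ℝ) * (n : ℝ) ^ (1 / 2 : ℝ) = n := by
    rw [← Real.rpow_add (by linarith)]
    norm_num
  nlinarith

/-- Proof. As `S3_upper` (`H59C/CS3.lean`): `lg p ≤ log N` (`p ≤ Yb N + h ≤ N`), `cover'` with `N' = N + h` and `Φ p = Fs (some h) (p - h) ≥ 0`, `box_sieve'` for every relevant box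
(`rel_par`: the conditions `N^(1/4) ≤ M, u, v`; `al` as `α`), `1/log (lv j) ≤ 4/log N`, `count_boxes` and `triple_sum`, `XX_bounds`, `win_h`; the remainder is
`(number of boxes) 4 N/L^10 ≤ (ε/2) Xh Vz` by `main_low`. -/
theorem S3_up (ε : ℝ) (hε : 0 < ε) : ∃ θ0 : ℝ, 0 < θ0 ∧ ∀ θ : ℝ, 0 < θ → θ ≤ θ0 →
    ∀ (K B cF : ℕ) (G : ℝ), 1 ≤ K → 3 ≤ B → ∃ n0 : ℕ, ∀ N : ℕ, n0 ≤ N →
    ∀ (w : Par K) (H : Finset ℕ) (a p1 : ℕ), Reg B cF θ G w H N a p1 → ∀ h ∈ H,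
    S3s w H N a p1 h ≤ Xh w H N a p1 h * Vz N w.W H a * (AA / 4 * (3 / 8) + ε) := by
  classical
  have hAA : 0 < AA := H59C.AA_pos
  obtain ⟨θ0, hθ0, hbox0⟩ := box_sieve' ε hε
  refine ⟨θ0, hθ0, fun θ hθ hθ1 K B cF G hK hB => ?_⟩
  obtain ⟨n1, hbox⟩ := hbox0 θ hθ hθ1 K B cF G hK hB
  obtain ⟨δ, hδ, hδ1, n2, hcount⟩ := H59C.count_boxes (1 / 1000) (by norm_num)
  obtain ⟨n3, hcov⟩ := cover' δ hδ hδ1
  obtain ⟨n4, hpar⟩ := H59C.rel_par δ hδ hδ1
  obtain ⟨n5, htri⟩ := H59C.triple_sum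
  obtain ⟨n6, hXXb⟩ := H59C.XX_bounds (1 / 1000) (by norm_num)
  obtain ⟨n7, hmain⟩ := main_low K B cF hK θ G
  obtain ⟨n8, hn8⟩ := s0_large B 1 one_pos
  obtain ⟨n9, hn9⟩ := H59C.cdl_log (max 1 (200 / (δ ^ 2 * ε)))
  refine ⟨n1 + n2 + n3 + n4 + n5 + n6 + n7 + n8 + n9 + 3, fun n hn w H a p1 hR h hh => ?_⟩
  obtain ⟨g1, hL1, -, g4⟩ := hn8 n (by omega)
  have hN : (3 : ℝ) ≤ n := by exact_mod_cast (by omega : 3 ≤ n)
  have hL : 0 < Real.log n := by linarith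
  have hh100 : 100 * h ≤ n := hR.HN h hh
  have ha100 : 100 * a ≤ n := hR.aN
  have hWh := win_h n h g1 hh100
  have hW := win_a n a g1 ha100
  have hLn := hn9 n (by omega)
  have hL9 : 200 / (δ ^ 2 * ε) ≤ Real.log n := le_trans (le_max_right _ _) hLn
  obtain ⟨Φ, hΦ⟩ : ∃ Φ : ℕ → ℝ, Φ = fun v => if a ≤ v ∧ (v - a + h).Prime then
    Fs w H a p1 (some h) (v - a) else 0 := ⟨_, rfl⟩
  have hΦ0 : ∀ v, 0 ≤ Φ v := fun v => by
    rw [hΦ]
    dsimp only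
    split_ifs
    · exact s2_Fs w H a p1 _ _
    · exact le_rfl
  have hcount := hcount n (by omega) 2 (Ya n + a + 2) (Yb n + a + 2) hW
  have hcov := hcov n (by omega) (Ya n + a) (Yb n + a) hW Φ hΦ0
  obtain ⟨hp1', hp2, hp3⟩ := hpar n (by omega) 2 (Ya n + a + 2) (Yb n + a + 2) hW
  have htri := htri n (by omega)
  obtain ⟨hX1, hX2⟩ := hXXb n (by omega) 2 (Ya n + h) (Yb n + h) hWh
  obtain ⟨hXV, hXh0, hXX, -⟩ := hmain n (by omega) w H a p1 hR h hh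
  obtain ⟨X, hX⟩ : ∃ X : ℝ, X = H59C.XX (Ya n + h) (Yb n + h) := ⟨_, rfl⟩
  obtain ⟨A, hA⟩ : ∃ A : ℝ, A = AE w.P H (some h) (FC w H) * Vb a w.W p1 H := ⟨_, rfl⟩
  obtain ⟨V, hV⟩ : ∃ V : ℝ, V = Vz n w.W H a := ⟨_, rfl⟩
  have hXh : Xh w H n a p1 h = X * A := by
    rw [hX, hA]
    rfl
  rw [hXh, ← hV] at hXV
  rw [hXh] at hXh0
  rw [hXh, ← hV]
  rw [← hX] at hXX hX1 hX2
  have hX0 : 0 < X := by
    refine lt_of_lt_of_le ?_ hXX
    positivity
  have hA0 : 0 ≤ A := by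
    by_contra hc
    push Not at hc
    have := mul_neg_of_pos_of_neg hX0 hc
    linarith
  have hV0 : 0 ≤ V := by
    by_contra hc
    push Not at hc
    have h1 : (X * A) * V ≤ 0 := mul_nonpos_of_nonneg_of_nonpos hXh0 hc.le
    have h2 : 0 < (n : ℝ) / Real.log n ^ 3 := by positivity
    linarith
  have hyy : (0 : ℝ) ≤ ((Yb n + h : ℕ) : ℝ) - ((Ya n + h : ℕ) : ℝ) := by
    have : ((Ya n + h : ℕ) : ℝ) ≤ ((Yb n + h : ℕ) : ℝ) := by exact_mod_cast hWh.lt.le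
    linarith
  -- weights
  have hstep1 : S3s w H n a p1 h ≤ Real.log n *
      ∑ v ∈ (Ioc (Ya n + a) (Yb n + a)).filter (fun v => H59C.Tri n v), Φ v := by
    have hinj : Set.InjOn (fun p => tv a h p)
        ((H59C.Sq (Ya n + h) (Yb n + h)).filter (fun p => H59C.Tri n (tv a h p))) := by
      intro p hp p' hp' heq
      rw [mem_coe, mem_filter, H59C.mem_Sq] at hp hp'
      have h1 : p - h + a = p' - h + a := heq
      omega
    have hsub : ((H59C.Sq (Ya n + h) (Yb n + h)).filter (fun p => H59C.Tri n (tv a h p))).image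
        (fun p => tv a h p) ⊆ (Ioc (Ya n + a) (Yb n + a)).filter (fun v => H59C.Tri n v) := by
      intro v hv
      rw [mem_image] at hv
      obtain ⟨p, hp, rfl⟩ := hv
      rw [mem_filter, H59C.mem_Sq] at hp
      rw [mem_filter, mem_Ioc]
      refine ⟨?_, hp.2⟩
      unfold tv
      omega
    have hle := sum_le_sum_of_subset_of_nonneg hsub fun v _ _ => hΦ0 v
    rw [sum_image hinj] at hle
    refine le_trans ?_ (mul_le_mul_of_nonneg_left hle hL.le)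
    unfold S3s Sh
    rw [mul_sum]
    apply sum_le_sum
    intro p hp
    rw [mem_filter, H59C.mem_Sq] at hp
    have hval : Φ (tv a h p) = Fs w H a p1 (some h) (p - h) := by
      have e1 : tv a h p - a = p - h := by unfold tv; omega
      have e2 : a ≤ tv a h p := by unfold tv; omega
      have e3 : p - h + h = p := by omega
      rw [hΦ]
      dsimp only
      rw [e1, e3, if_pos ⟨e2, hp.1.2⟩]
    rw [hval]
    unfold wh
    refine mul_le_mul_of_nonneg_right ?_ (s2_Fs w H a p1 _ _)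
    unfold H59C.lg
    apply Real.log_le_log
    · exact_mod_cast hp.1.2.pos
    · exact_mod_cast le_trans hp.1.1.2 hWh.le
  -- the logarithms of the box ends
  have hlv : ∀ b ∈ H59C.Rel n 2 (Ya n + a + 2) (Yb n + a + 2) δ, 0 ≤ 1 / Real.log (H59C.lv δ b.2) ∧
      1 / Real.log (H59C.lv δ b.2) ≤ 4 / Real.log n := by
    intro b hb
    have h1 := (hp1' b hb).2.2.1
    have h2 : 1 / 4 * Real.log n ≤ Real.log (H59C.lv δ b.2) := by
      have h3 := Real.log_le_log (by positivity) h1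
      rwa [Real.log_rpow (by linarith)] at h3
    have h4 : 0 < Real.log (H59C.lv δ b.2) := by linarith
    refine ⟨by positivity, ?_⟩
    rw [div_le_div_iff₀ h4 hL]
    linarith
  -- one box
  have hone : ∀ b ∈ H59C.Rel n 2 (Ya n + a + 2) (Yb n + a + 2) δ, 1 / Real.log (H59C.lv δ b.2) *
      ∑ x ∈ (H59C.BX (H59C.lv δ (b.1 + 1)) (H59C.lv δ b.2) (H59C.lv δ (b.2 + 1))).filter
        (fun x => Ya n + a < x.1 * x.2 ∧ x.1 * x.2 ≤ Yb n + a),
          H59C.wB (H59C.al n δ b) x * Φ (x.1 * x.2) ≤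
      A * V * (AA / 4 + ε) * (1 / Real.log (H59C.lv δ b.2) *
        H59C.XB (H59C.lv δ (b.1 + 1)) (H59C.lv δ b.2) (H59C.lv δ (b.2 + 1)) (H59C.al n δ b)) +
      4 / Real.log n * (n / Real.log n ^ 10) := by
    intro b hb
    obtain ⟨h1, h2, h3, h4, h5⟩ := hp1' b hb
    have h6 := hbox n (by omega) w H a p1 hR h hh (H59C.lv δ (b.1 + 1)) (H59C.lv δ b.2)
      (H59C.lv δ (b.2 + 1)) (H59C.al n δ b) (fun m => ⟨(hp3 b m).1, (hp3 b m).2.1⟩)
      (fun m => (hp3 b m).2.2) h1 h3 h4 h5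
    rw [← hV, ← hA] at h6
    obtain ⟨h7, h8⟩ := hlv b hb
    have h9 := mul_le_mul_of_nonneg_left h6 h7
    have h10 : ∑ x ∈ (H59C.BX (H59C.lv δ (b.1 + 1)) (H59C.lv δ b.2) (H59C.lv δ (b.2 + 1))).filter
        (fun x => Ya n + a < x.1 * x.2 ∧ x.1 * x.2 ≤ Yb n + a),
          H59C.wB (H59C.al n δ b) x * Φ (x.1 * x.2) ≤
        ∑ x ∈ (H59C.BX (H59C.lv δ (b.1 + 1)) (H59C.lv δ b.2) (H59C.lv δ (b.2 + 1))).filter
          (fun x => a ≤ x.1 * x.2 ∧ (x.1 * x.2 - a + h).Prime ∧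
            (n : ℝ) ^ (1 / 6 : ℝ) ≤ (x.1 * x.2 - a + h : ℕ)),
          H59C.wB (H59C.al n δ b) x * Fs w H a p1 (some h) (x.1 * x.2 - a) := by
      have hwB0 : ∀ x, 0 ≤ H59C.wB (H59C.al n δ b) x := fun x =>
        mul_nonneg (hp3 b _).1 (H59C.lg_nonneg _)
      rw [sum_filter, sum_filter]
      refine sum_le_sum fun x _ => ?_
      split_ifs with c1 c2 c2
      · rw [hΦ]
        dsimp only
        rw [if_pos ⟨c2.1, c2.2.1⟩]
      · rw [hΦ]
        dsimp only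
        rw [if_neg, mul_zero]
        rintro ⟨d1, d2⟩
        refine c2 ⟨d1, d2, ?_⟩
        have d3 : (n : ℝ) ≤ 16 * ((x.1 * x.2 - a + h : ℕ) : ℝ) := by
          have d4 : n ≤ 16 * (x.1 * x.2 - a + h) := by
            unfold Ya at c1
            omega
          exact_mod_cast d4
        refine le_trans (s3_pow n (by omega)) ?_
        linarith
      · exact mul_nonneg (hwB0 x) (s2_Fs w H a p1 _ _)
      · exact le_rfl
    refine (mul_le_mul_of_nonneg_left h10 h7).trans (h9.trans ?_)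
    rw [mul_add]
    apply add_le_add
    · apply le_of_eq
      ring
    · exact mul_le_mul_of_nonneg_right h8 (by positivity)
  -- sum over the boxes
  obtain ⟨SB, hSB⟩ : ∃ SB : ℝ, SB = ∑ b ∈ H59C.Rel n 2 (Ya n + a + 2) (Yb n + a + 2) δ,
      1 / Real.log (H59C.lv δ b.2) *
        H59C.XB (H59C.lv δ (b.1 + 1)) (H59C.lv δ b.2) (H59C.lv δ (b.2 + 1)) (H59C.al n δ b) := ⟨_, rfl⟩
  obtain ⟨R, hRr⟩ : ∃ R : ℝ, R = ((H59C.Rel n 2 (Ya n + a + 2) (Yb n + a + 2) δ).card : ℝ) := ⟨_, rfl⟩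
  have hsum : ∑ v ∈ (Ioc (Ya n + a) (Yb n + a)).filter (fun v => H59C.Tri n v), Φ v ≤
      A * V * (AA / 4 + ε) * SB + R * (4 / Real.log n * (n / Real.log n ^ 10)) := by
    refine hcov.trans ((sum_le_sum hone).trans (le_of_eq ?_))
    rw [sum_add_distrib, ← mul_sum, sum_const, nsmul_eq_mul, hSB, hRr]
  rw [← hSB] at hcount
  have hsame : ((Yb n + a + 2 : ℕ) : ℝ) - ((Ya n + a + 2 : ℕ) : ℝ) =
      ((Yb n + h : ℕ) : ℝ) - ((Ya n + h : ℕ) : ℝ) := by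
    push_cast
    ring
  rw [hsame] at hcount
  rw [← hRr] at hp2
  have hmainb : Real.log n * (A * V * (AA / 4 + ε) * SB) ≤
      X * A * V * (AA / 4 * (3 / 8) + 3 / 8 * ε) := by
    have h1 : Real.log n * SB ≤ 3 / 8 * X := by
      have h2 := mul_le_mul_of_nonneg_left hcount hL.le
      refine h2.trans ?_
      calc Real.log n * ((1 + 1 / 1000) * (((Yb n + h : ℕ) : ℝ) - ((Ya n + h : ℕ) : ℝ)) *
            ∑ q1 ∈ H59C.PR (zz n) (H59C.yy n),
            ∑ q2 ∈ (H59C.PR (H59C.yy n) n).filter (fun q2 => q1 * q2 ^ 2 ≤ 3 * n),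
              1 / ((q1 : ℝ) * q2 * Real.log (n / (20 * q1 * q2))))
          = (1 + 1 / 1000) * (((Yb n + h : ℕ) : ℝ) - ((Ya n + h : ℕ) : ℝ)) *
            (Real.log n * ∑ q1 ∈ H59C.PR (zz n) (H59C.yy n),
            ∑ q2 ∈ (H59C.PR (H59C.yy n) n).filter (fun q2 => q1 * q2 ^ 2 ≤ 3 * n),
              1 / ((q1 : ℝ) * q2 * Real.log (n / (20 * q1 * q2)))) := by ring
        _ ≤ (1 + 1 / 1000) * (((Yb n + h : ℕ) : ℝ) - ((Ya n + h : ℕ) : ℝ)) * (373 / 1000) := by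
            apply mul_le_mul_of_nonneg_left htri
            positivity
        _ ≤ 3 / 8 * X := by linarith
    calc Real.log n * (A * V * (AA / 4 + ε) * SB)
        = A * V * (AA / 4 + ε) * (Real.log n * SB) := by ring
      _ ≤ A * V * (AA / 4 + ε) * (3 / 8 * X) := by
          apply mul_le_mul_of_nonneg_left h1
          positivity
      _ = X * A * V * (AA / 4 * (3 / 8) + 3 / 8 * ε) := by ring
  have hrest : Real.log n * (R * (4 / Real.log n * (n / Real.log n ^ 10))) ≤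
      ε / 2 * (X * A * V) := by
    have h1 : Real.log n * (R * (4 / Real.log n * (n / Real.log n ^ 10))) =
        R * (4 * (n / Real.log n ^ 10)) := by
      field_simp
    rw [h1]
    calc R * (4 * (n / Real.log n ^ 10))
        ≤ (25 * Real.log n ^ 2 / δ ^ 2) * (4 * (n / Real.log n ^ 10)) := by
          apply mul_le_mul_of_nonneg_right hp2
          positivity
      _ = 100 / δ ^ 2 * (1 / Real.log n ^ 5) * (n / Real.log n ^ 3) := by
          field_simp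
          ring
      _ ≤ ε / 2 * (n / Real.log n ^ 3) := by
          apply mul_le_mul_of_nonneg_right _ (by positivity)
          rw [mul_one_div, div_div, div_le_iff₀ (by positivity)]
          rw [div_le_iff₀ (by positivity)] at hL9
          have h2 : Real.log n ≤ Real.log n ^ 5 := le_self_pow₀ hL1 (by norm_num)
          have h3 : Real.log n * (δ ^ 2 * ε) ≤ Real.log n ^ 5 * (δ ^ 2 * ε) :=
            mul_le_mul_of_nonneg_right h2 (by positivity)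
          nlinarith
      _ ≤ ε / 2 * (X * A * V) := by
          apply mul_le_mul_of_nonneg_left hXV (by positivity)
  calc S3s w H n a p1 h ≤ Real.log n * ∑ v ∈ (Ioc (Ya n + a) (Yb n + a)).filter
        (fun v => H59C.Tri n v), Φ v := hstep1
    _ ≤ Real.log n * (A * V * (AA / 4 + ε) * SB + R * (4 / Real.log n * (n / Real.log n ^ 10))) :=
        mul_le_mul_of_nonneg_left hsum hL.le
    _ ≤ X * A * V * (AA / 4 * (3 / 8) + 3 / 8 * ε) + ε / 2 * (X * A * V) := by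
        rw [mul_add]
        exact add_le_add hmainb hrest
    _ ≤ X * A * V * (AA / 4 * (3 / 8) + ε) := by
        have : 0 ≤ ε / 8 * (X * A * V) := by positivity
        linarith

end Pool.Agent.Lib.H57T
end
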