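import Pool.Agent.Lib.H1M.RV.M025
import Pool.Agent.Lib.H1M.RV.M031
import Pool.Agent.Lib.H1M.RV.M052
import Pool.Agent.Lib.H1M.RV.M087
import Pool.Agent.Lib.H1M.RV.M093
import Pool.Agent.Lib.H1M.RV.M094
import Pool.Agent.Lib.H1M.RV.M095
import Pool.Agent.Lib.H1M.RV.M098
import Pool.Agent.Lib.H1M.RV.M102
import Pool.Agent.Lib.H1M.RV.M103
import Pool.Agent.Lib.H1M.RV.M104

/-! Merged copies (to shorten the build) of Lib.H57T.FIN, Lib.H57T.Main, Lib.H18P.P1, Lib.H18Q.MPA. -/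

-- from Lib.H57T.FIN
section

/-!
# Chunk FIN: Chen's theorem with Maynard-Tao tuples
-/

open Finset

namespace Pool.Agent.Lib.H57T

open Pool.Agent.Lib.H57C


open Pool.Agent.Lib.H57M
open Pool.Agent.Lib.H59C (AA zz)
/-- Lower bound for the weighted sum.

Proof. `κ = (AA/8)(2 log 3 - log 6 - 3/8) > 0` (`cw_log` in `H59C/CW.lean`, `AA_pos`); `S1_low (κ/8)`, `S2_up (κ/8)`, `S3_up (κ/8)` give `θ0`; `θ = min` of these and `1/100`. `C` from
`E1_up`; `K0 ≥ 8 C/κ`, so `E1s ≤ (κ/8) Xh Vz + N/L^9`. `E2_up`, `E3_up`. So for every `h ∈ H`: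
`S1 - S2/2 - S3/2 - E1 - E2 - E3 ≥ (κ/2) Xh Vz - 3 N/L^9 ≥ (κ/4) Xh Vz + N/L^4` for large `N` (`main_low`: `Xh Vz ≥ N/L^3`). And
`Xh ≥ (N/20) (36/100) (1 + n c)^2 (log W/4) Va` (`aes`, `vb_ge`), so the sum over the `K` elements of `H` is `≥ K (1 + n c)^2 log W (κ/4) (9/2000)/1 N Va Vz + N/L^4 ≥
(κ/4) (9/2000) G L N Va Vz + N/L^4` (`gain`). The negative part is at most `(g - 1) 2 L ((N/8) Va Vz (AA/3 + 1) + N/L^10)` (`Ns_up`). So `G = C' g` with a large
constant `C'` (only depending on `AA`, `κ`) gives `Tt ≥ N/L^4 - 2 g N/L^9 ≥ N/L^5`. -/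
theorem T_ge : ∃ θ G1 : ℝ, 0 < θ ∧ θ ≤ 1 / 100 ∧ 0 < G1 ∧ ∃ K0 : ℕ,
    ∀ g : ℕ, 1 ≤ g → ∀ (K B cF : ℕ), 1 ≤ K → 3 ≤ B → ∃ n0 : ℕ, ∀ N : ℕ, n0 ≤ N →
    ∀ (w : Par K) (H : Finset ℕ) (a p1 : ℕ), K0 ≤ p1 → Reg B cF θ (g * G1) w H N a p1 →
    N / Real.log N ^ 5 ≤ Tt w H N a p1 g := by
  classical
  have hAA := H59C.AA_pos
  obtain ⟨κ, hκ⟩ : ∃ κ : ℝ, κ = AA / 8 * (2 * Real.log 3 - Real.log 6 - 3 / 8) := ⟨_, rfl⟩
  have hκ0 : 0 < κ := by
    rw [hκ]
    have := H59C.cw_log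
    exact mul_pos (by linarith) (by linarith)
  obtain ⟨t1, ht1, h1⟩ := S1_low (κ / 8) (by linarith)
  obtain ⟨t2, ht2, h2⟩ := S2_up (κ / 8) (by linarith)
  obtain ⟨t3, ht3, h3⟩ := S3_up (κ / 8) (by linarith)
  obtain ⟨C, hC, h4⟩ := E1_up
  obtain ⟨θ, hθ⟩ : ∃ θ : ℝ, θ = min (min t1 t2) (min t3 (1 / 100)) := ⟨_, rfl⟩
  have hθ0 : 0 < θ := by
    rw [hθ]
    exact lt_min (lt_min ht1 ht2) (lt_min ht3 (by norm_num))
  have hθ1 : θ ≤ t1 := by rw [hθ]; exact (min_le_left _ _).trans (min_le_left _ _)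
  have hθ2 : θ ≤ t2 := by rw [hθ]; exact (min_le_left _ _).trans (min_le_right _ _)
  have hθ3 : θ ≤ t3 := by rw [hθ]; exact (min_le_right _ _).trans (min_le_left _ _)
  have hθ4 : θ ≤ 1 / 100 := by rw [hθ]; exact (min_le_right _ _).trans (min_le_right _ _)
  obtain ⟨G1, hG1⟩ : ∃ G1 : ℝ, G1 = (AA / 3 + 1) * (2000 / (9 * κ)) := ⟨_, rfl⟩
  have hG10 : 0 < G1 := by
    rw [hG1]
    positivity
  refine ⟨θ, G1, hθ0, hθ4, hG10, ⌈8 * C / κ⌉₊ + 1, fun g hg K B cF hK hB => ?_⟩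
  have hg1 : (1 : ℝ) ≤ g := by exact_mod_cast hg
  obtain ⟨G, hGG⟩ : ∃ G : ℝ, G = g * G1 := ⟨_, rfl⟩
  have hG : G = g * (AA / 3 + 1) * (2000 / (9 * κ)) := by
    rw [hGG, hG1]
    ring
  have hG0 : 0 < G := by
    rw [hGG]
    positivity
  rw [← hGG]
  obtain ⟨n1, h1⟩ := h1 θ hθ0 hθ1 K B cF G hK hB
  obtain ⟨n2, h2⟩ := h2 θ hθ0 hθ2 K B cF G hK hB
  obtain ⟨n3, h3⟩ := h3 θ hθ0 hθ3 K B cF G hK hB
  obtain ⟨n4, h4⟩ := h4 θ hθ0 hθ4 K B cF G hK hB
  obtain ⟨n5, h5⟩ := E2_up K B cF θ G hK hB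
  obtain ⟨n6, h6⟩ := E3_up K B cF θ G hK hB
  obtain ⟨n7, h7⟩ := Ns_up K B cF θ G hK hB hθ0 hθ4
  obtain ⟨n8, h8⟩ := main_low K B cF hK θ G
  obtain ⟨cv, hcv, n9, h9⟩ := vz_low
  obtain ⟨n10, h10⟩ := va_low K B
  obtain ⟨n11, h11⟩ := H59C.cdl_log (16 / (3 * κ) + 4 * g + 2)
  refine ⟨n1 + n2 + n3 + n4 + n5 + n6 + n7 + n8 + n9 + n10 + n11 + 3,
    fun N hN w H a p1 hp1 hR => ?_⟩
  obtain ⟨L, hL⟩ : ∃ L : ℝ, L = Real.log N := ⟨_, rfl⟩
  have hLb := h11 N (by omega)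
  rw [← hL] at hLb
  have hk3 : 0 < 16 / (3 * κ) := by positivity
  have hL2 : 2 ≤ L := by linarith
  have hL1 : 1 ≤ L := by linarith
  have hL0 : 0 < L := by linarith
  have hLk : 16 ≤ 3 * κ * L := by
    have h : 16 / (3 * κ) ≤ L := by linarith
    rw [div_le_iff₀ (by linarith)] at h
    linarith
  have hLg : 4 * (g : ℝ) ≤ L := by linarith
  have hN0 : (0 : ℝ) < N := by exact_mod_cast (by omega : 0 < N)
  have hp1' : C / p1 ≤ κ / 8 := by
    have a1 : 8 * C / κ ≤ p1 := by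
      refine (Nat.le_ceil _).trans ?_
      exact_mod_cast (by omega : ⌈8 * C / κ⌉₊ ≤ p1)
    have a2 : (0 : ℝ) < p1 := by exact_mod_cast hR.p1p.pos
    rw [div_le_iff₀ a2]
    rw [div_le_iff₀ hκ0] at a1
    linarith
  have hW2 : 2 ≤ w.W := by
    have := w.KW
    have h1 := w.Kpos
    nlinarith
  obtain ⟨hz1, hz2⟩ := h9 N (by omega) a w.W H hW2
  obtain ⟨Z, hZ⟩ : ∃ Z : ℝ, Z = Vz N w.W H a := ⟨_, rfl⟩
  obtain ⟨V, hV⟩ : ∃ V : ℝ, V = Va a w.W p1 H := ⟨_, rfl⟩
  have hZ0 : 0 ≤ Z := by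
    rw [hZ]
    refine le_trans ?_ hz1
    rw [← hL]
    positivity
  have hV0 : 0 ≤ V := by
    rw [hV]
    refine le_trans ?_ (h10 N (by omega) a w.W p1 H hR.Wdef hR.cardH hR.nf).1
    rw [← hL]
    positivity
  obtain ⟨q, hq⟩ : ∃ q : ℝ, q = (1 + w.n * w.c) ^ 2 := ⟨_, rfl⟩
  have hq0 : 0 ≤ q := by rw [hq]; positivity
  have hlogW : 0 ≤ Real.log w.W := Real.log_nonneg (by exact_mod_cast (by omega : 1 ≤ w.W))
  -- one `h`
  have hone : ∀ h ∈ H, N / L ^ 4 + κ / 4 * (9 / 2000 * (q * Real.log w.W) * (N * V * Z)) ≤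
      S1s w H N a p1 h - 1 / 2 * S2s w H N a p1 h - 1 / 2 * S3s w H N a p1 h -
      E1s w H N a p1 h - E2s w H N a p1 h - E3s w H N a p1 h := by
    intro h hh
    have b1 := h1 N (by omega) w H a p1 hR h hh
    have b2 := h2 N (by omega) w H a p1 hR h hh
    have b3 := h3 N (by omega) w H a p1 hR h hh
    have b4 := h4 N (by omega) w H a p1 hR h hh
    have b5 := h5 N (by omega) w H a p1 hR h hh
    have b6 := h6 N (by omega) w H a p1 hR h hh
    obtain ⟨b8, b9, b10, b11⟩ := h8 N (by omega) w H a p1 hR h hh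
    rw [← hL] at b4 b5 b6 b8
    rw [← hZ] at b1 b2 b3 b4 b8
    obtain ⟨X, hX⟩ : ∃ X : ℝ, X = Xh w H N a p1 h * Z := ⟨_, rfl⟩
    rw [← hX] at b1 b2 b3 b4 b8
    have hX0 : 0 ≤ X := by rw [hX]; exact mul_nonneg b9 hZ0
    have c1 : C / p1 * X ≤ κ / 8 * X := mul_le_mul_of_nonneg_right hp1' hX0
    have c2 : X * (AA * Real.log 3 / 4 - κ / 8) - 1 / 2 * (X * (AA / 4 * Real.log 6 + κ / 8)) -
        1 / 2 * (X * (AA / 4 * (3 / 8) + κ / 8)) = X * (κ - 2 * (κ / 8)) := by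
      rw [hκ]
      ring
    have c3 : 5 / 8 * κ * X - 3 * (N / L ^ 9) ≤
        S1s w H N a p1 h - 1 / 2 * S2s w H N a p1 h - 1 / 2 * S3s w H N a p1 h -
      E1s w H N a p1 h - E2s w H N a p1 h - E3s w H N a p1 h := by
      have e1 : X * (κ - 2 * (κ / 8)) = 5 / 8 * κ * X + κ / 8 * X := by ring
      linarith
    have c4 : 9 / 2000 * (q * Real.log w.W) * (N * V * Z) ≤ X := by
      rw [hX]
      have d1 : 9 / 2000 * (q * Real.log w.W) * (N * V) ≤ Xh w H N a p1 h := by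
        unfold Xh
        have d2 : 36 / 100 * q ≤ AE w.P H (some h) (FC w H) := by
          rw [hq]
          exact hR.aes h hh
        have d3 : Real.log w.W / 4 * V ≤ Vb a w.W p1 H := by
          rw [hV]
          rw [hV] at hV0
          exact (vb_ge a w.W p1 H hW2 hR.p1p hV0).1
        have d4 : 36 / 100 * q * (Real.log w.W / 4 * V) ≤
            AE w.P H (some h) (FC w H) * Vb a w.W p1 H :=
          mul_le_mul d2 d3 (by positivity) (le_trans (by positivity) d2)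
        have d5 : (N : ℝ) / 20 * (36 / 100 * q * (Real.log w.W / 4 * V)) ≤
            H59C.XX (Ya N + h) (Yb N + h) * (AE w.P H (some h) (FC w H) * Vb a w.W p1 H) :=
          mul_le_mul b10 d4 (by positivity) (le_trans (by positivity) b10)
        refine le_trans (le_of_eq ?_) d5
        ring
      calc 9 / 2000 * (q * Real.log w.W) * (N * V * Z) =
          (9 / 2000 * (q * Real.log w.W) * (N * V)) * Z := by ring
        _ ≤ Xh w H N a p1 h * Z := mul_le_mul_of_nonneg_right d1 hZ0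
    have c5 : κ / 4 * (9 / 2000 * (q * Real.log w.W) * (N * V * Z)) ≤ κ / 4 * X :=
      mul_le_mul_of_nonneg_left c4 (by linarith)
    have c6 : N / L ^ 4 + 3 * (N / L ^ 9) ≤ 3 / 8 * κ * X := by
      have d1 : 3 / 8 * κ * (N / L ^ 3) ≤ 3 / 8 * κ * X :=
        mul_le_mul_of_nonneg_left b8 (by positivity)
      have d2 : 2 * (N / L ^ 4) ≤ 3 / 8 * κ * (N / L ^ 3) := by
        have e1 : 3 / 8 * κ * (N / L ^ 3) = (3 / 8 * κ * L) * (N / L ^ 4) := by
          field_simp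
        rw [e1]
        refine mul_le_mul_of_nonneg_right ?_ (by positivity)
        linarith
      have d3 : 3 * (N / L ^ 9) ≤ N / L ^ 4 := by
        have e1 : 3 * (N / L ^ 9) = (3 / L ^ 5) * (N / L ^ 4) := by
          field_simp
        rw [e1]
        refine mul_le_of_le_one_left (by positivity) ?_
        rw [div_le_one (by positivity)]
        have e2 : (2 : ℝ) ^ 5 ≤ L ^ 5 := pow_le_pow_left₀ (by norm_num) hL2 5
        linarith
      linarith
    have c7 : 5 / 8 * κ * X = κ / 4 * X + 3 / 8 * κ * X := by ring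
    linarith
  have hsum := Finset.sum_le_sum hone
  rw [Finset.sum_const, hR.cardH, nsmul_eq_mul] at hsum
  have hNs := h7 N (by omega) w H a p1 hR
  rw [← hL, ← hZ, ← hV] at hNs
  obtain ⟨U, hU⟩ : ∃ U : ℝ, U = N / 8 * (V * Z * (AA / 3 + 1)) + N / L ^ 10 := ⟨_, rfl⟩
  rw [← hU] at hNs
  have hU0 : 0 ≤ U := by rw [hU]; positivity
  have hlog2 : Real.log (2 * N) ≤ 2 * L := by
    rw [Real.log_mul (by norm_num) hN0.ne', ← hL]
    have := Real.log_two_lt_d9
    linarith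
  have hlog20 : 0 ≤ Real.log (2 * N) := by
    rw [Real.log_mul (by norm_num) hN0.ne', ← hL]
    have := Real.log_two_gt_d9
    linarith
  have hneg : ((g : ℝ) - 1) * Real.log (2 * N) * Ns w H N a p1 ≤ ((g : ℝ) - 1) * (2 * L) * U := by
    have hg0 : 0 ≤ (g : ℝ) - 1 := by linarith
    calc ((g : ℝ) - 1) * Real.log (2 * N) * Ns w H N a p1 ≤ ((g : ℝ) - 1) * Real.log (2 * N) * U :=
          mul_le_mul_of_nonneg_left hNs (mul_nonneg hg0 hlog20)
      _ ≤ ((g : ℝ) - 1) * (2 * L) * U :=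
          mul_le_mul_of_nonneg_right (mul_le_mul_of_nonneg_left hlog2 hg0) hU0
  have hgain := hR.gain
  rw [← hL, ← hq] at hgain
  rw [← hL]
  refine fin_alg κ AA L N V Z (K * (9 / 2000 * (q * Real.log w.W) * (N * V * Z))) K G g U
    (Tt w H N a p1 g) hκ0 hL1 hLk hLg hL2 hN0 hV0 hZ0 hg1 hAA (by exact_mod_cast hK) hG ?_ ?_
    (le_of_eq hU)
  · unfold Tt
    have e1 : (K : ℝ) * (N / L ^ 4 + κ / 4 * (9 / 2000 * (q * Real.log w.W) * (N * V * Z))) =
        K * (N / L ^ 4) + κ / 4 * (K * (9 / 2000 * (q * Real.log w.W) * (N * V * Z))) := by ring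
    linarith
  · have e1 : (K : ℝ) * (9 / 2000 * (q * Real.log w.W) * (N * V * Z)) =
        9 / 2000 * (K * q * Real.log w.W) * (N * V * Z) := by ring
    rw [e1]
    refine mul_le_mul_of_nonneg_right ?_ (by positivity)
    linarith

/-- Proof. `T_ge`, `reg_exists`, `T_le`: `N/L^5 ≤ K log (2N) ∑_{Gd} FF`, Cauchy-Schwarz and `mom`: `(∑_{Gd} FF)^2 ≤ #Gd L^B N`; so
`#Gd ≥ N/(L^(10) K^2 (2L)^2 L^B) ≥ N/L^(B + 13)`. -/
theorem gd_card : ∃ C : ℝ, 0 < C ∧ ∀ g : ℕ, 1 ≤ g → ∃ K B n0 : ℕ, 1 ≤ K ∧ (K : ℝ) ≤ Real.exp (C * g) ∧ ∀ N : ℕ, n0 ≤ N → ∀ H : Finset ℕ, H.card = K → ∀ a : ℕ,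
    (∀ h ∈ H, 100 * h ≤ N) → 100 * a ≤ N → a ∉ H → (∀ h ∈ H, 2 ∣ a + h) →
    (∀ q : ℕ, q.Prime → (Rb a H q).card < q) → N / Real.log N ^ B ≤ ((Gd H N a g).card : ℝ) := by
  classical
  obtain ⟨θ, G1, hθ0, hθ1, hG10, K0, hT'⟩ := T_ge
  obtain ⟨C1, hC1, hreg0⟩ := reg_exists θ hθ0 hθ1
  refine ⟨9 * (C1 * (G1 + 1)), by positivity, fun g hg => ?_⟩
  have hT := hT' g hg
  have hg1 : (1 : ℝ) ≤ g := by exact_mod_cast hg
  obtain ⟨G, hGG⟩ : ∃ G : ℝ, G = g * G1 := ⟨_, rfl⟩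
  have hG0 : 0 < G := by
    rw [hGG]
    positivity
  rw [← hGG] at hT
  obtain ⟨m, hm, hmC, cF, B, hB, hreg⟩ := hreg0 G hG0
  obtain ⟨K, hKdef⟩ : ∃ K : ℕ, K = 4000 ^ m := ⟨_, rfl⟩
  have hK1 : 1 ≤ K := by rw [hKdef]; exact Nat.one_le_pow _ _ (by norm_num)
  rw [← hKdef] at hreg
  have hKexp : (K : ℝ) ≤ Real.exp (9 * (C1 * (G1 + 1)) * g) := by
    have a1 : (m : ℝ) ≤ C1 * (G1 + 1) * g := by
      refine hmC.trans ?_
      rw [hGG]
      have a2 : (g : ℝ) * G1 + 1 ≤ (G1 + 1) * g := by nlinarith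
      calc C1 * ((g : ℝ) * G1 + 1) ≤ C1 * ((G1 + 1) * g) := mul_le_mul_of_nonneg_left a2 hC1.le
        _ = C1 * (G1 + 1) * g := by ring
    have a3 : (4000 : ℝ) ≤ Real.exp 9 := by
      have a4 : (2.7 : ℝ) ≤ Real.exp 1 := by linarith [Real.exp_one_gt_d9]
      have a5 : Real.exp 9 = Real.exp 1 ^ 9 := by
        rw [← Real.exp_nat_mul]
        norm_num
      rw [a5]
      calc (4000 : ℝ) ≤ 2.7 ^ 9 := by norm_num
        _ ≤ Real.exp 1 ^ 9 := pow_le_pow_left₀ (by norm_num) a4 9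
    rw [hKdef]
    push_cast
    calc (4000 : ℝ) ^ m ≤ Real.exp 9 ^ m := pow_le_pow_left₀ (by norm_num) a3 m
      _ = Real.exp (m * 9) := by rw [← Real.exp_nat_mul]
      _ ≤ Real.exp (9 * (C1 * (G1 + 1)) * g) := Real.exp_le_exp.2 (by linarith)
  obtain ⟨n1, h1⟩ := hT K B cF hK1 hB
  obtain ⟨n2, h2⟩ := T_le K B cF θ G hK1 hB g hg
  obtain ⟨n3, h3⟩ := H59C.cdl_log (4 * (K : ℝ) ^ 2 + 2)
  obtain ⟨n4, h4⟩ := hreg K0
  refine ⟨K, B + 13, n1 + n2 + n3 + n4 + 3, hK1, hKexp, fun N hN H hH a hHN haN haH he hnf => ?_⟩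
  obtain ⟨w, p1, hp1, hR⟩ := h4 N (by omega) H hH a hHN haN haH he hnf
  have g1 := h1 N (by omega) w H a p1 hp1 hR
  have g2 := h2 N (by omega) w H a p1 hR
  have g3 := h3 N (by omega)
  obtain ⟨L, hL⟩ : ∃ L : ℝ, L = Real.log N := ⟨_, rfl⟩
  rw [← hL] at g1 g3 ⊢
  have hK1' : (1 : ℝ) ≤ K := by exact_mod_cast hK1
  have hL2 : 2 ≤ L := by nlinarith
  have hL0 : 0 < L := by linarith
  have hN0 : (0 : ℝ) < N := by exact_mod_cast (by omega : 0 < N)
  have hlog2 : Real.log (2 * N) ≤ 2 * L := by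
    rw [Real.log_mul (by norm_num) hN0.ne', ← hL]
    have := Real.log_two_lt_d9
    linarith
  obtain ⟨S, hS⟩ : ∃ S : ℝ, S = ∑ t ∈ Gd H N a g, FF w H none t := ⟨_, rfl⟩
  rw [← hS] at g2
  have hS0 : 0 ≤ S := by
    rw [hS]
    exact Finset.sum_nonneg fun t _ => E2_FF w H none t
  have g4 : N / L ^ 5 ≤ K * (2 * L) * S := by
    refine g1.trans (g2.trans ?_)
    exact mul_le_mul_of_nonneg_right (mul_le_mul_of_nonneg_left hlog2 (by linarith)) hS0
  have g5 : S ^ 2 ≤ ((Gd H N a g).card : ℝ) * (L ^ B * N) := by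
    have c1 := Finset.sum_mul_sq_le_sq_mul_sq (Gd H N a g) (fun _ => (1 : ℝ)) (fun t => FF w H none t)
    simp only [one_mul, one_pow, Finset.sum_const, nsmul_eq_mul, mul_one] at c1
    rw [← hS] at c1
    refine c1.trans (mul_le_mul_of_nonneg_left ?_ (Nat.cast_nonneg _))
    have c2 := hR.mom
    rw [← hL] at c2
    refine le_trans ?_ c2
    refine Finset.sum_le_sum_of_subset_of_nonneg ?_ fun t _ _ => sq_nonneg _
    intro t ht
    unfold Gd at ht
    rw [Finset.mem_filter, Finset.mem_Ioc] at ht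
    rw [Finset.mem_Icc]
    have h1 := ht.1.2
    unfold Yb at h1
    omega
  -- `N ≤ #Gd L^(B+13)`
  obtain ⟨c, hc⟩ : ∃ c : ℝ, c = ((Gd H N a g).card : ℝ) := ⟨_, rfl⟩
  rw [← hc] at g5 ⊢
  have hc0 : 0 ≤ c := by rw [hc]; exact Nat.cast_nonneg _
  have g6 : (N : ℝ) ≤ K * (2 * L ^ 6) * S := by
    rw [div_le_iff₀ (by positivity)] at g4
    calc (N : ℝ) ≤ K * (2 * L) * S * L ^ 5 := g4
      _ = K * (2 * L ^ 6) * S := by ring
  have g7 : (N : ℝ) ^ 2 ≤ (4 * K ^ 2 * L ^ 12) * (c * (L ^ B * N)) := by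
    calc (N : ℝ) ^ 2 ≤ (K * (2 * L ^ 6) * S) ^ 2 := pow_le_pow_left₀ hN0.le g6 2
      _ = (4 * K ^ 2 * L ^ 12) * S ^ 2 := by ring
      _ ≤ (4 * K ^ 2 * L ^ 12) * (c * (L ^ B * N)) := mul_le_mul_of_nonneg_left g5 (by positivity)
  have g8 : (N : ℝ) ≤ (4 * K ^ 2 * L ^ 12) * (c * L ^ B) := by
    have e1 : (4 * (K : ℝ) ^ 2 * L ^ 12) * (c * (L ^ B * N)) = ((4 * K ^ 2 * L ^ 12) * (c * L ^ B)) * N := by
      ring
    rw [e1, sq] at g7
    exact le_of_mul_le_mul_right g7 hN0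
  rw [div_le_iff₀ (by positivity)]
  calc (N : ℝ) ≤ (4 * K ^ 2 * L ^ 12) * (c * L ^ B) := g8
    _ ≤ (L * L ^ 12) * (c * L ^ B) := by
        refine mul_le_mul_of_nonneg_right ?_ (by positivity)
        refine mul_le_mul_of_nonneg_right ?_ (by positivity)
        linarith
    _ = c * L ^ (B + 13) := by ring

end Pool.Agent.Lib.H57T
end

-- from Lib.H57T.Main
section

/-!
# Project H57T: the final form of the theorem
-/

open Finset

namespace Pool.Agent.Lib.H57T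

open Pool.Agent.Lib.H57C

/-- If some residue class modulo `q` contains no element of `A` then the bad classes of `H ∪ {a} ⊆ A` are not all
classes. -/
theorem main_Rb (A H : Finset ℕ) (a : ℕ) (hs : H ⊆ A) (ha : a ∈ A) (q : ℕ) (hq : q.Prime)
    (hn : ∃ r : ZMod q, ∀ b ∈ A, (b : ZMod q) ≠ r) : (Rb a H q).card < q := by
  obtain ⟨r, hr⟩ := hn
  haveI : NeZero q := ⟨hq.ne_zero⟩
  set c : ℕ := (-r).val with hc
  have hcq : c < q := ZMod.val_lt _
  have hcr : (c : ZMod q) = -r := ZMod.natCast_zmod_val _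
  have key : ∀ b ∈ A, ¬ q ∣ c + b := by
    intro b hb hd
    have h1 : ((c + b : ℕ) : ZMod q) = 0 := (ZMod.natCast_eq_zero_iff _ _).2 hd
    rw [Nat.cast_add, hcr] at h1
    apply hr b hb
    linear_combination h1
  have hcn : c ∉ Rb a H q := by
    intro hmem
    unfold Rb at hmem
    rw [mem_filter] at hmem
    rcases hmem.2 with ⟨h, hh, hd⟩ | hd
    · exact key h (hs hh) hd
    · exact key a ha hd
  have hsub : Rb a H q ⊆ (range q).erase c := by
    intro y hy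
    rw [mem_erase]
    exact ⟨fun h => hcn (h ▸ hy), rb_sub hy⟩
  calc (Rb a H q).card ≤ ((range q).erase c).card := card_le_card hsub
    _ = q - 1 := by rw [card_erase_of_mem (mem_range.mpr hcq), card_range]
    _ < q := Nat.sub_lt hq.pos one_pos

theorem main_even (A : Finset ℕ) (a h : ℕ) (ha : a ∈ A) (hh : h ∈ A)
    (hn : ∃ r : ZMod 2, ∀ b ∈ A, (b : ZMod 2) ≠ r) : 2 ∣ a + h := by
  obtain ⟨r, hr⟩ := hn
  have h1 := hr a ha
  have h2 := hr h hh
  have h3 : ∀ x y r : ZMod 2, x ≠ r → y ≠ r → x + y = 0 := by decide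
  have h4 := h3 _ _ _ h1 h2
  rw [← Nat.cast_add] at h4
  exact (ZMod.natCast_eq_zero_iff _ _).1 h4

theorem main_log (B : ℕ) : ∃ x1 : ℝ, ∀ x : ℝ, x1 ≤ x → 1 ≤ x ∧ 1 ≤ Real.log x ∧
    2 ≤ Real.log x ∧ x / 2 ≤ (⌊x⌋₊ : ℝ) ∧ x ^ (1 / 11 : ℝ) ≤ (⌊x⌋₊ : ℝ) ^ (1 / 10 : ℝ) := by
  have h1 : ∀ᶠ x : ℝ in Filter.atTop, 2 ≤ Real.log x := Real.tendsto_log_atTop.eventually_ge_atTop 2
  have h2 : ∀ᶠ x : ℝ in Filter.atTop, (2 : ℝ) ≤ x ^ (1 / 110 : ℝ) :=
    (tendsto_rpow_atTop (by norm_num : (0 : ℝ) < 1 / 110)).eventually_ge_atTop 2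
  have h3 := (h1.and h2).and (Filter.eventually_ge_atTop (2 : ℝ))
  obtain ⟨x1, hx1⟩ := Filter.eventually_atTop.1 h3
  refine ⟨x1, fun x hx => ?_⟩
  obtain ⟨⟨a1, a2⟩, a3⟩ := hx1 x hx
  have h4 : x < (⌊x⌋₊ : ℝ) + 1 := Nat.lt_floor_add_one x
  have h5 : x / 2 ≤ (⌊x⌋₊ : ℝ) := by linarith
  refine ⟨by linarith, by linarith, a1, h5, ?_⟩
  have h6 : (x / 2) ^ (1 / 10 : ℝ) ≤ (⌊x⌋₊ : ℝ) ^ (1 / 10 : ℝ) :=
    Real.rpow_le_rpow (by linarith) h5 (by norm_num)
  refine le_trans ?_ h6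
  have h7 : (2 : ℝ) ^ (1 / 10 : ℝ) ≤ 2 := by
    calc (2 : ℝ) ^ (1 / 10 : ℝ) ≤ (2 : ℝ) ^ (1 : ℝ) :=
          Real.rpow_le_rpow_of_exponent_le (by norm_num) (by norm_num)
      _ = 2 := Real.rpow_one _
  have h8 : x ^ (1 / 10 : ℝ) = x ^ (1 / 11 : ℝ) * x ^ (1 / 110 : ℝ) := by
    rw [← Real.rpow_add (by linarith)]
    norm_num
  rw [Real.div_rpow (by linarith) (by norm_num), h8, le_div_iff₀ (by positivity)]
  exact mul_le_mul_of_nonneg_left (h7.trans a2) (by positivity)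

open Classical in
/-- **Chen-Maynard-Tao, uniformly in the shifts.** -/
theorem main : ∃ c : ℝ, 0 < c ∧ ∃ k0 : ℕ, ∀ k : ℕ, k0 ≤ k → ∃ (B : ℕ) (x0 : ℝ), ∀ x : ℝ, x0 ≤ x →
    ∀ A : Finset ℕ, k ≤ A.card →
    (∀ p : ℕ, p.Prime → ∃ r : ZMod p, ∀ b ∈ A, (b : ZMod p) ≠ r) →
    (∀ b ∈ A, (b : ℝ) ≤ x / 100) → ∀ a ∈ A,
      x / Real.log x ^ B ≤ ((((Icc 1 ⌊x⌋₊).filter (fun n =>
        ((∀ q : ℕ, q.Prime → q ∣ n + a → x ^ (1 / 11 : ℝ) ≤ q) ∧
          ((n + a).Prime ∨ ∃ r s : ℕ, r.Prime ∧ s.Prime ∧ n + a = r * s)) ∧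
        c * Real.log k ≤ (((A.erase a).filter (fun b => (n + b).Prime)).card : ℝ))).card : ℕ) : ℝ) := by
  classical
  obtain ⟨C, hC, hmain⟩ := gd_card
  refine ⟨1 / (2 * C), by positivity, ⌈Real.exp (2 * C + 2)⌉₊ + 2, fun k hk => ?_⟩
  have hk2 : (2 : ℝ) ≤ k := by exact_mod_cast (by omega : 2 ≤ k)
  have hke : Real.exp (2 * C + 2) ≤ k := by
    refine (Nat.le_ceil _).trans ?_
    exact_mod_cast (by omega : ⌈Real.exp (2 * C + 2)⌉₊ ≤ k)
  have hlk : 2 * C + 2 ≤ Real.log k := (Real.le_log_iff_exp_le (by linarith)).2 hke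
  have hlk1 : Real.log k - 1 ≤ Real.log ((k : ℝ) - 1) := by
    have h1 : (k : ℝ) / 2 ≤ (k : ℝ) - 1 := by linarith
    have h2 := Real.log_le_log (by linarith) h1
    rw [Real.log_div (by linarith) (by norm_num)] at h2
    linarith [Real.log_two_lt_d9]
  obtain ⟨g, hg⟩ : ∃ g : ℕ, g = ⌊Real.log ((k : ℝ) - 1) / C⌋₊ := ⟨_, rfl⟩
  have hq0 : 0 ≤ Real.log ((k : ℝ) - 1) / C := div_nonneg (by linarith) hC.le
  have hgle : (g : ℝ) ≤ Real.log ((k : ℝ) - 1) / C := by rw [hg]; exact Nat.floor_le hq0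
  have hggt : Real.log ((k : ℝ) - 1) / C < g + 1 := by rw [hg]; exact Nat.lt_floor_add_one _
  have hg1 : 1 ≤ g := by
    rw [hg]
    apply Nat.le_floor
    rw [Nat.cast_one, le_div_iff₀ hC]
    linarith
  have hgc : 1 / (2 * C) * Real.log k ≤ g := by
    have h1 : 1 / (2 * C) * Real.log k + 1 ≤ Real.log ((k : ℝ) - 1) / C := by
      rw [le_div_iff₀ hC]
      have h2 : (1 / (2 * C) * Real.log k + 1) * C = Real.log k / 2 + C := by
        field_simp
      rw [h2]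
      linarith
    linarith
  obtain ⟨K, B, n0, hK1, hKe, hgd⟩ := hmain g hg1
  have hKk : K ≤ k - 1 := by
    have h1 : Real.exp (C * g) ≤ (k : ℝ) - 1 := by
      rw [← Real.le_log_iff_exp_le (by linarith)]
      rw [le_div_iff₀ hC] at hgle
      linarith
    have h2 : (K : ℝ) ≤ ((k - 1 : ℕ) : ℝ) := by
      rw [Nat.cast_sub (by omega : 1 ≤ k), Nat.cast_one]
      linarith
    exact_mod_cast h2
  obtain ⟨x1, hx1⟩ := main_log B
  refine ⟨B + 1, max x1 (2 * n0 + 100), fun x hx A hA hadm hAx a ha => ?_⟩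
  obtain ⟨y1, y2, y3, y4, y5⟩ := hx1 x ((le_max_left _ _).trans hx)
  have hxn : (2 * n0 + 100 : ℝ) ≤ x := (le_max_right _ _).trans hx
  obtain ⟨N, hN⟩ : ∃ N : ℕ, N = ⌊x⌋₊ := ⟨_, rfl⟩
  rw [← hN] at y4 y5 ⊢
  have hNn0 : n0 ≤ N := by
    have h1 : (n0 : ℝ) ≤ N := by linarith
    exact_mod_cast h1
  have hN50 : 50 ≤ N := by
    have h1 : (50 : ℝ) ≤ N := by linarith [Nat.cast_nonneg (α := ℝ) n0]
    exact_mod_cast h1
  have hNx : (N : ℝ) ≤ x := by rw [hN]; exact Nat.floor_le (by linarith)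
  have hA100 : ∀ b ∈ A, 100 * b ≤ N := by
    intro b hb
    rw [hN]
    apply Nat.le_floor
    push_cast
    have := hAx b hb
    linarith
  have hcard : K ≤ (A.erase a).card := by
    rw [card_erase_of_mem ha]
    omega
  obtain ⟨H, hHs, hHc⟩ := exists_subset_card_eq hcard
  have hHA : H ⊆ A := hHs.trans (erase_subset _ _)
  have haH : a ∉ H := fun h => (mem_erase.1 (hHs h)).1 rfl
  have h1 := hgd N hNn0 H hHc a (fun h hh => hA100 h (hHA hh)) (hA100 a ha) haH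
    (fun h hh => main_even A a h ha (hHA hh) (hadm 2 Nat.prime_two))
    (fun q hq => main_Rb A H a hHA ha q hq (hadm q hq))
  have hsub : Gd H N a g ⊆ (Icc 1 N).filter (fun n =>
        ((∀ q : ℕ, q.Prime → q ∣ n + a → x ^ (1 / 11 : ℝ) ≤ q) ∧
          ((n + a).Prime ∨ ∃ r s : ℕ, r.Prime ∧ s.Prime ∧ n + a = r * s)) ∧
        1 / (2 * C) * Real.log k ≤ (((A.erase a).filter (fun b => (n + b).Prime)).card : ℝ)) := by
    intro t ht
    unfold Gd at ht
    rw [mem_filter, mem_Ioc] at ht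
    obtain ⟨⟨ht1, ht2⟩, ht3, ht4, ht5⟩ := ht
    rw [mem_filter, mem_Icc]
    refine ⟨⟨by omega, ?_⟩, ⟨fun q hq hd => y5.trans (ht4 q hq hd), ht5⟩, ?_⟩
    · unfold Yb at ht2
      omega
    · have h2 : g ≤ ((A.erase a).filter (fun b => (t + b).Prime)).card :=
        ht3.trans (card_le_card (filter_subset_filter _ hHs))
      have h3 : (g : ℝ) ≤ (((A.erase a).filter (fun b => (t + b).Prime)).card : ℝ) := by
        exact_mod_cast h2
      linarith
  have h2 : x / Real.log x ^ (B + 1) ≤ N / Real.log N ^ B := by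
    have hN1 : (1 : ℝ) < N := by
      have : (50 : ℝ) ≤ N := by exact_mod_cast hN50
      linarith
    have hlN : 0 < Real.log N := Real.log_pos hN1
    have hlNx : Real.log N ≤ Real.log x := Real.log_le_log (by linarith) hNx
    have h3 : Real.log N ^ B ≤ Real.log x ^ B := pow_le_pow_left₀ hlN.le hlNx B
    have h4 : 0 < Real.log N ^ B := by positivity
    calc x / Real.log x ^ (B + 1) = (x / Real.log x) / Real.log x ^ B := by
          rw [pow_succ, div_div, mul_comm]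
      _ ≤ N / Real.log x ^ B := by
          refine div_le_div_of_nonneg_right ?_ (by positivity)
          refine le_trans ?_ y4
          exact div_le_div_of_nonneg_left (by linarith) (by norm_num) y3
      _ ≤ N / Real.log N ^ B := div_le_div_of_nonneg_left (by linarith) h4 h3
  refine h2.trans (h1.trans ?_)
  exact_mod_cast card_le_card hsub

end Pool.Agent.Lib.H57T
end

-- from Lib.H18P.P1
section

/-!
# Project H18P (MP_443e5f_co): the jump between scales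

For all large `n` and `m0 ≤ m ≤ n / 1000` a positive proportion of the `X ≤ m` have at least
`n / (log n) ^ B` neighbours in `[1, n]` (halved Goldbach graph: `X ~ Y` iff `X + Y` and `|X - Y|` are odd primes).
This is a consequence of the uniform Maynard-Tao theorem `H57T.main`: every `k`-tuple of multiples of
`2 k!` contains two elements whose difference `2 X` is of this kind.
-/

open Finset Pool.Agent.Lib.GoldbachGraph

namespace Pool.Agent.Lib.H18P

/-- A greedy choice of `k` numbers without differences in `D`. -/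
theorem greedy (D : Finset ℕ) (J : ℕ) : ∀ k : ℕ, k * (2 * D.card + 1) ≤ J + 1 →
    ∃ S : Finset ℕ, S ⊆ range (J + 1) ∧ S.card = k ∧ ∀ i ∈ S, ∀ j ∈ S, i < j → j - i ∉ D := by
  classical
  intro k
  induction k with
  | zero => exact fun _ => ⟨∅, by simp, by simp, by simp⟩
  | succ k ih =>
    intro h
    obtain ⟨S, hS1, hS2, hS3⟩ := ih (by nlinarith)
    set F : Finset ℕ := S ∪ (S.biUnion fun i => D.image fun d => i + d) ∪ (S.biUnion fun i => D.image fun d => i - d)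
      with hF
    have hFc : F.card ≤ k * (2 * D.card + 1) := by
      have h1 : (S.biUnion fun i => D.image fun d => i + d).card ≤ k * D.card := by
        rw [← hS2]
        exact card_biUnion_le_card_mul _ _ _ fun i _ => card_image_le
      have h2 : (S.biUnion fun i => D.image fun d => i - d).card ≤ k * D.card := by
        rw [← hS2]
        exact card_biUnion_le_card_mul _ _ _ fun i _ => card_image_le
      have h3 := card_union_le (S ∪ (S.biUnion fun i => D.image fun d => i + d)) (S.biUnion fun i => D.image fun d => i - d)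
      have h4 := card_union_le S (S.biUnion fun i => D.image fun d => i + d)
      rw [hF]
      nlinarith
    have hlt : F.card < (range (J + 1)).card := by
      rw [card_range]
      nlinarith
    obtain ⟨j, hj1, hj2⟩ := exists_mem_notMem_of_card_lt_card hlt
    simp only [hF, mem_union, mem_biUnion, mem_image, not_or, not_exists, not_and] at hj2
    obtain ⟨⟨hj3, hj4⟩, hj5⟩ := hj2
    refine ⟨insert j S, ?_, ?_, ?_⟩
    · intro i hi
      rw [mem_insert] at hi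
      rcases hi with rfl | hi
      · exact hj1
      · exact hS1 hi
    · rw [card_insert_of_notMem hj3, hS2]
    · intro a ha b hb hab
      rw [mem_insert] at ha hb
      rcases ha with rfl | ha
      · rcases hb with rfl | hb
        · exact absurd hab (lt_irrefl _)
        · intro hd
          exact hj5 b hb _ hd (by omega)
      · rcases hb with rfl | hb
        · intro hd
          exact hj4 a ha _ hd (by omega)
        · exact hS3 a ha b hb hab

/-- A `k`-tuple of multiples of `2 k!` is admissible. -/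
theorem adm (k : ℕ) (A : Finset ℕ) (hk : A.card = k) (hA : ∀ b ∈ A, 2 * k.factorial ∣ b) (p : ℕ) (hp : p.Prime) :
    ∃ r : ZMod p, ∀ b ∈ A, (b : ZMod p) ≠ r := by
  classical
  haveI : Fact p.Prime := ⟨hp⟩
  by_cases h : p ≤ k
  · refine ⟨1, fun b hb h1 => ?_⟩
    have h2 : p ∣ b := ((hp.dvd_factorial.2 h).trans (dvd_mul_left _ _)).trans (hA b hb)
    rw [(ZMod.natCast_eq_zero_iff _ _).2 h2] at h1
    exact zero_ne_one h1
  · by_contra hc
    push Not at hc
    have h1 : (univ : Finset (ZMod p)) ⊆ A.image (fun b : ℕ => (b : ZMod p)) := by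
      intro r _
      obtain ⟨b, hb, hr⟩ := hc r
      exact mem_image.2 ⟨b, hb, hr⟩
    have h2 := card_le_card h1
    rw [card_univ, ZMod.card] at h2
    have h3 : (A.image (fun b : ℕ => (b : ZMod p))).card ≤ A.card := card_image_le
    omega

/-- Prime pairs give neighbours. -/
theorem pair_deg (n m b b' N : ℕ) (hb : b ≤ 2 * m) (hb' : b' ≤ 2 * m) (hbb : b < b') (he : Even (b' - b))
    (hN : 2 * N ≤ n) (hm : 6 * m ≤ n) :
    ((Icc 1 N).filter (fun t => (t + b).Prime ∧ (t + b').Prime)).card ≤ hdeg n ((b' - b) / 2) + 2 := by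
  classical
  obtain ⟨X, hX⟩ := he
  have hX' : (b' - b) / 2 = X := by omega
  rw [hX']
  have h1 : ((Icc 1 N).filter (fun t => (t + b).Prime ∧ (t + b').Prime)).card ≤
      (((Icc 3 N).filter (fun t => (t + b).Prime ∧ (t + b').Prime)) ∪ {1, 2}).card := by
    apply card_le_card
    intro t ht
    rw [mem_filter, mem_Icc] at ht
    rw [mem_union, mem_filter, mem_Icc, mem_insert, mem_singleton]
    by_cases h : t ≤ 2
    · right
      omega
    · left
      exact ⟨⟨by omega, ht.1.2⟩, ht.2⟩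
  refine h1.trans ((card_union_le _ _).trans (Nat.add_le_add ?_ Finset.card_le_two))
  unfold hdeg
  refine card_le_card_of_injOn (fun t => X + (t + b)) ?_ ?_
  · intro t ht
    rw [mem_coe, mem_filter, mem_Icc] at ht
    obtain ⟨⟨ht1, ht2⟩, ht3, ht4⟩ := ht
    have hXm : X + X ≤ 2 * m := by omega
    have hmem : X + (t + b) ∈ Icc 1 n := by
      rw [mem_Icc]
      constructor <;> omega
    show X + (t + b) ∈ ((Icc 1 n).filter _ : Finset ℕ)
    rw [mem_filter]
    refine ⟨hmem, ?_, ?_, ?_, ?_⟩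
    · have : X + (X + (t + b)) = t + b' := by omega
      rw [this]
      exact ht4
    · have : X + (X + (t + b)) = t + b' := by omega
      rw [this]
      exact ht4.odd_of_ne_two (by omega)
    · have : Nat.dist X (X + (t + b)) = t + b := by unfold Nat.dist; omega
      rw [this]
      exact ht3
    · have : Nat.dist X (X + (t + b)) = t + b := by unfold Nat.dist; omega
      rw [this]
      exact ht3.odd_of_ne_two (by omega)
  · intro t _ t' _ h
    simp only at h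
    omega

/-- One of the differences of a tuple is good. -/
theorem tuple (k N : ℕ) (A : Finset ℕ) (hAk : A.card ≤ k) (T : Finset ℕ)
    (hT : ∀ t ∈ T, t ∈ Icc 1 N ∧ 2 ≤ (A.filter (fun b => (t + b).Prime)).card) :
    ∃ b b', (T.card = 0 ∨ (b ∈ A ∧ b' ∈ A ∧ b < b')) ∧
      T.card ≤ k ^ 2 * ((Icc 1 N).filter (fun t => (t + b).Prime ∧ (t + b').Prime)).card := by
  classical
  set PP := (A ×ˢ A).filter (fun q => q.1 < q.2) with hPP
  have h1 : T ⊆ PP.biUnion (fun q => (Icc 1 N).filter (fun t => (t + q.1).Prime ∧ (t + q.2).Prime)) := by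
    intro t ht
    obtain ⟨h2, h3⟩ := hT t ht
    obtain ⟨x, hx, y, hy, hxy⟩ := one_lt_card.1 (show 1 < _ by omega : 1 < (A.filter (fun b => (t + b).Prime)).card)
    rw [mem_filter] at hx hy
    rw [mem_biUnion]
    rcases lt_or_gt_of_ne hxy with h | h
    · exact ⟨(x, y), by rw [hPP, mem_filter, mem_product]; exact ⟨⟨hx.1, hy.1⟩, h⟩,
        by rw [mem_filter]; exact ⟨h2, hx.2, hy.2⟩⟩
    · exact ⟨(y, x), by rw [hPP, mem_filter, mem_product]; exact ⟨⟨hy.1, hx.1⟩, h⟩,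
        by rw [mem_filter]; exact ⟨h2, hy.2, hx.2⟩⟩
  rcases PP.eq_empty_or_nonempty with he | hne
  · rw [he, biUnion_empty, subset_empty] at h1
    exact ⟨0, 0, Or.inl (by rw [h1, card_empty]), by rw [h1]; simp⟩
  · obtain ⟨q, hq, hmax⟩ := exists_max_image PP
      (fun q => ((Icc 1 N).filter (fun t => (t + q.1).Prime ∧ (t + q.2).Prime)).card) hne
    have hq' := hq
    rw [hPP, mem_filter, mem_product] at hq'
    refine ⟨q.1, q.2, Or.inr ⟨hq'.1.1, hq'.1.2, hq'.2⟩, ?_⟩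
    have h2 := (card_le_card h1).trans (card_biUnion_le_card_mul _ _ _ hmax)
    refine h2.trans (Nat.mul_le_mul_right _ ?_)
    calc PP.card ≤ (A ×ˢ A).card := card_filter_le _ _
      _ = A.card * A.card := card_product _ _
      _ ≤ k * k := Nat.mul_le_mul hAk hAk
      _ = k ^ 2 := by ring

/-- **The jump.** -/
theorem jump : ∃ c : ℝ, 0 < c ∧ ∃ B m0 n0 : ℕ, ∀ n : ℕ, n0 ≤ n → ∀ m : ℕ, m0 ≤ m → 1000 * m ≤ n →
    c * m ≤ (((Icc 1 m).filter (fun X => (n : ℝ) / (Real.log n) ^ B ≤ hdeg n X)).card : ℝ) := by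
  classical
  obtain ⟨c1, hc1, k0, hmain⟩ := Pool.Agent.Lib.H57T.main
  set k : ℕ := max (max k0 2) ⌈Real.exp (2 / c1)⌉₊ with hk
  have hk0 : k0 ≤ k := (le_max_left _ _).trans (le_max_left _ _)
  have hk2 : 2 ≤ k := (le_max_right _ _).trans (le_max_left _ _)
  have hke : Real.exp (2 / c1) ≤ k := (Nat.le_ceil _).trans (by exact_mod_cast le_max_right _ _)
  have hlk : 2 ≤ c1 * Real.log k := by
    have h1 : 2 / c1 ≤ Real.log k := by
      rw [Real.le_log_iff_exp_le (by exact_mod_cast (by omega : 0 < k))]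
      exact hke
    rw [div_le_iff₀ hc1] at h1
    linarith
  obtain ⟨B1, x0, hB1⟩ := hmain k hk0
  set W := k.factorial with hW
  have hWpos : 0 < W := Nat.factorial_pos k
  have hkR : (2 : ℝ) ≤ k := by exact_mod_cast hk2
  have hWR : (1 : ℝ) ≤ W := by exact_mod_cast hWpos
  -- large n
  have hev : ∀ᶠ y : ℝ in Filter.atTop, max x0 3 ≤ y / 2 ∧ 4 * (k : ℝ) ^ 2 ≤ Real.log y ∧
      8 * (Real.log y) ^ (B1 + 1) ≤ y := by
    have h3 : Filter.Tendsto (fun y : ℝ => 8 * (Real.log y) ^ (B1 + 1) / y) Filter.atTop (nhds 0) := by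
      have h4 : Filter.Tendsto (fun y : ℝ => (Real.log y) ^ (B1 + 1) / y) Filter.atTop (nhds 0) := by
        have h5 := (Real.isLittleO_pow_log_id_atTop (n := B1 + 1)).tendsto_div_nhds_zero
        simpa using h5
      have h6 := h4.const_mul 8
      rw [mul_zero] at h6
      refine h6.congr fun y => ?_
      ring
    have h4 : ∀ᶠ y : ℝ in Filter.atTop, 8 * (Real.log y) ^ (B1 + 1) / y < 1 := h3.eventually (gt_mem_nhds one_pos)
    filter_upwards [Filter.eventually_ge_atTop (2 * max x0 3), Real.tendsto_log_atTop.eventually_ge_atTop (4 * (k : ℝ) ^ 2),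
      h4, Filter.eventually_gt_atTop 0] with y h5 h6 h7 h8
    rw [div_lt_one h8] at h7
    exact ⟨by linarith, h6, h7.le⟩
  obtain ⟨n0, hn0⟩ := Filter.eventually_atTop.1 (tendsto_natCast_atTop_atTop.eventually hev)
  refine ⟨1 / (8 * k * W), by positivity, B1 + 1, 4 * k * W, n0, fun n hn m hm hmn => ?_⟩
  obtain ⟨hx, hlog, hpow⟩ := hn0 n hn
  set J := m / W with hJ
  set D := (Icc 1 J).filter (fun d => (n : ℝ) / (Real.log n) ^ (B1 + 1) ≤ hdeg n (W * d)) with hD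
  have hJW : J * W ≤ m := Nat.div_mul_le_self m W
  -- the main step: there is no tuple without good differences
  have hkey : J + 1 < k * (2 * D.card + 1) := by
    by_contra hcon
    push Not at hcon
    obtain ⟨S, hS1, hS2, hS3⟩ := greedy D J k hcon
    set A := S.image (fun j => 2 * W * j) with hA
    have hinj : Function.Injective (fun j : ℕ => 2 * W * j) := fun a b h => by
      have h' : 2 * W * a = 2 * W * b := h
      exact Nat.eq_of_mul_eq_mul_left (by positivity) h'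
    have hAc : A.card = k := by rw [hA, card_image_of_injective _ hinj, hS2]
    have hAm : ∀ b ∈ A, b ≤ 2 * m := by
      intro b hb
      rw [hA, mem_image] at hb
      obtain ⟨j, hj, rfl⟩ := hb
      have h1 := mem_range.1 (hS1 hj)
      have h2 : W * j ≤ m := by
        calc W * j ≤ W * J := Nat.mul_le_mul_left _ (by omega)
          _ = J * W := by ring
          _ ≤ m := hJW
      calc 2 * W * j = 2 * (W * j) := by ring
        _ ≤ 2 * m := by omega
    have hne : A.Nonempty := by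
      rw [← card_pos, hAc]; omega
    obtain ⟨a, ha⟩ := hne
    have hxn : x0 ≤ (n : ℝ) / 2 := (le_max_left _ _).trans hx
    have hx3 : (3 : ℝ) ≤ (n : ℝ) / 2 := (le_max_right _ _).trans hx
    have hmnR : (1000 : ℝ) * m ≤ n := by exact_mod_cast hmn
    have hres := hB1 ((n : ℝ) / 2) hxn A hAc.ge (fun p hp => adm k A hAc (fun b hb => by
      rw [hA, mem_image] at hb
      obtain ⟨j, hj, rfl⟩ := hb
      exact dvd_mul_right _ _) p hp) (fun b hb => by
      have h1 : (b : ℝ) ≤ 2 * m := by exact_mod_cast hAm b hb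
      linarith) a ha
    set N := ⌊(n : ℝ) / 2⌋₊ with hN
    have h2N : 2 * N ≤ n := by
      have h1 : (N : ℝ) ≤ (n : ℝ) / 2 := Nat.floor_le (by positivity)
      have h2 : ((2 * N : ℕ) : ℝ) ≤ n := by push_cast; linarith
      exact_mod_cast h2
    set T := (Icc 1 N).filter (fun t =>
        ((∀ q : ℕ, q.Prime → q ∣ t + a → ((n : ℝ) / 2) ^ (1 / 11 : ℝ) ≤ q) ∧
          ((t + a).Prime ∨ ∃ r s : ℕ, r.Prime ∧ s.Prime ∧ t + a = r * s)) ∧
        c1 * Real.log k ≤ (((A.erase a).filter (fun b => (t + b).Prime)).card : ℝ)) with hT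
    have hT2 : ∀ t ∈ T, t ∈ Icc 1 N ∧ 2 ≤ (A.filter (fun b => (t + b).Prime)).card := by
      intro t ht
      rw [hT, mem_filter] at ht
      refine ⟨ht.1, ?_⟩
      have h1 : (2 : ℝ) ≤ (((A.erase a).filter (fun b => (t + b).Prime)).card : ℝ) := hlk.trans ht.2.2
      have h2 : 2 ≤ ((A.erase a).filter (fun b => (t + b).Prime)).card := by exact_mod_cast h1
      exact h2.trans (card_le_card (filter_subset_filter _ (erase_subset _ _)))
    obtain ⟨b, b', hbb, hcard⟩ := tuple k N A hAc.le T hT2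
    -- sizes
    have hlogn : 0 < Real.log n := by
      have : (0 : ℝ) < 4 * (k : ℝ) ^ 2 := by positivity
      linarith
    have hln2 : Real.log ((n : ℝ) / 2) ≤ Real.log n := Real.log_le_log (by linarith) (by linarith)
    have hln0 : 0 < Real.log ((n : ℝ) / 2) := Real.log_pos (by linarith)
    have hTcard : (n : ℝ) / 2 / (Real.log n) ^ B1 ≤ T.card := by
      refine le_trans ?_ hres
      apply div_le_div_of_nonneg_left (by linarith) (by positivity)
      exact pow_le_pow_left₀ hln0.le hln2 _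
    have hTpos : T.card ≠ 0 := by
      intro h0
      rw [h0] at hTcard
      have : 0 < (n : ℝ) / 2 / (Real.log n) ^ B1 := by
        have : (0 : ℝ) < (n : ℝ) / 2 := by linarith
        positivity
      simp at hTcard
      linarith
    obtain ⟨hbA, hbA', hlt⟩ := hbb.resolve_left hTpos
    rw [hA, mem_image] at hbA hbA'
    obtain ⟨i, hi, hib⟩ := hbA
    obtain ⟨j, hj, hjb⟩ := hbA'
    have hij : i < j := by
      rw [← hib, ← hjb] at hlt
      exact lt_of_mul_lt_mul_left hlt (Nat.zero_le _)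
    have hdiff : b' - b = 2 * (W * (j - i)) := by
      rw [← hib, ← hjb, ← Nat.mul_sub]
      ring
    have hX : (b' - b) / 2 = W * (j - i) := by rw [hdiff]; exact Nat.mul_div_cancel_left _ two_pos
    have hbm : b ≤ 2 * m := hAm b (by rw [hA, mem_image]; exact ⟨i, hi, hib⟩)
    have hbm' : b' ≤ 2 * m := hAm b' (by rw [hA, mem_image]; exact ⟨j, hj, hjb⟩)
    have hpd := pair_deg n m b b' N hbm hbm' hlt (by rw [hdiff]; exact even_two_mul _) h2N (by omega)
    rw [hX] at hpd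
    have hfin : (T.card : ℝ) ≤ (k : ℝ) ^ 2 * (hdeg n (W * (j - i)) + 2) := by
      have h1 : T.card ≤ k ^ 2 * (hdeg n (W * (j - i)) + 2) := hcard.trans (Nat.mul_le_mul_left _ hpd)
      exact_mod_cast h1
    have hgood : (n : ℝ) / (Real.log n) ^ (B1 + 1) ≤ hdeg n (W * (j - i)) := by
      have h1 : (n : ℝ) / 2 / (Real.log n) ^ B1 ≤ (k : ℝ) ^ 2 * (hdeg n (W * (j - i)) + 2) := hTcard.trans hfin
      set L := Real.log n with hL
      set z := (n : ℝ) / L ^ (B1 + 1) with hz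
      have h2 : (n : ℝ) / 2 / L ^ B1 = z * L / 2 := by
        rw [hz, pow_succ]
        field_simp
      have h3 : 8 ≤ z := by
        rw [hz, le_div_iff₀ (by positivity)]
        exact hpow
      rw [h2] at h1
      have h4 : z * (4 * (k : ℝ) ^ 2) ≤ z * L := mul_le_mul_of_nonneg_left hlog (by linarith)
      have h5 : (k : ℝ) ^ 2 * (2 * z) ≤ (k : ℝ) ^ 2 * (hdeg n (W * (j - i)) + 2) := by nlinarith
      have h6 : 2 * z ≤ hdeg n (W * (j - i)) + 2 := le_of_mul_le_mul_left h5 (by positivity)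
      linarith
    apply hS3 i hi j hj hij
    rw [hD, mem_filter, mem_Icc]
    have hjJ := mem_range.1 (hS1 hj)
    exact ⟨⟨by omega, by omega⟩, hgood⟩
  -- counting
  have hDle : D.card ≤ ((Icc 1 m).filter (fun X => (n : ℝ) / (Real.log n) ^ (B1 + 1) ≤ hdeg n X)).card := by
    refine card_le_card_of_injOn (fun d => W * d) ?_ ?_
    · intro d hd
      rw [mem_coe, hD, mem_filter, mem_Icc] at hd
      rw [mem_coe, mem_filter, mem_Icc]
      refine ⟨⟨Nat.mul_pos hWpos hd.1.1, ?_⟩, hd.2⟩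
      calc W * d ≤ W * J := Nat.mul_le_mul_left _ hd.1.2
        _ = J * W := by ring
        _ ≤ m := hJW
    · intro a _ b _ h
      exact Nat.eq_of_mul_eq_mul_left hWpos h
  have hmJ : m < (J + 1) * W := by
    rw [hJ]
    exact Nat.lt_mul_of_div_lt (Nat.lt_succ_self _) hWpos
  have h1 : ((J : ℝ) + 1) ≤ k * (2 * D.card + 1) := by exact_mod_cast hkey.le
  have h2 : (m : ℝ) ≤ (J + 1) * W := by exact_mod_cast hmJ.le
  have h3 : (4 : ℝ) * k * W ≤ m := by exact_mod_cast hm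
  have h4 : (D.card : ℝ) ≤ (((Icc 1 m).filter (fun X => (n : ℝ) / (Real.log n) ^ (B1 + 1) ≤ hdeg n X)).card : ℝ) := by
    exact_mod_cast hDle
  refine le_trans ?_ h4
  have h5 : (m : ℝ) ≤ k * (2 * D.card + 1) * W := h2.trans (mul_le_mul_of_nonneg_right h1 (by linarith))
  rw [one_div, inv_mul_le_iff₀ (by positivity)]
  nlinarith

end Pool.Agent.Lib.H18P
end

-- from Lib.H18Q.MPA
section

/-!
# Project H18Q, chunk MPA: parameters, and the distance of a real zero from 1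
-/

open Finset

namespace Pool.Agent.Lib.H18Q

open Pool.Agent.Lib.H68T Pool.Agent.Lib.H18E Pool.Agent.Lib.H18P Pool.Agent.Lib.GoldbachGraph

/-- A real zero is not too close to `1`: `1 - β ≥ c/(r (1 + log r)²)`.

Proof. `r ≤ 100`: `zero_elementary` (`H68X/XSIE`). `r ≥ 100`: if `β < 1 - 1/log r` clear; else
`1/(100 r) ≤ ‖L(1, ψ)‖` (`L1_lower`, `H68X/XL1`) `≤ C (1 - β) (log r)²` (`L1_upper`, `H68X/XRL`). -/
theorem zero_lower : ∃ c : ℝ, 0 < c ∧ ∀ (r : ℕ) [NeZero r] (ψ : DirichletCharacter ℂ r), ψ ≠ 1 →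
    ψ ^ 2 = 1 → ∀ β : ℝ, β < 1 → ψ.LFunction (β : ℂ) = 0 →
    c / (r * (1 + Real.log r) ^ 2) ≤ 1 - β := by
  obtain ⟨c1, hc1, H1⟩ := Pool.Agent.Lib.H68T.zero_elementary
  obtain ⟨C, hC, H2⟩ := Pool.Agent.Lib.H68T.L1_upper
  refine ⟨min (c1 / 100) (min 1 (1 / (100 * C))), by positivity, ?_⟩
  intro r _ ψ hψ hψ2 β hβ h0
  set c := min (c1 / 100) (min 1 (1 / (100 * C))) with hc
  have hcc1 : c ≤ c1 / 100 := min_le_left _ _
  have hcc2 : c ≤ 1 := (min_le_right _ _).trans (min_le_left _ _)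
  have hcc3 : c ≤ 1 / (100 * C) := (min_le_right _ _).trans (min_le_right _ _)
  have hc0 : 0 < c := by positivity
  have hr1 : (1 : ℝ) ≤ r := by
    have : 0 < r := Nat.pos_of_ne_zero (NeZero.ne r)
    exact_mod_cast this
  have hlog : 0 ≤ Real.log r := Real.log_nonneg hr1
  have hsq : 1 ≤ (1 + Real.log r) ^ 2 := by nlinarith
  by_cases hr : r < 100
  · refine le_trans ?_ (H1 r ψ hψ hψ2 β hβ h0)
    have hr' : (r : ℝ) ≤ 100 := by exact_mod_cast hr.le
    rw [div_le_div_iff₀ (by positivity) (by positivity)]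
    have h1 : c * (r : ℝ) ≤ c1 := by
      have : c * (r : ℝ) ≤ c1 / 100 * 100 := mul_le_mul hcc1 hr' (by positivity) (by positivity)
      linarith
    calc c * (r : ℝ) ^ 2 = (c * r) * r := by ring
      _ ≤ c1 * r := mul_le_mul_of_nonneg_right h1 (by positivity)
      _ = c1 * (r * 1) := by ring
      _ ≤ c1 * (r * (1 + Real.log r) ^ 2) := by
        apply mul_le_mul_of_nonneg_left _ hc1.le
        exact mul_le_mul_of_nonneg_left hsq (by positivity)
  · have hr100 : 100 ≤ r := not_lt.mp hr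
    have hrR : (100 : ℝ) ≤ r := by exact_mod_cast hr100
    have hlogp : 0 < Real.log r := Real.log_pos (by linarith)
    by_cases hb : β < 1 - 1 / Real.log r
    · refine le_trans ?_ (show 1 / Real.log r ≤ 1 - β by linarith)
      rw [div_le_div_iff₀ (by positivity) hlogp]
      have h1 : Real.log r ≤ (1 + Real.log r) ^ 2 := by nlinarith
      have h2 : (1 + Real.log r) ^ 2 ≤ r * (1 + Real.log r) ^ 2 := by nlinarith
      nlinarith
    · have h1 := H2 r ψ hr100 hψ β (not_lt.mp hb) hβ.le h0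
      have h2 := Pool.Agent.Lib.H68T.L1_lower r ψ hψ hψ2
      have h3 : 1 / (100 * (r : ℝ)) ≤ C * (1 - β) * (Real.log r) ^ 2 := h2.trans h1
      have hb1 : 0 < 1 - β := by linarith
      rw [div_le_iff₀ (by positivity)] at h3
      rw [div_le_iff₀ (by positivity)]
      have h4 : C * (1 - β) * (Real.log r) ^ 2 * (100 * r) ≤
          (100 * C) * ((1 - β) * (r * (1 + Real.log r) ^ 2)) := by
        have h5 : (Real.log r) ^ 2 ≤ (1 + Real.log r) ^ 2 := by nlinarith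
        calc C * (1 - β) * (Real.log r) ^ 2 * (100 * r) = (100 * C) * ((1 - β) * (r * (Real.log r) ^ 2)) := by ring
          _ ≤ (100 * C) * ((1 - β) * (r * (1 + Real.log r) ^ 2)) := by
            apply mul_le_mul_of_nonneg_left _ (by positivity)
            apply mul_le_mul_of_nonneg_left _ hb1.le
            exact mul_le_mul_of_nonneg_left h5 (by positivity)
      refine hcc3.trans ?_
      rw [div_le_iff₀ (by positivity)]
      linarith

/-- Parameters. For `K ≥ 1`, `δ = 1/(2 K)`, `Q = ⌊n^δ⌋` and `n` large: the regime `RegP K Q n`, also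
for the level `r - 1` if `r^100 > Q`, `r ≤ Q`; and the powers of `Q` and `n`. -/
theorem MP_par (K : ℝ) (hK : 1 ≤ K) : ∃ n0 : ℕ, ∀ n : ℕ, n0 ≤ n →
    RegP K ⌊(n : ℝ) ^ (1 / (2 * K))⌋₊ n ∧ K ≤ ⌊(n : ℝ) ^ (1 / (2 * K))⌋₊ ∧
    (n : ℝ) ^ (1 / (4 * K)) ≤ ⌊(n : ℝ) ^ (1 / (2 * K))⌋₊ ∧
    ∀ r : ℕ, ⌊(n : ℝ) ^ (1 / (2 * K))⌋₊ < r ^ 100 → r ≤ ⌊(n : ℝ) ^ (1 / (2 * K))⌋₊ →
      RegP K (r - 1) n ∧ K ≤ r ∧ (n : ℝ) ^ (1 / (500 * K)) ≤ ((r - 1 : ℕ) : ℝ) := by
  have hK0 : 0 < K := by linarith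
  -- eventual facts
  have e1 : ∀ᶠ n : ℕ in Filter.atTop, max 2 K ≤ (n : ℝ) ^ (1 / (2000 * K)) :=
    (((tendsto_rpow_atTop (show 0 < 1 / (2000 * K) by positivity)).comp
      tendsto_natCast_atTop_atTop)).eventually_ge_atTop _
  have e2 : ∀ᶠ n : ℕ in Filter.atTop, K ≤ Real.log (Real.log n) :=
    ((Real.tendsto_log_atTop.comp Real.tendsto_log_atTop).comp
      tendsto_natCast_atTop_atTop).eventually_ge_atTop _
  have e3 : ∀ᶠ n : ℕ in Filter.atTop, ‖Real.log (Real.log n)‖ ≤ 1 / (500 * K ^ 2) * ‖Real.log n‖ := by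
    have h1 := (Real.isLittleO_log_id_atTop.comp_tendsto Real.tendsto_log_atTop).comp_tendsto
      (tendsto_natCast_atTop_atTop (R := ℝ))
    exact h1.bound (show 0 < 1 / (500 * K ^ 2) by positivity)
  have e4 : ∀ᶠ n : ℕ in Filter.atTop, 3 ≤ n := Filter.eventually_ge_atTop 3
  obtain ⟨n0, hn0⟩ := Filter.eventually_atTop.mp (e1.and (e2.and (e3.and e4)))
  refine ⟨n0, fun n hn => ?_⟩
  obtain ⟨h1, h2, h3, h4⟩ := hn0 n hn
  have hnR : (3 : ℝ) ≤ n := by exact_mod_cast h4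
  have hn0' : (0 : ℝ) ≤ n := by linarith
  have hnp : (0 : ℝ) < n := by linarith
  have hlogn : 0 < Real.log n := Real.log_pos (by linarith)
  set z : ℝ := (n : ℝ) ^ (1 / (2000 * K)) with hz
  have hz2 : 2 ≤ z := (le_max_left _ _).trans h1
  have hzK : K ≤ z := (le_max_right _ _).trans h1
  have hz0 : 0 ≤ z := by linarith
  have hpw : ∀ m : ℕ, z ^ m = (n : ℝ) ^ ((m : ℝ) / (2000 * K)) := by
    intro m
    rw [hz, ← Real.rpow_natCast, ← Real.rpow_mul hn0']
    congr 1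
    ring
  have hll0 : 0 ≤ Real.log (Real.log n) := by linarith
  have h3' : K * Real.log (Real.log n) ≤ Real.log n / (500 * K) := by
    rw [Real.norm_of_nonneg hll0, Real.norm_of_nonneg hlogn.le] at h3
    calc K * Real.log (Real.log n) ≤ K * (1 / (500 * K ^ 2) * Real.log n) :=
          mul_le_mul_of_nonneg_left h3 hK0.le
      _ = Real.log n / (500 * K) := by
        field_simp
  set Q : ℕ := ⌊(n : ℝ) ^ (1 / (2 * K))⌋₊ with hQ
  have hz1000 : (n : ℝ) ^ (1 / (2 * K)) = z ^ 1000 := by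
    rw [hpw]
    congr 1
    field_simp
    norm_num
  have hz500 : (n : ℝ) ^ (1 / (4 * K)) = z ^ 500 := by
    rw [hpw]
    congr 1
    field_simp
    norm_num
  have hz4 : (n : ℝ) ^ (1 / (500 * K)) = z ^ 4 := by
    rw [hpw]
    congr 1
    field_simp
    norm_num
  have hQle : (Q : ℝ) ≤ (n : ℝ) ^ (1 / (2 * K)) := Nat.floor_le (by positivity)
  have hQge : z ^ 500 ≤ Q := by
    have h5 : (n : ℝ) ^ (1 / (2 * K)) < Q + 1 := Nat.lt_floor_add_one _
    have h6 : 2 ≤ z ^ 500 := hz2.trans (le_self_pow₀ (by linarith) (by norm_num))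
    have h7 : z ^ 1000 = z ^ 500 * z ^ 500 := by rw [← pow_add]
    rw [hz1000, h7] at h5
    nlinarith
  have hz500K : z ≤ z ^ 500 := le_self_pow₀ (by linarith) (by norm_num)
  have hQp : (0 : ℝ) < Q := by linarith
  have hlogz : 500 * K * (4 * Real.log z) = Real.log n := by
    have h5 : 4 * Real.log z = Real.log n / (500 * K) := by
      rw [← Real.log_rpow (by linarith), show (4 : ℝ) = ((4 : ℕ) : ℝ) by norm_num, Real.rpow_natCast, ← hz4,
        Real.log_rpow hnp]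
      ring
    rw [h5]
    field_simp
  have hlz : Real.log n / (500 * K) = 4 * Real.log z := by
    rw [← hlogz]
    field_simp
  have hlz4 : 4 * Real.log z = Real.log (z ^ 4) := by
    rw [Real.log_pow]
    norm_num
  have hKQ : K * Real.log Q ≤ Real.log n := by
    have h5 : Real.log Q ≤ Real.log ((n : ℝ) ^ (1 / (2 * K))) := Real.log_le_log hQp hQle
    rw [Real.log_rpow hnp] at h5
    calc K * Real.log Q ≤ K * (1 / (2 * K) * Real.log n) := mul_le_mul_of_nonneg_left h5 hK0.le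
      _ = Real.log n / 2 := by field_simp
      _ ≤ Real.log n := by linarith
  have hmain : ∀ m : ℕ, z ^ 4 ≤ m → (m : ℝ) ≤ Q → RegP K m n := by
    intro m hm1 hm2
    have hz4p : 0 < z ^ 4 := by positivity
    refine ⟨h2, ?_, ?_⟩
    · refine h3'.trans ?_
      rw [hlz, hlz4]
      exact Real.log_le_log hz4p hm1
    · refine le_trans ?_ hKQ
      exact mul_le_mul_of_nonneg_left (Real.log_le_log (lt_of_lt_of_le hz4p hm1) hm2) hK0.le
  have hz45 : z ^ 4 ≤ z ^ 500 := pow_le_pow_right₀ (by linarith) (by norm_num)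
  refine ⟨hmain Q (hz45.trans hQge) le_rfl, hzK.trans (hz500K.trans hQge), ?_, ?_⟩
  · rw [hz500]
    exact hQge
  · intro r hr1 hr2
    have h5 : z ^ 500 < (r : ℝ) ^ 100 := by
      refine lt_of_le_of_lt hQge ?_
      exact_mod_cast hr1
    have h6 : z ^ 5 < r := by
      rw [show (500 : ℕ) = 5 * 100 by norm_num, pow_mul] at h5
      exact lt_of_pow_lt_pow_left₀ 100 (by positivity) h5
    have h7 : 1 ≤ z ^ 5 := one_le_pow₀ (by linarith)
    have hr0 : 1 ≤ r := by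
      have : (1 : ℝ) < r := by linarith
      have := Nat.one_lt_cast.mp this
      omega
    have h8 : z ^ 4 ≤ ((r - 1 : ℕ) : ℝ) := by
      rw [Nat.cast_sub hr0, Nat.cast_one]
      have h9 : 1 ≤ z ^ 4 := one_le_pow₀ (by linarith)
      have h10 : z ^ 5 = z ^ 4 * z := by ring
      nlinarith
    have h11 : ((r - 1 : ℕ) : ℝ) ≤ Q := by
      have : r - 1 ≤ Q := by omega
      exact_mod_cast this
    refine ⟨hmain (r - 1) h8 h11, ?_, ?_⟩
    · have h12 : z ≤ z ^ 5 := le_self_pow₀ (by linarith) (by norm_num)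
      linarith
    · rw [hz4]
      exact h8


end Pool.Agent.Lib.H18Q
end
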