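import Pool.Agent.Lib.H1M.RV.D_H18P_P3
import Pool.Agent.Lib.H1M.RV.D_H18Q_GDefs
import Pool.Agent.Lib.H1M.RV.M109

/-! Merged copies (to shorten the build) of Lib.H18P.P4, Lib.H18P.P5, Lib.H18Q.GA1, Lib.H18Q.GA2, Lib.H18Q.GC1, Lib.H18Q.GB, Lib.H18Q.GC2, Lib.H18Q.GD, Lib.H18Q.GE, Lib.H18Q.Fin. -/

-- from Lib.H18P.P4
section

/-!
# Project H18P (MP_443e5f_co): definitions for the final statement, and Q1 under a Goldbach hypothesis
-/

open Finset Pool.Agent.Lib.H18GB Pool.Agent.Lib.GoldbachGraph Pool.Agent.Lib.H18E Pool.Agent.Goldbach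

namespace Pool.Agent.Lib.H18P

/-- `u` is rich: for some scale `m` with `n0 ≤ m ≤ n` it is a vertex of `G m` with at least
`m exp (-(log m)^b)` neighbours in `G m`, or `u ≥ n0` has at least `u exp (-(log u)^b)` representations as
an (ordered) sum of two primes. -/
def Rich (V : ℕ → Set ℕ) (G : ∀ n, SimpleGraph (V n)) (b : ℝ) (n0 n u : ℕ) : Prop :=
  (∃ m : ℕ, n0 ≤ m ∧ m ≤ n ∧ ∃ h : u ∈ V m,
    (m : ℝ) * Real.exp (-(Real.log m) ^ b) ≤ ((G m).neighborSet ⟨u, h⟩).ncard) ∨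
  (n0 ≤ u ∧ (u : ℝ) * Real.exp (-(Real.log u) ^ b) ≤ reps u)

/-- `K` is a core of `G n`: its elements are pairwise at distance at most `7`, all but `n exp (-(log n)^b)`
vertices are at distance at most `1` from `K`, all vertices of degree at least `n exp (-(log n)^b)` are at
distance at most `2` from `K`, and all rich vertices at distance at most `12`. -/
structure Core (V : ℕ → Set ℕ) (G : ∀ n, SimpleGraph (V n)) (b : ℝ) (n0 n : ℕ) (K : Set (V n)) : Prop where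
  core : ∀ u ∈ K, ∀ v ∈ K, (G n).edist u v ≤ 7
  most : ({u : V n | ¬ ∃ z ∈ K, (G n).edist u z ≤ 1}.ncard : ℝ) ≤ n * Real.exp (-(Real.log n) ^ b)
  large : ∀ u : V n, (n : ℝ) * Real.exp (-(Real.log n) ^ b) ≤ ((G n).neighborSet u).ncard →
    ∃ z ∈ K, (G n).edist u z ≤ 2
  rich : ∀ u : V n, Rich V G b n0 n u → ∃ z ∈ K, (G n).edist u z ≤ 12

/-- Two vertices at distance at most `12` from a core. -/
theorem Core.pair {V : ℕ → Set ℕ} {G : ∀ n, SimpleGraph (V n)} {b : ℝ} {n0 n : ℕ} {K : Set (V n)}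
    (h : Core V G b n0 n K) {u v : V n} (hu : ∃ z ∈ K, (G n).edist u z ≤ 12)
    (hv : ∃ z ∈ K, (G n).edist v z ≤ 12) : (G n).edist u v ≤ 31 := by
  obtain ⟨z, hz, huz⟩ := hu
  obtain ⟨w, hw, hvw⟩ := hv
  rw [SimpleGraph.edist_comm] at hvw
  calc (G n).edist u v ≤ (G n).edist u w + (G n).edist w v := SimpleGraph.edist_triangle
    _ ≤ ((G n).edist u z + (G n).edist z w) + (G n).edist w v :=
        add_le_add_left SimpleGraph.edist_triangle _
    _ ≤ (12 + 7) + 12 := add_le_add (add_le_add huz (h.core z hz w hw)) hvw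
    _ = 31 := by norm_num



/-- Descent: under Goldbach's conjecture every vertex is connected to `2`, `4` or `6`. -/
theorem descent (hG : ∀ u : ℕ, Even u → 8 ≤ u → ∃ p q : ℕ, p.Prime ∧ q.Prime ∧ p ≠ q ∧ p + q = u)
    {V S : Set ℕ} {n : ℕ} (hV : ∀ a ∈ V, Even a ∧ a ≤ 2 * n) (hV2 : ∀ x ∈ Finset.Icc 1 n, 2 * x ∈ V)
    (hS : ∀ m, m.Prime → Odd m → m < 2 * n → m ∈ S) : ∀ u : ℕ, ∀ hu : u ∈ V, 0 < u →
    ∃ w, ∃ hw : w ∈ V, (w = 2 ∨ w = 4 ∨ w = 6) ∧ (halfGraph V S).edist ⟨u, hu⟩ ⟨w, hw⟩ ≤ (u : ℕ∞) := by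
  intro u
  induction u using Nat.strong_induction_on with
  | _ u ih =>
    intro hu hu0
    obtain ⟨he, hun⟩ := hV u hu
    by_cases h8 : 8 ≤ u
    · obtain ⟨p, q, hp, hq, hpq, hsum⟩ := hG u he h8
      wlog hlt : p < q generalizing p q
      · exact this q p hq hp hpq.symm (by omega) (by omega)
      have hp2 : p ≠ 2 := by
        rintro rfl
        have h1 : Even q := by
          obtain ⟨k, hk⟩ := he
          exact ⟨k - 1, by omega⟩
        have := (Nat.Prime.even_iff hq).1 h1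
        omega
      have hq2 : q ≠ 2 := by
        have := hp.two_le
        omega
      have hpo := hp.odd_of_ne_two hp2
      have hqo := hq.odd_of_ne_two hq2
      obtain ⟨k, hk⟩ := hpo
      obtain ⟨l, hl⟩ := hqo
      have hpp := hp.pos
      have hvmem : q - p ∈ V := by
        have : q - p = 2 * (l - k) := by omega
        rw [this]
        exact hV2 _ (mem_Icc.2 ⟨by omega, by omega⟩)
      obtain ⟨w, hw, hw1, hw2⟩ := ih (q - p) (by omega) hvmem (by omega)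
      refine ⟨w, hw, hw1, ?_⟩
      have hadj : (halfGraph V S).Adj ⟨u, hu⟩ ⟨q - p, hvmem⟩ := by
        rw [halfGraph_adj_iff (x := k + l + 1) (y := l - k) (by simp only; omega) (by simp only; omega)]
        refine ⟨by omega, ?_, ?_⟩
        · have : k + l + 1 + (l - k) = q := by omega
          rw [this]
          exact hS q hq ⟨l, hl⟩ (by omega)
        · have : (((k + l + 1 : ℕ) : ℤ) - ((l - k : ℕ) : ℤ)).natAbs = p := by omega
          rw [this]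
          exact hS p hp ⟨k, hk⟩ (by omega)
      have h1 : (halfGraph V S).edist ⟨u, hu⟩ ⟨q - p, hvmem⟩ ≤ 1 := by
        refine (SimpleGraph.edist_le (.cons hadj .nil)).trans ?_
        norm_num
      calc (halfGraph V S).edist ⟨u, hu⟩ ⟨w, hw⟩ ≤ (halfGraph V S).edist ⟨u, hu⟩ ⟨q - p, hvmem⟩ +
            (halfGraph V S).edist ⟨q - p, hvmem⟩ ⟨w, hw⟩ := SimpleGraph.edist_triangle
        _ ≤ 1 + ((q - p : ℕ) : ℕ∞) := add_le_add h1 hw2
        _ ≤ (u : ℕ∞) := by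
            have h2 : 1 + (q - p) ≤ u := by omega
            exact_mod_cast h2
    · refine ⟨u, hu, ?_, by rw [SimpleGraph.edist_self]; exact zero_le⟩
      obtain ⟨k, hk⟩ := he
      omega

end Pool.Agent.Lib.H18P
end

-- from Lib.H18P.P5
section

/-!
# Project H18P (MP_443e5f_co): Q1 under a quantitative form of Goldbach's conjecture
-/

open Finset Pool.Agent.Lib.H18GB Pool.Agent.Lib.GoldbachGraph Pool.Agent.Lib.H18E Pool.Agent.Goldbach

namespace Pool.Agent.Lib.H18P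


theorem edist_three {V : Type*} (G : SimpleGraph V) (a b c d : V) (i j k : ℕ∞) (h1 : G.edist a b ≤ i)
    (h2 : G.edist b c ≤ j) (h3 : G.edist c d ≤ k) : G.edist a d ≤ i + j + k :=
  calc G.edist a d ≤ G.edist a c + G.edist c d := SimpleGraph.edist_triangle
    _ ≤ (G.edist a b + G.edist b c) + G.edist c d := add_le_add_left SimpleGraph.edist_triangle _
    _ ≤ i + j + k := add_le_add (add_le_add h1 h2) h3

theorem q1_aux (hG : ∀ u : ℕ, Even u → 8 ≤ u → ∃ p q : ℕ, p.Prime ∧ q.Prime ∧ p ≠ q ∧ p + q = u)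
    {V S : Set ℕ} {n : ℕ} (hV : ∀ a ∈ V, Even a ∧ a ≤ 2 * n) (hV2 : ∀ x ∈ Finset.Icc 1 n, 2 * x ∈ V)
    (hS : ∀ m, m.Prime → Odd m → m < 2 * n → m ∈ S) (U : ℕ) (s : ℕ) (hs : s ∈ V) (hs0 : 0 < s)
    (hsU : s ≤ 2 * U)
    (h246 : ∀ w w' : ℕ, ∀ hw : w ∈ V, ∀ hw' : w' ∈ V, (w = 2 ∨ w = 4 ∨ w = 6) → (w' = 2 ∨ w' = 4 ∨ w' = 6) →
      (halfGraph V S).edist ⟨w, hw⟩ ⟨w', hw'⟩ ≤ 6)
    (h0 : ∀ hu : 0 ∈ V, ∃ w, ∃ hw : w ∈ V, (w = 2 ∨ w = 4 ∨ w = 6) ∧
      (halfGraph V S).edist ⟨0, hu⟩ ⟨w, hw⟩ ≤ 1)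
    (hbig : ∀ u : ℕ, ∀ hu : u ∈ V, U ≤ u → (halfGraph V S).edist ⟨u, hu⟩ ⟨s, hs⟩ ≤ 31) :
    ∀ u v : V, (halfGraph V S).edist u v ≤ ((2 * (3 * U + 40) : ℕ) : ℕ∞) := by
  obtain ⟨w', hw', hw1', hw2'⟩ := descent hG hV hV2 hS s hs hs0
  have key : ∀ u : V, (halfGraph V S).edist u ⟨s, hs⟩ ≤ ((3 * U + 40 : ℕ) : ℕ∞) := by
    rintro ⟨u, hu⟩
    rcases Nat.eq_zero_or_pos u with h | h
    · subst h
      obtain ⟨w, hw, hw1, hw2⟩ := h0 hu
      have h1 := h246 w w' hw hw' hw1 hw1'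
      rw [SimpleGraph.edist_comm] at hw2'
      refine (edist_three _ _ _ _ _ _ _ _ hw2 h1 hw2').trans ?_
      have : 1 + 6 + s ≤ 3 * U + 40 := by omega
      exact_mod_cast this
    · by_cases hU : U ≤ u
      · refine (hbig u hu hU).trans ?_
        have : 31 ≤ 3 * U + 40 := by omega
        exact_mod_cast this
      · obtain ⟨w, hw, hw1, hw2⟩ := descent hG hV hV2 hS u hu h
        have h1 := h246 w w' hw hw' hw1 hw1'
        rw [SimpleGraph.edist_comm] at hw2'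
        refine (edist_three _ _ _ _ _ _ _ _ hw2 h1 hw2').trans ?_
        have : u + 6 + s ≤ 3 * U + 40 := by omega
        exact_mod_cast this
  intro u v
  have h1 := key u
  have h2 := key v
  rw [SimpleGraph.edist_comm] at h2
  calc (halfGraph V S).edist u v ≤ (halfGraph V S).edist u ⟨s, hs⟩ + (halfGraph V S).edist ⟨s, hs⟩ v :=
        SimpleGraph.edist_triangle
    _ ≤ ((3 * U + 40 : ℕ) : ℕ∞) + ((3 * U + 40 : ℕ) : ℕ∞) := add_le_add h1 h2
    _ = ((2 * (3 * U + 40) : ℕ) : ℕ∞) := by push_cast; ring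

/-- an edge between small vertices -/
theorem edge {V S : Set ℕ} (x y p q : ℕ) (hx : 2 * x ∈ V) (hy : 2 * y ∈ V) (hxy : y < x) (hp : x + y = p)
    (hq : x - y = q) (hpS : p ∈ S) (hqS : q ∈ S) :
    (halfGraph V S).edist ⟨2 * x, hx⟩ ⟨2 * y, hy⟩ ≤ 1 := by
  have hadj : (halfGraph V S).Adj ⟨2 * x, hx⟩ ⟨2 * y, hy⟩ := by
    rw [halfGraph_adj_iff (x := x) (y := y) rfl rfl]
    have : ((x : ℤ) - y).natAbs = q := by omega
    rw [this, hp]
    exact ⟨by omega, hpS, hqS⟩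
  refine (SimpleGraph.edist_le (.cons hadj .nil)).trans ?_
  norm_num

/-- distances between `2`, `4`, `6` in the near Goldbach graphs -/
theorem small_near {V S : Set ℕ} (h1 : 1 ∈ S) (h3 : 3 ∈ S) (h5 : 5 ∈ S) (a2 : 2 ∈ V) (a4 : 4 ∈ V)
    (a6 : 6 ∈ V) : ∀ w w' : ℕ, ∀ hw : w ∈ V, ∀ hw' : w' ∈ V, (w = 2 ∨ w = 4 ∨ w = 6) →
      (w' = 2 ∨ w' = 4 ∨ w' = 6) → (halfGraph V S).edist ⟨w, hw⟩ ⟨w', hw'⟩ ≤ 6 := by
  have e42 : (halfGraph V S).edist ⟨4, a4⟩ ⟨2, a2⟩ ≤ 1 := edge 2 1 3 1 a4 a2 (by norm_num) rfl rfl h3 h1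
  have e64 : (halfGraph V S).edist ⟨6, a6⟩ ⟨4, a4⟩ ≤ 1 := edge 3 2 5 1 a6 a4 (by norm_num) rfl rfl h5 h1
  have key : ∀ w : ℕ, ∀ hw : w ∈ V, (w = 2 ∨ w = 4 ∨ w = 6) → (halfGraph V S).edist ⟨w, hw⟩ ⟨4, a4⟩ ≤ 3 := by
    rintro w hw (h | h | h)
    · subst h
      rw [SimpleGraph.edist_comm]
      exact e42.trans (by norm_num)
    · subst h
      rw [SimpleGraph.edist_self]
      exact zero_le
    · subst h
      exact e64.trans (by norm_num)
  intro w w' hw hw' h h'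
  have k1 := key w hw h
  have k2 := key w' hw' h'
  rw [SimpleGraph.edist_comm] at k2
  calc (halfGraph V S).edist ⟨w, hw⟩ ⟨w', hw'⟩ ≤ (halfGraph V S).edist ⟨w, hw⟩ ⟨4, a4⟩ +
        (halfGraph V S).edist ⟨4, a4⟩ ⟨w', hw'⟩ := SimpleGraph.edist_triangle
    _ ≤ 3 + 3 := add_le_add k1 k2
    _ = 6 := by norm_num

/-- distances between `2`, `4`, `6` in the Goldbach graphs -/
theorem small_gold {V S : Set ℕ} (h3 : 3 ∈ S) (h5 : 5 ∈ S) (h7 : 7 ∈ S) (h11 : 11 ∈ S) (a0 : 0 ∈ V)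
    (a2 : 2 ∈ V) (a4 : 4 ∈ V) (a6 : 6 ∈ V) (a8 : 8 ∈ V) (a10 : 10 ∈ V) (a14 : 14 ∈ V) :
    (halfGraph V S).edist ⟨0, a0⟩ ⟨6, a6⟩ ≤ 1 ∧
    ∀ w w' : ℕ, ∀ hw : w ∈ V, ∀ hw' : w' ∈ V, (w = 2 ∨ w = 4 ∨ w = 6) →
      (w' = 2 ∨ w' = 4 ∨ w' = 6) → (halfGraph V S).edist ⟨w, hw⟩ ⟨w', hw'⟩ ≤ 6 := by
  have e82 : (halfGraph V S).edist ⟨8, a8⟩ ⟨2, a2⟩ ≤ 1 := edge 4 1 5 3 a8 a2 (by norm_num) rfl rfl h5 h3
  have e148 : (halfGraph V S).edist ⟨14, a14⟩ ⟨8, a8⟩ ≤ 1 := edge 7 4 11 3 a14 a8 (by norm_num) rfl rfl h11 h3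
  have e140 : (halfGraph V S).edist ⟨14, a14⟩ ⟨0, a0⟩ ≤ 1 := edge 7 0 7 7 a14 a0 (by norm_num) rfl rfl h7 h7
  have e104 : (halfGraph V S).edist ⟨10, a10⟩ ⟨4, a4⟩ ≤ 1 := edge 5 2 7 3 a10 a4 (by norm_num) rfl rfl h7 h3
  have e100 : (halfGraph V S).edist ⟨10, a10⟩ ⟨0, a0⟩ ≤ 1 := edge 5 0 5 5 a10 a0 (by norm_num) rfl rfl h5 h5
  have e60 : (halfGraph V S).edist ⟨6, a6⟩ ⟨0, a0⟩ ≤ 1 := edge 3 0 3 3 a6 a0 (by norm_num) rfl rfl h3 h3
  refine ⟨by rw [SimpleGraph.edist_comm]; exact e60, ?_⟩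
  have key : ∀ w : ℕ, ∀ hw : w ∈ V, (w = 2 ∨ w = 4 ∨ w = 6) → (halfGraph V S).edist ⟨w, hw⟩ ⟨0, a0⟩ ≤ 3 := by
    rintro w hw (h | h | h)
    · subst h
      rw [SimpleGraph.edist_comm] at e82 e148
      have := edist_three _ _ _ _ _ _ _ _ e82 e148 e140
      refine this.trans ?_
      norm_num
    · subst h
      rw [SimpleGraph.edist_comm] at e104
      have h1 : (halfGraph V S).edist ⟨4, a4⟩ ⟨0, a0⟩ ≤ 1 + 1 :=
        SimpleGraph.edist_triangle.trans (add_le_add e104 e100)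
      refine h1.trans ?_
      norm_num
    · subst h
      exact e60.trans (by norm_num)
  intro w w' hw hw' h h'
  have k1 := key w hw h
  have k2 := key w' hw' h'
  rw [SimpleGraph.edist_comm] at k2
  calc (halfGraph V S).edist ⟨w, hw⟩ ⟨w', hw'⟩ ≤ (halfGraph V S).edist ⟨w, hw⟩ ⟨0, a0⟩ +
        (halfGraph V S).edist ⟨0, a0⟩ ⟨w', hw'⟩ := SimpleGraph.edist_triangle
    _ ≤ 3 + 3 := add_le_add k1 k2
    _ = 6 := by norm_num


end Pool.Agent.Lib.H18P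
end

-- from Lib.H18Q.GA1
section

/-!
# Project H18Q, chunk GA1: good vertices, power savings

Ports of `H18E/TG.lean` (`tg_main`) and `H18E/FN.lean` (`fn_prime`).
-/

open Finset Pool.Agent.Lib.H68T Pool.Agent.Lib.H18GB Pool.Agent.Lib.GoldbachGraph Pool.Agent.Lib.H18E
  Pool.Agent.Lib.H18P

namespace Pool.Agent.Lib.H18Q

theorem ga1_le (n x : ℕ) : ohdeg n x ≤ hdeg n x := by
  classical
  unfold ohdeg hdeg
  apply card_le_card
  intro Y hY
  rw [mem_filter] at hY ⊢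
  exact ⟨hY.1, hY.2.1⟩

/-- **The core.** PORT of `H18E.tg_main` (`H18E/TG.lean`), with `MainPow δ0 c0`
(for `a` and `(a + δ0)/2`) instead of `main_deg`; `ohdeg n x ≤ hdeg n x` is `card_le_card` (`ohdeg` is defined
in `H18P/OD.lean`; the filter has one more condition). `tg_two`, `TG_step`, `gr6s` can be used as they are. -/
theorem tg_pow (δ0 c0 : ℝ) (hM : MainPow δ0 c0) (hc0 : 0 < c0) (a : ℝ) (ha : 0 < a) (ha2 : a < δ0) :
    ∃ n0 : ℕ, ∀ n : ℕ, n0 ≤ n →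
    ∃ B g : Finset ℕ, B ⊆ Icc 1 n ∧ (B.card : ℝ) ≤ (n : ℝ) ^ (1 - a) / 2 ∧
      g ⊆ Icc 1 n ∧ (∀ x ∈ g, ∀ y ∈ g, (HG n).edist x y ≤ 7) ∧
      (∀ x ∈ Icc 1 n, x ∉ B → B.card < hdeg n x) ∧
      (∀ x ∈ Icc 1 n, B.card < hdeg n x → ∃ z ∈ g, (HG n).edist x z ≤ 2) ∧
      ∃ r1 : ℕ, (r1 = 0 ∨ 7 ≤ r1) ∧ ∀ x ∈ Icc 1 n, x ∉ B → ¬ r1 ∣ x → x ∈ g := by
  classical
  obtain ⟨n0, hn0⟩ := hM a ((a + δ0) / 2) ha (by linarith) (by linarith)
  obtain ⟨n1, hn1⟩ := gr6s c0 hc0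
  refine ⟨max n0 n1, fun n hn => ?_⟩
  obtain ⟨B, hB1, hB2, r1, hr1, hBo⟩ := hn0 n ((le_max_left _ _).trans hn)
  have hBx : ∀ x ∈ Icc 1 n, x ∉ B → B.card < hdeg n x ∧
      (¬ r1 ∣ x → c0 * SE x * n / (Real.log n) ^ 2 ≤ hdeg n x) := by
    intro x hx hxB
    obtain ⟨h1, -, h3⟩ := hBo x hx hxB
    have h4 := ga1_le n x
    have h5 : (ohdeg n x : ℝ) ≤ hdeg n x := by exact_mod_cast h4
    exact ⟨h1.trans_le h4, fun h => (h3 h).trans h5⟩
  have hgr := hn1 n ((le_max_right _ _).trans hn)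
  set g := (Icc 1 n).filter (fun x => c0 * SE x * n / (Real.log n) ^ 2 ≤ hdeg n x) with hg
  have hBg : ∀ x ∈ Icc 1 n, x ∉ B → ¬ r1 ∣ x → x ∈ g := by
    intro x hx hxB hrx
    rw [hg, mem_filter]
    exact ⟨hx, (hBx x hx hxB).2 hrx⟩
  refine ⟨B, g, hB1, hB2, filter_subset _ _, ?_, fun x hx hxB => (hBx x hx hxB).1, ?_, r1, hr1, hBg⟩
  · intro x hx y hy
    rw [hg, mem_filter] at hx hy
    exact hgr x hx.1 y hy.1 hx.2 hy.2
  · intro x hx hd
    obtain ⟨Z, hZ, hZB, hrZ, he⟩ := tg_two n B r1 hr1 (fun x hx hxB => (hBx x hx hxB).1) x hx hd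
    exact ⟨Z, hBg Z hZ hZB hrZ, he⟩

/-- For large `n`, for every set `B` of at most `n ^ (1 - a)` numbers and every
`r1 ≠ 1` there is an odd prime `q ≤ n`, `q ∉ B`, not divisible by `r1`. Follows from `H18E.fn_prime` with
the exponent `1/4` instead of `a`, since `n ^ (1 - a) ≤ n exp (-(log n)^(1/4))` for large `n`. -/
theorem fn_prime_pow (a : ℝ) (ha : 0 < a) : ∃ n0 : ℕ, ∀ n : ℕ, n0 ≤ n → ∀ B : Finset ℕ,
    (B.card : ℝ) ≤ (n : ℝ) ^ (1 - a) → ∀ r1 : ℕ, r1 ≠ 1 →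
    ∃ q ∈ Icc 1 n, q.Prime ∧ Odd q ∧ q ∉ B ∧ ¬ r1 ∣ q := by
  obtain ⟨n0, hn0⟩ := fn_prime (1 / 4) (by norm_num)
  have hev : ∀ᶠ y : ℝ in Filter.atTop, (1 / a) * y ^ (1 / 4 : ℝ) + 0 ≤ y ^ (1 : ℝ) :=
    PA_pow 1 (1 / 4) (1 / a) 0 (by norm_num) (by norm_num)
  obtain ⟨n1, hn1⟩ := Filter.eventually_atTop.1
    ((Real.tendsto_log_atTop.comp tendsto_natCast_atTop_atTop).eventually hev)
  refine ⟨max (max n0 n1) 1, fun n hn B hB r1 hr1 => hn0 n (by omega) B (hB.trans ?_) r1 hr1⟩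
  have h1 := hn1 n (by omega)
  simp only [Function.comp, add_zero, Real.rpow_one] at h1
  have hn : (0 : ℝ) < n := by exact_mod_cast (by omega : 0 < n)
  have h2 : (Real.log n) ^ (1 / 4 : ℝ) ≤ a * Real.log n := by
    rw [one_div, inv_mul_eq_div, div_le_iff₀ ha] at h1
    linarith
  have h3 : (n : ℝ) ^ (1 - a) = n * Real.exp (-(a * Real.log n)) := by
    rw [Real.rpow_sub hn, Real.rpow_one, Real.rpow_def_of_pos hn, Real.exp_neg, div_eq_mul_inv,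
      mul_comm (Real.log n) a]
  rw [h3]
  exact mul_le_mul_of_nonneg_left (Real.exp_le_exp.2 (by linarith)) hn.le

end Pool.Agent.Lib.H18Q
end

-- from Lib.H18Q.GA2
section

/-!
# Project H18Q, chunk GA2: good vertices of all scales, power savings

Port of `H18P/P2.lean` (`levels`).
-/

open Finset Pool.Agent.Lib.H68T Pool.Agent.Lib.H18GB Pool.Agent.Lib.GoldbachGraph Pool.Agent.Lib.H18E
  Pool.Agent.Lib.H18P

namespace Pool.Agent.Lib.H18Q

theorem ga2_split (n : ℕ) (hn : (0 : ℝ) < n) (a : ℝ) : (n : ℝ) ^ (1 - a) = n * (n : ℝ) ^ (-a) := by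
  rw [sub_eq_add_neg, Real.rpow_add hn, Real.rpow_one]

theorem ga2_thr (a c : ℝ) (ha : 0 < a) (hc : 0 < c) (B0 : ℕ) : ∃ n0 : ℕ, ∀ n : ℕ, n0 ≤ n →
    (n : ℝ) ^ (-a) < c ∧ (Real.log n) ^ B0 * (n : ℝ) ^ (-a) < 1 ∧ 1 ≤ Real.log n := by
  have h1 : ∀ᶠ y : ℝ in Filter.atTop, y ^ (-a) < c :=
    (tendsto_rpow_neg_atTop ha).eventually (gt_mem_nhds hc)
  have h2 : ∀ᶠ y : ℝ in Filter.atTop, (Real.log y) ^ B0 * y ^ (-a) < 1 := by
    have h3 := (isLittleO_log_rpow_rpow_atTop (B0 : ℝ) ha).def (show (0 : ℝ) < 1 / 2 by norm_num)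
    filter_upwards [h3, Filter.eventually_ge_atTop (Real.exp 1)] with y h3 h4
    have hy0 : 0 < y := (Real.exp_pos 1).trans_le h4
    have hL : 1 ≤ Real.log y := by
      rw [Real.le_log_iff_exp_le hy0]
      exact h4
    rw [Real.rpow_natCast, Real.norm_of_nonneg (by positivity), Real.norm_of_nonneg (by positivity)] at h3
    rw [Real.rpow_neg hy0.le, ← div_eq_mul_inv, div_lt_one (by positivity)]
    have : 0 < y ^ a := by positivity
    linarith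
  have h3 : ∀ᶠ y : ℝ in Filter.atTop, 1 ≤ Real.log y :=
    Real.tendsto_log_atTop.eventually_ge_atTop 1
  obtain ⟨n0, hn0⟩ := Filter.eventually_atTop.1
    (tendsto_natCast_atTop_atTop.eventually (h1.and (h2.and h3)))
  exact ⟨n0, fun n hn => hn0 n hn⟩

/-- **Good vertices of all scales.** PORT of `H18P.levels` (`H18P/P2.lean`): `tg_pow`, `fn_prime_pow`
instead of `tg_main`, `fn_prime`; the facts which are needed about the threshold are `n ^ (1 - a) < c n`,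
`n ^ (1 - a) < n / 2000` and `n ^ (1 - a) < n / (log n) ^ B0` for large `n`
(`isLittleO_log_rpow_atTop` or `H18E.PA_log`). `jump` is in `H18P/P1.lean`, `fn_one` in `H18E/FN2.lean`. -/
theorem levels_pow (δ0 c0 : ℝ) (hM : MainPow δ0 c0) (hc0 : 0 < c0) (hδ : δ0 < 1 / 2) (a : ℝ) (ha : 0 < a)
    (ha2 : a < δ0) : ∃ n0 : ℕ, ∃ g : ℕ → Finset ℕ,
    (∀ n, n0 ≤ n → g n ⊆ Icc 1 n ∧ (∀ x ∈ g n, ∀ y ∈ g n, (HG n).edist x y ≤ 7) ∧
      (∃ q ∈ g n, q.Prime ∧ Odd q) ∧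
      (∃ B : Finset ℕ, (B.card : ℝ) ≤ (n : ℝ) ^ (1 - a) / 2 ∧
        ∀ x ∈ Icc 1 n, x ∉ B → ∃ z ∈ g n, (HG n).edist x z ≤ 1) ∧
      ∀ x ∈ Icc 1 n, (n : ℝ) ^ (1 - a) / 2 < hdeg n x → ∃ z ∈ g n, (HG n).edist x z ≤ 2) ∧
    ∀ n m, n0 ≤ m → m ≤ n → ∀ x ∈ g m, ∃ z ∈ g n, (HG n).edist x z ≤ 10 := by
  classical
  obtain ⟨n1, hn1⟩ := tg_pow δ0 c0 hM hc0 a ha ha2
  obtain ⟨n2, hn2⟩ := fn_prime_pow a ha
  obtain ⟨c, hc, B0, m0, n3, hjump⟩ := jump
  obtain ⟨n4, hn4⟩ := ga2_thr a (min c (1 / 2000)) ha (lt_min hc (by norm_num)) B0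
  choose! B g hB1 hB2 hg1 hg7 hBx hg2 r1 hr1 hBg using hn1
  refine ⟨max (max n1 n2) (max (max n3 n4) (max m0 1)), g, fun n hn => ?_, fun n m hm hmn x hx => ?_⟩
  · have h1 : n1 ≤ n := by omega
    have h2 : n2 ≤ n := by omega
    have hnn : (0 : ℝ) ≤ (n : ℝ) ^ (1 - a) := by positivity
    refine ⟨hg1 n h1, hg7 n h1, ?_, ⟨B n, hB2 n h1, fun x hx hxB =>
      fn_one n (B n) (g n) (r1 n) (hr1 n h1) (hBx n h1) (hBg n h1) x hx hxB⟩, fun x hx hd => ?_⟩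
    · obtain ⟨q, hq1, hq2, hq3, hq4, hq5⟩ := hn2 n h2 (B n) (by linarith [hB2 n h1]) (r1 n)
        (by rcases hr1 n h1 with h | h <;> omega)
      exact ⟨q, hBg n h1 q hq1 hq4 hq5, hq2, hq3⟩
    · have h3 : ((B n).card : ℝ) < hdeg n x := lt_of_le_of_lt (hB2 n h1) hd
      exact hg2 n h1 x hx (by exact_mod_cast h3)
  · have h1 : n1 ≤ m := by omega
    have h1' : n1 ≤ n := by omega
    have hm1 : 1 ≤ m := by omega
    have hmR : (0 : ℝ) < m := by exact_mod_cast hm1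
    have hnR : (0 : ℝ) < n := by exact_mod_cast (by omega : 0 < n)
    obtain ⟨e1, e2, e3⟩ := hn4 m (by omega)
    obtain ⟨f1, f2, f3⟩ := hn4 n (by omega)
    -- a common vertex
    obtain ⟨X, hXm, hXB, w, hw, hwe⟩ : ∃ X ∈ Icc 1 m, X ∉ B m ∧ ∃ w ∈ g n, (HG n).edist X w ≤ 2 := by
      by_cases h1000 : 1000 * m ≤ n
      · have hj := hjump n (by omega) m (by omega) h1000
        have h2 : ((B m).card : ℝ) < c * m := by
          have h3 := hB2 m h1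
          rw [ga2_split m hmR a] at h3
          have h4 : (m : ℝ) ^ (-a) < c := e1.trans_le (min_le_left _ _)
          have h5 : (m : ℝ) * (m : ℝ) ^ (-a) ≤ m * c := mul_le_mul_of_nonneg_left h4.le hmR.le
          have h6 : 0 < (m : ℝ) * c := by positivity
          linarith
        have h3 : (B m).card < ((Icc 1 m).filter (fun X => (n : ℝ) / (Real.log n) ^ B0 ≤ hdeg n X)).card := by
          exact_mod_cast h2.trans_le hj
        obtain ⟨X, hX1, hX2⟩ := exists_mem_notMem_of_card_lt_card h3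
        rw [mem_filter] at hX1
        refine ⟨X, hX1.1, hX2, hg2 n h1' X ?_ ?_⟩
        · rw [mem_Icc] at hX1 ⊢
          exact ⟨hX1.1.1, hX1.1.2.trans hmn⟩
        · have h4 : ((B n).card : ℝ) < hdeg n X := by
            refine lt_of_lt_of_le ?_ hX1.2
            have h5 := hB2 n h1'
            rw [ga2_split n hnR a] at h5
            have h6 : (n : ℝ) * (n : ℝ) ^ (-a) < n / (Real.log n) ^ B0 := by
              rw [lt_div_iff₀ (by positivity)]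
              have := mul_lt_mul_of_pos_left f2 hnR
              linarith
            have h7 : 0 < (n : ℝ) * (n : ℝ) ^ (-a) := by positivity
            linarith
          exact_mod_cast h4
      · push Not at h1000
        have h2 : ((B m).card : ℝ) + (B n).card < m := by
          have h3 := hB2 m h1
          rw [ga2_split m hmR a] at h3
          have h4 := hB2 n h1'
          rw [ga2_split n hnR a] at h4
          have h5 : (m : ℝ) * (m : ℝ) ^ (-a) ≤ m * (1 / 2000) :=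
            mul_le_mul_of_nonneg_left (e1.le.trans (min_le_right _ _)) hmR.le
          have h6 : (n : ℝ) * (n : ℝ) ^ (-a) ≤ n * (1 / 2000) :=
            mul_le_mul_of_nonneg_left (f1.le.trans (min_le_right _ _)) hnR.le
          have h7 : (n : ℝ) < 1000 * m := by exact_mod_cast h1000
          linarith
        have h3 : (B m ∪ B n).card < (Icc 1 m).card := by
          have h4 : (B m).card + (B n).card < m := by exact_mod_cast h2
          rw [Nat.card_Icc]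
          have := card_union_le (B m) (B n)
          omega
        obtain ⟨X, hX1, hX2⟩ := exists_mem_notMem_of_card_lt_card h3
        rw [mem_union, not_or] at hX2
        have hXn : X ∈ Icc 1 n := by
          rw [mem_Icc] at hX1 ⊢
          exact ⟨hX1.1, hX1.2.trans hmn⟩
        obtain ⟨w, hw, hwe⟩ := fn_one n (B n) (g n) (r1 n) (hr1 n h1') (hBx n h1') (hBg n h1') X hXn hX2.2
        exact ⟨X, hX1, hX2.1, w, hw, hwe.trans (by norm_num)⟩
    obtain ⟨z, hz, hze⟩ := fn_one m (B m) (g m) (r1 m) (hr1 m h1) (hBx m h1) (hBg m h1) X hXm hXB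
    refine ⟨w, hw, ?_⟩
    have k1 : (HG n).edist x z ≤ 7 := (edist_mono hmn x z).trans (hg7 m h1 x hx z hz)
    have k2 : (HG n).edist z X ≤ 1 := by
      rw [SimpleGraph.edist_comm]
      exact (edist_mono hmn X z).trans hze
    calc (HG n).edist x w ≤ (HG n).edist x X + (HG n).edist X w := SimpleGraph.edist_triangle
      _ ≤ ((HG n).edist x z + (HG n).edist z X) + (HG n).edist X w :=
          add_le_add_left SimpleGraph.edist_triangle _
      _ ≤ (7 + 1) + 2 := add_le_add (add_le_add k1 k2) hwe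
      _ = 10 := by norm_num

end Pool.Agent.Lib.H18Q
end

-- from Lib.H18Q.GC1
section

/-!
# Project H18Q, chunk GC1: thresholds

Port of `H18P/P3.lean` (`thr_facts`).
-/

open Finset Pool.Agent.Lib.H18GB Pool.Agent.Lib.GoldbachGraph Pool.Agent.Lib.H18E Pool.Agent.Goldbach
  Pool.Agent.Lib.H18P

namespace Pool.Agent.Lib.H18Q

/-- Thresholds. `m ^ (1 - b) = m ^ (1 - c) · m ^ (c - b)`, and `m ^ (c - b) ≥ 8`,
`m ^ (1 - c) ≥ 8` for large `m`. -/
theorem thr_pow (b c : ℝ) (hb0 : 0 < b) (hbc : b < c) (hc : c < 1) : ∃ n0 : ℕ, 1 ≤ n0 ∧ ∀ m : ℕ, n0 ≤ m →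
    4 + (m : ℝ) ^ (1 - c) / 2 < (m : ℝ) ^ (1 - b) ∧
    3 + (m : ℝ) ^ (1 - c) < ((2 * m : ℕ) : ℝ) ^ (1 - b) ∧
    ((2 * m : ℕ) : ℝ) ^ (1 - c) ≤ (m : ℝ) ^ (1 - b) := by
  have h1 := (tendsto_rpow_atTop (show 0 < c - b by linarith)).eventually_ge_atTop 8
  have h2 := (tendsto_rpow_atTop (show 0 < 1 - c by linarith)).eventually_ge_atTop 8
  obtain ⟨n0, hn0⟩ := Filter.eventually_atTop.1
    (tendsto_natCast_atTop_atTop.eventually (h1.and h2))
  refine ⟨max n0 1, le_max_right _ _, fun m hm => ?_⟩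
  obtain ⟨e1, e2⟩ := hn0 m (by omega)
  have hm1 : (1 : ℝ) ≤ m := by exact_mod_cast (by omega : 1 ≤ m)
  have hm0 : (0 : ℝ) < m := by linarith
  have k1 : (m : ℝ) ^ (1 - b) = (m : ℝ) ^ (1 - c) * (m : ℝ) ^ (c - b) := by
    rw [← Real.rpow_add hm0]
    congr 1
    ring
  have k2 : 8 * (m : ℝ) ^ (1 - c) ≤ (m : ℝ) ^ (1 - b) := by
    rw [k1]
    nlinarith
  have h2m : ((2 * m : ℕ) : ℝ) = 2 * m := by push_cast; ring
  rw [h2m]
  have k3 : (m : ℝ) ^ (1 - b) ≤ (2 * m) ^ (1 - b) :=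
    Real.rpow_le_rpow hm0.le (by linarith) (by linarith)
  refine ⟨by linarith, by linarith, ?_⟩
  rw [Real.mul_rpow (by norm_num) hm0.le]
  have k4 : (2 : ℝ) ^ (1 - c) ≤ 2 := by
    calc (2 : ℝ) ^ (1 - c) ≤ 2 ^ (1 : ℝ) :=
          Real.rpow_le_rpow_of_exponent_le (by norm_num) (by linarith)
      _ = 2 := Real.rpow_one _
  have k5 : (2 : ℝ) ^ (1 - c) * (m : ℝ) ^ (1 - c) ≤ 2 * (m : ℝ) ^ (1 - c) :=
    mul_le_mul_of_nonneg_right k4 (by linarith)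
  linarith

end Pool.Agent.Lib.H18Q
end

-- from Lib.H18Q.GB
section

/-!
# Project H18Q, chunk GB: a fixed thin set, power savings

Port of `H18P/OM.lean` (`fixed`).
-/

open Finset Pool.Agent.Lib.H68T Pool.Agent.Lib.H18E Pool.Agent.Lib.GoldbachGraph Pool.Agent.Lib.H18P

namespace Pool.Agent.Lib.H18Q

/-- **A fixed thin set of halved vertices**, outside of which the degrees at the own scale are large.
PORT of `H18P.fixed` (end of `H18P/OM.lean`), with `MainPow δ0 c0` (for `a' = a + (b - a)/3` and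
`b' = a + 2 (b - a)/3`) instead of `main_own`; `clog_bounds` can be used as it is.
`F = {x | x < N1 ∨ x ∈ B (2 ^ clog x)}`. Counting, for `N1 ≤ x`, `J = clog x`, `2 ^ J < 2 x`:
`ncard ≤ N1 + ∑_{j ≤ J} (2 ^ j) ^ (1 - a')/2 ≤ N1 + (J + 1) (2 x) ^ (1 - a') ≤ N1 + 8 log x · x ^ (1 - a')
≤ x ^ (1 - a)` for large `x` (`J + 1 ≤ 4 log x`). Degrees: for `n = 2 ^ clog x`, `x ≤ n`:
`x ^ (1 - b) ≤ n ^ (1 - b') ≤ ohdeg n x ≤ #{Y ≤ x - 1 : hadj x Y}` (as `n < 2 x`, see the definition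
of `ohdeg` in `H18P/OD.lean`). -/
theorem fixed_pow (δ0 c0 : ℝ) (hM : MainPow δ0 c0) (hδ : δ0 < 1 / 2) (a b : ℝ) (ha : 0 < a) (hab : a < b)
    (hb : b < δ0) (N : ℕ) : ∃ (F : Set ℕ) (n0 : ℕ),
    (∀ x : ℕ, n0 ≤ x → ((F ∩ Set.Icc 0 x).ncard : ℝ) ≤ (x : ℝ) ^ (1 - a)) ∧
    ∀ x : ℕ, x ∉ F → N ≤ x ∧ (x : ℝ) ^ (1 - b) ≤
      (((Icc 1 (x - 1)).filter (fun Y => hadj x Y)).card : ℝ) := by
  classical
  set a' := a + (b - a) / 3 with ha'
  set b' := a + 2 * (b - a) / 3 with hb'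
  have h1 : a < a' := by rw [ha']; linarith
  have h2 : a' < b' := by rw [ha', hb']; linarith
  have h3 : b' < b := by rw [hb']; linarith
  obtain ⟨n1, hn1⟩ := hM a' b' (by linarith) h2 (by linarith)
  choose! B hB1 hB2 r1 hr1 hB3 using hn1
  have hev : ∀ᶠ y : ℝ in Filter.atTop, 8 * Real.log y ≤ y ^ (a' - a) / 2 ∧ 3 ≤ y := by
    have k1 := (isLittleO_log_rpow_atTop (show 0 < a' - a by linarith)).def
      (show (0 : ℝ) < 1 / 16 by norm_num)
    filter_upwards [k1, Filter.eventually_ge_atTop (3 : ℝ)] with y k1 k2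
    have hL : 0 ≤ Real.log y := Real.log_nonneg (by linarith)
    rw [Real.norm_of_nonneg hL, Real.norm_of_nonneg (by positivity)] at k1
    exact ⟨by linarith, k2⟩
  obtain ⟨n2, hn2⟩ := Filter.eventually_atTop.1 (tendsto_natCast_atTop_atTop.eventually hev)
  set N1 := max (max n1 n2) (max N 3) with hN1
  -- the second threshold
  have hev2 : ∀ᶠ y : ℝ in Filter.atTop, (2 * N1 : ℝ) ≤ y ^ (1 - a) :=
    (tendsto_rpow_atTop (show 0 < 1 - a by linarith)).eventually_ge_atTop _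
  obtain ⟨n3, hn3⟩ := Filter.eventually_atTop.1 (tendsto_natCast_atTop_atTop.eventually hev2)
  refine ⟨{x | x < N1 ∨ x ∈ B (2 ^ Nat.clog 2 x)}, max N1 n3, fun x hx => ?_, fun x hx => ?_⟩
  · -- counting
    have hxN : N1 ≤ x := by omega
    have hx3 : 3 ≤ x := by omega
    obtain ⟨k1, k2, k3⟩ := clog_bounds x hx3
    obtain ⟨e1, e2⟩ := hn2 x (by omega)
    have e5 := hn3 x (by omega)
    have hxR : (0 : ℝ) < x := by exact_mod_cast (by omega : 0 < x)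
    set L := Real.log x with hL
    set J := Nat.clog 2 x with hJ
    set I := (range (J + 1)).filter (fun j => N1 ≤ 2 ^ j) with hI
    have hsub : {x | x < N1 ∨ x ∈ B (2 ^ Nat.clog 2 x)} ∩ Set.Icc 0 x ⊆
        ((range N1 ∪ I.biUnion (fun j => B (2 ^ j)) : Finset ℕ) : Set ℕ) := by
      rintro y ⟨hy, hyx⟩
      rw [mem_coe, mem_union, mem_range, mem_biUnion]
      by_cases hyN : y < N1
      · exact Or.inl hyN
      · right
        have hy2 : y ∈ B (2 ^ Nat.clog 2 y) := hy.resolve_left hyN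
        refine ⟨Nat.clog 2 y, ?_, hy2⟩
        rw [hI, mem_filter, mem_range]
        refine ⟨Nat.lt_succ_of_le (Nat.clog_mono_right 2 hyx.2), ?_⟩
        exact (not_lt.1 hyN).trans (Nat.le_pow_clog (by norm_num) y)
    have hc1 : ({x | x < N1 ∨ x ∈ B (2 ^ Nat.clog 2 x)} ∩ Set.Icc 0 x).ncard ≤
        N1 + ∑ j ∈ I, (B (2 ^ j)).card := by
      refine (Set.ncard_le_ncard hsub (finite_toSet _)).trans ?_
      rw [Set.ncard_coe_finset]
      refine (card_union_le _ _).trans ?_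
      rw [card_range]
      exact Nat.add_le_add_left card_biUnion_le _
    have hBj : ∀ j ∈ I, ((B (2 ^ j)).card : ℝ) ≤ (x : ℝ) ^ (1 - a') := by
      intro j hj
      rw [hI, mem_filter, mem_range] at hj
      have hj1 : n1 ≤ 2 ^ j := by omega
      have hjJ : 2 ^ j ≤ 2 ^ J := Nat.pow_le_pow_right (by norm_num) (by omega)
      have h4 := hB2 (2 ^ j) hj1
      have h6 : ((2 ^ j : ℕ) : ℝ) ≤ 2 * x := by
        have : 2 ^ j ≤ 2 * x := hjJ.trans k2.le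
        exact_mod_cast this
      have h7 : ((2 ^ j : ℕ) : ℝ) ^ (1 - a') ≤ (2 * x) ^ (1 - a') :=
        Real.rpow_le_rpow (Nat.cast_nonneg _) h6 (by linarith)
      have h8 : (2 * (x : ℝ)) ^ (1 - a') ≤ 2 * (x : ℝ) ^ (1 - a') := by
        rw [Real.mul_rpow (by norm_num) hxR.le]
        apply mul_le_mul_of_nonneg_right _ (Real.rpow_nonneg hxR.le _)
        calc (2 : ℝ) ^ (1 - a') ≤ 2 ^ (1 : ℝ) :=
              Real.rpow_le_rpow_of_exponent_le (by norm_num) (by linarith)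
          _ = 2 := Real.rpow_one _
      linarith
    have hIc : (I.card : ℝ) ≤ 4 * L := by
      refine le_trans ?_ k3
      have : I.card ≤ J + 1 := (card_filter_le _ _).trans (by rw [card_range])
      exact_mod_cast this
    have hsum : (∑ j ∈ I, ((B (2 ^ j)).card : ℝ)) ≤ 4 * L * (x : ℝ) ^ (1 - a') := by
      refine (sum_le_sum hBj).trans ?_
      rw [sum_const, nsmul_eq_mul]
      exact mul_le_mul_of_nonneg_right hIc (by positivity)
    have hc2 : (({x | x < N1 ∨ x ∈ B (2 ^ Nat.clog 2 x)} ∩ Set.Icc 0 x).ncard : ℝ) ≤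
        N1 + ∑ j ∈ I, ((B (2 ^ j)).card : ℝ) := by exact_mod_cast hc1
    -- the second part
    have hp2 : 4 * L * (x : ℝ) ^ (1 - a') ≤ (x : ℝ) ^ (1 - a) / 2 := by
      have h4 : (x : ℝ) ^ (1 - a) = (x : ℝ) ^ (1 - a') * (x : ℝ) ^ (a' - a) := by
        rw [← Real.rpow_add hxR]
        congr 1
        ring
      have h5 : 0 ≤ (x : ℝ) ^ (1 - a') := Real.rpow_nonneg hxR.le _
      have h6 : (0 : ℝ) ≤ (x : ℝ) ^ (a' - a) := Real.rpow_nonneg hxR.le _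
      rw [h4]
      have h7 : 4 * L ≤ (x : ℝ) ^ (a' - a) / 2 := by linarith
      calc 4 * L * (x : ℝ) ^ (1 - a') ≤ ((x : ℝ) ^ (a' - a) / 2) * (x : ℝ) ^ (1 - a') :=
            mul_le_mul_of_nonneg_right h7 h5
        _ = (x : ℝ) ^ (1 - a') * (x : ℝ) ^ (a' - a) / 2 := by ring
    linarith
  · -- degrees
    simp only [Set.mem_ofPred_eq, not_or, not_lt] at hx
    obtain ⟨hxN, hxB⟩ := hx
    have hx3 : 3 ≤ x := by omega
    obtain ⟨k1, k2, k3⟩ := clog_bounds x hx3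
    have hxR : (0 : ℝ) < x := by exact_mod_cast (by omega : 0 < x)
    set n := 2 ^ Nat.clog 2 x with hn
    refine ⟨by omega, ?_⟩
    have h4 := (hB3 n (by omega) x (mem_Icc.2 ⟨by omega, k1⟩) hxB).2.1
    have h5 : ohdeg n x ≤ ((Icc 1 (x - 1)).filter (fun Y => hadj x Y)).card := by
      unfold ohdeg
      apply card_le_card
      intro Y hY
      rw [mem_filter, mem_Icc] at hY ⊢
      have := hY.2.2 k2
      exact ⟨⟨hY.1.1, by omega⟩, hY.2.1⟩
    have h6 : (ohdeg n x : ℝ) ≤ (((Icc 1 (x - 1)).filter (fun Y => hadj x Y)).card : ℝ) := by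
      exact_mod_cast h5
    refine le_trans ?_ (h4.trans h6)
    have h7 : (x : ℝ) ≤ n := by exact_mod_cast k1
    have h8 : (1 : ℝ) ≤ x := by
      have : 1 ≤ x := by omega
      exact_mod_cast this
    calc (x : ℝ) ^ (1 - b) ≤ (x : ℝ) ^ (1 - b') := Real.rpow_le_rpow_of_exponent_le h8 (by linarith)
      _ ≤ (n : ℝ) ^ (1 - b') := Real.rpow_le_rpow hxR.le h7 (by linarith)

end Pool.Agent.Lib.H18Q
end

-- from Lib.H18Q.GC2
section

/-!
# Project H18Q, chunk GC2: the core for both families of graphs, power savings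

Port of `H18P/P3.lean` (`core_main`).
-/

open Finset Pool.Agent.Lib.H18GB Pool.Agent.Lib.GoldbachGraph Pool.Agent.Lib.H18E Pool.Agent.Goldbach
  Pool.Agent.Lib.H18P

namespace Pool.Agent.Lib.H18Q

/-- **The core**, for both families of graphs. PORT of `H18P.core_main` (`H18P/P3.lean`): `levels_pow`,
`thr_pow` instead of `levels`, `thr_facts`; otherwise word for word. -/
theorem core_main_pow (δ0 c0 : ℝ) (hM : MainPow δ0 c0) (hc0 : 0 < c0) (hδ : δ0 < 1 / 2) (b c : ℝ)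
    (hb0 : 0 < b) (hbc : b < c) (hc : c < δ0) : ∃ n0 : ℕ, ∀ n : ℕ, n0 ≤ n →
    ∀ V S : Set ℕ, (∀ a ∈ V, Even a ∧ a ≤ 2 * n) → (∀ x ∈ Finset.Icc 1 n, 2 * x ∈ V) →
    (∀ m, m.Prime → Odd m → m < 2 * n → m ∈ S) → (∀ m ∈ S, m = 1 ∨ (m.Prime ∧ Odd m)) →
    ∃ K : Set V, (∀ u ∈ K, ∀ v ∈ K, (halfGraph V S).edist u v ≤ 7) ∧
      ({u : V | ¬ ∃ z ∈ K, (halfGraph V S).edist u z ≤ 1}.ncard : ℝ) ≤ (n : ℝ) ^ (1 - b) ∧
      (∀ u : V, (n : ℝ) ^ (1 - b) ≤ ((halfGraph V S).neighborSet u).ncard →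
        ∃ z ∈ K, (halfGraph V S).edist u z ≤ 2) ∧
      ((0 : ℕ) ∈ V → ∀ u : V, (u : ℕ) = 0 ∨ (∃ p : ℕ, p.Prime ∧ Odd p ∧ (u : ℕ) = 2 * p) →
        ∃ z ∈ K, (halfGraph V S).edist u z ≤ 2) ∧
      ∀ u : V, (∃ x m : ℕ, (u : ℕ) = 2 * x ∧ 1 ≤ x ∧ x ≤ m ∧ n0 ≤ m ∧ m ≤ n ∧
        (m : ℝ) ^ (1 - c) / 2 < hdeg m x) → ∃ z ∈ K, (halfGraph V S).edist u z ≤ 12 := by
  classical
  obtain ⟨n0, g, hg, hjmp⟩ := levels_pow δ0 c0 hM hc0 hδ c (hb0.trans hbc) hc
  obtain ⟨n1, hn11, hn1⟩ := thr_pow b c hb0 hbc (by linarith)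
  refine ⟨max n0 n1, fun n hn V S hV hV2 hS hS' => ?_⟩
  have hfin : Finite V := finite_of_le hV
  obtain ⟨hg1, hg7, ⟨q, hqg, hq2, hq3⟩, ⟨B, hB, hB1⟩, hgd⟩ := hg n (by omega)
  obtain ⟨t1, t2, t3⟩ := hn1 n (by omega)
  have hq1 : q ∈ Icc 1 n := hg1 hqg
  have hqS : q ∈ S := hS q hq2 hq3 (by rw [mem_Icc] at hq1; omega)
  have h0q : ∀ h0 : (0 : ℕ) ∈ V, (halfGraph V S).Adj ⟨0, h0⟩ ⟨2 * q, hV2 q hq1⟩ := by
    intro h0
    rw [halfGraph_adj_iff (x := 0) (y := q) rfl rfl]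
    refine ⟨hq2.ne_zero.symm, by simpa using hqS, by simpa using hqS⟩
  set K : Set V := {u : V | ∃ z ∈ g n, (u : ℕ) = 2 * z} with hK
  have hmemK : ∀ z (hz : z ∈ g n), (⟨2 * z, hV2 z (hg1 hz)⟩ : V) ∈ K := fun z hz => ⟨z, hz, rfl⟩
  have hzero1 : ∀ u : V, (u : ℕ) = 0 → ∃ z ∈ K, (halfGraph V S).edist u z ≤ 1 := by
    rintro ⟨u, hu⟩ hu0
    simp only at hu0
    subst hu0
    refine ⟨_, hmemK q hqg, ?_⟩
    refine (SimpleGraph.edist_le (.cons (h0q hu) .nil)).trans ?_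
    norm_num
  refine ⟨K, ?_, ?_, ?_, ?_, ?_⟩
  · rintro ⟨u, hu⟩ ⟨x, hx, hux⟩ ⟨v, hv⟩ ⟨y, hy, hvy⟩
    simp only at hux hvy
    subst hux
    subst hvy
    exact edist_transfer hV2 hS (hg1 hx) (hg1 hy) (k := 7) (hg7 x hx y hy)
  · have h1 : ({u : V | ¬ ∃ z ∈ K, (halfGraph V S).edist u z ≤ 1}).ncard ≤ B.card := by
      rw [← Set.ncard_coe_finset]
      apply Set.ncard_le_ncard_of_injOn (fun b : V => (b : ℕ) / 2)
      · rintro ⟨b, hb⟩ hbK
        obtain ⟨⟨x, hx'⟩, hbn⟩ := hV b hb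
        have hbx : b = 2 * x := by omega
        subst hbx
        simp only [Nat.mul_div_cancel_left _ (by norm_num : 0 < 2), Finset.mem_coe]
        by_contra hxB
        apply hbK
        by_cases hx0 : x = 0
        · exact hzero1 _ (by simp [hx0])
        · have hx1 : x ∈ Icc 1 n := mem_Icc.2 ⟨by omega, by omega⟩
          obtain ⟨z, hz, hze⟩ := hB1 x hx1 hxB
          exact ⟨_, hmemK z hz, edist_transfer hV2 hS hx1 (hg1 hz) (k := 1) hze⟩
      · rintro ⟨b, hb⟩ - ⟨b', hb'⟩ - hbb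
        have h1 := (hV b hb).1
        have h2 := (hV b' hb').1
        simp only at hbb
        ext
        simp only
        obtain ⟨k, hk⟩ := h1
        obtain ⟨l, hl⟩ := h2
        omega
    have h2 : (({u : V | ¬ ∃ z ∈ K, (halfGraph V S).edist u z ≤ 1}).ncard : ℝ) ≤ B.card := by
      exact_mod_cast h1
    linarith
  · rintro ⟨u, hu⟩ hdeg1
    obtain ⟨⟨x, hx'⟩, hbn⟩ := hV u hu
    have hbx : u = 2 * x := by omega
    subst hbx
    by_cases hx0 : x = 0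
    · obtain ⟨z, hz, hze⟩ := hzero1 ⟨2 * x, hu⟩ (by simp [hx0])
      exact ⟨z, hz, hze.trans (by norm_num)⟩
    · have hx2 : x ∈ Icc 1 n := mem_Icc.2 ⟨by omega, by omega⟩
      have h1 : (((halfGraph V S).neighborSet ⟨2 * x, hu⟩).ncard : ℝ) ≤ hdeg n x + 4 := by
        exact_mod_cast deg_le hV hS' x hu
      obtain ⟨z, hz, hze⟩ := hgd x hx2 (by linarith)
      exact ⟨_, hmemK z hz, edist_transfer hV2 hS hx2 (hg1 hz) (k := 2) hze⟩
  · rintro h0 ⟨u, hu⟩ (h | ⟨p, hp, hodd, hup⟩)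
    · obtain ⟨z, hz, hze⟩ := hzero1 ⟨u, hu⟩ h
      exact ⟨z, hz, hze.trans (by norm_num)⟩
    · simp only at hup
      subst hup
      have hpn : p < 2 * n := by
        have := (hV _ hu).2
        have := hp.pos
        omega
      have hpS : p ∈ S := hS p hp hodd hpn
      have hadj1 : (halfGraph V S).Adj ⟨2 * p, hu⟩ ⟨0, h0⟩ := by
        rw [halfGraph_adj_iff (x := p) (y := 0) rfl rfl]
        refine ⟨hp.ne_zero, by simpa using hpS, by simpa using hpS⟩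
      refine ⟨_, hmemK q hqg, ?_⟩
      refine (SimpleGraph.edist_le (.cons hadj1 (.cons (h0q h0) .nil))).trans ?_
      norm_num
  · rintro ⟨u, hu⟩ ⟨x, m, hux, hx1, hxm, hm0, hmn, hd⟩
    simp only at hux
    subst hux
    obtain ⟨-, -, -, -, hgm⟩ := hg m (by omega)
    obtain ⟨z, hz, hze⟩ := hgm x (mem_Icc.2 ⟨hx1, hxm⟩) hd
    obtain ⟨w, hw, hwe⟩ := hjmp n m (by omega) hmn z hz
    have h1 : (HG n).edist x w ≤ 12 := by
      calc (HG n).edist x w ≤ (HG n).edist x z + (HG n).edist z w := SimpleGraph.edist_triangle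
        _ ≤ 2 + 10 := add_le_add ((edist_mono hmn x z).trans hze) hwe
        _ = 12 := by norm_num
    exact ⟨_, hmemK w hw, edist_transfer hV2 hS (mem_Icc.2 ⟨hx1, hxm.trans hmn⟩) (hg1 hw) (k := 12) h1⟩

end Pool.Agent.Lib.H18Q
end

-- from Lib.H18Q.GD
section

/-!
# Project H18Q, chunk GD: the core for a family of graphs and the fixed exceptional set

Ports of `H18P/P4.lean`.
-/

open Finset Pool.Agent.Lib.H18GB Pool.Agent.Lib.GoldbachGraph Pool.Agent.Lib.H18E Pool.Agent.Goldbach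
  Pool.Agent.Lib.H18P

namespace Pool.Agent.Lib.H18Q

/-- The core for a family of graphs. PORT of `H18P.core_family` (`H18P/P4.lean`). -/
theorem core_family_pow (δ0 c0 : ℝ) (hM : MainPow δ0 c0) (hc0 : 0 < c0) (hδ : δ0 < 1 / 2) (b c : ℝ)
    (hb0 : 0 < b) (hbc : b < c) (hc : c < δ0) : ∃ n0 : ℕ, 1 ≤ n0 ∧
    ∀ V S : ℕ → Set ℕ, (∀ n, ∀ a ∈ V n, Even a ∧ a ≤ 2 * n) → (∀ n, ∀ x ∈ Finset.Icc 1 n, 2 * x ∈ V n) →
    (∀ n m, m.Prime → Odd m → m < 2 * n → m ∈ S n) → (∀ n, ∀ m ∈ S n, m = 1 ∨ (m.Prime ∧ Odd m)) →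
    (∀ n, (0 : ℕ) ∈ V n → ∀ m, n ≤ m → (0 : ℕ) ∈ V m) →
    ∀ N : ℕ, n0 ≤ N → ∀ n : ℕ, N ≤ n →
    ∃ K : Set (V n), CorePow V (fun n => halfGraph (V n) (S n)) b N n K ∧
      ((0 : ℕ) ∈ V n → ∀ u : V n, (u : ℕ) = 0 ∨ (∃ p : ℕ, p.Prime ∧ Odd p ∧ (u : ℕ) = 2 * p) →
        ∃ z ∈ K, (halfGraph (V n) (S n)).edist u z ≤ 2) := by
  classical
  obtain ⟨n0, h0⟩ := core_main_pow δ0 c0 hM hc0 hδ b c hb0 hbc hc
  obtain ⟨n1, hn11, hn1⟩ := thr_pow b c hb0 hbc (by linarith)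
  refine ⟨2 * max n0 n1, by omega, fun V S hV hV2 hS hS' hV0 N hN n hn => ?_⟩
  obtain ⟨K, k1, k2, k3, k4, k5⟩ := h0 n (by omega) (V n) (S n) (hV n) (hV2 n) (hS n) (hS' n)
  refine ⟨K, ⟨k1, k2, k3, ?_⟩, k4⟩
  rintro ⟨u, hu⟩ hrich
  obtain ⟨⟨x, hx'⟩, hbn⟩ := hV n u hu
  have hux : u = 2 * x := by omega
  subst hux
  rcases hrich with ⟨m, hm0, hmn, hm, hd⟩ | ⟨hu0, hr⟩
  · have hbm : 2 * x ≤ 2 * m := (hV m _ hm).2
    by_cases hx0 : x = 0
    · subst hx0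
      obtain ⟨z, hz, hze⟩ := k4 hu ⟨_, hu⟩ (Or.inl rfl)
      exact ⟨z, hz, hze.trans (by norm_num)⟩
    · have h1 : (((halfGraph (V m) (S m)).neighborSet ⟨2 * x, hm⟩).ncard : ℝ) ≤ hdeg m x + 4 := by
        exact_mod_cast deg_le (hV m) (hS' m) x hm
      obtain ⟨t1, -, -⟩ := hn1 m (by omega)
      exact k5 _ ⟨x, m, rfl, by omega, by omega, by omega, hmn, by linarith⟩
  · have hu0' : N ≤ 2 * x := hu0
    obtain ⟨-, t2, -⟩ := hn1 x (by omega)
    replace hr : ((2 * x : ℕ) : ℝ) ^ (1 - b) ≤ reps (2 * x) := hr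
    have h1 : (reps (2 * x) : ℝ) ≤ 2 * (((Icc 1 (x - 1)).filter (fun Y => hadj x Y)).card : ℝ) + 3 := by
      exact_mod_cast reps_le x
    have h2 : (((Icc 1 (x - 1)).filter (fun Y => hadj x Y)).card : ℝ) ≤ hdeg x x := by
      have : ((Icc 1 (x - 1)).filter (fun Y => hadj x Y)).card ≤ hdeg x x := by
        unfold hdeg
        apply card_le_card
        apply filter_subset_filter
        exact Icc_subset_Icc_right (Nat.sub_le _ _)
      exact_mod_cast this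
    exact k5 _ ⟨x, x, rfl, by omega, le_rfl, by omega, by omega, by linarith⟩

/-- The fixed exceptional set. PORT of `H18P.fixed_set` (`H18P/P4.lean`). -/
theorem fixed_set_pow (δ0 c0 : ℝ) (hM : MainPow δ0 c0) (hδ : δ0 < 1 / 2) (a b : ℝ) (ha : 0 < a)
    (hab : a < b) (hb : b < δ0) (N : ℕ) :
    ∃ (E : Set ℕ) (x0 : ℕ),
      (∀ x : ℕ, x0 ≤ x → ((E ∩ Set.Icc 0 x).ncard : ℝ) ≤ (x : ℝ) ^ (1 - a)) ∧
      ∀ u : ℕ, Even u → u ∉ E → N ≤ u ∧ (u : ℝ) ^ (1 - b) ≤ reps u := by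
  classical
  obtain ⟨n1, hn11, hn1⟩ := thr_pow ((a + b) / 2) b (by linarith) (by linarith) (by linarith)
  obtain ⟨F, x0, hF1, hF2⟩ := fixed_pow δ0 c0 hM hδ a ((a + b) / 2) ha (by linarith) (by linarith) (max N n1)
  refine ⟨{u | Even u ∧ u / 2 ∈ F}, x0, fun x hx => ?_, fun u hu huE => ?_⟩
  · refine le_trans ?_ (hF1 x hx)
    have : ({u | Even u ∧ u / 2 ∈ F} ∩ Set.Icc 0 x).ncard ≤ (F ∩ Set.Icc 0 x).ncard := by
      apply Set.ncard_le_ncard_of_injOn (fun u => u / 2)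
      · rintro u ⟨⟨-, h2⟩, h3, h4⟩
        exact ⟨h2, Nat.zero_le _, (Nat.div_le_self _ _).trans h4⟩
      · rintro u ⟨⟨⟨k, hk⟩, -⟩, -⟩ v ⟨⟨⟨l, hl⟩, -⟩, -⟩ huv
        simp only at huv
        omega
    exact_mod_cast this
  · obtain ⟨k, hk⟩ := hu
    have hux : u = 2 * k := by omega
    subst hux
    have hkF : k ∉ F := fun h => huE ⟨even_two_mul k, by rwa [Nat.mul_div_cancel_left _ two_pos]⟩
    obtain ⟨h1, h2⟩ := hF2 k hkF
    obtain ⟨-, -, t3⟩ := hn1 k (by omega)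
    refine ⟨by omega, ?_⟩
    have h3 : (((Icc 1 (k - 1)).filter (fun Y => hadj k Y)).card : ℝ) ≤ reps (2 * k) := by
      exact_mod_cast le_reps k
    linarith

end Pool.Agent.Lib.H18Q
end

-- from Lib.H18Q.GE
section

/-!
# Project H18Q, chunk GE: the final statement

Port of `H18P/P5.lean` (`final`).
-/

open Finset Pool.Agent.Lib.H18GB Pool.Agent.Lib.GoldbachGraph Pool.Agent.Lib.H18E Pool.Agent.Goldbach
  Pool.Agent.Lib.H18P

namespace Pool.Agent.Lib.H18Q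

/-- **All for the two families.** PORT of `H18P.final` (`H18P/P5.lean`); `q1_aux`, `small_near`, `small_gold`
can be used as they are; `core_family_pow` with `c = (b + δ0)/2`. -/
theorem final_pow (δ0 c0 : ℝ) (hM : MainPow δ0 c0) (hc0 : 0 < c0) (hδ : δ0 < 1 / 2) (a b : ℝ)
    (ha : 0 < a) (hab : a < b) (hb : b < δ0) :
    ∃ (E : Set ℕ) (n0 x0 : ℕ),
      (∀ x : ℕ, x0 ≤ x → ((E ∩ Set.Icc 0 x).ncard : ℝ) ≤ (x : ℝ) ^ (1 - a)) ∧
      (∀ u : ℕ, Even u → u ∉ E → n0 ≤ u ∧ (u : ℝ) ^ (1 - b) ≤ reps u) ∧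
      (∀ n : ℕ, n0 ≤ n → (∃ K, CorePow goldbachVertices goldbachGraph b n0 n K ∧
          ∀ u : goldbachVertices n, (u : ℕ) = 0 ∨ (∃ p : ℕ, p.Prime ∧ Odd p ∧ (u : ℕ) = 2 * p) →
            ∃ z ∈ K, (goldbachGraph n).edist u z ≤ 2) ∧
        ∃ K, CorePow evenVertices nearGoldbachGraph b n0 n K) ∧
      (∀ n : ℕ, n0 ≤ n →
        (∀ u v : goldbachVertices n, RichPow goldbachVertices goldbachGraph b n0 n u →
          RichPow goldbachVertices goldbachGraph b n0 n v → (goldbachGraph n).edist u v ≤ 31) ∧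
        (∀ u v : evenVertices n, RichPow evenVertices nearGoldbachGraph b n0 n u →
          RichPow evenVertices nearGoldbachGraph b n0 n v → (nearGoldbachGraph n).edist u v ≤ 31)) ∧
      (QuantGoldbachPow b → ∃ C N : ℕ, ∀ n : ℕ, N ≤ n →
        (∀ u v : goldbachVertices n, (goldbachGraph n).edist u v ≤ C) ∧
        (∀ u v : evenVertices n, (nearGoldbachGraph n).edist u v ≤ C)) := by
  classical
  obtain ⟨n0, hn0, hfam⟩ := core_family_pow δ0 c0 hM hc0 hδ b ((b + δ0) / 2) (ha.trans hab) (by linarith)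
    (by linarith)
  obtain ⟨E, x0, hE1, hE2⟩ := fixed_set_pow δ0 c0 hM hδ a b ha hab hb n0
  have hg := hfam goldbachVertices (fun n => {p | p.Prime ∧ Odd p ∧ p < 2 * n})
    (fun n a ha => ha)
    (fun n x hx => by
      rw [Finset.mem_Icc] at hx
      exact ⟨even_two_mul x, by omega⟩)
    (fun n m h1 h2 h3 => ⟨h1, h2, h3⟩)
    (fun n m hm => Or.inr ⟨hm.1, hm.2.1⟩)
    (fun n _ m _ => ⟨Even.zero, Nat.zero_le _⟩) n0 le_rfl
  have hv := hfam evenVertices (fun n => {1} ∪ {p | p.Prime ∧ Odd p ∧ p < 2 * n})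
    (fun n a ha => ⟨ha.1, ha.2.2⟩)
    (fun n x hx => by
      rw [Finset.mem_Icc] at hx
      exact ⟨even_two_mul x, by omega, by omega⟩)
    (fun n m h1 h2 h3 => Or.inr ⟨h1, h2, h3⟩)
    (fun n m hm => by
      rcases hm with hm | hm
      · exact Or.inl hm
      · exact Or.inr ⟨hm.1, hm.2.1⟩)
    (fun n h => absurd h.2.1 (by norm_num)) n0 le_rfl
  have hpair : ∀ n : ℕ, n0 ≤ n →
        (∀ u v : goldbachVertices n, RichPow goldbachVertices goldbachGraph b n0 n u →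
          RichPow goldbachVertices goldbachGraph b n0 n v → (goldbachGraph n).edist u v ≤ 31) ∧
        (∀ u v : evenVertices n, RichPow evenVertices nearGoldbachGraph b n0 n u →
          RichPow evenVertices nearGoldbachGraph b n0 n v → (nearGoldbachGraph n).edist u v ≤ 31) := by
    intro n hn
    obtain ⟨K, hK, -⟩ := hg n hn
    obtain ⟨K', hK', -⟩ := hv n hn
    exact ⟨fun u v hu hv => hK.pair (hK.rich u hu) (hK.rich v hv),
      fun u v hu hv => hK'.pair (hK'.rich u hu) (hK'.rich v hv)⟩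
  refine ⟨E, n0, x0, hE1, hE2, fun n hn => ⟨?_, ?_⟩, hpair, ?_⟩
  · obtain ⟨K, hK, hK0⟩ := hg n hn
    exact ⟨K, hK, hK0 ⟨Even.zero, Nat.zero_le _⟩⟩
  · obtain ⟨K, hK, -⟩ := hv n hn
    exact ⟨K, hK⟩
  · rintro ⟨hG, U0, hU0⟩
    set U := max U0 n0 + 8 with hU
    refine ⟨2 * (3 * U + 40), 2 * U + 20, fun n hn => ⟨?_, ?_⟩⟩
    · have hV : ∀ a ∈ goldbachVertices n, Even a ∧ a ≤ 2 * n := fun a ha => ha
      have hV2 : ∀ x ∈ Finset.Icc 1 n, 2 * x ∈ goldbachVertices n := fun x hx => by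
        rw [Finset.mem_Icc] at hx
        exact ⟨even_two_mul x, by omega⟩
      have hS : ∀ m, m.Prime → Odd m → m < 2 * n → m ∈ {p | p.Prime ∧ Odd p ∧ p < 2 * n} :=
        fun m h1 h2 h3 => ⟨h1, h2, h3⟩
      have hmem : ∀ k, 2 * k ≤ 2 * n → 2 * k ∈ goldbachVertices n := fun k hk => ⟨even_two_mul k, hk⟩
      have hs : 2 * U ∈ goldbachVertices n := hmem U (by omega)
      obtain ⟨e0, e246⟩ := small_gold (V := goldbachVertices n) (S := {p | p.Prime ∧ Odd p ∧ p < 2 * n})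
        (hS 3 (by norm_num) (by decide) (by omega)) (hS 5 (by norm_num) (by decide) (by omega))
        (hS 7 (by norm_num) (by decide) (by omega)) (hS 11 (by norm_num) (by decide) (by omega))
        (hmem 0 (by omega)) (hmem 1 (by omega)) (hmem 2 (by omega)) (hmem 3 (by omega)) (hmem 4 (by omega))
        (hmem 5 (by omega)) (hmem 7 (by omega))
      refine q1_aux hG hV hV2 hS U (2 * U) hs (by omega) le_rfl e246
        (fun hu => ⟨6, hmem 3 (by omega), by omega, e0⟩) ?_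
      intro u hu hUu
      refine (hpair n (by omega)).1 ⟨u, hu⟩ ⟨2 * U, hs⟩ (Or.inr ⟨by simp only; omega, ?_⟩)
        (Or.inr ⟨by simp only; omega, ?_⟩)
      · exact hU0 u (by omega) hu.1
      · exact hU0 (2 * U) (by omega) (even_two_mul U)
    · have hV : ∀ a ∈ evenVertices n, Even a ∧ a ≤ 2 * n := fun a ha => ⟨ha.1, ha.2.2⟩
      have hV2 : ∀ x ∈ Finset.Icc 1 n, 2 * x ∈ evenVertices n := fun x hx => by
        rw [Finset.mem_Icc] at hx
        exact ⟨even_two_mul x, by omega, by omega⟩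
      have hS : ∀ m, m.Prime → Odd m → m < 2 * n → m ∈ ({1} ∪ {p | p.Prime ∧ Odd p ∧ p < 2 * n} : Set ℕ) :=
        fun m h1 h2 h3 => Or.inr ⟨h1, h2, h3⟩
      have hmem : ∀ k, 1 ≤ k → 2 * k ≤ 2 * n → 2 * k ∈ evenVertices n :=
        fun k hk1 hk => ⟨even_two_mul k, by omega, hk⟩
      have hs : 2 * U ∈ evenVertices n := hmem U (by omega) (by omega)
      have e246 := small_near (V := evenVertices n) (S := ({1} ∪ {p | p.Prime ∧ Odd p ∧ p < 2 * n} : Set ℕ))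
        (Or.inl rfl)
        (hS 3 (by norm_num) (by decide) (by omega)) (hS 5 (by norm_num) (by decide) (by omega))
        (hmem 1 (by omega) (by omega)) (hmem 2 (by omega) (by omega)) (hmem 3 (by omega) (by omega))
      refine q1_aux hG hV hV2 hS U (2 * U) hs (by omega) le_rfl e246
        (fun hu => absurd hu.2.1 (by norm_num)) ?_
      intro u hu hUu
      refine (hpair n (by omega)).2 ⟨u, hu⟩ ⟨2 * U, hs⟩ (Or.inr ⟨by simp only; omega, ?_⟩)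
        (Or.inr ⟨by simp only; omega, ?_⟩)
      · exact hU0 u (by omega) hu.1
      · exact hU0 (2 * U) (by omega) (even_two_mul U)

end Pool.Agent.Lib.H18Q
end

-- from Lib.H18Q.Fin
section

/-!
# Project H18Q: the final statement (power savings)
-/

open Pool.Agent.Goldbach Pool.Agent.Lib.H18P

namespace Pool.Agent.Lib.H18Q

theorem main_pow' : ∃ δ0 c0 : ℝ, 0 < δ0 ∧ δ0 < 1 / 2 ∧ 0 < c0 ∧ MainPow δ0 c0 := main_pow

/-- **The theorem.** -/
theorem rich_pow : ∃ δ0 : ℝ, 0 < δ0 ∧ ∀ a b : ℝ, 0 < a → a < b → b < δ0 →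
    ∃ (E : Set ℕ) (n0 x0 : ℕ),
      (∀ x : ℕ, x0 ≤ x → ((E ∩ Set.Icc 0 x).ncard : ℝ) ≤ (x : ℝ) ^ (1 - a)) ∧
      (∀ u : ℕ, Even u → u ∉ E → n0 ≤ u ∧ (u : ℝ) ^ (1 - b) ≤ reps u) ∧
      (∀ n : ℕ, n0 ≤ n → (∃ K, CorePow goldbachVertices goldbachGraph b n0 n K ∧
          ∀ u : goldbachVertices n, (u : ℕ) = 0 ∨ (∃ p : ℕ, p.Prime ∧ Odd p ∧ (u : ℕ) = 2 * p) →
            ∃ z ∈ K, (goldbachGraph n).edist u z ≤ 2) ∧
        ∃ K, CorePow evenVertices nearGoldbachGraph b n0 n K) ∧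
      (∀ n : ℕ, n0 ≤ n →
        (∀ u v : goldbachVertices n, RichPow goldbachVertices goldbachGraph b n0 n u →
          RichPow goldbachVertices goldbachGraph b n0 n v → (goldbachGraph n).edist u v ≤ 31) ∧
        (∀ u v : evenVertices n, RichPow evenVertices nearGoldbachGraph b n0 n u →
          RichPow evenVertices nearGoldbachGraph b n0 n v → (nearGoldbachGraph n).edist u v ≤ 31)) ∧
      (QuantGoldbachPow b → ∃ C N : ℕ, ∀ n : ℕ, N ≤ n →
        (∀ u v : goldbachVertices n, (goldbachGraph n).edist u v ≤ C) ∧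
        (∀ u v : evenVertices n, (nearGoldbachGraph n).edist u v ≤ C)) := by
  obtain ⟨δ0, c0, h0, h2, hc0, hM⟩ := main_pow'
  exact ⟨δ0, h0, fun a b ha hab hb => final_pow δ0 c0 hM hc0 h2 a b ha hab hb⟩

end Pool.Agent.Lib.H18Q
end
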