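import Pool.Agent.Lib.H1M.RV.M112
import Pool.Agent.Lib.H1M.RV.M113

/-!
# Chen edges and the cluster of a Goldbach graph

In both families of graphs one cluster `K` (pairwise distances at most `7`) has all but `n ^ (1 - b)`
vertices within distance `1`, and every vertex is joined to it by many Chen edges.
-/

open Finset Pool.Agent.Lib.H18GB Pool.Agent.Lib.GoldbachGraph Pool.Agent.Goldbach

namespace Pool.Agent.Lib.H18C

/-- `K` is a cluster of the graph `G` on the vertex set `V`: its vertices have pairwise distance at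
most `7` in `G` (`core`); all but at most `n ^ (1 - b)` vertices are at distance at most `1` from `K`
(`most`); every vertex has at least `c n / (log n)^2` Chen neighbours (`many`), so that all but
`n ^ (1 - b)` of these are at distance at most `1` from `K`; any two vertices `u`, `v` have Chen
neighbours `u'`, `v'` which are at distance at most `1` from `K` and at distance at most `5` from each
other in `G` (`pair`), so that any two vertices are at distance at most `7` in `G` with all Chen edges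
added (`all`); and there are at most `n ^ (1 - b)` Chen edges such that any two vertices are at distance
at most `11` in `G` with these edges added (`few`). -/
structure ChenCluster {V : Set ℕ} (G : SimpleGraph V) (b c : ℝ) (n : ℕ) (K : Set V) : Prop where
  core : ∀ u ∈ K, ∀ v ∈ K, G.edist u v ≤ 7
  most : ({u : V | ¬ ∃ z ∈ K, G.edist u z ≤ 1}.ncard : ℝ) ≤ (n : ℝ) ^ (1 - b)
  many : ∀ u : V, c * n / (Real.log n) ^ 2 ≤ ((chenGraph V).neighborSet u).ncard
  pair : ∀ u v : V, ∃ u' v' : V, (chenGraph V).Adj u u' ∧ (∃ z ∈ K, G.edist u' z ≤ 1) ∧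
    G.edist u' v' ≤ 5 ∧ (∃ z ∈ K, G.edist v' z ≤ 1) ∧ (chenGraph V).Adj v' v
  all : ∀ u v : V, (G ⊔ chenGraph V).edist u v ≤ 7
  few : ∃ F : SimpleGraph V, F ≤ chenGraph V ∧ (F.edgeSet.ncard : ℝ) ≤ (n : ℝ) ^ (1 - b) ∧
    ∀ u v : V, (G ⊔ F).edist u v ≤ 11

theorem cl_ev (ε b : ℝ) (hε : 0 < ε) (hb : 0 < b) : ∃ n0 : ℕ, ∀ n : ℕ, n0 ≤ n →
    1 ≤ Real.log n ∧ (n : ℝ) ^ (1 - b) ≤ ε * n / (Real.log n) ^ 2 := by
  have hev : ∀ᶠ y : ℝ in Filter.atTop, (1 / ε + 1) * Real.log y + 0 ≤ y ^ (b / 2) ∧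
      Real.exp 1 ≤ y := by
    filter_upwards [fin_log (b / 2) (1 / ε + 1) 0 (by linarith),
      Filter.eventually_ge_atTop (Real.exp 1)] with y h1 h2
    exact ⟨h1, h2⟩
  obtain ⟨n0, hn0⟩ := Filter.eventually_atTop.1 (tendsto_natCast_atTop_atTop.eventually hev)
  refine ⟨n0, fun n hn => ?_⟩
  obtain ⟨h1, h2⟩ := hn0 n hn
  have hn : (0 : ℝ) < n := lt_of_lt_of_le (Real.exp_pos 1) h2
  have hlog : 1 ≤ Real.log n := by
    rw [← Real.log_exp 1]
    exact Real.log_le_log (Real.exp_pos 1) h2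
  refine ⟨hlog, ?_⟩
  rw [le_div_iff₀ (by positivity)]
  have h3 : (n : ℝ) ^ (1 - b) * ((n : ℝ) ^ (b / 2) * (n : ℝ) ^ (b / 2)) = n := by
    rw [← Real.rpow_add hn, ← Real.rpow_add hn]
    conv_rhs => rw [← Real.rpow_one (n : ℝ)]
    congr 1
    ring
  have h4 : 0 < (n : ℝ) ^ (1 - b) := Real.rpow_pos_of_pos hn _
  have h5 : 0 ≤ (n : ℝ) ^ (b / 2) := (Real.rpow_pos_of_pos hn _).le
  have h6 : Real.log n ≤ ε * (n : ℝ) ^ (b / 2) := by
    have h7 : (1 / ε) * Real.log n ≤ (n : ℝ) ^ (b / 2) := by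
      nlinarith
    calc Real.log n = ε * ((1 / ε) * Real.log n) := by field_simp
      _ ≤ ε * (n : ℝ) ^ (b / 2) := mul_le_mul_of_nonneg_left h7 hε.le
  have h7 : Real.log n ≤ (n : ℝ) ^ (b / 2) := by
    have h8 : 0 ≤ (1 / ε) * Real.log n := by positivity
    nlinarith
  have h8 : (Real.log n) ^ 2 ≤ ε * ((n : ℝ) ^ (b / 2) * (n : ℝ) ^ (b / 2)) := by
    calc (Real.log n) ^ 2 = Real.log n * Real.log n := sq _
      _ ≤ (ε * (n : ℝ) ^ (b / 2)) * (n : ℝ) ^ (b / 2) :=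
          mul_le_mul h6 h7 (by linarith) (by positivity)
      _ = ε * ((n : ℝ) ^ (b / 2) * (n : ℝ) ^ (b / 2)) := by ring
  calc (n : ℝ) ^ (1 - b) * (Real.log n) ^ 2
      ≤ (n : ℝ) ^ (1 - b) * (ε * ((n : ℝ) ^ (b / 2) * (n : ℝ) ^ (b / 2))) :=
        mul_le_mul_of_nonneg_left h8 h4.le
    _ = ε * ((n : ℝ) ^ (1 - b) * ((n : ℝ) ^ (b / 2) * (n : ℝ) ^ (b / 2))) := by ring
    _ = ε * n := by rw [h3]

theorem Large.card_ge {ε : ℝ} (hε : 0 < ε) {n X : ℕ} {A : Finset ℕ} (h : Large ε n X A)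
    (hlog : 1 ≤ Real.log n) : ε * n / (Real.log n) ^ 2 ≤ A.card := by
  have hl : 0 < Real.log n := by linarith
  rcases h.2 with ⟨_, _, h3⟩ | ⟨_, _, h3⟩
  · refine le_trans ?_ h3
    apply div_le_div_of_nonneg_right _ (by positivity)
    have := SH_ge_one X
    have h5 : ε * 1 ≤ ε * SH X := mul_le_mul_of_nonneg_left this hε.le
    have h6 : (0 : ℝ) ≤ n := Nat.cast_nonneg n
    nlinarith
  · refine le_trans ?_ h3
    apply div_le_div_of_nonneg_left (by positivity) hl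
    nlinarith

theorem Large.filter {ε : ℝ} (hε : 0 < ε) {n X : ℕ} {A : Finset ℕ} (h : Large ε n X A)
    (hlog : 1 ≤ Real.log n) {A' : Finset ℕ} (hA : A' ⊆ A)
    (hc : (A.card : ℝ) - ε / 2 * n / (Real.log n) ^ 2 ≤ A'.card) : Large (ε / 2) n X A' := by
  have hl : 0 < Real.log n := by linarith
  have hn : (0 : ℝ) ≤ n := Nat.cast_nonneg n
  refine ⟨hA.trans h.1, ?_⟩
  rcases h.2 with ⟨h1, h2, h3⟩ | ⟨h1, h2, h3⟩
  · refine Or.inl ⟨h1, fun y hy => h2 y (hA hy), ?_⟩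
    have h5 := SH_ge_one X
    have h6 : ε / 2 * n / (Real.log n) ^ 2 ≤ ε / 2 * SH X * n / (Real.log n) ^ 2 := by
      apply div_le_div_of_nonneg_right _ (by positivity)
      have h7 : ε / 2 * 1 ≤ ε / 2 * SH X := mul_le_mul_of_nonneg_left h5 (by positivity)
      nlinarith
    have h8 : ε * SH X * n / Real.log n ^ 2 = 2 * (ε / 2 * SH X * n / (Real.log n) ^ 2) := by ring
    rw [h8] at h3
    linarith
  · refine Or.inr ⟨h1, fun y hy => h2 y (hA hy), ?_⟩
    have h6 : ε / 2 * n / (Real.log n) ^ 2 ≤ ε / 2 * n / Real.log n := by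
      apply div_le_div_of_nonneg_left (by positivity) hl
      nlinarith
    have h8 : ε * n / Real.log n = 2 * (ε / 2 * n / Real.log n) := by ring
    rw [h8] at h3
    linarith

/-- Assembly for one graph. -/
theorem cluster_aux {ε b : ℝ} (hε : 0 < ε) {n : ℕ} (hlog : 1 ≤ Real.log n)
    (hsm : (n : ℝ) ^ (1 - b) ≤ ε / 2 * n / (Real.log n) ^ 2)
    (h1 : ∀ X : ℕ, X ≤ n →
      ∃ A : Finset ℕ, Large ε n X A ∧ ∀ y ∈ A, X ≠ y ∧
        ((IsOddPrime (X + y) ∧ IsOddAlmostPrime (Nat.dist X y)) ∨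
          (IsOddAlmostPrime (X + y) ∧ IsOddPrime (Nat.dist X y))))
    (h2 : ∀ (X X' : ℕ) (A A' : Finset ℕ), X ≤ n → X' ≤ n → Large (ε / 2) n X A →
      Large (ε / 2) n X' A' → ∃ y ∈ A, ∃ y' ∈ A', (HG n).edist y y' ≤ 5)
    {V S : Set ℕ} (hV : ∀ a ∈ V, Even a ∧ a ≤ 2 * n) (hV2 : ∀ x ∈ Finset.Icc 1 n, 2 * x ∈ V)
    (hS : ∀ m, m.Prime → Odd m → m < 2 * n → m ∈ S) {K : Set V}
    (core : ∀ u ∈ K, ∀ v ∈ K, (halfGraph V S).edist u v ≤ 7)
    (most : ({u : V | ¬ ∃ z ∈ K, (halfGraph V S).edist u z ≤ 1}.ncard : ℝ) ≤ (n : ℝ) ^ (1 - b)) :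
    ChenCluster (halfGraph V S) b ε n K := by
  classical
  have hVfin : V.Finite := (Set.finite_Iic (2 * n)).subset fun a ha => (hV a ha).2
  have : Finite V := hVfin.to_subtype
  set G := halfGraph V S with hG
  set near : V → Prop := fun u => ∃ z ∈ K, G.edist u z ≤ 1 with hnear
  have hchen : ∀ (Z z : ℕ) (hZ : 2 * Z ∈ V) (hz : 2 * z ∈ V), Z ≠ z →
      ((IsOddPrime (Z + z) ∧ IsOddAlmostPrime (Nat.dist Z z)) ∨
        (IsOddAlmostPrime (Z + z) ∧ IsOddPrime (Nat.dist Z z))) →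
      (chenGraph V).Adj ⟨2 * Z, hZ⟩ ⟨2 * z, hz⟩ := by
    intro Z z hZ hz hne h
    refine ⟨fun h0 => hne ?_, ?_⟩
    · have := congrArg (fun v : V => (v : ℕ)) h0
      simp only at this
      omega
    · have e1 : (2 * Z + 2 * z) / 2 = Z + z := by omega
      have e2 : (((2 * Z : ℕ) : ℤ) - ((2 * z : ℕ) : ℤ)).natAbs / 2 = Nat.dist Z z := by
        unfold Nat.dist; omega
      simp only
      rw [e1, e2]
      exact h
  -- the Chen neighbours near `K`
  have key : ∀ X : ℕ, X ≤ n → ∀ hX : 2 * X ∈ V, ∃ A : Finset ℕ, Large (ε / 2) n X A ∧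
      ∀ y ∈ A, ∃ hy : 2 * y ∈ V, (chenGraph V).Adj ⟨2 * X, hX⟩ ⟨2 * y, hy⟩ ∧ near ⟨2 * y, hy⟩ := by
    intro X hXn hX
    obtain ⟨A, hA, hAy⟩ := h1 X hXn
    refine ⟨A.filter (fun y => ∃ hy : 2 * y ∈ V, near ⟨2 * y, hy⟩),
      hA.filter hε hlog (filter_subset _ _) ?_, ?_⟩
    · have hcard : (A.filter (fun y => ¬ ∃ hy : 2 * y ∈ V, near ⟨2 * y, hy⟩)).card ≤
          {u : V | ¬ ∃ z ∈ K, G.edist u z ≤ 1}.ncard := by
        rw [← Set.ncard_coe_finset]
        refine Set.ncard_le_ncard_of_injOn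
          (fun y : ℕ => if h : 2 * y ∈ V then (⟨2 * y, h⟩ : V) else ⟨2 * X, hX⟩) ?_ ?_ (Set.toFinite _)
        · intro y hy
          rw [Finset.mem_coe, mem_filter] at hy
          have hyV : 2 * y ∈ V := hV2 y (hA.1 hy.1)
          simp only [dif_pos hyV]
          intro h0
          exact hy.2 ⟨hyV, h0⟩
        · intro y hy y' hy' he
          rw [Finset.mem_coe, mem_filter] at hy hy'
          have hyV : 2 * y ∈ V := hV2 y (hA.1 hy.1)
          have hyV' : 2 * y' ∈ V := hV2 y' (hA.1 hy'.1)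
          simp only [dif_pos hyV, dif_pos hyV'] at he
          have := congrArg (fun v : V => (v : ℕ)) he
          simp only at this
          omega
      have hsum := Finset.card_filter_add_card_filter_not (s := A)
        (fun y => ∃ hy : 2 * y ∈ V, near ⟨2 * y, hy⟩)
      have hsumR : ((A.filter (fun y => ∃ hy : 2 * y ∈ V, near ⟨2 * y, hy⟩)).card : ℝ) +
          ((A.filter (fun y => ¬ ∃ hy : 2 * y ∈ V, near ⟨2 * y, hy⟩)).card : ℝ) = A.card := by
        exact_mod_cast hsum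
      have hcardR : ((A.filter (fun y => ¬ ∃ hy : 2 * y ∈ V, near ⟨2 * y, hy⟩)).card : ℝ) ≤
          (n : ℝ) ^ (1 - b) := le_trans (by exact_mod_cast hcard) most
      linarith
    · intro y hy
      rw [mem_filter] at hy
      obtain ⟨hyA, hyV, hyn⟩ := hy
      exact ⟨hyV, hchen X y hX hyV (hAy y hyA).1 (hAy y hyA).2, hyn⟩
  have hform : ∀ u : V, ∃ X : ℕ, X ≤ n ∧ ∃ hX : 2 * X ∈ V, u = ⟨2 * X, hX⟩ := by
    rintro ⟨a, ha⟩
    obtain ⟨⟨X, hX⟩, han⟩ := hV a ha
    have hax : a = 2 * X := by omega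
    subst hax
    exact ⟨X, by omega, ha, rfl⟩
  -- one Chen neighbour near `K`
  have hone : ∀ u : V, ∃ u' : V, (chenGraph V).Adj u u' ∧ near u' := by
    intro u
    obtain ⟨X, hXn, hX, rfl⟩ := hform u
    obtain ⟨A, hA, hAy⟩ := key X hXn hX
    obtain ⟨y, hy, _, _, _⟩ := h2 X X A A hXn hXn hA hA
    obtain ⟨hyV, h3, h4⟩ := hAy y hy
    exact ⟨_, h3, h4⟩
  choose g hg1 hg2 using hone
  have hpair : ∀ u v : V, ∃ u' v' : V, (chenGraph V).Adj u u' ∧ (∃ z ∈ K, G.edist u' z ≤ 1) ∧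
      G.edist u' v' ≤ 5 ∧ (∃ z ∈ K, G.edist v' z ≤ 1) ∧ (chenGraph V).Adj v' v := by
    intro u v
    obtain ⟨X, hXn, hX, rfl⟩ := hform u
    obtain ⟨X', hXn', hX', rfl⟩ := hform v
    obtain ⟨A, hA, hAy⟩ := key X hXn hX
    obtain ⟨A', hA', hAy'⟩ := key X' hXn' hX'
    obtain ⟨y, hy, y', hy', he⟩ := h2 X X' A A' hXn hXn' hA hA'
    obtain ⟨hyV, h3, h4⟩ := hAy y hy
    obtain ⟨hyV', h3', h4'⟩ := hAy' y' hy'
    exact ⟨_, _, h3, h4, edist_transfer hV2 hS (hA.1 hy) (hA'.1 hy') (k := 5) he, h4', h3'.symm⟩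
  refine ⟨core, most, ?_, hpair, ?_, ?_⟩
  · intro u
    obtain ⟨X, hXn, hX, rfl⟩ := hform u
    obtain ⟨A, hA, hAy⟩ := h1 X hXn
    refine (hA.card_ge hε hlog).trans ?_
    have hcard : A.card ≤ ((chenGraph V).neighborSet ⟨2 * X, hX⟩).ncard := by
      rw [← Set.ncard_coe_finset]
      refine Set.ncard_le_ncard_of_injOn
        (fun y : ℕ => if h : 2 * y ∈ V then (⟨2 * y, h⟩ : V) else ⟨2 * X, hX⟩) ?_ ?_ (Set.toFinite _)
      · intro y hy
        rw [Finset.mem_coe] at hy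
        have hyV : 2 * y ∈ V := hV2 y (hA.1 hy)
        simp only [dif_pos hyV]
        exact hchen X y hX hyV (hAy y hy).1 (hAy y hy).2
      · intro y hy y' hy' he
        rw [Finset.mem_coe] at hy hy'
        have hyV : 2 * y ∈ V := hV2 y (hA.1 hy)
        have hyV' : 2 * y' ∈ V := hV2 y' (hA.1 hy')
        simp only [dif_pos hyV, dif_pos hyV'] at he
        have := congrArg (fun v : V => (v : ℕ)) he
        simp only at this
        omega
    exact_mod_cast hcard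
  · intro u v
    obtain ⟨u', v', h3, -, h5, -, h4⟩ := hpair u v
    have k1 : (G ⊔ chenGraph V).edist u u' ≤ 1 := by
      refine (SimpleGraph.edist_le (.cons ((le_sup_right : chenGraph V ≤ G ⊔ chenGraph V) h3)
        .nil)).trans ?_
      norm_num
    have k2 : (G ⊔ chenGraph V).edist v' v ≤ 1 := by
      refine (SimpleGraph.edist_le (.cons ((le_sup_right : chenGraph V ≤ G ⊔ chenGraph V) h4)
        .nil)).trans ?_
      norm_num
    have k3 : (G ⊔ chenGraph V).edist u' v' ≤ 5 :=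
      (SimpleGraph.edist_anti (le_sup_left : G ≤ G ⊔ chenGraph V)).trans h5
    calc (G ⊔ chenGraph V).edist u v
        ≤ (G ⊔ chenGraph V).edist u v' + (G ⊔ chenGraph V).edist v' v := SimpleGraph.edist_triangle
      _ ≤ ((G ⊔ chenGraph V).edist u u' + (G ⊔ chenGraph V).edist u' v') +
            (G ⊔ chenGraph V).edist v' v := add_le_add_left SimpleGraph.edist_triangle _
      _ ≤ (1 + 5) + 1 := add_le_add (add_le_add k1 k3) k2
      _ = 7 := by norm_num
  · set B : Set V := {u : V | ¬ ∃ z ∈ K, G.edist u z ≤ 1} with hB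
    refine ⟨SimpleGraph.fromEdgeSet ((fun u => s(u, g u)) '' B), ?_, ?_, ?_⟩
    · intro x y hxy
      rw [SimpleGraph.fromEdgeSet_adj] at hxy
      obtain ⟨⟨u, hu, he⟩, hne⟩ := hxy
      rw [Sym2.eq_iff] at he
      rcases he with ⟨rfl, rfl⟩ | ⟨rfl, rfl⟩
      · exact hg1 _
      · exact (hg1 _).symm
    · have h3 : (SimpleGraph.fromEdgeSet ((fun u => s(u, g u)) '' B)).edgeSet.ncard ≤ B.ncard := by
        refine le_trans (Set.ncard_le_ncard (t := (fun u => s(u, g u)) '' B) ?_ (Set.toFinite _))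
          (Set.ncard_image_le (Set.toFinite _))
        rw [SimpleGraph.edgeSet_fromEdgeSet]
        exact Set.sdiff_subset
      refine le_trans ?_ most
      exact_mod_cast h3
    · set F := SimpleGraph.fromEdgeSet ((fun u => s(u, g u)) '' B) with hF
      have hGH : G ≤ G ⊔ F := le_sup_left
      have hnear2 : ∀ u : V, ∃ z ∈ K, (G ⊔ F).edist u z ≤ 2 := by
        intro u
        by_cases hu : near u
        · obtain ⟨z, hz, h3⟩ := hu
          refine ⟨z, hz, (SimpleGraph.edist_anti hGH).trans (h3.trans ?_)⟩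
          norm_num
        · obtain ⟨z, hz, h3⟩ := hg2 u
          have hadj : (G ⊔ F).Adj u (g u) := by
            refine Or.inr ?_
            rw [hF, SimpleGraph.fromEdgeSet_adj]
            exact ⟨⟨u, hu, rfl⟩, (hg1 u).ne⟩
          refine ⟨z, hz, ?_⟩
          have k1 : (G ⊔ F).edist u (g u) ≤ 1 := by
            refine (SimpleGraph.edist_le (.cons hadj .nil)).trans ?_
            norm_num
          calc (G ⊔ F).edist u z ≤ (G ⊔ F).edist u (g u) + (G ⊔ F).edist (g u) z :=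
                SimpleGraph.edist_triangle
            _ ≤ 1 + 1 := add_le_add k1 ((SimpleGraph.edist_anti hGH).trans h3)
            _ = 2 := by norm_num
      intro u v
      obtain ⟨z, hz, h3⟩ := hnear2 u
      obtain ⟨w, hw, h4⟩ := hnear2 v
      rw [SimpleGraph.edist_comm] at h4
      calc (G ⊔ F).edist u v ≤ (G ⊔ F).edist u w + (G ⊔ F).edist w v := SimpleGraph.edist_triangle
        _ ≤ ((G ⊔ F).edist u z + (G ⊔ F).edist z w) + (G ⊔ F).edist w v :=
            add_le_add_left SimpleGraph.edist_triangle _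
        _ ≤ (2 + 7) + 2 :=
            add_le_add (add_le_add h3 ((SimpleGraph.edist_anti hGH).trans (core z hz w hw))) h4
        _ = 11 := by norm_num

/-- **Chen edges and the cluster, both families.** -/
theorem cluster_main : ∃ δ c : ℝ, 0 < δ ∧ 0 < c ∧ ∀ b : ℝ, 0 < b → b < δ →
    ∃ n0 : ℕ, ∀ n : ℕ, n0 ≤ n →
      (∃ K, ChenCluster (goldbachGraph n) b c n K) ∧
      ∃ K, ChenCluster (nearGoldbachGraph n) b c n K := by
  obtain ⟨δ, hδ, hrich⟩ := Pool.Agent.Lib.H18Q.rich_pow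
  obtain ⟨ε, hε, n1, h1⟩ := fin_large
  obtain ⟨n2, h2⟩ := chen_graph (ε / 2) (by linarith)
  refine ⟨δ, ε, hδ, hε, fun b hb hbδ => ?_⟩
  obtain ⟨n3, h3⟩ := cl_ev (ε / 2) b (by linarith) hb
  obtain ⟨E, n4, x0, -, -, h4, -⟩ := hrich (b / 2) b (by linarith) (by linarith) hbδ
  refine ⟨max (max n1 n2) (max n3 n4), fun n hn => ?_⟩
  have hn1 : n1 ≤ n := ((le_max_left _ _).trans (le_max_left _ _)).trans hn
  have hn2 : n2 ≤ n := ((le_max_right _ _).trans (le_max_left _ _)).trans hn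
  have hn3 : n3 ≤ n := ((le_max_left _ _).trans (le_max_right _ _)).trans hn
  have hn4 : n4 ≤ n := ((le_max_right _ _).trans (le_max_right _ _)).trans hn
  obtain ⟨hlog, hsm⟩ := h3 n hn3
  obtain ⟨⟨K, hK, -⟩, ⟨K', hK'⟩⟩ := h4 n hn4
  refine ⟨⟨K, ?_⟩, ⟨K', ?_⟩⟩
  · exact cluster_aux hε hlog hsm (h1 n hn1) (h2 n hn2) (V := goldbachVertices n)
      (S := {p | p.Prime ∧ Odd p ∧ p < 2 * n})
      (fun a ha => ha)
      (fun x hx => by
        rw [Finset.mem_Icc] at hx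
        exact ⟨even_two_mul x, by omega⟩)
      (fun m h1 h2 h3 => ⟨h1, h2, h3⟩) hK.core hK.most
  · exact cluster_aux hε hlog hsm (h1 n hn1) (h2 n hn2) (V := evenVertices n)
      (S := {1} ∪ {p | p.Prime ∧ Odd p ∧ p < 2 * n})
      (fun a ha => ⟨ha.1, ha.2.2⟩)
      (fun x hx => by
        rw [Finset.mem_Icc] at hx
        exact ⟨even_two_mul x, by omega, by omega⟩)
      (fun m h1 h2 h3 => Or.inr ⟨h1, h2, h3⟩) hK'.core hK'.most

end Pool.Agent.Lib.H18C
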