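import Pool.Agent.Lib.H1M.RV.M111

/-!
# Project H18P (MP_443e5f_co): the final statement for both families of graphs
-/

open Finset Pool.Agent.Lib.H18GB Pool.Agent.Lib.GoldbachGraph Pool.Agent.Lib.H18E Pool.Agent.Goldbach

namespace Pool.Agent.Lib.H18P

/-- The number of representations of `u` as an ordered sum of two primes. -/
def reps (u : ℕ) : ℕ := ((range (u + 1)).filter (fun p => p.Prime ∧ (u - p).Prime)).card

theorem reps_le (x : ℕ) :
    reps (2 * x) ≤ 2 * ((Icc 1 (x - 1)).filter (fun Y => hadj x Y)).card + 3 := by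
  classical
  set D := (Icc 1 (x - 1)).filter (fun Y => hadj x Y) with hD
  have hsub : (range (2 * x + 1)).filter (fun p => p.Prime ∧ (2 * x - p).Prime) ⊆
      (D.image (fun Y => x - Y) ∪ D.image (fun Y => x + Y)) ∪ {x, 2, 2 * x - 2} := by
    intro p hp
    rw [mem_filter, mem_range] at hp
    obtain ⟨hp1, hp2, hp3⟩ := hp
    have hp2' := hp2.two_le
    have hp3' := hp3.two_le
    rw [mem_union, mem_union, mem_image, mem_image, mem_insert, mem_insert, mem_singleton]
    by_cases h1 : p = x
    · right; left; exact h1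
    by_cases h2 : p = 2
    · right; right; left; exact h2
    by_cases h3 : 2 * x - p = 2
    · right; right; right; omega
    have ho : Odd p := hp2.odd_of_ne_two h2
    have ho' : Odd (2 * x - p) := hp3.odd_of_ne_two h3
    left
    rcases lt_or_gt_of_ne h1 with h | h
    · left
      refine ⟨x - p, ?_, by omega⟩
      rw [hD, mem_filter, mem_Icc]
      have e1 : x + (x - p) = 2 * x - p := by omega
      have e2 : Nat.dist x (x - p) = p := by unfold Nat.dist; omega
      refine ⟨⟨by omega, by omega⟩, ?_, ?_, ?_, ?_⟩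
      · rw [e1]; exact hp3
      · rw [e1]; exact ho'
      · rw [e2]; exact hp2
      · rw [e2]; exact ho
    · right
      refine ⟨p - x, ?_, by omega⟩
      rw [hD, mem_filter, mem_Icc]
      have e1 : x + (p - x) = p := by omega
      have e2 : Nat.dist x (p - x) = 2 * x - p := by unfold Nat.dist; omega
      refine ⟨⟨by omega, by omega⟩, ?_, ?_, ?_, ?_⟩
      · rw [e1]; exact hp2
      · rw [e1]; exact ho
      · rw [e2]; exact hp3
      · rw [e2]; exact ho'
  have h1 := card_le_card hsub
  have h2 := card_union_le (D.image (fun Y => x - Y) ∪ D.image (fun Y => x + Y)) {x, 2, 2 * x - 2}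
  have h3 := card_union_le (D.image (fun Y => x - Y)) (D.image (fun Y => x + Y))
  have h4 : (D.image (fun Y => x - Y)).card ≤ D.card := card_image_le
  have h5 : (D.image (fun Y => x + Y)).card ≤ D.card := card_image_le
  have h6 : ({x, 2, 2 * x - 2} : Finset ℕ).card ≤ 3 := card_le_three
  unfold reps
  omega

theorem le_reps (x : ℕ) : ((Icc 1 (x - 1)).filter (fun Y => hadj x Y)).card ≤ reps (2 * x) := by
  classical
  unfold reps
  refine card_le_card_of_injOn (fun Y => x - Y) ?_ ?_
  · intro Y hY
    rw [mem_coe, mem_filter, mem_Icc] at hY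
    obtain ⟨⟨h1, h2⟩, h3, h4, h5, h6⟩ := hY
    have e1 : Nat.dist x Y = x - Y := by unfold Nat.dist; omega
    rw [e1] at h5
    have e2 : 2 * x - (x - Y) = x + Y := by omega
    have e3 : x - Y ∈ (range (2 * x + 1)).filter (fun p => p.Prime ∧ (2 * x - p).Prime) := by
      rw [mem_filter, mem_range, e2]
      exact ⟨by omega, h5, h3⟩
    exact e3
  · intro Y hY Y' hY' h
    rw [mem_coe, mem_filter, mem_Icc] at hY hY'
    simp only at h
    omega



end Pool.Agent.Lib.H18P
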