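import Mathlib

/-! Merged copies (to shorten the build) of Lib.H18E.BC, Lib.H18Q.S4, Lib.H18Q.T1, Lib.H18Q.T2, Lib.H18Q.T3, Lib.H18E.CL, Lib.H18E.CO, Lib.H18Q.Z7, Lib.H18Q.CB, Lib.H59C.CTN, Lib.H59C.SW3, Lib.H18Q.PB1, Lib.H18Q.PG1. -/

-- from Lib.H18E.BC
section

/-!
# Chunk BC: the counting argument for the exceptional vertices
-/

open Finset

namespace Pool.Agent.Lib.H18E

/-- The abstract counting argument: each bad `x ∈ P` gives at least `h` pairs `(s,t)` with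
`e s t > θ`, and these pairs are different for different `(x, j)`. -/
theorem bad_count (I : Finset ℕ) (e : ℕ → ℕ → ℝ) (V θ : ℝ) (hθ : 0 < θ)
    (he : ∑ s ∈ I, ∑ t ∈ I, (e s t) ^ 2 ≤ V) (P : Finset ℕ) (J : ℕ → Finset ℕ) (h : ℕ)
    (hJ : ∀ x ∈ P, h ≤ (J x).card) (f g : ℕ → ℕ → ℕ)
    (hI : ∀ x ∈ P, ∀ j ∈ J x, f x j ∈ I ∧ g x j ∈ I)
    (hinj : ∀ x ∈ P, ∀ j ∈ J x, ∀ x' ∈ P, ∀ j' ∈ J x', f x j = f x' j' → g x j = g x' j' →
      x = x' ∧ j = j')
    (hbad : ∀ x ∈ P, ∀ j ∈ J x, θ < e (f x j) (g x j)) :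
    (P.card : ℝ) * h * θ ^ 2 ≤ V := by
  classical
  refine le_trans ?_ he
  rw [← sum_product']
  have h1 : ∑ q ∈ (P.sigma J), (e (f q.1 q.2) (g q.1 q.2)) ^ 2 ≤
      ∑ q ∈ I ×ˢ I, (e q.1 q.2) ^ 2 := by
    have h2 : ∑ q ∈ (P.sigma J), (e (f q.1 q.2) (g q.1 q.2)) ^ 2 =
        ∑ q ∈ (P.sigma J).image (fun q => (f q.1 q.2, g q.1 q.2)), (e q.1 q.2) ^ 2 := by
      rw [sum_image]
      rintro ⟨x, j⟩ hx ⟨x', j'⟩ hx' heq
      have hx1 := mem_sigma.1 (mem_coe.1 hx)
      have hx2 := mem_sigma.1 (mem_coe.1 hx')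
      simp only at hx1 hx2
      have heq' := Prod.mk.inj heq
      obtain ⟨ha, hb⟩ := hinj x hx1.1 j hx1.2 x' hx2.1 j' hx2.2 heq'.1 heq'.2
      subst ha; subst hb; rfl
    rw [h2]
    refine sum_le_sum_of_subset_of_nonneg ?_ (fun q _ _ => sq_nonneg _)
    intro q hq
    obtain ⟨⟨x, j⟩, hx, rfl⟩ := mem_image.1 hq
    have hx1 := mem_sigma.1 hx
    exact mem_product.2 (hI x hx1.1 j hx1.2)
  refine le_trans ?_ h1
  have h3 : ∑ q ∈ (P.sigma J), θ ^ 2 ≤ ∑ q ∈ (P.sigma J), (e (f q.1 q.2) (g q.1 q.2)) ^ 2 := by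
    refine sum_le_sum ?_
    rintro ⟨x, j⟩ hx
    have hx1 := mem_sigma.1 hx
    exact pow_le_pow_left₀ hθ.le (hbad x hx1.1 j hx1.2).le 2
  refine le_trans ?_ h3
  rw [sum_const, nsmul_eq_mul, card_sigma]
  have h4 : P.card * h ≤ ∑ x ∈ P, (J x).card := by
    rw [← smul_eq_mul, ← sum_const]
    exact sum_le_sum hJ
  have h5 : (P.card : ℝ) * h ≤ ((∑ x ∈ P, (J x).card : ℕ) : ℝ) := by exact_mod_cast h4
  exact mul_le_mul_of_nonneg_right h5 (by positivity)

end Pool.Agent.Lib.H18E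
end

-- from Lib.H18Q.S4
section

/-!
# Project H18Q, chunk S4: the Gaussian identity for Dirichlet polynomials
-/

open Finset

namespace Pool.Agent.Lib.H18Q

theorem S4_sq {ι : Type*} (s : Finset ι) (f : ι → ℂ) :
    ((‖∑ i ∈ s, f i‖ ^ 2 : ℝ) : ℂ) = ∑ i ∈ s, ∑ j ∈ s, f i * (starRingEnd ℂ) (f j) := by
  rw [← Complex.normSq_eq_norm_sq, ← Complex.mul_conj, map_sum, sum_mul_sum]

/-- The terms of the left side. -/
theorem S4_left {ι : Type*} (s : Finset ι) (a : ι → ℝ) (b : ι → ℂ) (T : ℝ) (v : ℝ) :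
    ((Real.exp (-(v ^ 2 / T ^ 2)) * ‖∑ i ∈ s, b i * Complex.exp (-(v * a i * Complex.I))‖ ^ 2 : ℝ) : ℂ) =
      ∑ i ∈ s, ∑ j ∈ s, b i * (starRingEnd ℂ) (b j) *
        Complex.exp (-(1 / (T : ℂ) ^ 2) * (v : ℂ) ^ 2 + (-(((a i - a j : ℝ)) : ℂ) * Complex.I) * v + 0) := by
  rw [Complex.ofReal_mul, S4_sq, mul_sum]
  refine sum_congr rfl fun i _ => ?_
  rw [mul_sum]
  refine sum_congr rfl fun j _ => ?_
  have h1 : (starRingEnd ℂ) (b j * Complex.exp (-(v * a j * Complex.I))) =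
      (starRingEnd ℂ) (b j) * Complex.exp (v * a j * Complex.I) := by
    rw [map_mul, ← Complex.exp_conj]
    congr 2
    simp
  rw [h1, Complex.ofReal_exp]
  have h2 : Complex.exp (-(1 / (T : ℂ) ^ 2) * (v : ℂ) ^ 2 + (-(((a i - a j : ℝ)) : ℂ) * Complex.I) * v + 0) =
      Complex.exp (((-(v ^ 2 / T ^ 2) : ℝ)) : ℂ) * Complex.exp (-(v * a i * Complex.I)) * Complex.exp (v * a j * Complex.I) := by
    rw [← Complex.exp_add, ← Complex.exp_add]
    congr 1
    push_cast
    ring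
  rw [h2]
  ring

/-- The terms of the right side. -/
theorem S4_right {ι : Type*} (s : Finset ι) (a : ι → ℝ) (b : ι → ℂ) (T : ℝ) (y : ℝ) :
    ((‖∑ i ∈ s, b i * Real.exp (-(T ^ 2 * (y - a i) ^ 2 / 2))‖ ^ 2 : ℝ) : ℂ) =
      ∑ i ∈ s, ∑ j ∈ s, b i * (starRingEnd ℂ) (b j) *
        Complex.exp (-(T : ℂ) ^ 2 * (y : ℂ) ^ 2 + ((T : ℂ) ^ 2 * (a i + a j)) * y +
          -((T : ℂ) ^ 2 * ((a i : ℂ) ^ 2 + (a j : ℂ) ^ 2) / 2)) := by
  rw [S4_sq]
  refine sum_congr rfl fun i _ => sum_congr rfl fun j _ => ?_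
  have h1 : (starRingEnd ℂ) (b j * Real.exp (-(T ^ 2 * (y - a j) ^ 2 / 2))) =
      (starRingEnd ℂ) (b j) * Real.exp (-(T ^ 2 * (y - a j) ^ 2 / 2)) := by
    rw [map_mul, Complex.conj_ofReal]
  rw [h1, Complex.ofReal_exp, Complex.ofReal_exp]
  have h2 : Complex.exp (-(T : ℂ) ^ 2 * (y : ℂ) ^ 2 + ((T : ℂ) ^ 2 * (a i + a j)) * y +
          -((T : ℂ) ^ 2 * ((a i : ℂ) ^ 2 + (a j : ℂ) ^ 2) / 2)) =
      Complex.exp (((-(T ^ 2 * (y - a i) ^ 2 / 2) : ℝ)) : ℂ) * Complex.exp (((-(T ^ 2 * (y - a j) ^ 2 / 2) : ℝ)) : ℂ) := by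
    rw [← Complex.exp_add]
    congr 1
    push_cast
    ring
  rw [h2]
  ring

theorem S4_b1 {T : ℝ} (hT : 0 < T) : (-(1 / (T : ℂ) ^ 2)).re < 0 := by
  have h : -(1 / (T : ℂ) ^ 2) = ((-(1 / T ^ 2) : ℝ) : ℂ) := by push_cast; rfl
  rw [h, Complex.ofReal_re, neg_lt_zero]
  positivity

theorem S4_b2 {T : ℝ} (hT : 0 < T) : (-(T : ℂ) ^ 2).re < 0 := by
  have h : -(T : ℂ) ^ 2 = ((-(T ^ 2) : ℝ) : ℂ) := by push_cast; rfl
  rw [h, Complex.ofReal_re, neg_lt_zero]
  positivity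

/-- The constants. -/
theorem S4_const {T : ℝ} (hT : 0 < T) :
    ((Real.pi : ℂ) / -(-(1 / (T : ℂ) ^ 2))) ^ (1 / 2 : ℂ) = (T : ℂ) ^ 2 * ((Real.pi : ℂ) / -(-(T : ℂ) ^ 2)) ^ (1 / 2 : ℂ) := by
  have hT' : (T : ℂ) ≠ 0 := Complex.ofReal_ne_zero.2 hT.ne'
  have e1 : ((Real.pi : ℂ) / -(-(1 / (T : ℂ) ^ 2))) = ((Real.pi * T ^ 2 : ℝ) : ℂ) := by
    push_cast
    field_simp
  have e2 : ((Real.pi : ℂ) / -(-(T : ℂ) ^ 2)) = ((Real.pi / T ^ 2 : ℝ) : ℂ) := by
    push_cast
    rw [neg_neg]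
  have e3 : (1 / 2 : ℂ) = ((1 / 2 : ℝ) : ℂ) := by push_cast; rfl
  rw [e1, e2, e3, ← Complex.ofReal_cpow (by positivity), ← Complex.ofReal_cpow (by positivity), ← Complex.ofReal_pow,
    ← Complex.ofReal_mul]
  congr 1
  rw [← Real.sqrt_eq_rpow, ← Real.sqrt_eq_rpow, Real.sqrt_mul Real.pi_pos.le, Real.sqrt_div Real.pi_pos.le,
    Real.sqrt_sq hT.le]
  field_simp

/-- `∫ e^(-v²/T²) |∑ b_i e^(-i v a_i)|² dv = T² ∫ |∑ b_i e^(-T² (y - a_i)²/2)|² dy`.

Proof. Expand both sides as double sums over `i, j`. Left: `b_i conj b_j ∫ e^(-v²/T²)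
e^(-i v (a_i - a_j)) dv = b_i conj b_j √π T e^(-T² (a_i - a_j)²/4)` (Gaussian integral
`integral_cexp_quadratic` or `fourierIntegral_gaussian`). Right: `T² b_i conj b_j
∫ e^(-T² (y-a_i)²/2 - T² (y-a_j)²/2) dy`, and `(y-a)²/2 + (y-b)²/2 = (y - (a+b)/2)² + (a-b)²/4`, so
it is `T² b_i conj b_j e^(-T² (a_i-a_j)²/4) √π/T`. -/
theorem gauss_identity {ι : Type*} (s : Finset ι) (a : ι → ℝ) (b : ι → ℂ) (T : ℝ) (hT : 0 < T) :
    ∫ v : ℝ, Real.exp (-(v ^ 2 / T ^ 2)) * ‖∑ i ∈ s, b i * Complex.exp (-(v * a i * Complex.I))‖ ^ 2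
      = T ^ 2 * ∫ y : ℝ, ‖∑ i ∈ s, b i * Real.exp (-(T ^ 2 * (y - a i) ^ 2 / 2))‖ ^ 2 := by
  have hT' : (T : ℂ) ≠ 0 := Complex.ofReal_ne_zero.2 hT.ne'
  apply Complex.ofReal_injective
  rw [Complex.ofReal_mul, ← integral_complex_ofReal, ← integral_complex_ofReal]
  simp only [S4_left s a b T, S4_right s a b T]
  have i1 : ∀ i j, MeasureTheory.Integrable (fun v : ℝ => b i * (starRingEnd ℂ) (b j) *
        Complex.exp (-(1 / (T : ℂ) ^ 2) * (v : ℂ) ^ 2 + (-(((a i - a j : ℝ)) : ℂ) * Complex.I) * v + 0)) :=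
    fun i j => (integrable_cexp_quadratic' (S4_b1 hT) _ _).const_mul _
  have i2 : ∀ i j, MeasureTheory.Integrable (fun y : ℝ => b i * (starRingEnd ℂ) (b j) *
        Complex.exp (-(T : ℂ) ^ 2 * (y : ℂ) ^ 2 + ((T : ℂ) ^ 2 * (a i + a j)) * y +
          -((T : ℂ) ^ 2 * ((a i : ℂ) ^ 2 + (a j : ℂ) ^ 2) / 2))) :=
    fun i j => (integrable_cexp_quadratic' (S4_b2 hT) _ _).const_mul _
  rw [MeasureTheory.integral_finsetSum _ fun i _ => MeasureTheory.integrable_finsetSum _ fun j _ => i1 i j,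
    MeasureTheory.integral_finsetSum _ fun i _ => MeasureTheory.integrable_finsetSum _ fun j _ => i2 i j, mul_sum]
  refine sum_congr rfl fun i _ => ?_
  rw [MeasureTheory.integral_finsetSum _ fun j _ => i1 i j, MeasureTheory.integral_finsetSum _ fun j _ => i2 i j, mul_sum]
  refine sum_congr rfl fun j _ => ?_
  rw [MeasureTheory.integral_const_mul, MeasureTheory.integral_const_mul, integral_cexp_quadratic (S4_b1 hT),
    integral_cexp_quadratic (S4_b2 hT), S4_const hT]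
  have e : (0 : ℂ) - (-(((a i - a j : ℝ)) : ℂ) * Complex.I) ^ 2 / (4 * -(1 / (T : ℂ) ^ 2)) =
      -((T : ℂ) ^ 2 * ((a i : ℂ) ^ 2 + (a j : ℂ) ^ 2) / 2) - ((T : ℂ) ^ 2 * (a i + a j)) ^ 2 / (4 * -(T : ℂ) ^ 2) := by
    push_cast
    rw [neg_mul, neg_sq, mul_pow, Complex.I_sq]
    field_simp
    ring
  rw [e, Complex.ofReal_pow]
  ring

/-- Both integrands are integrable (continuous, dominated by Gaussians; the sum in the second
integrand is bounded and each term is a Gaussian). -/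
theorem gauss_integrable {ι : Type*} (s : Finset ι) (a : ι → ℝ) (b : ι → ℂ) (T : ℝ)
    (hT : 0 < T) :
    MeasureTheory.Integrable (fun v : ℝ => Real.exp (-(v ^ 2 / T ^ 2)) *
      ‖∑ i ∈ s, b i * Complex.exp (-(v * a i * Complex.I))‖ ^ 2) ∧
    MeasureTheory.Integrable (fun y : ℝ =>
      ‖∑ i ∈ s, b i * Real.exp (-(T ^ 2 * (y - a i) ^ 2 / 2))‖ ^ 2) := by
  have i1 : ∀ i j, MeasureTheory.Integrable (fun v : ℝ => b i * (starRingEnd ℂ) (b j) *
        Complex.exp (-(1 / (T : ℂ) ^ 2) * (v : ℂ) ^ 2 + (-(((a i - a j : ℝ)) : ℂ) * Complex.I) * v + 0)) :=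
    fun i j => (integrable_cexp_quadratic' (S4_b1 hT) _ _).const_mul _
  have i2 : ∀ i j, MeasureTheory.Integrable (fun y : ℝ => b i * (starRingEnd ℂ) (b j) *
        Complex.exp (-(T : ℂ) ^ 2 * (y : ℂ) ^ 2 + ((T : ℂ) ^ 2 * (a i + a j)) * y +
          -((T : ℂ) ^ 2 * ((a i : ℂ) ^ 2 + (a j : ℂ) ^ 2) / 2))) :=
    fun i j => (integrable_cexp_quadratic' (S4_b2 hT) _ _).const_mul _
  constructor
  · have h : MeasureTheory.Integrable (fun v : ℝ => (((Real.exp (-(v ^ 2 / T ^ 2)) *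
        ‖∑ i ∈ s, b i * Complex.exp (-(v * a i * Complex.I))‖ ^ 2 : ℝ)) : ℂ)) := by
      simp only [S4_left s a b T]
      exact MeasureTheory.integrable_finsetSum _ fun i _ => MeasureTheory.integrable_finsetSum _ fun j _ => i1 i j
    exact h.re
  · have h : MeasureTheory.Integrable (fun y : ℝ => (((‖∑ i ∈ s, b i * Real.exp (-(T ^ 2 * (y - a i) ^ 2 / 2))‖ ^ 2 : ℝ)) : ℂ)) := by
      simp only [S4_right s a b T]
      exact MeasureTheory.integrable_finsetSum _ fun i _ => MeasureTheory.integrable_finsetSum _ fun j _ => i2 i j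
    exact h.re

/-- Hence the integral over `[-T, T]`, where `e^(-v²/T²) ≥ e^(-1) ≥ 1/3`. -/
theorem gauss_interval {ι : Type*} (s : Finset ι) (a : ι → ℝ) (b : ι → ℂ) (T : ℝ) (hT : 0 < T) :
    ∫ v in (-T)..T, ‖∑ i ∈ s, b i * Complex.exp (-(v * a i * Complex.I))‖ ^ 2 ≤
      3 * T ^ 2 * ∫ y : ℝ, ‖∑ i ∈ s, b i * Real.exp (-(T ^ 2 * (y - a i) ^ 2 / 2))‖ ^ 2 := by
  have hint := (gauss_integrable s a b T hT).1
  have hab : -T ≤ T := by linarith
  rw [mul_assoc, ← gauss_identity s a b T hT]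
  have hcont : Continuous fun v : ℝ => ‖∑ i ∈ s, b i * Complex.exp (-(v * a i * Complex.I))‖ ^ 2 := by fun_prop
  calc ∫ v in (-T)..T, ‖∑ i ∈ s, b i * Complex.exp (-(v * a i * Complex.I))‖ ^ 2
      ≤ ∫ v in (-T)..T, 3 * (Real.exp (-(v ^ 2 / T ^ 2)) * ‖∑ i ∈ s, b i * Complex.exp (-(v * a i * Complex.I))‖ ^ 2) := by
        refine intervalIntegral.integral_mono_on hab (hcont.intervalIntegrable _ _)
          (hint.const_mul 3).intervalIntegrable fun v hv => ?_
        have h1 : v ^ 2 / T ^ 2 ≤ 1 := by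
          rw [div_le_one (by positivity)]
          exact sq_le_sq' hv.1 hv.2
        have h2 : (1 : ℝ) ≤ 3 * Real.exp (-(v ^ 2 / T ^ 2)) := by
          have h3 : Real.exp (-1) ≤ Real.exp (-(v ^ 2 / T ^ 2)) := Real.exp_le_exp.2 (by linarith)
          have h4 : Real.exp 1 < 3 := Real.exp_one_lt_three
          have h5 : 1 / 3 < Real.exp (-1) := by
            rw [Real.exp_neg, ← one_div]
            exact one_div_lt_one_div_of_lt (Real.exp_pos 1) h4
          linarith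
        rw [← mul_assoc]
        exact le_mul_of_one_le_left (by positivity) h2
    _ = ∫ v in Set.Ioc (-T) T, 3 * (Real.exp (-(v ^ 2 / T ^ 2)) * ‖∑ i ∈ s, b i * Complex.exp (-(v * a i * Complex.I))‖ ^ 2) :=
        intervalIntegral.integral_of_le hab
    _ ≤ ∫ v : ℝ, 3 * (Real.exp (-(v ^ 2 / T ^ 2)) * ‖∑ i ∈ s, b i * Complex.exp (-(v * a i * Complex.I))‖ ^ 2) :=
        MeasureTheory.setIntegral_le_integral (hint.const_mul 3) (Filter.Eventually.of_forall fun v => by positivity)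
    _ = _ := MeasureTheory.integral_const_mul _ _

end Pool.Agent.Lib.H18Q
end

-- from Lib.H18Q.T1
section

/-!
# Project H18Q, chunk T1: a product of distances is not small everywhere
-/

open Finset

namespace Pool.Agent.Lib.H18Q

/-- For real numbers `d i`, `i ∈ S`, some `t ∈ [1/2, 1]` has `∏ |t - d i| ≥ 16^(-#S)`.

Proof 1 (Lagrange). Let `n = #S ≥ 1` (`n = 0`: `t = 1`), `P = ∏ (X - C (d i))`, monic of degree
`n`, nodes `x_j = 1/2 + j/(2n)`, `j = 0, …, n`. Lagrange interpolation at the `n+1` nodes and the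
coefficient of `X^n` (`Lagrange.sum_basis`, or Mathlib's statement that the leading coefficient is
the divided difference) give `1 = ∑_j P(x_j) / ∏_{i ≠ j} (x_j - x_i)`, and
`∏_{i ≠ j} |x_j - x_i| = j! (n-j)! / (2n)^n`. If `|P(x_j)| < 16^(-n)` for all `j`, then
`1 < 16^(-n) (2n)^n ∑_j 1/(j! (n-j)!) = 16^(-n) (2n)^n 2^n / n! = (n^n / n!) 4^(-n) ≤ (e/4)^n < 1`
(`n^n ≤ e^n n!`, as `e^n = ∑ n^k/k!`), a contradiction.

Proof 2 (average of logarithms). `∫_{1/2}^{1} log |t - d| dt ≥ ∫_{-1/4}^{1/4} log |x| dx =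
-(1 + log 4)/2` for every real `d` (rearrangement), so the average over `[1/2, 1]` of
`∑ log |t - d i|` is at least `-n (1 + log 4) ≥ -n log 16`. Any proof is welcome. -/
theorem T1_far {ι : Type*} (S : Finset ι) (d : ι → ℝ) :
    ∃ t ∈ Set.Icc (1 / 2 : ℝ) 1, (1 / 16 : ℝ) ^ S.card ≤ ∏ i ∈ S, |t - d i| := by
  by_contra hcon
  push Not at hcon
  set n := S.card with hn
  have hq : ∀ u ∈ Set.Icc (-1 : ℝ) 1, |∏ i ∈ S, (4 * u + 12 - 16 * d i)| ≤ 1 := by
    intro u hu
    have h1 := hcon (3 / 4 + u / 4) ⟨by linarith [hu.1], by linarith [hu.2]⟩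
    have h2 : ∏ i ∈ S, (4 * u + 12 - 16 * d i) = 16 ^ n * ∏ i ∈ S, (3 / 4 + u / 4 - d i) := by
      rw [hn, ← Finset.prod_const, ← Finset.prod_mul_distrib]
      exact Finset.prod_congr rfl fun i _ => by ring
    rw [h2, abs_mul, Finset.abs_prod, abs_of_pos (by positivity : (0 : ℝ) < 16 ^ n)]
    have h3 : (16 : ℝ) ^ n * (1 / 16) ^ n = 1 := by
      rw [← mul_pow]
      norm_num
    nlinarith [mul_lt_mul_of_pos_left h1 (by positivity : (0 : ℝ) < 16 ^ n)]
  set P : Polynomial ℝ := ∏ i ∈ S, (Polynomial.C 4 * Polynomial.X + Polynomial.C (12 - 16 * d i)) with hP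
  have hdeg1 : ∀ i, (Polynomial.C (4 : ℝ) * Polynomial.X + Polynomial.C (12 - 16 * d i)).natDegree = 1 := by
    intro i
    exact Polynomial.natDegree_linear (by norm_num)
  have hlc1 : ∀ i, (Polynomial.C (4 : ℝ) * Polynomial.X + Polynomial.C (12 - 16 * d i)).leadingCoeff = 4 := by
    intro i
    exact Polynomial.leadingCoeff_linear (by norm_num)
  have hPlc : P.leadingCoeff = 4 ^ n := by
    rw [hP, Polynomial.leadingCoeff_prod, Finset.prod_congr rfl fun i _ => hlc1 i, Finset.prod_const]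
  have hPd : P.natDegree = n := by
    rw [hP, Polynomial.natDegree_prod _ _ fun i _ h0 => by
      have := hlc1 i
      rw [h0, Polynomial.leadingCoeff_zero] at this
      norm_num at this, Finset.sum_congr rfl fun i _ => hdeg1 i, Finset.sum_const]
    simp [hn]
  have hP0 : P ≠ 0 := by
    intro h0
    rw [h0, Polynomial.leadingCoeff_zero] at hPlc
    exact absurd hPlc.symm (by positivity)
  have heval : ∀ u, P.eval u = ∏ i ∈ S, (4 * u + 12 - 16 * d i) := by
    intro u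
    rw [hP, Polynomial.eval_prod]
    refine Finset.prod_congr rfl fun i _ => ?_
    simp
    ring
  have hdegree : P.degree = n := by
    rw [Polynomial.degree_eq_natDegree hP0, hPd]
  rcases Nat.eq_zero_or_pos n with h0 | h0
  · have h1 := hcon 1 ⟨by norm_num, le_refl _⟩
    rw [h0, pow_zero] at h1
    have h2 : S = ∅ := Finset.card_eq_zero.1 (hn.symm.trans h0)
    rw [h2, Finset.prod_empty] at h1
    exact lt_irrefl _ h1
  · have h1 := Polynomial.Chebyshev.leadingCoeff_le_of_forall_abs_le_one (P := P) (n := n) (by rw [hdegree])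
      (fun u hu => by rw [heval]; exact hq u hu)
    rw [hPlc] at h1
    have h2 : (2 : ℝ) ^ (n - 1) < 4 ^ n := by
      calc (2 : ℝ) ^ (n - 1) ≤ 2 ^ n := pow_le_pow_right₀ (by norm_num) (by omega)
        _ < 4 ^ n := pow_lt_pow_left₀ (by norm_num) (by norm_num) (by omega)
    linarith

end Pool.Agent.Lib.H18Q
end

-- from Lib.H18Q.T2
section

/-!
# Project H18Q, chunk T2: the polynomial of the power sum method
-/

open Finset

namespace Pool.Agent.Lib.H18Q

open Polynomial in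
theorem T2_D {ι : Type*} [DecidableEq ι] (z : ι → ℂ) (S : Finset ι) (hz : ∀ i ∈ S, ‖z i‖ ≤ 1) :
    ∀ a, ‖(∏ j ∈ S, (1 - C (z j) * X) : ℂ[X]).coeff a‖ ≤ (S.card.choose a : ℝ) := by
  induction S using Finset.induction_on with
  | empty =>
    intro a
    rw [prod_empty, card_empty, coeff_one]
    rcases Nat.eq_zero_or_pos a with rfl | ha
    · simp
    · rw [if_neg ha.ne', norm_zero]
      positivity
  | insert i S hi ih =>
    intro a
    have ih' := ih fun j hj => hz j (mem_insert_of_mem hj)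
    have e : (∏ j ∈ insert i S, (1 - C (z j) * X) : ℂ[X]) =
        (∏ j ∈ S, (1 - C (z j) * X)) - C (z i) * ((∏ j ∈ S, (1 - C (z j) * X)) * X) := by
      rw [prod_insert hi]
      ring
    rw [e, coeff_sub, coeff_C_mul, card_insert_of_notMem hi]
    rcases a with _ | a
    · rw [coeff_mul_X_zero, mul_zero, sub_zero]
      have := ih' 0
      simpa using this
    · rw [coeff_mul_X, Nat.choose_succ_succ]
      have h1 := ih' a
      have h2 := ih' (a + 1)
      have h3 : ‖z i * (∏ j ∈ S, (1 - C (z j) * X) : ℂ[X]).coeff a‖ ≤ (S.card.choose a : ℝ) := by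
        rw [norm_mul]
        calc ‖z i‖ * ‖(∏ j ∈ S, (1 - C (z j) * X) : ℂ[X]).coeff a‖
            ≤ 1 * ‖(∏ j ∈ S, (1 - C (z j) * X) : ℂ[X]).coeff a‖ :=
              mul_le_mul_of_nonneg_right (hz i (mem_insert_self _ _)) (norm_nonneg _)
          _ ≤ _ := by rw [one_mul]; exact h1
      push_cast
      calc _ ≤ ‖(∏ j ∈ S, (1 - C (z j) * X) : ℂ[X]).coeff (a + 1)‖ +
            ‖z i * (∏ j ∈ S, (1 - C (z j) * X) : ℂ[X]).coeff a‖ := norm_sub_le _ _
        _ ≤ _ := by linarith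

open Polynomial in
theorem T2_coeff {D P : ℂ[X]} {z : ℂ} (h : P * (1 - C z * X) = D) (l : ℕ) :
    P.coeff l = ∑ a ∈ range (l + 1), D.coeff a * z ^ (l - a) := by
  have e : D = P - C z * (P * X) := by
    rw [← h]
    ring
  induction l with
  | zero =>
    rw [sum_range_one, e, coeff_sub, coeff_C_mul, coeff_mul_X_zero]
    simp
  | succ l ih =>
    rw [sum_range_succ]
    have h1 : ∑ a ∈ range (l + 1), D.coeff a * z ^ (l + 1 - a) = z * P.coeff l := by
      rw [ih, mul_sum]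
      refine sum_congr rfl fun a ha => ?_
      have h2 : l + 1 - a = (l - a) + 1 := by
        have := mem_range.1 ha
        omega
      rw [h2, pow_succ]
      ring
    rw [h1, Nat.sub_self, pow_zero, mul_one]
    have h3 : D.coeff (l + 1) = P.coeff (l + 1) - z * P.coeff l := by
      conv_lhs => rw [e]
      rw [coeff_sub, coeff_C_mul, coeff_mul_X]
    rw [h3]
    ring

/-- Let `p_k = ∑_i m_i z_i^k`, `|z_i| ≤ 1`, `n = #S`, and `|p_k| ≤ M` for `K ≤ k < K + n`. Then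
`P(w) = ∑_i m_i z_i^K ∏_{j ≠ i} (1 - z_j w)` has `|P(w)| ≤ 8^n M` for `|w| ≤ 4`.

Proof. Put `D = ∏_{j ∈ S} (1 - C (z_j) X) = ∑_a D_a X^a` (polynomials); `|D_a| ≤ binom n a` by
induction on `S` (`D_a` of `S ∪ {j}` is `D_a - z_j D_{a-1}`). For `i ∈ S` put
`P_i = ∏_{j ∈ S.erase i} (1 - C (z_j) X)`, of degree `≤ n - 1`, `P_i (1 - C (z_i) X) = D`, so the
coefficients satisfy `(P_i)_l = D_l + z_i (P_i)_(l-1)`, by induction `(P_i)_l = ∑_{a ≤ l} D_a
z_i^(l-a)`. So the coefficient of `X^l` in `P = ∑_i m_i z_i^K P_i`, `l ≤ n - 1`, is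
`∑_{a ≤ l} D_a p_(K+l-a)`, of absolute value at most `2^n M` (`K ≤ K + l - a < K + n`,
`∑_a binom n a ≤ 2^n`), and `|P(w)| ≤ 2^n M ∑_{l < n} 4^l ≤ 2^n M 4^n`. (`M ≥ 0` follows from the
hypothesis if `n ≥ 1`; for `n = 0` the left side is `0` and `hM0` is used.) -/
theorem T2_poly {ι : Type*} [DecidableEq ι] (S : Finset ι) (m : ι → ℕ) (z : ι → ℂ)
    (hz : ∀ i ∈ S, ‖z i‖ ≤ 1) (K : ℕ) (M : ℝ) (hM0 : 0 ≤ M)
    (hM : ∀ k, K ≤ k → k < K + S.card → ‖∑ i ∈ S, (m i : ℂ) * z i ^ k‖ ≤ M) (w : ℂ)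
    (hw : ‖w‖ ≤ 4) :
    ‖∑ i ∈ S, (m i : ℂ) * z i ^ K * ∏ j ∈ S.erase i, (1 - z j * w)‖ ≤ 8 ^ S.card * M := by
  open Polynomial in
  rcases S.eq_empty_or_nonempty with rfl | hne
  · simp [hM0]
  have hn : 1 ≤ S.card := hne.card_pos
  let Pi : ι → Polynomial ℂ := fun i => ∏ j ∈ S.erase i, (1 - Polynomial.C (z j) * Polynomial.X)
  obtain ⟨P, hP⟩ : ∃ P : Polynomial ℂ, P = ∑ i ∈ S, Polynomial.C ((m i : ℂ) * z i ^ K) * Pi i := ⟨_, rfl⟩
  obtain ⟨D, hD⟩ : ∃ D : Polynomial ℂ, D = ∏ j ∈ S, (1 - Polynomial.C (z j) * Polynomial.X) := ⟨_, rfl⟩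
  have hPD : ∀ i ∈ S, Pi i * (1 - Polynomial.C (z i) * Polynomial.X) = D := by
    intro i hi
    rw [hD, ← mul_prod_erase S _ hi, mul_comm]
  have hev : P.eval w = ∑ i ∈ S, (m i : ℂ) * z i ^ K * ∏ j ∈ S.erase i, (1 - z j * w) := by
    rw [hP, Polynomial.eval_finsetSum]
    refine sum_congr rfl fun i _ => ?_
    rw [Polynomial.eval_mul, Polynomial.eval_C, Polynomial.eval_prod]
    congr 1
    refine prod_congr rfl fun j _ => ?_
    simp
  have hdeg : P.natDegree < S.card := by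
    have h1 : P.natDegree ≤ S.card - 1 := by
      rw [hP]
      refine Polynomial.natDegree_sum_le_of_forall_le _ _ fun i hi => ?_
      refine (Polynomial.natDegree_C_mul_le _ _).trans ?_
      refine (Polynomial.natDegree_prod_le _ _).trans ?_
      refine (sum_le_card_nsmul _ _ 1 fun j _ => ?_).trans ?_
      · compute_degree
      · rw [card_erase_of_mem hi, smul_eq_mul, mul_one]
    omega
  have hco : ∀ l, P.coeff l = ∑ a ∈ range (l + 1), D.coeff a * ∑ i ∈ S, (m i : ℂ) * z i ^ (K + l - a) := by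
    intro l
    rw [hP, Polynomial.finsetSum_coeff]
    have h1 : ∀ i ∈ S, (Polynomial.C ((m i : ℂ) * z i ^ K) * Pi i).coeff l =
        ∑ a ∈ range (l + 1), D.coeff a * ((m i : ℂ) * z i ^ (K + l - a)) := by
      intro i hi
      rw [Polynomial.coeff_C_mul, T2_coeff (hPD i hi) l, mul_sum]
      refine sum_congr rfl fun a ha => ?_
      have h2 : K + l - a = K + (l - a) := by
        have := mem_range.1 ha
        omega
      rw [h2, pow_add]
      ring
    rw [sum_congr rfl h1, sum_comm]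
    refine sum_congr rfl fun a _ => ?_
    rw [mul_sum]
  have hbd : ∀ l, l < S.card → ‖P.coeff l‖ ≤ 2 ^ S.card * M := by
    intro l hl
    rw [hco l]
    calc ‖∑ a ∈ range (l + 1), D.coeff a * ∑ i ∈ S, (m i : ℂ) * z i ^ (K + l - a)‖
        ≤ ∑ a ∈ range (l + 1), ‖D.coeff a * ∑ i ∈ S, (m i : ℂ) * z i ^ (K + l - a)‖ := norm_sum_le _ _
      _ ≤ ∑ a ∈ range (l + 1), (S.card.choose a : ℝ) * M := by
          refine sum_le_sum fun a ha => ?_
          have h1 := mem_range.1 ha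
          rw [norm_mul]
          refine mul_le_mul ?_ (hM _ (by omega) (by omega)) (norm_nonneg _) (by positivity)
          rw [hD]
          exact T2_D z S hz a
      _ ≤ ∑ a ∈ range (S.card + 1), (S.card.choose a : ℝ) * M := by
          refine sum_le_sum_of_subset_of_nonneg (range_subset_range.2 (by omega)) fun a _ _ => by positivity
      _ = 2 ^ S.card * M := by
          rw [← sum_mul]
          congr 1
          have := Nat.sum_range_choose S.card
          exact_mod_cast this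
  rw [← hev, Polynomial.eval_eq_sum_range' hdeg]
  calc ‖∑ l ∈ range S.card, P.coeff l * w ^ l‖ ≤ ∑ l ∈ range S.card, ‖P.coeff l * w ^ l‖ := norm_sum_le _ _
    _ ≤ ∑ l ∈ range S.card, 2 ^ S.card * M * 4 ^ l := by
        refine sum_le_sum fun l hl => ?_
        rw [norm_mul, norm_pow]
        exact mul_le_mul (hbd l (mem_range.1 hl)) (pow_le_pow_left₀ (norm_nonneg _) hw l) (by positivity) (by positivity)
    _ = 2 ^ S.card * M * ∑ l ∈ range S.card, (4 : ℝ) ^ l := by rw [mul_sum]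
    _ ≤ 2 ^ S.card * M * 4 ^ S.card := by
        refine mul_le_mul_of_nonneg_left ?_ (by positivity)
        rw [geom_sum_eq (by norm_num)]
        have h4 : (1 : ℝ) ≤ 4 ^ S.card := one_le_pow₀ (by norm_num)
        rw [div_le_iff₀ (by norm_num)]
        linarith
    _ = 8 ^ S.card * M := by
        have h5 : (8 : ℝ) = 2 * 4 := by norm_num
        rw [h5, mul_pow]
        ring

end Pool.Agent.Lib.H18Q
end

-- from Lib.H18Q.T3
section

/-!
# Project H18Q, chunk T3: power sums (weak form of Turán's theorem)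
-/

open Finset

namespace Pool.Agent.Lib.H18Q

/-- One term of the contour integral: a point inside the circle. -/
theorem t3_inside {w0 : ℂ} {t : ℝ} {u : ℂ} (n : ℕ) (hu : ‖u - w0‖ < t) :
    (∮ w in C(w0, t), (w - u)⁻¹ • w ^ n) = (2 * Real.pi * Complex.I : ℂ) • u ^ n := by
  have hd : DifferentiableOn ℂ (fun w : ℂ => w ^ n) (Metric.closedBall w0 t) :=
    (differentiable_pow n).differentiableOn
  exact hd.circleIntegral_sub_inv_smul (by
    rw [Metric.mem_ball, dist_eq_norm]; exact hu)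

/-- One term of the contour integral: a point outside the circle. -/
theorem t3_outside {w0 : ℂ} {t : ℝ} (ht : 0 ≤ t) {u : ℂ} (n : ℕ) (hu : t < ‖u - w0‖) :
    (∮ w in C(w0, t), (w - u)⁻¹ • w ^ n) = 0 := by
  have hd : DifferentiableOn ℂ (fun w : ℂ => (w - u)⁻¹ • w ^ n) (Metric.closedBall w0 t) := by
    intro w hw
    have hne : w - u ≠ 0 := by
      intro h
      rw [sub_eq_zero] at h
      rw [Metric.mem_closedBall, dist_eq_norm, h] at hw
      linarith
    have h1 : DifferentiableAt ℂ (fun w : ℂ => (w - u)⁻¹ • w ^ n) w := by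
      exact DifferentiableAt.fun_smul ((differentiableAt_id.sub_const u).inv hne)
        (differentiableAt_pow n)
    exact h1.differentiableWithinAt
  exact (hd.mono Metric.closure_ball_subset_closedBall).diffContOnCl.circleIntegral_eq_zero ht

/-- The lower bound for the product on the circle. -/
theorem t3_prod {ι : Type*} [DecidableEq ι] (S : Finset ι) (z : ι → ℂ)
    (w0 : ℂ) (hw0 : ‖w0‖ ≤ 3) (t : ℝ) (ht1 : t ≤ 1)
    (hp : (1 / 16 : ℝ) ^ (S.filter (fun j => (1 / 8 : ℝ) < ‖z j‖)).card ≤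
      ∏ j ∈ S.filter (fun j => (1 / 8 : ℝ) < ‖z j‖), |t - ‖(z j)⁻¹ - w0‖|)
    (w : ℂ) (hw : ‖w - w0‖ = t) :
    (1 / 128 : ℝ) ^ S.card ≤ ‖∏ j ∈ S, (1 - z j * w)‖ := by
  have hw4 : ‖w‖ ≤ 4 := by
    calc ‖w‖ = ‖(w - w0) + w0‖ := by ring_nf
      _ ≤ ‖w - w0‖ + ‖w0‖ := norm_add_le _ _
      _ ≤ 4 := by rw [hw]; linarith
  have h2 : ∀ j ∈ S.filter (fun j => (1 / 8 : ℝ) < ‖z j‖),
      (1 / 8) * |t - ‖(z j)⁻¹ - w0‖| ≤ ‖1 - z j * w‖ := by
    intro j hj
    rw [mem_filter] at hj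
    have hz0 : z j ≠ 0 := by
      intro h; rw [h, norm_zero] at hj; linarith [hj.2]
    have e1 : 1 - z j * w = z j * ((z j)⁻¹ - w) := by field_simp
    rw [e1, norm_mul]
    have h3 : |t - ‖(z j)⁻¹ - w0‖| ≤ ‖(z j)⁻¹ - w‖ := by
      have := abs_norm_sub_norm_le (w - w0) ((z j)⁻¹ - w0)
      rw [hw] at this
      refine this.trans (le_of_eq ?_)
      rw [← norm_neg]
      congr 1
      ring
    exact mul_le_mul hj.2.le h3 (abs_nonneg _) (norm_nonneg _)
  have h3 : ∀ j ∈ S.filter (fun j => ¬ (1 / 8 : ℝ) < ‖z j‖), (1 / 128 : ℝ) ≤ ‖1 - z j * w‖ := by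
    intro j hj
    rw [mem_filter, not_lt] at hj
    have h4 : ‖z j * w‖ ≤ 1 / 2 := by
      rw [norm_mul]
      calc ‖z j‖ * ‖w‖ ≤ (1 / 8) * 4 :=
            mul_le_mul hj.2 hw4 (norm_nonneg _) (by norm_num)
        _ = 1 / 2 := by norm_num
    have h5 : (1 : ℝ) - ‖z j * w‖ ≤ ‖1 - z j * w‖ := by
      have := norm_sub_norm_le (1 : ℂ) (z j * w)
      rwa [norm_one] at this
    linarith
  rw [norm_prod, ← Finset.prod_filter_mul_prod_filter_not S (fun j => (1 / 8 : ℝ) < ‖z j‖),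
    ← Finset.card_filter_add_card_filter_not (s := S) (fun j => (1 / 8 : ℝ) < ‖z j‖), pow_add]
  apply mul_le_mul
  · calc (1 / 128 : ℝ) ^ (S.filter (fun j => (1 / 8 : ℝ) < ‖z j‖)).card
        = (1 / 8) ^ (S.filter (fun j => (1 / 8 : ℝ) < ‖z j‖)).card *
          (1 / 16) ^ (S.filter (fun j => (1 / 8 : ℝ) < ‖z j‖)).card := by
          rw [← mul_pow]; norm_num
      _ ≤ (1 / 8) ^ (S.filter (fun j => (1 / 8 : ℝ) < ‖z j‖)).card *
          ∏ j ∈ S.filter (fun j => (1 / 8 : ℝ) < ‖z j‖), |t - ‖(z j)⁻¹ - w0‖| :=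
          mul_le_mul_of_nonneg_left hp (by positivity)
      _ = ∏ j ∈ S.filter (fun j => (1 / 8 : ℝ) < ‖z j‖),
            ((1 / 8) * |t - ‖(z j)⁻¹ - w0‖|) := by
          rw [Finset.prod_mul_distrib, Finset.prod_const]
      _ ≤ _ := Finset.prod_le_prod (fun j _ => by positivity) h2
  · calc (1 / 128 : ℝ) ^ (S.filter (fun j => ¬ (1 / 8 : ℝ) < ‖z j‖)).card
        = ∏ _j ∈ S.filter (fun j => ¬ (1 / 8 : ℝ) < ‖z j‖), (1 / 128 : ℝ) := by
          rw [Finset.prod_const]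
      _ ≤ _ := Finset.prod_le_prod (fun j _ => by norm_num) h3
  · positivity
  · exact Finset.prod_nonneg fun j _ => norm_nonneg _

/-- Let `|z_i| ≤ 1`, `m_i` natural numbers, `i ∈ S`, `#S ≤ K`, and `|z_{i0}| ≥ 1/3`,
`m_{i0} ≥ 1` for one `i0 ∈ S`. Then some power sum `p_k = ∑ m_i z_i^k`, `K ≤ k < 2 K`, has
`|p_k| ≥ 4096^(-K)`.

Proof. Suppose not; put `M = 4096^(-K)`, `n = #S`. Let `w0 = 1/z_{i0}`, `1 ≤ |w0| ≤ 3`. Let
`S2 = {j ∈ S : |z_j| > 1/8}`, `d_j = |w0 - 1/z_j|` for `j ∈ S2`; take `t ∈ [1/2, 1]` from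
`T1_far S2 d`. On the circle `|w - w0| = t` we have `|w| ≤ 4` and
`|1 - z_j w| ≥ 1 - 4/8 = 1/2` for `j ∉ S2`, `|1 - z_j w| = |z_j| |w - 1/z_j| ≥ (1/8) |t - d_j|` for
`j ∈ S2` (`|w - 1/z_j| ≥ | |w - w0| - |w0 - 1/z_j| |`). So `|∏_{j ∈ S} (1 - z_j w)| ≥
8^(-n) 16^(-#S2) ≥ 128^(-n) > 0`; in particular no `1/z_j` is on the circle. Put
`H(w) = ∑_i m_i z_i^K / (1 - z_i w) = P(w) / ∏ (1 - z_j w)`, with `P` of `T2_poly`
(`K ≤ k < K + n ≤ 2 K`): on the circle `|H(w)| ≤ 8^n M 128^n = 1024^n M ≤ 1024^K M`, and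
`|w^(K-1)| ≤ 4^(K-1)`. By Cauchy's formula, for each `i` the circle integral
`(1/2πi) ∮ m_i z_i^K w^(K-1) / (1 - z_i w) dw` is `0` if `z_i = 0` (`K ≥ 1`), and for `z_i ≠ 0`,
since `1/(1 - z_i w) = -(1/z_i) / (w - 1/z_i)`, it is `-m_i z_i^(K-1) (1/z_i)^(K-1) = -m_i` if
`|1/z_i - w0| < t`, and `0` if `|1/z_i - w0| > t` (`Complex.circleIntegral_sub_inv_smul_of_...`,
`circleIntegral_eq_zero_of_differentiable_on_off_countable` or
`DiffContOnCl.circleIntegral_eq_zero`). The index `i0` has `1/z_{i0} = w0` inside. So the total is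
`-∑_{inside} m_i`, of absolute value `≥ m_{i0} ≥ 1`. But it is at most
`t · 1024^K M · 4^(K-1) ≤ 4096^K M / 4 < 1`. Contradiction. -/
theorem turan {ι : Type*} (S : Finset ι) (m : ι → ℕ) (z : ι → ℂ) (K : ℕ) (hK : 1 ≤ K)
    (hc : S.card ≤ K) (hz : ∀ i ∈ S, ‖z i‖ ≤ 1) (i0 : ι) (hi0 : i0 ∈ S) (hm : 1 ≤ m i0)
    (hz0 : 1 / 3 ≤ ‖z i0‖) :
    ∃ k, K ≤ k ∧ k < 2 * K ∧ (1 / 4096 : ℝ) ^ K ≤ ‖∑ i ∈ S, (m i : ℂ) * z i ^ k‖ := by
  classical
  by_contra hcon
  push Not at hcon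
  set M : ℝ := (1 / 4096 : ℝ) ^ K with hMdef
  have hM0 : 0 < M := by positivity
  have hzi0 : z i0 ≠ 0 := by
    intro h; rw [h, norm_zero] at hz0; linarith
  set w0 : ℂ := (z i0)⁻¹ with hw0def
  have hw03 : ‖w0‖ ≤ 3 := by
    rw [hw0def, norm_inv]
    have := inv_anti₀ (by norm_num : (0 : ℝ) < 1 / 3) hz0
    norm_num at this
    exact this
  obtain ⟨t, ⟨ht0, ht1⟩, hprod⟩ := T1_far (S.filter (fun j => (1 / 8 : ℝ) < ‖z j‖))
    (fun j => ‖(z j)⁻¹ - w0‖)
  have htpos : 0 < t := by linarith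
  have hlow : ∀ w : ℂ, ‖w - w0‖ = t → (1 / 128 : ℝ) ^ S.card ≤ ‖∏ j ∈ S, (1 - z j * w)‖ :=
    fun w hw => t3_prod S z w0 hw03 t ht1 hprod w hw
  have hlowpos : ∀ w : ℂ, ‖w - w0‖ = t → ∀ j ∈ S, 1 - z j * w ≠ 0 := by
    intro w hw j hj h0
    have h1 := hlow w hw
    rw [Finset.prod_eq_zero hj h0, norm_zero] at h1
    have : (0 : ℝ) < (1 / 128 : ℝ) ^ S.card := by positivity
    linarith
  have hne : ∀ i ∈ S, z i ≠ 0 → ‖(z i)⁻¹ - w0‖ ≠ t := by
    intro i hi hzi h
    apply hlowpos _ h i hi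
    rw [mul_inv_cancel₀ hzi, sub_self]
  -- the terms
  set F : ι → ℂ → ℂ := fun i w => (m i : ℂ) * z i ^ K * w ^ (K - 1) / (1 - z i * w) with hF
  have hFcont : ∀ i ∈ S, ContinuousOn (F i) (Metric.sphere w0 t) := by
    intro i hi
    apply ContinuousOn.div
    · fun_prop
    · fun_prop
    · intro w hw
      rw [mem_sphere_iff_norm] at hw
      exact hlowpos w hw i hi
  have hint : ∀ i ∈ S, CircleIntegrable (F i) w0 t := fun i hi =>
    (hFcont i hi).circleIntegrable htpos.le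
  set c : ι → ℝ := fun i => if z i ≠ 0 ∧ ‖(z i)⁻¹ - w0‖ < t then (m i : ℝ) else 0 with hc'
  have hterm : ∀ i ∈ S, (∮ w in C(w0, t), F i w) = -(2 * Real.pi * Complex.I) * (c i : ℂ) := by
    intro i hi
    by_cases hzi : z i = 0
    · have h1 : F i = fun _ => 0 := by
        funext w
        simp only [hF, hzi]
        rw [zero_pow (by omega)]
        ring
      have h2 : c i = 0 := by
        simp only [hc', hzi]
        simp
      rw [h1, h2]
      simp [circleIntegral]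
    · have h1 : (∮ w in C(w0, t), F i w) =
          -((m i : ℂ) * z i ^ (K - 1)) * ∮ w in C(w0, t), (w - (z i)⁻¹)⁻¹ • w ^ (K - 1) := by
        rw [← circleIntegral.integral_const_mul]
        apply circleIntegral.integral_congr htpos.le
        intro w hw
        rw [mem_sphere_iff_norm] at hw
        have h3 : 1 - z i * w ≠ 0 := hlowpos w hw i hi
        have h4 : w - (z i)⁻¹ ≠ 0 := by
          intro h
          apply h3
          rw [sub_eq_zero] at h
          rw [h, mul_inv_cancel₀ hzi, sub_self]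
        have h5 : 1 - z i * w = -(z i * (w - (z i)⁻¹)) := by
          rw [mul_sub, mul_inv_cancel₀ hzi]; ring
        simp only [hF, smul_eq_mul]
        rw [h5]
        have h6 : z i ^ K = z i * z i ^ (K - 1) := by
          rw [← pow_succ']; congr 1; omega
        rw [h6]
        field_simp
      rcases lt_or_gt_of_ne (hne i hi hzi) with hlt | hgt
      · rw [h1, t3_inside _ hlt]
        have h2 : c i = m i := by
          simp only [hc']
          rw [if_pos ⟨hzi, hlt⟩]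
        rw [h2]
        have h7 : z i ^ (K - 1) * (z i)⁻¹ ^ (K - 1) = 1 := by
          rw [← mul_pow, mul_inv_cancel₀ hzi, one_pow]
        simp only [smul_eq_mul]
        push_cast
        linear_combination (-(m i : ℂ) * (2 * Real.pi * Complex.I)) * h7
      · rw [h1, t3_outside htpos.le _ hgt]
        have h2 : c i = 0 := by
          simp only [hc']
          rw [if_neg]
          intro h
          linarith [h.2]
        rw [h2]
        simp
  have htotal : (∮ w in C(w0, t), ∑ i ∈ S, F i w) =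
      -(2 * Real.pi * Complex.I) * ((∑ i ∈ S, c i : ℝ) : ℂ) := by
    rw [circleIntegral.integral_fun_sum hint, Finset.sum_congr rfl hterm, ← Finset.mul_sum]
    push_cast
    rfl
  have hcsum : (1 : ℝ) ≤ ∑ i ∈ S, c i := by
    have h1 : ∀ i ∈ S, 0 ≤ c i := by
      intro i _
      simp only [hc']
      split_ifs <;> positivity
    have h2 : c i0 = m i0 := by
      simp only [hc']
      rw [if_pos]
      refine ⟨hzi0, ?_⟩
      rw [← hw0def, sub_self, norm_zero]
      exact htpos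
    have h3 : (1 : ℝ) ≤ c i0 := by
      rw [h2]; exact_mod_cast hm
    exact h3.trans (Finset.single_le_sum h1 hi0)
  have hup : ‖∮ w in C(w0, t), ∑ i ∈ S, F i w‖ ≤
      2 * Real.pi * t * (4 ^ (K - 1) * (8 ^ S.card * M) * 128 ^ S.card) := by
    apply circleIntegral.norm_integral_le_of_norm_le_const htpos.le
    intro w hw
    rw [mem_sphere_iff_norm] at hw
    have hw4 : ‖w‖ ≤ 4 := by
      calc ‖w‖ = ‖(w - w0) + w0‖ := by ring_nf
        _ ≤ ‖w - w0‖ + ‖w0‖ := norm_add_le _ _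
        _ ≤ 4 := by rw [hw]; linarith
    have hP := T2_poly S m z hz K M hM0.le (fun k hk1 hk2 => (hcon k hk1 (by omega)).le) w hw4
    have hQ := hlow w hw
    have hQ0 : ∏ j ∈ S, (1 - z j * w) ≠ 0 := Finset.prod_ne_zero_iff.mpr (hlowpos w hw)
    have e1 : ∑ i ∈ S, F i w = w ^ (K - 1) *
        (∑ i ∈ S, (m i : ℂ) * z i ^ K * ∏ j ∈ S.erase i, (1 - z j * w)) /
        ∏ j ∈ S, (1 - z j * w) := by
      rw [Finset.mul_sum, Finset.sum_div]
      apply Finset.sum_congr rfl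
      intro i hi
      simp only [hF]
      rw [div_eq_div_iff (hlowpos w hw i hi) hQ0, ← Finset.mul_prod_erase S _ hi]
      ring
    rw [e1, norm_div, norm_mul, norm_pow, div_le_iff₀ (norm_pos_iff.mpr hQ0)]
    have h128 : (1 : ℝ) ≤ 128 ^ S.card * ‖∏ j ∈ S, (1 - z j * w)‖ := by
      calc (1 : ℝ) = 128 ^ S.card * (1 / 128) ^ S.card := by
            rw [← mul_pow]; norm_num
        _ ≤ _ := mul_le_mul_of_nonneg_left hQ (by positivity)
    calc ‖w‖ ^ (K - 1) * ‖∑ i ∈ S, (m i : ℂ) * z i ^ K * ∏ j ∈ S.erase i, (1 - z j * w)‖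
        ≤ 4 ^ (K - 1) * (8 ^ S.card * M) := by
          apply mul_le_mul _ hP (norm_nonneg _) (by positivity)
          exact pow_le_pow_left₀ (norm_nonneg _) hw4 _
      _ = 4 ^ (K - 1) * (8 ^ S.card * M) * 1 := by ring
      _ ≤ 4 ^ (K - 1) * (8 ^ S.card * M) * (128 ^ S.card * ‖∏ j ∈ S, (1 - z j * w)‖) :=
          mul_le_mul_of_nonneg_left h128 (by positivity)
      _ = _ := by ring
  rw [htotal, norm_mul, norm_neg] at hup
  have hn1 : ‖(2 * Real.pi * Complex.I : ℂ)‖ = 2 * Real.pi := by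
    simp [abs_of_pos Real.pi_pos]
  rw [hn1, Complex.norm_real, Real.norm_eq_abs, abs_of_nonneg (by linarith)] at hup
  have hpi := Real.pi_pos
  have hbound : t * (4 ^ (K - 1) * (8 ^ S.card * M) * 128 ^ S.card) ≤ 1 / 4 := by
    have h1 : (8 : ℝ) ^ S.card * 128 ^ S.card ≤ 1024 ^ K := by
      rw [← mul_pow]
      norm_num
      exact pow_le_pow_right₀ (by norm_num) hc
    have h2 : (4 : ℝ) ^ (K - 1) * 4 = 4 ^ K := by
      rw [← pow_succ]; congr 1; omega
    have h3 : (4 : ℝ) ^ K * 1024 ^ K * M = 1 := by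
      rw [hMdef, ← mul_pow, ← mul_pow]; norm_num
    calc t * (4 ^ (K - 1) * (8 ^ S.card * M) * 128 ^ S.card)
        = t * (4 ^ (K - 1) * M * (8 ^ S.card * 128 ^ S.card)) := by ring
      _ ≤ 1 * (4 ^ (K - 1) * M * 1024 ^ K) := by
          apply mul_le_mul ht1 _ (by positivity) (by norm_num)
          exact mul_le_mul_of_nonneg_left h1 (by positivity)
      _ = (4 ^ (K - 1) * 4) * 1024 ^ K * M / 4 := by ring
      _ = 1 / 4 := by rw [h2, h3]
  have : 2 * Real.pi * 1 ≤ 2 * Real.pi * (1 / 4) := by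
    calc 2 * Real.pi * 1 ≤ 2 * Real.pi * ∑ i ∈ S, c i :=
          mul_le_mul_of_nonneg_left hcsum (by positivity)
      _ ≤ _ := hup
      _ = 2 * Real.pi * (t * (4 ^ (K - 1) * (8 ^ S.card * M) * 128 ^ S.card)) := by ring
      _ ≤ _ := mul_le_mul_of_nonneg_left hbound (by positivity)
  nlinarith

end Pool.Agent.Lib.H18Q
end

-- from Lib.H18E.CL
section

/-!
# Chunk CL: pairs of values of a quadratic character
-/

open Finset

namespace Pool.Agent.Lib.H18E

/-- Let `θ` be the quadratic character modulo `p ≥ 7`. As `1 + a z ∈ {0, 1, 2}` detects `z = a` among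
`z ∈ {0, 1, -1}`, the number of `y` is
`(1/4) ∑_{y ≠ ± x} (1 + a θ(x + y)) (1 + b θ(s (x - y)))`. Here `∑_{y ≠ ±x} 1 = p - 2`,
`∑_{y ≠ ±x} θ(x + y) = - θ(2 x)`, `∑_{y ≠ ±x} θ(s (x - y)) = - θ(s) θ(2 x)` (`MulChar.sum_eq_zero_of_ne_one`),
and `∑_y θ(x + y) θ(x - y) = θ(4 x^2) jacobiSum θ θ = - θ(-1)` by the substitution `y = x (2 t - 1)`
(`jacobiSum_nontrivial_inv`, `θ⁻¹ = θ`). So the number is an integer at least `(p - 2 - 3)/4`; this is at
least `(p - 2)/10`. -/
theorem cl_local (p : ℕ) [Fact p.Prime] (hp : 7 ≤ p) (θ : MulChar (ZMod p) ℂ) (h1 : θ ≠ 1)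
    (h2 : θ ^ 2 = 1) (x : ZMod p) (hx : x ≠ 0) (s : ZMod p) (hs : s = 1 ∨ s = -1) (a b : ℂ)
    (ha : a = 1 ∨ a = -1) (hb : b = 1 ∨ b = -1) :
    open Classical in
    ((p : ℝ) - 2) / 10 ≤
      ((univ.filter (fun y : ZMod p => θ (x + y) = a ∧ θ (s * (x - y)) = b)).card : ℝ) := by
  classical
  have hs0 : s ≠ 0 := by rcases hs with rfl | rfl <;> simp
  have h20 : (2 : ZMod p) ≠ 0 := by
    intro h
    have h3 : ((2 : ℕ) : ZMod p) = 0 := by exact_mod_cast h
    rw [ZMod.natCast_eq_zero_iff] at h3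
    have := Nat.le_of_dvd (by norm_num) h3
    omega
  have hval : ∀ z : ZMod p, z ≠ 0 → θ z = 1 ∨ θ z = -1 := by
    intro z hz
    have h3 : (θ ^ 2) z = 1 := by
      rw [h2]; exact MulChar.one_apply (isUnit_iff_ne_zero.2 hz)
    rw [MulChar.pow_apply' _ two_ne_zero] at h3
    have h4 : (θ z - 1) * (θ z + 1) = 0 := by linear_combination h3
    rcases mul_eq_zero.1 h4 with h5 | h5
    · left; linear_combination h5
    · right; linear_combination h5
  have h00 : θ 0 = 0 := MulChar.map_zero θ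
  have hnorm : ∀ z : ZMod p, ‖θ z‖ ≤ 1 := by
    intro z
    by_cases hz : z = 0
    · rw [hz, h00]; simp
    · rcases hval z hz with h | h <;> rw [h] <;> simp
  have hna : ‖a‖ = 1 := by rcases ha with rfl | rfl <;> simp
  have hnb : ‖b‖ = 1 := by rcases hb with rfl | rfl <;> simp
  -- the three sums
  have hS1 : ∑ y, θ (x + y) = 0 := by
    rw [← MulChar.sum_eq_zero_of_ne_one h1]
    exact Fintype.sum_equiv (Equiv.addLeft x) _ _ (fun y => rfl)
  have hS2 : ∑ y, θ (s * (x - y)) = 0 := by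
    have : ∀ y, θ (s * (x - y)) = θ s * θ (x - y) := fun y => map_mul θ _ _
    simp_rw [this]
    rw [← mul_sum]
    have h3 : ∑ y, θ (x - y) = 0 := by
      rw [← MulChar.sum_eq_zero_of_ne_one h1]
      exact Fintype.sum_equiv (Equiv.subLeft x) _ _ (fun y => rfl)
    rw [h3, mul_zero]
  have hinv : θ⁻¹ = θ := inv_eq_of_mul_eq_one_right (by rw [← sq, h2])
  have hJ : jacobiSum θ θ = -θ (-1) := by
    have := jacobiSum_nontrivial_inv h1
    rwa [hinv] at this
  have h2x : (2 : ZMod p) * x ≠ 0 := mul_ne_zero h20 hx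
  have hS3 : ∑ y, θ (x + y) * θ (s * (x - y)) = θ s * (θ (2 * x) ^ 2 * jacobiSum θ θ) := by
    have hbij : Function.Bijective (fun t : ZMod p => x * (2 * t - 1)) := by
      constructor
      · intro t t' h
        have h3 := mul_left_cancel₀ hx h
        have h4 : (2 : ZMod p) * t = 2 * t' := by linear_combination h3
        exact mul_left_cancel₀ h20 h4
      · intro y
        refine ⟨(y / x + 1) / 2, ?_⟩
        simp only
        field_simp
        ring
    rw [← hbij.sum_comp (fun y => θ (x + y) * θ (s * (x - y)))]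
    unfold jacobiSum
    rw [mul_sum, mul_sum]
    refine sum_congr rfl fun t _ => ?_
    rw [show x + x * (2 * t - 1) = 2 * x * t by ring,
      show s * (x - x * (2 * t - 1)) = s * (2 * x) * (1 - t) by ring]
    simp only [map_mul]
    ring
  -- the sum over all `y`
  have hall : ∑ y, (1 + a * θ (x + y)) * (1 + b * θ (s * (x - y))) =
      p + a * b * (θ s * (θ (2 * x) ^ 2 * jacobiSum θ θ)) := by
    have h3 : ∀ y, (1 + a * θ (x + y)) * (1 + b * θ (s * (x - y))) =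
        1 + a * θ (x + y) + b * θ (s * (x - y)) + a * b * (θ (x + y) * θ (s * (x - y))) :=
      fun y => by ring
    simp_rw [h3]
    rw [sum_add_distrib, sum_add_distrib, sum_add_distrib, ← mul_sum, ← mul_sum, ← mul_sum, hS1, hS2,
      hS3]
    simp [ZMod.card]
  -- the two exceptional points
  have hxx : x ≠ -x := by
    intro h
    apply h2x
    linear_combination h
  have hsplit : ∑ y, (1 + a * θ (x + y)) * (1 + b * θ (s * (x - y))) =
      (∑ y ∈ (univ.erase x).erase (-x), (1 + a * θ (x + y)) * (1 + b * θ (s * (x - y)))) +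
        (1 + b * θ (s * (2 * x))) + (1 + a * θ (2 * x)) := by
    rw [← sum_erase_add _ _ (mem_univ x), ← sum_erase_add _ _
      (mem_erase.2 ⟨hxx.symm, mem_univ (-x)⟩)]
    rw [show x + x = 2 * x by ring, show x - x = 0 by ring, show x + -x = 0 by ring,
      show x - -x = 2 * x by ring, mul_zero, h00]
    ring
  -- the count
  have hcount : (4 : ℂ) * ((univ.filter (fun y : ZMod p => θ (x + y) = a ∧
      θ (s * (x - y)) = b)).card : ℂ) =
      ∑ y ∈ (univ.erase x).erase (-x), (1 + a * θ (x + y)) * (1 + b * θ (s * (x - y))) := by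
    have hfac : ∀ c z : ℂ, (c = 1 ∨ c = -1) → (z = 1 ∨ z = -1) →
        1 + c * z = if z = c then 2 else 0 := by
      intro c z hc hz
      rcases hc with rfl | rfl <;> rcases hz with rfl | rfl <;> norm_num
    have h3 : univ.filter (fun y : ZMod p => θ (x + y) = a ∧ θ (s * (x - y)) = b) =
        ((univ.erase x).erase (-x)).filter
          (fun y : ZMod p => θ (x + y) = a ∧ θ (s * (x - y)) = b) := by
      ext y
      simp only [mem_filter, mem_univ, true_and, mem_erase, and_true]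
      constructor
      · rintro ⟨h4, h5⟩
        refine ⟨⟨?_, ?_⟩, h4, h5⟩
        · rintro rfl
          rw [show x + -x = 0 by ring, h00] at h4
          rcases ha with rfl | rfl <;> norm_num at h4
        · rintro rfl
          rw [show y - y = 0 by ring, mul_zero, h00] at h5
          rcases hb with rfl | rfl <;> norm_num at h5
      · rintro ⟨-, h4⟩; exact h4
    rw [h3, card_filter]
    push_cast
    rw [mul_sum]
    refine sum_congr rfl fun y hy => ?_
    rw [mem_erase, mem_erase] at hy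
    have h4 : x + y ≠ 0 := fun h => hy.1 (by linear_combination h)
    have h5 : s * (x - y) ≠ 0 := mul_ne_zero hs0 (fun h => hy.2.1 (by linear_combination -h))
    rw [hfac a _ ha (hval _ h4), hfac b _ hb (hval _ h5)]
    generalize θ (x + y) = u1
    generalize θ (s * (x - y)) = v1
    by_cases h6 : u1 = a
    · by_cases h7 : v1 = b
      · rw [if_pos h6, if_pos h7, if_pos ⟨h6, h7⟩]; norm_num
      · rw [if_neg h7, if_neg (fun h => h7 h.2)]; ring
    · rw [if_neg h6, if_neg (fun h => h6 h.1)]; ring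
  have hfin : (4 : ℂ) * ((univ.filter (fun y : ZMod p => θ (x + y) = a ∧
      θ (s * (x - y)) = b)).card : ℂ) - ((p : ℂ) - 2) =
      a * b * (θ s * (θ (2 * x) ^ 2 * jacobiSum θ θ)) - b * θ (s * (2 * x)) - a * θ (2 * x) := by
    rw [hcount]
    rw [hall] at hsplit
    linear_combination -hsplit
  have hle : ‖(4 : ℂ) * ((univ.filter (fun y : ZMod p => θ (x + y) = a ∧
      θ (s * (x - y)) = b)).card : ℂ) - ((p : ℂ) - 2)‖ ≤ 3 := by
    rw [hfin]
    have e1 : ‖a * b * (θ s * (θ (2 * x) ^ 2 * jacobiSum θ θ))‖ ≤ 1 := by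
      rw [norm_mul, norm_mul, norm_mul, norm_mul, norm_pow, hna, hnb, hJ, norm_neg]
      have n1 := hnorm s
      have n2 := hnorm (2 * x)
      have n3 := hnorm (-1)
      have n4 : ‖θ (2 * x)‖ ^ 2 ≤ 1 := pow_le_one₀ (norm_nonneg _) n2
      calc 1 * 1 * (‖θ s‖ * (‖θ (2 * x)‖ ^ 2 * ‖θ (-1)‖)) ≤ 1 * 1 * (1 * (1 * 1)) := by
            gcongr
        _ = 1 := by norm_num
    have e2 : ‖b * θ (s * (2 * x))‖ ≤ 1 := by
      rw [norm_mul, hnb, one_mul]; exact hnorm _
    have e3 : ‖a * θ (2 * x)‖ ≤ 1 := by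
      rw [norm_mul, hna, one_mul]; exact hnorm _
    calc _ ≤ ‖a * b * (θ s * (θ (2 * x) ^ 2 * jacobiSum θ θ)) - b * θ (s * (2 * x))‖ +
          ‖a * θ (2 * x)‖ := norm_sub_le _ _
      _ ≤ ‖a * b * (θ s * (θ (2 * x) ^ 2 * jacobiSum θ θ))‖ + ‖b * θ (s * (2 * x))‖ +
          ‖a * θ (2 * x)‖ := by gcongr; exact norm_sub_le _ _
      _ ≤ 3 := by linarith
  have hre : ‖(4 : ℂ) * ((univ.filter (fun y : ZMod p => θ (x + y) = a ∧
      θ (s * (x - y)) = b)).card : ℂ) - ((p : ℂ) - 2)‖ =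
      |4 * ((univ.filter (fun y : ZMod p => θ (x + y) = a ∧
      θ (s * (x - y)) = b)).card : ℝ) - ((p : ℝ) - 2)| := by
    rw [← Real.norm_eq_abs, ← Complex.norm_real]
    push_cast
    rfl
  rw [hre] at hle
  have h8 := (abs_le.1 hle).1
  have h9 : (7 : ℝ) ≤ p := by exact_mod_cast hp
  linarith

end Pool.Agent.Lib.H18E
end

-- from Lib.H18E.CO
section

/-!
# Chunk CO: conductors of quadratic characters
-/

open Finset

namespace Pool.Agent.Lib.H18E

theorem CO_factor (r : ℕ) [NeZero r] (ψ : DirichletCharacter ℂ r) (hψ : ψ.IsPrimitive)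
    (h2 : ψ ^ 2 = 1) (m : ℕ) (hm : m ∣ r) (hlt : m < r)
    (H : ∀ k : ZMod r, ∃ v : ZMod r, 1 + k * (m : ZMod r) = v ^ 2) : False := by
  have hm0 : 0 < m := Nat.pos_of_dvd_of_pos hm (NeZero.pos r)
  have hf : DirichletCharacter.FactorsThrough ψ m := by
    rw [DirichletCharacter.factorsThrough_iff_ker_unitsMap hm]
    intro u hu
    rw [MonoidHom.mem_ker] at hu ⊢
    have h1 : ((u : ZMod r).cast : ZMod m) = 1 := by
      have := congrArg (fun z : (ZMod m)ˣ => (z : ZMod m)) hu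
      simpa [ZMod.unitsMap_def] using this
    obtain ⟨k, hk⟩ : ∃ k : ZMod r, (u : ZMod r) = 1 + k * (m : ZMod r) := by
      rw [ZMod.cast_eq_val] at h1
      have h3 : (((u : ZMod r).val : ℤ) : ZMod m) = ((1 : ℤ) : ZMod m) := by
        push_cast; exact h1
      rw [ZMod.intCast_eq_intCast_iff_dvd_sub] at h3
      obtain ⟨j, hj⟩ := h3
      refine ⟨((-j : ℤ) : ZMod r), ?_⟩
      have h4 : ((u : ZMod r).val : ℤ) = 1 + (-j) * m := by linarith
      have h5 : (((u : ZMod r).val : ℤ) : ZMod r) = ((1 + (-j) * m : ℤ) : ZMod r) := by rw [h4]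
      push_cast at h5 ⊢
      rw [← h5]
      simp
    obtain ⟨v, hv⟩ := H k
    rw [← hk] at hv
    have hvu : IsUnit v := by
      have : IsUnit (v ^ 2) := hv ▸ u.isUnit
      exact (isUnit_pow_iff two_ne_zero).1 this
    obtain ⟨w, rfl⟩ := hvu
    have hw : u = w ^ 2 := by
      apply Units.ext
      simpa using hv
    have h6 := congrArg (fun f : DirichletCharacter ℂ r => f (w : ZMod r)) h2
    simp only [MulChar.pow_apply_coe, MulChar.one_apply_coe] at h6
    apply Units.ext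
    rw [hw, map_pow]
    simpa using h6
  have h7 : ψ.conductor ≤ m :=
    Nat.le_of_dvd hm0 (DirichletCharacter.conductor_dvd_of_mem_conductorSet _ hf)
  rw [(DirichletCharacter.isPrimitive_def ψ).1 hψ] at h7
  omega

/-- Let `ψ` be primitive modulo `r`, `ψ ^ 2 = 1`, `p ∣ r` a prime. If every unit `≡ 1` modulo `r / p`
is a square modulo `r`, then `ψ` is trivial on these units, and factors through `r / p`
(`DirichletCharacter.factorsThrough_iff_ker_unitsMap`), which contradicts primitivity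
(`DirichletCharacter.conductor_dvd_of_mem_conductorSet`). If `p` is odd and `p ^ 2 ∣ r`, then
`1 + k r/p ≡ (1 + k (p+1)/2 · r/p)^2` modulo `r`, since `r ∣ (r/p)^2`. -/
theorem sq_not_dvd (r : ℕ) [NeZero r] (ψ : DirichletCharacter ℂ r) (hψ : ψ.IsPrimitive)
    (h2 : ψ ^ 2 = 1) (p : ℕ) (hp : p.Prime) (hodd : p ≠ 2) : ¬ p ^ 2 ∣ r := by
  rintro ⟨q, hq⟩
  have hr : 0 < r := NeZero.pos r
  have hq0 : 0 < q := by
    rcases Nat.eq_zero_or_pos q with h | h
    · rw [h] at hq; omega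
    · exact h
  obtain ⟨b, hb⟩ := hp.odd_of_ne_two hodd
  refine CO_factor r ψ hψ h2 (p * q) ⟨p, by rw [hq]; ring⟩ ?_ ?_
  · rw [hq]
    have := hp.two_le
    have h3 : 0 < p * q := Nat.mul_pos hp.pos hq0
    calc p * q < p * (p * q) := by nlinarith
      _ = p ^ 2 * q := by ring
  · intro k
    refine ⟨1 + k * ((b + 1 : ℕ) : ZMod r) * ((p * q : ℕ) : ZMod r), ?_⟩
    have hrz : ((p ^ 2 * q : ℕ) : ZMod r) = 0 := by
      rw [← hq]; exact ZMod.natCast_self r
    have hpb : (p : ZMod r) = 2 * b + 1 := by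
      have : ((p : ℕ) : ZMod r) = ((2 * b + 1 : ℕ) : ZMod r) := by rw [← hb]
      push_cast at this; exact this
    push_cast at hrz ⊢
    have e1 : ((p : ZMod r) * q) ^ 2 = 0 := by
      have : ((p : ZMod r) * q) ^ 2 = (p ^ 2 * q) * q := by ring
      rw [this, hrz, zero_mul]
    have e2 : 2 * ((b : ZMod r) + 1) = p + 1 := by rw [hpb]; ring
    have e3 : (p : ZMod r) * (p * q) = 0 := by
      have : (p : ZMod r) * (p * q) = p ^ 2 * q := by ring
      rw [this, hrz]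
    calc 1 + k * ((p : ZMod r) * q) = 1 + k * (p * q) + k * (p * (p * q)) +
          (k * (b + 1)) ^ 2 * (p * q) ^ 2 := by rw [e3, e1]; ring
      _ = 1 + k * ((p + 1) * (p * q)) + (k * (b + 1)) ^ 2 * (p * q) ^ 2 := by ring
      _ = 1 + k * (2 * (b + 1) * (p * q)) + (k * (b + 1)) ^ 2 * (p * q) ^ 2 := by rw [e2]
      _ = _ := by ring

/-- If `16 ∣ r`, then `1 + k r/2 ≡ (1 + k r/4)^2` modulo `r` since `r ∣ (r/4)^2`. -/
theorem sixteen_not_dvd (r : ℕ) [NeZero r] (ψ : DirichletCharacter ℂ r) (hψ : ψ.IsPrimitive)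
    (h2 : ψ ^ 2 = 1) : ¬ 16 ∣ r := by
  rintro ⟨q, hq⟩
  have hr : 0 < r := NeZero.pos r
  refine CO_factor r ψ hψ h2 (8 * q) ⟨2, by rw [hq]; ring⟩ (by omega) ?_
  intro k
  refine ⟨1 + k * ((4 * q : ℕ) : ZMod r), ?_⟩
  have hrz : ((16 * q : ℕ) : ZMod r) = 0 := by
    rw [← hq]; exact ZMod.natCast_self r
  push_cast at hrz ⊢
  have e1 : k ^ 2 * ((16 : ZMod r) * q) * q = 0 := by rw [hrz]; ring
  calc 1 + k * ((8 : ZMod r) * q) = 1 + k * (8 * q) + k ^ 2 * ((16 : ZMod r) * q) * q := by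
        rw [e1, add_zero]
    _ = _ := by ring

/-- If no prime `p ≥ 7` divides `r`, then `r ∣ 8 * 3 * 5`. -/
theorem cond_big (r : ℕ) [NeZero r] (ψ : DirichletCharacter ℂ r) (hψ : ψ.IsPrimitive)
    (h2 : ψ ^ 2 = 1) (hr : 120 < r) : ∃ p : ℕ, p.Prime ∧ 7 ≤ p ∧ p ∣ r := by
  by_contra hcon
  push Not at hcon
  have hd : r ∣ 120 := by
    rw [Nat.dvd_iff_prime_pow_dvd_dvd]
    intro p k hp hk
    rcases Nat.eq_zero_or_pos k with rfl | hk0
    · simp
    have hpr : p ∣ r := (dvd_pow_self p hk0.ne').trans hk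
    have hp7 : p < 7 := by
      by_contra h
      exact hcon p hp (by omega) hpr
    have hp2 := hp.two_le
    have hsq : p ≠ 2 → k = 1 := by
      intro hne
      by_contra hk1
      exact sq_not_dvd r ψ hψ h2 p hp hne ((pow_dvd_pow p (by omega)).trans hk)
    interval_cases p
    · have hk3 : k ≤ 3 := by
        by_contra h
        have h16 : (16 : ℕ) ∣ 2 ^ k := by
          have : (2 : ℕ) ^ 4 ∣ 2 ^ k := pow_dvd_pow 2 (by omega)
          simpa using this
        exact sixteen_not_dvd r ψ hψ h2 (h16.trans hk)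
      exact (pow_dvd_pow 2 hk3).trans (by norm_num)
    · rw [hsq (by norm_num)]; norm_num
    · exact absurd hp (by norm_num)
    · rw [hsq (by norm_num)]; norm_num
    · exact absurd hp (by norm_num)
  have := Nat.le_of_dvd (by norm_num) hd
  omega

end Pool.Agent.Lib.H18E
end

-- from Lib.H18Q.Z7
section

/-!
# Project H18Q, chunk Z7: counting points by measure
-/

open Finset

namespace Pool.Agent.Lib.H18Q

/-- Let `γ i`, `i ∈ S`, be reals with weights `m i ≥ 0`, `lam > 0`, all `[γ i - lam, γ i + lam]`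
contained in `[a, b]`; suppose the points within `lam` of any `v` have total weight at most `B`,
and `g ≥ 0` is continuous with `g v ≥ 1` whenever some `γ i` is within `lam` of `v ∈ [a, b]`. Then
`∑ m i ≤ B/(2 lam) ∫_a^b g`.

Proof: `2 lam m i = ∫_a^b m i 1[|γ i - v| ≤ lam] dv`; sum over `i`; the integrand
`∑_i m i 1[|γ i - v| ≤ lam]` is at most `B` and is `0` if no `γ i` is within `lam` of `v`, so it is at
most `B g(v)`. -/
theorem count_by_measure {ι : Type*} (S : Finset ι) (γ m : ι → ℝ) (lam a b B : ℝ) (g : ℝ → ℝ)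
    (hlam : 0 < lam) (hm : ∀ i ∈ S, 0 ≤ m i) (hB : 0 ≤ B)
    (ha : ∀ i ∈ S, a ≤ γ i - lam) (hb : ∀ i ∈ S, γ i + lam ≤ b) (hab : a ≤ b)
    (hloc : ∀ v ∈ Set.Icc a b, ∑ i ∈ S with |γ i - v| ≤ lam, m i ≤ B)
    (hg : Continuous g) (hg0 : ∀ v, 0 ≤ g v)
    (hg1 : ∀ v ∈ Set.Icc a b, (∃ i ∈ S, |γ i - v| ≤ lam) → 1 ≤ g v) :
    ∑ i ∈ S, m i ≤ B / (2 * lam) * ∫ v in a..b, g v := by
  classical
  have hind : ∀ i v, (if |γ i - v| ≤ lam then m i else 0) =
      (Set.Icc (γ i - lam) (γ i + lam)).indicator (fun _ => m i) v := by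
    intro i v
    rw [Set.indicator_apply]
    have h1 : |γ i - v| ≤ lam ↔ v ∈ Set.Icc (γ i - lam) (γ i + lam) := by
      rw [abs_le, Set.mem_Icc]
      constructor
      · rintro ⟨h1, h2⟩
        constructor <;> linarith
      · rintro ⟨h1, h2⟩
        constructor <;> linarith
    by_cases h : |γ i - v| ≤ lam
    · rw [if_pos h, if_pos (h1.1 h)]
    · rw [if_neg h, if_neg fun h2 => h (h1.2 h2)]
  have hint : ∀ i, MeasureTheory.Integrable (fun v : ℝ => if |γ i - v| ≤ lam then m i else 0) := by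
    intro i
    simp only [hind]
    rw [MeasureTheory.integrable_indicator_iff measurableSet_Icc]
    exact MeasureTheory.integrableOn_const (by rw [Real.volume_Icc]; exact ENNReal.ofReal_ne_top)
  have hval : ∀ i ∈ S, ∫ v in a..b, (if |γ i - v| ≤ lam then m i else 0) = 2 * lam * m i := by
    intro i hi
    rw [intervalIntegral.integral_of_le hab, ← MeasureTheory.integral_Icc_eq_integral_Ioc]
    simp only [hind]
    rw [MeasureTheory.setIntegral_indicator measurableSet_Icc]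
    have h1 : Set.Icc a b ∩ Set.Icc (γ i - lam) (γ i + lam) = Set.Icc (γ i - lam) (γ i + lam) :=
      Set.inter_eq_right.2 (Set.Icc_subset_Icc (ha i hi) (hb i hi))
    rw [h1, MeasureTheory.setIntegral_const, MeasureTheory.measureReal_def, Real.volume_Icc,
      ENNReal.toReal_ofReal (by linarith), smul_eq_mul]
    ring
  have hsum : ∑ i ∈ S, 2 * lam * m i = ∫ v in a..b, ∑ i ∈ S, (if |γ i - v| ≤ lam then m i else 0) := by
    rw [intervalIntegral.integral_finsetSum fun i _ => (hint i).intervalIntegrable]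
    exact sum_congr rfl fun i hi => (hval i hi).symm
  have hle : ∫ v in a..b, ∑ i ∈ S, (if |γ i - v| ≤ lam then m i else 0) ≤ ∫ v in a..b, B * g v := by
    refine intervalIntegral.integral_mono_on hab ?_ ?_ fun v hv => ?_
    · exact (MeasureTheory.integrable_finsetSum _ fun i _ => hint i).intervalIntegrable
    · exact (continuous_const.mul hg).intervalIntegrable _ _
    · by_cases h : ∃ i ∈ S, |γ i - v| ≤ lam
      · have h1 := hloc v hv
        rw [sum_filter] at h1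
        exact h1.trans (le_mul_of_one_le_right hB (hg1 v hv h))
      · rw [sum_eq_zero]
        · exact mul_nonneg hB (hg0 v)
        · intro i hi
          exact if_neg fun h2 => h ⟨i, hi, h2⟩
  rw [intervalIntegral.integral_const_mul, ← hsum, ← mul_sum] at hle
  rw [div_mul_eq_mul_div, le_div_iff₀ (by positivity)]
  linarith

end Pool.Agent.Lib.H18Q
end

-- from Lib.H18Q.CB
section

/-!
# Project H18Q, chunk CB: orthogonality of primitive periodic functions
-/

open Finset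

namespace Pool.Agent.Lib.H18Q

/-- The sum of a function of period `P` over `P` consecutive integers does not change if the
argument is shifted (auxiliary; any period multiple). -/
theorem CB_shift (f : ℤ → ℂ) (P : ℕ) (hP : 0 < P) (hf : ∀ m, f (m + P) = f m) (N : ℤ) :
    ∑ c ∈ range P, f ((c : ℤ) + N) = ∑ c ∈ range P, f (c : ℤ) := by
  have hstep : ∀ N : ℤ, ∑ c ∈ range P, f ((c : ℤ) + (N + 1)) = ∑ c ∈ range P, f ((c : ℤ) + N) := by
    intro N
    have h1 : ∑ c ∈ range (P + 1), f ((c : ℤ) + N) =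
        ∑ c ∈ range P, f ((c : ℤ) + N) + f ((P : ℤ) + N) := Finset.sum_range_succ _ _
    have h2 : ∑ c ∈ range (P + 1), f ((c : ℤ) + N) =
        ∑ c ∈ range P, f (((c + 1 : ℕ) : ℤ) + N) + f (((0 : ℕ) : ℤ) + N) :=
      Finset.sum_range_succ' _ _
    have h3 : f ((P : ℤ) + N) = f (((0 : ℕ) : ℤ) + N) := by
      rw [show (P : ℤ) + N = N + P by ring, hf]
      simp
    have h4 : ∑ c ∈ range P, f (((c + 1 : ℕ) : ℤ) + N) = ∑ c ∈ range P, f ((c : ℤ) + (N + 1)) := by
      apply Finset.sum_congr rfl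
      intro c _
      congr 1
      push_cast
      ring
    rw [← h4]
    have h5 := h1.symm.trans h2
    rw [h3] at h5
    exact (add_right_cancel h5).symm
  induction N using Int.induction_on with
  | zero => simp
  | succ i ih => rw [hstep, ih]
  | pred i ih =>
    have := hstep (-(i : ℤ) - 1)
    rw [← this, show -(i : ℤ) - 1 + 1 = -(i : ℤ) by ring, ih]

theorem cb_mul (f : ℤ → ℂ) (q : ℕ) (hf : ∀ m, f (m + q) = f m) (m k : ℤ) :
    f (m + k * q) = f m := by
  induction k using Int.induction_on with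
  | zero => simp
  | succ i ih =>
    rw [show m + ((i : ℤ) + 1) * q = m + i * q + q by ring, hf, ih]
  | pred i ih =>
    have := hf (m + (-(i : ℤ) - 1) * q)
    rw [← this, show m + (-(i : ℤ) - 1) * q + q = m + -(i : ℤ) * q by ring, ih]

theorem cb_unit (G : ℤ → ℂ) (l : ℕ) (hl : l.Prime) (hG : ∀ m, G (m + l) = G m) (u : ℤ)
    (hu : ¬ (l : ℤ) ∣ u) : ∑ j ∈ range l, G ((j : ℤ) * u) = ∑ j ∈ range l, G (j : ℤ) := by
  have hl0 : (0 : ℤ) < l := by exact_mod_cast hl.pos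
  have hnn : ∀ j : ℕ, 0 ≤ ((j : ℤ) * u) % l := fun j => Int.emod_nonneg _ hl0.ne'
  have hlt : ∀ j : ℕ, ((j : ℤ) * u) % l < l := fun j => Int.emod_lt_of_pos _ hl0
  have hcast : ∀ j : ℕ, (((((j : ℤ) * u) % l).toNat : ℕ) : ℤ) = ((j : ℤ) * u) % l :=
    fun j => Int.toNat_of_nonneg (hnn j)
  have hper : ∀ j : ℕ, G ((j : ℤ) * u) = G ((((((j : ℤ) * u) % l).toNat : ℕ) : ℤ)) := by
    intro j
    rw [hcast]
    have h1 := Int.emod_add_mul_ediv ((j : ℤ) * u) l
    conv_lhs => rw [← h1]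
    rw [mul_comm (l : ℤ), cb_mul G l hG]
  have hmaps : ∀ j ∈ range l, (((j : ℤ) * u) % l).toNat ∈ range l := by
    intro j _
    rw [Finset.mem_range]
    have := hlt j
    have h2 := hcast j
    omega
  have hinj : Set.InjOn (fun j : ℕ => (((j : ℤ) * u) % l).toNat) (range l : Finset ℕ) := by
    intro a ha b hb hab
    simp only at hab
    have h1 : ((a : ℤ) * u) % l = ((b : ℤ) * u) % l := by
      rw [← hcast a, ← hcast b, hab]
    have h2 : (l : ℤ) ∣ (a : ℤ) * u - b * u := (Int.emod_emod_of_dvd _ dvd_rfl ▸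
      Int.emod_eq_emod_iff_emod_sub_eq_zero.mp h1 |> Int.dvd_of_emod_eq_zero)
    rw [← sub_mul] at h2
    have hlp : Prime (l : ℤ) := Nat.prime_iff_prime_int.mp hl
    rcases hlp.dvd_or_dvd h2 with h3 | h3
    · have ha' := Finset.mem_range.mp (Finset.mem_coe.mp ha)
      have hb' := Finset.mem_range.mp (Finset.mem_coe.mp hb)
      have h4 : (a : ℤ) - b = 0 := by
        apply Int.eq_zero_of_abs_lt_dvd h3
        rw [abs_lt]
        constructor <;> omega
      omega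
    · exact absurd h3 hu
  have hsurj : Set.SurjOn (fun j : ℕ => (((j : ℤ) * u) % l).toNat) (range l : Finset ℕ)
      (range l : Finset ℕ) :=
    Finset.surjOn_of_injOn_of_card_le _ (fun j hj => hmaps j hj) hinj le_rfl
  rw [Finset.sum_congr rfl fun j _ => hper j]
  exact Finset.sum_nbij (fun j : ℕ => (((j : ℤ) * u) % l).toNat) hmaps hinj hsurj
    (fun j _ => rfl)

theorem cb_aux (φ1 φ2 : ℤ → ℂ) (q1 q2 : ℕ) (h1 : 0 < q1) (h2 : 0 < q2)
    (p1 : ∀ m, φ1 (m + q1) = φ1 m) (p2 : ∀ m, φ2 (m + q2) = φ2 m) (l : ℕ) (hl : l.Prime)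
    (r1 : ∀ m : ℤ, ∑ j ∈ range l, φ1 (m + (j : ℤ) * (q1 / l : ℕ)) = 0)
    (hlt : q2.factorization l < q1.factorization l)
    (s t τ1 τ2 : ℤ) (hτ : τ1 = 1 ∨ τ1 = -1) :
    ∑ c ∈ range (q1 * q2), φ1 (s + τ1 * (c : ℤ)) * φ2 (t + τ2 * (c : ℤ)) = 0 := by
  set b := q2.factorization l with hb
  obtain ⟨q2', hq2'⟩ : ∃ q', q2 = l ^ b * q' := Nat.ordProj_dvd q2 l
  have hco : ¬ l ∣ q2' := by
    intro h
    have h3 : l ^ (b + 1) ∣ q2 := by
      rw [hq2', pow_succ]
      exact Nat.mul_dvd_mul_left _ h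
    have h4 := (hl.pow_dvd_iff_le_factorization h2.ne').mp h3
    omega
  obtain ⟨w, hw⟩ : l ^ (b + 1) ∣ q1 := (hl.pow_dvd_iff_le_factorization h1.ne').mpr hlt
  have hlq : q1 / l = l ^ b * w := by
    rw [hw, pow_succ, mul_assoc, mul_comm l w, ← mul_assoc, Nat.mul_div_cancel _ hl.pos]
  have hq1 : q1 = l * (q1 / l) := by
    rw [hlq, hw, pow_succ]
    ring
  have hN : (q1 / l) * q2' = w * q2 := by
    rw [hlq, hq2']
    ring
  set F : ℤ → ℂ := fun c => φ1 (s + τ1 * c) * φ2 (t + τ2 * c) with hF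
  have hFper : ∀ m, F (m + ((q1 * q2 : ℕ) : ℤ)) = F m := by
    intro m
    simp only [hF]
    rw [show s + τ1 * (m + ((q1 * q2 : ℕ) : ℤ)) = (s + τ1 * m) + (τ1 * q2) * q1 by
      push_cast; ring, show t + τ2 * (m + ((q1 * q2 : ℕ) : ℤ)) = (t + τ2 * m) + (τ2 * q1) * q2 by
      push_cast; ring, cb_mul φ1 q1 p1, cb_mul φ2 q2 p2]
  have hsum : ∀ j : ℕ, ∑ c ∈ range (q1 * q2), F (c : ℤ) =
      ∑ c ∈ range (q1 * q2), φ1 (s + τ1 * (c : ℤ) + (j : ℤ) * (τ1 * q2') * ((q1 / l : ℕ) : ℤ)) *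
        φ2 (t + τ2 * (c : ℤ)) := by
    intro j
    rw [← CB_shift F (q1 * q2) (Nat.mul_pos h1 h2) hFper ((j : ℤ) * (((q1 / l) * q2' : ℕ) : ℤ))]
    apply Finset.sum_congr rfl
    intro c _
    simp only [hF]
    congr 1
    · congr 1
      push_cast
      ring
    · rw [hN, show t + τ2 * ((c : ℤ) + (j : ℤ) * ((w * q2 : ℕ) : ℤ)) =
        (t + τ2 * c) + (τ2 * j * w) * q2 by push_cast; ring, cb_mul φ2 q2 p2]
  have hinner : ∀ x : ℤ, ∑ j ∈ range l, φ1 (x + (j : ℤ) * (τ1 * q2') * ((q1 / l : ℕ) : ℤ)) = 0 := by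
    intro x
    have hper : ∀ m : ℤ, (fun i : ℤ => φ1 (x + i * ((q1 / l : ℕ) : ℤ))) (m + l) =
        (fun i : ℤ => φ1 (x + i * ((q1 / l : ℕ) : ℤ))) m := by
      intro m
      simp only
      rw [show x + (m + (l : ℤ)) * ((q1 / l : ℕ) : ℤ) =
        x + m * ((q1 / l : ℕ) : ℤ) + ((l * (q1 / l) : ℕ) : ℤ) by push_cast; ring, ← hq1, p1]
    have hu : ¬ (l : ℤ) ∣ τ1 * q2' := by
      intro h
      apply hco
      rcases hτ with h3 | h3
      · rw [h3, one_mul] at h
        exact_mod_cast h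
      · rw [h3, neg_one_mul, dvd_neg] at h
        exact_mod_cast h
    have h3 := cb_unit (fun i : ℤ => φ1 (x + i * ((q1 / l : ℕ) : ℤ))) l hl hper (τ1 * q2') hu
    rw [h3]
    exact r1 x
  have htot : (l : ℂ) * ∑ c ∈ range (q1 * q2), F (c : ℤ) = 0 := by
    have h3 : ∑ _j ∈ range l, ∑ c ∈ range (q1 * q2), F (c : ℤ) =
        (l : ℂ) * ∑ c ∈ range (q1 * q2), F (c : ℤ) := by
      rw [Finset.sum_const, Finset.card_range, nsmul_eq_mul]
    rw [← h3, Finset.sum_congr rfl fun j _ => hsum j, Finset.sum_comm]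
    apply Finset.sum_eq_zero
    intro c _
    rw [← Finset.sum_mul, hinner, zero_mul]
  rcases mul_eq_zero.mp htot with h3 | h3
  · exact absurd (by exact_mod_cast h3) hl.pos.ne'
  · exact h3

/-- **Orthogonality.** Proof. By symmetry (substituting `c → τ c`, and exchanging the roles) let `l`
be a prime with `v_l(q1) > v_l(q2)` (exists as `q1 ≠ q2`; if only `v_l(q2) > v_l(q1)` occurs, exchange
the functions). Let `q2 = l^b q2'`, `l ∤ q2'`, and `N = (q1/l) q2'`. `q2 ∣ N` because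
`l^(b+1) ∣ q1`. The function `F(c) = φ1(s + c) φ2(t + τ c)` has period `q1 q2`. For `j = 0, …, l-1`,
by `CB_shift` `∑_c F(c) = ∑_c F(c + j N)`, and `F(c + jN) = φ1(s + c + j N) φ2(t + τ c)`. Sum over
`j`: `l ∑_c F(c) = ∑_c φ2(t + τ c) ∑_j φ1(s + c + j (q1/l) q2')`, and as `q2'` is a unit modulo `l` and
`φ1` has period `q1`, the inner sum is `∑_j φ1(s + c + j (q1/l)) = 0`. -/
theorem orth (φ1 φ2 : ℤ → ℂ) (q1 q2 : ℕ) (h1 : 0 < q1) (h2 : 0 < q2)
    (p1 : ∀ m, φ1 (m + q1) = φ1 m) (p2 : ∀ m, φ2 (m + q2) = φ2 m)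
    (r1 : ∀ l : ℕ, l.Prime → l ∣ q1 → ∀ m : ℤ,
      ∑ j ∈ range l, φ1 (m + (j : ℤ) * (q1 / l : ℕ)) = 0)
    (r2 : ∀ l : ℕ, l.Prime → l ∣ q2 → ∀ m : ℤ,
      ∑ j ∈ range l, φ2 (m + (j : ℤ) * (q2 / l : ℕ)) = 0)
    (hne : q1 ≠ q2) (s t τ : ℤ) (hτ : τ = 1 ∨ τ = -1) :
    ∑ c ∈ range (q1 * q2), φ1 (s + (c : ℤ)) * φ2 (t + τ * (c : ℤ)) = 0 := by
  obtain ⟨l, hl⟩ : ∃ l, q1.factorization l ≠ q2.factorization l := by
    by_contra h
    push Not at h
    exact hne (Nat.eq_of_factorization_eq h1.ne' h2.ne' h)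
  have hlp : l.Prime := by
    by_contra h
    exact hl (by rw [Nat.factorization_eq_zero_of_not_prime _ h,
      Nat.factorization_eq_zero_of_not_prime _ h])
  rcases Nat.lt_or_gt_of_ne hl with h | h
  · have hd : l ∣ q2 := Nat.dvd_of_factorization_pos (by omega)
    have h3 := cb_aux φ2 φ1 q2 q1 h2 h1 p2 p1 l hlp (r2 l hlp hd) h t s τ 1 hτ
    rw [mul_comm q1 q2, ← h3]
    apply Finset.sum_congr rfl
    intro c _
    rw [one_mul, mul_comm]
  · have hd : l ∣ q1 := Nat.dvd_of_factorization_pos (by omega)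
    have h3 := cb_aux φ1 φ2 q1 q2 h1 h2 p1 p2 l hlp (r1 l hlp hd) h s t 1 τ (Or.inl rfl)
    rw [← h3]
    apply Finset.sum_congr rfl
    intro c _
    rw [one_mul]

theorem cb_per (φ : ℕ → ℂ) (P : ℕ) (per : ∀ c, φ (c + P) = φ c) (n c : ℕ) :
    φ (n * P + c) = φ c := by
  induction n with
  | zero => simp
  | succ n ih =>
    rw [show (n + 1) * P + c = n * P + c + P by ring, per, ih]

theorem cb_slow (f : ℕ → ℂ) (H : ℕ) (Λ : ℝ) (fl : ∀ c, c + 1 < H → ‖f (c + 1) - f c‖ ≤ Λ)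
    (a r : ℕ) (h : a + r < H) : ‖f (a + r) - f a‖ ≤ r * Λ := by
  induction r with
  | zero => simp
  | succ r ih =>
    have h1 := ih (by omega)
    have h2 := fl (a + r) (by omega)
    calc ‖f (a + (r + 1)) - f a‖ = ‖(f (a + r + 1) - f (a + r)) + (f (a + r) - f a)‖ := by
          congr 1
          rw [← add_assoc]
          ring
      _ ≤ ‖f (a + r + 1) - f (a + r)‖ + ‖f (a + r) - f a‖ := norm_add_le _ _
      _ ≤ Λ + r * Λ := add_le_add h2 h1
      _ = ((r + 1 : ℕ) : ℝ) * Λ := by push_cast; ring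

/-- Periodic times slowly varying. Proof: split `[0, H)` into `⌊H/P⌋` blocks of length `P` and a
rest of length `< P`. In a block starting at `c0`, `|f(c) - f(c0)| ≤ P Λ`, so the block sum is
`f(c0) ∑_{one period} φ` up to `Φ P · P Λ`. Total: `(H/P) F |∑_{period} φ| + (H/P) Φ P² Λ + Φ P F`. -/
theorem per_slow (φ f : ℕ → ℂ) (P H : ℕ) (hP : 0 < P) (Φ F Λ : ℝ) (hΦ : 0 ≤ Φ) (hF : 0 ≤ F)
    (hΛ : 0 ≤ Λ) (per : ∀ c, φ (c + P) = φ c) (bd : ∀ c, ‖φ c‖ ≤ Φ)
    (fb : ∀ c < H, ‖f c‖ ≤ F) (fl : ∀ c, c + 1 < H → ‖f (c + 1) - f c‖ ≤ Λ) :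
    ‖∑ c ∈ range H, φ c * f c‖ ≤
      ‖∑ c ∈ range P, φ c‖ / P * F * H + Φ * P * (F + H * Λ) := by
  set S := ‖∑ c ∈ range P, φ c‖ with hS
  have hS0 : 0 ≤ S := norm_nonneg _
  have hP0 : (0 : ℝ) < P := by exact_mod_cast hP
  have hblock : ∀ n : ℕ, (n + 1) * P ≤ H →
      ‖∑ r ∈ range P, φ (n * P + r) * f (n * P + r)‖ ≤ S * F + P * (Φ * (P * Λ)) := by
    intro n hn
    have hn' : n * P + P ≤ H := by
      have : (n + 1) * P = n * P + P := by ring
      omega
    have h1 : ∑ r ∈ range P, φ (n * P + r) * f (n * P + r) =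
        (∑ r ∈ range P, φ r) * f (n * P) +
          ∑ r ∈ range P, φ r * (f (n * P + r) - f (n * P)) := by
      rw [Finset.sum_mul, ← Finset.sum_add_distrib]
      apply Finset.sum_congr rfl
      intro r _
      rw [cb_per φ P per]
      ring
    rw [h1]
    refine (norm_add_le _ _).trans (add_le_add ?_ ?_)
    · rw [norm_mul]
      exact mul_le_mul_of_nonneg_left (fb _ (by omega)) hS0
    · calc ‖∑ r ∈ range P, φ r * (f (n * P + r) - f (n * P))‖
          ≤ ∑ r ∈ range P, ‖φ r * (f (n * P + r) - f (n * P))‖ := norm_sum_le _ _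
        _ ≤ ∑ _r ∈ range P, Φ * (P * Λ) := by
            apply Finset.sum_le_sum
            intro r hr
            have hr' := Finset.mem_range.mp hr
            rw [norm_mul]
            apply mul_le_mul (bd r) _ (norm_nonneg _) hΦ
            refine (cb_slow f H Λ fl (n * P) r (by omega)).trans ?_
            apply mul_le_mul_of_nonneg_right _ hΛ
            exact_mod_cast hr'.le
        _ = P * (Φ * (P * Λ)) := by
            rw [Finset.sum_const, Finset.card_range, nsmul_eq_mul]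
  have hblocks : ∀ n : ℕ, n * P ≤ H →
      ‖∑ c ∈ range (n * P), φ c * f c‖ ≤ n * (S * F + P * (Φ * (P * Λ))) := by
    intro n
    induction n with
    | zero => simp
    | succ n ih =>
      intro hn
      have hn' : n * P ≤ H := by
        have : (n + 1) * P = n * P + P := by ring
        omega
      rw [show (n + 1) * P = n * P + P by ring, Finset.sum_range_add]
      refine (norm_add_le _ _).trans ?_
      have h1 := ih hn'
      have h2 := hblock n hn
      push_cast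
      linarith
  have hHd : H = H / P * P + H % P := by
    rw [mul_comm]
    exact (Nat.div_add_mod H P).symm
  have hrest : ‖∑ r ∈ range (H % P), φ (H / P * P + r) * f (H / P * P + r)‖ ≤ P * (Φ * F) := by
    calc ‖∑ r ∈ range (H % P), φ (H / P * P + r) * f (H / P * P + r)‖
        ≤ ∑ r ∈ range (H % P), ‖φ (H / P * P + r) * f (H / P * P + r)‖ := norm_sum_le _ _
      _ ≤ ∑ _r ∈ range (H % P), Φ * F := by
          apply Finset.sum_le_sum
          intro r hr
          have hr' := Finset.mem_range.mp hr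
          rw [norm_mul]
          exact mul_le_mul (bd _) (fb _ (by omega)) (norm_nonneg _) hΦ
      _ = (H % P : ℕ) * (Φ * F) := by
          rw [Finset.sum_const, Finset.card_range, nsmul_eq_mul]
      _ ≤ P * (Φ * F) := by
          apply mul_le_mul_of_nonneg_right _ (mul_nonneg hΦ hF)
          exact_mod_cast (Nat.mod_lt H hP).le
  have hdiv : ((H / P : ℕ) : ℝ) ≤ H / P := Nat.cast_div_le
  have hmain := hblocks (H / P) (Nat.div_mul_le_self H P)
  have hsplit : ∑ c ∈ range H, φ c * f c = ∑ c ∈ range (H / P * P), φ c * f c +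
      ∑ r ∈ range (H % P), φ (H / P * P + r) * f (H / P * P + r) := by
    conv_lhs => rw [hHd]
    rw [Finset.sum_range_add]
  rw [hsplit]
  refine (norm_add_le _ _).trans ?_
  have hnn : 0 ≤ S * F + P * (Φ * (P * Λ)) := by positivity
  calc ‖∑ c ∈ range (H / P * P), φ c * f c‖ +
        ‖∑ r ∈ range (H % P), φ (H / P * P + r) * f (H / P * P + r)‖
      ≤ (H / P : ℕ) * (S * F + P * (Φ * (P * Λ))) + P * (Φ * F) := add_le_add hmain hrest
    _ ≤ (H / P : ℝ) * (S * F + P * (Φ * (P * Λ))) + P * (Φ * F) := by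
        have := mul_le_mul_of_nonneg_right hdiv hnn
        linarith
    _ = S / P * F * H + Φ * P * (F + H * Λ) := by
        field_simp
        ring

end Pool.Agent.Lib.H18Q
end

-- from Lib.H59C.CTN
section

/-!
# CTN: a numerical integral
-/

open Finset MeasureTheory

namespace Pool.Agent.Lib.H59C

theorem CTN_log {u : ℝ} (hu : 0 ≤ u) : Real.log (1 + u) ≤ u - u ^ 2 / 2 + u ^ 3 / 3 := by
  have hd : ∀ x : ℝ, 0 ≤ x → HasDerivAt (fun x : ℝ => x - x ^ 2 / 2 + x ^ 3 / 3 - Real.log (1 + x))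
      (x ^ 3 / (1 + x)) x := by
    intro x hx
    have h1 : (1 + x) ≠ 0 := by positivity
    have h2 : HasDerivAt (fun x : ℝ => Real.log (1 + x)) (1 / (1 + x)) x :=
      ((hasDerivAt_id x).const_add 1).log h1
    have h3 : HasDerivAt (fun x : ℝ => x - x ^ 2 / 2 + x ^ 3 / 3) (1 - x + x ^ 2) x := by
      have e := ((hasDerivAt_id x).sub (((hasDerivAt_id x).pow 2).div_const 2)).add
        (((hasDerivAt_id x).pow 3).div_const 3)
      refine e.congr_deriv ?_
      simp only [id]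
      push_cast
      ring
    refine (h3.sub h2).congr_deriv ?_
    field_simp
    ring
  have hm : MonotoneOn (fun x : ℝ => x - x ^ 2 / 2 + x ^ 3 / 3 - Real.log (1 + x)) (Set.Ici 0) := by
    apply monotoneOn_of_deriv_nonneg (convex_Ici 0)
    · intro x hx
      exact (hd x hx).continuousAt.continuousWithinAt
    · intro x hx
      rw [interior_Ici] at hx
      exact (hd x hx.le).differentiableAt.differentiableWithinAt
    · intro x hx
      rw [interior_Ici] at hx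
      have hx' : (0 : ℝ) < x := hx
      rw [(hd x hx'.le).deriv]
      positivity
  have h := hm (show (0 : ℝ) ∈ Set.Ici 0 from Set.mem_Ici.2 le_rfl) (show u ∈ Set.Ici 0 from hu) hu
  simp at h
  linarith

theorem CTN_A : 2 * (1 / 7 + (1 / 7) ^ 3 / 3 + (1 / 7) ^ 5 / 5) ≤ Real.log (4 / 3) := by
  have h := Real.hasSum_log_sub_log_of_abs_lt_one (x := 1 / 7) (by rw [abs_of_pos] <;> norm_num)
  have h1 := sum_le_hasSum (Finset.range 3) (fun k _ => by positivity) h
  have h2 : Real.log (4 / 3) = Real.log (1 + 1 / 7) - Real.log (1 - 1 / 7) := by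
    rw [← Real.log_div (by norm_num) (by norm_num)]
    norm_num
  rw [h2]
  refine le_trans (le_of_eq ?_) h1
  simp [Finset.sum_range_succ]
  norm_num

/-- Proof. With `u = 1 - 3x ∈ [0, 5/8]`: `log (2 - 3x) = log (1 + u) ≤ u - u²/2 + u³/3`, and
`u - u²/2 + u³/3 = 5/6 - 3 x + (9/2) x² - 9 x³` (`= g(x)`), `g(x)/(x (1 - x)) = (5/6)/x - (20/3)/(1 - x) + 9/2 + 9 x`
(`g(0) = 5/6`, `g(1) = -20/3`). So the integral is at most
`(5/6) log (8/3) + (20/3) log ((2/3)/(7/8)) + (9/2)(5/24) + (9/2)(1/9 - 1/64) = 0.37165...`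
(`log (16/21)`); bounds for `log 2`, `log 3`, `log 7` to `5` digits, or rational bounds for `exp`. -/
theorem switch_int :
    ∫ x in (1 / 8 : ℝ)..(1 / 3 : ℝ), Real.log (2 - 3 * x) / (x * (1 - x)) ≤ 372 / 1000 := by
  have hmem : ∀ x ∈ Set.uIcc (1 / 8 : ℝ) (1 / 3), 1 / 8 ≤ x ∧ x ≤ 1 / 3 := by
    intro x hx
    rw [Set.uIcc_of_le (by norm_num)] at hx
    exact ⟨hx.1, hx.2⟩
  have hc1 : ContinuousOn (fun x : ℝ => Real.log (2 - 3 * x) / (x * (1 - x)))
      (Set.uIcc (1 / 8 : ℝ) (1 / 3)) := by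
    apply ContinuousOn.div
    · apply ContinuousOn.log
      · fun_prop
      · intro x hx
        obtain ⟨h1, h2⟩ := hmem x hx
        linarith
    · fun_prop
    · intro x hx
      obtain ⟨h1, h2⟩ := hmem x hx
      have : 0 < x * (1 - x) := mul_pos (by linarith) (by linarith)
      exact this.ne'
  have hc2 : ContinuousOn (fun x : ℝ => (5 / 6) / x - (20 / 3) / (1 - x) + 9 / 2 + 9 * x)
      (Set.uIcc (1 / 8 : ℝ) (1 / 3)) := by
    apply ContinuousOn.add
    · apply ContinuousOn.add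
      · apply ContinuousOn.sub
        · apply ContinuousOn.div continuousOn_const continuousOn_id
          intro x hx
          obtain ⟨h1, h2⟩ := hmem x hx
          show x ≠ 0
          linarith
        · apply ContinuousOn.div continuousOn_const (by fun_prop)
          intro x hx
          obtain ⟨h1, h2⟩ := hmem x hx
          linarith
      · fun_prop
    · fun_prop
  have hle : ∫ x in (1 / 8 : ℝ)..(1 / 3 : ℝ), Real.log (2 - 3 * x) / (x * (1 - x)) ≤
      ∫ x in (1 / 8 : ℝ)..(1 / 3 : ℝ), ((5 / 6) / x - (20 / 3) / (1 - x) + 9 / 2 + 9 * x) := by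
    apply intervalIntegral.integral_mono_on (by norm_num) hc1.intervalIntegrable
      hc2.intervalIntegrable
    intro x hx
    obtain ⟨h1, h2⟩ := hx
    have hx0 : 0 < x := by linarith
    have hx1 : 0 < 1 - x := by linarith
    have h3 := CTN_log (u := 1 - 3 * x) (by linarith)
    have e : (1 : ℝ) + (1 - 3 * x) = 2 - 3 * x := by ring
    rw [e] at h3
    rw [div_le_iff₀ (mul_pos hx0 hx1)]
    refine h3.trans (le_of_eq ?_)
    field_simp
    ring
  refine hle.trans ?_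
  have hd : ∀ x ∈ Set.uIcc (1 / 8 : ℝ) (1 / 3), HasDerivAt
      (fun x : ℝ => (5 / 6) * Real.log x + (20 / 3) * Real.log (1 - x) + 9 / 2 * x + 9 / 2 * x ^ 2)
      ((5 / 6) / x - (20 / 3) / (1 - x) + 9 / 2 + 9 * x) x := by
    intro x hx
    obtain ⟨h1, h2⟩ := hmem x hx
    have hx0 : x ≠ 0 := by linarith
    have hx1 : 1 - x ≠ 0 := by linarith
    have a1 := (Real.hasDerivAt_log hx0).const_mul (5 / 6)
    have a2 := (((hasDerivAt_id x).const_sub 1).log hx1).const_mul (20 / 3)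
    have a3 := (hasDerivAt_id x).const_mul (9 / 2)
    have a4 := ((hasDerivAt_id x).pow 2).const_mul (9 / 2)
    refine (((a1.add a2).add a3).add a4).congr_deriv ?_
    simp only [id]
    push_cast
    field_simp
    ring
  rw [intervalIntegral.integral_eq_sub_of_hasDerivAt hd hc2.intervalIntegrable]
  have l2 := Real.log_two_lt_d9
  have lA := CTN_A
  have l63 : Real.log (64 / 63) ≤ 1 / 63 - (1 / 63) ^ 2 / 2 + (1 / 63) ^ 3 / 3 := by
    have := CTN_log (u := 1 / 63) (by norm_num)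
    have e : (1 : ℝ) + 1 / 63 = 64 / 63 := by norm_num
    rwa [e] at this
  have n2 : (0 : ℝ) < 2 := by norm_num
  have e1 : Real.log (1 / 3) - Real.log (1 / 8) = Real.log (4 / 3) + Real.log 2 := by
    rw [← Real.log_div (by norm_num) (by norm_num), ← Real.log_mul (by norm_num) (by norm_num)]
    norm_num
  have e2 : Real.log (1 - 1 / 3) - Real.log (1 - 1 / 8) =
      Real.log (64 / 63) - Real.log (4 / 3) := by
    rw [← Real.log_div (by norm_num) (by norm_num), ← Real.log_div (by norm_num) (by norm_num)]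
    norm_num
  have e : (5 / 6 * Real.log (1 / 3) + 20 / 3 * Real.log (1 - 1 / 3) + 9 / 2 * (1 / 3) +
      9 / 2 * (1 / 3) ^ 2) - (5 / 6 * Real.log (1 / 8) + 20 / 3 * Real.log (1 - 1 / 8) +
      9 / 2 * (1 / 8) + 9 / 2 * (1 / 8) ^ 2) = 5 / 6 * (Real.log (4 / 3) + Real.log 2) +
      20 / 3 * (Real.log (64 / 63) - Real.log (4 / 3)) + 175 / 128 := by
    rw [← e1, ← e2]
    ring
  rw [e]
  norm_num at *
  linarith

end Pool.Agent.Lib.H59C
end

-- from Lib.H59C.SW3
section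

/-!
# SW3: the conductor of a real primitive character has a large prime factor
-/

open Finset

namespace Pool.Agent.Lib.H59C

theorem SW3_aux (r d : ℕ) [NeZero r] (hd : d ∣ r) (hdr : d < r) (ψ : DirichletCharacter ℂ r)
    (hψ : ψ.IsPrimitive) (h2 : ψ ^ 2 = 1)
    (h : ∀ t : ℤ, ∃ y : ZMod r, y ^ 2 = 1 + (d : ZMod r) * (t : ZMod r)) : False := by
  have hfac : ψ.FactorsThrough d := by
    rw [DirichletCharacter.factorsThrough_iff_ker_unitsMap hd]
    intro x hx
    rw [MonoidHom.mem_ker] at hx ⊢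
    have h1 : (((x : ZMod r).val : ℤ) : ZMod d) = 1 := by
      have h3 := congrArg Units.val hx
      rw [ZMod.unitsMap_val, Units.val_one, ZMod.cast_eq_val] at h3
      rw [Int.cast_natCast]
      exact h3
    have h4 : (d : ℤ) ∣ ((x : ZMod r).val : ℤ) - 1 := by
      rw [← ZMod.intCast_zmod_eq_zero_iff_dvd]
      rw [Int.cast_sub, h1, Int.cast_one, sub_self]
    obtain ⟨t, ht⟩ := h4
    have h5 : (x : ZMod r) = 1 + (d : ZMod r) * (t : ZMod r) := by
      have h6 := congrArg (fun z : ℤ => (z : ZMod r)) ht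
      simp only [Int.cast_sub, Int.cast_natCast, Int.cast_one, Int.cast_mul] at h6
      rw [ZMod.natCast_zmod_val] at h6
      linear_combination h6
    obtain ⟨y, hy⟩ := h t
    rw [← h5] at hy
    have hyu : IsUnit y := by
      have : IsUnit (y ^ 2) := by rw [hy]; exact x.isUnit
      exact (isUnit_pow_iff two_ne_zero).1 this
    apply Units.ext
    rw [MulChar.coe_toUnitHom, Units.val_one, ← hy, map_pow, ← MulChar.pow_apply' ψ two_ne_zero, h2]
    exact MulChar.one_apply hyu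
  have h7 : ψ.conductor ≤ d := Nat.sInf_le hfac
  have h8 : ψ.conductor = r := hψ
  omega

/-- If `q = p²`-divisible for an odd prime `p`, or `16 ∣ r`, a real character mod `r` is not
primitive.

Proof. Let `p² ∣ r`, `p` odd (resp. `p = 2`, `16 ∣ r`), `r' = r/p`. If `x ≡ 1 mod r'`, `x = 1 + r' t`, then `x`
is a square mod `r`: for odd `p` choose `t'` with `2 t' ≡ t mod p`; `(1 + r' t')² = 1 + 2 r' t' + r'² t'²`,
and `r ∣ r'²` since `p² ∣ r`, `2 r' t' ≡ r' t mod r`. For `p = 2`: `(1 + (r/4) t)² = 1 + (r/2) t + (r/4)² t²`,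
`r ∣ (r/4)²` as `16 ∣ r`. So `ψ(x) = ψ(y)² = 1` for all units `x ≡ 1 mod r'`, i.e. `ψ` factors through
`r' < r` (`DirichletCharacter.factorsThrough_iff_ker_unitsMap`, `conductor_le...`), contradicting
`IsPrimitive`. -/
theorem cond_sq (r : ℕ) [NeZero r] (ψ : DirichletCharacter ℂ r) (hψ : ψ.IsPrimitive)
    (h2 : ψ ^ 2 = 1) : (∀ p : ℕ, p.Prime → p ≠ 2 → ¬ p ^ 2 ∣ r) ∧ ¬ 16 ∣ r := by
  have hr : r ≠ 0 := NeZero.ne r
  have h0 : ((r : ℕ) : ZMod r) = 0 := ZMod.natCast_self r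
  constructor
  · rintro p hp hp2 ⟨k, hk⟩
    have hk0 : 0 < k := Nat.pos_of_ne_zero (by rintro rfl; rw [mul_zero] at hk; exact hr hk)
    obtain ⟨s, hs⟩ := hp.odd_of_ne_two hp2
    refine SW3_aux r (p * k) ⟨p, by rw [hk]; ring⟩ ?_ ψ hψ h2 fun t => ?_
    · rw [hk]
      have := hp.two_le
      nlinarith
    · refine ⟨1 + ((p * k : ℕ) : ZMod r) * (((s : ℤ) + 1) * t : ℤ), ?_⟩
      have h3 : (p : ZMod r) ^ 2 * (k : ZMod r) = 0 := by
        have e := congrArg (fun n : ℕ => (n : ZMod r)) hk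
        push_cast at e
        rw [← e]
        exact h0
      have h4 : (p : ZMod r) = 2 * (s : ZMod r) + 1 := by
        have := congrArg (fun n : ℕ => (n : ZMod r)) hs
        push_cast at this
        exact this
      push_cast
      linear_combination ((t : ZMod r) + (k : ZMod r) * (((s : ZMod r) + 1) * (t : ZMod r)) ^ 2) * h3 -
        (p : ZMod r) * (k : ZMod r) * (t : ZMod r) * h4
  · rintro ⟨k, hk⟩
    have hk0 : 0 < k := Nat.pos_of_ne_zero (by rintro rfl; rw [mul_zero] at hk; exact hr hk)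
    refine SW3_aux r (8 * k) ⟨2, by rw [hk]; ring⟩ (by omega) ψ hψ h2 fun t => ?_
    refine ⟨1 + ((4 * k : ℕ) : ZMod r) * (t : ZMod r), ?_⟩
    have h3 : 16 * (k : ZMod r) = 0 := by
      have e := congrArg (fun n : ℕ => (n : ZMod r)) hk
      push_cast at e
      rw [← e]
      exact h0
    push_cast
    linear_combination (k : ZMod r) * (t : ZMod r) ^ 2 * h3

/-- So `r` divides `8 ∏_{q ∣ r} q`, and if all prime factors of `r` are `< K` then `r ≤ 8 K^K`
(`primorial`). -/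
theorem large_prime (K : ℕ) : ∃ r0 : ℕ, ∀ r : ℕ, r0 ≤ r → ∀ [NeZero r],
    ∀ ψ : DirichletCharacter ℂ r, ψ.IsPrimitive → ψ ^ 2 = 1 →
    ∃ q : ℕ, q.Prime ∧ K ≤ q ∧ q ∣ r := by
  refine ⟨(K ^ 3) ^ K + 1, fun r hr _ ψ hψ h2 => ?_⟩
  by_contra hno
  push Not at hno
  have hr0 : r ≠ 0 := NeZero.ne r
  obtain ⟨c1, c2⟩ := cond_sq r ψ hψ h2
  have hlt : ∀ q ∈ r.primeFactors, q < K := by
    intro q hq
    by_contra hK
    exact hno q (Nat.prime_of_mem_primeFactors hq) (not_lt.1 hK) (Nat.dvd_of_mem_primeFactors hq)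
  have hv : ∀ q ∈ r.primeFactors, r.factorization q ≤ 3 := by
    intro q hq
    have hqp := Nat.prime_of_mem_primeFactors hq
    by_contra h3
    have h4 : q ^ 4 ∣ r := (hqp.pow_dvd_iff_le_factorization hr0).2 (by omega)
    by_cases hq2 : q = 2
    · subst hq2
      exact c2 (by simpa using h4)
    · exact c1 q hqp hq2 ((pow_dvd_pow q (by norm_num)).trans h4)
  have h1 : r ≤ (K ^ 3) ^ r.primeFactors.card := by
    conv_lhs => rw [← Nat.prod_factorization_pow_eq_self hr0]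
    rw [Finsupp.prod, Nat.support_factorization]
    rw [← Finset.prod_const]
    apply Finset.prod_le_prod'
    intro q hq
    have hqp := Nat.prime_of_mem_primeFactors hq
    calc q ^ r.factorization q ≤ q ^ 3 := Nat.pow_le_pow_right hqp.pos (hv q hq)
      _ ≤ K ^ 3 := Nat.pow_le_pow_left (hlt q hq).le 3
  have h5 : r.primeFactors.card ≤ K := by
    have : r.primeFactors ⊆ range K := fun q hq => mem_range.2 (hlt q hq)
    simpa using card_le_card this
  rcases Nat.eq_zero_or_pos K with rfl | hK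
  · have h6 : r.primeFactors.card = 0 := by omega
    rw [h6] at h1
    simp only [pow_zero] at h1 hr
    omega
  · have h6 : (K ^ 3) ^ r.primeFactors.card ≤ (K ^ 3) ^ K :=
      Nat.pow_le_pow_right (by positivity) h5
    omega

end Pool.Agent.Lib.H59C
end

-- from Lib.H18Q.PB1
section

/-!
# Project H18Q, chunk PB1: decay of a Fourier transform, three derivatives
-/

open Finset MeasureTheory

namespace Pool.Agent.Lib.H18Q

theorem PB1_int (h : ℝ → ℝ) (a b : ℝ) (hc : Continuous h) (z : ∀ y, y ∉ Set.Icc a b → h y = 0) (ξ : ℝ) :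
    Integrable (fun y : ℝ => (h y : ℂ) * Complex.exp (-(ξ * y * Complex.I))) := by
  have hcont : Continuous (fun y : ℝ => (h y : ℂ) * Complex.exp (-(ξ * y * Complex.I))) := by
    fun_prop
  refine hcont.integrable_of_hasCompactSupport ?_
  refine HasCompactSupport.intro (K := Set.Icc a b) isCompact_Icc ?_
  intro y hy
  simp only [z y hy, Complex.ofReal_zero, zero_mul]

theorem PB1_norm (ξ y : ℝ) : ‖Complex.exp (-(ξ * y * Complex.I))‖ = 1 := by
  have e : -((ξ : ℂ) * y * Complex.I) = ((-(ξ * y) : ℝ) : ℂ) * Complex.I := by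
    push_cast
    ring
  rw [e, Complex.norm_exp_ofReal_mul_I]

theorem PB1_bd (h : ℝ → ℝ) (a b M : ℝ) (hab : a ≤ b) (z : ∀ y, y ∉ Set.Icc a b → h y = 0)
    (hb : ∀ y, |h y| ≤ M) (ξ : ℝ) :
    ‖∫ y : ℝ, (h y : ℂ) * Complex.exp (-(ξ * y * Complex.I))‖ ≤ (b - a) * M := by
  rw [← setIntegral_eq_integral_of_forall_compl_eq_zero (s := Set.Icc a b) (fun y hy => by
    simp only [z y hy, Complex.ofReal_zero, zero_mul])]
  have h1 := norm_setIntegral_le_of_norm_le_const (μ := volume) (s := Set.Icc a b) (C := M)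
    (f := fun y : ℝ => (h y : ℂ) * Complex.exp (-(ξ * y * Complex.I)))
    (by rw [Real.volume_Icc]; exact ENNReal.ofReal_lt_top)
    (fun y _ => by
      rw [norm_mul, PB1_norm, mul_one, Complex.norm_real, Real.norm_eq_abs]
      exact hb y)
  refine h1.trans (le_of_eq ?_)
  rw [Real.volume_real_Icc_of_le hab, mul_comm]

theorem PB1_step (h h' : ℝ → ℝ) (a b : ℝ) (hd : ∀ y, HasDerivAt h (h' y) y) (hc : Continuous h')
    (z : ∀ y, y ∉ Set.Icc a b → h y = 0) (z' : ∀ y, y ∉ Set.Icc a b → h' y = 0) (ξ : ℝ) :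
    ((ξ : ℂ) * Complex.I) * ∫ y : ℝ, (h y : ℂ) * Complex.exp (-(ξ * y * Complex.I)) =
      ∫ y : ℝ, (h' y : ℂ) * Complex.exp (-(ξ * y * Complex.I)) := by
  have hcont : Continuous h := continuous_iff_continuousAt.2 fun y => (hd y).continuousAt
  have i1 := PB1_int h a b hcont z ξ
  have i2 := PB1_int h' a b hc z' ξ
  have hv : ∀ y : ℝ, HasDerivAt (fun y : ℝ => Complex.exp (-(ξ * y * Complex.I)))
      (-((ξ : ℂ) * Complex.I) * Complex.exp (-(ξ * y * Complex.I))) y := by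
    intro y
    have e1 : HasDerivAt (fun y : ℝ => -((ξ : ℂ) * y * Complex.I)) (-((ξ : ℂ) * 1 * Complex.I)) y := by
      exact (((Complex.ofRealCLM.hasDerivAt (x := y)).const_mul (ξ : ℂ)).mul_const Complex.I).neg
    have e2 := e1.cexp
    refine e2.congr_deriv ?_
    ring
  have key := integral_mul_deriv_eq_deriv_mul_of_integrable (A := ℂ)
    (u := fun y : ℝ => (h y : ℂ)) (u' := fun y : ℝ => (h' y : ℂ))
    (v := fun y : ℝ => Complex.exp (-(ξ * y * Complex.I)))
    (v' := fun y : ℝ => -((ξ : ℂ) * Complex.I) * Complex.exp (-(ξ * y * Complex.I)))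
    (fun y _ => (hd y).ofReal_comp) (fun y _ => hv y)
    (by
      refine (i1.const_mul (-((ξ : ℂ) * Complex.I))).congr (Filter.Eventually.of_forall fun y => ?_)
      simp only [Pi.mul_apply]
      ring) i2 i1
  have e3 : (∫ y : ℝ, (h y : ℂ) * (-((ξ : ℂ) * Complex.I) * Complex.exp (-(ξ * y * Complex.I)))) =
      -((ξ : ℂ) * Complex.I) * ∫ y : ℝ, (h y : ℂ) * Complex.exp (-(ξ * y * Complex.I)) := by
    rw [← integral_const_mul]
    refine integral_congr_ae (Filter.Eventually.of_forall fun y => ?_)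
    simp only
    ring
  rw [e3] at key
  linear_combination -key

theorem PB1_real {X t B : ℝ} (hX : 0 ≤ X) (ht : 0 ≤ t) (h1 : X ≤ B) (h2 : t ^ 3 * X ≤ B) :
    X * (1 + t) ^ 3 ≤ 8 * B := by
  have h3 : (1 + t) ^ 3 ≤ 4 * (1 + t ^ 3) := by
    nlinarith [mul_nonneg (sq_nonneg (1 - t)) (by linarith : (0 : ℝ) ≤ 1 + t)]
  have h4 : X * (1 + t) ^ 3 ≤ X * (4 * (1 + t ^ 3)) := mul_le_mul_of_nonneg_left h3 hX
  nlinarith

/-- Decay of order three. Proof: `|∫| ≤ (b-a) M` trivially, and integrating by parts three times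
(compact support) `|ξ|³ |∫ f e^(-iξy)| = |∫ f3 e^(-iξy)| ≤ (b - a) M`; so the integral is at most
`(b-a) M min(1, |ξ|^(-3)) ≤ 8 (b-a) M/(1+|ξ|)³`. -/
theorem fourier_decay3 (f f1 f2 f3 : ℝ → ℝ) (a b M : ℝ) (hab : a ≤ b) (hM : 0 ≤ M)
    (h0 : ∀ y, HasDerivAt f (f1 y) y) (h1 : ∀ y, HasDerivAt f1 (f2 y) y)
    (h2 : ∀ y, HasDerivAt f2 (f3 y) y) (hc : Continuous f3)
    (z0 : ∀ y, y ∉ Set.Icc a b → f y = 0) (z1 : ∀ y, y ∉ Set.Icc a b → f1 y = 0)
    (z2 : ∀ y, y ∉ Set.Icc a b → f2 y = 0) (z3 : ∀ y, y ∉ Set.Icc a b → f3 y = 0)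
    (b0 : ∀ y, |f y| ≤ M) (b3 : ∀ y, |f3 y| ≤ M) (ξ : ℝ) :
    ‖∫ y : ℝ, (f y : ℂ) * Complex.exp (-(ξ * y * Complex.I))‖ ≤
      8 * (b - a) * M / (1 + |ξ|) ^ 3 := by
  have c2 : Continuous f2 := continuous_iff_continuousAt.2 fun y => (h2 y).continuousAt
  have c1 : Continuous f1 := continuous_iff_continuousAt.2 fun y => (h1 y).continuousAt
  have s0 := PB1_step f f1 a b h0 c1 z0 z1 ξ
  have s1 := PB1_step f1 f2 a b h1 c2 z1 z2 ξ
  have s2 := PB1_step f2 f3 a b h2 hc z2 z3 ξ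
  have B0 := PB1_bd f a b M hab z0 b0 ξ
  have B3 := PB1_bd f3 a b M hab z3 b3 ξ
  have e : ‖(ξ : ℂ)‖ = |ξ| := by
    rw [Complex.norm_real, Real.norm_eq_abs]
  rw [← s2, ← s1, ← s0] at B3
  simp only [norm_mul, Complex.norm_I, mul_one, e] at B3
  have hpos : 0 < (1 + |ξ|) ^ 3 := by positivity
  rw [le_div_iff₀ hpos]
  have := PB1_real (norm_nonneg _) (abs_nonneg ξ) B0 (by
    calc _ = _ := ?_
      _ ≤ _ := B3
    ring)
  linarith

/-- Fourier inversion in the form used. Proof: the integral of `PB1` is Mathlib's Fourier transform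
at `ξ/(2π)`; it is integrable by `fourier_decay3` (continuity of the Fourier transform of an
integrable function), so `MeasureTheory`'s inversion theorem
(`Continuous.fourierInv_fourier_eq` or its present name) applies; substitute `ξ = 2π x`. -/
theorem fourier_inv3 (f f1 f2 f3 : ℝ → ℝ) (a b M : ℝ) (hab : a ≤ b) (hM : 0 ≤ M)
    (h0 : ∀ y, HasDerivAt f (f1 y) y) (h1 : ∀ y, HasDerivAt f1 (f2 y) y)
    (h2 : ∀ y, HasDerivAt f2 (f3 y) y) (hc : Continuous f3)
    (z0 : ∀ y, y ∉ Set.Icc a b → f y = 0) (z1 : ∀ y, y ∉ Set.Icc a b → f1 y = 0)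
    (z2 : ∀ y, y ∉ Set.Icc a b → f2 y = 0) (z3 : ∀ y, y ∉ Set.Icc a b → f3 y = 0)
    (b0 : ∀ y, |f y| ≤ M) (b3 : ∀ y, |f3 y| ≤ M) :
    ∃ g : ℝ → ℂ, Continuous g ∧ (∀ ξ, ‖g ξ‖ ≤ 2 * (b - a) * M / (1 + |ξ|) ^ 3) ∧
      ∀ u : ℝ, (f u : ℂ) = ∫ ξ : ℝ, g ξ * Complex.exp (u * ξ * Complex.I) := by
  have hcont : Continuous f := continuous_iff_continuousAt.2 fun y => (h0 y).continuousAt
  have hdec := fourier_decay3 f f1 f2 f3 a b M hab hM h0 h1 h2 hc z0 z1 z2 z3 b0 b3
  obtain ⟨G, hG⟩ : ∃ G : ℝ → ℂ, ∀ ξ, G ξ = ∫ y : ℝ, (f y : ℂ) * Complex.exp (-(ξ * y * Complex.I)) :=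
    ⟨_, fun _ => rfl⟩
  have hGc : Continuous G := by
    have e : G = fun ξ : ℝ => ∫ y : ℝ, (f y : ℂ) * Complex.exp (-(ξ * y * Complex.I)) := funext hG
    rw [e]
    refine continuous_of_dominated (bound := fun y => ‖(f y : ℂ)‖) ?_ ?_ ?_ ?_
    · intro ξ
      exact (PB1_int f a b hcont z0 ξ).aestronglyMeasurable
    · intro ξ
      refine Filter.Eventually.of_forall fun y => ?_
      rw [norm_mul, PB1_norm, mul_one]
    · have := (PB1_int f a b hcont z0 0).norm
      refine this.congr (Filter.Eventually.of_forall fun y => ?_)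
      simp only [norm_mul, PB1_norm, mul_one]
    · refine Filter.Eventually.of_forall fun y => ?_
      fun_prop
  have hGb : ∀ ξ, ‖G ξ‖ ≤ 8 * (b - a) * M / (1 + |ξ|) ^ 3 := fun ξ => by
    rw [hG]
    exact hdec ξ
  have hba : 0 ≤ (b - a) * M := mul_nonneg (by linarith) hM
  obtain ⟨fc, hfc⟩ : ∃ fc : ℝ → ℂ, ∀ y, fc y = (f y : ℂ) := ⟨_, fun _ => rfl⟩
  have hfc' : fc = fun y => (f y : ℂ) := funext hfc
  have hF : ∀ x : ℝ, FourierTransform.fourier fc x = G (2 * Real.pi * x) := by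
    intro x
    rw [Real.fourier_real_eq_integral_exp_smul, hG]
    refine integral_congr_ae (Filter.Eventually.of_forall fun y => ?_)
    simp only [hfc, smul_eq_mul]
    rw [mul_comm]
    congr 2
    push_cast
    ring
  have hfint : Integrable fc := by
    have := PB1_int f a b hcont z0 0
    refine this.congr (Filter.Eventually.of_forall fun y => ?_)
    simp only [hfc, Complex.ofReal_zero, zero_mul, neg_zero, Complex.exp_zero, mul_one]
  have hFfun : FourierTransform.fourier fc = fun x : ℝ => G (2 * Real.pi * x) := funext hF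
  have hFint : Integrable (FourierTransform.fourier fc) := by
    rw [hFfun]
    have h3 := (integrable_inv_one_add_sq).const_mul (8 * (b - a) * M)
    refine h3.mono' (hGc.comp (continuous_const.mul continuous_id)).aestronglyMeasurable ?_
    refine Filter.Eventually.of_forall fun x => ?_
    refine (hGb _).trans ?_
    rw [div_eq_mul_inv]
    refine mul_le_mul_of_nonneg_left ?_ (by nlinarith)
    refine inv_anti₀ (by positivity) ?_
    have hpi : 1 ≤ 2 * Real.pi := by nlinarith [Real.pi_gt_three]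
    have h4 : |x| ≤ |2 * Real.pi * x| := by
      rw [abs_mul, abs_of_nonneg (by linarith : (0 : ℝ) ≤ 2 * Real.pi)]
      nlinarith [abs_nonneg x]
    have h5 : (1 + |x|) ^ 3 ≤ (1 + |2 * Real.pi * x|) ^ 3 := by
      gcongr
    have h6 : 1 + x ^ 2 ≤ (1 + |x|) ^ 3 := by
      have h7 := abs_nonneg x
      have h8 : x ^ 2 = |x| ^ 2 := (sq_abs x).symm
      rw [h8]
      nlinarith [mul_nonneg h7 h7, mul_nonneg h7 (mul_nonneg h7 h7)]
    exact h6.trans h5
  have hinv := Continuous.fourierInv_fourier_eq (f := fc) (by rw [hfc']; fun_prop) hfint hFint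
  refine ⟨fun ξ => ((1 / (2 * Real.pi) : ℝ) : ℂ) * G ξ, by fun_prop, ?_, ?_⟩
  · intro ξ
    rw [norm_mul, Complex.norm_real, Real.norm_eq_abs, abs_of_nonneg (by positivity)]
    have h3 := hGb ξ
    have hpos : 0 < (1 + |ξ|) ^ 3 := by positivity
    have h4 : 1 / (2 * Real.pi) ≤ 1 / 4 := by
      apply one_div_le_one_div_of_le (by norm_num)
      nlinarith [Real.pi_gt_three]
    calc 1 / (2 * Real.pi) * ‖G ξ‖ ≤ 1 / 4 * (8 * (b - a) * M / (1 + |ξ|) ^ 3) :=
          mul_le_mul h4 h3 (norm_nonneg _) (by norm_num)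
      _ = 2 * (b - a) * M / (1 + |ξ|) ^ 3 := by ring
  · intro u
    have h3 := congrFun hinv u
    rw [Real.fourierInv_eq', hfc] at h3
    rw [← h3]
    obtain ⟨Q, hQ⟩ : ∃ Q : ℝ → ℂ, ∀ x, Q x = G x * Complex.exp (u * x * Complex.I) := ⟨_, fun _ => rfl⟩
    have e1 : (∫ ξ : ℝ, ((1 / (2 * Real.pi) : ℝ) : ℂ) * G ξ * Complex.exp (u * ξ * Complex.I)) =
        ((1 / (2 * Real.pi) : ℝ) : ℂ) * ∫ ξ : ℝ, Q ξ := by
      rw [← integral_const_mul]
      refine integral_congr_ae (Filter.Eventually.of_forall fun y => ?_)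
      simp only [hQ]
      ring
    have e2 := Measure.integral_comp_mul_left Q (2 * Real.pi)
    rw [e1]
    have e3 : (∫ x : ℝ, Q (2 * Real.pi * x)) = ∫ v : ℝ, Complex.exp (↑(2 * Real.pi * inner ℝ v u) * Complex.I) •
        FourierTransform.fourier fc v := by
      refine integral_congr_ae (Filter.Eventually.of_forall fun x => ?_)
      simp only [hQ, hF, smul_eq_mul]
      rw [mul_comm]
      congr 2
      simp only [RCLike.inner_apply, conj_trivial]
      push_cast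
      ring
    rw [← e3, e2, abs_of_pos (by positivity), Complex.real_smul]
    simp only [one_div]

end Pool.Agent.Lib.H18Q
end

-- from Lib.H18Q.PG1
section

/-!
# Project H18Q, chunk PG1: the convolution estimate
-/

open Finset MeasureTheory

namespace Pool.Agent.Lib.H18Q

theorem pg1_int : Integrable (fun ξ : ℝ => 1 / (1 + |ξ|) ^ 3) := by
  have h := integrable_one_add_norm (E := ℝ) (μ := volume) (r := 3) (by simp)
  refine h.congr (Filter.Eventually.of_forall fun x => ?_)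
  have h1 : (0:ℝ) < 1 + |x| := by positivity
  have : (1 + ‖x‖) ^ (-(3:ℝ)) = 1 / (1 + |x|) ^ 3 := by
    rw [Real.norm_eq_abs, Real.rpow_neg h1.le]
    rw [show (3:ℝ) = ((3:ℕ):ℝ) by norm_num, Real.rpow_natCast]
    rw [one_div]
  exact this

theorem pg1_Ioi (c : ℝ) (hc : 0 ≤ c) :
    ∫ x in Set.Ioi c, 1 / (1 + x) ^ 3 = 1 / (2 * (1 + c) ^ 2) := by
  have hd : ∀ x ∈ Set.Ici c, HasDerivAt (fun y : ℝ => -(1 / (2 * (1 + y) ^ 2)))
      (1 / (1 + x) ^ 3) x := by
    intro x hx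
    have hx0 : 0 < 1 + x := by
      have : c ≤ x := hx
      linarith
    have h1 : HasDerivAt (fun y : ℝ => 2 * (1 + y) ^ 2) (2 * (2 * (1 + x))) x := by
      have h2 := ((hasDerivAt_id x).const_add (1:ℝ)).pow 2
      have h3 := h2.const_mul (2:ℝ)
      refine h3.congr_deriv ?_
      simp
    have h4 := (h1.inv (by positivity)).neg
    have h5 : (fun y : ℝ => -(1 / (2 * (1 + y) ^ 2))) = fun y => -(2 * (1 + y) ^ 2)⁻¹ := by
      funext y
      rw [one_div]
    rw [h5]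
    refine h4.congr_deriv ?_
    field_simp
  have hint : IntegrableOn (fun x : ℝ => 1 / (1 + x) ^ 3) (Set.Ioi c) := by
    refine (pg1_int.integrableOn (s := Set.Ioi c)).congr_fun ?_ measurableSet_Ioi
    intro x hx
    have : c < x := hx
    have h0 : |x| = x := abs_of_pos (by linarith)
    simp only [h0]
  have hlim : Filter.Tendsto (fun y : ℝ => -(1 / (2 * (1 + y) ^ 2))) Filter.atTop (nhds 0) := by
    rw [← neg_zero]
    refine Filter.Tendsto.neg ?_
    have h1 : Filter.Tendsto (fun y : ℝ => 2 * (1 + y) ^ 2) Filter.atTop Filter.atTop := by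
      have h2 : Filter.Tendsto (fun y : ℝ => 1 + y) Filter.atTop Filter.atTop :=
        Filter.tendsto_atTop_add_const_left _ _ Filter.tendsto_id
      have h3 := (Filter.tendsto_pow_atTop (n := 2) (by norm_num)).comp h2
      exact Filter.Tendsto.const_mul_atTop (by norm_num) h3
    have h4 := h1.inv_tendsto_atTop
    refine h4.congr fun y => ?_
    simp
  rw [integral_Ioi_of_hasDerivAt_of_tendsto' hd hint hlim]
  ring

/-- `∫ (1 + |ξ|)^(-3) dξ = 1`, and the tail `|ξ| > R` is at most `1/R²`. -/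
theorem PG1_kernel : Integrable (fun ξ : ℝ => 1 / (1 + |ξ|) ^ 3) ∧
    ∫ ξ : ℝ, 1 / (1 + |ξ|) ^ 3 = 1 ∧
    ∀ R : ℝ, 0 < R → ∫ ξ in {ξ : ℝ | R < |ξ|}, 1 / (1 + |ξ|) ^ 3 ≤ 1 / R ^ 2 := by
  refine ⟨pg1_int, ?_, ?_⟩
  · have h := integral_comp_abs (f := fun x : ℝ => 1 / (1 + x) ^ 3)
    rw [h, pg1_Ioi 0 le_rfl]
    norm_num
  · intro R hR
    have hm : MeasurableSet {ξ : ℝ | R < |ξ|} := measurableSet_lt measurable_const (by fun_prop)
    rw [← integral_indicator hm]
    have h := integral_comp_abs (f := fun x : ℝ => (Set.Ioi R).indicator (fun y => 1 / (1 + y) ^ 3) x)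
    have h2 : (fun x : ℝ => ({ξ : ℝ | R < |ξ|}).indicator (fun y : ℝ => 1 / (1 + |y|) ^ 3) x)
        = fun x : ℝ => (Set.Ioi R).indicator (fun y => 1 / (1 + y) ^ 3) |x| := by
      funext x
      by_cases hx : R < |x|
      · rw [Set.indicator_of_mem (by exact hx), Set.indicator_of_mem (by exact hx)]
      · rw [Set.indicator_of_notMem (by exact hx), Set.indicator_of_notMem (by exact hx)]
    rw [h2, h]
    have h3 : ∫ x in Set.Ioi (0:ℝ), (Set.Ioi R).indicator (fun y : ℝ => 1 / (1 + y) ^ 3) x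
        = ∫ x in Set.Ioi R, 1 / (1 + x) ^ 3 := by
      rw [setIntegral_indicator measurableSet_Ioi]
      congr 1
      have : Set.Ioi (0:ℝ) ∩ Set.Ioi R = Set.Ioi R := by
        rw [Set.Ioi_inter_Ioi, max_eq_right hR.le]
      rw [this]
    rw [h3, pg1_Ioi R hR.le]
    have e : 2 * (1 / (2 * (1 + R) ^ 2)) = 1 / (1 + R) ^ 2 := by
      field_simp
    rw [e]
    apply one_div_le_one_div_of_le (by positivity)
    gcongr
    linarith

/-- Proof. `‖∫ kh(ξ) D(t-ξ) dξ‖ ≤ ∫_{|t-ξ| ≤ R} ‖kh(ξ)‖ ‖D(t-ξ)‖ + M ∫_{|t-ξ| > R} ‖kh(ξ)‖`; for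
`|t| ≤ S` the second part is at most `M B/(R-S)²` (`|ξ| > R - S`); the first integrated over `t`
(Fubini) is at most `∫ ‖kh‖ ∫_{|v| ≤ R} ‖D(v)‖ dv ≤ B ∫_{-R}^R ‖D‖`. -/
theorem PG1_conv (kh D : ℝ → ℂ) (B M S R : ℝ) (hB : 0 ≤ B) (hM : 0 ≤ M) (hS : 0 < S)
    (hSR : S < R) (hkc : Continuous kh) (hkb : ∀ ξ, ‖kh ξ‖ ≤ B / (1 + |ξ|) ^ 3)
    (hDc : Continuous D) (hDb : ∀ v, ‖D v‖ ≤ M) :
    ∫ t in (-S)..S, ‖∫ ξ : ℝ, kh ξ * D (t - ξ)‖ ≤
      B * (∫ v in (-R)..R, ‖D v‖) + 2 * S * B * M / (R - S) ^ 2 := by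
  obtain ⟨hKi, hK1, hKt⟩ := PG1_kernel
  have hkbi : Integrable (fun ξ : ℝ => B / (1 + |ξ|) ^ 3) := by
    refine (hKi.const_mul B).congr (Filter.Eventually.of_forall fun x => ?_)
    simp only
    rw [mul_one_div]
  have hki : Integrable (fun ξ => ‖kh ξ‖) := by
    refine hkbi.mono' hkc.norm.aestronglyMeasurable (Filter.Eventually.of_forall fun x => ?_)
    rw [norm_norm]
    exact hkb x
  set I : ℝ := ∫ v in (-R)..R, ‖D v‖ with hI
  have hI0 : 0 ≤ I := by
    rw [hI]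
    exact intervalIntegral.integral_nonneg (by linarith) (fun _ _ => norm_nonneg _)
  -- the function of two variables
  set F : ℝ → ℝ → ℝ := fun t ξ => ‖kh ξ‖ * ‖D (t - ξ)‖ with hF
  have hFc : Continuous (Function.uncurry F) := by
    have : Function.uncurry F = fun p : ℝ × ℝ => ‖kh p.2‖ * ‖D (p.1 - p.2)‖ := by
      funext p
      rfl
    rw [this]
    fun_prop
  have hFi : Integrable (Function.uncurry F)
      ((volume.restrict (Set.Ioc (-S) S)).prod volume) := by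
    have h1 : Integrable (fun p : ℝ × ℝ => (fun _ : ℝ => M) p.1 * (fun ξ => ‖kh ξ‖) p.2)
        ((volume.restrict (Set.Ioc (-S) S)).prod volume) :=
      Integrable.mul_prod (f := fun _ : ℝ => M) (g := fun ξ => ‖kh ξ‖) (integrable_const M) hki
    refine h1.mono' hFc.aestronglyMeasurable (Filter.Eventually.of_forall fun p => ?_)
    have hp : Function.uncurry F p = ‖kh p.2‖ * ‖D (p.1 - p.2)‖ := rfl
    rw [hp, norm_mul, norm_norm, norm_norm, mul_comm]
    exact mul_le_mul_of_nonneg_right (hDb _) (norm_nonneg _)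
  -- step 1
  have step1 : ∫ t in (-S)..S, ‖∫ ξ : ℝ, kh ξ * D (t - ξ)‖ ≤
      ∫ t in Set.Ioc (-S) S, ∫ ξ : ℝ, F t ξ := by
    rw [intervalIntegral.integral_of_le (by linarith)]
    refine integral_mono_of_nonneg (Filter.Eventually.of_forall fun t => norm_nonneg _) ?_ ?_
    · exact hFi.integral_prod_left
    · refine Filter.Eventually.of_forall fun t => ?_
      refine (norm_integral_le_integral_norm _).trans (le_of_eq ?_)
      refine integral_congr_ae (Filter.Eventually.of_forall fun ξ => ?_)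
      simp only [hF, norm_mul]
  have step2 : ∫ t in Set.Ioc (-S) S, ∫ ξ : ℝ, F t ξ =
      ∫ ξ : ℝ, ∫ t in Set.Ioc (-S) S, F t ξ := integral_integral_swap hFi
  have hm : MeasurableSet {ξ : ℝ | R - S < |ξ|} := measurableSet_lt measurable_const (by fun_prop)
  have inner : ∀ ξ : ℝ, ∫ t in Set.Ioc (-S) S, F t ξ ≤
      I * (B / (1 + |ξ|) ^ 3) + 2 * S * M * B * ({ξ : ℝ | R - S < |ξ|}).indicator (fun y : ℝ => 1 / (1 + |y|) ^ 3) ξ := by
    intro ξ
    have e1 : ∫ t in Set.Ioc (-S) S, F t ξ = ‖kh ξ‖ * ∫ t in (-S)..S, ‖D (t - ξ)‖ := by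
      rw [intervalIntegral.integral_of_le (by linarith)]
      simp only [hF]
      rw [integral_const_mul]
    rw [e1]
    have hJ0 : 0 ≤ ∫ t in (-S)..S, ‖D (t - ξ)‖ :=
      intervalIntegral.integral_nonneg (by linarith) (fun _ _ => norm_nonneg _)
    have hkξ := hkb ξ
    have hk0 : 0 ≤ B / (1 + |ξ|) ^ 3 := by positivity
    by_cases hξ : R - S < |ξ|
    · rw [Set.indicator_of_mem (by exact hξ)]
      have hJ : ∫ t in (-S)..S, ‖D (t - ξ)‖ ≤ 2 * S * M := by
        have h1 : ∫ t in (-S)..S, ‖D (t - ξ)‖ ≤ ∫ t in (-S)..S, M := by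
          refine intervalIntegral.integral_mono_on (by linarith) ?_ ?_ (fun t _ => hDb _)
          · exact Continuous.intervalIntegrable (by fun_prop) _ _
          · exact intervalIntegrable_const
        refine h1.trans (le_of_eq ?_)
        rw [intervalIntegral.integral_const, smul_eq_mul]
        ring
      have h2 : ‖kh ξ‖ * ∫ t in (-S)..S, ‖D (t - ξ)‖ ≤ B / (1 + |ξ|) ^ 3 * (2 * S * M) := by
        refine mul_le_mul hkξ hJ hJ0 hk0
      have h3 : 0 ≤ I * (B / (1 + |ξ|) ^ 3) := mul_nonneg hI0 hk0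
      have h4 : B / (1 + |ξ|) ^ 3 * (2 * S * M) = 2 * S * M * B * (1 / (1 + |ξ|) ^ 3) := by ring
      linarith
    · rw [Set.indicator_of_notMem (by exact hξ)]
      have hJ : ∫ t in (-S)..S, ‖D (t - ξ)‖ ≤ I := by
        rw [intervalIntegral.integral_comp_sub_right (fun t => ‖D t‖) ξ, hI]
        have hb := abs_le.mp (not_lt.mp hξ)
        refine intervalIntegral.integral_mono_interval (by linarith [hb.1, hb.2]) (by linarith)
          (by linarith [hb.1, hb.2]) (Filter.Eventually.of_forall fun _ => norm_nonneg _) ?_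
        exact Continuous.intervalIntegrable (by fun_prop) _ _
      have h2 : ‖kh ξ‖ * ∫ t in (-S)..S, ‖D (t - ξ)‖ ≤ B / (1 + |ξ|) ^ 3 * I :=
        mul_le_mul hkξ hJ hJ0 hk0
      have h3 : B / (1 + |ξ|) ^ 3 * I = I * (B / (1 + |ξ|) ^ 3) := by ring
      linarith
  have hind : Integrable (({ξ : ℝ | R - S < |ξ|}).indicator (fun y : ℝ => 1 / (1 + |y|) ^ 3)) :=
    hKi.indicator hm
  have step3 : ∫ ξ : ℝ, ∫ t in Set.Ioc (-S) S, F t ξ ≤
      ∫ ξ : ℝ, (I * (B / (1 + |ξ|) ^ 3) + 2 * S * M * B * ({ξ : ℝ | R - S < |ξ|}).indicator (fun y : ℝ => 1 / (1 + |y|) ^ 3) ξ) := by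
    refine integral_mono_of_nonneg (Filter.Eventually.of_forall fun ξ => ?_) ?_
      (Filter.Eventually.of_forall inner)
    · refine integral_nonneg fun t => ?_
      exact mul_nonneg (norm_nonneg _) (norm_nonneg _)
    · exact (hkbi.const_mul I).add (hind.const_mul _)
  have step4 : ∫ ξ : ℝ, (I * (B / (1 + |ξ|) ^ 3) + 2 * S * M * B * ({ξ : ℝ | R - S < |ξ|}).indicator (fun y : ℝ => 1 / (1 + |y|) ^ 3) ξ)
      ≤ B * I + 2 * S * B * M / (R - S) ^ 2 := by
    rw [integral_add (hkbi.const_mul I) (hind.const_mul _), integral_const_mul, integral_const_mul,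
      integral_indicator hm]
    have e1 : ∫ ξ : ℝ, B / (1 + |ξ|) ^ 3 = B := by
      have : (fun ξ : ℝ => B / (1 + |ξ|) ^ 3) = fun ξ => B * (1 / (1 + |ξ|) ^ 3) := by
        funext ξ
        rw [mul_one_div]
      rw [this, integral_const_mul, hK1, mul_one]
    rw [e1]
    have h2 := hKt (R - S) (by linarith)
    have h3 : 0 ≤ 2 * S * M * B := by positivity
    have h4 := mul_le_mul_of_nonneg_left h2 h3
    have h5 : 2 * S * M * B * (1 / (R - S) ^ 2) = 2 * S * B * M / (R - S) ^ 2 := by ring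
    linarith [h4, h5, mul_comm I B]
  calc _ ≤ _ := step1
    _ = _ := step2
    _ ≤ _ := step3
    _ ≤ _ := step4

end Pool.Agent.Lib.H18Q
end
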