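import Pool.Agent.Lib.H1M.RV.M003

/-! Merged copies (to shorten the build) of Lib.H18GB.Corr. -/

-- from Lib.H18GB.Corr
section

/-!
# Project GB: CORR (correlations of rough numbers along linear forms)

There are `k` single forms and `m` pairs of forms. Each pair is normalised by its own singular
factor `SGp`. The error involves only the discriminants of forms not in the same pair.
-/

namespace Pool.Agent.Lib.H18GB

open Finset Pool.Agent.Lib.Sieve

/-- two indices of forms are `crossing` if they are different and not in the same pair -/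
def crossing {k m : ℕ} (i j : Fin k ⊕ (Fin m × Bool)) : Prop :=
  i ≠ j ∧ ¬ ∃ t : Fin m, ∃ a b : Bool, i = .inr (t, a) ∧ j = .inr (t, b)

/-- discriminant of the forms `α i x + β i` and `α j x + β j` -/
def disc {ι : Type*} (α β : ι → ℤ) (i j : ι) : ℤ := α i * β j - α j * β i

namespace CorrAux

/-! ### Elementary inequalities -/

theorem one_sub_sum_le {γ : Type*} (s : Finset γ) (x : γ → ℝ) (h0 : ∀ g ∈ s, 0 ≤ x g)
    (h1 : ∀ g ∈ s, x g ≤ 1) : 1 - ∑ g ∈ s, x g ≤ ∏ g ∈ s, (1 - x g) := by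
  classical
  induction s using Finset.induction_on with
  | empty => simp
  | insert a s ha ih =>
    rw [Finset.sum_insert ha, Finset.prod_insert ha]
    have h2 := ih (fun g hg => h0 g (Finset.mem_insert_of_mem hg))
      (fun g hg => h1 g (Finset.mem_insert_of_mem hg))
    have hxa0 := h0 a (Finset.mem_insert_self _ _)
    have hxa1 := h1 a (Finset.mem_insert_self _ _)
    have hP : ∏ g ∈ s, (1 - x g) ≤ 1 := by
      apply Finset.prod_le_one
      · intro g hg
        have := h1 g (Finset.mem_insert_of_mem hg)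
        linarith
      · intro g hg
        have := h0 g (Finset.mem_insert_of_mem hg)
        linarith
    nlinarith

theorem prod_le_quad {γ : Type*} (s : Finset γ) (x : γ → ℝ) (h0 : ∀ g ∈ s, 0 ≤ x g)
    (h1 : ∀ g ∈ s, x g ≤ 1) :
    ∏ g ∈ s, (1 - x g) ≤ 1 - ∑ g ∈ s, x g + (∑ g ∈ s, x g) ^ 2 := by
  classical
  induction s using Finset.induction_on with
  | empty => simp
  | insert a s ha ih =>
    rw [Finset.sum_insert ha, Finset.prod_insert ha]
    have h2 := ih (fun g hg => h0 g (Finset.mem_insert_of_mem hg))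
      (fun g hg => h1 g (Finset.mem_insert_of_mem hg))
    have hxa0 := h0 a (Finset.mem_insert_self _ _)
    have hxa1 := h1 a (Finset.mem_insert_self _ _)
    have hs0 : 0 ≤ ∑ g ∈ s, x g := Finset.sum_nonneg fun g hg => h0 g (Finset.mem_insert_of_mem hg)
    set σ := ∑ g ∈ s, x g with hσ
    have h3 : (1 - x a) * ∏ g ∈ s, (1 - x g) ≤ (1 - x a) * (1 - σ + σ ^ 2) :=
      mul_le_mul_of_nonneg_left h2 (by linarith)
    refine h3.trans ?_
    have h4 : 0 ≤ x a * σ := mul_nonneg hxa0 hs0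
    have h5 : 0 ≤ x a * σ ^ 2 := mul_nonneg hxa0 (sq_nonneg _)
    nlinarith [sq_nonneg (x a)]

/-- `1 / (1 - x) ≤ exp (2 x)` for `0 ≤ x ≤ 1/2`. -/
theorem inv_one_sub_le {x : ℝ} (h0 : 0 ≤ x) (h1 : x ≤ 1 / 2) : (1 - x)⁻¹ ≤ Real.exp (2 * x) := by
  have h2 : Real.exp (-(2 * x)) ≤ 1 - x := exp_neg_two_mul_le h0 h1
  have h3 : 0 < 1 - x := by linarith
  rw [inv_le_comm₀ h3 (Real.exp_pos _), ← Real.exp_neg]
  exact h2

/-! ### The local factors -/

/-- Bounds for the local factor `(1 - N / p) / ∏ (1 - n g / p)`. -/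
theorem local_factor {γ : Type*} [Fintype γ] (K p N : ℕ) (n : γ → ℕ) (hT : ∑ g, n g ≤ K)
    (hN : N ≤ ∑ g, n g) (hp : 2 * K + 1 ≤ p) :
    (1 / 2 : ℝ) ≤ ∏ g, (1 - (n g : ℝ) / p) ∧
    (1 - 2 * (K : ℝ) ^ 2 * (1 / (p : ℝ) ^ 2) ≤ (1 - (N : ℝ) / p) / ∏ g, (1 - (n g : ℝ) / p)) ∧
    ((1 - (N : ℝ) / p) / ∏ g, (1 - (n g : ℝ) / p) ≤ Real.exp ((2 * K : ℝ) / p)) ∧
    (N = ∑ g, n g → (1 - (N : ℝ) / p) / ∏ g, (1 - (n g : ℝ) / p) ≤ 1) ∧
    0 ≤ (1 - (N : ℝ) / p) := by
  have hp0 : (0 : ℝ) < p := by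
    have : 0 < p := by omega
    exact_mod_cast this
  have hTr : ∑ g, ((n g : ℝ) / p) ≤ K / p := by
    rw [← Finset.sum_div]
    apply div_le_div_of_nonneg_right _ hp0.le
    exact_mod_cast hT
  have hKp : (K : ℝ) / p ≤ 1 / 2 := by
    rw [div_le_div_iff₀ hp0 (by norm_num)]
    have : K * 2 ≤ 1 * p := by omega
    exact_mod_cast this
  have hx0 : ∀ g ∈ (Finset.univ : Finset γ), 0 ≤ (n g : ℝ) / p := fun g _ => by positivity
  have hx1 : ∀ g ∈ (Finset.univ : Finset γ), (n g : ℝ) / p ≤ 1 := by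
    intro g hg
    have h1 : (n g : ℝ) / p ≤ ∑ g, ((n g : ℝ) / p) :=
      Finset.single_le_sum (f := fun g => (n g : ℝ) / p) hx0 hg
    linarith
  have hlow := one_sub_sum_le Finset.univ (fun g => (n g : ℝ) / p) hx0 hx1
  have hup := prod_le_quad Finset.univ (fun g => (n g : ℝ) / p) hx0 hx1
  set G := ∏ g, (1 - (n g : ℝ) / p) with hG
  set T := ∑ g, ((n g : ℝ) / p) with hT'
  have hT0 : 0 ≤ T := Finset.sum_nonneg hx0
  have hG2 : (1 / 2 : ℝ) ≤ G := by linarith
  have hG0 : 0 < G := by linarith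
  have hNT : (N : ℝ) / p ≤ T := by
    rw [hT', ← Finset.sum_div]
    apply div_le_div_of_nonneg_right _ hp0.le
    exact_mod_cast hN
  have hN0 : 0 ≤ (N : ℝ) / p := by positivity
  refine ⟨hG2, ?_, ?_, ?_, by linarith⟩
  · rw [le_div_iff₀ hG0]
    have h1 : G - T ^ 2 ≤ 1 - (N : ℝ) / p := by linarith
    have h2 : T ^ 2 ≤ (K : ℝ) ^ 2 * (1 / (p : ℝ) ^ 2) := by
      calc T ^ 2 ≤ ((K : ℝ) / p) ^ 2 := pow_le_pow_left₀ hT0 hTr 2
        _ = (K : ℝ) ^ 2 * (1 / (p : ℝ) ^ 2) := by rw [div_pow]; ring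
    have h3 : 0 ≤ (K : ℝ) ^ 2 * (1 / (p : ℝ) ^ 2) := by positivity
    nlinarith
  · rw [div_le_iff₀ hG0]
    have h1 : 1 - (K : ℝ) / p ≤ G := by linarith
    have h2 : (1 - (K : ℝ) / p)⁻¹ ≤ Real.exp (2 * ((K : ℝ) / p)) :=
      inv_one_sub_le (by positivity) hKp
    have h3 : 0 < 1 - (K : ℝ) / p := by linarith
    have h4 : 1 ≤ Real.exp (2 * ((K : ℝ) / p)) * (1 - (K : ℝ) / p) := by
      have := mul_le_mul_of_nonneg_right h2 h3.le
      rwa [inv_mul_cancel₀ h3.ne'] at this
    have h5 : Real.exp (2 * ((K : ℝ) / p)) * (1 - (K : ℝ) / p) ≤ Real.exp (2 * ((K : ℝ) / p)) * G :=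
      mul_le_mul_of_nonneg_left h1 (Real.exp_pos _).le
    rw [show (2 * K : ℝ) / p = 2 * ((K : ℝ) / p) by ring]
    linarith
  · intro h
    rw [div_le_one hG0]
    have : (N : ℝ) / p = T := by
      rw [hT', ← Finset.sum_div, h]
      push_cast
      rfl
    linarith

/-! ### Roots of the forms -/

noncomputable def root {ι : Type*} (α β : ι → ℤ) (p : ℕ) (i : ι) : ZMod p :=
  -(β i : ZMod p) * (α i : ZMod p)⁻¹

theorem cast_ne_zero {p : ℕ} {a : ℤ} (h : ¬ (p : ℤ) ∣ a) : (a : ZMod p) ≠ 0 := by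
  intro h0
  exact h ((ZMod.intCast_zmod_eq_zero_iff_dvd a p).mp h0)

theorem eq_root_iff {ι : Type*} (α β : ι → ℤ) {p : ℕ} (hp : p.Prime) (i : ι)
    (h : ¬ (p : ℤ) ∣ α i) (u : ℤ) :
    (u : ZMod p) = root α β p i ↔ (p : ℤ) ∣ α i * u + β i := by
  have := Fact.mk hp
  have ha : (α i : ZMod p) ≠ 0 := cast_ne_zero h
  rw [← ZMod.intCast_zmod_eq_zero_iff_dvd]
  push_cast
  unfold root
  constructor
  · intro h1
    rw [h1]
    field_simp
    ring
  · intro h1
    have h2 : (α i : ZMod p) * u = -(β i : ZMod p) := by linear_combination h1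
    field_simp
    linear_combination h2

theorem root_eq_root_iff {ι : Type*} (α β : ι → ℤ) {p : ℕ} (hp : p.Prime) (i j : ι)
    (hi : ¬ (p : ℤ) ∣ α i) (hj : ¬ (p : ℤ) ∣ α j) :
    root α β p i = root α β p j ↔ (p : ℤ) ∣ disc α β i j := by
  have := Fact.mk hp
  have ha : (α i : ZMod p) ≠ 0 := cast_ne_zero hi
  have hb : (α j : ZMod p) ≠ 0 := cast_ne_zero hj
  rw [← ZMod.intCast_zmod_eq_zero_iff_dvd]
  unfold root disc
  push_cast
  constructor
  · intro h1
    field_simp at h1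
    linear_combination h1
  · intro h1
    field_simp
    linear_combination h1

/-- the group (single form or pair) of an index -/
def grp {k m : ℕ} : Fin k ⊕ (Fin m × Bool) → Fin k ⊕ Fin m
  | .inl i => .inl i
  | .inr t => .inr t.1

theorem crossing_iff {k m : ℕ} (i j : Fin k ⊕ (Fin m × Bool)) : crossing i j ↔ grp i ≠ grp j := by
  rcases i with i | ⟨s, a⟩ <;> rcases j with j | ⟨t, b⟩
  · simp [crossing, grp]
  · simp [crossing, grp]
  · simp [crossing, grp]
  · constructor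
    · rintro ⟨_, h2⟩ h3
      simp only [grp, Sum.inr.injEq] at h3
      exact h2 ⟨s, a, b, rfl, by rw [h3]⟩
    · intro h
      refine ⟨fun h' => h (by rw [h']), ?_⟩
      rintro ⟨u, a', b', h1, h2⟩
      simp only [Sum.inr.injEq, Prod.mk.injEq] at h1 h2
      apply h
      simp only [grp, Sum.inr.injEq]
      rw [h1.1, h2.1]

open Classical in
noncomputable def Om {ι : Type*} [Fintype ι] (α β : ι → ℤ) (p : ℕ) : Finset (ZMod p) :=
  Finset.univ.image (root α β p)

open Classical in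
noncomputable def OmG {k m : ℕ} (α β : Fin k ⊕ (Fin m × Bool) → ℤ) (p : ℕ) (g : Fin k ⊕ Fin m) :
    Finset (ZMod p) :=
  (Finset.univ.filter (fun i => grp i = g)).image (root α β p)

/-- number of classes of a group -/
noncomputable def nu {k m : ℕ} (α β : Fin k ⊕ (Fin m × Bool) → ℤ) (p : ℕ) :
    Fin k ⊕ Fin m → ℕ
  | .inl _ => 1
  | .inr t => if (p : ℤ) ∣ disc α β (.inr (t, false)) (.inr (t, true)) then 1 else 2

theorem card_OmG {k m : ℕ} (α β : Fin k ⊕ (Fin m × Bool) → ℤ) {p : ℕ} (hp : p.Prime)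
    (hα : ∀ i, ¬ (p : ℤ) ∣ α i) (g : Fin k ⊕ Fin m) : (OmG α β p g).card = nu α β p g := by
  classical
  rcases g with i | t
  · have h1 : OmG α β p (.inl i) = {root α β p (.inl i)} := by
      ext x
      simp only [OmG, Finset.mem_image, Finset.mem_filter, Finset.mem_univ, true_and,
        Finset.mem_singleton]
      constructor
      · rintro ⟨j, hj, rfl⟩
        rcases j with j | ⟨s, a⟩
        · simp only [grp, Sum.inl.injEq] at hj
          rw [hj]
        · simp [grp] at hj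
      · rintro rfl
        exact ⟨.inl i, rfl, rfl⟩
    rw [h1, Finset.card_singleton]
    rfl
  · have h1 : OmG α β p (.inr t) = {root α β p (.inr (t, false)), root α β p (.inr (t, true))} := by
      ext x
      simp only [OmG, Finset.mem_image, Finset.mem_filter, Finset.mem_univ, true_and,
        Finset.mem_singleton, Finset.mem_insert]
      constructor
      · rintro ⟨j, hj, rfl⟩
        rcases j with j | ⟨s, a⟩
        · simp [grp] at hj
        · simp only [grp, Sum.inr.injEq] at hj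
          rw [hj]
          rcases a with _ | _
          · exact Or.inl rfl
          · exact Or.inr rfl
      · rintro (rfl | rfl)
        · exact ⟨.inr (t, false), rfl, rfl⟩
        · exact ⟨.inr (t, true), rfl, rfl⟩
    rw [h1]
    have h2 : nu α β p (.inr t) =
        if (p : ℤ) ∣ disc α β (.inr (t, false)) (.inr (t, true)) then 1 else 2 := rfl
    rw [h2]
    by_cases hd : (p : ℤ) ∣ disc α β (.inr (t, false)) (.inr (t, true))
    · rw [if_pos hd, (root_eq_root_iff α β hp _ _ (hα _) (hα _)).mpr hd]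
      simp
    · rw [if_neg hd, Finset.card_pair]
      intro h
      exact hd ((root_eq_root_iff α β hp _ _ (hα _) (hα _)).mp h)

theorem Om_eq_biUnion {k m : ℕ} (α β : Fin k ⊕ (Fin m × Bool) → ℤ) (p : ℕ) :
    Om α β p = Finset.univ.biUnion (fun g => OmG α β p g) := by
  classical
  ext x
  simp only [Om, OmG, Finset.mem_image, Finset.mem_biUnion, Finset.mem_filter, Finset.mem_univ,
    true_and]
  constructor
  · rintro ⟨i, rfl⟩
    exact ⟨grp i, i, rfl, rfl⟩
  · rintro ⟨g, i, _, rfl⟩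
    exact ⟨i, rfl⟩

theorem card_Om_le {k m : ℕ} (α β : Fin k ⊕ (Fin m × Bool) → ℤ) {p : ℕ} (hp : p.Prime)
    (hα : ∀ i, ¬ (p : ℤ) ∣ α i) : (Om α β p).card ≤ ∑ g, nu α β p g := by
  classical
  rw [Om_eq_biUnion]
  refine Finset.card_biUnion_le.trans ?_
  apply le_of_eq
  exact Finset.sum_congr rfl fun g _ => card_OmG α β hp hα g

theorem card_Om_eq {k m : ℕ} (α β : Fin k ⊕ (Fin m × Bool) → ℤ) {p : ℕ} (hp : p.Prime)
    (hα : ∀ i, ¬ (p : ℤ) ∣ α i) (hd : ∀ i j, crossing i j → ¬ (p : ℤ) ∣ disc α β i j) :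
    (Om α β p).card = ∑ g, nu α β p g := by
  classical
  rw [Om_eq_biUnion, Finset.card_biUnion]
  · exact Finset.sum_congr rfl fun g _ => card_OmG α β hp hα g
  · intro g _ g' _ hne
    show Disjoint (OmG α β p g) (OmG α β p g')
    rw [Finset.disjoint_left]
    intro x hx hx'
    simp only [OmG, Finset.mem_image, Finset.mem_filter, Finset.mem_univ, true_and] at hx hx'
    obtain ⟨i, hi, rfl⟩ := hx
    obtain ⟨j, hj, hij⟩ := hx'
    apply hd i j
    · rw [crossing_iff, hi, hj]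
      exact hne
    · exact (root_eq_root_iff α β hp _ _ (hα _) (hα _)).mp hij.symm

theorem sum_nu_le {k m : ℕ} (α β : Fin k ⊕ (Fin m × Bool) → ℤ) (p : ℕ) :
    ∑ g, nu α β p g ≤ k + 2 * m := by
  rw [Fintype.sum_sum_type]
  have h1 : ∑ i : Fin k, nu α β p (.inl i) = k := by simp [nu]
  have h2 : ∑ t : Fin m, nu α β p (.inr t) ≤ 2 * m := by
    calc ∑ t : Fin m, nu α β p (.inr t) ≤ ∑ _t : Fin m, 2 := by
          apply Finset.sum_le_sum
          intro t _
          simp only [nu]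
          split_ifs <;> norm_num
      _ = 2 * m := by simp [mul_comm]
  omega

theorem mem_Om_iff {ι : Type*} [Fintype ι] (α β : ι → ℤ) {p : ℕ} (hp : p.Prime)
    (hα : ∀ i, ¬ (p : ℤ) ∣ α i) (u : ℤ) :
    (u : ZMod p) ∈ Om α β p ↔ ∃ i, (p : ℤ) ∣ α i * u + β i := by
  classical
  simp only [Om, Finset.mem_image, Finset.mem_univ, true_and]
  constructor
  · rintro ⟨i, hi⟩
    exact ⟨i, (eq_root_iff α β hp i (hα i) u).mp hi.symm⟩
  · rintro ⟨i, hi⟩
    exact ⟨i, ((eq_root_iff α β hp i (hα i) u).mpr hi).symm⟩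

theorem prod_superset_le {S T : Finset ℕ} (hsub : S ⊆ T) {f : ℕ → ℝ} (h0 : ∀ i ∈ T, 0 ≤ f i)
    (h1 : ∀ i ∈ T, f i ≤ 1) : ∏ i ∈ T, f i ≤ ∏ i ∈ S, f i := by
  classical
  rw [← Finset.prod_sdiff hsub]
  have h2 : ∏ i ∈ T \ S, f i ≤ 1 := Finset.prod_le_one
    (fun i hi => h0 i (Finset.mem_sdiff.mp hi).1) (fun i hi => h1 i (Finset.mem_sdiff.mp hi).1)
  have h3 : 0 ≤ ∏ i ∈ S, f i := Finset.prod_nonneg fun i hi => h0 i (hsub hi)
  nlinarith

theorem sum_sq_le {w z : ℕ} {S : Finset ℕ} (hS : PSet w z S) (hw : 1 ≤ w) :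
    ∑ p ∈ S, (1 : ℝ) / (p : ℝ) ^ 2 ≤ 1 / (w : ℝ) := by
  have h1 : ∀ n : ℕ, w ≤ n → ∑ p ∈ Finset.Ioc w n, (1 : ℝ) / (p : ℝ) ^ 2 ≤ 1 / w - 1 / n := by
    intro n hn
    induction n, hn using Nat.le_induction with
    | base => simp
    | succ n hn ih =>
      rw [← Finset.insert_Ioc_right_eq_Ioc_add_one (by omega), Finset.sum_insert (by simp)]
      have hn' : (0 : ℝ) < n := by
        have : 1 ≤ n := hw.trans hn
        exact_mod_cast this
      have h3 : (1 : ℝ) / ((n + 1 : ℕ) : ℝ) ^ 2 ≤ 1 / n - 1 / (n + 1 : ℕ) := by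
        push_cast
        rw [div_sub_div _ _ hn'.ne' (by positivity), div_le_div_iff₀ (by positivity) (by positivity)]
        nlinarith
      linarith
  rcases S.eq_empty_or_nonempty with he | ⟨p0, hp0⟩
  · subst he
    simp
  have hwz : w ≤ z := by
    obtain ⟨_, h2, h3⟩ := hS p0 hp0
    omega
  calc ∑ p ∈ S, (1 : ℝ) / (p : ℝ) ^ 2 ≤ ∑ p ∈ Finset.Ioc w z, (1 : ℝ) / (p : ℝ) ^ 2 := by
        apply Finset.sum_le_sum_of_subset_of_nonneg
        · intro p hp
          rw [Finset.mem_Ioc]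
          exact (hS p hp).2
        · intro p _ _
          positivity
    _ ≤ 1 / w - 1 / z := h1 z hwz
    _ ≤ 1 / w := by
        have : (0 : ℝ) ≤ 1 / z := by positivity
        linarith

/-- lower bounds for the products over sieving primes -/
theorem prod_ge_inv {w z : ℕ} {S : Finset ℕ} (hS : PSet w z S) (hw : 2 ≤ w) (hz : 2 ≤ z) :
    (1 : ℝ) ≤ z * VV S ∧ (1 : ℝ) ≤ (z : ℝ) ^ 2 * ∏ p ∈ S, (1 - 2 / (p : ℝ)) := by
  have hsub : S ⊆ Finset.Ioc 2 z := by
    intro p hp
    obtain ⟨_, h1, h2⟩ := hS p hp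
    rw [Finset.mem_Ioc]
    omega
  have hz' : (2 : ℝ) ≤ z := by exact_mod_cast hz
  -- telescoping products
  have t1 : ∀ n : ℕ, 2 ≤ n → (2 : ℝ) / n = ∏ i ∈ Finset.Ioc 2 n, (1 - 1 / (i : ℝ)) := by
    intro n hn
    induction n, hn using Nat.le_induction with
    | base => simp
    | succ n hn ih =>
      rw [← Finset.insert_Ioc_right_eq_Ioc_add_one (by omega), Finset.prod_insert (by simp), ← ih]
      have : (0 : ℝ) < n := by
        have : 0 < n := by omega
        exact_mod_cast this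
      push_cast
      field_simp
      ring
  have t2 : ∀ n : ℕ, 2 ≤ n → (2 : ℝ) / (n * (n - 1)) = ∏ i ∈ Finset.Ioc 2 n, (1 - 2 / (i : ℝ)) := by
    intro n hn
    induction n, hn using Nat.le_induction with
    | base => norm_num
    | succ n hn ih =>
      rw [← Finset.insert_Ioc_right_eq_Ioc_add_one (by omega), Finset.prod_insert (by simp), ← ih]
      have h1 : (2 : ℝ) ≤ n := by exact_mod_cast hn
      have h2 : (n : ℝ) - 1 ≠ 0 := by linarith
      have h3 : (n : ℝ) ≠ 0 := by linarith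
      have h4 : (n : ℝ) + 1 ≠ 0 := by linarith
      push_cast
      rw [show ((n : ℝ) + 1) * (n + 1 - 1) = (n + 1) * n by ring]
      field_simp
      ring
  have hge : ∀ i ∈ Finset.Ioc 2 z, (2 : ℝ) < i := by
    intro i hi
    have := (Finset.mem_Ioc.mp hi).1
    exact_mod_cast this
  constructor
  · have h1 : ∏ i ∈ Finset.Ioc 2 z, (1 - 1 / (i : ℝ)) ≤ VV S := by
      unfold VV
      apply prod_superset_le hsub
      · intro i hi
        have := hge i hi
        rw [sub_nonneg, div_le_one (by linarith)]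
        linarith
      · intro i hi
        have : (0 : ℝ) ≤ 1 / i := by positivity
        linarith
    rw [← t1 z hz, div_le_iff₀ (by linarith)] at h1
    linarith [mul_comm (VV S) (z : ℝ)]
  · have h1 : ∏ i ∈ Finset.Ioc 2 z, (1 - 2 / (i : ℝ)) ≤ ∏ p ∈ S, (1 - 2 / (p : ℝ)) := by
      apply prod_superset_le hsub
      · intro i hi
        have := hge i hi
        rw [sub_nonneg, div_le_one (by linarith)]
        linarith
      · intro i hi
        have : (0 : ℝ) ≤ 2 / i := by positivity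
        linarith
    have hz1 : (0 : ℝ) < z * (z - 1) := by nlinarith
    rw [← t2 z hz, div_le_iff₀ hz1] at h1
    set Q := ∏ p ∈ S, (1 - 2 / (p : ℝ)) with hQ
    have hQ0 : 0 ≤ Q := by
      by_contra hcon
      push Not at hcon
      nlinarith
    nlinarith

theorem SGp_pos {w z : ℕ} {S : Finset ℕ} (hS : PSet w z S) (hw : 2 ≤ w) (d : ℤ) :
    0 < SGp S d := by
  unfold SGp
  apply Finset.prod_pos
  intro p hp
  obtain ⟨_, h1, _⟩ := hS p hp
  have hp2 : (2 : ℝ) < p := by
    have : 2 < p := by omega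
    exact_mod_cast this
  have h2 : 0 < 1 - 1 / (p : ℝ) := by
    rw [sub_pos, div_lt_one (by linarith)]
    linarith
  have h3 : 0 < 1 - 2 / (p : ℝ) := by
    rw [sub_pos, div_lt_one (by linarith)]
    linarith
  split_ifs
  · positivity
  · positivity

/-- The normalisation as a product of local factors. -/
theorem norm_eq {k m w z : ℕ} {S : Finset ℕ} (hS : PSet w z S) (hw : 2 ≤ w)
    (α β : Fin k ⊕ (Fin m × Bool) → ℤ) :
    VV S ^ k * ∏ t : Fin m, (VV S ^ 2 * SGp S (disc α β (.inr (t, false)) (.inr (t, true))))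
      = ∏ p ∈ S, ∏ g, (1 - (nu α β p g : ℝ) / p) := by
  have h1 : ∀ t : Fin m, VV S ^ 2 * SGp S (disc α β (.inr (t, false)) (.inr (t, true)))
      = ∏ p ∈ S, (1 - (nu α β p (.inr t) : ℝ) / p) := by
    intro t
    unfold VV SGp
    rw [← Finset.prod_pow, ← Finset.prod_mul_distrib]
    apply Finset.prod_congr rfl
    intro p hp
    obtain ⟨_, h1, _⟩ := hS p hp
    have hp2 : (2 : ℝ) < p := by
      have : 2 < p := by omega
      exact_mod_cast this
    have h2 : 0 < 1 - 1 / (p : ℝ) := by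
      rw [sub_pos, div_lt_one (by linarith)]
      linarith
    have h3 : nu α β p (.inr t) =
        if (p : ℤ) ∣ disc α β (.inr (t, false)) (.inr (t, true)) then 1 else 2 := rfl
    rw [h3]
    by_cases hd : (p : ℤ) ∣ disc α β (.inr (t, false)) (.inr (t, true))
    · rw [if_pos hd, if_pos hd, sq, mul_assoc, mul_inv_cancel₀ h2.ne']
      simp
    · rw [if_neg hd, if_neg hd, mul_div_cancel₀ _ (pow_ne_zero 2 h2.ne')]
      simp
  rw [Finset.prod_congr rfl fun t _ => h1 t, Finset.prod_comm]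
  unfold VV
  rw [← Finset.prod_pow, ← Finset.prod_mul_distrib]
  apply Finset.prod_congr rfl
  intro p hp
  rw [Fintype.prod_sum_type]
  congr 1
  simp [nu]

theorem sum_eq {k m w z : ℕ} {S : Finset ℕ} (hS : PSet w z S) (hw : 2 ≤ w)
    (α β : Fin k ⊕ (Fin m × Bool) → ℤ) (hα : ∀ p ∈ S, ∀ i, ¬ (p : ℤ) ∣ α i) (a b : ℤ) :
    ∑ x ∈ Finset.Ico a b,
        (∏ i : Fin k, rho S (α (.inl i) * x + β (.inl i))) *
        (∏ j : Fin m, rho S (α (.inr (j, false)) * x + β (.inr (j, false))) *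
          rho S (α (.inr (j, true)) * x + β (.inr (j, true))) /
          SGp S (disc α β (.inr (j, false)) (.inr (j, true))))
      = (((Finset.Ico a b).filter fun u => ∀ p ∈ S, ((u : ℤ) : ZMod p) ∉ Om α β p).card : ℝ) *
        (∏ p ∈ S, ∏ g, (1 - (nu α β p g : ℝ) / p))⁻¹ := by
  classical
  rw [Finset.card_filter]
  push_cast
  rw [Finset.sum_mul]
  apply Finset.sum_congr rfl
  intro x _
  by_cases h : ∀ p ∈ S, ((x : ℤ) : ZMod p) ∉ Om α β p
  · rw [if_pos h, one_mul]
    have hR : ∀ i, Rgh S (α i * x + β i) := by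
      intro i p hp hd
      exact h p hp ((mem_Om_iff α β (hS p hp).1 (hα p hp) x).mpr ⟨i, hd⟩)
    have hrho : ∀ i, rho S (α i * x + β i) = (VV S)⁻¹ := by
      intro i
      unfold rho
      rw [if_pos (hR i)]
    rw [← norm_eq hS hw α β]
    simp only [hrho, Finset.prod_const, Finset.card_univ, Fintype.card_fin]
    rw [mul_inv, ← Finset.prod_inv_distrib, inv_pow]
    congr 1
    apply Finset.prod_congr rfl
    intro t _
    rw [mul_inv, sq, mul_inv, div_eq_mul_inv]
  · rw [if_neg h, zero_mul]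
    push Not at h
    obtain ⟨p, hp, hx⟩ := h
    obtain ⟨i, hi⟩ := (mem_Om_iff α β (hS p hp).1 (hα p hp) x).mp hx
    have hrho : rho S (α i * x + β i) = 0 := by
      unfold rho
      rw [if_neg]
      intro hR
      exact hR p hp hi
    rcases i with i | ⟨t, c⟩
    · rw [Finset.prod_eq_zero (Finset.mem_univ i) hrho, zero_mul]
    · apply mul_eq_zero_of_right
      apply Finset.prod_eq_zero (Finset.mem_univ t)
      rcases c with _ | _
      · rw [hrho]
        simp
      · rw [hrho]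
        simp

end CorrAux

open CorrAux

open Classical in
/-- Chunk CORR. Proof: `Ω p = {x : ∃ i, α i x + β i = 0}`, `|Ω p| ≤ K := k + 2 m`. The product of
the `rho`'s is `VV ^ (-K)` times the indicator of the sifted set, so by `fl` the sum is
`(b - a) 𝔖 (1 + O(2^(-A/C))) + O(z^A VV^(-K))`, `VV^(-1) ≤ z`, with
`𝔖 = ∏_{p ∈ S} (1 - |Ω p|/p) / (∏_{pairs} (1 - |Ω_pair p|/p) ∏_{singles} (1 - 1/p))`
(recall `SGp S d = ∏ (1 - |Ω_pair p|/p) / (1 - 1/p)^2`, since `|Ω_pair p| = 1` if `p ∣ d`, `2`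
otherwise). Each local factor is `≥ 1 - C/p^2` (as `|Ω p| ≤ sum of the |Ω_group p|`), so
`𝔖 ≥ 1 - C/w`; it is `≤ 1` if `p` divides no crossing discriminant (then the classes of different
groups are disjoint and `1 - ∑ x_i ≤ ∏ (1 - x_i)`), and `≤ exp (C/p)` otherwise. So by `sing_exp`
`𝔖 ≤ 1 + ∑_{p ∣ some crossing discriminant} p^(-9/10)`. -/
theorem corr (k m : ℕ) : ∃ C : ℕ, 1 ≤ C ∧ ∀ (A w z : ℕ) (S : Finset ℕ), C ≤ A → C ≤ w → 2 ≤ z →
    PSet w z S → ∀ (α β : Fin k ⊕ (Fin m × Bool) → ℤ), (∀ p ∈ S, ∀ i, ¬ (p : ℤ) ∣ α i) →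
    ∀ (a b : ℤ), a ≤ b →
    |∑ x ∈ Finset.Ico a b,
        (∏ i : Fin k, rho S (α (.inl i) * x + β (.inl i))) *
        (∏ j : Fin m, rho S (α (.inr (j, false)) * x + β (.inr (j, false))) *
          rho S (α (.inr (j, true)) * x + β (.inr (j, true))) /
          SGp S (disc α β (.inr (j, false)) (.inr (j, true)))) - (b - a)| ≤
      (b - a) * (C * er C A w +
        C * ∑ i, ∑ j ∈ Finset.univ.filter (fun j => crossing i j), Ers (9 / 10) S (disc α β i j))
        + C * (z : ℝ) ^ (A + k + 2 * m) := by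
  set K : ℕ := k + 2 * m with hK
  obtain ⟨C0, hC0, hfl⟩ := fl K
  obtain ⟨w0, hsing⟩ := sing_exp (2 * K) (by positivity)
  refine ⟨C0 + w0 + 2 * K ^ 2 + 2 * K + 4, by omega, ?_⟩
  intro A w z S hA hw hz hS α β hα a b hab
  set C : ℕ := C0 + w0 + 2 * K ^ 2 + 2 * K + 4 with hC
  have hw2 : 2 ≤ w := by omega
  have hwK : 2 * K + 2 ≤ w := by
    have : 0 ≤ 2 * K ^ 2 := Nat.zero_le _
    omega
  have hab' : (0 : ℝ) ≤ b - a := by
    have : (a : ℝ) ≤ b := by exact_mod_cast hab
    linarith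
  rw [sum_eq hS hw2 α β hα a b]
  -- local data
  have hloc : ∀ p ∈ S, (1 / 2 : ℝ) ≤ ∏ g, (1 - (nu α β p g : ℝ) / p) ∧
      (1 - 2 * (K : ℝ) ^ 2 * (1 / (p : ℝ) ^ 2)
        ≤ (1 - ((Om α β p).card : ℝ) / p) / ∏ g, (1 - (nu α β p g : ℝ) / p)) ∧
      ((1 - ((Om α β p).card : ℝ) / p) / ∏ g, (1 - (nu α β p g : ℝ) / p)
        ≤ Real.exp ((2 * K : ℝ) / p)) ∧
      ((Om α β p).card = ∑ g, nu α β p g →
        (1 - ((Om α β p).card : ℝ) / p) / ∏ g, (1 - (nu α β p g : ℝ) / p) ≤ 1) ∧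
      0 ≤ (1 - ((Om α β p).card : ℝ) / p) := by
    intro p hp
    obtain ⟨h1, h2, _⟩ := hS p hp
    exact local_factor K p _ (nu α β p) (sum_nu_le α β p) (card_Om_le α β h1 (hα p hp)) (by omega)
  set G : ℕ → ℝ := fun p => ∏ g, (1 - (nu α β p g : ℝ) / p) with hG
  set V : ℝ := ∏ p ∈ S, (1 - ((Om α β p).card : ℝ) / p) with hV
  set D : ℝ := ∏ p ∈ S, G p with hD
  have hG0 : ∀ p ∈ S, 0 < G p := fun p hp => by
    have := (hloc p hp).1
    have h' : (1 / 2 : ℝ) ≤ G p := this
    linarith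
  have hD0 : 0 < D := Finset.prod_pos hG0
  have hV0 : 0 ≤ V := Finset.prod_nonneg fun p hp => (hloc p hp).2.2.2.2
  -- the fundamental lemma
  have hcardK : ∀ p ∈ S, (Om α β p).card ≤ K := fun p hp =>
    (card_Om_le α β (hS p hp).1 (hα p hp)).trans (sum_nu_le α β p)
  have hF := hfl A w z S (by omega) (by omega) hz hS (Om α β) hcardK a b hab
  set N : ℝ := (((Finset.Ico a b).filter fun u => ∀ p ∈ S, ((u : ℤ) : ZMod p) ∉ Om α β p).card : ℝ)
    with hN
  -- the singular series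
  set Sg : ℝ := V / D with hSg
  have hSgprod : Sg = ∏ p ∈ S, ((1 - ((Om α β p).card : ℝ) / p) / G p) := by
    rw [hSg, hV, hD, Finset.prod_div_distrib]
  have hSg0 : 0 ≤ Sg := div_nonneg hV0 hD0.le
  set E : ℝ := ∑ i, ∑ j ∈ Finset.univ.filter (fun j => crossing i j), Ers (9 / 10) S (disc α β i j)
    with hE
  have hE0 : 0 ≤ E := Finset.sum_nonneg fun i _ => Finset.sum_nonneg fun j _ => Ers_nonneg _ _ _
  have hwpos : (0 : ℝ) < w := by
    have : 0 < w := by omega
    exact_mod_cast this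
  have hlow : 1 - 2 * (K : ℝ) ^ 2 / w ≤ Sg := by
    have hb : ∀ p ∈ S, 2 * (K : ℝ) ^ 2 * (1 / (p : ℝ) ^ 2) ≤ 1 := by
      intro p hp
      obtain ⟨_, h2, _⟩ := hS p hp
      have h3 : 2 * K + 1 ≤ p := by omega
      have h4 : (2 * K + 1 : ℝ) ≤ p := by exact_mod_cast h3
      have h5 : (0 : ℝ) ≤ K := Nat.cast_nonneg K
      have h6 : (0 : ℝ) < (p : ℝ) ^ 2 := by nlinarith
      rw [mul_one_div, div_le_one h6]
      nlinarith
    have h1 : 1 - ∑ p ∈ S, 2 * (K : ℝ) ^ 2 * (1 / (p : ℝ) ^ 2)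
        ≤ ∏ p ∈ S, (1 - 2 * (K : ℝ) ^ 2 * (1 / (p : ℝ) ^ 2)) :=
      one_sub_sum_le S _ (fun p _ => by positivity) hb
    have h2 : ∏ p ∈ S, (1 - 2 * (K : ℝ) ^ 2 * (1 / (p : ℝ) ^ 2)) ≤ Sg := by
      rw [hSgprod]
      apply Finset.prod_le_prod
      · intro p hp
        have := hb p hp
        linarith
      · intro p hp
        exact (hloc p hp).2.1
    have h3 : ∑ p ∈ S, 2 * (K : ℝ) ^ 2 * (1 / (p : ℝ) ^ 2) ≤ 2 * (K : ℝ) ^ 2 / w := by
      rw [← Finset.mul_sum]
      have := sum_sq_le hS (by omega)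
      calc 2 * (K : ℝ) ^ 2 * ∑ p ∈ S, 1 / (p : ℝ) ^ 2 ≤ 2 * (K : ℝ) ^ 2 * (1 / w) :=
            mul_le_mul_of_nonneg_left this (by positivity)
        _ = 2 * (K : ℝ) ^ 2 / w := by ring
    linarith
  have hup : Sg ≤ 1 + E := by
    set S' := S.filter (fun p : ℕ => ∃ i j, crossing i j ∧ (p : ℤ) ∣ disc α β i j) with hS'
    have h1 : Sg ≤ ∏ p ∈ S', Real.exp ((2 * K : ℝ) / p) := by
      rw [hSgprod, ← Finset.prod_filter_mul_prod_filter_not S
        (fun p : ℕ => ∃ i j, crossing i j ∧ (p : ℤ) ∣ disc α β i j)]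
      calc _ ≤ (∏ p ∈ S', Real.exp ((2 * K : ℝ) / p)) * 1 := by
            apply mul_le_mul
            · apply Finset.prod_le_prod
              · intro p hp
                have hp' := (Finset.mem_filter.mp hp).1
                exact div_nonneg (hloc p hp').2.2.2.2 (hG0 p hp').le
              · intro p hp
                exact (hloc p (Finset.mem_filter.mp hp).1).2.2.1
            · apply Finset.prod_le_one
              · intro p hp
                have hp' := (Finset.mem_filter.mp hp).1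
                exact div_nonneg (hloc p hp').2.2.2.2 (hG0 p hp').le
              · intro p hp
                have hp' := Finset.mem_filter.mp hp
                apply (hloc p hp'.1).2.2.2.1
                apply card_Om_eq α β (hS p hp'.1).1 (hα p hp'.1)
                intro i j hij hd
                exact hp'.2 ⟨i, j, hij, hd⟩
            · apply Finset.prod_nonneg
              intro p hp
              have hp' := (Finset.mem_filter.mp hp).1
              exact div_nonneg (hloc p hp').2.2.2.2 (hG0 p hp').le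
            · exact Finset.prod_nonneg fun p _ => (Real.exp_pos _).le
        _ = _ := mul_one _
    have h2 : ∏ p ∈ S', Real.exp ((2 * K : ℝ) / p) = Real.exp (∑ p ∈ S', (2 * K : ℝ) / p) :=
      (Real.exp_sum _ _).symm
    have hS'P : PSet w z S' := fun p hp => hS p (Finset.mem_filter.mp hp).1
    have h3 := hsing w z S' (by omega) hS'P
    have h4 : ∑ p ∈ S', (p : ℝ) ^ (-(9 / 10 : ℝ)) ≤ E := by
      have h5 : ∀ p ∈ S', (p : ℝ) ^ (-(9 / 10 : ℝ))
          ≤ ∑ i, ∑ j ∈ Finset.univ.filter (fun j => crossing i j),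
            if (p : ℤ) ∣ disc α β i j then (p : ℝ) ^ (-(9 / 10 : ℝ)) else 0 := by
        intro p hp
        obtain ⟨i, j, hij, hd⟩ := (Finset.mem_filter.mp hp).2
        have hnn : ∀ i j, (0 : ℝ) ≤ if (p : ℤ) ∣ disc α β i j
            then (p : ℝ) ^ (-(9 / 10 : ℝ)) else 0 := by
          intro i j
          split_ifs
          · exact Real.rpow_nonneg (Nat.cast_nonneg _) _
          · exact le_rfl
        calc (p : ℝ) ^ (-(9 / 10 : ℝ))
            = if (p : ℤ) ∣ disc α β i j then (p : ℝ) ^ (-(9 / 10 : ℝ)) else 0 := by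
              rw [if_pos hd]
          _ ≤ ∑ j ∈ Finset.univ.filter (fun j => crossing i j),
              if (p : ℤ) ∣ disc α β i j then (p : ℝ) ^ (-(9 / 10 : ℝ)) else 0 :=
              Finset.single_le_sum (f := fun j => if (p : ℤ) ∣ disc α β i j
                then (p : ℝ) ^ (-(9 / 10 : ℝ)) else 0) (fun j _ => hnn i j)
                (Finset.mem_filter.mpr ⟨Finset.mem_univ _, hij⟩)
          _ ≤ _ := Finset.single_le_sum (f := fun i =>
              ∑ j ∈ Finset.univ.filter (fun j => crossing i j),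
              if (p : ℤ) ∣ disc α β i j then (p : ℝ) ^ (-(9 / 10 : ℝ)) else 0)
              (fun i _ => Finset.sum_nonneg fun j _ => hnn i j) (Finset.mem_univ i)
      refine (Finset.sum_le_sum h5).trans ?_
      refine (Finset.sum_le_sum_of_subset_of_nonneg (Finset.filter_subset _ _) ?_).trans ?_
      · intro p _ _
        apply Finset.sum_nonneg
        intro i _
        apply Finset.sum_nonneg
        intro j _
        split_ifs
        · exact Real.rpow_nonneg (Nat.cast_nonneg _) _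
        · exact le_rfl
      · rw [hE, Finset.sum_comm]
        apply le_of_eq
        apply Finset.sum_congr rfl
        intro i _
        rw [Finset.sum_comm]
        apply Finset.sum_congr rfl
        intro j _
        unfold Ers
        rw [Finset.sum_filter]
    calc Sg ≤ Real.exp (∑ p ∈ S', (2 * K : ℝ) / p) := h1.trans h2.le
      _ ≤ 1 + ∑ p ∈ S', (p : ℝ) ^ (-(9 / 10 : ℝ)) := h3
      _ ≤ 1 + E := by linarith
  -- the error factor
  have hDinv : D⁻¹ ≤ (z : ℝ) ^ K := by
    obtain ⟨h1, h2⟩ := prod_ge_inv hS hw2 hz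
    have h3 : VV S ^ k * (∏ p ∈ S, (1 - 2 / (p : ℝ))) ^ m ≤ D := by
      rw [hD, ← Finset.prod_pow, show VV S ^ k = ∏ p ∈ S, (1 - 1 / (p : ℝ)) ^ k by
        rw [VV, Finset.prod_pow], ← Finset.prod_mul_distrib]
      apply Finset.prod_le_prod
      · intro p hp
        obtain ⟨_, h1, _⟩ := hS p hp
        have hp2 : (2 : ℝ) < p := by
          have : 2 < p := by omega
          exact_mod_cast this
        have h2 : 0 ≤ 1 - 1 / (p : ℝ) := by
          rw [sub_nonneg, div_le_one (by linarith)]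
          linarith
        have h3 : 0 ≤ 1 - 2 / (p : ℝ) := by
          rw [sub_nonneg, div_le_one (by linarith)]
          linarith
        positivity
      · intro p hp
        obtain ⟨_, h1, _⟩ := hS p hp
        have hp2 : (2 : ℝ) < p := by
          have : 2 < p := by omega
          exact_mod_cast this
        have h2 : 0 ≤ 1 - 1 / (p : ℝ) := by
          rw [sub_nonneg, div_le_one (by linarith)]
          linarith
        have h3 : 0 ≤ 1 - 2 / (p : ℝ) := by
          rw [sub_nonneg, div_le_one (by linarith)]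
          linarith
        show _ ≤ ∏ g, (1 - (nu α β p g : ℝ) / p)
        rw [Fintype.prod_sum_type]
        apply mul_le_mul _ _ (by positivity) (Finset.prod_nonneg fun g _ => by
          simp only [nu, Nat.cast_one]
          exact h2)
        · simp [nu]
        · calc (1 - 2 / (p : ℝ)) ^ m = ∏ _t : Fin m, (1 - 2 / (p : ℝ)) := by simp
            _ ≤ ∏ t : Fin m, (1 - (nu α β p (.inr t) : ℝ) / p) := by
              apply Finset.prod_le_prod
              · intro t _
                exact h3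
              · intro t _
                have h4 : (nu α β p (.inr t) : ℝ) ≤ 2 := by
                  have : nu α β p (.inr t) ≤ 2 := by
                    simp only [nu]
                    split_ifs <;> norm_num
                  exact_mod_cast this
                have h5 : (nu α β p (.inr t) : ℝ) / p ≤ 2 / p :=
                  div_le_div_of_nonneg_right h4 (by linarith)
                linarith
    have hV2 : 0 < VV S := VV_pos hS.prime
    set Q := ∏ p ∈ S, (1 - 2 / (p : ℝ)) with hQ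
    have h4 : (1 : ℝ) ≤ (z : ℝ) ^ K * (VV S ^ k * Q ^ m) := by
      calc (1 : ℝ) = 1 ^ k * 1 ^ m := by simp
        _ ≤ (z * VV S) ^ k * ((z : ℝ) ^ 2 * Q) ^ m :=
            mul_le_mul (pow_le_pow_left₀ (by norm_num) h1 k) (pow_le_pow_left₀ (by norm_num) h2 m)
              (by positivity) (by positivity)
        _ = (z : ℝ) ^ K * (VV S ^ k * Q ^ m) := by
            rw [hK, pow_add, mul_pow, mul_pow, ← pow_mul]
            ring
    rw [inv_le_iff_one_le_mul₀ hD0]
    exact h4.trans (mul_le_mul_of_nonneg_left h3 (by positivity))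
  -- conclusion
  set δ : ℝ := (2 : ℝ) ^ (-(A : ℝ) / C0) with hδ
  have hδ0 : 0 ≤ δ := Real.rpow_nonneg (by norm_num) _
  have hδ1 : δ ≤ 1 := by
    rw [hδ]
    apply Real.rpow_le_one_of_one_le_of_nonpos (by norm_num)
    apply div_nonpos_of_nonpos_of_nonneg _ (Nat.cast_nonneg _)
    simp
  have hmain : |N * D⁻¹ - (b - a) * Sg| ≤ δ * ((b - a) * Sg) + (z : ℝ) ^ (A + K) := by
    have h1 : N * D⁻¹ - (b - a) * Sg = (N - (b - a) * V) * D⁻¹ := by
      rw [hSg, div_eq_mul_inv]
      ring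
    rw [h1, abs_mul, abs_of_pos (inv_pos.mpr hD0)]
    calc |N - (b - a) * V| * D⁻¹ ≤ (δ * ((b - a) * V) + (z : ℝ) ^ A) * D⁻¹ :=
          mul_le_mul_of_nonneg_right hF (inv_pos.mpr hD0).le
      _ = δ * ((b - a) * Sg) + (z : ℝ) ^ A * D⁻¹ := by
          rw [hSg, div_eq_mul_inv]
          ring
      _ ≤ δ * ((b - a) * Sg) + (z : ℝ) ^ A * (z : ℝ) ^ K := by
          have := mul_le_mul_of_nonneg_left hDinv (show (0 : ℝ) ≤ (z : ℝ) ^ A by positivity)
          linarith
      _ = _ := by rw [pow_add (z : ℝ) A K]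
  have herC : δ + 2 * (K : ℝ) ^ 2 / w ≤ C * er C A w := by
    have hCr : (1 : ℝ) ≤ C := by
      have : 1 ≤ C := by omega
      exact_mod_cast this
    have hC0r : (1 : ℝ) ≤ C0 := by exact_mod_cast hC0
    have hCC0 : (C0 : ℝ) ≤ C := by
      have : C0 ≤ C := by omega
      exact_mod_cast this
    have h1 : δ ≤ (2 : ℝ) ^ (-(A : ℝ) / C) := by
      apply Real.rpow_le_rpow_of_exponent_le (by norm_num)
      rw [neg_div, neg_div]
      apply neg_le_neg
      exact div_le_div_of_nonneg_left (Nat.cast_nonneg _) (by linarith) hCC0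
    have h2 : (w : ℝ)⁻¹ ≤ (w : ℝ) ^ (-(1 : ℝ) / C) := by
      rw [← Real.rpow_neg_one]
      apply Real.rpow_le_rpow_of_exponent_le
      · have : 1 ≤ w := by omega
        exact_mod_cast this
      · rw [neg_div]
        apply neg_le_neg
        rw [div_le_one (by linarith)]
        exact hCr
    have h3 : 2 * (K : ℝ) ^ 2 ≤ C := by
      have : 2 * K ^ 2 ≤ C := by omega
      exact_mod_cast this
    have h4 : 0 ≤ (2 : ℝ) ^ (-(A : ℝ) / C) := Real.rpow_nonneg (by norm_num) _
    unfold er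
    rw [mul_add]
    apply add_le_add
    · nlinarith
    · rw [div_eq_mul_inv]
      apply mul_le_mul h3 h2 (by positivity) (by positivity)
  have hzK : (z : ℝ) ^ (A + K) ≤ C * (z : ℝ) ^ (A + k + 2 * m) := by
    rw [show A + k + 2 * m = A + K by omega]
    have hCr : (1 : ℝ) ≤ C := by
      have : 1 ≤ C := by omega
      exact_mod_cast this
    have : (0 : ℝ) ≤ (z : ℝ) ^ (A + K) := by positivity
    nlinarith
  have hCr2 : (2 : ℝ) ≤ C := by
    have : 2 ≤ C := by omega
    exact_mod_cast this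
  have habs : |N * D⁻¹ - (b - a)| ≤ |N * D⁻¹ - (b - a) * Sg| + (b - a) * |Sg - 1| := by
    have h1 : N * D⁻¹ - (b - a) = (N * D⁻¹ - (b - a) * Sg) + (b - a) * (Sg - 1) := by ring
    rw [h1]
    refine (abs_add_le _ _).trans ?_
    rw [abs_mul ((b : ℝ) - a), abs_of_nonneg hab']
  have hSg1 : |Sg - 1| ≤ 2 * (K : ℝ) ^ 2 / w + E := by
    rw [abs_le]
    have h1 : 0 ≤ 2 * (K : ℝ) ^ 2 / w := by positivity
    constructor <;> linarith
  refine habs.trans ?_
  have h5 : δ * ((b - a) * Sg) ≤ (b - a) * (δ + E) := by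
    calc δ * ((b - a) * Sg) ≤ δ * ((b - a) * (1 + E)) :=
          mul_le_mul_of_nonneg_left (mul_le_mul_of_nonneg_left hup hab') hδ0
      _ = (b - a) * (δ + δ * E) := by ring
      _ ≤ (b - a) * (δ + E) := by
          apply mul_le_mul_of_nonneg_left _ hab'
          nlinarith
  calc |N * D⁻¹ - (b - a) * Sg| + (b - a) * |Sg - 1|
      ≤ (δ * ((b - a) * Sg) + (z : ℝ) ^ (A + K)) + (b - a) * (2 * (K : ℝ) ^ 2 / w + E) :=
        add_le_add hmain (mul_le_mul_of_nonneg_left hSg1 hab')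
    _ ≤ ((b - a) * (δ + E) + (z : ℝ) ^ (A + K)) + (b - a) * (2 * (K : ℝ) ^ 2 / w + E) := by
        linarith
    _ = (b - a) * ((δ + 2 * (K : ℝ) ^ 2 / w) + 2 * E) + (z : ℝ) ^ (A + K) := by ring
    _ ≤ (b - a) * (C * er C A w + C * E) + C * (z : ℝ) ^ (A + k + 2 * m) := by
        apply add_le_add _ hzK
        apply mul_le_mul_of_nonneg_left _ hab'
        apply add_le_add herC
        exact mul_le_mul_of_nonneg_right hCr2 hE0

open Classical in
/-- the case of `k` single forms -/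
theorem corr0 (k : ℕ) : ∃ C : ℕ, 1 ≤ C ∧ ∀ (A w z : ℕ) (S : Finset ℕ), C ≤ A → C ≤ w → 2 ≤ z →
    PSet w z S → ∀ (α β : Fin k → ℤ), (∀ p ∈ S, ∀ i, ¬ (p : ℤ) ∣ α i) →
    ∀ (a b : ℤ), a ≤ b →
    |∑ x ∈ Finset.Ico a b, ∏ i : Fin k, rho S (α i * x + β i) - (b - a)| ≤
      (b - a) * (C * er C A w +
        C * ∑ i, ∑ j ∈ Finset.univ.filter (fun j => i ≠ j), Ers (9 / 10) S (disc α β i j))
        + C * (z : ℝ) ^ (A + k) := by
  obtain ⟨C, hC, h⟩ := corr k 0
  refine ⟨C, hC, fun A w z S hA hw hz hS α β hα a b hab => ?_⟩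
  have h1 := h A w z S hA hw hz hS (Sum.elim α (fun _ => 1)) (Sum.elim β (fun _ => 0))
    (by
      intro p hp i
      rcases i with i | ⟨t, _⟩
      · exact hα p hp i
      · exact t.elim0) a b hab
  simp only [Sum.elim_inl, Sum.elim_inr, Finset.univ_eq_empty, Finset.prod_empty, mul_one,
    mul_zero, add_zero] at h1
  refine h1.trans (le_of_eq ?_)
  congr 3
  congr 1
  rw [Fintype.sum_sum_type]
  have h2 : ∑ x : Fin 0 × Bool, ∑ j ∈ Finset.univ.filter
      (fun j : Fin k ⊕ (Fin 0 × Bool) => crossing (.inr x) j),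
      Ers (9 / 10) S (disc (Sum.elim α fun _ => 1) (Sum.elim β fun _ => 0) (.inr x) j) = 0 := by
    apply Finset.sum_eq_zero
    rintro ⟨t, _⟩ _
    exact t.elim0
  rw [h2, add_zero]
  apply Finset.sum_congr rfl
  intro i _
  rw [Finset.sum_filter, Finset.sum_filter, Fintype.sum_sum_type]
  have h3 : ∑ x : Fin 0 × Bool, (if crossing (k := k) (m := 0) (.inl i) (.inr x) then
      Ers (9 / 10) S (disc (Sum.elim α fun _ => 1) (Sum.elim β fun _ => 0) (.inl i) (.inr x))
      else 0) = 0 := by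
    apply Finset.sum_eq_zero
    rintro ⟨t, _⟩ _
    exact t.elim0
  rw [h3, add_zero]
  apply Finset.sum_congr rfl
  intro j _
  have h4 : crossing (k := k) (m := 0) (.inl i) (.inl j) ↔ i ≠ j := by
    rw [crossing_iff]
    simp [grp]
  simp only [h4]
  rfl

end Pool.Agent.Lib.H18GB
end
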