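import Pool.Agent.Lib.H1M.RV.M003

/-! Merged copies (to shorten the build) of Lib.H18GB.Vl. -/

-- from Lib.H18GB.Vl
section

/-!
# Project GB: GEO, VL
-/

namespace Pool.Agent.Lib.H18GB

open Finset Pool.Agent.Lib.Sieve

theorem e_mul_sub_one_tele (a : ℤ) (ξ : ℝ) (n : ℕ) :
    (e ξ - 1) * ∑ x ∈ Finset.Ico a (a + n), e (ξ * x) = e (ξ * ((a + n : ℤ) : ℝ)) - e (ξ * a) := by
  induction n with
  | zero => simp
  | succ n ih =>
    have h1 : Finset.Ico a (a + ((n + 1 : ℕ) : ℤ)) = insert (a + n) (Finset.Ico a (a + n)) := by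
      ext x
      simp only [Finset.mem_insert, Finset.mem_Ico]
      push_cast
      omega
    have h2 : (a + n : ℤ) ∉ Finset.Ico a (a + n) := by simp
    rw [h1, Finset.sum_insert h2, mul_add, ih]
    have h3 : e (ξ * ((a + ((n + 1 : ℕ) : ℤ) : ℤ) : ℝ)) = e ξ * e (ξ * ((a + n : ℤ) : ℝ)) := by
      rw [← e_add]
      congr 1
      push_cast
      ring
    rw [h3]
    ring

theorem four_nr_le (ξ : ℝ) : 4 * nr ξ ≤ ‖e ξ - 1‖ := by
  have h1 : e ξ = e (ξ - round ξ) := by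
    have := e_add_int (ξ - round ξ) (round ξ)
    rw [sub_add_cancel] at this
    exact this
  rw [h1]
  set t : ℝ := ξ - round ξ with ht
  have htn : nr ξ = |t| := rfl
  have ht2 : |t| ≤ 1 / 2 := abs_sub_round ξ
  have h2 : e t = Complex.exp (Complex.I * ((2 * Real.pi * t : ℝ) : ℂ)) := by
    unfold e
    congr 1
    push_cast
    ring
  rw [h2, Complex.norm_exp_I_mul_ofReal_sub_one, htn]
  have h3 : |2 * Real.pi * t / 2| ≤ Real.pi / 2 := by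
    have : 2 * Real.pi * t / 2 = Real.pi * t := by ring
    rw [this, abs_mul, abs_of_pos Real.pi_pos]
    nlinarith [Real.pi_pos]
  have h4 := Real.mul_abs_le_abs_sin h3
  have h5 : 2 / Real.pi * |2 * Real.pi * t / 2| = 2 * |t| := by
    have : 2 * Real.pi * t / 2 = Real.pi * t := by ring
    rw [this, abs_mul, abs_of_pos Real.pi_pos]
    field_simp
  rw [h5] at h4
  rw [norm_mul, Real.norm_eq_abs, Real.norm_eq_abs, abs_of_pos (by norm_num : (0 : ℝ) < 2)]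
  linarith

/-- Chunk GEO: `|∑_{x ∈ [a, b)} e (ξ x)| ≤ min (b - a) (1 / (2 nr ξ))`. -/
theorem geo (a b : ℤ) (hab : a ≤ b) (ξ : ℝ) :
    ‖∑ x ∈ Finset.Ico a b, e (ξ * x)‖ * (2 * nr ξ) ≤ 1 := by
  obtain ⟨n, rfl⟩ : ∃ n : ℕ, b = a + n := ⟨(b - a).toNat, by omega⟩
  have h1 := congrArg norm (e_mul_sub_one_tele a ξ n)
  rw [norm_mul] at h1
  have h2 : ‖e (ξ * ((a + n : ℤ) : ℝ)) - e (ξ * a)‖ ≤ 2 := by
    refine (norm_sub_le _ _).trans ?_
    rw [norm_e, norm_e]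
    norm_num
  have h3 := four_nr_le ξ
  have h4 : 4 * nr ξ * ‖∑ x ∈ Finset.Ico a (a + n), e (ξ * x)‖ ≤ 2 := by
    calc 4 * nr ξ * ‖∑ x ∈ Finset.Ico a (a + n), e (ξ * x)‖
        ≤ ‖e ξ - 1‖ * ‖∑ x ∈ Finset.Ico a (a + n), e (ξ * x)‖ := by gcongr
      _ ≤ 2 := by rw [h1]; exact h2
  linarith

/-- a finite set of integers of diameter `≤ D` has at most `D + 1` elements -/
theorem card_le_of_diam (s : Finset ℤ) (D : ℝ) (hD : 0 ≤ D)
    (h : ∀ x ∈ s, ∀ y ∈ s, (x : ℝ) - y ≤ D) : (s.card : ℝ) ≤ D + 1 := by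
  rcases s.eq_empty_or_nonempty with rfl | hne
  · simp; linarith
  · set m := s.min' hne with hm
    have hsub : s ⊆ Finset.Icc m (m + ⌊D⌋) := by
      intro x hx
      rw [Finset.mem_Icc]
      refine ⟨s.min'_le x hx, ?_⟩
      have h1 := h x hx m (s.min'_mem hne)
      have h2 : (x - m : ℤ) ≤ ⌊D⌋ := by
        rw [Int.le_floor]
        push_cast
        exact h1
      omega
    have h1 := Finset.card_le_card hsub
    rw [Int.card_Icc] at h1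
    have h2 : 0 ≤ ⌊D⌋ := Int.floor_nonneg.2 hD
    have h3 : (s.card : ℤ) ≤ ⌊D⌋ + 1 := by
      have : ((m + ⌊D⌋ + 1 - m).toNat : ℤ) = ⌊D⌋ + 1 := by
        rw [Int.toNat_of_nonneg (by omega)]
        ring
      omega
    have h4 : ((s.card : ℤ) : ℝ) ≤ ((⌊D⌋ + 1 : ℤ) : ℝ) := by exact_mod_cast h3
    have h5 : ((⌊D⌋ : ℤ) : ℝ) ≤ D := Int.floor_le D
    push_cast at h4
    linarith

theorem card_le_fiber {ι κ : Type*} [DecidableEq κ] (s : Finset ι) (f : ι → κ) (n : ℝ)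
    (h : ∀ y ∈ s.image f, ((s.filter fun x => f x = y).card : ℝ) ≤ n) :
    (s.card : ℝ) ≤ n * (s.image f).card := by
  rw [Finset.card_eq_sum_card_image f s]
  push_cast
  calc ∑ b ∈ s.image f, ((s.filter fun x => f x = b).card : ℝ)
      ≤ ∑ b ∈ s.image f, n := Finset.sum_le_sum h
    _ = n * (s.image f).card := by rw [Finset.sum_const, nsmul_eq_mul, mul_comm]

open Classical in
theorem vl_q (c : ℝ) (hc : 0 < c) (K : ℕ) (hK : 3 < c * K)
    (ε0 : ℝ) (α : ℝ)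
    (h : c * K ≤ ((Finset.Icc (-(K : ℤ)) K).filter fun k : ℤ => nr (k * α) ≤ ε0).card) :
    ∃ q : ℕ, 1 ≤ q ∧ (q : ℝ) ≤ 3 / c ∧ nr (q * α) ≤ 2 * ε0 := by
  set 𝒦 := (Finset.Icc (-(K : ℤ)) K).filter fun k : ℤ => nr (k * α) ≤ ε0 with h𝒦
  set q0 : ℕ := ⌈3 / c⌉₊ with hq0
  have hq0' : 3 / c ≤ q0 := Nat.le_ceil _
  have hq0'' : (q0 : ℝ) < 3 / c + 1 := Nat.ceil_lt_add_one (by positivity)
  have hq0pos : 0 < q0 := by
    have : (0 : ℝ) < 3 / c := by positivity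
    exact_mod_cast lt_of_lt_of_le this hq0'
  have hq0z : (0 : ℤ) < q0 := by exact_mod_cast hq0pos
  have hmap : ∀ k ∈ 𝒦, (k + K) / (q0 : ℤ) ∈ Finset.Icc (0 : ℤ) (2 * K / q0) := by
    intro k hk
    rw [h𝒦, Finset.mem_filter, Finset.mem_Icc] at hk
    rw [Finset.mem_Icc]
    constructor
    · apply Int.ediv_nonneg (by omega) (by omega)
    · apply Int.ediv_le_ediv hq0z (by omega)
  have hcard : (Finset.Icc (0 : ℤ) (2 * K / q0)).card < 𝒦.card := by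
    rw [Int.card_Icc]
    have h1 : (((2 * (K : ℤ) / q0 + 1 - 0).toNat : ℤ) : ℝ) < (𝒦.card : ℝ) := by
      have h2 : (0 : ℤ) ≤ 2 * (K : ℤ) / q0 := Int.ediv_nonneg (by omega) (by omega)
      rw [Int.toNat_of_nonneg (by omega)]
      have h3 : (2 * (K : ℤ) / q0) * q0 ≤ 2 * K := Int.ediv_mul_le _ (by omega)
      have h4 : (((2 * (K : ℤ) / q0 : ℤ)) : ℝ) * q0 ≤ 2 * K := by exact_mod_cast h3
      have h2' : (0 : ℝ) ≤ ((2 * (K : ℤ) / q0 : ℤ) : ℝ) := by exact_mod_cast h2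
      have h5 : (((2 * (K : ℤ) / q0 : ℤ)) : ℝ) * (3 / c) ≤ 2 * K := by
        refine le_trans ?_ h4
        gcongr
      have h6 : (((2 * (K : ℤ) / q0 : ℤ)) : ℝ) ≤ 2 / 3 * (c * K) := by
        have : (((2 * (K : ℤ) / q0 : ℤ)) : ℝ) = ((((2 * (K : ℤ) / q0 : ℤ)) : ℝ) * (3 / c)) * (c / 3) := by
          field_simp
        rw [this]
        calc ((((2 * (K : ℤ) / q0 : ℤ)) : ℝ) * (3 / c)) * (c / 3) ≤ (2 * K) * (c / 3) := by gcongr
          _ = 2 / 3 * (c * K) := by ring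
      have h7 : ((2 * (K : ℤ) / q0 + 1 - 0 : ℤ) : ℝ) = ((2 * (K : ℤ) / q0 : ℤ) : ℝ) + 1 := by
        push_cast; ring
      rw [h7]
      linarith
    exact_mod_cast h1
  obtain ⟨k1, hk1, k2, hk2, hne, heq⟩ := Finset.exists_ne_map_eq_of_card_lt_of_maps_to hcard hmap
  -- symmetric statement
  have main : ∀ k1 ∈ 𝒦, ∀ k2 ∈ 𝒦, k2 < k1 → (k1 + K) / (q0 : ℤ) = (k2 + K) / (q0 : ℤ) →
      ∃ q : ℕ, 1 ≤ q ∧ (q : ℝ) ≤ 3 / c ∧ nr (q * α) ≤ 2 * ε0 := by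
    intro k1 hk1 k2 hk2 hlt heq
    refine ⟨(k1 - k2).toNat, by omega, ?_, ?_⟩
    · have h1 : k1 - k2 < q0 := by
        have e1 := Int.emod_add_mul_ediv (k1 + K) q0
        have e2 := Int.emod_add_mul_ediv (k2 + K) q0
        have e3 := Int.emod_nonneg (k2 + K) (by omega : (q0 : ℤ) ≠ 0)
        have e4 := Int.emod_lt_of_pos (k1 + K) hq0z
        rw [heq] at e1
        omega
      have h2 : (((k1 - k2).toNat : ℕ) : ℤ) ≤ (q0 : ℤ) - 1 := by omega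
      have h3 : (((k1 - k2).toNat : ℕ) : ℝ) ≤ (q0 : ℝ) - 1 := by exact_mod_cast h2
      linarith
    · have h1 : (((k1 - k2).toNat : ℕ) : ℝ) = (k1 : ℝ) - k2 := by
        have : (((k1 - k2).toNat : ℕ) : ℤ) = k1 - k2 := by omega
        have h' : ((((k1 - k2).toNat : ℕ) : ℤ) : ℝ) = ((k1 - k2 : ℤ) : ℝ) := by rw [this]
        push_cast at h'
        exact_mod_cast h'
      rw [h1]
      have n1 : nr (k1 * α) ≤ ε0 := (Finset.mem_filter.1 hk1).2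
      have n2 : nr (k2 * α) ≤ ε0 := (Finset.mem_filter.1 hk2).2
      unfold nr at n1 n2
      have h2 := nr_le_abs_sub (((k1 : ℝ) - k2) * α) (round ((k1 : ℝ) * α) - round ((k2 : ℝ) * α))
      have h3 : ((k1 : ℝ) - k2) * α - ((round ((k1 : ℝ) * α) - round ((k2 : ℝ) * α) : ℤ) : ℝ) =
          (k1 * α - round ((k1 : ℝ) * α)) - (k2 * α - round ((k2 : ℝ) * α)) := by
        push_cast; ring
      rw [h3] at h2
      have h4 := abs_sub (k1 * α - round ((k1 : ℝ) * α)) (k2 * α - round ((k2 : ℝ) * α))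
      linarith
  rcases lt_or_gt_of_ne hne with hlt | hlt
  · exact main k2 hk2 k1 hk1 hlt heq.symm
  · exact main k1 hk1 k2 hk2 hlt heq

open Classical in
/-- the counting bound -/
theorem vl_count (K : ℕ) (ε0 : ℝ) (hε : 0 ≤ ε0) (α : ℝ) (q : ℕ) (hq : 1 ≤ q) (ϑ : ℝ) (a : ℤ)
    (hϑ : ϑ ≠ 0) (hqa : q * α = a + ϑ) :
    (((Finset.Icc (-(K : ℤ)) K).filter fun k : ℤ => nr (k * α) ≤ ε0).card : ℝ) ≤
      (2 * ε0 / |ϑ| + 1) * ((2 * K * |ϑ| / q + 2 * ε0 + 1) * q) := by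
  set 𝒦 := (Finset.Icc (-(K : ℤ)) K).filter fun k : ℤ => nr (k * α) ≤ ε0 with h𝒦
  have hϑ' : 0 < |ϑ| := abs_pos.2 hϑ
  have hqr : (0 : ℝ) < q := by exact_mod_cast hq
  have hqz : (0 : ℤ) < q := by exact_mod_cast hq
  set f : ℤ → ℤ × ℤ := fun k => (k % q, round ((k : ℝ) * α) - (k / q) * a) with hf
  have key : ∀ k ∈ 𝒦, |((k % q : ℤ) : ℝ) * a / q + k * ϑ / q - (f k).2| ≤ ε0 := by
    intro k hk
    have n1 : nr (k * α) ≤ ε0 := (Finset.mem_filter.1 hk).2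
    unfold nr at n1
    have e1 := Int.emod_add_mul_ediv k q
    have e2 : ((k % q : ℤ) : ℝ) + q * ((k / q : ℤ) : ℝ) = k := by exact_mod_cast e1
    have e3 : (k : ℝ) * α - round ((k : ℝ) * α) =
        ((k % q : ℤ) : ℝ) * a / q + k * ϑ / q - (f k).2 := by
      have e4 : α = (a + ϑ) / q := by field_simp; linarith
      have e5 : (k : ℝ) * α = k * a / q + k * ϑ / q := by rw [e4]; ring
      have e6 : (k : ℝ) * a / q = ((k % q : ℤ) : ℝ) * a / q + ((k / q : ℤ) : ℝ) * a := by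
        rw [← e2]
        field_simp
      simp only [hf]
      push_cast
      rw [e5, e6]
      ring
    rwa [e3] at n1
  have hfib : ∀ y ∈ 𝒦.image f, ((𝒦.filter fun x => f x = y).card : ℝ) ≤ 2 * ε0 / |ϑ| + 1 := by
    intro y _
    have hinj : Set.InjOn (fun k : ℤ => k / (q : ℤ)) (𝒦.filter fun x => f x = y) := by
      intro x hx x' hx' hxx
      rw [Finset.coe_filter] at hx hx'
      have h1 : x % q = x' % q := by
        have a1 := congrArg Prod.fst hx.2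
        have a2 := congrArg Prod.fst hx'.2
        simp only [hf] at a1 a2
        rw [a1, a2]
      have e1 := Int.emod_add_mul_ediv x q
      have e2 := Int.emod_add_mul_ediv x' q
      simp only at hxx
      rw [← e1, ← e2, h1, hxx]
    rw [← Finset.card_image_of_injOn hinj]
    apply card_le_of_diam _ _ (by positivity)
    intro u hu v hv
    rw [Finset.mem_image] at hu hv
    obtain ⟨x, hx, rfl⟩ := hu
    obtain ⟨x', hx', rfl⟩ := hv
    rw [Finset.mem_filter] at hx hx'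
    have a1 := congrArg Prod.fst hx.2
    have a2 := congrArg Prod.fst hx'.2
    have b1 := congrArg Prod.snd hx.2
    have b2 := congrArg Prod.snd hx'.2
    have k1 := key x hx.1
    have k2 := key x' hx'.1
    have m1 : x % q = x' % q := by simp only [hf] at a1 a2; rw [a1, a2]
    rw [b1] at k1
    rw [b2, ← m1] at k2
    have e1 := Int.emod_add_mul_ediv x q
    have e2 := Int.emod_add_mul_ediv x' q
    have e1' : ((x % q : ℤ) : ℝ) + q * ((x / q : ℤ) : ℝ) = x := by exact_mod_cast e1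
    have e2' : ((x % q : ℤ) : ℝ) + q * ((x' / q : ℤ) : ℝ) = x' := by rw [m1]; exact_mod_cast e2
    have k3 : |(x : ℝ) * ϑ / q - x' * ϑ / q| ≤ 2 * ε0 := by
      have := abs_sub (((x % q : ℤ) : ℝ) * a / q + x * ϑ / q - y.2)
        (((x % q : ℤ) : ℝ) * a / q + x' * ϑ / q - y.2)
      have e : ((x % q : ℤ) : ℝ) * a / q + x * ϑ / q - y.2 -
        (((x % q : ℤ) : ℝ) * a / q + x' * ϑ / q - y.2) = (x : ℝ) * ϑ / q - x' * ϑ / q := by ring
      rw [e] at this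
      linarith
    have k4 : (x : ℝ) * ϑ / q - x' * ϑ / q = (((x / q : ℤ) : ℝ) - ((x' / q : ℤ) : ℝ)) * ϑ := by
      rw [← e1', ← e2']
      field_simp
      ring_nf
    rw [k4, abs_mul] at k3
    rw [le_div_iff₀ hϑ']
    calc (((x / q : ℤ) : ℝ) - ((x' / q : ℤ) : ℝ)) * |ϑ|
        ≤ |((x / q : ℤ) : ℝ) - ((x' / q : ℤ) : ℝ)| * |ϑ| := by gcongr; exact le_abs_self _
      _ ≤ 2 * ε0 := k3
  have h1 := card_le_fiber 𝒦 f _ hfib
  have hfib2 : ∀ y ∈ (𝒦.image f).image Prod.fst,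
      (((𝒦.image f).filter fun x => x.1 = y).card : ℝ) ≤ 2 * K * |ϑ| / q + 2 * ε0 + 1 := by
    intro y _
    have hinj : Set.InjOn (Prod.snd : ℤ × ℤ → ℤ) ((𝒦.image f).filter fun x => x.1 = y) := by
      intro x hx x' hx' hxx
      rw [Finset.coe_filter] at hx hx'
      exact Prod.ext (by rw [hx.2, hx'.2]) hxx
    rw [← Finset.card_image_of_injOn hinj]
    apply card_le_of_diam _ _ (by positivity)
    intro u hu v hv
    rw [Finset.mem_image] at hu hv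
    obtain ⟨z, hz, rfl⟩ := hu
    obtain ⟨z', hz', rfl⟩ := hv
    rw [Finset.mem_filter, Finset.mem_image] at hz hz'
    obtain ⟨⟨x, hx, rfl⟩, hz⟩ := hz
    obtain ⟨⟨x', hx', rfl⟩, hz'⟩ := hz'
    have k1 := key x hx
    have k2 := key x' hx'
    have m1 : x % q = x' % q := by simp only [hf] at hz hz'; rw [hz, hz']
    rw [← m1] at k2
    have r1 : |(x : ℝ) - x'| ≤ 2 * K := by
      rw [h𝒦, Finset.mem_filter, Finset.mem_Icc] at hx hx'
      obtain ⟨⟨c1, c2⟩, -⟩ := hx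
      obtain ⟨⟨c3, c4⟩, -⟩ := hx'
      have c1' : (-(K : ℝ)) ≤ x := by exact_mod_cast c1
      have c2' : (x : ℝ) ≤ K := by exact_mod_cast c2
      have c3' : (-(K : ℝ)) ≤ x' := by exact_mod_cast c3
      have c4' : (x' : ℝ) ≤ K := by exact_mod_cast c4
      rw [abs_le]
      constructor <;> linarith
    have r2 : |((x : ℝ) - x') * ϑ / q| ≤ 2 * K * |ϑ| / q := by
      rw [abs_div, abs_mul, abs_of_pos hqr]
      gcongr
    have r3 := abs_le.1 k1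
    have r4 := abs_le.1 k2
    have r5 := abs_le.1 r2
    have r6 : ((x : ℝ) - x') * ϑ / q = x * ϑ / q - x' * ϑ / q := by ring
    rw [r6] at r5
    linarith [r3.1, r3.2, r4.1, r4.2, r5.1, r5.2]
  have h2 := card_le_fiber (𝒦.image f) Prod.fst _ hfib2
  have h3 : (((𝒦.image f).image Prod.fst).card : ℝ) ≤ q := by
    have hsub : (𝒦.image f).image Prod.fst ⊆ Finset.Ico (0 : ℤ) q := by
      intro y hy
      rw [Finset.mem_image] at hy
      obtain ⟨z, hz, rfl⟩ := hy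
      rw [Finset.mem_image] at hz
      obtain ⟨x, hx, rfl⟩ := hz
      simp only [hf, Finset.mem_Ico]
      exact ⟨Int.emod_nonneg _ (by omega), Int.emod_lt_of_pos _ hqz⟩
    have := Finset.card_le_card hsub
    rw [Int.card_Ico] at this
    have h' : ((𝒦.image f).image Prod.fst).card ≤ q := by
      simpa using this
    exact_mod_cast h'
  have h4 : ((𝒦.image f).card : ℝ) ≤ (2 * K * |ϑ| / q + 2 * ε0 + 1) * q := by
    refine h2.trans ?_
    gcongr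
  refine h1.trans ?_
  gcongr

open Classical in
/-- Chunk VL (pigeonhole). Proof. `𝒦 = {k ∈ [-K, K] : nr (k α) ≤ ε0}` has `≥ c K` elements, so two
of them differ by at most `2 / c + 1`, hence there is `1 ≤ q ≤ 3 / c` with `nr (q α) ≤ 2 ε0`;
write `q α = a + ϑ`, `|ϑ| ≤ 2 ε0`. For `k ∈ 𝒦`, `k ≡ l mod q`: `nr (l a / q + k ϑ / q) ≤ ε0` (write
`k α = k a / q + k ϑ / q`). If `ϑ = 0` done. The map `k ↦ k ϑ / q` has total variation
`≤ 2 K |ϑ| / q` on `[-K, K]`; so for each `l mod q`, the `k ≡ l` in question lie in at most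
`2 K |ϑ| / q + 2` intervals of length `2 ε0 q / |ϑ|`, each containing at most `2 ε0 / |ϑ| + 1` of
them. Total: `c K ≤ q (2 K |ϑ| / q + 2) (2 ε0 / |ϑ| + 1)
  = 4 K ε0 + 2 K |ϑ| + 4 q ε0 / |ϑ| + 2 q ≤ 8 K ε0 + 4 q ε0 / |ϑ| + 2 q`. With `ε0 ≤ c / 32` and
`2 q ≤ c K / 4` we get `4 q ε0 / |ϑ| ≥ c K / 2`, i.e. `|ϑ| ≤ 8 q ε0 / (c K)`. -/
theorem vl (c : ℝ) (hc : 0 < c) (hc1 : c ≤ 1) : ∃ Q : ℕ, 1 ≤ Q ∧ ∀ (K : ℕ), Q ≤ K →
    ∀ ε0 : ℝ, 0 ≤ ε0 → Q * ε0 ≤ 1 → ∀ α : ℝ,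
    c * K ≤ ((Finset.Icc (-(K : ℤ)) K).filter fun k : ℤ => nr (k * α) ≤ ε0).card →
    ∃ q : ℕ, 1 ≤ q ∧ q ≤ Q ∧ nr (q * α) ≤ Q * ε0 / K := by
  refine ⟨⌈32 / c ^ 2⌉₊, ?_, ?_⟩
  · apply Nat.one_le_iff_ne_zero.2
    have : (0 : ℝ) < 32 / c ^ 2 := by positivity
    exact (Nat.ceil_pos.2 this).ne'
  intro K hK ε0 hε hQε α hcard
  set Q : ℕ := ⌈32 / c ^ 2⌉₊ with hQ
  have hQ1 : 32 / c ^ 2 ≤ Q := Nat.le_ceil _
  have hKr : (Q : ℝ) ≤ K := by exact_mod_cast hK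
  have hcc : c ^ 2 ≤ c := by nlinarith
  have hQ2 : 32 ≤ Q * c ^ 2 := by rwa [div_le_iff₀ (by positivity)] at hQ1
  have hQ0 : (0 : ℝ) ≤ Q := Nat.cast_nonneg _
  have hQ3 : 32 ≤ Q * c := hQ2.trans (by gcongr)
  have hKc2 : 32 ≤ K * c ^ 2 := hQ2.trans (by gcongr)
  have hKc : 32 ≤ K * c := hQ3.trans (by gcongr)
  have hKpos : (0 : ℝ) < K := by
    by_contra hcon
    rw [not_lt] at hcon
    nlinarith
  have hε1 : ε0 ≤ c / 32 := by
    have : 32 * ε0 ≤ c := by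
      calc 32 * ε0 ≤ (Q * c) * ε0 := by gcongr
        _ = c * (Q * ε0) := by ring
        _ ≤ c * 1 := by gcongr
        _ = c := mul_one _
    linarith
  obtain ⟨q, hq1, hq2, hq3⟩ := vl_q c hc K (by nlinarith) ε0 α hcard
  have hq2' : (q : ℝ) * c ≤ 3 := by rwa [le_div_iff₀ hc] at hq2
  have hq0 : (0 : ℝ) ≤ q := Nat.cast_nonneg _
  have hqQ : (q : ℝ) ≤ Q := by
    by_contra hcon
    rw [not_le] at hcon
    have : (Q : ℝ) * c ≤ q * c := by gcongr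
    linarith
  refine ⟨q, hq1, by exact_mod_cast hqQ, ?_⟩
  set ϑ : ℝ := q * α - round (q * α) with hϑd
  have hnr : nr (q * α) = |ϑ| := rfl
  rw [hnr] at hq3 ⊢
  by_cases hϑ : ϑ = 0
  · rw [hϑ, abs_zero]
    positivity
  have hϑ' : 0 < |ϑ| := abs_pos.2 hϑ
  have hcount := vl_count K ε0 hε α q hq1 ϑ (round (q * α)) hϑ (by rw [hϑd]; ring)
  have h1 := hcard.trans hcount
  have hqr : (0 : ℝ) < q := by exact_mod_cast hq1
  -- expand
  have h2 : (2 * ε0 / |ϑ| + 1) * ((2 * K * |ϑ| / q + 2 * ε0 + 1) * q) =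
      4 * K * ε0 + 2 * K * |ϑ| + (2 * ε0 + 1) * (q * (2 * ε0 / |ϑ|)) + (2 * ε0 + 1) * q := by
    field_simp
    ring
  rw [h2] at h1
  have hε2 : 2 * ε0 + 1 ≤ 2 := by linarith
  have hx : 0 ≤ (q : ℝ) * (2 * ε0 / |ϑ|) := by positivity
  have h3 : (2 * ε0 + 1) * (q * (2 * ε0 / |ϑ|)) ≤ 2 * (q * (2 * ε0 / |ϑ|)) := by gcongr
  have h4 : (2 * ε0 + 1) * (q : ℝ) ≤ 2 * q := by gcongr
  have h5 : 2 * K * |ϑ| ≤ 4 * K * ε0 := by
    calc 2 * (K : ℝ) * |ϑ| ≤ 2 * K * (2 * ε0) := by gcongr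
      _ = 4 * K * ε0 := by ring
  have h6 : 8 * (K : ℝ) * ε0 ≤ c * K / 4 := by
    calc 8 * (K : ℝ) * ε0 ≤ 8 * K * (c / 32) := by gcongr
      _ = c * K / 4 := by ring
  have h7 : 2 * (q : ℝ) ≤ c * K / 4 := by
    have : 8 * (q : ℝ) * c ≤ c * K * c := by nlinarith
    have := le_of_mul_le_mul_right this hc
    linarith
  have h8 : c * K / 2 ≤ 2 * (q * (2 * ε0 / |ϑ|)) := by linarith
  have h9 : c * K / 2 * |ϑ| ≤ 4 * q * ε0 := by
    calc c * K / 2 * |ϑ| ≤ 2 * (q * (2 * ε0 / |ϑ|)) * |ϑ| := by gcongr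
      _ = 4 * q * ε0 := by field_simp; ring
  rw [le_div_iff₀ hKpos]
  have h10 : |ϑ| * K * c ^ 2 ≤ 24 * ε0 := by
    have : c * (c * K / 2 * |ϑ|) ≤ c * (4 * q * ε0) := by gcongr
    have h' : c * (4 * q * ε0) ≤ 12 * ε0 := by nlinarith
    nlinarith
  have h11 : 24 * ε0 ≤ Q * ε0 * c ^ 2 := by nlinarith
  have hc2 : 0 < c ^ 2 := by positivity
  exact le_of_mul_le_mul_right (h10.trans h11) hc2

end Pool.Agent.Lib.H18GB
end
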