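import Pool.Agent.Lib.H1M.RV.M009
import Pool.Agent.Lib.H1M.RV.M015

/-! Merged copies (to shorten the build) of Lib.H18GB.STRa, Lib.H18GB.STRb, Lib.H18GB.STRc, Lib.H18GB.STRd, Lib.H18GB.STRe, Lib.H18GB.STRf. -/

-- from Lib.H18GB.STRa
section

/-!
# Chunk STR, part a: abstract Cauchy-Schwarz steps
-/

namespace Pool.Agent.Lib.H18GB

open Finset Pool.Agent.Lib.Sieve

/-- weighted Cauchy-Schwarz -/
theorem str_cs {α : Type*} (s : Finset α) (u v : α → ℝ) (hu : ∀ a ∈ s, 0 ≤ u a) :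
    (∑ a ∈ s, u a * v a) ^ 2 ≤ (∑ a ∈ s, u a) * ∑ a ∈ s, u a * v a ^ 2 :=
  Finset.sum_sq_le_sum_mul_sum_of_sq_le_mul s hu
    (fun a ha => mul_nonneg (hu a ha) (sq_nonneg _)) (fun a _ => le_of_eq (by ring))

/-- the square of the norm of a sum, expanded -/
theorem str_sq {α : Type*} (s : Finset α) (z : α → ℂ) :
    ((‖∑ a ∈ s, z a‖ ^ 2 : ℝ) : ℂ) = ∑ a ∈ s, ∑ b ∈ s, z a * (starRingEnd ℂ) (z b) := by
  rw [← Complex.normSq_eq_norm_sq, Complex.normSq_eq_conj_mul_self, map_sum, Finset.sum_mul_sum,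
    Finset.sum_comm]
  refine Finset.sum_congr rfl fun a _ => Finset.sum_congr rfl fun b _ => ?_
  ring

/-- two applications of Cauchy-Schwarz -/
theorem str_abs {α ι : Type*} (I : Finset α) (Q : Finset ι) (rh : α → ℝ) (V : ℝ)
    (hrh : ∀ a, 0 ≤ rh a) (β : α → ℂ) (hβ : ∀ a, ‖β a‖ ≤ V * rh a) (g : ι → ℂ) (nu : ι → ℝ)
    (hg : ∀ p, ‖g p‖ ≤ nu p) (U : ι → α → ℂ) :
    ‖∑ a ∈ I, β a * ∑ p ∈ Q, g p * U p a‖ ^ 4 ≤
      V ^ 4 * (∑ a ∈ I, rh a) ^ 2 * (∑ p ∈ Q, nu p) ^ 2 *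
        ∑ p ∈ Q, ∑ p' ∈ Q, nu p * nu p' *
          ‖∑ a ∈ I, (rh a : ℂ) * (U p a * (starRingEnd ℂ) (U p' a))‖ ^ 2 := by
  have hnu : ∀ p, 0 ≤ nu p := fun p => le_trans (norm_nonneg _) (hg p)
  set Z : α → ℂ := fun a => ∑ p ∈ Q, g p * U p a with hZ
  set T : ι → ι → ℝ := fun p p' =>
    ‖∑ a ∈ I, (rh a : ℂ) * (U p a * (starRingEnd ℂ) (U p' a))‖ with hT
  -- first step
  have h1 : ‖∑ a ∈ I, β a * Z a‖ ≤ V * ∑ a ∈ I, rh a * ‖Z a‖ := by
    refine le_trans (norm_sum_le _ _) ?_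
    rw [Finset.mul_sum]
    refine Finset.sum_le_sum fun a _ => ?_
    rw [norm_mul, ← mul_assoc]
    exact mul_le_mul_of_nonneg_right (hβ a) (norm_nonneg _)
  have h2 : (∑ a ∈ I, rh a * ‖Z a‖) ^ 2 ≤ (∑ a ∈ I, rh a) * ∑ a ∈ I, rh a * ‖Z a‖ ^ 2 :=
    str_cs I rh (fun a => ‖Z a‖) (fun a _ => hrh a)
  -- second step
  have h3 : ∑ a ∈ I, rh a * ‖Z a‖ ^ 2 ≤ ∑ p ∈ Q, ∑ p' ∈ Q, nu p * nu p' * T p p' := by
    have e1 : ((∑ a ∈ I, rh a * ‖Z a‖ ^ 2 : ℝ) : ℂ) =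
        ∑ p ∈ Q, ∑ p' ∈ Q, g p * (starRingEnd ℂ) (g p') *
          ∑ a ∈ I, (rh a : ℂ) * (U p a * (starRingEnd ℂ) (U p' a)) := by
      push_cast
      have : ∀ a ∈ I, (rh a : ℂ) * (‖Z a‖ : ℂ) ^ 2 =
          ∑ p ∈ Q, ∑ p' ∈ Q, g p * (starRingEnd ℂ) (g p') *
            ((rh a : ℂ) * (U p a * (starRingEnd ℂ) (U p' a))) := by
        intro a _
        have := str_sq Q (fun p => g p * U p a)
        push_cast at this
        rw [hZ]
        simp only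
        rw [this, Finset.mul_sum]
        refine Finset.sum_congr rfl fun p _ => ?_
        rw [Finset.mul_sum]
        refine Finset.sum_congr rfl fun p' _ => ?_
        rw [map_mul]
        ring
      rw [Finset.sum_congr rfl this, Finset.sum_comm]
      refine Finset.sum_congr rfl fun p _ => ?_
      rw [Finset.sum_comm]
      refine Finset.sum_congr rfl fun p' _ => ?_
      rw [Finset.mul_sum]
    have e2 : ∑ a ∈ I, rh a * ‖Z a‖ ^ 2 = ‖((∑ a ∈ I, rh a * ‖Z a‖ ^ 2 : ℝ) : ℂ)‖ := by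
      rw [Complex.norm_real, Real.norm_of_nonneg]
      exact Finset.sum_nonneg fun a _ => mul_nonneg (hrh a) (sq_nonneg _)
    rw [e2, e1]
    refine le_trans (norm_sum_le _ _) (Finset.sum_le_sum fun p _ => ?_)
    refine le_trans (norm_sum_le _ _) (Finset.sum_le_sum fun p' _ => ?_)
    rw [norm_mul, norm_mul, RCLike.norm_conj]
    exact mul_le_mul_of_nonneg_right
      (mul_le_mul (hg p) (hg p') (norm_nonneg _) (hnu p)) (norm_nonneg _)
  have h4 : (∑ p ∈ Q, ∑ p' ∈ Q, nu p * nu p' * T p p') ^ 2 ≤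
      (∑ p ∈ Q, nu p) ^ 2 * ∑ p ∈ Q, ∑ p' ∈ Q, nu p * nu p' * T p p' ^ 2 := by
    have := str_cs (Q ×ˢ Q) (fun q => nu q.1 * nu q.2) (fun q => T q.1 q.2)
      (fun q _ => mul_nonneg (hnu _) (hnu _))
    rw [Finset.sum_product, Finset.sum_product, Finset.sum_product] at this
    rw [sq (∑ p ∈ Q, nu p), Finset.sum_mul_sum]
    exact this
  -- conclusion
  set R := ∑ a ∈ I, rh a with hR
  have hR0 : 0 ≤ R := Finset.sum_nonneg fun a _ => hrh a
  set s1 := ∑ a ∈ I, rh a * ‖Z a‖ with hs1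
  have hs10 : 0 ≤ s1 := Finset.sum_nonneg fun a _ => mul_nonneg (hrh a) (norm_nonneg _)
  set s2 := ∑ a ∈ I, rh a * ‖Z a‖ ^ 2 with hs2
  have hs20 : 0 ≤ s2 := Finset.sum_nonneg fun a _ => mul_nonneg (hrh a) (sq_nonneg _)
  calc ‖∑ a ∈ I, β a * Z a‖ ^ 4 ≤ (V * s1) ^ 4 := pow_le_pow_left₀ (norm_nonneg _) h1 4
    _ = V ^ 4 * (s1 ^ 2) ^ 2 := by ring
    _ ≤ V ^ 4 * (R * s2) ^ 2 := by
        apply mul_le_mul_of_nonneg_left _ (by positivity)
        exact pow_le_pow_left₀ (sq_nonneg _) h2 2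
    _ = V ^ 4 * R ^ 2 * s2 ^ 2 := by ring
    _ ≤ V ^ 4 * R ^ 2 * (∑ p ∈ Q, ∑ p' ∈ Q, nu p * nu p' * T p p') ^ 2 := by
        apply mul_le_mul_of_nonneg_left _ (by positivity)
        exact pow_le_pow_left₀ hs20 h3 2
    _ ≤ V ^ 4 * R ^ 2 * ((∑ p ∈ Q, nu p) ^ 2 *
          ∑ p ∈ Q, ∑ p' ∈ Q, nu p * nu p' * T p p' ^ 2) := by
        apply mul_le_mul_of_nonneg_left h4 (by positivity)
    _ = _ := by ring

open Classical in
/-- van der Corput without loss: the phase disappears -/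
theorem str_vdc (u : ℤ) (L : ℕ) (J : Finset ℤ) (hJ : J ⊆ Finset.Ico u (u + L)) (q : ℤ → ℝ)
    (ξ : ℝ) :
    ‖∑ a ∈ J, ((q a : ℝ) : ℂ) * e (ξ * a)‖ ^ 2 ≤
      ∑ k ∈ Finset.Ioo (-(L : ℤ)) L, |∑ a ∈ J.filter (fun a => a + k ∈ J), q a * q (a + k)| := by
  have e1 : ((‖∑ a ∈ J, ((q a : ℝ) : ℂ) * e (ξ * a)‖ ^ 2 : ℝ) : ℂ) =
      ∑ k ∈ Finset.Ioo (-(L : ℤ)) L, e (-(ξ * k)) *
        ((∑ a ∈ J.filter (fun a => a + k ∈ J), q a * q (a + k) : ℝ) : ℂ) := by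
    rw [str_sq, ← Finset.sum_product']
    rw [← Finset.sum_fiberwise_of_maps_to (s := J ×ˢ J) (t := Finset.Ioo (-(L : ℤ)) L)
      (g := fun p => p.2 - p.1)]
    · refine Finset.sum_congr rfl fun k _ => ?_
      push_cast
      rw [Finset.mul_sum]
      refine Finset.sum_nbij' (fun p => p.1) (fun a => (a, a + k)) ?_ ?_ ?_ ?_ ?_
      · rintro ⟨a, b⟩ h
        simp only [Finset.mem_filter, Finset.mem_product] at h ⊢
        obtain ⟨⟨h1, h2⟩, h3⟩ := h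
        refine ⟨h1, ?_⟩
        have : a + k = b := by omega
        rw [this]; exact h2
      · intro a h
        simp only [Finset.mem_filter, Finset.mem_product] at h ⊢
        exact ⟨h, by ring⟩
      · rintro ⟨a, b⟩ h
        simp only [Finset.mem_filter, Finset.mem_product] at h
        obtain ⟨⟨h1, h2⟩, h3⟩ := h
        simp only [Prod.mk.injEq, true_and]
        omega
      · intro a h
        rfl
      · rintro ⟨a, b⟩ h
        simp only [Finset.mem_filter, Finset.mem_product] at h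
        obtain ⟨⟨h1, h2⟩, h3⟩ := h
        have hb : b = a + k := by omega
        simp only
        rw [hb, map_mul, Complex.conj_ofReal, ← e_neg]
        have : e (ξ * a) * e (-(ξ * ((a + k : ℤ) : ℝ))) = e (-(ξ * k)) := by
          rw [← e_add]; congr 1; push_cast; ring
        rw [← this]
        ring
    · rintro ⟨a, b⟩ h
      simp only [Finset.mem_product] at h
      have h1 := hJ h.1
      have h2 := hJ h.2
      simp only [Finset.mem_Ico, Finset.mem_Ioo] at h1 h2 ⊢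
      omega
  have e2 : ‖∑ a ∈ J, ((q a : ℝ) : ℂ) * e (ξ * a)‖ ^ 2 =
      ‖((‖∑ a ∈ J, ((q a : ℝ) : ℂ) * e (ξ * a)‖ ^ 2 : ℝ) : ℂ)‖ := by
    rw [Complex.norm_real, Real.norm_of_nonneg (sq_nonneg _)]
  rw [e2, e1]
  refine le_trans (norm_sum_le _ _) (Finset.sum_le_sum fun k _ => ?_)
  rw [norm_mul, norm_e, one_mul, Complex.norm_real, Real.norm_eq_abs]

/-- order connected finite sets of integers are intervals -/
theorem str_conn (J : Finset ℤ) (h : ∀ x ∈ J, ∀ z ∈ J, ∀ y, x ≤ y → y ≤ z → y ∈ J) :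
    ∃ a b : ℤ, a ≤ b ∧ J = Finset.Ico a b := by
  rcases J.eq_empty_or_nonempty with h0 | h0
  · exact ⟨0, 0, le_rfl, by simp [h0]⟩
  · refine ⟨J.min' h0, J.max' h0 + 1, ?_, ?_⟩
    · have := J.min'_le _ (J.max'_mem h0); omega
    · ext y
      rw [Finset.mem_Ico]
      constructor
      · intro hy
        have h1 := J.min'_le _ hy
        have h2 := J.le_max' _ hy
        omega
      · rintro ⟨h1, h2⟩
        exact h _ (J.min'_mem h0) _ (J.max'_mem h0) y h1 (by omega)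

end Pool.Agent.Lib.H18GB
end

-- from Lib.H18GB.STRb
section

/-!
# Chunk STR, part b: parametrisation and changes of variables
-/

namespace Pool.Agent.Lib.H18GB

open Finset Pool.Agent.Lib.Sieve

/-- the parametrisation `n_b(a)` of the `n` with `b ∣ r + W n` -/
def nbf (W : ℕ) (r a0 : ℤ) (b : ℕ) (a : ℤ) : ℤ := (b * a0 - r) / W + b * a

theorem nbf_spec {W : ℕ} {r a0 : ℤ} {b : ℕ} (hd : (W : ℤ) ∣ b * a0 - r) (a : ℤ) :
    r + W * nbf W r a0 b a = b * (a0 + W * a) := by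
  unfold nbf
  have := Int.mul_ediv_cancel' hd
  linear_combination this

theorem nbf_add (W : ℕ) (r a0 : ℤ) (b : ℕ) (a t : ℤ) :
    nbf W r a0 b (a + t) = nbf W r a0 b a + b * t := by
  unfold nbf; ring

theorem nbf_eq (W : ℕ) (r a0 : ℤ) (b : ℕ) (a : ℤ) :
    nbf W r a0 b a = nbf W r a0 b 0 + b * a := by
  unfold nbf; ring

theorem nbf_mono (W : ℕ) (r a0 : ℤ) (b : ℕ) {x y : ℤ} (h : x ≤ y) :
    nbf W r a0 b x ≤ nbf W r a0 b y := by
  have : y = x + (y - x) := by ring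
  rw [this, nbf_add]
  have h1 : (0 : ℤ) ≤ b * (y - x) := mul_nonneg (Int.natCast_nonneg _) (by omega)
  omega

/-- the basic hypotheses on `a0` and one `b` -/
structure Bok (W : ℕ) (r a0 : ℤ) (B : ℕ) (b : ℕ) : Prop where
  d : (W : ℤ) ∣ b * a0 - r
  lo : B ≤ b
  hi : b ≤ 2 * B
  cop : IsCoprime (b : ℤ) (W : ℤ)

theorem nbf_range {W : ℕ} {r a0 : ℤ} {B b M : ℕ} (hW : 0 < W) (hB : 0 < B)
    (hr : |r| < 2 * W) (ha0 : 0 ≤ a0 ∧ a0 < W) (hb : Bok W r a0 B b) {a : ℤ}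
    (h : 0 ≤ nbf W r a0 b a ∧ nbf W r a0 b a < M) :
    a ∈ Finset.Ico (-2 : ℤ) ((M / B : ℕ) + 1) := by
  have hs := nbf_spec hb.d a
  have hW' : (0 : ℤ) < W := by exact_mod_cast hW
  have hB' : (1 : ℤ) ≤ B := by exact_mod_cast hB
  have hbB : (B : ℤ) ≤ b := by exact_mod_cast hb.lo
  obtain ⟨hr1, hr2⟩ := abs_lt.mp hr
  obtain ⟨h0, h1⟩ := h
  set n := nbf W r a0 b a with hn
  rw [Finset.mem_Ico]
  constructor
  · by_contra hc
    have ha : a ≤ -3 := by omega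
    have h2 : a0 + W * a ≤ -(2 * W) := by nlinarith
    have h3 : (b : ℤ) * (a0 + W * a) ≤ -(2 * W) := by nlinarith
    have h4 : (0 : ℤ) ≤ W * n := mul_nonneg hW'.le h0
    linarith
  · rcases le_or_gt a 0 with ha | ha
    · have : (0 : ℤ) ≤ (M / B : ℕ) := Int.natCast_nonneg _
      omega
    · have h5 : (B : ℤ) * (W * a) ≤ b * (a0 + W * a) := by
        have : (0 : ℤ) ≤ W * a := by positivity
        nlinarith [ha0.1]
      have h6 : (W : ℤ) * n ≤ W * (M - 1) := by nlinarith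
      have h7 : (B : ℤ) * (W * a) < W * (M + 1) := by nlinarith
      have h8 : (B : ℤ) * a < M + 1 := by
        have : (W : ℤ) * (B * a) < W * (M + 1) := by linarith [mul_left_comm (B : ℤ) W a]
        exact lt_of_mul_lt_mul_left this hW'.le
      have h9 : a * B ≤ M := by linarith [mul_comm (B : ℤ) a]
      have h10 : a ≤ (M : ℤ) / B := (Int.le_ediv_iff_mul_le (by omega)).mpr h9
      push_cast
      omega

open Classical in
/-- the factor `U` -/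
noncomputable def Uf (W : ℕ) (r a0 : ℤ) (M : ℕ) (H : Finset ℤ) (c : ℤ → ℂ) (θ : ℤ → ℝ)
    (p : ℕ × ℤ) (a : ℤ) : ℂ :=
  if (0 ≤ nbf W r a0 p.1 a ∧ nbf W r a0 p.1 a < M) ∧ p.2 - nbf W r a0 p.1 a ∈ H then
    c (p.2 - nbf W r a0 p.1 a) * e (θ (p.2 - nbf W r a0 p.1 a) * nbf W r a0 p.1 a) else 0

open Classical in
theorem str_X {W : ℕ} {r a0 : ℤ} {B M : ℕ} {P : Finset ℕ} {H : Finset ℤ} (hW : 0 < W)
    (hB : 0 < B) (hr : |r| < 2 * W) (ha0 : 0 ≤ a0 ∧ a0 < W) (hP : ∀ b ∈ P, Bok W r a0 B b)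
    (β g c : ℤ → ℂ) (θ : ℤ → ℝ) (hg : SuppIn 0 M g) :
    ∑ h ∈ H, c h * ∑ n ∈ Finset.Ico (0 : ℤ) M, fII W r P β n * g (n + h) * e (θ h * n) =
      ∑ a ∈ Finset.Ico (-2 : ℤ) ((M / B : ℕ) + 1), β (a0 + W * a) *
        ∑ p ∈ P ×ˢ Finset.Ico (0 : ℤ) M, g p.2 * Uf W r a0 M H c θ p a := by
  have hW' : (0 : ℤ) < W := by exact_mod_cast hW
  have hL : ∑ h ∈ H, c h * ∑ n ∈ Finset.Ico (0 : ℤ) M, fII W r P β n * g (n + h) * e (θ h * n) =
      ∑ b ∈ P, ∑ n ∈ (Finset.Ico (0 : ℤ) M).filter (fun n => (b : ℤ) ∣ r + W * n),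
        β ((r + W * n) / b) * ∑ h ∈ H, c h * g (n + h) * e (θ h * n) := by
    have h1 : ∀ b ∈ P, ∑ n ∈ (Finset.Ico (0 : ℤ) M).filter (fun n => (b : ℤ) ∣ r + W * n),
        β ((r + W * n) / b) * ∑ h ∈ H, c h * g (n + h) * e (θ h * n) =
        ∑ n ∈ Finset.Ico (0 : ℤ) M, (if (b : ℤ) ∣ r + W * n then β ((r + W * n) / b) else 0) *
          ∑ h ∈ H, c h * g (n + h) * e (θ h * n) := by
      intro b _
      rw [Finset.sum_filter]
      refine Finset.sum_congr rfl fun n _ => ?_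
      split_ifs <;> simp
    rw [Finset.sum_congr rfl h1, Finset.sum_comm]
    have h2 : ∀ h ∈ H, c h * ∑ n ∈ Finset.Ico (0 : ℤ) M, fII W r P β n * g (n + h) * e (θ h * n) =
        ∑ n ∈ Finset.Ico (0 : ℤ) M, fII W r P β n * (c h * g (n + h) * e (θ h * n)) := by
      intro h _
      rw [Finset.mul_sum]
      refine Finset.sum_congr rfl fun n _ => ?_
      ring
    rw [Finset.sum_congr rfl h2, Finset.sum_comm]
    refine Finset.sum_congr rfl fun n _ => ?_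
    rw [← Finset.mul_sum, ← Finset.sum_mul]
    congr 1
    unfold fII
    rw [Finset.sum_filter]
  rw [hL]
  have hR : ∀ a ∈ Finset.Ico (-2 : ℤ) ((M / B : ℕ) + 1), β (a0 + W * a) *
        ∑ p ∈ P ×ˢ Finset.Ico (0 : ℤ) M, g p.2 * Uf W r a0 M H c θ p a =
      ∑ b ∈ P, β (a0 + W * a) * ∑ m ∈ Finset.Ico (0 : ℤ) M, g m * Uf W r a0 M H c θ (b, m) a := by
    intro a _
    rw [Finset.sum_product, Finset.mul_sum]
  rw [Finset.sum_congr rfl hR, Finset.sum_comm]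
  refine Finset.sum_congr rfl fun b hb => ?_
  have hbk := hP b hb
  have hb0 : (0 : ℤ) < b := by
    have := hbk.lo
    have : 0 < b := by omega
    exact_mod_cast this
  -- the inner sum over `m`
  have hm : ∀ a, (0 ≤ nbf W r a0 b a ∧ nbf W r a0 b a < M) →
      ∑ m ∈ Finset.Ico (0 : ℤ) M, g m * Uf W r a0 M H c θ (b, m) a =
      ∑ h ∈ H, c h * g (nbf W r a0 b a + h) * e (θ h * nbf W r a0 b a) := by
    intro a ha
    set n := nbf W r a0 b a with hn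
    have h1 : ∑ h ∈ H, c h * g (n + h) * e (θ h * n) =
        ∑ h ∈ H.filter (fun h => 0 ≤ n + h ∧ n + h < M), c h * g (n + h) * e (θ h * n) := by
      rw [Finset.sum_filter]
      refine Finset.sum_congr rfl fun h _ => ?_
      split_ifs with hh
      · rfl
      · rw [hg (n + h) (by rw [Finset.mem_Ico]; exact hh)]; simp
    have h2 : ∑ m ∈ Finset.Ico (0 : ℤ) M, g m * Uf W r a0 M H c θ (b, m) a =
        ∑ m ∈ (Finset.Ico (0 : ℤ) M).filter (fun m => m - n ∈ H),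
          g m * (c (m - n) * e (θ (m - n) * n)) := by
      rw [Finset.sum_filter]
      refine Finset.sum_congr rfl fun m _ => ?_
      unfold Uf
      simp only
      rw [← hn]
      by_cases hh : m - n ∈ H
      · rw [if_pos ⟨ha, hh⟩, if_pos hh]
      · rw [if_neg (fun h => hh h.2), if_neg hh, mul_zero]
    rw [h1, h2]
    refine Finset.sum_nbij' (fun m => m - n) (fun h => n + h) ?_ ?_ ?_ ?_ ?_
    · intro m h
      simp only [Finset.mem_filter, Finset.mem_Ico] at h ⊢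
      refine ⟨h.2, ?_⟩
      constructor <;> linarith [h.1.1, h.1.2]
    · intro h hh
      simp only [Finset.mem_filter, Finset.mem_Ico] at hh ⊢
      refine ⟨hh.2, ?_⟩
      have : n + h - n = h := by ring
      rw [this]; exact hh.1
    · intro m _; simp
    · intro h _; simp
    · intro m _
      have : n + (m - n) = m := by ring
      rw [this]; ring
  have h3 : ∑ a ∈ Finset.Ico (-2 : ℤ) ((M / B : ℕ) + 1),
        β (a0 + W * a) * ∑ m ∈ Finset.Ico (0 : ℤ) M, g m * Uf W r a0 M H c θ (b, m) a =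
      ∑ a ∈ (Finset.Ico (-2 : ℤ) ((M / B : ℕ) + 1)).filter
        (fun a => 0 ≤ nbf W r a0 b a ∧ nbf W r a0 b a < M),
        β (a0 + W * a) * ∑ h ∈ H, c h * g (nbf W r a0 b a + h) * e (θ h * nbf W r a0 b a) := by
    rw [Finset.sum_filter]
    refine Finset.sum_congr rfl fun a _ => ?_
    split_ifs with ha
    · rw [hm a ha]
    · have : ∑ m ∈ Finset.Ico (0 : ℤ) M, g m * Uf W r a0 M H c θ (b, m) a = 0 := by
        refine Finset.sum_eq_zero fun m _ => ?_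
        unfold Uf
        rw [if_neg (fun h => ha h.1), mul_zero]
      rw [this, mul_zero]
  rw [h3]
  symm
  refine Finset.sum_nbij' (fun a => nbf W r a0 b a) (fun n => ((r + W * n) / b - a0) / W)
    ?_ ?_ ?_ ?_ ?_
  · intro a ha
    simp only [Finset.mem_filter, Finset.mem_Ico] at ha ⊢
    exact ⟨ha.2, ⟨a0 + W * a, nbf_spec hbk.d a⟩⟩
  · intro n hn
    simp only [Finset.mem_filter] at hn ⊢
    obtain ⟨hn1, x, hx⟩ := hn
    have hx' : (r + W * n) / b = x := by rw [hx]; exact Int.mul_ediv_cancel_left x hb0.ne'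
    rw [hx']
    have hd : (W : ℤ) ∣ x - a0 := by
      have h1 : (W : ℤ) ∣ b * (x - a0) := by
        have : (b : ℤ) * (x - a0) = W * n - (b * a0 - r) := by rw [mul_sub, ← hx]; ring
        rw [this]
        exact dvd_sub (dvd_mul_right _ _) hbk.d
      exact IsCoprime.dvd_of_dvd_mul_left hbk.cop.symm h1
    obtain ⟨y, hy⟩ := hd
    have hy' : (x - a0) / W = y := by rw [hy]; exact Int.mul_ediv_cancel_left y hW'.ne'
    rw [hy']
    have hnb : nbf W r a0 b y = n := by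
      have h1 := nbf_spec hbk.d y
      have h2 : a0 + W * y = x := by linarith
      rw [h2, ← hx] at h1
      have h3 : (W : ℤ) * nbf W r a0 b y = W * n := by linarith
      exact mul_left_cancel₀ hW'.ne' h3
    have hn2 : 0 ≤ nbf W r a0 b y ∧ nbf W r a0 b y < M := by
      rw [hnb]; exact Finset.mem_Ico.mp hn1
    exact ⟨nbf_range hW hB hr ha0 hbk hn2, hn2⟩
  · intro a ha
    rw [nbf_spec hbk.d a, Int.mul_ediv_cancel_left _ hb0.ne']
    have : a0 + W * a - a0 = W * a := by ring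
    rw [this, Int.mul_ediv_cancel_left _ hW'.ne']
  · intro n hn
    simp only [Finset.mem_filter] at hn
    obtain ⟨hn1, x, hx⟩ := hn
    have hx' : (r + W * n) / b = x := by rw [hx]; exact Int.mul_ediv_cancel_left x hb0.ne'
    rw [hx']
    have hd : (W : ℤ) ∣ x - a0 := by
      have h1 : (W : ℤ) ∣ b * (x - a0) := by
        have : (b : ℤ) * (x - a0) = W * n - (b * a0 - r) := by rw [mul_sub, ← hx]; ring
        rw [this]
        exact dvd_sub (dvd_mul_right _ _) hbk.d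
      exact IsCoprime.dvd_of_dvd_mul_left hbk.cop.symm h1
    obtain ⟨y, hy⟩ := hd
    have hy' : (x - a0) / W = y := by rw [hy]; exact Int.mul_ediv_cancel_left y hW'.ne'
    rw [hy']
    have h1 := nbf_spec hbk.d y
    have h2 : a0 + W * y = x := by linarith
    rw [h2, ← hx] at h1
    have h3 : (W : ℤ) * nbf W r a0 b y = W * n := by linarith
    exact mul_left_cancel₀ hW'.ne' h3
  · intro a ha
    rw [nbf_spec hbk.d a, Int.mul_ediv_cancel_left _ hb0.ne']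

end Pool.Agent.Lib.H18GB
end

-- from Lib.H18GB.STRc
section

/-!
# Chunk STR, part c: expansion of the square
-/

namespace Pool.Agent.Lib.H18GB

open Finset Pool.Agent.Lib.Sieve

/-- type of the tuples `((b, c), (t, (h1, h2)))` -/
abbrev Tup := (ℕ × ℕ) × (ℤ × (ℤ × ℤ))

open Classical in
/-- the tuples `((b, c), (t, (h1, h2)))` -/
noncomputable def Tf (M B : ℕ) (P : Finset ℕ) (H : Finset ℤ) : Finset Tup :=
  ((P ×ˢ P) ×ˢ (Finset.Icc (-((M / B : ℕ) : ℤ)) ((M / B : ℕ) : ℤ) ×ˢ (H ×ˢ H))).filter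
    fun q => q.2.2.1 - q.2.1 * q.1.1 ∈ H ∧ q.2.2.2 - q.2.1 * q.1.2 ∈ H

/-- the interval `J` -/
noncomputable def Jf (W : ℕ) (r a0 : ℤ) (M B : ℕ) (q : Tup) : Finset ℤ :=
  (Finset.Ico (-2 : ℤ) ((M / B : ℕ) + 1)).filter fun a =>
    ((0 ≤ nbf W r a0 q.1.1 a ∧ nbf W r a0 q.1.1 a < M) ∧
    (0 ≤ nbf W r a0 q.1.1 (a + q.2.1) ∧ nbf W r a0 q.1.1 (a + q.2.1) < M)) ∧
    ((0 ≤ nbf W r a0 q.1.2 a ∧ nbf W r a0 q.1.2 a < M) ∧
    (0 ≤ nbf W r a0 q.1.2 (a + q.2.1) ∧ nbf W r a0 q.1.2 (a + q.2.1) < M)) ∧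
    (0 ≤ q.2.2.1 + nbf W r a0 q.1.1 a ∧ q.2.2.1 + nbf W r a0 q.1.1 a < M) ∧
    (0 ≤ q.2.2.2 + nbf W r a0 q.1.2 a ∧ q.2.2.2 + nbf W r a0 q.1.2 a < M)

theorem Jf_sub (W : ℕ) (r a0 : ℤ) (M B : ℕ) (q : Tup) :
    Jf W r a0 M B q ⊆ Finset.Ico (-2 : ℤ) ((M / B : ℕ) + 1) := Finset.filter_subset _ _

theorem Jf_conn (W : ℕ) (r a0 : ℤ) (M B : ℕ) (q : Tup) :
    ∀ x ∈ Jf W r a0 M B q, ∀ z ∈ Jf W r a0 M B q, ∀ y, x ≤ y → y ≤ z → y ∈ Jf W r a0 M B q := by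
  intro x hx z hz y hxy hyz
  simp only [Jf, Finset.mem_filter, Finset.mem_Ico] at hx hz ⊢
  obtain ⟨hx0, ⟨hx1, hx2⟩, ⟨hx3, hx4⟩, hx5, hx6⟩ := hx
  obtain ⟨hz0, ⟨hz1, hz2⟩, ⟨hz3, hz4⟩, hz5, hz6⟩ := hz
  have m1 := nbf_mono W r a0 q.1.1 hxy
  have m2 := nbf_mono W r a0 q.1.1 hyz
  have m3 := nbf_mono W r a0 q.1.2 hxy
  have m4 := nbf_mono W r a0 q.1.2 hyz
  have m5 := nbf_mono W r a0 q.1.1 (add_le_add_left hxy q.2.1)
  have m6 := nbf_mono W r a0 q.1.1 (add_le_add_left hyz q.2.1)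
  have m7 := nbf_mono W r a0 q.1.2 (add_le_add_left hxy q.2.1)
  have m8 := nbf_mono W r a0 q.1.2 (add_le_add_left hyz q.2.1)
  refine ⟨⟨by omega, by omega⟩, ⟨⟨by omega, by omega⟩, ⟨by omega, by omega⟩⟩,
    ⟨⟨by omega, by omega⟩, ⟨by omega, by omega⟩⟩, ⟨by omega, by omega⟩, ⟨by omega, by omega⟩⟩

noncomputable def xif (θ : ℤ → ℝ) (q : Tup) : ℝ :=
  q.1.1 * (θ q.2.2.1 - θ (q.2.2.1 - q.2.1 * q.1.1)) -
    q.1.2 * (θ q.2.2.2 - θ (q.2.2.2 - q.2.1 * q.1.2))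

noncomputable def omf (S : Finset ℕ) (W : ℕ) (a0 : ℤ) (q : Tup) (a : ℤ) : ℝ :=
  rho S (a0 + W * a) * rho S (a0 + W * (a + q.2.1)) *
    (1 + rho S (q.1.1 * (a0 + W * a) + W * q.2.2.1)) *
    (1 + rho S (q.1.2 * (a0 + W * a) + W * q.2.2.2))

open Classical in
/-- the change of variables -/
theorem str_cv {W : ℕ} {r a0 : ℤ} {B M : ℕ} {P : Finset ℕ} {H : Finset ℤ} (hW : 0 < W)
    (hB : 0 < B) (hr : |r| < 2 * W) (ha0 : 0 ≤ a0 ∧ a0 < W) (hP : ∀ b ∈ P, Bok W r a0 B b)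
    (F : ℕ × ℤ → ℕ × ℤ → ℤ → ℤ → ℂ)
    (hF : ∀ p p' a1 a2, F p p' a1 a2 ≠ 0 →
      ((0 ≤ nbf W r a0 p.1 a1 ∧ nbf W r a0 p.1 a1 < M) ∧ p.2 - nbf W r a0 p.1 a1 ∈ H) ∧
      ((0 ≤ nbf W r a0 p'.1 a1 ∧ nbf W r a0 p'.1 a1 < M) ∧ p'.2 - nbf W r a0 p'.1 a1 ∈ H) ∧
      ((0 ≤ nbf W r a0 p.1 a2 ∧ nbf W r a0 p.1 a2 < M) ∧ p.2 - nbf W r a0 p.1 a2 ∈ H) ∧
      ((0 ≤ nbf W r a0 p'.1 a2 ∧ nbf W r a0 p'.1 a2 < M) ∧ p'.2 - nbf W r a0 p'.1 a2 ∈ H)) :
    ∑ p ∈ P ×ˢ Finset.Ico (0 : ℤ) M, ∑ p' ∈ P ×ˢ Finset.Ico (0 : ℤ) M,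
      ∑ a1 ∈ Finset.Ico (-2 : ℤ) ((M / B : ℕ) + 1), ∑ a2 ∈ Finset.Ico (-2 : ℤ) ((M / B : ℕ) + 1),
        F p p' a1 a2 =
    ∑ q ∈ Tf M B P H, ∑ a ∈ Jf W r a0 M B q,
      F (q.1.1, q.2.2.1 + nbf W r a0 q.1.1 a) (q.1.2, q.2.2.2 + nbf W r a0 q.1.2 a) a
        (a + q.2.1) := by
  have eL : ∑ p ∈ P ×ˢ Finset.Ico (0 : ℤ) M, ∑ p' ∈ P ×ˢ Finset.Ico (0 : ℤ) M,
      ∑ a1 ∈ Finset.Ico (-2 : ℤ) ((M / B : ℕ) + 1), ∑ a2 ∈ Finset.Ico (-2 : ℤ) ((M / B : ℕ) + 1),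
        F p p' a1 a2 =
      ∑ x ∈ ((P ×ˢ Finset.Ico (0 : ℤ) M) ×ˢ (P ×ˢ Finset.Ico (0 : ℤ) M)) ×ˢ
        ((Finset.Ico (-2 : ℤ) ((M / B : ℕ) + 1)) ×ˢ (Finset.Ico (-2 : ℤ) ((M / B : ℕ) + 1))),
        F x.1.1 x.1.2 x.2.1 x.2.2 := by
    rw [Finset.sum_product ((P ×ˢ Finset.Ico (0 : ℤ) M) ×ˢ (P ×ˢ Finset.Ico (0 : ℤ) M)),
      Finset.sum_product (P ×ˢ Finset.Ico (0 : ℤ) M)]
    refine Finset.sum_congr rfl fun p _ => Finset.sum_congr rfl fun p' _ => ?_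
    rw [Finset.sum_product]
  rw [eL, Finset.sum_sigma']
  rw [← Finset.sum_filter_of_ne (p := fun x : (((ℕ × ℤ) × (ℕ × ℤ)) × (ℤ × ℤ)) =>
    ((0 ≤ nbf W r a0 x.1.1.1 x.2.1 ∧ nbf W r a0 x.1.1.1 x.2.1 < M) ∧
        x.1.1.2 - nbf W r a0 x.1.1.1 x.2.1 ∈ H) ∧
      ((0 ≤ nbf W r a0 x.1.2.1 x.2.1 ∧ nbf W r a0 x.1.2.1 x.2.1 < M) ∧
        x.1.2.2 - nbf W r a0 x.1.2.1 x.2.1 ∈ H) ∧
      ((0 ≤ nbf W r a0 x.1.1.1 x.2.2 ∧ nbf W r a0 x.1.1.1 x.2.2 < M) ∧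
        x.1.1.2 - nbf W r a0 x.1.1.1 x.2.2 ∈ H) ∧
      ((0 ≤ nbf W r a0 x.1.2.1 x.2.2 ∧ nbf W r a0 x.1.2.1 x.2.2 < M) ∧
        x.1.2.2 - nbf W r a0 x.1.2.1 x.2.2 ∈ H)) (fun x _ hx => hF _ _ _ _ hx)]
  refine Finset.sum_nbij'
    (fun x => ⟨((x.1.1.1, x.1.2.1), (x.2.2 - x.2.1,
      (x.1.1.2 - nbf W r a0 x.1.1.1 x.2.1, x.1.2.2 - nbf W r a0 x.1.2.1 x.2.1))), x.2.1⟩)
    (fun y => (((y.1.1.1, y.1.2.2.1 + nbf W r a0 y.1.1.1 y.2),
      (y.1.1.2, y.1.2.2.2 + nbf W r a0 y.1.1.2 y.2)), (y.2, y.2 + y.1.2.1))) ?_ ?_ ?_ ?_ ?_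
  · rintro ⟨⟨⟨b, m⟩, ⟨c, m'⟩⟩, ⟨a1, a2⟩⟩ hx
    simp only [Finset.mem_filter, Finset.mem_product, Finset.mem_sigma, Tf, Jf] at hx ⊢
    obtain ⟨⟨⟨⟨hb, hm⟩, ⟨hc, hm'⟩⟩, ⟨hI1, hI2⟩⟩, ⟨h1, h1H⟩, ⟨h2, h2H⟩, ⟨h3, h3H⟩, ⟨h4, h4H⟩⟩ := hx
    have ea : a1 + (a2 - a1) = a2 := by ring
    rw [Finset.mem_Ico] at hm hm'
    have hab := nbf_add W r a0 b a1 (a2 - a1)
    have hac := nbf_add W r a0 c a1 (a2 - a1)
    rw [ea] at hab hac
    have ht : a2 - a1 ∈ Finset.Icc (-((M / B : ℕ) : ℤ)) ((M / B : ℕ) : ℤ) := by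
      have hbB : (B : ℤ) ≤ b := by exact_mod_cast (hP b hb).lo
      have hB1 : (1 : ℤ) ≤ B := by exact_mod_cast hB
      rw [Finset.mem_Icc]
      push_cast
      constructor
      · have h5 : (a1 - a2) * (B : ℤ) ≤ M := by
          rcases le_or_gt (a1 - a2) 0 with h | h
          · have : (a1 - a2) * (B : ℤ) ≤ 0 := mul_nonpos_of_nonpos_of_nonneg h (by omega)
            have : (0 : ℤ) ≤ M := Int.natCast_nonneg _
            omega
          · have h6 : (a1 - a2) * (B : ℤ) ≤ (a1 - a2) * b := mul_le_mul_of_nonneg_left hbB h.le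
            have h7 : (a1 - a2) * (b : ℤ) = -(b * (a2 - a1)) := by ring
            omega
        have := (Int.le_ediv_iff_mul_le (by omega)).mpr h5
        omega
      · have h5 : (a2 - a1) * (B : ℤ) ≤ M := by
          rcases le_or_gt (a2 - a1) 0 with h | h
          · have : (a2 - a1) * (B : ℤ) ≤ 0 := mul_nonpos_of_nonpos_of_nonneg h (by omega)
            have : (0 : ℤ) ≤ M := Int.natCast_nonneg _
            omega
          · have h6 : (a2 - a1) * (B : ℤ) ≤ (a2 - a1) * b := mul_le_mul_of_nonneg_left hbB h.le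
            have h7 : (a2 - a1) * (b : ℤ) = (b * (a2 - a1)) := by ring
            omega
        exact (Int.le_ediv_iff_mul_le (by omega)).mpr h5
    refine ⟨⟨⟨⟨hb, hc⟩, ht, h1H, h2H⟩, ?_, ?_⟩, hI1, ⟨h1, ?_⟩, ⟨h2, ?_⟩, ?_, ?_⟩
    · have : m - nbf W r a0 b a1 - (a2 - a1) * b = m - nbf W r a0 b a2 := by rw [hab]; ring
      rw [this]; exact h3H
    · have : m' - nbf W r a0 c a1 - (a2 - a1) * c = m' - nbf W r a0 c a2 := by rw [hac]; ring
      rw [this]; exact h4H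
    · rw [ea]; exact h3
    · rw [ea]; exact h4
    · constructor <;> omega
    · constructor <;> omega
  · rintro ⟨⟨⟨b, c⟩, ⟨t, ⟨h1, h2⟩⟩⟩, a⟩ hy
    simp only [Finset.mem_filter, Finset.mem_product, Finset.mem_sigma, Tf, Jf] at hy ⊢
    obtain ⟨⟨⟨⟨hb, hc⟩, ht, h1H, h2H⟩, h3H, h4H⟩, hI1, ⟨g1, g2⟩, ⟨g3, g4⟩, g5, g6⟩ := hy
    have hab := nbf_add W r a0 b a t
    have hac := nbf_add W r a0 c a t
    have e1 : h1 + nbf W r a0 b a - nbf W r a0 b a = h1 := by ring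
    have e2 : h2 + nbf W r a0 c a - nbf W r a0 c a = h2 := by ring
    have e3 : h1 + nbf W r a0 b a - nbf W r a0 b (a + t) = h1 - t * b := by rw [hab]; ring
    have e4 : h2 + nbf W r a0 c a - nbf W r a0 c (a + t) = h2 - t * c := by rw [hac]; ring
    rw [e1, e2, e3, e4]
    exact ⟨⟨⟨⟨hb, Finset.mem_Ico.mpr g5⟩, ⟨hc, Finset.mem_Ico.mpr g6⟩⟩,
      ⟨hI1, nbf_range hW hB hr ha0 (hP b hb) g2⟩⟩, ⟨g1, h1H⟩, ⟨g3, h2H⟩, ⟨g2, h3H⟩, ⟨g4, h4H⟩⟩
  · rintro ⟨⟨⟨b, m⟩, ⟨c, m'⟩⟩, ⟨a1, a2⟩⟩ hx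
    simp
  · rintro ⟨⟨⟨b, c⟩, ⟨t, ⟨h1, h2⟩⟩⟩, a⟩ hy
    simp
  · rintro ⟨⟨⟨b, m⟩, ⟨c, m'⟩⟩, ⟨a1, a2⟩⟩ hx
    simp

open Classical in
theorem str_Y {S : Finset ℕ} {W : ℕ} {r a0 : ℤ} {B M : ℕ} {P : Finset ℕ}
    {H : Finset ℤ} (hW : 0 < W) (hB : 0 < B) (hr : |r| < 2 * W) (ha0 : 0 ≤ a0 ∧ a0 < W)
    (hP : ∀ b ∈ P, Bok W r a0 B b) (c : ℤ → ℂ) (hc : ∀ h, ‖c h‖ ≤ 1) (θ : ℤ → ℝ) (κ : ℝ) :
    ∑ p ∈ P ×ˢ Finset.Ico (0 : ℤ) M, ∑ p' ∈ P ×ˢ Finset.Ico (0 : ℤ) M,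
      (κ * (1 + rho S (r + W * p.2))) * (κ * (1 + rho S (r + W * p'.2))) *
      ‖∑ a ∈ Finset.Ico (-2 : ℤ) ((M / B : ℕ) + 1), (rho S (a0 + W * a) : ℂ) *
        (Uf W r a0 M H c θ p a * (starRingEnd ℂ) (Uf W r a0 M H c θ p' a))‖ ^ 2 ≤
    κ ^ 2 * ∑ q ∈ Tf M B P H,
      ‖∑ a ∈ Jf W r a0 M B q, ((omf S W a0 q a : ℝ) : ℂ) * e (xif θ q * a)‖ := by
  set I := Finset.Ico (-2 : ℤ) ((M / B : ℕ) + 1) with hI
  set nu : ℤ → ℝ := fun m => κ * (1 + rho S (r + W * m)) with hnu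
  set rh : ℤ → ℝ := fun a => rho S (a0 + W * a) with hrh
  set U := Uf W r a0 M H c θ with hU
  set F : ℕ × ℤ → ℕ × ℤ → ℤ → ℤ → ℂ := fun p p' a1 a2 => (nu p.2 : ℂ) * (nu p'.2 : ℂ) *
    (((rh a1 : ℂ) * (U p a1 * (starRingEnd ℂ) (U p' a1))) *
      (starRingEnd ℂ) ((rh a2 : ℂ) * (U p a2 * (starRingEnd ℂ) (U p' a2)))) with hFd
  have hU0 : ∀ p a, U p a ≠ 0 → (0 ≤ nbf W r a0 p.1 a ∧ nbf W r a0 p.1 a < M) ∧
      p.2 - nbf W r a0 p.1 a ∈ H := by
    intro p a h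
    by_contra hc
    apply h
    rw [hU]
    unfold Uf
    rw [if_neg hc]
  have e1 : ((∑ p ∈ P ×ˢ Finset.Ico (0 : ℤ) M, ∑ p' ∈ P ×ˢ Finset.Ico (0 : ℤ) M,
      nu p.2 * nu p'.2 * ‖∑ a ∈ I, (rh a : ℂ) * (U p a * (starRingEnd ℂ) (U p' a))‖ ^ 2 : ℝ) : ℂ) =
      ∑ q ∈ Tf M B P H, ∑ a ∈ Jf W r a0 M B q,
        F (q.1.1, q.2.2.1 + nbf W r a0 q.1.1 a) (q.1.2, q.2.2.2 + nbf W r a0 q.1.2 a) a
          (a + q.2.1) := by
    rw [← str_cv hW hB hr ha0 hP F]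
    · simp only [Complex.ofReal_sum, Complex.ofReal_mul]
      refine Finset.sum_congr rfl fun p _ => Finset.sum_congr rfl fun p' _ => ?_
      rw [str_sq I (fun a => (rh a : ℂ) * (U p a * (starRingEnd ℂ) (U p' a))), Finset.mul_sum]
      refine Finset.sum_congr rfl fun a1 _ => ?_
      rw [Finset.mul_sum]
    · intro p p' a1 a2 h
      rw [hFd] at h
      simp only [map_mul, Complex.conj_conj] at h
      have h1 : U p a1 ≠ 0 := fun h0 => h (by rw [h0]; simp)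
      have h2 : U p' a1 ≠ 0 := fun h0 => h (by rw [h0]; simp)
      have h3 : U p a2 ≠ 0 := fun h0 => h (by rw [h0]; simp)
      have h4 : U p' a2 ≠ 0 := fun h0 => h (by rw [h0]; simp)
      exact ⟨hU0 _ _ h1, hU0 _ _ h2, hU0 _ _ h3, hU0 _ _ h4⟩
  have e2 : ∑ p ∈ P ×ˢ Finset.Ico (0 : ℤ) M, ∑ p' ∈ P ×ˢ Finset.Ico (0 : ℤ) M,
      nu p.2 * nu p'.2 * ‖∑ a ∈ I, (rh a : ℂ) * (U p a * (starRingEnd ℂ) (U p' a))‖ ^ 2 ≤
      ‖((∑ p ∈ P ×ˢ Finset.Ico (0 : ℤ) M, ∑ p' ∈ P ×ˢ Finset.Ico (0 : ℤ) M,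
      nu p.2 * nu p'.2 * ‖∑ a ∈ I, (rh a : ℂ) * (U p a * (starRingEnd ℂ) (U p' a))‖ ^ 2 : ℝ) : ℂ)‖
      := by
    rw [Complex.norm_real]
    exact le_abs_self _
  refine le_trans e2 ?_
  rw [e1, Finset.mul_sum]
  refine le_trans (norm_sum_le _ _) (Finset.sum_le_sum fun q hq => ?_)
  obtain ⟨⟨b, b'⟩, ⟨t, ⟨h1, h2⟩⟩⟩ := q
  simp only [Tf, Finset.mem_filter, Finset.mem_product] at hq
  obtain ⟨⟨⟨hb, hb'⟩, -, h1H, h2H⟩, h3H, h4H⟩ := hq
  set D : ℂ := c h1 * (starRingEnd ℂ) (c h2) * ((starRingEnd ℂ) (c (h1 - t * b))) *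
    c (h2 - t * b') * e (θ h1 * nbf W r a0 b 0 - θ h2 * nbf W r a0 b' 0 -
      θ (h1 - t * b) * (nbf W r a0 b 0 + b * t : ℤ) +
      θ (h2 - t * b') * (nbf W r a0 b' 0 + b' * t : ℤ)) with hD
  have hDn : ‖D‖ ≤ 1 := by
    rw [hD, norm_mul, norm_e, mul_one, norm_mul, norm_mul, norm_mul, RCLike.norm_conj,
      RCLike.norm_conj]
    exact mul_le_one₀ (mul_le_one₀ (mul_le_one₀ (hc _) (norm_nonneg _) (hc _)) (norm_nonneg _)
      (hc _)) (norm_nonneg _) (hc _)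
  have e3 : ∀ a ∈ Jf W r a0 M B ((b, b'), (t, (h1, h2))),
      F (b, h1 + nbf W r a0 b a) (b', h2 + nbf W r a0 b' a) a (a + t) =
      (κ : ℂ) ^ 2 * D * (((omf S W a0 ((b, b'), (t, (h1, h2))) a : ℝ) : ℂ) *
        e (xif θ ((b, b'), (t, (h1, h2))) * a)) := by
    intro a ha
    simp only [Jf, Finset.mem_filter] at ha
    obtain ⟨-, ⟨g1, g2⟩, ⟨g3, g4⟩, g5, g6⟩ := ha
    have hab := nbf_add W r a0 b a t
    have hac := nbf_add W r a0 b' a t
    have u1 : h1 + nbf W r a0 b a - nbf W r a0 b a = h1 := by ring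
    have u2 : h2 + nbf W r a0 b' a - nbf W r a0 b' a = h2 := by ring
    have u3 : h1 + nbf W r a0 b a - nbf W r a0 b (a + t) = h1 - t * b := by rw [hab]; ring
    have u4 : h2 + nbf W r a0 b' a - nbf W r a0 b' (a + t) = h2 - t * b' := by rw [hac]; ring
    have v1 : U (b, h1 + nbf W r a0 b a) a = c h1 * e (θ h1 * nbf W r a0 b a) := by
      rw [hU]; unfold Uf; simp only [u1]; rw [if_pos ⟨g1, h1H⟩]
    have v2 : U (b', h2 + nbf W r a0 b' a) a = c h2 * e (θ h2 * nbf W r a0 b' a) := by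
      rw [hU]; unfold Uf; simp only [u2]; rw [if_pos ⟨g3, h2H⟩]
    have v3 : U (b, h1 + nbf W r a0 b a) (a + t) =
        c (h1 - t * b) * e (θ (h1 - t * b) * nbf W r a0 b (a + t)) := by
      rw [hU]; unfold Uf; simp only [u3]; rw [if_pos ⟨g2, h3H⟩]
    have v4 : U (b', h2 + nbf W r a0 b' a) (a + t) =
        c (h2 - t * b') * e (θ (h2 - t * b') * nbf W r a0 b' (a + t)) := by
      rw [hU]; unfold Uf; simp only [u4]; rw [if_pos ⟨g4, h4H⟩]
    have w1 : nu (h1 + nbf W r a0 b a) = κ * (1 + rho S (b * (a0 + W * a) + W * h1)) := by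
      rw [hnu]
      have : r + W * (h1 + nbf W r a0 b a) = b * (a0 + W * a) + W * h1 := by
        rw [← nbf_spec (hP b hb).d a]; ring
      simp only
      rw [this]
    have w2 : nu (h2 + nbf W r a0 b' a) = κ * (1 + rho S (b' * (a0 + W * a) + W * h2)) := by
      rw [hnu]
      have : r + W * (h2 + nbf W r a0 b' a) = b' * (a0 + W * a) + W * h2 := by
        rw [← nbf_spec (hP b' hb').d a]; ring
      simp only
      rw [this]
    have hph : e (θ h1 * nbf W r a0 b a) * (starRingEnd ℂ) (e (θ h2 * nbf W r a0 b' a)) *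
        ((starRingEnd ℂ) (e (θ (h1 - t * b) * nbf W r a0 b (a + t))) *
          e (θ (h2 - t * b') * nbf W r a0 b' (a + t))) =
        e (θ h1 * nbf W r a0 b 0 - θ h2 * nbf W r a0 b' 0 -
          θ (h1 - t * b) * (nbf W r a0 b 0 + b * t : ℤ) +
          θ (h2 - t * b') * (nbf W r a0 b' 0 + b' * t : ℤ)) *
          e (xif θ ((b, b'), (t, (h1, h2))) * a) := by
      rw [← e_neg, ← e_neg, ← e_add, ← e_add, ← e_add, ← e_add]
      congr 1
      rw [hab, hac, nbf_eq W r a0 b a, nbf_eq W r a0 b' a]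
      unfold xif
      push_cast
      ring
    rw [hFd]
    simp only
    rw [v1, v2, v3, v4, w1, w2]
    unfold omf
    simp only
    rw [hD]
    simp only [map_mul, Complex.conj_conj, Complex.conj_ofReal]
    push_cast
    calc _ = (κ : ℂ) ^ 2 * (c h1 * (starRingEnd ℂ) (c h2) * ((starRingEnd ℂ) (c (h1 - t * b))) *
          c (h2 - t * b')) * ((rho S (a0 + W * a) : ℂ) * (rho S (a0 + W * (a + t)) : ℂ) *
          (1 + (rho S (b * (a0 + W * a) + W * h1) : ℂ)) *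
          (1 + (rho S (b' * (a0 + W * a) + W * h2) : ℂ))) *
          (e (θ h1 * nbf W r a0 b a) * (starRingEnd ℂ) (e (θ h2 * nbf W r a0 b' a)) *
        ((starRingEnd ℂ) (e (θ (h1 - t * b) * nbf W r a0 b (a + t))) *
          e (θ (h2 - t * b') * nbf W r a0 b' (a + t)))) := by
            rw [hrh]; ring
      _ = _ := by rw [hph]; push_cast; ring
  simp only
  rw [Finset.sum_congr rfl e3, ← Finset.mul_sum, norm_mul, norm_mul, norm_pow, Complex.norm_real,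
    Real.norm_eq_abs, sq_abs]
  have : κ ^ 2 * ‖D‖ ≤ κ ^ 2 := by
    have := mul_le_mul_of_nonneg_left hDn (sq_nonneg κ)
    linarith
  exact mul_le_mul_of_nonneg_right this (norm_nonneg _)

end Pool.Agent.Lib.H18GB
end

-- from Lib.H18GB.STRd
section

/-!
# Chunk STR, part d: correlations
-/

namespace Pool.Agent.Lib.H18GB

open Finset Pool.Agent.Lib.Sieve

theorem str_er_mono {C C' A w : ℕ} (h1 : 1 ≤ C) (h : C ≤ C') (hw : 1 ≤ w) :
    er C A w ≤ er C' A w := by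
  unfold er
  have hC : (0 : ℝ) < C := by exact_mod_cast h1
  have hCC : (C : ℝ) ≤ C' := by exact_mod_cast h
  apply add_le_add
  · apply Real.rpow_le_rpow_of_exponent_le (by norm_num)
    rw [neg_div, neg_div, neg_le_neg_iff]
    exact div_le_div_of_nonneg_left (Nat.cast_nonneg _) hC hCC
  · apply Real.rpow_le_rpow_of_exponent_le (by exact_mod_cast hw)
    rw [neg_div, neg_div, neg_le_neg_iff]
    exact div_le_div_of_nonneg_left zero_le_one hC hCC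

theorem Ers_nn (t : ℝ) (S : Finset ℕ) (m : ℤ) : 0 ≤ Ers t S m := Ers_nonneg t S m

/-- the error of 8 forms -/
noncomputable def Err (C A w z : ℕ) (S : Finset ℕ) (α β : Fin 8 → ℤ) (l : ℝ) : ℝ :=
  l * (C * er C A w + C * ∑ i, ∑ j ∈ Finset.univ.filter (fun j => i ≠ j),
    Ers (9 / 10) S (disc α β i j)) + C * (z : ℝ) ^ (A + 8)

theorem str_corr : ∃ C : ℕ, 1 ≤ C ∧ ∀ (A w z : ℕ) (S : Finset ℕ), C ≤ A → C ≤ w → 2 ≤ z →
    PSet w z S → ∀ (α β : Fin 8 → ℤ), (∀ p ∈ S, ∀ i, ¬ (p : ℤ) ∣ α i) →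
    ∀ (T : Finset (Fin 8)) (a b : ℤ), a ≤ b →
    |∑ x ∈ Finset.Ico a b, ∏ i ∈ T, rho S (α i * x + β i) - (b - a)| ≤
      Err C A w z S α β (b - a) := by
  choose C0 hC0 using corr0
  set C := ∑ k ∈ Finset.range 9, C0 k with hC
  have hCk : ∀ k, k < 9 → C0 k ≤ C := fun k hk =>
    Finset.single_le_sum (f := C0) (fun _ _ => Nat.zero_le _) (Finset.mem_range.mpr hk)
  refine ⟨C, le_trans (hC0 0).1 (hCk 0 (by norm_num)), ?_⟩
  intro A w z S hA hw hz hS α β hα T a b hab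
  have hw1 : 1 ≤ w := le_trans (le_trans (hC0 0).1 (hCk 0 (by norm_num))) hw
  have hTc : T.card ≤ 8 := by
    have := T.card_le_univ
    simpa using this
  set k := T.card with hk
  have hk9 : k < 9 := by omega
  set f : Fin k ↪o Fin 8 := T.orderEmbOfFin rfl with hf
  have hprod : ∀ F : Fin 8 → ℝ, ∏ i ∈ T, F i = ∏ i : Fin k, F (f i) := by
    intro F
    have h1 : T = Finset.univ.map f.toEmbedding := by
      ext x
      rw [Finset.mem_map]
      constructor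
      · intro hx
        have : x ∈ Set.range f := by
          rw [hf, Finset.range_orderEmbOfFin]; exact hx
        obtain ⟨i, hi⟩ := this
        exact ⟨i, Finset.mem_univ _, hi⟩
      · rintro ⟨i, -, hi⟩
        have : f i ∈ T := Finset.orderEmbOfFin_mem T rfl i
        rw [← hi]
        exact this
    conv_lhs => rw [h1]
    rw [Finset.prod_map]
    rfl
  have hmain := (hC0 k).2 A w z S (le_trans (hCk k hk9) hA) (le_trans (hCk k hk9) hw) hz hS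
    (fun i => α (f i)) (fun i => β (f i)) (fun p hp i => hα p hp (f i)) a b hab
  have hrw : ∑ x ∈ Finset.Ico a b, ∏ i ∈ T, rho S (α i * x + β i) =
      ∑ x ∈ Finset.Ico a b, ∏ i : Fin k, rho S (α (f i) * x + β (f i)) :=
    Finset.sum_congr rfl fun x _ => hprod (fun i => rho S (α i * x + β i))
  rw [hrw]
  refine le_trans hmain ?_
  unfold Err
  have hz1 : (1 : ℝ) ≤ z := by exact_mod_cast (by omega : 1 ≤ z)
  have hCk' : (C0 k : ℝ) ≤ C := by exact_mod_cast hCk k hk9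
  have hCp : (0 : ℝ) ≤ C := Nat.cast_nonneg _
  have hba : (0 : ℝ) ≤ (b : ℝ) - a := by
    have : (a : ℝ) ≤ b := by exact_mod_cast hab
    linarith
  apply add_le_add
  · apply mul_le_mul_of_nonneg_left _ hba
    apply add_le_add
    · apply mul_le_mul hCk' (str_er_mono (hC0 k).1 (hCk k hk9) hw1) (er_nonneg _ _ _) hCp
    · apply mul_le_mul hCk' _ _ hCp
      · -- double sums
        set G : Fin 8 → Fin 8 → ℝ := fun i j => if i ≠ j then Ers (9 / 10) S (disc α β i j) else 0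
          with hG
        have hG0 : ∀ i j, 0 ≤ G i j := by
          intro i j
          rw [hG]
          simp only
          split_ifs
          · exact Ers_nn _ _ _
          · exact le_rfl
        have h1 : ∑ i : Fin k, ∑ j ∈ Finset.univ.filter (fun j => i ≠ j),
            Ers (9 / 10) S (disc (fun i => α (f i)) (fun i => β (f i)) i j) =
            ∑ i : Fin k, ∑ j : Fin k, G (f i) (f j) := by
          refine Finset.sum_congr rfl fun i _ => ?_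
          rw [Finset.sum_filter]
          refine Finset.sum_congr rfl fun j _ => ?_
          rw [hG]
          simp only
          have : (i ≠ j) ↔ (f i ≠ f j) := by rw [not_iff_not]; exact f.injective.eq_iff.symm
          by_cases hij : i ≠ j
          · rw [if_pos hij, if_pos (this.mp hij)]; rfl
          · rw [if_neg hij, if_neg (fun h => hij (this.mpr h))]
        have h2 : ∑ i, ∑ j ∈ Finset.univ.filter (fun j => i ≠ j), Ers (9 / 10) S (disc α β i j) =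
            ∑ i, ∑ j, G i j := by
          refine Finset.sum_congr rfl fun i _ => ?_
          rw [Finset.sum_filter]
        rw [h1, h2]
        have h3 : ∀ F : Fin 8 → ℝ, (∀ i, 0 ≤ F i) → ∑ i : Fin k, F (f i) ≤ ∑ i, F i := by
          intro F hF
          have : ∑ i : Fin k, F (f i) = ∑ x ∈ Finset.univ.map f.toEmbedding, F x := by
            rw [Finset.sum_map]; rfl
          rw [this]
          exact Finset.sum_le_sum_of_subset_of_nonneg (Finset.subset_univ _) fun i _ _ => hF i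
        refine le_trans (Finset.sum_le_sum fun i _ => h3 (G (f i)) (hG0 _)) ?_
        exact h3 (fun i => ∑ j, G i j) fun i => Finset.sum_nonneg fun j _ => hG0 i j
      · exact Finset.sum_nonneg fun i _ => Finset.sum_nonneg fun j _ => Ers_nn _ _ _
  · apply mul_le_mul hCk' _ (by positivity) hCp
    exact pow_le_pow_right₀ hz1 (by omega)

theorem Err_nonneg (C A w z : ℕ) (S : Finset ℕ) (α β : Fin 8 → ℤ) (l : ℝ) (hl : 0 ≤ l) :
    0 ≤ Err C A w z S α β l := by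
  unfold Err
  have := er_nonneg C A w
  have h2 : 0 ≤ ∑ i, ∑ j ∈ Finset.univ.filter (fun j => i ≠ j), Ers (9 / 10) S (disc α β i j) :=
    Finset.sum_nonneg fun i _ => Finset.sum_nonneg fun j _ => Ers_nn _ _ _
  positivity

/-- mixed products -/
theorem str_mix {C A w z : ℕ} {S : Finset ℕ} {α β : Fin 8 → ℤ} {a b : ℤ}
    (h : ∀ T : Finset (Fin 8), |∑ x ∈ Finset.Ico a b, ∏ i ∈ T, rho S (α i * x + β i) - (b - a)| ≤
      Err C A w z S α β (b - a)) (T1 T2 : Finset (Fin 8)) (hd : Disjoint T1 T2) :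
    |∑ x ∈ Finset.Ico a b, (∏ i ∈ T1, rho S (α i * x + β i)) *
      (∏ i ∈ T2, (1 + rho S (α i * x + β i))) - 2 ^ T2.card * (b - a)| ≤
      2 ^ T2.card * Err C A w z S α β (b - a) := by
  have e1 : ∑ x ∈ Finset.Ico a b, (∏ i ∈ T1, rho S (α i * x + β i)) *
      (∏ i ∈ T2, (1 + rho S (α i * x + β i))) =
      ∑ T ∈ T2.powerset, ∑ x ∈ Finset.Ico a b, ∏ i ∈ T1 ∪ T, rho S (α i * x + β i) := by
    rw [Finset.sum_comm]
    refine Finset.sum_congr rfl fun x _ => ?_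
    rw [Finset.prod_one_add, Finset.mul_sum]
    refine Finset.sum_congr rfl fun T hT => ?_
    rw [Finset.prod_union]
    exact Finset.disjoint_of_subset_right (Finset.mem_powerset.mp hT) hd
  have e2 : (2 : ℝ) ^ T2.card * (b - a) = ∑ T ∈ T2.powerset, ((b : ℝ) - a) := by
    rw [Finset.sum_const, Finset.card_powerset, nsmul_eq_mul]; push_cast; ring
  have e3 : (2 : ℝ) ^ T2.card * Err C A w z S α β (b - a) =
      ∑ T ∈ T2.powerset, Err C A w z S α β (b - a) := by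
    rw [Finset.sum_const, Finset.card_powerset, nsmul_eq_mul]; push_cast; ring
  rw [e1, e2, e3, ← Finset.sum_sub_distrib]
  exact le_trans (Finset.abs_sum_le_sum_abs _ _) (Finset.sum_le_sum fun T _ => h _)

/-- slopes of the 8 forms -/
def alf (W : ℕ) (q : Tup) : Fin 8 → ℤ :=
  ![W, W, W * q.1.1, W * q.1.2, W, W, W * q.1.1, W * q.1.2]

/-- constants of the 8 forms -/
def bef (W : ℕ) (a0 : ℤ) (q : Tup) (k : ℤ) : Fin 8 → ℤ :=
  ![a0, a0 + W * q.2.1, q.1.1 * a0 + W * q.2.2.1, q.1.2 * a0 + W * q.2.2.2,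
    a0 + W * k, a0 + W * (k + q.2.1), q.1.1 * (a0 + W * k) + W * q.2.2.1,
    q.1.2 * (a0 + W * k) + W * q.2.2.2]

theorem str_qq {C A w z : ℕ} {S : Finset ℕ} {W : ℕ} {a0 : ℤ} {q : Tup} {k a b : ℤ}
    (h : ∀ T : Finset (Fin 8), |∑ x ∈ Finset.Ico a b, ∏ i ∈ T,
      rho S (alf W q i * x + bef W a0 q k i) - (b - a)| ≤
      Err C A w z S (alf W q) (bef W a0 q k) (b - a)) (hab : a ≤ b) :
    |∑ x ∈ Finset.Ico a b, (omf S W a0 q x - 4) * (omf S W a0 q (x + k) - 4)| ≤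
      48 * Err C A w z S (alf W q) (bef W a0 q k) (b - a) := by
  set E := Err C A w z S (alf W q) (bef W a0 q k) (b - a) with hE
  have m1 := str_mix h {0, 1, 4, 5} {2, 3, 6, 7} (by decide)
  have m2 := str_mix h {0, 1} {2, 3} (by decide)
  have m3 := str_mix h {4, 5} {6, 7} (by decide)
  rw [← hE] at m1 m2 m3
  have c1 : ({2, 3, 6, 7} : Finset (Fin 8)).card = 4 := by decide
  have c2 : ({2, 3} : Finset (Fin 8)).card = 2 := by decide
  have c3 : ({6, 7} : Finset (Fin 8)).card = 2 := by decide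
  rw [c1] at m1
  rw [c2] at m2
  rw [c3] at m3
  have f1 : ∀ x, (∏ i ∈ ({0, 1, 4, 5} : Finset (Fin 8)), rho S (alf W q i * x + bef W a0 q k i)) *
      (∏ i ∈ ({2, 3, 6, 7} : Finset (Fin 8)), (1 + rho S (alf W q i * x + bef W a0 q k i))) =
      omf S W a0 q x * omf S W a0 q (x + k) := by
    intro x
    rw [Finset.prod_insert (by decide), Finset.prod_insert (by decide),
      Finset.prod_insert (by decide), Finset.prod_singleton, Finset.prod_insert (by decide),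
      Finset.prod_insert (by decide), Finset.prod_insert (by decide), Finset.prod_singleton]
    have g0 : alf W q 0 * x + bef W a0 q k 0 = a0 + W * x := by simp [alf, bef]; ring
    have g1 : alf W q 1 * x + bef W a0 q k 1 = a0 + W * (x + q.2.1) := by simp [alf, bef]; ring
    have g2 : alf W q 2 * x + bef W a0 q k 2 = q.1.1 * (a0 + W * x) + W * q.2.2.1 := by
      simp [alf, bef]; ring
    have g3 : alf W q 3 * x + bef W a0 q k 3 = q.1.2 * (a0 + W * x) + W * q.2.2.2 := by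
      simp [alf, bef]; ring
    have g4 : alf W q 4 * x + bef W a0 q k 4 = a0 + W * (x + k) := by simp [alf, bef]; ring
    have g5 : alf W q 5 * x + bef W a0 q k 5 = a0 + W * (x + k + q.2.1) := by
      simp [alf, bef]; ring
    have g6 : alf W q 6 * x + bef W a0 q k 6 = q.1.1 * (a0 + W * (x + k)) + W * q.2.2.1 := by
      simp [alf, bef]; ring
    have g7 : alf W q 7 * x + bef W a0 q k 7 = q.1.2 * (a0 + W * (x + k)) + W * q.2.2.2 := by
      simp [alf, bef]; ring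
    rw [g0, g1, g2, g3, g4, g5, g6, g7]
    unfold omf
    ring
  have f2 : ∀ x, (∏ i ∈ ({0, 1} : Finset (Fin 8)), rho S (alf W q i * x + bef W a0 q k i)) *
      (∏ i ∈ ({2, 3} : Finset (Fin 8)), (1 + rho S (alf W q i * x + bef W a0 q k i))) =
      omf S W a0 q x := by
    intro x
    rw [Finset.prod_insert (by decide), Finset.prod_singleton, Finset.prod_insert (by decide),
      Finset.prod_singleton]
    have g0 : alf W q 0 * x + bef W a0 q k 0 = a0 + W * x := by simp [alf, bef]; ring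
    have g1 : alf W q 1 * x + bef W a0 q k 1 = a0 + W * (x + q.2.1) := by simp [alf, bef]; ring
    have g2 : alf W q 2 * x + bef W a0 q k 2 = q.1.1 * (a0 + W * x) + W * q.2.2.1 := by
      simp [alf, bef]; ring
    have g3 : alf W q 3 * x + bef W a0 q k 3 = q.1.2 * (a0 + W * x) + W * q.2.2.2 := by
      simp [alf, bef]; ring
    rw [g0, g1, g2, g3]
    unfold omf
    ring
  have f3 : ∀ x, (∏ i ∈ ({4, 5} : Finset (Fin 8)), rho S (alf W q i * x + bef W a0 q k i)) *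
      (∏ i ∈ ({6, 7} : Finset (Fin 8)), (1 + rho S (alf W q i * x + bef W a0 q k i))) =
      omf S W a0 q (x + k) := by
    intro x
    rw [Finset.prod_insert (by decide), Finset.prod_singleton, Finset.prod_insert (by decide),
      Finset.prod_singleton]
    have g4 : alf W q 4 * x + bef W a0 q k 4 = a0 + W * (x + k) := by simp [alf, bef]; ring
    have g5 : alf W q 5 * x + bef W a0 q k 5 = a0 + W * (x + k + q.2.1) := by
      simp [alf, bef]; ring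
    have g6 : alf W q 6 * x + bef W a0 q k 6 = q.1.1 * (a0 + W * (x + k)) + W * q.2.2.1 := by
      simp [alf, bef]; ring
    have g7 : alf W q 7 * x + bef W a0 q k 7 = q.1.2 * (a0 + W * (x + k)) + W * q.2.2.2 := by
      simp [alf, bef]; ring
    rw [g4, g5, g6, g7]
    unfold omf
    ring
  simp only [f1] at m1
  simp only [f2] at m2
  simp only [f3] at m3
  have key : ∑ x ∈ Finset.Ico a b, (omf S W a0 q x - 4) * (omf S W a0 q (x + k) - 4) =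
      (∑ x ∈ Finset.Ico a b, omf S W a0 q x * omf S W a0 q (x + k) - 2 ^ 4 * ((b : ℝ) - a)) -
      4 * (∑ x ∈ Finset.Ico a b, omf S W a0 q x - 2 ^ 2 * ((b : ℝ) - a)) -
      4 * (∑ x ∈ Finset.Ico a b, omf S W a0 q (x + k) - 2 ^ 2 * ((b : ℝ) - a)) := by
    have : ∀ x, (omf S W a0 q x - 4) * (omf S W a0 q (x + k) - 4) =
        omf S W a0 q x * omf S W a0 q (x + k) - 4 * omf S W a0 q x - 4 * omf S W a0 q (x + k) + 16
        := fun x => by ring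
    simp only [this, Finset.sum_add_distrib, Finset.sum_sub_distrib, ← Finset.mul_sum,
      Finset.sum_const, Int.card_Ico, nsmul_eq_mul]
    have hc : (((b - a).toNat : ℕ) : ℝ) = (b : ℝ) - a := by
      have : (((b - a).toNat : ℕ) : ℤ) = b - a := Int.toNat_of_nonneg (by omega)
      exact_mod_cast this
    rw [hc]
    ring
  rw [key]
  rw [abs_le] at m1 m2 m3 ⊢
  constructor <;> linarith [m1.1, m1.2, m2.1, m2.2, m3.1, m3.2]

end Pool.Agent.Lib.H18GB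
end

-- from Lib.H18GB.STRe
section

/-!
# Chunk STR, part e: averages of the errors over the shifts
-/

namespace Pool.Agent.Lib.H18GB

open Finset Pool.Agent.Lib.Sieve

/-- coprime to the sieving primes -/
def Cop (S : Finset ℕ) (α : ℤ) : Prop := ∀ p ∈ S, ¬ (p : ℤ) ∣ α

theorem Cop.mul {S : Finset ℕ} (hS : ∀ p ∈ S, p.Prime) {α β : ℤ} (h1 : Cop S α) (h2 : Cop S β) :
    Cop S (α * β) := by
  intro p hp h
  rcases (Nat.prime_iff_prime_int.mp (hS p hp)).dvd_or_dvd h with h | h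
  · exact h1 p hp h
  · exact h2 p hp h

theorem Cop.neg {S : Finset ℕ} {α : ℤ} (h1 : Cop S α) : Cop S (-α) := by
  intro p hp h
  exact h1 p hp ((dvd_neg).mp h)

/-- fourfold sums -/
noncomputable def S4 (A1 A2 A3 A4 : Finset ℤ) (f : ℤ → ℤ → ℤ → ℤ → ℝ) : ℝ :=
  ∑ t ∈ A1, ∑ h1 ∈ A2, ∑ h2 ∈ A3, ∑ k ∈ A4, f t h1 h2 k


theorem S4_k {A1 A2 A3 A4 : Finset ℤ} {f : ℤ → ℤ → ℤ → ℤ → ℝ} {η : ℝ}
    (h : ∀ t h1 h2, ∑ k ∈ A4, f t h1 h2 k ≤ A4.card * η) :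
    S4 A1 A2 A3 A4 f ≤ A1.card * A2.card * A3.card * A4.card * η := by
  unfold S4
  refine le_trans (Finset.sum_le_sum fun t _ => Finset.sum_le_sum fun h1 _ =>
    Finset.sum_le_sum fun h2 _ => h t h1 h2) ?_
  simp only [Finset.sum_const, nsmul_eq_mul]
  apply le_of_eq
  ring

theorem S4_h2 {A1 A2 A3 A4 : Finset ℤ} {f : ℤ → ℤ → ℤ → ℤ → ℝ} {η : ℝ}
    (h : ∀ t h1 k, ∑ h2 ∈ A3, f t h1 h2 k ≤ A3.card * η) :
    S4 A1 A2 A3 A4 f ≤ A1.card * A2.card * A3.card * A4.card * η := by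
  unfold S4
  have e : ∀ t h1, ∑ h2 ∈ A3, ∑ k ∈ A4, f t h1 h2 k = ∑ k ∈ A4, ∑ h2 ∈ A3, f t h1 h2 k :=
    fun t h1 => Finset.sum_comm
  simp only [e]
  refine le_trans (Finset.sum_le_sum fun t _ => Finset.sum_le_sum fun h1 _ =>
    Finset.sum_le_sum fun k _ => h t h1 k) ?_
  simp only [Finset.sum_const, nsmul_eq_mul]
  apply le_of_eq
  ring

theorem S4_h1 {A1 A2 A3 A4 : Finset ℤ} {f : ℤ → ℤ → ℤ → ℤ → ℝ} {η : ℝ}
    (h : ∀ t h2 k, ∑ h1 ∈ A2, f t h1 h2 k ≤ A2.card * η) :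
    S4 A1 A2 A3 A4 f ≤ A1.card * A2.card * A3.card * A4.card * η := by
  unfold S4
  have e : ∀ t, ∑ h1 ∈ A2, ∑ h2 ∈ A3, ∑ k ∈ A4, f t h1 h2 k =
      ∑ h2 ∈ A3, ∑ k ∈ A4, ∑ h1 ∈ A2, f t h1 h2 k := by
    intro t
    rw [Finset.sum_comm]
    refine Finset.sum_congr rfl fun h2 _ => ?_
    rw [Finset.sum_comm]
  simp only [e]
  refine le_trans (Finset.sum_le_sum fun t _ => Finset.sum_le_sum fun h2 _ =>
    Finset.sum_le_sum fun k _ => h t h2 k) ?_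
  simp only [Finset.sum_const, nsmul_eq_mul]
  apply le_of_eq
  ring

theorem S4_t {A1 A2 A3 A4 : Finset ℤ} {f : ℤ → ℤ → ℤ → ℤ → ℝ} {η : ℝ}
    (h : ∀ h1 h2 k, ∑ t ∈ A1, f t h1 h2 k ≤ A1.card * η) :
    S4 A1 A2 A3 A4 f ≤ A1.card * A2.card * A3.card * A4.card * η := by
  unfold S4
  have e : ∑ t ∈ A1, ∑ h1 ∈ A2, ∑ h2 ∈ A3, ∑ k ∈ A4, f t h1 h2 k =
      ∑ h1 ∈ A2, ∑ h2 ∈ A3, ∑ k ∈ A4, ∑ t ∈ A1, f t h1 h2 k := by
    rw [Finset.sum_comm]
    refine Finset.sum_congr rfl fun h1 _ => ?_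
    rw [Finset.sum_comm]
    refine Finset.sum_congr rfl fun h2 _ => ?_
    rw [Finset.sum_comm]
  rw [e]
  refine le_trans (Finset.sum_le_sum fun h1 _ => Finset.sum_le_sum fun h2 _ =>
    Finset.sum_le_sum fun k _ => h h1 h2 k) ?_
  simp only [Finset.sum_const, nsmul_eq_mul]
  apply le_of_eq
  ring

/-- averages of `Ers` over one variable -/
theorem str_av : ∃ C : ℝ, 1 ≤ C ∧ ∀ (w z : ℕ) (S : Finset ℕ), 1 ≤ w → PSet w z S →
    ∀ α β : ℤ, Cop S α → ∀ a b : ℤ, a ≤ b → (z : ℤ) * w ≤ b - a →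
    ∑ h ∈ Finset.Ico a b, Ers (9 / 10) S (α * h + β) ≤
      (Finset.Ico a b).card * (C * (w : ℝ) ^ (-(9 / 10 : ℝ))) := by
  obtain ⟨C, hC1, hC⟩ := ers_avg (9 / 10) (by norm_num) (by norm_num)
  refine ⟨2 * C, by linarith, ?_⟩
  intro w z S hw hS α β hα a b hab hz
  refine le_trans (hC w z S hw hS α β hα a b hab) ?_
  have hc : ((Finset.Ico a b).card : ℝ) = (b : ℝ) - a := by
    rw [Int.card_Ico]
    have : (((b - a).toNat : ℕ) : ℤ) = b - a := Int.toNat_of_nonneg (by omega)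
    exact_mod_cast this
  rw [hc]
  have hw' : (1 : ℝ) ≤ w := by exact_mod_cast hw
  have hz' : (z : ℝ) * w ≤ (b : ℝ) - a := by exact_mod_cast hz
  have h1 : (w : ℝ)⁻¹ ≤ (w : ℝ) ^ (-(9 / 10 : ℝ)) := by
    rw [← Real.rpow_neg_one]
    exact Real.rpow_le_rpow_of_exponent_le hw' (by norm_num)
  have h2 : (z : ℝ) ≤ ((b : ℝ) - a) * (w : ℝ) ^ (-(9 / 10 : ℝ)) := by
    have h3 : (z : ℝ) = (z * w) * (w : ℝ)⁻¹ := by field_simp
    rw [h3]
    apply mul_le_mul hz' h1 (by positivity)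
    have : (0 : ℝ) ≤ (z : ℝ) * w := by positivity
    linarith
  nlinarith

/-- the constant list of the bounds for one pair of forms -/
theorem str_box {C : ℝ} (hCav : ∀ (w z : ℕ) (S : Finset ℕ), 1 ≤ w → PSet w z S →
    ∀ α β : ℤ, Cop S α → ∀ a b : ℤ, a ≤ b → (z : ℤ) * w ≤ b - a →
    ∑ h ∈ Finset.Ico a b, Ers (9 / 10) S (α * h + β) ≤
      (Finset.Ico a b).card * (C * (w : ℝ) ^ (-(9 / 10 : ℝ))))
    {w z W : ℕ} {S : Finset ℕ} (hw : 1 ≤ w) (hS : PSet w z S) (a0 : ℤ) {b c : ℕ}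
    (hW : Cop S W) (hb : Cop S b) (hc : Cop S c) {x1 y1 x2 y2 x3 y3 : ℤ}
    (h1 : x1 ≤ y1) (g1 : (z : ℤ) * w ≤ y1 - x1) (h2 : x2 ≤ y2) (g2 : (z : ℤ) * w ≤ y2 - x2)
    (h3 : x3 ≤ y3) (g3 : (z : ℤ) * w ≤ y3 - x3) (i j : Fin 8) (hij : i ≠ j) :
    S4 (Finset.Ico x1 y1) (Finset.Ico x2 y2) (Finset.Ico x2 y2) (Finset.Ico x3 y3)
      (fun t h1 h2 k => Ers (9 / 10) S (disc (alf W ((b, c), (t, (h1, h2))))
        (bef W a0 ((b, c), (t, (h1, h2))) k) i j)) ≤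
      (Finset.Ico x1 y1).card * (Finset.Ico x2 y2).card * (Finset.Ico x2 y2).card *
        (Finset.Ico x3 y3).card * (C * (w : ℝ) ^ (-(9 / 10 : ℝ))) := by
  have hSp := hS.prime
  have alt_t : ∀ (α : ℤ) (_ : Cop S α) (F : ℤ → ℤ → ℤ → ℤ → ℤ),
      (∀ t h1 h2 k, F t h1 h2 k = α * t + F 0 h1 h2 k) →
      S4 (Finset.Ico x1 y1) (Finset.Ico x2 y2) (Finset.Ico x2 y2) (Finset.Ico x3 y3)
      (fun t h1 h2 k => Ers (9 / 10) S (F t h1 h2 k)) ≤
      (Finset.Ico x1 y1).card * (Finset.Ico x2 y2).card * (Finset.Ico x2 y2).card *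
        (Finset.Ico x3 y3).card * (C * (w : ℝ) ^ (-(9 / 10 : ℝ))) := by
    intro α hα F hF
    refine S4_t fun h1' h2' k => ?_
    have : ∀ t, Ers (9 / 10) S (F t h1' h2' k) = Ers (9 / 10) S (α * t + F 0 h1' h2' k) :=
      fun t => by rw [← hF]
    simp only [this]
    exact hCav w z S hw hS α _ hα _ _ h1 g1
  have alt_h1 : ∀ (α : ℤ) (_ : Cop S α) (F : ℤ → ℤ → ℤ → ℤ → ℤ),
      (∀ t h1 h2 k, F t h1 h2 k = α * h1 + F t 0 h2 k) →
      S4 (Finset.Ico x1 y1) (Finset.Ico x2 y2) (Finset.Ico x2 y2) (Finset.Ico x3 y3)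
      (fun t h1 h2 k => Ers (9 / 10) S (F t h1 h2 k)) ≤
      (Finset.Ico x1 y1).card * (Finset.Ico x2 y2).card * (Finset.Ico x2 y2).card *
        (Finset.Ico x3 y3).card * (C * (w : ℝ) ^ (-(9 / 10 : ℝ))) := by
    intro α hα F hF
    refine S4_h1 fun t h2' k => ?_
    have : ∀ h1', Ers (9 / 10) S (F t h1' h2' k) = Ers (9 / 10) S (α * h1' + F t 0 h2' k) :=
      fun h1' => by rw [← hF]
    simp only [this]
    exact hCav w z S hw hS α _ hα _ _ h2 g2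
  have alt_h2 : ∀ (α : ℤ) (_ : Cop S α) (F : ℤ → ℤ → ℤ → ℤ → ℤ),
      (∀ t h1 h2 k, F t h1 h2 k = α * h2 + F t h1 0 k) →
      S4 (Finset.Ico x1 y1) (Finset.Ico x2 y2) (Finset.Ico x2 y2) (Finset.Ico x3 y3)
      (fun t h1 h2 k => Ers (9 / 10) S (F t h1 h2 k)) ≤
      (Finset.Ico x1 y1).card * (Finset.Ico x2 y2).card * (Finset.Ico x2 y2).card *
        (Finset.Ico x3 y3).card * (C * (w : ℝ) ^ (-(9 / 10 : ℝ))) := by
    intro α hα F hF
    refine S4_h2 fun t h1' k => ?_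
    have : ∀ h2', Ers (9 / 10) S (F t h1' h2' k) = Ers (9 / 10) S (α * h2' + F t h1' 0 k) :=
      fun h2' => by rw [← hF]
    simp only [this]
    exact hCav w z S hw hS α _ hα _ _ h2 g2
  have alt_k : ∀ (α : ℤ) (_ : Cop S α) (F : ℤ → ℤ → ℤ → ℤ → ℤ),
      (∀ t h1 h2 k, F t h1 h2 k = α * k + F t h1 h2 0) →
      S4 (Finset.Ico x1 y1) (Finset.Ico x2 y2) (Finset.Ico x2 y2) (Finset.Ico x3 y3)
      (fun t h1 h2 k => Ers (9 / 10) S (F t h1 h2 k)) ≤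
      (Finset.Ico x1 y1).card * (Finset.Ico x2 y2).card * (Finset.Ico x2 y2).card *
        (Finset.Ico x3 y3).card * (C * (w : ℝ) ^ (-(9 / 10 : ℝ))) := by
    intro α hα F hF
    refine S4_k fun t h1' h2' => ?_
    have : ∀ k, Ers (9 / 10) S (F t h1' h2' k) = Ers (9 / 10) S (α * k + F t h1' h2' 0) :=
      fun k => by rw [← hF]
    simp only [this]
    exact hCav w z S hw hS α _ hα _ _ h3 g3
  have p1 : Cop S ((W : ℤ) * W) := hW.mul hSp hW
  have p2 : Cop S ((W : ℤ) * W * b) := p1.mul hSp hb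
  have p3 : Cop S ((W : ℤ) * W * (b * b)) := p1.mul hSp (hb.mul hSp hb)
  have p4 : Cop S ((W : ℤ) * W * (c * c)) := p1.mul hSp (hc.mul hSp hc)
  have n1 := p1.neg
  have n2 := p2.neg
  have n3 := p3.neg
  have n4 := p4.neg
  fin_cases i <;> fin_cases j <;>
    simp only [disc, alf, bef, Fin.zero_eta, Fin.mk_one, Fin.reduceFinMk, Matrix.cons_val_zero,
      Matrix.cons_val_one, Matrix.cons_val, ne_eq, not_true_eq_false] at hij ⊢ <;>
    first
      | exact absurd rfl hij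
      | exact absurd hij not_false
      | exact alt_h1 _ p1 _ (by intro t h1 h2 k; ring1)
      | exact alt_h1 _ n1 _ (by intro t h1 h2 k; ring1)
      | exact alt_h2 _ p1 _ (by intro t h1 h2 k; ring1)
      | exact alt_h2 _ n1 _ (by intro t h1 h2 k; ring1)
      | exact alt_h2 _ p2 _ (by intro t h1 h2 k; ring1)
      | exact alt_h2 _ n2 _ (by intro t h1 h2 k; ring1)
      | exact alt_t _ p1 _ (by intro t h1 h2 k; ring1)
      | exact alt_t _ n1 _ (by intro t h1 h2 k; ring1)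
      | exact alt_k _ p1 _ (by intro t h1 h2 k; ring1)
      | exact alt_k _ n1 _ (by intro t h1 h2 k; ring1)
      | exact alt_k _ p3 _ (by intro t h1 h2 k; ring1)
      | exact alt_k _ n3 _ (by intro t h1 h2 k; ring1)
      | exact alt_k _ p4 _ (by intro t h1 h2 k; ring1)
      | exact alt_k _ n4 _ (by intro t h1 h2 k; ring1)

end Pool.Agent.Lib.H18GB
end

-- from Lib.H18GB.STRf
section

/-!
# Chunk STR, part f: the cost of replacing the weights by their mean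
-/

namespace Pool.Agent.Lib.H18GB

open Finset Pool.Agent.Lib.Sieve

theorem Err_mono (C A w z : ℕ) (S : Finset ℕ) (α β : Fin 8 → ℤ) {l l' : ℝ} (hl : l ≤ l') :
    Err C A w z S α β l ≤ Err C A w z S α β l' := by
  unfold Err
  have := er_nonneg C A w
  have h2 : 0 ≤ ∑ i, ∑ j ∈ Finset.univ.filter (fun j => i ≠ j), Ers (9 / 10) S (disc α β i j) :=
    Finset.sum_nonneg fun i _ => Finset.sum_nonneg fun j _ => Ers_nn _ _ _
  have h3 : 0 ≤ (C : ℝ) * er C A w + C * ∑ i, ∑ j ∈ Finset.univ.filter (fun j => i ≠ j),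
    Ers (9 / 10) S (disc α β i j) := by positivity
  have := mul_le_mul_of_nonneg_right hl h3
  linarith

theorem S4_add {A1 A2 A3 A4 : Finset ℤ} (f g : ℤ → ℤ → ℤ → ℤ → ℝ) :
    S4 A1 A2 A3 A4 (fun t h1 h2 k => f t h1 h2 k + g t h1 h2 k) =
      S4 A1 A2 A3 A4 f + S4 A1 A2 A3 A4 g := by
  unfold S4
  simp only [Finset.sum_add_distrib]

theorem S4_const {A1 A2 A3 A4 : Finset ℤ} (x : ℝ) :
    S4 A1 A2 A3 A4 (fun _ _ _ _ => x) = A1.card * A2.card * A3.card * A4.card * x := by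
  unfold S4
  simp only [Finset.sum_const, nsmul_eq_mul]
  ring

theorem S4_mul {A1 A2 A3 A4 : Finset ℤ} (x : ℝ) (f : ℤ → ℤ → ℤ → ℤ → ℝ) :
    S4 A1 A2 A3 A4 (fun t h1 h2 k => x * f t h1 h2 k) = x * S4 A1 A2 A3 A4 f := by
  unfold S4
  simp only [Finset.mul_sum]

theorem S4_sum {ι : Type*} {A1 A2 A3 A4 : Finset ℤ} (s : Finset ι) (f : ι → ℤ → ℤ → ℤ → ℤ → ℝ) :
    S4 A1 A2 A3 A4 (fun t h1 h2 k => ∑ i ∈ s, f i t h1 h2 k) =
      ∑ i ∈ s, S4 A1 A2 A3 A4 (f i) := by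
  unfold S4
  have e1 : ∀ t h1 h2, ∑ k ∈ A4, ∑ i ∈ s, f i t h1 h2 k = ∑ i ∈ s, ∑ k ∈ A4, f i t h1 h2 k :=
    fun t h1 h2 => Finset.sum_comm
  simp only [e1]
  have e2 : ∀ t h1, ∑ h2 ∈ A3, ∑ i ∈ s, ∑ k ∈ A4, f i t h1 h2 k =
      ∑ i ∈ s, ∑ h2 ∈ A3, ∑ k ∈ A4, f i t h1 h2 k := fun t h1 => Finset.sum_comm
  simp only [e2]
  have e3 : ∀ t, ∑ h1 ∈ A2, ∑ i ∈ s, ∑ h2 ∈ A3, ∑ k ∈ A4, f i t h1 h2 k =
      ∑ i ∈ s, ∑ h1 ∈ A2, ∑ h2 ∈ A3, ∑ k ∈ A4, f i t h1 h2 k := fun t => Finset.sum_comm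
  simp only [e3]
  rw [Finset.sum_comm]

theorem str_S4Err {C : ℕ} {C' : ℝ} (hCav : ∀ (w z : ℕ) (S : Finset ℕ), 1 ≤ w → PSet w z S →
    ∀ α β : ℤ, Cop S α → ∀ a b : ℤ, a ≤ b → (z : ℤ) * w ≤ b - a →
    ∑ h ∈ Finset.Ico a b, Ers (9 / 10) S (α * h + β) ≤
      (Finset.Ico a b).card * (C' * (w : ℝ) ^ (-(9 / 10 : ℝ))))
    {A w z W : ℕ} {S : Finset ℕ} (hw : 1 ≤ w) (hS : PSet w z S) (a0 : ℤ) {b c : ℕ}
    (hW : Cop S W) (hb : Cop S b) (hc : Cop S c) {x1 y1 x2 y2 x3 y3 : ℤ}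
    (h1 : x1 ≤ y1) (g1 : (z : ℤ) * w ≤ y1 - x1) (h2 : x2 ≤ y2) (g2 : (z : ℤ) * w ≤ y2 - x2)
    (h3 : x3 ≤ y3) (g3 : (z : ℤ) * w ≤ y3 - x3) (hC' : 1 ≤ C') (l : ℝ) (hl : 0 ≤ l) :
    S4 (Finset.Ico x1 y1) (Finset.Ico x2 y2) (Finset.Ico x2 y2) (Finset.Ico x3 y3)
      (fun t h1 h2 k => Err C A w z S (alf W ((b, c), (t, (h1, h2))))
        (bef W a0 ((b, c), (t, (h1, h2))) k) l) ≤
      (Finset.Ico x1 y1).card * (Finset.Ico x2 y2).card * (Finset.Ico x2 y2).card *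
        (Finset.Ico x3 y3).card *
        (l * (C * er C A w + C * (64 * (C' * (w : ℝ) ^ (-(9 / 10 : ℝ))))) +
          C * (z : ℝ) ^ (A + 8)) := by
  unfold Err
  rw [S4_add, S4_const, S4_mul, S4_add, S4_const, S4_mul, S4_sum]
  set N : ℝ := (Finset.Ico x1 y1).card * (Finset.Ico x2 y2).card * (Finset.Ico x2 y2).card *
        (Finset.Ico x3 y3).card with hN
  set η : ℝ := C' * (w : ℝ) ^ (-(9 / 10 : ℝ)) with hη
  have hN0 : 0 ≤ N := by positivity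
  have hη0 : 0 ≤ η := by positivity
  have h5 : ∑ i, S4 (Finset.Ico x1 y1) (Finset.Ico x2 y2) (Finset.Ico x2 y2) (Finset.Ico x3 y3)
      (fun t h1 h2 k => ∑ j ∈ Finset.univ.filter (fun j => i ≠ j),
        Ers (9 / 10) S (disc (alf W ((b, c), (t, (h1, h2))))
        (bef W a0 ((b, c), (t, (h1, h2))) k) i j)) ≤ 64 * (N * η) := by
    have h6 : ∀ i : Fin 8, S4 (Finset.Ico x1 y1) (Finset.Ico x2 y2) (Finset.Ico x2 y2)
      (Finset.Ico x3 y3) (fun t h1 h2 k => ∑ j ∈ Finset.univ.filter (fun j => i ≠ j),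
        Ers (9 / 10) S (disc (alf W ((b, c), (t, (h1, h2))))
        (bef W a0 ((b, c), (t, (h1, h2))) k) i j)) ≤ 8 * (N * η) := by
      intro i
      rw [S4_sum]
      have h7 : ∀ j ∈ Finset.univ.filter (fun j : Fin 8 => i ≠ j),
          S4 (Finset.Ico x1 y1) (Finset.Ico x2 y2) (Finset.Ico x2 y2) (Finset.Ico x3 y3)
          (fun t h1 h2 k => Ers (9 / 10) S (disc (alf W ((b, c), (t, (h1, h2))))
            (bef W a0 ((b, c), (t, (h1, h2))) k) i j)) ≤ N * η := by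
        intro j hj
        exact str_box hCav hw hS a0 hW hb hc h1 g1 h2 g2 h3 g3 i j (Finset.mem_filter.mp hj).2
      refine le_trans (Finset.sum_le_sum h7) ?_
      rw [Finset.sum_const, nsmul_eq_mul]
      apply mul_le_mul_of_nonneg_right _ (by positivity)
      have : (Finset.univ.filter (fun j : Fin 8 => i ≠ j)).card ≤ 8 := by
        refine le_trans (Finset.card_filter_le _ _) ?_
        simp
      exact_mod_cast this
    refine le_trans (Finset.sum_le_sum fun i _ => h6 i) ?_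
    rw [Finset.sum_const, nsmul_eq_mul]
    simp only [Finset.card_univ, Fintype.card_fin]
    apply le_of_eq
    push_cast
    ring
  have hCp : (0 : ℝ) ≤ C := Nat.cast_nonneg _
  have h8 := mul_le_mul_of_nonneg_left h5 (mul_nonneg hl hCp)
  nlinarith [h8]

/-- sums over `Tf` -/
theorem Tf_sum_le {M B : ℕ} {P : Finset ℕ} {H : Finset ℤ} (hH : H ⊆ Finset.Ioo (-(M : ℤ)) M)
    (f : Tup → ℝ) (hf : ∀ q, 0 ≤ f q) :
    ∑ q ∈ Tf M B P H, f q ≤ ∑ b ∈ P, ∑ c ∈ P,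
      ∑ t ∈ Finset.Ico (-((M / B : ℕ) : ℤ)) ((M / B : ℕ) + 1),
      ∑ h1 ∈ Finset.Ico (-(M : ℤ) + 1) M, ∑ h2 ∈ Finset.Ico (-(M : ℤ) + 1) M,
        f ((b, c), (t, (h1, h2))) := by
  have h1 : Tf M B P H ⊆ (P ×ˢ P) ×ˢ (Finset.Ico (-((M / B : ℕ) : ℤ)) ((M / B : ℕ) + 1) ×ˢ
      (Finset.Ico (-(M : ℤ) + 1) M ×ˢ Finset.Ico (-(M : ℤ) + 1) M)) := by
    intro q hq
    simp only [Tf, Finset.mem_filter, Finset.mem_product, Finset.mem_Icc] at hq
    obtain ⟨⟨⟨hb, hc⟩, ht, hh1, hh2⟩, -⟩ := hq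
    have g1 := hH hh1
    have g2 := hH hh2
    simp only [Finset.mem_Ioo] at g1 g2
    simp only [Finset.mem_product, Finset.mem_Ico]
    exact ⟨⟨hb, hc⟩, ⟨by omega, by omega⟩, ⟨by omega, by omega⟩, by omega, by omega⟩
  refine le_trans (Finset.sum_le_sum_of_subset_of_nonneg h1 fun q _ _ => hf q) ?_
  apply le_of_eq
  rw [Finset.sum_product, Finset.sum_product]
  refine Finset.sum_congr rfl fun b _ => Finset.sum_congr rfl fun c _ => ?_
  rw [Finset.sum_product]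
  refine Finset.sum_congr rfl fun t _ => ?_
  rw [Finset.sum_product]

theorem str_Q : ∃ K : ℕ, 1 ≤ K ∧ ∀ (A w z W B M : ℕ) (S : Finset ℕ) (r a0 : ℤ) (P : Finset ℕ)
    (H : Finset ℤ) (θ : ℤ → ℝ), K ≤ A → K ≤ w → w ≤ z → PSet w z S → Cop S W →
    (∀ b ∈ P, Cop S b) → H ⊆ Finset.Ioo (-(M : ℤ)) M → 0 < B → z ^ (A + 10) ≤ M / B →
    ∑ q ∈ Tf M B P H,
      ‖∑ a ∈ Jf W r a0 M B q, ((omf S W a0 q a - 4 : ℝ) : ℂ) * e (xif θ q * a)‖ ^ 2 ≤
    K * er K A w * (P.card : ℝ) ^ 2 * ((M / B : ℕ) : ℝ) ^ 3 * (M : ℝ) ^ 2 := by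
  obtain ⟨C, hC1, hC⟩ := str_corr
  obtain ⟨C', hC1', hC'⟩ := str_av
  set K : ℕ := ⌈1728 * (3 * C + 128 * C * C')⌉₊ + C + 2 with hK
  have hKC : C ≤ K := by omega
  have hK2 : 2 ≤ K := by omega
  refine ⟨K, by omega, ?_⟩
  intro A w z W B M S r a0 P H θ hA hw hwz hS hcW hcP hH hB hzm
  set m := M / B with hm
  have hw1 : 1 ≤ w := by omega
  have hz2 : 2 ≤ z := by omega
  have hmM : m ≤ M := Nat.div_le_self _ _
  have hzw : z * w ≤ m := by
    calc z * w ≤ z * z := Nat.mul_le_mul_left _ hwz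
      _ = z ^ 2 := by ring
      _ ≤ z ^ (A + 10) := Nat.pow_le_pow_right (by omega) (by omega)
      _ ≤ m := hzm
  have hm5 : 5 ≤ m := by
    calc 5 ≤ 2 ^ 10 := by norm_num
      _ ≤ z ^ 10 := Nat.pow_le_pow_left hz2 10
      _ ≤ z ^ (A + 10) := Nat.pow_le_pow_right (by omega) (by omega)
      _ ≤ m := hzm
  have hzw' : (z : ℤ) * w ≤ m := by exact_mod_cast hzw
  -- one tuple
  have hone : ∀ q ∈ Tf M B P H,
      ‖∑ a ∈ Jf W r a0 M B q, ((omf S W a0 q a - 4 : ℝ) : ℂ) * e (xif θ q * a)‖ ^ 2 ≤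
      ∑ k ∈ Finset.Ico (-((m + 3 : ℕ) : ℤ) + 1) ((m + 3 : ℕ) : ℤ),
        48 * Err C A w z S (alf W q) (bef W a0 q k) (m + 3) := by
    intro q hq
    have hJ : Jf W r a0 M B q ⊆ Finset.Ico (-2 : ℤ) (-2 + ((m + 3 : ℕ) : ℤ)) := by
      have := Jf_sub W r a0 M B q
      refine this.trans (Finset.Ico_subset_Ico le_rfl ?_)
      push_cast
      omega
    have hv := str_vdc (-2) (m + 3) (Jf W r a0 M B q) hJ (fun a => omf S W a0 q a - 4) (xif θ q)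
    refine le_trans hv ?_
    have hIoo : Finset.Ioo (-((m + 3 : ℕ) : ℤ)) ((m + 3 : ℕ) : ℤ) =
        Finset.Ico (-((m + 3 : ℕ) : ℤ) + 1) ((m + 3 : ℕ) : ℤ) := by
      ext x; simp only [Finset.mem_Ioo, Finset.mem_Ico]; omega
    rw [hIoo]
    refine Finset.sum_le_sum fun k _ => ?_
    -- the interval
    have hconn : ∀ x ∈ (Jf W r a0 M B q).filter (fun a => a + k ∈ Jf W r a0 M B q),
        ∀ y ∈ (Jf W r a0 M B q).filter (fun a => a + k ∈ Jf W r a0 M B q), ∀ v, x ≤ v → v ≤ y →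
        v ∈ (Jf W r a0 M B q).filter (fun a => a + k ∈ Jf W r a0 M B q) := by
      intro x hx y hy v h1 h2
      rw [Finset.mem_filter] at hx hy ⊢
      exact ⟨Jf_conn W r a0 M B q x hx.1 y hy.1 v h1 h2,
        Jf_conn W r a0 M B q (x + k) hx.2 (y + k) hy.2 (v + k) (by omega) (by omega)⟩
    obtain ⟨a, b, hab, hJab⟩ := str_conn _ hconn
    rw [hJab]
    have hl : (b : ℝ) - a ≤ m + 3 := by
      have h1 : (Finset.Ico a b).card ≤ (Finset.Ico (-2 : ℤ) (-2 + ((m + 3 : ℕ) : ℤ))).card := by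
        rw [← hJab]
        exact Finset.card_le_card ((Finset.filter_subset _ _).trans hJ)
      rw [Int.card_Ico, Int.card_Ico] at h1
      have h2 : b - a ≤ m + 3 := by omega
      exact_mod_cast h2
    have hα : ∀ p ∈ S, ∀ i, ¬ (p : ℤ) ∣ alf W q i := by
      intro p hp i
      simp only [Tf, Finset.mem_filter, Finset.mem_product] at hq
      obtain ⟨⟨⟨hb, hc⟩, -⟩, -⟩ := hq
      have c1 := hcW p hp
      have c2 := (hcW.mul hS.prime (hcP _ hb)) p hp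
      have c3 := (hcW.mul hS.prime (hcP _ hc)) p hp
      fin_cases i <;> simp only [alf, Fin.zero_eta, Fin.mk_one, Fin.reduceFinMk,
        Matrix.cons_val_zero, Matrix.cons_val_one, Matrix.cons_val] <;> assumption
    have hcr := hC A w z S (le_trans hKC hA) (le_trans hKC hw) hz2 hS (alf W q) (bef W a0 q k) hα
    refine le_trans (str_qq (fun T => hcr T a b hab) hab) ?_
    exact mul_le_mul_of_nonneg_left (Err_mono _ _ _ _ _ _ _ hl) (by norm_num)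
  refine le_trans (Finset.sum_le_sum hone) ?_
  have hE0 : ∀ q k, 0 ≤ Err C A w z S (alf W q) (bef W a0 q k) (m + 3) :=
    fun q k => Err_nonneg _ _ _ _ _ _ _ _ (by positivity)
  refine le_trans (Tf_sum_le hH _ fun q => Finset.sum_nonneg fun k _ =>
    mul_nonneg (by norm_num) (hE0 q k)) ?_
  -- sum over the box
  set N : ℝ := (Finset.Ico (-(m : ℤ)) (m + 1)).card * (Finset.Ico (-(M : ℤ) + 1) M).card *
    (Finset.Ico (-(M : ℤ) + 1) M).card *
    (Finset.Ico (-((m + 3 : ℕ) : ℤ) + 1) ((m + 3 : ℕ) : ℤ)).card with hN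
  set X : ℝ := ((m : ℝ) + 3) * (C * er C A w + C * (64 * (C' * (w : ℝ) ^ (-(9 / 10 : ℝ))))) +
          C * (z : ℝ) ^ (A + 8) with hX
  have hbc : ∀ b ∈ P, ∀ c ∈ P, ∑ t ∈ Finset.Ico (-(m : ℤ)) (m + 1),
      ∑ h1 ∈ Finset.Ico (-(M : ℤ) + 1) M, ∑ h2 ∈ Finset.Ico (-(M : ℤ) + 1) M,
        ∑ k ∈ Finset.Ico (-((m + 3 : ℕ) : ℤ) + 1) ((m + 3 : ℕ) : ℤ),
        48 * Err C A w z S (alf W ((b, c), (t, (h1, h2)))) (bef W a0 ((b, c), (t, (h1, h2))) k)
          (m + 3) ≤ 48 * (N * X) := by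
    intro b hb c hc
    have h1 := str_S4Err (C := C) (A := A) hC' hw1 hS a0 hcW (hcP b hb) (hcP c hc)
      (x1 := -(m : ℤ)) (y1 := m + 1) (x2 := -(M : ℤ) + 1) (y2 := M)
      (x3 := -((m + 3 : ℕ) : ℤ) + 1) (y3 := ((m + 3 : ℕ) : ℤ)) (by omega) (by omega) (by omega)
      (by omega) (by push_cast; omega) (by push_cast; omega) hC1' ((m : ℝ) + 3) (by positivity)
    have h2 := S4_mul (A1 := Finset.Ico (-(m : ℤ)) (m + 1)) (A2 := Finset.Ico (-(M : ℤ) + 1) M)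
      (A3 := Finset.Ico (-(M : ℤ) + 1) M)
      (A4 := Finset.Ico (-((m + 3 : ℕ) : ℤ) + 1) ((m + 3 : ℕ) : ℤ)) 48
      (fun t h1 h2 k => Err C A w z S (alf W ((b, c), (t, (h1, h2))))
        (bef W a0 ((b, c), (t, (h1, h2))) k) (m + 3))
    have h3 := mul_le_mul_of_nonneg_left h1 (by norm_num : (0 : ℝ) ≤ 48)
    rw [← h2] at h3
    exact h3
  refine le_trans (Finset.sum_le_sum fun b hb => Finset.sum_le_sum fun c hc => hbc b hb c hc) ?_
  simp only [Finset.sum_const, nsmul_eq_mul]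
  -- numerical bounds
  have hm5' : (5 : ℝ) ≤ m := by exact_mod_cast hm5
  have hM5' : (5 : ℝ) ≤ M := by exact_mod_cast le_trans hm5 hmM
  have hN' : N ≤ 36 * (m : ℝ) ^ 2 * (M : ℝ) ^ 2 := by
    rw [hN]
    simp only [Int.card_Ico]
    have e1 : (((m : ℤ) + 1 - -(m : ℤ)).toNat : ℝ) ≤ 3 * m := by
      have : ((m : ℤ) + 1 - -(m : ℤ)).toNat ≤ 3 * m := by omega
      exact_mod_cast this
    have e2 : (((M : ℤ) - (-(M : ℤ) + 1)).toNat : ℝ) ≤ 2 * M := by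
      have : ((M : ℤ) - (-(M : ℤ) + 1)).toNat ≤ 2 * M := by omega
      exact_mod_cast this
    have e3 : ((((m + 3 : ℕ) : ℤ) - (-((m + 3 : ℕ) : ℤ) + 1)).toNat : ℝ) ≤ 3 * m := by
      have : (((m + 3 : ℕ) : ℤ) - (-((m + 3 : ℕ) : ℤ) + 1)).toNat ≤ 3 * m := by omega
      exact_mod_cast this
    calc _ ≤ (3 * (m : ℝ)) * (2 * M) * (2 * M) * (3 * m) := by gcongr
      _ = _ := by ring
  have hw' : (1 : ℝ) ≤ w := by exact_mod_cast hw1
  have hz1' : (1 : ℝ) ≤ z := by exact_mod_cast (by omega : 1 ≤ z)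
  have hK' : (0 : ℝ) < K := by exact_mod_cast (by omega : 0 < K)
  have q1 : er C A w ≤ er K A w := str_er_mono hC1 hKC hw1
  have q2 : (w : ℝ) ^ (-(9 / 10 : ℝ)) ≤ er K A w := by
    have h1 : (w : ℝ) ^ (-(9 / 10 : ℝ)) ≤ (w : ℝ) ^ (-(1 : ℝ) / K) := by
      apply Real.rpow_le_rpow_of_exponent_le hw'
      rw [neg_div, neg_le_neg_iff, div_le_iff₀ hK']
      have : (2 : ℝ) ≤ K := by exact_mod_cast hK2
      linarith
    refine le_trans h1 ?_
    unfold er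
    have : (0 : ℝ) ≤ (2 : ℝ) ^ (-(A : ℝ) / K) := Real.rpow_nonneg (by norm_num) _
    linarith
  have q3 : (z : ℝ) ^ (A + 8) ≤ m * er K A w := by
    have h1 : (w : ℝ)⁻¹ ≤ er K A w := by
      refine le_trans ?_ q2
      rw [← Real.rpow_neg_one]
      exact Real.rpow_le_rpow_of_exponent_le hw' (by norm_num)
    have h2 : (z : ℝ) ^ (A + 8) * w ≤ m := by
      have : z ^ (A + 8) * w ≤ m := by
        calc z ^ (A + 8) * w ≤ z ^ (A + 8) * z := Nat.mul_le_mul_left _ hwz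
          _ = z ^ (A + 9) := by ring
          _ ≤ z ^ (A + 10) := Nat.pow_le_pow_right (by omega) (by omega)
          _ ≤ m := hzm
      exact_mod_cast this
    calc (z : ℝ) ^ (A + 8) = ((z : ℝ) ^ (A + 8) * w) * (w : ℝ)⁻¹ := by field_simp
      _ ≤ m * er K A w := by
        apply mul_le_mul h2 h1 (by positivity) (by positivity)
  have her := er_nonneg K A w
  have hC0 : (0 : ℝ) ≤ C := Nat.cast_nonneg _
  have hX' : X ≤ (3 * C + 128 * C * C') * (m * er K A w) := by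
    rw [hX]
    have h1 : (m : ℝ) + 3 ≤ 2 * m := by linarith
    have h2 : (C : ℝ) * er C A w + C * (64 * (C' * (w : ℝ) ^ (-(9 / 10 : ℝ)))) ≤
        C * er K A w + C * (64 * (C' * er K A w)) := by gcongr
    have h3 : (0 : ℝ) ≤ C * er K A w + C * (64 * (C' * er K A w)) := by positivity
    calc ((m : ℝ) + 3) * (C * er C A w + C * (64 * (C' * (w : ℝ) ^ (-(9 / 10 : ℝ))))) +
          C * (z : ℝ) ^ (A + 8) ≤ 2 * m * (C * er K A w + C * (64 * (C' * er K A w))) +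
          C * (m * er K A w) := by
            apply add_le_add
            · apply mul_le_mul h1 h2 _ (by positivity)
              have := er_nonneg C A w
              positivity
            · exact mul_le_mul_of_nonneg_left q3 hC0
      _ = _ := by ring
  have hX0 : 0 ≤ (3 * C + 128 * C * C') * (m * er K A w) := by positivity
  have hKbig : 1728 * (3 * C + 128 * C * C') ≤ (K : ℝ) := by
    have h1 := Nat.le_ceil (1728 * (3 * (C : ℝ) + 128 * C * C'))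
    rw [hK]
    push_cast
    have : (0 : ℝ) ≤ C := hC0
    linarith
  have hN0 : 0 ≤ N := by positivity
  calc (P.card : ℝ) * ((P.card : ℝ) * (48 * (N * X))) = (P.card : ℝ) ^ 2 * (48 * (N * X)) := by ring
    _ ≤ (P.card : ℝ) ^ 2 * (48 * ((36 * (m : ℝ) ^ 2 * (M : ℝ) ^ 2) *
        ((3 * C + 128 * C * C') * (m * er K A w)))) := by
        apply mul_le_mul_of_nonneg_left _ (by positivity)
        apply mul_le_mul_of_nonneg_left _ (by norm_num)
        exact le_trans (mul_le_mul_of_nonneg_left hX' hN0) (mul_le_mul_of_nonneg_right hN' hX0)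
    _ = (1728 * (3 * C + 128 * C * C')) * (er K A w * (P.card : ℝ) ^ 2 * (m : ℝ) ^ 3 *
        (M : ℝ) ^ 2) := by ring
    _ ≤ K * (er K A w * (P.card : ℝ) ^ 2 * (m : ℝ) ^ 3 * (M : ℝ) ^ 2) := by
        apply mul_le_mul_of_nonneg_right hKbig
        positivity
    _ = _ := by ring

end Pool.Agent.Lib.H18GB
end
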