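import Pool.Agent.Lib.H1M.RV.M025

/-! Merged copies (to shorten the build) of Lib.H18GB.DecD. -/

-- from Lib.H18GB.DecD
section

/-!
# Project GB: DEC, auxiliary lemmas IV (the logarithm)
-/

namespace Pool.Agent.Lib.H18GB

open Finset Pool.Agent.Lib.Sieve

theorem dec_lam_nonneg (W : ℕ) (r n : ℤ) : 0 ≤ lam W r n := by
  unfold lam lamv
  split_ifs
  · exact mul_nonneg (by positivity) (Real.log_natCast_nonneg _)
  · exact le_rfl

open Classical in
/-- the term of the logarithm error -/
noncomputable def dec_tA (W z M : ℕ) (r n : ℤ) : ℝ :=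
  if (z : ℤ) < r + W * n then |lam W r n - (Nat.totient W / W : ℝ) * Real.log (W * M) *
    (if (r + W * n).toNat.Prime then 1 else 0)| else 0

theorem dec_tA_le {W z M : ℕ} {r n : ℤ} (hW : 0 < W) (hM : 2 ≤ M) (hr : |r| < 2 * W) (hn : n < M)
    (hz : 1 ≤ z) {A : ℝ} (hA : 0 ≤ A)
    (h : ∀ m : ℕ, r + W * n = m → z < m → m ≤ 2 * W * M →
      |Real.log m - Real.log (W * M)| ≤ A * Real.log m) :
    dec_tA W z M r n ≤ A * lam W r n := by
  unfold dec_tA
  by_cases h1 : (z : ℤ) < r + W * n
  · rw [if_pos h1]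
    have hmv : r + W * n = ((r + W * n).toNat : ℤ) := (Int.toNat_of_nonneg (by omega)).symm
    set m := (r + W * n).toNat with hm
    have hmz : z < m := by omega
    have hmle : m ≤ 2 * W * M := by
      have h3 : (m : ℤ) ≤ 2 * W * M := by
        rw [← hmv]
        have h4 := (abs_lt.mp hr).2
        have h5 : n + 1 ≤ M := by omega
        have h6 : (0 : ℤ) < W := by exact_mod_cast hW
        have hM' : (2 : ℤ) ≤ M := by exact_mod_cast hM
        nlinarith
      exact_mod_cast h3
    have hlam : lam W r n = if m.Prime then (Nat.totient W / W : ℝ) * Real.log m else 0 := by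
      unfold lam lamv
      rw [hmv]
      simp
    rw [hlam]
    by_cases hp : m.Prime
    · rw [if_pos hp, if_pos hp, mul_one, ← mul_sub, abs_mul, abs_of_nonneg (by positivity :
        (0 : ℝ) ≤ (Nat.totient W / W : ℝ))]
      have := h m hmv hmz hmle
      calc (Nat.totient W / W : ℝ) * |Real.log m - Real.log (W * M)|
          ≤ (Nat.totient W / W : ℝ) * (A * Real.log m) :=
            mul_le_mul_of_nonneg_left this (by positivity)
        _ = A * ((Nat.totient W / W : ℝ) * Real.log m) := by ring
    · rw [if_neg hp, if_neg hp]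
      simp
  · rw [if_neg h1]
    exact mul_nonneg hA (dec_lam_nonneg _ _ _)

theorem dec_sum_lam_le {W M M' : ℕ} {r : ℤ} {δ : ℝ}
    (h : |∑ n ∈ Finset.Ico (0 : ℤ) M', uu W r n| ≤ δ * M) :
    ∑ n ∈ Finset.Ico (0 : ℤ) M', lam W r n ≤ M' + δ * M := by
  have h1 := (abs_le.mp h).2
  unfold uu at h1
  rw [Finset.sum_sub_distrib, Finset.sum_const, Int.card_Ico] at h1
  simp at h1
  linarith

/-- the sum of the logarithm errors -/
theorem dec_A (s : ℕ) (hs : 1 ≤ s) (W : ℕ) (hW : 0 < W) (ε : ℝ) (hε : 0 < ε) (hε1 : ε ≤ 1) :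
    ∃ M0 : ℕ, ∀ M : ℕ, M0 ≤ M → ∀ r : ℤ, |r| < 2 * W → IsCoprime r (W : ℤ) →
      ∑ n ∈ Finset.Ico (0 : ℤ) M, dec_tA W (rt s M) M r n ≤ ε * M := by
  have hs' : (1 : ℝ) ≤ s := by exact_mod_cast hs
  have hW' : (1 : ℝ) ≤ W := by exact_mod_cast hW
  set σ : ℝ := ε / (32 * s) with hσ
  have hσ0 : 0 < σ := by positivity
  have hσ1 : σ ≤ 1 / 32 := by
    rw [hσ, div_le_div_iff₀ (by positivity) (by norm_num)]
    nlinarith
  obtain ⟨M1, hM1⟩ := pntlam W hW σ hσ0
  obtain ⟨M2, hM2⟩ := log_le_rt hs
  have hrt := rt_tendsto hs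
  -- growth conditions
  have hlog : Filter.Tendsto (fun M : ℕ => Real.log M) Filter.atTop Filter.atTop :=
    Real.tendsto_log_atTop.comp tendsto_natCast_atTop_atTop
  have hev : ∀ᶠ M : ℕ in Filter.atTop, (2 ≤ rt s M) ∧ 64 / (σ * ε) ≤ Real.log M ∧
      Real.log (2 * W) ≤ Real.log M ∧ 4 / (σ ^ 2) ≤ (M : ℝ) ∧ 32 * s / ε ≤ (M : ℝ) ∧ M1 ≤ M ∧
      M2 ≤ M ∧ 2 ≤ M := by
    have e1 := hrt.eventually_ge_atTop 2
    have e2 := hlog.eventually_ge_atTop (64 / (σ * ε))
    have e3 := hlog.eventually_ge_atTop (Real.log (2 * W))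
    have e4 := (tendsto_natCast_atTop_atTop (R := ℝ)).eventually_ge_atTop (4 / (σ ^ 2))
    have e5 := (tendsto_natCast_atTop_atTop (R := ℝ)).eventually_ge_atTop (32 * s / ε)
    filter_upwards [e1, e2, e3, e4, e5, Filter.eventually_ge_atTop M1,
      Filter.eventually_ge_atTop M2, Filter.eventually_ge_atTop 2] with M a b c d e f g h
    exact ⟨a, b, c, d, e, f, g, h⟩
  obtain ⟨M0, hM0⟩ := Filter.eventually_atTop.mp hev
  refine ⟨M0, fun M hM r hr hcop => ?_⟩
  obtain ⟨hz2, hL, hL2, hMσ, hMs, hMM1, hMM2, hM2'⟩ := hM0 M hM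
  have hMpos : (2 : ℝ) ≤ M := by exact_mod_cast hM2'
  have hlogM : 0 < Real.log M := Real.log_pos (by linarith)
  have hrtlog := hM2 M hMM2
  set z := rt s M with hz
  have hzr : (2 : ℝ) ≤ z := by exact_mod_cast hz2
  have hlogz : 0 < Real.log z := Real.log_pos (by linarith)
  -- upper bound for the logarithms
  have hWM : Real.log (W * M) ≤ 2 * Real.log M := by
    rw [Real.log_mul (by positivity) (by positivity)]
    have : Real.log W ≤ Real.log (2 * W) := Real.log_le_log (by positivity) (by linarith)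
    linarith
  have hWM0 : 0 ≤ Real.log (W * M) := Real.log_nonneg (by nlinarith)
  set M' : ℕ := ⌈σ * M⌉₊ with hM'
  have hM'le : M' ≤ M := by
    rw [hM']
    apply Nat.ceil_le.mpr
    nlinarith
  have hM'le2 : (M' : ℝ) ≤ σ * M + 1 := (Nat.ceil_lt_add_one (by positivity)).le
  have hM'ge : σ * M ≤ M' := Nat.le_ceil _
  -- small n
  have hsmall : ∀ n : ℤ, n < M → dec_tA W z M r n ≤ 4 * s * lam W r n := by
    intro n hn
    apply dec_tA_le hW hM2' hr hn (by omega) (by positivity)
    intro m _ hmz hmle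
    have hm0 : (0 : ℝ) < m := by
      have : 0 < m := by omega
      exact_mod_cast this
    have hlm : Real.log z ≤ Real.log m := by
      apply Real.log_le_log (by linarith)
      exact_mod_cast hmz.le
    have hlm2 : Real.log m ≤ 2 * Real.log M := by
      have h1 : Real.log m ≤ Real.log (2 * W * M) := by
        apply Real.log_le_log hm0
        exact_mod_cast hmle
      rw [Real.log_mul (by positivity) (by positivity)] at h1
      linarith
    have hlm3 : Real.log M ≤ 2 * s * Real.log m :=
      hrtlog.trans (mul_le_mul_of_nonneg_left hlm (by positivity))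
    rw [abs_le]
    constructor
    · nlinarith
    · have : 0 ≤ Real.log m := hlogz.le.trans hlm
      nlinarith
  -- large n
  have hlarge : ∀ n : ℤ, n < M → (M' : ℤ) ≤ n → dec_tA W z M r n ≤ (4 / (σ * Real.log M)) * lam W r n := by
    intro n hn hn'
    apply dec_tA_le hW hM2' hr hn (by omega) (by positivity)
    intro m hmv hmz hmle
    have hm0 : (0 : ℝ) < m := by
      have : 0 < m := by omega
      exact_mod_cast this
    -- m ≥ (σ/2) W M
    have hmge : σ / 2 * (W * M) ≤ m := by
      have h1 : (m : ℤ) ≥ -(2 * W) + W * M' := by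
        rw [← hmv]
        have h4 := (abs_lt.mp hr).1
        have h6 : (0 : ℤ) < W := by exact_mod_cast hW
        nlinarith
      have h2 : (m : ℝ) ≥ -(2 * W) + W * M' := by exact_mod_cast h1
      have h3 : 4 ≤ σ * M := by
        have h5 : 4 ≤ σ ^ 2 * M := by
          rw [div_le_iff₀ (by positivity)] at hMσ
          linarith
        nlinarith
      have h7 : (W : ℝ) * (σ * M) ≤ W * M' := mul_le_mul_of_nonneg_left hM'ge (by positivity)
      nlinarith
    have hlow : Real.log (W * M) - Real.log m ≤ 2 / σ := by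
      have h1 : (W : ℝ) * M ≤ (2 / σ) * m := by
        rw [div_mul_eq_mul_div, le_div_iff₀ hσ0]
        nlinarith
      have h2 : Real.log (W * M) ≤ Real.log ((2 / σ) * m) :=
        Real.log_le_log (by positivity) h1
      rw [Real.log_mul (by positivity) hm0.ne'] at h2
      have h3 : Real.log (2 / σ) ≤ 2 / σ := (Real.log_le_sub_one_of_pos (by positivity)).trans
        (by linarith)
      linarith
    have hup : Real.log m - Real.log (W * M) ≤ 2 / σ := by
      have h1 : (m : ℝ) ≤ 2 * (W * M) := by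
        have : (m : ℝ) ≤ 2 * W * M := by exact_mod_cast hmle
        linarith
      have h2 := Real.log_le_log hm0 h1
      rw [Real.log_mul (by norm_num) (by positivity)] at h2
      have h3 : Real.log 2 ≤ 1 := by
        have := Real.log_two_lt_d9
        linarith
      have h4 : (1 : ℝ) ≤ 2 / σ := by
        rw [le_div_iff₀ hσ0]
        linarith
      linarith
    have hhalf : Real.log M ≤ 2 * Real.log m := by
      have h1 : (M : ℝ) ≤ (m : ℝ) ^ 2 := by
        have h2 : σ / 2 * M ≤ m := by
          refine le_trans ?_ hmge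
          have : (M : ℝ) ≤ W * M := by nlinarith
          exact mul_le_mul_of_nonneg_left this (by positivity)
        have h3 : (σ / 2 * M) ^ 2 ≤ (m : ℝ) ^ 2 := pow_le_pow_left₀ (by positivity) h2 2
        have h4 : (M : ℝ) ≤ (σ / 2 * M) ^ 2 := by
          have h5 : 4 ≤ σ ^ 2 * M := by
            rw [div_le_iff₀ (by positivity)] at hMσ
            linarith
          nlinarith
        linarith
      have h2 := Real.log_le_log (by linarith) h1
      rw [Real.log_pow] at h2
      exact_mod_cast h2
    have hfin : 2 / σ ≤ 4 / (σ * Real.log M) * Real.log m := by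
      rw [div_mul_eq_mul_div, div_le_div_iff₀ hσ0 (by positivity)]
      nlinarith
    rw [abs_le]
    constructor <;> linarith
  have h0 : ∀ n, 0 ≤ lam W r n := dec_lam_nonneg W r
  have hS1 := dec_sum_lam_le (hM1 M hMM1 r hr hcop (M' : ℤ) (by positivity) (by exact_mod_cast hM'le))
  have hS2 := dec_sum_lam_le (hM1 M hMM1 r hr hcop (M : ℤ) (by positivity) le_rfl)
  calc ∑ n ∈ Finset.Ico (0 : ℤ) M, dec_tA W z M r n
      ≤ ∑ n ∈ Finset.Ico (0 : ℤ) M, ((4 / (σ * Real.log M)) * lam W r n +
          (if n < M' then 4 * s * lam W r n else 0)) := by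
        refine Finset.sum_le_sum fun n hn => ?_
        rw [Finset.mem_Ico] at hn
        split_ifs with h
        · have h1 := hsmall n hn.2
          have h2 : 0 ≤ (4 / (σ * Real.log M)) * lam W r n := mul_nonneg (by positivity) (h0 n)
          linarith
        · rw [add_zero]
          exact hlarge n hn.2 (by omega)
    _ = (4 / (σ * Real.log M)) * ∑ n ∈ Finset.Ico (0 : ℤ) M, lam W r n +
          4 * s * ∑ n ∈ Finset.Ico (0 : ℤ) M', lam W r n := by
        rw [Finset.sum_add_distrib, ← Finset.mul_sum, ← Finset.sum_filter, ← Finset.mul_sum]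
        congr 3
        ext n
        rw [Finset.mem_filter, Finset.mem_Ico, Finset.mem_Ico]
        constructor
        · rintro ⟨⟨a, b⟩, c⟩; exact ⟨a, c⟩
        · rintro ⟨a, c⟩
          exact ⟨⟨a, by omega⟩, c⟩
    _ ≤ (4 / (σ * Real.log M)) * (2 * M) + 4 * s * (σ * M + 1 + σ * M) := by
        apply add_le_add
        · apply mul_le_mul_of_nonneg_left _ (by positivity)
          nlinarith
        · apply mul_le_mul_of_nonneg_left _ (by positivity)
          linarith
    _ ≤ ε * M := by
        have h1 : (4 / (σ * Real.log M)) * (2 * M) ≤ ε / 8 * M := by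
          have h2 : 64 ≤ σ * ε * Real.log M := by
            rw [div_le_iff₀ (by positivity)] at hL
            linarith
          rw [div_mul_eq_mul_div, div_le_iff₀ (by positivity)]
          nlinarith
        have h2 : 4 * s * σ = ε / 8 := by
          rw [hσ]
          field_simp
          ring
        have h3 : 4 * (s : ℝ) ≤ ε / 8 * M := by
          rw [div_le_iff₀ hε] at hMs
          linarith
        nlinarith

end Pool.Agent.Lib.H18GB
end
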