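import Pool.Agent.Lib.H1M.RV.M032

/-! Merged copies (to shorten the build) of Lib.H18GB.DecE, Lib.H18GB.DecF. -/

-- from Lib.H18GB.DecE
section

/-!
# Project GB: DEC, auxiliary lemmas V
-/

namespace Pool.Agent.Lib.H18GB

open Finset Pool.Agent.Lib.Sieve

theorem dec_cN_small {z j m : ℕ} (h : m ≤ z) : dec_cN z j m = 0 := by
  classical
  unfold dec_cN
  rw [Finset.card_eq_zero]
  apply Finset.filter_eq_empty_iff.mpr
  rintro b hb ⟨h1, h2, -⟩
  have hb1 := (dec_mem_Pj.mp hb).1.1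
  have h2j : z ≤ z * 2 ^ j := Nat.le_mul_of_pos_right _ (by positivity)
  rcases Nat.eq_zero_or_pos m with h0 | h0
  · rw [h0] at h2
    simp at h2
  · have := Nat.le_of_dvd h0 h1
    omega

theorem dec_fII_toNat {W z : ℕ} (j : ℕ) {r n : ℤ} (h0 : r + W * n ≠ 0) (h : -(z : ℤ) ≤ r + W * n) :
    fII W r (Pj z j) (βj z j) n = (dec_cN z j (r + W * n).toNat : ℂ) := by
  rcases le_or_gt 0 (r + W * n) with h1 | h1
  · exact dec_fII_nat W z j r n _ (Int.toNat_of_nonneg h1).symm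
  · rw [dec_fII_zero W z j r n h0 (by rw [abs_of_neg h1]; omega), Int.toNat_of_nonpos h1.le,
      dec_cN_small (Nat.zero_le _)]
    simp

theorem dec_rho_mul {S : Finset ℕ} (hS : ∀ p ∈ S, p.Prime) (Λ : ℝ) (v : ℤ) [Decidable (Rgh S v)] :
    Λ * VV S * rho S v = Λ * (if Rgh S v then 1 else 0) := by
  unfold rho
  have := VV_pos hS
  split_ifs
  · field_simp
  · simp

theorem dec_sum_sq_inv_le {L : ℝ} (hL : 1 ≤ L) (J : ℕ) :
    ∑ j ∈ Finset.range J, 1 / (L + j / 2) ^ 2 ≤ 3 / L := by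
  have key : ∀ J : ℕ, ∑ j ∈ Finset.range J, 1 / (L + j / 2) ^ 2 ≤ 3 / L - 3 / (L + J / 2) := by
    intro J
    induction J with
    | zero => simp
    | succ J ih =>
      rw [Finset.sum_range_succ]
      have hx : 1 ≤ L + (J : ℝ) / 2 := by
        have : (0 : ℝ) ≤ (J : ℝ) / 2 := by positivity
        linarith
      have h1 : 1 / (L + (J : ℝ) / 2) ^ 2 ≤
          3 / (L + (J : ℝ) / 2) - 3 / (L + ((J + 1 : ℕ) : ℝ) / 2) := by
        set x := L + (J : ℝ) / 2 with hxd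
        have h2 : L + ((J + 1 : ℕ) : ℝ) / 2 = x + 1 / 2 := by
          rw [hxd]; push_cast; ring
        rw [h2]
        have hx0 : 0 < x := by linarith
        rw [div_sub_div _ _ hx0.ne' (by linarith), div_le_div_iff₀ (by positivity) (by positivity)]
        nlinarith
      linarith
  have h := key J
  have h2 : (0 : ℝ) ≤ 3 / (L + J / 2) := by positivity
  linarith

theorem dec_sum_block_sq {z J : ℕ} (hz : 1 ≤ Real.log z) (hz0 : 1 ≤ z) :
    ∑ j ∈ Finset.range J, (3 / Real.log ((z * 2 ^ j : ℕ) : ℝ)) ^ 2 ≤ 27 / Real.log z := by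
  have hz1 : (0 : ℝ) < z := by exact_mod_cast hz0
  calc ∑ j ∈ Finset.range J, (3 / Real.log ((z * 2 ^ j : ℕ) : ℝ)) ^ 2
      ≤ ∑ j ∈ Finset.range J, 9 * (1 / (Real.log z + j / 2) ^ 2) := by
        refine Finset.sum_le_sum fun j _ => ?_
        have h1 : Real.log z + j / 2 ≤ Real.log ((z * 2 ^ j : ℕ) : ℝ) := by
          push_cast
          rw [Real.log_mul hz1.ne' (by positivity), Real.log_pow]
          have := Real.log_two_gt_d9
          have hj : (0 : ℝ) ≤ j := Nat.cast_nonneg j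
          nlinarith
        have h0 : 0 < Real.log z + (j : ℝ) / 2 := by
          have hj : (0 : ℝ) ≤ j := Nat.cast_nonneg j
          linarith
        have h2 : (Real.log z + (j : ℝ) / 2) ^ 2 ≤ Real.log ((z * 2 ^ j : ℕ) : ℝ) ^ 2 :=
          pow_le_pow_left₀ h0.le h1 2
        have h3 := one_div_le_one_div_of_le (by positivity) h2
        have h4 : (3 / Real.log ((z * 2 ^ j : ℕ) : ℝ)) ^ 2 =
            9 * (1 / Real.log ((z * 2 ^ j : ℕ) : ℝ) ^ 2) := by
          rw [div_pow]; ring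
        rw [h4]
        linarith
    _ = 9 * ∑ j ∈ Finset.range J, 1 / (Real.log z + j / 2) ^ 2 := by rw [Finset.mul_sum]
    _ ≤ 9 * (3 / Real.log z) := mul_le_mul_of_nonneg_left (dec_sum_sq_inv_le hz J) (by norm_num)
    _ = 27 / Real.log z := by ring

open Classical in
/-- pointwise bound for the error -/
theorem dec_err_le {w W z J M : ℕ} {r n : ℤ} (hW : IsW w W) (hW2 : 2 ≤ W) (hcop : IsCoprime r (W : ℤ))
    (hr : |r| < 2 * W) (hn0 : 0 ≤ n) (hz : 2 * W ≤ z) (hM : 1 ≤ M)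
    (hzM : z ≤ M) (hWM : Real.log (W * M) ≤ 2 * Real.log M) {Λ : ℝ}
    (hΛ : Λ = (Nat.totient W / W : ℝ) * Real.log (W * M)) :
    |lam W r n - Λ * (if Rgh (sprimes w z) (r + W * n) then 1 else 0) +
      Λ * ∑ j ∈ Finset.range J, (dec_cN z j (r + W * n).toNat : ℝ)| ≤
      (if |r + W * n| ≤ z then 3 * Real.log M else 0) + dec_tA W z M r n +
      Λ * (if dec_E1 z J (r + W * n).toNat then 1 else 0) +
      Λ * (if (z : ℤ) < r + W * n ∧ dec_E2 w z J (r + W * n).toNat then 1 else 0) := by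
  have hW1 : (1 : ℝ) ≤ W := by exact_mod_cast hW.1
  have hM1 : (1 : ℝ) ≤ M := by exact_mod_cast hM
  have hlogM : 0 ≤ Real.log M := Real.log_nonneg hM1
  have hWM0 : 0 ≤ Real.log (W * M) := Real.log_nonneg (by nlinarith)
  have hφ0 : (0 : ℝ) ≤ (Nat.totient W / W : ℝ) := by positivity
  have hφ1 : (Nat.totient W / W : ℝ) ≤ 1 := by
    rw [div_le_one (by linarith)]
    exact_mod_cast Nat.totient_le W
  have hΛ0 : 0 ≤ Λ := by rw [hΛ]; positivity
  have hΛ2 : Λ ≤ 2 * Real.log M := by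
    rw [hΛ]
    nlinarith
  have htA0 : 0 ≤ dec_tA W z M r n := by
    unfold dec_tA
    by_cases h : (z : ℤ) < r + W * n
    · rw [if_pos h]
      exact abs_nonneg _
    · rw [if_neg h]
  have hE10 : 0 ≤ Λ * (if dec_E1 z J (r + W * n).toNat then (1 : ℝ) else 0) :=
    mul_nonneg hΛ0 (by split_ifs <;> norm_num)
  have hE20 : 0 ≤ Λ * (if (z : ℤ) < r + W * n ∧ dec_E2 w z J (r + W * n).toNat then (1 : ℝ) else 0) :=
    mul_nonneg hΛ0 (by split_ifs <;> norm_num)
  by_cases hv : |r + W * n| ≤ z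
  · rw [if_pos hv]
    have hc : ∀ j, dec_cN z j (r + W * n).toNat = 0 := by
      intro j
      apply dec_cN_small
      have := (abs_le.mp hv).2
      omega
    simp only [hc, Nat.cast_zero, Finset.sum_const_zero, mul_zero, add_zero]
    have hlam : lam W r n ≤ Real.log M := by
      unfold lam lamv
      split_ifs with hp
      · have h1 : Real.log ((r + W * n).natAbs : ℝ) ≤ Real.log M := by
          apply Real.log_le_log
          · exact_mod_cast hp.pos
          · have h2 : ((r + W * n).natAbs : ℤ) ≤ z := by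
              rw [Int.natCast_natAbs]
              exact hv
            have h3 : (r + W * n).natAbs ≤ M := by omega
            exact_mod_cast h3
        have h0 : 0 ≤ Real.log ((r + W * n).natAbs : ℝ) := Real.log_natCast_nonneg _
        nlinarith
      · exact hlogM
    have hlam0 := dec_lam_nonneg W r n
    have h2 : |lam W r n - Λ * (if Rgh (sprimes w z) (r + W * n) then 1 else 0)| ≤
        3 * Real.log M := by
      rw [abs_le]
      split_ifs
      · constructor <;> linarith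
      · constructor <;> linarith
    linarith
  · rw [if_neg hv, zero_add]
    have hvz : (z : ℤ) < r + W * n := by
      rcases lt_abs.mp (not_le.mp hv) with h | h
      · exact h
      · exfalso
        have h4 := (abs_lt.mp hr).1
        have h5 : (0 : ℤ) ≤ W * n := mul_nonneg (by positivity) hn0
        have h6 : (2 * W : ℤ) ≤ z := by exact_mod_cast hz
        linarith
    have hmv : r + W * n = ((r + W * n).toNat : ℤ) := (Int.toNat_of_nonneg (by omega)).symm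
    have htA : dec_tA W z M r n = |lam W r n - (Nat.totient W / W : ℝ) * Real.log (W * M) *
        (if (r + W * n).toNat.Prime then 1 else 0)| := by
      unfold dec_tA
      rw [if_pos hvz]
    set m := (r + W * n).toNat with hm
    have hmz : z < m := by omega
    have hcopm : Nat.Coprime m W := by
      rw [← Nat.isCoprime_iff_coprime, ← hmv]
      have : IsCoprime (r + n * W) (W : ℤ) := IsCoprime.add_mul_right_left hcop n
      rwa [mul_comm n] at this
    have hpt := dec_point hW J m (by omega) hmz hcopm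
    rw [htA, ← hΛ]
    have hR : (if Rgh (sprimes w z) (r + W * n) then (1 : ℝ) else 0) =
        if Rgh (sprimes w z) (m : ℤ) then 1 else 0 := by rw [← hmv]
    have hE2 : (if (z : ℤ) < r + W * n ∧ dec_E2 w z J m then (1 : ℝ) else 0) =
        if dec_E2 w z J m then 1 else 0 := by
      congr 1
      simp [hvz]
    rw [hR, hE2]
    push_cast at hpt
    have h3 : lam W r n - Λ * (if Rgh (sprimes w z) (m : ℤ) then 1 else 0) +
        Λ * ∑ j ∈ Finset.range J, (dec_cN z j m : ℝ) =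
        (lam W r n - Λ * (if m.Prime then 1 else 0)) +
        Λ * ((if m.Prime then (1 : ℝ) else 0) - (if Rgh (sprimes w z) (m : ℤ) then 1 else 0) +
          ∑ j ∈ Finset.range J, (dec_cN z j m : ℝ)) := by ring
    rw [h3]
    refine (abs_add_le _ _).trans ?_
    rw [abs_mul, abs_of_nonneg hΛ0]
    have h4 := mul_le_mul_of_nonneg_left hpt hΛ0
    rw [mul_add] at h4
    linarith

theorem dec_card_small {W z M : ℕ} {r : ℤ} (hW : 0 < W) :
    ((Finset.Ico (0 : ℤ) M).filter fun n => |r + W * n| ≤ z).card ≤ 2 * z + 1 := by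
  have hW' : (0 : ℤ) < W := by exact_mod_cast hW
  have h : ((Finset.Ico (0 : ℤ) M).filter fun n => |r + W * n| ≤ z).card ≤
      (Finset.Icc (-(z : ℤ)) z).card := by
    apply Finset.card_le_card_of_injOn (fun n => r + W * n)
    · intro n hn
      rw [Finset.mem_coe, Finset.mem_filter] at hn
      rw [Finset.mem_coe, Finset.mem_Icc]
      exact abs_le.mp hn.2
    · intro n _ n' _ h
      simp only at h
      have : (W : ℤ) * n = W * n' := by linarith
      exact mul_left_cancel₀ hW'.ne' this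
  rw [Int.card_Icc] at h
  omega

end Pool.Agent.Lib.H18GB
end

-- from Lib.H18GB.DecF
section

/-!
# Project GB: DEC, auxiliary lemmas VI (numerical conditions)
-/

namespace Pool.Agent.Lib.H18GB

open Finset Pool.Agent.Lib.Sieve

theorem decF_num {M : ℕ} {ε' : ℝ} (hε' : 0 < ε') (hε'1 : ε' ≤ 1 / 16)
    (hM8 : 2 ≤ (M : ℝ) ^ (1 / 8 : ℝ)) (hL : 1 ≤ ε' * Real.log M) (D0 K : ℕ)
    (hD0 : D0 = ⌊(M : ℝ) ^ (1 / 2 - ε')⌋₊) (hK : K = ⌈3 * ε' * Real.log M⌉₊) :
    (M : ℝ) ^ (1 / 4 : ℝ) ≤ D0 ∧ (K : ℝ) ≤ 4 * ε' * Real.log M ∧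
    (M : ℝ) ^ (1 / 2 + ε') / 2 ≤ D0 * 2 ^ K ∧ (D0 * 2 ^ K : ℝ) ≤ (M : ℝ) ^ (3 / 4 : ℝ) ∧
    Real.log M / 4 ≤ Real.log D0 := by
  have hM0 : M ≠ 0 := by
    rintro rfl
    rw [Nat.cast_zero, Real.zero_rpow (by norm_num)] at hM8
    norm_num at hM8
  have hM1 : (1 : ℝ) ≤ M := by exact_mod_cast Nat.one_le_iff_ne_zero.mpr hM0
  have hMp : (0 : ℝ) < M := by linarith
  have hLp : 0 < Real.log M := by
    by_contra h
    nlinarith
  have hD0a : (D0 : ℝ) ≤ (M : ℝ) ^ (1 / 2 - ε') := by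
    rw [hD0]
    exact Nat.floor_le (by positivity)
  have hmul : ∀ a b : ℝ, (M : ℝ) ^ a * (M : ℝ) ^ b = (M : ℝ) ^ (a + b) := fun a b =>
    (Real.rpow_add hMp a b).symm
  have hmono : ∀ {a b : ℝ}, a ≤ b → (M : ℝ) ^ a ≤ (M : ℝ) ^ b := fun h =>
    Real.rpow_le_rpow_of_exponent_le hM1 h
  have hpos : ∀ a : ℝ, 0 < (M : ℝ) ^ a := fun a => Real.rpow_pos_of_pos hMp a
  -- `D0 ≥ M^(1/2-ε')/2`
  have h2 : 2 * (M : ℝ) ^ (1 / 4 : ℝ) ≤ (M : ℝ) ^ (1 / 2 - ε') := by
    calc 2 * (M : ℝ) ^ (1 / 4 : ℝ) ≤ (M : ℝ) ^ (1 / 8 : ℝ) * (M : ℝ) ^ (1 / 4 : ℝ) :=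
          mul_le_mul_of_nonneg_right hM8 (hpos _).le
      _ = (M : ℝ) ^ (1 / 8 + 1 / 4 : ℝ) := hmul _ _
      _ ≤ _ := hmono (by linarith)
  have h14 : 1 ≤ (M : ℝ) ^ (1 / 4 : ℝ) := Real.one_le_rpow hM1 (by norm_num)
  have hD0b : (M : ℝ) ^ (1 / 2 - ε') / 2 ≤ D0 := by
    have := Nat.lt_floor_add_one ((M : ℝ) ^ (1 / 2 - ε'))
    rw [← hD0] at this
    linarith
  have hD04 : (M : ℝ) ^ (1 / 4 : ℝ) ≤ D0 := by linarith
  have hKa : (K : ℝ) < 3 * ε' * Real.log M + 1 := by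
    rw [hK]
    exact Nat.ceil_lt_add_one (by positivity)
  have hKb : 3 * ε' * Real.log M ≤ K := by
    rw [hK]
    exact Nat.le_ceil _
  have hlog2 := Real.log_two_gt_d9
  have hlog2' := Real.log_two_lt_d9
  have h2K : (2 : ℝ) ^ K = Real.exp (K * Real.log 2) := by
    rw [mul_comm, Real.exp_mul, Real.exp_log (by norm_num), Real.rpow_natCast]
  have hMexp : ∀ a : ℝ, (M : ℝ) ^ a = Real.exp (a * Real.log M) := fun a => by
    rw [Real.rpow_def_of_pos hMp, mul_comm]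
  have hK1 : (M : ℝ) ^ (2 * ε') ≤ 2 ^ K := by
    rw [h2K, hMexp]
    apply Real.exp_le_exp.mpr
    have : 0 ≤ ε' * Real.log M := by positivity
    nlinarith
  have hK2 : (2 : ℝ) ^ K ≤ 2 * (M : ℝ) ^ (3 * ε') := by
    have h3 : 2 * (M : ℝ) ^ (3 * ε') = Real.exp (Real.log 2 + 3 * ε' * Real.log M) := by
      rw [Real.exp_add, Real.exp_log (by norm_num), hMexp]
    rw [h3, h2K]
    apply Real.exp_le_exp.mpr
    have : 0 ≤ ε' * Real.log M := by positivity
    nlinarith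
  refine ⟨hD04, by linarith, ?_, ?_, ?_⟩
  · calc (M : ℝ) ^ (1 / 2 + ε') / 2 = (M : ℝ) ^ (1 / 2 - ε') / 2 * (M : ℝ) ^ (2 * ε') := by
          rw [div_mul_eq_mul_div, hmul]
          congr 2
          ring
      _ ≤ D0 * 2 ^ K := mul_le_mul hD0b hK1 (hpos _).le (Nat.cast_nonneg _)
  · calc (D0 : ℝ) * 2 ^ K ≤ (M : ℝ) ^ (1 / 2 - ε') * (2 * (M : ℝ) ^ (3 * ε')) :=
          mul_le_mul hD0a hK2 (by positivity) (hpos _).le
      _ = 2 * (M : ℝ) ^ (1 / 2 + 2 * ε') := by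
          rw [mul_left_comm, hmul]
          congr 2
          ring
      _ ≤ (M : ℝ) ^ (1 / 8 : ℝ) * (M : ℝ) ^ (1 / 2 + 2 * ε') :=
          mul_le_mul_of_nonneg_right hM8 (hpos _).le
      _ = (M : ℝ) ^ (1 / 8 + (1 / 2 + 2 * ε')) := hmul _ _
      _ ≤ _ := hmono (by linarith)
  · have := Real.log_le_log (hpos _) hD04
    rw [Real.log_rpow hMp] at this
    linarith

/-- the growth conditions -/
theorem decF_ev (s s' w W : ℕ) (hs : 1 ≤ s) (hs' : 1 ≤ s') (ε ε' A : ℝ) (hε' : 0 < ε') :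
    ∀ᶠ M : ℕ in Filter.atTop, (2 * W ≤ rt s M ∧ w ≤ rt s M ∧ 2 ≤ rt s M ∧ 2 ≤ rt s' M ∧
        w ≤ rt s' M) ∧
      (Real.log M ≤ 2 * s * Real.log (rt s M) ∧ Real.log M ≤ 2 * s' * Real.log (rt s' M)) ∧
      (A ≤ Real.log (rt s M) ∧ 1 ≤ Real.log (rt s M)) ∧
      (1 ≤ Real.log M ∧ 1 ≤ ε' * Real.log M) ∧ W ≤ M ∧
      ((w : ℝ) ≤ (M : ℝ) ^ (1 / 4 : ℝ) ∧ 288 / ε ≤ (M : ℝ) ^ (1 / 4 : ℝ) ∧
        2 ≤ (M : ℝ) ^ (1 / 8 : ℝ) ∧ (8 * W : ℝ) ≤ (M : ℝ) ^ ε' ∧ 4 ≤ (M : ℝ) ^ ε') := by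
  have hrt := rt_tendsto hs
  have hrt' := rt_tendsto hs'
  obtain ⟨M2, hM2⟩ := log_le_rt hs
  obtain ⟨M3, hM3⟩ := log_le_rt hs'
  have hlog : Filter.Tendsto (fun M : ℕ => Real.log M) Filter.atTop Filter.atTop :=
    Real.tendsto_log_atTop.comp tendsto_natCast_atTop_atTop
  have hlogrt : Filter.Tendsto (fun M : ℕ => Real.log (rt s M)) Filter.atTop Filter.atTop :=
    hlog.comp hrt
  have hpow : ∀ a : ℝ, 0 < a → Filter.Tendsto (fun M : ℕ => (M : ℝ) ^ a) Filter.atTop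
      Filter.atTop := fun a ha => (tendsto_rpow_atTop ha).comp tendsto_natCast_atTop_atTop
  have h4 := hpow (1 / 4) (by norm_num)
  have h8 := hpow (1 / 8) (by norm_num)
  have h9 := hpow ε' hε'
  filter_upwards [hrt.eventually_ge_atTop (2 * W), hrt.eventually_ge_atTop w,
    hrt.eventually_ge_atTop 2, hrt'.eventually_ge_atTop 2, Filter.eventually_ge_atTop M2,
    Filter.eventually_ge_atTop M3, hlogrt.eventually_ge_atTop A, hlogrt.eventually_ge_atTop 1,
    hlog.eventually_ge_atTop 1, hlog.eventually_ge_atTop (1 / ε'), Filter.eventually_ge_atTop W,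
    h4.eventually_ge_atTop (w : ℝ), h4.eventually_ge_atTop (288 / ε), h8.eventually_ge_atTop 2,
    h9.eventually_ge_atTop (8 * W : ℝ), h9.eventually_ge_atTop 4,
    hrt'.eventually_ge_atTop w] with M a1 a2 a3 a4 a5 a6 a7 a8 a9
      a10 a11 a12 a13 a14 a15 a16 a17
  refine ⟨⟨a1, a2, a3, a4, a17⟩, ⟨hM2 M a5, hM3 M a6⟩, ⟨a7, a8⟩, ⟨a9, ?_⟩, a11, a12, a13, a14, a15, a16⟩
  rw [div_le_iff₀ hε'] at a10
  linarith

end Pool.Agent.Lib.H18GB
end
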