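import Pool.Agent.Lib.H1M.RV.M045

/-! Merged copies (to shorten the build) of Lib.H18GB.DecG. -/

-- from Lib.H18GB.DecG
section

/-!
# Project GB: DEC, the theorem
-/

namespace Pool.Agent.Lib.H18GB

open Finset Pool.Agent.Lib.Sieve

theorem dec_rt_le_rpow (s M : ℕ) : (rt s M : ℝ) ≤ (M : ℝ) ^ (1 / (s : ℝ)) :=
  Nat.floor_le (by positivity)

/-- bound for `Λ VV (sprimes w y)` -/
theorem dec_lamVV_le {w W y M s : ℕ} (hW : IsW w W) (hy : 2 ≤ y) (hwy : w ≤ y)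
    (hl : Real.log M ≤ 2 * s * Real.log y) (hWM : Real.log (W * M) ≤ 2 * Real.log M)
    (hWM0 : 0 ≤ Real.log (W * M)) :
    (Nat.totient W / W : ℝ) * Real.log (W * M) * VV (sprimes w y) ≤ 4 * s := by
  have h1 := dec_vv hW hy hwy
  have hlogy : 0 < Real.log y := Real.log_pos (by exact_mod_cast (by omega : 1 < y))
  calc (Nat.totient W / W : ℝ) * Real.log (W * M) * VV (sprimes w y)
      = ((Nat.totient W / W : ℝ) * VV (sprimes w y)) * Real.log (W * M) := by ring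
    _ ≤ (1 / Real.log y) * Real.log (W * M) := mul_le_mul_of_nonneg_right h1 hWM0
    _ ≤ (1 / Real.log y) * (4 * s * Real.log y) := by
        apply mul_le_mul_of_nonneg_left _ (by positivity)
        linarith
    _ = 4 * s := by field_simp

open Classical in
theorem dec_sum {C2 : ℕ} (hC1 : 1 ≤ C2) (hC2 : dec_CntProp C2) {ε ε' : ℝ} (hε : 0 < ε) (hε1 : ε ≤ 1)
    (hε' : ε' = ε / (18432 * C2 * (C2 + 1))) {s w W M : ℕ} (hs2 : 2 ≤ s)
    (hs : (C2 + 1 : ℝ) / ε' ≤ s) (hw : C2 ≤ w) (hw2 : 2 ≤ w) (hW : IsW w W)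
    {r : ℤ} (hr : |r| < 2 * W) (hcop : IsCoprime r (W : ℤ))
    (hA : ∑ n ∈ Finset.Ico (0 : ℤ) M, dec_tA W (rt s M) M r n ≤ ε / 8 * M)
    (hev : (2 * W ≤ rt s M ∧ w ≤ rt s M ∧ 2 ≤ rt s M ∧ 2 ≤ rt (4 * (C2 + 1)) M ∧
        w ≤ rt (4 * (C2 + 1)) M) ∧
      (Real.log M ≤ 2 * s * Real.log (rt s M) ∧
        Real.log M ≤ 2 * (4 * (C2 + 1) : ℕ) * Real.log (rt (4 * (C2 + 1)) M)) ∧
      (2592 * s * C2 / ε ≤ Real.log (rt s M) ∧ 1 ≤ Real.log (rt s M)) ∧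
      (1 ≤ Real.log M ∧ 1 ≤ ε' * Real.log M) ∧ W ≤ M ∧
      ((w : ℝ) ≤ (M : ℝ) ^ (1 / 4 : ℝ) ∧ 288 / ε ≤ (M : ℝ) ^ (1 / 4 : ℝ) ∧
        2 ≤ (M : ℝ) ^ (1 / 8 : ℝ) ∧ (8 * W : ℝ) ≤ (M : ℝ) ^ ε' ∧ 4 ≤ (M : ℝ) ^ ε'))
    {J : ℕ} (hJ1 : (M : ℝ) ^ (1 / 2 - ε') < (rt s M : ℝ) * 2 ^ J)
    (hJ2 : ∀ j < J, (rt s M : ℝ) * 2 ^ j ≤ (M : ℝ) ^ (1 / 2 - ε')) :
    ∑ n ∈ Finset.Ico (0 : ℤ) M, |lam W r n - (Nat.totient W / W : ℝ) * Real.log (W * M) *
      (if Rgh (sprimes w (rt s M)) (r + W * n) then 1 else 0) +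
      (Nat.totient W / W : ℝ) * Real.log (W * M) *
        ∑ j ∈ Finset.range J, (dec_cN (rt s M) j (r + W * n).toNat : ℝ)| ≤ ε * M := by
  obtain ⟨⟨e1, e2, e3, e4, hwy⟩, ⟨e5, e6⟩, ⟨e7, e8⟩, ⟨e9, e10⟩, e11, e12, e13, e14, e15, e16⟩ := hev
  have hC1' : (1 : ℝ) ≤ C2 := by exact_mod_cast hC1
  have hW0 : 0 < W := hW.1
  have hW2 : 2 ≤ W := Nat.le_of_dvd hW0 ((hW.2 2 Nat.prime_two).mpr hw2)
  have hM1 : 1 ≤ M := by omega
  have hM1' : (1 : ℝ) ≤ M := by exact_mod_cast hM1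
  have hMp : (0 : ℝ) < M := by linarith
  have hW1' : (1 : ℝ) ≤ W := by exact_mod_cast hW0
  set z := rt s M with hz
  set y := rt (4 * (C2 + 1)) M with hy
  set Λ : ℝ := (Nat.totient W / W : ℝ) * Real.log (W * M) with hΛ
  have hε'0 : 0 < ε' := by rw [hε']; positivity
  have hε'1 : ε' ≤ 1 / 16 := by
    rw [hε', div_le_div_iff₀ (by positivity) (by norm_num)]
    nlinarith
  have hmul : ∀ a b : ℝ, (M : ℝ) ^ a * (M : ℝ) ^ b = (M : ℝ) ^ (a + b) := fun a b =>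
    (Real.rpow_add hMp a b).symm
  have hmono : ∀ {a b : ℝ}, a ≤ b → (M : ℝ) ^ a ≤ (M : ℝ) ^ b := fun h =>
    Real.rpow_le_rpow_of_exponent_le hM1' h
  have hpos : ∀ a : ℝ, 0 < (M : ℝ) ^ a := fun a => Real.rpow_pos_of_pos hMp a
  have hWM : Real.log (W * M) ≤ 2 * Real.log M := by
    rw [Real.log_mul (by positivity) (by positivity)]
    have : Real.log W ≤ Real.log M := Real.log_le_log (by linarith) (by exact_mod_cast e11)
    linarith
  have hWM0 : 0 ≤ Real.log (W * M) := Real.log_nonneg (by nlinarith)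
  have hΛ0 : 0 ≤ Λ := by rw [hΛ]; positivity
  have hzM2 : z ^ 2 ≤ M := by
    calc z ^ 2 ≤ z ^ s := Nat.pow_le_pow_right (by omega) hs2
      _ ≤ M := rt_pow_le (by omega) M
  have hzM : z ≤ M := by nlinarith
  have hVVz : 0 < VV (sprimes w z) := VV_pos (pset_sprimes w z).prime
  -- the four sums
  have hpt : ∀ n ∈ Finset.Ico (0 : ℤ) M, |lam W r n - Λ *
      (if Rgh (sprimes w z) (r + W * n) then 1 else 0) +
      Λ * ∑ j ∈ Finset.range J, (dec_cN z j (r + W * n).toNat : ℝ)| ≤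
      (if |r + W * n| ≤ z then 3 * Real.log M else 0) + dec_tA W z M r n +
      Λ * (if dec_E1 z J (r + W * n).toNat then 1 else 0) +
      Λ * (if (z : ℤ) < r + W * n ∧ dec_E2 w z J (r + W * n).toNat then 1 else 0) := by
    intro n hn
    exact dec_err_le hW hW2 hcop hr (Finset.mem_Ico.mp hn).1 e1 hM1 hzM hWM hΛ
  refine (Finset.sum_le_sum hpt).trans ?_
  rw [Finset.sum_add_distrib, Finset.sum_add_distrib, Finset.sum_add_distrib, ← Finset.mul_sum,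
    ← Finset.mul_sum, Finset.sum_boole, Finset.sum_boole, ← Finset.sum_filter, Finset.sum_const,
    nsmul_eq_mul]
  -- (D)
  have hD : (((Finset.Ico (0 : ℤ) M).filter fun n => |r + W * n| ≤ z).card : ℝ) *
      (3 * Real.log M) ≤ ε / 8 * M := by
    have h1 : (((Finset.Ico (0 : ℤ) M).filter fun n => |r + W * n| ≤ z).card : ℝ) ≤
        2 * z + 1 := by exact_mod_cast dec_card_small hW0
    have h2 : (z : ℝ) ≤ (M : ℝ) ^ (1 / 2 : ℝ) := by
      rw [← Real.sqrt_eq_rpow]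
      apply Real.le_sqrt_of_sq_le
      exact_mod_cast hzM2
    have h3 : Real.log M ≤ 4 * (M : ℝ) ^ (1 / 4 : ℝ) := by
      have := Real.log_le_rpow_div (Nat.cast_nonneg M) (by norm_num : (0 : ℝ) < 1 / 4)
      linarith
    have h4 : (1 : ℝ) ≤ (M : ℝ) ^ (1 / 2 : ℝ) := Real.one_le_rpow hM1' (by norm_num)
    have h5 : (M : ℝ) ^ (1 / 2 : ℝ) * ((M : ℝ) ^ (1 / 4 : ℝ) * (M : ℝ) ^ (1 / 4 : ℝ)) = M := by
      rw [hmul, hmul]
      norm_num
    calc _ ≤ (3 * (M : ℝ) ^ (1 / 2 : ℝ)) * (12 * (M : ℝ) ^ (1 / 4 : ℝ)) := by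
          apply mul_le_mul _ _ (by positivity) (by positivity) <;> linarith
      _ = ε / 8 * ((M : ℝ) ^ (1 / 2 : ℝ) * ((288 / ε) * (M : ℝ) ^ (1 / 4 : ℝ))) := by
          field_simp
          ring
      _ ≤ ε / 8 * ((M : ℝ) ^ (1 / 2 : ℝ) * ((M : ℝ) ^ (1 / 4 : ℝ) * (M : ℝ) ^ (1 / 4 : ℝ))) := by
          have := hpos (1 / 4 : ℝ)
          gcongr
      _ = ε / 8 * M := by rw [h5]
  -- (B)
  have hB : Λ * (((Finset.Ico (0 : ℤ) M).filter fun n => dec_E1 z J (r + W * n).toNat).card : ℝ) ≤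
      ε / 8 * M := by
    obtain ⟨b1, b2, b3, b4, b5⟩ := decF_num hε'0 hε'1 e14 e10 _ _ rfl rfl
    set D0 := ⌊(M : ℝ) ^ (1 / 2 - ε')⌋₊ with hD0
    set K := ⌈3 * ε' * Real.log M⌉₊ with hK
    have hy4 : (y : ℝ) ≤ (M : ℝ) ^ (1 / 4 : ℝ) := by
      refine (dec_rt_le_rpow _ M).trans (hmono ?_)
      push_cast
      rw [div_le_div_iff₀ (by positivity) (by norm_num)]
      linarith
    have hyD : y ≤ D0 := by exact_mod_cast hy4.trans b1
    have hwD : w ≤ D0 := by exact_mod_cast e12.trans b1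
    have hD1 : D0 ≤ z * 2 ^ J := by
      have h1 : (D0 : ℝ) ≤ (M : ℝ) ^ (1 / 2 - ε') := Nat.floor_le (by positivity)
      have h2 : (D0 : ℝ) ≤ (z : ℝ) * 2 ^ J := h1.trans hJ1.le
      exact_mod_cast h2
    have hD0p : (0 : ℝ) < D0 := lt_of_lt_of_le (hpos _) b1
    have hKK : 2 * W * M ≤ (D0 * 2 ^ K) ^ 2 := by
      have h1 : (2 * W * M : ℝ) ≤ ((D0 : ℝ) * 2 ^ K) ^ 2 := by
        have h2 : ((M : ℝ) ^ (1 / 2 + ε') / 2) ^ 2 ≤ ((D0 : ℝ) * 2 ^ K) ^ 2 :=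
          pow_le_pow_left₀ (by positivity) b3 2
        refine le_trans ?_ h2
        have h3 : ((M : ℝ) ^ (1 / 2 + ε') / 2) ^ 2 = M * ((M : ℝ) ^ ε' * (M : ℝ) ^ ε') / 4 := by
          have h7 : (M : ℝ) ^ (1 / 2 + ε' + (1 / 2 + ε')) = (M : ℝ) ^ (1 : ℝ) * (M : ℝ) ^ (ε' + ε') := by
            rw [hmul]
            congr 1
            ring
          rw [div_pow, sq, hmul, hmul, h7, Real.rpow_one]
          norm_num
        rw [h3]
        have h4 : (1 : ℝ) ≤ (M : ℝ) ^ ε' := by linarith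
        have h5 : (8 * W : ℝ) ≤ (M : ℝ) ^ ε' * (M : ℝ) ^ ε' := by nlinarith
        nlinarith
      exact_mod_cast h1
    have hq : (M : ℝ) ^ (1 / 4 : ℝ) ≤ (M : ℝ) / ((D0 * 2 ^ K : ℕ) : ℝ) := by
      push_cast
      rw [le_div_iff₀ (by positivity)]
      calc (M : ℝ) ^ (1 / 4 : ℝ) * (D0 * 2 ^ K) ≤ (M : ℝ) ^ (1 / 4 : ℝ) * (M : ℝ) ^ (3 / 4 : ℝ) :=
            mul_le_mul_of_nonneg_left b4 (hpos _).le
        _ = M := by
            rw [hmul]
            norm_num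
    have hq1 : (1 : ℝ) ≤ (M : ℝ) / ((D0 * 2 ^ K : ℕ) : ℝ) :=
      le_trans (Real.one_le_rpow hM1' (by norm_num)) hq
    have hq2 : (y : ℝ) ^ (C2 + 1) ≤ (M : ℝ) / ((D0 * 2 ^ K : ℕ) : ℝ) := by
      refine le_trans ?_ hq
      calc (y : ℝ) ^ (C2 + 1) ≤ ((M : ℝ) ^ (1 / ((4 * (C2 + 1) : ℕ) : ℝ))) ^ (C2 + 1) :=
            pow_le_pow_left₀ (Nat.cast_nonneg _) (dec_rt_le_rpow _ M) _
        _ = (M : ℝ) ^ (1 / 4 : ℝ) := by
            rw [← Real.rpow_natCast, ← Real.rpow_mul hMp.le]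
            congr 1
            push_cast
            field_simp
    have hmain := dec_B hC2 hW hr hw hM1 e4 hyD hwD hD1 hKK hq1 hq2
    have hVVy : 0 < VV (sprimes w y) := VV_pos (pset_sprimes w y).prime
    have hlam := dec_lamVV_le hW e4 hwy e6 hWM hWM0
    rw [← hΛ] at hlam
    have hLp : 0 < Real.log M := by linarith
    have hKD : (K : ℝ) * (3 / Real.log D0) ≤ 48 * ε' := by
      calc (K : ℝ) * (3 / Real.log D0) ≤ (4 * ε' * Real.log M) * (3 / (Real.log M / 4)) := by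
            gcongr
        _ = 48 * ε' := by
            field_simp
            ring
    have hD01 : 0 < Real.log D0 := by linarith
    calc Λ * (((Finset.Ico (0 : ℤ) M).filter fun n => dec_E1 z J (r + W * n).toNat).card : ℝ)
        ≤ Λ * (VV (sprimes w y) * (3 * C2) * M * (K * (3 / Real.log D0))) :=
          mul_le_mul_of_nonneg_left hmain hΛ0
      _ = (Λ * VV (sprimes w y)) * ((3 * C2) * M * (K * (3 / Real.log D0))) := by ring
      _ ≤ (4 * ((4 * (C2 + 1) : ℕ) : ℝ)) * ((3 * C2) * M * (48 * ε')) := by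
          gcongr
      _ = ε / 8 * M := by
          rw [hε']
          push_cast
          field_simp
          ring
  -- (C)
  have hC : Λ * (((Finset.Ico (0 : ℤ) M).filter fun n => (z : ℤ) < r + W * n ∧
      dec_E2 w z J (r + W * n).toNat).card : ℝ) ≤ ε / 8 * M := by
    have hzj : ∀ j < J, (M : ℝ) ^ ε' ≤ (M : ℝ) / (4 * ((z * 2 ^ j : ℕ) : ℝ) ^ 2) := by
      intro j hj
      have h1 := hJ2 j hj
      have hz0 : (0 : ℝ) < z := by exact_mod_cast (by omega : 0 < z)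
      push_cast
      rw [le_div_iff₀ (by positivity)]
      have h2 : ((z : ℝ) * 2 ^ j) ^ 2 ≤ (M : ℝ) ^ (1 - 2 * ε') := by
        calc ((z : ℝ) * 2 ^ j) ^ 2 ≤ ((M : ℝ) ^ (1 / 2 - ε')) ^ 2 :=
              pow_le_pow_left₀ (by positivity) h1 2
          _ = (M : ℝ) ^ (1 - 2 * ε') := by
              rw [sq, hmul]
              congr 1
              ring
      calc (M : ℝ) ^ ε' * (4 * ((z : ℝ) * 2 ^ j) ^ 2)
          ≤ (M : ℝ) ^ ε' * ((M : ℝ) ^ ε' * (M : ℝ) ^ (1 - 2 * ε')) := by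
            have := hpos ε'
            gcongr
        _ = M := by
            rw [hmul, hmul]
            ring_nf
            rw [Real.rpow_one]
    have hz1 : (z : ℝ) ^ (C2 + 1) ≤ (M : ℝ) ^ ε' := by
      calc (z : ℝ) ^ (C2 + 1) ≤ ((M : ℝ) ^ (1 / (s : ℝ))) ^ (C2 + 1) :=
            pow_le_pow_left₀ (Nat.cast_nonneg _) (dec_rt_le_rpow _ M) _
        _ = (M : ℝ) ^ ((C2 + 1 : ℝ) / s) := by
            rw [← Real.rpow_natCast, ← Real.rpow_mul hMp.le]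
            congr 1
            push_cast
            ring
        _ ≤ (M : ℝ) ^ ε' := by
            apply hmono
            have hs0 : (0 : ℝ) < s := by exact_mod_cast (by omega : 0 < s)
            rw [div_le_iff₀ hε'0] at hs
            rw [div_le_iff₀ hs0]
            linarith
    have hmain := dec_C (r := r) hC2 hW hw e3 e2
      (fun j hj => le_trans (by linarith) (hzj j hj)) (fun j hj => hz1.trans (hzj j hj))
    have hlam := dec_lamVV_le hW e3 e2 e5 hWM hWM0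
    rw [← hΛ] at hlam
    have hsq := dec_sum_block_sq (J := J) e8 (by omega : 1 ≤ z)
    have hs0 : (0 : ℝ) < s := by exact_mod_cast (by omega : 0 < s)
    have hlz : 0 < Real.log z := by linarith
    calc _ ≤ Λ * (VV (sprimes w z) * (3 * C2) * M *
          ∑ j ∈ Finset.range J, (3 / Real.log ((z * 2 ^ j : ℕ) : ℝ)) ^ 2) :=
          mul_le_mul_of_nonneg_left hmain hΛ0
      _ = (Λ * VV (sprimes w z)) * ((3 * C2) * M *
          ∑ j ∈ Finset.range J, (3 / Real.log ((z * 2 ^ j : ℕ) : ℝ)) ^ 2) := by ring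
      _ ≤ (4 * s) * ((3 * C2) * M * (27 / Real.log z)) := by
          have h0 : 0 ≤ ∑ j ∈ Finset.range J, (3 / Real.log ((z * 2 ^ j : ℕ) : ℝ)) ^ 2 :=
            Finset.sum_nonneg fun _ _ => sq_nonneg _
          gcongr
      _ ≤ (4 * s) * ((3 * C2) * M * (27 / (2592 * s * C2 / ε))) := by
          gcongr
      _ = ε / 8 * M := by
          field_simp
          ring
  have hεM : 0 ≤ ε * M := by positivity
  linarith

end Pool.Agent.Lib.H18GB
end
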