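import Pool.Agent.Lib.H1M.RV.M011
import Pool.Agent.Lib.H1M.RV.M051
import Pool.Agent.Lib.H1M.RV.M057
import Pool.Agent.Lib.H1M.RV.M058

/-! Merged copies (to shorten the build) of Lib.H57C.M5, Lib.H57C.M6. -/

-- from Lib.H57C.M5
section

/-!
# Chunk M5: the transfer theorem
-/

open Finset

namespace Pool.Agent.Lib.H57C

open Pool.Agent.Lib.H15P Pool.Agent.Lib.H92G Pool.Agent.Lib.H57M

theorem m5_sg (Q : Finset ℕ) (R : ℕ → Finset ℕ) (t : ℕ) :
    Sg Q R t = ∏ q ∈ Q, (1 - (if t % q ∈ R q then (1 : ℝ) else 0)) := by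
  unfold Sg
  split_ifs with h
  · symm
    apply Finset.prod_eq_one
    intro q hq
    rw [if_neg (h q hq)]
    ring
  · push Not at h
    obtain ⟨q, hq, h1⟩ := h
    symm
    apply Finset.prod_eq_zero hq
    rw [if_pos h1]
    ring

theorem m5_expand {ι : Type} (s : Seq ι) (P H : Finset ℕ) (i : Option ℕ) (R T : ℕ → Finset ℕ)
    (Q : Finset ℕ) (F : Fam P H → ℝ) (c : Fam P H → ℝ)
    (hc : ∀ S, F S = ∑ U : Fam P H, if ∀ j, U j ⊆ S j then c U else 0) (a : Finset ℕ → ℝ) (d : ℕ) :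
    ∑ j ∈ s.S.filter (fun j => inT T d (s.x j)), s.wt j * (F (cfg P H i (s.x j)) *
      Sieve.poly a (fun q => if s.x j % q ∈ R q then (1 : ℝ) else 0) Q) =
    ∑ V ∈ Q.powerset, ∑ U : Fam P H, a V * c U * su s P H i R T U V d := by
  have h1 : ∀ V ∈ Q.powerset, ∑ U : Fam P H, a V * c U * su s P H i R T U V d =
      ∑ j ∈ s.S.filter (fun j => inT T d (s.x j)), ∑ U : Fam P H, a V * c U * (s.wt j *
    ((if ∀ h, U h ⊆ cfg P H i (s.x j) h then 1 else 0) *
      ∏ q ∈ V, (if s.x j % q ∈ R q then (1 : ℝ) else 0))) := by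
    intro V _
    rw [Finset.sum_comm]
    refine Finset.sum_congr rfl fun U _ => ?_
    unfold su
    rw [Finset.mul_sum]
  rw [Finset.sum_congr rfl h1, Finset.sum_comm]
  refine Finset.sum_congr rfl fun j _ => ?_
  unfold Sieve.poly
  rw [hc, Finset.mul_sum, Finset.mul_sum]
  refine Finset.sum_congr rfl fun V _ => ?_
  rw [Finset.sum_mul, Finset.mul_sum]
  refine Finset.sum_congr rfl fun U _ => ?_
  split_ifs <;> ring

theorem m5_ab (r : ℕ) (V : Finset ℕ) :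
    |(Sieve.cT r V : ℝ)| ≤ 1 ∧ |Sieve.cT r V - Sieve.cE (r + 1) V| ≤ 1 := by
  unfold Sieve.cT Sieve.cE
  have h0 : |((-1 : ℝ)) ^ V.card| = 1 := by rw [abs_pow, abs_neg, abs_one, one_pow]
  constructor
  · split_ifs
    · exact h0.le
    · simp
  · by_cases h1 : V.card ≤ r
    · rw [if_pos h1, if_neg (by omega), sub_zero]
      exact h0.le
    · rw [if_neg h1]
      split_ifs <;> simp

theorem m5_ab0 (r : ℕ) (V : Finset ℕ) (h : r + 1 < V.card) :
    (Sieve.cT r V : ℝ) = 0 ∧ (Sieve.cT r V - Sieve.cE (r + 1) V : ℝ) = 0 := by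
  unfold Sieve.cT Sieve.cE
  rw [if_neg (by omega), if_neg (by omega)]
  simp

theorem m5_polysub (a a' : Finset ℕ → ℝ) (f : ℕ → ℝ) (Q : Finset ℕ) :
    Sieve.poly (fun V => a V - a' V) f Q = Sieve.poly a f Q - Sieve.poly a' f Q := by
  unfold Sieve.poly
  rw [← Finset.sum_sub_distrib]
  refine Finset.sum_congr rfl fun V _ => by ring

theorem m5_polymono (m : ℕ) (f g : ℕ → ℝ) (Q : Finset ℕ) (h0 : ∀ q ∈ Q, 0 ≤ f q)
    (h : ∀ q ∈ Q, f q ≤ g q) : Sieve.poly (Sieve.cE m) f Q ≤ Sieve.poly (Sieve.cE m) g Q := by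
  unfold Sieve.poly
  refine Finset.sum_le_sum fun V hV => ?_
  have hV' := Finset.mem_powerset.mp hV
  refine mul_le_mul_of_nonneg_left (Finset.prod_le_prod (fun q hq => h0 q (hV' hq))
    fun q hq => h q (hV' hq)) ?_
  unfold Sieve.cE
  split_ifs <;> norm_num

/-- The remainder for the modulus `d`. -/
noncomputable def m5_R (P H : Finset ℕ) (W p1 k E r : ℕ) (DF : ℝ) (rr : ℕ → ℝ) (d : ℕ) : ℝ :=
  by
    classical exact
    ∑ V ∈ (Ps W p1).powerset.filter (fun V => V.card ≤ r + 1),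
      ∑ U : Fam P H, (if (∀ h h', h ≠ h' → Disjoint (U h) (U h')) ∧ (∀ h, ∀ p ∈ U h, ¬ p.1 ∣ d) ∧
          (fp U : ℝ) ≤ DF then
        (E : ℝ) ^ (∑ h, (U h).card) * ((k : ℝ) ^ V.card * (k : ℝ) ^ d.primeFactors.card) *
          rr (fp U * (∏ q ∈ V, q) * d) else 0)

theorem m5_prodV (W p1 r : ℕ) (V : Finset ℕ) (hV : V ⊆ Ps W p1) (hW : 1 ≤ W) (hc : V.card ≤ r + 1) :
    ∏ q ∈ V, q ≤ W ^ (r + 1) := by
  calc ∏ q ∈ V, q ≤ ∏ q ∈ V, W := Finset.prod_le_prod (fun _ _ => Nat.zero_le _) (by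
        intro q hq
        have := hV hq
        unfold Ps at this
        rw [mem_filter, mem_Icc] at this
        exact this.1.2)
    _ = W ^ V.card := by rw [Finset.prod_const]
    _ ≤ W ^ (r + 1) := Nat.pow_le_pow_right hW hc

open Classical in
theorem m5_err {ι : Type} (s : Seq ι) (P H : Finset ℕ) (i : Option ℕ) (W p1 : ℕ) (R T : ℕ → Finset ℕ)
    (P' : Finset ℕ) (k b E r D D1 : ℕ) (hy : Hy s P H i W p1 R T P' k b)
    (c : Fam P H → ℝ) (CF DF : ℝ) (CF0 : 0 ≤ CF) (DF0 : 0 ≤ DF)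
    (hc2 : ∀ U, |c U| ≤ CF * (E : ℝ) ^ (∑ j, (U j).card))
    (hc3 : ∀ U, c U ≠ 0 → (∏ j, ∏ p ∈ U j, (p.1 : ℝ)) ≤ DF)
    (hD : DF * (W : ℝ) ^ (r + 1) * D1 ≤ D) (rr : ℕ → ℝ) (rr0 : ∀ m, 0 ≤ rr m)
    (hrr : ∀ m, Squarefree m → m ≤ D → ¬ p1 ∣ m → ∀ c : ℕ, (∀ q ∈ m.primeFactors, s.Al q c) →
      |∑ i ∈ s.S.filter (fun i => s.x i ≡ c [MOD m]), s.wt i -
        s.X * ∏ q ∈ m.primeFactors, s.hd q| ≤ rr m)
    (a : Finset ℕ → ℝ) (ha : ∀ V, |a V| ≤ 1) (ha0 : ∀ V, r + 1 < V.card → a V = 0)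
    (d : ℕ) (hd : d ∈ Dv P' D1) :
    |∑ V ∈ (Ps W p1).powerset, ∑ U : Fam P H, a V * c U * su s P H i R T U V d -
      s.X * (∏ q ∈ d.primeFactors, (((T q).card : ℝ) * s.hd q)) * Am P H i s.Al s.hd d c *
        Sieve.poly a (fun q => (((R q).filter (fun c => s.Al q c)).card : ℝ) * s.hd q) (Ps W p1)| ≤
      CF * m5_R P H W p1 k E r DF rr d := by
  have hW : 1 ≤ W := le_trans hy.p1p.one_lt.le hy.p1W
  unfold Dv at hd
  rw [mem_filter, mem_Icc] at hd
  obtain ⟨⟨hd1, hd2⟩, hdsq, hdP⟩ := hd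
  set hT : ℝ := ∏ q ∈ d.primeFactors, (((T q).card : ℝ) * s.hd q) with hhT
  have e1 : s.X * hT * Am P H i s.Al s.hd d c *
        Sieve.poly a (fun q => (((R q).filter (fun c => s.Al q c)).card : ℝ) * s.hd q) (Ps W p1) =
      ∑ V ∈ (Ps W p1).powerset, ∑ U : Fam P H, a V *
        (if okA P H i U ∧ okB P H s.Al d U then c U * fpr s.hd U else 0) *
        (s.X * (∏ q ∈ V, (((R q).filter (fun c => s.Al q c)).card : ℝ) * s.hd q) * hT) := by
    unfold Sieve.poly Am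
    rw [Finset.mul_sum]
    refine Finset.sum_congr rfl fun V _ => ?_
    rw [← Finset.sum_mul, ← Finset.mul_sum]
    ring
  rw [e1, ← Finset.sum_sub_distrib]
  have e2 : CF * m5_R P H W p1 k E r DF rr d = ∑ V ∈ (Ps W p1).powerset, ∑ U : Fam P H,
      (if V.card ≤ r + 1 then (if (∀ h h', h ≠ h' → Disjoint (U h) (U h')) ∧
          (∀ h, ∀ p ∈ U h, ¬ p.1 ∣ d) ∧ (fp U : ℝ) ≤ DF then
        CF * ((E : ℝ) ^ (∑ h, (U h).card) * ((k : ℝ) ^ V.card * (k : ℝ) ^ d.primeFactors.card) *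
          rr (fp U * (∏ q ∈ V, q) * d)) else 0) else 0) := by
    unfold m5_R
    rw [Finset.mul_sum, Finset.sum_filter]
    refine Finset.sum_congr rfl fun V _ => ?_
    by_cases hV : V.card ≤ r + 1
    · rw [if_pos hV, Finset.mul_sum]
      refine Finset.sum_congr rfl fun U _ => ?_
      rw [if_pos hV]
      split_ifs
      · rfl
      · ring
    · rw [if_neg hV]
      symm
      refine Finset.sum_eq_zero fun U _ => if_neg hV
  rw [e2]
  refine (Finset.abs_sum_le_sum_abs _ _).trans (Finset.sum_le_sum fun V hV => ?_)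
  rw [← Finset.sum_sub_distrib]
  refine (Finset.abs_sum_le_sum_abs _ _).trans (Finset.sum_le_sum fun U _ => ?_)
  have hV' := Finset.mem_powerset.mp hV
  have hnn : 0 ≤ CF * ((E : ℝ) ^ (∑ h, (U h).card) * ((k : ℝ) ^ V.card *
      (k : ℝ) ^ d.primeFactors.card) * rr (fp U * (∏ q ∈ V, q) * d)) :=
    mul_nonneg CF0 (mul_nonneg (by positivity) (rr0 _))
  by_cases hVc : V.card ≤ r + 1
  swap
  · rw [if_neg hVc, ha0 V (by omega)]
    simp
  rw [if_pos hVc]
  by_cases hok : okA P H i U ∧ okB P H s.Al d U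
  swap
  · rw [if_neg hok, m1_zero hy U V d hdsq hdP hok]
    have : |a V * c U * 0 - a V * 0 * (s.X * (∏ q ∈ V,
        (((R q).filter (fun c => s.Al q c)).card : ℝ) * s.hd q) * hT)| = 0 := by simp
    rw [this]
    split_ifs
    · exact hnn
    · exact le_rfl
  rw [if_pos hok]
  by_cases hcU : c U = 0
  · rw [hcU]
    have : |a V * 0 * su s P H i R T U V d - a V * (0 * fpr s.hd U) * (s.X * (∏ q ∈ V,
        (((R q).filter (fun c => s.Al q c)).card : ℝ) * s.hd q) * hT)| = 0 := by simp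
    rw [this]
    split_ifs
    · exact hnn
    · exact le_rfl
  have hfp : (fp U : ℝ) ≤ DF := by
    have := hc3 U hcU
    unfold fp
    push_cast
    exact this
  rw [if_pos ⟨hok.1.2, hok.2.1, hfp⟩]
  have hm := m1_sqf hy U V d hok.1 hok.2 hV' hdsq hdP
  have hmD : fp U * (∏ q ∈ V, q) * d ≤ D := by
    have h1 := m5_prodV W p1 r V hV' hW hVc
    have h2 : ((fp U * (∏ q ∈ V, q) * d : ℕ) : ℝ) ≤ DF * (W : ℝ) ^ (r + 1) * D1 := by
      rw [Nat.cast_mul, Nat.cast_mul]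
      have h3 : ((∏ q ∈ V, q : ℕ) : ℝ) ≤ (W : ℝ) ^ (r + 1) := by exact_mod_cast h1
      have h4 : (d : ℝ) ≤ D1 := by exact_mod_cast hd2
      refine mul_le_mul (mul_le_mul hfp h3 (Nat.cast_nonneg _) DF0) h4 (Nat.cast_nonneg _) ?_
      positivity
    exact_mod_cast h2.trans hD
  have key := m1 hy (rr (fp U * (∏ q ∈ V, q) * d)) (rr0 _) U V d hok.1 hok.2 hV' hdsq hdP
    (hrr _ hm.1 hmD hm.2)
  have e3 : a V * c U * su s P H i R T U V d - a V * (c U * fpr s.hd U) * (s.X * (∏ q ∈ V,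
        (((R q).filter (fun c => s.Al q c)).card : ℝ) * s.hd q) * hT) =
      a V * (c U * (su s P H i R T U V d - s.X * (fpr s.hd U *
        (∏ q ∈ V, (((R q).filter (fun c => s.Al q c)).card : ℝ) * s.hd q) * hT))) := by ring
  rw [e3, abs_mul, abs_mul]
  calc |a V| * (|c U| * |su s P H i R T U V d - s.X * (fpr s.hd U *
        (∏ q ∈ V, (((R q).filter (fun c => s.Al q c)).card : ℝ) * s.hd q) * hT)|)
      ≤ 1 * ((CF * (E : ℝ) ^ (∑ j, (U j).card)) * ((k : ℝ) ^ V.card * (k : ℝ) ^ d.primeFactors.card *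
        rr (fp U * (∏ q ∈ V, q) * d))) := by
        refine mul_le_mul (ha V) (mul_le_mul (hc2 U) key (abs_nonneg _) ?_) ?_ zero_le_one
        · positivity
        · positivity
    _ = _ := by ring

theorem m5_hdr0 (i : Option ℕ) : ∀ q : ℕ, q.Prime → 0 ≤ hdr i q := by
  intro q hq
  have h2 : (2 : ℝ) ≤ q := by exact_mod_cast hq.two_le
  unfold hdr
  split_ifs
  · positivity
  · exact div_nonneg zero_le_one (by linarith)

theorem m5_hdr2 (i : Option ℕ) : ∀ q : ℕ, q.Prime → hdr i q ≤ 2 / q := by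
  intro q hq
  have h2 : (2 : ℝ) ≤ q := by exact_mod_cast hq.two_le
  unfold hdr
  split_ifs
  · exact div_le_div_of_nonneg_right (by norm_num) (by linarith)
  · rw [div_le_div_iff₀ (by linarith) (by linarith)]
    linarith

theorem m5_hdrq (i : Option ℕ) (W : ℕ) : ∀ q : ℕ, q.Prime → W < q →
    |hdr i q - 1 / q| ≤ 2 / (q : ℝ) ^ 2 := by
  intro q hq _
  have h2 : (2 : ℝ) ≤ q := by exact_mod_cast hq.two_le
  unfold hdr
  split_ifs
  · rw [sub_self, abs_zero]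
    positivity
  · have e : (1 : ℝ) / ((q : ℝ) - 1) - 1 / q = 1 / (((q : ℝ) - 1) * q) := by
      have : (q : ℝ) - 1 ≠ 0 := by linarith
      have : (q : ℝ) ≠ 0 := by linarith
      field_simp
      ring
    have hpos : (0 : ℝ) < ((q : ℝ) - 1) * q := mul_pos (by linarith) (by linarith)
    rw [e, abs_of_pos (by positivity), div_le_div_iff₀ hpos (by positivity)]
    nlinarith

theorem m5_prodq (d : ℕ) (hd : Squarefree d) (x : ℝ) :
    ∏ q ∈ d.primeFactors, (x / (q : ℝ)) = x ^ d.primeFactors.card / d := by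
  rw [Finset.prod_div_distrib, Finset.prod_const]
  congr 1
  rw [← Nat.cast_prod, Nat.prod_primeFactors_of_squarefree hd]

theorem m5_tel (S : Finset ℕ) (a b M : ℕ → ℝ) (δ : ℝ) (hδ : 0 ≤ δ)
    (ha : ∀ q ∈ S, |a q| ≤ M q) (hb : ∀ q ∈ S, |b q| ≤ M q)
    (hab : ∀ q ∈ S, |a q - b q| ≤ δ * M q) :
    |∏ q ∈ S, a q - ∏ q ∈ S, b q| ≤ S.card * δ * ∏ q ∈ S, M q ∧
    |∏ q ∈ S, a q| ≤ ∏ q ∈ S, M q := by
  induction S using Finset.induction_on with
  | empty => simp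
  | insert x S hx ih =>
    obtain ⟨h1, h2⟩ := ih (fun q hq => ha q (mem_insert_of_mem hq))
      (fun q hq => hb q (mem_insert_of_mem hq)) (fun q hq => hab q (mem_insert_of_mem hq))
    have hM : 0 ≤ M x := le_trans (abs_nonneg _) (ha x (mem_insert_self _ _))
    have hMS : 0 ≤ ∏ q ∈ S, M q := Finset.prod_nonneg fun q hq =>
      le_trans (abs_nonneg _) (ha q (mem_insert_of_mem hq))
    rw [Finset.prod_insert hx, Finset.prod_insert hx, Finset.prod_insert hx,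
      Finset.card_insert_of_notMem hx]
    constructor
    · have e : a x * ∏ q ∈ S, a q - b x * ∏ q ∈ S, b q =
          (a x - b x) * ∏ q ∈ S, a q + b x * (∏ q ∈ S, a q - ∏ q ∈ S, b q) := by ring
      rw [e]
      refine (abs_add_le _ _).trans ?_
      rw [abs_mul, abs_mul]
      have h3 : |a x - b x| * |∏ q ∈ S, a q| ≤ (δ * M x) * ∏ q ∈ S, M q :=
        mul_le_mul (hab x (mem_insert_self _ _)) h2 (abs_nonneg _) (mul_nonneg hδ hM)
      have h4 : |b x| * |∏ q ∈ S, a q - ∏ q ∈ S, b q| ≤ M x * (S.card * δ * ∏ q ∈ S, M q) :=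
        mul_le_mul (hb x (mem_insert_self _ _)) h1 (abs_nonneg _) hM
      push_cast
      calc _ ≤ (δ * M x) * ∏ q ∈ S, M q + M x * (S.card * δ * ∏ q ∈ S, M q) := add_le_add h3 h4
        _ = _ := by ring
    · rw [abs_mul]
      exact mul_le_mul (ha x (mem_insert_self _ _)) h2 (abs_nonneg _) hM

theorem m5_om (n : ℕ) : (1 : ℝ) + 2 * n ≤ 2 * 2 ^ n := by
  induction n with
  | zero => norm_num
  | succ n ih =>
    push_cast
    rw [pow_succ]
    have : (1 : ℝ) ≤ 2 ^ n := one_le_pow₀ (by norm_num)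
    linarith

/-- The numerical estimate for one modulus. -/
theorem m5_num (K E k b n : ℕ) (W τ0 x : ℝ) (hW : 0 < W) (hτ : 0 ≤ τ0) (hK : 1 ≤ K) (hE : 1 ≤ E)
    (hx : 0 < x) :
    ((2 * (k : ℝ)) ^ n / x) * τ0 + ((2 * K * E * (b + n) + 2) / W) * ((2 * (k : ℝ)) ^ n / x) +
      n * (2 / W) * ((2 * (k : ℝ)) ^ n / x) ≤
    ((8 * (k : ℝ)) ^ n / x) * (τ0 + 100 * K * E * (b + 1) / W) := by
  have h1 := m5_om n
  have hp : (1 : ℝ) ≤ 2 ^ n := one_le_pow₀ (by norm_num)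
  have hK' : (1 : ℝ) ≤ K := by exact_mod_cast hK
  have hE' : (1 : ℝ) ≤ E := by exact_mod_cast hE
  have hb : (0 : ℝ) ≤ b := Nat.cast_nonneg _
  have hn : (0 : ℝ) ≤ n := Nat.cast_nonneg _
  have hKE : (1 : ℝ) ≤ K * E := by nlinarith
  have e8 : (8 * (k : ℝ)) ^ n = 4 ^ n * (2 * (k : ℝ)) ^ n := by
    rw [← mul_pow]; congr 1; ring
  have h4 : (2 : ℝ) ^ n ≤ 4 ^ n := pow_le_pow_left₀ (by norm_num) (by norm_num) n
  have hY : 0 ≤ (2 * (k : ℝ)) ^ n / x := by positivity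
  rw [e8]
  have key : τ0 + (2 * K * E * (b + n) + 2) / W + n * (2 / W) ≤
      4 ^ n * (τ0 + 100 * K * E * (b + 1) / W) := by
    have h5 : (2 * K * E * (b + n) + 2 + 2 * n : ℝ) ≤ 4 ^ n * (100 * K * E * (b + 1)) := by
      have h6 : (2 * (K * E) * (b + n) + 2 + 2 * n : ℝ) ≤ (K * E) * (2 * (b + 1) * (1 + 2 * n)) := by
        nlinarith [mul_nonneg hb hn, mul_nonneg (mul_nonneg (by linarith : (0 : ℝ) ≤ K * E) hb) hn]
      have h7 : (K * E) * (2 * (b + 1) * (1 + 2 * n)) ≤ (K * E : ℝ) * (2 * (b + 1) * (2 * 4 ^ n)) := by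
        refine mul_le_mul_of_nonneg_left (mul_le_mul_of_nonneg_left ?_ (by linarith)) (by linarith)
        linarith
      have h8 : 0 ≤ (K * E : ℝ) * ((b + 1) * 4 ^ n) := by positivity
      nlinarith
    have h9 : τ0 ≤ 4 ^ n * τ0 := by
      have : (1 : ℝ) ≤ 4 ^ n := one_le_pow₀ (by norm_num)
      nlinarith
    have e1 : (2 * K * E * (b + n) + 2) / W + n * (2 / W) = (2 * K * E * (b + n) + 2 + 2 * n) / W := by
      ring
    have e2 : (4 : ℝ) ^ n * (τ0 + 100 * K * E * (b + 1) / W) =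
        4 ^ n * τ0 + (4 ^ n * (100 * K * E * (b + 1))) / W := by ring
    rw [add_assoc, e1, e2]
    exact add_le_add h9 (div_le_div_of_nonneg_right h5 hW.le)
  calc _ = ((2 * (k : ℝ)) ^ n / x) * (τ0 + (2 * K * E * (b + n) + 2) / W + n * (2 / W)) := by ring
    _ ≤ ((2 * (k : ℝ)) ^ n / x) * (4 ^ n * (τ0 + 100 * K * E * (b + 1) / W)) :=
        mul_le_mul_of_nonneg_left key hY
    _ = _ := by ring

/-- **Transfer theorem.** Proof. Let `c` be the coefficients of `F` (`ExJ`), `rr` the function of `Lvl`. Fix `d ∈ Dv P' D1`.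
For `t = x j` put `f q = 1[t % q ∈ R q]`: `Sg t = ∏_{q ∈ Ps} (1 - f q)`, and by `Sieve.le_polyT_of_even`, `Sieve.polyT_le_of_even` (`r` even)
`poly (cT r) f - poly (cE (r+1)) f ≤ Sg t ≤ poly (cT r) f` (`poly c f Q = ∑_{V ⊆ Q} c V ∏_{q ∈ V} f q`, check the definition in
`Lib/Sieve/Combi.lean`). Multiply with `wt j F(cfg) 1[inT] ≥ 0` and sum over `j`: with `su` (file M1) the sum is between
`∑_U ∑_V c U (cT r V - cE (r+1) V) su U V d` and `∑_U ∑_V c U cT r V su U V d`. By `m1_zero`, `m1` (with `B = rr (fp U ∏V d)`; `c U ≠ 0` implies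
`fp U ≤ DF`, `|V| ≤ r + 1`, so `fp U ∏V d ≤ DF W^(r+1) D1 ≤ D`) these are `X Am_d hT(d) poly (..) ρ` up to
`∑_U ∑_{|V| ≤ r+1} |c U| k^|V| k^ω(d) rr(..)`, where `ρ q = #(R q).filter Al · hd q ∈ [0, 1]`, `hT(d) = ∏_{q ∣ d} #T q hd q`. Again by Bonferroni
both `poly` are within `poly (cE (r+1)) ρ ≤ τ0` of `∏ (1 - ρ q) = VS`. Summed over `d` (`m2`, `|c U| ≤ CF E^|U|`) the remainder terms give at most
`2 CF Err`; the `τ0` terms `X CF Pi0 τ0 ∑_d (2k)^ω(d)/d`. Then replace `Am_d` by `AE` (`am_bound`, `ae_sum`, `0 ≤ VS ≤ 1`) and `hT(d)` by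
`∏ #T q hr q`: `|∏ #T hd - ∏ #T hr| ≤ k^ω(d) ω(d) (2/W) ∏_{q ∣ d} (2/q)` (`|hd q - hr q| ≤ 4/q^2`), `|AE| ≤ CF Pi0`; use `ω ≤ 2^ω`,
`(b + ω) ≤ (b + 1) 2^ω`. Everything is at most `X CF Pi0 G0 (τ0 + 100 K E (b + 1)/W)`. -/
theorem mt {ι : Type} (s : Seq ι) (P H : Finset ℕ) (i : Option ℕ) (W p1 : ℕ) (R T : ℕ → Finset ℕ)
    (P' : Finset ℕ) (k b K E r D D1 : ℕ) (hy : Hy s P H i W p1 R T P' k b) (hr : ℕ → ℝ)
    (hr0 : ∀ q : ℕ, q.Prime → 0 ≤ hr q) (hr2 : ∀ q : ℕ, q.Prime → hr q ≤ 2 / q)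
    (hrq : ∀ q : ℕ, q.Prime → W < q → |hr q - 1 / q| ≤ 2 / (q : ℝ) ^ 2)
    (hK : H.card = K) (K1 : 1 ≤ K) (E1 : 1 ≤ E) (k1 : 1 ≤ k) (hre : Even r)
    (F : Fam P H → ℝ) (F0 : ∀ S, 0 ≤ F S) (CF DF : ℝ) (CF0 : 0 ≤ CF) (DF0 : 0 ≤ DF)
    (hF : ExJ P F CF E DF) (hD : DF * (W : ℝ) ^ (r + 1) * D1 ≤ D) (Err : ℝ)
    (hL : Lvl s p1 D (K * E + 2 * k) Err) (Pi0 G0 τ0 : ℝ)
    (hPi : ∏ p ∈ P, (1 + 4 * (E : ℝ) / p) ^ K ≤ Pi0)
    (hG : ∑ d ∈ (Icc 1 D1).filter Squarefree, (8 * (k : ℝ)) ^ d.primeFactors.card / d ≤ G0)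
    (hτ : Sieve.poly (Sieve.cE (r + 1)) (fun q : ℕ => 2 * (k : ℝ) / q) (Ps W p1) ≤ τ0) :
    ∑ d ∈ Dv P' D1,
      |∑ j ∈ s.S.filter (fun j => inT T d (s.x j)),
          s.wt j * (F (cfg P H i (s.x j)) * Sg (Ps W p1) R (s.x j)) -
        s.X * (AE P H i F * VS (Ps W p1) R s.hd s.Al) *
          ∏ q ∈ d.primeFactors, (((T q).card : ℝ) * hr q)| ≤
      CF * (2 * Err + s.X * (Pi0 * G0 * (τ0 + 100 * K * E * (b + 1) / W))) := by
  classical
  obtain ⟨c, hc1, hc2, hc3⟩ := hF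
  obtain ⟨rr, rr0, hrr, hrS⟩ := hL
  have hW : 1 ≤ W := le_trans hy.p1p.one_lt.le hy.p1W
  have hWr : (1 : ℝ) ≤ W := by exact_mod_cast hW
  have hWpos : (0 : ℝ) < W := by linarith
  have hk0 : (0 : ℝ) ≤ k := Nat.cast_nonneg _
  have hAE := ae_sum P H i W hy.Pp hy.HW hy.iH F c hc1
  have hAE1 : |AE P H i F| ≤ CF * Pi0 := by
    rw [hAE]
    exact (am_bound P H i W K E 0 (fun _ _ => True) (hdr i) c CF Pi0 CF0 E1 hK K1 hy.Pp hW
      (m5_hdr0 i) (m5_hdr2 i) (m5_hdrq i W) hc2 hPi (by simp) 1 le_rfl).1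
  have hCP : 0 ≤ CF * Pi0 := le_trans (abs_nonneg _) hAE1
  set ρ : ℕ → ℝ := fun q => (((R q).filter (fun c => s.Al q c)).card : ℝ) * s.hd q with hρ
  have hQp : ∀ q ∈ Ps W p1, q.Prime := fun q hq => (mem_filter.mp hq).2.1
  have hρ0 : ∀ q ∈ Ps W p1, 0 ≤ ρ q := fun q hq =>
    mul_nonneg (Nat.cast_nonneg _) (hy.hd0 q (hQp q hq))
  have hρ1 : ∀ q ∈ Ps W p1, ρ q ≤ 1 := fun q hq => hy.R1 q hq
  have hρ2 : ∀ q ∈ Ps W p1, ρ q ≤ 2 * (k : ℝ) / q := by
    intro q hq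
    have h1 : (((R q).filter (fun c => s.Al q c)).card : ℝ) ≤ k := by
      exact_mod_cast (Finset.card_filter_le _ _).trans (hy.Rk q hq)
    calc ρ q ≤ k * (2 / q) := mul_le_mul h1 (hy.hd2 q (hQp q hq)) (hy.hd0 q (hQp q hq)) hk0
      _ = 2 * (k : ℝ) / q := by ring
  have hτ1 : Sieve.poly (Sieve.cE (r + 1)) ρ (Ps W p1) ≤ τ0 :=
    (m5_polymono (r + 1) ρ _ (Ps W p1) hρ0 hρ2).trans hτ
  have hτn : 0 ≤ Sieve.poly (Sieve.cE (r + 1)) ρ (Ps W p1) := by
    refine Sieve.poly_nonneg (fun V => ?_) hρ0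
    unfold Sieve.cE
    split_ifs <;> norm_num
  have τ00 : 0 ≤ τ0 := hτn.trans hτ1
  have hVS : VS (Ps W p1) R s.hd s.Al = ∏ q ∈ Ps W p1, (1 - ρ q) := rfl
  have hV1 : VS (Ps W p1) R s.hd s.Al ≤ Sieve.poly (Sieve.cT r) ρ (Ps W p1) := by
    rw [hVS]; exact Sieve.le_polyT_of_even hρ0 hρ1 hre
  have hV2 : Sieve.poly (Sieve.cT r) ρ (Ps W p1) ≤
      VS (Ps W p1) R s.hd s.Al + Sieve.poly (Sieve.cE (r + 1)) ρ (Ps W p1) := by
    rw [hVS]; exact Sieve.polyT_le_of_even hρ0 hρ1 hre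
  have hV0 : 0 ≤ VS (Ps W p1) R s.hd s.Al := by
    rw [hVS]; exact Finset.prod_nonneg fun q hq => by linarith [hρ1 q hq]
  have hVle : VS (Ps W p1) R s.hd s.Al ≤ 1 := by
    rw [hVS]
    exact Finset.prod_le_one (fun q hq => by linarith [hρ1 q hq]) fun q hq => by
      linarith [hρ0 q hq]
  set VV := VS (Ps W p1) R s.hd s.Al with hVV
  have hX0 := hy.X0
  have hper : ∀ d ∈ Dv P' D1,
      |∑ j ∈ s.S.filter (fun j => inT T d (s.x j)),
          s.wt j * (F (cfg P H i (s.x j)) * Sg (Ps W p1) R (s.x j)) -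
        s.X * (AE P H i F * VV) * ∏ q ∈ d.primeFactors, (((T q).card : ℝ) * hr q)| ≤
      CF * m5_R P H W p1 k E r DF rr d + s.X * (CF * Pi0) *
        (((8 * (k : ℝ)) ^ d.primeFactors.card / d) * (τ0 + 100 * K * E * (b + 1) / W)) := by
    intro d hd
    have hd' := hd
    unfold Dv at hd'
    rw [mem_filter, mem_Icc] at hd'
    obtain ⟨⟨hd1, hd2⟩, hdsq, hdP⟩ := hd'
    have hd1r : (0 : ℝ) < d := by exact_mod_cast hd1
    set hT : ℝ := ∏ q ∈ d.primeFactors, (((T q).card : ℝ) * s.hd q) with hhT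
    set hTr : ℝ := ∏ q ∈ d.primeFactors, (((T q).card : ℝ) * hr q) with hhTr
    set A : ℝ := Am P H i s.Al s.hd d c with hA
    -- upper and lower bound
    have b1 := m5_err s P H i W p1 R T P' k b E r D D1 hy c CF DF CF0 DF0 hc2 hc3 hD rr rr0 hrr
      (Sieve.cT r) (fun V => (m5_ab r V).1) (fun V hV => (m5_ab0 r V hV).1) d hd
    have b2 := m5_err s P H i W p1 R T P' k b E r D D1 hy c CF DF CF0 DF0 hc2 hc3 hD rr rr0 hrr
      (fun V => Sieve.cT r V - Sieve.cE (r + 1) V) (fun V => (m5_ab r V).2)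
      (fun V hV => (m5_ab0 r V hV).2) d hd
    rw [← m5_expand s P H i R T (Ps W p1) F c hc1 (Sieve.cT r) d] at b1
    rw [← m5_expand s P H i R T (Ps W p1) F c hc1 _ d] at b2
    rw [m5_polysub] at b2
    have u1 : ∑ j ∈ s.S.filter (fun j => inT T d (s.x j)),
          s.wt j * (F (cfg P H i (s.x j)) * Sg (Ps W p1) R (s.x j)) ≤
        ∑ j ∈ s.S.filter (fun j => inT T d (s.x j)), s.wt j * (F (cfg P H i (s.x j)) *
      Sieve.poly (Sieve.cT r) (fun q => if s.x j % q ∈ R q then (1 : ℝ) else 0) (Ps W p1)) := by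
      refine Finset.sum_le_sum fun j hj => ?_
      refine mul_le_mul_of_nonneg_left (mul_le_mul_of_nonneg_left ?_ (F0 _))
        (hy.w0 j (mem_filter.mp hj).1)
      rw [m5_sg]
      refine Sieve.le_polyT_of_even (fun q _ => ?_) (fun q _ => ?_) hre
      · split_ifs <;> norm_num
      · split_ifs <;> norm_num
    have u2 : ∑ j ∈ s.S.filter (fun j => inT T d (s.x j)), s.wt j * (F (cfg P H i (s.x j)) *
      Sieve.poly (fun V => Sieve.cT r V - Sieve.cE (r + 1) V)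
        (fun q => if s.x j % q ∈ R q then (1 : ℝ) else 0) (Ps W p1)) ≤
        ∑ j ∈ s.S.filter (fun j => inT T d (s.x j)),
          s.wt j * (F (cfg P H i (s.x j)) * Sg (Ps W p1) R (s.x j)) := by
      refine Finset.sum_le_sum fun j hj => ?_
      refine mul_le_mul_of_nonneg_left (mul_le_mul_of_nonneg_left ?_ (F0 _))
        (hy.w0 j (mem_filter.mp hj).1)
      rw [m5_sg, m5_polysub]
      have := Sieve.polyT_le_of_even (f := fun q => if s.x j % q ∈ R q then (1 : ℝ) else 0)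
        (Q := Ps W p1) (fun q _ => by split_ifs <;> norm_num)
        (fun q _ => by split_ifs <;> norm_num) hre
      linarith
    set Z : ℝ := ∑ j ∈ s.S.filter (fun j => inT T d (s.x j)),
          s.wt j * (F (cfg P H i (s.x j)) * Sg (Ps W p1) R (s.x j)) with hZ
    set RD : ℝ := CF * m5_R P H W p1 k E r DF rr d with hRD
    -- bounds for the products
    have hM : ∀ q ∈ d.primeFactors, 0 ≤ ((T q).card : ℝ) * s.hd q ∧
        ((T q).card : ℝ) * s.hd q ≤ 2 * (k : ℝ) / q ∧ 0 ≤ ((T q).card : ℝ) * hr q ∧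
        ((T q).card : ℝ) * hr q ≤ 2 * (k : ℝ) / q ∧
        |((T q).card : ℝ) * s.hd q - ((T q).card : ℝ) * hr q| ≤ (2 / W) * (2 * (k : ℝ) / q) := by
      intro q hq
      have hqp := Nat.prime_of_mem_primeFactors hq
      have hqP := hdP q hq
      have hTk : ((T q).card : ℝ) ≤ k := by exact_mod_cast hy.Tk q hqP
      have hWq : W < q := (hy.P'p q hqP).2
      have hWq' : (W : ℝ) ≤ q := by exact_mod_cast hWq.le
      have hq0 : (0 : ℝ) < q := by linarith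
      refine ⟨mul_nonneg (Nat.cast_nonneg _) (hy.hd0 q hqp), ?_,
        mul_nonneg (Nat.cast_nonneg _) (hr0 q hqp), ?_, ?_⟩
      · calc ((T q).card : ℝ) * s.hd q ≤ k * (2 / q) :=
              mul_le_mul hTk (hy.hd2 q hqp) (hy.hd0 q hqp) hk0
          _ = 2 * (k : ℝ) / q := by ring
      · calc ((T q).card : ℝ) * hr q ≤ k * (2 / q) :=
              mul_le_mul hTk (hr2 q hqp) (hr0 q hqp) hk0
          _ = 2 * (k : ℝ) / q := by ring
      · rw [← mul_sub, abs_mul, abs_of_nonneg (Nat.cast_nonneg _)]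
        have h1 : |s.hd q - hr q| ≤ 4 / (q : ℝ) ^ 2 := by
          have e : s.hd q - hr q = (s.hd q - 1 / q) - (hr q - 1 / q) := by ring
          rw [e]
          refine (abs_sub _ _).trans ?_
          have := hy.hdq q hqp hWq
          have := hrq q hqp hWq
          have e4 : (4 : ℝ) / (q : ℝ) ^ 2 = 2 / (q : ℝ) ^ 2 + 2 / (q : ℝ) ^ 2 := by ring
          rw [e4]
          linarith
        calc ((T q).card : ℝ) * |s.hd q - hr q| ≤ k * (4 / (q : ℝ) ^ 2) :=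
              mul_le_mul hTk h1 (abs_nonneg _) hk0
          _ = (2 / q) * (2 * (k : ℝ) / q) := by
              field_simp
              ring
          _ ≤ (2 / W) * (2 * (k : ℝ) / q) := by
              refine mul_le_mul_of_nonneg_right ?_ (by positivity)
              exact div_le_div_of_nonneg_left (by norm_num) hWpos hWq'
    have hprod := m5_prodq d hdsq (2 * (k : ℝ))
    have hTn : 0 ≤ hT := Finset.prod_nonneg fun q hq => (hM q hq).1
    have hTle : hT ≤ (2 * (k : ℝ)) ^ d.primeFactors.card / d := by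
      rw [← hprod]
      exact Finset.prod_le_prod (fun q hq => (hM q hq).1) fun q hq => (hM q hq).2.1
    have htel : |hT - hTr| ≤ d.primeFactors.card * (2 / W) *
        ((2 * (k : ℝ)) ^ d.primeFactors.card / d) := by
      rw [← hprod]
      refine (m5_tel d.primeFactors _ _ (fun q => 2 * (k : ℝ) / q) (2 / W) (by positivity)
        (fun q hq => ?_) (fun q hq => ?_) fun q hq => (hM q hq).2.2.2.2).1
      · rw [abs_of_nonneg (hM q hq).1]; exact (hM q hq).2.1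
      · rw [abs_of_nonneg (hM q hq).2.2.1]; exact (hM q hq).2.2.2.1
    have hAm := am_bound P H i W K E b s.Al s.hd c CF Pi0 CF0 E1 hK K1 hy.Pp hW hy.hd0 hy.hd2
      hy.hdq hc2 hPi hy.bad d hd1
    rw [← hAE, ← hA] at hAm
    obtain ⟨hA1, hA2⟩ := hAm
    -- main comparison
    have c1 : |Z - s.X * hT * A * VV| ≤ RD + s.X * hT * (CF * Pi0) * τ0 := by
      have hXT : 0 ≤ s.X * hT := mul_nonneg hX0 hTn
      have g1 : |s.X * hT * A * (Sieve.poly (Sieve.cT r) ρ (Ps W p1) - VV)| ≤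
          s.X * hT * (CF * Pi0) * τ0 := by
        rw [abs_mul, abs_mul, abs_of_nonneg hXT]
        refine mul_le_mul (mul_le_mul_of_nonneg_left hA1 hXT) ?_ (abs_nonneg _)
          (mul_nonneg hXT hCP)
        rw [abs_le]
        constructor <;> linarith
      have g2 : |s.X * hT * A * (Sieve.poly (Sieve.cT r) ρ (Ps W p1) -
          Sieve.poly (Sieve.cE (r + 1)) ρ (Ps W p1) - VV)| ≤
          s.X * hT * (CF * Pi0) * τ0 := by
        rw [abs_mul, abs_mul, abs_of_nonneg hXT]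
        refine mul_le_mul (mul_le_mul_of_nonneg_left hA1 hXT) ?_ (abs_nonneg _)
          (mul_nonneg hXT hCP)
        rw [abs_le]
        constructor <;> linarith
      rw [abs_le] at b1 b2 g1 g2 ⊢
      constructor
      · have e : s.X * hT * A * (Sieve.poly (Sieve.cT r) ρ (Ps W p1) -
          Sieve.poly (Sieve.cE (r + 1)) ρ (Ps W p1) - VV) = s.X * hT * A *
            (Sieve.poly (Sieve.cT r) ρ (Ps W p1) - Sieve.poly (Sieve.cE (r + 1)) ρ (Ps W p1)) -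
            s.X * hT * A * VV := by ring
        rw [e] at g2
        linarith [b2.1, g2.1, u2]
      · have e : s.X * hT * A * (Sieve.poly (Sieve.cT r) ρ (Ps W p1) - VV) =
          s.X * hT * A * Sieve.poly (Sieve.cT r) ρ (Ps W p1) - s.X * hT * A * VV := by ring
        rw [e] at g1
        linarith [b1.2, g1.2, u1]
    have c2 : |s.X * hT * A * VV - s.X * (AE P H i F * VV) * hTr| ≤
        s.X * ((CF * Pi0 * ((2 * K * E * (b + d.primeFactors.card) + 2) / W)) * hT +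
          (CF * Pi0) * |hT - hTr|) := by
      have e : s.X * hT * A * VV - s.X * (AE P H i F * VV) * hTr =
          s.X * VV * ((A - AE P H i F) * hT + AE P H i F * (hT - hTr)) := by ring
      rw [e, abs_mul, abs_of_nonneg (mul_nonneg hX0 hV0)]
      have g3 : |(A - AE P H i F) * hT + AE P H i F * (hT - hTr)| ≤
          (CF * Pi0 * ((2 * K * E * (b + d.primeFactors.card) + 2) / W)) * hT +
          (CF * Pi0) * |hT - hTr| := by
        refine (abs_add_le _ _).trans ?_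
        rw [abs_mul, abs_mul, abs_of_nonneg hTn]
        exact add_le_add (mul_le_mul_of_nonneg_right hA2 hTn)
          (mul_le_mul_of_nonneg_right hAE1 (abs_nonneg _))
      have g4 : s.X * VV ≤ s.X := by
        calc s.X * VV ≤ s.X * 1 := mul_le_mul_of_nonneg_left hVle hX0
          _ = s.X := mul_one _
      exact mul_le_mul g4 g3 (abs_nonneg _) hX0
    have hnum := m5_num K E k b d.primeFactors.card (W : ℝ) τ0 (d : ℝ) hWpos τ00 K1 E1 hd1r
    have c3 : s.X * hT * (CF * Pi0) * τ0 + s.X * ((CF * Pi0 *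
        ((2 * K * E * (b + d.primeFactors.card) + 2) / W)) * hT + (CF * Pi0) * |hT - hTr|) ≤
        s.X * (CF * Pi0) *
        (((8 * (k : ℝ)) ^ d.primeFactors.card / d) * (τ0 + 100 * K * E * (b + 1) / W)) := by
      have g5 : hT * τ0 + ((2 * K * E * (b + d.primeFactors.card) + 2) / W) * hT + |hT - hTr| ≤
          ((2 * (k : ℝ)) ^ d.primeFactors.card / d) * τ0 +
          ((2 * K * E * (b + d.primeFactors.card) + 2) / W) *
            ((2 * (k : ℝ)) ^ d.primeFactors.card / d) +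
          d.primeFactors.card * (2 / W) * ((2 * (k : ℝ)) ^ d.primeFactors.card / d) := by
        refine add_le_add (add_le_add (mul_le_mul_of_nonneg_right hTle τ00)
          (mul_le_mul_of_nonneg_left hTle ?_)) htel
        positivity
      calc _ = s.X * (CF * Pi0) * (hT * τ0 + ((2 * K * E * (b + d.primeFactors.card) + 2) / W) * hT +
            |hT - hTr|) := by ring
        _ ≤ _ := mul_le_mul_of_nonneg_left (g5.trans hnum) (mul_nonneg hX0 hCP)
    calc |Z - s.X * (AE P H i F * VV) * hTr|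
        ≤ |Z - s.X * hT * A * VV| + |s.X * hT * A * VV - s.X * (AE P H i F * VV) * hTr| :=
          abs_sub_le _ _ _
      _ ≤ (RD + s.X * hT * (CF * Pi0) * τ0) + s.X * ((CF * Pi0 *
        ((2 * K * E * (b + d.primeFactors.card) + 2) / W)) * hT + (CF * Pi0) * |hT - hTr|) :=
          add_le_add c1 c2
      _ ≤ _ := by linarith
  -- sum over `d`
  refine (Finset.sum_le_sum hper).trans ?_
  rw [Finset.sum_add_distrib, ← Finset.mul_sum, ← Finset.mul_sum, ← Finset.sum_mul]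
  have s1 : ∑ d ∈ Dv P' D1, m5_R P H W p1 k E r DF rr d ≤ Err := by
    have := m2 P H W p1 k E D D1 r K P' DF rr rr0 hy.Pp hy.p1p hy.p1W hy.P'p hK hW hD DF0
    refine le_trans (le_of_eq ?_) (this.trans hrS)
    rfl
  have s1n : 0 ≤ ∑ d ∈ Dv P' D1, m5_R P H W p1 k E r DF rr d := by
    refine Finset.sum_nonneg fun d _ => ?_
    unfold m5_R
    refine Finset.sum_nonneg fun V _ => Finset.sum_nonneg fun U _ => ?_
    split_ifs
    · exact mul_nonneg (by positivity) (rr0 _)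
    · exact le_rfl
  have s2 : ∑ d ∈ Dv P' D1, (8 * (k : ℝ)) ^ d.primeFactors.card / d ≤ G0 := by
    refine le_trans (Finset.sum_le_sum_of_subset_of_nonneg ?_ fun d _ _ => by positivity) hG
    intro d hd
    unfold Dv at hd
    rw [mem_filter] at hd ⊢
    exact ⟨hd.1, hd.2.1⟩
  have s3 : 0 ≤ τ0 + 100 * K * E * (b + 1) / W := by positivity
  have s4 : CF * ∑ d ∈ Dv P' D1, m5_R P H W p1 k E r DF rr d ≤ CF * (2 * Err) :=
    mul_le_mul_of_nonneg_left (by linarith) CF0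
  have s5 : s.X * (CF * Pi0) * ((∑ d ∈ Dv P' D1, (8 * (k : ℝ)) ^ d.primeFactors.card / d) *
      (τ0 + 100 * K * E * (b + 1) / W)) ≤ s.X * (CF * Pi0) * (G0 * (τ0 + 100 * K * E * (b + 1) / W)) :=
    mul_le_mul_of_nonneg_left (mul_le_mul_of_nonneg_right s2 s3) (mul_nonneg hX0 hCP)
  calc _ ≤ CF * (2 * Err) + s.X * (CF * Pi0) * (G0 * (τ0 + 100 * K * E * (b + 1) / W)) :=
        add_le_add s4 s5
    _ = _ := by ring

end Pool.Agent.Lib.H57C
end

-- from Lib.H57C.M6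
section

/-!
# Chunk M6: the transfer theorem, asymptotic form
-/

open Finset

namespace Pool.Agent.Lib.H57C

open Pool.Agent.Lib.H15P Pool.Agent.Lib.H92G Pool.Agent.Lib.H57M

/-- Mertens, upper bound. -/
theorem m6_inv : ∃ C : ℝ, 0 < C ∧ ∀ x : ℝ, 2 ≤ x → ∀ S : Finset ℕ,
    (∀ q ∈ S, q.Prime ∧ (q : ℝ) ≤ x) → ∑ q ∈ S, 1 / (q : ℝ) ≤ Real.log (Real.log x) + C := by
  obtain ⟨C, hC, h⟩ := H59C.mertens
  have hl2 : 0 < Real.log 2 := Real.log_pos (by norm_num)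
  refine ⟨|Real.log (Real.log 2)| + C / Real.log 2 + Real.log 2, by positivity, ?_⟩
  intro x hx S hS
  have h1 := h 2 (x + 1) le_rfl (by linarith)
  have h2 : ∑ q ∈ S, 1 / (q : ℝ) ≤ ∑ q ∈ H59C.PR 2 (x + 1), 1 / (q : ℝ) := by
    refine sum_le_sum_of_subset_of_nonneg ?_ (fun q _ _ => by positivity)
    intro q hq
    rw [H59C.mem_PR]
    have := hS q hq
    refine ⟨this.1, ?_, by linarith⟩
    exact_mod_cast this.1.two_le
  have h3 := (abs_le.1 h1).2
  have hlx : 0 < Real.log x := Real.log_pos (by linarith)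
  have h4 : Real.log (Real.log (x + 1)) ≤ Real.log 2 + Real.log (Real.log x) := by
    have h5 : Real.log (x + 1) ≤ 2 * Real.log x := by
      have h6 : Real.log (x + 1) ≤ Real.log (x ^ 2) :=
        Real.log_le_log (by linarith) (by nlinarith)
      rw [Real.log_pow] at h6
      exact_mod_cast h6
    have h7 : 0 < Real.log (x + 1) := Real.log_pos (by linarith)
    have h8 := Real.log_le_log h7 h5
    rw [Real.log_mul (by norm_num) hlx.ne'] at h8
    exact h8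
  have h5 := neg_abs_le (Real.log (Real.log 2))
  linarith

/-- Products over primes. -/
theorem m6_prod (C : ℝ) (h : ∀ x : ℝ, 2 ≤ x → ∀ S : Finset ℕ,
    (∀ q ∈ S, q.Prime ∧ (q : ℝ) ≤ x) → ∑ q ∈ S, 1 / (q : ℝ) ≤ Real.log (Real.log x) + C)
    (a : ℕ) (x : ℝ) (hx : 2 ≤ x) (S : Finset ℕ) (hS : ∀ q ∈ S, q.Prime ∧ (q : ℝ) ≤ x) :
    Real.exp (∑ q ∈ S, (a : ℝ) / (q : ℝ)) ≤ Real.exp (a * C) * Real.log x ^ a := by
  have hlx : 0 < Real.log x := Real.log_pos (by linarith)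
  have h1 := h x hx S hS
  have h2 : ∑ q ∈ S, (a : ℝ) / (q : ℝ) = a * ∑ q ∈ S, 1 / (q : ℝ) := by
    rw [mul_sum]
    refine sum_congr rfl (fun q _ => by ring)
  rw [h2]
  have h3 : (a : ℝ) * ∑ q ∈ S, 1 / (q : ℝ) ≤ a * C + a * Real.log (Real.log x) := by
    have := mul_le_mul_of_nonneg_left h1 (Nat.cast_nonneg (α := ℝ) a)
    linarith
  refine (Real.exp_le_exp.2 h3).trans (le_of_eq ?_)
  rw [Real.exp_add, Real.exp_nat_mul (Real.log (Real.log x)), Real.exp_log hlx]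

/-- Squarefree sums. -/
theorem m6_sqf (D : ℕ) (a : ℝ) (ha : 0 ≤ a) :
    ∑ d ∈ (Icc 1 D).filter Squarefree, a ^ d.primeFactors.card / (d : ℝ) ≤
      Real.exp (∑ q ∈ (Icc 1 D).filter Nat.Prime, a / (q : ℝ)) := by
  classical
  have h1 : Real.exp (∑ q ∈ (Icc 1 D).filter Nat.Prime, a / (q : ℝ)) ≥
      ∏ q ∈ (Icc 1 D).filter Nat.Prime, (1 + a / (q : ℝ)) := by
    rw [Real.exp_sum]
    refine prod_le_prod (fun q _ => by positivity) (fun q _ => ?_)
    have := Real.add_one_le_exp (a / (q : ℝ))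
    linarith
  refine le_trans ?_ h1
  rw [Finset.prod_one_add]
  have h2 : ∀ d ∈ (Icc 1 D).filter Squarefree, a ^ d.primeFactors.card / (d : ℝ) =
      ∏ q ∈ d.primeFactors, a / (q : ℝ) := by
    intro d hd
    rw [prod_div_distrib, prod_const]
    congr 1
    have := Nat.prod_primeFactors_of_squarefree (mem_filter.1 hd).2
    calc (d : ℝ) = ((∏ q ∈ d.primeFactors, q : ℕ) : ℝ) := by rw [this]
      _ = ∏ q ∈ d.primeFactors, (q : ℝ) := by rw [Nat.cast_prod]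
  rw [sum_congr rfl h2]
  have hinj : Set.InjOn (fun d : ℕ => d.primeFactors) ((Icc 1 D).filter Squarefree : Finset ℕ) := by
    intro d hd d' hd' hh
    have a1 := Nat.prod_primeFactors_of_squarefree (mem_filter.1 (mem_coe.1 hd)).2
    have a2 := Nat.prod_primeFactors_of_squarefree (mem_filter.1 (mem_coe.1 hd')).2
    have hh' : d.primeFactors = d'.primeFactors := hh
    rw [← a1, ← a2, hh']
  have h3 : ∑ d ∈ (Icc 1 D).filter Squarefree, ∏ q ∈ d.primeFactors, a / (q : ℝ) =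
      ∑ E ∈ ((Icc 1 D).filter Squarefree).image (fun d : ℕ => d.primeFactors),
        ∏ q ∈ E, a / (q : ℝ) := by
    rw [sum_image hinj]
  rw [h3]
  refine sum_le_sum_of_subset_of_nonneg ?_ (fun E _ _ => prod_nonneg (fun q _ => by positivity))
  intro E hE
  rw [mem_image] at hE
  obtain ⟨d, hd, rfl⟩ := hE
  rw [mem_filter, mem_Icc] at hd
  rw [mem_powerset]
  intro q hq
  rw [mem_filter, mem_Icc]
  have hp := Nat.prime_of_mem_primeFactors hq
  have hle := Nat.le_of_dvd (by omega) (Nat.dvd_of_mem_primeFactors hq)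
  exact ⟨⟨hp.one_le, by omega⟩, hp⟩

theorem m6_log (s B : ℝ) : ∃ x0 : ℝ, ∀ x : ℝ, x0 ≤ x → B * Real.log x ^ s ≤ x := by
  have h := (isLittleO_log_rpow_rpow_atTop s (zero_lt_one)).def (c := 1 / (|B| + 1)) (by positivity)
  obtain ⟨x1, hx1⟩ := Filter.eventually_atTop.1 h
  refine ⟨max x1 1, fun x hx => ?_⟩
  have h1 := hx1 x ((le_max_left _ _).trans hx)
  have hx0 : 1 ≤ x := (le_max_right _ _).trans hx
  have hl : 0 ≤ Real.log x := Real.log_nonneg hx0
  have hx0' : (0 : ℝ) ≤ x := by linarith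
  rw [Real.rpow_one, Real.norm_eq_abs, Real.norm_eq_abs, abs_of_nonneg (Real.rpow_nonneg hl _),
    abs_of_nonneg hx0'] at h1
  have hls : 0 ≤ Real.log x ^ s := Real.rpow_nonneg hl _
  calc B * Real.log x ^ s ≤ |B| * Real.log x ^ s := mul_le_mul_of_nonneg_right (le_abs_self _) hls
    _ ≤ |B| * (1 / (|B| + 1) * x) := mul_le_mul_of_nonneg_left h1 (abs_nonneg _)
    _ = (|B| / (|B| + 1)) * x := by ring
    _ ≤ 1 * x := by
        apply mul_le_mul_of_nonneg_right _ (by linarith)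
        rw [div_le_one (by positivity)]
        linarith
    _ = x := one_mul x

/-- The numerical conditions. -/
theorem m6_L (K k M B : ℕ) (C θ : ℝ) (hθ : 0 < θ) : ∃ L0 : ℝ, ∀ L : ℝ, L0 ≤ L →
    6 ≤ L ∧ 1800 * (K : ℝ) ≤ L ∧ Real.exp ((12 * K : ℕ) * C) ≤ L ∧ Real.exp ((8 * k : ℕ) * C) ≤ L ∧
    Real.exp ((6 * k : ℕ) * C) * (((B : ℝ) + 1) * Real.log L) ^ (6 * k) ≤ L ∧
    ((B : ℝ) * Real.log L + Real.log 2) * (2 * M * Real.log L + 3) ≤ θ * L := by
  obtain ⟨x1, h1⟩ := m6_log (6 * k : ℕ) (Real.exp ((6 * k : ℕ) * C) * ((B : ℝ) + 1) ^ (6 * k))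
  obtain ⟨x2, h2⟩ := m6_log 2 (((B : ℝ) + 1) * (2 * M + 3) / θ)
  refine ⟨max 6 (max (1800 * (K : ℝ)) (max (Real.exp ((12 * K : ℕ) * C))
    (max (Real.exp ((8 * k : ℕ) * C)) (max x1 x2)))), ?_⟩
  intro L hL
  rw [max_le_iff, max_le_iff, max_le_iff, max_le_iff, max_le_iff] at hL
  obtain ⟨a1, a2, a3, a4, a5, a6⟩ := hL
  refine ⟨a1, a2, a3, a4, ?_, ?_⟩
  · have h3 := h1 L a5
    rw [Real.rpow_natCast] at h3
    rw [mul_pow]
    linarith [h3, mul_assoc (Real.exp ((6 * k : ℕ) * C)) (((B : ℝ) + 1) ^ (6 * k)) (Real.log L ^ (6 * k))]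
  · have h3 := h2 L a6
    have hl1 : 1 ≤ Real.log L := by
      rw [Real.le_log_iff_exp_le (by linarith)]
      have := Real.exp_one_lt_d9
      linarith
    have hl2 : Real.log 2 ≤ Real.log L := Real.log_le_log (by norm_num) (by linarith)
    have e2 : Real.log L ^ (2 : ℝ) = Real.log L ^ 2 := by
      rw [← Real.rpow_natCast]
      norm_num
    rw [e2, div_mul_eq_mul_div, div_le_iff₀ hθ] at h3
    have hB : (0 : ℝ) ≤ B := Nat.cast_nonneg _
    have hM : (0 : ℝ) ≤ M := Nat.cast_nonneg _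
    calc ((B : ℝ) * Real.log L + Real.log 2) * (2 * M * Real.log L + 3)
        ≤ (((B : ℝ) + 1) * Real.log L) * ((2 * M + 3) * Real.log L) := by
          apply mul_le_mul
          · linarith
          · nlinarith
          · positivity
          · positivity
      _ = ((B : ℝ) + 1) * (2 * M + 3) * Real.log L ^ 2 := by ring
      _ ≤ L * θ := h3
      _ = θ * L := by ring

theorem m6_final (K k cF A0 B : ℕ) (L n X b W : ℝ) (hL : 6 ≤ L) (hKL : 1800 * (K : ℝ) ≤ L)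
    (hn : 0 ≤ n) (hX0 : 0 ≤ X) (hb0 : 0 ≤ b) (hX : X ≤ n * L ^ 2) (hb : b ≤ L ^ 2)
    (hW : L ^ B ≤ W) (hB : A0 + cF + 12 * K + 8 * k + 8 ≤ B) :
    L ^ cF * (2 * (n / L ^ (A0 + cF + 1)) + X * (L ^ (12 * K + 1) * L ^ (8 * k + 1) *
      (L / L ^ (2 * (A0 + cF + 12 * K + 8 * k + 6)) + 100 * K * 3 * (b + 1) / W))) ≤ n / L ^ A0 := by
  have hL0 : 0 < L := by linarith
  have hL1 : 1 ≤ L := by linarith
  have hWp : 0 < W := lt_of_lt_of_le (pow_pos hL0 _) hW
  have hK0 : (0 : ℝ) ≤ K := Nat.cast_nonneg _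
  have t1 : L / L ^ (2 * (A0 + cF + 12 * K + 8 * k + 6)) ≤
      1 / (L ^ A0 * L ^ cF * L ^ (12 * K + 1) * L ^ (8 * k + 1) * L ^ 3) := by
    rw [div_le_div_iff₀ (by positivity) (by positivity), one_mul]
    have e : L * (L ^ A0 * L ^ cF * L ^ (12 * K + 1) * L ^ (8 * k + 1) * L ^ 3) =
        L ^ (A0 + cF + 12 * K + 8 * k + 6) := by
      rw [← pow_add, ← pow_add, ← pow_add, ← pow_add, ← pow_succ']
      congr 1
      ring
    rw [e]
    exact pow_le_pow_right₀ hL1 (by omega)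
  have t2 : 100 * K * 3 * (b + 1) / W ≤
      1 / (3 * (L ^ A0 * L ^ cF * L ^ (12 * K + 1) * L ^ (8 * k + 1) * L ^ 2)) := by
    rw [div_le_div_iff₀ hWp (by positivity), one_mul]
    have e : L ^ (A0 + cF + 12 * K + 8 * k + 8) ≤ W := (pow_le_pow_right₀ hL1 hB).trans hW
    refine le_trans ?_ e
    have e2 : L ^ (A0 + cF + 12 * K + 8 * k + 8) =
        (L ^ 2 * L ^ 2) * (L ^ A0 * L ^ cF * L ^ (12 * K + 1) * L ^ (8 * k + 1) * L ^ 2) := by
      rw [← pow_add, ← pow_add, ← pow_add, ← pow_add, ← pow_add, ← pow_add]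
      congr 1
      ring
    rw [e2]
    have hg : 0 < L ^ A0 * L ^ cF * L ^ (12 * K + 1) * L ^ (8 * k + 1) * L ^ 2 := by positivity
    have e3 : 100 * (K : ℝ) * 3 * (b + 1) * 3 ≤ L ^ 2 * L ^ 2 := by
      have hb1 : b + 1 ≤ 2 * L ^ 2 := by nlinarith
      calc 100 * (K : ℝ) * 3 * (b + 1) * 3 ≤ 100 * (K : ℝ) * 3 * (2 * L ^ 2) * 3 := by
            have : 0 ≤ 100 * (K : ℝ) * 3 := by positivity
            nlinarith
        _ = 1800 * K * L ^ 2 := by ring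
        _ ≤ L * L ^ 2 := mul_le_mul_of_nonneg_right hKL (by positivity)
        _ ≤ L ^ 2 * L ^ 2 := by
            apply mul_le_mul_of_nonneg_right _ (by positivity)
            nlinarith
    calc 100 * (K : ℝ) * 3 * (b + 1) * (3 * (L ^ A0 * L ^ cF * L ^ (12 * K + 1) * L ^ (8 * k + 1) * L ^ 2))
        = (100 * (K : ℝ) * 3 * (b + 1) * 3) *
          (L ^ A0 * L ^ cF * L ^ (12 * K + 1) * L ^ (8 * k + 1) * L ^ 2) := by ring
      _ ≤ _ := mul_le_mul_of_nonneg_right e3 hg.le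
  have t3 : L / L ^ (2 * (A0 + cF + 12 * K + 8 * k + 6)) + 100 * K * 3 * (b + 1) / W ≤
      1 / (L ^ A0 * L ^ cF * L ^ (12 * K + 1) * L ^ (8 * k + 1) * L ^ 2) * (1 / L + 1 / 3) := by
    refine (add_le_add t1 t2).trans (le_of_eq ?_)
    field_simp
  have hpos : 0 ≤ L ^ (12 * K + 1) * L ^ (8 * k + 1) *
      (1 / (L ^ A0 * L ^ cF * L ^ (12 * K + 1) * L ^ (8 * k + 1) * L ^ 2) * (1 / L + 1 / 3)) := by
    positivity
  have t4 : X * (L ^ (12 * K + 1) * L ^ (8 * k + 1) *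
      (L / L ^ (2 * (A0 + cF + 12 * K + 8 * k + 6)) + 100 * K * 3 * (b + 1) / W)) ≤
      n * L ^ 2 * (L ^ (12 * K + 1) * L ^ (8 * k + 1) *
      (1 / (L ^ A0 * L ^ cF * L ^ (12 * K + 1) * L ^ (8 * k + 1) * L ^ 2) * (1 / L + 1 / 3))) := by
    have hp1 : 0 ≤ L ^ (12 * K + 1) * L ^ (8 * k + 1) *
        (L / L ^ (2 * (A0 + cF + 12 * K + 8 * k + 6)) + 100 * K * 3 * (b + 1) / W) := by
      positivity
    refine (mul_le_mul_of_nonneg_right hX hp1).trans ?_
    refine mul_le_mul_of_nonneg_left ?_ (by positivity)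
    exact mul_le_mul_of_nonneg_left t3 (by positivity)
  refine (mul_le_mul_of_nonneg_left (add_le_add le_rfl t4) (by positivity)).trans ?_
  have e5 : L ^ cF * (2 * (n / L ^ (A0 + cF + 1)) + n * L ^ 2 * (L ^ (12 * K + 1) * L ^ (8 * k + 1) *
      (1 / (L ^ A0 * L ^ cF * L ^ (12 * K + 1) * L ^ (8 * k + 1) * L ^ 2) * (1 / L + 1 / 3)))) =
      n / L ^ A0 * (3 / L + 1 / 3) := by
    rw [pow_add L (A0 + cF) 1, pow_add L A0 cF, pow_one]
    field_simp
    ring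
  rw [e5]
  have h6 : 3 / L ≤ 1 / 2 := by
    rw [div_le_iff₀ hL0]
    linarith
  have h7 : 0 ≤ n / L ^ A0 := by positivity
  nlinarith

theorem mta (K k cF A0 : ℕ) (hK : 1 ≤ K) (hk : 1 ≤ k) : ∃ A B0 : ℕ, ∀ B : ℕ, B0 ≤ B →
    ∀ θ : ℝ, 0 < θ → θ ≤ 1 / 100 → ∃ n0 : ℕ, ∀ n : ℕ, n0 ≤ n →
    ∀ {ι : Type} (s : Seq ι) (P H : Finset ℕ) (i : Option ℕ) (W p1 : ℕ) (R T : ℕ → Finset ℕ)
    (P' : Finset ℕ) (b : ℕ) (hr : ℕ → ℝ) (F : Fam P H → ℝ) (D : ℕ),
    Hy s P H i W p1 R T P' k b → (∀ q : ℕ, q.Prime → 0 ≤ hr q) →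
    (∀ q : ℕ, q.Prime → hr q ≤ 2 / q) →
    (∀ q : ℕ, q.Prime → W < q → |hr q - 1 / q| ≤ 2 / (q : ℝ) ^ 2) →
    H.card = K → W = ⌈Real.log n ^ B⌉₊ → (∀ p ∈ P, p ≤ n) → s.X ≤ n * Real.log n ^ 2 →
    (b : ℝ) ≤ Real.log n ^ 2 → (∀ S, 0 ≤ F S) →
    ExJ P F (Real.log n ^ cF) 3 ((n : ℝ) ^ (2 * θ)) → (n : ℝ) ^ (1 / 2 - θ) ≤ D →
    Lvl s p1 D (K * 3 + 2 * k) (n / Real.log n ^ A) →
    ∑ d ∈ Dv P' (Lv n θ),
      |∑ j ∈ s.S.filter (fun j => inT T d (s.x j)),
          s.wt j * (F (cfg P H i (s.x j)) * Sg (Ps W p1) R (s.x j)) -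
        s.X * (AE P H i F * VS (Ps W p1) R s.hd s.Al) *
          ∏ q ∈ d.primeFactors, (((T q).card : ℝ) * hr q)| ≤ n / Real.log n ^ A0 := by
  obtain ⟨C, hC, hCh⟩ := m6_inv
  set M : ℕ := A0 + cF + 12 * K + 8 * k + 6 with hM
  refine ⟨A0 + cF + 1, A0 + cF + 12 * K + 8 * k + 8, fun B hB θ hθ hθ1 => ?_⟩
  obtain ⟨L0, hL0⟩ := m6_L K k M B C θ hθ
  refine ⟨⌈Real.exp (max L0 6)⌉₊, fun n hn ι s P H i W p1 R T P' b hr F D hy hr0 hr2 hrq hKc hW
    hPn hX hb F0 hF hD hLv => ?_⟩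
  have hn1 : Real.exp (max L0 6) ≤ n := (Nat.le_ceil _).trans (by exact_mod_cast hn)
  have hn0 : (0 : ℝ) < n := lt_of_lt_of_le (Real.exp_pos _) hn1
  have hLL : max L0 6 ≤ Real.log n := (Real.le_log_iff_exp_le hn0).2 hn1
  obtain ⟨a1, a2, a3, a4, a5, a6⟩ := hL0 (Real.log n) ((le_max_left _ _).trans hLL)
  set L := Real.log n with hLdef
  have hLp : 0 < L := by linarith
  have hL1 : 1 ≤ L := by linarith
  have hnL : (n : ℝ) = Real.exp L := (Real.exp_log hn0).symm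
  have hn2 : (2 : ℝ) ≤ n := by
    rw [hnL]
    have := Real.add_one_le_exp L
    linarith
  have hlL : 0 ≤ Real.log L := Real.log_nonneg hL1
  have hWr : (W : ℝ) ≤ 2 * L ^ B ∧ L ^ B ≤ W := by
    rw [hW]
    have h1 := Nat.ceil_lt_add_one (a := L ^ B) (by positivity)
    have h2 : 1 ≤ L ^ B := one_le_pow₀ hL1
    exact ⟨by linarith, Nat.le_ceil _⟩
  have hW2 : (2 : ℝ) ≤ W := by
    have h3 : L ^ 1 ≤ L ^ B := pow_le_pow_right₀ hL1 (by omega)
    rw [pow_one] at h3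
    linarith [hWr.2]
  have hlW : Real.log W ≤ B * Real.log L + Real.log 2 := by
    have h3 := Real.log_le_log (by linarith) hWr.1
    rw [Real.log_mul (by norm_num) (by positivity), Real.log_pow] at h3
    linarith
  have hl2L : Real.log 2 ≤ Real.log L := Real.log_le_log (by norm_num) (by linarith)
  have hlW' : Real.log W ≤ ((B : ℝ) + 1) * Real.log L := by linarith
  have hlW0 : 0 < Real.log W := Real.log_pos (by linarith)
  -- the parameter `r`
  set r : ℕ := 2 * ⌈(M : ℝ) * Real.log L⌉₊ with hrd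
  have hre : Even r := ⟨⌈(M : ℝ) * Real.log L⌉₊, by rw [hrd]; ring⟩
  have hrlo : 2 * (M : ℝ) * Real.log L ≤ r := by
    rw [hrd]
    push_cast
    have := Nat.le_ceil ((M : ℝ) * Real.log L)
    linarith
  have hrhi : (r : ℝ) + 1 ≤ 2 * (M : ℝ) * Real.log L + 3 := by
    rw [hrd]
    push_cast
    have := Nat.ceil_lt_add_one (a := (M : ℝ) * Real.log L) (by positivity)
    linarith
  -- the products
  have hPi : ∏ p ∈ P, (1 + 4 * ((3 : ℕ) : ℝ) / p) ^ K ≤ L ^ (12 * K + 1) := by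
    have h1 : ∏ p ∈ P, (1 + 4 * ((3 : ℕ) : ℝ) / p) ^ K ≤ Real.exp (∑ q ∈ P, ((12 * K : ℕ) : ℝ) / (q : ℝ)) := by
      rw [Real.exp_sum]
      refine prod_le_prod (fun q _ => by positivity) (fun q _ => ?_)
      have h2 := Real.add_one_le_exp (4 * ((3 : ℕ) : ℝ) / q)
      calc (1 + 4 * ((3 : ℕ) : ℝ) / q) ^ K ≤ Real.exp (4 * ((3 : ℕ) : ℝ) / q) ^ K :=
            pow_le_pow_left₀ (by positivity) (by linarith) _
        _ = Real.exp (((12 * K : ℕ) : ℝ) / (q : ℝ)) := by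
            rw [← Real.exp_nat_mul]
            congr 1
            push_cast
            ring
    refine h1.trans ((m6_prod C hCh (12 * K) n hn2 P (fun q hq => ⟨(hy.Pp q hq).1, by exact_mod_cast hPn q hq⟩)).trans ?_)
    rw [pow_succ, mul_comm (L ^ (12 * K)) L]
    exact mul_le_mul_of_nonneg_right a3 (by positivity)
  have hD1n : (Lv n θ : ℝ) ≤ (n : ℝ) ^ (1 / 2 - 4 * θ) := by
    unfold Lv
    exact Nat.floor_le (by positivity)
  have hn1' : (1 : ℝ) ≤ n := by linarith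
  have hLvn : (Lv n θ : ℝ) ≤ n := by
    refine hD1n.trans ?_
    calc (n : ℝ) ^ (1 / 2 - 4 * θ) ≤ (n : ℝ) ^ (1 : ℝ) :=
          Real.rpow_le_rpow_of_exponent_le hn1' (by linarith)
      _ = n := Real.rpow_one _
  have hG : ∑ d ∈ (Icc 1 (Lv n θ)).filter Squarefree, (8 * (k : ℝ)) ^ d.primeFactors.card / d ≤
      L ^ (8 * k + 1) := by
    refine (m6_sqf (Lv n θ) (8 * (k : ℝ)) (by positivity)).trans ?_
    have h1 := m6_prod C hCh (8 * k) n hn2 ((Icc 1 (Lv n θ)).filter Nat.Prime) (fun q hq => by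
      rw [mem_filter, mem_Icc] at hq
      refine ⟨hq.2, ?_⟩
      have : (q : ℝ) ≤ (Lv n θ : ℝ) := by exact_mod_cast hq.1.2
      linarith)
    push_cast at h1 a4
    refine h1.trans ?_
    rw [pow_succ, mul_comm (L ^ (8 * k)) L]
    exact mul_le_mul_of_nonneg_right a4 (by positivity)
  have hτ : Sieve.poly (Sieve.cE (r + 1)) (fun q : ℕ => 2 * (k : ℝ) / q) (Ps W p1) ≤
      L / L ^ (2 * M) := by
    have h1 := Sieve.rankinE (f := fun q : ℕ => 2 * (k : ℝ) / q) (Q := Ps W p1)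
      (fun p _ => by positivity) (r + 1) (l := Real.exp 1) (Real.exp_pos _).le
    have h2 : ∏ p ∈ Ps W p1, (1 + Real.exp 1 * (2 * (k : ℝ) / p)) ≤
        Real.exp (∑ q ∈ Ps W p1, ((6 * k : ℕ) : ℝ) / (q : ℝ)) := by
      rw [Real.exp_sum]
      refine prod_le_prod (fun q _ => by positivity) (fun q _ => ?_)
      have h3 := Real.add_one_le_exp (((6 * k : ℕ) : ℝ) / (q : ℝ))
      refine le_trans ?_ h3
      have h4 : Real.exp 1 * (2 * (k : ℝ) / q) ≤ ((6 * k : ℕ) : ℝ) / (q : ℝ) := by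
        have h5 : Real.exp 1 ≤ 3 := by
          have := Real.exp_one_lt_d9
          linarith
        calc Real.exp 1 * (2 * (k : ℝ) / q) ≤ 3 * (2 * (k : ℝ) / q) :=
              mul_le_mul_of_nonneg_right h5 (by positivity)
          _ = ((6 * k : ℕ) : ℝ) / (q : ℝ) := by
              push_cast
              ring
      linarith
    have h3 := m6_prod C hCh (6 * k) W hW2 (Ps W p1) (fun q hq => by
      unfold Ps at hq
      rw [mem_filter, mem_Icc] at hq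
      exact ⟨hq.2.1, by exact_mod_cast hq.1.2⟩)
    have h4 : Real.exp ((6 * k : ℕ) * C) * Real.log W ^ (6 * k) ≤ L := by
      refine le_trans ?_ a5
      refine mul_le_mul_of_nonneg_left ?_ (Real.exp_pos _).le
      exact pow_le_pow_left₀ hlW0.le hlW' _
    have h5 : Real.exp 1 ^ (r + 1) * Sieve.poly (Sieve.cE (r + 1)) (fun q : ℕ => 2 * (k : ℝ) / q)
        (Ps W p1) ≤ L := h1.trans (h2.trans (h3.trans h4))
    have h6 : L ^ (2 * M) ≤ Real.exp 1 ^ (r + 1) := by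
      rw [← Real.exp_nat_mul, mul_one]
      calc L ^ (2 * M) = Real.exp ((2 * M : ℕ) * Real.log L) := by
            rw [Real.exp_nat_mul, Real.exp_log hLp]
        _ ≤ Real.exp ((r + 1 : ℕ) : ℝ) := by
            apply Real.exp_le_exp.2
            push_cast
            linarith
    have h7 : 0 ≤ Sieve.poly (Sieve.cE (r + 1)) (fun q : ℕ => 2 * (k : ℝ) / q) (Ps W p1) := by
      apply Sieve.poly_nonneg
      · intro D
        unfold Sieve.cE
        split_ifs <;> norm_num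
      · intro p _
        positivity
    rw [le_div_iff₀ (by positivity), mul_comm]
    exact (mul_le_mul_of_nonneg_right h6 h7).trans h5
  -- the level
  have hWn : (W : ℝ) ^ (r + 1) ≤ (n : ℝ) ^ θ := by
    have h1 : (W : ℝ) ^ (r + 1) = Real.exp ((r + 1 : ℕ) * Real.log W) := by
      rw [Real.exp_nat_mul, Real.exp_log (by linarith)]
    rw [h1, Real.rpow_def_of_pos hn0]
    apply Real.exp_le_exp.2
    rw [← hLdef]
    push_cast
    calc ((r : ℝ) + 1) * Real.log W ≤ (2 * (M : ℝ) * Real.log L + 3) * (B * Real.log L + Real.log 2) :=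
          mul_le_mul hrhi hlW hlW0.le (by positivity)
      _ = (B * Real.log L + Real.log 2) * (2 * M * Real.log L + 3) := by ring
      _ ≤ θ * L := a6
      _ = L * θ := by ring
  have hDD : (n : ℝ) ^ (2 * θ) * (W : ℝ) ^ (r + 1) * (Lv n θ : ℕ) ≤ D := by
    refine le_trans ?_ hD
    calc (n : ℝ) ^ (2 * θ) * (W : ℝ) ^ (r + 1) * (Lv n θ : ℕ)
        ≤ (n : ℝ) ^ (2 * θ) * (n : ℝ) ^ θ * (n : ℝ) ^ (1 / 2 - 4 * θ) := by
          apply mul_le_mul _ hD1n (Nat.cast_nonneg _) (by positivity)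
          exact mul_le_mul_of_nonneg_left hWn (by positivity)
      _ = (n : ℝ) ^ (1 / 2 - θ) := by
          rw [← Real.rpow_add hn0, ← Real.rpow_add hn0]
          congr 1
          ring
  have hmt := mt s P H i W p1 R T P' k b K 3 r D (Lv n θ) hy hr hr0 hr2 hrq hKc hK (by norm_num) hk hre
    F F0 (L ^ cF) ((n : ℝ) ^ (2 * θ)) (by positivity) (by positivity) hF hDD
    (n / L ^ (A0 + cF + 1)) hLv (L ^ (12 * K + 1)) (L ^ (8 * k + 1)) (L / L ^ (2 * M)) hPi hG hτ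
  refine hmt.trans ?_
  have hfin := m6_final K k cF A0 B L n s.X b W a1 a2 (Nat.cast_nonneg _) hy.X0 (Nat.cast_nonneg _)
    hX hb hWr.2 hB
  rw [← hM] at hfin
  push_cast at hfin ⊢
  exact hfin

end Pool.Agent.Lib.H57C
end
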