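import Pool.Agent.Lib.H1M.RV.M036
import Pool.Agent.Lib.H1M.RV.M065
import Pool.Agent.Lib.H1M.RV.M088

/-! Merged copies (to shorten the build) of Lib.H18GB.RCNC. -/

-- from Lib.H18GB.RCNC
section

/-!
# Project GB: RCNC (relative cut norm estimate, core)
-/

namespace Pool.Agent.Lib.H18GB

open Finset Pool.Agent.Lib.Sieve

/-- the upper singular factor: `∏ p ∣ d, p > w, (1 - 1/p)^(-1)` -/
noncomputable def SW (w : ℕ) (d : ℤ) : ℝ :=
  ∏ p ∈ d.natAbs.primeFactors.filter (fun p => w < p), (1 - 1 / (p : ℝ))⁻¹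

/-- the deviation kernel `1[σ (x - y) ≥ 0] (lam (x + y) lam (σ (x - y)) - 1)` -/
noncomputable def ker (W : ℕ) (r1 r2 σ x y : ℤ) : ℝ :=
  if 0 ≤ σ * (x - y) then lam W r1 (x + y) * lam W r2 (σ * (x - y)) - 1 else 0

/-! ## Auxiliary lemmas -/

theorem rc_er_mono {C C' A w : ℕ} (hC : 1 ≤ C) (h : C ≤ C') (hw : 1 ≤ w) :
    er C A w ≤ er C' A w := by
  unfold er
  have h1 : (0:ℝ) < C := by exact_mod_cast hC
  have h2 : (C:ℝ) ≤ C' := by exact_mod_cast h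
  apply add_le_add
  · apply Real.rpow_le_rpow_of_exponent_le (by norm_num)
    rw [neg_div, neg_div, neg_le_neg_iff]
    exact div_le_div_of_nonneg_left (Nat.cast_nonneg _) h1 h2
  · apply Real.rpow_le_rpow_of_exponent_le (by exact_mod_cast hw)
    rw [neg_div, neg_div, neg_le_neg_iff]
    exact div_le_div_of_nonneg_left (by norm_num) h1 h2

theorem rc_er_le_two {C A w : ℕ} (hw : 1 ≤ w) : er C A w ≤ 2 := by
  unfold er
  have h1 : (2 : ℝ) ^ (-(A : ℝ) / C) ≤ 1 := by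
    apply Real.rpow_le_one_of_one_le_of_nonpos (by norm_num)
    rw [neg_div]
    have : (0 : ℝ) ≤ (A : ℝ) / C := by positivity
    linarith
  have h2 : (w : ℝ) ^ (-(1 : ℝ) / C) ≤ 1 := by
    apply Real.rpow_le_one_of_one_le_of_nonpos (by exact_mod_cast hw)
    rw [neg_div]
    have : (0 : ℝ) ≤ (1 : ℝ) / C := by positivity
    linarith
  linarith

theorem rc_VV_ge (w z : ℕ) (hz : 1 ≤ z) : (1 : ℝ) / z ≤ VV (sprimes w z) := by
  have h1 : ∀ z : ℕ, 1 ≤ z → ∏ n ∈ Finset.Icc 2 z, (1 - 1 / (n : ℝ)) = 1 / z := by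
    intro z hz
    induction z, hz using Nat.le_induction with
    | base => simp
    | succ n hn ih =>
      rw [Finset.prod_Icc_succ_top (by omega), ih]
      have : (0:ℝ) < n := by exact_mod_cast hn
      push_cast
      field_simp
      ring
  rw [← h1 z hz]
  unfold VV
  have hsub : sprimes w z ⊆ Finset.Icc 2 z := by
    intro p hp
    obtain ⟨h1, h2, h3⟩ := mem_sprimes.mp hp
    exact Finset.mem_Icc.mpr ⟨h1.two_le, h3⟩
  rw [← Finset.prod_sdiff hsub]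
  have hf : ∀ n ∈ Finset.Icc 2 z, 0 ≤ 1 - 1 / (n : ℝ) ∧ 1 - 1 / (n : ℝ) ≤ 1 := by
    intro n hn
    have hn2 : (2 : ℝ) ≤ n := by exact_mod_cast (Finset.mem_Icc.mp hn).1
    constructor
    · rw [sub_nonneg, div_le_one (by linarith)]
      linarith
    · have : (0 : ℝ) ≤ 1 / n := by positivity
      linarith
  have ha : ∏ n ∈ Finset.Icc 2 z \ sprimes w z, (1 - 1 / (n : ℝ)) ≤ 1 := by
    apply Finset.prod_le_one
    · intro n hn
      exact (hf n (Finset.mem_sdiff.mp hn).1).1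
    · intro n hn
      exact (hf n (Finset.mem_sdiff.mp hn).1).2
  have hb : 0 ≤ ∏ n ∈ sprimes w z, (1 - 1 / (n : ℝ)) := by
    apply Finset.prod_nonneg
    intro n hn
    exact (hf n (hsub hn)).1
  nlinarith

theorem rc_VV_inv_le (w z : ℕ) (hz : 1 ≤ z) : (VV (sprimes w z))⁻¹ ≤ z := by
  have h := rc_VV_ge w z hz
  have hz0 : (0 : ℝ) < z := by exact_mod_cast hz
  have h2 : (VV (sprimes w z))⁻¹ ≤ (1 / (z : ℝ))⁻¹ := by
    apply inv_anti₀ (by positivity) h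
  simpa using h2

theorem rc_VV_le_SGp {w z : ℕ} (hw : 2 ≤ w) (d : ℤ) : VV (sprimes w z) ≤ SGp (sprimes w z) d := by
  unfold VV SGp
  apply Finset.prod_le_prod
  · intro p hp
    obtain ⟨h1, h2, h3⟩ := mem_sprimes.mp hp
    have hp3 : (3 : ℝ) ≤ p := by exact_mod_cast (by omega : 3 ≤ p)
    rw [sub_nonneg, div_le_one (by linarith)]
    linarith
  · intro p hp
    obtain ⟨h1, h2, h3⟩ := mem_sprimes.mp hp
    have hp3 : (3 : ℝ) ≤ p := by exact_mod_cast (by omega : 3 ≤ p)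
    have hx : (1 : ℝ) / p ≤ 1 / 3 := by
      apply div_le_div_of_nonneg_left <;> linarith
    have hx0 : (0 : ℝ) < 1 / p := by positivity
    set x : ℝ := 1 / p with hxd
    have h2x : (2 : ℝ) / p = 2 * x := by rw [hxd]; ring
    split_ifs with h
    · have : (1 : ℝ) ≤ (1 - x)⁻¹ := by
        rw [one_le_inv₀ (by linarith)]
        linarith
      linarith
    · rw [h2x, le_div_iff₀ (by nlinarith)]
      nlinarith [mul_pos hx0 hx0, mul_nonneg hx0.le (sub_nonneg.mpr hx)]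

theorem rc_rho_le {w z : ℕ} (hz : 1 ≤ z) (v : ℤ) : rho (sprimes w z) v ≤ z := by
  unfold rho
  split_ifs
  · exact rc_VV_inv_le w z hz
  · positivity

theorem rc_rho_neg (S : Finset ℕ) (v : ℤ) : rho S (-v) = rho S v := by
  unfold rho Rgh
  simp

theorem rc_omega_le {w z : ℕ} (hw : 2 ≤ w) (hz : 1 ≤ z) (a b d : ℤ) :
    0 ≤ rho (sprimes w z) a * rho (sprimes w z) b / SGp (sprimes w z) d ∧
    rho (sprimes w z) a * rho (sprimes w z) b / SGp (sprimes w z) d ≤ z ^ 3 := by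
  have hS := (pset_sprimes w z).prime
  have h1 := rho_nonneg hS a
  have h2 := rho_nonneg hS b
  have h3 := rc_rho_le (w := w) hz a
  have h4 := rc_rho_le (w := w) hz b
  have h5 := VV_pos hS
  have h6 := rc_VV_le_SGp (w := w) (z := z) hw d
  have h7 : 0 < SGp (sprimes w z) d := lt_of_lt_of_le h5 h6
  have hz0 : (0 : ℝ) < z := by exact_mod_cast hz
  refine ⟨by positivity, ?_⟩
  rw [div_le_iff₀ h7]
  have h8 := rc_VV_ge w z hz
  have h9 : (1 : ℝ) ≤ z * SGp (sprimes w z) d := by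
    have : (1 : ℝ) / z ≤ SGp (sprimes w z) d := le_trans h8 h6
    rw [div_le_iff₀ hz0] at this
    linarith
  calc rho (sprimes w z) a * rho (sprimes w z) b ≤ z * z :=
        mul_le_mul h3 h4 h2 hz0.le
    _ ≤ z * z * (z * SGp (sprimes w z) d) := by
        nlinarith [mul_pos hz0 hz0]
    _ = z ^ 3 * SGp (sprimes w z) d := by ring

/-- Cauchy-Schwarz step -/
theorem rc_cs (N : ℕ) (F ω : ℤ → ℝ) (Γ : ℤ → ℂ) (K Xω X2 X3 : ℝ) (hK : 0 ≤ K)
    (hF : ∀ x, |F x| ≤ K * ω x) (hω : ∑ x ∈ Finset.Ico (0:ℤ) N, ω x ≤ Xω)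
    (h2 : (∑ x ∈ Finset.Ico (-(3 * N : ℤ)) (3 * N), ‖Γ x‖ ^ 2) ^ 2 ≤ X2)
    (h3 : |∑ x ∈ Finset.Ico (0:ℤ) N, (ω x - 1) * ‖Γ x‖ ^ 2| ≤ X3) :
    ‖∑ x ∈ Finset.Ico (0:ℤ) N, (F x : ℂ) * Γ x‖ ^ 2 ≤ K ^ 2 * Xω * (Real.sqrt X2 + X3) := by
  have ha : ‖∑ x ∈ Finset.Ico (0:ℤ) N, (F x : ℂ) * Γ x‖ ≤
      ∑ x ∈ Finset.Ico (0:ℤ) N, |F x| * ‖Γ x‖ := by
    refine le_trans (norm_sum_le _ _) (le_of_eq ?_)
    apply Finset.sum_congr rfl
    intro x _
    rw [norm_mul, Complex.norm_real, Real.norm_eq_abs]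
  have hb : (∑ x ∈ Finset.Ico (0:ℤ) N, |F x| * ‖Γ x‖) ^ 2 ≤
      (∑ x ∈ Finset.Ico (0:ℤ) N, |F x|) * ∑ x ∈ Finset.Ico (0:ℤ) N, |F x| * ‖Γ x‖ ^ 2 := by
    apply Finset.sum_sq_le_sum_mul_sum_of_sq_le_mul
    · intro x _; positivity
    · intro x _; positivity
    · intro x _; exact le_of_eq (by ring)
  have hc : ∑ x ∈ Finset.Ico (0:ℤ) N, |F x| ≤ K * Xω := by
    calc ∑ x ∈ Finset.Ico (0:ℤ) N, |F x| ≤ ∑ x ∈ Finset.Ico (0:ℤ) N, K * ω x :=
          Finset.sum_le_sum fun x _ => hF x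
      _ = K * ∑ x ∈ Finset.Ico (0:ℤ) N, ω x := by rw [Finset.mul_sum]
      _ ≤ K * Xω := by gcongr
  have hd : ∑ x ∈ Finset.Ico (0:ℤ) N, ‖Γ x‖ ^ 2 ≤ Real.sqrt X2 := by
    apply Real.le_sqrt_of_sq_le
    refine le_trans ?_ h2
    apply pow_le_pow_left₀ (Finset.sum_nonneg fun x _ => by positivity)
    apply Finset.sum_le_sum_of_subset_of_nonneg
    · intro x hx
      rw [Finset.mem_Ico] at hx ⊢
      omega
    · intro x _ _
      positivity
  have he : ∑ x ∈ Finset.Ico (0:ℤ) N, |F x| * ‖Γ x‖ ^ 2 ≤ K * (Real.sqrt X2 + X3) := by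
    calc ∑ x ∈ Finset.Ico (0:ℤ) N, |F x| * ‖Γ x‖ ^ 2
        ≤ ∑ x ∈ Finset.Ico (0:ℤ) N, K * (‖Γ x‖ ^ 2 + (ω x - 1) * ‖Γ x‖ ^ 2) := by
          apply Finset.sum_le_sum
          intro x _
          calc |F x| * ‖Γ x‖ ^ 2 ≤ (K * ω x) * ‖Γ x‖ ^ 2 := by
                apply mul_le_mul_of_nonneg_right (hF x) (by positivity)
            _ = K * (‖Γ x‖ ^ 2 + (ω x - 1) * ‖Γ x‖ ^ 2) := by ring
      _ = K * (∑ x ∈ Finset.Ico (0:ℤ) N, ‖Γ x‖ ^ 2 +
            ∑ x ∈ Finset.Ico (0:ℤ) N, (ω x - 1) * ‖Γ x‖ ^ 2) := by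
          rw [← Finset.mul_sum, Finset.sum_add_distrib]
      _ ≤ K * (Real.sqrt X2 + X3) := by
          gcongr
          exact le_trans (le_abs_self _) h3
  have hf : 0 ≤ ∑ x ∈ Finset.Ico (0:ℤ) N, |F x| := Finset.sum_nonneg fun x _ => abs_nonneg _
  have hg : 0 ≤ ∑ x ∈ Finset.Ico (0:ℤ) N, |F x| * ‖Γ x‖ ^ 2 :=
    Finset.sum_nonneg fun x _ => by positivity
  calc ‖∑ x ∈ Finset.Ico (0:ℤ) N, (F x : ℂ) * Γ x‖ ^ 2
      ≤ (∑ x ∈ Finset.Ico (0:ℤ) N, |F x| * ‖Γ x‖) ^ 2 :=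
        pow_le_pow_left₀ (norm_nonneg _) ha 2
    _ ≤ _ := hb
    _ ≤ (K * Xω) * (K * (Real.sqrt X2 + X3)) :=
        mul_le_mul hc he hg (le_trans hf hc)
    _ = _ := by ring

/-- truncation of `uu` -/
noncomputable def rtr (W : ℕ) (r : ℤ) (z N : ℕ) (n : ℤ) : ℝ :=
  if 0 ≤ n ∧ n < 2 * N ∧ (z : ℤ) < |r + W * n| then uu W r n else 0

noncomputable def ron (N : ℕ) (n : ℤ) : ℝ := if 0 ≤ n ∧ n < 2 * N then 1 else 0

theorem rc_sum_ext (N : ℕ) (G f1 f2 : ℤ → ℝ) (x : ℤ) :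
    ∑ y ∈ Finset.Ico (0:ℤ) N, G y * f1 (x + y) * f2 (x - y) =
    ∑ y ∈ Finset.Ico (-(N:ℤ)) N,
      (if 0 ≤ y ∧ y < N then G y else 0) * f1 (x + y) * f2 (x - y) := by
  symm
  rw [← Finset.sum_subset (s₁ := Finset.Ico (0:ℤ) N)]
  · apply Finset.sum_congr rfl
    intro y hy
    rw [Finset.mem_Ico] at hy
    rw [if_pos hy]
  · intro y hy
    rw [Finset.mem_Ico] at hy ⊢
    omega
  · intro y _ hy
    rw [Finset.mem_Ico] at hy
    rw [if_neg hy]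
    ring

theorem rc_sum_reindex (N : ℕ) (G f1 f2 : ℤ → ℝ) (x : ℤ) :
    ∑ y ∈ Finset.Ico (0:ℤ) N, G y * f2 (x + y) * f1 (x - y) =
    ∑ y ∈ Finset.Ico (-(N:ℤ)) N,
      (if 0 ≤ -y ∧ -y < N then G (-y) else 0) * f1 (x + y) * f2 (x - y) := by
  symm
  rw [← Finset.sum_subset (s₁ := (Finset.Ico (0:ℤ) N).image (fun y => -y))]
  · rw [Finset.sum_image (fun a _ b _ h => neg_injective h)]
    apply Finset.sum_congr rfl
    intro y hy
    rw [Finset.mem_Ico] at hy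
    rw [neg_neg, if_pos hy, ← sub_eq_add_neg, sub_neg_eq_add]
    ring
  · intro y hy
    rw [Finset.mem_image] at hy
    obtain ⟨a, ha, rfl⟩ := hy
    rw [Finset.mem_Ico] at ha ⊢
    omega
  · intro y _ hy
    have : ¬ (0 ≤ -y ∧ -y < N) := by
      intro h
      apply hy
      rw [Finset.mem_image]
      exact ⟨-y, Finset.mem_Ico.mpr h, by ring⟩
    rw [if_neg this]
    ring

theorem rc_ker_split (W N z : ℕ) (r1 r2 σ x y : ℤ) (hσ : σ = 1 ∨ σ = -1) (hx : 0 ≤ x ∧ x < N)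
    (hy : 0 ≤ y ∧ y < N) (L : ℝ) (hL : 1 ≤ L)
    (h1 : |uu W r1 (x + y)| ≤ L) (h2 : 0 ≤ σ * (x - y) → |uu W r2 (σ * (x - y))| ≤ L) :
    |ker W r1 r2 σ x y - (rtr W r1 z N (x + y) * rtr W r2 z N (σ * (x - y)) +
      rtr W r1 z N (x + y) * ron N (σ * (x - y)) + ron N (x + y) * rtr W r2 z N (σ * (x - y)))| ≤
    2 * L ^ 2 * ((if |r1 + W * (x + y)| ≤ z then 1 else 0) +
      (if |r2 + W * (σ * (x - y))| ≤ z then 1 else 0)) := by
  unfold ker rtr ron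
  have hs : σ * (x - y) < 2 * N := by
    rcases hσ with rfl | rfl <;> omega
  have hxy : 0 ≤ x + y ∧ x + y < 2 * N := by omega
  by_cases h : 0 ≤ σ * (x - y)
  · rw [if_pos h]
    have hu1 : lam W r1 (x + y) = uu W r1 (x + y) + 1 := by unfold uu; ring
    have hu2 : lam W r2 (σ * (x - y)) = uu W r2 (σ * (x - y)) + 1 := by unfold uu; ring
    rw [hu1, hu2]
    have h2' := h2 h
    set u := uu W r1 (x + y)
    set v := uu W r2 (σ * (x - y))
    have hL2 : L ≤ L ^ 2 := by nlinarith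
    have huv : |u * v| ≤ L ^ 2 := by
      rw [abs_mul]
      nlinarith [abs_nonneg u, abs_nonneg v]
    have huL : |u| ≤ L ^ 2 := h1.trans hL2
    have hvL : |v| ≤ L ^ 2 := h2'.trans hL2
    have hon1 : (if 0 ≤ x + y ∧ x + y < 2 * (N:ℤ) then (1:ℝ) else 0) = 1 := if_pos hxy
    have hon2 : (if 0 ≤ σ * (x - y) ∧ σ * (x - y) < 2 * (N:ℤ) then (1:ℝ) else 0) = 1 :=
      if_pos ⟨h, hs⟩
    rw [hon1, hon2]
    by_cases t1 : |r1 + W * (x + y)| ≤ z
    · have t1' : ¬ (0 ≤ x + y ∧ x + y < 2 * (N:ℤ) ∧ (z : ℤ) < |r1 + W * (x + y)|) := by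
        rintro ⟨-, -, h⟩
        omega
      rw [if_neg t1', if_pos t1]
      by_cases t2 : |r2 + W * (σ * (x - y))| ≤ z
      · have t2' : ¬ (0 ≤ σ * (x - y) ∧ σ * (x - y) < 2 * (N:ℤ) ∧
            (z : ℤ) < |r2 + W * (σ * (x - y))|) := by
          rintro ⟨-, -, h⟩
          omega
        rw [if_neg t2', if_pos t2]
        have : |(u + 1) * (v + 1) - 1 - (0 * 0 + 0 * 1 + 1 * 0)| ≤ |u * v| + |u| + |v| := by
          have e1 : (u + 1) * (v + 1) - 1 - (0 * 0 + 0 * 1 + 1 * 0) = u * v + u + v := by ring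
          rw [e1]
          exact abs_add_three _ _ _
        linarith
      · have t2' : (0 ≤ σ * (x - y) ∧ σ * (x - y) < 2 * (N:ℤ) ∧
            (z : ℤ) < |r2 + W * (σ * (x - y))|) := ⟨h, hs, by omega⟩
        rw [if_pos t2', if_neg t2]
        have : |(u + 1) * (v + 1) - 1 - (0 * v + 0 * 1 + 1 * v)| ≤ |u * v| + |u| := by
          have e1 : (u + 1) * (v + 1) - 1 - (0 * v + 0 * 1 + 1 * v) = u * v + u := by ring
          rw [e1]
          exact abs_add_le _ _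
        linarith
    · have t1' : (0 ≤ x + y ∧ x + y < 2 * (N:ℤ) ∧ (z : ℤ) < |r1 + W * (x + y)|) :=
        ⟨hxy.1, hxy.2, by omega⟩
      rw [if_pos t1', if_neg t1]
      by_cases t2 : |r2 + W * (σ * (x - y))| ≤ z
      · have t2' : ¬ (0 ≤ σ * (x - y) ∧ σ * (x - y) < 2 * (N:ℤ) ∧
            (z : ℤ) < |r2 + W * (σ * (x - y))|) := by
          rintro ⟨-, -, h⟩
          omega
        rw [if_neg t2', if_pos t2]
        have : |(u + 1) * (v + 1) - 1 - (u * 0 + u * 1 + 1 * 0)| ≤ |u * v| + |v| := by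
          have e1 : (u + 1) * (v + 1) - 1 - (u * 0 + u * 1 + 1 * 0) = u * v + v := by ring
          rw [e1]
          exact abs_add_le _ _
        linarith
      · have t2' : (0 ≤ σ * (x - y) ∧ σ * (x - y) < 2 * (N:ℤ) ∧
            (z : ℤ) < |r2 + W * (σ * (x - y))|) := ⟨h, hs, by omega⟩
        rw [if_pos t2', if_neg t2]
        have e1 : (u + 1) * (v + 1) - 1 - (u * v + u * 1 + 1 * v) = 0 := by ring
        rw [e1, abs_zero]
        positivity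
  · rw [if_neg h]
    have t2' : ¬ (0 ≤ σ * (x - y) ∧ σ * (x - y) < 2 * (N:ℤ) ∧
            (z : ℤ) < |r2 + W * (σ * (x - y))|) := by
      rintro ⟨h', -, -⟩
      exact h h'
    have t3' : ¬ (0 ≤ σ * (x - y) ∧ σ * (x - y) < 2 * (N:ℤ)) := by
      rintro ⟨h', -⟩
      exact h h'
    rw [if_neg t2', if_neg t3']
    have e1 : ∀ a b : ℝ, (0:ℝ) - (a * 0 + a * 0 + b * 0) = 0 := by intro a b; ring
    rw [e1, abs_zero]
    positivity


theorem rc_exists_A (C : ℕ) (hC : 1 ≤ C) (c : ℝ) (hc : 0 < c) :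
    ∃ A : ℕ, C ≤ A ∧ (2:ℝ) ^ (-(A:ℝ) / C) * ((C * A : ℕ) : ℝ) ^ 16 ≤ c := by
  have hC0 : (0:ℝ) < C := by exact_mod_cast hC
  have hr0 : (0:ℝ) < (2:ℝ) ^ (-(1:ℝ) / C) := Real.rpow_pos_of_pos (by norm_num) _
  have hr1 : (2:ℝ) ^ (-(1:ℝ) / C) < 1 := by
    apply Real.rpow_lt_one_of_one_lt_of_neg (by norm_num)
    rw [neg_div]
    have : (0:ℝ) < 1 / C := by positivity
    linarith
  have h := tendsto_pow_const_mul_const_pow_of_abs_lt_one 16
    (r := (2:ℝ) ^ (-(1:ℝ) / C)) (by rw [abs_of_pos hr0]; exact hr1)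
  have h' : Filter.Tendsto (fun n : ℕ => (C:ℝ) ^ 16 * ((n:ℝ) ^ 16 * ((2:ℝ) ^ (-(1:ℝ) / C)) ^ n))
      Filter.atTop (nhds 0) := by
    simpa using h.const_mul ((C:ℝ) ^ 16)
  obtain ⟨A, hA1, hA2⟩ := ((h'.eventually (gt_mem_nhds hc)).and
    (Filter.eventually_ge_atTop C)).exists
  refine ⟨A, hA2, ?_⟩
  have e1 : (2:ℝ) ^ (-(A:ℝ) / C) = ((2:ℝ) ^ (-(1:ℝ) / C)) ^ A := by
    rw [← Real.rpow_natCast, ← Real.rpow_mul (by norm_num)]
    congr 1
    ring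
  rw [e1]
  refine le_trans (le_of_eq ?_) hA1.le
  push_cast
  ring

theorem rc_exists_w (C : ℕ) (hC : 1 ≤ C) (c : ℝ) (hc : 0 < c) :
    ∃ w0 : ℕ, ∀ w : ℕ, w0 ≤ w → (w:ℝ) ^ (-(1:ℝ) / C) ≤ c := by
  have hC0 : (0:ℝ) < C := by exact_mod_cast hC
  have h : Filter.Tendsto (fun w : ℕ => (w:ℝ) ^ (-(1 / C : ℝ))) Filter.atTop (nhds 0) :=
    (tendsto_rpow_neg_atTop (by positivity)).comp tendsto_natCast_atTop_atTop
  obtain ⟨w0, hw0⟩ := Filter.eventually_atTop.mp (h.eventually (gt_mem_nhds hc))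
  refine ⟨w0, fun w hw => ?_⟩
  have := hw0 w hw
  rw [neg_div]
  exact this.le

open Classical in
theorem rc_omega_sum : ∃ C : ℕ, 1 ≤ C ∧ ∀ (A w z W N : ℕ), C ≤ A → C ≤ w → 2 ≤ w → 2 ≤ z →
    IsW w W → z ^ (A + 2) ≤ N → ∀ (ε1 ε2 b1 b2 : ℤ), ε1 ≠ 0 → |ε1| ≤ 2 → ε2 ≠ 0 → |ε2| ≤ 2 →
    ∑ x ∈ Finset.Ico (0:ℤ) N, rho (sprimes w z) (ε1 * W * x + b1) *
      rho (sprimes w z) (ε2 * W * x + b2) / SGp (sprimes w z) (ε1 * W * b2 - ε2 * W * b1) ≤
      4 * C * N := by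
  obtain ⟨C, hC, h⟩ := corr 0 1
  refine ⟨C, hC, ?_⟩
  intro A w z W N hA hw hw2 hz hW hzN ε1 ε2 b1 b2 he1 he1' he2 he2'
  have hS := pset_sprimes w z
  have hnd : ∀ p ∈ sprimes w z, ∀ ε : ℤ, ε ≠ 0 → |ε| ≤ 2 → ¬ (p : ℤ) ∣ ε * W := by
    intro p hp ε he he' hdvd
    obtain ⟨hp1, hp2, hp3⟩ := hS p hp
    have hpp : Prime (p : ℤ) := Nat.prime_iff_prime_int.mp hp1
    rcases hpp.dvd_or_dvd hdvd with h1 | h1
    · have h2 := Int.le_of_dvd (abs_pos.mpr he) ((dvd_abs _ _).mpr h1)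
      omega
    · exact hW.not_dvd hS p hp h1
  have key := h A w z (sprimes w z) hA hw hz hS
    (fun i => match i with
      | .inl _ => 1
      | .inr (_, false) => ε1 * W
      | .inr (_, true) => ε2 * W)
    (fun i => match i with
      | .inl _ => 0
      | .inr (_, false) => b1
      | .inr (_, true) => b2) ?_ 0 N (by positivity)
  · have hcross : ∀ i : Fin 0 ⊕ (Fin 1 × Bool), (Finset.univ.filter
        (fun j : Fin 0 ⊕ (Fin 1 × Bool) => crossing i j)) = ∅ := by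
      intro i
      apply Finset.filter_eq_empty_iff.mpr
      intro j _ hc
      apply hc.2
      rcases i with i | ⟨i, a⟩
      · exact Fin.elim0 i
      rcases j with j | ⟨j, b⟩
      · exact Fin.elim0 j
      have : i = j := Subsingleton.elim _ _
      subst this
      exact ⟨i, a, b, rfl, rfl⟩
    simp only [Finset.univ_eq_empty, Finset.prod_empty, one_mul, Finset.univ_unique,
      Finset.prod_singleton, disc] at key
    have hz0 : ∀ i : Fin 0 ⊕ (Fin 1 × Bool), ∑ j ∈ Finset.univ.filter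
        (fun j : Fin 0 ⊕ (Fin 1 × Bool) => crossing i j), (0:ℝ) = 0 := by
      intro i; simp
    have h1 := le_of_abs_le key
    have hsum : ∀ f : (Fin 0 ⊕ (Fin 1 × Bool)) → (Fin 0 ⊕ (Fin 1 × Bool)) → ℝ,
        ∑ i, ∑ j ∈ Finset.univ.filter
        (fun j : Fin 0 ⊕ (Fin 1 × Bool) => crossing i j), f i j = 0 := by
      intro f
      apply Finset.sum_eq_zero
      intro i _
      rw [hcross i, Finset.sum_empty]
    rw [hsum] at h1
    have hzN' : (z : ℝ) ^ (A + 0 + 2 * 1) ≤ N := by exact_mod_cast hzN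
    have her : er C A w ≤ 2 := rc_er_le_two (by omega)
    have her0 := er_nonneg C A w
    have hC1 : (1 : ℝ) ≤ C := by exact_mod_cast hC
    have hN0 : (0 : ℝ) ≤ N := Nat.cast_nonneg _
    push_cast at h1
    have h3 : (C : ℝ) * (z : ℝ) ^ (A + 0 + 2 * 1) ≤ C * N := by gcongr
    have h4 : ((N : ℝ) - 0) * (C * er C A w + C * 0) ≤ 2 * C * N := by
      have : (C : ℝ) * er C A w ≤ C * 2 := by gcongr
      nlinarith
    have h5 : (N : ℝ) ≤ C * N := by nlinarith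
    linarith
  · intro p hp i
    rcases i with i | ⟨i, a⟩
    · exact Fin.elim0 i
    · cases a
      · exact hnd p hp ε1 he1 he1'
      · exact hnd p hp ε2 he2 he2'

theorem rc_count (c d : ℤ) (hd : d ≠ 0) (z N : ℕ) :
    ∑ y ∈ Finset.Ico (0:ℤ) N, (if |c + d * y| ≤ z then (1:ℝ) else 0) ≤ 2 * z + 1 := by
  rw [← Finset.sum_filter, Finset.sum_const, nsmul_eq_mul, mul_one]
  have h : ((Finset.Ico (0:ℤ) N).filter fun y => |c + d * y| ≤ z).card ≤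
      (Finset.Icc (-(z:ℤ)) z).card := by
    apply Finset.card_le_card_of_injOn (fun y => c + d * y)
    · intro y hy
      rw [Finset.mem_coe, Finset.mem_filter] at hy
      rw [Finset.mem_coe, Finset.mem_Icc]
      exact abs_le.mp hy.2
    · intro a _ b _ hab
      have : d * a = d * b := by simpa using hab
      exact mul_left_cancel₀ hd this
  rw [Int.card_Icc] at h
  have h2 : ((Finset.Ico (0:ℤ) N).filter fun y => |c + d * y| ≤ z).card ≤ 2 * z + 1 := by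
    omega
  exact_mod_cast h2

theorem rc_lamv_nonneg (W : ℕ) (v : ℤ) : 0 ≤ lamv W v := by
  unfold lamv
  split_ifs with h
  · apply mul_nonneg (by positivity)
    apply Real.log_natCast_nonneg
  · exact le_rfl

theorem rc_lamv_le {W N : ℕ} (hW : 0 < W) (hN : 1 ≤ N) (v : ℤ) (hv : |v| ≤ 5 * W * N) :
    lamv W v ≤ Real.log (5 * W * N) := by
  have h5 : (1:ℝ) ≤ 5 * W * N := by
    have : 1 ≤ 5 * W * N := Nat.mul_pos (by omega) hN
    exact_mod_cast this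
  unfold lamv
  split_ifs with h
  · have h1 : (Nat.totient W : ℝ) / W ≤ 1 := by
      rw [div_le_one (by exact_mod_cast hW)]
      exact_mod_cast Nat.totient_le W
    have h2 : (v.natAbs : ℝ) ≤ 5 * W * N := by
      have : v.natAbs ≤ 5 * W * N := by
        zify
        exact hv
      exact_mod_cast this
    have h3 : Real.log v.natAbs ≤ Real.log (5 * W * N) := by
      apply Real.log_le_log _ h2
      exact_mod_cast h.pos
    have h4 : 0 ≤ Real.log v.natAbs := Real.log_natCast_nonneg _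
    calc (Nat.totient W : ℝ) / W * Real.log v.natAbs ≤ 1 * Real.log v.natAbs := by gcongr
      _ ≤ _ := by rw [one_mul]; exact h3
  · exact Real.log_nonneg h5

theorem rc_uu_le {W N : ℕ} (hW : 0 < W) (hN : 1 ≤ N) (r n : ℤ) (hv : |r + W * n| ≤ 5 * W * N) :
    |uu W r n| ≤ 1 + Real.log (5 * W * N) := by
  have h1 := rc_lamv_le hW hN _ hv
  have h2 := rc_lamv_nonneg W (r + W * n)
  unfold uu lam
  rw [abs_le]
  constructor <;> linarith

theorem rc_arg_le {W N : ℕ} (hW : 0 < W) (hN : 1 ≤ N) {r : ℤ} (hr : |r| < 2 * W) {n : ℤ}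
    (h0 : 0 ≤ n) (h1 : n < 2 * N) : |r + W * n| ≤ 5 * W * N := by
  have h2 : |r + W * n| ≤ |r| + |(W:ℤ) * n| := abs_add_le _ _
  have h3 : |(W:ℤ) * n| = W * n := abs_of_nonneg (by positivity)
  have h4 : (W:ℤ) * n ≤ W * (2 * N) := by
    apply mul_le_mul_of_nonneg_left h1.le (by positivity)
  have h5 : (2:ℤ) * W ≤ 2 * W * N := by
    have : (1:ℤ) ≤ N := by exact_mod_cast hN
    nlinarith [(by positivity : (0:ℤ) ≤ 2 * W)]
  have h6 : (0:ℤ) ≤ W * N := by positivity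
  nlinarith

theorem rc_num (D s K0 ε δ E ε1 N X2 X3 Xω : ℝ) (hD : 1 ≤ D) (hs : 1 ≤ s) (hK : 1 ≤ K0)
    (hN : 0 ≤ N) (hε : 0 < ε)
    (hδ : δ = ε ^ 2 / (288 * D * K0 ^ 2)) (hε1 : ε1 = δ ^ 2 / (2 * D ^ 5 * s ^ 12))
    (hE0 : 0 ≤ E) (hE1 : E * s ^ 16 * (4 * D ^ 9) ≤ δ ^ 2) (hE2 : E * s ^ 16 * D ^ 5 ≤ δ)
    (hX2 : X2 ≤ N ^ 6 * (D ^ 5 * s ^ 4 * ε1 + 2 * D ^ 9 * s ^ 8 * E))
    (hX3 : X3 ≤ D ^ 5 * s ^ 4 * E * N ^ 3) (hXω : Xω ≤ 4 * D * N) (hXω0 : 0 ≤ Xω) :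
    (K0 * s ^ 2) ^ 2 * Xω * (Real.sqrt X2 + X3) ≤ (ε / 6 * N ^ 2) ^ 2 := by
  have hs0 : 0 < s := by linarith
  have hD0 : 0 < D := by linarith
  have hK00 : 0 < K0 := by linarith
  have hδ0 : 0 < δ := by rw [hδ]; positivity
  have h1 : D ^ 5 * s ^ 4 * ε1 + 2 * D ^ 9 * s ^ 8 * E ≤ (δ / s ^ 4) ^ 2 := by
    have e1 : D ^ 5 * s ^ 4 * ε1 = δ ^ 2 / (2 * s ^ 8) := by
      rw [hε1]; field_simp
    have e2 : 2 * D ^ 9 * s ^ 8 * E ≤ δ ^ 2 / (2 * s ^ 8) := by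
      rw [le_div_iff₀ (by positivity)]
      calc 2 * D ^ 9 * s ^ 8 * E * (2 * s ^ 8) = E * s ^ 16 * (4 * D ^ 9) := by ring
        _ ≤ _ := hE1
    have e3 : (δ / s ^ 4) ^ 2 = δ ^ 2 / (2 * s ^ 8) + δ ^ 2 / (2 * s ^ 8) := by
      field_simp
      ring
    rw [e1, e3]
    linarith
  have h2 : Real.sqrt X2 ≤ N ^ 3 * (δ / s ^ 4) := by
    apply Real.sqrt_le_iff.mpr
    refine ⟨by positivity, ?_⟩
    calc X2 ≤ N ^ 6 * (D ^ 5 * s ^ 4 * ε1 + 2 * D ^ 9 * s ^ 8 * E) := hX2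
      _ ≤ N ^ 6 * (δ / s ^ 4) ^ 2 := by gcongr
      _ = _ := by ring
  have h3 : X3 ≤ N ^ 3 * (δ / s ^ 4) := by
    refine hX3.trans ?_
    have : D ^ 5 * s ^ 4 * E ≤ δ / s ^ 4 := by
      rw [le_div_iff₀ (by positivity)]
      have e : D ^ 5 * s ^ 4 * E * s ^ 4 ≤ E * s ^ 16 * D ^ 5 := by
        have hs8 : s ^ 8 ≤ s ^ 16 := pow_le_pow_right₀ hs (by norm_num)
        have : 0 ≤ D ^ 5 * E := by positivity
        nlinarith
      linarith
    nlinarith [pow_nonneg hN 3]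
  have hsum : Real.sqrt X2 + X3 ≤ 2 * N ^ 3 * (δ / s ^ 4) := by linarith
  calc (K0 * s ^ 2) ^ 2 * Xω * (Real.sqrt X2 + X3)
      ≤ (K0 * s ^ 2) ^ 2 * Xω * (2 * N ^ 3 * (δ / s ^ 4)) := by gcongr
    _ ≤ (K0 * s ^ 2) ^ 2 * (4 * D * N) * (2 * N ^ 3 * (δ / s ^ 4)) := by gcongr
    _ = (ε / 6 * N ^ 2) ^ 2 := by
      rw [hδ]
      field_simp
      ring

/-- the truncation error -/
theorem rc_err (K0 ε : ℝ) (hK0 : 1 ≤ K0) (hε : 0 < ε) (s W : ℕ) (hs : 8 ≤ s) (hW : 0 < W) :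
    ∃ N0 : ℕ, ∀ N : ℕ, N0 ≤ N → 1 ≤ N ∧ (1 ≤ rt s N →
      K0 * s ^ 2 * (rt s N) ^ 3 * (2 * (1 + Real.log (5 * W * N)) ^ 2) *
        (2 * N * (2 * rt s N + 1)) ≤ ε / 2 * N ^ 2) := by
  have hW0 : (0:ℝ) < W := by exact_mod_cast hW
  have hW1 : (1:ℝ) ≤ W := by exact_mod_cast hW
  set c : ℝ := 9 + Real.log (5 * W) with hc
  have hc0 : 0 < c := by
    have : 0 ≤ Real.log (5 * W) := Real.log_nonneg (by linarith)
    linarith
  have hs0 : (0:ℝ) < s := by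
    have : 0 < s := by omega
    exact_mod_cast this
  obtain ⟨N0, hN0⟩ := exists_nat_ge (((24 * K0 * s ^ 2 * c ^ 2 / ε) + 1) ^ 4)
  refine ⟨max N0 1, fun N hN => ?_⟩
  have hN1 : 1 ≤ N := le_trans (le_max_right _ _) hN
  refine ⟨hN1, fun hz1 => ?_⟩
  have hNN : ((24 * K0 * s ^ 2 * c ^ 2 / ε) + 1) ^ 4 ≤ (N:ℝ) :=
    le_trans hN0 (by exact_mod_cast le_trans (le_max_left _ _) hN)
  have hNr : (1:ℝ) ≤ N := by exact_mod_cast hN1
  set a : ℝ := (N:ℝ) ^ ((1:ℝ) / 8) with ha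
  have ha0 : 0 ≤ a := by positivity
  have ha8 : a ^ 8 = N := by
    rw [ha, ← Real.rpow_natCast, ← Real.rpow_mul (by positivity)]
    norm_num
  have ha1 : 1 ≤ a := by
    rw [ha]
    exact Real.one_le_rpow hNr (by norm_num)
  have hza : (rt s N : ℝ) ≤ a := by
    have h1 : (rt s N : ℝ) ^ 8 ≤ a ^ 8 := by
      rw [ha8]
      calc (rt s N : ℝ) ^ 8 ≤ (rt s N : ℝ) ^ s :=
            pow_le_pow_right₀ (by exact_mod_cast hz1) hs
        _ ≤ N := by exact_mod_cast rt_pow_le (by omega) N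
    exact le_of_pow_le_pow_left₀ (by norm_num) ha0 h1
  have hlog : 1 + Real.log (5 * W * N) ≤ c * a := by
    rw [Real.log_mul (by positivity) (by positivity)]
    have h1 : Real.log N ≤ (N:ℝ) ^ ((1:ℝ) / 8) / (1 / 8) :=
      Real.log_le_rpow_div (by positivity) (by norm_num)
    rw [← ha] at h1
    have h2 : 0 ≤ Real.log (5 * W) := Real.log_nonneg (by linarith)
    have h3 : Real.log N ≤ 8 * a := by linarith
    rw [hc]
    nlinarith
  have hlog0 : 0 ≤ 1 + Real.log (5 * W * N) := by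
    have : 0 ≤ Real.log (5 * W * N) := Real.log_nonneg (by nlinarith)
    linarith
  have ha2 : 24 * K0 * s ^ 2 * c ^ 2 ≤ ε * a ^ 2 := by
    have h1 : ((24 * K0 * s ^ 2 * c ^ 2 / ε) + 1) ^ 4 ≤ (a ^ 2) ^ 4 := by
      rw [← pow_mul, ha8]
      exact hNN
    have h2 := le_of_pow_le_pow_left₀ (by norm_num) (by positivity) h1
    have h3 : 24 * K0 * s ^ 2 * c ^ 2 / ε ≤ a ^ 2 := by linarith
    rw [div_le_iff₀ hε] at h3
    linarith
  have hz0 : (0:ℝ) ≤ rt s N := Nat.cast_nonneg _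
  have hz1' : (1:ℝ) ≤ rt s N := by exact_mod_cast hz1
  calc K0 * s ^ 2 * (rt s N) ^ 3 * (2 * (1 + Real.log (5 * W * N)) ^ 2) *
        (2 * N * (2 * rt s N + 1))
      ≤ K0 * s ^ 2 * a ^ 3 * (2 * (c * a) ^ 2) * (2 * N * (3 * a)) := by
        gcongr
        linarith
    _ = (24 * K0 * s ^ 2 * c ^ 2) * a ^ 6 * N / 2 := by ring
    _ ≤ (ε * a ^ 2) * a ^ 6 * N / 2 := by gcongr
    _ = ε / 2 * a ^ 8 * N := by ring
    _ = ε / 2 * N ^ 2 := by rw [ha8]; ring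


/-- second moments for the reflected function -/
theorem rc_reflect (N : ℕ) (f : ℤ → ℂ) (hf : ∀ n : ℤ, ¬ (0 ≤ n ∧ n < 2 * N) → f n = 0) (m : ℤ → ℝ)
    (hm : ∀ (h : ℤ) (θ : ℝ), ‖∑ n ∈ Finset.Ico (-(2 * N : ℤ)) (2 * N),
      f n * (starRingEnd ℂ) (f (n + h)) * e (θ * n)‖ ≤ m h) :
    ∀ (h : ℤ) (θ : ℝ), ‖∑ n ∈ Finset.Ico (-(2 * N : ℤ)) (2 * N),
      f (-n) * (starRingEnd ℂ) (f (-(n + h))) * e (θ * n)‖ ≤ m (-h) := by
  intro h θ
  refine le_trans (le_of_eq ?_) (hm (-h) (-θ))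
  congr 1
  have e1 : ∑ n ∈ Finset.Ico (-(2 * N : ℤ)) (2 * N),
      f (-n) * (starRingEnd ℂ) (f (-(n + h))) * e (θ * n) =
      ∑ n ∈ Finset.Ioo (-(2 * N : ℤ)) (2 * N),
      f (-n) * (starRingEnd ℂ) (f (-(n + h))) * e (θ * n) := by
    symm
    apply Finset.sum_subset
    · intro n hn
      rw [Finset.mem_Ioo] at hn
      rw [Finset.mem_Ico]
      omega
    · intro n hn hn'
      rw [Finset.mem_Ico] at hn
      rw [Finset.mem_Ioo] at hn'
      rw [hf (-n) (by omega)]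
      ring
  have e2 : ∑ n ∈ Finset.Ico (-(2 * N : ℤ)) (2 * N),
      f n * (starRingEnd ℂ) (f (n + -h)) * e (-θ * n) =
      ∑ n ∈ Finset.Ioo (-(2 * N : ℤ)) (2 * N),
      f n * (starRingEnd ℂ) (f (n + -h)) * e (-θ * n) := by
    symm
    apply Finset.sum_subset
    · intro n hn
      rw [Finset.mem_Ioo] at hn
      rw [Finset.mem_Ico]
      omega
    · intro n hn hn'
      rw [Finset.mem_Ico] at hn
      rw [Finset.mem_Ioo] at hn'
      rw [hf n (by omega)]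
      ring
  rw [e1, e2]
  apply Finset.sum_nbij' (fun n => -n) (fun n => -n)
  · intro n hn
    rw [Finset.mem_Ioo] at hn ⊢
    omega
  · intro n hn
    rw [Finset.mem_Ioo] at hn ⊢
    omega
  · intro n _; ring
  · intro n _; ring
  · intro n _
    have h1 : -(n + h) = -n + -h := by ring
    have h2 : (-θ * ((-n : ℤ) : ℝ)) = θ * n := by push_cast; ring
    rw [h1, h2]

theorem rc_sum_neg (N : ℕ) (m : ℤ → ℝ) :
    ∑ h ∈ Finset.Ioo (-(4 * N : ℤ)) (4 * N), m (-h) ^ 2 =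
    ∑ h ∈ Finset.Ioo (-(4 * N : ℤ)) (4 * N), m h ^ 2 := by
  apply Finset.sum_nbij' (fun n => -n) (fun n => -n)
  · intro n hn
    rw [Finset.mem_Ioo] at hn ⊢
    omega
  · intro n hn
    rw [Finset.mem_Ioo] at hn ⊢
    omega
  · intro n _; ring
  · intro n _; ring
  · intro n _; rfl

/-- the error estimate for a double sum -/
theorem rc_err_sum (K : ℝ) (N z W : ℕ) (hW : 0 < W) (r1 r2 σ : ℤ) (hσ : σ = 1 ∨ σ = -1)
    (F G : ℤ → ℝ) (L : ℝ) (hF : ∀ x, |F x| ≤ K) (hG : ∀ y, |G y| ≤ 1) (E : ℤ → ℤ → ℝ)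
    (hE : ∀ x ∈ Finset.Ico (0:ℤ) N, ∀ y ∈ Finset.Ico (0:ℤ) N, |E x y| ≤
      2 * L ^ 2 * ((if |r1 + W * (x + y)| ≤ z then 1 else 0) +
      (if |r2 + W * (σ * (x - y))| ≤ z then 1 else 0))) :
    |∑ x ∈ Finset.Ico (0:ℤ) N, ∑ y ∈ Finset.Ico (0:ℤ) N, F x * G y * E x y| ≤
      K * (2 * L ^ 2) * (2 * N * (2 * z + 1)) := by
  have hK : 0 ≤ K := le_trans (abs_nonneg _) (hF 0)
  have hW' : (W : ℤ) ≠ 0 := by exact_mod_cast hW.ne'
  have h1 : ∀ x ∈ Finset.Ico (0:ℤ) N, |∑ y ∈ Finset.Ico (0:ℤ) N, F x * G y * E x y| ≤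
      K * (2 * L ^ 2) * (2 * (2 * z + 1)) := by
    intro x hx
    calc |∑ y ∈ Finset.Ico (0:ℤ) N, F x * G y * E x y|
        ≤ ∑ y ∈ Finset.Ico (0:ℤ) N, |F x * G y * E x y| := Finset.abs_sum_le_sum_abs _ _
      _ ≤ ∑ y ∈ Finset.Ico (0:ℤ) N, K * (2 * L ^ 2 * ((if |r1 + W * (x + y)| ≤ z then 1 else 0) +
            (if |r2 + W * (σ * (x - y))| ≤ z then 1 else 0))) := by
          apply Finset.sum_le_sum
          intro y hy
          rw [abs_mul, abs_mul]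
          have h2 : |F x| * |G y| ≤ K * 1 :=
            mul_le_mul (hF x) (hG y) (abs_nonneg _) hK
          rw [mul_one] at h2
          exact mul_le_mul h2 (hE x hx y hy) (abs_nonneg _) hK
      _ = K * (2 * L ^ 2) * (∑ y ∈ Finset.Ico (0:ℤ) N, (if |r1 + W * (x + y)| ≤ z then (1:ℝ) else 0) +
            ∑ y ∈ Finset.Ico (0:ℤ) N, (if |r2 + W * (σ * (x - y))| ≤ z then (1:ℝ) else 0)) := by
          rw [← Finset.sum_add_distrib, Finset.mul_sum]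
          apply Finset.sum_congr rfl
          intro y _
          ring
      _ ≤ K * (2 * L ^ 2) * (2 * (2 * z + 1)) := by
          have e1 : ∑ y ∈ Finset.Ico (0:ℤ) N, (if |r1 + W * (x + y)| ≤ z then (1:ℝ) else 0) ≤
              2 * z + 1 := by
            have := rc_count (r1 + W * x) W hW' z N
            refine le_trans (le_of_eq ?_) this
            apply Finset.sum_congr rfl
            intro y _
            rw [mul_add, add_assoc]
          have e2 : ∑ y ∈ Finset.Ico (0:ℤ) N, (if |r2 + W * (σ * (x - y))| ≤ z then (1:ℝ) else 0) ≤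
              2 * z + 1 := by
            have hd : -(W * σ : ℤ) ≠ 0 := by
              rcases hσ with rfl | rfl <;> simpa using hW'
            have := rc_count (r2 + W * σ * x) (-(W * σ)) hd z N
            refine le_trans (le_of_eq ?_) this
            apply Finset.sum_congr rfl
            intro y _
            have e3 : r2 + W * (σ * (x - y)) = r2 + W * σ * x + -(W * σ) * y := by ring
            rw [e3]
          apply mul_le_mul_of_nonneg_left _ (by positivity)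
          linarith
  calc |∑ x ∈ Finset.Ico (0:ℤ) N, ∑ y ∈ Finset.Ico (0:ℤ) N, F x * G y * E x y|
      ≤ ∑ x ∈ Finset.Ico (0:ℤ) N, |∑ y ∈ Finset.Ico (0:ℤ) N, F x * G y * E x y| :=
        Finset.abs_sum_le_sum_abs _ _
    _ ≤ ∑ x ∈ Finset.Ico (0:ℤ) N, K * (2 * L ^ 2) * (2 * (2 * z + 1)) := Finset.sum_le_sum h1
    _ = K * (2 * L ^ 2) * (2 * N * (2 * z + 1)) := by
        rw [Finset.sum_const, Int.card_Ico, nsmul_eq_mul]
        simp only [sub_zero, Int.toNat_natCast]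
        ring

theorem rc_maj {Cj : ℝ} {s w W N : ℕ} (hCj : 1 ≤ Cj) (hs : 1 ≤ s) (hW : 0 < W) (hN : 1 ≤ N)
    (hmaj : ∀ v : ℤ, |v| ≤ 5 * W * N → (rt s N : ℤ) < |v| →
      lamv W v ≤ Cj * s * rho (sprimes w (rt s N)) v) {r : ℤ} (hr : |r| < 2 * W) (n : ℤ) :
    |rtr W r (rt s N) N n| ≤ Cj * s * (1 + rho (sprimes w (rt s N)) (r + W * n)) := by
  have hrho := rho_nonneg (pset_sprimes w (rt s N)).prime (r + W * n)
  have hs1 : (1:ℝ) ≤ s := by exact_mod_cast hs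
  have hκ : 1 ≤ Cj * s := by nlinarith
  unfold rtr
  split_ifs with h
  · have h1 := hmaj _ (rc_arg_le hW hN hr h.1 h.2.1) h.2.2
    have h2 := rc_lamv_nonneg W (r + W * n)
    unfold uu lam
    rw [abs_le]
    constructor <;> nlinarith
  · rw [abs_zero]
    positivity

open Classical in
/-- Chunk RCNC (core). `F` is dominated by `K0 s^2` times a pair weight, `s` being chosen inside, so
that `(K0 s^2)^2 * poly(s) * er` is small (`er` with `A` about `s / C`). -/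
theorem rcnc (K0 : ℝ) (hK0 : 1 ≤ K0) (ε : ℝ) (hε : 0 < ε) : ∃ s : ℕ, 2 ≤ s ∧
    ∃ w0 : ℕ, ∀ w W : ℕ, w0 ≤ w → IsW w W → ∃ N0 : ℕ, ∀ N : ℕ, N0 ≤ N →
    ∀ (r1 r2 σ : ℤ), |r1| < 2 * W → IsCoprime r1 (W : ℤ) → |r2| < 2 * W → IsCoprime r2 (W : ℤ) →
    (σ = 1 ∨ σ = -1) → ∀ (F G : ℤ → ℝ) (ω : ℤ → ℝ),
    (ω = 1 ∨ ∃ ε1 ε2 b1 b2 : ℤ, ε1 ≠ 0 ∧ |ε1| ≤ 2 ∧ ε2 ≠ 0 ∧ |ε2| ≤ 2 ∧ ω = fun x =>
      rho (sprimes w (rt s N)) (ε1 * W * x + b1) * rho (sprimes w (rt s N)) (ε2 * W * x + b2) /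
        SGp (sprimes w (rt s N)) (ε1 * W * b2 - ε2 * W * b1)) →
    (∀ x, |F x| ≤ K0 * s ^ 2 * ω x) → (∀ y, |G y| ≤ 1) →
    |∑ x ∈ Finset.Ico (0 : ℤ) N, ∑ y ∈ Finset.Ico (0 : ℤ) N, F x * G y * ker W r1 r2 σ x y| ≤
      ε * N ^ 2 := by
  obtain ⟨C2, hC2, h2⟩ := tu2
  obtain ⟨C3, hC3, h3⟩ := tu3
  obtain ⟨Cm, hCm, hm⟩ := mh
  obtain ⟨Cj, hCj, hj⟩ := majo
  obtain ⟨Cc, hCc, hc⟩ := rc_omega_sum
  set C : ℕ := C2 + C3 + Cm + Cc + 8 with hCdef
  have hC : 1 ≤ C := by omega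
  set D : ℝ := C + Cj with hDdef
  have hCr : (1 : ℝ) ≤ C := by exact_mod_cast hC
  have hD1 : 1 ≤ D := by linarith
  have hD0 : 0 < D := by linarith
  have hCD : (C : ℝ) ≤ D := by linarith
  have hCjD : Cj ≤ D := by linarith
  set δ : ℝ := ε ^ 2 / (288 * D * K0 ^ 2) with hδ
  have hK00 : 0 < K0 := by linarith
  have hδ0 : 0 < δ := by rw [hδ]; positivity
  set c0 : ℝ := min (δ ^ 2 / (4 * D ^ 9)) (δ / D ^ 5) with hc0
  have hc00 : 0 < c0 := by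
    rw [hc0]
    apply lt_min <;> positivity
  obtain ⟨A, hCA, hA⟩ := rc_exists_A C hC (c0 / 2) (by positivity)
  set s : ℕ := C * A with hs
  have hA1 : 1 ≤ A := le_trans hC hCA
  have hsA : A ≤ s := by rw [hs]; exact Nat.le_mul_of_pos_left A (by omega)
  have hsC : C ≤ s := le_trans hCA hsA
  have hs8 : 8 ≤ s := by omega
  have hs1 : 1 ≤ s := by omega
  have hsr : (1 : ℝ) ≤ s := by exact_mod_cast hs1
  have hs0 : (0 : ℝ) < s := by linarith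
  set ε1 : ℝ := δ ^ 2 / (2 * D ^ 5 * s ^ 12) with hε1
  have hε10 : 0 < ε1 := by rw [hε1]; positivity
  obtain ⟨w1, hw1⟩ := rc_exists_w C hC (c0 / (2 * s ^ 16)) (by positivity)
  have hCmA : Cm * A ≤ s := by rw [hs]; exact Nat.mul_le_mul_right A (by omega)
  have hC2A : C2 * A ≤ s := by rw [hs]; exact Nat.mul_le_mul_right A (by omega)
  have hC3A : C3 * A ≤ s := by rw [hs]; exact Nat.mul_le_mul_right A (by omega)
  obtain ⟨w2, hw2⟩ := hm s A ε1 hε10 hs1 (by omega) hCmA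
  refine ⟨s, by omega, w1 + w2 + C, fun w W hw hW => ?_⟩
  have hwC : C ≤ w := by omega
  have hw2' : 2 ≤ w := by omega
  have hW0 : 0 < W := hW.1
  obtain ⟨N2, hN2⟩ := hw2 w W (by omega) hW
  obtain ⟨N3, hN3⟩ := hj s hs1 w W hW
  obtain ⟨N4, hN4⟩ := Filter.eventually_atTop.mp ((rt_tendsto hs1).eventually_ge_atTop 2)
  obtain ⟨N5, hN5⟩ := rc_err K0 ε hK0 hε s W hs8 hW0
  refine ⟨N2 + N3 + N4 + N5, fun N hN r1 r2 σ hr1 hr1c hr2 hr2c hσ F G ω hω hF hG => ?_⟩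
  obtain ⟨hN1, herr⟩ := hN5 N (by omega)
  have hz2 : 2 ≤ rt s N := hN4 N (by omega)
  have herr' := herr (by omega)
  have hmajv := hN3 N (by omega)
  have hmh := hN2 N (by omega)
  set z : ℕ := rt s N with hz
  have hzs : z ^ s ≤ N := rt_pow_le hs1 N
  have hzk : ∀ k : ℕ, k ≤ s → z ^ k ≤ N := fun k hk =>
    le_trans (Nat.pow_le_pow_right (by omega) hk) hzs
  set S : Finset ℕ := sprimes w z with hS
  have hPS : PSet w z S := pset_sprimes w z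
  have hSp := hPS.prime
  set E : ℝ := er C A w with hE
  have hE0 : 0 ≤ E := er_nonneg _ _ _
  have hEs : E * s ^ 16 ≤ c0 := by
    have e1 : (2:ℝ) ^ (-(A:ℝ) / C) * (s:ℝ) ^ 16 ≤ c0 / 2 := hA
    have e2 : (w:ℝ) ^ (-(1:ℝ) / C) * (s:ℝ) ^ 16 ≤ c0 / 2 := by
      have := hw1 w (by omega)
      calc (w:ℝ) ^ (-(1:ℝ) / C) * (s:ℝ) ^ 16 ≤ c0 / (2 * s ^ 16) * (s:ℝ) ^ 16 := by gcongr
        _ = c0 / 2 := by field_simp
    calc E * s ^ 16 = (2:ℝ) ^ (-(A:ℝ) / C) * (s:ℝ) ^ 16 + (w:ℝ) ^ (-(1:ℝ) / C) * (s:ℝ) ^ 16 := by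
          rw [hE]; unfold er; ring
      _ ≤ c0 := by linarith
  have hE1 : E * s ^ 16 * (4 * D ^ 9) ≤ δ ^ 2 := by
    have h1 : c0 ≤ δ ^ 2 / (4 * D ^ 9) := min_le_left _ _
    rw [le_div_iff₀ (by positivity)] at h1
    refine le_trans ?_ h1
    gcongr
  have hE2 : E * s ^ 16 * D ^ 5 ≤ δ := by
    have h1 : c0 ≤ δ / D ^ 5 := min_le_right _ _
    rw [le_div_iff₀ (by positivity)] at h1
    refine le_trans ?_ h1
    gcongr
  have hN0 : (0:ℝ) ≤ N := Nat.cast_nonneg _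
  have hω0 : ∀ x, 0 ≤ ω x ∧ ω x ≤ (z:ℝ) ^ 3 := by
    intro x
    rcases hω with rfl | ⟨e1, e2, b1, b2, -, -, -, -, rfl⟩
    · refine ⟨by simp, ?_⟩
      have : (1:ℝ) ≤ z := by exact_mod_cast (by omega : 1 ≤ z)
      simpa using one_le_pow₀ this (n := 3)
    · exact rc_omega_le hw2' (by omega) _ _ _
  have hωs : ∑ x ∈ Finset.Ico (0:ℤ) N, ω x ≤ 4 * D * N := by
    have hCcD : (Cc : ℝ) ≤ D := by
      refine le_trans ?_ hCD
      exact_mod_cast (by omega : Cc ≤ C)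
    rcases hω with rfl | ⟨e1, e2, b1, b2, he1, he1', he2, he2', rfl⟩
    · simp only [Pi.one_apply, Finset.sum_const, Int.card_Ico, sub_zero, Int.toNat_natCast,
        nsmul_eq_mul, mul_one]
      nlinarith
    · refine le_trans (hc A w z W N (by omega) (by omega) hw2' hz2 hW ?_ e1 e2 b1 b2 he1 he1'
        he2 he2') ?_
      · apply hzk
        have : 8 * A ≤ s := by rw [hs]; exact Nat.mul_le_mul_right A (by omega)
        omega
      · gcongr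
  set κ : ℝ := Cj * s with hκ
  have hκ1 : 1 ≤ κ := by rw [hκ]; nlinarith
  have hκD : κ ≤ D * s := by rw [hκ]; gcongr
  have hκ0 : 0 ≤ κ := by linarith
  -- key estimate for one product
  have key : ∀ (f1 f2 G' : ℤ → ℝ) (ρ1 ρ2 : ℤ), Maj κ S W ρ1 (fun n => (f1 n : ℂ)) →
      SuppIn (-(2 * N)) (2 * N) (fun n => (f1 n : ℂ)) → Maj κ S W ρ2 (fun n => (f2 n : ℂ)) →
      SuppIn (-(2 * N)) (2 * N) (fun n => (f2 n : ℂ)) → (∀ y, |G' y| ≤ 1) →
      SuppIn (-N) N (fun n => (G' n : ℂ)) → ∀ m : ℤ → ℝ,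
      (∀ (h : ℤ) (θ : ℝ), ‖∑ n ∈ Finset.Ico (-(2 * N : ℤ)) (2 * N),
        (f1 n : ℂ) * (starRingEnd ℂ) (f1 (n + h) : ℂ) * e (θ * n)‖ ≤ m h) →
      ∑ h ∈ Finset.Ioo (-(4 * N : ℤ)) (4 * N), m h ^ 2 ≤
        (ε1 + Cm * s ^ 4 * er Cm A w) * N ^ 3 →
      |∑ x ∈ Finset.Ico (0:ℤ) N, F x *
        ∑ y ∈ Finset.Ico (-(N:ℤ)) N, G' y * f1 (x + y) * f2 (x - y)| ≤ ε / 6 * N ^ 2 := by
    intro f1 f2 G' ρ1 ρ2 hM1 hS1 hM2 hS2 hG' hSG m hm1 hm2
    set Γ : ℤ → ℂ := fun x => ∑ y ∈ Finset.Ico (-(N:ℤ)) N,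
      (G' y : ℂ) * (f1 (x + y) : ℂ) * (f2 (x - y) : ℂ) with hΓ
    have hGc : ∀ y, ‖(G' y : ℂ)‖ ≤ 1 := by
      intro y
      rw [Complex.norm_real, Real.norm_eq_abs]
      exact hG' y
    have t2 := h2 A w z W N S (by omega) (by omega) hz2 hPS hW (hzk _ hC2A) ρ1 ρ2 κ
      (fun n => (f1 n : ℂ)) (fun n => (f2 n : ℂ)) (fun n => (G' n : ℂ)) hκ1 hM1 hS1 hM2 hS2 hGc hSG
      m hm1
    have hX3 : |∑ x ∈ Finset.Ico (0:ℤ) N, (ω x - 1) * ‖Γ x‖ ^ 2| ≤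
        C3 * κ ^ 4 * er C3 A w * N ^ 3 := by
      rcases hω with rfl | ⟨e1, e2, b1, b2, he1, he1', he2, he2', rfl⟩
      · simp only [Pi.one_apply, sub_self, zero_mul, Finset.sum_const_zero, abs_zero]
        have := er_nonneg C3 A w
        positivity
      · exact h3 A w z W N S (by omega) (by omega) hz2 hPS hW (hzk _ hC3A) ρ1 ρ2 κ
          (fun n => (f1 n : ℂ)) (fun n => (f2 n : ℂ)) (fun n => (G' n : ℂ)) hκ1 hM1 hS1 hM2 hS2
          hGc hSG e1 e2 b1 b2 he1 he1' he2 he2'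
    have hcs := rc_cs N F ω Γ (K0 * s ^ 2) (4 * D * N) _ _ (by positivity) hF hωs t2 hX3
    have hCr2 : (C2 : ℝ) ≤ D := le_trans (by exact_mod_cast (by omega : C2 ≤ C)) hCD
    have hCr3 : (C3 : ℝ) ≤ D := le_trans (by exact_mod_cast (by omega : C3 ≤ C)) hCD
    have hCrm : (Cm : ℝ) ≤ D := le_trans (by exact_mod_cast (by omega : Cm ≤ C)) hCD
    have her2 : er C2 A w ≤ E := rc_er_mono hC2 (by omega) (by omega)
    have her3 : er C3 A w ≤ E := rc_er_mono hC3 (by omega) (by omega)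
    have herm : er Cm A w ≤ E := rc_er_mono hCm (by omega) (by omega)
    have hnum := rc_num D s K0 ε δ E ε1 N
      (C2 * κ ^ 4 * N ^ 3 * ∑ h ∈ Finset.Ioo (-(4 * N : ℤ)) (4 * N), m h ^ 2 +
        C2 * κ ^ 8 * er C2 A w * N ^ 6) (C3 * κ ^ 4 * er C3 A w * N ^ 3) (4 * D * N)
      hD1 hsr hK0 hN0 hε hδ hε1 hE0 hE1 hE2 ?_ ?_ le_rfl (by positivity)
    · have hre : |∑ x ∈ Finset.Ico (0:ℤ) N, F x *
          ∑ y ∈ Finset.Ico (-(N:ℤ)) N, G' y * f1 (x + y) * f2 (x - y)| =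
          ‖∑ x ∈ Finset.Ico (0:ℤ) N, (F x : ℂ) * Γ x‖ := by
        rw [← Real.norm_eq_abs, ← Complex.norm_real]
        congr 1
        rw [hΓ]
        push_cast
        rfl
      rw [hre]
      have := le_trans hcs hnum
      exact le_of_sq_le_sq this (by positivity)
    · have e2 := er_nonneg C2 A w
      have em := er_nonneg Cm A w
      calc C2 * κ ^ 4 * N ^ 3 * ∑ h ∈ Finset.Ioo (-(4 * N : ℤ)) (4 * N), m h ^ 2 +
            C2 * κ ^ 8 * er C2 A w * N ^ 6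
          ≤ C2 * κ ^ 4 * N ^ 3 * ((ε1 + Cm * s ^ 4 * er Cm A w) * N ^ 3) +
            C2 * κ ^ 8 * er C2 A w * N ^ 6 := by gcongr
        _ ≤ D * (D * s) ^ 4 * N ^ 3 * ((ε1 + D * s ^ 4 * E) * N ^ 3) +
            D * (D * s) ^ 8 * E * N ^ 6 := by gcongr
        _ = N ^ 6 * (D ^ 5 * s ^ 4 * ε1 + D ^ 6 * s ^ 8 * E + D ^ 9 * s ^ 8 * E) := by ring
        _ ≤ N ^ 6 * (D ^ 5 * s ^ 4 * ε1 + 2 * D ^ 9 * s ^ 8 * E) := by
            have : D ^ 6 ≤ D ^ 9 := pow_le_pow_right₀ hD1 (by norm_num)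
            have h6 : D ^ 6 * s ^ 8 * E ≤ D ^ 9 * s ^ 8 * E := by gcongr
            apply mul_le_mul_of_nonneg_left _ (by positivity)
            linarith
    · have e3 := er_nonneg C3 A w
      calc C3 * κ ^ 4 * er C3 A w * (N:ℝ) ^ 3 ≤ D * (D * s) ^ 4 * E * N ^ 3 := by gcongr
        _ = _ := by ring
  -- the functions
  have hmajr : ∀ r : ℤ, |r| < 2 * W → ∀ n, |rtr W r z N n| ≤ κ * (1 + rho S (r + W * n)) :=
    fun r hr n => rc_maj hCj hs1 hW0 hN1 hmajv hr n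
  have hrsupp : ∀ r n : ℤ, ¬ (0 ≤ n ∧ n < 2 * N) → rtr W r z N n = 0 := by
    intro r n hn
    unfold rtr
    rw [if_neg]
    rintro ⟨a, b, -⟩
    exact hn ⟨a, b⟩
  have honsupp : ∀ n : ℤ, ¬ (0 ≤ n ∧ n < 2 * N) → ron N n = 0 := by
    intro n hn
    unfold ron
    rw [if_neg hn]
  have honle : ∀ n, |ron N n| ≤ 1 := by
    intro n
    unfold ron
    split_ifs <;> simp
  have hmhr : ∀ r : ℤ, |r| < 2 * W → IsCoprime r (W : ℤ) → ∃ m : ℤ → ℝ,
      (∀ (h : ℤ) (θ : ℝ), ‖∑ n ∈ Finset.Ico (-(2 * N : ℤ)) (2 * N),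
        (rtr W r z N n : ℂ) * (starRingEnd ℂ) (rtr W r z N (n + h) : ℂ) * e (θ * n)‖ ≤ m h) ∧
      ∑ h ∈ Finset.Ioo (-(4 * N : ℤ)) (4 * N), m h ^ 2 ≤
        (ε1 + Cm * s ^ 4 * er Cm A w) * N ^ 3 := by
    intro r hr hrc
    refine hmh r hr hrc (fun n => (rtr W r z N n : ℂ)) ?_
    intro n
    unfold rtr
    split_ifs <;> simp
  have hMaj1 : ∀ r : ℤ, |r| < 2 * W → Maj κ S W r (fun n => (rtr W r z N n : ℂ)) := by
    intro r hr n
    rw [Complex.norm_real, Real.norm_eq_abs]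
    exact hmajr r hr n
  have hMaj2 : Maj κ S W (σ * r2) (fun n => (rtr W r2 z N (σ * n) : ℂ)) := by
    intro n
    rw [Complex.norm_real, Real.norm_eq_abs]
    have h1 := hmajr r2 hr2 (σ * n)
    rcases hσ with rfl | rfl
    · simpa using h1
    · have e1 : (-1 * r2 + W * n : ℤ) = -(r2 + W * (-1 * n)) := by ring
      rw [e1, rc_rho_neg]
      exact h1
  have hMajon : ∀ (ρ : ℤ) (τ : ℤ), Maj κ S W ρ (fun n => (ron N (τ * n) : ℂ)) := by
    intro ρ τ n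
    rw [Complex.norm_real, Real.norm_eq_abs]
    have h1 := honle (τ * n)
    have h2 := rho_nonneg hSp (ρ + W * n)
    nlinarith
  have hsup1 : ∀ r : ℤ, SuppIn (-(2 * N)) (2 * N) (fun n => (rtr W r z N n : ℂ)) := by
    intro r n hn
    rw [Finset.mem_Ico] at hn
    simp only [Complex.ofReal_eq_zero]
    apply hrsupp
    omega
  have hsup2 : SuppIn (-(2 * N)) (2 * N) (fun n => (rtr W r2 z N (σ * n) : ℂ)) := by
    intro n hn
    rw [Finset.mem_Ico] at hn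
    simp only [Complex.ofReal_eq_zero]
    apply hrsupp
    rcases hσ with rfl | rfl <;> omega
  have hsupon : ∀ τ : ℤ, (τ = 1 ∨ τ = -1) →
      SuppIn (-(2 * N)) (2 * N) (fun n => (ron N (τ * n) : ℂ)) := by
    intro τ hτ n hn
    rw [Finset.mem_Ico] at hn
    simp only [Complex.ofReal_eq_zero]
    apply honsupp
    rcases hτ with rfl | rfl <;> omega
  obtain ⟨m1, hm1, hm1'⟩ := hmhr r1 hr1 hr1c
  obtain ⟨m2, hm2, hm2'⟩ := hmhr r2 hr2 hr2c
  -- second moments for the composed function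
  obtain ⟨m3, hm3, hm3'⟩ : ∃ m : ℤ → ℝ,
      (∀ (h : ℤ) (θ : ℝ), ‖∑ n ∈ Finset.Ico (-(2 * N : ℤ)) (2 * N),
        (rtr W r2 z N (σ * n) : ℂ) * (starRingEnd ℂ) (rtr W r2 z N (σ * (n + h)) : ℂ) *
          e (θ * n)‖ ≤ m h) ∧
      ∑ h ∈ Finset.Ioo (-(4 * N : ℤ)) (4 * N), m h ^ 2 ≤
        (ε1 + Cm * s ^ 4 * er Cm A w) * N ^ 3 := by
    rcases hσ with rfl | rfl
    · refine ⟨m2, ?_, hm2'⟩
      intro h θ
      simpa using hm2 h θ
    · refine ⟨fun h => m2 (-h), ?_, ?_⟩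
      · intro h θ
        have := rc_reflect N (fun n => (rtr W r2 z N n : ℂ)) (fun n hn => by
          simp only [Complex.ofReal_eq_zero]
          exact hrsupp r2 n hn) m2 hm2 h θ
        simpa using this
      · rw [rc_sum_neg]
        exact hm2'
  -- the three main terms
  have hG1 : ∀ y, |(if 0 ≤ y ∧ y < (N:ℤ) then G y else 0)| ≤ 1 := by
    intro y
    split_ifs
    · exact hG y
    · simp
  have hG2 : ∀ y, |(if 0 ≤ -y ∧ -y < (N:ℤ) then G (-y) else 0)| ≤ 1 := by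
    intro y
    split_ifs
    · exact hG (-y)
    · simp
  have hG1s : SuppIn (-N) N (fun y => ((if 0 ≤ y ∧ y < (N:ℤ) then G y else 0 : ℝ) : ℂ)) := by
    intro y hy
    rw [Finset.mem_Ico] at hy
    simp only [Complex.ofReal_eq_zero]
    rw [if_neg (by omega)]
  have hG2s : SuppIn (-N) N (fun y => ((if 0 ≤ -y ∧ -y < (N:ℤ) then G (-y) else 0 : ℝ) : ℂ)) := by
    intro y hy
    rw [Finset.mem_Ico] at hy
    simp only [Complex.ofReal_eq_zero]
    rw [if_neg (by omega)]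
  have T1 := key (fun n => rtr W r1 z N n) (fun n => rtr W r2 z N (σ * n)) _ r1 (σ * r2)
    (hMaj1 r1 hr1) (hsup1 r1) hMaj2 hsup2 hG1 hG1s m1 hm1 hm1'
  have T2 := key (fun n => rtr W r1 z N n) (fun n => ron N (σ * n)) _ r1 0
    (hMaj1 r1 hr1) (hsup1 r1) (hMajon 0 σ) (hsupon σ hσ) hG1 hG1s m1 hm1 hm1'
  have T3 := key (fun n => rtr W r2 z N (σ * n)) (fun n => ron N (1 * n)) _ (σ * r2) 0
    hMaj2 hsup2 (hMajon 0 1) (hsupon 1 (Or.inl rfl)) hG2 hG2s m3 hm3 hm3'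
  have T1' : |∑ x ∈ Finset.Ico (0:ℤ) N, ∑ y ∈ Finset.Ico (0:ℤ) N,
      F x * G y * (rtr W r1 z N (x + y) * rtr W r2 z N (σ * (x - y)))| ≤ ε / 6 * N ^ 2 := by
    refine le_trans (le_of_eq ?_) T1
    congr 1
    apply Finset.sum_congr rfl
    intro x _
    have := rc_sum_ext N G (fun n => rtr W r1 z N n) (fun n => rtr W r2 z N (σ * n)) x
    rw [← this, Finset.mul_sum]
    apply Finset.sum_congr rfl
    intro y _
    ring
  have T2' : |∑ x ∈ Finset.Ico (0:ℤ) N, ∑ y ∈ Finset.Ico (0:ℤ) N,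
      F x * G y * (rtr W r1 z N (x + y) * ron N (σ * (x - y)))| ≤ ε / 6 * N ^ 2 := by
    refine le_trans (le_of_eq ?_) T2
    congr 1
    apply Finset.sum_congr rfl
    intro x _
    have := rc_sum_ext N G (fun n => rtr W r1 z N n) (fun n => ron N (σ * n)) x
    rw [← this, Finset.mul_sum]
    apply Finset.sum_congr rfl
    intro y _
    ring
  have T3' : |∑ x ∈ Finset.Ico (0:ℤ) N, ∑ y ∈ Finset.Ico (0:ℤ) N,
      F x * G y * (ron N (x + y) * rtr W r2 z N (σ * (x - y)))| ≤ ε / 6 * N ^ 2 := by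
    refine le_trans (le_of_eq ?_) T3
    congr 1
    apply Finset.sum_congr rfl
    intro x _
    have := rc_sum_reindex N G (fun n => rtr W r2 z N (σ * n)) (fun n => ron N (1 * n)) x
    rw [← this, Finset.mul_sum]
    apply Finset.sum_congr rfl
    intro y _
    rw [one_mul]
    ring
  -- the error
  have hlog0 : 1 ≤ 1 + Real.log (5 * W * N) := by
    have h5 : (1:ℝ) ≤ 5 * W * N := by
      have : 1 ≤ 5 * W * N := Nat.mul_pos (by omega) hN1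
      exact_mod_cast this
    have := Real.log_nonneg h5
    linarith
  have hFK : ∀ x, |F x| ≤ K0 * s ^ 2 * z ^ 3 := by
    intro x
    refine le_trans (hF x) ?_
    have := (hω0 x).2
    gcongr
  have T4 := rc_err_sum (K0 * s ^ 2 * z ^ 3) N z W hW0 r1 r2 σ hσ F G
    (1 + Real.log (5 * W * N)) hFK hG
    (fun x y => ker W r1 r2 σ x y - (rtr W r1 z N (x + y) * rtr W r2 z N (σ * (x - y)) +
      rtr W r1 z N (x + y) * ron N (σ * (x - y)) + ron N (x + y) * rtr W r2 z N (σ * (x - y)))) ?_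
  · have hsplit : ∑ x ∈ Finset.Ico (0 : ℤ) N, ∑ y ∈ Finset.Ico (0 : ℤ) N,
        F x * G y * ker W r1 r2 σ x y =
        ∑ x ∈ Finset.Ico (0:ℤ) N, ∑ y ∈ Finset.Ico (0:ℤ) N,
          F x * G y * (rtr W r1 z N (x + y) * rtr W r2 z N (σ * (x - y))) +
        ∑ x ∈ Finset.Ico (0:ℤ) N, ∑ y ∈ Finset.Ico (0:ℤ) N,
          F x * G y * (rtr W r1 z N (x + y) * ron N (σ * (x - y))) +
        ∑ x ∈ Finset.Ico (0:ℤ) N, ∑ y ∈ Finset.Ico (0:ℤ) N,
          F x * G y * (ron N (x + y) * rtr W r2 z N (σ * (x - y))) +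
        ∑ x ∈ Finset.Ico (0:ℤ) N, ∑ y ∈ Finset.Ico (0:ℤ) N,
          F x * G y * (ker W r1 r2 σ x y - (rtr W r1 z N (x + y) * rtr W r2 z N (σ * (x - y)) +
            rtr W r1 z N (x + y) * ron N (σ * (x - y)) +
            ron N (x + y) * rtr W r2 z N (σ * (x - y)))) := by
      simp only [← Finset.sum_add_distrib]
      apply Finset.sum_congr rfl
      intro x _
      apply Finset.sum_congr rfl
      intro y _
      ring
    rw [hsplit]
    have T5 := le_trans T4 herr'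
    have habs : ∀ a b c d : ℝ, |a + b + c + d| ≤ |a| + |b| + |c| + |d| := by
      intro a b c d
      have e1 := abs_add_le (a + b + c) d
      have e2 := abs_add_three a b c
      linarith
    refine le_trans (habs _ _ _ _) ?_
    linarith
  · intro x hx y hy
    rw [Finset.mem_Ico] at hx hy
    apply rc_ker_split W N z r1 r2 σ x y hσ hx hy _ hlog0
    · apply rc_uu_le hW0 hN1
      apply rc_arg_le hW0 hN1 hr1 <;> omega
    · intro h
      apply rc_uu_le hW0 hN1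
      apply rc_arg_le hW0 hN1 hr2 h
      rcases hσ with rfl | rfl <;> omega

end Pool.Agent.Lib.H18GB
end
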