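import Pool.Agent.Lib.H1M.RV.M008
import Pool.Agent.Lib.H1M.RV.M014
import Pool.Agent.Lib.H1M.RV.M092

/-! Merged copies (to shorten the build) of Lib.H18GB.RCN, Lib.H18GB2.DB. -/

-- from Lib.H18GB.RCN
section

/-!
# Project GB: RCN0, RCN1, RCN2
-/

namespace Pool.Agent.Lib.H18GB

open Finset Pool.Agent.Lib.Sieve

/-- Chunk RCN0: bounded `F`. -/
theorem rcn0 (ε : ℝ) (hε : 0 < ε) : ∃ w0 : ℕ, ∀ w W : ℕ, w0 ≤ w → IsW w W → ∃ N0 : ℕ,
    ∀ N : ℕ, N0 ≤ N → ∀ (r1 r2 σ : ℤ), |r1| < 2 * W → IsCoprime r1 (W : ℤ) → |r2| < 2 * W →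
    IsCoprime r2 (W : ℤ) → (σ = 1 ∨ σ = -1) → ∀ (F G : ℤ → ℝ), (∀ x, |F x| ≤ 1) →
    (∀ y, |G y| ≤ 1) →
    |∑ x ∈ Finset.Ico (0 : ℤ) N, ∑ y ∈ Finset.Ico (0 : ℤ) N, F x * G y * ker W r1 r2 σ x y| ≤
      ε * N ^ 2 := by
  obtain ⟨s, hs, w0, h⟩ := rcnc 1 le_rfl ε hε
  refine ⟨w0, fun w W hw hW => ?_⟩
  obtain ⟨N0, hN0⟩ := h w W hw hW
  refine ⟨N0, fun N hN r1 r2 σ h1 h2 h3 h4 h5 F G hF hG => ?_⟩
  refine hN0 N hN r1 r2 σ h1 h2 h3 h4 h5 F G 1 (Or.inl rfl) (fun x => (hF x).trans ?_) hG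
  have : (1 : ℝ) ≤ (s : ℝ) := by exact_mod_cast (by omega : 1 ≤ s)
  simp only [Pi.one_apply]
  nlinarith

/-- Size of the logarithms. -/
noncomputable def LL (W N : ℕ) : ℝ := Real.log (5 * W * N)

theorem lamv_le {W N : ℕ} (hW : 0 < W) (hN : 0 < N) {v : ℤ} (hv : |v| ≤ 5 * W * N) :
    lamv W v ≤ LL W N := by
  unfold lamv LL
  have h0 : (1 : ℝ) ≤ 5 * W * N := by
    have h1 : (1 : ℝ) ≤ W := by exact_mod_cast hW
    have h2 : (1 : ℝ) ≤ N := by exact_mod_cast hN
    nlinarith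
  split_ifs with h
  · have h1 : (1 : ℝ) < (v.natAbs : ℝ) := by exact_mod_cast h.one_lt
    have h2 : (Nat.totient W / W : ℝ) ≤ 1 := by
      rw [div_le_one (by exact_mod_cast hW)]
      exact_mod_cast Nat.totient_le W
    have h3 : (v.natAbs : ℝ) ≤ 5 * W * N := by
      have : ((v.natAbs : ℤ)) ≤ 5 * W * N := by rw [Int.natCast_natAbs]; exact hv
      exact_mod_cast this
    have h4 : Real.log v.natAbs ≤ Real.log (5 * W * N) := Real.log_le_log (by linarith) h3
    have h5 : 0 ≤ Real.log (v.natAbs : ℝ) := Real.log_nonneg h1.le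
    have h6 : 0 ≤ (Nat.totient W / W : ℝ) := by positivity
    nlinarith
  · exact Real.log_nonneg h0

theorem LL_nonneg {W N : ℕ} (hW : 0 < W) (hN : 0 < N) : 0 ≤ LL W N :=
  (lamv_nonneg W 0).trans (lamv_le hW hN (by simp; positivity))

theorem ker_le {W N : ℕ} (hW : 0 < W) (hN : 0 < N) {r1 r2 σ x y : ℤ} (h1 : |r1| < 2 * W)
    (h2 : |r2| < 2 * W) (hσ : σ = 1 ∨ σ = -1) (hx : x ∈ Finset.Ico (0 : ℤ) N)
    (hy : y ∈ Finset.Ico (0 : ℤ) N) : |ker W r1 r2 σ x y| ≤ LL W N ^ 2 + 1 := by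
  unfold ker
  rw [Finset.mem_Ico] at hx hy
  have hWz : (1 : ℤ) ≤ W := by exact_mod_cast hW
  have hNz : (1 : ℤ) ≤ N := by exact_mod_cast hN
  have hl := LL_nonneg hW hN
  split_ifs with h
  · have a1 : |r1 + W * (x + y)| ≤ 5 * W * N := by
      rw [abs_le]
      rw [abs_lt] at h1
      constructor <;> nlinarith
    have hd : 0 ≤ σ * (x - y) ∧ σ * (x - y) ≤ N := by
      refine ⟨h, ?_⟩
      rcases hσ with rfl | rfl <;> linarith
    have a2 : |r2 + W * (σ * (x - y))| ≤ 5 * W * N := by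
      rw [abs_le]
      rw [abs_lt] at h2
      obtain ⟨d1, d2⟩ := hd
      constructor <;> nlinarith
    have b1 := lamv_nonneg W (r1 + W * (x + y))
    have b2 := lamv_nonneg W (r2 + W * (σ * (x - y)))
    have c1 := lamv_le hW hN a1
    have c2 := lamv_le hW hN a2
    unfold lam
    have d1 := mul_le_mul c1 c2 b2 hl
    have d2 := mul_nonneg b1 b2
    rw [abs_le]
    constructor <;> nlinarith
  · rw [abs_zero]; positivity

/-- Removal of a few `x`. -/
theorem removal {W N : ℕ} (hW : 0 < W) (hN : 0 < N) {r1 r2 σ : ℤ} (h1 : |r1| < 2 * W)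
    (h2 : |r2| < 2 * W) (hσ : σ = 1 ∨ σ = -1) (F G : ℤ → ℝ) (hG : ∀ y, |G y| ≤ 1)
    (B : Finset ℤ) (hB : ∀ x ∈ Finset.Ico (0 : ℤ) N, x ∈ B → |F x| ≤ LL W N ^ 2 + 1) :
    |∑ x ∈ Finset.Ico (0 : ℤ) N, ∑ y ∈ Finset.Ico (0 : ℤ) N, F x * G y * ker W r1 r2 σ x y| ≤
      |∑ x ∈ Finset.Ico (0 : ℤ) N, ∑ y ∈ Finset.Ico (0 : ℤ) N,
        (if x ∈ Finset.Ico (0 : ℤ) N ∧ x ∉ B then F x else 0) * G y * ker W r1 r2 σ x y| +
      B.card * (N * (LL W N ^ 2 + 1) ^ 2) := by
  classical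
  have hl := LL_nonneg hW hN
  have key : ∑ x ∈ Finset.Ico (0 : ℤ) N, ∑ y ∈ Finset.Ico (0 : ℤ) N, F x * G y * ker W r1 r2 σ x y =
      ∑ x ∈ Finset.Ico (0 : ℤ) N, ∑ y ∈ Finset.Ico (0 : ℤ) N,
        (if x ∈ Finset.Ico (0 : ℤ) N ∧ x ∉ B then F x else 0) * G y * ker W r1 r2 σ x y +
      ∑ x ∈ (Finset.Ico (0 : ℤ) N).filter (fun x => x ∈ B), ∑ y ∈ Finset.Ico (0 : ℤ) N,
        F x * G y * ker W r1 r2 σ x y := by
    rw [Finset.sum_filter, ← Finset.sum_add_distrib]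
    refine Finset.sum_congr rfl fun x hx => ?_
    by_cases hxB : x ∈ B
    · simp [hxB]
    · rw [if_neg hxB, add_zero]
      refine Finset.sum_congr rfl fun y _ => ?_
      rw [if_pos ⟨hx, hxB⟩]
  have hrem : |∑ x ∈ (Finset.Ico (0 : ℤ) N).filter (fun x => x ∈ B), ∑ y ∈ Finset.Ico (0 : ℤ) N,
        F x * G y * ker W r1 r2 σ x y| ≤ B.card * (N * (LL W N ^ 2 + 1) ^ 2) := by
    refine (Finset.abs_sum_le_sum_abs _ _).trans ?_
    have hx1 : ∀ x ∈ (Finset.Ico (0 : ℤ) N).filter (fun x => x ∈ B),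
        |∑ y ∈ Finset.Ico (0 : ℤ) N, F x * G y * ker W r1 r2 σ x y| ≤ N * (LL W N ^ 2 + 1) ^ 2 := by
      intro x hx
      rw [Finset.mem_filter] at hx
      refine (Finset.abs_sum_le_sum_abs _ _).trans ?_
      have hy1 : ∀ y ∈ Finset.Ico (0 : ℤ) N, |F x * G y * ker W r1 r2 σ x y| ≤ (LL W N ^ 2 + 1) ^ 2 := by
        intro y hy
        rw [abs_mul, abs_mul]
        have a1 := hB x hx.1 hx.2
        have a2 := ker_le hW hN h1 h2 hσ hx.1 hy
        have a3 := hG y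
        calc |F x| * |G y| * |ker W r1 r2 σ x y|
            ≤ (LL W N ^ 2 + 1) * 1 * (LL W N ^ 2 + 1) := by
              apply mul_le_mul (mul_le_mul a1 a3 (abs_nonneg _) (by positivity)) a2 (abs_nonneg _)
                (by positivity)
          _ = _ := by ring
      refine (Finset.sum_le_sum hy1).trans ?_
      rw [Finset.sum_const, Int.card_Ico, nsmul_eq_mul]
      simp
    refine (Finset.sum_le_sum hx1).trans ?_
    rw [Finset.sum_const, nsmul_eq_mul]
    apply mul_le_mul_of_nonneg_right _ (by positivity)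
    exact_mod_cast Finset.card_le_card (fun x hx => (Finset.mem_filter.mp hx).2)
  rw [key]
  exact (abs_add_le _ _).trans (add_le_add le_rfl hrem)

/-- The integers `x` in `[0, N)` with `|b + c x| ≤ R`. -/
noncomputable def bad (N : ℕ) (b c : ℤ) (R : ℕ) : Finset ℤ :=
  (Finset.Ico (0 : ℤ) N).filter (fun x => |b + c * x| ≤ R)

theorem card_bad {N : ℕ} {b c : ℤ} (hc : c ≠ 0) (R : ℕ) : (bad N b c R).card ≤ 2 * R + 1 := by
  have h1 : (bad N b c R).card ≤ (Finset.Icc (-(R : ℤ)) R).card := by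
    apply Finset.card_le_card_of_injOn (fun x => b + c * x)
    · intro x hx
      rw [Finset.mem_coe, bad, Finset.mem_filter] at hx
      rw [Finset.mem_coe, Finset.mem_Icc]
      exact abs_le.mp hx.2
    · intro x _ y _ hxy
      have : c * x = c * y := by linarith
      exact mul_left_cancel₀ hc this
  rw [Int.card_Icc] at h1
  omega

theorem rt_sq_le {s : ℕ} (hs : 2 ≤ s) (N : ℕ) : (rt s N : ℝ) ≤ Real.sqrt N := by
  have h := rt_pow_le (s := s) (by omega) N
  apply Real.le_sqrt_of_sq_le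
  rcases Nat.eq_zero_or_pos (rt s N) with h0 | h0
  · rw [h0]; simp
  · have h1 : rt s N ^ 2 ≤ rt s N ^ s := Nat.pow_le_pow_right h0 hs
    exact_mod_cast h1.trans h

/-- The removed part is small. -/
theorem removed_small (W : ℕ) (hW : 0 < W) (ε : ℝ) (hε : 0 < ε) : ∃ N0 : ℕ, ∀ N : ℕ, N0 ≤ N →
    (4 * Real.sqrt N + 2) * (N * (LL W N ^ 2 + 1) ^ 2) ≤ ε * N ^ 2 := by
  have h1 : ∀ᶠ N : ℕ in Filter.atTop, (Real.log N) ^ (4 : ℝ) ≤ ε / 150 * (N : ℝ) ^ (1 / 2 : ℝ) := by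
    have h := (isLittleO_log_rpow_rpow_atTop (s := 1 / 2) 4 (by norm_num)).bound
      (show 0 < ε / 150 by positivity)
    have h' := tendsto_natCast_atTop_atTop.eventually h
    filter_upwards [h', Filter.eventually_ge_atTop 1] with N hN hN1
    rw [Real.norm_of_nonneg (by positivity), Real.norm_of_nonneg (by positivity)] at hN
    exact hN
  have h2 : ∀ᶠ N : ℕ in Filter.atTop, (1 : ℝ) ≤ Real.log N :=
    (Real.tendsto_log_atTop.comp tendsto_natCast_atTop_atTop).eventually_ge_atTop 1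
  have h3 : ∀ᶠ N : ℕ in Filter.atTop, 5 * W ≤ N := Filter.eventually_ge_atTop _
  have h4 : ∀ᶠ N : ℕ in Filter.atTop, 1 ≤ N := Filter.eventually_ge_atTop _
  obtain ⟨N0, hN0⟩ := Filter.eventually_atTop.mp (h1.and (h2.and (h3.and h4)))
  refine ⟨N0, fun N hN => ?_⟩
  obtain ⟨a1, a2, a3, a4⟩ := hN0 N hN
  have hNr : (1 : ℝ) ≤ N := by exact_mod_cast a4
  have hWr : (1 : ℝ) ≤ W := by exact_mod_cast hW
  have hL : LL W N ≤ 2 * Real.log N := by
    unfold LL
    rw [Real.log_mul (by positivity) (by positivity)]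
    have : Real.log (5 * W) ≤ Real.log N := Real.log_le_log (by positivity) (by exact_mod_cast a3)
    linarith
  have hL0 := LL_nonneg hW a4
  have hsq : 1 ≤ Real.sqrt N := Real.one_le_sqrt.mpr hNr
  have hss : Real.sqrt N * Real.sqrt N = N := Real.mul_self_sqrt (by linarith)
  rw [show (4 : ℝ) = ((4 : ℕ) : ℝ) by norm_num, Real.rpow_natCast, ← Real.sqrt_eq_rpow] at a1
  set l := Real.log (N : ℝ) with hl
  have b1 : LL W N ^ 2 + 1 ≤ 5 * l ^ 2 := by nlinarith
  have b2 : (LL W N ^ 2 + 1) ^ 2 ≤ 25 * l ^ 4 := by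
    have : (LL W N ^ 2 + 1) ^ 2 ≤ (5 * l ^ 2) ^ 2 := pow_le_pow_left₀ (by positivity) b1 2
    nlinarith
  have b3 : 25 * l ^ 4 ≤ ε / 6 * Real.sqrt N := by linarith
  have b4 : (4 * Real.sqrt N + 2) ≤ 6 * Real.sqrt N := by linarith
  calc (4 * Real.sqrt N + 2) * (N * (LL W N ^ 2 + 1) ^ 2)
      ≤ (6 * Real.sqrt N) * (N * (ε / 6 * Real.sqrt N)) := by
        apply mul_le_mul b4 _ (by positivity) (by positivity)
        exact mul_le_mul_of_nonneg_left (b2.trans b3) (by linarith)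
    _ = ε * (Real.sqrt N * Real.sqrt N) * N := by ring
    _ = ε * N ^ 2 := by rw [hss]; ring

theorem SGp_zero {S : Finset ℕ} (hS : ∀ p ∈ S, p.Prime) : SGp S 0 = (VV S)⁻¹ := by
  unfold SGp VV
  rw [← Finset.prod_inv_distrib]
  exact Finset.prod_congr rfl fun p _ => by rw [if_pos (dvd_zero _)]

theorem rho_sq {S : Finset ℕ} (hS : ∀ p ∈ S, p.Prime) (v : ℤ) :
    rho S v * rho S v / SGp S 0 = rho S v := by
  rw [SGp_zero hS]
  have h := (VV_pos hS).ne'
  unfold rho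
  split_ifs
  · field_simp
  · simp

/-- Chunk RCN1: `F` dominated by the primes `2 W x + b`. `lamv W v ≤ C s rho v` for `|v| > rt s N`
(`majo`), and `rho v = rho v * rho v / SGp S 0`: apply `rcnc` with `K0 = C` to `F` restricted to the
`x` with `|2 W x + b| > rt s N` (few `x` are removed). -/
theorem rcn1 (ε : ℝ) (hε : 0 < ε) : ∃ w0 : ℕ, ∀ w W : ℕ, w0 ≤ w → IsW w W → ∃ N0 : ℕ,
    ∀ N : ℕ, N0 ≤ N → ∀ (r1 r2 σ b : ℤ), |r1| < 2 * W → IsCoprime r1 (W : ℤ) → |r2| < 2 * W →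
    IsCoprime r2 (W : ℤ) → (σ = 1 ∨ σ = -1) → |b| ≤ 4 * W → ∀ (F G : ℤ → ℝ),
    (∀ x, |F x| ≤ lamv W (2 * W * x + b)) → (∀ y, |G y| ≤ 1) →
    |∑ x ∈ Finset.Ico (0 : ℤ) N, ∑ y ∈ Finset.Ico (0 : ℤ) N, F x * G y * ker W r1 r2 σ x y| ≤
      ε * N ^ 2 := by
  obtain ⟨C, hC, hmaj⟩ := majo
  obtain ⟨s, hs, w0, h⟩ := rcnc C hC (ε / 2) (by positivity)
  refine ⟨w0, fun w W hw hW => ?_⟩
  obtain ⟨N1, hN1⟩ := h w W hw hW
  obtain ⟨N2, hN2⟩ := hmaj s (by omega) w W hW
  obtain ⟨N3, hN3⟩ := removed_small W hW.1 (ε / 2) (by positivity)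
  refine ⟨max (max N1 N2) (max N3 2), fun N hN r1 r2 σ b h1 h2 h3 h4 h5 hb F G hF hG => ?_⟩
  have hNa : N1 ≤ N := le_trans (le_trans (le_max_left _ _) (le_max_left _ _)) hN
  have hNb : N2 ≤ N := le_trans (le_trans (le_max_right _ _) (le_max_left _ _)) hN
  have hNc : N3 ≤ N := le_trans (le_trans (le_max_left _ _) (le_max_right _ _)) hN
  have hNd : 2 ≤ N := le_trans (le_trans (le_max_right _ _) (le_max_right _ _)) hN
  have hWz : (1 : ℤ) ≤ W := by exact_mod_cast hW.1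
  have hNz : (2 : ℤ) ≤ N := by exact_mod_cast hNd
  have hsz : (1 : ℝ) ≤ (s : ℝ) := by exact_mod_cast (by omega : 1 ≤ s)
  have hP : ∀ p ∈ sprimes w (rt s N), p.Prime := (pset_sprimes w (rt s N)).prime
  have hv : ∀ x ∈ Finset.Ico (0 : ℤ) N, |2 * W * x + b| ≤ 5 * W * N := by
    intro x hx
    rw [Finset.mem_Ico] at hx
    rw [abs_le] at hb ⊢
    constructor <;> nlinarith
  set B := bad N b (2 * W) (rt s N) with hBdef
  have hrem := removal hW.1 (by omega : 0 < N) h1 h3 h5 F G hG B (fun x hx _ => by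
    have a1 := hF x
    have a2 := lamv_le hW.1 (by omega : 0 < N) (hv x hx)
    nlinarith [sq_nonneg (LL W N - 1 / 2)])
  have hmain := hN1 N hNa r1 r2 σ h1 h2 h3 h4 h5
    (fun x => if x ∈ Finset.Ico (0 : ℤ) N ∧ x ∉ B then F x else 0) G
    (fun x => rho (sprimes w (rt s N)) (2 * W * x + b) * rho (sprimes w (rt s N)) (2 * W * x + b) /
        SGp (sprimes w (rt s N)) (2 * W * b - 2 * W * b))
    (Or.inr ⟨2, 2, b, b, by norm_num, by norm_num, by norm_num, by norm_num, rfl⟩)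
    (fun x => by
      rw [sub_self, rho_sq hP]
      have hr := rho_nonneg hP (2 * W * x + b)
      split_ifs with hx
      · have hx2 : (rt s N : ℤ) < |2 * W * x + b| := by
          by_contra hcon
          apply hx.2
          rw [hBdef, bad, Finset.mem_filter]
          refine ⟨hx.1, ?_⟩
          rw [not_lt] at hcon
          rwa [add_comm b]
        have a1 := hN2 N hNb _ (hv x hx.1) hx2
        refine (hF x).trans (a1.trans ?_)
        apply mul_le_mul_of_nonneg_right _ hr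
        have hss : (s : ℝ) ≤ (s : ℝ) ^ 2 := by nlinarith
        exact mul_le_mul_of_nonneg_left hss (by linarith)
      · rw [abs_zero]; positivity)
    hG
  have hcard : (B.card : ℝ) ≤ 4 * Real.sqrt N + 2 := by
    have c1 := card_bad (N := N) (b := b) (c := 2 * W) (by positivity) (rt s N)
    have c2 : (B.card : ℝ) ≤ 2 * rt s N + 1 := by exact_mod_cast c1
    have c3 := rt_sq_le hs N
    have c4 := Real.sqrt_nonneg (N : ℝ)
    linarith
  have hfin := hN3 N hNc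
  have hlast : (B.card : ℝ) * (N * (LL W N ^ 2 + 1) ^ 2) ≤
      (4 * Real.sqrt N + 2) * (N * (LL W N ^ 2 + 1) ^ 2) :=
    mul_le_mul_of_nonneg_right hcard (by positivity)
  linarith

theorem one_le_prod_real (T : Finset ℕ) (f : ℕ → ℝ) (h : ∀ p ∈ T, 1 ≤ f p) : 1 ≤ ∏ p ∈ T, f p := by
  classical
  induction T using Finset.induction_on with
  | empty => simp
  | insert a T ha ih =>
    rw [Finset.prod_insert ha]
    have h1 := h a (Finset.mem_insert_self a T)
    have h2 := ih fun p hp => h p (Finset.mem_insert_of_mem hp)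
    nlinarith

theorem SGp_le_SW {w W z : ℕ} (hW : IsW w W) (hw : 2 ≤ w) {d : ℤ} (hd : d ≠ 0) :
    0 < SGp (sprimes w z) (W * d) ∧ SGp (sprimes w z) (W * d) ≤ SW w d := by
  have hp3 : ∀ p ∈ sprimes w z, (3 : ℝ) ≤ p := by
    intro p hp
    have := (mem_sprimes.mp hp).2.1
    exact_mod_cast (by omega : 3 ≤ p)
  constructor
  · unfold SGp
    apply Finset.prod_pos
    intro p hp
    have h3 := hp3 p hp
    have h4 : 1 / (p : ℝ) ≤ 1 / 3 := one_div_le_one_div_of_le (by norm_num) h3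
    have h5 : 2 / (p : ℝ) ≤ 2 / 3 := by
      have : 2 / (p : ℝ) = 2 * (1 / p) := by ring
      rw [this]; linarith
    split_ifs
    · apply inv_pos.mpr; linarith
    · apply div_pos
      · linarith
      · apply pow_pos; linarith
  · unfold SGp SW
    have hle : ∀ p ∈ sprimes w z, (if (p : ℤ) ∣ (W * d) then (1 - 1 / (p : ℝ))⁻¹ else
        (1 - 2 / (p : ℝ)) / (1 - 1 / (p : ℝ)) ^ 2) ≤
        if p ∈ d.natAbs.primeFactors.filter (fun p => w < p) then (1 - 1 / (p : ℝ))⁻¹ else 1 := by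
      intro p hp
      have hpp := mem_sprimes.mp hp
      have h3 := hp3 p hp
      have h4 : 1 / (p : ℝ) ≤ 1 / 3 := one_div_le_one_div_of_le (by norm_num) h3
      have hW' := hW.not_dvd (pset_sprimes w z) p hp
      by_cases hdv : (p : ℤ) ∣ (W * d)
      · rw [if_pos hdv]
        have hpd : (p : ℤ) ∣ d := by
          have hprime : Prime (p : ℤ) := Nat.prime_iff_prime_int.mp hpp.1
          exact (hprime.dvd_or_dvd hdv).resolve_left hW'
        rw [if_pos]
        rw [Finset.mem_filter, Nat.mem_primeFactors]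
        exact ⟨⟨hpp.1, Int.natCast_dvd.mp hpd, by simpa using hd⟩, hpp.2.1⟩
      · rw [if_neg hdv]
        have hpd : p ∉ d.natAbs.primeFactors.filter (fun p => w < p) := by
          intro hcon
          rw [Finset.mem_filter, Nat.mem_primeFactors] at hcon
          exact hdv (Dvd.dvd.mul_left (Int.natCast_dvd.mpr hcon.1.2.1) _)
        rw [if_neg hpd, div_le_one (by apply pow_pos; linarith)]
        have : (2 : ℝ) / p = 2 * (1 / p) := by ring
        rw [this]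
        nlinarith [sq_nonneg (1 / (p : ℝ))]
    have hnn : ∀ p ∈ sprimes w z, 0 ≤ (if (p : ℤ) ∣ (W * d) then (1 - 1 / (p : ℝ))⁻¹ else
        (1 - 2 / (p : ℝ)) / (1 - 1 / (p : ℝ)) ^ 2) := by
      intro p hp
      have h3 := hp3 p hp
      have h4 : 1 / (p : ℝ) ≤ 1 / 3 := one_div_le_one_div_of_le (by norm_num) h3
      have h5 : 2 / (p : ℝ) ≤ 2 / 3 := by
        have : 2 / (p : ℝ) = 2 * (1 / p) := by ring
        rw [this]; linarith
      split_ifs
      · apply inv_nonneg.mpr; linarith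
      · apply div_nonneg
        · linarith
        · apply pow_nonneg; linarith
    refine (Finset.prod_le_prod hnn hle).trans ?_
    rw [Finset.prod_ite, Finset.prod_const_one, mul_one]
    set T := d.natAbs.primeFactors.filter (fun p => w < p) with hT
    have hsub : (sprimes w z).filter (fun p => p ∈ T) ⊆ T := fun p hp => (Finset.mem_filter.mp hp).2
    rw [← Finset.prod_sdiff hsub]
    have hone : ∀ p ∈ T, (1 : ℝ) ≤ (1 - 1 / (p : ℝ))⁻¹ := by
      intro p hp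
      rw [hT, Finset.mem_filter] at hp
      have h3 : (3 : ℝ) ≤ p := by exact_mod_cast (by omega : 3 ≤ p)
      have h4 : 1 / (p : ℝ) ≤ 1 / 3 := one_div_le_one_div_of_le (by norm_num) h3
      have h5 : 0 ≤ 1 / (p : ℝ) := by positivity
      exact (one_le_inv₀ (by linarith)).mpr (by linarith)
    have h6 : (1 : ℝ) ≤ ∏ p ∈ T \ (sprimes w z).filter (fun p => p ∈ T), (1 - 1 / (p : ℝ))⁻¹ :=
      one_le_prod_real _ _ fun p hp => hone p (Finset.mem_sdiff.mp hp).1
    have h7 : (0 : ℝ) ≤ ∏ p ∈ (sprimes w z).filter (fun p => p ∈ T), (1 - 1 / (p : ℝ))⁻¹ :=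
      Finset.prod_nonneg fun p hp => le_trans zero_le_one (hone p (hsub hp))
    exact le_mul_of_one_le_left h7 h6

theorem rcn_one_le_SW {w : ℕ} (hw : 2 ≤ w) (d : ℤ) : 1 ≤ SW w d := by
  unfold SW
  apply one_le_prod_real
  intro p hp
  rw [Finset.mem_filter] at hp
  have h3 : (3 : ℝ) ≤ p := by exact_mod_cast (by omega : 3 ≤ p)
  have h4 : 1 / (p : ℝ) ≤ 1 / 3 := one_div_le_one_div_of_le (by norm_num) h3
  have h5 : 0 ≤ 1 / (p : ℝ) := by positivity
  exact (one_le_inv₀ (by linarith)).mpr (by linarith)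

/-- Chunk RCN2: `F` dominated by the pairs of primes `b + W x`, `b' - W x`: similarly (`majo` twice),
`K0 = C^2`; here `ε1 * W * b2 - ε2 * W * b1 = W (b + b')`, and
`SGp (sprimes w z) (W (b + b')) ≤ SW w (b + b')`. -/
theorem rcn2 (ε : ℝ) (hε : 0 < ε) : ∃ w0 : ℕ, ∀ w W : ℕ, w0 ≤ w → IsW w W → ∃ N0 : ℕ,
    ∀ N : ℕ, N0 ≤ N → ∀ (r1 r2 σ b b' : ℤ), |r1| < 2 * W → IsCoprime r1 (W : ℤ) → |r2| < 2 * W →
    IsCoprime r2 (W : ℤ) → (σ = 1 ∨ σ = -1) → |b| ≤ 4 * W * N → |b'| ≤ 4 * W * N → b + b' ≠ 0 →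
    ∀ (F G : ℤ → ℝ),
    (∀ x, |F x| ≤ lamv W (b + W * x) * lamv W (b' - W * x) / SW w (b + b')) → (∀ y, |G y| ≤ 1) →
    |∑ x ∈ Finset.Ico (0 : ℤ) N, ∑ y ∈ Finset.Ico (0 : ℤ) N, F x * G y * ker W r1 r2 σ x y| ≤
      ε * N ^ 2 := by
  obtain ⟨C, hC, hmaj⟩ := majo
  obtain ⟨s, hs, w0, h⟩ := rcnc (C ^ 2) (by nlinarith) (ε / 2) (by positivity)
  refine ⟨max w0 2, fun w W hw hW => ?_⟩
  have hw2 : 2 ≤ w := le_trans (le_max_right _ _) hw
  obtain ⟨N1, hN1⟩ := h w W (le_trans (le_max_left _ _) hw) hW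
  obtain ⟨N2, hN2⟩ := hmaj s (by omega) w W hW
  obtain ⟨N3, hN3⟩ := removed_small W hW.1 (ε / 2) (by positivity)
  refine ⟨max (max N1 N2) (max N3 2), fun N hN r1 r2 σ b b' h1 h2 h3 h4 h5 hb hb' hbb F G hF hG => ?_⟩
  have hNa : N1 ≤ N := le_trans (le_trans (le_max_left _ _) (le_max_left _ _)) hN
  have hNb : N2 ≤ N := le_trans (le_trans (le_max_right _ _) (le_max_left _ _)) hN
  have hNc : N3 ≤ N := le_trans (le_trans (le_max_left _ _) (le_max_right _ _)) hN
  have hNd : 2 ≤ N := le_trans (le_trans (le_max_right _ _) (le_max_right _ _)) hN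
  have hWz : (1 : ℤ) ≤ W := by exact_mod_cast hW.1
  have hNz : (2 : ℤ) ≤ N := by exact_mod_cast hNd
  have hsz : (1 : ℝ) ≤ (s : ℝ) := by exact_mod_cast (by omega : 1 ≤ s)
  have hP : ∀ p ∈ sprimes w (rt s N), p.Prime := (pset_sprimes w (rt s N)).prime
  have hSW := rcn_one_le_SW hw2 (b + b')
  have hSG := SGp_le_SW (z := rt s N) hW hw2 hbb
  have hv : ∀ x ∈ Finset.Ico (0 : ℤ) N, |b + W * x| ≤ 5 * W * N := by
    intro x hx
    rw [Finset.mem_Ico] at hx
    rw [abs_le] at hb ⊢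
    constructor <;> nlinarith
  have hv' : ∀ x ∈ Finset.Ico (0 : ℤ) N, |b' - W * x| ≤ 5 * W * N := by
    intro x hx
    rw [Finset.mem_Ico] at hx
    rw [abs_le] at hb' ⊢
    constructor <;> nlinarith
  classical
  set B := bad N b W (rt s N) ∪ bad N b' (-W) (rt s N) with hBdef
  have hl := LL_nonneg hW.1 (by omega : 0 < N)
  have hrem := removal hW.1 (by omega : 0 < N) h1 h3 h5 F G hG B (fun x hx _ => by
    have a1 := hF x
    have a2 := lamv_le hW.1 (by omega : 0 < N) (hv x hx)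
    have a3 := lamv_le hW.1 (by omega : 0 < N) (hv' x hx)
    have a4 := lamv_nonneg W (b + W * x)
    have a5 := lamv_nonneg W (b' - W * x)
    have a6 : lamv W (b + W * x) * lamv W (b' - W * x) / SW w (b + b') ≤
        lamv W (b + W * x) * lamv W (b' - W * x) := div_le_self (mul_nonneg a4 a5) hSW
    have a7 := mul_le_mul a2 a3 a5 hl
    nlinarith)
  have hmain := hN1 N hNa r1 r2 σ h1 h2 h3 h4 h5
    (fun x => if x ∈ Finset.Ico (0 : ℤ) N ∧ x ∉ B then F x else 0) G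
    (fun x => rho (sprimes w (rt s N)) (1 * W * x + b) * rho (sprimes w (rt s N)) (-1 * W * x + b') /
        SGp (sprimes w (rt s N)) (1 * W * b' - -1 * W * b))
    (Or.inr ⟨1, -1, b, b', by norm_num, by norm_num, by norm_num, by norm_num, rfl⟩)
    (fun x => by
      have e1 : (1 * W * b' - -1 * W * b : ℤ) = W * (b + b') := by ring
      have e2 : (1 * W * x + b : ℤ) = b + W * x := by ring
      have e3 : (-1 * W * x + b' : ℤ) = b' - W * x := by ring
      rw [e1, e2, e3]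
      have hr := rho_nonneg hP (b + W * x)
      have hr' := rho_nonneg hP (b' - W * x)
      split_ifs with hx
      · have hx1 : (rt s N : ℤ) < |b + W * x| := by
          by_contra hcon
          apply hx.2
          rw [hBdef, Finset.mem_union]
          left
          rw [bad, Finset.mem_filter]
          exact ⟨hx.1, not_lt.mp hcon⟩
        have hx2 : (rt s N : ℤ) < |b' - W * x| := by
          by_contra hcon
          apply hx.2
          rw [hBdef, Finset.mem_union]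
          right
          rw [bad, Finset.mem_filter]
          refine ⟨hx.1, ?_⟩
          rw [not_lt] at hcon
          rwa [neg_mul, ← sub_eq_add_neg]
        have a1 := hN2 N hNb _ (hv x hx.1) hx1
        have a2 := hN2 N hNb _ (hv' x hx.1) hx2
        have a4 := lamv_nonneg W (b + W * x)
        have a5 := lamv_nonneg W (b' - W * x)
        have a6 : lamv W (b + W * x) * lamv W (b' - W * x) ≤
            (C * s * rho (sprimes w (rt s N)) (b + W * x)) * (C * s * rho (sprimes w (rt s N)) (b' - W * x)) :=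
          mul_le_mul a1 a2 a5 (by positivity)
        have a7 : lamv W (b + W * x) * lamv W (b' - W * x) / SW w (b + b') ≤
            (C * s * rho (sprimes w (rt s N)) (b + W * x)) * (C * s * rho (sprimes w (rt s N)) (b' - W * x)) /
              SGp (sprimes w (rt s N)) (W * (b + b')) :=
          div_le_div₀ (by positivity) a6 hSG.1 hSG.2
        refine (hF x).trans (a7.trans (le_of_eq ?_))
        ring
      · rw [abs_zero]
        have := hSG.1
        positivity)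
    hG
  have hcard : (B.card : ℝ) ≤ 4 * Real.sqrt N + 2 := by
    have c1 := card_bad (N := N) (b := b) (c := W) (by positivity) (rt s N)
    have c1' := card_bad (N := N) (b := b') (c := -W) (by simpa using (by positivity : (W : ℤ) ≠ 0)) (rt s N)
    have c0 : B.card ≤ (2 * rt s N + 1) + (2 * rt s N + 1) :=
      (Finset.card_union_le _ _).trans (add_le_add c1 c1')
    have c2 : (B.card : ℝ) ≤ (2 * rt s N + 1) + (2 * rt s N + 1) := by exact_mod_cast c0
    have c3 := rt_sq_le hs N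
    linarith
  have hfin := hN3 N hNc
  have hlast : (B.card : ℝ) * (N * (LL W N ^ 2 + 1) ^ 2) ≤
      (4 * Real.sqrt N + 2) * (N * (LL W N ^ 2 + 1) ^ 2) :=
    mul_le_mul_of_nonneg_right hcard (by positivity)
  linarith

end Pool.Agent.Lib.H18GB
end

-- from Lib.H18GB2.DB
section

/-!
# Project GB2: DB (codegrees are bounded)
-/

namespace Pool.Agent.Lib.H18GB

open Finset Pool.Agent.Lib.Sieve

/-- coefficients of the four forms -/
def dbA (W : ℕ) (σ : ℤ) : Fin 4 → ℤ := ![(W : ℤ), W * σ, W, W * σ]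

/-- constants of the four forms -/
def dbB (W : ℕ) (r1 r2 σ y y' : ℤ) : Fin 4 → ℤ :=
  ![r1 + W * y, r2 - W * σ * y, r1 + W * y', r2 - W * σ * y']

theorem db_unitA {w z W : ℕ} {S : Finset ℕ} (hS : PSet w z S) (hW : IsW w W) {σ : ℤ}
    (hσ : σ = 1 ∨ σ = -1) : ∀ p ∈ S, ∀ i, ¬ (p : ℤ) ∣ dbA W σ i := by
  intro p hp i
  have h1 := hW.not_dvd hS p hp
  have h2 : ¬ (p : ℤ) ∣ (W : ℤ) * σ := by
    rcases hσ with rfl | rfl
    · simpa using h1
    · simpa using h1
  fin_cases i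
  · exact h1
  · exact h2
  · exact h1
  · exact h2

theorem db_disc {w z W : ℕ} {S : Finset ℕ} (hw : 2 ≤ w) (hS : PSet w z S) (hW : IsW w W)
    (r1 r2 : ℤ) {σ : ℤ} (hσ : σ = 1 ∨ σ = -1) (i j : Fin 4) (hij : i ≠ j) :
    (∃ (c : ℤ) (g : ℤ → ℤ), (∀ p ∈ S, ¬ (p : ℤ) ∣ c) ∧
      ∀ y y', disc (dbA W σ) (dbB W r1 r2 σ y y') i j = c * y + g y') ∨
    (∃ (c : ℤ) (g : ℤ → ℤ), (∀ p ∈ S, ¬ (p : ℤ) ∣ c) ∧
      ∀ y y', disc (dbA W σ) (dbB W r1 r2 σ y y') i j = c * y' + g y) := by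
  have u1 : ∀ p ∈ S, ¬ (p : ℤ) ∣ (W : ℤ) := hW.not_dvd hS
  have uσ : ∀ p ∈ S, ¬ (p : ℤ) ∣ σ := by
    intro p hp hd
    have h1 := (hS p hp).1.one_lt
    rcases hσ with rfl | rfl
    · have := Int.le_of_dvd one_pos hd
      omega
    · have := Int.le_of_dvd one_pos ((dvd_neg).mp hd)
      omega
  have u2' : ∀ p ∈ S, ¬ (p : ℤ) ∣ 2 := by
    intro p hp hd
    have h1 := (hS p hp).2.1
    have := Int.le_of_dvd two_pos hd
    omega
  have u2 := unit_mul hS u1 uσ
  have u3 := unit_mul hS u1 u1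
  have u4 := unit_mul hS u2 u1
  have u5 := unit_mul hS u2' u4
  have u6 := unit_mul hS u2 u2
  have n3 := unit_neg u3
  have n4 := unit_neg u4
  have n5 := unit_neg u5
  have n6 := unit_neg u6
  fin_cases i <;> fin_cases j
  · exact absurd rfl hij
  · left
    refine ⟨_, fun _ => W * r2 - W * σ * r1, n5, fun y y' => ?_⟩
    simp only [disc, dbA, dbB, Fin.zero_eta, Fin.mk_one, Matrix.cons_val_zero, Matrix.cons_val_one]
    ring
  · left
    refine ⟨_, fun y' => W * (r1 + W * y') - W * r1, n3, fun y y' => ?_⟩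
    simp only [disc, dbA, dbB, Fin.zero_eta, Fin.reduceFinMk, Matrix.cons_val_zero, Matrix.cons_val]
    ring
  · left
    refine ⟨_, fun y' => W * (r2 - W * σ * y') - W * σ * r1, n4, fun y y' => ?_⟩
    simp only [disc, dbA, dbB, Fin.zero_eta, Fin.reduceFinMk, Matrix.cons_val_zero, Matrix.cons_val]
    ring
  · left
    refine ⟨_, fun _ => W * σ * r1 - W * r2, u5, fun y y' => ?_⟩
    simp only [disc, dbA, dbB, Fin.zero_eta, Fin.mk_one, Matrix.cons_val_zero, Matrix.cons_val_one]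
    ring
  · exact absurd rfl hij
  · left
    refine ⟨_, fun y' => W * σ * (r1 + W * y') - W * r2, u4, fun y y' => ?_⟩
    simp only [disc, dbA, dbB, Fin.mk_one, Fin.reduceFinMk, Matrix.cons_val_one, Matrix.cons_val]
    ring
  · left
    refine ⟨_, fun y' => W * σ * (r2 - W * σ * y') - W * σ * r2, u6, fun y y' => ?_⟩
    simp only [disc, dbA, dbB, Fin.mk_one, Fin.reduceFinMk, Matrix.cons_val_one, Matrix.cons_val]
    ring
  · left
    refine ⟨_, fun y' => W * r1 - W * (r1 + W * y'), u3, fun y y' => ?_⟩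
    simp only [disc, dbA, dbB, Fin.zero_eta, Fin.reduceFinMk, Matrix.cons_val_zero, Matrix.cons_val]
    ring
  · left
    refine ⟨_, fun y' => W * r2 - W * σ * (r1 + W * y'), n4, fun y y' => ?_⟩
    simp only [disc, dbA, dbB, Fin.mk_one, Fin.reduceFinMk, Matrix.cons_val_one, Matrix.cons_val]
    ring
  · exact absurd rfl hij
  · right
    refine ⟨_, fun _ => W * r2 - W * σ * r1, n5, fun y y' => ?_⟩
    simp only [disc, dbA, dbB, Fin.reduceFinMk, Matrix.cons_val]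
    ring
  · left
    refine ⟨_, fun y' => W * σ * r1 - W * (r2 - W * σ * y'), u4, fun y y' => ?_⟩
    simp only [disc, dbA, dbB, Fin.zero_eta, Fin.reduceFinMk, Matrix.cons_val_zero, Matrix.cons_val]
    ring
  · left
    refine ⟨_, fun y' => W * σ * r2 - W * σ * (r2 - W * σ * y'), n6, fun y y' => ?_⟩
    simp only [disc, dbA, dbB, Fin.mk_one, Fin.reduceFinMk, Matrix.cons_val_one, Matrix.cons_val]
    ring
  · right
    refine ⟨_, fun _ => W * σ * r1 - W * r2, u5, fun y y' => ?_⟩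
    simp only [disc, dbA, dbB, Fin.reduceFinMk, Matrix.cons_val]
    ring
  · exact absurd rfl hij

open Classical in
/-- the error of the codegrees -/
noncomputable def dbE (S : Finset ℕ) (W : ℕ) (r1 r2 σ y y' : ℤ) : ℝ :=
  ∑ i : Fin 4, ∑ j : Fin 4,
    if i ≠ j then Ers (9 / 10) S (disc (dbA W σ) (dbB W r1 r2 σ y y') i j) else 0

theorem dbE_nonneg (S : Finset ℕ) (W : ℕ) (r1 r2 σ y y' : ℤ) : 0 ≤ dbE S W r1 r2 σ y y' := by
  unfold dbE
  refine Finset.sum_nonneg fun i _ => Finset.sum_nonneg fun j _ => ?_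
  split_ifs
  · exact Ers_nonneg _ _ _
  · exact le_rfl

/-- the correlation theorem for the subfamilies of four forms -/
theorem db_corr : ∃ C : ℕ, 1 ≤ C ∧
    ∀ (A w z : ℕ) (S : Finset ℕ), C ≤ A → C ≤ w → 2 ≤ z →
    PSet w z S → ∀ (W : ℕ) (r1 r2 σ y y' : ℤ), (∀ p ∈ S, ∀ i, ¬ (p : ℤ) ∣ dbA W σ i) →
    ∀ (T : Finset (Fin 4)) (a b : ℤ), a ≤ b →
    |∑ x ∈ Finset.Ico a b, (∏ i ∈ T, rho S (dbA W σ i * x + dbB W r1 r2 σ y y' i)) - (b - a)| ≤
      (b - a) * (C * er C A w + C * dbE S W r1 r2 σ y y') + C * (z : ℝ) ^ (A + 4) := by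
  obtain ⟨C, h1, h2⟩ := corr0_sub (Fin 4)
  refine ⟨C, h1, ?_⟩
  intro A w z S hA hw hz hS W r1 r2 σ y y' hα T a b hab
  have := h2 A w z S hA hw hz hS (dbA W σ) (dbB W r1 r2 σ y y') hα T a b hab
  rw [Fintype.card_fin] at this
  unfold dbE
  convert this

open Classical in
/-- the average of the square of the error -/
theorem dbE_avg : ∃ C : ℝ, 1 ≤ C ∧ ∀ (w z W N : ℕ) (S : Finset ℕ), 2 ≤ w → PSet w z S → IsW w W →
    ∀ (r1 r2 σ : ℤ), (σ = 1 ∨ σ = -1) →
    ∑ y ∈ Finset.Ico (0 : ℤ) N, ∑ y' ∈ Finset.Ico (0 : ℤ) N, dbE S W r1 r2 σ y y' ^ 2 ≤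
      C * N * (N * (w : ℝ) ^ (-(3 / 4 : ℝ)) + z) := by
  obtain ⟨Ce, hCe1, hCe⟩ := ers_sq_le
  obtain ⟨Ca, hCa1, hCa⟩ := ers_avg (3 / 4) (by norm_num) (by norm_num)
  refine ⟨256 * Ce * Ca, by nlinarith, ?_⟩
  intro w z W N S hw hS hW r1 r2 σ hσ
  have hw0 : (0 : ℝ) ≤ (w : ℝ) ^ (-(3 / 4 : ℝ)) := by positivity
  set B : ℝ := N * (w : ℝ) ^ (-(3 / 4 : ℝ)) + z with hB
  have hB0 : 0 ≤ B := by positivity
  have hN0 : (0 : ℤ) ≤ N := by positivity
  -- pairs
  have hpair : ∀ i j : Fin 4, i ≠ j → ∑ y ∈ Finset.Ico (0 : ℤ) N, ∑ y' ∈ Finset.Ico (0 : ℤ) N,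
      Ers (3 / 4) S (disc (dbA W σ) (dbB W r1 r2 σ y y') i j) ≤ N * (Ca * B) := by
    intro i j hij
    rcases db_disc hw hS hW r1 r2 hσ i j hij with ⟨c, g, hc, hg⟩ | ⟨c, g, hc, hg⟩
    · rw [Finset.sum_comm]
      calc ∑ y' ∈ Finset.Ico (0 : ℤ) N, ∑ y ∈ Finset.Ico (0 : ℤ) N,
          Ers (3 / 4) S (disc (dbA W σ) (dbB W r1 r2 σ y y') i j)
          ≤ ∑ y' ∈ Finset.Ico (0 : ℤ) N, Ca * B := by
            apply Finset.sum_le_sum
            intro y' _
            have := hCa w z S (by omega) hS c (g y') hc 0 N hN0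
            simp only [hg]
            refine this.trans (le_of_eq ?_)
            rw [hB]
            push_cast
            ring
        _ = N * (Ca * B) := by
            rw [Finset.sum_const, Int.card_Ico, nsmul_eq_mul]
            simp
    · calc ∑ y ∈ Finset.Ico (0 : ℤ) N, ∑ y' ∈ Finset.Ico (0 : ℤ) N,
          Ers (3 / 4) S (disc (dbA W σ) (dbB W r1 r2 σ y y') i j)
          ≤ ∑ y ∈ Finset.Ico (0 : ℤ) N, Ca * B := by
            apply Finset.sum_le_sum
            intro y _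
            have := hCa w z S (by omega) hS c (g y) hc 0 N hN0
            simp only [hg]
            refine this.trans (le_of_eq ?_)
            rw [hB]
            push_cast
            ring
        _ = N * (Ca * B) := by
            rw [Finset.sum_const, Int.card_Ico, nsmul_eq_mul]
            simp
  -- pointwise
  have hpt : ∀ y y' : ℤ, dbE S W r1 r2 σ y y' ^ 2 ≤ 16 * ∑ i : Fin 4, ∑ j : Fin 4,
      if i ≠ j then Ce * Ers (3 / 4) S (disc (dbA W σ) (dbB W r1 r2 σ y y') i j) else 0 := by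
    intro y y'
    unfold dbE
    have h1 := sq_sum_le_card_mul_sum_sq (s := (Finset.univ : Finset (Fin 4)))
      (f := fun i => ∑ j : Fin 4,
        if i ≠ j then Ers (9 / 10) S (disc (dbA W σ) (dbB W r1 r2 σ y y') i j) else 0)
    refine h1.trans ?_
    have h2 : ∀ i : Fin 4, (∑ j : Fin 4,
        if i ≠ j then Ers (9 / 10) S (disc (dbA W σ) (dbB W r1 r2 σ y y') i j) else 0) ^ 2 ≤
        4 * ∑ j : Fin 4,
          if i ≠ j then Ce * Ers (3 / 4) S (disc (dbA W σ) (dbB W r1 r2 σ y y') i j) else 0 := by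
      intro i
      have h3 := sq_sum_le_card_mul_sum_sq (s := (Finset.univ : Finset (Fin 4)))
        (f := fun j => if i ≠ j then Ers (9 / 10) S (disc (dbA W σ) (dbB W r1 r2 σ y y') i j) else 0)
      refine h3.trans ?_
      simp only [Finset.card_univ, Fintype.card_fin, Nat.cast_ofNat]
      apply mul_le_mul_of_nonneg_left _ (by norm_num)
      apply Finset.sum_le_sum
      intro j _
      split_ifs
      · exact hCe w z S _ hS
      · simp
    simp only [Finset.card_univ, Fintype.card_fin, Nat.cast_ofNat]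
    calc (4 : ℝ) * ∑ i : Fin 4, (∑ j : Fin 4,
        if i ≠ j then Ers (9 / 10) S (disc (dbA W σ) (dbB W r1 r2 σ y y') i j) else 0) ^ 2
        ≤ 4 * ∑ i : Fin 4, (4 * ∑ j : Fin 4,
          if i ≠ j then Ce * Ers (3 / 4) S (disc (dbA W σ) (dbB W r1 r2 σ y y') i j) else 0) := by
          apply mul_le_mul_of_nonneg_left _ (by norm_num)
          exact Finset.sum_le_sum fun i _ => h2 i
      _ = _ := by rw [← Finset.mul_sum]; ring
  calc ∑ y ∈ Finset.Ico (0 : ℤ) N, ∑ y' ∈ Finset.Ico (0 : ℤ) N, dbE S W r1 r2 σ y y' ^ 2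
      ≤ ∑ y ∈ Finset.Ico (0 : ℤ) N, ∑ y' ∈ Finset.Ico (0 : ℤ) N, (16 * ∑ i : Fin 4, ∑ j : Fin 4,
      if i ≠ j then Ce * Ers (3 / 4) S (disc (dbA W σ) (dbB W r1 r2 σ y y') i j) else 0) :=
        Finset.sum_le_sum fun y _ => Finset.sum_le_sum fun y' _ => hpt y y'
    _ = 16 * ∑ i : Fin 4, ∑ j : Fin 4, ∑ y ∈ Finset.Ico (0 : ℤ) N, ∑ y' ∈ Finset.Ico (0 : ℤ) N,
      (if i ≠ j then Ce * Ers (3 / 4) S (disc (dbA W σ) (dbB W r1 r2 σ y y') i j) else 0) := by
        simp_rw [← Finset.mul_sum]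
        congr 1
        have e1 : ∀ y : ℤ, ∑ y' ∈ Finset.Ico (0 : ℤ) N, ∑ i : Fin 4, ∑ j : Fin 4,
            (if i ≠ j then Ce * Ers (3 / 4) S (disc (dbA W σ) (dbB W r1 r2 σ y y') i j) else 0) =
            ∑ i : Fin 4, ∑ j : Fin 4, ∑ y' ∈ Finset.Ico (0 : ℤ) N,
            (if i ≠ j then Ce * Ers (3 / 4) S (disc (dbA W σ) (dbB W r1 r2 σ y y') i j) else 0) := by
          intro y
          rw [Finset.sum_comm]
          exact Finset.sum_congr rfl fun i _ => Finset.sum_comm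
        simp_rw [e1]
        rw [Finset.sum_comm]
        exact Finset.sum_congr rfl fun i _ => Finset.sum_comm
    _ ≤ 16 * ∑ i : Fin 4, ∑ j : Fin 4, Ce * (N * (Ca * B)) := by
        apply mul_le_mul_of_nonneg_left _ (by norm_num)
        refine Finset.sum_le_sum fun i _ => Finset.sum_le_sum fun j _ => ?_
        by_cases hij : i = j
        · simp only [hij, ne_eq, not_true_eq_false, if_false, Finset.sum_const_zero]
          positivity
        · simp only [ne_eq, hij, not_false_eq_true, if_true]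
          simp_rw [← Finset.mul_sum]
          exact mul_le_mul_of_nonneg_left (hpair i j hij) (by linarith)
    _ = 256 * Ce * Ca * N * B := by
        simp only [Finset.sum_const, Finset.card_univ, Fintype.card_fin, nsmul_eq_mul]
        push_cast
        ring

theorem db_point {a b κ ρ1 ρ2 : ℝ} (hκ : 1 ≤ κ) (ha : 0 ≤ a) (hb : 0 ≤ b) (h1 : a ≤ κ * ρ1)
    (h2 : b ≤ κ * ρ2) (hρ1 : 0 ≤ ρ1) (hρ2 : 0 ≤ ρ2) : |a * b - 1| ≤ κ ^ 2 * (1 + ρ1 * ρ2) := by
  have h3 : a * b ≤ κ * ρ1 * (κ * ρ2) := mul_le_mul h1 h2 hb (by positivity)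
  have h4 : 0 ≤ a * b := mul_nonneg ha hb
  have h5 : (1 : ℝ) ≤ κ ^ 2 := by nlinarith
  rw [abs_le]
  constructor
  · nlinarith [mul_nonneg hρ1 hρ2]
  · nlinarith [mul_nonneg hρ1 hρ2]

/-- pointwise bound of the kernel -/
theorem db_ker {W N z : ℕ} {S : Finset ℕ} (hS : ∀ p ∈ S, p.Prime) {κ : ℝ} (hκ : 1 ≤ κ) (hW : 0 < W)
    (hN : 1 ≤ N)
    (hmaj : ∀ v : ℤ, |v| ≤ 5 * W * N → (z : ℤ) < |v| → lamv W v ≤ κ * rho S v)
    {r1 r2 σ x y : ℤ} (h1 : |r1| < 2 * W) (h2 : |r2| < 2 * W) (hσ : σ = 1 ∨ σ = -1)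
    (hx : x ∈ Finset.Ico (0 : ℤ) N) (hy : y ∈ Finset.Ico (0 : ℤ) N)
    (hz1 : (z : ℤ) < |(r1 + W * y) + W * x|) (hz2 : (z : ℤ) < |(r2 - W * σ * y) + W * σ * x|) :
    |ker W r1 r2 σ x y| ≤ κ ^ 2 * (1 + rho S (W * x + (r1 + W * y)) *
      rho S (W * σ * x + (r2 - W * σ * y))) := by
  rw [Finset.mem_Ico] at hx hy
  have e1 : r1 + W * (x + y) = W * x + (r1 + W * y) := by ring
  have e2 : r2 + W * (σ * (x - y)) = W * σ * x + (r2 - W * σ * y) := by ring
  have hr1 := rho_nonneg hS (W * x + (r1 + W * y))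
  have hr2 := rho_nonneg hS (W * σ * x + (r2 - W * σ * y))
  unfold ker
  split_ifs with h
  · unfold lam
    rw [e1, e2]
    apply db_point hκ (rc_lamv_nonneg _ _) (rc_lamv_nonneg _ _) _ _ hr1 hr2
    · apply hmaj
      · rw [← e1]
        exact rc_arg_le hW hN h1 (by omega) (by omega)
      · rw [add_comm]; exact hz1
    · apply hmaj
      · rw [← e2]
        refine rc_arg_le hW hN h2 h ?_
        rcases hσ with rfl | rfl <;> omega
      · rw [add_comm]; exact hz2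
  · rw [abs_zero]
    positivity

open Classical in
/-- Chunk DB. Take `s` a large absolute constant, `z = rt s N`. For `|v| > z`,
`lamv W v ≤ C s rho v` (`majo`), so `|ker x y| ≤ (C s)^2 (1 + rho(r1 + W (x+y)) rho(σ r2 + W (x-y)))`
except if one of the two numbers is `≤ z` in absolute value, which for given `y` happens for `≤ 4 z + 2`
values of `x`; these contribute `≤ N`. Then `corr0_sub` gives the bound with
`E(y,y') = ∑ Ers (9/10) S (discriminants)`; finally `ers_sq_le`, `ers_avg`. -/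
theorem db : ∃ C : ℝ, 1 ≤ C ∧ ∀ ε : ℝ, 0 < ε → ∃ w0 : ℕ, ∀ w W : ℕ, w0 ≤ w → IsW w W → ∃ N0 : ℕ,
    ∀ N : ℕ, N0 ≤ N → ∀ (r1 r2 σ : ℤ), |r1| < 2 * W → |r2| < 2 * W → (σ = 1 ∨ σ = -1) →
    ∃ E : ℤ → ℤ → ℝ, (∀ y y', 0 ≤ E y y') ∧
    (∀ y ∈ Finset.Ico (0 : ℤ) N, ∀ y' ∈ Finset.Ico (0 : ℤ) N,
      ∑ x ∈ Finset.Ico (0 : ℤ) N, |ker W r1 r2 σ x y * ker W r1 r2 σ x y'| ≤
        C * N * (1 + E y y')) ∧
    ∑ y ∈ Finset.Ico (0 : ℤ) N, ∑ y' ∈ Finset.Ico (0 : ℤ) N, E y y' ^ 2 ≤ ε * N ^ 2 := by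
  obtain ⟨Cc, hCc1, hCc⟩ := db_corr
  obtain ⟨Cm, hCm1, hCm⟩ := majo
  obtain ⟨Cv, hCv1, hCv⟩ := dbE_avg
  obtain ⟨s, hs⟩ : ∃ s, s = Cc + 4 := ⟨_, rfl⟩
  obtain ⟨κ, hκ⟩ : ∃ κ : ℝ, κ = Cm * s := ⟨_, rfl⟩
  have hsr : (1 : ℝ) ≤ s := by exact_mod_cast (by omega : 1 ≤ s)
  have hκ1 : 1 ≤ κ := by rw [hκ]; nlinarith
  have hCcr : (1 : ℝ) ≤ Cc := by exact_mod_cast hCc1
  refine ⟨4 * κ ^ 4 * (1 + 3 * Cc) + 1, by
    have : 0 ≤ 4 * κ ^ 4 * (1 + 3 * (Cc : ℝ)) := by positivity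
    linarith, fun ε hε => ?_⟩
  obtain ⟨w1, hw1⟩ : ∃ w1 : ℕ, ∀ w : ℕ, w1 ≤ w → Cv * (w : ℝ) ^ (-(3 / 4 : ℝ)) ≤ ε / 2 := by
    have h := (tendsto_rpow_neg_atTop (show (0 : ℝ) < 3 / 4 by norm_num)).comp
      tendsto_natCast_atTop_atTop
    have h' := h.eventually (gt_mem_nhds (show 0 < ε / (2 * Cv) by positivity))
    obtain ⟨w1, hw1⟩ := Filter.eventually_atTop.mp h'
    refine ⟨w1, fun w hw => ?_⟩
    have := (hw1 w hw).le
    simp only [Function.comp_apply] at this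
    calc Cv * (w : ℝ) ^ (-(3 / 4 : ℝ)) ≤ Cv * (ε / (2 * Cv)) := by gcongr
      _ = ε / 2 := by field_simp
  refine ⟨w1 + Cc + 2, fun w W hw hW => ?_⟩
  have hW0 := hW.1
  obtain ⟨M0, hM0⟩ := hCm s (by omega) w W hW
  obtain ⟨N1, hN1⟩ := removed_small W hW0 (1 / 4) (by norm_num)
  obtain ⟨N2, hN2⟩ := Filter.eventually_atTop.mp
    ((rt_tendsto (s := s) (by omega)).eventually (Filter.eventually_ge_atTop 2))
  obtain ⟨N3, hN3⟩ := exists_nat_ge ((2 * Cv / ε) ^ 2)
  refine ⟨M0 + N1 + N2 + N3 + 1, fun N hN r1 r2 σ hr1 hr2 hσ => ?_⟩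
  have hz2 := hN2 N (by omega)
  have hrem := hN1 N (by omega)
  have hmaj' := hM0 N (by omega)
  obtain ⟨z, hz⟩ : ∃ z, z = rt s N := ⟨_, rfl⟩
  rw [← hz] at hz2 hmaj'
  have hN1' : 1 ≤ N := by omega
  have hNr : (1 : ℝ) ≤ N := by exact_mod_cast hN1'
  have hzs : z ^ s ≤ N := by rw [hz]; exact rt_pow_le (by omega) N
  have hzq : (z : ℝ) ≤ Real.sqrt N := by rw [hz]; exact rt_sq_le (by omega) N
  have hsq0 : 0 ≤ Real.sqrt (N : ℝ) := Real.sqrt_nonneg _
  have hss : Real.sqrt N * Real.sqrt N = (N : ℝ) := Real.mul_self_sqrt (by linarith)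
  have hS := pset_sprimes w z
  have hmaj : ∀ v : ℤ, |v| ≤ 5 * W * N → (z : ℤ) < |v| → lamv W v ≤ κ * rho (sprimes w z) v := by
    intro v h1 h2
    rw [hκ]
    exact hmaj' v h1 h2
  refine ⟨dbE (sprimes w z) W r1 r2 σ, dbE_nonneg _ _ _ _ _, ?_, ?_⟩
  · intro y hy y' hy'
    set E := dbE (sprimes w z) W r1 r2 σ y y' with hE
    have hE0 : 0 ≤ E := dbE_nonneg _ _ _ _ _ _ _
    set α := dbA W σ with hα
    set β := dbB W r1 r2 σ y y' with hβ
    set F : Finset (Fin 4) → ℤ → ℝ := fun T x => ∏ i ∈ T, rho (sprimes w z) (α i * x + β i) with hF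
    have hFs : ∀ T, ∑ x ∈ Finset.Ico (0 : ℤ) N, F T x ≤ N * ((1 + 3 * Cc) * (1 + E)) := by
      intro T
      have h := hCc Cc w z (sprimes w z) le_rfl (by omega) hz2 hS W r1 r2 σ y y'
        (db_unitA hS hW hσ) T 0 N (by positivity)
      have h1 := (abs_le.mp h).2
      have her : er Cc Cc w ≤ 2 := rc_er_le_two (by omega)
      have hzz : (z : ℝ) ^ (Cc + 4) ≤ N := by
        have : z ^ (Cc + 4) ≤ N := by rw [← hs]; exact hzs
        exact_mod_cast this
      rw [← hE] at h1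
      push_cast at h1
      have h2 : (N : ℝ) * (Cc * er Cc Cc w + Cc * E) ≤ N * (Cc * 2 + Cc * E) := by gcongr
      have h3 : (Cc : ℝ) * (z : ℝ) ^ (Cc + 4) ≤ Cc * N := by gcongr
      have h4 : ∑ x ∈ Finset.Ico (0 : ℤ) N, F T x ≤ N + N * (Cc * 2 + Cc * E) + Cc * N := by
        have h5 : ((N : ℝ) - 0) * (Cc * er Cc Cc w + Cc * E) = N * (Cc * er Cc Cc w + Cc * E) := by ring
        rw [h5] at h1
        simp only [hF]
        linarith
      refine h4.trans ?_
      have h6 : 0 ≤ (N : ℝ) * Cc * E := by positivity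
      have h7 : 0 ≤ (N : ℝ) * E := by positivity
      nlinarith
    -- the exceptional set
    set L : ℝ := (LL W N ^ 2 + 1) ^ 2 with hL
    have hL0 : 0 ≤ L := by positivity
    set Bd : Finset ℤ := Finset.univ.biUnion fun i : Fin 4 => bad N (β i) (α i) z with hBd
    have hα0 : ∀ i, α i ≠ 0 := by
      intro i
      have hWz : (W : ℤ) ≠ 0 := by exact_mod_cast hW0.ne'
      have hWs : (W : ℤ) * σ ≠ 0 := by
        rcases hσ with rfl | rfl
        · simpa using hWz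
        · simpa using hWz
      rw [hα]
      fin_cases i
      · exact hWz
      · exact hWs
      · exact hWz
      · exact hWs
    have hBc : (Bd.card : ℝ) ≤ 2 * (4 * Real.sqrt N + 2) := by
      have h1 : Bd.card ≤ ∑ i : Fin 4, (bad N (β i) (α i) z).card := Finset.card_biUnion_le
      have h2 : ∑ i : Fin 4, (bad N (β i) (α i) z).card ≤ ∑ i : Fin 4, (2 * z + 1) :=
        Finset.sum_le_sum fun i _ => card_bad (hα0 i) z
      rw [Finset.sum_const, Finset.card_univ, Fintype.card_fin, smul_eq_mul] at h2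
      have h3 : (Bd.card : ℝ) ≤ 4 * (2 * z + 1) := by exact_mod_cast h1.trans h2
      linarith
    have hpt : ∀ x ∈ Finset.Ico (0 : ℤ) N, |ker W r1 r2 σ x y * ker W r1 r2 σ x y'| ≤
        κ ^ 4 * (F ∅ x + F {0, 1} x + F {2, 3} x + F Finset.univ x) + (if x ∈ Bd then L else 0) := by
      intro x hx
      have hρ : ∀ i, 0 ≤ rho (sprimes w z) (α i * x + β i) := fun i => rho_nonneg hS.prime _
      have hF0 : ∀ T, 0 ≤ F T x := fun T => Finset.prod_nonneg fun i _ => hρ i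
      by_cases hxB : x ∈ Bd
      · rw [if_pos hxB, abs_mul]
        have h1 := ker_le hW0 (by omega : 0 < N) hr1 hr2 hσ hx hy
        have h2 := ker_le hW0 (by omega : 0 < N) hr1 hr2 hσ hx hy'
        have h3 : |ker W r1 r2 σ x y| * |ker W r1 r2 σ x y'| ≤ (LL W N ^ 2 + 1) * (LL W N ^ 2 + 1) :=
          mul_le_mul h1 h2 (abs_nonneg _) (by positivity)
        have h4 : 0 ≤ κ ^ 4 * (F ∅ x + F {0, 1} x + F {2, 3} x + F Finset.univ x) := by
          have := hF0 ∅
          have := hF0 {0, 1}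
          have := hF0 {2, 3}
          have := hF0 Finset.univ
          positivity
        rw [hL, sq]
        linarith
      · rw [if_neg hxB, add_zero, abs_mul]
        have hbad : ∀ i : Fin 4, (z : ℤ) < |β i + α i * x| := by
          intro i
          by_contra hcon
          apply hxB
          rw [hBd, Finset.mem_biUnion]
          exact ⟨i, Finset.mem_univ _, Finset.mem_filter.mpr ⟨hx, not_lt.mp hcon⟩⟩
        have k1 := db_ker hS.prime hκ1 hW0 hN1' hmaj hr1 hr2 hσ hx hy (hbad 0) (hbad 1)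
        have k2 := db_ker hS.prime hκ1 hW0 hN1' hmaj hr1 hr2 hσ hx hy' (hbad 2) (hbad 3)
        have e0 : F ∅ x = 1 := by simp [hF]
        have e1 : F {0, 1} x = rho (sprimes w z) (α 0 * x + β 0) * rho (sprimes w z) (α 1 * x + β 1) := by
          simp only [hF]
          rw [Finset.prod_pair (by decide)]
        have e2 : F {2, 3} x = rho (sprimes w z) (α 2 * x + β 2) * rho (sprimes w z) (α 3 * x + β 3) := by
          simp only [hF]
          rw [Finset.prod_pair (by decide)]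
        have e3 : F Finset.univ x = F {0, 1} x * F {2, 3} x := by
          rw [e1, e2]
          simp only [hF, Fin.prod_univ_four]
          ring
        have k1' : |ker W r1 r2 σ x y| ≤ κ ^ 2 * (1 + F {0, 1} x) := by rw [e1]; exact k1
        have k2' : |ker W r1 r2 σ x y'| ≤ κ ^ 2 * (1 + F {2, 3} x) := by rw [e2]; exact k2
        have h0 := hF0 {0, 1}
        have h0' := hF0 {2, 3}
        calc |ker W r1 r2 σ x y| * |ker W r1 r2 σ x y'|
            ≤ (κ ^ 2 * (1 + F {0, 1} x)) * (κ ^ 2 * (1 + F {2, 3} x)) :=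
              mul_le_mul k1' k2' (abs_nonneg _) (by positivity)
          _ = κ ^ 4 * (F ∅ x + F {0, 1} x + F {2, 3} x + F Finset.univ x) := by
              rw [e0, e3]; ring
    calc ∑ x ∈ Finset.Ico (0 : ℤ) N, |ker W r1 r2 σ x y * ker W r1 r2 σ x y'|
        ≤ ∑ x ∈ Finset.Ico (0 : ℤ) N, (κ ^ 4 * (F ∅ x + F {0, 1} x + F {2, 3} x + F Finset.univ x) +
          (if x ∈ Bd then L else 0)) := Finset.sum_le_sum hpt
      _ = κ ^ 4 * (∑ x ∈ Finset.Ico (0 : ℤ) N, F ∅ x + ∑ x ∈ Finset.Ico (0 : ℤ) N, F {0, 1} x +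
            ∑ x ∈ Finset.Ico (0 : ℤ) N, F {2, 3} x + ∑ x ∈ Finset.Ico (0 : ℤ) N, F Finset.univ x) +
          ∑ x ∈ Finset.Ico (0 : ℤ) N, (if x ∈ Bd then L else 0) := by
          rw [Finset.sum_add_distrib, ← Finset.mul_sum]
          simp only [Finset.sum_add_distrib]
      _ ≤ κ ^ 4 * (N * ((1 + 3 * Cc) * (1 + E)) + N * ((1 + 3 * Cc) * (1 + E)) +
            N * ((1 + 3 * Cc) * (1 + E)) + N * ((1 + 3 * Cc) * (1 + E))) + N := by
          apply add_le_add
          · apply mul_le_mul_of_nonneg_left _ (by positivity)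
            exact add_le_add (add_le_add (add_le_add (hFs _) (hFs _)) (hFs _)) (hFs _)
          · rw [← Finset.sum_filter, Finset.sum_const, nsmul_eq_mul]
            have h1 : (((Finset.Ico (0 : ℤ) N).filter (fun x => x ∈ Bd)).card : ℝ) ≤ Bd.card := by
              exact_mod_cast Finset.card_le_card (fun x hx => (Finset.mem_filter.mp hx).2)
            have h2 : (4 * Real.sqrt N + 2) * L * N ≤ 1 / 4 * N * N := by
              rw [hL]
              nlinarith [hrem]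
            have h3 : (4 * Real.sqrt N + 2) * L ≤ 1 / 4 * N :=
              le_of_mul_le_mul_right h2 (by linarith)
            calc (((Finset.Ico (0 : ℤ) N).filter (fun x => x ∈ Bd)).card : ℝ) * L
                ≤ (2 * (4 * Real.sqrt N + 2)) * L :=
                  mul_le_mul_of_nonneg_right (h1.trans hBc) hL0
              _ ≤ N := by nlinarith
      _ ≤ (4 * κ ^ 4 * (1 + 3 * Cc) + 1) * N * (1 + E) := by
          have : (N : ℝ) ≤ N * (1 + E) := by nlinarith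
          have e : (4 * κ ^ 4 * (1 + 3 * Cc) + 1) * N * (1 + E) =
            κ ^ 4 * (N * ((1 + 3 * Cc) * (1 + E)) + N * ((1 + 3 * Cc) * (1 + E)) +
            N * ((1 + 3 * Cc) * (1 + E)) + N * ((1 + 3 * Cc) * (1 + E))) + N * (1 + E) := by ring
          rw [e]
          linarith
  · refine (hCv w z W N (sprimes w z) (by omega) hS hW r1 r2 σ hσ).trans ?_
    have h1 := hw1 w (by omega)
    have h2 : Cv * z ≤ ε / 2 * N := by
      have h3 : 2 * Cv / ε ≤ Real.sqrt N := by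
        apply Real.le_sqrt_of_sq_le
        exact hN3.trans (by exact_mod_cast (by omega : N3 ≤ N))
      have h4 : Cv ≤ ε / 2 * Real.sqrt N := by
        rw [div_le_iff₀ hε] at h3
        linarith
      calc Cv * z ≤ (ε / 2 * Real.sqrt N) * Real.sqrt N := by
            apply mul_le_mul h4 hzq (by positivity) (by positivity)
        _ = ε / 2 * N := by rw [mul_assoc, hss]
    calc Cv * N * (N * (w : ℝ) ^ (-(3 / 4 : ℝ)) + z)
        = N * (N * (Cv * (w : ℝ) ^ (-(3 / 4 : ℝ))) + Cv * z) := by ring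
      _ ≤ N * (N * (ε / 2) + ε / 2 * N) := by gcongr
      _ = ε * N ^ 2 := by ring

end Pool.Agent.Lib.H18GB
end
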