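import Pool.Agent.Lib.H1M.RV.M020
import Pool.Agent.Lib.H1M.RV.M031
import Pool.Agent.Lib.H1M.RV.M092
import Pool.Agent.Lib.H1M.RV.M097

/-! Merged copies (to shorten the build) of Lib.H18GB.GR1, Lib.H18GB.GR2, Lib.H18GB.GRAux, Lib.H18GB2.Box. -/

-- from Lib.H18GB.GR1
section

/-!
# Project GB: GR1 (residue classes)

`Comp W x y`: `x + y` and `x - y` are coprime to `W`.
-/

namespace Pool.Agent.Lib.H18GB

open Finset Pool.Agent.Lib.Sieve

def Comp (W : ℕ) (x y : ℤ) : Prop := IsCoprime (x + y) (W : ℤ) ∧ IsCoprime (x - y) (W : ℤ)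

/-- coprimality with `W` is checked at the primes `p ≤ w` -/
theorem IsW.isCoprime {w W : ℕ} (hW : IsW w W) {a : ℤ}
    (h : ∀ p ∈ primesUpTo w, (a : ZMod p) ≠ 0) : IsCoprime a (W : ℤ) := by
  rw [Int.isCoprime_iff_gcd_eq_one]
  by_contra hne
  obtain ⟨p, hp, hpd⟩ := Nat.exists_prime_and_dvd hne
  have h1 : p ∣ a.natAbs := hpd.trans (Nat.gcd_dvd_left _ _)
  have h2 : p ∣ W := by
    have := hpd.trans (Nat.gcd_dvd_right a.natAbs (W : ℤ).natAbs)
    simpa using this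
  refine h p (mem_primesUpTo.mpr ⟨hp, (hW.2 p hp).mp h2⟩) ?_
  rw [ZMod.intCast_zmod_eq_zero_iff_dvd]
  exact Int.natCast_dvd.mpr h1

theorem IsW.not_zmod {w W : ℕ} (hW : IsW w W) {a : ℤ} (h : IsCoprime a (W : ℤ)) {p : ℕ}
    (hp : p.Prime) (hpw : p ≤ w) : ¬ (p : ℤ) ∣ a := by
  intro hd
  have h1 : (p : ℤ) ∣ (W : ℤ) := Int.natCast_dvd_natCast.mpr ((hW.2 p hp).mpr hpw)
  have h2 := h.isUnit_of_dvd' hd h1
  rw [Int.isUnit_iff] at h2
  have := hp.one_lt
  omega

/-- a natural number below `W` with prescribed residues -/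
theorem IsW.exists_res {w W : ℕ} (hW : IsW w W) (r : (p : ℕ) → ZMod p) :
    ∃ y : ℕ, y < W ∧ ∀ p ∈ primesUpTo w, ((y : ℤ) : ZMod p) = r p := by
  obtain ⟨c, hc⟩ := exists_crt (primesUpTo w) (fun p hp => (mem_primesUpTo.mp hp).1) r
  have hW0 : (0 : ℤ) < W := by exact_mod_cast hW.1
  refine ⟨(c % W).toNat, ?_, fun p hp => ?_⟩
  · have h1 := Int.emod_lt_of_pos c hW0
    have h2 := Int.emod_nonneg c hW0.ne'
    omega
  · rw [← hc p hp, Int.toNat_of_nonneg (Int.emod_nonneg c hW0.ne')]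
    rw [ZMod.intCast_eq_intCast_iff]
    have hp' := mem_primesUpTo.mp hp
    have h3 : (p : ℤ) ∣ (W : ℤ) := Int.natCast_dvd_natCast.mpr ((hW.2 p hp'.1).mpr hp'.2)
    exact (Int.mod_modEq c W).of_dvd h3

/-- Chunk GR1. Chinese remainder theorem: modulo `2` take the other parity, modulo `3` take `y = 1` if
`3 ∣ x0`, `y = 0` otherwise, modulo `p ≥ 5` avoid `± x0, ± x1`. -/
theorem comp_common {w W : ℕ} (hw : 3 ≤ w) (hW : IsW w W) (x0 x1 : ℤ) (h2 : x0 % 2 = x1 % 2)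
    (h3 : (3 : ℤ) ∣ x0 ↔ (3 : ℤ) ∣ x1) :
    ∃ y : ℕ, y < W ∧ Comp W x0 y ∧ Comp W x1 y := by
  have key : ∀ p : ℕ, ∃ r : ZMod p, p.Prime → ((x0 : ZMod p) + r ≠ 0 ∧ (x0 : ZMod p) - r ≠ 0) ∧
      ((x1 : ZMod p) + r ≠ 0 ∧ (x1 : ZMod p) - r ≠ 0) := by
    intro p
    by_cases hp : p.Prime
    swap
    · exact ⟨0, fun h => absurd h hp⟩
    have : Fact p.Prime := ⟨hp⟩
    have hcast : ∀ a : ℤ, (a : ZMod p) = 0 ↔ (p : ℤ) ∣ a := fun a =>
      ZMod.intCast_zmod_eq_zero_iff_dvd a p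
    by_cases hp2 : p = 2
    · subst hp2
      refine ⟨((x0 + 1 : ℤ) : ZMod 2), fun _ => ?_⟩
      refine ⟨⟨?_, ?_⟩, ?_, ?_⟩
      · rw [← Int.cast_add, Ne, hcast]; push_cast; omega
      · rw [← Int.cast_sub, Ne, hcast]; push_cast; omega
      · rw [← Int.cast_add, Ne, hcast]; push_cast; omega
      · rw [← Int.cast_sub, Ne, hcast]; push_cast; omega
    by_cases hp3 : p = 3
    · subst hp3
      by_cases hx : (3 : ℤ) ∣ x0
      · have hx1 := h3.mp hx
        refine ⟨((1 : ℤ) : ZMod 3), fun _ => ?_⟩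
        refine ⟨⟨?_, ?_⟩, ?_, ?_⟩
        · rw [← Int.cast_add, Ne, hcast]; push_cast; omega
        · rw [← Int.cast_sub, Ne, hcast]; push_cast; omega
        · rw [← Int.cast_add, Ne, hcast]; push_cast; omega
        · rw [← Int.cast_sub, Ne, hcast]; push_cast; omega
      · have hx1 := fun h => hx (h3.mpr h)
        refine ⟨((0 : ℤ) : ZMod 3), fun _ => ?_⟩
        refine ⟨⟨?_, ?_⟩, ?_, ?_⟩
        · rw [← Int.cast_add, Ne, hcast]; push_cast; omega
        · rw [← Int.cast_sub, Ne, hcast]; push_cast; omega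
        · rw [← Int.cast_add, Ne, hcast]; push_cast; omega
        · rw [← Int.cast_sub, Ne, hcast]; push_cast; omega
    · have hp5 : 4 < p := by
        have h1 := hp.two_le
        have h4 : p ≠ 4 := by
          rintro rfl
          exact absurd hp (by norm_num)
        omega
      classical
      set s : Finset (ZMod p) := {-(x0 : ZMod p), (x0 : ZMod p), -(x1 : ZMod p), (x1 : ZMod p)}
      have hs : s.card < Fintype.card (ZMod p) := by
        rw [ZMod.card]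
        exact lt_of_le_of_lt Finset.card_le_four hp5
      obtain ⟨r, hr⟩ : ∃ r, r ∉ s := by
        by_contra hall
        push Not at hall
        have : s = Finset.univ := Finset.eq_univ_iff_forall.mpr hall
        rw [this, Finset.card_univ] at hs
        exact lt_irrefl _ hs
      refine ⟨r, fun _ => ?_⟩
      simp only [s, Finset.mem_insert, Finset.mem_singleton, not_or] at hr
      obtain ⟨ha, hb, hc, hd⟩ := hr
      refine ⟨⟨?_, ?_⟩, ?_, ?_⟩
      · intro h; exact ha (eq_neg_of_add_eq_zero_right h)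
      · intro h; exact hb (sub_eq_zero.mp h).symm
      · intro h; exact hc (eq_neg_of_add_eq_zero_right h)
      · intro h; exact hd (sub_eq_zero.mp h).symm
  choose r hr using key
  obtain ⟨y, hy, hyr⟩ := hW.exists_res r
  refine ⟨y, hy, ⟨?_, ?_⟩, ?_, ?_⟩
  · refine hW.isCoprime fun p hp => ?_
    rw [Int.cast_add, hyr p hp]
    exact (hr p (mem_primesUpTo.mp hp).1).1.1
  · refine hW.isCoprime fun p hp => ?_
    rw [Int.cast_sub, hyr p hp]
    exact (hr p (mem_primesUpTo.mp hp).1).1.2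
  · refine hW.isCoprime fun p hp => ?_
    rw [Int.cast_add, hyr p hp]
    exact (hr p (mem_primesUpTo.mp hp).1).2.1
  · refine hW.isCoprime fun p hp => ?_
    rw [Int.cast_sub, hyr p hp]
    exact (hr p (mem_primesUpTo.mp hp).1).2.2

/-- Chunk GR1 -/
theorem comp_parity {w W : ℕ} (hw : 3 ≤ w) (hW : IsW w W) {x y : ℤ} (h : Comp W x y) :
    x % 2 ≠ y % 2 ∧ ((3 : ℤ) ∣ x ↔ ¬ (3 : ℤ) ∣ y) := by
  have h1 := hW.not_zmod h.1 Nat.prime_two (by omega)
  have h2 := hW.not_zmod h.1 Nat.prime_three (by omega)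
  have h3 := hW.not_zmod h.2 Nat.prime_three (by omega)
  push_cast at h1 h2 h3
  constructor
  · omega
  · have hx : x % 3 = 0 ∨ x % 3 = 1 ∨ x % 3 = 2 := by omega
    have hy : y % 3 = 0 ∨ y % 3 = 1 ∨ y % 3 = 2 := by omega
    rcases hx with hx | hx | hx <;> rcases hy with hy | hy | hy <;> omega

/-- Chunk GR1 -/
theorem comp_comm {W : ℕ} {x y : ℤ} (h : Comp W x y) : Comp W y x := by
  refine ⟨?_, ?_⟩
  · rw [add_comm]; exact h.1
  · have := h.2.neg_left
    rwa [neg_sub] at this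

/-- Chunk GR1. Take `v = 0 mod 5` (so that `v + 3 < W`), `v = 1` or `2 mod 3`, `2 v + 3 ≠ 0 mod p`. -/
theorem exists_link {w W : ℕ} (hw : 5 ≤ w) (hW : IsW w W) (i : ℤ) (hi : i = 0 ∨ i = 1) :
    ∃ v : ℕ, v + 3 < W ∧ (v : ℤ) % 2 = i ∧ ¬ (3 : ℤ) ∣ (v : ℤ) ∧ IsCoprime (2 * (v : ℤ) + 3) W := by
  obtain ⟨v, hv, hvr⟩ := hW.exists_res (fun p => if p = 2 then (i : ZMod p) else
    if p = 3 then ((1 : ℤ) : ZMod p) else ((0 : ℤ) : ZMod p))
  have h2 := hvr 2 (mem_primesUpTo.mpr ⟨Nat.prime_two, by omega⟩)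
  have h3 := hvr 3 (mem_primesUpTo.mpr ⟨Nat.prime_three, by omega⟩)
  have h5 := hvr 5 (mem_primesUpTo.mpr ⟨Nat.prime_five, by omega⟩)
  simp only [if_true] at h2
  simp only [show ¬ (3 = 2) by norm_num, if_true, if_false] at h3
  simp only [show ¬ (5 = 2) by norm_num, show ¬ (5 = 3) by norm_num, if_false] at h5
  rw [ZMod.intCast_eq_intCast_iff] at h2 h3 h5
  have h2' : (v : ℤ) % 2 = i % 2 := h2
  have h3' : (v : ℤ) % 3 = 1 % 3 := h3
  have h5' : (v : ℤ) % 5 = 0 % 5 := h5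
  have hW5 : 5 ∣ W := (hW.2 5 Nat.prime_five).mpr (by omega)
  refine ⟨v, by omega, by omega, by omega, ?_⟩
  refine hW.isCoprime fun p hp => ?_
  have hp' := mem_primesUpTo.mp hp
  rw [Ne, ZMod.intCast_zmod_eq_zero_iff_dvd]
  by_cases hp2 : p = 2
  · subst hp2; push_cast; omega
  by_cases hp3 : p = 3
  · subst hp3; push_cast; omega
  intro hd
  have h0 := hvr p hp
  simp only [hp2, hp3, if_false, Int.cast_zero] at h0
  rw [ZMod.intCast_zmod_eq_zero_iff_dvd] at h0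
  have h6 : (p : ℤ) ∣ 3 := by
    have := dvd_sub hd (h0.mul_left 2)
    rwa [add_sub_cancel_left] at this
  have h7 : p ∣ 3 := by exact_mod_cast h6
  exact hp3 ((Nat.prime_dvd_prime_iff_eq hp'.1 Nat.prime_three).mp h7)

end Pool.Agent.Lib.H18GB
end

-- from Lib.H18GB.GR2
section

/-!
# Project GB: GR2

Vertices are halved: `X` stands for the vertex `2 X`; `hadj X Y`: `X + Y`, `|X - Y|` odd primes.
-/

namespace Pool.Agent.Lib.H18GB

open Finset Pool.Agent.Lib.Sieve Pool.Agent.Lib.GoldbachGraph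

/-- `∏_{p ∣ x, p > 2} (p - 1) / (p - 2)` -/
noncomputable def SH (x : ℕ) : ℝ :=
  ∏ p ∈ x.primeFactors.filter (fun p => 2 < p), (((p : ℝ) - 1) / (p - 2))

/-- normalised weight of the neighbours of `X` in the class `y0` mod `W` -/
noncomputable def Dw (w W N X y0 : ℕ) : ℝ :=
  ∑ y ∈ Finset.range N, lamv W (X + y0 + W * y) * lamv W (X - y0 - W * y) / SW w (2 * X)

/-! ### Residue classes modulo a squarefree number -/

theorem gr2_card_crt (S : Finset ℕ) (hS : ∀ p ∈ S, p.Prime) (Bad : ℕ → Finset ℕ)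
    (hB : ∀ p, Bad p ⊆ range p) :
    ((range (∏ p ∈ S, p)).filter (fun y => ∀ p ∈ S, y % p ∉ Bad p)).card ≤ ∏ p ∈ S, (p - (Bad p).card) := by
  classical
  induction S using Finset.induction_on with
  | empty => simp
  | @insert q S hq ih =>
    have ih' := ih (fun p hp => hS p (mem_insert_of_mem hp))
    have hqp : q.Prime := hS q (mem_insert_self _ _)
    have hcop : Nat.Coprime q (∏ p ∈ S, p) := by
      apply Nat.Coprime.prod_right
      intro p hp
      exact (Nat.coprime_primes hqp (hS p (mem_insert_of_mem hp))).2 (fun h => hq (h ▸ hp))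
    rw [prod_insert hq, prod_insert hq]
    have h1 : ((range (q * ∏ p ∈ S, p)).filter (fun y => ∀ p ∈ insert q S, y % p ∉ Bad p)).card ≤
        (((range q) \ Bad q) ×ˢ ((range (∏ p ∈ S, p)).filter (fun y => ∀ p ∈ S, y % p ∉ Bad p))).card := by
      apply card_le_card_of_injOn (fun y => (y % q, y % (∏ p ∈ S, p)))
      · intro y hy
        rw [mem_coe, mem_filter, mem_range] at hy
        rw [mem_coe, mem_product, mem_sdiff, mem_filter, mem_range, mem_range]
        have hpos : 0 < ∏ p ∈ S, p := prod_pos (fun p hp => (hS p (mem_insert_of_mem hp)).pos)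
        refine ⟨⟨Nat.mod_lt _ hqp.pos, hy.2 q (mem_insert_self _ _)⟩, Nat.mod_lt _ hpos, ?_⟩
        intro p hp
        rw [Nat.mod_mod_of_dvd _ (dvd_prod_of_mem _ hp)]
        exact hy.2 p (mem_insert_of_mem hp)
      · intro y hy y' hy' h
        rw [mem_coe, mem_filter, mem_range] at hy hy'
        simp only [Prod.mk.injEq] at h
        have h2 : y ≡ y' [MOD q * ∏ p ∈ S, p] := (Nat.modEq_and_modEq_iff_modEq_mul hcop).1 ⟨h.1, h.2⟩
        exact Nat.ModEq.eq_of_lt_of_lt h2 hy.1 hy'.1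
    refine le_trans h1 ?_
    rw [card_product, card_sdiff_of_subset (hB q), card_range]
    exact Nat.mul_le_mul_left _ ih'

/-- the residues `y` with `y = ± X` mod `p` -/
def gr2Bad (X p : ℕ) : Finset ℕ := (range p).filter (fun y => p ∣ X + y ∨ (p : ℤ) ∣ (X : ℤ) - y)

theorem gr2_bad_one (X p : ℕ) (hp : p.Prime) : 1 ≤ (gr2Bad X p).card := by
  rw [Nat.one_le_iff_ne_zero, ← Nat.pos_iff_ne_zero, card_pos]
  refine ⟨X % p, ?_⟩
  unfold gr2Bad
  rw [mem_filter, mem_range]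
  refine ⟨Nat.mod_lt _ hp.pos, Or.inr ?_⟩
  rw [Int.natCast_mod]
  exact Int.dvd_self_sub_emod

theorem gr2_bad_two (X p : ℕ) (hp : p.Prime) (h : ¬ p ∣ 2 * X) : 2 ≤ (gr2Bad X p).card := by
  have hne : X % p ≠ (p - X % p) := by
    intro he
    apply h
    have h1 : X % p < p := Nat.mod_lt _ hp.pos
    have h2 : 2 * (X % p) = p := by omega
    have h3 : X = p * (X / p) + X % p := (Nat.div_add_mod X p).symm
    rw [h3, mul_add, h2]
    exact dvd_add ⟨2 * (X / p), by ring⟩ dvd_rfl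
  have hX : X % p ≠ 0 := by
    intro h0
    exact h (dvd_mul_of_dvd_right (Nat.dvd_of_mod_eq_zero h0) 2)
  have hsub : ({X % p, p - X % p} : Finset ℕ) ⊆ gr2Bad X p := by
    intro y hy
    rw [mem_insert, mem_singleton] at hy
    unfold gr2Bad
    rw [mem_filter, mem_range]
    have h1 : X % p < p := Nat.mod_lt _ hp.pos
    rcases hy with rfl | rfl
    · refine ⟨h1, Or.inr ?_⟩
      rw [Int.natCast_mod]
      exact Int.dvd_self_sub_emod
    · refine ⟨by omega, Or.inl ?_⟩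
      refine ⟨X / p + 1, ?_⟩
      have h3 : p * (X / p) + X % p = X := Nat.div_add_mod X p
      rw [mul_add, mul_one]
      omega
  calc 2 = ({X % p, p - X % p} : Finset ℕ).card := (card_pair hne).symm
    _ ≤ _ := card_le_card hsub

open Classical in
/-- the number of admissible classes -/
theorem gr2_card_comp (w X : ℕ) :
    ((range (primorial w)).filter (fun y : ℕ => Comp (primorial w) X y)).card ≤
      ∏ p ∈ (range (w + 1)).filter Nat.Prime, (p - (if p ∣ 2 * X then 1 else 2)) := by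
  classical
  have hpr : ∀ p ∈ (range (w + 1)).filter Nat.Prime, p.Prime := fun p hp => (mem_filter.1 hp).2
  have h1 := gr2_card_crt ((range (w + 1)).filter Nat.Prime) hpr (gr2Bad X) (fun p => filter_subset _ _)
  refine le_trans ?_ (le_trans h1 ?_)
  · apply card_le_card
    intro y hy
    rw [mem_filter] at hy ⊢
    refine ⟨hy.1, fun p hp hb => ?_⟩
    unfold gr2Bad at hb
    rw [mem_filter] at hb
    have hpW : (p : ℤ) ∣ (primorial w : ℤ) := by
      apply Int.natCast_dvd_natCast.2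
      exact dvd_prod_of_mem _ hp
    have hp1 : ¬ IsUnit (p : ℤ) := by
      rw [Int.isUnit_iff_natAbs_eq, Int.natAbs_natCast]
      exact (hpr p hp).one_lt.ne'
    have hmod : (p : ℤ) ∣ (y : ℤ) - ((y % p : ℕ) : ℤ) := by
      rw [Int.natCast_mod]
      exact Int.dvd_self_sub_emod
    rcases hb.2 with h2 | h2
    · have h3 : (p : ℤ) ∣ (X : ℤ) + y := by
        have h4 : (p : ℤ) ∣ ((X + y % p : ℕ) : ℤ) := Int.natCast_dvd_natCast.2 h2
        have h5 : (X : ℤ) + y = ((X + y % p : ℕ) : ℤ) + ((y : ℤ) - ((y % p : ℕ) : ℤ)) := by push_cast; ring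
        rw [h5]
        exact dvd_add h4 hmod
      exact hp1 (hy.2.1.isUnit_of_dvd' h3 hpW)
    · have h3 : (p : ℤ) ∣ (X : ℤ) - y := by
        have h5 : (X : ℤ) - y = ((X : ℤ) - ((y % p : ℕ) : ℤ)) - ((y : ℤ) - ((y % p : ℕ) : ℤ)) := by ring
        rw [h5]
        exact dvd_sub h2 hmod
      exact hp1 (hy.2.2.isUnit_of_dvd' h3 hpW)
  · apply prod_le_prod'
    intro p hp
    apply Nat.sub_le_sub_left
    split_ifs with h
    · exact gr2_bad_one X p (hpr p hp)
    · exact gr2_bad_two X p (hpr p hp) h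

/-! ### Products -/

theorem gr2_phi (w : ℕ) : ((Nat.totient (primorial w) : ℕ) : ℝ) =
    (primorial w : ℝ) * ∏ p ∈ (range (w + 1)).filter Nat.Prime, (1 - 1 / (p : ℝ)) := by
  have h := Nat.totient_eq_mul_prod_factors (primorial w)
  have h2 : (primorial w).primeFactors = (range (w + 1)).filter Nat.Prime := by
    rw [primeFactors_primorial]; rfl
  rw [h2] at h
  have h3 : ((Nat.totient (primorial w) : ℚ) : ℝ) =
    (((primorial w : ℚ) * ∏ p ∈ (range (w + 1)).filter Nat.Prime, (1 - (p : ℚ)⁻¹) : ℚ) : ℝ) := by rw [h]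
  push_cast at h3
  rw [h3]
  simp only [one_div]

theorem gr2_factor {p : ℝ} (hp : 3 ≤ p) : 1 ≤ (p - 1) / (p - 2) ∧ p / (p - 1) ≤ (p - 1) / (p - 2) := by
  constructor
  · rw [le_div_iff₀ (by linarith)]; linarith
  · rw [div_le_div_iff₀ (by linarith) (by linarith)]
    nlinarith

theorem SH_ge_one (X : ℕ) : 1 ≤ SH X := by
  unfold SH
  have : ∏ p ∈ X.primeFactors.filter (fun p => 2 < p), (1 : ℝ) ≤
      ∏ p ∈ X.primeFactors.filter (fun p => 2 < p), (((p : ℝ) - 1) / (p - 2)) := by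
    apply prod_le_prod
    · intro _ _; norm_num
    · intro p hp
      have h3 : 2 < p := (mem_filter.1 hp).2
      exact (gr2_factor (by exact_mod_cast h3)).1
  simpa using this

theorem SW_pos (w : ℕ) (d : ℤ) : 0 < SW w d := by
  unfold SW
  apply prod_pos
  intro p hp
  have h1 : 1 < p := (Nat.prime_of_mem_primeFactors (mem_filter.1 hp).1).one_lt
  have h2 : (1 : ℝ) < p := by exact_mod_cast h1
  rw [inv_pos, sub_pos, div_lt_one (by linarith)]
  exact h2

open Classical in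
/-- the singular factors compared -/
theorem gr2_singular (w : ℕ) (hw : 3 ≤ w) (X : ℕ) (hX : 1 ≤ X) :
    (((range (primorial w)).filter (fun y : ℕ => Comp (primorial w) X y)).card : ℝ) * SW w (2 * X) ≤
      2 * SH X * ((Nat.totient (primorial w) : ℝ) ^ 2 / primorial w) := by
  classical
  set A := (range (w + 1)).filter Nat.Prime with hA
  have hpr : ∀ p ∈ A, p.Prime := fun p hp => (mem_filter.1 hp).2
  have hX0 : X ≠ 0 := by omega
  -- split `SH`
  have hSH : SH X = (∏ p ∈ A, (if p ∣ X ∧ 2 < p then (((p : ℝ) - 1) / (p - 2)) else 1)) *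
      ∏ p ∈ X.primeFactors.filter (fun p => w < p), (((p : ℝ) - 1) / (p - 2)) := by
    unfold SH
    have h1 : X.primeFactors.filter (fun p => 2 < p) =
        (A.filter (fun p => p ∣ X ∧ 2 < p)) ∪ X.primeFactors.filter (fun p => w < p) := by
      ext p
      simp only [hA, mem_union, mem_filter, mem_range, Nat.mem_primeFactors]
      constructor
      · rintro ⟨⟨h1, h2, h3⟩, h4⟩
        by_cases h5 : w < p
        · exact Or.inr ⟨⟨h1, h2, h3⟩, h5⟩
        · exact Or.inl ⟨⟨by omega, h1⟩, h2, h4⟩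
      · rintro (⟨⟨h1, h2⟩, h3, h4⟩ | ⟨⟨h1, h2, h3⟩, h4⟩)
        · exact ⟨⟨h2, h3, hX0⟩, h4⟩
        · exact ⟨⟨h1, h2, h3⟩, by omega⟩
    have h2 : Disjoint (A.filter (fun p => p ∣ X ∧ 2 < p)) (X.primeFactors.filter (fun p => w < p)) := by
      rw [disjoint_left]
      intro p hp hp'
      simp only [hA, mem_filter, mem_range] at hp hp'
      omega
    rw [h1, prod_union h2, prod_filter]
  have hSW : SW w (2 * X) ≤ ∏ p ∈ X.primeFactors.filter (fun p => w < p), (((p : ℝ) - 1) / (p - 2)) := by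
    unfold SW
    have h1 : ((2 * X : ℤ)).natAbs.primeFactors.filter (fun p => w < p) = X.primeFactors.filter (fun p => w < p) := by
      have : ((2 * X : ℤ)).natAbs = 2 * X := by
        have : (2 * X : ℤ) = ((2 * X : ℕ) : ℤ) := by push_cast; ring
        rw [this, Int.natAbs_natCast]
      rw [this]
      ext p
      simp only [mem_filter, Nat.mem_primeFactors]
      constructor
      · rintro ⟨⟨h1, h2, h3⟩, h4⟩
        refine ⟨⟨h1, ?_, hX0⟩, h4⟩
        rcases (h1.dvd_mul).1 h2 with h5 | h5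
        · have := Nat.le_of_dvd (by norm_num) h5
          omega
        · exact h5
      · rintro ⟨⟨h1, h2, h3⟩, h4⟩
        exact ⟨⟨h1, dvd_mul_of_dvd_right h2 2, by omega⟩, h4⟩
    rw [h1]
    apply prod_le_prod
    · intro p hp
      have h3 : w < p := (mem_filter.1 hp).2
      have h4 : (3 : ℝ) < p := by exact_mod_cast (by omega : 3 < p)
      rw [inv_nonneg, sub_nonneg, div_le_one (by linarith)]
      linarith
    · intro p hp
      have h3 : w < p := (mem_filter.1 hp).2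
      have h4 : (3 : ℝ) < p := by exact_mod_cast (by omega : 3 < p)
      have h5 : (1 - 1 / (p : ℝ))⁻¹ = p / (p - 1) := by
        have : (p : ℝ) ≠ 0 := by positivity
        have : (p : ℝ) - 1 ≠ 0 := by linarith
        field_simp
      rw [h5]
      exact (gr2_factor h4.le).2
  have hphi : (Nat.totient (primorial w) : ℝ) ^ 2 / primorial w = ∏ p ∈ A, (((p : ℝ) - 1) ^ 2 / p) := by
    rw [gr2_phi, ← hA]
    have hW : (primorial w : ℝ) = ∏ p ∈ A, (p : ℝ) := by
      unfold primorial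
      rw [← hA]
      push_cast
      rfl
    have hWpos : (0 : ℝ) < ∏ p ∈ A, (p : ℝ) := prod_pos (fun p hp => by exact_mod_cast (hpr p hp).pos)
    rw [hW, mul_pow]
    have e1 : (∏ p ∈ A, (p : ℝ)) ^ 2 * (∏ p ∈ A, (1 - 1 / (p : ℝ))) ^ 2 / ∏ p ∈ A, (p : ℝ) =
        (∏ p ∈ A, (p : ℝ)) * (∏ p ∈ A, (1 - 1 / (p : ℝ))) ^ 2 := by
      field_simp
    rw [e1, ← prod_pow, ← prod_mul_distrib]
    apply prod_congr rfl
    intro p hp
    have : (p : ℝ) ≠ 0 := by exact_mod_cast (hpr p hp).ne_zero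
    field_simp
  have h2A : 2 ∈ A := by
    rw [hA, mem_filter, mem_range]
    exact ⟨by omega, Nat.prime_two⟩
  -- the small primes
  have hsmall : (((range (primorial w)).filter (fun y : ℕ => Comp (primorial w) X y)).card : ℝ) ≤
      2 * (∏ p ∈ A, (((p : ℝ) - 1) ^ 2 / p)) *
        ∏ p ∈ A, (if p ∣ X ∧ 2 < p then (((p : ℝ) - 1) / (p - 2)) else 1) := by
    have h1 : (((range (primorial w)).filter (fun y : ℕ => Comp (primorial w) X y)).card : ℝ) ≤
        ∏ p ∈ A, ((p : ℝ) - (if p ∣ 2 * X then 1 else 2)) := by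
      have h2 := gr2_card_comp w X
      rw [← hA] at h2
      calc (((range (primorial w)).filter (fun y : ℕ => Comp (primorial w) X y)).card : ℝ)
          ≤ ((∏ p ∈ A, (p - (if p ∣ 2 * X then 1 else 2)) : ℕ) : ℝ) := by exact_mod_cast h2
        _ = ∏ p ∈ A, ((p : ℝ) - (if p ∣ 2 * X then 1 else 2)) := by
            rw [Nat.cast_prod]
            apply prod_congr rfl
            intro p hp
            have hp2 := (hpr p hp).two_le
            rw [Nat.cast_sub (by split_ifs <;> omega)]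
            split_ifs <;> push_cast <;> ring
    refine le_trans h1 ?_
    have h3 : (2 : ℝ) = ∏ p ∈ A, (if p = 2 then (2 : ℝ) else 1) := by
      rw [prod_ite_eq_of_mem' A 2 (fun _ => (2 : ℝ)) h2A]
    rw [h3, ← prod_mul_distrib, ← prod_mul_distrib]
    apply prod_le_prod
    · intro p hp
      have hp2 : (2 : ℝ) ≤ p := by exact_mod_cast (hpr p hp).two_le
      split_ifs <;> linarith
    · intro p hp
      by_cases h2 : p = 2
      · subst h2
        rw [if_pos (dvd_mul_right 2 X), if_pos rfl, if_neg (by omega)]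
        norm_num
      · have hp3 : 3 ≤ p := by
          have := (hpr p hp).two_le
          omega
        have hp3' : (3 : ℝ) ≤ p := by exact_mod_cast hp3
        rw [if_neg h2, one_mul]
        by_cases h4 : p ∣ X
        · rw [if_pos (dvd_mul_of_dvd_right h4 2), if_pos ⟨h4, by omega⟩]
          rw [div_mul_div_comm, le_div_iff₀ (by nlinarith)]
          nlinarith [mul_nonneg (show (0 : ℝ) ≤ p - 1 by linarith) (show (0 : ℝ) ≤ p - 2 by linarith)]
        · have h5 : ¬ p ∣ 2 * X := by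
            intro h6
            rcases ((hpr p hp).dvd_mul).1 h6 with h7 | h7
            · have := Nat.le_of_dvd (by norm_num) h7
              omega
            · exact h4 h7
          rw [if_neg h5, if_neg (fun h => h4 h.1), mul_one, le_div_iff₀ (by linarith)]
          nlinarith
  have hSW0 := (SW_pos w (2 * X)).le
  rw [hphi, hSH]
  have hb0 : 0 ≤ 2 * (∏ p ∈ A, (((p : ℝ) - 1) ^ 2 / p)) *
        ∏ p ∈ A, (if p ∣ X ∧ 2 < p then (((p : ℝ) - 1) / (p - 2)) else 1) := le_trans (by positivity) hsmall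
  calc (((range (primorial w)).filter (fun y : ℕ => Comp (primorial w) X y)).card : ℝ) * SW w (2 * X)
      ≤ (2 * (∏ p ∈ A, (((p : ℝ) - 1) ^ 2 / p)) *
        ∏ p ∈ A, (if p ∣ X ∧ 2 < p then (((p : ℝ) - 1) / (p - 2)) else 1)) *
        ∏ p ∈ X.primeFactors.filter (fun p => w < p), (((p : ℝ) - 1) / (p - 2)) :=
        mul_le_mul hsmall hSW hSW0 hb0
    _ = _ := by ring

theorem gr2_lamv_nonneg (W : ℕ) (v : ℤ) : 0 ≤ lamv W v := by
  unfold lamv
  split_ifs with h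
  · have : 0 ≤ Real.log (v.natAbs : ℝ) := Real.log_natCast_nonneg _
    positivity
  · exact le_rfl

/-- asymptotics -/
theorem gr2_asym (W : ℕ) (ε : ℝ) (hε : 0 < ε) : ∃ n0 : ℕ, ∀ n : ℕ, n0 ≤ n →
    ((W : ℝ) + 2 * Real.sqrt n + 1) ≤ ε / 5 * (n / Real.log n ^ 2) ∧ W ≤ Nat.sqrt n ∧ 3 ≤ n := by
  obtain ⟨n1, hn1⟩ := exists_nat_gt ((320 * ((W : ℝ) + 3) / ε) ^ 4)
  refine ⟨n1 + W ^ 2 + 3, fun n hn => ⟨?_, ?_, by omega⟩⟩
  · have hn3 : (3 : ℝ) ≤ n := by exact_mod_cast (by omega : 3 ≤ n)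
    have hn0 : (0 : ℝ) < n := by linarith
    have hlog : 0 < Real.log n := Real.log_pos (by linarith)
    set x : ℝ := (n : ℝ) ^ (1 / 8 : ℝ) with hx
    have hx0 : 0 < x := Real.rpow_pos_of_pos hn0 _
    have hx8 : x ^ 8 = n := by
      rw [hx, ← Real.rpow_natCast, ← Real.rpow_mul hn0.le]; norm_num
    have hl : Real.log n ≤ 8 * x := by
      have := Real.log_le_rpow_div hn0.le (show (0 : ℝ) < 1 / 8 by norm_num)
      rw [← hx] at this
      linarith
    have hsq : Real.sqrt n = x ^ 4 := by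
      rw [← hx8, show x ^ 8 = (x ^ 4) ^ 2 by ring, Real.sqrt_sq (by positivity)]
    have hx1 : 1 ≤ x := by
      by_contra hcon
      push Not at hcon
      have : x ^ 8 < 1 := pow_lt_one₀ hx0.le hcon (by norm_num)
      linarith
    have hbig : 320 * ((W : ℝ) + 3) / ε ≤ x ^ 2 := by
      have h1 : (320 * ((W : ℝ) + 3) / ε) ^ 4 ≤ (x ^ 2) ^ 4 := by
        have h2 : (x ^ 2) ^ 4 = n := by rw [← hx8]; ring
        rw [h2]
        have h3 : (n1 : ℝ) ≤ n := by exact_mod_cast (by nlinarith : n1 ≤ n)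
        linarith
      exact le_of_pow_le_pow_left₀ (by norm_num) (by positivity) h1
    rw [div_le_iff₀ hε] at hbig
    rw [hsq]
    have h5 : ε / 5 * (n / (8 * x) ^ 2) ≤ ε / 5 * (n / Real.log n ^ 2) := by
      gcongr
    refine le_trans ?_ h5
    have h6 : (n : ℝ) / (8 * x) ^ 2 = x ^ 6 / 64 := by
      rw [← hx8]; field_simp; norm_num
    rw [h6]
    have h7 : (1 : ℝ) ≤ x ^ 4 := one_le_pow₀ hx1
    have hW0 : (0 : ℝ) ≤ W := Nat.cast_nonneg W
    have h8 : (W : ℝ) + 2 * x ^ 4 + 1 ≤ ((W : ℝ) + 3) * x ^ 4 := by nlinarith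
    have h9 : ((W : ℝ) + 3) * x ^ 4 ≤ (x ^ 2 * ε / 320) * x ^ 4 := by
      apply mul_le_mul_of_nonneg_right _ (by positivity)
      linarith
    calc (W : ℝ) + 2 * x ^ 4 + 1 ≤ (x ^ 2 * ε / 320) * x ^ 4 := le_trans h8 h9
      _ = ε / 5 * (x ^ 6 / 64) := by ring
  · rw [Nat.le_sqrt]
    nlinarith

/-- Chunk GR2 (from large degree to a class with many neighbours). `W = ∏_{p ≤ w} p`,
`N = n / W`. The `Y ∈ [1,n]` adjacent to `X` with `Y < W N`, `|X - Y| ≥ √n` (all but `W + 2√n` of the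
neighbours) lie in classes `y0` with `Comp W X y0`, and
`lamv lamv ≥ (φ(W)/W)^2 (log n)^2 / 4`. The number of classes `y0` is `∏_{p ≤ w} (p - ν_p)`,
`ν_p = 1` if `p ∣ 2 X`, `2` otherwise. So for some `y0`,
`Dw ≥ (ε/5) N [SH X / SW w (2X)] ∏_{p ≤ w} (1 - 1/p)^2 / (1 - ν_p/p) ≥ (ε/10) N`
(for `p ∣ X` odd, `p ≤ w`: `(p-1)/(p-2) (1 - 1/p) ≥ 1`; for `p ∣ X`, `p > w`:
`(p-1)/(p-2) ≥ (1 - 1/p)^(-1)`; for `p = 2` the factor is `1/2`; the others are `≥ 1`). -/
theorem gr2 (ε : ℝ) (hε : 0 < ε) (w : ℕ) (hw : 3 ≤ w) : ∃ n0 : ℕ, ∀ n : ℕ, n0 ≤ n →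
    ∀ X ∈ Finset.Icc 1 n, ε * SH X * n / Real.log n ^ 2 ≤ hdeg n X →
    ∃ y0 : ℕ, y0 < primorial w ∧ Comp (primorial w) X y0 ∧
      ε / 20 * (n / primorial w : ℕ) ≤ Dw w (primorial w) (n / primorial w) X y0 := by
  classical
  set W := primorial w with hW
  have hWpos : 0 < W := primorial_pos w
  obtain ⟨n0, hn0⟩ := gr2_asym W ε hε
  refine ⟨n0, fun n hn X hX hdeg => ?_⟩
  obtain ⟨hasy, hWs, hn3⟩ := hn0 n hn
  rw [mem_Icc] at hX
  set N := n / W with hN
  have hWr : (0 : ℝ) < W := by exact_mod_cast hWpos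
  have hn3r : (3 : ℝ) ≤ n := by exact_mod_cast hn3
  have hlog : 0 < Real.log n := Real.log_pos (by linarith)
  have hSH1 := SH_ge_one X
  have hWn : W ≤ n := le_trans hWs (Nat.sqrt_le_self n)
  have hNpos : 0 < N := Nat.div_pos hWn hWpos
  have hNr : (0 : ℝ) < N := by exact_mod_cast hNpos
  have hNW : (N : ℝ) * W ≤ n := by exact_mod_cast Nat.div_mul_le_self n W
  by_contra hcon
  push Not at hcon
  -- the neighbours kept
  set U := (Finset.Icc 1 n).filter (fun u => hadj X u) with hU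
  set U' := U.filter (fun u => u < W * N ∧ Nat.sqrt n < Nat.dist X u) with hU'
  have hUc : (U.card : ℝ) ≤ U'.card + (W + 2 * Real.sqrt n + 1) := by
    have h1 : U ⊆ U' ∪ (Finset.Icc (W * N) n ∪ Finset.Icc (X - Nat.sqrt n) (X + Nat.sqrt n)) := by
      intro u hu
      rw [mem_union, mem_union, hU', mem_filter, mem_Icc, mem_Icc]
      by_cases h2 : u < W * N ∧ Nat.sqrt n < Nat.dist X u
      · exact Or.inl ⟨hu, h2⟩
      · right
        rw [hU, mem_filter, mem_Icc] at hu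
        rw [not_and_or, not_lt, not_lt] at h2
        rcases h2 with h2 | h2
        · left; exact ⟨h2, hu.1.2⟩
        · right
          unfold Nat.dist at h2
          omega
    have h2 := (card_le_card h1).trans ((card_union_le _ _).trans (Nat.add_le_add_left (card_union_le _ _) _))
    rw [Nat.card_Icc, Nat.card_Icc] at h2
    have h3 : n + 1 - W * N ≤ W := by
      have h4 := Nat.div_add_mod n W
      have h5 := Nat.mod_lt n hWpos
      rw [← hN] at h4
      omega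
    have h4 : X + Nat.sqrt n + 1 - (X - Nat.sqrt n) ≤ 2 * Nat.sqrt n + 1 := by omega
    have h5 : U.card ≤ U'.card + (W + (2 * Nat.sqrt n + 1)) := by omega
    have h6 : (Nat.sqrt n : ℝ) ≤ Real.sqrt n := Real.nat_sqrt_le_real_sqrt
    have h7 : (U.card : ℝ) ≤ U'.card + (W + (2 * Nat.sqrt n + 1)) := by exact_mod_cast h5
    linarith
  have hU'c : 4 / 5 * ε * SH X * (n / Real.log n ^ 2) ≤ (U'.card : ℝ) := by
    have h1 : ε * SH X * n / Real.log n ^ 2 ≤ (U.card : ℝ) := hdeg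
    have h2 : ε * SH X * n / Real.log n ^ 2 = ε * SH X * (n / Real.log n ^ 2) := by ring
    rw [h2] at h1
    have h3 : 0 ≤ (n : ℝ) / Real.log n ^ 2 := by positivity
    have h4 : ε / 5 * (n / Real.log n ^ 2) ≤ ε / 5 * SH X * (n / Real.log n ^ 2) := by
      have : 0 ≤ ε / 5 * (n / Real.log n ^ 2) := by positivity
      nlinarith
    nlinarith
  -- the weights
  set T : ℕ → ℕ → ℝ := fun y0 y => lamv W (X + y0 + W * y) * lamv W (X - y0 - W * y) with hT
  have hT0 : ∀ y0 y, 0 ≤ T y0 y := fun y0 y => mul_nonneg (gr2_lamv_nonneg _ _) (gr2_lamv_nonneg _ _)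
  set Cls := (range W).filter (fun y : ℕ => Comp W X y) with hCls
  set c : ℝ := ((Nat.totient W : ℝ) / W) ^ 2 * (Real.log n ^ 2 / 4) with hc
  have hU'm : ∀ u ∈ U', u % W ∈ Cls ∧ u / W < N ∧ c ≤ T (u % W) (u / W) := by
    intro u hu
    rw [hU', mem_filter, hU, mem_filter, mem_Icc] at hu
    obtain ⟨⟨⟨hu1, hun⟩, hadj1⟩, huN, hdist⟩ := hu
    obtain ⟨hp1, -, hp2, -⟩ := hadj1
    have hmod : (u : ℤ) = ((u % W : ℕ) : ℤ) + W * ((u / W : ℕ) : ℤ) := by
      have := Nat.mod_add_div u W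
      exact_mod_cast this.symm
    have hdle : Nat.dist X u ≤ X + u := by unfold Nat.dist; omega
    have hcopr : ∀ v : ℕ, v.Prime → Nat.sqrt n < v → IsCoprime (v : ℤ) (W : ℤ) := by
      intro v hv hvn
      rw [Nat.isCoprime_iff_coprime]
      rw [hv.coprime_iff_not_dvd]
      intro h
      have := Nat.le_of_dvd hWpos h
      omega
    have hc1 := hcopr _ hp1 (lt_of_lt_of_le hdist hdle)
    have hc2 := hcopr _ hp2 hdist
    have habs : (((X : ℤ) - u).natAbs) = Nat.dist X u := by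
      unfold Nat.dist; omega
    have hc2' : IsCoprime ((X : ℤ) - u) (W : ℤ) := by
      rw [← habs] at hc2
      rcases Int.natAbs_eq ((X : ℤ) - u) with h | h
      · rw [h]; exact hc2
      · rw [h]; exact hc2.neg_left
    have e1 : (X : ℤ) + ((u % W : ℕ) : ℤ) + W * ((u / W : ℕ) : ℤ) = ((X + u : ℕ) : ℤ) := by
      rw [Nat.cast_add]; linarith [hmod]
    have e2 : (X : ℤ) - ((u % W : ℕ) : ℤ) - W * ((u / W : ℕ) : ℤ) = (X : ℤ) - u := by
      linarith [hmod]
    refine ⟨?_, ?_, ?_⟩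
    · rw [hCls, mem_filter, mem_range]
      refine ⟨Nat.mod_lt _ hWpos, ?_, ?_⟩
      · have h3 : (X : ℤ) + ((u % W : ℕ) : ℤ) = ((X + u : ℕ) : ℤ) + (W : ℤ) * (-((u / W : ℕ) : ℤ)) := by
          rw [← e1]; ring
        rw [h3]
        exact IsCoprime.add_mul_left_left hc1 _
      · have h3 : (X : ℤ) - ((u % W : ℕ) : ℤ) = ((X : ℤ) - u) + (W : ℤ) * (((u / W : ℕ) : ℤ)) := by
          rw [← e2]; ring
        rw [h3]
        exact IsCoprime.add_mul_left_left hc2' _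
    · exact Nat.div_lt_of_lt_mul huN
    · rw [hT]
      simp only
      rw [e1, e2]
      unfold lamv
      rw [Int.natAbs_natCast, if_pos hp1, habs, if_pos hp2]
      have hlow : ∀ v : ℕ, Nat.sqrt n < v → Real.log n / 2 ≤ Real.log v := by
        intro v hv
        have h4 : Real.sqrt n ≤ v := by
          have h5 : n < (Nat.sqrt n + 1) ^ 2 := by
            have := Nat.lt_succ_sqrt n
            rw [pow_two]; exact this
          have h6 : n ≤ v ^ 2 := by
            have : (Nat.sqrt n + 1) ^ 2 ≤ v ^ 2 := Nat.pow_le_pow_left hv 2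
            omega
          rw [Real.sqrt_le_left (by positivity)]
          exact_mod_cast h6
        have h5 : 0 < Real.sqrt n := Real.sqrt_pos.2 (by linarith)
        calc Real.log n / 2 = Real.log (Real.sqrt n) := (Real.log_sqrt (by linarith)).symm
          _ ≤ Real.log v := Real.log_le_log h5 h4
      have hl1 := hlow _ (lt_of_lt_of_le hdist hdle)
      have hl2 := hlow _ hdist
      have hφ : (0 : ℝ) ≤ (Nat.totient W : ℝ) / W := by positivity
      calc c = ((Nat.totient W : ℝ) / W * (Real.log n / 2)) * ((Nat.totient W : ℝ) / W * (Real.log n / 2)) := by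
            rw [hc]; ring
        _ ≤ _ := by
            apply mul_le_mul (mul_le_mul_of_nonneg_left hl1 hφ) (mul_le_mul_of_nonneg_left hl2 hφ)
            · positivity
            · exact mul_nonneg hφ (le_trans (by positivity) hl1)
  -- summation
  have hsum1 : (U'.card : ℝ) * c ≤ ∑ y0 ∈ Cls, ∑ y ∈ range N, T y0 y := by
    rw [← sum_product']
    have hinj : Set.InjOn (fun u : ℕ => (u % W, u / W)) (U' : Set ℕ) := by
      intro u _ v _ h
      simp only [Prod.mk.injEq] at h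
      rw [← Nat.mod_add_div u W, ← Nat.mod_add_div v W, h.1, h.2]
    calc (U'.card : ℝ) * c = ∑ _u ∈ U', c := by rw [sum_const, nsmul_eq_mul]
      _ ≤ ∑ u ∈ U', T (u % W) (u / W) := sum_le_sum (fun u hu => (hU'm u hu).2.2)
      _ = ∑ q ∈ U'.image (fun u : ℕ => (u % W, u / W)), T q.1 q.2 := by
          rw [sum_image hinj]
      _ ≤ ∑ q ∈ Cls ×ˢ range N, T q.1 q.2 := by
          apply sum_le_sum_of_subset_of_nonneg
          · intro q hq
            rw [mem_image] at hq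
            obtain ⟨u, hu, rfl⟩ := hq
            rw [mem_product, mem_range]
            exact ⟨(hU'm u hu).1, (hU'm u hu).2.1⟩
          · intro q _ _
            exact hT0 _ _
  have hsum2 : ∑ y0 ∈ Cls, ∑ y ∈ range N, T y0 y ≤ Cls.card * (ε / 20 * N * SW w (2 * X)) := by
    rw [← nsmul_eq_mul]
    apply sum_le_card_nsmul
    intro y0 hy0
    rw [hCls, mem_filter, mem_range] at hy0
    have h1 := hcon y0 hy0.1 hy0.2
    unfold Dw at h1
    rw [← sum_div, div_lt_iff₀ (SW_pos _ _)] at h1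
    exact h1.le
  have hsing := gr2_singular w hw X hX.1
  rw [← hW, ← hCls] at hsing
  set Φ : ℝ := (Nat.totient W : ℝ) ^ 2 / W with hΦ
  have hΦpos : 0 < Φ := by
    have : 0 < (Nat.totient W : ℝ) := by exact_mod_cast Nat.totient_pos.2 hWpos
    positivity
  have hup : (U'.card : ℝ) * c ≤ ε / 10 * N * (SH X * Φ) := by
    have h1 : (U'.card : ℝ) * c ≤ (ε / 20 * N) * (Cls.card * SW w (2 * X)) := by
      calc (U'.card : ℝ) * c ≤ Cls.card * (ε / 20 * N * SW w (2 * X)) := le_trans hsum1 hsum2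
        _ = _ := by ring
    have h2 : (ε / 20 * N) * (Cls.card * SW w (2 * X)) ≤ (ε / 20 * N) * (2 * SH X * Φ) :=
      mul_le_mul_of_nonneg_left hsing (by positivity)
    linarith
  have hlow : ε / 5 * N * (SH X * Φ) ≤ (U'.card : ℝ) * c := by
    have hc0 : 0 ≤ c := by rw [hc]; positivity
    have h1 : 4 / 5 * ε * SH X * (n / Real.log n ^ 2) * c ≤ (U'.card : ℝ) * c :=
      mul_le_mul_of_nonneg_right hU'c hc0
    refine le_trans ?_ h1
    have h2 : 4 / 5 * ε * SH X * (n / Real.log n ^ 2) * c = ε / 5 * SH X * (Φ / W) * n := by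
      rw [hc, hΦ]
      field_simp
    rw [h2]
    have h3 : ε / 5 * SH X * (Φ / W) * (N * W) ≤ ε / 5 * SH X * (Φ / W) * n :=
      mul_le_mul_of_nonneg_left hNW (by positivity)
    refine le_trans (le_of_eq ?_) h3
    field_simp
  have hfin : 0 < ε * N * (SH X * Φ) := by positivity
  nlinarith

end Pool.Agent.Lib.H18GB
end

-- from Lib.H18GB.GRAux
section

/-!
# Project GB: auxiliary lemmas for GR3, GR4, GR5
-/

namespace Pool.Agent.Lib.H18GB

open Finset Pool.Agent.Lib.Sieve Pool.Agent.Lib.GoldbachGraph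

theorem lamv_neg (W : ℕ) (v : ℤ) : lamv W (-v) = lamv W v := by
  unfold lamv
  rw [Int.natAbs_neg]

theorem lamv_nonneg' (W : ℕ) (v : ℤ) : 0 ≤ lamv W v := by
  unfold lamv
  split_ifs with h
  · have h1 : (1 : ℝ) ≤ v.natAbs := by exact_mod_cast h.one_lt.le
    have h2 := Real.log_nonneg h1
    positivity
  · exact le_rfl

theorem totient_div_le_one (W : ℕ) : (Nat.totient W / W : ℝ) ≤ 1 := by
  rcases Nat.eq_zero_or_pos W with h | h
  · subst h; simp
  · rw [div_le_one (by exact_mod_cast h)]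
    exact_mod_cast Nat.totient_le W

theorem lamv_le_log {W : ℕ} {v : ℤ} {B : ℝ} (hB : 1 ≤ B) (hv : |(v : ℝ)| ≤ B) :
    lamv W v ≤ Real.log B := by
  unfold lamv
  have h0 := Real.log_nonneg hB
  split_ifs with h
  · have h1 : (0 : ℝ) < v.natAbs := by exact_mod_cast h.pos
    have h2 : (v.natAbs : ℝ) ≤ B := by
      rw [Nat.cast_natAbs]
      push_cast
      exact hv
    have h3 := Real.log_le_log h1 h2
    have h4 := totient_div_le_one W
    have h5 : (1 : ℝ) ≤ v.natAbs := by exact_mod_cast h.one_lt.le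
    have h6 := Real.log_nonneg h5
    calc (Nat.totient W / W : ℝ) * Real.log v.natAbs ≤ 1 * Real.log v.natAbs := by
          exact mul_le_mul_of_nonneg_right h4 h6
      _ ≤ Real.log B := by rw [one_mul]; exact h3
  · exact h0

theorem one_le_SW (w : ℕ) (d : ℤ) : 1 ≤ SW w d := by
  unfold SW
  refine Finset.prod_induction _ (fun x : ℝ => 1 ≤ x)
    (fun a b ha hb => one_le_mul_of_one_le_of_one_le ha hb) le_rfl ?_
  intro p hp
  have hpp : p.Prime := Nat.prime_of_mem_primeFactors (Finset.mem_filter.mp hp).1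
  have h1 : (1 : ℝ) < p := by exact_mod_cast hpp.one_lt
  have h2 : 0 < 1 - 1 / (p : ℝ) := by
    rw [sub_pos, div_lt_one (by linarith)]
    exact h1
  have h3 : 1 - 1 / (p : ℝ) ≤ 1 := by
    have : (0 : ℝ) ≤ 1 / p := by positivity
    linarith
  exact (one_le_inv₀ h2).mpr h3

/-- a number coprime to an even number is odd -/
theorem odd_of_coprime {W : ℕ} (h2 : 2 ∣ W) {v : ℤ} (h : IsCoprime v (W : ℤ)) : v % 2 = 1 := by
  by_contra hc
  have h3 : (2 : ℤ) ∣ v := by omega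
  have h4 : (2 : ℤ) ∣ (W : ℤ) := by exact_mod_cast h2
  have h5 := h.isUnit_of_dvd' h3 h4
  exact absurd h5 (by decide)

/-- if both von Mangoldt weights are nonzero then there is an edge -/
theorem hadj_of_lamv {W : ℕ} (h2 : 2 ∣ W) {x0 y0 x y : ℕ} (hc : Comp W x0 y0)
    (h : lamv W ((x0 + y0) + W * (x + y)) * lamv W ((x0 - y0) + W * (x - y)) ≠ 0) :
    hadj (x0 + W * x) (y0 + W * y) := by
  have h2' : (W : ℤ) % 2 = 0 := by omega
  have hne := mul_ne_zero_iff.mp h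
  have e1 : (((x0 : ℤ) + y0) + W * (x + y)).natAbs = (x0 + W * x) + (y0 + W * y) := by
    have : ((x0 : ℤ) + y0) + W * (x + y) = (((x0 + W * x) + (y0 + W * y) : ℕ) : ℤ) := by
      push_cast; ring
    rw [this, Int.natAbs_natCast]
  have e2 : (((x0 : ℤ) - y0) + W * (x - y)).natAbs = Nat.dist (x0 + W * x) (y0 + W * y) := by
    have : ((x0 : ℤ) - y0) + W * (x - y) =
        ((x0 + W * x : ℕ) : ℤ) - ((y0 + W * y : ℕ) : ℤ) := by
      push_cast; ring
    rw [this, Nat.dist]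
    omega
  have p1 : (((x0 : ℤ) + y0) + W * (x + y)).natAbs.Prime := by
    by_contra hp
    exact hne.1 (by unfold lamv; rw [if_neg hp])
  have p2 : (((x0 : ℤ) - y0) + W * (x - y)).natAbs.Prime := by
    by_contra hp
    exact hne.2 (by unfold lamv; rw [if_neg hp])
  have o1 := odd_of_coprime h2 hc.1
  have o2 := odd_of_coprime h2 hc.2
  have q1 : (((x0 : ℤ) + y0) + W * (x + y)) % 2 = 1 := by
    rw [Int.add_emod, Int.mul_emod, h2', o1]; norm_num
  have q2 : (((x0 : ℤ) - y0) + W * (x - y)) % 2 = 1 := by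
    rw [Int.add_emod, Int.mul_emod, h2', o2]; norm_num
  refine ⟨?_, ?_, ?_, ?_⟩
  · rw [← e1]; exact p1
  · rw [← e1, Nat.odd_iff]; omega
  · rw [← e2]; exact p2
  · rw [← e2, Nat.odd_iff]; omega

/-- no edges: the two kernels add up to at most `-1` -/
theorem ker_sum {W : ℕ} {r1 r x y : ℤ}
    (h : lamv W (r1 + W * (x + y)) * lamv W (r + W * (x - y)) = 0) :
    ker W r1 r 1 x y + ker W r1 (-r) (-1) x y ≤ -1 := by
  have h2 : lam W (-r) (-1 * (x - y)) = lamv W (r + W * (x - y)) := by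
    unfold lam
    rw [← lamv_neg W (r + W * (x - y))]
    congr 1
    ring
  have h1 : lam W r1 (x + y) = lamv W (r1 + W * (x + y)) := rfl
  have h3 : lam W r (1 * (x - y)) = lamv W (r + W * (x - y)) := by
    unfold lam
    rw [one_mul]
  unfold ker
  rw [h1, h2, h3, h]
  split_ifs with c1 c2 c2
  · norm_num
  · norm_num
  · norm_num
  · exfalso; omega

/-- the counting consequence of the two kernel estimates -/
theorem no_edge_bound {W N : ℕ} {r1 r : ℤ} {F G : ℤ → ℝ} {E : ℝ}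
    (hF : ∀ x, 0 ≤ F x) (hG : ∀ y, 0 ≤ G y)
    (h : ∀ x ∈ Finset.Ico (0 : ℤ) N, ∀ y ∈ Finset.Ico (0 : ℤ) N, F x * G y ≠ 0 →
      lamv W (r1 + W * (x + y)) * lamv W (r + W * (x - y)) = 0)
    (h1 : |∑ x ∈ Finset.Ico (0 : ℤ) N, ∑ y ∈ Finset.Ico (0 : ℤ) N,
      F x * G y * ker W r1 r 1 x y| ≤ E)
    (h2 : |∑ x ∈ Finset.Ico (0 : ℤ) N, ∑ y ∈ Finset.Ico (0 : ℤ) N,
      F x * G y * ker W r1 (-r) (-1) x y| ≤ E) :
    (∑ x ∈ Finset.Ico (0 : ℤ) N, F x) * (∑ y ∈ Finset.Ico (0 : ℤ) N, G y) ≤ 2 * E := by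
  have e1 := (abs_le.mp h1).1
  have e2 := (abs_le.mp h2).1
  have key : (∑ x ∈ Finset.Ico (0 : ℤ) N, ∑ y ∈ Finset.Ico (0 : ℤ) N,
      F x * G y * ker W r1 r 1 x y) + (∑ x ∈ Finset.Ico (0 : ℤ) N, ∑ y ∈ Finset.Ico (0 : ℤ) N,
      F x * G y * ker W r1 (-r) (-1) x y) ≤
      -((∑ x ∈ Finset.Ico (0 : ℤ) N, F x) * (∑ y ∈ Finset.Ico (0 : ℤ) N, G y)) := by
    rw [Finset.sum_mul_sum, ← Finset.sum_neg_distrib, ← Finset.sum_add_distrib]
    apply Finset.sum_le_sum
    intro x hx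
    rw [← Finset.sum_neg_distrib, ← Finset.sum_add_distrib]
    apply Finset.sum_le_sum
    intro y hy
    by_cases hc : F x * G y = 0
    · rw [hc]; simp
    · have h3 := ker_sum (h x hx y hy hc)
      have h4 : 0 ≤ F x * G y := mul_nonneg (hF x) (hG y)
      nlinarith
  linarith

theorem sum_Ico_int (N : ℕ) (f : ℤ → ℝ) :
    ∑ x ∈ Finset.Ico (0 : ℤ) N, f x = ∑ n ∈ Finset.range N, f n := by
  have h := Finset.sum_image (s := Finset.range N) (g := fun n : ℕ => (n : ℤ)) (f := f)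
    (fun a _ b _ hab => by simpa using hab)
  rw [← h]
  congr 1
  ext x
  simp only [Finset.mem_Ico, Finset.mem_image, Finset.mem_range]
  constructor
  · rintro ⟨h1, h2⟩
    exact ⟨x.toNat, by omega, by omega⟩
  · rintro ⟨n, h1, rfl⟩
    omega

open Classical in
/-- indicator function of a finite set of natural numbers, on the integers -/
noncomputable def indZ (A : Finset ℕ) (x : ℤ) : ℝ := if 0 ≤ x ∧ x.toNat ∈ A then 1 else 0

theorem indZ_nonneg (A : Finset ℕ) (x : ℤ) : 0 ≤ indZ A x := by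
  unfold indZ; split_ifs <;> norm_num

theorem indZ_abs_le (A : Finset ℕ) (x : ℤ) : |indZ A x| ≤ 1 := by
  unfold indZ; split_ifs <;> norm_num

theorem indZ_ne {A : Finset ℕ} {x : ℤ} (h : indZ A x ≠ 0) : ∃ n ∈ A, x = n := by
  unfold indZ at h
  split_ifs at h with h1
  · exact ⟨x.toNat, h1.2, by omega⟩
  · exact absurd rfl h

theorem indZ_cast (A : Finset ℕ) (n : ℕ) [Decidable (n ∈ A)] :
    indZ A n = if n ∈ A then 1 else 0 := by
  unfold indZ
  by_cases h : n ∈ A <;> simp [h]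

theorem sum_indZ {N : ℕ} {A : Finset ℕ} (hA : A ⊆ Finset.Ico 1 N) :
    ∑ x ∈ Finset.Ico (0 : ℤ) N, indZ A x = A.card := by
  classical
  rw [sum_Ico_int]
  have h1 : ∀ n ∈ Finset.range N, indZ A (n : ℤ) = if n ∈ A then 1 else 0 :=
    fun n _ => indZ_cast A n
  rw [Finset.sum_congr rfl h1, Finset.sum_ite_mem, Finset.sum_const, nsmul_eq_mul, mul_one]
  congr 2
  apply Finset.inter_eq_right.mpr
  intro n hn
  have := Finset.mem_Ico.mp (hA hn)
  exact Finset.mem_range.mpr this.2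

/-- `log^2` is eventually smaller than a linear function -/
theorem log_sq_le (W : ℕ) (δ : ℝ) (hδ : 0 < δ) : ∃ N0 : ℕ, ∀ N : ℕ, N0 ≤ N →
    Real.log (4 * W * N + 4 * W + 4) ^ 2 ≤ δ * N := by
  have h1 : Filter.Tendsto (fun x : ℝ => Real.log x ^ 2 / (1 * x + 0)) Filter.atTop (nhds 0) :=
    Real.tendsto_pow_log_div_mul_add_atTop 1 0 2 one_ne_zero
  have h2 : Filter.Tendsto (fun N : ℕ => (4 * (W + 1) * N + 4 * (W + 1) : ℝ)) Filter.atTop
      Filter.atTop := by
    apply Filter.tendsto_atTop_add_const_right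
    apply Filter.Tendsto.const_mul_atTop (by positivity)
    exact tendsto_natCast_atTop_atTop
  have h3 := h1.comp h2
  have hW : (0 : ℝ) < 8 * (W + 1) := by positivity
  have h4 := h3.eventually (gt_mem_nhds (show (0 : ℝ) < δ / (8 * (W + 1)) by positivity))
  obtain ⟨N0, hN0⟩ := Filter.eventually_atTop.mp h4
  refine ⟨max N0 1, fun N hN => ?_⟩
  have hN1 : 1 ≤ N := le_trans (le_max_right _ _) hN
  have hN1' : (1 : ℝ) ≤ N := by exact_mod_cast hN1
  have h5 := hN0 N (le_trans (le_max_left _ _) hN)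
  simp only [Function.comp_apply, one_mul, add_zero] at h5
  have hpos : (0 : ℝ) < 4 * (W + 1) * N + 4 * (W + 1) := by positivity
  rw [div_lt_iff₀ hpos] at h5
  have h6 : (4 * W * N + 4 * W + 4 : ℝ) ≤ 4 * (W + 1) * N + 4 * (W + 1) := by nlinarith
  have h7 : (1 : ℝ) ≤ 4 * W * N + 4 * W + 4 := by
    have : (0 : ℝ) ≤ W := Nat.cast_nonneg W
    nlinarith
  have h8 : Real.log (4 * W * N + 4 * W + 4) ^ 2 ≤ Real.log (4 * (W + 1) * N + 4 * (W + 1)) ^ 2 := by
    apply pow_le_pow_left₀ (Real.log_nonneg h7)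
    exact Real.log_le_log (by linarith) h6
  have h9 : δ / (8 * (W + 1)) * (4 * (W + 1) * N + 4 * (W + 1)) ≤ δ * N := by
    have : δ / (8 * (W + 1)) * (4 * (W + 1) * N + 4 * (W + 1)) = δ * ((N + 1) / 2) := by
      field_simp
      ring
    rw [this]
    apply mul_le_mul_of_nonneg_left _ hδ.le
    linarith
  linarith

end Pool.Agent.Lib.H18GB
end

-- from Lib.H18GB2.Box
section

/-!
# Project GB2: weighted box sums (chunk BOX, pure algebra)

`box N k F G = ∑_{x,x'} F(x) F(x') (∑_y G(y) k(x,y) k(x',y))^2`, all variables in `[0, N)`.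
-/

namespace Pool.Agent.Lib.H18GB

open Finset

/-- weighted box sum of a kernel on `[0, N)^2` -/
noncomputable def box (N : ℕ) (k : ℤ → ℤ → ℝ) (F G : ℤ → ℝ) : ℝ :=
  ∑ x ∈ Finset.Ico (0 : ℤ) N, ∑ x' ∈ Finset.Ico (0 : ℤ) N, F x * F x' *
    (∑ y ∈ Finset.Ico (0 : ℤ) N, G y * (k x y * k x' y)) ^ 2

private lemma box_sq_sum (s : Finset ℤ) (a : ℤ → ℝ) :
    (∑ y ∈ s, a y) ^ 2 = ∑ y ∈ s, ∑ y' ∈ s, a y * a y' := by
  rw [sq, Finset.sum_mul_sum]

/-- weighted Cauchy-Schwarz -/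
private lemma box_cs (s : Finset ℤ) (w a b : ℤ → ℤ → ℝ) (hw : ∀ x ∈ s, ∀ y ∈ s, 0 ≤ w x y) :
    (∑ x ∈ s, ∑ y ∈ s, w x y * (a x y * b x y)) ^ 2 ≤
      (∑ x ∈ s, ∑ y ∈ s, w x y * a x y ^ 2) * (∑ x ∈ s, ∑ y ∈ s, w x y * b x y ^ 2) := by
  have key := Finset.sum_mul_sq_le_sq_mul_sq (s ×ˢ s)
    (fun p => Real.sqrt (w p.1 p.2) * a p.1 p.2) (fun p => Real.sqrt (w p.1 p.2) * b p.1 p.2)
  have h1 : ∑ p ∈ s ×ˢ s, (Real.sqrt (w p.1 p.2) * a p.1 p.2) * (Real.sqrt (w p.1 p.2) * b p.1 p.2) =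
      ∑ x ∈ s, ∑ y ∈ s, w x y * (a x y * b x y) := by
    rw [Finset.sum_product]
    refine Finset.sum_congr rfl fun x hx => Finset.sum_congr rfl fun y hy => ?_
    have := Real.mul_self_sqrt (hw x hx y hy)
    calc (Real.sqrt (w x y) * a x y) * (Real.sqrt (w x y) * b x y)
        = (Real.sqrt (w x y) * Real.sqrt (w x y)) * (a x y * b x y) := by ring
      _ = _ := by rw [this]
  have h2 : ∀ c : ℤ → ℤ → ℝ, ∑ p ∈ s ×ˢ s, (Real.sqrt (w p.1 p.2) * c p.1 p.2) ^ 2 =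
      ∑ x ∈ s, ∑ y ∈ s, w x y * c x y ^ 2 := by
    intro c
    rw [Finset.sum_product]
    refine Finset.sum_congr rfl fun x hx => Finset.sum_congr rfl fun y hy => ?_
    rw [mul_pow, Real.sq_sqrt (hw x hx y hy)]
  rw [h1, h2, h2] at key
  exact key

private lemma box_cs1 (s : Finset ℤ) (w a : ℤ → ℝ) (hw : ∀ x ∈ s, 0 ≤ w x) :
    (∑ x ∈ s, w x * a x) ^ 2 ≤ (∑ x ∈ s, w x) * (∑ x ∈ s, w x * a x ^ 2) := by
  have key := Finset.sum_mul_sq_le_sq_mul_sq s
    (fun p => Real.sqrt (w p)) (fun p => Real.sqrt (w p) * a p)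
  have h1 : ∑ p ∈ s, Real.sqrt (w p) * (Real.sqrt (w p) * a p) = ∑ x ∈ s, w x * a x := by
    refine Finset.sum_congr rfl fun x hx => ?_
    rw [← mul_assoc, Real.mul_self_sqrt (hw x hx)]
  have h2 : ∑ p ∈ s, Real.sqrt (w p) ^ 2 = ∑ x ∈ s, w x :=
    Finset.sum_congr rfl fun x hx => Real.sq_sqrt (hw x hx)
  have h3 : ∑ p ∈ s, (Real.sqrt (w p) * a p) ^ 2 = ∑ x ∈ s, w x * a x ^ 2 := by
    refine Finset.sum_congr rfl fun x hx => ?_
    rw [mul_pow, Real.sq_sqrt (hw x hx)]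
  rw [h1, h2, h3] at key
  exact key

theorem box_expand (N : ℕ) (k : ℤ → ℤ → ℝ) (F G : ℤ → ℝ) : box N k F G =
    ∑ x ∈ Finset.Ico (0 : ℤ) N, ∑ x' ∈ Finset.Ico (0 : ℤ) N, ∑ y ∈ Finset.Ico (0 : ℤ) N,
      ∑ y' ∈ Finset.Ico (0 : ℤ) N, F x * F x' * G y * G y' *
        ((k x y * k x y') * (k x' y * k x' y')) := by
  unfold box
  refine Finset.sum_congr rfl fun x _ => Finset.sum_congr rfl fun x' _ => ?_
  rw [box_sq_sum, Finset.mul_sum]
  refine Finset.sum_congr rfl fun y _ => ?_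
  rw [Finset.mul_sum]
  refine Finset.sum_congr rfl fun y' _ => ?_
  ring

theorem box_swap (N : ℕ) (k : ℤ → ℤ → ℝ) (F G : ℤ → ℝ) :
    box N k F G = box N (fun y x => k x y) G F := by
  rw [box_expand, box_expand]
  set s := Finset.Ico (0 : ℤ) N
  calc ∑ x ∈ s, ∑ x' ∈ s, ∑ y ∈ s, ∑ y' ∈ s, F x * F x' * G y * G y' *
        ((k x y * k x y') * (k x' y * k x' y'))
      = ∑ x ∈ s, ∑ y ∈ s, ∑ x' ∈ s, ∑ y' ∈ s, F x * F x' * G y * G y' *
        ((k x y * k x y') * (k x' y * k x' y')) := by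
        refine Finset.sum_congr rfl fun x _ => ?_
        rw [Finset.sum_comm]
    _ = ∑ y ∈ s, ∑ x ∈ s, ∑ x' ∈ s, ∑ y' ∈ s, F x * F x' * G y * G y' *
        ((k x y * k x y') * (k x' y * k x' y')) := by
        rw [Finset.sum_comm]
    _ = ∑ y ∈ s, ∑ x ∈ s, ∑ y' ∈ s, ∑ x' ∈ s, F x * F x' * G y * G y' *
        ((k x y * k x y') * (k x' y * k x' y')) := by
        refine Finset.sum_congr rfl fun y _ => Finset.sum_congr rfl fun x _ => ?_
        rw [Finset.sum_comm]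
    _ = ∑ y ∈ s, ∑ y' ∈ s, ∑ x ∈ s, ∑ x' ∈ s, F x * F x' * G y * G y' *
        ((k x y * k x y') * (k x' y * k x' y')) := by
        refine Finset.sum_congr rfl fun y _ => ?_
        rw [Finset.sum_comm]
    _ = _ := by
        refine Finset.sum_congr rfl fun y _ => Finset.sum_congr rfl fun y' _ =>
          Finset.sum_congr rfl fun x _ => Finset.sum_congr rfl fun x' _ => ?_
        ring

private lemma box_mono_left {N : ℕ} {k : ℤ → ℤ → ℝ} {F F' G : ℤ → ℝ}
    (h0 : ∀ x ∈ Finset.Ico (0 : ℤ) N, 0 ≤ F x) (h1 : ∀ x ∈ Finset.Ico (0 : ℤ) N, F x ≤ F' x) :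
    box N k F G ≤ box N k F' G := by
  unfold box
  refine Finset.sum_le_sum fun x hx => Finset.sum_le_sum fun x' hx' => ?_
  refine mul_le_mul_of_nonneg_right ?_ (sq_nonneg _)
  exact mul_le_mul (h1 x hx) (h1 x' hx') (h0 x' hx') (le_trans (h0 x hx) (h1 x hx))

theorem box_mono {N : ℕ} {k : ℤ → ℤ → ℝ} {F F' G G' : ℤ → ℝ}
    (h0 : ∀ x ∈ Finset.Ico (0 : ℤ) N, 0 ≤ F x) (h1 : ∀ x ∈ Finset.Ico (0 : ℤ) N, F x ≤ F' x)
    (h2 : ∀ x ∈ Finset.Ico (0 : ℤ) N, 0 ≤ G x) (h3 : ∀ x ∈ Finset.Ico (0 : ℤ) N, G x ≤ G' x) :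
    box N k F G ≤ box N k F' G' := by
  refine (box_mono_left h0 h1).trans ?_
  rw [box_swap, box_swap N k F' G']
  exact box_mono_left h2 h3

theorem box_smul (N : ℕ) (k : ℤ → ℤ → ℝ) (F G : ℤ → ℝ) (c d : ℝ) :
    box N k (fun x => c * F x) (fun y => d * G y) = c ^ 2 * d ^ 2 * box N k F G := by
  unfold box
  rw [Finset.mul_sum]
  refine Finset.sum_congr rfl fun x _ => ?_
  rw [Finset.mul_sum]
  refine Finset.sum_congr rfl fun x' _ => ?_
  have : ∑ y ∈ Finset.Ico (0 : ℤ) N, d * G y * (k x y * k x' y) =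
      d * ∑ y ∈ Finset.Ico (0 : ℤ) N, G y * (k x y * k x' y) := by
    rw [Finset.mul_sum]
    exact Finset.sum_congr rfl fun y _ => by ring
  rw [this]
  ring

/-- expansion of `∑_x F(x) (∑_y G(y) k(x,y))^2` -/
private lemma box_quad (s : Finset ℤ) (F G : ℤ → ℝ) (k : ℤ → ℤ → ℝ) :
    ∑ x ∈ s, F x * (∑ y ∈ s, G y * k x y) ^ 2 =
      ∑ y ∈ s, ∑ y' ∈ s, G y * G y' * ∑ x ∈ s, F x * (k x y * k x y') := by
  have h1 : ∀ x ∈ s, F x * (∑ y ∈ s, G y * k x y) ^ 2 =
      ∑ y ∈ s, ∑ y' ∈ s, G y * G y' * (F x * (k x y * k x y')) := by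
    intro x _
    rw [box_sq_sum, Finset.mul_sum]
    refine Finset.sum_congr rfl fun y _ => ?_
    rw [Finset.mul_sum]
    exact Finset.sum_congr rfl fun y' _ => by ring
  rw [Finset.sum_congr rfl h1, Finset.sum_comm]
  refine Finset.sum_congr rfl fun y _ => ?_
  rw [Finset.sum_comm]
  refine Finset.sum_congr rfl fun y' _ => ?_
  rw [Finset.mul_sum]

/-- Cauchy-Schwarz twice -/
theorem box_cut {N : ℕ} {k : ℤ → ℤ → ℝ} {F F1 G G1 : ℤ → ℝ}
    (h1 : ∀ x ∈ Finset.Ico (0 : ℤ) N, |F1 x| ≤ F x) (h2 : ∀ y ∈ Finset.Ico (0 : ℤ) N, |G1 y| ≤ G y) :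
    (∑ x ∈ Finset.Ico (0 : ℤ) N, ∑ y ∈ Finset.Ico (0 : ℤ) N, F1 x * G1 y * k x y) ^ 4 ≤
      (∑ x ∈ Finset.Ico (0 : ℤ) N, F x) ^ 2 * (∑ y ∈ Finset.Ico (0 : ℤ) N, G y) ^ 2 *
        box N k F G := by
  set s := Finset.Ico (0 : ℤ) N with hs
  have hF0 : ∀ x ∈ s, 0 ≤ F x := fun x hx => (abs_nonneg _).trans (h1 x hx)
  have hG0 : ∀ x ∈ s, 0 ≤ G x := fun x hx => (abs_nonneg _).trans (h2 x hx)
  have hsF : 0 ≤ ∑ x ∈ s, F x := Finset.sum_nonneg hF0
  -- first step
  have e1 : |∑ x ∈ s, ∑ y ∈ s, F1 x * G1 y * k x y| ≤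
      ∑ x ∈ s, F x * |∑ y ∈ s, G1 y * k x y| := by
    refine (Finset.abs_sum_le_sum_abs _ _).trans (Finset.sum_le_sum fun x hx => ?_)
    have : ∑ y ∈ s, F1 x * G1 y * k x y = F1 x * ∑ y ∈ s, G1 y * k x y := by
      rw [Finset.mul_sum]; exact Finset.sum_congr rfl fun y _ => by ring
    rw [this, abs_mul]
    exact mul_le_mul_of_nonneg_right (h1 x hx) (abs_nonneg _)
  have e2 : (∑ x ∈ s, ∑ y ∈ s, F1 x * G1 y * k x y) ^ 2 ≤
      (∑ x ∈ s, F x) * ∑ x ∈ s, F x * (∑ y ∈ s, G1 y * k x y) ^ 2 := by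
    calc (∑ x ∈ s, ∑ y ∈ s, F1 x * G1 y * k x y) ^ 2
        = |∑ x ∈ s, ∑ y ∈ s, F1 x * G1 y * k x y| ^ 2 := (sq_abs _).symm
      _ ≤ (∑ x ∈ s, F x * |∑ y ∈ s, G1 y * k x y|) ^ 2 := by gcongr
      _ ≤ (∑ x ∈ s, F x) * ∑ x ∈ s, F x * |∑ y ∈ s, G1 y * k x y| ^ 2 := box_cs1 s F _ hF0
      _ = _ := by simp only [sq_abs]
  -- second step
  have e3 : ∑ x ∈ s, F x * (∑ y ∈ s, G1 y * k x y) ^ 2 ≤
      ∑ y ∈ s, ∑ y' ∈ s, G y * G y' * |∑ x ∈ s, F x * (k x y * k x y')| := by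
    rw [box_quad]
    refine Finset.sum_le_sum fun y hy => Finset.sum_le_sum fun y' hy' => ?_
    refine (le_abs_self _).trans ?_
    rw [abs_mul, abs_mul]
    refine mul_le_mul_of_nonneg_right ?_ (abs_nonneg _)
    exact mul_le_mul (h2 y hy) (h2 y' hy') (abs_nonneg _) (hG0 y hy)
  have e4 : (∑ y ∈ s, ∑ y' ∈ s, G y * G y' * |∑ x ∈ s, F x * (k x y * k x y')|) ^ 2 ≤
      (∑ y ∈ s, G y) ^ 2 * box N k F G := by
    have := box_cs s (fun y y' => G y * G y') (fun _ _ => 1)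
      (fun y y' => |∑ x ∈ s, F x * (k x y * k x y')|)
      (fun y hy y' hy' => mul_nonneg (hG0 y hy) (hG0 y' hy'))
    have h5 : ∑ x ∈ s, ∑ y ∈ s, G x * G y * (1 : ℝ) ^ 2 = (∑ y ∈ s, G y) ^ 2 := by
      rw [box_sq_sum]; simp
    rw [box_swap]
    unfold box
    simp only [one_mul, sq_abs] at this
    rw [h5] at this
    exact this
  have hq0 : 0 ≤ ∑ x ∈ s, F x * (∑ y ∈ s, G1 y * k x y) ^ 2 :=
    Finset.sum_nonneg fun x hx => mul_nonneg (hF0 x hx) (sq_nonneg _)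
  calc (∑ x ∈ s, ∑ y ∈ s, F1 x * G1 y * k x y) ^ 4
      = ((∑ x ∈ s, ∑ y ∈ s, F1 x * G1 y * k x y) ^ 2) ^ 2 := by ring
    _ ≤ ((∑ x ∈ s, F x) * ∑ x ∈ s, F x * (∑ y ∈ s, G1 y * k x y) ^ 2) ^ 2 := by gcongr
    _ = (∑ x ∈ s, F x) ^ 2 * (∑ x ∈ s, F x * (∑ y ∈ s, G1 y * k x y) ^ 2) ^ 2 := by ring
    _ ≤ (∑ x ∈ s, F x) ^ 2 *
        (∑ y ∈ s, ∑ y' ∈ s, G y * G y' * |∑ x ∈ s, F x * (k x y * k x y')|) ^ 2 := by gcongr
    _ ≤ (∑ x ∈ s, F x) ^ 2 * ((∑ y ∈ s, G y) ^ 2 * box N k F G) := by gcongr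
    _ = _ := by ring



end Pool.Agent.Lib.H18GB
end
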