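import Pool.Agent.Lib.H1M.RV.M073
import Pool.Agent.Lib.H1M.RV.M097

/-! Merged copies (to shorten the build) of Lib.H18GB2.SWC, Lib.H18GB2.Adm. -/

-- from Lib.H18GB2.SWC
section

/-!
# Project GB2: SWC (the arithmetic factors are almost always close to `1`)
-/

namespace Pool.Agent.Lib.H18GB

open Finset Pool.Agent.Lib.Sieve

/-- sum of `p^(-9/10)` over the primes `p > w` dividing `d` -/
noncomputable def Et (w : ℕ) (d : ℤ) : ℝ :=
  ∑ p ∈ d.natAbs.primeFactors.filter (fun p => w < p), (p : ℝ) ^ (-(9 / 10 : ℝ))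

theorem ers_le_et {w z : ℕ} {d : ℤ} (hd : d ≠ 0) : Ers (9 / 10) (sprimes w z) d ≤ Et w d := by
  unfold Ers Et
  apply Finset.sum_le_sum_of_subset_of_nonneg
  · intro p hp
    rw [Finset.mem_filter, mem_sprimes] at hp
    rw [Finset.mem_filter, Nat.mem_primeFactors]
    exact ⟨⟨hp.1.1, Int.natCast_dvd.mp hp.2, by simpa using hd⟩, hp.1.2.1⟩
  · intro p _ _
    exact Real.rpow_nonneg (Nat.cast_nonneg _) _

theorem swc_et_nonneg (w : ℕ) (d : ℤ) : 0 ≤ Et w d :=
  Finset.sum_nonneg fun _ _ => Real.rpow_nonneg (Nat.cast_nonneg _) _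

/-- all prime divisors of `d` are at most `z` if `|d| ≤ z` -/
theorem swc_et_le_ers {w z : ℕ} {d : ℤ} (hd : d.natAbs ≤ z) :
    Et w d ≤ Ers (9 / 10) (sprimes w z) d := by
  unfold Ers Et
  apply Finset.sum_le_sum_of_subset_of_nonneg
  · intro p hp
    rw [Finset.mem_filter, Nat.mem_primeFactors] at hp
    obtain ⟨⟨h1, h2, h3⟩, h4⟩ := hp
    rw [Finset.mem_filter, mem_sprimes]
    exact ⟨⟨h1, h4, (Nat.le_of_dvd (Nat.pos_of_ne_zero h3) h2).trans hd⟩, Int.natCast_dvd.mpr h2⟩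
  · intro p _ _
    exact Real.rpow_nonneg (Nat.cast_nonneg _) _

/-- crude bound of `∑ p^(-9/10)` -/
theorem swc_crude (w z : ℕ) (M : ℝ) (hM : 0 < M) :
    ∑ p ∈ sprimes w z, (p : ℝ) ^ (-(9 / 10 : ℝ)) ≤ M + z * M ^ (-(9 / 10 : ℝ)) := by
  rw [← Finset.sum_filter_add_sum_filter_not _ (fun p : ℕ => (p : ℝ) ≤ M)]
  apply add_le_add
  · have h1 : ∑ p ∈ (sprimes w z).filter (fun p : ℕ => (p : ℝ) ≤ M), (p : ℝ) ^ (-(9 / 10 : ℝ)) ≤
        ∑ p ∈ (sprimes w z).filter (fun p : ℕ => (p : ℝ) ≤ M), (1 : ℝ) := by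
      apply Finset.sum_le_sum
      intro p hp
      rw [Finset.mem_filter, mem_sprimes] at hp
      exact Real.rpow_le_one_of_one_le_of_nonpos (by exact_mod_cast hp.1.1.one_lt.le) (by norm_num)
    refine h1.trans ?_
    rw [Finset.sum_const, nsmul_eq_mul, mul_one]
    have h2 : (sprimes w z).filter (fun p : ℕ => (p : ℝ) ≤ M) ⊆ Finset.Ioc 0 ⌊M⌋₊ := by
      intro p hp
      rw [Finset.mem_filter, mem_sprimes] at hp
      rw [Finset.mem_Ioc]
      exact ⟨hp.1.1.pos, Nat.le_floor hp.2⟩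
    have h3 := Finset.card_le_card h2
    rw [Nat.card_Ioc, Nat.sub_zero] at h3
    calc (((sprimes w z).filter (fun p : ℕ => (p : ℝ) ≤ M)).card : ℝ) ≤ (⌊M⌋₊ : ℝ) := by
          exact_mod_cast h3
      _ ≤ M := Nat.floor_le hM.le
  · have h1 : ∑ p ∈ (sprimes w z).filter (fun p : ℕ => ¬ (p : ℝ) ≤ M), (p : ℝ) ^ (-(9 / 10 : ℝ)) ≤
        ∑ p ∈ (sprimes w z).filter (fun p : ℕ => ¬ (p : ℝ) ≤ M), M ^ (-(9 / 10 : ℝ)) := by
      apply Finset.sum_le_sum
      intro p hp
      rw [Finset.mem_filter] at hp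
      exact Real.rpow_le_rpow_of_nonpos hM (not_le.mp hp.2).le (by norm_num)
    refine h1.trans ?_
    rw [Finset.sum_const, nsmul_eq_mul]
    have h2 : (sprimes w z).filter (fun p : ℕ => ¬ (p : ℝ) ≤ M) ⊆ Finset.Ioc 0 z := by
      intro p hp
      rw [Finset.mem_filter, mem_sprimes] at hp
      rw [Finset.mem_Ioc]
      exact ⟨hp.1.1.pos, hp.1.2.2⟩
    have h3 := Finset.card_le_card h2
    rw [Nat.card_Ioc, Nat.sub_zero] at h3
    exact mul_le_mul_of_nonneg_right (by exact_mod_cast h3) (Real.rpow_nonneg hM.le _)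

/-- average of `Et` -/
theorem swc_avg {w W N : ℕ} (hw : 2 ≤ w) (hW : IsW w W) (hN : 1 ≤ N) {c : ℤ} (hc : |c| ≤ 8 * W)
    (M : ℝ) (hM : 0 < M) :
    ∑ y ∈ Finset.Ico (0 : ℤ) N, Et w (c + 2 * W * y) ≤
      10 / 9 * (N * (w : ℝ) ^ (-(9 / 10 : ℝ))) + (M + 10 * W * N * M ^ (-(9 / 10 : ℝ))) := by
  have hW0 : 0 < W := hW.1
  set z : ℕ := 10 * W * N with hz
  have hndiv : ∀ p ∈ sprimes w z, ¬ (p : ℤ) ∣ (2 * W : ℤ) := by
    intro p hp hdiv
    rw [mem_sprimes] at hp
    have h1 : (p : ℤ) ∣ ((2 * W : ℕ) : ℤ) := by exact_mod_cast hdiv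
    have h2 : p ∣ 2 * W := by exact_mod_cast h1
    rcases (hp.1.dvd_mul).1 h2 with h3 | h3
    · have := Nat.le_of_dvd (by norm_num) h3
      omega
    · have := (hW.2 p hp.1).1 h3
      omega
  have hle : ∀ y ∈ Finset.Ico (0 : ℤ) N, Et w (c + 2 * W * y) ≤
      Ers (9 / 10) (sprimes w z) (2 * W * y + c) := by
    intro y hy
    rw [Finset.mem_Ico] at hy
    have e : c + 2 * W * y = 2 * W * y + c := by ring
    rw [e]
    apply swc_et_le_ers
    have h1 : |2 * (W : ℤ) * y + c| ≤ 10 * W * N := by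
      rw [abs_le] at hc ⊢
      have hWz : (1 : ℤ) ≤ W := by exact_mod_cast hW0
      have hNz : (1 : ℤ) ≤ N := by exact_mod_cast hN
      constructor <;> nlinarith
    have h2 : ((2 * (W : ℤ) * y + c).natAbs : ℤ) ≤ ((10 * W * N : ℕ) : ℤ) := by
      rw [Int.natCast_natAbs]
      push_cast
      exact h1
    rw [hz]
    exact_mod_cast h2
  refine (Finset.sum_le_sum hle).trans ?_
  have h1 : ∑ y ∈ Finset.Ico (0 : ℤ) N, Ers (9 / 10) (sprimes w z) (2 * W * y + c) =
      ∑ p ∈ sprimes w z, (p : ℝ) ^ (-(9 / 10 : ℝ)) *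
        ((Finset.Ico (0 : ℤ) N).filter (fun h : ℤ => (p : ℤ) ∣ 2 * W * h + c)).card := by
    unfold Ers
    simp_rw [Finset.sum_filter]
    rw [Finset.sum_comm]
    apply Finset.sum_congr rfl
    intro p _
    rw [← Finset.sum_filter, Finset.sum_const, nsmul_eq_mul, mul_comm]
  rw [h1]
  have h2 : ∑ p ∈ sprimes w z, (p : ℝ) ^ (-(9 / 10 : ℝ)) *
        ((Finset.Ico (0 : ℤ) N).filter (fun h : ℤ => (p : ℤ) ∣ 2 * W * h + c)).card ≤
      ∑ p ∈ sprimes w z, ((N : ℝ) * (p : ℝ) ^ (-1 - (9 / 10 : ℝ)) + (p : ℝ) ^ (-(9 / 10 : ℝ))) := by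
    apply Finset.sum_le_sum
    intro p hp
    have hpp := (mem_sprimes.1 hp).1
    have hpr : (0 : ℝ) < p := by exact_mod_cast hpp.pos
    have h3 := ers_count hpp (β := c) (a := 0) (b := N) (hndiv p hp) (by positivity)
    have h5 : (0 : ℝ) ≤ (p : ℝ) ^ (-(9 / 10 : ℝ)) := Real.rpow_nonneg hpr.le _
    calc (p : ℝ) ^ (-(9 / 10 : ℝ)) *
          ((Finset.Ico (0 : ℤ) N).filter (fun h : ℤ => (p : ℤ) ∣ 2 * W * h + c)).card
        ≤ (p : ℝ) ^ (-(9 / 10 : ℝ)) * (((N : ℤ) - (0 : ℤ) : ℝ) / p + 1) :=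
          mul_le_mul_of_nonneg_left h3 h5
      _ = (N : ℝ) * ((p : ℝ) ^ (-(9 / 10 : ℝ)) / p) + (p : ℝ) ^ (-(9 / 10 : ℝ)) := by
          push_cast; ring
      _ = _ := by
          rw [← Real.rpow_sub_one hpr.ne']
          have : -(9 / 10 : ℝ) - 1 = -1 - 9 / 10 := by ring
          rw [this]
  refine h2.trans ?_
  rw [Finset.sum_add_distrib, ← Finset.mul_sum]
  have hsub : sprimes w z ⊆ Finset.Ioc w z := by
    intro p hp
    rw [Finset.mem_Ioc]
    exact (mem_sprimes.1 hp).2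
  have h3 : ∑ p ∈ sprimes w z, (p : ℝ) ^ (-1 - (9 / 10 : ℝ)) ≤
      ∑ n ∈ Finset.Ioc w z, (n : ℝ) ^ (-1 - (9 / 10 : ℝ)) :=
    Finset.sum_le_sum_of_subset_of_nonneg hsub (fun _ _ _ => Real.rpow_nonneg (Nat.cast_nonneg _) _)
  have h4 := ers_tail (9 / 10) (by norm_num) w z (by omega)
  have h5 : ∑ p ∈ sprimes w z, (p : ℝ) ^ (-1 - (9 / 10 : ℝ)) ≤
      10 / 9 * (w : ℝ) ^ (-(9 / 10 : ℝ)) := by
    linarith
  have h6 := swc_crude w z M hM
  have h7 : (z : ℝ) = 10 * W * N := by rw [hz]; push_cast; ring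
  rw [h7] at h6
  have h8 := mul_le_mul_of_nonneg_left h5 (Nat.cast_nonneg (α := ℝ) N)
  linarith

open Classical in
/-- Chunk SWC. Similarly, `∑_{y < N} Et(c + 2 W y) ≤ ∑_{w < p ≤ 20 W N} p^(-9/10) (N / p + 1)
≤ C N w^(-9/10)` for large `N`. -/
theorem etc_few (ε : ℝ) (hε : 0 < ε) : ∃ w0 : ℕ, ∀ w W : ℕ, w0 ≤ w → IsW w W → ∃ N0 : ℕ,
    ∀ N : ℕ, N0 ≤ N → ∀ c : ℤ, |c| ≤ 8 * W →
    (((Finset.Ico (0 : ℤ) N).filter fun y => c + 2 * W * y = 0 ∨
      (w : ℝ) ^ (-(1 / 4 : ℝ)) < Et w (c + 2 * W * y)).card : ℝ) ≤ ε * N := by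
  -- the choice of `w0`
  have ht : Filter.Tendsto (fun w : ℕ => (w : ℝ) ^ (-(13 / 20 : ℝ))) Filter.atTop (nhds 0) :=
    (tendsto_rpow_neg_atTop (by norm_num : (0 : ℝ) < 13 / 20)).comp tendsto_natCast_atTop_atTop
  obtain ⟨w1, hw1⟩ := Filter.eventually_atTop.1
    (ht.eventually (gt_mem_nhds (show (0 : ℝ) < ε / 4 by positivity)))
  refine ⟨max w1 2, fun w W hw hW => ?_⟩
  have hw2 : 2 ≤ w := (le_max_right _ _).trans hw
  have hw3 := hw1 w ((le_max_left _ _).trans hw)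
  have hwr : (0 : ℝ) < w := by exact_mod_cast (by omega : 0 < w)
  have hW0 : 0 < W := hW.1
  set θ : ℝ := (w : ℝ) ^ (-(1 / 4 : ℝ)) with hθ
  have hθ0 : 0 < θ := Real.rpow_pos_of_pos hwr _
  -- `δ`
  set δ : ℝ := θ * ε / 8 with hδ
  have hδ0 : 0 < δ := by positivity
  have ht2 : Filter.Tendsto (fun N : ℕ => 10 * (W : ℝ) * (δ * N) ^ (-(9 / 10 : ℝ))) Filter.atTop
      (nhds (10 * (W : ℝ) * 0)) := by
    apply Filter.Tendsto.const_mul
    exact (tendsto_rpow_neg_atTop (by norm_num : (0 : ℝ) < 9 / 10)).comp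
      (Filter.Tendsto.const_mul_atTop hδ0 tendsto_natCast_atTop_atTop)
  rw [mul_zero] at ht2
  obtain ⟨N1, hN1⟩ := Filter.eventually_atTop.1 (ht2.eventually (gt_mem_nhds hδ0))
  obtain ⟨N2, hN2⟩ := exists_nat_gt (4 / ε)
  refine ⟨max (max N1 N2) 1, fun N hN c hc => ?_⟩
  have hN1' : 1 ≤ N := (le_max_right _ _).trans hN
  have hNr : (0 : ℝ) < N := by exact_mod_cast (by omega : 0 < N)
  have a1 := hN1 N (((le_max_left _ _).trans (le_max_left _ _)).trans hN)
  have a2 : (N2 : ℝ) ≤ N := by exact_mod_cast (((le_max_right _ _).trans (le_max_left _ _)).trans hN)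
  have a3 : 4 / ε < N := hN2.trans_le a2
  have a4 : 1 ≤ ε / 4 * N := by
    rw [div_lt_iff₀ hε] at a3
    linarith
  have key := swc_avg hw2 hW hN1' hc (δ * N) (by positivity)
  -- Markov
  set A := (Finset.Ico (0 : ℤ) N).filter fun y => c + 2 * W * y = 0 with hA
  set B := (Finset.Ico (0 : ℤ) N).filter fun y => θ < Et w (c + 2 * W * y) with hB
  have hAB : ((Finset.Ico (0 : ℤ) N).filter fun y => c + 2 * W * y = 0 ∨
      θ < Et w (c + 2 * W * y)) = A ∪ B := Finset.filter_or _ _ _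
  rw [hAB]
  have hA1 : A.card ≤ 1 := by
    rw [Finset.card_le_one]
    intro y hy y' hy'
    rw [hA, Finset.mem_filter] at hy hy'
    have h1 : 2 * (W : ℤ) * (y - y') = 0 := by linarith [hy.2, hy'.2]
    have h2 : (2 * (W : ℤ)) ≠ 0 := by positivity
    have h3 := (mul_eq_zero.1 h1).resolve_left h2
    linarith
  have hB1 : θ * B.card ≤ ∑ y ∈ Finset.Ico (0 : ℤ) N, Et w (c + 2 * W * y) := by
    calc θ * B.card = ∑ y ∈ B, θ := by rw [Finset.sum_const, nsmul_eq_mul, mul_comm]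
      _ ≤ ∑ y ∈ B, Et w (c + 2 * W * y) := by
          apply Finset.sum_le_sum
          intro y hy
          rw [hB, Finset.mem_filter] at hy
          exact hy.2.le
      _ ≤ _ := by
          apply Finset.sum_le_sum_of_subset_of_nonneg (Finset.filter_subset _ _)
          intro y _ _
          exact swc_et_nonneg _ _
  have e1 : (w : ℝ) ^ (-(9 / 10 : ℝ)) = θ * (w : ℝ) ^ (-(13 / 20 : ℝ)) := by
    rw [hθ, ← Real.rpow_add hwr]
    norm_num
  have b1 : 10 * (W : ℝ) * N * (δ * N) ^ (-(9 / 10 : ℝ)) ≤ δ * N := by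
    have : 10 * (W : ℝ) * N * (δ * N) ^ (-(9 / 10 : ℝ)) =
        (10 * (W : ℝ) * (δ * N) ^ (-(9 / 10 : ℝ))) * N := by ring
    rw [this]
    exact mul_le_mul_of_nonneg_right a1.le hNr.le
  have b2 : θ * B.card ≤ θ * (10 / 9 * N * (w : ℝ) ^ (-(13 / 20 : ℝ)) + ε / 4 * N) := by
    refine hB1.trans (key.trans ?_)
    rw [e1]
    have : δ * N + δ * N = θ * (ε / 4 * N) := by rw [hδ]; ring
    nlinarith
  have b3 : (B.card : ℝ) ≤ 10 / 9 * N * (w : ℝ) ^ (-(13 / 20 : ℝ)) + ε / 4 * N :=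
    le_of_mul_le_mul_left b2 hθ0
  have b4 : 10 / 9 * (N : ℝ) * (w : ℝ) ^ (-(13 / 20 : ℝ)) ≤ 10 / 9 * N * (ε / 4) :=
    mul_le_mul_of_nonneg_left hw3.le (by positivity)
  have c1 : ((A ∪ B).card : ℝ) ≤ A.card + B.card := by exact_mod_cast Finset.card_union_le _ _
  have c2 : (A.card : ℝ) ≤ 1 := by exact_mod_cast hA1
  have c3 : 0 ≤ ε * N := by positivity
  linarith

/-- `SW(d) ≤ exp(2 ∑ 1/p)` -/
theorem swc_SW_le {w : ℕ} (hw : 2 ≤ w) (d : ℤ) : SW w d ≤ Real.exp (2 * Et w d) := by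
  unfold SW Et
  rw [Finset.mul_sum, Real.exp_sum]
  apply Finset.prod_le_prod
  · intro p hp
    have h1 : 1 < p := (Nat.prime_of_mem_primeFactors (mem_filter.1 hp).1).one_lt
    have h2 : (1 : ℝ) < p := by exact_mod_cast h1
    rw [inv_nonneg, sub_nonneg, div_le_one (by linarith)]
    exact h2.le
  · intro p hp
    have h1 : w < p := (mem_filter.1 hp).2
    have h2 : (2 : ℝ) < p := by exact_mod_cast (by omega : 2 < p)
    have h3 : 1 / (p : ℝ) ≤ (p : ℝ) ^ (-(9 / 10 : ℝ)) := by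
      rw [one_div, ← Real.rpow_neg_one]
      exact Real.rpow_le_rpow_of_exponent_le (by linarith) (by norm_num)
    set x : ℝ := 1 / (p : ℝ) with hx
    have hx0 : 0 < x := by rw [hx]; positivity
    have hx1 : x < 1 / 2 := by
      rw [hx]
      exact one_div_lt_one_div_of_lt (by norm_num) h2
    calc (1 - x)⁻¹ ≤ 1 + 2 * x := by
          rw [inv_le_iff_one_le_mul₀ (by linarith)]
          nlinarith
      _ ≤ Real.exp (2 * x) := by
          have := Real.add_one_le_exp (2 * x)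
          linarith
      _ ≤ Real.exp (2 * (p : ℝ) ^ (-(9 / 10 : ℝ))) := Real.exp_le_exp.2 (by linarith)

open Classical in
/-- Chunk SWC. `log SW(d) ≤ ∑_{p ∣ d, p > w} 2 / p`, and
`∑_{y < N} ∑_{p ∣ c + 2 W y, p > w} 2 / p ≤ ∑_{w < p ≤ 20 W N} (2 / p) (N / p + 1) ≤ 3 N / w` for
large `N` (for `p ∤ 2 W` the congruence has one solution mod `p`); Markov. -/
theorem swc (ε : ℝ) (hε : 0 < ε) : ∃ w0 : ℕ, ∀ w W : ℕ, w0 ≤ w → IsW w W → ∃ N0 : ℕ,
    ∀ N : ℕ, N0 ≤ N → ∀ c : ℤ, |c| ≤ 8 * W →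
    (((Finset.Ico (0 : ℤ) N).filter fun y => c + 2 * W * y = 0 ∨ 2 < SW w (c + 2 * W * y)).card : ℝ) ≤
      ε * N := by
  obtain ⟨w0, hw0⟩ := etc_few ε hε
  refine ⟨max w0 81, fun w W hw hW => ?_⟩
  obtain ⟨N0, hN0⟩ := hw0 w W ((le_max_left _ _).trans hw) hW
  refine ⟨N0, fun N hN c hc => ?_⟩
  refine le_trans ?_ (hN0 N hN c hc)
  have hw81 : 81 ≤ w := (le_max_right _ _).trans hw
  have hsub : ((Finset.Ico (0 : ℤ) N).filter fun y => c + 2 * W * y = 0 ∨
      2 < SW w (c + 2 * W * y)) ⊆ (Finset.Ico (0 : ℤ) N).filter fun y => c + 2 * W * y = 0 ∨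
      (w : ℝ) ^ (-(1 / 4 : ℝ)) < Et w (c + 2 * W * y) := by
    intro y hy
    rw [Finset.mem_filter] at hy ⊢
    refine ⟨hy.1, ?_⟩
    rcases hy.2 with h | h
    · exact Or.inl h
    · right
      have h1 := swc_SW_le (by omega : 2 ≤ w) (c + 2 * W * y)
      have h2 : (2 : ℝ) < Real.exp (2 * Et w (c + 2 * W * y)) := h.trans_le h1
      have h3 : Real.log 2 < 2 * Et w (c + 2 * W * y) := by
        rwa [Real.log_lt_iff_lt_exp (by norm_num)]
      have h4 : (0.69 : ℝ) < Real.log 2 := by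
        have := Real.log_two_gt_d9
        linarith
      have h5 : (w : ℝ) ^ (-(1 / 4 : ℝ)) ≤ 1 / 3 := by
        have h6 : (81 : ℝ) ≤ w := by exact_mod_cast hw81
        calc (w : ℝ) ^ (-(1 / 4 : ℝ)) ≤ (81 : ℝ) ^ (-(1 / 4 : ℝ)) :=
              Real.rpow_le_rpow_of_nonpos (by norm_num) h6 (by norm_num)
          _ = 1 / 3 := by
              have : (81 : ℝ) = 3 ^ (4 : ℝ) := by norm_num
              rw [this, ← Real.rpow_mul (by norm_num)]
              norm_num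
      linarith
  exact_mod_cast Finset.card_le_card hsub

end Pool.Agent.Lib.H18GB
end

-- from Lib.H18GB2.Adm
section

/-!
# Project GB2: ADM (admissible weights)
-/

namespace Pool.Agent.Lib.H18GB

open Finset Pool.Agent.Lib.Sieve

/-- admissible weights: bounded; dominated by the primes `2 W x + b`; by the pairs of primes
`b + W x`, `b' - W x` (normalised); by the triples of primes `b + W x`, `b' - W x`, `2 W x + b''` with
almost trivial arithmetic factors -/
def Adm (w W N : ℕ) (F : ℤ → ℝ) : Prop :=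
  (∀ x, 0 ≤ F x) ∧
  ((∀ x, F x ≤ 1) ∨
  (∃ b : ℤ, |b| ≤ 4 * W ∧ ∀ x, F x ≤ lamv W (2 * W * x + b)) ∨
  (∃ b b' : ℤ, |b| ≤ 4 * W * N ∧ |b'| ≤ 4 * W * N ∧ b + b' ≠ 0 ∧
    ∀ x, F x ≤ lamv W (b + W * x) * lamv W (b' - W * x) / SW w (b + b')) ∨
  (∃ b b' b'' : ℤ, |b| ≤ 4 * W * N ∧ |b'| ≤ 4 * W * N ∧ |b''| ≤ 4 * W ∧ b + b' ≠ 0 ∧
    b'' - 2 * b ≠ 0 ∧ b'' + 2 * b' ≠ 0 ∧ SW w (b + b') ≤ 2 ∧
    Et w (b'' - 2 * b) ≤ (w : ℝ) ^ (-(1 / 4 : ℝ)) ∧ Et w (b'' + 2 * b') ≤ (w : ℝ) ^ (-(1 / 4 : ℝ)) ∧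
    ∀ x, F x ≤ lamv W (b + W * x) * lamv W (b' - W * x) * lamv W (2 * W * x + b'')))

/-- `F` is dominated by `K` times a weight of the given shape, except on the set `B` -/
def DomBy (ι υ : Type) [Fintype ι] [Fintype υ] (S : Finset ℕ) (w W N : ℕ) (K : ℝ) (B : Finset ℤ)
    (F : ℤ → ℝ) : Prop :=
  ∃ g : GW ι υ, g.ok S W ((w : ℝ) ^ (-(1 / 4 : ℝ))) ∧
    ∀ x ∈ Finset.Ico (0 : ℤ) N, x ∉ B → F x ≤ K * g.val S W x


theorem adm_prod1 (L a : ℝ) (hL : 0 ≤ L) (h1 : a ≤ L) : a ≤ (1 + L) ^ 3 := by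
  nlinarith [sq_nonneg L, mul_nonneg hL (sq_nonneg L), mul_nonneg hL hL]

theorem adm_ers {w W z : ℕ} (hW : IsW w W) {d e : ℤ} (hd : d ≠ 0)
    (he : e = W * d ∨ e = -(W * d)) {η : ℝ} (h : Et w d ≤ η) :
    Ers (9 / 10) (sprimes w z) e ≤ η := by
  have hS := pset_sprimes w z
  have h1 : Ers (9 / 10) (sprimes w z) e = Ers (9 / 10) (sprimes w z) d := by
    rcases he with rfl | rfl
    · exact ers_mul hS.prime _ _ _ (hW.not_dvd hS)
    · have : -((W : ℤ) * d) = (-(W : ℤ)) * d := by ring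
      rw [this]
      exact ers_mul hS.prime _ _ _ (unit_neg (hW.not_dvd hS))
  rw [h1]
  exact (ers_le_et hd).trans h

/-- Chunk ADM1. `majo` and `SGp_le_SW`, `ers_le_et` (`rho` is even; a unit `W` in a discriminant does
not matter: `ers_mul`); `B` is the set of the `x` for which one of the numbers is `≤ rt s N` in absolute
value (`card_bad`). -/
theorem adm_dom : ∃ K : ℝ, 1 ≤ K ∧ ∀ s : ℕ, 2 ≤ s → ∃ w0 : ℕ, ∀ w W : ℕ, w0 ≤ w → IsW w W →
    ∃ N0 : ℕ, ∀ N : ℕ, N0 ≤ N → ∀ F : ℤ → ℝ, Adm w W N F →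
    (∀ x ∈ Finset.Ico (0 : ℤ) N, F x ≤ (1 + LL W N) ^ 3) ∧
    ∃ B : Finset ℤ, B.card ≤ 6 * rt s N + 3 ∧
    (DomBy Empty Empty (sprimes w (rt s N)) w W N (K * s ^ 3) B F ∨
      DomBy Unit Empty (sprimes w (rt s N)) w W N (K * s ^ 3) B F ∨
      DomBy Empty Unit (sprimes w (rt s N)) w W N (K * s ^ 3) B F ∨
      DomBy Unit Unit (sprimes w (rt s N)) w W N (K * s ^ 3) B F) := by
  obtain ⟨C, hC, hmaj⟩ := majo
  refine ⟨2 * C ^ 3, by nlinarith [pow_le_pow_left₀ (by norm_num) hC 3], fun s hs => ⟨2, fun w W hw hW => ?_⟩⟩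
  obtain ⟨N1, hN1⟩ := hmaj s (by omega) w W hW
  refine ⟨max N1 8, fun N hN F hF => ?_⟩
  have hN8 : 8 ≤ N := le_trans (le_max_right _ _) hN
  have hNp : 0 < N := by omega
  have hW0 : 0 < W := hW.1
  have hm := hN1 N (le_trans (le_max_left _ _) hN)
  set z := rt s N with hz
  set S := sprimes w z with hSd
  have hS : PSet w z S := pset_sprimes w z
  have hs1 : (1 : ℝ) ≤ s := by exact_mod_cast (by omega : 1 ≤ s)
  have hCs : 1 ≤ C * s := by nlinarith
  have hLL := LL_nonneg (W := W) (N := N) hW0 hNp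
  have hWZ : (0 : ℤ) < W := by exact_mod_cast hW0
  have hNZ : (8 : ℤ) ≤ N := by exact_mod_cast hN8
  -- bounds of the forms
  have hb1 : ∀ x ∈ Finset.Ico (0 : ℤ) N, ∀ b : ℤ, |b| ≤ 4 * W → |2 * W * x + b| ≤ 5 * W * N := by
    intro x hx b hb
    rw [Finset.mem_Ico] at hx
    rw [abs_le] at hb ⊢
    constructor <;> nlinarith
  have hb2 : ∀ x ∈ Finset.Ico (0 : ℤ) N, ∀ b : ℤ, |b| ≤ 4 * W * N → |b + W * x| ≤ 5 * W * N := by
    intro x hx b hb
    rw [Finset.mem_Ico] at hx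
    rw [abs_le] at hb ⊢
    constructor <;> nlinarith
  have hb3 : ∀ x ∈ Finset.Ico (0 : ℤ) N, ∀ b : ℤ, |b| ≤ 4 * W * N → |b - W * x| ≤ 5 * W * N := by
    intro x hx b hb
    rw [Finset.mem_Ico] at hx
    rw [abs_le] at hb ⊢
    constructor <;> nlinarith
  have hbadmem : ∀ (b c x : ℤ), x ∈ Finset.Ico (0 : ℤ) N → x ∉ bad N b c z → (z : ℤ) < |b + c * x| := by
    intro b c x hx h
    rw [bad, Finset.mem_filter, not_and] at h
    exact not_le.mp (h hx)
  have hr0 : ∀ v, 0 ≤ rho S v := rho_nonneg hS.prime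
  rcases hF with ⟨hF0, hF | ⟨b, hb, hF⟩ | ⟨b, b', hb, hb', hbb, hF⟩ |
    ⟨b, b', b'', hb, hb', hb'', hbb, hn1, hn2, hsw, he1, he2, hF⟩⟩
  · refine ⟨fun x _ => (hF x).trans (one_le_pow₀ (by linarith)), ∅, by simp, Or.inl ?_⟩
    refine ⟨⟨fun _ => 1, fun _ => 0⟩, ⟨fun _ => by norm_num, fun i => ?_⟩, fun x _ _ => ?_⟩
    · rcases i with i | i
      · exact i.elim
      · exact i.1.elim
    · have : (⟨fun _ => 1, fun _ => 0⟩ : GW Empty Empty).val S W x = 1 := by
        simp [GW.val]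
      rw [this, mul_one]
      refine (hF x).trans ?_
      have : 1 ≤ C ^ 3 := one_le_pow₀ hC
      have h3 : 1 ≤ (s : ℝ) ^ 3 := one_le_pow₀ hs1
      nlinarith
  · refine ⟨fun x hx => ?_, bad N b (2 * W) z, (card_bad (by positivity) z).trans (by omega),
      Or.inr (Or.inl ?_)⟩
    · refine (hF x).trans (adm_prod1 _ _ hLL (lamv_le hW0 hNp (hb1 x hx b hb)))
    refine ⟨⟨fun _ => 2, fun _ => b⟩, ⟨fun _ => by norm_num, fun i j hij => ?_⟩, fun x hx hxB => ?_⟩
    · rcases i with i | i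
      · rcases j with j | j
        · exact absurd (by rw [Subsingleton.elim i j]) hij.1
        · exact j.1.elim
      · exact i.1.elim
    · have h1 := hbadmem _ _ _ hx hxB
      have h2 := hm (2 * W * x + b) (hb1 x hx b hb) (by rw [add_comm]; exact h1)
      have h3 : (⟨fun _ => 2, fun _ => b⟩ : GW Unit Empty).val S W x = rho S (2 * W * x + b) := by
        simp [GW.val]
      rw [h3]
      refine (hF x).trans (h2.trans (mul_le_mul_of_nonneg_right ?_ (hr0 _)))
      have h5 : C ≤ C ^ 3 := by nlinarith [sq_nonneg (C - 1)]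
      have h6 : (s : ℝ) ≤ (s : ℝ) ^ 3 := by nlinarith [sq_nonneg ((s : ℝ) - 1)]
      calc C * s ≤ C ^ 3 * (s : ℝ) ^ 3 := by gcongr
        _ ≤ 2 * C ^ 3 * (s : ℝ) ^ 3 := by nlinarith [mul_nonneg (pow_nonneg (by linarith : 0 ≤ C) 3) (pow_nonneg (by linarith : (0 : ℝ) ≤ s) 3)]
  · have hsgp := SGp_le_SW (z := z) hW (by omega : 2 ≤ w) hbb
    have hSW1 : 1 ≤ SW w (b + b') := rcn_one_le_SW hw _
    refine ⟨fun x hx => ?_, bad N b W z ∪ bad N b' (-W) z, ?_, Or.inr (Or.inr (Or.inl ?_))⟩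
    · refine (hF x).trans ?_
      have h1 := lamv_le hW0 hNp (hb2 x hx b hb)
      have h2 := lamv_le hW0 hNp (hb3 x hx b' hb')
      have h3 := lamv_nonneg W (b + W * x)
      have h4 := lamv_nonneg W (b' - W * x)
      have h5 : lamv W (b + W * x) * lamv W (b' - W * x) ≤ LL W N * LL W N := by gcongr
      refine (div_le_self (by positivity) hSW1).trans (h5.trans ?_)
      nlinarith [mul_nonneg hLL hLL, mul_nonneg hLL (mul_nonneg hLL hLL)]
    · refine (Finset.card_union_le _ _).trans ?_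
      have h1 := card_bad (N := N) (b := b) (c := W) (by positivity) z
      have h2 := card_bad (N := N) (b := b') (c := -W) (by
        have : (W : ℤ) ≠ 0 := by positivity
        exact neg_ne_zero.mpr this) z
      omega
    refine ⟨⟨fun i => match i with
        | .inl i => i.elim
        | .inr (_, false) => 1
        | .inr (_, true) => -1, fun i => match i with
        | .inl i => i.elim
        | .inr (_, false) => b
        | .inr (_, true) => b'⟩, ⟨fun i => ?_, fun i j hij => ?_⟩, fun x hx hxB => ?_⟩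
    · rcases i with i | ⟨i, a⟩
      · exact i.elim
      · cases a <;> norm_num
    · rcases i with i | ⟨i, a⟩
      · exact i.elim
      · rcases j with j | ⟨j, a'⟩
        · exact j.elim
        · exact absurd ⟨(), a, a', rfl, rfl⟩ hij.2
    · rw [Finset.mem_union, not_or] at hxB
      have h1 := hbadmem _ _ _ hx hxB.1
      have h2 := hbadmem _ _ _ hx hxB.2
      have m1 := hm (b + W * x) (hb2 x hx b hb) h1
      have m2 := hm (b' - W * x) (hb3 x hx b' hb') (by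
        have : b' + -(W : ℤ) * x = b' - W * x := by ring
        rw [← this]; exact h2)
      simp only [GW.val, Finset.univ_unique, Finset.univ_eq_empty, Finset.prod_empty, one_mul,
        Finset.prod_singleton]
      have e1 : (W : ℤ) * x + b = b + W * x := by ring
      have e2 : (-1 : ℤ) * W * x + b' = b' - W * x := by ring
      have e3 : (W : ℤ) * b' - -1 * W * b = W * (b + b') := by ring
      rw [e1, e2, e3]
      refine (hF x).trans ?_
      have h3 := lamv_nonneg W (b + W * x)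
      have h4 := lamv_nonneg W (b' - W * x)
      have r1 := hr0 (b + W * x)
      have r2 := hr0 (b' - W * x)
      have hC0 : 0 ≤ C := by linarith
      have h5 : lamv W (b + W * x) * lamv W (b' - W * x) ≤
          (C * s * rho S (b + W * x)) * (C * s * rho S (b' - W * x)) := by gcongr
      have h6 : lamv W (b + W * x) * lamv W (b' - W * x) / SW w (b + b') ≤
          (C * s * rho S (b + W * x)) * (C * s * rho S (b' - W * x)) /
            SGp S (W * (b + b')) := by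
        apply div_le_div₀ (by have := hr0 (b + W * x); have := hr0 (b' - W * x); positivity) h5
          hsgp.1 hsgp.2
      refine h6.trans ?_
      have h7 : (C * s * rho S (b + W * x)) * (C * s * rho S (b' - W * x)) /
            SGp S (W * (b + b')) = (C * s) ^ 2 * (rho S (b + W * x) * rho S (b' - W * x) /
            SGp S (W * (b + b'))) := by ring
      rw [h7]
      apply mul_le_mul_of_nonneg_right _ (div_nonneg (mul_nonneg (hr0 _) (hr0 _)) hsgp.1.le)
      calc (C * s) ^ 2 ≤ (C * s) ^ 3 := pow_le_pow_right₀ hCs (by norm_num)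
        _ ≤ 2 * C ^ 3 * (s : ℝ) ^ 3 := by
          rw [mul_pow]
          nlinarith [mul_nonneg (pow_nonneg (by linarith : 0 ≤ C) 3) (pow_nonneg (by linarith : (0 : ℝ) ≤ s) 3)]
  · have hsgp := SGp_le_SW (z := z) hW (by omega : 2 ≤ w) hbb
    refine ⟨fun x hx => ?_, bad N b W z ∪ bad N b' (-W) z ∪ bad N b'' (2 * W) z, ?_,
      Or.inr (Or.inr (Or.inr ?_))⟩
    · refine (hF x).trans ?_
      have h1 := lamv_le hW0 hNp (hb2 x hx b hb)
      have h2 := lamv_le hW0 hNp (hb3 x hx b' hb')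
      have h2' := lamv_le hW0 hNp (hb1 x hx b'' hb'')
      have h3 := lamv_nonneg W (b + W * x)
      have h4 := lamv_nonneg W (b' - W * x)
      have h4' := lamv_nonneg W (2 * W * x + b'')
      have h5 : lamv W (b + W * x) * lamv W (b' - W * x) * lamv W (2 * W * x + b'') ≤
        LL W N * LL W N * LL W N := by gcongr
      refine h5.trans ?_
      nlinarith [mul_nonneg hLL hLL, mul_nonneg hLL (mul_nonneg hLL hLL)]
    · refine (Finset.card_union_le _ _).trans ?_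
      have h0 := Finset.card_union_le (bad N b W z) (bad N b' (-W) z)
      have h1 := card_bad (N := N) (b := b) (c := W) (by positivity) z
      have h2 := card_bad (N := N) (b := b') (c := -W) (by
        have : (W : ℤ) ≠ 0 := by positivity
        exact neg_ne_zero.mpr this) z
      have h3 := card_bad (N := N) (b := b'') (c := 2 * W) (by positivity) z
      omega
    refine ⟨⟨fun i => match i with
        | .inl _ => 2
        | .inr (_, false) => 1
        | .inr (_, true) => -1, fun i => match i with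
        | .inl _ => b''
        | .inr (_, false) => b
        | .inr (_, true) => b'⟩, ⟨fun i => ?_, fun i j hij => ?_⟩, fun x hx hxB => ?_⟩
    · rcases i with i | ⟨i, a⟩
      · norm_num
      · cases a <;> norm_num
    · rcases i with i | ⟨i, a⟩
      · rcases j with j | ⟨j, a'⟩
        · exact absurd (by rw [Subsingleton.elim i j]) hij.1
        · cases a'
          · exact adm_ers hW hn1 (Or.inr (by ring)) he1
          · exact adm_ers hW hn2 (Or.inl (by ring)) he2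
      · rcases j with j | ⟨j, a'⟩
        · cases a
          · exact adm_ers hW hn1 (Or.inl (by ring)) he1
          · exact adm_ers hW hn2 (Or.inr (by ring)) he2
        · exact absurd ⟨(), a, a', rfl, rfl⟩ hij.2
    · rw [Finset.mem_union, Finset.mem_union, not_or, not_or] at hxB
      have h1 := hbadmem _ _ _ hx hxB.1.1
      have h2 := hbadmem _ _ _ hx hxB.1.2
      have h2' := hbadmem _ _ _ hx hxB.2
      have m1 := hm (b + W * x) (hb2 x hx b hb) h1
      have m2 := hm (b' - W * x) (hb3 x hx b' hb') (by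
        have : b' + -(W : ℤ) * x = b' - W * x := by ring
        rw [← this]; exact h2)
      have m3 := hm (2 * W * x + b'') (hb1 x hx b'' hb'') (by rw [add_comm]; exact h2')
      simp only [GW.val, Finset.univ_unique, Finset.prod_singleton]
      have e1 : (1 : ℤ) * W * x + b = b + W * x := by ring
      have e2 : (-1 : ℤ) * W * x + b' = b' - W * x := by ring
      have e3 : (1 : ℤ) * W * b' - -1 * W * b = W * (b + b') := by ring
      rw [e1, e2, e3]
      refine (hF x).trans ?_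
      have h3 := lamv_nonneg W (b + W * x)
      have h4 := lamv_nonneg W (b' - W * x)
      have h4' := lamv_nonneg W (2 * W * x + b'')
      have r1 := hr0 (b + W * x)
      have r2 := hr0 (b' - W * x)
      have r3 := hr0 (2 * W * x + b'')
      have hC0 : 0 ≤ C := by linarith
      have h5 : lamv W (b + W * x) * lamv W (b' - W * x) * lamv W (2 * W * x + b'') ≤
          (C * s * rho S (b + W * x)) * (C * s * rho S (b' - W * x)) *
            (C * s * rho S (2 * W * x + b'')) := by gcongr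
      refine h5.trans ?_
      have h8 : 1 ≤ 2 / SGp S (W * (b + b')) := by
        rw [one_le_div hsgp.1]
        exact hsgp.2.trans hsw
      calc (C * s * rho S (b + W * x)) * (C * s * rho S (b' - W * x)) *
            (C * s * rho S (2 * W * x + b''))
          = (C * s) ^ 3 * (rho S (2 * W * x + b'') * (rho S (b + W * x) * rho S (b' - W * x))) * 1 := by
            ring
        _ ≤ (C * s) ^ 3 * (rho S (2 * W * x + b'') * (rho S (b + W * x) * rho S (b' - W * x))) *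
              (2 / SGp S (W * (b + b'))) := by gcongr
        _ = _ := by ring

/-- powers of the logarithm are negligible -/
theorem adm_small (k : ℕ) (W : ℕ) (hW : 0 < W) (ε : ℝ) (hε : 0 < ε) : ∃ N0 : ℕ, ∀ N : ℕ, N0 ≤ N →
    ∀ s : ℕ, 2 ≤ s → (6 * rt s N + 3) * (1 + LL W N) ^ k ≤ ε * N := by
  have h1 : ∀ᶠ N : ℕ in Filter.atTop,
      (Real.log N) ^ (k : ℝ) ≤ ε / (9 * 3 ^ k) * (N : ℝ) ^ (1 / 2 : ℝ) := by
    have h := (isLittleO_log_rpow_rpow_atTop (s := 1 / 2) (k : ℝ) (by norm_num)).bound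
      (show 0 < ε / (9 * 3 ^ k) by positivity)
    have h' := tendsto_natCast_atTop_atTop.eventually h
    filter_upwards [h', Filter.eventually_ge_atTop 1] with N hN hN1
    rw [Real.norm_of_nonneg (by positivity), Real.norm_of_nonneg (by positivity)] at hN
    exact hN
  have h2 : ∀ᶠ N : ℕ in Filter.atTop, (1 : ℝ) ≤ Real.log N :=
    (Real.tendsto_log_atTop.comp tendsto_natCast_atTop_atTop).eventually_ge_atTop 1
  have h3 : ∀ᶠ N : ℕ in Filter.atTop, 5 * W ≤ N := Filter.eventually_ge_atTop _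
  have h4 : ∀ᶠ N : ℕ in Filter.atTop, 1 ≤ N := Filter.eventually_ge_atTop _
  obtain ⟨N0, hN0⟩ := Filter.eventually_atTop.mp (h1.and (h2.and (h3.and h4)))
  refine ⟨N0, fun N hN s hs => ?_⟩
  obtain ⟨a1, a2, a3, a4⟩ := hN0 N hN
  have hNr : (1 : ℝ) ≤ N := by exact_mod_cast a4
  have hWr : (1 : ℝ) ≤ W := by exact_mod_cast hW
  have hL : LL W N ≤ 2 * Real.log N := by
    unfold LL
    rw [Real.log_mul (by positivity) (by positivity)]
    have : Real.log (5 * W) ≤ Real.log N := Real.log_le_log (by positivity) (by exact_mod_cast a3)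
    linarith
  have hL0 := LL_nonneg hW a4
  have hsq : 1 ≤ Real.sqrt N := Real.one_le_sqrt.mpr hNr
  have hss : Real.sqrt N * Real.sqrt N = N := Real.mul_self_sqrt (by linarith)
  rw [Real.rpow_natCast, ← Real.sqrt_eq_rpow] at a1
  have b0 := rt_sq_le hs N
  have b1 : 1 + LL W N ≤ 3 * Real.log N := by linarith
  calc (6 * rt s N + 3) * (1 + LL W N) ^ k
      ≤ (9 * Real.sqrt N) * (3 * Real.log N) ^ k := by
        apply mul_le_mul (by linarith) (pow_le_pow_left₀ (by linarith) b1 k) (by positivity)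
          (by positivity)
    _ = (9 * 3 ^ k * Real.sqrt N) * (Real.log N) ^ k := by rw [mul_pow]; ring
    _ ≤ (9 * 3 ^ k * Real.sqrt N) * (ε / (9 * 3 ^ k) * Real.sqrt N) :=
        mul_le_mul_of_nonneg_left a1 (by positivity)
    _ = ε * (Real.sqrt N * Real.sqrt N) := by field_simp
    _ = ε * N := by rw [hss]

/-- the sum of a weight -/
theorem adm_gsum (ι υ : Type) [Fintype ι] [Fintype υ] : ∃ C : ℕ, 2 ≤ C ∧
    ∀ (A w z W N : ℕ) (S : Finset ℕ), Stp C A w z W N S →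
    ∀ (g : GW ι υ) (η : ℝ), 0 ≤ η → η ≤ 1 → g.ok S W η →
    ∑ x ∈ Finset.Ico (0 : ℤ) N, g.val S W x ≤ C * N := by
  classical
  obtain ⟨C0, hC0, h0⟩ := corr_sub ι υ
  set n : ℕ := Fintype.card (ι ⊕ (υ × Bool)) with hn
  refine ⟨1 + 2 * C0 + C0 * n ^ 2 + 2 * C0 + Fintype.card ι + 2 * Fintype.card υ + 2, by omega, ?_⟩
  intro A w z W N S hst g η hη hη1 hg
  set C : ℕ := 1 + 2 * C0 + C0 * n ^ 2 + 2 * C0 + Fintype.card ι + 2 * Fintype.card υ + 2 with hC
  have hCC0 : C0 ≤ C := by omega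
  have hz := hst.hz
  have hS := hst.hS
  have hw1 : 1 ≤ w := hst.w_pos (by omega)
  have hα : ∀ p ∈ S, ∀ i, ¬ (p : ℤ) ∣ g.e i * W := by
    intro p hp i
    exact unit_mul hS (hst.unit_small (by omega) (hg.1 i).1 (hg.1 i).2) hst.unitW p hp
  have key := h0 A w z S (hCC0.trans hst.hA) (hCC0.trans hst.hw) hz hS (fun i => g.e i * W)
    (fun i => g.b i) hα Finset.univ Finset.univ 0 N (by positivity)
  have e1 : ∀ x : ℤ, g.val S W x =
      (∏ i ∈ (Finset.univ : Finset ι), rho S (g.e (.inl i) * W * x + g.b (.inl i))) *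
        (∏ j ∈ (Finset.univ : Finset υ), rho S (g.e (.inr (j, false)) * W * x + g.b (.inr (j, false))) *
          rho S (g.e (.inr (j, true)) * W * x + g.b (.inr (j, true))) /
          SGp S (disc (fun i => g.e i * W) (fun i => g.b i) (.inr (j, false)) (.inr (j, true)))) := by
    intro x
    rfl
  simp only [← e1] at key
  have h1 := (abs_le.mp key).2
  have her : er C0 A w ≤ 2 := rc_er_le_two hw1
  have hE : (∑ i, ∑ j, if crs i j then Ers (9 / 10) S (disc (fun i => g.e i * W)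
      (fun i => g.b i) i j) else 0) ≤ (n : ℝ) ^ 2 := by
    calc (∑ i, ∑ j, if crs i j then Ers (9 / 10) S (disc (fun i => g.e i * W)
      (fun i => g.b i) i j) else 0) ≤ ∑ i : ι ⊕ (υ × Bool), ∑ j : ι ⊕ (υ × Bool), (1 : ℝ) := by
          refine Finset.sum_le_sum fun i _ => Finset.sum_le_sum fun j _ => ?_
          split_ifs with h
          · exact (hg.2 i j h).trans hη1
          · norm_num
      _ = (n : ℝ) ^ 2 := by
          simp [hn]
          ring
  have hzp : (z : ℝ) ^ (A + Fintype.card ι + 2 * Fintype.card υ) ≤ 2 * N := by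
    have h2 := hst.zpow (D := 1) le_rfl (k := Fintype.card ι + 2 * Fintype.card υ) (by omega)
    rw [← add_assoc] at h2
    refine h2.trans ?_
    gcongr
    exact rc_er_le_two hw1
  have hN0 : (0 : ℝ) ≤ N := Nat.cast_nonneg _
  have hC0' : (0 : ℝ) ≤ C0 := Nat.cast_nonneg _
  push_cast at h1
  have h3 : ∑ x ∈ Finset.Ico (0 : ℤ) N, g.val S W x ≤ N + (N * (C0 * 2 + C0 * (n : ℝ) ^ 2) + C0 * (2 * N)) := by
    calc ∑ x ∈ Finset.Ico (0 : ℤ) N, g.val S W x ≤ N + ((N - 0) * (C0 * er C0 A w +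
        C0 * ∑ i, ∑ j, if crs i j then Ers (9 / 10) S (disc (fun i => g.e i * W)
      (fun i => g.b i) i j) else 0)
        + C0 * (z : ℝ) ^ (A + Fintype.card ι + 2 * Fintype.card υ)) := by linarith
      _ ≤ _ := by
        rw [sub_zero]
        gcongr
  refine h3.trans ?_
  rw [hC]
  push_cast
  have : (0 : ℝ) ≤ (Fintype.card ι : ℝ) * N := by positivity
  have : (0 : ℝ) ≤ (Fintype.card υ : ℝ) * N := by positivity
  nlinarith

/-- Chunk ADM2. `adm_dom` with `s` a large absolute constant and `corr` (through `corr_sub`). -/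
theorem adm_sum : ∃ C : ℝ, 1 ≤ C ∧ ∃ w0 : ℕ, ∀ w W : ℕ, w0 ≤ w → IsW w W →
    ∃ N0 : ℕ, ∀ N : ℕ, N0 ≤ N → ∀ F : ℤ → ℝ, Adm w W N F →
    ∑ x ∈ Finset.Ico (0 : ℤ) N, F x ≤ C * N := by
  obtain ⟨K, hK, hdom⟩ := adm_dom
  obtain ⟨C1, hC1, h1⟩ := adm_gsum Empty Empty
  obtain ⟨C2, hC2, h2⟩ := adm_gsum Unit Empty
  obtain ⟨C3, hC3, h3⟩ := adm_gsum Empty Unit
  obtain ⟨C4, hC4, h4⟩ := adm_gsum Unit Unit
  set C : ℕ := C1 + C2 + C3 + C4 with hC
  set s : ℕ := C * C with hs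
  have hs2 : 2 ≤ s := by nlinarith
  obtain ⟨w1, hw1⟩ := hdom s hs2
  refine ⟨K * s ^ 3 * C + 1, by
    have : 0 ≤ K * s ^ 3 * C := by positivity
    linarith, w1 + C + 2, fun w W hw hW => ?_⟩
  obtain ⟨N1, hN1⟩ := hw1 w W (by omega) hW
  obtain ⟨N2, hN2⟩ := adm_small 3 W hW.1 1 one_pos
  obtain ⟨N3, hN3⟩ := Filter.eventually_atTop.mp
    ((rt_tendsto (by omega : 1 ≤ s)).eventually (Filter.eventually_ge_atTop 2))
  refine ⟨N1 + N2 + N3 + 1, fun N hN F hF => ?_⟩
  obtain ⟨hb, B, hB, hd⟩ := hN1 N (by omega) F hF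
  have hz := hN3 N (by omega)
  have hsm := hN2 N (by omega) s hs2
  set z := rt s N with hzd
  have hst : Stp C C w z W N (sprimes w z) :=
    ⟨le_rfl, by omega, hz, pset_sprimes w z, hW, rt_pow_le (by omega) N⟩
  have hLL := LL_nonneg (W := W) (N := N) hW.1 (by omega)
  have hF0 := hF.1
  have hη : (0 : ℝ) ≤ (w : ℝ) ^ (-(1 / 4 : ℝ)) := by positivity
  have hη1 : (w : ℝ) ^ (-(1 / 4 : ℝ)) ≤ 1 :=
    Real.rpow_le_one_of_one_le_of_nonpos (by exact_mod_cast (by omega : 1 ≤ w)) (by norm_num)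
  -- a general bound
  have hgen : ∀ (G : ℤ → ℝ) (C' : ℕ), C' ≤ C → (∀ x, 0 ≤ G x) →
      ∑ x ∈ Finset.Ico (0 : ℤ) N, G x ≤ C' * N →
      (∀ x ∈ Finset.Ico (0 : ℤ) N, x ∉ B → F x ≤ K * s ^ 3 * G x) →
      ∑ x ∈ Finset.Ico (0 : ℤ) N, F x ≤ (K * s ^ 3 * C + 1) * N := by
    intro G C' hC' hG0 hG hFG
    classical
    have h5 : ∀ x ∈ Finset.Ico (0 : ℤ) N, F x ≤ K * s ^ 3 * G x +
        (if x ∈ B then (1 + LL W N) ^ 3 else 0) := by
      intro x hx
      by_cases hxB : x ∈ B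
      · rw [if_pos hxB]
        have h6 := hb x hx
        have h7 : 0 ≤ K * s ^ 3 * G x := by have := hG0 x; positivity
        linarith
      · rw [if_neg hxB, add_zero]
        exact hFG x hx hxB
    refine (Finset.sum_le_sum h5).trans ?_
    rw [Finset.sum_add_distrib, ← Finset.mul_sum, ← Finset.sum_filter, Finset.sum_const,
      nsmul_eq_mul]
    have h8 : ((((Finset.Ico (0 : ℤ) N).filter fun x => x ∈ B).card : ℕ) : ℝ) ≤ 6 * z + 3 := by
      have : ((Finset.Ico (0 : ℤ) N).filter fun x => x ∈ B).card ≤ B.card :=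
        Finset.card_le_card fun x hx => (Finset.mem_filter.mp hx).2
      exact_mod_cast this.trans hB
    have h9 : ((((Finset.Ico (0 : ℤ) N).filter fun x => x ∈ B).card : ℕ) : ℝ) *
        (1 + LL W N) ^ 3 ≤ N := by
      refine (mul_le_mul_of_nonneg_right h8 (by positivity)).trans (hsm.trans ?_)
      rw [one_mul]
    have h10 : K * s ^ 3 * ∑ x ∈ Finset.Ico (0 : ℤ) N, G x ≤ K * s ^ 3 * (C * N) := by
      have h11 : (C' : ℝ) * N ≤ C * N := by
        have : (C' : ℝ) ≤ C := by exact_mod_cast hC'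
        gcongr
      have : 0 ≤ K * (s : ℝ) ^ 3 := by positivity
      exact mul_le_mul_of_nonneg_left (hG.trans h11) this
    linarith
  have hval : ∀ (ι υ : Type) [Fintype ι] [Fintype υ] (g : GW ι υ) (x : ℤ),
      0 ≤ g.val (sprimes w z) W x := by
    intro ι υ _ _ g x
    unfold GW.val
    have hr := rho_nonneg (pset_sprimes w z).prime
    refine mul_nonneg (Finset.prod_nonneg fun i _ => hr _) (Finset.prod_nonneg fun i _ => ?_)
    exact div_nonneg (mul_nonneg (hr _) (hr _)) (CorrAux.SGp_pos (pset_sprimes w z) (by omega) _).le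
  rcases hd with ⟨g, hg, hd⟩ | ⟨g, hg, hd⟩ | ⟨g, hg, hd⟩ | ⟨g, hg, hd⟩
  · exact hgen _ C1 (by omega) (hval _ _ g)
      (h1 C w z W N _ (hst.mono (by omega)) g _ hη hη1 hg) hd
  · exact hgen _ C2 (by omega) (hval _ _ g)
      (h2 C w z W N _ (hst.mono (by omega)) g _ hη hη1 hg) hd
  · exact hgen _ C3 (by omega) (hval _ _ g)
      (h3 C w z W N _ (hst.mono (by omega)) g _ hη hη1 hg) hd
  · exact hgen _ C4 (by omega) (hval _ _ g)
      (h4 C w z W N _ (hst.mono (by omega)) g _ hη hη1 hg) hd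

end Pool.Agent.Lib.H18GB
end
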