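import Pool.Agent.Lib.H1M.RV.M003
import Pool.Agent.Lib.H1M.RV.M008
import Pool.Agent.Lib.H1M.RV.M097
import Pool.Agent.Lib.H1M.RV.M100
import Pool.Agent.Lib.H1M.RV.M101

/-! Merged copies (to shorten the build) of Lib.H18GB.GR5, Lib.H18GB.GRCount, Lib.H18GB.TY3a, Lib.H18GB2.BX1. -/

-- from Lib.H18GB.GR5
section

/-!
# Project GB: GR5
-/

namespace Pool.Agent.Lib.H18GB

open Finset Pool.Agent.Lib.Sieve Pool.Agent.Lib.GoldbachGraph

/-- one half of GR5: the primes `2 W x + b` for which `v + W x` has no neighbour in the class `z0`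
over `B` have small total weight -/
theorem gr5_half {ε1 : ℝ} {W N1 : ℕ} (h2W : 2 ∣ W)
    (hN1 : ∀ N : ℕ, N1 ≤ N → ∀ (r1 r2 σ b : ℤ), |r1| < 2 * W → IsCoprime r1 (W : ℤ) →
      |r2| < 2 * W → IsCoprime r2 (W : ℤ) → (σ = 1 ∨ σ = -1) → |b| ≤ 4 * W → ∀ (F G : ℤ → ℝ),
      (∀ x, |F x| ≤ lamv W (2 * W * x + b)) → (∀ y, |G y| ≤ 1) →
      |∑ x ∈ Finset.Ico (0 : ℤ) N, ∑ y ∈ Finset.Ico (0 : ℤ) N, F x * G y * ker W r1 r2 σ x y| ≤
        ε1 * N ^ 2) {N : ℕ} (hN : N1 ≤ N) {v z0 b : ℕ} (hv : v < W) (hz : z0 < W)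
    (hb : b ≤ 4 * W) (hc : Comp W v z0) {Z B : Finset ℕ} (hZ : Z ⊆ Finset.Ico 1 N)
    (hB : B ⊆ Finset.Ico 1 N) (hno : ∀ x ∈ Z, ∀ y ∈ B, ¬ hadj (v + W * x) (z0 + W * y)) :
    (∑ x ∈ Z, lamv W (2 * W * (x : ℤ) + b)) * B.card ≤ 2 * (ε1 * N ^ 2) := by
  classical
  set F : ℤ → ℝ := fun x => lamv W (2 * W * x + b) * indZ Z x with hFdef
  have hF0 : ∀ x, 0 ≤ F x := fun x => mul_nonneg (lamv_nonneg' _ _) (indZ_nonneg _ _)
  have hFf : ∀ x, |F x| ≤ lamv W (2 * W * x + (b : ℤ)) := by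
    intro x
    rw [abs_of_nonneg (hF0 x)]
    have h1 := indZ_abs_le Z x
    rw [abs_of_nonneg (indZ_nonneg _ _)] at h1
    have h2 := lamv_nonneg' W (2 * W * x + b)
    simp only [hFdef]
    nlinarith
  have hv' : (v : ℤ) < W := by exact_mod_cast hv
  have hz' : (z0 : ℤ) < W := by exact_mod_cast hz
  have hr1 : |((v : ℤ) + z0)| < 2 * W := by
    rw [abs_lt]; constructor <;> omega
  have hr2 : |((v : ℤ) - z0)| < 2 * W := by
    rw [abs_lt]; constructor <;> omega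
  have hr2' : |(-((v : ℤ) - z0))| < 2 * W := by rw [abs_neg]; exact hr2
  have hb' : |(b : ℤ)| ≤ 4 * W := by
    rw [abs_of_nonneg (Int.natCast_nonneg b)]
    exact_mod_cast hb
  have k1 := hN1 N hN ((v : ℤ) + z0) ((v : ℤ) - z0) 1 b hr1 hc.1 hr2 hc.2 (Or.inl rfl) hb'
    F (indZ B) hFf (indZ_abs_le B)
  have k2 := hN1 N hN ((v : ℤ) + z0) (-((v : ℤ) - z0)) (-1) b hr1 hc.1 hr2' hc.2.neg_left
    (Or.inr rfl) hb' F (indZ B) hFf (indZ_abs_le B)
  have hedge : ∀ x ∈ Finset.Ico (0 : ℤ) N, ∀ y ∈ Finset.Ico (0 : ℤ) N,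
      F x * indZ B y ≠ 0 →
      lamv W (((v : ℤ) + z0) + W * (x + y)) * lamv W (((v : ℤ) - z0) + W * (x - y)) = 0 := by
    intro x _ y _ hne
    by_contra hc'
    obtain ⟨hFx, hGy⟩ := mul_ne_zero_iff.mp hne
    obtain ⟨a, haA, rfl⟩ := indZ_ne (right_ne_zero_of_mul hFx)
    obtain ⟨c, hcB, rfl⟩ := indZ_ne hGy
    exact hno a haA c hcB (hadj_of_lamv h2W hc hc')
  have hbound := no_edge_bound hF0 (indZ_nonneg B) hedge k1 k2
  rw [sum_indZ hB] at hbound
  have hs : ∑ x ∈ Finset.Ico (0 : ℤ) N, F x = ∑ x ∈ Z, lamv W (2 * W * (x : ℤ) + b) := by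
    rw [sum_Ico_int]
    have h1 : ∀ n ∈ Finset.range N, F (n : ℤ) =
        if n ∈ Z then lamv W (2 * W * (n : ℤ) + b) else 0 := by
      intro n _
      simp only [hFdef]
      rw [indZ_cast]
      split_ifs <;> simp
    rw [Finset.sum_congr rfl h1, Finset.sum_ite_mem]
    congr 1
    apply Finset.inter_eq_right.mpr
    intro n hn
    have := Finset.mem_Ico.mp (hZ hn)
    exact Finset.mem_range.mpr this.2
  rw [hs] at hbound
  exact hbound

/-- Chunk GR5. Let `sg(x) = lamv W (2 W x + 2 v + 3) = lam (2W) (2v+3) x` (`φ(2W)/2W = φ(W)/W`), total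
`≥ N / 2` by `pntlam` for `2 W`. Let `Z` be the set of `x` with `sg x > 0` such that `v + W x` has no
neighbour in the class `z0` over `B`: `rcn1` with `F = sg 1_Z`, `G = 1_B`, `σ = ±1` gives
`∑_{x ∈ Z} sg x (|B| - 1) ≤ 2 ε1 N^2`; similarly `Z'` for `v + 3`, `z0'`, `B'`. -/
theorem gr5 : ∃ w0 : ℕ, ∀ w W : ℕ, w0 ≤ w → IsW w W → ∃ N0 : ℕ,
    ∀ N : ℕ, N0 ≤ N → ∀ v z0 z0' : ℕ, v + 3 < W → z0 < W → z0' < W →
    IsCoprime (2 * (v : ℤ) + 3) W → Comp W v z0 → Comp W (v + 3) z0' →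
    ∀ B B' : Finset ℕ, B ⊆ Finset.Ico 1 N → B' ⊆ Finset.Ico 1 N → (N : ℝ) / 2 ≤ B.card →
    (N : ℝ) / 2 ≤ B'.card → ∃ x ∈ Finset.Ico 1 N, ∃ y ∈ B, ∃ y' ∈ B',
      hadj (v + W * x) (v + 3 + W * x) ∧ hadj (v + W * x) (z0 + W * y) ∧
      hadj (v + 3 + W * x) (z0' + W * y') := by
  classical
  obtain ⟨w1, hw1⟩ := rcn1 (1 / 64) (by norm_num)
  refine ⟨max w1 2, fun w W hw hW => ?_⟩
  obtain ⟨N1, hN1⟩ := hw1 w W (le_trans (le_max_left _ _) hw) hW
  have hWpos : 0 < W := hW.1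
  obtain ⟨N2, hN2⟩ := pntlam (2 * W) (by omega) (1 / 4) (by norm_num)
  obtain ⟨N3, hN3⟩ := log_sq_le W (1 / 64) (by norm_num)
  refine ⟨max (max N1 N2) (max N3 1), fun N hN v z0 z0' hv hz0 hz0' hcop hc hc' B B' hB hB' hBc
    hBc' => ?_⟩
  have hNN1 : N1 ≤ N := le_trans (le_trans (le_max_left _ _) (le_max_left _ _)) hN
  have hNN2 : N2 ≤ N := le_trans (le_trans (le_max_right _ _) (le_max_left _ _)) hN
  have hNN3 : N3 ≤ N := le_trans (le_trans (le_max_left _ _) (le_max_right _ _)) hN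
  have hNpos : 1 ≤ N := le_trans (le_trans (le_max_right _ _) (le_max_right _ _)) hN
  have hNR : (1 : ℝ) ≤ N := by exact_mod_cast hNpos
  have h2W : 2 ∣ W := (hW.2 2 Nat.prime_two).mpr (le_trans (le_max_right _ _) hw)
  -- the weight
  set sg : ℕ → ℝ := fun x => lamv W (2 * W * (x : ℤ) + ((2 * v + 3 : ℕ) : ℤ)) with hsg
  have hsg0 : ∀ x, 0 ≤ sg x := fun x => lamv_nonneg' _ _
  -- total weight
  have htot : (Nat.totient (2 * W) / (2 * W : ℕ) : ℝ) = (Nat.totient W / W : ℝ) := by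
    rw [Nat.totient_mul_of_prime_of_dvd Nat.prime_two h2W]
    have : (W : ℝ) ≠ 0 := by exact_mod_cast hWpos.ne'
    push_cast
    field_simp
  have hlam : ∀ x : ℕ, uu (2 * W) (2 * (v : ℤ) + 3) (x : ℤ) = sg x - 1 := by
    intro x
    simp only [hsg]
    unfold uu lam lamv
    rw [htot]
    have : (2 * (v : ℤ) + 3 + ((2 * W : ℕ) : ℤ) * x) =
        2 * W * (x : ℤ) + ((2 * v + 3 : ℕ) : ℤ) := by push_cast; ring
    rw [this]
  have hr : |(2 * (v : ℤ) + 3)| < 2 * ((2 * W : ℕ) : ℤ) := by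
    have : (v : ℤ) + 3 < W := by exact_mod_cast hv
    push_cast
    rw [abs_lt]; constructor <;> omega
  have hcop2 : IsCoprime (2 * (v : ℤ) + 3) ((2 * W : ℕ) : ℤ) := by
    push_cast
    refine IsCoprime.mul_right ?_ hcop
    exact ⟨1, -((v : ℤ) + 1), by ring⟩
  have hsum := hN2 N hNN2 (2 * (v : ℤ) + 3) hr hcop2 N (Int.natCast_nonneg N) le_rfl
  rw [sum_Ico_int, Finset.sum_congr rfl (fun n _ => hlam n), Finset.sum_sub_distrib,
    Finset.sum_const, Finset.card_range, nsmul_eq_mul, mul_one] at hsum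
  have hsum' : 3 / 4 * (N : ℝ) ≤ ∑ x ∈ Finset.range N, sg x := by
    have := (abs_le.mp hsum).1
    linarith
  have hsplit : ∑ x ∈ Finset.range N, sg x = (∑ x ∈ Finset.Ico 1 N, sg x) + sg 0 := by
    rw [Finset.range_eq_Ico, Finset.sum_eq_sum_Ico_succ_bot (by omega : 0 < N), add_comm]
  have hsg00 : sg 0 ≤ 1 / 4 * N := by
    have hWR : (1 : ℝ) ≤ W := by exact_mod_cast hWpos
    have hBig : (1 : ℝ) ≤ 4 * W * N + 4 * W + 4 := by nlinarith
    have hvR : (v : ℝ) + 3 ≤ W := by exact_mod_cast hv.le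
    have hv0 : (0 : ℝ) ≤ v := Nat.cast_nonneg v
    have a1 : sg 0 ≤ Real.log (4 * W * N + 4 * W + 4) := by
      simp only [hsg]
      apply lamv_le_log hBig
      push_cast
      rw [abs_le]
      constructor <;> nlinarith
    have a2 := hN3 N hNN3
    have a3 : Real.log (4 * W * N + 4 * W + 4) ≤
        1 / 8 + 2 * Real.log (4 * W * N + 4 * W + 4) ^ 2 := by
      nlinarith [sq_nonneg (Real.log (4 * W * N + 4 * W + 4) - 1 / 4)]
    linarith
  -- the exceptional sets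
  set Z : Finset ℕ := (Finset.Ico 1 N).filter
    (fun x => ∀ y ∈ B, ¬ hadj (v + W * x) (z0 + W * y)) with hZ
  set Z' : Finset ℕ := (Finset.Ico 1 N).filter
    (fun x => ∀ y ∈ B', ¬ hadj (v + 3 + W * x) (z0' + W * y)) with hZ'
  have hb4 : 2 * v + 3 ≤ 4 * W := by omega
  have b1 := gr5_half (b := 2 * v + 3) h2W hN1 hNN1 (show v < W by omega) hz0 hb4 hc
    (Finset.filter_subset _ _ : Z ⊆ Finset.Ico 1 N) hB
    (fun x hx y hy => (Finset.mem_filter.mp hx).2 y hy)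
  have b2 := gr5_half (b := 2 * v + 3) h2W hN1 hNN1 (show v + 3 < W by omega) hz0' hb4
    (by exact_mod_cast hc')
    (Finset.filter_subset _ _ : Z' ⊆ Finset.Ico 1 N) hB'
    (fun x hx y hy => (Finset.mem_filter.mp hx).2 y hy)
  have c1 : ∑ x ∈ Z, sg x ≤ 1 / 16 * N := by
    have h1 : (∑ x ∈ Z, sg x) * ((N : ℝ) / 2) ≤ 2 * (1 / 64 * N ^ 2) := by
      refine le_trans ?_ b1
      apply mul_le_mul_of_nonneg_left hBc
      exact Finset.sum_nonneg fun x _ => hsg0 x
    have h2 : (∑ x ∈ Z, sg x) * N ≤ 1 / 16 * N * N := by nlinarith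
    exact le_of_mul_le_mul_right h2 (by linarith)
  have c2 : ∑ x ∈ Z', sg x ≤ 1 / 16 * N := by
    have h1 : (∑ x ∈ Z', sg x) * ((N : ℝ) / 2) ≤ 2 * (1 / 64 * N ^ 2) := by
      refine le_trans ?_ b2
      apply mul_le_mul_of_nonneg_left hBc'
      exact Finset.sum_nonneg fun x _ => hsg0 x
    have h2 : (∑ x ∈ Z', sg x) * N ≤ 1 / 16 * N * N := by nlinarith
    exact le_of_mul_le_mul_right h2 (by linarith)
  -- a good x
  obtain ⟨x, hx, hxsg, hxZ, hxZ'⟩ : ∃ x ∈ Finset.Ico 1 N, sg x ≠ 0 ∧ x ∉ Z ∧ x ∉ Z' := by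
    by_contra hcon
    push Not at hcon
    have h1 : ∑ x ∈ Finset.Ico 1 N, sg x ≤ (∑ x ∈ Z, sg x) + ∑ x ∈ Z', sg x := by
      have h2 : ∑ x ∈ Finset.Ico 1 N, sg x ≤ ∑ x ∈ Z ∪ Z', sg x := by
        have h3 : ∑ x ∈ Finset.Ico 1 N, sg x =
            ∑ x ∈ (Finset.Ico 1 N).filter (fun x => x ∈ Z ∪ Z'), sg x := by
          rw [Finset.sum_filter]
          apply Finset.sum_congr rfl
          intro x hx
          by_cases hxu : x ∈ Z ∪ Z'
          · rw [if_pos hxu]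
          · rw [if_neg hxu]
            by_contra hne
            rw [Finset.mem_union, not_or] at hxu
            exact hxu.2 (hcon x hx hne hxu.1)
        rw [h3]
        apply Finset.sum_le_sum_of_subset_of_nonneg
        · intro x hx
          exact (Finset.mem_filter.mp hx).2
        · intro x _ _
          exact hsg0 x
      have h4 := Finset.sum_union_inter (s₁ := Z) (s₂ := Z') (f := sg)
      have h5 : 0 ≤ ∑ x ∈ Z ∩ Z', sg x := Finset.sum_nonneg fun x _ => hsg0 x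
      linarith
    rw [hsplit] at hsum'
    linarith
  have hp : (2 * W * (x : ℤ) + ((2 * v + 3 : ℕ) : ℤ)).natAbs.Prime := by
    by_contra hp
    exact hxsg (by simp only [hsg]; unfold lamv; rw [if_neg hp])
  have hp' : (v + W * x + (v + 3 + W * x)).Prime := by
    have : (2 * W * (x : ℤ) + ((2 * v + 3 : ℕ) : ℤ)).natAbs = v + W * x + (v + 3 + W * x) := by
      have : (2 * W * (x : ℤ) + ((2 * v + 3 : ℕ) : ℤ)) =
          ((v + W * x + (v + 3 + W * x) : ℕ) : ℤ) := by push_cast; ring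
      rw [this, Int.natAbs_natCast]
    rwa [← this]
  have hZn : ∃ y ∈ B, hadj (v + W * x) (z0 + W * y) := by
    by_contra hcon
    push Not at hcon
    exact hxZ (Finset.mem_filter.mpr ⟨hx, hcon⟩)
  have hZn' : ∃ y ∈ B', hadj (v + 3 + W * x) (z0' + W * y) := by
    by_contra hcon
    push Not at hcon
    exact hxZ' (Finset.mem_filter.mpr ⟨hx, hcon⟩)
  obtain ⟨y, hy, hadj1⟩ := hZn
  obtain ⟨y', hy', hadj2⟩ := hZn'
  refine ⟨x, hx, y, hy, y', hy', ⟨hp', ?_, ?_, ?_⟩, hadj1, hadj2⟩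
  · rw [Nat.odd_iff]; omega
  · have : Nat.dist (v + W * x) (v + 3 + W * x) = 3 := by
      rw [Nat.dist]; omega
    rw [this]; exact Nat.prime_three
  · have : Nat.dist (v + W * x) (v + 3 + W * x) = 3 := by
      rw [Nat.dist]; omega
    rw [this]; decide

end Pool.Agent.Lib.H18GB
end

-- from Lib.H18GB.GRCount
section

/-!
# Project GB: the number of compatible residue classes
-/

namespace Pool.Agent.Lib.H18GB

open Finset Pool.Agent.Lib.Sieve


theorem isW_primorial {w : ℕ} : IsW w (primorial w) := by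
  refine ⟨primorial_pos w, fun p hp => ?_⟩
  rw [primorial]
  constructor
  · intro h
    obtain ⟨q, hq, hd⟩ := (Prime.dvd_finset_prod_iff hp.prime _).1 h
    rw [Finset.mem_filter, Finset.mem_range] at hq
    have := (Nat.prime_dvd_prime_iff_eq hp hq.2).1 hd
    omega
  · intro h
    exact Finset.dvd_prod_of_mem _ (Finset.mem_filter.2 ⟨Finset.mem_range.2 (by omega), hp⟩)







end Pool.Agent.Lib.H18GB
end

-- from Lib.H18GB.TY3a
section

/-!
# Project GB: TY3a (link classes compatible with a given class)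
-/

namespace Pool.Agent.Lib.H18GB

open Finset Pool.Agent.Lib.Sieve

/-- Chunk TY3 (residues): link classes compatible with a given class at one end. -/
theorem exists_link_comp {w W : ℕ} (hw : 7 ≤ w) (hW : IsW w W) (x0 : ℤ) (d : ℤ)
    (hd : d = 0 ∨ d = 3) (h3 : (3 : ℤ) ∣ x0) :
    ∃ v : ℕ, v + 3 < W ∧ ¬ (3 : ℤ) ∣ (v : ℤ) ∧ IsCoprime (2 * (v : ℤ) + 3) W ∧
      Comp W x0 (v + d) := by
  have t1 : (2 * 1 + 3 : ZMod 3) ≠ 0 := by decide
  have t2 : (1 : ZMod 3) ≠ 0 := by decide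
  have key : ∀ p : ℕ, ∃ r : ZMod p, p.Prime → (2 * r + 3 ≠ 0 ∧ (x0 : ZMod p) + (r + d) ≠ 0 ∧
      (x0 : ZMod p) - (r + d) ≠ 0 ∧ (p = 3 → r ≠ 0) ∧ (p = 7 → r + 1 ≠ 0 ∧ r + 2 ≠ 0 ∧ r + 3 ≠ 0)) := by
    intro p
    by_cases hp : p.Prime
    swap
    · exact ⟨0, fun h => absurd h hp⟩
    have : Fact p.Prime := ⟨hp⟩
    have hcast : ∀ a : ℤ, (a : ZMod p) = 0 ↔ (p : ℤ) ∣ a := fun a =>
      ZMod.intCast_zmod_eq_zero_iff_dvd a p
    by_cases hp2 : p = 2
    · subst hp2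
      refine ⟨((x0 + 1 - d : ℤ) : ZMod 2), fun _ => ⟨?_, ?_, ?_, by omega, by omega⟩⟩
      · have : (2 * ((x0 + 1 - d : ℤ) : ZMod 2) + 3) = ((2 * (x0 + 1 - d) + 3 : ℤ) : ZMod 2) := by
          push_cast; ring
        rw [this, Ne, hcast]; push_cast; omega
      · have : ((x0 : ZMod 2) + (((x0 + 1 - d : ℤ) : ZMod 2) + d)) = ((x0 + (x0 + 1 - d + d) : ℤ) : ZMod 2) := by
          push_cast; ring
        rw [this, Ne, hcast]; push_cast; omega
      · have : ((x0 : ZMod 2) - (((x0 + 1 - d : ℤ) : ZMod 2) + d)) = ((x0 - (x0 + 1 - d + d) : ℤ) : ZMod 2) := by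
          push_cast; ring
        rw [this, Ne, hcast]; push_cast; omega
    by_cases hp3 : p = 3
    · subst hp3
      refine ⟨((1 : ℤ) : ZMod 3), fun _ => ⟨?_, ?_, ?_, fun _ => ?_, by omega⟩⟩
      · rw [Int.cast_one]
        exact t1
      · have : ((x0 : ZMod 3) + (((1 : ℤ) : ZMod 3) + d)) = ((x0 + (1 + d) : ℤ) : ZMod 3) := by
          push_cast; ring
        rw [this, Ne, hcast]; push_cast; omega
      · have : ((x0 : ZMod 3) - (((1 : ℤ) : ZMod 3) + d)) = ((x0 - (1 + d) : ℤ) : ZMod 3) := by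
          push_cast; ring
        rw [this, Ne, hcast]; push_cast; omega
      · rw [Int.cast_one]
        exact t2
    · have h2u : (2 : ZMod p) ≠ 0 := by
        have := hcast 2
        push_cast at this
        rw [Ne, this]
        intro h
        have h7 : p ∣ 2 := by exact_mod_cast h
        exact hp2 ((Nat.prime_dvd_prime_iff_eq hp Nat.prime_two).mp h7)
      by_cases hp7 : p = 7
      · classical
        set s : Finset (ZMod p) := {-(3 / 2 : ZMod p), -(x0 : ZMod p) - d, (x0 : ZMod p) - d, -1, -2, -3}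
        have hs : s.card < Fintype.card (ZMod p) := by
          rw [ZMod.card]
          exact lt_of_le_of_lt Finset.card_le_six (by omega)
        obtain ⟨r, hr⟩ : ∃ r, r ∉ s := by
          by_contra hall
          push Not at hall
          have : s = Finset.univ := Finset.eq_univ_iff_forall.mpr hall
          rw [this, Finset.card_univ] at hs
          exact lt_irrefl _ hs
        refine ⟨r, fun _ => ?_⟩
        simp only [s, Finset.mem_insert, Finset.mem_singleton, not_or] at hr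
        obtain ⟨ha, hb, hc, h1, h2, h3⟩ := hr
        refine ⟨?_, ?_, ?_, by omega, fun _ => ⟨?_, ?_, ?_⟩⟩
        · intro h; apply ha; field_simp; linear_combination h
        · intro h; apply hb; linear_combination h
        · intro h; apply hc; linear_combination -h
        · intro h; apply h1; linear_combination h
        · intro h; apply h2; linear_combination h
        · intro h; apply h3; linear_combination h
      · have hp5 : 4 < p := by
          have h1 := hp.two_le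
          have h4 : p ≠ 4 := by
            rintro rfl
            exact absurd hp (by norm_num)
          omega
        classical
        set s : Finset (ZMod p) := {-(3 / 2 : ZMod p), -(x0 : ZMod p) - d, (x0 : ZMod p) - d}
        have hs : s.card < Fintype.card (ZMod p) := by
          rw [ZMod.card]
          exact lt_of_le_of_lt Finset.card_le_three (by omega)
        obtain ⟨r, hr⟩ : ∃ r, r ∉ s := by
          by_contra hall
          push Not at hall
          have : s = Finset.univ := Finset.eq_univ_iff_forall.mpr hall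
          rw [this, Finset.card_univ] at hs
          exact lt_irrefl _ hs
        refine ⟨r, fun _ => ?_⟩
        simp only [s, Finset.mem_insert, Finset.mem_singleton, not_or] at hr
        obtain ⟨ha, hb, hc⟩ := hr
        refine ⟨?_, ?_, ?_, by omega, by omega⟩
        · intro h; apply ha; field_simp; linear_combination h
        · intro h; apply hb; linear_combination h
        · intro h; apply hc; linear_combination -h
  choose r hr using key
  obtain ⟨v, hv, hvr⟩ := hW.exists_res r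
  have hm7 : (7 : ℕ) ∈ primesUpTo w := mem_primesUpTo.mpr ⟨by norm_num, hw⟩
  have hm3 : (3 : ℕ) ∈ primesUpTo w := mem_primesUpTo.mpr ⟨by norm_num, by omega⟩
  have h7 := (hr 7 (by norm_num)).2.2.2.2 rfl
  have h3' := (hr 3 (by norm_num)).2.2.2.1 rfl
  rw [← hvr 7 hm7] at h7
  rw [← hvr 3 hm3] at h3'
  have hW7 : 7 ∣ W := (hW.2 7 (by norm_num)).mpr hw
  refine ⟨v, ?_, ?_, ?_, ?_, ?_⟩
  · obtain ⟨ha, hb, hc⟩ := h7
    have e1 : ¬ (7 : ℤ) ∣ (v + 1 : ℤ) := by
      intro h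
      apply ha
      have := (ZMod.intCast_zmod_eq_zero_iff_dvd (v + 1) 7).mpr (by exact_mod_cast h)
      push_cast at this ⊢
      exact this
    have e2 : ¬ (7 : ℤ) ∣ (v + 2 : ℤ) := by
      intro h
      apply hb
      have := (ZMod.intCast_zmod_eq_zero_iff_dvd (v + 2) 7).mpr (by exact_mod_cast h)
      push_cast at this ⊢
      exact this
    have e3 : ¬ (7 : ℤ) ∣ (v + 3 : ℤ) := by
      intro h
      apply hc
      have := (ZMod.intCast_zmod_eq_zero_iff_dvd (v + 3) 7).mpr (by exact_mod_cast h)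
      push_cast at this ⊢
      exact this
    omega
  · intro h
    apply h3'
    exact (ZMod.intCast_zmod_eq_zero_iff_dvd v 3).mpr (by exact_mod_cast h)
  · refine hW.isCoprime fun p hp => ?_
    have := (hr p (mem_primesUpTo.mp hp).1).1
    rw [← hvr p hp] at this
    push_cast at this ⊢
    exact this
  · refine hW.isCoprime fun p hp => ?_
    have := (hr p (mem_primesUpTo.mp hp).1).2.1
    rw [← hvr p hp] at this
    push_cast at this ⊢
    exact this
  · refine hW.isCoprime fun p hp => ?_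
    have := (hr p (mem_primesUpTo.mp hp).1).2.2.1
    rw [← hvr p hp] at this
    push_cast at this ⊢
    exact this

end Pool.Agent.Lib.H18GB
end

-- from Lib.H18GB2.BX1
section

/-!
# Project GB2: BX1 (the unweighted box sum of the prime kernel is small)
-/

namespace Pool.Agent.Lib.H18GB

open Finset Pool.Agent.Lib.Sieve

private theorem bx1_expand (N : ℕ) (k : ℤ → ℤ → ℝ) : box N k (fun _ => 1) (fun _ => 1) =
    ∑ y' ∈ Finset.Ico (0 : ℤ) N, ∑ y ∈ Finset.Ico (0 : ℤ) N,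
      (∑ x ∈ Finset.Ico (0 : ℤ) N, k x y * k x y') ^ 2 := by
  rw [box_swap, Finset.sum_comm]
  unfold box
  apply Finset.sum_congr rfl
  intro y _
  apply Finset.sum_congr rfl
  intro y' _
  rw [one_mul, one_mul]
  congr 1
  apply Finset.sum_congr rfl
  intro x _
  rw [one_mul]

private theorem bx1_lamv_neg (W : ℕ) (v : ℤ) : lamv W (-v) = lamv W v := by
  unfold lamv
  rw [Int.natAbs_neg]

/-- the sum over one good `y'` -/
private theorem bx1_good {ε1 : ℝ} {w W N : ℕ} (hw2 : 2 ≤ w) (hW : 0 < W) (hN : 1 ≤ N)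
    {r1 r2 σ : ℤ} (hr1 : |r1| < 2 * W) (hr2 : |r2| < 2 * W) (hσ : σ = 1 ∨ σ = -1)
    (h0 : ∀ (F G : ℤ → ℝ), (∀ x, |F x| ≤ 1) → (∀ y, |G y| ≤ 1) →
      |∑ x ∈ Finset.Ico (0 : ℤ) N, ∑ y ∈ Finset.Ico (0 : ℤ) N, F x * G y * ker W r1 r2 σ x y| ≤
        ε1 * N ^ 2)
    (h2 : ∀ (b b' : ℤ), |b| ≤ 4 * W * N → |b'| ≤ 4 * W * N → b + b' ≠ 0 → ∀ (F G : ℤ → ℝ),
      (∀ x, |F x| ≤ lamv W (b + W * x) * lamv W (b' - W * x) / SW w (b + b')) →
      (∀ y, |G y| ≤ 1) →
      |∑ x ∈ Finset.Ico (0 : ℤ) N, ∑ y ∈ Finset.Ico (0 : ℤ) N, F x * G y * ker W r1 r2 σ x y| ≤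
        ε1 * N ^ 2)
    {y' : ℤ} (hy' : y' ∈ Finset.Ico (0 : ℤ) N) (hg1 : r1 - σ * r2 + 2 * W * y' ≠ 0)
    (hg2 : SW w (r1 - σ * r2 + 2 * W * y') ≤ 2) (G : ℤ → ℝ) (hG : ∀ y, |G y| ≤ 1) :
    |∑ x ∈ Finset.Ico (0 : ℤ) N, ∑ y ∈ Finset.Ico (0 : ℤ) N,
      G y * (ker W r1 r2 σ x y * ker W r1 r2 σ x y')| ≤ 3 * ε1 * N ^ 2 := by
  have hWz : (1 : ℤ) ≤ W := by exact_mod_cast hW
  have hNz : (1 : ℤ) ≤ N := by exact_mod_cast hN
  rw [Finset.mem_Ico] at hy'
  have hy1 : (W : ℤ) * y' ≤ W * N := mul_le_mul_of_nonneg_left (by omega) (by omega)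
  have hy0 : 0 ≤ (W : ℤ) * y' := mul_nonneg (by omega) hy'.1
  have hWN : (W : ℤ) ≤ W * N := by nlinarith
  set b : ℤ := r1 + W * y' with hb
  set b' : ℤ := -(σ * r2) + W * y' with hb'
  have hbb : b + b' = r1 - σ * r2 + 2 * W * y' := by rw [hb, hb']; ring
  have hbA : |b| ≤ 4 * W * N := by
    rw [abs_lt] at hr1
    rw [abs_le]
    constructor <;> nlinarith
  have hbA' : |b'| ≤ 4 * W * N := by
    rw [abs_lt] at hr2
    rw [abs_le]
    rcases hσ with rfl | rfl <;> constructor <;> nlinarith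
  set F1 : ℤ → ℝ := fun x => if 0 ≤ σ * (x - y') then
    lam W r1 (x + y') * lam W r2 (σ * (x - y')) / 2 else 0 with hF1
  set F2 : ℤ → ℝ := fun x => if 0 ≤ σ * (x - y') then 1 else 0 with hF2
  have hF1b : ∀ x, |F1 x| ≤ lamv W (b + W * x) * lamv W (b' - W * x) / SW w (b + b') := by
    intro x
    have e1 : lam W r1 (x + y') = lamv W (b + W * x) := by
      unfold lam
      congr 1
      rw [hb]
      ring
    have e2 : lam W r2 (σ * (x - y')) = lamv W (b' - W * x) := by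
      unfold lam
      rcases hσ with rfl | rfl
      · rw [← bx1_lamv_neg]
        congr 1
        rw [hb']
        ring
      · congr 1
        rw [hb']
        ring
    have a1 := lamv_nonneg W (b + W * x)
    have a2 := lamv_nonneg W (b' - W * x)
    have a3 := rcn_one_le_SW hw2 (b + b')
    have a4 : SW w (b + b') ≤ 2 := by rw [hbb]; exact hg2
    simp only [hF1]
    rw [e1, e2]
    split_ifs
    · rw [abs_of_nonneg (by positivity)]
      exact div_le_div_of_nonneg_left (mul_nonneg a1 a2) (by linarith) a4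
    · rw [abs_zero]
      exact div_nonneg (mul_nonneg a1 a2) (by linarith)
  have hF2b : ∀ x, |F2 x| ≤ 1 := by
    intro x
    simp only [hF2]
    split_ifs <;> simp
  have k1 := h2 b b' hbA hbA' (by rw [hbb]; exact hg1) F1 G hF1b hG
  have k2 := h0 F2 G hF2b hG
  have key : ∑ x ∈ Finset.Ico (0 : ℤ) N, ∑ y ∈ Finset.Ico (0 : ℤ) N,
      G y * (ker W r1 r2 σ x y * ker W r1 r2 σ x y') =
      2 * (∑ x ∈ Finset.Ico (0 : ℤ) N, ∑ y ∈ Finset.Ico (0 : ℤ) N,
        F1 x * G y * ker W r1 r2 σ x y) -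
      ∑ x ∈ Finset.Ico (0 : ℤ) N, ∑ y ∈ Finset.Ico (0 : ℤ) N,
        F2 x * G y * ker W r1 r2 σ x y := by
    rw [Finset.mul_sum, ← Finset.sum_sub_distrib]
    apply Finset.sum_congr rfl
    intro x _
    rw [Finset.mul_sum, ← Finset.sum_sub_distrib]
    apply Finset.sum_congr rfl
    intro y _
    have e3 : ker W r1 r2 σ x y' = 2 * F1 x - F2 x := by
      simp only [hF1, hF2]
      unfold ker
      split_ifs <;> ring
    rw [e3]
    ring
  rw [key]
  rw [abs_le] at k1 k2 ⊢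
  constructor <;> linarith [k1.1, k1.2, k2.1, k2.2]

/-- Chunk BX1. `k = ker W r1 r2 σ`. `box = ∑_{y'} ∑_{x,y} k(x,y) k(x,y') D(y,y')`,
`D(y,y') = ∑_{x'} k(x',y) k(x',y')`, `|D| ≤ C N (1 + E)` (`db`). The part `E(y,y') > 1` is
`∑ D^2 ≤ 4 C^2 N^2 ∑ E^2`. For the part `E ≤ 1` put `G(y) = D(y,y') 1[E ≤ 1] / (2 C N)`, `|G| ≤ 1`, and
for fixed `y'` split `k(x,y') = λλ 1[σ(x-y') ≥ 0] - 1[σ(x-y') ≥ 0]`: if `y' ≥ 2` and
`SW w (r1 - σ r2 + 2 W y') ≤ 2` (`swc`: all but few `y'`), `rcn2` with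
`F(x) = λλ 1[..] / 2`, `b = r1 + W y'`, `b' = - σ r2 + W y'`, and `rcn0` give `≤ 3 ε1 N^2` for
`∑_{x,y} k(x,y) k(x,y') G(y)`. For the exceptional `y'` use `|..| = ∑_{y : E ≤ 1} D^2 / (2 C N)`
`≤ 2 C N^2`. -/
theorem bx1 (ε : ℝ) (hε : 0 < ε) : ∃ w0 : ℕ, ∀ w W : ℕ, w0 ≤ w → IsW w W → ∃ N0 : ℕ,
    ∀ N : ℕ, N0 ≤ N → ∀ (r1 r2 σ : ℤ), |r1| < 2 * W → IsCoprime r1 (W : ℤ) → |r2| < 2 * W →
    IsCoprime r2 (W : ℤ) → (σ = 1 ∨ σ = -1) →
    box N (ker W r1 r2 σ) (fun _ => 1) (fun _ => 1) ≤ ε * N ^ 4 := by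
  classical
  obtain ⟨C, hC, hdb⟩ := db
  have hC0 : 0 < C := by linarith
  obtain ⟨w1, hw1⟩ := hdb (ε / (16 * C ^ 2)) (by positivity)
  obtain ⟨w2, hw2⟩ := rcn0 (ε / (24 * C)) (by positivity)
  obtain ⟨w3, hw3⟩ := rcn2 (ε / (24 * C)) (by positivity)
  obtain ⟨w4, hw4⟩ := swc (ε / (16 * C ^ 2)) (by positivity)
  refine ⟨max (max w1 w2) (max (max w3 w4) 2), fun w W hw hW => ?_⟩
  obtain ⟨N1, hN1⟩ := hw1 w W (by omega) hW
  obtain ⟨N2, hN2⟩ := hw2 w W (by omega) hW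
  obtain ⟨N3, hN3⟩ := hw3 w W (by omega) hW
  obtain ⟨N4, hN4⟩ := hw4 w W (by omega) hW
  refine ⟨max (max N1 N2) (max (max N3 N4) 1), fun N hN r1 r2 σ hr1 hr1c hr2 hr2c hσ => ?_⟩
  obtain ⟨E, hE0, hE1, hE2⟩ := hN1 N (by omega) r1 r2 σ hr1 hr2 hσ
  have hN1' : 1 ≤ N := by omega
  have hNr : (1 : ℝ) ≤ N := by exact_mod_cast hN1'
  have hNpos : (0 : ℝ) < N := by linarith
  have hWz : (1 : ℤ) ≤ W := by exact_mod_cast hW.1
  have hc8 : |r1 - σ * r2| ≤ 8 * W := by
    rw [abs_lt] at hr1 hr2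
    rw [abs_le]
    rcases hσ with rfl | rfl <;> constructor <;> nlinarith
  have hbad := hN4 N (by omega) (r1 - σ * r2) hc8
  set I := Finset.Ico (0 : ℤ) N with hI
  set k := ker W r1 r2 σ with hk
  set D : ℤ → ℤ → ℝ := fun y y' => ∑ x ∈ I, k x y * k x y' with hD
  have hDb : ∀ y ∈ I, ∀ y' ∈ I, |D y y'| ≤ C * N * (1 + E y y') := fun y hy y' hy' =>
    (Finset.abs_sum_le_sum_abs _ _).trans (hE1 y hy y' hy')
  have hcard : ((I.card : ℕ) : ℝ) = N := by
    rw [hI, Int.card_Ico]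
    simp
  rw [bx1_expand]
  -- pointwise splitting
  have split : ∀ y' ∈ I, ∀ y ∈ I, D y y' ^ 2 ≤
      (if E y y' ≤ 1 then D y y' ^ 2 else 0) + 4 * C ^ 2 * N ^ 2 * E y y' ^ 2 := by
    intro y' hy' y hy
    split_ifs with h
    · have : 0 ≤ 4 * C ^ 2 * N ^ 2 * E y y' ^ 2 := by positivity
      linarith
    · rw [not_le] at h
      have h1 := hDb y hy y' hy'
      have h2 : C * N * (1 + E y y') ≤ 2 * C * N * E y y' := by
        have : C * N * (1 + E y y') ≤ C * N * (2 * E y y') :=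
          mul_le_mul_of_nonneg_left (by linarith) (by positivity)
        linarith
      have h3 : D y y' ^ 2 ≤ (2 * C * N * E y y') ^ 2 := by
        rw [← sq_abs (D y y')]
        exact pow_le_pow_left₀ (abs_nonneg _) (h1.trans h2) 2
      have h4 : (2 * C * N * E y y') ^ 2 = 4 * C ^ 2 * N ^ 2 * E y y' ^ 2 := by ring
      linarith
  set B := I.filter fun y => r1 - σ * r2 + 2 * W * y = 0 ∨ 2 < SW w (r1 - σ * r2 + 2 * W * y)
    with hB
  -- the part with `E ≤ 1`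
  have part : ∀ y' ∈ I, ∑ y ∈ I, (if E y y' ≤ 1 then D y y' ^ 2 else 0) ≤
      ε / 4 * N ^ 3 + (if y' ∈ B then 4 * C ^ 2 * N ^ 3 else 0) := by
    intro y' hy'
    by_cases hyB : y' ∈ B
    · rw [if_pos hyB]
      have h1 : ∀ y ∈ I, (if E y y' ≤ 1 then D y y' ^ 2 else 0) ≤ 4 * C ^ 2 * N ^ 2 := by
        intro y hy
        split_ifs with h
        · have h2 := hDb y hy y' hy'
          have h3 : C * N * (1 + E y y') ≤ 2 * C * N := by
            have : C * N * (1 + E y y') ≤ C * N * 2 :=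
              mul_le_mul_of_nonneg_left (by linarith) (by positivity)
            linarith
          have h4 : D y y' ^ 2 ≤ (2 * C * N) ^ 2 := by
            rw [← sq_abs (D y y')]
            exact pow_le_pow_left₀ (abs_nonneg _) (h2.trans h3) 2
          have h5 : (2 * C * N) ^ 2 = 4 * C ^ 2 * N ^ 2 := by ring
          linarith
        · positivity
      have h2 := Finset.sum_le_sum h1
      rw [Finset.sum_const, nsmul_eq_mul, hcard] at h2
      have h3 : 0 ≤ ε / 4 * (N : ℝ) ^ 3 := by positivity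
      have h4 : (N : ℝ) * (4 * C ^ 2 * N ^ 2) = 4 * C ^ 2 * N ^ 3 := by ring
      linarith
    · rw [if_neg hyB, add_zero]
      have hg : ¬ (r1 - σ * r2 + 2 * W * y' = 0 ∨ 2 < SW w (r1 - σ * r2 + 2 * W * y')) := by
        intro h
        exact hyB (by rw [hB, Finset.mem_filter]; exact ⟨hy', h⟩)
      rw [not_or, not_lt] at hg
      set G : ℤ → ℝ := fun y => if y ∈ I ∧ E y y' ≤ 1 then D y y' / (2 * C * N) else 0 with hG
      have hGb : ∀ y, |G y| ≤ 1 := by
        intro y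
        simp only [hG]
        split_ifs with h
        · have h2 := hDb y h.1 y' hy'
          have h3 : C * N * (1 + E y y') ≤ 2 * C * N := by
            have : C * N * (1 + E y y') ≤ C * N * 2 :=
              mul_le_mul_of_nonneg_left (by linarith [h.2]) (by positivity)
            linarith
          rw [abs_div, abs_of_pos (show 0 < 2 * C * N by positivity), div_le_one (by positivity)]
          linarith
        · simp
      have h5 := bx1_good (w := w) (by omega) hW.1 hN1' hr1 hr2 hσ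
        (hN2 N (by omega) r1 r2 σ hr1 hr1c hr2 hr2c hσ)
        (fun b b' => hN3 N (by omega) r1 r2 σ b b' hr1 hr1c hr2 hr2c hσ) hy' hg.1 hg.2 G hGb
      have h6 : ∑ y ∈ I, (if E y y' ≤ 1 then D y y' ^ 2 else 0) = 2 * C * N *
          ∑ x ∈ I, ∑ y ∈ I, G y * (k x y * k x y') := by
        rw [Finset.sum_comm, Finset.mul_sum]
        apply Finset.sum_congr rfl
        intro y hy
        rw [← Finset.mul_sum]
        have e1 : ∑ x ∈ I, k x y * k x y' = D y y' := rfl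
        rw [e1]
        simp only [hG]
        by_cases h : E y y' ≤ 1
        · rw [if_pos h, if_pos ⟨hy, h⟩]
          field_simp
        · rw [if_neg h, if_neg (fun hh => h hh.2)]
          ring
      rw [h6]
      have h7 := (le_abs_self _).trans h5
      calc 2 * C * N * ∑ x ∈ I, ∑ y ∈ I, G y * (k x y * k x y')
          ≤ 2 * C * N * (3 * (ε / (24 * C)) * N ^ 2) :=
            mul_le_mul_of_nonneg_left h7 (by positivity)
        _ = ε / 4 * N ^ 3 := by
            field_simp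
            ring
  have tot1 : ∑ y' ∈ I, ∑ y ∈ I, D y y' ^ 2 ≤
      ∑ y' ∈ I, (ε / 4 * N ^ 3 + (if y' ∈ B then 4 * C ^ 2 * N ^ 3 else 0)) +
        4 * C ^ 2 * N ^ 2 * ∑ y ∈ I, ∑ y' ∈ I, E y y' ^ 2 := by
    rw [Finset.sum_comm (s := I) (t := I) (f := fun y y' => E y y' ^ 2), Finset.mul_sum,
      ← Finset.sum_add_distrib]
    apply Finset.sum_le_sum
    intro y' hy'
    have h1 := Finset.sum_le_sum (split y' hy')
    rw [Finset.sum_add_distrib, ← Finset.mul_sum] at h1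
    have h2 := part y' hy'
    linarith
  have tot2 : ∑ y' ∈ I, (ε / 4 * N ^ 3 + (if y' ∈ B then 4 * C ^ 2 * (N : ℝ) ^ 3 else 0)) =
      N * (ε / 4 * N ^ 3) + B.card * (4 * C ^ 2 * N ^ 3) := by
    rw [Finset.sum_add_distrib, Finset.sum_const, nsmul_eq_mul, hcard, ← Finset.sum_filter]
    have : I.filter (fun y' => y' ∈ B) = B := by
      ext y
      rw [Finset.mem_filter]
      constructor
      · exact fun h => h.2
      · intro h
        refine ⟨?_, h⟩
        rw [hB, Finset.mem_filter] at h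
        exact h.1
    rw [this, Finset.sum_const, nsmul_eq_mul]
  have tot3 : (B.card : ℝ) * (4 * C ^ 2 * N ^ 3) ≤ ε / 4 * N ^ 4 := by
    calc (B.card : ℝ) * (4 * C ^ 2 * N ^ 3) ≤ (ε / (16 * C ^ 2) * N) * (4 * C ^ 2 * N ^ 3) :=
          mul_le_mul_of_nonneg_right hbad (by positivity)
      _ = ε / 4 * N ^ 4 := by
          field_simp
          ring
  have tot4 : 4 * C ^ 2 * N ^ 2 * ∑ y ∈ I, ∑ y' ∈ I, E y y' ^ 2 ≤ ε / 4 * N ^ 4 := by
    calc 4 * C ^ 2 * N ^ 2 * ∑ y ∈ I, ∑ y' ∈ I, E y y' ^ 2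
        ≤ 4 * C ^ 2 * N ^ 2 * (ε / (16 * C ^ 2) * N ^ 2) :=
          mul_le_mul_of_nonneg_left hE2 (by positivity)
      _ = ε / 4 * N ^ 4 := by
          field_simp
          ring
  have tot5 : (N : ℝ) * (ε / 4 * N ^ 3) = ε / 4 * N ^ 4 := by ring
  have hfin : 0 ≤ ε / 4 * (N : ℝ) ^ 4 := by positivity
  have e9 : ε / 4 * (N : ℝ) ^ 4 = ε * N ^ 4 / 4 := by ring
  calc ∑ y' ∈ I, ∑ y ∈ I, (∑ x ∈ I, k x y * k x y') ^ 2 = ∑ y' ∈ I, ∑ y ∈ I, D y y' ^ 2 := rfl
    _ ≤ ε * N ^ 4 := by linarith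

end Pool.Agent.Lib.H18GB
end
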