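import Pool.Agent.Lib.H1M.RV.M097
import Pool.Agent.Lib.H1M.RV.M100
import Pool.Agent.Lib.H1M.RV.M105

/-! Merged copies (to shorten the build) of Lib.H18GB.GR3, Lib.H18GB.GR6. -/

-- from Lib.H18GB.GR3
section

/-!
# Project GB: GR3, GR4
-/

namespace Pool.Agent.Lib.H18GB

open Finset Pool.Agent.Lib.Sieve Pool.Agent.Lib.GoldbachGraph

theorem two_dvd_of_isW {w W : ℕ} (hw : 2 ≤ w) (hW : IsW w W) : 2 ∣ W :=
  (hW.2 2 Nat.prime_two).mpr hw

open Classical in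
/-- Chunk GR3. `rcn2` with `F(y) = lamv lamv / SW` (and `F(0) = 0`), `b = X + y0`, `b' = X - y0`,
`G = 1_B`, for `σ = 1` and `σ = -1`: `r1 = y0 + z0`, `r2 = σ (y0 - z0)`. If there is no edge then
`∑ F(y) (|B| - 1) ≤ 2 ε1 N^2`. -/
theorem gr3 (ε : ℝ) (hε : 0 < ε) : ∃ w0 : ℕ, ∀ w W : ℕ, w0 ≤ w → IsW w W → ∃ N0 : ℕ,
    ∀ N : ℕ, N0 ≤ N → ∀ X y0 z0 : ℕ, 1 ≤ X → X ≤ 2 * W * N → y0 < W → z0 < W → Comp W X y0 →
    Comp W z0 y0 → ε * N ≤ Dw w W N X y0 → ∀ B : Finset ℕ, B ⊆ Finset.Ico 1 N → ε * N ≤ B.card →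
    ∃ y ∈ Finset.Ico 1 N, ∃ z ∈ B, hadj X (y0 + W * y) ∧ hadj (y0 + W * y) (z0 + W * z) := by
  obtain ⟨w1, hw1⟩ := rcn2 (ε ^ 2 / 8) (by positivity)
  refine ⟨max w1 2, fun w W hw hW => ?_⟩
  obtain ⟨N1, hN1⟩ := hw1 w W (le_trans (le_max_left _ _) hw) hW
  obtain ⟨N2, hN2⟩ := log_sq_le W (ε / 4) (by positivity)
  refine ⟨max (max N1 N2) 1, fun N hN X y0 z0 hX1 hX2 hy0 hz0 hXy hzy hD B hB hBc => ?_⟩
  have hNN1 : N1 ≤ N := le_trans (le_trans (le_max_left _ _) (le_max_left _ _)) hN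
  have hNN2 : N2 ≤ N := le_trans (le_trans (le_max_right _ _) (le_max_left _ _)) hN
  have hNpos : 1 ≤ N := le_trans (le_max_right _ _) hN
  have hNR : (1 : ℝ) ≤ N := by exact_mod_cast hNpos
  have h2W : 2 ∣ W := two_dvd_of_isW (le_trans (le_max_right _ _) hw) hW
  by_contra hcon
  push Not at hcon
  have hyz : Comp W (y0 : ℤ) (z0 : ℤ) := by
    refine ⟨?_, ?_⟩
    · rw [add_comm]; exact hzy.1
    · have := hzy.2.neg_left
      rwa [neg_sub] at this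
  -- the weight
  set f : ℤ → ℝ := fun x => lamv W (((X : ℤ) + y0) + W * x) * lamv W (((X : ℤ) - y0) - W * x) /
    SW w (((X : ℤ) + y0) + ((X : ℤ) - y0)) with hf
  have hSWp : (0 : ℝ) < SW w (((X : ℤ) + y0) + ((X : ℤ) - y0)) :=
    lt_of_lt_of_le one_pos (one_le_SW _ _)
  have hf0 : ∀ x, 0 ≤ f x := fun x =>
    div_nonneg (mul_nonneg (lamv_nonneg' _ _) (lamv_nonneg' _ _)) hSWp.le
  set F : ℤ → ℝ := fun x => if 1 ≤ x ∧ x < N then f x else 0 with hFdef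
  have hF0 : ∀ x, 0 ≤ F x := by
    intro x
    simp only [hFdef]
    split_ifs
    · exact hf0 x
    · exact le_rfl
  have hFf : ∀ x, |F x| ≤ f x := by
    intro x
    rw [abs_of_nonneg (hF0 x)]
    simp only [hFdef]
    split_ifs
    · exact le_rfl
    · exact hf0 x
  have hWN : (W : ℤ) * N ≥ W := by
    have : (1 : ℤ) ≤ N := by exact_mod_cast hNpos
    nlinarith [Int.natCast_nonneg W]
  have hXle : (X : ℤ) ≤ 2 * W * N := by exact_mod_cast hX2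
  have hWpos : (0 : ℤ) < W := by exact_mod_cast hW.1
  have hy0' : (y0 : ℤ) < W := by exact_mod_cast hy0
  have hz0' : (z0 : ℤ) < W := by exact_mod_cast hz0
  have hr1 : |((y0 : ℤ) + z0)| < 2 * W := by
    rw [abs_lt]; constructor <;> omega
  have hr2 : |((y0 : ℤ) - z0)| < 2 * W := by
    rw [abs_lt]; constructor <;> omega
  have hr2' : |(-((y0 : ℤ) - z0))| < 2 * W := by rw [abs_neg]; exact hr2
  have hb : |((X : ℤ) + y0)| ≤ 4 * W * N := by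
    rw [abs_le]; constructor <;> nlinarith
  have hb' : |((X : ℤ) - y0)| ≤ 4 * W * N := by
    rw [abs_le]; constructor <;> nlinarith
  have hbb : ((X : ℤ) + y0) + ((X : ℤ) - y0) ≠ 0 := by
    have : (1 : ℤ) ≤ X := by exact_mod_cast hX1
    omega
  have hG1 : ∀ y, |indZ B y| ≤ 1 := indZ_abs_le B
  have k1 := hN1 N hNN1 ((y0 : ℤ) + z0) ((y0 : ℤ) - z0) 1 ((X : ℤ) + y0) ((X : ℤ) - y0)
    hr1 hyz.1 hr2 hyz.2 (Or.inl rfl) hb hb' hbb F (indZ B) hFf hG1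
  have k2 := hN1 N hNN1 ((y0 : ℤ) + z0) (-((y0 : ℤ) - z0)) (-1) ((X : ℤ) + y0) ((X : ℤ) - y0)
    hr1 hyz.1 hr2' hyz.2.neg_left (Or.inr rfl) hb hb' hbb F (indZ B) hFf hG1
  have hedge : ∀ x ∈ Finset.Ico (0 : ℤ) N, ∀ y ∈ Finset.Ico (0 : ℤ) N,
      F x * indZ B y ≠ 0 →
      lamv W (((y0 : ℤ) + z0) + W * (x + y)) * lamv W (((y0 : ℤ) - z0) + W * (x - y)) = 0 := by
    intro x _ y _ hne
    by_contra hc
    obtain ⟨hFx, hGy⟩ := mul_ne_zero_iff.mp hne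
    obtain ⟨z, hzB, rfl⟩ := indZ_ne hGy
    have hx : 1 ≤ x ∧ x < N := by
      by_contra h
      exact hFx (by simp only [hFdef]; rw [if_neg h])
    have hfx : f x ≠ 0 := by
      simp only [hFdef] at hFx
      rwa [if_pos hx] at hFx
    obtain ⟨m, rfl⟩ : ∃ m : ℕ, x = m := ⟨x.toNat, by omega⟩
    have hprod : lamv W (((X : ℤ) + y0) + W * m) * lamv W (((X : ℤ) - y0) - W * m) ≠ 0 := by
      intro h0
      exact hfx (by simp only [hf]; rw [h0, zero_div])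
    have e1 : hadj X (y0 + W * m) := by
      have h3 := hadj_of_lamv (x0 := X) (y0 := y0) (x := 0) (y := m) h2W hXy (by
        have a1 : ((X : ℤ) + y0) + W * (((0 : ℕ) : ℤ) + m) = ((X : ℤ) + y0) + W * m := by
          push_cast; ring
        have a2 : ((X : ℤ) - y0) + W * (((0 : ℕ) : ℤ) - m) = ((X : ℤ) - y0) - W * m := by
          push_cast; ring
        rw [a1, a2]
        exact hprod)
      simpa using h3
    have e2 : hadj (y0 + W * m) (z0 + W * z) := hadj_of_lamv h2W hyz hc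
    exact hcon m (Finset.mem_Ico.mpr ⟨by omega, by omega⟩) z hzB e1 e2
  have hbound := no_edge_bound hF0 (indZ_nonneg B) hedge k1 k2
  rw [sum_indZ hB] at hbound
  -- the total weight
  have hsum : ε / 2 * N ≤ ∑ x ∈ Finset.Ico (0 : ℤ) N, F x := by
    rw [sum_Ico_int]
    have h3 : Dw w W N X y0 = ∑ y ∈ Finset.range N, f (y : ℤ) := by
      unfold Dw
      apply Finset.sum_congr rfl
      intro y _
      simp only [hf]
      have : ((X : ℤ) + y0) + ((X : ℤ) - y0) = 2 * (X : ℤ) := by ring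
      rw [this]
    have h4 : ∑ y ∈ Finset.range N, f (y : ℤ) ≤
        (∑ n ∈ Finset.range N, F (n : ℤ)) + f 0 := by
      obtain ⟨N', rfl⟩ : ∃ N', N = N' + 1 := ⟨N - 1, by omega⟩
      rw [Finset.sum_range_succ' (fun n : ℕ => f (n : ℤ)),
        Finset.sum_range_succ' (fun n : ℕ => F (n : ℤ))]
      have h5 : ∀ n ∈ Finset.range N', f ((n + 1 : ℕ) : ℤ) = F ((n + 1 : ℕ) : ℤ) := by
        intro n hn
        have := Finset.mem_range.mp hn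
        simp only [hFdef]
        rw [if_pos]
        constructor
        · push_cast; omega
        · push_cast; omega
      rw [Finset.sum_congr rfl h5]
      have h6 := hF0 ((0 : ℕ) : ℤ)
      simp only [Nat.cast_zero] at h6 ⊢
      linarith
    have h7 : f 0 ≤ Real.log (4 * W * N + 4 * W + 4) ^ 2 := by
      have hWR : (0 : ℝ) ≤ W := Nat.cast_nonneg W
      have hBig : (1 : ℝ) ≤ 4 * W * N + 4 * W + 4 := by nlinarith
      have hWNR : (W : ℝ) ≤ W * N := by nlinarith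
      have hXR : (X : ℝ) ≤ 2 * W * N := by exact_mod_cast hX2
      have hyR : (y0 : ℝ) ≤ W := by exact_mod_cast hy0.le
      have hX0 : (0 : ℝ) ≤ X := Nat.cast_nonneg X
      have hy00 : (0 : ℝ) ≤ y0 := Nat.cast_nonneg y0
      have a1 : lamv W (((X : ℤ) + y0) + W * 0) ≤ Real.log (4 * W * N + 4 * W + 4) := by
        apply lamv_le_log hBig
        push_cast
        rw [abs_le]
        constructor <;> nlinarith
      have a2 : lamv W (((X : ℤ) - y0) - W * 0) ≤ Real.log (4 * W * N + 4 * W + 4) := by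
        apply lamv_le_log hBig
        push_cast
        rw [abs_le]
        constructor <;> nlinarith
      have a3 : f 0 ≤ lamv W (((X : ℤ) + y0) + W * 0) * lamv W (((X : ℤ) - y0) - W * 0) := by
        simp only [hf]
        exact div_le_self (mul_nonneg (lamv_nonneg' _ _) (lamv_nonneg' _ _)) (one_le_SW _ _)
      calc f 0 ≤ _ := a3
        _ ≤ Real.log (4 * W * N + 4 * W + 4) * Real.log (4 * W * N + 4 * W + 4) :=
          mul_le_mul a1 a2 (lamv_nonneg' _ _) (Real.log_nonneg hBig)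
        _ = _ := by ring
    have h8 := hN2 N hNN2
    rw [h3] at hD
    have h9 : 0 < ε * (N : ℝ) := by positivity
    linarith
  have h9 : ε / 2 * N * (ε * N) ≤ 2 * (ε ^ 2 / 8 * N ^ 2) := by
    refine le_trans ?_ hbound
    apply mul_le_mul hsum hBc (by positivity)
    exact Finset.sum_nonneg fun x _ => hF0 x
  have h10 : 0 < ε ^ 2 * (N : ℝ) ^ 2 := by positivity
  nlinarith

/-- Chunk GR4. `rcn0` with `F = 1_A`, `G = 1_B`. -/
theorem gr4 (ε : ℝ) (hε : 0 < ε) : ∃ w0 : ℕ, ∀ w W : ℕ, w0 ≤ w → IsW w W → ∃ N0 : ℕ,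
    ∀ N : ℕ, N0 ≤ N → ∀ x0 y0 : ℕ, x0 < W → y0 < W → Comp W x0 y0 →
    ∀ A B : Finset ℕ, A ⊆ Finset.Ico 1 N → B ⊆ Finset.Ico 1 N → ε * N ≤ A.card → ε * N ≤ B.card →
    ∃ x ∈ A, ∃ y ∈ B, hadj (x0 + W * x) (y0 + W * y) := by
  obtain ⟨w1, hw1⟩ := rcn0 (ε ^ 2 / 4) (by positivity)
  refine ⟨max w1 2, fun w W hw hW => ?_⟩
  obtain ⟨N1, hN1⟩ := hw1 w W (le_trans (le_max_left _ _) hw) hW
  refine ⟨max N1 1, fun N hN x0 y0 hx0 hy0 hc A B hA hB hAc hBc => ?_⟩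
  have hNN1 : N1 ≤ N := le_trans (le_max_left _ _) hN
  have hNpos : 1 ≤ N := le_trans (le_max_right _ _) hN
  have hNR : (1 : ℝ) ≤ N := by exact_mod_cast hNpos
  have h2W : 2 ∣ W := two_dvd_of_isW (le_trans (le_max_right _ _) hw) hW
  by_contra hcon
  push Not at hcon
  have hx0' : (x0 : ℤ) < W := by exact_mod_cast hx0
  have hy0' : (y0 : ℤ) < W := by exact_mod_cast hy0
  have hr1 : |((x0 : ℤ) + y0)| < 2 * W := by
    rw [abs_lt]; constructor <;> omega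
  have hr2 : |((x0 : ℤ) - y0)| < 2 * W := by
    rw [abs_lt]; constructor <;> omega
  have hr2' : |(-((x0 : ℤ) - y0))| < 2 * W := by rw [abs_neg]; exact hr2
  have k1 := hN1 N hNN1 ((x0 : ℤ) + y0) ((x0 : ℤ) - y0) 1 hr1 hc.1 hr2 hc.2 (Or.inl rfl)
    (indZ A) (indZ B) (indZ_abs_le A) (indZ_abs_le B)
  have k2 := hN1 N hNN1 ((x0 : ℤ) + y0) (-((x0 : ℤ) - y0)) (-1) hr1 hc.1 hr2' hc.2.neg_left
    (Or.inr rfl) (indZ A) (indZ B) (indZ_abs_le A) (indZ_abs_le B)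
  have hedge : ∀ x ∈ Finset.Ico (0 : ℤ) N, ∀ y ∈ Finset.Ico (0 : ℤ) N,
      indZ A x * indZ B y ≠ 0 →
      lamv W (((x0 : ℤ) + y0) + W * (x + y)) * lamv W (((x0 : ℤ) - y0) + W * (x - y)) = 0 := by
    intro x _ y _ hne
    by_contra hc'
    obtain ⟨hFx, hGy⟩ := mul_ne_zero_iff.mp hne
    obtain ⟨a, haA, rfl⟩ := indZ_ne hFx
    obtain ⟨b, hbB, rfl⟩ := indZ_ne hGy
    exact hcon a haA b hbB (hadj_of_lamv h2W hc hc')
  have hbound := no_edge_bound (indZ_nonneg A) (indZ_nonneg B) hedge k1 k2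
  rw [sum_indZ hA, sum_indZ hB] at hbound
  have h9 : ε * N * (ε * N) ≤ 2 * (ε ^ 2 / 4 * N ^ 2) := by
    refine le_trans ?_ hbound
    apply mul_le_mul hAc hBc (by positivity) (Nat.cast_nonneg _)
  have h10 : 0 < ε ^ 2 * (N : ℝ) ^ 2 := by positivity
  nlinarith

end Pool.Agent.Lib.H18GB
end

-- from Lib.H18GB.GR6
section

/-!
# Project GB: GR6
-/

namespace Pool.Agent.Lib.H18GB

open Finset Pool.Agent.Lib.Sieve Pool.Agent.Lib.GoldbachGraph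

/-- the halved Goldbach graph on `[1, n]` -/
def HG (n : ℕ) : SimpleGraph ℕ where
  Adj x y := hadj x y ∧ x ∈ Finset.Icc 1 n ∧ y ∈ Finset.Icc 1 n
  symm := ⟨fun _ _ h => ⟨(hadj_comm _ _).mp h.1, h.2.2, h.2.1⟩⟩
  loopless := ⟨fun x h => by
    have := h.1.2.2.1
    rw [Nat.dist_self] at this
    exact Nat.not_prime_zero this⟩

theorem gr6_step {V : Type*} (G : SimpleGraph V) {a b c : V} {k : ℕ}
    (h : G.edist a b ≤ (k : ℕ∞)) (hbc : G.Adj b c) : G.edist a c ≤ ((k + 1 : ℕ) : ℕ∞) := by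
  refine (SimpleGraph.edist_triangle (v := b)).trans ?_
  have h1 : G.edist b c ≤ 1 := by
    have := SimpleGraph.Walk.edist_le hbc.toWalk
    simpa using this
  push_cast
  exact add_le_add h h1

theorem gr6_join {V : Type*} (G : SimpleGraph V) {a b c : V} {k l : ℕ}
    (h : G.edist a b ≤ (k : ℕ∞)) (h' : G.edist c b ≤ (l : ℕ∞)) :
    G.edist a c ≤ ((k + l : ℕ) : ℕ∞) := by
  refine (SimpleGraph.edist_triangle (v := b)).trans ?_
  rw [SimpleGraph.edist_comm (u := b)]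
  push_cast
  exact add_le_add h h'

open Classical in
/-- the elements `z ∈ [1, N)` with `z0 + W z` at distance at most `k` from `X` -/
noncomputable def gr6S (n W N X z0 k : ℕ) : Finset ℕ :=
  (Finset.Ico 1 N).filter fun z => (HG n).edist X (z0 + W * z) ≤ (k : ℕ∞)

theorem gr6S_sub (n W N X z0 k : ℕ) : gr6S n W N X z0 k ⊆ Finset.Ico 1 N :=
  Finset.filter_subset _ _

/-- a good vertex -/
def gr6Good (w W N : ℕ) (ε1 : ℝ) (X y0 : ℕ) : Prop :=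
  y0 < W ∧ Comp W X y0 ∧ ε1 * N ≤ Dw w W N X y0

/-- the input of the assembly -/
structure Gr6Ctx (n w W N : ℕ) (ε1 : ℝ) : Prop where
  hw : 5 ≤ w
  hW : IsW w W
  hWN : W * N ≤ n
  hn : n ≤ 2 * W * N
  hN : 40 ≤ N
  hε1 : ε1 ≤ 1 / 10
  p3 : ∀ X y0 z0 : ℕ, 1 ≤ X → X ≤ 2 * W * N → y0 < W → z0 < W → Comp W X y0 →
    Comp W z0 y0 → ε1 * N ≤ Dw w W N X y0 → ∀ B : Finset ℕ, B ⊆ Finset.Ico 1 N → ε1 * N ≤ B.card →
    ∃ y ∈ Finset.Ico 1 N, ∃ z ∈ B, hadj X (y0 + W * y) ∧ hadj (y0 + W * y) (z0 + W * z)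
  p4 : ∀ x0 y0 : ℕ, x0 < W → y0 < W → Comp W x0 y0 →
    ∀ A B : Finset ℕ, A ⊆ Finset.Ico 1 N → B ⊆ Finset.Ico 1 N → 1 / 10 * (N : ℝ) ≤ A.card →
    1 / 10 * (N : ℝ) ≤ B.card → ∃ x ∈ A, ∃ y ∈ B, hadj (x0 + W * x) (y0 + W * y)
  p5 : ∀ v z0 z0' : ℕ, v + 3 < W → z0 < W → z0' < W →
    IsCoprime (2 * (v : ℤ) + 3) W → Comp W v z0 → Comp W (v + 3) z0' →
    ∀ B B' : Finset ℕ, B ⊆ Finset.Ico 1 N → B' ⊆ Finset.Ico 1 N → (N : ℝ) / 2 ≤ B.card →
    (N : ℝ) / 2 ≤ B'.card → ∃ x ∈ Finset.Ico 1 N, ∃ y ∈ B, ∃ y' ∈ B',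
      hadj (v + W * x) (v + 3 + W * x) ∧ hadj (v + W * x) (z0 + W * y) ∧
      hadj (v + 3 + W * x) (z0' + W * y')

theorem Gr6Ctx.mem {n w W N : ℕ} {ε1 : ℝ} (h : Gr6Ctx n w W N ε1) {y0 y : ℕ} (hy0 : y0 < W)
    (hy : y ∈ Finset.Ico 1 N) : y0 + W * y ∈ Finset.Icc 1 n := by
  rw [Finset.mem_Ico] at hy
  rw [Finset.mem_Icc]
  have hW0 := h.hW.1
  have h1 : W * y + W ≤ W * N := by
    calc W * y + W = W * (y + 1) := by ring
      _ ≤ W * N := Nat.mul_le_mul_left _ hy.2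
  have h2 : W * 1 ≤ W * y := Nat.mul_le_mul_left _ hy.1
  have := h.hWN
  omega

theorem gr6_compl {n W N X z0 k : ℕ} {c : ℝ}
    (h : ∀ B : Finset ℕ, B ⊆ Finset.Ico 1 N → c * N ≤ B.card →
      ∃ z ∈ B, (HG n).edist X (z0 + W * z) ≤ (k : ℕ∞)) :
    (1 - c) * N - 1 ≤ (gr6S n W N X z0 k).card := by
  classical
  by_contra hcon
  push Not at hcon
  have h1 : (gr6S n W N X z0 k).card + ((Finset.Ico 1 N).filter
      fun z => ¬ (HG n).edist X (z0 + W * z) ≤ (k : ℕ∞)).card = (Finset.Ico 1 N).card := by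
    unfold gr6S
    exact Finset.card_filter_add_card_filter_not _
  rw [Nat.card_Ico] at h1
  have h2 : (N : ℝ) - 1 ≤ ((N - 1 : ℕ) : ℝ) := by
    rcases Nat.eq_zero_or_pos N with h0 | h0
    · rw [h0]; simp
    · rw [Nat.cast_sub h0]; simp
  have h3 : ((gr6S n W N X z0 k).card : ℝ) + (((Finset.Ico 1 N).filter
      fun z => ¬ (HG n).edist X (z0 + W * z) ≤ (k : ℕ∞)).card : ℝ) = ((N - 1 : ℕ) : ℝ) := by
    exact_mod_cast h1
  obtain ⟨z, hz, hz2⟩ := h _ (Finset.filter_subset _ _) (by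
    have : c * N ≤ (((Finset.Ico 1 N).filter
      fun z => ¬ (HG n).edist X (z0 + W * z) ≤ (k : ℕ∞)).card : ℝ) := by linarith
    exact this)
  exact (Finset.mem_filter.mp hz).2 hz2

theorem Gr6Ctx.two {n w W N : ℕ} {ε1 : ℝ} (h : Gr6Ctx n w W N ε1) {X y0 z0 : ℕ}
    (hX : X ∈ Finset.Icc 1 n) (hg : gr6Good w W N ε1 X y0) (hz0 : z0 < W) (hc : Comp W z0 y0) :
    9 / 10 * (N : ℝ) - 1 ≤ (gr6S n W N X z0 2).card := by
  have h1 : (1 - ε1) * N - 1 ≤ ((gr6S n W N X z0 2).card : ℝ) := by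
    refine gr6_compl fun B hB hB2 => ?_
    have hX' := Finset.mem_Icc.mp hX
    obtain ⟨y, hy, z, hz, ha, hb⟩ := h.p3 X y0 z0 hX'.1 (hX'.2.trans h.hn) hg.1 hz0 hg.2.1 hc
      hg.2.2 B hB hB2
    refine ⟨z, hz, ?_⟩
    have s0 : (HG n).edist X X ≤ ((0 : ℕ) : ℕ∞) := by simp
    have s1 := gr6_step (HG n) s0 (c := y0 + W * y) ⟨ha, hX, h.mem hg.1 hy⟩
    exact gr6_step (HG n) s1 (c := z0 + W * z) ⟨hb, h.mem hg.1 hy, h.mem hz0 (hB hz)⟩
  have h2 : (9 / 10 : ℝ) * N ≤ (1 - ε1) * N := by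
    have := h.hε1
    have hN : (0 : ℝ) ≤ N := Nat.cast_nonneg _
    nlinarith
  linarith

theorem Gr6Ctx.succ {n w W N : ℕ} {ε1 : ℝ} (h : Gr6Ctx n w W N ε1) {X z1 z0 k : ℕ}
    (hz1 : z1 < W) (hz0 : z0 < W) (hc : Comp W z1 z0)
    (hS : 1 / 10 * (N : ℝ) ≤ (gr6S n W N X z1 k).card) :
    9 / 10 * (N : ℝ) - 1 ≤ (gr6S n W N X z0 (k + 1)).card := by
  have h1 : (1 - 1 / 10) * (N : ℝ) - 1 ≤ ((gr6S n W N X z0 (k + 1)).card : ℝ) := by
    refine gr6_compl fun B hB hB2 => ?_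
    obtain ⟨x, hx, y, hy, hxy⟩ := h.p4 z1 z0 hz1 hz0 hc _ B (gr6S_sub _ _ _ _ _ _) hB hS hB2
    refine ⟨y, hy, ?_⟩
    classical
    unfold gr6S at hx
    rw [Finset.mem_filter] at hx
    exact gr6_step (HG n) hx.2 ⟨hxy, h.mem hz1 hx.1, h.mem hz0 (hB hy)⟩
  linarith

theorem Gr6Ctx.meet {n w W N : ℕ} {ε1 : ℝ} (h : Gr6Ctx n w W N ε1) {X X' z0 k l : ℕ}
    (hS : 9 / 10 * (N : ℝ) - 1 ≤ (gr6S n W N X z0 k).card)
    (hS' : 9 / 10 * (N : ℝ) - 1 ≤ (gr6S n W N X' z0 l).card) :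
    (HG n).edist X X' ≤ ((k + l : ℕ) : ℕ∞) := by
  classical
  have hN : (40 : ℝ) ≤ N := by exact_mod_cast h.hN
  have h1 : (gr6S n W N X z0 k ∩ gr6S n W N X' z0 l).Nonempty := by
    rw [← Finset.card_pos]
    have h2 := Finset.card_union_add_card_inter (gr6S n W N X z0 k) (gr6S n W N X' z0 l)
    have h3 : (gr6S n W N X z0 k ∪ gr6S n W N X' z0 l).card ≤ N := by
      refine (Finset.card_le_card (Finset.union_subset (gr6S_sub _ _ _ _ _ _)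
        (gr6S_sub _ _ _ _ _ _))).trans ?_
      rw [Nat.card_Ico]
      omega
    have h4 : (((gr6S n W N X z0 k ∪ gr6S n W N X' z0 l).card : ℕ) : ℝ) +
        ((gr6S n W N X z0 k ∩ gr6S n W N X' z0 l).card : ℕ) =
        ((gr6S n W N X z0 k).card : ℕ) + ((gr6S n W N X' z0 l).card : ℕ) := by exact_mod_cast h2
    have h5 : (((gr6S n W N X z0 k ∪ gr6S n W N X' z0 l).card : ℕ) : ℝ) ≤ N := by
      exact_mod_cast h3
    have h6 : (0 : ℝ) < ((gr6S n W N X z0 k ∩ gr6S n W N X' z0 l).card : ℕ) := by linarith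
    exact_mod_cast h6
  obtain ⟨z, hz⟩ := h1
  rw [Finset.mem_inter] at hz
  unfold gr6S at hz
  rw [Finset.mem_filter, Finset.mem_filter] at hz
  exact gr6_join (HG n) hz.1.2 hz.2.2

/-- same type: distance at most 4 -/
theorem Gr6Ctx.four {n w W N : ℕ} {ε1 : ℝ} (h : Gr6Ctx n w W N ε1) {X X' y0 y0' : ℕ}
    (hX : X ∈ Finset.Icc 1 n) (hX' : X' ∈ Finset.Icc 1 n) (hg : gr6Good w W N ε1 X y0)
    (hg' : gr6Good w W N ε1 X' y0') (h2 : (X : ℤ) % 2 = (X' : ℤ) % 2)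
    (h3 : (3 : ℤ) ∣ X ↔ (3 : ℤ) ∣ X') : (HG n).edist X X' ≤ ((4 : ℕ) : ℕ∞) := by
  have hw3 : 3 ≤ w := by have := h.hw; omega
  have c1 := comp_parity hw3 h.hW hg.2.1
  have c2 := comp_parity hw3 h.hW hg'.2.1
  obtain ⟨z0, hz0, e1, e2⟩ := comp_common hw3 h.hW (y0 : ℤ) (y0' : ℤ) (by omega) (by tauto)
  exact h.meet (h.two hX hg hz0 (comp_comm e1)) (h.two hX' hg' hz0 (comp_comm e2))

/-- opposite types: distance at most 5 -/
theorem Gr6Ctx.five {n w W N : ℕ} {ε1 : ℝ} (h : Gr6Ctx n w W N ε1) {X X' y0 y0' : ℕ}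
    (hX : X ∈ Finset.Icc 1 n) (hX' : X' ∈ Finset.Icc 1 n) (hg : gr6Good w W N ε1 X y0)
    (hg' : gr6Good w W N ε1 X' y0') (h2 : (X : ℤ) % 2 ≠ (X' : ℤ) % 2)
    (h3 : (3 : ℤ) ∣ X ↔ ¬ (3 : ℤ) ∣ X') : (HG n).edist X X' ≤ ((5 : ℕ) : ℕ∞) := by
  have hw3 : 3 ≤ w := by have := h.hw; omega
  have hN : (40 : ℝ) ≤ N := by exact_mod_cast h.hN
  have c1 := comp_parity hw3 h.hW hg.2.1
  have c2 := comp_parity hw3 h.hW hg'.2.1
  obtain ⟨z1, hz1, e1, -⟩ := comp_common hw3 h.hW (y0' : ℤ) (y0' : ℤ) rfl Iff.rfl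
  have c3 := comp_parity hw3 h.hW e1
  obtain ⟨z0, hz0, e2, e3⟩ := comp_common hw3 h.hW (y0 : ℤ) (z1 : ℤ) (by omega) (by omega)
  have s1 := h.two hX hg hz0 (comp_comm e2)
  have s2 := h.two hX' hg' hz1 (comp_comm e1)
  have s3 := h.succ (X := X') (k := 2) hz1 hz0 e3 (by linarith)
  exact h.meet s1 s3

/-- three steps to a class compatible with `v` -/
theorem Gr6Ctx.reach {n w W N : ℕ} {ε1 : ℝ} (h : Gr6Ctx n w W N ε1) {X y0 : ℕ}
    (hX : X ∈ Finset.Icc 1 n) (hg : gr6Good w W N ε1 X y0) (v : ℤ) (hv3 : ¬ (3 : ℤ) ∣ v)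
    (hcl : v % 2 = (X : ℤ) % 2 ↔ ¬ (3 : ℤ) ∣ X) :
    ∃ z0 : ℕ, z0 < W ∧ Comp W v z0 ∧ (N : ℝ) / 2 ≤ (gr6S n W N X z0 3).card := by
  have hw3 : 3 ≤ w := by have := h.hw; omega
  have hN : (40 : ℝ) ≤ N := by exact_mod_cast h.hN
  have c1 := comp_parity hw3 h.hW hg.2.1
  by_cases h3 : (3 : ℤ) ∣ X
  · have c4 : v % 2 ≠ (X : ℤ) % 2 := fun h5 => (hcl.mp h5) h3
    obtain ⟨z0, hz0, e1, e2⟩ := comp_common hw3 h.hW (y0 : ℤ) v (by omega) (by tauto)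
    refine ⟨z0, hz0, e2, ?_⟩
    have s1 := h.two hX hg hz0 (comp_comm e1)
    have s2 : (gr6S n W N X z0 2).card ≤ (gr6S n W N X z0 3).card := by
      apply Finset.card_le_card
      classical
      intro z hz
      unfold gr6S at hz ⊢
      rw [Finset.mem_filter] at hz ⊢
      exact ⟨hz.1, hz.2.trans (by norm_num)⟩
    have s3 : ((gr6S n W N X z0 2).card : ℝ) ≤ (gr6S n W N X z0 3).card := by exact_mod_cast s2
    linarith
  · have c4 : v % 2 = (X : ℤ) % 2 := hcl.mpr h3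
    obtain ⟨z1, hz1, e1, -⟩ := comp_common hw3 h.hW (y0 : ℤ) (y0 : ℤ) rfl Iff.rfl
    have c3 := comp_parity hw3 h.hW e1
    obtain ⟨z0, hz0, e2, e3⟩ := comp_common hw3 h.hW (z1 : ℤ) v (by omega) (by tauto)
    refine ⟨z0, hz0, e3, ?_⟩
    have s1 := h.two hX hg hz1 (comp_comm e1)
    have s2 := h.succ (X := X) (k := 2) hz1 hz0 e2 (by linarith)
    linarith


/-- the context exists, and large degree implies good -/
theorem gr6_ctx (ε : ℝ) (hε : 0 < ε) (w0 : ℕ) : ∃ ε1 : ℝ, 0 < ε1 ∧ ∃ w : ℕ, w0 ≤ w ∧ 5 ≤ w ∧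
    ∃ n0 : ℕ, ∀ n : ℕ, n0 ≤ n →
    Gr6Ctx n w (primorial w) (n / primorial w) ε1 ∧
    ∀ X ∈ Finset.Icc 1 n, ε * SH X * n / Real.log n ^ 2 ≤ hdeg n X →
      ∃ y0 : ℕ, gr6Good w (primorial w) (n / primorial w) ε1 X y0 := by
  obtain ⟨ε1, hε1, hε1a, hε1b⟩ : ∃ ε1 : ℝ, 0 < ε1 ∧ ε1 ≤ ε / 20 ∧ ε1 ≤ 1 / 10 :=
    ⟨min (ε / 20) (1 / 10), lt_min (by positivity) (by norm_num), min_le_left _ _, min_le_right _ _⟩
  obtain ⟨w1, h3⟩ := gr3 ε1 hε1
  obtain ⟨w2, h4⟩ := gr4 (1 / 10) (by norm_num)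
  obtain ⟨w3, h5⟩ := gr5
  refine ⟨ε1, hε1, max (max w1 w2) (max w3 (max w0 5)), ?_, ?_, ?_⟩
  · exact (le_max_left _ _).trans ((le_max_right _ _).trans (le_max_right _ _))
  · exact (le_max_right _ _).trans ((le_max_right _ _).trans (le_max_right _ _))
  obtain ⟨w, hwd⟩ : ∃ w : ℕ, w = max (max w1 w2) (max w3 (max w0 5)) := ⟨_, rfl⟩
  rw [← hwd]
  have hw5 : 5 ≤ w := by
    rw [hwd]
    exact (le_max_right _ _).trans ((le_max_right _ _).trans (le_max_right _ _))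
  have hww1 : w1 ≤ w := by rw [hwd]; exact (le_max_left _ _).trans (le_max_left _ _)
  have hww2 : w2 ≤ w := by rw [hwd]; exact (le_max_right _ _).trans (le_max_left _ _)
  have hww3 : w3 ≤ w := by rw [hwd]; exact (le_max_left _ _).trans (le_max_right _ _)
  have hW : IsW w (primorial w) := isW_primorial
  have hW0 := hW.1
  obtain ⟨N3, h3⟩ := h3 w (primorial w) hww1 hW
  obtain ⟨N4, h4⟩ := h4 w (primorial w) hww2 hW
  obtain ⟨N5, h5⟩ := h5 w (primorial w) hww3 hW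
  obtain ⟨n2, h2⟩ := gr2 ε hε w (by omega)
  refine ⟨max n2 (primorial w * max (max N3 N4) (max N5 40)), fun n hn => ?_⟩
  have hn2 : n2 ≤ n := (le_max_left _ _).trans hn
  have hnN : max (max N3 N4) (max N5 40) ≤ n / primorial w := by
    rw [Nat.le_div_iff_mul_le hW0, mul_comm]
    exact (le_max_right _ _).trans hn
  have hN3 : N3 ≤ n / primorial w := (le_max_left _ _).trans ((le_max_left _ _).trans hnN)
  have hN4 : N4 ≤ n / primorial w := (le_max_right _ _).trans ((le_max_left _ _).trans hnN)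
  have hN5 : N5 ≤ n / primorial w := (le_max_left _ _).trans ((le_max_right _ _).trans hnN)
  have hN40 : 40 ≤ n / primorial w := (le_max_right _ _).trans ((le_max_right _ _).trans hnN)
  have hWn : primorial w * (n / primorial w) ≤ n := Nat.mul_div_le _ _
  refine ⟨⟨hw5, hW, hWn, ?_, hN40, hε1b, h3 _ hN3, h4 _ hN4, h5 _ hN5⟩, ?_⟩
  · have h6 : n < primorial w * (n / primorial w) + primorial w := by
      have := Nat.lt_mul_div_succ n hW0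
      linarith
    have h7 : primorial w * 1 ≤ primorial w * (n / primorial w) :=
      Nat.mul_le_mul_left _ (by omega)
    have h8 : 2 * primorial w * (n / primorial w) =
      primorial w * (n / primorial w) + primorial w * (n / primorial w) := by ring
    omega
  · intro X hX hd
    obtain ⟨y0, a1, a2, a3⟩ := h2 n hn2 X hX hd
    refine ⟨y0, a1, a2, le_trans ?_ a3⟩
    exact mul_le_mul_of_nonneg_right hε1a (Nat.cast_nonneg _)

/-- Same class (I or II): distance at most 5. -/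
theorem gr6_five (ε : ℝ) (hε : 0 < ε) : ∃ n0 : ℕ, ∀ n : ℕ, n0 ≤ n →
    ∀ X ∈ Finset.Icc 1 n, ∀ X' ∈ Finset.Icc 1 n, ε * SH X * n / Real.log n ^ 2 ≤ hdeg n X →
    ε * SH X' * n / Real.log n ^ 2 ≤ hdeg n X' →
    ((X : ℤ) % 2 = (X' : ℤ) % 2 ↔ ((3 : ℤ) ∣ X ↔ (3 : ℤ) ∣ X')) → (HG n).edist X X' ≤ 5 := by
  obtain ⟨ε1, hε1, w, -, -, n0, h⟩ := gr6_ctx ε hε 0
  refine ⟨n0, fun n hn X hX X' hX' hd hd' h23 => ?_⟩
  obtain ⟨hctx, hgood⟩ := h n hn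
  obtain ⟨y0, hg⟩ := hgood X hX hd
  obtain ⟨y0', hg'⟩ := hgood X' hX' hd'
  by_cases h2 : (X : ℤ) % 2 = (X' : ℤ) % 2
  · refine (hctx.four hX hX' hg hg' h2 (h23.mp h2)).trans ?_
    norm_num
  · exact hctx.five hX hX' hg hg' h2 (by tauto)


end Pool.Agent.Lib.H18GB
end
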