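import Pool.Agent.Lib.H1M.RV.M098
import Pool.Agent.Lib.H1M.RV.M101
import Pool.Agent.Lib.H1M.RV.M105

/-! Merged copies (to shorten the build) of Lib.H18GB2.BX3, Lib.H18GB2.BXM. -/

-- from Lib.H18GB2.BX3
section

/-!
# Project GB2: BX3 (weighted box sums of the prime kernel)
-/

namespace Pool.Agent.Lib.H18GB

open Finset Pool.Agent.Lib.Sieve

/-! ## Auxiliary lemmas -/

/-- the truncated weight along `r + W n` -/
noncomputable def bx3P (W : ℕ) (r : ℤ) (z N : ℕ) (n : ℤ) : ℝ :=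
  if 0 ≤ n ∧ n < 2 * N ∧ (z : ℤ) < |r + W * n| then lam W r n else 0

/-- one of the two functions of `x + y` -/
noncomputable def bx3F (W : ℕ) (r : ℤ) (z N : ℕ) (a : Bool) (n : ℤ) : ℝ :=
  if a then bx3P W r z N n else ron N n

/-- sign -/
noncomputable def bx3s (a : Bool) : ℝ := if a then 1 else -1

/-- the truncated kernel -/
noncomputable def bx3T (W : ℕ) (r1 r2 σ : ℤ) (z N : ℕ) (x y : ℤ) : ℝ :=
  bx3P W r1 z N (x + y) * bx3P W r2 z N (σ * (x - y)) - ron N (x + y) * ron N (σ * (x - y))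

theorem bx3_T_eq (W : ℕ) (r1 r2 σ : ℤ) (z N : ℕ) (x y : ℤ) : bx3T W r1 r2 σ z N x y =
    ∑ a : Bool, bx3s a * (bx3F W r1 z N a (x + y) * bx3F W r2 z N a (σ * (x - y))) := by
  simp [bx3T, bx3s, bx3F]
  ring

theorem bx3_prod4 (f : Fin 4 → Bool → ℝ) :
    ((∑ a, f 0 a) * (∑ a, f 1 a)) * ((∑ a, f 2 a) * (∑ a, f 3 a)) =
    ∑ a : Fin 4 → Bool, (f 0 (a 0) * f 1 (a 1)) * (f 2 (a 2) * f 3 (a 3)) := by
  have h := Finset.prod_univ_sum (fun _ : Fin 4 => (Finset.univ : Finset Bool)) f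
  rw [Fintype.piFinset_univ] at h
  simp only [Fin.prod_univ_four] at h
  rw [← mul_assoc, h]
  apply Finset.sum_congr rfl
  intro a _
  ring

theorem bx3_ron_abs (N : ℕ) (n : ℤ) : |ron N n| ≤ 1 := by
  unfold ron
  split_ifs <;> simp

theorem bx3_abs_sub4 {a b c d a' b' c' d' B e1 e2 e3 e4 : ℝ} (hB : 0 ≤ B)
    (ha : |a| ≤ B) (hb : |b| ≤ B) (hc : |c| ≤ B)
    (hb' : |b'| ≤ B) (hc' : |c'| ≤ B) (hd' : |d'| ≤ B)
    (h1 : |a - a'| ≤ B * e1) (h2 : |b - b'| ≤ B * e2) (h3 : |c - c'| ≤ B * e3)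
    (h4 : |d - d'| ≤ B * e4) :
    |(a * b) * (c * d) - (a' * b') * (c' * d')| ≤ B ^ 4 * (e1 + e2 + e3 + e4) := by
  have e : (a * b) * (c * d) - (a' * b') * (c' * d') =
      (a - a') * b' * c' * d' + a * (b - b') * c' * d' + a * b * (c - c') * d' +
        a * b * c * (d - d') := by ring
  rw [e]
  have t1 : |(a - a') * b' * c' * d'| ≤ (B * e1) * B * B * B := by
    rw [abs_mul, abs_mul, abs_mul]
    have := le_trans (abs_nonneg _) h1
    gcongr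
  have t2 : |a * (b - b') * c' * d'| ≤ B * (B * e2) * B * B := by
    rw [abs_mul, abs_mul, abs_mul]
    have := le_trans (abs_nonneg _) h2
    gcongr
  have t3 : |a * b * (c - c') * d'| ≤ B * B * (B * e3) * B := by
    rw [abs_mul, abs_mul, abs_mul]
    have := le_trans (abs_nonneg _) h3
    gcongr
  have t4 : |a * b * c * (d - d')| ≤ B * B * B * (B * e4) := by
    rw [abs_mul, abs_mul, abs_mul]
    gcongr
  calc _ ≤ |(a - a') * b' * c' * d'| + |a * (b - b') * c' * d'| + |a * b * (c - c') * d'| +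
        |a * b * c * (d - d')| := by
        refine (abs_add_le _ _).trans (add_le_add ?_ le_rfl)
        exact abs_add_three _ _ _
    _ ≤ (B * e1) * B * B * B + B * (B * e2) * B * B + B * B * (B * e3) * B +
        B * B * B * (B * e4) := by linarith
    _ = _ := by ring

theorem bx3_card (N : ℕ) (c : ℝ) : ∑ _x ∈ Finset.Ico (0 : ℤ) N, c = N * c := by
  rw [Finset.sum_const, Int.card_Ico, nsmul_eq_mul]
  simp

/-- changing the kernel -/
theorem bx3_diff {N : ℕ} {k k' : ℤ → ℤ → ℝ} {F G : ℤ → ℝ} {M B E : ℝ} {e : ℤ → ℤ → ℝ}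
    (hM : 0 ≤ M) (hB : 0 ≤ B) (hF : ∀ x, 0 ≤ F x ∧ F x ≤ M) (hG : ∀ x, 0 ≤ G x ∧ G x ≤ M)
    (he : ∀ x y, 0 ≤ e x y)
    (hk : ∀ x ∈ Finset.Ico (0 : ℤ) N, ∀ y ∈ Finset.Ico (0 : ℤ) N, |k x y| ≤ B)
    (hk' : ∀ x ∈ Finset.Ico (0 : ℤ) N, ∀ y ∈ Finset.Ico (0 : ℤ) N, |k' x y| ≤ B)
    (hkk : ∀ x ∈ Finset.Ico (0 : ℤ) N, ∀ y ∈ Finset.Ico (0 : ℤ) N,
      |k x y - k' x y| ≤ B * e x y)
    (hE : ∑ x ∈ Finset.Ico (0 : ℤ) N, ∑ y ∈ Finset.Ico (0 : ℤ) N, e x y ≤ E) :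
    |box N k F G - box N k' F G| ≤ 4 * M ^ 4 * B ^ 4 * N ^ 2 * E := by
  rw [box_expand, box_expand, ← Finset.sum_sub_distrib]
  set I := Finset.Ico (0 : ℤ) N with hI
  have hpt : ∀ x ∈ I, ∀ x' ∈ I, ∀ y ∈ I, ∀ y' ∈ I,
      |F x * F x' * G y * G y' * ((k x y * k x y') * (k x' y * k x' y')) -
        F x * F x' * G y * G y' * ((k' x y * k' x y') * (k' x' y * k' x' y'))| ≤
      M ^ 4 * B ^ 4 * (e x y + e x y' + e x' y + e x' y') := by
    intro x hx x' hx' y hy y' hy'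
    rw [← mul_sub, abs_mul]
    have h1 : |F x * F x' * G y * G y'| ≤ M ^ 4 := by
      rw [abs_of_nonneg (by
        have := (hF x).1; have := (hF x').1; have := (hG y).1; have := (hG y').1; positivity)]
      calc F x * F x' * G y * G y' ≤ M * M * M * M := by
            have a1 := (hF x).1; have a2 := (hF x').1; have a3 := (hG y).1; have a4 := (hG y').1
            have b1 := (hF x).2; have b2 := (hF x').2; have b3 := (hG y).2; have b4 := (hG y').2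
            gcongr
        _ = M ^ 4 := by ring
    have h2 := bx3_abs_sub4 hB (hk x hx y hy) (hk x hx y' hy') (hk x' hx' y hy)
      (hk' x hx y' hy') (hk' x' hx' y hy) (hk' x' hx' y' hy')
      (hkk x hx y hy) (hkk x hx y' hy') (hkk x' hx' y hy) (hkk x' hx' y' hy')
    calc _ ≤ M ^ 4 * (B ^ 4 * (e x y + e x y' + e x' y + e x' y')) :=
          mul_le_mul h1 h2 (abs_nonneg _) (by positivity)
      _ = _ := by ring
  have h3 : |∑ x ∈ I, (∑ x' ∈ I, ∑ y ∈ I, ∑ y' ∈ I,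
        F x * F x' * G y * G y' * ((k x y * k x y') * (k x' y * k x' y')) -
      ∑ x' ∈ I, ∑ y ∈ I, ∑ y' ∈ I,
        F x * F x' * G y * G y' * ((k' x y * k' x y') * (k' x' y * k' x' y')))| ≤
      ∑ x ∈ I, ∑ x' ∈ I, ∑ y ∈ I, ∑ y' ∈ I,
        M ^ 4 * B ^ 4 * (e x y + e x y' + e x' y + e x' y') := by
    refine (Finset.abs_sum_le_sum_abs _ _).trans (Finset.sum_le_sum fun x hx => ?_)
    rw [← Finset.sum_sub_distrib]
    refine (Finset.abs_sum_le_sum_abs _ _).trans (Finset.sum_le_sum fun x' hx' => ?_)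
    rw [← Finset.sum_sub_distrib]
    refine (Finset.abs_sum_le_sum_abs _ _).trans (Finset.sum_le_sum fun y hy => ?_)
    rw [← Finset.sum_sub_distrib]
    refine (Finset.abs_sum_le_sum_abs _ _).trans (Finset.sum_le_sum fun y' hy' => ?_)
    exact hpt x hx x' hx' y hy y' hy'
  refine h3.trans ?_
  have h4 : ∑ x ∈ I, ∑ x' ∈ I, ∑ y ∈ I, ∑ y' ∈ I,
        M ^ 4 * B ^ 4 * (e x y + e x y' + e x' y + e x' y') =
      4 * M ^ 4 * B ^ 4 * N ^ 2 * ∑ x ∈ I, ∑ y ∈ I, e x y := by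
    have c : ∀ c : ℝ, ∑ _x ∈ I, c = N * c := bx3_card N
    simp only [← Finset.mul_sum, Finset.sum_add_distrib, c]
    ring
  rw [h4]
  gcongr

theorem bx3_rho_prod {ι : Type} [Fintype ι] {f : ι → ℝ} {z : ℕ} {m : ℕ}
    (h : ∀ i, 0 ≤ f i ∧ f i ≤ (z : ℝ) ^ m) :
    0 ≤ ∏ i, f i ∧ ∏ i, f i ≤ (z : ℝ) ^ (m * Fintype.card ι) := by
  constructor
  · exact Finset.prod_nonneg fun i _ => (h i).1
  · calc ∏ i, f i ≤ ∏ _i : ι, (z : ℝ) ^ m :=
          Finset.prod_le_prod (fun i _ => (h i).1) fun i _ => (h i).2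
      _ = _ := by
          rw [Finset.prod_const, Finset.card_univ, pow_mul]

/-- crude bound for the weights -/
theorem bx3_val_le {ι υ : Type} [Fintype ι] [Fintype υ] {w z K : ℕ} (hw : 2 ≤ w) (hz : 1 ≤ z)
    (hK : Fintype.card ι + 3 * Fintype.card υ ≤ K) (g : GW ι υ) (W : ℕ) (x : ℤ) :
    0 ≤ g.val (sprimes w z) W x ∧ g.val (sprimes w z) W x ≤ (z : ℝ) ^ K := by
  have hz1 : (1 : ℝ) ≤ z := by exact_mod_cast hz
  have hS := (pset_sprimes w z).prime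
  have h1 := bx3_rho_prod (z := z) (m := 1)
    (f := fun i : ι => rho (sprimes w z) (g.e (.inl i) * W * x + g.b (.inl i)))
    (fun i => ⟨rho_nonneg hS _, by simpa using rc_rho_le (w := w) hz _⟩)
  have h2 := bx3_rho_prod (z := z) (m := 3)
    (f := fun u : υ => (rho (sprimes w z) (g.e (.inr (u, false)) * W * x + g.b (.inr (u, false))) *
    rho (sprimes w z) (g.e (.inr (u, true)) * W * x + g.b (.inr (u, true))) /
    SGp (sprimes w z) (g.e (.inr (u, false)) * W * g.b (.inr (u, true)) -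
      g.e (.inr (u, true)) * W * g.b (.inr (u, false)))))
    (fun u => rc_omega_le hw hz _ _ _)
  unfold GW.val
  refine ⟨mul_nonneg h1.1 h2.1, ?_⟩
  calc _ ≤ (z : ℝ) ^ (1 * Fintype.card ι) * (z : ℝ) ^ (3 * Fintype.card υ) :=
        mul_le_mul h1.2 h2.2 h2.1 (by positivity)
    _ = (z : ℝ) ^ (Fintype.card ι + 3 * Fintype.card υ) := by
        rw [one_mul, pow_add]
    _ ≤ _ := pow_le_pow_right₀ hz1 hK

/-- bounds for the two kernels -/
theorem bx3_ker (W N z : ℕ) (r1 r2 σ x y : ℤ) (hσ : σ = 1 ∨ σ = -1) (hx : 0 ≤ x ∧ x < N)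
    (hy : 0 ≤ y ∧ y < N) (L : ℝ) (hL : 1 ≤ L)
    (h1 : |lam W r1 (x + y)| ≤ L) (h2 : 0 ≤ σ * (x - y) → |lam W r2 (σ * (x - y))| ≤ L) :
    |ker W r1 r2 σ x y| ≤ 2 * L ^ 2 ∧ |bx3T W r1 r2 σ z N x y| ≤ 2 * L ^ 2 ∧
    |ker W r1 r2 σ x y - bx3T W r1 r2 σ z N x y| ≤
    2 * L ^ 2 * ((if |r1 + W * (x + y)| ≤ z then 1 else 0) +
      (if |r2 + W * (σ * (x - y))| ≤ z then 1 else 0)) := by
  unfold ker bx3T bx3P ron
  have hs : σ * (x - y) < 2 * N := by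
    rcases hσ with rfl | rfl <;> omega
  have hxy : 0 ≤ x + y ∧ x + y < 2 * N := by omega
  have hL2 : 1 ≤ L ^ 2 := by nlinarith
  by_cases h : 0 ≤ σ * (x - y)
  · rw [if_pos h]
    have h2' := h2 h
    set u := lam W r1 (x + y)
    set v := lam W r2 (σ * (x - y))
    have huv : |u * v| ≤ L ^ 2 := by
      rw [abs_mul]
      nlinarith [abs_nonneg u, abs_nonneg v]
    have huv1 : |u * v - 1| ≤ 2 * L ^ 2 := by
      calc |u * v - 1| ≤ |u * v| + |1| := abs_sub _ _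
        _ ≤ _ := by rw [abs_one]; linarith
    have hon1 : (if 0 ≤ x + y ∧ x + y < 2 * (N:ℤ) then (1:ℝ) else 0) = 1 := if_pos hxy
    have hon2 : (if 0 ≤ σ * (x - y) ∧ σ * (x - y) < 2 * (N:ℤ) then (1:ℝ) else 0) = 1 :=
      if_pos ⟨h, hs⟩
    rw [hon1, hon2]
    by_cases t1 : |r1 + W * (x + y)| ≤ z
    · have t1' : ¬ (0 ≤ x + y ∧ x + y < 2 * (N:ℤ) ∧ (z : ℤ) < |r1 + W * (x + y)|) := by
        rintro ⟨-, -, h⟩
        omega
      rw [if_neg t1', if_pos t1]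
      refine ⟨huv1, ?_, ?_⟩
      · rw [zero_mul, one_mul, zero_sub, abs_neg, abs_one]
        linarith
      · rw [zero_mul, one_mul, zero_sub, sub_neg_eq_add, sub_add_cancel]
        split_ifs <;> nlinarith
    · have t1' : (0 ≤ x + y ∧ x + y < 2 * (N:ℤ) ∧ (z : ℤ) < |r1 + W * (x + y)|) :=
        ⟨hxy.1, hxy.2, by omega⟩
      rw [if_pos t1', if_neg t1]
      by_cases t2 : |r2 + W * (σ * (x - y))| ≤ z
      · have t2' : ¬ (0 ≤ σ * (x - y) ∧ σ * (x - y) < 2 * (N:ℤ) ∧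
            (z : ℤ) < |r2 + W * (σ * (x - y))|) := by
          rintro ⟨-, -, h⟩
          omega
        rw [if_neg t2', if_pos t2]
        refine ⟨huv1, ?_, ?_⟩
        · rw [mul_zero, one_mul, zero_sub, abs_neg, abs_one]
          linarith
        · rw [mul_zero, one_mul, zero_sub, sub_neg_eq_add, sub_add_cancel]
          linarith
      · have t2' : (0 ≤ σ * (x - y) ∧ σ * (x - y) < 2 * (N:ℤ) ∧
            (z : ℤ) < |r2 + W * (σ * (x - y))|) := ⟨h, hs, by omega⟩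
        rw [if_pos t2', if_neg t2]
        refine ⟨huv1, ?_, ?_⟩
        · rw [one_mul]
          exact huv1
        · rw [one_mul, sub_self, abs_zero]
          positivity
  · rw [if_neg h]
    have t2' : ¬ (0 ≤ σ * (x - y) ∧ σ * (x - y) < 2 * (N:ℤ) ∧
            (z : ℤ) < |r2 + W * (σ * (x - y))|) := by
      rintro ⟨h', -, -⟩
      exact h h'
    have t3' : ¬ (0 ≤ σ * (x - y) ∧ σ * (x - y) < 2 * (N:ℤ)) := by
      rintro ⟨h', -⟩
      exact h h'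
    rw [if_neg t2', if_neg t3', mul_zero, mul_zero, sub_self, abs_zero, sub_self, abs_zero]
    refine ⟨by positivity, by positivity, by positivity⟩

/-- the exceptional pairs are few -/
theorem bx3_count (N z W : ℕ) (hW : 0 < W) (r1 r2 σ : ℤ) (hσ : σ = 1 ∨ σ = -1) :
    ∑ x ∈ Finset.Ico (0:ℤ) N, ∑ y ∈ Finset.Ico (0:ℤ) N,
      ((if |r1 + W * (x + y)| ≤ z then (1 : ℝ) else 0) +
      (if |r2 + W * (σ * (x - y))| ≤ z then 1 else 0)) ≤ N * (2 * (2 * z + 1)) := by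
  have hW' : (W : ℤ) ≠ 0 := by exact_mod_cast hW.ne'
  rw [← bx3_card]
  apply Finset.sum_le_sum
  intro x _
  rw [Finset.sum_add_distrib]
  have e1 : ∑ y ∈ Finset.Ico (0:ℤ) N, (if |r1 + W * (x + y)| ≤ z then (1:ℝ) else 0) ≤
      2 * z + 1 := by
    have := rc_count (r1 + W * x) W hW' z N
    refine le_trans (le_of_eq ?_) this
    apply Finset.sum_congr rfl
    intro y _
    rw [mul_add, add_assoc]
  have e2 : ∑ y ∈ Finset.Ico (0:ℤ) N, (if |r2 + W * (σ * (x - y))| ≤ z then (1:ℝ) else 0) ≤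
      2 * z + 1 := by
    have hd : -(W * σ : ℤ) ≠ 0 := by
      rcases hσ with rfl | rfl <;> simpa using hW'
    have := rc_count (r2 + W * σ * x) (-(W * σ)) hd z N
    refine le_trans (le_of_eq ?_) this
    apply Finset.sum_congr rfl
    intro y _
    have e3 : r2 + W * (σ * (x - y)) = r2 + W * σ * x + -(W * σ) * y := by ring
    rw [e3]
  linarith

/-- the truncation error is small -/
theorem bx3_err (K : ℕ) (ε : ℝ) (hε : 0 < ε) (s W : ℕ) (hs : 2 * (4 * K + 1) ≤ s) (hW : 0 < W) :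
    ∃ N0 : ℕ, ∀ N : ℕ, N0 ≤ N → 1 ≤ N ∧ (1 ≤ rt s N →
      4 * ((rt s N : ℝ) ^ K) ^ 4 * (2 * (1 + Real.log (5 * W * N)) ^ 2) ^ 4 * N ^ 2 *
        (N * (2 * (2 * rt s N + 1))) ≤ ε * N ^ 4) := by
  have hW0 : (0:ℝ) < W := by exact_mod_cast hW
  have hW1 : (1:ℝ) ≤ W := by exact_mod_cast hW
  have hs1 : 1 ≤ s := by omega
  set c : ℝ := 33 + Real.log (5 * W) with hc
  have hlog5 : 0 ≤ Real.log (5 * W) := Real.log_nonneg (by linarith)
  have hc0 : 0 < c := by linarith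
  obtain ⟨N0, hN0⟩ := exists_nat_ge ((384 * c ^ 8 / ε + 1) ^ 4)
  refine ⟨max N0 1, fun N hN => ?_⟩
  have hN1 : 1 ≤ N := le_trans (le_max_right _ _) hN
  refine ⟨hN1, fun hz1 => ?_⟩
  have hNN : (384 * c ^ 8 / ε + 1) ^ 4 ≤ (N:ℝ) :=
    le_trans hN0 (by exact_mod_cast le_trans (le_max_left _ _) hN)
  have hNr : (1:ℝ) ≤ N := by exact_mod_cast hN1
  set a : ℝ := (N:ℝ) ^ ((1:ℝ) / 32) with ha
  have ha0 : 0 ≤ a := by positivity
  have ha32 : a ^ 32 = N := by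
    rw [ha, ← Real.rpow_natCast, ← Real.rpow_mul (by positivity)]
    norm_num
  have ha1 : 1 ≤ a := by
    rw [ha]
    exact Real.one_le_rpow hNr (by norm_num)
  have hz1' : (1:ℝ) ≤ rt s N := by exact_mod_cast hz1
  have hza : (rt s N : ℝ) ^ (4 * K + 1) ≤ a ^ 16 := by
    have h1 : ((rt s N : ℝ) ^ (4 * K + 1)) ^ 2 ≤ (a ^ 16) ^ 2 := by
      rw [← pow_mul, ← pow_mul, ha32]
      calc (rt s N : ℝ) ^ ((4 * K + 1) * 2) ≤ (rt s N : ℝ) ^ s :=
            pow_le_pow_right₀ hz1' (by omega)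
        _ ≤ N := by exact_mod_cast rt_pow_le hs1 N
    exact le_of_pow_le_pow_left₀ (by norm_num) (by positivity) h1
  have hlog : 1 + Real.log (5 * W * N) ≤ c * a := by
    rw [Real.log_mul (by positivity) (by positivity)]
    have h1 : Real.log N ≤ (N:ℝ) ^ ((1:ℝ) / 32) / (1 / 32) :=
      Real.log_le_rpow_div (by positivity) (by norm_num)
    rw [← ha] at h1
    have h3 : Real.log N ≤ 32 * a := by linarith
    rw [hc]
    nlinarith
  have hlog0 : 0 ≤ 1 + Real.log (5 * W * N) := by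
    have : 0 ≤ Real.log (5 * W * N) := Real.log_nonneg (by nlinarith)
    linarith
  have ha2 : 384 * c ^ 8 ≤ ε * a ^ 8 := by
    have h1 : (384 * c ^ 8 / ε + 1) ^ 4 ≤ (a ^ 8) ^ 4 := by
      rw [← pow_mul, ha32]
      exact hNN
    have h2 := le_of_pow_le_pow_left₀ (by norm_num) (by positivity) h1
    have h3 : 384 * c ^ 8 / ε ≤ a ^ 8 := by linarith
    rw [div_le_iff₀ hε] at h3
    linarith
  calc 4 * ((rt s N : ℝ) ^ K) ^ 4 * (2 * (1 + Real.log (5 * W * N)) ^ 2) ^ 4 * N ^ 2 *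
        (N * (2 * (2 * rt s N + 1)))
      ≤ 4 * ((rt s N : ℝ) ^ K) ^ 4 * (2 * (c * a) ^ 2) ^ 4 * N ^ 2 *
        (N * (2 * (3 * rt s N))) := by
        gcongr
        linarith
    _ = 384 * c ^ 8 * a ^ 8 * N ^ 3 * (rt s N : ℝ) ^ (4 * K + 1) := by
        have e1 : (rt s N : ℝ) ^ (4 * K + 1) = ((rt s N : ℝ) ^ K) ^ 4 * rt s N := by
          rw [pow_succ, mul_comm 4 K, pow_mul]
        rw [e1]
        ring
    _ ≤ 384 * c ^ 8 * a ^ 8 * N ^ 3 * a ^ 16 := by gcongr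
    _ ≤ (ε * a ^ 8) * a ^ 8 * N ^ 3 * a ^ 16 := by gcongr
    _ = ε * (a ^ 32) * N ^ 3 := by ring
    _ = ε * N ^ 4 := by rw [ha32]; ring

theorem bx3_P_le {Cj : ℝ} {s w W N : ℕ} (hCj : 1 ≤ Cj) (hs : 1 ≤ s) (hW : 0 < W) (hN : 1 ≤ N)
    (hmaj : ∀ v : ℤ, |v| ≤ 5 * W * N → (rt s N : ℤ) < |v| →
      lamv W v ≤ Cj * s * rho (sprimes w (rt s N)) v) {r : ℤ} (hr : |r| < 2 * W) (a : Bool)
    (n : ℤ) :
    |bx3F W r (rt s N) N a n| ≤ Cj * s * (1 + rho (sprimes w (rt s N)) (r + W * n)) := by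
  have hrho := rho_nonneg (pset_sprimes w (rt s N)).prime (r + W * n)
  have hs1 : (1:ℝ) ≤ s := by exact_mod_cast hs
  have hκ : 1 ≤ Cj * s := by nlinarith
  unfold bx3F
  cases a
  · rw [if_neg (by simp)]
    have := bx3_ron_abs N n
    nlinarith
  · rw [if_pos rfl]
    unfold bx3P
    split_ifs with h
    · have h1 := hmaj _ (rc_arg_le hW hN hr h.1 h.2.1) h.2.2
      have h2 := rc_lamv_nonneg W (r + W * n)
      unfold lam
      rw [abs_of_nonneg h2]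
      nlinarith
    · rw [abs_zero]
      positivity

theorem bx3_F_supp (W : ℕ) (r : ℤ) (z N : ℕ) (a : Bool) (n : ℤ) (hn : ¬ (0 ≤ n ∧ n < 2 * N)) :
    bx3F W r z N a n = 0 := by
  unfold bx3F bx3P ron
  cases a
  · rw [if_neg (by simp), if_neg hn]
  · rw [if_pos rfl, if_neg]
    rintro ⟨h1, h2, -⟩
    exact hn ⟨h1, h2⟩

/-- expansion of the product of four truncated kernels -/
theorem bx3_expand (W : ℕ) (r1 r2 σ : ℤ) (z N : ℕ) (x x' y y' : ℤ) :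
    (bx3T W r1 r2 σ z N x y * bx3T W r1 r2 σ z N x y') *
      (bx3T W r1 r2 σ z N x' y * bx3T W r1 r2 σ z N x' y') =
    ∑ a : Fin 4 → Bool, (∏ i, bx3s (a i)) *
      ((bx3F W r1 z N (a 0) (x + y) * bx3F W r2 z N (a 0) (σ * (x - y)) *
        (bx3F W r1 z N (a 1) (x + y') * bx3F W r2 z N (a 1) (σ * (x - y')))) *
      (bx3F W r1 z N (a 2) (x' + y) * bx3F W r2 z N (a 2) (σ * (x' - y)) *
        (bx3F W r1 z N (a 3) (x' + y') * bx3F W r2 z N (a 3) (σ * (x' - y'))))) := by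
  rw [bx3_T_eq, bx3_T_eq, bx3_T_eq, bx3_T_eq]
  have h := bx3_prod4 (fun i a => bx3s a *
    (![bx3F W r1 z N a (x + y), bx3F W r1 z N a (x + y'), bx3F W r1 z N a (x' + y),
      bx3F W r1 z N a (x' + y')] i *
    ![bx3F W r2 z N a (σ * (x - y)), bx3F W r2 z N a (σ * (x - y')),
      bx3F W r2 z N a (σ * (x' - y)), bx3F W r2 z N a (σ * (x' - y'))] i))
  simp only [Matrix.cons_val_zero, Matrix.cons_val_one, Matrix.cons_val] at h
  rw [h]
  apply Finset.sum_congr rfl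
  intro a _
  rw [Fin.prod_univ_four]
  ring

theorem bx3_s_abs (a : Fin 4 → Bool) : |∏ i, bx3s (a i)| = 1 := by
  rw [Finset.abs_prod]
  apply Finset.prod_eq_one
  intro i _
  unfold bx3s
  split_ifs <;> simp

/-- Chunk BX3. `z = rt s N`, `S = sprimes w z`, `κ = C s` (`majo`). Truncated kernel
`kT(x,y) = P(x+y) Q(x-y) - P'(x+y) Q'(x-y)`, `P(n) = lam W r1 n` if `0 ≤ n < 2 N`,
`|r1 + W n| > z`, else `0`; `Q(t) = lam W r2 (σ t)` if `0 ≤ σ t < 2 N`, `|r2 + W σ t| > z`, else `0`;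
`P', Q'` the indicators of `0 ≤ n < 2N`, `0 ≤ σ t < 2N`. It differs from `ker` on `≤ 2 N (2 z + 1)`
pairs, by at most `(log)^2`; the weights are `≤ z ^ 10` (crude, `rc_rho_le`, `rc_VV_le_SGp`); so
replacing `ker` by `kT` changes the box sums by `≤ ε N^4 / 4` (`s` large compared with the number of
forms: `s ≥ C`). Expand `box_expand` for `kT` in `16` terms: by `bx2` each changes by at most
`(C κ^16 (er + η))^(1/2) N^4` when the weights are removed; then `bx1`. -/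
theorem bx3 (ι υ ι' υ' : Type) [Fintype ι] [Fintype υ] [Fintype ι'] [Fintype υ'] :
    ∃ C : ℕ, 2 ≤ C ∧ ∀ (s A : ℕ) (ε : ℝ), 0 < ε → C ≤ A → C * A ≤ s →
    ∃ w0 : ℕ, ∀ w W : ℕ, w0 ≤ w → IsW w W → ∃ N0 : ℕ, ∀ N : ℕ, N0 ≤ N →
    ∀ (r1 r2 σ : ℤ), |r1| < 2 * W → IsCoprime r1 (W : ℤ) → |r2| < 2 * W → IsCoprime r2 (W : ℤ) →
    (σ = 1 ∨ σ = -1) → ∀ (g : GW ι υ) (g' : GW ι' υ') (η : ℝ), 0 ≤ η → η ≤ 1 →
    g.ok (sprimes w (rt s N)) W η → g'.ok (sprimes w (rt s N)) W η →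
    box N (ker W r1 r2 σ) (g.val (sprimes w (rt s N)) W) (g'.val (sprimes w (rt s N)) W) ≤
      (ε + C * s ^ 8 * Real.sqrt (er C A w + η)) * N ^ 4 := by
  obtain ⟨C2, hC2, h2⟩ := bx2 ι υ ι' υ'
  obtain ⟨Cj, hCj, hj⟩ := majo
  obtain ⟨Cr, hCr⟩ := exists_nat_ge (16 * C2 * Cj ^ 8 : ℝ)
  set K : ℕ := (Fintype.card ι + 3 * Fintype.card υ) + (Fintype.card ι' + 3 * Fintype.card υ')
    with hK
  refine ⟨C2 + 2 * (4 * K + 1) + Cr, by omega, ?_⟩
  set C : ℕ := C2 + 2 * (4 * K + 1) + Cr with hC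
  intro s A ε hε hCA hCAs
  have hC1 : 1 ≤ C := by omega
  have hA1 : 1 ≤ A := by omega
  have hCs : C ≤ s := le_trans (Nat.le_mul_of_pos_right C (by omega)) hCAs
  have hs1 : 1 ≤ s := by omega
  obtain ⟨w1, hw1⟩ := bx1 (ε / 2) (by positivity)
  refine ⟨w1 + C, fun w W hw hW => ?_⟩
  have hW0 : 0 < W := hW.1
  obtain ⟨N1, hN1⟩ := hw1 w W (by omega) hW
  obtain ⟨N2, hN2⟩ := hj s hs1 w W hW
  obtain ⟨N3, hN3⟩ := Filter.eventually_atTop.mp ((rt_tendsto hs1).eventually_ge_atTop 2)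
  obtain ⟨N4, hN4⟩ := bx3_err K (ε / 4) (by positivity) s W (by omega) hW0
  refine ⟨N1 + N2 + N3 + N4, fun N hN r1 r2 σ hr1 hr1c hr2 hr2c hσ g g' η hη0 hη1 hg hg' => ?_⟩
  obtain ⟨hNpos, herr⟩ := hN4 N (by omega)
  have hz2 : 2 ≤ rt s N := hN3 N (by omega)
  have herr' := herr (by omega)
  have hmaj := hN2 N (by omega)
  have hbx1 := hN1 N (by omega) r1 r2 σ hr1 hr1c hr2 hr2c hσ
  have hFb := bx3_P_le (w := w) hCj hs1 hW0 hNpos hmaj hr1
  have hFb2 := bx3_P_le (w := w) hCj hs1 hW0 hNpos hmaj hr2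
  set z : ℕ := rt s N with hz
  have hzs : z ^ s ≤ N := rt_pow_le hs1 N
  set S : Finset ℕ := sprimes w z with hS
  have hStp : Stp C2 A w z W N S := by
    refine ⟨by omega, by omega, hz2, pset_sprimes w z, hW, le_trans ?_ hzs⟩
    apply Nat.pow_le_pow_right (by omega)
    exact le_trans (Nat.mul_le_mul_right A (by omega)) hCAs
  set L : ℝ := 1 + Real.log (5 * W * N) with hL
  have hlog0 : 0 ≤ Real.log (5 * W * N) := by
    apply Real.log_nonneg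
    have : 1 ≤ 5 * W * N := Nat.mul_pos (by omega) hNpos
    exact_mod_cast this
  have hL1 : 1 ≤ L := by linarith
  have hlam : ∀ r : ℤ, |r| < 2 * W → ∀ n : ℤ, 0 ≤ n → n < 2 * N → |lam W r n| ≤ L := by
    intro r hr n h0 h1
    have a1 := rc_lamv_le hW0 hNpos _ (rc_arg_le hW0 hNpos hr h0 h1)
    have a2 := rc_lamv_nonneg W (r + W * n)
    unfold lam
    rw [abs_of_nonneg a2]
    linarith
  have hkk : ∀ x ∈ Finset.Ico (0 : ℤ) N, ∀ y ∈ Finset.Ico (0 : ℤ) N,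
      |ker W r1 r2 σ x y| ≤ 2 * L ^ 2 ∧ |bx3T W r1 r2 σ z N x y| ≤ 2 * L ^ 2 ∧
      |ker W r1 r2 σ x y - bx3T W r1 r2 σ z N x y| ≤
      2 * L ^ 2 * ((if |r1 + W * (x + y)| ≤ z then 1 else 0) +
      (if |r2 + W * (σ * (x - y))| ≤ z then 1 else 0)) := by
    intro x hx y hy
    rw [Finset.mem_Ico] at hx hy
    refine bx3_ker W N z r1 r2 σ x y hσ hx hy L hL1 (hlam r1 hr1 _ (by omega) (by omega)) ?_
    intro h
    refine hlam r2 hr2 _ h ?_
    rcases hσ with rfl | rfl <;> omega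
  have hcount := bx3_count N z W hW0 r1 r2 σ hσ
  have he0 : ∀ x y : ℤ, (0 : ℝ) ≤ (if |r1 + W * (x + y)| ≤ z then 1 else 0) +
      (if |r2 + W * (σ * (x - y))| ≤ z then 1 else 0) := by
    intro x y
    split_ifs <;> norm_num
  have hz1 : (1 : ℝ) ≤ z := by exact_mod_cast (by omega : 1 ≤ z)
  have hzK : (1 : ℝ) ≤ (z : ℝ) ^ K := one_le_pow₀ hz1
  have hgv : ∀ x, 0 ≤ g.val S W x ∧ g.val S W x ≤ (z : ℝ) ^ K := fun x =>
    bx3_val_le (by omega) (by omega) (by omega) g W x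
  have hgv' : ∀ x, 0 ≤ g'.val S W x ∧ g'.val S W x ≤ (z : ℝ) ^ K := fun x =>
    bx3_val_le (by omega) (by omega) (by omega) g' W x
  -- the two truncations
  have hd1 := bx3_diff (N := N) (k := ker W r1 r2 σ) (k' := bx3T W r1 r2 σ z N)
    (F := g.val S W) (G := g'.val S W) (M := (z : ℝ) ^ K) (B := 2 * L ^ 2)
    (by positivity) (by positivity) hgv hgv' he0
    (fun x hx y hy => (hkk x hx y hy).1) (fun x hx y hy => (hkk x hx y hy).2.1)
    (fun x hx y hy => (hkk x hx y hy).2.2) hcount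
  have hd2 := bx3_diff (N := N) (k := ker W r1 r2 σ) (k' := bx3T W r1 r2 σ z N)
    (F := fun _ => 1) (G := fun _ => 1) (M := (z : ℝ) ^ K) (B := 2 * L ^ 2)
    (by positivity) (by positivity) (fun _ => ⟨zero_le_one, hzK⟩) (fun _ => ⟨zero_le_one, hzK⟩) he0
    (fun x hx y hy => (hkk x hx y hy).1) (fun x hx y hy => (hkk x hx y hy).2.1)
    (fun x hx y hy => (hkk x hx y hy).2.2) hcount
  have hd1' := le_trans hd1 herr'
  have hd2' := le_trans hd2 herr'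
  -- removal of the weights
  set κ : ℝ := Cj * s with hκ
  have hsr : (1 : ℝ) ≤ s := by exact_mod_cast hs1
  have hκ1 : 1 ≤ κ := by rw [hκ]; nlinarith
  have hw2 : 1 ≤ w := by omega
  have herm : er C2 A w ≤ er C A w := rc_er_mono (by omega) (by omega) hw2
  have her0 : 0 ≤ er C A w := er_nonneg _ _ _
  set R : ℝ := Real.sqrt (er C A w + η) with hR
  have hR0 : 0 ≤ R := Real.sqrt_nonneg _
  have hR2 : R ^ 2 = er C A w + η := Real.sq_sqrt (by linarith)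
  have hC2r : (1 : ℝ) ≤ C2 := by exact_mod_cast (by omega : 1 ≤ C2)
  have hN0 : (0 : ℝ) ≤ N := Nat.cast_nonneg _
  have hterm : ∀ a : Fin 4 → Bool,
      |∑ x ∈ Finset.Ico (0 : ℤ) N, ∑ x' ∈ Finset.Ico (0 : ℤ) N, ∑ y ∈ Finset.Ico (0 : ℤ) N,
      ∑ y' ∈ Finset.Ico (0 : ℤ) N, gdev g g' S W x x' y y' *
      ((bx3F W r1 z N (a 0) (x + y) * bx3F W r2 z N (a 0) (σ * (x - y)) *
        (bx3F W r1 z N (a 1) (x + y') * bx3F W r2 z N (a 1) (σ * (x - y')))) *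
      (bx3F W r1 z N (a 2) (x' + y) * bx3F W r2 z N (a 2) (σ * (x' - y)) *
        (bx3F W r1 z N (a 3) (x' + y') * bx3F W r2 z N (a 3) (σ * (x' - y')))))| ≤
      C2 * κ ^ 8 * R * N ^ 4 := by
    intro a
    have h := h2 A w z W N S hStp g g' η hη0 hη1 hg hg' r1 (σ * r2) κ
      (fun i n => bx3F W r1 z N (a i) n) (fun i n => bx3F W r2 z N (a i) (σ * n)) hκ1
      (fun i n => hFb (a i) n) ?_ ?_ ?_
    · apply abs_le_of_sq_le_sq _ (by positivity)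
      refine le_trans h ?_
      calc C2 * κ ^ 16 * (er C2 A w + η) * (N : ℝ) ^ 8
          ≤ (C2 * C2) * κ ^ 16 * (er C A w + η) * N ^ 8 := by
            have : (C2 : ℝ) ≤ C2 * C2 := by nlinarith
            have e2 : 0 ≤ er C2 A w := er_nonneg _ _ _
            gcongr
        _ = (C2 * κ ^ 8 * R * N ^ 4) ^ 2 := by
            rw [← hR2]
            ring
    · intro i n
      have h1 := hFb2 (a i) (σ * n)
      rcases hσ with rfl | rfl
      · simpa using h1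
      · have e1 : (-1 * r2 + W * n : ℤ) = -(r2 + W * (-1 * n)) := by ring
        rw [e1, rc_rho_neg]
        exact h1
    · intro i n hn
      rw [Finset.mem_Ico] at hn
      apply bx3_F_supp
      omega
    · intro i n hn
      rw [Finset.mem_Ico] at hn
      apply bx3_F_supp
      rcases hσ with rfl | rfl <;> omega
  have hrem : box N (bx3T W r1 r2 σ z N) (g.val S W) (g'.val S W) -
      box N (bx3T W r1 r2 σ z N) (fun _ => 1) (fun _ => 1) =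
      ∑ a : Fin 4 → Bool, (∏ i, bx3s (a i)) *
      ∑ x ∈ Finset.Ico (0 : ℤ) N, ∑ x' ∈ Finset.Ico (0 : ℤ) N, ∑ y ∈ Finset.Ico (0 : ℤ) N,
      ∑ y' ∈ Finset.Ico (0 : ℤ) N, gdev g g' S W x x' y y' *
      ((bx3F W r1 z N (a 0) (x + y) * bx3F W r2 z N (a 0) (σ * (x - y)) *
        (bx3F W r1 z N (a 1) (x + y') * bx3F W r2 z N (a 1) (σ * (x - y')))) *
      (bx3F W r1 z N (a 2) (x' + y) * bx3F W r2 z N (a 2) (σ * (x' - y)) *
        (bx3F W r1 z N (a 3) (x' + y') * bx3F W r2 z N (a 3) (σ * (x' - y'))))) := by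
    rw [box_expand, box_expand, ← Finset.sum_sub_distrib]
    simp only [Finset.mul_sum]
    rw [Finset.sum_comm]
    apply Finset.sum_congr rfl
    intro x _
    rw [← Finset.sum_sub_distrib, Finset.sum_comm]
    apply Finset.sum_congr rfl
    intro x' _
    rw [← Finset.sum_sub_distrib, Finset.sum_comm]
    apply Finset.sum_congr rfl
    intro y _
    rw [← Finset.sum_sub_distrib, Finset.sum_comm]
    apply Finset.sum_congr rfl
    intro y' _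
    rw [← sub_mul, bx3_expand, Finset.mul_sum]
    apply Finset.sum_congr rfl
    intro a _
    unfold gdev
    ring
  have hrem2 : |box N (bx3T W r1 r2 σ z N) (g.val S W) (g'.val S W) -
      box N (bx3T W r1 r2 σ z N) (fun _ => 1) (fun _ => 1)| ≤ 16 * (C2 * κ ^ 8 * R * N ^ 4) := by
    rw [hrem]
    refine (Finset.abs_sum_le_sum_abs _ _).trans ?_
    calc _ ≤ ∑ _a : Fin 4 → Bool, C2 * κ ^ 8 * R * (N : ℝ) ^ 4 := by
          apply Finset.sum_le_sum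
          intro a _
          rw [abs_mul, bx3_s_abs, one_mul]
          exact hterm a
      _ = _ := by
          rw [Finset.sum_const, Finset.card_univ, nsmul_eq_mul]
          simp
  have hfin : 16 * (C2 * κ ^ 8 * R * (N : ℝ) ^ 4) ≤ C * s ^ 8 * R * N ^ 4 := by
    have h1 : 16 * C2 * Cj ^ 8 ≤ (C : ℝ) := by
      refine hCr.trans ?_
      exact_mod_cast (by omega : Cr ≤ C)
    calc 16 * (C2 * κ ^ 8 * R * (N : ℝ) ^ 4) = (16 * C2 * Cj ^ 8) * s ^ 8 * R * N ^ 4 := by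
          rw [hκ]; ring
      _ ≤ _ := by gcongr
  have a1 := (abs_le.mp hd1').2
  have a2 := (abs_le.mp hd2').1
  have a3 := (abs_le.mp hrem2).2
  have : (ε + C * s ^ 8 * R) * (N : ℝ) ^ 4 = ε * N ^ 4 + C * s ^ 8 * R * N ^ 4 := by ring
  rw [this]
  linarith

end Pool.Agent.Lib.H18GB
end

-- from Lib.H18GB2.BXM
section

/-!
# Project GB2: BXM (box sums with admissible weights, sparse-sparse estimate)
-/

namespace Pool.Agent.Lib.H18GB

open Finset Pool.Agent.Lib.Sieve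

/-! ## Elementary choices of constants -/

theorem bxm_exists_A (C : ℕ) (hC : 1 ≤ C) (c : ℝ) (hc : 0 < c) :
    ∃ A : ℕ, C ≤ A ∧ (2:ℝ) ^ (-(A:ℝ) / C) * ((C * A : ℕ) : ℝ) ^ 40 ≤ c := by
  have hC0 : (0:ℝ) < C := by exact_mod_cast hC
  have hr0 : (0:ℝ) < (2:ℝ) ^ (-(1:ℝ) / C) := Real.rpow_pos_of_pos (by norm_num) _
  have hr1 : (2:ℝ) ^ (-(1:ℝ) / C) < 1 := by
    apply Real.rpow_lt_one_of_one_lt_of_neg (by norm_num)
    rw [neg_div]
    have : (0:ℝ) < 1 / C := by positivity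
    linarith
  have h := tendsto_pow_const_mul_const_pow_of_abs_lt_one 40
    (r := (2:ℝ) ^ (-(1:ℝ) / C)) (by rw [abs_of_pos hr0]; exact hr1)
  have h' : Filter.Tendsto (fun n : ℕ => (C:ℝ) ^ 40 * ((n:ℝ) ^ 40 * ((2:ℝ) ^ (-(1:ℝ) / C)) ^ n))
      Filter.atTop (nhds 0) := by
    simpa using h.const_mul ((C:ℝ) ^ 40)
  obtain ⟨A, hA1, hA2⟩ := ((h'.eventually (gt_mem_nhds hc)).and
    (Filter.eventually_ge_atTop C)).exists
  refine ⟨A, hA2, ?_⟩
  have e1 : (2:ℝ) ^ (-(A:ℝ) / C) = ((2:ℝ) ^ (-(1:ℝ) / C)) ^ A := by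
    rw [← Real.rpow_natCast, ← Real.rpow_mul (by norm_num)]
    congr 1
    ring
  rw [e1]
  refine le_trans (le_of_eq ?_) hA1.le
  push_cast
  ring

/-- The removed part is small. -/
theorem bxm_small (W : ℕ) (hW : 0 < W) (ε : ℝ) (hε : 0 < ε) : ∃ N0 : ℕ, ∀ N : ℕ, N0 ≤ N →
    (24 * Real.sqrt N + 12) * (1 + LL W N) ^ 20 ≤ ε * N := by
  have h1 : ∀ᶠ N : ℕ in Filter.atTop,
      (Real.log N) ^ (20 : ℝ) ≤ ε / (36 * 3 ^ 20) * (N : ℝ) ^ (1 / 2 : ℝ) := by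
    have h := (isLittleO_log_rpow_rpow_atTop (s := 1 / 2) 20 (by norm_num)).bound
      (show 0 < ε / (36 * 3 ^ 20) by positivity)
    have h' := tendsto_natCast_atTop_atTop.eventually h
    filter_upwards [h', Filter.eventually_ge_atTop 1] with N hN hN1
    rw [Real.norm_of_nonneg (by positivity), Real.norm_of_nonneg (by positivity)] at hN
    exact hN
  have h2 : ∀ᶠ N : ℕ in Filter.atTop, (1 : ℝ) ≤ Real.log N :=
    (Real.tendsto_log_atTop.comp tendsto_natCast_atTop_atTop).eventually_ge_atTop 1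
  have h3 : ∀ᶠ N : ℕ in Filter.atTop, 5 * W ≤ N := Filter.eventually_ge_atTop _
  have h4 : ∀ᶠ N : ℕ in Filter.atTop, 1 ≤ N := Filter.eventually_ge_atTop _
  obtain ⟨N0, hN0⟩ := Filter.eventually_atTop.mp (h1.and (h2.and (h3.and h4)))
  refine ⟨N0, fun N hN => ?_⟩
  obtain ⟨a1, a2, a3, a4⟩ := hN0 N hN
  have hNr : (1 : ℝ) ≤ N := by exact_mod_cast a4
  have hWr : (1 : ℝ) ≤ W := by exact_mod_cast hW
  have hL : LL W N ≤ 2 * Real.log N := by
    unfold LL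
    rw [Real.log_mul (by positivity) (by positivity)]
    have : Real.log (5 * W) ≤ Real.log N := Real.log_le_log (by positivity) (by exact_mod_cast a3)
    linarith
  have hL0 := LL_nonneg hW a4
  have hsq : 1 ≤ Real.sqrt N := Real.one_le_sqrt.mpr hNr
  have hss : Real.sqrt N * Real.sqrt N = N := Real.mul_self_sqrt (by linarith)
  rw [show (20 : ℝ) = ((20 : ℕ) : ℝ) by norm_num, Real.rpow_natCast, ← Real.sqrt_eq_rpow] at a1
  set l := Real.log (N : ℝ) with hl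
  have b1 : 1 + LL W N ≤ 3 * l := by linarith
  have b2 : (1 + LL W N) ^ 20 ≤ 3 ^ 20 * l ^ 20 := by
    rw [← mul_pow]
    exact pow_le_pow_left₀ (by positivity) b1 20
  have b3 : 3 ^ 20 * l ^ 20 ≤ ε / 36 * Real.sqrt N := by
    calc (3:ℝ) ^ 20 * l ^ 20 ≤ 3 ^ 20 * (ε / (36 * 3 ^ 20) * Real.sqrt N) :=
          mul_le_mul_of_nonneg_left a1 (by positivity)
      _ = ε / 36 * Real.sqrt N := by field_simp
  have b4 : (24 * Real.sqrt N + 12) ≤ 36 * Real.sqrt N := by linarith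
  calc (24 * Real.sqrt N + 12) * (1 + LL W N) ^ 20
      ≤ (36 * Real.sqrt N) * (ε / 36 * Real.sqrt N) := by
        apply mul_le_mul b4 (b2.trans b3) (by positivity) (by positivity)
    _ = ε * (Real.sqrt N * Real.sqrt N) := by ring
    _ = ε * N := by rw [hss]

/-! ## Removal of a few points -/

open Classical in
/-- restriction to the complement of `B` -/
noncomputable def bxm_r (B : Finset ℤ) (F : ℤ → ℝ) (x : ℤ) : ℝ := if x ∈ B then 0 else F x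

open Classical in
/-- the indicator of `B` -/
noncomputable def bxm_i (B : Finset ℤ) (x : ℤ) : ℝ := if x ∈ B then 1 else 0

theorem bxm_i_nonneg (B : Finset ℤ) (x : ℤ) : 0 ≤ bxm_i B x := by
  unfold bxm_i
  split_ifs <;> norm_num

theorem bxm_i_sum (B I : Finset ℤ) : ∑ x ∈ I, bxm_i B x ≤ B.card := by
  classical
  unfold bxm_i
  rw [Finset.sum_ite, Finset.sum_const_zero, add_zero, Finset.sum_const, nsmul_eq_mul, mul_one]
  exact_mod_cast Finset.card_le_card (fun x hx => (Finset.mem_filter.mp hx).2)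

/-- one term -/
theorem bxm_term {B B' : Finset ℤ} {F G : ℤ → ℝ} {P R : ℝ} (hP : 0 ≤ P) (hR : 0 ≤ R) (x x' y y' : ℤ)
    (h1 : 0 ≤ F x) (h2 : 0 ≤ F x') (h3 : 0 ≤ G y) (h4 : 0 ≤ G y')
    (g1 : F x ≤ P) (g2 : F x' ≤ P) (g3 : G y ≤ P) (g4 : G y' ≤ P) (q : ℝ) (hq : |q| ≤ R) :
    F x * F x' * G y * G y' * q ≤
      bxm_r B F x * bxm_r B F x' * bxm_r B' G y * bxm_r B' G y' * q +
      P ^ 4 * R * (bxm_i B x + bxm_i B x' + bxm_i B' y + bxm_i B' y') := by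
  have hi1 := bxm_i_nonneg B x
  have hi2 := bxm_i_nonneg B x'
  have hi3 := bxm_i_nonneg B' y
  have hi4 := bxm_i_nonneg B' y'
  have hPR : 0 ≤ P ^ 4 * R := by positivity
  have hb : F x * F x' * G y * G y' * q ≤ P ^ 4 * R := by
    have hprod : F x * F x' * G y * G y' ≤ P ^ 4 := by
      calc F x * F x' * G y * G y' ≤ P * P * P * P := by
            apply mul_le_mul (mul_le_mul (mul_le_mul g1 g2 h2 hP) g3 h3 (by positivity)) g4 h4
              (by positivity)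
        _ = P ^ 4 := by ring
    calc F x * F x' * G y * G y' * q ≤ F x * F x' * G y * G y' * |q| :=
          mul_le_mul_of_nonneg_left (le_abs_self q) (by positivity)
      _ ≤ P ^ 4 * R := mul_le_mul hprod hq (abs_nonneg _) (by positivity)
  by_cases c1 : x ∈ B
  · have e1 : bxm_i B x = 1 := by simp [bxm_i, c1]
    have e2 : bxm_r B F x = 0 := by simp [bxm_r, c1]
    rw [e2, e1]
    nlinarith [mul_nonneg hPR hi2, mul_nonneg hPR hi3, mul_nonneg hPR hi4]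
  by_cases c2 : x' ∈ B
  · have e1 : bxm_i B x' = 1 := by simp [bxm_i, c2]
    have e2 : bxm_r B F x' = 0 := by simp [bxm_r, c2]
    rw [e2, e1]
    nlinarith [mul_nonneg hPR hi1, mul_nonneg hPR hi3, mul_nonneg hPR hi4]
  by_cases c3 : y ∈ B'
  · have e1 : bxm_i B' y = 1 := by simp [bxm_i, c3]
    have e2 : bxm_r B' G y = 0 := by simp [bxm_r, c3]
    rw [e2, e1]
    nlinarith [mul_nonneg hPR hi1, mul_nonneg hPR hi2, mul_nonneg hPR hi4]
  by_cases c4 : y' ∈ B'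
  · have e1 : bxm_i B' y' = 1 := by simp [bxm_i, c4]
    have e2 : bxm_r B' G y' = 0 := by simp [bxm_r, c4]
    rw [e2, e1]
    nlinarith [mul_nonneg hPR hi1, mul_nonneg hPR hi2, mul_nonneg hPR hi3]
  have e1 : bxm_r B F x = F x := by simp [bxm_r, c1]
  have e2 : bxm_r B F x' = F x' := by simp [bxm_r, c2]
  have e3 : bxm_r B' G y = G y := by simp [bxm_r, c3]
  have e4 : bxm_r B' G y' = G y' := by simp [bxm_r, c4]
  rw [e1, e2, e3, e4]
  have : 0 ≤ P ^ 4 * R * (bxm_i B x + bxm_i B x' + bxm_i B' y + bxm_i B' y') := by positivity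
  linarith

/-- removal of the exceptional sets -/
theorem bxm_remove {N : ℕ} {k : ℤ → ℤ → ℝ} {F G : ℤ → ℝ} {P R : ℝ} (hP : 0 ≤ P) (hR : 0 ≤ R)
    (B B' : Finset ℤ)
    (h1 : ∀ x ∈ Finset.Ico (0 : ℤ) N, 0 ≤ F x) (h2 : ∀ x ∈ Finset.Ico (0 : ℤ) N, 0 ≤ G x)
    (g1 : ∀ x ∈ Finset.Ico (0 : ℤ) N, F x ≤ P) (g2 : ∀ x ∈ Finset.Ico (0 : ℤ) N, G x ≤ P)
    (hk : ∀ x ∈ Finset.Ico (0 : ℤ) N, ∀ y ∈ Finset.Ico (0 : ℤ) N, |k x y| ≤ R) :
    box N k F G ≤ box N k (bxm_r B F) (bxm_r B' G) +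
      P ^ 4 * R ^ 4 * ((2 * B.card + 2 * B'.card) * N ^ 3) := by
  have hsum : ∑ x ∈ Finset.Ico (0 : ℤ) N, ∑ x' ∈ Finset.Ico (0 : ℤ) N, ∑ y ∈ Finset.Ico (0 : ℤ) N,
      ∑ y' ∈ Finset.Ico (0 : ℤ) N,
        (bxm_i B x + bxm_i B x' + bxm_i B' y + bxm_i B' y') =
      (2 * (∑ x ∈ Finset.Ico (0 : ℤ) N, bxm_i B x) + 2 * (∑ x ∈ Finset.Ico (0 : ℤ) N, bxm_i B' x)) *
        N ^ 3 := by
    simp only [Finset.sum_add_distrib, Finset.sum_const, Int.card_Ico, nsmul_eq_mul,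
      ← Finset.mul_sum, sub_zero, Int.toNat_natCast]
    ring
  have hle : ∑ x ∈ Finset.Ico (0 : ℤ) N, ∑ x' ∈ Finset.Ico (0 : ℤ) N, ∑ y ∈ Finset.Ico (0 : ℤ) N,
      ∑ y' ∈ Finset.Ico (0 : ℤ) N,
        (bxm_i B x + bxm_i B x' + bxm_i B' y + bxm_i B' y') ≤
      (2 * B.card + 2 * B'.card) * N ^ 3 := by
    rw [hsum]
    apply mul_le_mul_of_nonneg_right _ (by positivity)
    have a1 := bxm_i_sum B (Finset.Ico (0 : ℤ) N)
    have a2 := bxm_i_sum B' (Finset.Ico (0 : ℤ) N)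
    linarith
  rw [box_expand N k F G, box_expand N k (bxm_r B F) (bxm_r B' G)]
  have hmain : ∑ x ∈ Finset.Ico (0 : ℤ) N, ∑ x' ∈ Finset.Ico (0 : ℤ) N, ∑ y ∈ Finset.Ico (0 : ℤ) N,
      ∑ y' ∈ Finset.Ico (0 : ℤ) N, F x * F x' * G y * G y' *
        ((k x y * k x y') * (k x' y * k x' y')) ≤
      ∑ x ∈ Finset.Ico (0 : ℤ) N, ∑ x' ∈ Finset.Ico (0 : ℤ) N, ∑ y ∈ Finset.Ico (0 : ℤ) N,
      ∑ y' ∈ Finset.Ico (0 : ℤ) N,
        (bxm_r B F x * bxm_r B F x' * bxm_r B' G y * bxm_r B' G y' *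
          ((k x y * k x y') * (k x' y * k x' y')) +
        P ^ 4 * R ^ 4 * (bxm_i B x + bxm_i B x' + bxm_i B' y + bxm_i B' y')) := by
    refine Finset.sum_le_sum fun x hx => Finset.sum_le_sum fun x' hx' =>
      Finset.sum_le_sum fun y hy => Finset.sum_le_sum fun y' hy' => ?_
    refine bxm_term hP (by positivity) x x' y y' (h1 x hx) (h1 x' hx') (h2 y hy) (h2 y' hy')
      (g1 x hx) (g1 x' hx') (g2 y hy) (g2 y' hy') _ ?_
    rw [abs_mul, abs_mul, abs_mul]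
    calc |k x y| * |k x y'| * (|k x' y| * |k x' y'|) ≤ R * R * (R * R) := by
          apply mul_le_mul
            (mul_le_mul (hk x hx y hy) (hk x hx y' hy') (abs_nonneg _) hR)
            (mul_le_mul (hk x' hx' y hy) (hk x' hx' y' hy') (abs_nonneg _) hR)
            (by positivity) (by positivity)
      _ = R ^ 4 := by ring
  refine hmain.trans ?_
  have hPR : 0 ≤ P ^ 4 * R ^ 4 := by positivity
  have hsplit : ∑ x ∈ Finset.Ico (0 : ℤ) N, ∑ x' ∈ Finset.Ico (0 : ℤ) N,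
      ∑ y ∈ Finset.Ico (0 : ℤ) N, ∑ y' ∈ Finset.Ico (0 : ℤ) N,
        (bxm_r B F x * bxm_r B F x' * bxm_r B' G y * bxm_r B' G y' *
          ((k x y * k x y') * (k x' y * k x' y')) +
        P ^ 4 * R ^ 4 * (bxm_i B x + bxm_i B x' + bxm_i B' y + bxm_i B' y')) =
      (∑ x ∈ Finset.Ico (0 : ℤ) N, ∑ x' ∈ Finset.Ico (0 : ℤ) N, ∑ y ∈ Finset.Ico (0 : ℤ) N,
        ∑ y' ∈ Finset.Ico (0 : ℤ) N, bxm_r B F x * bxm_r B F x' * bxm_r B' G y * bxm_r B' G y' *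
          ((k x y * k x y') * (k x' y * k x' y'))) +
      P ^ 4 * R ^ 4 * ∑ x ∈ Finset.Ico (0 : ℤ) N, ∑ x' ∈ Finset.Ico (0 : ℤ) N,
        ∑ y ∈ Finset.Ico (0 : ℤ) N, ∑ y' ∈ Finset.Ico (0 : ℤ) N,
          (bxm_i B x + bxm_i B x' + bxm_i B' y + bxm_i B' y') := by
    simp only [Finset.mul_sum]
    rw [← Finset.sum_add_distrib]
    refine Finset.sum_congr rfl fun x _ => ?_
    rw [← Finset.sum_add_distrib]
    refine Finset.sum_congr rfl fun x' _ => ?_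
    rw [← Finset.sum_add_distrib]
    refine Finset.sum_congr rfl fun y _ => ?_
    rw [← Finset.sum_add_distrib]
  rw [hsplit]
  exact add_le_add le_rfl (mul_le_mul_of_nonneg_left hle hPR)

theorem bxm_val_nonneg {ι υ : Type} [Fintype ι] [Fintype υ] (g : GW ι υ) {w : ℕ} (hw : 2 ≤ w)
    (z W : ℕ) (x : ℤ) : 0 ≤ g.val (sprimes w z) W x := by
  have hP : ∀ p ∈ sprimes w z, p.Prime := (pset_sprimes w z).prime
  unfold GW.val
  apply mul_nonneg
  · exact Finset.prod_nonneg fun i _ => rho_nonneg hP _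
  · refine Finset.prod_nonneg fun u _ => div_nonneg (mul_nonneg (rho_nonneg hP _)
      (rho_nonneg hP _)) ?_
    exact (VV_pos hP).le.trans (rc_VV_le_SGp hw _)

/-! ## One pair of shapes -/

/-- the condition on the constants -/
def BxmCond (C A : ℕ) (K ε : ℝ) : Prop :=
  (K * ((C * A : ℕ) : ℝ) ^ 3) ^ 4 * (C * ((C * A : ℕ) : ℝ) ^ 8 *
    Real.sqrt (2 * (2 : ℝ) ^ (-(A : ℝ) / C))) ≤ ε / 4

/-- the estimate for two classes of weights -/
def BxmS (D D' : Finset ℕ → ℕ → ℕ → ℕ → ℝ → Finset ℤ → (ℤ → ℝ) → Prop) : Prop :=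
  ∃ C : ℕ, 2 ≤ C ∧ ∀ C' A : ℕ, C ≤ C' → C' ≤ A → ∀ K ε : ℝ, 1 ≤ K → 0 < ε → BxmCond C' A K ε →
    ∃ w0 : ℕ, ∀ w W : ℕ, w0 ≤ w → IsW w W → ∃ N0 : ℕ, ∀ N : ℕ, N0 ≤ N → ∀ (r1 r2 σ : ℤ),
    |r1| < 2 * W → IsCoprime r1 (W : ℤ) → |r2| < 2 * W → IsCoprime r2 (W : ℤ) →
    (σ = 1 ∨ σ = -1) → ∀ (F G : ℤ → ℝ) (B B' : Finset ℤ),
    (∀ x, 0 ≤ F x) → (∀ x, 0 ≤ G x) →
    (∀ x ∈ Finset.Ico (0 : ℤ) N, F x ≤ (1 + LL W N) ^ 3) →
    (∀ x ∈ Finset.Ico (0 : ℤ) N, G x ≤ (1 + LL W N) ^ 3) →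
    B.card ≤ 6 * rt (C' * A) N + 3 → B'.card ≤ 6 * rt (C' * A) N + 3 →
    D (sprimes w (rt (C' * A) N)) w W N (K * ((C' * A : ℕ) : ℝ) ^ 3) B F →
    D' (sprimes w (rt (C' * A) N)) w W N (K * ((C' * A : ℕ) : ℝ) ^ 3) B' G →
    box N (ker W r1 r2 σ) F G ≤ ε * N ^ 4

theorem BxmS.or_left {D1 D2 D' : Finset ℕ → ℕ → ℕ → ℕ → ℝ → Finset ℤ → (ℤ → ℝ) → Prop}
    (h1 : BxmS D1 D') (h2 : BxmS D2 D') :
    BxmS (fun S w W N K B F => D1 S w W N K B F ∨ D2 S w W N K B F) D' := by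
  obtain ⟨C1, hC1, h1⟩ := h1
  obtain ⟨C2, hC2, h2⟩ := h2
  refine ⟨max C1 C2, hC1.trans (le_max_left _ _), fun C' A hC hA K ε hK hε hc => ?_⟩
  obtain ⟨w1, h1⟩ := h1 C' A ((le_max_left _ _).trans hC) hA K ε hK hε hc
  obtain ⟨w2, h2⟩ := h2 C' A ((le_max_right _ _).trans hC) hA K ε hK hε hc
  refine ⟨max w1 w2, fun w W hw hW => ?_⟩
  obtain ⟨N1, h1⟩ := h1 w W ((le_max_left _ _).trans hw) hW
  obtain ⟨N2, h2⟩ := h2 w W ((le_max_right _ _).trans hw) hW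
  refine ⟨max N1 N2, fun N hN r1 r2 σ a1 a2 a3 a4 a5 F G B B' b1 b2 b3 b4 b5 b6 b7 b8 => ?_⟩
  rcases b7 with b7 | b7
  · exact h1 N ((le_max_left _ _).trans hN) r1 r2 σ a1 a2 a3 a4 a5 F G B B' b1 b2 b3 b4 b5 b6 b7 b8
  · exact h2 N ((le_max_right _ _).trans hN) r1 r2 σ a1 a2 a3 a4 a5 F G B B' b1 b2 b3 b4 b5 b6 b7 b8

theorem BxmS.or_right {D D1 D2 : Finset ℕ → ℕ → ℕ → ℕ → ℝ → Finset ℤ → (ℤ → ℝ) → Prop}
    (h1 : BxmS D D1) (h2 : BxmS D D2) :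
    BxmS D (fun S w W N K B F => D1 S w W N K B F ∨ D2 S w W N K B F) := by
  obtain ⟨C1, hC1, h1⟩ := h1
  obtain ⟨C2, hC2, h2⟩ := h2
  refine ⟨max C1 C2, hC1.trans (le_max_left _ _), fun C' A hC hA K ε hK hε hc => ?_⟩
  obtain ⟨w1, h1⟩ := h1 C' A ((le_max_left _ _).trans hC) hA K ε hK hε hc
  obtain ⟨w2, h2⟩ := h2 C' A ((le_max_right _ _).trans hC) hA K ε hK hε hc
  refine ⟨max w1 w2, fun w W hw hW => ?_⟩
  obtain ⟨N1, h1⟩ := h1 w W ((le_max_left _ _).trans hw) hW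
  obtain ⟨N2, h2⟩ := h2 w W ((le_max_right _ _).trans hw) hW
  refine ⟨max N1 N2, fun N hN r1 r2 σ a1 a2 a3 a4 a5 F G B B' b1 b2 b3 b4 b5 b6 b7 b8 => ?_⟩
  rcases b8 with b8 | b8
  · exact h1 N ((le_max_left _ _).trans hN) r1 r2 σ a1 a2 a3 a4 a5 F G B B' b1 b2 b3 b4 b5 b6 b7 b8
  · exact h2 N ((le_max_right _ _).trans hN) r1 r2 σ a1 a2 a3 a4 a5 F G B B' b1 b2 b3 b4 b5 b6 b7 b8

theorem bxm_card {s N c : ℕ} (hs : 2 ≤ s) (h : c ≤ 6 * rt s N + 3) :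
    (c : ℝ) ≤ 6 * Real.sqrt N + 3 := by
  have h1 : (c : ℝ) ≤ 6 * rt s N + 3 := by exact_mod_cast h
  have h2 := rt_sq_le hs N
  linarith

/-- One pair of shapes. -/
theorem bxm_pair (ι υ ι' υ' : Type) [Fintype ι] [Fintype υ] [Fintype ι'] [Fintype υ'] :
    BxmS (DomBy ι υ) (DomBy ι' υ') := by
  obtain ⟨C, hC, hbx⟩ := bx3 ι υ ι' υ'
  refine ⟨C, hC, fun C' A hCC hA K ε hK hε hc => ?_⟩
  have hC'pos : 0 < C' := by omega
  have hApos : 0 < A := by omega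
  have hs2 : 2 ≤ C' * A := by nlinarith
  obtain ⟨s, hs⟩ : ∃ s : ℕ, s = C' * A := ⟨_, rfl⟩
  rw [← hs] at hs2
  unfold BxmCond at hc
  rw [← hs] at hc ⊢
  have hsr : (1 : ℝ) ≤ (s : ℝ) := by exact_mod_cast (by omega : 1 ≤ s)
  set M : ℝ := (K * (s : ℝ) ^ 3) ^ 4 with hM
  have hMpos : 0 < M := by positivity
  have hε' : 0 < ε / (4 * M) := by positivity
  obtain ⟨w1, hw1⟩ := hbx s A (ε / (4 * M)) hε' (by omega) (by rw [hs]; exact Nat.mul_le_mul_right _ hCC)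
  set τ : ℝ := (2 : ℝ) ^ (-(A : ℝ) / C') with hτ
  have hτpos : 0 < τ := Real.rpow_pos_of_pos (by norm_num) _
  obtain ⟨w2, hw2⟩ := rc_exists_w C' (by omega) (τ / 2) (by positivity)
  obtain ⟨w3, hw3⟩ := rc_exists_w 4 (by norm_num) (τ / 2) (by positivity)
  refine ⟨max (max w1 w2) (max w3 2), fun w W hw hW => ?_⟩
  have e1 : w1 ≤ w := le_trans (le_trans (le_max_left _ _) (le_max_left _ _)) hw
  have e2 : w2 ≤ w := le_trans (le_trans (le_max_right _ _) (le_max_left _ _)) hw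
  have e3 : w3 ≤ w := le_trans (le_trans (le_max_left _ _) (le_max_right _ _)) hw
  have e4 : 2 ≤ w := le_trans (le_trans (le_max_right _ _) (le_max_right _ _)) hw
  obtain ⟨N1, hN1⟩ := hw1 w W e1 hW
  obtain ⟨N2, hN2⟩ := bxm_small W hW.1 (ε / 2) (by positivity)
  refine ⟨max (max N1 N2) 1, fun N hN r1 r2 σ a1 a2 a3 a4 a5 F G B B' b1 b2 b3 b4 b5 b6 b7 b8 => ?_⟩
  have f1 : N1 ≤ N := le_trans (le_trans (le_max_left _ _) (le_max_left _ _)) hN
  have f2 : N2 ≤ N := le_trans (le_trans (le_max_right _ _) (le_max_left _ _)) hN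
  have f3 : 1 ≤ N := le_trans (le_max_right _ _) hN
  have hNr : (1 : ℝ) ≤ (N : ℝ) := by exact_mod_cast f3
  have hL := LL_nonneg hW.1 (by omega : 0 < N)
  -- the parameter η
  have hw0 : (1 : ℝ) ≤ (w : ℝ) := by exact_mod_cast (by omega : 1 ≤ w)
  have hη0 : 0 ≤ (w : ℝ) ^ (-(1 / 4 : ℝ)) := Real.rpow_nonneg (by linarith) _
  have hη1 : (w : ℝ) ^ (-(1 / 4 : ℝ)) ≤ 1 := Real.rpow_le_one_of_one_le_of_nonpos hw0 (by norm_num)
  have hη2 : (w : ℝ) ^ (-(1 / 4 : ℝ)) ≤ τ / 2 := by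
    have := hw3 w e3
    rw [show (-(1:ℝ) / ((4 : ℕ) : ℝ)) = -(1 / 4 : ℝ) by norm_num] at this
    exact this
  have her : er C A w + (w : ℝ) ^ (-(1 / 4 : ℝ)) ≤ 2 * τ := by
    have g1 := rc_er_mono (A := A) (w := w) (by omega : 1 ≤ C) hCC (by omega)
    have g2 : er C' A w ≤ τ + τ / 2 := by
      unfold er
      exact add_le_add le_rfl (hw2 w e2)
    linarith
  obtain ⟨g, hg, hgF⟩ := b7
  obtain ⟨g', hg', hgG⟩ := b8
  -- removal
  have hrem := bxm_remove (k := ker W r1 r2 σ) (F := F) (G := G) (P := (1 + LL W N) ^ 3)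
    (R := (1 + LL W N) ^ 2) (by positivity) (by positivity) B B' (fun x _ => b1 x)
    (fun x _ => b2 x) b3 b4 (fun x hx y hy => (ker_le hW.1 (by omega : 0 < N) a1 a3 a5 hx hy).trans
      (by nlinarith))
  -- main part
  have hKs : 0 ≤ K * (s : ℝ) ^ 3 := by positivity
  have hmono : box N (ker W r1 r2 σ) (bxm_r B F) (bxm_r B' G) ≤
      box N (ker W r1 r2 σ) (fun x => (K * (s : ℝ) ^ 3) * g.val (sprimes w (rt s N)) W x)
        (fun y => (K * (s : ℝ) ^ 3) * g'.val (sprimes w (rt s N)) W y) := by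
    apply box_mono
    · intro x _
      unfold bxm_r
      split_ifs
      · exact le_rfl
      · exact b1 x
    · intro x hx
      unfold bxm_r
      split_ifs with hxB
      · exact mul_nonneg hKs (bxm_val_nonneg g e4 _ _ _)
      · exact hgF x hx hxB
    · intro x _
      unfold bxm_r
      split_ifs
      · exact le_rfl
      · exact b2 x
    · intro x hx
      unfold bxm_r
      split_ifs with hxB
      · exact mul_nonneg hKs (bxm_val_nonneg g' e4 _ _ _)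
      · exact hgG x hx hxB
  rw [box_smul] at hmono
  have hmain := hN1 N f1 r1 r2 σ a1 a2 a3 a4 a5 g g' _ hη0 hη1 hg hg'
  have hsqrt : Real.sqrt (er C A w + (w : ℝ) ^ (-(1 / 4 : ℝ))) ≤ Real.sqrt (2 * τ) :=
    Real.sqrt_le_sqrt her
  have hCr : (C : ℝ) ≤ C' := by exact_mod_cast hCC
  have hcoef : (C : ℝ) * (s : ℝ) ^ 8 * Real.sqrt (er C A w + (w : ℝ) ^ (-(1 / 4 : ℝ))) ≤
      C' * (s : ℝ) ^ 8 * Real.sqrt (2 * τ) := by
    apply mul_le_mul (mul_le_mul_of_nonneg_right hCr (by positivity)) hsqrt (Real.sqrt_nonneg _)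
      (by positivity)
  have hmain2 : (K * (s : ℝ) ^ 3) ^ 2 * (K * (s : ℝ) ^ 3) ^ 2 *
      box N (ker W r1 r2 σ) (g.val (sprimes w (rt s N)) W) (g'.val (sprimes w (rt s N)) W) ≤
      ε / 2 * N ^ 4 := by
    have e : (K * (s : ℝ) ^ 3) ^ 2 * (K * (s : ℝ) ^ 3) ^ 2 = M := by rw [hM]; ring
    rw [e]
    have h1 : box N (ker W r1 r2 σ) (g.val (sprimes w (rt s N)) W)
        (g'.val (sprimes w (rt s N)) W) ≤
        (ε / (4 * M) + C' * (s : ℝ) ^ 8 * Real.sqrt (2 * τ)) * N ^ 4 :=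
      hmain.trans (mul_le_mul_of_nonneg_right (add_le_add le_rfl hcoef) (by positivity))
    have h2 : M * (ε / (4 * M) + C' * (s : ℝ) ^ 8 * Real.sqrt (2 * τ)) ≤ ε / 2 := by
      have : M * (ε / (4 * M)) = ε / 4 := by field_simp
      rw [mul_add, this]
      linarith
    calc M * box N (ker W r1 r2 σ) (g.val (sprimes w (rt s N)) W)
          (g'.val (sprimes w (rt s N)) W)
        ≤ M * ((ε / (4 * M) + C' * (s : ℝ) ^ 8 * Real.sqrt (2 * τ)) * N ^ 4) :=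
          mul_le_mul_of_nonneg_left h1 hMpos.le
      _ = (M * (ε / (4 * M) + C' * (s : ℝ) ^ 8 * Real.sqrt (2 * τ))) * N ^ 4 := by ring
      _ ≤ ε / 2 * N ^ 4 := mul_le_mul_of_nonneg_right h2 (by positivity)
  -- removed part
  have hcard1 := bxm_card hs2 b5
  have hcard2 := bxm_card hs2 b6
  have hsm := hN2 N f2
  have hremoved : ((1 + LL W N) ^ 3) ^ 4 * ((1 + LL W N) ^ 2) ^ 4 *
      ((2 * B.card + 2 * B'.card) * N ^ 3) ≤ ε / 2 * N ^ 4 := by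
    have h1 : (2 * (B.card : ℝ) + 2 * B'.card) ≤ 24 * Real.sqrt N + 12 := by linarith
    calc ((1 + LL W N) ^ 3) ^ 4 * ((1 + LL W N) ^ 2) ^ 4 *
          ((2 * B.card + 2 * B'.card) * N ^ 3)
        = (2 * (B.card : ℝ) + 2 * B'.card) * (1 + LL W N) ^ 20 * N ^ 3 := by ring
      _ ≤ (24 * Real.sqrt N + 12) * (1 + LL W N) ^ 20 * N ^ 3 := by
          apply mul_le_mul_of_nonneg_right _ (by positivity)
          exact mul_le_mul_of_nonneg_right h1 (by positivity)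
      _ ≤ ε / 2 * N * N ^ 3 := mul_le_mul_of_nonneg_right hsm (by positivity)
      _ = ε / 2 * N ^ 4 := by ring
  linarith

/-- All pairs of shapes. -/
theorem bxm_all : BxmS
    (fun S w W N K B F => (DomBy Empty Empty S w W N K B F ∨ DomBy Unit Empty S w W N K B F ∨
      DomBy Empty Unit S w W N K B F ∨ DomBy Unit Unit S w W N K B F))
    (fun S w W N K B F => (DomBy Empty Empty S w W N K B F ∨ DomBy Unit Empty S w W N K B F ∨
      DomBy Empty Unit S w W N K B F ∨ DomBy Unit Unit S w W N K B F)) := by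
  have key : ∀ (ι υ : Type) [Fintype ι] [Fintype υ], BxmS (DomBy ι υ)
      (fun S w W N K B F => (DomBy Empty Empty S w W N K B F ∨ DomBy Unit Empty S w W N K B F ∨
        DomBy Empty Unit S w W N K B F ∨ DomBy Unit Unit S w W N K B F)) := fun ι υ _ _ =>
    (bxm_pair ι υ Empty Empty).or_right ((bxm_pair ι υ Unit Empty).or_right
      ((bxm_pair ι υ Empty Unit).or_right (bxm_pair ι υ Unit Unit)))
  exact (key Empty Empty).or_left ((key Unit Empty).or_left ((key Empty Unit).or_left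
    (key Unit Unit)))

/-- Chunk BXM. Choose `A`, then `s = C A`, so that `(K s^3)^4 * C s^8 * 2 (2^(-A/(2C)))` is small
(`rc_exists_A`), then `w0`. Replace `F` by its restriction to the complement of `B` (`adm_dom`): the
box sum changes by `≤ (number of removed) * N^3 * (log)^40 = o(N^4)`; then `box_mono`, `box_smul`,
`bx3` for the `16` pairs of shapes. -/
theorem bxm (ε : ℝ) (hε : 0 < ε) : ∃ w0 : ℕ, ∀ w W : ℕ, w0 ≤ w → IsW w W → ∃ N0 : ℕ,
    ∀ N : ℕ, N0 ≤ N → ∀ (r1 r2 σ : ℤ), |r1| < 2 * W → IsCoprime r1 (W : ℤ) → |r2| < 2 * W →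
    IsCoprime r2 (W : ℤ) → (σ = 1 ∨ σ = -1) → ∀ (F G : ℤ → ℝ), Adm w W N F → Adm w W N G →
    box N (ker W r1 r2 σ) F G ≤ ε * N ^ 4 := by
  obtain ⟨K, hK, hdom⟩ := adm_dom
  obtain ⟨C, hC, hall⟩ := bxm_all
  have hCr : (0 : ℝ) < C := by exact_mod_cast (by omega : 0 < C)
  obtain ⟨A, hCA, hA⟩ := bxm_exists_A C (by omega) (ε ^ 2 / (32 * K ^ 8 * C ^ 2)) (by positivity)
  have hs2 : 2 ≤ C * A := by nlinarith
  have hcond : BxmCond C A K ε := by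
    unfold BxmCond
    set s : ℝ := ((C * A : ℕ) : ℝ) with hs
    have hs0 : 0 ≤ s := by positivity
    set τ : ℝ := (2 : ℝ) ^ (-(A : ℝ) / C) with hτ
    have hτpos : 0 < τ := Real.rpow_pos_of_pos (by norm_num) _
    refine le_of_pow_le_pow_left₀ two_ne_zero (by positivity) ?_
    have e : ((K * s ^ 3) ^ 4 * (C * s ^ 8 * Real.sqrt (2 * τ))) ^ 2 =
        2 * K ^ 8 * C ^ 2 * (τ * s ^ 40) := by
      have : Real.sqrt (2 * τ) ^ 2 = 2 * τ := Real.sq_sqrt (by positivity)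
      calc ((K * s ^ 3) ^ 4 * (C * s ^ 8 * Real.sqrt (2 * τ))) ^ 2
          = K ^ 8 * C ^ 2 * s ^ 40 * Real.sqrt (2 * τ) ^ 2 := by ring
        _ = _ := by rw [this]; ring
    rw [e]
    calc 2 * K ^ 8 * C ^ 2 * (τ * s ^ 40) ≤ 2 * K ^ 8 * C ^ 2 * (ε ^ 2 / (32 * K ^ 8 * C ^ 2)) :=
          mul_le_mul_of_nonneg_left hA (by positivity)
      _ = (ε / 4) ^ 2 := by
          have hK0 : K ≠ 0 := by positivity
          field_simp
          norm_num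
  obtain ⟨w1, hw1⟩ := hall C A le_rfl hCA K ε hK hε hcond
  obtain ⟨w2, hw2⟩ := hdom (C * A) hs2
  refine ⟨max w1 w2, fun w W hw hW => ?_⟩
  obtain ⟨N1, hN1⟩ := hw1 w W ((le_max_left _ _).trans hw) hW
  obtain ⟨N2, hN2⟩ := hw2 w W ((le_max_right _ _).trans hw) hW
  refine ⟨max N1 N2, fun N hN r1 r2 σ a1 a2 a3 a4 a5 F G hF hG => ?_⟩
  have f1 : N1 ≤ N := (le_max_left _ _).trans hN
  have f2 : N2 ≤ N := (le_max_right _ _).trans hN
  obtain ⟨p1, B, p2, p3⟩ := hN2 N f2 F hF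
  obtain ⟨q1, B', q2, q3⟩ := hN2 N f2 G hG
  exact hN1 N f1 r1 r2 σ a1 a2 a3 a4 a5 F G B B' hF.1 hG.1 p1 q1 p2 q2 p3 q3

/-- Chunk SS (sparse-sparse estimate): `box_cut`, `bxm`, `adm_sum`. -/
theorem ss (ε : ℝ) (hε : 0 < ε) : ∃ w0 : ℕ, ∀ w W : ℕ, w0 ≤ w → IsW w W → ∃ N0 : ℕ,
    ∀ N : ℕ, N0 ≤ N → ∀ (r1 r2 σ : ℤ), |r1| < 2 * W → IsCoprime r1 (W : ℤ) → |r2| < 2 * W →
    IsCoprime r2 (W : ℤ) → (σ = 1 ∨ σ = -1) → ∀ (F G F1 G1 : ℤ → ℝ), Adm w W N F → Adm w W N G →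
    (∀ x, |F1 x| ≤ F x) → (∀ y, |G1 y| ≤ G y) →
    |∑ x ∈ Finset.Ico (0 : ℤ) N, ∑ y ∈ Finset.Ico (0 : ℤ) N,
      F1 x * G1 y * ker W r1 r2 σ x y| ≤ ε * N ^ 2 := by
  obtain ⟨C, hC, w1, hsum⟩ := adm_sum
  obtain ⟨w2, hbx⟩ := bxm (ε ^ 4 / C ^ 4) (by positivity)
  refine ⟨max w1 w2, fun w W hw hW => ?_⟩
  obtain ⟨N1, hN1⟩ := hsum w W ((le_max_left _ _).trans hw) hW
  obtain ⟨N2, hN2⟩ := hbx w W ((le_max_right _ _).trans hw) hW
  refine ⟨max N1 N2, fun N hN r1 r2 σ a1 a2 a3 a4 a5 F G F1 G1 hF hG hF1 hG1 => ?_⟩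
  have f1 : N1 ≤ N := (le_max_left _ _).trans hN
  have f2 : N2 ≤ N := (le_max_right _ _).trans hN
  have s1 := hN1 N f1 F hF
  have s2 := hN1 N f1 G hG
  have hb := hN2 N f2 r1 r2 σ a1 a2 a3 a4 a5 F G hF hG
  have hcut := box_cut (N := N) (k := ker W r1 r2 σ) (F := F) (F1 := F1) (G := G) (G1 := G1)
    (fun x _ => hF1 x) (fun y _ => hG1 y)
  have t1 : 0 ≤ ∑ x ∈ Finset.Ico (0 : ℤ) N, F x := Finset.sum_nonneg fun x _ => hF.1 x
  have t2 : 0 ≤ ∑ x ∈ Finset.Ico (0 : ℤ) N, G x := Finset.sum_nonneg fun x _ => hG.1 x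
  have hfin : (∑ x ∈ Finset.Ico (0 : ℤ) N, ∑ y ∈ Finset.Ico (0 : ℤ) N,
      F1 x * G1 y * ker W r1 r2 σ x y) ^ 4 ≤ (ε * N ^ 2) ^ 4 := by
    refine hcut.trans ?_
    have u1 : (∑ x ∈ Finset.Ico (0 : ℤ) N, F x) ^ 2 ≤ (C * N) ^ 2 := pow_le_pow_left₀ t1 s1 2
    have u2 : (∑ x ∈ Finset.Ico (0 : ℤ) N, G x) ^ 2 ≤ (C * N) ^ 2 := pow_le_pow_left₀ t2 s2 2
    calc (∑ x ∈ Finset.Ico (0 : ℤ) N, F x) ^ 2 * (∑ y ∈ Finset.Ico (0 : ℤ) N, G y) ^ 2 *
          box N (ker W r1 r2 σ) F G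
        ≤ (∑ x ∈ Finset.Ico (0 : ℤ) N, F x) ^ 2 * (∑ y ∈ Finset.Ico (0 : ℤ) N, G y) ^ 2 *
          (ε ^ 4 / C ^ 4 * N ^ 4) := mul_le_mul_of_nonneg_left hb (by positivity)
      _ ≤ (C * N) ^ 2 * (C * N) ^ 2 * (ε ^ 4 / C ^ 4 * N ^ 4) := by
          apply mul_le_mul_of_nonneg_right _ (by positivity)
          exact mul_le_mul u1 u2 (by positivity) (by positivity)
      _ = (ε * N ^ 2) ^ 4 := by
          have : C ≠ 0 := by positivity
          field_simp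
  have h4 : |∑ x ∈ Finset.Ico (0 : ℤ) N, ∑ y ∈ Finset.Ico (0 : ℤ) N,
      F1 x * G1 y * ker W r1 r2 σ x y| ^ 4 ≤ (ε * N ^ 2) ^ 4 := by
    rw [Even.pow_abs (by decide)]
    exact hfin
  exact le_of_pow_le_pow_left₀ (by norm_num) (by positivity) h4

end Pool.Agent.Lib.H18GB
end
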