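import Pool.Agent.Lib.H1M.RV.M093
import Pool.Agent.Lib.H1M.RV.M107
import Pool.Agent.Lib.H1M.RV.M108

/-! Merged copies (to shorten the build) of Lib.H18C.Defs, Lib.H18C.RD, Lib.H18C.R2, Lib.H59C.CF. -/

-- from Lib.H18C.Defs
section

/-!
# Project H18C (MP_443e5f_co, graph part of H59C): definitions

Halved vertices: `X ~ Y` iff `X + Y`, `|X - Y|` are odd primes (`hadj`); `HG n` is the graph on `[1, n]`.
The weights of H18GB2 (`Adm`) are supplemented by weights of pairs of rough numbers.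
-/

open Finset Pool.Agent.Lib.Sieve Pool.Agent.Lib.GoldbachGraph Pool.Agent.Lib.H18GB

namespace Pool.Agent.Lib.H18C

noncomputable section

/-- All prime factors of `v` are larger than `z`. -/
def Rg (z : ℕ) (v : ℤ) : Prop := ∀ p : ℕ, p.Prime → (p : ℤ) ∣ v → z < p

open Classical in
/-- `(φ(W)/W) log |v|` for the `z`-rough `v`. -/
def lamr (W z : ℕ) (v : ℤ) : ℝ :=
  if Rg z v then (Nat.totient W / W : ℝ) * Real.log v.natAbs else 0

/-- Admissible weights: those of `Adm`; weights dominated by pairs `b + W x`, `b' - W x` of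
`N^(1/16)`-rough numbers (normalised); weights dominated by the primes `b + W x`. -/
def AdmR (w W N : ℕ) (F : ℤ → ℝ) : Prop :=
  Adm w W N F ∨ ((∀ x, 0 ≤ F x) ∧
    ((∃ b b' : ℤ, |b| ≤ 4 * W * N ∧ |b'| ≤ 4 * W * N ∧ b + b' ≠ 0 ∧
      ∀ x, F x ≤ lamr W (rt 16 N) (b + W * x) * lamr W (rt 16 N) (b' - W * x) / SW w (b + b')) ∨
    (∃ b : ℤ, |b| ≤ 4 * W ∧ ∀ x, F x ≤ lamv W (b + W * x))))

/-- The class `y0` modulo `W` contains many elements of `A`, measured by an admissible weight. -/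
structure StartW (w W N : ℕ) (A : Finset ℕ) (y0 : ℕ) (ε : ℝ) : Prop where
  lt : y0 < W
  wt : ∃ F : ℤ → ℝ, AdmR w W N F ∧
    (∀ x, F x ≠ 0 → ∃ y ∈ Finset.Ico 1 N, x = (y : ℤ) ∧ y0 + W * y ∈ A) ∧
    ε * N ≤ ∑ x ∈ Finset.Ico (0 : ℤ) N, F x

/-- All prime factors of `X + y` and of `X - y` are at least `n^(1/10)`. -/
def RoughPair (n X y : ℕ) : Prop :=
  ∀ p : ℕ, p.Prime → ((p : ℤ) ∣ (X : ℤ) + y ∨ (p : ℤ) ∣ (X : ℤ) - y) →
    (n : ℝ) ^ (1 / 10 : ℝ) ≤ p

/-- `A` is a large set of rough neighbours of `X`, or a large set of primes if `X = 0`. -/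
def Large (ε : ℝ) (n X : ℕ) (A : Finset ℕ) : Prop :=
  A ⊆ Finset.Icc 1 n ∧
    ((1 ≤ X ∧ (∀ y ∈ A, RoughPair n X y) ∧ ε * SH X * n / Real.log n ^ 2 ≤ A.card) ∨
      (X = 0 ∧ (∀ y ∈ A, y.Prime) ∧ ε * n / Real.log n ≤ A.card))

end

end Pool.Agent.Lib.H18C
end

-- from Lib.H18C.RD
section

/-!
# Chunk RD: the majorant of the rough numbers
-/

open Finset Pool.Agent.Lib.Sieve Pool.Agent.Lib.GoldbachGraph Pool.Agent.Lib.H18GB

namespace Pool.Agent.Lib.H18C

theorem RD_rt_anti {s t : ℕ} (hs : 1 ≤ s) (hst : s ≤ t) {M : ℕ} (hM : 1 ≤ M) : rt t M ≤ rt s M := by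
  unfold rt
  apply Nat.floor_le_floor
  apply Real.rpow_le_rpow_of_exponent_le (by exact_mod_cast hM)
  exact one_div_le_one_div_of_le (by exact_mod_cast hs) (by exact_mod_cast hst)

theorem RD_lamr_nonneg (W z : ℕ) (v : ℤ) : 0 ≤ lamr W z v := by
  unfold lamr
  split_ifs
  · exact mul_nonneg (by positivity) (Real.log_natCast_nonneg _)
  · exact le_rfl

theorem RD_lamr_le {W N : ℕ} (z : ℕ) (hW : 0 < W) (hN : 0 < N) {v : ℤ} (hv : |v| ≤ 5 * W * N) :
    lamr W z v ≤ LL W N := by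
  have h0 : (1 : ℝ) ≤ 5 * W * N := by
    have h1 : (1 : ℝ) ≤ W := by exact_mod_cast hW
    have h2 : (1 : ℝ) ≤ N := by exact_mod_cast hN
    nlinarith
  have hL : 0 ≤ LL W N := Real.log_nonneg h0
  unfold lamr
  split_ifs
  · have h1 : (Nat.totient W / W : ℝ) ≤ 1 := by
      rw [div_le_one (by exact_mod_cast hW)]
      exact_mod_cast Nat.totient_le W
    have h2 : Real.log v.natAbs ≤ LL W N := by
      rcases Nat.eq_zero_or_pos v.natAbs with h | h
      · rw [h, Nat.cast_zero, Real.log_zero]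
        exact hL
      · apply Real.log_le_log (by exact_mod_cast h)
        have h3 : v.natAbs ≤ 5 * W * N := by
          zify
          exact hv
        exact_mod_cast h3
    have h3 := Real.log_natCast_nonneg v.natAbs
    have h4 : (0 : ℝ) ≤ Nat.totient W / W := by positivity
    nlinarith
  · exact hL

/-- Copy of `majo` (file `H18GB/Majo.lean`): if `v` is `rt 16 M`-rough, it is not divisible by the primes
`p ∈ sprimes w (rt s M)`, since `p ≤ rt s M ≤ rt 16 M` (`s ≥ 16`); the rest of the proof only uses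
`log |v| ≤ 2 log M`. -/
theorem majoR : ∃ C : ℝ, 1 ≤ C ∧ ∀ s : ℕ, 16 ≤ s → ∀ w W : ℕ, IsW w W → ∃ M0 : ℕ, ∀ M : ℕ, M0 ≤ M →
    ∀ v : ℤ, |v| ≤ 5 * W * M → lamr W (rt 16 M) v ≤ C * s * rho (sprimes w (rt s M)) v := by
  refine ⟨4, by norm_num, fun s hs w W hW => ?_⟩
  obtain ⟨M1, hM1⟩ := log_le_rt (s := s) (by omega)
  obtain ⟨M2, hM2⟩ := Filter.eventually_atTop.mp
    ((rt_tendsto (s := s) (by omega)).eventually (Filter.eventually_ge_atTop (w + 2)))
  refine ⟨M1 + M2 + 5 * W + 1, fun M hM v hv1 => ?_⟩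
  have hlog := hM1 M (by omega)
  have hz := hM2 M (by omega)
  have hpr := (pset_sprimes w (rt s M)).prime
  have hs' : (1 : ℝ) ≤ s := by exact_mod_cast (by omega : 1 ≤ s)
  have hle : rt s M ≤ rt 16 M := RD_rt_anti (by norm_num) hs (by omega)
  by_cases hp : Rg (rt 16 M) v
  · have hrg : Rgh (sprimes w (rt s M)) v := by
      intro p hpS hdv
      rw [mem_sprimes] at hpS
      have h1 := hp p hpS.1 hdv
      omega
    have hV := VV_pos hpr
    rw [lamr, if_pos hp, rho, if_pos hrg, ← div_eq_mul_inv, le_div_iff₀ hV]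
    have hz2 : 2 ≤ rt s M := by omega
    have hz2' : (2 : ℝ) ≤ rt s M := by exact_mod_cast hz2
    have hlz : 0 < Real.log (rt s M) := Real.log_pos (by linarith)
    have h3 := prod_one_sub_inv_le (rt s M) hz2
    rw [← hW.totient_mul_VV (by omega : w ≤ rt s M)] at h3
    have hMpos : (0 : ℝ) < M := by exact_mod_cast (by omega : 0 < M)
    have hM1' : (1 : ℝ) ≤ M := by exact_mod_cast (by omega : 1 ≤ M)
    have h7 : Real.log v.natAbs ≤ 2 * Real.log M := by
      rcases Nat.eq_zero_or_pos v.natAbs with h | h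
      · rw [h, Nat.cast_zero, Real.log_zero]
        have := Real.log_nonneg hM1'
        linarith
      · have hvle : (v.natAbs : ℝ) ≤ (M : ℝ) ^ 2 := by
          have h4 : v.natAbs ≤ 5 * W * M := by
            zify
            exact hv1
          have h5 : 5 * W * M ≤ M * M := Nat.mul_le_mul_right _ (by omega)
          have h6 : v.natAbs ≤ M ^ 2 := by rw [pow_two]; exact h4.trans h5
          exact_mod_cast h6
        have hvpos : (0 : ℝ) < v.natAbs := by exact_mod_cast h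
        have := Real.log_le_log hvpos hvle
        rw [Real.log_pow] at this
        exact_mod_cast this
    have h8 : Real.log v.natAbs ≤ 4 * s * Real.log (rt s M) := by nlinarith
    have hφ : (0 : ℝ) ≤ Nat.totient W / W := by positivity
    calc (Nat.totient W / W : ℝ) * Real.log v.natAbs * VV (sprimes w (rt s M))
        = ((Nat.totient W / W : ℝ) * VV (sprimes w (rt s M))) * Real.log v.natAbs := by ring
      _ ≤ (1 / Real.log (rt s M)) * (4 * s * Real.log (rt s M)) := by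
          apply mul_le_mul h3 h8
          · exact Real.log_natCast_nonneg _
          · positivity
      _ = 4 * s := by field_simp
  · rw [lamr, if_neg hp]
    have := rho_nonneg hpr v
    positivity

theorem RD_mono {ι υ : Type} [Fintype ι] [Fintype υ] {w z W N : ℕ} (hw : 2 ≤ w) {K K' : ℝ}
    (h : K ≤ K') {B : Finset ℤ} {F : ℤ → ℝ} (hD : DomBy ι υ (sprimes w z) w W N K B F) :
    DomBy ι υ (sprimes w z) w W N K' B F := by
  obtain ⟨g, hg, hx⟩ := hD
  exact ⟨g, hg, fun x hx1 hx2 => (hx x hx1 hx2).trans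
    (mul_le_mul_of_nonneg_right h (bxm_val_nonneg g hw z W x))⟩

/-- Copy of `adm_dom` (file `H18GB2/Adm.lean`) for `AdmR`, `s ≥ 16`. `Adm`: `adm_dom` itself. Pairs of rough
numbers: third case of `adm_dom` with `majoR` instead of `majo`, `B = ∅` (shape `Empty Unit`). Primes
`b + W x`: second case with `e = 1` instead of `2` (shape `Unit Empty`, `majo`). -/
theorem admR_dom : ∃ K : ℝ, 1 ≤ K ∧ ∀ s : ℕ, 16 ≤ s → ∃ w0 : ℕ, ∀ w W : ℕ, w0 ≤ w → IsW w W →
    ∃ N0 : ℕ, ∀ N : ℕ, N0 ≤ N → ∀ F : ℤ → ℝ, AdmR w W N F →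
    (∀ x ∈ Finset.Ico (0 : ℤ) N, F x ≤ (1 + LL W N) ^ 3) ∧
    ∃ B : Finset ℤ, B.card ≤ 6 * rt s N + 3 ∧
    (DomBy Empty Empty (sprimes w (rt s N)) w W N (K * s ^ 3) B F ∨
      DomBy Unit Empty (sprimes w (rt s N)) w W N (K * s ^ 3) B F ∨
      DomBy Empty Unit (sprimes w (rt s N)) w W N (K * s ^ 3) B F ∨
      DomBy Unit Unit (sprimes w (rt s N)) w W N (K * s ^ 3) B F) := by
  obtain ⟨C, hC, hmaj⟩ := majo
  obtain ⟨C', hC', hmaj'⟩ := majoR
  obtain ⟨K0, hK0, hdom⟩ := adm_dom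
  have hC3 : 1 ≤ C ^ 3 := one_le_pow₀ hC
  have hC3' : 1 ≤ C' ^ 3 := one_le_pow₀ hC'
  refine ⟨K0 + C ^ 3 + C' ^ 3, by linarith, fun s hs => ?_⟩
  obtain ⟨w0, hw0⟩ := hdom s (by omega)
  refine ⟨w0 + 2, fun w W hw hW => ?_⟩
  have hw2 : 2 ≤ w := by omega
  obtain ⟨N1, hN1⟩ := hmaj s (by omega) w W hW
  obtain ⟨N2, hN2⟩ := hmaj' s hs w W hW
  obtain ⟨N3, hN3⟩ := hw0 w W (by omega) hW
  refine ⟨N1 + N2 + N3 + 8, fun N hN F hF => ?_⟩
  have hN8 : 8 ≤ N := by omega
  have hNp : 0 < N := by omega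
  have hW0 : 0 < W := hW.1
  have hm := hN1 N (by omega)
  have hm' := hN2 N (by omega)
  have hs1 : (1 : ℝ) ≤ s := by exact_mod_cast (by omega : 1 ≤ s)
  have hs3 : (1 : ℝ) ≤ (s : ℝ) ^ 3 := one_le_pow₀ hs1
  rcases hF with hF | ⟨hF0, ⟨b, b', hb, hb', hbb, hF⟩ | ⟨b, hb, hF⟩⟩
  · obtain ⟨h1, B, hB, h2⟩ := hN3 N (by omega) F hF
    refine ⟨h1, B, hB, ?_⟩
    have hK : K0 * (s : ℝ) ^ 3 ≤ (K0 + C ^ 3 + C' ^ 3) * (s : ℝ) ^ 3 :=
      mul_le_mul_of_nonneg_right (by linarith) (by positivity)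
    rcases h2 with h | h | h | h
    · exact Or.inl (RD_mono hw2 hK h)
    · exact Or.inr (Or.inl (RD_mono hw2 hK h))
    · exact Or.inr (Or.inr (Or.inl (RD_mono hw2 hK h)))
    · exact Or.inr (Or.inr (Or.inr (RD_mono hw2 hK h)))
  · set z := rt s N with hz
    set S := sprimes w z with hSd
    have hS : PSet w z S := pset_sprimes w z
    have hCs : 1 ≤ C' * s := by nlinarith
    have hLL := LL_nonneg (W := W) (N := N) hW0 hNp
    have hWZ : (0 : ℤ) < W := by exact_mod_cast hW0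
    have hNZ : (8 : ℤ) ≤ N := by exact_mod_cast hN8
    have hb2 : ∀ x ∈ Finset.Ico (0 : ℤ) N, ∀ b : ℤ, |b| ≤ 4 * W * N → |b + W * x| ≤ 5 * W * N := by
      intro x hx b hb
      rw [Finset.mem_Ico] at hx
      rw [abs_le] at hb ⊢
      constructor <;> nlinarith
    have hb3 : ∀ x ∈ Finset.Ico (0 : ℤ) N, ∀ b : ℤ, |b| ≤ 4 * W * N → |b - W * x| ≤ 5 * W * N := by
      intro x hx b hb
      rw [Finset.mem_Ico] at hx
      rw [abs_le] at hb ⊢
      constructor <;> nlinarith
    have hr0 : ∀ v, 0 ≤ rho S v := rho_nonneg hS.prime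
    have hsgp := SGp_le_SW (z := z) hW hw2 hbb
    have hSW1 : 1 ≤ SW w (b + b') := rcn_one_le_SW hw2 _
    refine ⟨fun x hx => ?_, ∅, by simp, Or.inr (Or.inr (Or.inl ?_))⟩
    · refine (hF x).trans ?_
      have h1 := RD_lamr_le (rt 16 N) hW0 hNp (hb2 x hx b hb)
      have h2 := RD_lamr_le (rt 16 N) hW0 hNp (hb3 x hx b' hb')
      have h3 := RD_lamr_nonneg W (rt 16 N) (b + W * x)
      have h4 := RD_lamr_nonneg W (rt 16 N) (b' - W * x)
      have h5 : lamr W (rt 16 N) (b + W * x) * lamr W (rt 16 N) (b' - W * x) ≤ LL W N * LL W N := by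
        gcongr
      refine (div_le_self (by positivity) hSW1).trans (h5.trans ?_)
      nlinarith [mul_nonneg hLL hLL, mul_nonneg hLL (mul_nonneg hLL hLL)]
    refine ⟨⟨fun i => match i with
        | .inl i => i.elim
        | .inr (_, false) => 1
        | .inr (_, true) => -1, fun i => match i with
        | .inl i => i.elim
        | .inr (_, false) => b
        | .inr (_, true) => b'⟩, ⟨fun i => ?_, fun i j hij => ?_⟩, fun x hx _ => ?_⟩
    · rcases i with i | ⟨i, a⟩
      · exact i.elim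
      · cases a <;> norm_num
    · rcases i with i | ⟨i, a⟩
      · exact i.elim
      · rcases j with j | ⟨j, a'⟩
        · exact j.elim
        · exact absurd ⟨(), a, a', rfl, rfl⟩ hij.2
    · have m1 := hm' (b + W * x) (hb2 x hx b hb)
      have m2 := hm' (b' - W * x) (hb3 x hx b' hb')
      simp only [GW.val, Finset.univ_unique, Finset.univ_eq_empty, Finset.prod_empty, one_mul,
        Finset.prod_singleton]
      have e1 : (W : ℤ) * x + b = b + W * x := by ring
      have e2 : (-1 : ℤ) * W * x + b' = b' - W * x := by ring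
      have e3 : (W : ℤ) * b' - -1 * W * b = W * (b + b') := by ring
      rw [e1, e2, e3]
      refine (hF x).trans ?_
      have h3 := RD_lamr_nonneg W (rt 16 N) (b + W * x)
      have h4 := RD_lamr_nonneg W (rt 16 N) (b' - W * x)
      have r1 := hr0 (b + W * x)
      have r2 := hr0 (b' - W * x)
      have hC0 : 0 ≤ C' := by linarith
      have h5 : lamr W (rt 16 N) (b + W * x) * lamr W (rt 16 N) (b' - W * x) ≤
          (C' * s * rho S (b + W * x)) * (C' * s * rho S (b' - W * x)) := by gcongr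
      have h6 : lamr W (rt 16 N) (b + W * x) * lamr W (rt 16 N) (b' - W * x) / SW w (b + b') ≤
          (C' * s * rho S (b + W * x)) * (C' * s * rho S (b' - W * x)) /
            SGp S (W * (b + b')) := by
        apply div_le_div₀ (by positivity) h5 hsgp.1 hsgp.2
      refine h6.trans ?_
      have h7 : (C' * s * rho S (b + W * x)) * (C' * s * rho S (b' - W * x)) /
            SGp S (W * (b + b')) = (C' * s) ^ 2 * (rho S (b + W * x) * rho S (b' - W * x) /
            SGp S (W * (b + b'))) := by ring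
      rw [h7]
      apply mul_le_mul_of_nonneg_right _ (div_nonneg (mul_nonneg (hr0 _) (hr0 _)) hsgp.1.le)
      calc (C' * s) ^ 2 ≤ (C' * s) ^ 3 := pow_le_pow_right₀ hCs (by norm_num)
        _ = C' ^ 3 * (s : ℝ) ^ 3 := by rw [mul_pow]
        _ ≤ (K0 + C ^ 3 + C' ^ 3) * (s : ℝ) ^ 3 :=
          mul_le_mul_of_nonneg_right (by linarith) (by positivity)
  · set z := rt s N with hz
    set S := sprimes w z with hSd
    have hS : PSet w z S := pset_sprimes w z
    have hCs : 1 ≤ C * s := by nlinarith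
    have hLL := LL_nonneg (W := W) (N := N) hW0 hNp
    have hWZ : (0 : ℤ) < W := by exact_mod_cast hW0
    have hNZ : (8 : ℤ) ≤ N := by exact_mod_cast hN8
    have hb1 : ∀ x ∈ Finset.Ico (0 : ℤ) N, |b + W * x| ≤ 5 * W * N := by
      intro x hx
      rw [Finset.mem_Ico] at hx
      rw [abs_le] at hb ⊢
      constructor <;> nlinarith
    have hr0 : ∀ v, 0 ≤ rho S v := rho_nonneg hS.prime
    refine ⟨fun x hx => ?_, bad N b W z, (card_bad (by positivity) z).trans (by omega),
      Or.inr (Or.inl ?_)⟩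
    · exact (hF x).trans (adm_prod1 _ _ hLL (lamv_le hW0 hNp (hb1 x hx)))
    refine ⟨⟨fun _ => 1, fun _ => b⟩, ⟨fun _ => by norm_num, fun i j hij => ?_⟩, fun x hx hxB => ?_⟩
    · rcases i with i | i
      · rcases j with j | j
        · exact absurd (by rw [Subsingleton.elim i j]) hij.1
        · exact j.1.elim
      · exact i.1.elim
    · have h1 : (z : ℤ) < |b + W * x| := by
        rw [bad, Finset.mem_filter, not_and] at hxB
        exact not_le.mp (hxB hx)
      have h2 := hm (b + W * x) (hb1 x hx) h1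
      have h3 : (⟨fun _ => 1, fun _ => b⟩ : GW Unit Empty).val S W x = rho S (b + W * x) := by
        simp [GW.val, add_comm]
      rw [h3]
      refine (hF x).trans (h2.trans (mul_le_mul_of_nonneg_right ?_ (hr0 _)))
      calc C * s ≤ (C * s) ^ 3 := by
            calc C * s = (C * s) ^ 1 := (pow_one _).symm
              _ ≤ (C * s) ^ 3 := pow_le_pow_right₀ hCs (by norm_num)
        _ = C ^ 3 * (s : ℝ) ^ 3 := by rw [mul_pow]
        _ ≤ (K0 + C ^ 3 + C' ^ 3) * (s : ℝ) ^ 3 :=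
          mul_le_mul_of_nonneg_right (by linarith) (by positivity)

end Pool.Agent.Lib.H18C
end

-- from Lib.H18C.R2
section

/-!
# Chunk R2: from a large set of rough neighbours to a class
-/

open Finset Pool.Agent.Lib.Sieve Pool.Agent.Lib.GoldbachGraph Pool.Agent.Lib.H18GB

namespace Pool.Agent.Lib.H18C

theorem R2_lamr_nonneg (W z : ℕ) (v : ℤ) : 0 ≤ lamr W z v := by
  unfold lamr
  split_ifs
  · exact mul_nonneg (by positivity) (Real.log_natCast_nonneg _)
  · exact le_rfl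

/-- roughness from the lower bound `n^(1/10)` -/
theorem R2_rough (w : ℕ) : ∃ n0 : ℕ, ∀ n : ℕ, n0 ≤ n → (w : ℝ) < (n : ℝ) ^ (1 / 10 : ℝ) ∧
    ∀ N : ℕ, N ≤ n → (rt 16 N : ℝ) < (n : ℝ) ^ (1 / 10 : ℝ) := by
  refine ⟨w ^ 10 + 2, fun n hn => ⟨?_, fun N hN => ?_⟩⟩
  · have h1 : (w : ℝ) ^ 10 < n := by exact_mod_cast (by omega : w ^ 10 < n)
    have h2 : ((w : ℝ) ^ 10) ^ (1 / 10 : ℝ) < (n : ℝ) ^ (1 / 10 : ℝ) :=
      Real.rpow_lt_rpow (by positivity) h1 (by norm_num)
    rwa [← Real.rpow_natCast, ← Real.rpow_mul (Nat.cast_nonneg _), show ((10 : ℕ) : ℝ) * (1 / 10) = 1 by norm_num,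
      Real.rpow_one] at h2
  · have h1 : (rt 16 N : ℝ) ≤ (N : ℝ) ^ (1 / ((16 : ℕ) : ℝ)) := rt_le_rpow 16 N
    have h2 : (N : ℝ) ^ (1 / ((16 : ℕ) : ℝ)) ≤ (n : ℝ) ^ (1 / ((16 : ℕ) : ℝ)) :=
      Real.rpow_le_rpow (Nat.cast_nonneg _) (by exact_mod_cast hN) (by norm_num)
    have h3 : (n : ℝ) ^ (1 / ((16 : ℕ) : ℝ)) < (n : ℝ) ^ (1 / 10 : ℝ) := by
      apply Real.rpow_lt_rpow_of_exponent_lt
      · exact_mod_cast (by omega : 1 < n)
      · norm_num
    linarith

/-- Copy of `gr2` (file `H18GB/GR2.lean`) with `A` instead of the set of neighbours of `X`. The weight is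
`F(y) = lamr(X + y0 + W y) lamr(X - y0 - W y) / SW w (2 X)` if `1 ≤ y < N`, `y0 + W y ∈ A`, and `0`
otherwise (`lamr` with `z = rt 16 N < n^(1/10)`; admissible with `b = X + y0`, `b' = X - y0`). The
elements `y ∈ A` are in classes `y0` with `Comp W X y0` (their sums and differences have no prime factor
`≤ w`, `w < n^(1/10)`); all but `W + 2 √n + W` of them satisfy `W ≤ y < W N`, `|X - y| ≥ √n`, and
have weight `≥ (φ(W)/W)^2 (log n)^2/4 / SW w (2X)`; the count of the classes is as in `gr2`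
(which gives `ε/20`, with some loss `ε/40`). -/
theorem gr2R (ε : ℝ) (hε : 0 < ε) (w : ℕ) (hw : 3 ≤ w) : ∃ n0 : ℕ, ∀ n : ℕ, n0 ≤ n →
    ∀ X ∈ Finset.Icc 1 n, ∀ A ⊆ Finset.Icc 1 n, (∀ y ∈ A, RoughPair n X y) →
    ε * SH X * n / Real.log n ^ 2 ≤ A.card →
    ∃ y0 : ℕ, Comp (primorial w) X y0 ∧
      StartW w (primorial w) (n / primorial w) A y0 (ε / 40) := by
  classical
  set W := primorial w with hW
  have hWpos : 0 < W := primorial_pos w
  have hIsW : IsW w W := isW_primorial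
  obtain ⟨n0, hn0⟩ := gr2_asym (2 * W) ε hε
  obtain ⟨n1, hn1⟩ := R2_rough w
  refine ⟨n0 + n1, fun n hn X hX A hA hAr hdeg => ?_⟩
  obtain ⟨hasy, hWs, hn3⟩ := hn0 n (by omega)
  obtain ⟨hwn, hzn⟩ := hn1 n (by omega)
  rw [mem_Icc] at hX
  set N := n / W with hN
  have hNn : N ≤ n := Nat.div_le_self n W
  have hz := hzn N hNn
  set z := rt 16 N with hzdef
  have hWr : (0 : ℝ) < W := by exact_mod_cast hWpos
  have hn3r : (3 : ℝ) ≤ n := by exact_mod_cast hn3
  have hlog : 0 < Real.log n := Real.log_pos (by linarith)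
  have hSH1 := SH_ge_one X
  have hWs' : W ≤ Nat.sqrt n := by omega
  have hWn : W ≤ n := le_trans hWs' (Nat.sqrt_le_self n)
  have hNpos : 0 < N := Nat.div_pos hWn hWpos
  have hNr : (0 : ℝ) < N := by exact_mod_cast hNpos
  have hNW : (N : ℝ) * W ≤ n := by exact_mod_cast Nat.div_mul_le_self n W
  have hnWN : n < W * N + W := by
    have h1 := Nat.div_add_mod n W
    have h2 := Nat.mod_lt n hWpos
    rw [← hN] at h1
    omega
  -- the weights
  set T : ℕ → ℕ → ℝ := fun y0 y => if 1 ≤ y ∧ y0 + W * y ∈ A then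
    lamr W z (X + y0 + W * y) * lamr W z (X - y0 - W * y) else 0 with hT
  have hT0 : ∀ y0 y, 0 ≤ T y0 y := by
    intro y0 y
    rw [hT]
    simp only
    split_ifs
    · exact mul_nonneg (R2_lamr_nonneg _ _ _) (R2_lamr_nonneg _ _ _)
    · exact le_rfl
  set Cls := (range W).filter (fun y : ℕ => Comp W X y) with hCls
  by_contra hcon
  -- each class carries little weight
  have hcon' : ∀ y0 ∈ Cls, ∑ y ∈ range N, T y0 y ≤ ε / 40 * N * SW w (2 * X) := by
    intro y0 hy0
    rw [hCls, mem_filter, mem_range] at hy0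
    by_contra hlt
    push Not at hlt
    apply hcon
    refine ⟨y0, hy0.2, hy0.1, ?_⟩
    have hSWp := SW_pos w (2 * X)
    refine ⟨fun x => if (∃ y ∈ Finset.Ico 1 N, x = (y : ℤ) ∧ y0 + W * y ∈ A) then
      lamr W z (X + y0 + W * x) * lamr W z (X - y0 - W * x) / SW w (2 * X) else 0, ?_, ?_, ?_⟩
    · refine Or.inr ⟨fun x => ?_, Or.inl ⟨X + y0, X - y0, ?_, ?_, ?_, fun x => ?_⟩⟩
      · simp only
        split_ifs
        · exact div_nonneg (mul_nonneg (R2_lamr_nonneg _ _ _) (R2_lamr_nonneg _ _ _)) hSWp.le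
        · exact le_rfl
      · have h1 : (n : ℤ) < W * N + W := by exact_mod_cast hnWN
        have h2 : (X : ℤ) ≤ n := by exact_mod_cast hX.2
        have h3 : (y0 : ℤ) < W := by exact_mod_cast hy0.1
        have h4 : (W : ℤ) * 1 ≤ W * N := by
          exact_mod_cast Nat.mul_le_mul_left W hNpos
        have h5 : (0 : ℤ) ≤ X := by positivity
        have h6 : (0 : ℤ) ≤ y0 := by positivity
        rw [abs_le]
        constructor <;> nlinarith
      · have h1 : (n : ℤ) < W * N + W := by exact_mod_cast hnWN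
        have h2 : (X : ℤ) ≤ n := by exact_mod_cast hX.2
        have h3 : (y0 : ℤ) < W := by exact_mod_cast hy0.1
        have h4 : (W : ℤ) * 1 ≤ W * N := by
          exact_mod_cast Nat.mul_le_mul_left W hNpos
        have h5 : (0 : ℤ) ≤ X := by positivity
        have h6 : (0 : ℤ) ≤ y0 := by positivity
        rw [abs_le]
        constructor <;> nlinarith
      · have h1 : (1 : ℤ) ≤ X := by exact_mod_cast hX.1
        intro h
        have : (X : ℤ) + y0 + (X - y0) = 2 * X := by ring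
        omega
      · simp only
        have e1 : ((X : ℤ) + y0) + ((X : ℤ) - y0) = 2 * X := by ring
        rw [e1]
        split_ifs
        · exact le_rfl
        · exact div_nonneg (mul_nonneg (R2_lamr_nonneg _ _ _) (R2_lamr_nonneg _ _ _)) hSWp.le
    · intro x hx
      simp only at hx
      by_contra hno
      rw [if_neg hno] at hx
      exact hx rfl
    · rw [sum_Ico_int]
      have h1 : ∑ y ∈ range N, T y0 y / SW w (2 * X) ≤ ∑ m ∈ range N,
          (if (∃ y ∈ Finset.Ico 1 N, ((m : ℕ) : ℤ) = (y : ℤ) ∧ y0 + W * y ∈ A) then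
            lamr W z (X + y0 + W * (m : ℤ)) * lamr W z (X - y0 - W * (m : ℤ)) / SW w (2 * X)
            else 0) := by
        apply sum_le_sum
        intro m hm
        rw [mem_range] at hm
        rw [hT]
        simp only
        by_cases h2 : 1 ≤ m ∧ y0 + W * m ∈ A
        · rw [if_pos h2, if_pos ⟨m, mem_Ico.2 ⟨h2.1, hm⟩, rfl, h2.2⟩]
        · rw [if_neg h2, zero_div]
          split_ifs
          · exact div_nonneg (mul_nonneg (R2_lamr_nonneg _ _ _) (R2_lamr_nonneg _ _ _)) hSWp.le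
          · exact le_rfl
      refine le_trans ?_ h1
      rw [← sum_div, le_div_iff₀ hSWp]
      exact hlt.le
  -- the neighbours kept
  set U' := A.filter (fun u => W ≤ u ∧ u < W * N ∧ Nat.sqrt n < Nat.dist X u) with hU'
  have hUc : (A.card : ℝ) ≤ U'.card + (((2 * W : ℕ) : ℝ) + 2 * Real.sqrt n + 1) := by
    have h1 : A ⊆ U' ∪ (Finset.Icc (W * N) n ∪ (Finset.Icc (X - Nat.sqrt n) (X + Nat.sqrt n) ∪ range W)) := by
      intro u hu
      rw [mem_union, mem_union, mem_union, hU', mem_filter, mem_Icc, mem_Icc, mem_range]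
      by_cases h2 : W ≤ u ∧ u < W * N ∧ Nat.sqrt n < Nat.dist X u
      · exact Or.inl ⟨hu, h2⟩
      · right
        have hu2 := hA hu
        rw [mem_Icc] at hu2
        by_cases h3 : W ≤ u
        · by_cases h4 : u < W * N
          · right; left
            have h5 : ¬ Nat.sqrt n < Nat.dist X u := fun h => h2 ⟨h3, h4, h⟩
            unfold Nat.dist at h5
            omega
          · left; exact ⟨by omega, hu2.2⟩
        · right; right; omega
    have h2 := (card_le_card h1).trans ((card_union_le _ _).trans (Nat.add_le_add_left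
      ((card_union_le _ _).trans (Nat.add_le_add_left (card_union_le _ _) _)) _))
    rw [Nat.card_Icc, Nat.card_Icc, card_range] at h2
    have h3 : n + 1 - W * N ≤ W := by omega
    have h4 : X + Nat.sqrt n + 1 - (X - Nat.sqrt n) ≤ 2 * Nat.sqrt n + 1 := by omega
    have h5 : A.card ≤ U'.card + (2 * W + (2 * Nat.sqrt n + 1)) := by omega
    have h6 : (Nat.sqrt n : ℝ) ≤ Real.sqrt n := Real.nat_sqrt_le_real_sqrt
    have h7 : (A.card : ℝ) ≤ U'.card + (((2 * W : ℕ) : ℝ) + (2 * Nat.sqrt n + 1)) := by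
      exact_mod_cast h5
    linarith
  have hU'c : 4 / 5 * ε * SH X * (n / Real.log n ^ 2) ≤ (U'.card : ℝ) := by
    have h2 : ε * SH X * n / Real.log n ^ 2 = ε * SH X * (n / Real.log n ^ 2) := by ring
    rw [h2] at hdeg
    have h3 : 0 ≤ (n : ℝ) / Real.log n ^ 2 := by positivity
    have h4 : ε / 5 * (n / Real.log n ^ 2) ≤ ε / 5 * SH X * (n / Real.log n ^ 2) := by
      have : 0 ≤ ε / 5 * (n / Real.log n ^ 2) := by positivity
      nlinarith
    nlinarith
  set c : ℝ := ((Nat.totient W : ℝ) / W) ^ 2 * (Real.log n ^ 2 / 4) with hc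
  have hU'm : ∀ u ∈ U', u % W ∈ Cls ∧ u / W < N ∧ c ≤ T (u % W) (u / W) := by
    intro u hu
    rw [hU', mem_filter] at hu
    obtain ⟨huA, hWu, huN, hdist⟩ := hu
    have hr := hAr u huA
    have hmod : (u : ℤ) = ((u % W : ℕ) : ℤ) + W * ((u / W : ℕ) : ℤ) := by
      have := Nat.mod_add_div u W
      exact_mod_cast this.symm
    have hdle : Nat.dist X u ≤ X + u := by unfold Nat.dist; omega
    have hcopr : ∀ v : ℤ, (∀ p : ℕ, p.Prime → (p : ℤ) ∣ v → (n : ℝ) ^ (1 / 10 : ℝ) ≤ p) →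
        IsCoprime v (W : ℤ) := by
      intro v hv
      apply hIsW.isCoprime
      intro p hp h0
      rw [ZMod.intCast_zmod_eq_zero_iff_dvd] at h0
      have hp' := mem_primesUpTo.mp hp
      have h1 := hv p hp'.1 h0
      have h2 : (p : ℝ) ≤ w := by exact_mod_cast hp'.2
      linarith
    have hrg : ∀ v : ℤ, (∀ p : ℕ, p.Prime → (p : ℤ) ∣ v → (n : ℝ) ^ (1 / 10 : ℝ) ≤ p) →
        Rg z v := by
      intro v hv p hp hd
      have h1 := hv p hp hd
      have h2 : (z : ℝ) < p := by linarith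
      exact_mod_cast h2
    have hv1 : ∀ p : ℕ, p.Prime → (p : ℤ) ∣ (X : ℤ) + u → (n : ℝ) ^ (1 / 10 : ℝ) ≤ p :=
      fun p hp h => hr p hp (Or.inl h)
    have hv2 : ∀ p : ℕ, p.Prime → (p : ℤ) ∣ (X : ℤ) - u → (n : ℝ) ^ (1 / 10 : ℝ) ≤ p :=
      fun p hp h => hr p hp (Or.inr h)
    have habs : (((X : ℤ) - u).natAbs) = Nat.dist X u := by
      unfold Nat.dist; omega
    have habs1 : (((X : ℤ) + u).natAbs) = X + u := by omega
    have e1 : (X : ℤ) + ((u % W : ℕ) : ℤ) + W * ((u / W : ℕ) : ℤ) = (X : ℤ) + u := by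
      linarith [hmod]
    have e2 : (X : ℤ) - ((u % W : ℕ) : ℤ) - W * ((u / W : ℕ) : ℤ) = (X : ℤ) - u := by
      linarith [hmod]
    refine ⟨?_, ?_, ?_⟩
    · rw [hCls, mem_filter, mem_range]
      refine ⟨Nat.mod_lt _ hWpos, ?_, ?_⟩
      · have h3 : (X : ℤ) + ((u % W : ℕ) : ℤ) = ((X : ℤ) + u) + (W : ℤ) * (-((u / W : ℕ) : ℤ)) := by
          rw [← e1]; ring
        rw [h3]
        exact IsCoprime.add_mul_left_left (hcopr _ hv1) _
      · have h3 : (X : ℤ) - ((u % W : ℕ) : ℤ) = ((X : ℤ) - u) + (W : ℤ) * (((u / W : ℕ) : ℤ)) := by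
          rw [← e2]; ring
        rw [h3]
        exact IsCoprime.add_mul_left_left (hcopr _ hv2) _
    · exact Nat.div_lt_of_lt_mul huN
    · have h1 : 1 ≤ u / W ∧ u % W + W * (u / W) ∈ A := by
        refine ⟨(Nat.one_le_div_iff hWpos).2 hWu, ?_⟩
        rw [Nat.mod_add_div]
        exact huA
      rw [hT]
      simp only
      rw [if_pos h1, e1, e2]
      unfold lamr
      rw [if_pos (hrg _ hv1), if_pos (hrg _ hv2), habs, habs1]
      have hlow : ∀ v : ℕ, Nat.sqrt n < v → Real.log n / 2 ≤ Real.log v := by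
        intro v hv
        have h4 : Real.sqrt n ≤ v := by
          have h5 : n < (Nat.sqrt n + 1) ^ 2 := by
            have := Nat.lt_succ_sqrt n
            rw [pow_two]; exact this
          have h6 : n ≤ v ^ 2 := by
            have : (Nat.sqrt n + 1) ^ 2 ≤ v ^ 2 := Nat.pow_le_pow_left hv 2
            omega
          rw [Real.sqrt_le_left (by positivity)]
          exact_mod_cast h6
        have h5 : 0 < Real.sqrt n := Real.sqrt_pos.2 (by linarith)
        calc Real.log n / 2 = Real.log (Real.sqrt n) := (Real.log_sqrt (by linarith)).symm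
          _ ≤ Real.log v := Real.log_le_log h5 h4
      have hl1 := hlow _ (lt_of_lt_of_le hdist hdle)
      have hl2 := hlow _ hdist
      have hφ : (0 : ℝ) ≤ (Nat.totient W : ℝ) / W := by positivity
      calc c = ((Nat.totient W : ℝ) / W * (Real.log n / 2)) * ((Nat.totient W : ℝ) / W * (Real.log n / 2)) := by
            rw [hc]; ring
        _ ≤ _ := by
            apply mul_le_mul (mul_le_mul_of_nonneg_left hl1 hφ) (mul_le_mul_of_nonneg_left hl2 hφ)
            · positivity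
            · exact mul_nonneg hφ (le_trans (by positivity) hl1)
  -- summation
  have hsum1 : (U'.card : ℝ) * c ≤ ∑ y0 ∈ Cls, ∑ y ∈ range N, T y0 y := by
    rw [← sum_product']
    have hinj : Set.InjOn (fun u : ℕ => (u % W, u / W)) (U' : Set ℕ) := by
      intro u _ v _ h
      simp only [Prod.mk.injEq] at h
      rw [← Nat.mod_add_div u W, ← Nat.mod_add_div v W, h.1, h.2]
    calc (U'.card : ℝ) * c = ∑ _u ∈ U', c := by rw [sum_const, nsmul_eq_mul]
      _ ≤ ∑ u ∈ U', T (u % W) (u / W) := sum_le_sum (fun u hu => (hU'm u hu).2.2)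
      _ = ∑ q ∈ U'.image (fun u : ℕ => (u % W, u / W)), T q.1 q.2 := by
          rw [sum_image hinj]
      _ ≤ ∑ q ∈ Cls ×ˢ range N, T q.1 q.2 := by
          apply sum_le_sum_of_subset_of_nonneg
          · intro q hq
            rw [mem_image] at hq
            obtain ⟨u, hu, rfl⟩ := hq
            rw [mem_product, mem_range]
            exact ⟨(hU'm u hu).1, (hU'm u hu).2.1⟩
          · intro q _ _
            exact hT0 _ _
  have hsum2 : ∑ y0 ∈ Cls, ∑ y ∈ range N, T y0 y ≤ Cls.card * (ε / 40 * N * SW w (2 * X)) := by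
    rw [← nsmul_eq_mul]
    apply sum_le_card_nsmul
    exact hcon'
  have hsing := gr2_singular w hw X hX.1
  rw [← hW, ← hCls] at hsing
  set Φ : ℝ := (Nat.totient W : ℝ) ^ 2 / W with hΦ
  have hΦpos : 0 < Φ := by
    have : 0 < (Nat.totient W : ℝ) := by exact_mod_cast Nat.totient_pos.2 hWpos
    positivity
  have hup : (U'.card : ℝ) * c ≤ ε / 20 * N * (SH X * Φ) := by
    have h1 : (U'.card : ℝ) * c ≤ (ε / 40 * N) * (Cls.card * SW w (2 * X)) := by
      calc (U'.card : ℝ) * c ≤ Cls.card * (ε / 40 * N * SW w (2 * X)) := le_trans hsum1 hsum2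
        _ = _ := by ring
    have h2 : (ε / 40 * N) * (Cls.card * SW w (2 * X)) ≤ (ε / 40 * N) * (2 * SH X * Φ) :=
      mul_le_mul_of_nonneg_left hsing (by positivity)
    linarith
  have hlow : ε / 5 * N * (SH X * Φ) ≤ (U'.card : ℝ) * c := by
    have hc0 : 0 ≤ c := by rw [hc]; positivity
    have h1 : 4 / 5 * ε * SH X * (n / Real.log n ^ 2) * c ≤ (U'.card : ℝ) * c :=
      mul_le_mul_of_nonneg_right hU'c hc0
    refine le_trans ?_ h1
    have h2 : 4 / 5 * ε * SH X * (n / Real.log n ^ 2) * c = ε / 5 * SH X * (Φ / W) * n := by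
      rw [hc, hΦ]
      field_simp
    rw [h2]
    have h3 : ε / 5 * SH X * (Φ / W) * (N * W) ≤ ε / 5 * SH X * (Φ / W) * n :=
      mul_le_mul_of_nonneg_left hNW (by positivity)
    refine le_trans (le_of_eq ?_) h3
    field_simp
  have hfin : 0 < ε * N * (SH X * Φ) := by positivity
  nlinarith

end Pool.Agent.Lib.H18C
end

-- from Lib.H59C.CF
section

/-!
# CF: neighbours in the Chen graph
-/

open Finset

namespace Pool.Agent.Lib.H59C

/-- A prime or a product of two primes. -/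
def P2 (a : ℕ) : Prop := a.Prime ∨ ∃ r s : ℕ, r.Prime ∧ s.Prime ∧ a = r * s

/-- Chen neighbours (in halved form): one of `X + y`, `|X - y|` is a prime and the other one a prime or a product of two
primes, without prime factors below `n^(1/10)`. -/
def ChenAdj (n X y : ℕ) : Prop :=
  (((X + y).Prime ∧ P2 (Nat.dist X y)) ∨ ((Nat.dist X y).Prime ∧ P2 (X + y))) ∧
    ∀ p : ℕ, p.Prime → (p ∣ X + y ∨ p ∣ Nat.dist X y) → (n : ℝ) ^ (1 / 10 : ℝ) ≤ p

theorem CF_hl (X : ℕ) (hX : X ≠ 0) : hl (2 * X) = hl X := by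
  unfold hl
  refine Finset.prod_congr ?_ fun q _ => rfl
  ext q
  rw [Finset.mem_filter, Finset.mem_filter, Nat.mem_primeFactors, Nat.mem_primeFactors]
  constructor
  · rintro ⟨⟨h1, h2, _⟩, h4⟩
    refine ⟨⟨h1, ?_, hX⟩, h4⟩
    rcases h1.dvd_mul.1 h2 with h | h
    · have := Nat.le_of_dvd (by norm_num) h
      omega
    · exact h
  · rintro ⟨⟨h1, h2, _⟩, h4⟩
    exact ⟨⟨h1, dvd_mul_of_dvd_right h2 2, by omega⟩, h4⟩

theorem CF_pow (n p : ℕ) (hn : 256 ≤ n) (h : n ≤ 16 * p) : (n : ℝ) ^ (1 / 10 : ℝ) ≤ p := by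
  have hn1 : (256 : ℝ) ≤ n := by exact_mod_cast hn
  have h1 : (n : ℝ) ^ (1 / 10 : ℝ) ≤ (n : ℝ) ^ (1 / 2 : ℝ) :=
    Real.rpow_le_rpow_of_exponent_le (by linarith) (by norm_num)
  rw [← Real.sqrt_eq_rpow] at h1
  have h2 : (16 : ℝ) ≤ Real.sqrt n := by
    rw [Real.le_sqrt (by norm_num) (by linarith)]
    norm_num
    exact_mod_cast hn
  have h3 := Real.mul_self_sqrt (show (0 : ℝ) ≤ n by linarith)
  have h4 : (n : ℝ) ≤ 16 * p := by exact_mod_cast h
  nlinarith

open Classical in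
theorem CF_good {n N y1 y2 p : ℕ} (h : p ∈ Good n N y1 y2) : (y1 < p ∧ p ≤ y2 ∧ p.Prime) ∧
    (∀ q : ℕ, q.Prime → q ∣ Nat.dist N p → (n : ℝ) ^ (1 / 10 : ℝ) ≤ q) ∧ P2 (Nat.dist N p) := by
  unfold Good at h
  rw [Finset.mem_filter, mem_Sq] at h
  exact ⟨⟨h.1.1.1, h.1.1.2, h.1.2⟩, h.2⟩

theorem CF_win1 (n X : ℕ) (hn : 256 ≤ n) (hX : 1 ≤ X) (h : 4 * X ≤ n) :
    Win n (2 * X) (3 * n / 4) n :=
  ⟨by omega, ⟨X, rfl⟩, by omega, by omega, le_rfl, by omega, by omega, Or.inr ⟨by omega, by omega⟩⟩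

theorem CF_win2 (n X : ℕ) (hn : 256 ≤ n) (hX : X ≤ n) (h : n < 4 * X) :
    Win n (2 * X) (X / 2) (X - 1) :=
  ⟨by omega, ⟨X, rfl⟩, by omega, by omega, by omega, by omega, by omega,
    Or.inl ⟨by omega, by omega⟩⟩

open Classical in
/-- **Every vertex has many Chen neighbours.**

Proof. `chen_window` with `N = 2 X` (`hl (2 X) = hl X`). If `4 X ≤ n`: the window `y1 = 3 n/4`, `y2 = n`, and `y = p - X`
(`X + y = p`, `|X - y| = p - 2 X`). Otherwise `y1 = X/2`, `y2 = X - 1` and `y = X - p` (`|X - y| = p`, `X + y = 2 X - p`). The map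
`p ↦ y` is injective, `1 ≤ y ≤ n`, and `p ≥ n/16 ≥ n^(1/10)`. -/
theorem chen_nbrs : ∃ c : ℝ, 0 < c ∧ ∃ n0 : ℕ, ∀ n : ℕ, n0 ≤ n → ∀ X ∈ Icc 1 n,
    c * hl X * n / Real.log n ^ 2 ≤ (((Icc 1 n).filter (fun y => ChenAdj n X y)).card : ℝ) := by
  obtain ⟨c, hc, n0, h⟩ := chen_window
  refine ⟨c, hc, max n0 256, fun n hn X hX => ?_⟩
  have hn0 : n0 ≤ n := (le_max_left _ _).trans hn
  have hn1 : 256 ≤ n := (le_max_right _ _).trans hn
  rw [Finset.mem_Icc] at hX
  rw [← CF_hl X (by omega)]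
  by_cases h4 : 4 * X ≤ n
  · have hW := CF_win1 n X hn1 hX.1 h4
    refine (h n hn0 _ _ _ hW).trans ?_
    have hcard : (Good n (2 * X) (3 * n / 4) n).card ≤
        ((Icc 1 n).filter (fun y => ChenAdj n X y)).card := by
      refine Finset.card_le_card_of_injOn (fun p => p - X) ?_ ?_
      · intro p hp
        obtain ⟨⟨h1, h2, h3⟩, h5, h6⟩ := CF_good hp
        have e1 : X + (p - X) = p := by omega
        have e2 : Nat.dist X (p - X) = Nat.dist (2 * X) p := by
          unfold Nat.dist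
          omega
        simp only [Finset.coe_filter, Set.mem_setOf_eq, Finset.mem_Icc]
        refine ⟨⟨by omega, by omega⟩, Or.inl ⟨?_, ?_⟩, ?_⟩
        · rw [e1]; exact h3
        · rw [e2]; exact h6
        · intro q hq hqd
          rw [e1, e2] at hqd
          rcases hqd with hd | hd
          · rw [Nat.prime_dvd_prime_iff_eq hq h3] at hd
            rw [hd]
            exact CF_pow n p hn1 (by omega)
          · exact h5 q hq hd
      · intro p hp q hq hpq
        obtain ⟨⟨h1, h2, h3⟩, _⟩ := CF_good hp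
        obtain ⟨⟨h1', h2', h3'⟩, _⟩ := CF_good hq
        simp only at hpq
        omega
    exact_mod_cast hcard
  · push Not at h4
    have hW := CF_win2 n X hn1 hX.2 h4
    refine (h n hn0 _ _ _ hW).trans ?_
    have hcard : (Good n (2 * X) (X / 2) (X - 1)).card ≤
        ((Icc 1 n).filter (fun y => ChenAdj n X y)).card := by
      refine Finset.card_le_card_of_injOn (fun p => X - p) ?_ ?_
      · intro p hp
        obtain ⟨⟨h1, h2, h3⟩, h5, h6⟩ := CF_good hp
        have e1 : Nat.dist X (X - p) = p := by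
          unfold Nat.dist
          omega
        have e2 : X + (X - p) = Nat.dist (2 * X) p := by
          unfold Nat.dist
          omega
        simp only [Finset.coe_filter, Set.mem_setOf_eq, Finset.mem_Icc]
        refine ⟨⟨by omega, by omega⟩, Or.inr ⟨?_, ?_⟩, ?_⟩
        · rw [e1]; exact h3
        · rw [e2]; exact h6
        · intro q hq hqd
          rw [e1, e2] at hqd
          rcases hqd with hd | hd
          · exact h5 q hq hd
          · rw [Nat.prime_dvd_prime_iff_eq hq h3] at hd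
            rw [hd]
            exact CF_pow n p hn1 (by omega)
      · intro p hp q hq hpq
        obtain ⟨⟨h1, h2, h3⟩, _⟩ := CF_good hp
        obtain ⟨⟨h1', h2', h3'⟩, _⟩ := CF_good hq
        simp only at hpq
        omega
    exact_mod_cast hcard

end Pool.Agent.Lib.H59C
end
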