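import Pool.Agent.Lib.H1M.RV.D_Goldbach_Defs
import Pool.Agent.Lib.H1M.RV.M007
import Pool.Agent.Lib.H1M.RV.M008
import Pool.Agent.Lib.H1M.RV.M052
import Pool.Agent.Lib.H1M.RV.M067
import Pool.Agent.Lib.H1M.RV.M085
import Pool.Agent.Lib.H1M.RV.M087
import Pool.Agent.Lib.H1M.RV.M097
import Pool.Agent.Lib.H1M.RV.M100
import Pool.Agent.Lib.H1M.RV.M105
import Pool.Agent.Lib.H1M.RV.M106
import Pool.Agent.Lib.H1M.RV.M107
import Pool.Agent.Lib.H1M.RV.M108

/-! Merged copies (to shorten the build) of Lib.H18GB.TY, Lib.H18GB2.GA, Lib.H18GB.TY1, Lib.H18GB.TY3b, Lib.H18GB2.Alpha, Lib.H18E.TG, Lib.H18GB.Transfer, Lib.H18E.FN, Lib.H18E.FN2, Lib.H18P.P2, Lib.H18P.OM. -/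

-- from Lib.H18GB.TY
section

/-!
# Project GB: TY2 (typical distances)

Link edges: `V = v0 + W v`, `2 V + 3` prime, edge `V - (V + 3)`; `d = 0` or `3` selects an end.
`sg(v) = lamv W (2 (v0 + W v) + 3)` is the weight of the link edge.
-/

namespace Pool.Agent.Lib.H18GB

open Finset Pool.Agent.Lib.Sieve Pool.Agent.Lib.GoldbachGraph

/-- weight of the link edge -/
noncomputable def sg (W v0 v : ℕ) : ℝ := lamv W (2 * (v0 + W * v) + 3)

theorem sg_nonneg (W v0 v : ℕ) : 0 ≤ sg W v0 v := lamv_nonneg' _ _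

theorem sg_eq (W v0 v : ℕ) :
    sg W v0 v = lamv W (2 * W * (v : ℤ) + ((2 * v0 + 3 : ℕ) : ℤ)) := by
  unfold sg
  congr 1
  push_cast
  ring

theorem sg_ne {W v0 v : ℕ} (h : sg W v0 v ≠ 0) : (2 * (v0 + W * v) + 3).Prime := by
  unfold sg lamv at h
  have e : (2 * ((v0 : ℤ) + W * v) + 3).natAbs = 2 * (v0 + W * v) + 3 := by
    have : (2 * ((v0 : ℤ) + W * v) + 3) = ((2 * (v0 + W * v) + 3 : ℕ) : ℤ) := by push_cast; ring
    rw [this, Int.natAbs_natCast]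
  rw [e] at h
  by_contra hp
  rw [if_neg hp] at h
  exact h rfl

theorem Comp.swap {W : ℕ} {x y : ℤ} (h : Comp W x y) : Comp W y x := by
  refine ⟨?_, ?_⟩
  · rw [add_comm]; exact h.1
  · have := h.2.neg_left
    rwa [neg_sub] at this


open Classical in
/-- Chunk TY2. If `B` is a positive proportion of the class `z0` then almost every (in mass) `V + d` has a
neighbour in `B` (the same proof). -/
theorem ty2' (c ε : ℝ) (hc : 0 < c) (hε : 0 < ε) : ∃ w0 : ℕ, ∀ w W : ℕ, w0 ≤ w → IsW w W →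
    ∃ N0 : ℕ, ∀ N : ℕ, N0 ≤ N → ∀ z0 v0 d : ℕ, z0 < W → v0 + 3 < W → (d = 0 ∨ d = 3) →
    IsCoprime (2 * (v0 : ℤ) + 3) W → Comp W z0 (v0 + d) → ∀ B : Finset ℕ, B ⊆ Finset.Ico 1 N →
    c * N ≤ (B.card : ℝ) →
    ∑ v ∈ (Finset.Ico 1 N).filter (fun v => ¬ ∃ z ∈ B, hadj (v0 + d + W * v) (z0 + W * z)),
      sg W v0 v ≤ ε * N := by
  obtain ⟨w1, hw1⟩ := rcn1 (c * ε / 2) (by positivity)
  refine ⟨max w1 2, fun w W hw hW => ?_⟩
  obtain ⟨N1, hN1⟩ := hw1 w W (le_trans (le_max_left _ _) hw) hW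
  have h2W : 2 ∣ W := (hW.2 2 Nat.prime_two).mpr (le_trans (le_max_right _ _) hw)
  refine ⟨max N1 1, fun N hN z0 v0 d hz0 hv0 hd _ hcomp B hB hcard => ?_⟩
  have hNpos : 1 ≤ N := le_trans (le_max_right _ _) hN
  have hNR : (1 : ℝ) ≤ N := by exact_mod_cast hNpos
  set Z := (Finset.Ico 1 N).filter (fun v => ¬ ∃ z ∈ B, hadj (v0 + d + W * v) (z0 + W * z)) with hZ
  have hdW : v0 + d < W := by rcases hd with rfl | rfl <;> omega
  have hb4 : 2 * v0 + 3 ≤ 4 * W := by omega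
  have key := gr5_half (b := 2 * v0 + 3) h2W hN1 (le_trans (le_max_left _ _) hN) hdW hz0 hb4
    (by push_cast; exact hcomp.swap) (Finset.filter_subset _ _ : Z ⊆ Finset.Ico 1 N) hB
    (fun v hv z hz hadj => (Finset.mem_filter.mp hv).2 ⟨z, hz, hadj⟩)
  have hsum : ∑ v ∈ Z, lamv W (2 * W * (v : ℤ) + ((2 * v0 + 3 : ℕ) : ℤ)) = ∑ v ∈ Z, sg W v0 v :=
    Finset.sum_congr rfl fun v _ => (sg_eq W v0 v).symm
  rw [hsum] at key
  have hS : 0 ≤ ∑ v ∈ Z, sg W v0 v := Finset.sum_nonneg fun v _ => sg_nonneg _ _ _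
  have h1 : (∑ v ∈ Z, sg W v0 v) * (c * N) ≤ c * ε * N ^ 2 :=
    (mul_le_mul_of_nonneg_left hcard hS).trans (key.trans (le_of_eq (by ring)))
  have h2 : (∑ v ∈ Z, sg W v0 v) * (c * N) ≤ (ε * N) * (c * N) := by
    linarith [h1, (by ring : (ε * N) * (c * N) = c * ε * (N : ℝ) ^ 2)]
  exact le_of_mul_le_mul_right h2 (by positivity)

/-- Chunk TY2. Total mass (`pntlam` for the modulus `2 W`). -/
theorem sg_total : ∃ w0 : ℕ, ∀ w W : ℕ, w0 ≤ w → IsW w W → ∃ N0 : ℕ, ∀ N : ℕ, N0 ≤ N →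
    ∀ v0 : ℕ, v0 + 3 < W → IsCoprime (2 * (v0 : ℤ) + 3) W →
    (N : ℝ) / 2 ≤ ∑ v ∈ Finset.Ico 1 N, sg W v0 v := by
  refine ⟨2, fun w W hw hW => ?_⟩
  have hWpos : 0 < W := hW.1
  obtain ⟨N2, hN2⟩ := pntlam (2 * W) (by omega) (1 / 4) (by norm_num)
  obtain ⟨N3, hN3⟩ := log_sq_le W (1 / 64) (by norm_num)
  refine ⟨max N2 (max N3 1), fun N hN v hv hcop => ?_⟩
  have hNN2 : N2 ≤ N := le_trans (le_max_left _ _) hN
  have hNN3 : N3 ≤ N := le_trans (le_trans (le_max_left _ _) (le_max_right _ _)) hN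
  have hNpos : 1 ≤ N := le_trans (le_trans (le_max_right _ _) (le_max_right _ _)) hN
  have hNR : (1 : ℝ) ≤ N := by exact_mod_cast hNpos
  have h2W : 2 ∣ W := (hW.2 2 Nat.prime_two).mpr hw
  have htot : (Nat.totient (2 * W) / (2 * W : ℕ) : ℝ) = (Nat.totient W / W : ℝ) := by
    rw [Nat.totient_mul_of_prime_of_dvd Nat.prime_two h2W]
    have : (W : ℝ) ≠ 0 := by exact_mod_cast hWpos.ne'
    push_cast
    field_simp
  have hlam : ∀ x : ℕ, uu (2 * W) (2 * (v : ℤ) + 3) (x : ℤ) = sg W v x - 1 := by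
    intro x
    rw [sg_eq]
    unfold uu lam lamv
    rw [htot]
    have : (2 * (v : ℤ) + 3 + ((2 * W : ℕ) : ℤ) * x) =
        2 * W * (x : ℤ) + ((2 * v + 3 : ℕ) : ℤ) := by push_cast; ring
    rw [this]
  have hr : |(2 * (v : ℤ) + 3)| < 2 * ((2 * W : ℕ) : ℤ) := by
    have : (v : ℤ) + 3 < W := by exact_mod_cast hv
    push_cast
    rw [abs_lt]; constructor <;> omega
  have hcop2 : IsCoprime (2 * (v : ℤ) + 3) ((2 * W : ℕ) : ℤ) := by
    push_cast
    refine IsCoprime.mul_right ?_ hcop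
    exact ⟨1, -((v : ℤ) + 1), by ring⟩
  have hsum := hN2 N hNN2 (2 * (v : ℤ) + 3) hr hcop2 N (Int.natCast_nonneg N) le_rfl
  rw [sum_Ico_int, Finset.sum_congr rfl (fun n _ => hlam n), Finset.sum_sub_distrib,
    Finset.sum_const, Finset.card_range, nsmul_eq_mul, mul_one] at hsum
  have hsum' : 3 / 4 * (N : ℝ) ≤ ∑ x ∈ Finset.range N, sg W v x := by
    have := (abs_le.mp hsum).1
    linarith
  have hsplit : ∑ x ∈ Finset.range N, sg W v x = (∑ x ∈ Finset.Ico 1 N, sg W v x) + sg W v 0 := by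
    rw [Finset.range_eq_Ico, Finset.sum_eq_sum_Ico_succ_bot (by omega : 0 < N), add_comm]
  have hsg00 : sg W v 0 ≤ 1 / 4 * N := by
    have hWR : (1 : ℝ) ≤ W := by exact_mod_cast hWpos
    have hBig : (1 : ℝ) ≤ 4 * W * N + 4 * W + 4 := by nlinarith
    have hvR : (v : ℝ) + 3 ≤ W := by exact_mod_cast hv.le
    have hv0 : (0 : ℝ) ≤ v := Nat.cast_nonneg v
    have a1 : sg W v 0 ≤ Real.log (4 * W * N + 4 * W + 4) := by
      unfold sg
      apply lamv_le_log hBig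
      push_cast
      rw [abs_le]
      constructor <;> nlinarith
    have a2 := hN3 N hNN3
    have a3 : Real.log (4 * W * N + 4 * W + 4) ≤
        1 / 8 + 2 * Real.log (4 * W * N + 4 * W + 4) ^ 2 := by
      nlinarith [sq_nonneg (Real.log (4 * W * N + 4 * W + 4) - 1 / 4)]
    linarith
  rw [hsplit] at hsum'
  linarith

end Pool.Agent.Lib.H18GB
end

-- from Lib.H18GB2.GA
section

/-!
# Project GB2: GA (large degree vertices reach almost all links in two steps)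
-/

namespace Pool.Agent.Lib.H18GB

open Finset Pool.Agent.Lib.Sieve Pool.Agent.Lib.GoldbachGraph

/-- Chunk GA. `ss` with `F(y) = lamv W (X + y0 + W y) lamv W (X - y0 - W y) / SW w (2 X)` (third kind,
`b = X + y0`, `b' = X - y0`; put `0` at `y = 0`), `G1 = ` restriction of `sg` to the exceptional `v`
(second kind, `b = 2 v0 + 3`), kernel in the variables `(v, y)` or `(y, v)`: `r1 = v0 + d + y0`,
`r2 = ± (v0 + d - y0)`, `σ = ± 1` (`no_edge_bound` in `GRAux.lean`; compare `gr3` and `gr5_half`). -/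
theorem ga1 (ε : ℝ) (hε : 0 < ε) : ∃ w0 : ℕ, ∀ w W : ℕ, w0 ≤ w → IsW w W → ∃ N0 : ℕ,
    ∀ N : ℕ, N0 ≤ N → ∀ X y0 v0 d : ℕ, 1 ≤ X → X ≤ 2 * W * N → y0 < W → v0 + 3 < W →
    (d = 0 ∨ d = 3) → IsCoprime (2 * (v0 : ℤ) + 3) W → Comp W X y0 → Comp W (v0 + d) y0 →
    ε * N ≤ Dw w W N X y0 →
    ∑ v ∈ (Finset.Ico 1 N).filter (fun v => ¬ ∃ y ∈ Finset.Ico 1 N, hadj X (y0 + W * y) ∧
      hadj (y0 + W * y) (v0 + d + W * v)), sg W v0 v ≤ ε * N := by
  obtain ⟨w1, hw1⟩ := ss (ε ^ 2 / 4) (by positivity)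
  refine ⟨max w1 2, fun w W hw hW => ?_⟩
  obtain ⟨N1, hN1⟩ := hw1 w W (le_trans (le_max_left _ _) hw) hW
  obtain ⟨N2, hN2⟩ := log_sq_le W (ε / 2) (by positivity)
  refine ⟨max (max N1 N2) 1, fun N hN X y0 v0 d hX1 hX2 hy0 hv0 hd _ hXy hvy hD => ?_⟩
  have hNN1 : N1 ≤ N := le_trans (le_trans (le_max_left _ _) (le_max_left _ _)) hN
  have hNN2 : N2 ≤ N := le_trans (le_trans (le_max_right _ _) (le_max_left _ _)) hN
  have hNpos : 1 ≤ N := le_trans (le_max_right _ _) hN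
  have hNR : (1 : ℝ) ≤ N := by exact_mod_cast hNpos
  have h2W : 2 ∣ W := (hW.2 2 Nat.prime_two).mpr (le_trans (le_max_right _ _) hw)
  set Z := (Finset.Ico 1 N).filter (fun v => ¬ ∃ y ∈ Finset.Ico 1 N, hadj X (y0 + W * y) ∧
      hadj (y0 + W * y) (v0 + d + W * v)) with hZdef
  have hZsub : Z ⊆ Finset.Ico 1 N := Finset.filter_subset _ _
  set z0 : ℕ := v0 + d with hz0def
  have hz0 : z0 < W := by rcases hd with rfl | rfl <;> omega
  have hyz : Comp W (y0 : ℤ) (z0 : ℤ) := by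
    have h := hvy.swap
    have e : ((z0 : ℕ) : ℤ) = (v0 : ℤ) + d := by rw [hz0def]; push_cast; ring
    rw [e]
    exact h
  -- the weight
  set f : ℤ → ℝ := fun x => lamv W (((X : ℤ) + y0) + W * x) * lamv W (((X : ℤ) - y0) - W * x) /
    SW w (((X : ℤ) + y0) + ((X : ℤ) - y0)) with hf
  have hSWp : (0 : ℝ) < SW w (((X : ℤ) + y0) + ((X : ℤ) - y0)) :=
    lt_of_lt_of_le one_pos (one_le_SW _ _)
  have hf0 : ∀ x, 0 ≤ f x := fun x =>
    div_nonneg (mul_nonneg (lamv_nonneg' _ _) (lamv_nonneg' _ _)) hSWp.le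
  set F : ℤ → ℝ := fun x => if 1 ≤ x ∧ x < N then f x else 0 with hFdef
  have hF0 : ∀ x, 0 ≤ F x := by
    intro x
    simp only [hFdef]
    split_ifs
    · exact hf0 x
    · exact le_rfl
  have hFf : ∀ x, F x ≤ f x := by
    intro x
    simp only [hFdef]
    split_ifs
    · exact le_rfl
    · exact hf0 x
  have hWN : (W : ℤ) * N ≥ W := by
    have : (1 : ℤ) ≤ N := by exact_mod_cast hNpos
    nlinarith [Int.natCast_nonneg W]
  have hXle : (X : ℤ) ≤ 2 * W * N := by exact_mod_cast hX2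
  have hWpos : (0 : ℤ) < W := by exact_mod_cast hW.1
  have hy0' : (y0 : ℤ) < W := by exact_mod_cast hy0
  have hz0' : (z0 : ℤ) < W := by exact_mod_cast hz0
  have hr1 : |((y0 : ℤ) + z0)| < 2 * W := by
    rw [abs_lt]; constructor <;> omega
  have hr2 : |((y0 : ℤ) - z0)| < 2 * W := by
    rw [abs_lt]; constructor <;> omega
  have hr2' : |(-((y0 : ℤ) - z0))| < 2 * W := by rw [abs_neg]; exact hr2
  have hb : |((X : ℤ) + y0)| ≤ 4 * W * N := by
    rw [abs_le]; constructor <;> nlinarith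
  have hb' : |((X : ℤ) - y0)| ≤ 4 * W * N := by
    rw [abs_le]; constructor <;> nlinarith
  have hbb : ((X : ℤ) + y0) + ((X : ℤ) - y0) ≠ 0 := by
    have : (1 : ℤ) ≤ X := by exact_mod_cast hX1
    omega
  have hFA : Adm w W N F := ⟨hF0, Or.inr (Or.inr (Or.inl ⟨(X : ℤ) + y0, (X : ℤ) - y0, hb, hb', hbb,
    fun x => hFf x⟩))⟩
  -- the second weight
  set G : ℤ → ℝ := fun x => lamv W (2 * W * x + ((2 * v0 + 3 : ℕ) : ℤ)) * indZ Z x with hGdef
  have hG0 : ∀ x, 0 ≤ G x := fun x => mul_nonneg (lamv_nonneg' _ _) (indZ_nonneg _ _)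
  have hGf : ∀ x, G x ≤ lamv W (2 * W * x + ((2 * v0 + 3 : ℕ) : ℤ)) := by
    intro x
    have h1 := indZ_abs_le Z x
    rw [abs_of_nonneg (indZ_nonneg _ _)] at h1
    exact mul_le_of_le_one_right (lamv_nonneg' _ _) h1
  have hGA : Adm w W N G := by
    refine ⟨hG0, Or.inr (Or.inl ⟨((2 * v0 + 3 : ℕ) : ℤ), ?_, hGf⟩)⟩
    rw [abs_of_nonneg (Int.natCast_nonneg _)]
    push_cast
    omega
  have k1 := hN1 N hNN1 ((y0 : ℤ) + z0) ((y0 : ℤ) - z0) 1 hr1 hyz.1 hr2 hyz.2 (Or.inl rfl)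
    F G F G hFA hGA (fun x => (abs_of_nonneg (hF0 x)).le) (fun x => (abs_of_nonneg (hG0 x)).le)
  have k2 := hN1 N hNN1 ((y0 : ℤ) + z0) (-((y0 : ℤ) - z0)) (-1) hr1 hyz.1 hr2' hyz.2.neg_left
    (Or.inr rfl) F G F G hFA hGA (fun x => (abs_of_nonneg (hF0 x)).le)
    (fun x => (abs_of_nonneg (hG0 x)).le)
  have hedge : ∀ x ∈ Finset.Ico (0 : ℤ) N, ∀ y ∈ Finset.Ico (0 : ℤ) N,
      F x * G y ≠ 0 →
      lamv W (((y0 : ℤ) + z0) + W * (x + y)) * lamv W (((y0 : ℤ) - z0) + W * (x - y)) = 0 := by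
    intro x _ y _ hne
    by_contra hc
    obtain ⟨hFx, hGy⟩ := mul_ne_zero_iff.mp hne
    obtain ⟨z, hzB, rfl⟩ := indZ_ne (right_ne_zero_of_mul hGy)
    have hx : 1 ≤ x ∧ x < N := by
      by_contra h
      exact hFx (by simp only [hFdef]; rw [if_neg h])
    have hfx : f x ≠ 0 := by
      simp only [hFdef] at hFx
      rwa [if_pos hx] at hFx
    obtain ⟨m, rfl⟩ : ∃ m : ℕ, x = m := ⟨x.toNat, by omega⟩
    have hprod : lamv W (((X : ℤ) + y0) + W * m) * lamv W (((X : ℤ) - y0) - W * m) ≠ 0 := by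
      intro h0
      exact hfx (by simp only [hf]; rw [h0, zero_div])
    have e1 : hadj X (y0 + W * m) := by
      have h3 := hadj_of_lamv (x0 := X) (y0 := y0) (x := 0) (y := m) h2W hXy (by
        have a1 : ((X : ℤ) + y0) + W * (((0 : ℕ) : ℤ) + m) = ((X : ℤ) + y0) + W * m := by
          push_cast; ring
        have a2 : ((X : ℤ) - y0) + W * (((0 : ℕ) : ℤ) - m) = ((X : ℤ) - y0) - W * m := by
          push_cast; ring
        rw [a1, a2]
        exact hprod)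
      simpa using h3
    have e2 : hadj (y0 + W * m) (z0 + W * z) := hadj_of_lamv h2W hyz hc
    exact (Finset.mem_filter.mp hzB).2 ⟨m, Finset.mem_Ico.mpr ⟨by omega, by omega⟩, e1, e2⟩
  have hbound := no_edge_bound hF0 hG0 hedge k1 k2
  have hGs : ∑ x ∈ Finset.Ico (0 : ℤ) N, G x = ∑ v ∈ Z, sg W v0 v := by
    classical
    rw [sum_Ico_int]
    have h1 : ∀ n ∈ Finset.range N, G (n : ℤ) = if n ∈ Z then sg W v0 n else 0 := by
      intro n _
      simp only [hGdef]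
      rw [indZ_cast, sg_eq]
      split_ifs <;> simp
    rw [Finset.sum_congr rfl h1, Finset.sum_ite_mem]
    apply Finset.sum_congr _ (fun _ _ => rfl)
    apply Finset.inter_eq_right.mpr
    intro n hn
    have := Finset.mem_Ico.mp (hZsub hn)
    exact Finset.mem_range.mpr this.2
  rw [hGs] at hbound
  -- the total weight
  have hsum : ε / 2 * N ≤ ∑ x ∈ Finset.Ico (0 : ℤ) N, F x := by
    rw [sum_Ico_int]
    have h3 : Dw w W N X y0 = ∑ y ∈ Finset.range N, f (y : ℤ) := by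
      unfold Dw
      apply Finset.sum_congr rfl
      intro y _
      simp only [hf]
      have : ((X : ℤ) + y0) + ((X : ℤ) - y0) = 2 * (X : ℤ) := by ring
      rw [this]
    have h4 : ∑ y ∈ Finset.range N, f (y : ℤ) ≤
        (∑ n ∈ Finset.range N, F (n : ℤ)) + f 0 := by
      obtain ⟨N', rfl⟩ : ∃ N', N = N' + 1 := ⟨N - 1, by omega⟩
      rw [Finset.sum_range_succ' (fun n : ℕ => f (n : ℤ)),
        Finset.sum_range_succ' (fun n : ℕ => F (n : ℤ))]
      have h5 : ∀ n ∈ Finset.range N', f ((n + 1 : ℕ) : ℤ) = F ((n + 1 : ℕ) : ℤ) := by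
        intro n hn
        have := Finset.mem_range.mp hn
        simp only [hFdef]
        rw [if_pos]
        constructor
        · push_cast; omega
        · push_cast; omega
      rw [Finset.sum_congr rfl h5]
      have h6 := hF0 ((0 : ℕ) : ℤ)
      simp only [Nat.cast_zero] at h6 ⊢
      linarith
    have h7 : f 0 ≤ Real.log (4 * W * N + 4 * W + 4) ^ 2 := by
      have hWR : (0 : ℝ) ≤ W := Nat.cast_nonneg W
      have hBig : (1 : ℝ) ≤ 4 * W * N + 4 * W + 4 := by nlinarith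
      have hWNR : (W : ℝ) ≤ W * N := by nlinarith
      have hXR : (X : ℝ) ≤ 2 * W * N := by exact_mod_cast hX2
      have hyR : (y0 : ℝ) ≤ W := by exact_mod_cast hy0.le
      have hX0 : (0 : ℝ) ≤ X := Nat.cast_nonneg X
      have hy00 : (0 : ℝ) ≤ y0 := Nat.cast_nonneg y0
      have a1 : lamv W (((X : ℤ) + y0) + W * 0) ≤ Real.log (4 * W * N + 4 * W + 4) := by
        apply lamv_le_log hBig
        push_cast
        rw [abs_le]
        constructor <;> nlinarith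
      have a2 : lamv W (((X : ℤ) - y0) - W * 0) ≤ Real.log (4 * W * N + 4 * W + 4) := by
        apply lamv_le_log hBig
        push_cast
        rw [abs_le]
        constructor <;> nlinarith
      have a3 : f 0 ≤ lamv W (((X : ℤ) + y0) + W * 0) * lamv W (((X : ℤ) - y0) - W * 0) := by
        simp only [hf]
        exact div_le_self (mul_nonneg (lamv_nonneg' _ _) (lamv_nonneg' _ _)) (one_le_SW _ _)
      calc f 0 ≤ _ := a3
        _ ≤ Real.log (4 * W * N + 4 * W + 4) * Real.log (4 * W * N + 4 * W + 4) :=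
          mul_le_mul a1 a2 (lamv_nonneg' _ _) (Real.log_nonneg hBig)
        _ = _ := by ring
    have h8 := hN2 N hNN2
    rw [h3] at hD
    linarith
  have hS0 : 0 ≤ ∑ v ∈ Z, sg W v0 v := Finset.sum_nonneg fun v _ => sg_nonneg _ _ _
  have h9 : ε / 2 * N * (∑ v ∈ Z, sg W v0 v) ≤ 2 * (ε ^ 2 / 4 * N ^ 2) :=
    le_trans (mul_le_mul_of_nonneg_right hsum hS0) hbound
  have h10 : (0 : ℝ) < ε / 2 * N := by positivity
  have h11 : ε / 2 * N * (∑ v ∈ Z, sg W v0 v) ≤ ε / 2 * N * (ε * N) :=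
    h9.trans (le_of_eq (by ring))
  exact le_of_mul_le_mul_left h11 h10

end Pool.Agent.Lib.H18GB
end

-- from Lib.H18GB.TY1
section

/-!
# Project GB: TY1 (typical vertices reach a positive mass of link ends in two steps)
-/

namespace Pool.Agent.Lib.H18GB

open Finset Pool.Agent.Lib.Sieve Pool.Agent.Lib.GoldbachGraph

namespace TY1A






















theorem er_two {C A w : ℕ} (hw : 1 ≤ w) : er C A w ≤ 2 := by
  unfold er
  have hw' : (1 : ℝ) ≤ w := by exact_mod_cast hw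
  have h1 : (2 : ℝ) ^ (-(A : ℝ) / C) ≤ 1 :=
    Real.rpow_le_one_of_one_le_of_nonpos (by norm_num) (by
      rw [neg_div]; exact neg_nonpos.2 (by positivity))
  have h2 : (w : ℝ) ^ (-(1 : ℝ) / C) ≤ 1 :=
    Real.rpow_le_one_of_one_le_of_nonpos hw' (by
      rw [neg_div]; exact neg_nonpos.2 (by positivity))
  linarith

/-! ### Upper bounds: discriminants -/

/-- the sum of the errors of all discriminants -/
noncomputable def QQ (t : ℝ) (S : Finset ℕ) (e Y Y' : ℤ) : ℝ :=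
  Ers t S (2 * Y) + Ers t S (2 * Y') + Ers t S (Y - Y') + Ers t S (Y + Y') +
    Ers t S (2 * Y + e) + Ers t S (2 * Y - e) + Ers t S (2 * Y' + e) + Ers t S (2 * Y' - e)

theorem QQ_nonneg (t : ℝ) (S : Finset ℕ) (e Y Y' : ℤ) : 0 ≤ QQ t S e Y Y' := by
  unfold QQ
  have h1 := Ers_nonneg t S (2 * Y)
  have h2 := Ers_nonneg t S (2 * Y')
  have h3 := Ers_nonneg t S (Y - Y')
  have h4 := Ers_nonneg t S (Y + Y')
  have h5 := Ers_nonneg t S (2 * Y + e)
  have h6 := Ers_nonneg t S (2 * Y - e)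
  have h7 := Ers_nonneg t S (2 * Y' + e)
  have h8 := Ers_nonneg t S (2 * Y' - e)
  linarith

/-- a discriminant which is `± W m` -/
theorem ers_W {w W z : ℕ} {S : Finset ℕ} (hW : IsW w W) (hS : PSet w z S) (t : ℝ) {D m : ℤ}
    (h : D = W * m ∨ D = -(W * m)) : Ers t S D = Ers t S m := by
  rcases h with rfl | rfl
  · exact ers_mul hS.prime t _ _ (hW.not_dvd hS)
  · rw [ers_neg]
    exact ers_mul hS.prime t _ _ (hW.not_dvd hS)

section disc

variable {w W z : ℕ} {S : Finset ℕ}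

theorem d1 (hW : IsW w W) (hS : PSet w z S) (t : ℝ) {e Y Y' D : ℤ}
    (h : D = W * (2 * Y) ∨ D = -(W * (2 * Y))) : Ers t S D ≤ QQ t S e Y Y' := by
  rw [ers_W hW hS t h]
  unfold QQ
  have h1 := Ers_nonneg t S (2 * Y)
  have h2 := Ers_nonneg t S (2 * Y')
  have h3 := Ers_nonneg t S (Y - Y')
  have h4 := Ers_nonneg t S (Y + Y')
  have h5 := Ers_nonneg t S (2 * Y + e)
  have h6 := Ers_nonneg t S (2 * Y - e)
  have h7 := Ers_nonneg t S (2 * Y' + e)
  have h8 := Ers_nonneg t S (2 * Y' - e)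
  linarith

theorem d2 (hW : IsW w W) (hS : PSet w z S) (t : ℝ) {e Y Y' D : ℤ}
    (h : D = W * (2 * Y') ∨ D = -(W * (2 * Y'))) : Ers t S D ≤ QQ t S e Y Y' := by
  rw [ers_W hW hS t h]
  unfold QQ
  have h1 := Ers_nonneg t S (2 * Y)
  have h2 := Ers_nonneg t S (2 * Y')
  have h3 := Ers_nonneg t S (Y - Y')
  have h4 := Ers_nonneg t S (Y + Y')
  have h5 := Ers_nonneg t S (2 * Y + e)
  have h6 := Ers_nonneg t S (2 * Y - e)
  have h7 := Ers_nonneg t S (2 * Y' + e)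
  have h8 := Ers_nonneg t S (2 * Y' - e)
  linarith

theorem d3 (hW : IsW w W) (hS : PSet w z S) (t : ℝ) {e Y Y' D : ℤ}
    (h : D = W * (Y - Y') ∨ D = -(W * (Y - Y'))) : Ers t S D ≤ QQ t S e Y Y' := by
  rw [ers_W hW hS t h]
  unfold QQ
  have h1 := Ers_nonneg t S (2 * Y)
  have h2 := Ers_nonneg t S (2 * Y')
  have h3 := Ers_nonneg t S (Y - Y')
  have h4 := Ers_nonneg t S (Y + Y')
  have h5 := Ers_nonneg t S (2 * Y + e)
  have h6 := Ers_nonneg t S (2 * Y - e)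
  have h7 := Ers_nonneg t S (2 * Y' + e)
  have h8 := Ers_nonneg t S (2 * Y' - e)
  linarith

theorem d4 (hW : IsW w W) (hS : PSet w z S) (t : ℝ) {e Y Y' D : ℤ}
    (h : D = W * (Y + Y') ∨ D = -(W * (Y + Y'))) : Ers t S D ≤ QQ t S e Y Y' := by
  rw [ers_W hW hS t h]
  unfold QQ
  have h1 := Ers_nonneg t S (2 * Y)
  have h2 := Ers_nonneg t S (2 * Y')
  have h3 := Ers_nonneg t S (Y - Y')
  have h4 := Ers_nonneg t S (Y + Y')
  have h5 := Ers_nonneg t S (2 * Y + e)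
  have h6 := Ers_nonneg t S (2 * Y - e)
  have h7 := Ers_nonneg t S (2 * Y' + e)
  have h8 := Ers_nonneg t S (2 * Y' - e)
  linarith

theorem d5 (hW : IsW w W) (hS : PSet w z S) (t : ℝ) {e Y Y' D : ℤ}
    (h : D = W * (2 * Y + e) ∨ D = -(W * (2 * Y + e))) : Ers t S D ≤ QQ t S e Y Y' := by
  rw [ers_W hW hS t h]
  unfold QQ
  have h1 := Ers_nonneg t S (2 * Y)
  have h2 := Ers_nonneg t S (2 * Y')
  have h3 := Ers_nonneg t S (Y - Y')
  have h4 := Ers_nonneg t S (Y + Y')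
  have h5 := Ers_nonneg t S (2 * Y + e)
  have h6 := Ers_nonneg t S (2 * Y - e)
  have h7 := Ers_nonneg t S (2 * Y' + e)
  have h8 := Ers_nonneg t S (2 * Y' - e)
  linarith

theorem d6 (hW : IsW w W) (hS : PSet w z S) (t : ℝ) {e Y Y' D : ℤ}
    (h : D = W * (2 * Y - e) ∨ D = -(W * (2 * Y - e))) : Ers t S D ≤ QQ t S e Y Y' := by
  rw [ers_W hW hS t h]
  unfold QQ
  have h1 := Ers_nonneg t S (2 * Y)
  have h2 := Ers_nonneg t S (2 * Y')
  have h3 := Ers_nonneg t S (Y - Y')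
  have h4 := Ers_nonneg t S (Y + Y')
  have h5 := Ers_nonneg t S (2 * Y + e)
  have h6 := Ers_nonneg t S (2 * Y - e)
  have h7 := Ers_nonneg t S (2 * Y' + e)
  have h8 := Ers_nonneg t S (2 * Y' - e)
  linarith

theorem d7 (hW : IsW w W) (hS : PSet w z S) (t : ℝ) {e Y Y' D : ℤ}
    (h : D = W * (2 * Y' + e) ∨ D = -(W * (2 * Y' + e))) : Ers t S D ≤ QQ t S e Y Y' := by
  rw [ers_W hW hS t h]
  unfold QQ
  have h1 := Ers_nonneg t S (2 * Y)
  have h2 := Ers_nonneg t S (2 * Y')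
  have h3 := Ers_nonneg t S (Y - Y')
  have h4 := Ers_nonneg t S (Y + Y')
  have h5 := Ers_nonneg t S (2 * Y + e)
  have h6 := Ers_nonneg t S (2 * Y - e)
  have h7 := Ers_nonneg t S (2 * Y' + e)
  have h8 := Ers_nonneg t S (2 * Y' - e)
  linarith

theorem d8 (hW : IsW w W) (hS : PSet w z S) (t : ℝ) {e Y Y' D : ℤ}
    (h : D = W * (2 * Y' - e) ∨ D = -(W * (2 * Y' - e))) : Ers t S D ≤ QQ t S e Y Y' := by
  rw [ers_W hW hS t h]
  unfold QQ
  have h1 := Ers_nonneg t S (2 * Y)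
  have h2 := Ers_nonneg t S (2 * Y')
  have h3 := Ers_nonneg t S (Y - Y')
  have h4 := Ers_nonneg t S (Y + Y')
  have h5 := Ers_nonneg t S (2 * Y + e)
  have h6 := Ers_nonneg t S (2 * Y - e)
  have h7 := Ers_nonneg t S (2 * Y' + e)
  have h8 := Ers_nonneg t S (2 * Y' - e)
  linarith

end disc

theorem disc_swap {ι : Type*} (α β : ι → ℤ) (i j : ι) : disc α β j i = -disc α β i j := by
  unfold disc; ring

/-- the errors of a family are bounded by `n^2` times the largest -/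
theorem sum_disc_le {n : ℕ} {α β : Fin n → ℤ} {t : ℝ} {S : Finset ℕ} {Q : ℝ} (hQ : 0 ≤ Q)
    (h : ∀ i j : Fin n, i < j → Ers t S (disc α β i j) ≤ Q) :
    ∑ i, ∑ j ∈ Finset.univ.filter (fun j => i ≠ j), Ers t S (disc α β i j) ≤ n * (n * Q) := by
  have h1 : ∀ i j : Fin n, i ≠ j → Ers t S (disc α β i j) ≤ Q := by
    intro i j hij
    rcases lt_or_gt_of_ne hij with hlt | hgt
    · exact h i j hlt
    · rw [disc_swap α β j i, ers_neg]
      exact h j i hgt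
  calc ∑ i, ∑ j ∈ Finset.univ.filter (fun j => i ≠ j), Ers t S (disc α β i j)
      ≤ ∑ _i : Fin n, (n * Q) := by
        apply Finset.sum_le_sum
        intro i _
        calc ∑ j ∈ Finset.univ.filter (fun j => i ≠ j), Ers t S (disc α β i j)
            ≤ ∑ j ∈ Finset.univ.filter (fun j => i ≠ j), Q :=
              Finset.sum_le_sum fun j hj => h1 i j (Finset.mem_filter.mp hj).2
          _ ≤ ∑ _j : Fin n, Q :=
              Finset.sum_le_sum_of_subset_of_nonneg (Finset.filter_subset _ _) fun _ _ _ => hQ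
          _ = n * Q := by simp
    _ = n * (n * Q) := by simp

theorem four : ∃ C : ℕ, 1 ≤ C ∧ ∀ (A w z W N : ℕ) (S : Finset ℕ), C ≤ A → C ≤ w → 2 ≤ z →
    PSet w z S → IsW w W → z ^ (A + 4) ≤ N → ∀ a e Y Y' : ℤ,
    ∑ x ∈ Finset.range N, rho S (a + W * x + Y) * rho S (a + W * x - Y) *
      (rho S (a + W * x + Y') * rho S (a + W * x - Y')) ≤ C * N * (1 + QQ (9 / 10) S e Y Y') := by
  obtain ⟨C, hC1, hC⟩ := corr0 4
  refine ⟨16 * C + 1, by omega, ?_⟩
  intro A w z W N S hA hw hz hS hW hN a e Y Y'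
  have hmain := hC A w z S (by omega) (by omega) hz hS (fun _ => (W : ℤ))
    ![a + Y, a - Y, a + Y', a - Y'] (fun p hp _ => hW.not_dvd hS p hp) 0 N (by positivity)
  set Q := QQ (9 / 10) S e Y Y' with hQ
  have hQ0 : 0 ≤ Q := QQ_nonneg _ _ _ _ _
  have hd := sum_disc_le (n := 4) (α := fun _ => (W : ℤ)) (β := ![a + Y, a - Y, a + Y', a - Y'])
    (t := 9 / 10) (S := S) hQ0 (by
      intro i j hij
      fin_cases i <;> fin_cases j <;> first
        | exact absurd hij (by decide)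
        | (refine d1 hW hS _ (Or.inl ?_); simp [disc]; ring1)
        | (refine d1 hW hS _ (Or.inr ?_); simp [disc]; ring1)
        | (refine d2 hW hS _ (Or.inl ?_); simp [disc]; ring1)
        | (refine d2 hW hS _ (Or.inr ?_); simp [disc]; ring1)
        | (refine d3 hW hS _ (Or.inl ?_); simp [disc]; ring1)
        | (refine d3 hW hS _ (Or.inr ?_); simp [disc]; ring1)
        | (refine d4 hW hS _ (Or.inl ?_); simp [disc]; ring1)
        | (refine d4 hW hS _ (Or.inr ?_); simp [disc]; ring1))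
  have hsum : ∑ x ∈ Finset.Ico (0 : ℤ) N, ∏ i : Fin 4, rho S ((W : ℤ) * x +
      ![a + Y, a - Y, a + Y', a - Y'] i) = ∑ x ∈ Finset.range N, rho S (a + W * x + Y) *
      rho S (a + W * x - Y) * (rho S (a + W * x + Y') * rho S (a + W * x - Y')) := by
    rw [sum_Ico_int]
    apply Finset.sum_congr rfl
    intro x _
    rw [Fin.prod_univ_four]
    have e1 : (W : ℤ) * x + ![a + Y, a - Y, a + Y', a - Y'] 0 = a + W * x + Y := by simp; ring
    have e2 : (W : ℤ) * x + ![a + Y, a - Y, a + Y', a - Y'] 1 = a + W * x - Y := by simp; ring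
    have e3 : (W : ℤ) * x + ![a + Y, a - Y, a + Y', a - Y'] 2 = a + W * x + Y' := by simp; ring
    have e4 : (W : ℤ) * x + ![a + Y, a - Y, a + Y', a - Y'] 3 = a + W * x - Y' := by simp; ring
    rw [e1, e2, e3, e4]
    ring
  rw [hsum] at hmain
  have h1 := (abs_le.mp hmain).2
  have her : er C A w ≤ 2 := er_two (by omega)
  have hz' : (z : ℝ) ^ (A + 4) ≤ N := by exact_mod_cast hN
  have hCr : (1 : ℝ) ≤ C := by exact_mod_cast hC1
  have hNr : (0 : ℝ) ≤ N := Nat.cast_nonneg N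
  have hNC : (0 : ℝ) ≤ N * C := by positivity
  push_cast at h1 hd ⊢
  simp only [sub_zero] at h1
  have t1 : (N : ℝ) * (C * er C A w) ≤ N * (C * 2) := by gcongr
  have t2 : (N : ℝ) * (C * ∑ i, ∑ j ∈ Finset.univ.filter (fun j => i ≠ j), Ers (9 / 10) S
      (disc (fun _ => (W : ℤ)) ![a + Y, a - Y, a + Y', a - Y'] i j)) ≤ N * (C * (4 * (4 * Q))) := by
    gcongr
  have t3 : (C : ℝ) * (z : ℝ) ^ (A + 4) ≤ C * N := by gcongr
  have t4 : (0 : ℝ) ≤ N * Q := by positivity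
  nlinarith


theorem five : ∃ C : ℕ, 1 ≤ C ∧ ∀ (A w z W N : ℕ) (S : Finset ℕ), C ≤ A → C ≤ w → 2 ≤ z →
    PSet w z S → IsW w W → z ^ (A + 5) ≤ N → ∀ a b e Y Y' : ℤ, b = 2 * a + e →
    ∑ x ∈ Finset.range N, rho S (b + 2 * W * x) *
      ((rho S (a + W * x + Y) * rho S (a + W * x - Y)) *
      (rho S (a + W * x + Y') * rho S (a + W * x - Y'))) ≤ C * N * (1 + QQ (9 / 10) S e Y Y') := by
  obtain ⟨C, hC1, hC⟩ := corr0 5
  refine ⟨25 * C + 1, by omega, ?_⟩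
  intro A w z W N S hA hw hz hS hW hN a b e Y Y' hb
  have h2W : ∀ p ∈ S, ¬ (p : ℤ) ∣ 2 * (W : ℤ) := by
    intro p hp h
    have hpp : Prime (p : ℤ) := Nat.prime_iff_prime_int.mp (hS p hp).1
    rcases hpp.dvd_or_dvd h with h | h
    · have h3 : p ∣ 2 := by exact_mod_cast h
      have h4 := Nat.le_of_dvd (by norm_num) h3
      have h5 := (hS p hp).2.1
      omega
    · exact hW.not_dvd hS p hp h
  have hα : ∀ p ∈ S, ∀ i : Fin 5, ¬ (p : ℤ) ∣ ![2 * (W : ℤ), W, W, W, W] i := by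
    intro p hp i
    have h1 := h2W p hp
    have h2 := hW.not_dvd hS p hp
    fin_cases i
    · exact h1
    · exact h2
    · exact h2
    · exact h2
    · exact h2
  have hmain := hC A w z S (by omega) (by omega) hz hS ![2 * (W : ℤ), W, W, W, W]
    ![b, a + Y, a - Y, a + Y', a - Y'] hα 0 N (by positivity)
  set Q := QQ (9 / 10) S e Y Y' with hQ
  have hQ0 : 0 ≤ Q := QQ_nonneg _ _ _ _ _
  have hd := sum_disc_le (n := 5) (α := ![2 * (W : ℤ), W, W, W, W])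
    (β := ![b, a + Y, a - Y, a + Y', a - Y'])
    (t := 9 / 10) (S := S) hQ0 (by
      intro i j hij
      fin_cases i <;> fin_cases j <;> first
        | exact absurd hij (by decide)
        | (refine d1 hW hS _ (Or.inl ?_); simp [disc, hb]; ring1)
        | (refine d1 hW hS _ (Or.inr ?_); simp [disc, hb]; ring1)
        | (refine d2 hW hS _ (Or.inl ?_); simp [disc, hb]; ring1)
        | (refine d2 hW hS _ (Or.inr ?_); simp [disc, hb]; ring1)
        | (refine d3 hW hS _ (Or.inl ?_); simp [disc, hb]; ring1)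
        | (refine d3 hW hS _ (Or.inr ?_); simp [disc, hb]; ring1)
        | (refine d4 hW hS _ (Or.inl ?_); simp [disc, hb]; ring1)
        | (refine d4 hW hS _ (Or.inr ?_); simp [disc, hb]; ring1)
        | (refine d5 hW hS _ (Or.inl ?_); simp [disc, hb]; ring1)
        | (refine d5 hW hS _ (Or.inr ?_); simp [disc, hb]; ring1)
        | (refine d6 hW hS _ (Or.inl ?_); simp [disc, hb]; ring1)
        | (refine d6 hW hS _ (Or.inr ?_); simp [disc, hb]; ring1)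
        | (refine d7 hW hS _ (Or.inl ?_); simp [disc, hb]; ring1)
        | (refine d7 hW hS _ (Or.inr ?_); simp [disc, hb]; ring1)
        | (refine d8 hW hS _ (Or.inl ?_); simp [disc, hb]; ring1)
        | (refine d8 hW hS _ (Or.inr ?_); simp [disc, hb]; ring1))
  have hsum : ∑ x ∈ Finset.Ico (0 : ℤ) N, ∏ i : Fin 5, rho S (![2 * (W : ℤ), W, W, W, W] i * x +
      ![b, a + Y, a - Y, a + Y', a - Y'] i) = ∑ x ∈ Finset.range N, rho S (b + 2 * W * x) *
      ((rho S (a + W * x + Y) * rho S (a + W * x - Y)) *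
      (rho S (a + W * x + Y') * rho S (a + W * x - Y'))) := by
    rw [sum_Ico_int]
    apply Finset.sum_congr rfl
    intro x _
    rw [Fin.prod_univ_five]
    have e0 : ![2 * (W : ℤ), W, W, W, W] 0 * x + ![b, a + Y, a - Y, a + Y', a - Y'] 0 =
        b + 2 * W * x := by simp; ring
    have e1 : ![2 * (W : ℤ), W, W, W, W] 1 * x + ![b, a + Y, a - Y, a + Y', a - Y'] 1 =
        a + W * x + Y := by simp; ring
    have e2 : ![2 * (W : ℤ), W, W, W, W] 2 * x + ![b, a + Y, a - Y, a + Y', a - Y'] 2 =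
        a + W * x - Y := by simp; ring
    have e3 : ![2 * (W : ℤ), W, W, W, W] 3 * x + ![b, a + Y, a - Y, a + Y', a - Y'] 3 =
        a + W * x + Y' := by simp; ring
    have e4 : ![2 * (W : ℤ), W, W, W, W] 4 * x + ![b, a + Y, a - Y, a + Y', a - Y'] 4 =
        a + W * x - Y' := by simp; ring
    rw [e0, e1, e2, e3, e4]
    ring
  rw [hsum] at hmain
  have h1 := (abs_le.mp hmain).2
  have her : er C A w ≤ 2 := er_two (by omega)
  have hz' : (z : ℝ) ^ (A + 5) ≤ N := by exact_mod_cast hN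
  have hCr : (1 : ℝ) ≤ C := by exact_mod_cast hC1
  have hNr : (0 : ℝ) ≤ N := Nat.cast_nonneg N
  have hNC : (0 : ℝ) ≤ N * C := by positivity
  push_cast at h1 hd ⊢
  simp only [sub_zero] at h1
  have t1 : (N : ℝ) * (C * er C A w) ≤ N * (C * 2) := by gcongr
  have t2 : (N : ℝ) * (C * ∑ i, ∑ j ∈ Finset.univ.filter (fun j => i ≠ j), Ers (9 / 10) S
      (disc ![2 * (W : ℤ), W, W, W, W] ![b, a + Y, a - Y, a + Y', a - Y'] i j)) ≤
      N * (C * (5 * (5 * Q))) := by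
    gcongr
  have t3 : (C : ℝ) * (z : ℝ) ^ (A + 5) ≤ C * N := by gcongr
  have t4 : (0 : ℝ) ≤ N * Q := by positivity
  nlinarith









end TY1A


end Pool.Agent.Lib.H18GB
end

-- from Lib.H18GB.TY3b
section

/-!
# Project GB: TY3b (pairs of vertices in different classes)
-/

namespace Pool.Agent.Lib.H18GB

open Finset Pool.Agent.Lib.Sieve Pool.Agent.Lib.GoldbachGraph


theorem ty3_link {v : ℕ} (hp : (2 * v + 3).Prime) : hadj v (v + 3) := by
  have h1 : v + (v + 3) = 2 * v + 3 := by ring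
  have h2 : Nat.dist v (v + 3) = 3 := by simp [Nat.dist]
  refine ⟨by rw [h1]; exact hp, by rw [h1]; exact ⟨v + 1, by ring⟩, by rw [h2]; norm_num, ?_⟩
  rw [h2]
  exact ⟨1, by norm_num⟩







end Pool.Agent.Lib.H18GB
end

-- from Lib.H18GB2.Alpha
section

/-!
# Project GB2: ALPHA (all vertices of large degree are at distance at most `7`)
-/

namespace Pool.Agent.Lib.H18GB

open Finset Pool.Agent.Lib.Sieve Pool.Agent.Lib.GoldbachGraph

open Classical in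
/-- mass of the link ends `v0 + d + W v` at distance more than `k` from `X` -/
noncomputable def alphaM (n W N X v0 d k : ℕ) : ℝ :=
  ∑ v ∈ (Finset.Ico 1 N).filter (fun v => ¬ (HG n).edist X (v0 + d + W * v) ≤ (k : ℕ∞)), sg W v0 v

/-- the input of the assembly of ALPHA -/
structure AlphaCtx (n w W N : ℕ) (ε1 : ℝ) : Prop where
  g6 : Gr6Ctx n w W N ε1
  hw7 : 7 ≤ w
  tot : ∀ v0 : ℕ, v0 + 3 < W → IsCoprime (2 * (v0 : ℤ) + 3) W →
    (N : ℝ) / 2 ≤ ∑ v ∈ Finset.Ico 1 N, sg W v0 v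
  t2 : ∀ z0 v0 d : ℕ, z0 < W → v0 + 3 < W → (d = 0 ∨ d = 3) →
    IsCoprime (2 * (v0 : ℤ) + 3) W → Comp W z0 (v0 + d) → ∀ B : Finset ℕ, B ⊆ Finset.Ico 1 N →
    1 / 4 * (N : ℝ) ≤ (B.card : ℝ) → ∀ S : Finset ℕ, (∀ v ∈ S, v ∈ Finset.Ico 1 N ∧
      ¬ ∃ z ∈ B, hadj (v0 + d + W * v) (z0 + W * z)) → ∑ v ∈ S, sg W v0 v ≤ 1 / 8 * N
  ga : ∀ X y0 v0 d : ℕ, 1 ≤ X → X ≤ 2 * W * N → y0 < W → v0 + 3 < W → (d = 0 ∨ d = 3) →
    IsCoprime (2 * (v0 : ℤ) + 3) W → Comp W X y0 → Comp W (v0 + d) y0 → ε1 * N ≤ Dw w W N X y0 →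
    ∀ S : Finset ℕ, (∀ v ∈ S, v ∈ Finset.Ico 1 N ∧
      ¬ ∃ y ∈ Finset.Ico 1 N, hadj X (y0 + W * y) ∧ hadj (y0 + W * y) (v0 + d + W * v)) →
      ∑ v ∈ S, sg W v0 v ≤ 1 / 8 * N

theorem AlphaCtx.memV {n w W N : ℕ} {ε1 : ℝ} (h : AlphaCtx n w W N ε1) {v0 d v : ℕ}
    (hv0 : v0 + 3 < W) (hd : d = 0 ∨ d = 3) (hv : v ∈ Finset.Ico 1 N) :
    v0 + d + W * v ∈ Finset.Icc 1 n :=
  h.g6.mem (by rcases hd with rfl | rfl <;> omega) hv

theorem AlphaCtx.two {n w W N : ℕ} {ε1 : ℝ} (h : AlphaCtx n w W N ε1) {X y0 v0 d : ℕ}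
    (hX : X ∈ Finset.Icc 1 n) (hg : gr6Good w W N ε1 X y0) (hv0 : v0 + 3 < W)
    (hd : d = 0 ∨ d = 3) (hvc : IsCoprime (2 * (v0 : ℤ) + 3) W) (hc : Comp W (v0 + d) y0) :
    alphaM n W N X v0 d 2 ≤ 1 / 8 * N := by
  classical
  have hX' := Finset.mem_Icc.mp hX
  unfold alphaM
  refine h.ga X y0 v0 d hX'.1 (hX'.2.trans h.g6.hn) hg.1 hv0 hd hvc hg.2.1 hc hg.2.2 _ ?_
  intro v hv
  rw [Finset.mem_filter] at hv
  refine ⟨hv.1, ?_⟩
  rintro ⟨y, hy, ha, hb⟩
  apply hv.2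
  have s0 : (HG n).edist X X ≤ ((0 : ℕ) : ℕ∞) := by simp
  have s1 := gr6_step (HG n) s0 (c := y0 + W * y) ⟨ha, hX, h.g6.mem hg.1 hy⟩
  exact gr6_step (HG n) s1 (c := v0 + d + W * v) ⟨hb, h.g6.mem hg.1 hy, h.memV hv0 hd hv.1⟩

theorem AlphaCtx.ofSet {n w W N : ℕ} {ε1 : ℝ} (h : AlphaCtx n w W N ε1) {X z0 v0 d k : ℕ}
    (hz0 : z0 < W) (hv0 : v0 + 3 < W)
    (hd : d = 0 ∨ d = 3) (hvc : IsCoprime (2 * (v0 : ℤ) + 3) W) (hc : Comp W z0 (v0 + d))
    (hS : 1 / 4 * (N : ℝ) ≤ (gr6S n W N X z0 k).card) :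
    alphaM n W N X v0 d (k + 1) ≤ 1 / 8 * N := by
  classical
  unfold alphaM
  refine h.t2 z0 v0 d hz0 hv0 hd hvc hc (gr6S n W N X z0 k) (gr6S_sub _ _ _ _ _ _) hS _ ?_
  intro v hv
  rw [Finset.mem_filter] at hv
  refine ⟨hv.1, ?_⟩
  rintro ⟨z, hz, ha⟩
  apply hv.2
  have hzI := gr6S_sub _ _ _ _ _ _ hz
  unfold gr6S at hz
  rw [Finset.mem_filter] at hz
  exact gr6_step (HG n) hz.2 (c := v0 + d + W * v)
    ⟨(hadj_comm _ _).mp ha, h.g6.mem hz0 hzI, h.memV hv0 hd hv.1⟩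

theorem AlphaCtx.meet {n w W N : ℕ} {ε1 : ℝ} (h : AlphaCtx n w W N ε1) {X X' v0 k l : ℕ}
    (hv0 : v0 + 3 < W) (hvc : IsCoprime (2 * (v0 : ℤ) + 3) W)
    (hS : alphaM n W N X v0 0 k ≤ 1 / 8 * N) (hS' : alphaM n W N X' v0 3 l ≤ 1 / 8 * N) :
    (HG n).edist X X' ≤ ((k + 1 + l : ℕ) : ℕ∞) := by
  classical
  have hN : (40 : ℝ) ≤ N := by exact_mod_cast h.g6.hN
  obtain ⟨v, hv, hsg, h1, h2⟩ : ∃ v ∈ Finset.Ico 1 N, sg W v0 v ≠ 0 ∧
      (HG n).edist X (v0 + 0 + W * v) ≤ (k : ℕ∞) ∧ (HG n).edist X' (v0 + 3 + W * v) ≤ (l : ℕ∞) := by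
    by_contra hcon
    push Not at hcon
    have h3 : ∑ v ∈ Finset.Ico 1 N, sg W v0 v ≤ alphaM n W N X v0 0 k + alphaM n W N X' v0 3 l := by
      unfold alphaM
      rw [Finset.sum_filter, Finset.sum_filter, ← Finset.sum_add_distrib]
      refine Finset.sum_le_sum fun v hv => ?_
      have h0 := sg_nonneg W v0 v
      by_cases e0 : sg W v0 v = 0
      · rw [e0]; simp
      by_cases e1 : (HG n).edist X (v0 + 0 + W * v) ≤ (k : ℕ∞)
      · have e2 := hcon v hv e0 e1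
        rw [if_neg (not_not.mpr e1), if_pos (not_le.mpr e2), zero_add]
      · rw [if_pos e1]
        have : 0 ≤ (if ¬ (HG n).edist X' (v0 + 3 + W * v) ≤ (l : ℕ∞) then sg W v0 v else 0) := by
          split_ifs <;> first | exact h0 | exact le_rfl
        linarith
    have h4 := h.tot v0 hv0 hvc
    linarith
  have hp := sg_ne hsg
  have m1 := h.memV hv0 (Or.inl rfl) hv
  have m2 := h.memV hv0 (Or.inr rfl) hv
  have e5 : v0 + 3 + W * v = v0 + W * v + 3 := by ring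
  rw [add_zero] at h1 m1
  have t2 := gr6_step (HG n) h1 (c := v0 + 3 + W * v)
    ⟨by rw [e5]; exact ty3_link hp, m1, m2⟩
  exact gr6_join (HG n) t2 h2

/-- three steps from a multiple of `3` to almost all link ends -/
theorem AlphaCtx.three {n w W N : ℕ} {ε1 : ℝ} (h : AlphaCtx n w W N ε1) {X y0 v0 d : ℕ}
    (hX : X ∈ Finset.Icc 1 n) (hg : gr6Good w W N ε1 X y0) (hv0 : v0 + 3 < W)
    (hd : d = 0 ∨ d = 3) (hvc : IsCoprime (2 * (v0 : ℤ) + 3) W) (h3 : (3 : ℤ) ∣ X)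
    (hv3 : ¬ (3 : ℤ) ∣ ((v0 : ℤ) + d)) (hp : ((v0 : ℤ) + d) % 2 ≠ (X : ℤ) % 2) :
    alphaM n W N X v0 d 3 ≤ 1 / 8 * N := by
  have hw3 : 3 ≤ w := by have := h.hw7; omega
  have hN : (40 : ℝ) ≤ N := by exact_mod_cast h.g6.hN
  have c1 := comp_parity hw3 h.g6.hW hg.2.1
  obtain ⟨z0, hz0, e1, e2⟩ := comp_common hw3 h.g6.hW (y0 : ℤ) ((v0 : ℤ) + d) (by omega)
    (by tauto)
  have s1 := h.g6.two hX hg hz0 (comp_comm e1)
  exact h.ofSet hz0 hv0 hd hvc (comp_comm e2) (by linarith)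

/-- four steps from a vertex prime to `3` to almost all link ends -/
theorem AlphaCtx.four {n w W N : ℕ} {ε1 : ℝ} (h : AlphaCtx n w W N ε1) {X y0 v0 d : ℕ}
    (hX : X ∈ Finset.Icc 1 n) (hg : gr6Good w W N ε1 X y0) (hv0 : v0 + 3 < W)
    (hd : d = 0 ∨ d = 3) (hvc : IsCoprime (2 * (v0 : ℤ) + 3) W) (h3 : ¬ (3 : ℤ) ∣ X)
    (hv3 : ¬ (3 : ℤ) ∣ ((v0 : ℤ) + d)) (hp : ((v0 : ℤ) + d) % 2 = (X : ℤ) % 2) :
    alphaM n W N X v0 d 4 ≤ 1 / 8 * N := by
  have hN : (40 : ℝ) ≤ N := by exact_mod_cast h.g6.hN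
  obtain ⟨z0, hz0, e1, s1⟩ := h.g6.reach hX hg ((v0 : ℤ) + d) hv3 (by tauto)
  exact h.ofSet hz0 hv0 hd hvc (comp_comm e1) (by linarith)

/-- the context exists -/
theorem alpha_ctx (ε : ℝ) (hε : 0 < ε) : ∃ ε1 : ℝ, 0 < ε1 ∧ ∃ w : ℕ,
    ∃ n0 : ℕ, ∀ n : ℕ, n0 ≤ n →
    AlphaCtx n w (primorial w) (n / primorial w) ε1 ∧
    ∀ X ∈ Finset.Icc 1 n, ε * SH X * n / Real.log n ^ 2 ≤ hdeg n X →
      ∃ y0 : ℕ, gr6Good w (primorial w) (n / primorial w) ε1 X y0 := by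
  classical
  obtain ⟨ε1, hε1, hε1a, hε1b⟩ : ∃ ε1 : ℝ, 0 < ε1 ∧ ε1 ≤ ε / 20 ∧ ε1 ≤ 1 / 10 :=
    ⟨min (ε / 20) (1 / 10), lt_min (by positivity) (by norm_num), min_le_left _ _, min_le_right _ _⟩
  obtain ⟨w1, h3⟩ := gr3 ε1 hε1
  obtain ⟨w2, h4⟩ := gr4 (1 / 10) (by norm_num)
  obtain ⟨w3, h5⟩ := gr5
  obtain ⟨w4, h6⟩ := ga1 ε1 hε1
  obtain ⟨w5, h7⟩ := ty2' (1 / 4) (1 / 8) (by norm_num) (by norm_num)
  obtain ⟨w6, h8⟩ := sg_total
  obtain ⟨w, hwd⟩ : ∃ w : ℕ, w = w1 + w2 + w3 + w4 + w5 + w6 + 7 := ⟨_, rfl⟩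
  refine ⟨ε1, hε1, w, ?_⟩
  have hW : IsW w (primorial w) := isW_primorial
  have hW0 := hW.1
  obtain ⟨N3, h3⟩ := h3 w (primorial w) (by omega) hW
  obtain ⟨N4, h4⟩ := h4 w (primorial w) (by omega) hW
  obtain ⟨N5, h5⟩ := h5 w (primorial w) (by omega) hW
  obtain ⟨N6, h6⟩ := h6 w (primorial w) (by omega) hW
  obtain ⟨N7, h7⟩ := h7 w (primorial w) (by omega) hW
  obtain ⟨N8, h8⟩ := h8 w (primorial w) (by omega) hW
  obtain ⟨n2, h2⟩ := gr2 ε hε w (by omega)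
  refine ⟨max n2 (primorial w * (N3 + N4 + N5 + N6 + N7 + N8 + 40)), fun n hn => ?_⟩
  have hn2 : n2 ≤ n := (le_max_left _ _).trans hn
  have hnN : N3 + N4 + N5 + N6 + N7 + N8 + 40 ≤ n / primorial w := by
    rw [Nat.le_div_iff_mul_le hW0, mul_comm]
    exact (le_max_right _ _).trans hn
  have hWn : primorial w * (n / primorial w) ≤ n := Nat.mul_div_le _ _
  refine ⟨⟨⟨by omega, hW, hWn, ?_, by omega, hε1b, h3 _ (by omega), h4 _ (by omega),
    h5 _ (by omega)⟩, by omega, h8 _ (by omega), ?_, ?_⟩, ?_⟩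
  · have h6 : n < primorial w * (n / primorial w) + primorial w := by
      have := Nat.lt_mul_div_succ n hW0
      linarith
    have h7 : primorial w * 1 ≤ primorial w * (n / primorial w) :=
      Nat.mul_le_mul_left _ (by omega)
    have h8 : 2 * primorial w * (n / primorial w) =
      primorial w * (n / primorial w) + primorial w * (n / primorial w) := by ring
    omega
  · intro z0 v0 d hz0 hv0 hd hvc hc B hB hBc S hS
    refine le_trans (Finset.sum_le_sum_of_subset_of_nonneg ?_ fun _ _ _ => sg_nonneg _ _ _)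
      (h7 _ (by omega) z0 v0 d hz0 hv0 hd hvc hc B hB hBc)
    intro v hv
    rw [Finset.mem_filter]
    exact hS v hv
  · intro X y0 v0 d hX1 hX2 hy0 hv0 hd hvc hc1 hc2 hD S hS
    refine le_trans (Finset.sum_le_sum_of_subset_of_nonneg ?_ fun _ _ _ => sg_nonneg _ _ _)
      ((h6 _ (by omega) X y0 v0 d hX1 hX2 hy0 hv0 hd hvc hc1 hc2 hD).trans ?_)
    · intro v hv
      rw [Finset.mem_filter]
      exact hS v hv
    · exact mul_le_mul_of_nonneg_right (by linarith) (Nat.cast_nonneg _)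
  · intro X hX hd
    obtain ⟨y0, a1, a2, a3⟩ := h2 n hn2 X hX hd
    refine ⟨y0, a1, a2, le_trans ?_ a3⟩
    exact mul_le_mul_of_nonneg_right hε1a (Nat.cast_nonneg _)

/-- both multiples of `3` -/
theorem AlphaCtx.case1 {n w W N : ℕ} {ε1 : ℝ} (h : AlphaCtx n w W N ε1) {X X' y0 y0' : ℕ}
    (hX : X ∈ Finset.Icc 1 n) (hX' : X' ∈ Finset.Icc 1 n) (hg : gr6Good w W N ε1 X y0)
    (hg' : gr6Good w W N ε1 X' y0') (h3 : (3 : ℤ) ∣ X) (h3' : (3 : ℤ) ∣ X')
    (h2 : (X : ℤ) % 2 ≠ (X' : ℤ) % 2) : (HG n).edist X X' ≤ ((7 : ℕ) : ℕ∞) := by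
  obtain ⟨v, hv, hv2, hv3, hvc⟩ := exists_link h.g6.hw h.g6.hW (1 - (X : ℤ) % 2) (by omega)
  have s1 := h.three (v0 := v) (d := 0) hX hg hv (Or.inl rfl) hvc h3 (by simpa using hv3)
    (by push_cast; omega)
  have s2 := h.three (v0 := v) (d := 3) hX' hg' hv (Or.inr rfl) hvc h3' (by push_cast; omega)
    (by push_cast; omega)
  exact h.meet hv hvc s1 s2

/-- the second vertex is prime to `3` -/
theorem AlphaCtx.case2 {n w W N : ℕ} {ε1 : ℝ} (h : AlphaCtx n w W N ε1) {X X' y0 y0' : ℕ}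
    (hX : X ∈ Finset.Icc 1 n) (hX' : X' ∈ Finset.Icc 1 n) (hg : gr6Good w W N ε1 X y0)
    (hg' : gr6Good w W N ε1 X' y0') (h3' : ¬ (3 : ℤ) ∣ X')
    (h23 : (X : ℤ) % 2 = (X' : ℤ) % 2 ↔ (3 : ℤ) ∣ X) :
    (HG n).edist X X' ≤ ((7 : ℕ) : ℕ∞) := by
  have hw3 : 3 ≤ w := by have := h.hw7; omega
  have c2 := comp_parity hw3 h.g6.hW hg'.2.1
  obtain ⟨v, hv, hv3, hvc, hcomp⟩ := exists_link_comp h.hw7 h.g6.hW (y0' : ℤ) 3 (Or.inr rfl)
    (by tauto)
  have c3 := comp_parity hw3 h.g6.hW hcomp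
  have s2 := h.two (v0 := v) (d := 3) hX' hg' hv (Or.inr rfl) hvc (comp_comm hcomp)
  by_cases h3 : (3 : ℤ) ∣ X
  · have s1 := h.three (v0 := v) (d := 0) hX hg hv (Or.inl rfl) hvc h3 (by simpa using hv3)
      (by
        have e1 := h23.mpr h3
        have e2 := c2.1
        have e3 := c3.1
        push_cast
        clear c2 c3 h23 h3 h3' hv3
        rcases Int.emod_two_eq_zero_or_one (X' : ℤ) with e | e <;> omega)
    refine (h.meet hv hvc s1 s2).trans ?_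
    norm_num
  · have s1 := h.four (v0 := v) (d := 0) hX hg hv (Or.inl rfl) hvc h3 (by simpa using hv3)
      (by
        have e1 : ¬ (X : ℤ) % 2 = (X' : ℤ) % 2 := fun e => h3 (h23.mp e)
        have e2 := c2.1
        have e3 := c3.1
        push_cast
        clear c2 c3 h23 h3 h3' hv3
        rcases Int.emod_two_eq_zero_or_one (X' : ℤ) with e | e <;> omega)
    exact h.meet hv hvc s1 s2

/-- Chunk ALPHA. Improve `gr6` (same structure). Same class: `gr6_five`. Types: A = even and `3 ∣ X`,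
B = odd, `3 ∤ X`, C = odd, `3 ∣ X`, D = even, `3 ∤ X`; edges A-B, C-D, links B-D.
* `3 ∣ X, 3 ∣ X'`, opposite parity (A, C): the argument of `gr6` gives `3 + 1 + 3 = 7`.
* `3 ∣ X, 3 ∤ X'`, same parity: `v0` from `exists_link_comp` for `y0' = y0(X')` and `d = 3`
  (`Comp W y0' (v0 + 3)`; `3 ∣ y0'`); `z0` compatible with `y0(X)` and `v0`; the `V` adjacent to the
  class `z0` at distance `2` from `X` have almost full mass (`gr3`, `ty2'`), the `V` with `V + 3` at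
  distance `2` from `X'` also (`ga1`, `d = 3`), `sg_total`: distance `3 + 1 + 2`. And symmetrically.
* `3 ∤ X, 3 ∤ X'`, opposite parity: `v0` as before for `X'`; `X → y(A) → z(B) → y2(A) → V(B)`: `z0`
  compatible with `y0(X)`, `y2` compatible with `z0` and `v0` (`gr3`, `gr4`, `ty2'`): `4 + 1 + 2`. -/
theorem gr6s (ε : ℝ) (hε : 0 < ε) : ∃ n0 : ℕ, ∀ n : ℕ, n0 ≤ n →
    ∀ X ∈ Finset.Icc 1 n, ∀ X' ∈ Finset.Icc 1 n, ε * SH X * n / Real.log n ^ 2 ≤ hdeg n X →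
    ε * SH X' * n / Real.log n ^ 2 ≤ hdeg n X' → (HG n).edist X X' ≤ 7 := by
  obtain ⟨ε1, hε1, w, n1, h⟩ := alpha_ctx ε hε
  obtain ⟨n2, h5⟩ := gr6_five ε hε
  refine ⟨max n1 n2, fun n hn X hX X' hX' hd hd' => ?_⟩
  by_cases h23 : ((X : ℤ) % 2 = (X' : ℤ) % 2 ↔ ((3 : ℤ) ∣ X ↔ (3 : ℤ) ∣ X'))
  · refine (h5 n ((le_max_right _ _).trans hn) X hX X' hX' hd hd' h23).trans ?_
    norm_num
  obtain ⟨hctx, hgood⟩ := h n ((le_max_left _ _).trans hn)
  obtain ⟨y0, hg⟩ := hgood X hX hd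
  obtain ⟨y0', hg'⟩ := hgood X' hX' hd'
  by_cases h3' : (3 : ℤ) ∣ X'
  · by_cases h3 : (3 : ℤ) ∣ X
    · exact hctx.case1 hX hX' hg hg' h3 h3' (by tauto)
    · have hP : (X : ℤ) % 2 = (X' : ℤ) % 2 := by tauto
      rw [SimpleGraph.edist_comm]
      exact hctx.case2 hX' hX hg' hg h3 ⟨fun _ => h3', fun _ => hP.symm⟩
  · exact hctx.case2 hX hX' hg hg' h3' (by tauto)

end Pool.Agent.Lib.H18GB
end

-- from Lib.H18E.TG
section

/-!
# Chunk TG: distances
-/

open Finset Pool.Agent.Lib.H68T Pool.Agent.Lib.H18GB Pool.Agent.Lib.GoldbachGraph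

namespace Pool.Agent.Lib.H18E

/-- Two neighbours `y`, `z ≥ 1` are not both divisible by a number `r1 ≥ 2` (nor by `0`): the odd primes
`y + z` and `|y - z|` would both be `r1`, so that `y = 0` or `z = 0`. -/
theorem tg_nd (r1 y z : ℕ) (h1 : r1 ≠ 1) (hy : 1 ≤ y) (hz : 1 ≤ z) (h : hadj y z) :
    ¬ (r1 ∣ y ∧ r1 ∣ z) := by
  rintro ⟨h2, h3⟩
  rcases (Nat.dvd_prime h.1).1 (Dvd.dvd.add h2 h3) with h4 | h4
  · exact h1 h4
  · have := Nat.le_of_dvd hy h2
    omega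

theorem TG_step (n : ℕ) (B : Finset ℕ) (X : ℕ) (hX : X ∈ Icc 1 n) (hd : B.card < hdeg n X) :
    ∃ Y ∈ Icc 1 n, Y ∉ B ∧ hadj X Y ∧ (HG n).Adj X Y := by
  obtain ⟨Y, hY1, hY2⟩ := Finset.exists_mem_notMem_of_card_lt_card hd
  rw [mem_filter] at hY1
  exact ⟨Y, hY1.1, hY2, hY1.2, hY1.2, hX, hY1.1⟩

/-- A vertex with more than `|B|` neighbours has a neighbour `Y ∉ B`; if `r1 ∣ Y` then `Y` again has a
neighbour `Z ∉ B`, and `¬ r1 ∣ Z` (`tg_nd`). So it has distance at most `2` from a vertex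
`Z ∉ B` with `¬ r1 ∣ Z`. -/
theorem tg_two (n : ℕ) (B : Finset ℕ) (r1 : ℕ) (h1 : r1 = 0 ∨ 7 ≤ r1)
    (hB : ∀ x ∈ Icc 1 n, x ∉ B → B.card < hdeg n x) (X : ℕ) (hX : X ∈ Icc 1 n)
    (hd : B.card < hdeg n X) :
    ∃ Z ∈ Icc 1 n, Z ∉ B ∧ ¬ r1 ∣ Z ∧ (HG n).edist X Z ≤ 2 := by
  obtain ⟨Y, hY, hYB, hXY, hadj1⟩ := TG_step n B X hX hd
  by_cases h : r1 ∣ Y
  · obtain ⟨Z, hZ, hZB, hYZ, hadj2⟩ := TG_step n B Y hY (hB Y hY hYB)
    refine ⟨Z, hZ, hZB, ?_, ?_⟩
    · intro h2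
      exact tg_nd r1 Y Z (by omega) (mem_Icc.1 hY).1 (mem_Icc.1 hZ).1 hYZ ⟨h, h2⟩
    · refine (SimpleGraph.edist_le (.cons hadj1 (.cons hadj2 .nil))).trans ?_
      norm_num
  · refine ⟨Y, hY, hYB, h, ?_⟩
    refine (SimpleGraph.edist_le (.cons hadj1 .nil)).trans ?_
    norm_num


end Pool.Agent.Lib.H18E
end

-- from Lib.H18GB.Transfer
section

/-!
# Project GB: from the halved graph `HG n` to the Goldbach graphs
-/

namespace Pool.Agent.Lib.H18GB

open Finset Filter Pool.Agent.Goldbach Pool.Agent.Lib.GoldbachGraph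

section

variable {V S : Set ℕ} {n : ℕ}

theorem finite_of_le (hV : ∀ a ∈ V, Even a ∧ a ≤ 2 * n) : V.Finite :=
  (Set.finite_Iic (2 * n)).subset fun a ha => (hV a ha).2

/-- walks of the halved graph give walks of the Goldbach graph -/
theorem walk_map (hV2 : ∀ x ∈ Finset.Icc 1 n, 2 * x ∈ V)
    (hS : ∀ m, m.Prime → Odd m → m < 2 * n → m ∈ S) {x y : ℕ} (p : (HG n).Walk x y) :
    ∀ (hx : x ∈ Finset.Icc 1 n), ∃ hy : y ∈ Finset.Icc 1 n,
    ∃ q : (halfGraph V S).Walk ⟨2 * x, hV2 x hx⟩ ⟨2 * y, hV2 y hy⟩, q.length = p.length := by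
  induction p with
  | nil => exact fun hx => ⟨hx, .nil, rfl⟩
  | @cons u v w h p ih =>
    intro hx
    obtain ⟨hadj1, h1, h2⟩ := h
    obtain ⟨hy, q, hq⟩ := ih h2
    refine ⟨hy, .cons ?_ q, ?_⟩
    · rw [halfGraph_adj_iff (x := u) (y := v) rfl rfl]
      obtain ⟨a1, a2, a3, a4⟩ := hadj1
      rw [Finset.mem_Icc] at h1 h2
      have hne : u ≠ v := by
        rintro rfl
        rw [Nat.dist_self] at a3
        exact Nat.not_prime_zero a3
      have hd : ((u : ℤ) - v).natAbs = Nat.dist u v := by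
        unfold Nat.dist
        omega
      refine ⟨hne, hS _ a1 a2 (by omega), ?_⟩
      rw [hd]
      refine hS _ a3 a4 ?_
      unfold Nat.dist
      omega
    · rw [SimpleGraph.Walk.length_cons, SimpleGraph.Walk.length_cons, hq]

/-- distances -/
theorem edist_transfer (hV2 : ∀ x ∈ Finset.Icc 1 n, 2 * x ∈ V)
    (hS : ∀ m, m.Prime → Odd m → m < 2 * n → m ∈ S) {x y : ℕ} (hx : x ∈ Finset.Icc 1 n)
    (hy : y ∈ Finset.Icc 1 n) {k : ℕ} (h : (HG n).edist x y ≤ k) :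
    (halfGraph V S).edist ⟨2 * x, hV2 x hx⟩ ⟨2 * y, hV2 y hy⟩ ≤ k := by
  have hr : (HG n).Reachable x y := by
    apply SimpleGraph.reachable_of_edist_ne_top
    intro h0
    rw [h0] at h
    exact absurd h (by simp)
  obtain ⟨p, hp⟩ := hr.exists_walk_length_eq_edist
  obtain ⟨hy', q, hq⟩ := walk_map hV2 hS p hx
  refine (SimpleGraph.edist_le q).trans ?_
  rw [hq, hp]
  exact h

/-- degrees -/
theorem deg_le (hV : ∀ a ∈ V, Even a ∧ a ≤ 2 * n)
    (hS' : ∀ m ∈ S, m = 1 ∨ (m.Prime ∧ Odd m)) (x : ℕ) (hx : 2 * x ∈ V) :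
    ((halfGraph V S).neighborSet ⟨2 * x, hx⟩).ncard ≤ hdeg n x + 4 := by
  have : Finite V := finite_of_le hV
  set T : Finset ℕ := ((Finset.Icc 1 n).filter fun u => hadj x u) ∪ {0, 1 - x, x + 1, x - 1}
    with hT
  have hTcard : T.card ≤ hdeg n x + 4 :=
    (Finset.card_union_le _ _).trans (Nat.add_le_add_left Finset.card_le_four _)
  refine le_trans ?_ hTcard
  rw [← Set.ncard_coe_finset]
  apply Set.ncard_le_ncard_of_injOn (fun b : V => (b : ℕ) / 2)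
  · rintro ⟨b, hb⟩ hadj1
    obtain ⟨⟨s, hs⟩, hbn⟩ := hV b hb
    have hbs : b = 2 * s := by omega
    subst hbs
    rw [SimpleGraph.mem_neighborSet, halfGraph_adj_iff (x := x) (y := s) rfl rfl] at hadj1
    obtain ⟨h1, h2, h3⟩ := hadj1
    simp only [Nat.mul_div_cancel_left _ (by norm_num : 0 < 2)]
    rw [Finset.mem_coe, hT, Finset.mem_union, Finset.mem_filter, Finset.mem_Icc]
    by_cases hs0 : s = 0
    · right; simp [hs0]
    by_cases h4 : x + s = 1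
    · right
      simp only [Finset.mem_insert, Finset.mem_singleton]
      omega
    by_cases h5 : ((x : ℤ) - s).natAbs = 1
    · right
      simp only [Finset.mem_insert, Finset.mem_singleton]
      omega
    left
    have hd : ((x : ℤ) - s).natAbs = Nat.dist x s := by
      unfold Nat.dist
      omega
    rw [hd] at h3 h5
    obtain ⟨h6, h7⟩ := (hS' _ h2).resolve_left h4
    obtain ⟨h8, h9⟩ := (hS' _ h3).resolve_left h5
    exact ⟨⟨by omega, by omega⟩, h6, h7, h8, h9⟩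
  · rintro ⟨b, hb⟩ - ⟨b', hb'⟩ - hbb
    have h1 := (hV b hb).1
    have h2 := (hV b' hb').1
    simp only at hbb
    ext
    simp only
    obtain ⟨k, hk⟩ := h1
    obtain ⟨l, hl⟩ := h2
    omega


end

end Pool.Agent.Lib.H18GB
end

-- from Lib.H18E.FN
section

/-!
# Chunk FN: the final statement for both families of graphs
-/

open Finset Pool.Agent.Lib.H68T Pool.Agent.Lib.H18GB Pool.Agent.Lib.GoldbachGraph
  Pool.Agent.Goldbach

namespace Pool.Agent.Lib.H18E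

theorem FN_primes : ∃ n0 : ℕ, ∀ n : ℕ, n0 ≤ n → 2 ≤ n ∧
    (n : ℝ) / 2 ≤ (((Icc 1 n).filter Nat.Prime).card : ℝ) * Real.log n ∧ 100 * Real.log n ≤ n := by
  have hev : ∀ᶠ y : ℝ in Filter.atTop, 100 * Real.log y + 10 ≤ y ^ (1 / 4 : ℝ) ∧ 100 ≤ y := by
    filter_upwards [PA_log (1 / 4) 100 10 (by norm_num), Filter.eventually_ge_atTop (100 : ℝ)]
      with y h1 h2
    exact ⟨h1, h2⟩
  obtain ⟨n0, hn0⟩ := Filter.eventually_atTop.1 (tendsto_natCast_atTop_atTop.eventually hev)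
  refine ⟨n0, fun n hn => ?_⟩
  obtain ⟨h1, h2⟩ := hn0 n hn
  have hn0' : (0 : ℝ) < n := by linarith
  have hn2 : 2 ≤ n := by
    have : (2 : ℝ) ≤ n := by linarith
    exact_mod_cast this
  have hq : (n : ℝ) ^ (1 / 4 : ℝ) ≤ n := by
    calc (n : ℝ) ^ (1 / 4 : ℝ) ≤ (n : ℝ) ^ (1 : ℝ) :=
          Real.rpow_le_rpow_of_exponent_le (by linarith) (by norm_num)
      _ = n := Real.rpow_one _
  have hL0 : 0 ≤ Real.log n := Real.log_natCast_nonneg n
  refine ⟨hn2, ?_, by linarith⟩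
  have hth := Chebyshev.theta_ge n
  have h3 : 2 * Real.sqrt n * Real.log n ≤ n / 50 := by
    have h4 : Real.sqrt n * (n : ℝ) ^ (1 / 4 : ℝ) ≤ n := by
      rw [Real.sqrt_eq_rpow, ← Real.rpow_add hn0']
      calc (n : ℝ) ^ (1 / 2 + 1 / 4 : ℝ) ≤ (n : ℝ) ^ (1 : ℝ) :=
            Real.rpow_le_rpow_of_exponent_le (by linarith) (by norm_num)
        _ = n := Real.rpow_one _
    have h5 : 0 ≤ Real.sqrt n := Real.sqrt_nonneg _
    nlinarith
  have h4 : Real.log ((n : ℝ) + 1) ≤ n / 50 := by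
    have h5 : Real.log ((n : ℝ) + 1) ≤ Real.log (2 * n) := by
      apply Real.log_le_log (by linarith)
      linarith
    rw [Real.log_mul (by norm_num) hn0'.ne'] at h5
    have h6 := Real.log_two_lt_d9
    linarith
  have h5 : (n : ℝ) / 2 ≤ Chebyshev.theta n := by
    have h6 := Real.log_two_gt_d9
    nlinarith
  refine h5.trans ?_
  have h6 : Chebyshev.theta n = ∑ p ∈ (Icc 1 n).filter Nat.Prime, Real.log p := by
    unfold Chebyshev.theta
    rw [Nat.floor_natCast]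
    rfl
  rw [h6, ← nsmul_eq_mul]
  apply Finset.sum_le_card_nsmul
  intro p hp
  rw [mem_filter, mem_Icc] at hp
  apply Real.log_le_log
  · exact_mod_cast hp.2.pos
  · exact_mod_cast hp.1.2

/-- For large `n`, for every set `B` of at most `n exp (-(log n)^a)` numbers and every `r1 ≠ 1` there is
an odd prime `q ≤ n`, `q ∉ B`, not divisible by `r1`: the number of primes up to `n` is at least
`θ(n)/log n ≥ c n/log n` (`Chebyshev.theta_ge`), which exceeds `|B| + 2`. -/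
theorem fn_prime (a : ℝ) (ha : 0 < a) : ∃ n0 : ℕ, ∀ n : ℕ, n0 ≤ n → ∀ B : Finset ℕ,
    (B.card : ℝ) ≤ n * Real.exp (-(Real.log n) ^ a) → ∀ r1 : ℕ, r1 ≠ 1 →
    ∃ q ∈ Icc 1 n, q.Prime ∧ Odd q ∧ q ∉ B ∧ ¬ r1 ∣ q := by
  classical
  obtain ⟨n0, hn0⟩ := FN_primes
  have hev : ∀ᶠ y : ℝ in Filter.atTop, 2 * Real.log y + 4 ≤ y ^ a ∧ 1 ≤ y := by
    filter_upwards [PA_log a 2 4 ha, Filter.eventually_ge_atTop (1 : ℝ)] with y h1 h2
    exact ⟨h1, h2⟩
  obtain ⟨n1, hn1⟩ := Filter.eventually_atTop.1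
    ((Real.tendsto_log_atTop.comp tendsto_natCast_atTop_atTop).eventually hev)
  refine ⟨max n0 n1, fun n hn B hB r1 hr1 => ?_⟩
  obtain ⟨hn2, hP, hnL⟩ := hn0 n ((le_max_left _ _).trans hn)
  obtain ⟨h1, h2⟩ := hn1 n ((le_max_right _ _).trans hn)
  simp only [Function.comp] at h1 h2
  set L := Real.log n with hL
  have hL0 : 0 < L := by linarith
  have hnR : (0 : ℝ) < n := by
    have : (2 : ℝ) ≤ n := by exact_mod_cast hn2
    linarith
  have hexp : Real.exp (-L ^ a) * (4 * L) ≤ 1 := by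
    have h3 : Real.exp (-L ^ a) ≤ Real.exp (-(2 * Real.log L) - 4) := Real.exp_le_exp.2 (by linarith)
    have h4 : Real.exp (-(2 * Real.log L) - 4) * (4 * L) =
        4 * (Real.exp (-(Real.log L) - 4)) := by
      have : Real.exp (-(2 * Real.log L) - 4) = Real.exp (-(Real.log L) - 4) * Real.exp (-Real.log L) := by
        rw [← Real.exp_add]; congr 1; ring
      rw [this, Real.exp_neg (Real.log L), Real.exp_log hL0]
      field_simp
    have h5 : Real.exp (-(Real.log L) - 4) ≤ Real.exp (-4) := by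
      apply Real.exp_le_exp.2
      have := Real.log_nonneg h2
      linarith
    have h6 : Real.exp (-4) ≤ 1 / 4 := by
      rw [Real.exp_neg, ← one_div]
      apply one_div_le_one_div_of_le (by norm_num)
      linarith [Real.add_one_le_exp 4]
    calc Real.exp (-L ^ a) * (4 * L) ≤ Real.exp (-(2 * Real.log L) - 4) * (4 * L) :=
          mul_le_mul_of_nonneg_right h3 (by linarith)
      _ ≤ 1 := by rw [h4]; linarith
  have hcard : (B.card : ℝ) + 2 < (((Icc 1 n).filter Nat.Prime).card : ℝ) := by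
    have h3 : ((B.card : ℝ) + 2) * L < n / 2 := by
      have h4 : (B.card : ℝ) * L ≤ n / 4 := by
        calc (B.card : ℝ) * L ≤ n * Real.exp (-L ^ a) * L := mul_le_mul_of_nonneg_right hB hL0.le
          _ = n * (Real.exp (-L ^ a) * (4 * L)) / 4 := by ring
          _ ≤ n * 1 / 4 := by
              have := mul_le_mul_of_nonneg_left hexp hnR.le
              linarith
          _ = n / 4 := by ring
      linarith
    have h5 := h3.trans_le hP
    exact lt_of_mul_lt_mul_right h5 hL0.le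
  have hcard2 : (B ∪ {2, r1}).card < ((Icc 1 n).filter Nat.Prime).card := by
    have h3 : (B ∪ {2, r1}).card ≤ B.card + 2 :=
      (card_union_le _ _).trans (Nat.add_le_add_left Finset.card_le_two _)
    have h4 : B.card + 2 < ((Icc 1 n).filter Nat.Prime).card := by exact_mod_cast hcard
    omega
  obtain ⟨q, hq1, hq2⟩ := Finset.exists_mem_notMem_of_card_lt_card hcard2
  rw [mem_filter] at hq1
  simp only [mem_union, mem_insert, mem_singleton, not_or] at hq2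
  refine ⟨q, hq1.1, hq1.2, hq1.2.odd_of_ne_two hq2.2.1, hq2.1, fun h => ?_⟩
  rcases (Nat.dvd_prime hq1.2).1 h with h | h
  · exact hr1 h
  · exact hq2.2.2 h.symm


end Pool.Agent.Lib.H18E
end

-- from Lib.H18E.FN2
section

/-!
# The final statement with the better constant for almost all vertices
-/

open Finset Pool.Agent.Lib.H68T Pool.Agent.Lib.H18GB Pool.Agent.Lib.GoldbachGraph
  Pool.Agent.Goldbach

namespace Pool.Agent.Lib.H18E

/-- Every vertex outside `B` is at distance at most `1` from a good vertex. -/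
theorem fn_one (n : ℕ) (B g : Finset ℕ) (r1 : ℕ) (h1 : r1 = 0 ∨ 7 ≤ r1)
    (hB : ∀ x ∈ Icc 1 n, x ∉ B → B.card < hdeg n x)
    (hg : ∀ x ∈ Icc 1 n, x ∉ B → ¬ r1 ∣ x → x ∈ g) (x : ℕ) (hx : x ∈ Icc 1 n) (hxB : x ∉ B) :
    ∃ z ∈ g, (HG n).edist x z ≤ 1 := by
  by_cases h : r1 ∣ x
  · obtain ⟨Y, hY, hYB, hXY, hadj1⟩ := TG_step n B x hx (hB x hx hxB)
    have h2 : ¬ r1 ∣ Y := fun h3 =>
      tg_nd r1 x Y (by omega) (mem_Icc.1 hx).1 (mem_Icc.1 hY).1 hXY ⟨h, h3⟩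
    refine ⟨Y, hg Y hY hYB h2, ?_⟩
    refine (SimpleGraph.edist_le (.cons hadj1 .nil)).trans ?_
    norm_num
  · exact ⟨x, hg x hx hxB h, by rw [SimpleGraph.edist_self]; exact zero_le⟩


end Pool.Agent.Lib.H18E
end

-- from Lib.H18P.P2
section

/-!
# Project H18P (MP_443e5f_co): good vertices of all scales

For every level `n` there is a set `g n` of good vertices, pairwise at distance at most `7`; all but
`n exp (-(log n)^a)/2` vertices are at distance at most `1` from `g n`; every vertex with more than `n exp (-(log n)^a)/2` neighbours in `[1, n]` is at distance at most `2` from `g n`; and every good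
vertex of a level `m ≤ n` is at distance at most `10` from `g n`.
-/

open Finset Pool.Agent.Lib.H18GB Pool.Agent.Lib.GoldbachGraph Pool.Agent.Lib.H18E

namespace Pool.Agent.Lib.H18P

theorem HG_mono {m n : ℕ} (h : m ≤ n) : HG m ≤ HG n := by
  intro x y hxy
  obtain ⟨h1, h2, h3⟩ := hxy
  rw [mem_Icc] at h2 h3
  exact ⟨h1, mem_Icc.2 ⟨h2.1, h2.2.trans h⟩, mem_Icc.2 ⟨h3.1, h3.2.trans h⟩⟩

theorem edist_mono {m n : ℕ} (h : m ≤ n) (x y : ℕ) : (HG n).edist x y ≤ (HG m).edist x y :=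
  SimpleGraph.edist_anti (HG_mono h)




end Pool.Agent.Lib.H18P
end

-- from Lib.H18P.OM
section

/-!
# Project H18P (MP_443e5f_co): degrees at the own scale of all vertices outside a fixed thin set
-/

open Finset Pool.Agent.Lib.H68T Pool.Agent.Lib.H18E Pool.Agent.Lib.GoldbachGraph

namespace Pool.Agent.Lib.H18P




/-- the powers of two -/
theorem clog_bounds (x : ℕ) (hx : 3 ≤ x) : x ≤ 2 ^ Nat.clog 2 x ∧ 2 ^ Nat.clog 2 x < 2 * x ∧
    (Nat.clog 2 x : ℝ) + 1 ≤ 4 * Real.log x := by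
  have h1 : x ≤ 2 ^ Nat.clog 2 x := Nat.le_pow_clog (by norm_num) x
  have h2 : 2 ^ Nat.clog 2 x < 2 * x := by
    have h3 := Nat.pow_pred_clog_lt_self (b := 2) (by norm_num) (x := x) (by omega)
    have h4 : 0 < Nat.clog 2 x := Nat.clog_pos (by norm_num) (by omega)
    obtain ⟨k, hk⟩ : ∃ k, Nat.clog 2 x = k + 1 := ⟨Nat.clog 2 x - 1, by omega⟩
    rw [hk] at h3 ⊢
    simp only [Nat.pred_succ] at h3
    rw [pow_succ]
    omega
  refine ⟨h1, h2, ?_⟩
  have hxR : (3 : ℝ) ≤ x := by exact_mod_cast hx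
  have h5 : ((2 : ℝ) ^ Nat.clog 2 x) < 2 * x := by exact_mod_cast h2
  have h6 : (Nat.clog 2 x : ℝ) * Real.log 2 ≤ Real.log 2 + Real.log x := by
    rw [← Real.log_pow, ← Real.log_mul (by norm_num) (by linarith)]
    exact Real.log_le_log (by positivity) h5.le
  have h7 := Real.log_two_gt_d9
  have h8 : 1 ≤ Real.log x := by
    rw [Real.le_log_iff_exp_le (by linarith)]
    have := Real.exp_one_lt_d9
    linarith
  nlinarith


end Pool.Agent.Lib.H18P
end
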