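import Pool.Agent.Lib.H1M.RV.D_H18C_ChenDefs
import Pool.Agent.Lib.H1M.RV.M100
import Pool.Agent.Lib.H1M.RV.M110
import Pool.Agent.Lib.H1M.RV.M111

/-! Merged copies (to shorten the build) of Lib.H18C.R2Z, Lib.H18C.RS, Lib.H18C.RB, Lib.H18C.R3, Lib.H18C.RA, Lib.H18C.RG, Lib.H18C.Fin. -/

-- from Lib.H18C.R2Z
section

/-!
# Chunk R2Z: from a large set of primes to a class
-/

open Finset Pool.Agent.Lib.Sieve Pool.Agent.Lib.GoldbachGraph Pool.Agent.Lib.H18GB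

namespace Pool.Agent.Lib.H18C

/-- `W = primorial w`, `N = n / W`. The primes `y ∈ A` with `y ≥ √n` (so `y > w`) and `W ≤ y < W N`, all but
`√n + 2 W` of the elements of `A`, are in the `φ(W)` classes `y0` prime to `W`, and have
`lamv W y ≥ (φ(W)/W) (log n)/2`. So for some class the weight `F(y) = lamv W (y0 + W y)` if
`1 ≤ y < N`, `y0 + W y ∈ A`, and `0` otherwise has sum at least
`(1/φ(W)) (φ(W)/W) ((log n)/2) (|A| - √n - 2 W) ≥ (ε/4) n/W`. -/
theorem gr2Z (ε : ℝ) (hε : 0 < ε) (w : ℕ) (hw : 3 ≤ w) : ∃ n0 : ℕ, ∀ n : ℕ, n0 ≤ n →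
    ∀ A ⊆ Finset.Icc 1 n, (∀ y ∈ A, y.Prime) → ε * n / Real.log n ≤ A.card →
    ∃ y0 : ℕ, Comp (primorial w) 0 y0 ∧
      StartW w (primorial w) (n / primorial w) A y0 (ε / 4) := by
  classical
  set W := primorial w with hW
  have hWpos : 0 < W := primorial_pos w
  obtain ⟨n0, hn0⟩ := gr2_asym (2 * W) (5 / 2 * ε) (by positivity)
  refine ⟨n0, fun n hn A hA hAp hdeg => ?_⟩
  obtain ⟨hasy, hWs, hn3⟩ := hn0 n (by omega)
  set N := n / W with hN
  have hWr : (0 : ℝ) < W := by exact_mod_cast hWpos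
  have hn3r : (3 : ℝ) ≤ n := by exact_mod_cast hn3
  have hlog1 : 1 ≤ Real.log n := by
    rw [Real.le_log_iff_exp_le (by linarith)]
    have := Real.exp_one_lt_d9
    linarith
  have hlog : 0 < Real.log n := by linarith
  have hWs' : W ≤ Nat.sqrt n := by omega
  have hWn : W ≤ n := le_trans hWs' (Nat.sqrt_le_self n)
  have hNpos : 0 < N := Nat.div_pos hWn hWpos
  have hNr : (0 : ℝ) < N := by exact_mod_cast hNpos
  have hNW : (N : ℝ) * W ≤ n := by exact_mod_cast Nat.div_mul_le_self n W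
  have hnWN : n < W * N + W := by
    have h1 := Nat.div_add_mod n W
    have h2 := Nat.mod_lt n hWpos
    rw [← hN] at h1
    omega
  -- the weights
  set T : ℕ → ℕ → ℝ := fun y0 y => if 1 ≤ y ∧ y0 + W * y ∈ A then
    lamv W (y0 + W * y) else 0 with hT
  have hT0 : ∀ y0 y, 0 ≤ T y0 y := by
    intro y0 y
    rw [hT]
    simp only
    split_ifs
    · exact gr2_lamv_nonneg _ _
    · exact le_rfl
  set Cls := (range W).filter (fun y : ℕ => W.Coprime y) with hCls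
  have hClsc : Cls.card = W.totient := by rw [hCls, Nat.totient]
  by_contra hcon
  -- each class carries little weight
  have hcon' : ∀ y0 ∈ Cls, ∑ y ∈ range N, T y0 y < ε / 4 * N := by
    intro y0 hy0
    rw [hCls, mem_filter, mem_range] at hy0
    by_contra hlt
    push Not at hlt
    apply hcon
    have hco : IsCoprime (y0 : ℤ) (W : ℤ) := Nat.isCoprime_iff_coprime.2 hy0.2.symm
    refine ⟨y0, ⟨by rw [zero_add]; exact hco, by rw [zero_sub]; exact hco.neg_left⟩, hy0.1, ?_⟩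
    refine ⟨fun x => if (∃ y ∈ Finset.Ico 1 N, x = (y : ℤ) ∧ y0 + W * y ∈ A) then
      lamv W (y0 + W * x) else 0, ?_, ?_, ?_⟩
    · refine Or.inr ⟨fun x => ?_, Or.inr ⟨y0, ?_, fun x => ?_⟩⟩
      · simp only
        split_ifs
        · exact gr2_lamv_nonneg _ _
        · exact le_rfl
      · have h3 : (y0 : ℤ) < W := by exact_mod_cast hy0.1
        have h6 : (0 : ℤ) ≤ y0 := by positivity
        rw [abs_le]
        constructor <;> linarith
      · simp only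
        split_ifs
        · exact le_rfl
        · exact gr2_lamv_nonneg _ _
    · intro x hx
      simp only at hx
      by_contra hno
      rw [if_neg hno] at hx
      exact hx rfl
    · rw [sum_Ico_int]
      refine le_trans hlt ?_
      apply sum_le_sum
      intro m hm
      rw [mem_range] at hm
      rw [hT]
      simp only
      by_cases h2 : 1 ≤ m ∧ y0 + W * m ∈ A
      · rw [if_pos h2, if_pos ⟨m, mem_Ico.2 ⟨h2.1, hm⟩, rfl, h2.2⟩]
      · rw [if_neg h2]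
        split_ifs
        · exact gr2_lamv_nonneg _ _
        · exact le_rfl
  -- the primes kept
  set U' := A.filter (fun u => W ≤ u ∧ u < W * N ∧ Nat.sqrt n < u) with hU'
  have hUc : (A.card : ℝ) ≤ U'.card + (((2 * W : ℕ) : ℝ) + 2 * Real.sqrt n + 1) := by
    have h1 : A ⊆ U' ∪ (Finset.Icc (W * N) n ∪ (range (Nat.sqrt n + 1) ∪ range W)) := by
      intro u hu
      rw [mem_union, mem_union, mem_union, hU', mem_filter, mem_Icc, mem_range, mem_range]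
      by_cases h2 : W ≤ u ∧ u < W * N ∧ Nat.sqrt n < u
      · exact Or.inl ⟨hu, h2⟩
      · right
        have hu2 := hA hu
        rw [mem_Icc] at hu2
        by_cases h3 : W ≤ u
        · by_cases h4 : u < W * N
          · right; left
            have h5 : ¬ Nat.sqrt n < u := fun h => h2 ⟨h3, h4, h⟩
            omega
          · left; exact ⟨by omega, hu2.2⟩
        · right; right; omega
    have h2 := (card_le_card h1).trans ((card_union_le _ _).trans (Nat.add_le_add_left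
      ((card_union_le _ _).trans (Nat.add_le_add_left (card_union_le _ _) _)) _))
    rw [Nat.card_Icc, card_range, card_range] at h2
    have h3 : n + 1 - W * N ≤ W := by omega
    have h5 : A.card ≤ U'.card + (2 * W + (2 * Nat.sqrt n + 1)) := by omega
    have h6 : (Nat.sqrt n : ℝ) ≤ Real.sqrt n := Real.nat_sqrt_le_real_sqrt
    have h7 : (A.card : ℝ) ≤ U'.card + (((2 * W : ℕ) : ℝ) + (2 * Nat.sqrt n + 1)) := by
      exact_mod_cast h5
    linarith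
  have hU'c : ε / 2 * (n / Real.log n) ≤ (U'.card : ℝ) := by
    have h2 : ε * n / Real.log n = ε * (n / Real.log n) := by ring
    rw [h2] at hdeg
    have h3 : (n : ℝ) / Real.log n ^ 2 ≤ n / Real.log n := by
      apply div_le_div_of_nonneg_left (by linarith) hlog
      nlinarith
    have h4 : 5 / 2 * ε / 5 * (n / Real.log n ^ 2) ≤ 5 / 2 * ε / 5 * (n / Real.log n) :=
      mul_le_mul_of_nonneg_left h3 (by positivity)
    linarith
  set c : ℝ := ((Nat.totient W : ℝ) / W) * (Real.log n / 2) with hc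
  have hU'm : ∀ u ∈ U', u % W ∈ Cls ∧ u / W < N ∧ c ≤ T (u % W) (u / W) := by
    intro u hu
    rw [hU', mem_filter] at hu
    obtain ⟨huA, hWu, huN, hsq⟩ := hu
    have hp := hAp u huA
    have hmod : (u : ℤ) = ((u % W : ℕ) : ℤ) + W * ((u / W : ℕ) : ℤ) := by
      have := Nat.mod_add_div u W
      exact_mod_cast this.symm
    refine ⟨?_, ?_, ?_⟩
    · rw [hCls, mem_filter, mem_range]
      refine ⟨Nat.mod_lt _ hWpos, ?_⟩
      have h1 : u.Coprime W := by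
        rw [hp.coprime_iff_not_dvd]
        intro h
        have := Nat.le_of_dvd hWpos h
        omega
      rw [Nat.coprime_comm]
      have h2 : Nat.gcd (u % W) W = Nat.gcd u W := by
        rw [← Nat.gcd_rec, Nat.gcd_comm]
      rw [Nat.Coprime, h2]
      exact h1
    · exact Nat.div_lt_of_lt_mul huN
    · have h1 : 1 ≤ u / W ∧ u % W + W * (u / W) ∈ A := by
        refine ⟨(Nat.one_le_div_iff hWpos).2 hWu, ?_⟩
        rw [Nat.mod_add_div]
        exact huA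
      rw [hT]
      simp only
      rw [if_pos h1, ← hmod]
      unfold lamv
      rw [Int.natAbs_natCast, if_pos hp]
      have h4 : Real.sqrt n ≤ u := by
        have h5 : n < (Nat.sqrt n + 1) ^ 2 := by
          have := Nat.lt_succ_sqrt n
          rw [pow_two]; exact this
        have h6 : n ≤ u ^ 2 := by
          have : (Nat.sqrt n + 1) ^ 2 ≤ u ^ 2 := Nat.pow_le_pow_left hsq 2
          omega
        rw [Real.sqrt_le_left (by positivity)]
        exact_mod_cast h6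
      have h5 : 0 < Real.sqrt n := Real.sqrt_pos.2 (by linarith)
      have h6 : Real.log n / 2 ≤ Real.log u := by
        calc Real.log n / 2 = Real.log (Real.sqrt n) := (Real.log_sqrt (by linarith)).symm
          _ ≤ Real.log u := Real.log_le_log h5 h4
      exact mul_le_mul_of_nonneg_left h6 (by positivity)
  -- summation
  have hsum1 : (U'.card : ℝ) * c ≤ ∑ y0 ∈ Cls, ∑ y ∈ range N, T y0 y := by
    rw [← sum_product']
    have hinj : Set.InjOn (fun u : ℕ => (u % W, u / W)) (U' : Set ℕ) := by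
      intro u _ v _ h
      simp only [Prod.mk.injEq] at h
      rw [← Nat.mod_add_div u W, ← Nat.mod_add_div v W, h.1, h.2]
    calc (U'.card : ℝ) * c = ∑ _u ∈ U', c := by rw [sum_const, nsmul_eq_mul]
      _ ≤ ∑ u ∈ U', T (u % W) (u / W) := sum_le_sum (fun u hu => (hU'm u hu).2.2)
      _ = ∑ q ∈ U'.image (fun u : ℕ => (u % W, u / W)), T q.1 q.2 := by
          rw [sum_image hinj]
      _ ≤ ∑ q ∈ Cls ×ˢ range N, T q.1 q.2 := by
          apply sum_le_sum_of_subset_of_nonneg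
          · intro q hq
            rw [mem_image] at hq
            obtain ⟨u, hu, rfl⟩ := hq
            rw [mem_product, mem_range]
            exact ⟨(hU'm u hu).1, (hU'm u hu).2.1⟩
          · intro q _ _
            exact hT0 _ _
  have hφ : 0 < W.totient := Nat.totient_pos.2 hWpos
  have hne : Cls.Nonempty := by
    rw [← card_pos, hClsc]
    exact hφ
  have hsum2 : ∑ y0 ∈ Cls, ∑ y ∈ range N, T y0 y < W.totient * (ε / 4 * N) := by
    calc ∑ y0 ∈ Cls, ∑ y ∈ range N, T y0 y < ∑ _y0 ∈ Cls, (ε / 4 * N) :=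
          sum_lt_sum_of_nonempty hne hcon'
      _ = W.totient * (ε / 4 * N) := by rw [sum_const, nsmul_eq_mul, hClsc]
  have hlow : W.totient * (ε / 4 * N) ≤ (U'.card : ℝ) * c := by
    have hc0 : 0 ≤ c := by rw [hc]; positivity
    have h1 : ε / 2 * (n / Real.log n) * c ≤ (U'.card : ℝ) * c :=
      mul_le_mul_of_nonneg_right hU'c hc0
    refine le_trans ?_ h1
    have h2 : ε / 2 * (n / Real.log n) * c = (W.totient : ℝ) * (ε / 4 * (n / W)) := by
      rw [hc]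
      field_simp
      ring
    rw [h2]
    have h3 : (N : ℝ) ≤ n / W := by
      rw [le_div_iff₀ hWr]
      exact hNW
    have h4 : (0 : ℝ) ≤ W.totient := Nat.cast_nonneg _
    have h5 : ε / 4 * (N : ℝ) ≤ ε / 4 * (n / W) := mul_le_mul_of_nonneg_left h3 (by positivity)
    exact mul_le_mul_of_nonneg_left h5 h4
  linarith

end Pool.Agent.Lib.H18C
end

-- from Lib.H18C.RS
section

/-!
# Chunk RS: sums of the weights
-/

open Finset Pool.Agent.Lib.Sieve Pool.Agent.Lib.GoldbachGraph Pool.Agent.Lib.H18GB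

namespace Pool.Agent.Lib.H18C

theorem RS_nonneg {w W N : ℕ} {F : ℤ → ℝ} (h : AdmR w W N F) : ∀ x, 0 ≤ F x := by
  rcases h with h | h
  · exact h.1
  · exact h.1

/-- Copy of `adm_sum` (file `H18GB2/Adm.lean`) with `admR_dom` (take `s = C * C + 16`, or `C` larger, so
that `s ≥ 16`). -/
theorem adm_sumR : ∃ C : ℝ, 1 ≤ C ∧ ∃ w0 : ℕ, ∀ w W : ℕ, w0 ≤ w → IsW w W →
    ∃ N0 : ℕ, ∀ N : ℕ, N0 ≤ N → ∀ F : ℤ → ℝ, AdmR w W N F →
    ∑ x ∈ Finset.Ico (0 : ℤ) N, F x ≤ C * N := by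
  obtain ⟨K, hK, hdom⟩ := admR_dom
  obtain ⟨C1, hC1, h1⟩ := adm_gsum Empty Empty
  obtain ⟨C2, hC2, h2⟩ := adm_gsum Unit Empty
  obtain ⟨C3, hC3, h3⟩ := adm_gsum Empty Unit
  obtain ⟨C4, hC4, h4⟩ := adm_gsum Unit Unit
  set C : ℕ := C1 + C2 + C3 + C4 with hC
  set s : ℕ := C * C with hs
  have hC8 : 8 ≤ C := by omega
  have hs2 : 2 ≤ s := by nlinarith
  have hs16 : 16 ≤ s := by nlinarith
  obtain ⟨w1, hw1⟩ := hdom s hs16
  refine ⟨K * s ^ 3 * C + 1, by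
    have : 0 ≤ K * s ^ 3 * C := by positivity
    linarith, w1 + C + 2, fun w W hw hW => ?_⟩
  obtain ⟨N1, hN1⟩ := hw1 w W (by omega) hW
  obtain ⟨N2, hN2⟩ := adm_small 3 W hW.1 1 one_pos
  obtain ⟨N3, hN3⟩ := Filter.eventually_atTop.mp
    ((rt_tendsto (by omega : 1 ≤ s)).eventually (Filter.eventually_ge_atTop 2))
  refine ⟨N1 + N2 + N3 + 1, fun N hN F hF => ?_⟩
  obtain ⟨hb, B, hB, hd⟩ := hN1 N (by omega) F hF
  have hz := hN3 N (by omega)
  have hsm := hN2 N (by omega) s hs2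
  set z := rt s N with hzd
  have hst : Stp C C w z W N (sprimes w z) :=
    ⟨le_rfl, by omega, hz, pset_sprimes w z, hW, rt_pow_le (by omega) N⟩
  have hLL := LL_nonneg (W := W) (N := N) hW.1 (by omega)
  have hF0 := RS_nonneg hF
  have hη : (0 : ℝ) ≤ (w : ℝ) ^ (-(1 / 4 : ℝ)) := by positivity
  have hη1 : (w : ℝ) ^ (-(1 / 4 : ℝ)) ≤ 1 :=
    Real.rpow_le_one_of_one_le_of_nonpos (by exact_mod_cast (by omega : 1 ≤ w)) (by norm_num)
  -- a general bound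
  have hgen : ∀ (G : ℤ → ℝ) (C' : ℕ), C' ≤ C → (∀ x, 0 ≤ G x) →
      ∑ x ∈ Finset.Ico (0 : ℤ) N, G x ≤ C' * N →
      (∀ x ∈ Finset.Ico (0 : ℤ) N, x ∉ B → F x ≤ K * s ^ 3 * G x) →
      ∑ x ∈ Finset.Ico (0 : ℤ) N, F x ≤ (K * s ^ 3 * C + 1) * N := by
    intro G C' hC' hG0 hG hFG
    classical
    have h5 : ∀ x ∈ Finset.Ico (0 : ℤ) N, F x ≤ K * s ^ 3 * G x +
        (if x ∈ B then (1 + LL W N) ^ 3 else 0) := by
      intro x hx
      by_cases hxB : x ∈ B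
      · rw [if_pos hxB]
        have h6 := hb x hx
        have h7 : 0 ≤ K * s ^ 3 * G x := by have := hG0 x; positivity
        linarith
      · rw [if_neg hxB, add_zero]
        exact hFG x hx hxB
    refine (Finset.sum_le_sum h5).trans ?_
    rw [Finset.sum_add_distrib, ← Finset.mul_sum, ← Finset.sum_filter, Finset.sum_const,
      nsmul_eq_mul]
    have h8 : ((((Finset.Ico (0 : ℤ) N).filter fun x => x ∈ B).card : ℕ) : ℝ) ≤ 6 * z + 3 := by
      have : ((Finset.Ico (0 : ℤ) N).filter fun x => x ∈ B).card ≤ B.card :=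
        Finset.card_le_card fun x hx => (Finset.mem_filter.mp hx).2
      exact_mod_cast this.trans hB
    have h9 : ((((Finset.Ico (0 : ℤ) N).filter fun x => x ∈ B).card : ℕ) : ℝ) *
        (1 + LL W N) ^ 3 ≤ N := by
      refine (mul_le_mul_of_nonneg_right h8 (by positivity)).trans (hsm.trans ?_)
      rw [one_mul]
    have h10 : K * s ^ 3 * ∑ x ∈ Finset.Ico (0 : ℤ) N, G x ≤ K * s ^ 3 * (C * N) := by
      have h11 : (C' : ℝ) * N ≤ C * N := by
        have : (C' : ℝ) ≤ C := by exact_mod_cast hC'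
        gcongr
      have : 0 ≤ K * (s : ℝ) ^ 3 := by positivity
      exact mul_le_mul_of_nonneg_left (hG.trans h11) this
    linarith
  have hval : ∀ (ι υ : Type) [Fintype ι] [Fintype υ] (g : GW ι υ) (x : ℤ),
      0 ≤ g.val (sprimes w z) W x := by
    intro ι υ _ _ g x
    unfold GW.val
    have hr := rho_nonneg (pset_sprimes w z).prime
    refine mul_nonneg (Finset.prod_nonneg fun i _ => hr _) (Finset.prod_nonneg fun i _ => ?_)
    exact div_nonneg (mul_nonneg (hr _) (hr _)) (CorrAux.SGp_pos (pset_sprimes w z) (by omega) _).le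
  rcases hd with ⟨g, hg, hd⟩ | ⟨g, hg, hd⟩ | ⟨g, hg, hd⟩ | ⟨g, hg, hd⟩
  · exact hgen _ C1 (by omega) (hval _ _ g)
      (h1 C w z W N _ (hst.mono (by omega)) g _ hη hη1 hg) hd
  · exact hgen _ C2 (by omega) (hval _ _ g)
      (h2 C w z W N _ (hst.mono (by omega)) g _ hη hη1 hg) hd
  · exact hgen _ C3 (by omega) (hval _ _ g)
      (h3 C w z W N _ (hst.mono (by omega)) g _ hη hη1 hg) hd
  · exact hgen _ C4 (by omega) (hval _ _ g)
      (h4 C w z W N _ (hst.mono (by omega)) g _ hη hη1 hg) hd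

end Pool.Agent.Lib.H18C
end

-- from Lib.H18C.RB
section

/-!
# Chunk RB: box sums and sparse-sparse estimate for rough weights
-/

open Finset Pool.Agent.Lib.Sieve Pool.Agent.Lib.GoldbachGraph Pool.Agent.Lib.H18GB

namespace Pool.Agent.Lib.H18C

/-- Copy of `bxm` (file `H18GB2/BXM.lean`) with `admR_dom`: `bxm_exists_A` gives `A ≥ C`; apply it with
`C' = max C 16` (in `BxmS` every `C' ≥ C` is allowed), so that `s = C' A ≥ 16`. -/
theorem bxmR (ε : ℝ) (hε : 0 < ε) : ∃ w0 : ℕ, ∀ w W : ℕ, w0 ≤ w → IsW w W → ∃ N0 : ℕ,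
    ∀ N : ℕ, N0 ≤ N → ∀ (r1 r2 σ : ℤ), |r1| < 2 * W → IsCoprime r1 (W : ℤ) → |r2| < 2 * W →
    IsCoprime r2 (W : ℤ) → (σ = 1 ∨ σ = -1) → ∀ (F G : ℤ → ℝ), AdmR w W N F → AdmR w W N G →
    box N (ker W r1 r2 σ) F G ≤ ε * N ^ 4 := by
  obtain ⟨K, hK, hdom⟩ := admR_dom
  obtain ⟨C0, hC0, hall⟩ := bxm_all
  obtain ⟨C, hCd⟩ : ∃ C : ℕ, C = max C0 16 := ⟨_, rfl⟩
  have hC : 2 ≤ C := by omega
  have hCC : C0 ≤ C := by omega
  have hC16 : 16 ≤ C := by omega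
  have hCr : (0 : ℝ) < C := by exact_mod_cast (by omega : 0 < C)
  obtain ⟨A, hCA, hA⟩ := bxm_exists_A C (by omega) (ε ^ 2 / (32 * K ^ 8 * C ^ 2)) (by positivity)
  have hs2 : 16 ≤ C * A := by nlinarith
  have hcond : BxmCond C A K ε := by
    unfold BxmCond
    set s : ℝ := ((C * A : ℕ) : ℝ) with hs
    have hs0 : 0 ≤ s := by positivity
    set τ : ℝ := (2 : ℝ) ^ (-(A : ℝ) / C) with hτ
    have hτpos : 0 < τ := Real.rpow_pos_of_pos (by norm_num) _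
    refine le_of_pow_le_pow_left₀ two_ne_zero (by positivity) ?_
    have e : ((K * s ^ 3) ^ 4 * (C * s ^ 8 * Real.sqrt (2 * τ))) ^ 2 =
        2 * K ^ 8 * C ^ 2 * (τ * s ^ 40) := by
      have : Real.sqrt (2 * τ) ^ 2 = 2 * τ := Real.sq_sqrt (by positivity)
      calc ((K * s ^ 3) ^ 4 * (C * s ^ 8 * Real.sqrt (2 * τ))) ^ 2
          = K ^ 8 * C ^ 2 * s ^ 40 * Real.sqrt (2 * τ) ^ 2 := by ring
        _ = _ := by rw [this]; ring
    rw [e]
    calc 2 * K ^ 8 * C ^ 2 * (τ * s ^ 40) ≤ 2 * K ^ 8 * C ^ 2 * (ε ^ 2 / (32 * K ^ 8 * C ^ 2)) :=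
          mul_le_mul_of_nonneg_left hA (by positivity)
      _ = (ε / 4) ^ 2 := by
          have hK0 : K ≠ 0 := by positivity
          field_simp
          norm_num
  obtain ⟨w1, hw1⟩ := hall C A hCC hCA K ε hK hε hcond
  obtain ⟨w2, hw2⟩ := hdom (C * A) hs2
  refine ⟨max w1 w2, fun w W hw hW => ?_⟩
  obtain ⟨N1, hN1⟩ := hw1 w W ((le_max_left _ _).trans hw) hW
  obtain ⟨N2, hN2⟩ := hw2 w W ((le_max_right _ _).trans hw) hW
  refine ⟨max N1 N2, fun N hN r1 r2 σ a1 a2 a3 a4 a5 F G hF hG => ?_⟩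
  have f1 : N1 ≤ N := (le_max_left _ _).trans hN
  have f2 : N2 ≤ N := (le_max_right _ _).trans hN
  obtain ⟨p1, B, p2, p3⟩ := hN2 N f2 F hF
  obtain ⟨q1, B', q2, q3⟩ := hN2 N f2 G hG
  exact hN1 N f1 r1 r2 σ a1 a2 a3 a4 a5 F G B B' (RS_nonneg hF) (RS_nonneg hG) p1 q1 p2 q2 p3 q3

/-- Copy of `ss` (file `H18GB2/BXM.lean`): `box_cut`, `bxmR`, `adm_sumR`. -/
theorem ssR (ε : ℝ) (hε : 0 < ε) : ∃ w0 : ℕ, ∀ w W : ℕ, w0 ≤ w → IsW w W → ∃ N0 : ℕ,
    ∀ N : ℕ, N0 ≤ N → ∀ (r1 r2 σ : ℤ), |r1| < 2 * W → IsCoprime r1 (W : ℤ) → |r2| < 2 * W →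
    IsCoprime r2 (W : ℤ) → (σ = 1 ∨ σ = -1) → ∀ (F G F1 G1 : ℤ → ℝ), AdmR w W N F → AdmR w W N G →
    (∀ x, |F1 x| ≤ F x) → (∀ y, |G1 y| ≤ G y) →
    |∑ x ∈ Finset.Ico (0 : ℤ) N, ∑ y ∈ Finset.Ico (0 : ℤ) N,
      F1 x * G1 y * ker W r1 r2 σ x y| ≤ ε * N ^ 2 := by
  obtain ⟨C, hC, w1, hsum⟩ := adm_sumR
  obtain ⟨w2, hbx⟩ := bxmR (ε ^ 4 / C ^ 4) (by positivity)
  refine ⟨max w1 w2, fun w W hw hW => ?_⟩
  obtain ⟨N1, hN1⟩ := hsum w W ((le_max_left _ _).trans hw) hW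
  obtain ⟨N2, hN2⟩ := hbx w W ((le_max_right _ _).trans hw) hW
  refine ⟨max N1 N2, fun N hN r1 r2 σ a1 a2 a3 a4 a5 F G F1 G1 hF hG hF1 hG1 => ?_⟩
  have f1 : N1 ≤ N := (le_max_left _ _).trans hN
  have f2 : N2 ≤ N := (le_max_right _ _).trans hN
  have s1 := hN1 N f1 F hF
  have s2 := hN1 N f1 G hG
  have hb := hN2 N f2 r1 r2 σ a1 a2 a3 a4 a5 F G hF hG
  have hcut := box_cut (N := N) (k := ker W r1 r2 σ) (F := F) (F1 := F1) (G := G) (G1 := G1)
    (fun x _ => hF1 x) (fun y _ => hG1 y)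
  have t1 : 0 ≤ ∑ x ∈ Finset.Ico (0 : ℤ) N, F x := Finset.sum_nonneg fun x _ => RS_nonneg hF x
  have t2 : 0 ≤ ∑ x ∈ Finset.Ico (0 : ℤ) N, G x := Finset.sum_nonneg fun x _ => RS_nonneg hG x
  have hfin : (∑ x ∈ Finset.Ico (0 : ℤ) N, ∑ y ∈ Finset.Ico (0 : ℤ) N,
      F1 x * G1 y * ker W r1 r2 σ x y) ^ 4 ≤ (ε * N ^ 2) ^ 4 := by
    refine hcut.trans ?_
    have u1 : (∑ x ∈ Finset.Ico (0 : ℤ) N, F x) ^ 2 ≤ (C * N) ^ 2 := pow_le_pow_left₀ t1 s1 2
    have u2 : (∑ x ∈ Finset.Ico (0 : ℤ) N, G x) ^ 2 ≤ (C * N) ^ 2 := pow_le_pow_left₀ t2 s2 2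
    calc (∑ x ∈ Finset.Ico (0 : ℤ) N, F x) ^ 2 * (∑ y ∈ Finset.Ico (0 : ℤ) N, G y) ^ 2 *
          box N (ker W r1 r2 σ) F G
        ≤ (∑ x ∈ Finset.Ico (0 : ℤ) N, F x) ^ 2 * (∑ y ∈ Finset.Ico (0 : ℤ) N, G y) ^ 2 *
          (ε ^ 4 / C ^ 4 * N ^ 4) := mul_le_mul_of_nonneg_left hb (by positivity)
      _ ≤ (C * N) ^ 2 * (C * N) ^ 2 * (ε ^ 4 / C ^ 4 * N ^ 4) := by
          apply mul_le_mul_of_nonneg_right _ (by positivity)
          exact mul_le_mul u1 u2 (by positivity) (by positivity)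
      _ = (ε * N ^ 2) ^ 4 := by
          have : C ≠ 0 := by positivity
          field_simp
  have h4 : |∑ x ∈ Finset.Ico (0 : ℤ) N, ∑ y ∈ Finset.Ico (0 : ℤ) N,
      F1 x * G1 y * ker W r1 r2 σ x y| ^ 4 ≤ (ε * N ^ 2) ^ 4 := by
    rw [Even.pow_abs (by decide)]
    exact hfin
  exact le_of_pow_le_pow_left₀ (by norm_num) (by positivity) h4

end Pool.Agent.Lib.H18C
end

-- from Lib.H18C.R3
section

/-!
# Chunk R3: one step from a large class
-/

open Finset Pool.Agent.Lib.Sieve Pool.Agent.Lib.GoldbachGraph Pool.Agent.Lib.H18GB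

namespace Pool.Agent.Lib.H18C

/-- Copy of `gr3` (file `H18GB/GR3.lean`; see also `ga1` in `H18GB2/GA.lean`): `ssR` with the weight `F` of
`StartW` and `G = 1_B` (admissible, bounded by `1`), `σ = 1` and `σ = -1`, `r1 = y0 + z0`,
`r2 = σ (y0 - z0)`. If there is no edge then `(∑ F) (|B| - 1) ≤ 2 ε' N^2` (`no_edge_bound` in
`GRAux.lean`, `log_sq_le`; as in `ga1`). -/
theorem gr3R (ε : ℝ) (hε : 0 < ε) : ∃ w0 : ℕ, ∀ w W : ℕ, w0 ≤ w → IsW w W → ∃ N0 : ℕ,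
    ∀ N : ℕ, N0 ≤ N → ∀ (A : Finset ℕ) (y0 z0 : ℕ), z0 < W → Comp W z0 y0 →
    StartW w W N A y0 ε → ∀ B : Finset ℕ, B ⊆ Finset.Ico 1 N → ε * N ≤ B.card →
    ∃ y ∈ Finset.Ico 1 N, y0 + W * y ∈ A ∧ ∃ z ∈ B, hadj (y0 + W * y) (z0 + W * z) := by
  classical
  obtain ⟨w1, hw1⟩ := ssR (ε ^ 2 / 4) (by positivity)
  refine ⟨max w1 2, fun w W hw hW => ?_⟩
  obtain ⟨N1, hN1⟩ := hw1 w W (le_trans (le_max_left _ _) hw) hW
  refine ⟨max N1 1, fun N hN A y0 z0 hz0 hzy hS B hB hBc => ?_⟩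
  have hNN1 : N1 ≤ N := le_trans (le_max_left _ _) hN
  have hNpos : 1 ≤ N := le_trans (le_max_right _ _) hN
  have hNR : (1 : ℝ) ≤ N := by exact_mod_cast hNpos
  have h2W : 2 ∣ W := (hW.2 2 Nat.prime_two).mpr (le_trans (le_max_right _ _) hw)
  obtain ⟨hy0, F, hFA, hFs, hFsum⟩ := hS
  by_contra hcon
  push Not at hcon
  have hyz : Comp W (y0 : ℤ) (z0 : ℤ) := comp_comm hzy
  have hF0 := RS_nonneg hFA
  have hy0' : (y0 : ℤ) < W := by exact_mod_cast hy0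
  have hz0' : (z0 : ℤ) < W := by exact_mod_cast hz0
  have hr1 : |((y0 : ℤ) + z0)| < 2 * W := by
    rw [abs_lt]; constructor <;> omega
  have hr2 : |((y0 : ℤ) - z0)| < 2 * W := by
    rw [abs_lt]; constructor <;> omega
  have hr2' : |(-((y0 : ℤ) - z0))| < 2 * W := by rw [abs_neg]; exact hr2
  have hGA : AdmR w W N (indZ B) := Or.inl ⟨indZ_nonneg B, Or.inl fun x =>
    (le_abs_self _).trans (indZ_abs_le B x)⟩
  have k1 := hN1 N hNN1 ((y0 : ℤ) + z0) ((y0 : ℤ) - z0) 1 hr1 hyz.1 hr2 hyz.2 (Or.inl rfl)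
    F (indZ B) F (indZ B) hFA hGA (fun x => (abs_of_nonneg (hF0 x)).le)
    (fun x => (abs_of_nonneg (indZ_nonneg B x)).le)
  have k2 := hN1 N hNN1 ((y0 : ℤ) + z0) (-((y0 : ℤ) - z0)) (-1) hr1 hyz.1 hr2' hyz.2.neg_left
    (Or.inr rfl) F (indZ B) F (indZ B) hFA hGA (fun x => (abs_of_nonneg (hF0 x)).le)
    (fun x => (abs_of_nonneg (indZ_nonneg B x)).le)
  have hedge : ∀ x ∈ Finset.Ico (0 : ℤ) N, ∀ y ∈ Finset.Ico (0 : ℤ) N,
      F x * indZ B y ≠ 0 →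
      lamv W (((y0 : ℤ) + z0) + W * (x + y)) * lamv W (((y0 : ℤ) - z0) + W * (x - y)) = 0 := by
    intro x _ y _ hne
    by_contra hc
    obtain ⟨hFx, hGy⟩ := mul_ne_zero_iff.mp hne
    obtain ⟨z, hzB, rfl⟩ := indZ_ne hGy
    obtain ⟨m, hm, rfl, hmA⟩ := hFs x hFx
    exact hcon m hm hmA z hzB (hadj_of_lamv h2W hyz hc)
  have hbound := no_edge_bound hF0 (indZ_nonneg B) hedge k1 k2
  rw [sum_indZ hB] at hbound
  have h9 : ε * N * (ε * N) ≤ 2 * (ε ^ 2 / 4 * N ^ 2) := by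
    refine le_trans ?_ hbound
    apply mul_le_mul hFsum hBc (by positivity)
    exact Finset.sum_nonneg fun x _ => hF0 x
  have h10 : 0 < ε ^ 2 * (N : ℝ) ^ 2 := by positivity
  nlinarith

end Pool.Agent.Lib.H18C
end

-- from Lib.H18C.RA
section

/-!
# Chunk RA: from a large class to almost all links
-/

open Finset Pool.Agent.Lib.Sieve Pool.Agent.Lib.GoldbachGraph Pool.Agent.Lib.H18GB

namespace Pool.Agent.Lib.H18C

open Classical in
/-- Copy of `ga1` (file `H18GB2/GA.lean`) with the weight `F` of `StartW` and `ssR` instead of `ss`;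
`hadj X (y0 + W y)` becomes `y0 + W y ∈ A`. -/
theorem ga1R (ε : ℝ) (hε : 0 < ε) : ∃ w0 : ℕ, ∀ w W : ℕ, w0 ≤ w → IsW w W → ∃ N0 : ℕ,
    ∀ N : ℕ, N0 ≤ N → ∀ (A : Finset ℕ) (y0 v0 d : ℕ), v0 + 3 < W →
    (d = 0 ∨ d = 3) → IsCoprime (2 * (v0 : ℤ) + 3) W → Comp W (v0 + d) y0 →
    StartW w W N A y0 ε →
    ∑ v ∈ (Finset.Ico 1 N).filter (fun v => ¬ ∃ y ∈ Finset.Ico 1 N, y0 + W * y ∈ A ∧
      hadj (y0 + W * y) (v0 + d + W * v)), sg W v0 v ≤ ε * N := by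
  obtain ⟨w1, hw1⟩ := ssR (ε ^ 2 / 2) (by positivity)
  refine ⟨max w1 2, fun w W hw hW => ?_⟩
  obtain ⟨N1, hN1⟩ := hw1 w W (le_trans (le_max_left _ _) hw) hW
  refine ⟨max N1 1, fun N hN A y0 v0 d hv0 hd _ hvy hS => ?_⟩
  have hNN1 : N1 ≤ N := le_trans (le_max_left _ _) hN
  have hNpos : 1 ≤ N := le_trans (le_max_right _ _) hN
  have hNR : (1 : ℝ) ≤ N := by exact_mod_cast hNpos
  have h2W : 2 ∣ W := (hW.2 2 Nat.prime_two).mpr (le_trans (le_max_right _ _) hw)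
  obtain ⟨hy0, F, hFA, hFs, hFsum⟩ := hS
  set Z := (Finset.Ico 1 N).filter (fun v => ¬ ∃ y ∈ Finset.Ico 1 N, y0 + W * y ∈ A ∧
      hadj (y0 + W * y) (v0 + d + W * v)) with hZdef
  have hZsub : Z ⊆ Finset.Ico 1 N := Finset.filter_subset _ _
  set z0 : ℕ := v0 + d with hz0def
  have hz0 : z0 < W := by rcases hd with rfl | rfl <;> omega
  have hyz : Comp W (y0 : ℤ) (z0 : ℤ) := by
    have h := comp_comm hvy
    have e : ((z0 : ℕ) : ℤ) = (v0 : ℤ) + d := by rw [hz0def]; push_cast; ring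
    rw [e]
    exact h
  have hF0 := RS_nonneg hFA
  have hy0' : (y0 : ℤ) < W := by exact_mod_cast hy0
  have hz0' : (z0 : ℤ) < W := by exact_mod_cast hz0
  have hr1 : |((y0 : ℤ) + z0)| < 2 * W := by
    rw [abs_lt]; constructor <;> omega
  have hr2 : |((y0 : ℤ) - z0)| < 2 * W := by
    rw [abs_lt]; constructor <;> omega
  have hr2' : |(-((y0 : ℤ) - z0))| < 2 * W := by rw [abs_neg]; exact hr2
  -- the second weight
  set G : ℤ → ℝ := fun x => lamv W (2 * W * x + ((2 * v0 + 3 : ℕ) : ℤ)) * indZ Z x with hGdef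
  have hG0 : ∀ x, 0 ≤ G x := fun x => mul_nonneg (lamv_nonneg' _ _) (indZ_nonneg _ _)
  have hGf : ∀ x, G x ≤ lamv W (2 * W * x + ((2 * v0 + 3 : ℕ) : ℤ)) := by
    intro x
    have h1 := indZ_abs_le Z x
    rw [abs_of_nonneg (indZ_nonneg _ _)] at h1
    exact mul_le_of_le_one_right (lamv_nonneg' _ _) h1
  have hGA : AdmR w W N G := by
    refine Or.inl ⟨hG0, Or.inr (Or.inl ⟨((2 * v0 + 3 : ℕ) : ℤ), ?_, hGf⟩)⟩
    rw [abs_of_nonneg (Int.natCast_nonneg _)]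
    push_cast
    omega
  have k1 := hN1 N hNN1 ((y0 : ℤ) + z0) ((y0 : ℤ) - z0) 1 hr1 hyz.1 hr2 hyz.2 (Or.inl rfl)
    F G F G hFA hGA (fun x => (abs_of_nonneg (hF0 x)).le) (fun x => (abs_of_nonneg (hG0 x)).le)
  have k2 := hN1 N hNN1 ((y0 : ℤ) + z0) (-((y0 : ℤ) - z0)) (-1) hr1 hyz.1 hr2' hyz.2.neg_left
    (Or.inr rfl) F G F G hFA hGA (fun x => (abs_of_nonneg (hF0 x)).le)
    (fun x => (abs_of_nonneg (hG0 x)).le)
  have hedge : ∀ x ∈ Finset.Ico (0 : ℤ) N, ∀ y ∈ Finset.Ico (0 : ℤ) N,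
      F x * G y ≠ 0 →
      lamv W (((y0 : ℤ) + z0) + W * (x + y)) * lamv W (((y0 : ℤ) - z0) + W * (x - y)) = 0 := by
    intro x _ y _ hne
    by_contra hc
    obtain ⟨hFx, hGy⟩ := mul_ne_zero_iff.mp hne
    obtain ⟨z, hzB, rfl⟩ := indZ_ne (right_ne_zero_of_mul hGy)
    obtain ⟨m, hm, rfl, hmA⟩ := hFs x hFx
    have e2 : hadj (y0 + W * m) (z0 + W * z) := hadj_of_lamv h2W hyz hc
    exact (Finset.mem_filter.mp hzB).2 ⟨m, hm, hmA, e2⟩
  have hbound := no_edge_bound hF0 hG0 hedge k1 k2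
  have hGs : ∑ x ∈ Finset.Ico (0 : ℤ) N, G x = ∑ v ∈ Z, sg W v0 v := by
    rw [sum_Ico_int]
    have h1 : ∀ n ∈ Finset.range N, G (n : ℤ) = if n ∈ Z then sg W v0 n else 0 := by
      intro n _
      simp only [hGdef]
      rw [indZ_cast, sg_eq]
      split_ifs <;> simp
    rw [Finset.sum_congr rfl h1, Finset.sum_ite_mem]
    apply Finset.sum_congr _ (fun _ _ => rfl)
    apply Finset.inter_eq_right.mpr
    intro n hn
    have := Finset.mem_Ico.mp (hZsub hn)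
    exact Finset.mem_range.mpr this.2
  rw [hGs] at hbound
  have hS0 : 0 ≤ ∑ v ∈ Z, sg W v0 v := Finset.sum_nonneg fun v _ => sg_nonneg _ _ _
  have h9 : ε * N * (∑ v ∈ Z, sg W v0 v) ≤ 2 * (ε ^ 2 / 2 * N ^ 2) :=
    le_trans (mul_le_mul_of_nonneg_right hFsum hS0) hbound
  have h10 : (0 : ℝ) < ε * N := by positivity
  have h11 : ε * N * (∑ v ∈ Z, sg W v0 v) ≤ ε * N * (ε * N) :=
    h9.trans (le_of_eq (by ring))
  exact le_of_mul_le_mul_left h11 h10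

end Pool.Agent.Lib.H18C
end

-- from Lib.H18C.RG
section

/-!
# Chunk RG: assembly (large sets are connected in at most `5` steps)
-/

open Finset Pool.Agent.Lib.Sieve Pool.Agent.Lib.GoldbachGraph Pool.Agent.Lib.H18GB

namespace Pool.Agent.Lib.H18C

/-- `v` is at distance at most `k` from `A` -/
def Near (n : ℕ) (A : Finset ℕ) (v k : ℕ) : Prop := ∃ y ∈ A, (HG n).edist y v ≤ (k : ℕ∞)

theorem near_step {n : ℕ} {A : Finset ℕ} {b c k : ℕ} (h : Near n A b k) (hbc : (HG n).Adj b c) :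
    Near n A c (k + 1) := by
  obtain ⟨y, hy, h⟩ := h
  exact ⟨y, hy, gr6_step (HG n) h hbc⟩

/-- `A` and `A'` are at distance at most `k` -/
def Joined (n : ℕ) (A A' : Finset ℕ) (k : ℕ) : Prop :=
  ∃ y ∈ A, ∃ y' ∈ A', (HG n).edist y y' ≤ (k : ℕ∞)

theorem Joined.symm {n : ℕ} {A A' : Finset ℕ} {k : ℕ} (h : Joined n A A' k) : Joined n A' A k := by
  obtain ⟨y, hy, y', hy', h⟩ := h
  exact ⟨y', hy', y, hy, by rwa [SimpleGraph.edist_comm]⟩

theorem Joined.mono {n : ℕ} {A A' : Finset ℕ} {k l : ℕ} (h : Joined n A A' k) (hkl : k ≤ l) :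
    Joined n A A' l := by
  obtain ⟨y, hy, y', hy', h⟩ := h
  exact ⟨y, hy, y', hy', h.trans (by exact_mod_cast hkl)⟩

theorem near_join {n : ℕ} {A A' : Finset ℕ} {b k l : ℕ} (h : Near n A b k) (h' : Near n A' b l) :
    Joined n A A' (k + l) := by
  obtain ⟨y, hy, h⟩ := h
  obtain ⟨y', hy', h'⟩ := h'
  exact ⟨y, hy, y', hy', gr6_join (HG n) h h'⟩

open Classical in
/-- the elements `z ∈ [1, N)` with `z0 + W z` at distance at most `k` from `A` -/
noncomputable def rS (n W N : ℕ) (A : Finset ℕ) (z0 k : ℕ) : Finset ℕ :=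
  (Finset.Ico 1 N).filter fun z => Near n A (z0 + W * z) k

theorem rS_sub (n W N : ℕ) (A : Finset ℕ) (z0 k : ℕ) : rS n W N A z0 k ⊆ Finset.Ico 1 N := by
  classical
  unfold rS
  exact Finset.filter_subset _ _

theorem mem_rS {n W N : ℕ} {A : Finset ℕ} {z0 k z : ℕ} (h : z ∈ rS n W N A z0 k) :
    z ∈ Finset.Ico 1 N ∧ Near n A (z0 + W * z) k := by
  classical
  unfold rS at h
  exact Finset.mem_filter.mp h

/-- the input of the assembly -/
structure RCtx (n w W N : ℕ) (ε1 : ℝ) : Prop where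
  hw : 7 ≤ w
  hW : IsW w W
  hWN : W * N ≤ n
  hn : n ≤ 2 * W * N
  hN : 40 ≤ N
  hε1 : ε1 ≤ 1 / 10
  p3 : ∀ (A : Finset ℕ) (y0 z0 : ℕ), z0 < W → Comp W z0 y0 → StartW w W N A y0 ε1 →
    ∀ B : Finset ℕ, B ⊆ Finset.Ico 1 N → ε1 * N ≤ B.card →
    ∃ y ∈ Finset.Ico 1 N, y0 + W * y ∈ A ∧ ∃ z ∈ B, hadj (y0 + W * y) (z0 + W * z)
  p4 : ∀ x0 y0 : ℕ, x0 < W → y0 < W → Comp W x0 y0 →
    ∀ A B : Finset ℕ, A ⊆ Finset.Ico 1 N → B ⊆ Finset.Ico 1 N → 1 / 10 * (N : ℝ) ≤ A.card →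
    1 / 10 * (N : ℝ) ≤ B.card → ∃ x ∈ A, ∃ y ∈ B, hadj (x0 + W * x) (y0 + W * y)
  tot : ∀ v0 : ℕ, v0 + 3 < W → IsCoprime (2 * (v0 : ℤ) + 3) W →
    (N : ℝ) / 2 ≤ ∑ v ∈ Finset.Ico 1 N, sg W v0 v
  t2 : ∀ z0 v0 d : ℕ, z0 < W → v0 + 3 < W → (d = 0 ∨ d = 3) →
    IsCoprime (2 * (v0 : ℤ) + 3) W → Comp W z0 (v0 + d) → ∀ B : Finset ℕ, B ⊆ Finset.Ico 1 N →
    1 / 4 * (N : ℝ) ≤ (B.card : ℝ) → ∀ S : Finset ℕ, (∀ v ∈ S, v ∈ Finset.Ico 1 N ∧
      ¬ ∃ z ∈ B, hadj (v0 + d + W * v) (z0 + W * z)) → ∑ v ∈ S, sg W v0 v ≤ 1 / 8 * N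
  ga : ∀ (A : Finset ℕ) (y0 v0 d : ℕ), v0 + 3 < W → (d = 0 ∨ d = 3) →
    IsCoprime (2 * (v0 : ℤ) + 3) W → Comp W (v0 + d) y0 → StartW w W N A y0 ε1 →
    ∀ S : Finset ℕ, (∀ v ∈ S, v ∈ Finset.Ico 1 N ∧
      ¬ ∃ y ∈ Finset.Ico 1 N, y0 + W * y ∈ A ∧ hadj (y0 + W * y) (v0 + d + W * v)) →
      ∑ v ∈ S, sg W v0 v ≤ 1 / 8 * N

/-- a good start -/
def rGood (w W N : ℕ) (ε1 : ℝ) (X : ℕ) (A : Finset ℕ) (y0 : ℕ) : Prop :=
  Comp W X y0 ∧ StartW w W N A y0 ε1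

theorem RCtx.mem {n w W N : ℕ} {ε1 : ℝ} (h : RCtx n w W N ε1) {y0 y : ℕ} (hy0 : y0 < W)
    (hy : y ∈ Finset.Ico 1 N) : y0 + W * y ∈ Finset.Icc 1 n := by
  rw [Finset.mem_Ico] at hy
  rw [Finset.mem_Icc]
  have hW0 := h.hW.1
  have h1 : W * y + W ≤ W * N := by
    calc W * y + W = W * (y + 1) := by ring
      _ ≤ W * N := Nat.mul_le_mul_left _ hy.2
  have h2 : W * 1 ≤ W * y := Nat.mul_le_mul_left _ hy.1
  have := h.hWN
  omega

theorem r_compl {n W N z0 k : ℕ} {A : Finset ℕ} {c : ℝ}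
    (h : ∀ B : Finset ℕ, B ⊆ Finset.Ico 1 N → c * N ≤ B.card →
      ∃ z ∈ B, Near n A (z0 + W * z) k) :
    (1 - c) * N - 1 ≤ (rS n W N A z0 k).card := by
  classical
  by_contra hcon
  push Not at hcon
  have h1 : (rS n W N A z0 k).card + ((Finset.Ico 1 N).filter
      fun z => ¬ Near n A (z0 + W * z) k).card = (Finset.Ico 1 N).card := by
    unfold rS
    exact Finset.card_filter_add_card_filter_not _
  rw [Nat.card_Ico] at h1
  have h2 : (N : ℝ) - 1 ≤ ((N - 1 : ℕ) : ℝ) := by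
    rcases Nat.eq_zero_or_pos N with h0 | h0
    · rw [h0]; simp
    · rw [Nat.cast_sub h0]; simp
  have h3 : ((rS n W N A z0 k).card : ℝ) + (((Finset.Ico 1 N).filter
      fun z => ¬ Near n A (z0 + W * z) k).card : ℝ) = ((N - 1 : ℕ) : ℝ) := by
    exact_mod_cast h1
  obtain ⟨z, hz, hz2⟩ := h _ (Finset.filter_subset _ _) (by
    have : c * N ≤ (((Finset.Ico 1 N).filter
      fun z => ¬ Near n A (z0 + W * z) k).card : ℝ) := by linarith
    exact this)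
  exact (Finset.mem_filter.mp hz).2 hz2

theorem RCtx.two {n w W N : ℕ} {ε1 : ℝ} (h : RCtx n w W N ε1) {X y0 z0 : ℕ} {A : Finset ℕ}
    (hg : rGood w W N ε1 X A y0) (hz0 : z0 < W) (hc : Comp W z0 y0) :
    9 / 10 * (N : ℝ) - 1 ≤ (rS n W N A z0 1).card := by
  have h1 : (1 - ε1) * N - 1 ≤ ((rS n W N A z0 1).card : ℝ) := by
    refine r_compl fun B hB hB2 => ?_
    obtain ⟨y, hy, ha, z, hz, hb⟩ := h.p3 A y0 z0 hz0 hc hg.2 B hB hB2
    refine ⟨z, hz, ?_⟩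
    have s0 : Near n A (y0 + W * y) 0 := ⟨_, ha, by simp⟩
    exact near_step s0 (c := z0 + W * z) ⟨hb, h.mem hg.2.lt hy, h.mem hz0 (hB hz)⟩
  have h2 : (9 / 10 : ℝ) * N ≤ (1 - ε1) * N := by
    have := h.hε1
    have hN : (0 : ℝ) ≤ N := Nat.cast_nonneg _
    nlinarith
  linarith

theorem RCtx.succ {n w W N : ℕ} {ε1 : ℝ} (h : RCtx n w W N ε1) {z1 z0 k : ℕ} {A : Finset ℕ}
    (hz1 : z1 < W) (hz0 : z0 < W) (hc : Comp W z1 z0)
    (hS : 1 / 10 * (N : ℝ) ≤ (rS n W N A z1 k).card) :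
    9 / 10 * (N : ℝ) - 1 ≤ (rS n W N A z0 (k + 1)).card := by
  have h1 : (1 - 1 / 10) * (N : ℝ) - 1 ≤ ((rS n W N A z0 (k + 1)).card : ℝ) := by
    refine r_compl fun B hB hB2 => ?_
    obtain ⟨x, hx, y, hy, hxy⟩ := h.p4 z1 z0 hz1 hz0 hc _ B (rS_sub _ _ _ _ _ _) hB hS hB2
    refine ⟨y, hy, ?_⟩
    have hx := mem_rS hx
    exact near_step hx.2 ⟨hxy, h.mem hz1 hx.1, h.mem hz0 (hB hy)⟩
  linarith

theorem RCtx.meet {n w W N : ℕ} {ε1 : ℝ} (h : RCtx n w W N ε1) {z0 k l : ℕ} {A A' : Finset ℕ}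
    (hS : 9 / 10 * (N : ℝ) - 1 ≤ (rS n W N A z0 k).card)
    (hS' : 9 / 10 * (N : ℝ) - 1 ≤ (rS n W N A' z0 l).card) :
    Joined n A A' (k + l) := by
  classical
  have hN : (40 : ℝ) ≤ N := by exact_mod_cast h.hN
  have h1 : (rS n W N A z0 k ∩ rS n W N A' z0 l).Nonempty := by
    rw [← Finset.card_pos]
    have h2 := Finset.card_union_add_card_inter (rS n W N A z0 k) (rS n W N A' z0 l)
    have h3 : (rS n W N A z0 k ∪ rS n W N A' z0 l).card ≤ N := by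
      refine (Finset.card_le_card (Finset.union_subset (rS_sub _ _ _ _ _ _)
        (rS_sub _ _ _ _ _ _))).trans ?_
      rw [Nat.card_Ico]
      omega
    have h4 : (((rS n W N A z0 k ∪ rS n W N A' z0 l).card : ℕ) : ℝ) +
        ((rS n W N A z0 k ∩ rS n W N A' z0 l).card : ℕ) =
        ((rS n W N A z0 k).card : ℕ) + ((rS n W N A' z0 l).card : ℕ) := by exact_mod_cast h2
    have h5 : (((rS n W N A z0 k ∪ rS n W N A' z0 l).card : ℕ) : ℝ) ≤ N := by
      exact_mod_cast h3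
    have h6 : (0 : ℝ) < ((rS n W N A z0 k ∩ rS n W N A' z0 l).card : ℕ) := by linarith
    exact_mod_cast h6
  obtain ⟨z, hz⟩ := h1
  rw [Finset.mem_inter] at hz
  exact near_join (mem_rS hz.1).2 (mem_rS hz.2).2

/-- same type -/
theorem RCtx.four {n w W N : ℕ} {ε1 : ℝ} (h : RCtx n w W N ε1) {X X' y0 y0' : ℕ}
    {A A' : Finset ℕ} (hg : rGood w W N ε1 X A y0)
    (hg' : rGood w W N ε1 X' A' y0') (h2 : (X : ℤ) % 2 = (X' : ℤ) % 2)
    (h3 : (3 : ℤ) ∣ X ↔ (3 : ℤ) ∣ X') : Joined n A A' 2 := by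
  have hw3 : 3 ≤ w := by have := h.hw; omega
  have c1 := comp_parity hw3 h.hW hg.1
  have c2 := comp_parity hw3 h.hW hg'.1
  obtain ⟨z0, hz0, e1, e2⟩ := comp_common hw3 h.hW (y0 : ℤ) (y0' : ℤ) (by omega) (by tauto)
  exact h.meet (h.two hg hz0 (comp_comm e1)) (h.two hg' hz0 (comp_comm e2))

/-- opposite types -/
theorem RCtx.five {n w W N : ℕ} {ε1 : ℝ} (h : RCtx n w W N ε1) {X X' y0 y0' : ℕ}
    {A A' : Finset ℕ} (hg : rGood w W N ε1 X A y0)
    (hg' : rGood w W N ε1 X' A' y0') (h2 : (X : ℤ) % 2 ≠ (X' : ℤ) % 2)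
    (h3 : (3 : ℤ) ∣ X ↔ ¬ (3 : ℤ) ∣ X') : Joined n A A' 3 := by
  have hw3 : 3 ≤ w := by have := h.hw; omega
  have hN : (40 : ℝ) ≤ N := by exact_mod_cast h.hN
  have c1 := comp_parity hw3 h.hW hg.1
  have c2 := comp_parity hw3 h.hW hg'.1
  obtain ⟨z1, hz1, e1, -⟩ := comp_common hw3 h.hW (y0' : ℤ) (y0' : ℤ) rfl Iff.rfl
  have c3 := comp_parity hw3 h.hW e1
  obtain ⟨z0, hz0, e2, e3⟩ := comp_common hw3 h.hW (y0 : ℤ) (z1 : ℤ) (by omega) (by omega)
  have s1 := h.two hg hz0 (comp_comm e2)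
  have s2 := h.two hg' hz1 (comp_comm e1)
  have s3 := h.succ (A := A') (k := 1) hz1 hz0 e3 (by linarith)
  exact h.meet s1 s3

/-- two steps to a class compatible with `v` -/
theorem RCtx.reach {n w W N : ℕ} {ε1 : ℝ} (h : RCtx n w W N ε1) {X y0 : ℕ}
    {A : Finset ℕ} (hg : rGood w W N ε1 X A y0) (v : ℤ) (hv3 : ¬ (3 : ℤ) ∣ v)
    (hcl : v % 2 = (X : ℤ) % 2 ↔ ¬ (3 : ℤ) ∣ X) :
    ∃ z0 : ℕ, z0 < W ∧ Comp W v z0 ∧ (N : ℝ) / 2 ≤ (rS n W N A z0 2).card := by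
  have hw3 : 3 ≤ w := by have := h.hw; omega
  have hN : (40 : ℝ) ≤ N := by exact_mod_cast h.hN
  have c1 := comp_parity hw3 h.hW hg.1
  by_cases h3 : (3 : ℤ) ∣ X
  · have c4 : v % 2 ≠ (X : ℤ) % 2 := fun h5 => (hcl.mp h5) h3
    obtain ⟨z0, hz0, e1, e2⟩ := comp_common hw3 h.hW (y0 : ℤ) v (by omega) (by tauto)
    refine ⟨z0, hz0, e2, ?_⟩
    have s1 := h.two hg hz0 (comp_comm e1)
    have s2 : (rS n W N A z0 1).card ≤ (rS n W N A z0 2).card := by
      apply Finset.card_le_card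
      classical
      intro z hz
      unfold rS at hz ⊢
      rw [Finset.mem_filter] at hz ⊢
      obtain ⟨hz, y, hy, h4⟩ := hz
      exact ⟨hz, y, hy, h4.trans (by norm_num)⟩
    have s3 : ((rS n W N A z0 1).card : ℝ) ≤ (rS n W N A z0 2).card := by exact_mod_cast s2
    linarith
  · have c4 : v % 2 = (X : ℤ) % 2 := hcl.mpr h3
    obtain ⟨z1, hz1, e1, -⟩ := comp_common hw3 h.hW (y0 : ℤ) (y0 : ℤ) rfl Iff.rfl
    have c3 := comp_parity hw3 h.hW e1
    obtain ⟨z0, hz0, e2, e3⟩ := comp_common hw3 h.hW (z1 : ℤ) v (by omega) (by tauto)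
    refine ⟨z0, hz0, e3, ?_⟩
    have s1 := h.two hg hz1 (comp_comm e1)
    have s2 := h.succ (A := A) (k := 1) hz1 hz0 e2 (by linarith)
    linarith

open Classical in
/-- mass of the link ends `v0 + d + W v` at distance more than `k` from `A` -/
noncomputable def rM (n W N : ℕ) (A : Finset ℕ) (v0 d k : ℕ) : ℝ :=
  ∑ v ∈ (Finset.Ico 1 N).filter (fun v => ¬ Near n A (v0 + d + W * v) k), sg W v0 v

theorem RCtx.memV {n w W N : ℕ} {ε1 : ℝ} (h : RCtx n w W N ε1) {v0 d v : ℕ}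
    (hv0 : v0 + 3 < W) (hd : d = 0 ∨ d = 3) (hv : v ∈ Finset.Ico 1 N) :
    v0 + d + W * v ∈ Finset.Icc 1 n :=
  h.mem (by rcases hd with rfl | rfl <;> omega) hv

theorem RCtx.one {n w W N : ℕ} {ε1 : ℝ} (h : RCtx n w W N ε1) {X y0 v0 d : ℕ} {A : Finset ℕ}
    (hg : rGood w W N ε1 X A y0) (hv0 : v0 + 3 < W)
    (hd : d = 0 ∨ d = 3) (hvc : IsCoprime (2 * (v0 : ℤ) + 3) W) (hc : Comp W (v0 + d) y0) :
    rM n W N A v0 d 1 ≤ 1 / 8 * N := by
  classical
  unfold rM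
  refine h.ga A y0 v0 d hv0 hd hvc hc hg.2 _ ?_
  intro v hv
  rw [Finset.mem_filter] at hv
  refine ⟨hv.1, ?_⟩
  rintro ⟨y, hy, ha, hb⟩
  apply hv.2
  have s0 : Near n A (y0 + W * y) 0 := ⟨_, ha, by simp⟩
  exact near_step s0 (c := v0 + d + W * v) ⟨hb, h.mem hg.2.lt hy, h.memV hv0 hd hv.1⟩

theorem RCtx.ofSet {n w W N : ℕ} {ε1 : ℝ} (h : RCtx n w W N ε1) {z0 v0 d k : ℕ} {A : Finset ℕ}
    (hz0 : z0 < W) (hv0 : v0 + 3 < W)
    (hd : d = 0 ∨ d = 3) (hvc : IsCoprime (2 * (v0 : ℤ) + 3) W) (hc : Comp W z0 (v0 + d))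
    (hS : 1 / 4 * (N : ℝ) ≤ (rS n W N A z0 k).card) :
    rM n W N A v0 d (k + 1) ≤ 1 / 8 * N := by
  classical
  unfold rM
  refine h.t2 z0 v0 d hz0 hv0 hd hvc hc (rS n W N A z0 k) (rS_sub _ _ _ _ _ _) hS _ ?_
  intro v hv
  rw [Finset.mem_filter] at hv
  refine ⟨hv.1, ?_⟩
  rintro ⟨z, hz, ha⟩
  apply hv.2
  have hz := mem_rS hz
  exact near_step hz.2 (c := v0 + d + W * v)
    ⟨(hadj_comm _ _).mp ha, h.mem hz0 hz.1, h.memV hv0 hd hv.1⟩

theorem RCtx.meetV {n w W N : ℕ} {ε1 : ℝ} (h : RCtx n w W N ε1) {v0 k l : ℕ} {A A' : Finset ℕ}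
    (hv0 : v0 + 3 < W) (hvc : IsCoprime (2 * (v0 : ℤ) + 3) W)
    (hS : rM n W N A v0 0 k ≤ 1 / 8 * N) (hS' : rM n W N A' v0 3 l ≤ 1 / 8 * N) :
    Joined n A A' (k + 1 + l) := by
  classical
  have hN : (40 : ℝ) ≤ N := by exact_mod_cast h.hN
  obtain ⟨v, hv, hsg, h1, h2⟩ : ∃ v ∈ Finset.Ico 1 N, sg W v0 v ≠ 0 ∧
      Near n A (v0 + 0 + W * v) k ∧ Near n A' (v0 + 3 + W * v) l := by
    by_contra hcon
    push Not at hcon
    have h3 : ∑ v ∈ Finset.Ico 1 N, sg W v0 v ≤ rM n W N A v0 0 k + rM n W N A' v0 3 l := by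
      unfold rM
      rw [Finset.sum_filter, Finset.sum_filter, ← Finset.sum_add_distrib]
      refine Finset.sum_le_sum fun v hv => ?_
      have h0 := sg_nonneg W v0 v
      by_cases e0 : sg W v0 v = 0
      · rw [e0]; simp
      by_cases e1 : Near n A (v0 + 0 + W * v) k
      · have e2 := hcon v hv e0 e1
        rw [if_neg (not_not.mpr e1), if_pos e2, zero_add]
      · rw [if_pos e1]
        have : 0 ≤ (if ¬ Near n A' (v0 + 3 + W * v) l then sg W v0 v else 0) := by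
          split_ifs <;> first | exact h0 | exact le_rfl
        linarith
    have h4 := h.tot v0 hv0 hvc
    linarith
  have hp := sg_ne hsg
  have m1 := h.memV hv0 (Or.inl rfl) hv
  have m2 := h.memV hv0 (Or.inr rfl) hv
  have e5 : v0 + 3 + W * v = v0 + W * v + 3 := by ring
  rw [add_zero] at h1 m1
  have t2 := near_step h1 (c := v0 + 3 + W * v)
    ⟨by rw [e5]; exact ty3_link hp, m1, m2⟩
  exact near_join t2 h2

/-- two steps from a multiple of `3` to almost all link ends -/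
theorem RCtx.three {n w W N : ℕ} {ε1 : ℝ} (h : RCtx n w W N ε1) {X y0 v0 d : ℕ} {A : Finset ℕ}
    (hg : rGood w W N ε1 X A y0) (hv0 : v0 + 3 < W)
    (hd : d = 0 ∨ d = 3) (hvc : IsCoprime (2 * (v0 : ℤ) + 3) W) (h3 : (3 : ℤ) ∣ X)
    (hv3 : ¬ (3 : ℤ) ∣ ((v0 : ℤ) + d)) (hp : ((v0 : ℤ) + d) % 2 ≠ (X : ℤ) % 2) :
    rM n W N A v0 d 2 ≤ 1 / 8 * N := by
  have hw3 : 3 ≤ w := by have := h.hw; omega
  have hN : (40 : ℝ) ≤ N := by exact_mod_cast h.hN
  have c1 := comp_parity hw3 h.hW hg.1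
  obtain ⟨z0, hz0, e1, e2⟩ := comp_common hw3 h.hW (y0 : ℤ) ((v0 : ℤ) + d) (by omega)
    (by tauto)
  have s1 := h.two hg hz0 (comp_comm e1)
  exact h.ofSet hz0 hv0 hd hvc (comp_comm e2) (by linarith)

/-- three steps from a vertex prime to `3` to almost all link ends -/
theorem RCtx.fourV {n w W N : ℕ} {ε1 : ℝ} (h : RCtx n w W N ε1) {X y0 v0 d : ℕ} {A : Finset ℕ}
    (hg : rGood w W N ε1 X A y0) (hv0 : v0 + 3 < W)
    (hd : d = 0 ∨ d = 3) (hvc : IsCoprime (2 * (v0 : ℤ) + 3) W) (h3 : ¬ (3 : ℤ) ∣ X)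
    (hv3 : ¬ (3 : ℤ) ∣ ((v0 : ℤ) + d)) (hp : ((v0 : ℤ) + d) % 2 = (X : ℤ) % 2) :
    rM n W N A v0 d 3 ≤ 1 / 8 * N := by
  have hN : (40 : ℝ) ≤ N := by exact_mod_cast h.hN
  obtain ⟨z0, hz0, e1, s1⟩ := h.reach hg ((v0 : ℤ) + d) hv3 (by tauto)
  exact h.ofSet hz0 hv0 hd hvc (comp_comm e1) (by linarith)

/-- both multiples of `3` -/
theorem RCtx.case1 {n w W N : ℕ} {ε1 : ℝ} (h : RCtx n w W N ε1) {X X' y0 y0' : ℕ}
    {A A' : Finset ℕ} (hg : rGood w W N ε1 X A y0)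
    (hg' : rGood w W N ε1 X' A' y0') (h3 : (3 : ℤ) ∣ X) (h3' : (3 : ℤ) ∣ X')
    (h2 : (X : ℤ) % 2 ≠ (X' : ℤ) % 2) : Joined n A A' 5 := by
  obtain ⟨v, hv, hv2, hv3, hvc⟩ := exists_link (by have := h.hw; omega) h.hW (1 - (X : ℤ) % 2)
    (by omega)
  have s1 := h.three (v0 := v) (d := 0) hg hv (Or.inl rfl) hvc h3 (by simpa using hv3)
    (by push_cast; omega)
  have s2 := h.three (v0 := v) (d := 3) hg' hv (Or.inr rfl) hvc h3' (by push_cast; omega)
    (by push_cast; omega)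
  exact h.meetV hv hvc s1 s2

/-- the second vertex is prime to `3` -/
theorem RCtx.case2 {n w W N : ℕ} {ε1 : ℝ} (h : RCtx n w W N ε1) {X X' y0 y0' : ℕ}
    {A A' : Finset ℕ} (hg : rGood w W N ε1 X A y0)
    (hg' : rGood w W N ε1 X' A' y0') (h3' : ¬ (3 : ℤ) ∣ X')
    (h23 : (X : ℤ) % 2 = (X' : ℤ) % 2 ↔ (3 : ℤ) ∣ X) : Joined n A A' 5 := by
  have hw3 : 3 ≤ w := by have := h.hw; omega
  have c2 := comp_parity hw3 h.hW hg'.1
  obtain ⟨v, hv, hv3, hvc, hcomp⟩ := exists_link_comp h.hw h.hW (y0' : ℤ) 3 (Or.inr rfl)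
    (by tauto)
  have c3 := comp_parity hw3 h.hW hcomp
  have s2 := h.one (v0 := v) (d := 3) hg' hv (Or.inr rfl) hvc (comp_comm hcomp)
  by_cases h3 : (3 : ℤ) ∣ X
  · have s1 := h.three (v0 := v) (d := 0) hg hv (Or.inl rfl) hvc h3 (by simpa using hv3)
      (by
        have e1 := h23.mpr h3
        have e2 := c2.1
        have e3 := c3.1
        push_cast
        clear c2 c3 h23 h3 h3' hv3
        rcases Int.emod_two_eq_zero_or_one (X' : ℤ) with e | e <;> omega)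
    exact (h.meetV hv hvc s1 s2).mono (by norm_num)
  · have s1 := h.fourV (v0 := v) (d := 0) hg hv (Or.inl rfl) hvc h3 (by simpa using hv3)
      (by
        have e1 : ¬ (X : ℤ) % 2 = (X' : ℤ) % 2 := fun e => h3 (h23.mp e)
        have e2 := c2.1
        have e3 := c3.1
        push_cast
        clear c2 c3 h23 h3 h3' hv3
        rcases Int.emod_two_eq_zero_or_one (X' : ℤ) with e | e <;> omega)
    exact h.meetV hv hvc s1 s2

/-- the context exists -/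
theorem r_ctx (ε : ℝ) (hε : 0 < ε) : ∃ ε1 : ℝ, 0 < ε1 ∧ ∃ w : ℕ,
    ∃ n0 : ℕ, ∀ n : ℕ, n0 ≤ n →
    RCtx n w (primorial w) (n / primorial w) ε1 ∧
    ∀ (X : ℕ) (A : Finset ℕ), X ≤ n → Large ε n X A →
      ∃ y0 : ℕ, rGood w (primorial w) (n / primorial w) ε1 X A y0 := by
  classical
  obtain ⟨ε1, hε1, hε1a, hε1b⟩ : ∃ ε1 : ℝ, 0 < ε1 ∧ ε1 ≤ ε / 40 ∧ ε1 ≤ 1 / 10 :=
    ⟨min (ε / 40) (1 / 10), lt_min (by positivity) (by norm_num), min_le_left _ _, min_le_right _ _⟩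
  obtain ⟨w1, h3⟩ := gr3R ε1 hε1
  obtain ⟨w2, h4⟩ := gr4 (1 / 10) (by norm_num)
  obtain ⟨w4, h6⟩ := ga1R ε1 hε1
  obtain ⟨w5, h7⟩ := ty2' (1 / 4) (1 / 8) (by norm_num) (by norm_num)
  obtain ⟨w6, h8⟩ := sg_total
  obtain ⟨w, hwd⟩ : ∃ w : ℕ, w = w1 + w2 + w4 + w5 + w6 + 7 := ⟨_, rfl⟩
  refine ⟨ε1, hε1, w, ?_⟩
  have hW : IsW w (primorial w) := isW_primorial
  have hW0 := hW.1
  obtain ⟨N3, h3⟩ := h3 w (primorial w) (by omega) hW
  obtain ⟨N4, h4⟩ := h4 w (primorial w) (by omega) hW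
  obtain ⟨N6, h6⟩ := h6 w (primorial w) (by omega) hW
  obtain ⟨N7, h7⟩ := h7 w (primorial w) (by omega) hW
  obtain ⟨N8, h8⟩ := h8 w (primorial w) (by omega) hW
  obtain ⟨n2, h2⟩ := gr2R ε hε w (by omega)
  obtain ⟨n3, h2Z⟩ := gr2Z ε hε w (by omega)
  refine ⟨max (max n2 n3) (primorial w * (N3 + N4 + N6 + N7 + N8 + 40)), fun n hn => ?_⟩
  have hn2 : n2 ≤ n := ((le_max_left _ _).trans (le_max_left _ _)).trans hn
  have hn3 : n3 ≤ n := ((le_max_right _ _).trans (le_max_left _ _)).trans hn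
  have hnN : N3 + N4 + N6 + N7 + N8 + 40 ≤ n / primorial w := by
    rw [Nat.le_div_iff_mul_le hW0, mul_comm]
    exact (le_max_right _ _).trans hn
  have hWn : primorial w * (n / primorial w) ≤ n := Nat.mul_div_le _ _
  have hmono : ∀ (A : Finset ℕ) (y0 : ℕ) (c : ℝ), ε1 ≤ c →
      StartW w (primorial w) (n / primorial w) A y0 c →
      StartW w (primorial w) (n / primorial w) A y0 ε1 := by
    intro A y0 c hc hs
    obtain ⟨hlt, F, h1, h2, h3⟩ := hs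
    exact ⟨hlt, F, h1, h2, (mul_le_mul_of_nonneg_right hc (Nat.cast_nonneg _)).trans h3⟩
  refine ⟨⟨by omega, hW, hWn, ?_, by omega, hε1b, h3 _ (by omega), h4 _ (by omega),
    h8 _ (by omega), ?_, ?_⟩, ?_⟩
  · have h6 : n < primorial w * (n / primorial w) + primorial w := by
      have := Nat.lt_mul_div_succ n hW0
      linarith
    have h7 : primorial w * 1 ≤ primorial w * (n / primorial w) :=
      Nat.mul_le_mul_left _ (by omega)
    have h8 : 2 * primorial w * (n / primorial w) =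
      primorial w * (n / primorial w) + primorial w * (n / primorial w) := by ring
    omega
  · intro z0 v0 d hz0 hv0 hd hvc hc B hB hBc S hS
    refine le_trans (Finset.sum_le_sum_of_subset_of_nonneg ?_ fun _ _ _ => sg_nonneg _ _ _)
      (h7 _ (by omega) z0 v0 d hz0 hv0 hd hvc hc B hB hBc)
    intro v hv
    rw [Finset.mem_filter]
    exact hS v hv
  · intro A y0 v0 d hv0 hd hvc hc2 hD S hS
    refine le_trans (Finset.sum_le_sum_of_subset_of_nonneg ?_ fun _ _ _ => sg_nonneg _ _ _)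
      ((h6 _ (by omega) A y0 v0 d hv0 hd hvc hc2 hD).trans ?_)
    · intro v hv
      rw [Finset.mem_filter]
      exact hS v hv
    · exact mul_le_mul_of_nonneg_right (by linarith) (Nat.cast_nonneg _)
  · intro X A hX hL
    obtain ⟨hA, ⟨hX1, hr, hc⟩ | ⟨hX0, hp, hc⟩⟩ := hL
    · obtain ⟨y0, a1, a2⟩ := h2 n hn2 X (Finset.mem_Icc.mpr ⟨hX1, hX⟩) A hA hr hc
      exact ⟨y0, a1, hmono _ _ _ hε1a a2⟩
    · obtain ⟨y0, a1, a2⟩ := h2Z n hn3 A hA hp hc
      subst hX0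
      exact ⟨y0, by exact_mod_cast a1, hmono _ _ _ (by linarith) a2⟩

/-- **Large sets are joined in at most `5` steps.** -/
theorem chen_graph (ε : ℝ) (hε : 0 < ε) : ∃ n0 : ℕ, ∀ n : ℕ, n0 ≤ n →
    ∀ (X X' : ℕ) (A A' : Finset ℕ), X ≤ n → X' ≤ n → Large ε n X A → Large ε n X' A' →
    ∃ y ∈ A, ∃ y' ∈ A', (HG n).edist y y' ≤ 5 := by
  obtain ⟨ε1, hε1, w, n1, h⟩ := r_ctx ε hε
  refine ⟨n1, fun n hn X X' A A' hX hX' hd hd' => ?_⟩
  obtain ⟨hctx, hgood⟩ := h n hn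
  obtain ⟨y0, hg⟩ := hgood X A hX hd
  obtain ⟨y0', hg'⟩ := hgood X' A' hX' hd'
  have key : Joined n A A' 5 := by
    by_cases h2 : (X : ℤ) % 2 = (X' : ℤ) % 2
    · by_cases h3 : (3 : ℤ) ∣ X ↔ (3 : ℤ) ∣ X'
      · exact (hctx.four hg hg' h2 h3).mono (by norm_num)
      · by_cases h3' : (3 : ℤ) ∣ X'
        · exact (hctx.case2 hg' hg (by tauto) ⟨fun _ => h3', fun _ => h2.symm⟩).symm
        · exact hctx.case2 hg hg' h3' (by tauto)
    · by_cases h3 : (3 : ℤ) ∣ X ↔ ¬ (3 : ℤ) ∣ X'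
      · exact (hctx.five hg hg' h2 h3).mono (by norm_num)
      · by_cases h3' : (3 : ℤ) ∣ X'
        · exact hctx.case1 hg hg' (by tauto) h3' h2
        · exact hctx.case2 hg hg' h3' (by tauto)
  obtain ⟨y, hy, y', hy', h5⟩ := key
  exact ⟨y, hy, y', hy', h5⟩

end Pool.Agent.Lib.H18C
end

-- from Lib.H18C.Fin
section

/-!
# Chen edges and Goldbach edges: assembly for both families of graphs
-/

open Finset Pool.Agent.Lib.H18GB Pool.Agent.Lib.GoldbachGraph Pool.Agent.Goldbach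

namespace Pool.Agent.Lib.H18C

theorem fin_pow (b b' C D : ℝ) (hb' : 0 < b') (h : b' < b) :
    ∀ᶠ y : ℝ in Filter.atTop, C * y ^ b' + D ≤ y ^ b := by
  have h1 := tendsto_rpow_atTop (show 0 < b - b' by linarith)
  filter_upwards [h1.eventually_ge_atTop (|C| + |D|), Filter.eventually_ge_atTop (1 : ℝ)] with y hy hy1
  have hy0 : 0 < y := by linarith
  have h2 : y ^ b = y ^ b' * y ^ (b - b') := by
    rw [← Real.rpow_add hy0]; congr 1; ring
  have h3 : 1 ≤ y ^ b' := Real.one_le_rpow hy1 hb'.le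
  rw [h2]
  have h4 : y ^ b' * (|C| + |D|) ≤ y ^ b' * y ^ (b - b') :=
    mul_le_mul_of_nonneg_left hy (by linarith)
  have h5 : C * y ^ b' ≤ |C| * y ^ b' := mul_le_mul_of_nonneg_right (le_abs_self C) (by linarith)
  have h6 : D ≤ |D| * y ^ b' := by
    have := abs_nonneg D
    have := le_abs_self D
    nlinarith
  nlinarith

theorem fin_log (b C D : ℝ) (hb : 0 < b) :
    ∀ᶠ y : ℝ in Filter.atTop, C * Real.log y + D ≤ y ^ b := by
  filter_upwards [fin_pow b (b / 2) (|C| * (2 / b)) D (by linarith) (by linarith),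
    Filter.eventually_ge_atTop (1 : ℝ)] with y hy hy1
  have h1 := Real.log_le_rpow_div (by linarith : (0 : ℝ) ≤ y) (by linarith : 0 < b / 2)
  have h2 : 0 ≤ Real.log y := Real.log_nonneg hy1
  have h3 : C * Real.log y ≤ |C| * Real.log y := mul_le_mul_of_nonneg_right (le_abs_self C) h2
  have h4 : |C| * Real.log y ≤ |C| * (y ^ (b / 2) / (b / 2)) :=
    mul_le_mul_of_nonneg_left h1 (abs_nonneg C)
  have h5 : |C| * (y ^ (b / 2) / (b / 2)) = |C| * (2 / b) * y ^ (b / 2) := by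
    field_simp
  linarith

theorem fin_primes : ∃ n0 : ℕ, ∀ n : ℕ, n0 ≤ n → 2 ≤ n ∧
    (n : ℝ) / 2 ≤ (((Icc 1 n).filter Nat.Prime).card : ℝ) * Real.log n ∧ 100 * Real.log n ≤ n := by
  have hev : ∀ᶠ y : ℝ in Filter.atTop, 100 * Real.log y + 10 ≤ y ^ (1 / 4 : ℝ) ∧ 100 ≤ y := by
    filter_upwards [fin_log (1 / 4) 100 10 (by norm_num), Filter.eventually_ge_atTop (100 : ℝ)]
      with y h1 h2
    exact ⟨h1, h2⟩
  obtain ⟨n0, hn0⟩ := Filter.eventually_atTop.1 (tendsto_natCast_atTop_atTop.eventually hev)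
  refine ⟨n0, fun n hn => ?_⟩
  obtain ⟨h1, h2⟩ := hn0 n hn
  have hn0' : (0 : ℝ) < n := by linarith
  have hn2 : 2 ≤ n := by
    have : (2 : ℝ) ≤ n := by linarith
    exact_mod_cast this
  have hq : (n : ℝ) ^ (1 / 4 : ℝ) ≤ n := by
    calc (n : ℝ) ^ (1 / 4 : ℝ) ≤ (n : ℝ) ^ (1 : ℝ) :=
          Real.rpow_le_rpow_of_exponent_le (by linarith) (by norm_num)
      _ = n := Real.rpow_one _
  have hL0 : 0 ≤ Real.log n := Real.log_natCast_nonneg n
  refine ⟨hn2, ?_, by linarith⟩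
  have hth := Chebyshev.theta_ge n
  have h3 : 2 * Real.sqrt n * Real.log n ≤ n / 50 := by
    have h4 : Real.sqrt n * (n : ℝ) ^ (1 / 4 : ℝ) ≤ n := by
      rw [Real.sqrt_eq_rpow, ← Real.rpow_add hn0']
      calc (n : ℝ) ^ (1 / 2 + 1 / 4 : ℝ) ≤ (n : ℝ) ^ (1 : ℝ) :=
            Real.rpow_le_rpow_of_exponent_le (by linarith) (by norm_num)
        _ = n := Real.rpow_one _
    have h5 : 0 ≤ Real.sqrt n := Real.sqrt_nonneg _
    nlinarith
  have h4 : Real.log ((n : ℝ) + 1) ≤ n / 50 := by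
    have h5 : Real.log ((n : ℝ) + 1) ≤ Real.log (2 * n) := by
      apply Real.log_le_log (by linarith)
      linarith
    rw [Real.log_mul (by norm_num) hn0'.ne'] at h5
    have h6 := Real.log_two_lt_d9
    linarith
  have h5 : (n : ℝ) / 2 ≤ Chebyshev.theta n := by
    have h6 := Real.log_two_gt_d9
    nlinarith
  refine h5.trans ?_
  have h6 : Chebyshev.theta n = ∑ p ∈ (Icc 1 n).filter Nat.Prime, Real.log p := by
    unfold Chebyshev.theta
    rw [Nat.floor_natCast]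
    rfl
  rw [h6, ← nsmul_eq_mul]
  apply Finset.sum_le_card_nsmul
  intro p hp
  rw [mem_filter, mem_Icc] at hp
  apply Real.log_le_log
  · exact_mod_cast hp.2.pos
  · exact_mod_cast hp.1.2

/-- Every vertex has a large set of Chen neighbours. -/
theorem fin_large : ∃ ε : ℝ, 0 < ε ∧ ∃ n0 : ℕ, ∀ n : ℕ, n0 ≤ n → ∀ X : ℕ, X ≤ n →
    ∃ A : Finset ℕ, Large ε n X A ∧ ∀ y ∈ A, X ≠ y ∧
      ((IsOddPrime (X + y) ∧ IsOddAlmostPrime (Nat.dist X y)) ∨
        (IsOddAlmostPrime (X + y) ∧ IsOddPrime (Nat.dist X y))) := by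
  classical
  obtain ⟨c, hc, n1, h1⟩ := Pool.Agent.Lib.H59C.chen_nbrs
  obtain ⟨n2, h2⟩ := fin_primes
  refine ⟨min c (1 / 4), lt_min hc (by norm_num), max (max n1 n2) 2000, fun n hn X hX => ?_⟩
  have hn1 : n1 ≤ n := ((le_max_left _ _).trans (le_max_left _ _)).trans hn
  have hn2 : n2 ≤ n := ((le_max_right _ _).trans (le_max_left _ _)).trans hn
  have hn3 : 2000 ≤ n := (le_max_right _ _).trans hn
  have hnR : (2000 : ℝ) ≤ n := by exact_mod_cast hn3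
  have hlog : 0 < Real.log n := Real.log_pos (by linarith)
  have h10 : 2 < (n : ℝ) ^ (1 / 10 : ℝ) := by
    have h3 : ((2 : ℝ) ^ (10 : ℕ)) ^ (1 / 10 : ℝ) < (n : ℝ) ^ (1 / 10 : ℝ) := by
      apply Real.rpow_lt_rpow (by positivity) _ (by norm_num)
      norm_num
      linarith
    have h4 : ((2 : ℝ) ^ (10 : ℕ)) ^ (1 / 10 : ℝ) = 2 := by
      rw [← Real.rpow_natCast, ← Real.rpow_mul (by norm_num)]
      norm_num
    linarith
  by_cases hX0 : X = 0
  · subst hX0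
    obtain ⟨_, h3, h4⟩ := h2 n hn2
    refine ⟨((Icc 1 n).filter Nat.Prime).erase 2, ⟨?_, Or.inr ⟨rfl, ?_, ?_⟩⟩, ?_⟩
    · exact (erase_subset _ _).trans (filter_subset _ _)
    · intro y hy
      exact (mem_filter.1 (mem_of_mem_erase hy)).2
    · have h5 : (((Icc 1 n).filter Nat.Prime).card : ℝ) - 1 ≤
          (((Icc 1 n).filter Nat.Prime).erase 2).card := by
        have h6 := Finset.pred_card_le_card_erase (s := (Icc 1 n).filter Nat.Prime) (a := 2)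
        have h7 : ((Icc 1 n).filter Nat.Prime).card ≤
            (((Icc 1 n).filter Nat.Prime).erase 2).card + 1 := by omega
        have h8 : (((Icc 1 n).filter Nat.Prime).card : ℝ) ≤
            (((Icc 1 n).filter Nat.Prime).erase 2).card + 1 := by exact_mod_cast h7
        linarith
      refine le_trans ?_ h5
      rw [div_le_iff₀ hlog]
      have h6 : min c (1 / 4) * (n : ℝ) ≤ 1 / 4 * n :=
        mul_le_mul_of_nonneg_right (min_le_right _ _) (by linarith)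
      nlinarith
    · intro y hy
      rw [mem_erase, mem_filter] at hy
      have hodd : IsOddPrime y := ⟨hy.2.2, hy.2.2.odd_of_ne_two hy.1⟩
      refine ⟨hy.2.2.ne_zero.symm, Or.inl ⟨?_, ?_⟩⟩
      · simpa using hodd
      · left
        simpa [Nat.dist] using hodd
  · have hX1 : X ∈ Icc 1 n := mem_Icc.2 ⟨by omega, hX⟩
    refine ⟨(Icc 1 n).filter (fun y => Pool.Agent.Lib.H59C.ChenAdj n X y),
      ⟨filter_subset _ _, Or.inl ⟨by omega, ?_, ?_⟩⟩, ?_⟩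
    · intro y hy p hp hd
      rw [mem_filter] at hy
      apply hy.2.2 p hp
      rcases hd with hd | hd
      · left
        have : (p : ℤ) ∣ ((X + y : ℕ) : ℤ) := by push_cast; exact hd
        exact Int.natCast_dvd_natCast.1 this
      · right
        have h5 : Nat.dist X y = ((X : ℤ) - y).natAbs := by unfold Nat.dist; omega
        rw [h5]
        exact Int.natCast_dvd.1 hd
    · have h5 := h1 n hn1 X hX1
      refine le_trans ?_ h5
      have h6 : Pool.Agent.Lib.H59C.hl X = SH X := rfl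
      rw [h6]
      have hSH := SH_ge_one X
      apply div_le_div_of_nonneg_right _ (by positivity)
      apply mul_le_mul_of_nonneg_right _ (by linarith)
      exact mul_le_mul_of_nonneg_right (min_le_left _ _) (by linarith)
    · intro y hy
      rw [mem_filter] at hy
      obtain ⟨_, hadj1, hrough⟩ := hy
      have hodd : ∀ p : ℕ, p.Prime → (p ∣ X + y ∨ p ∣ Nat.dist X y) → IsOddPrime p := by
        intro p hp hd
        refine ⟨hp, hp.odd_of_ne_two ?_⟩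
        rintro rfl
        have := hrough 2 hp hd
        norm_num at this h10
        linarith
      have hP1 : ∀ v : ℕ, v.Prime → (v = X + y ∨ v = Nat.dist X y) → IsOddPrime v := by
        intro v hv h
        apply hodd v hv
        rcases h with h | h
        · left; rw [← h]
        · right; rw [← h]
      have hP2 : ∀ v : ℕ, Pool.Agent.Lib.H59C.P2 v → (v = X + y ∨ v = Nat.dist X y) →
          IsOddAlmostPrime v := by
        intro v hv h
        rcases hv with hv | ⟨r, s, hr, hs, hrs⟩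
        · exact Or.inl (hP1 v hv h)
        · right
          refine ⟨r, s, hodd r hr ?_, hodd s hs ?_, hrs⟩
          · have hd : r ∣ v := hrs ▸ dvd_mul_right r s
            rcases h with h | h
            · left; rw [← h]; exact hd
            · right; rw [← h]; exact hd
          · have hd : s ∣ v := hrs ▸ dvd_mul_left s r
            rcases h with h | h
            · left; rw [← h]; exact hd
            · right; rw [← h]; exact hd
      refine ⟨?_, ?_⟩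
      · rintro rfl
        rw [Nat.dist_self] at hadj1
        rcases hadj1 with ⟨_, h⟩ | ⟨h, _⟩
        · rcases h with h | ⟨r, s, hr, hs, hrs⟩
          · exact Nat.not_prime_zero h
          · have := Nat.mul_pos hr.pos hs.pos
            omega
        · exact Nat.not_prime_zero h
      · rcases hadj1 with ⟨h, h'⟩ | ⟨h, h'⟩
        · exact Or.inl ⟨hP1 _ h (Or.inl rfl), hP2 _ h' (Or.inr rfl)⟩
        · exact Or.inr ⟨hP2 _ h' (Or.inl rfl), hP1 _ h (Or.inr rfl)⟩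


end Pool.Agent.Lib.H18C
end
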